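import Pool.Agent.Lib_MP_af4de1_f1.MainC
import Pool.Agent.Lib_MP_af4de1_f1.Glue

/-!
# F1, plan v3: definitions and the list of pieces (captain helper73)

`r > 0`, `δ > 0`, `ρ = r δ`, `R = 1 + ρ²`, `h = 2π/N`, `Γ = r h²/R`, `H = r h/√R`.
A saddle is given by `y` (`Sad.lean`): `x = sx ρ y`, `K = sK ρ y = x + i y`, `η = sE ρ y`, `κ = K/δ`,
`D = |1 - i K|`, level `M = sM r δ y = exp (x (1 + y)/δ)/√D` (`MainC.lean`).
`V0, V1, V2 r δ y ζ` : `E, DE, D²E` at the angle `η + ζ`.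

Right side: `y ≤ 0`, `η ≤ 0`, shifts `ζ ≤ 0`.  Left side: `y ≥ 0`, `η ≥ 0`, shifts `ζ ≥ 0`.
Every piece is a theorem of its own file; the statements are the fields of the structures below.
The classes on the side of `η ≥ 0` are estimated by absolute values on the path through the top saddle of
their own side (`path_formula` with `ξ = ζ I`, `c = 1/(1+x)`, `s1 = 1+x`); then `TwoPiece.U_two`.
-/

set_option autoImplicit false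

namespace SokalV3

open Complex SokalU SokalF1 SokalF1S SokalF1M

/-- `D = |1 - iK|` -/
noncomputable def sD (ρ y : ℝ) : ℝ := √(sD2 ρ y)

/-- the saddle point `κ = K/δ` -/
noncomputable def kap (r δ y : ℝ) : ℂ := sK (r * δ) y / δ

/-- `|K|/D²` -/
noncomputable def kD (r δ y : ℝ) : ℝ := ‖sK (r * δ) y‖ / sD2 (r * δ) y

/-- `E` at the angle `η(y) + ζ` on the circle of radius `r` -/
noncomputable def V0 (r δ y ζ : ℝ) : ℂ := E (tt δ) (wp r δ (sE (r * δ) y + ζ))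

/-- `DE` at the angle `η(y) + ζ` -/
noncomputable def V1 (r δ y ζ : ℝ) : ℂ := DE (tt δ) (wp r δ (sE (r * δ) y + ζ))

/-- `D²E` at the angle `η(y) + ζ` -/
noncomputable def V2 (r δ y ζ : ℝ) : ℂ := SokalBPlus.D2E (tt δ) (wp r δ (sE (r * δ) y + ζ))

/-- The own wave: relative loss `e`, `|κ_E - κ| ≤ k`, `|⟨(κ'-κ)² + κ'⟩| ≤ v`. -/
structure Own (r δ y e k v : ℝ) : Prop where
  o0 : (1 - e) * sM r δ y ≤ ‖V0 r δ y 0‖
  o1 : ‖V1 r δ y 0 - kap r δ y * V0 r δ y 0‖ ≤ k * ‖V0 r δ y 0‖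
  o2 : ‖V2 r δ y 0 - 2 * kap r δ y * V1 r δ y 0 + kap r δ y ^ 2 * V0 r δ y 0‖ ≤
    v * ‖V0 r δ y 0‖

/-- A shifted wave, seen from the saddle `y`, relative to the level `M` of the saddle. -/
structure Shf (r δ y ζ H f0 f1 f2 : ℝ) : Prop where
  s0 : ‖V0 r δ y ζ‖ ≤ f0 * sM r δ y
  s1 : ‖V1 r δ y ζ - kap r δ y * V0 r δ y ζ‖ ≤ f1 * H * sM r δ y
  s2 : ‖V2 r δ y ζ - 2 * kap r δ y * V1 r δ y ζ + kap r δ y ^ 2 * V0 r δ y ζ‖ ≤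
    f2 * H ^ 2 * sM r δ y

/-- Outer waves (any shift outwards) for the localisation. -/
def Out (r δ y ζ C : ℝ) : Prop := ∀ m : ℝ, 0 ≤ m →
  ‖V1 r δ y ζ + m * V0 r δ y ζ‖ ≤ C * (‖kap r δ y‖ + m) * sM r δ y

/-- `R = 1 + ρ²` -/
noncomputable def RR (r δ : ℝ) : ℝ := 1 + (r * δ) ^ 2

/-- `H = r h/√R` -/
noncomputable def HH (N : ℕ) (r δ : ℝ) : ℝ := r * hst N / √(RR r δ)

/-- `Γ = r h²/R` -/
noncomputable def Gm (N : ℕ) (r δ : ℝ) : ℝ := r * hst N ^ 2 / RR r δ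

/-- All parameters with `N ≥ 2`, `δ > 0` left over for the top waves. -/
structure Par (N : ℕ) (r δ : ℝ) : Prop where
  N2 : 2 ≤ N
  r0 : 499 / 10 ≤ r
  d0 : 0 < δ
  G : 27 / 5 ≤ Gm N r δ

/-- Regime I: `N ≥ 3` and `h²/R ≤ 11/10`  (all `ρ` for `N ≥ 6`). -/
structure Reg1 (N : ℕ) (r δ : ℝ) : Prop extends Par N r δ where
  N3 : 3 ≤ N
  I : hst N ^ 2 ≤ 11 / 10 * RR r δ

/-- Regime C: `N ≥ 3` and `h²/R > 11/10` (so `N ≤ 5`, `ρ ≤ 1.73`, `Γ ≥ 54.8`). -/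
structure RegC (N : ℕ) (r δ : ℝ) : Prop extends Par N r δ where
  N3 : 3 ≤ N
  C : 11 / 10 * RR r δ < hst N ^ 2

/-- `N = 2`, `ρ ≥ 3.2`. -/
structure Reg2 (r δ : ℝ) : Prop extends Par 2 r δ where
  rho : 16 / 5 ≤ r * δ

/-- half width of the window, regime I -/
noncomputable def om1 (N : ℕ) (r δ : ℝ) : ℝ :=
  if Gm N r δ < 10 then 1 / 4 else if Gm N r δ < 20 then 3 / 20 else 1 / 10

/-- half width of the window, `N = 2` -/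
noncomputable def om2 (r δ : ℝ) : ℝ :=
  if Gm 2 r δ < 10 then 17 / 100 else if Gm 2 r δ < 20 then 3 / 20 else 1 / 10

/-- outer end of the window, regime I: `|η| ≤ eo1` for every saddle which is used -/
noncomputable def eo1 (N : ℕ) (r δ : ℝ) : ℝ := (1 / 2 + om1 N r δ) * hst N

/-- inner end of the window, regime I -/
noncomputable def ei1 (N : ℕ) (r δ : ℝ) : ℝ := (1 / 2 - om1 N r δ) * hst N

/-- outer end, `N = 2` -/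
noncomputable def eo2 (r δ : ℝ) : ℝ := (1 / 2 + om2 r δ) * hst 2

/-- inner end, `N = 2` -/
noncomputable def ei2 (r δ : ℝ) : ℝ := (1 / 2 - om2 r δ) * hst 2

/-- The saddle `y` belongs to the angle `η`, `-1 < y`. -/
structure At (r δ y η : ℝ) : Prop where
  dom : Dom (r * δ) y
  y1 : -1 < y
  eta : sE (r * δ) y = η

/-- Facts of regime I, `Γ < 10`, for every saddle with `|η| ≤ eo1`. -/
structure SadA (N : ℕ) (r δ y : ℝ) : Prop where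
  lo : -(31 / 100) ≤ y
  hi : y ≤ 41 / 100
  T : |y| ≤ 19 / 50 * sx (r * δ) y
  D : 17 / 20 ≤ sD2 (r * δ) y
  a : kD r δ y ≤ 1 / 20 * HH N r δ

/-- Facts of regime I, `Γ ≥ 10`, for every saddle with `|η| ≤ eo1`. -/
structure SadB (N : ℕ) (r δ y : ℝ) : Prop where
  lo : -(53 / 100) ≤ y
  hi : y ≤ 14 / 25
  T : |y| ≤ 4 / 5 * sx (r * δ) y
  D : 13 / 20 ≤ sD2 (r * δ) y
  a : kD r δ y ≤ 1 / 25 * HH N r δ

/-- the saddle is one of regime I -/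
def Sad1 (N : ℕ) (r δ y : ℝ) : Prop :=
  (Gm N r δ < 10 ∧ SadA N r δ y) ∨ (10 ≤ Gm N r δ ∧ SadB N r δ y)

/-- Facts for `N = 2`, `ρ ≥ 3.2`, for every saddle with `|η| ≤ eo2`. -/
structure Sad2 (r δ y : ℝ) : Prop where
  lo : -(1 / 2) ≤ y
  hi : y ≤ 13 / 20
  T : |y| ≤ 2 / 5 * sx (r * δ) y
  D : 5 ≤ sD2 (r * δ) y

/-- the gap between the inner saddle `a` and the outer saddle `b` -/
structure Gap (r δ ya yb γ : ℝ) : Prop where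
  g0 : Real.exp γ * sM r δ yb ≤ sM r δ ya
  g1 : Real.exp γ * (‖kap r δ yb‖ * sM r δ yb) ≤ ‖kap r δ ya‖ * sM r δ ya

/-- PIECE SAD (regime I). -/
structure PSad1 : Prop where
  ex : ∀ (N : ℕ) (r δ η : ℝ), Reg1 N r δ → |η| ≤ eo1 N r δ → ∃ y, At r δ y η
  sad : ∀ (N : ℕ) (r δ y η : ℝ), Reg1 N r δ → At r δ y η → |η| ≤ eo1 N r δ → Sad1 N r δ y
  /-- inner angles for `Γ < 10` (true .12) -/
  inn : ∀ (N : ℕ) (r δ y η : ℝ), Reg1 N r δ → At r δ y η → Gm N r δ < 10 → |η| ≤ ei1 N r δ →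
    |y| ≤ 3 / 20

/-- PIECE PAIR (regime I): the two saddle points are far apart (true: .928, .945, .936). -/
def PPair1 : Prop := ∀ (N : ℕ) (r δ y0 y1 η : ℝ), Reg1 N r δ → At r δ y0 η →
  At r δ y1 (η - hst N) → Sad1 N r δ y0 → Sad1 N r δ y1 → ei1 N r δ ≤ η → η ≤ eo1 N r δ →
  22 / 25 * HH N r δ ≤ ‖kap r δ y0 - kap r δ y1‖

/-- PIECE GAP (regime I): localisation (true: 1.09 for `L`, 1.27 for `R`). -/
structure PGap1 : Prop where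
  L : ∀ (N : ℕ) (r δ ya yb η : ℝ), Reg1 N r δ → At r δ ya η → At r δ yb (-eo1 N r δ) →
    0 ≤ η → η ≤ ei1 N r δ → Gap r δ ya yb (17 / 20)
  R : ∀ (N : ℕ) (r δ ya yb η : ℝ), Reg1 N r δ → At r δ ya η → At r δ yb (eo1 N r δ) →
    η ≤ 0 → -ei1 N r δ ≤ η → Gap r δ ya yb (17 / 20)

/-- PIECE MAIN (regime I): the own wave (true for the absolute integrals: coefficient of `|K|/D²`
at most .56 / .58, `(1/δ)|<h g>|` at most .07 / .10). -/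
structure POwn1 : Prop where
  L : ∀ (N : ℕ) (r δ y η : ℝ), Reg1 N r δ → At r δ y η → Sad1 N r δ y →
    0 ≤ η → η ≤ eo1 N r δ →
    Own r δ y (2 / 25) (7 / 8 * kD r δ y + HH N r δ / 500)
      (5 / 4 * (‖kap r δ y‖ / sD (r * δ) y) + HH N r δ ^ 2 / 200)
  R : ∀ (N : ℕ) (r δ y η : ℝ), Reg1 N r δ → At r δ y η → Sad1 N r δ y →
    η ≤ 0 → -eo1 N r δ ≤ η →
    Own r δ y (3 / 25) (13 / 10 * kD r δ y + HH N r δ / 500)
      (8 / 5 * (‖kap r δ y‖ / sD (r * δ) y) + HH N r δ ^ 2 / 200)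

/-- PIECE SHIFT (regime I), left side. -/
structure PShfL : Prop where
  /-- first far wave, inner own angles, `Γ < 10` (true .109, .084, .08) -/
  a : ∀ (N : ℕ) (r δ y η : ℝ), Reg1 N r δ → At r δ y η → Sad1 N r δ y → Gm N r δ < 10 →
    0 ≤ η → η ≤ ei1 N r δ → η + hst N ≤ Real.pi →
    Shf r δ y (hst N) (HH N r δ) (1 / 5) (1 / 5) 1
  /-- the same for `Γ ≥ 10` (true .0147, .012) -/
  a' : ∀ (N : ℕ) (r δ y η : ℝ), Reg1 N r δ → At r δ y η → Sad1 N r δ y → 10 ≤ Gm N r δ →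
    0 ≤ η → η ≤ ei1 N r δ → η + hst N ≤ Real.pi →
    Shf r δ y (hst N) (HH N r δ) (3 / 50) (3 / 50) 1
  /-- first far wave in the window, `Γ < 10` (true .033, .025, .057) -/
  b : ∀ (N : ℕ) (r δ y η : ℝ), Reg1 N r δ → At r δ y η → Sad1 N r δ y → Gm N r δ < 10 →
    ei1 N r δ ≤ η → η ≤ eo1 N r δ → η + hst N ≤ Real.pi →
    Shf r δ y (hst N) (HH N r δ) (2 / 25) (2 / 25) (13 / 100)
  /-- first far wave in the window, `Γ ≥ 10` (true 8e-4) -/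
  c : ∀ (N : ℕ) (r δ y η : ℝ), Reg1 N r δ → At r δ y η → Sad1 N r δ y → 10 ≤ Gm N r δ →
    ei1 N r δ ≤ η → η ≤ eo1 N r δ → η + hst N ≤ Real.pi →
    Shf r δ y (hst N) (HH N r δ) (1 / 100) (1 / 100) (1 / 100)
  /-- the other far waves, all own angles (true for `i = 2`: 2.5e-4, 3.5e-4, 5e-4; `i = 3`: 1e-7) -/
  d : ∀ (N i : ℕ) (r δ y η : ℝ), Reg1 N r δ → At r δ y η → Sad1 N r δ y →
    0 ≤ η → η ≤ eo1 N r δ → 2 ≤ i → η + i * hst N ≤ Real.pi →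
    Shf r δ y (i * hst N) (HH N r δ) ((1 / 2) ^ i / 100) ((1 / 2) ^ i / 100) ((1 / 2) ^ i / 100)
  /-- far waves seen from the boundary saddle `η = eo1` (true 3e-3 for `i = 1`, 1e-6 for `i = 2`) -/
  e : ∀ (N i : ℕ) (r δ y ζ : ℝ), Reg1 N r δ → At r δ y (eo1 N r δ) → Sad1 N r δ y →
    1 ≤ i → i * hst N ≤ ζ → eo1 N r δ + ζ ≤ Real.pi →
    Shf r δ y ζ (HH N r δ) ((1 / 2) ^ i / 25) ((1 / 2) ^ i / 25) 1
  /-- outer waves, boundary saddle (true 1.006) -/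
  o : ∀ (N : ℕ) (r δ y ζ : ℝ), Reg1 N r δ → At r δ y (eo1 N r δ) → Sad1 N r δ y →
    0 ≤ ζ → ζ ≤ ei1 N r δ → Out r δ y ζ (23 / 20)

/-- PIECE SHIFT (regime I), right side. -/
structure PShfR : Prop where
  /-- true .092, .080, .10 -/
  a : ∀ (N : ℕ) (r δ y η : ℝ), Reg1 N r δ → At r δ y η → Sad1 N r δ y → Gm N r δ < 10 →
    η ≤ 0 → -ei1 N r δ ≤ η → -Real.pi ≤ η - hst N →
    Shf r δ y (-hst N) (HH N r δ) (1 / 5) (1 / 5) 1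
  /-- the same for `Γ ≥ 10` (true .0104, .0091) -/
  a' : ∀ (N : ℕ) (r δ y η : ℝ), Reg1 N r δ → At r δ y η → Sad1 N r δ y → 10 ≤ Gm N r δ →
    η ≤ 0 → -ei1 N r δ ≤ η → -Real.pi ≤ η - hst N →
    Shf r δ y (-hst N) (HH N r δ) (3 / 50) (3 / 50) 1
  /-- true .024, .026, .034 -/
  b : ∀ (N : ℕ) (r δ y η : ℝ), Reg1 N r δ → At r δ y η → Sad1 N r δ y → Gm N r δ < 10 →
    η ≤ -ei1 N r δ → -eo1 N r δ ≤ η → -Real.pi ≤ η - hst N →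
    Shf r δ y (-hst N) (HH N r δ) (3 / 50) (7 / 100) (3 / 20)
  /-- true 5e-4 -/
  c : ∀ (N : ℕ) (r δ y η : ℝ), Reg1 N r δ → At r δ y η → Sad1 N r δ y → 10 ≤ Gm N r δ →
    η ≤ -ei1 N r δ → -eo1 N r δ ≤ η → -Real.pi ≤ η - hst N →
    Shf r δ y (-hst N) (HH N r δ) (1 / 100) (1 / 100) (1 / 100)
  d : ∀ (N i : ℕ) (r δ y η : ℝ), Reg1 N r δ → At r δ y η → Sad1 N r δ y →
    η ≤ 0 → -eo1 N r δ ≤ η → 2 ≤ i → -Real.pi ≤ η - i * hst N →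
    Shf r δ y (-(i * hst N)) (HH N r δ) ((1 / 2) ^ i / 100) ((1 / 2) ^ i / 100) ((1 / 2) ^ i / 100)
  e : ∀ (N i : ℕ) (r δ y ζ : ℝ), Reg1 N r δ → At r δ y (-eo1 N r δ) → Sad1 N r δ y →
    1 ≤ i → ζ ≤ -(i * hst N) → -Real.pi ≤ -eo1 N r δ + ζ →
    Shf r δ y ζ (HH N r δ) ((1 / 2) ^ i / 25) ((1 / 2) ^ i / 25) 1
  /-- true 1.052 -/
  o : ∀ (N : ℕ) (r δ y ζ : ℝ), Reg1 N r δ → At r δ y (-eo1 N r δ) → Sad1 N r δ y →
    ζ ≤ 0 → -ei1 N r δ ≤ ζ → Out r δ y ζ (5 / 4)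

/-- PIECE C (owner helper2, with DD, MON, GAP; `N = 3, 4, 5`). -/
def PC : Prop := ∀ (N : ℕ) (r δ : ℝ), RegC N r δ → WaveU N δ r

/-- PIECE `δ = 0` (roots of unity; `E` is the exponential function). -/
def PRoot : Prop := ∀ (N : ℕ) (r : ℝ), 2 ≤ N → 499 / 10 ≤ r → 27 / 5 ≤ r * hst N ^ 2 →
  WaveU N 0 r

/-- PIECES for `N = 2`, `ρ ≥ 3.2`. -/
structure P2 : Prop where
  ex : ∀ (r δ η : ℝ), Reg2 r δ → |η| ≤ eo2 r δ → ∃ y, At r δ y η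
  sad : ∀ (r δ y η : ℝ), Reg2 r δ → At r δ y η → |η| ≤ eo2 r δ → Sad2 r δ y
  sadA : ∀ (r δ y η : ℝ), Reg2 r δ → At r δ y η → |η| ≤ eo2 r δ → Gm 2 r δ < 10 →
    -(31 / 100) ≤ y ∧ y ≤ 21 / 50 ∧ |y| ≤ 3 / 20 * sx (r * δ) y
  /-- true .98 -/
  pair : ∀ (r δ y0 y1 η : ℝ), Reg2 r δ → At r δ y0 η → At r δ y1 (η - hst 2) →
    ei2 r δ ≤ η → η ≤ eo2 r δ → 47 / 50 * HH 2 r δ ≤ ‖kap r δ y0 - kap r δ y1‖
  /-- true .67 -/
  gapL : ∀ (r δ ya yb η : ℝ), Reg2 r δ → At r δ ya η → At r δ yb (-eo2 r δ) →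
    0 ≤ η → η ≤ ei2 r δ → Gap r δ ya yb (1 / 2)
  gapR : ∀ (r δ ya yb η : ℝ), Reg2 r δ → At r δ ya η → At r δ yb (eo2 r δ) →
    η ≤ 0 → -ei2 r δ ≤ η → Gap r δ ya yb (1 / 2)
  /-- true tails (absolute): .0122, .0244, .0491 -/
  own : ∀ (r δ y η : ℝ), Reg2 r δ → At r δ y η → Sad2 r δ y → |η| ≤ eo2 r δ →
    (|η| ≤ hst 2 / 2 ∨ 20 ≤ Gm 2 r δ) →
    Own r δ y (13 / 100) (11 / 200 * HH 2 r δ) (3 / 25 * HH 2 r δ ^ 2)
  /-- true tails (absolute): .0187, .0379, .0762 -/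
  own2 : ∀ (r δ y η : ℝ), Reg2 r δ → At r δ y η → Sad2 r δ y → |η| ≤ eo2 r δ →
    10 ≤ Gm 2 r δ → Gm 2 r δ < 20 →
    Own r δ y (1 / 4) (2 / 25 * HH 2 r δ) (1 / 5 * HH 2 r δ ^ 2)
  /-- true tails (absolute): .075, .150, .30 -/
  ownA : ∀ (r δ y η : ℝ), Reg2 r δ → At r δ y η → Sad2 r δ y → |η| ≤ eo2 r δ →
    Gm 2 r δ < 17 / 2 →
    Own r δ y (1 / 4) (3 / 10 * HH 2 r δ) (3 / 5 * HH 2 r δ ^ 2)
  /-- true tails (absolute): .039, .079, .16 -/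
  ownA2 : ∀ (r δ y η : ℝ), Reg2 r δ → At r δ y η → Sad2 r δ y → |η| ≤ eo2 r δ →
    17 / 2 ≤ Gm 2 r δ → Gm 2 r δ < 10 →
    Own r δ y (1 / 4) (1 / 4 * HH 2 r δ) (1 / 2 * HH 2 r δ ^ 2)
  /-- true 1.16 -/
  outL : ∀ (r δ y ζ : ℝ), Reg2 r δ → At r δ y (eo2 r δ) → Sad2 r δ y →
    0 ≤ ζ → eo2 r δ + ζ ≤ Real.pi → Out r δ y ζ (27 / 20)
  /-- true 1.05 -/
  outR : ∀ (r δ y ζ : ℝ), Reg2 r δ → At r δ y (-eo2 r δ) → Sad2 r δ y →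
    ζ ≤ 0 → -Real.pi ≤ -eo2 r δ + ζ → Out r δ y ζ (13 / 10)

end SokalV3
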