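import Pool.Agent.Lib_MP_af4de1_v3.V3

/-!
# Regime C: the two saddle points are far apart

`|κ0 - κ1| ≥ 7/10 r`, for all pairs with `y1 ≤ 0 ≤ y0`, by `h² > 11/10 (1 + ρ²)`.
-/

set_option autoImplicit false

namespace SokalV3

open Complex SokalU SokalF1 SokalF1S SokalF1M

theorem sin_ge_of {p : ℝ} (h1 : 781 / 1000 ≤ p) (h2 : p ≤ Real.pi / 2) : 7 / 10 ≤ Real.sin p := by
  have h3 : (7 : ℝ) / 10 ≤ Real.sin (781 / 1000) := by
    have := Real.sin_gt_sub_cube (x := 781 / 1000) (by norm_num)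
    norm_num at this ⊢
    linarith
  have h4 : Real.sin (781 / 1000) ≤ Real.sin p := by
    refine Real.sin_le_sin_of_le_of_le_pi_div_two ?_ h2 h1
    have := Real.pi_pos
    linarith
  linarith

theorem normSq_sK_sub {ρ y0 y1 : ℝ} (h0 : Dom ρ y0) (h1 : Dom ρ y1) :
    ‖sK ρ y0 - sK ρ y1‖ ^ 2 = (ρ * Real.exp (-y0)) ^ 2 + (ρ * Real.exp (-y1)) ^ 2 -
      2 * (ρ * Real.exp (-y0)) * (ρ * Real.exp (-y1)) * Real.cos (sP ρ y0 - sP ρ y1) := by
  rw [sK_polar h0, sK_polar h1, Complex.sq_norm, Complex.normSq_apply, Real.cos_sub]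
  simp only [Complex.sub_re, Complex.sub_im, Complex.mul_re, Complex.mul_im, Complex.ofReal_re,
    Complex.ofReal_im, Complex.exp_ofReal_mul_I_re, Complex.exp_ofReal_mul_I_im, zero_mul, sub_zero, add_zero]
  have e0 := Real.sin_sq_add_cos_sq (sP ρ y0)
  have e1 := Real.sin_sq_add_cos_sq (sP ρ y1)
  linear_combination (ρ * Real.exp (-y0)) ^ 2 * e0 + (ρ * Real.exp (-y1)) ^ 2 * e1

/-- `|K0 - K1| ≥ 7/10 ρ` -/
theorem sK_sub_ge {ρ y0 y1 h : ℝ} (h0 : Dom ρ y0) (h1 : Dom ρ y1) (hy0 : 0 ≤ y0) (hy1 : y1 ≤ 0)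
    (hh : 0 < h) (hη : sE ρ y0 - sE ρ y1 = h) (hC : 11 / 10 * (1 + ρ ^ 2) ≤ h ^ 2) :
    7 / 10 * ρ ≤ ‖sK ρ y0 - sK ρ y1‖ := by
  have hρ := h0.pos
  set p := sP ρ y0 - sP ρ y1 with hp
  have hp0 : 0 ≤ p := by
    have := sP_nonneg hρ hy0
    have := sP_nonpos hρ hy1
    rw [hp]; linarith
  have hb : ρ ≤ ρ * Real.exp (-y1) := by
    refine le_mul_of_one_le_right hρ.le ?_
    rw [← Real.exp_zero]
    exact Real.exp_le_exp.2 (by linarith)
  have ha : 0 < ρ * Real.exp (-y0) := by positivity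
  rcases lt_or_ge p (781 / 1000) with hc | hc
  · -- real parts
    have e1 : (sK ρ y1 - sK ρ y0).re = h - p := by
      have h3 : sx ρ y1 - sx ρ y0 = h - p := by
        rw [← hη, hp]; unfold sE; ring
      rw [← h3]
      unfold sK
      simp
    have e2 : 7 / 10 * ρ ≤ h - p := by
      have h4 : (p + 7 / 10 * ρ) ^ 2 ≤ h ^ 2 := by
        have h5 : (p + 7 / 10 * ρ) ^ 2 ≤ (p ^ 2 + (7 / 10) ^ 2) * (1 + ρ ^ 2) := by
          nlinarith [sq_nonneg (p * ρ - 7 / 10)]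
        have h6 : p ^ 2 + (7 / 10) ^ 2 ≤ 11 / 10 := by nlinarith
        have h7 : (p ^ 2 + (7 / 10) ^ 2) * (1 + ρ ^ 2) ≤ 11 / 10 * (1 + ρ ^ 2) :=
          mul_le_mul_of_nonneg_right h6 (by positivity)
        linarith
      have h5 := abs_le_of_sq_le_sq' h4 hh.le
      linarith [h5.2]
    have h4 := Complex.re_le_norm (sK ρ y1 - sK ρ y0)
    rw [norm_sub_rev, e1] at h4
    linarith
  · -- sine
    refine abs_le_of_sq_le_sq' ?_ (norm_nonneg _) |>.2
    rw [normSq_sK_sub h0 h1, ← hp]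
    set a := ρ * Real.exp (-y0)
    set b := ρ * Real.exp (-y1)
    have hb2 : ρ ^ 2 ≤ b ^ 2 := pow_le_pow_left₀ hρ.le hb 2
    rcases le_or_gt p (Real.pi / 2) with h2 | h2
    · have hs := sin_ge_of hc h2
      have e3 := Real.sin_sq_add_cos_sq p
      have h5 : (7 / 10) ^ 2 ≤ Real.sin p ^ 2 := pow_le_pow_left₀ (by norm_num) hs 2
      have h6 : (7 / 10) ^ 2 * b ^ 2 ≤ Real.sin p ^ 2 * b ^ 2 := mul_le_mul_of_nonneg_right h5 (sq_nonneg b)
      nlinarith [sq_nonneg (a - b * Real.cos p)]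
    · have hcos : Real.cos p ≤ 0 := by
        refine Real.cos_nonpos_of_pi_div_two_le_of_le h2.le ?_
        have := (abs_le.1 (sP_abs_le ρ y0)).2
        have := (abs_le.1 (sP_abs_le ρ y1)).1
        have := Real.pi_pos
        rw [hp]; linarith
      have h5 : 0 ≤ a * b * (-Real.cos p) := mul_nonneg (mul_nonneg ha.le (hρ.le.trans hb)) (by linarith)
      nlinarith [sq_nonneg a]

/-- PAIR, regime C -/
theorem pairC {N : ℕ} {r δ y0 y1 η : ℝ} (hR : RegC N r δ) (h0 : At r δ y0 η) (h1 : At r δ y1 (η - hst N))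
    (hy0 : 0 ≤ y0) (hy1 : y1 ≤ 0) : 7 / 10 * r ≤ ‖kap r δ y0 - kap r δ y1‖ := by
  have hδ := hR.d0
  have hh : 0 < hst N := by
    unfold hst
    have : (0 : ℝ) < N := by exact_mod_cast (by have := hR.N3; omega : 0 < N)
    have := Real.pi_pos
    positivity
  have key := sK_sub_ge h0.dom h1.dom hy0 hy1 hh (by rw [h0.eta, h1.eta]; ring)
    (by have := hR.C; unfold RR at this; exact this.le)
  have e : kap r δ y0 - kap r δ y1 = (sK (r * δ) y0 - sK (r * δ) y1) / δ := by unfold kap; ring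
  rw [e, norm_div, Complex.norm_real, Real.norm_of_nonneg hδ.le, le_div_iff₀ hδ]
  linarith

end SokalV3
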