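import Pool.Agent.Lib_MP_af4de1_f1.Sad

/-!
# Elementary two sided facts between `η = sE ρ y` and `y`

With `ψ = sP ρ y` (`sin ψ = y e^y/ρ`, `cos ψ = x e^y/ρ`):
`η = ρ (1 - e^(-y)) + ψ + y (1 - cos ψ)/sin ψ`.
-/

set_option autoImplicit false

namespace SokalV3

open Real Set SokalF1S

/-- `2 ψ sin ψ ≥ (1 - cos ψ)(3 + cos ψ)` on `[0, π/2]`. -/
theorem trig_ge {ψ : ℝ} (h0 : 0 ≤ ψ) (h1 : ψ ≤ π / 2) :
    (1 - Real.cos ψ) * (3 + Real.cos ψ) ≤ 2 * ψ * Real.sin ψ := by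
  have hm : MonotoneOn (fun u : ℝ => 2 * u * Real.sin u - (1 - Real.cos u) * (3 + Real.cos u))
      (Icc 0 (π / 2)) := by
    have hd : ∀ u : ℝ, HasDerivAt (fun u : ℝ => 2 * u * Real.sin u -
        (1 - Real.cos u) * (3 + Real.cos u)) (2 * Real.cos u * (u - Real.sin u)) u := by
      intro u
      have e1 : HasDerivAt (fun u : ℝ => 2 * u) 2 u := by
        simpa using (hasDerivAt_id u).const_mul (2 : ℝ)
      have e2 := e1.mul (Real.hasDerivAt_sin u)
      have e3 := ((Real.hasDerivAt_cos u).const_sub 1).mul ((Real.hasDerivAt_cos u).const_add 3)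
      refine (e2.sub e3).congr_deriv ?_
      ring
    refine monotoneOn_of_deriv_nonneg (convex_Icc _ _)
      (fun u _ => (hd u).continuousAt.continuousWithinAt)
      (fun u _ => (hd u).differentiableAt.differentiableWithinAt) (fun u hu => ?_)
    rw [interior_Icc] at hu
    rw [(hd u).deriv]
    have h2 : 0 ≤ Real.cos u := Real.cos_nonneg_of_mem_Icc ⟨by linarith [hu.1], hu.2.le⟩
    have h3 : 0 ≤ u - Real.sin u := by
      have := Real.sin_le hu.1.le
      linarith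
    positivity
  have := hm (left_mem_Icc.2 (by positivity)) ⟨h0, h1⟩ h0
  simp only [mul_zero, Real.sin_zero, Real.cos_zero, sub_self, zero_mul] at this
  linarith

theorem exp_mul_neg (y : ℝ) : Real.exp y * Real.exp (-y) = 1 := by rw [← Real.exp_add]; simp

/-- `x = ρ e^(-y) cos ψ` -/
theorem sx_eq {ρ y : ℝ} (h : Dom ρ y) : sx ρ y = ρ * Real.exp (-y) * Real.cos (sP ρ y) := by
  have hρ := h.1
  rw [h.cos]
  have e1 := exp_mul_neg y
  field_simp
  linear_combination (-(sx ρ y)) * e1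

/-- `y = ρ e^(-y) sin ψ` -/
theorem y_eq {ρ y : ℝ} (h : Dom ρ y) : y = ρ * Real.exp (-y) * Real.sin (sP ρ y) := by
  have hρ := h.1
  rw [h.sin]
  have e1 := exp_mul_neg y
  have : ρ * Real.exp (-y) * (y * Real.exp y / ρ) = y * (Real.exp y * Real.exp (-y)) := by
    field_simp
  rw [this, e1, mul_one]

/-- `y e^y = ρ sin ψ` -/
theorem y_exp_eq {ρ y : ℝ} (h : Dom ρ y) : y * Real.exp y = ρ * Real.sin (sP ρ y) := by
  have hρ := h.1
  rw [h.sin]
  field_simp

/-- (E+) -/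
theorem sE_ge_pos {ρ y : ℝ} (h : Dom ρ y) (hy : 0 ≤ y) :
    ρ * (1 - Real.exp (-y)) + (y + y ^ 2 / 2) * Real.exp y / ρ ≤ sE ρ y := by
  have hρ := h.1
  have hψ0 := sP_nonneg (y := y) hρ hy
  have hE' := Real.exp_pos (-y)
  have hye := y_exp_eq h
  have hyr := y_eq h
  have hxr := sx_eq h
  set ψ := sP ρ y with hψ
  have hη : sE ρ y = ψ + ρ - sx ρ y := rfl
  rw [hη, hxr]
  have hsin : Real.sin ψ ≤ ψ := Real.sin_le hψ0
  have hsc := Real.sin_sq_add_cos_sq ψ
  have h2 : (y + y ^ 2 / 2) * Real.exp y / ρ = (1 + y / 2) * Real.sin ψ := by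
    rw [div_eq_iff hρ.ne']
    linear_combination (1 + y / 2) * hye
  rw [h2]
  have h4 : Real.sin ψ * Real.sin ψ / 2 ≤ 1 - Real.cos ψ := by nlinarith [sq_nonneg (1 - Real.cos ψ)]
  have h5 : 0 ≤ ρ * Real.exp (-y) := by positivity
  have h6 : ρ * Real.exp (-y) * (Real.sin ψ * Real.sin ψ / 2) ≤
      ρ * Real.exp (-y) * (1 - Real.cos ψ) := mul_le_mul_of_nonneg_left h4 h5
  have h3 : y * Real.sin ψ / 2 = ρ * Real.exp (-y) * (Real.sin ψ * Real.sin ψ / 2) := by
    linear_combination (Real.sin ψ / 2) * hyr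
  linarith

/-- (E-) -/
theorem sE_le_neg {ρ t : ℝ} (h : Dom ρ (-t)) (ht : 0 ≤ t) (ht1 : t ≤ 1) :
    ρ * (Real.exp t - 1) + (t - t ^ 2 / 2) * Real.exp (-t) / ρ ≤ -sE ρ (-t) := by
  have hρ := h.1
  have hψ0 := sP_nonpos (y := -t) hρ (by linarith)
  have hE' := Real.exp_pos t
  have hye := y_exp_eq h
  have hyr := y_eq h
  have hxr := sx_eq h
  have hψ1 := (abs_le.1 (sP_abs_le ρ (-t))).1
  rw [neg_neg] at hyr hxr
  set ψ := -sP ρ (-t) with hψ
  have hsP : sP ρ (-t) = -ψ := by rw [hψ]; ring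
  rw [hsP, Real.sin_neg] at hye hyr
  rw [hsP, Real.cos_neg] at hxr
  have hη : sE ρ (-t) = -ψ + ρ - sx ρ (-t) := by rw [← hsP]; rfl
  rw [hη, hxr]
  have hψ0' : 0 ≤ ψ := by rw [hψ]; linarith
  have hψ1' : ψ ≤ π / 2 := by rw [hψ]; linarith
  have hsin0 : 0 ≤ Real.sin ψ := Real.sin_nonneg_of_nonneg_of_le_pi hψ0' (by linarith [Real.pi_pos])
  have hsc := Real.sin_sq_add_cos_sq ψ
  have h2 : (t - t ^ 2 / 2) * Real.exp (-t) / ρ = (1 - t / 2) * Real.sin ψ := by
    rw [div_eq_iff hρ.ne']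
    linear_combination (-(1 - t / 2)) * hye
  rw [h2]
  have hty : t = ρ * Real.exp t * Real.sin ψ := by linear_combination -hyr
  have htg := trig_ge hψ0' hψ1'
  have hcos1 := Real.cos_le_one ψ
  have hcos0 : 0 ≤ Real.cos ψ := Real.cos_nonneg_of_mem_Icc ⟨by linarith, hψ1'⟩
  -- it remains: ψ - (1 - t/2) sin ψ ≥ ρ e^t (1 - cos ψ)
  rcases hsin0.eq_or_lt with hs | hs
  · have hψz : ψ = 0 := by
      rcases hψ0'.eq_or_lt with h | h
      · exact h.symm
      · exact absurd hs.symm (Real.sin_pos_of_pos_of_lt_pi h (by linarith [Real.pi_pos])).ne'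
    rw [hψz]
    simp only [Real.sin_zero, Real.cos_zero]
    linarith
  · have key : ρ * Real.exp t * (1 - Real.cos ψ) ≤ ψ - (1 - t / 2) * Real.sin ψ := by
      have h7 : Real.sin ψ * (ρ * Real.exp t * (1 - Real.cos ψ)) ≤
          Real.sin ψ * (ψ - (1 - t / 2) * Real.sin ψ) := by
        have e7 : Real.sin ψ * (ρ * Real.exp t * (1 - Real.cos ψ)) = t * (1 - Real.cos ψ) := by
          linear_combination (-(1 - Real.cos ψ)) * hty
        rw [e7]
        have hs2 : Real.sin ψ ^ 2 = (1 - Real.cos ψ) * (1 + Real.cos ψ) := by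
          linear_combination hsc
        have e8 : Real.sin ψ * (ψ - (1 - t / 2) * Real.sin ψ) =
            ψ * Real.sin ψ - (1 - t / 2) * ((1 - Real.cos ψ) * (1 + Real.cos ψ)) := by
          linear_combination (-(1 - t / 2)) * hs2
        rw [e8]
        nlinarith [mul_nonneg (sq_nonneg (1 - Real.cos ψ)) (by linarith : (0 : ℝ) ≤ 1 - t)]
      exact le_of_mul_le_mul_left h7 hs
    linarith

/-- `2 y + y² ≤ η` -/
theorem two_y_le {ρ y : ℝ} (h : Dom ρ y) (hy : 0 ≤ y) : 2 * y + y ^ 2 ≤ sE ρ y := by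
  have hρ := h.1
  refine le_trans ?_ (sE_ge_pos h hy)
  have hE := Real.exp_pos y
  have hE' := Real.exp_pos (-y)
  have e1 := exp_mul_neg y
  have hquad : 1 + y + y ^ 2 / 2 ≤ Real.exp y := Real.quadratic_le_exp_of_nonneg hy
  set q := y + y ^ 2 / 2 with hq
  have hq0 : 0 ≤ q := by positivity
  have h1 : q ≤ Real.exp y - 1 := by rw [hq]; linarith
  -- 2 q ≤ ρ a + q e^y/ρ, a = 1 - e^{-y}, a e^y = e^y - 1 ≥ q
  have h2 : 0 ≤ (ρ * (1 - Real.exp (-y)) * Real.exp y - Real.exp y * q) ^ 2 := sq_nonneg _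
  rw [div_eq_mul_inv, show 2 * y + y ^ 2 = 2 * q by rw [hq]; ring]
  have h3 : 0 < ρ⁻¹ := inv_pos.2 hρ
  have h4 : (1 - Real.exp (-y)) * Real.exp y = Real.exp y - 1 := by linear_combination (-1 : ℝ) * e1
  have h5 : ρ * (1 - Real.exp (-y)) = ρ * (Real.exp y - 1) * Real.exp (-y) := by
    linear_combination (-ρ) * e1
  rw [h5]
  have h6 : ρ * q * Real.exp (-y) ≤ ρ * (Real.exp y - 1) * Real.exp (-y) := by
    have : ρ * q ≤ ρ * (Real.exp y - 1) := mul_le_mul_of_nonneg_left h1 hρ.le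
    exact mul_le_mul_of_nonneg_right this hE'.le
  have h7 : 2 * q ≤ ρ * q * Real.exp (-y) + q * Real.exp y * ρ⁻¹ := by
    have h8 : 2 ≤ ρ * Real.exp (-y) + Real.exp y * ρ⁻¹ := by
      have h9 : (ρ * Real.exp (-y)) * (Real.exp y * ρ⁻¹) = 1 := by
        have : ρ * ρ⁻¹ = 1 := mul_inv_cancel₀ hρ.ne'
        linear_combination (ρ * ρ⁻¹) * e1 + this
      nlinarith [sq_nonneg (ρ * Real.exp (-y) - Real.exp y * ρ⁻¹),
        mul_pos hρ hE', mul_pos hE h3]
    nlinarith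
  linarith

/-- `2 t - t² ≤ |η|` -/
theorem two_t_le {ρ t : ℝ} (h : Dom ρ (-t)) (ht : 0 ≤ t) (ht1 : t ≤ 1) :
    2 * t - t ^ 2 ≤ -sE ρ (-t) := by
  have hρ := h.1
  refine le_trans ?_ (sE_le_neg h ht ht1)
  have hE := Real.exp_pos t
  have hE' := Real.exp_pos (-t)
  have e1 := exp_mul_neg t
  -- 1 - e^{-t} ≥ t - t²/2
  have hquad : Real.exp (-t) ≤ 1 - t + t ^ 2 / 2 := by
    have hd : MonotoneOn (fun u : ℝ => 1 - u + u ^ 2 / 2 - Real.exp (-u)) (Ici 0) := by
      have hd1 : ∀ u : ℝ, HasDerivAt (fun u : ℝ => 1 - u + u ^ 2 / 2 - Real.exp (-u))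
          (u - 1 + Real.exp (-u)) u := by
        intro u
        have e2 : HasDerivAt (fun u : ℝ => Real.exp (-u)) (-Real.exp (-u)) u := by
          have := (hasDerivAt_neg u).exp
          simpa using this
        have e3 : HasDerivAt (fun u : ℝ => u ^ 2 / 2) u u := by
          have := (hasDerivAt_pow 2 u).div_const 2
          refine this.congr_deriv ?_
          simp
        have e4 : HasDerivAt (fun u : ℝ => 1 - u) (-1) u := by
          simpa using (hasDerivAt_id u).const_sub (1 : ℝ)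
        refine ((e4.add e3).sub e2).congr_deriv ?_
        ring
      refine monotoneOn_of_deriv_nonneg (convex_Ici _)
        (fun u _ => (hd1 u).continuousAt.continuousWithinAt)
        (fun u _ => (hd1 u).differentiableAt.differentiableWithinAt) (fun u _ => ?_)
      rw [(hd1 u).deriv]
      have := Real.add_one_le_exp (-u)
      linarith
    have := hd (mem_Ici.2 (le_refl 0)) (mem_Ici.2 ht) ht
    simp at this
    linarith
  set q := t - t ^ 2 / 2 with hq
  have hq0 : 0 ≤ q := by rw [hq]; nlinarith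
  have h1 : q ≤ 1 - Real.exp (-t) := by rw [hq]; linarith
  rw [div_eq_mul_inv, show 2 * t - t ^ 2 = 2 * q by rw [hq]; ring]
  have h3 : 0 < ρ⁻¹ := inv_pos.2 hρ
  have h5 : ρ * (Real.exp t - 1) = ρ * (1 - Real.exp (-t)) * Real.exp t := by
    linear_combination ρ * e1
  rw [h5]
  have h6 : ρ * q * Real.exp t ≤ ρ * (1 - Real.exp (-t)) * Real.exp t := by
    have : ρ * q ≤ ρ * (1 - Real.exp (-t)) := mul_le_mul_of_nonneg_left h1 hρ.le
    exact mul_le_mul_of_nonneg_right this hE.le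
  have h7 : 2 * q ≤ ρ * q * Real.exp t + q * Real.exp (-t) * ρ⁻¹ := by
    have h8 : 2 ≤ ρ * Real.exp t + Real.exp (-t) * ρ⁻¹ := by
      have h9 : (ρ * Real.exp t) * (Real.exp (-t) * ρ⁻¹) = 1 := by
        have : ρ * ρ⁻¹ = 1 := mul_inv_cancel₀ hρ.ne'
        linear_combination (ρ * ρ⁻¹) * e1 + this
      nlinarith [sq_nonneg (ρ * Real.exp t - Real.exp (-t) * ρ⁻¹),
        mul_pos hρ hE, mul_pos hE' h3]
    nlinarith
  linarith

/-- `ψ ≤ η` for `y ≥ 0` -/
theorem sP_le_sE {ρ y : ℝ} (h : Dom ρ y) (hy : 0 ≤ y) : sP ρ y ≤ sE ρ y := by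
  have h1 := sx_le h
  have h2 : ρ * Real.exp (-y) ≤ ρ := by
    have : Real.exp (-y) ≤ 1 := Real.exp_le_one_iff.2 (by linarith)
    nlinarith [h.1]
  unfold sE
  linarith

end SokalV3
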