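import Pool.Agent.Lib_MP_af4de1_v3.V3
import Pool.Agent.Lib_MP_af4de1_f1.MainB7

/-!
# The own wave: from the brackets to `Own`
-/

set_option autoImplicit false

open Complex MeasureTheory Set SokalU SokalPG SokalF1 SokalF1S SokalF1M SokalF1G SokalF1B

namespace SokalV3

/-- The tails `∫_{|s| ≥ 3/2} ‖..‖` on the path through the saddle point. -/
noncomputable def Tl (r δ y : ℝ) (w : ℂ → ℂ) : ℝ :=
  ∫ s in {s : ℝ | 3 / 2 ≤ |s|},
    ‖gi (1 + sx (r * δ) y)⁻¹ (1 + sx (r * δ) y) w (sK (r * δ) y / δ) 0 (-((δ : ℂ) * I)) s‖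

theorem Own.mono {r δ y e k v e' k' v' : ℝ} (h : Own r δ y e k v) (hy : -1 < y) (he : e ≤ e')
    (hk : k ≤ k') (hv : v ≤ v') : Own r δ y e' k' v' := by
  have hM := (sM_pos (r := r) (δ := δ) hy).le
  refine ⟨le_trans ?_ h.o0, h.o1.trans ?_, h.o2.trans ?_⟩
  · gcongr
  · gcongr
  · gcongr

theorem norm_kap_div {r δ y : ℝ} (hδ : 0 < δ) : ‖kap r δ y‖ = ‖sK (r * δ) y‖ / δ := by
  unfold kap
  rw [norm_div, Complex.norm_real, Real.norm_of_nonneg hδ.le]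

/-- `Own` from bounds for the three brackets. -/
theorem own_glue {r δ y c s1 e k v : ℝ} (hc : 0 < c) (hs : 0 < s1) (hcs : c * s1 ≤ 1)
    (hδ : 0 < δ) (hD : Dom (r * δ) y) (hy : -1 < y) (hk : |y| < c * s1) (he : e < 1)
    (h0 : (1 - e) * sG r δ y ≤ ‖br c s1 δ (sK (r * δ) y / δ) (fun _ => 1)‖)
    (h1 : ‖kap r δ y‖ * ‖br c s1 δ (sK (r * δ) y / δ) gs‖ ≤
      k * (sD (r * δ) y * ((1 - e) * sG r δ y)))
    (h2 : ‖kap r δ y‖ / sD (r * δ) y *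
      (1 + ‖br c s1 δ (sK (r * δ) y / δ) (fun h => h * gs h)‖ / (δ * ((1 - e) * sG r δ y))) ≤ v) :
    Own r δ y e k v := by
  have hG := sG_pos (r := r) hδ hy
  have hM := sM_pos (r := r) (δ := δ) hy
  have hd : (δ : ℂ) ≠ 0 := by exact_mod_cast hδ.ne'
  set κ : ℂ := sK (r * δ) y / δ with hκ
  have hkap : kap r δ y = κ := rfl
  have hK : (δ : ℂ) * κ = sK (r * δ) y := by rw [hκ, mul_div_cancel₀ _ hd]
  have hDp : 0 < sD (r * δ) y := Real.sqrt_pos.2 (sD2_pos hy)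
  have hn : ‖1 - I * (δ * κ)‖ = sD (r * δ) y := by rw [hK, norm_one_sub']; rfl
  have hK0 : 1 - I * (δ * κ) ≠ 0 := norm_pos_iff.1 (by rw [hn]; exact hDp)
  have hk' : |κ.im| < c * s1 / δ := by
    have e : κ = ((1 / δ : ℝ) : ℂ) * sK (r * δ) y := by rw [hκ]; push_cast; ring
    have e2 : (sK (r * δ) y).im = y := by unfold sK; simp
    rw [e, Complex.im_ofReal_mul, e2, abs_mul, abs_of_pos (by positivity : 0 < 1 / δ), one_div,
      inv_mul_eq_div]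
    gcongr
  set b1 := br c s1 δ κ (fun _ => 1) with hb1
  have he0' : 0 < 1 - e := by linarith
  have hpos : 0 < (1 - e) * sG r δ y := mul_pos he0' hG
  have hb1p : 0 < ‖b1‖ := lt_of_lt_of_le hpos h0
  have hb1n : b1 ≠ 0 := norm_pos_iff.1 hb1p
  have hnE := norm_E hc hs hcs hδ hk'
  rw [← wp_eq_zp hδ hD, hκ, S_re hδ, ← hκ, ← hb1] at hnE
  have hnE2 : ‖E (tt δ) (wp r δ (sE (r * δ) y))‖ = sM r δ y * (‖b1‖ / sG r δ y) := by
    have h3 := sM_sG (r := r) hδ hy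
    rw [show tt δ = -((δ : ℂ) * I) from rfl, hnE, mul_div_right_comm, h3]
    ring
  have hE0 : E (tt δ) (wp r δ (sE (r * δ) y)) ≠ 0 := by
    rw [← norm_pos_iff, hnE2]
    positivity
  have hr1 : 1 - e ≤ ‖b1‖ / sG r δ y := by rwa [le_div_iff₀ hG]
  set w := wp r δ (sE (r * δ) y) with hw
  have hV0 : V0 r δ y 0 = E (tt δ) w := by unfold V0; rw [add_zero]
  have hV1 : V1 r δ y 0 = DE (tt δ) w := by unfold V1; rw [add_zero]
  have hV2 : V2 r δ y 0 = SokalBPlus.D2E (tt δ) w := by unfold V2; rw [add_zero]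
  set κ' : ℂ := DE (tt δ) w / E (tt δ) w with hκ'
  have hwz : w = zp (-((δ : ℂ) * I)) κ := wp_eq_zp hδ hD
  have hdiv := DE_div hc hs hcs hδ hk' (κ' := κ') (by rw [hκ', hwz]; rfl) hb1n hK0
  have hdiv2 := D2E_div hc hs hcs hδ hk' (κ' := κ') (by rw [hκ', hwz]; rfl) hb1n hK0
  rw [← hwz, ← D2E_Ef] at hdiv2
  have hbound : ‖κ' - κ‖ ≤ k := by
    rw [hdiv, norm_div, norm_mul, norm_mul, hn, div_le_iff₀ (by positivity)]
    refine h1.trans ?_
    have hk0 : 0 ≤ k := by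
      by_contra h6
      push Not at h6
      have h7 : 0 ≤ ‖kap r δ y‖ * ‖br c s1 δ κ gs‖ := by positivity
      have h8 : k * (sD (r * δ) y * ((1 - e) * sG r δ y)) < 0 :=
        mul_neg_of_neg_of_pos h6 (by positivity)
      linarith
    gcongr
  have hdiff : ∀ a : ℂ, DE (tt δ) w - a * E (tt δ) w = (κ' - a) * E (tt δ) w := by
    intro a
    rw [hκ']
    field_simp
  refine ⟨?_, ?_, ?_⟩
  · rw [hV0, hnE2, mul_comm]
    exact mul_le_mul_of_nonneg_left hr1 hM.le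
  · rw [hV0, hV1, hkap, hdiff, norm_mul]
    exact mul_le_mul_of_nonneg_right hbound (norm_nonneg _)
  · rw [hV0, hV1, hV2, hkap]
    have h3 : SokalBPlus.D2E (tt δ) w - 2 * κ * DE (tt δ) w + κ ^ 2 * E (tt δ) w =
        (SokalBPlus.D2E (tt δ) w / E (tt δ) w - κ' ^ 2 + (κ' - κ) ^ 2) * E (tt δ) w := by
      rw [hκ']
      field_simp
      ring
    rw [h3, norm_mul]
    refine mul_le_mul_of_nonneg_right ?_ (norm_nonneg _)
    have h4 : SokalBPlus.D2E (tt δ) w / E (tt δ) w - κ' ^ 2 + (κ' - κ) ^ 2 =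
        κ / (1 - I * (δ * κ)) * (1 - I / δ * (br c s1 δ κ (fun h => h * gs h) / b1)) := by
      have h5 : SokalBPlus.D2E (tt δ) w / E (tt δ) w - κ' ^ 2 =
        κ / (1 - I * (δ * κ)) * (1 - I / δ * (br c s1 δ κ (fun h => h * gs h) / b1)) -
          (κ' - κ) ^ 2 := hdiv2
      rw [h5]
      ring
    rw [h4, norm_mul, norm_div, hn]
    refine le_trans ?_ h2
    rw [hkap]
    refine mul_le_mul_of_nonneg_left ?_ (by positivity)
    refine (norm_sub_le _ _).trans ?_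
    rw [norm_one, norm_mul, norm_div, Complex.norm_I, Complex.norm_real,
      Real.norm_of_nonneg hδ.le, norm_div]
    have h6 : 1 / δ * (‖br c s1 δ κ (fun h => h * gs h)‖ / ‖b1‖) ≤
        ‖br c s1 δ κ (fun h => h * gs h)‖ / (δ * ((1 - e) * sG r δ y)) := by
      rw [div_mul_div_comm, one_mul]
      gcongr
    linarith

theorem sG_eq_Gn (r δ y : ℝ) : sG r δ y = Gn (sx (r * δ) y) y δ := rfl

theorem sD_eq_Dn (r δ y : ℝ) : sD (r * δ) y = Dn (sx (r * δ) y) y := rfl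

/-- `Own` from `HypH`, `Num` and the tails. -/
theorem own_of_num {r δ y la μ j2 j3 l γ θ θ2 d0 B0 g1 k0 ka kb kc k2 e a v0 τ0 τ1 τ2 : ℝ}
    {hl : ℝ → ℝ} (h : HypH (sx (r * δ) y) y δ la μ j2 j3 hl)
    (n : Num (sx (r * δ) y) y δ la μ j2 j3 l γ θ θ2 d0 B0 g1 k0 ka kb kc k2)
    (hD : Dom (r * δ) y) (he : e < 1)
    (he0 : k0 + g1 / B0 + 1 / (1000 * B0) + τ0 ≤ e)
    (he1 : ka + kb + kc + 3546 / 1000 * l * g1 ≤ a * (1 - e))
    (he2 : k2 + 5319 / 1000 * (14143 / 10000) * l * g1 / d0 ≤ (v0 - 1) * (1 - e))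
    (t0 : Tl r δ y (fun _ => 1) ≤ τ0 * sG r δ y)
    (t1 : ‖kap r δ y‖ / sD (r * δ) y * Tl r δ y gs ≤ τ1 * ((1 - e) * sG r δ y))
    (t2 : ‖kap r δ y‖ / sD (r * δ) y * Tl r δ y (fun σ => σ * gs σ) ≤
      τ2 * (δ * ((1 - e) * sG r δ y))) :
    Own r δ y e (a * kD r δ y + τ1) (v0 * (‖kap r δ y‖ / sD (r * δ) y) + τ2) := by
  have hδ := h.hδ
  have hy : -1 < y := (abs_lt.1 h.hy).1
  have hG := sG_pos (r := r) hδ hy
  have hDp : 0 < sD (r * δ) y := Real.sqrt_pos.2 (sD2_pos hy)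
  have he' : 0 < 1 - e := by linarith
  have hK0 : 0 ≤ ‖sK (r * δ) y‖ := norm_nonneg _
  have b0 := h.b0 n
  have b1 := h.b1 n
  have b2 := h.b2 n
  have hint := h.int_gau
  rw [← sG_eq_Gn] at b0 b1 b2 hint
  rw [← sD_eq_Dn] at b1
  have hKe : (((sx (r * δ) y : ℝ) : ℂ) + (y : ℂ) * I) = sK (r * δ) y := rfl
  rw [hKe] at b0 b1 b2
  have e0 : ∫ s in {s : ℝ | 3 / 2 ≤ |s|}, ‖gi (1 + sx (r * δ) y)⁻¹ (1 + sx (r * δ) y) (fun _ => 1)
      (sK (r * δ) y / δ) 0 (-((δ : ℂ) * I)) s‖ = Tl r δ y (fun _ => 1) := rfl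
  have e1 : ∫ s in {s : ℝ | 3 / 2 ≤ |s|}, ‖gi (1 + sx (r * δ) y)⁻¹ (1 + sx (r * δ) y) gs
      (sK (r * δ) y / δ) 0 (-((δ : ℂ) * I)) s‖ = Tl r δ y gs := rfl
  have e2 : ∫ s in {s : ℝ | 3 / 2 ≤ |s|}, ‖gi (1 + sx (r * δ) y)⁻¹ (1 + sx (r * δ) y)
      (fun σ => σ * gs σ) (sK (r * δ) y / δ) 0 (-((δ : ℂ) * I)) s‖ =
      Tl r δ y (fun σ => σ * gs σ) := rfl
  rw [e0] at b0
  rw [e1] at b1
  rw [e2] at b2
  refine own_glue h.c0 h.s0 h.cs.le hδ hD hy (by rw [h.cs]; exact h.hy) he ?_ ?_ ?_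
  · have h3 : ‖∫ s : ℝ, gau (sx (r * δ) y) y δ s‖ ≤
        ‖br (1 + sx (r * δ) y)⁻¹ (1 + sx (r * δ) y) δ (sK (r * δ) y / δ) (fun _ => 1)‖ +
        ‖br (1 + sx (r * δ) y)⁻¹ (1 + sx (r * δ) y) δ (sK (r * δ) y / δ) (fun _ => 1) -
          ∫ s : ℝ, gau (sx (r * δ) y) y δ s‖ := by
      have := norm_sub_norm_le (∫ s : ℝ, gau (sx (r * δ) y) y δ s)
        (br (1 + sx (r * δ) y)⁻¹ (1 + sx (r * δ) y) δ (sK (r * δ) y / δ) (fun _ => 1))
      rw [norm_sub_rev] at this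
      linarith
    rw [hint] at h3
    have h4 : (k0 + g1 / B0 + 1 / (1000 * B0) + τ0) * sG r δ y ≤ e * sG r δ y := by gcongr
    linarith
  · rw [norm_kap_div hδ] at t1 ⊢
    have h3 : ‖sK (r * δ) y‖ / δ * ((ka + kb + kc + 3546 / 1000 * l * g1) *
        (δ / sD (r * δ) y) * sG r δ y) ≤ ‖sK (r * δ) y‖ / δ * (a * (1 - e) *
        (δ / sD (r * δ) y) * sG r δ y) := by gcongr
    have h4 : ‖sK (r * δ) y‖ / δ * (a * (1 - e) * (δ / sD (r * δ) y) * sG r δ y) =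
        a * kD r δ y * (sD (r * δ) y * ((1 - e) * sG r δ y)) := by
      have h5 : sD2 (r * δ) y = sD (r * δ) y ^ 2 := (Real.sq_sqrt (sD2_pos hy).le).symm
      unfold kD
      rw [h5]
      field_simp
    have h6 : ‖sK (r * δ) y‖ / δ * Tl r δ y gs ≤ τ1 * (sD (r * δ) y * ((1 - e) * sG r δ y)) := by
      have h7 := mul_le_mul_of_nonneg_left t1 hDp.le
      have h8 : sD (r * δ) y * (‖sK (r * δ) y‖ / δ / sD (r * δ) y * Tl r δ y gs) =
          ‖sK (r * δ) y‖ / δ * Tl r δ y gs := by field_simp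
      rw [h8] at h7
      linarith
    have h9 := mul_le_mul_of_nonneg_left b1 (div_nonneg hK0 hδ.le)
    rw [mul_add] at h9
    linarith
  · have hkD : 0 ≤ ‖kap r δ y‖ / sD (r * δ) y := by positivity
    have h3 : ‖br (1 + sx (r * δ) y)⁻¹ (1 + sx (r * δ) y) δ (sK (r * δ) y / δ)
        (fun h => h * gs h)‖ / (δ * ((1 - e) * sG r δ y)) ≤
        ((v0 - 1) * (1 - e) * δ * sG r δ y + Tl r δ y (fun σ => σ * gs σ)) /
          (δ * ((1 - e) * sG r δ y)) := by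
      refine div_le_div_of_nonneg_right ?_ (by positivity)
      refine b2.trans ?_
      gcongr
    have h4 : ((v0 - 1) * (1 - e) * δ * sG r δ y + Tl r δ y (fun σ => σ * gs σ)) /
          (δ * ((1 - e) * sG r δ y)) =
        (v0 - 1) + Tl r δ y (fun σ => σ * gs σ) / (δ * ((1 - e) * sG r δ y)) := by
      field_simp
    have h5 : ‖kap r δ y‖ / sD (r * δ) y * (Tl r δ y (fun σ => σ * gs σ) /
        (δ * ((1 - e) * sG r δ y))) ≤ τ2 := by
      rw [← mul_div_assoc, div_le_iff₀ (by positivity)]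
      exact t2
    have h6 := mul_le_mul_of_nonneg_left (h3.trans_eq h4) hkD
    linarith

end SokalV3
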