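import Mathlib

/-!
# The third derivative of the drop (left side): `R^(3/2) (-A) ≤ (6/5) ρ D^6`

`z = |K|²`, `G = e^(2y)`, `ρ² = z G`, `R = 1 + z G`, `D² = 1 + 2y + z`,
`-A = y + (3 + 3y + 2y²) z - z²`, `A² + (z - y²)(1 - 3z - 2zy)² = z D^6`.
-/

set_option autoImplicit false

namespace SokalV3

/-- `-A` -/
noncomputable def nA (z y : ℝ) : ℝ := y + (3 + 3 * y + 2 * y ^ 2) * z - z ^ 2

theorem nA_sq {z y : ℝ} (h : y ^ 2 ≤ z) : nA z y ^ 2 ≤ z * (1 + 2 * y + z) ^ 3 := by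
  have e : z * (1 + 2 * y + z) ^ 3 - nA z y ^ 2 = (z - y ^ 2) * (1 - 3 * z - 2 * z * y) ^ 2 := by
    unfold nA
    ring
  have h1 : 0 ≤ (z - y ^ 2) * (1 - 3 * z - 2 * z * y) ^ 2 := mul_nonneg (by linarith) (sq_nonneg _)
  linarith

theorem exp_two_le {y : ℝ} (h0 : 0 ≤ y) (h1 : y ≤ 14 / 25) :
    Real.exp (2 * y) ≤ 1 + 2 * y + 303 / 100 * y ^ 2 := by
  have h2 := Real.exp_bound' h0 (by linarith : y ≤ 1) (n := 4) (by norm_num)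
  have h3 : Real.exp y ≤ 1 + y + y ^ 2 / 2 + y ^ 3 / 6 + y ^ 4 * 5 / 96 := by
    refine h2.trans (le_of_eq ?_)
    simp only [Finset.sum_range_succ, Finset.sum_range_zero, Nat.factorial]
    norm_num
  have h4 : Real.exp (2 * y) = Real.exp y ^ 2 := by
    rw [← Real.exp_nat_mul]
    norm_num
  rw [h4]
  have h5 : Real.exp y ^ 2 ≤ (1 + y + y ^ 2 / 2 + y ^ 3 / 6 + y ^ 4 * 5 / 96) ^ 2 :=
    pow_le_pow_left₀ (Real.exp_nonneg _) h3 2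
  refine h5.trans ?_
  have h6 : 0 ≤ y ^ 2 := sq_nonneg y
  -- remainder: y^2 * (1.03 - p(y)), p increasing
  have h7 : (1 + y + y ^ 2 / 2 + y ^ 3 / 6 + y ^ 4 * 5 / 96) ^ 2 =
      1 + 2 * y + 2 * y ^ 2 + y ^ 2 * (y * (4 / 3) + y ^ 2 * (11 / 16) + y ^ 3 * (13 / 48) + y ^ 4 * (23 / 288) +
        y ^ 5 * (5 / 288) + y ^ 6 * (25 / 9216)) := by
    ring
  rw [h7]
  have h8 : y * (4 / 3) + y ^ 2 * (11 / 16) + y ^ 3 * (13 / 48) + y ^ 4 * (23 / 288) +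
        y ^ 5 * (5 / 288) + y ^ 6 * (25 / 9216) ≤ 103 / 100 := by
    have e2 : y ^ 2 ≤ (14 / 25) ^ 2 := pow_le_pow_left₀ h0 h1 2
    have e3 : y ^ 3 ≤ (14 / 25) ^ 3 := pow_le_pow_left₀ h0 h1 3
    have e4 : y ^ 4 ≤ (14 / 25) ^ 4 := pow_le_pow_left₀ h0 h1 4
    have e5 : y ^ 5 ≤ (14 / 25) ^ 5 := pow_le_pow_left₀ h0 h1 5
    have e6 : y ^ 6 ≤ (14 / 25) ^ 6 := pow_le_pow_left₀ h0 h1 6
    norm_num at e2 e3 e4 e5 e6 ⊢
    linarith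
  nlinarith [mul_le_mul_of_nonneg_left h8 h6]

/-- Region A at `z = 17/10`. -/
theorem regA_end {y G : ℝ} (h0 : 0 ≤ y) (h1 : y ≤ 14 / 25) (hG1 : 1 + 2 * y ≤ G)
    (hG2 : G ≤ 1 + 2 * y + 303 / 100 * y ^ 2) :
    (1 + 17 / 10 * G) ^ 3 ≤ 36 / 25 * G * (27 / 10 + 2 * y) ^ 3 := by
  set B3 : ℝ := (27 / 10 + 2 * y) ^ 3 with hB3
  set G1 : ℝ := 1 + 2 * y with hG1d
  set G2 : ℝ := 1 + 2 * y + 303 / 100 * y ^ 2 with hG2d
  have hG12 : G1 ≤ G2 := by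
    rw [hG1d, hG2d]
    nlinarith [sq_nonneg y]
  -- the end points
  have e1 : (1 + 17 / 10 * G1) ^ 3 ≤ 36 / 25 * G1 * B3 := by
    have e : 36 / 25 * G1 * B3 - (1 + 17 / 10 * G1) ^ 3 =
        216513 / 25000 + 56643300 / 1250000 * y + (36 / 25 * (81 * 2 / 5 + 2 * (4374 / 100)) - 3 * (27 / 10) * (34 / 10) ^ 2) * y ^ 2 +
          (36 / 25 * (8 + 2 * (162 / 5)) - (34 / 10) ^ 3) * y ^ 3 + 36 / 25 * 16 * y ^ 4 := by
      rw [hG1d, hB3]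
      ring
    have : 0 ≤ 36 / 25 * G1 * B3 - (1 + 17 / 10 * G1) ^ 3 := by
      rw [e]
      norm_num
      positivity
    linarith
  have e2 : (1 + 17 / 10 * G2) ^ 3 ≤ 36 / 25 * G2 * B3 := by
    have y2 : 0 ≤ y ^ 2 := sq_nonneg y
    have k1 : y ^ 3 ≤ 14 / 25 * y ^ 2 := by nlinarith
    have k2 : y ^ 4 ≤ (14 / 25) ^ 2 * y ^ 2 := by
      have : y ^ 2 ≤ (14 / 25) ^ 2 := pow_le_pow_left₀ h0 h1 2
      nlinarith
    have k3 : y ^ 5 ≤ (14 / 25) ^ 3 * y ^ 2 := by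
      have : y ^ 3 ≤ (14 / 25) ^ 3 := pow_le_pow_left₀ h0 h1 3
      nlinarith
    have k4 : y ^ 6 ≤ (14 / 25) ^ 4 * y ^ 2 := by
      have : y ^ 4 ≤ (14 / 25) ^ 4 := pow_le_pow_left₀ h0 h1 4
      nlinarith
    have k5 : 0 ≤ 866 / 100 + 453 / 10 * y - 898 / 10 * y ^ 2 := by nlinarith
    rw [hG2d, hB3]
    nlinarith
  -- between
  have hg : (1 + 17 / 10 * G) ^ 3 ≤ (1 + 17 / 10 * G1) ^ 3 + (17 / 10 * (G - G1)) *
      ((1 + 17 / 10 * G1) ^ 2 + (1 + 17 / 10 * G1) * (1 + 17 / 10 * G2) + (1 + 17 / 10 * G2) ^ 2) := by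
    have hG1p : 0 ≤ G1 := by rw [hG1d]; linarith
    have m1 : 1 + 17 / 10 * G1 ≤ 1 + 17 / 10 * G := by linarith
    have m2 : 1 + 17 / 10 * G ≤ 1 + 17 / 10 * G2 := by linarith
    have m0 : 0 ≤ 1 + 17 / 10 * G1 := by linarith
    have e : (1 + 17 / 10 * G) ^ 3 = (1 + 17 / 10 * G1) ^ 3 + (17 / 10 * (G - G1)) *
      ((1 + 17 / 10 * G1) ^ 2 + (1 + 17 / 10 * G1) * (1 + 17 / 10 * G) + (1 + 17 / 10 * G) ^ 2) := by ring
    rw [e]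
    have m3 : (1 + 17 / 10 * G) ^ 2 ≤ (1 + 17 / 10 * G2) ^ 2 := pow_le_pow_left₀ (by linarith) m2 2
    have m4 : (1 + 17 / 10 * G1) * (1 + 17 / 10 * G) ≤ (1 + 17 / 10 * G1) * (1 + 17 / 10 * G2) :=
      mul_le_mul_of_nonneg_left m2 m0
    have m5 : 0 ≤ 17 / 10 * (G - G1) := by linarith
    have := mul_le_mul_of_nonneg_left (add_le_add (add_le_add (le_refl ((1 + 17 / 10 * G1) ^ 2)) m4) m3) m5
    linarith
  refine hg.trans ?_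
  rcases eq_or_lt_of_le hG12 with h12 | h12
  · have : G = G1 := le_antisymm (by rw [h12]; exact hG2) hG1
    rw [this, sub_self, mul_zero, zero_mul, add_zero]
    exact e1
  · -- linear interpolation
    have hd : 0 < G2 - G1 := by linarith
    have key : (G2 - G1) * (36 / 25 * G * B3 - ((1 + 17 / 10 * G1) ^ 3 + (17 / 10 * (G - G1)) *
      ((1 + 17 / 10 * G1) ^ 2 + (1 + 17 / 10 * G1) * (1 + 17 / 10 * G2) + (1 + 17 / 10 * G2) ^ 2))) =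
        (G2 - G) * (36 / 25 * G1 * B3 - (1 + 17 / 10 * G1) ^ 3) +
        (G - G1) * (36 / 25 * G2 * B3 - (1 + 17 / 10 * G2) ^ 3) := by ring
    have k1 : 0 ≤ (G2 - G) * (36 / 25 * G1 * B3 - (1 + 17 / 10 * G1) ^ 3) +
        (G - G1) * (36 / 25 * G2 * B3 - (1 + 17 / 10 * G2) ^ 3) :=
      add_nonneg (mul_nonneg (by linarith) (by linarith)) (mul_nonneg (by linarith) (by linarith))
    rw [← key] at k1
    have k2 := nonneg_of_mul_nonneg_right k1 hd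
    linarith

/-- Region A: `z ≤ 17/10`. -/
theorem regA {z y G : ℝ} (hz0 : 0 < z) (hz : z ≤ 17 / 10) (h0 : 0 ≤ y) (h1 : y ≤ 14 / 25)
    (hG1 : 1 + 2 * y ≤ G) (hG2 : G ≤ 1 + 2 * y + 303 / 100 * y ^ 2) :
    (1 + z * G) ^ 3 ≤ 36 / 25 * G * (1 + 2 * y + z) ^ 3 := by
  have hG : 1 ≤ G := by linarith
  have h2 := regA_end h0 h1 hG1 hG2
  have hb : 0 < 1 + 2 * y + z := by linarith
  have hb2 : 0 < 27 / 10 + 2 * y := by linarith
  -- (1 + zG)(2.7 + 2y) ≤ (1 + 1.7G)(1 + 2y + z)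
  have h3 : (1 + z * G) * (27 / 10 + 2 * y) ≤ (1 + 17 / 10 * G) * (1 + 2 * y + z) := by
    have e : (1 + 17 / 10 * G) * (1 + 2 * y + z) - (1 + z * G) * (27 / 10 + 2 * y) =
        (17 / 10 - z) * (G * (1 + 2 * y) - 1) := by ring
    have h4 : 0 ≤ (17 / 10 - z) * (G * (1 + 2 * y) - 1) := by
      refine mul_nonneg (by linarith) ?_
      nlinarith
    linarith
  have h5 : ((1 + z * G) * (27 / 10 + 2 * y)) ^ 3 ≤ ((1 + 17 / 10 * G) * (1 + 2 * y + z)) ^ 3 :=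
    pow_le_pow_left₀ (by positivity) h3 3
  rw [mul_pow, mul_pow] at h5
  have h6 : (1 + 17 / 10 * G) ^ 3 * (1 + 2 * y + z) ^ 3 ≤
      36 / 25 * G * (27 / 10 + 2 * y) ^ 3 * (1 + 2 * y + z) ^ 3 :=
    mul_le_mul_of_nonneg_right h2 (by positivity)
  have h7 : (1 + z * G) ^ 3 * (27 / 10 + 2 * y) ^ 3 ≤
      (36 / 25 * G * (1 + 2 * y + z) ^ 3) * (27 / 10 + 2 * y) ^ 3 := by
    refine h5.trans (h6.trans (le_of_eq (by ring)))
  exact le_of_mul_le_mul_right h7 (by positivity)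

/-- Region B: `z ≥ 17/10`. -/
theorem regB {z y G : ℝ} (hz : 17 / 10 ≤ z) (h0 : 0 ≤ y) (h1 : y ≤ 14 / 25)
    (hG1 : 1 + 2 * y ≤ G) (hG2 : G ≤ 1 + 2 * y + 303 / 100 * y ^ 2) :
    (z * G + 9 / 5) * nA z y ≤ 6 / 5 * (1 + 2 * y + z) ^ 3 := by
  unfold nA
  have hz0 : 0 < z := by linarith
  have y2 : 0 ≤ y ^ 2 := sq_nonneg y
  have y3 : 0 ≤ y ^ 3 := by positivity
  have k1 : y ^ 3 ≤ 14 / 25 * y ^ 2 := by nlinarith
  have k2 : y ^ 4 ≤ (14 / 25) ^ 2 * y ^ 2 := by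
    have : y ^ 2 ≤ (14 / 25) ^ 2 := pow_le_pow_left₀ h0 h1 2
    nlinarith
  -- the coefficients
  have c2 : 0 ≤ 186 / 25 + 36 / 5 * y - G * (13 / 10 + 3 * y + 2 * y ^ 2) := by
    have h2 : G * (13 / 10 + 3 * y + 2 * y ^ 2) ≤
        (1 + 2 * y + 303 / 100 * y ^ 2) * (13 / 10 + 3 * y + 2 * y ^ 2) :=
      mul_le_mul_of_nonneg_right hG2 (by positivity)
    nlinarith
  have hGy : G * y ≤ (1 + 2 * y + 303 / 100 * y ^ 2) * y := mul_le_mul_of_nonneg_right hG2 h0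
  have c1 : 0 ≤ 17 / 10 * (186 / 25 + 36 / 5 * y - G * (13 / 10 + 3 * y + 2 * y ^ 2)) +
      (18 / 5 * (1 + 2 * y) ^ 2 - y * G - 9 / 5 * (3 + 3 * y + 2 * y ^ 2)) := by
    have h2 : G * (13 / 10 + 3 * y + 2 * y ^ 2) ≤
        (1 + 2 * y + 303 / 100 * y ^ 2) * (13 / 10 + 3 * y + 2 * y ^ 2) :=
      mul_le_mul_of_nonneg_right hG2 (by positivity)
    nlinarith
  have c0 : 0 ≤ 6 / 5 * (1 + 2 * y) ^ 3 - 9 / 5 * y := by
    have : 6 / 5 * (1 + 2 * y) ^ 3 - 9 / 5 * y = 6 / 5 + 27 / 5 * y + 72 / 5 * y ^ 2 + 48 / 5 * y ^ 3 := by ring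
    rw [this]
    positivity
  have hG0 : 0 ≤ 6 / 5 + G := by linarith
  have e : 6 / 5 * (1 + 2 * y + z) ^ 3 - (z * G + 9 / 5) * (y + (3 + 3 * y + 2 * y ^ 2) * z - z ^ 2) =
      (6 / 5 + G) * (z - 17 / 10) * z ^ 2 +
      (z - 17 / 10) * z * (186 / 25 + 36 / 5 * y - G * (13 / 10 + 3 * y + 2 * y ^ 2)) +
      z * (17 / 10 * (186 / 25 + 36 / 5 * y - G * (13 / 10 + 3 * y + 2 * y ^ 2)) +
      (18 / 5 * (1 + 2 * y) ^ 2 - y * G - 9 / 5 * (3 + 3 * y + 2 * y ^ 2))) +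
      (6 / 5 * (1 + 2 * y) ^ 3 - 9 / 5 * y) := by ring
  have hzz : 0 ≤ z - 17 / 10 := by linarith
  have t1 : 0 ≤ (6 / 5 + G) * (z - 17 / 10) * z ^ 2 := by positivity
  have t2 : 0 ≤ (z - 17 / 10) * z * (186 / 25 + 36 / 5 * y - G * (13 / 10 + 3 * y + 2 * y ^ 2)) :=
    mul_nonneg (by positivity) c2
  have t3 := mul_nonneg hz0.le c1
  linarith

/-- The third derivative of the drop is at least `-6/5` (normalised). -/
theorem third_bound {ρ y z : ℝ} (hρ : 0 < ρ) (hz : y ^ 2 ≤ z) (hz0 : 0 < z) (h0 : 0 ≤ y) (h1 : y ≤ 14 / 25)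
    (hρ2 : ρ ^ 2 = z * Real.exp (2 * y)) :
    (1 + ρ ^ 2) * √(1 + ρ ^ 2) * nA z y ≤ 6 / 5 * ρ * (1 + 2 * y + z) ^ 3 := by
  have hG1 : 1 + 2 * y ≤ Real.exp (2 * y) := by linarith [Real.add_one_le_exp (2 * y)]
  have hG2 := exp_two_le h0 h1
  set G := Real.exp (2 * y) with hG
  have hG0 : 0 < G := Real.exp_pos _
  have hD : 0 < 1 + 2 * y + z := by linarith
  have hS0 : 0 ≤ √(1 + ρ ^ 2) := Real.sqrt_nonneg _
  have hS2 : √(1 + ρ ^ 2) ^ 2 = 1 + ρ ^ 2 := Real.sq_sqrt (by positivity)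
  rcases le_total z (17 / 10) with hz1 | hz1
  · have hA := regA hz0 hz1 h0 h1 hG1 hG2
    have hn := nA_sq hz
    refine abs_le_of_sq_le_sq' ?_ (by positivity) |>.2
    have e1 : ((1 + ρ ^ 2) * √(1 + ρ ^ 2) * nA z y) ^ 2 = (1 + z * G) ^ 3 * nA z y ^ 2 := by
      rw [mul_pow, mul_pow, hS2, hρ2]
      ring
    have e2 : (6 / 5 * ρ * (1 + 2 * y + z) ^ 3) ^ 2 =
        36 / 25 * G * (1 + 2 * y + z) ^ 3 * (z * (1 + 2 * y + z) ^ 3) := by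
      rw [mul_pow, mul_pow, hρ2]
      ring
    rw [e1, e2]
    exact mul_le_mul hA hn (sq_nonneg _) (by positivity)
  · have hB := regB hz1 h0 h1 hG1 hG2
    rcases le_total (nA z y) 0 with hn | hn
    · have : (1 + ρ ^ 2) * √(1 + ρ ^ 2) * nA z y ≤ 0 :=
        mul_nonpos_of_nonneg_of_nonpos (by positivity) hn
      exact this.trans (by positivity)
    · have hρ53 : 5 / 3 ≤ ρ ^ 2 := by
        rw [hρ2]
        nlinarith
      have hS : √(1 + ρ ^ 2) ≤ ρ + 1 / (2 * ρ) := by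
        refine Real.sqrt_le_iff.2 ⟨by positivity, ?_⟩
        have : (ρ + 1 / (2 * ρ)) ^ 2 = 1 + ρ ^ 2 + 1 / (4 * ρ ^ 2) := by
          field_simp
          ring
        rw [this]
        have : 0 ≤ 1 / (4 * ρ ^ 2) := by positivity
        linarith
      have hRS : (1 + ρ ^ 2) * √(1 + ρ ^ 2) ≤ ρ * (ρ ^ 2 + 9 / 5) := by
        refine (mul_le_mul_of_nonneg_left hS (by positivity)).trans ?_
        have e3 : (1 + ρ ^ 2) * (ρ + 1 / (2 * ρ)) = ρ * (ρ ^ 2 + 3 / 2 + 1 / (2 * ρ ^ 2)) := by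
          field_simp
          ring
        rw [e3]
        refine mul_le_mul_of_nonneg_left ?_ hρ.le
        have : 1 / (2 * ρ ^ 2) ≤ 3 / 10 := by
          rw [div_le_iff₀ (by positivity)]
          linarith
        linarith
      calc (1 + ρ ^ 2) * √(1 + ρ ^ 2) * nA z y ≤ ρ * (ρ ^ 2 + 9 / 5) * nA z y :=
            mul_le_mul_of_nonneg_right hRS hn
        _ = ρ * ((z * G + 9 / 5) * nA z y) := by rw [hρ2]; ring
        _ ≤ ρ * (6 / 5 * (1 + 2 * y + z) ^ 3) := mul_le_mul_of_nonneg_left hB hρ.le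
        _ = _ := by ring

end SokalV3
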