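import Pool.Agent.Lib_MP_af4de1_f1.Sad
import Pool.Agent.Lib_MP_af4de1_v3.GapS

/-!
# The drop `P(y) = ρ - x (1 + y) = δ (Φ(0) - Φ)` on both sides

`R = 1 + ρ²`, `a = √R`, `u = η/a`.
Left (`0 ≤ y ≤ 14/25`): `1 - e^(-y) ≤ ρ η/R`, `P ≥ ρ (u²/2 - u³/5)`.
Right (`n = -y ≥ 0`, `v = -η/a`): `ρ |η| ≥ R n - (3 - ρ²) n²/2`, `P ≤ n |η| - (R n²/2 - (3 - ρ²) n³/6)/ρ`.
-/

set_option autoImplicit false

namespace SokalV3

open SokalF1S Set

theorem nonneg_up {f f' : ℝ → ℝ} {b : ℝ} (hc : ContinuousOn f (Icc 0 b)) (h0 : 0 ≤ f 0)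
    (hd : ∀ y ∈ Ioo 0 b, HasDerivAt f (f' y) y) (hn : ∀ y ∈ Ioo 0 b, 0 ≤ f' y) {y : ℝ}
    (hy : y ∈ Icc 0 b) : 0 ≤ f y := by
  have hm : MonotoneOn f (Icc 0 b) := by
    refine monotoneOn_of_deriv_nonneg (convex_Icc 0 b) hc ?_ ?_
    · rw [interior_Icc]
      exact fun z hz => (hd z hz).differentiableAt.differentiableWithinAt
    · rw [interior_Icc]
      intro z hz
      rw [(hd z hz).deriv]
      exact hn z hz
  exact h0.trans (hm (left_mem_Icc.2 (hy.1.trans hy.2)) hy hy.1)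

theorem nonneg_down {f f' : ℝ → ℝ} {a : ℝ} (hc : ContinuousOn f (Icc a 0)) (h0 : 0 ≤ f 0)
    (hd : ∀ y ∈ Ioo a 0, HasDerivAt f (f' y) y) (hn : ∀ y ∈ Ioo a 0, f' y ≤ 0) {y : ℝ}
    (hy : y ∈ Icc a 0) : 0 ≤ f y := by
  have hm : AntitoneOn f (Icc a 0) := by
    refine antitoneOn_of_deriv_nonpos (convex_Icc a 0) hc ?_ ?_
    · rw [interior_Icc]
      exact fun z hz => (hd z hz).differentiableAt.differentiableWithinAt
    · rw [interior_Icc]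
      intro z hz
      rw [(hd z hz).deriv]
      exact hn z hz
  exact h0.trans (hm hy (right_mem_Icc.2 (hy.1.trans hy.2)) hy.2)

theorem sD2_eq {ρ y : ℝ} (h : Dom ρ y) : sD2 ρ y = 1 + 2 * y + (ρ * Real.exp (-y)) ^ 2 := by
  have h1 := sx_sq h
  unfold sD2
  rw [h1]
  ring

theorem hasDerivAt_sD2 {ρ y : ℝ} (hρ : 0 < ρ) (h : |y| * Real.exp y < ρ) :
    HasDerivAt (sD2 ρ) (2 - 2 * (ρ * Real.exp (-y)) ^ 2) y := by
  have hx := sx_pos hρ h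
  have h1 : HasDerivAt (fun y : ℝ => 1 + y) 1 y := (hasDerivAt_id y).const_add 1
  have h2 := (h1.pow 2).add ((hasDerivAt_sx hρ h).pow 2)
  refine h2.congr_deriv ?_
  have h3 := sx_sq_add ⟨hρ, h.le⟩
  rw [← h3]
  field_simp
  ring

theorem continuous_sD2 (ρ : ℝ) : Continuous (sD2 ρ) := by
  unfold sD2
  have := continuous_sx ρ
  fun_prop

/-- the derivative of `x/D²` -/
theorem hasDerivAt_xD {ρ y : ℝ} (hρ : 0 < ρ) (h : |y| * Real.exp y < ρ) (hy : -1 < y) :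
    HasDerivAt (fun y => sx ρ y / sD2 ρ y)
      (-nA ((ρ * Real.exp (-y)) ^ 2) y / (sx ρ y * sD2 ρ y ^ 2)) y := by
  have hx := sx_pos hρ h
  have hD := sD2_pos (ρ := ρ) hy
  refine ((hasDerivAt_sx hρ h).div (hasDerivAt_sD2 hρ h) hD.ne').congr_deriv ?_
  have h3 := sx_sq_add ⟨hρ, h.le⟩
  rw [← h3]
  rw [div_eq_div_iff (by positivity) (by positivity)]
  have h4 : sD2 ρ y = (1 + y) ^ 2 + sx ρ y ^ 2 := rfl
  unfold nA
  field_simp
  rw [h4]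
  ring

theorem continuousOn_xD {ρ : ℝ} {s : Set ℝ} (hs : ∀ y ∈ s, -1 < y) :
    ContinuousOn (fun y => sx ρ y / sD2 ρ y) s :=
  (continuous_sx ρ).continuousOn.div (continuous_sD2 ρ).continuousOn fun y hy => (sD2_pos (hs y hy)).ne'

theorem dom_le {ρ b y : ℝ} (h : Dom ρ b) (hy : y ∈ Ioo 0 b) : |y| * Real.exp y < ρ :=
  dom_between (dom_zero h.1) h (by norm_num) hy

theorem dom_ge {ρ a y : ℝ} (h : Dom ρ a) (ha : -1 ≤ a) (hy : y ∈ Ioo a 0) : |y| * Real.exp y < ρ :=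
  dom_between h (dom_zero h.1) ha hy

/-! ### the left side -/

/-- `1 - e^(-y) ≤ ρ η/R` -/
theorem one_sub_exp_le {ρ b : ℝ} (h : Dom ρ b) (hb : 0 ≤ b) :
    1 - Real.exp (-b) ≤ ρ * sE ρ b / (1 + ρ ^ 2) := by
  have hρ := h.1
  have hR : 0 < 1 + ρ ^ 2 := by positivity
  have key := nonneg_up (f := fun y => ρ * sE ρ y / (1 + ρ ^ 2) - (1 - Real.exp (-y)))
    (f' := fun y => ρ * (sD2 ρ y / sx ρ y) / (1 + ρ ^ 2) - Real.exp (-y)) (b := b)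
    (by
      have := continuous_sE ρ
      fun_prop)
    (by simp [sE_zero hρ])
    (fun y hy => by
      have h1 := ((hasDerivAt_sE hρ (dom_le h hy)).const_mul ρ).div_const (1 + ρ ^ 2)
      have h2 : HasDerivAt (fun y : ℝ => 1 - Real.exp (-y)) (Real.exp (-y)) y := by
        have h3 : HasDerivAt (fun y : ℝ => -y) (-1) y := (hasDerivAt_id y).neg
        refine (h3.exp.const_sub 1).congr_deriv ?_
        ring
      exact h1.sub h2)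
    (fun y hy => by
      have hd := dom_le h hy
      have hD : Dom ρ y := ⟨hρ, hd.le⟩
      have hx := sx_pos hρ hd
      have hxle := sx_le hD
      have hE := Real.exp_pos (-y)
      have hE1 : Real.exp (-y) ≤ 1 := Real.exp_le_one_iff.2 (by linarith [hy.1])
      have hD2 : (1 + ρ ^ 2) * Real.exp (-y) ^ 2 ≤ sD2 ρ y := by
        rw [sD2_eq hD]
        have : Real.exp (-y) ^ 2 ≤ 1 := pow_le_one₀ hE.le hE1
        nlinarith [hy.1]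
      rw [sub_nonneg, le_div_iff₀ hR, ← mul_div_assoc, le_div_iff₀ hx]
      calc Real.exp (-y) * (1 + ρ ^ 2) * sx ρ y ≤ Real.exp (-y) * (1 + ρ ^ 2) * (ρ * Real.exp (-y)) :=
            mul_le_mul_of_nonneg_left hxle (by positivity)
        _ = ρ * ((1 + ρ ^ 2) * Real.exp (-y) ^ 2) := by ring
        _ ≤ ρ * sD2 ρ y := mul_le_mul_of_nonneg_left hD2 hρ.le)
    (right_mem_Icc.2 hb)
  linarith

/-- `R x/(ρ D²) ≥ 1 - (6/5) u` -/
theorem chain2 {ρ b : ℝ} (h : Dom ρ b) (hb : b ≤ 14 / 25) {y : ℝ} (hy : y ∈ Icc 0 b) :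
    0 ≤ (1 + ρ ^ 2) / ρ * (sx ρ y / sD2 ρ y) - 1 + 6 / 5 * (sE ρ y / √(1 + ρ ^ 2)) := by
  have hρ := h.1
  have hR : 0 < 1 + ρ ^ 2 := by positivity
  have ha : 0 < √(1 + ρ ^ 2) := Real.sqrt_pos.2 hR
  refine nonneg_up (f := fun y => (1 + ρ ^ 2) / ρ * (sx ρ y / sD2 ρ y) - 1 + 6 / 5 * (sE ρ y / √(1 + ρ ^ 2)))
    (f' := fun y => (1 + ρ ^ 2) / ρ * (-nA ((ρ * Real.exp (-y)) ^ 2) y / (sx ρ y * sD2 ρ y ^ 2)) +
      6 / 5 * ((sD2 ρ y / sx ρ y) / √(1 + ρ ^ 2))) ?_ ?_ ?_ ?_ hy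
  · have h1 := continuousOn_xD (ρ := ρ) (s := Icc 0 b) (fun y hy => by linarith [hy.1])
    have h2 := (continuous_sE ρ).continuousOn (s := Icc 0 b)
    exact ((continuousOn_const.mul h1).sub continuousOn_const).add
      (continuousOn_const.mul (h2.div_const _))
  · have h0 : sx ρ 0 = ρ := by unfold sx; simp [Real.sqrt_sq hρ.le]
    have h1 : sD2 ρ 0 = 1 + ρ ^ 2 := by unfold sD2; rw [h0]; ring
    simp only [sE_zero hρ, h0, h1]
    have : (1 + ρ ^ 2) / ρ * (ρ / (1 + ρ ^ 2)) = 1 := by field_simp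
    rw [this]
    simp
  · intro y hy
    have hd := dom_le h hy
    exact (((hasDerivAt_xD hρ hd (by linarith [hy.1])).const_mul _).sub_const 1).add
      (((hasDerivAt_sE hρ hd).div_const _).const_mul _)
  · intro y hy
    have hd := dom_le h hy
    have hD : Dom ρ y := ⟨hρ, hd.le⟩
    have hx := sx_pos hρ hd
    have hDp := sD2_pos (ρ := ρ) (y := y) (by linarith [hy.1])
    have hE := Real.exp_pos (-y)
    have hz : y ^ 2 ≤ (ρ * Real.exp (-y)) ^ 2 := by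
      rw [← sx_sq_add hD]
      nlinarith [sq_nonneg (sx ρ y)]
    have hρ2 : ρ ^ 2 = (ρ * Real.exp (-y)) ^ 2 * Real.exp (2 * y) := by
      rw [mul_pow, mul_assoc, ← Real.exp_nat_mul, ← Real.exp_add]
      have : ((2 : ℕ) : ℝ) * -y + 2 * y = 0 := by push_cast; ring
      rw [this, Real.exp_zero, mul_one]
    have key := third_bound hρ hz (by positivity) hy.1.le (hy.2.le.trans hb) hρ2
    rw [← sD2_eq hD] at key
    have e : (1 + ρ ^ 2) / ρ * (-nA ((ρ * Real.exp (-y)) ^ 2) y / (sx ρ y * sD2 ρ y ^ 2)) +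
      6 / 5 * ((sD2 ρ y / sx ρ y) / √(1 + ρ ^ 2)) =
        (6 / 5 * ρ * sD2 ρ y ^ 3 - (1 + ρ ^ 2) * √(1 + ρ ^ 2) * nA ((ρ * Real.exp (-y)) ^ 2) y) /
          (ρ * sx ρ y * sD2 ρ y ^ 2 * √(1 + ρ ^ 2)) := by
      field_simp
      ring
    rw [e]
    exact div_nonneg (by linarith) (by positivity)

/-- `y a/ρ ≥ u - (3/5) u²` -/
theorem chain1 {ρ b : ℝ} (h : Dom ρ b) (hb : b ≤ 14 / 25) {y : ℝ} (hy : y ∈ Icc 0 b) :
    0 ≤ y * √(1 + ρ ^ 2) / ρ - sE ρ y / √(1 + ρ ^ 2) + 3 / 5 * (sE ρ y / √(1 + ρ ^ 2)) ^ 2 := by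
  have hρ := h.1
  have hR : 0 < 1 + ρ ^ 2 := by positivity
  have ha : 0 < √(1 + ρ ^ 2) := Real.sqrt_pos.2 hR
  have ha2 : √(1 + ρ ^ 2) ^ 2 = 1 + ρ ^ 2 := Real.sq_sqrt hR.le
  refine nonneg_up (f := fun y => y * √(1 + ρ ^ 2) / ρ - sE ρ y / √(1 + ρ ^ 2) +
      3 / 5 * (sE ρ y / √(1 + ρ ^ 2)) ^ 2)
    (f' := fun y => 1 * √(1 + ρ ^ 2) / ρ - (sD2 ρ y / sx ρ y) / √(1 + ρ ^ 2) +
      3 / 5 * (((2 : ℕ) : ℝ) * (sE ρ y / √(1 + ρ ^ 2)) ^ (2 - 1) * ((sD2 ρ y / sx ρ y) / √(1 + ρ ^ 2))))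
    ?_ ?_ ?_ ?_ hy
  · have := continuous_sE ρ
    fun_prop
  · simp [sE_zero hρ]
  · intro y hy
    have h1 := (hasDerivAt_sE hρ (dom_le h hy)).div_const (√(1 + ρ ^ 2))
    exact ((((hasDerivAt_id y).mul_const _).div_const _).sub h1).add ((h1.pow 2).const_mul _)
  · intro y hy
    have hd := dom_le h hy
    have hx := sx_pos hρ hd
    have hDp := sD2_pos (ρ := ρ) (y := y) (by linarith [hy.1])
    have key := chain2 h hb (y := y) ⟨hy.1.le, hy.2.le⟩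
    have e : 1 * √(1 + ρ ^ 2) / ρ - (sD2 ρ y / sx ρ y) / √(1 + ρ ^ 2) +
      3 / 5 * (((2 : ℕ) : ℝ) * (sE ρ y / √(1 + ρ ^ 2)) ^ (2 - 1) * ((sD2 ρ y / sx ρ y) / √(1 + ρ ^ 2))) =
        (sD2 ρ y / sx ρ y) / √(1 + ρ ^ 2) *
          ((√(1 + ρ ^ 2)) ^ 2 / ρ * (sx ρ y / sD2 ρ y) - 1 + 6 / 5 * (sE ρ y / √(1 + ρ ^ 2))) := by
      push_cast
      field_simp
      ring
    rw [e, ha2]
    exact mul_nonneg (by positivity) key

/-- `P/ρ ≥ u²/2 - u³/5` -/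
theorem chain0 {ρ b : ℝ} (h : Dom ρ b) (hb : b ≤ 14 / 25) {y : ℝ} (hy : y ∈ Icc 0 b) :
    0 ≤ (ρ - sx ρ y * (1 + y)) / ρ - (sE ρ y / √(1 + ρ ^ 2)) ^ 2 / 2 +
      (sE ρ y / √(1 + ρ ^ 2)) ^ 3 / 5 := by
  have hρ := h.1
  have hR : 0 < 1 + ρ ^ 2 := by positivity
  have ha : 0 < √(1 + ρ ^ 2) := Real.sqrt_pos.2 hR
  refine nonneg_up (f := fun y => (ρ - sx ρ y * (1 + y)) / ρ - (sE ρ y / √(1 + ρ ^ 2)) ^ 2 / 2 +
      (sE ρ y / √(1 + ρ ^ 2)) ^ 3 / 5)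
    (f' := fun y => (-(-(y * (sD2 ρ y / sx ρ y)))) / ρ -
      (((2 : ℕ) : ℝ) * (sE ρ y / √(1 + ρ ^ 2)) ^ (2 - 1) * ((sD2 ρ y / sx ρ y) / √(1 + ρ ^ 2))) / 2 +
      (((3 : ℕ) : ℝ) * (sE ρ y / √(1 + ρ ^ 2)) ^ (3 - 1) * ((sD2 ρ y / sx ρ y) / √(1 + ρ ^ 2))) / 5)
    ?_ ?_ ?_ ?_ hy
  · have := continuous_sE ρ
    have := continuous_sx ρ
    fun_prop
  · have h0 : sx ρ 0 = ρ := by unfold sx; simp [Real.sqrt_sq hρ.le]
    simp [sE_zero hρ, h0]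
  · intro y hy
    have hd := dom_le h hy
    have h1 := (hasDerivAt_sE hρ hd).div_const (√(1 + ρ ^ 2))
    exact ((((hasDerivAt_sPhi hρ hd).const_sub ρ).div_const ρ).sub ((h1.pow 2).div_const 2)).add
      ((h1.pow 3).div_const 5)
  · intro y hy
    have hd := dom_le h hy
    have hx := sx_pos hρ hd
    have hDp := sD2_pos (ρ := ρ) (y := y) (by linarith [hy.1])
    have key := chain1 h hb (y := y) ⟨hy.1.le, hy.2.le⟩
    have e : (-(-(y * (sD2 ρ y / sx ρ y)))) / ρ -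
      (((2 : ℕ) : ℝ) * (sE ρ y / √(1 + ρ ^ 2)) ^ (2 - 1) * ((sD2 ρ y / sx ρ y) / √(1 + ρ ^ 2))) / 2 +
      (((3 : ℕ) : ℝ) * (sE ρ y / √(1 + ρ ^ 2)) ^ (3 - 1) * ((sD2 ρ y / sx ρ y) / √(1 + ρ ^ 2))) / 5 =
        (sD2 ρ y / sx ρ y) / √(1 + ρ ^ 2) *
          (y * √(1 + ρ ^ 2) / ρ - sE ρ y / √(1 + ρ ^ 2) + 3 / 5 * (sE ρ y / √(1 + ρ ^ 2)) ^ 2) := by
      push_cast
      field_simp
    rw [e]
    exact mul_nonneg (by positivity) key

/-! ### the right side -/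

/-- `ρ η ≤ R y + (3 - ρ²) y²/2` for `y ≤ 0` -/
theorem right_eta {ρ a : ℝ} (h : Dom ρ a) (ha : -1 ≤ a) {y : ℝ} (hy : y ∈ Icc a 0) :
    ρ * sE ρ y ≤ (1 + ρ ^ 2) * y + (3 - ρ ^ 2) * y ^ 2 / 2 := by
  have hρ := h.1
  have key := nonneg_down (f := fun y => (1 + ρ ^ 2) * y + (3 - ρ ^ 2) * y ^ 2 / 2 - ρ * sE ρ y)
    (f' := fun y => (1 + ρ ^ 2) * 1 + (3 - ρ ^ 2) * (((2 : ℕ) : ℝ) * y ^ (2 - 1) * 1) / 2 -
      ρ * (sD2 ρ y / sx ρ y)) (a := a)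
    (by
      have := continuous_sE ρ
      fun_prop)
    (by simp [sE_zero hρ])
    (fun y hy => by
      have hd := dom_ge h ha hy
      have h1 := (hasDerivAt_id y).const_mul (1 + ρ ^ 2)
      have h2 := (((hasDerivAt_id y).pow 2).const_mul (3 - ρ ^ 2)).div_const 2
      exact (h1.add h2).sub ((hasDerivAt_sE hρ hd).const_mul ρ))
    (fun y hy => by
      have hd := dom_ge h ha hy
      have hD : Dom ρ y := ⟨hρ, hd.le⟩
      have hx := sx_pos hρ hd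
      have hxle := sx_le hD
      have hE := Real.exp_pos y
      have hE' := Real.exp_pos (-y)
      have hEE : Real.exp y * Real.exp (-y) = 1 := by rw [← Real.exp_add]; simp
      have hy0 : y < 0 := hy.2
      -- `(1 + 2y) e^y ≥ 1 + 3y`, `e^(-y) ≥ 1 - y`
      have h1 : 1 + 3 * y ≤ (1 + 2 * y) * Real.exp y := by
        rcases le_total (-(1 / 2)) y with h2 | h2
        · have h3 := Real.add_one_le_exp y
          have h4 : (1 + 2 * y) * (y + 1) ≤ (1 + 2 * y) * Real.exp y :=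
            mul_le_mul_of_nonneg_left h3 (by linarith)
          nlinarith
        · have h3 : Real.exp y ≤ 1 := Real.exp_le_one_iff.2 hy0.le
          nlinarith
      have h5 : 1 - y ≤ Real.exp (-y) := by linarith [Real.add_one_le_exp (-y)]
      have h6 : (1 + ρ ^ 2) + (3 - ρ ^ 2) * y ≤ (1 + 2 * y) * Real.exp y + ρ ^ 2 * Real.exp (-y) := by
        nlinarith [sq_nonneg ρ]
      have h7 : (1 + 2 * y) * Real.exp y + ρ ^ 2 * Real.exp (-y) = sD2 ρ y * Real.exp y := by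
        rw [sD2_eq hD]
        have : (1 + 2 * y + (ρ * Real.exp (-y)) ^ 2) * Real.exp y =
            (1 + 2 * y) * Real.exp y + ρ ^ 2 * Real.exp (-y) * (Real.exp y * Real.exp (-y)) := by ring
        rw [this, hEE, mul_one]
      have hDp := sD2_pos (ρ := ρ) (y := y) (by linarith [hy.1])
      have h8 : sD2 ρ y * Real.exp y ≤ ρ * (sD2 ρ y / sx ρ y) := by
        rw [← mul_div_assoc, le_div_iff₀ hx]
        calc sD2 ρ y * Real.exp y * sx ρ y ≤ sD2 ρ y * Real.exp y * (ρ * Real.exp (-y)) :=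
              mul_le_mul_of_nonneg_left hxle (by positivity)
          _ = ρ * sD2 ρ y * (Real.exp y * Real.exp (-y)) := by ring
          _ = ρ * sD2 ρ y := by rw [hEE, mul_one]
      have e : (1 + ρ ^ 2) * 1 + (3 - ρ ^ 2) * (((2 : ℕ) : ℝ) * y ^ (2 - 1) * 1) / 2 =
          (1 + ρ ^ 2) + (3 - ρ ^ 2) * y := by
        push_cast
        ring
      show (1 + ρ ^ 2) * 1 + (3 - ρ ^ 2) * (((2 : ℕ) : ℝ) * y ^ (2 - 1) * 1) / 2 -
        ρ * (sD2 ρ y / sx ρ y) ≤ 0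
      rw [e]
      linarith)
    hy
  linarith

/-- Legendre: `P ≤ y η - (R y²/2 + (3 - ρ²) y³/6)/ρ` for `y ≤ 0` -/
theorem right_drop {ρ a : ℝ} (h : Dom ρ a) (ha : -1 ≤ a) (ha0 : a ≤ 0) :
    ρ - sx ρ a * (1 + a) ≤ a * sE ρ a - ((1 + ρ ^ 2) * a ^ 2 / 2 + (3 - ρ ^ 2) * a ^ 3 / 6) / ρ := by
  have hρ := h.1
  have key := nonneg_down (f := fun y => y * sE ρ y - (ρ - sx ρ y * (1 + y)) -
      ((1 + ρ ^ 2) * y ^ 2 / 2 + (3 - ρ ^ 2) * y ^ 3 / 6) / ρ)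
    (f' := fun y => (1 * sE ρ y + y * (sD2 ρ y / sx ρ y)) - (-(-(y * (sD2 ρ y / sx ρ y)))) -
      ((1 + ρ ^ 2) * (((2 : ℕ) : ℝ) * y ^ (2 - 1) * 1) / 2 +
        (3 - ρ ^ 2) * (((3 : ℕ) : ℝ) * y ^ (3 - 1) * 1) / 6) / ρ) (a := a)
    (by
      have := continuous_sE ρ
      have := continuous_sx ρ
      fun_prop)
    (by
      have h0 : sx ρ 0 = ρ := by unfold sx; simp [Real.sqrt_sq hρ.le]
      simp [h0])
    (fun y hy => by
      have hd := dom_ge h ha hy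
      have h1 := (hasDerivAt_id y).mul (hasDerivAt_sE hρ hd)
      have h2 := (hasDerivAt_sPhi hρ hd).const_sub ρ
      have h3 := (((hasDerivAt_id y).pow 2).const_mul (1 + ρ ^ 2)).div_const 2
      have h4 := (((hasDerivAt_id y).pow 3).const_mul (3 - ρ ^ 2)).div_const 6
      exact (h1.sub h2).sub ((h3.add h4).div_const ρ))
    (fun y hy => by
      have h1 := right_eta h ha (y := y) ⟨hy.1.le, hy.2.le⟩
      have e : (1 * sE ρ y + y * (sD2 ρ y / sx ρ y)) - (-(-(y * (sD2 ρ y / sx ρ y)))) -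
      ((1 + ρ ^ 2) * (((2 : ℕ) : ℝ) * y ^ (2 - 1) * 1) / 2 +
        (3 - ρ ^ 2) * (((3 : ℕ) : ℝ) * y ^ (3 - 1) * 1) / 6) / ρ =
          (ρ * sE ρ y - ((1 + ρ ^ 2) * y + (3 - ρ ^ 2) * y ^ 2 / 2)) / ρ := by
        push_cast
        field_simp
        ring
      show (1 * sE ρ y + y * (sD2 ρ y / sx ρ y)) - (-(-(y * (sD2 ρ y / sx ρ y)))) -
      ((1 + ρ ^ 2) * (((2 : ℕ) : ℝ) * y ^ (2 - 1) * 1) / 2 +
        (3 - ρ ^ 2) * (((3 : ℕ) : ℝ) * y ^ (3 - 1) * 1) / 6) / ρ ≤ 0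
      rw [e]
      exact div_nonpos_of_nonpos_of_nonneg (by linarith) hρ.le)
    (left_mem_Icc.2 ha0)
  linarith

end SokalV3
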