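import Pool.Agent.Lib_MP_af4de1_v3.Lev
import Pool.Agent.Lib_MP_af4de1_v3.SadBase
import Pool.Agent.Lib_MP_af4de1_v3.GapA
import Pool.Agent.Lib_MP_af4de1_f1.GTay

/-!
# The level of a saddle relative to `e^r`, left side

`|dK/dη| = |K|/D ≤ ρ/√R` for `y ≥ 0`, so `|K - ρ| ≤ ρ η/√R`.
Level: `ρ (ρ - x(1+y)) ≤ ρ² (1 - (1+y) e^(-y)) + (1+y) y² e^y/(1 + cos ψ)` and
`ρ η ≥ ρ² (1 - e^(-y)) + (y + y²/2) e^y` (`sE_ge_pos`); coefficientwise in `ρ²`.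
-/

set_option autoImplicit false

namespace SokalV3

open Real Set SokalF1 SokalF1S SokalF1M

private theorem ll_lt {ρ b : ℝ} (h : Dom ρ b) {y : ℝ} (hy : y ∈ Ico 0 b) : |y| * Real.exp y < ρ := by
  rcases hy.1.eq_or_lt with h0 | h0
  · rw [← h0, abs_zero, zero_mul]
    exact h.1
  · exact dom_le h ⟨h0, hy.2⟩

private theorem ll_deriv {ρ y : ℝ} (hρ : 0 < ρ) (h : |y| * Real.exp y < ρ) :
    HasDerivAt (fun y : ℝ => sK ρ y - ρ) (((-(sx ρ y ^ 2 + y ^ 2 + y) / sx ρ y : ℝ) : ℂ) + Complex.I) y := by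
  have h1 := (hasDerivAt_sx hρ h).ofReal_comp
  have h2 := ((hasDerivAt_id y).ofReal_comp).mul_const Complex.I
  have h3 := (h1.add h2).sub_const (ρ : ℂ)
  refine h3.congr_deriv ?_
  simp

/-- `|K - ρ| ≤ ρ η/√R` -/
theorem sK_sub_le {ρ b : ℝ} (h : Dom ρ b) (hb : 0 ≤ b) :
    ‖sK ρ b - ρ‖ ≤ ρ / √(1 + ρ ^ 2) * sE ρ b := by
  have hρ := h.1
  have hR : 0 < 1 + ρ ^ 2 := by positivity
  have hs : 0 < √(1 + ρ ^ 2) := Real.sqrt_pos.2 hR
  have key := image_norm_le_of_norm_deriv_right_le_deriv_boundary' (E := ℂ)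
    (f := fun y : ℝ => sK ρ y - ρ)
    (f' := fun y : ℝ => ((-(sx ρ y ^ 2 + y ^ 2 + y) / sx ρ y : ℝ) : ℂ) + Complex.I) (a := 0) (b := b)
    (B := fun y => ρ / √(1 + ρ ^ 2) * sE ρ y)
    (B' := fun y => ρ / √(1 + ρ ^ 2) * (sD2 ρ y / sx ρ y)) ?_ ?_ ?_ ?_ ?_ ?_
  · exact key ⟨hb, le_rfl⟩
  · have hc := continuous_sx ρ
    unfold sK
    fun_prop
  · intro y hy
    exact (ll_deriv hρ (ll_lt h hy)).hasDerivWithinAt
  · show ‖sK ρ 0 - ρ‖ ≤ ρ / √(1 + ρ ^ 2) * sE ρ 0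
    rw [sE_zero hρ, mul_zero]
    unfold sK sx
    simp [Real.sqrt_sq hρ.le]
  · exact (continuous_const.mul (continuous_sE ρ)).continuousOn
  · intro y hy
    exact ((hasDerivAt_sE hρ (ll_lt h hy)).const_mul _).hasDerivWithinAt
  · intro y hy
    have hlt := ll_lt h hy
    have hD : Dom ρ y := ⟨hρ, hlt.le⟩
    have hx := sx_pos hρ hlt
    have hy0 := hy.1
    have hk := sx_sq_add hD
    have hD2 := sD2_eq hD
    have hD2p : 0 < sD2 ρ y := sD2_pos (by linarith)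
    refine (pow_le_pow_iff_left₀ (norm_nonneg _) (by positivity) two_ne_zero).1 ?_
    have e1 : ‖((-(sx ρ y ^ 2 + y ^ 2 + y) / sx ρ y : ℝ) : ℂ) + Complex.I‖ ^ 2 =
        (sx ρ y ^ 2 + y ^ 2) * sD2 ρ y / sx ρ y ^ 2 := by
      rw [Complex.sq_norm, Complex.normSq_apply]
      simp only [Complex.add_re, Complex.ofReal_re, Complex.I_re, add_zero, Complex.add_im,
        Complex.ofReal_im, Complex.I_im, zero_add, mul_one]
      unfold sD2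
      field_simp
      ring
    have e2 : (ρ / √(1 + ρ ^ 2) * (sD2 ρ y / sx ρ y)) ^ 2 =
        ρ ^ 2 * sD2 ρ y * sD2 ρ y / ((1 + ρ ^ 2) * sx ρ y ^ 2) := by
      rw [mul_pow, div_pow, Real.sq_sqrt hR.le]
      field_simp
    rw [e1, e2, div_le_div_iff₀ (by positivity) (by positivity)]
    have h3 : (sx ρ y ^ 2 + y ^ 2) * (1 + ρ ^ 2) ≤ ρ ^ 2 * sD2 ρ y := by
      rw [hk, hD2]
      have hE : Real.exp (-y) ≤ 1 := Real.exp_le_one_iff.2 (by linarith)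
      have hE0 := Real.exp_pos (-y)
      have hE2 : Real.exp (-y) ^ 2 ≤ 1 := by nlinarith
      nlinarith [mul_nonneg (sq_nonneg ρ) hy0, mul_nonneg (sq_nonneg ρ) (sub_nonneg.2 hE2)]
    have h4 := mul_le_mul_of_nonneg_right h3 (by positivity : 0 ≤ sD2 ρ y * sx ρ y ^ 2)
    nlinarith [h4]

private theorem ll_en5 {x : ℝ} (hx : 0 ≤ x) :
    1 - x + x ^ 2 / 2 - x ^ 3 / 6 + x ^ 4 / 24 - x ^ 5 / 120 ≤ Real.exp (-x) := by
  have h := SokalF1G.nonneg_of_deriv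
    (f := fun x => Real.exp (-x) - (1 - x + x ^ 2 / 2 - x ^ 3 / 6 + x ^ 4 / 24 - x ^ 5 / 120))
    (f' := fun x => 1 - x + x ^ 2 / 2 - x ^ 3 / 6 + x ^ 4 / 24 - Real.exp (-x)) (fun y => by
      have h1 := (SokalF1G.hasDerivAt_expneg y).sub ((((((hasDerivAt_const y (1 : ℝ)).sub (hasDerivAt_id y)).add
        ((hasDerivAt_pow 2 y).div_const 2)).sub ((hasDerivAt_pow 3 y).div_const 6)).add
        ((hasDerivAt_pow 4 y).div_const 24)).sub ((hasDerivAt_pow 5 y).div_const 120))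
      refine h1.congr_deriv ?_
      push_cast
      ring) (by simp) (fun y hy => sub_nonneg.2 (SokalF1G.en_le4 hy)) hx
  simpa using h

/-- `1 - (1+y) e^(-y) ≤ (3/5) (1 - e^(-y))²` -/
private theorem ll_i {y : ℝ} (hy : 0 ≤ y) (hy1 : y ≤ 14 / 25) :
    1 - (1 + y) * Real.exp (-y) ≤ 3 / 5 * (1 - Real.exp (-y)) ^ 2 := by
  set E := Real.exp (-y) with hE
  set T := 1 - y + y ^ 2 / 2 - y ^ 3 / 6 + y ^ 4 / 24 - y ^ 5 / 120 with hT
  have hTE : T ≤ E := ll_en5 hy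
  have y2 : 0 ≤ y ^ 2 := sq_nonneg y
  have y3 : 0 ≤ y ^ 3 := pow_nonneg hy 3
  have y4 : 0 ≤ y ^ 4 := pow_nonneg hy 4
  have hT0 : 2 / 5 ≤ T := by
    have h1 : y ^ 3 ≤ y ^ 2 := by nlinarith
    have h2 : y ^ 5 ≤ y ^ 4 := by nlinarith
    rw [hT]
    nlinarith
  have hf : 0 ≤ 3 / 5 * T ^ 2 + (y - 1 / 5) * T - 2 / 5 := by
    have e : 3 / 5 * T ^ 2 + (y - 1 / 5) * T - 2 / 5 = y ^ 2 * ((1 / 10 - 4 / 15 * y + 9 / 40 * y ^ 2 -
        7 / 60 * y ^ 3 + 179 / 5000 * y ^ 4) + y ^ 4 * ((113 / 15000 - 1 / 75 * y) + y ^ 2 * (13 / 4800 - 1 / 2400 * y) +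
        1 / 24000 * y ^ 4)) := by
      rw [hT]
      ring
    rw [e]
    have h1 : 0 ≤ 113 / 15000 - 1 / 75 * y := by linarith
    have h2 : 0 ≤ 13 / 4800 - 1 / 2400 * y := by linarith
    have h3 : 0 ≤ 1 / 10 - 4 / 15 * y + 9 / 40 * y ^ 2 - 7 / 60 * y ^ 3 + 179 / 5000 * y ^ 4 := by
      nlinarith [sq_nonneg (y - 14 / 25), mul_nonneg hy (sq_nonneg (y - 14 / 25)),
        mul_nonneg y2 (sq_nonneg (y - 14 / 25)), mul_nonneg (sub_nonneg.2 hy1) (sq_nonneg (y - 14 / 25))]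
    positivity
  nlinarith [mul_nonneg (sub_nonneg.2 hTE) (by nlinarith : (0 : ℝ) ≤ 3 / 5 * (E + T) + (y - 1 / 5))]

/-- `k ≤ (3/5) q²` -/
private theorem ll_ii {y : ℝ} (hy : 0 ≤ y) :
    (1 + y) * y ^ 2 * Real.exp y / (89 / 50) ≤ 3 / 5 * ((y + y ^ 2 / 2) * Real.exp y) ^ 2 := by
  have hW : 1 ≤ Real.exp y := Real.one_le_exp hy
  rw [div_le_iff₀ (by norm_num)]
  have h1 : (1 + y) ≤ 3 / 5 * (1 + y / 2) ^ 2 * Real.exp y * (89 / 50) := by
    nlinarith [mul_nonneg (sq_nonneg (1 + y / 2)) (sub_nonneg.2 hW), sq_nonneg y]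
  have h2 := mul_le_mul_of_nonneg_right h1 (by positivity : 0 ≤ y ^ 2 * Real.exp y)
  nlinarith [h2]

/-- `g + k ≤ (6/5) a q` -/
private theorem ll_iii {y : ℝ} (hy : 0 ≤ y) (hy1 : y ≤ 14 / 25) :
    1 - (1 + y) * Real.exp (-y) + (1 + y) * y ^ 2 * Real.exp y / (89 / 50) ≤
      6 / 5 * ((1 - Real.exp (-y)) * ((y + y ^ 2 / 2) * Real.exp y)) := by
  have hEW := exp_mul_neg y
  have hE := SokalF1G.en_ge3 hy
  have hW := SokalF1G.e_ge3 hy
  have e1 : (1 - Real.exp (-y)) * ((y + y ^ 2 / 2) * Real.exp y) = (y + y ^ 2 / 2) * (Real.exp y - 1) := by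
    linear_combination (-(y + y ^ 2 / 2)) * hEW
  rw [e1]
  have h1 : 1 - (1 + y) * Real.exp (-y) ≤ y ^ 2 / 2 - y ^ 3 / 3 + y ^ 4 / 6 := by
    have := mul_le_mul_of_nonneg_left hE (by linarith : 0 ≤ 1 + y)
    nlinarith [this]
  have hC : 0 ≤ 6 / 5 * (y + y ^ 2 / 2) - (1 + y) * y ^ 2 / (89 / 50) := by
    have : 0 ≤ y * (6 / 5 * (1 + y / 2) - (1 + y) * y / (89 / 50)) := by
      refine mul_nonneg hy ?_
      nlinarith
    nlinarith [this]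
  have h2 := mul_nonneg hC (sub_nonneg.2 hW)
  have h3 : y ^ 2 / 2 - y ^ 3 / 3 + y ^ 4 / 6 ≤
      (6 / 5 * (y + y ^ 2 / 2) - (1 + y) * y ^ 2 / (89 / 50)) * (1 + y + y ^ 2 / 2 + y ^ 3 / 6) -
        6 / 5 * (y + y ^ 2 / 2) := by
    have y2 : 0 ≤ y ^ 2 := sq_nonneg y
    have y3 : y ^ 3 ≤ 14 / 25 * y ^ 2 := by nlinarith
    have h4 : 0 ≤ y ^ 2 * (1382 / 10000 + 4096 / 10000 * y - 5095 / 10000 * y ^ 2 - 2746 / 10000 * y ^ 3 -
        937 / 10000 * y ^ 4) := by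
      refine mul_nonneg y2 ?_
      nlinarith [mul_nonneg y2 (sub_nonneg.2 hy1), mul_nonneg (mul_nonneg y2 hy) (sub_nonneg.2 hy1)]
    nlinarith [h4, pow_nonneg hy 3, pow_nonneg hy 4, pow_nonneg hy 5, pow_nonneg hy 6]
  have e2 : (1 + y) * y ^ 2 * Real.exp y / (89 / 50) = (1 + y) * y ^ 2 / (89 / 50) * Real.exp y := by ring
  rw [e2]
  linarith

/-- the level -/
theorem level_left {ρ y : ℝ} (h : Dom ρ y) (hy : 0 ≤ y) (hy1 : y ≤ 14 / 25) (hT : y ≤ 4 / 5 * sx ρ y) :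
    (ρ - sx ρ y * (1 + y)) * (1 + ρ ^ 2) ≤ 3 / 5 * ρ * sE ρ y ^ 2 := by
  have hρ := h.1
  have hx := sx_eq h
  have hyr := y_eq h
  have hye := y_exp_eq h
  have hEW := exp_mul_neg y
  have hsc := Real.sin_sq_add_cos_sq (sP ρ y)
  have hη := sE_ge_pos h hy
  have hc0 : 0 ≤ Real.cos (sP ρ y) := by
    have := abs_le.1 (sP_abs_le ρ y)
    exact Real.cos_nonneg_of_mem_Icc ⟨by linarith [this.1], this.2⟩
  have hc1 := Real.cos_le_one (sP ρ y)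
  have hE0 := Real.exp_pos (-y)
  have hW0 := Real.exp_pos y
  have hs0 : 0 ≤ Real.sin (sP ρ y) := by
    rw [h.sin]
    positivity
  set c := Real.cos (sP ρ y) with hc
  set s := Real.sin (sP ρ y) with hs
  set E := Real.exp (-y) with hE
  set W := Real.exp y with hW
  -- `cos ψ ≥ 39/50`
  have hsc2 : s ≤ 4 / 5 * c := by
    have hρE : 0 < ρ * E := by positivity
    have h1 : ρ * E * s ≤ ρ * E * (4 / 5 * c) := by
      calc ρ * E * s = y := hyr.symm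
        _ ≤ 4 / 5 * sx ρ y := hT
        _ = ρ * E * (4 / 5 * c) := by rw [hx]; ring
    exact le_of_mul_le_mul_left h1 hρE
  have hc2 : 39 / 50 ≤ c := by
    by_contra hcon
    push Not at hcon
    nlinarith
  have hi := ll_i hy hy1
  have hii := ll_ii hy
  have hiii := ll_iii hy hy1
  rw [← hE, ← hW] at hiii
  rw [← hE] at hi
  rw [← hW] at hii
  -- upper bound of the level
  have hP : ρ * (ρ - sx ρ y * (1 + y)) ≤ ρ ^ 2 * (1 - (1 + y) * E) + (1 + y) * y ^ 2 * W / (89 / 50) := by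
    have e1 : ρ * (ρ - sx ρ y * (1 + y)) = ρ ^ 2 * (1 - (1 + y) * E) + (1 + y) * E * (ρ ^ 2 * (1 - c)) := by
      rw [hx]
      ring
    have e2 : ρ ^ 2 * (1 - c) * (1 + c) = y ^ 2 * W ^ 2 := by
      calc ρ ^ 2 * (1 - c) * (1 + c) = ρ ^ 2 * (1 - c ^ 2) := by ring
        _ = (ρ * s) ^ 2 := by
          have : 1 - c ^ 2 = s ^ 2 := by linarith
          rw [this]
          ring
        _ = y ^ 2 * W ^ 2 := by
          rw [← hye]
          ring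
    have e3 : ρ ^ 2 * (1 - c) * (89 / 50) ≤ y ^ 2 * W ^ 2 := by
      rw [← e2]
      exact mul_le_mul_of_nonneg_left (by linarith) (mul_nonneg (sq_nonneg ρ) (by linarith))
    have e4 : ρ ^ 2 * (1 - c) ≤ y ^ 2 * W ^ 2 / (89 / 50) := by
      rw [le_div_iff₀ (by norm_num)]
      exact e3
    have e5 := mul_le_mul_of_nonneg_left e4 (by positivity : 0 ≤ (1 + y) * E)
    have e6 : (1 + y) * E * (y ^ 2 * W ^ 2 / (89 / 50)) = (1 + y) * y ^ 2 * W / (89 / 50) * (W * E) := by ring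
    rw [e6, hEW, mul_one] at e5
    rw [e1]
    linarith
  -- lower bound of the angle
  have hA : ρ ^ 2 * (1 - E) + (y + y ^ 2 / 2) * W ≤ ρ * sE ρ y := by
    have := mul_le_mul_of_nonneg_left hη hρ.le
    have e7 : ρ * (ρ * (1 - E) + (y + y ^ 2 / 2) * W / ρ) = ρ ^ 2 * (1 - E) + (y + y ^ 2 / 2) * W := by
      field_simp
    rwa [e7] at this
  have hE1 : E ≤ 1 := Real.exp_le_one_iff.2 (by linarith)
  have ha0 : 0 ≤ 1 - E := by linarith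
  have hq0 : 0 ≤ (y + y ^ 2 / 2) * W := by positivity
  have hA2 : (ρ ^ 2 * (1 - E) + (y + y ^ 2 / 2) * W) ^ 2 ≤ (ρ * sE ρ y) ^ 2 :=
    pow_le_pow_left₀ (by positivity) hA 2
  have hz : 0 ≤ ρ ^ 2 := sq_nonneg ρ
  set g := 1 - (1 + y) * E with hg
  set k := (1 + y) * y ^ 2 * W / (89 / 50) with hk
  set a := 1 - E with ha
  set q := (y + y ^ 2 / 2) * W with hq
  set z := ρ ^ 2 with hzz
  have hmain : (z * g + k) * (1 + z) ≤ 3 / 5 * (z * a + q) ^ 2 := by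
    have t1 := mul_le_mul_of_nonneg_left hi (by positivity : 0 ≤ z ^ 2)
    have t2 := mul_le_mul_of_nonneg_left hiii hz
    nlinarith [t1, t2, hii]
  have hfin : ρ * ((ρ - sx ρ y * (1 + y)) * (1 + z)) ≤ ρ * (3 / 5 * ρ * sE ρ y ^ 2) := by
    calc ρ * ((ρ - sx ρ y * (1 + y)) * (1 + z)) = ρ * (ρ - sx ρ y * (1 + y)) * (1 + z) := by ring
      _ ≤ (z * g + k) * (1 + z) := mul_le_mul_of_nonneg_right hP (by linarith)
      _ ≤ 3 / 5 * (z * a + q) ^ 2 := hmain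
      _ ≤ 3 / 5 * (ρ * sE ρ y) ^ 2 := by linarith
      _ = ρ * (3 / 5 * ρ * sE ρ y ^ 2) := by ring
  exact le_of_mul_le_mul_left hfin hρ

/-- `(1+z) y + (3/2 - z/2) y² ≤ ρ η` -/
private theorem ll_eta {ρ y : ℝ} (h : Dom ρ y) (hy : 0 ≤ y) :
    (1 + ρ ^ 2) * y + (3 / 2 - ρ ^ 2 / 2) * y ^ 2 ≤ ρ * sE ρ y := by
  have hρ := h.1
  have hη := mul_le_mul_of_nonneg_left (sE_ge_pos h hy) hρ.le
  have e7 : ρ * (ρ * (1 - Real.exp (-y)) + (y + y ^ 2 / 2) * Real.exp y / ρ) =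
      ρ ^ 2 * (1 - Real.exp (-y)) + (y + y ^ 2 / 2) * Real.exp y := by
    field_simp
  rw [e7] at hη
  refine le_trans ?_ hη
  have h1 := SokalF1G.en_le2 hy
  have h2 := Real.add_one_le_exp y
  have h3 : ρ ^ 2 * (y - y ^ 2 / 2) ≤ ρ ^ 2 * (1 - Real.exp (-y)) :=
    mul_le_mul_of_nonneg_left (by linarith) (sq_nonneg ρ)
  have h4 : (y + y ^ 2 / 2) * (y + 1) ≤ (y + y ^ 2 / 2) * Real.exp y :=
    mul_le_mul_of_nonneg_left h2 (by positivity)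
  nlinarith [pow_nonneg hy 3]

private theorem ll_D {ρ y : ℝ} (h : Dom ρ y) (hy : 0 ≤ y) :
    sD2 ρ y ≤ 1 + 2 * y + ρ ^ 2 * (1 - 2 * y + 2 * y ^ 2) := by
  rw [sD2_eq h, mul_pow]
  have h1 := SokalF1G.en_le2 (x := 2 * y) (by linarith)
  have h2 : Real.exp (-y) ^ 2 = Real.exp (-(2 * y)) := by
    rw [← Real.exp_nat_mul]
    congr 1
    push_cast
    ring
  rw [h2]
  have h3 := mul_le_mul_of_nonneg_left h1 (sq_nonneg ρ)
  nlinarith

private theorem ll_D1 {ρ y : ℝ} (h : Dom ρ y) (hy : 0 ≤ y) (hy1 : y ≤ 14 / 25)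
    (hη : sE ρ y ^ 2 ≤ 396 / 1000 * (1 + ρ ^ 2)) : sD2 ρ y ≤ (23 / 20) ^ 2 * (1 + ρ ^ 2) := by
  refine (ll_D h hy).trans ?_
  have hA := ll_eta h hy
  have hρ := h.1
  have hz : 0 ≤ ρ ^ 2 := sq_nonneg ρ
  have hA2 : (ρ * sE ρ y) ^ 2 ≤ 396 / 1000 * (ρ ^ 2 * (1 + ρ ^ 2)) := by
    rw [mul_pow]
    nlinarith [mul_le_mul_of_nonneg_left hη hz]
  set z := ρ ^ 2 with hzz
  have hA3 : ρ * sE ρ y ≤ 14 / 100 + 848 / 1000 * z := by
    refine abs_le_of_sq_le_sq' ?_ (by positivity) |>.2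
    nlinarith [sq_nonneg (z - 245 / 1000)]
  rcases le_total z 1 with h1 | h1
  · have hH : (1 + z) * y + (3 / 2 - z / 2) * y ^ 2 ≤ 14 / 100 + 848 / 1000 * z := hA.trans hA3
    have h2 := mul_le_mul_of_nonneg_left hH (by linarith : 0 ≤ 1 - z / 2)
    nlinarith [h2, sq_nonneg (y - 1 / 3), mul_nonneg hz (sq_nonneg (y - 1 / 4)), mul_nonneg hz hy,
      mul_nonneg (mul_nonneg hz hz) (sq_nonneg y), mul_nonneg hz (sub_nonneg.2 h1),
      mul_nonneg (mul_nonneg hz (sub_nonneg.2 h1)) hy,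
      mul_nonneg (mul_nonneg hz hy) (sub_nonneg.2 hy1)]
  · nlinarith [mul_nonneg (sub_nonneg.2 h1) (mul_nonneg hy (by linarith : 0 ≤ 1 - y)), sq_nonneg y]

private theorem ll_D2 {ρ y : ℝ} (h : Dom ρ y) (hy : 0 ≤ y) (hy1 : y ≤ 41 / 100)
    (hη : sE ρ y ^ 2 ≤ 1128 / 10000 * (1 + ρ ^ 2)) : sD2 ρ y ≤ (11 / 10) ^ 2 * (1 + ρ ^ 2) := by
  refine (ll_D h hy).trans ?_
  have hA := ll_eta h hy
  have hρ := h.1
  have hz : 0 ≤ ρ ^ 2 := sq_nonneg ρ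
  have hA2 : (ρ * sE ρ y) ^ 2 ≤ 1128 / 10000 * (ρ ^ 2 * (1 + ρ ^ 2)) := by
    rw [mul_pow]
    nlinarith [mul_le_mul_of_nonneg_left hη hz]
  set z := ρ ^ 2 with hzz
  have hA3 : ρ * sE ρ y ≤ 675 / 10000 + 488 / 1000 * z := by
    refine abs_le_of_sq_le_sq' ?_ (by positivity) |>.2
    nlinarith [sq_nonneg (z - 187 / 1000)]
  rcases le_total z 1 with h1 | h1
  · have hH : (1 + z) * y + (3 / 2 - z / 2) * y ^ 2 ≤ 675 / 10000 + 488 / 1000 * z := hA.trans hA3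
    have h2 := mul_le_mul_of_nonneg_left hH (by linarith : 0 ≤ 13 / 10 - z)
    nlinarith [h2, sq_nonneg (y - 1 / 6), mul_nonneg hz (sq_nonneg (y - 1 / 6)), mul_nonneg hz hy,
      mul_nonneg (mul_nonneg hz hz) (sq_nonneg y), mul_nonneg hz (sub_nonneg.2 h1),
      mul_nonneg (mul_nonneg hz (sub_nonneg.2 h1)) hy,
      mul_nonneg (mul_nonneg hz hy) (sub_nonneg.2 hy1)]
  · nlinarith [mul_nonneg (sub_nonneg.2 h1) (mul_nonneg hy (by linarith : 0 ≤ 1 - y)), sq_nonneg y]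

private theorem ll_y0 {r δ y η : ℝ} (h : At r δ y η) (hη : 0 ≤ η) : 0 ≤ y := by
  by_contra hcon
  push Not at hcon
  have h1 := sE_strictMonoOn h.dom (dom_zero h.dom.1) h.y1.le ⟨le_rfl, hcon.le⟩ ⟨hcon.le, le_rfl⟩ hcon
  rw [sE_zero h.dom.1, h.eta] at h1
  linarith

/-- the level structure from the bounds of the saddle -/
private theorem ll_lev {r δ y η q : ℝ} (hr : 0 < r) (hδ : 0 < δ) (h : At r δ y η) (hη : 0 ≤ η)
    (hy1 : y ≤ 14 / 25) (hT : y ≤ 4 / 5 * sx (r * δ) y) (hq : 0 ≤ q)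
    (hD : sD2 (r * δ) y ≤ q ^ 2 * (1 + (r * δ) ^ 2)) : Lev r δ y η (6 / 5) 1 q := by
  have hy := ll_y0 h hη
  have hR : 0 < RR r δ := by
    unfold RR
    positivity
  have hs : 0 < √(RR r δ) := Real.sqrt_pos.2 hR
  refine ⟨?_, ?_, ?_⟩
  · have h1 := level_left h.dom hy hy1 hT
    rw [h.eta] at h1
    have h2 : (r * δ - sx (r * δ) y * (1 + y)) / δ ≤ 3 / 5 * (r * δ) * η ^ 2 / RR r δ / δ := by
      refine div_le_div_of_nonneg_right ?_ hδ.le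
      rw [le_div_iff₀ hR]
      exact h1
    have e1 : (r * δ - sx (r * δ) y * (1 + y)) / δ = r - sx (r * δ) y * (1 + y) / δ := by
      field_simp
    have e2 : 3 / 5 * (r * δ) * η ^ 2 / RR r δ / δ = 6 / 5 / 2 * (r * η ^ 2 / RR r δ) := by
      field_simp
      ring
    rw [e1, e2] at h2
    exact h2
  · have h1 := sK_sub_le h.dom hy
    rw [h.eta] at h1
    have e1 : kap r δ y - r = (sK (r * δ) y - ((r * δ : ℝ) : ℂ)) / (δ : ℂ) := by
      have : (δ : ℂ) ≠ 0 := Complex.ofReal_ne_zero.2 hδ.ne'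
      unfold kap
      push_cast
      field_simp
    have e2 : 1 * (r * |η| / √(RR r δ)) = r * δ / √(1 + (r * δ) ^ 2) * η / δ := by
      rw [abs_of_nonneg hη]
      unfold RR
      field_simp
    rw [e1, e2, norm_div, Complex.norm_real, Real.norm_of_nonneg hδ.le]
    exact div_le_div_of_nonneg_right h1 hδ.le
  · unfold sD
    have h1 := Real.sqrt_le_sqrt hD
    rw [Real.sqrt_mul (sq_nonneg q), Real.sqrt_sq hq] at h1
    exact h1

private theorem ll_sq {a b c : ℝ} (ha : 0 ≤ a) (hab : a ≤ c * b) : a ^ 2 ≤ c ^ 2 * b ^ 2 := by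
  rw [← mul_pow]
  exact pow_le_pow_left₀ ha hab 2

private theorem ll_G {N : ℕ} {r δ g : ℝ} (hr : 499 / 10 ≤ r) (h : Gm N r δ < g) :
    499 / 10 * hst N ^ 2 ≤ g * (1 + (r * δ) ^ 2) := by
  have hR : 0 < RR r δ := by
    unfold RR
    positivity
  unfold Gm at h
  rw [div_lt_iff₀ hR] at h
  unfold RR at h
  nlinarith [mul_nonneg (sub_nonneg.2 hr) (sq_nonneg (hst N))]

/-- PIECE LEVEL, left side, `Γ < 10`. -/
theorem levL_A {N : ℕ} {r δ y η : ℝ} (hR : Reg1 N r δ) (h : At r δ y η) (hS : Sad1 N r δ y)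
    (hG : Gm N r δ < 10) (h0 : 0 ≤ η) (h1 : η ≤ eo1 N r δ) : Lev r δ y η (6 / 5) 1 (11 / 10) := by
  rcases hS with ⟨-, hA⟩ | ⟨hG2, -⟩
  swap
  · linarith
  have hy := ll_y0 h h0
  have hT := hA.T
  rw [abs_of_nonneg hy] at hT
  have hx := sx_nonneg (r * δ) y
  have hr := hR.r0
  have hη : η ≤ 3 / 4 * hst N := by
    unfold eo1 om1 at h1
    rw [if_pos hG] at h1
    linarith
  have h2 := ll_sq h0 hη
  have h3 := ll_G hr hG
  refine ll_lev (by linarith) hR.d0 h h0 (by linarith [hA.hi]) (by linarith) (by norm_num)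
    (ll_D2 h.dom hy hA.hi ?_)
  rw [h.eta]
  linarith [sq_nonneg (r * δ)]

/-- PIECE LEVEL, left side. -/
theorem levL {N : ℕ} {r δ y η : ℝ} (hR : Reg1 N r δ) (h : At r δ y η) (hS : Sad1 N r δ y)
    (h0 : 0 ≤ η) (h1 : η ≤ eo1 N r δ) : Lev r δ y η (6 / 5) 1 (23 / 20) := by
  rcases lt_or_ge (Gm N r δ) 10 with hG | hG
  · have := levL_A hR h hS hG h0 h1
    exact ⟨this.l0, this.l1, this.l2.trans (by
      have := Real.sqrt_nonneg (RR r δ)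
      nlinarith)⟩
  rcases hS with ⟨hG2, -⟩ | ⟨-, hB⟩
  · linarith
  have hy := ll_y0 h h0
  have hT := hB.T
  rw [abs_of_nonneg hy] at hT
  have hr := hR.r0
  refine ll_lev (by linarith) hR.d0 h h0 hB.hi hT (by norm_num)
    (ll_D1 h.dom hy hB.hi ?_)
  rw [h.eta]
  rcases lt_or_ge (Gm N r δ) 20 with hG3 | hG3
  · have hη : η ≤ 13 / 20 * hst N := by
      unfold eo1 om1 at h1
      rw [if_neg (not_lt.2 hG), if_pos hG3] at h1
      linarith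
    have h2 := ll_sq h0 hη
    have h3 := ll_G hr hG3
    nlinarith [sq_nonneg (r * δ)]
  · have hη : η ≤ 3 / 5 * hst N := by
      unfold eo1 om1 at h1
      rw [if_neg (not_lt.2 hG), if_neg (not_lt.2 hG3)] at h1
      linarith
    have h2 := ll_sq h0 hη
    have h3 := hR.I
    unfold RR at h3
    linarith

end SokalV3
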