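import Pool.Agent.Lib_MP_af4de1_v3.ClI
import Pool.Agent.Lib_MP_af4de1_v3.LevL

/-!
# Far waves with `Γ ≥ 10`, X: the fields `a'` and `c` of `PShfL`
-/

set_option autoImplicit false

namespace SokalCl

open Real SokalFN SokalCel SokalCen SokalFA SokalV3 SokalF1 SokalF1S SokalF1M MeasureTheory Set

/-! ## from the parameters to a point -/

section link

variable {N : ℕ} {r δ η : ℝ}

/-- `p = ρ/√R` -/
noncomputable def pp (r δ : ℝ) : ℝ := r * δ / √(1 + (r * δ) ^ 2)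

theorem pp_sq (r δ : ℝ) : (1 - pp r δ ^ 2) * (1 + (r * δ) ^ 2) = 1 := by
  have h0 : 0 < 1 + (r * δ) ^ 2 := by positivity
  have h2 : √(1 + (r * δ) ^ 2) ^ 2 = 1 + (r * δ) ^ 2 := Real.sq_sqrt h0.le
  unfold pp
  rw [div_pow, h2]
  field_simp
  ring

theorem pp_pos (hr : 0 < r) (hδ : 0 < δ) : 0 < pp r δ := by
  unfold pp
  positivity

theorem pp_lt (hr : 0 < r) (hδ : 0 < δ) : pp r δ < 1 := by
  have h1 := pp_sq r δ
  have h2 := pp_pos hr hδ
  have h3 : 0 < 1 + (r * δ) ^ 2 := by positivity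
  by_contra hc
  push Not at hc
  have h4 : 1 - pp r δ ^ 2 ≤ 0 := by nlinarith
  nlinarith

theorem pp_sqrt (r δ : ℝ) : √(1 - pp r δ ^ 2) = 1 / √(1 + (r * δ) ^ 2) := by
  have h0 : 0 < 1 + (r * δ) ^ 2 := by positivity
  have h1 : 1 - pp r δ ^ 2 = 1 / (1 + (r * δ) ^ 2) := by
    rw [eq_div_iff h0.ne']
    exact pp_sq r δ
  rw [h1, Real.sqrt_div zero_le_one, Real.sqrt_one]

theorem hst_pos {N : ℕ} (hN : 0 < N) : 0 < hst N := by
  have : (0 : ℝ) < N := by exact_mod_cast hN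
  unfold hst
  positivity

/-- the point -/
theorem pts_of {vt : ℝ} (hN : 0 < N) (hr : 499 / 10 ≤ r) (hδ : 0 < δ) (hη : 0 ≤ η)
    (hπ : η + hst N ≤ π) (hG : 10 ≤ Gm N r δ) (hv : hst N ≤ vt) :
    PTs vt (pp r δ) ((η + hst N) / mm (r * δ)) (η / hst N) (η + hst N) (2 * π - (η + hst N))
      (r * (η + hst N) ^ 2 / RR r δ) := by
  have hr0 : 0 < r := by linarith
  have hh := hst_pos hN
  have hp := Real.pi_pos
  have h0 : 0 < 1 + (r * δ) ^ 2 := by positivity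
  have hS : 0 < √(1 + (r * δ) ^ 2) := Real.sqrt_pos.2 h0
  have hS2 : √(1 + (r * δ) ^ 2) ^ 2 = 1 + (r * δ) ^ 2 := Real.sq_sqrt h0.le
  have hm : 0 < mm (r * δ) := by unfold mm; positivity
  have hm2 : mm (r * δ) ^ 2 = 25 / 16 * (1 + (r * δ) ^ 2) := by
    unfold mm
    rw [mul_pow, hS2]
    ring
  have hτ : 0 ≤ η / hst N := div_nonneg hη hh.le
  have hθ : 0 < η + hst N := by linarith
  have e1 : η + hst N = (1 + η / hst N) * hst N := by field_simp; ring
  refine ⟨pp_pos hr0 hδ, pp_lt hr0 hδ, div_pos hθ hm, hθ, rfl, by linarith, hπ, ?_, hτ, ?_, ?_, ?_⟩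
  · have h1 := pp_sq r δ
    rw [div_pow, hm2]
    have h2 : 1 - pp r δ ^ 2 = 1 / (1 + (r * δ) ^ 2) := by
      rw [eq_div_iff h0.ne']
      exact h1
    rw [h2]
    field_simp
  · rw [e1]
    exact mul_le_mul_of_nonneg_left hv (by linarith)
  · have h1 : r * (η + hst N) ^ 2 / RR r δ = Gm N r δ * (1 + η / hst N) ^ 2 := by
      unfold Gm
      rw [e1]
      ring
    rw [h1]
    exact mul_le_mul_of_nonneg_right hG (by positivity)
  · unfold RR
    rw [div_pow, hm2]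
    have h1 : 2495 / 32 * ((η + hst N) ^ 2 / (25 / 16 * (1 + (r * δ) ^ 2))) =
        499 / 10 * (η + hst N) ^ 2 / (1 + (r * δ) ^ 2) := by
      field_simp
      ring
    rw [h1]
    gcongr

/-- the geometry -/
theorem geo_of {σ cl A2 : ℝ} (hN : 0 < N) (hr : 499 / 10 ≤ r) (hδ : 0 < δ) (hη : 0 ≤ η)
    (hπ : η + hst N ≤ π) (s0 : 0 ≤ σ) (s1 : σ ≤ 1) (c0 : 0 < cl) (c1 : cl ≤ 1)
    (cT : cl * ((η + hst N) / mm (r * δ)) ≤ 1) (a0 : 0 < A2)
    (a1 : A2 ≤ (8 / 5 - 16 / 25 * gam (min 1 (4 / 5 * √(1 - pp r δ ^ 2) *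
      (2 * π - (η + hst N)))) * pp r δ) * min 1 (1 / (4 / 5 * √(1 - pp r δ ^ 2) *
      (2 * π - (η + hst N))))) :
    Geo r δ (η + hst N) ⟨pp r δ, (η + hst N) / mm (r * δ), η + hst N, 2 * π - (η + hst N),
      r * (η + hst N) ^ 2 / RR r δ, σ, cl, A2⟩ := by
  have hh := hst_pos hN
  have hp := Real.pi_pos
  have h0 : 0 < 1 + (r * δ) ^ 2 := by positivity
  have hS : 0 < √(1 + (r * δ) ^ 2) := Real.sqrt_pos.2 h0
  have e1 : 4 / 5 * √(1 - pp r δ ^ 2) * (2 * π - (η + hst N)) =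
      (2 * π - (η + hst N)) / mm (r * δ) := by
    rw [pp_sqrt]
    unfold mm
    field_simp
  rw [e1, one_div_div] at a1
  exact ⟨hr, hδ, rfl, by linarith, hπ, rfl, rfl, rfl, rfl, s0, s1, c0, c1, cT, a0, a1⟩

end link

/-- from a good point to the wave -/
theorem shf_good {N : ℕ} {r δ y η k4 l0 l2 q0 q2 f0 f1 f2 : ℝ} {G3 G4 : Pt → ℝ → ℝ}
    (hN : 0 < N) (hr : 499 / 10 ≤ r) (hδ : 0 < δ)
    (hA : At r δ y η) (hL : Lev r δ y η (6 / 5) 1 (23 / 20)) (hη : 0 ≤ η) (hπ : η + hst N ≤ π)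
    (n3 : ∀ x κ, 0 ≤ G3 x κ) (n4 : ∀ x κ, 0 ≤ G4 x κ)
    (h3 : ∀ x, Geo r δ (η + hst N) x → ∀ κ, 7 / 8 ≤ κ → ∫⁻ s in Ioc 0 x.u,
      ENNReal.ofReal (exp (-(κ * r * Dm (mm (r * δ)) (r * δ) (η + hst N) s))) ≤
      ENNReal.ofReal (G3 x κ / K0 r δ))
    (h4 : ∀ x, Geo r δ (η + hst N) x → k4 ≤ 7 / 8 * (x.V * ((x.u / x.θ) ^ 2 * x.A2 / (2 * x.p))) →
      ∀ κ, 7 / 8 ≤ κ → ∫⁻ s in Ioi x.u,
      ENNReal.ofReal (exp (-(κ * r * Dm (mm (r * δ)) (r * δ) (η + hst N) s))) ≤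
      ENNReal.ofReal (G4 x κ / K0 r δ))
    (hg : Good G3 G4 k4 l0 l2 (pp r δ) ((η + hst N) / mm (r * δ)) (η / hst N) (η + hst N)
      (2 * π - (η + hst N)) (r * (η + hst N) ^ 2 / RR r δ))
    (z0 : 0 ≤ q0) (z2 : 0 ≤ q2) (y0 : l0 ≤ q0 ^ 2) (y2 : l2 ≤ q2 ^ 2) (x0 : q0 ^ 2 ≤ f0)
    (x1 : q0 * q2 ≤ f1) (x2 : q2 ^ 2 ≤ f2) :
    Shf r δ y (hst N) (HH N r δ) f0 f1 f2 := by
  obtain ⟨σ, cl, A2, s0', s1', c0, c1, cT, a0', a1', k2, k4', a0, aW, ae, b0, bW, be, e0, e2⟩ := hg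
  have g := geo_of hN hr hδ hη hπ s0' s1' c0 c1 cT a0' a1'
  obtain ⟨x, hx⟩ : ∃ x : Pt, x = ⟨pp r δ, (η + hst N) / mm (r * δ), η + hst N,
    2 * π - (η + hst N), r * (η + hst N) ^ 2 / RR r δ, σ, cl, A2⟩ := ⟨_, rfl⟩
  have xp : pp r δ = x.p := by rw [hx]
  have xV : r * (η + hst N) ^ 2 / RR r δ = x.V := by rw [hx]
  have xT : (η + hst N) / mm (r * δ) = x.T := by rw [hx]
  have xσ : σ = x.σ := by rw [hx]
  have xu : 2 * π - (η + hst N) = x.u := by rw [hx]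
  have xA : A2 = x.A2 := by rw [hx]
  have xθ : η + hst N = x.θ := by rw [hx]
  rw [← hx] at b0 bW be k2 g
  have hh := hst_pos hN
  have hr0 : 0 < r := by linarith
  have hR : 0 < RR r δ := by
    unfold RR
    positivity
  have hτ : 0 ≤ η / hst N := div_nonneg hη hh.le
  have eL : 3 / 5 * (η / hst N / (1 + η / hst N)) ^ 2 * (r * (η + hst N) ^ 2 / RR r δ) =
      3 / 5 * (r * η ^ 2 / RR r δ) := by
    have h1 : 0 < 1 + η / hst N := by linarith
    have h2 : η / hst N / (1 + η / hst N) = η / (η + hst N) := by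
      have h3 : 0 < η + hst N := by linarith
      field_simp
      ring
    rw [h2]
    have h3 : 0 < η + hst N := by linarith
    field_simp
  have eG : r * (η + hst N) ^ 2 / RR r δ / (1 + η / hst N) ^ 2 = Gm N r δ := by
    have e1 : η + hst N = (1 + η / hst N) * hst N := by field_simp; ring
    have h1 : 0 < 1 + η / hst N := by linarith
    unfold Gm
    rw [div_div, div_eq_div_iff (by positivity) hR.ne']
    nth_rewrite 1 [e1]
    ring
  rw [eL] at b0 bW be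
  rw [eG] at bW be
  have hG : 0 < Gm N r δ := by
    unfold Gm
    positivity
  have hΛ := exp_pos (3 / 5 * (r * η ^ 2 / RR r δ))
  have hae : 0 ≤ ae := by
    have h1 : 0 ≤ se x (G3 x) (G4 x) := by
      unfold se
      have := g1_nonneg x 1
      have := g2_nonneg x 1
      have := mul_nonneg (exp_pos (1 : ℝ)).le (add_nonneg (n3 x 1) (n4 x 1))
      linarith
    have h2 : 0 ≤ ae * Gm N r δ := le_trans (mul_nonneg hΛ.le h1) be
    exact nonneg_of_mul_nonneg_left h2 hG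
  have hs : 0 ≤ √aW + η / hst N * √a0 := by positivity
  have hs2 : √aW + η / hst N * √a0 ≤ q2 := by
    refine le_of_sq_le_sq ?_ z2
    linarith
  have ha0 : √a0 ≤ q0 := by
    rw [Real.sqrt_le_left z0]
    exact e0.trans y0
  refine shf_num hN hA hL hη g ?_ (n3 x) (n4 x) (h3 x g) (h4 x g ?_) b0 bW be
    (e0.trans (y0.trans x0)) ?_ ((e2.trans y2).trans x2)
  · rw [← xV, ← xT, ← xσ, ← xp]
    exact k2
  · rw [← xV, ← xu, ← xA, ← xp, ← xθ]
    exact k4'
  · exact (mul_le_mul ha0 hs2 hs z0).trans x1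

/-! ## the fields -/

theorem hst3 : hst 3 = 2 * π / 3 := by
  unfold hst
  norm_num

theorem hst_le {N M : ℕ} (hM : 0 < M) (h : M ≤ N) : hst N ≤ hst M := by
  unfold hst
  have h1 : (M : ℝ) ≤ N := by exact_mod_cast h
  have h2 : (0 : ℝ) < M := by exact_mod_cast hM
  have := Real.pi_pos
  gcongr

theorem T_le {r δ θ : ℝ} (h : 0 ≤ θ) : θ / mm (r * δ) ≤ 4 / 5 * θ := by
  have h0 : 1 ≤ √(1 + (r * δ) ^ 2) := Real.one_le_sqrt.2 (by nlinarith [sq_nonneg (r * δ)])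
  unfold mm
  rw [div_le_iff₀ (by positivity)]
  nlinarith

/-- field `a'` of `PShfL` -/
theorem shfL_a' : ∀ (N : ℕ) (r δ y η : ℝ), Reg1 N r δ → At r δ y η → Sad1 N r δ y →
    10 ≤ Gm N r δ → 0 ≤ η → η ≤ ei1 N r δ → η + hst N ≤ Real.pi →
    Shf r δ y (hst N) (HH N r δ) (3 / 50) (3 / 50) 1 := by
  intro N r δ y η hR hA hS hG h0 h1 hπ
  have hN : 0 < N := by have := hR.N3; omega
  have hh := hst_pos hN
  have hpi := Real.pi_pos
  have hpl := Real.pi_gt_d6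
  have hpu := Real.pi_lt_d6
  have h3 : hst N ≤ 2 * π / 3 := by
    rw [← hst3]
    exact hst_le (by norm_num) hR.N3
  have hom : om1 N r δ = 3 / 20 ∨ om1 N r δ = 1 / 10 := by
    unfold om1
    rw [if_neg (by linarith)]
    split_ifs
    · exact Or.inl rfl
    · exact Or.inr rfl
  have hτ : η / hst N ≤ 2 / 5 := by
    rw [div_le_iff₀ hh]
    unfold ei1 at h1
    rcases hom with h | h <;> rw [h] at h1 <;> nlinarith
  have he : η ≤ eo1 N r δ := by
    unfold ei1 at h1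
    unfold eo1
    rcases hom with h | h <;> rw [h] at h1 ⊢ <;> nlinarith
  have hL := levL hR hA hS h0 he
  have hP := pts_of hN hR.r0 hR.d0 h0 hπ hG (vt := fx 2302812022160) (by
    have : (3.141593 : ℝ) * 2 / 3 ≤ fx 2302812022160 := by unfold fx; norm_num
    linarith)
  have hτ0 : 0 ≤ η / hst N := div_nonneg h0 hh.le
  have hr0 : 0 < r := by linarith [hR.r0]
  have hg : Good g3 g4 (16 / 5) (fx 43980465111) (fx 98956046499) (pp r δ)
      ((η + hst N) / mm (r * δ)) (η / hst N) (η + hst N)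
      (2 * π - (η + hst N)) (r * (η + hst N) ^ 2 / RR r δ) := by
    refine bis_sound (P := fun p T τ => ∀ θ u V : ℝ, PTs (fx 2302812022160) p T τ θ u V →
      Good g3 g4 (16 / 5) (fx 43980465111) (fx 98956046499) p T τ θ u V)
      (fun x0 x1 y0 y1 z0 z1 hok x y z b0 b1 b2 b3 b4 b5 θ u V hP =>
        okG_sound hok b0 b1 b2 b3 b4 b5 hP) 2 1 2 24 _ _ _ _ _ _ cellA _ _ _ ?_ ?_ ?_ ?_ ?_ ?_
      _ _ _ hP
    · rw [fx_zero]
      exact (pp_pos hr0 hR.d0).le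
    · have := fx_one
      unfold SC at this
      rw [this]
      exact (pp_lt hr0 hR.d0).le
    · rw [fx_zero]
      exact hP.hT.le
    · refine (T_le (by linarith)).trans ?_
      have h5 : (12 / 5 : ℝ) ≤ fx 2638827906663 := by unfold fx; norm_num
      have h6 : η ≤ 2 / 5 * hst N := by rwa [div_le_iff₀ hh] at hτ
      linarith
    · rw [fx_zero]
      exact hτ0
    · have h5 : (2 / 5 : ℝ) ≤ fx 439804651111 := by unfold fx; norm_num
      linarith
  refine shf_good (q0 := 1 / 5) (q2 := 3 / 10) hN hR.r0 hR.d0 hA hL h0 hπ g3_nonneg g4_nonneg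
    (fun x g κ hκ => g.G3 (by linarith)) (fun x g hx κ hκ => g.G4 hκ hx) hg (by norm_num)
    (by norm_num) ?_ ?_ (by norm_num) (by norm_num) (by norm_num)
  · unfold fx
    norm_num
  · unfold fx
    norm_num

/-- field `c`, at least four points -/
theorem shfL_c4 {N : ℕ} {r δ y η : ℝ} (hR : Reg1 N r δ) (hA : At r δ y η) (hS : Sad1 N r δ y)
    (hG : 10 ≤ Gm N r δ) (h1 : ei1 N r δ ≤ η) (h2 : η ≤ eo1 N r δ) (hπ : η + hst N ≤ π)
    (hN4 : 4 ≤ N) : Shf r δ y (hst N) (HH N r δ) (1 / 100) (1 / 100) (1 / 100) := by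
  have hN : 0 < N := by omega
  have hh := hst_pos hN
  have hpi := Real.pi_pos
  have hpl := Real.pi_gt_d6
  have hpu := Real.pi_lt_d6
  have h3 : hst N ≤ π / 2 := by
    have h4 : hst 4 = π / 2 := by
      unfold hst
      push_cast
      ring
    rw [← h4]
    exact hst_le (by norm_num) hN4
  have hom : om1 N r δ = 3 / 20 ∨ om1 N r δ = 1 / 10 := by
    unfold om1
    rw [if_neg (by linarith)]
    split_ifs
    · exact Or.inl rfl
    · exact Or.inr rfl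
  have hτ : 7 / 20 ≤ η / hst N := by
    rw [le_div_iff₀ hh]
    unfold ei1 at h1
    rcases hom with h | h <;> rw [h] at h1 <;> nlinarith
  have hτ' : η / hst N ≤ 13 / 20 := by
    rw [div_le_iff₀ hh]
    unfold eo1 at h2
    rcases hom with h | h <;> rw [h] at h2 <;> nlinarith
  have h0 : 0 ≤ η := by
    rw [le_div_iff₀ hh] at hτ
    linarith
  have hL := levL hR hA hS h0 h2
  have hP := pts_of hN hR.r0 hR.d0 h0 hπ hG (vt := fx 1727109016620) (by
    have : (3.141593 : ℝ) / 2 ≤ fx 1727109016620 := by unfold fx; norm_num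
    linarith)
  have hr0 : 0 < r := by linarith [hR.r0]
  have hg : Good g3 g4 (16 / 5) (fx 10995116277) (fx 10995116277) (pp r δ)
      ((η + hst N) / mm (r * δ)) (η / hst N) (η + hst N)
      (2 * π - (η + hst N)) (r * (η + hst N) ^ 2 / RR r δ) := by
    refine bis_sound (P := fun p T τ => ∀ θ u V : ℝ, PTs (fx 1727109016620) p T τ θ u V →
      Good g3 g4 (16 / 5) (fx 10995116277) (fx 10995116277) p T τ θ u V)
      (fun x0 x1 y0 y1 z0 z1 hok x y z b0 b1 b2 b3 b4 b5 θ u V hP =>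
        okG_sound hok b0 b1 b2 b3 b4 b5 hP) 2 1 2 24 _ _ _ _ _ _ cellC _ _ _ ?_ ?_ ?_ ?_ ?_ ?_
      _ _ _ hP
    · rw [fx_zero]
      exact (pp_pos hr0 hR.d0).le
    · have := fx_one
      unfold SC at this
      rw [this]
      exact (pp_lt hr0 hR.d0).le
    · rw [fx_zero]
      exact hP.hT.le
    · refine (T_le (by linarith)).trans ?_
      have h5 : (21 / 10 : ℝ) ≤ fx 2308974418330 := by unfold fx; norm_num
      have h6 : η ≤ 13 / 20 * hst N := by rwa [div_le_iff₀ hh] at hτ'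
      linarith
    · have h5 : fx 384829069721 ≤ (7 / 20 : ℝ) := by unfold fx; norm_num
      linarith
    · have h5 : (13 / 20 : ℝ) ≤ fx 714682558055 := by unfold fx; norm_num
      linarith
  refine shf_good (q0 := 1 / 10) (q2 := 1 / 10) hN hR.r0 hR.d0 hA hL h0 hπ g3_nonneg g4_nonneg
    (fun x g κ hκ => g.G3 (by linarith)) (fun x g hx κ hκ => g.G4 hκ hx) hg (by norm_num)
    (by norm_num) ?_ ?_ (by norm_num) (by norm_num) (by norm_num)
  · unfold fx
    norm_num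
  · unfold fx
    norm_num

/-- field `c`, three points -/
theorem shfL_c3 {r δ y η : ℝ} (hR : Reg1 3 r δ) (hA : At r δ y η) (hS : Sad1 3 r δ y)
    (hG : 10 ≤ Gm 3 r δ) (h1 : ei1 3 r δ ≤ η) (h2 : η ≤ eo1 3 r δ) (hπ : η + hst 3 ≤ π) :
    Shf r δ y (hst 3) (HH 3 r δ) (1 / 100) (1 / 100) (1 / 100) := by
  have hN : 0 < 3 := by norm_num
  have hh := hst_pos hN
  have hpi := Real.pi_pos
  have hpl := Real.pi_gt_d6
  have hpu := Real.pi_lt_d6
  have hh3 := hst3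
  have hom : om1 3 r δ = 3 / 20 ∨ om1 3 r δ = 1 / 10 := by
    unfold om1
    rw [if_neg (by linarith)]
    split_ifs
    · exact Or.inl rfl
    · exact Or.inr rfl
  have hτ : 7 / 20 ≤ η / hst 3 := by
    rw [le_div_iff₀ hh]
    unfold ei1 at h1
    rcases hom with h | h <;> rw [h] at h1 <;> nlinarith
  have hτ' : η / hst 3 ≤ 1 / 2 := by
    rw [div_le_iff₀ hh]
    rw [hh3] at hπ ⊢
    linarith
  have h0 : 0 ≤ η := by
    rw [le_div_iff₀ hh] at hτ
    linarith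
  have hη : 7 / 20 * (2 * π / 3) ≤ η := by
    rw [le_div_iff₀ hh, hh3] at hτ
    exact hτ
  have hL := levL hR hA hS h0 h2
  have hP := pts_of hN hR.r0 hR.d0 h0 hπ hG (vt := 2 * π / 3) hh3.le
  have hr0 : 0 < r := by linarith [hR.r0]
  -- `p ≥ 173/200`
  have hp0 := pp_pos hr0 hR.d0
  have hp : 173 / 200 ≤ pp r δ := by
    have h4 := pp_sq r δ
    have h5 := hR.I
    unfold RR at h5
    rw [hh3] at h5
    have h6 : (0 : ℝ) < 1 + (r * δ) ^ 2 := by positivity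
    have h7 : 3.987 ≤ 1 + (r * δ) ^ 2 := by nlinarith
    by_contra hc
    push Not at hc
    have h8 : pp r δ ^ 2 < (173 / 200) ^ 2 := by
      have := pow_lt_pow_left₀ hc hp0.le (two_ne_zero)
      exact this
    have h9 : 1 - (173 / 200 : ℝ) ^ 2 < 1 - pp r δ ^ 2 := by linarith
    nlinarith
  have hg : Good g3h g4h (32 / 5) (fx 10995116277) (fx 10995116277) (pp r δ)
      ((η + hst 3) / mm (r * δ)) (η / hst 3) (η + hst 3)
      (2 * π - (η + hst 3)) (r * (η + hst 3) ^ 2 / RR r δ) := by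
    refine bis_sound (P := fun p _ τ => ∀ T θ u V : ℝ, PTs (2 * π / 3) p T τ θ u V →
      θ = (1 + τ) * (2 * π / 3) →
      Good g3h g4h (32 / 5) (fx 10995116277) (fx 10995116277) p T τ θ u V)
      (fun x0 x1 y0 y1 z0 z1 hok x y z b0 b1 b2 b3 b4 b5 T θ u V hP hθ =>
        okW_sound hok b0 b1 b4 b5 hP hθ) 4 0 1 24 _ _ _ _ _ _ cellW _ 0 _ ?_ ?_ ?_ ?_ ?_ ?_
      _ _ _ _ hP ?_
    · have h5 : fx 951077558026 ≤ (173 / 200 : ℝ) := by unfold fx; norm_num
      linarith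
    · have := fx_one
      unfold SC at this
      rw [this]
      exact (pp_lt hr0 hR.d0).le
    · rw [fx_zero]
    · rw [fx_zero]
    · have h5 : fx 384829069721 ≤ (7 / 20 : ℝ) := by unfold fx; norm_num
      linarith
    · have h5 : (1 / 2 : ℝ) ≤ fx 549755813888 := by unfold fx; norm_num
      linarith
    · have h3 : 0 < 2 * π / 3 := by positivity
      rw [hh3]
      field_simp
      ring
  refine shf_good (q0 := 1 / 10) (q2 := 1 / 10) hN hR.r0 hR.d0 hA hL h0 hπ g3h_nonneg g4h_nonneg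
    (fun x g κ hκ => g.G3h (by linarith) ?_) (fun x g hx κ hκ => g.G4h hκ ?_ hx) hg (by norm_num)
    (by norm_num) ?_ ?_ (by norm_num) (by norm_num) (by norm_num)
  · rw [hh3]
    linarith
  · rw [hh3]
    linarith
  · unfold fx
    norm_num
  · unfold fx
    norm_num

/-- field `c` of `PShfL` -/
theorem shfL_c : ∀ (N : ℕ) (r δ y η : ℝ), Reg1 N r δ → At r δ y η → Sad1 N r δ y →
    10 ≤ Gm N r δ → ei1 N r δ ≤ η → η ≤ eo1 N r δ → η + hst N ≤ Real.pi →
    Shf r δ y (hst N) (HH N r δ) (1 / 100) (1 / 100) (1 / 100) := by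
  intro N r δ y η hR hA hS hG h1 h2 hπ
  have h3 := hR.N3
  rcases Nat.lt_or_ge N 4 with h | h
  · obtain rfl : N = 3 := by omega
    exact shfL_c3 hR hA hS hG h1 h2 hπ
  · exact shfL_c4 hR hA hS hG h1 h2 hπ h

end SokalCl
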