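import Pool.Agent.Lib_MP_af4de1_v3.PSad

/-!
# Right side: `D ≤ q √R` for every saddle with `-eo1 ≤ η ≤ 0`

`q = 27/20` (`Γ < 10`), `71/50` (`10 ≤ Γ < 20`), `33/20` (`Γ ≥ 20`).
`y = -t`: `D² = 1 - 2 t + ρ² e^(2t)` and `ρ (e^t - 1) + (t - t²/2) e^(-t)/ρ ≤ -η`.
-/

set_option autoImplicit false

namespace SokalV3

open Complex SokalU SokalF1 SokalF1S SokalF1M

/-- `(t - t²/2) e^(-t)` increases up to `53/100` -/
theorem lrd_tb_ge {t0 t : ℝ} (h0 : 0 ≤ t0) (ht0 : t0 ≤ t) (ht1 : t ≤ 53 / 100) :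
    (t0 - t0 ^ 2 / 2) * Real.exp (-t0) ≤ (t - t ^ 2 / 2) * Real.exp (-t) := by
  have hd : ∀ u : ℝ, HasDerivAt (fun u : ℝ => (u - u ^ 2 / 2) * Real.exp (-u))
      ((1 - 2 * u + u ^ 2 / 2) * Real.exp (-u)) u := by
    intro u
    have e2 : HasDerivAt (fun u : ℝ => Real.exp (-u)) (-Real.exp (-u)) u := by
      have := (hasDerivAt_neg u).exp
      simpa using this
    have e3 : HasDerivAt (fun u : ℝ => u ^ 2 / 2) u u := by
      have := (hasDerivAt_pow 2 u).div_const 2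
      refine this.congr_deriv ?_
      simp
    have e4 := ((hasDerivAt_id u).sub e3).mul e2
    refine e4.congr_deriv ?_
    simp
    ring
  have hm : MonotoneOn (fun u : ℝ => (u - u ^ 2 / 2) * Real.exp (-u)) (Set.Icc 0 (53 / 100)) := by
    refine monotoneOn_of_deriv_nonneg (convex_Icc _ _)
      (fun u _ => (hd u).continuousAt.continuousWithinAt)
      (fun u _ => (hd u).differentiableAt.differentiableWithinAt) (fun u hu => ?_)
    rw [interior_Icc] at hu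
    rw [(hd u).deriv]
    have h1 : 0 ≤ 1 - 2 * u + u ^ 2 / 2 := by nlinarith [hu.1, hu.2]
    exact mul_nonneg h1 (Real.exp_pos _).le
  exact hm ⟨h0, by linarith⟩ ⟨by linarith, ht1⟩ ht0

/-- no `t ∈ [t0, 53/100]` -/
theorem lrd_t_le {ρ t t0 a b u2 η : ℝ} (hD : Dom ρ (-t)) (ht : t ≤ 53 / 100)
    (hE : sE ρ (-t) = η)
    (h0 : 0 ≤ t0) (hs : η ^ 2 ≤ u2 * (1 + ρ ^ 2)) (ha : 0 ≤ a) (hb : 0 ≤ b) (h1 : u2 ≤ a ^ 2)
    (h2 : u2 < 2 * a * b) (hea : a ≤ Real.exp t0 - 1)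
    (heb : b ≤ (t0 - t0 ^ 2 / 2) * Real.exp (-t0)) : t ≤ t0 := by
  by_contra hcon
  push Not at hcon
  have hρ := hD.1
  have hy : 0 ≤ t := h0.trans hcon.le
  have h3 := sE_le_neg hD hy (by linarith)
  rw [hE] at h3
  have h5 : Real.exp t0 ≤ Real.exp t := Real.exp_le_exp.2 hcon.le
  have h6 := heb.trans (lrd_tb_ge h0 hcon.le ht)
  refine psa_no_big (η := -η) hρ ha hb h1 h2 (le_trans ?_ h3) (by rwa [neg_sq])
  have h7 : a * ρ ≤ ρ * (Real.exp t - 1) := by nlinarith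
  have h8 : b / ρ ≤ (t - t ^ 2 / 2) * Real.exp (-t) / ρ := div_le_div_of_nonneg_right h6 hρ.le
  linarith

theorem lrd_e30 : Real.exp (3 / 10) ≤ 27 / 20 := by
  refine (psa_exp_ub _ (by norm_num) (by norm_num)).trans ?_
  norm_num

theorem lrd_e30' : (1349 : ℝ) / 1000 ≤ Real.exp (3 / 10) := by
  refine le_trans ?_ (psa_exp_lb _ (by norm_num))
  norm_num

theorem lrd_e35 : Real.exp (7 / 20) ≤ 71 / 50 := by
  refine (psa_exp_ub _ (by norm_num) (by norm_num)).trans ?_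
  norm_num

theorem lrd_e35' : (1419 : ℝ) / 1000 ≤ Real.exp (7 / 20) := by
  refine le_trans ?_ (psa_exp_lb _ (by norm_num))
  norm_num

theorem lrd_e50 : Real.exp (1 / 2) ≤ 33 / 20 := by
  refine (psa_exp_ub _ (by norm_num) (by norm_num)).trans ?_
  norm_num

theorem lrd_e50' : (16486 : ℝ) / 10000 ≤ Real.exp (1 / 2) := by
  refine le_trans ?_ (psa_exp_lb _ (by norm_num))
  norm_num

theorem lrd_e53 : Real.exp (53 / 100) ≤ 1699 / 1000 := by
  refine (psa_exp_ub _ (by norm_num) (by norm_num)).trans ?_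
  norm_num

/-- `D² = 1 - 2t + ρ² e^(2t)` -/
theorem lrd_D2 {ρ t : ℝ} (h : Dom ρ (-t)) :
    sD2 ρ (-t) = 1 - 2 * t + ρ ^ 2 * Real.exp t ^ 2 := by
  rw [sD2_sadB h, neg_neg]
  ring

theorem lrd_sD_le {ρ t q R : ℝ} (hq : 0 ≤ q) (h : sD2 ρ t ≤ q ^ 2 * R) :
    sD ρ t ≤ q * √R := by
  unfold sD
  calc √(sD2 ρ t) ≤ √(q ^ 2 * R) := Real.sqrt_le_sqrt h
    _ = q * √R := by rw [Real.sqrt_mul (sq_nonneg q), Real.sqrt_sq hq]

/-- trivial case `e^t ≤ q` -/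
theorem lrd_triv {ρ t q : ℝ} (h : Dom ρ (-t)) (ht : 0 ≤ t) (hq : 1 ≤ q) (he : Real.exp t ≤ q) :
    sD2 ρ (-t) ≤ q ^ 2 * (1 + ρ ^ 2) := by
  rw [lrd_D2 h]
  have h1 : Real.exp t ^ 2 ≤ q ^ 2 := pow_le_pow_left₀ (Real.exp_pos _).le he 2
  have h2 : ρ ^ 2 * Real.exp t ^ 2 ≤ ρ ^ 2 * q ^ 2 := mul_le_mul_of_nonneg_left h1 (sq_nonneg _)
  nlinarith

/-- the data of a right saddle -/
theorem lrd_data {N : ℕ} {r δ y η : ℝ} (hR : Reg1 N r δ) (hA : At r δ y η) (hη : η ≤ 0)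
    (h1 : -eo1 N r δ ≤ η) : Sad1 N r δ y ∧ y ≤ 0 := by
  have h2 : |η| ≤ eo1 N r δ := abs_le.2 ⟨h1, by linarith [psa_eo1_nonneg hR]⟩
  refine ⟨psad1.sad N r δ y η hR hA h2, ?_⟩
  by_contra hc
  push Not at hc
  have h3 := two_y_le hA.dom hc.le
  rw [hA.eta] at h3
  nlinarith

/-- `Γ < 10` -/
theorem levR2_A {N : ℕ} {r δ y η : ℝ} (hR : Reg1 N r δ) (hA : At r δ y η) (hη : η ≤ 0)
    (h1 : -eo1 N r δ ≤ η) (hG : Gm N r δ < 10) :
    sD (r * δ) y ≤ 27 / 20 * √(RR r δ) := by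
  obtain ⟨hS, hy⟩ := lrd_data hR hA hη h1
  have hsq := psa_eo_sq hR hG (η := η) (abs_le.2 ⟨h1, by linarith [psa_eo1_nonneg hR]⟩)
  refine lrd_sD_le (by norm_num) ?_
  have hD := hA.dom
  have hEe := hA.eta
  obtain ⟨t, rfl⟩ : ∃ t, y = -t := ⟨-y, by ring⟩
  have ht : t ≤ 53 / 100 := by
    rcases hS with ⟨_, h⟩ | ⟨_, h⟩
    · linarith [h.lo]
    · linarith [h.lo]
  have he : (7407 : ℝ) / 10000 ≤ Real.exp (-(3 / 10)) :=
    psa_exp_neg_lb lrd_e30 (by norm_num) (by norm_num)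
  have h3 := lrd_t_le (t0 := 3 / 10) (a := 349 / 1000) (b := 188 / 1000) hD ht hEe (by norm_num)
    hsq (by norm_num) (by norm_num) (by norm_num) (by norm_num) (by linarith [lrd_e30'])
    (by norm_num; linarith)
  exact lrd_triv hD (by linarith) (by norm_num) ((Real.exp_le_exp.2 h3).trans lrd_e30)

/-- `10 ≤ Γ < 20` -/
theorem levR2_B {N : ℕ} {r δ y η : ℝ} (hR : Reg1 N r δ) (hA : At r δ y η) (hη : η ≤ 0)
    (h1 : -eo1 N r δ ≤ η) (hG : 10 ≤ Gm N r δ) (hG2 : Gm N r δ < 20) :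
    sD (r * δ) y ≤ 71 / 50 * √(RR r δ) := by
  obtain ⟨hS, hy⟩ := lrd_data hR hA hη h1
  have hsq : η ^ 2 ≤ 16934 / 100000 * (1 + (r * δ) ^ 2) := by
    have h3 := psa_hst_sq_le hR.toPar hG2.le
    have h2 : eo1 N r δ = 13 / 20 * hst N := by
      unfold eo1 om1
      rw [if_neg (not_lt.2 hG), if_pos hG2]
      norm_num
    have h4 : η ^ 2 ≤ eo1 N r δ ^ 2 := by
      rw [← neg_sq η]
      exact pow_le_pow_left₀ (by linarith) (by linarith) 2
    have hRR : RR r δ = 1 + (r * δ) ^ 2 := rfl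
    rw [hRR] at h3
    rw [h2] at h4
    nlinarith [sq_nonneg (r * δ)]
  refine lrd_sD_le (by norm_num) ?_
  have hD := hA.dom
  have hEe := hA.eta
  obtain ⟨t, rfl⟩ : ∃ t, y = -t := ⟨-y, by ring⟩
  have ht : t ≤ 53 / 100 := by
    rcases hS with ⟨_, h⟩ | ⟨_, h⟩
    · linarith [h.lo]
    · linarith [h.lo]
  have he : (7042 : ℝ) / 10000 ≤ Real.exp (-(7 / 20)) :=
    psa_exp_neg_lb lrd_e35 (by norm_num) (by norm_num)
  have h3 := lrd_t_le (t0 := 7 / 20) (a := 419 / 1000) (b := 2033 / 10000) hD ht hEe (by norm_num)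
    hsq (by norm_num) (by norm_num) (by norm_num) (by norm_num) (by linarith [lrd_e35'])
    (by norm_num; linarith)
  exact lrd_triv hD (by linarith) (by norm_num) ((Real.exp_le_exp.2 h3).trans lrd_e35)

/-- `20 ≤ Γ` -/
theorem levR2_C {N : ℕ} {r δ y η : ℝ} (hR : Reg1 N r δ) (hA : At r δ y η) (hη : η ≤ 0)
    (h1 : -eo1 N r δ ≤ η) (hG : 20 ≤ Gm N r δ) :
    sD (r * δ) y ≤ 33 / 20 * √(RR r δ) := by
  obtain ⟨hS, hy⟩ := lrd_data hR hA hη h1
  have hsq : η ^ 2 ≤ 396 / 1000 * (1 + (r * δ) ^ 2) := by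
    have h3 := hR.I
    have h2 : eo1 N r δ = 3 / 5 * hst N := by
      unfold eo1 om1
      rw [if_neg (not_lt.2 (by linarith)), if_neg (not_lt.2 hG)]
      norm_num
    have h4 : η ^ 2 ≤ eo1 N r δ ^ 2 := by
      rw [← neg_sq η]
      exact pow_le_pow_left₀ (by linarith) (by linarith) 2
    have hRR : RR r δ = 1 + (r * δ) ^ 2 := rfl
    rw [hRR] at h3
    rw [h2] at h4
    nlinarith [sq_nonneg (r * δ)]
  refine lrd_sD_le (by norm_num) ?_
  have hD := hA.dom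
  have hEe := hA.eta
  obtain ⟨t, rfl⟩ : ∃ t, y = -t := ⟨-y, by ring⟩
  have ht : t ≤ 53 / 100 := by
    rcases hS with ⟨_, h⟩ | ⟨_, h⟩
    · linarith [h.lo]
    · linarith [h.lo]
  have hρ := hD.1
  rcases le_total t (1 / 2) with h5 | h5
  · exact lrd_triv hD (by linarith) (by norm_num) ((Real.exp_le_exp.2 h5).trans lrd_e50)
  · have h6 : Real.exp t ≤ 1699 / 1000 := (Real.exp_le_exp.2 ht).trans lrd_e53
    have h7 : 16486 / 10000 ≤ Real.exp t := lrd_e50'.trans (Real.exp_le_exp.2 h5)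
    rcases le_total ((r * δ) ^ 2) (33 / 2) with h8 | h8
    · rw [lrd_D2 hD]
      have h9 : Real.exp t ^ 2 ≤ (1699 / 1000) ^ 2 := pow_le_pow_left₀ (Real.exp_pos _).le h6 2
      have h10 := mul_le_mul_of_nonneg_left h9 (sq_nonneg (r * δ))
      have hRR : RR r δ = 1 + (r * δ) ^ 2 := rfl
      rw [hRR]
      norm_num at h10 ⊢
      linarith
    · exfalso
      have h3 := sE_le_neg hD (by linarith) (by linarith)
      rw [hEe] at h3
      have h9 : 0 ≤ (t - t ^ 2 / 2) * Real.exp (-t) / (r * δ) := by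
        have : 0 ≤ t - t ^ 2 / 2 := by nlinarith
        have := Real.exp_pos (-t)
        positivity
      have h10 : 6486 / 10000 * (r * δ) ≤ -η := by nlinarith
      have h11 : (6486 / 10000 * (r * δ)) ^ 2 ≤ (-η) ^ 2 := pow_le_pow_left₀ (by positivity) h10 2
      rw [neg_sq] at h11
      nlinarith
 
end SokalV3
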