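import Pool.Agent.Lib_MP_af4de1_v3.LevR0
import Pool.Agent.Lib_MP_af4de1_v3.LevRD

/-!
# The level lemma on the right side

`Reg1 N r δ`, `At r δ y η`, `-eo1 ≤ η ≤ 0`:
* `Γ < 10`: `Lev r δ y η (6/5) (6/5) (27/20)`
* `10 ≤ Γ < 20`: `Lev r δ y η (13/10) (13/10) (71/50)`
* `20 ≤ Γ`: `Lev r δ y η (17/10) (17/10) (33/20)`
-/

set_option autoImplicit false

namespace SokalV3

open Complex SokalU SokalF1 SokalF1S SokalF1M

/-- constraint `n² p² ≤ κ u (1 + u)` from `η² ≤ κ R` -/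
theorem lr_hC {ρ n κ : ℝ} (h : Dom ρ (-n)) (h0 : 0 ≤ n) (h1 : n ≤ 53 / 100)
    (hs : sE ρ (-n) ^ 2 ≤ κ * (1 + ρ ^ 2)) :
    n ^ 2 * ((1 - 3 / 2 * n + n ^ 2 - 5 / 12 * n ^ 3) + ρ ^ 2 * (1 + 1 / 2 * n + 1 / 6 * n ^ 2)) ^ 2 ≤
      κ * (ρ ^ 2 * (1 + ρ ^ 2)) := by
  have hρ : 0 < ρ := h.1
  have ht := lr_rt h h0 h1
  have hp0 : 0 ≤ 1 - 3 / 2 * n + n ^ 2 - 5 / 12 * n ^ 3 := by nlinarith [pow_nonneg h0 3]
  set p := (1 - 3 / 2 * n + n ^ 2 - 5 / 12 * n ^ 3) + ρ ^ 2 * (1 + 1 / 2 * n + 1 / 6 * n ^ 2) with hp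
  have hpp : 0 ≤ p := by positivity
  have h2 : 0 ≤ n * p := by positivity
  have h3 := mul_self_le_mul_self h2 ht
  have h4 := mul_le_mul_of_nonneg_left hs (sq_nonneg ρ)
  nlinarith

/-- From the two real inequalities to `Lev`. -/
theorem lev_of {r δ n g k q : ℝ} (hr : 0 < r) (hδ : 0 < δ) (hk : 0 ≤ k)
    (h0 : r * δ - (1 - n) * sx (r * δ) (-n) ≤
      g / 2 * (r * δ * sE (r * δ) (-n) ^ 2 / (1 + (r * δ) ^ 2)))
    (h1 : (1 + (r * δ) ^ 2) * ((sx (r * δ) (-n) - r * δ) ^ 2 + n ^ 2) ≤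
      k ^ 2 * (r * δ * sE (r * δ) (-n)) ^ 2)
    (h2 : sD (r * δ) (-n) ≤ q * √(RR r δ)) :
    Lev r δ (-n) (sE (r * δ) (-n)) g k q := by
  set s := sE (r * δ) (-n) with hs
  set x := sx (r * δ) (-n) with hx
  have hR : 0 < RR r δ := by unfold RR; positivity
  have hRe : RR r δ = 1 + (r * δ) ^ 2 := rfl
  refine ⟨?_, ?_, h2⟩
  · rw [← hx, show r - x * (1 + -n) / δ = (r * δ - (1 - n) * x) / δ by field_simp; ring,
      div_le_iff₀ hδ]
    refine h0.trans (le_of_eq ?_)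
    rw [hRe]
    ring
  · have e1 : kap r δ (-n) - r = ((1 / δ : ℝ) : ℂ) * (((x - r * δ : ℝ) : ℂ) + ((-n : ℝ) : ℂ) * I) := by
      unfold kap sK
      rw [← hx]
      have hd : (δ : ℂ) ≠ 0 := by exact_mod_cast hδ.ne'
      push_cast
      field_simp
      ring
    have e2 : ‖((x - r * δ : ℝ) : ℂ) + ((-n : ℝ) : ℂ) * I‖ = √((x - r * δ) ^ 2 + n ^ 2) := by
      rw [Complex.norm_add_mul_I, neg_sq]
    rw [e1, norm_mul, e2, Complex.norm_real, Real.norm_eq_abs, abs_of_pos (by positivity)]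
    have h3 : √((x - r * δ) ^ 2 + n ^ 2) ≤ k * (r * δ * |s| / √(RR r δ)) := by
      refine Real.sqrt_le_iff.2 ⟨by positivity, ?_⟩
      have e3 : (k * (r * δ * |s| / √(RR r δ))) ^ 2 =
          k ^ 2 * (r * δ * s) ^ 2 / (1 + (r * δ) ^ 2) := by
        rw [mul_pow, div_pow, mul_pow, sq_abs, Real.sq_sqrt hR.le, hRe]
        ring
      rw [e3, le_div_iff₀ (by positivity)]
      linarith
    rw [one_div, inv_mul_le_iff₀ hδ]
    refine h3.trans (le_of_eq ?_)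
    ring

private theorem y_neg {r δ y η : ℝ} (hA : At r δ y η) (hη : η ≤ 0) : y ≤ 0 := by
  by_contra hc
  push Not at hc
  have h3 := two_y_le hA.dom hc.le
  rw [hA.eta] at h3
  nlinarith

/-- the level on the right side, `Γ < 10` -/
theorem levR_A {N : ℕ} {r δ y η : ℝ} (hR : Reg1 N r δ) (hA : At r δ y η) (hη : η ≤ 0)
    (h1 : -eo1 N r δ ≤ η) (hG : Gm N r δ < 10) : Lev r δ y η (6 / 5) (6 / 5) (27 / 20) := by
  have hD := levR2_A hR hA hη h1 hG
  obtain ⟨hS, hy⟩ := lrd_data hR hA hη h1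
  have hsq := psa_eo_sq hR hG (η := η) (abs_le.2 ⟨h1, by linarith [psa_eo1_nonneg hR]⟩)
  have hS' : SadA N r δ y := by
    rcases hS with ⟨_, h⟩ | ⟨h, _⟩
    · exact h
    · exact absurd h (not_le.2 hG)
  have hr : 0 < r := by linarith [hR.r0]
  have hδ := hR.d0
  have hdom := hA.dom
  have hE := hA.eta
  obtain ⟨n, rfl⟩ : ∃ n, y = -n := ⟨-y, by ring⟩
  subst hE
  have hn0 : 0 ≤ n := by linarith
  have hn1 : n ≤ 31 / 100 := by linarith [hS'.lo]
  have hT : n ≤ 19 / 50 * sx (r * δ) (-n) := by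
    have := hS'.T
    rwa [abs_neg, abs_of_nonneg hn0] at this
  have hx := lr_x (μ := 517 / 500) hdom hn0 hT (by norm_num) (by norm_num)
  have hC := lr_hC (κ := 141 / 1250) hdom hn0 (by linarith)
    (hsq.trans (mul_le_mul_of_nonneg_right (by norm_num) (by positivity)))
  exact lev_of hr hδ (by norm_num)
    (lr_l0 hdom hn0 (by linarith) (by norm_num) (by norm_num) hx
      (lr_A_g hn0 (by linarith) (sq_nonneg _) hC))
    (lr_l1 hdom hn0 (by linarith) (by norm_num) hx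
      ((lr_A_k hn0 (by linarith) (sq_nonneg _) hC).trans (le_of_eq (by norm_num)))) hD

/-- the level on the right side, `10 ≤ Γ < 20` -/
theorem levR_B {N : ℕ} {r δ y η : ℝ} (hR : Reg1 N r δ) (hA : At r δ y η) (hη : η ≤ 0)
    (h1 : -eo1 N r δ ≤ η) (hG : 10 ≤ Gm N r δ) (hG2 : Gm N r δ < 20) :
    Lev r δ y η (13 / 10) (13 / 10) (71 / 50) := by
  have hD := levR2_B hR hA hη h1 hG hG2
  obtain ⟨hS, hy⟩ := lrd_data hR hA hη h1
  have hsq : η ^ 2 ≤ 847 / 5000 * (1 + (r * δ) ^ 2) := by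
    have h3 := psa_hst_sq_le hR.toPar hG2.le
    have h2 : eo1 N r δ = 13 / 20 * hst N := by
      unfold eo1 om1
      rw [if_neg (not_lt.2 hG), if_pos hG2]
      norm_num
    have h4 : η ^ 2 ≤ eo1 N r δ ^ 2 := by
      rw [← neg_sq η]
      exact pow_le_pow_left₀ (by linarith) (by linarith) 2
    have hRR : RR r δ = 1 + (r * δ) ^ 2 := rfl
    rw [hRR] at h3
    rw [h2] at h4
    nlinarith [sq_nonneg (r * δ)]
  have hS' : SadB N r δ y := by
    rcases hS with ⟨h, _⟩ | ⟨_, h⟩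
    · exact absurd h (not_lt.2 hG)
    · exact h
  have hr : 0 < r := by linarith [hR.r0]
  have hδ := hR.d0
  have hdom := hA.dom
  have hE := hA.eta
  obtain ⟨n, rfl⟩ : ∃ n, y = -n := ⟨-y, by ring⟩
  subst hE
  have hn0 : 0 ≤ n := by linarith
  have hn1 : n ≤ 53 / 100 := by linarith [hS'.lo]
  have hT : n ≤ 4 / 5 * sx (r * δ) (-n) := by
    have := hS'.T
    rwa [abs_neg, abs_of_nonneg hn0] at this
  have hx := lr_x (μ := 281 / 250) hdom hn0 hT (by norm_num) (by norm_num)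
  have hC := lr_hC (κ := 847 / 5000) hdom hn0 (by linarith) hsq
  exact lev_of hr hδ (by norm_num)
    (lr_l0 hdom hn0 (by linarith) (by norm_num) (by norm_num) hx
      (lr_B_g hn0 (by linarith) (sq_nonneg _) hC))
    (lr_l1 hdom hn0 (by linarith) (by norm_num) hx
      ((lr_B_k hn0 (by linarith) (sq_nonneg _) hC).trans (le_of_eq (by norm_num)))) hD

/-- the level on the right side, `20 ≤ Γ` -/
theorem levR_C {N : ℕ} {r δ y η : ℝ} (hR : Reg1 N r δ) (hA : At r δ y η) (hη : η ≤ 0)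
    (h1 : -eo1 N r δ ≤ η) (hG : 20 ≤ Gm N r δ) : Lev r δ y η (17 / 10) (17 / 10) (33 / 20) := by
  have hD := levR2_C hR hA hη h1 hG
  obtain ⟨hS, hy⟩ := lrd_data hR hA hη h1
  have hsq : η ^ 2 ≤ 99 / 250 * (1 + (r * δ) ^ 2) := by
    have h3 := hR.I
    have h2 : eo1 N r δ = 3 / 5 * hst N := by
      unfold eo1 om1
      rw [if_neg (not_lt.2 (by linarith)), if_neg (not_lt.2 hG)]
      norm_num
    have h4 : η ^ 2 ≤ eo1 N r δ ^ 2 := by
      rw [← neg_sq η]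
      exact pow_le_pow_left₀ (by linarith) (by linarith) 2
    have hRR : RR r δ = 1 + (r * δ) ^ 2 := rfl
    rw [hRR] at h3
    rw [h2] at h4
    nlinarith [sq_nonneg (r * δ)]
  have hS' : SadB N r δ y := by
    rcases hS with ⟨h, _⟩ | ⟨_, h⟩
    · exact absurd h (not_lt.2 (by linarith))
    · exact h
  have hr : 0 < r := by linarith [hR.r0]
  have hδ := hR.d0
  have hdom := hA.dom
  have hE := hA.eta
  obtain ⟨n, rfl⟩ : ∃ n, y = -n := ⟨-y, by ring⟩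
  subst hE
  have hn0 : 0 ≤ n := by linarith
  have hn1 : n ≤ 53 / 100 := by linarith [hS'.lo]
  have hT : n ≤ 4 / 5 * sx (r * δ) (-n) := by
    have := hS'.T
    rwa [abs_neg, abs_of_nonneg hn0] at this
  have hx := lr_x (μ := 281 / 250) hdom hn0 hT (by norm_num) (by norm_num)
  have hC := lr_hC (κ := 99 / 250) hdom hn0 (by linarith) hsq
  exact lev_of hr hδ (by norm_num)
    (lr_l0 hdom hn0 (by linarith) (by norm_num) (by norm_num) hx
      (lr_C_g hn0 (by linarith) (sq_nonneg _) hC))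
    (lr_l1 hdom hn0 (by linarith) (by norm_num) hx
      ((lr_C_k hn0 (by linarith) (sq_nonneg _) hC).trans (le_of_eq (by norm_num)))) hD

end SokalV3
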