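import Pool.Agent.Lib_MP_af4de1_v3.LevC2a
import Pool.Agent.Lib_MP_af4de1_v3.LevR

/-!
# The level on the right side for `|η| ≤ π/5`, `Γ ≥ 20` (needed for the waves `i ≥ 2`)
-/

set_option autoImplicit false

namespace SokalV3

open Complex SokalU SokalF1 SokalF1S SokalF1M

private theorem lc2_e40 : Real.exp (2 / 5) ≤ 3 / 2 := by
  refine (psa_exp_ub _ (by norm_num) (by norm_num)).trans ?_
  norm_num

private theorem lc2_e40' : (14918 : ℝ) / 10000 ≤ Real.exp (2 / 5) := by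
  refine le_trans ?_ (psa_exp_lb _ (by norm_num))
  norm_num

private theorem lc2_en40 : (6666 : ℝ) / 10000 ≤ Real.exp (-(2 / 5)) :=
  psa_exp_neg_lb lc2_e40 (by norm_num) (by norm_num)

private theorem lc2_t {ρ t η : ℝ} (hD : Dom ρ (-t)) (ht : t ≤ 53 / 100)
    (hE : sE ρ (-t) = η) (hs : η ^ 2 ≤ 79 / 200) : t ≤ 2 / 5 := by
  by_contra hcon
  push Not at hcon
  have hρ := hD.1
  have h3 := sE_le_neg hD (by linarith) (by linarith)
  rw [hE] at h3
  have h4 : (4918 : ℝ) / 10000 ≤ Real.exp t - 1 := by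
    have := lc2_e40'.trans (Real.exp_le_exp.2 hcon.le)
    linarith
  have h5 : (2133 : ℝ) / 10000 ≤ (t - t ^ 2 / 2) * Real.exp (-t) := by
    refine le_trans ?_ (lrd_tb_ge (t0 := 2 / 5) (by norm_num) hcon.le ht)
    have := lc2_en40
    norm_num
    linarith
  have h6 : 4918 / 10000 * ρ + 2133 / 10000 / ρ ≤ -η := by
    refine le_trans (add_le_add ?_ ?_) h3
    · rw [mul_comm]
      exact mul_le_mul_of_nonneg_left h4 hρ.le
    · exact div_le_div_of_nonneg_right h5 hρ.le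
  have h7 : 0 ≤ 4918 / 10000 * ρ + 2133 / 10000 / ρ := by positivity
  have h8 := mul_self_le_mul_self h7 h6
  have h9 : 4 * (4918 / 10000) * (2133 / 10000) ≤
      (4918 / 10000 * ρ + 2133 / 10000 / ρ) * (4918 / 10000 * ρ + 2133 / 10000 / ρ) := by
    have e : (4918 / 10000 * ρ + 2133 / 10000 / ρ) * (4918 / 10000 * ρ + 2133 / 10000 / ρ) =
        (4918 / 10000 * ρ - 2133 / 10000 / ρ) ^ 2 + 4 * (4918 / 10000) * (2133 / 10000) := by
      field_simp
      ring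
    rw [e]
    have := sq_nonneg (4918 / 10000 * ρ - 2133 / 10000 / ρ)
    linarith
  nlinarith

/-- the level on the right side, `20 ≤ Γ`, `|η| ≤ π/5` -/
theorem levR_C2 {N : ℕ} {r δ y η : ℝ} (hR : Reg1 N r δ) (hA : At r δ y η) (hη : η ≤ 0)
    (h1 : -eo1 N r δ ≤ η) (h2 : -(Real.pi / 5) ≤ η) (hG : 20 ≤ Gm N r δ) :
    Lev r δ y η (7 / 5) (3 / 2) (3 / 2) := by
  obtain ⟨hS, hy⟩ := lrd_data hR hA hη h1
  have hsq : η ^ 2 ≤ 79 / 200 := by
    have hp := Real.pi_lt_d4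
    have hp0 := Real.pi_pos
    have h4 : η ^ 2 ≤ (Real.pi / 5) ^ 2 := by
      rw [← neg_sq η]
      exact pow_le_pow_left₀ (by linarith) (by linarith) 2
    nlinarith
  have hS' : SadB N r δ y := by
    rcases hS with ⟨h, _⟩ | ⟨_, h⟩
    · exact absurd h (not_lt.2 (by linarith))
    · exact h
  have hr : 0 < r := by linarith [hR.r0]
  have hδ := hR.d0
  have hdom := hA.dom
  have hE := hA.eta
  obtain ⟨n, rfl⟩ : ∃ n, y = -n := ⟨-y, by ring⟩
  have hn0 : 0 ≤ n := by linarith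
  have hn1 : n ≤ 53 / 100 := by linarith [hS'.lo]
  have hn2 := lc2_t hdom hn1 hE hsq
  subst hE
  have hT : n ≤ 4 / 5 * sx (r * δ) (-n) := by
    have := hS'.T
    rwa [abs_neg, abs_of_nonneg hn0] at this
  have hx := lr_x (μ := 281 / 250) hdom hn0 hT (by norm_num) (by norm_num)
  have hC : n ^ 2 * ((1 - 3 / 2 * n + n ^ 2 - 5 / 12 * n ^ 3) +
      (r * δ) ^ 2 * (1 + 1 / 2 * n + 1 / 6 * n ^ 2)) ^ 2 ≤ 79 / 200 * (r * δ) ^ 2 := by
    have hρ : 0 < r * δ := hdom.1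
    have ht := lr_rt hdom hn0 hn1
    have hp0 : 0 ≤ 1 - 3 / 2 * n + n ^ 2 - 5 / 12 * n ^ 3 := by nlinarith [pow_nonneg hn0 3]
    set p := (1 - 3 / 2 * n + n ^ 2 - 5 / 12 * n ^ 3) +
      (r * δ) ^ 2 * (1 + 1 / 2 * n + 1 / 6 * n ^ 2) with hp
    have hpp : 0 ≤ p := by positivity
    have h3 := mul_self_le_mul_self (mul_nonneg hn0 hpp) ht
    have h4 := mul_le_mul_of_nonneg_left hsq (sq_nonneg (r * δ))
    nlinarith
  have hD : sD (r * δ) (-n) ≤ 3 / 2 * √(RR r δ) :=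
    lrd_sD_le (by norm_num) (lrd_triv hdom hn0 (by norm_num)
      ((Real.exp_le_exp.2 hn2).trans lc2_e40))
  exact lev_of hr hδ (by norm_num)
    (lr_l0 hdom hn0 hn1 (by norm_num) (by norm_num) hx
      (lc2_g hn0 hn2 (sq_nonneg _) hC))
    (lr_l1 hdom hn0 hn1 (by norm_num) hx
      ((lc2_k hn0 hn2 (sq_nonneg _) hC).trans (le_of_eq (by norm_num)))) hD

end SokalV3
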