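import Pool.Agent.Lib_MP_af4de1_v3.V3
import Pool.Agent.Lib_MP_af4de1_fa.FarSum

/-!
# CEN: one wave at the angle `θ = ± t`, `0 < t ≤ π`, on the path through the CENTRE saddle (owner helper66)

Path `a = max (-1) (min 1 (s/m))`, `m = (5/4) √(1+ρ²)`; `Dm = 1 + a + a s/ρ - e^a cos (θ+s) ≥ 0` is the height
divided by `r`; multiplier `r e^(a + i(θ+s))`.  Weight `W = |e^(a + i(θ+s)) - w|²`, `w = K/ρ = e^(-y + i ψ)`.
`Zone q m ρ θ w S I0 IW Ie` : bounds of `∫_S e^(-q Dm)`, `∫_S W e^(-q Dm)`, `∫_S e^a e^(-q Dm)`.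

Zones for `θ = t` (left; for `θ = -t` replace `s` by `-s`):
main `-t ≤ s ≤ 0`, `t + s ≤ 6/5`;  behind `-t - 6/5 ≤ s ≤ -t`;  front `0 ≤ s`, `t + s ≤ 6/5`;
image `|t + s - 2π| ≤ 6/5` (main and behind part with `t' = 2π - t` on the other side);
far `s ≤ -t - 5` or `2π - t + 5 ≤ s`;  rest: `1 - cos (θ+s) ≥ 6336/10000`, there `Dm ≥ 1/2`.
-/

set_option autoImplicit false

namespace SokalCen

open Real MeasureTheory Set

/-- the slope parameter -/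
noncomputable def mm (ρ : ℝ) : ℝ := 5 / 4 * √(1 + ρ ^ 2)

/-- the path -/
noncomputable def pm (m s : ℝ) : ℝ := max (-1) (min 1 (s / m))

/-- one minus the exponent divided by `r` -/
noncomputable def Dm (m ρ θ s : ℝ) : ℝ :=
  1 + pm m s + pm m s * s / ρ - exp (pm m s) * cos (θ + s)

/-- the part of `Dm` without the angle -/
noncomputable def Qm (m ρ s : ℝ) : ℝ := 1 + pm m s + pm m s * s / ρ - exp (pm m s)

/-- `e^(a + i(θ+s))` -/
noncomputable def em (m θ s : ℝ) : ℂ := Complex.exp (pm m s + (θ + s) * Complex.I)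

/-- the weight -/
noncomputable def Wm (m θ : ℝ) (w : ℂ) (s : ℝ) : ℝ := ‖em m θ s - w‖ ^ 2

/-- bounds of the three integrals over a zone -/
structure Zone (q m ρ θ : ℝ) (w : ℂ) (S : Set ℝ) (I0 IW Ie : ℝ) : Prop where
  i0 : ∫⁻ s in S, ENNReal.ofReal (exp (-(q * Dm m ρ θ s))) ≤ ENNReal.ofReal I0
  iW : ∫⁻ s in S, ENNReal.ofReal (Wm m θ w s * exp (-(q * Dm m ρ θ s))) ≤ ENNReal.ofReal IW
  ie : ∫⁻ s in S, ENNReal.ofReal (exp (pm m s) * exp (-(q * Dm m ρ θ s))) ≤ ENNReal.ofReal Ie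

/-! ## closed forms -/

/-- quadratic coefficient on the right for `0 ≤ a ≤ T ≤ 1` -/
noncomputable def aR (m ρ T : ℝ) : ℝ := (m / ρ - (1 + T / 3 + 5 * T ^ 2 / 48) / 2) / m ^ 2

/-- quadratic coefficient on the left -/
noncomputable def aL (m ρ : ℝ) : ℝ := (m / ρ - 1 / 2) / m ^ 2

/-- clipped end of the path -/
noncomputable def cT (m t : ℝ) : ℝ := min 1 (t / m)

/-- `Qm s ≥ AR s²` on `[0, t]` -/
noncomputable def AR (m ρ t : ℝ) : ℝ := aR m ρ (cT m t) * min 1 (m / t)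

/-- `Qm (-v) ≥ AL v²` on `[0, t]` -/
noncomputable def AL (m ρ t : ℝ) : ℝ := aL m ρ * min 1 (m / t)

/-- the full Gaussian -/
noncomputable def gG (q A B : ℝ) : ℝ := √(π / (q * (A + B)))
/-- its centre -/
noncomputable def gv (A B t : ℝ) : ℝ := B * t / (A + B)
/-- its variance -/
noncomputable def gs (q A B : ℝ) : ℝ := 1 / (2 * q * (A + B))
/-- width to the right of the centre, up to `t` -/
noncomputable def gr (q A B t : ℝ) : ℝ := min (gG q A B / 2) (t - gv A B t)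

/-- `∫_[0,t] exp(-q (A s² + B (t-s)² - l))` -/
noncomputable def g0 (q A B t l : ℝ) : ℝ :=
  (gG q A B / 2 + gr q A B t) * exp (-(q * (A * B * t ^ 2 / (A + B) - l)))

/-- the same with the weight `a0 + a1 s² + a2 (t-s)²` -/
noncomputable def gW (q A B t l a0 a1 a2 : ℝ) : ℝ :=
  min (gG q A B * (a0 + a1 * (gv A B t ^ 2 + gs q A B) + a2 * ((t - gv A B t) ^ 2 + gs q A B)))
    (gG q A B / 2 * (a0 + a1 * (gv A B t ^ 2 + gs q A B) +
        a2 * ((t - gv A B t) ^ 2 + 2 * (t - gv A B t) * √(2 * gs q A B / π) + gs q A B)) +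
      gr q A B t * (a0 + a1 * t ^ 2 + a2 * (t - gv A B t) ^ 2)) *
    exp (-(q * (A * B * t ^ 2 / (A + B) - l)))

/-- `∫_[0,∞) exp(-b z - B z²)` -/
noncomputable def h0 (b B : ℝ) : ℝ :=
  min (√(π / B) / 2) (√(π / B) / 2 - b / (2 * B) + b ^ 2 * √(π / B) / (8 * B))
/-- `∫_[0,∞) z exp(-B z²)` -/
noncomputable def h1 (B : ℝ) : ℝ := 1 / (2 * B)
/-- `∫_[0,∞) z² exp(-B z²)` -/
noncomputable def h2 (B : ℝ) : ℝ := √(π / B) / (4 * B)

/-- `1 - cos` in the window -/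
def Win (β t : ℝ) : Prop := 0 < β ∧ ∀ u : ℝ, 0 ≤ u → u ≤ t → u ≤ 6 / 5 → β * u ^ 2 ≤ 1 - cos u

/-- the factor `e^a` on the left: `B`, `l` -/
def Lft (m t β B l : ℝ) : Prop := 0 < B ∧ 0 ≤ l ∧
  ∀ v : ℝ, 0 ≤ v → v ≤ t → B * (t - v) ^ 2 - l ≤ exp (pm m (-v)) * (β * (t - v) ^ 2)

/-- front, left (`θ = t`): `I0` -/
noncomputable def fL0 (q m ρ t : ℝ) : ℝ :=
  √(π / (q * aR m ρ 1)) / 2 * exp (-(q * (1 - cos t)))

end SokalCen
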