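import Pool.Agent.Lib_MP_af4de1_v3.CenRed
import Pool.Agent.Lib_MP_af4de1_v3.CenDef

/-!
# SHIFT on the centre path with slope `m`: reduction to the zones of `CenDef`

`WB r δ θ m` : the absolute bound on the path of slope `m` (helper66, CenA).
`shf_cen` : interface of helper68 (weights `‖kp - κ‖`, `‖(kp-κ)² + kp‖`, `kp = r em`).
`shf_zone` : from ONE `Zone` over `univ` (`Zone.union`, `Zone.mono`, `Zone.tri`, `Zone.pyth`).
-/

set_option autoImplicit false

namespace SokalCen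

open Complex MeasureTheory Set SokalU SokalF1 SokalF1S SokalF1M SokalV3

/-- the absolute bound on the path of slope `m` -/
def WB (r δ θ m : ℝ) : Prop := ∀ c0 c1 c2 : ℂ,
  ENNReal.ofReal ‖c0 * E (tt δ) (wp r δ θ) + c1 * DE (tt δ) (wp r δ θ) +
    c2 * SokalBPlus.D2E (tt δ) (wp r δ θ)‖ ≤
  ENNReal.ofReal (√(r / (2 * Real.pi * (r * δ))) * Real.exp r) *
    ∫⁻ s : ℝ, ENNReal.ofReal (√(1 + 1 / m ^ 2) *
      ‖c0 + c1 * (r * em m θ s) + c2 * ((r * em m θ s) ^ 2 + r * em m θ s)‖ *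
        Real.exp (-(r * Dm m (r * δ) θ s)))

/-- the level factor -/
noncomputable def LvF (r δ η g q : ℝ) : ℝ := √(r / (2 * Real.pi * (r * δ))) * √(q * √(RR r δ)) *
  Real.exp (g / 2 * (r * η ^ 2 / RR r δ))

theorem LvF_nonneg (r δ η g q : ℝ) : 0 ≤ LvF r δ η g q := by
  unfold LvF
  positivity

/-- THE REDUCTION, interface of helper68. -/
theorem shf_cen {r δ y η ζ H g k q m f0 f1 f2 L : ℝ} (hr : 0 < r) (hδ : 0 < δ)
    (hA : At r δ y η) (hL : Lev r δ y η g k q) (hW : WB r δ (η + ζ) m) (hL0 : 0 < L)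
    (hLv : LvF r δ η g q ≤ L) (hf0 : 0 ≤ f0) (hf1 : 0 ≤ f1 * H) (hf2 : 0 ≤ f2)
    (h0 : ∫⁻ s : ℝ, ENNReal.ofReal (√(1 + 1 / m ^ 2) * 1 *
      Real.exp (-(r * Dm m (r * δ) (η + ζ) s))) ≤ ENNReal.ofReal (f0 / L))
    (h1 : ∫⁻ s : ℝ, ENNReal.ofReal (√(1 + 1 / m ^ 2) * ‖r * em m (η + ζ) s - kap r δ y‖ *
      Real.exp (-(r * Dm m (r * δ) (η + ζ) s))) ≤ ENNReal.ofReal (f1 * H / L))
    (h2 : ∫⁻ s : ℝ, ENNReal.ofReal (√(1 + 1 / m ^ 2) *
      ‖(r * em m (η + ζ) s - kap r δ y) ^ 2 + r * em m (η + ζ) s‖ *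
      Real.exp (-(r * Dm m (r * δ) (η + ζ) s))) ≤ ENNReal.ofReal (f2 * H ^ 2 / L)) :
    Shf r δ y ζ H f0 f1 f2 := by
  unfold LvF at hLv
  refine ⟨?_, ?_, ?_⟩
  · have hw := hW 1 0 0
    refine cen_level hr hδ hA.y1 hL (norm_nonneg _) (by positivity) ?_ h0 hLv
      (mul_div_cancel₀ _ hL0.ne').le
    unfold V0
    rw [hA.eta]
    simpa using hw
  · have hw := hW (-kap r δ y) 1 0
    refine cen_level hr hδ hA.y1 hL (norm_nonneg _) (by positivity) ?_ h1 hLv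
      (mul_div_cancel₀ _ hL0.ne').le
    unfold V0 V1
    rw [hA.eta]
    have e : DE (tt δ) (wp r δ (η + ζ)) - kap r δ y * E (tt δ) (wp r δ (η + ζ)) =
        -kap r δ y * E (tt δ) (wp r δ (η + ζ)) + 1 * DE (tt δ) (wp r δ (η + ζ)) +
          0 * SokalBPlus.D2E (tt δ) (wp r δ (η + ζ)) := by ring
    rw [e]
    refine hw.trans (le_of_eq ?_)
    congr 1
    refine lintegral_congr fun s => ?_
    congr 4
    ring
  · have hw := hW (kap r δ y ^ 2) (-(2 * kap r δ y)) 1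
    refine cen_level hr hδ hA.y1 hL (norm_nonneg _) (by positivity) ?_ h2 hLv
      (mul_div_cancel₀ _ hL0.ne').le
    unfold V0 V1 V2
    rw [hA.eta]
    have e : SokalBPlus.D2E (tt δ) (wp r δ (η + ζ)) - 2 * kap r δ y * DE (tt δ) (wp r δ (η + ζ)) +
        kap r δ y ^ 2 * E (tt δ) (wp r δ (η + ζ)) =
        kap r δ y ^ 2 * E (tt δ) (wp r δ (η + ζ)) + -(2 * kap r δ y) * DE (tt δ) (wp r δ (η + ζ)) +
          1 * SokalBPlus.D2E (tt δ) (wp r δ (η + ζ)) := by ring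
    rw [e]
    refine hw.trans (le_of_eq ?_)
    congr 1
    refine lintegral_congr fun s => ?_
    congr 4
    ring

/-! ## zones -/

theorem continuous_pm (m : ℝ) : Continuous (pm m) := by
  unfold pm
  fun_prop

theorem continuous_Dm (m ρ θ : ℝ) : Continuous (Dm m ρ θ) := by
  have := continuous_pm m
  unfold Dm
  fun_prop

theorem continuous_em (m θ : ℝ) : Continuous (em m θ) := by
  have := continuous_pm m
  unfold em
  fun_prop

theorem continuous_Wm (m θ : ℝ) (w : ℂ) : Continuous (Wm m θ w) := by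
  have := continuous_em m θ
  unfold Wm
  fun_prop

theorem Wm_nonneg (m θ : ℝ) (w : ℂ) (s : ℝ) : 0 ≤ Wm m θ w s := by
  unfold Wm
  positivity

theorem norm_em (m θ s : ℝ) : ‖em m θ s‖ = Real.exp (pm m s) := by
  unfold em
  rw [Complex.norm_exp]
  simp

theorem Zone.mono {q m ρ θ : ℝ} {w : ℂ} {S : Set ℝ} {I0 IW Ie J0 JW Je : ℝ}
    (h : Zone q m ρ θ w S I0 IW Ie) (h0 : I0 ≤ J0) (h1 : IW ≤ JW) (h2 : Ie ≤ Je) :
    Zone q m ρ θ w S J0 JW Je :=
  ⟨h.i0.trans (ENNReal.ofReal_le_ofReal h0), h.iW.trans (ENNReal.ofReal_le_ofReal h1),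
    h.ie.trans (ENNReal.ofReal_le_ofReal h2)⟩

theorem Zone.subset {q m ρ θ : ℝ} {w : ℂ} {S T : Set ℝ} {I0 IW Ie : ℝ}
    (h : Zone q m ρ θ w T I0 IW Ie) (hST : S ⊆ T) : Zone q m ρ θ w S I0 IW Ie :=
  ⟨(lintegral_mono_set hST).trans h.i0, (lintegral_mono_set hST).trans h.iW,
    (lintegral_mono_set hST).trans h.ie⟩

theorem Zone.union {q m ρ θ : ℝ} {w : ℂ} {S T : Set ℝ} {I0 IW Ie J0 JW Je : ℝ}
    (h : Zone q m ρ θ w S I0 IW Ie) (h' : Zone q m ρ θ w T J0 JW Je)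
    (a0 : 0 ≤ I0) (a1 : 0 ≤ IW) (a2 : 0 ≤ Ie) (b0 : 0 ≤ J0) (b1 : 0 ≤ JW) (b2 : 0 ≤ Je) :
    Zone q m ρ θ w (S ∪ T) (I0 + J0) (IW + JW) (Ie + Je) := by
  refine ⟨?_, ?_, ?_⟩
  · rw [ENNReal.ofReal_add a0 b0]
    exact (lintegral_union_le _ _ _).trans (add_le_add h.i0 h'.i0)
  · rw [ENNReal.ofReal_add a1 b1]
    exact (lintegral_union_le _ _ _).trans (add_le_add h.iW h'.iW)
  · rw [ENNReal.ofReal_add a2 b2]
    exact (lintegral_union_le _ _ _).trans (add_le_add h.ie h'.ie)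

/-- Cauchy-Schwarz for a product of square roots -/
theorem lintegral_sqrt_mul {S : Set ℝ} {E W : ℝ → ℝ} (hE : ∀ s, 0 ≤ E s) (hW : ∀ s, 0 ≤ W s)
    (mE : Measurable E) (mW : Measurable W) {I0 IW : ℝ} (h0 : 0 ≤ I0) (hw : 0 ≤ IW)
    (i0 : ∫⁻ s in S, ENNReal.ofReal (E s) ≤ ENNReal.ofReal I0)
    (iW : ∫⁻ s in S, ENNReal.ofReal (W s * E s) ≤ ENNReal.ofReal IW) :
    ∫⁻ s in S, ENNReal.ofReal (√(W s) * E s) ≤ ENNReal.ofReal √(I0 * IW) := by
  have hh := ENNReal.lintegral_mul_le_Lp_mul_Lq (volume.restrict S)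
    (Real.HolderConjugate.two_two) (f := fun s => ENNReal.ofReal √(W s * E s))
    (g := fun s => ENNReal.ofReal √(E s)) (by fun_prop) (by fun_prop)
  have e1 : ∀ s, ((fun s => ENNReal.ofReal √(W s * E s)) * fun s => ENNReal.ofReal √(E s)) s =
      ENNReal.ofReal (√(W s) * E s) := by
    intro s
    rw [Pi.mul_apply, ← ENNReal.ofReal_mul (Real.sqrt_nonneg _), Real.sqrt_mul (hW s), mul_assoc,
      Real.mul_self_sqrt (hE s)]
  have e2 : ∀ s, (ENNReal.ofReal √(W s * E s)) ^ (2 : ℝ) = ENNReal.ofReal (W s * E s) := by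
    intro s
    have := hW s
    have := hE s
    rw [ENNReal.ofReal_rpow_of_nonneg (Real.sqrt_nonneg _) (by norm_num), Real.rpow_two,
      Real.sq_sqrt (by positivity)]
  have e3 : ∀ s, (ENNReal.ofReal √(E s)) ^ (2 : ℝ) = ENNReal.ofReal (E s) := by
    intro s
    rw [ENNReal.ofReal_rpow_of_nonneg (Real.sqrt_nonneg _) (by norm_num), Real.rpow_two,
      Real.sq_sqrt (hE s)]
  simp only [e1, e2, e3] at hh
  refine hh.trans ?_
  calc (∫⁻ a in S, ENNReal.ofReal (W a * E a)) ^ (1 / 2 : ℝ) *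
        (∫⁻ a in S, ENNReal.ofReal (E a)) ^ (1 / 2 : ℝ)
      ≤ (ENNReal.ofReal IW) ^ (1 / 2 : ℝ) * (ENNReal.ofReal I0) ^ (1 / 2 : ℝ) := by
        gcongr
    _ = ENNReal.ofReal √(I0 * IW) := by
        rw [ENNReal.ofReal_rpow_of_nonneg hw (by norm_num),
          ENNReal.ofReal_rpow_of_nonneg h0 (by norm_num), ← ENNReal.ofReal_mul (by positivity),
          ← Real.sqrt_eq_rpow, ← Real.sqrt_eq_rpow, mul_comm, ← Real.sqrt_mul h0]

/-- The weight `‖em - w‖` by Cauchy-Schwarz. -/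
theorem Zone.i1 {q m ρ θ : ℝ} {w : ℂ} {S : Set ℝ} {I0 IW Ie : ℝ} (h : Zone q m ρ θ w S I0 IW Ie)
    (h0 : 0 ≤ I0) (h1 : 0 ≤ IW) :
    ∫⁻ s in S, ENNReal.ofReal (‖em m θ s - w‖ * Real.exp (-(q * Dm m ρ θ s))) ≤
      ENNReal.ofReal √(I0 * IW) := by
  have mD := (continuous_Dm m ρ θ).measurable
  have mW := (continuous_Wm m θ w).measurable
  have key := lintegral_sqrt_mul (S := S) (E := fun s => Real.exp (-(q * Dm m ρ θ s)))
    (W := Wm m θ w) (fun s => (Real.exp_pos _).le) (Wm_nonneg m θ w) (by fun_prop) mW h0 h1 h.i0 h.iW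
  refine le_trans (le_of_eq ?_) key
  refine lintegral_congr fun s => ?_
  unfold Wm
  rw [Real.sqrt_sq (norm_nonneg _)]

/-- Change of the base point of the weight: triangle inequality in `L²`. -/
theorem Zone.tri {q m ρ θ : ℝ} {w w' : ℂ} {S : Set ℝ} {I0 IW Ie κ : ℝ}
    (h : Zone q m ρ θ w S I0 IW Ie) (h0 : 0 ≤ I0) (h1 : 0 ≤ IW) (hκ : ‖w' - w‖ ≤ κ) :
    Zone q m ρ θ w' S I0 ((√IW + κ * √I0) ^ 2) Ie := by
  have hκ0 : 0 ≤ κ := (norm_nonneg _).trans hκ
  have mD := (continuous_Dm m ρ θ).measurable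
  have mW := (continuous_Wm m θ w).measurable
  have mE := (continuous_em m θ).measurable
  refine ⟨h.i0, ?_, h.ie⟩
  have hi := h.i1 h0 h1
  have hb : ∀ s, Wm m θ w' s * Real.exp (-(q * Dm m ρ θ s)) ≤
      Wm m θ w s * Real.exp (-(q * Dm m ρ θ s)) + (2 * κ * (‖em m θ s - w‖ *
        Real.exp (-(q * Dm m ρ θ s))) + κ ^ 2 * Real.exp (-(q * Dm m ρ θ s))) := by
    intro s
    have e1 : ‖em m θ s - w'‖ ≤ ‖em m θ s - w‖ + κ := by
      have : em m θ s - w' = (em m θ s - w) - (w' - w) := by ring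
      rw [this]
      exact (norm_sub_le _ _).trans (by linarith)
    have e2 : ‖em m θ s - w'‖ ^ 2 ≤ (‖em m θ s - w‖ + κ) ^ 2 := by
      have := norm_nonneg (em m θ s - w')
      gcongr
    have e3 := Real.exp_pos (-(q * Dm m ρ θ s))
    unfold Wm
    have e4 := mul_le_mul_of_nonneg_right e2 e3.le
    linarith
  refine (lintegral_mono fun s => ENNReal.ofReal_le_ofReal (hb s)).trans ?_
  have n1 : ∀ s, 0 ≤ Wm m θ w s * Real.exp (-(q * Dm m ρ θ s)) := fun s =>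
    mul_nonneg (Wm_nonneg m θ w s) (Real.exp_pos _).le
  have n2 : ∀ s, 0 ≤ 2 * κ * (‖em m θ s - w‖ * Real.exp (-(q * Dm m ρ θ s))) := fun s => by
    have := Real.exp_pos (-(q * Dm m ρ θ s))
    positivity
  have n3 : ∀ s, 0 ≤ κ ^ 2 * Real.exp (-(q * Dm m ρ θ s)) := fun s => by
    have := Real.exp_pos (-(q * Dm m ρ θ s))
    positivity
  have e5 : ∀ s, ENNReal.ofReal (Wm m θ w s * Real.exp (-(q * Dm m ρ θ s)) + (2 * κ *
      (‖em m θ s - w‖ * Real.exp (-(q * Dm m ρ θ s))) + κ ^ 2 * Real.exp (-(q * Dm m ρ θ s)))) =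
      ENNReal.ofReal (Wm m θ w s * Real.exp (-(q * Dm m ρ θ s))) + (ENNReal.ofReal (2 * κ) *
        ENNReal.ofReal (‖em m θ s - w‖ * Real.exp (-(q * Dm m ρ θ s))) +
        ENNReal.ofReal (κ ^ 2) * ENNReal.ofReal (Real.exp (-(q * Dm m ρ θ s)))) := by
    intro s
    rw [ENNReal.ofReal_add (n1 s) (add_nonneg (n2 s) (n3 s)), ENNReal.ofReal_add (n2 s) (n3 s),
      ENNReal.ofReal_mul (p := 2 * κ) (by positivity), ENNReal.ofReal_mul (p := κ ^ 2)
        (by positivity)]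
  simp only [e5]
  rw [lintegral_add_left (by fun_prop), lintegral_add_left (by fun_prop),
    lintegral_const_mul _ (by fun_prop), lintegral_const_mul _ (by fun_prop)]
  calc _ ≤ ENNReal.ofReal IW + (ENNReal.ofReal (2 * κ) * ENNReal.ofReal √(I0 * IW) +
        ENNReal.ofReal (κ ^ 2) * ENNReal.ofReal I0) :=
        add_le_add h.iW (add_le_add (mul_le_mul_right hi _) (mul_le_mul_right h.i0 _))
    _ = ENNReal.ofReal ((√IW + κ * √I0) ^ 2) := by
        rw [← ENNReal.ofReal_mul (by positivity), ← ENNReal.ofReal_mul (by positivity),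
          ← ENNReal.ofReal_add (by positivity) (by positivity),
          ← ENNReal.ofReal_add h1 (by positivity)]
        congr 1
        have e1 := Real.sq_sqrt h0
        have e2 := Real.sq_sqrt h1
        rw [Real.sqrt_mul h0]
        linear_combination -e2 - κ ^ 2 * e1

/-- Pythagoras: if `Wm w' ≤ c Wm w + κ²` on `S`. -/
theorem Zone.pyth {q m ρ θ : ℝ} {w w' : ℂ} {S : Set ℝ} {I0 IW Ie c κ2 : ℝ}
    (hS : MeasurableSet S) (h : Zone q m ρ θ w S I0 IW Ie) (h0 : 0 ≤ I0) (h1 : 0 ≤ IW) (hc : 0 ≤ c)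
    (hκ : 0 ≤ κ2) (hb : ∀ s ∈ S, Wm m θ w' s ≤ c * Wm m θ w s + κ2) :
    Zone q m ρ θ w' S I0 (c * IW + κ2 * I0) Ie := by
  have mD := (continuous_Dm m ρ θ).measurable
  have mW := (continuous_Wm m θ w).measurable
  refine ⟨h.i0, ?_, h.ie⟩
  have e5 : ∀ s, ENNReal.ofReal (c * (Wm m θ w s * Real.exp (-(q * Dm m ρ θ s))) +
      κ2 * Real.exp (-(q * Dm m ρ θ s))) =
      ENNReal.ofReal c * ENNReal.ofReal (Wm m θ w s * Real.exp (-(q * Dm m ρ θ s))) +
        ENNReal.ofReal κ2 * ENNReal.ofReal (Real.exp (-(q * Dm m ρ θ s))) := by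
    intro s
    have := Wm_nonneg m θ w s
    rw [ENNReal.ofReal_add (by positivity) (by positivity), ENNReal.ofReal_mul hc,
      ENNReal.ofReal_mul hκ]
  calc ∫⁻ s in S, ENNReal.ofReal (Wm m θ w' s * Real.exp (-(q * Dm m ρ θ s)))
      ≤ ∫⁻ s in S, ENNReal.ofReal (c * (Wm m θ w s * Real.exp (-(q * Dm m ρ θ s))) +
        κ2 * Real.exp (-(q * Dm m ρ θ s))) := by
        refine setLIntegral_mono' hS fun s hs => ENNReal.ofReal_le_ofReal ?_
        have := mul_le_mul_of_nonneg_right (hb s hs) (Real.exp_pos (-(q * Dm m ρ θ s))).le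
        linarith
    _ = ENNReal.ofReal c * (∫⁻ s in S, ENNReal.ofReal (Wm m θ w s *
          Real.exp (-(q * Dm m ρ θ s)))) + ENNReal.ofReal κ2 *
          ∫⁻ s in S, ENNReal.ofReal (Real.exp (-(q * Dm m ρ θ s))) := by
        simp only [e5]
        rw [lintegral_add_left (by fun_prop), lintegral_const_mul _ (by fun_prop),
          lintegral_const_mul _ (by fun_prop)]
    _ ≤ ENNReal.ofReal c * ENNReal.ofReal IW + ENNReal.ofReal κ2 * ENNReal.ofReal I0 :=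
        add_le_add (mul_le_mul_right h.iW _) (mul_le_mul_right h.i0 _)
    _ = ENNReal.ofReal (c * IW + κ2 * I0) := by
        rw [← ENNReal.ofReal_mul hc, ← ENNReal.ofReal_mul hκ,
          ← ENNReal.ofReal_add (by positivity) (by positivity)]

/-- `κ = r w`, `w = K/ρ` -/
theorem kap_eq {r δ y : ℝ} (hr : 0 < r) : kap r δ y = r * (sK (r * δ) y / (r * δ : ℝ)) := by
  unfold kap
  have h1 : (r : ℂ) ≠ 0 := by exact_mod_cast hr.ne'
  push_cast
  field_simp

/-- FROM ONE ZONE OVER `univ` TO `Shf`. -/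
theorem shf_zone {r δ y η ζ H g k q m f0 f1 f2 L I0 IW Ie : ℝ} (hr : 0 < r) (hδ : 0 < δ)
    (hA : At r δ y η) (hL : Lev r δ y η g k q) (hW : WB r δ (η + ζ) m)
    (hLv : LvF r δ η g q ≤ L) (h0 : 0 ≤ I0) (h1 : 0 ≤ IW) (h2 : 0 ≤ Ie)
    (Z : Zone r m (r * δ) (η + ζ) (sK (r * δ) y / (r * δ : ℝ)) univ I0 IW Ie)
    (hf0 : L * √(1 + 1 / m ^ 2) * I0 ≤ f0)
    (hf1 : L * √(1 + 1 / m ^ 2) * (r * √(I0 * IW)) ≤ f1 * H)
    (hf2 : L * √(1 + 1 / m ^ 2) * (r ^ 2 * IW + r * Ie) ≤ f2 * H ^ 2) :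
    Shf r δ y ζ H f0 f1 f2 := by
  have hc : 0 ≤ √(1 + 1 / m ^ 2) := Real.sqrt_nonneg _
  have mD := (continuous_Dm m (r * δ) (η + ζ)).measurable
  have mW := (continuous_Wm m (η + ζ) (sK (r * δ) y / (r * δ : ℝ))).measurable
  have mE := (continuous_em m (η + ζ)).measurable
  have mP := (continuous_pm m).measurable
  unfold LvF at hLv
  obtain ⟨z0, zW, ze⟩ := Z
  have z1 := (Zone.i1 ⟨z0, zW, ze⟩ h0 h1)
  simp only [Measure.restrict_univ] at z0 zW ze z1
  refine ⟨?_, ?_, ?_⟩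
  · have hw := hW 1 0 0
    refine cen_level hr hδ hA.y1 hL (norm_nonneg _) (j := √(1 + 1 / m ^ 2) * I0) (by positivity)
      (J := ∫⁻ s : ℝ, ENNReal.ofReal (√(1 + 1 / m ^ 2) * 1 *
        Real.exp (-(r * Dm m (r * δ) (η + ζ) s)))) ?_ ?_ hLv (by linarith)
    · unfold V0
      rw [hA.eta]
      simpa using hw
    · rw [ENNReal.ofReal_mul hc]
      simp only [mul_one, ENNReal.ofReal_mul hc]
      rw [lintegral_const_mul _ (by fun_prop)]
      exact mul_le_mul_right z0 _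
  · have hw := hW (-kap r δ y) 1 0
    refine cen_level hr hδ hA.y1 hL (norm_nonneg _) (j := √(1 + 1 / m ^ 2) * (r * √(I0 * IW)))
      (by positivity)
      (J := ∫⁻ s : ℝ, ENNReal.ofReal (√(1 + 1 / m ^ 2) * ‖r * em m (η + ζ) s - kap r δ y‖ *
        Real.exp (-(r * Dm m (r * δ) (η + ζ) s)))) ?_ ?_ hLv (by linarith)
    · unfold V0 V1
      rw [hA.eta]
      have e : DE (tt δ) (wp r δ (η + ζ)) - kap r δ y * E (tt δ) (wp r δ (η + ζ)) =
          -kap r δ y * E (tt δ) (wp r δ (η + ζ)) + 1 * DE (tt δ) (wp r δ (η + ζ)) +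
            0 * SokalBPlus.D2E (tt δ) (wp r δ (η + ζ)) := by ring
      rw [e]
      refine hw.trans (le_of_eq ?_)
      congr 1
      refine lintegral_congr fun s => ?_
      congr 4
      ring
    · have e : ∀ s, ENNReal.ofReal (√(1 + 1 / m ^ 2) * ‖r * em m (η + ζ) s - kap r δ y‖ *
          Real.exp (-(r * Dm m (r * δ) (η + ζ) s))) = ENNReal.ofReal (√(1 + 1 / m ^ 2) * r) *
          ENNReal.ofReal (‖em m (η + ζ) s - sK (r * δ) y / (r * δ : ℝ)‖ *
            Real.exp (-(r * Dm m (r * δ) (η + ζ) s))) := by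
        intro s
        rw [← ENNReal.ofReal_mul (by positivity)]
        congr 1
        rw [kap_eq hr, ← mul_sub, norm_mul, Complex.norm_real, Real.norm_of_nonneg hr.le]
        ring
      simp only [e]
      rw [lintegral_const_mul _ (by fun_prop), ← mul_assoc,
        ENNReal.ofReal_mul (p := √(1 + 1 / m ^ 2) * r) (by positivity)]
      exact mul_le_mul_right z1 _
  · have hw := hW (kap r δ y ^ 2) (-(2 * kap r δ y)) 1
    refine cen_level hr hδ hA.y1 hL (norm_nonneg _) (j := √(1 + 1 / m ^ 2) *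
      (r ^ 2 * IW + r * Ie)) (by positivity)
      (J := ∫⁻ s : ℝ, ENNReal.ofReal (√(1 + 1 / m ^ 2) *
        ‖(r * em m (η + ζ) s - kap r δ y) ^ 2 + r * em m (η + ζ) s‖ *
        Real.exp (-(r * Dm m (r * δ) (η + ζ) s)))) ?_ ?_ hLv (by linarith)
    · unfold V0 V1 V2
      rw [hA.eta]
      have e : SokalBPlus.D2E (tt δ) (wp r δ (η + ζ)) -
          2 * kap r δ y * DE (tt δ) (wp r δ (η + ζ)) +
          kap r δ y ^ 2 * E (tt δ) (wp r δ (η + ζ)) =
          kap r δ y ^ 2 * E (tt δ) (wp r δ (η + ζ)) +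
            -(2 * kap r δ y) * DE (tt δ) (wp r δ (η + ζ)) +
            1 * SokalBPlus.D2E (tt δ) (wp r δ (η + ζ)) := by ring
      rw [e]
      refine hw.trans (le_of_eq ?_)
      congr 1
      refine lintegral_congr fun s => ?_
      congr 4
      ring
    · have e : ∀ s, ENNReal.ofReal (√(1 + 1 / m ^ 2) *
          ‖(r * em m (η + ζ) s - kap r δ y) ^ 2 + r * em m (η + ζ) s‖ *
          Real.exp (-(r * Dm m (r * δ) (η + ζ) s))) ≤ ENNReal.ofReal (√(1 + 1 / m ^ 2)) *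
          (ENNReal.ofReal (r ^ 2) * ENNReal.ofReal (Wm m (η + ζ) (sK (r * δ) y / (r * δ : ℝ)) s *
            Real.exp (-(r * Dm m (r * δ) (η + ζ) s))) + ENNReal.ofReal r *
            ENNReal.ofReal (Real.exp (pm m s) * Real.exp (-(r * Dm m (r * δ) (η + ζ) s)))) := by
        intro s
        have hWn := Wm_nonneg m (η + ζ) (sK (r * δ) y / (r * δ : ℝ)) s
        have hE := Real.exp_pos (-(r * Dm m (r * δ) (η + ζ) s))
        rw [← ENNReal.ofReal_mul (by positivity), ← ENNReal.ofReal_mul (by positivity),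
          ← ENNReal.ofReal_add (by positivity) (by positivity), ← ENNReal.ofReal_mul hc]
        refine ENNReal.ofReal_le_ofReal ?_
        have e1 : ‖(r * em m (η + ζ) s - kap r δ y) ^ 2 + r * em m (η + ζ) s‖ ≤
            r ^ 2 * Wm m (η + ζ) (sK (r * δ) y / (r * δ : ℝ)) s + r * Real.exp (pm m s) := by
          refine (norm_add_le _ _).trans (add_le_add (le_of_eq ?_) (le_of_eq ?_))
          · rw [kap_eq hr, ← mul_sub, norm_pow, norm_mul, Complex.norm_real,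
              Real.norm_of_nonneg hr.le, mul_pow]
            rfl
          · rw [norm_mul, norm_em, Complex.norm_real, Real.norm_of_nonneg hr.le]
        calc _ ≤ √(1 + 1 / m ^ 2) * (r ^ 2 * Wm m (η + ζ) (sK (r * δ) y / (r * δ : ℝ)) s +
              r * Real.exp (pm m s)) * Real.exp (-(r * Dm m (r * δ) (η + ζ) s)) := by gcongr
          _ = _ := by ring
      refine (lintegral_mono e).trans ?_
      rw [lintegral_const_mul _ (by fun_prop), lintegral_add_left (by fun_prop),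
        lintegral_const_mul _ (by fun_prop), lintegral_const_mul _ (by fun_prop),
        ENNReal.ofReal_mul hc, ENNReal.ofReal_add (by positivity) (by positivity),
        ENNReal.ofReal_mul (p := r ^ 2) (by positivity), ENNReal.ofReal_mul hr.le]
      exact mul_le_mul_right (add_le_add (mul_le_mul_right zW _) (mul_le_mul_right ze _)) _

end SokalCen
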