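import Pool.Agent.Lib_MP_af4de1_v3.CelInt
import Pool.Agent.Lib_MP_af4de1_v3.CenRedM

/-!
# Cells: from `Reg1` and the window to the scaled variables (both sides) (helper6)

`c = 1/√R`, `ν = ρ/√R`, `c² + ν² = 1`, `h = hst N`, `τ = |η|/h`, `Γ = Gm N r δ`, `r = Γ/(h c)²`, `ρ = ν/c`,
`m = mm ρ = (5/4)/c`, `H = HH N r δ = Γ/(h c)`.
-/

set_option autoImplicit false

namespace SokalCel

open SokalFN SokalF1 SokalV3 SokalCen

/-- the scaled variables of a point, without `N` -/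
structure Scl0 (r δ η c ν h τ Γ : ℝ) : Prop where
  c0 : 0 < c
  c1 : c < 1
  n0 : 0 < ν
  n1 : ν < 1
  cn : c ^ 2 + ν ^ 2 = 1
  h0 : 0 < h
  u0 : 0 ≤ τ
  eη : |η| = τ * h
  Gr : Γ = r * (h * c) ^ 2
  G1 : 499 / 10 * (h * c) ^ 2 ≤ Γ
  er : r = Γ / (h * c) ^ 2
  eρ : r * δ = ν / c
  eR : √(RR r δ) = 1 / c
  eRR : RR r δ = 1 / c ^ 2
  em : mm (r * δ) = 5 / 4 / c

/-- the scaled variables of a point of regime I -/
structure Scl (N : ℕ) (r δ η c ν h τ Γ : ℝ) : Prop extends Scl0 r δ η c ν h τ Γ where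
  h1 : h ≤ 2 * Real.pi / 3
  eh : h = hst N
  eG : Γ = Gm N r δ
  G0 : 27 / 5 ≤ Γ
  hc : (h * c) ^ 2 ≤ 11 / 10
  eH : HH N r δ = Γ / (h * c)

theorem hst_pos3 {N : ℕ} (hN : 3 ≤ N) : 0 < hst N := by
  have h : (3 : ℝ) ≤ N := by exact_mod_cast hN
  have := Real.pi_pos
  unfold hst
  positivity

theorem hst_le3 {N : ℕ} (hN : 3 ≤ N) : hst N ≤ 2 * Real.pi / 3 := by
  have h : (3 : ℝ) ≤ N := by exact_mod_cast hN
  have := Real.pi_pos
  unfold hst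
  exact div_le_div_of_nonneg_left (by positivity) (by norm_num) h

/-- the scaled variables for any `h > 0` -/
theorem scl0 {r δ h : ℝ} (hr49 : 499 / 10 ≤ r) (hd : 0 < δ) (h0 : 0 < h) (η : ℝ) :
    Scl0 r δ η (1 / √(RR r δ)) (r * δ / √(RR r δ)) h (|η| / h) (r * (h * (1 / √(RR r δ))) ^ 2) := by
  have hr : 0 < r := by linarith
  have hρ : 0 < r * δ := mul_pos hr hd
  have hRR : RR r δ = 1 + (r * δ) ^ 2 := rfl
  have hR1 : 1 < RR r δ := by
    rw [hRR]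
    have : 0 < (r * δ) ^ 2 := by positivity
    linarith
  have hR0 : 0 < RR r δ := by linarith
  obtain ⟨S, hS⟩ : ∃ S, S = √(RR r δ) := ⟨_, rfl⟩
  have hS2 : S ^ 2 = RR r δ := by rw [hS]; exact Real.sq_sqrt hR0.le
  have hS0 : 0 < S := by rw [hS]; exact Real.sqrt_pos.2 hR0
  have hS1 : 1 < S := by
    by_contra h
    push Not at h
    nlinarith
  have hρS : r * δ < S := by
    by_contra h
    push Not at h
    nlinarith
  have hRS : (r * δ) ^ 2 = S ^ 2 - 1 := by rw [hS2, hRR]; ring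
  rw [← hS]
  refine ⟨by positivity, ?_, by positivity, ?_, ?_, h0, by positivity, ?_, rfl, ?_, ?_, ?_, ?_, ?_, ?_⟩
  · rw [div_lt_one hS0]; exact hS1
  · rw [div_lt_one hS0]; exact hρS
  · rw [div_pow, div_pow, hRS]
    field_simp
    ring
  · field_simp
  · gcongr
  · field_simp
  · field_simp
  · rw [hS]
    simp
  · rw [← hS2]
    field_simp
  · unfold mm
    rw [← hRR, ← hS]
    field_simp

theorem scl {N : ℕ} {r δ : ℝ} (hR : Reg1 N r δ) (η : ℝ) :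
    Scl N r δ η (1 / √(RR r δ)) (r * δ / √(RR r δ)) (hst N) (|η| / hst N) (Gm N r δ) := by
  have hr : 0 < r := by linarith [hR.r0]
  have hd := hR.d0
  have h0 := hst_pos3 hR.N3
  have h1 := scl0 hR.r0 hd h0 η
  have hR0 : 0 < RR r δ := by
    unfold RR
    positivity
  obtain ⟨S, hS⟩ : ∃ S, S = √(RR r δ) := ⟨_, rfl⟩
  have hS2 : S ^ 2 = RR r δ := by rw [hS]; exact Real.sq_sqrt hR0.le
  have hS0 : 0 < S := by rw [hS]; exact Real.sqrt_pos.2 hR0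
  rw [← hS] at h1 ⊢
  have hGe : Gm N r δ = r * (hst N * (1 / S)) ^ 2 := by
    have : Gm N r δ = r * hst N ^ 2 / S ^ 2 := by rw [hS2]; rfl
    rw [this]
    field_simp
  rw [← hGe] at h1
  refine ⟨h1, hst_le3 hR.N3, rfl, rfl, hR.G, ?_, ?_⟩
  · have : (hst N * (1 / S)) ^ 2 = hst N ^ 2 / S ^ 2 := by field_simp
    rw [this, div_le_iff₀ (by positivity), hS2]
    exact hR.I
  · rw [hGe]
    unfold HH
    rw [← hS]
    field_simp

section

variable {N : ℕ} {r δ η c ν h τ Γ : ℝ}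

theorem Scl0.Gpos (s : Scl0 r δ η c ν h τ Γ) : 0 < Γ := by
  have h1 := s.G1
  have h2 := s.c0
  have h3 := s.h0
  have h4 : 0 < 499 / 10 * (h * c) ^ 2 := by positivity
  linarith

theorem Scl0.rpos (s : Scl0 r δ η c ν h τ Γ) : 0 < r := by
  have h1 := s.Gpos
  have h2 := s.c0
  have h3 := s.h0
  rw [s.er]
  positivity

theorem Scl0.r49 (s : Scl0 r δ η c ν h τ Γ) : 499 / 10 ≤ r := by
  have h2 := s.c0
  have h3 := s.h0
  rw [s.er, le_div_iff₀ (by positivity)]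
  exact s.G1

theorem Scl0.rho0 (s : Scl0 r δ η c ν h τ Γ) : 0 < r * δ := by
  rw [s.eρ]
  exact div_pos s.n0 s.c0

/-- `|η|/√R` -/
theorem Scl0.eηR (s : Scl0 r δ η c ν h τ Γ) : |η| / √(RR r δ) = τ * (h * c) := by
  have h2 := s.c0
  rw [s.eR, s.eη]
  field_simp

/-- exponent of the level factor -/
theorem Scl0.eηG (s : Scl0 r δ η c ν h τ Γ) : r * η ^ 2 / RR r δ = Γ * τ ^ 2 := by
  have h2 := s.c0
  have h3 := s.h0
  have h4 : η ^ 2 = (τ * h) ^ 2 := by rw [← s.eη, sq_abs]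
  rw [h4, s.eRR, s.Gr]
  field_simp

/-- the level factor -/
theorem Scl0.LvF (s : Scl0 r δ η c ν h τ Γ) (g q : ℝ) : LvF r δ η g q =
    √(r * c / (2 * Real.pi * ν)) * √(q / c) * Real.exp (g / 2 * Γ * τ ^ 2) := by
  have h2 := s.c0
  have h3 := s.n0
  unfold SokalCen.LvF
  rw [s.eR, s.eηG, s.eρ]
  congr 1
  · congr 1
    · congr 1
      field_simp
    · congr 1
      ring
  · congr 1
    ring

/-- THE IDENTITY of the level factor times a Gaussian -/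
theorem Scl0.P (s : Scl0 r δ η c ν h τ Γ) {g q μ X : ℝ} (hq : 0 ≤ q) (hμ : 0 < μ) (hX : 0 < X) :
    SokalCen.LvF r δ η g q * √(1 + 1 / (μ / c) ^ 2) * √(Real.pi / (r * X)) =
      √(q * (1 + c ^ 2 / μ ^ 2) / (2 * ν * X)) * Real.exp (g / 2 * Γ * τ ^ 2) := by
  have h2 := s.c0
  have h3 := s.n0
  have h4 := s.rpos
  have hpi := Real.pi_pos
  rw [s.LvF g q]
  have e1 : √(r * c / (2 * Real.pi * ν)) * √(q / c) * √(1 + 1 / (μ / c) ^ 2) *
      √(Real.pi / (r * X)) = √(q * (1 + c ^ 2 / μ ^ 2) / (2 * ν * X)) := by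
    rw [← Real.sqrt_mul (by positivity), ← Real.sqrt_mul (by positivity),
      ← Real.sqrt_mul (by positivity)]
    congr 1
    field_simp
  calc √(r * c / (2 * Real.pi * ν)) * √(q / c) * Real.exp (g / 2 * Γ * τ ^ 2) *
        √(1 + 1 / (μ / c) ^ 2) * √(Real.pi / (r * X))
      = (√(r * c / (2 * Real.pi * ν)) * √(q / c) * √(1 + 1 / (μ / c) ^ 2) *
        √(Real.pi / (r * X))) * Real.exp (g / 2 * Γ * τ ^ 2) := by ring
    _ = _ := by rw [e1]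

/-- the same identity without the Gaussian: `P = (h c)⁻¹ √(q (1 + c²/μ²) Γ/(2 π ν)) e^(g Γ τ²/2)` -/
theorem Scl0.P' (s : Scl0 r δ η c ν h τ Γ) {g q μ : ℝ} (hq : 0 ≤ q) (hμ : 0 < μ) :
    SokalCen.LvF r δ η g q * √(1 + 1 / (μ / c) ^ 2) =
      √(q * (1 + c ^ 2 / μ ^ 2) * Γ / (2 * Real.pi * ν)) / (h * c) *
        Real.exp (g / 2 * Γ * τ ^ 2) := by
  have h2 := s.c0
  have h3 := s.n0
  have h4 := s.rpos
  have h5 := s.h0
  have h6 := s.Gpos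
  have hpi := Real.pi_pos
  rw [s.LvF g q]
  have e1 : √(r * c / (2 * Real.pi * ν)) * √(q / c) * √(1 + 1 / (μ / c) ^ 2) =
      √(q * (1 + c ^ 2 / μ ^ 2) * Γ / (2 * Real.pi * ν)) / (h * c) := by
    rw [eq_div_iff (by positivity)]
    have e2 : h * c = √((h * c) ^ 2) := (Real.sqrt_sq (by positivity)).symm
    rw [← Real.sqrt_mul (by positivity), ← Real.sqrt_mul (by positivity)]
    conv_lhs => rw [e2]
    rw [← Real.sqrt_mul (by positivity), s.Gr]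
    congr 1
    field_simp
  calc √(r * c / (2 * Real.pi * ν)) * √(q / c) * Real.exp (g / 2 * Γ * τ ^ 2) *
        √(1 + 1 / (μ / c) ^ 2)
      = (√(r * c / (2 * Real.pi * ν)) * √(q / c) * √(1 + 1 / (μ / c) ^ 2)) *
        Real.exp (g / 2 * Γ * τ ^ 2) := by ring
    _ = _ := by rw [e1]

/-! ### the window -/

theorem Scl.tau_le (s : Scl N r δ η c ν h τ Γ) {a : ℝ} (h1 : |η| ≤ a * hst N) : τ ≤ a := by
  have h2 := s.h0
  rw [s.eη, ← s.eh] at h1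
  exact le_of_mul_le_mul_right h1 h2

theorem Scl.le_tau (s : Scl N r δ η c ν h τ Γ) {a : ℝ} (h1 : a * hst N ≤ |η|) : a ≤ τ := by
  have h2 := s.h0
  rw [s.eη, ← s.eh] at h1
  exact le_of_mul_le_mul_right h1 h2

/-- `|η| ≤ eo1`, `Γ < 10` -/
theorem Scl.eoA (s : Scl N r δ η c ν h τ Γ) (hG : Gm N r δ < 10) (h1 : |η| ≤ eo1 N r δ) :
    τ ≤ 3 / 4 := by
  apply s.tau_le
  have : om1 N r δ = 1 / 4 := by unfold om1; rw [if_pos hG]
  unfold eo1 at h1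
  rw [this] at h1
  linarith

/-- `|η| ≤ eo1`, `10 ≤ Γ < 20` -/
theorem Scl.eoB (s : Scl N r δ η c ν h τ Γ) (hG : 10 ≤ Gm N r δ) (hG2 : Gm N r δ < 20)
    (h1 : |η| ≤ eo1 N r δ) : τ ≤ 13 / 20 := by
  apply s.tau_le
  have : om1 N r δ = 3 / 20 := by unfold om1; rw [if_neg (not_lt.2 hG), if_pos hG2]
  unfold eo1 at h1
  rw [this] at h1
  linarith

/-- `|η| ≤ eo1`, `20 ≤ Γ` -/
theorem Scl.eoC (s : Scl N r δ η c ν h τ Γ) (hG : 20 ≤ Gm N r δ) (h1 : |η| ≤ eo1 N r δ) :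
    τ ≤ 3 / 5 := by
  apply s.tau_le
  have : om1 N r δ = 1 / 10 := by
    unfold om1; rw [if_neg (not_lt.2 (by linarith)), if_neg (not_lt.2 hG)]
  unfold eo1 at h1
  rw [this] at h1
  linarith

/-- `ei1 ≤ |η|`, `Γ < 10` -/
theorem Scl.eiA (s : Scl N r δ η c ν h τ Γ) (hG : Gm N r δ < 10) (h1 : ei1 N r δ ≤ |η|) :
    1 / 4 ≤ τ := by
  apply s.le_tau
  have : om1 N r δ = 1 / 4 := by unfold om1; rw [if_pos hG]
  unfold ei1 at h1
  rw [this] at h1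
  linarith

theorem Scl.eiB (s : Scl N r δ η c ν h τ Γ) (hG : 10 ≤ Gm N r δ) (hG2 : Gm N r δ < 20)
    (h1 : ei1 N r δ ≤ |η|) : 7 / 20 ≤ τ := by
  apply s.le_tau
  have : om1 N r δ = 3 / 20 := by unfold om1; rw [if_neg (not_lt.2 hG), if_pos hG2]
  unfold ei1 at h1
  rw [this] at h1
  linarith

theorem Scl.eiC (s : Scl N r δ η c ν h τ Γ) (hG : 20 ≤ Gm N r δ) (h1 : ei1 N r δ ≤ |η|) :
    2 / 5 ≤ τ := by
  apply s.le_tau
  have : om1 N r δ = 1 / 10 := by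
    unfold om1; rw [if_neg (not_lt.2 (by linarith)), if_neg (not_lt.2 hG)]
  unfold ei1 at h1
  rw [this] at h1
  linarith

/-- `|η| ≤ ei1`, `Γ < 10` -/
theorem Scl.inA (s : Scl N r δ η c ν h τ Γ) (hG : Gm N r δ < 10) (h1 : |η| ≤ ei1 N r δ) :
    τ ≤ 1 / 4 := by
  apply s.tau_le
  have : om1 N r δ = 1 / 4 := by unfold om1; rw [if_pos hG]
  unfold ei1 at h1
  rw [this] at h1
  linarith

theorem Scl.inB (s : Scl N r δ η c ν h τ Γ) (hG : 10 ≤ Gm N r δ) (hG2 : Gm N r δ < 20)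
    (h1 : |η| ≤ ei1 N r δ) : τ ≤ 7 / 20 := by
  apply s.tau_le
  have : om1 N r δ = 3 / 20 := by unfold om1; rw [if_neg (not_lt.2 hG), if_pos hG2]
  unfold ei1 at h1
  rw [this] at h1
  linarith

theorem Scl.inC (s : Scl N r δ η c ν h τ Γ) (hG : 20 ≤ Gm N r δ) (h1 : |η| ≤ ei1 N r δ) :
    τ ≤ 2 / 5 := by
  apply s.tau_le
  have : om1 N r δ = 1 / 10 := by
    unfold om1; rw [if_neg (not_lt.2 (by linarith)), if_neg (not_lt.2 hG)]
  unfold ei1 at h1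
  rw [this] at h1
  linarith

/-! ### the angle `θ = η + ζ`, `ζ = ± i h` -/

/-- left: `η + i h = t = (i + τ) h ≤ π` -/
theorem Scl.tL (s : Scl N r δ η c ν h τ Γ) (hη : 0 ≤ η) {i : ℝ} :
    η + i * hst N = (i + τ) * h := by
  have h1 := s.eη
  rw [abs_of_nonneg hη] at h1
  rw [h1, ← s.eh]
  ring

/-- right: `η - i h = -t`, `t = (i + τ) h ≤ π` -/
theorem Scl.tR (s : Scl N r δ η c ν h τ Γ) (hη : η ≤ 0) {i : ℝ} :
    η + -(i * hst N) = -((i + τ) * h) := by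
  have h1 := s.eη
  rw [abs_of_nonpos hη] at h1
  rw [← s.eh]
  linarith

end

/-! ### the two charts of the arc `c² + ν² = 1` -/

/-- the arc is covered -/
theorem chart {c ν : ℝ} (h : c ^ 2 + ν ^ 2 = 1) : c ≤ 7 / 10 ∨ ν ≤ 18 / 25 := by
  by_contra hn
  push Not at hn
  obtain ⟨h1, h2⟩ := hn
  nlinarith

/-- the interval of the other variable -/
theorem chart_c {c ν : ℝ} {a : I} (hc : Mem c a) (h : c ^ 2 + ν ^ 2 = 1) (hν : 0 ≤ ν) :
    Mem ν (ico a) := Mem.co hc h hν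

theorem chart_n {c ν : ℝ} {a : I} (hn : Mem ν a) (h : c ^ 2 + ν ^ 2 = 1) (hc : 0 ≤ c) :
    Mem c (ico a) := Mem.co hn (by linarith) hc

/-- REDUCTION, both sides: a statement on the scaled variables gives the statement for `Reg1`. -/
theorem reduce {N : ℕ} {r δ η : ℝ} (hR : Reg1 N r δ) {P : Prop}
    (H : ∀ c ν h τ Γ : ℝ, Scl N r δ η c ν h τ Γ → (c ≤ 7 / 10 ∨ ν ≤ 18 / 25) → P) : P :=
  H _ _ _ _ _ (scl hR η) (chart (scl hR η).cn)

end SokalCel
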