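import Pool.Agent.Lib_MP_af4de1_v3.ShfH
import Pool.Agent.Lib_MP_af4de1_v3.CelCov

/-!
# SHIFT, field `e` (both sides): reduction

`ζ ≥ 2h`: the general `d` (every real shift), `DGL`, `DGR`.
`h ≤ |ζ| ≤ 2h`: `E1L`, `E1R` are the estimates in the units `h' = |ζ|`, `H' = r h'/√R`, with the targets
`3/200`, `(3/100) h/h'`, `(h/h')²`.  With `τ' = eo1/h' = τ0 h/h'`, `Γ' = r h'²/R` the point
`(c, ν, h', τ', Γ')` lies in `DomE τ0 G0`.
-/

set_option autoImplicit false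

namespace SokalCen

open SokalU SokalF1 SokalF1S SokalF1M SokalV3

/-- general `d`, left: every real shift -/
def DGL : Prop := ∀ (N i : ℕ) (r δ y η ζ : ℝ), Reg1 N r δ → At r δ y η → Sad1 N r δ y →
  0 ≤ η → η ≤ eo1 N r δ → 2 ≤ i → i * hst N ≤ ζ → η + ζ ≤ Real.pi →
  Shf r δ y ζ (HH N r δ) ((1 / 2) ^ i / 100) ((1 / 2) ^ i / 100) ((1 / 2) ^ i / 100)

/-- general `d`, right: every real shift -/
def DGR : Prop := ∀ (N i : ℕ) (r δ y η ζ : ℝ), Reg1 N r δ → At r δ y η → Sad1 N r δ y →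
  η ≤ 0 → -eo1 N r δ ≤ η → 2 ≤ i → ζ ≤ -(i * hst N) → -Real.pi ≤ η + ζ →
  Shf r δ y ζ (HH N r δ) ((1 / 2) ^ i / 100) ((1 / 2) ^ i / 100) ((1 / 2) ^ i / 100)

/-- `h ≤ ζ ≤ 2h`, left, in the units of `ζ` -/
def E1L : Prop := ∀ (N : ℕ) (r δ y ζ : ℝ), Reg1 N r δ → At r δ y (eo1 N r δ) → Sad1 N r δ y →
  hst N ≤ ζ → ζ ≤ 2 * hst N → eo1 N r δ + ζ ≤ Real.pi →
  Shf r δ y ζ (r * ζ / √(RR r δ)) (3 / 200) (3 / 100 * (hst N / ζ)) ((hst N / ζ) ^ 2)

/-- `h ≤ |ζ| ≤ 2h`, right (`ζ = -z`), in the units of `z` -/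
def E1R : Prop := ∀ (N : ℕ) (r δ y z : ℝ), Reg1 N r δ → At r δ y (-eo1 N r δ) → Sad1 N r δ y →
  hst N ≤ z → z ≤ 2 * hst N → eo1 N r δ + z ≤ Real.pi →
  Shf r δ y (-z) (r * z / √(RR r δ)) (3 / 200) (3 / 100 * (hst N / z)) ((hst N / z) ^ 2)

private theorem hst_pos {N : ℕ} (hN : N ≠ 0) : 0 < hst N := by
  have h : (1 : ℝ) ≤ N := by exact_mod_cast Nat.one_le_iff_ne_zero.2 hN
  have := Real.pi_pos
  unfold hst
  positivity

private theorem two_pi_hst {N : ℕ} (hN : N ≠ 0) : (N : ℝ) * hst N = 2 * Real.pi := by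
  have h : (N : ℝ) ≠ 0 := by exact_mod_cast hN
  unfold hst
  field_simp

private theorem HH_pos {N : ℕ} {r δ : ℝ} (hN : N ≠ 0) (hr : 0 < r) : 0 < HH N r δ := by
  have h := hst_pos hN
  have hR : 0 < RR r δ := by unfold RR; positivity
  unfold HH
  positivity

private theorem om1_pos {N : ℕ} {r δ : ℝ} : 0 < om1 N r δ := by
  unfold om1; split_ifs <;> norm_num

private theorem she_unit {N : ℕ} {r δ y ζ z : ℝ} (hR : Reg1 N r δ) (hz : hst N ≤ z)
    (h : Shf r δ y ζ (r * z / √(RR r δ)) (3 / 200) (3 / 100 * (hst N / z)) ((hst N / z) ^ 2)) :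
    Shf r δ y ζ (HH N r δ) (3 / 200) (3 / 100) 1 := by
  have hh := hst_pos (N := N) (by have := hR.N3; omega)
  have hz0 : 0 < z := hh.trans_le hz
  have h1 := shf_scale (H := HH N r δ) (s := z / hst N) h (by
    unfold HH
    field_simp)
  have e1 : 3 / 100 * (hst N / z) * (z / hst N) = 3 / 100 := by field_simp
  have e2 : (hst N / z) ^ 2 * (z / hst N) ^ 2 = 1 := by field_simp
  rwa [e1, e2] at h1

private theorem she_half (i : ℕ) (hi : 1 ≤ i) : (0 : ℝ) < (1 / 2) ^ i ∧ ((1 / 2 : ℝ)) ^ i ≤ 1 / 2 := by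
  refine ⟨by positivity, ?_⟩
  calc ((1 / 2 : ℝ)) ^ i ≤ (1 / 2) ^ 1 := pow_le_pow_of_le_one (by norm_num) (by norm_num) hi
    _ = 1 / 2 := by norm_num

private theorem eo1_nonneg {N : ℕ} {r δ : ℝ} (hR : Reg1 N r δ) : 0 ≤ eo1 N r δ := by
  have hh := hst_pos (N := N) (by have := hR.N3; omega)
  have ho := om1_pos (N := N) (r := r) (δ := δ)
  unfold eo1
  positivity

/-- FIELD e, LEFT -/
theorem shfL_e_of (D : DGL) (E : E1L) : ∀ (N i : ℕ) (r δ y ζ : ℝ), Reg1 N r δ →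
    At r δ y (eo1 N r δ) → Sad1 N r δ y → 1 ≤ i → i * hst N ≤ ζ → eo1 N r δ + ζ ≤ Real.pi →
    Shf r δ y ζ (HH N r δ) ((1 / 2) ^ i * (3 / 100)) ((1 / 2) ^ i * (3 / 50)) 1 := by
  intro N i r δ y ζ hR hA hS hi h1 h2
  have hh := hst_pos (N := N) (by have := hR.N3; omega)
  have hH := HH_pos (N := N) (r := r) (δ := δ) (by have := hR.N3; omega) (by have := hR.r0; linarith)
  have he := eo1_nonneg hR
  rcases Nat.lt_or_ge i 2 with h | h
  · have hi1 : i = 1 := by omega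
    subst hi1
    rw [Nat.cast_one, one_mul] at h1
    rcases le_total ζ (2 * hst N) with h3 | h3
    · exact shf_mono (she_unit hR h1 (E N r δ y ζ hR hA hS h1 h3 h2)) hA.y1 hH.le (by norm_num)
        (by norm_num) le_rfl
    · exact shf_mono (D N 2 r δ y _ ζ hR hA hS he le_rfl le_rfl (by exact_mod_cast h3) h2) hA.y1
        hH.le (by norm_num) (by norm_num) (by norm_num)
  · obtain ⟨p0, p1⟩ := she_half i hi
    exact shf_mono (D N i r δ y _ ζ hR hA hS he le_rfl h h1 h2) hA.y1 hH.le (by linarith)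
      (by linarith) (by linarith)

/-- FIELD e, RIGHT -/
theorem shfR_e_of (D : DGR) (E : E1R) : ∀ (N i : ℕ) (r δ y ζ : ℝ), Reg1 N r δ →
    At r δ y (-eo1 N r δ) → Sad1 N r δ y → 1 ≤ i → ζ ≤ -(i * hst N) →
    -Real.pi ≤ -eo1 N r δ + ζ →
    Shf r δ y ζ (HH N r δ) ((1 / 2) ^ i * (3 / 100)) ((1 / 2) ^ i * (3 / 50)) 1 := by
  intro N i r δ y ζ hR hA hS hi h1 h2
  have hh := hst_pos (N := N) (by have := hR.N3; omega)
  have hH := HH_pos (N := N) (r := r) (δ := δ) (by have := hR.N3; omega) (by have := hR.r0; linarith)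
  have he := eo1_nonneg hR
  rcases Nat.lt_or_ge i 2 with h | h
  · have hi1 : i = 1 := by omega
    subst hi1
    rw [Nat.cast_one, one_mul] at h1
    rcases le_total (-ζ) (2 * hst N) with h3 | h3
    · have h4 := E N r δ y (-ζ) hR hA hS (by linarith) h3 (by linarith)
      rw [neg_neg] at h4
      exact shf_mono (she_unit hR (by linarith) h4) hA.y1 hH.le (by norm_num)
        (by norm_num) le_rfl
    · exact shf_mono (D N 2 r δ y _ ζ hR hA hS (by linarith) le_rfl le_rfl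
        (by push_cast; linarith) h2) hA.y1
        hH.le (by norm_num) (by norm_num) (by norm_num)
  · obtain ⟨p0, p1⟩ := she_half i hi
    exact shf_mono (D N i r δ y _ ζ hR hA hS (by linarith) le_rfl h h1 h2) hA.y1 hH.le (by linarith)
      (by linarith) (by linarith)

/-! ### the domain of the scaled variables -/

/-- the scaled variables of `e`, `i = 1`: `h = |ζ|`, `τ = eo1/|ζ|`, `Γ = r ζ²/R` -/
structure DomE (τ0 G0 c ν h τ Γ : ℝ) : Prop where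
  c0 : 0 < c
  n0 : 0 < ν
  cn : c ^ 2 + ν ^ 2 = 1
  h0 : 0 < h
  u1 : τ0 / 2 ≤ τ
  u2 : τ ≤ τ0
  t : (1 + τ) * h ≤ Real.pi
  /-- `N ≥ 4` -/
  N4 : τ * h ≤ τ0 * (Real.pi / 2)
  G : G0 * τ0 ^ 2 ≤ Γ * τ ^ 2
  R : 499 / 10 * (h * c) ^ 2 ≤ Γ
  I : (τ * h * c) ^ 2 ≤ 11 / 10 * τ0 ^ 2

theorem eoe_A {N : ℕ} {r δ : ℝ} (h : Gm N r δ < 10) : eo1 N r δ = 3 / 4 * hst N := by
  unfold eo1 om1
  rw [if_pos h]
  ring

theorem eoe_B {N : ℕ} {r δ : ℝ} (h : 10 ≤ Gm N r δ) (h2 : Gm N r δ < 20) :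
    eo1 N r δ = 13 / 20 * hst N := by
  unfold eo1 om1
  rw [if_neg (not_lt.2 h), if_pos h2]
  ring

theorem eoe_C {N : ℕ} {r δ : ℝ} (h : 20 ≤ Gm N r δ) : eo1 N r δ = 3 / 5 * hst N := by
  unfold eo1 om1
  rw [if_neg (not_lt.2 (by linarith)), if_neg (not_lt.2 h)]
  ring

/-- `N ≥ 4` -/
theorem N4_of {N : ℕ} {r δ z : ℝ} (hR : Reg1 N r δ) (h1 : hst N ≤ z)
    (h3 : eo1 N r δ + z ≤ Real.pi) : 4 ≤ N ∧ hst N ≤ Real.pi / 2 := by
  have hh := hst_pos (N := N) (by have := hR.N3; omega)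
  have h2 := two_pi_hst (N := N) (by have := hR.N3; omega)
  have ho := om1_pos (N := N) (r := r) (δ := δ)
  have hN : 4 ≤ N := by
    by_contra hc
    have h4 : N = 3 := by have := hR.N3; omega
    have h5 : (N : ℝ) = 3 := by exact_mod_cast h4
    rw [h5] at h2
    have h6 : 1 / 2 * hst N < eo1 N r δ := by
      unfold eo1
      nlinarith
    nlinarith
  refine ⟨hN, ?_⟩
  have h5 : (4 : ℝ) ≤ N := by exact_mod_cast hN
  nlinarith

theorem domE {N : ℕ} {r δ z τ0 G0 : ℝ} (hR : Reg1 N r δ) (hτ0 : 0 < τ0)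
    (hτ : eo1 N r δ = τ0 * hst N) (hG : G0 ≤ Gm N r δ) (h1 : hst N ≤ z) (h2 : z ≤ 2 * hst N)
    (h3 : eo1 N r δ + z ≤ Real.pi) :
    DomE τ0 G0 (1 / √(RR r δ)) (r * δ / √(RR r δ)) z (eo1 N r δ / z) (r * z ^ 2 / RR r δ) := by
  have hr : 0 < r := by linarith [hR.r0]
  have hd := hR.d0
  have hh := hst_pos (N := N) (by have := hR.N3; omega)
  have hz : 0 < z := hh.trans_le h1
  obtain ⟨_, hN4⟩ := N4_of hR h1 h3
  have hRR : RR r δ = 1 + (r * δ) ^ 2 := rfl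
  have hR0 : 0 < RR r δ := by rw [hRR]; positivity
  have hS0 : 0 < √(RR r δ) := Real.sqrt_pos.2 hR0
  have hS2 : √(RR r δ) ^ 2 = RR r δ := Real.sq_sqrt hR0.le
  have hI := hR.I
  have hGm : Gm N r δ = r * hst N ^ 2 / RR r δ := rfl
  refine ⟨by positivity, by positivity, ?_, hz, ?_, ?_, ?_, ?_, ?_, ?_, ?_⟩
  · rw [div_pow, div_pow, hS2, ← add_div, div_eq_one_iff_eq hR0.ne', hRR]
    ring
  · rw [hτ, div_le_div_iff₀ (by norm_num) hz]
    nlinarith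
  · rw [hτ, div_le_iff₀ hz]
    exact mul_le_mul_of_nonneg_left h1 hτ0.le
  · have : (1 + eo1 N r δ / z) * z = eo1 N r δ + z := by field_simp; ring
    rw [this]
    exact h3
  · have : eo1 N r δ / z * z = eo1 N r δ := by field_simp
    rw [this, hτ]
    exact mul_le_mul_of_nonneg_left hN4 hτ0.le
  · have : r * z ^ 2 / RR r δ * (eo1 N r δ / z) ^ 2 = Gm N r δ * τ0 ^ 2 := by
      rw [hτ, hGm]
      field_simp
    rw [this]
    exact mul_le_mul_of_nonneg_right hG (sq_nonneg _)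
  · have : (z * (1 / √(RR r δ))) ^ 2 = z ^ 2 / RR r δ := by
      rw [mul_pow, div_pow, hS2]
      ring
    rw [this, mul_div_assoc]
    exact mul_le_mul_of_nonneg_right hR.r0 (by positivity)
  · have : (eo1 N r δ / z * z * (1 / √(RR r δ))) ^ 2 = hst N ^ 2 / RR r δ * τ0 ^ 2 := by
      have e : eo1 N r δ / z * z = τ0 * hst N := by rw [← hτ]; field_simp
      rw [e, mul_pow, mul_pow, div_pow, hS2]
      ring
    rw [this]
    refine mul_le_mul_of_nonneg_right ?_ (sq_nonneg _)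
    rw [div_le_iff₀ hR0]
    exact hI

end SokalCen
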