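import Pool.Agent.Lib_MP_af4de1_v3.DzNum
import Pool.Agent.Lib_MP_af4de1_v3.LevC2
import Pool.Agent.Lib_MP_af4de1_v3.LevL
import Pool.Agent.Lib_MP_af4de1_v3.ShfE0

/-!
# Fields `d`: from the statement (S) at `y = 0` to `DGL`, `DGR` (every real shift) (helper48)
-/

set_option autoImplicit false

namespace SokalDz

open SokalU SokalF1 SokalF1S SokalF1M SokalV3 SokalCen

theorem lev_mono {r δ y η g k q g' k' q' : ℝ} (hr : 0 ≤ r) (h : Lev r δ y η g k q) (hg : g ≤ g')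
    (hk : k ≤ k') (hq : q ≤ q') : Lev r δ y η g' k' q' := by
  have hR : 0 < RR r δ := by unfold RR; positivity
  refine ⟨h.l0.trans ?_, h.l1.trans ?_, h.l2.trans ?_⟩
  · exact mul_le_mul_of_nonneg_right (by linarith) (by positivity)
  · exact mul_le_mul_of_nonneg_right hk (by positivity)
  · exact mul_le_mul_of_nonneg_right hq (Real.sqrt_nonneg _)

theorem abs_le_pi5 {N : ℕ} (hN : 3 ≤ N) {a : ℝ} (h1 : a ≤ 3 / 5 * hst N)
    (h2 : a + 2 * hst N ≤ Real.pi) : a ≤ Real.pi / 5 := by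
  have hpi := Real.pi_pos
  have hN0 : (0 : ℝ) < N := by exact_mod_cast (by omega : 0 < N)
  have hh : (N : ℝ) * hst N = 2 * Real.pi := by
    unfold hst
    field_simp
  have hh0 : 0 < hst N := by
    unfold hst
    positivity
  rcases Nat.lt_or_ge N 6 with h | h
  · have h3 : (N : ℝ) ≤ 5 := by exact_mod_cast (by omega : N ≤ 5)
    have h4 : 2 * Real.pi ≤ 5 * hst N := by
      rw [← hh]
      exact mul_le_mul_of_nonneg_right h3 hh0.le
    linarith
  · have h3 : (6 : ℝ) ≤ N := by exact_mod_cast h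
    have h4 : 6 * hst N ≤ 2 * Real.pi := by
      rw [← hh]
      exact mul_le_mul_of_nonneg_right h3 hh0.le
    linarith

theorem shf_mono' {r δ y ζ H f0 f1 f2 g0 g1 g2 : ℝ} (h : Shf r δ y ζ H f0 f1 f2) (hy : -1 < y)
    (hH : 0 ≤ H) (h0 : f0 ≤ g0) (h1 : f1 ≤ g1) (h2 : f2 ≤ g2) : Shf r δ y ζ H g0 g1 g2 := by
  have hM := (sM_pos (r := r) (δ := δ) hy).le
  refine ⟨h.s0.trans ?_, h.s1.trans ?_, h.s2.trans ?_⟩
  · exact mul_le_mul_of_nonneg_right h0 hM
  · exact mul_le_mul_of_nonneg_right (mul_le_mul_of_nonneg_right h1 hH) hM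
  · exact mul_le_mul_of_nonneg_right (mul_le_mul_of_nonneg_right h2 (by positivity)) hM

theorem Fd_nonneg (r ρ X : ℝ) : 0 ≤ Fd r ρ X := by
  unfold Fd
  split_ifs <;> positivity

/-- the common part of both sides -/
theorem dz_core {N i : ℕ} {r δ y η ζ θ a z g k q : ℝ} (hR : Reg1 N r δ) (hA : At r δ y η)
    (hθ : η + ζ = θ) (ha : |η| = a) (hi : 2 ≤ i) (hz : i * hst N ≤ z) (haz : a + z ≤ Real.pi)
    (hcls : Cls (Gm N r δ) (a / hst N) g k q) (hL : Lev r δ y η g k q)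
    (h5 : 20 ≤ Gm N r δ → a ≤ Real.pi / 5)
    (hS : Shf r δ 0 θ (HH N r δ) (Fd r (r * δ) (r * (a + z) ^ 2 / (1 + (r * δ) ^ 2)))
      (Fd r (r * δ) (r * (a + z) ^ 2 / (1 + (r * δ) ^ 2)))
      (Fd r (r * δ) (r * (a + z) ^ 2 / (1 + (r * δ) ^ 2)))) :
    Shf r δ y ζ (HH N r δ) ((1 / 2) ^ i / 100) ((1 / 2) ^ i / 100) ((1 / 2) ^ i / 100) := by
  have hpi := Real.pi_pos
  have hr : 0 < r := by linarith [hR.r0]
  have hδ := hR.d0
  have hh := psa_hst_pos (N := N) (le_trans (by norm_num) hR.N3)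
  have hRR : 0 < RR r δ := by unfold RR; positivity
  have hH : 0 < HH N r δ := by
    unfold HH
    positivity
  have ha0 : 0 ≤ a := by rw [← ha]; exact abs_nonneg _
  have hi2 : (2 : ℝ) ≤ i := by exact_mod_cast hi
  have hz0 : 0 ≤ z := le_trans (by positivity) hz
  set t := a / hst N with ht
  set s := z / hst N with hs
  have ht0 : 0 ≤ t := by positivity
  have his : (i : ℝ) ≤ s := by rwa [hs, le_div_iff₀ hh]
  have eX : Gm N r δ * (s + t) ^ 2 = r * (a + z) ^ 2 / (1 + (r * δ) ^ 2) := by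
    unfold Gm RR
    rw [hs, ht]
    field_simp
    ring
  have eη : Gm N r δ * t ^ 2 = r * η ^ 2 / RR r δ := by
    unfold Gm
    rw [ht, ← sq_abs η, ha]
    field_simp
  have hπ2 : Real.pi ^ 2 ≤ 987 / 100 := by
    have := Real.pi_lt_d4
    nlinarith
  have hXQ : Gm N r δ * (s + t) ^ 2 ≤ 987 / 100 * (r / (1 + (r * δ) ^ 2)) := by
    rw [eX, mul_div_assoc']
    refine div_le_div_of_nonneg_right ?_ (by positivity)
    have h1 : (a + z) ^ 2 ≤ Real.pi ^ 2 := pow_le_pow_left₀ (by positivity) haz 2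
    nlinarith
  have hηQ : 20 ≤ Gm N r δ → Gm N r δ * t ^ 2 ≤ 79 / 200 * (r / (1 + (r * δ) ^ 2)) := by
    intro hG
    rw [eη, mul_div_assoc']
    refine div_le_div_of_nonneg_right ?_ (by positivity)
    have h1 : η ^ 2 ≤ (Real.pi / 5) ^ 2 := by
      rw [← sq_abs η, ha]
      exact pow_le_pow_left₀ ha0 (h5 hG) 2
    nlinarith
  have hnum := dz_num (F := Fd r (r * δ) (r * (a + z) ^ 2 / (1 + (r * δ) ^ 2))) hcls ht0 hi his
    hR.r0 (by positivity : 0 ≤ r / (1 + (r * δ) ^ 2)) hXQ hηQ (by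
      unfold Fd
      rw [eX])
  set F := Fd r (r * δ) (r * (a + z) ^ 2 / (1 + (r * δ) ^ 2)) with hF
  have hF0 : 0 ≤ F := Fd_nonneg _ _ _
  have hk0 := hcls.k0
  have hq0 := hcls.q0
  have key := shf_of_y0 (lam := √q * Real.exp (g / 2 * (Gm N r δ * t ^ 2))) (kt := k * t)
    hr hδ hA hL hq0.le hθ (by rw [eη]) hH.le (by positivity) (by
      refine le_of_eq ?_
      unfold HH
      rw [ha, ht]
      field_simp) hF0 hF0 hF0 hS
  have hlam : 0 ≤ √q * Real.exp (g / 2 * (Gm N r δ * t ^ 2)) := by positivity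
  have hkt : 0 ≤ k * t := by positivity
  refine shf_mono' key hA.y1 hH.le (le_trans ?_ hnum) (le_trans ?_ hnum) (le_trans ?_ hnum)
  · rw [mul_assoc _ ((1 + k * t) ^ 2)]
    refine mul_le_mul_of_nonneg_left ?_ hlam
    nlinarith [mul_nonneg hkt hF0, mul_nonneg (sq_nonneg (k * t)) hF0]
  · rw [mul_assoc _ ((1 + k * t) ^ 2)]
    refine mul_le_mul_of_nonneg_left ?_ hlam
    nlinarith [mul_nonneg hkt hF0, mul_nonneg (sq_nonneg (k * t)) hF0]
  · rw [mul_assoc _ ((1 + k * t) ^ 2)]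
    refine mul_le_mul_of_nonneg_left (le_of_eq ?_) hlam
    ring

private theorem eo1_A {N : ℕ} {r δ : ℝ} (hG : Gm N r δ < 10) : eo1 N r δ = 3 / 4 * hst N := by
  unfold eo1 om1
  rw [if_pos hG]
  norm_num

private theorem eo1_B {N : ℕ} {r δ : ℝ} (hG : 10 ≤ Gm N r δ) (hG2 : Gm N r δ < 20) :
    eo1 N r δ = 13 / 20 * hst N := by
  unfold eo1 om1
  rw [if_neg (not_lt.2 hG), if_pos hG2]
  norm_num

private theorem eo1_C {N : ℕ} {r δ : ℝ} (hG : 20 ≤ Gm N r δ) : eo1 N r δ = 3 / 5 * hst N := by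
  unfold eo1 om1
  rw [if_neg (not_lt.2 (by linarith)), if_neg (not_lt.2 hG)]
  norm_num

/-- the hypotheses of (S) -/
theorem hypD_of {N i : ℕ} {r δ a z : ℝ} (hR : Reg1 N r δ) (ha0 : 0 ≤ a) (hi : 2 ≤ i)
    (hz : i * hst N ≤ z) (haz : a + z ≤ Real.pi) : HypD r (r * δ) (a + z) ∧
      0 < HH N r δ ∧ 27 / 5 * r ≤ HH N r δ ^ 2 := by
  have hr : 0 < r := by linarith [hR.r0]
  have hδ := hR.d0
  have hh := psa_hst_pos (N := N) (le_trans (by norm_num) hR.N3)
  have hRR : 0 < RR r δ := by unfold RR; positivity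
  have hi2 : (2 : ℝ) ≤ i := by exact_mod_cast hi
  have hz2 : 2 * hst N ≤ z := le_trans (mul_le_mul_of_nonneg_right hi2 hh.le) hz
  have hG := hR.G
  refine ⟨⟨by positivity, hR.r0, by linarith, haz, ?_⟩, ?_, ?_⟩
  · have h1 : (2 * hst N) ^ 2 ≤ (a + z) ^ 2 := pow_le_pow_left₀ (by positivity) (by linarith) 2
    have h2 : r * (2 * hst N) ^ 2 / RR r δ ≤ r * (a + z) ^ 2 / RR r δ := by gcongr
    have h3 : r * (2 * hst N) ^ 2 / RR r δ = 4 * Gm N r δ := by
      unfold Gm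
      ring
    rw [h3] at h2
    have e : RR r δ = 1 + (r * δ) ^ 2 := rfl
    rw [← e]
    linarith
  · unfold HH
    positivity
  · have e : HH N r δ ^ 2 = r * Gm N r δ := by
      unfold HH Gm
      rw [div_pow, Real.sq_sqrt hRR.le]
      ring
    rw [e]
    nlinarith

/-- LEFT -/
theorem dgl (hP : PDL) : DGL := by
  intro N i r δ y η ζ hR hA hS h0 h1 hi h2 h3
  have hr : 0 < r := by linarith [hR.r0]
  have hh := psa_hst_pos (N := N) (le_trans (by norm_num) hR.N3)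
  have hi2 : (2 : ℝ) ≤ i := by exact_mod_cast hi
  have hz2 : 2 * hst N ≤ ζ := le_trans (mul_le_mul_of_nonneg_right hi2 hh.le) h2
  obtain ⟨H1, H2, H3⟩ := hypD_of hR h0 hi h2 h3
  have hSh := hP r δ (η + ζ) (HH N r δ) hR.d0 H1 H2 H3
  have hlev := levL hR hA hS h0 h1
  have hG := hR.G
  rcases lt_or_ge (Gm N r δ) 10 with g1 | g1
  · have e := eo1_A g1
    exact dz_core hR hA rfl (abs_of_nonneg h0) hi h2 h3
      (Cls.A hG g1 (by rw [div_le_iff₀ hh]; linarith))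
      (lev_mono hr.le hlev (by norm_num) (by norm_num) (by norm_num))
      (fun h => absurd h (by linarith)) hSh
  rcases lt_or_ge (Gm N r δ) 20 with g2 | g2
  · have e := eo1_B g1 g2
    exact dz_core hR hA rfl (abs_of_nonneg h0) hi h2 h3
      (Cls.B g1 g2 (by rw [div_le_iff₀ hh]; linarith))
      (lev_mono hr.le hlev (by norm_num) (by norm_num) (by norm_num))
      (fun h => absurd h (by linarith)) hSh
  · have e := eo1_C g2
    exact dz_core hR hA rfl (abs_of_nonneg h0) hi h2 h3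
      (Cls.C g2 (by rw [div_le_iff₀ hh]; linarith))
      (lev_mono hr.le hlev (by norm_num) (by norm_num) (by norm_num))
      (fun _ => abs_le_pi5 hR.N3 (by linarith) (by linarith)) hSh

/-- RIGHT -/
theorem dgr (hP : PDR) : DGR := by
  intro N i r δ y η ζ hR hA hS h0 h1 hi h2 h3
  have hr : 0 < r := by linarith [hR.r0]
  have hh := psa_hst_pos (N := N) (le_trans (by norm_num) hR.N3)
  have hi2 : (2 : ℝ) ≤ i := by exact_mod_cast hi
  have h2' : i * hst N ≤ -ζ := by linarith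
  have hz2 : 2 * hst N ≤ -ζ := le_trans (mul_le_mul_of_nonneg_right hi2 hh.le) h2'
  have h3' : -η + -ζ ≤ Real.pi := by linarith
  have h0' : 0 ≤ -η := by linarith
  obtain ⟨H1, H2, H3⟩ := hypD_of hR h0' hi h2' h3'
  have hSh := hP r δ (-η + -ζ) (HH N r δ) hR.d0 H1 H2 H3
  have hθ : η + ζ = -(-η + -ζ) := by ring
  have hab : |η| = -η := abs_of_nonpos h0
  have hG := hR.G
  rcases lt_or_ge (Gm N r δ) 10 with g1 | g1
  · have e := eo1_A g1
    exact dz_core hR hA hθ hab hi h2' h3'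
      (Cls.A hG g1 (by rw [div_le_iff₀ hh]; linarith))
      (levR_A hR hA h0 h1 g1) (fun h => absurd h (by linarith)) hSh
  rcases lt_or_ge (Gm N r δ) 20 with g2 | g2
  · have e := eo1_B g1 g2
    exact dz_core hR hA hθ hab hi h2' h3'
      (Cls.B g1 g2 (by rw [div_le_iff₀ hh]; linarith))
      (levR_B hR hA h0 h1 g1 g2) (fun h => absurd h (by linarith)) hSh
  · have e := eo1_C g2
    have h5 : -η ≤ Real.pi / 5 := abs_le_pi5 hR.N3 (by linarith) (by linarith)
    exact dz_core hR hA hθ hab hi h2' h3'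
      (Cls.C g2 (by rw [div_le_iff₀ hh]; linarith))
      (levR_C2 hR hA h0 h1 (by linarith) g2) (fun _ => h5) hSh

end SokalDz
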