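import Pool.Agent.Lib_MP_af4de1_v3.DzRL7

/-!
# `PRealDL`, `X ≤ 80`, the far groups (helper25)
-/

set_option autoImplicit false

namespace SokalDz

open Real MeasureTheory Set SokalCen SokalV3

variable {r ρ t p y x X : ℝ}

theorem fk_sqrt {r : ℝ} (hr : 0 ≤ r) : √r ≤ 7072 / 100000 * (r + 50) := by
  rw [Real.sqrt_le_left (by positivity)]
  nlinarith [sq_nonneg (r - 50)]

/-- `1/y ≤ .457 r` -/
theorem Pr.ry (h : Pr ρ t p y x) (hr : 0 < r) (hX : X = r * x ^ 2) (hX1 : 108 / 5 ≤ X)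
    (ht : t ≤ π) : 1000 / 457 ≤ r * y := by
  have hy := h.y0
  have ht0 := h.t0
  have h1 : t ^ 2 ≤ 3.1416 ^ 2 := pow_le_pow_left₀ ht0.le (by linarith [Real.pi_lt_d4]) 2
  have h2 : x ^ 2 ≤ 3.1416 ^ 2 * y := by
    rw [← h.ts]
    exact mul_le_mul_of_nonneg_right h1 hy.le
  have h3 : r * x ^ 2 ≤ r * (3.1416 ^ 2 * y) := mul_le_mul_of_nonneg_left h2 hr.le
  rw [← hX] at h3
  have h4 : 108 / 5 ≤ 3.1416 ^ 2 * (r * y) := by linarith
  nlinarith

theorem Pr.paa (h : Pr ρ t p y x) : p * aa p = 4 / 5 - 8 / 25 * p := by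
  have hp := h.p0
  unfold aa
  field_simp

theorem Pr.fk_l (h : Pr ρ t p y x) (hr : 0 < r) (hX : X = r * x ^ 2) (hX1 : 108 / 5 ≤ X)
    (hx : x ≤ 6331 / 5000) (ht : t ≤ π) :
    √(PP p y / SokalDz.lA ρ t) ≤ √(27 / 25 * r) := by
  have hp := h.p0
  have hp1 := h.p1
  have hy := h.y0
  have hk := h.k_ge hx
  have hry := h.ry hr hX hX1 ht
  have ha := aa_pos hp hp1
  have hyp := h.hy
  have hA : 0 < SokalDz.lA ρ t := by
    rw [h.lA]
    exact mul_pos (mul_pos (by linarith) hy) (by linarith)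
  refine Real.sqrt_le_sqrt ?_
  rw [div_le_iff₀ hA]
  unfold PP
  rw [div_le_iff₀ hp, h.lA]
  have e : 27 / 25 * r * (aa p * y * min 1 (mm ρ / t)) * p =
      27 / 25 * (r * y) * min 1 (mm ρ / t) * (p * aa p) := by ring
  rw [e, h.paa]
  have h0 : 0 < 4 / 5 - 8 / 25 * p := by linarith
  have h1 : 23325 / 10000 ≤ 27 / 25 * (r * y) * min 1 (mm ρ / t) := by
    have h2 : 27 / 25 * (1000 / 457) * (987 / 1000) ≤ 27 / 25 * (r * y) * min 1 (mm ρ / t) :=
      mul_le_mul (by linarith) hk (by norm_num) (by positivity)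
    have h3 : (23325 : ℝ) / 10000 ≤ 27 / 25 * (1000 / 457) * (987 / 1000) := by norm_num
    linarith
  refine le_trans ?_ (mul_le_mul_of_nonneg_right h1 h0.le)
  rw [hyp]
  nlinarith [sq_nonneg (p - 583 / 1000)]

theorem Pr.fk_r (h : Pr ρ t p y x) (hr : 0 < r) (hX : X = r * x ^ 2) (hX1 : 108 / 5 ≤ X)
    (ht : t ≤ π) : √(PP p y / SokalDz.rA ρ (2 * π - t)) ≤ √(7 * r) := by
  have hp := h.p0
  have hp1 := h.p1
  have hy := h.y0
  have ht0 := h.t0
  have hpi := Real.pi_pos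
  have hφ : 0 < 2 * π - t := by linarith
  have hry := h.ry hr hX hX1 ht
  have ha := aa_pos hp hp1
  have hA := h.rA_ge hφ
  have hA0 := h.rA0 hφ
  have hyp := h.hy
  have hk : 1989 / 10000 ≤ min 1 (mm ρ / (2 * π - t)) := by
    refine le_min (by norm_num) ?_
    rw [le_div_iff₀ hφ]
    have := h.m1
    have := Real.pi_lt_d4
    nlinarith
  have h1 : (aa p - 7 / 50) * (y * (1989 / 10000)) ≤ SokalDz.rA ρ (2 * π - t) :=
    le_trans (mul_le_mul_of_nonneg_left (mul_le_mul_of_nonneg_left hk hy.le) (by linarith)) hA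
  refine Real.sqrt_le_sqrt ?_
  rw [div_le_iff₀ hA0]
  unfold PP
  rw [div_le_iff₀ hp]
  have h2 : 7 * r * ((aa p - 7 / 50) * (y * (1989 / 10000))) * p ≤
      7 * r * SokalDz.rA ρ (2 * π - t) * p :=
    mul_le_mul_of_nonneg_right (mul_le_mul_of_nonneg_left h1 (by positivity)) hp.le
  refine le_trans ?_ h2
  have e : 7 * r * ((aa p - 7 / 50) * (y * (1989 / 10000))) * p =
      7 * (r * y) * (1989 / 10000) * (p * aa p - 7 / 50 * p) := by ring
  rw [e, h.paa]
  have h0 : 0 < 4 / 5 - 8 / 25 * p - 7 / 50 * p := by linarith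
  have h3 : 3 ≤ 7 * (r * y) * (1989 / 10000) := by linarith
  refine le_trans ?_ (mul_le_mul_of_nonneg_right h3 h0.le)
  rw [hyp]
  nlinarith [sq_nonneg (p - 1078 / 1000)]

/-- decay -/
theorem fk_exp {w w0 z k : ℝ} (hz : 0 ≤ z) (hk : 0 ≤ k) (hw : w0 + k * z ≤ w) :
    exp (-w) * (1 + k * z + (k * z) ^ 2 / 2) ≤ exp (-w0) := by
  have h1 : 0 ≤ k * z := mul_nonneg hk hz
  have h2 := Real.quadratic_le_exp_of_nonneg h1
  have h3 : exp (-w) ≤ exp (-w0) * exp (-(k * z)) := by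
    rw [← Real.exp_add]
    exact Real.exp_le_exp.2 (by linarith)
  have h4 : exp (-(k * z)) * exp (k * z) = 1 := by
    rw [← Real.exp_add, neg_add_cancel, Real.exp_zero]
  have h5 := exp_pos (-(k * z))
  have h6 := exp_pos (-w0)
  calc exp (-w) * (1 + k * z + (k * z) ^ 2 / 2) ≤
      exp (-w0) * exp (-(k * z)) * (1 + k * z + (k * z) ^ 2 / 2) :=
        mul_le_mul_of_nonneg_right h3 (by positivity)
    _ ≤ exp (-w0) * exp (-(k * z)) * exp (k * z) :=
        mul_le_mul_of_nonneg_left h2 (by positivity)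
    _ = exp (-w0) := by rw [mul_assoc, h4, mul_one]

/-- the far groups -/
theorem Pr.gF (h : Pr ρ t p y x) (hr : 499 / 10 ≤ r) (hX : X = r * x ^ 2) (hX1 : 108 / 5 ≤ X)
    (hX2 : X ≤ 80) (ht : t ≤ π) : gFok r ρ t X (31 / 1000) := by
  have hr0 : 0 < r := by linarith
  have hx := h.x_le hr hX hX2
  have hy := h.y0
  have ht0 := h.t0
  have hpi := Real.pi_pos
  have ha := aa_pos h.p0 h.p1
  have hk := h.k_ge hx
  have hφ : 0 < 2 * π - t := by linarith
  have hA : 0 < SokalDz.lA ρ t := by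
    rw [h.lA]
    exact mul_pos (mul_pos (by linarith) hy) (by linarith)
  have hB := h.rA0 hφ
  have hs := fk_sqrt hr0.le
  have hs0 : 0 ≤ √r := Real.sqrt_nonneg r
  have hP := h.PP0
  -- left
  have l1 : SokalDz.Kc r ρ * √(3 * π / (r * SokalDz.lA ρ t)) ≤ 1273 / 1000 * √r := by
    have e1 : √(3 * π / (r * SokalDz.lA ρ t)) = √3 * √(π / (r * SokalDz.lA ρ t)) := by
      rw [← Real.sqrt_mul (by norm_num)]
      congr 1
      ring
    have h1 := h.K1 hr0 hA
    have h2 := h.fk_l hr0 hX hX1 hx ht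
    have e2 : √3 * √(27 / 25 * r) = 9 / 5 * √r := by
      rw [← Real.sqrt_mul (by norm_num)]
      have : (3 : ℝ) * (27 / 25 * r) = (9 / 5) ^ 2 * r := by ring
      rw [this, Real.sqrt_mul (by positivity), Real.sqrt_sq (by norm_num)]
    have h3 : √3 * (SokalDz.Kc r ρ * √(π / (r * SokalDz.lA ρ t))) ≤
        √3 * (7072 / 10000 * √(27 / 25 * r)) :=
      mul_le_mul_of_nonneg_left (h1.trans (mul_le_mul_of_nonneg_left h2 (by norm_num)))
        (Real.sqrt_nonneg _)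
    calc SokalDz.Kc r ρ * √(3 * π / (r * SokalDz.lA ρ t)) =
        √3 * (SokalDz.Kc r ρ * √(π / (r * SokalDz.lA ρ t))) := by rw [e1]; ring
      _ ≤ √3 * (7072 / 10000 * √(27 / 25 * r)) := h3
      _ = 7072 / 10000 * (√3 * √(27 / 25 * r)) := by ring
      _ = 7072 / 10000 * (9 / 5 * √r) := by rw [e2]
      _ ≤ _ := by nlinarith
  have r1 : SokalDz.Kc r ρ * √(π / (r * SokalDz.rA ρ (2 * π - t))) ≤ 1872 / 1000 * √r := by
    have h1 := h.K1 hr0 hB
    have h2 := h.fk_r hr0 hX hX1 ht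
    have e2 : √(7 * r) ≤ 2646 / 1000 * √r := by
      rw [Real.sqrt_mul (by norm_num)]
      refine mul_le_mul_of_nonneg_right ?_ hs0
      rw [Real.sqrt_le_left (by norm_num)]
      norm_num
    refine h1.trans ((mul_le_mul_of_nonneg_left (h2.trans e2) (by norm_num)).trans ?_)
    nlinarith
  obtain ⟨z, hz⟩ : ∃ z, z = r - 499 / 10 := ⟨_, rfl⟩
  have hz0 : 0 ≤ z := by rw [hz]; linarith
  have hrz : r = 499 / 10 + z := by rw [hz]; ring
  have hD := exp_pos (-(68 / 5))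
  -- exponentials
  have x1 : exp (-(r * (1 / 2))) = exp (-(68 / 5)) * exp (-(r / 2 - 68 / 5)) := by
    rw [← Real.exp_add]
    congr 1
    ring
  have x2 : exp (-(r * (3168 / 5000))) =
      exp (-(68 / 5)) * exp (-(r * (3168 / 5000) - 68 / 5)) := by
    rw [← Real.exp_add]
    congr 1
    ring
  have y1 := fk_exp (w := r / 2 - 68 / 5) (w0 := 1135 / 100) (k := 1 / 2) hz0 (by norm_num)
    (by rw [hrz]; linarith)
  have y2 := fk_exp (w := r * (3168 / 5000) - 68 / 5) (w0 := 18) (k := 3 / 5) hz0 (by norm_num)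
    (by rw [hrz]; linarith)
  have v1 : exp (-(1135 / 100)) ≤ 118 / 10000000 :=
    ex_neg 11 (35 / 100) (by norm_num) (by norm_num) (by norm_num) (by norm_num)
  have v2 : exp (-18) ≤ 16 / 1000000000 :=
    ex_neg 18 0 (by norm_num) (by norm_num) (by norm_num) (by norm_num)
  have w1 := exp_pos (-(r / 2 - 68 / 5))
  have w2 := exp_pos (-(r * (3168 / 5000) - 68 / 5))
  have g1 : (4 * r + 1) * (SokalDz.Kc r ρ * lF r ρ t (1 / 2)) ≤
      30 / 1000 * (54 / 125 * exp (-(68 / 5))) := by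
    unfold lF
    have e : (4 * r + 1) * (SokalDz.Kc r ρ * (√(3 * π / (r * SokalDz.lA ρ t)) / 2 *
        exp (-(r * (1 / 2))))) = (SokalDz.Kc r ρ * √(3 * π / (r * SokalDz.lA ρ t))) *
        ((4 * r + 1) / 2 * exp (-(r * (1 / 2)))) := by ring
    rw [e]
    have h2 : SokalDz.Kc r ρ * √(3 * π / (r * SokalDz.lA ρ t)) ≤
        1273 / 1000 * (7072 / 100000 * (r + 50)) :=
      l1.trans (mul_le_mul_of_nonneg_left hs (by norm_num))
    refine (mul_le_mul_of_nonneg_right h2 (by positivity)).trans ?_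
    rw [x1]
    have h3 : 1273 / 1000 * (7072 / 100000 * (r + 50)) * ((4 * r + 1) / 2) *
        exp (-(r / 2 - 68 / 5)) ≤ 30 / 1000 * (54 / 125) := by
      have h4 : 1273 / 1000 * (7072 / 100000 * (r + 50)) * ((4 * r + 1) / 2) ≤
          903 * (1 + 1 / 2 * z + (1 / 2 * z) ^ 2 / 2) := by
        rw [hrz]
        nlinarith
      calc _ ≤ 903 * (1 + 1 / 2 * z + (1 / 2 * z) ^ 2 / 2) * exp (-(r / 2 - 68 / 5)) :=
            mul_le_mul_of_nonneg_right h4 w1.le
        _ = 903 * (exp (-(r / 2 - 68 / 5)) * (1 + 1 / 2 * z + (1 / 2 * z) ^ 2 / 2)) := by ring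
        _ ≤ 903 * exp (-(1135 / 100)) := mul_le_mul_of_nonneg_left y1 (by norm_num)
        _ ≤ _ := by linarith
    calc _ = exp (-(68 / 5)) * (1273 / 1000 * (7072 / 100000 * (r + 50)) * ((4 * r + 1) / 2) *
        exp (-(r / 2 - 68 / 5))) := by ring
      _ ≤ exp (-(68 / 5)) * (30 / 1000 * (54 / 125)) := mul_le_mul_of_nonneg_left h3 hD.le
      _ = _ := by ring
  have g2 : (14 * r + 68 / 25) * (SokalDz.Kc r ρ * rF r ρ (2 * π - t)) ≤
      1 / 1000 * (54 / 125 * exp (-(68 / 5))) := by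
    unfold rF
    have e : (14 * r + 68 / 25) * (SokalDz.Kc r ρ * (√(π / (r * SokalDz.rA ρ (2 * π - t))) / 2 *
        exp (-(r * (3168 / 5000))))) = (SokalDz.Kc r ρ * √(π / (r * SokalDz.rA ρ (2 * π - t)))) *
        ((14 * r + 68 / 25) / 2 * exp (-(r * (3168 / 5000)))) := by ring
    rw [e]
    have h2 : SokalDz.Kc r ρ * √(π / (r * SokalDz.rA ρ (2 * π - t))) ≤
        1872 / 1000 * (7072 / 100000 * (r + 50)) :=
      r1.trans (mul_le_mul_of_nonneg_left hs (by norm_num))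
    refine (mul_le_mul_of_nonneg_right h2 (by positivity)).trans ?_
    rw [x2]
    have h3 : 1872 / 1000 * (7072 / 100000 * (r + 50)) * ((14 * r + 68 / 25) / 2) *
        exp (-(r * (3168 / 5000) - 68 / 5)) ≤ 1 / 1000 * (54 / 125) := by
      have h4 : 1872 / 1000 * (7072 / 100000 * (r + 50)) * ((14 * r + 68 / 25) / 2) ≤
          4640 * (1 + 3 / 5 * z + (3 / 5 * z) ^ 2 / 2) := by
        rw [hrz]
        nlinarith
      calc _ ≤ 4640 * (1 + 3 / 5 * z + (3 / 5 * z) ^ 2 / 2) *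
            exp (-(r * (3168 / 5000) - 68 / 5)) := mul_le_mul_of_nonneg_right h4 w2.le
        _ = 4640 * (exp (-(r * (3168 / 5000) - 68 / 5)) *
            (1 + 3 / 5 * z + (3 / 5 * z) ^ 2 / 2)) := by ring
        _ ≤ 4640 * exp (-18) := mul_le_mul_of_nonneg_left y2 (by norm_num)
        _ ≤ _ := by linarith
    calc _ = exp (-(68 / 5)) * (1872 / 1000 * (7072 / 100000 * (r + 50)) *
        ((14 * r + 68 / 25) / 2) * exp (-(r * (3168 / 5000) - 68 / 5))) := by ring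
      _ ≤ exp (-(68 / 5)) * (1 / 1000 * (54 / 125)) := mul_le_mul_of_nonneg_left h3 hD.le
      _ = _ := by ring
  unfold gFok
  have hX3 : exp (-(68 / 5)) ≤ exp (-(17 / 100 * X)) := Real.exp_le_exp.2 (by linarith)
  calc _ ≤ 31 / 1000 * (54 / 125 * exp (-(68 / 5))) := by linarith
    _ ≤ _ := by
        refine mul_le_mul_of_nonneg_left ?_ (by norm_num)
        exact mul_le_mul_of_nonneg_left hX3 (by norm_num)

end SokalDz
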