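import Pool.Agent.Lib_MP_af4de1_v3.DzRL4

/-!
# `PRealDL`, `X ≤ 80`, the main term for `t ≥ 14/5` (helper25)
-/

set_option autoImplicit false

namespace SokalDz

open Real MeasureTheory Set SokalCen SokalV3

variable {r ρ t p y x X : ℝ}

theorem cM1 {p : ℝ} (h0 : 4859 / 5000 ≤ p) (h1 : p ≤ 1) :
    2271 / 5000 * ((1 - p ^ 2) * (20 - 8 * p) + 25 * (519 / 2000) * p) ≤
      519 / 2000 * (20 - 8 * p) := by
  obtain ⟨s, hs⟩ : ∃ s, s = p - 4859 / 5000 := ⟨_, rfl⟩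
  obtain ⟨w, hw⟩ : ∃ w, w = 1 - p := ⟨_, rfl⟩
  have s0 : 0 ≤ s := by rw [hs]; linarith
  have w0 : 0 ≤ w := by rw [hw]; linarith
  have e : 519 / 2000 * (20 - 8 * p) -
    (2271 / 5000 * ((1 - p ^ 2) * (20 - 8 * p) + 25 * (519 / 2000) * p)) =
      4333137823 / 389336250 * s ^ 0 * w ^ 3 +
      2349423569 / 311469 * s ^ 1 * w ^ 2 +
      9343552625 / 622938 * s ^ 2 * w ^ 1 +
      2324687500 / 311469 * s ^ 3 * w ^ 0 := by
    rw [hs, hw]; ring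
  have hp : 0 ≤ 519 / 2000 * (20 - 8 * p) -
    (2271 / 5000 * ((1 - p ^ 2) * (20 - 8 * p) + 25 * (519 / 2000) * p)) := by
    rw [e]; positivity
  linarith

theorem sM1 {p : ℝ} (h0 : 4859 / 5000 ≤ p) (h1 : p ≤ 1) :
    1 + 16 / 25 * (1 - p ^ 2) ≤
      1927 / 500 * ((4 / 5 - 8 / 25 * p) * (1 - p ^ 2) * (1) + 519 / 2000 * p) := by
  obtain ⟨s, hs⟩ : ∃ s, s = p - 4859 / 5000 := ⟨_, rfl⟩
  obtain ⟨w, hw⟩ : ∃ w, w = 1 - p := ⟨_, rfl⟩
  have s0 : 0 ≤ s := by rw [hs]; linarith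
  have w0 : 0 ≤ w := by rw [hw]; linarith
  have e : 1927 / 500 * ((4 / 5 - 8 / 25 * p) * (1 - p ^ 2) * (1) + 519 / 2000 * p) -
    (1 + 16 / 25 * (1 - p ^ 2)) =
      16062880680641 / 8760065625 * s ^ 0 * w ^ 3 +
      16960611082 / 4672035 * s ^ 1 * w ^ 2 +
      560768075 / 311469 * s ^ 2 * w ^ 1 +
      14125000 / 2803221 * s ^ 3 * w ^ 0 := by
    rw [hs, hw]; ring
  have hp : 0 ≤ 1927 / 500 * ((4 / 5 - 8 / 25 * p) * (1 - p ^ 2) * (1) + 519 / 2000 * p) -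
    (1 + 16 / 25 * (1 - p ^ 2)) := by
    rw [e]; positivity
  linarith

theorem eM1 : 519 / 2000 ≤ 11 / 25 * exp (-(4 / 5 * (33 / 50))) := by
  have h1 : exp (4 / 5 * (33 / 50)) ≤ 1 / (519 / 880) := by
    have := Real.exp_bound' (x := 4 / 5 * (33 / 50)) (by norm_num) (by norm_num) (n := 8)
      (by norm_num)
    simp only [Finset.sum_range_succ, Finset.sum_range_zero, Nat.factorial] at this
    norm_num at this ⊢
    linarith
  have := exp_neg_ge (by norm_num) h1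
  linarith

theorem cM2 {p : ℝ} (h0 : 4841 / 5000 ≤ p) (h1 : p ≤ 1) :
    899 / 2000 * ((1 - p ^ 2) * (20 - 8 * p) + 25 * (2513 / 10000) * p) ≤
      2513 / 10000 * (20 - 8 * p) := by
  obtain ⟨s, hs⟩ : ∃ s, s = p - 4841 / 5000 := ⟨_, rfl⟩
  obtain ⟨w, hw⟩ : ∃ w, w = 1 - p := ⟨_, rfl⟩
  have s0 : 0 ≤ s := by rw [hs]; linarith
  have w0 : 0 ≤ w := by rw [hw]; linarith
  have e : 2513 / 10000 * (20 - 8 * p) -
    (899 / 2000 * ((1 - p ^ 2) * (20 - 8 * p) + 25 * (2513 / 10000) * p)) =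
      36792615967 / 2009839500 * s ^ 0 * w ^ 3 +
      16198378915 / 2679786 * s ^ 1 * w ^ 2 +
      64253958875 / 5359572 * s ^ 2 * w ^ 1 +
      23952031250 / 4019679 * s ^ 3 * w ^ 0 := by
    rw [hs, hw]; ring
  have hp : 0 ≤ 2513 / 10000 * (20 - 8 * p) -
    (899 / 2000 * ((1 - p ^ 2) * (20 - 8 * p) + 25 * (2513 / 10000) * p)) := by
    rw [e]; positivity
  linarith

theorem sM2 {p : ℝ} (h0 : 4841 / 5000 ≤ p) (h1 : p ≤ 1) :
    1 + 16 / 25 * (1 - p ^ 2) ≤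
      199 / 50 * ((4 / 5 - 8 / 25 * p) * (1 - p ^ 2) * (1) + 2513 / 10000 * p) := by
  obtain ⟨s, hs⟩ : ∃ s, s = p - 4841 / 5000 := ⟨_, rfl⟩
  obtain ⟨w, hw⟩ : ∃ w, w = 1 - p := ⟨_, rfl⟩
  have s0 : 0 ≤ s := by rw [hs]; linarith
  have w0 : 0 ≤ w := by rw [hw]; linarith
  have e : 199 / 50 * ((4 / 5 - 8 / 25 * p) * (1 - p ^ 2) * (1) + 2513 / 10000 * p) -
    (1 + 16 / 25 * (1 - p ^ 2)) =
      1312919331422 / 837433125 * s ^ 0 * w ^ 3 +
      1386068956 / 446631 * s ^ 1 * w ^ 2 +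
      229231050 / 148877 * s ^ 2 * w ^ 1 +
      7250000 / 1339893 * s ^ 3 * w ^ 0 := by
    rw [hs, hw]; ring
  have hp : 0 ≤ 199 / 50 * ((4 / 5 - 8 / 25 * p) * (1 - p ^ 2) * (1) + 2513 / 10000 * p) -
    (1 + 16 / 25 * (1 - p ^ 2)) := by
    rw [e]; positivity
  linarith

theorem eM2 : 2513 / 10000 ≤ 11 / 25 * exp (-(4 / 5 * (7 / 10))) := by
  have h1 : exp (4 / 5 * (7 / 10)) ≤ 1 / (2513 / 4400) := by
    have := Real.exp_bound' (x := 4 / 5 * (7 / 10)) (by norm_num) (by norm_num) (n := 8)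
      (by norm_num)
    simp only [Finset.sum_range_succ, Finset.sum_range_zero, Nat.factorial] at this
    norm_num at this ⊢
    linarith
  have := exp_neg_ge (by norm_num) h1
  linarith

theorem cM3 {p : ℝ} (h0 : 4817 / 5000 ≤ p) (h1 : p ≤ 1) :
    443 / 1000 * ((1 - p ^ 2) * (20 - 8 * p) + 25 * (1207 / 5000) * p) ≤
      1207 / 5000 * (20 - 8 * p) := by
  obtain ⟨s, hs⟩ : ∃ s, s = p - 4817 / 5000 := ⟨_, rfl⟩
  obtain ⟨w, hw⟩ : ∃ w, w = 1 - p := ⟨_, rfl⟩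
  have s0 : 0 ≤ s := by rw [hs]; linarith
  have w0 : 0 ≤ w := by rw [hw]; linarith
  have e : 1207 / 5000 * (20 - 8 * p) -
    (443 / 1000 * ((1 - p ^ 2) * (20 - 8 * p) + 25 * (1207 / 5000) * p)) =
      7750899116 / 766060875 * s ^ 0 * w ^ 3 +
      9429721070 / 2042829 * s ^ 1 * w ^ 2 +
      6240083375 / 680943 * s ^ 2 * w ^ 1 +
      27911875000 / 6128487 * s ^ 3 * w ^ 0 := by
    rw [hs, hw]; ring
  have hp : 0 ≤ 1207 / 5000 * (20 - 8 * p) -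
    (443 / 1000 * ((1 - p ^ 2) * (20 - 8 * p) + 25 * (1207 / 5000) * p)) := by
    rw [e]; positivity
  linarith

theorem sM3 {p : ℝ} (h0 : 4817 / 5000 ≤ p) (h1 : p ≤ 1) :
    1 + 16 / 25 * (1 - p ^ 2) ≤
      4143 / 1000 * ((4 / 5 - 8 / 25 * p) * (1 - p ^ 2) * (1) + 1207 / 5000 * p) := by
  obtain ⟨s, hs⟩ : ∃ s, s = p - 4817 / 5000 := ⟨_, rfl⟩
  obtain ⟨w, hw⟩ : ∃ w, w = 1 - p := ⟨_, rfl⟩
  have s0 : 0 ≤ s := by rw [hs]; linarith
  have w0 : 0 ≤ w := by rw [hw]; linarith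
  have e : 4143 / 1000 * ((4 / 5 - 8 / 25 * p) * (1 - p ^ 2) * (1) + 1207 / 5000 * p) -
    (1 + 16 / 25 * (1 - p ^ 2)) =
      24967396636484 / 19151521875 * s ^ 0 * w ^ 3 +
      2924490354 / 1134905 * s ^ 1 * w ^ 2 +
      2603193695 / 2042829 * s ^ 2 * w ^ 1 +
      15025000 / 6128487 * s ^ 3 * w ^ 0 := by
    rw [hs, hw]; ring
  have hp : 0 ≤ 4143 / 1000 * ((4 / 5 - 8 / 25 * p) * (1 - p ^ 2) * (1) + 1207 / 5000 * p) -
    (1 + 16 / 25 * (1 - p ^ 2)) := by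
    rw [e]; positivity
  linarith

theorem eM3 : 1207 / 5000 ≤ 11 / 25 * exp (-(4 / 5 * (3 / 4))) := by
  have h1 : exp (4 / 5 * (3 / 4)) ≤ 1 / (1207 / 2200) := by
    have := Real.exp_bound' (x := 4 / 5 * (3 / 4)) (by norm_num) (by norm_num) (n := 8)
      (by norm_num)
    simp only [Finset.sum_range_succ, Finset.sum_range_zero, Nat.factorial] at this
    norm_num at this ⊢
    linarith
  have := exp_neg_ge (by norm_num) h1
  linarith

theorem cM4 {p : ℝ} (h0 : 9469 / 10000 ≤ p) (h1 : p ≤ 1) :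
    4187 / 10000 * ((1 - p ^ 2) * (20 - 8 * p) + 25 * (2141 / 10000) * p) ≤
      2141 / 10000 * (20 - 8 * p) := by
  obtain ⟨s, hs⟩ : ∃ s, s = p - 9469 / 10000 := ⟨_, rfl⟩
  obtain ⟨w, hw⟩ : ∃ w, w = 1 - p := ⟨_, rfl⟩
  have s0 : 0 ≤ s := by rw [hs]; linarith
  have w0 : 0 ≤ w := by rw [hw]; linarith
  have e : 2141 / 10000 * (20 - 8 * p) -
    (4187 / 10000 * ((1 - p ^ 2) * (20 - 8 * p) + 25 * (2141 / 10000) * p)) =
      309806916667 / 187151613750 * s ^ 0 * w ^ 3 +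
      110774403674 / 49907097 * s ^ 1 * w ^ 2 +
      220228373975 / 49907097 * s ^ 2 * w ^ 1 +
      328108250000 / 149721291 * s ^ 3 * w ^ 0 := by
    rw [hs, hw]; ring
  have hp : 0 ≤ 2141 / 10000 * (20 - 8 * p) -
    (4187 / 10000 * ((1 - p ^ 2) * (20 - 8 * p) + 25 * (2141 / 10000) * p)) := by
    rw [e]; positivity
  linarith

theorem sM4 {p : ℝ} (h0 : 9469 / 10000 ≤ p) (h1 : p ≤ 1) :
    1 + 16 / 25 * (1 - p ^ 2) ≤
      4671 / 1000 * ((4 / 5 - 8 / 25 * p) * (1 - p ^ 2) * (1) + 2141 / 10000 * p) := by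
  obtain ⟨s, hs⟩ : ∃ s, s = p - 9469 / 10000 := ⟨_, rfl⟩
  obtain ⟨w, hw⟩ : ∃ w, w = 1 - p := ⟨_, rfl⟩
  have s0 : 0 ≤ s := by rw [hs]; linarith
  have w0 : 0 ≤ w := by rw [hw]; linarith
  have e : 4671 / 1000 * ((4 / 5 - 8 / 25 * p) * (1 - p ^ 2) * (1) + 2141 / 10000 * p) -
    (1 + 16 / 25 * (1 - p ^ 2)) =
      377458669723489 / 467879034375 * s ^ 0 * w ^ 3 +
      396950695516 / 249535485 * s ^ 1 * w ^ 2 +
      39073650530 / 49907097 * s ^ 2 * w ^ 1 +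
      61100000 / 149721291 * s ^ 3 * w ^ 0 := by
    rw [hs, hw]; ring
  have hp : 0 ≤ 4671 / 1000 * ((4 / 5 - 8 / 25 * p) * (1 - p ^ 2) * (1) + 2141 / 10000 * p) -
    (1 + 16 / 25 * (1 - p ^ 2)) := by
    rw [e]; positivity
  linarith

theorem eM4 : 2141 / 10000 ≤ 11 / 25 * exp (-(4 / 5 * (9 / 10))) := by
  have h1 : exp (4 / 5 * (9 / 10)) ≤ 1 / (2141 / 4400) := by
    have := Real.exp_bound' (x := 4 / 5 * (9 / 10)) (by norm_num) (by norm_num) (n := 8)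
      (by norm_num)
    simp only [Finset.sum_range_succ, Finset.sum_range_zero, Nat.factorial] at this
    norm_num at this ⊢
    linarith
  have := exp_neg_ge (by norm_num) h1
  linarith

theorem cM5 {p : ℝ} (h0 : 927 / 1000 ≤ p) (h1 : p ≤ 1) :
    242 / 625 * ((1 - p ^ 2) * (20 - 8 * p) + 25 * (1899 / 10000) * p) ≤
      1899 / 10000 * (20 - 8 * p) := by
  obtain ⟨s, hs⟩ : ∃ s, s = p - 927 / 1000 := ⟨_, rfl⟩
  obtain ⟨w, hw⟩ : ∃ w, w = 1 - p := ⟨_, rfl⟩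
  have s0 : 0 ≤ s := by rw [hs]; linarith
  have w0 : 0 ≤ w := by rw [hw]; linarith
  have e : 1899 / 10000 * (20 - 8 * p) -
    (242 / 625 * ((1 - p ^ 2) * (20 - 8 * p) + 25 * (1899 / 10000) * p)) =
      148499912 / 243135625 * s ^ 0 * w ^ 3 +
      2234433584 / 1945085 * s ^ 1 * w ^ 2 +
      888422136 / 389017 * s ^ 2 * w ^ 1 +
      440568000 / 389017 * s ^ 3 * w ^ 0 := by
    rw [hs, hw]; ring
  have hp : 0 ≤ 1899 / 10000 * (20 - 8 * p) -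
    (242 / 625 * ((1 - p ^ 2) * (20 - 8 * p) + 25 * (1899 / 10000) * p)) := by
    rw [e]; positivity
  linarith

theorem sM5 {p : ℝ} (h0 : 927 / 1000 ≤ p) (h1 : p ≤ 1) :
    1 + 16 / 25 * (1 - p ^ 2) ≤
      2633 / 500 * ((4 / 5 - 8 / 25 * p) * (1 - p ^ 2) * (1) + 1899 / 10000 * p) := by
  obtain ⟨s, hs⟩ : ∃ s, s = p - 927 / 1000 := ⟨_, rfl⟩
  obtain ⟨w, hw⟩ : ∃ w, w = 1 - p := ⟨_, rfl⟩
  have s0 : 0 ≤ s := by rw [hs]; linarith
  have w0 : 0 ≤ w := by rw [hw]; linarith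
  have e : 2633 / 500 * ((4 / 5 - 8 / 25 * p) * (1 - p ^ 2) * (1) + 1899 / 10000 * p) -
    (1 + 16 / 25 * (1 - p ^ 2)) =
      655808511603 / 1215678125 * s ^ 0 * w ^ 3 +
      10328534146 / 9725425 * s ^ 1 * w ^ 2 +
      1013202509 / 1945085 * s ^ 2 * w ^ 1 +
      13400 / 389017 * s ^ 3 * w ^ 0 := by
    rw [hs, hw]; ring
  have hp : 0 ≤ 2633 / 500 * ((4 / 5 - 8 / 25 * p) * (1 - p ^ 2) * (1) + 1899 / 10000 * p) -
    (1 + 16 / 25 * (1 - p ^ 2)) := by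
    rw [e]; positivity
  linarith

theorem eM5 : 1899 / 10000 ≤ 11 / 25 * exp (-(4 / 5 * (21 / 20))) := by
  have h1 : exp (4 / 5 * (21 / 20)) ≤ 1 / (1899 / 4400) := by
    have := Real.exp_bound' (x := 4 / 5 * (21 / 20)) (by norm_num) (by norm_num) (n := 8)
      (by norm_num)
    simp only [Finset.sum_range_succ, Finset.sum_range_zero, Nat.factorial] at this
    norm_num at this ⊢
    linarith
  have := exp_neg_ge (by norm_num) h1
  linarith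

theorem cM6 {p : ℝ} (h0 : 8919 / 10000 ≤ p) (h1 : p ≤ 1) :
    3293 / 10000 * ((1 - p ^ 2) * (20 - 8 * p) + 25 * (1597 / 10000) * p * (1000 / 987)) ≤
      1597 / 10000 * (20 - 8 * p) := by
  obtain ⟨s, hs⟩ : ∃ s, s = p - 8919 / 10000 := ⟨_, rfl⟩
  obtain ⟨w, hw⟩ : ∃ w, w = 1 - p := ⟨_, rfl⟩
  have s0 : 0 ≤ s := by rw [hs]; linarith
  have w0 : 0 ≤ w := by rw [hw]; linarith
  have e : 1597 / 10000 * (20 - 8 * p) -
    (3293 / 10000 * ((1 - p ^ 2) * (20 - 8 * p) + 25 * (1597 / 10000) * p * (1000 / 987))) =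
      22854370901077 / 519496938861250 * s ^ 0 * w ^ 3 +
      585489335629396 / 1246792653267 * s ^ 1 * w ^ 2 +
      1165475585705000 / 1246792653267 * s ^ 2 * w ^ 1 +
      576756550000000 / 1246792653267 * s ^ 3 * w ^ 0 := by
    rw [hs, hw]; ring
  have hp : 0 ≤ 1597 / 10000 * (20 - 8 * p) -
    (3293 / 10000 * ((1 - p ^ 2) * (20 - 8 * p) + 25 * (1597 / 10000) * p * (1000 / 987))) := by
    rw [e]; positivity
  linarith

theorem sM6 {p : ℝ} (h0 : 8919 / 10000 ≤ p) (h1 : p ≤ 1) :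
    1 + 16 / 25 * (1 - p ^ 2) ≤
      3131 / 500 * ((4 / 5 - 8 / 25 * p) * (1 - p ^ 2) * (987 / 1000) + 1597 / 10000 * p) := by
  obtain ⟨s, hs⟩ : ∃ s, s = p - 8919 / 10000 := ⟨_, rfl⟩
  obtain ⟨w, hw⟩ : ∃ w, w = 1 - p := ⟨_, rfl⟩
  have s0 : 0 ≤ s := by rw [hs]; linarith
  have w0 : 0 ≤ w := by rw [hw]; linarith
  have e : 3131 / 500 * ((4 / 5 - 8 / 25 * p) * (1 - p ^ 2) * (987 / 1000) + 1597 / 10000 * p) -
    (1 + 16 / 25 * (1 - p ^ 2)) =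
      27955333341172001 / 85816198437500 * s ^ 0 * w ^ 3 +
      21983927374358 / 34326479375 * s ^ 1 * w ^ 2 +
      17176045548 / 54922367 * s ^ 2 * w ^ 1 +
      1800000 / 54922367 * s ^ 3 * w ^ 0 := by
    rw [hs, hw]; ring
  have hp : 0 ≤ 3131 / 500 * ((4 / 5 - 8 / 25 * p) * (1 - p ^ 2) * (987 / 1000) + 1597 / 10000 * p) -
    (1 + 16 / 25 * (1 - p ^ 2)) := by
    rw [e]; positivity
  linarith

theorem eM6 : 1597 / 10000 ≤ 11 / 25 * exp (-(4 / 5 * (6331 / 5000))) := by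
  have h1 : exp (4 / 5 * (6331 / 5000)) ≤ 1 / (1597 / 4400) := by
    have e : (4 : ℝ) / 5 * (6331 / 5000) = 1 + 162 / 12500 := by norm_num
    have h2 := Real.exp_one_lt_d9
    have h3 : exp (162 / 12500) ≤ 1 + 162 / 12500 + (162 / 12500) ^ 2 := by
      have := Real.exp_bound' (x := 162 / 12500) (by norm_num) (by norm_num) (n := 2)
        (by norm_num)
      simp only [Finset.sum_range_succ, Finset.sum_range_zero, Nat.factorial] at this
      norm_num at this ⊢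
      linarith
    rw [e, Real.exp_add]
    calc exp 1 * exp (162 / 12500) ≤ 2.7182818286 * (1 + 162 / 12500 + (162 / 12500) ^ 2) :=
          mul_le_mul h2.le h3 (exp_pos _).le (by norm_num)
      _ ≤ _ := by norm_num
  have := exp_neg_ge (by norm_num) h1
  linarith

/-- general step for `σ = 1`, `k ≥ 987/1000` -/
theorem Pr.lmSk (h : Pr ρ t p y x) (hr : 0 < r) {B q S S2 E0 ex c x1 : ℝ} (hX : X = r * x ^ 2)
    (hx1 : x ≤ x1) (hx54 : x ≤ 6331 / 5000) (hB : 0 < B) (hB1 : B ≤ 11 / 25 * exp (-(4 / 5 * x1)))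
    (hG : q * (y * (20 - 8 * p) + 25 * B * p * (1000 / 987)) ≤ B * (20 - 8 * p))
    (hq : 0 ≤ q) (hS0 : 0 ≤ S) (hS20 : 0 ≤ S2) (hlo : S2 ≤ S ^ 2)
    (hN : 1 + 16 / 25 * y ≤ S2 * ((4 / 5 - 8 / 25 * p) * y * (987 / 1000) + B * p))
    (hE : E0 ≤ (8 / 9 * q - 17 / 100) * X) (hex : exp (-E0) ≤ ex)
    (hc : (5 + 7072 / 10000) * S * ex ≤ c * (54 / 125)) : LMok r ρ t X c := by
  have hk1 := h.k_ge hx54
  have hp0 := h.p0
  have hy0 := h.y0
  refine h.lmF hr (β := 11 / 25) (σ := 1) (B := B) (q := q)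
    (h' := 1000 / 987 * (25 * p / (20 - 8 * p))) (S := S) (E0 := E0)
    (ex := ex) hX (HR_11_25 t) (by norm_num) le_rfl hB ?_ ?_ ?_ hq hS0 ?_ hE hex hc
  · have h2 : exp (-(4 / 5 * x1)) ≤ exp (-(1 * (4 / 5 * x))) := Real.exp_le_exp.2 (by linarith)
    linarith
  · refine aa_h hp0 h.p1 ?_
    linarith
  · refine star_of h.p1 ?_
    have e : (y * (20 - 8 * p) + 25 * B * p * (1000 / 987)) *
        (4 / 5 * (4 / 27 * (1 - 1) ^ 3) * x * B + q * y) =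
        y * (q * (y * (20 - 8 * p) + 25 * B * p * (1000 / 987))) := by ring
    rw [e]
    calc y * (q * (y * (20 - 8 * p) + 25 * B * p * (1000 / 987))) ≤ y * (B * (20 - 8 * p)) :=
          mul_le_mul_of_nonneg_left hG hy0.le
      _ = _ := by ring
  · exact PP_le' hp0 h.p1 hy0 h.lA hk1 (by norm_num) hB hS20 hS0 hlo hN

theorem Pr.lmD1 (h : Pr ρ t p y x) (hr : 499 / 10 ≤ r) (hX : X = r * x ^ 2) (hX1 : 108 / 5 ≤ X)
    (ht : 14 / 5 ≤ t) (hx1 : x ≤ 33 / 50) : LMok r ρ t X (167 / 1000) := by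
  have hr0 : 0 < r := by linarith
  have hy0 := h.y0
  have hx00 := h.x0
  have hts := h.ts
  have hXx : 499 / 10 * x ^ 2 ≤ X := by
    rw [hX]
    exact mul_le_mul_of_nonneg_right hr (sq_nonneg x)
  have hXl : 108 / 5 ≤ X := hX1
  have hy : y ≤ 1 - (4859 / 5000) ^ 2 := by
    have h1 : (14 / 5 : ℝ) ^ 2 ≤ t ^ 2 := pow_le_pow_left₀ (by norm_num) ht 2
    have h2 : x ^ 2 ≤ (33 / 50) ^ 2 := pow_le_pow_left₀ hx00.le hx1 2
    have h3 := mul_le_mul_of_nonneg_right h1 hy0.le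
    linarith
  have hp := h.le_p hy
  have hc := cM1 hp h.p1.le
  have hs := sM1 hp h.p1.le
  rw [← h.hy] at hc hs
  refine h.lmS1 hr0 (B := 519 / 2000) (q := 2271 / 5000) (S := 1227 / 625) (S2 := 1927 / 500)
    (E0 := 631 / 125) (ex := 6423 / 1000000) (x1 := 33 / 50) hX hx1 (by linarith) (by norm_num) eM1 hc
    (by norm_num) (by norm_num) (by norm_num) (by norm_num) hs ?_ ?_ (by norm_num)
  · linarith
  · exact ex_neg 5 (6 / 125) (by norm_num) (by norm_num) (by norm_num) (by norm_num)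

theorem Pr.lmD2 (h : Pr ρ t p y x) (hr : 499 / 10 ≤ r) (hX : X = r * x ^ 2)
    (ht : 14 / 5 ≤ t) (hx0 : 33 / 50 ≤ x) (hx1 : x ≤ 7 / 10) : LMok r ρ t X (180 / 1000) := by
  have hr0 : 0 < r := by linarith
  have hy0 := h.y0
  have hx00 := h.x0
  have hts := h.ts
  have hXx : 499 / 10 * x ^ 2 ≤ X := by
    rw [hX]
    exact mul_le_mul_of_nonneg_right hr (sq_nonneg x)
  have hXl : 543411 / 25000 ≤ X := by
    have h2 : (33 / 50) ^ 2 ≤ x ^ 2 := pow_le_pow_left₀ (by norm_num) hx0 2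
    linarith
  have hy : y ≤ 1 - (4841 / 5000) ^ 2 := by
    have h1 : (14 / 5 : ℝ) ^ 2 ≤ t ^ 2 := pow_le_pow_left₀ (by norm_num) ht 2
    have h2 : x ^ 2 ≤ (7 / 10) ^ 2 := pow_le_pow_left₀ hx00.le hx1 2
    have h3 := mul_le_mul_of_nonneg_right h1 hy0.le
    linarith
  have hp := h.le_p hy
  have hc := cM2 hp h.p1.le
  have hs := sM2 hp h.p1.le
  rw [← h.hy] at hc hs
  refine h.lmS1 hr0 (B := 2513 / 10000) (q := 899 / 2000) (S := 399 / 200) (S2 := 199 / 50)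
    (E0 := 4989 / 1000) (ex := 3407 / 500000) (x1 := 7 / 10) hX hx1 (by linarith) (by norm_num) eM2 hc
    (by norm_num) (by norm_num) (by norm_num) (by norm_num) hs ?_ ?_ (by norm_num)
  · linarith
  · exact ex_neg 4 (989 / 1000) (by norm_num) (by norm_num) (by norm_num) (by norm_num)

theorem Pr.lmD3 (h : Pr ρ t p y x) (hr : 499 / 10 ≤ r) (hX : X = r * x ^ 2)
    (ht : 14 / 5 ≤ t) (hx0 : 7 / 10 ≤ x) (hx1 : x ≤ 3 / 4) : LMok r ρ t X (114 / 1000) := by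
  have hr0 : 0 < r := by linarith
  have hy0 := h.y0
  have hx00 := h.x0
  have hts := h.ts
  have hXx : 499 / 10 * x ^ 2 ≤ X := by
    rw [hX]
    exact mul_le_mul_of_nonneg_right hr (sq_nonneg x)
  have hXl : 24451 / 1000 ≤ X := by
    have h2 : (7 / 10) ^ 2 ≤ x ^ 2 := pow_le_pow_left₀ (by norm_num) hx0 2
    linarith
  have hy : y ≤ 1 - (4817 / 5000) ^ 2 := by
    have h1 : (14 / 5 : ℝ) ^ 2 ≤ t ^ 2 := pow_le_pow_left₀ (by norm_num) ht 2
    have h2 : x ^ 2 ≤ (3 / 4) ^ 2 := pow_le_pow_left₀ hx00.le hx1 2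
    have h3 := mul_le_mul_of_nonneg_right h1 hy0.le
    linarith
  have hp := h.le_p hy
  have hc := cM3 hp h.p1.le
  have hs := sM3 hp h.p1.le
  rw [← h.hy] at hc hs
  refine h.lmS1 hr0 (B := 1207 / 5000) (q := 443 / 1000) (S := 4071 / 2000) (S2 := 4143 / 1000)
    (E0 := 5471 / 1000) (ex := 263 / 62500) (x1 := 3 / 4) hX hx1 (by linarith) (by norm_num) eM3 hc
    (by norm_num) (by norm_num) (by norm_num) (by norm_num) hs ?_ ?_ (by norm_num)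
  · linarith
  · exact ex_neg 5 (471 / 1000) (by norm_num) (by norm_num) (by norm_num) (by norm_num)

theorem Pr.lmD4 (h : Pr ρ t p y x) (hr : 499 / 10 ≤ r) (hX : X = r * x ^ 2)
    (ht : 14 / 5 ≤ t) (hx0 : 3 / 4 ≤ x) (hx1 : x ≤ 9 / 10) : LMok r ρ t X (99 / 1000) := by
  have hr0 : 0 < r := by linarith
  have hy0 := h.y0
  have hx00 := h.x0
  have hts := h.ts
  have hXx : 499 / 10 * x ^ 2 ≤ X := by
    rw [hX]
    exact mul_le_mul_of_nonneg_right hr (sq_nonneg x)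
  have hXl : 4491 / 160 ≤ X := by
    have h2 : (3 / 4) ^ 2 ≤ x ^ 2 := pow_le_pow_left₀ (by norm_num) hx0 2
    linarith
  have hy : y ≤ 1 - (9469 / 10000) ^ 2 := by
    have h1 : (14 / 5 : ℝ) ^ 2 ≤ t ^ 2 := pow_le_pow_left₀ (by norm_num) ht 2
    have h2 : x ^ 2 ≤ (9 / 10) ^ 2 := pow_le_pow_left₀ hx00.le hx1 2
    have h3 := mul_le_mul_of_nonneg_right h1 hy0.le
    linarith
  have hp := h.le_p hy
  have hc := cM4 hp h.p1.le
  have hs := sM4 hp h.p1.le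
  rw [← h.hy] at hc hs
  refine h.lmS1 hr0 (B := 2141 / 10000) (q := 4187 / 10000) (S := 21613 / 10000) (S2 := 4671 / 1000)
    (E0 := 2837 / 500) (ex := 687 / 200000) (x1 := 9 / 10) hX hx1 (by linarith) (by norm_num) eM4 hc
    (by norm_num) (by norm_num) (by norm_num) (by norm_num) hs ?_ ?_ (by norm_num)
  · linarith
  · exact ex_neg 5 (337 / 500) (by norm_num) (by norm_num) (by norm_num) (by norm_num)

theorem Pr.lmD5 (h : Pr ρ t p y x) (hr : 499 / 10 ≤ r) (hX : X = r * x ^ 2)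
    (ht : 14 / 5 ≤ t) (hx0 : 9 / 10 ≤ x) (hx1 : x ≤ 21 / 20) : LMok r ρ t X (27 / 1000) := by
  have hr0 : 0 < r := by linarith
  have hy0 := h.y0
  have hx00 := h.x0
  have hts := h.ts
  have hXx : 499 / 10 * x ^ 2 ≤ X := by
    rw [hX]
    exact mul_le_mul_of_nonneg_right hr (sq_nonneg x)
  have hXl : 40419 / 1000 ≤ X := by
    have h2 : (9 / 10) ^ 2 ≤ x ^ 2 := pow_le_pow_left₀ (by norm_num) hx0 2
    linarith
  have hy : y ≤ 1 - (927 / 1000) ^ 2 := by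
    have h1 : (14 / 5 : ℝ) ^ 2 ≤ t ^ 2 := pow_le_pow_left₀ (by norm_num) ht 2
    have h2 : x ^ 2 ≤ (21 / 20) ^ 2 := pow_le_pow_left₀ hx00.le hx1 2
    have h3 := mul_le_mul_of_nonneg_right h1 hy0.le
    linarith
  have hp := h.le_p hy
  have hc := cM5 hp h.p1.le
  have hs := sM5 hp h.p1.le
  rw [← h.hy] at hc hs
  refine h.lmS1 hr0 (B := 1899 / 10000) (q := 242 / 625) (S := 5737 / 2500) (S2 := 2633 / 500)
    (E0 := 176 / 25) (ex := 877 / 1000000) (x1 := 21 / 20) hX hx1 (by linarith) (by norm_num) eM5 hc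
    (by norm_num) (by norm_num) (by norm_num) (by norm_num) hs ?_ ?_ (by norm_num)
  · linarith
  · exact ex_neg 7 (1 / 25) (by norm_num) (by norm_num) (by norm_num) (by norm_num)

theorem Pr.lmD6 (h : Pr ρ t p y x) (hr : 499 / 10 ≤ r) (hX : X = r * x ^ 2)
    (ht : 14 / 5 ≤ t) (hx0 : 21 / 20 ≤ x) (hx1 : x ≤ 6331 / 5000) : LMok r ρ t X (39 / 1000) := by
  have hr0 : 0 < r := by linarith
  have hy0 := h.y0
  have hx00 := h.x0
  have hts := h.ts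
  have hXx : 499 / 10 * x ^ 2 ≤ X := by
    rw [hX]
    exact mul_le_mul_of_nonneg_right hr (sq_nonneg x)
  have hXl : 220059 / 4000 ≤ X := by
    have h2 : (21 / 20) ^ 2 ≤ x ^ 2 := pow_le_pow_left₀ (by norm_num) hx0 2
    linarith
  have hy : y ≤ 1 - (8919 / 10000) ^ 2 := by
    have h1 : (14 / 5 : ℝ) ^ 2 ≤ t ^ 2 := pow_le_pow_left₀ (by norm_num) ht 2
    have h2 : x ^ 2 ≤ (6331 / 5000) ^ 2 := pow_le_pow_left₀ hx00.le hx1 2
    have h3 := mul_le_mul_of_nonneg_right h1 hy0.le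
    linarith
  have hp := h.le_p hy
  have hc := cM6 hp h.p1.le
  have hs := sM6 hp h.p1.le
  rw [← h.hy] at hc hs
  refine h.lmSk hr0 (B := 1597 / 10000) (q := 3293 / 10000) (S := 1564 / 625) (S2 := 3131 / 500)
    (E0 := 27 / 4) (ex := 1171 / 1000000) (x1 := 6331 / 5000) hX hx1 (by linarith) (by norm_num) eM6 hc
    (by norm_num) (by norm_num) (by norm_num) (by norm_num) hs ?_ ?_ (by norm_num)
  · linarith
  · exact ex_neg 6 (3 / 4) (by norm_num) (by norm_num) (by norm_num) (by norm_num)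

/-- `t ≥ 14/5` -/
theorem Pr.lmD (h : Pr ρ t p y x) (hr : 499 / 10 ≤ r) (hX : X = r * x ^ 2) (hX1 : 108 / 5 ≤ X)
    (hX2 : X ≤ 80) (ht : 14 / 5 ≤ t) (_ht1 : t ≤ π) : LMok r ρ t X (183 / 1000) := by
  have hXx : 499 / 10 * x ^ 2 ≤ X := by
    rw [hX]
    exact mul_le_mul_of_nonneg_right hr (sq_nonneg x)
  have hx : x ≤ 6331 / 5000 := by
    refine abs_le_of_sq_le_sq' ?_ (by norm_num) |>.2
    norm_num
    linarith
  rcases le_total x (33 / 50) with h1 | h1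
  · exact (h.lmD1 hr hX hX1 ht h1).mono (by norm_num)
  rcases le_total x (7 / 10) with h2 | h2
  · exact (h.lmD2 hr hX ht h1 h2).mono (by norm_num)
  rcases le_total x (3 / 4) with h3 | h3
  · exact (h.lmD3 hr hX ht h2 h3).mono (by norm_num)
  rcases le_total x (9 / 10) with h4 | h4
  · exact (h.lmD4 hr hX ht h3 h4).mono (by norm_num)
  rcases le_total x (21 / 20) with h5 | h5
  · exact (h.lmD5 hr hX ht h4 h5).mono (by norm_num)
  · exact (h.lmD6 hr hX ht h5 hx).mono (by norm_num)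

end SokalDz
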