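import Pool.Agent.Lib_MP_af4de1_v3.DzX4

/-!
# The real inequalities of the fields `d` for `X > 80` (helper20): `realX_L`, `realX_R`
-/

set_option autoImplicit false

namespace SokalDz

open Real MeasureTheory Set SokalCen SokalV3

variable {r ρ t φ p y x z s u v c k α A B l e : ℝ}

/-- the largest angle: `(1 + 16y/25) (4/5) D ≤ (34/5) (4/5 - 8p/25) y` -/
theorem PX.Dineq (h : PX r ρ t p y x s) (hy : 37 / 50 ≤ y) :
    (1 + 16 / 25 * y) * (4 / 5 * (2 * π * s - min (π * s) √(31 / 4))) ≤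
      34 / 5 * (4 / 5 - 8 / 25 * p) * y := by
  have hp0 := h.pr.p0
  have hs0 := h.s0
  have hs1 := h.s1
  have hps := h.ps
  have hys := h.hs
  have hpi := Real.pi_lt_d4
  have hs3 : 8602 / 10000 ≤ s := by
    by_contra hc
    have : s < 8602 / 10000 := not_le.1 hc
    nlinarith
  have hpb : p ≤ 5 / 4 - s ^ 2 := by nlinarith [sq_nonneg (p - 1 / 2)]
  have hq : 27838 / 10000 ≤ √(31 / 4) := by
    rw [Real.le_sqrt' (by norm_num)]
    norm_num
  have hR : 34 / 5 * (4 / 5 - 8 / 25 * (5 / 4 - s ^ 2)) * s ^ 2 ≤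
      34 / 5 * (4 / 5 - 8 / 25 * p) * y := by
    rw [← hys]
    refine mul_le_mul_of_nonneg_right ?_ (sq_nonneg s)
    linarith
  refine le_trans ?_ hR
  rw [← hys]
  rcases le_total (π * s) √(31 / 4) with hc | hc
  · rw [min_eq_left hc]
    have h1 : 2 * π * s - π * s = π * s := by ring
    rw [h1]
    have h2 : π * s ≤ 31416 / 10000 * s := mul_le_mul_of_nonneg_right (by linarith) hs0.le
    have h3 : (1 + 16 / 25 * s ^ 2) * (4 / 5 * (π * s)) ≤
        (1 + 16 / 25 * s ^ 2) * (4 / 5 * (31416 / 10000 * s)) := by gcongr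
    refine h3.trans ?_
    have h4 : (1 + 16 / 25 * s ^ 2) * (4 / 5 * (31416 / 10000)) ≤
        34 / 5 * (4 / 5 - 8 / 25 * (5 / 4 - s ^ 2)) * s := by
      nlinarith [mul_nonneg (sub_nonneg.2 hs3) (sub_nonneg.2 hs1.le),
        mul_nonneg (mul_nonneg (sub_nonneg.2 hs3) (sub_nonneg.2 hs1.le)) hs0.le]
    nlinarith
  · rw [min_eq_right hc]
    have h2 : 2 * π * s - √(31 / 4) ≤ 62832 / 10000 * s - 27838 / 10000 := by nlinarith
    have h3 : (1 + 16 / 25 * s ^ 2) * (4 / 5 * (2 * π * s - √(31 / 4))) ≤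
        (1 + 16 / 25 * s ^ 2) * (4 / 5 * (62832 / 10000 * s - 27838 / 10000)) := by gcongr
    refine h3.trans ?_
    nlinarith [mul_nonneg (sub_nonneg.2 hs3) (sub_nonneg.2 hs1.le),
        mul_nonneg (mul_nonneg (sub_nonneg.2 hs3) (sub_nonneg.2 hs1.le)) hs0.le,
        mul_nonneg (mul_nonneg (sub_nonneg.2 hs3) (sub_nonneg.2 hs1.le)) (sq_nonneg s)]

theorem PX.QL (h : PX r ρ t p y x s) (hφ : φ = t ∨ φ = 2 * π - t) (hy : 37 / 50 ≤ y)
    (hX : r * x ^ 2 ≤ 31 / 4 * r) :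
    PP p y / lA ρ φ ≤ 34 / 5 * exp (2 * (31 / 100 * r - r * x ^ 2 / 25)) := by
  have hr := h.rpos
  have hr0 := h.r0
  have hp0 := h.pr.p0
  have hp1 := h.pr.p1
  have hy0 := h.y0
  have hs0 := h.s0
  have hs1 := h.s1
  have hps := h.ps
  have hys := h.hs
  have hx0 := h.pr.x0
  have hxpi := h.xpi
  have hpi := Real.pi_gt_d4
  have ht0 := h.pr.t0
  have hφ0 : 0 < φ := by
    rcases hφ with rfl | rfl
    · exact ht0
    · linarith [h.t1]
  have hs3 : 860 / 1000 ≤ s := by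
    by_contra hc
    have : s < 860 / 1000 := not_le.1 hc
    nlinarith
  have hA := h.lA_pos hφ0
  have hx2 : x ^ 2 ≤ 31 / 4 := by
    have : r * x ^ 2 ≤ r * (31 / 4) := by linarith
    exact le_of_mul_le_mul_left this hr
  have hq : 27838 / 10000 ≤ √(31 / 4) := by
    rw [Real.le_sqrt' (by norm_num)]
    norm_num
  have hD := h.Dineq hy
  set x1 := min (π * s) √(31 / 4) with hx1
  have hxx1 : x ≤ x1 := le_min hxpi (Real.le_sqrt_of_sq_le hx2)
  have hx1a : x1 ≤ π * s := min_le_left _ _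
  have hx1b : 27 / 10 ≤ x1 := le_min (by nlinarith) (by linarith)
  have hx1c : x1 ^ 2 ≤ 31 / 4 := by
    have h1 : x1 ≤ √(31 / 4) := min_le_right _ _
    have h2 := pow_le_pow_left₀ (by linarith : 0 ≤ x1) h1 2
    rwa [Real.sq_sqrt (by norm_num)] at h2
  set D := 2 * π * s - x1 with hDdef
  have hD1 : π * s ≤ D := by
    rw [hDdef]
    linarith
  have hD2 : 27 / 10 ≤ D := by nlinarith
  have hD0 : 0 < D := by linarith
  set G := 2 * (31 / 100 * r - r * x ^ 2 / 25) with hG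
  have hG1 : (x1 - x) / D ≤ G := by
    have h1 : 2 * r * ((x1 - x) * (x1 + x)) / 25 ≤ G := by
      rw [hG]
      nlinarith
    refine le_trans ?_ h1
    rw [div_le_iff₀ hD0]
    have h2 : 1 ≤ 2 * r * (x1 + x) / 25 * D := by
      have h3 : 10 ≤ 2 * r * (x1 + x) / 25 := by nlinarith
      nlinarith
    have h3 : 0 ≤ x1 - x := by linarith
    calc x1 - x ≤ (x1 - x) * (2 * r * (x1 + x) / 25 * D) := le_mul_of_one_le_right h3 h2
      _ = _ := by ring
  have hG0 : 0 ≤ G := le_trans (div_nonneg (by linarith) hD0.le) hG1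
  have hz : φ * s ≤ D * exp G := by
    rcases hφ with rfl | rfl
    · rw [← h.xs]
      have : 1 ≤ exp G := Real.one_le_exp hG0
      nlinarith
    · have h1 : (2 * π - t) * s = D + (x1 - x) := by
        rw [hDdef, h.xs]
        ring
      rw [h1]
      have h2 : 1 + (x1 - x) / D ≤ exp G := by
        have := Real.add_one_le_exp ((x1 - x) / D)
        have := exp_le_exp.2 hG1
        linarith
      calc D + (x1 - x) = D * (1 + (x1 - x) / D) := by field_simp
        _ ≤ _ := mul_le_mul_of_nonneg_left h2 hD0.le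
  have h1e : 1 ≤ exp G := Real.one_le_exp hG0
  -- `1 ≤ κ (4/5) D e^G`
  have hκ : 1 ≤ min 1 (mm ρ / φ) * (4 / 5 * (D * exp G)) := by
    have hz0 : 0 < φ * s := by positivity
    rw [(h.prφ hφ0).mt]
    rcases le_total 1 (5 / (4 * (φ * s))) with hc | hc
    · rw [min_eq_left hc]
      nlinarith
    · rw [min_eq_right hc, div_mul_eq_mul_div, le_div_iff₀ (by positivity)]
      linarith
  rw [div_le_iff₀ hA, h.lA_eq hφ0, aa_eq hp0]
  unfold PP
  rw [div_le_iff₀ hp0]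
  have e1 : 34 / 5 * exp G * ((4 / 5 - 8 / 25 * p) / p * y * min 1 (mm ρ / φ)) * p =
      (34 / 5 * (4 / 5 - 8 / 25 * p) * y) * (min 1 (mm ρ / φ) * exp G) := by
    field_simp
  rw [e1]
  have hκ0 : 0 ≤ min 1 (mm ρ / φ) * exp G := by
    have := h.pr.m0
    positivity
  calc 1 + 16 / 25 * y ≤ (1 + 16 / 25 * y) * (min 1 (mm ρ / φ) * (4 / 5 * (D * exp G))) :=
        le_mul_of_one_le_right (by positivity) hκ
    _ = ((1 + 16 / 25 * y) * (4 / 5 * D)) * (min 1 (mm ρ / φ) * exp G) := by ring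
    _ ≤ _ := mul_le_mul_of_nonneg_right hD hκ0

theorem exp_11976 : exp (-(24 / 100 * (499 / 10))) ≤ 6304 / 1000000000 := by
  have h1 : exp (-(24 / 100 * (499 / 10))) = exp (-((12 : ℕ) : ℝ)) * exp (24 / 1000) := by
    rw [← exp_add]
    congr 1
    norm_num
  have h2 : exp (24 / 1000) ≤ 1 / (1 - 24 / 1000) := by
    have h3 := Real.one_sub_le_exp_neg (24 / 1000)
    rw [Real.exp_neg] at h3
    have h4 := exp_pos (24 / 1000)
    rw [← one_div, le_div_iff₀ h4] at h3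
    rw [le_div_iff₀ (by norm_num)]
    linarith
  rw [h1]
  refine (mul_le_mul (exp_neg_nat_le 12) h2 (exp_pos _).le (by positivity)).trans ?_
  norm_num

/-- left far -/
theorem PX.tLF (h : PX r ρ t p y x s) (hφ : φ = t ∨ φ = 2 * π - t) :
    ∃ e, HE ρ e ∧ Kc r ρ * ((4 * r + 1) * lF r ρ φ e) ≤
      76 / 100 * (27 / 5 * Fd r ρ (r * x ^ 2)) := by
  have hr := h.rpos
  have hr0 := h.r0
  have hp0 := h.pr.p0
  have hp1 := h.pr.p1
  have hy0 := h.y0
  have hyp : y = 1 - p ^ 2 := h.pr.hy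
  have ht0 := h.pr.t0
  have ht1 := h.t1
  have hpi := Real.pi_gt_d4
  have hpi2 := Real.pi_lt_d4
  have hX := h.hX
  have hφ0 : 0 < φ := by
    rcases hφ with rfl | rfl
    · exact ht0
    · linarith
  have hφ2 : φ ≤ 2 * π := by
    rcases hφ with rfl | rfl
    · linarith
    · linarith
  have hA := h.lA_pos hφ0
  have hpi3 : π ^ 2 ≤ 987 / 100 := by nlinarith [Real.pi_pos]
  have hXy : r * x ^ 2 / 25 ≤ 987 / 2500 * y * r := by
    have h1 := h.rx
    have h2 : r * (π ^ 2 * y) ≤ r * (987 / 100 * y) := by gcongr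
    linarith
  by_cases hp : p ≤ 25 / 38
  swap
  · -- (a)
    have hp' : 25 / 38 < p := not_le.1 hp
    have hy2 : y ≤ 5672 / 10000 := by nlinarith
    refine ⟨1 / 2, HE_half h.pr.ρ0, (h.LF0 hφ0 _).trans ?_⟩
    have h1 := h.sA hφ0 hφ2 (h.lA_ge hφ0) hA
    have h2 : exp (-(r * (1 / 2))) ≤ exp (-(276 / 1000 * r)) * exp (-(r * x ^ 2 / 25)) := by
      rw [← exp_add]
      refine exp_le_exp.2 ?_
      nlinarith
    have h3 := pow_exp_le (c := 276 / 1000) 2 (by norm_num : (0:ℝ) < 499 / 10) hr0 (by norm_num)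
    have h4 := exp_neg_split (q := 772 / 1000) (G := 276 / 1000 * (499 / 10)) 13 (by norm_num)
      (by norm_num)
    norm_num at h4
    have hE := exp_pos (-(r * x ^ 2 / 25))
    have hF := Fd_ge1 (ρ := ρ) hr hX
    calc 6125 / 10000 * (402010 / 100000 * r) * √(PP p y / lA ρ φ) * exp (-(r * (1 / 2))) ≤
        6125 / 10000 * (402010 / 100000 * r) * (2487 / 10000 * r) *
        (exp (-(276 / 1000 * r)) * exp (-(r * x ^ 2 / 25))) := by gcongr
      _ = 6125 / 10000 * (402010 / 100000) * (2487 / 10000) * (r ^ 2 * exp (-(276 / 1000 * r))) *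
          exp (-(r * x ^ 2 / 25)) := by ring
      _ ≤ 76 / 100 * (27 / 10000) * exp (-(r * x ^ 2 / 25)) := by
          refine mul_le_mul_of_nonneg_right ?_ hE.le
          refine (mul_le_mul_of_nonneg_left h3 (by norm_num)).trans ?_
          norm_num
          linarith
      _ ≤ _ := by linarith
  have hmm : 19 / 10 ≤ mm ρ / ρ := by
    rw [h.pr.mr, le_div_iff₀ (by positivity)]
    linarith
  have hy3 : 3 / 10 ≤ y := by nlinarith
  have hs22 : √(PP p y / lA ρ φ) ≤ 4691 / 1000 := by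
    rw [Real.sqrt_le_left (by norm_num), div_le_iff₀ hA]
    have := h.PL0 hφ0 hφ2 hy3
    nlinarith
  refine ⟨11 / 20, HE_11_20 hmm, (h.LF0 hφ0 _).trans ?_⟩
  by_cases hX3 : r * x ^ 2 ≤ 31 / 4 * r
  swap
  · -- (e)
    have hX3' : 31 / 4 * r < r * x ^ 2 := not_le.1 hX3
    have hF := Fd_ge3 (ρ := ρ) hr hX hX3'
    have h2 : exp (-(r * (11 / 20))) = exp (-(27 / 100 * r)) * exp (-(7 / 25 * r)) := by
      rw [← exp_add]
      congr 1
      ring
    have h3 := pow_exp_le (c := 27 / 100) 1 (by norm_num : (0:ℝ) < 499 / 10) hr0 (by norm_num)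
    have h4 := exp_neg_split (q := 473 / 1000) (G := 27 / 100 * (499 / 10)) 13 (by norm_num)
      (by norm_num)
    norm_num at h4
    have hE := exp_pos (-(7 / 25 * r))
    rw [h2]
    calc 6125 / 10000 * (402010 / 100000 * r) * √(PP p y / lA ρ φ) *
          (exp (-(27 / 100 * r)) * exp (-(7 / 25 * r))) ≤
        6125 / 10000 * (402010 / 100000 * r) * (4691 / 1000) *
        (exp (-(27 / 100 * r)) * exp (-(7 / 25 * r))) := by gcongr
      _ = 6125 / 10000 * (402010 / 100000) * (4691 / 1000) * (r ^ 1 * exp (-(27 / 100 * r))) *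
          exp (-(7 / 25 * r)) := by ring
      _ ≤ 76 / 100 * (27 / 10000) * exp (-(7 / 25 * r)) := by
          refine mul_le_mul_of_nonneg_right ?_ hE.le
          refine (mul_le_mul_of_nonneg_left h3 (by norm_num)).trans ?_
          norm_num
          linarith
      _ ≤ _ := by linarith
  have hF := Fd_ge1 (ρ := ρ) hr hX
  have hE := exp_pos (-(r * x ^ 2 / 25))
  by_cases hy4 : y ≤ 37 / 50
  · -- (b)
    have h2 : exp (-(r * (11 / 20))) ≤ exp (-(2578 / 10000 * r)) * exp (-(r * x ^ 2 / 25)) := by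
      rw [← exp_add]
      refine exp_le_exp.2 ?_
      nlinarith
    have h3 := pow_exp_le (c := 2578 / 10000) 1 (by norm_num : (0:ℝ) < 499 / 10) hr0 (by norm_num)
    have h4 := exp_neg_split (q := 864 / 1000) (G := 2578 / 10000 * (499 / 10)) 12 (by norm_num)
      (by norm_num)
    norm_num at h4
    calc 6125 / 10000 * (402010 / 100000 * r) * √(PP p y / lA ρ φ) * exp (-(r * (11 / 20))) ≤
        6125 / 10000 * (402010 / 100000 * r) * (4691 / 1000) *
        (exp (-(2578 / 10000 * r)) * exp (-(r * x ^ 2 / 25))) := by gcongr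
      _ = 6125 / 10000 * (402010 / 100000) * (4691 / 1000) * (r ^ 1 * exp (-(2578 / 10000 * r))) *
          exp (-(r * x ^ 2 / 25)) := by ring
      _ ≤ 76 / 100 * (27 / 10000) * exp (-(r * x ^ 2 / 25)) := by
          refine mul_le_mul_of_nonneg_right ?_ hE.le
          refine (mul_le_mul_of_nonneg_left h3 (by norm_num)).trans ?_
          norm_num
          linarith
      _ ≤ _ := by linarith
  · -- (c), (d)
    have hQ := h.QL hφ (not_le.1 hy4).le hX3
    have hsq : √(PP p y / lA ρ φ) ≤ 2608 / 1000 * exp (31 / 100 * r - r * x ^ 2 / 25) := by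
      rw [Real.sqrt_le_left (by positivity), mul_pow, ← Real.exp_nat_mul]
      refine hQ.trans ?_
      push_cast
      exact mul_le_mul_of_nonneg_right (by norm_num) (exp_pos _).le
    have h3 := pow_exp_le (c := 24 / 100) 1 (by norm_num : (0:ℝ) < 499 / 10) hr0 (by norm_num)
    have h4 := exp_11976
    have h5 : exp (31 / 100 * r - r * x ^ 2 / 25) * exp (-(r * (11 / 20))) =
        exp (-(24 / 100 * r)) * exp (-(r * x ^ 2 / 25)) := by
      rw [← exp_add, ← exp_add]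
      congr 1
      ring
    calc 6125 / 10000 * (402010 / 100000 * r) * √(PP p y / lA ρ φ) * exp (-(r * (11 / 20))) ≤
        6125 / 10000 * (402010 / 100000 * r) * (2608 / 1000 * exp (31 / 100 * r - r * x ^ 2 / 25)) *
          exp (-(r * (11 / 20))) := by gcongr
      _ = 6125 / 10000 * (402010 / 100000 * r) * (2608 / 1000) *
        (exp (31 / 100 * r - r * x ^ 2 / 25) * exp (-(r * (11 / 20)))) := by ring
      _ = 6125 / 10000 * (402010 / 100000) * (2608 / 1000) * (r ^ 1 * exp (-(24 / 100 * r))) *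
          exp (-(r * x ^ 2 / 25)) := by
          rw [h5]
          ring
      _ ≤ 76 / 100 * (27 / 10000) * exp (-(r * x ^ 2 / 25)) := by
          refine mul_le_mul_of_nonneg_right ?_ hE.le
          refine (mul_le_mul_of_nonneg_left h3 (by norm_num)).trans ?_
          norm_num at h4 ⊢
          linarith
      _ ≤ _ := by linarith

/-- the left main parameters, wave on the left -/
theorem PX.ML (h : PX r ρ t p y x s) : ∃ B' l, HL ρ t B' l ∧
    l ≤ lA ρ t * B' * t ^ 2 / (lA ρ t + B') ∧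
    Kc r ρ * (20 / 3 * lM (8 / 9 * r) ρ t B' l + 1 * lM r ρ t B' l) ≤
      56 / 1000 * (27 / 10000 * exp (-(r * x ^ 2 / 25))) := by
  have ht0 := h.pr.t0
  have ht1 := h.t1
  have hpi := Real.pi_pos
  have hX := h.hX
  have hA := h.lA_pos ht0
  have hb := bc_gt
  have hb0 : 0 < bc := by linarith
  have hl0 : (0 : ℝ) ≤ lA ρ t * bc * t ^ 2 / (lA ρ t + bc) := by positivity
  rcases le_total y (3 / 10) with hy | hy
  · exact ⟨bc, 0, HL_bc, hl0, h.tLM ht0 (by linarith) (by linarith) (h.ELM24 le_rfl hy)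
      (by linarith)⟩
  · rcases le_total (r * x ^ 2) 130 with h1 | h1
    · have h2 := h.ELM23 h1 hy
      refine ⟨63 / 200, 13 / 500 * t ^ 2, h.HL130 h1, ?_, h.tLM ht0 (by linarith) (by norm_num) h2
        (by linarith)⟩
      have h3 : 0 < r * (lA ρ t * (63 / 200) * t ^ 2 / (lA ρ t + 63 / 200) - 13 / 500 * t ^ 2) := by
        linarith
      have h4 := (mul_pos_iff_of_pos_left h.rpos).1 h3
      linarith
    · exact ⟨bc, 0, HL_bc, hl0, h.tLM ht0 (by linarith) (by linarith) (h.ELM15 le_rfl)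
        (by linarith)⟩

/-- the left main parameters, wave on the right -/
theorem PX.MR (h : PX r ρ t p y x s) : ∃ B' l, HL ρ (2 * π - t) B' l ∧
    l ≤ lA ρ (2 * π - t) * B' * (2 * π - t) ^ 2 / (lA ρ (2 * π - t) + B') ∧
    Kc r ρ * (20 / 3 * lM (8 / 9 * r) ρ (2 * π - t) B' l + 1 * lM r ρ (2 * π - t) B' l) ≤
      56 / 1000 * (27 / 10000 * exp (-(r * x ^ 2 / 25))) := by
  have ht0 := h.pr.t0
  have ht1 := h.t1
  have hpi := Real.pi_gt_d4
  have hX := h.hX
  have hφ0 : 0 < 2 * π - t := by linarith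
  have hA := h.lA_pos hφ0
  have hb := bc_gt
  have hb0 : 0 < bc := by linarith
  have hl0 : (0 : ℝ) ≤ lA ρ (2 * π - t) * bc * (2 * π - t) ^ 2 / (lA ρ (2 * π - t) + bc) := by
    positivity
  refine ⟨bc, 0, HL_bc, hl0, ?_⟩
  rcases le_total y (3 / 10) with hy | hy
  · exact h.tLM hφ0 (by linarith) (by linarith) (h.ELM24 (by linarith) hy) (by linarith)
  · have h1 := h.pi.ELM15 (φ := 2 * π - t) (by linarith)
    refine h.tLM hφ0 (by linarith) (by linarith) h1 ?_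
    have h2 := h.rx
    have h3 : r * (π * s) ^ 2 = r * (π ^ 2 * y) := by
      rw [mul_pow, h.hs]
    rw [h3]
    have h4 : 147 ≤ r * (π ^ 2 * y) := by
      have h5 : 98 / 10 ≤ π ^ 2 := by nlinarith
      have h6 : 98 / 10 * (3 / 10) ≤ π ^ 2 * y := mul_le_mul h5 hy (by norm_num) (by positivity)
      have := h.r0
      nlinarith
    linarith

/-- assembly -/
theorem PX.asm (h : PX r ρ t p y x s) {φR φL B' l e : ℝ}
    (h1 : Kc r ρ * (56 / 3 * rM (8 / 9 * r) ρ φR (11 / 25) + 68 / 25 * rM r ρ φR (11 / 25)) ≤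
      25 / 1000 * (27 / 10000 * exp (-(r * x ^ 2 / 25))))
    (h2 : Kc r ρ * (56 / 3 * rT (8 / 9 * r) ρ φR + 68 / 25 * rT r ρ φR) ≤
      2 / 1000 * (27 / 10000 * exp (-(r * x ^ 2 / 25))))
    (h3 : Kc r ρ * (56 / 3 * rO (8 / 9 * r) ρ φR + 68 / 25 * rO r ρ φR) ≤
      2 / 1000 * (27 / 10000 * exp (-(r * x ^ 2 / 25))))
    (h4 : Kc r ρ * (20 / 3 * lM (8 / 9 * r) ρ φL B' l + 1 * lM r ρ φL B' l) ≤
      56 / 1000 * (27 / 10000 * exp (-(r * x ^ 2 / 25))))
    (h5 : Kc r ρ * (20 / 3 * lT (8 / 9 * r) ρ φL + 1 * lT r ρ φL) ≤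
      2 / 1000 * (27 / 10000 * exp (-(r * x ^ 2 / 25))))
    (h6 : Kc r ρ * (20 / 3 * lO (8 / 9 * r) ρ φL + 1 * lO r ρ φL) ≤
      2 / 1000 * (27 / 10000 * exp (-(r * x ^ 2 / 25))))
    (h7 : Kc r ρ * ((14 * r + 68 / 25) * rF r ρ φR) ≤
      12 / 100 * (27 / 10000 * exp (-(31 / 100 * r))))
    (h8 : Kc r ρ * ((4 * r + 1) * lF r ρ φL e) ≤ 76 / 100 * (27 / 5 * Fd r ρ (r * x ^ 2))) :
    Kc r ρ * SW r ρ φR φL (14 / 5) (14 / 5) (11 / 25) B' l e ≤ 27 / 5 * Fd r ρ (r * x ^ 2) := by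
  have hF1 := Fd_ge1 (ρ := ρ) h.rpos h.hX
  have hF2 := Fd_ge2 (ρ := ρ) h.rpos h.hX
  have hE := exp_pos (-(r * x ^ 2 / 25))
  have hE2 := exp_pos (-(31 / 100 * r))
  have e1 : Kc r ρ * SW r ρ φR φL (14 / 5) (14 / 5) (11 / 25) B' l e =
      Kc r ρ * (56 / 3 * rM (8 / 9 * r) ρ φR (11 / 25) + 68 / 25 * rM r ρ φR (11 / 25)) +
      Kc r ρ * (56 / 3 * rT (8 / 9 * r) ρ φR + 68 / 25 * rT r ρ φR) +
      Kc r ρ * (56 / 3 * rO (8 / 9 * r) ρ φR + 68 / 25 * rO r ρ φR) +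
      Kc r ρ * (20 / 3 * lM (8 / 9 * r) ρ φL B' l + 1 * lM r ρ φL B' l) +
      Kc r ρ * (20 / 3 * lT (8 / 9 * r) ρ φL + 1 * lT r ρ φL) +
      Kc r ρ * (20 / 3 * lO (8 / 9 * r) ρ φL + 1 * lO r ρ φL) +
      Kc r ρ * ((14 * r + 68 / 25) * rF r ρ φR) + Kc r ρ * ((4 * r + 1) * lF r ρ φL e) := by
    unfold SW
    ring
  rw [e1]
  linarith

/-- REAL INEQUALITY, left, `X > 80` -/
theorem realX_L (h : HypD r ρ t) (hX : 80 < r * t ^ 2 / (1 + ρ ^ 2)) :
    ∃ C Cf B B' l e : ℝ, HR (2 * π - t) B ∧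
      HC ρ (2 * π - t) C ∧ HF ρ (2 * π - t) Cf ∧ HL ρ t B' l ∧ HE ρ e ∧
      l ≤ lA ρ t * B' * t ^ 2 / (lA ρ t + B') ∧
      Kc r ρ * SW r ρ (2 * π - t) t C Cf B B' l e ≤ 27 / 5 * Fd r ρ (r * t ^ 2 / (1 + ρ ^ 2)) := by
  obtain ⟨p, y, x, s, H, hx, _⟩ := PX.ex h hX
  rw [← hx]
  obtain ⟨B', l, h1, h2, h3⟩ := H.ML
  obtain ⟨e, he, h4⟩ := H.tLF (φ := t) (Or.inl rfl)
  have ht0 := h.t0
  have ht1 := h.t1
  have hpi := Real.pi_pos
  refine ⟨14 / 5, 14 / 5, 11 / 25, B', l, e, HR_11_25 _, HC_big _ _, HF_big _ _, h1, he, h2,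
    H.asm (H.tRM (by linarith) (by linarith)) (H.tRT (by linarith))
      (H.tRO (by linarith) (by linarith) (by linarith)) h3 (H.tLT le_rfl)
      (H.tLO ht0 (by linarith) (by linarith)) (H.tRF (by linarith) (by linarith)) h4⟩

/-- REAL INEQUALITY, right, `X > 80` -/
theorem realX_R (h : HypD r ρ t) (hX : 80 < r * t ^ 2 / (1 + ρ ^ 2)) :
    ∃ C Cf B B' l e : ℝ, HR t B ∧
      HC ρ t C ∧ HF ρ t Cf ∧ HL ρ (2 * π - t) B' l ∧ HE ρ e ∧
      l ≤ lA ρ (2 * π - t) * B' * (2 * π - t) ^ 2 / (lA ρ (2 * π - t) + B') ∧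
      Kc r ρ * SW r ρ t (2 * π - t) C Cf B B' l e ≤ 27 / 5 * Fd r ρ (r * t ^ 2 / (1 + ρ ^ 2)) := by
  obtain ⟨p, y, x, s, H, hx, _⟩ := PX.ex h hX
  rw [← hx]
  obtain ⟨B', l, h1, h2, h3⟩ := H.MR
  obtain ⟨e, he, h4⟩ := H.tLF (φ := 2 * π - t) (Or.inr rfl)
  have ht0 := h.t0
  have ht1 := h.t1
  have hpi := Real.pi_pos
  refine ⟨14 / 5, 14 / 5, 11 / 25, B', l, e, HR_11_25 _, HC_big _ _, HF_big _ _, h1, he, h2,
    H.asm (H.tRM le_rfl (by linarith)) (H.tRT le_rfl)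
      (H.tRO ht0 (by linarith) (by linarith)) h3 (H.tLT (by linarith))
      (H.tLO (by linarith) (by linarith) (by linarith)) (H.tRF ht0 (by linarith)) h4⟩

end SokalDz
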