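import Pool.Agent.Lib_MP_af4de1_v3.DzRL9
import Pool.Agent.Lib_MP_af4de1_v3.DzRLk
import Pool.Agent.Lib_MP_af4de1_v3.DzRLm
import Pool.Agent.Lib_MP_af4de1_v3.DzRealX
import Pool.Agent.Lib_MP_af4de1_v3.DzFin

/-!
# The real inequality of the field `L.d`: `PRealDL` (helper7, helper25, helper20)
-/

set_option autoImplicit false

namespace SokalDz

open Real MeasureTheory Set SokalCen SokalV3

variable {r ρ t p y x X : ℝ}

/-- the case `t ≥ 14/5` -/
theorem goalL_hi (h : Pr ρ t p y x) (hr : 499 / 10 ≤ r) (hXe : r * t ^ 2 / (1 + ρ ^ 2) = X)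
    (hX : X = r * x ^ 2) (hX1 : 108 / 5 ≤ X) (hX2 : X ≤ 80) (ht : 14 / 5 ≤ t) (htp : t ≤ π)
    (gF : gFok r ρ t X (31 / 1000)) : GoalL r ρ t := by
  have hr0 : 0 < r := by linarith
  have hx1 := h.x_le hr hX hX2
  have hρ := h.ρ0
  have hF := HF_big ρ (2 * π - t)
  have hy1 : y ≤ 2809 / 5000 := by
    have := h.y_le ht hx1
    norm_num at this
    linarith
  have gM := h.lmD hr hX hX1 hX2 ht htp
  have gT := h.glT3 hr hX hX1 hx1
  have gO := h.grO6 hr0 hX hX1 hy1 htp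
  rcases le_total (2 * π - t) (3 / 5 * mm ρ) with hT | hT
  · exact asmW hρ htp hXe hX2 (HC_38_25 hT) hF gM gT gO (h.imgA hr hX hX1 ht htp hT) gF
      (by norm_num)
  · exact asmW hρ htp hXe hX2 (HC_big ρ (2 * π - t)) hF gM gT gO
      (h.imgB hr hX hX1 hX2 ht htp hT) gF (by norm_num)

/-- REAL INEQUALITY, left, `X ≤ 80` -/
theorem realB_L (h : HypD r ρ t) (hX : r * t ^ 2 / (1 + ρ ^ 2) ≤ 80) : GoalL r ρ t := by
  have H := Pr.ex h.ρ0 h.t0
  have hXX := HypD.X' h H
  have hX1 := h.X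
  have hr := h.r0
  have ht := h.t1
  have gF := H.gF hr hXX hX1 hX ht
  rcases le_total t (14 / 5) with h1 | h1
  · exact goalL_lo H hr rfl hXX hX1 hX h1 gF
  · exact goalL_hi H hr rfl hXX hX1 hX h1 ht gF

/-- REAL INEQUALITY, left -/
theorem pRealDL : PRealDL := fun r ρ t h => by
  rcases le_or_gt (r * t ^ 2 / (1 + ρ ^ 2)) 80 with hX | hX
  · exact realB_L h hX
  · exact realX_L h hX

/-- statement (S), left -/
theorem pdl : PDL := pDL pRealDL

/-- helper87's general field `d`, left, every real shift -/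
theorem dGL : SokalCen.DGL := dgl pdl

end SokalDz
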