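import Pool.Agent.Lib_MP_af4de1_v3.DzRX4
import Pool.Agent.Lib_MP_af4de1_v3.DzRealX
import Pool.Agent.Lib_MP_af4de1_v3.DzFin

/-!
# `PRealDR`, `PDR`, `DGR` (helper48, helper20)
-/

set_option autoImplicit false

namespace SokalDz

/-- the real inequality, right side -/
theorem pRealDR : PRealDR := fun r ρ t h => by
  rcases le_or_gt (r * t ^ 2 / (1 + ρ ^ 2)) 80 with hX | hX
  · exact SokalDR.realB_R h hX
  · exact realX_R h hX

/-- (S), right side -/
theorem pdr : PDR := pDR pRealDR

/-- **The general field `d`, right side.** -/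
theorem dGR : SokalCen.DGR := dgr pdr

end SokalDz
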