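import Pool.Agent.Lib_MP_af4de1_v3.Root

/-!
# F1: the regimes cover everything

`dist_F1_chain`: F1 from the six parts: `N = 1` (`9/2 ≤ ρ ≤ 8`, `ρ > 8`), `N = 2` (`ρ ≤ 16/5`, `ρ ≥ 16/5`),
regime I and regime C.
-/

set_option autoImplicit false

namespace SokalV3

open SokalF1

theorem Gm_ge {N : ℕ} {r δ : ℝ} (hN : 2 ≤ N) (hr : 499 / 10 ≤ r)
    (hQ : (N : ℝ) ^ 2 * (1 + (r * δ) ^ 2) ≤ 7.2552 * r) : 27 / 5 ≤ Gm N r δ := by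
  unfold Gm RR
  have hm := z0_hst_mul hN
  have hpi := Real.pi_gt_d4
  have hh := z0_hst_pos hN
  have h8 : 39.476 ≤ (N : ℝ) ^ 2 * hst N ^ 2 := by
    rw [← mul_pow, hm]
    norm_num at hpi
    nlinarith
  have hR : 0 < 1 + (r * δ) ^ 2 := by positivity
  rw [le_div_iff₀ hR]
  have h9 : 39.476 * (1 + (r * δ) ^ 2) ≤ 7.2552 * (r * hst N ^ 2) := by
    calc 39.476 * (1 + (r * δ) ^ 2) ≤ ((N : ℝ) ^ 2 * hst N ^ 2) * (1 + (r * δ) ^ 2) := by gcongr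
      _ = ((N : ℝ) ^ 2 * (1 + (r * δ) ^ 2)) * hst N ^ 2 := by ring
      _ ≤ (7.2552 * r) * hst N ^ 2 := by gcongr
      _ = _ := by ring
  norm_num at h9 ⊢
  linarith

theorem par_of {N : ℕ} {r δ : ℝ} (hN : 2 ≤ N) (hr : 499 / 10 ≤ r) (hδ : 0 < δ)
    (hQ : (N : ℝ) ^ 2 * (1 + (r * δ) ^ 2) ≤ 7.2552 * r) : Par N r δ :=
  ⟨hN, hr, hδ, Gm_ge hN hr hQ⟩

/-- **F1** -/
theorem dist_F1_chain
    (n1a : ∀ α r : ℝ, 0 < α → 50 ≤ r → 9 / 2 ≤ α * r → α * r ≤ 8 → 1 + (α * r) ^ 2 ≤ 7.2552 * r →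
      SokalFU.Dist α r)
    (n1b : ∀ α r : ℝ, 0 < α → 50 ≤ r → 8 < α * r → 1 + (α * r) ^ 2 ≤ 7.2552 * r → SokalFU.Dist α r)
    (n2 : ∀ α r : ℝ, 50 ≤ r → |α - Real.pi| * r ≤ 16 / 5 → SokalFU.Dist α r)
    (w2 : ∀ r δ : ℝ, Reg2 r δ → WaveU 2 δ r)
    (w1 : ∀ (N : ℕ) (r δ : ℝ), Reg1 N r δ → WaveU N δ r) (pc : PC) :
    ∀ α r : ℝ, 0 < α → α ≤ Real.pi → 50 ≤ r → 9 / 2 ≤ α * r → SokalFU.Dist α r := by
  refine dist_F1_of (ρ₀ := 16 / 5) ?_ n2 ?_ ?_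
  · intro α r h1 h2 h3 h4
    rcases le_or_gt (α * r) 8 with h5 | h5
    · exact n1a α r h1 h2 h3 h5 h4
    · exact n1b α r h1 h2 h5 h4
  · intro del r h1 h2 h3 h4
    have hδ : 0 < del := by
      rcases h1.lt_or_eq with h5 | h5
      · exact h5
      · exfalso
        rw [← h5] at h3
        norm_num at h3
    refine w2 r del ⟨par_of le_rfl h2 hδ (by push_cast; linarith), h3⟩
  · intro N del r hN h1 h2 h4
    rcases h1.lt_or_eq with h5 | h5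
    · have hp := par_of (by omega) h2 h5 h4
      rcases le_or_gt (hst N ^ 2) (11 / 10 * RR r del) with h6 | h6
      · exact w1 N r del ⟨hp, hN, h6⟩
      · exact pc N r del ⟨hp, hN, h6⟩
    · subst h5
      refine waveU_zero (by omega) h2 ?_
      simpa using h4

end SokalV3
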