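import Pool.Agent.Lib_MP_af4de1_v3.GapL2

/-!
# PGap1.L: assembly (helper69)
-/

set_option autoImplicit false

namespace SokalV3.GL

open Complex SokalV3 SokalU SokalF1 SokalF1S SokalF1M

variable {r δ ya yb u w q v : ℝ}

theorem subA0 (H : LD r δ ya yb u w q) (hr : 499 / 10 ≤ r) (hv : 0 ≤ v) (hv1 : v ≤ 329 / 1000)
    (hG : 27 / 5 ≤ r * v ^ 2) (hu : u ≤ 1 / 4 * v) (hw : w = 3 / 4 * v) : Gap r δ ya yb (17 / 20) := by
  have hr0 : 0 ≤ r := H.hr.le
  have hw0 := H.hw0
  have hu0 := H.hu0
  rcases le_total 3 ((r * δ) ^ 2) with h3 | h3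
  · exact H.caseII h3 (numII (vm := 329 / 1000) (P := 22593 / 100000) (K := 7103 / 10000) hr0 hv hv1
      (by norm_num) (by norm_num) hu0 hu hw (by norm_num) (by norm_num)
      (fin_small hv1 hG (by norm_num) (by norm_num) (by norm_num)))
  · rcases le_total 1 ((r * δ) ^ 2) with h1 | h1
    · refine H.caseIa h1 h3 (D := 657 / 625) (Or.inl ⟨by linarith, by linarith⟩) fun Y N hY0 hY hN => ?_
      exact numIa (vm := 329 / 1000) (P := 6123 / 25000) (K := 10197 / 10000) (Cy := 8999 / 10000) (D := 657 / 625)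
        hr0 hv hv1 (by norm_num) (by norm_num) hu0 hu hw hY0 hY (by norm_num) (by norm_num) hN
        (by norm_num) (fin_small hv1 hG (by norm_num) (by norm_num) (by norm_num))
    · refine H.caseIb h1 (D := 8923 / 10000) (E := 2287 / 5000) (f := 3229 / 5000)
        (Or.inl ⟨by linarith, by linarith, by linarith⟩) (by norm_num) (by linarith)
        fun Y N M hY0 hY hN hM => ?_
      exact numIb (vm := 329 / 1000) (P := 24507 / 100000) (K := 11671 / 10000) (Cy := 3647 / 5000) (D := 8923 / 10000)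
        (E := 2287 / 5000) hr0 hv hv1 (by norm_num) (by norm_num) hu0 hu hw hY0 hY (by norm_num)
        (by norm_num) hN hM (by norm_num) (by norm_num) (fin_small hv1 hG (by norm_num) (by norm_num) (by norm_num))

theorem subA1 (H : LD r δ ya yb u w q) (hr : 499 / 10 ≤ r) (hv : 0 ≤ v) (hv1 : v ≤ 4477 / 10000) (hv0 : 329 / 1000 ≤ v)
    (hu : u ≤ 1 / 4 * v) (hw : w = 3 / 4 * v) : Gap r δ ya yb (17 / 20) := by
  have hr0 : 0 ≤ r := H.hr.le
  have hw0 := H.hw0
  have hu0 := H.hu0
  rcases le_total 3 ((r * δ) ^ 2) with h3 | h3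
  · exact H.caseII h3 (numII (vm := 4477 / 10000) (P := 10861 / 50000) (K := 1437 / 2000) hr0 hv hv1
      (by norm_num) (by norm_num) hu0 hu hw (by norm_num) (by norm_num)
      (fin_large (by norm_num) hv0 hr (by norm_num) (by norm_num) (by norm_num)))
  · rcases le_total 1 ((r * δ) ^ 2) with h1 | h1
    · refine H.caseIa h1 h3 (D := 559 / 500) (Or.inl ⟨by linarith, by linarith⟩) fun Y N hY0 hY hN => ?_
      exact numIa (vm := 4477 / 10000) (P := 753 / 3125) (K := 10757 / 10000) (Cy := 571 / 625) (D := 559 / 500)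
        hr0 hv hv1 (by norm_num) (by norm_num) hu0 hu hw hY0 hY (by norm_num) (by norm_num) hN
        (by norm_num) (fin_large (by norm_num) hv0 hr (by norm_num) (by norm_num) (by norm_num))
    · refine H.caseIb h1 (D := 9591 / 10000) (E := 2621 / 5000) (f := 7717 / 10000)
        (Or.inl ⟨by linarith, by linarith, by linarith⟩) (by norm_num) (by linarith)
        fun Y N M hY0 hY hN hM => ?_
      exact numIb (vm := 4477 / 10000) (P := 12059 / 50000) (K := 6517 / 5000) (Cy := 3691 / 5000) (D := 9591 / 10000)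
        (E := 2621 / 5000) hr0 hv hv1 (by norm_num) (by norm_num) hu0 hu hw hY0 hY (by norm_num)
        (by norm_num) hN hM (by norm_num) (by norm_num) (fin_large (by norm_num) hv0 hr (by norm_num) (by norm_num) (by norm_num))

theorem subB0 (H : LD r δ ya yb u w q) (hr : 499 / 10 ≤ r) (hv : 0 ≤ v) (hv1 : v ≤ 4477 / 10000)
    (hG : 10 ≤ r * v ^ 2) (hu : u ≤ 7 / 20 * v) (hw : w = 13 / 20 * v) : Gap r δ ya yb (17 / 20) := by
  have hr0 : 0 ≤ r := H.hr.le
  have hw0 := H.hw0
  have hu0 := H.hu0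
  rcases le_total 3 ((r * δ) ^ 2) with h3 | h3
  · exact H.caseII h3 (numII (vm := 4477 / 10000) (P := 629 / 5000) (K := 7429 / 10000) hr0 hv hv1
      (by norm_num) (by norm_num) hu0 hu hw (by norm_num) (by norm_num)
      (fin_small hv1 hG (by norm_num) (by norm_num) (by norm_num)))
  · rcases le_total 1 ((r * δ) ^ 2) with h1 | h1
    · refine H.caseIa h1 h3 (D := 2711 / 2500) (Or.inl ⟨by linarith, by linarith⟩) fun Y N hY0 hY hN => ?_
      exact numIa (vm := 4477 / 10000) (P := 7119 / 50000) (K := 1313 / 1250) (Cy := 2339 / 2500) (D := 2711 / 2500)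
        hr0 hv hv1 (by norm_num) (by norm_num) hu0 hu hw hY0 hY (by norm_num) (by norm_num) hN
        (by norm_num) (fin_small hv1 hG (by norm_num) (by norm_num) (by norm_num))
    · refine H.caseIb h1 (D := 1851 / 2000) (E := 2453 / 5000) (f := 6999 / 10000)
        (Or.inl ⟨by linarith, by linarith, by linarith⟩) (by norm_num) (by linarith)
        fun Y N M hY0 hY hN hM => ?_
      exact numIb (vm := 4477 / 10000) (P := 14301 / 100000) (K := 491 / 400) (Cy := 3761 / 5000) (D := 1851 / 2000)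
        (E := 2453 / 5000) hr0 hv hv1 (by norm_num) (by norm_num) hu0 hu hw hY0 hY (by norm_num)
        (by norm_num) hN hM (by norm_num) (by norm_num) (fin_small hv1 hG (by norm_num) (by norm_num) (by norm_num))

theorem subB1 (H : LD r δ ya yb u w q) (hr : 499 / 10 ≤ r) (hv : 0 ≤ v) (hv1 : v ≤ 49 / 100) (hv0 : 4477 / 10000 ≤ v)
    (hu : u ≤ 7 / 20 * v) (hw : w = 13 / 20 * v) : Gap r δ ya yb (17 / 20) := by
  have hr0 : 0 ≤ r := H.hr.le
  have hw0 := H.hw0
  have hu0 := H.hu0
  rcases le_total 3 ((r * δ) ^ 2) with h3 | h3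
  · exact H.caseII h3 (numII (vm := 49 / 100) (P := 12347 / 100000) (K := 1499 / 2000) hr0 hv hv1
      (by norm_num) (by norm_num) hu0 hu hw (by norm_num) (by norm_num)
      (fin_large (by norm_num) hv0 hr (by norm_num) (by norm_num) (by norm_num)))
  · rcases le_total 1 ((r * δ) ^ 2) with h1 | h1
    · refine H.caseIa h1 h3 (D := 221 / 200) (Or.inl ⟨by linarith, by linarith⟩) fun Y N hY0 hY hN => ?_
      exact numIa (vm := 49 / 100) (P := 2823 / 20000) (K := 2671 / 2500) (Cy := 1179 / 1250) (D := 221 / 200)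
        hr0 hv hv1 (by norm_num) (by norm_num) hu0 hu hw hY0 hY (by norm_num) (by norm_num) hN
        (by norm_num) (fin_large (by norm_num) hv0 hr (by norm_num) (by norm_num) (by norm_num))
    · refine H.caseIb h1 (D := 9461 / 10000) (E := 639 / 1250) (f := 1483 / 2000)
        (Or.inl ⟨by linarith, by linarith, by linarith⟩) (by norm_num) (by linarith)
        fun Y N M hY0 hY hN hM => ?_
      exact numIb (vm := 49 / 100) (P := 7093 / 50000) (K := 507 / 400) (Cy := 7571 / 10000) (D := 9461 / 10000)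
        (E := 639 / 1250) hr0 hv hv1 (by norm_num) (by norm_num) hu0 hu hw hY0 hY (by norm_num)
        (by norm_num) hN hM (by norm_num) (by norm_num) (fin_large (by norm_num) hv0 hr (by norm_num) (by norm_num) (by norm_num))

theorem subB2 (H : LD r δ ya yb u w q) (hr : 499 / 10 ≤ r) (hv : 0 ≤ v) (hv1 : v ≤ 6331 / 10000) (hv0 : 49 / 100 ≤ v)
    (hu : u ≤ 7 / 20 * v) (hw : w = 13 / 20 * v) : Gap r δ ya yb (17 / 20) := by
  have hr0 : 0 ≤ r := H.hr.le
  have hw0 := H.hw0
  have hu0 := H.hu0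
  rcases le_total 3 ((r * δ) ^ 2) with h3 | h3
  · exact H.caseII h3 (numII (vm := 6331 / 10000) (P := 11549 / 100000) (K := 1547 / 2000) hr0 hv hv1
      (by norm_num) (by norm_num) hu0 hu hw (by norm_num) (by norm_num)
      (fin_large (by norm_num) hv0 hr (by norm_num) (by norm_num) (by norm_num)))
  · rcases le_total 1 ((r * δ) ^ 2) with h1 | h1
    · refine H.caseIa h1 h3 (D := 2937 / 2500) (Or.inl ⟨by linarith, by linarith⟩) fun Y N hY0 hY hN => ?_
      exact numIa (vm := 6331 / 10000) (P := 6819 / 50000) (K := 11307 / 10000) (Cy := 1941 / 2000) (D := 2937 / 2500)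
        hr0 hv hv1 (by norm_num) (by norm_num) hu0 hu hw hY0 hY (by norm_num) (by norm_num) hN
        (by norm_num) (fin_large (by norm_num) hv0 hr (by norm_num) (by norm_num) (by norm_num))
    · refine H.caseIb h1 (D := 10159 / 10000) (E := 581 / 1000) (f := 4791 / 5000)
        (Or.inl ⟨by linarith, by linarith, by linarith⟩) (by norm_num) (by linarith)
        fun Y N M hY0 hY hN hM => ?_
      exact numIb (vm := 6331 / 10000) (P := 2747 / 20000) (K := 14403 / 10000) (Cy := 3871 / 5000) (D := 10159 / 10000)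
        (E := 581 / 1000) hr0 hv hv1 (by norm_num) (by norm_num) hu0 hu hw hY0 hY (by norm_num)
        (by norm_num) hN hM (by norm_num) (by norm_num) (fin_large (by norm_num) hv0 hr (by norm_num) (by norm_num) (by norm_num))

theorem subC0 (H : LD r δ ya yb u w q) (hr : 499 / 10 ≤ r) (hv : 0 ≤ v) (hv1 : v ≤ 6331 / 10000)
    (hG : 20 ≤ r * v ^ 2) (hu : u ≤ 2 / 5 * v) (hw : w = 3 / 5 * v) : Gap r δ ya yb (17 / 20) := by
  have hr0 : 0 ≤ r := H.hr.le
  have hw0 := H.hw0
  have hu0 := H.hu0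
  rcases le_total 3 ((r * δ) ^ 2) with h3 | h3
  · exact H.caseII h3 (numII (vm := 6331 / 10000) (P := 3437 / 50000) (K := 321 / 400) hr0 hv hv1
      (by norm_num) (by norm_num) hu0 hu hw (by norm_num) (by norm_num)
      (fin_small hv1 hG (by norm_num) (by norm_num) (by norm_num)))
  · rcases le_total 1 ((r * δ) ^ 2) with h1 | h1
    · refine H.caseIa h1 h3 (D := 1151 / 1000) (Or.inl ⟨by linarith, by linarith⟩) fun Y N hY0 hY hN => ?_
      exact numIa (vm := 6331 / 10000) (P := 8637 / 100000) (K := 5617 / 5000) (Cy := 9889 / 10000) (D := 1151 / 1000)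
        hr0 hv hv1 (by norm_num) (by norm_num) hu0 hu hw hY0 hY (by norm_num) (by norm_num) hN
        (by norm_num) (fin_small hv1 hG (by norm_num) (by norm_num) (by norm_num))
    · refine H.caseIb h1 (D := 9921 / 10000) (E := 1393 / 2500) (f := 8671 / 10000)
        (Or.inl ⟨by linarith, by linarith, by linarith⟩) (by norm_num) (by linarith)
        fun Y N M hY0 hY hN hM => ?_
      exact numIb (vm := 6331 / 10000) (P := 8787 / 100000) (K := 13723 / 10000) (Cy := 7857 / 10000) (D := 9921 / 10000)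
        (E := 1393 / 2500) hr0 hv hv1 (by norm_num) (by norm_num) hu0 hu hw hY0 hY (by norm_num)
        (by norm_num) hN hM (by norm_num) (by norm_num) (fin_small hv1 hG (by norm_num) (by norm_num) (by norm_num))

theorem subC1a (H : LD r δ ya yb u w q) (hr : 499 / 10 ≤ r) (hv : 0 ≤ v) (hv1 : v ≤ 129 / 200) (hv0 : 6331 / 10000 ≤ v)
    (hu : u ≤ 2 / 5 * v) (hw : w = 3 / 5 * v) : Gap r δ ya yb (17 / 20) := by
  have hr0 : 0 ≤ r := H.hr.le
  have hw0 := H.hw0
  have hu0 := H.hu0
  rcases le_total 3 ((r * δ) ^ 2) with h3 | h3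
  · exact H.caseII h3 (numII (vm := 129 / 200) (P := 1703 / 25000) (K := 1611 / 2000) hr0 hv hv1
      (by norm_num) (by norm_num) hu0 hu hw (by norm_num) (by norm_num)
      (fin_large (by norm_num) hv0 hr (by norm_num) (by norm_num) (by norm_num)))
  · rcases le_total 1 ((r * δ) ^ 2) with h1 | h1
    · refine H.caseIa h1 h3 (D := 2891 / 2500) (Or.inl ⟨by linarith, by linarith⟩) fun Y N hY0 hY hN => ?_
      exact numIa (vm := 129 / 200) (P := 8597 / 100000) (K := 5643 / 5000) (Cy := 9917 / 10000) (D := 2891 / 2500)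
        hr0 hv hv1 (by norm_num) (by norm_num) hu0 hu hw hY0 hY (by norm_num) (by norm_num) hN
        (by norm_num) (fin_large (by norm_num) hv0 hr (by norm_num) (by norm_num) (by norm_num))
    · refine H.caseIb h1 (D := 399 / 400) (E := 2813 / 5000) (f := 8857 / 10000)
        (Or.inl ⟨by linarith, by linarith, by linarith⟩) (by norm_num) (by linarith)
        fun Y N M hY0 hY hN hM => ?_
      exact numIb (vm := 129 / 200) (P := 7 / 80) (K := 693 / 500) (Cy := 63 / 80) (D := 399 / 400)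
        (E := 2813 / 5000) hr0 hv hv1 (by norm_num) (by norm_num) hu0 hu hw hY0 hY (by norm_num)
        (by norm_num) hN hM (by norm_num) (by norm_num) (fin_large (by norm_num) hv0 hr (by norm_num) (by norm_num) (by norm_num))

theorem subC1 (H : LD r δ ya yb u w q) (hr : 499 / 10 ≤ r) (hv : 0 ≤ v) (hv1 : v ≤ 33 / 50) (hv0 : 129 / 200 ≤ v)
    (hu : u ≤ 2 / 5 * v) (hw : w = 3 / 5 * v) : Gap r δ ya yb (17 / 20) := by
  have hr0 : 0 ≤ r := H.hr.le
  have hw0 := H.hw0
  have hu0 := H.hu0
  rcases le_total 3 ((r * δ) ^ 2) with h3 | h3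
  · exact H.caseII h3 (numII (vm := 33 / 50) (P := 3367 / 50000) (K := 8093 / 10000) hr0 hv hv1
      (by norm_num) (by norm_num) hu0 hu hw (by norm_num) (by norm_num)
      (fin_large (by norm_num) hv0 hr (by norm_num) (by norm_num) (by norm_num)))
  · rcases le_total 1 ((r * δ) ^ 2) with h1 | h1
    · refine H.caseIa h1 h3 (D := 727 / 625) (Or.inl ⟨by linarith, by linarith⟩) fun Y N hY0 hY hN => ?_
      exact numIa (vm := 33 / 50) (P := 1709 / 20000) (K := 5677 / 5000) (Cy := 4977 / 5000) (D := 727 / 625)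
        hr0 hv hv1 (by norm_num) (by norm_num) hu0 hu hw hY0 hY (by norm_num) (by norm_num) hN
        (by norm_num) (fin_large (by norm_num) hv0 hr (by norm_num) (by norm_num) (by norm_num))
    · refine H.caseIb h1 (D := 10043 / 10000) (E := 2847 / 5000) (f := 9107 / 10000)
        (Or.inl ⟨by linarith, by linarith, by linarith⟩) (by norm_num) (by linarith)
        fun Y N M hY0 hY hN hM => ?_
      exact numIb (vm := 33 / 50) (P := 8703 / 100000) (K := 351 / 250) (Cy := 7897 / 10000) (D := 10043 / 10000)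
        (E := 2847 / 5000) hr0 hv hv1 (by norm_num) (by norm_num) hu0 hu hw hY0 hY (by norm_num)
        (by norm_num) hN hM (by norm_num) (by norm_num) (fin_large (by norm_num) hv0 hr (by norm_num) (by norm_num) (by norm_num))

theorem subC2 (H : LD r δ ya yb u w q) (hr : 499 / 10 ≤ r) (hv : 0 ≤ v) (hv1 : v ≤ 7 / 10) (hv0 : 33 / 50 ≤ v)
    (hu : u ≤ 2 / 5 * v) (hw : w = 3 / 5 * v) : Gap r δ ya yb (17 / 20) := by
  have hr0 : 0 ≤ r := H.hr.le
  have hw0 := H.hw0
  have hu0 := H.hu0
  rcases le_total 3 ((r * δ) ^ 2) with h3 | h3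
  · exact H.caseII h3 (numII (vm := 7 / 10) (P := 1631 / 25000) (K := 8197 / 10000) hr0 hv hv1
      (by norm_num) (by norm_num) hu0 hu hw (by norm_num) (by norm_num)
      (fin_large (by norm_num) hv0 hr (by norm_num) (by norm_num) (by norm_num)))
  · rcases le_total 1 ((r * δ) ^ 2) with h1 | h1
    · refine H.caseIa h1 h3 (D := 2953 / 2500) (Or.inl ⟨by linarith, by linarith⟩) fun Y N hY0 hY hN => ?_
      exact numIa (vm := 7 / 10) (P := 4201 / 50000) (K := 2883 / 2500) (Cy := 10051 / 10000) (D := 2953 / 2500)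
        hr0 hv hv1 (by norm_num) (by norm_num) hu0 hu hw hY0 hY (by norm_num) (by norm_num) hN
        (by norm_num) (fin_large (by norm_num) hv0 hr (by norm_num) (by norm_num) (by norm_num))
    · refine H.caseIb h1 (D := 10223 / 10000) (E := 2937 / 5000) (f := 9871 / 10000)
        (Or.inl ⟨by linarith, by linarith, by linarith⟩) (by norm_num) (by linarith)
        fun Y N M hY0 hY hN hM => ?_
      exact numIb (vm := 7 / 10) (P := 8573 / 100000) (K := 2913 / 2000) (Cy := 3979 / 5000) (D := 10223 / 10000)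
        (E := 2937 / 5000) hr0 hv hv1 (by norm_num) (by norm_num) hu0 hu hw hY0 hY (by norm_num)
        (by norm_num) hN hM (by norm_num) (by norm_num) (fin_large (by norm_num) hv0 hr (by norm_num) (by norm_num) (by norm_num))

theorem subC3 (H : LD r δ ya yb u w q) (hr : 499 / 10 ≤ r) (hv : 0 ≤ v) (hv1 : v ≤ 3 / 4) (hv0 : 7 / 10 ≤ v)
    (hu : u ≤ 2 / 5 * v) (hw : w = 3 / 5 * v) : Gap r δ ya yb (17 / 20) := by
  have hr0 : 0 ≤ r := H.hr.le
  have hw0 := H.hw0
  have hu0 := H.hu0
  rcases le_total 3 ((r * δ) ^ 2) with h3 | h3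
  · exact H.caseII h3 (numII (vm := 3 / 4) (P := 6259 / 100000) (K := 8333 / 10000) hr0 hv hv1
      (by norm_num) (by norm_num) hu0 hu hw (by norm_num) (by norm_num)
      (fin_large (by norm_num) hv0 hr (by norm_num) (by norm_num) (by norm_num)))
  · rcases le_total 1 ((r * δ) ^ 2) with h1 | h1
    · refine H.caseIa h1 h3 (D := 12037 / 10000) (Or.inl ⟨by linarith, by linarith⟩) fun Y N hY0 hY hN => ?_
      exact numIa (vm := 3 / 4) (P := 1643 / 20000) (K := 147 / 125) (Cy := 10177 / 10000) (D := 12037 / 10000)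
        hr0 hv hv1 (by norm_num) (by norm_num) hu0 hu hw hY0 hY (by norm_num) (by norm_num) hN
        (by norm_num) (fin_large (by norm_num) hv0 hr (by norm_num) (by norm_num) (by norm_num))
    · refine H.caseIb h1 (D := 653 / 625) (E := 6099 / 10000) (f := 2217 / 2000)
        (Or.inl ⟨by linarith, by linarith, by linarith⟩) (by norm_num) (by linarith)
        fun Y N M hY0 hY hN hM => ?_
      exact numIb (vm := 3 / 4) (P := 4201 / 50000) (K := 767 / 500) (Cy := 1607 / 2000) (D := 653 / 625)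
        (E := 6099 / 10000) hr0 hv hv1 (by norm_num) (by norm_num) hu0 hu hw hY0 hY (by norm_num)
        (by norm_num) hN hM (by norm_num) (by norm_num) (fin_large (by norm_num) hv0 hr (by norm_num) (by norm_num) (by norm_num))

theorem subC4 (H : LD r δ ya yb u w q) (hr : 499 / 10 ≤ r) (hv : 0 ≤ v) (hv1 : v ≤ 4 / 5) (hv0 : 3 / 4 ≤ v)
    (hu : u ≤ 2 / 5 * v) (hw : w = 3 / 5 * v) : Gap r δ ya yb (17 / 20) := by
  have hr0 : 0 ≤ r := H.hr.le
  have hw0 := H.hw0
  have hu0 := H.hu0
  rcases le_total 3 ((r * δ) ^ 2) with h3 | h3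
  · exact H.caseII h3 (numII (vm := 4 / 5) (P := 5993 / 100000) (K := 339 / 400) hr0 hv hv1
      (by norm_num) (by norm_num) hu0 hu hw (by norm_num) (by norm_num)
      (fin_large (by norm_num) hv0 hr (by norm_num) (by norm_num) (by norm_num)))
  · rcases le_total 1 ((r * δ) ^ 2) with h1 | h1
    · refine H.caseIa h1 h3 (D := 8661 / 5000) (Or.inr (by norm_num)) fun Y N hY0 hY hN => ?_
      exact numIa (vm := 4 / 5) (P := 8019 / 100000) (K := 601 / 400) (Cy := 2061 / 2000) (D := 8661 / 5000)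
        hr0 hv hv1 (by norm_num) (by norm_num) hu0 hu hw hY0 hY (by norm_num) (by norm_num) hN
        (by norm_num) (fin_large (by norm_num) hv0 hr (by norm_num) (by norm_num) (by norm_num))
    · refine H.caseIb h1 (D := 884 / 625) (E := 2723 / 5000) (f := 10479 / 10000)
        (Or.inr ⟨by norm_num, by norm_num⟩) (by norm_num) (by linarith)
        fun Y N M hY0 hY hN hM => ?_
      exact numIb (vm := 4 / 5) (P := 8223 / 100000) (K := 1699 / 1000) (Cy := 4057 / 5000) (D := 884 / 625)
        (E := 2723 / 5000) hr0 hv hv1 (by norm_num) (by norm_num) hu0 hu hw hY0 hY (by norm_num)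
        (by norm_num) hN hM (by norm_num) (by norm_num) (fin_large (by norm_num) hv0 hr (by norm_num) (by norm_num) (by norm_num))

theorem subC5 (H : LD r δ ya yb u w q) (hr : 499 / 10 ≤ r) (hv : 0 ≤ v) (hv1 : v ≤ 9 / 10) (hv0 : 4 / 5 ≤ v)
    (hu : u ≤ 2 / 5 * v) (hw : w = 3 / 5 * v) : Gap r δ ya yb (17 / 20) := by
  have hr0 : 0 ≤ r := H.hr.le
  have hw0 := H.hw0
  have hu0 := H.hu0
  rcases le_total 3 ((r * δ) ^ 2) with h3 | h3
  · exact H.caseII h3 (numII (vm := 9 / 10) (P := 2727 / 50000) (K := 4389 / 5000) hr0 hv hv1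
      (by norm_num) (by norm_num) hu0 hu hw (by norm_num) (by norm_num)
      (fin_large (by norm_num) hv0 hr (by norm_num) (by norm_num) (by norm_num)))
  · rcases le_total 1 ((r * δ) ^ 2) with h1 | h1
    · refine H.caseIa h1 h3 (D := 8661 / 5000) (Or.inr (by norm_num)) fun Y N hY0 hY hN => ?_
      exact numIa (vm := 9 / 10) (P := 7597 / 100000) (K := 15227 / 10000) (Cy := 10573 / 10000) (D := 8661 / 5000)
        hr0 hv hv1 (by norm_num) (by norm_num) hu0 hu hw hY0 hY (by norm_num) (by norm_num) hN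
        (by norm_num) (fin_large (by norm_num) hv0 hr (by norm_num) (by norm_num) (by norm_num))
    · refine H.caseIb h1 (D := 884 / 625) (E := 2723 / 5000) (f := 12141 / 10000)
        (Or.inr ⟨by norm_num, by norm_num⟩) (by norm_num) (by linarith)
        fun Y N M hY0 hY hN hM => ?_
      exact numIb (vm := 9 / 10) (P := 1959 / 25000) (K := 4417 / 2500) (Cy := 4139 / 5000) (D := 884 / 625)
        (E := 2723 / 5000) hr0 hv hv1 (by norm_num) (by norm_num) hu0 hu hw hY0 hY (by norm_num)
        (by norm_num) hN hM (by norm_num) (by norm_num) (fin_large (by norm_num) hv0 hr (by norm_num) (by norm_num) (by norm_num))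

theorem subC6 (H : LD r δ ya yb u w q) (hr : 499 / 10 ≤ r) (hv : 0 ≤ v) (hv1 : v ≤ 10489 / 10000) (hv0 : 9 / 10 ≤ v)
    (hu : u ≤ 2 / 5 * v) (hw : w = 3 / 5 * v) : Gap r δ ya yb (17 / 20) := by
  have hr0 : 0 ≤ r := H.hr.le
  have hw0 := H.hw0
  have hu0 := H.hu0
  rcases le_total 3 ((r * δ) ^ 2) with h3 | h3
  · exact H.caseII h3 (numII (vm := 10489 / 10000) (P := 927 / 20000) (K := 2321 / 2500) hr0 hv hv1
      (by norm_num) (by norm_num) hu0 hu hw (by norm_num) (by norm_num)
      (fin_large (by norm_num) hv0 hr (by norm_num) (by norm_num) (by norm_num)))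
  · rcases le_total 1 ((r * δ) ^ 2) with h1 | h1
    · refine H.caseIa h1 h3 (D := 8661 / 5000) (Or.inr (by norm_num)) fun Y N hY0 hY hN => ?_
      exact numIa (vm := 10489 / 10000) (P := 431 / 6250) (K := 7777 / 5000) (Cy := 5499 / 5000) (D := 8661 / 5000)
        hr0 hv hv1 (by norm_num) (by norm_num) hu0 hu hw hY0 hY (by norm_num) (by norm_num) hN
        (by norm_num) (fin_large (by norm_num) hv0 hr (by norm_num) (by norm_num) (by norm_num))
    · refine H.caseIb h1 (D := 884 / 625) (E := 2723 / 5000) (f := 7949 / 5000)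
        (Or.inr ⟨by norm_num, by norm_num⟩) (by norm_num) (by linarith)
        fun Y N M hY0 hY hN hM => ?_
      exact numIb (vm := 10489 / 10000) (P := 7191 / 100000) (K := 1911 / 1000) (Cy := 8537 / 10000) (D := 884 / 625)
        (E := 2723 / 5000) hr0 hv hv1 (by norm_num) (by norm_num) hu0 hu hw hY0 hY (by norm_num)
        (by norm_num) hN hM (by norm_num) (by norm_num) (fin_large (by norm_num) hv0 hr (by norm_num) (by norm_num) (by norm_num))

theorem regA (H : LD r δ ya yb u w q) (hr : 499 / 10 ≤ r) (hv : 0 ≤ v) (hG : 27 / 5 ≤ r * v ^ 2)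
    (hG1 : r * v ^ 2 < 10) (hu : u ≤ 1 / 4 * v) (hw : w = 3 / 4 * v) : Gap r δ ya yb (17 / 20) := by
  have hv1 : v ≤ 4477 / 10000 := by
    by_contra hcon
    push Not at hcon
    have h1 : (4477 / 10000) ^ 2 < v ^ 2 := pow_lt_pow_left₀ hcon (by norm_num) two_ne_zero
    nlinarith
  rcases le_total v (329 / 1000) with h | h
  · exact subA0 H hr hv h hG hu hw
  · exact subA1 H hr hv hv1 h hu hw

theorem regB (H : LD r δ ya yb u w q) (hr : 499 / 10 ≤ r) (hv : 0 ≤ v) (hG : 10 ≤ r * v ^ 2)
    (hG1 : r * v ^ 2 < 20) (hu : u ≤ 7 / 20 * v) (hw : w = 13 / 20 * v) :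
    Gap r δ ya yb (17 / 20) := by
  have hv1 : v ≤ 6331 / 10000 := by
    by_contra hcon
    push Not at hcon
    have h1 : (6331 / 10000) ^ 2 < v ^ 2 := pow_lt_pow_left₀ hcon (by norm_num) two_ne_zero
    nlinarith
  rcases le_total v (4477 / 10000) with h | h
  · exact subB0 H hr hv h hG hu hw
  · rcases le_total v (49 / 100) with h' | h'
    · exact subB1 H hr hv h' h hu hw
    · exact subB2 H hr hv hv1 h' hu hw

theorem regC (H : LD r δ ya yb u w q) (hr : 499 / 10 ≤ r) (hv : 0 ≤ v) (hG : 20 ≤ r * v ^ 2)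
    (hv2 : v ^ 2 ≤ 11 / 10) (hu : u ≤ 2 / 5 * v) (hw : w = 3 / 5 * v) :
    Gap r δ ya yb (17 / 20) := by
  have hv1 : v ≤ 10489 / 10000 := by nlinarith
  rcases le_total v (6331 / 10000) with h | h
  · exact subC0 H hr hv h hG hu hw
  rcases le_total v (129 / 200) with h0 | h0
  · exact subC1a H hr hv h0 h hu hw
  rcases le_total v (33 / 50) with h1 | h1
  · exact subC1 H hr hv h1 h0 hu hw
  rcases le_total v (7 / 10) with h2 | h2
  · exact subC2 H hr hv h2 h1 hu hw
  rcases le_total v (3 / 4) with h3 | h3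
  · exact subC3 H hr hv h3 h2 hu hw
  rcases le_total v (4 / 5) with h4 | h4
  · exact subC4 H hr hv h4 h3 hu hw
  rcases le_total v (9 / 10) with h5 | h5
  · exact subC5 H hr hv h5 h4 hu hw
  · exact subC6 H hr hv hv1 h5 hu hw

/-- **PGap1.L** -/
theorem pGap1_L : ∀ (N : ℕ) (r δ ya yb η : ℝ), Reg1 N r δ → At r δ ya η →
    At r δ yb (-eo1 N r δ) → 0 ≤ η → η ≤ ei1 N r δ → Gap r δ ya yb (17 / 20) := by
  intro N r δ ya yb η hR hA hB hη0 hη1
  have hr := hR.r0
  have hδ := hR.d0
  have hr0 : 0 < r := by linarith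
  have hρ : 0 < r * δ := mul_pos hr0 hδ
  have hN : (0 : ℝ) < N := by
    have := hR.N2
    exact_mod_cast (by omega : 0 < N)
  have hh : 0 < hst N := by
    unfold hst
    have := Real.pi_pos
    positivity
  set q := √(1 + (r * δ) ^ 2) with hqd
  have hq2 : q ^ 2 = 1 + (r * δ) ^ 2 := Real.sq_sqrt (by positivity)
  have hq : 0 < q := Real.sqrt_pos.2 (by positivity)
  set v := hst N / q with hv
  have hv0 : 0 < v := div_pos hh hq
  have hqv : q * v = hst N := by rw [hv]; field_simp
  have hG : r * v ^ 2 = Gm N r δ := by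
    unfold Gm RR
    rw [hv, div_pow, hq2]
    ring
  have hv2 : v ^ 2 ≤ 11 / 10 := by
    have := hR.I
    rw [hv, div_pow, hq2, div_le_iff₀ (by positivity)]
    exact this
  -- signs of the saddles
  have hom : 0 < om1 N r δ ∧ om1 N r δ ≤ 1 / 4 := by
    unfold om1
    split_ifs <;> norm_num
  have hmono : ∀ y : ℝ, Dom (r * δ) y → -1 < y → y < 0 → sE (r * δ) y < 0 := by
    intro y hy hy1 hy0
    rw [← sE_zero hρ]
    exact sE_strictMonoOn hy (dom_zero hρ) hy1.le ⟨le_rfl, hy0.le⟩ ⟨hy0.le, le_rfl⟩ hy0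
  have hya : 0 ≤ ya := by
    by_contra hcon
    push Not at hcon
    have := hmono ya hA.dom hA.y1 hcon
    rw [hA.eta] at this
    linarith
  have heo : 0 < eo1 N r δ := by
    unfold eo1
    have := hom.1
    positivity
  have hyb : yb ≤ 0 := by
    by_contra hcon
    push Not at hcon
    have := sE_nonneg hB.dom hcon.le
    rw [hB.eta] at this
    linarith
  have hu : η / q ≤ (1 / 2 - om1 N r δ) * v := by
    rw [div_le_iff₀ hq]
    calc η ≤ ei1 N r δ := hη1
      _ = (1 / 2 - om1 N r δ) * v * q := by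
        unfold ei1
        rw [← hqv]; ring
  have hw : eo1 N r δ / q = (1 / 2 + om1 N r δ) * v := by
    rw [div_eq_iff hq.ne']
    unfold eo1
    rw [← hqv]; ring
  have hv1 : v ≤ 10489 / 10000 := by nlinarith
  have hw63 : eo1 N r δ / q ≤ 63 / 100 := by
    rw [hw]
    have hG' : r * v ^ 2 = Gm N r δ := hG
    unfold om1
    split_ifs with h1 h2
    · have h3 : v ≤ 4477 / 10000 := by
        by_contra hcon
        push Not at hcon
        have h1 : (4477 / 10000) ^ 2 < v ^ 2 := pow_lt_pow_left₀ hcon (by norm_num) two_ne_zero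
        nlinarith
      linarith
    · have h3 : v ≤ 6331 / 10000 := by
        by_contra hcon
        push Not at hcon
        have h1 : (6331 / 10000) ^ 2 < v ^ 2 := pow_lt_pow_left₀ hcon (by norm_num) two_ne_zero
        nlinarith
      linarith
    · linarith
  have H : LD r δ ya yb (η / q) (eo1 N r δ / q) q := by
    refine ⟨hr0, hδ, hq, hq2, hA.dom, hB.dom, hya, hyb, hB.y1, ?_, by positivity, ?_, ?_,
      by positivity, hw63⟩
    · rw [hA.eta]; field_simp
    · have h1 : (1 / 2 - om1 N r δ) * v ≤ 1 / 2 := by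
        have hG' : r * v ^ 2 = Gm N r δ := hG
        unfold om1
        split_ifs with h1 h2
        · linarith
        · linarith
        · linarith
      linarith
    · rw [hB.eta]; field_simp
  have hG5 := hR.G
  unfold om1 at hu hw
  rw [← hG] at hG5 hu hw
  split_ifs at hu hw with h1 h2
  · exact regA H hr hv0.le hG5 h1 (by linarith) (by rw [hw]; ring)
  · exact regB H hr hv0.le (not_lt.1 h1) h2 (by linarith) (by rw [hw]; ring)
  · exact regC H hr hv0.le (not_lt.1 h2) hv2 (by linarith) (by rw [hw]; ring)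

end SokalV3.GL

namespace SokalV3

/-- **PGap1.L** -/
theorem pGap1_L : ∀ (N : ℕ) (r δ ya yb η : ℝ), Reg1 N r δ → At r δ ya η →
    At r δ yb (-eo1 N r δ) → 0 ≤ η → η ≤ ei1 N r δ → Gap r δ ya yb (17 / 20) := GL.pGap1_L

end SokalV3
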