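import Pool.Agent.Lib_MP_af4de1_v3.V3
import Pool.Agent.Lib_MP_af4de1_v3.GapA

/-!
# PIECE GAP, right inner saddle against left outer saddle

`a` on the right (`n = -y_a`, `v = |η_a|/√R ≤ (1/2 - ω) t`), `b` on the left (`u = η_b/√R = (1/2 + ω) t`), `t = h/√R`.
Left drop `≥ r (u²/2 - u³/6)` (all saddles): with `s = 1 - x/ρ`, `ψ = arg K`: `P/ρ = s + (1-s) log(1-s) - (1-s) log cos ψ`,
`u = θ s + σ ψ`, `(θ, σ) = (ρ, 1)/√R` (helper69).  Right drop `≤ r (v²/2 + v³/6 + v⁴/4)`.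
`D_a² ≤ R e^(2n)`, `n ≤ v`, `D_b² ≥ R e^(-2y)`, `y ≤ u + u²/(2(1-u))`.
-/

set_option autoImplicit false

namespace SokalV3

open SokalF1S SokalF1M SokalF1 Set

theorem log_one_sub_le {b : ℝ} (hb : b < 1) {t : ℝ} (ht : t ∈ Icc 0 b) :
    0 ≤ -Real.log (1 - t) - t - t ^ 2 / 2 := by
  refine nonneg_up (f := fun t => -Real.log (1 - t) - t - t ^ 2 / 2)
    (f' := fun t => -((-1) / (1 - t)) - 1 - (((2 : ℕ) : ℝ) * t ^ (2 - 1) * 1) / 2) ?_ ?_ ?_ ?_ ht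
  · have h1 : ContinuousOn (fun t : ℝ => Real.log (1 - t)) (Icc 0 b) :=
      ContinuousOn.log (by fun_prop) (fun t ht => by
        have := ht.2
        linarith)
    exact (h1.neg.sub continuousOn_id).sub (by fun_prop)
  · simp
  · intro t ht
    have h1 : HasDerivAt (fun t : ℝ => 1 - t) (-1) t := by
      simpa using (hasDerivAt_id t).const_sub 1
    have h2 := h1.log (by linarith [ht.2])
    exact (h2.neg.sub (hasDerivAt_id t)).sub (((hasDerivAt_id t).pow 2).div_const 2)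
  · intro t ht
    have h1 : 0 < 1 - t := by linarith [ht.2]
    have e : -((-1) / (1 - t)) - 1 - (((2 : ℕ) : ℝ) * t ^ (2 - 1) * 1) / 2 = t ^ 2 / (1 - t) := by
      push_cast
      field_simp
      ring
    rw [e]
    positivity

theorem mul_log_ge {b : ℝ} (hb : b < 1) {t : ℝ} (ht : t ∈ Icc 0 b) :
    0 ≤ t + (1 - t) * Real.log (1 - t) - t ^ 2 / 2 - t ^ 3 / 6 := by
  refine nonneg_up (f := fun t => t + (1 - t) * Real.log (1 - t) - t ^ 2 / 2 - t ^ 3 / 6)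
    (f' := fun t => 1 + ((-1) * Real.log (1 - t) + (1 - t) * ((-1) / (1 - t))) -
      (((2 : ℕ) : ℝ) * t ^ (2 - 1) * 1) / 2 - (((3 : ℕ) : ℝ) * t ^ (3 - 1) * 1) / 6) ?_ ?_ ?_ ?_ ht
  · have h1 : ContinuousOn (fun t : ℝ => Real.log (1 - t)) (Icc 0 b) :=
      ContinuousOn.log (by fun_prop) (fun t ht => by
        have := ht.2
        linarith)
    have h2 : ContinuousOn (fun t : ℝ => (1 - t) * Real.log (1 - t)) (Icc 0 b) :=
      ContinuousOn.mul (by fun_prop) h1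
    exact ((continuousOn_id.add h2).sub (by fun_prop)).sub (by fun_prop)
  · simp
  · intro t ht
    have h1 : HasDerivAt (fun t : ℝ => 1 - t) (-1) t := by
      simpa using (hasDerivAt_id t).const_sub 1
    have h2 := h1.mul (h1.log (by linarith [ht.2]))
    exact (((hasDerivAt_id t).add h2).sub (((hasDerivAt_id t).pow 2).div_const 2)).sub
      (((hasDerivAt_id t).pow 3).div_const 6)
  · intro t ht
    have h1 : 0 < 1 - t := by linarith [ht.2]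
    have h2 := log_one_sub_le hb (t := t) ⟨ht.1.le, ht.2.le⟩
    have e : 1 + ((-1) * Real.log (1 - t) + (1 - t) * ((-1) / (1 - t))) -
      (((2 : ℕ) : ℝ) * t ^ (2 - 1) * 1) / 2 - (((3 : ℕ) : ℝ) * t ^ (3 - 1) * 1) / 6 =
        -Real.log (1 - t) - t - t ^ 2 / 2 := by
      push_cast
      field_simp
      ring
    rw [e]
    exact h2

theorem neg_log_cos_ge {p : ℝ} (h0 : 0 ≤ p) (h1 : p < Real.pi / 2) : p ^ 2 / 2 ≤ -Real.log (Real.cos p) := by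
  have key := nonneg_up (f := fun p => -Real.log (Real.cos p) - p ^ 2 / 2)
    (f' := fun p => -(-Real.sin p / Real.cos p) - (((2 : ℕ) : ℝ) * p ^ (2 - 1) * 1) / 2) (b := p) ?_ ?_ ?_ ?_
    (right_mem_Icc.2 h0)
  · linarith
  · have h2 : ContinuousOn (fun p : ℝ => Real.log (Real.cos p)) (Icc 0 p) :=
      ContinuousOn.log (by fun_prop) (fun q hq => by
        have : 0 < Real.cos q := Real.cos_pos_of_mem_Ioo ⟨by linarith [hq.1, Real.pi_pos], by linarith [hq.2]⟩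
        exact this.ne')
    exact h2.neg.sub (by fun_prop)
  · simp
  · intro q hq
    have hc : 0 < Real.cos q := Real.cos_pos_of_mem_Ioo ⟨by linarith [hq.1, Real.pi_pos], by linarith [hq.2]⟩
    exact ((Real.hasDerivAt_cos q).log hc.ne').neg.sub (((hasDerivAt_id q).pow 2).div_const 2)
  · intro q hq
    have h3 := Real.lt_tan hq.1 (by linarith [hq.2])
    rw [Real.tan_eq_sin_div_cos] at h3
    have e : -(-Real.sin q / Real.cos q) - (((2 : ℕ) : ℝ) * q ^ (2 - 1) * 1) / 2 =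
        Real.sin q / Real.cos q - q := by
      push_cast
      ring
    rw [e]
    linarith

/-- The left drop. -/
theorem left_low {ρ y : ℝ} (hρ : 0 < ρ) (h : |y| * Real.exp y < ρ) (hy : 0 ≤ y) :
    ρ * ((sE ρ y / √(1 + ρ ^ 2)) ^ 2 / 2 - (sE ρ y / √(1 + ρ ^ 2)) ^ 3 / 6) ≤ ρ - sx ρ y * (1 + y) := by
  have hD : Dom ρ y := ⟨hρ, h.le⟩
  have hx := sx_pos hρ h
  have hR : 0 < 1 + ρ ^ 2 := by positivity
  have ha : 0 < √(1 + ρ ^ 2) := Real.sqrt_pos.2 hR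
  have ha2 : √(1 + ρ ^ 2) ^ 2 = 1 + ρ ^ 2 := Real.sq_sqrt hR.le
  set a := √(1 + ρ ^ 2) with had
  set p := sP ρ y with hp
  set s : ℝ := 1 - sx ρ y / ρ with hs
  have hxs : sx ρ y = ρ * (1 - s) := by
    rw [hs]
    field_simp
    ring
  have hp0 : 0 ≤ p := sP_nonneg hρ hy
  have hcos := hD.cos
  have hcp : 0 < Real.cos p := by
    rw [hp, hcos]
    have := Real.exp_pos y
    positivity
  have hp1 : p < Real.pi / 2 := by
    refine lt_of_le_of_ne (abs_le.1 (sP_abs_le ρ y)).2 fun h1 => ?_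
    rw [h1, Real.cos_pi_div_two] at hcp
    exact lt_irrefl _ hcp
  have hs1 : s < 1 := by
    rw [hs]
    have : 0 < sx ρ y / ρ := by positivity
    linarith
  have hs0 : 0 ≤ s := by
    rw [hs, sub_nonneg, div_le_one hρ]
    refine (sx_le hD).trans ?_
    have : Real.exp (-y) ≤ 1 := Real.exp_le_one_iff.2 (by linarith)
    nlinarith
  -- `y = log cos ψ - log (1 - s)`
  have hylog : y = Real.log (Real.cos p) - Real.log (1 - s) := by
    have h1 : Real.cos p = (1 - s) * Real.exp y := by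
      rw [hp, hcos, hxs]
      field_simp
    rw [h1, Real.log_mul (by linarith) (Real.exp_pos y).ne', Real.log_exp]
    ring
  have hη : sE ρ y = p + ρ * s := by
    unfold sE
    rw [← hp, hxs]
    ring
  have l1 := mul_log_ge hs1 (t := s) ⟨hs0, le_refl s⟩
  have l2 := neg_log_cos_ge hp0 hp1
  have l3 : (1 - s) * (p ^ 2 / 2) ≤ (1 - s) * (-Real.log (Real.cos p)) :=
    mul_le_mul_of_nonneg_left l2 (by linarith)
  -- the exact drop
  have hP : ρ - sx ρ y * (1 + y) = ρ * (s + (1 - s) * Real.log (1 - s) + (1 - s) * (-Real.log (Real.cos p))) := by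
    rw [hxs]
    conv_lhs => rw [hylog]
    ring
  rw [hP]
  refine mul_le_mul_of_nonneg_left ?_ hρ.le
  have hlow : (s ^ 2 + p ^ 2) / 2 + (s ^ 3 - 3 * s * p ^ 2) / 6 ≤
      s + (1 - s) * Real.log (1 - s) + (1 - s) * (-Real.log (Real.cos p)) := by
    have e : (s ^ 2 + p ^ 2) / 2 + (s ^ 3 - 3 * s * p ^ 2) / 6 = s ^ 2 / 2 + s ^ 3 / 6 + (1 - s) * (p ^ 2 / 2) := by
      ring
    rw [e]
    linarith
  refine le_trans ?_ hlow
  -- polar coordinates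
  set w : ℝ := sE ρ y / a with hw
  have hw0 : 0 ≤ w := by
    rw [hw, hη]
    positivity
  set l : ℝ := √(s ^ 2 + p ^ 2) with hl
  have hl0 : 0 ≤ l := Real.sqrt_nonneg _
  have hl2 : l ^ 2 = s ^ 2 + p ^ 2 := Real.sq_sqrt (by positivity)
  have hwl : w ≤ l := by
    refine abs_le_of_sq_le_sq' ?_ hl0 |>.2
    rw [hl2, hw, div_pow, ha2, hη, div_le_iff₀ hR]
    nlinarith [sq_nonneg (ρ * p - s)]
  have hl3 : l ≤ 2 := by
    refine abs_le_of_sq_le_sq' ?_ (by norm_num) |>.2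
    rw [hl2]
    have : p < 1.6 := by
      have := Real.pi_lt_d2
      linarith
    nlinarith
  have h3 : -(l ^ 3) ≤ s ^ 3 - 3 * s * p ^ 2 := by
    refine (abs_le_of_sq_le_sq' ?_ (by positivity)).1
    have e : (l ^ 3) ^ 2 = (s ^ 2 + p ^ 2) ^ 3 := by rw [← hl2]; ring
    rw [e]
    nlinarith [sq_nonneg (3 * s ^ 2 * p - p ^ 3)]
  have h4 : w ^ 2 / 2 - w ^ 3 / 6 ≤ l ^ 2 / 2 - l ^ 3 / 6 := by
    have e : l ^ 2 / 2 - l ^ 3 / 6 - (w ^ 2 / 2 - w ^ 3 / 6) =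
        (l - w) * ((l + w) / 2 - (l ^ 2 + l * w + w ^ 2) / 6) := by ring
    have : 0 ≤ (l - w) * ((l + w) / 2 - (l ^ 2 + l * w + w ^ 2) / 6) := by
      refine mul_nonneg (by linarith) ?_
      have m1 : l ^ 2 ≤ 2 * l := by
        rw [pow_two]
        exact mul_le_mul_of_nonneg_right hl3 hl0
      have m2 : l * w ≤ 2 * w := mul_le_mul_of_nonneg_right hl3 hw0
      have m3 : w ^ 2 ≤ 2 * w := by
        rw [pow_two]
        exact mul_le_mul_of_nonneg_right (hwl.trans hl3) hw0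
      linarith
    linarith
  rw [← hl2]
  linarith

/-! ### the right side -/

theorem s_le {ρ : ℝ} (hρ : 0 < ρ) : ρ * (3 - ρ ^ 2) ≤ √(1 + ρ ^ 2) ^ 3 := by
  have hR : 0 < 1 + ρ ^ 2 := by positivity
  have ha : 0 < √(1 + ρ ^ 2) := Real.sqrt_pos.2 hR
  have ha2 : √(1 + ρ ^ 2) ^ 2 = 1 + ρ ^ 2 := Real.sq_sqrt hR.le
  refine abs_le_of_sq_le_sq' ?_ (by positivity) |>.2
  have e : (√(1 + ρ ^ 2) ^ 3) ^ 2 = (1 + ρ ^ 2) ^ 3 := by
    calc (√(1 + ρ ^ 2) ^ 3) ^ 2 = (√(1 + ρ ^ 2) ^ 2) ^ 3 := by ring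
      _ = _ := by rw [ha2]
  rw [e]
  nlinarith [sq_nonneg (1 - 3 * ρ ^ 2)]

/-- The right side: `n ≤ v` and the upper bound of the drop, `v ≤ 21/50`. -/
theorem right_up {ρ y v : ℝ} (h : Dom ρ y) (hy1 : -1 < y) (hy0 : y ≤ 0)
    (hv : v = -sE ρ y / √(1 + ρ ^ 2)) (hv2 : v ≤ 21 / 50) :
    -y ≤ v ∧ ρ - sx ρ y * (1 + y) ≤ ρ * (v ^ 2 / 2 + v ^ 3 / 6 + v ^ 4 / 4) := by
  have hρ := h.1
  have hR : 0 < 1 + ρ ^ 2 := by positivity
  have ha : 0 < √(1 + ρ ^ 2) := Real.sqrt_pos.2 hR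
  have ha2 : √(1 + ρ ^ 2) ^ 2 = 1 + ρ ^ 2 := Real.sq_sqrt hR.le
  have hs1 := s_le hρ
  -- general lower bound of `v`
  have hgen : ∀ z ∈ Icc y 0, (-z * √(1 + ρ ^ 2) / ρ) - (-z * √(1 + ρ ^ 2) / ρ) ^ 2 / 2 *
      (ρ * (3 - ρ ^ 2) / √(1 + ρ ^ 2) ^ 3) ≤ -sE ρ z / √(1 + ρ ^ 2) := by
    intro z hz
    have h1 := right_eta h hy1.le hz
    rw [le_div_iff₀ ha]
    have e : ((-z * √(1 + ρ ^ 2) / ρ) - (-z * √(1 + ρ ^ 2) / ρ) ^ 2 / 2 *
      (ρ * (3 - ρ ^ 2) / √(1 + ρ ^ 2) ^ 3)) * √(1 + ρ ^ 2) =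
        -((√(1 + ρ ^ 2) ^ 2) * z + (3 - ρ ^ 2) * z ^ 2 / 2) / ρ := by
      field_simp
      ring
    rw [e, ha2, div_le_iff₀ hρ]
    linarith
  set a := √(1 + ρ ^ 2) with had
  set s : ℝ := ρ * (3 - ρ ^ 2) / a ^ 3 with hs
  have hs1' : s ≤ 1 := by
    rw [hs, div_le_one (by positivity)]
    exact hs1
  set w : ℝ := -y * a / ρ with hw
  have hw0 : 0 ≤ w := by
    rw [hw]
    have : 0 ≤ -y := by linarith
    positivity
  have hvw : w - w ^ 2 / 2 * s ≤ v := by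
    rw [hv]
    exact hgen y ⟨le_refl y, hy0⟩
  have hρa : ρ < a := by
    rw [had]
    exact Real.lt_sqrt_of_sq_lt (by linarith)
  have hw1 : w ≤ 1 := by
    by_contra hcon
    push Not at hcon
    have hy2 : y < -(ρ / a) := by
      rw [hw, lt_div_iff₀ hρ] at hcon
      rw [lt_neg, div_lt_iff₀ ha]
      linarith
    have hz0 : -(ρ / a) < 0 := by
      have : 0 < ρ / a := by positivity
      linarith
    have h3 := hgen (-(ρ / a)) ⟨hy2.le, hz0.le⟩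
    have e1 : -(-(ρ / a)) * a / ρ = 1 := by field_simp
    rw [e1] at h3
    have hmono := sE_strictMonoOn h (dom_zero hρ) hy1.le
    have h4 := hmono ⟨le_refl y, hy0⟩ ⟨hy2.le, hz0.le⟩ hy2
    have h5 : -sE ρ (-(ρ / a)) / a ≤ -sE ρ y / a := div_le_div_of_nonneg_right (by linarith) ha.le
    rw [← hv] at h5
    nlinarith
  have hw6 : w ≤ 3 / 5 := by
    by_contra hcon
    push Not at hcon
    have h1 : w ^ 2 / 2 * s ≤ w ^ 2 / 2 * 1 := mul_le_mul_of_nonneg_left hs1' (by positivity)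
    nlinarith
  have hyw : -y = ρ / a * w := by
    rw [hw]
    field_simp
  have hv0 : 0 ≤ v := by
    have h1 : w ^ 2 / 2 * s ≤ w ^ 2 / 2 * 1 := mul_le_mul_of_nonneg_left hs1' (by positivity)
    nlinarith
  constructor
  · -- `θ w ≤ w - s w²/2`
    refine le_trans ?_ hvw
    rw [hyw]
    set θ : ℝ := ρ / a with hθ
    have hθ0 : 0 < θ := by positivity
    have hθ1 : θ < 1 := by
      rw [hθ, div_lt_one ha]
      exact hρa
    have hsθ : s = θ * (3 - 4 * θ ^ 2) := by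
      rw [hs, hθ]
      have : (3 - ρ ^ 2) = 3 * a ^ 2 - 4 * ρ ^ 2 := by rw [ha2]; ring
      rw [this]
      field_simp
    have h1 : θ + w / 2 * s ≤ 1 := by
      rcases le_total 0 s with h2 | h2
      · have h3 : w / 2 * s ≤ 3 / 10 * s := mul_le_mul_of_nonneg_right (by linarith) h2
        rw [hsθ] at h3 ⊢
        nlinarith [mul_nonneg (sq_nonneg (θ - 73 / 100)) (by linarith : (0 : ℝ) ≤ θ + 146 / 100)]
      · have h3 : w / 2 * s ≤ 0 := mul_nonpos_of_nonneg_of_nonpos (by positivity) h2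
        linarith
    have h2 := mul_le_mul_of_nonneg_left h1 hw0
    nlinarith
  · have h1 := right_drop h hy1.le hy0
    have e1 : y * sE ρ y - ((1 + ρ ^ 2) * y ^ 2 / 2 + (3 - ρ ^ 2) * y ^ 3 / 6) / ρ =
        ρ * (w * v - w ^ 2 / 2 + s * w ^ 3 / 6) := by
      have hη : sE ρ y = -(a * v) := by
        rw [hv]
        field_simp
      have hy' : y = -(ρ / a * w) := by linarith
      rw [hη, hs, ← ha2]
      generalize w = W at hy' ⊢
      subst hy'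
      field_simp
      ring
    rw [e1] at h1
    refine h1.trans (mul_le_mul_of_nonneg_left ?_ hρ.le)
    have h2 : s * w ^ 3 / 6 ≤ w ^ 3 / 6 := by
      have : s * w ^ 3 ≤ 1 * w ^ 3 := mul_le_mul_of_nonneg_right hs1' (by positivity)
      linarith
    have h3 : 0 ≤ (w - v) ^ 2 * (1 / 2 - v / 2 - (w - v) / 6 - 13 / 50) :=
      mul_nonneg (sq_nonneg _) (by linarith)
    have h4 : 0 ≤ 13 / 50 * (w - v) ^ 2 - v ^ 2 * (w - v) / 2 + v ^ 4 / 4 := by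
      nlinarith [sq_nonneg ((w - v) - 25 / 26 * v ^ 2), sq_nonneg (v ^ 2)]
    have e2 : v ^ 2 / 2 + v ^ 3 / 6 + v ^ 4 / 4 - (w * v - w ^ 2 / 2 + w ^ 3 / 6) =
        (w - v) ^ 2 * (1 / 2 - v / 2 - (w - v) / 6 - 13 / 50) +
        (13 / 50 * (w - v) ^ 2 - v ^ 2 * (w - v) / 2 + v ^ 4 / 4) := by ring
    linarith

/-! ### levels -/

theorem sD2_le {ρ y : ℝ} (h : Dom ρ y) (hy : y ≤ 0) : sD2 ρ y ≤ (1 + ρ ^ 2) * Real.exp (-2 * y) := by
  have e : Real.exp (-2 * y) = Real.exp (-y) ^ 2 := by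
    rw [← Real.exp_nat_mul]
    congr 1
    push_cast
    ring
  rw [sD2_eq h, e, mul_pow]
  have : 1 ≤ Real.exp (-y) ^ 2 := one_le_pow₀ (Real.one_le_exp (by linarith))
  linarith

theorem le_sD2 {ρ y : ℝ} (h : Dom ρ y) (hy : 0 ≤ y) : (1 + ρ ^ 2) * Real.exp (-2 * y) ≤ sD2 ρ y := by
  have e : Real.exp (-2 * y) = Real.exp (-y) ^ 2 := by
    rw [← Real.exp_nat_mul]
    congr 1
    push_cast
    ring
  rw [sD2_eq h, e, mul_pow]
  have : Real.exp (-y) ^ 2 ≤ 1 := pow_le_one₀ (Real.exp_nonneg _) (Real.exp_le_one_iff.2 (by linarith))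
  linarith

theorem rpow_exp {R z : ℝ} (hR : 0 < R) :
    (R * Real.exp z) ^ (1 / 4 : ℝ) = R ^ (1 / 4 : ℝ) * Real.exp (z / 4) := by
  rw [Real.mul_rpow hR.le (Real.exp_nonneg _), ← Real.exp_mul]
  congr 2
  ring

/-- `y ≤ u + u²/(2(1-u))` if `1 - e^(-y) ≤ u < 1` -/
theorem y_le_of {y u : ℝ} (hy : 0 ≤ y) (hu : u < 1) (h : 1 - Real.exp (-y) ≤ u) :
    y ≤ u + u ^ 2 / (2 * (1 - u)) := by
  have h1 : u + u ^ 2 / (2 * (1 - u)) = (1 / (1 - u) - (1 - u)) / 2 := by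
    have : 1 - u ≠ 0 := by linarith
    field_simp
    ring
  have hu' : 0 < 1 - u := by linarith
  have h3 : 1 - u ≤ Real.exp (-y) := by linarith
  have h4 : Real.exp y ≤ 1 / (1 - u) := by
    rw [le_div_iff₀ hu']
    have : Real.exp y * Real.exp (-y) = 1 := by rw [← Real.exp_add]; simp
    calc Real.exp y * (1 - u) ≤ Real.exp y * Real.exp (-y) := mul_le_mul_of_nonneg_left h3 (Real.exp_nonneg _)
      _ = 1 := this
  have h5 := Real.self_le_sinh_iff.2 hy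
  rw [Real.sinh_eq] at h5
  rw [h1]
  linarith

/-- the end of the domain is far -/
theorem strict_dom {ρ y : ℝ} (h : Dom ρ y) (hy : 0 ≤ y) (hu : sE ρ y / √(1 + ρ ^ 2) < 1) :
    |y| * Real.exp y < ρ := by
  refine lt_of_le_of_ne h.2 fun he => ?_
  have hρ := h.1
  have hR : 0 < 1 + ρ ^ 2 := by positivity
  have ha : 0 < √(1 + ρ ^ 2) := Real.sqrt_pos.2 hR
  rw [abs_of_nonneg hy] at he
  have h1 : sP ρ y = Real.pi / 2 := by
    unfold sP
    rw [he, div_self hρ.ne', Real.arcsin_one]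
  have h2 : sx ρ y = 0 := by
    have h3 := h.cos
    rw [h1, Real.cos_pi_div_two] at h3
    have h4 := Real.exp_pos y
    have h5 : sx ρ y * Real.exp y = 0 := by
      rcases div_eq_zero_iff.1 h3.symm with h6 | h6
      · exact h6
      · exact absurd h6 hρ.ne'
    rcases mul_eq_zero.1 h5 with h6 | h6
    · exact h6
    · exact absurd h6 h4.ne'
  have h3 : sE ρ y = Real.pi / 2 + ρ := by
    unfold sE
    rw [h1, h2]
    ring
  rw [h3, div_lt_one ha] at hu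
  have h4 : √(1 + ρ ^ 2) ≤ Real.pi / 2 + ρ := by
    have := Real.pi_gt_three
    refine Real.sqrt_le_iff.2 ⟨by positivity, by nlinarith⟩
  linarith

/-- the gap from the inequality between numbers -/
theorem gap_of {r δ ya yb u V γ : ℝ} (hδ : 0 < δ) (hr : 0 < r) (hDa : Dom (r * δ) ya) (hya1 : -1 < ya)
    (hya0 : ya ≤ 0) (hDb : Dom (r * δ) yb) (hyb0 : 0 ≤ yb)
    (hu : u = sE (r * δ) yb / √(1 + (r * δ) ^ 2)) (hu0 : 0 ≤ u) (hu1 : u < 1)
    (hV : -sE (r * δ) ya / √(1 + (r * δ) ^ 2) ≤ V) (hV2 : V ≤ 21 / 50)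
    (hnum : γ + (V + (u + u ^ 2 / (2 * (1 - u)))) / 2 ≤
      r * ((u ^ 2 / 2 - u ^ 3 / 6) - (V ^ 2 / 2 + V ^ 3 / 6 + V ^ 4 / 4))) : Gap r δ ya yb γ := by
  have hρ := hDa.1
  set ρ : ℝ := r * δ with hρd
  have hR : 0 < 1 + ρ ^ 2 := by positivity
  have ha : 0 < √(1 + ρ ^ 2) := Real.sqrt_pos.2 hR
  have ha2 : √(1 + ρ ^ 2) ^ 2 = 1 + ρ ^ 2 := Real.sq_sqrt hR.le
  set v : ℝ := -sE ρ ya / √(1 + ρ ^ 2) with hv
  obtain ⟨hn, hPa⟩ := right_up hDa hya1 hya0 hv (hV.trans hV2)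
  have hv0 : 0 ≤ v := by linarith
  have hPb := left_low hρ (strict_dom hDb hyb0 (by rw [← hu]; exact hu1)) hyb0
  rw [← hu] at hPb
  have hyb : yb ≤ u + u ^ 2 / (2 * (1 - u)) := by
    refine y_le_of hyb0 hu1 ((one_sub_exp_le hDb hyb0).trans ?_)
    have h1 : ρ * sE ρ yb / (1 + ρ ^ 2) = ρ / √(1 + ρ ^ 2) * u := by
      rw [hu, div_mul_div_comm, ← pow_two, ha2]
    rw [h1]
    have h2 : ρ / √(1 + ρ ^ 2) ≤ 1 := by
      rw [div_le_one ha]
      exact Real.le_sqrt_of_sq_le (by linarith)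
    nlinarith
  -- powers of `v`
  have hPa' : ρ - sx ρ ya * (1 + ya) ≤ ρ * (V ^ 2 / 2 + V ^ 3 / 6 + V ^ 4 / 4) := by
    refine hPa.trans (mul_le_mul_of_nonneg_left ?_ hρ.le)
    have m2 : v ^ 2 ≤ V ^ 2 := pow_le_pow_left₀ hv0 hV 2
    have m3 : v ^ 3 ≤ V ^ 3 := pow_le_pow_left₀ hv0 hV 3
    have m4 : v ^ 4 ≤ V ^ 4 := pow_le_pow_left₀ hv0 hV 4
    linarith
  have hδr : ρ / δ = r := by rw [hρd]; field_simp
  have hmain : γ + (-ya + yb) / 2 + sx ρ yb * (1 + yb) / δ ≤ sx ρ ya * (1 + ya) / δ := by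
    have h1 : sx ρ ya * (1 + ya) / δ - sx ρ yb * (1 + yb) / δ =
        ((ρ - sx ρ yb * (1 + yb)) - (ρ - sx ρ ya * (1 + ya))) / δ := by ring
    have h2 : ρ * ((u ^ 2 / 2 - u ^ 3 / 6) - (V ^ 2 / 2 + V ^ 3 / 6 + V ^ 4 / 4)) ≤
        (ρ - sx ρ yb * (1 + yb)) - (ρ - sx ρ ya * (1 + ya)) := by
      rw [mul_sub]
      linarith
    have h3 := div_le_div_of_nonneg_right h2 hδ.le
    rw [← h1, mul_div_right_comm, hδr] at h3
    linarith
  have hg0 : Real.exp γ * sM r δ yb ≤ sM r δ ya := by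
    have hDap := sD2_pos (ρ := ρ) hya1
    have hDbp := sD2_pos (ρ := ρ) (y := yb) (by linarith)
    have hR4 : 0 < (1 + ρ ^ 2) ^ (1 / 4 : ℝ) := Real.rpow_pos_of_pos hR _
    have k1 : (sD2 ρ ya) ^ (1 / 4 : ℝ) ≤ (1 + ρ ^ 2) ^ (1 / 4 : ℝ) * Real.exp (-ya / 2) := by
      have := Real.rpow_le_rpow hDap.le (sD2_le hDa hya0) (by norm_num : (0 : ℝ) ≤ 1 / 4)
      rw [rpow_exp hR] at this
      refine this.trans (le_of_eq ?_)
      congr 2
      ring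
    have k2 : (1 + ρ ^ 2) ^ (1 / 4 : ℝ) * Real.exp (-yb / 2) ≤ (sD2 ρ yb) ^ (1 / 4 : ℝ) := by
      have := Real.rpow_le_rpow (by positivity) (le_sD2 hDb hyb0) (by norm_num : (0 : ℝ) ≤ 1 / 4)
      rw [rpow_exp hR] at this
      refine (le_of_eq ?_).trans this
      congr 2
      ring
    have p1 : 0 < (sD2 ρ ya) ^ (1 / 4 : ℝ) := Real.rpow_pos_of_pos hDap _
    have p2 : 0 < (sD2 ρ yb) ^ (1 / 4 : ℝ) := Real.rpow_pos_of_pos hDbp _
    have q1 : Real.exp (sx ρ ya * (1 + ya) / δ) / ((1 + ρ ^ 2) ^ (1 / 4 : ℝ) * Real.exp (-ya / 2)) ≤ sM r δ ya := by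
      unfold sM
      rw [← hρd]
      exact div_le_div_of_nonneg_left (Real.exp_nonneg _) p1 k1
    have q2 : sM r δ yb ≤ Real.exp (sx ρ yb * (1 + yb) / δ) / ((1 + ρ ^ 2) ^ (1 / 4 : ℝ) * Real.exp (-yb / 2)) := by
      unfold sM
      rw [← hρd]
      exact div_le_div_of_nonneg_left (Real.exp_nonneg _) (by positivity) k2
    refine (mul_le_mul_of_nonneg_left q2 (Real.exp_nonneg _)).trans (le_trans ?_ q1)
    have e1 : Real.exp γ * (Real.exp (sx ρ yb * (1 + yb) / δ) /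
        ((1 + ρ ^ 2) ^ (1 / 4 : ℝ) * Real.exp (-yb / 2))) =
        Real.exp (γ + sx ρ yb * (1 + yb) / δ + yb / 2) / (1 + ρ ^ 2) ^ (1 / 4 : ℝ) := by
      have : Real.exp (-yb / 2) = (Real.exp (yb / 2))⁻¹ := by
        rw [← Real.exp_neg]
        congr 1
        ring
      rw [this, Real.exp_add, Real.exp_add]
      field_simp
    have e2 : Real.exp (sx ρ ya * (1 + ya) / δ) / ((1 + ρ ^ 2) ^ (1 / 4 : ℝ) * Real.exp (-ya / 2)) =
        Real.exp (sx ρ ya * (1 + ya) / δ + ya / 2) / (1 + ρ ^ 2) ^ (1 / 4 : ℝ) := by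
      have : Real.exp (-ya / 2) = (Real.exp (ya / 2))⁻¹ := by
        rw [← Real.exp_neg]
        congr 1
        ring
      rw [this, Real.exp_add]
      field_simp
    rw [e1, e2]
    refine div_le_div_of_nonneg_right (Real.exp_le_exp.2 ?_) hR4.le
    linarith
  refine ⟨hg0, ?_⟩
  have hk : ‖kap r δ yb‖ ≤ ‖kap r δ ya‖ := by
    unfold kap
    rw [← hρd, norm_div, norm_div, norm_sK hDb, norm_sK hDa]
    refine div_le_div_of_nonneg_right (mul_le_mul_of_nonneg_left (Real.exp_le_exp.2 (by linarith)) hρ.le)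
      (norm_nonneg _)
  calc Real.exp γ * (‖kap r δ yb‖ * sM r δ yb) = ‖kap r δ yb‖ * (Real.exp γ * sM r δ yb) := by ring
    _ ≤ ‖kap r δ ya‖ * sM r δ ya :=
        mul_le_mul hk hg0 (mul_nonneg (Real.exp_nonneg _) (sM_pos (by linarith)).le) (norm_nonneg _)

/-! ### numbers -/

theorem num1 {r t : ℝ} (hr : 499 / 10 ≤ r) (ht : 0 ≤ t) (hG : 27 / 5 ≤ r * t ^ 2) (hG2 : r * t ^ 2 < 10) :
    17 / 20 + (1 / 4 * t + (3 / 4 * t + (3 / 4 * t) ^ 2 / (2 * (1 - 3 / 4 * t)))) / 2 ≤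
      r * (((3 / 4 * t) ^ 2 / 2 - (3 / 4 * t) ^ 3 / 6) -
        ((1 / 4 * t) ^ 2 / 2 + (1 / 4 * t) ^ 3 / 6 + (1 / 4 * t) ^ 4 / 4)) := by
  have ht2 : t ^ 2 ≤ (9 / 20) ^ 2 := by
    have : 499 / 10 * t ^ 2 ≤ r * t ^ 2 := mul_le_mul_of_nonneg_right hr (sq_nonneg t)
    nlinarith
  have ht1 : t ≤ 9 / 20 := by
    refine abs_le_of_sq_le_sq' ht2 (by norm_num) |>.2
  have e : r * (((3 / 4 * t) ^ 2 / 2 - (3 / 4 * t) ^ 3 / 6) -
        ((1 / 4 * t) ^ 2 / 2 + (1 / 4 * t) ^ 3 / 6 + (1 / 4 * t) ^ 4 / 4)) =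
      (r * t ^ 2) * (1 / 4 - 7 / 96 * t - t ^ 2 / 1024) := by ring
  rw [e]
  have h1 : 27 / 5 * (217 / 1000) ≤ (r * t ^ 2) * (1 / 4 - 7 / 96 * t - t ^ 2 / 1024) := by
    refine mul_le_mul hG ?_ (by norm_num) (by linarith)
    nlinarith
  have h2 : (3 / 4 * t) ^ 2 / (2 * (1 - 3 / 4 * t)) ≤ 9 / 100 := by
    rw [div_le_iff₀ (by linarith)]
    nlinarith
  linarith

theorem num2 {r t : ℝ} (hr : 499 / 10 ≤ r) (ht : 0 ≤ t) (hG : 10 ≤ r * t ^ 2) (hG2 : r * t ^ 2 < 20) :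
    17 / 20 + (7 / 20 * t + (13 / 20 * t + (13 / 20 * t) ^ 2 / (2 * (1 - 13 / 20 * t)))) / 2 ≤
      r * (((13 / 20 * t) ^ 2 / 2 - (13 / 20 * t) ^ 3 / 6) -
        ((7 / 20 * t) ^ 2 / 2 + (7 / 20 * t) ^ 3 / 6 + (7 / 20 * t) ^ 4 / 4)) := by
  have h0 : 499 / 10 * t ^ 2 ≤ r * t ^ 2 := mul_le_mul_of_nonneg_right hr (sq_nonneg t)
  have ht2 : t ^ 2 ≤ (16 / 25) ^ 2 := by nlinarith
  have ht1 : t ≤ 16 / 25 := by
    refine abs_le_of_sq_le_sq' ht2 (by norm_num) |>.2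
  have e : r * (((13 / 20 * t) ^ 2 / 2 - (13 / 20 * t) ^ 3 / 6) -
        ((7 / 20 * t) ^ 2 / 2 + (7 / 20 * t) ^ 3 / 6 + (7 / 20 * t) ^ 4 / 4)) =
      (r * t ^ 2) * (3 / 20 - 127 / 2400 * t - 2401 / 640000 * t ^ 2) := by ring
  rw [e]
  rcases le_total t (1 / 2) with h5 | h5
  · have h1 : 10 * (122 / 1000) ≤ (r * t ^ 2) * (3 / 20 - 127 / 2400 * t - 2401 / 640000 * t ^ 2) := by
      refine mul_le_mul hG ?_ (by norm_num) (by linarith)
      nlinarith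
    have h2 : (13 / 20 * t) ^ 2 / (2 * (1 - 13 / 20 * t)) ≤ 8 / 100 := by
      rw [div_le_iff₀ (by linarith)]
      nlinarith
    linarith
  · have h6 : 1247 / 100 ≤ r * t ^ 2 := by nlinarith
    have h1 : 1247 / 100 * (114 / 1000) ≤ (r * t ^ 2) * (3 / 20 - 127 / 2400 * t - 2401 / 640000 * t ^ 2) := by
      refine mul_le_mul h6 ?_ (by norm_num) (by linarith)
      nlinarith
    have h2 : (13 / 20 * t) ^ 2 / (2 * (1 - 13 / 20 * t)) ≤ 15 / 100 := by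
      rw [div_le_iff₀ (by linarith)]
      nlinarith
    linarith

theorem num3 {r t : ℝ} (hr : 499 / 10 ≤ r) (ht : 0 ≤ t) (hG : 20 ≤ r * t ^ 2) (ht2 : t ^ 2 ≤ 11 / 10) :
    17 / 20 + (2 / 5 * t + (3 / 5 * t + (3 / 5 * t) ^ 2 / (2 * (1 - 3 / 5 * t)))) / 2 ≤
      r * (((3 / 5 * t) ^ 2 / 2 - (3 / 5 * t) ^ 3 / 6) -
        ((2 / 5 * t) ^ 2 / 2 + (2 / 5 * t) ^ 3 / 6 + (2 / 5 * t) ^ 4 / 4)) := by
  have h0 : 499 / 10 * t ^ 2 ≤ r * t ^ 2 := mul_le_mul_of_nonneg_right hr (sq_nonneg t)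
  have ht1 : t ≤ 21 / 20 := by
    refine abs_le_of_sq_le_sq' (ht2.trans (by norm_num)) (by norm_num) |>.2
  have e : r * (((3 / 5 * t) ^ 2 / 2 - (3 / 5 * t) ^ 3 / 6) -
        ((2 / 5 * t) ^ 2 / 2 + (2 / 5 * t) ^ 3 / 6 + (2 / 5 * t) ^ 4 / 4)) =
      (r * t ^ 2) * (1 / 10 - 7 / 150 * t - 4 / 625 * t ^ 2) := by ring
  rw [e]
  rcases le_total t (16 / 25) with h5 | h5
  · have h1 : 20 * (67 / 1000) ≤ (r * t ^ 2) * (1 / 10 - 7 / 150 * t - 4 / 625 * t ^ 2) := by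
      refine mul_le_mul hG ?_ (by norm_num) (by linarith)
      nlinarith
    have h2 : (3 / 5 * t) ^ 2 / (2 * (1 - 3 / 5 * t)) ≤ 13 / 100 := by
      rw [div_le_iff₀ (by linarith)]
      nlinarith
    linarith
  · have h3 : 0 ≤ 1 / 10 - 7 / 150 * t - 4 / 625 * t ^ 2 := by nlinarith
    have h1 : 499 / 10 * t ^ 2 * (1 / 10 - 7 / 150 * t - 4 / 625 * t ^ 2) ≤
        (r * t ^ 2) * (1 / 10 - 7 / 150 * t - 4 / 625 * t ^ 2) := mul_le_mul_of_nonneg_right h0 h3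
    have h2 : (3 / 5 * t) ^ 2 / (2 * (1 - 3 / 5 * t)) ≤ 49 / 100 * t ^ 2 := by
      rw [div_le_iff₀ (by linarith)]
      nlinarith [sq_nonneg t, mul_nonneg (sq_nonneg t) (by linarith : (0 : ℝ) ≤ 21 / 20 - t)]
    have h4 : 17 / 20 + t / 2 + 49 / 200 * t ^ 2 ≤
        499 / 10 * t ^ 2 * (1 / 10 - 7 / 150 * t - 4 / 625 * t ^ 2) := by
      nlinarith [mul_nonneg (by linarith : (0 : ℝ) ≤ t - 16 / 25) (by linarith : (0 : ℝ) ≤ 21 / 20 - t),
        mul_nonneg (mul_nonneg (by linarith : (0 : ℝ) ≤ t - 16 / 25) (by linarith : (0 : ℝ) ≤ 21 / 20 - t)) ht,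
        mul_nonneg (mul_nonneg (by linarith : (0 : ℝ) ≤ t - 16 / 25) (by linarith : (0 : ℝ) ≤ 21 / 20 - t)) (sq_nonneg t)]
    linarith

/-! ### the field -/

theorem hst_pos_gapR {N : ℕ} (hN : 3 ≤ N) : 0 < hst N := by
  unfold hst
  have := Real.pi_pos
  have : (0 : ℝ) < N := by exact_mod_cast (by omega : 0 < N)
  positivity

/-- the sign of `y` from the sign of `η` -/
theorem y_nonpos {r δ y η : ℝ} (h : At r δ y η) (hη : η ≤ 0) : y ≤ 0 := by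
  by_contra hcon
  push Not at hcon
  have h1 := sE_strictMonoOn (dom_zero h.dom.1) h.dom (by norm_num)
    (left_mem_Icc.2 hcon.le) (right_mem_Icc.2 hcon.le) hcon
  rw [sE_zero h.dom.1, h.eta] at h1
  linarith

theorem y_nonneg {r δ y η : ℝ} (h : At r δ y η) (hη : 0 ≤ η) : 0 ≤ y := by
  by_contra hcon
  push Not at hcon
  have h1 := sE_strictMonoOn h.dom (dom_zero h.dom.1) h.y1.le
    (left_mem_Icc.2 hcon.le) (right_mem_Icc.2 hcon.le) hcon
  rw [sE_zero h.dom.1, h.eta] at h1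
  linarith

/-- PIECE GAP, `R`. -/
theorem gapR (N : ℕ) (r δ ya yb η : ℝ) (hreg : Reg1 N r δ) (hAa : At r δ ya η)
    (hAb : At r δ yb (eo1 N r δ)) (hη0 : η ≤ 0) (hη1 : -ei1 N r δ ≤ η) : Gap r δ ya yb (17 / 20) := by
  have hr := hreg.r0
  have hr0 : 0 < r := by linarith
  have hδ := hreg.d0
  have hh := hst_pos_gapR hreg.N3
  have hR : 0 < 1 + (r * δ) ^ 2 := by positivity
  have ha : 0 < √(1 + (r * δ) ^ 2) := Real.sqrt_pos.2 hR
  have ha2 : √(1 + (r * δ) ^ 2) ^ 2 = 1 + (r * δ) ^ 2 := Real.sq_sqrt hR.le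
  set t : ℝ := hst N / √(1 + (r * δ) ^ 2) with ht
  have ht0 : 0 < t := by positivity
  have hGt : Gm N r δ = r * t ^ 2 := by
    unfold Gm RR
    rw [ht, div_pow, ha2]
    ring
  have htI : t ^ 2 ≤ 11 / 10 := by
    have := hreg.I
    unfold RR at this
    rw [ht, div_pow, ha2, div_le_iff₀ hR]
    exact this
  have hG := hreg.G
  have ht1 : t ≤ 21 / 20 := abs_le_of_sq_le_sq' (htI.trans (by norm_num)) (by norm_num) |>.2
  -- the general step
  have step : ∀ om : ℝ, om1 N r δ = om → 0 ≤ om → om ≤ 1 / 4 → (1 / 2 + om) * t < 1 → (1 / 2 - om) * t ≤ 21 / 50 →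
      (17 / 20 + ((1 / 2 - om) * t + ((1 / 2 + om) * t + ((1 / 2 + om) * t) ^ 2 / (2 * (1 - (1 / 2 + om) * t)))) / 2 ≤
      r * ((((1 / 2 + om) * t) ^ 2 / 2 - ((1 / 2 + om) * t) ^ 3 / 6) -
        (((1 / 2 - om) * t) ^ 2 / 2 + ((1 / 2 - om) * t) ^ 3 / 6 + ((1 / 2 - om) * t) ^ 4 / 4))) →
      Gap r δ ya yb (17 / 20) := by
    intro om hom hom0 hom1 h1 h2 h3
    have heo : eo1 N r δ = (1 / 2 + om) * hst N := by unfold eo1; rw [hom]
    have hei : ei1 N r δ = (1 / 2 - om) * hst N := by unfold ei1; rw [hom]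
    have heo0 : 0 ≤ eo1 N r δ := by
      rw [heo]
      positivity
    refine gap_of hδ hr0 hAa.dom hAa.y1 (y_nonpos hAa hη0) hAb.dom (y_nonneg hAb heo0)
      (u := (1 / 2 + om) * t) (V := (1 / 2 - om) * t) ?_ (by positivity) h1 ?_ h2 h3
    · rw [hAb.eta, heo, ht]
      ring
    · rw [hAa.eta, ht, ← mul_div_assoc]
      refine div_le_div_of_nonneg_right ?_ ha.le
      rw [← hei]
      linarith
  rw [hGt] at hG
  by_cases c1 : Gm N r δ < 10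
  · have c1' := c1
    rw [hGt] at c1'
    have hn := num1 hr ht0.le hG c1'
    have ht2 : t ^ 2 ≤ (9 / 20) ^ 2 := by
      have : 499 / 10 * t ^ 2 ≤ r * t ^ 2 := mul_le_mul_of_nonneg_right hr (sq_nonneg t)
      nlinarith
    have ht3 : t ≤ 9 / 20 := abs_le_of_sq_le_sq' ht2 (by norm_num) |>.2
    refine step (1 / 4) (by unfold om1; rw [if_pos c1]) (by norm_num) (by norm_num) (by linarith) (by linarith) ?_
    norm_num at hn ⊢
    exact hn
  · by_cases c2 : Gm N r δ < 20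
    · have c2' := c2
      rw [hGt] at c2'
      have c1' : 10 ≤ r * t ^ 2 := by rw [← hGt]; exact not_lt.1 c1
      have hn := num2 hr ht0.le c1' c2'
      have ht2 : t ^ 2 ≤ (16 / 25) ^ 2 := by
        have : 499 / 10 * t ^ 2 ≤ r * t ^ 2 := mul_le_mul_of_nonneg_right hr (sq_nonneg t)
        nlinarith
      have ht3 : t ≤ 16 / 25 := abs_le_of_sq_le_sq' ht2 (by norm_num) |>.2
      refine step (3 / 20) (by unfold om1; rw [if_neg c1, if_pos c2]) (by norm_num) (by norm_num) (by linarith)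
        (by linarith) ?_
      norm_num at hn ⊢
      exact hn
    · have c2' : 20 ≤ r * t ^ 2 := by rw [← hGt]; exact not_lt.1 c2
      have hn := num3 hr ht0.le c2' htI
      refine step (1 / 10) (by unfold om1; rw [if_neg c1, if_neg c2]) (by norm_num) (by norm_num) (by linarith)
        (by linarith) ?_
      norm_num at hn ⊢
      exact hn

end SokalV3
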