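import Pool.Agent.Lib_MP_af4de1_v3.P2OutC

/-!
# `P2.outL`: numbers of case B
-/

set_option autoImplicit false

namespace SokalP2O

open Real Set SokalF1G MeasureTheory SokalPG

namespace OutLB

/-- `x (y + y²/2 + y³/6) + (Y - Y³/3) ≤ η` -/
theorem key {x y ρ η ψ W D : ℝ} (G : GeL x y ρ η ψ W D) :
    x * (y + y ^ 2 / 2 + y ^ 3 / 6) + (y / x - (y / x) ^ 3 / 3) ≤ η := by
  have h1 := e_ge3 G.y0
  have h2 := G.xW
  have h3 := G.psi_ge
  have h10 : η = ψ + W * exp y - x := by rw [← G.rho]; exact G.eta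
  have h4 : 0 ≤ y + y ^ 2 / 2 + y ^ 3 / 6 := by
    have := G.y0
    positivity
  have h5 : W * (1 + y + y ^ 2 / 2 + y ^ 3 / 6) ≤ W * exp y :=
    mul_le_mul_of_nonneg_left h1 G.W0.le
  have h6 : x * (y + y ^ 2 / 2 + y ^ 3 / 6) ≤ W * (y + y ^ 2 / 2 + y ^ 3 / 6) :=
    mul_le_mul_of_nonneg_right h2 h4
  nlinarith

theorem exp_le4 {b : ℝ} (h : 0 ≤ b) (h1 : b ≤ 1) :
    exp b ≤ 1 + b + b ^ 2 / 2 + b ^ 3 / 6 + 5 * b ^ 4 / 96 := by
  have := Real.exp_bound' h h1 (n := 4) (by norm_num)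
  simp [Finset.sum_range_succ, Nat.factorial] at this
  linarith

theorem xlow {x y ρ η ψ W D : ℝ} (G : GeL x y ρ η ψ W D) (hη1 : 20419 / 10000 ≤ η)
    (hη2 : η ≤ 204204 / 100000) (hρ : 485 / 100 ≤ ρ) : 296 / 100 ≤ x := by
  have hx := G.x0
  have hy := G.y0
  have h1 := G.psi_ge
  have h2 := G.F3
  have h3 := G.eta
  have h4 := G.Y0
  have h5 := G.Y1
  have h6 : y = y / x * x := by field_simp
  set Y := y / x with hY
  have h7 : y * (1 / x) = Y := by rw [hY]; ring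
  have hY3 : Y ^ 3 / 3 ≤ Y * (16 / 300) := by
    have : Y ^ 2 ≤ (2 / 5) ^ 2 := pow_le_pow_left₀ h4 h5 2
    nlinarith
  by_contra hlt
  push Not at hlt
  have hx28 : 2807 / 1000 ≤ x := by nlinarith
  -- F3 : η ≤ Y x (x + η/2) + 11/10 Y
  have h8 : η ≤ Y * (x * (x + η / 2) + 11 / 10) := by
    have e : y * (x + η / 2 + 11 / 10 * (1 / x)) = y * (x + η / 2) + 11 / 10 * (y * (1 / x)) := by
      ring
    rw [e, h7] at h2
    have e2 : y * (x + η / 2) = Y * (x * (x + η / 2)) := by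
      rw [← mul_assoc, ← h6]
    rw [e2] at h2
    linarith
  have h9 : x * (x + η / 2) + 11 / 10 ≤ 12885 / 1000 := by nlinarith
  have h10 : 20419 / 10000 ≤ Y * (12885 / 1000) := by
    have := mul_le_mul_of_nonneg_left h9 h4
    linarith
  have h11 : Y ≤ 22 / 100 := by
    have := G.y1
    nlinarith
  have h12 : Y ^ 3 / 3 ≤ Y * (484 / 30000) := by
    have : Y ^ 2 ≤ (22 / 100) ^ 2 := pow_le_pow_left₀ h4 h11 2
    nlinarith
  linarith

theorem yup {x y ρ η ψ W D : ℝ} (G : GeL x y ρ η ψ W D)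
    (hη2 : η ≤ 204204 / 100000) (hx : 296 / 100 ≤ x) : y ≤ 498 / 1000 := by
  have hy := G.y0
  have h1 := key G
  have h4 := G.Y0
  have h5 := G.Y1
  have hx0 := G.x0
  have h6 : y = y / x * x := by field_simp
  set Y := y / x with hY
  have hY3 : Y ^ 3 / 3 ≤ Y * (16 / 300) := by
    have : Y ^ 2 ≤ (2 / 5) ^ 2 := pow_le_pow_left₀ h4 h5 2
    nlinarith
  by_contra hlt
  push Not at hlt
  have hP : (498 / 1000 : ℝ) + (498 / 1000) ^ 2 / 2 + (498 / 1000) ^ 3 / 6 ≤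
      y + y ^ 2 / 2 + y ^ 3 / 6 := by
    have a := pow_le_pow_left₀ (by norm_num : (0:ℝ) ≤ 498 / 1000) hlt.le 2
    have b := pow_le_pow_left₀ (by norm_num : (0:ℝ) ≤ 498 / 1000) hlt.le 3
    linarith
  have hQ : x * ((498 / 1000 : ℝ) + (498 / 1000) ^ 2 / 2 + (498 / 1000) ^ 3 / 6) ≤
      x * (y + y ^ 2 / 2 + y ^ 3 / 6) := mul_le_mul_of_nonneg_left hP hx0.le
  rcases le_total x (33 / 10) with h | h
  · have h7 : 498 / 1000 ≤ Y * (33 / 10) := by
      have := mul_le_mul_of_nonneg_left h h4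
      linarith
    nlinarith
  · nlinarith

theorem yup2 {x y ρ η ψ W D : ℝ} (G : GeL x y ρ η ψ W D)
    (hη2 : η ≤ 204204 / 100000) {a c : ℝ} (ha : a ≤ x) (hc : 0 ≤ c)
    (hac : 204204 / 100000 < a * (c + c ^ 2 / 2 + c ^ 3 / 6)) : y ≤ c := by
  have h1 := key G
  have h4 := G.Y0
  have h5 := G.Y1
  have hx0 := G.x0
  set Y := y / x with hY
  have hY3 : Y ^ 3 / 3 ≤ Y * (16 / 300) := by
    have : Y ^ 2 ≤ (2 / 5) ^ 2 := pow_le_pow_left₀ h4 h5 2
    nlinarith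
  by_contra hlt
  push Not at hlt
  have hP : c + c ^ 2 / 2 + c ^ 3 / 6 ≤ y + y ^ 2 / 2 + y ^ 3 / 6 := by
    have a := pow_le_pow_left₀ hc hlt.le 2
    have b := pow_le_pow_left₀ hc hlt.le 3
    linarith
  have hQ : x * (c + c ^ 2 / 2 + c ^ 3 / 6) ≤
      x * (y + y ^ 2 / 2 + y ^ 3 / 6) := mul_le_mul_of_nonneg_left hP hx0.le
  have hR : a * (c + c ^ 2 / 2 + c ^ 3 / 6) ≤ x * (c + c ^ 2 / 2 + c ^ 3 / 6) :=
    mul_le_mul_of_nonneg_right ha (by positivity)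
  linarith

theorem sqrt_ineq {x y W D : ℝ} (hW : 0 < W)
    (hW2 : W ^ 2 = x ^ 2 + y ^ 2) (hD2 : D ^ 2 = (1 + y) ^ 2 + x ^ 2)
    (hx : 296 / 100 ≤ x) (hyu : y ≤ 498 / 1000) :
    1001 / 1000 * √(12 / 11 * (D / W)) ≤ 111 / 100 := by
  have h1 : D ≤ 111 / 100 * W := by
    refine abs_le_of_sq_le_sq' ?_ (by positivity) |>.2
    rw [mul_pow, hD2, hW2]
    nlinarith
  have h2 : D / W ≤ 111 / 100 := by
    rw [div_le_iff₀ hW]
    exact h1
  have h3 : √(12 / 11 * (D / W)) ≤ 11088 / 10000 := by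
    rw [Real.sqrt_le_left (by norm_num)]
    linarith
  linarith

theorem c4 {x y D : ℝ} (hx0 : 0 < x) (hD2 : D ^ 2 = (1 + y) ^ 2 + x ^ 2)
    (hy : 0 ≤ y)
    (hq : (1 + 9 / 64 * y ^ 2) * (x ^ 2 + (1 + y) ^ 2 / 2) ≤
      72 / 25 * (11 / 24 * x ^ 2 - 11 / 64 * x ^ 2 * y + 3 / 8 * x * y -
        351 / 625 * (9 / 64) * x ^ 2 * y ^ 2)) :
    (1 + (3 / 8 * y) ^ 2) * D ≤
      (6 / 5) ^ 2 * (2 * (11 / 24 * (1 - 3 / 8 * y) * x +
        (1 - 351 / 625 * (x * (3 / 8 * y))) * (3 / 8 * y))) := by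
  have h1 : D ≤ x + (1 + y) ^ 2 / (2 * x) := by
    have h0 : 0 ≤ x + (1 + y) ^ 2 / (2 * x) := by positivity
    refine abs_le_of_sq_le_sq' ?_ h0 |>.2
    have e : (x + (1 + y) ^ 2 / (2 * x)) ^ 2 =
        (1 + y) ^ 2 + x ^ 2 + ((1 + y) ^ 2 / (2 * x)) ^ 2 := by
      field_simp
      ring
    rw [e, hD2]
    nlinarith [sq_nonneg ((1 + y) ^ 2 / (2 * x))]
  have h2 : x * D ≤ x ^ 2 + (1 + y) ^ 2 / 2 := by
    have := mul_le_mul_of_nonneg_left h1 hx0.le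
    have e : x * (x + (1 + y) ^ 2 / (2 * x)) = x ^ 2 + (1 + y) ^ 2 / 2 := by
      field_simp
    linarith
  refine le_of_mul_le_mul_left ?_ hx0
  have h3 : (1 + 9 / 64 * y ^ 2) * (x * D) ≤ (1 + 9 / 64 * y ^ 2) * (x ^ 2 + (1 + y) ^ 2 / 2) :=
    mul_le_mul_of_nonneg_left h2 (by positivity)
  nlinarith

/-- the last line -/
theorem last {x y ρ η ψ W D d : ℝ} (G : GeL x y ρ η ψ W D)
    (hη2 : η ≤ 204204 / 100000) (hρ : 485 / 100 ≤ ρ)
    (hd71 : 71 / 10 ≤ d) (hyd : 206 / 100 ≤ y * d)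
    (hx : 296 / 100 ≤ x) (hyu : y ≤ 498 / 1000) :
    (y + 25 / 32 * y) / 2 - d * ((25 / 32 * y) * π -
      ρ * (exp (25 / 32 * y) - 1 - 25 / 32 * y) - (ρ - x * (1 + y))) +
      6 * (25 / 32 * y * d) ^ 2 / (11 * (ρ * exp (25 / 32 * y) * d)) ≤ -(3 / 5) := by
  have hy := G.y0
  have hr := G.r0
  have hd : 0 < d := by linarith
  have hp := Real.pi_gt_d4
  have hF1 := G.F1 (by linarith)
  have hF2 := G.F2
  have hY0 := G.Y0
  have hx0 := G.x0
  have hYy : y / x ≤ y / (296 / 100) := div_le_div_of_nonneg_left hy (by norm_num) hx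
  -- exponential
  have hb1 : 25 / 32 * y ≤ 1 := by linarith
  have hb0 : 0 ≤ 25 / 32 * y := by linarith
  have hE := exp_le4 hb0 hb1
  have hE1 : exp (25 / 32 * y) - 1 - 25 / 32 * y ≤
      y ^ 2 * (625 / 2048 * (1 + 25 / 96 * y + 3125 / 49152 * y ^ 2)) := by
    have e : y ^ 2 * (625 / 2048 * (1 + 25 / 96 * y + 3125 / 49152 * y ^ 2)) =
      (25 / 32 * y) ^ 2 / 2 + (25 / 32 * y) ^ 3 / 6 + 5 * (25 / 32 * y) ^ 4 / 96 := by ring
    rw [e]
    linarith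
  have hyr : y * ρ ≤ η * (1 + y / 2) := by linarith
  have hE2 : ρ * (exp (25 / 32 * y) - 1 - 25 / 32 * y) ≤
      y * (η * (1 + y / 2) * (625 / 2048 * (1 + 25 / 96 * y + 3125 / 49152 * y ^ 2))) := by
    have h1 := mul_le_mul_of_nonneg_left hE1 hr.le
    have h0 : 0 ≤ 625 / 2048 * (1 + 25 / 96 * y + 3125 / 49152 * y ^ 2) := by positivity
    have h2 := mul_le_mul_of_nonneg_left (mul_le_mul_of_nonneg_right hyr h0) hy
    linarith
  -- F2
  have hS : ρ - x * (1 + y) ≤ y * (η / 2 + 88 / 1000 * y) := by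
    have h1 : (y / x) ^ 2 ≤ (y / (296 / 100)) ^ 2 := pow_le_pow_left₀ hY0 hYy 2
    have h2 : y / 2 + (y / x) ^ 2 / 3 ≤ y / 2 + (y / (296 / 100)) ^ 2 / 3 := by linarith
    have h3 : y * (y / x) / 2 ≤ y * (y / (296 / 100)) / 2 := by
      have := mul_le_mul_of_nonneg_left hYy hy
      linarith
    have h4 : y * (y / x) / 2 * (y / 2 + (y / x) ^ 2 / 3) ≤
        y * (y / (296 / 100)) / 2 * (y / 2 + (y / (296 / 100)) ^ 2 / 3) :=
      mul_le_mul h3 h2 (by positivity) (by positivity)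
    have h5 : y * (y / (296 / 100)) / 2 * (y / 2 + (y / (296 / 100)) ^ 2 / 3) ≤
        y * (88 / 1000 * y) := by
      have e : y * (y / (296 / 100)) / 2 * (y / 2 + (y / (296 / 100)) ^ 2 / 3) =
        y ^ 2 * (25 / 148 * (y / 2 + (y / (296 / 100)) ^ 2 / 3)) := by ring
      have e2 : y * (88 / 1000 * y) = y ^ 2 * (88 / 1000) := by ring
      rw [e, e2]
      refine mul_le_mul_of_nonneg_left ?_ (by positivity)
      nlinarith
    linarith
  -- the third term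
  have hT : 6 * (25 / 32 * y * d) ^ 2 / (11 * (ρ * exp (25 / 32 * y) * d)) ≤
      d * y * (687 / 10000 * y) := by
    have he : 1 ≤ exp (25 / 32 * y) := one_le_exp hb0
    rw [div_le_iff₀ (by positivity)]
    have h1 : 485 / 100 ≤ ρ * exp (25 / 32 * y) := by nlinarith
    have e : 6 * (25 / 32 * y * d) ^ 2 = (y * d) ^ 2 * (1875 / 512) := by ring
    have e2 : d * y * (687 / 10000 * y) * (11 * (ρ * exp (25 / 32 * y) * d)) =
      (y * d) ^ 2 * (687 / 10000 * 11 * (ρ * exp (25 / 32 * y))) := by ring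
    rw [e, e2]
    refine mul_le_mul_of_nonneg_left ?_ (by positivity)
    linarith
  have hd2 : 0 ≤ y * d := by linarith
  -- bracket
  have hB : 81 / 100 - 697 / 1000 * y ≤ 25 / 32 * π -
      η * (1 + y / 2) * (625 / 2048 * (1 + 25 / 96 * y + 3125 / 49152 * y ^ 2)) -
      (η / 2 + 88 / 1000 * y) - 687 / 10000 * y := by
    have h1 : η * (1 + y / 2) * (625 / 2048 * (1 + 25 / 96 * y + 3125 / 49152 * y ^ 2)) ≤
        204204 / 100000 * ((1 + y / 2) *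
          (625 / 2048 * (1 + 25 / 96 * y + 3125 / 49152 * y ^ 2))) := by
      rw [mul_assoc]
      exact mul_le_mul_of_nonneg_right hη2 (by positivity)
    have h2 : (1 + y / 2) * (625 / 2048 * (1 + 25 / 96 * y + 3125 / 49152 * y ^ 2)) ≤
        30518 / 100000 * (1 + 866 / 1000 * y) := by
      nlinarith [mul_nonneg hy (sub_nonneg.2 hyu), mul_nonneg (mul_nonneg hy hy) (sub_nonneg.2 hyu)]
    linarith
  have hmain : (y + 25 / 32 * y) / 2 - d * ((25 / 32 * y) * π -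
      ρ * (exp (25 / 32 * y) - 1 - 25 / 32 * y) - (ρ - x * (1 + y))) +
      6 * (25 / 32 * y * d) ^ 2 / (11 * (ρ * exp (25 / 32 * y) * d)) ≤
      57 / 64 * y - (y * d) * (81 / 100 - 697 / 1000 * y) := by
    have h1 := mul_le_mul_of_nonneg_left hE2 hd.le
    have h2 := mul_le_mul_of_nonneg_left hS hd.le
    have h3 := mul_le_mul_of_nonneg_left hB hd2
    linarith
  refine hmain.trans ?_
  have h8 : 0 ≤ 81 / 100 - 697 / 1000 * y := by linarith
  rcases le_total y (3 / 10) with h | h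
  · have := mul_le_mul_of_nonneg_right hyd h8
    nlinarith
  · have h9 : y * (71 / 10) ≤ y * d := mul_le_mul_of_nonneg_left hd71 hy
    have := mul_le_mul_of_nonneg_right h9 h8
    nlinarith

/-- the quadratic inequality -/
theorem quad {x y : ℝ} (hy : 0 ≤ y) (hx : 296 / 100 ≤ x) (hyu : y ≤ 498 / 1000)
    (h33 : 33 / 10 ≤ x → y ≤ 484 / 1000) (h4 : 4 ≤ x → y ≤ 414 / 1000) :
    (1 + 9 / 64 * y ^ 2) * (x ^ 2 + (1 + y) ^ 2 / 2) ≤
      72 / 25 * (11 / 24 * x ^ 2 - 11 / 64 * x ^ 2 * y + 3 / 8 * x * y -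
        351 / 625 * (9 / 64) * x ^ 2 * y ^ 2) := by
  -- general step with an upper bound Y of y
  have step : ∀ Y : ℝ, y ≤ Y → Y ≤ 1 / 2 →
      (1 + 9 / 64 * Y ^ 2) * (x ^ 2 + (1 + Y) ^ 2 / 2) ≤
      72 / 25 * (11 / 24 * x ^ 2 - 11 / 64 * x ^ 2 * Y + 3 / 8 * x * Y -
        351 / 625 * (9 / 64) * x ^ 2 * Y ^ 2) →
      (1 + 9 / 64 * y ^ 2) * (x ^ 2 + (1 + y) ^ 2 / 2) ≤
      72 / 25 * (11 / 24 * x ^ 2 - 11 / 64 * x ^ 2 * y + 3 / 8 * x * y -
        351 / 625 * (9 / 64) * x ^ 2 * y ^ 2) := by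
    intro Y h1 h2 h3
    have q2 : y ^ 2 ≤ Y ^ 2 := pow_le_pow_left₀ hy h1 2
    have e1 : (1 + 9 / 64 * y ^ 2) * (x ^ 2 + (1 + y) ^ 2 / 2) ≤
        (1 + 9 / 64 * Y ^ 2) * (x ^ 2 + (1 + Y) ^ 2 / 2) := by
      refine mul_le_mul (by linarith) ?_ (by positivity) (by positivity)
      have : (1 + y) ^ 2 ≤ (1 + Y) ^ 2 := pow_le_pow_left₀ (by linarith) (by linarith) 2
      linarith
    have e2 : x ^ 2 * y ^ 2 ≤ x ^ 2 * Y ^ 2 := mul_le_mul_of_nonneg_left q2 (by positivity)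
    have e3 : y * (11 / 64 * x ^ 2 - 3 / 8 * x) ≤ Y * (11 / 64 * x ^ 2 - 3 / 8 * x) := by
      refine mul_le_mul_of_nonneg_right h1 ?_
      nlinarith
    linarith
  rcases le_total 4 x with h | h
  · refine step (414 / 1000) (h4 h) (by norm_num) ?_
    nlinarith
  rcases le_total (33 / 10) x with h' | h'
  · refine step (484 / 1000) (h33 h') (by norm_num) ?_
    nlinarith
  · refine step (498 / 1000) hyu (by norm_num) ?_
    nlinarith

end OutLB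

/-- the numbers of case B -/
theorem outL_numB {x y ρ η ψ W D d : ℝ} (G : GeL x y ρ η ψ W D) (hη : η = 65 / 100 * π)
    (hρ : 485 / 100 ≤ ρ) (hrd : 499 / 10 ≤ ρ * d) (hd : 1013 / 1000 * (ρ + 1 / ρ) ≤ d) :
    8 / 5 ≤ x ∧ y ≤ 5334 / 10000 ∧ 206 / 100 ≤ y * d ∧
    (1 + (3 / 8 * y) ^ 2) * D ≤
      (6 / 5) ^ 2 * (2 * (11 / 24 * (1 - 3 / 8 * y) * x +
        (1 - 351 / 625 * (x * (3 / 8 * y))) * (3 / 8 * y))) ∧
    1001 / 1000 * √(12 / 11 * (D / W)) ≤ 111 / 100 ∧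
    (y + 25 / 32 * y) / 2 - d * ((25 / 32 * y) * π -
      ρ * (exp (25 / 32 * y) - 1 - 25 / 32 * y) - (ρ - x * (1 + y))) +
      6 * (25 / 32 * y * d) ^ 2 / (11 * (ρ * exp (25 / 32 * y) * d)) ≤ -(3 / 5) := by
  have hp := Real.pi_gt_d4
  have hp2 := Real.pi_lt_d4
  have hη1 : 204197 / 100000 ≤ η := by rw [hη]; linarith
  have hη2 : η ≤ 204204 / 100000 := by rw [hη]; linarith
  have hx := OutLB.xlow G (by linarith) hη2 hρ
  have hyu := OutLB.yup G hη2 hx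
  have hy := G.y0
  have hr := G.r0
  have hρ1 : 0 < 1 / ρ := by positivity
  have hdr : 1013 / 1000 * ρ ≤ d := by linarith
  have hd0 : 0 < d := by linarith
  have hd71 : 71 / 10 ≤ d := by
    by_contra h
    push Not at h
    nlinarith
  have hyd : 206 / 100 ≤ y * d := by
    have h1 : y * (1013 / 1000 * ρ) ≤ y * d := mul_le_mul_of_nonneg_left hdr hy
    have h2 := G.F3
    have h3 := G.eta
    have h4 := G.psi_le
    have h5 : y / x ≤ y / (296 / 100) := div_le_div_of_nonneg_left hy (by norm_num) hx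
    have h6 : 1 / x ≤ 1 / (296 / 100) := one_div_le_one_div_of_le (by norm_num) hx
    have h7 : 0 ≤ y * (η / 2 - ψ - 11 / 10 * (1 / x)) := by
      refine mul_nonneg hy ?_
      linarith
    have h8 : η ≤ y * ρ := by
      have e : y * ρ = y * (x + η / 2 + 11 / 10 * (1 / x)) +
        y * (η / 2 - ψ - 11 / 10 * (1 / x)) := by
        have : ρ = η - ψ + x := by linarith
        rw [this]
        ring
      linarith
    linarith
  refine ⟨by linarith, by linarith, hyd, ?_, ?_, ?_⟩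
  · refine OutLB.c4 G.x0 G.D2 hy (OutLB.quad hy hx hyu ?_ ?_)
    · intro h
      exact OutLB.yup2 G hη2 h (by norm_num) (by norm_num)
    · intro h
      exact OutLB.yup2 G hη2 h (by norm_num) (by norm_num)
  · exact OutLB.sqrt_ineq G.W0 G.W2 G.D2 hx hyu
  · exact OutLB.last G hη2 hρ hd71 hyd hx hyu

end SokalP2O
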