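import Pool.Agent.Lib_MP_af4de1_v3.P2OutC

/-!
# `P2.outL`, case C (`Γ ≥ 20`): the numbers (helper48)
-/

set_option autoImplicit false

namespace SokalP2O

open Real Set SokalF1G MeasureTheory SokalPG

/-- `x ≥ 33/20` -/
theorem olC_x {x y ρ η ψ W D : ℝ} (G : GeL x y ρ η ψ W D) (h1 : 18849 / 10000 < η)
    (h2 : η < 188496 / 100000) (hρ : 16 / 5 ≤ ρ) : 33 / 20 ≤ x := by
  by_contra hc
  push Not at hc
  have hx := G.x0
  obtain ⟨t, ht⟩ : ∃ t, t = y / x := ⟨_, rfl⟩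
  have hy : y = t * x := by rw [ht]; field_simp
  have t0 : 0 ≤ t := by rw [ht]; exact G.Y0
  have t1 : t ≤ 2 / 5 := by rw [ht]; exact G.Y1
  have hp := G.psi_ge
  rw [← ht] at hp
  have h3 := G.F3
  have e1 : y * (x + η / 2 + 11 / 10 * (1 / x)) = t * (x ^ 2 + η * x / 2 + 11 / 10) := by
    rw [hy]
    field_simp
  rw [e1] at h3
  have h4 : x ^ 2 + η * x / 2 + 11 / 10 ≤ 53776 / 10000 := by nlinarith only [hx, hc, h1, h2]
  have h5 : 3505 / 10000 ≤ t := by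
    by_contra h6
    push Not at h6
    have h7 : t * (x ^ 2 + η * x / 2 + 11 / 10) ≤ 3505 / 10000 * (53776 / 10000) :=
      mul_le_mul h6.le h4 (by positivity) (by norm_num)
    linarith
  have h6 : 3361 / 10000 ≤ t - t ^ 3 / 3 := by
    have h7 : 0 ≤ (t - 3505 / 10000) *
        (1 - (t ^ 2 + 3505 / 10000 * t + (3505 / 10000) ^ 2) / 3) := by
      refine mul_nonneg (by linarith) ?_
      nlinarith only [t0, t1]
    nlinarith only [h7]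
  have h8 := G.eta
  linarith

/-- `y d ≥ 381/100` -/
theorem olC_yd {x y ρ η ψ W D d : ℝ} (G : GeL x y ρ η ψ W D) (h1 : 18849 / 10000 < η)
    (h2 : η < 188496 / 100000) (hx1 : 33 / 20 ≤ x) (hρ : 16 / 5 ≤ ρ)
    (hd : 2026 / 1000 * (ρ + 1 / ρ) ≤ d) : 381 / 100 ≤ y * d := by
  have hx := G.x0
  have hy0 := G.y0
  have hy1 := G.y1
  have hψ := G.psi_le
  have hρ0 := G.r0
  have hE := G.eta
  have hψ0 := G.p0
  have k1 : ψ + 11 / 10 * (1 / x) ≤ η / 2 + 1 / ρ := by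
    rcases le_total x 2 with hc | hc
    · have k2 : 1 / x ≤ 20 / 33 := (one_div_le_one_div_of_le (by norm_num) hx1).trans (by norm_num)
      have k3 : y / x ≤ 37 / 100 := by rw [div_le_iff₀ hx]; linarith
      have k4 : 1 / 4 ≤ 1 / ρ := one_div_le_one_div_of_le hρ0 (by linarith)
      linarith
    · have k2 : 1 / x ≤ 1 / 2 := one_div_le_one_div_of_le (by norm_num) hc
      have k3 : y / x ≤ 61 / 200 := by rw [div_le_iff₀ hx]; linarith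
      have k4 : 0 < 1 / ρ := by positivity
      linarith
  have h3 := G.F3
  have h4 : η ≤ y * (ρ + 1 / ρ) := by
    have h5 := mul_nonneg hy0 (sub_nonneg.2 k1)
    have h6 : ρ = x + η - ψ := by linarith
    have h7 : y * (ρ + 1 / ρ) = y * (x + η - ψ) + y * (1 / ρ) := by rw [← h6]; ring
    rw [h7]
    nlinarith only [h5, h3]
  have h5 := mul_le_mul_of_nonneg_left hd hy0
  linarith

/-- the prefactor -/
theorem olC_M {x y D : ℝ} (hx : 33 / 20 ≤ x) (hy0 : 0 ≤ y) (hy1 : y ≤ 61 / 100) (hD : 0 < D)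
    (hD2 : D ^ 2 = (1 + y) ^ 2 + x ^ 2) :
    (1 + (1 / 3 * y) ^ 2) * D ≤ (126 / 100) ^ 2 *
      (2 * (11 / 24 * (1 - 1 / 3 * y) * x + (1 - 351 / 625 * (x * (1 / 3 * y))) * (1 / 3 * y))) := by
  obtain ⟨c, hc⟩ : ∃ c, c = 1 / 3 * y := ⟨_, rfl⟩
  obtain ⟨u, hu⟩ : ∃ u, u = x - 33 / 20 := ⟨_, rfl⟩
  have hy : y = 3 * c := by rw [hc]; ring
  have hx' : x = 33 / 20 + u := by rw [hu]; ring
  have c0 : 0 ≤ c := by rw [hc]; positivity
  have c1 : c ≤ 61 / 300 := by rw [hc]; linarith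
  have u0 : 0 ≤ u := by rw [hu]; linarith
  have c2 : c ^ 2 ≤ (61 / 300) ^ 2 := pow_le_pow_left₀ c0 c1 2
  have c3 : c ^ 3 ≤ (61 / 300) ^ 3 := pow_le_pow_left₀ c0 c1 3
  have c4 : c ^ 4 ≤ (61 / 300) ^ 4 := pow_le_pow_left₀ c0 c1 4
  have c5 : c ^ 5 ≤ (61 / 300) ^ 5 := pow_le_pow_left₀ c0 c1 5
  have c6 : c ^ 6 ≤ (61 / 300) ^ 6 := pow_le_pow_left₀ c0 c1 6
  have p3 : 0 ≤ c ^ 3 := by positivity
  have p4 : 0 ≤ c ^ 4 := by positivity
  rw [← hc]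
  obtain ⟨A, hA⟩ : ∃ A, A = 11 / 24 * (1 - c) - 351 / 625 * c ^ 2 := ⟨_, rfl⟩
  have hA0 : 0 ≤ A := by rw [hA]; nlinarith only [c0, c1, c2]
  have e1 : (126 / 100) ^ 2 *
      (2 * (11 / 24 * (1 - c) * x + (1 - 351 / 625 * (x * c)) * c)) =
      (126 / 100) ^ 2 * 2 * (A * x + c) := by rw [hA]; ring
  rw [e1]
  have hR : 0 ≤ (126 / 100) ^ 2 * 2 * (A * x + c) := by
    have : 0 ≤ x := by linarith
    positivity
  refine (sq_le_sq₀ (by positivity) hR).1 ?_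
  rw [mul_pow, hD2, hy, hx', hA]
  have q0 : 0 ≤ ((126 / 100) ^ 2 * 2) ^ 2 *
      ((11 / 24 * (1 - c) - 351 / 625 * c ^ 2) * (33 / 20) + c) ^ 2 -
      (1 + c ^ 2) ^ 2 * ((1 + 3 * c) ^ 2 + (33 / 20) ^ 2) := by
    nlinarith only [c0, c1, c2, c3, c4, c5, c6]
  have q1 : 0 ≤ 2 * ((126 / 100) ^ 2 * 2) ^ 2 * (11 / 24 * (1 - c) - 351 / 625 * c ^ 2) *
      ((11 / 24 * (1 - c) - 351 / 625 * c ^ 2) * (33 / 20) + c) - (33 / 10) * (1 + c ^ 2) ^ 2 := by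
    nlinarith only [c0, c1, c2, p3, p4]
  have q2 : 0 ≤ ((126 / 100) ^ 2 * 2) ^ 2 * (11 / 24 * (1 - c) - 351 / 625 * c ^ 2) ^ 2 -
      (1 + c ^ 2) ^ 2 := by
    nlinarith only [c0, c1, c2, p3, p4]
  have r1 := mul_nonneg q1 u0
  have r2 := mul_nonneg q2 (sq_nonneg u)
  have key : ((126 / 100) ^ 2 * 2 * ((11 / 24 * (1 - c) - 351 / 625 * c ^ 2) * (33 / 20 + u) + c)) ^ 2 -
      (1 + c ^ 2) ^ 2 * ((1 + 3 * c) ^ 2 + (33 / 20 + u) ^ 2) =
      (((126 / 100) ^ 2 * 2) ^ 2 *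
      ((11 / 24 * (1 - c) - 351 / 625 * c ^ 2) * (33 / 20) + c) ^ 2 -
      (1 + c ^ 2) ^ 2 * ((1 + 3 * c) ^ 2 + (33 / 20) ^ 2)) +
      (2 * ((126 / 100) ^ 2 * 2) ^ 2 * (11 / 24 * (1 - c) - 351 / 625 * c ^ 2) *
      ((11 / 24 * (1 - c) - 351 / 625 * c ^ 2) * (33 / 20) + c) - (33 / 10) * (1 + c ^ 2) ^ 2) * u +
      (((126 / 100) ^ 2 * 2) ^ 2 * (11 / 24 * (1 - c) - 351 / 625 * c ^ 2) ^ 2 -
      (1 + c ^ 2) ^ 2) * u ^ 2 := by ring
  linarith only [key, q0, r1, r2]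

/-- the tail constant -/
theorem olC_W {x y W D : ℝ} (hx : 33 / 20 ≤ x) (hy0 : 0 ≤ y) (hy1 : y ≤ 61 / 100) (hD : 0 < D)
    (hW : 0 < W) (hD2 : D ^ 2 = (1 + y) ^ 2 + x ^ 2) (hW2 : W ^ 2 = x ^ 2 + y ^ 2) :
    1001 / 1000 * √(12 / 11 * (D / W)) ≤ 121 / 100 := by
  have h1 : D ≤ 1339 / 1000 * W := by
    refine (sq_le_sq₀ hD.le (by positivity)).1 ?_
    rw [mul_pow, hD2, hW2]
    nlinarith only [hx, hy0, hy1]
  have h2 : D / W ≤ 1339 / 1000 := by rwa [div_le_iff₀ hW]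
  have h3 : √(12 / 11 * (D / W)) ≤ 12087 / 10000 := by
    rw [Real.sqrt_le_left (by norm_num)]
    linarith
  linarith

/-- the exponent on the flat part -/
theorem olC_X {x y ρ η ψ W D d : ℝ} (G : GeL x y ρ η ψ W D)
    (h2 : η < 188496 / 100000) (hρ : 16 / 5 ≤ ρ) (hd0 : 0 < d) (hyd : 381 / 100 ≤ y * d) :
    (y + 7 / 12 * y) / 2 - d * ((7 / 12 * y) * π - ρ * (exp (7 / 12 * y) - 1 - 7 / 12 * y) -
      (ρ - x * (1 + y))) + 6 * (7 / 12 * y * d) ^ 2 / (11 * (ρ * exp (7 / 12 * y) * d)) ≤ -(3 / 5) := by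
  have hx := G.x0
  have hy0 := G.y0
  have hy1 := G.y1
  have hρ0 := G.r0
  have hpi := Real.pi_gt_d4
  obtain ⟨t, ht⟩ : ∃ t, t = y / x := ⟨_, rfl⟩
  have t0 : 0 ≤ t := by rw [ht]; exact G.Y0
  have t1 : t ≤ 2 / 5 := by rw [ht]; exact G.Y1
  have hF1 := G.F1 (by linarith)
  have hF2 := G.F2
  rw [← ht] at hF2
  obtain ⟨b, hb⟩ : ∃ b, b = 7 / 12 * y := ⟨_, rfl⟩
  rw [← hb]
  have b0 : 0 ≤ b := by rw [hb]; positivity
  have b1 : b ≤ 356 / 1000 := by rw [hb]; linarith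
  obtain ⟨E, hE⟩ : ∃ E, E = exp b := ⟨_, rfl⟩
  rw [← hE]
  have E1 : 1 ≤ E := by rw [hE]; exact Real.one_le_exp b0
  have E2 : E - 1 - b ≤ 566 / 1000 * b ^ 2 := by
    have h := Real.exp_bound' b0 (by linarith) (n := 4) (by norm_num)
    simp only [Finset.sum_range_succ, Finset.sum_range_zero, Nat.factorial] at h
    norm_num at h
    rw [← hE] at h
    have h3 : b ^ 3 ≤ 356 / 1000 * b ^ 2 := by nlinarith only [b0, b1, sq_nonneg b]
    have h4 : b ^ 4 ≤ (356 / 1000) ^ 2 * b ^ 2 := by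
      have : b ^ 4 = b ^ 2 * b ^ 2 := by ring
      rw [this]
      refine mul_le_mul_of_nonneg_right (pow_le_pow_left₀ b0 b1 2) (sq_nonneg b)
    nlinarith only [h, h3, h4, sq_nonneg b]
  -- the last term
  have l1 : 6 * (b * d) ^ 2 / (11 * (ρ * E * d)) ≤ 36 / 1000 * (y * d) := by
    rw [div_le_iff₀ (by positivity)]
    have e1 : 6 * (b * d) ^ 2 = 6 * (7 / 12) ^ 2 * y * (y * d) * d := by rw [hb]; ring
    have e2 : 36 / 1000 * (y * d) * (11 * (ρ * E * d)) = 396 / 1000 * (ρ * E) * (y * d) * d := by ring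
    rw [e1, e2]
    have k1 : 6 * (7 / 12) ^ 2 * y ≤ 396 / 1000 * (ρ * E) := by nlinarith only [E1, hρ, hy1]
    have k2 : 0 ≤ y * d := by linarith
    gcongr
  -- the exponential term
  have l2 : d * (ρ * (E - 1 - b)) ≤ 475 / 1000 * (y * d) := by
    have k1 : ρ * (E - 1 - b) ≤ ρ * (566 / 1000 * b ^ 2) := mul_le_mul_of_nonneg_left E2 hρ0.le
    have k2 : y * ρ ≤ 24599 / 10000 := by nlinarith only [hF1, hy0, hy1, h2]
    have k3 : ρ * (566 / 1000 * b ^ 2) = 566 / 1000 * (7 / 12) ^ 2 * (y * ρ) * y := by rw [hb]; ring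
    have k4 : 566 / 1000 * (7 / 12) ^ 2 * (y * ρ) * y ≤ 475 / 1000 * y := by
      refine mul_le_mul_of_nonneg_right ?_ hy0
      linarith
    have k5 := mul_le_mul_of_nonneg_left (k1.trans (k3.le.trans k4)) hd0.le
    linarith
  -- the term `ρ - x (1 + y)`
  have l3 : d * (ρ - x * (1 + y)) ≤ 10142 / 10000 * (y * d) := by
    have k1 : y / 2 + t ^ 2 / 3 ≤ 3584 / 10000 := by nlinarith only [hy1, t0, t1]
    have k2 : y * t / 2 * (y / 2 + t ^ 2 / 3) ≤ y * (2 / 5) / 2 * (3584 / 10000) := by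
      refine mul_le_mul ?_ k1 (by positivity) (by positivity)
      have := mul_le_mul_of_nonneg_left t1 hy0
      linarith
    have k3 : y * η ≤ y * (188496 / 100000) := mul_le_mul_of_nonneg_left h2.le hy0
    have k4 : ρ - x * (1 + y) ≤ 10142 / 10000 * y := by nlinarith only [hF2, k2, k3, hy0]
    have k5 := mul_le_mul_of_nonneg_left k4 hd0.le
    linarith
  have l4 : 18325 / 10000 * (y * d) ≤ d * (b * π) := by
    have k1 : 18325 / 10000 * y ≤ b * π := by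
      rw [hb]
      nlinarith only [hpi, hy0]
    have k5 := mul_le_mul_of_nonneg_left k1 hd0.le
    linarith
  have e3 : d * (b * π - ρ * (E - 1 - b) - (ρ - x * (1 + y))) =
      d * (b * π) - d * (ρ * (E - 1 - b)) - d * (ρ - x * (1 + y)) := by ring
  rw [e3]
  have e4 : (y + b) / 2 ≤ 484 / 1000 := by rw [hb]; linarith
  linarith

/-- **Numbers of case C.** -/
theorem outL_numC {x y ρ η ψ W D d : ℝ} (G : GeL x y ρ η ψ W D) (hη : η = 60 / 100 * π)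
    (hρ : 16 / 5 ≤ ρ) (hrd : 499 / 10 ≤ ρ * d) (hd : 2026 / 1000 * (ρ + 1 / ρ) ≤ d) :
    8 / 5 ≤ x ∧ 381 / 100 ≤ y * d ∧
    (1 + (1 / 3 * y) ^ 2) * D ≤ (126 / 100) ^ 2 *
      (2 * (11 / 24 * (1 - 1 / 3 * y) * x + (1 - 351 / 625 * (x * (1 / 3 * y))) * (1 / 3 * y))) ∧
    1001 / 1000 * √(12 / 11 * (D / W)) ≤ 121 / 100 ∧
    (y + 7 / 12 * y) / 2 - d * ((7 / 12 * y) * π - ρ * (exp (7 / 12 * y) - 1 - 7 / 12 * y) -
      (ρ - x * (1 + y))) + 6 * (7 / 12 * y * d) ^ 2 / (11 * (ρ * exp (7 / 12 * y) * d)) ≤ -(3 / 5) := by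
  have hpi := Real.pi_gt_d4
  have hpi2 := Real.pi_lt_d4
  have h1 : 18849 / 10000 < η := by rw [hη]; linarith
  have h2 : η < 188496 / 100000 := by
    rw [hη]
    norm_num at hpi2 ⊢
    linarith
  have hx := olC_x G h1 h2 hρ
  have hyd := olC_yd G h1 h2 hx hρ hd
  have hd0 : 0 < d := by
    have := G.r0
    refine lt_of_lt_of_le ?_ hd
    positivity
  exact ⟨by linarith, hyd, olC_M hx G.y0 G.y1 G.D0 G.D2, olC_W hx G.y0 G.y1 G.D0 G.W0 G.D2 G.W2,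
    olC_X G h2 hρ hd0 hyd⟩

end SokalP2O
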