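import Pool.Agent.Lib_MP_af4de1_f1.MonA
import Pool.Agent.Lib_MP_af4de1_v3.V3

/-!
# The wave at the angle `sE (r δ) y + ζ` on the fixed path of the saddle point `y`

The path does not depend on `ζ`; the absolute integral `mF` is a convex function of `ζ`.
-/

set_option autoImplicit false

open Complex MeasureTheory Filter Topology SokalU SokalPG SokalF1 SokalF1S SokalF1M

namespace SokalV3F

/-- the height on the fixed path -/
noncomputable def Hz (x y ζ a s : ℝ) : ℝ := SokalF1G.Ha x y a s + (y - a) * ζ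

/-- The absolute integral on the fixed path with weight `e^(j a)`. -/
noncomputable def mF (c s1 r δ y ζ : ℝ) (j : ℕ) : ℝ :=
  ∫ s : ℝ, ‖pv c s1 s‖ * (Real.exp (j * pc c s1 s) *
    Real.exp (-(Hz (sx (r * δ) y) y ζ (pc c s1 s) s / δ)))

/-- modulus of the integrand for the base point `(K - ζ)/δ` -/
theorem norm_fix {δ : ℝ} (hδ : 0 < δ) (x y ζ a s : ℝ) (hK : (x : ℂ) - ζ + y * I ≠ 0)
    (hK0 : (x : ℂ) + y * I ≠ 0) :
    ‖cexp (S (-((δ : ℂ) * I)) (((x : ℂ) - ζ + y * I) / δ))‖ *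
      ‖f (-((δ : ℂ) * I)) (((x : ℂ) - ζ + y * I) / δ)
        (Complex.log (((x : ℂ) + y * I) / ((x : ℂ) - ζ + y * I))) (a + s * I)‖ =
      Real.exp (x * (1 + y) / δ) * Real.exp (-(Hz x y ζ a s / δ)) := by
  have hd : (δ : ℂ) ≠ 0 := by exact_mod_cast hδ.ne'
  unfold f S
  rw [Complex.norm_exp, Complex.norm_exp, ← Real.exp_add, ← Real.exp_add]
  congr 1
  rw [Complex.exp_add, Complex.exp_log (div_ne_zero hK0 hK)]
  have e1 : ((a : ℂ) + s * I) ^ 2 / (2 * -((δ : ℂ) * I)) =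
      ((-(a * s / δ) : ℝ) : ℂ) + (((a ^ 2 - s ^ 2) / (2 * δ) : ℝ) : ℂ) * I := by
    push_cast
    field_simp
    ring_nf
    rw [Complex.I_sq]
    ring
  have e2 : cexp (a + s * I) =
      ((Real.exp a * Real.cos s : ℝ) : ℂ) + ((Real.exp a * Real.sin s : ℝ) : ℂ) * I := by
    rw [Complex.exp_add, Complex.exp_mul_I, ← Complex.ofReal_exp, ← Complex.ofReal_cos,
      ← Complex.ofReal_sin]
    push_cast
    ring
  have e3 : ((x : ℂ) - ζ + y * I) / δ * (((x : ℂ) + y * I) / ((x : ℂ) - ζ + y * I) *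
      cexp (a + s * I) - 1 - (a + s * I)) = ((1 / δ : ℝ) : ℂ) *
      (((x : ℂ) + y * I) * cexp (a + s * I) - ((x : ℂ) - ζ + y * I) * (1 + (a + s * I))) := by
    push_cast
    field_simp
    ring
  have e4 : ((x : ℂ) - ζ + y * I) / δ + -((δ : ℂ) * I) * (((x : ℂ) - ζ + y * I) / δ) ^ 2 / 2 =
      ((1 / δ : ℝ) : ℂ) * (((x : ℂ) - ζ + y * I) - I * ((x : ℂ) - ζ + y * I) ^ 2 / 2) := by
    push_cast
    field_simp
    ring
  have e5 : (((x : ℂ) - ζ + y * I) - I * ((x : ℂ) - ζ + y * I) ^ 2 / 2) =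
      (((x - ζ) + (x - ζ) * y : ℝ) : ℂ) + ((y - ((x - ζ) ^ 2 - y ^ 2) / 2 : ℝ) : ℂ) * I := by
    push_cast
    ring_nf
    rw [show (I : ℂ) ^ 3 = -I by rw [pow_succ, Complex.I_sq]; ring, Complex.I_sq]
    ring
  rw [e1, e3, e2, e4, e5]
  unfold Hz SokalF1G.Ha
  simp only [Complex.add_re, Complex.mul_re, Complex.sub_re, Complex.add_im, Complex.mul_im,
    Complex.sub_im, Complex.ofReal_re, Complex.ofReal_im, Complex.I_re, Complex.I_im,
    Complex.one_re, Complex.one_im]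
  ring

theorem norm_gi_fix {c s1 δ : ℝ} (hδ : 0 < δ) (x y ζ : ℝ) (hK : (x : ℂ) - ζ + y * I ≠ 0)
    (hK0 : (x : ℂ) + y * I ≠ 0) (j : ℕ) (s : ℝ) :
    ‖cexp (S (-((δ : ℂ) * I)) (((x : ℂ) - ζ + y * I) / δ))‖ *
      ‖gi c s1 (fun h => (((x : ℂ) - ζ + y * I) / δ *
        cexp (Complex.log (((x : ℂ) + y * I) / ((x : ℂ) - ζ + y * I)) + h)) ^ j)
        (((x : ℂ) - ζ + y * I) / δ)
        (Complex.log (((x : ℂ) + y * I) / ((x : ℂ) - ζ + y * I))) (-((δ : ℂ) * I)) s‖ =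
      Real.exp (x * (1 + y) / δ) * ‖((x : ℂ) + y * I) / δ‖ ^ j * (‖pv c s1 s‖ *
        (Real.exp (j * pc c s1 s) * Real.exp (-(Hz x y ζ (pc c s1 s) s / δ)))) := by
  have hd : (δ : ℂ) ≠ 0 := by exact_mod_cast hδ.ne'
  have h1 := norm_fix hδ x y ζ (pc c s1 s) s hK hK0
  have h2 : ((x : ℂ) - ζ + y * I) / δ *
      cexp (Complex.log (((x : ℂ) + y * I) / ((x : ℂ) - ζ + y * I)) + pz c s1 s) =
      ((x : ℂ) + y * I) / δ * cexp (pz c s1 s) := by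
    rw [Complex.exp_add, Complex.exp_log (div_ne_zero hK0 hK)]
    field_simp
  have h3 : ‖cexp (pz c s1 s)‖ = Real.exp (pc c s1 s) := by
    rw [Complex.norm_exp, pz_re]
  unfold gi
  beta_reduce
  rw [norm_mul, norm_mul, h2, norm_pow, norm_mul, h3, mul_pow, ← Real.exp_nat_mul]
  have h4 : pz c s1 s = (pc c s1 s : ℂ) + s * I := rfl
  rw [h4]
  calc _ = (‖cexp (S (-((δ : ℂ) * I)) (((x : ℂ) - ζ + y * I) / δ))‖ *
      ‖f (-((δ : ℂ) * I)) (((x : ℂ) - ζ + y * I) / δ)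
        (Complex.log (((x : ℂ) + y * I) / ((x : ℂ) - ζ + y * I))) (pc c s1 s + s * I)‖) *
        (‖pv c s1 s‖ * (‖((x : ℂ) + y * I) / δ‖ ^ j * Real.exp (j * pc c s1 s))) := by ring
    _ = _ := by rw [h1]; ring

theorem im_base {x y ζ δ a : ℝ} (hδ : 0 < δ) (hk : |y| < a) :
    |(((x : ℂ) - ζ + y * I) / δ).im| < a / δ := by
  have e : ((x : ℂ) - ζ + y * I) / δ = ((1 / δ : ℝ) : ℂ) * ((x : ℂ) - ζ + y * I) := by
    push_cast; ring
  have e2 : ((x : ℂ) - ζ + y * I).im = y := by simp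
  rw [e, Complex.im_ofReal_mul, e2, abs_mul, abs_of_pos (by positivity : 0 < 1 / δ), one_div,
    inv_mul_eq_div]
  gcongr

theorem base_ne {x y ζ : ℝ} (hy : y ≠ 0) : (x : ℂ) - ζ + y * I ≠ 0 := by
  intro h
  have := congrArg Complex.im h
  simp at this
  exact hy this

theorem integrable_mF' {x δ y c s1 : ℝ} (hc : 0 < c) (hs : 0 < s1) (hcs : c * s1 ≤ 1)
    (hδ : 0 < δ) (hk : |y| < c * s1) (hy : y ≠ 0) (ζ : ℝ) (j : ℕ) :
    Integrable fun s : ℝ => ‖pv c s1 s‖ * (Real.exp (j * pc c s1 s) *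
      Real.exp (-(Hz x y ζ (pc c s1 s) s / δ))) := by
  have hK := base_ne (x := x) (ζ := ζ) hy
  have hK0 : (x : ℂ) + y * I ≠ 0 := by
    have := base_ne (x := x) (ζ := 0) hy
    simpa using this
  have hd : (δ : ℂ) ≠ 0 := by exact_mod_cast hδ.ne'
  have h1 := ((integrable_path hc hs hcs hδ (((x : ℂ) - ζ + y * I) / δ)
    (Complex.log (((x : ℂ) + y * I) / ((x : ℂ) - ζ + y * I))) (im_base hδ hk)
    (Wt_pow (((x : ℂ) - ζ + y * I) / δ)
      (Complex.log (((x : ℂ) + y * I) / ((x : ℂ) - ζ + y * I))) j)).norm).const_mul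
      (‖cexp (S (-((δ : ℂ) * I)) (((x : ℂ) - ζ + y * I) / δ))‖)
  have hn : 0 < Real.exp (x * (1 + y) / δ) * ‖((x : ℂ) + y * I) / δ‖ ^ j := by
    have : 0 < ‖((x : ℂ) + y * I) / δ‖ := norm_pos_iff.2 (div_ne_zero hK0 hd)
    positivity
  have h2 := h1.const_mul (Real.exp (x * (1 + y) / δ) * ‖((x : ℂ) + y * I) / δ‖ ^ j)⁻¹
  refine h2.congr (Eventually.of_forall fun s => ?_)
  simp only
  rw [norm_gi_fix hδ x y ζ hK hK0]
  field_simp

theorem integrable_mF {r δ y c s1 : ℝ} (hc : 0 < c) (hs : 0 < s1) (hcs : c * s1 ≤ 1)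
    (hδ : 0 < δ) (hk : |y| < c * s1) (hy : y ≠ 0) (ζ : ℝ) (j : ℕ) :
    Integrable fun s : ℝ => ‖pv c s1 s‖ * (Real.exp (j * pc c s1 s) *
      Real.exp (-(Hz (sx (r * δ) y) y ζ (pc c s1 s) s / δ))) :=
  integrable_mF' hc hs hcs hδ hk hy ζ j

theorem Ef_fix_le {r δ y c s1 : ℝ} (hc : 0 < c) (hs : 0 < s1) (hcs : c * s1 ≤ 1)
    (hδ : 0 < δ) (hD : Dom (r * δ) y) (hy : -1 < y) (hk : |y| < c * s1) (hy0 : y ≠ 0) (ζ : ℝ)
    (j : ℕ) :
    ‖Ef j (tt δ) (wp r δ (sE (r * δ) y + ζ))‖ ≤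
      ‖sK (r * δ) y / δ‖ ^ j * sM r δ y * (mF c s1 r δ y ζ j / sG r δ y) := by
  set x := sx (r * δ) y with hx
  have hK := base_ne (x := x) (ζ := ζ) hy0
  have hK0 : (x : ℂ) + y * I ≠ 0 := by
    have := base_ne (x := x) (ζ := 0) hy0
    simpa using this
  have hd : (δ : ℂ) ≠ 0 := by exact_mod_cast hδ.ne'
  have h0 : zp (-((δ : ℂ) * I)) (((x : ℂ) - ζ + y * I) / δ) *
      cexp (Complex.log (((x : ℂ) + y * I) / ((x : ℂ) - ζ + y * I))) =
      wp r δ (sE (r * δ) y + ζ) := by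
    rw [wp_add hδ hD, Complex.exp_log (div_ne_zero hK0 hK)]
    unfold zp
    have e1 : cexp (-((δ : ℂ) * I) * (((x : ℂ) - ζ + y * I) / δ) - -((δ : ℂ) * I) / 2) =
        cexp (-((δ : ℂ) * I) * (sK (r * δ) y / δ) - -((δ : ℂ) * I) / 2) * cexp (ζ * I) := by
      rw [← Complex.exp_add]
      congr 1
      unfold sK
      rw [← hx]
      field_simp
      ring
    rw [e1]
    unfold sK
    rw [← hx]
    field_simp
  have h1 := congrArg norm (path_formula hc hs hcs hδ (((x : ℂ) - ζ + y * I) / δ)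
    (Complex.log (((x : ℂ) + y * I) / ((x : ℂ) - ζ + y * I))) (im_base hδ hk) j)
  rw [h0, norm_mul, norm_mul, norm_gcst hδ] at h1
  have h2 : 0 < √(2 * Real.pi * δ) := Real.sqrt_pos.2 (by have := Real.pi_pos; positivity)
  have h3 := sM_sG (r := r) hδ hy
  have h4 : ‖cexp (S (-((δ : ℂ) * I)) (((x : ℂ) - ζ + y * I) / δ))‖ *
      ‖∫ s : ℝ, gi c s1 (fun h => (((x : ℂ) - ζ + y * I) / δ *
        cexp (Complex.log (((x : ℂ) + y * I) / ((x : ℂ) - ζ + y * I)) + h)) ^ j)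
        (((x : ℂ) - ζ + y * I) / δ)
        (Complex.log (((x : ℂ) + y * I) / ((x : ℂ) - ζ + y * I))) (-((δ : ℂ) * I)) s‖ ≤
      Real.exp (x * (1 + y) / δ) * ‖((x : ℂ) + y * I) / δ‖ ^ j * mF c s1 r δ y ζ j := by
    refine (mul_le_mul_of_nonneg_left (norm_integral_le_integral_norm _) (norm_nonneg _)).trans
      (le_of_eq ?_)
    unfold mF
    rw [← integral_const_mul, ← integral_const_mul]
    refine integral_congr_ae (Eventually.of_forall fun s => ?_)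
    exact norm_gi_fix hδ x y ζ hK hK0 j s
  have h5 : ‖Ef j (tt δ) (wp r δ (sE (r * δ) y + ζ))‖ * √(2 * Real.pi * δ) ≤
      Real.exp (x * (1 + y) / δ) * ‖((x : ℂ) + y * I) / δ‖ ^ j * mF c s1 r δ y ζ j := by
    refine le_trans (le_of_eq ?_) h4
    rw [← h1, mul_comm]
    rfl
  have h6 : Real.exp (x * (1 + y) / δ) = sM r δ y / sG r δ y * √(2 * Real.pi * δ) := by
    rw [← h3, hx]
    field_simp
  rw [h6] at h5
  have h7 : ‖Ef j (tt δ) (wp r δ (sE (r * δ) y + ζ))‖ * √(2 * Real.pi * δ) ≤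
      (‖((x : ℂ) + y * I) / δ‖ ^ j * sM r δ y * (mF c s1 r δ y ζ j / sG r δ y)) *
        √(2 * Real.pi * δ) := by
    refine h5.trans (le_of_eq ?_)
    ring
  exact le_of_mul_le_mul_right h7 h2

/-- Convexity in `ζ`. -/
theorem mF_convex {r δ y c s1 Z ζ θ : ℝ} (hc : 0 < c) (hs : 0 < s1) (hcs : c * s1 ≤ 1)
    (hδ : 0 < δ) (hk : |y| < c * s1) (hy : y ≠ 0) (h0 : 0 ≤ θ) (h1 : θ ≤ 1) (hζ : ζ = θ * Z)
    (j : ℕ) : mF c s1 r δ y ζ j ≤ (1 - θ) * mF c s1 r δ y 0 j + θ * mF c s1 r δ y Z j := by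
  unfold mF
  rw [← integral_const_mul, ← integral_const_mul, ← integral_add
    ((integrable_mF hc hs hcs hδ hk hy 0 j).const_mul _)
    ((integrable_mF hc hs hcs hδ hk hy Z j).const_mul _)]
  refine integral_mono (integrable_mF hc hs hcs hδ hk hy ζ j)
    (((integrable_mF hc hs hcs hδ hk hy 0 j).const_mul _).add
    ((integrable_mF hc hs hcs hδ hk hy Z j).const_mul _)) fun s => ?_
  simp only
  set a := pc c s1 s
  set x := sx (r * δ) y
  have e1 : -(Hz x y ζ a s / δ) = (1 - θ) * (-(Hz x y 0 a s / δ)) + θ * (-(Hz x y Z a s / δ)) := by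
    rw [hζ]
    unfold Hz
    field_simp
    ring
  have h2 : Real.exp (-(Hz x y ζ a s / δ)) ≤ (1 - θ) * Real.exp (-(Hz x y 0 a s / δ)) +
      θ * Real.exp (-(Hz x y Z a s / δ)) := by
    rw [e1]
    have := convexOn_exp.2 (Set.mem_univ (-(Hz x y 0 a s / δ)))
      (Set.mem_univ (-(Hz x y Z a s / δ))) (sub_nonneg.2 h1) h0 (by ring)
    simpa using this
  have h3 : 0 ≤ ‖pv c s1 s‖ * Real.exp (j * a) := by positivity
  calc ‖pv c s1 s‖ * (Real.exp (j * a) * Real.exp (-(Hz x y ζ a s / δ))) =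
        ‖pv c s1 s‖ * Real.exp (j * a) * Real.exp (-(Hz x y ζ a s / δ)) := by ring
    _ ≤ ‖pv c s1 s‖ * Real.exp (j * a) * ((1 - θ) * Real.exp (-(Hz x y 0 a s / δ)) +
      θ * Real.exp (-(Hz x y Z a s / δ))) := mul_le_mul_of_nonneg_left h2 h3
    _ = _ := by ring

/-- Only the two ends matter. -/
theorem mF_le_max {r δ y c s1 Z ζ C : ℝ} (hc : 0 < c) (hs : 0 < s1) (hcs : c * s1 ≤ 1)
    (hδ : 0 < δ) (hk : |y| < c * s1) (hy : y ≠ 0) (hζ : 0 ≤ ζ * Z) (hζ2 : |ζ| ≤ |Z|)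
    {j : ℕ} (h0 : mF c s1 r δ y 0 j ≤ C) (hZ : mF c s1 r δ y Z j ≤ C) :
    mF c s1 r δ y ζ j ≤ C := by
  rcases eq_or_ne Z 0 with rfl | hZ0
  · have : ζ = 0 := by simpa using hζ2
    rwa [this]
  have hZp : 0 < Z ^ 2 := by positivity
  have hθ : ζ = (ζ * Z / Z ^ 2) * Z := by field_simp
  have h1 : ζ * Z / Z ^ 2 ≤ 1 := by
    rw [div_le_one hZp]
    calc ζ * Z ≤ |ζ| * |Z| := by rw [← abs_mul]; exact le_abs_self _
      _ ≤ |Z| * |Z| := by gcongr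
      _ = Z ^ 2 := by rw [← abs_mul, ← sq, abs_of_pos hZp]
  have h2 : 0 ≤ ζ * Z / Z ^ 2 := by positivity
  refine (mF_convex hc hs hcs hδ hk hy h2 h1 hθ j).trans ?_
  have := mul_le_mul_of_nonneg_left h0 (sub_nonneg.2 h1)
  have := mul_le_mul_of_nonneg_left hZ h2
  linarith

/-- `Out` from two bounds. -/
theorem out_of {r δ y ζ C : ℝ} (h0 : ‖Ef 0 (tt δ) (wp r δ (sE (r * δ) y + ζ))‖ ≤ C * sM r δ y)
    (h1 : ‖Ef 1 (tt δ) (wp r δ (sE (r * δ) y + ζ))‖ ≤ C * ‖sK (r * δ) y / δ‖ * sM r δ y) :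
    SokalV3.Out r δ y ζ C := by
  intro m hm
  unfold SokalV3.V0 SokalV3.V1 SokalV3.kap
  rw [SokalF1M.Ef_zero] at h0
  rw [SokalF1M.Ef_one] at h1
  refine (norm_add_le _ _).trans ?_
  rw [norm_mul, Complex.norm_real, Real.norm_of_nonneg hm]
  have := mul_le_mul_of_nonneg_left h0 hm
  linarith

/-- `Out` from the two absolute integrals at the two ends. -/
theorem out_of_mF {r δ y c s1 Z ζ C : ℝ} (hc : 0 < c) (hs : 0 < s1) (hcs : c * s1 ≤ 1)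
    (hδ : 0 < δ) (hD : Dom (r * δ) y) (hy : -1 < y) (hk : |y| < c * s1) (hy0 : y ≠ 0)
    (hζ : 0 ≤ ζ * Z) (hζ2 : |ζ| ≤ |Z|)
    (h00 : mF c s1 r δ y 0 0 ≤ C * sG r δ y) (h0Z : mF c s1 r δ y Z 0 ≤ C * sG r δ y)
    (h10 : mF c s1 r δ y 0 1 ≤ C * sG r δ y) (h1Z : mF c s1 r δ y Z 1 ≤ C * sG r δ y) :
    SokalV3.Out r δ y ζ C := by
  have hG := sG_pos (r := r) hδ hy
  have hM := sM_pos (r := r) (δ := δ) hy
  have a0 := mF_le_max hc hs hcs hδ hk hy0 hζ hζ2 h00 h0Z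
  have a1 := mF_le_max hc hs hcs hδ hk hy0 hζ hζ2 h10 h1Z
  have b0 : mF c s1 r δ y ζ 0 / sG r δ y ≤ C := by rwa [div_le_iff₀ hG]
  have b1 : mF c s1 r δ y ζ 1 / sG r δ y ≤ C := by rwa [div_le_iff₀ hG]
  refine out_of ?_ ?_
  · refine (Ef_fix_le hc hs hcs hδ hD hy hk hy0 ζ 0).trans ?_
    rw [pow_zero, one_mul, mul_comm C]
    exact mul_le_mul_of_nonneg_left b0 hM.le
  · refine (Ef_fix_le hc hs hcs hδ hD hy hk hy0 ζ 1).trans ?_
    rw [pow_one]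
    have : 0 ≤ ‖sK (r * δ) y / δ‖ * sM r δ y := by positivity
    have := mul_le_mul_of_nonneg_left b1 this
    linarith

end SokalV3F
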