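import Pool.Agent.Lib_MP_af4de1_v3.OwnGlue
import Pool.Agent.Lib_MP_af4de1_f1.MainS4

/-!
# PIECE MAIN (regime I) from the tails
-/

set_option autoImplicit false

open Complex MeasureTheory Set SokalU SokalPG SokalF1 SokalF1S SokalF1M SokalF1G SokalF1B

namespace SokalV3

theorem rd_eq {r δ y : ℝ} (hD : Dom (r * δ) y) :
    r * δ = √(sx (r * δ) y ^ 2 + y ^ 2) * Real.exp y := by
  have h1 := norm_sK hD
  have h2 : ‖sK (r * δ) y‖ = √(sx (r * δ) y ^ 2 + y ^ 2) := norm_K _ _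
  rw [← h2, h1, mul_assoc, ← Real.exp_add]
  simp

theorem dom_zero_own {ρ : ℝ} (h : 0 < ρ) : Dom ρ 0 := ⟨h, by simpa using h.le⟩

theorem At.y_nonneg_own {r δ y η : ℝ} (h : At r δ y η) (hη : 0 ≤ η) : 0 ≤ y := by
  by_contra hy
  push Not at hy
  have h1 := sE_strictMonoOn h.dom (dom_zero_own h.dom.1) h.y1.le ⟨le_rfl, hy.le⟩ ⟨hy.le, le_rfl⟩ hy
  rw [sE_zero h.dom.1, h.eta] at h1
  linarith

theorem At.y_nonpos_own {r δ y η : ℝ} (h : At r δ y η) (hη : η ≤ 0) : y ≤ 0 := by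
  by_contra hy
  push Not at hy
  have h1 := sE_strictMonoOn (dom_zero_own h.dom.1) h.dom (by norm_num) ⟨le_rfl, hy.le⟩
    ⟨hy.le, le_rfl⟩ hy
  rw [sE_zero h.dom.1, h.eta] at h1
  linarith

/-- The tails of regime I. -/
def PTail1 : Prop := ∀ (N : ℕ) (r δ y η : ℝ), Reg1 N r δ → At r δ y η → Sad1 N r δ y →
  |η| ≤ eo1 N r δ →
  Tl r δ y (fun _ => 1) ≤ 1 / 500 * sG r δ y ∧
  ‖kap r δ y‖ / sD (r * δ) y * Tl r δ y gs ≤ 3 / 2 * (HH N r δ / 1000) * sG r δ y ∧
  ‖kap r δ y‖ / sD (r * δ) y * Tl r δ y (fun σ => σ * gs σ) ≤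
    HH N r δ ^ 2 / 250 * (δ * sG r δ y)

theorem hst_pos_own {N : ℕ} (hN : 2 ≤ N) : 0 < hst N := by
  unfold hst
  have := Real.pi_pos
  have : (0 : ℝ) < N := by exact_mod_cast (by omega : 0 < N)
  positivity

theorem HH_nonneg_own {N : ℕ} {r δ : ℝ} (h : Par N r δ) : 0 ≤ HH N r δ := by
  have h1 := h.r0
  have h2 := hst_pos_own h.N2
  have h3 : 0 < RR r δ := by unfold RR; positivity
  unfold HH
  have : 0 ≤ r := by linarith
  positivity

/-- `POwn1` with the constants `HH/500`, `HH^2/200`. -/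
theorem own1_of_own (hL : ∀ (N : ℕ) (r δ y η : ℝ), Reg1 N r δ → At r δ y η → Sad1 N r δ y →
      0 ≤ η → η ≤ eo1 N r δ →
      Own r δ y (2 / 25) (7 / 8 * kD r δ y + HH N r δ / 500)
        (5 / 4 * (‖kap r δ y‖ / sD (r * δ) y) + HH N r δ ^ 2 / 200))
    (hR : ∀ (N : ℕ) (r δ y η : ℝ), Reg1 N r δ → At r δ y η → Sad1 N r δ y →
      η ≤ 0 → -eo1 N r δ ≤ η →
      Own r δ y (3 / 25) (13 / 10 * kD r δ y + HH N r δ / 500)
        (8 / 5 * (‖kap r δ y‖ / sD (r * δ) y) + HH N r δ ^ 2 / 200)) : POwn1 := by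
  constructor
  · intro N r δ y η h1 hA h3 h4 h5
    have hH := HH_nonneg_own h1.toPar
    have hH2 : 0 ≤ HH N r δ ^ 2 := sq_nonneg _
    exact (hL N r δ y η h1 hA h3 h4 h5).mono hA.y1 le_rfl (by linarith) (by linarith)
  · intro N r δ y η h1 hA h3 h4 h5
    have hH := HH_nonneg_own h1.toPar
    have hH2 : 0 ≤ HH N r δ ^ 2 := sq_nonneg _
    exact (hR N r δ y η h1 hA h3 h4 h5).mono hA.y1 le_rfl (by linarith) (by linarith)

/-- PIECE MAIN (regime I) from the tails. -/
theorem own1_of_tails (hT : PTail1) : POwn1 := by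
  refine own1_of_own ?_ ?_
  · intro N r δ y η hR hA hS h0 h1
    obtain ⟨t0, t1, t2⟩ := hT N r δ y η hR hA hS (abs_le.2 ⟨by linarith, h1⟩)
    have hy := hA.y_nonneg_own h0
    have hδ := hR.d0
    have hG := sG_pos (r := r) hδ hA.y1
    have hy1 : y ≤ 18 / 25 := by
      rcases hS with h | h
      · linarith [h.2.hi]
      · linarith [h.2.hi]
    have hH := HH_nonneg_own hR.toPar
    have hx := sx_nonneg (r * δ) y
    have H := hyp_pos hx hy hy1 hδ
    have n := num_pos hx hy hy1 hδ hR.r0 (rd_eq hA.dom)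
    refine own_of_num (τ0 := 1 / 500) H n hA.dom (by norm_num) (by norm_num) (by norm_num)
      (by norm_num) t0 (t1.trans ?_) (t2.trans ?_)
    · have := mul_nonneg hH hG.le
      nlinarith
    · have := mul_nonneg (sq_nonneg (HH N r δ)) (mul_nonneg hδ.le hG.le)
      nlinarith
  · intro N r δ y η hR hA hS h0 h1
    obtain ⟨t0, t1, t2⟩ := hT N r δ y η hR hA hS (abs_le.2 ⟨h1, by linarith [h0.trans ((neg_nonneg.2 h0).trans (neg_le.1 h1))]⟩)
    have hy := hA.y_nonpos_own h0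
    have hδ := hR.d0
    have hG := sG_pos (r := r) hδ hA.y1
    have hH := HH_nonneg_own hR.toPar
    have hx := sx_nonneg (r * δ) y
    have F : NegF (sx (r * δ) y) y := by
      rcases hS with h | h
      · have hs := h.2
        have hT := hs.T
        rw [abs_of_nonpos hy] at hT
        have hd := hs.D
        unfold sD2 at hd
        exact negF_small hx (by linarith [hs.lo]) hy (by linarith) (by linarith)
      · have hs := h.2
        have hT := hs.T
        rw [abs_of_nonpos hy] at hT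
        have hd := hs.D
        unfold sD2 at hd
        exact negF_small hx hs.lo hy (by linarith) (by linarith)
    have H := F.hyp hδ hR.r0 (rd_eq hA.dom)
    have n := F.num hδ hR.r0 (rd_eq hA.dom)
    have key : Own r δ y (103 / 1000) (13 / 10 * kD r δ y + HH N r δ / 500)
        (8 / 5 * (‖kap r δ y‖ / sD (r * δ) y) + HH N r δ ^ 2 / 200) := by
      refine own_of_num (τ0 := 1 / 500) H n hA.dom (by norm_num) (by norm_num) (by norm_num)
        (by norm_num) t0 (t1.trans ?_) (t2.trans ?_)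
      · have := mul_nonneg hH hG.le
        nlinarith
      · have := mul_nonneg (sq_nonneg (HH N r δ)) (mul_nonneg hδ.le hG.le)
        nlinarith
    exact key.mono hA.y1 (by norm_num) le_rfl le_rfl

end SokalV3
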