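import Pool.Agent.Lib_MP_af4de1_v3.V3

/-!
# F1, plan v3: `P2.ex`, `P2.sad`, `P2.sadA`, `P2.pair`

`N = 2`, `ρ = rδ ≥ 16/5`, `hst 2 = π`.
* `Γ < 10` gives `ρ ≥ 6.94`, `Γ < 20` gives `ρ ≥ 4.85`.
* `sE ρ Y ≥ ρ(1 - e^{-Y}) + (Y e^Y/ρ)(1 + Y/2)` for `Y ≥ 0`, `sE ρ (-n) ≤ ρ - √(ρ²e^{2n} - n²)` for `n ≥ 0`.
* pair: `K0 - K1 = -(π - ψ0 + ψ1) + i (y0 - y1)`; the component in the direction `(-ρ, 1)/√R` is at least
  `(ρ/√R)(π - ψ0 + ψ1 + (y0 - y1)/ρ)`, and `ψ0 - y0/ρ ≤ .06π`, `-ψ1 + y1/ρ ≤ 0`.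
-/

set_option autoImplicit false

namespace SokalV3

open Complex SokalU SokalF1 SokalF1S SokalF1M

theorem hst_two : hst 2 = Real.pi := by
  unfold hst
  push_cast
  ring

/-! ### numbers -/

theorem p2_exp_lb (x : ℝ) (hx : 0 ≤ x) :
    1 + x + x ^ 2 / 2 + x ^ 3 / 6 + x ^ 4 / 24 + x ^ 5 / 120 ≤ Real.exp x := by
  have h := Real.sum_le_exp_of_nonneg hx 6
  simp only [Finset.sum_range_succ, Finset.sum_range_zero, Nat.factorial] at h
  norm_num at h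
  linarith

theorem p2_exp_ub (x : ℝ) (hx : 0 ≤ x) (hx1 : x ≤ 1) :
    Real.exp x ≤ 1 + x + x ^ 2 / 2 + x ^ 3 / 6 + x ^ 4 / 24 + x ^ 5 / 120 + x ^ 6 * (7 / (720 * 6)) := by
  have h := Real.exp_bound' hx hx1 (n := 6) (by norm_num)
  simp only [Finset.sum_range_succ, Finset.sum_range_zero, Nat.factorial] at h
  norm_num at h
  linarith

theorem p2_exp_61 : Real.exp (61 / 100) ≤ 18405 / 10000 := by
  refine (p2_exp_ub _ (by norm_num) (by norm_num)).trans ?_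
  norm_num

theorem p2_exp_61' : 18402 / 10000 ≤ Real.exp (61 / 100) := by
  refine le_trans ?_ (p2_exp_lb _ (by norm_num))
  norm_num

theorem p2_exp_42 : Real.exp (42 / 100) ≤ 1523 / 1000 := by
  refine (p2_exp_ub _ (by norm_num) (by norm_num)).trans ?_
  norm_num

theorem p2_exp_42' : 15218 / 10000 ≤ Real.exp (42 / 100) := by
  refine le_trans ?_ (p2_exp_lb _ (by norm_num))
  norm_num

theorem p2_exp_neg_61 : Real.exp (-(61 / 100)) ≤ 54342 / 100000 := by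
  rw [Real.exp_neg, inv_le_comm₀ (Real.exp_pos _) (by norm_num)]
  refine le_trans ?_ p2_exp_61'
  norm_num

theorem p2_exp_neg_61' : 5433 / 10000 ≤ Real.exp (-(61 / 100)) := by
  rw [Real.exp_neg, le_inv_comm₀ (by norm_num) (Real.exp_pos _)]
  refine p2_exp_61.trans ?_
  norm_num

theorem p2_exp_neg_42 : Real.exp (-(42 / 100)) ≤ 6572 / 10000 := by
  rw [Real.exp_neg, inv_le_comm₀ (Real.exp_pos _) (by norm_num)]
  refine le_trans ?_ p2_exp_42'
  norm_num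

theorem p2_exp_neg_42' : 656 / 1000 ≤ Real.exp (-(42 / 100)) := by
  rw [Real.exp_neg, le_inv_comm₀ (by norm_num) (Real.exp_pos _)]
  refine p2_exp_42.trans ?_
  norm_num

theorem p2_exp_one : 2718 / 1000 ≤ Real.exp 1 := by
  have := Real.exp_one_gt_d9
  linarith

theorem p2_exp_62 : 1858 / 1000 ≤ Real.exp (62 / 100) := by
  refine le_trans ?_ (p2_exp_lb _ (by norm_num))
  norm_num

/-! ### comparison of `sE` -/

theorem At.le {r δ y η Y : ℝ} (h : At r δ y η) (hY : Dom (r * δ) Y) (hY1 : -1 ≤ Y)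
    (hE : η ≤ sE (r * δ) Y) : y ≤ Y := by
  by_contra hcon
  push Not at hcon
  have h1 := sE_strictMonoOn hY h.dom hY1 (Set.left_mem_Icc.mpr hcon.le) (Set.right_mem_Icc.mpr hcon.le) hcon
  rw [h.eta] at h1
  linarith

theorem At.ge {r δ y η Y : ℝ} (h : At r δ y η) (hY : Dom (r * δ) Y)
    (hE : sE (r * δ) Y ≤ η) : Y ≤ y := by
  by_contra hcon
  push Not at hcon
  have h1 := sE_strictMonoOn h.dom hY h.y1.le (Set.left_mem_Icc.mpr hcon.le) (Set.right_mem_Icc.mpr hcon.le) hcon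
  rw [h.eta] at h1
  linarith

/-- the lower bound of `sE` for `Y ≥ 0` -/
theorem sE_ge {ρ Y : ℝ} (h : Dom ρ Y) (hY : 0 ≤ Y) :
    ρ * (1 - Real.exp (-Y)) + Y * Real.exp Y / ρ * (1 + Y / 2) ≤ sE ρ Y := by
  have hρ := h.1
  set A := ρ * Real.exp (-Y) with hA
  have hA0 : 0 < A := by positivity
  have hYA : Y ≤ A := by
    have := h.abs_le_exp
    rwa [abs_of_nonneg hY] at this
  have hx : sx ρ Y ≤ A - Y ^ 2 / (2 * A) := by
    have h0 : 0 ≤ A - Y ^ 2 / (2 * A) := by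
      rw [sub_nonneg, div_le_iff₀ (by positivity)]
      nlinarith
    refine abs_le_of_sq_le_sq' ?_ h0 |>.2
    rw [sx_sq h]
    have e : (A - Y ^ 2 / (2 * A)) ^ 2 = A ^ 2 - Y ^ 2 + (Y ^ 2 / (2 * A)) ^ 2 := by
      field_simp
      ring
    rw [e]
    nlinarith [sq_nonneg (Y ^ 2 / (2 * A))]
  have hψ : Y * Real.exp Y / ρ ≤ sP ρ Y := by
    rw [← h.sin]
    exact Real.sin_le (sP_nonneg hρ hY)
  have e2 : Y ^ 2 / (2 * A) = Y * Real.exp Y / ρ * (Y / 2) := by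
    have h2 : Real.exp (-Y) = (Real.exp Y)⁻¹ := Real.exp_neg Y
    rw [hA, h2]
    field_simp
  rw [e2] at hx
  unfold sE
  have e3 : A = ρ * Real.exp (-Y) := hA
  nlinarith

/-- the upper bound of `sE` for `Y = -n ≤ 0` -/
theorem sE_neg_le {ρ n B : ℝ} (h : Dom ρ (-n)) (hn : 0 ≤ n) (hB2 : B ^ 2 + n ^ 2 ≤ (ρ * Real.exp n) ^ 2) :
    sE ρ (-n) ≤ ρ - B := by
  have h1 : sP ρ (-n) ≤ 0 := sP_nonpos h.1 (by linarith)
  have h2 : B ≤ sx ρ (-n) := by
    refine abs_le_of_sq_le_sq' ?_ (sx_nonneg _ _) |>.2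
    rw [sx_sq h, neg_neg]
    linarith
  unfold sE
  linarith

/-! ### the parameters -/

theorem reg2_facts {r δ : ℝ} (h : Reg2 r δ) :
    0 < r * δ ∧ (Gm 2 r δ < 10 → 694 / 100 ≤ r * δ) ∧ (Gm 2 r δ < 20 → 485 / 100 ≤ r * δ) := by
  have hr := h.r0
  have hρ := h.rho
  have hpi := Real.pi_gt_d4
  have hG : Gm 2 r δ * (1 + (r * δ) ^ 2) = r * Real.pi ^ 2 := by
    unfold Gm RR
    rw [hst_two]
    field_simp
  have h1 : (9869 / 1000 : ℝ) ≤ Real.pi ^ 2 := by nlinarith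
  have h2 : 499 / 10 * (9869 / 1000) ≤ r * Real.pi ^ 2 := mul_le_mul hr h1 (by norm_num) (by linarith)
  refine ⟨by linarith, fun h10 => ?_, fun h20 => ?_⟩
  · have h3 : Gm 2 r δ * (1 + (r * δ) ^ 2) < 10 * (1 + (r * δ) ^ 2) :=
      mul_lt_mul_of_pos_right h10 (by positivity)
    by_contra hcon
    push Not at hcon
    nlinarith
  · have h3 : Gm 2 r δ * (1 + (r * δ) ^ 2) < 20 * (1 + (r * δ) ^ 2) :=
      mul_lt_mul_of_pos_right h20 (by positivity)
    by_contra hcon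
    push Not at hcon
    nlinarith

theorem eo2_cases {r δ : ℝ} (h : Reg2 r δ) :
    (Gm 2 r δ < 10 ∧ 694 / 100 ≤ r * δ ∧ eo2 r δ = 67 / 100 * Real.pi) ∨
    (10 ≤ Gm 2 r δ ∧ 485 / 100 ≤ r * δ ∧ eo2 r δ = 65 / 100 * Real.pi) ∨
    (10 ≤ Gm 2 r δ ∧ 16 / 5 ≤ r * δ ∧ eo2 r δ = 60 / 100 * Real.pi) := by
  obtain ⟨h0, h1, h2⟩ := reg2_facts h
  by_cases h10 : Gm 2 r δ < 10
  · left
    refine ⟨h10, h1 h10, ?_⟩
    unfold eo2 om2
    rw [hst_two, if_pos h10]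
    ring
  · by_cases h20 : Gm 2 r δ < 20
    · right; left
      refine ⟨not_lt.mp h10, h2 h20, ?_⟩
      unfold eo2 om2
      rw [hst_two, if_neg h10, if_pos h20]
      ring
    · right; right
      refine ⟨not_lt.mp h10, h.rho, ?_⟩
      unfold eo2 om2
      rw [hst_two, if_neg h10, if_neg h20]
      ring

theorem dom_of {ρ y : ℝ} (hρ : 16 / 5 ≤ ρ) (h1 : -(1 / 2) ≤ y) (h2 : y ≤ 61 / 100) : Dom ρ y := by
  refine ⟨by linarith, ?_⟩
  have h3 : Real.exp y ≤ 18405 / 10000 := (Real.exp_le_exp.mpr h2).trans p2_exp_61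
  have h4 : |y| ≤ 61 / 100 := abs_le.mpr ⟨by linarith, h2⟩
  calc |y| * Real.exp y ≤ 61 / 100 * (18405 / 10000) := mul_le_mul h4 h3 (Real.exp_pos _).le (by norm_num)
    _ ≤ ρ := by linarith

theorem p2_num {ρ : ℝ} (hρ : 16 / 5 ≤ ρ) : 45658 / 100000 * ρ + 14648 / 10000 * (1 / ρ) ≤ sE ρ (61 / 100) := by
  have hD : Dom ρ (61 / 100) := dom_of hρ (by norm_num) le_rfl
  have h1 := sE_ge hD (by norm_num)
  have h2 := p2_exp_neg_61
  have h3 := p2_exp_61'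
  have hρ0 : 0 < ρ := by linarith
  have h4 : ρ * (45658 / 100000) ≤ ρ * (1 - Real.exp (-(61 / 100))) :=
    mul_le_mul_of_nonneg_left (by linarith) hρ0.le
  have h5 : (14648 / 10000 : ℝ) * (1 / ρ) ≤ 61 / 100 * Real.exp (61 / 100) / ρ * (1 + 61 / 100 / 2) := by
    have e : 61 / 100 * Real.exp (61 / 100) / ρ * (1 + 61 / 100 / 2) =
        (61 / 100 * Real.exp (61 / 100) * (1 + 61 / 100 / 2)) * (1 / ρ) := by ring
    rw [e]
    refine mul_le_mul_of_nonneg_right ?_ (by positivity)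
    linarith
  linarith

theorem p2_num2 {ρ : ℝ} (hρ : 16 / 5 ≤ ρ) : 18850 / 10000 ≤ sE ρ (61 / 100) := by
  have h1 := p2_num hρ
  have hρ0 : 0 < ρ := by linarith
  have h7 : 5 / 8 - ρ * (25 / 256) ≤ 1 / ρ := by
    rw [le_div_iff₀ hρ0]
    nlinarith [sq_nonneg (ρ - 16 / 5)]
  linarith

theorem eo2_le_hi {r δ : ℝ} (h : Reg2 r δ) : eo2 r δ ≤ sE (r * δ) (61 / 100) := by
  have hpi := Real.pi_lt_d4
  have hρ := h.rho
  have h1 := p2_num hρ
  have h2 := p2_num2 hρ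
  have h3 : 0 ≤ 14648 / 10000 * (1 / (r * δ)) := by
    have : 0 < r * δ := by linarith
    positivity
  rcases eo2_cases h with ⟨_, hr, he⟩ | ⟨_, hr, he⟩ | ⟨_, hr, he⟩
  · rw [he]; linarith
  · rw [he]; linarith
  · rw [he]; linarith

theorem lo_le_eo2 {r δ : ℝ} (h : Reg2 r δ) : sE (r * δ) (-(1 / 2)) ≤ -eo2 r δ := by
  have hpi := Real.pi_lt_d4
  have hpi0 := Real.pi_pos
  have hρ := h.rho
  have hρ0 : 0 < r * δ := by linarith
  have hD : Dom (r * δ) (-(1 / 2)) := dom_of hρ le_rfl (by norm_num)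
  have he2 : Real.exp (1 / 2) ^ 2 = Real.exp 1 := by
    rw [← Real.exp_nat_mul]; norm_num
  have h1 : 2718 / 1000 * (r * δ) ^ 2 ≤ (r * δ * Real.exp (1 / 2)) ^ 2 := by
    rw [mul_pow (r * δ) (Real.exp (1 / 2)), he2]
    have := mul_le_mul_of_nonneg_right p2_exp_one (sq_nonneg (r * δ))
    linarith
  have h2 : sE (r * δ) (-(1 / 2)) ≤ r * δ - (r * δ + eo2 r δ) := by
    have hE : 0 ≤ eo2 r δ := by
      rcases eo2_cases h with ⟨_, hr, he⟩ | ⟨_, hr, he⟩ | ⟨_, hr, he⟩ <;> rw [he] <;> positivity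
    refine sE_neg_le hD (by norm_num) (le_trans ?_ h1)
    rcases eo2_cases h with ⟨_, hr, he⟩ | ⟨_, hr, he⟩ | ⟨_, hr, he⟩
    · have he' : eo2 r δ ≤ 2106 / 1000 := by rw [he]; linarith
      nlinarith
    · have he' : eo2 r δ ≤ 2043 / 1000 := by rw [he]; linarith
      nlinarith
    · have he' : eo2 r δ ≤ 18850 / 10000 := by rw [he]; linarith
      nlinarith
  linarith

theorem p2_ex : ∀ (r δ η : ℝ), Reg2 r δ → |η| ≤ eo2 r δ → ∃ y, At r δ y η := by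
  intro r δ η h hη
  obtain ⟨h1, h2⟩ := abs_le.mp hη
  obtain ⟨y, hy, hE⟩ := exists_sE (ρ := r * δ) (y₁ := -(1 / 2)) (y₂ := 61 / 100) (η := η) (by norm_num)
    ((lo_le_eo2 h).trans h1) (h2.trans (eo2_le_hi h))
  exact ⟨y, dom_of h.rho hy.1 hy.2, by linarith [hy.1], hE⟩

theorem p2_lohi {r δ y η : ℝ} (h : Reg2 r δ) (hA : At r δ y η) (hη : |η| ≤ eo2 r δ) :
    -(1 / 2) ≤ y ∧ y ≤ 61 / 100 := by
  obtain ⟨h1, h2⟩ := abs_le.mp hη
  exact ⟨hA.ge (dom_of h.rho le_rfl (by norm_num)) ((lo_le_eo2 h).trans h1),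
    hA.le (dom_of h.rho (by norm_num) le_rfl) (by norm_num) (h2.trans (eo2_le_hi h))⟩

/-- `|y| ≤ t x` from `(1 + t²) y² ≤ t² (ρ e^{-y})²` -/
theorem p2_T {ρ y t c : ℝ} (hD : Dom ρ y) (ht : 0 < t) (hc : 0 ≤ c) (hct : 1 + t ^ 2 ≤ (t * c) ^ 2)
    (h : c * |y| ≤ ρ * Real.exp (-y)) : |y| ≤ t * sx ρ y := by
  have h0 : 0 ≤ t * sx ρ y := mul_nonneg ht.le (sx_nonneg _ _)
  refine abs_le_of_sq_le_sq' ?_ h0 |>.2
  rw [mul_pow, sx_sq hD, sq_abs]
  have h1 : (c * |y|) ^ 2 ≤ (ρ * Real.exp (-y)) ^ 2 := pow_le_pow_left₀ (by positivity) h 2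
  rw [mul_pow, sq_abs] at h1
  have h2 : t ^ 2 * (c ^ 2 * y ^ 2) ≤ t ^ 2 * (ρ * Real.exp (-y)) ^ 2 :=
    mul_le_mul_of_nonneg_left h1 (by positivity)
  have h3 : (1 + t ^ 2) * y ^ 2 ≤ (t * c) ^ 2 * y ^ 2 := mul_le_mul_of_nonneg_right hct (sq_nonneg y)
  nlinarith

theorem p2_sad : ∀ (r δ y η : ℝ), Reg2 r δ → At r δ y η → |η| ≤ eo2 r δ → Sad2 r δ y := by
  intro r δ y η h hA hη
  obtain ⟨h1, h2⟩ := p2_lohi h hA hη
  have hρ := h.rho
  have hρ0 : 0 < r * δ := by linarith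
  have hD := dom_of hρ h1 h2
  have he := p2_exp_neg_61'
  have hey : Real.exp (-(61 / 100)) ≤ Real.exp (-y) := Real.exp_le_exp.mpr (by linarith)
  refine ⟨h1, by linarith, ?_, ?_⟩
  · refine p2_T (c := 27 / 10) hD (by norm_num) (by norm_num) (by norm_num) ?_
    rcases le_total 0 y with hy | hy
    · rw [abs_of_nonneg hy]
      nlinarith
    · rw [abs_of_nonpos hy]
      have h3 : 1 ≤ Real.exp (-y) := Real.one_le_exp (by linarith)
      nlinarith
  · unfold sD2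
    rw [sx_sq hD]
    have e1 : (r * δ * Real.exp (-y)) ^ 2 = (r * δ) ^ 2 * Real.exp (-(2 * y)) := by
      rw [mul_pow, ← Real.exp_nat_mul]
      congr 2
      push_cast
      ring
    have e2 : Real.exp (-(2 * y)) = Real.exp (-(61 / 100)) ^ 2 * Real.exp (122 / 100 - 2 * y) := by
      rw [← Real.exp_nat_mul, ← Real.exp_add]
      congr 1
      push_cast
      ring
    have h3 := Real.add_one_le_exp (122 / 100 - 2 * y)
    have h4 : (5433 / 10000 : ℝ) ^ 2 ≤ Real.exp (-(61 / 100)) ^ 2 := pow_le_pow_left₀ (by norm_num) he 2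
    have h5 : (5433 / 10000 : ℝ) ^ 2 * (122 / 100 - 2 * y + 1) ≤ Real.exp (-(2 * y)) := by
      rw [e2]
      exact mul_le_mul h4 h3 (by linarith) (by positivity)
    have h6 : (16 / 5 : ℝ) ^ 2 ≤ (r * δ) ^ 2 := pow_le_pow_left₀ (by norm_num) hρ 2
    have h7 : (16 / 5 : ℝ) ^ 2 * ((5433 / 10000 : ℝ) ^ 2 * (122 / 100 - 2 * y + 1)) ≤
        (r * δ) ^ 2 * Real.exp (-(2 * y)) := mul_le_mul h6 h5 (by nlinarith) (by positivity)
    rw [e1]
    nlinarith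

theorem p2_sadA : ∀ (r δ y η : ℝ), Reg2 r δ → At r δ y η → |η| ≤ eo2 r δ → Gm 2 r δ < 10 →
    -(31 / 100) ≤ y ∧ y ≤ 21 / 50 ∧ |y| ≤ 3 / 20 * sx (r * δ) y := by
  intro r δ y η h hA hη hG
  obtain ⟨h1, h2⟩ := abs_le.mp hη
  have hρ : 694 / 100 ≤ r * δ := (reg2_facts h).2.1 hG
  have hρ0 : 0 < r * δ := by linarith
  have he : eo2 r δ = 67 / 100 * Real.pi := by
    unfold eo2 om2
    rw [hst_two, if_pos hG]
    ring
  have hpi := Real.pi_lt_d4
  have he' : eo2 r δ ≤ 2106 / 1000 := by rw [he]; linarith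
  have hlo : -(31 / 100) ≤ y := by
    refine hA.ge (dom_of h.rho (by norm_num) (by norm_num)) (le_trans ?_ h1)
    have he2 : Real.exp (31 / 100) ^ 2 = Real.exp (62 / 100) := by
      rw [← Real.exp_nat_mul]; norm_num
    have h3 : 1858 / 1000 * (r * δ) ^ 2 ≤ (r * δ * Real.exp (31 / 100)) ^ 2 := by
      rw [mul_pow (r * δ) (Real.exp (31 / 100)), he2]
      have := mul_le_mul_of_nonneg_right p2_exp_62 (sq_nonneg (r * δ))
      linarith
    have h4 : sE (r * δ) (-(31 / 100)) ≤ r * δ - (r * δ + 2106 / 1000) := by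
      refine sE_neg_le (dom_of h.rho (by norm_num) (by norm_num)) (by norm_num)
        (le_trans ?_ h3)
      nlinarith
    linarith
  have hhi : y ≤ 21 / 50 := by
    have hD : Dom (r * δ) (42 / 100) := dom_of h.rho (by norm_num) (by norm_num)
    have h3 := sE_ge hD (by norm_num)
    have h4 := p2_exp_neg_42
    have h5 : (0 : ℝ) ≤ 42 / 100 * Real.exp (42 / 100) / (r * δ) * (1 + 42 / 100 / 2) := by positivity
    have h6 : y ≤ 42 / 100 := by
      refine hA.le hD (by norm_num) ?_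
      nlinarith
    linarith
  refine ⟨hlo, hhi, ?_⟩
  have hD := dom_of (y := y) h.rho (by linarith) (by linarith)
  refine p2_T (c := 675 / 100) hD (by norm_num) (by norm_num) (by norm_num) ?_
  have h7 := p2_exp_neg_42'
  have hey : Real.exp (-(42 / 100)) ≤ Real.exp (-y) := Real.exp_le_exp.mpr (by linarith)
  rcases le_total 0 y with hy | hy
  · rw [abs_of_nonneg hy]
    nlinarith
  · rw [abs_of_nonpos hy]
    have h8 : 1 ≤ Real.exp (-y) := Real.one_le_exp (by linarith)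
    nlinarith

/-! ### the pair -/

/-- `ψ ≤ tan ψ` form: `sin ψ = s`, `0 ≤ s ≤ 7/20`: `ψ ≤ s/(.9364)` -/
theorem p2_psi0 {ρ y : ℝ} (hρ : 16 / 5 ≤ ρ) (h0 : 0 ≤ y) (h1 : y ≤ 61 / 100) :
    sP ρ y - y / ρ ≤ 188 / 1000 := by
  have hD := dom_of hρ (by linarith) h1
  have hρ0 : 0 < ρ := by linarith
  have hey : Real.exp y ≤ 18405 / 10000 := (Real.exp_le_exp.mpr h1).trans p2_exp_61
  set s := y * Real.exp y / ρ with hs
  have hs0 : 0 ≤ s := by positivity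
  have hyρ : y / ρ ≤ 61 / 100 / (16 / 5) := by
    rw [div_le_div_iff₀ hρ0 (by norm_num)]
    nlinarith
  have hyρ0 : 0 ≤ y / ρ := by positivity
  have hs1 : s ≤ 351 / 1000 := by
    have e : s = y / ρ * Real.exp y := by rw [hs]; ring
    rw [e]
    calc y / ρ * Real.exp y ≤ 61 / 100 / (16 / 5) * (18405 / 10000) :=
          mul_le_mul hyρ hey (Real.exp_pos _).le (by norm_num)
      _ ≤ 351 / 1000 := by norm_num
  have hψ0 := sP_nonneg hρ0 h0
  have hcos : Real.cos (sP ρ y) = √(1 - s ^ 2) := by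
    have : sP ρ y = Real.arcsin s := rfl
    rw [this, Real.cos_arcsin]
  have hc : 936 / 1000 ≤ Real.cos (sP ρ y) := by
    rw [hcos]
    refine Real.le_sqrt_of_sq_le ?_
    nlinarith
  have hψlt : sP ρ y < Real.pi / 2 := by
    rcases lt_or_ge (sP ρ y) (Real.pi / 2) with h | h
    · exact h
    · have h3 : sP ρ y = Real.pi / 2 := le_antisymm (abs_le.mp (sP_abs_le ρ y)).2 h
      rw [h3, Real.cos_pi_div_two] at hc
      norm_num at hc
  have htan : sP ρ y ≤ Real.tan (sP ρ y) := Real.le_tan hψ0 hψlt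
  have htan2 : Real.tan (sP ρ y) ≤ s / (936 / 1000) := by
    rw [Real.tan_eq_sin_div_cos, hD.sin]
    exact div_le_div_of_nonneg_left hs0 (by norm_num) hc
  have hfin : s / (936 / 1000) - y / ρ = y / ρ * (Real.exp y / (936 / 1000) - 1) := by
    rw [hs]; ring
  have h4 : Real.exp y / (936 / 1000) - 1 ≤ 18405 / 10000 / (936 / 1000) - 1 := by
    gcongr
  have h5 : y / ρ * (Real.exp y / (936 / 1000) - 1) ≤ 61 / 100 / (16 / 5) * (18405 / 10000 / (936 / 1000) - 1) := by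
    have h6 : 0 ≤ Real.exp y / (936 / 1000) - 1 := by
      have h7 : 1 ≤ Real.exp y := Real.one_le_exp h0
      have h8 : Real.exp y ≤ Real.exp y / (936 / 1000) := by
        rw [le_div_iff₀ (by norm_num)]
        nlinarith
      linarith
    exact mul_le_mul hyρ h4 h6 (by norm_num)
  have h6 : (61 / 100 / (16 / 5) * (18405 / 10000 / (936 / 1000) - 1) : ℝ) ≤ 188 / 1000 := by norm_num
  linarith

theorem p2_psi1 {ρ n : ℝ} (hρ : 16 / 5 ≤ ρ) (h0 : 0 ≤ n) (h1 : n ≤ 1 / 2) :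
    -sP ρ (-n) - n / ρ ≤ 0 := by
  have hD := dom_of (y := -n) hρ (by linarith) (by linarith)
  have hρ0 : 0 < ρ := by linarith
  have hψ0 : 0 ≤ -sP ρ (-n) := by
    have := sP_nonpos hρ0 (y := -n) (by linarith)
    linarith
  set ψ := -sP ρ (-n) with hψ
  set s := n * Real.exp (-n) / ρ with hs
  have hs0 : 0 ≤ s := by positivity
  have hsin : Real.sin ψ = s := by
    rw [hψ, Real.sin_neg, hD.sin, hs]
    ring
  have hen : Real.exp (-n) * (1 + n) ≤ 1 := by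
    have h2 := Real.add_one_le_exp n
    have h3 : Real.exp (-n) * Real.exp n = 1 := by rw [← Real.exp_add]; simp
    nlinarith [Real.exp_pos (-n)]
  have hen0 : Real.exp (-n) ≤ 1 := Real.exp_le_one_iff.mpr (by linarith)
  have hsn : s ≤ n / ρ := by
    rw [hs]
    gcongr
    nlinarith
  have hnρ : n / ρ ≤ n * (5 / 16) := by
    rw [div_le_iff₀ hρ0]
    nlinarith
  have hs1 : s ≤ 5 / 16 * n := by linarith
  have hcos0 : 0 ≤ Real.cos ψ := by
    have h5 := sP_abs_le ρ (-n)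
    rw [abs_le] at h5
    exact Real.cos_nonneg_of_mem_Icc ⟨by linarith, by linarith⟩
  have hcos2 : Real.cos ψ ^ 2 = 1 - s ^ 2 := by
    have := Real.sin_sq_add_cos_sq ψ
    rw [hsin] at this
    linarith
  -- `cos ψ ≥ 1/(1+n)`
  have hc : 1 / (1 + n) ≤ Real.cos ψ := by
    refine abs_le_of_sq_le_sq' ?_ hcos0 |>.2
    rw [hcos2, div_pow, one_pow, div_le_iff₀ (by positivity)]
    have h6 : s ^ 2 ≤ (5 / 16 * n) ^ 2 := pow_le_pow_left₀ hs0 hs1 2
    have h7 : (1 - (5 / 16 * n) ^ 2) * (1 + n) ^ 2 ≤ (1 - s ^ 2) * (1 + n) ^ 2 :=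
      mul_le_mul_of_nonneg_right (by linarith) (by positivity)
    refine le_trans ?_ h7
    nlinarith [mul_nonneg h0 h0, mul_nonneg (mul_nonneg h0 h0) h0]
  have hψlt : ψ < Real.pi / 2 := by
    rcases lt_or_ge ψ (Real.pi / 2) with h | h
    · exact h
    · have h3 : ψ = Real.pi / 2 := by
        refine le_antisymm ?_ h
        have := (abs_le.mp (sP_abs_le ρ (-n))).1
        linarith
      rw [h3, Real.cos_pi_div_two] at hc
      have : (0 : ℝ) < 1 / (1 + n) := by positivity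
      linarith
  have htan : ψ ≤ Real.tan ψ := Real.le_tan hψ0 hψlt
  have hpos : (0 : ℝ) < 1 / (1 + n) := by positivity
  have htan2 : Real.tan ψ ≤ s / (1 / (1 + n)) := by
    rw [Real.tan_eq_sin_div_cos, hsin]
    exact div_le_div_of_nonneg_left hs0 hpos hc
  have h8 : s / (1 / (1 + n)) = n / ρ * (Real.exp (-n) * (1 + n)) := by
    rw [hs]
    field_simp
  have h9 : n / ρ * (Real.exp (-n) * (1 + n)) ≤ n / ρ * 1 :=
    mul_le_mul_of_nonneg_left hen (by positivity)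
  linarith

theorem p2_pair : ∀ (r δ y0 y1 η : ℝ), Reg2 r δ → At r δ y0 η → At r δ y1 (η - hst 2) →
    ei2 r δ ≤ η → η ≤ eo2 r δ → 47 / 50 * HH 2 r δ ≤ ‖kap r δ y0 - kap r δ y1‖ := by
  intro r δ y0 y1 η h hA0 hA1 hi ho
  have hpi0 := Real.pi_pos
  have hpi := Real.pi_gt_d4
  have hρ := h.rho
  have hρ0 : 0 < r * δ := by linarith
  have hδ := h.d0
  have hr0 : 0 < r := by linarith [h.r0]
  have hei : ei2 r δ = Real.pi - eo2 r δ := by
    unfold ei2 eo2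
    rw [hst_two]
    ring
  have heo : eo2 r δ ≤ 67 / 100 * Real.pi := by
    rcases eo2_cases h with ⟨_, _, he⟩ | ⟨_, _, he⟩ | ⟨_, _, he⟩ <;> rw [he] <;> nlinarith
  rw [hst_two] at hA1
  rw [hei] at hi
  have hη0 : 0 ≤ η := by linarith
  obtain ⟨a1, a2⟩ := p2_lohi h hA0 (abs_le.mpr ⟨by linarith, ho⟩)
  obtain ⟨b1, b2⟩ := p2_lohi h hA1 (abs_le.mpr ⟨by linarith, by linarith⟩)
  have hz : sE (r * δ) 0 = 0 := sE_zero hρ0
  have hy0 : 0 ≤ y0 := hA0.ge (dom_zero hρ0) (by rw [hz]; exact hη0)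
  have hy1 : y1 ≤ 0 := hA1.le (dom_zero hρ0) (by norm_num) (by rw [hz]; linarith)
  have h0 := p2_psi0 hρ hy0 a2
  have h1 := p2_psi1 (n := -y1) hρ (by linarith) (by linarith)
  rw [neg_neg] at h1
  -- the difference of the abscissas
  have hx : sx (r * δ) y1 - sx (r * δ) y0 = Real.pi - sP (r * δ) y0 + sP (r * δ) y1 := by
    have e0 := hA0.eta
    have e1 := hA1.eta
    unfold sE at e0 e1
    linarith
  set R := 1 + (r * δ) ^ 2 with hR
  have hR0 : 0 < R := by positivity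
  have hsR : 0 < √R := Real.sqrt_pos.mpr hR0
  have hsR2 : √R ^ 2 = R := Real.sq_sqrt hR0.le
  -- Cauchy-Schwarz
  have hCS : r * δ * (sx (r * δ) y1 - sx (r * δ) y0) + (y0 - y1) ≤
      √R * ‖sK (r * δ) y0 - sK (r * δ) y1‖ := by
    have hn : ‖sK (r * δ) y0 - sK (r * δ) y1‖ ^ 2 =
        (sx (r * δ) y1 - sx (r * δ) y0) ^ 2 + (y0 - y1) ^ 2 := by
      rw [Complex.sq_norm, Complex.normSq_apply]
      unfold sK
      simp
      ring
    refine abs_le_of_sq_le_sq' ?_ (by positivity) |>.2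
    rw [mul_pow, hsR2, hn, hR]
    nlinarith [sq_nonneg (r * δ * (y0 - y1) - (sx (r * δ) y1 - sx (r * δ) y0))]
  have hlow : r * δ * (47 / 50 * Real.pi) ≤ r * δ * (sx (r * δ) y1 - sx (r * δ) y0) + (y0 - y1) := by
    have e1 : r * δ * (sx (r * δ) y1 - sx (r * δ) y0) + (y0 - y1) =
        r * δ * (Real.pi - (sP (r * δ) y0 - y0 / (r * δ)) - (-sP (r * δ) y1 - -y1 / (r * δ))) := by
      rw [hx]
      field_simp
      ring
    rw [e1]
    refine mul_le_mul_of_nonneg_left ?_ hρ0.le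
    linarith
  have hnorm : ‖kap r δ y0 - kap r δ y1‖ = ‖sK (r * δ) y0 - sK (r * δ) y1‖ / δ := by
    unfold kap
    rw [← sub_div, norm_div, Complex.norm_real, Real.norm_of_nonneg hδ.le]
  rw [hnorm, le_div_iff₀ hδ]
  unfold HH RR
  rw [hst_two]
  have h7 : 47 / 50 * (r * Real.pi / √(1 + (r * δ) ^ 2)) * δ = r * δ * (47 / 50 * Real.pi) / √R := by
    rw [← hR]
    ring
  rw [h7, div_le_iff₀ hsR]
  linarith

end SokalV3
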