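import Pool.Agent.Lib_MP_af4de1_v3.P2OutC
import Pool.Agent.Lib_MP_af4de1_v3.Fix
import Pool.Agent.Lib_MP_af4de1_v3.P2Sad
import Pool.Agent.Lib_MP_af4de1_v3.SadBase
import Pool.Agent.Lib_MP_af4de1_v3.Own1

/-!
# `P2.outL`: geometry and reduction
-/

set_option autoImplicit false

namespace SokalP2O

open Real Set SokalF1G MeasureTheory SokalPG SokalF1S SokalF1M SokalV3

theorem olg_e61 : exp (-(61 / 100) : ℝ) ≤ 5434 / 10000 := by
  have h7 := Real.sum_le_exp_of_nonneg (x := 61 / 100) (by norm_num) 7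
  norm_num [Finset.sum_range_succ, Nat.factorial] at h7
  rw [exp_neg, inv_le_comm₀ (exp_pos _) (by norm_num)]
  refine le_trans ?_ h7
  norm_num

theorem olg_e61' : (184 / 100 : ℝ) ≤ exp (61 / 100) := by
  have h7 := Real.sum_le_exp_of_nonneg (x := 61 / 100) (by norm_num) 7
  norm_num [Finset.sum_range_succ, Nat.factorial] at h7
  linarith

theorem olg_sE_zero {ρ : ℝ} (hρ : 0 < ρ) : sE ρ 0 = 0 := by
  unfold sE sP sx
  simp only [zero_div, Real.arcsin_zero, mul_zero, Real.exp_zero, mul_one, ne_eq,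
    OfNat.ofNat_ne_zero, not_false_eq_true, zero_pow, sub_zero, zero_add]
  rw [Real.sqrt_sq hρ.le]
  ring

theorem olg_y61 {r δ y : ℝ} (h : Reg2 r δ) (hA : At r δ y (eo2 r δ)) (hy : 0 ≤ y) :
    y ≤ 61 / 100 := by
  by_contra hc
  push Not at hc
  have hρ : 0 < r * δ := hA.dom.1
  obtain ⟨ρ, hρd⟩ : ∃ ρ, ρ = r * δ := ⟨_, rfl⟩
  have h1 := sE_ge_pos hA.dom hy
  rw [hA.eta] at h1
  rw [← hρd] at h1 hρ
  have e1 : exp (-y) ≤ 5434 / 10000 := (exp_le_exp.2 (by linarith)).trans olg_e61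
  have e2 : (184 / 100 : ℝ) ≤ exp y := olg_e61'.trans (exp_le_exp.2 hc.le)
  have e3 : (796 / 1000 : ℝ) ≤ y + y ^ 2 / 2 := by nlinarith
  have e4 : (796 / 1000 : ℝ) * (184 / 100) ≤ (y + y ^ 2 / 2) * exp y := by gcongr
  have e5 : ρ * (4566 / 10000) ≤ ρ * (1 - exp (-y)) := by
    have : 4566 / 10000 ≤ 1 - exp (-y) := by linarith
    gcongr
  have e6 : (1464 / 1000 : ℝ) / ρ ≤ (y + y ^ 2 / 2) * exp y / ρ := by
    gcongr
    linarith
  have e7 : 0 ≤ (1464 / 1000 : ℝ) / ρ := by positivity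
  have hp := Real.pi_lt_d2
  rcases eo2_cases h with ⟨-, g1, g2⟩ | ⟨-, g1, g2⟩ | ⟨-, g1, g2⟩
  · rw [g2] at h1
    rw [← hρd] at g1
    linarith
  · rw [g2] at h1
    rw [← hρd] at g1
    linarith
  · rw [g2] at h1
    rw [← hρd] at g1
    have h2 : ρ * (4566 / 10000) + 1464 / 1000 / ρ ≤ 189 / 100 := by
      linarith
    have h3 : (ρ * (4566 / 10000) + 1464 / 1000 / ρ) * ρ ≤ 189 / 100 * ρ := by gcongr
    have h4 : (ρ * (4566 / 10000) + 1464 / 1000 / ρ) * ρ =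
        ρ ^ 2 * (4566 / 10000) + 1464 / 1000 := by
      field_simp
    rw [h4] at h3
    nlinarith

/-- geometry, left side -/
theorem outL_geo {r δ y : ℝ} (h : Reg2 r δ) (hA : At r δ y (eo2 r δ)) (hS : Sad2 r δ y) :
    0 < y ∧ ∃ ψ W D : ℝ, GeL (sx (r*δ) y) y (r*δ) (eo2 r δ) ψ W D ∧
      sG r δ y = sg (1/δ) D := by
  have hρ : 0 < r * δ := hA.dom.1
  have hδ : 0 < δ := h.d0
  have hp := Real.pi_pos
  have he0 : 0 < eo2 r δ := by
    rcases eo2_cases h with ⟨-, -, g2⟩ | ⟨-, -, g2⟩ | ⟨-, -, g2⟩ <;> rw [g2] <;> positivity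
  have hy0 : 0 ≤ y := hA.y_nonneg_own he0.le
  have hyne : y ≠ 0 := by
    intro hc
    have h1 := hA.eta
    rw [hc, olg_sE_zero hρ] at h1
    linarith
  have hy : 0 < y := lt_of_le_of_ne hy0 (Ne.symm hyne)
  have hT := hS.T
  rw [abs_of_pos hy] at hT
  have hx : 0 < sx (r * δ) y := by linarith
  have hxs : sx (r * δ) y = r * δ * exp (-y) * cos (sP (r * δ) y) := sx_eq hA.dom
  have hys : y = r * δ * exp (-y) * sin (sP (r * δ) y) := y_eq hA.dom
  have hD2 : 0 < sD2 (r * δ) y := by linarith [hS.D]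
  have hee : exp (-y) * exp y = 1 := by rw [← exp_add]; simp
  have hsc := Real.sin_sq_add_cos_sq (sP (r * δ) y)
  refine ⟨hy, sP (r * δ) y, r * δ * exp (-y), √(sD2 (r * δ) y), ?_, ?_⟩
  · refine ⟨hx, hy0, olg_y61 h hA hy0, hT, by positivity, Real.sqrt_pos.2 hD2, ?_, ?_, ?_,
      hxs, hys, sP_nonneg hρ hy0, ?_, ?_⟩
    · have h5 : (r * δ * exp (-y)) ^ 2 = (r * δ * exp (-y) * cos (sP (r * δ) y)) ^ 2 +
          (r * δ * exp (-y) * sin (sP (r * δ) y)) ^ 2 := by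
        linear_combination (-(r * δ * exp (-y)) ^ 2) * hsc
      rwa [← hxs, ← hys] at h5
    · rw [Real.sq_sqrt hD2.le]
      rfl
    · linear_combination (-(r * δ)) * hee
    · have h1 := (abs_le.1 (sP_abs_le (r * δ) y)).2
      refine lt_of_le_of_ne h1 fun hc => ?_
      rw [hc, Real.cos_pi_div_two, mul_zero] at hxs
      linarith
    · rw [← hA.eta]
      rfl
  · unfold sG sg
    congr 1
    field_simp

/-- reduction, left side -/
theorem outL_red {r δ y ζ c : ℝ} (h : Reg2 r δ) (hA : At r δ y (eo2 r δ))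
    (_hS : Sad2 r δ y) (hζ : 0 ≤ ζ) (hζ2 : eo2 r δ + ζ ≤ π) (hc : 0 < c)
    (hcs : c*(19/4) ≤ 1) (hy0 : 0 < y) (hyc : y < c*(19/4))
    (hnum : ∀ z j : ℝ, (z = 0 ∨ z = π - eo2 r δ) → 0 ≤ j → j ≤ 1 →
      Integrable (fL c (19/4) (sx (r*δ) y) y z (1/δ) j) →
      ∫ s, fL c (19/4) (sx (r*δ) y) y z (1/δ) j s ≤ 27/20 * sG r δ y) :
    SokalV3.Out r δ y ζ (27/20) := by
  have hδ : 0 < δ := h.d0
  have hk : |y| < c * (19 / 4) := by rwa [abs_of_pos hy0]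
  have hfun : ∀ (z : ℝ) (j : ℕ), (fun s : ℝ => ‖pv c (19 / 4) s‖ *
      (exp (j * pc c (19 / 4) s) *
        exp (-(SokalV3F.Hz (sx (r * δ) y) y z (pc c (19 / 4) s) s / δ)))) =
      fL c (19 / 4) (sx (r * δ) y) y z (1 / δ) j := by
    intro z j
    funext s
    unfold fL
    congr 4
    unfold SokalV3F.Hz SokalF1G.Ha HL
    field_simp
    ring
  have key : ∀ (z : ℝ) (j : ℕ), (z = 0 ∨ z = π - eo2 r δ) → j ≤ 1 →
      SokalV3F.mF c (19 / 4) r δ y z j ≤ 27 / 20 * sG r δ y := by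
    intro z j hz hj
    have hi := SokalV3F.integrable_mF (r := r) hc (by norm_num : (0 : ℝ) < 19 / 4) hcs hδ hk
      hy0.ne' z j
    rw [hfun z j] at hi
    have := hnum z j hz (Nat.cast_nonneg j) (by exact_mod_cast hj) hi
    unfold SokalV3F.mF
    rw [hfun z j]
    exact this
  have hZ : 0 ≤ π - eo2 r δ := by linarith
  refine SokalV3F.out_of_mF (Z := π - eo2 r δ) hc (by norm_num) hcs hδ hA.dom hA.y1 hk hy0.ne'
    (mul_nonneg hζ hZ) ?_ (key 0 0 (Or.inl rfl) (by norm_num))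
    (key _ 0 (Or.inr rfl) (by norm_num)) (key 0 1 (Or.inl rfl) le_rfl)
    (key _ 1 (Or.inr rfl) le_rfl)
  rw [abs_of_nonneg hζ, abs_of_nonneg hZ]
  linarith

end SokalP2O
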