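import Pool.Agent.Lib_MP_af4de1_v3.OwnS

/-!
# `N = 2`, `ρ ≥ 16/5`: the four own fields of `P2` from the tails
-/

set_option autoImplicit false

open Complex MeasureTheory Set SokalU SokalPG SokalF1 SokalF1S SokalF1M SokalF1G SokalF1B

namespace SokalV3

theorem own2_hst : hst 2 = Real.pi := by
  unfold hst
  push_cast
  ring

theorem own2_D2 {ρ y : ℝ} (h : Dom ρ y) : sD2 ρ y = 1 + 2 * y + (ρ * Real.exp (-y)) ^ 2 := by
  unfold sD2
  rw [sx_sq h]
  ring

theorem own2_Hpos {r δ : ℝ} (h : Par 2 r δ) : 0 < HH 2 r δ := by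
  have hr := h.r0
  unfold HH RR
  rw [own2_hst]
  have := Real.pi_pos
  positivity

theorem own2_Hsq {r δ : ℝ} : HH 2 r δ ^ 2 = Gm 2 r δ * r := by
  unfold HH Gm
  have hR : 0 < RR r δ := by unfold RR; positivity
  rw [div_pow, Real.sq_sqrt hR.le]
  field_simp

/-- from `kD √R ≤ C` -/
theorem own2_kD_of {r δ y C : ℝ} (h : Par 2 r δ) (hC : 0 ≤ C)
    (hk : kD r δ y * √(RR r δ) ≤ C) : kD r δ y ≤ C / (15676 / 100) * HH 2 r δ := by
  have hr := h.r0
  have hp : (31415 / 10000 : ℝ) ≤ Real.pi := by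
    have := Real.pi_gt_d4
    norm_num at this ⊢
    linarith
  have hR : 0 < RR r δ := by unfold RR; positivity
  have hs : 0 < √(RR r δ) := Real.sqrt_pos.2 hR
  unfold HH
  rw [own2_hst, mul_div_assoc', le_div_iff₀ hs]
  refine hk.trans ?_
  have h1 : (15676 / 100 : ℝ) ≤ r * Real.pi := by
    calc (15676 / 100 : ℝ) ≤ 499 / 10 * (31415 / 10000) := by norm_num
      _ ≤ r * Real.pi := by gcongr
  rw [div_mul_eq_mul_div, le_div_iff₀ (by norm_num)]
  exact mul_le_mul_of_nonneg_left h1 hC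

theorem own2_exp65 : Real.exp (13 / 20) ≤ 1917 / 1000 := by
  have h := Real.exp_bound' (x := 13 / 20) (by norm_num) (by norm_num) (n := 6) (by norm_num)
  simp only [Finset.sum_range_succ, Finset.sum_range_zero, Nat.factorial] at h
  norm_num at h
  linarith

theorem own2_kD_pos {r δ y η : ℝ} (h : Reg2 r δ) (hA : At r δ y η) (hS : Sad2 r δ y)
    (h0 : 0 ≤ y) : kD r δ y ≤ 1223 / 100000 * HH 2 r δ := by
  have hP := h.toPar
  have hρ := hA.dom.1
  have hH := own2_Hpos hP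
  have hD := sD2_pos (ρ := r * δ) hA.y1
  have key : kD r δ y * √(RR r δ) ≤ 1917 / 1000 := by
    unfold kD
    rw [norm_sK hA.dom, div_mul_eq_mul_div, div_le_iff₀ hD, own2_D2 hA.dom]
    set ρ := r * δ with hρd
    have e1 : RR r δ = 1 + ρ ^ 2 := rfl
    have h1 : ρ * √(RR r δ) ≤ ρ ^ 2 + 1 / 2 := by
      refine abs_le_of_sq_le_sq' ?_ (by positivity) |>.2
      rw [mul_pow, Real.sq_sqrt (by rw [e1]; positivity), e1]
      nlinarith
    have hex : Real.exp y * Real.exp (-y) = 1 := by rw [← Real.exp_add]; simp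
    have hE := Real.exp_pos y
    have hE1 : 1 ≤ Real.exp y := Real.one_le_exp h0
    have hN := Real.exp_pos (-y)
    have hE2 : Real.exp y ≤ 1917 / 1000 :=
      (Real.exp_le_exp.2 hS.hi).trans own2_exp65
    have h2 : ρ * Real.exp (-y) * √(RR r δ) ≤ Real.exp (-y) * (ρ ^ 2 + 1 / 2) := by
      have := mul_le_mul_of_nonneg_left h1 hN.le
      linarith
    have hN1 : Real.exp (-y) ≤ 1 := by
      rw [Real.exp_le_one_iff]
      linarith
    have h3 : Real.exp (-y) * (ρ ^ 2 + 1 / 2) ≤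
        Real.exp y * (1 + 2 * y + (ρ * Real.exp (-y)) ^ 2) := by
      have e2 : Real.exp y * (1 + 2 * y + (ρ * Real.exp (-y)) ^ 2) =
          Real.exp y * (1 + 2 * y) + (Real.exp y * Real.exp (-y)) * (ρ ^ 2 * Real.exp (-y)) := by
        ring
      rw [e2, hex]
      have : (1 : ℝ) ≤ Real.exp y * (1 + 2 * y) := by
        calc (1 : ℝ) = 1 * 1 := by ring
          _ ≤ Real.exp y * (1 + 2 * y) := by gcongr; linarith
      linarith
    refine h2.trans (h3.trans ?_)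
    have h4 : 0 ≤ 1 + 2 * y + (ρ * Real.exp (-y)) ^ 2 := by positivity
    exact mul_le_mul_of_nonneg_right hE2 h4
  refine (own2_kD_of hP (by norm_num) key).trans ?_
  exact mul_le_mul_of_nonneg_right (by norm_num) hH.le

theorem own2_kD_neg {r δ y η : ℝ} (h : Reg2 r δ) (hA : At r δ y η) (hS : Sad2 r δ y)
    (h0 : y ≤ 0) : kD r δ y ≤ 67 / 10000 * HH 2 r δ := by
  have hP := h.toPar
  have hρ := hA.dom.1
  have hH := own2_Hpos hP
  have hlo := hS.lo
  have hD := sD2_pos (ρ := r * δ) hA.y1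
  have key : kD r δ y * √(RR r δ) ≤ 10478 / 10000 := by
    unfold kD
    rw [norm_sK hA.dom, div_mul_eq_mul_div, div_le_iff₀ hD, own2_D2 hA.dom]
    have hr16 := h.rho
    set ρ := r * δ with hρd
    have e1 : RR r δ = 1 + ρ ^ 2 := rfl
    have h1 : √(RR r δ) ≤ 10478 / 10000 * ρ := by
      refine abs_le_of_sq_le_sq' ?_ (by positivity) |>.2
      rw [Real.sq_sqrt (by rw [e1]; positivity), e1]
      nlinarith
    have hN1 : 1 ≤ Real.exp (-y) := Real.one_le_exp (by linarith)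
    have hN := Real.exp_pos (-y)
    calc ρ * Real.exp (-y) * √(RR r δ) ≤ ρ * Real.exp (-y) * (10478 / 10000 * ρ) := by gcongr
      _ ≤ 10478 / 10000 * (ρ * Real.exp (-y)) ^ 2 := by
          have : 0 ≤ 10478 / 10000 * ρ ^ 2 * Real.exp (-y) * (Real.exp (-y) - 1) := by
            have : 0 ≤ Real.exp (-y) - 1 := by linarith
            positivity
          nlinarith
      _ ≤ 10478 / 10000 * (1 + 2 * y + (ρ * Real.exp (-y)) ^ 2) := by
          have : 0 ≤ 1 + 2 * y := by linarith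
          nlinarith
  refine (own2_kD_of hP (by norm_num) key).trans ?_
  exact mul_le_mul_of_nonneg_right (by norm_num) hH.le

/-- `‖κ‖/D ≤ r/ρ` -/
theorem own2_kap_le {r δ y η : ℝ} (h : Reg2 r δ) (hA : At r δ y η) (hS : Sad2 r δ y) :
    ‖kap r δ y‖ / sD (r * δ) y ≤ r / (r * δ) := by
  have hρ := hA.dom.1
  have hlo := hS.lo
  have hr := h.r0
  have hδ := h.d0
  have hN := Real.exp_pos (-y)
  have hDp : 0 < sD (r * δ) y := Real.sqrt_pos.2 (sD2_pos hA.y1)
  have hn : ‖kap r δ y‖ = r * Real.exp (-y) := by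
    unfold kap
    rw [norm_div, norm_sK hA.dom, Complex.norm_real, Real.norm_of_nonneg hδ.le]
    field_simp
  have h1 : r * δ * Real.exp (-y) ≤ sD (r * δ) y := by
    unfold sD
    apply Real.le_sqrt_of_sq_le
    rw [own2_D2 hA.dom]
    linarith
  rw [hn, div_le_div_iff₀ hDp hρ]
  have := mul_le_mul_of_nonneg_left h1 (by linarith : 0 ≤ r)
  linarith

theorem own2_kap {r δ y η : ℝ} (h : Reg2 r δ) (hA : At r δ y η) (hS : Sad2 r δ y) :
    ‖kap r δ y‖ / sD (r * δ) y ≤ 10 / 512 * HH 2 r δ ^ 2 := by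
  refine (own2_kap_le h hA hS).trans ?_
  have hρ := hA.dom.1
  have hr16 := h.rho
  have hr := h.r0
  have hG := h.G
  have hp : (31415 / 10000 : ℝ) ≤ Real.pi := by
    have := Real.pi_gt_d4
    norm_num at this ⊢
    linarith
  have hR : 0 < RR r δ := by unfold RR; positivity
  have e1 : RR r δ = 1 + (r * δ) ^ 2 := rfl
  have hGr : Gm 2 r δ * RR r δ = r * Real.pi ^ 2 := by
    unfold Gm
    rw [own2_hst]
    field_simp
  have hrp : (4924 / 10 : ℝ) ≤ r * Real.pi ^ 2 := by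
    calc (4924 / 10 : ℝ) ≤ 499 / 10 * (31415 / 10000) ^ 2 := by norm_num
      _ ≤ r * Real.pi ^ 2 := by gcongr
  rw [own2_Hsq, div_le_iff₀ hρ]
  -- `51.2 ≤ Γ ρ`
  suffices hs : 512 / 10 ≤ Gm 2 r δ * (r * δ) by
    have := mul_le_mul_of_nonneg_right hs (by linarith : 0 ≤ r)
    nlinarith
  set ρ := r * δ with hρd
  set G := Gm 2 r δ with hGd
  rw [e1] at hGr
  rcases le_total (9485 / 1000) ρ with h1 | h1
  · calc (512 / 10 : ℝ) ≤ 27 / 5 * (9485 / 1000) := by norm_num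
      _ ≤ G * ρ := by gcongr
  · have h2 : 4924 / 10 ≤ G * (1 + ρ ^ 2) := by linarith
    have h3 : 512 / 10 * (1 + ρ ^ 2) ≤ 4924 / 10 * ρ := by nlinarith
    have h4 : 4924 / 10 * ρ ≤ G * (1 + ρ ^ 2) * ρ := mul_le_mul_of_nonneg_right h2 hρ.le
    have h5 : 512 / 10 * (1 + ρ ^ 2) ≤ (G * ρ) * (1 + ρ ^ 2) := by linarith
    exact le_of_mul_le_mul_right h5 (by positivity)

theorem own2_kap10 {r δ y η : ℝ} (h : Reg2 r δ) (hA : At r δ y η) (hS : Sad2 r δ y)
    (hG : 10 ≤ Gm 2 r δ) :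
    ‖kap r δ y‖ / sD (r * δ) y ≤ 10 / 694 * HH 2 r δ ^ 2 := by
  refine (own2_kap_le h hA hS).trans ?_
  have hρ := hA.dom.1
  have hr16 := h.rho
  have hr := h.r0
  have hp : (31415 / 10000 : ℝ) ≤ Real.pi := by
    have := Real.pi_gt_d4
    norm_num at this ⊢
    linarith
  have hR : 0 < RR r δ := by unfold RR; positivity
  have e1 : RR r δ = 1 + (r * δ) ^ 2 := rfl
  have hGr : Gm 2 r δ * RR r δ = r * Real.pi ^ 2 := by
    unfold Gm
    rw [own2_hst]
    field_simp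
  have hrp : (4924 / 10 : ℝ) ≤ r * Real.pi ^ 2 := by
    calc (4924 / 10 : ℝ) ≤ 499 / 10 * (31415 / 10000) ^ 2 := by norm_num
      _ ≤ r * Real.pi ^ 2 := by gcongr
  rw [own2_Hsq, div_le_iff₀ hρ]
  suffices hs : 694 / 10 ≤ Gm 2 r δ * (r * δ) by
    have := mul_le_mul_of_nonneg_right hs (by linarith : 0 ≤ r)
    nlinarith
  set ρ := r * δ with hρd
  set G := Gm 2 r δ with hGd
  rw [e1] at hGr
  rcases le_total (694 / 100) ρ with h1 | h1
  · calc (694 / 10 : ℝ) ≤ 10 * (694 / 100) := by norm_num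
      _ ≤ G * ρ := by gcongr
  · have h2 : 4924 / 10 ≤ G * (1 + ρ ^ 2) := by linarith
    have h3 : 694 / 10 * (1 + ρ ^ 2) ≤ 4924 / 10 * ρ := by nlinarith
    have h4 : 4924 / 10 * ρ ≤ G * (1 + ρ ^ 2) * ρ := mul_le_mul_of_nonneg_right h2 hρ.le
    have h5 : 694 / 10 * (1 + ρ ^ 2) ≤ (G * ρ) * (1 + ρ ^ 2) := by linarith
    exact le_of_mul_le_mul_right h5 (by positivity)

/-- The general form. -/
theorem own2_gen {r δ y η s1 τ0 τ1 τ2 c2 ep en E k v : ℝ} (h : Reg2 r δ) (hA : At r δ y η)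
    (hS : Sad2 r δ y) (hE : E < 1)
    (hs1 : 3 / 2 ≤ s1 ∨ s1 = 1 + sx (r * δ) y) (hs2 : s1 ≤ 1 + sx (r * δ) y) (hys : |y| < (1 + sx (r * δ) y)⁻¹ * s1)
    (p0 : 155 / 2000 + τ0 ≤ ep) (p1 : ep ≤ E)
    (pk : 7942 / 10000 * (1223 / 100000) + τ1 ≤ k * (1 - ep))
    (pv : ((1 - ep) + 218 / 1000) * c2 + τ2 ≤ v * (1 - ep))
    (n0 : 1006 / 10000 + τ0 ≤ en) (n1 : en ≤ E)
    (nk : 11536 / 10000 * (67 / 10000) + τ1 ≤ k * (1 - en))
    (nv : ((1 - en) + 5287 / 10000) * c2 + τ2 ≤ v * (1 - en))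
    (hc : ‖kap r δ y‖ / sD (r * δ) y ≤ c2 * HH 2 r δ ^ 2)
    (t0 : Tls r δ y s1 (fun _ => 1) ≤ τ0 * sG r δ y)
    (t1 : ‖kap r δ y‖ / sD (r * δ) y * Tls r δ y s1 gs ≤ τ1 * HH 2 r δ * sG r δ y)
    (t2 : ‖kap r δ y‖ / sD (r * δ) y * Tls r δ y s1 (fun σ => σ * gs σ) ≤
      τ2 * HH 2 r δ ^ 2 * (δ * sG r δ y)) :
    Own r δ y E (k * HH 2 r δ) (v * HH 2 r δ ^ 2) := by
  have hP := h.toPar
  have hH := own2_Hpos hP
  have hlo := hS.lo
  have hhi := hS.hi
  have hH2 : 0 < HH 2 r δ ^ 2 := by positivity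
  rcases le_total 0 y with hy | hy
  · have he : 0 < 1 - ep := by linarith
    have key := own_pos_s1 (e := ep) (a := 7942 / 10000 / (1 - ep)) (v0 := 1 + 218 / 1000 / (1 - ep))
      (τ0 := τ0) (τ1 := τ1 * HH 2 r δ / (1 - ep)) (τ2 := τ2 * HH 2 r δ ^ 2 / (1 - ep))
      h.r0 h.d0 hs1 hs2 hys hA.dom hy (by linarith) (by linarith) p0
      (by rw [div_mul_cancel₀ _ he.ne']) (by rw [add_sub_cancel_left, div_mul_cancel₀ _ he.ne'])
      t0 (by
        refine t1.trans (le_of_eq ?_)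
        field_simp) (by
        refine t2.trans (le_of_eq ?_)
        field_simp)
    refine key.mono hA.y1 p1 ?_ ?_
    · have hk := own2_kD_pos h hA hS hy
      rw [div_mul_eq_mul_div, ← add_div, div_le_iff₀ he]
      have h1 : 7942 / 10000 * kD r δ y ≤ 7942 / 10000 * (1223 / 100000 * HH 2 r δ) := by gcongr
      have h2 := mul_le_mul_of_nonneg_right pk hH.le
      linarith
    · have h3 : (1 + 218 / 1000 / (1 - ep)) * (‖kap r δ y‖ / sD (r * δ) y) ≤
          (1 + 218 / 1000 / (1 - ep)) * (c2 * HH 2 r δ ^ 2) := by gcongr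
      refine (add_le_add_left h3 _).trans ?_
      have h4 := mul_le_mul_of_nonneg_right pv hH2.le
      have e1 : (1 + 218 / 1000 / (1 - ep)) * (c2 * HH 2 r δ ^ 2) + τ2 * HH 2 r δ ^ 2 / (1 - ep) =
          ((((1 - ep) + 218 / 1000) * c2 + τ2) * HH 2 r δ ^ 2) / (1 - ep) := by
        field_simp
      rw [e1, div_le_iff₀ he]
      linarith
  · have he : 0 < 1 - en := by linarith
    have hF : NegF (sx (r * δ) y) y := by
      refine negF_sad (by linarith) hy (hS.T.trans ?_) (le_trans (by norm_num) hS.D)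
      exact mul_le_mul_of_nonneg_right (by norm_num) (sx_nonneg _ _)
    have key := own_neg_s1 (e := en) (a := 11536 / 10000 / (1 - en)) (v0 := 1 + 5287 / 10000 / (1 - en))
      (τ0 := τ0) (τ1 := τ1 * HH 2 r δ / (1 - en)) (τ2 := τ2 * HH 2 r δ ^ 2 / (1 - en))
      h.r0 h.d0 hs1 hs2 hys hA.dom hF (by linarith) n0
      (by rw [div_mul_cancel₀ _ he.ne']) (by rw [add_sub_cancel_left, div_mul_cancel₀ _ he.ne'])
      t0 (by
        refine t1.trans (le_of_eq ?_)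
        field_simp) (by
        refine t2.trans (le_of_eq ?_)
        field_simp)
    refine key.mono hA.y1 n1 ?_ ?_
    · have hk := own2_kD_neg h hA hS hy
      rw [div_mul_eq_mul_div, ← add_div, div_le_iff₀ he]
      have h1 : 11536 / 10000 * kD r δ y ≤ 11536 / 10000 * (67 / 10000 * HH 2 r δ) := by gcongr
      have h2 := mul_le_mul_of_nonneg_right nk hH.le
      linarith
    · have h3 : (1 + 5287 / 10000 / (1 - en)) * (‖kap r δ y‖ / sD (r * δ) y) ≤
          (1 + 5287 / 10000 / (1 - en)) * (c2 * HH 2 r δ ^ 2) := by gcongr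
      refine (add_le_add_left h3 _).trans ?_
      have h4 := mul_le_mul_of_nonneg_right nv hH2.le
      have e1 : (1 + 5287 / 10000 / (1 - en)) * (c2 * HH 2 r δ ^ 2) + τ2 * HH 2 r δ ^ 2 / (1 - en) =
          ((((1 - en) + 5287 / 10000) * c2 + τ2) * HH 2 r δ ^ 2) / (1 - en) := by
        field_simp
      rw [e1, div_le_iff₀ he]
      linarith

/-- The tails: the statement which the four classes need (class `a`, `b`, `c`, `d`); the path is
`h = a + i s`, `a = clamp (c s) (± c s₁)`, `c = 1/(1+x)`. -/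
structure T2 (r δ y s1 τ0 τ1 τ2 : ℝ) : Prop where
  s1a : 3 / 2 ≤ s1 ∨ s1 = 1 + sx (r * δ) y
  s1b : s1 ≤ 1 + sx (r * δ) y
  s1c : |y| < (1 + sx (r * δ) y)⁻¹ * s1
  t0 : Tls r δ y s1 (fun _ => 1) ≤ τ0 * sG r δ y
  t1 : ‖kap r δ y‖ / sD (r * δ) y * Tls r δ y s1 gs ≤ τ1 * HH 2 r δ * sG r δ y
  t2 : ‖kap r δ y‖ / sD (r * δ) y * Tls r δ y s1 (fun σ => σ * gs σ) ≤
      τ2 * HH 2 r δ ^ 2 * (δ * sG r δ y)

/-- the field `own` from the tails -/
theorem p2_own_of {r δ y η s1 : ℝ} (h : Reg2 r δ) (hA : At r δ y η) (hS : Sad2 r δ y)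
    (t : T2 r δ y s1 (28 / 1000) (38 / 1000) (77 / 1000)) :
    Own r δ y (13 / 100) (11 / 200 * HH 2 r δ) (3 / 25 * HH 2 r δ ^ 2) :=
  own2_gen (ep := 11 / 100) (en := 13 / 100) h hA hS (by norm_num) t.s1a t.s1b t.s1c (by norm_num) (by norm_num)
    (by norm_num) (by norm_num) (by norm_num) (by norm_num) (by norm_num) (by norm_num)
    (own2_kap h hA hS) t.t0 t.t1 t.t2

/-- the field `own` from the tails, `Γ ≥ 10` -/
theorem p2_own_of10 {r δ y η s1 : ℝ} (h : Reg2 r δ) (hA : At r δ y η) (hS : Sad2 r δ y)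
    (hG : 10 ≤ Gm 2 r δ) (t : T2 r δ y s1 (28 / 1000) (38 / 1000) (82 / 1000)) :
    Own r δ y (13 / 100) (11 / 200 * HH 2 r δ) (3 / 25 * HH 2 r δ ^ 2) :=
  own2_gen (ep := 11 / 100) (en := 13 / 100) h hA hS (by norm_num) t.s1a t.s1b t.s1c
    (by norm_num) (by norm_num) (by norm_num) (by norm_num) (by norm_num) (by norm_num)
    (by norm_num) (by norm_num) (own2_kap10 h hA hS hG) t.t0 t.t1 t.t2

/-- the field `own2` from the tails -/
theorem p2_own2_of {r δ y η s1 : ℝ} (h : Reg2 r δ) (hA : At r δ y η) (hS : Sad2 r δ y)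
    (hG : 10 ≤ Gm 2 r δ) (t : T2 r δ y s1 (35 / 1000) (56 / 1000) (150 / 1000)) :
    Own r δ y (1 / 4) (2 / 25 * HH 2 r δ) (1 / 5 * HH 2 r δ ^ 2) :=
  own2_gen (ep := 1125 / 10000) (en := 1356 / 10000) h hA hS (by norm_num) t.s1a t.s1b t.s1c (by norm_num)
    (by norm_num) (by norm_num) (by norm_num) (by norm_num) (by norm_num) (by norm_num)
    (by norm_num) (own2_kap10 h hA hS hG) t.t0 t.t1 t.t2

/-- the field `ownA` from the tails -/
theorem p2_ownA_of {r δ y η s1 : ℝ} (h : Reg2 r δ) (hA : At r δ y η) (hS : Sad2 r δ y)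
    (t : T2 r δ y s1 (110 / 1000) (225 / 1000) (447 / 1000)) :
    Own r δ y (1 / 4) (3 / 10 * HH 2 r δ) (3 / 5 * HH 2 r δ ^ 2) :=
  own2_gen (ep := 1875 / 10000) (en := 2106 / 10000) h hA hS (by norm_num) t.s1a t.s1b t.s1c (by norm_num)
    (by norm_num) (by norm_num) (by norm_num) (by norm_num) (by norm_num) (by norm_num)
    (by norm_num) (own2_kap h hA hS) t.t0 t.t1 t.t2

/-- the field `ownA2` from the tails -/
theorem p2_ownA2_of {r δ y η s1 : ℝ} (h : Reg2 r δ) (hA : At r δ y η) (hS : Sad2 r δ y)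
    (t : T2 r δ y s1 (90 / 1000) (188 / 1000) (378 / 1000)) :
    Own r δ y (1 / 4) (1 / 4 * HH 2 r δ) (1 / 2 * HH 2 r δ ^ 2) :=
  own2_gen (ep := 1675 / 10000) (en := 1906 / 10000) h hA hS (by norm_num) t.s1a t.s1b t.s1c (by norm_num)
    (by norm_num) (by norm_num) (by norm_num) (by norm_num) (by norm_num) (by norm_num)
    (by norm_num) (own2_kap h hA hS) t.t0 t.t1 t.t2

end SokalV3
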