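import Pool.Agent.Lib_MP_af4de1_v3.OutLE
import Pool.Agent.Lib_MP_af4de1_v3.OutLB
import Pool.Agent.Lib_MP_af4de1_v3.OutLC
import Pool.Agent.Lib_MP_af4de1_v3.OutLG
import Pool.Agent.Lib_MP_af4de1_v3.T2Com

/-!
# `P2.outL`
-/

set_option autoImplicit false

namespace SokalP2O

open Real Set SokalF1G SokalF1S SokalF1M MeasureTheory SokalPG SokalV3

/-- case `10 ≤ Γ < 20` -/
theorem outL_endB {x y ρ η ψ W D : ℝ} (G : GeL x y ρ η ψ W D) {d z j : ℝ}
    (hη : η = 65 / 100 * π) (hρ : 485 / 100 ≤ ρ) (hrd : 499 / 10 ≤ ρ * d)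
    (hd : 1013 / 1000 * (ρ + 1 / ρ) ≤ d) (hy : 0 < y)
    (hz : z = 0 ∨ z = π - η) (hj0 : 0 ≤ j) (hj1 : j ≤ 1)
    (hf : Integrable (fL (3 / 8 * y) (19 / 4) x y z d j)) :
    ∫ s, fL (3 / 8 * y) (19 / 4) x y z d j s ≤ 27 / 20 * sg d D := by
  have hp := Real.pi_gt_d4
  have hp2 := Real.pi_lt_d4
  obtain ⟨h1, h2, h3, h4, h5, h6⟩ := outL_numB G hη hρ hrd hd
  have hd0 : 0 < d := by
    by_contra h
    have : y * d ≤ 0 := mul_nonpos_of_nonneg_of_nonpos hy.le (not_lt.1 h)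
    linarith
  refine outL_end G (lam := 3 / 8) (tau := 25 / 32) (M := 6 / 5) (kW := 111 / 100)
    (L := 206 / 100) hd0 hy (by norm_num) (by norm_num) (by norm_num) (by linarith) (by linarith)
    (by linarith) (by linarith) h1 (by linarith) hrd (by linarith) (by linarith) hz hj0 hj1
    (by norm_num) (by norm_num) (by norm_num) h3 h4 (by norm_num) h5 h6 ?_ ?_ hf
  · have k1 : exp (-(3 / 5) - 25 / 32 * (206 / 100) * (π - η)) ≤ 1354 / 10000 * (745 / 1000) := by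
      have e : -(3 / 5) - 25 / 32 * (206 / 100) * (π - η) ≤ -2 + -(3 / 10) := by linarith
      refine (exp_le_exp.2 e).trans ?_
      rw [exp_add]
      refine mul_le_mul (ol_n2 le_rfl) ?_ (exp_pos _).le (by norm_num)
      refine (en_le2 (x := 3 / 10) (by norm_num)).trans (by norm_num)
    linarith
  · have k1 := ol_n1 (t := 61 / 10000 - (1 - 3 / 8) * (206 / 100) * (π - η)) (by linarith)
    linarith

/-- case `20 ≤ Γ` -/
theorem outL_endC {x y ρ η ψ W D : ℝ} (G : GeL x y ρ η ψ W D) {d z j : ℝ}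
    (hη : η = 60 / 100 * π) (hρ : 16 / 5 ≤ ρ) (hrd : 499 / 10 ≤ ρ * d)
    (hd : 2026 / 1000 * (ρ + 1 / ρ) ≤ d) (hy : 0 < y)
    (hz : z = 0 ∨ z = π - η) (hj0 : 0 ≤ j) (hj1 : j ≤ 1)
    (hf : Integrable (fL (1 / 3 * y) (19 / 4) x y z d j)) :
    ∫ s, fL (1 / 3 * y) (19 / 4) x y z d j s ≤ 27 / 20 * sg d D := by
  have hp := Real.pi_gt_d4
  have hp2 := Real.pi_lt_d4
  obtain ⟨h1, h3, h4, h5, h6⟩ := outL_numC G hη hρ hrd hd
  have h2 := G.y1
  have hd0 : 0 < d := by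
    by_contra h
    have : y * d ≤ 0 := mul_nonpos_of_nonneg_of_nonpos hy.le (not_lt.1 h)
    linarith
  refine outL_end G (lam := 1 / 3) (tau := 7 / 12) (M := 126 / 100) (kW := 121 / 100)
    (L := 381 / 100) hd0 hy (by norm_num) (by norm_num) (by norm_num) (by linarith) (by linarith)
    (by linarith) (by linarith) h1 (by linarith) hrd (by linarith) (by linarith) hz hj0 hj1
    (by norm_num) (by norm_num) (by norm_num) h3 h4 (by norm_num) h5 h6 ?_ ?_ hf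
  · have k1 := ol_n3 (t := -(3 / 5) - 7 / 12 * (381 / 100) * (π - η)) (by linarith)
    linarith
  · have k1 := ol_n1 (t := 61 / 10000 - (1 - 1 / 3) * (381 / 100) * (π - η)) (by linarith)
    linarith

theorem ol_cases {r δ : ℝ} (h : Reg2 r δ) :
    (694 / 100 ≤ r * δ ∧ eo2 r δ = 67 / 100 * π) ∨
    (10 ≤ Gm 2 r δ ∧ 485 / 100 ≤ r * δ ∧ eo2 r δ = 65 / 100 * π) ∨
    (20 ≤ Gm 2 r δ ∧ 16 / 5 ≤ r * δ ∧ eo2 r δ = 60 / 100 * π) := by
  obtain ⟨h0, h1, h2⟩ := reg2_facts h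
  by_cases h10 : Gm 2 r δ < 10
  · left
    refine ⟨h1 h10, ?_⟩
    unfold eo2 om2
    rw [hst_two, if_pos h10]
    ring
  · by_cases h20 : Gm 2 r δ < 20
    · right; left
      refine ⟨not_lt.mp h10, h2 h20, ?_⟩
      unfold eo2 om2
      rw [hst_two, if_neg h10, if_pos h20]
      ring
    · right; right
      refine ⟨not_lt.mp h20, h.rho, ?_⟩
      unfold eo2 om2
      rw [hst_two, if_neg h10, if_neg h20]
      ring

/-- **`P2.outL`** -/
theorem p2_outL : ∀ (r δ y ζ : ℝ), Reg2 r δ → At r δ y (eo2 r δ) → Sad2 r δ y →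
    0 ≤ ζ → eo2 r δ + ζ ≤ Real.pi → Out r δ y ζ (27 / 20) := by
  intro r δ y ζ h hA hS hζ hζ2
  have hp := Real.pi_gt_d4
  have hp2 := Real.pi_lt_d4
  obtain ⟨hy, ψ, W, D, G, hsG⟩ := outL_geo h hA hS
  have hδ := h.d0
  have hrd : 499 / 10 ≤ r * δ * (1 / δ) := by
    have : r * δ * (1 / δ) = r := by field_simp
    rw [this]; exact h.r0
  have hρ0 := G.r0
  rcases ol_cases h with ⟨h1, h2⟩ | ⟨h0, h1, h2⟩ | ⟨h0, h1, h2⟩
  · have hd := t2c_w1 h.toPar (G := 27 / 5) (g := 547 / 1000) h.G (by norm_num)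
    obtain ⟨-, hy1, -⟩ := outL_numA G h2 h1 hrd hd
    refine outL_red h hA hS hζ hζ2 (c := 47 / 100 * y) (by positivity) (by linarith) hy
      (by linarith) ?_
    intro z j hz hj0 hj1 hf
    rw [hsG]
    exact outL_endA G h2 h1 hrd hd hy hz hj0 hj1 hf
  · have hd := t2c_w1 h.toPar (G := 10) (g := 1013 / 1000) h0 (by norm_num)
    obtain ⟨-, hy1, -⟩ := outL_numB G h2 h1 hrd hd
    refine outL_red h hA hS hζ hζ2 (c := 3 / 8 * y) (by positivity) (by linarith) hy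
      (by linarith) ?_
    intro z j hz hj0 hj1 hf
    rw [hsG]
    exact outL_endB G h2 h1 hrd hd hy hz hj0 hj1 hf
  · have hd := t2c_w1 h.toPar (G := 20) (g := 2026 / 1000) h0 (by norm_num)
    have hy1 := G.y1
    refine outL_red h hA hS hζ hζ2 (c := 1 / 3 * y) (by positivity) (by linarith) hy
      (by linarith) ?_
    intro z j hz hj0 hj1 hf
    rw [hsG]
    exact outL_endC G h2 h1 hrd hd hy hz hj0 hj1 hf

end SokalP2O
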