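import Pool.Agent.Lib_MP_af4de1_v3.V3
import Pool.Agent.Lib_MP_af4de1_v3.SadBase
import Pool.Agent.Lib_MP_af4de1_f1.GTay

/-!
# Piece `PSad1.sad`, the case `Γ ≥ 10`
-/

set_option autoImplicit false

namespace SokalV3

open Real Set SokalF1 SokalF1S

theorem sD2_sadB {ρ y : ℝ} (h : Dom ρ y) : sD2 ρ y = 1 + 2 * y + (ρ * Real.exp (-y)) ^ 2 := by
  unfold sD2
  rw [sx_sq h]; ring

theorem kD_sadB {r δ y : ℝ} (h : Dom (r * δ) y) :
    kD r δ y = r * δ * Real.exp (-y) / (1 + 2 * y + (r * δ * Real.exp (-y)) ^ 2) := by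
  unfold kD
  rw [norm_sK h, sD2_sadB h]

theorem sin_066_sadB : (612 / 1000 : ℝ) ≤ Real.sin (66 / 100) := by
  have := SokalF1G.sin_ge3 (x := 66 / 100) (by norm_num)
  norm_num at this ⊢
  linarith

/-- `tan ψ > 4/5` implies `ψ > .66` (in the form `4 cos ψ < 5 sin ψ`) -/
theorem psi_gt_sadB {ψ : ℝ} (h0 : 0 ≤ ψ) (h1 : ψ ≤ π / 2) (h : 4 * Real.cos ψ < 5 * Real.sin ψ) :
    66 / 100 < ψ := by
  by_contra hc
  push Not at hc
  have h2 := SokalF1G.sin_le5 (x := 66 / 100) (by norm_num)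
  have h3 := SokalF1G.cos_ge2 (x := 66 / 100)
  have h4 : Real.sin ψ ≤ Real.sin (66 / 100) :=
    Real.sin_le_sin_of_le_of_le_pi_div_two (by linarith) (by linarith [Real.pi_gt_three]) hc
  have h5 : Real.cos (66 / 100) ≤ Real.cos ψ :=
    Real.cos_le_cos_of_nonneg_of_le_pi h0 (by linarith [Real.pi_gt_three]) hc
  norm_num at h2 h3
  linarith

/-- the left side -/
theorem coreT_pos {ρ y e : ℝ} (h : Dom ρ y) (hy : 0 ≤ y) (he : sE ρ y ≤ e)
    (hc : e ≤ 6284 / 10000 ∨ (e ≤ ρ + 95 / 1000 ∧ e ≤ 7541 / 10000) ∨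
      (e ≤ ρ - 17 / 100 ∧ e ≤ 13615 / 10000)) : y ≤ 4 / 5 * sx ρ y := by
  by_contra hcon
  push Not at hcon
  have hρ := h.1
  have hψ0 := sP_nonneg (y := y) hρ hy
  have hψ1 := (abs_le.1 (sP_abs_le ρ y)).2
  have hyr := y_eq h
  have hxr := sx_eq h
  have hle := sP_le_sE h hy
  have h2y := two_y_le h hy
  have hη : sE ρ y = sP ρ y + ρ - sx ρ y := rfl
  set ψ := sP ρ y with hψ
  have hp : 0 < ρ * Real.exp (-y) := by have := Real.exp_pos (-y); positivity
  have h5 : 4 * Real.cos ψ < 5 * Real.sin ψ := by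
    have : ρ * Real.exp (-y) * (4 * Real.cos ψ) < ρ * Real.exp (-y) * (5 * Real.sin ψ) := by
      linarith
    exact lt_of_mul_lt_mul_left this hp.le
  have h66 := psi_gt_sadB hψ0 hψ1 h5
  rcases hc with hc | ⟨hc1, hc2⟩ | ⟨hc1, hc2⟩
  · linarith
  · have : 452 / 1000 ≤ y := by linarith
    nlinarith
  · have : 664 / 1000 ≤ y := by linarith
    nlinarith

/-- `-sE`, polar form: with `ψ = -sP ρ (-t)`. -/
theorem neg_form_sadB {ρ t : ℝ} (h : Dom ρ (-t)) :
    t = ρ * Real.exp t * Real.sin (-sP ρ (-t)) ∧ sx ρ (-t) = ρ * Real.exp t * Real.cos (-sP ρ (-t)) ∧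
      -sE ρ (-t) = -sP ρ (-t) + sx ρ (-t) - ρ := by
  have hyr := y_eq h
  have hxr := sx_eq h
  rw [neg_neg] at hyr hxr
  refine ⟨?_, ?_, ?_⟩
  · rw [Real.sin_neg]; linear_combination -hyr
  · rw [Real.cos_neg]; exact hxr
  · unfold sE; ring

/-- (a') `t ≤ .53` -/
theorem core_t {ρ t e : ℝ} (h : Dom ρ (-t)) (ht : 0 ≤ t) (ht1 : t < 1) (he : -sE ρ (-t) ≤ e)
    (hc : e ≤ 7541 / 10000 ∨ (e ≤ 9426 / 10000 ∧ 11148 / 10000 ≤ ρ) ∨
      (e ≤ 12567 / 10000 ∧ 1728 / 1000 ≤ ρ) ∨ (e ≤ 13615 / 10000 ∧ 2 ≤ ρ)) : t ≤ 53 / 100 := by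
  by_contra hcon
  push Not at hcon
  have hρ := h.1
  have hD : Dom ρ (-(53 / 100)) := by
    refine ⟨hρ, ?_⟩
    have h1 := h.2
    have h2 := strictMonoOn_mul_exp.monotoneOn (mem_Ici.2 (by linarith : (-1 : ℝ) ≤ -t))
      (mem_Ici.2 (by norm_num : (-1 : ℝ) ≤ -(53 / 100))) (by linarith)
    rw [abs_neg, abs_of_nonneg ht] at h1
    rw [abs_neg, abs_of_nonneg (by norm_num : (0 : ℝ) ≤ 53 / 100)]
    linarith
  have hmono := (sE_strictMonoOn h (dom_zero hρ) (by linarith)).monotoneOn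
    (left_mem_Icc.2 (by linarith)) (show (-(53 / 100) : ℝ) ∈ Icc (-t) 0 from ⟨by linarith, by norm_num⟩)
    (by linarith)
  have hE := sE_le_neg hD (by norm_num) (by norm_num)
  have e1 := SokalF1G.e_ge3 (x := 53 / 100) (by norm_num)
  have e2 := SokalF1G.en_ge3 (x := 53 / 100) (by norm_num)
  norm_num at e1 e2
  have h3 : (695 / 1000 : ℝ) * ρ ≤ ρ * (Real.exp (53 / 100) - 1) := by nlinarith
  have h4 : (228 / 1000 : ℝ) / ρ ≤ (53 / 100 - (53 / 100) ^ 2 / 2) * Real.exp (-(53 / 100)) / ρ := by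
    apply div_le_div_of_nonneg_right _ hρ.le
    nlinarith
  have h5 : 695 / 1000 * ρ + 228 / 1000 / ρ ≤ e := by linarith
  have h6 : 695 / 1000 * ρ ^ 2 + 228 / 1000 ≤ e * ρ := by
    have := mul_le_mul_of_nonneg_right h5 hρ.le
    have e6 : (695 / 1000 * ρ + 228 / 1000 / ρ) * ρ = 695 / 1000 * ρ ^ 2 + 228 / 1000 := by
      field_simp
    linarith
  rcases hc with hc | ⟨hc1, hc2⟩ | ⟨hc1, hc2⟩ | ⟨hc1, hc2⟩
  · nlinarith [sq_nonneg (ρ - 54 / 100)]
  · nlinarith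
  · nlinarith
  · nlinarith

/-- (b') `t ≤ .8 x` -/
theorem coreT_neg {ρ t e : ℝ} (h : Dom ρ (-t)) (ht : 0 ≤ t) (ht1 : t ≤ 53 / 100)
    (he : -sE ρ (-t) ≤ e) (hc : e ≤ 6284 / 10000 ∨ 6 / 10 ≤ ρ) : t ≤ 4 / 5 * sx ρ (-t) := by
  by_contra hcon
  push Not at hcon
  have hρ := h.1
  have hψ0 := sP_nonpos (y := -t) hρ (by linarith)
  have hψ1 := (abs_le.1 (sP_abs_le ρ (-t))).1
  obtain ⟨f1, f2, f3⟩ := neg_form_sadB h
  set ψ := -sP ρ (-t) with hψ
  have hp : 0 < ρ * Real.exp t := by have := Real.exp_pos t; positivity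
  have h0 : 0 ≤ ψ := by rw [hψ]; linarith
  have h1 : ψ ≤ π / 2 := by rw [hψ]; linarith
  have h5 : 4 * Real.cos ψ < 5 * Real.sin ψ := by
    have : ρ * Real.exp t * (4 * Real.cos ψ) < ρ * Real.exp t * (5 * Real.sin ψ) := by
      linarith
    exact lt_of_mul_lt_mul_left this hp.le
  have h66 := psi_gt_sadB h0 h1 h5
  have hs : Real.sin (66 / 100) ≤ Real.sin ψ :=
    Real.sin_le_sin_of_le_of_le_pi_div_two (by linarith [Real.pi_gt_three]) h1 h66.le
  have hs0 := sin_066_sadB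
  have e1 := exp_mul_neg t
  have hen := SokalF1G.en_le2 ht
  -- `ρ sin ψ = t e^{-t}`
  have f4 : ρ * Real.sin ψ = t * Real.exp (-t) := by
    linear_combination (-(Real.exp (-t))) * f1 - (ρ * Real.sin ψ) * e1
  have f5 : t * Real.exp (-t) ≤ t * (1 - t + t ^ 2 / 2) := mul_le_mul_of_nonneg_left hen ht
  rcases hc with hc | hc
  · have h2t := two_t_le h ht (by linarith)
    have ht3 : t ≤ 3906 / 10000 := by nlinarith
    -- `sin ψ (-sE) = ψ sin ψ + t cos ψ - t e^{-t}`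
    have f6 : Real.sin ψ * (-sE ρ (-t)) = ψ * Real.sin ψ + t * Real.cos ψ - t * Real.exp (-t) := by
      rw [f3, f2]
      linear_combination (-(Real.cos ψ)) * f1 - f4
    have hsp : 0 < Real.sin ψ := by linarith
    have f7 : Real.sin ψ * (-sE ρ (-t)) ≤ Real.sin ψ * (6284 / 10000) :=
      mul_le_mul_of_nonneg_left (by linarith) hsp.le
    have hcos := SokalF1G.cos_ge2 (x := ψ)
    have hc1 := Real.cos_le_one ψ
    have f8 : ψ * Real.sin ψ - (1 - Real.cos ψ) ^ 2 / (32 / 10) ≤ Real.sin ψ * (6284 / 10000) := by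
      nlinarith [sq_nonneg (t - (1 - Real.cos ψ) / (16 / 10)), mul_nonneg ht (mul_nonneg ht
        (by linarith : (0 : ℝ) ≤ 4 / 10 - t))]
    have f9 : (1 - Real.cos ψ) ^ 2 ≤ (ψ ^ 2 / 2) ^ 2 :=
      pow_le_pow_left₀ (by linarith) (by linarith) 2
    have hsin := SokalF1G.sin_ge3 (x := ψ) h0
    have f10 : (ψ - 6284 / 10000) * (ψ - ψ ^ 3 / 6) ≤ ψ ^ 4 / (128 / 10) := by
      have : (ψ - 6284 / 10000) * (ψ - ψ ^ 3 / 6) ≤ (ψ - 6284 / 10000) * Real.sin ψ :=
        mul_le_mul_of_nonneg_left hsin (by linarith)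
      nlinarith
    have hψ2 : ψ ≤ 1571 / 1000 := by
      have := Real.pi_lt_d4
      linarith
    have hψp : 0 < ψ := by linarith
    have f11 : (ψ - 6284 / 10000) * (1 - ψ ^ 2 / 6) ≤ ψ ^ 3 / (128 / 10) := by
      have e11 : ψ * ((ψ - 6284 / 10000) * (1 - ψ ^ 2 / 6)) ≤ ψ * (ψ ^ 3 / (128 / 10)) := by
        nlinarith
      exact le_of_mul_le_mul_left e11 hψp
    nlinarith [mul_nonneg (by linarith : (0 : ℝ) ≤ ψ - 66 / 100) (by linarith : (0 : ℝ) ≤ 1571 / 1000 - ψ),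
      mul_nonneg (mul_nonneg (by linarith : (0 : ℝ) ≤ ψ - 66 / 100)
        (by linarith : (0 : ℝ) ≤ 1571 / 1000 - ψ)) hψp.le]
  · nlinarith [mul_nonneg ht ht, mul_nonneg (mul_nonneg ht ht) ht]

/-- (c') the case of small `η` -/
theorem coreD_neg {ρ t e : ℝ} (h : Dom ρ (-t)) (ht : 0 ≤ t) (ht1 : t ≤ 53 / 100)
    (he : -sE ρ (-t) ≤ e) (hc : e ≤ 6284 / 10000 ∨ 4354 / 10000 ≤ ρ ^ 2) :
    13 / 20 ≤ sD2 ρ (-t) := by
  have hρ := h.1
  rw [sD2_sadB h, neg_neg]
  have hE := Real.exp_pos t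
  have hp : 0 < ρ * Real.exp t := by positivity
  rcases hc with hc | hc
  · by_contra hcon
    push Not at hcon
    set p := ρ * Real.exp t with hpdef
    have hEn := sE_le_neg h ht (by linarith)
    have e1 := exp_mul_neg t
    have hen := SokalF1G.en_le2 ht
    have h2t := two_t_le h ht (by linarith)
    have ht3 : t ≤ 3906 / 10000 := by nlinarith
    have g1 : ρ * (Real.exp t - 1) = p * (1 - Real.exp (-t)) := by
      rw [hpdef]; linear_combination ρ * e1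
    have g2 : (t - t ^ 2 / 2) * Real.exp (-t) / ρ = (t - t ^ 2 / 2) / p := by
      rw [hpdef, div_eq_div_iff hρ.ne' hp.ne']
      linear_combination ((t - t ^ 2 / 2) * ρ) * e1
    rw [g1, g2] at hEn
    have g3 : p * (t - t ^ 2 / 2) ≤ p * (1 - Real.exp (-t)) :=
      mul_le_mul_of_nonneg_left (by linarith) hp.le
    have g4 : p * (t - t ^ 2 / 2) + (t - t ^ 2 / 2) / p ≤ 6284 / 10000 := by linarith
    have g5 : (p ^ 2 + 1) * (t - t ^ 2 / 2) ≤ 6284 / 10000 * p := by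
      have := mul_le_mul_of_nonneg_right g4 hp.le
      have e5 : (p * (t - t ^ 2 / 2) + (t - t ^ 2 / 2) / p) * p = (p ^ 2 + 1) * (t - t ^ 2 / 2) := by
        field_simp
      linarith
    have g6 : (p ^ 2 + 35 / 100) / 2 ≤ t := by linarith
    have g7 : (p ^ 2 + 35 / 100) / 2 - ((p ^ 2 + 35 / 100) / 2) ^ 2 / 2 ≤ t - t ^ 2 / 2 := by
      nlinarith [mul_nonneg (sub_nonneg.2 g6) (by nlinarith : (0 : ℝ) ≤ 2 - t - (p ^ 2 + 35 / 100) / 2)]
    have g8 : (p ^ 2 + 1) * ((p ^ 2 + 35 / 100) / 2 - ((p ^ 2 + 35 / 100) / 2) ^ 2 / 2) ≤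
        6284 / 10000 * p := (mul_le_mul_of_nonneg_left g7 (by positivity)).trans g5
    have g9 : p ^ 2 ≤ 4356 / 10000 := by nlinarith
    have g10 : p ^ 6 ≤ 4356 / 10000 * p ^ 4 := by
      have : p ^ 6 = p ^ 2 * p ^ 4 := by ring
      rw [this]
      exact mul_le_mul_of_nonneg_right g9 (by positivity)
    nlinarith [sq_nonneg (p ^ 2 - 22 / 100), sq_nonneg (p - 4657 / 10000)]
  · have h2 : 1 + 2 * t + 2 * t ^ 2 ≤ Real.exp t ^ 2 := by
      have := Real.quadratic_le_exp_of_nonneg (x := 2 * t) (by positivity)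
      have e2 : Real.exp (2 * t) = Real.exp t ^ 2 := by
        rw [← Real.exp_nat_mul]; norm_num
      rw [e2] at this
      nlinarith
    have h3 : 4354 / 10000 * (1 + 2 * t + 2 * t ^ 2) ≤ (ρ * Real.exp t) ^ 2 := by
      rw [mul_pow]
      exact mul_le_mul hc h2 (by positivity) (by positivity)
    nlinarith [sq_nonneg (t - 65 / 100)]

/-- lower bound of `ρ² e^{2t}` -/
theorem sq_exp_ge_sadB {ρ t : ℝ} (ht : 0 ≤ t) {c : ℝ} (_ : 0 ≤ c) (hc : c ≤ ρ ^ 2) :
    c * (1 + 2 * t + 2 * t ^ 2) ≤ (ρ * Real.exp t) ^ 2 := by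
  have h2 : 1 + 2 * t + 2 * t ^ 2 ≤ Real.exp t ^ 2 := by
    have := Real.quadratic_le_exp_of_nonneg (x := 2 * t) (by positivity)
    have e2 : Real.exp (2 * t) = Real.exp t ^ 2 := by
      rw [← Real.exp_nat_mul]; norm_num
    rw [e2] at this
    nlinarith
  rw [mul_pow]
  exact mul_le_mul hc h2 (by positivity) (by positivity)

/-- (d') -/
theorem core_kD_neg {r δ t e c : ℝ} (h : Dom (r * δ) (-t)) (ht : 0 ≤ t) (ht1 : t ≤ 53 / 100)
    (he : -sE (r * δ) (-t) ≤ e) (hD : 13 / 20 ≤ sD2 (r * δ) (-t))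
    (hc : (e ≤ 6284 / 10000 ∧ c = 126 / 100) ∨ (4354 / 10000 ≤ (r * δ) ^ 2 ∧ c = 126 / 100) ∨
      (e ≤ 5106 / 10000 ∧ c = 893 / 1000) ∨ (1 ≤ (r * δ) ^ 2 ∧ c = 893 / 1000)) :
    kD r δ (-t) ≤ c := by
  have hρ := h.1
  rw [sD2_sadB h, neg_neg] at hD
  rw [kD_sadB h, neg_neg]
  have hE := Real.exp_pos t
  have hp : 0 < r * δ * Real.exp t := by positivity
  rw [div_le_iff₀ (by linarith)]
  have h2t := two_t_le h ht (by linarith)
  rcases hc with ⟨hc, rfl⟩ | ⟨hc, rfl⟩ | ⟨hc, rfl⟩ | ⟨hc, rfl⟩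
  · have ht3 : t ≤ 3906 / 10000 := by nlinarith
    nlinarith [sq_nonneg (r * δ * Real.exp t - 45 / 100)]
  · have := sq_exp_ge_sadB ht (by norm_num) hc
    nlinarith [sq_nonneg (r * δ * Real.exp t - 1)]
  · have ht3 : t ≤ 3005 / 10000 := by nlinarith
    nlinarith [sq_nonneg (r * δ * Real.exp t - 6 / 10)]
  · have := sq_exp_ge_sadB ht (by norm_num) hc
    nlinarith [sq_nonneg (r * δ * Real.exp t - 12 / 10), sq_nonneg (t - 4 / 10)]

theorem core_kD_pos {r δ y : ℝ} (h : Dom (r * δ) y) (hy : 0 ≤ y) : kD r δ y ≤ 1 / 2 := by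
  have hρ := h.1
  rw [kD_sadB h]
  have hE := Real.exp_pos (-y)
  have hp : 0 < r * δ * Real.exp (-y) := by positivity
  rw [div_le_iff₀ (by positivity)]
  nlinarith [sq_nonneg (r * δ * Real.exp (-y) - 1)]

/-- the numbers -/
theorem cases_B {N : ℕ} {r δ : ℝ} (H : Reg1 N r δ) (hG : 10 ≤ Gm N r δ) :
    ((eo1 N r δ ≤ 6284 / 10000) ∨ (eo1 N r δ ≤ 7541 / 10000 ∧ 4354 / 10000 ≤ (r * δ) ^ 2) ∨
      (eo1 N r δ ≤ 9426 / 10000 ∧ 12429 / 10000 ≤ (r * δ) ^ 2) ∨
      (eo1 N r δ ≤ 12567 / 10000 ∧ 29873 / 10000 ≤ (r * δ) ^ 2) ∨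
      (eo1 N r δ ≤ 13615 / 10000 ∧ 5 ≤ (r * δ) ^ 2)) ∧
    ((126 / 100 ≤ 1 / 25 * HH N r δ) ∨ (893 / 1000 ≤ 1 / 25 * HH N r δ ∧
      (eo1 N r δ ≤ 5106 / 10000 ∨ 1 ≤ (r * δ) ^ 2))) := by
  have hpi := Real.pi_lt_d4
  have hpi' := Real.pi_gt_d4
  have hr := H.r0
  have hN3 := H.N3
  have hI := H.I
  have hRR : 0 < RR r δ := by unfold RR; positivity
  have hRRe : RR r δ = 1 + (r * δ) ^ 2 := rfl
  have hN0 : (0 : ℝ) < N := by
    have : 0 < N := by omega
    exact_mod_cast this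
  have hh0 : 0 < hst N := by unfold hst; positivity
  have hHH : HH N r δ ^ 2 = r * Gm N r δ := by
    unfold HH Gm
    rw [div_pow, Real.sq_sqrt hRR.le]
    ring
  have hHH0 : 0 ≤ HH N r δ := by unfold HH; positivity
  have hG' : Gm N r δ * RR r δ = r * hst N ^ 2 := by
    unfold Gm; field_simp
  -- lower bound for R in the case Γ < 20
  have hlow : Gm N r δ < 20 → 499 / 200 * hst N ^ 2 ≤ RR r δ := by
    intro hlt
    have h1 : r * hst N ^ 2 ≤ 20 * RR r δ := by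
      rw [← hG']
      exact mul_le_mul_of_nonneg_right hlt.le hRR.le
    nlinarith [sq_nonneg (hst N)]
  have heo : (20 ≤ Gm N r δ ∧ eo1 N r δ = 3 / 5 * hst N) ∨
      (Gm N r δ < 20 ∧ eo1 N r δ = 13 / 20 * hst N) := by
    unfold eo1 om1
    rw [if_neg (not_lt.2 hG)]
    by_cases h : Gm N r δ < 20
    · right
      rw [if_pos h]
      exact ⟨h, by ring⟩
    · left
      rw [if_neg h]
      exact ⟨not_lt.1 h, by ring⟩
  have hst_eq : hst N = 2 * π / N := rfl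
  have hbig : 893 / 1000 ≤ 1 / 25 * HH N r δ := by
    have : 499 ≤ HH N r δ ^ 2 := by rw [hHH]; nlinarith
    nlinarith
  by_cases h6 : 8 ≤ N
  · have h6' : (8 : ℝ) ≤ N := by exact_mod_cast h6
    have hst6 : hst N ≤ 7854 / 10000 := by
      rw [hst_eq, div_le_iff₀ hN0]; linarith
    refine ⟨Or.inl ?_, ?_⟩
    · rcases heo with ⟨_, h⟩ | ⟨_, h⟩ <;> rw [h] <;> linarith
    · rcases heo with ⟨h20, h⟩ | ⟨_, h⟩
      · left
        have : 998 ≤ HH N r δ ^ 2 := by rw [hHH]; nlinarith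
        nlinarith
      · right
        exact ⟨hbig, Or.inl (by rw [h]; linarith)⟩
  · have hN7 : N ≤ 7 := by omega
    have key : ∀ lo hi : ℝ, 0 ≤ lo → lo ≤ hst N → hst N ≤ hi → lo ^ 2 ≤ hst N ^ 2 := fun lo hi h0 h1 _ =>
      pow_le_pow_left₀ h0 h1 2
    rcases heo with ⟨h20, h⟩ | ⟨h20, h⟩
    · have hbig2 : 126 / 100 ≤ 1 / 25 * HH N r δ := by
        have : 998 ≤ HH N r δ ^ 2 := by rw [hHH]; nlinarith
        nlinarith
      refine ⟨?_, Or.inl hbig2⟩
      rw [h]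
      interval_cases N
      · -- N = 3
        right; right; right; left
        have h1 : (20943 / 10000 : ℝ) ≤ hst 3 := by rw [hst_eq]; norm_num; linarith
        have h2 : hst 3 ≤ 20944 / 10000 := by rw [hst_eq]; norm_num; linarith
        have h3 := key _ _ (by norm_num) h1 h2
        exact ⟨by linarith, by rw [hRRe] at hI; norm_num at h3; linarith⟩
      · right; right; left
        have h1 : (157075 / 100000 : ℝ) ≤ hst 4 := by rw [hst_eq]; norm_num; linarith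
        have h2 : hst 4 ≤ 15708 / 10000 := by rw [hst_eq]; norm_num; linarith
        have h3 := key _ _ (by norm_num) h1 h2
        exact ⟨by linarith, by rw [hRRe] at hI; norm_num at h3; linarith⟩
      · right; left
        have h1 : (12566 / 10000 : ℝ) ≤ hst 5 := by rw [hst_eq]; norm_num; linarith
        have h2 : hst 5 ≤ 125664 / 100000 := by rw [hst_eq]; norm_num; linarith
        have h3 := key _ _ (by norm_num) h1 h2
        exact ⟨by linarith, by rw [hRRe] at hI; norm_num at h3; linarith⟩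
      · left
        have h2 : hst 6 ≤ 10472 / 10000 := by rw [hst_eq]; norm_num; linarith
        linarith
      · left
        have h2 : hst 7 ≤ 8977 / 10000 := by rw [hst_eq]; norm_num; linarith
        linarith
    · have hlow' := hlow h20
      rw [h]
      interval_cases N
      · have h1 : (20943 / 10000 : ℝ) ≤ hst 3 := by rw [hst_eq]; norm_num; linarith
        have h2 : hst 3 ≤ 20944 / 10000 := by rw [hst_eq]; norm_num; linarith
        have h3 := key _ _ (by norm_num) h1 h2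
        norm_num at h3
        have h4 : 5 ≤ (r * δ) ^ 2 := by rw [hRRe] at hlow'; linarith
        exact ⟨Or.inr (Or.inr (Or.inr (Or.inr ⟨by linarith, h4⟩))), Or.inr ⟨hbig, Or.inr (by linarith)⟩⟩
      · have h1 : (157075 / 100000 : ℝ) ≤ hst 4 := by rw [hst_eq]; norm_num; linarith
        have h2 : hst 4 ≤ 15708 / 10000 := by rw [hst_eq]; norm_num; linarith
        have h3 := key _ _ (by norm_num) h1 h2
        norm_num at h3
        have h4 : 5 ≤ (r * δ) ^ 2 := by rw [hRRe] at hlow'; linarith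
        exact ⟨Or.inr (Or.inr (Or.inr (Or.inr ⟨by linarith, h4⟩))), Or.inr ⟨hbig, Or.inr (by linarith)⟩⟩
      · have h1 : (12566 / 10000 : ℝ) ≤ hst 5 := by rw [hst_eq]; norm_num; linarith
        have h2 : hst 5 ≤ 125664 / 100000 := by rw [hst_eq]; norm_num; linarith
        have h3 := key _ _ (by norm_num) h1 h2
        norm_num at h3
        have h4 : 29 / 10 ≤ (r * δ) ^ 2 := by rw [hRRe] at hlow'; linarith
        exact ⟨Or.inr (Or.inr (Or.inl ⟨by linarith, by linarith⟩)), Or.inr ⟨hbig, Or.inr (by linarith)⟩⟩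
      · have h1 : (10471 / 10000 : ℝ) ≤ hst 6 := by rw [hst_eq]; norm_num; linarith
        have h2 : hst 6 ≤ 10472 / 10000 := by rw [hst_eq]; norm_num; linarith
        have h3 := key _ _ (by norm_num) h1 h2
        norm_num at h3
        have h4 : 17 / 10 ≤ (r * δ) ^ 2 := by rw [hRRe] at hlow'; linarith
        exact ⟨Or.inr (Or.inl ⟨by linarith, by linarith⟩), Or.inr ⟨hbig, Or.inr (by linarith)⟩⟩
      · have h1 : (89757 / 100000 : ℝ) ≤ hst 7 := by rw [hst_eq]; norm_num; linarith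
        have h2 : hst 7 ≤ 8977 / 10000 := by rw [hst_eq]; norm_num; linarith
        have h3 := key _ _ (by norm_num) h1 h2
        norm_num at h3
        have h4 : 1 ≤ (r * δ) ^ 2 := by rw [hRRe] at hlow'; linarith
        exact ⟨Or.inl (by linarith), Or.inr ⟨hbig, Or.inr h4⟩⟩

/-- PIECE `PSad1.sad`, `Γ ≥ 10`. -/
theorem sadB {N : ℕ} {r δ y η : ℝ} (H : Reg1 N r δ) (hA : At r δ y η) (hη : |η| ≤ eo1 N r δ)
    (hG : 10 ≤ Gm N r δ) : SadB N r δ y := by
  obtain ⟨hc1, hc2⟩ := cases_B H hG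
  obtain ⟨hdom, hy1, heta⟩ := hA
  have hρ := hdom.1
  rw [← heta] at hη
  obtain ⟨hη1, hη2⟩ := abs_le.1 hη
  set ρ := r * δ with hρdef
  set e := eo1 N r δ with hedef
  have sqrt_low : ∀ c : ℝ, 0 ≤ c → c ^ 2 ≤ ρ ^ 2 → c ≤ ρ := fun c h0 h =>
    abs_le_of_sq_le_sq' h hρ.le |>.2
  rcases le_total 0 y with hy | hy
  · have h2y := two_y_le hdom hy
    have he13 : e ≤ 13615 / 10000 := by
      rcases hc1 with h | h | h | h | h <;> linarith
    have hT := coreT_pos hdom hy hη2 (by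
      rcases hc1 with h | ⟨h1, h2⟩ | ⟨h1, h2⟩ | ⟨h1, h2⟩ | ⟨h1, h2⟩
      · exact Or.inl h
      · have := sqrt_low (6598 / 10000) (by norm_num) (by norm_num; linarith)
        exact Or.inr (Or.inl ⟨by linarith, h1⟩)
      · have := sqrt_low (11148 / 10000) (by norm_num) (by norm_num; linarith)
        exact Or.inr (Or.inr ⟨by linarith, by linarith⟩)
      · have := sqrt_low (1728 / 1000) (by norm_num) (by norm_num; linarith)
        exact Or.inr (Or.inr ⟨by linarith, by linarith⟩)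
      · have := sqrt_low (22 / 10) (by norm_num) (by norm_num; linarith)
        exact Or.inr (Or.inr ⟨by linarith, by linarith⟩))
    refine ⟨by linarith, by nlinarith, by rw [abs_of_nonneg hy]; exact hT, ?_, ?_⟩
    · rw [sD2_sadB hdom]
      nlinarith [sq_nonneg (ρ * Real.exp (-y))]
    · have := core_kD_pos hdom hy
      rcases hc2 with h | ⟨h, _⟩ <;> linarith
  · obtain ⟨t, rfl⟩ : ∃ t, y = -t := ⟨-y, by ring⟩
    have ht : 0 ≤ t := by linarith
    have ht1 : t < 1 := by linarith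
    have he : -sE ρ (-t) ≤ e := by linarith
    have ht53 := core_t hdom ht ht1 he (by
      rcases hc1 with h | ⟨h1, h2⟩ | ⟨h1, h2⟩ | ⟨h1, h2⟩ | ⟨h1, h2⟩
      · exact Or.inl (by linarith)
      · exact Or.inl h1
      · have := sqrt_low (11148 / 10000) (by norm_num) (by norm_num; linarith)
        exact Or.inr (Or.inl ⟨h1, this⟩)
      · have := sqrt_low (1728 / 1000) (by norm_num) (by norm_num; linarith)
        exact Or.inr (Or.inr (Or.inl ⟨h1, this⟩))
      · have := sqrt_low 2 (by norm_num) (by norm_num; linarith)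
        exact Or.inr (Or.inr (Or.inr ⟨h1, this⟩)))
    have hc3 : e ≤ 6284 / 10000 ∨ 4354 / 10000 ≤ ρ ^ 2 := by
      rcases hc1 with h | ⟨h1, h2⟩ | ⟨h1, h2⟩ | ⟨h1, h2⟩ | ⟨h1, h2⟩
      · exact Or.inl h
      · exact Or.inr h2
      · exact Or.inr (by linarith)
      · exact Or.inr (by linarith)
      · exact Or.inr (by linarith)
    have hT := coreT_neg hdom ht ht53 he (by
      rcases hc3 with h | h
      · exact Or.inl h
      · exact Or.inr (sqrt_low (6 / 10) (by norm_num) (by norm_num; linarith)))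
    have hD := coreD_neg hdom ht ht53 he hc3
    refine ⟨by linarith, by linarith, by rw [abs_neg, abs_of_nonneg ht]; exact hT, hD, ?_⟩
    rcases hc2 with h | ⟨h, h'⟩
    · refine (core_kD_neg (c := 126 / 100) hdom ht ht53 he hD ?_).trans h
      rcases hc3 with h3 | h3
      · exact Or.inl ⟨h3, rfl⟩
      · exact Or.inr (Or.inl ⟨h3, rfl⟩)
    · refine (core_kD_neg (c := 893 / 1000) hdom ht ht53 he hD ?_).trans h
      rcases h' with h3 | h3
      · exact Or.inr (Or.inr (Or.inl ⟨h3, rfl⟩))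
      · exact Or.inr (Or.inr (Or.inr ⟨h3, rfl⟩))

end SokalV3
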