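import Pool.Agent.Lib_MP_af4de1_v3.SadA
import Pool.Agent.Lib_MP_af4de1_v3.SadB

/-!
# F1, plan v3: `PSad1`
-/

set_option autoImplicit false

namespace SokalV3

/-- PIECE SAD (regime I) -/
theorem psad1 : PSad1 where
  ex := psad1_ex
  sad := fun N r δ y η h hA hη => by
    rcases lt_or_ge (Gm N r δ) 10 with hG | hG
    · exact Or.inl ⟨hG, psad1_sadA N r δ y η h hA hG hη⟩
    · exact Or.inr ⟨hG, sadB h hA hη hG⟩
  inn := psad1_inn

end SokalV3
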