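import Pool.Agent.Lib_MP_af4de1_v3.V3
import Pool.Agent.Lib_MP_af4de1_v3.Pair1R

/-!
# Piece PAIR of F1 v3: the two saddle points are far apart
-/

set_option autoImplicit false

namespace SokalPair1

open SokalF1 SokalF1S SokalV3

/-! ### elementary inequalities -/

theorem exp_ge4 {y : ℝ} (h : 0 ≤ y) :
    1 + y + y ^ 2 / 2 + y ^ 3 / 6 + y ^ 4 / 24 ≤ Real.exp y := by
  have := Real.sum_le_exp_of_nonneg h 5
  simp [Finset.sum_range_succ, Nat.factorial] at this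
  linarith

theorem exp_le5 {y : ℝ} (h : 0 ≤ y) (h1 : y ≤ 1) :
    Real.exp y ≤ 1 + y + y ^ 2 / 2 + y ^ 3 / 6 + y ^ 4 / 24 + y ^ 5 / 100 := by
  have := Real.exp_bound' h h1 (n := 5) (by norm_num)
  simp [Finset.sum_range_succ, Nat.factorial] at this
  linarith

theorem exp_le6 {y : ℝ} (h : 0 ≤ y) (h1 : y ≤ 1) :
    Real.exp y ≤ 1 + y + y ^ 2 / 2 + y ^ 3 / 6 + y ^ 4 / 24 + y ^ 5 / 120 + y ^ 6 / 600 := by
  have := Real.exp_bound' h h1 (n := 6) (by norm_num)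
  simp [Finset.sum_range_succ, Nat.factorial] at this
  have h6 : 0 ≤ y ^ 6 := by positivity
  linarith

theorem exp_neg_le4 {y : ℝ} (h : 0 ≤ y) :
    Real.exp (-y) ≤ 1 - y + y ^ 2 / 2 - y ^ 3 / 6 + y ^ 4 / 24 := by
  have h1 := exp_ge4 h
  have h2 : Real.exp y * Real.exp (-y) = 1 := by rw [← Real.exp_add]; simp
  have h3 : 0 < Real.exp (-y) := Real.exp_pos _
  have hT : 0 < 1 + y + y ^ 2 / 2 + y ^ 3 / 6 + y ^ 4 / 24 := by positivity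
  have h4 : (1 + y + y ^ 2 / 2 + y ^ 3 / 6 + y ^ 4 / 24) * Real.exp (-y) ≤ 1 := by
    exact (mul_le_mul_of_nonneg_right h1 h3.le).trans h2.le
  have h5 : (1 + y + y ^ 2 / 2 + y ^ 3 / 6 + y ^ 4 / 24) *
      (1 - y + y ^ 2 / 2 - y ^ 3 / 6 + y ^ 4 / 24) = 1 + y ^ 6 / 72 + y ^ 8 / 576 := by ring
  have h6 : 0 ≤ y ^ 6 / 72 + y ^ 8 / 576 := by positivity
  refine le_of_mul_le_mul_left ?_ hT
  linarith

theorem exp_neg_ge3 {y : ℝ} (h : 0 ≤ y) (h1 : y ≤ 1) :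
    1 - y + y ^ 2 / 2 - y ^ 3 / 6 ≤ Real.exp (-y) := by
  have h2 : Real.exp y * Real.exp (-y) = 1 := by rw [← Real.exp_add]; simp
  have h3 : 0 < Real.exp (-y) := Real.exp_pos _
  have hb := Real.exp_bound' h h1 (n := 4) (by norm_num)
  simp [Finset.sum_range_succ, Nat.factorial] at hb
  have hb' : Real.exp y ≤ 1 + y + y ^ 2 / 2 + y ^ 3 / 6 + y ^ 4 * (5 / 96) := by linarith
  have y2 : y ^ 2 ≤ y := by nlinarith
  have y3 : y ^ 3 ≤ y ^ 2 := by nlinarith [sq_nonneg y]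
  have y3' : 0 ≤ y ^ 3 := by positivity
  have hT : 0 ≤ 1 - y + y ^ 2 / 2 - y ^ 3 / 6 := by nlinarith [sq_nonneg y]
  have hT1 : 1 - y + y ^ 2 / 2 - y ^ 3 / 6 ≤ 1 := by nlinarith [sq_nonneg y]
  have h4 : (1 - y + y ^ 2 / 2 - y ^ 3 / 6) * Real.exp y ≤ 1 := by
    have a1 := mul_le_mul_of_nonneg_left hb' hT
    have a2 : (1 - y + y ^ 2 / 2 - y ^ 3 / 6) *
        (1 + y + y ^ 2 / 2 + y ^ 3 / 6 + y ^ 4 * (5 / 96)) = 1 - y ^ 4 / 12 - y ^ 6 / 36 +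
          (y ^ 4 * (5 / 96)) * (1 - y + y ^ 2 / 2 - y ^ 3 / 6) := by ring
    have y4 : 0 ≤ y ^ 4 * (5 / 96) := by positivity
    have a3 := mul_le_mul_of_nonneg_left hT1 y4
    have y6 : 0 ≤ y ^ 6 := by positivity
    rw [a2] at a1
    nlinarith
  have h5 := mul_le_mul_of_nonneg_right h4 h3.le
  rw [mul_assoc, h2, mul_one, one_mul] at h5
  exact h5

/-- `e^y ≤ 1 + y + y²/2 + y³/5` -/
theorem exA {y : ℝ} (h : 0 ≤ y) (h1 : y ≤ 14 / 25) :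
    Real.exp y ≤ 1 + y + y ^ 2 / 2 + y ^ 3 / 5 := by
  have a := exp_le5 h (by linarith)
  have : 0 ≤ y ^ 3 * (1 / 30 - y / 24 - y ^ 2 / 100) := by
    have : 0 ≤ 1 / 30 - y / 24 - y ^ 2 / 100 := by nlinarith
    positivity
  nlinarith

/-- `e^{-y} ≤ 1 - y + y²/2 - (7/50) y³` -/
theorem exB {y : ℝ} (h : 0 ≤ y) (h1 : y ≤ 14 / 25) :
    Real.exp (-y) ≤ 1 - y + y ^ 2 / 2 - 7 / 50 * y ^ 3 := by
  have a := exp_neg_le4 h
  have : 0 ≤ y ^ 3 * (1 / 6 - 7 / 50 - y / 24) := by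
    have : 0 ≤ 1 / 6 - 7 / 50 - y / 24 := by linarith
    positivity
  nlinarith

/-- `e^{3y} ≤ 1 + 3 y + 9/2 y² + 73/10 y³` -/
theorem exC {y : ℝ} (h : 0 ≤ y) (h1 : y ≤ 14 / 25) :
    Real.exp y ^ 3 ≤ 1 + 3 * y + 9 / 2 * y ^ 2 + 73 / 10 * y ^ 3 := by
  obtain ⟨z, hz⟩ : ∃ z, z = 3 / 2 * y := ⟨_, rfl⟩
  have z0 : 0 ≤ z := by rw [hz]; positivity
  have z1 : z ≤ 21 / 25 := by rw [hz]; linarith
  have a := exp_le6 z0 (by linarith)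
  have e : Real.exp y ^ 3 = Real.exp z ^ 2 := by
    rw [← Real.exp_nat_mul, ← Real.exp_nat_mul, hz]
    congr 1
    push_cast
    ring
  have hy : y = 2 / 3 * z := by rw [hz]; ring
  rw [e, hy]
  have b : Real.exp z ^ 2 ≤
      (1 + z + z ^ 2 / 2 + z ^ 3 / 6 + z ^ 4 / 24 + z ^ 5 / 120 + z ^ 6 / 600) ^ 2 :=
    pow_le_pow_left₀ (Real.exp_pos _).le a 2
  refine b.trans ?_
  have c : (1 + z + z ^ 2 / 2 + z ^ 3 / 6 + z ^ 4 / 24 + z ^ 5 / 120 + z ^ 6 / 600) ^ 2 =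
      1 + 2 * z + 2 * z ^ 2 + z ^ 3 * (4 / 3 + 2 / 3 * z + 4 / 15 * z ^ 2 + 161 / 1800 * z ^ 3 +
        23 / 900 * z ^ 4 + 89 / 14400 * z ^ 5 + 1 / 800 * z ^ 6 + 1 / 4800 * z ^ 7 +
        1 / 36000 * z ^ 8 + 1 / 360000 * z ^ 9) := by ring
  have d : 4 / 3 + 2 / 3 * z + 4 / 15 * z ^ 2 + 161 / 1800 * z ^ 3 +
        23 / 900 * z ^ 4 + 89 / 14400 * z ^ 5 + 1 / 800 * z ^ 6 + 1 / 4800 * z ^ 7 +
        1 / 36000 * z ^ 8 + 1 / 360000 * z ^ 9 ≤ 292 / 135 := by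
    calc _ ≤ 4 / 3 + 2 / 3 * (21 / 25 : ℝ) + 4 / 15 * (21 / 25 : ℝ) ^ 2 +
        161 / 1800 * (21 / 25 : ℝ) ^ 3 +
        23 / 900 * (21 / 25 : ℝ) ^ 4 + 89 / 14400 * (21 / 25 : ℝ) ^ 5 +
        1 / 800 * (21 / 25 : ℝ) ^ 6 + 1 / 4800 * (21 / 25 : ℝ) ^ 7 +
        1 / 36000 * (21 / 25 : ℝ) ^ 8 + 1 / 360000 * (21 / 25 : ℝ) ^ 9 := by gcongr
      _ ≤ 292 / 135 := by norm_num
  have z3 : 0 ≤ z ^ 3 := by positivity
  have f := mul_le_mul_of_nonneg_left d z3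
  rw [c]
  nlinarith

theorem expE_aux {u b : ℝ} (hu : 0 ≤ u) (hb : 0 ≤ b) (e2 : b = 1 - u) :
    (1 - (53/100*u) + (53/100*u) ^ 2 / 2 - (53/100*u) ^ 3 / 6 + (53/100*u) ^ 4 / 24) ^ 3 ≤
      1 - 29 / 10 * (53/100*u) + 15 / 4 * (53/100*u) ^ 2 - 41 / 20 * (53/100*u) ^ 3 := by
  have e : 1 - 29 / 10 * (53/100*u) + 15 / 4 * (53/100*u) ^ 2 - 41 / 20 * (53/100*u) ^ 3 -
      (1 - (53/100*u) + (53/100*u) ^ 2 / 2 - (53/100*u) ^ 3 / 6 + (53/100*u) ^ 4 / 24) ^ 3 =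
      (53/100*u) * ((1/10) * b ^ 11 +
        (281/400) * u ^ 1 * b ^ 10 +
        (442641/200000) * u ^ 2 * b ^ 9 +
        (34431081/8000000) * u ^ 3 * b ^ 8 +
        (310675531/50000000) * u ^ 4 * b ^ 7 +
        (1807184105261/240000000000) * u ^ 5 * b ^ 6 +
        (61503425975587/8000000000000) * u ^ 6 * b ^ 5 +
        (115756231677627749/19200000000000000) * u ^ 7 * b ^ 4 +
        (56521857490212498533/17280000000000000000) * u ^ 8 * b ^ 3 +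
        (1275350908844647451669/1152000000000000000000) * u ^ 9 * b ^ 2 +
        (23020943256631861186849/115200000000000000000000) * u ^ 10 * b ^ 1 +
        (1804649276952165315747203/138240000000000000000000000) * u ^ 11) := by
    subst e2
    ring
  have k : 0 ≤ (53/100*u) * ((1/10) * b ^ 11 +
        (281/400) * u ^ 1 * b ^ 10 +
        (442641/200000) * u ^ 2 * b ^ 9 +
        (34431081/8000000) * u ^ 3 * b ^ 8 +
        (310675531/50000000) * u ^ 4 * b ^ 7 +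
        (1807184105261/240000000000) * u ^ 5 * b ^ 6 +
        (61503425975587/8000000000000) * u ^ 6 * b ^ 5 +
        (115756231677627749/19200000000000000) * u ^ 7 * b ^ 4 +
        (56521857490212498533/17280000000000000000) * u ^ 8 * b ^ 3 +
        (1275350908844647451669/1152000000000000000000) * u ^ 9 * b ^ 2 +
        (23020943256631861186849/115200000000000000000000) * u ^ 10 * b ^ 1 +
        (1804649276952165315747203/138240000000000000000000000) * u ^ 11) := by positivity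
  linarith

/-- `e^{-3n} ≤ 1 - 29/10 n + 15/4 n² - 41/20 n³` -/
theorem exD {n : ℝ} (h : 0 ≤ n) (h1 : n ≤ 53 / 100) :
    Real.exp (-n) ^ 3 ≤ 1 - 29 / 10 * n + 15 / 4 * n ^ 2 - 41 / 20 * n ^ 3 := by
  have a := exp_neg_le4 h
  have b := pow_le_pow_left₀ (Real.exp_pos _).le a 3
  have k := expE_aux (u := n / (53 / 100)) (b := 1 - n / (53 / 100)) (by positivity)
    (by rw [sub_nonneg, div_le_one (by norm_num)]; exact h1) rfl
  have e : 53 / 100 * (n / (53 / 100)) = n := by field_simp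
  rw [e] at k
  exact b.trans k

/-- upper bound for `e^{-n}(1 - n/2)` -/
theorem exE {n : ℝ} (h : 0 ≤ n) (h1 : n ≤ 53 / 100) :
    Real.exp (-n) * (1 - n / 2) ≤ 1 - 3 / 2 * n + n ^ 2 - 7 / 20 * n ^ 3 := by
  have a := mul_le_mul_of_nonneg_right (exp_neg_le4 h) (show 0 ≤ 1 - n / 2 by linarith)
  refine a.trans ?_
  have : 0 ≤ n ^ 3 * (5 / 12 - 7 / 20 - n / 8 + n ^ 2 / 48) := by
    have : 0 ≤ 5 / 12 - 7 / 20 - n / 8 + n ^ 2 / 48 := by nlinarith [sq_nonneg n]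
    positivity
  nlinarith

/-- lower bound for `e^{-n}(1 - n/2)` -/
theorem exF {n : ℝ} (h : 0 ≤ n) (h1 : n ≤ 53 / 100) :
    1 - 3 / 2 * n + n ^ 2 - 21 / 50 * n ^ 3 ≤ Real.exp (-n) * (1 - n / 2) := by
  have a := mul_le_mul_of_nonneg_right (exp_neg_ge3 h (by linarith))
    (show 0 ≤ 1 - n / 2 by linarith)
  refine le_trans ?_ a
  have : 0 ≤ n ^ 3 * (21 / 50 - 5 / 12 + n / 12) := by
    have : 0 ≤ 21 / 50 - 5 / 12 + n / 12 := by linarith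
    positivity
  nlinarith

/-! ### arcsin and cos -/

theorem arcsin_le_cub {s : ℝ} (h0 : 0 ≤ s) (h : s ^ 2 ≤ 16 / 41) :
    Real.arcsin s ≤ s + 53 / 250 * s ^ 3 := by
  have hs : s ≤ 63 / 100 := by nlinarith
  have s3 : 0 ≤ s ^ 3 := by positivity
  have hu0 : 0 ≤ s + 53 / 250 * s ^ 3 := by positivity
  have hu1 : s + 53 / 250 * s ^ 3 ≤ 1 := by nlinarith [mul_le_mul_of_nonneg_left h h0]
  rw [Real.arcsin_le_iff_le_sin ⟨by linarith, by linarith⟩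
    ⟨by linarith [Real.pi_gt_three], by linarith [Real.pi_gt_three]⟩]
  have k := Real.sin_ge_sub_cube hu0
  refine le_trans ?_ k
  have e : s + 53 / 250 * s ^ 3 - (s + 53 / 250 * s ^ 3) ^ 3 / 6 - s =
      s ^ 3 * (53 / 250 - (1 + 53 / 250 * s ^ 2) ^ 3 / 6) := by ring
  have f : (1 + 53 / 250 * s ^ 2) ^ 3 ≤ (1 + 53 / 250 * (16 / 41 : ℝ)) ^ 3 := by gcongr
  have g : 0 ≤ 53 / 250 - (1 + 53 / 250 * s ^ 2) ^ 3 / 6 := by
    have : (1 + 53 / 250 * (16 / 41 : ℝ)) ^ 3 ≤ 6 * (53 / 250) := by norm_num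
    linarith
  have := mul_nonneg s3 g
  linarith

theorem le_arcsin_cub {s : ℝ} (h0 : 0 ≤ s) (h : s ^ 2 ≤ 16 / 41) :
    s + s ^ 3 / 8 ≤ Real.arcsin s := by
  have hs : s ≤ 63 / 100 := by nlinarith
  have hu := arcsin_le_cub h0 h
  have s3 : 0 ≤ s ^ 3 := by positivity
  have hu1 : s + 53 / 250 * s ^ 3 ≤ 1 := by nlinarith [mul_le_mul_of_nonneg_left h h0]
  obtain ⟨φ, hφ⟩ : ∃ φ, φ = Real.arcsin s := ⟨_, rfl⟩
  rw [← hφ] at hu ⊢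
  have hφ0 : 0 ≤ φ := by rw [hφ]; exact Real.arcsin_nonneg.2 h0
  have hsin : Real.sin φ = s := by rw [hφ]; exact Real.sin_arcsin (by linarith) (by linarith)
  have hφs : s ≤ φ := by rw [← hsin]; exact Real.sin_le hφ0
  have b := Real.sin_bound (x := φ) (by rw [abs_of_nonneg hφ0]; linarith)
  rw [hsin, abs_of_nonneg hφ0] at b
  have b1 := (abs_le.1 b).2
  have c1 : φ ^ 5 ≤ φ ^ 3 := by
    have : φ ^ 2 ≤ 1 := by nlinarith
    have h3 : 0 ≤ φ ^ 3 := by positivity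
    nlinarith [mul_le_mul_of_nonneg_left this h3]
  have c2 : s ^ 3 ≤ φ ^ 3 := pow_le_pow_left₀ h0 hφs 3
  linarith

theorem cos_up {s c : ℝ} (h1 : s ^ 2 + c ^ 2 = 1) (hs : s ^ 2 ≤ 16 / 41) : c ≤ 1 - s ^ 2 / 2 := by
  by_contra hc
  push Not at hc
  have : 0 ≤ 1 - s ^ 2 / 2 := by linarith
  have h2 : (1 - s ^ 2 / 2) ^ 2 < c ^ 2 := pow_lt_pow_left₀ hc this two_ne_zero
  nlinarith [sq_nonneg (s ^ 2)]

theorem cos_lo {s c : ℝ} (hc0 : 0 ≤ c) (h1 : s ^ 2 + c ^ 2 = 1) (hs : s ^ 2 ≤ 16 / 41) :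
    1 - s ^ 2 / 2 - s ^ 4 / 6 ≤ c := by
  by_contra hc
  push Not at hc
  have h2 : c ^ 2 < (1 - s ^ 2 / 2 - s ^ 4 / 6) ^ 2 := pow_lt_pow_left₀ hc hc0 two_ne_zero
  have e : (1 - s ^ 2 / 2 - s ^ 4 / 6) ^ 2 =
      1 - s ^ 2 - s ^ 4 * (1 / 12 - s ^ 2 / 6 - s ^ 4 / 36) := by ring
  have f : 0 ≤ s ^ 4 * (1 / 12 - s ^ 2 / 6 - s ^ 4 / 36) := by
    have : s ^ 4 ≤ (16 / 41) ^ 2 := by
      have : s ^ 4 = (s ^ 2) ^ 2 := by ring
      rw [this]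
      exact pow_le_pow_left₀ (sq_nonneg s) hs 2
    have g : 0 ≤ 1 / 12 - s ^ 2 / 6 - s ^ 4 / 36 := by
      have : ((16 : ℝ) / 41) ^ 2 ≤ 16 / 100 := by norm_num
      linarith
    positivity
  rw [e] at h2
  linarith

/-! ### the left side -/

/-- facts used on both sides: `s = sin ψ`, `c = cos ψ` -/
theorem s_sq_le {s c : ℝ} (hs0 : 0 ≤ s) (hc0 : 0 ≤ c) (h1 : s ^ 2 + c ^ 2 = 1)
    (h : s ≤ 4 / 5 * c) : s ^ 2 ≤ 16 / 41 := by
  have : s ^ 2 ≤ (4 / 5 * c) ^ 2 := pow_le_pow_left₀ hs0 h 2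
  nlinarith

theorem lemA {ρ y κ : ℝ} (hD : Dom ρ y) (y0 : 0 < y) (y1 : y ≤ 14 / 25)
    (hT : y ≤ 4 / 5 * sx ρ y) (hκ : 0 ≤ κ) (hF : 0 ≤ FA κ (1 / (1 + ρ ^ 2)) y) :
    sP ρ y - y / ρ ≤
      ρ * (sE ρ y) ^ 2 / (1 + ρ ^ 2) ^ 2 + κ * (sE ρ y) ^ 3 / (3 * (1 + ρ ^ 2)) := by
  have hρ := hD.1
  have hsin := hD.sin
  have hcos := hD.cos
  have hE : 0 < Real.exp y := Real.exp_pos _
  have hEn : 0 < Real.exp (-y) := Real.exp_pos _
  have hEE : Real.exp y * Real.exp (-y) = 1 := by rw [← Real.exp_add]; simp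
  have hη : sE ρ y = sP ρ y + ρ - sx ρ y := rfl
  have hxn := sx_nonneg ρ y
  have hψ0 : 0 ≤ sP ρ y := sP_nonneg hρ y0.le
  generalize sx ρ y = x at *
  generalize sE ρ y = η at *
  have hψa : sP ρ y = Real.arcsin (y * Real.exp y / ρ) := rfl
  generalize sP ρ y = ψ at *
  obtain ⟨s, hs⟩ : ∃ s, s = y * Real.exp y / ρ := ⟨_, rfl⟩
  obtain ⟨c, hc⟩ : ∃ c, c = x * Real.exp y / ρ := ⟨_, rfl⟩
  rw [← hs] at hsin hψa
  rw [← hc] at hcos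
  have h1 : s ^ 2 + c ^ 2 = 1 := by rw [← hsin, ← hcos]; exact Real.sin_sq_add_cos_sq ψ
  have hs0 : 0 ≤ s := by rw [hs]; positivity
  have hc0 : 0 ≤ c := by rw [hc]; positivity
  have hsc : s ≤ 4 / 5 * c := by
    rw [hs, hc, ← mul_div_assoc, ← mul_assoc]
    exact div_le_div_of_nonneg_right (mul_le_mul_of_nonneg_right hT hE.le) hρ.le
  have hs2 := s_sq_le hs0 hc0 h1 hsc
  have hψu : ψ ≤ s + 53 / 250 * s ^ 3 := by rw [hψa]; exact arcsin_le_cub hs0 hs2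
  have hψl : s ≤ ψ := by
    have := Real.sin_le hψ0
    rwa [hsin] at this
  have hcu := cos_up h1 hs2
  have hρs : ρ * s = y * Real.exp y := by rw [hs]; field_simp
  have hx : ρ * x = ρ ^ 2 * Real.exp (-y) * c := by
    rw [hc]
    field_simp
    linear_combination (-x) * hEE
  have hρs2 : ρ ^ 2 * Real.exp (-y) * s ^ 2 = y ^ 2 * Real.exp y := by
    have : ρ ^ 2 * Real.exp (-y) * s ^ 2 = (ρ * s) ^ 2 * Real.exp (-y) := by ring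
    rw [this, hρs]
    linear_combination (y ^ 2 * Real.exp y) * hEE
  -- lower bound for `ρ η`
  have hQ : y * Real.exp y + ρ ^ 2 * (1 - Real.exp (-y)) + y ^ 2 * Real.exp y / 2 ≤ ρ * η := by
    have a1 : ρ * s ≤ ρ * ψ := mul_le_mul_of_nonneg_left hψl hρ.le
    have a2 : ρ ^ 2 * Real.exp (-y) * c ≤ ρ ^ 2 * Real.exp (-y) * (1 - s ^ 2 / 2) :=
      mul_le_mul_of_nonneg_left hcu (by positivity)
    rw [hη]
    nlinarith
  have eA := exA y0.le y1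
  have eB := exB y0.le y1
  have eC := exC y0.le y1
  have eL := Real.quadratic_le_exp_of_nonneg y0.le
  obtain ⟨w, hw⟩ : ∃ w, w = 1 / (1 + ρ ^ 2) := ⟨_, rfl⟩
  rw [← hw] at hF
  have hR : 0 < 1 + ρ ^ 2 := by positivity
  have hwR : w * (1 + ρ ^ 2) = 1 := by rw [hw]; field_simp
  obtain ⟨P, hP⟩ : ∃ P, P = 1 + y * zA w y := ⟨_, rfl⟩
  have hPR : (1 + ρ ^ 2) * P =
      1 + ρ ^ 2 + y * (3 / 2 - ρ ^ 2 / 2) + y ^ 2 * (1 + 7 / 50 * ρ ^ 2) := by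
    rw [hP]
    unfold zA
    linear_combination (2 * y + 43 / 50 * y ^ 2) * hwR
  have hPR0 : 0 ≤ (1 + ρ ^ 2) * P := by
    rw [hPR]
    have : 0 ≤ 1 - y / 2 := by linarith
    nlinarith [mul_nonneg (sq_nonneg ρ) this, mul_nonneg (sq_nonneg ρ) (sq_nonneg y),
      sq_nonneg y]
  have hP0 : 0 ≤ P := by
    by_contra h
    push Not at h
    nlinarith
  have hL : y * ((1 + ρ ^ 2) * P) ≤ ρ * η := by
    refine le_trans ?_ hQ
    rw [hPR]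
    have b1 : 1 + y + y ^ 2 / 2 ≤ Real.exp y := eL
    have b2 : (1 + y + y ^ 2 / 2) * (y + y ^ 2 / 2) ≤ Real.exp y * (y + y ^ 2 / 2) :=
      mul_le_mul_of_nonneg_right b1 (by positivity)
    have b3 : ρ ^ 2 * Real.exp (-y) ≤ ρ ^ 2 * (1 - y + y ^ 2 / 2 - 7 / 50 * y ^ 3) :=
      mul_le_mul_of_nonneg_left eB (by positivity)
    have b4 : 0 ≤ y ^ 4 := by positivity
    nlinarith
  have hη0 : y * (1 + ρ ^ 2) * P / ρ ≤ η := by
    rw [div_le_iff₀ hρ]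
    linarith
  have hL0 : 0 ≤ y * (1 + ρ ^ 2) * P / ρ := by positivity
  -- lower bound for the right hand side
  have r1 : y ^ 2 * P ^ 2 / ρ + κ * y ^ 3 * (1 + ρ ^ 2) ^ 2 * P ^ 3 / (3 * ρ ^ 3) ≤
      ρ * η ^ 2 / (1 + ρ ^ 2) ^ 2 + κ * η ^ 3 / (3 * (1 + ρ ^ 2)) := by
    have a1 := pow_le_pow_left₀ hL0 hη0 2
    have a2 := pow_le_pow_left₀ hL0 hη0 3
    have c1 : y ^ 2 * P ^ 2 / ρ = ρ * (y * (1 + ρ ^ 2) * P / ρ) ^ 2 / (1 + ρ ^ 2) ^ 2 := by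
      field_simp
    have c2 : κ * y ^ 3 * (1 + ρ ^ 2) ^ 2 * P ^ 3 / (3 * ρ ^ 3) =
        κ * (y * (1 + ρ ^ 2) * P / ρ) ^ 3 / (3 * (1 + ρ ^ 2)) := by
      field_simp
    rw [c1, c2]
    gcongr
  -- upper bound for the left hand side
  have l1 : ψ - y / ρ ≤ y ^ 2 / ρ * (1 + y / 2 + y ^ 2 / 5) + 53 / 250 * (y ^ 3 / ρ ^ 3) *
      (1 + 3 * y + 9 / 2 * y ^ 2 + 73 / 10 * y ^ 3) := by
    have a1 : s - y / ρ = y / ρ * (Real.exp y - 1) := by rw [hs]; ring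
    have a2 : s ^ 3 = y ^ 3 / ρ ^ 3 * Real.exp y ^ 3 := by rw [hs]; ring
    have a3 : y / ρ * (Real.exp y - 1) ≤ y / ρ * (y + y ^ 2 / 2 + y ^ 3 / 5) :=
      mul_le_mul_of_nonneg_left (by linarith) (by positivity)
    have a4 : y ^ 3 / ρ ^ 3 * Real.exp y ^ 3 ≤
        y ^ 3 / ρ ^ 3 * (1 + 3 * y + 9 / 2 * y ^ 2 + 73 / 10 * y ^ 3) :=
      mul_le_mul_of_nonneg_left eC (by positivity)
    have a5 : y / ρ * (y + y ^ 2 / 2 + y ^ 3 / 5) = y ^ 2 / ρ * (1 + y / 2 + y ^ 2 / 5) := by ring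
    rw [← a2] at a4
    linarith
  have key : y ^ 2 * P ^ 2 / ρ + κ * y ^ 3 * (1 + ρ ^ 2) ^ 2 * P ^ 3 / (3 * ρ ^ 3) -
      (y ^ 2 / ρ * (1 + y / 2 + y ^ 2 / 5) + 53 / 250 * (y ^ 3 / ρ ^ 3) *
      (1 + 3 * y + 9 / 2 * y ^ 2 + 73 / 10 * y ^ 3)) =
      y ^ 3 / ρ ^ 3 * (1 + ρ ^ 2) ^ 2 * FA κ w y := by
    have g1 : ρ ^ 2 * w = 1 - w := by linear_combination hwR
    have g2 : (1 + ρ ^ 2) ^ 2 * (w * (1 - w)) = ρ ^ 2 := by
      rw [← g1]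
      linear_combination (ρ ^ 2 * (w * (1 + ρ ^ 2) + 1)) * hwR
    have g3 : (1 + ρ ^ 2) ^ 2 * w ^ 2 = 1 := by
      linear_combination (w * (1 + ρ ^ 2) + 1) * hwR
    have g4 : (1 + ρ ^ 2) ^ 2 * FA κ w y =
        ρ ^ 2 * (2 * zA w y + y * (zA w y) ^ 2 - 1 / 2 - y / 5) +
          κ / 3 * (1 + ρ ^ 2) ^ 2 * P ^ 3 -
          53 / 250 * (1 + 3 * y + 9 / 2 * y ^ 2 + 73 / 10 * y ^ 3) := by
      unfold FA
      rw [← hP]
      linear_combination (2 * zA w y + y * (zA w y) ^ 2 - 1 / 2 - y / 5) * g2 -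
        53 / 250 * (1 + 3 * y + 9 / 2 * y ^ 2 + 73 / 10 * y ^ 3) * g3
    rw [mul_assoc (y ^ 3 / ρ ^ 3), g4, hP]
    field_simp
    ring
  have fin : 0 ≤ y ^ 3 / ρ ^ 3 * (1 + ρ ^ 2) ^ 2 * FA κ w y := by positivity
  linarith

/-! ### the right side -/

theorem lemB {ρ n κ : ℝ} (hD : Dom ρ (-n)) (n0 : 0 < n) (n1 : n ≤ 53 / 100)
    (hT : n ≤ 4 / 5 * sx ρ (-n)) (hκ : 0 ≤ κ) (hF : 0 ≤ FB κ (1 / (1 + ρ ^ 2)) n) :
    ρ * (sE ρ (-n)) ^ 2 / (1 + ρ ^ 2) ^ 2 + κ * (sE ρ (-n)) ^ 3 / (3 * (1 + ρ ^ 2)) ≤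
      sP ρ (-n) + n / ρ := by
  have hρ := hD.1
  have hsin := hD.sin
  have hcos := hD.cos
  have hE : 0 < Real.exp n := Real.exp_pos _
  have hEn : 0 < Real.exp (-n) := Real.exp_pos _
  have hEE : Real.exp n * Real.exp (-n) = 1 := by rw [← Real.exp_add]; simp
  have hη : sE ρ (-n) = sP ρ (-n) + ρ - sx ρ (-n) := rfl
  have hxn := sx_nonneg ρ (-n)
  generalize sx ρ (-n) = x at *
  generalize sE ρ (-n) = η at *
  have hψa : sP ρ (-n) = Real.arcsin (-n * Real.exp (-n) / ρ) := rfl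
  generalize sP ρ (-n) = ψ at *
  obtain ⟨s, hs⟩ : ∃ s, s = n * Real.exp (-n) / ρ := ⟨_, rfl⟩
  obtain ⟨c, hc⟩ : ∃ c, c = x * Real.exp (-n) / ρ := ⟨_, rfl⟩
  have hs' : -n * Real.exp (-n) / ρ = -s := by rw [hs]; ring
  rw [hs'] at hsin hψa
  rw [← hc] at hcos
  rw [Real.arcsin_neg] at hψa
  obtain ⟨φ, hφ⟩ : ∃ φ, φ = Real.arcsin s := ⟨_, rfl⟩
  rw [← hφ] at hψa
  have h1 : s ^ 2 + c ^ 2 = 1 := by
    have := Real.sin_sq_add_cos_sq ψ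
    rw [hsin, hcos] at this
    linarith
  have hs0 : 0 ≤ s := by rw [hs]; positivity
  have hc0 : 0 ≤ c := by rw [hc]; positivity
  have hsc : s ≤ 4 / 5 * c := by
    rw [hs, hc, ← mul_div_assoc, ← mul_assoc]
    exact div_le_div_of_nonneg_right (mul_le_mul_of_nonneg_right hT hEn.le) hρ.le
  have hs2 := s_sq_le hs0 hc0 h1 hsc
  have hφu : φ ≤ s + 53 / 250 * s ^ 3 := by rw [hφ]; exact arcsin_le_cub hs0 hs2
  have hφl : s + s ^ 3 / 8 ≤ φ := by rw [hφ]; exact le_arcsin_cub hs0 hs2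
  have hcu := cos_up h1 hs2
  have hcl := cos_lo hc0 h1 hs2
  have hρs : ρ * s = n * Real.exp (-n) := by rw [hs]; field_simp
  have hx : ρ * x = ρ ^ 2 * Real.exp n * c := by
    rw [hc]
    field_simp
    linear_combination (-x) * hEE
  have hρs2 : ρ ^ 2 * Real.exp n * s ^ 2 = n ^ 2 * Real.exp (-n) := by
    have : ρ ^ 2 * Real.exp n * s ^ 2 = (ρ * s) ^ 2 * Real.exp n := by ring
    rw [this, hρs]
    linear_combination (n ^ 2 * Real.exp (-n)) * hEE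
  have hρs1 : ρ * Real.exp n * s = n := by
    have : ρ * Real.exp n * s = (ρ * s) * Real.exp n := by ring
    rw [this, hρs]
    linear_combination n * hEE
  obtain ⟨e, he⟩ : ∃ e, e = -η := ⟨_, rfl⟩
  have hρe : ρ * e = ρ * φ + ρ ^ 2 * Real.exp n * c - ρ ^ 2 := by
    rw [he, hη, ← hx, hψa]
    ring
  have s3 : 0 ≤ s ^ 3 := by positivity
  -- upper bound for `ρ e`
  have hU : ρ * e ≤ Real.exp (-n) * (1 - n / 2) * n + ρ ^ 2 * (Real.exp n - 1) +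
      53 / 250 * (ρ * s ^ 3) := by
    have a1 : ρ * φ ≤ ρ * (s + 53 / 250 * s ^ 3) := mul_le_mul_of_nonneg_left hφu hρ.le
    have a2 : ρ ^ 2 * Real.exp n * c ≤ ρ ^ 2 * Real.exp n * (1 - s ^ 2 / 2) :=
      mul_le_mul_of_nonneg_left hcu (by positivity)
    rw [hρe]
    nlinarith
  -- lower bound for `ρ e`
  have hLo : Real.exp (-n) * (1 - n / 2) * n + ρ ^ 2 * (Real.exp n - 1) ≤ ρ * e := by
    have a1 : ρ * (s + s ^ 3 / 8) ≤ ρ * φ := mul_le_mul_of_nonneg_left hφl hρ.le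
    have a2 : ρ ^ 2 * Real.exp n * (1 - s ^ 2 / 2 - s ^ 4 / 6) ≤ ρ ^ 2 * Real.exp n * c :=
      mul_le_mul_of_nonneg_left hcl (by positivity)
    have a3 : ρ ^ 2 * Real.exp n * (s ^ 4 / 6) = ρ * s ^ 3 * n / 6 := by
      have : ρ ^ 2 * Real.exp n * (s ^ 4 / 6) = (ρ * Real.exp n * s) * (ρ * s ^ 3) / 6 := by ring
      rw [this, hρs1]
      ring
    have a4 : ρ * s ^ 3 * n / 6 ≤ ρ * s ^ 3 / 8 := by
      have : 0 ≤ ρ * s ^ 3 := by positivity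
      nlinarith
    rw [hρe]
    nlinarith
  have eA := exA n0.le (by linarith)
  have eB := exB n0.le (by linarith)
  have eD := exD n0.le n1
  have eE := exE n0.le n1
  have eF := exF n0.le n1
  have eG : 1 + n + n ^ 2 / 2 + n ^ 3 / 6 ≤ Real.exp n := by
    have := exp_ge4 n0.le
    have h4 : 0 ≤ n ^ 4 / 24 := by positivity
    linarith
  obtain ⟨w, hw⟩ : ∃ w, w = 1 / (1 + ρ ^ 2) := ⟨_, rfl⟩
  rw [← hw] at hF
  have hR : 0 < 1 + ρ ^ 2 := by positivity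
  have hw0 : 0 < w := by rw [hw]; positivity
  have hwR : w * (1 + ρ ^ 2) = 1 := by rw [hw]; field_simp
  have g1 : ρ ^ 2 * w = 1 - w := by linear_combination hwR
  obtain ⟨Pl, hPl⟩ : ∃ P, P = 1 + n * zL w n := ⟨_, rfl⟩
  obtain ⟨Ph, hPh⟩ : ∃ P, P = 1 + n * zH w n := ⟨_, rfl⟩
  have hPlR : (1 + ρ ^ 2) * Pl =
      1 - 3 / 2 * n + n ^ 2 - 21 / 50 * n ^ 3 + ρ ^ 2 * (1 + n / 2 + n ^ 2 / 6) := by
    rw [hPl]
    unfold zL
    linear_combination (n * (-(3 / 2) + n - 21 / 50 * n ^ 2) - n * (1 / 2 + n / 6)) * hwR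
  have hPhR : (1 + ρ ^ 2) * Ph =
      1 - 3 / 2 * n + n ^ 2 - 7 / 20 * n ^ 3 + ρ ^ 2 * (1 + n / 2 + n ^ 2 / 5) := by
    rw [hPh]
    unfold zH
    linear_combination (n * (-(3 / 2) + n - 7 / 20 * n ^ 2) - n * (1 / 2 + n / 5)) * hwR
  have hPl0 : 0 ≤ Pl := by
    have a0 : n ^ 3 ≤ n ^ 2 := by
      have : n ^ 3 = n ^ 2 * n := by ring
      rw [this]
      exact mul_le_of_le_one_right (sq_nonneg n) (by linarith)
    have a1 : 0 ≤ 1 - 3 / 2 * n + n ^ 2 - 21 / 50 * n ^ 3 := by linarith [sq_nonneg n]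
    have a2 : 0 ≤ ρ ^ 2 * (1 + n / 2 + n ^ 2 / 6) := by positivity
    refine (mul_nonneg_iff_of_pos_left hR).1 ?_
    rw [hPlR]
    linarith
  have hLe : n * ((1 + ρ ^ 2) * Pl) ≤ ρ * e := by
    refine le_trans ?_ hLo
    rw [hPlR]
    have b1 := mul_le_mul_of_nonneg_right eF n0.le
    have b2 : ρ ^ 2 * (n + n ^ 2 / 2 + n ^ 3 / 6) ≤ ρ ^ 2 * (Real.exp n - 1) :=
      mul_le_mul_of_nonneg_left (by linarith) (by positivity)
    nlinarith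
  obtain ⟨u, hu⟩ : ∃ u, u = 53 / 250 * (w * (s ^ 2 * Real.exp (-n))) := ⟨_, rfl⟩
  have hu0 : 0 ≤ u := by rw [hu]; positivity
  have hu1 : u ≤ 83 / 1000 * w := by
    have a1 : Real.exp (-n) ≤ 1 := by
      rw [Real.exp_le_one_iff]
      linarith
    have a2 : s ^ 2 * Real.exp (-n) ≤ 16 / 41 * 1 := mul_le_mul hs2 a1 hEn.le (by norm_num)
    have a3 := mul_le_mul_of_nonneg_left a2 hw0.le
    rw [hu]
    nlinarith
  have hUe : ρ * e ≤ n * ((1 + ρ ^ 2) * (Ph + u)) := by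
    refine hU.trans ?_
    have b1 := mul_le_mul_of_nonneg_right eE n0.le
    have b2 : ρ ^ 2 * (Real.exp n - 1) ≤ ρ ^ 2 * (n + n ^ 2 / 2 + n ^ 3 / 5) :=
      mul_le_mul_of_nonneg_left (by linarith) (by positivity)
    have b3 : n * ((1 + ρ ^ 2) * u) = 53 / 250 * (ρ * s ^ 3) := by
      have c1 : (1 + ρ ^ 2) * u = 53 / 250 * (s ^ 2 * Real.exp (-n)) := by
        rw [hu]
        linear_combination (53 / 250 * (s ^ 2 * Real.exp (-n))) * hwR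
      rw [c1]
      linear_combination (-(53 / 250 * s ^ 2)) * hρs
    have b4 : n * ((1 + ρ ^ 2) * (Ph + u)) = n * ((1 + ρ ^ 2) * Ph) + n * ((1 + ρ ^ 2) * u) := by
      ring
    rw [b4, b3, hPhR]
    nlinarith
  have hel : n * (1 + ρ ^ 2) * Pl / ρ ≤ e := by
    rw [div_le_iff₀ hρ]
    linarith
  have hel0 : 0 ≤ n * (1 + ρ ^ 2) * Pl / ρ := by positivity
  have heu : e ≤ n * (1 + ρ ^ 2) * (Ph + u) / ρ := by
    rw [le_div_iff₀ hρ]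
    linarith
  have he0 : 0 ≤ e := hel0.trans hel
  have r1 : ρ * e ^ 2 / (1 + ρ ^ 2) ^ 2 - κ * e ^ 3 / (3 * (1 + ρ ^ 2)) ≤
      n ^ 2 * (Ph + u) ^ 2 / ρ - κ * n ^ 3 * (1 + ρ ^ 2) ^ 2 * Pl ^ 3 / (3 * ρ ^ 3) := by
    have a1 := pow_le_pow_left₀ he0 heu 2
    have a2 := pow_le_pow_left₀ hel0 hel 3
    have c1 : n ^ 2 * (Ph + u) ^ 2 / ρ =
        ρ * (n * (1 + ρ ^ 2) * (Ph + u) / ρ) ^ 2 / (1 + ρ ^ 2) ^ 2 := by
      field_simp
    have c2 : κ * n ^ 3 * (1 + ρ ^ 2) ^ 2 * Pl ^ 3 / (3 * ρ ^ 3) =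
        κ * (n * (1 + ρ ^ 2) * Pl / ρ) ^ 3 / (3 * (1 + ρ ^ 2)) := by
      field_simp
    rw [c1, c2]
    have d1 : ρ * e ^ 2 / (1 + ρ ^ 2) ^ 2 ≤
        ρ * (n * (1 + ρ ^ 2) * (Ph + u) / ρ) ^ 2 / (1 + ρ ^ 2) ^ 2 := by gcongr
    have d2 : κ * (n * (1 + ρ ^ 2) * Pl / ρ) ^ 3 / (3 * (1 + ρ ^ 2)) ≤
        κ * e ^ 3 / (3 * (1 + ρ ^ 2)) := by gcongr
    linarith
  -- lower bound for the right hand side
  have l1 : n ^ 2 / ρ * (1 - n / 2 + 7 / 50 * n ^ 2) -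
      53 / 250 * (n ^ 3 / ρ ^ 3) * Real.exp (-n) ^ 3 ≤ n / ρ - φ := by
    have a1 : n / ρ - s = n / ρ * (1 - Real.exp (-n)) := by rw [hs]; ring
    have a2 : s ^ 3 = n ^ 3 / ρ ^ 3 * Real.exp (-n) ^ 3 := by rw [hs]; ring
    have a3 : n / ρ * (n - n ^ 2 / 2 + 7 / 50 * n ^ 3) ≤ n / ρ * (1 - Real.exp (-n)) :=
      mul_le_mul_of_nonneg_left (by linarith) (by positivity)
    have a5 : n / ρ * (n - n ^ 2 / 2 + 7 / 50 * n ^ 3) =
        n ^ 2 / ρ * (1 - n / 2 + 7 / 50 * n ^ 2) := by ring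
    rw [a5, ← a1] at a3
    rw [mul_assoc, ← a2]
    linarith
  obtain ⟨G, hG⟩ : ∃ G, G = Real.exp (-n) ^ 3 := ⟨_, rfl⟩
  have hG0 : 0 ≤ G := by rw [hG]; positivity
  rw [← hG] at l1 eD
  -- `ρ² u = (53/250) w n² G`
  have hu2 : ρ ^ 2 * u = 53 / 250 * (w * (n ^ 2 * G)) := by
    have : ρ ^ 2 * u = 53 / 250 * (w * ((ρ * s) ^ 2 * Real.exp (-n))) := by rw [hu]; ring
    rw [this, hρs, hG]
    ring
  have hPhu : Pl ≤ Ph + u := by
    have a1 : n * (1 + ρ ^ 2) * Pl ≤ n * (1 + ρ ^ 2) * (Ph + u) := by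
      nlinarith
    exact le_of_mul_le_mul_left a1 (by positivity)
  have hPh0 : 0 ≤ Ph + u := hPl0.trans hPhu
  have key : n ^ 2 / ρ * (1 - n / 2 + 7 / 50 * n ^ 2) - 53 / 250 * (n ^ 3 / ρ ^ 3) * G -
      (n ^ 2 * (Ph + u) ^ 2 / ρ - κ * n ^ 3 * (1 + ρ ^ 2) ^ 2 * Pl ^ 3 / (3 * ρ ^ 3)) =
      n ^ 3 / ρ ^ 3 * ((1 + ρ ^ 2) ^ 2 * FB κ w n +
        53 / 250 * (1 + w * n * (2 * Ph + 83 / 1000 * w)) *
          ((1 - 29 / 10 * n + 15 / 4 * n ^ 2 - 41 / 20 * n ^ 3) - G) +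
        53 / 250 * (w * n * G) * (83 / 1000 * w - u)) := by
    have g2 : (1 + ρ ^ 2) ^ 2 * (w * (1 - w)) = ρ ^ 2 := by
      rw [← g1]
      linear_combination (ρ ^ 2 * (w * (1 + ρ ^ 2) + 1)) * hwR
    have g3 : (1 + ρ ^ 2) ^ 2 * w ^ 2 = 1 := by
      linear_combination (w * (1 + ρ ^ 2) + 1) * hwR
    have g4 : (1 + ρ ^ 2) ^ 2 * FB κ w n =
        κ / 3 * (1 + ρ ^ 2) ^ 2 * Pl ^ 3 -
        ρ ^ 2 * (2 * zH w n + n * (zH w n) ^ 2 + 1 / 2 - 7 / 50 * n) -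
          53 / 250 * (1 - 29 / 10 * n + 15 / 4 * n ^ 2 - 41 / 20 * n ^ 3) *
            (1 + w * n * (2 * Ph + 83 / 1000 * w)) := by
      unfold FB
      rw [← hPl, ← hPh]
      linear_combination (-(2 * zH w n + n * (zH w n) ^ 2 + 1 / 2 - 7 / 50 * n)) * g2 -
        53 / 250 * (1 - 29 / 10 * n + 15 / 4 * n ^ 2 - 41 / 20 * n ^ 3) *
            (1 + w * n * (2 * Ph + 83 / 1000 * w)) * g3
    rw [g4]
    have g5 : n ^ 3 / ρ ^ 3 * (κ / 3 * (1 + ρ ^ 2) ^ 2 * Pl ^ 3 -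
        ρ ^ 2 * (2 * zH w n + n * (zH w n) ^ 2 + 1 / 2 - 7 / 50 * n) -
          53 / 250 * (1 - 29 / 10 * n + 15 / 4 * n ^ 2 - 41 / 20 * n ^ 3) *
            (1 + w * n * (2 * Ph + 83 / 1000 * w)) +
        53 / 250 * (1 + w * n * (2 * Ph + 83 / 1000 * w)) *
          ((1 - 29 / 10 * n + 15 / 4 * n ^ 2 - 41 / 20 * n ^ 3) - G) +
        53 / 250 * (w * n * G) * (83 / 1000 * w - u)) =
        κ * n ^ 3 * (1 + ρ ^ 2) ^ 2 * Pl ^ 3 / (3 * ρ ^ 3) -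
        53 / 250 * (n ^ 3 / ρ ^ 3) * G - n ^ 2 / ρ * (n * (2 * zH w n + n * (zH w n) ^ 2 +
          1 / 2 - 7 / 50 * n)) - (n ^ 2 / ρ ^ 3) * (2 * Ph + u) *
            (53 / 250 * (w * (n ^ 2 * G))) := by
      field_simp
      ring
    rw [g5, ← hu2]
    have g6 : n * (2 * zH w n + n * (zH w n) ^ 2 + 1 / 2 - 7 / 50 * n) =
        Ph ^ 2 - 1 + n / 2 - 7 / 50 * n ^ 2 := by
      rw [hPh]
      ring
    rw [g6]
    field_simp
    ring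
  have fin : 0 ≤ n ^ 3 / ρ ^ 3 * ((1 + ρ ^ 2) ^ 2 * FB κ w n +
        53 / 250 * (1 + w * n * (2 * Ph + 83 / 1000 * w)) *
          ((1 - 29 / 10 * n + 15 / 4 * n ^ 2 - 41 / 20 * n ^ 3) - G) +
        53 / 250 * (w * n * G) * (83 / 1000 * w - u)) := by
    have f1 : 0 ≤ (1 - 29 / 10 * n + 15 / 4 * n ^ 2 - 41 / 20 * n ^ 3) - G := by linarith
    have f2 : 0 ≤ 83 / 1000 * w - u := by linarith
    have f3 : 0 ≤ 2 * Ph + 83 / 1000 * w := by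
      have a0 : n ^ 3 ≤ n ^ 2 := by
        have : n ^ 3 = n ^ 2 * n := by ring
        rw [this]
        exact mul_le_of_le_one_right (sq_nonneg n) (by linarith)
      have a1 : 0 ≤ 1 - 3 / 2 * n + n ^ 2 - 7 / 20 * n ^ 3 := by linarith [sq_nonneg n]
      have a2 : 0 ≤ ρ ^ 2 * (1 + n / 2 + n ^ 2 / 5) := by positivity
      have : 0 ≤ Ph := by
        refine (mul_nonneg_iff_of_pos_left hR).1 ?_
        rw [hPhR]
        linarith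
      positivity
    positivity
  have e2 : η = -e := by rw [he]; ring
  rw [e2, hψa]
  have e3 : ρ * (-e) ^ 2 / (1 + ρ ^ 2) ^ 2 + κ * (-e) ^ 3 / (3 * (1 + ρ ^ 2)) =
      ρ * e ^ 2 / (1 + ρ ^ 2) ^ 2 - κ * e ^ 3 / (3 * (1 + ρ ^ 2)) := by ring
  rw [e3]
  linarith

/-! ### the regimes in `w` -/

theorem FA_mono {κ κ' w y : ℝ} (h : κ' ≤ κ) (hw0 : 0 ≤ w) (hy0 : 0 ≤ y) (hy : y ≤ 14 / 25)
    (hF : 0 ≤ FA κ' w y) : 0 ≤ FA κ w y := by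
  have hP : 0 ≤ 1 + y * zA w y := by
    unfold zA
    have a1 : 0 ≤ y * w := mul_nonneg hy0 hw0
    have a2 : 0 ≤ y ^ 2 * (43 / 50 * w + 7 / 50) := by positivity
    nlinarith
  have e : FA κ w y = FA κ' w y + (κ - κ') / 3 * (1 + y * zA w y) ^ 3 := by
    unfold FA
    ring
  have : 0 ≤ (κ - κ') / 3 * (1 + y * zA w y) ^ 3 := by
    have : 0 ≤ κ - κ' := by linarith
    positivity
  rw [e]
  linarith

theorem nlim {w n W N : ℝ} (hN0 : 0 ≤ N) (hN : N ≤ 46 / 100) (hn : n ≤ 53 / 100) (W0 : 0 < W)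
    (hw : W ≤ w) (hc : 16 / 41 * (1 - W) ≤ N ^ 2 * (1 - N) ^ 2 * W)
    (h : n ^ 2 * (1 - n) ^ 2 * w ≤ 16 / 41 * (1 - w)) : n ≤ N := by
  by_contra hnN
  push Not at hnN
  have a1 : N * (1 - N) < n * (1 - n) := by nlinarith
  have a2 : 0 ≤ N * (1 - N) := mul_nonneg hN0 (by linarith)
  have a3 : (N * (1 - N)) ^ 2 < (n * (1 - n)) ^ 2 := pow_lt_pow_left₀ a1 a2 two_ne_zero
  have a4 : (N * (1 - N)) ^ 2 * W < (n * (1 - n)) ^ 2 * w :=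
    mul_lt_mul a3 hw W0 (sq_nonneg _)
  nlinarith

theorem w_le {a w : ℝ} (ha : 2 / 3 ≤ a) (hw : a ≤ w) : w ^ 2 * (1 - w) ≤ a ^ 2 * (1 - a) := by
  have : a ^ 2 * (1 - a) - w ^ 2 * (1 - w) = (w - a) * (w ^ 2 + a * w + a ^ 2 - w - a) := by ring
  have h : 0 ≤ w ^ 2 + a * w + a ^ 2 - w - a := by nlinarith
  have := mul_nonneg (sub_nonneg.2 hw) h
  linarith

theorem w_le2 {a w : ℝ} (hw0 : 0 ≤ w) (hw : w ≤ a) (ha : a ≤ 1 / 2) :
    w ^ 2 * (1 - w) ≤ a ^ 2 * (1 - a) := by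
  have : a ^ 2 * (1 - a) - w ^ 2 * (1 - w) = (a - w) * (w * (1 - w - a) + a * (1 - a)) := by ring
  have h : 0 ≤ w * (1 - w - a) + a * (1 - a) :=
    add_nonneg (mul_nonneg hw0 (by linarith)) (mul_nonneg (by linarith) (by linarith))
  have := mul_nonneg (sub_nonneg.2 hw) h
  linarith

theorem w_le3 {w : ℝ} (hw0 : 0 ≤ w) : w ^ 2 * (1 - w) ≤ 4 / 27 := by
  have : 4 / 27 - w ^ 2 * (1 - w) = (w - 2 / 3) ^ 2 * (w + 1 / 3) := by ring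
  have := mul_nonneg (sq_nonneg (w - 2 / 3)) (show 0 ≤ w + 1 / 3 by linarith)
  linarith

theorem regimes {w : ℝ} (w0 : 0 < w) (w1 : w < 1) : ∃ κ τ : ℝ, 0 ≤ κ ∧ κ ≤ 1 ∧ 0 ≤ τ ∧
    11 / 10 * (w ^ 2 * (1 - w)) ≤ τ ^ 2 ∧ τ / 5 + 77 / 750 * κ ≤ 3 / 25 ∧
    (∀ y, 0 ≤ y → y ≤ 14 / 25 → 0 ≤ FA κ w y) ∧
    (∀ n, 0 ≤ n → n ≤ 53 / 100 → n ^ 2 * (1 - n) ^ 2 * w ≤ 16 / 41 * (1 - w) →
      0 ≤ FB κ w n) := by
  rcases le_or_gt w (217 / 500) with h | h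
  · refine ⟨1 / 2, 3433 / 10000, by norm_num, by norm_num, by norm_num, ?_, by norm_num, ?_, ?_⟩
    · have := w_le2 w0.le h (by norm_num)
      refine (mul_le_mul_of_nonneg_left this (by norm_num)).trans (by norm_num)
    · intro y y0 y1
      rcases le_or_gt w (11 / 50) with h' | h'
      · exact rA4 w0.le h' y0 y1
      · exact rA3 h'.le h y0 y1
    · intro n n0 n1 _
      exact rB5 w0.le h n0 n1
  rcases le_or_gt w (233 / 250) with h2 | h2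
  · refine ⟨19 / 50, 4049 / 10000, by norm_num, by norm_num, by norm_num, ?_, by norm_num, ?_, ?_⟩
    · refine (mul_le_mul_of_nonneg_left (w_le3 w0.le) (by norm_num)).trans (by norm_num)
    · intro y y0 y1
      exact rA2 h.le h2 y0 y1
    · intro n n0 n1 _
      exact rB4 h.le h2 n0 n1
  rcases le_or_gt w (193 / 200) with h3 | h3
  · refine ⟨67 / 100, 256 / 1000, by norm_num, by norm_num, by norm_num, ?_, by norm_num, ?_, ?_⟩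
    · refine (mul_le_mul_of_nonneg_left (w_le (by norm_num) h2.le) (by norm_num)).trans
        (by norm_num)
    · intro y y0 y1
      exact rA1 h2.le w1.le y0 y1
    · intro n n0 n1 hc
      exact rB3 h2.le h3 n0 (nlim (by norm_num) (by norm_num) n1 (by norm_num) h2.le
        (by norm_num) hc)
  rcases le_or_gt w (983 / 1000) with h4 | h4
  · refine ⟨79 / 100, 194 / 1000, by norm_num, by norm_num, by norm_num, ?_, by norm_num, ?_, ?_⟩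
    · refine (mul_le_mul_of_nonneg_left (w_le (by norm_num) h3.le) (by norm_num)).trans
        (by norm_num)
    · intro y y0 y1
      exact FA_mono (by norm_num) w0.le y0 y1 (rA1 h2.le w1.le y0 y1)
    · intro n n0 n1 hc
      exact rB2 h3.le h4 n0 (nlim (by norm_num) (by norm_num) n1 (by norm_num) h3.le
        (by norm_num) hc)
  · refine ⟨9 / 10, 138 / 1000, by norm_num, by norm_num, by norm_num, ?_, by norm_num, ?_, ?_⟩
    · refine (mul_le_mul_of_nonneg_left (w_le (by norm_num) h4.le) (by norm_num)).trans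
        (by norm_num)
    · intro y y0 y1
      exact FA_mono (by norm_num) w0.le y0 y1 (rA1 h2.le w1.le y0 y1)
    · intro n n0 n1 hc
      exact rB1 h4.le w1.le n0 (nlim (by norm_num) (by norm_num) n1 (by norm_num) h4.le
        (by norm_num) hc)

/-- the final numerical inequality -/
theorem fin_num {ω t g w κ τ : ℝ} (hg0 : 0 ≤ g) (ht0 : 0 ≤ t)
    (ht : t ^ 2 = g * (w ^ 2 * (1 - w))) (hw0 : 0 ≤ w) (hw1 : w ≤ 1) (hκ0 : 0 ≤ κ) (hκ1 : κ ≤ 1)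
    (hτ0 : 0 ≤ τ) (hτ : 11 / 10 * (w ^ 2 * (1 - w)) ≤ τ ^ 2) (hτκ : τ / 5 + 77 / 750 * κ ≤ 3 / 25)
    (hc : (ω = 1 / 4 ∧ g ≤ 401 / 2000) ∨ (ω = 3 / 20 ∧ g ≤ 401 / 1000) ∨
      (ω = 1 / 10 ∧ g ≤ 11 / 10)) :
    2 * ω * t + κ * g * (1 / 12 + ω ^ 2) ≤ 3 / 25 := by
  have hq0 : 0 ≤ w ^ 2 * (1 - w) := mul_nonneg (sq_nonneg _) (by linarith)
  have hq := w_le3 hw0
  rcases hc with ⟨rfl, hg⟩ | ⟨rfl, hg⟩ | ⟨rfl, hg⟩
  · have a1 : t ^ 2 ≤ (1724 / 10000) ^ 2 := by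
      rw [ht]
      exact (mul_le_mul hg hq hq0 (by norm_num)).trans (by norm_num)
    have a2 : t ≤ 1724 / 10000 := (abs_le_of_sq_le_sq' a1 (by norm_num)).2
    have a3 : κ * g ≤ 1 * (401 / 2000) := mul_le_mul hκ1 hg hg0 (by norm_num)
    linarith
  · have a1 : t ^ 2 ≤ (2438 / 10000) ^ 2 := by
      rw [ht]
      exact (mul_le_mul hg hq hq0 (by norm_num)).trans (by norm_num)
    have a2 : t ≤ 2438 / 10000 := (abs_le_of_sq_le_sq' a1 (by norm_num)).2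
    have a3 : κ * g ≤ 1 * (401 / 1000) := mul_le_mul hκ1 hg hg0 (by norm_num)
    linarith
  · have a1 : t ^ 2 ≤ τ ^ 2 := by
      rw [ht]
      exact (mul_le_mul_of_nonneg_right hg hq0).trans hτ
    have a2 : t ≤ τ := (abs_le_of_sq_le_sq' a1 hτ0).2
    have a3 : κ * g ≤ κ * (11 / 10) := mul_le_mul_of_nonneg_left hg hκ0
    linarith

/-- the weak facts on the saddle that are used -/
theorem sad_weak {N : ℕ} {r δ y : ℝ} (h : Sad1 N r δ y) :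
    -(53 / 100) ≤ y ∧ y ≤ 14 / 25 ∧ |y| ≤ 4 / 5 * sx (r * δ) y := by
  have hx := sx_nonneg (r * δ) y
  rcases h with ⟨_, h⟩ | ⟨_, h⟩
  · exact ⟨by linarith [h.lo], by linarith [h.hi], by linarith [h.T]⟩
  · exact ⟨h.lo, h.hi, h.T⟩

/-- the core inequality in `ρ = r δ` -/
theorem core {ρ h η y0 y1 ω : ℝ} (hρ : 0 < ρ) (hh : 0 < h) (D0 : Dom ρ y0) (D1 : Dom ρ y1)
    (m0 : -1 < y0) (m1 : -1 < y1) (E0 : sE ρ y0 = η) (E1 : sE ρ y1 = η - h)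
    (u0 : y0 ≤ 14 / 25) (l1 : -(53 / 100) ≤ y1)
    (T0 : |y0| ≤ 4 / 5 * sx ρ y0) (T1 : |y1| ≤ 4 / 5 * sx ρ y1)
    (e1 : (1 / 2 - ω) * h ≤ η) (e2 : η ≤ (1 / 2 + ω) * h)
    (hc : (ω = 1 / 4 ∧ h ^ 2 / (1 + ρ ^ 2) ≤ 401 / 2000) ∨
      (ω = 3 / 20 ∧ h ^ 2 / (1 + ρ ^ 2) ≤ 401 / 1000) ∨
      (ω = 1 / 10 ∧ h ^ 2 / (1 + ρ ^ 2) ≤ 11 / 10)) :
    22 / 25 * (ρ * h) ≤ (y0 - y1) + ρ * (sx ρ y1 - sx ρ y0) := by
  have hω : ω ≤ 1 / 4 ∧ 0 ≤ ω := by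
    rcases hc with ⟨rfl, _⟩ | ⟨rfl, _⟩ | ⟨rfl, _⟩ <;> norm_num
  have hη0 : 0 < η := by
    have : 0 < (1 / 2 - ω) * h := mul_pos (by linarith [hω.1]) hh
    linarith
  have hηh : η - h < 0 := by
    have : 0 < (1 / 2 - ω) * h := mul_pos (by linarith [hω.1]) hh
    nlinarith
  have hz := sE_zero hρ
  have py0 : 0 < y0 := by
    by_contra hn
    push Not at hn
    have k := (sE_strictMonoOn D0 (dom_zero hρ) m0.le).monotoneOn
      (Set.mem_Icc.2 ⟨le_refl _, hn⟩) (Set.mem_Icc.2 ⟨hn, le_refl _⟩) hn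
    rw [E0, hz] at k
    linarith
  have py1 : y1 < 0 := by
    by_contra hn
    push Not at hn
    have k := (sE_strictMonoOn (dom_zero hρ) D1 (by norm_num)).monotoneOn
      (Set.mem_Icc.2 ⟨le_refl _, hn⟩) (Set.mem_Icc.2 ⟨hn, le_refl _⟩) hn
    rw [E1, hz] at k
    linarith
  obtain ⟨n, hn⟩ : ∃ n, n = -y1 := ⟨_, rfl⟩
  have hy1 : y1 = -n := by rw [hn]; ring
  subst hy1
  have n0 : 0 < n := by linarith
  have n1 : n ≤ 53 / 100 := by linarith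
  rw [abs_of_pos py0] at T0
  rw [abs_of_neg py1, neg_neg] at T1
  have hR : 0 < 1 + ρ ^ 2 := by positivity
  obtain ⟨w, hw⟩ : ∃ w, w = 1 / (1 + ρ ^ 2) := ⟨_, rfl⟩
  have hw0 : 0 < w := by rw [hw]; positivity
  have hwR : w * (1 + ρ ^ 2) = 1 := by rw [hw]; field_simp
  have g1 : ρ ^ 2 * w = 1 - w := by linear_combination hwR
  have hw1 : w < 1 := by
    have : 0 < ρ ^ 2 * w := by positivity
    linarith
  obtain ⟨κ, τ, hκ0, hκ1, hτ0, hτ, hτκ, hA, hB⟩ := regimes hw0 hw1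
  -- the constraint for `n`
  have hcon : n ^ 2 * (1 - n) ^ 2 * w ≤ 16 / 41 * (1 - w) := by
    have hsin := D1.sin
    have hcos := D1.cos
    have hEn : 0 < Real.exp (-n) := Real.exp_pos _
    have h1 : (n * Real.exp (-n) / ρ) ^ 2 + (sx ρ (-n) * Real.exp (-n) / ρ) ^ 2 = 1 := by
      have := Real.sin_sq_add_cos_sq (sP ρ (-n))
      rw [hsin, hcos] at this
      have e : (-n * Real.exp (-n) / ρ) ^ 2 = (n * Real.exp (-n) / ρ) ^ 2 := by ring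
      rw [e] at this
      exact this
    have h2 : (n * Real.exp (-n) / ρ) ^ 2 ≤ 16 / 41 := by
      refine s_sq_le (by positivity) ?_ h1 ?_
      · have := sx_nonneg ρ (-n)
        positivity
      · rw [← mul_div_assoc, ← mul_assoc]
        exact div_le_div_of_nonneg_right (mul_le_mul_of_nonneg_right T1 hEn.le) hρ.le
    have h3 : 1 - n ≤ Real.exp (-n) := by
      have := Real.add_one_le_exp (-n)
      linarith
    have h4 : (1 - n) ^ 2 ≤ Real.exp (-n) ^ 2 := pow_le_pow_left₀ (by linarith) h3 2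
    have h5 : n ^ 2 * (1 - n) ^ 2 * w ≤ n ^ 2 * Real.exp (-n) ^ 2 * w := by gcongr
    have h6 : n ^ 2 * Real.exp (-n) ^ 2 * w =
        (n * Real.exp (-n) / ρ) ^ 2 * (ρ ^ 2 * w) := by field_simp
    rw [h6, g1] at h5
    exact h5.trans (mul_le_mul_of_nonneg_right h2 (by linarith))
  have kA := lemA D0 py0 u0 T0 hκ0 (by rw [← hw]; exact hA y0 py0.le u0)
  have kB := lemB D1 n0 n1 T1 hκ0 (by rw [← hw]; exact hB n n0.le n1 hcon)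
  rw [E0] at kA
  rw [E1] at kB
  have x0 : η = sP ρ y0 + ρ - sx ρ y0 := by rw [← E0]; rfl
  have x1 : η - h = sP ρ (-n) + ρ - sx ρ (-n) := by rw [← E1]; rfl
  obtain ⟨t, ht⟩ : ∃ t, t = ρ * h * w ^ 2 := ⟨_, rfl⟩
  obtain ⟨g, hg⟩ : ∃ g, g = h ^ 2 * w := ⟨_, rfl⟩
  have hg' : h ^ 2 / (1 + ρ ^ 2) = g := by rw [hg, hw]; field_simp
  rw [hg'] at hc
  have ht0 : 0 ≤ t := by rw [ht]; positivity
  have hg0 : 0 ≤ g := by rw [hg]; positivity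
  have ht2 : t ^ 2 = g * (w ^ 2 * (1 - w)) := by
    rw [ht, hg, ← g1]
    ring
  have fn := fin_num (ω := ω) hg0 ht0 ht2 hw0.le hw1.le hκ0 hκ1 hτ0 hτ hτκ hc
  -- the difference of the two sides
  have q1 : ρ * η ^ 2 / (1 + ρ ^ 2) ^ 2 + κ * η ^ 3 / (3 * (1 + ρ ^ 2)) -
      (ρ * (η - h) ^ 2 / (1 + ρ ^ 2) ^ 2 + κ * (η - h) ^ 3 / (3 * (1 + ρ ^ 2))) =
      ρ * w ^ 2 * (h * (2 * η - h)) + κ * w / 3 * (h * (h ^ 2 / 4 + 3 * (η - h / 2) ^ 2)) := by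
    rw [hw]
    field_simp
    ring
  have q2 : h * (2 * η - h) ≤ h * (2 * ω * h) :=
    mul_le_mul_of_nonneg_left (by linarith) hh.le
  have q3 : (η - h / 2) ^ 2 ≤ (ω * h) ^ 2 := by
    apply sq_le_sq'
    · linarith
    · linarith
  have q4 : ρ * w ^ 2 * (h * (2 * η - h)) ≤ ρ * w ^ 2 * (h * (2 * ω * h)) :=
    mul_le_mul_of_nonneg_left q2 (by positivity)
  have q5 : κ * w / 3 * (h * (h ^ 2 / 4 + 3 * (η - h / 2) ^ 2)) ≤
      κ * w / 3 * (h * (h ^ 2 / 4 + 3 * (ω * h) ^ 2)) := by gcongr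
  have q6 : ρ * w ^ 2 * (h * (2 * ω * h)) + κ * w / 3 * (h * (h ^ 2 / 4 + 3 * (ω * h) ^ 2)) =
      h * (2 * ω * t + κ * g * (1 / 12 + ω ^ 2)) := by
    rw [ht, hg]
    ring
  have q7 := mul_le_mul_of_nonneg_left fn hh.le
  have q8 : sP ρ y0 - y0 / ρ - (sP ρ (-n) + n / ρ) ≤ h * (3 / 25) := by linarith
  have q9 := mul_le_mul_of_nonneg_left q8 hρ.le
  have q10 : ρ * (sP ρ y0 - y0 / ρ - (sP ρ (-n) + n / ρ)) =
      ρ * (sP ρ y0 - sP ρ (-n)) - y0 - n := by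
    field_simp
    ring
  rw [q10] at q9
  have q11 : sP ρ y0 - sP ρ (-n) = h - (sx ρ (-n) - sx ρ y0) := by linarith
  rw [q11] at q9
  nlinarith

theorem pair1 : PPair1 := by
  intro N r δ y0 y1 η hreg h0 h1 s0 s1 b1 b2
  have hr := hreg.r0
  have hδ := hreg.d0
  have hr0 : 0 < r := by linarith
  have hρ : 0 < r * δ := mul_pos hr0 hδ
  have hN : (3 : ℝ) ≤ N := by exact_mod_cast hreg.N3
  have hh : 0 < hst N := by
    unfold hst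
    have := Real.pi_pos
    positivity
  obtain ⟨l0, u0, T0⟩ := sad_weak s0
  obtain ⟨l1, u1, T1⟩ := sad_weak s1
  have hR : 0 < 1 + (r * δ) ^ 2 := by positivity
  have hI : hst N ^ 2 / (1 + (r * δ) ^ 2) ≤ 11 / 10 := by
    rw [div_le_iff₀ hR]
    exact hreg.I
  have hG : Gm N r δ = r * (hst N ^ 2 / (1 + (r * δ) ^ 2)) := by
    unfold Gm RR
    ring
  have hg0 : 0 ≤ hst N ^ 2 / (1 + (r * δ) ^ 2) := by positivity
  have hc : (om1 N r δ = 1 / 4 ∧ hst N ^ 2 / (1 + (r * δ) ^ 2) ≤ 401 / 2000) ∨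
      (om1 N r δ = 3 / 20 ∧ hst N ^ 2 / (1 + (r * δ) ^ 2) ≤ 401 / 1000) ∨
      (om1 N r δ = 1 / 10 ∧ hst N ^ 2 / (1 + (r * δ) ^ 2) ≤ 11 / 10) := by
    unfold om1
    split_ifs with c1 c2
    · left
      refine ⟨rfl, ?_⟩
      rw [hG] at c1
      nlinarith
    · right; left
      refine ⟨rfl, ?_⟩
      rw [hG] at c2
      nlinarith
    · right; right
      exact ⟨rfl, hI⟩
  have k := core hρ hh h0.dom h1.dom h0.y1 h1.y1 h0.eta h1.eta u0 l1 T0 T1 b1 b2 hc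
  have hs : 0 < √(1 + (r * δ) ^ 2) := Real.sqrt_pos.2 hR
  have hs2 : √(1 + (r * δ) ^ 2) ^ 2 = 1 + (r * δ) ^ 2 := Real.sq_sqrt hR.le
  have e1 : kap r δ y0 - kap r δ y1 = (sK (r * δ) y0 - sK (r * δ) y1) / δ := by
    unfold kap
    ring
  have e2 : ‖kap r δ y0 - kap r δ y1‖ = ‖sK (r * δ) y0 - sK (r * δ) y1‖ / δ := by
    rw [e1, norm_div, Complex.norm_real, Real.norm_of_nonneg hδ.le]
  have e3 : ‖sK (r * δ) y0 - sK (r * δ) y1‖ ^ 2 =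
      (sx (r * δ) y1 - sx (r * δ) y0) ^ 2 + (y0 - y1) ^ 2 := by
    rw [Complex.sq_norm, Complex.normSq_apply]
    unfold sK
    simp
    ring
  have e4 : ((y0 - y1) + r * δ * (sx (r * δ) y1 - sx (r * δ) y0)) ≤
      √(1 + (r * δ) ^ 2) * ‖sK (r * δ) y0 - sK (r * δ) y1‖ := by
    refine (abs_le_of_sq_le_sq' ?_ ?_).2
    · rw [mul_pow, hs2, e3]
      nlinarith [sq_nonneg ((sx (r * δ) y1 - sx (r * δ) y0) - r * δ * (y0 - y1))]
    · positivity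
  rw [e2]
  unfold HH RR
  rw [le_div_iff₀ hδ]
  have e5 : 22 / 25 * (r * hst N / √(1 + (r * δ) ^ 2)) * δ =
      22 / 25 * (r * δ * hst N) / √(1 + (r * δ) ^ 2) := by ring
  rw [e5, div_le_iff₀ hs]
  linarith

end SokalPair1
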