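import Pool.Agent.Lib_MP_af4de1_v3.RunLE0

/-!
# Left runs: tree tLEBc (helper93)
-/

set_option autoImplicit false

namespace SokalCel

def tLEBc1t : BT := (.X (.Y (.Z .L .L) (.Z .L .L)) (.Y (.Z .L (.X .L (.Y .L (.Z .L .L)))) (.Z (.X
  .L .L) (.X (.Y .L (.Z .L .L)) (.Y (.Z .L (.X .L .L)) (.Z .L (.X .L .L)))))))
theorem tLEBc1 : bisT (okLE chkLB 714682558054 714682558055 10995116277760 true) tLEBc1t 0 769658139444 0 1303482000000 357341279027 714682558055 = true := by
  decide +kernel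

def tLEBc3t : BT := (.Y (.Z .L (.X .L (.Y .L .L))) (.Z (.X .L (.Y .L (.Z .L (.X .L (.Y .L (.Z .L
  .L)))))) (.X (.Y (.Z .L .L) (.Z (.X (.Y .L .L) (.Y .L .L)) .L)) (.Y (.Z (.X .L .L) (.X (.Y .L
  .L) (.Y .L .L))) (.Z (.X (.Y .L .L) (.Y (.Z .L .L) .L)) .L)))))
theorem tLEBc3 : bisT (okLE chkLB 714682558054 714682558055 10995116277760 true) tLEBc3t 0 384829069722 1303482000000 2606964000000 357341279027 714682558055 = true := by
  decide +kernel

def tLEBc4t : BT := (.Y (.Z (.X .L (.Y (.Z .L .L) (.Z .L .L))) (.X (.Y (.Z .L (.X .L .L)) (.Z (.X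
  .L .L) (.X .L .L))) (.Y (.Z .L (.X .L .L)) (.Z .L (.X .L .L))))) (.Z (.X (.Y (.Z .L .L) (.Z .L
  (.X .L .L))) (.Y (.Z .L .L) (.Z .L .L))) (.X (.Y (.Z (.X .L .L) (.X (.Y .L .L) .L)) (.Z (.X (.Y
  .L .L) (.Y .L .L)) .L)) (.Y (.Z (.X .L .L) (.X .L .L)) (.Z (.X (.Y .L .L) .L) .L)))))
theorem tLEBc4 : bisT (okLE chkLB 714682558054 714682558055 10995116277760 true) tLEBc4t 384829069722 769658139444 1303482000000 2606964000000 357341279027 714682558055 = true := by
  decide +kernel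

def tLEBc2t : BT := BT.X tLEBc3t tLEBc4t
theorem tLEBc2 : bisT (okLE chkLB 714682558054 714682558055 10995116277760 true) tLEBc2t 0 769658139444 1303482000000 2606964000000 357341279027 714682558055 = true :=
  bisT_X 384829069722 tLEBc3 tLEBc4 rfl

def tLEBc0t : BT := BT.Y tLEBc1t tLEBc2t
theorem tLEBc0 : bisT (okLE chkLB 714682558054 714682558055 10995116277760 true) tLEBc0t 0 769658139444 0 2606964000000 357341279027 714682558055 = true :=
  bisT_Y 1303482000000 tLEBc1 tLEBc2 rfl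

theorem tLEBc : bisT (okLE chkLB 714682558054 714682558055 10995116277760 true) tLEBc0t 0 769658139444 0 2606964000000 357341279027 714682558055 = true := tLEBc0

end SokalCel
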