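import Pool.Agent.Lib_MP_af4de1_v3.RunLE0

/-!
# Left runs: tree tLEBn (helper93)
-/

set_option autoImplicit false

namespace SokalCel

def tLEBn1t : BT := (.X (.Y (.Z .L (.X .L (.Y .L (.Z .L .L)))) (.Z (.X .L (.Y .L .L)) (.X .L (.Y
  .L .L)))) (.Y (.Z (.X .L .L) (.X (.Y .L (.Z .L .L)) (.Y .L (.Z .L .L)))) (.Z (.X (.Y .L .L) (.Y
  .L (.Z .L .L))) (.X (.Y (.Z .L (.X .L .L)) (.Z .L .L)) (.Y (.Z .L (.X .L .L)) (.Z .L (.X .L
  .L)))))))
theorem tLEBn1 : bisT (okLE chkLB 714682558054 714682558055 10995116277760 false) tLEBn1t 0 791648371999 0 1303482000000 357341279027 714682558055 = true := by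
  decide +kernel

def tLEBn2t : BT := (.X (.Y (.Z .L (.X .L (.Y .L (.Z .L .L)))) (.Z (.X .L (.Y .L (.Z .L .L))) .L))
  (.Y (.Z (.X (.Y .L .L) (.Y .L .L)) (.X (.Y (.Z .L .L) (.Z .L .L)) (.Y (.Z .L .L) (.Z .L (.X .L
  .L))))) (.Z (.X (.Y .L .L) (.Y .L (.Z .L .L))) (.X .L (.Y (.Z (.X .L .L) .L) .L)))))
theorem tLEBn2 : bisT (okLE chkLB 714682558054 714682558055 10995116277760 false) tLEBn2t 0 791648371999 1303482000000 2606964000000 357341279027 714682558055 = true := by
  decide +kernel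

def tLEBn0t : BT := BT.Y tLEBn1t tLEBn2t
theorem tLEBn0 : bisT (okLE chkLB 714682558054 714682558055 10995116277760 false) tLEBn0t 0 791648371999 0 2606964000000 357341279027 714682558055 = true :=
  bisT_Y 1303482000000 tLEBn1 tLEBn2 rfl

theorem tLEBn : bisT (okLE chkLB 714682558054 714682558055 10995116277760 false) tLEBn0t 0 791648371999 0 2606964000000 357341279027 714682558055 = true := tLEBn0

end SokalCel
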