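import Pool.Agent.Lib_MP_af4de1_v3.RunLE0

/-!
# Left runs: tree tLECc (helper93)
-/

set_option autoImplicit false

namespace SokalCel

def tLECc0t : BT := (.Y (.X .L (.Y (.Z .L .L) (.Z .L (.X .L .L)))) (.X (.Y .L (.Z .L (.X (.Y .L
  .L) (.Y .L .L)))) (.Y (.Z (.X .L .L) (.X .L (.Y (.Z .L .L) (.Z .L (.X .L .L))))) (.Z (.X (.Y .L
  (.Z .L .L)) (.Y .L (.Z .L .L))) (.X (.Y (.Z .L .L) .L) (.Y (.Z .L .L) .L))))))
theorem tLECc0 : bisT (okLE chkLC 659706976665 659706976666 21990232555520 true) tLECc0t 0 769658139444 0 2657098000000 329853488332 659706976666 = true := by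
  decide +kernel

theorem tLECc : bisT (okLE chkLC 659706976665 659706976666 21990232555520 true) tLECc0t 0 769658139444 0 2657098000000 329853488332 659706976666 = true := tLECc0

end SokalCel
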