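import Pool.Agent.Lib_MP_af4de1_v3.RunLEAc
import Pool.Agent.Lib_MP_af4de1_v3.RunLEAn
import Pool.Agent.Lib_MP_af4de1_v3.RunLEBc
import Pool.Agent.Lib_MP_af4de1_v3.RunLEBn
import Pool.Agent.Lib_MP_af4de1_v3.RunLECc
import Pool.Agent.Lib_MP_af4de1_v3.RunLECn

/-!
# The left runs of field `e`: `E1L` (helper93)
-/

set_option autoImplicit false

namespace SokalCel

open SokalFN

theorem runLE_A : RunLE (11 / 10) (6 / 5) 1 (3 / 4) (27 / 5) (1 / 300000) (1 / 9000) (1 / 700000) := by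
  refine runLE_of chkLA_snd (by norm_num) ?_ (by norm_num) ?_ ?_ ?_ ?_ tLEAc tLEAn
  · unfold fx; norm_num
  · unfold fx; norm_num
  · unfold fx; norm_num
  · have h := Real.pi_lt_d4
    rw [div_le_iff₀ (by norm_num)]
    unfold fx
    norm_num at h ⊢
    linarith
  · unfold fx; norm_num

theorem runLE_B : RunLE (23 / 20) (6 / 5) 1 (13 / 20) 10 (1 / 250000) (1 / 4700) (1 / 700000) := by
  refine runLE_of chkLB_snd (by norm_num) ?_ (by norm_num) ?_ ?_ ?_ ?_ tLEBc tLEBn
  · unfold fx; norm_num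
  · unfold fx; norm_num
  · unfold fx; norm_num
  · have h := Real.pi_lt_d4
    rw [div_le_iff₀ (by norm_num)]
    unfold fx
    norm_num at h ⊢
    linarith
  · unfold fx; norm_num

theorem runLE_C : RunLE (23 / 20) (6 / 5) 1 (3 / 5) 20 (1 / 9000) (18 / 10000) (1 / 40000) := by
  refine runLE_of chkLC_snd (by norm_num) ?_ (by norm_num) ?_ ?_ ?_ ?_ tLECc tLECn
  · unfold fx; norm_num
  · unfold fx; norm_num
  · unfold fx; norm_num
  · have h := Real.pi_lt_d4
    rw [div_le_iff₀ (by norm_num)]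
    unfold fx
    norm_num at h ⊢
    linarith
  · unfold fx; norm_num

/-- `h ≤ ζ ≤ 2h`, left -/
theorem e1L : SokalCen.E1L := e1L_of runLE_A runLE_B runLE_C

end SokalCel
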