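import Pool.Agent.Lib_MP_af4de1_v3.RunLab0

/-!
# Left runs: tree tLan (helper93)
-/

set_option autoImplicit false

namespace SokalCel

def tLan0t : BT := (.X (.Y (.X (.Y (.Z (.X .L .L) .L) .L) (.Y (.Z (.X (.Y .L (.Z .L .L)) (.Y .L
  (.Z .L .L))) (.X .L .L)) .L)) .L) (.Y (.X (.Y (.Z (.X (.Y .L (.Z (.X .L .L) .L)) (.Y .L (.Z (.X
  .L .L) .L))) (.X .L .L)) .L) (.Y (.Z (.X (.Y .L (.Z (.X .L .L) .L)) (.Y .L (.Z (.X .L .L) .L)))
  (.X .L .L)) (.Z (.X .L (.Y .L .L)) (.X .L .L)))) .L))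
theorem tLan0 : bisT (okGN (celG KLa (chkK KLa))) tLan0t 0 791648371999 0 2303000000000 0 274877906944 = true := by
  decide +kernel

theorem tLan : bisT (okGN (celG KLa (chkK KLa))) tLan0t 0 791648371999 0 2303000000000 0 274877906944 = true := tLan0

end SokalCel
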