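import Pool.Agent.Lib_MP_af4de1_v3.RunLab0

/-!
# Left runs: tree tLbn (helper93)
-/

set_option autoImplicit false

namespace SokalCel

def tLbn3t : BT := (.X (.Y (.Z (.X (.Y .L (.Z (.X .L .L) .L)) (.Y (.Z .L .L) (.Z (.X (.Y .L .L)
  (.Y .L .L)) (.X .L .L)))) (.X (.Y .L (.Z .L .L)) (.Y .L (.Z .L .L)))) .L) (.Y (.Z (.X (.Y (.Z
  (.X .L .L) .L) (.Z (.X (.Y (.Z .L .L) .L) (.Y (.Z .L .L) .L)) (.X .L (.Y .L .L)))) (.Y (.Z (.X
  .L .L) .L) (.Z (.X (.Y (.Z .L .L) .L) (.Y (.Z .L .L) .L)) (.X (.Y .L .L) (.Y .L .L))))) (.X (.Y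
  .L (.Z (.X .L .L) (.X .L .L))) (.Y (.Z .L .L) (.Z (.X .L .L) (.X .L .L))))) .L))
theorem tLbn3 : bisT (okGN (celG KLb (chkK KLb))) tLbn3t 0 395824185999 0 1151500000000 274877906944 549755813888 = true := by
  decide +kernel

def tLbn4t : BT := (.X (.Y (.Z (.X (.Y .L (.Z .L .L)) (.Y .L (.Z .L .L))) (.X .L (.Y .L (.Z .L
  .L)))) .L) (.Y (.Z (.X (.Y .L (.Z .L .L)) (.Y .L (.Z (.X .L .L) (.X .L .L)))) (.X (.Y .L (.Z .L
  .L)) (.Y .L (.Z (.X .L .L) (.X .L .L))))) .L))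
theorem tLbn4 : bisT (okGN (celG KLb (chkK KLb))) tLbn4t 0 395824185999 0 1151500000000 549755813888 824633720832 = true := by
  decide +kernel

def tLbn2t : BT := BT.Z tLbn3t tLbn4t
theorem tLbn2 : bisT (okGN (celG KLb (chkK KLb))) tLbn2t 0 395824185999 0 1151500000000 274877906944 824633720832 = true :=
  bisT_Z 549755813888 tLbn3 tLbn4 rfl

def tLbn5t : BT := BT.L
theorem tLbn5 : bisT (okGN (celG KLb (chkK KLb))) tLbn5t 0 395824185999 1151500000000 2303000000000 274877906944 824633720832 = true := by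
  decide +kernel

def tLbn1t : BT := BT.Y tLbn2t tLbn5t
theorem tLbn1 : bisT (okGN (celG KLb (chkK KLb))) tLbn1t 0 395824185999 0 2303000000000 274877906944 824633720832 = true :=
  bisT_Y 1151500000000 tLbn2 tLbn5 rfl

def tLbn9t : BT := (.Y (.Z (.X (.Y (.Z (.X .L .L) .L) (.Z (.X (.Y (.Z .L .L) .L) (.Y (.Z .L .L)
  .L)) (.X (.Y .L .L) (.Y .L .L)))) (.Y (.Z (.X .L .L) .L) (.Z (.X (.Y (.Z .L .L) .L) (.Y (.Z .L
  .L) (.Z (.X .L .L) .L))) (.X (.Y .L .L) (.Y .L (.Z .L .L)))))) (.X (.Y (.Z .L .L) (.Z (.X .L .L)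
  (.X .L .L))) (.Y (.Z .L .L) (.Z (.X .L .L) (.X .L .L))))) (.Z (.X .L .L) (.X .L .L)))
theorem tLbn9 : bisT (okGN (celG KLb (chkK KLb))) tLbn9t 395824185999 593736278999 0 1151500000000 274877906944 549755813888 = true := by
  decide +kernel

def tLbn10t : BT := (.Y (.Z (.X (.Y (.Z (.X .L .L) .L) (.Z (.X (.Y (.Z .L .L) (.Z (.X .L .L) (.X
  .L .L))) (.Y .L (.Z (.X .L .L) .L))) (.X (.Y .L (.Z .L .L)) (.Y .L (.Z .L .L))))) (.Y (.Z (.X .L
  .L) .L) (.Z (.X (.Y .L (.Z (.X .L .L) .L)) (.Y .L (.Z (.X .L .L) .L))) (.X (.Y .L (.Z .L .L))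
  .L)))) (.X (.Y (.Z .L .L) (.Z (.X .L .L) (.X .L .L))) (.Y (.Z .L .L) (.Z (.X .L .L) (.X .L
  .L))))) (.Z (.X (.Y .L .L) (.Y (.Z (.X .L .L) (.X .L .L)) .L)) (.X (.Y .L .L) (.Y (.Z (.X .L .L)
  (.X .L .L)) .L))))
theorem tLbn10 : bisT (okGN (celG KLb (chkK KLb))) tLbn10t 593736278999 791648371999 0 1151500000000 274877906944 549755813888 = true := by
  decide +kernel

def tLbn8t : BT := BT.X tLbn9t tLbn10t
theorem tLbn8 : bisT (okGN (celG KLb (chkK KLb))) tLbn8t 395824185999 791648371999 0 1151500000000 274877906944 549755813888 = true :=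
  bisT_X 593736278999 tLbn9 tLbn10 rfl

def tLbn11t : BT := (.X (.Y (.Z (.X (.Y .L (.Z (.X .L .L) (.X .L .L))) (.Y .L (.Z (.X .L .L) (.X
  .L .L)))) (.X (.Y .L (.Z (.X .L .L) (.X .L .L))) (.Y .L (.Z (.X .L .L) (.X .L .L))))) (.Z (.X .L
  (.Y .L .L)) (.X .L (.Y .L .L)))) (.Y (.Z (.X (.Y .L (.Z (.X .L .L) (.X .L .L))) (.Y .L (.Z (.X
  .L .L) (.X .L .L)))) (.X (.Y .L (.Z (.X .L .L) (.X .L .L))) (.Y .L (.Z (.X .L .L) (.X .L .L)))))
  (.Z (.X (.Y .L .L) (.Y (.Z (.X .L .L) (.X .L .L)) .L)) (.X (.Y .L .L) (.Y (.Z (.X .L .L) (.X .L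
  .L)) .L)))))
theorem tLbn11 : bisT (okGN (celG KLb (chkK KLb))) tLbn11t 395824185999 791648371999 0 1151500000000 549755813888 824633720832 = true := by
  decide +kernel

def tLbn7t : BT := BT.Z tLbn8t tLbn11t
theorem tLbn7 : bisT (okGN (celG KLb (chkK KLb))) tLbn7t 395824185999 791648371999 0 1151500000000 274877906944 824633720832 = true :=
  bisT_Z 549755813888 tLbn8 tLbn11 rfl

def tLbn12t : BT := BT.L
theorem tLbn12 : bisT (okGN (celG KLb (chkK KLb))) tLbn12t 395824185999 791648371999 1151500000000 2303000000000 274877906944 824633720832 = true := by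
  decide +kernel

def tLbn6t : BT := BT.Y tLbn7t tLbn12t
theorem tLbn6 : bisT (okGN (celG KLb (chkK KLb))) tLbn6t 395824185999 791648371999 0 2303000000000 274877906944 824633720832 = true :=
  bisT_Y 1151500000000 tLbn7 tLbn12 rfl

def tLbn0t : BT := BT.X tLbn1t tLbn6t
theorem tLbn0 : bisT (okGN (celG KLb (chkK KLb))) tLbn0t 0 791648371999 0 2303000000000 274877906944 824633720832 = true :=
  bisT_X 395824185999 tLbn1 tLbn6 rfl

theorem tLbn : bisT (okGN (celG KLb (chkK KLb))) tLbn0t 0 791648371999 0 2303000000000 274877906944 824633720832 = true := tLbn0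

end SokalCel
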