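import Pool.Agent.Lib_MP_af4de1_v3.RunLac
import Pool.Agent.Lib_MP_af4de1_v3.RunLan
import Pool.Agent.Lib_MP_af4de1_v3.RunLbc
import Pool.Agent.Lib_MP_af4de1_v3.RunLbn

/-!
# The left fields `a` and `b` (helper93)
-/

set_option autoImplicit false

namespace SokalCel

open SokalFN SokalV3 SokalF1 SokalF1S SokalF1M SokalU

theorem runL_a : RunsL KLa (11 / 10) (6 / 5) 1 (1 / 300000) (1 / 9000) (1 / 700000) (1 / 5) (1 / 5) 1 0
    (1 / 4) := by
  refine runsL_by (K := KLa) PLA_ok (by norm_num) ?_ ?_ ?_ ?_ ?_ ?_ tLac tLan ?_ ?_ ?_ ?_ ?_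
  · show (1 / 300000 : ℝ) ≤ fx 3665039
    unfold fx; norm_num
  · show (1 / 9000 : ℝ) ≤ fx 122167959
    unfold fx; norm_num
  · show (1 / 700000 : ℝ) ≤ fx 1570731
    unfold fx; norm_num
  · show fx 219902325555 ≤ (1 / 5 : ℝ)
    unfold fx; norm_num
  · show fx 219902325555 ≤ (1 / 5 : ℝ)
    unfold fx; norm_num
  · show fx 1099511627776 ≤ (1 : ℝ)
    unfold fx; norm_num
  · unfold fx; norm_num
  · unfold fx; norm_num
  · have h := Real.pi_lt_d4
    unfold fx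
    norm_num at h ⊢
    linarith
  · exact (fx_zero).le
  · unfold fx; norm_num

theorem runL_b : RunsL KLb (11 / 10) (6 / 5) 1 (1 / 300000) (1 / 9000) (1 / 700000) (2 / 25) (2 / 25)
    (13 / 100) (1 / 4) (3 / 4) := by
  refine runsL_by (K := KLb) PLA_ok (by norm_num) ?_ ?_ ?_ ?_ ?_ ?_ tLbc tLbn ?_ ?_ ?_ ?_ ?_
  · show (1 / 300000 : ℝ) ≤ fx 3665039
    unfold fx; norm_num
  · show (1 / 9000 : ℝ) ≤ fx 122167959
    unfold fx; norm_num
  · show (1 / 700000 : ℝ) ≤ fx 1570731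
    unfold fx; norm_num
  · show fx 87960930222 ≤ (2 / 25 : ℝ)
    unfold fx; norm_num
  · show fx 87960930222 ≤ (2 / 25 : ℝ)
    unfold fx; norm_num
  · show fx 142936511610 ≤ (13 / 100 : ℝ)
    unfold fx; norm_num
  · unfold fx; norm_num
  · unfold fx; norm_num
  · have h := Real.pi_lt_d4
    unfold fx
    norm_num at h ⊢
    linarith
  · unfold fx; norm_num
  · unfold fx; norm_num

/-- FIELD `a`, LEFT -/
theorem shfL_a : ∀ (N : ℕ) (r δ y η : ℝ), Reg1 N r δ → At r δ y η → Sad1 N r δ y → Gm N r δ < 10 →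
    0 ≤ η → η ≤ ei1 N r δ → η + hst N ≤ Real.pi →
    Shf r δ y (hst N) (HH N r δ) (1 / 5) (1 / 5) 1 :=
  shfL_a_of (K := KLa) (by show fx 5937362789990 ≤ (27 / 5 : ℝ); unfold fx; norm_num)
    (by show (100 / 499 : ℝ) ≤ fx 220343011579; unfold fx; norm_num) runL_a

/-- FIELD `b`, LEFT -/
theorem shfL_b : ∀ (N : ℕ) (r δ y η : ℝ), Reg1 N r δ → At r δ y η → Sad1 N r δ y → Gm N r δ < 10 →
    ei1 N r δ ≤ η → η ≤ eo1 N r δ → η + hst N ≤ Real.pi →
    Shf r δ y (hst N) (HH N r δ) (2 / 25) (2 / 25) (13 / 100) :=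
  shfL_b_of (K := KLb) (by show fx 5937362789990 ≤ (27 / 5 : ℝ); unfold fx; norm_num)
    (by show (100 / 499 : ℝ) ≤ fx 220343011579; unfold fx; norm_num) runL_b

end SokalCel
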