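import Pool.Agent.Lib_MP_af4de1_v3.ShfR2
import Pool.Agent.Lib_MP_af4de1_v3.RunRbX1

/-!
# Right side, the run of the field `b` (`27/5 ≤ Γ`, `1/4 ≤ τ ≤ 3/4`; targets `3/50, 7/100, 3/20`)
-/

set_option autoImplicit false

namespace SokalCel

open SokalFN

theorem KRb_ok : KRb.P.Ok (5 / 4) (27 / 20) (6 / 5) (6 / 5) where
  hM := by exact_mod_cast Mem.const 5 4 (by norm_num)
  hN := by
    have h := Mem.const 4 5 (by norm_num)
    norm_num at h ⊢
    exact h
  hq := by exact_mod_cast Mem.const 27 20 (by norm_num)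
  hg := by
    have h := Mem.const 3 5 (by norm_num)
    norm_num at h ⊢
    exact h
  hk := by exact_mod_cast Mem.const 6 5 (by norm_num)
  pos := by norm_num
  le := by norm_num

theorem runR_b : RunOK (27 / 20) (6 / 5) (6 / 5) (1 / 4) (3 / 4) (27 / 5) (100 / 499) (1 / 300000)
    (1 / 9000) (1 / 700000) (3 / 50) (7 / 100) (3 / 20) := by
  have L : KRb.Le (1 / 300000) (1 / 9000) (1 / 700000) (3 / 50) (7 / 100) (3 / 20) := by
    refine ⟨?_, ?_, ?_, ?_, ?_, ?_⟩
    · show (1 / 300000 : ℝ) ≤ fx 3665039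
      unfold fx; norm_num
    · show (1 / 9000 : ℝ) ≤ fx 122167959
      unfold fx; norm_num
    · show (1 / 700000 : ℝ) ≤ fx 1570732
      unfold fx; norm_num
    · show fx 65970697666 ≤ (3 / 50 : ℝ)
      unfold fx; norm_num
    · show fx 76965813944 ≤ (7 / 100 : ℝ)
      unfold fx; norm_num
    · show fx 164926744166 ≤ (3 / 20 : ℝ)
      unfold fx; norm_num
  have ey : 2 * Real.pi / 3 ≤ fx 2303000000000 := by
    have h := Real.pi_lt_d4
    unfold fx
    norm_num at h ⊢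
    linarith
  have ez0 : fx 274877906944 ≤ (1 / 4 : ℝ) := by unfold fx; norm_num
  have ez1 : (3 / 4 : ℝ) ≤ fx 824633720832 := by unfold fx; norm_num
  have ec : (7 / 10 : ℝ) ≤ fx 769658139444 := by unfold fx; norm_num
  have en : (18 / 25 : ℝ) ≤ fx 791648371999 := by unfold fx; norm_num
  have eH : (100 / 499 : ℝ) ≤ fx KRb.H := by
    show (100 / 499 : ℝ) ≤ fx 220343011579
    unfold fx; norm_num
  have eG : fx KRb.G0 ≤ (27 / 5 : ℝ) := by
    show fx 5937362789990 ≤ (27 / 5 : ℝ)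
    unfold fx; norm_num
  intro N r δ η c ν h τ Γ s tp t0 t1 g0 hc
  refine run_of (K := KRb) (t0 := 1 / 4) (t1 := 3 / 4) ?_ ?_ (s.dmR tp (hc.trans eH) (eG.trans g0)) s.h1
    t0 t1
  · intro c h τ a1 a2 a3 a4 a5 a6
    exact bisT_sound (okC_sound KRb_ok L) _ _ _ _ _ _ _ rbc c h τ (by rw [fx_zero]; exact a1.le)
      (a2.trans ec) (by rw [fx_zero]; exact a3.le) (a4.trans ey) (ez0.trans a5) (a6.trans ez1)
  · intro ν h τ a1 a2 a3 a4 a5 a6
    exact bisT_sound (okN_sound KRb_ok L) _ _ _ _ _ _ _ rbn ν h τ (by rw [fx_zero]; exact a1.le)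
      (a2.trans en) (by rw [fx_zero]; exact a3.le) (a4.trans ey) (ez0.trans a5) (a6.trans ez1)

end SokalCel
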