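import Pool.Agent.Lib_MP_af4de1_v3.TailL

/-!
# Tails of regime I: `x ≥ 3`, `y ≤ 0`
-/

set_option autoImplicit false

namespace SokalV3T

open Real MeasureTheory Set SokalPG

theorem d_side {x y d m d1 G0 z : ℝ} (hx : 3 ≤ x) (hm0 : 0 ≤ m) (hm53 : m ≤ 53 / 100)
    (hym : -m ≤ y) (hd1 : 789 / 100 ≤ d1) (hdd : d1 ≤ d) (hμ : 11 / 5 ≤ d1 * (al x - m))
    (hκ : 10 ≤ d1 * (exp (-1 * al x) * x)) (hG0 : 3 / 2 ≤ G0) (hG : G0 ≤ Gq x m d1 (-1))
    (hz0 : 1 ≤ z) (hz : ∀ s, 3 / 2 ≤ s → s ≤ 137 / 25 →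
      z + 7 / 80 * (137 / 25 - s) ≤ hq x (-m) (-1) s) :
    IntegrableOn (jf x y d (-1)) (Ioi (3 / 2)) ∧ d * √d * JJ x y d (-1) ≤
      d1 * √d1 * (36 / 5 * exp (-(d1 * z))) +
        69 / 20 * d1 * exp (-G0) / √(exp (-1 * al x) * x) := by
  have e : (-1 : ℝ) * m = -m := neg_one_mul m
  refine half_lump (x := x) (y := y) (m := m) (d := d) (d1 := d1) (ε := -1)
    (z := z) (G0 := G0) (A := 36 / 5 * exp (-(d1 * z))) hx hm0 hm53
    (Or.inr rfl) (by linarith) hdd hμ hκ ?_ (by nlinarith) hG0 hG ?_ ?_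
  · intro s h1 h2
    rw [e]
    have := hz s h1 h2
    linarith
  · rw [e]
    exact ioc_slope hx hd1 hz
  · intro s hs
    rw [e]
    exact hq_mono_m (by linarith) hs hym

theorem ji_R_of {x y d m d1 G0 z q c B τ σ e Z C : ℝ} (hx : 3 ≤ x)
    (hm0 : 0 ≤ m) (hm53 : m ≤ 53 / 100)
    (hym : -m ≤ y) (hd1 : 789 / 100 ≤ d1) (hdd : d1 ≤ d) (hμ : 11 / 5 ≤ d1 * (al x - m))
    (hκ : 10 ≤ d1 * (exp (-1 * al x) * x)) (hG0 : 3 / 2 ≤ G0) (hG : G0 ≤ Gq x m d1 (-1))
    (hz0 : 1 ≤ z) (hz : ∀ s, 3 / 2 ≤ s → s ≤ 137 / 25 →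
      z + 7 / 80 * (137 / 25 - s) ≤ hq x (-m) (-1) s)
    (hC : IntegrableOn (jf x y d 1) (Ioi (3 / 2)) ∧ d * √d * JJ x y d 1 ≤ C)
    (hZ : d1 * √d1 * (36 / 5 * exp (-(d1 * z))) ≤ Z)
    (hq : exp (-G0) ≤ q) (hc : 69 / 20 * d1 * q ≤ c) (hB : B ^ 2 ≤ exp (-1 * al x) * x ^ 2)
    (hτ : 0 ≤ τ) (hcB : c ≤ τ * B) (he : e ≤ exp (-m)) (hσ : Z + C ≤ σ * √x)
    (ht : τ + σ ≤ 12 / 10000 * e) : JI x y d := by
  have hx0 : 0 < x := by linarith
  obtain ⟨i1, i2⟩ := d_side hx hm0 hm53 hym hd1 hdd hμ hκ hG0 hG hz0 hz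
  refine ⟨hC.1, i1, ?_⟩
  have h1 : 69 / 20 * d1 * exp (-G0) / √(exp (-1 * al x) * x) ≤ τ * √x := by
    refine lump_le (B := B) (exp_pos _) hx0 hB hτ ?_
    calc 69 / 20 * d1 * exp (-G0) ≤ 69 / 20 * d1 * q := by
          have : 0 ≤ d1 := by linarith
          gcongr
      _ ≤ c := hc
      _ ≤ _ := hcB
  have h2 := rhs_ge (x := x) (y := y) (he.trans (exp_le_exp.2 hym))
  have h3 : √x * (τ + σ) ≤ √x * (12 / 10000 * e) := by gcongr
  rw [mul_add]
  linarith [hC.2]

theorem exp_neg_ge {t e : ℝ} (h0 : 0 ≤ t) (h1 : t ≤ 1) (he : 0 ≤ e)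
    (h : e * (1 + t + t ^ 2 / 2 + t ^ 3 / 6 + t ^ 4 / 24 + t ^ 5 / 100) ≤ 1) : e ≤ exp (-t) := by
  have h2 := exp_up5 h0 h1
  have h3 : e * exp t ≤ 1 := (mul_le_mul_of_nonneg_left h2 he).trans h
  have h4 : exp (-t) * exp t = 1 := by rw [← exp_add]; simp
  have h5 := exp_pos t
  by_contra hc
  push Not at hc
  nlinarith

/-- lower bound of `e^(-α)` -/
theorem E_ge {x t e : ℝ} (hx : 0 ≤ x) (ht : al x ≤ t) (h1 : t ≤ 1) (he : 0 ≤ e)
    (h : e * (1 + t + t ^ 2 / 2 + t ^ 3 / 6 + t ^ 4 / 24 + t ^ 5 / 100) ≤ 1) :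
    e ≤ exp (-1 * al x) := by
  have h2 := exp_neg_ge ((al_pos hx).le.trans ht) h1 he h
  refine h2.trans (exp_le_exp.2 ?_)
  linarith

theorem E_one {x : ℝ} (hx : 0 ≤ x) : 36787 / 100000 ≤ exp (-1 * al x) := by
  have h1 : exp (-1) ≤ exp (-1 * al x) := exp_le_exp.2 (by linarith [al_le_one hx])
  have h2 := exp_one_lt_d9
  have h3 : exp (-1) * exp 1 = 1 := by rw [← exp_add]; simp
  have h4 := exp_pos (-1 : ℝ)
  nlinarith

theorem kap_of {E x d e x0 d0 : ℝ} (he0 : 0 ≤ e) (he : e ≤ E) (hx0 : 0 ≤ x0) (hx : x0 ≤ x)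
    (hd0 : 0 ≤ d0) (hd : d0 ≤ d) (h : 10 ≤ d0 * (e * x0)) : 10 ≤ d * (E * x) := by
  have h1 := he0.trans he
  have h2 := hd0.trans hd
  exact h.trans (by gcongr)

theorem B_of {E x e x0 B : ℝ} (he0 : 0 ≤ e) (he : e ≤ E) (hx0 : 0 ≤ x0) (hx : x0 ≤ x)
    (h : B ^ 2 ≤ e * x0 ^ 2) : B ^ 2 ≤ E * x ^ 2 := by
  have h1 := he0.trans he
  exact h.trans (by gcongr)

theorem B_of' {E x b e : ℝ} (he : e ≤ E) (h : b ^ 2 ≤ e) : (b * x) ^ 2 ≤ E * x ^ 2 := by
  rw [mul_pow]
  exact mul_le_mul_of_nonneg_right (h.trans he) (sq_nonneg x)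

theorem mu8 {x : ℝ} (h8 : 8 ≤ x) : 11 / 5 * ((1 + x) * (x - 9 / 10)) ≤
    1231 / 1000 * (x - 1571 / 1000) * (137 / 25 * (x - 9 / 10) - (1 + x) * (1571 / 1000)) := by
  nlinarith

theorem mu48 {x : ℝ} (h : 112 / 25 ≤ x) (h8 : x ≤ 8) : 11 / 5 * ((1 + x) * (x - 9 / 10)) ≤
    793 / 100 * (137 / 25 * (x - 9 / 10) - (1 + x) * (1571 / 1000)) := by
  nlinarith

theorem fin8 {x : ℝ} (h8 : 8 ≤ x) : (9613 / 10000000 * (x - 1571 / 1000) + 82 / 1000000 * x) *
    (x - 9 / 10) ≤ 12 / 10000 * (x - 9 / 10 - 1571 / 1000) * x := by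
  nlinarith

theorem ji_R {x y K ρ d : ℝ} (h : RF x y K ρ d) (hx : 3 ≤ x) (hy : y ≤ 0) : JI x y d := by
  have hx0 : 0 < x := by linarith
  have hx1 : 0 < 1 + x := by linarith
  have hx9 : 0 < x - 9 / 10 := by linarith
  have hN := rf_N h hx hy
  have hd := rf_d h
  have hlo := h.lo
  have hN' : -(1571 / 1000 / (x - 9 / 10)) ≤ y := by
    have : -y ≤ 1571 / 1000 / (x - 9 / 10) := by rwa [le_div_iff₀ hx9]
    linarith
  have hmN : 1571 / 1000 / (x - 9 / 10) * (x - 9 / 10) ≤ 1571 / 1000 := by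
    rw [div_mul_cancel₀ _ hx9.ne']
  have hm0 : 0 ≤ 1571 / 1000 / (x - 9 / 10) := by positivity
  have hE1 := E_one hx0.le
  have q105 : exp (-(21 / 2)) ≤ 277 / 10000000 :=
    exp_neg_le 10 (f := 50 / 100) (T := 1648 / 1000) (by norm_num) (by norm_num) (by norm_num)
      (by norm_num) (by norm_num) (by norm_num)
  have z11 := inner_le (d1 := 11) (d0 := 11) (z := 7 / 5)
    (A := 36 / 5) (s0 := 3317 / 1000) (q := 206 / 1000000000) (C := 55 / 1000000) (by norm_num)
    le_rfl (by norm_num) (by norm_num) (by rw [sqrt_le_left (by norm_num)]; norm_num)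
    (exp_neg_le 15 (f := 40 / 100) (T := 14917 / 10000) (by norm_num) (by norm_num) (by norm_num)
      (by norm_num) (by norm_num) (by norm_num)) (by norm_num)
  have z79 := inner_le (d1 := 793 / 100) (d0 := 793 / 100) (z := 7 / 4)
    (A := 36 / 5) (s0 := 28161 / 10000) (q := 943 / 1000000000) (C := 152 / 1000000) (by norm_num)
    le_rfl (by norm_num) (by norm_num) sqrt793
    (exp_neg_le 13 (f := 8775 / 10000) (T := 2399 / 1000) (by norm_num) (by norm_num) (by norm_num)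
      (by norm_num) (by norm_num) (by norm_num)) (by norm_num)
  have s3 : 173 / 100 ≤ √x := le_sqrt_of_sq_le (by norm_num; linarith)
  rcases le_total (53 / 100 * (x - 9 / 10)) (1571 / 1000) with h1 | h1
  · -- R1
    have hal := al_small hx0.le (by linarith)
    exact ji_R_of (m := 53 / 100) (d1 := 11) (G0 := 21 / 2) (z := 7 / 5)
      (q := 277 / 10000000) (c := 1052 / 1000000) (B := 1819 / 1000) (τ := 580 / 1000000)
      (σ := 70 / 1000000) (e := 588 / 1000) (Z := 55 / 1000000) (C := 66 / 1000000)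
      hx (by norm_num) le_rfl (by linarith) (by norm_num) (rf_d11 h (by linarith) hy)
      (by rw [hal]; norm_num) (kap_of (by norm_num) hE1 (by norm_num) hx (by norm_num) le_rfl
        (by norm_num)) (by norm_num) (gr7a hx (by linarith)) (by norm_num)
      (fun s h2 h3 => (ptzd x (53 / 100) s hx (by norm_num) le_rfl h1 h2 h3).1)
      (c_side1 h hx hy (by linarith)) z11 q105 (by norm_num)
      (B_of (by norm_num) hE1 (by norm_num) hx (by norm_num)) (by norm_num)
      (by norm_num) (exp_neg_ge (by norm_num) (by norm_num) (by norm_num) (by norm_num))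
      (by linarith) (by norm_num)
  have hm53 : 1571 / 1000 / (x - 9 / 10) ≤ 53 / 100 := by rwa [div_le_iff₀ hx9]
  rcases le_total x (112 / 25) with h2 | h2
  · -- R2
    have hal := al_small hx0.le h2
    have e53 : 588 / 1000 ≤ exp (-(1571 / 1000 / (x - 9 / 10))) :=
      (exp_neg_ge (t := 53 / 100) (by norm_num) (by norm_num) (by norm_num)
        (by norm_num)).trans (exp_le_exp.2 (by linarith))
    exact ji_R_of (m := 1571 / 1000 / (x - 9 / 10)) (d1 := 11) (G0 := 21 / 2) (z := 7 / 5)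
      (q := 277 / 10000000) (c := 1052 / 1000000) (B := 1819 / 1000) (τ := 580 / 1000000)
      (σ := 70 / 1000000) (e := 588 / 1000) (Z := 55 / 1000000) (C := 66 / 1000000)
      hx hm0 hm53 hN' (by norm_num) (rf_d11 h h2 hy)
      (by rw [hal]; linarith) (kap_of (by norm_num) hE1 (by norm_num) hx (by norm_num) le_rfl
        (by norm_num)) (by norm_num) (gr7b (by linarith) h2) (by norm_num)
      (fun s h3 h4 => (ptzd x _ s hx hm0 hm53 hmN h3 h4).1)
      (c_side1 h hx hy (by linarith)) z11 q105 (by norm_num)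
      (B_of (by norm_num) hE1 (by norm_num) hx (by norm_num)) (by norm_num)
      (by norm_num) e53 (by linarith) (by norm_num)
  have hal := al_big h2
  have hz : ∀ s, 3 / 2 ≤ s → s ≤ 137 / 25 →
      7 / 4 + 7 / 80 * (137 / 25 - s) ≤ hq x (-(1571 / 1000 / (x - 9 / 10))) (-1) s :=
    fun s h3 h4 => (ptzd x _ s hx hm0 hm53 hmN h3 h4).2 h2
  have s4 : 211 / 100 ≤ √x := le_sqrt_of_sq_le (by norm_num; linarith)
  rcases le_total x 8 with h8 | h8
  swap
  · -- R6
    have s8 : 282 / 100 ≤ √x := le_sqrt_of_sq_le (by norm_num; linarith)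
    have hd1 := rf_dR h hy
    have hx15 : 0 < x - 1571 / 1000 := by linarith
    have hEe : 5432 / 10000 ≤ exp (-1 * al x) := by
      refine E_ge (t := 60889 / 100000) hx0.le ?_ (by norm_num) (by norm_num) (by norm_num)
      rw [hal, div_le_iff₀ hx1]
      linarith
    have hal2 : 0 ≤ al x - 1571 / 1000 / (x - 9 / 10) := by
      rw [hal, sub_nonneg, div_le_div_iff₀ hx9 hx1]
      linarith
    have hμ : 11 / 5 ≤ 1231 / 1000 * (x - 1571 / 1000) * (al x - 1571 / 1000 / (x - 9 / 10)) := by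
      have e1 : al x - 1571 / 1000 / (x - 9 / 10) =
          (137 / 25 * (x - 9 / 10) - (1 + x) * (1571 / 1000)) / ((1 + x) * (x - 9 / 10)) := by
        rw [hal, div_sub_div _ _ hx1.ne' hx9.ne']
      rw [e1, mul_div_assoc', le_div_iff₀ (by positivity)]
      exact mu8 h8
    have hκ : 10 ≤ 1231 / 1000 * (x - 1571 / 1000) * (exp (-1 * al x) * x) :=
      kap_of (d0 := 79 / 10) (by norm_num) hE1 (by norm_num) h8 (by norm_num) (by linarith)
        (by norm_num)
    refine ji_R_of (m := 1571 / 1000 / (x - 9 / 10)) (d1 := 1231 / 1000 * (x - 1571 / 1000))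
      (G0 := 87 / 10) (z := 7 / 4)
      (q := 1668 / 10000000) (c := 7084 / 10000000 * (x - 1571 / 1000)) (B := 737 / 1000 * x)
      (τ := 9613 / 10000000 * ((x - 1571 / 1000) / x))
      (σ := 82 / 1000000) (e := 1 - 1571 / 1000 / (x - 9 / 10)) (Z := 157 / 1000000)
      (C := 26 / 1000000 * √x)
      hx hm0 hm53 hN' (by linarith) hd1 hμ hκ (by norm_num) (gu11 h8)
      (by norm_num) hz (c_side3 h hy h8) ?_
      (exp_neg_le 8 (f := 70 / 100) (T := 2012 / 1000) (by norm_num) (by norm_num) (by norm_num)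
        (by norm_num) (by norm_num) (by norm_num)) (by linarith) ?_
      (by positivity) ?_ ?_ (by linarith) ?_
    · exact inner_le (d0 := 791 / 100) (z := 7 / 4)
        (A := 36 / 5) (s0 := 28125 / 10000) (q := 977 / 1000000000) (C := 157 / 1000000)
        (by norm_num) (by linarith) (by norm_num) (by norm_num)
        (by rw [sqrt_le_left (by norm_num)]; norm_num)
        (exp_neg_le 13 (f := 8425 / 10000) (T := 2317 / 1000) (by norm_num) (by norm_num)
          (by norm_num) (by norm_num) (by norm_num) (by norm_num)) (by norm_num)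
    · exact B_of' hEe (by norm_num)
    · have e1 : 9613 / 10000000 * ((x - 1571 / 1000) / x) * (737 / 1000 * x) =
          9613 / 10000000 * (737 / 1000) * (x - 1571 / 1000) := by
        field_simp
      rw [e1]
      exact mul_le_mul_of_nonneg_right (by norm_num) hx15.le
    · have := add_one_le_exp (-(1571 / 1000 / (x - 9 / 10)))
      linarith
    · have e1 : 9613 / 10000000 * ((x - 1571 / 1000) / x) + 82 / 1000000 =
          (9613 / 10000000 * (x - 1571 / 1000) + 82 / 1000000 * x) / x := by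
        field_simp
      have e2 : 12 / 10000 * (1 - 1571 / 1000 / (x - 9 / 10)) =
          12 / 10000 * (x - 9 / 10 - 1571 / 1000) / (x - 9 / 10) := by
        have h3 := div_mul_cancel₀ (1571 / 1000 : ℝ) hx9.ne'
        rw [eq_div_iff hx9.ne']
        linear_combination (-(12 / 10000)) * h3
      rw [e1, e2, div_le_div_iff₀ hx0 hx9]
      exact fin8 h8
  -- `x ≤ 8`
  have hμ : 11 / 5 ≤ 793 / 100 * (al x - 1571 / 1000 / (x - 9 / 10)) := by
    have e1 : al x - 1571 / 1000 / (x - 9 / 10) =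
        (137 / 25 * (x - 9 / 10) - (1 + x) * (1571 / 1000)) / ((1 + x) * (x - 9 / 10)) := by
      rw [hal, div_sub_div _ _ hx1.ne' hx9.ne']
    rw [e1, mul_div_assoc', le_div_iff₀ (by positivity)]
    exact mu48 h2 h8
  have hκ : 10 ≤ 793 / 100 * (exp (-1 * al x) * x) :=
    kap_of (by norm_num) hE1 (by norm_num) h2 (by norm_num) le_rfl (by norm_num)
  rcases le_total x (13 / 2) with h3 | h3
  · -- R3
    have he : 64 / 100 ≤ exp (-(1571 / 1000 / (x - 9 / 10))) := by
      refine (exp_neg_ge (t := 439 / 1000) (by norm_num) (by norm_num) (by norm_num)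
        (by norm_num)).trans (exp_le_exp.2 ?_)
      have : 1571 / 1000 / (x - 9 / 10) ≤ 439 / 1000 := by
        rw [div_le_iff₀ hx9]
        linarith
      linarith
    exact ji_R_of (m := 1571 / 1000 / (x - 9 / 10)) (d1 := 793 / 100) (G0 := 97 / 10) (z := 7 / 4)
      (q := 615 / 10000000) (c := 1683 / 1000000) (B := 2717 / 1000) (τ := 620 / 1000000)
      (σ := 1035 / 10000000) (e := 64 / 100) (Z := 152 / 1000000) (C := 66 / 1000000)
      hx hm0 hm53 hN' (by norm_num) hd hμ hκ (by norm_num) (gr8 h2 h3) (by norm_num) hz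
      (c_side1 h hx hy (by linarith)) z79
      (exp_neg_le 9 (f := 70 / 100) (T := 2012 / 1000) (by norm_num) (by norm_num) (by norm_num)
        (by norm_num) (by norm_num) (by norm_num)) (by norm_num)
      (B_of (by norm_num) hE1 (by norm_num) h2 (by norm_num)) (by norm_num)
      (by norm_num) he (by linarith) (by norm_num)
  rcases le_total x (73 / 10) with h4 | h4
  · -- R4
    have s6 : 254 / 100 ≤ √x := le_sqrt_of_sq_le (by norm_num; linarith)
    have hEe : 48 / 100 ≤ exp (-1 * al x) := by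
      refine E_ge (t := 73067 / 100000) hx0.le ?_ (by norm_num) (by norm_num) (by norm_num)
      rw [hal, div_le_iff₀ hx1]
      linarith
    have he : 75 / 100 ≤ exp (-(1571 / 1000 / (x - 9 / 10))) := by
      refine (exp_neg_ge (t := 2806 / 10000) (by norm_num) (by norm_num) (by norm_num)
        (by norm_num)).trans (exp_le_exp.2 ?_)
      have : 1571 / 1000 / (x - 9 / 10) ≤ 2806 / 10000 := by
        rw [div_le_iff₀ hx9]
        linarith
      linarith
    exact ji_R_of (m := 1571 / 1000 / (x - 9 / 10)) (d1 := 793 / 100) (G0 := 179 / 20) (z := 7 / 4)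
      (q := 1302 / 10000000) (c := 3563 / 1000000) (B := 45 / 10) (τ := 792 / 1000000)
      (σ := 86 / 1000000) (e := 75 / 100) (Z := 152 / 1000000) (C := 66 / 1000000)
      hx hm0 hm53 hN' (by norm_num) hd hμ hκ (by norm_num) (gr9 h3 h4) (by norm_num) hz
      (c_side1 h hx hy (by linarith)) z79
      (exp_neg_le 8 (f := 95 / 100) (T := 2578 / 1000) (by norm_num) (by norm_num) (by norm_num)
        (by norm_num) (by norm_num) (by norm_num)) (by norm_num)
      (B_of (by norm_num) hEe (by norm_num) h3 (by norm_num)) (by norm_num)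
      (by norm_num) he (by linarith) (by norm_num)
  · -- R5
    have s7 : 27 / 10 ≤ √x := le_sqrt_of_sq_le (by norm_num; linarith)
    have hEe : 515 / 1000 ≤ exp (-1 * al x) := by
      refine E_ge (t := 66025 / 100000) hx0.le ?_ (by norm_num) (by norm_num) (by norm_num)
      rw [hal, div_le_iff₀ hx1]
      linarith
    have he : 78 / 100 ≤ exp (-(1571 / 1000 / (x - 9 / 10))) := by
      refine (exp_neg_ge (t := 2455 / 10000) (by norm_num) (by norm_num) (by norm_num)
        (by norm_num)).trans (exp_le_exp.2 ?_)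
      have : 1571 / 1000 / (x - 9 / 10) ≤ 2455 / 10000 := by
        rw [div_le_iff₀ hx9]
        linarith
      linarith
    exact ji_R_of (m := 1571 / 1000 / (x - 9 / 10)) (d1 := 793 / 100) (G0 := 44 / 5) (z := 7 / 4)
      (q := 151 / 1000000) (c := 4132 / 1000000) (B := 523 / 100) (τ := 791 / 1000000)
      (σ := 108 / 1000000) (e := 78 / 100) (Z := 152 / 1000000) (C := 139 / 1000000)
      hx hm0 hm53 hN' (by norm_num) hd hμ hκ (by norm_num) (gr10 h4 h8) (by norm_num) hz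
      (c_side2 h hx hy h8) z79
      (exp_neg_le 8 (f := 80 / 100) (T := 2222 / 1000) (by norm_num) (by norm_num) (by norm_num)
        (by norm_num) (by norm_num) (by norm_num)) (by norm_num)
      (B_of (by norm_num) hEe (by norm_num) h4 (by norm_num)) (by norm_num)
      (by norm_num) he (by linarith) (by norm_num)

end SokalV3T
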