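import Pool.Agent.Lib_MP_af4de1_v3.TailRed
import Pool.Agent.Lib_MP_af4de1_v3.TailR

/-!
# `PTail1s` and `POwn1`
-/

set_option autoImplicit false

namespace SokalV3T

open Real MeasureTheory Set SokalPG

theorem ji_S_pos {x y K ρ d : ℝ} (h : RF x y K ρ d) (hx : x ≤ 3) (hy : 0 ≤ y) : JI x y d := by
  have hx0 := h.x0
  have hd := rf_d h
  have hr1 := h.r1
  have hp := pi_lt_d4
  have hρ : ρ ≤ 4571 / 1000 := by linarith [h.ep' hy]
  have hd0 : 0 < d := by linarith
  have hd1 : 109 / 10 ≤ d := by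
    have : ρ * d ≤ 4571 / 1000 * d := by gcongr
    linarith
  obtain ⟨i1, i2⟩ := s_part (x := x) (y := y) (ε := 1) hx0 hd
    (fun s hs => (ptsp x y K ρ d 1 s h hx hy (Or.inl rfl) hs).1)
    (fun s hs => (ptsp x y K ρ d 1 s h hx hy (Or.inl rfl) (by linarith [pi_gt_d2])).2 hs)
  obtain ⟨j1, j2⟩ := s_part (x := x) (y := y) (ε := -1) hx0 hd
    (fun s hs => (ptsp x y K ρ d (-1) s h hx hy (Or.inr rfl) hs).1)
    (fun s hs => (ptsp x y K ρ d (-1) s h hx hy (Or.inr rfl) (by linarith [pi_gt_d2])).2 hs)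
  refine ⟨i1, j1, ?_⟩
  have e1 : exp (-(d * (ρ / 5 + 1 / 2))) ≤ exp (-(499 / 50)) * exp (-(d * (1 / 2))) := by
    rw [← exp_add]
    apply exp_le_exp.2
    linarith
  have e2 := d_mono (d := d) (d1 := 109 / 10) (h := 1 / 2) (by norm_num) hd1 (by norm_num)
  have e3 : √(109 / 10 : ℝ) ≤ 3302 / 1000 := by
    rw [sqrt_le_left (by norm_num)]
    norm_num
  have e4 : exp (-(499 / 50)) * exp (-(109 / 10 * (1 / 2))) ≤ 201 / 1000000000 := by
    rw [← exp_add]
    have : (-(499 / 50) + -(109 / 10 * (1 / 2)) : ℝ) = -(1543 / 100) := by norm_num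
    rw [this]
    exact exp_neg_le 15 (f := 43 / 100) (T := 1537 / 1000) (by norm_num) (by norm_num)
      (by norm_num) (by norm_num) (by norm_num) (by norm_num)
  have hE1 := exp_pos (-(499 / 50 : ℝ))
  have hsd : 0 ≤ √d := sqrt_nonneg d
  have h1 : d * √d * (JJ x y d 1 + JJ x y d (-1)) ≤ 12 / 10000 := by
    calc d * √d * (JJ x y d 1 + JJ x y d (-1))
        ≤ d * √d * (57 * exp (-(d * (ρ / 5 + 1 / 2))) + 57 * exp (-(d * (ρ / 5 + 1 / 2)))) := by
          gcongr
      _ = 114 * (d * √d * exp (-(d * (ρ / 5 + 1 / 2)))) := by ring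
      _ ≤ 114 * (d * √d * (exp (-(499 / 50)) * exp (-(d * (1 / 2))))) := by gcongr
      _ = 114 * exp (-(499 / 50)) * (d * √d * exp (-(d * (1 / 2)))) := by ring
      _ ≤ 114 * exp (-(499 / 50)) * (109 / 10 * √(109 / 10) * exp (-(109 / 10 * (1 / 2)))) := by
          gcongr
      _ = 114 * (109 / 10 * √(109 / 10)) * (exp (-(499 / 50)) * exp (-(109 / 10 * (1 / 2)))) := by
          ring
      _ ≤ 114 * (109 / 10 * (3302 / 1000)) * (201 / 1000000000) := by gcongr
      _ ≤ 12 / 10000 := by norm_num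
  have h2 : 1 ≤ √(√((1 + y) ^ 2 + x ^ 2)) := by
    apply le_sqrt_of_sq_le
    rw [one_pow]
    apply le_sqrt_of_sq_le
    nlinarith [sq_nonneg x]
  have h3 : 1 ≤ exp y := one_le_exp hy
  calc d * √d * (JJ x y d 1 + JJ x y d (-1)) ≤ 12 / 10000 * 1 * 1 := by linarith
    _ ≤ _ := by gcongr

theorem ji_S_neg {x y K ρ d : ℝ} (h : RF x y K ρ d) (hx : x ≤ 3) (hy : y ≤ 0) : JI x y d := by
  have hx0 := h.x0
  have hd := rf_d h
  have hr1 := h.r1
  have hd0 : 0 < d := by linarith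
  obtain ⟨i1, i2⟩ := s_part (x := x) (y := y) (ε := 1) hx0 hd
    (fun s hs => (ptsm x y K ρ d 1 s h hx hy (Or.inl rfl) hs).1)
    (fun s hs => (ptsm x y K ρ d 1 s h hx hy (Or.inl rfl) (by linarith [pi_gt_d2])).2 hs)
  obtain ⟨j1, j2⟩ := s_part (x := x) (y := y) (ε := -1) hx0 hd
    (fun s hs => (ptsm x y K ρ d (-1) s h hx hy (Or.inr rfl) hs).1)
    (fun s hs => (ptsm x y K ρ d (-1) s h hx hy (Or.inr rfl) (by linarith [pi_gt_d2])).2 hs)
  refine ⟨i1, j1, ?_⟩
  have e1 : exp (-(d * (ρ / 4 + 2 / 5))) ≤ exp (-(499 / 40)) * exp (-(d * (2 / 5))) := by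
    rw [← exp_add]
    apply exp_le_exp.2
    linarith
  have e2 := d_mono (d := d) (d1 := 793 / 100) (h := 2 / 5) (by norm_num) hd (by norm_num)
  have e3 := sqrt793
  have e4 : exp (-(499 / 40)) * exp (-(793 / 100 * (2 / 5))) ≤ 162 / 1000000000 := by
    rw [← exp_add]
    have : (-(499 / 40) + -(793 / 100 * (2 / 5)) : ℝ) = -(15647 / 1000) := by norm_num
    rw [this]
    exact exp_neg_le 15 (f := 647 / 1000) (T := 19 / 10) (by norm_num) (by norm_num)
      (by norm_num) (by norm_num) (by norm_num) (by norm_num)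
  have hE1 := exp_pos (-(499 / 40 : ℝ))
  have hsd : 0 ≤ √d := sqrt_nonneg d
  have h1 : d * √d * (JJ x y d 1 + JJ x y d (-1)) ≤ 6 / 10000 := by
    calc d * √d * (JJ x y d 1 + JJ x y d (-1))
        ≤ d * √d * (57 * exp (-(d * (ρ / 4 + 2 / 5))) + 57 * exp (-(d * (ρ / 4 + 2 / 5)))) := by
          gcongr
      _ = 114 * (d * √d * exp (-(d * (ρ / 4 + 2 / 5)))) := by ring
      _ ≤ 114 * (d * √d * (exp (-(499 / 40)) * exp (-(d * (2 / 5))))) := by gcongr
      _ = 114 * exp (-(499 / 40)) * (d * √d * exp (-(d * (2 / 5)))) := by ring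
      _ ≤ 114 * exp (-(499 / 40)) * (793 / 100 * √(793 / 100) * exp (-(793 / 100 * (2 / 5)))) := by
          gcongr
      _ = 114 * (793 / 100 * √(793 / 100)) * (exp (-(499 / 40)) * exp (-(793 / 100 * (2 / 5)))) := by
          ring
      _ ≤ 114 * (793 / 100 * (28161 / 10000)) * (162 / 1000000000) := by gcongr
      _ ≤ 6 / 10000 := by norm_num
  have h2 : 89 / 100 ≤ √(√((1 + y) ^ 2 + x ^ 2)) := by
    apply le_sqrt_of_sq_le
    apply le_sqrt_of_sq_le
    have := h.D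
    norm_num
    linarith
  have h3 : 58 / 100 ≤ exp y :=
    (exp_neg_ge (t := 53 / 100) (by norm_num) (by norm_num) (by norm_num)
      (by norm_num)).trans (exp_le_exp.2 (by linarith [h.lo]))
  calc d * √d * (JJ x y d 1 + JJ x y d (-1)) ≤ 12 / 10000 * (89 / 100) * (58 / 100) := by linarith
    _ ≤ _ := by gcongr

/-- the integral estimate, all of regime I -/
theorem ji_all (x y K ρ d : ℝ) (h : RF x y K ρ d) : JI x y d := by
  rcases le_total x 3 with hx | hx
  · rcases le_total 0 y with hy | hy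
    · exact ji_S_pos h hx hy
    · exact ji_S_neg h hx hy
  · rcases le_total 0 y with hy | hy
    · exact ji_L h hx hy
    · exact ji_R h hx hy

theorem ptail1s : SokalV3.PTail1s := ptail1s_of ji_all

theorem pown1 : SokalV3.POwn1 := SokalV3.own1_of_tails_s ptail1s

end SokalV3T
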