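import Pool.Agent.Lib_MP_af4de1_v3.T2C

/-!
# `N = 2`: `PTD` (`17/2 ≤ Γ < 10`)
-/

set_option autoImplicit false

open Complex MeasureTheory Set SokalU SokalPG SokalF1 SokalF1S SokalF1M SokalF1G SokalF1B

namespace SokalV3

/-- `y ≤ 0`, the lump of the side `ε = -1` -/
theorem d_neg1 {x n ρ w D : ℝ} (hρ : 694 / 100 ≤ ρ) (h1 : ρ ≤ x) (h2 : x ≤ ρ + 2105 / 1000)
    (hn0 : 0 ≤ n) (hn : Real.exp n ≤ 1 + 2105 / 1000 / ρ)
    (hw1 : 86122 / 100000 * (ρ + 1 / ρ) ≤ w) (hw3 : 655 / 100 ≤ w)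
    (hD0 : 0 < D) (hD : D ^ 2 ≤ 1 + x ^ 2) :
    tP (-1) x n w ≤ 834 / 10000 * √(2 * Real.pi / (w * D)) := by
  have hρ0 : 0 < ρ := by linarith
  have hn1 : n ≤ 2667 / 10000 := by
    refine (n_le' (by norm_num) hρ hn).trans ?_
    norm_num
  have hna : |n| = n := abs_of_nonneg hn0
  have hx : 694 / 100 ≤ x := by linarith
  have hq : 4678 / 10000 * x ≤ 473 / 1000 * x - 134 / 1000 * |n| := by rw [hna]; linarith
  have hx1 : 0 < 1 + x := by linarith
  have hcm : (1 + x)⁻¹ ≤ 126 / 1000 := by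
    rw [inv_le_comm₀ hx1 (by norm_num)]
    norm_num
    linarith
  have hC : (ρ + 3105 / 1000)⁻¹ ≤ (1 + x)⁻¹ := by
    apply inv_anti₀ hx1
    linarith
  refine lump_neg (κ := 1104 / 1000) (l := 108 / 100) (q1 := 4678 / 10000) (E := 1995 / 1000)
    (M := 1) (cm := 126 / 1000) (K := 405061 / 10000) (L := 25722 / 10000) (by linarith)
    (by linarith)
    (by norm_num) hD0 hcm (by norm_num) ?_ (by norm_num) hq (tm_neg_sq (by linarith) hn0 (by linarith))
    (by norm_num) (by norm_num) ?_ ?_ (by norm_num) ?_ ?_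
  · refine (exp_five (by norm_num) (by norm_num)).trans ?_
    norm_num
  · have h5 : 655 / 100 * (4678 / 10000 * (694 / 100)) ≤ w * (4678 / 10000 * x) := by gcongr
    norm_num at h5 ⊢
    linarith
  · refine (t2c_D (x0 := 694 / 100) (T := 2 * (108 / 100) * (4678 / 10000)) (by norm_num) hx
      (by norm_num) hD (by norm_num)).trans (le_of_eq (by ring))
  · have e3 : (650039 / 10000 + 405061 / 10000 : ℝ) = 10551 / 100 := by norm_num
    rw [e3]
    refine neg_red (w0 := 86122 / 100000 * (ρ + 1 / ρ)) hw1 ?_ (by positivity) hC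
        (by linarith) (by norm_num) (by norm_num) ?_ (n_le hρ0 hn) (by norm_num) (ev_d1 (by linarith))
    · have : 0 < 1 / ρ := by positivity
      linarith
    · exact hn0.trans (n_le hρ0 hn)
  · have h6 := exp_neg_le_of (k := 5) (t := 1444 / 10000) (L := 25722 / 10000)
      (A := 17143 / 100) (by norm_num) (by norm_num) (by norm_num) (by norm_num)
    calc 1104 / 1000 * (108 / 100) * Real.exp (-(2 * (25722 / 10000))) ≤
        1104 / 1000 * (108 / 100) * (1 / (17143 / 100)) := by gcongr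
      _ ≤ (834 / 10000) ^ 2 := by norm_num

/-- `y ≤ 0`, the lump of the side `ε = 1` -/
theorem d_neg3 {x n ρ w D : ℝ} (hρ : 694 / 100 ≤ ρ) (h1 : ρ ≤ x) (h2 : x ≤ ρ + 2105 / 1000)
    (hn0 : 0 ≤ n) (hn : Real.exp n ≤ 1 + 2105 / 1000 / ρ)
    (hw1 : 86122 / 100000 * (ρ + 1 / ρ) ≤ w) (hw3 : 655 / 100 ≤ w)
    (hD0 : 0 < D) (hD : D ^ 2 ≤ 1 + x ^ 2) :
    tP 1 x (-n) w ≤ 1 / 1000 * √(2 * Real.pi / (w * D)) := by
  have hρ0 : 0 < ρ := by linarith
  have hn1 : n ≤ 2667 / 10000 := by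
    refine (n_le' (by norm_num) hρ hn).trans ?_
    norm_num
  have hna : |-n| = n := by rw [abs_neg, abs_of_nonneg hn0]
  have hx : 694 / 100 ≤ x := by linarith
  have hq : 4678 / 10000 * x ≤ 473 / 1000 * x - 134 / 1000 * |-n| := by rw [hna]; linarith
  have hx1 : 0 < 1 + x := by linarith
  have hcm : (1 + x)⁻¹ ≤ 126 / 1000 := by
    rw [inv_le_comm₀ hx1 (by norm_num)]
    norm_num
    linarith
  have hta : ta x ≤ 1 := by
    rw [ta_eq (by linarith)]
    linarith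
  have hc0 : 0 < (1 + x)⁻¹ := inv_pos.2 hx1
  refine lump_pos (κ := 105 / 100) (l := 108 / 100) (q1 := 4678 / 10000)
    (M := 1) (cm := 126 / 1000) (K := 193 / 10) (L := 7) (by linarith) (by linarith)
    (by norm_num) hD0 hcm (by norm_num) (by norm_num) hq
    (tm_pos_sq' (by linarith) hn0 (by linarith) hta)
    (by norm_num) (by norm_num) ?_ ?_ (by norm_num) ?_ ?_
  · have h5 : 655 / 100 * (4678 / 10000 * (694 / 100)) ≤ w * (4678 / 10000 * x) := by gcongr
    norm_num at h5 ⊢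
    linarith
  · refine (t2c_D (x0 := 694 / 100) (T := 2 * (108 / 100) * (4678 / 10000)) (by norm_num) hx
      (by norm_num) hD (by norm_num)).trans (le_of_eq (by ring))
  · have hwc : 41 / 100 ≤ w * (1 + x)⁻¹ := by
      rw [← div_eq_mul_inv, le_div_iff₀ hx1]
      have h6 : 41 / 100 * (1 + x) ≤ 41 / 100 * (ρ + 3105 / 1000) := by linarith
      refine h6.trans (le_trans ?_ hw1)
      have : 0 < 1 / ρ := by positivity
      linarith
    have h8 : 1736 / 100 ≤ 194166 / 10000 - 124127 / 10000 * (1 + x)⁻¹ -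
      (101484 / 10000 + 193 / 10) * (1 + x)⁻¹ ^ 2 - 11845 / 1000 * (1 + x)⁻¹ ^ 3 := by
      have h9 : (1 + x)⁻¹ ^ 2 ≤ (126 / 1000) ^ 2 := by gcongr
      have h10 : (1 + x)⁻¹ ^ 3 ≤ (126 / 1000) ^ 3 := by gcongr
      norm_num at h9 h10 ⊢
      linarith
    have h12 : 41 / 100 * (1736 / 100) ≤ w * (1 + x)⁻¹ * (194166 / 10000 - 124127 / 10000 *
      (1 + x)⁻¹ - (101484 / 10000 + 193 / 10) * (1 + x)⁻¹ ^ 2 - 11845 / 1000 * (1 + x)⁻¹ ^ 3) :=
      mul_le_mul hwc h8 (by norm_num) (by positivity)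
    have h13 : 0 ≤ w * (2 * Real.pi * n) := by
      have := Real.pi_pos
      positivity
    have e : w * ((1 + x)⁻¹ * (194166 / 10000 - 124127 / 10000 * (1 + x)⁻¹ -
        (101484 / 10000 + 193 / 10) * (1 + x)⁻¹ ^ 2 - 11845 / 1000 * (1 + x)⁻¹ ^ 3) -
        2 * Real.pi * -n) = w * (1 + x)⁻¹ * (194166 / 10000 - 124127 / 10000 * (1 + x)⁻¹ -
        (101484 / 10000 + 193 / 10) * (1 + x)⁻¹ ^ 2 - 11845 / 1000 * (1 + x)⁻¹ ^ 3) +
        w * (2 * Real.pi * n) := by ring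
    rw [e]
    have h14 : (7 : ℝ) ≤ 41 / 100 * (1736 / 100) := by norm_num
    have h15 : 0 ≤ 137 / 50 * (1 + x)⁻¹ := by positivity
    linarith
  · have h6 := exp_neg_le_of (k := 14) (t := 0) (L := 7)
      (A := 1200000) (by norm_num) (by norm_num) (by norm_num) (by norm_num)
    calc 105 / 100 * (108 / 100) * Real.exp (-(2 * 7)) ≤
        105 / 100 * (108 / 100) * (1 / 1200000) := by gcongr
      _ ≤ (1 / 1000) ^ 2 := by norm_num

/-- `y ≥ 0`, the lump of the side `ε = 1` -/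
theorem d_pos1 {x y ρ w D : ℝ} (hx : 4835 / 1000 ≤ x) (h1 : x ≤ ρ) (h2 : ρ ≤ x + 2105 / 1000)
    (hy0 : 0 ≤ y) (hy : Real.exp y ≤ 1 + 2105 / 1000 / x)
    (hw1 : 86122 / 100000 * (ρ + 1 / ρ) ≤ w) (hw2 : 499 / 10 / ρ ≤ w) (hw3 : 655 / 100 ≤ w)
    (hD0 : 0 < D) (hD : D ^ 2 ≤ (1 + y) ^ 2 + x ^ 2) :
    tP 1 x y w ≤ 834 / 10000 * √(2 * Real.pi / (w * D)) := by
  have hx0 : 0 < x := by linarith
  have hρ0 : 0 < ρ := by linarith
  have hyl := n_le hx0 hy
  have hy1 : y ≤ 3682 / 10000 := by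
    refine (n_le' (by norm_num) hx hy).trans ?_
    norm_num
  have hya : |y| = y := abs_of_nonneg hy0
  have hq : 4627 / 10000 * x ≤ 473 / 1000 * x - 134 / 1000 * |y| := by rw [hya]; linarith
  have hx1 : 0 < 1 + x := by linarith
  have hcm : (1 + x)⁻¹ ≤ 1714 / 10000 := by
    rw [inv_le_comm₀ hx1 (by norm_num)]
    norm_num
    linarith
  have hc0 : 0 < (1 + x)⁻¹ := inv_pos.2 hx1
  have hpi : Real.pi ≤ 3141593 / 1000000 := by
    have := Real.pi_lt_d6
    norm_num at this ⊢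
    linarith
  refine lump_pos (κ := 10733 / 10000) (l := 11239 / 10000) (q1 := 4627 / 10000)
    (M := 2595 / 1000) (cm := 1714 / 10000) (K := 546016 / 10000) (L := 2578 / 1000)
    (by linarith) (by linarith) (by norm_num) hD0 hcm (by norm_num) (by norm_num) hq
    (tm_pos_sq (S := 1659 / 1000) (by linarith) hy0 hcm (by norm_num) (by norm_num) ?_)
    (by norm_num) (by norm_num) ?_ ?_ (by norm_num) ?_ ?_
  · calc (1 + y * (1659 / 1000)) ^ 2 ≤ (1 + 3682 / 10000 * (1659 / 1000)) ^ 2 := by gcongr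
      _ ≤ 2595 / 1000 := by norm_num
  · have h5 : 655 / 100 * (4627 / 10000 * (4835 / 1000)) ≤ w * (4627 / 10000 * x) := by gcongr
    norm_num at h5 ⊢
    linarith
  · refine (t2c_D (x0 := 4835 / 1000) (T := 2 * (11239 / 10000) * (4627 / 10000)) (by norm_num) hx
      (by norm_num) hD ?_).trans (le_of_eq (by ring))
    calc (1 + y) ^ 2 ≤ (1 + 3682 / 10000) ^ 2 := by gcongr
      _ ≤ _ := by norm_num
  · have e3 : (101484 / 10000 + 546016 / 10000 : ℝ) = 259 / 4 := by norm_num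
    rw [e3]
    have hl0 := hy0.trans hyl
    have hXY : (1 + x)⁻¹ * (194166 / 10000 - 124127 / 10000 * (1 + x)⁻¹ -
        259 / 4 * (1 + x)⁻¹ ^ 2 - 11845 / 1000 * (1 + x)⁻¹ ^ 3) - 628319 / 100000 *
        (2105 / 1000 / x - (2105 / 1000 / x) ^ 2 / 2 + (2105 / 1000 / x) ^ 3 / 3) ≤
        (1 + x)⁻¹ * (194166 / 10000 - 124127 / 10000 * (1 + x)⁻¹ -
        259 / 4 * (1 + x)⁻¹ ^ 2 - 11845 / 1000 * (1 + x)⁻¹ ^ 3) - 2 * Real.pi * y := by
      have : 2 * Real.pi * y ≤ 628319 / 100000 *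
          (2105 / 1000 / x - (2105 / 1000 / x) ^ 2 / 2 + (2105 / 1000 / x) ^ 3 / 3) := by
        calc 2 * Real.pi * y ≤ 2 * (3141593 / 1000000) * y := by gcongr
          _ ≤ 628319 / 100000 * y := by linarith
          _ ≤ _ := by gcongr
      linarith
    have hcL : 137 / 50 * (1 + x)⁻¹ ≤ 2578 / 1000 := by linarith
    rcases le_total x (58 / 10) with h5 | h5
    · refine pos_red (w0 := 499 / 10 / (x + 2105 / 1000)) (le_trans ?_ hw2) (by positivity) hXY
        (ev_dp1 (by linarith) (by linarith)) hcL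
      gcongr
    rcases le_total x (85 / 10) with h9 | h9
    · exact pos_red (w0 := 655 / 100) hw3 (by norm_num) hXY
        (ev_dp2 (by linarith) (by linarith)) hcL
    · refine pos_red (w0 := 86122 / 100000 * x) (le_trans ?_ hw1) (by positivity) hXY
        (ev_dp3 (by linarith)) hcL
      have : 0 < 1 / ρ := by positivity
      have : x ≤ ρ + 1 / ρ := by linarith
      gcongr
  · have h6 := exp_neg_le_of (k := 5) (t := 156 / 1000) (L := 2578 / 1000)
      (A := 17345 / 100) (by norm_num) (by norm_num) (by norm_num) (by norm_num)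
    calc 10733 / 10000 * (11239 / 10000) * Real.exp (-(2 * (2578 / 1000))) ≤
        10733 / 10000 * (11239 / 10000) * (1 / (17345 / 100)) := by gcongr
      _ ≤ (834 / 10000) ^ 2 := by norm_num

/-- `y ≥ 0`, the lump of the side `ε = -1` -/
theorem d_pos2 {x y ρ w D : ℝ} (hx : 4835 / 1000 ≤ x) (h1 : x ≤ ρ)
    (hy0 : 0 ≤ y) (hy : Real.exp y ≤ 1 + 2105 / 1000 / x)
    (hw1 : 86122 / 100000 * (ρ + 1 / ρ) ≤ w) (hw3 : 655 / 100 ≤ w)
    (hD0 : 0 < D) (hD : D ^ 2 ≤ (1 + y) ^ 2 + x ^ 2) :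
    tP (-1) x (-y) w ≤ 1 / 1000 * √(2 * Real.pi / (w * D)) := by
  have hx0 : 0 < x := by linarith
  have hρ0 : 0 < ρ := by linarith
  have hy1 : y ≤ 3682 / 10000 := by
    refine (n_le' (by norm_num) hx hy).trans ?_
    norm_num
  have hya : |-y| = y := by rw [abs_neg, abs_of_nonneg hy0]
  have hq : 4627 / 10000 * x ≤ 473 / 1000 * x - 134 / 1000 * |-y| := by rw [hya]; linarith
  have hx1 : 0 < 1 + x := by linarith
  have hcm : (1 + x)⁻¹ ≤ 1714 / 10000 := by
    rw [inv_le_comm₀ hx1 (by norm_num)]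
    norm_num
    linarith
  have hc0 : 0 < (1 + x)⁻¹ := inv_pos.2 hx1
  refine lump_neg (κ := 1213 / 1000) (l := 11239 / 10000) (q1 := 4627 / 10000) (E := 2559 / 1000)
    (M := 1873 / 1000) (cm := 1714 / 10000) (K := 114) (L := 8)
    (by linarith) (by linarith) (by norm_num) hD0 hcm (by norm_num) ?_ (by norm_num) hq
    (tm_neg_sq' (by linarith) hy0 ?_)
    (by norm_num) (by norm_num) ?_ ?_ (by norm_num) ?_ ?_
  · refine (exp_five (by norm_num) (by norm_num)).trans ?_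
    norm_num
  · calc (1 + y) ^ 2 ≤ (1 + 3682 / 10000) ^ 2 := by gcongr
      _ ≤ 1873 / 1000 := by norm_num
  · have h5 : 655 / 100 * (4627 / 10000 * (4835 / 1000)) ≤ w * (4627 / 10000 * x) := by gcongr
    norm_num at h5 ⊢
    linarith
  · refine (t2c_D (x0 := 4835 / 1000) (T := 2 * (11239 / 10000) * (4627 / 10000)) (by norm_num) hx
      (by norm_num) hD ?_).trans (le_of_eq (by ring))
    calc (1 + y) ^ 2 ≤ (1 + 3682 / 10000) ^ 2 := by gcongr
      _ ≤ _ := by norm_num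
  · have h8 : 194166 / 10000 ≤ 194166 / 10000 + 424429 / 10000 * (1 + x)⁻¹ -
        (650039 / 10000 + 114) * (1 + x)⁻¹ ^ 2 := by nlinarith
    have h9 : (1 + x)⁻¹ * (194166 / 10000) ≤ (1 + x)⁻¹ * (194166 / 10000 +
        424429 / 10000 * (1 + x)⁻¹ - (650039 / 10000 + 114) * (1 + x)⁻¹ ^ 2) := by gcongr
    have h10 : 0 ≤ 2 * Real.pi * y := by
      have := Real.pi_pos
      positivity
    have h11 : w * ((1 + x)⁻¹ * (194166 / 10000)) ≤ w * ((1 + x)⁻¹ * (194166 / 10000 +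
        424429 / 10000 * (1 + x)⁻¹ - (650039 / 10000 + 114) * (1 + x)⁻¹ ^ 2) -
        2 * Real.pi * -y) := by
      refine mul_le_mul_of_nonneg_left ?_ (by linarith)
      linarith
    have h12 : 8 ≤ (1 + x)⁻¹ * (194166 / 10000 * w - 137 / 50) := by
      have h13 : (1 + ρ)⁻¹ ≤ (1 + x)⁻¹ := by
        apply inv_anti₀ hx1
        linarith
      have h14 : 0 ≤ 194166 / 10000 * w - 137 / 50 := by linarith
      refine le_trans ?_ (mul_le_mul_of_nonneg_right h13 h14)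
      rw [← div_eq_inv_mul, le_div_iff₀ (by linarith)]
      rcases le_total (19 / 2) ρ with h95 | h95
      · have : 0 < 1 / ρ := by positivity
        linarith
      · linarith
    linarith
  · have h6 := exp_neg_le_of (k := 16) (t := 0) (L := 8)
      (A := 8000000) (by norm_num) (by norm_num) (by norm_num) (by norm_num)
    calc 1213 / 1000 * (11239 / 10000) * Real.exp (-(2 * 8)) ≤
        1213 / 1000 * (11239 / 10000) * (1 / 8000000) := by gcongr
      _ ≤ (1 / 1000) ^ 2 := by norm_num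

/-- **PTD** -/
theorem ptD : PTD := by
  intro r δ y η h hA hS hη hG8 hG10
  have hP := h.toPar
  have hδ := h.d0
  have hη2 := hη.trans (eo2_le hG10)
  have hρ : 694 / 100 ≤ r * δ := (reg2_facts h).2.1 hG10
  have hw1 := t2c_w1 hP hG8 (g := 86122 / 100000) (by norm_num)
  have hw2 := t2c_w2 hP
  have hρ0 : 0 < r * δ := by linarith
  have hw3 : 655 / 100 ≤ 1 / δ :=
    t2_wmin hρ0 (by norm_num) (by positivity) hw1 hw2 (by norm_num)
  have hDp : 0 < sD (r * δ) y := Real.sqrt_pos.2 (sD2_pos hA.y1)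
  have hDD : sD (r * δ) y ^ 2 = (1 + y) ^ 2 + sx (r * δ) y ^ 2 := by
    unfold sD
    rw [Real.sq_sqrt (sD2_pos hA.y1).le]
    rfl
  unfold tS
  rw [sG_w hδ]
  have hdiv : ∀ z : ℝ, 0 < z → z * (Real.exp y - 1) ≤ 2105 / 1000 →
      Real.exp y ≤ 1 + 2105 / 1000 / z := by
    intro z hz h1
    have : Real.exp y - 1 ≤ 2105 / 1000 / z := by
      rw [le_div_iff₀ hz]
      linarith
    linarith
  rcases le_total 0 y with hy | hy
  · obtain ⟨f1, f2⟩ := pos_facts hA.dom hy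
    rw [hA.eta] at f1 f2
    have hη3 : η ≤ 2105 / 1000 := (le_abs_self η).trans hη2
    have hx : 4835 / 1000 ≤ sx (r * δ) y := by linarith
    have hxρ : sx (r * δ) y ≤ r * δ := by
      refine (sx_le hA.dom).trans ?_
      have : Real.exp (-y) ≤ 1 := by
        rw [Real.exp_le_one_iff]
        linarith
      calc r * δ * Real.exp (-y) ≤ r * δ * 1 := by gcongr
        _ = _ := mul_one _
    have hex := hdiv (sx (r * δ) y) (by linarith) (f1.trans hη3)
    have k1 := d_pos1 hx hxρ (by linarith) hy hex hw1 hw2 hw3 hDp hDD.le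
    have k2 := d_pos2 hx hxρ hy hex hw1 hw3 hDp hDD.le
    linarith
  · obtain ⟨f1, f2⟩ := neg_facts hA.dom hA.y1.le hy
    rw [hA.eta] at f1
    have hη3 : -η ≤ 2105 / 1000 := (neg_le_abs η).trans hη2
    have hlo := hS.lo
    have hxρ : r * δ ≤ sx (r * δ) y := SokalF1T.sx_ge (by linarith) (by linarith) hy
    have hx2 : sx (r * δ) y ≤ r * δ + 2105 / 1000 := by linarith
    have hex : Real.exp (-y) ≤ 1 + 2105 / 1000 / (r * δ) := by
      have : Real.exp (-y) - 1 ≤ 2105 / 1000 / (r * δ) := by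
        rw [le_div_iff₀ hρ0]
        linarith
      linarith
    have hD1 : sD (r * δ) y ^ 2 ≤ 1 + sx (r * δ) y ^ 2 := by
      rw [hDD]
      nlinarith
    have hn0 : 0 ≤ -y := by linarith
    have k1 := d_neg1 hρ hxρ hx2 hn0 hex hw1 hw3 hDp hD1
    have k2 := d_neg3 hρ hxρ hx2 hn0 hex hw1 hw3 hDp hD1
    rw [neg_neg] at k2
    linarith

end SokalV3
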