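import Pool.Agent.Lib_MP_af4de1_v3.OutR8
import Pool.Agent.Lib_MP_af4de1_v3.T2D

/-!
# `N = 2`: `P2.outR`, the four classes
-/

set_option autoImplicit false

open Complex MeasureTheory Set SokalU SokalPG SokalF1 SokalF1S SokalF1M SokalF1G SokalF1B SokalV3F

namespace SokalV3

theorem outR_sD {ρ n dl x0 : ℝ} (h0 : 0 ≤ n) (h1 : n ≤ 1 / 2) (hx0 : 0 ≤ x0) (hx : x0 ≤ sx ρ (-n))
    (hdl : 1 ≤ dl) (h : 1 ≤ (dl ^ 2 - 1) * x0 ^ 2) :
    sD ρ (-n) ≤ dl * sx ρ (-n) ∧ sD ρ (-n) ^ 2 ≤ 1 + sx ρ (-n) ^ 2 := by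
  have hDD : sD ρ (-n) ^ 2 = (1 + -n) ^ 2 + sx ρ (-n) ^ 2 := by
    unfold sD
    rw [Real.sq_sqrt (by unfold sD2; positivity)]
    rfl
  have h2 : sD ρ (-n) ^ 2 ≤ 1 + sx ρ (-n) ^ 2 := by
    rw [hDD]
    nlinarith
  refine ⟨?_, h2⟩
  refine abs_le_of_sq_le_sq' ?_ (mul_nonneg (by linarith) (by linarith)) |>.2
  have h3 : x0 ^ 2 ≤ sx ρ (-n) ^ 2 := by gcongr
  have h4 : 0 ≤ dl ^ 2 - 1 := by nlinarith
  have h5 : (dl ^ 2 - 1) * x0 ^ 2 ≤ (dl ^ 2 - 1) * sx ρ (-n) ^ 2 := by gcongr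
  rw [mul_pow]
  linarith

theorem outR_inv {x cm : ℝ} (hx : 0 < 1 + x) (h : 1 ≤ cm * (1 + x)) : (1 + x)⁻¹ ≤ cm := by
  rw [inv_le_iff_one_le_mul₀ hx]
  exact h

theorem outR_T {Cc Λ T : ℝ} (hΛ : 0 ≤ Λ) (hC : 0 ≤ Cc)
    (h : Cc * (1 - Λ + Λ ^ 2 / 2 - Λ ^ 3 / 6 + Λ ^ 4 / 24) ≤ T) : Cc * Real.exp (-Λ) ≤ T :=
  (mul_le_mul_of_nonneg_left (t2c_exp_neg_le4 hΛ) hC).trans h

/-- class C -/
theorem outR_C {r δ n ζ : ℝ} (hR : Reg2 r δ) (hA : At r δ (-n) (-eo2 r δ)) (hS : Sad2 r δ (-n))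
    (h0 : 0 ≤ n) (h1 : n ≤ 1 / 2) (hG : Gm 2 r δ < 17 / 2) (he : eo2 r δ = 67 / 100 * Real.pi)
    (hζ : ζ ≤ 0) (hζ2 : -Real.pi ≤ -eo2 r δ + ζ) : Out r δ (-n) ζ (13 / 10) := by
  have hP := hR.toPar
  have hδ := hR.d0
  have hρ := hR.rho_ge hG
  have hpi := tf_pi
  have hw1 := t2c_w1 hP hR.G (g := 54712 / 100000) (by norm_num)
  have hw2 := t2c_w2 hP
  have hρ0 : 0 < r * δ := by linarith
  have hw3 : 522 / 100 ≤ 1 / δ :=
    t2_wmin hρ0 (by norm_num) (by positivity) hw1 hw2 (by norm_num)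
  obtain ⟨f0, f1, f2, f3, f4, f5, f6, f7⟩ := outR_facts (e0 := 21048 / 10000) (e1 := 2105 / 1000)
    (ρ0 := 754 / 100) (N0 := 2475 / 10000) (d1 := 2071 / 1000) (d2 := 2079 / 1000) hA.dom h0 h1
    hA.eta (by rw [he]; linarith) (by rw [he]; linarith) (by norm_num) hρ (by norm_num)
    (by norm_num) (by norm_num) (by norm_num) (by norm_num) (by norm_num)
  have hDp : 0 < sD (r * δ) (-n) := Real.sqrt_pos.2 (sD2_pos hA.y1)
  obtain ⟨D1, D2⟩ := outR_sD (ρ := r * δ) (dl := 10062 / 10000) (x0 := 9) h0 h1 (by norm_num)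
    (by linarith) (by norm_num) (by norm_num)
  obtain ⟨_, K2⟩ := outR_K hP.r0 hδ hA.dom hS
  have hex5 : Real.exp n ≤ 1 + 421 / 200 / (r * δ) := by
    have : (2105 / 1000 : ℝ) = 421 / 200 := by norm_num
    rwa [this] at f5
  have hz1 : 10367 / 10000 ≤ Real.pi - eo2 r δ := by rw [he]; linarith
  have hz2 : Real.pi - eo2 r δ ≤ 648 / 625 := by rw [he]; linarith
  have k1 : tP (-1) (sx (r * δ) (-n)) n (1 / δ) ≤
      999 / 10000 * √(2 * Real.pi / (1 / δ * sD (r * δ) (-n))) := by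
    rcases le_total (1 + sx (r * δ) (-n))⁻¹ (9 / 100) with hc | hc
    · have hx : 91 / 9 ≤ sx (r * δ) (-n) := by
        rw [inv_le_comm₀ (by linarith) (by norm_num)] at hc
        norm_num at hc
        linarith
      exact c_neg1 hρ f2 hc hx h0 f5 hw1 hw2 hw3 hDp D2
    · exact c_neg2 hρ f1 hc h0 f5 hw2 hw3 hDp D2
  have k2 := c_neg3 hρ f1 f2 h0 f5 hw1 hw2 hw3 hDp D2
  have k3 := outR_lC (by linarith) (by linarith) (by linarith) h0 hex5 (by linarith) hw2 hz1 hz2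
    hDp D2
  have hGw := sG_w (r := r) (y := -n) hδ
  rw [← hGw] at k1 k2 k3
  refine outR_fin (κ := 875 / 1000) (dl := 10062 / 10000) (sq := 10724 / 10000)
    (pvm := 1005 / 1000) (Cc := 1089 / 1000) (cm := 1 / 10) (h := 15 / 100) (P1 := 1 / 1000)
    (P2 := 999 / 10000) (Q := 53 / 125) (Kh := 21 / 10000) (Λ := 317 / 1000) (T := 7933 / 10000)
    hR hA hS f0 (by linarith) ?_ f7 (by norm_num) (outR_inv (by linarith) (by linarith))
    (by norm_num) (by norm_num) ?_ D1 (by norm_num) (by norm_num) (by norm_num) (by norm_num)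
    (by norm_num) (by norm_num) K2 k2 k1 k3 (by norm_num) (by norm_num) ?_ ?_
    (outR_T (by norm_num) (by norm_num) (by norm_num)) (by norm_num) (by norm_num)
    (by rw [he]; linarith) (by linarith) (by linarith) hζ hζ2
  · exact outR_nx (x0 := 9) h0 h1 f6 (by linarith) (by norm_num) (by norm_num) (by norm_num)
  · intro c hc0 hc1
    nlinarith [mul_nonneg hc0 (sub_nonneg.2 hc1), mul_nonneg (mul_nonneg hc0 hc0) (sub_nonneg.2 hc1)]
  · intro s s1 s2
    have hx1 : 0 < 1 + sx (r * δ) (-n) := by linarith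
    refine (outR_h1b (inv_pos.2 hx1) ?_ h0 ?_ (by linarith) s1 s2).2 ?_ (by linarith)
    · have : (1 + sx (r * δ) (-n)) * (1 + sx (r * δ) (-n))⁻¹ = 1 := mul_inv_cancel₀ hx1.ne'
      linarith
    · have h4 := outR_nx (x0 := 9) h0 h1 f6 (by linarith) (by norm_num) (by norm_num) (by norm_num)
      rw [← div_eq_mul_inv, le_div_iff₀ hx1]
      exact h4
    · exact outR_inv (by linarith) (by linarith)
  · rcases le_total (r * δ) (955 / 100) with hc | hc
    · refine outR_lam (w0 := 499 / 10 / (r * δ)) (z0 := 10367 / 10000) (d0 := 2071 / 1000) hρ0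
        (by norm_num) (by linarith) f7 (by positivity) hw2 (by norm_num) hz1 ?_
      have e : 499 / 10 / (r * δ) * (10367 / 10000) * ((2071 / 1000 - 3 / 2) *
          (r * δ + 2071 / 1000) + 2071 / 1000) = (499 / 10 * (10367 / 10000) *
          ((2071 / 1000 - 3 / 2) * (r * δ + 2071 / 1000) + 2071 / 1000)) / (r * δ) := by
        field_simp
      rw [e, le_div_iff₀ hρ0]
      nlinarith [mul_nonneg (sub_nonneg.2 hρ) (sub_nonneg.2 hc),
        mul_nonneg hρ0.le (mul_nonneg (sub_nonneg.2 hρ) (sub_nonneg.2 hc))]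
    · refine outR_lam (w0 := 54712 / 100000 * (r * δ + 1 / (r * δ))) (z0 := 10367 / 10000)
        (d0 := 2071 / 1000) hρ0 (by norm_num) (by linarith) f7 (by positivity) hw1 (by norm_num)
        hz1 ?_
      have e : 54712 / 100000 * (r * δ + 1 / (r * δ)) * (10367 / 10000) * ((2071 / 1000 - 3 / 2) *
          (r * δ + 2071 / 1000) + 2071 / 1000) = (54712 / 100000 * ((r * δ) ^ 2 + 1) *
          (10367 / 10000) *
          ((2071 / 1000 - 3 / 2) * (r * δ + 2071 / 1000) + 2071 / 1000)) / (r * δ) := by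
        field_simp
      rw [e, le_div_iff₀ hρ0]
      nlinarith [mul_nonneg hρ0.le (sub_nonneg.2 hc), mul_nonneg (mul_nonneg hρ0.le hρ0.le)
        (sub_nonneg.2 hc)]

/-- class D -/
theorem outR_D {r δ n ζ : ℝ} (hR : Reg2 r δ) (hA : At r δ (-n) (-eo2 r δ)) (hS : Sad2 r δ (-n))
    (h0 : 0 ≤ n) (h1 : n ≤ 1 / 2) (hG8 : 17 / 2 ≤ Gm 2 r δ) (hG10 : Gm 2 r δ < 10)
    (he : eo2 r δ = 67 / 100 * Real.pi)
    (hζ : ζ ≤ 0) (hζ2 : -Real.pi ≤ -eo2 r δ + ζ) : Out r δ (-n) ζ (13 / 10) := by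
  have hP := hR.toPar
  have hδ := hR.d0
  have hρ : 694 / 100 ≤ r * δ := (reg2_facts hR).2.1 hG10
  have hpi := tf_pi
  have hw1 := t2c_w1 hP hG8 (g := 86122 / 100000) (by norm_num)
  have hw2 := t2c_w2 hP
  have hρ0 : 0 < r * δ := by linarith
  have hw3 : 655 / 100 ≤ 1 / δ :=
    t2_wmin hρ0 (by norm_num) (by positivity) hw1 hw2 (by norm_num)
  obtain ⟨f0, f1, f2, f3, f4, f5, f6, f7⟩ := outR_facts (e0 := 21048 / 10000) (e1 := 2105 / 1000)
    (ρ0 := 694 / 100) (N0 := 2667 / 10000) (d1 := 2065 / 1000) (d2 := 2075 / 1000) hA.dom h0 h1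
    hA.eta (by rw [he]; linarith) (by rw [he]; linarith) (by norm_num) hρ (by norm_num)
    (by norm_num) (by norm_num) (by norm_num) (by norm_num) (by norm_num)
  have hDp : 0 < sD (r * δ) (-n) := Real.sqrt_pos.2 (sD2_pos hA.y1)
  obtain ⟨D1, D2⟩ := outR_sD (ρ := r * δ) (dl := 10062 / 10000) (x0 := 9) h0 h1 (by norm_num)
    (by linarith) (by norm_num) (by norm_num)
  obtain ⟨_, K2⟩ := outR_K hP.r0 hδ hA.dom hS
  have hex5 : Real.exp n ≤ 1 + 421 / 200 / (r * δ) := by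
    have : (2105 / 1000 : ℝ) = 421 / 200 := by norm_num
    rwa [this] at f5
  have hz1 : 10367 / 10000 ≤ Real.pi - eo2 r δ := by rw [he]; linarith
  have hz2 : Real.pi - eo2 r δ ≤ 648 / 625 := by rw [he]; linarith
  have k1 := d_neg1 hρ f1 f2 h0 f5 hw1 hw3 hDp D2
  have k2 := d_neg3 hρ f1 f2 h0 f5 hw1 hw3 hDp D2
  have k3 := outR_lD (by linarith) (by linarith) (by linarith) h0 hex5 (by linarith) hw2 hz1 hz2
    hDp D2
  have hGw := sG_w (r := r) (y := -n) hδ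
  rw [← hGw] at k1 k2 k3
  refine outR_fin (κ := 875 / 1000) (dl := 10062 / 10000) (sq := 10724 / 10000)
    (pvm := 1005 / 1000) (Cc := 1089 / 1000) (cm := 1 / 10) (h := 15 / 100)
    (Kh := 21 / 10000) (Λ := 49 / 100) (T := 6675 / 10000)
    hR hA hS f0 (by linarith) ?_ f7 (by norm_num) (outR_inv (by linarith) (by linarith))
    (by norm_num) (by norm_num) ?_ D1 (by norm_num) (by norm_num) (by norm_num) (by norm_num)
    (by norm_num) (by norm_num) K2 k2 k1 k3 (by norm_num) (by norm_num) ?_ ?_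
    (outR_T (by norm_num) (by norm_num) (by norm_num)) (by norm_num) (by norm_num)
    (by rw [he]; linarith) (by linarith) (by linarith) hζ hζ2
  · exact outR_nx (x0 := 9) h0 h1 f6 (by linarith) (by norm_num) (by norm_num) (by norm_num)
  · intro c hc0 hc1
    nlinarith [mul_nonneg hc0 (sub_nonneg.2 hc1), mul_nonneg (mul_nonneg hc0 hc0) (sub_nonneg.2 hc1)]
  · intro s s1 s2
    have hx1 : 0 < 1 + sx (r * δ) (-n) := by linarith
    refine (outR_h1b (inv_pos.2 hx1) ?_ h0 ?_ (by linarith) s1 s2).2 ?_ (by linarith)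
    · have : (1 + sx (r * δ) (-n)) * (1 + sx (r * δ) (-n))⁻¹ = 1 := mul_inv_cancel₀ hx1.ne'
      linarith
    · have h4 := outR_nx (x0 := 9) h0 h1 f6 (by linarith) (by norm_num) (by norm_num) (by norm_num)
      rw [← div_eq_mul_inv, le_div_iff₀ hx1]
      exact h4
    · exact outR_inv (by linarith) (by linarith)
  · rcases le_total (r * δ) (76 / 10) with hc | hc
    · refine outR_lam (w0 := 499 / 10 / (r * δ)) (z0 := 10367 / 10000) (d0 := 2065 / 1000) hρ0
        (by norm_num) (by linarith) f7 (by positivity) hw2 (by norm_num) hz1 ?_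
      have e : 499 / 10 / (r * δ) * (10367 / 10000) * ((2065 / 1000 - 3 / 2) *
          (r * δ + 2065 / 1000) + 2065 / 1000) = (499 / 10 * (10367 / 10000) *
          ((2065 / 1000 - 3 / 2) * (r * δ + 2065 / 1000) + 2065 / 1000)) / (r * δ) := by
        field_simp
      rw [e, le_div_iff₀ hρ0]
      nlinarith [mul_nonneg (sub_nonneg.2 hρ) (sub_nonneg.2 hc),
        mul_nonneg hρ0.le (mul_nonneg (sub_nonneg.2 hρ) (sub_nonneg.2 hc))]
    · refine outR_lam (w0 := 86122 / 100000 * (r * δ + 1 / (r * δ))) (z0 := 10367 / 10000)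
        (d0 := 2065 / 1000) hρ0 (by norm_num) (by linarith) f7 (by positivity) hw1 (by norm_num)
        hz1 ?_
      have e : 86122 / 100000 * (r * δ + 1 / (r * δ)) * (10367 / 10000) * ((2065 / 1000 - 3 / 2) *
          (r * δ + 2065 / 1000) + 2065 / 1000) = (86122 / 100000 * ((r * δ) ^ 2 + 1) *
          (10367 / 10000) *
          ((2065 / 1000 - 3 / 2) * (r * δ + 2065 / 1000) + 2065 / 1000)) / (r * δ) := by
        field_simp
      rw [e, le_div_iff₀ hρ0]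
      nlinarith [mul_nonneg hρ0.le (sub_nonneg.2 hc), mul_nonneg (mul_nonneg hρ0.le hρ0.le)
        (sub_nonneg.2 hc)]

theorem outR_tS {r δ y T : ℝ} (h : tS r δ y ≤ T * sG r δ y) :
    tP 1 (sx (r * δ) y) y (1 / δ) ≤ T * sG r δ y ∧
      tP (-1) (sx (r * δ) y) (-y) (1 / δ) ≤ T * sG r δ y := by
  unfold tS at h
  have h1 : 0 ≤ tP 1 (sx (r * δ) y) y (1 / δ) := by unfold tP; positivity
  have h2 : 0 ≤ tP (-1) (sx (r * δ) y) (-y) (1 / δ) := by unfold tP; positivity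
  constructor <;> linarith

/-- class B -/
theorem outR_B {r δ n ζ : ℝ} (hR : Reg2 r δ) (hA : At r δ (-n) (-eo2 r δ)) (hS : Sad2 r δ (-n))
    (h0 : 0 ≤ n) (h1 : n ≤ 1 / 2) (hG10 : 10 ≤ Gm 2 r δ) (hG20 : Gm 2 r δ < 20)
    (he : eo2 r δ = 65 / 100 * Real.pi)
    (hζ : ζ ≤ 0) (hζ2 : -Real.pi ≤ -eo2 r δ + ζ) : Out r δ (-n) ζ (13 / 10) := by
  have hP := hR.toPar
  have hδ := hR.d0
  have hρ : 485 / 100 ≤ r * δ := (reg2_facts hR).2.2 hG20
  have hpi := tf_pi
  have hw1 := t2c_w1 hP hG10 (g := 2533 / 2500) (by norm_num)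
  have hw2 := t2c_w2 hP
  have hρ0 : 0 < r * δ := by linarith
  obtain ⟨f0, f1, f2, f3, f4, f5, f6, f7⟩ := outR_facts (e0 := 2042 / 1000) (e1 := 2043 / 1000)
    (ρ0 := 485 / 100) (N0 := 3575 / 10000) (d1 := 1968 / 1000) (d2 := 1989 / 1000) hA.dom h0 h1
    hA.eta (by rw [he]; linarith) (by rw [he]; linarith) (by norm_num) hρ (by norm_num)
    (by norm_num) (by norm_num) (by norm_num) (by norm_num) (by norm_num)
  have hDp : 0 < sD (r * δ) (-n) := Real.sqrt_pos.2 (sD2_pos hA.y1)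
  obtain ⟨D1, D2⟩ := outR_sD (ρ := r * δ) (dl := 10204 / 10000) (x0 := 68 / 10) h0 h1
    (by norm_num) (by linarith) (by norm_num) (by norm_num)
  obtain ⟨_, K2⟩ := outR_K hP.r0 hδ hA.dom hS
  have hz1 : 2199 / 2000 ≤ Real.pi - eo2 r δ := by rw [he]; linarith
  have hz2 : Real.pi - eo2 r δ ≤ 2749 / 2500 := by rw [he]; linarith
  have hη : |(-eo2 r δ)| ≤ eo2 r δ := by
    rw [abs_neg, abs_of_nonneg (by rw [he]; linarith)]
  obtain ⟨k2, k1⟩ := outR_tS (ptB r δ (-n) (-eo2 r δ) hR hA hS hη hG10 hG20)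
  rw [neg_neg] at k1
  have k3 := outR_lB (by linarith) (by linarith) (by linarith) h0 f5 (by linarith) hw2 hz1 hz2
    hDp D2
  have hGw := sG_w (r := r) (y := -n) hδ
  rw [← hGw] at k3
  refine outR_fin (κ := 81 / 100) (dl := 10204 / 10000) (sq := 11225 / 10000)
    (pvm := 10142 / 10000) (Cc := 115 / 100) (cm := 128 / 1000) (h := 15 / 100)
    (Kh := 21 / 10000) (Λ := 515 / 1000) (T := 6876 / 10000)
    hR hA hS f0 (by linarith) ?_ f7 (by norm_num) (outR_inv (by linarith) (by linarith))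
    (by norm_num) (by norm_num) ?_ D1 (by norm_num) (by norm_num) (by norm_num) (by norm_num)
    (by norm_num) (by norm_num) K2 k2 k1 k3 (by norm_num) (by norm_num) ?_ ?_
    (outR_T (by norm_num) (by norm_num) (by norm_num)) (by norm_num) (by norm_num)
    (by rw [he]; linarith) (by linarith) (by linarith) hζ hζ2
  · exact outR_nx (x0 := 68 / 10) h0 h1 f6 (by linarith) (by norm_num) (by norm_num) (by norm_num)
  · intro c hc0 hc1
    nlinarith [mul_nonneg hc0 (sub_nonneg.2 hc1), mul_nonneg (mul_nonneg hc0 hc0) (sub_nonneg.2 hc1)]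
  · intro s s1 s2
    have hx1 : 0 < 1 + sx (r * δ) (-n) := by linarith
    refine (outR_h1b (inv_pos.2 hx1) ?_ h0 ?_ (by linarith) s1 s2).2 ?_ (by linarith)
    · have : (1 + sx (r * δ) (-n)) * (1 + sx (r * δ) (-n))⁻¹ = 1 := mul_inv_cancel₀ hx1.ne'
      linarith
    · have h4 := outR_nx (x0 := 68 / 10) h0 h1 f6 (by linarith) (by norm_num) (by norm_num)
        (by norm_num)
      rw [← div_eq_mul_inv, le_div_iff₀ hx1]
      exact h4
    · exact outR_inv (by linarith) (by linarith)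
  · rcases le_total (r * δ) 7 with hc | hc
    · refine outR_lam (w0 := 499 / 10 / (r * δ)) (z0 := 2199 / 2000) (d0 := 1968 / 1000) hρ0
        (by norm_num) (by linarith) f7 (by positivity) hw2 (by norm_num) hz1 ?_
      have e : 499 / 10 / (r * δ) * (2199 / 2000) * ((1968 / 1000 - 3 / 2) *
          (r * δ + 1968 / 1000) + 1968 / 1000) = (499 / 10 * (2199 / 2000) *
          ((1968 / 1000 - 3 / 2) * (r * δ + 1968 / 1000) + 1968 / 1000)) / (r * δ) := by
        field_simp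
      rw [e, le_div_iff₀ hρ0]
      nlinarith [mul_nonneg (sub_nonneg.2 hρ) (sub_nonneg.2 hc),
        mul_nonneg hρ0.le (mul_nonneg (sub_nonneg.2 hρ) (sub_nonneg.2 hc))]
    · refine outR_lam (w0 := 2533 / 2500 * (r * δ + 1 / (r * δ))) (z0 := 2199 / 2000)
        (d0 := 1968 / 1000) hρ0 (by norm_num) (by linarith) f7 (by positivity) hw1 (by norm_num)
        hz1 ?_
      have e : 2533 / 2500 * (r * δ + 1 / (r * δ)) * (2199 / 2000) * ((1968 / 1000 - 3 / 2) *
          (r * δ + 1968 / 1000) + 1968 / 1000) = (2533 / 2500 * ((r * δ) ^ 2 + 1) *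
          (2199 / 2000) *
          ((1968 / 1000 - 3 / 2) * (r * δ + 1968 / 1000) + 1968 / 1000)) / (r * δ) := by
        field_simp
      rw [e, le_div_iff₀ hρ0]
      nlinarith [mul_nonneg hρ0.le (sub_nonneg.2 hc), mul_nonneg (mul_nonneg hρ0.le hρ0.le)
        (sub_nonneg.2 hc)]

/-- class A -/
theorem outR_A {r δ n ζ : ℝ} (hR : Reg2 r δ) (hA : At r δ (-n) (-eo2 r δ)) (hS : Sad2 r δ (-n))
    (h0 : 0 ≤ n) (h1 : n ≤ 1 / 2) (hG20 : 20 ≤ Gm 2 r δ)
    (he : eo2 r δ = 60 / 100 * Real.pi)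
    (hζ : ζ ≤ 0) (hζ2 : -Real.pi ≤ -eo2 r δ + ζ) : Out r δ (-n) ζ (13 / 10) := by
  have hP := hR.toPar
  have hδ := hR.d0
  have hρ := hR.rho
  have hpi := tf_pi
  have hw1 := t2c_w1 hP hG20 (g := 2533 / 1250) (by norm_num)
  have hw2 := t2c_w2 hP
  have hρ0 : 0 < r * δ := by linarith
  obtain ⟨f0, f1, f2, f3, f4, f5, f6, f7⟩ := outR_facts (e0 := 18849 / 10000) (e1 := 1885 / 1000)
    (ρ0 := 16 / 5) (N0 := 4838 / 10000) (d1 := 1732 / 1000) (d2 := 1785 / 1000) hA.dom h0 h1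
    hA.eta (by rw [he]; linarith) (by rw [he]; linarith) (by norm_num) hρ (by norm_num)
    (by norm_num) (by norm_num) (by norm_num) (by norm_num) (by norm_num)
  have hDp : 0 < sD (r * δ) (-n) := Real.sqrt_pos.2 (sD2_pos hA.y1)
  obtain ⟨D1, D2⟩ := outR_sD (ρ := r * δ) (dl := 10204 / 10000) (x0 := 4932 / 1000) h0 h1
    (by norm_num) (by linarith) (by norm_num) (by norm_num)
  obtain ⟨K1, _⟩ := outR_K hP.r0 hδ hA.dom hS
  have hex5 : Real.exp n ≤ 1 + 377 / 200 / (r * δ) := by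
    have : (1885 / 1000 : ℝ) = 377 / 200 := by norm_num
    rwa [this] at f5
  have hz1 : 6283 / 5000 ≤ Real.pi - eo2 r δ := by rw [he]; linarith
  have hz2 : Real.pi - eo2 r δ ≤ 12567 / 10000 := by rw [he]; linarith
  have hη : |(-eo2 r δ)| ≤ eo2 r δ := by
    rw [abs_neg, abs_of_nonneg (by rw [he]; linarith)]
  obtain ⟨k2, k1⟩ := outR_tS (SokalT2.pTA r δ (-n) (-eo2 r δ) hR hA hS hη (Or.inr hG20))
  rw [neg_neg] at k1
  have k3 := outR_lA (by linarith) (by linarith) (by linarith) h0 hex5 (by linarith) hw2 hz1 hz2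
    hDp D2
  have hGw := sG_w (r := r) (y := -n) hδ
  rw [← hGw] at k3
  refine outR_fin (κ := 81 / 100) (dl := 10204 / 10000) (sq := 11225 / 10000)
    (pvm := 10142 / 10000) (Cc := 115 / 100) (cm := 1686 / 10000) (h := 9 / 100)
    (Kh := 407 / 10000) (Λ := 585 / 1000) (T := 6414 / 10000)
    hR hA hS f0 (by linarith) ?_ f7 (by norm_num) (outR_inv (by linarith) (by linarith))
    (by norm_num) (by norm_num) ?_ D1 (by norm_num) (by norm_num) (by norm_num) (by norm_num)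
    (by norm_num) (by norm_num) K1 k2 k1 k3 (by norm_num) (by norm_num) ?_ ?_
    (outR_T (by norm_num) (by norm_num) (by norm_num)) (by norm_num) (by norm_num)
    (by rw [he]; linarith) (by linarith) (by linarith) hζ hζ2
  · exact outR_nx (x0 := 498 / 100) h0 h1 f6 (by linarith) (by norm_num) (by norm_num)
      (by norm_num)
  · intro c hc0 hc1
    nlinarith [mul_nonneg hc0 (sub_nonneg.2 hc1), mul_nonneg (mul_nonneg hc0 hc0) (sub_nonneg.2 hc1)]
  · intro s s1 s2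
    have hx1 : 0 < 1 + sx (r * δ) (-n) := by linarith
    refine (outR_h1b (inv_pos.2 hx1) ?_ h0 ?_ (by linarith) s1 s2).1 ?_ (by linarith)
    · have : (1 + sx (r * δ) (-n)) * (1 + sx (r * δ) (-n))⁻¹ = 1 := mul_inv_cancel₀ hx1.ne'
      linarith
    · have h4 := outR_nx (x0 := 498 / 100) h0 h1 f6 (by linarith) (by norm_num) (by norm_num)
        (by norm_num)
      rw [← div_eq_mul_inv, le_div_iff₀ hx1]
      exact h4
    · exact outR_inv (by linarith) (by linarith)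
  · rcases le_total (r * δ) (49 / 10) with hc | hc
    · refine outR_lam (w0 := 499 / 10 / (r * δ)) (z0 := 6283 / 5000) (d0 := 1732 / 1000) hρ0
        (by norm_num) (by linarith) f7 (by positivity) hw2 (by norm_num) hz1 ?_
      have e : 499 / 10 / (r * δ) * (6283 / 5000) * ((1732 / 1000 - 3 / 2) *
          (r * δ + 1732 / 1000) + 1732 / 1000) = (499 / 10 * (6283 / 5000) *
          ((1732 / 1000 - 3 / 2) * (r * δ + 1732 / 1000) + 1732 / 1000)) / (r * δ) := by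
        field_simp
      rw [e, le_div_iff₀ hρ0]
      nlinarith [mul_nonneg (sub_nonneg.2 hρ) (sub_nonneg.2 hc),
        mul_nonneg hρ0.le (mul_nonneg (sub_nonneg.2 hρ) (sub_nonneg.2 hc))]
    · refine outR_lam (w0 := 2533 / 1250 * (r * δ + 1 / (r * δ))) (z0 := 6283 / 5000)
        (d0 := 1732 / 1000) hρ0 (by norm_num) (by linarith) f7 (by positivity) hw1 (by norm_num)
        hz1 ?_
      have e : 2533 / 1250 * (r * δ + 1 / (r * δ)) * (6283 / 5000) * ((1732 / 1000 - 3 / 2) *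
          (r * δ + 1732 / 1000) + 1732 / 1000) = (2533 / 1250 * ((r * δ) ^ 2 + 1) *
          (6283 / 5000) *
          ((1732 / 1000 - 3 / 2) * (r * δ + 1732 / 1000) + 1732 / 1000)) / (r * δ) := by
        field_simp
      rw [e, le_div_iff₀ hρ0]
      nlinarith [mul_nonneg hρ0.le (sub_nonneg.2 hc), mul_nonneg (mul_nonneg hρ0.le hρ0.le)
        (sub_nonneg.2 hc)]

/-- **`P2.outR`** -/
theorem p2_outR : ∀ (r δ y ζ : ℝ), Reg2 r δ → At r δ y (-eo2 r δ) → Sad2 r δ y →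
    ζ ≤ 0 → -Real.pi ≤ -eo2 r δ + ζ → Out r δ y ζ (13 / 10) := by
  intro r δ y ζ hR hA hS hζ hζ2
  obtain ⟨n, rfl⟩ : ∃ n, y = -n := ⟨-y, by ring⟩
  have hpi := Real.pi_pos
  have heo : 0 ≤ eo2 r δ := by
    rcases eo2_cases hR with ⟨_, _, he⟩ | ⟨_, _, he⟩ | ⟨_, _, he⟩ <;> rw [he] <;> positivity
  have h0 : 0 ≤ n := by
    have := G2R.y_nonpos hA.dom (by rw [hA.eta]; linarith)
    linarith
  have h1 : n ≤ 1 / 2 := by
    have := hS.lo
    linarith
  rcases lt_or_ge (Gm 2 r δ) 10 with hG | hG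
  · have he : eo2 r δ = 67 / 100 * Real.pi := by
      unfold eo2 om2
      rw [hst_two, if_pos hG]
      ring
    rcases lt_or_ge (Gm 2 r δ) (17 / 2) with hG8 | hG8
    · exact outR_C hR hA hS h0 h1 hG8 he hζ hζ2
    · exact outR_D hR hA hS h0 h1 hG8 hG he hζ hζ2
  · rcases lt_or_ge (Gm 2 r δ) 20 with hG20 | hG20
    · have he : eo2 r δ = 65 / 100 * Real.pi := by
        unfold eo2 om2
        rw [hst_two, if_neg (not_lt.2 hG), if_pos hG20]
        ring
      exact outR_B hR hA hS h0 h1 hG hG20 he hζ hζ2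
    · have he : eo2 r δ = 60 / 100 * Real.pi := by
        unfold eo2 om2
        rw [hst_two, if_neg (not_lt.2 hG), if_neg (not_lt.2 hG20)]
        ring
      exact outR_A hR hA hS h0 h1 hG20 he hζ hζ2

end SokalV3
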