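import Pool.Agent.Lib_MP_af4de1_v3.V3
import Pool.Agent.Lib_MP_af4de1_f1.TG9

/-!
# F1, plan v3: `P2.gapL`

With `u = 1/ρ`, `s = η/ρ`, `z = eo2/ρ`:
* `ph(ya) ≥ (1-s)(1 - log(1-s))` (`ph_trial`, `c = 1 - s`),
* `ph(yb) ≤ (1+z)(1 - log(1+z)) + (23/40) z² u²` (dual trial value `v = -log(1+z)`, `tg9_ph_le`),
* prefactor: `(ya - yb) + (1/2) log (D_a/D_b) ≤ (ya - yb)/2 + (1 + 2 ya) e^(2 ya) u²/4`,
  `e^ya ≤ 1/(1-s)`, `-yb ≤ z`.
Reduction lemmas for both sides: `p2g_gap`, `p2g_D`.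
-/

set_option autoImplicit false

namespace SokalV3

open SokalF1 SokalF1S SokalF1M SokalF1T Set

theorem p2g_sM {r δ y : ℝ} (hr : 0 < r) (hδ : 0 < δ) :
    sM r δ y = Real.exp (r * ph (r * δ) y) / (sD2 (r * δ) y) ^ (1 / 4 : ℝ) := by
  unfold sM ph
  congr 2
  field_simp

theorem p2g_root {A B Q : ℝ} (hA : 0 ≤ A) (hB : 0 < B) (h : A ≤ Real.exp (4 * Q) * B) :
    A ^ (1 / 4 : ℝ) ≤ Real.exp Q * B ^ (1 / 4 : ℝ) := by
  have h1 := Real.rpow_le_rpow hA h (by norm_num : (0 : ℝ) ≤ 1 / 4)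
  rw [Real.mul_rpow (Real.exp_pos _).le hB.le, ← Real.exp_mul] at h1
  have : 4 * Q * (1 / 4) = Q := by ring
  rwa [this] at h1

theorem p2g_kap {r δ y : ℝ} (hδ : 0 < δ) (h : Dom (r * δ) y) :
    ‖kap r δ y‖ = r * Real.exp (-y) := by
  unfold kap
  rw [norm_div, norm_sK h, Complex.norm_real, Real.norm_of_nonneg hδ.le]
  field_simp

theorem p2g_gap0 {r δ ya yb γ Q : ℝ} (hr : 0 < r) (hδ : 0 < δ) (ha1 : -1 < ya) (hb1 : -1 < yb)
    (hD : sD2 (r * δ) ya ≤ Real.exp (4 * Q) * sD2 (r * δ) yb)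
    (h0 : γ + Q + r * ph (r * δ) yb ≤ r * ph (r * δ) ya) :
    Real.exp γ * sM r δ yb ≤ sM r δ ya := by
  have hA := sD2_pos (ρ := r * δ) ha1
  have hB := sD2_pos (ρ := r * δ) hb1
  have hroot := p2g_root hA.le hB hD
  have hA4 : 0 < (sD2 (r * δ) ya) ^ (1 / 4 : ℝ) := Real.rpow_pos_of_pos hA _
  have hB4 : 0 < (sD2 (r * δ) yb) ^ (1 / 4 : ℝ) := Real.rpow_pos_of_pos hB _
  rw [p2g_sM hr hδ, p2g_sM hr hδ, ← mul_div_assoc, div_le_div_iff₀ hB4 hA4]
  calc Real.exp γ * Real.exp (r * ph (r * δ) yb) * (sD2 (r * δ) ya) ^ (1 / 4 : ℝ)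
      ≤ Real.exp γ * Real.exp (r * ph (r * δ) yb) *
        (Real.exp Q * (sD2 (r * δ) yb) ^ (1 / 4 : ℝ)) :=
        mul_le_mul_of_nonneg_left hroot (by positivity)
    _ = Real.exp (γ + Q + r * ph (r * δ) yb) * (sD2 (r * δ) yb) ^ (1 / 4 : ℝ) := by
        rw [Real.exp_add, Real.exp_add]; ring
    _ ≤ Real.exp (r * ph (r * δ) ya) * (sD2 (r * δ) yb) ^ (1 / 4 : ℝ) :=
        mul_le_mul_of_nonneg_right (Real.exp_le_exp.2 h0) hB4.le

/-- reduction of `Gap` to exponents -/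
theorem p2g_gap {r δ ya yb γ Q : ℝ} (hr : 0 < r) (hδ : 0 < δ) (ha : Dom (r * δ) ya)
    (hb : Dom (r * δ) yb) (ha1 : -1 < ya) (hb1 : -1 < yb)
    (hD : sD2 (r * δ) ya ≤ Real.exp (4 * Q) * sD2 (r * δ) yb)
    (h0 : γ + Q + r * ph (r * δ) yb ≤ r * ph (r * δ) ya)
    (h1 : γ + (ya - yb) + Q + r * ph (r * δ) yb ≤ r * ph (r * δ) ya) : Gap r δ ya yb γ := by
  refine ⟨p2g_gap0 hr hδ ha1 hb1 hD h0, ?_⟩
  have h2 := p2g_gap0 (γ := γ + (ya - yb)) hr hδ ha1 hb1 hD h1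
  rw [p2g_kap hδ ha, p2g_kap hδ hb]
  have h3 := mul_le_mul_of_nonneg_left h2 (mul_pos hr (Real.exp_pos (-ya))).le
  refine le_trans (le_of_eq ?_) h3
  have e : Real.exp (γ + (ya - yb)) * Real.exp (-ya) = Real.exp γ * Real.exp (-yb) := by
    rw [← Real.exp_add, ← Real.exp_add]
    congr 1
    ring
  linear_combination (-(r * sM r δ yb)) * e

/-- the ratio of the `D²` -/
theorem p2g_D {ρ ya yb : ℝ} (ha : Dom ρ ya) (hb : Dom ρ yb) (hb2 : -(1 / 2) ≤ yb) :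
    sD2 ρ ya ≤ Real.exp (4 * (-(ya - yb) / 2 + (1 + 2 * ya) * Real.exp ya ^ 2 * (1 / ρ) ^ 2 / 4)) *
      sD2 ρ yb := by
  have hρ := ha.1
  rw [tg9_D2 ha, tg9_D2 hb]
  set q := (1 + 2 * ya) * Real.exp ya ^ 2 * (1 / ρ) ^ 2 with hq
  have e1 : Real.exp (4 * (-(ya - yb) / 2 + q / 4)) =
      Real.exp (-ya) ^ 2 * Real.exp yb ^ 2 * Real.exp q := by
    rw [← Real.exp_nat_mul, ← Real.exp_nat_mul, ← Real.exp_add, ← Real.exp_add]
    congr 1
    push_cast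
    ring
  have e2 : Real.exp ya * Real.exp (-ya) = 1 := tg9_e ya
  have e3 : Real.exp yb * Real.exp (-yb) = 1 := tg9_e yb
  have h1 : q + 1 ≤ Real.exp q := Real.add_one_le_exp q
  have e4 : 1 + 2 * ya + (ρ * Real.exp (-ya)) ^ 2 = (ρ * Real.exp (-ya)) ^ 2 * (q + 1) := by
    have : (ρ * Real.exp (-ya)) ^ 2 * q =
        (1 + 2 * ya) * (Real.exp ya * Real.exp (-ya)) ^ 2 := by
      rw [hq]
      field_simp
    rw [mul_add, this, e2]
    ring
  rw [e1, e4]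
  calc (ρ * Real.exp (-ya)) ^ 2 * (q + 1) ≤ (ρ * Real.exp (-ya)) ^ 2 * Real.exp q :=
        mul_le_mul_of_nonneg_left h1 (sq_nonneg _)
    _ = Real.exp (-ya) ^ 2 * Real.exp yb ^ 2 * Real.exp q * (ρ * Real.exp (-yb)) ^ 2 := by
        have : Real.exp yb ^ 2 * Real.exp (-yb) ^ 2 = 1 := by rw [← mul_pow, e3, one_pow]
        linear_combination (-(ρ ^ 2 * Real.exp (-ya) ^ 2 * Real.exp q)) * this
    _ ≤ Real.exp (-ya) ^ 2 * Real.exp yb ^ 2 * Real.exp q *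
        (1 + 2 * yb + (ρ * Real.exp (-yb)) ^ 2) :=
        mul_le_mul_of_nonneg_left (by linarith) (by positivity)

theorem p2g_y_nonneg {ρ y : ℝ} (h : Dom ρ y) (h1 : -1 < y) (h0 : 0 ≤ sE ρ y) : 0 ≤ y := by
  by_contra hy
  rw [not_le] at hy
  have := (sE_strictMonoOn h (dom_zero h.1) h1.le) (left_mem_Icc.2 hy.le) (right_mem_Icc.2 hy.le) hy
  rw [sE_zero h.1] at this
  linarith

theorem p2g_y_nonpos {ρ y : ℝ} (h : Dom ρ y) (h0 : sE ρ y ≤ 0) : y ≤ 0 := by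
  by_contra hy
  rw [not_le] at hy
  have := (sE_strictMonoOn (dom_zero h.1) h (by norm_num)) (left_mem_Icc.2 hy.le)
    (right_mem_Icc.2 hy.le) hy
  rw [sE_zero h.1] at this
  linarith

/-- `e^y ≤ 1/(1-s)` on the left side -/
theorem p2g_exp_a {ρ y : ℝ} (h : Dom ρ y) (hy : 0 ≤ y) : Real.exp y * (1 - sE ρ y / ρ) ≤ 1 := by
  have hρ := h.1
  have h1 := sx_le h
  have h2 : sE ρ y = sP ρ y + ρ - sx ρ y := rfl
  have h3 := sP_nonneg hρ hy
  have h5 : ρ - sE ρ y ≤ ρ * Real.exp (-y) := by linarith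
  have h6 := tg9_e y
  have h7 := mul_le_mul_of_nonneg_left h5 (Real.exp_pos y).le
  have h8 : Real.exp y * (1 - sE ρ y / ρ) * ρ = Real.exp y * (ρ - sE ρ y) := by
    field_simp
  have h9 : Real.exp y * (1 - sE ρ y / ρ) * ρ ≤ 1 * ρ := by
    rw [h8, one_mul]
    refine h7.trans (le_of_eq ?_)
    linear_combination ρ * h6
  exact le_of_mul_le_mul_right h9 hρ

/-- `e^(-2y) ≤ (1+z)² + u²` on the right side -/
theorem p2g_exp_b {ρ y z : ℝ} (h : Dom ρ y) (h1 : -1 < y) (hy : y ≤ 0) (hz : sE ρ y = -(ρ * z)) :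
    Real.exp (-y) ^ 2 ≤ (1 + z) ^ 2 + (1 / ρ) ^ 2 := by
  have hρ := h.1
  have h2 : sE ρ y = sP ρ y + ρ - sx ρ y := rfl
  have h3 := sP_nonpos hρ hy
  have h4 : sx ρ y ≤ ρ + ρ * z := by linarith
  have h5 := sx_sq_add h
  have h6 := pow_le_pow_left₀ (sx_nonneg ρ y) h4 2
  have h7 : y ^ 2 ≤ 1 := by nlinarith
  have h8 : Real.exp (-y) ^ 2 * ρ ^ 2 ≤ ((1 + z) ^ 2 + (1 / ρ) ^ 2) * ρ ^ 2 := by
    have e1 : ((1 + z) ^ 2 + (1 / ρ) ^ 2) * ρ ^ 2 = (ρ + ρ * z) ^ 2 + 1 := by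
      field_simp
    rw [e1]
    rw [mul_pow] at h5
    linarith
  exact le_of_mul_le_mul_right h8 (by positivity)

theorem p2g_b_le {ρ y z : ℝ} (hz0 : 1 / ρ ≤ z) (hρ : 0 < ρ)
    (h : Real.exp (-y) ^ 2 ≤ (1 + z) ^ 2 + (1 / ρ) ^ 2) : -y ≤ z := by
  have hu : 0 < 1 / ρ := by positivity
  have hz : 0 ≤ z := by linarith
  have h1 := Real.quadratic_le_exp_of_nonneg hz
  have h2 : (1 + z + z ^ 2 / 2) ^ 2 ≤ Real.exp z ^ 2 := pow_le_pow_left₀ (by positivity) h1 2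
  have h3 : (1 / ρ) ^ 2 ≤ z ^ 2 := pow_le_pow_left₀ hu.le hz0 2
  have h4 : Real.exp (-y) ^ 2 ≤ Real.exp z ^ 2 := by
    refine h.trans (le_trans ?_ h2)
    nlinarith [pow_nonneg hz 3, pow_nonneg hz 4]
  have h5 : Real.exp (-y) ≤ Real.exp z :=
    le_of_pow_le_pow_left₀ (by norm_num) (Real.exp_pos z).le h4
  exact Real.exp_le_exp.1 h5

theorem p2g_b_half {ρ y z : ℝ} (h : Real.exp (-y) ^ 2 ≤ (1 + z) ^ 2 + (1 / ρ) ^ 2)
    (hz : (1 + z) ^ 2 + (1 / ρ) ^ 2 ≤ 27 / 10) : -(1 / 2) ≤ y := by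
  have h1 : Real.exp (-y) ^ 2 = Real.exp (-(2 * y)) := by
    rw [← Real.exp_nat_mul]
    congr 1
    push_cast
    ring
  have h2 : Real.exp (-(2 * y)) ≤ Real.exp 1 := by
    rw [← h1]
    have := Real.exp_one_gt_d9
    linarith
  have := Real.exp_le_exp.1 h2
  linarith

/-! ### logarithms -/

theorem p2g_log1 {z : ℝ} (h0 : 0 ≤ z) : z - z ^ 2 / 2 + z ^ 3 / 3 - z ^ 4 / 4 ≤ Real.log (1 + z) := by
  have hd : ∀ t ∈ Ici (0 : ℝ), HasDerivAt
      (fun t : ℝ => Real.log (1 + t) - (t - t ^ 2 / 2 + t ^ 3 / 3 - t ^ 4 / 4)) (t ^ 4 / (1 + t)) t := by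
    intro t ht
    have ht0 : 0 ≤ t := ht
    have e1 : HasDerivAt (fun t : ℝ => 1 + t) 1 t := (hasDerivAt_id t).const_add 1
    have e2 := e1.log (by positivity)
    have e3 : HasDerivAt (fun t : ℝ => t - t ^ 2 / 2 + t ^ 3 / 3 - t ^ 4 / 4)
        (1 - t + t ^ 2 - t ^ 3) t := by
      have a1 := hasDerivAt_id t
      have a2 := (hasDerivAt_pow 2 t).div_const 2
      have a3 := (hasDerivAt_pow 3 t).div_const 3
      have a4 := (hasDerivAt_pow 4 t).div_const 4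
      refine (((a1.sub a2).add a3).sub a4).congr_deriv ?_
      norm_num
    refine (e2.sub e3).congr_deriv ?_
    field_simp
    ring
  have hm : MonotoneOn (fun t : ℝ => Real.log (1 + t) - (t - t ^ 2 / 2 + t ^ 3 / 3 - t ^ 4 / 4))
      (Ici 0) := by
    refine monotoneOn_of_deriv_nonneg (convex_Ici _)
      (fun t ht => (hd t ht).continuousAt.continuousWithinAt)
      (fun t ht => (hd t (interior_subset ht)).differentiableAt.differentiableWithinAt)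
      (fun t ht => ?_)
    rw [(hd t (interior_subset ht)).deriv]
    have : (0 : ℝ) ≤ t := interior_subset ht
    positivity
  have h1 := hm (mem_Ici.2 le_rfl) (mem_Ici.2 h0) h0
  simp only [add_zero, Real.log_one] at h1
  norm_num at h1
  linarith

/-- `(1+z)(1 - log(1+z)) ≤ 1 - z²/2 + z³/6 - z⁴/12 + z⁵/20` -/
theorem p2g_log2 {z : ℝ} (h0 : 0 ≤ z) :
    (1 + z) * (1 - Real.log (1 + z)) ≤ 1 - z ^ 2 / 2 + z ^ 3 / 6 - z ^ 4 / 12 + z ^ 5 / 20 := by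
  have hd : ∀ t ∈ Ici (0 : ℝ), HasDerivAt
      (fun t : ℝ => (1 + t) * Real.log (1 + t) - (t + t ^ 2 / 2 - t ^ 3 / 6 + t ^ 4 / 12 - t ^ 5 / 20))
      (Real.log (1 + t) - (t - t ^ 2 / 2 + t ^ 3 / 3 - t ^ 4 / 4)) t := by
    intro t ht
    have ht0 : 0 ≤ t := ht
    have e1 : HasDerivAt (fun t : ℝ => 1 + t) 1 t := (hasDerivAt_id t).const_add 1
    have e2 := e1.mul (e1.log (by positivity))
    have e3 : HasDerivAt (fun t : ℝ => t + t ^ 2 / 2 - t ^ 3 / 6 + t ^ 4 / 12 - t ^ 5 / 20)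
        (1 + t - t ^ 2 / 2 + t ^ 3 / 3 - t ^ 4 / 4) t := by
      have a1 := hasDerivAt_id t
      have a2 := (hasDerivAt_pow 2 t).div_const 2
      have a3 := (hasDerivAt_pow 3 t).div_const 6
      have a4 := (hasDerivAt_pow 4 t).div_const 12
      have a5 := (hasDerivAt_pow 5 t).div_const 20
      refine ((((a1.add a2).sub a3).add a4).sub a5).congr_deriv ?_
      norm_num
      ring
    refine (e2.sub e3).congr_deriv ?_
    field_simp
    ring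
  have hm : MonotoneOn (fun t : ℝ => (1 + t) * Real.log (1 + t) -
      (t + t ^ 2 / 2 - t ^ 3 / 6 + t ^ 4 / 12 - t ^ 5 / 20)) (Ici 0) := by
    refine monotoneOn_of_deriv_nonneg (convex_Ici _)
      (fun t ht => (hd t ht).continuousAt.continuousWithinAt)
      (fun t ht => (hd t (interior_subset ht)).differentiableAt.differentiableWithinAt)
      (fun t ht => ?_)
    rw [(hd t (interior_subset ht)).deriv]
    have h1 : (0 : ℝ) ≤ t := interior_subset ht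
    linarith [p2g_log1 h1]
  have h1 := hm (mem_Ici.2 le_rfl) (mem_Ici.2 h0) h0
  simp only [add_zero, Real.log_one] at h1
  norm_num at h1
  linarith

/-! ### bounds of `ph` -/

theorem p2g_ph_ge {ρ y w : ℝ} (hρ : 16 / 5 ≤ ρ) (h : Dom ρ y) (h1 : -1 < y) (h0 : 0 ≤ sE ρ y)
    (hw : sE ρ y / ρ ≤ w) (hw2 : w ≤ 1 / 2) :
    1 - w ^ 2 / 2 - w ^ 3 / 6 - w ^ 4 / 12 - w ^ 5 / 4 ≤ ph ρ y := by
  have hρ0 := h.1
  have hs0 : 0 ≤ sE ρ y / ρ := by positivity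
  have hy := p2g_y_nonneg h h1 h0
  have hc : |1 - (1 - sE ρ y / ρ)| ≤ w := by
    rw [sub_sub_cancel, abs_of_nonneg hs0]
    exact hw
  refine (tg9_clog hw2 hc).trans ?_
  have e0 : sE ρ y - ρ * (1 - (1 - sE ρ y / ρ)) = 0 := by
    field_simp
    ring
  have hexp := p2g_exp_a h hy
  have he0 := Real.exp_pos y
  have he2 : Real.exp y ≤ 2 := by nlinarith
  have hye : y + 1 ≤ Real.exp y := Real.add_one_le_exp y
  have hx : |y| * Real.exp y < ρ := by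
    rw [abs_of_nonneg hy]
    nlinarith
  have h2 := ph_trial (c := 1 - sE ρ y / ρ) h hx h1 (by linarith)
    (by rw [e0, abs_zero]; positivity)
  rw [e0, Real.cos_zero, Real.log_one, add_zero] at h2
  exact h2

theorem p2g_ph_le {ρ y z : ℝ} (hρ : 16 / 5 ≤ ρ) (h : Dom ρ y) (h1 : -1 < y)
    (hz : sE ρ y = -(ρ * z)) (hz0 : 0 ≤ z) (hz1 : z ≤ 1) :
    ph ρ y ≤ 1 - z ^ 2 / 2 + z ^ 3 / 6 - z ^ 4 / 12 + z ^ 5 / 20 + 23 / 40 * z ^ 2 * (1 / ρ) ^ 2 := by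
  have hρ0 := h.1
  have hL0 : 0 ≤ Real.log (1 + z) := Real.log_nonneg (by linarith)
  have hLz : Real.log (1 + z) ≤ z := by
    have := Real.log_le_sub_one_of_pos (by linarith : 0 < 1 + z)
    linarith
  have he1 : Real.exp (- -Real.log (1 + z)) = 1 + z := by
    rw [neg_neg, Real.exp_log (by linarith)]
  have he2 : Real.exp (-Real.log (1 + z)) ≤ 1 := Real.exp_le_one_iff.2 (by linarith)
  have he3 := Real.exp_pos (-Real.log (1 + z))
  have hv : |(-Real.log (1 + z))| * Real.exp (-Real.log (1 + z)) ≤ 9 / 20 * ρ := by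
    rw [abs_neg, abs_of_nonneg hL0]
    have : Real.log (1 + z) * Real.exp (-Real.log (1 + z)) ≤ 1 * 1 :=
      mul_le_mul (by linarith) he2 he3.le (by norm_num)
    linarith
  have h2 := tg9_ph_le h h1.le (v := -Real.log (1 + z)) (by linarith) hv
  rw [he1, hz] at h2
  have e1 : 1 - -(ρ * z) / ρ = 1 + z := by
    field_simp
    ring
  rw [e1] at h2
  have h3 := p2g_log2 hz0
  have h4 : (-Real.log (1 + z)) ^ 2 * Real.exp (-Real.log (1 + z)) ≤ z ^ 2 * 1 := by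
    rw [neg_sq]
    exact mul_le_mul (pow_le_pow_left₀ hL0 hLz 2) he2 he3.le (by positivity)
  have h5 : 23 / 40 * (-Real.log (1 + z)) ^ 2 * Real.exp (-Real.log (1 + z)) / ρ ^ 2 ≤
      23 / 40 * z ^ 2 * (1 / ρ) ^ 2 := by
    have e2 : 23 / 40 * (-Real.log (1 + z)) ^ 2 * Real.exp (-Real.log (1 + z)) / ρ ^ 2 =
        23 / 40 * ((-Real.log (1 + z)) ^ 2 * Real.exp (-Real.log (1 + z))) * (1 / ρ) ^ 2 := by
      field_simp
    rw [e2]
    have := mul_le_mul_of_nonneg_left h4 (by norm_num : (0 : ℝ) ≤ 23 / 40)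
    rw [mul_one] at this
    refine mul_le_mul_of_nonneg_right ?_ (sq_nonneg _)
    linarith
  linarith

/-! ### assembly -/

theorem p2g_asm {r δ ya yb η z w Y Pa Pb : ℝ} (hr : 499 / 10 ≤ r) (hδ : 0 < δ)
    (ha : At r δ ya η) (hb : At r δ yb (-(r * δ * z))) (h0 : 0 ≤ η)
    (hw : η / (r * δ) ≤ w) (hw2 : w ≤ 1 / 2) (hz0 : 1 / (r * δ) ≤ z)
    (hz2 : (1 + z) ^ 2 + (1 / (r * δ)) ^ 2 ≤ 27 / 10) (hY : 1 ≤ Y * (1 - w))
    (hPa : Pa ≤ ph (r * δ) ya) (hPb : ph (r * δ) yb ≤ Pb)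
    (hfin : 1 / 2 + (w * Y + z) / 2 + (2 * Y - 1) * Y ^ 2 * (1 / (r * δ)) ^ 2 / 4 + r * Pb ≤ r * Pa) :
    Gap r δ ya yb (1 / 2) := by
  have hr0 : 0 < r := by linarith
  have hρ0 : 0 < r * δ := ha.dom.1
  have hu : 0 < 1 / (r * δ) := by positivity
  have hya := p2g_y_nonneg ha.dom ha.y1 (by rw [ha.eta]; exact h0)
  have hyb := p2g_y_nonpos hb.dom (by
    rw [hb.eta]
    have : 0 ≤ r * δ * z := mul_nonneg hρ0.le (by linarith)
    linarith)
  have h1 := p2g_exp_b hb.dom hb.y1 hyb hb.eta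
  have h2 := p2g_b_le hz0 hρ0 h1
  have h3 := p2g_b_half h1 hz2
  have h4 := p2g_exp_a ha.dom hya
  rw [ha.eta] at h4
  have he := Real.exp_pos ya
  have h5 : Real.exp ya * (1 - w) ≤ 1 := by
    refine le_trans (mul_le_mul_of_nonneg_left (by linarith) he.le) h4
  have hw0 : 0 ≤ w := le_trans (by positivity) hw
  have h6 : Real.exp ya ≤ Y := by
    have hY0 : 0 < Y := by
      by_contra hn
      rw [not_lt] at hn
      have := mul_nonpos_of_nonpos_of_nonneg hn (by linarith : (0 : ℝ) ≤ 1 - w)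
      linarith
    have a1 : Real.exp ya * 1 ≤ Real.exp ya * (Y * (1 - w)) := mul_le_mul_of_nonneg_left hY he.le
    have a2 : Y * (Real.exp ya * (1 - w)) ≤ Y * 1 := mul_le_mul_of_nonneg_left h5 hY0.le
    linarith
  have h7 : ya + 1 ≤ Real.exp ya := Real.add_one_le_exp ya
  have h8 : ya ≤ w * Y := by
    have : w * Real.exp ya ≤ w * Y := mul_le_mul_of_nonneg_left h6 hw0
    linarith
  have h9 : (1 + 2 * ya) * Real.exp ya ^ 2 * (1 / (r * δ)) ^ 2 ≤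
      (2 * Y - 1) * Y ^ 2 * (1 / (r * δ)) ^ 2 := by
    refine mul_le_mul_of_nonneg_right ?_ (sq_nonneg _)
    exact mul_le_mul (by linarith) (pow_le_pow_left₀ he.le h6 2) (by positivity) (by linarith)
  have hra : r * Pa ≤ r * ph (r * δ) ya := mul_le_mul_of_nonneg_left hPa hr0.le
  have hrb : r * ph (r * δ) yb ≤ r * Pb := mul_le_mul_of_nonneg_left hPb hr0.le
  refine p2g_gap hr0 hδ ha.dom hb.dom ha.y1 hb.y1 (p2g_D ha.dom hb.dom h3) ?_ ?_
  · linarith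
  · linarith

theorem p2g_hst : hst 2 = Real.pi := by
  unfold hst
  push_cast
  ring

/-- the power bounds, regimes with `r ≥ K (1 + ρ²)` -/
theorem p2g_poly {r ρ u z K a1 a2 b : ℝ} (hρ : 0 < ρ) (hu : u = 1 / ρ) (hK : 0 ≤ K)
    (hr : K * (1 + ρ ^ 2) ≤ r) (ha1 : 0 ≤ a1) (hz1 : a1 * u ≤ z) (hz2 : z ≤ a2 * u)
    (hB : 0 ≤ (a1 ^ 2 - b ^ 2) / 2 - (a2 ^ 3 + b ^ 3) / 6 * u -
      (23 / 40 * a2 ^ 2 + b ^ 4 / 12 - a1 ^ 4 / 12) * u ^ 2 - (a2 ^ 5 / 20 + b ^ 5 / 4) * u ^ 3) :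
    K * ((a1 ^ 2 - b ^ 2) / 2 - (a2 ^ 3 + b ^ 3) / 6 * u -
      (23 / 40 * a2 ^ 2 + b ^ 4 / 12 - a1 ^ 4 / 12) * u ^ 2 - (a2 ^ 5 / 20 + b ^ 5 / 4) * u ^ 3) +
      r * (1 - z ^ 2 / 2 + z ^ 3 / 6 - z ^ 4 / 12 + z ^ 5 / 20 + 23 / 40 * z ^ 2 * u ^ 2) ≤
    r * (1 - (b * u) ^ 2 / 2 - (b * u) ^ 3 / 6 - (b * u) ^ 4 / 12 - (b * u) ^ 5 / 4) := by
  set B := (a1 ^ 2 - b ^ 2) / 2 - (a2 ^ 3 + b ^ 3) / 6 * u -
      (23 / 40 * a2 ^ 2 + b ^ 4 / 12 - a1 ^ 4 / 12) * u ^ 2 - (a2 ^ 5 / 20 + b ^ 5 / 4) * u ^ 3 with hBdef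
  have hu0 : 0 < u := by rw [hu]; positivity
  have hz0 : 0 ≤ z := le_trans (by positivity) hz1
  have p2 : (a1 * u) ^ 2 ≤ z ^ 2 := pow_le_pow_left₀ (by positivity) hz1 2
  have p4 : (a1 * u) ^ 4 ≤ z ^ 4 := pow_le_pow_left₀ (by positivity) hz1 4
  have p3 : z ^ 3 ≤ (a2 * u) ^ 3 := pow_le_pow_left₀ hz0 hz2 3
  have p5 : z ^ 5 ≤ (a2 * u) ^ 5 := pow_le_pow_left₀ hz0 hz2 5
  have p22 : z ^ 2 * u ^ 2 ≤ (a2 * u) ^ 2 * u ^ 2 :=
    mul_le_mul_of_nonneg_right (pow_le_pow_left₀ hz0 hz2 2) (sq_nonneg _)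
  have hX : B * u ^ 2 ≤ (1 - (b * u) ^ 2 / 2 - (b * u) ^ 3 / 6 - (b * u) ^ 4 / 12 - (b * u) ^ 5 / 4) -
      (1 - z ^ 2 / 2 + z ^ 3 / 6 - z ^ 4 / 12 + z ^ 5 / 20 + 23 / 40 * z ^ 2 * u ^ 2) := by
    have e : B * u ^ 2 = (a1 * u) ^ 2 / 2 - (b * u) ^ 2 / 2 - ((a2 * u) ^ 3 + (b * u) ^ 3) / 6 -
        (23 / 40 * ((a2 * u) ^ 2 * u ^ 2) + (b * u) ^ 4 / 12 - (a1 * u) ^ 4 / 12) -
        ((a2 * u) ^ 5 / 20 + (b * u) ^ 5 / 4) := by
      rw [hBdef]
      ring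
    rw [e]
    linarith
  have hBu : 0 ≤ B * u ^ 2 := by positivity
  have hρu : ρ ^ 2 * u ^ 2 = 1 := by
    rw [hu]
    field_simp
  have h1 : K * B ≤ r * (B * u ^ 2) := by
    calc K * B ≤ K * (1 + ρ ^ 2) * (B * u ^ 2) := by
          have : K * (1 + ρ ^ 2) * (B * u ^ 2) = K * B * u ^ 2 + K * B * (ρ ^ 2 * u ^ 2) := by ring
          rw [this, hρu]
          have : 0 ≤ K * B * u ^ 2 := by positivity
          linarith
      _ ≤ r * (B * u ^ 2) := mul_le_mul_of_nonneg_right hr hBu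
  have hr0 : 0 ≤ r := le_trans (by positivity) hr
  have h2 := mul_le_mul_of_nonneg_left hX hr0
  linarith

theorem p2_gapL (r δ ya yb η : ℝ) (hR : Reg2 r δ) (ha : At r δ ya η) (hb : At r δ yb (-eo2 r δ))
    (h0 : 0 ≤ η) (h1 : η ≤ ei2 r δ) : Gap r δ ya yb (1 / 2) := by
  have hr := hR.r0
  have hδ := hR.d0
  have hρ := hR.rho
  have hG := hR.G
  have hpi1 := Real.pi_gt_d4
  have hpi2 := Real.pi_lt_d4
  have hr0 : 0 < r := by linarith
  have hρ0 : 0 < r * δ := by linarith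
  have hpisq1 : (98690 / 10000 : ℝ) ≤ Real.pi ^ 2 := by nlinarith
  have hpisq2 : Real.pi ^ 2 ≤ 98697 / 10000 := by nlinarith
  have hGm : Gm 2 r δ * (1 + (r * δ) ^ 2) = r * Real.pi ^ 2 := by
    unfold Gm RR
    rw [p2g_hst]
    field_simp
  have hRR : 0 < 1 + (r * δ) ^ 2 := by positivity
  -- `z`
  obtain ⟨z, hz⟩ : ∃ z, z = eo2 r δ / (r * δ) := ⟨_, rfl⟩
  have hzρ : r * δ * z = eo2 r δ := by
    rw [hz]
    field_simp
  rw [← hzρ] at hb
  set u := 1 / (r * δ) with hu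
  have hu0 : 0 < u := by rw [hu]; positivity
  have hρu : r * δ * u = 1 := by
    rw [hu]
    field_simp
  have hzu : z = eo2 r δ * u := by
    rw [hz, hu]
    ring
  have hηu : η / (r * δ) = η * u := by
    rw [hu]
    ring
  have hu3 : u ≤ 3125 / 10000 := by
    rw [hu, div_le_iff₀ hρ0]
    linarith
  by_cases hG1 : Gm 2 r δ < 10
  · -- `Γ < 10`
    have hom : om2 r δ = 17 / 100 := by
      unfold om2
      rw [if_pos hG1]
    have heo : eo2 r δ = 67 / 100 * Real.pi := by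
      unfold eo2
      rw [hom, p2g_hst]
      ring
    have hei : ei2 r δ = 33 / 100 * Real.pi := by
      unfold ei2
      rw [hom, p2g_hst]
      ring
    rw [hei] at h1
    rw [heo] at hzu
    have hU : u ≤ 144 / 1000 := by
      have hlt : r * Real.pi ^ 2 < 10 * (1 + (r * δ) ^ 2) := by
        rw [← hGm]
        exact mul_lt_mul_of_pos_right hG1 hRR
      have h2 : 48246 / 1000 ≤ (r * δ) ^ 2 := by nlinarith
      rw [hu, div_le_iff₀ hρ0]
      nlinarith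
    have hK : 5471 / 10000 * (1 + (r * δ) ^ 2) ≤ r := by
      have h2 : 27 / 5 * (1 + (r * δ) ^ 2) ≤ r * Real.pi ^ 2 := by
        rw [← hGm]
        exact mul_le_mul_of_nonneg_right hG hRR.le
      nlinarith
    have hza : 21048 / 10000 * u ≤ z := by
      rw [hzu]
      exact mul_le_mul_of_nonneg_right (by linarith) hu0.le
    have hzb : z ≤ 2105 / 1000 * u := by
      rw [hzu]
      exact mul_le_mul_of_nonneg_right (by linarith) hu0.le
    have hwa : η / (r * δ) ≤ 10368 / 10000 * u := by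
      rw [hηu]
      exact mul_le_mul_of_nonneg_right (by linarith) hu0.le
    have hw2 : 10368 / 10000 * u ≤ 1 / 2 := by linarith
    have hu2 : u ^ 2 ≤ (144 / 1000) ^ 2 := pow_le_pow_left₀ hu0.le hU 2
    have hu3' : u ^ 3 ≤ (144 / 1000) ^ 3 := pow_le_pow_left₀ hu0.le hU 3
    have hpoly := p2g_poly (r := r) (z := z) (K := 5471 / 10000) (a1 := 21048 / 10000)
      (a2 := 2105 / 1000) (b := 10368 / 10000) hρ0 hu (by norm_num) hK (by norm_num) hza hzb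
      (by norm_num; norm_num at hu2 hu3'; linarith)
    have hPa := p2g_ph_ge hρ ha.dom ha.y1 (by rw [ha.eta]; exact h0) (by rw [ha.eta]; exact hwa) hw2
    have hPb := p2g_ph_le hρ hb.dom hb.y1 hb.eta (by linarith) (by linarith)
    refine p2g_asm (Y := 11756 / 10000) hr hδ ha hb h0 hwa hw2 (by rw [← hu]; linarith)
      ?_ (by linarith) hPa hPb ?_
    · rw [← hu]
      nlinarith
    · rw [← hu]
      norm_num at hu2 hu3' hpoly ⊢
      linarith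
  rw [not_lt] at hG1
  by_cases hG2 : Gm 2 r δ < 20
  · -- `10 ≤ Γ < 20`
    have hom : om2 r δ = 3 / 20 := by
      unfold om2
      rw [if_neg (not_lt.2 hG1), if_pos hG2]
    have heo : eo2 r δ = 65 / 100 * Real.pi := by
      unfold eo2
      rw [hom, p2g_hst]
      ring
    have hei : ei2 r δ = 35 / 100 * Real.pi := by
      unfold ei2
      rw [hom, p2g_hst]
      ring
    rw [hei] at h1
    rw [heo] at hzu
    have hU : u ≤ 2058 / 10000 := by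
      have hlt : r * Real.pi ^ 2 < 20 * (1 + (r * δ) ^ 2) := by
        rw [← hGm]
        exact mul_lt_mul_of_pos_right hG2 hRR
      have h2 : 23623 / 1000 ≤ (r * δ) ^ 2 := by nlinarith
      rw [hu, div_le_iff₀ hρ0]
      nlinarith
    have hK : 10132 / 10000 * (1 + (r * δ) ^ 2) ≤ r := by
      have h2 : 10 * (1 + (r * δ) ^ 2) ≤ r * Real.pi ^ 2 := by
        rw [← hGm]
        exact mul_le_mul_of_nonneg_right hG1 hRR.le
      nlinarith
    have hza : 20419 / 10000 * u ≤ z := by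
      rw [hzu]
      exact mul_le_mul_of_nonneg_right (by linarith) hu0.le
    have hzb : z ≤ 20421 / 10000 * u := by
      rw [hzu]
      exact mul_le_mul_of_nonneg_right (by linarith) hu0.le
    have hwa : η / (r * δ) ≤ 10996 / 10000 * u := by
      rw [hηu]
      exact mul_le_mul_of_nonneg_right (by linarith) hu0.le
    have hw2 : 10996 / 10000 * u ≤ 1 / 2 := by linarith
    have hu2 : u ^ 2 ≤ (2058 / 10000) ^ 2 := pow_le_pow_left₀ hu0.le hU 2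
    have hu3' : u ^ 3 ≤ (2058 / 10000) ^ 3 := pow_le_pow_left₀ hu0.le hU 3
    have hpoly := p2g_poly (r := r) (z := z) (K := 10132 / 10000) (a1 := 20419 / 10000)
      (a2 := 20421 / 10000) (b := 10996 / 10000) hρ0 hu (by norm_num) hK (by norm_num) hza hzb
      (by norm_num; norm_num at hu2 hu3'; linarith)
    have hPa := p2g_ph_ge hρ ha.dom ha.y1 (by rw [ha.eta]; exact h0) (by rw [ha.eta]; exact hwa) hw2
    have hPb := p2g_ph_le hρ hb.dom hb.y1 hb.eta (by linarith) (by linarith)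
    refine p2g_asm (Y := 1293 / 1000) hr hδ ha hb h0 hwa hw2 (by rw [← hu]; linarith)
      ?_ (by linarith) hPa hPb ?_
    · rw [← hu]
      nlinarith
    · rw [← hu]
      norm_num at hu2 hu3' hpoly ⊢
      linarith
  rw [not_lt] at hG2
  have hom : om2 r δ = 1 / 10 := by
    unfold om2
    rw [if_neg (not_lt.2 hG1), if_neg (not_lt.2 hG2)]
  have heo : eo2 r δ = 6 / 10 * Real.pi := by
    unfold eo2
    rw [hom, p2g_hst]
    ring
  have hei : ei2 r δ = 4 / 10 * Real.pi := by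
    unfold ei2
    rw [hom, p2g_hst]
    ring
  rw [hei] at h1
  rw [heo] at hzu
  have hza : 18849 / 10000 * u ≤ z := by
    rw [hzu]
    exact mul_le_mul_of_nonneg_right (by linarith) hu0.le
  have hzb : z ≤ 1885 / 1000 * u := by
    rw [hzu]
    exact mul_le_mul_of_nonneg_right (by linarith) hu0.le
  have hwa : η / (r * δ) ≤ 12567 / 10000 * u := by
    rw [hηu]
    exact mul_le_mul_of_nonneg_right (by linarith) hu0.le
  have hw2 : 12567 / 10000 * u ≤ 1 / 2 := by linarith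
  have hPa := p2g_ph_ge hρ ha.dom ha.y1 (by rw [ha.eta]; exact h0) (by rw [ha.eta]; exact hwa) hw2
  by_cases hU : u ≤ 2058 / 10000
  · -- `Γ ≥ 20`, `ρ ≥ 4.86`
    have hK : 20264 / 10000 * (1 + (r * δ) ^ 2) ≤ r := by
      have h2 : 20 * (1 + (r * δ) ^ 2) ≤ r * Real.pi ^ 2 := by
        rw [← hGm]
        exact mul_le_mul_of_nonneg_right hG2 hRR.le
      nlinarith
    have hu2 : u ^ 2 ≤ (2058 / 10000) ^ 2 := pow_le_pow_left₀ hu0.le hU 2
    have hu3' : u ^ 3 ≤ (2058 / 10000) ^ 3 := pow_le_pow_left₀ hu0.le hU 3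
    have hpoly := p2g_poly (r := r) (z := z) (K := 20264 / 10000) (a1 := 18849 / 10000)
      (a2 := 1885 / 1000) (b := 12567 / 10000) hρ0 hu (by norm_num) hK (by norm_num) hza hzb
      (by norm_num; norm_num at hu2 hu3'; linarith)
    have hPb := p2g_ph_le hρ hb.dom hb.y1 hb.eta (by linarith) (by linarith)
    refine p2g_asm (Y := 135 / 100) hr hδ ha hb h0 hwa hw2 (by rw [← hu]; linarith)
      ?_ (by linarith) hPa hPb ?_
    · rw [← hu]
      nlinarith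
    · rw [← hu]
      norm_num at hu2 hu3' hpoly ⊢
      linarith
  · -- `Γ ≥ 20`, `3.2 ≤ ρ ≤ 4.86`
    rw [not_le] at hU
    have he1 : Real.exp (2 / 5 : ℝ) ≤ 14919 / 10000 := by
      refine (Real.exp_bound' (x := 2 / 5) (by norm_num) (by norm_num) (n := 6) (by norm_num)).trans ?_
      norm_num [Finset.sum_range_succ, Nat.factorial]
    have he2 : Real.exp (-(2 / 5) : ℝ) ≤ 68 / 100 := by
      have a1 := Real.quadratic_le_exp_of_nonneg (x := 2 / 5) (by norm_num)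
      have a2 := tg9_e (2 / 5)
      have a3 := Real.exp_pos (-(2 / 5) : ℝ)
      nlinarith
    have he3 := Real.exp_pos (-(2 / 5) : ℝ)
    have hv : |(-(2 / 5) : ℝ)| * Real.exp (-(2 / 5)) ≤ 9 / 20 * (r * δ) := by
      rw [abs_neg, abs_of_nonneg (by norm_num)]
      linarith
    have hPb0 := tg9_ph_le hb.dom hb.y1.le (v := -(2 / 5)) (by norm_num) hv
    have hPb : ph (r * δ) yb ≤ 14919 / 10000 + 23 / 40 * (2 / 5) ^ 2 * (68 / 100) * u ^ 2 -
        2 / 5 * (1 + 18849 / 10000 * u) := by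
      refine hPb0.trans ?_
      rw [hb.eta, neg_neg]
      have e1 : 1 - -(r * δ * z) / (r * δ) = 1 + z := by
        field_simp
        ring
      have e2 : 23 / 40 * (-(2 / 5)) ^ 2 * Real.exp (-(2 / 5)) / (r * δ) ^ 2 =
          23 / 40 * (2 / 5) ^ 2 * Real.exp (-(2 / 5)) * u ^ 2 := by
        rw [hu]
        field_simp
      rw [e1, e2]
      have e3 : Real.exp (-(2 / 5)) * u ^ 2 ≤ 68 / 100 * u ^ 2 :=
        mul_le_mul_of_nonneg_right he2 (sq_nonneg _)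
      linarith
    refine p2g_asm (Y := 165 / 100) hr hδ ha hb h0 hwa hw2 (by rw [← hu]; linarith)
      ?_ (by linarith) hPa hPb ?_
    · rw [← hu]
      nlinarith
    · rw [← hu]
      have c2 : u ^ 2 ≤ (2058 / 10000 + 3125 / 10000) * u - 2058 / 10000 * (3125 / 10000) := by
        nlinarith [mul_nonneg (sub_nonneg.2 hU.le) (sub_nonneg.2 hu3)]
      obtain ⟨c3, c4, c5⟩ := tg9_chord hu0.le c2 (by norm_num) (by norm_num) (by norm_num)
        (by norm_num)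
      norm_num at c2 c3 c4 c5
      have hX : (1 / 2 + (12567 / 10000 * u * (165 / 100) + 1885 / 1000 * u) / 2 +
          (2 * (165 / 100) - 1) * (165 / 100) ^ 2 * u ^ 2 / 4) ≤ 499 / 10 *
          ((1 - (12567 / 10000 * u) ^ 2 / 2 - (12567 / 10000 * u) ^ 3 / 6 -
            (12567 / 10000 * u) ^ 4 / 12 - (12567 / 10000 * u) ^ 5 / 4) -
          (14919 / 10000 + 23 / 40 * (2 / 5) ^ 2 * (68 / 100) * u ^ 2 -
            2 / 5 * (1 + 18849 / 10000 * u))) := by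
        norm_num [mul_pow]
        linarith
      have hX0 : 0 ≤ ((1 - (12567 / 10000 * u) ^ 2 / 2 - (12567 / 10000 * u) ^ 3 / 6 -
            (12567 / 10000 * u) ^ 4 / 12 - (12567 / 10000 * u) ^ 5 / 4) -
          (14919 / 10000 + 23 / 40 * (2 / 5) ^ 2 * (68 / 100) * u ^ 2 -
            2 / 5 * (1 + 18849 / 10000 * u))) := by
        have : 0 ≤ (2 * (165 / 100) - 1 : ℝ) * (165 / 100) ^ 2 * u ^ 2 / 4 := by
          norm_num
          positivity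
        linarith
      have hX2 := mul_le_mul_of_nonneg_right hr hX0
      linarith

end SokalV3
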