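import Pool.Agent.Lib_MP_af4de1_v3.V3

/-!
# F1, plan v3, piece `P2.gapR`
-/

set_option autoImplicit false

namespace SokalV3

open Complex SokalU SokalF1 SokalF1S SokalF1M Set

namespace G2R

/-! ### numerical facts -/

theorem exp_155 : Real.exp (31 / 20) ≤ 100 / 21 := by
  have h1 : Real.exp (31 / 20) = Real.exp 1 * Real.exp (11 / 20) := by
    rw [← Real.exp_add]
    norm_num
  have h2 : Real.exp (11 / 20) ≤ 1734 / 1000 := by
    have := Real.exp_bound' (x := 11 / 20) (by norm_num) (by norm_num) (n := 5) (by norm_num)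
    refine this.trans ?_
    norm_num [Finset.sum_range_succ, Nat.factorial]
  have h3 := Real.exp_one_lt_d9
  rw [h1]
  have h4 := Real.exp_pos (1 : ℝ)
  have h5 := Real.exp_pos (11 / 20 : ℝ)
  nlinarith

theorem le_exp_sum (x : ℝ) (hx : 0 ≤ x) :
    1 + x + x ^ 2 / 2 + x ^ 3 / 6 + x ^ 4 / 24 ≤ Real.exp x := by
  have := Real.sum_le_exp_of_nonneg hx 5
  refine le_trans (le_of_eq ?_) this
  norm_num [Finset.sum_range_succ, Nat.factorial]

theorem exp_neg_le {x c : ℝ} (hx : 0 ≤ x) (hc : 0 < c)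
    (h : 1 ≤ c * (1 + x + x ^ 2 / 2 + x ^ 3 / 6 + x ^ 4 / 24)) : Real.exp (-x) ≤ c := by
  rw [Real.exp_neg, inv_le_comm₀ (Real.exp_pos x) hc]
  refine le_trans ?_ (le_exp_sum x hx)
  rw [inv_le_iff_one_le_mul₀ hc, mul_comm]
  exact h

/-- the polynomial inequality behind `x/D² ≥ .9 ρ/R` -/
theorem k1_poly {Q s y : ℝ} (hQ : 10 ≤ Q) (hs1 : 21 / 100 ≤ s) (hs2 : s ≤ 1) (hy0 : 0 ≤ y)
    (hy : y ≤ 31 / 40) (hp : y ≤ 2 / 5 ∨ (s ≤ 1 / 2 ∧ y ≤ 3 / 5) ∨ (s ≤ 8 / 25 ∧ 3 / 5 ≤ y)) :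
    81 / 100 * Q * (1 + 2 * y + Q * s) ^ 2 ≤ (1 + Q) ^ 2 * (Q * s - y ^ 2) := by
  obtain ⟨z, hz, rfl⟩ : ∃ z : ℝ, 0 ≤ z ∧ Q = 10 + z := ⟨Q - 10, by linarith, by ring⟩
  have hyy : y ^ 2 ≤ (31 / 40) ^ 2 := by gcongr
  -- coefficients
  have c0 : 0 ≤ 121 * (10 * s - y ^ 2) - 81 / 10 * (1 + 2 * y + 10 * s) ^ 2 := by
    rcases hp with h | ⟨h1, h2⟩ | ⟨h1, h2⟩
    · nlinarith [mul_nonneg (sub_nonneg.2 hs1) (sub_nonneg.2 hs2), mul_nonneg hy0 (sub_nonneg.2 h),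
        mul_nonneg (sub_nonneg.2 h) (sub_nonneg.2 hs2), mul_nonneg (sub_nonneg.2 h) (sub_nonneg.2 hs1),
        mul_nonneg hy0 (sub_nonneg.2 hs2), mul_nonneg hy0 (sub_nonneg.2 hs1)]
    · nlinarith [mul_nonneg (sub_nonneg.2 hs1) (sub_nonneg.2 h1), mul_nonneg hy0 (sub_nonneg.2 h2),
        mul_nonneg (sub_nonneg.2 h2) (sub_nonneg.2 h1), mul_nonneg (sub_nonneg.2 h2) (sub_nonneg.2 hs1),
        mul_nonneg hy0 (sub_nonneg.2 h1), mul_nonneg hy0 (sub_nonneg.2 hs1)]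
    · nlinarith [mul_nonneg (sub_nonneg.2 hs1) (sub_nonneg.2 h1), mul_nonneg hy0 (sub_nonneg.2 hy),
        mul_nonneg (sub_nonneg.2 hy) (sub_nonneg.2 h1), mul_nonneg (sub_nonneg.2 hy) (sub_nonneg.2 hs1),
        mul_nonneg hy0 (sub_nonneg.2 h1), mul_nonneg hy0 (sub_nonneg.2 hs1)]
  have c1 : 0 ≤ 341 * s - 22 * y ^ 2 - 81 / 100 * (1 + 2 * y) ^ 2
      - 324 / 10 * (1 + 2 * y) * s - 243 * s ^ 2 := by
    rcases hp with h | ⟨h1, h2⟩ | ⟨h1, h2⟩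
    · nlinarith [mul_nonneg (sub_nonneg.2 hs1) (sub_nonneg.2 hs2), mul_nonneg hy0 (sub_nonneg.2 h),
        mul_nonneg (sub_nonneg.2 h) (sub_nonneg.2 hs2), mul_nonneg (sub_nonneg.2 h) (sub_nonneg.2 hs1),
        mul_nonneg hy0 (sub_nonneg.2 hs2), mul_nonneg hy0 (sub_nonneg.2 hs1)]
    · nlinarith [mul_nonneg (sub_nonneg.2 hs1) (sub_nonneg.2 h1), mul_nonneg hy0 (sub_nonneg.2 h2),
        mul_nonneg (sub_nonneg.2 h2) (sub_nonneg.2 h1), mul_nonneg (sub_nonneg.2 h2) (sub_nonneg.2 hs1),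
        mul_nonneg hy0 (sub_nonneg.2 h1), mul_nonneg hy0 (sub_nonneg.2 hs1)]
    · nlinarith [mul_nonneg (sub_nonneg.2 hs1) (sub_nonneg.2 h1), mul_nonneg hy0 (sub_nonneg.2 hy),
        mul_nonneg (sub_nonneg.2 hy) (sub_nonneg.2 h1), mul_nonneg (sub_nonneg.2 hy) (sub_nonneg.2 hs1),
        mul_nonneg hy0 (sub_nonneg.2 h1), mul_nonneg hy0 (sub_nonneg.2 hs1)]
  have c2 : 0 ≤ 32 * s - y ^ 2 - 162 / 100 * (1 + 2 * y) * s - 243 / 10 * s ^ 2 := by
    nlinarith [mul_nonneg (sub_nonneg.2 hs1) (sub_nonneg.2 hs2),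
      mul_nonneg (sub_nonneg.2 hy) (sub_nonneg.2 hs1), mul_nonneg (sub_nonneg.2 hy) (sub_nonneg.2 hs2)]
  have c3 : 0 ≤ s - 81 / 100 * s ^ 2 := by nlinarith
  have e : (1 + (10 + z)) ^ 2 * ((10 + z) * s - y ^ 2)
      - 81 / 100 * (10 + z) * (1 + 2 * y + (10 + z) * s) ^ 2
      = (121 * (10 * s - y ^ 2) - 81 / 10 * (1 + 2 * y + 10 * s) ^ 2)
        + (341 * s - 22 * y ^ 2 - 81 / 100 * (1 + 2 * y) ^ 2
          - 324 / 10 * (1 + 2 * y) * s - 243 * s ^ 2) * z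
        + (32 * s - y ^ 2 - 162 / 100 * (1 + 2 * y) * s - 243 / 10 * s ^ 2) * z ^ 2
        + (s - 81 / 100 * s ^ 2) * z ^ 3 := by ring
  have : 0 ≤ (1 + (10 + z)) ^ 2 * ((10 + z) * s - y ^ 2)
      - 81 / 100 * (10 + z) * (1 + 2 * y + (10 + z) * s) ^ 2 := by
    rw [e]
    positivity
  linarith


/-! ### the functions along the path -/

theorem D2_eq {ρ y : ℝ} (h : Dom ρ y) : sD2 ρ y = 1 + 2 * y + (ρ * Real.exp (-y)) ^ 2 := by
  unfold sD2
  rw [← sx_sq_add h]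
  ring

theorem exp_sq (y : ℝ) : Real.exp (-y) ^ 2 = Real.exp (-2 * y) := by
  rw [← Real.exp_nat_mul]
  congr 1
  push_cast
  ring

theorem D2_ge {ρ y : ℝ} (h : Dom ρ y) : (1 + ρ ^ 2) * Real.exp (-y) ^ 2 ≤ sD2 ρ y
    ∨ y < 0 := by
  by_cases hy : y < 0
  · exact Or.inr hy
  left
  push Not at hy
  rw [D2_eq h, mul_pow]
  have h1 : Real.exp (-y) ^ 2 ≤ 1 + 2 * y := by
    have h2 : Real.exp (-y) ≤ 1 := Real.exp_le_one_iff.2 (by linarith)
    have h3 := Real.exp_pos (-y)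
    nlinarith
  nlinarith

theorem D2_le {ρ y : ℝ} (h : Dom ρ y) (hy : y ≤ 0) :
    sD2 ρ y ≤ (1 + ρ ^ 2) * Real.exp (-y) ^ 2 := by
  rw [D2_eq h, mul_pow]
  have h1 : 1 + 2 * y ≤ Real.exp (-y) ^ 2 := by
    have h2 : 1 ≤ Real.exp (-y) := Real.one_le_exp (by linarith)
    nlinarith
  nlinarith

/-- `x/D² ≥ .9 ρ/R` -/
theorem k1 {ρ y : ℝ} (hρ : 10 ≤ ρ ^ 2) (h : Dom ρ y) (hy0 : 0 ≤ y) (hy : y ≤ 31 / 40) :
    9 / 10 * ρ * sD2 ρ y ≤ (1 + ρ ^ 2) * sx ρ y := by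
  have hs := sx_sq h
  rw [mul_pow, exp_sq] at hs
  have hD := D2_eq h
  rw [mul_pow, exp_sq] at hD
  obtain ⟨s, hsd⟩ : ∃ s, s = Real.exp (-2 * y) := ⟨_, rfl⟩
  rw [← hsd] at hs hD
  have hs1 : 21 / 100 ≤ s := by
    have h1 : Real.exp (-(31 / 20)) ≤ s := by
      rw [hsd]
      exact Real.exp_le_exp.2 (by linarith)
    refine le_trans ?_ h1
    rw [Real.exp_neg, le_inv_comm₀ (by norm_num) (Real.exp_pos _)]
    refine exp_155.trans (by norm_num)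
  have hs2 : s ≤ 1 := by
    rw [hsd]
    exact Real.exp_le_one_iff.2 (by linarith)
  have hp : y ≤ 2 / 5 ∨ (s ≤ 1 / 2 ∧ y ≤ 3 / 5) ∨ (s ≤ 8 / 25 ∧ 3 / 5 ≤ y) := by
    rcases le_or_gt y (2 / 5) with h1 | h1
    · exact Or.inl h1
    right
    rcases le_or_gt y (3 / 5) with h2 | h2
    · left
      refine ⟨?_, h2⟩
      have h3 : s ≤ Real.exp (-(4 / 5)) := by
        rw [hsd]
        exact Real.exp_le_exp.2 (by linarith)
      exact h3.trans (exp_neg_le (by norm_num) (by norm_num) (by norm_num))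
    · right
      refine ⟨?_, h2.le⟩
      have h3 : s ≤ Real.exp (-(6 / 5)) := by
        rw [hsd]
        exact Real.exp_le_exp.2 (by linarith)
      exact h3.trans (exp_neg_le (by norm_num) (by norm_num) (by norm_num))
  have hk := k1_poly hρ hs1 hs2 hy0 hy hp
  have hρ0 := h.1
  have hx0 := sx_nonneg ρ y
  have h5 : (9 / 10 * ρ * sD2 ρ y) ^ 2 ≤ ((1 + ρ ^ 2) * sx ρ y) ^ 2 := by
    calc (9 / 10 * ρ * sD2 ρ y) ^ 2 = 81 / 100 * ρ ^ 2 * (1 + 2 * y + ρ ^ 2 * s) ^ 2 := by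
          rw [hD]; ring
      _ ≤ (1 + ρ ^ 2) ^ 2 * (ρ ^ 2 * s - y ^ 2) := hk
      _ = ((1 + ρ ^ 2) * sx ρ y) ^ 2 := by rw [← hs]; ring
  exact abs_le_of_sq_le_sq' h5 (by positivity) |>.2

/-- left side, upper bound of `y` -/
theorem left_up {ρ y : ℝ} (h : Dom ρ y) (hy : 0 ≤ y) :
    (1 + ρ ^ 2) * (1 - Real.exp (-y)) ≤ ρ * sE ρ y := by
  have hρ := h.1
  have hm : MonotoneOn (fun t => ρ * sE ρ t - (1 + ρ ^ 2) * (1 - Real.exp (-t))) (Icc 0 y) := by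
    refine monotoneOn_of_deriv_nonneg (convex_Icc _ _) ?_ ?_ ?_
    · have := continuous_sE ρ
      exact (by fun_prop : Continuous
        (fun t => ρ * sE ρ t - (1 + ρ ^ 2) * (1 - Real.exp (-t)))).continuousOn
    · intro t ht
      rw [interior_Icc] at ht
      have h3 := dom_between (dom_zero hρ) h (by norm_num) ht
      have e := (hasDerivAt_sE hρ h3).const_mul ρ
      have e2 : HasDerivAt (fun t => (1 + ρ ^ 2) * (1 - Real.exp (-t)))
          ((1 + ρ ^ 2) * Real.exp (-t)) t := by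
        have e3 := ((hasDerivAt_neg t).exp.const_sub 1).const_mul (1 + ρ ^ 2)
        refine e3.congr_deriv ?_
        ring
      exact (e.sub e2).differentiableAt.differentiableWithinAt
    · intro t ht
      rw [interior_Icc] at ht
      have h3 := dom_between (dom_zero hρ) h (by norm_num) ht
      have hD : Dom ρ t := ⟨hρ, h3.le⟩
      have hx := sx_pos hρ h3
      have e := (hasDerivAt_sE hρ h3).const_mul ρ
      have e2 : HasDerivAt (fun t => (1 + ρ ^ 2) * (1 - Real.exp (-t)))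
          ((1 + ρ ^ 2) * Real.exp (-t)) t := by
        have e3 := ((hasDerivAt_neg t).exp.const_sub 1).const_mul (1 + ρ ^ 2)
        refine e3.congr_deriv ?_
        ring
      have e4 : deriv (fun t => ρ * sE ρ t - (1 + ρ ^ 2) * (1 - Real.exp (-t))) t
          = ρ * (sD2 ρ t / sx ρ t) - (1 + ρ ^ 2) * Real.exp (-t) := (e.sub e2).deriv
      rw [e4, sub_nonneg, mul_div_assoc', le_div_iff₀ hx]
      have h4 : (1 + ρ ^ 2) * Real.exp (-t) ^ 2 ≤ sD2 ρ t :=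
        (D2_ge hD).resolve_right (not_lt.2 ht.1.le)
      have h5 := sx_le hD
      have h6 := Real.exp_pos (-t)
      calc (1 + ρ ^ 2) * Real.exp (-t) * sx ρ t
          ≤ (1 + ρ ^ 2) * Real.exp (-t) * (ρ * Real.exp (-t)) := by gcongr
        _ = ρ * ((1 + ρ ^ 2) * Real.exp (-t) ^ 2) := by ring
        _ ≤ ρ * sD2 ρ t := by gcongr
  have h1 := hm (left_mem_Icc.2 hy) (right_mem_Icc.2 hy) hy
  simp only [sE_zero hρ, neg_zero, Real.exp_zero, sub_self, mul_zero] at h1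
  linarith

/-- left side, lower bound of `y` -/
theorem left_lo {ρ y : ℝ} (hρ2 : 10 ≤ ρ ^ 2) (h : Dom ρ y) (hy : 0 ≤ y) (hy1 : y ≤ 31 / 40) :
    9 / 10 * ρ * sE ρ y ≤ (1 + ρ ^ 2) * y := by
  have hρ := h.1
  have hm : MonotoneOn (fun t => (1 + ρ ^ 2) * t - 9 / 10 * ρ * sE ρ t) (Icc 0 y) := by
    refine monotoneOn_of_deriv_nonneg (convex_Icc _ _) ?_ ?_ ?_
    · have := continuous_sE ρ
      exact (by fun_prop : Continuous
        (fun t => (1 + ρ ^ 2) * t - 9 / 10 * ρ * sE ρ t)).continuousOn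
    · intro t ht
      rw [interior_Icc] at ht
      have h3 := dom_between (dom_zero hρ) h (by norm_num) ht
      have e := (hasDerivAt_sE hρ h3).const_mul (9 / 10 * ρ)
      have e2 := (hasDerivAt_id t).const_mul (1 + ρ ^ 2)
      exact (e2.sub e).differentiableAt.differentiableWithinAt
    · intro t ht
      rw [interior_Icc] at ht
      have h3 := dom_between (dom_zero hρ) h (by norm_num) ht
      have hD : Dom ρ t := ⟨hρ, h3.le⟩
      have hx := sx_pos hρ h3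
      have e := (hasDerivAt_sE hρ h3).const_mul (9 / 10 * ρ)
      have e2 := (hasDerivAt_id t).const_mul (1 + ρ ^ 2)
      have e3 : deriv (fun t => (1 + ρ ^ 2) * t - 9 / 10 * ρ * sE ρ t) t
          = (1 + ρ ^ 2) * 1 - 9 / 10 * ρ * (sD2 ρ t / sx ρ t) := (e2.sub e).deriv
      rw [e3, mul_one, sub_nonneg, mul_div_assoc', div_le_iff₀ hx]
      exact k1 hρ2 hD ht.1.le (by linarith [ht.2])
  have h1 := hm (left_mem_Icc.2 hy) (right_mem_Icc.2 hy) hy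
  simp only [sE_zero hρ, mul_zero, sub_self] at h1
  linarith

/-- left side, the drop -/
theorem left_drop {ρ y : ℝ} (hρ2 : 10 ≤ ρ ^ 2) (h : Dom ρ y) (hy : 0 ≤ y) (hy1 : y ≤ 31 / 40) :
    9 / 20 * ρ * sE ρ y ^ 2 ≤ (1 + ρ ^ 2) * (ρ - sx ρ y * (1 + y)) := by
  have hρ := h.1
  have hd : ∀ t ∈ Ioo 0 y, HasDerivAt
      (fun t => (1 + ρ ^ 2) * (ρ - sx ρ t * (1 + t)) - 9 / 20 * ρ * sE ρ t ^ 2)
      ((sD2 ρ t / sx ρ t) * ((1 + ρ ^ 2) * t - 9 / 10 * ρ * sE ρ t)) t := by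
    intro t ht
    have h3 := dom_between (dom_zero hρ) h (by norm_num) ht
    have e1 := ((hasDerivAt_sPhi hρ h3).const_sub ρ).const_mul (1 + ρ ^ 2)
    have e2 := ((hasDerivAt_sE hρ h3).pow 2).const_mul (9 / 20 * ρ)
    refine (e1.sub e2).congr_deriv ?_
    simp only [Nat.cast_ofNat, Nat.add_one_sub_one, pow_one]
    ring
  have hm : MonotoneOn (fun t => (1 + ρ ^ 2) * (ρ - sx ρ t * (1 + t))
      - 9 / 20 * ρ * sE ρ t ^ 2) (Icc 0 y) := by
    refine monotoneOn_of_deriv_nonneg (convex_Icc _ _) ?_ ?_ ?_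
    · have := continuous_sE ρ
      have := continuous_sx ρ
      exact (by fun_prop : Continuous
        (fun t => (1 + ρ ^ 2) * (ρ - sx ρ t * (1 + t)) - 9 / 20 * ρ * sE ρ t ^ 2)).continuousOn
    · intro t ht
      rw [interior_Icc] at ht
      exact (hd t ht).differentiableAt.differentiableWithinAt
    · intro t ht
      rw [interior_Icc] at ht
      rw [(hd t ht).deriv]
      have h3 := dom_between (dom_zero hρ) h (by norm_num) ht
      have hD : Dom ρ t := ⟨hρ, h3.le⟩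
      have h4 := left_lo hρ2 hD ht.1.le (by linarith [ht.2])
      have h5 := sD2_pos (ρ := ρ) (y := t) (by linarith [ht.1])
      have h6 := sx_pos hρ h3
      have h7 : 0 ≤ (1 + ρ ^ 2) * t - 9 / 10 * ρ * sE ρ t := by linarith
      positivity
  have h1 := hm (left_mem_Icc.2 hy) (right_mem_Icc.2 hy) hy
  have h2 : sx ρ 0 = ρ := by
    unfold sx
    simp [Real.sqrt_sq hρ.le]
  simp only [sE_zero hρ, h2] at h1
  nlinarith [h1]

/-- right side, upper bound of `|y|` -/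
theorem right_up {ρ y : ℝ} (hρ2 : 10 ≤ ρ ^ 2) (h : Dom ρ y) (hy1 : -1 < y) (hy : y ≤ 0) :
    ρ * sE ρ y ≤ (1 + ρ ^ 2) * y := by
  have hρ := h.1
  have hd : ∀ t ∈ Ioo y 0, HasDerivAt (fun t => ρ * sE ρ t - (1 + ρ ^ 2) * t)
      (ρ * (sD2 ρ t / sx ρ t) - (1 + ρ ^ 2) * 1) t := by
    intro t ht
    have h3 := dom_between h (dom_zero hρ) hy1.le ht
    exact ((hasDerivAt_sE hρ h3).const_mul ρ).sub ((hasDerivAt_id t).const_mul (1 + ρ ^ 2))
  have hm : MonotoneOn (fun t => ρ * sE ρ t - (1 + ρ ^ 2) * t) (Icc y 0) := by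
    refine monotoneOn_of_deriv_nonneg (convex_Icc _ _) ?_ ?_ ?_
    · have := continuous_sE ρ
      exact (by fun_prop : Continuous (fun t => ρ * sE ρ t - (1 + ρ ^ 2) * t)).continuousOn
    · intro t ht
      rw [interior_Icc] at ht
      exact (hd t ht).differentiableAt.differentiableWithinAt
    · intro t ht
      rw [interior_Icc] at ht
      rw [(hd t ht).deriv]
      have h3 := dom_between h (dom_zero hρ) hy1.le ht
      have hD : Dom ρ t := ⟨hρ, h3.le⟩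
      have hx := sx_pos hρ h3
      rw [mul_one, sub_nonneg, mul_div_assoc', le_div_iff₀ hx]
      have h4 := sx_le hD
      have h5 := Real.exp_pos (-t)
      refine (mul_le_mul_of_nonneg_left h4 (by positivity)).trans ?_
      rw [D2_eq hD]
      -- `R e^(-t) ≤ 1 + 2 t + ρ² e^(-2t)`
      have h6 : (1 + ρ ^ 2) * Real.exp (-t) ≤ 1 + 2 * t + (ρ * Real.exp (-t)) ^ 2 := by
        obtain ⟨E, hE⟩ : ∃ E, E = Real.exp (-t) := ⟨_, rfl⟩
        rw [← hE]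
        have h7 : 1 - t ≤ E := by
          rw [hE]
          have := Real.add_one_le_exp (-t)
          linarith
        have ht0 := ht.2
        have h8 : 0 ≤ E - 1 := by linarith
        have h9 : (1 + ρ ^ 2) * E = E + ρ ^ 2 * E := by ring
        have h10 : (ρ * E) ^ 2 = ρ ^ 2 * E * E := by ring
        rw [h9, h10]
        nlinarith [mul_nonneg h8 (by linarith : (0:ℝ) ≤ E), mul_nonneg h8 h8,
          mul_nonneg (mul_nonneg h8 (by linarith : (0:ℝ) ≤ E)) (sub_nonneg.2 hρ2)]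
      calc (1 + ρ ^ 2) * (ρ * Real.exp (-t)) = ρ * ((1 + ρ ^ 2) * Real.exp (-t)) := by ring
        _ ≤ ρ * (1 + 2 * t + (ρ * Real.exp (-t)) ^ 2) := by gcongr
  have h1 := hm (left_mem_Icc.2 hy) (right_mem_Icc.2 hy) hy
  simp only [sE_zero hρ, mul_zero, sub_self] at h1
  linarith

/-- right side, the drop -/
theorem right_drop {ρ y : ℝ} (hρ2 : 10 ≤ ρ ^ 2) (h : Dom ρ y) (hy1 : -1 < y) (hy : y ≤ 0) :
    (1 + ρ ^ 2) * (ρ - sx ρ y * (1 + y)) ≤ 1 / 2 * ρ * sE ρ y ^ 2 := by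
  have hρ := h.1
  have hd : ∀ t ∈ Ioo y 0, HasDerivAt
      (fun t => (1 + ρ ^ 2) * (ρ - sx ρ t * (1 + t)) - 1 / 2 * ρ * sE ρ t ^ 2)
      ((sD2 ρ t / sx ρ t) * ((1 + ρ ^ 2) * t - ρ * sE ρ t)) t := by
    intro t ht
    have h3 := dom_between h (dom_zero hρ) hy1.le ht
    have e1 := ((hasDerivAt_sPhi hρ h3).const_sub ρ).const_mul (1 + ρ ^ 2)
    have e2 := ((hasDerivAt_sE hρ h3).pow 2).const_mul (1 / 2 * ρ)
    refine (e1.sub e2).congr_deriv ?_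
    simp only [Nat.cast_ofNat, Nat.add_one_sub_one, pow_one]
    ring
  have hm : MonotoneOn (fun t => (1 + ρ ^ 2) * (ρ - sx ρ t * (1 + t))
      - 1 / 2 * ρ * sE ρ t ^ 2) (Icc y 0) := by
    refine monotoneOn_of_deriv_nonneg (convex_Icc _ _) ?_ ?_ ?_
    · have := continuous_sE ρ
      have := continuous_sx ρ
      exact (by fun_prop : Continuous
        (fun t => (1 + ρ ^ 2) * (ρ - sx ρ t * (1 + t)) - 1 / 2 * ρ * sE ρ t ^ 2)).continuousOn
    · intro t ht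
      rw [interior_Icc] at ht
      exact (hd t ht).differentiableAt.differentiableWithinAt
    · intro t ht
      rw [interior_Icc] at ht
      rw [(hd t ht).deriv]
      have h3 := dom_between h (dom_zero hρ) hy1.le ht
      have hD : Dom ρ t := ⟨hρ, h3.le⟩
      have h4 := right_up hρ2 hD (by linarith [ht.1]) ht.2.le
      have h5 := sD2_pos (ρ := ρ) (y := t) (by linarith [ht.1])
      have h6 := sx_pos hρ h3
      have h7 : 0 ≤ (1 + ρ ^ 2) * t - ρ * sE ρ t := by linarith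
      positivity
  have h1 := hm (left_mem_Icc.2 hy) (right_mem_Icc.2 hy) hy
  have h2 : sx ρ 0 = ρ := by
    unfold sx
    simp [Real.sqrt_sq hρ.le]
  simp only [sE_zero hρ, h2] at h1
  nlinarith [h1]

theorem y_nonneg {ρ y : ℝ} (h : Dom ρ y) (hy1 : -1 < y) (hη : 0 ≤ sE ρ y) : 0 ≤ y := by
  by_contra hc
  push Not at hc
  have h1 := sE_strictMonoOn h (dom_zero h.1) hy1.le (left_mem_Icc.2 hc.le)
    (right_mem_Icc.2 hc.le) hc
  rw [sE_zero h.1] at h1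
  linarith

theorem y_nonpos {ρ y : ℝ} (h : Dom ρ y) (hη : sE ρ y ≤ 0) : y ≤ 0 := by
  by_contra hc
  push Not at hc
  have h1 := sE_strictMonoOn (dom_zero h.1) h (by norm_num) (left_mem_Icc.2 hc.le)
    (right_mem_Icc.2 hc.le) hc
  rw [sE_zero h.1] at h1
  linarith

/-- an upper bound of `y` from `1 - e^(-y) ≤ v` -/
theorem y_le_of {y v Y c : ℝ} (hY : 0 ≤ Y) (h : 1 - Real.exp (-y) ≤ v) (hc : 0 < c)
    (hcv : v < 1 - c) (h1 : 1 ≤ c * (1 + Y + Y ^ 2 / 2 + Y ^ 3 / 6 + Y ^ 4 / 24)) : y ≤ Y := by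
  by_contra hc'
  push Not at hc'
  have h2 := exp_neg_le hY hc h1
  have h3 : Real.exp (-y) ≤ Real.exp (-Y) := Real.exp_le_exp.2 (by linarith)
  linarith

/-- the final comparison -/
theorem gap_of {r δ ya yb γ : ℝ} (hδ : 0 < δ) (ha : Dom (r * δ) ya) (hb : Dom (r * δ) yb)
    (ha1 : -1 < ya) (ha0 : ya ≤ 0) (hb0 : 0 ≤ yb)
    (h : γ + (yb - ya) / 2 ≤ (sx (r * δ) ya * (1 + ya) - sx (r * δ) yb * (1 + yb)) / δ) :
    Gap r δ ya yb γ := by
  obtain ⟨ρ, hρ⟩ : ∃ ρ, ρ = r * δ := ⟨_, rfl⟩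
  have hb1 : -1 < yb := by linarith
  have h0 : Real.exp γ * sM r δ yb ≤ sM r δ ya := by
    unfold sM
    have ha' := ha
    have hb' := hb
    rw [← hρ] at ha' hb' h ⊢
    have hDa := sD2_pos (ρ := ρ) ha1
    have hDb := sD2_pos (ρ := ρ) hb1
    have h1 := D2_le ha' ha0
    have h2 : (1 + ρ ^ 2) * Real.exp (-yb) ^ 2 ≤ sD2 ρ yb :=
      (D2_ge hb').resolve_right (not_lt.2 hb0)
    have hR : 0 < 1 + ρ ^ 2 := by positivity
    have key : ∀ y : ℝ, ((1 + ρ ^ 2) * Real.exp (-y) ^ 2) ^ (1 / 4 : ℝ)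
        = (1 + ρ ^ 2) ^ (1 / 4 : ℝ) * Real.exp (-y / 2) := by
      intro y
      rw [Real.mul_rpow hR.le (by positivity), exp_sq, ← Real.exp_mul]
      congr 2
      ring
    have h3 : (sD2 ρ ya) ^ (1 / 4 : ℝ) ≤ (1 + ρ ^ 2) ^ (1 / 4 : ℝ) * Real.exp (-ya / 2) := by
      rw [← key]
      exact Real.rpow_le_rpow hDa.le h1 (by norm_num)
    have h4 : (1 + ρ ^ 2) ^ (1 / 4 : ℝ) * Real.exp (-yb / 2) ≤ (sD2 ρ yb) ^ (1 / 4 : ℝ) := by
      rw [← key]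
      exact Real.rpow_le_rpow (by positivity) h2 (by norm_num)
    have hq : 0 < (1 + ρ ^ 2) ^ (1 / 4 : ℝ) := Real.rpow_pos_of_pos hR _
    have hqa : 0 < (sD2 ρ ya) ^ (1 / 4 : ℝ) := Real.rpow_pos_of_pos hDa _
    have hqb : 0 < (sD2 ρ yb) ^ (1 / 4 : ℝ) := Real.rpow_pos_of_pos hDb _
    rw [mul_div_assoc', div_le_div_iff₀ hqb hqa]
    calc Real.exp γ * Real.exp (sx ρ yb * (1 + yb) / δ) * (sD2 ρ ya) ^ (1 / 4 : ℝ)
        ≤ Real.exp γ * Real.exp (sx ρ yb * (1 + yb) / δ) *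
          ((1 + ρ ^ 2) ^ (1 / 4 : ℝ) * Real.exp (-ya / 2)) := by gcongr
      _ = (1 + ρ ^ 2) ^ (1 / 4 : ℝ) *
          Real.exp (γ + sx ρ yb * (1 + yb) / δ + -ya / 2) := by
          rw [Real.exp_add, Real.exp_add]; ring
      _ ≤ (1 + ρ ^ 2) ^ (1 / 4 : ℝ) *
          Real.exp (sx ρ ya * (1 + ya) / δ + -yb / 2) := by
          refine mul_le_mul_of_nonneg_left (Real.exp_le_exp.2 ?_) hq.le
          have e := sub_div (sx ρ ya * (1 + ya)) (sx ρ yb * (1 + yb)) δ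
          linarith
      _ = Real.exp (sx ρ ya * (1 + ya) / δ) *
          ((1 + ρ ^ 2) ^ (1 / 4 : ℝ) * Real.exp (-yb / 2)) := by
          rw [Real.exp_add]; ring
      _ ≤ Real.exp (sx ρ ya * (1 + ya) / δ) * (sD2 ρ yb) ^ (1 / 4 : ℝ) := by gcongr
  refine ⟨h0, ?_⟩
  have hk : ‖kap r δ yb‖ ≤ ‖kap r δ ya‖ := by
    unfold kap
    rw [norm_div, norm_div, norm_sK ha, norm_sK hb]
    have : Real.exp (-yb) ≤ Real.exp (-ya) := Real.exp_le_exp.2 (by linarith)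
    have := ha.1
    gcongr
  have hMa := sM_pos (r := r) (δ := δ) ha1
  calc Real.exp γ * (‖kap r δ yb‖ * sM r δ yb) = ‖kap r δ yb‖ * (Real.exp γ * sM r δ yb) := by ring
    _ ≤ ‖kap r δ yb‖ * sM r δ ya := by gcongr
    _ ≤ ‖kap r δ ya‖ * sM r δ ya := by gcongr

end G2R

open G2R in
/-- **PIECE `P2.gapR`.** -/
theorem p2_gapR : ∀ (r δ ya yb η : ℝ), Reg2 r δ → At r δ ya η → At r δ yb (eo2 r δ) →
    η ≤ 0 → -ei2 r δ ≤ η → Gap r δ ya yb (1 / 2) := by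
  intro r δ ya yb η hreg ha hb hη0 hη1
  have hδ := hreg.d0
  have hr := hreg.r0
  have hρ := hreg.rho
  have hG := hreg.G
  obtain ⟨ρ, hρd⟩ : ∃ ρ, ρ = r * δ := ⟨_, rfl⟩
  have hst2 : hst 2 = Real.pi := by
    unfold hst
    push_cast
    ring
  obtain ⟨G, hGd⟩ : ∃ G, G = Gm 2 r δ := ⟨_, rfl⟩
  have hGe : G * (1 + ρ ^ 2) = r * Real.pi ^ 2 := by
    rw [hGd, hρd]
    unfold Gm RR
    rw [hst2]
    have : (0:ℝ) < 1 + (r * δ) ^ 2 := by positivity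
    field_simp
  have hda := ha.dom
  have hdb := hb.dom
  have hea := ha.eta
  have heb := hb.eta
  rw [← hρd] at hρ hda hdb hea heb
  rw [← hGd] at hG
  have hπ := Real.pi_pos
  have hR0 : 0 < 1 + ρ ^ 2 := by positivity
  have hρ0 : 0 < ρ := by linarith
  have hρ2 : 10 ≤ ρ ^ 2 := by nlinarith
  have hr0 : 0 < r := by linarith
  -- the half width
  obtain ⟨ω, hωd⟩ : ∃ ω, ω = om2 r δ := ⟨_, rfl⟩
  have heo : eo2 r δ = (1 / 2 + ω) * Real.pi := by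
    unfold eo2
    rw [hst2, hωd]
  have hei : ei2 r δ = (1 / 2 - ω) * Real.pi := by
    unfold ei2
    rw [hst2, hωd]
  have hcase : (G < 10 ∧ ω = 17 / 100) ∨ (10 ≤ G ∧ G < 20 ∧ ω = 3 / 20) ∨ (20 ≤ G ∧ ω = 1 / 10) := by
    rw [hωd]
    unfold om2
    rw [← hGd]
    rcases lt_or_ge G 10 with h1 | h1
    · left
      rw [if_pos h1]
      exact ⟨h1, rfl⟩
    · right
      rw [if_neg (not_lt.2 h1)]
      rcases lt_or_ge G 20 with h2 | h2
      · left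
        rw [if_pos h2]
        exact ⟨h1, h2, rfl⟩
      · right
        rw [if_neg (not_lt.2 h2)]
        exact ⟨h2, rfl⟩
  have hω : 1 / 10 ≤ ω ∧ ω ≤ 17 / 100 := by
    rcases hcase with ⟨_, h⟩ | ⟨_, _, h⟩ | ⟨_, h⟩ <;> rw [h] <;> norm_num
  rw [heo] at heb
  rw [hei] at hη1
  have hya1 := ha.y1
  have hyb1 := hb.y1
  have hya0 : ya ≤ 0 := y_nonpos hda (by rw [hea]; exact hη0)
  have hyb0 : 0 ≤ yb := y_nonneg hdb hyb1 (by
    rw [heb]
    have : 0 ≤ 1 / 2 + ω := by linarith [hω.1]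
    positivity)
  -- the two bounds
  have hL := left_up hdb hyb0
  have hRr := right_up hρ2 hda hya1 hya0
  rw [heb] at hL
  rw [hea] at hRr
  obtain ⟨Y, n, hY, hn, hY31, hfin⟩ : ∃ Y n : ℝ, yb ≤ Y ∧ -ya ≤ n ∧ Y ≤ 31 / 40 ∧
      1 / 2 + (Y + n) / 2 ≤ G * (9 / 20 * (1 / 2 + ω) ^ 2 - 1 / 2 * (1 / 2 - ω) ^ 2) := by
    obtain ⟨v, hv⟩ : ∃ v, v = ρ * ((1 / 2 + ω) * Real.pi) / (1 + ρ ^ 2) := ⟨_, rfl⟩
    obtain ⟨w, hw⟩ : ∃ w, w = ρ * ((1 / 2 - ω) * Real.pi) / (1 + ρ ^ 2) := ⟨_, rfl⟩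
    have hv1 : 1 - Real.exp (-yb) ≤ v := by
      rw [hv, le_div_iff₀ hR0, mul_comm]
      exact hL
    have hw1 : -ya ≤ w := by
      rw [hw, le_div_iff₀ hR0]
      nlinarith
    have hvs : v ^ 2 * r ≤ (1 / 2 + ω) ^ 2 * G := by
      have e : v ^ 2 * r = (1 / 2 + ω) ^ 2 * (r * Real.pi ^ 2) * (ρ ^ 2 / (1 + ρ ^ 2) ^ 2) := by
        rw [hv]
        field_simp
      rw [e, ← hGe]
      have e2 : (1 / 2 + ω) ^ 2 * (G * (1 + ρ ^ 2)) * (ρ ^ 2 / (1 + ρ ^ 2) ^ 2)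
          = (1 / 2 + ω) ^ 2 * G * (ρ ^ 2 / (1 + ρ ^ 2)) := by
        field_simp
      rw [e2]
      have e3 : ρ ^ 2 / (1 + ρ ^ 2) ≤ 1 := by
        rw [div_le_one hR0]
        linarith
      have e4 : 0 ≤ (1 / 2 + ω) ^ 2 * G := by positivity
      nlinarith
    have hws : w ^ 2 * r ≤ (1 / 2 - ω) ^ 2 * G := by
      have e : w ^ 2 * r = (1 / 2 - ω) ^ 2 * (r * Real.pi ^ 2) * (ρ ^ 2 / (1 + ρ ^ 2) ^ 2) := by
        rw [hw]
        field_simp
      rw [e, ← hGe]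
      have e2 : (1 / 2 - ω) ^ 2 * (G * (1 + ρ ^ 2)) * (ρ ^ 2 / (1 + ρ ^ 2) ^ 2)
          = (1 / 2 - ω) ^ 2 * G * (ρ ^ 2 / (1 + ρ ^ 2)) := by
        field_simp
      rw [e2]
      have e3 : ρ ^ 2 / (1 + ρ ^ 2) ≤ 1 := by
        rw [div_le_one hR0]
        linarith
      have e4 : 0 ≤ (1 / 2 - ω) ^ 2 * G := by positivity
      nlinarith
    rcases hcase with ⟨h1, h2⟩ | ⟨h1, h2, h3⟩ | ⟨h1, h2⟩
    · rw [h2] at hvs hws ⊢
      have hv2 : v < 301 / 1000 := by nlinarith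
      have hw2 : w ≤ 149 / 1000 := by nlinarith
      refine ⟨9 / 25, 149 / 1000, y_le_of (by norm_num) hv1 (c := 699 / 1000) (by norm_num)
        (by linarith) (by norm_num), hw1.trans hw2, by norm_num, ?_⟩
      nlinarith
    · rw [h3] at hvs hws ⊢
      have hv2 : v < 42 / 100 := by nlinarith
      have hw2 : w ≤ 1 / 4 := by nlinarith
      refine ⟨11 / 20, 1 / 4, y_le_of (by norm_num) hv1 (c := 58 / 100) (by norm_num)
        (by linarith) (by norm_num), hw1.trans hw2, by norm_num, ?_⟩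
      nlinarith
    · rw [h2] at hv hw hvs hws ⊢
      have hq : ρ / (1 + ρ ^ 2) ≤ 2847 / 10000 := by
        rw [div_le_iff₀ hR0]
        nlinarith
      have hq0 : 0 ≤ ρ / (1 + ρ ^ 2) := by positivity
      have hpi := Real.pi_lt_d4
      have hv2 : v ≤ 2847 / 10000 * (3 / 5 * 3.1416) := by
        have e : v = ρ / (1 + ρ ^ 2) * (3 / 5 * Real.pi) := by
          rw [hv]
          ring
        rw [e]
        refine mul_le_mul hq ?_ (by positivity) (by norm_num)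
        linarith
      have hw2 : w ≤ 2847 / 10000 * (2 / 5 * 3.1416) := by
        have e : w = ρ / (1 + ρ ^ 2) * (2 / 5 * Real.pi) := by
          rw [hw]
          ring
        rw [e]
        refine mul_le_mul hq ?_ (by positivity) (by norm_num)
        linarith
      refine ⟨31 / 40, 36 / 100, y_le_of (by norm_num) hv1 (c := 463 / 1000) (by norm_num)
        (lt_of_le_of_lt hv2 (by norm_num)) (by norm_num), hw1.trans (hw2.trans (by norm_num)),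
        by norm_num, ?_⟩
      nlinarith
  have hLd := left_drop hρ2 hdb hyb0 (hY.trans hY31)
  have hRd := right_drop hρ2 hda hya1 hya0
  rw [heb] at hLd
  rw [hea] at hRd
  refine gap_of hδ (by rw [← hρd]; exact hda) (by rw [← hρd]; exact hdb) hya1 hya0 hyb0 ?_
  rw [← hρd]
  rw [le_div_iff₀ hδ]
  have hηs : η ^ 2 ≤ ((1 / 2 - ω) * Real.pi) ^ 2 := by
    have : 0 ≤ (1 / 2 - ω) * Real.pi := by
      have : 0 ≤ 1 / 2 - ω := by linarith [hω.2]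
      positivity
    nlinarith
  have h7 : ρ * (9 / 20 * ((1 / 2 + ω) * Real.pi) ^ 2 - 1 / 2 * ((1 / 2 - ω) * Real.pi) ^ 2)
      ≤ (1 + ρ ^ 2) * (sx ρ ya * (1 + ya) - sx ρ yb * (1 + yb)) := by
    have h8 : ρ * η ^ 2 ≤ ρ * ((1 / 2 - ω) * Real.pi) ^ 2 := by gcongr
    nlinarith
  have h9 : (1 / 2 + (yb - ya) / 2) * δ * (1 + ρ ^ 2)
      ≤ ρ * (9 / 20 * ((1 / 2 + ω) * Real.pi) ^ 2 - 1 / 2 * ((1 / 2 - ω) * Real.pi) ^ 2) := by
    have e : ρ * (9 / 20 * ((1 / 2 + ω) * Real.pi) ^ 2 - 1 / 2 * ((1 / 2 - ω) * Real.pi) ^ 2)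
        = δ * (G * (1 + ρ ^ 2)) * (9 / 20 * (1 / 2 + ω) ^ 2 - 1 / 2 * (1 / 2 - ω) ^ 2) := by
      rw [hGe, hρd]
      ring
    rw [e]
    have h10 : 1 / 2 + (yb - ya) / 2 ≤
        G * (9 / 20 * (1 / 2 + ω) ^ 2 - 1 / 2 * (1 / 2 - ω) ^ 2) := by linarith
    have h11 : 0 < δ * (1 + ρ ^ 2) := by positivity
    nlinarith
  have h12 := h9.trans h7
  nlinarith

end SokalV3
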