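import Pool.Agent.Lib_MP_af4de1_v3.T2Inst

/-!
# `N = 2`, tails: `x ≥ 112/25`, both lumps; `y ≤ 0`, `x ≤ 112/25` (helper63)
-/

set_option autoImplicit false

namespace SokalT2

open Real Set SokalF1S SokalV3

theorem modeAN {g x n K w c X s E : ℝ} (hcx : c * x = 1 - c) (c0 : 0 < c) (c1 : c ≤ 19 / 200)
    (g0 : 0 < g) (x0 : 0 < x) (n0 : 0 ≤ n) (n1 : n ≤ 1 / 2) (hK : K = 6283 / 1000) (hX : 15 ≤ X)
    (hs : 0 ≤ s) (hw : g * (x * (1 - n)) ≤ w) (hE0 : 0 < E)
    (hE : E ≤ g * ((1 - c) * (K * (137 / 25) - (1 - c) * X - s * c ^ 2))) :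
    E ≤ w * (K * (137 / 25 * c + n) - c * ((1 - c) * X) - c * (s * c ^ 2)) := by
  obtain ⟨Q, hQd⟩ : ∃ Q, Q = K * (137 / 25) - (1 - c) * X - s * c ^ 2 := ⟨_, rfl⟩
  rw [← hQd] at hE
  have hQ : 0 < Q := pos_of_mul g0 (by linarith) hE0 hE
  have hQ2 : Q ≤ 21 := by
    have a1 : (1 - 19 / 200) * 15 ≤ (1 - c) * X := mul_le_mul (by linarith) hX (by norm_num) (by linarith)
    have a2 : 0 ≤ s * c ^ 2 := by positivity
    rw [hQd, hK]
    linarith
  have hP : c * Q ≤ 2 := by
    have : c * Q ≤ 19 / 200 * 21 := mul_le_mul c1 hQ2 hQ.le (by norm_num)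
    linarith
  have hP0 : 0 < c * Q := mul_pos c0 hQ
  have e2 : K * (137 / 25 * c + n) - c * ((1 - c) * X) - c * (s * c ^ 2) = c * Q + K * n := by
    rw [hQd]
    ring
  rw [e2]
  have h1 : c * Q ≤ (1 - n) * (c * Q + K * n) := by
    have a1 : (1 - n) * (c * Q + K * n) - c * Q = n * (K * (1 - n) - c * Q) := by ring
    have a2 : 0 ≤ K * (1 - n) - c * Q := by
      rw [hK]
      linarith
    have a3 := mul_nonneg n0 a2
    linarith
  have h3 : 0 ≤ c * Q + K * n := by
    have : 0 ≤ K * n := mul_nonneg (by rw [hK]; norm_num) n0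
    linarith
  calc E ≤ g * ((1 - c) * Q) := hE
    _ = g * x * (c * Q) := by
        linear_combination (-g * Q) * hcx
    _ ≤ g * x * ((1 - n) * (c * Q + K * n)) := mul_le_mul_of_nonneg_left h1 (by positivity)
    _ = g * (x * (1 - n)) * (c * Q + K * n) := by ring
    _ ≤ w * (c * Q + K * n) := mul_le_mul_of_nonneg_right hw h3

/-- the harmless lump, `y ≤ 0`, `x ≥ 112/25` -/
theorem harmN {x n w D p c : ℝ} (H : NegD x n w D p) (hx : 112 / 25 ≤ x)
    (hc : c * (1 + x) = 1) (hw : 5471 / 10000 * (x * (1 - n)) ≤ w) (hw0 : 52249 / 10000 ≤ w) :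
    tP 1 x (-n) w ≤ 3 / 10000 * √(2 * π / (w * D)) := by
  have c0 := c_pos hx hc
  have c1 := c_le hx hc
  refine lumpNn (E := 44 / 5) hx hc H.n0 H.n1 H.nx H.D0 H.D1 H.w0 H.wx
    (by
      have h := exp_neg_kf 8 (f := 4 / 5) (by norm_num)
      have e : -((8 : ℕ) + 4 / 5 : ℝ) = -(44 / 5) := by norm_num
      rw [e] at h
      refine (mul_le_mul_of_nonneg_left h (by norm_num)).trans ?_
      norm_num) ?_
  rcases le_total c (19 / 200) with h | h
  · have hE := nn1_E c0.le h
    have := modeAN (X := 150152 / 10000 + 274278 / 10000 * c + 37577 / 1000 * c ^ 2 +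
      49421 / 1000 * c ^ 3) (s := 469 / 20) (cx_of hc) c0 h (by norm_num) (by linarith) H.n0 H.n1 rfl
      (by
        have : 0 ≤ c ^ 2 := by positivity
        have : 0 ≤ c ^ 3 := by positivity
        linarith) (by norm_num) hw (by norm_num) hE
    refine this.trans (le_of_eq ?_)
    ring
  · have hE := nn2_E h c1
    have h1 := modeB c0 (by norm_num) hw0 (by norm_num) hE
    refine h1.trans (mul_le_mul_of_nonneg_left ?_ H.w0.le)
    have := H.n0
    linarith

/-- the harmless lump, `y ≥ 0`, `x ≥ 112/25` -/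
theorem harmP {x y w D c : ℝ} (H : PosD x y w D (20421 / 10000)) (hx : 112 / 25 ≤ x)
    (hc : c * (1 + x) = 1) (hw : 5471 / 10000 * x ≤ w) (hw0 : 52249 / 10000 ≤ w) :
    tP (-1) x (-y) w ≤ 3 / 10000 * √(2 * π / (w * D)) := by
  have c0 := c_pos hx hc
  have c1 := c_le hx hc
  have hy : y ≤ 376 / 1000 := by
    have h1 : y ≤ c * (20421 / 10000 + 1 / 20 * c) := by
      rcases le_total c (7 / 50) with h | h
      · exact y_le hx hc H.y0 H.con (by norm_num) (by norm_num) h (p21_yb c0.le h)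
      · exact y_le hx hc H.y0 H.con (by norm_num) (by norm_num) c1 (p22_yb h c1)
    have h2 : c * (20421 / 10000 + 1 / 20 * c) ≤ 25 / 137 * (20421 / 10000 + 1 / 20 * (25 / 137)) :=
      mul_le_mul c1 (by linarith) (by positivity) (by norm_num)
    norm_num at h2
    linarith
  have hwx : 34 ≤ w * x := by
    have h1 := mul_le_mul_of_nonneg_left hx H.w0.le
    have h2 := H.wx
    linarith
  refine lumpPn (E := 9) hx hc H.y0 hy H.D0 H.D1 H.w0 hwx
    (by
      have h := exp_neg_kf 9 (f := 0) (by norm_num)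
      have e : -((9 : ℕ) + 0 : ℝ) = -(9) := by norm_num
      rw [e] at h
      refine (mul_le_mul_of_nonneg_left h (by norm_num)).trans ?_
      norm_num) ?_
  have e1 : w * (6283 / 1000 * (137 / 25 * c) -
      c * ((1 - c) * (150152 / 10000 - 274277 / 10000 * c + 37577 / 1000 * c ^ 2)) - c * (126 * c ^ 2)) =
      w * (c * (6283 / 1000 * (137 / 25) -
      (1 - c) * (150152 / 10000 - 274277 / 10000 * c + 37577 / 1000 * c ^ 2) - 126 * c ^ 2)) := by ring
  rw [e1]
  rcases le_total c (19 / 200) with h | h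
  · have hE := pn1_E c0.le h
    exact modeA (g := 5471 / 10000) (p := 0) (q := 1) (cx_of hc) c0 (by norm_num) (by linarith)
      (by norm_num) (by linarith) (by norm_num) (by rw [one_mul]; exact hE)
  · have hE := pn2_E h c1
    exact modeB c0 (by norm_num) hw0 (by norm_num) hE

/-! ### the low range, `y ≤ 0` -/

theorem ta_one {x : ℝ} (h0 : 0 < x) (hx : x ≤ 112 / 25) : ta x = 1 := by
  unfold ta ts
  rw [min_eq_right (by linarith)]
  exact inv_mul_cancel₀ (by linarith)

/-- dangerous lump -/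
theorem loN {x n w D p : ℝ} (H : NegD x n w D p) (hx : x ≤ 112 / 25) :
    tP (-1) x n w ≤ 159 / 10000 * √(2 * π / (w * D)) := by
  have x1 := H.x0
  have x0 : 0 < x := by linarith
  have hta := ta_one x0 hx
  have hw := H.w0
  have hwx := H.wx
  have n0 := H.n0
  have n1 := H.n1
  have hnx := H.nx
  have he1 := exp_one_lt_d9
  have he2 := exp_one_gt_d9
  have hkap : 134 / 1000 * |n| ≤ (473 / 1000 - 42 / 100) * x := by
    rw [abs_of_nonneg n0]
    linarith
  have hmu := mu_m (v := n) (e1 := 27183 / 10000) x0 (by norm_num : (0 : ℝ) < 42 / 100) hkap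
    (by norm_num) (by
      rw [hta]
      linarith)
  have hμ0 : 0 < tμ (-1) x n := by linarith
  have hi : exp (-1) ≤ 36789 / 100000 := by
    rw [exp_neg, inv_le_comm₀ (exp_pos _) (by norm_num)]
    norm_num
    linarith
  have hi0 := exp_pos (-1)
  refine tP_le hw H.D0 (M := 715 / 100) (θ := 2907 / 10000) (d := 681 / 100) (C := 199 / 100)
    (E := 485 / 100) (by norm_num) hμ0 ?_ (by norm_num) ?_ (by norm_num) (by norm_num) ?_
    (by
      have h := exp_neg_kf 4 (f := 17 / 20) (by norm_num)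
      have e : -((4 : ℕ) + 17 / 20 : ℝ) = -(485 / 100) := by norm_num
      rw [e] at h
      refine (mul_le_mul_of_nonneg_left h (by norm_num)).trans ?_
      norm_num)
  · have b1 := mul_le_mul_of_nonneg_left hmu hw.le
    linarith
  · have b1 := D_le (u := 10 / 41) (δ1 := 10521 / 10000) x0 zero_le_one H.D1 (by norm_num)
      (by norm_num) (by linarith) (by norm_num) (by norm_num)
    linarith
  · have hm : tm (-1) x n ^ 2 ≤ 1 := by
      unfold tm
      rw [hta]
      have b0 : (-1 : ℝ) * 1 = -1 := by norm_num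
      rw [b0]
      have b1 : 0 ≤ (1 - exp (-1)) * n := mul_nonneg (by linarith) n0
      have b2 : (1 - exp (-1)) * n ≤ 1 * 1 := mul_le_mul (by linarith) (by linarith) n0 (by norm_num)
      have b3 := pow_le_pow_left₀ (by linarith : 0 ≤ 1 - n + exp (-1) * n)
        (by linarith : 1 - n + exp (-1) * n ≤ 1) 2
      linarith
    have hθ : 2907 / 10000 * tm (-1) x n ^ 2 / tμ (-1) x n ≤ 607 / 1000 := by
      rw [div_le_iff₀ hμ0]
      linarith
    have hH : tH (-1) x n - 607 / 1000 ≥ 105 / 1000 * x := by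
      unfold tH
      rw [hta]
      have b0 : (-1 : ℝ) * 1 = -1 := by norm_num
      rw [b0]
      have hpi := pi_gt_d4
      have b1 : 6283 / 1000 * (1 - n) ≤ 2 * π * (1 - n) :=
        mul_le_mul_of_nonneg_right (by linarith) (by linarith)
      have b2 : x * (exp (-1) - 1 - -1) ≤ x * (36789 / 100000) :=
        mul_le_mul_of_nonneg_left (by linarith) x0.le
      linarith
    have h1 := mul_le_mul_of_nonneg_left (sub_le_sub_left hθ (tH (-1) x n)) hw.le
    have h2 := mul_le_mul_of_nonneg_left hH.le hw.le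
    linarith

/-- harmless lump -/
theorem loNn {x n w D p : ℝ} (H : NegD x n w D p) (hx : x ≤ 112 / 25) :
    tP 1 x (-n) w ≤ 3 / 10000 * √(2 * π / (w * D)) := by
  have x1 := H.x0
  have x0 : 0 < x := by linarith
  have hta := ta_one x0 hx
  have hw := H.w0
  have hwx := H.wx
  have n0 := H.n0
  have n1 := H.n1
  have hnx := H.nx
  have he1 := exp_one_lt_d9
  have he2 := exp_one_gt_d9
  have hkap : 134 / 1000 * |(-n)| ≤ (473 / 1000 - 42 / 100) * x := by
    rw [abs_neg, abs_of_nonneg n0]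
    linarith
  have hmu := mu_p (v := -n) (em := 1) x0 (by norm_num : (0 : ℝ) < 42 / 100) hkap
    one_pos (by
      rw [hta]
      exact exp_le_one_iff.2 (by norm_num))
  have hμ0 : 0 < tμ 1 x (-n) := by linarith
  refine tP_le hw H.D0 (M := 15) (θ := 2679 / 10000) (d := 2506 / 1000) (C := 116 / 100)
    (E := 44 / 5) (by norm_num) hμ0 ?_ (by norm_num) ?_ (by norm_num) (by norm_num) ?_
    (by
      have h := exp_neg_kf 8 (f := 4 / 5) (by norm_num)
      have e : -((8 : ℕ) + 4 / 5 : ℝ) = -(44 / 5) := by norm_num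
      rw [e] at h
      refine (mul_le_mul_of_nonneg_left h (by norm_num)).trans ?_
      norm_num)
  · have b1 := mul_le_mul_of_nonneg_left hmu hw.le
    linarith
  · have b1 := D_le (u := 10 / 41) (δ1 := 10521 / 10000) x0 zero_le_one H.D1 (by norm_num)
      (by norm_num) (by linarith) (by norm_num) (by norm_num)
    linarith
  · have hm : tm 1 x (-n) ^ 2 ≤ 1 := by
      unfold tm
      rw [hta]
      have b0 : (1 : ℝ) * 1 = 1 := by norm_num
      rw [b0]
      have b1 : 0 ≤ (exp 1 - 1) * n := mul_nonneg (by linarith) n0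
      have b2 : (exp 1 - 1) * n ≤ 2 * (1 / 2) := mul_le_mul (by linarith) (by linarith) n0 (by norm_num)
      have b3 := pow_le_pow_left₀ (by linarith : 0 ≤ 1 - -n + exp 1 * -n)
        (by linarith : 1 - -n + exp 1 * -n ≤ 1) 2
      linarith
    have hθ : 2679 / 10000 * tm 1 x (-n) ^ 2 / tμ 1 x (-n) ≤ 206 / 1000 := by
      rw [div_le_iff₀ hμ0]
      linarith
    have hH : tH 1 x (-n) - 206 / 1000 ≥ 19 / 100 * x := by
      unfold tH
      rw [hta]
      have b0 : (1 : ℝ) * 1 = 1 := by norm_num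
      rw [b0]
      have hpi := pi_gt_d4
      have b1 : 6283 / 1000 * (1 - -n) ≤ 2 * π * (1 - -n) :=
        mul_le_mul_of_nonneg_right (by linarith) (by linarith)
      have b2 : x * (exp 1 - 1 - 1) ≤ x * (71829 / 100000) :=
        mul_le_mul_of_nonneg_left (by linarith) x0.le
      linarith
    have h1 := mul_le_mul_of_nonneg_left (sub_le_sub_left hθ (tH 1 x (-n))) hw.le
    have h2 := mul_le_mul_of_nonneg_left hH.le hw.le
    linarith

end SokalT2
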