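import Pool.Agent.Lib_MP_af4de1_v3.T2LoP
import Pool.Agent.Lib_MP_af4de1_v3.T2Harm
import Pool.Agent.Lib_MP_af4de1_v3.P2Sad

/-!
# `N = 2`, tails: the pieces A and B (helper63; `y ≥ 0`, `x ≤ 112/25`: helper2)

`pTA : PTA`, `pTB : PTB`.
-/

set_option autoImplicit false

namespace SokalT2

open Real Set SokalF1 SokalF1S SokalF1M SokalV3

theorem PosD.mono {x y w D p p' : ℝ} (H : PosD x y w D p) (h : p ≤ p') : PosD x y w D p' :=
  ⟨H.x0, H.y0, H.y1, H.yx, H.D0, H.D1, H.con.trans h, H.w0, H.wx⟩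

theorem ex_c {x : ℝ} (hx : 0 < x) : ∃ c, c * (1 + x) = 1 :=
  ⟨(1 + x)⁻¹, inv_mul_cancel₀ (by linarith)⟩

theorem add_le_162 {a b s : ℝ} (ha : a ≤ 3 / 10000 * s) (hb : b ≤ 159 / 10000 * s) :
    a + b ≤ 162 / 10000 * s := by linarith

theorem neg1 {x n w D : ℝ} (H : NegD x n w D (3927 / 2500))
    (hg : 5471 / 10000 * (x - 3927 / 2500) ≤ w) (hg' : 5471 / 10000 * (x * (1 - n)) ≤ w)
    (hw0 : 52249 / 10000 ≤ w) :
    tP 1 x (-n) w + tP (-1) x n w ≤ 162 / 10000 * √(2 * π / (w * D)) := by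
  rcases le_total x (112 / 25) with hx | hx
  · exact add_le_162 (loNn H hx) (loN H hx)
  · obtain ⟨c, hc⟩ := ex_c (by linarith : 0 < x)
    have c0 := c_pos hx hc
    have c1 := c_le hx hc
    refine add_le_162 (harmN H hx hc hg' hw0) ?_
    rcases le_total c (33 / 400) with h1 | h1
    · exact i_n11 H hx hc c0.le h1 hg
    rcases le_total c (1 / 10) with h2 | h2
    · exact i_n12 H hx hc h1 h2 hw0
    · exact i_n13 H hx hc h2 c1 hw0

theorem neg2 {x n w D : ℝ} (H : NegD x n w D (20421 / 10000))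
    (hg : 2533 / 2500 * (x - 20421 / 10000) ≤ w) (hg' : 5471 / 10000 * (x * (1 - n)) ≤ w)
    (hw0 : 4444 / 625 ≤ w) :
    tP 1 x (-n) w + tP (-1) x n w ≤ 162 / 10000 * √(2 * π / (w * D)) := by
  rcases le_total x (112 / 25) with hx | hx
  · exact add_le_162 (loNn H hx) (loN H hx)
  · obtain ⟨c, hc⟩ := ex_c (by linarith : 0 < x)
    have c0 := c_pos hx hc
    have c1 := c_le hx hc
    refine add_le_162 (harmN H hx hc hg' (by linarith)) ?_
    rcases le_total c (1 / 10) with h1 | h1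
    · exact i_n21 H hx hc c0.le h1 hg
    rcases le_total c (13 / 100) with h2 | h2
    · exact i_n22 H hx hc h1 h2 hw0
    rcases le_total c (4 / 25) with h3 | h3
    · exact i_n23 H hx hc h2 h3 hw0
    · exact i_n24 H hx hc h3 c1

theorem pos1 {x y w D : ℝ} (H : PosD x y w D (3927 / 2500))
    (hg : 5471 / 10000 * (x * (1 + y)) ≤ w) (hw0 : 52249 / 10000 ≤ w) :
    tP 1 x y w + tP (-1) x (-y) w ≤ 162 / 10000 * √(2 * π / (w * D)) := by
  have H2 := H.mono (by norm_num : (3927 / 2500 : ℝ) ≤ 20421 / 10000)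
  have x0 := H.x0
  rw [add_comm]
  rcases le_total x (112 / 25) with hx | hx
  · exact add_le_162 (loPn H.x0 hx H.y0 H.y1 H.D0 H.D1 H2.con H.w0 H.wx)
      (loP H.x0 hx H.y0 H.y1 H.D0 H.D1 H2.con H.w0 H.wx)
  · obtain ⟨c, hc⟩ := ex_c (by linarith : 0 < x)
    have c0 := c_pos hx hc
    have c1 := c_le hx hc
    have hgx : 5471 / 10000 * x ≤ w := by
      have : 0 ≤ x * y := mul_nonneg (by linarith) H.y0
      linarith
    refine add_le_162 (harmP H2 hx hc hgx hw0) ?_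
    rcases le_total c (11 / 100) with h1 | h1
    · exact i_p11 H hx hc c0.le h1 hg
    · exact i_p12 H hx hc h1 c1 hw0

theorem pos2 {x y w D : ℝ} (H : PosD x y w D (20421 / 10000))
    (hg : 2533 / 2500 * (x * (1 + y)) ≤ w) (hw0 : 4444 / 625 ≤ w) :
    tP 1 x y w + tP (-1) x (-y) w ≤ 162 / 10000 * √(2 * π / (w * D)) := by
  have x0 := H.x0
  rw [add_comm]
  rcases le_total x (112 / 25) with hx | hx
  · exact add_le_162 (loPn H.x0 hx H.y0 H.y1 H.D0 H.D1 H.con H.w0 H.wx)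
      (loP H.x0 hx H.y0 H.y1 H.D0 H.D1 H.con H.w0 H.wx)
  · obtain ⟨c, hc⟩ := ex_c (by linarith : 0 < x)
    have c0 := c_pos hx hc
    have c1 := c_le hx hc
    have hgx : 5471 / 10000 * x ≤ w := by
      have : 0 ≤ x * y := mul_nonneg (by linarith) H.y0
      linarith
    refine add_le_162 (harmP H hx hc hgx (by linarith)) ?_
    rcases le_total c (7 / 50) with h1 | h1
    · exact i_p21 H hx hc c0.le h1 hg
    · exact i_p22 H hx hc h1 c1 hw0

/-! ### the parameters -/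

/-- `w ≥ g ρ`, `w ≥ w₀` -/
theorem w_ge {r δ G g w0 : ℝ} (hR : Reg2 r δ) (hG : G ≤ Gm 2 r δ) (g0 : 0 < g) (hg : g * (98697 / 10000) ≤ G)
    (w00 : 0 < w0) (hw : w0 ^ 2 ≤ 499 / 10 * g) : g * (r * δ) ≤ 1 / δ ∧ w0 ≤ 1 / δ := by
  have hr := hR.r0
  have hδ := hR.d0
  have r0 : 0 < r := by linarith
  have hρ0 : 0 < r * δ := by positivity
  have hpi2 : π ^ 2 ≤ 98697 / 10000 := by
    have h1 := pi_lt_d4
    have h2 := pow_le_pow_left₀ pi_pos.le h1.le 2
    norm_num at h2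
    linarith
  have hGm : Gm 2 r δ * (1 + (r * δ) ^ 2) = r * π ^ 2 := by
    unfold Gm RR
    rw [hst_two]
    field_simp
  have h1 : g * (r * δ) ≤ 1 / δ := by
    rw [le_div_iff₀ hδ]
    have a1 : g * (98697 / 10000) * (1 + (r * δ) ^ 2) ≤ r * (98697 / 10000) := by
      calc g * (98697 / 10000) * (1 + (r * δ) ^ 2) ≤ Gm 2 r δ * (1 + (r * δ) ^ 2) :=
            mul_le_mul_of_nonneg_right (hg.trans hG) (by positivity)
        _ = r * π ^ 2 := hGm
        _ ≤ _ := mul_le_mul_of_nonneg_left hpi2 r0.le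
    have a2 : r * (g * (r * δ) * δ) ≤ r * 1 := by
      have e : r * (g * (r * δ) * δ) = g * (r * δ) ^ 2 := by ring
      rw [e]
      have a3 : 0 ≤ g * (98697 / 10000) * 1 := by positivity
      linarith
    exact le_of_mul_le_mul_left a2 r0
  refine ⟨h1, ?_⟩
  have hw1 : 0 < 1 / δ := by positivity
  refine le_of_sq_le_sq ?_ hw1.le
  have h2 := mul_le_mul_of_nonneg_left h1 hw1.le
  have e : 1 / δ * (g * (r * δ)) = g * r := by
    field_simp
  rw [e] at h2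
  have h3 := mul_le_mul_of_nonneg_left hr g0.le
  calc w0 ^ 2 ≤ 499 / 10 * g := hw
    _ ≤ (1 / δ) ^ 2 := by
        rw [sq (1 / δ)]
        linarith

theorem sG_eq {r δ y : ℝ} (hδ : 0 < δ) : sG r δ y = √(2 * π / (1 / δ * √(sD2 (r * δ) y))) := by
  unfold sG
  congr 1
  field_simp

/-- the data on the side `y ≤ 0` -/
theorem negD_of {r δ n η p : ℝ} (hR : Reg2 r δ) (hA : At r δ (-n) η) (hS : Sad2 r δ (-n)) (n0 : 0 ≤ n)
    (hη : |η| ≤ p) :
    NegD (sx (r * δ) (-n)) n (1 / δ) (√(sD2 (r * δ) (-n))) p ∧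
      sx (r * δ) (-n) - p ≤ r * δ ∧ sx (r * δ) (-n) * (1 - n) ≤ r * δ := by
  have hr := hR.r0
  have hδ := hR.d0
  have hρ := hR.rho
  have n1 : n ≤ 1 / 2 := by
    have := hS.lo
    linarith
  have hT := hS.T
  rw [abs_neg, abs_of_nonneg n0] at hT
  have hsq := sx_sq hA.dom
  rw [neg_neg] at hsq
  obtain ⟨x, hx⟩ : ∃ x, x = sx (r * δ) (-n) := ⟨_, rfl⟩
  have hx0 : 0 ≤ x := by
    rw [hx]
    exact sx_nonneg _ _
  have hE1 : 1 ≤ exp n := one_le_exp n0
  have hD2 : sD2 (r * δ) (-n) = (1 - n) ^ 2 + x ^ 2 := by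
    unfold sD2
    rw [← hx]
    ring
  rw [← hx] at hT hsq
  have hρE : (r * δ) ^ 2 ≤ (r * δ * exp n) ^ 2 := by
    refine pow_le_pow_left₀ (by linarith) ?_ 2
    exact le_mul_of_one_le_right (by linarith) hE1
  have hn2 : n ^ 2 ≤ (1 / 2) ^ 2 := pow_le_pow_left₀ n0 n1 2
  have hρ2 : (16 / 5 : ℝ) ^ 2 ≤ (r * δ) ^ 2 := pow_le_pow_left₀ (by norm_num) hρ 2
  have hx1 : 31 / 10 ≤ x := by
    refine le_of_sq_le_sq ?_ hx0
    rw [hsq]
    norm_num at hn2 hρ2 ⊢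
    linarith
  have hat := at_neg hA n0 (by linarith) (by rw [← hx]; linarith)
  rw [← hx] at hat
  obtain ⟨h1, h2⟩ := hat
  have hcon : x * (1 - exp (-n)) + (n - n ^ 2 / 2) / x ≤ p := h2.trans ((neg_le_abs η).trans hη)
  have hq0 : 0 ≤ (n - n ^ 2 / 2) / x := by
    refine div_nonneg ?_ hx0
    have : n * (1 - n / 2) = n - n ^ 2 / 2 := by ring
    rw [← this]
    exact mul_nonneg n0 (by linarith)
  have hxn : x * (1 - n) ≤ x * exp (-n) :=
    mul_le_mul_of_nonneg_left (by linarith [add_one_le_exp (-n)]) hx0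
  rw [← hx]
  refine ⟨⟨hx1, n0, n1, hT, ?_, ?_, hcon, by positivity, ?_⟩, by linarith, by linarith⟩
  · refine Real.sqrt_pos.2 ?_
    rw [hD2]
    positivity
  · rw [Real.sq_sqrt (by rw [hD2]; positivity), hD2]
    have : (1 - n) ^ 2 ≤ 1 ^ 2 := pow_le_pow_left₀ (by linarith) (by linarith) 2
    linarith
  · -- w x ≥ 46.32
    have a1 : r * δ ≤ 10771 / 10000 * x := by
      refine le_of_sq_le_sq ?_ (by positivity)
      have a2 : n ^ 2 ≤ (2 / 5 * x) ^ 2 := pow_le_pow_left₀ n0 hT 2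
      have a3 : (r * δ) ^ 2 ≤ x ^ 2 + n ^ 2 := by
        rw [hsq]
        have e : (-n) ^ 2 = n ^ 2 := by ring
        rw [e]
        linarith
      have a4 : 0 ≤ x ^ 2 := sq_nonneg x
      have e1 : (10771 / 10000 * x) ^ 2 = (10771 / 10000) ^ 2 * x ^ 2 := by ring
      have e2 : (2 / 5 * x) ^ 2 = (2 / 5) ^ 2 * x ^ 2 := by ring
      rw [e1]
      rw [e2] at a2
      norm_num
      norm_num at a2
      linarith
    have a5 : 1 / δ * (r * δ) = r := by
      field_simp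
    have a6 := mul_le_mul_of_nonneg_left a1 (by positivity : 0 ≤ 1 / δ)
    rw [a5] at a6
    linarith

/-- the data on the side `y ≥ 0` -/
theorem posD_of {r δ y η p : ℝ} (hR : Reg2 r δ) (hA : At r δ y η) (hS : Sad2 r δ y) (y0 : 0 ≤ y)
    (hη : |η| ≤ p) (hp : p ≤ 20421 / 10000) :
    PosD (sx (r * δ) y) y (1 / δ) (√(sD2 (r * δ) y)) p ∧ sx (r * δ) y * (1 + y) ≤ r * δ := by
  have hr := hR.r0
  have hδ := hR.d0
  have hρ := hR.rho
  have y1 := hS.hi
  have hT := hS.T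
  rw [abs_of_nonneg y0] at hT
  obtain ⟨x, hx⟩ : ∃ x, x = sx (r * δ) y := ⟨_, rfl⟩
  have hx0 : 0 ≤ x := by
    rw [hx]
    exact sx_nonneg _ _
  have hD2 : sD2 (r * δ) y = (1 + y) ^ 2 + x ^ 2 := by
    unfold sD2
    rw [← hx]
  have hD5 := hS.D
  rw [hD2] at hD5
  rw [← hx] at hT
  have hx1 : 3 / 2 ≤ x := by
    refine le_of_sq_le_sq ?_ hx0
    have : (1 + y) ^ 2 ≤ (1 + 13 / 20) ^ 2 := pow_le_pow_left₀ (by linarith) (by linarith) 2
    norm_num at this ⊢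
    linarith
  have hat := at_pos hA y0 (by rw [← hx]; linarith)
  rw [← hx] at hat
  obtain ⟨h1, h2, h3⟩ := hat
  have hηp : η ≤ p := (le_abs_self η).trans hη
  have hxy : x * (1 + y) ≤ x * exp y :=
    mul_le_mul_of_nonneg_left (by linarith [add_one_le_exp y]) hx0
  rw [← hx]
  refine ⟨⟨hx1, y0, y1, hT, ?_, ?_, h3.trans hηp, by positivity, ?_⟩, by linarith⟩
  · refine Real.sqrt_pos.2 ?_
    rw [hD2]
    positivity
  · rw [Real.sq_sqrt (by rw [hD2]; positivity), hD2]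
  · have a5 : 1 / δ * (r * δ) = r := by
      field_simp
    have a6 := mul_le_mul_of_nonneg_left (by linarith : r * δ ≤ x + 20421 / 10000)
      (by positivity : 0 ≤ 1 / δ)
    rw [a5] at a6
    linarith

/-- the sum of the two lumps -/
theorem tS_le {r δ y η : ℝ} (hR : Reg2 r δ) (hA : At r δ y η) (hS : Sad2 r δ y)
    (h : |η| ≤ 3927 / 2500 ∨ (10 ≤ Gm 2 r δ ∧ |η| ≤ 20421 / 10000)) :
    tS r δ y ≤ 162 / 10000 * sG r δ y := by
  have hδ := hR.d0
  have w1 : 5471 / 10000 * (r * δ) ≤ 1 / δ ∧ 52249 / 10000 ≤ 1 / δ :=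
    w_ge hR hR.G (by norm_num) (by norm_num) (by norm_num) (by norm_num)
  obtain ⟨w1a, w1b⟩ := w1
  rw [sG_eq hδ]
  unfold tS
  rcases le_total 0 y with hy | hy
  · rcases h with h | ⟨hG, h⟩
    · obtain ⟨H, h1⟩ := posD_of hR hA hS hy h (by norm_num)
      exact pos1 H (by linarith) w1b
    · obtain ⟨H, h1⟩ := posD_of hR hA hS hy h le_rfl
      obtain ⟨w2a, w2b⟩ : 2533 / 2500 * (r * δ) ≤ 1 / δ ∧ 4444 / 625 ≤ 1 / δ :=
        w_ge hR hG (by norm_num) (by norm_num) (by norm_num) (by norm_num)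
      exact pos2 H (by linarith) w2b
  · obtain ⟨n, hn⟩ : ∃ n, n = -y := ⟨_, rfl⟩
    have hyn : y = -n := by rw [hn, neg_neg]
    have n0 : 0 ≤ n := by linarith
    rw [hyn] at hA hS ⊢
    rw [neg_neg]
    rcases h with h | ⟨hG, h⟩
    · obtain ⟨H, h1, h2⟩ := negD_of hR hA hS n0 h
      exact neg1 H (by linarith) (by linarith) w1b
    · obtain ⟨H, h1, h2⟩ := negD_of hR hA hS n0 h
      obtain ⟨w2a, w2b⟩ : 2533 / 2500 * (r * δ) ≤ 1 / δ ∧ 4444 / 625 ≤ 1 / δ :=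
        w_ge hR hG (by norm_num) (by norm_num) (by norm_num) (by norm_num)
      exact neg2 H (by linarith) (by linarith) w2b

theorem eo2_le {r δ : ℝ} (hR : Reg2 r δ) (hG : 10 ≤ Gm 2 r δ) : eo2 r δ ≤ 20421 / 10000 := by
  have hpi := pi_lt_d4
  rcases eo2_cases hR with ⟨h, _, _⟩ | ⟨_, _, h⟩ | ⟨_, _, h⟩
  · linarith
  · rw [h]
    linarith
  · rw [h]
    linarith

/-- PIECE A -/
theorem pTA : PTA := by
  intro r δ y η hR hA hS hη h
  refine tS_le hR hA hS ?_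
  rcases h with h | h
  · left
    rw [hst_two] at h
    have := pi_lt_d4
    linarith
  · right
    exact ⟨by linarith, hη.trans (eo2_le hR (by linarith))⟩

/-- PIECE B -/
theorem pTB : PTB := by
  intro r δ y η hR hA hS hη h10 _
  have h := tS_le hR hA hS (Or.inr ⟨h10, hη.trans (eo2_le hR h10)⟩)
  have h2 : 0 ≤ sG r δ y := Real.sqrt_nonneg _
  linarith

end SokalT2
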