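import Pool.Agent.Lib_MP_af4de1_v3.T2C
import Pool.Agent.Lib_MP_af4de1_v3.T2EvB

/-!
# `N = 2`: `PTB` (`10 ≤ Γ < 20`)
-/

set_option autoImplicit false

open Complex MeasureTheory Set SokalU SokalPG SokalF1 SokalF1S SokalF1M SokalF1G SokalF1B

namespace SokalV3

/-! ### general pieces -/

/-- side `ε = 1`, the factor `e^a` kept -/
theorem b_lump_pos {x v w D κ l q1 M cm K L Q : ℝ} (hx : 112 / 25 ≤ x) (hw : 0 < w) (hQ : 0 ≤ Q)
    (hD0 : 0 < D) (hc : (1 + x)⁻¹ ≤ cm) (hcm : cm < 1)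
    (hq1 : 0 < q1) (hq : q1 * x ≤ 473 / 1000 * x - 134 / 1000 * |v|)
    (hm : tm 1 x v ^ 2 ≤ M * ta x ^ 2 * Real.exp (ta x)) (hM : 0 ≤ M)
    (hκ1 : 1 < κ) (hκ : κ ≤ (κ - 1) * (w * (q1 * x))) (hD : D ≤ 2 * l * (q1 * x))
    (hK : κ * (300304 / 10000) * M ≤ K * (4 * q1 * (1 - cm)))
    (hF : L ≤ w * ((1 + x)⁻¹ * (194166 / 10000 - 124127 / 10000 * (1 + x)⁻¹ -
      (101484 / 10000 + K) * (1 + x)⁻¹ ^ 2 - 11845 / 1000 * (1 + x)⁻¹ ^ 3) - 2 * Real.pi * v) +
      137 / 50 * (1 + x)⁻¹)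
    (hL : κ * l * Real.exp (-(2 * L)) ≤ Q ^ 2) :
    tP 1 x v w ≤ Q * √(2 * Real.pi / (w * D)) := by
  have hx0 : 0 < x := by linarith
  have hx1 : 0 < 1 + x := by linarith
  have ht := ta_eq hx
  have hH := tH_pos_ge (v := v) hx
  set c := (1 + x)⁻¹ with hcd
  have hc0 : 0 < c := inv_pos.2 hx1
  have hxc : x * c = 1 - c := by
    have : (1 + x) * c = 1 := mul_inv_cancel₀ hx1.ne'
    linarith
  set q := 473 / 1000 * x - 134 / 1000 * |v| with hqd
  have hq0 : 0 < q := lt_of_lt_of_le (by positivity) hq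
  have hl : 0 < l := by
    by_contra hl
    push Not at hl
    have : 2 * l * (q1 * x) ≤ 0 := mul_nonpos_of_nonpos_of_nonneg (by linarith) (by positivity)
    linarith
  have hμ : tμ 1 x v = Real.exp (ta x) * q := by
    unfold tμ
    rw [one_mul, ← hqd]
  have hta : 0 ≤ ta x := by rw [ht]; positivity
  have he1 : 1 ≤ Real.exp (ta x) := Real.one_le_exp hta
  have hμq : q ≤ tμ 1 x v := by
    rw [hμ]
    calc q = 1 * q := (one_mul q).symm
      _ ≤ _ := mul_le_mul_of_nonneg_right he1 hq0.le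
  have hμ0 : 0 < tμ 1 x v := by rw [hμ]; positivity
  refine tP_le (κ := κ) (l := l) (L := L) hw hQ hD0 hq0 hκ1 ?_ ?_ ?_ hL
  · refine hκ.trans ?_
    have : 0 < κ - 1 := by linarith
    have := hq.trans hμq
    gcongr
  · refine hD.trans ?_
    gcongr
  · have h1 : κ * tm 1 x v ^ 2 / (4 * tμ 1 x v) ≤ K * c ^ 3 := by
      rw [div_le_iff₀ (by positivity)]
      have h2 : κ * tm 1 x v ^ 2 ≤ κ * (M * ta x ^ 2 * Real.exp (ta x)) := by gcongr
      have h3 : κ * (M * ta x ^ 2 * Real.exp (ta x)) =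
          κ * (300304 / 10000) * M * c ^ 2 * Real.exp (ta x) := by
        have e1 : ta x ^ 2 = 300304 / 10000 * c ^ 2 := by
          rw [ht]
          ring
        rw [e1]
        ring
      have hK0 : 0 ≤ K := by
        by_contra hK0
        push Not at hK0
        have h5 : K * (4 * q1 * (1 - cm)) < 0 :=
          mul_neg_of_neg_of_pos hK0 (by have : 0 < 1 - cm := by linarith
                                        positivity)
        have h6 : 0 ≤ κ * (300304 / 10000) * M := by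
          have : 0 < κ := by linarith
          positivity
        linarith
      have h5 : K * (4 * q1 * (1 - cm)) ≤ K * (4 * q1 * (1 - c)) := by gcongr
      have h6 : κ * (300304 / 10000) * M * c ^ 2 * Real.exp (ta x) ≤
          K * c ^ 3 * (4 * tμ 1 x v) := by
        calc κ * (300304 / 10000) * M * c ^ 2 * Real.exp (ta x) ≤
              (K * (4 * q1 * (1 - c))) * c ^ 2 * Real.exp (ta x) := by
              have := hK.trans h5
              gcongr
          _ = K * c ^ 3 * (4 * (Real.exp (ta x) * (q1 * x))) := by rw [← hxc]; ring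
          _ ≤ K * c ^ 3 * (4 * tμ 1 x v) := by
              rw [hμ]
              gcongr
      linarith
    have h2 : w * (c * (194166 / 10000 - 124127 / 10000 * c - (101484 / 10000 + K) * c ^ 2 -
        11845 / 1000 * c ^ 3) - 2 * Real.pi * v) ≤
        w * (tH 1 x v - κ * tm 1 x v ^ 2 / (4 * tμ 1 x v)) := by
      refine mul_le_mul_of_nonneg_left ?_ hw.le
      have e : c * (194166 / 10000 - 124127 / 10000 * c - (101484 / 10000 + K) * c ^ 2 -
          11845 / 1000 * c ^ 3) =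
        c * (194166 / 10000 - 124127 / 10000 * c - 101484 / 10000 * c ^ 2 - 11845 / 1000 * c ^ 3) -
          K * c ^ 3 := by ring
      linarith
    rw [ht]
    linarith

theorem b_neg_red {w w0 c C n N k3 cm L : ℝ} (hw : w0 ≤ w) (hw0 : 1 ≤ w0) (hC0 : 0 < C) (hC : C ≤ c)
    (hcm : c ≤ cm) (hk0 : 0 ≤ k3) (hk : 3 / 2 * k3 * cm ≤ 424429 / 10000) (hN : 0 ≤ N) (hn : n ≤ N)
    (hL : 0 ≤ L)
    (h : L ≤ w0 * (C * (194166 / 10000 + 424429 / 10000 * C - k3 * C ^ 2) -
      628319 / 100000 * N) - 137 / 50 * C) :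
    L ≤ w * (c * (194166 / 10000 + 424429 / 10000 * c - k3 * c ^ 2) - 2 * Real.pi * n) -
      137 / 50 * c := by
  have hpi : Real.pi ≤ 3141593 / 1000000 := by
    have := Real.pi_lt_d6
    norm_num at this ⊢
    linarith
  have hpi0 := Real.pi_pos
  have h1 : 2 * Real.pi * n ≤ 628319 / 100000 * N := by
    calc 2 * Real.pi * n ≤ 2 * Real.pi * N := by gcongr
      _ ≤ 2 * (3141593 / 1000000) * N := by gcongr
      _ ≤ 628319 / 100000 * N := by linarith
  set X0 := C * (194166 / 10000 + 424429 / 10000 * C - k3 * C ^ 2) - 628319 / 100000 * N with hX0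
  set X := c * (194166 / 10000 + 424429 / 10000 * c - k3 * c ^ 2) - 2 * Real.pi * n with hX
  have h2 : 194166 / 10000 * (c - C) ≤ X - X0 := by
    have h3 : 0 ≤ (c - C) * (424429 / 10000 * (c + C) - k3 * (c ^ 2 + c * C + C ^ 2)) := by
      have h4 : 0 ≤ c - C := by linarith
      have h5 : 0 ≤ c + C := by linarith
      have h6 : c ^ 2 + c * C + C ^ 2 ≤ 3 / 2 * cm * (c + C) := by
        have h7 : c ^ 2 + c * C + C ^ 2 ≤ 3 / 2 * c * (c + C) := by nlinarith
        have h8 : 3 / 2 * c * (c + C) ≤ 3 / 2 * cm * (c + C) := by gcongr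
        linarith
      have h7 : k3 * (c ^ 2 + c * C + C ^ 2) ≤ k3 * (3 / 2 * cm * (c + C)) := by gcongr
      have h8 : k3 * (3 / 2 * cm * (c + C)) ≤ 424429 / 10000 * (c + C) := by
        calc k3 * (3 / 2 * cm * (c + C)) = 3 / 2 * k3 * cm * (c + C) := by ring
          _ ≤ 424429 / 10000 * (c + C) := by gcongr
      exact mul_nonneg h4 (by linarith)
    have e : X - X0 = 194166 / 10000 * (c - C) +
        (c - C) * (424429 / 10000 * (c + C) - k3 * (c ^ 2 + c * C + C ^ 2)) +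
        (628319 / 100000 * N - 2 * Real.pi * n) := by
      rw [hX, hX0]
      ring
    linarith
  have h3 : 0 < w0 * X0 := by linarith
  have h4 : 0 < X0 := by
    by_contra h5
    push Not at h5
    have := mul_nonpos_of_nonneg_of_nonpos (by linarith : 0 ≤ w0) h5
    linarith
  have h5 : 0 ≤ X := by linarith
  have h6 : w0 * X ≤ w * X := mul_le_mul_of_nonneg_right hw h5
  have h7 : w0 * (194166 / 10000 * (c - C)) ≤ w0 * (X - X0) :=
    mul_le_mul_of_nonneg_left h2 (by linarith)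
  have h8 : 1 * (194166 / 10000 * (c - C)) ≤ w0 * (194166 / 10000 * (c - C)) := by
    have : 0 ≤ c - C := by linarith
    gcongr
  linarith

theorem b_n_le {n ρ : ℝ} (hρ : 0 < ρ) (hn : Real.exp n ≤ 1 + 2043 / 1000 / ρ) :
    n ≤ 2043 / 1000 / ρ - (2043 / 1000 / ρ) ^ 2 / 2 + (2043 / 1000 / ρ) ^ 3 / 3 :=
  le_log3 (by positivity) hn

theorem b_n_le' {n ρ ρ0 : ℝ} (hρ0 : 0 < ρ0) (hρ : ρ0 ≤ ρ) (hn : Real.exp n ≤ 1 + 2043 / 1000 / ρ) :
    n ≤ 2043 / 1000 / ρ0 - (2043 / 1000 / ρ0) ^ 2 / 2 + (2043 / 1000 / ρ0) ^ 3 / 3 := by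
  refine le_log3 (by positivity) (hn.trans ?_)
  gcongr

theorem b_eo2_le {r δ : ℝ} (hG : 10 ≤ Gm 2 r δ) : eo2 r δ ≤ 2043 / 1000 := by
  unfold eo2
  rw [own2_hst]
  have h1 : om2 r δ ≤ 15 / 100 := by
    unfold om2
    split_ifs <;> linarith
  have h2 := Real.pi_lt_d4
  have h3 := Real.pi_pos
  norm_num at h2
  nlinarith

/-! ### `y ≤ 0` -/

/-- `y ≤ 0`, the lump of the side `ε = -1` -/
theorem b_neg1 {x n ρ w D : ℝ} (hρ : 485 / 100 ≤ ρ) (h1 : ρ ≤ x) (h2 : x ≤ ρ + 2043 / 1000)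
    (hn0 : 0 ≤ n) (hn : Real.exp n ≤ 1 + 2043 / 1000 / ρ)
    (hw1 : 10132 / 10000 * (ρ + 1 / ρ) ≤ w) (hw2 : 499 / 10 / ρ ≤ w)
    (hD0 : 0 < D) (hD : D ^ 2 ≤ 1 + x ^ 2) :
    tP (-1) x n w ≤ 248 / 10000 * √(2 * Real.pi / (w * D)) := by
  have hρ0 : 0 < ρ := by linarith
  have hw0 : 0 < w := lt_of_lt_of_le (by positivity) hw2
  have hwρ : 499 / 10 ≤ w * ρ := by rwa [div_le_iff₀ hρ0] at hw2
  have hn1 : n ≤ 3575 / 10000 := by
    refine (b_n_le' (by norm_num) hρ hn).trans ?_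
    norm_num
  have hna : |n| = n := abs_of_nonneg hn0
  have hx : 485 / 100 ≤ x := by linarith
  have hq : 4631 / 10000 * x ≤ 473 / 1000 * x - 134 / 1000 * |n| := by rw [hna]; linarith
  have hx1 : 0 < 1 + x := by linarith
  have hcm : (1 + x)⁻¹ ≤ 171 / 1000 := by
    rw [inv_le_comm₀ hx1 (by norm_num)]
    norm_num
    linarith
  have hC : (ρ + 3043 / 1000)⁻¹ ≤ (1 + x)⁻¹ := by
    apply inv_anti₀ hx1
    linarith
  refine lump_neg (κ := 1125 / 1000) (l := 11025 / 10000) (q1 := 4631 / 10000) (E := 2553 / 1000)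
    (M := 1) (cm := 171 / 1000) (K := 561961 / 10000) (L := 3805 / 1000) (by linarith)
    hw0
    (by norm_num) hD0 hcm (by norm_num) ?_ (by norm_num) hq (tm_neg_sq (by linarith) hn0 (by linarith))
    (by norm_num) (by norm_num) ?_ ?_ (by norm_num) ?_ ?_
  · refine (exp_five (by norm_num) (by norm_num)).trans ?_
    norm_num
  · have h5 : w * ρ ≤ w * x := by gcongr
    norm_num at h5 ⊢
    linarith
  · refine (t2c_D (x0 := 485 / 100) (T := 2 * (11025 / 10000) * (4631 / 10000)) (by norm_num) hx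
      (by norm_num) hD (by norm_num)).trans (le_of_eq (by ring))
  · have e3 : (650039 / 10000 + 561961 / 10000 : ℝ) = 606 / 5 := by norm_num
    rw [e3]
    rcases le_total (69 / 10) ρ with h95 | h95
    · refine b_neg_red (w0 := 10132 / 10000 * (ρ + 1 / ρ)) hw1 ?_ (by positivity) hC
        hcm (by norm_num) (by norm_num) ?_ (b_n_le hρ0 hn) (by norm_num) ?_
      · have : 0 < 1 / ρ := by positivity
        linarith
      · exact hn0.trans (b_n_le hρ0 hn)
      · refine le_trans (by norm_num) (ev_bn1 (by linarith))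
    · refine b_neg_red (w0 := 499 / 10 / ρ) hw2 ?_ (by positivity) hC
        hcm (by norm_num) (by norm_num) ?_ (b_n_le hρ0 hn) (by norm_num) ?_
      · rw [le_div_iff₀ hρ0]
        linarith
      · exact hn0.trans (b_n_le hρ0 hn)
      · refine le_trans (by norm_num) (ev_bn2 (by linarith) (by linarith))
  · have h6 := exp_neg_le_of (k := 7) (t := 61 / 100) (L := 3805 / 1000)
      (A := 201800 / 100) (by norm_num) (by norm_num) (by norm_num) (by norm_num)
    calc 1125 / 1000 * (11025 / 10000) * Real.exp (-(2 * (3805 / 1000))) ≤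
        1125 / 1000 * (11025 / 10000) * (1 / (201800 / 100)) := by gcongr
      _ ≤ (248 / 10000) ^ 2 := by norm_num

/-- `y ≤ 0`, the lump of the side `ε = 1` -/
theorem b_neg3 {x n ρ w D : ℝ} (hρ : 485 / 100 ≤ ρ) (h1 : ρ ≤ x) (h2 : x ≤ ρ + 2043 / 1000)
    (hn0 : 0 ≤ n) (hn : Real.exp n ≤ 1 + 2043 / 1000 / ρ)
    (hw1 : 10132 / 10000 * (ρ + 1 / ρ) ≤ w) (hw2 : 499 / 10 / ρ ≤ w)
    (hD0 : 0 < D) (hD : D ^ 2 ≤ 1 + x ^ 2) :
    tP 1 x (-n) w ≤ 1 / 1000 * √(2 * Real.pi / (w * D)) := by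
  have hρ0 : 0 < ρ := by linarith
  have hw0 : 0 < w := lt_of_lt_of_le (by positivity) hw2
  have hwρ : 499 / 10 ≤ w * ρ := by rwa [div_le_iff₀ hρ0] at hw2
  have hn1 : n ≤ 3575 / 10000 := by
    refine (b_n_le' (by norm_num) hρ hn).trans ?_
    norm_num
  have hna : |-n| = n := by rw [abs_neg, abs_of_nonneg hn0]
  have hx : 485 / 100 ≤ x := by linarith
  have hq : 4631 / 10000 * x ≤ 473 / 1000 * x - 134 / 1000 * |-n| := by rw [hna]; linarith
  have hx1 : 0 < 1 + x := by linarith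
  have hcm : (1 + x)⁻¹ ≤ 171 / 1000 := by
    rw [inv_le_comm₀ hx1 (by norm_num)]
    norm_num
    linarith
  have hta : ta x ≤ 1 := by
    rw [ta_eq (by linarith)]
    linarith
  have hc0 : 0 < (1 + x)⁻¹ := inv_pos.2 hx1
  refine lump_pos (κ := 105 / 100) (l := 11025 / 10000) (q1 := 4631 / 10000)
    (M := 1) (cm := 171 / 1000) (K := 206 / 10) (L := 7) (by linarith) hw0
    (by norm_num) hD0 hcm (by norm_num) (by norm_num) hq
    (tm_pos_sq' (by linarith) hn0 (by linarith) hta)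
    (by norm_num) (by norm_num) ?_ ?_ (by norm_num) ?_ ?_
  · have h5 : w * ρ ≤ w * x := by gcongr
    norm_num at h5 ⊢
    linarith
  · refine (t2c_D (x0 := 485 / 100) (T := 2 * (11025 / 10000) * (4631 / 10000)) (by norm_num) hx
      (by norm_num) hD (by norm_num)).trans (le_of_eq (by ring))
  · have hwc : 6 / 10 ≤ w * (1 + x)⁻¹ := by
      rw [← div_eq_mul_inv, le_div_iff₀ hx1]
      have h6 : 6 / 10 * (1 + x) ≤ 6 / 10 * (ρ + 3043 / 1000) := by linarith
      refine h6.trans (le_trans ?_ hw1)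
      have : 0 < 1 / ρ := by positivity
      linarith
    have h8 : 1633 / 100 ≤ 194166 / 10000 - 124127 / 10000 * (1 + x)⁻¹ -
      (101484 / 10000 + 206 / 10) * (1 + x)⁻¹ ^ 2 - 11845 / 1000 * (1 + x)⁻¹ ^ 3 := by
      have h9 : (1 + x)⁻¹ ^ 2 ≤ (171 / 1000) ^ 2 := by gcongr
      have h10 : (1 + x)⁻¹ ^ 3 ≤ (171 / 1000) ^ 3 := by gcongr
      norm_num at h9 h10 ⊢
      linarith
    have h12 : 6 / 10 * (1633 / 100) ≤ w * (1 + x)⁻¹ * (194166 / 10000 - 124127 / 10000 *
      (1 + x)⁻¹ - (101484 / 10000 + 206 / 10) * (1 + x)⁻¹ ^ 2 - 11845 / 1000 * (1 + x)⁻¹ ^ 3) :=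
      mul_le_mul hwc h8 (by norm_num) (by positivity)
    have h13 : 0 ≤ w * (2 * Real.pi * n) := by
      have := Real.pi_pos
      positivity
    have e : w * ((1 + x)⁻¹ * (194166 / 10000 - 124127 / 10000 * (1 + x)⁻¹ -
        (101484 / 10000 + 206 / 10) * (1 + x)⁻¹ ^ 2 - 11845 / 1000 * (1 + x)⁻¹ ^ 3) -
        2 * Real.pi * -n) = w * (1 + x)⁻¹ * (194166 / 10000 - 124127 / 10000 * (1 + x)⁻¹ -
        (101484 / 10000 + 206 / 10) * (1 + x)⁻¹ ^ 2 - 11845 / 1000 * (1 + x)⁻¹ ^ 3) +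
        w * (2 * Real.pi * n) := by ring
    rw [e]
    have h14 : (7 : ℝ) ≤ 6 / 10 * (1633 / 100) := by norm_num
    have h15 : 0 ≤ 137 / 50 * (1 + x)⁻¹ := by positivity
    linarith
  · have h6 := exp_neg_le_of (k := 14) (t := 0) (L := 7)
      (A := 1200000) (by norm_num) (by norm_num) (by norm_num) (by norm_num)
    calc 105 / 100 * (11025 / 10000) * Real.exp (-(2 * 7)) ≤
        105 / 100 * (11025 / 10000) * (1 / 1200000) := by gcongr
      _ ≤ (1 / 1000) ^ 2 := by norm_num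

/-! ### `y ≥ 0`, `x ≥ 112/25` -/

/-- the tilt, `ε = 1`, `y ≥ 0` -/
theorem b_tm_pos {x y : ℝ} (hx : 112 / 25 ≤ x) (h0 : 0 ≤ y) (hy : y ≤ 2043 / 1000 / x) :
    tm 1 x y ^ 2 ≤ 121 / 100 * ta x ^ 2 * Real.exp (ta x) := by
  have ht := ta_eq hx
  have hx0 : 0 < x := by linarith
  have hx1 : 0 < 1 + x := by linarith
  set c := (1 + x)⁻¹ with hcd
  have hc0 : 0 < c := inv_pos.2 hx1
  have hc25 : c ≤ 25 / 137 := by
    rw [hcd, inv_le_comm₀ hx1 (by norm_num)]
    norm_num
    linarith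
  set a := ta x with ha
  have ha0 : 0 ≤ a := by rw [ht]; positivity
  have ha1 : a ≤ 1 := by rw [ht]; linarith
  have hya : y ≤ 4561 / 10000 * a := by
    refine hy.trans ?_
    rw [ht, div_le_iff₀ hx0]
    have hxc : x * c = 1 - c := by
      have : (1 + x) * c = 1 := mul_inv_cancel₀ hx1.ne'
      linarith
    have : 4561 / 10000 * (137 / 25 * c) * x = 4561 / 10000 * (137 / 25) * (1 - c) := by
      rw [← hxc]
      ring
    rw [this]
    linarith
  set u := Real.exp (a / 2) with hu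
  have hu2 : Real.exp a = u ^ 2 := by
    rw [hu, ← Real.exp_nat_mul]
    congr 1
    push_cast
    ring
  have hu1 : 1 ≤ u := Real.one_le_exp (by linarith)
  have hu3 : u ≤ 16488 / 10000 := by
    refine abs_le_of_sq_le_sq' ?_ (by norm_num) |>.2
    rw [← hu2]
    have h1 : Real.exp a ≤ Real.exp 1 := Real.exp_le_exp.2 ha1
    have h2 := Real.exp_one_lt_d9
    norm_num at h2 ⊢
    linarith
  have e : tm 1 x y = a + y * (Real.exp a - 1) := by
    unfold tm
    rw [one_mul]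
    ring
  rw [e, hu2]
  have h3 : 0 ≤ u ^ 2 - 1 := by nlinarith
  have h4 : a + y * (u ^ 2 - 1) ≤ 11 / 10 * a * u := by
    have h5 : y * (u ^ 2 - 1) ≤ 4561 / 10000 * a * (u ^ 2 - 1) := by gcongr
    have h6 : 1 + 4561 / 10000 * (u ^ 2 - 1) ≤ 11 / 10 * u := by nlinarith
    have h7 := mul_le_mul_of_nonneg_left h6 ha0
    linarith
  have h5 : 0 ≤ a + y * (u ^ 2 - 1) := by positivity
  calc (a + y * (u ^ 2 - 1)) ^ 2 ≤ (11 / 10 * a * u) ^ 2 := by gcongr
    _ = 121 / 100 * a ^ 2 * u ^ 2 := by ring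

/-- `y ≥ 0`, the lump of the side `ε = 1` -/
theorem b_pos1 {x y ρ w D : ℝ} (hx : 112 / 25 ≤ x) (h1 : x ≤ ρ)
    (hy0 : 0 ≤ y) (hy : Real.exp y ≤ 1 + 2043 / 1000 / x)
    (hw1 : 10132 / 10000 * (ρ + 1 / ρ) ≤ w) (hw3 : 711 / 100 ≤ w)
    (hD0 : 0 < D) (hD : D ^ 2 ≤ (1 + y) ^ 2 + x ^ 2) :
    tP 1 x y w ≤ 248 / 10000 * √(2 * Real.pi / (w * D)) := by
  have hx0 : 0 < x := by linarith
  have hρ0 : 0 < ρ := by linarith
  have hyl := b_n_le hx0 hy
  have hy1 : y ≤ 3837 / 10000 := by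
    refine (b_n_le' (by norm_num) hx hy).trans ?_
    norm_num
  have hyx : y ≤ 2043 / 1000 / x := by
    have := Real.add_one_le_exp y
    linarith
  have hya : |y| = y := abs_of_nonneg hy0
  have hq : 4615 / 10000 * x ≤ 473 / 1000 * x - 134 / 1000 * |y| := by rw [hya]; linarith
  have hx1 : 0 < 1 + x := by linarith
  have hcm : (1 + x)⁻¹ ≤ 25 / 137 := by
    rw [inv_le_comm₀ hx1 (by norm_num)]
    norm_num
    linarith
  have hc0 : 0 < (1 + x)⁻¹ := inv_pos.2 hx1
  have hpi : Real.pi ≤ 3141593 / 1000000 := by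
    have := Real.pi_lt_d6
    norm_num at this ⊢
    linarith
  refine b_lump_pos (κ := 1074 / 1000) (l := 1134 / 1000) (q1 := 4615 / 10000)
    (M := 121 / 100) (cm := 25 / 137) (K := 261516 / 10000) (L := 3796 / 1000)
    hx (by linarith) (by norm_num) hD0 hcm (by norm_num) (by norm_num) hq
    (b_tm_pos hx hy0 hyx)
    (by norm_num) (by norm_num) ?_ ?_ (by norm_num) ?_ ?_
  · have h5 : 711 / 100 * (4615 / 10000 * (112 / 25)) ≤ w * (4615 / 10000 * x) := by gcongr
    norm_num at h5 ⊢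
    linarith
  · refine (t2c_D (x0 := 112 / 25) (T := 2 * (1134 / 1000) * (4615 / 10000)) (by norm_num) hx
      (by norm_num) hD ?_).trans (le_of_eq (by ring))
    calc (1 + y) ^ 2 ≤ (1 + 3837 / 10000) ^ 2 := by gcongr
      _ ≤ _ := by norm_num
  · have e3 : (101484 / 10000 + 261516 / 10000 : ℝ) = 363 / 10 := by norm_num
    rw [e3]
    have hl0 := hy0.trans hyl
    have hXY : (1 + x)⁻¹ * (194166 / 10000 - 124127 / 10000 * (1 + x)⁻¹ -
        363 / 10 * (1 + x)⁻¹ ^ 2 - 11845 / 1000 * (1 + x)⁻¹ ^ 3) - 628319 / 100000 *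
        (2043 / 1000 / x - (2043 / 1000 / x) ^ 2 / 2 + (2043 / 1000 / x) ^ 3 / 3) ≤
        (1 + x)⁻¹ * (194166 / 10000 - 124127 / 10000 * (1 + x)⁻¹ -
        363 / 10 * (1 + x)⁻¹ ^ 2 - 11845 / 1000 * (1 + x)⁻¹ ^ 3) - 2 * Real.pi * y := by
      have : 2 * Real.pi * y ≤ 628319 / 100000 *
          (2043 / 1000 / x - (2043 / 1000 / x) ^ 2 / 2 + (2043 / 1000 / x) ^ 3 / 3) := by
        calc 2 * Real.pi * y ≤ 2 * (3141593 / 1000000) * y := by gcongr
          _ ≤ 628319 / 100000 * y := by linarith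
          _ ≤ _ := by gcongr
      linarith
    have hcL : 137 / 50 * (1 + x)⁻¹ ≤ 3796 / 1000 := by linarith
    rcases le_total x 7 with h9 | h9
    · refine pos_red (w0 := 711 / 100) hw3 (by norm_num) hXY
        (le_trans (by norm_num) (ev_bp1 (by linarith) (by linarith))) hcL
    · refine pos_red (w0 := 10132 / 10000 * x) (le_trans ?_ hw1) (by positivity) hXY
        (le_trans (by norm_num) (ev_bp2 (by linarith))) hcL
      have : 0 < 1 / ρ := by positivity
      have : x ≤ ρ + 1 / ρ := by linarith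
      gcongr
  · have h6 := exp_neg_le_of (k := 7) (t := 592 / 1000) (L := 3796 / 1000)
      (A := 198200 / 100) (by norm_num) (by norm_num) (by norm_num) (by norm_num)
    calc 1074 / 1000 * (1134 / 1000) * Real.exp (-(2 * (3796 / 1000))) ≤
        1074 / 1000 * (1134 / 1000) * (1 / (198200 / 100)) := by gcongr
      _ ≤ (248 / 10000) ^ 2 := by norm_num

/-- `y ≥ 0`, the lump of the side `ε = -1` -/
theorem b_pos2 {x y ρ w D : ℝ} (hx : 112 / 25 ≤ x) (h1 : x ≤ ρ)
    (hy0 : 0 ≤ y) (hy : Real.exp y ≤ 1 + 2043 / 1000 / x)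
    (hw1 : 10132 / 10000 * (ρ + 1 / ρ) ≤ w) (hw3 : 711 / 100 ≤ w)
    (hD0 : 0 < D) (hD : D ^ 2 ≤ (1 + y) ^ 2 + x ^ 2) :
    tP (-1) x (-y) w ≤ 1 / 1000 * √(2 * Real.pi / (w * D)) := by
  have hx0 : 0 < x := by linarith
  have hρ0 : 0 < ρ := by linarith
  have hy1 : y ≤ 3837 / 10000 := by
    refine (b_n_le' (by norm_num) hx hy).trans ?_
    norm_num
  have hya : |-y| = y := by rw [abs_neg, abs_of_nonneg hy0]
  have hq : 4615 / 10000 * x ≤ 473 / 1000 * x - 134 / 1000 * |-y| := by rw [hya]; linarith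
  have hx1 : 0 < 1 + x := by linarith
  have hcm : (1 + x)⁻¹ ≤ 25 / 137 := by
    rw [inv_le_comm₀ hx1 (by norm_num)]
    norm_num
    linarith
  have hc0 : 0 < (1 + x)⁻¹ := inv_pos.2 hx1
  refine lump_neg (κ := 123 / 100) (l := 1134 / 1000) (q1 := 4615 / 10000) (E := 27184 / 10000)
    (M := 1915 / 1000) (cm := 25 / 137) (K := 128) (L := 8)
    hx (by linarith) (by norm_num) hD0 hcm (by norm_num) ?_ (by norm_num) hq
    (tm_neg_sq' hx hy0 ?_)
    (by norm_num) (by norm_num) ?_ ?_ (by norm_num) ?_ ?_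
  · refine (exp_five (by norm_num) (by norm_num)).trans ?_
    norm_num
  · calc (1 + y) ^ 2 ≤ (1 + 3837 / 10000) ^ 2 := by gcongr
      _ ≤ 1915 / 1000 := by norm_num
  · have h5 : 711 / 100 * (4615 / 10000 * (112 / 25)) ≤ w * (4615 / 10000 * x) := by gcongr
    norm_num at h5 ⊢
    linarith
  · refine (t2c_D (x0 := 112 / 25) (T := 2 * (1134 / 1000) * (4615 / 10000)) (by norm_num) hx
      (by norm_num) hD ?_).trans (le_of_eq (by ring))
    calc (1 + y) ^ 2 ≤ (1 + 3837 / 10000) ^ 2 := by gcongr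
      _ ≤ _ := by norm_num
  · have h8 : 194166 / 10000 ≤ 194166 / 10000 + 424429 / 10000 * (1 + x)⁻¹ -
        (650039 / 10000 + 128) * (1 + x)⁻¹ ^ 2 := by nlinarith
    have h9 : (1 + x)⁻¹ * (194166 / 10000) ≤ (1 + x)⁻¹ * (194166 / 10000 +
        424429 / 10000 * (1 + x)⁻¹ - (650039 / 10000 + 128) * (1 + x)⁻¹ ^ 2) := by gcongr
    have h10 : 0 ≤ 2 * Real.pi * y := by
      have := Real.pi_pos
      positivity
    have h11 : w * ((1 + x)⁻¹ * (194166 / 10000)) ≤ w * ((1 + x)⁻¹ * (194166 / 10000 +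
        424429 / 10000 * (1 + x)⁻¹ - (650039 / 10000 + 128) * (1 + x)⁻¹ ^ 2) -
        2 * Real.pi * -y) := by
      refine mul_le_mul_of_nonneg_left ?_ (by linarith)
      linarith
    have h12 : 8 ≤ (1 + x)⁻¹ * (194166 / 10000 * w - 137 / 50) := by
      have h13 : (1 + ρ)⁻¹ ≤ (1 + x)⁻¹ := by
        apply inv_anti₀ hx1
        linarith
      have h14 : 0 ≤ 194166 / 10000 * w - 137 / 50 := by linarith
      refine le_trans ?_ (mul_le_mul_of_nonneg_right h13 h14)
      rw [← div_eq_inv_mul, le_div_iff₀ (by linarith)]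
      rcases le_total (19 / 2) ρ with h95 | h95
      · have : 0 < 1 / ρ := by positivity
        linarith
      · linarith
    linarith
  · have h6 := exp_neg_le_of (k := 16) (t := 0) (L := 8)
      (A := 8000000) (by norm_num) (by norm_num) (by norm_num) (by norm_num)
    calc 123 / 100 * (1134 / 1000) * Real.exp (-(2 * 8)) ≤
        123 / 100 * (1134 / 1000) * (1 / 8000000) := by gcongr
      _ ≤ (1 / 1000) ^ 2 := by norm_num

/-! ### `y ≥ 0`, `x ≤ 112/25`: the corner is at `1 + x`, `a = 1` -/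

theorem b_ta_one {x : ℝ} (hx0 : 0 < x) (hx : x ≤ 112 / 25) : ta x = 1 := by
  unfold ta ts
  rw [min_eq_right (by linarith)]
  exact inv_mul_cancel₀ (by linarith)

/-- `log (1 + 2.043/x) ≤ A + B/x` -/
theorem b_y_le {x y : ℝ} (hx0 : 0 < x) (hy : Real.exp y ≤ 1 + 2043 / 1000 / x) :
    y ≤ 913 / 10000 + 12901 / 10000 / x := by
  have h1 : y ≤ Real.log (1 + 2043 / 1000 / x) := by
    rw [Real.le_log_iff_exp_le (by positivity)]
    exact hy
  refine h1.trans ?_
  have h2 : (5543 / 3500 : ℝ) ≤ Real.exp (4598 / 10000) := by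
    have h3 := Real.sum_le_exp_of_nonneg (x := 4598 / 10000) (by norm_num) 7
    simp only [Finset.sum_range_succ, Finset.sum_range_zero, Nat.factorial] at h3
    norm_num at h3 ⊢
    linarith
  have h4 : Real.log (5543 / 3500) ≤ 4598 / 10000 := by
    rw [Real.log_le_iff_le_exp (by norm_num)]
    exact h2
  have e : (1 + 2043 / 1000 / x) = (5543 / 3500) *
      (3500 / 5543 + 3500 / 5543 * (2043 / 1000) * (1 / x)) := by
    field_simp
  have h5 := Real.log_le_sub_one_of_pos (x := 3500 / 5543 + 3500 / 5543 * (2043 / 1000) * (1 / x))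
    (by positivity)
  have h6 : 0 < 1 / x := by positivity
  have e2 : (12901 / 10000 / x : ℝ) = 12901 / 10000 * (1 / x) := by ring
  rw [e, Real.log_mul (by norm_num) (by positivity), e2]
  linarith

/-- `y ≥ 0`, `x ≤ 112/25`, the lump of the side `ε = 1` -/
theorem b_pos3 {x y ρ w D : ℝ} (hx : 2807 / 1000 ≤ x) (hx2 : x ≤ 112 / 25) (h0 : 0 < ρ)
    (h2 : ρ ≤ x + 2043 / 1000)
    (hy0 : 0 ≤ y) (hy : Real.exp y ≤ 1 + 2043 / 1000 / x)
    (hw2 : 499 / 10 / ρ ≤ w)
    (hD0 : 0 < D) (hD : D ^ 2 ≤ (1 + y) ^ 2 + x ^ 2) :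
    tP 1 x y w ≤ 248 / 10000 * √(2 * Real.pi / (w * D)) := by
  have hx0 : 0 < x := by linarith
  have hyl := b_y_le hx0 hy
  have hw0 : 0 < w := lt_of_lt_of_le (by positivity) hw2
  have hwx : 499 / 10 ≤ w * (x + 2043 / 1000) := by
    rw [div_le_iff₀ h0] at hw2
    refine hw2.trans ?_
    gcongr
  have hx1 : 1 / x ≤ 1 / (2807 / 1000) := by gcongr
  have hxp : 0 < 1 / x := by positivity
  have e2 : (12901 / 10000 / x : ℝ) = 12901 / 10000 * (1 / x) := by ring
  have hy1 : y ≤ 551 / 1000 := by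
    rw [e2] at hyl
    norm_num at hx1 hyl ⊢
    linarith
  have hya : |y| = y := abs_of_nonneg hy0
  have hta := b_ta_one hx0 hx2
  have hqx : 4466 / 10000 * x ≤ 473 / 1000 * x - 134 / 1000 * |y| := by rw [hya]; linarith
  have hq0 : 0 < 473 / 1000 * x - 134 / 1000 * |y| := lt_of_lt_of_le (by positivity) hqx
  have he1 := Real.exp_one_gt_d9
  have he2 := Real.exp_one_lt_d9
  have hμ : tμ 1 x y = Real.exp 1 * (473 / 1000 * x - 134 / 1000 * |y|) := by
    unfold tμ
    rw [hta, one_mul]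
  have hμ1 : 12139 / 10000 * x ≤ tμ 1 x y := by
    rw [hμ]
    calc 12139 / 10000 * x ≤ 27182 / 10000 * (4466 / 10000 * x) := by linarith
      _ ≤ Real.exp 1 * (473 / 1000 * x - 134 / 1000 * |y|) := by
          have : (27182 / 10000 : ℝ) ≤ Real.exp 1 := by
            norm_num at he1 ⊢
            linarith
          gcongr
  have hμ0 : 0 < tμ 1 x y := lt_of_lt_of_le (by positivity) hμ1
  have hm : tm 1 x y = 1 + (Real.exp 1 - 1) * y := by
    unfold tm
    rw [hta, one_mul]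
    ring
  have hm1 : tm 1 x y ≤ 1947 / 1000 := by
    rw [hm]
    have : Real.exp 1 - 1 ≤ 17183 / 10000 := by
      norm_num at he2 ⊢
      linarith
    calc 1 + (Real.exp 1 - 1) * y ≤ 1 + 17183 / 10000 * (551 / 1000) := by gcongr
      _ ≤ 1947 / 1000 := by norm_num
  have hm0 : 0 ≤ tm 1 x y := by
    rw [hm]
    have : 0 ≤ Real.exp 1 - 1 := by linarith
    positivity
  have hH : tH 1 x y = 2 * Real.pi * (1 - y) - x * (Real.exp 1 - 2) := by
    unfold tH
    rw [hta, one_mul]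
    ring
  refine tP_le (κ := 105 / 100) (l := 128 / 100) (L := 3845 / 1000) hw0 (by norm_num) hD0 hq0
    (by norm_num) ?_ ?_ ?_ ?_
  · -- `w μ ≥ 21`
    have h5 : 499 / 10 * (12139 / 10000) * x ≤ w * tμ 1 x y * (x + 2043 / 1000) := by
      calc 499 / 10 * (12139 / 10000) * x = 499 / 10 * (12139 / 10000 * x) := by ring
        _ ≤ w * (x + 2043 / 1000) * tμ 1 x y := by gcongr
        _ = _ := by ring
    have h6 : 21 * (x + 2043 / 1000) ≤ 499 / 10 * (12139 / 10000) * x := by linarith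
    have h7 : 21 ≤ w * tμ 1 x y := by
      have : 21 * (x + 2043 / 1000) ≤ w * tμ 1 x y * (x + 2043 / 1000) := h6.trans h5
      exact le_of_mul_le_mul_right this (by linarith)
    linarith
  · have h5 : D ≤ 2 * (128 / 100) * (4466 / 10000 * x) := by
      refine (t2c_D (x0 := 2807 / 1000) (T := 2 * (128 / 100) * (4466 / 10000)) (by norm_num) hx
        (by norm_num) hD ?_).trans (le_of_eq (by ring))
      calc (1 + y) ^ 2 ≤ (1 + 551 / 1000) ^ 2 := by gcongr
        _ ≤ _ := by norm_num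
    refine h5.trans ?_
    gcongr
  · rw [hta]
    -- `κ m²/(4μ) ≤ (82/100)/x`
    have h5 : 105 / 100 * tm 1 x y ^ 2 / (4 * tμ 1 x y) ≤ 82 / 100 * (1 / x) := by
      rw [div_le_iff₀ (by positivity)]
      have h6 : tm 1 x y ^ 2 ≤ (1947 / 1000) ^ 2 := by gcongr
      have h7 : 82 / 100 * (1 / x) * (4 * (12139 / 10000 * x)) ≤
          82 / 100 * (1 / x) * (4 * tμ 1 x y) := by gcongr
      have h8 : 82 / 100 * (1 / x) * (4 * (12139 / 10000 * x)) =
          82 / 100 * (4 * (12139 / 10000)) := by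
        field_simp
      rw [h8] at h7
      norm_num at h6 h7 ⊢
      linarith
    -- the height
    have h9 : 628318 / 100000 * (1 - (913 / 10000 + 12901 / 10000 / x)) - 71829 / 100000 * x ≤
        tH 1 x y := by
      rw [hH]
      have h10 : x * (Real.exp 1 - 2) ≤ x * (71829 / 100000) := by
        have : Real.exp 1 - 2 ≤ 71829 / 100000 := by
          norm_num at he2 ⊢
          linarith
        gcongr
      have h11 : (314159 / 100000 : ℝ) ≤ Real.pi := by
        have := Real.pi_gt_d6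
        norm_num at this ⊢
        linarith
      have h12 : 628318 / 100000 * (1 - (913 / 10000 + 12901 / 10000 / x)) ≤
          628318 / 100000 * (1 - y) := by gcongr
      have h13 : 628318 / 100000 * (1 - y) ≤ 2 * Real.pi * (1 - y) := by
        have : 0 ≤ 1 - y := by linarith
        have : (628318 / 100000 : ℝ) ≤ 2 * Real.pi := by linarith
        gcongr
      linarith
    -- `X = H - κ m²/(4μ) ≥ 3.345 (x + 2.043)/49.9`
    have h14 : 3345 / 1000 * (x + 2043 / 1000) / (499 / 10) ≤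
        628318 / 100000 * (1 - (913 / 10000 + 12901 / 10000 / x)) - 71829 / 100000 * x -
          82 / 100 * (1 / x) := by
      have e : 628318 / 100000 * (1 - (913 / 10000 + 12901 / 10000 / x)) - 71829 / 100000 * x -
          82 / 100 * (1 / x) - 3345 / 1000 * (x + 2043 / 1000) / (499 / 10) =
          ((628318 / 100000 * (1 - 913 / 10000) - 3345 / 1000 * (2043 / 1000) / (499 / 10)) * x -
            628318 / 100000 * (12901 / 10000) - 82 / 100 -
            (71829 / 100000 + 3345 / 1000 / (499 / 10)) * x ^ 2) / x := by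
        field_simp
        ring
      rw [← sub_nonneg, e]
      apply div_nonneg _ hx0.le
      nlinarith [mul_nonneg (sub_nonneg.2 hx) (sub_nonneg.2 hx2)]
    have h15 : 3345 / 1000 * (x + 2043 / 1000) / (499 / 10) ≤
        tH 1 x y - 105 / 100 * tm 1 x y ^ 2 / (4 * tμ 1 x y) := by linarith
    have h16 : 3345 / 1000 ≤ w * (tH 1 x y - 105 / 100 * tm 1 x y ^ 2 / (4 * tμ 1 x y)) := by
      refine le_trans ?_ (mul_le_mul_of_nonneg_left h15 hw0.le)
      have e : w * (3345 / 1000 * (x + 2043 / 1000) / (499 / 10)) =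
          3345 / 1000 / (499 / 10) * (w * (x + 2043 / 1000)) := by ring
      rw [e]
      norm_num at hwx ⊢
      linarith
    linarith
  · have h6 := exp_neg_le_of (k := 7) (t := 69 / 100) (L := 3845 / 1000)
      (A := 218600 / 100) (by norm_num) (by norm_num) (by norm_num) (by norm_num)
    calc 105 / 100 * (128 / 100) * Real.exp (-(2 * (3845 / 1000))) ≤
        105 / 100 * (128 / 100) * (1 / (218600 / 100)) := by gcongr
      _ ≤ (248 / 10000) ^ 2 := by norm_num

/-- `y ≥ 0`, `x ≤ 112/25`, the lump of the side `ε = -1` -/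
theorem b_pos4 {x y ρ w D : ℝ} (hx : 2807 / 1000 ≤ x) (hx2 : x ≤ 112 / 25) (h0 : 0 < ρ)
    (h2 : ρ ≤ x + 2043 / 1000)
    (hy0 : 0 ≤ y) (hy : Real.exp y ≤ 1 + 2043 / 1000 / x)
    (hw2 : 499 / 10 / ρ ≤ w)
    (hD0 : 0 < D) (hD : D ^ 2 ≤ (1 + y) ^ 2 + x ^ 2) :
    tP (-1) x (-y) w ≤ 1 / 1000 * √(2 * Real.pi / (w * D)) := by
  have hx0 : 0 < x := by linarith
  have hyl := b_y_le hx0 hy
  have hw0 : 0 < w := lt_of_lt_of_le (by positivity) hw2
  have hwx : 499 / 10 ≤ w * (x + 2043 / 1000) := by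
    rw [div_le_iff₀ h0] at hw2
    refine hw2.trans ?_
    gcongr
  have hw7 : 76 / 10 ≤ w := by
    have h3 : w * (x + 2043 / 1000) ≤ w * (112 / 25 + 2043 / 1000) := by gcongr
    norm_num at h3 hwx ⊢
    linarith
  have hx1 : 1 / x ≤ 1 / (2807 / 1000) := by gcongr
  have hxp : 0 < 1 / x := by positivity
  have e2 : (12901 / 10000 / x : ℝ) = 12901 / 10000 * (1 / x) := by ring
  have hy1 : y ≤ 551 / 1000 := by
    rw [e2] at hyl
    norm_num at hx1 hyl ⊢
    linarith
  have hya : |-y| = y := by rw [abs_neg, abs_of_nonneg hy0]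
  have hta := b_ta_one hx0 hx2
  have hqx : 4466 / 10000 * x ≤ 473 / 1000 * x - 134 / 1000 * |-y| := by rw [hya]; linarith
  have hq0 : 0 < 473 / 1000 * x - 134 / 1000 * |-y| := lt_of_lt_of_le (by positivity) hqx
  have he1 : (367 / 1000 : ℝ) ≤ Real.exp (-1) := by
    have := Real.exp_neg_one_gt_d9
    norm_num at this ⊢
    linarith
  have he2 : Real.exp (-1) ≤ 368 / 1000 := by
    have := Real.exp_neg_one_lt_d9
    norm_num at this ⊢
    linarith
  have he0 := Real.exp_pos (-1)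
  have hμ : tμ (-1) x (-y) = Real.exp (-1) * (473 / 1000 * x - 134 / 1000 * |-y|) := by
    unfold tμ
    rw [hta, mul_one]
  have hμ1 : 46 / 100 ≤ tμ (-1) x (-y) := by
    rw [hμ]
    calc (46 / 100 : ℝ) ≤ 367 / 1000 * (4466 / 10000 * (2807 / 1000)) := by norm_num
      _ ≤ 367 / 1000 * (4466 / 10000 * x) := by gcongr
      _ ≤ Real.exp (-1) * (473 / 1000 * x - 134 / 1000 * |-y|) := by gcongr
  have hμ0 : 0 < tμ (-1) x (-y) := by linarith
  have hm : tm (-1) x (-y) = 1 + (1 - Real.exp (-1)) * y := by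
    unfold tm
    rw [hta, mul_one]
    ring
  have hm1 : tm (-1) x (-y) ≤ 135 / 100 := by
    rw [hm]
    calc 1 + (1 - Real.exp (-1)) * y ≤ 1 + (1 - 367 / 1000) * (551 / 1000) := by
          have : 0 ≤ 1 - Real.exp (-1) := by linarith
          gcongr
      _ ≤ 135 / 100 := by norm_num
  have hm0 : 0 ≤ tm (-1) x (-y) := by
    rw [hm]
    have : 0 ≤ 1 - Real.exp (-1) := by linarith
    positivity
  have hH : tH (-1) x (-y) = 2 * Real.pi * (1 + y) - x * Real.exp (-1) := by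
    unfold tH
    rw [hta, mul_one]
    ring
  refine tP_le (κ := 15 / 10) (l := 128 / 100) (L := 8) hw0 (by norm_num) hD0 hq0
    (by norm_num) ?_ ?_ ?_ ?_
  · have h5 : 76 / 10 * (46 / 100) ≤ w * tμ (-1) x (-y) := by gcongr
    linarith
  · have h5 : D ≤ 2 * (128 / 100) * (4466 / 10000 * x) := by
      refine (t2c_D (x0 := 2807 / 1000) (T := 2 * (128 / 100) * (4466 / 10000)) (by norm_num) hx
        (by norm_num) hD ?_).trans (le_of_eq (by ring))
      calc (1 + y) ^ 2 ≤ (1 + 551 / 1000) ^ 2 := by gcongr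
        _ ≤ _ := by norm_num
    refine h5.trans ?_
    gcongr
  · rw [hta]
    have h5 : 15 / 10 * tm (-1) x (-y) ^ 2 / (4 * tμ (-1) x (-y)) ≤ 15 / 10 := by
      rw [div_le_iff₀ (by positivity)]
      have h6 : tm (-1) x (-y) ^ 2 ≤ (135 / 100) ^ 2 := by gcongr
      linarith
    have h9 : 46 / 10 ≤ tH (-1) x (-y) := by
      rw [hH]
      have h10 : x * Real.exp (-1) ≤ 112 / 25 * (368 / 1000) := by gcongr
      have h11 : (314 / 100 : ℝ) ≤ Real.pi := by
        have := Real.pi_gt_d2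
        norm_num at this ⊢
        linarith
      have h12 : 2 * (314 / 100) * (1 + 0) ≤ 2 * Real.pi * (1 + y) := by gcongr
      linarith
    have h16 : 76 / 10 * (31 / 10) ≤
        w * (tH (-1) x (-y) - 15 / 10 * tm (-1) x (-y) ^ 2 / (4 * tμ (-1) x (-y))) := by
      have : 31 / 10 ≤ tH (-1) x (-y) - 15 / 10 * tm (-1) x (-y) ^ 2 / (4 * tμ (-1) x (-y)) := by
        linarith
      gcongr
    linarith
  · have h6 := exp_neg_le_of (k := 16) (t := 0) (L := 8)
      (A := 8000000) (by norm_num) (by norm_num) (by norm_num) (by norm_num)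
    calc 15 / 10 * (128 / 100) * Real.exp (-(2 * 8)) ≤
        15 / 10 * (128 / 100) * (1 / 8000000) := by gcongr
      _ ≤ (1 / 1000) ^ 2 := by norm_num

/-- **PTB** -/
theorem ptB : PTB := by
  intro r δ y η h hA hS hη hG10 hG20
  have hP := h.toPar
  have hδ := h.d0
  have hη2 := hη.trans (b_eo2_le hG10)
  have hρ : 485 / 100 ≤ r * δ := (reg2_facts h).2.2 hG20
  have hw1 := t2c_w1 hP hG10 (g := 10132 / 10000) (by norm_num)
  have hw2 := t2c_w2 hP
  have hρ0 : 0 < r * δ := by linarith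
  have hw3 : 711 / 100 ≤ 1 / δ :=
    t2_wmin hρ0 (by norm_num) (by positivity) hw1 hw2 (by norm_num)
  have hDp : 0 < sD (r * δ) y := Real.sqrt_pos.2 (sD2_pos hA.y1)
  have hDD : sD (r * δ) y ^ 2 = (1 + y) ^ 2 + sx (r * δ) y ^ 2 := by
    unfold sD
    rw [Real.sq_sqrt (sD2_pos hA.y1).le]
    rfl
  unfold tS
  rw [sG_w hδ]
  have hdiv : ∀ z : ℝ, 0 < z → z * (Real.exp y - 1) ≤ 2043 / 1000 →
      Real.exp y ≤ 1 + 2043 / 1000 / z := by
    intro z hz h1
    have : Real.exp y - 1 ≤ 2043 / 1000 / z := by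
      rw [le_div_iff₀ hz]
      linarith
    linarith
  rcases le_total 0 y with hy | hy
  · obtain ⟨f1, f2⟩ := pos_facts hA.dom hy
    rw [hA.eta] at f1 f2
    have hη3 : η ≤ 2043 / 1000 := (le_abs_self η).trans hη2
    have hx : 2807 / 1000 ≤ sx (r * δ) y := by linarith
    have hxρ : sx (r * δ) y ≤ r * δ := by
      refine (sx_le hA.dom).trans ?_
      have : Real.exp (-y) ≤ 1 := by
        rw [Real.exp_le_one_iff]
        linarith
      calc r * δ * Real.exp (-y) ≤ r * δ * 1 := by gcongr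
        _ = _ := mul_one _
    have hex := hdiv (sx (r * δ) y) (by linarith) (f1.trans hη3)
    rcases le_total (112 / 25) (sx (r * δ) y) with hx4 | hx4
    · have k1 := b_pos1 hx4 hxρ hy hex hw1 hw3 hDp hDD.le
      have k2 := b_pos2 hx4 hxρ hy hex hw1 hw3 hDp hDD.le
      linarith
    · have k1 := b_pos3 hx hx4 hρ0 (by linarith) hy hex hw2 hDp hDD.le
      have k2 := b_pos4 hx hx4 hρ0 (by linarith) hy hex hw2 hDp hDD.le
      linarith
  · obtain ⟨f1, f2⟩ := neg_facts hA.dom hA.y1.le hy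
    rw [hA.eta] at f1
    have hη3 : -η ≤ 2043 / 1000 := (neg_le_abs η).trans hη2
    have hlo := hS.lo
    have hxρ : r * δ ≤ sx (r * δ) y := SokalF1T.sx_ge (by linarith) (by linarith) hy
    have hx2 : sx (r * δ) y ≤ r * δ + 2043 / 1000 := by linarith
    have hex : Real.exp (-y) ≤ 1 + 2043 / 1000 / (r * δ) := by
      have : Real.exp (-y) - 1 ≤ 2043 / 1000 / (r * δ) := by
        rw [le_div_iff₀ hρ0]
        linarith
      linarith
    have hD1 : sD (r * δ) y ^ 2 ≤ 1 + sx (r * δ) y ^ 2 := by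
      rw [hDD]
      nlinarith
    have hn0 : 0 ≤ -y := by linarith
    have k1 := b_neg1 hρ hxρ hx2 hn0 hex hw1 hw2 hDp hD1
    have k2 := b_neg3 hρ hxρ hx2 hn0 hex hw1 hw2 hDp hD1
    rw [neg_neg] at k2
    linarith

end SokalV3
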