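import Pool.Agent.Lib_MP_af4de1_v3.V3
import Pool.Agent.Lib_MP_af4de1_f1.TwoPiece

/-!
# The core inequality: two pieces, each with its own saddle
-/

set_option autoImplicit false

namespace SokalV3

open Complex SokalF1

/-- One piece, relative to the saddle `κ` and to the own wave `p`. -/
theorem piece_base {κ p Dp D2p P Q S : ℂ} {A B g0 g1 g2 : ℝ} (hp : p ≠ 0) (hg : g0 < 1)
    (h1 : ‖Dp - κ * p‖ ≤ A * ‖p‖) (h2 : ‖D2p - 2 * κ * Dp + κ ^ 2 * p‖ ≤ B * ‖p‖)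
    (f0 : ‖P‖ ≤ g0 * ‖p‖) (f1 : ‖Q - κ * P‖ ≤ g1 * ‖p‖)
    (f2 : ‖S - 2 * κ * Q + κ ^ 2 * P‖ ≤ g2 * ‖p‖) :
    p + P ≠ 0 ∧ ‖(Dp + Q) / (p + P) - κ‖ ≤ (A + g1) / (1 - g0) ∧
      ‖(D2p + S) / (p + P) - ((Dp + Q) / (p + P)) ^ 2‖ ≤
        (B + g2) / (1 - g0) + ((A + g1) / (1 - g0)) ^ 2 := by
  have hnp : 0 < ‖p‖ := norm_pos_iff.2 hp
  have h1g : 0 < 1 - g0 := by linarith
  have hlow : (1 - g0) * ‖p‖ ≤ ‖p + P‖ := by
    have := norm_sub_le_norm_add p P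
    nlinarith
  have hpos : 0 < ‖p + P‖ := lt_of_lt_of_le (by positivity) hlow
  have hne : p + P ≠ 0 := norm_pos_iff.1 hpos
  have e1 : (Dp + Q) / (p + P) - κ = ((Dp - κ * p) + (Q - κ * P)) / (p + P) := by
    field_simp
    ring
  have n1 : ‖(Dp - κ * p) + (Q - κ * P)‖ ≤ (A + g1) * ‖p‖ := by
    refine (norm_add_le _ _).trans ?_
    rw [add_mul]
    exact add_le_add h1 f1
  have hA : 0 ≤ A + g1 := nonneg_of_mul_nonneg_left ((norm_nonneg _).trans n1) hnp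
  have c1 : ‖(Dp + Q) / (p + P) - κ‖ ≤ (A + g1) / (1 - g0) := by
    rw [e1, norm_div, div_le_div_iff₀ hpos h1g]
    calc ‖(Dp - κ * p) + (Q - κ * P)‖ * (1 - g0) ≤ ((A + g1) * ‖p‖) * (1 - g0) := by gcongr
      _ = (A + g1) * ((1 - g0) * ‖p‖) := by ring
      _ ≤ (A + g1) * ‖p + P‖ := by gcongr
  refine ⟨hne, c1, ?_⟩
  have e2 : (D2p + S) / (p + P) - ((Dp + Q) / (p + P)) ^ 2 =
      ((D2p - 2 * κ * Dp + κ ^ 2 * p) + (S - 2 * κ * Q + κ ^ 2 * P)) / (p + P) -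
        ((Dp + Q) / (p + P) - κ) ^ 2 := by
    field_simp
    ring
  have n2 : ‖(D2p - 2 * κ * Dp + κ ^ 2 * p) + (S - 2 * κ * Q + κ ^ 2 * P)‖ ≤ (B + g2) * ‖p‖ := by
    refine (norm_add_le _ _).trans ?_
    rw [add_mul]
    exact add_le_add h2 f2
  have hB : 0 ≤ B + g2 := nonneg_of_mul_nonneg_left ((norm_nonneg _).trans n2) hnp
  rw [e2]
  refine (norm_sub_le _ _).trans (add_le_add ?_ ?_)
  · rw [norm_div, div_le_div_iff₀ hpos h1g]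
    calc _ * (1 - g0) ≤ ((B + g2) * ‖p‖) * (1 - g0) := by gcongr
      _ = (B + g2) * ((1 - g0) * ‖p‖) := by ring
      _ ≤ (B + g2) * ‖p + P‖ := by gcongr
  · rw [norm_pow]
    exact pow_le_pow_left₀ (norm_nonneg _) c1 2

/-- two factors with arguments of opposite sign -/
theorem cone_opp {u v : ℂ} {T : ℝ} (hT : 0 ≤ T) (hu : 0 < u.re) (hv : 0 < v.re) (h1 : 0 ≤ u.im)
    (h2 : u.im ≤ T * u.re) (h3 : v.im ≤ 0) (h4 : -(T * v.re) ≤ v.im) : Cone T (u * v) := by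
  have hp : 0 < u.re * v.re := mul_pos hu hv
  have hi : 0 ≤ u.im * (-v.im) := mul_nonneg h1 (by linarith)
  have hre : (u * v).re = u.re * v.re + u.im * (-v.im) := by rw [Complex.mul_re]; ring
  refine ⟨by rw [hre]; linarith, ?_⟩
  rw [hre, Complex.mul_im, abs_le]
  have a1 : u.re * v.im ≤ 0 := mul_nonpos_of_nonneg_of_nonpos hu.le h3
  have a2 : -(T * (u.re * v.re)) ≤ u.re * v.im := by nlinarith
  have a3 : 0 ≤ u.im * v.re := mul_nonneg h1 hv.le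
  have a4 : u.im * v.re ≤ T * (u.re * v.re) := by nlinarith
  have a5 : 0 ≤ T * (u.im * (-v.im)) := mul_nonneg hT hi
  constructor
  · rw [mul_add]; linarith
  · rw [mul_add]; linarith

theorem cone_one {z t : ℝ} {w : ℂ} (hz : z < 1) (ht : 0 ≤ t) (h : z ^ 2 ≤ t ^ 2 * (1 - z ^ 2))
    (hw : ‖w‖ ≤ z) : Cone t (1 + w) := by
  have hz0 : 0 ≤ z := (norm_nonneg _).trans hw
  have hs : 0 < 1 - z ^ 2 := by nlinarith
  refine (Cone.one_add hz hw).mono ?_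
  rw [div_le_iff₀ (Real.sqrt_pos.2 hs)]
  refine abs_le_of_sq_le_sq' ?_ (by positivity) |>.2
  rw [mul_pow, Real.sq_sqrt hs.le]
  exact h

/-- (U) for two pieces, each close to a saddle. -/
theorem U_core {R DR D2R L DL D2L κ0 κ1 : ℂ}
    {m e0 e1 l0 l1 b0 b1 d Δ T z0 z1 c0 c1 t0 t1 χ tχ s : ℝ}
    (hm : 0 < m) (hR : R ≠ 0) (hL : L ≠ 0) (h : (DR + DL) + m * (R + L) = 0)
    (he0 : ‖DR / R - κ0‖ ≤ e0) (he1 : ‖DL / L - κ1‖ ≤ e1)
    (hl0 : ‖D2R / R - (DR / R) ^ 2‖ ≤ l0) (hl1 : ‖D2L / L - (DL / L) ^ 2‖ ≤ l1)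
    (hb0 : b0 ≤ ‖κ0 + m‖) (hb1 : b1 ≤ ‖κ1 + m‖) (hb0p : 0 < b0) (hb1p : 0 < b1)
    (hΔ : Δ ≤ ‖κ0 - κ1‖) (hd : 0 < d) (hdΔ : e0 + e1 + d ≤ Δ)
    (hz0 : e0 ≤ z0 * b0) (hz1 : e1 ≤ z1 * b1) (hz0' : z0 < 1) (hz1' : z1 < 1)
    (hc0 : l0 ≤ c0 * ((1 - z0) * b0)) (hc1 : l1 ≤ c1 * ((1 - z1) * b1))
    (hχ : c0 + c1 ≤ χ * d) (hχ1 : χ < 1) (hT : 0 ≤ T) (hA : Cone T ((κ0 + m) * (κ1 + m)))
    (ht0 : 0 ≤ t0) (ht1 : 0 ≤ t1) (htχ : 0 ≤ tχ)
    (q0 : z0 ^ 2 ≤ t0 ^ 2 * (1 - z0 ^ 2)) (q1 : z1 ^ 2 ≤ t1 ^ 2 * (1 - z1 ^ 2))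
    (qχ : χ ^ 2 ≤ tχ ^ 2 * (1 - χ ^ 2))
    (h01 : t0 * t1 < 1) (hs : (t0 + t1) / (1 - t0 * t1) ≤ s) (hsT : s * T < 1)
    (hfin : (s + T) / (1 - s * T) * tχ < 1) :
    0 < ((D2R + D2L) / (DR + DL) - (DR + DL) / (R + L)).re := by
  have hs0 : 0 ≤ s := by
    have : 0 < 1 - t0 * t1 := by linarith
    exact le_trans (by positivity) hs
  have hk0 : κ0 + m ≠ 0 := norm_pos_iff.1 (lt_of_lt_of_le hb0p hb0)
  have hk1 : κ1 + m ≠ 0 := norm_pos_iff.1 (lt_of_lt_of_le hb1p hb1)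
  have n0 : 0 < ‖κ0 + m‖ := norm_pos_iff.2 hk0
  have n1 : 0 < ‖κ1 + m‖ := norm_pos_iff.2 hk1
  have hz00 : 0 ≤ z0 := by
    have := (norm_nonneg _).trans he0
    exact nonneg_of_mul_nonneg_left (this.trans hz0) hb0p
  have hz10 : 0 ≤ z1 := by
    have := (norm_nonneg _).trans he1
    exact nonneg_of_mul_nonneg_left (this.trans hz1) hb1p
  have w0 : ‖(DR / R - κ0) / (κ0 + m)‖ ≤ z0 := by
    rw [norm_div, div_le_iff₀ n0]
    exact he0.trans (hz0.trans (by gcongr))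
  have w1 : ‖(DL / L - κ1) / (κ1 + m)‖ ≤ z1 := by
    rw [norm_div, div_le_iff₀ n1]
    exact he1.trans (hz1.trans (by gcongr))
  have cc0 := cone_one hz0' ht0 q0 w0
  have cc1 := cone_one hz1' ht1 q1 w1
  have cc := (cc0.mul cc1 ht0 ht1 h01).mono hs
  have cA := cc.mul hA hs0 hT hsT
  have eA : (1 + (DR / R - κ0) / (κ0 + m)) * (1 + (DL / L - κ1) / (κ1 + m)) *
      ((κ0 + m) * (κ1 + m)) = (DR / R + m) * (DL / L + m) := by
    field_simp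
    ring
  rw [eA] at cA
  have d0 : (1 - z0) * b0 ≤ ‖DR / R + m‖ := by
    have e5 : κ0 + m = (DR / R + m) - (DR / R - κ0) := by ring
    have := norm_sub_le (DR / R + m) (DR / R - κ0)
    rw [← e5] at this
    linarith
  have d1 : (1 - z1) * b1 ≤ ‖DL / L + m‖ := by
    have e5 : κ1 + m = (DL / L + m) - (DL / L - κ1) := by ring
    have := norm_sub_le (DL / L + m) (DL / L - κ1)
    rw [← e5] at this
    linarith
  have dD : d ≤ ‖DR / R - DL / L‖ := by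
    have e5 : κ0 - κ1 = (DR / R - DL / L) - ((DR / R - κ0) - (DL / L - κ1)) := by ring
    have h6 := norm_sub_le (DR / R - DL / L) ((DR / R - κ0) - (DL / L - κ1))
    rw [← e5] at h6
    have h7 := norm_sub_le (DR / R - κ0) (DL / L - κ1)
    linarith
  have p0 : 0 < (1 - z0) * b0 := mul_pos (by linarith) hb0p
  have p1 : 0 < (1 - z1) * b1 := mul_pos (by linarith) hb1p
  have hKD : DR / R - DL / L ≠ 0 := norm_pos_iff.1 (lt_of_lt_of_le hd dD)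
  have hc00 : 0 ≤ c0 := nonneg_of_mul_nonneg_left (((norm_nonneg _).trans hl0).trans hc0) p0
  have hc10 : 0 ≤ c1 := nonneg_of_mul_nonneg_left (((norm_nonneg _).trans hl1).trans hc1) p1
  have hχ0 : 0 ≤ χ := nonneg_of_mul_nonneg_left ((add_nonneg hc00 hc10).trans hχ) hd
  have hXn : ‖((D2R / R - (DR / R) ^ 2) / (DR / R + m) - (D2L / L - (DL / L) ^ 2) / (DL / L + m)) /
      (DR / R - DL / L)‖ ≤ χ := by
    rw [norm_div, div_le_iff₀ (lt_of_lt_of_le hd dD)]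
    have x1 : ‖(D2R / R - (DR / R) ^ 2) / (DR / R + m)‖ ≤ c0 := by
      rw [norm_div, div_le_iff₀ (lt_of_lt_of_le p0 d0)]
      exact (hl0.trans hc0).trans (mul_le_mul_of_nonneg_left d0 hc00)
    have x2 : ‖(D2L / L - (DL / L) ^ 2) / (DL / L + m)‖ ≤ c1 := by
      rw [norm_div, div_le_iff₀ (lt_of_lt_of_le p1 d1)]
      exact (hl1.trans hc1).trans (mul_le_mul_of_nonneg_left d1 hc10)
    refine (norm_sub_le _ _).trans ((add_le_add x1 x2).trans (hχ.trans ?_))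
    exact mul_le_mul_of_nonneg_left dD hχ0
  have hsq : χ / √(1 - χ ^ 2) ≤ tχ := by
    have hs' : 0 < 1 - χ ^ 2 := sub_pos.2 (pow_lt_one₀ hχ0 hχ1 two_ne_zero)
    rw [div_le_iff₀ (Real.sqrt_pos.2 hs')]
    refine abs_le_of_sq_le_sq' ?_ (by positivity) |>.2
    rw [mul_pow, Real.sq_sqrt hs'.le]
    exact qχ
  have hsT' : 0 < 1 - s * T := by linarith
  have hq : 0 ≤ (s + T) / (1 - s * T) := by positivity
  exact U_two hm hR hL h hq cA hKD (χ := χ) hXn hχ1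
    (lt_of_le_of_lt (mul_le_mul_of_nonneg_left hsq hq) hfin)

end SokalV3
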