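import Pool.Agent.Lib_MP_af4de1_v3.V3
import Pool.Agent.Lib_MP_af4de1_v3.Core
import Pool.Agent.Lib_MP_af4de1_f1.TwoSad
import Pool.Agent.Lib_MP_af4de1_v3.P2Sad

/-!
# `N = 2`, `ρ ≥ 16/5`: (U) from the pieces `P2`
-/

set_option autoImplicit false

namespace SokalV3

open Complex SokalU SokalF1 SokalF1S SokalF1M

theorem t2_hst_two : hst 2 = Real.pi := by
  unfold hst
  push_cast
  ring

/-! ### saddle points -/

theorem At.nonneg {r δ y η : ℝ} (h : At r δ y η) (h0 : 0 ≤ η) : 0 ≤ y := by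
  by_contra hy
  push Not at hy
  have hρ := h.dom.1
  have h1 := sE_strictMonoOn h.dom (dom_zero hρ) h.y1.le ⟨le_rfl, hy.le⟩ ⟨hy.le, le_rfl⟩ hy
  rw [h.eta, sE_zero hρ] at h1
  linarith

theorem At.nonpos {r δ y η : ℝ} (h : At r δ y η) (h0 : η ≤ 0) : y ≤ 0 := by
  by_contra hy
  push Not at hy
  have hρ := h.dom.1
  have h1 := sE_strictMonoOn (dom_zero hρ) h.dom (by norm_num) ⟨le_rfl, hy.le⟩ ⟨hy.le, le_rfl⟩ hy
  rw [h.eta, sE_zero hρ] at h1
  linarith

theorem t2_kap_re (r δ y : ℝ) : (kap r δ y).re = sx (r * δ) y / δ := by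
  unfold kap sK
  rw [Complex.div_ofReal_re]
  simp

theorem t2_kap_im (r δ y : ℝ) : (kap r δ y).im = y / δ := by
  unfold kap sK
  rw [Complex.div_ofReal_im]
  simp

theorem t2_norm_kap {r δ y : ℝ} (hδ : 0 < δ) (h : Dom (r * δ) y) : ‖kap r δ y‖ = r * Real.exp (-y) := by
  unfold kap
  rw [norm_div, norm_sK h, Complex.norm_real, Real.norm_of_nonneg hδ.le]
  field_simp

/-- `‖κ + m‖ ≥ ‖κ‖` -/
theorem norm_le_add_real {κ : ℂ} {m : ℝ} (hs : 0 ≤ κ.re) (hm : 0 ≤ m) : ‖κ‖ ≤ ‖κ + m‖ := by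
  rw [← Real.sqrt_sq (norm_nonneg κ), ← Real.sqrt_sq (norm_nonneg (κ + m))]
  apply Real.sqrt_le_sqrt
  rw [Complex.sq_norm, Complex.sq_norm, Complex.normSq_apply, Complex.normSq_apply]
  simp only [Complex.add_re, Complex.ofReal_re, Complex.add_im, Complex.ofReal_im, add_zero]
  nlinarith [mul_nonneg hs hm]

/-- `‖κ + m‖ ≥ g (‖κ‖ + m)` -/
theorem t2_norm_add_ge {κ : ℂ} {m T c g : ℝ} (hm : 0 ≤ m) (hre : 0 ≤ κ.re) (hT : |κ.im| ≤ T * κ.re)
    (hc : 0 ≤ c) (hc1 : c ≤ 1) (hcT : c ^ 2 * (1 + T ^ 2) ≤ 1) (hg : 0 ≤ g) (hg2 : 2 * g ^ 2 ≤ 1 + c) :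
    g * (‖κ‖ + m) ≤ ‖κ + m‖ := by
  have hn : ‖κ‖ ^ 2 = κ.re ^ 2 + κ.im ^ 2 := by
    rw [Complex.sq_norm, Complex.normSq_apply]; ring
  have h1 : c * ‖κ‖ ≤ κ.re := by
    refine abs_le_of_sq_le_sq' ?_ hre |>.2
    rw [mul_pow, hn]
    have h2 : κ.im ^ 2 ≤ (T * κ.re) ^ 2 := by
      rw [← sq_abs κ.im]
      exact pow_le_pow_left₀ (abs_nonneg _) hT 2
    have h3 : c ^ 2 * (κ.re ^ 2 + κ.im ^ 2) ≤ c ^ 2 * (1 + T ^ 2) * κ.re ^ 2 := by
      nlinarith [mul_le_mul_of_nonneg_left h2 (sq_nonneg c)]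
    have h4 : c ^ 2 * (1 + T ^ 2) * κ.re ^ 2 ≤ 1 * κ.re ^ 2 :=
      mul_le_mul_of_nonneg_right hcT (sq_nonneg _)
    linarith
  have hk := norm_nonneg κ
  refine abs_le_of_sq_le_sq' ?_ (norm_nonneg _) |>.2
  have h5 : ‖κ + m‖ ^ 2 = ‖κ‖ ^ 2 + 2 * m * κ.re + m ^ 2 := by
    rw [hn, Complex.sq_norm, Complex.normSq_apply]
    simp only [Complex.add_re, Complex.ofReal_re, Complex.add_im, Complex.ofReal_im, add_zero]
    ring
  rw [h5, mul_pow]
  have h6 : m * (c * ‖κ‖) ≤ m * κ.re := mul_le_mul_of_nonneg_left h1 hm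
  have h7 : g ^ 2 * (‖κ‖ + m) ^ 2 ≤ (1 + c) / 2 * (‖κ‖ + m) ^ 2 :=
    mul_le_mul_of_nonneg_right (by linarith) (sq_nonneg _)
  nlinarith [mul_nonneg (by linarith : 0 ≤ 1 - c) (sq_nonneg (‖κ‖ - m))]

/-- the own wave, lower bound for `DE + m E` -/
theorem Own.low {r δ y e k v m g : ℝ} (h : Own r δ y e k v) (he : e < 1)
    (hg : g * (‖kap r δ y‖ + m) ≤ ‖kap r δ y + m‖)
    (hpos : 0 ≤ g * (‖kap r δ y‖ + m) - k) :
    (1 - e) * (g * (‖kap r δ y‖ + m) - k) * sM r δ y ≤ ‖V1 r δ y 0 + m * V0 r δ y 0‖ := by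
  have e1 : V1 r δ y 0 + m * V0 r δ y 0 =
      (kap r δ y + m) * V0 r δ y 0 + (V1 r δ y 0 - kap r δ y * V0 r δ y 0) := by ring
  have h1 := norm_sub_le_norm_add ((kap r δ y + m) * V0 r δ y 0)
    (V1 r δ y 0 - kap r δ y * V0 r δ y 0)
  rw [← e1, norm_mul] at h1
  have h2 := h.o1
  have h3 : (‖kap r δ y + m‖ - k) * ‖V0 r δ y 0‖ ≤ ‖V1 r δ y 0 + m * V0 r δ y 0‖ := by
    rw [sub_mul]
    linarith
  refine le_trans ?_ h3
  have h4 : g * (‖kap r δ y‖ + m) - k ≤ ‖kap r δ y + m‖ - k := by linarith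
  calc (1 - e) * (g * (‖kap r δ y‖ + m) - k) * sM r δ y =
        (g * (‖kap r δ y‖ + m) - k) * ((1 - e) * sM r δ y) := by ring
    _ ≤ (g * (‖kap r δ y‖ + m) - k) * ‖V0 r δ y 0‖ := mul_le_mul_of_nonneg_left h.o0 hpos
    _ ≤ (‖kap r δ y + m‖ - k) * ‖V0 r δ y 0‖ := mul_le_mul_of_nonneg_right h4 (norm_nonneg _)

/-- the localisation inequality -/
theorem loc_ineq {r δ ya yb ζ C e k v γ g m : ℝ} (hm : 0 ≤ m) (hM : 0 < sM r δ ya)
    (hκ : 0 < ‖kap r δ ya‖) (hown : Own r δ ya e k v) (he : e < 1) (hC : 0 ≤ C)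
    (hout : Out r δ yb ζ C) (hgap : Gap r δ ya yb γ)
    (hg : g * (‖kap r δ ya‖ + m) ≤ ‖kap r δ ya + m‖)
    {q : ℝ} (hq : k ≤ q * ‖kap r δ ya‖) (hq0 : 0 ≤ q) (hqg : q ≤ g)
    (hnum : C * Real.exp (-γ) < (1 - e) * (g - q)) :
    ‖V1 r δ yb ζ + m * V0 r δ yb ζ‖ < ‖V1 r δ ya 0 + m * V0 r δ ya 0‖ := by
  have h1 := hout m hm
  have hk2 : k ≤ q * (‖kap r δ ya‖ + m) := by nlinarith [mul_nonneg hq0 hm]
  have hpos : 0 ≤ g * (‖kap r δ ya‖ + m) - k := by
    have : q * (‖kap r δ ya‖ + m) ≤ g * (‖kap r δ ya‖ + m) :=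
      mul_le_mul_of_nonneg_right hqg (by positivity)
    linarith
  have h2 := hown.low he hg hpos
  refine lt_of_le_of_lt h1 (lt_of_lt_of_le ?_ h2)
  -- outer level
  have hee : Real.exp γ * Real.exp (-γ) = 1 := by rw [← Real.exp_add]; simp
  have g0 : sM r δ yb ≤ Real.exp (-γ) * sM r δ ya := by
    have := mul_le_mul_of_nonneg_left hgap.g0 (Real.exp_pos (-γ)).le
    rw [← mul_assoc, mul_comm (Real.exp (-γ)), hee, one_mul] at this
    exact this
  have g1 : ‖kap r δ yb‖ * sM r δ yb ≤ Real.exp (-γ) * (‖kap r δ ya‖ * sM r δ ya) := by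
    have := mul_le_mul_of_nonneg_left hgap.g1 (Real.exp_pos (-γ)).le
    rw [← mul_assoc, mul_comm (Real.exp (-γ)), hee, one_mul] at this
    exact this
  have h3 : (‖kap r δ yb‖ + m) * sM r δ yb ≤ Real.exp (-γ) * ((‖kap r δ ya‖ + m) * sM r δ ya) := by
    have := mul_le_mul_of_nonneg_left g0 hm
    nlinarith
  have hW : 0 < (‖kap r δ ya‖ + m) * sM r δ ya := by positivity
  have h4 : C * (‖kap r δ yb‖ + m) * sM r δ yb ≤
      C * Real.exp (-γ) * ((‖kap r δ ya‖ + m) * sM r δ ya) := by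
    have := mul_le_mul_of_nonneg_left h3 hC
    nlinarith
  have h5 : C * Real.exp (-γ) * ((‖kap r δ ya‖ + m) * sM r δ ya) <
      (1 - e) * (g - q) * ((‖kap r δ ya‖ + m) * sM r δ ya) := mul_lt_mul_of_pos_right hnum hW
  refine lt_of_le_of_lt h4 (lt_of_lt_of_le h5 ?_)
  have h6 : (g - q) * (‖kap r δ ya‖ + m) ≤ g * (‖kap r δ ya‖ + m) - k := by linarith
  have h7 : 0 ≤ (1 - e) * sM r δ ya := mul_nonneg (by linarith) hM.le
  nlinarith [mul_le_mul_of_nonneg_left h6 h7]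

/-- (U) in the window, with numerical constants. -/
theorem win {r δ y0 y1 H e k0 v0 k1 v1 e' hr β T z0 z1 t0 t1 s χ tχ a0 a1 : ℝ} {m : ℝ} {c0 c1 : ℂ}
    (hm : 0 < m) (hδ : 0 < δ) (hH : 0 < H) (hHr : H ≤ hr * r) (hr0 : 0 < r) (hhr : 0 ≤ hr)
    (hc0 : c0 ≠ 0) (hc1 : c1 ≠ 0)
    (hd0 : Dom (r * δ) y0) (hd1 : Dom (r * δ) y1) (hy0 : 0 ≤ y0) (hy1 : y1 ≤ 0) (hy1' : -1 < y1)
    (hx0 : 0 < sx (r * δ) y0) (hx1 : 0 < sx (r * δ) y1)
    (hT0 : |y0| ≤ T * sx (r * δ) y0) (hT1 : |y1| ≤ T * sx (r * δ) y1) (hT : 0 ≤ T)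
    (hβ : β * r ≤ ‖kap r δ y0‖) (hβ0 : 0 < β)
    (ho0 : Own r δ y0 e (k0 * H) (v0 * H ^ 2)) (ho1 : Own r δ y1 e' (k1 * H) (v1 * H ^ 2))
    (he : e < 1) (he' : e' < 1) (hk0 : 0 ≤ k0) (hk1 : 0 ≤ k1) (hv0 : 0 ≤ v0) (hv1 : 0 ≤ v1)
    (hpair : 47 / 50 * H ≤ ‖kap r δ y0 - kap r δ y1‖)
    (htie : (c0 * V1 r δ y0 0 + c1 * V1 r δ y1 0) + m * (c0 * V0 r δ y0 0 + c1 * V0 r δ y1 0) = 0)
    (nz0 : k0 * hr ≤ z0 * β) (nz1 : k1 * hr ≤ z1) (z01 : z0 < 1) (z11 : z1 < 1)
    (nd : k0 + k1 < 47 / 50)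
    (na0 : (v0 + k0 ^ 2) * hr ≤ a0 * ((1 - z0) * β)) (na1 : (v1 + k1 ^ 2) * hr ≤ a1 * (1 - z1))
    (nχ : a0 + a1 ≤ χ * (47 / 50 - k0 - k1)) (nχ1 : χ < 1)
    (ht0 : 0 ≤ t0) (ht1 : 0 ≤ t1) (htχ : 0 ≤ tχ)
    (q0 : z0 ^ 2 ≤ t0 ^ 2 * (1 - z0 ^ 2)) (q1 : z1 ^ 2 ≤ t1 ^ 2 * (1 - z1 ^ 2))
    (qχ : χ ^ 2 ≤ tχ ^ 2 * (1 - χ ^ 2))
    (h01 : t0 * t1 < 1) (hs : (t0 + t1) / (1 - t0 * t1) ≤ s) (hsT : s * T < 1)
    (hfin : (s + T) / (1 - s * T) * tχ < 1) :
    0 < ((c0 * V2 r δ y0 0 + c1 * V2 r δ y1 0) / (c0 * V1 r δ y0 0 + c1 * V1 r δ y1 0) -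
      (c0 * V1 r δ y0 0 + c1 * V1 r δ y1 0) / (c0 * V0 r δ y0 0 + c1 * V0 r δ y1 0)).re := by
  have hM0 : 0 < sM r δ y0 := sM_pos (by linarith)
  have hM1 : 0 < sM r δ y1 := sM_pos hy1'
  have hV0 : 0 < ‖V0 r δ y0 0‖ := lt_of_lt_of_le (mul_pos (by linarith) hM0) ho0.o0
  have hV1 : 0 < ‖V0 r δ y1 0‖ := lt_of_lt_of_le (mul_pos (by linarith) hM1) ho1.o0
  have hp0 : V0 r δ y0 0 ≠ 0 := norm_pos_iff.1 hV0
  have hp1 : V0 r δ y1 0 ≠ 0 := norm_pos_iff.1 hV1
  have n0 : ‖kap r δ y0‖ = r * Real.exp (-y0) := t2_norm_kap hδ hd0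
  have n1 : ‖kap r δ y1‖ = r * Real.exp (-y1) := t2_norm_kap hδ hd1
  have n1' : r ≤ ‖kap r δ y1‖ := by
    rw [n1]
    have : 1 ≤ Real.exp (-y1) := Real.one_le_exp (by linarith)
    nlinarith
  have re0 : 0 < (kap r δ y0).re := by rw [t2_kap_re]; positivity
  have re1 : 0 < (kap r δ y1).re := by rw [t2_kap_re]; positivity
  -- the two pieces
  have key : ∀ (y k v : ℝ) (c : ℂ), c ≠ 0 → V0 r δ y 0 ≠ 0 →
      ‖V1 r δ y 0 - kap r δ y * V0 r δ y 0‖ ≤ k * ‖V0 r δ y 0‖ →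
      ‖V2 r δ y 0 - 2 * kap r δ y * V1 r δ y 0 + kap r δ y ^ 2 * V0 r δ y 0‖ ≤ v * ‖V0 r δ y 0‖ →
      ‖c * V1 r δ y 0 / (c * V0 r δ y 0) - kap r δ y‖ ≤ k ∧
      ‖c * V2 r δ y 0 / (c * V0 r δ y 0) - (c * V1 r δ y 0 / (c * V0 r δ y 0)) ^ 2‖ ≤ v + k ^ 2 := by
    intro y k v c hc hp h1 h2
    have h3 := piece_base (P := 0) (Q := 0) (S := 0) (g0 := 0) (g1 := 0) (g2 := 0) hp (by norm_num)
      h1 h2 (by simp) (by simp) (by simp)
    rw [mul_div_mul_left _ _ hc, mul_div_mul_left _ _ hc]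
    obtain ⟨-, h4, h5⟩ := h3
    simp only [add_zero, sub_zero, div_one] at h4 h5
    exact ⟨h4, h5⟩
  obtain ⟨a1', a2'⟩ := key y0 _ _ c0 hc0 hp0 ho0.o1 ho0.o2
  obtain ⟨b1', b2'⟩ := key y1 _ _ c1 hc1 hp1 ho1.o1 ho1.o2
  have hbr : 0 < β * r := by positivity
  have hz00 : 0 ≤ z0 := by
    have : 0 ≤ z0 * β := le_trans (by positivity) nz0
    exact nonneg_of_mul_nonneg_left this hβ0
  have hz10 : 0 ≤ z1 := le_trans (by positivity) nz1
  have ha0 : 0 ≤ a0 := by
    have h1 : 0 ≤ a0 * ((1 - z0) * β) := le_trans (by positivity) na0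
    exact nonneg_of_mul_nonneg_left h1 (mul_pos (by linarith) hβ0)
  have ha1 : 0 ≤ a1 := by
    have h1 : 0 ≤ a1 * (1 - z1) := le_trans (by positivity) na1
    exact nonneg_of_mul_nonneg_left h1 (by linarith)
  refine U_core (κ0 := kap r δ y0) (κ1 := kap r δ y1) (e0 := k0 * H) (e1 := k1 * H)
    (l0 := v0 * H ^ 2 + (k0 * H) ^ 2) (l1 := v1 * H ^ 2 + (k1 * H) ^ 2) (b0 := β * r) (b1 := r)
    (d := (47 / 50 - k0 - k1) * H) (Δ := 47 / 50 * H) (T := T) (z0 := z0) (z1 := z1)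
    (c0 := a0 * H) (c1 := a1 * H) (χ := χ) (tχ := tχ) (t0 := t0) (t1 := t1) (s := s)
    hm (mul_ne_zero hc0 hp0) (mul_ne_zero hc1 hp1) htie a1' b1' a2' b2'
    (hβ.trans (norm_le_add_real re0.le hm.le)) (n1'.trans (norm_le_add_real re1.le hm.le))
    hbr hr0 hpair (mul_pos (by linarith) hH) (by nlinarith) ?_ ?_ z01 z11 ?_ ?_ ?_ nχ1 hT ?_
    ht0 ht1 htχ q0 q1 qχ h01 hs hsT hfin
  · calc k0 * H ≤ k0 * (hr * r) := mul_le_mul_of_nonneg_left hHr hk0
      _ = k0 * hr * r := by ring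
      _ ≤ z0 * β * r := mul_le_mul_of_nonneg_right nz0 hr0.le
      _ = z0 * (β * r) := by ring
  · calc k1 * H ≤ k1 * (hr * r) := mul_le_mul_of_nonneg_left hHr hk1
      _ = k1 * hr * r := by ring
      _ ≤ z1 * r := mul_le_mul_of_nonneg_right nz1 hr0.le
  · calc v0 * H ^ 2 + (k0 * H) ^ 2 = (v0 + k0 ^ 2) * H * H := by ring
      _ ≤ (v0 + k0 ^ 2) * H * (hr * r) := mul_le_mul_of_nonneg_left hHr (by positivity)
      _ = (v0 + k0 ^ 2) * hr * (r * H) := by ring
      _ ≤ a0 * ((1 - z0) * β) * (r * H) := mul_le_mul_of_nonneg_right na0 (by positivity)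
      _ = a0 * H * ((1 - z0) * (β * r)) := by ring
  · calc v1 * H ^ 2 + (k1 * H) ^ 2 = (v1 + k1 ^ 2) * H * H := by ring
      _ ≤ (v1 + k1 ^ 2) * H * (hr * r) := mul_le_mul_of_nonneg_left hHr (by positivity)
      _ = (v1 + k1 ^ 2) * hr * (r * H) := by ring
      _ ≤ a1 * (1 - z1) * (r * H) := mul_le_mul_of_nonneg_right na1 (by positivity)
      _ = a1 * H * ((1 - z1) * r) := by ring
  · calc a0 * H + a1 * H = (a0 + a1) * H := by ring
      _ ≤ χ * (47 / 50 - k0 - k1) * H := mul_le_mul_of_nonneg_right nχ hH.le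
      _ = _ := by ring
  · have i0 : (kap r δ y0).im = y0 / δ := t2_kap_im _ _ _
    have i1 : (kap r δ y1).im = y1 / δ := t2_kap_im _ _ _
    rw [abs_of_nonneg hy0] at hT0
    rw [abs_of_nonpos hy1] at hT1
    have hTm : 0 ≤ T * m := mul_nonneg hT hm.le
    refine cone_opp hT ?_ ?_ ?_ ?_ ?_ ?_
    · simp only [Complex.add_re, Complex.ofReal_re]; linarith
    · simp only [Complex.add_re, Complex.ofReal_re]; linarith
    · simp only [Complex.add_im, Complex.ofReal_im, add_zero]; rw [i0]; positivity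
    · simp only [Complex.add_im, Complex.ofReal_im, add_zero, Complex.add_re, Complex.ofReal_re]
      rw [i0, t2_kap_re]
      have h5 : y0 / δ ≤ T * sx (r * δ) y0 / δ := by gcongr
      have h6 : T * sx (r * δ) y0 / δ = T * (sx (r * δ) y0 / δ) := by ring
      rw [mul_add]
      linarith
    · simp only [Complex.add_im, Complex.ofReal_im, add_zero]; rw [i1]
      exact div_nonpos_of_nonpos_of_nonneg hy1 hδ.le
    · simp only [Complex.add_im, Complex.ofReal_im, add_zero, Complex.add_re, Complex.ofReal_re]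
      rw [i1, t2_kap_re]
      have h5 : -y1 / δ ≤ T * sx (r * δ) y1 / δ := by gcongr
      have h6 : T * sx (r * δ) y1 / δ = T * (sx (r * δ) y1 / δ) := by ring
      have h7 : y1 / δ = -(-y1 / δ) := by ring
      rw [mul_add, h7]
      linarith

/-! ### parameters -/

theorem Par.HH_pos {N : ℕ} {r δ : ℝ} (h : Par N r δ) : 0 < HH N r δ := by
  have h1 := h.r0
  have h2 : (0 : ℝ) < N := by
    have := h.N2
    exact_mod_cast (by omega : 0 < N)
  have h3 : 0 < RR r δ := by unfold RR; positivity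
  have h4 := Real.pi_pos
  unfold HH hst
  have : 0 < √(RR r δ) := Real.sqrt_pos.2 h3
  have : 0 < r := by linarith
  positivity

theorem t2_HH_sq {N : ℕ} {r δ : ℝ} : HH N r δ ^ 2 = Gm N r δ * r := by
  have h3 : 0 < RR r δ := by unfold RR; positivity
  unfold HH Gm
  rw [div_pow, Real.sq_sqrt h3.le]
  ring

theorem Reg2.HH_le {r δ : ℝ} (h : Reg2 r δ) : HH 2 r δ ≤ 938 / 1000 * r := by
  have h1 := h.r0
  have h2 := h.rho
  have hr : 0 < r := by linarith
  refine abs_le_of_sq_le_sq' ?_ (by positivity) |>.2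
  rw [t2_HH_sq]
  unfold Gm RR
  rw [t2_hst_two]
  have h3 : (0 : ℝ) < 1 + (r * δ) ^ 2 := by positivity
  rw [div_mul_eq_mul_div, div_le_iff₀ h3]
  have h4 : Real.pi ^ 2 ≤ 9.8697 := by
    have := Real.pi_lt_d6
    have h5 := Real.pi_pos
    nlinarith
  have h6 : 1124 / 100 ≤ 1 + (r * δ) ^ 2 := by nlinarith
  have h7 : r * Real.pi ^ 2 * r ≤ r * 9.8697 * r := by gcongr
  have h8 : (938 / 1000 * r) ^ 2 * (1124 / 100) ≤ (938 / 1000 * r) ^ 2 * (1 + (r * δ) ^ 2) :=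
    mul_le_mul_of_nonneg_left h6 (sq_nonneg _)
  have h9 : 0 < r * r := by positivity
  nlinarith

theorem Reg2.HH_le' {r δ : ℝ} (h : Reg2 r δ) (hG : Gm 2 r δ < 10) : HH 2 r δ ≤ 448 / 1000 * r := by
  have h1 := h.r0
  have hr : 0 < r := by linarith
  refine abs_le_of_sq_le_sq' ?_ (by positivity) |>.2
  rw [t2_HH_sq]
  have h2 : Gm 2 r δ * r ≤ 10 * r := mul_le_mul_of_nonneg_right hG.le hr.le
  nlinarith

theorem Reg2.HH_le_of {r δ G q : ℝ} (h : Reg2 r δ) (hG : Gm 2 r δ < G) (hq : 0 ≤ q)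
    (hn : G ≤ q ^ 2 * (499 / 10)) : HH 2 r δ ≤ q * r := by
  have h1 := h.r0
  have hr : 0 < r := by linarith
  refine abs_le_of_sq_le_sq' ?_ (by positivity) |>.2
  rw [t2_HH_sq]
  have h2 : Gm 2 r δ * r ≤ q ^ 2 * (499 / 10) * r := mul_le_mul_of_nonneg_right (by linarith) hr.le
  have h3 : q ^ 2 * (499 / 10) * r ≤ q ^ 2 * r * r := by
    have := mul_le_mul_of_nonneg_left h1 (mul_nonneg (sq_nonneg q) hr.le)
    nlinarith
  nlinarith

theorem Reg2.rho_ge {r δ : ℝ} (h : Reg2 r δ) (hG : Gm 2 r δ < 17 / 2) : 754 / 100 ≤ r * δ := by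
  have h1 := h.r0
  have h2 := h.rho
  unfold Gm RR at hG
  rw [t2_hst_two, div_lt_iff₀ (by positivity)] at hG
  have hpi := Real.pi_gt_d6
  have h4 : 9.8695 ≤ Real.pi ^ 2 := by nlinarith
  have h5 : 499 / 10 * 9.8695 ≤ r * Real.pi ^ 2 := by
    calc 499 / 10 * 9.8695 ≤ r * 9.8695 := by linarith
      _ ≤ r * Real.pi ^ 2 := mul_le_mul_of_nonneg_left h4 (by linarith)
  refine abs_le_of_sq_le_sq' ?_ (by linarith) |>.2
  nlinarith

theorem om2_pos (r δ : ℝ) : 0 < om2 r δ := by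
  unfold om2
  split_ifs <;> norm_num

theorem om2_le (r δ : ℝ) : om2 r δ ≤ 17 / 100 := by
  unfold om2
  split_ifs <;> norm_num

theorem ei2_eo2 (r δ : ℝ) : ei2 r δ + eo2 r δ = Real.pi := by
  unfold ei2 eo2
  rw [t2_hst_two]
  ring

theorem ei2_nonneg (r δ : ℝ) : 0 ≤ ei2 r δ := by
  unfold ei2
  rw [t2_hst_two]
  have := om2_le r δ
  have := Real.pi_pos
  have : 0 ≤ 1 / 2 - om2 r δ := by linarith
  positivity

theorem ei2_le (r δ : ℝ) : ei2 r δ ≤ Real.pi / 2 := by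
  unfold ei2
  rw [t2_hst_two]
  have := om2_pos r δ
  have := Real.pi_pos
  nlinarith

theorem eo2_ge (r δ : ℝ) : Real.pi / 2 ≤ eo2 r δ := by
  have := ei2_eo2 r δ
  have := ei2_le r δ
  linarith

/-- facts on one saddle, `N = 2` -/
theorem Sad2.sx_pos {r δ y : ℝ} (h : Sad2 r δ y) : 0 < sx (r * δ) y := by
  have h1 := sx_nonneg (r * δ) y
  rcases h1.eq_or_lt with h2 | h2
  · exfalso
    have h3 := h.D
    unfold sD2 at h3
    rw [← h2] at h3
    have := h.lo
    have := h.hi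
    nlinarith
  · exact h2

theorem exp_neg_hi {y : ℝ} (h : y ≤ 13 / 20) : 52 / 100 ≤ Real.exp (-y) := by
  have h1 : Real.exp (-(13 / 20)) ≤ Real.exp (-y) := Real.exp_le_exp.2 (by linarith)
  refine le_trans ?_ h1
  rw [Real.exp_neg]
  have h2 : Real.exp (13 / 20) ≤ 1.92 := by
    have h := Real.exp_bound' (x := 13 / 20) (by norm_num) (by norm_num) (n := 7) (by norm_num)
    refine h.trans ?_
    norm_num [Finset.sum_range_succ, Nat.factorial]
  rw [le_inv_comm₀ (by norm_num) (Real.exp_pos _)]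
  refine h2.trans (by norm_num)

theorem exp_neg_hi' {y : ℝ} (h : y ≤ 21 / 50) : 657 / 1000 ≤ Real.exp (-y) := by
  have h1 : Real.exp (-(21 / 50)) ≤ Real.exp (-y) := Real.exp_le_exp.2 (by linarith)
  refine le_trans ?_ h1
  rw [Real.exp_neg]
  have h2 : Real.exp (21 / 50) ≤ 1.52197 := by
    have h := Real.exp_bound' (x := 21 / 50) (by norm_num) (by norm_num) (n := 7) (by norm_num)
    refine h.trans ?_
    norm_num [Finset.sum_range_succ, Nat.factorial]
  rw [le_inv_comm₀ (by norm_num) (Real.exp_pos _)]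
  refine h2.trans (by norm_num)

theorem ei2_le4 (r δ : ℝ) : ei2 r δ ≤ 2 / 5 * Real.pi := by
  unfold ei2
  rw [t2_hst_two]
  have h1 : 1 / 10 ≤ om2 r δ := by
    unfold om2
    split_ifs <;> norm_num
  have := Real.pi_pos
  nlinarith

/-- the inner saddles satisfy `y ≤ 21/50` -/
theorem At.y_in_le {r δ y η : ℝ} (h : Reg2 r δ) (hA : At r δ y η) (hη : η ≤ ei2 r δ) :
    y ≤ 21 / 50 := by
  have hρ := h.rho
  have hρ0 : 0 < r * δ := by linarith
  have hD : Dom (r * δ) (21 / 50) := dom_of hρ (by norm_num) (by norm_num)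
  refine hA.le hD (by norm_num) (hη.trans ((ei2_le4 r δ).trans ?_))
  refine le_trans ?_ (sE_ge hD (by norm_num))
  have h2 := p2_exp_neg_42
  have h3 := p2_exp_42'
  norm_num at h2 h3
  set ρ := r * δ with hρd
  have h7 : 5 / 8 - ρ * (25 / 256) ≤ 1 / ρ := by
    rw [le_div_iff₀ hρ0]
    nlinarith [sq_nonneg (ρ - 16 / 5)]
  have hpi := Real.pi_lt_d4
  norm_num at hpi
  have h4 : ρ * (3428 / 10000) ≤ ρ * (1 - Real.exp (-(21 / 50))) := by
    refine mul_le_mul_of_nonneg_left ?_ hρ0.le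
    linarith
  have h5 : 773 / 1000 * (1 / ρ) ≤ 21 / 50 * Real.exp (21 / 50) / ρ * (1 + 21 / 50 / 2) := by
    have e : 21 / 50 * Real.exp (21 / 50) / ρ * (1 + 21 / 50 / 2) =
        (21 / 50 * (1 + 21 / 50 / 2) * Real.exp (21 / 50)) * (1 / ρ) := by ring
    rw [e]
    refine mul_le_mul_of_nonneg_right ?_ (by positivity)
    linarith
  have h8 : 773 / 1000 * (5 / 8 - ρ * (25 / 256)) ≤ 773 / 1000 * (1 / ρ) := by linarith
  linarith

/-- the localisation for `N = 2` -/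
theorem loc_two (P : P2) {r δ η ya : ℝ} (h : Reg2 r δ) (hA : At r δ ya η) (hη : |η| ≤ ei2 r δ)
    {yb ζ C : ℝ} (hC0 : 0 ≤ C) (hout : Out r δ yb ζ C) (hgap : Gap r δ ya yb (1 / 2))
    (hC : (C ≤ 13 / 10 ∧ 0 ≤ η) ∨ (C ≤ 27 / 20 ∧ η ≤ 0)) {m : ℝ} (hm : 0 ≤ m) :
    ‖V1 r δ yb ζ + m * V0 r δ yb ζ‖ < ‖V1 r δ ya 0 + m * V0 r δ ya 0‖ := by
  have hei := ei2_le r δ
  have heo := eo2_ge r δ
  have hr0 : 0 < r := by linarith [h.r0]
  have hS := P.sad r δ ya η h hA (by linarith)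
  have hown := P.own r δ ya η h hA hS (by linarith) (Or.inl (by rw [t2_hst_two]; linarith))
  have hH := h.toPar.HH_pos
  have hHr := h.HH_le
  have hx := hS.sx_pos
  have hn := t2_norm_kap (r := r) h.d0 hA.dom
  have he := exp_neg_hi hS.hi
  have hκ : 0 < ‖kap r δ ya‖ := by
    rw [hn]
    have := Real.exp_pos (-ya)
    positivity
  have hδ := h.d0
  have hg : 9819 / 10000 * (‖kap r δ ya‖ + m) ≤ ‖kap r δ ya + m‖ := by
    refine t2_norm_add_ge (T := 2 / 5) (c := 92847 / 100000) hm ?_ ?_ (by norm_num) (by norm_num)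
      (by norm_num) (by norm_num) (by norm_num)
    · rw [t2_kap_re]; positivity
    · rw [t2_kap_im, t2_kap_re, abs_div, abs_of_pos hδ]
      have h5 : |ya| / δ ≤ 2 / 5 * sx (r * δ) ya / δ := by
        have := hS.T
        gcongr
      have h6 : 2 / 5 * sx (r * δ) ya / δ = 2 / 5 * (sx (r * δ) ya / δ) := by ring
      linarith
  have hexp : Real.exp (-(1 / 2)) ≤ 0.6066 := by
    rw [Real.exp_neg]
    have h2 : 1.6486 ≤ Real.exp (1 / 2) := by
      have h := Real.sum_le_exp_of_nonneg (x := 1 / 2) (by norm_num) 6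
      refine le_trans ?_ h
      norm_num [Finset.sum_range_succ, Nat.factorial]
    rw [inv_le_comm₀ (Real.exp_pos _) (by norm_num)]
    refine le_trans (by norm_num) h2
  have hexp0 := Real.exp_pos (-(1 / 2))
  have hM : 0 < sM r δ ya := sM_pos hA.y1
  rcases hC with ⟨hC, hη0⟩ | ⟨hC, hη0⟩
  · have hy := hA.nonneg hη0
    have hy2 : ya ≤ 21 / 50 := hA.y_in_le h (abs_le.1 hη).2
    have he2 := exp_neg_hi' hy2
    have hT : |ya| ≤ 205 / 1000 * sx (r * δ) ya := by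
      refine p2_T hA.dom (c := 4999 / 1000) (by norm_num) (by norm_num) (by norm_num) ?_
      rw [abs_of_nonneg hy]
      have h1 : 16 / 5 * (657 / 1000) ≤ r * δ * Real.exp (-ya) := by
        have := h.rho
        gcongr
      linarith
    have hg' : 9948 / 10000 * (‖kap r δ ya‖ + m) ≤ ‖kap r δ ya + m‖ := by
      refine t2_norm_add_ge (T := 205 / 1000) (c := 9796 / 10000) hm ?_ ?_ (by norm_num)
        (by norm_num) (by norm_num) (by norm_num) (by norm_num)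
      · rw [t2_kap_re]; positivity
      · rw [t2_kap_im, t2_kap_re, abs_div, abs_of_pos hδ]
        have h5 : |ya| / δ ≤ 205 / 1000 * sx (r * δ) ya / δ := by gcongr
        have h6 : 205 / 1000 * sx (r * δ) ya / δ = 205 / 1000 * (sx (r * δ) ya / δ) := by ring
        linarith
    refine loc_ineq hm hM hκ hown (by norm_num) hC0 hout hgap hg' (q := 786 / 10000) ?_
      (by norm_num) (by norm_num) ?_
    · rw [hn]
      have : r * (657 / 1000) ≤ r * Real.exp (-ya) := mul_le_mul_of_nonneg_left he2 hr0.le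
      linarith
    · have : C * Real.exp (-(1 / 2)) ≤ 13 / 10 * 0.6066 := by gcongr
      norm_num at this ⊢
      linarith
  · have hy := hA.nonpos hη0
    have he1 : 1 ≤ Real.exp (-ya) := Real.one_le_exp (by linarith)
    have hT : |ya| ≤ 12 / 100 * sx (r * δ) ya := by
      refine SokalF1T.abs_le_T (e := 0.3679) hA.dom (by norm_num) ?_ ?_
      · rw [abs_of_nonpos hy]
        exact SokalF1T.negexp_le hy
      · have := h.rho
        nlinarith
    have hg' : 9981 / 10000 * (‖kap r δ ya‖ + m) ≤ ‖kap r δ ya + m‖ := by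
      refine t2_norm_add_ge (T := 12 / 100) (c := 9928 / 10000) hm ?_ ?_ (by norm_num) (by norm_num)
        (by norm_num) (by norm_num) (by norm_num)
      · rw [t2_kap_re]; positivity
      · rw [t2_kap_im, t2_kap_re, abs_div, abs_of_pos hδ]
        have h5 : |ya| / δ ≤ 12 / 100 * sx (r * δ) ya / δ := by gcongr
        have h6 : 12 / 100 * sx (r * δ) ya / δ = 12 / 100 * (sx (r * δ) ya / δ) := by ring
        linarith
    refine loc_ineq hm hM hκ hown (by norm_num) hC0 hout hgap hg' (q := 52 / 1000) ?_ (by norm_num)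
      (by norm_num) ?_
    · rw [hn]
      have : r * 1 ≤ r * Real.exp (-ya) := mul_le_mul_of_nonneg_left he1 hr0.le
      linarith
    · have : C * Real.exp (-(1 / 2)) ≤ 27 / 20 * 0.6066 := by gcongr
      norm_num at this ⊢
      linarith

/-- **(U) for `N = 2`**, `ρ ≥ 16/5`. -/
theorem waveU_two (P : P2) {r δ : ℝ} (h : Reg2 r δ) : WaveU 2 δ r := by
  intro x g0 m c hx0 hx1 hg0 hc hm hF htie
  have hI : Finset.Ico (-1 : ℤ) (-1 + (2 : ℕ)) = {-1, 0} := by decide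
  rw [hI, Finset.sum_pair (by norm_num), Finset.sum_pair (by norm_num)] at htie
  rw [hI, Finset.sum_pair (by norm_num), Finset.sum_pair (by norm_num), Finset.sum_pair (by norm_num)]
  have hpi := Real.pi_pos
  have hδ := h.d0
  have hr0 : 0 < r := by linarith [h.r0]
  set η := x * Real.pi with hη
  have hη0 : 0 ≤ η := by positivity
  have hη1 : η < Real.pi := by nlinarith
  -- the waves
  have hw0 : wj 2 r δ x 0 = wp r δ η := by
    unfold wj
    rw [t2_hst_two]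
    congr 1
    push_cast
    ring
  have hw1 : wj 2 r δ x (-1) = wp r δ (η - Real.pi) := by
    unfold wj
    rw [t2_hst_two]
    congr 1
    push_cast
    ring
  rw [hw0, hw1] at htie ⊢
  have hc0 : c 0 ≠ 0 := norm_pos_iff.1 (by rw [hc 0]; exact hg0)
  have hc1 : c (-1) ≠ 0 := norm_pos_iff.1 (by rw [hc (-1)]; exact hg0)
  have hsum := ei2_eo2 r δ
  have hei0 := ei2_nonneg r δ
  have hei := ei2_le r δ
  have heo := eo2_ge r δ
  -- equal moduli at a tie
  have hnorm : ‖DE (tt δ) (wp r δ η) + m * E (tt δ) (wp r δ η)‖ =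
      ‖DE (tt δ) (wp r δ (η - Real.pi)) + m * E (tt δ) (wp r δ (η - Real.pi))‖ := by
    have h1 : c 0 * (DE (tt δ) (wp r δ η) + m * E (tt δ) (wp r δ η)) =
        -(c (-1) * (DE (tt δ) (wp r δ (η - Real.pi)) + m * E (tt δ) (wp r δ (η - Real.pi)))) := by
      linear_combination htie
    have h2 := congrArg norm h1
    rw [norm_neg, norm_mul, norm_mul, hc 0, hc (-1)] at h2
    exact mul_left_cancel₀ hg0.ne' h2
  rcases lt_or_ge η (ei2 r δ) with hcase | hcase
  · -- `η` inside, `η - π` outside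
    exfalso
    obtain ⟨ya, hAa⟩ := P.ex r δ η h (by rw [abs_of_nonneg hη0]; linarith)
    obtain ⟨yb, hAb⟩ := P.ex r δ (-eo2 r δ) h (by rw [abs_neg, abs_of_nonneg (by linarith)])
    have hSb := P.sad r δ yb _ h hAb (by rw [abs_neg, abs_of_nonneg (by linarith)])
    have hout := P.outR r δ yb (η - Real.pi + eo2 r δ) h hAb hSb (by linarith) (by linarith)
    have hgap := P.gapL r δ ya yb η h hAa hAb hη0 hcase.le
    have hl := loc_two P h hAa (by rw [abs_of_nonneg hη0]; exact hcase.le) (by norm_num) hout hgap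
      (Or.inl ⟨le_rfl, hη0⟩) hm.le
    unfold V1 V0 at hl
    rw [hAa.eta, hAb.eta, add_zero, show -eo2 r δ + (η - Real.pi + eo2 r δ) = η - Real.pi by ring] at hl
    rw [hnorm] at hl
    exact lt_irrefl _ hl
  rcases lt_or_ge (eo2 r δ) η with hcase2 | hcase2
  · -- `η` outside, `η - π` inside
    exfalso
    obtain ⟨ya, hAa⟩ := P.ex r δ (η - Real.pi) h (by rw [abs_of_nonpos (by linarith)]; linarith)
    obtain ⟨yb, hAb⟩ := P.ex r δ (eo2 r δ) h (by rw [abs_of_nonneg (by linarith)])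
    have hSb := P.sad r δ yb _ h hAb (by rw [abs_of_nonneg (by linarith)])
    have hout := P.outL r δ yb (η - eo2 r δ) h hAb hSb (by linarith) (by linarith)
    have hgap := P.gapR r δ ya yb (η - Real.pi) h hAa hAb (by linarith) (by linarith)
    have hl := loc_two P h hAa (by rw [abs_of_nonpos (by linarith)]; linarith) (by norm_num) hout hgap
      (Or.inr ⟨le_rfl, by linarith⟩) hm.le
    unfold V1 V0 at hl
    rw [hAa.eta, hAb.eta, add_zero, show eo2 r δ + (η - eo2 r δ) = η by ring] at hl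
    rw [hnorm] at hl
    exact lt_irrefl _ hl
  · -- the window
    have ha0 : |η| ≤ eo2 r δ := by rw [abs_of_nonneg hη0]; exact hcase2
    have ha1 : |η - Real.pi| ≤ eo2 r δ := by rw [abs_of_nonpos (by linarith)]; linarith
    obtain ⟨y0, hA0⟩ := P.ex r δ η h ha0
    obtain ⟨y1, hA1⟩ := P.ex r δ (η - Real.pi) h ha1
    have hS0 := P.sad r δ y0 _ h hA0 ha0
    have hS1 := P.sad r δ y1 _ h hA1 ha1
    have hy0 := hA0.nonneg hη0
    have hy1 := hA1.nonpos (by linarith)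
    have hpair := P.pair r δ y0 y1 η h hA0 (by rw [t2_hst_two]; exact hA1) hcase hcase2
    have hH := h.toPar.HH_pos
    have hn0 := t2_norm_kap (r := r) hδ hA0.dom
    -- the goal in terms of `V`
    have e00 : V0 r δ y0 0 = E (tt δ) (wp r δ η) := by unfold V0; rw [hA0.eta, add_zero]
    have e01 : V1 r δ y0 0 = DE (tt δ) (wp r δ η) := by unfold V1; rw [hA0.eta, add_zero]
    have e02 : V2 r δ y0 0 = SokalBPlus.D2E (tt δ) (wp r δ η) := by
      unfold V2; rw [hA0.eta, add_zero]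
    have e10 : V0 r δ y1 0 = E (tt δ) (wp r δ (η - Real.pi)) := by
      unfold V0; rw [hA1.eta, add_zero]
    have e11 : V1 r δ y1 0 = DE (tt δ) (wp r δ (η - Real.pi)) := by
      unfold V1; rw [hA1.eta, add_zero]
    have e12 : V2 r δ y1 0 = SokalBPlus.D2E (tt δ) (wp r δ (η - Real.pi)) := by
      unfold V2; rw [hA1.eta, add_zero]
    rw [← e00, ← e01, ← e10, ← e11] at htie
    rw [← e00, ← e01, ← e02, ← e10, ← e11, ← e12]
    rw [add_comm (c (-1) * V2 r δ y1 0), add_comm (c (-1) * V1 r δ y1 0),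
      add_comm (c (-1) * V0 r δ y1 0)]
    rw [add_comm (c (-1) * V1 r δ y1 0), add_comm (c (-1) * V0 r δ y1 0)] at htie
    rcases lt_or_ge (Gm 2 r δ) (17 / 2) with hG | hG
    · obtain ⟨-, hi0, hT0⟩ := P.sadA r δ y0 _ h hA0 ha0 (by linarith)
      obtain ⟨-, -, hT1⟩ := P.sadA r δ y1 _ h hA1 ha1 (by linarith)
      have hβ : 72 / 100 * r ≤ ‖kap r δ y0‖ := by
        rw [hn0]
        have hρ := h.rho_ge hG
        have hρ0 : 0 < r * δ := by linarith
        have h1 := sx_le hA0.dom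
        have h2 := sP_nonneg hρ0 hy0
        have h3 := hA0.eta
        unfold sE at h3
        have h4 : eo2 r δ ≤ 2.105 := by
          unfold eo2
          rw [t2_hst_two]
          have := om2_le r δ
          have := Real.pi_lt_d6
          nlinarith
        have h5 : r * δ * (72 / 100) ≤ r * δ * Real.exp (-y0) := by linarith
        have h6 := le_of_mul_le_mul_left h5 hρ0
        have := mul_le_mul_of_nonneg_left h6 hr0.le
        linarith
      have hHr := h.HH_le_of (G := 17 / 2) (q := 413 / 1000) hG (by norm_num) (by norm_num)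
      rcases le_total η (Real.pi / 2) with hh | hh
      · have ho0 := P.own r δ y0 _ h hA0 hS0 ha0 (Or.inl (by rw [abs_of_nonneg hη0, t2_hst_two]; exact hh))
        have ho1 := P.ownA r δ y1 _ h hA1 hS1 ha1 hG
        exact win hm hδ hH hHr hr0 (by norm_num) hc0 hc1 hA0.dom hA1.dom hy0 hy1 hA1.y1 hS0.sx_pos
          hS1.sx_pos hT0 hT1 (by norm_num) hβ (by norm_num) ho0 ho1 (by norm_num) (by norm_num)
          (by norm_num) (by norm_num) (by norm_num) (by norm_num) hpair htie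
          (z0 := 32 / 1000) (z1 := 124 / 1000) (a0 := 73 / 1000) (a1 := 326 / 1000)
          (χ := 69 / 100) (t0 := 33 / 1000) (t1 := 126 / 1000) (s := 16 / 100) (tχ := 96 / 100)
          (by norm_num) (by norm_num) (by norm_num) (by norm_num) (by norm_num) (by norm_num)
          (by norm_num) (by norm_num) (by norm_num) (by norm_num) (by norm_num) (by norm_num)
          (by norm_num) (by norm_num) (by norm_num) (by norm_num) (by norm_num) (by norm_num)
          (by norm_num)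
      · have ho0 := P.ownA r δ y0 _ h hA0 hS0 ha0 hG
        have ho1 := P.own r δ y1 _ h hA1 hS1 ha1
          (Or.inl (by rw [abs_of_nonpos (by linarith), t2_hst_two]; linarith))
        exact win hm hδ hH hHr hr0 (by norm_num) hc0 hc1 hA0.dom hA1.dom hy0 hy1 hA1.y1 hS0.sx_pos
          hS1.sx_pos hT0 hT1 (by norm_num) hβ (by norm_num) ho0 ho1 (by norm_num) (by norm_num)
          (by norm_num) (by norm_num) (by norm_num) (by norm_num) hpair htie
          (z0 := 1725 / 10000) (z1 := 23 / 1000) (a0 := 479 / 1000) (a1 := 5202 / 100000)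
          (χ := 91 / 100) (t0 := 1755 / 10000) (t1 := 2305 / 100000) (s := 2 / 10) (tχ := 22 / 10)
          (by norm_num) (by norm_num) (by norm_num) (by norm_num) (by norm_num) (by norm_num)
          (by norm_num) (by norm_num) (by norm_num) (by norm_num) (by norm_num) (by norm_num)
          (by norm_num) (by norm_num) (by norm_num) (by norm_num) (by norm_num) (by norm_num)
          (by norm_num)
    rcases lt_or_ge (Gm 2 r δ) 10 with hG2 | hG2
    · obtain ⟨-, hi0, hT0⟩ := P.sadA r δ y0 _ h hA0 ha0 hG2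
      obtain ⟨-, -, hT1⟩ := P.sadA r δ y1 _ h hA1 ha1 hG2
      have hβ : 657 / 1000 * r ≤ ‖kap r δ y0‖ := by
        rw [hn0]
        have := mul_le_mul_of_nonneg_left (exp_neg_hi' hi0) hr0.le
        linarith
      have hHr := h.HH_le_of (G := 10) (q := 448 / 1000) hG2 (by norm_num) (by norm_num)
      rcases le_total η (Real.pi / 2) with hh | hh
      · have ho0 := P.own r δ y0 _ h hA0 hS0 ha0 (Or.inl (by rw [abs_of_nonneg hη0, t2_hst_two]; exact hh))
        have ho1 := P.ownA2 r δ y1 _ h hA1 hS1 ha1 hG hG2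
        exact win hm hδ hH hHr hr0 (by norm_num) hc0 hc1 hA0.dom hA1.dom hy0 hy1 hA1.y1 hS0.sx_pos
          hS1.sx_pos hT0 hT1 (by norm_num) hβ (by norm_num) ho0 ho1 (by norm_num) (by norm_num)
          (by norm_num) (by norm_num) (by norm_num) (by norm_num) hpair htie
          (z0 := 38 / 1000) (z1 := 112 / 1000) (a0 := 88 / 1000) (a1 := 284 / 1000)
          (χ := 59 / 100) (t0 := 39 / 1000) (t1 := 113 / 1000) (s := 16 / 100) (tχ := 75 / 100)
          (by norm_num) (by norm_num) (by norm_num) (by norm_num) (by norm_num) (by norm_num)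
          (by norm_num) (by norm_num) (by norm_num) (by norm_num) (by norm_num) (by norm_num)
          (by norm_num) (by norm_num) (by norm_num) (by norm_num) (by norm_num) (by norm_num)
          (by norm_num)
      · have ho0 := P.ownA2 r δ y0 _ h hA0 hS0 ha0 hG hG2
        have ho1 := P.own r δ y1 _ h hA1 hS1 ha1
          (Or.inl (by rw [abs_of_nonpos (by linarith), t2_hst_two]; linarith))
        exact win hm hδ hH hHr hr0 (by norm_num) hc0 hc1 hA0.dom hA1.dom hy0 hy1 hA1.y1 hS0.sx_pos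
          hS1.sx_pos hT0 hT1 (by norm_num) hβ (by norm_num) ho0 ho1 (by norm_num) (by norm_num)
          (by norm_num) (by norm_num) (by norm_num) (by norm_num) hpair htie
          (z0 := 171 / 1000) (z1 := 25 / 1000) (a0 := 463 / 1000) (a1 := 57 / 1000)
          (χ := 82 / 100) (t0 := 174 / 1000) (t1 := 26 / 1000) (s := 21 / 100) (tχ := 145 / 100)
          (by norm_num) (by norm_num) (by norm_num) (by norm_num) (by norm_num) (by norm_num)
          (by norm_num) (by norm_num) (by norm_num) (by norm_num) (by norm_num) (by norm_num)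
          (by norm_num) (by norm_num) (by norm_num) (by norm_num) (by norm_num) (by norm_num)
          (by norm_num)
    rcases lt_or_ge (Gm 2 r δ) 20 with hG3 | hG3
    · have hβ : 52 / 100 * r ≤ ‖kap r δ y0‖ := by
        rw [hn0]
        have := mul_le_mul_of_nonneg_left (exp_neg_hi hS0.hi) hr0.le
        linarith
      have hHr := h.HH_le_of (G := 20) (q := 634 / 1000) hG3 (by norm_num) (by norm_num)
      have ho0 := P.own2 r δ y0 _ h hA0 hS0 ha0 hG2 hG3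
      have ho1 := P.own2 r δ y1 _ h hA1 hS1 ha1 hG2 hG3
      exact win hm hδ hH hHr hr0 (by norm_num) hc0 hc1 hA0.dom hA1.dom hy0 hy1 hA1.y1 hS0.sx_pos
        hS1.sx_pos hS0.T hS1.T (by norm_num) hβ (by norm_num) ho0 ho1 (by norm_num) (by norm_num)
        (by norm_num) (by norm_num) (by norm_num) (by norm_num) hpair htie
        (z0 := 98 / 1000) (z1 := 51 / 1000) (a0 := 28 / 100) (a1 := 138 / 1000)
        (χ := 54 / 100) (t0 := 99 / 1000) (t1 := 52 / 1000) (s := 155 / 1000) (tχ := 65 / 100)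
        (by norm_num) (by norm_num) (by norm_num) (by norm_num) (by norm_num) (by norm_num)
        (by norm_num) (by norm_num) (by norm_num) (by norm_num) (by norm_num) (by norm_num)
        (by norm_num) (by norm_num) (by norm_num) (by norm_num) (by norm_num) (by norm_num)
        (by norm_num)
    · have hβ : 52 / 100 * r ≤ ‖kap r δ y0‖ := by
        rw [hn0]
        have := mul_le_mul_of_nonneg_left (exp_neg_hi hS0.hi) hr0.le
        linarith
      have hHr := h.HH_le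
      have ho0 := P.own r δ y0 _ h hA0 hS0 ha0 (Or.inr hG3)
      have ho1 := P.own r δ y1 _ h hA1 hS1 ha1 (Or.inr hG3)
      exact win hm hδ hH hHr hr0 (by norm_num) hc0 hc1 hA0.dom hA1.dom hy0 hy1 hA1.y1 hS0.sx_pos
        hS1.sx_pos hS0.T hS1.T (by norm_num) hβ (by norm_num) ho0 ho1 (by norm_num) (by norm_num)
        (by norm_num) (by norm_num) (by norm_num) (by norm_num) hpair htie
        (z0 := 100 / 1000) (z1 := 52 / 1000) (a0 := 248 / 1000) (a1 := 123 / 1000)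
        (χ := 45 / 100) (t0 := 101 / 1000) (t1 := 53 / 1000) (s := 157 / 1000) (tχ := 51 / 100)
        (by norm_num) (by norm_num) (by norm_num) (by norm_num) (by norm_num) (by norm_num)
        (by norm_num) (by norm_num) (by norm_num) (by norm_num) (by norm_num) (by norm_num)
        (by norm_num) (by norm_num) (by norm_num) (by norm_num) (by norm_num) (by norm_num)
        (by norm_num)

/-- the parameters of `Glue.dist_F1_of`, `N = 2` -/
theorem reg2_of {r δ : ℝ} (hr : 499 / 10 ≤ r) (hρ : 16 / 5 ≤ r * δ)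
    (hQ : 4 * (1 + (r * δ) ^ 2) ≤ 7.2552 * r) : Reg2 r δ := by
  have hr0 : 0 < r := by linarith
  have hδ : 0 < δ := by
    by_contra h
    push Not at h
    nlinarith
  refine ⟨⟨le_rfl, hr, hδ, ?_⟩, hρ⟩
  unfold Gm RR
  rw [t2_hst_two, le_div_iff₀ (by positivity)]
  have hpi := Real.pi_gt_d6
  have h4 : 9.8695 ≤ Real.pi ^ 2 := by nlinarith
  nlinarith

theorem hW2 (P : P2) (δ r : ℝ) (hr : 499 / 10 ≤ r) (hρ : 16 / 5 ≤ r * δ)
    (hQ : 4 * (1 + (r * δ) ^ 2) ≤ 7.2552 * r) : WaveU 2 δ r := waveU_two P (reg2_of hr hρ hQ)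

end SokalV3
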