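import Pool.Agent.Lib_MP_af4de1_v3.T2Com
import Pool.Agent.Lib_MP_af4de1_v3.Two

/-!
# `N = 2`: `PTC` (`Γ < 17/2`)
-/

set_option autoImplicit false

open Complex MeasureTheory Set SokalU SokalPG SokalF1 SokalF1S SokalF1M SokalF1G SokalF1B

namespace SokalV3

theorem t2c_D {D x x0 e T : ℝ} (hx0 : 0 ≤ x0) (hx : x0 ≤ x) (hT : 1 ≤ T) (hD : D ^ 2 ≤ e + x ^ 2)
    (h : e ≤ (T ^ 2 - 1) * x0 ^ 2) : D ≤ T * x := by
  have h1 : 0 ≤ T * x := by
    have : 0 ≤ x := hx0.trans hx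
    positivity
  refine abs_le_of_sq_le_sq' ?_ h1 |>.2
  have h2 : (T ^ 2 - 1) * x0 ^ 2 ≤ (T ^ 2 - 1) * x ^ 2 := by
    have : 0 ≤ T ^ 2 - 1 := by nlinarith
    gcongr
  rw [mul_pow]
  linarith

theorem n_le {n ρ : ℝ} (hρ : 0 < ρ) (hn : Real.exp n ≤ 1 + 2105 / 1000 / ρ) :
    n ≤ 2105 / 1000 / ρ - (2105 / 1000 / ρ) ^ 2 / 2 + (2105 / 1000 / ρ) ^ 3 / 3 :=
  le_log3 (by positivity) hn

/-- upper bound of `log3 (2.105/ρ)` for `ρ ≥ ρ₀` -/
theorem n_le' {n ρ ρ0 : ℝ} (hρ0 : 0 < ρ0) (hρ : ρ0 ≤ ρ) (hn : Real.exp n ≤ 1 + 2105 / 1000 / ρ) :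
    n ≤ 2105 / 1000 / ρ0 - (2105 / 1000 / ρ0) ^ 2 / 2 + (2105 / 1000 / ρ0) ^ 3 / 3 := by
  refine le_log3 (by positivity) (hn.trans ?_)
  gcongr

/-- `y ≤ 0`, the lump of the side `ε = -1`, `c ≤ 9/100` -/
theorem c_neg1 {x n ρ w D : ℝ} (hρ : 754 / 100 ≤ ρ) (h2 : x ≤ ρ + 2105 / 1000)
    (hc : (1 + x)⁻¹ ≤ 9 / 100) (hx : 91 / 9 ≤ x)
    (hn0 : 0 ≤ n) (hn : Real.exp n ≤ 1 + 2105 / 1000 / ρ)
    (hw1 : 54712 / 100000 * (ρ + 1 / ρ) ≤ w) (hw2 : 499 / 10 / ρ ≤ w) (hw3 : 522 / 100 ≤ w)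
    (hD0 : 0 < D) (hD : D ^ 2 ≤ 1 + x ^ 2) :
    tP (-1) x n w ≤ 999 / 10000 * √(2 * Real.pi / (w * D)) := by
  have hρ0 : 0 < ρ := by linarith
  have hn1 : n ≤ 2475 / 10000 := by
    refine (n_le' (by norm_num) hρ hn).trans ?_
    norm_num
  have hna : |n| = n := abs_of_nonneg hn0
  have hq : 4697 / 10000 * x ≤ 473 / 1000 * x - 134 / 1000 * |n| := by rw [hna]; linarith
  have hx1 : 0 < 1 + x := by linarith
  have hC : (ρ + 3105 / 1000)⁻¹ ≤ (1 + x)⁻¹ := by
    apply inv_anti₀ hx1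
    linarith
  refine lump_neg (κ := 1071 / 1000) (l := 10698 / 10000) (q1 := 4697 / 10000) (E := 1638 / 1000)
    (M := 1) (cm := 9 / 100) (K := 308161 / 10000) (L := 23717 / 10000) (by linarith) (by linarith)
    (by norm_num) hD0 hc (by norm_num) ?_ (by norm_num) hq (tm_neg_sq (by linarith) hn0 (by linarith))
    (by norm_num) (by norm_num) ?_ ?_ (by norm_num) ?_ ?_
  · refine (exp_five (by norm_num) (by norm_num)).trans ?_
    norm_num
  · have h5 : 522 / 100 * (4697 / 10000 * (91 / 9)) ≤ w * (4697 / 10000 * x) := by gcongr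
    norm_num at h5 ⊢
    linarith
  · refine (t2c_D (x0 := 91 / 9) (T := 2 * (10698 / 10000) * (4697 / 10000)) (by norm_num) hx
      (by norm_num) hD (by norm_num)).trans (le_of_eq (by ring))
  · have e3 : (650039 / 10000 + 308161 / 10000 : ℝ) = 4791 / 50 := by norm_num
    rw [e3]
    rcases le_total (19 / 2) ρ with h95 | h95
    · refine neg_red (w0 := 54712 / 100000 * (ρ + 1 / ρ)) hw1 ?_ (by positivity) hC
        (by linarith) (by norm_num) (by norm_num) ?_ (n_le hρ0 hn) (by norm_num) (ev_c1 h95)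
      · have : 0 < 1 / ρ := by positivity
        linarith
      · exact hn0.trans (n_le hρ0 hn)
    · refine neg_red (w0 := 499 / 10 / ρ) hw2 ?_ (by positivity) hC
        (by linarith) (by norm_num) (by norm_num) ?_ (n_le hρ0 hn) (by norm_num)
        (ev_c2 (by linarith) h95)
      · rw [le_div_iff₀ hρ0]
        linarith
      · exact hn0.trans (n_le hρ0 hn)
  · have h6 := exp_neg_le_of (k := 4) (t := 7434 / 10000) (L := 23717 / 10000)
      (A := 11482 / 100) (by norm_num) (by norm_num) (by norm_num) (by norm_num)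
    calc 1071 / 1000 * (10698 / 10000) * Real.exp (-(2 * (23717 / 10000))) ≤
        1071 / 1000 * (10698 / 10000) * (1 / (11482 / 100)) := by gcongr
      _ ≤ (999 / 10000) ^ 2 := by norm_num

/-- `y ≤ 0`, the lump of the side `ε = -1`, `c ≥ 9/100` -/
theorem c_neg2 {x n ρ w D : ℝ} (hρ : 754 / 100 ≤ ρ) (h1 : ρ ≤ x)
    (hc : 9 / 100 ≤ (1 + x)⁻¹)
    (hn0 : 0 ≤ n) (hn : Real.exp n ≤ 1 + 2105 / 1000 / ρ)
    (hw2 : 499 / 10 / ρ ≤ w) (hw3 : 522 / 100 ≤ w)
    (hD0 : 0 < D) (hD : D ^ 2 ≤ 1 + x ^ 2) :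
    tP (-1) x n w ≤ 999 / 10000 * √(2 * Real.pi / (w * D)) := by
  have hρ0 : 0 < ρ := by linarith
  have hn1 : n ≤ 2475 / 10000 := by
    refine (n_le' (by norm_num) hρ hn).trans ?_
    norm_num
  have hna : |n| = n := abs_of_nonneg hn0
  have hx : 754 / 100 ≤ x := by linarith
  have hq : 4686 / 10000 * x ≤ 473 / 1000 * x - 134 / 1000 * |n| := by rw [hna]; linarith
  have hx1 : 0 < 1 + x := by linarith
  have hcm : (1 + x)⁻¹ ≤ 1171 / 10000 := by
    rw [inv_le_comm₀ hx1 (by norm_num)]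
    norm_num
    linarith
  refine lump_neg (κ := 1115 / 1000) (l := 10765 / 10000) (q1 := 4686 / 10000) (E := 19 / 10)
    (M := 1) (cm := 1171 / 10000) (K := 385 / 10) (L := 2395 / 1000) (by linarith) (by linarith)
    (by norm_num) hD0 hcm (by norm_num) ?_ (by norm_num) hq (tm_neg_sq (by linarith) hn0 (by linarith))
    (by norm_num) (by norm_num) ?_ ?_ (by norm_num) ?_ ?_
  · refine (exp_five (by norm_num) (by norm_num)).trans ?_
    norm_num
  · have h5 : 522 / 100 * (4686 / 10000 * (754 / 100)) ≤ w * (4686 / 10000 * x) := by gcongr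
    norm_num at h5 ⊢
    linarith
  · refine (t2c_D (x0 := 754 / 100) (T := 2 * (10765 / 10000) * (4686 / 10000)) (by norm_num) hx
      (by norm_num) hD (by norm_num)).trans (le_of_eq (by ring))
  · rcases le_total (17 / 2) ρ with h85 | h85
    · refine neg_red (w0 := 522 / 100) hw3 (by norm_num) (C := 9 / 100) (by norm_num) hc
        (by linarith) (by norm_num) (by norm_num) (N := 22205 / 100000) (by norm_num) ?_
        (by norm_num) (by norm_num)
      refine (n_le' (by norm_num) h85 hn).trans ?_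
      norm_num
    · have hw4 : 587 / 100 ≤ w := by
        refine le_trans ?_ hw2
        rw [le_div_iff₀ hρ0]
        linarith
      refine neg_red (w0 := 587 / 100) hw4 (by norm_num) (C := 9 / 100) (by norm_num) hc
        (by linarith) (by norm_num) (by norm_num) (N := 2475 / 10000) (by norm_num) hn1
        (by norm_num) (by norm_num)
  · have h6 := exp_neg_le_of (k := 4) (t := 79 / 100) (L := 2395 / 1000)
      (A := 12028 / 100) (by norm_num) (by norm_num) (by norm_num) (by norm_num)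
    calc 1115 / 1000 * (10765 / 10000) * Real.exp (-(2 * (2395 / 1000))) ≤
        1115 / 1000 * (10765 / 10000) * (1 / (12028 / 100)) := by gcongr
      _ ≤ (999 / 10000) ^ 2 := by norm_num

/-- `y ≤ 0`, the lump of the side `ε = 1` -/
theorem c_neg3 {x n ρ w D : ℝ} (hρ : 754 / 100 ≤ ρ) (h1 : ρ ≤ x) (h2 : x ≤ ρ + 2105 / 1000)
    (hn0 : 0 ≤ n) (hn : Real.exp n ≤ 1 + 2105 / 1000 / ρ)
    (hw1 : 54712 / 100000 * (ρ + 1 / ρ) ≤ w) (hw2 : 499 / 10 / ρ ≤ w) (hw3 : 522 / 100 ≤ w)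
    (hD0 : 0 < D) (hD : D ^ 2 ≤ 1 + x ^ 2) :
    tP 1 x (-n) w ≤ 1 / 1000 * √(2 * Real.pi / (w * D)) := by
  have hρ0 : 0 < ρ := by linarith
  have hn1 : n ≤ 2475 / 10000 := by
    refine (n_le' (by norm_num) hρ hn).trans ?_
    norm_num
  have hna : |-n| = n := by rw [abs_neg, abs_of_nonneg hn0]
  have hx : 754 / 100 ≤ x := by linarith
  have hq : 4686 / 10000 * x ≤ 473 / 1000 * x - 134 / 1000 * |-n| := by rw [hna]; linarith
  have hx1 : 0 < 1 + x := by linarith
  have hcm : (1 + x)⁻¹ ≤ 1171 / 10000 := by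
    rw [inv_le_comm₀ hx1 (by norm_num)]
    norm_num
    linarith
  have hta : ta x ≤ 1 := by
    rw [ta_eq (by linarith)]
    linarith
  have hc0 : 0 < (1 + x)⁻¹ := inv_pos.2 hx1
  refine lump_pos (κ := 106 / 100) (l := 10765 / 10000) (q1 := 4686 / 10000)
    (M := 1) (cm := 1171 / 10000) (K := 193 / 10) (L := 7) (by linarith) (by linarith)
    (by norm_num) hD0 hcm (by norm_num) (by norm_num) hq
    (tm_pos_sq' (by linarith) hn0 (by linarith) hta)
    (by norm_num) (by norm_num) ?_ ?_ (by norm_num) ?_ ?_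
  · have h5 : 522 / 100 * (4686 / 10000 * (754 / 100)) ≤ w * (4686 / 10000 * x) := by gcongr
    norm_num at h5 ⊢
    linarith
  · refine (t2c_D (x0 := 754 / 100) (T := 2 * (10765 / 10000) * (4686 / 10000)) (by norm_num) hx
      (by norm_num) hD (by norm_num)).trans (le_of_eq (by ring))
  · -- `w c ≥ .415`
    have hwc : 415 / 1000 ≤ w * (1 + x)⁻¹ := by
      rw [← div_eq_mul_inv, le_div_iff₀ hx1]
      have h6 : 415 / 1000 * (1 + x) ≤ 415 / 1000 * (ρ + 3105 / 1000) := by linarith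
      refine h6.trans ?_
      rcases le_total (19 / 2) ρ with h95 | h95
      · refine le_trans ?_ hw1
        have h7 : 4 / 19 - ρ * (4 / 361) ≤ 1 / ρ := by
          rw [le_div_iff₀ hρ0]
          nlinarith [sq_nonneg (1 - 2 * ρ / 19)]
        linarith
      · refine le_trans ?_ hw2
        rw [le_div_iff₀ hρ0]
        nlinarith
    have h8 : 1754 / 100 ≤ 194166 / 10000 - 124127 / 10000 * (1 + x)⁻¹ -
      (101484 / 10000 + 193 / 10) * (1 + x)⁻¹ ^ 2 - 11845 / 1000 * (1 + x)⁻¹ ^ 3 := by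
      have h9 : (1 + x)⁻¹ ^ 2 ≤ (1171 / 10000) ^ 2 := by gcongr
      have h10 : (1 + x)⁻¹ ^ 3 ≤ (1171 / 10000) ^ 3 := by gcongr
      norm_num at h9 h10 ⊢
      linarith
    have h11 : 0 ≤ 2 * Real.pi * n := by
      have := Real.pi_pos
      positivity
    have h12 : 415 / 1000 * (1754 / 100) ≤ w * (1 + x)⁻¹ * (194166 / 10000 - 124127 / 10000 *
      (1 + x)⁻¹ - (101484 / 10000 + 193 / 10) * (1 + x)⁻¹ ^ 2 - 11845 / 1000 * (1 + x)⁻¹ ^ 3) :=
      mul_le_mul hwc h8 (by norm_num) (by positivity)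
    have h13 : 0 ≤ w * (2 * Real.pi * n) := by positivity
    have e : w * ((1 + x)⁻¹ * (194166 / 10000 - 124127 / 10000 * (1 + x)⁻¹ -
        (101484 / 10000 + 193 / 10) * (1 + x)⁻¹ ^ 2 - 11845 / 1000 * (1 + x)⁻¹ ^ 3) -
        2 * Real.pi * -n) = w * (1 + x)⁻¹ * (194166 / 10000 - 124127 / 10000 * (1 + x)⁻¹ -
        (101484 / 10000 + 193 / 10) * (1 + x)⁻¹ ^ 2 - 11845 / 1000 * (1 + x)⁻¹ ^ 3) +
        w * (2 * Real.pi * n) := by ring
    rw [e]
    have h14 : (7 : ℝ) ≤ 415 / 1000 * (1754 / 100) := by norm_num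
    have h15 : 0 ≤ 137 / 50 * (1 + x)⁻¹ := by positivity
    linarith
  · have h6 := exp_neg_le_of (k := 14) (t := 0) (L := 7)
      (A := 1200000) (by norm_num) (by norm_num) (by norm_num) (by norm_num)
    calc 106 / 100 * (10765 / 10000) * Real.exp (-(2 * 7)) ≤
        106 / 100 * (10765 / 10000) * (1 / 1200000) := by gcongr
      _ ≤ (1 / 1000) ^ 2 := by norm_num

/-- `y ≥ 0`, the lump of the side `ε = 1` -/
theorem c_pos1 {x y ρ w D : ℝ} (hx : 5435 / 1000 ≤ x) (h1 : x ≤ ρ)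
    (hy0 : 0 ≤ y) (hy : Real.exp y ≤ 1 + 2105 / 1000 / x)
    (hw1 : 54712 / 100000 * (ρ + 1 / ρ) ≤ w) (hw3 : 522 / 100 ≤ w)
    (hD0 : 0 < D) (hD : D ^ 2 ≤ (1 + y) ^ 2 + x ^ 2) :
    tP 1 x y w ≤ 999 / 10000 * √(2 * Real.pi / (w * D)) := by
  have hx0 : 0 < x := by linarith
  have hρ0 : 0 < ρ := by linarith
  have hyl := n_le hx0 hy
  have hy1 : y ≤ 3317 / 10000 := by
    refine (n_le' (by norm_num) hx hy).trans ?_
    norm_num
  have hya : |y| = y := abs_of_nonneg hy0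
  have hq : 4648 / 10000 * x ≤ 473 / 1000 * x - 134 / 1000 * |y| := by rw [hya]; linarith
  have hx1 : 0 < 1 + x := by linarith
  have hcm : (1 + x)⁻¹ ≤ 1555 / 10000 := by
    rw [inv_le_comm₀ hx1 (by norm_num)]
    norm_num
    linarith
  have hc0 : 0 < (1 + x)⁻¹ := inv_pos.2 hx1
  have hpi : Real.pi ≤ 3141593 / 1000000 := by
    have := Real.pi_lt_d6
    norm_num at this ⊢
    linarith
  refine lump_pos (κ := 10821 / 10000) (l := 11081 / 10000) (q1 := 4648 / 10000)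
    (M := 2322 / 1000) (cm := 1555 / 10000) (K := 481016 / 10000) (L := 23944 / 10000)
    (by linarith) (by linarith) (by norm_num) hD0 hcm (by norm_num) (by norm_num) hq
    (tm_pos_sq (S := 15782 / 10000) (by linarith) hy0 hcm (by norm_num) (by norm_num) ?_)
    (by norm_num) (by norm_num) ?_ ?_ (by norm_num) ?_ ?_
  · calc (1 + y * (15782 / 10000)) ^ 2 ≤ (1 + 3317 / 10000 * (15782 / 10000)) ^ 2 := by gcongr
      _ ≤ 2322 / 1000 := by norm_num
  · have h5 : 522 / 100 * (4648 / 10000 * (5435 / 1000)) ≤ w * (4648 / 10000 * x) := by gcongr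
    norm_num at h5 ⊢
    linarith
  · refine (t2c_D (x0 := 5435 / 1000) (T := 2 * (11081 / 10000) * (4648 / 10000)) (by norm_num) hx
      (by norm_num) hD ?_).trans (le_of_eq (by ring))
    calc (1 + y) ^ 2 ≤ (1 + 3317 / 10000) ^ 2 := by gcongr
      _ ≤ _ := by norm_num
  · have e3 : (101484 / 10000 + 481016 / 10000 : ℝ) = 233 / 4 := by norm_num
    rw [e3]
    have hl0 := hy0.trans hyl
    have hXY : (1 + x)⁻¹ * (194166 / 10000 - 124127 / 10000 * (1 + x)⁻¹ -
        233 / 4 * (1 + x)⁻¹ ^ 2 - 11845 / 1000 * (1 + x)⁻¹ ^ 3) - 628319 / 100000 *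
        (2105 / 1000 / x - (2105 / 1000 / x) ^ 2 / 2 + (2105 / 1000 / x) ^ 3 / 3) ≤
        (1 + x)⁻¹ * (194166 / 10000 - 124127 / 10000 * (1 + x)⁻¹ -
        233 / 4 * (1 + x)⁻¹ ^ 2 - 11845 / 1000 * (1 + x)⁻¹ ^ 3) - 2 * Real.pi * y := by
      have : 2 * Real.pi * y ≤ 628319 / 100000 *
          (2105 / 1000 / x - (2105 / 1000 / x) ^ 2 / 2 + (2105 / 1000 / x) ^ 3 / 3) := by
        calc 2 * Real.pi * y ≤ 2 * (3141593 / 1000000) * y := by gcongr
          _ ≤ 628319 / 100000 * y := by linarith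
          _ ≤ _ := by gcongr
      linarith
    have hcL : 137 / 50 * (1 + x)⁻¹ ≤ 23944 / 10000 := by linarith
    rcases le_total x (96 / 10) with h9 | h9
    · exact pos_red (w0 := 522 / 100) hw3 (by norm_num) hXY
        (ev_cp1 (by linarith) (by linarith)) hcL
    · refine pos_red (w0 := 54712 / 100000 * x) (le_trans ?_ hw1) (by positivity) hXY
        (ev_cp2 (by linarith)) hcL
      have : 0 < 1 / ρ := by positivity
      have : x ≤ ρ + 1 / ρ := by linarith
      gcongr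
  · have h6 := exp_neg_le_of (k := 4) (t := 7888 / 10000) (L := 23944 / 10000)
      (A := 12015 / 100) (by norm_num) (by norm_num) (by norm_num) (by norm_num)
    calc 10821 / 10000 * (11081 / 10000) * Real.exp (-(2 * (23944 / 10000))) ≤
        10821 / 10000 * (11081 / 10000) * (1 / (12015 / 100)) := by gcongr
      _ ≤ (999 / 10000) ^ 2 := by norm_num

/-- `y ≥ 0`, the lump of the side `ε = -1` -/
theorem c_pos2 {x y ρ w D : ℝ} (hx : 5435 / 1000 ≤ x) (h1 : x ≤ ρ)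
    (hy0 : 0 ≤ y) (hy : Real.exp y ≤ 1 + 2105 / 1000 / x)
    (hw1 : 54712 / 100000 * (ρ + 1 / ρ) ≤ w) (hw3 : 522 / 100 ≤ w)
    (hD0 : 0 < D) (hD : D ^ 2 ≤ (1 + y) ^ 2 + x ^ 2) :
    tP (-1) x (-y) w ≤ 1 / 1000 * √(2 * Real.pi / (w * D)) := by
  have hx0 : 0 < x := by linarith
  have hρ0 : 0 < ρ := by linarith
  have hy1 : y ≤ 3317 / 10000 := by
    refine (n_le' (by norm_num) hx hy).trans ?_
    norm_num
  have hya : |-y| = y := by rw [abs_neg, abs_of_nonneg hy0]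
  have hq : 4648 / 10000 * x ≤ 473 / 1000 * x - 134 / 1000 * |-y| := by rw [hya]; linarith
  have hx1 : 0 < 1 + x := by linarith
  have hcm : (1 + x)⁻¹ ≤ 1555 / 10000 := by
    rw [inv_le_comm₀ hx1 (by norm_num)]
    norm_num
    linarith
  have hc0 : 0 < (1 + x)⁻¹ := inv_pos.2 hx1
  refine lump_neg (κ := 1217 / 1000) (l := 11081 / 10000) (q1 := 4648 / 10000) (E := 23449 / 10000)
    (M := 17735 / 10000) (cm := 1555 / 10000) (K := 969 / 10) (L := 8)
    (by linarith) (by linarith) (by norm_num) hD0 hcm (by norm_num) ?_ (by norm_num) hq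
    (tm_neg_sq' (by linarith) hy0 ?_)
    (by norm_num) (by norm_num) ?_ ?_ (by norm_num) ?_ ?_
  · refine (exp_five (by norm_num) (by norm_num)).trans ?_
    norm_num
  · calc (1 + y) ^ 2 ≤ (1 + 3317 / 10000) ^ 2 := by gcongr
      _ ≤ 17735 / 10000 := by norm_num
  · have h5 : 522 / 100 * (4648 / 10000 * (5435 / 1000)) ≤ w * (4648 / 10000 * x) := by gcongr
    norm_num at h5 ⊢
    linarith
  · refine (t2c_D (x0 := 5435 / 1000) (T := 2 * (11081 / 10000) * (4648 / 10000)) (by norm_num) hx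
      (by norm_num) hD ?_).trans (le_of_eq (by ring))
    calc (1 + y) ^ 2 ≤ (1 + 3317 / 10000) ^ 2 := by gcongr
      _ ≤ _ := by norm_num
  · have h8 : 194166 / 10000 ≤ 194166 / 10000 + 424429 / 10000 * (1 + x)⁻¹ -
        (650039 / 10000 + 969 / 10) * (1 + x)⁻¹ ^ 2 := by nlinarith
    have h9 : (1 + x)⁻¹ * (194166 / 10000) ≤ (1 + x)⁻¹ * (194166 / 10000 +
        424429 / 10000 * (1 + x)⁻¹ - (650039 / 10000 + 969 / 10) * (1 + x)⁻¹ ^ 2) := by gcongr
    have h10 : 0 ≤ 2 * Real.pi * y := by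
      have := Real.pi_pos
      positivity
    have h11 : w * ((1 + x)⁻¹ * (194166 / 10000)) ≤ w * ((1 + x)⁻¹ * (194166 / 10000 +
        424429 / 10000 * (1 + x)⁻¹ - (650039 / 10000 + 969 / 10) * (1 + x)⁻¹ ^ 2) -
        2 * Real.pi * -y) := by
      refine mul_le_mul_of_nonneg_left ?_ (by linarith)
      linarith
    have h12 : 8 ≤ (1 + x)⁻¹ * (194166 / 10000 * w - 137 / 50) := by
      have h13 : (1 + ρ)⁻¹ ≤ (1 + x)⁻¹ := by
        apply inv_anti₀ hx1
        linarith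
      have h14 : 0 ≤ 194166 / 10000 * w - 137 / 50 := by linarith
      refine le_trans ?_ (mul_le_mul_of_nonneg_right h13 h14)
      rw [← div_eq_inv_mul, le_div_iff₀ (by linarith)]
      rcases le_total (19 / 2) ρ with h95 | h95
      · have : 0 < 1 / ρ := by positivity
        linarith
      · linarith
    linarith
  · have h6 := exp_neg_le_of (k := 16) (t := 0) (L := 8)
      (A := 8000000) (by norm_num) (by norm_num) (by norm_num) (by norm_num)
    calc 1217 / 1000 * (11081 / 10000) * Real.exp (-(2 * 8)) ≤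
        1217 / 1000 * (11081 / 10000) * (1 / 8000000) := by gcongr
      _ ≤ (1 / 1000) ^ 2 := by norm_num

/-! ### the piece -/

theorem eo2_le {r δ : ℝ} (hG : Gm 2 r δ < 10) : eo2 r δ ≤ 2105 / 1000 := by
  unfold eo2 om2
  rw [if_pos hG, t2_hst_two]
  have := Real.pi_lt_d4
  norm_num at this ⊢
  linarith

/-- **PTC** -/
theorem ptC : PTC := by
  intro r δ y η h hA hS hη hG
  have hP := h.toPar
  have hδ := h.d0
  have hG10 : Gm 2 r δ < 10 := by linarith
  have hη2 := hη.trans (eo2_le hG10)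
  have hρ := h.rho_ge hG
  have hG5 := h.G
  have hw1 := t2c_w1 hP hG5 (g := 54712 / 100000) (by norm_num)
  have hw2 := t2c_w2 hP
  have hρ0 : 0 < r * δ := by linarith
  have hw3 : 522 / 100 ≤ 1 / δ :=
    t2_wmin hρ0 (by norm_num) (by positivity) hw1 hw2 (by norm_num)
  have hDp : 0 < sD (r * δ) y := Real.sqrt_pos.2 (sD2_pos hA.y1)
  have hDD : sD (r * δ) y ^ 2 = (1 + y) ^ 2 + sx (r * δ) y ^ 2 := by
    unfold sD
    rw [Real.sq_sqrt (sD2_pos hA.y1).le]
    rfl
  unfold tS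
  rw [sG_w hδ]
  have hdiv : ∀ z : ℝ, 0 < z → z * (Real.exp y - 1) ≤ 2105 / 1000 →
      Real.exp y ≤ 1 + 2105 / 1000 / z := by
    intro z hz h1
    have : Real.exp y - 1 ≤ 2105 / 1000 / z := by
      rw [le_div_iff₀ hz]
      linarith
    linarith
  rcases le_total 0 y with hy | hy
  · obtain ⟨f1, f2⟩ := pos_facts hA.dom hy
    rw [hA.eta] at f1 f2
    have hη3 : η ≤ 2105 / 1000 := (le_abs_self η).trans hη2
    have hx : 5435 / 1000 ≤ sx (r * δ) y := by linarith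
    have hxρ : sx (r * δ) y ≤ r * δ := by
      refine (sx_le hA.dom).trans ?_
      have : Real.exp (-y) ≤ 1 := by
        rw [Real.exp_le_one_iff]
        linarith
      calc r * δ * Real.exp (-y) ≤ r * δ * 1 := by gcongr
        _ = _ := mul_one _
    have hex := hdiv (sx (r * δ) y) (by linarith) (f1.trans hη3)
    have k1 := c_pos1 hx hxρ hy hex hw1 hw3 hDp hDD.le
    have k2 := c_pos2 hx hxρ hy hex hw1 hw3 hDp hDD.le
    linarith
  · obtain ⟨f1, f2⟩ := neg_facts hA.dom hA.y1.le hy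
    rw [hA.eta] at f1
    have hη3 : -η ≤ 2105 / 1000 := (neg_le_abs η).trans hη2
    have hlo := hS.lo
    have hxρ : r * δ ≤ sx (r * δ) y := SokalF1T.sx_ge (by linarith) (by linarith) hy
    have hx2 : sx (r * δ) y ≤ r * δ + 2105 / 1000 := by linarith
    have hex : Real.exp (-y) ≤ 1 + 2105 / 1000 / (r * δ) := by
      have : Real.exp (-y) - 1 ≤ 2105 / 1000 / (r * δ) := by
        rw [le_div_iff₀ hρ0]
        linarith
      linarith
    have hD1 : sD (r * δ) y ^ 2 ≤ 1 + sx (r * δ) y ^ 2 := by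
      rw [hDD]
      nlinarith
    have hn0 : 0 ≤ -y := by linarith
    have k1 : tP (-1) (sx (r * δ) y) (-y) (1 / δ) ≤
        999 / 10000 * √(2 * Real.pi / (1 / δ * sD (r * δ) y)) := by
      rcases le_total (1 + sx (r * δ) y)⁻¹ (9 / 100) with hc | hc
      · have hx : 91 / 9 ≤ sx (r * δ) y := by
          rw [inv_le_comm₀ (by linarith) (by norm_num)] at hc
          norm_num at hc
          linarith
        exact c_neg1 hρ hx2 hc hx hn0 hex hw1 hw2 hw3 hDp hD1
      · exact c_neg2 hρ hxρ hc hn0 hex hw2 hw3 hDp hD1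
    have k2 := c_neg3 hρ hxρ hx2 hn0 hex hw1 hw2 hw3 hDp hD1
    rw [neg_neg] at k2
    linarith

end SokalV3
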