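import Pool.Agent.Lib_MP_af4de1_v3.T2Def
import Pool.Agent.Lib_MP_af4de1_v3.T2Com

/-!
# `N = 2`: the tails `T2` from the pieces
-/

set_option autoImplicit false

open Complex MeasureTheory Set SokalU SokalPG SokalF1 SokalF1S SokalF1M SokalF1G SokalF1B

namespace SokalV3

theorem eo2_le_all (r δ : ℝ) : eo2 r δ ≤ 2105 / 1000 := by
  unfold eo2
  rw [own2_hst]
  have h1 : om2 r δ ≤ 17 / 100 := by
    unfold om2
    split_ifs <;> norm_num
  have h2 := Real.pi_lt_d4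
  have h3 := Real.pi_pos
  norm_num at h2
  nlinarith

/-- the conversion -/
theorem t2_conv {r δ y η q τ0 τ1 τ2 ρ0 : ℝ} (hC : PTCore) (hF : PTFact) (h : Reg2 r δ)
    (hA : At r δ y η) (hS : Sad2 r δ y) (hη : |η| ≤ eo2 r δ) (hq : tS r δ y ≤ q * sG r δ y)
    (hq0 : 0 ≤ q) (hρ0 : 0 < ρ0) (hρ : ρ0 ≤ r * δ) (hτ1 : 0 ≤ τ1) (hτ2 : 0 ≤ τ2)
    (h0 : 1001 / 1000 * q + 5 / 10000 ≤ τ0)
    (h1 : (1 + ρ0 ^ 2) * (6466 / 1000 * q + 52 / 10000) ^ 2 ≤
      τ1 ^ 2 * (31415 / 10000) ^ 2 * ρ0 ^ 2)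
    (h2 : (1 + ρ0 ^ 2) * (4235 / 100 * q + 417 / 10000) ≤ τ2 * (31415 / 10000) ^ 2 * ρ0 ^ 2) :
    T2 r δ y (bs r δ y) τ0 τ1 τ2 := by
  obtain ⟨f1, f2⟩ := hF r δ y η h hA hS hη
  obtain ⟨c0, c1, c2⟩ := hC r δ y h.r0 h.d0 hA.dom hS f1 f2
  have hδ := h.d0
  have hr0 : 0 < r := by linarith [h.r0]
  have hG := sG_pos (r := r) hδ hA.y1
  have hρp : 0 < r * δ := by positivity
  have hlo := hS.lo
  have hhi := hS.hi
  have hyy : |y| ≤ 13 / 20 := abs_le.2 ⟨by linarith, hhi⟩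
  have hpi : (31415 / 10000 : ℝ) ≤ Real.pi := by
    have := Real.pi_gt_d4
    norm_num at this ⊢
    linarith
  have hRR : RR r δ = 1 + (r * δ) ^ 2 := rfl
  have hR : 0 < RR r δ := by rw [hRR]; positivity
  have hH := own2_Hpos h.toPar
  -- `(1 + ρ²)/ρ²` decreases
  have hmono : ∀ A B : ℝ, 0 ≤ A → (1 + ρ0 ^ 2) * A ≤ B * ρ0 ^ 2 → RR r δ * A ≤ B * (r * δ) ^ 2 := by
    intro A B hA0 hAB
    rw [hRR]
    have h5 : ρ0 ^ 2 ≤ (r * δ) ^ 2 := by gcongr
    have h6 : A ≤ (B - A) * ρ0 ^ 2 := by linarith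
    have h7 : 0 ≤ B - A := by
      by_contra h8
      push Not at h8
      have : (B - A) * ρ0 ^ 2 < 0 := mul_neg_of_neg_of_pos h8 (by positivity)
      linarith
    have h8 : (B - A) * ρ0 ^ 2 ≤ (B - A) * (r * δ) ^ 2 := by gcongr
    linarith
  have hk := own2_kap_le h hA hS
  have hkp : 0 ≤ ‖kap r δ y‖ / sD (r * δ) y := by
    have : 0 < sD (r * δ) y := Real.sqrt_pos.2 (sD2_pos hA.y1)
    positivity
  refine ⟨bs_or, bs_le, bs_lt (lt_of_le_of_lt hyy (by norm_num)) ?_, ?_, ?_, ?_⟩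
  · have h5 := K_mul_y_le hA.dom (by linarith)
    rw [hA.eta] at h5
    have h6 : |η| ≤ 2105 / 1000 := hη.trans (eo2_le_all r δ)
    have h7 : |η| * (1 + |y|) ≤ 2105 / 1000 * (1 + 13 / 20) := by gcongr
    have e : |y| * (1 + sx (r * δ) y) = |y| + sx (r * δ) y * |y| := by ring
    rw [e]
    norm_num at h7 ⊢
    linarith
  · have h5 : 1001 / 1000 * tS r δ y ≤ 1001 / 1000 * (q * sG r δ y) := by gcongr
    have h6 := mul_le_mul_of_nonneg_right h0 hG.le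
    linarith
  · -- weight `gs`
    set A := 6466 / 1000 * q + 52 / 10000 with hAd
    have hA0 : 0 ≤ A := by positivity
    have h5 : Tls r δ y (bs r δ y) gs ≤ A * sG r δ y := by
      have : 6466 / 1000 * tS r δ y ≤ 6466 / 1000 * (q * sG r δ y) := by gcongr
      rw [hAd]
      linarith
    have h6 : r / (r * δ) * A ≤ τ1 * HH 2 r δ := by
      have h7 : √(RR r δ) * A ≤ τ1 * Real.pi * (r * δ) := by
        refine abs_le_of_sq_le_sq' ?_ (by positivity) |>.2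
        rw [mul_pow, Real.sq_sqrt hR.le]
        have h8 := hmono (A ^ 2) (τ1 ^ 2 * (31415 / 10000) ^ 2) (by positivity) h1
        have h9 : τ1 ^ 2 * (31415 / 10000) ^ 2 * (r * δ) ^ 2 ≤ (τ1 * Real.pi * (r * δ)) ^ 2 := by
          calc τ1 ^ 2 * (31415 / 10000) ^ 2 * (r * δ) ^ 2 ≤ τ1 ^ 2 * Real.pi ^ 2 * (r * δ) ^ 2 := by
                gcongr
            _ = _ := by ring
        linarith
      unfold HH
      rw [own2_hst, mul_div_assoc', le_div_iff₀ (Real.sqrt_pos.2 hR), div_mul_eq_mul_div,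
        div_mul_eq_mul_div, div_le_iff₀ hρp]
      have := mul_le_mul_of_nonneg_left h7 hr0.le
      linarith
    calc ‖kap r δ y‖ / sD (r * δ) y * Tls r δ y (bs r δ y) gs ≤
          ‖kap r δ y‖ / sD (r * δ) y * (A * sG r δ y) := by gcongr
      _ ≤ r / (r * δ) * (A * sG r δ y) := by gcongr
      _ = r / (r * δ) * A * sG r δ y := by ring
      _ ≤ τ1 * HH 2 r δ * sG r δ y := by gcongr
  · set A := 4235 / 100 * q + 417 / 10000 with hAd
    have hA0 : 0 ≤ A := by positivity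
    have h5 : Tls r δ y (bs r δ y) (fun s => s * gs s) ≤ A * sG r δ y := by
      have : 4235 / 100 * tS r δ y ≤ 4235 / 100 * (q * sG r δ y) := by gcongr
      rw [hAd]
      linarith
    have h6 : r / (r * δ) * A ≤ τ2 * HH 2 r δ ^ 2 * δ := by
      have h8 := hmono A (τ2 * (31415 / 10000) ^ 2) hA0 h2
      have h9 : τ2 * (31415 / 10000) ^ 2 * (r * δ) ^ 2 ≤ τ2 * Real.pi ^ 2 * (r * δ) ^ 2 := by gcongr
      unfold HH
      rw [own2_hst, div_pow, Real.sq_sqrt hR.le]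
      have e : τ2 * ((r * Real.pi) ^ 2 / RR r δ) * δ = τ2 * r ^ 2 * Real.pi ^ 2 * δ / RR r δ := by
        ring
      rw [e, le_div_iff₀ hR, div_mul_eq_mul_div, div_mul_eq_mul_div, div_le_iff₀ hρp]
      have h10 := mul_le_mul_of_nonneg_left (h8.trans h9) hr0.le
      linarith
    calc ‖kap r δ y‖ / sD (r * δ) y * Tls r δ y (bs r δ y) (fun s => s * gs s) ≤
          ‖kap r δ y‖ / sD (r * δ) y * (A * sG r δ y) := by gcongr
      _ ≤ r / (r * δ) * (A * sG r δ y) := by gcongr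
      _ = r / (r * δ) * A * sG r δ y := by ring
      _ ≤ τ2 * HH 2 r δ ^ 2 * δ * sG r δ y := by gcongr
      _ = _ := by ring

end SokalV3
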