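import Pool.Agent.Lib_MP_af4de1_v3.T2Half

/-!
# `N = 2` tails: PIECE CORE
-/

set_option autoImplicit false

open Complex MeasureTheory Set SokalU SokalPG SokalF1 SokalF1S SokalF1M SokalF1G SokalF1B

namespace SokalV3

theorem t2_abs_im (u t : ℝ) : |t| ≤ ‖(u : ℂ) + t * I‖ := by
  have h := Complex.abs_im_le_norm ((u : ℂ) + t * I)
  have e : ((u : ℂ) + t * I).im = t := by simp
  rwa [e] at h

theorem t2_exp_le {u : ℝ} (h : |u| ≤ 1) : Real.exp u ≤ 27183 / 10000 :=
  (Real.exp_le_exp.2 (abs_le.1 h).2).trans t2_e1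

theorem t2_norm_exp (u t : ℝ) : ‖cexp ((u : ℂ) + t * I)‖ = Real.exp u := by
  rw [Complex.norm_exp]
  congr 1
  simp

theorem t2_norm_le {u t T m : ℝ} (hu : |u| ≤ 1) (ht : |t| ≤ T) (hm : 0 ≤ m)
    (h : 1 + T ^ 2 ≤ m ^ 2) : ‖(u : ℂ) + t * I‖ ≤ m := by
  refine abs_le_of_sq_le_sq' ?_ hm |>.2
  rw [Complex.sq_norm, Complex.normSq_add_mul_I, ← sq_abs u, ← sq_abs t]
  have h1 : |u| ^ 2 ≤ 1 := pow_le_one₀ (abs_nonneg _) hu
  have h2 : |t| ^ 2 ≤ T ^ 2 := pow_le_pow_left₀ (abs_nonneg _) ht 2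
  linarith

theorem t2_gs_le {u t : ℝ} (hu : |u| ≤ 1) : ‖gs ((u : ℂ) + t * I)‖ ≤
    37183 / 10000 + ‖(u : ℂ) + t * I‖ := by
  unfold gs
  have h1 := norm_sub_le (cexp ((u : ℂ) + t * I) - 1) ((u : ℂ) + t * I)
  have h2 := norm_sub_le (cexp ((u : ℂ) + t * I)) 1
  rw [norm_one, t2_norm_exp] at h2
  have h3 := t2_exp_le hu
  linarith

theorem t2_gs_ge {u t : ℝ} (hu : |u| ≤ 1) : |t| - 27183 / 10000 ≤ ‖gs ((u : ℂ) + t * I)‖ := by
  rw [t2_gs_eq]
  have h := t2_abs_im (Real.exp u * Real.cos t - 1 - u) (Real.exp u * Real.sin t - t)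
  refine le_trans ?_ h
  have h1 : |t| ≤ |Real.exp u * Real.sin t - t| + |Real.exp u * Real.sin t| := by
    have e : t = -(Real.exp u * Real.sin t - t) + Real.exp u * Real.sin t := by ring
    calc |t| = |-(Real.exp u * Real.sin t - t) + Real.exp u * Real.sin t| := by rw [← e]
      _ ≤ |-(Real.exp u * Real.sin t - t)| + |Real.exp u * Real.sin t| := abs_add_le _ _
      _ = _ := by rw [abs_neg]
  have h2 : |Real.exp u * Real.sin t| ≤ 27183 / 10000 := by
    rw [abs_mul, abs_of_pos (Real.exp_pos u)]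
    calc Real.exp u * |Real.sin t| ≤ Real.exp u * 1 :=
          mul_le_mul_of_nonneg_left (Real.abs_sin_le_one t) (Real.exp_pos u).le
      _ ≤ _ := by rw [mul_one]; exact t2_exp_le hu
  linarith

theorem t2_shift {ε : ℝ} (hε : ε = 1 ∨ ε = -1) (u t : ℝ) :
    ((u : ℂ) + (t + ε * (2 * Real.pi) : ℝ) * I) = ((u : ℂ) + t * I) + ε * (2 * Real.pi * I) := by
  push_cast
  ring

theorem t2_norm_2pi {ε : ℝ} (hε : ε = 1 ∨ ε = -1) :
    ‖(ε : ℂ) * (2 * Real.pi * I)‖ ≤ 62832 / 10000 := by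
  obtain ⟨p1, p2⟩ := t2_pi
  have h : ‖(ε : ℂ)‖ = 1 := by rcases hε with rfl | rfl <;> simp
  rw [norm_mul, h, one_mul, norm_mul, Complex.norm_I, mul_one]
  have h2 : ‖(2 * Real.pi : ℂ)‖ = 2 * Real.pi := by
    have : (2 * Real.pi : ℂ) = ((2 * Real.pi : ℝ) : ℂ) := by push_cast; ring
    rw [this, Complex.norm_real, Real.norm_of_nonneg (by positivity)]
  rw [h2]
  exact p2

theorem t2_gs_shift {ε u t : ℝ} (hε : ε = 1 ∨ ε = -1) (hu : |u| ≤ 1) (ht : 137 / 25 ≤ |t|) :
    ‖gs ((u : ℂ) + (t + ε * (2 * Real.pi) : ℝ) * I)‖ ≤ 328 / 100 * ‖gs ((u : ℂ) + t * I)‖ := by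
  have h1 := t2_gs_ge (t := t) hu
  have h2 := t2_norm_2pi hε
  have e : gs ((u : ℂ) + (t + ε * (2 * Real.pi) : ℝ) * I) =
      gs ((u : ℂ) + t * I) - ε * (2 * Real.pi * I) := by
    rw [t2_shift hε]
    have e1 : cexp (((u : ℂ) + t * I) + ε * (2 * Real.pi * I)) = cexp ((u : ℂ) + t * I) := by
      rcases hε with rfl | rfl
      · rw [Complex.ofReal_one, one_mul, Complex.exp_periodic]
      · rw [Complex.ofReal_neg, Complex.ofReal_one, neg_one_mul, ← sub_eq_add_neg,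
          Complex.exp_periodic.sub_eq]
    unfold gs
    rw [e1]
    ring
  rw [e]
  have h3 := norm_sub_le (gs ((u : ℂ) + t * I)) (ε * (2 * Real.pi * I))
  linarith

theorem t2_id_shift {ε u t : ℝ} (hε : ε = 1 ∨ ε = -1) (ht : 137 / 25 ≤ |t|) :
    ‖(u : ℂ) + (t + ε * (2 * Real.pi) : ℝ) * I‖ ≤ 2147 / 1000 * ‖(u : ℂ) + t * I‖ := by
  have h1 := t2_abs_im u t
  have h2 := t2_norm_2pi hε
  rw [t2_shift hε]
  have h3 := norm_add_le ((u : ℂ) + t * I) (ε * (2 * Real.pi * I))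
  linarith

theorem t2_W0 : WtB (fun _ => 1) 1 1 1 1 1 where
  wt := by simpa using wt_const 1
  b1 := by norm_num
  b2 := by norm_num
  b3 := by norm_num
  q := by norm_num
  p1 := fun _ _ _ _ => by rw [norm_one]
  p2 := fun _ _ φ _ _ _ _ => by
    rw [norm_one, one_mul]
    exact Real.one_le_exp (sq_nonneg φ)
  p3 := fun _ _ _ _ => by rw [norm_one]
  p4 := fun _ _ _ _ _ _ => by rw [norm_one, one_mul]

theorem t2_W1 : WtB gs 5 (93 / 10) (645 / 100) (1553 / 100) (328 / 100) where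
  wt := wt_gs
  b1 := by norm_num
  b2 := by norm_num
  b3 := by norm_num
  q := by norm_num
  p1 := fun u t hu ht => by
    have h1 := t2_gs_le (t := t) hu
    have h2 := t2_norm_le (m := 5571 / 1000) hu ht (by norm_num) (by norm_num)
    linarith
  p2 := fun ε a φ hε h0 h1 hφ => t2_w1 hε h0 h1 hφ
  p3 := fun u t hu ht => by
    have h1 := t2_gs_le (t := t) hu
    have h2 := t2_norm_le (m := 11806 / 1000) (T := 117632 / 10000) hu
      (ht.trans (by linarith [t2_pi.2])) (by norm_num) (by norm_num)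
    linarith
  p4 := fun _ _ _ hε hu ht => t2_gs_shift hε hu ht

theorem t2_W2 : WtB (fun s => s * gs s) 5 (518 / 10) 42 (1834 / 10) (705 / 100) where
  wt := wt_mul_gs
  b1 := by norm_num
  b2 := by norm_num
  b3 := by norm_num
  q := by norm_num
  p1 := fun u t hu ht => by
    have h1 := t2_gs_le (t := t) hu
    have h2 := t2_norm_le (m := 5571 / 1000) hu ht (by norm_num) (by norm_num)
    have h3 := norm_nonneg ((u : ℂ) + t * I)
    rw [norm_mul]
    calc ‖(u : ℂ) + t * I‖ * ‖gs ((u : ℂ) + t * I)‖ ≤ (5571 / 1000) * (37183 / 10000 + 5571 / 1000) :=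
          mul_le_mul h2 (by linarith) (norm_nonneg _) (by norm_num)
      _ ≤ _ := by norm_num
  p2 := fun ε a φ hε h0 h1 hφ => t2_w2 hε h0 h1 hφ
  p3 := fun u t hu ht => by
    have h1 := t2_gs_le (t := t) hu
    have h2 := t2_norm_le (m := 11806 / 1000) (T := 117632 / 10000) hu
      (ht.trans (by linarith [t2_pi.2])) (by norm_num) (by norm_num)
    rw [norm_mul]
    calc ‖(u : ℂ) + t * I‖ * ‖gs ((u : ℂ) + t * I)‖ ≤ (11806 / 1000) * (37183 / 10000 + 11806 / 1000) :=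
          mul_le_mul h2 (by linarith) (norm_nonneg _) (by norm_num)
      _ ≤ _ := by norm_num
  p4 := fun ε u t hε hu ht => by
    have h1 := t2_gs_shift hε hu ht
    have h2 := t2_id_shift (u := u) hε ht
    rw [norm_mul, norm_mul]
    calc _ ≤ (2147 / 1000 * ‖(u : ℂ) + t * I‖) * (328 / 100 * ‖gs ((u : ℂ) + t * I)‖) :=
          mul_le_mul h2 h1 (norm_nonneg _) (by positivity)
      _ = (2147 / 1000 * (328 / 100)) * (‖(u : ℂ) + t * I‖ * ‖gs ((u : ℂ) + t * I)‖) := by ring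
      _ ≤ _ := by
        refine mul_le_mul_of_nonneg_right (by norm_num) (by positivity)

/-! ### the size of `sG` -/

theorem t2_decay {α A : ℝ} (hα : 1 / 10 ≤ α) {r : ℝ} (hr : 499 / 10 ≤ r)
    (h : 499 / 10 ≤ A * Real.exp (499 / 10 * α)) : r * Real.exp (-(α * r)) ≤ A := by
  have h1 := Real.add_one_le_exp (r / (499 / 10) - 1)
  have h2 : r / (499 / 10) - 1 ≤ α * (r - 499 / 10) := by
    have : r / (499 / 10) - 1 = 10 / 499 * (r - 499 / 10) := by ring
    rw [this]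
    refine mul_le_mul_of_nonneg_right ?_ (by linarith)
    refine le_trans ?_ hα
    norm_num
  have h3 := Real.exp_le_exp.2 h2
  have h4 : r ≤ 499 / 10 * Real.exp (α * (r - 499 / 10)) := by
    have : r / (499 / 10) ≤ Real.exp (α * (r - 499 / 10)) := by linarith
    rw [div_le_iff₀ (by norm_num)] at this
    linarith
  have h5 : Real.exp (α * (r - 499 / 10)) * Real.exp (-(α * r)) = Real.exp (-(499 / 10 * α)) := by
    rw [← Real.exp_add]
    congr 1
    ring
  have h6 : Real.exp (499 / 10 * α) * Real.exp (-(499 / 10 * α)) = 1 := by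
    rw [← Real.exp_add]
    simp
  have hE := Real.exp_pos (-(α * r))
  have hE2 := Real.exp_pos (-(499 / 10 * α))
  calc r * Real.exp (-(α * r)) ≤ 499 / 10 * Real.exp (α * (r - 499 / 10)) * Real.exp (-(α * r)) :=
        mul_le_mul_of_nonneg_right h4 hE.le
    _ = 499 / 10 * Real.exp (-(499 / 10 * α)) := by rw [mul_assoc, h5]
    _ ≤ A * Real.exp (499 / 10 * α) * Real.exp (-(499 / 10 * α)) :=
        mul_le_mul_of_nonneg_right h hE2.le
    _ = A := by rw [mul_assoc, h6, mul_one]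

theorem t2_D {ρ y : ℝ} (hD : Dom ρ y) (h1 : -(1 / 2) ≤ y) (h2 : y ≤ 13 / 20)
    (h5 : 5 ≤ sD2 ρ y) : √(sD2 ρ y) ≤ 16488 / 10000 * ρ := by
  have hρ := hD.1
  have e1 : sD2 ρ y = 1 + 2 * y + ρ ^ 2 * Real.exp (-2 * y) := by
    unfold sD2
    rw [sx_sq hD, ← exp_two]
    ring
  rw [Real.sqrt_le_left (by positivity)]
  have h3 : (27185 / 10000 : ℝ) * ρ ^ 2 ≤ (16488 / 10000 * ρ) ^ 2 := by
    rw [mul_pow]
    refine mul_le_mul_of_nonneg_right ?_ (by positivity)
    norm_num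
  refine le_trans ?_ h3
  rw [e1] at h5 ⊢
  rcases le_total 0 y with hy | hy
  · have h4 : Real.exp (-2 * y) ≤ 1 := by
      rw [Real.exp_le_one_iff]
      linarith
    have h6 : ρ ^ 2 * Real.exp (-2 * y) ≤ ρ ^ 2 := by nlinarith [sq_nonneg ρ]
    nlinarith
  · have h4 := t2_chord (a := -2 * y) (by linarith) (by linarith)
    have h7 : ρ ^ 2 * Real.exp (-2 * y) ≤ ρ ^ 2 * (1 + 17183 / 10000 * (-2 * y)) :=
      mul_le_mul_of_nonneg_left h4 (by positivity)
    have h8 : ρ ^ 2 * Real.exp (-2 * y) ≤ ρ ^ 2 * (27183 / 10000) := by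
      refine mul_le_mul_of_nonneg_left (t2_exp_le ?_) (by positivity)
      rw [abs_of_nonneg (by linarith)]
      linarith
    have h9 : 1 ≤ ρ ^ 2 := by nlinarith
    nlinarith

theorem t2_G {r δ y : ℝ} (hr : 499 / 10 ≤ r) (hδ : 0 < δ) (hD : Dom (r * δ) y) (hS : Sad2 r δ y) :
    Real.exp (-(23 / 100 * r)) ≤ 376 / 10000000 * sG r δ y ∧
    Real.exp (-(1 / 4 * r)) ≤ 139 / 10000000 * sG r δ y := by
  have hρ := hD.1
  have hr0 : 0 < r := by linarith
  have h1 := t2_D hD hS.lo (hS.hi) hS.D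
  have hDp : 0 < √(sD2 (r * δ) y) := Real.sqrt_pos.2 (by linarith [hS.D])
  obtain ⟨p1, p2⟩ := t2_pi
  have hG : 38107 / 10000 / r ≤ sG r δ y ^ 2 := by
    unfold sG
    rw [Real.sq_sqrt (by positivity), le_div_iff₀ hDp]
    calc 38107 / 10000 / r * √(sD2 (r * δ) y) ≤ 38107 / 10000 / r * (16488 / 10000 * (r * δ)) := by
          gcongr
      _ = 38107 / 10000 * (16488 / 10000) * δ := by field_simp
      _ ≤ 2 * Real.pi * δ := by
          refine mul_le_mul_of_nonneg_right ?_ hδ.le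
          refine le_trans ?_ p1
          norm_num
  have hGn : 0 ≤ sG r δ y := Real.sqrt_nonneg _
  have key : ∀ α K : ℝ, 0 ≤ K → r * Real.exp (-(2 * α * r)) ≤ K ^ 2 * (38107 / 10000) →
      Real.exp (-(α * r)) ≤ K * sG r δ y := by
    intro α K hK h
    refine abs_le_of_sq_le_sq' ?_ (by positivity) |>.2
    have e : Real.exp (-(α * r)) ^ 2 = Real.exp (-(2 * α * r)) := by
      rw [← Real.exp_nat_mul]
      congr 1
      push_cast
      ring
    rw [e, mul_pow]
    calc Real.exp (-(2 * α * r)) = (r * Real.exp (-(2 * α * r))) / r := by field_simp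
      _ ≤ K ^ 2 * (38107 / 10000) / r := by gcongr
      _ = K ^ 2 * (38107 / 10000 / r) := by ring
      _ ≤ K ^ 2 * sG r δ y ^ 2 := by gcongr
  have e1 : (27182818 / 10000000 : ℝ) ≤ Real.exp 1 := by
    have := Real.exp_one_gt_d9
    norm_num at this ⊢
    linarith
  constructor
  · refine key (23 / 100) (376 / 10000000) (by norm_num) ?_
    refine t2_decay (by norm_num) hr ?_
    have e2 : (499 / 10 * (2 * (23 / 100)) : ℝ) = (22 : ℕ) * 1 + (2 : ℕ) * (477 / 1000) := by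
      norm_num
    have e3 := Real.sum_le_exp_of_nonneg (x := 477 / 1000) (by norm_num) 5
    simp only [Finset.sum_range_succ, Finset.sum_range_zero, Nat.factorial] at e3
    norm_num at e3
    rw [e2, Real.exp_add, Real.exp_nat_mul, Real.exp_nat_mul]
    calc (499 / 10 : ℝ) ≤ (376 / 10000000) ^ 2 * (38107 / 10000) *
          ((27182818 / 10000000) ^ 22 * (1610 / 1000) ^ 2) := by norm_num
      _ ≤ (376 / 10000000) ^ 2 * (38107 / 10000) *
          (Real.exp 1 ^ 22 * Real.exp (477 / 1000) ^ 2) := by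
          gcongr
          linarith
  · refine key (1 / 4) (139 / 10000000) (by norm_num) ?_
    refine t2_decay (by norm_num) hr ?_
    have e2 : (499 / 10 * (2 * (1 / 4)) : ℝ) = (24 : ℕ) * 1 + (2 : ℕ) * (475 / 1000) := by
      norm_num
    have e3 := Real.sum_le_exp_of_nonneg (x := 475 / 1000) (by norm_num) 5
    simp only [Finset.sum_range_succ, Finset.sum_range_zero, Nat.factorial] at e3
    norm_num at e3
    rw [e2, Real.exp_add, Real.exp_nat_mul, Real.exp_nat_mul]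
    calc (499 / 10 : ℝ) ≤ (139 / 10000000) ^ 2 * (38107 / 10000) *
          ((27182818 / 10000000) ^ 24 * (1606 / 1000) ^ 2) := by norm_num
      _ ≤ (139 / 10000000) ^ 2 * (38107 / 10000) *
          (Real.exp 1 ^ 24 * Real.exp (475 / 1000) ^ 2) := by
          gcongr
          norm_num
          linarith

/-! ### both half lines -/

theorem t2_split {f : ℝ → ℝ} (hf : Integrable f) :
    ∫ s in {s : ℝ | 3 / 2 ≤ |s|}, f s =
      (∫ s in Ici (3 / 2), f (1 * s)) + ∫ s in Ici (3 / 2), f (-1 * s) := by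
  have e1 : {s : ℝ | 3 / 2 ≤ |s|} = Ici (3 / 2) ∪ Iic (-(3 / 2)) := by
    ext s
    simp only [mem_setOf_eq, mem_union, mem_Ici, mem_Iic, le_abs]
    constructor
    · rintro (h | h)
      · exact Or.inl h
      · exact Or.inr (by linarith)
    · rintro (h | h)
      · exact Or.inl h
      · exact Or.inr (by linarith)
  have d : Disjoint (Ici (3 / 2 : ℝ)) (Iic (-(3 / 2))) := by
    rw [Set.disjoint_left]
    intro x hx hx2
    have := mem_Ici.1 hx
    have := mem_Iic.1 hx2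
    linarith
  have e2 : ∫ s in Iic (-(3 / 2)), f s = ∫ s in Ici (3 / 2), f (-s) := by
    have mp := Measure.measurePreserving_neg (volume : Measure ℝ)
    have h := mp.setIntegral_preimage_emb (Homeomorph.neg ℝ).measurableEmbedding f
      (Iic (-(3 / 2)))
    have hpre : (Neg.neg ⁻¹' Iic (-(3 / 2)) : Set ℝ) = Ici (3 / 2) := by
      ext x
      simp
    rw [← hpre]
    exact h.symm
  rw [e1, setIntegral_union d measurableSet_Iic hf.integrableOn hf.integrableOn, e2]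
  simp only [one_mul, neg_mul]

theorem t2_both {w : ℂ → ℂ} {K B1 B2 B3 Q r δ y : ℝ} (hw : WtB w K B1 B2 B3 Q)
    (hδ : 0 < δ) (hx : 3 / 2 ≤ sx (r * δ) y) (hy : |y| < ta (sx (r * δ) y))
    (hT1 : TH 1 (sx (r * δ) y) y (1 / δ) (r * δ))
    (hT2 : TH (-1) (sx (r * δ) y) (-y) (1 / δ) (r * δ)) (hQ : Q * (54 / 100000) < 1) :
    Tls r δ y (bs r δ y) w ≤
      8 * (108 / 100 * (B1 * Real.exp (-(23 / 100 * r)))) +
      1 / (1 - Q * (54 / 100000)) *
        (B2 * tS r δ y + 94 / 10 * (B3 * Real.exp (-(1 / 4 * r)))) := by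
  have hx0 : 0 ≤ sx (r * δ) y := by linarith
  have h1x : 0 < 1 + sx (r * δ) y := by linarith
  obtain ⟨ts0, ts1, ts2, ta0, ta1⟩ := t2_ts hx0
  have hc0 : 0 < (1 + sx (r * δ) y)⁻¹ := inv_pos.2 h1x
  have hk : |((((sx (r * δ) y : ℝ) : ℂ) + y * I) / δ : ℂ).im| <
      (1 + sx (r * δ) y)⁻¹ * ts (sx (r * δ) y) / δ := by
    have e : ((((sx (r * δ) y : ℝ) : ℂ) + y * I) / δ : ℂ) =
        ((1 / δ : ℝ) : ℂ) * (((sx (r * δ) y : ℝ) : ℂ) + y * I) := by
      push_cast; ring
    have e2 : (((sx (r * δ) y : ℝ) : ℂ) + y * I).im = y := by simp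
    rw [e, Complex.im_ofReal_mul, e2, abs_mul, abs_of_pos (by positivity : 0 < 1 / δ), one_div,
      inv_mul_eq_div]
    exact div_lt_div_of_pos_right hy hδ
  have hint := (int_gi hc0 ts0 ta1 hδ hk hw.wt).norm
  have a1 := t2_half hw (Or.inl rfl) hx hδ hy (by rwa [one_mul]) hQ
  have a2 := t2_half hw (Or.inr rfl) hx hδ hy (by rwa [neg_one_mul]) hQ
  rw [one_mul] at a1
  rw [neg_one_mul] at a2
  have e0 : Tls r δ y (bs r δ y) w = ∫ s in {s : ℝ | 3 / 2 ≤ |s|},
      ‖gi (1 + sx (r * δ) y)⁻¹ (ts (sx (r * δ) y)) w ((((sx (r * δ) y : ℝ) : ℂ) + y * I) / δ) 0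
        (-((δ : ℂ) * I)) s‖ := rfl
  rw [e0, t2_split hint]
  refine (add_le_add a1 a2).trans (le_of_eq ?_)
  unfold tS
  ring

theorem t2_x {r δ y : ℝ} (hS : Sad2 r δ y) : 3 / 2 ≤ sx (r * δ) y := by
  have h1 := hS.D
  have h2 := hS.hi
  have h3 := hS.lo
  have h4 := sx_nonneg (r * δ) y
  unfold sD2 at h1
  by_contra h
  push Not at h
  have h5 : (1 + y) ^ 2 ≤ (33 / 20) ^ 2 := pow_le_pow_left₀ (by linarith) (by linarith) 2
  have h6 : sx (r * δ) y ^ 2 < (3 / 2) ^ 2 := pow_lt_pow_left₀ h h4 two_ne_zero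
  norm_num at h5 h6
  linarith

/-- **PIECE CORE** -/
theorem ptCore : PTCore := by
  intro r δ y hr hδ hD hS hT1 hT2
  have hx := t2_x hS
  have hta : |y| < ta (sx (r * δ) y) := by
    have h1 := hT1.lam
    have h2 := hT2.lam
    have hw : 0 < 1 / δ := by positivity
    rw [abs_lt]
    constructor
    · by_contra h
      push Not at h
      have : 1 / δ * (ta (sx (r * δ) y) - -y) ≤ 0 :=
        mul_nonpos_of_nonneg_of_nonpos hw.le (by linarith)
      linarith
    · by_contra h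
      push Not at h
      have : 1 / δ * (ta (sx (r * δ) y) - y) ≤ 0 :=
        mul_nonpos_of_nonneg_of_nonpos hw.le (by linarith)
      linarith
  obtain ⟨g1, g3⟩ := t2_G hr hδ hD hS
  have hE1 := Real.exp_pos (-(23 / 100 * r))
  have hE3 := Real.exp_pos (-(1 / 4 * r))
  have hGn : 0 ≤ sG r δ y := Real.sqrt_nonneg _
  have hS0 : 0 ≤ tS r δ y := by
    unfold tS tP
    positivity
  refine ⟨?_, ?_, ?_⟩
  · refine (t2_both t2_W0 hδ hx hta hT1 hT2 (by norm_num)).trans ?_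
    have c : (1 / (1 - 1 * (54 / 100000)) : ℝ) ≤ 1001 / 1000 := by norm_num
    calc _ ≤ 8 * (108 / 100 * (1 * (376 / 10000000 * sG r δ y))) +
          1001 / 1000 * (1 * tS r δ y + 94 / 10 * (1 * (139 / 10000000 * sG r δ y))) := by
          gcongr
      _ ≤ _ := by linarith
  · refine (t2_both t2_W1 hδ hx hta hT1 hT2 (by norm_num)).trans ?_
    have c : (1 / (1 - 328 / 100 * (54 / 100000)) : ℝ) ≤ 10018 / 10000 := by norm_num
    calc _ ≤ 8 * (108 / 100 * (93 / 10 * (376 / 10000000 * sG r δ y))) +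
          10018 / 10000 * (645 / 100 * tS r δ y +
            94 / 10 * (1553 / 100 * (139 / 10000000 * sG r δ y))) := by
          gcongr
      _ ≤ _ := by linarith
  · refine (t2_both t2_W2 hδ hx hta hT1 hT2 (by norm_num)).trans ?_
    have c : (1 / (1 - 705 / 100 * (54 / 100000)) : ℝ) ≤ 1004 / 1000 := by norm_num
    calc _ ≤ 8 * (108 / 100 * (518 / 10 * (376 / 10000000 * sG r δ y))) +
          1004 / 1000 * (42 * tS r δ y +
            94 / 10 * (1834 / 10 * (139 / 10000000 * sG r δ y))) := by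
          gcongr
      _ ≤ _ := by linarith

end SokalV3
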