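import Pool.Agent.Lib_MP_af4de1_v3.Two
import Pool.Agent.Lib_MP_af4de1_v3.Own2
import Pool.Agent.Lib_MP_af4de1_v3.P2Sad
import Pool.Agent.Lib_MP_af4de1_v3.P2GapR
import Pool.Agent.Lib_MP_af4de1_v3.P2GapL
import Pool.Agent.Lib_MP_af4de1_v3.T2Conv
import Pool.Agent.Lib_MP_af4de1_v3.T2Core
import Pool.Agent.Lib_MP_af4de1_v3.T2C
import Pool.Agent.Lib_MP_af4de1_v3.T2D
import Pool.Agent.Lib_MP_af4de1_v3.T2B
import Pool.Agent.Lib_MP_af4de1_v3.T2A
import Pool.Agent.Lib_MP_af4de1_v3.T2Fact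
import Pool.Agent.Lib_MP_af4de1_v3.OutR9
import Pool.Agent.Lib_MP_af4de1_v3.OutL

/-!
# `N = 2`, `ρ ≥ 16/5`: assembly of `P2`
-/

set_option autoImplicit false

namespace SokalV3

open SokalF1

/-- what is left of `P2` -/
structure P2Rest : Prop where
  outL : ∀ (r δ y ζ : ℝ), Reg2 r δ → At r δ y (eo2 r δ) → Sad2 r δ y →
    0 ≤ ζ → eo2 r δ + ζ ≤ Real.pi → Out r δ y ζ (27 / 20)

theorem p2_of (R : P2Rest) : P2 where
  ex := p2_ex
  sad := p2_sad
  sadA := p2_sadA
  pair := p2_pair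
  gapL := p2_gapL
  gapR := p2_gapR
  own := fun r δ y η h hA hS hη hc => by
    have hq := SokalT2.pTA r δ y η h hA hS hη hc
    rcases lt_or_ge (Gm 2 r δ) 20 with hG | hG
    · exact p2_own_of h hA hS (t2_conv ptCore ptFact h hA hS hη hq (by norm_num)
        (ρ0 := 485 / 100) (by norm_num) ((reg2_facts h).2.2 hG) (by norm_num) (by norm_num)
        (by norm_num) (by norm_num) (by norm_num))
    · exact p2_own_of10 h hA hS (by linarith) (t2_conv ptCore ptFact h hA hS hη hq (by norm_num)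
        (ρ0 := 16 / 5) (by norm_num) h.rho (by norm_num) (by norm_num)
        (by norm_num) (by norm_num) (by norm_num))
  own2 := fun r δ y η h hA hS hη h1 h2 =>
    p2_own2_of h hA hS h1 (t2_conv ptCore ptFact h hA hS hη (ptB r δ y η h hA hS hη h1 h2)
      (by norm_num) (ρ0 := 485 / 100) (by norm_num) ((reg2_facts h).2.2 h2) (by norm_num)
      (by norm_num) (by norm_num) (by norm_num) (by norm_num))
  ownA := fun r δ y η h hA hS hη h1 =>
    p2_ownA_of h hA hS (t2_conv ptCore ptFact h hA hS hη (ptC r δ y η h hA hS hη h1)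
      (by norm_num) (ρ0 := 754 / 100) (by norm_num) (h.rho_ge h1) (by norm_num)
      (by norm_num) (by norm_num) (by norm_num) (by norm_num))
  ownA2 := fun r δ y η h hA hS hη h1 h2 =>
    p2_ownA2_of h hA hS (t2_conv ptCore ptFact h hA hS hη (ptD r δ y η h hA hS hη h1 h2)
      (by norm_num) (ρ0 := 694 / 100) (by norm_num) ((reg2_facts h).2.1 h2) (by norm_num)
      (by norm_num) (by norm_num) (by norm_num) (by norm_num))
  outL := R.outL
  outR := p2_outR

/-- **`w2` of `dist_F1_chain`** from the rest -/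
theorem w2_of (R : P2Rest) : ∀ r δ : ℝ, Reg2 r δ → WaveU 2 δ r :=
  fun _ _ h => waveU_two (p2_of R) h

theorem p2Rest : P2Rest := ⟨SokalP2O.p2_outL⟩

/-- **all fields of `P2`** -/
theorem p2 : P2 := p2_of p2Rest

/-- **`w2` of `dist_F1_chain`** -/
theorem w2 : ∀ r δ : ℝ, Reg2 r δ → WaveU 2 δ r := w2_of p2Rest

end SokalV3
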