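import Pool.Agent.Lib_MP_af4de1_v3.OwnS
import Pool.Agent.Lib_MP_af4de1_v3.SadBase

/-!
# PIECE MAIN (regime I) from the tails on the path with break point `min (137/25) (1 + x)`
-/

set_option autoImplicit false

open Complex MeasureTheory Set SokalU SokalPG SokalF1 SokalF1S SokalF1M SokalF1G SokalF1B

namespace SokalV3

/-- The break point. -/
noncomputable def bs (r δ y : ℝ) : ℝ := min (137 / 25) (1 + sx (r * δ) y)

theorem bs_or {r δ y : ℝ} : 3 / 2 ≤ bs r δ y ∨ bs r δ y = 1 + sx (r * δ) y := by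
  unfold bs
  rcases le_total (137 / 25) (1 + sx (r * δ) y) with h | h
  · left
    rw [min_eq_left h]
    norm_num
  · right
    exact min_eq_right h

theorem bs_le {r δ y : ℝ} : bs r δ y ≤ 1 + sx (r * δ) y := min_le_right _ _

theorem bs_lt {r δ y : ℝ} (h1 : |y| < 1) (h : |y| * (1 + sx (r * δ) y) < 137 / 25) :
    |y| < (1 + sx (r * δ) y)⁻¹ * bs r δ y := by
  have hx : 0 < 1 + sx (r * δ) y := by linarith [sx_nonneg (r * δ) y]
  rw [inv_mul_eq_div, lt_div_iff₀ hx]
  unfold bs
  refine lt_min h ?_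
  have := mul_lt_mul_of_pos_right h1 hx
  linarith

/-- `|K| |y| ≤ |η| (1 + |y|)` on both sides -/
theorem K_mul_y_le {ρ y : ℝ} (h : Dom ρ y) (h1 : -1 ≤ y) :
    sx ρ y * |y| ≤ |sE ρ y| * (1 + |y|) := by
  have hρ := h.1
  have hx0 := sx_nonneg ρ y
  have hx1 := sx_le h
  rcases le_total 0 y with hy | hy
  · have h2 := sE_ge_pos h hy
    have h3 : 0 ≤ (y + y ^ 2 / 2) * Real.exp y / ρ := by positivity
    have h4 : y * Real.exp (-y) ≤ 1 - Real.exp (-y) := by
      have h5 := Real.add_one_le_exp y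
      have h6 := exp_mul_neg y
      have h7 := Real.exp_pos (-y)
      nlinarith [mul_le_mul_of_nonneg_right h5 h7.le]
    have h5 : sx ρ y * y ≤ ρ * Real.exp (-y) * y := mul_le_mul_of_nonneg_right hx1 hy
    have h6 := mul_le_mul_of_nonneg_left h4 hρ.le
    have h7 : 0 ≤ sE ρ y := by
      have : 0 ≤ y * Real.exp (-y) := mul_nonneg hy (Real.exp_pos _).le
      have : 0 ≤ ρ * (y * Real.exp (-y)) := mul_nonneg hρ.le this
      linarith
    rw [abs_of_nonneg hy, abs_of_nonneg h7]
    have h8 : 0 ≤ sE ρ y * y := mul_nonneg h7 hy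
    linarith
  · obtain ⟨t, rfl⟩ : ∃ t, y = -t := ⟨-y, by ring⟩
    have ht : 0 ≤ t := by linarith
    have h2 := sE_le_neg h ht (by linarith)
    have h3 : 0 ≤ (t - t ^ 2 / 2) * Real.exp (-t) / ρ := by
      have : 0 ≤ t - t ^ 2 / 2 := by nlinarith
      positivity
    rw [neg_neg] at hx1
    have h7 : 0 ≤ -sE ρ (-t) := by
      have h8 := Real.add_one_le_exp t
      have : 0 ≤ ρ * (Real.exp t - 1) := mul_nonneg hρ.le (by linarith)
      linarith
    have e2 : |sE ρ (-t)| = -sE ρ (-t) := abs_of_nonpos (by linarith)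
    rw [abs_neg, abs_of_nonneg ht, e2]
    have h4 : t * Real.exp t ≤ (Real.exp t - 1) * (1 + t) := by
      have h8 := Real.add_one_le_exp t
      nlinarith
    have h5 : sx ρ (-t) * t ≤ ρ * Real.exp t * t := mul_le_mul_of_nonneg_right hx1 ht
    have h6 := mul_le_mul_of_nonneg_left h4 hρ.le
    have h8 : ρ * (Real.exp t - 1) * (1 + t) ≤ -sE ρ (-t) * (1 + t) :=
      mul_le_mul_of_nonneg_right (by linarith) (by linarith)
    linarith

/-- The tails of regime I, break point `bs`. -/
def PTail1s : Prop := ∀ (N : ℕ) (r δ y η : ℝ), Reg1 N r δ → At r δ y η → Sad1 N r δ y →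
  |η| ≤ eo1 N r δ →
  Tls r δ y (bs r δ y) (fun _ => 1) ≤ 1 / 500 * sG r δ y ∧
  ‖kap r δ y‖ / sD (r * δ) y * Tls r δ y (bs r δ y) gs ≤
    3 / 2 * (HH N r δ / 1000) * sG r δ y ∧
  ‖kap r δ y‖ / sD (r * δ) y * Tls r δ y (bs r δ y) (fun σ => σ * gs σ) ≤
    HH N r δ ^ 2 / 250 * (δ * sG r δ y)

theorem eo1_le {N : ℕ} {r δ : ℝ} (hN : 3 ≤ N) : eo1 N r δ ≤ Real.pi / 2 := by
  have h1 : hst N ≤ 2 * Real.pi / 3 := by
    unfold hst
    have hN3 : (3 : ℝ) ≤ N := by exact_mod_cast hN
    have := Real.pi_pos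
    gcongr
  have h0 : 0 ≤ hst N := by
    unfold hst
    have := Real.pi_pos
    positivity
  have h2 : om1 N r δ ≤ 1 / 4 := by
    unfold om1
    split_ifs <;> norm_num
  unfold eo1
  have := Real.pi_pos
  nlinarith

/-- PIECE MAIN (regime I) from the tails with break point. -/
theorem own1_of_tails_s (hT : PTail1s) : POwn1 := by
  refine own1_of_own ?_ ?_
  · intro N r δ y η hR hA hS h0 h1
    have habs : |η| ≤ eo1 N r δ := abs_le.2 ⟨by linarith, h1⟩
    obtain ⟨t0, t1, t2⟩ := hT N r δ y η hR hA hS habs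
    have hy := hA.y_nonneg_own h0
    have hδ := hR.d0
    have hG := sG_pos (r := r) hδ hA.y1
    have hy1 : y ≤ 14 / 25 := by
      rcases hS with h | h
      · linarith [h.2.hi]
      · linarith [h.2.hi]
    have hH := HH_nonneg_own hR.toPar
    have hp := Real.pi_lt_d2
    have hk : |y| * (1 + sx (r * δ) y) < 137 / 25 := by
      have h3 := K_mul_y_le hA.dom hA.y1.le
      rw [hA.eta] at h3
      have h4 := habs.trans (eo1_le hR.N3)
      have h5 : |y| ≤ 14 / 25 := by rwa [abs_of_nonneg hy]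
      have h6 : |η| * (1 + |y|) ≤ Real.pi / 2 * (1 + 14 / 25) := by
        have := abs_nonneg y
        have := Real.pi_pos
        gcongr
      nlinarith
    have hk2 := bs_lt (r := r) (δ := δ) (y := y) (by rw [abs_of_nonneg hy]; linarith) hk
    refine own_pos_s1 (s1 := bs r δ y) (τ0 := 1 / 500) hR.r0 hδ bs_or bs_le hk2 hA.dom hy
      (by linarith) (by norm_num) (by norm_num) (by norm_num) (by norm_num) t0 (t1.trans ?_)
      (t2.trans ?_)
    · have := mul_nonneg hH hG.le
      nlinarith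
    · have := mul_nonneg (sq_nonneg (HH N r δ)) (mul_nonneg hδ.le hG.le)
      nlinarith
  · intro N r δ y η hR hA hS h0 h1
    have habs : |η| ≤ eo1 N r δ := by
      rw [abs_of_nonpos h0]
      linarith
    obtain ⟨t0, t1, t2⟩ := hT N r δ y η hR hA hS habs
    have hy := hA.y_nonpos_own h0
    have hδ := hR.d0
    have hG := sG_pos (r := r) hδ hA.y1
    have hH := HH_nonneg_own hR.toPar
    have hx := sx_nonneg (r * δ) y
    have hlo : -(53 / 100) ≤ y := by
      rcases hS with h | h
      · linarith [h.2.lo]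
      · linarith [h.2.lo]
    have F : NegF (sx (r * δ) y) y := by
      rcases hS with h | h
      · have hs := h.2
        exact negF_sad hlo hy (by linarith [hs.T]) (by linarith [hs.D])
      · have hs := h.2
        exact negF_sad hlo hy hs.T hs.D
    have hp := Real.pi_lt_d2
    have hk : |y| * (1 + sx (r * δ) y) < 137 / 25 := by
      have h3 := K_mul_y_le hA.dom hA.y1.le
      rw [hA.eta] at h3
      have h4 := habs.trans (eo1_le hR.N3)
      have h5 : |y| ≤ 53 / 100 := by
        rw [abs_of_nonpos hy]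
        linarith
      have h6 : |η| * (1 + |y|) ≤ Real.pi / 2 * (1 + 53 / 100) := by
        have := abs_nonneg y
        have := Real.pi_pos
        gcongr
      nlinarith
    have hk2 := bs_lt (r := r) (δ := δ) (y := y) (by rw [abs_of_nonpos hy]; linarith) hk
    have key : Own r δ y (103 / 1000) (13 / 10 * kD r δ y + HH N r δ / 500)
        (8 / 5 * (‖kap r δ y‖ / sD (r * δ) y) + HH N r δ ^ 2 / 200) := by
      refine own_neg_s1 (s1 := bs r δ y) (τ0 := 1 / 500) hR.r0 hδ bs_or bs_le hk2 hA.dom F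
        (by norm_num) (by norm_num) (by norm_num) (by norm_num) t0 (t1.trans ?_) (t2.trans ?_)
      · have := mul_nonneg hH hG.le
        nlinarith
      · have := mul_nonneg (sq_nonneg (HH N r δ)) (mul_nonneg hδ.le hG.le)
        nlinarith
    exact key.mono hA.y1 (by norm_num) le_rfl le_rfl

end SokalV3
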