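import Mathlib

/-!
# Integrals over the lumps: `∫ exp (-(m u + κ (1 - cos u)))`

`lump`: everything beyond `137/25` with the weight `e^(69/100 |s - 2π|)`.
-/

set_option autoImplicit false

namespace SokalV3T

open Real MeasureTheory Set

/-- `e^(-(m u + κ (1 - cos u)))` -/
noncomputable def gl (m κ u : ℝ) : ℝ := exp (-(m * u + κ * (1 - cos u)))

theorem gl_pos (m κ u : ℝ) : 0 < gl m κ u := exp_pos _

theorem continuous_gl (m κ : ℝ) : Continuous (gl m κ) := by
  unfold gl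
  fun_prop

theorem gl_le {m κ : ℝ} (hκ : 0 ≤ κ) (u : ℝ) : gl m κ u ≤ exp (-m * u) := by
  unfold gl
  apply exp_le_exp.2
  have := mul_nonneg hκ (sub_nonneg.2 (cos_le_one u))
  linarith

theorem ii_gl {m κ : ℝ} (hm : 0 < m) (hκ : 0 ≤ κ) (c : ℝ) : IntegrableOn (gl m κ) (Ioi c) := by
  refine (integrableOn_exp_mul_Ioi (neg_lt_zero.2 hm) c).mono' (continuous_gl m κ).aestronglyMeasurable
    (Filter.Eventually.of_forall fun u => ?_)
  rw [norm_of_nonneg (gl_pos m κ u).le]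
  exact gl_le hκ u

theorem gl_shift (m κ u : ℝ) : gl m κ (u + 2 * π) = exp (-(2 * π * m)) * gl m κ u := by
  unfold gl
  rw [← exp_add, cos_add_two_pi]
  congr 1
  ring

theorem shift_Ioi (f : ℝ → ℝ) (c t : ℝ) : ∫ u in Ioi (c + t), f u = ∫ u in Ioi c, f (u + t) := by
  rw [← integral_indicator measurableSet_Ioi, ← integral_indicator measurableSet_Ioi,
    ← integral_add_right_eq_self _ t]
  congr 1
  funext u
  simp only [indicator, mem_Ioi, add_lt_add_iff_right]

/-- summation over the periods -/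
theorem gl_period {m κ : ℝ} (hm : 0 < m) (hκ : 0 ≤ κ) :
    ∫ u in Ioi (0 : ℝ), gl m κ u = (∫ u in Ioc (0 : ℝ) (2 * π), gl m κ u) / (1 - exp (-(2 * π * m))) := by
  have hp := pi_pos
  have h1 : Ioi (0 : ℝ) = Ioc 0 (2 * π) ∪ Ioi (2 * π) := (Ioc_union_Ioi_eq_Ioi (by positivity)).symm
  have h2 : ∫ u in Ioi (0 : ℝ), gl m κ u =
      (∫ u in Ioc (0 : ℝ) (2 * π), gl m κ u) + ∫ u in Ioi (2 * π), gl m κ u := by
    conv_lhs => rw [h1]
    exact setIntegral_union (Ioc_disjoint_Ioi le_rfl) measurableSet_Ioi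
      ((ii_gl hm hκ 0).mono_set Ioc_subset_Ioi_self) (ii_gl hm hκ _)
  have h3 : ∫ u in Ioi (2 * π), gl m κ u = exp (-(2 * π * m)) * ∫ u in Ioi (0 : ℝ), gl m κ u := by
    have := shift_Ioi (gl m κ) 0 (2 * π)
    rw [zero_add] at this
    rw [this, ← integral_const_mul]
    congr 1
    funext u
    exact gl_shift m κ u
  have h4 : exp (-(2 * π * m)) < 1 := by
    rw [exp_lt_one_iff]
    have : 0 < 2 * π * m := by positivity
    linarith
  rw [eq_div_iff (by linarith : (1 - exp (-(2 * π * m))) ≠ 0)]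
  linarith

/-- the two halves of a period -/
theorem gl_two {m κ : ℝ} (hm : 0 < m) :
    ∫ u in Ioc (0 : ℝ) (2 * π), gl m κ u ≤
      (1 + exp (-(π * m))) * ∫ u in Ioc (0 : ℝ) π, gl 0 κ u := by
  have hp := pi_pos
  have hint : ∀ (m' a b : ℝ), IntervalIntegrable (gl m' κ) volume a b := fun m' a b =>
    (continuous_gl m' κ).intervalIntegrable a b
  rw [← intervalIntegral.integral_of_le (by positivity), ← intervalIntegral.integral_of_le hp.le,
    ← intervalIntegral.integral_add_adjacent_intervals (hint m 0 π) (hint m π (2 * π))]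
  have h1 : ∫ u in (0 : ℝ)..π, gl m κ u ≤ ∫ u in (0 : ℝ)..π, gl 0 κ u := by
    refine intervalIntegral.integral_mono_on hp.le (hint _ _ _) (hint _ _ _) fun u hu => ?_
    unfold gl
    apply exp_le_exp.2
    have := mul_nonneg hm.le hu.1
    linarith
  have h2 : ∫ u in π..(2 * π), gl m κ u ≤ exp (-(π * m)) * ∫ u in (0 : ℝ)..π, gl 0 κ u := by
    have e1 : ∫ u in (0 : ℝ)..π, gl 0 κ u = ∫ u in π..(2 * π), gl 0 κ (2 * π - u) := by
      rw [intervalIntegral.integral_comp_sub_left]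
      congr 1 <;> ring
    rw [e1, ← intervalIntegral.integral_const_mul]
    refine intervalIntegral.integral_mono_on (by linarith) (hint _ _ _)
      (((continuous_gl 0 κ).comp (by fun_prop)).const_mul _ |>.intervalIntegrable _ _) fun u hu => ?_
    unfold gl
    rw [← exp_add, cos_two_pi_sub]
    apply exp_le_exp.2
    have := mul_le_mul_of_nonneg_left hu.1 hm.le
    linarith
  linarith

/-! ### bounds of the cosine -/

theorem cos_le_quart {x : ℝ} (hx : 0 ≤ x) : cos x ≤ 1 - x ^ 2 / 2 + x ^ 4 / 24 := by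
  have hsin : ∀ y : ℝ, 0 ≤ y → y - y ^ 3 / 6 ≤ sin y := by
    intro y hy
    have hm : MonotoneOn (fun x : ℝ => sin x - (x - x ^ 3 / 6)) (Ici 0) := by
      refine monotoneOn_of_deriv_nonneg (convex_Ici 0) (by fun_prop) (by fun_prop) fun z _ => ?_
      have h1 : HasDerivAt (fun x : ℝ => sin x - (x - x ^ 3 / 6)) (cos z - (1 - z ^ 2 / 2)) z := by
        refine ((hasDerivAt_sin z).sub ((hasDerivAt_id z).sub
          ((hasDerivAt_pow 3 z).div_const 6))).congr_deriv ?_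
        push_cast
        ring
      rw [h1.deriv]
      have := one_sub_sq_div_two_le_cos (x := z)
      linarith
    have := hm (mem_Ici.2 le_rfl) (mem_Ici.2 hy) hy
    simp at this
    linarith
  have hm : MonotoneOn (fun x : ℝ => 1 - x ^ 2 / 2 + x ^ 4 / 24 - cos x) (Ici 0) := by
    refine monotoneOn_of_deriv_nonneg (convex_Ici 0) (by fun_prop) (by fun_prop) fun z hz => ?_
    rw [interior_Ici] at hz
    have h1 : HasDerivAt (fun x : ℝ => 1 - x ^ 2 / 2 + x ^ 4 / 24 - cos x)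
        (sin z - (z - z ^ 3 / 6)) z := by
      refine ((((hasDerivAt_const z (1 : ℝ)).sub ((hasDerivAt_pow 2 z).div_const 2)).add
        ((hasDerivAt_pow 4 z).div_const 24)).sub (hasDerivAt_cos z)).congr_deriv ?_
      push_cast
      ring
    rw [h1.deriv]
    have := hsin z (le_of_lt hz)
    linarith
  have := hm (mem_Ici.2 le_rfl) (mem_Ici.2 hx) hx
  simp at this
  linarith

/-- `1 - cos u ≥ 2/5 u²` on `[0, 3/2]` -/
theorem one_sub_cos_ge {u : ℝ} (h0 : 0 ≤ u) (h1 : u ≤ 3 / 2) : 2 / 5 * u ^ 2 ≤ 1 - cos u := by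
  have h := cos_le_quart h0
  have h3 : u ^ 2 ≤ 9 / 4 := by nlinarith
  have h2 : u ^ 4 ≤ 9 / 4 * u ^ 2 := by nlinarith [mul_nonneg (sq_nonneg u) (sub_nonneg.2 h3)]
  nlinarith [sq_nonneg u]

theorem one_sub_cos_ge' {u : ℝ} (h0 : 3 / 2 ≤ u) (h1 : u ≤ π) : 9 / 10 ≤ 1 - cos u := by
  have h := cos_le_quart (x := 3 / 2) (by norm_num)
  have h2 : cos u ≤ cos (3 / 2) := cos_le_cos_of_nonneg_of_le_pi (by norm_num) h1 h0
  norm_num at h
  linarith

theorem int_gauss {b : ℝ} : ∫ u in Ioi (0 : ℝ), exp (-b * u ^ 2) = √(π / b) / 2 :=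
  integral_gaussian_Ioi b

theorem ii_gauss {b : ℝ} (hb : 0 < b) (c : ℝ) : IntegrableOn (fun u : ℝ => exp (-b * u ^ 2)) (Ioi c) :=
  (integrable_exp_neg_mul_sq hb).integrableOn

/-- half a period -/
theorem gl_half {κ : ℝ} (hκ : 0 < κ) :
    ∫ u in Ioc (0 : ℝ) π, gl 0 κ u ≤ √(π / (2 / 5 * κ)) / 2 + π * exp (-(9 / 10 * κ)) := by
  have hp := pi_pos
  have hb : 0 < 2 / 5 * κ := by positivity
  have i1 : IntegrableOn (fun u : ℝ => exp (-(2 / 5 * κ) * u ^ 2)) (Ioc 0 π) :=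
    (ii_gauss hb 0).mono_set Ioc_subset_Ioi_self
  have i2 : IntegrableOn (fun _ : ℝ => exp (-(9 / 10 * κ))) (Ioc 0 π) :=
    integrableOn_const (by simp)
  have h1 : ∫ u in Ioc (0 : ℝ) π, gl 0 κ u ≤
      ∫ u in Ioc (0 : ℝ) π, (exp (-(2 / 5 * κ) * u ^ 2) + exp (-(9 / 10 * κ))) := by
    refine setIntegral_mono_on ((continuous_gl 0 κ).integrableOn_Ioc) (i1.add i2) measurableSet_Ioc
      fun u hu => ?_
    unfold gl
    rcases le_total u (3 / 2) with h | h
    · refine le_trans (exp_le_exp.2 ?_) (le_add_of_nonneg_right (exp_pos _).le)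
      have := mul_le_mul_of_nonneg_left (one_sub_cos_ge hu.1.le h) hκ.le
      linarith
    · refine le_trans (exp_le_exp.2 ?_) (le_add_of_nonneg_left (exp_pos _).le)
      have := mul_le_mul_of_nonneg_left (one_sub_cos_ge' h hu.2) hκ.le
      linarith
  have h2 : ∫ u in Ioc (0 : ℝ) π, (exp (-(2 / 5 * κ) * u ^ 2) + exp (-(9 / 10 * κ))) =
      (∫ u in Ioc (0 : ℝ) π, exp (-(2 / 5 * κ) * u ^ 2)) + π * exp (-(9 / 10 * κ)) := by
    rw [integral_add i1 i2]
    congr 1
    rw [setIntegral_const]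
    simp [hp.le]
  have h3 : ∫ u in Ioc (0 : ℝ) π, exp (-(2 / 5 * κ) * u ^ 2) ≤ √(π / (2 / 5 * κ)) / 2 := by
    rw [← int_gauss]
    exact setIntegral_mono_set (ii_gauss hb 0) (Filter.Eventually.of_forall fun u => (exp_pos _).le)
      (Filter.Eventually.of_forall Ioc_subset_Ioi_self)
  linarith

theorem exp47 : 100 ≤ exp (47 / 10) := by
  have h1 := exp_one_gt_d9
  have h2 : exp (47 / 10) = exp 1 ^ 4 * exp (7 / 10) := by
    rw [← exp_nat_mul, ← exp_add]
    norm_num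
  have h3 := Real.sum_le_exp_of_nonneg (x := 7 / 10) (by norm_num) 4
  norm_num [Finset.sum_range_succ, Nat.factorial] at h3
  have h4 : (27 / 10 : ℝ) ^ 4 ≤ exp 1 ^ 4 := pow_le_pow_left₀ (by norm_num) (by linarith) 4
  rw [h2]
  calc (100 : ℝ) ≤ (27 / 10) ^ 4 * (12013 / 6000) := by norm_num
    _ ≤ exp 1 ^ 4 * exp (7 / 10) := by gcongr

theorem pow5_exp {t : ℝ} (ht : 0 ≤ t) : t ^ 5 ≤ 120 * exp t := by
  have h3 := Real.sum_le_exp_of_nonneg ht 6
  norm_num [Finset.sum_range_succ, Nat.factorial] at h3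
  nlinarith [pow_nonneg ht 2, pow_nonneg ht 3, pow_nonneg ht 4]

/-- right part: all lumps -/
theorem lump_right {m κ : ℝ} (hm : 3 / 2 ≤ m) (hκ : 10 ≤ κ) :
    ∫ u in Ioi (0 : ℝ), gl m κ u ≤ 29 / 20 / √κ := by
  have hp := pi_pos
  have hp1 := pi_gt_d4
  have hp2 := pi_lt_d4
  have hκ0 : 0 < κ := by linarith
  have hm0 : 0 < m := by linarith
  have hs : 0 < √κ := sqrt_pos.2 hκ0
  have hss : √κ ^ 2 = κ := sq_sqrt hκ0.le
  have hs3 : 3 ≤ √κ := by
    rw [le_sqrt' (by norm_num)]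
    linarith
  -- q = exp (-(π m))
  have hq : exp (-(π * m)) ≤ 1 / 100 := by
    have h1 : 100 ≤ exp (π * m) := exp47.trans (exp_le_exp.2 (by nlinarith))
    rw [exp_neg, one_div]
    exact inv_anti₀ (by norm_num) h1
  have hq2 : exp (-(2 * π * m)) = exp (-(π * m)) ^ 2 := by
    rw [← exp_nat_mul]
    congr 1
    push_cast
    ring
  set q := exp (-(π * m)) with hqd
  have hq0 : 0 < q := exp_pos _
  set J := ∫ u in Ioc (0 : ℝ) π, gl 0 κ u with hJ
  have hJ0 : 0 ≤ J := setIntegral_nonneg measurableSet_Ioc fun u _ => (gl_pos _ _ _).le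
  have h1 : ∫ u in Ioi (0 : ℝ), gl m κ u ≤ 100 / 99 * J := by
    rw [gl_period hm0 hκ0.le, hq2, div_le_iff₀ (by nlinarith)]
    refine (gl_two hm0).trans ?_
    have h5 : 1 + q ≤ 100 / 99 * (1 - q ^ 2) := by nlinarith
    calc (1 + q) * J ≤ (100 / 99 * (1 - q ^ 2)) * J := mul_le_mul_of_nonneg_right h5 hJ0
      _ = 100 / 99 * J * (1 - q ^ 2) := by ring
  have h2 : J * √κ ≤ 1425 / 1000 := by
    have h3 := mul_le_mul_of_nonneg_right (gl_half hκ0) hs.le
    have h4 : √(π / (2 / 5 * κ)) / 2 * √κ ≤ 14025 / 10000 := by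
      have h5 : √(π / (2 / 5 * κ)) * √κ = √(5 / 2 * π) := by
        rw [← sqrt_mul (by positivity)]
        congr 1
        field_simp
      have h6 : √(5 / 2 * π) ≤ 2805 / 1000 := by
        rw [sqrt_le_left (by norm_num)]
        nlinarith
      linarith
    have h5 : exp (-(9 / 10 * κ)) * √κ ≤ 7 / 1000 := by
      have h6 := pow5_exp (t := 9 / 10 * κ) (by positivity)
      rw [exp_neg, inv_mul_le_iff₀ (exp_pos _)]
      have h7 : √κ ≤ κ / 3 := by nlinarith
      have h8 : 10 ^ 4 * κ ≤ κ ^ 5 := by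
        have : (10 : ℝ) ^ 4 ≤ κ ^ 4 := pow_le_pow_left₀ (by norm_num) hκ 4
        nlinarith
      have h9 : (9 / 10 * κ) ^ 5 = 59049 / 100000 * κ ^ 5 := by ring
      rw [h9] at h6
      nlinarith
    have h6 : π * exp (-(9 / 10 * κ)) * √κ ≤ 22 / 1000 := by
      rw [mul_assoc]
      have := mul_le_mul_of_nonneg_left h5 hp.le
      nlinarith
    have h7 : (√(π / (2 / 5 * κ)) / 2 + π * exp (-(9 / 10 * κ))) * √κ =
        √(π / (2 / 5 * κ)) / 2 * √κ + π * exp (-(9 / 10 * κ)) * √κ := by ring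
    rw [h7] at h3
    linarith
  rw [le_div_iff₀ hs]
  have := mul_le_mul_of_nonneg_right h1 hs.le
  nlinarith

/-- left part: half a lump with a tilt -/
theorem lump_left {μ κ b : ℝ} (hκ : 0 < κ) (hb : b ≤ 3 / 2) :
    ∫ u in Ioc (0 : ℝ) b, exp (μ * u - κ * (1 - cos u)) ≤
      2 * exp (μ ^ 2 / (4 / 5 * κ)) / √κ := by
  have hp := pi_pos
  have hp2 := pi_lt_d4
  have hs : 0 < √κ := sqrt_pos.2 hκ
  have hc : 0 < 1 / 5 * κ := by positivity
  have i1 : IntegrableOn (fun u : ℝ => exp (μ ^ 2 / (4 / 5 * κ)) * exp (-(1 / 5 * κ) * u ^ 2))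
      (Ioi 0) := (ii_gauss hc 0).const_mul _
  have h1 : ∫ u in Ioc (0 : ℝ) b, exp (μ * u - κ * (1 - cos u)) ≤
      ∫ u in Ioc (0 : ℝ) b, exp (μ ^ 2 / (4 / 5 * κ)) * exp (-(1 / 5 * κ) * u ^ 2) := by
    refine setIntegral_mono_on (Continuous.integrableOn_Ioc (by fun_prop))
      (i1.mono_set Ioc_subset_Ioi_self) measurableSet_Ioc fun u hu => ?_
    rw [← exp_add]
    apply exp_le_exp.2
    have h2 := mul_le_mul_of_nonneg_left (one_sub_cos_ge hu.1.le (hu.2.trans hb)) hκ.le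
    have h3 : μ * u ≤ μ ^ 2 / (4 / 5 * κ) + 1 / 5 * κ * u ^ 2 := by
      have h4 : 0 ≤ (μ - 2 / 5 * κ * u) ^ 2 / (4 / 5 * κ) := by positivity
      have h5 : (μ - 2 / 5 * κ * u) ^ 2 / (4 / 5 * κ) =
          μ ^ 2 / (4 / 5 * κ) + 1 / 5 * κ * u ^ 2 - μ * u := by
        field_simp
        ring
      linarith
    linarith
  have h2 : ∫ u in Ioc (0 : ℝ) b, exp (μ ^ 2 / (4 / 5 * κ)) * exp (-(1 / 5 * κ) * u ^ 2) ≤
      exp (μ ^ 2 / (4 / 5 * κ)) * (√(π / (1 / 5 * κ)) / 2) := by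
    rw [← int_gauss, ← integral_const_mul]
    exact setIntegral_mono_set i1 (Filter.Eventually.of_forall fun u => by positivity)
      (Filter.Eventually.of_forall Ioc_subset_Ioi_self)
  have h3 : √(π / (1 / 5 * κ)) ≤ 4 / √κ := by
    rw [le_div_iff₀ hs, ← sqrt_mul (by positivity)]
    have e : π / (1 / 5 * κ) * κ = 5 * π := by field_simp
    rw [e, sqrt_le_left (by norm_num)]
    nlinarith
  calc _ ≤ _ := h1
    _ ≤ _ := h2
    _ ≤ exp (μ ^ 2 / (4 / 5 * κ)) * (4 / √κ / 2) := by gcongr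
    _ = _ := by ring

/-- the weight times the integrand beyond `137/25` -/
noncomputable def lf (F μ κ c0 s : ℝ) : ℝ :=
  exp (69 / 100 * |s - 2 * π| - (F + μ * (s - c0) + κ * (1 - cos (s - c0))))

theorem lf_pos (F μ κ c0 s : ℝ) : 0 < lf F μ κ c0 s := exp_pos _

theorem continuous_lf (F μ κ c0 : ℝ) : Continuous (lf F μ κ c0) := by
  unfold lf
  fun_prop

theorem lf_right {F μ κ c0 s : ℝ} (h : c0 ≤ s) :
    lf F μ κ c0 s ≤ exp (-F + 69 / 100 * |2 * π - c0|) * gl (μ - 69 / 100) κ (s - c0) := by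
  unfold lf gl
  rw [← exp_add]
  apply exp_le_exp.2
  have h1 : |s - 2 * π| ≤ (s - c0) + |2 * π - c0| := by
    have := abs_add_le (s - c0) (-(2 * π - c0))
    rw [abs_neg, abs_of_nonneg (sub_nonneg.2 h)] at this
    have e : s - c0 + -(2 * π - c0) = s - 2 * π := by ring
    rwa [e] at this
  nlinarith

theorem lf_left {F μ κ c0 s : ℝ} (h : s ≤ c0) :
    lf F μ κ c0 s ≤ exp (-F + 69 / 100 * |2 * π - c0|) *
      exp ((μ + 69 / 100) * (c0 - s) - κ * (1 - cos (c0 - s))) := by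
  unfold lf
  rw [← exp_add]
  apply exp_le_exp.2
  have h1 : |s - 2 * π| ≤ (c0 - s) + |2 * π - c0| := by
    have := abs_add_le (s - c0) (-(2 * π - c0))
    rw [abs_neg, abs_of_nonpos (sub_nonpos.2 h)] at this
    have e : s - c0 + -(2 * π - c0) = s - 2 * π := by ring
    rw [e] at this
    linarith
  have h2 : cos (c0 - s) = cos (s - c0) := by rw [← cos_neg]; congr 1; ring
  rw [h2]
  nlinarith

theorem ii_lf {F μ κ c0 : ℝ} (hμ : 69 / 100 < μ) (hκ : 0 ≤ κ) (c : ℝ) :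
    IntegrableOn (lf F μ κ c0) (Ioi c) := by
  have h1 : IntegrableOn (fun s => exp (-F + 69 / 100 * |2 * π - c0|) *
      gl (μ - 69 / 100) κ (s - c0)) (Ioi c0) := by
    have h2 : IntegrableOn (fun s => gl (μ - 69 / 100) κ (s - c0)) (Ioi c0) := by
      refine (integrableOn_exp_mul_Ioi (a := -(μ - 69 / 100)) (by linarith) c0).const_mul
        (exp ((μ - 69 / 100) * c0)) |>.mono'
        ((continuous_gl _ _).comp (by fun_prop)).aestronglyMeasurable
        (Filter.Eventually.of_forall fun u => ?_)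
      rw [norm_of_nonneg (gl_pos _ _ _).le, ← exp_add]
      refine (gl_le hκ _).trans (exp_le_exp.2 ?_)
      nlinarith
    exact h2.const_mul _
  have h2 : IntegrableOn (lf F μ κ c0) (Ioi c0) := by
    refine h1.mono' (continuous_lf _ _ _ _).aestronglyMeasurable
      ((ae_restrict_iff' measurableSet_Ioi).2 (Filter.Eventually.of_forall fun u hu => ?_))
    rw [norm_of_nonneg (lf_pos _ _ _ _ _).le]
    exact lf_right (le_of_lt hu)
  rcases le_total c0 c with h | h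
  · exact h2.mono_set (Ioi_subset_Ioi h)
  · rw [← Ioc_union_Ioi_eq_Ioi h]
    exact (continuous_lf _ _ _ _).integrableOn_Ioc.union h2

/-- THE LUMPS: everything beyond `137/25`. -/
theorem lump {F μ κ c0 : ℝ} (hμ : 11 / 5 ≤ μ) (hκ : 10 ≤ κ) (h1 : 137 / 25 ≤ c0)
    (h2 : c0 ≤ 137 / 25 + 3 / 2) :
    ∫ s in Ioi (137 / 25 : ℝ), lf F μ κ c0 s ≤
      69 / 20 * exp (-F + 69 / 100 * |2 * π - c0| + (μ + 69 / 100) ^ 2 / (4 / 5 * κ)) / √κ := by
  have hκ0 : 0 < κ := by linarith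
  have hs : 0 < √κ := sqrt_pos.2 hκ0
  have hi := ii_lf (F := F) (κ := κ) (c0 := c0) (by linarith : 69 / 100 < μ) hκ0.le
  set B := exp (-F + 69 / 100 * |2 * π - c0|) with hB
  have hB0 : 0 < B := exp_pos _
  have e1 : ∫ s in Ioi (137 / 25 : ℝ), lf F μ κ c0 s =
      (∫ s in Ioc (137 / 25 : ℝ) c0, lf F μ κ c0 s) + ∫ s in Ioi c0, lf F μ κ c0 s := by
    conv_lhs => rw [← Ioc_union_Ioi_eq_Ioi h1]
    exact setIntegral_union (Ioc_disjoint_Ioi le_rfl) measurableSet_Ioi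
      ((hi _).mono_set Ioc_subset_Ioi_self) (hi _)
  have r1 : ∫ s in Ioi c0, lf F μ κ c0 s ≤ B * (29 / 20 / √κ) := by
    have h3 : ∫ s in Ioi c0, lf F μ κ c0 s = ∫ u in Ioi (0 : ℝ), lf F μ κ c0 (u + c0) := by
      have := shift_Ioi (lf F μ κ c0) 0 c0
      rwa [zero_add] at this
    have h4 : IntegrableOn (fun u => lf F μ κ c0 (u + c0)) (Ioi 0) := by
      have h5 := (hi c0)
      rw [← integrable_indicator_iff measurableSet_Ioi] at h5 ⊢
      refine (h5.comp_add_right c0).congr (Filter.Eventually.of_forall fun u => ?_)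
      simp only [indicator, mem_Ioi, lt_add_iff_pos_left]
    rw [h3]
    calc ∫ u in Ioi (0 : ℝ), lf F μ κ c0 (u + c0) ≤
        ∫ u in Ioi (0 : ℝ), B * gl (μ - 69 / 100) κ u := by
          refine setIntegral_mono_on h4 ((ii_gl (by linarith) hκ0.le 0).const_mul _)
            measurableSet_Ioi fun u hu => ?_
          have := lf_right (F := F) (μ := μ) (κ := κ) (c0 := c0) (s := u + c0)
            (by linarith [mem_Ioi.1 hu])
          rwa [add_sub_cancel_right] at this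
      _ = B * ∫ u in Ioi (0 : ℝ), gl (μ - 69 / 100) κ u := integral_const_mul _ _
      _ ≤ _ := mul_le_mul_of_nonneg_left (lump_right (by linarith) hκ) hB0.le
  have l1 : ∫ s in Ioc (137 / 25 : ℝ) c0, lf F μ κ c0 s ≤
      B * (2 * exp ((μ + 69 / 100) ^ 2 / (4 / 5 * κ)) / √κ) := by
    rw [← intervalIntegral.integral_of_le h1]
    have h3 : ∫ s in (137 / 25 : ℝ)..c0, lf F μ κ c0 s =
        ∫ u in (0 : ℝ)..(c0 - 137 / 25), lf F μ κ c0 (c0 - u) := by
      rw [intervalIntegral.integral_comp_sub_left]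
      congr 1 <;> ring
    have h5 : (0 : ℝ) ≤ c0 - 137 / 25 := by linarith
    rw [h3, intervalIntegral.integral_of_le h5]
    calc ∫ u in Ioc (0 : ℝ) (c0 - 137 / 25), lf F μ κ c0 (c0 - u) ≤
        ∫ u in Ioc (0 : ℝ) (c0 - 137 / 25), B *
          exp ((μ + 69 / 100) * u - κ * (1 - cos u)) := by
          refine setIntegral_mono_on
            (((continuous_lf F μ κ c0).comp (by fun_prop)).integrableOn_Ioc)
            (Continuous.integrableOn_Ioc (by fun_prop)) measurableSet_Ioc fun u hu => ?_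
          have := lf_left (F := F) (μ := μ) (κ := κ) (c0 := c0) (s := c0 - u)
            (by linarith [hu.1])
          rwa [sub_sub_cancel] at this
      _ = B * ∫ u in Ioc (0 : ℝ) (c0 - 137 / 25),
          exp ((μ + 69 / 100) * u - κ * (1 - cos u)) := integral_const_mul _ _
      _ ≤ _ := mul_le_mul_of_nonneg_left (lump_left hκ0 (by linarith)) hB0.le
  rw [e1, exp_add, ← hB]
  set E := exp ((μ + 69 / 100) ^ 2 / (4 / 5 * κ)) with hE
  have hE1 : 1 ≤ E := by
    rw [hE]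
    apply one_le_exp
    positivity
  have h6 : B * (29 / 20 / √κ) ≤ B * (29 / 20 * E / √κ) := by
    apply mul_le_mul_of_nonneg_left _ hB0.le
    apply div_le_div_of_nonneg_right _ hs.le
    linarith
  calc _ ≤ B * (2 * E / √κ) + B * (29 / 20 * E / √κ) := by linarith
    _ = 69 / 20 * (B * E) / √κ := by ring

end SokalV3T
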