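import Pool.Agent.Lib_MP_af4de1_v3.Asm8
import Pool.Agent.Lib_MP_af4de1_v3.PSad
import Pool.Agent.Lib_MP_af4de1_v3.GapR
import Pool.Agent.Lib_MP_af4de1_v3.GapL3
import Pool.Agent.Lib_MP_af4de1_v3.Tail1
import Pool.Agent.Lib_MP_af4de1_v3.Pair1
import Pool.Agent.Lib_MP_af4de1_v3.W2
import Pool.Agent.Lib_MP_af4de1_v3.OutL
import Pool.Agent.Lib_MP_af4de1_v3.F1Chain
import Pool.Agent.Lib_MP_af4de1_v3.ClJ
import Pool.Agent.Lib_MP_af4de1_v3.ShfRAll2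
import Pool.Agent.Lib_MP_af4de1_v3.RunRbX
import Pool.Agent.Lib_MP_af4de1_v3.RunLE
import Pool.Agent.Lib_MP_af4de1_v3.RunLab
import Pool.Agent.Lib_MP_af4de1_v3.DzRealL
import Pool.Agent.Lib_MP_af4de1_v3.DzRealR
import Pool.Agent.Lib_MP_af4de1_v3o.OFin
import Pool.Agent.Lib_MP_af4de1_f1.PCfin
import Pool.Agent.Lib_MP_af4de1_f1.N1Main
import Pool.Agent.Lib_MP_af4de1_q.QN1a
import Pool.Agent.Lib_MP_af4de1_fu.N2P

/-!
# F1, everything together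
-/

set_option autoImplicit false

namespace SokalV3

open Complex SokalU SokalF1 SokalF1S SokalF1M

theorem pL : PShfLw where
  a := SokalCel.shfL_a
  a' := SokalCl.shfL_a'
  b := SokalCel.shfL_b
  c := SokalCl.shfL_c
  d := fun N i r δ y η h1 h2 h3 h4 h5 h6 h7 => SokalDz.dGL N i r δ y η _ h1 h2 h3 h4 h5 h6 le_rfl h7
  e := SokalCen.shfL_e_of SokalDz.dGL SokalCel.e1L
  o := SokalV3O.shfL_o

theorem pR : PShfRw := SokalCel.pShfRw_of2 SokalCel.runR_b SokalDz.dGR SokalV3O.shfR_o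

theorem p1 : P1 where
  S := psad1
  PP := SokalPair1.pair1
  G := ⟨pGap1_L, fun N r δ ya yb η h1 h2 h3 h4 h5 => gapR N r δ ya yb η h1 h2 h3 h4 h5⟩
  O := SokalV3T.pown1
  L := pL
  R := pR

theorem p2rest : P2Rest := ⟨SokalP2O.p2_outL⟩

/-- **F1**, no hypothesis. -/
theorem dist_F1 :
    ∀ α r : ℝ, 0 < α → α ≤ Real.pi → 50 ≤ r → 9 / 2 ≤ α * r → SokalFU.Dist α r :=
  dist_F1_chain SokalQ.n1a SokalN1.n1b
    (fun α r h1 h2 => SokalFU.N2.dist_N2' (by linarith) (by norm_num at h2 ⊢; exact h2))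
    (w2_of p2rest) (fun _ _ _ h1 => waveU_reg1 p1 h1) SokalF1T.pc_fin

end SokalV3
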