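import Pool.Agent.Lib_MP_af4de1_v3o.OCore
import Pool.Agent.Lib_MP_af4de1_v3o.OFm

/-!
# The core `|s| ≤ 3/2` on the fixed path, no shift, absolute values, weights `1` and `e^a`
-/

set_option autoImplicit false

open Complex MeasureTheory Set SokalU SokalPG SokalF1S SokalF1M SokalF1G
open SokalF1 hiding Qf

namespace SokalV3F

/-- the integrand without shift -/
noncomputable def W0 (x y δ s1 : ℝ) (j : ℕ) (s : ℝ) : ℝ :=
  ‖pv (1 + x)⁻¹ s1 s‖ * (Real.exp (j * pc (1 + x)⁻¹ s1 s) *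
    Real.exp (-(Hz x y 0 (pc (1 + x)⁻¹ s1 s) s / δ)))

theorem pc_ga {x s1 s : ℝ} (hx : 0 ≤ x) (hs : 3 / 2 ≤ s1 ∨ s1 = 1 + x) (h1 : s1 ≤ 1 + x)
    (hs3 : |s| ≤ 3 / 2) : pc (1 + x)⁻¹ s1 s = ga x s := by
  have hX : 0 < 1 + x := by linarith
  have hc : 0 < (1 + x)⁻¹ := by positivity
  rcases hs with h | h
  · have ha := abs_le.1 (hs3.trans h)
    have e1 : (1 + x)⁻¹ * s ≤ (1 + x)⁻¹ * s1 := by
      gcongr
      exact ha.2
    have e2 : -((1 + x)⁻¹ * s1) ≤ (1 + x)⁻¹ * s := by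
      rw [← mul_neg]
      gcongr
      exact ha.1
    have e3 : (1 + x)⁻¹ * s1 ≤ 1 := by
      rw [inv_mul_eq_div, div_le_one hX]
      exact h1
    unfold pc ga
    rw [min_eq_right e1, max_eq_right e2, ← inv_mul_eq_div, min_eq_right (by linarith),
      max_eq_right (by linarith)]
  · rw [h]
    exact SokalF1B.pc_eq hx

theorem pv_le' {x : ℝ} (hx : 0 ≤ x) (s1 s : ℝ) :
    ‖pv (1 + x)⁻¹ s1 s‖ ≤ √(1 + ((1 + x)⁻¹) ^ 2) := by
  unfold pv
  have h : 0 ≤ (1 + x)⁻¹ := by positivity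
  generalize (1 + x)⁻¹ = c at h ⊢
  split_ifs
  · rw [Complex.norm_def]
    refine Real.sqrt_le_sqrt (le_of_eq ?_)
    simp [Complex.normSq_apply]
    ring
  · rw [norm_one]
    exact Real.one_le_sqrt.2 (by nlinarith [sq_nonneg c])

theorem W0_integrable {x y δ s1 : ℝ} {j : ℕ} (hx : 0 ≤ x) (hδ : 0 < δ) (hs0 : 0 < s1)
    (h1 : s1 ≤ 1 + x) (hk : |y| < (1 + x)⁻¹ * s1) (hy : y ≠ 0) :
    Integrable (W0 x y δ s1 j) := by
  have hX : 0 < 1 + x := by linarith
  have e3 : (1 + x)⁻¹ * s1 ≤ 1 := by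
    rw [inv_mul_eq_div, div_le_one hX]
    exact h1
  exact integrable_mF' (by positivity) hs0 e3 hδ hk hy 0 j

theorem W0_le {x y δ s1 s A E : ℝ} {j : ℕ} (hx : 0 ≤ x)
    (hs : 3 / 2 ≤ s1 ∨ s1 = 1 + x) (h1 : s1 ≤ 1 + x) (hs3 : |s| ≤ 3 / 2)
    (hE : Real.exp (j * ga x s) ≤ E) (hA : A ≤ Hf x y s / δ) :
    W0 x y δ s1 j s ≤ √(1 + ((1 + x)⁻¹) ^ 2) * (E * Real.exp (-A)) := by
  unfold W0
  rw [pc_ga hx hs h1 hs3]
  have h2 := pv_le' hx s1 s
  have e : Hz x y 0 (ga x s) s = Hf x y s := by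
    unfold Hz Hf
    ring
  rw [e]
  have : 0 < Real.exp (j * ga x s) := Real.exp_pos _
  have hE0 : 0 ≤ E := this.le.trans hE
  gcongr

/-- conversion -/
theorem coreS_eq {F : ℝ → ℝ} (hF : Integrable F) :
    ∫ s in Icc (-(3 / 2) : ℝ) (3 / 2), F s = SokalV3O.coreS F := by
  have hi : ∀ a b : ℝ, IntervalIntegrable F volume a b := fun a b => hF.intervalIntegrable
  rw [integral_Icc_eq_integral_Ioc, ← intervalIntegral.integral_of_le (by norm_num)]
  unfold SokalV3O.coreS
  rw [intervalIntegral.integral_comp_neg (fun s => F s),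
    intervalIntegral.integral_comp_neg (fun s => F s),
    intervalIntegral.integral_add_adjacent_intervals (hi _ _) (hi _ _),
    add_comm (∫ x in (-1 : ℝ)..(-0), F x),
    intervalIntegral.integral_add_adjacent_intervals (hi _ _) (hi _ _), neg_zero, add_comm,
    intervalIntegral.integral_add_adjacent_intervals (hi _ _) (hi _ _)]

theorem ga_le_mul {x s : ℝ} (hx : 0 ≤ x) (hs : 0 ≤ s) : ga x s ≤ (1 + x)⁻¹ * s := by
  have hX : 0 < 1 + x := by linarith
  unfold ga
  have : 0 ≤ s / (1 + x) := by positivity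
  rw [inv_mul_eq_div]
  exact max_le (by linarith) (min_le_right _ _)

theorem ga_nonpos {x v : ℝ} (hx : 0 ≤ x) (hv : 0 ≤ v) : ga x (-v) ≤ 0 := by
  have hX : 0 < 1 + x := by linarith
  unfold ga
  have : 0 ≤ v / (1 + x) := by positivity
  rw [neg_div]
  exact max_le (by norm_num) ((min_le_right _ _).trans (by linarith))

theorem ga_le_one' (x s : ℝ) : ga x s ≤ 1 := by
  unfold ga
  exact max_le (by norm_num) (min_le_left _ _)

/-- The core, `y > 0`. -/
theorem core_abs_pos {x y δ r s1 : ℝ} {j : ℕ} (hx : 0 ≤ x) (hy : 0 < y) (hy1 : y ≤ 18 / 25)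
    (hδ : 0 < δ) (hr : 499 / 10 ≤ r) (hrd : r * δ = √(x ^ 2 + y ^ 2) * Real.exp y)
    (hs : 3 / 2 ≤ s1 ∨ s1 = 1 + x) (h1 : s1 ≤ 1 + x) (hk : |y| < (1 + x)⁻¹ * s1)
    (hj : j ≤ 1) :
    ∫ s in Icc (-(3 / 2) : ℝ) (3 / 2), W0 x y δ s1 j s ≤
      1124 / 1000 * SokalV3O.Gn x y δ := by
  have hX : 0 < 1 + x := by linarith
  have hs0 : 0 < s1 := by
    rcases hs with h | h
    · linarith
    · linarith
  have hFi : Integrable (W0 x y δ s1 j) := W0_integrable hx hδ hs0 h1 hk hy.ne'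
  have hDG : DomG x y := ⟨hx, by linarith, hy1, by nlinarith [sq_nonneg x]⟩
  have hr0 : 0 < r := by linarith
  have hj0 : (0 : ℝ) ≤ j := Nat.cast_nonneg j
  have hj1 : (j : ℝ) ≤ 1 := by exact_mod_cast hj
  have hQ : 0 < Qf x y := by
    have hb := SokalF1B.s1_B hx hy.le hy1
    rw [← hrd] at hb
    have : 0 < r * δ := by positivity
    linarith
  rw [coreS_eq hFi]
  refine SokalV3O.coreL (t := 1) (w := 0) hx hy.le hy1 hδ hr hrd hj hFi one_pos le_rfl
    (by simp) ?_ ?_ ?_ ?_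
  · intro s h0 h2
    refine W0_le hx hs h1 (by rw [abs_of_nonneg h0]; linarith) ?_ ?_
    · apply Real.exp_le_exp.2
      exact mul_le_mul_of_nonneg_left (ga_le_mul hx h0) hj0
    · have h3 := G1_pos hDG hy.le h0 h2
      rw [le_div_iff₀ hδ]
      have e : (0 + 1 * (10 / 11 * (Qf x y / δ) * s ^ 2)) * δ = 10 / 11 * Qf x y * s ^ 2 := by
        field_simp
        ring
      rw [e]
      refine le_trans ?_ h3
      have : s ^ 2 ≤ 1 := by nlinarith
      have : 10 / 11 ≤ 1 - s ^ 2 / 11 := by linarith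
      gcongr
  · intro v h0 h2
    have := W0_le (y := y) (δ := δ) (s := -v) (E := 1) (j := j) hx hs h1
      (A := 0 + 1 * ((Qf x y / δ) * ((1 - 3 / 10 * v) * v ^ 2)))
      (by rw [abs_neg, abs_of_nonneg h0]; linarith)
      (by rw [Real.exp_le_one_iff]
          exact mul_nonpos_of_nonneg_of_nonpos hj0 (ga_nonpos hx h0)) ?_
    · rw [one_mul] at this
      exact this
    · have h3 := G3_pos hDG hy.le (s := -v) (by linarith) (by linarith)
      rw [le_div_iff₀ hδ]
      refine le_trans (le_of_eq ?_) h3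
      field_simp
      ring
  · intro s h0 h2
    refine W0_le hx hs h1 (by rw [abs_of_nonneg (by linarith)]; linarith) ?_ ?_
    · apply Real.exp_le_exp.2
      have := ga_le_one' x s
      have h4 : (j : ℝ) * ga x s ≤ j * 1 := mul_le_mul_of_nonneg_left this hj0
      linarith
    · have h3 := G2 hDG h0 h2
      rw [le_div_iff₀ hδ]
      have e : 11 / 20 * (Qf x y / δ) * δ = 11 / 20 * (Qf x y * 1) := by
        field_simp
      rw [e]
      refine le_trans ?_ h3
      have h5 : 1 ≤ s ^ 2 := by nlinarith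
      have := mul_le_mul_of_nonneg_left h5 hQ.le
      nlinarith
  · intro v h0 h2
    have := W0_le (y := y) (δ := δ) (s := -v) (E := 1) (j := j) hx hs h1
      (A := 11 / 20 * (Qf x y / δ))
      (by rw [abs_neg, abs_of_nonneg (by linarith)]; linarith)
      (by rw [Real.exp_le_one_iff]
          exact mul_nonpos_of_nonneg_of_nonpos hj0 (ga_nonpos hx (by linarith))) ?_
    · rw [one_mul] at this
      exact this
    · have h3 := G3_pos hDG hy.le (s := -v) (by linarith) (by linarith)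
      rw [le_div_iff₀ hδ]
      have e : 11 / 20 * (Qf x y / δ) * δ = 11 / 20 * (Qf x y * 1) := by
        field_simp
      rw [e]
      refine le_trans ?_ h3
      have h5 : 11 / 20 ≤ (1 + 3 / 10 * -v) * (-v) ^ 2 := by nlinarith
      have := mul_le_mul_of_nonneg_left h5 hQ.le
      linarith

/-- The core, `y = -n < 0`. -/
theorem core_abs_neg {x n δ r s1 : ℝ} {j : ℕ} (hx : 0 ≤ x) (hn : 0 < n) (hn1 : n ≤ 53 / 100)
    (hT : n ≤ 4 / 5 * x) (hD : 13 / 20 ≤ (1 - n) ^ 2 + x ^ 2)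
    (hδ : 0 < δ) (hr : 499 / 10 ≤ r) (hrd : r * δ = √(x ^ 2 + n ^ 2) * Real.exp (-n))
    (hs : 3 / 2 ≤ s1 ∨ s1 = 1 + x) (h1 : s1 ≤ 1 + x) (hk : |-n| < (1 + x)⁻¹ * s1)
    (hj : j ≤ 1) :
    ∫ s in Icc (-(3 / 2) : ℝ) (3 / 2), W0 x (-n) δ s1 j s ≤
      6 / 5 * SokalV3O.Gn x (-n) δ := by
  have hX : 0 < 1 + x := by linarith
  have hs0 : 0 < s1 := by
    rcases hs with h | h
    · linarith
    · linarith
  have hy : -n ≤ 0 := by linarith
  have hFi : Integrable (W0 x (-n) δ s1 j) := W0_integrable hx hδ hs0 h1 hk (by linarith : (-n : ℝ) < 0).ne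
  have hDG : DomG x (-n) := ⟨hx, by linarith, by linarith, by
    rw [← sub_eq_add_neg]
    linarith⟩
  have hr0 : 0 < r := by linarith
  have hj0 : (0 : ℝ) ≤ j := Nat.cast_nonneg j
  have hj1 : (j : ℝ) ≤ 1 := by exact_mod_cast hj
  have hN : SokalF1B.NegF x (-n) := SokalF1B.negF_small hx (by linarith) (by linarith)
    (by linarith) (by rw [← sub_eq_add_neg]; exact hD)
  have hQ := hN.q
  rw [coreS_eq hFi]
  refine SokalV3O.coreR (t := 1) (w := 0) (t' := 1) (w' := 0) hx hn.le hn1 hT hD hδ hr hrd hj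
    hFi one_pos le_rfl (by simp) one_pos le_rfl (by simp) ?_ ?_ ?_ ?_
  · intro s h0 h2
    refine W0_le hx hs h1 (by rw [abs_of_nonneg h0]; linarith) ?_ ?_
    · apply Real.exp_le_exp.2
      exact mul_le_mul_of_nonneg_left (ga_le_mul hx h0) hj0
    · have h3 := G1_negT hDG hy hN.T h0 h2
      rw [le_div_iff₀ hδ]
      refine le_trans (le_of_eq ?_) h3
      field_simp
      ring
  · intro v h0 h2
    have := W0_le (y := -n) (δ := δ) (s := -v) (E := 1) (j := j) hx hs h1
      (A := 0 + 1 * ((Qf x (-n) / δ) * ((1 - 14 / 25 * v + v ^ 2 / 10) * v ^ 2)))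
      (by rw [abs_neg, abs_of_nonneg h0]; linarith)
      (by rw [Real.exp_le_one_iff]
          exact mul_nonpos_of_nonneg_of_nonpos hj0 (ga_nonpos hx h0)) ?_
    · rw [one_mul] at this
      exact this
    · have h3 := G3_neg hDG hy (s := -v) (by linarith) (by linarith)
      rw [le_div_iff₀ hδ]
      refine le_trans (le_of_eq ?_) h3
      field_simp
      ring
  · intro s h0 h2
    refine W0_le hx hs h1 (by rw [abs_of_nonneg (by linarith)]; linarith) ?_ ?_
    · apply Real.exp_le_exp.2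
      have := ga_le_one' x s
      have h4 : (j : ℝ) * ga x s ≤ j * 1 := mul_le_mul_of_nonneg_left this hj0
      linarith
    · have h3 := G2 hDG h0 h2
      rw [le_div_iff₀ hδ]
      have e : 2 / 5 * (Qf x (-n) / δ) * δ = 2 / 5 * (Qf x (-n) * 1) := by
        field_simp
      rw [e]
      refine le_trans ?_ h3
      have h5 : 1 ≤ s ^ 2 := by nlinarith
      have := mul_le_mul_of_nonneg_left h5 hQ.le
      nlinarith
  · intro v h0 h2
    have := W0_le (y := -n) (δ := δ) (s := -v) (E := 1) (j := j) hx hs h1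
      (A := 2 / 5 * (Qf x (-n) / δ))
      (by rw [abs_neg, abs_of_nonneg (by linarith)]; linarith)
      (by rw [Real.exp_le_one_iff]
          exact mul_nonpos_of_nonneg_of_nonpos hj0 (ga_nonpos hx (by linarith))) ?_
    · rw [one_mul] at this
      exact this
    · have h3 := G3_neg hDG hy (s := -v) (by linarith) (by linarith)
      rw [le_div_iff₀ hδ]
      have e : 2 / 5 * (Qf x (-n) / δ) * δ = 2 / 5 * (Qf x (-n) * 1) := by
        field_simp
      rw [e]
      refine le_trans ?_ h3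
      have h5 : 2 / 5 ≤ (1 + 14 / 25 * -v + (-v) ^ 2 / 10) * (-v) ^ 2 := by
        have h6 : 2 / 5 ≤ 1 - 14 / 25 * v + v ^ 2 / 10 ∨ 5 / 4 ≤ v := by
          rcases le_total v (5 / 4) with h7 | h7
          · left
            nlinarith
          · right
            exact h7
        rcases h6 with h7 | h7
        · have h8 : 1 ≤ v ^ 2 := by nlinarith
          nlinarith
        · have h8 : 25 / 16 ≤ v ^ 2 := by nlinarith
          have h9 : 385 / 1000 ≤ 1 - 14 / 25 * v + v ^ 2 / 10 := by nlinarith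
          nlinarith
      have := mul_le_mul_of_nonneg_left h5 hQ.le
      linarith

end SokalV3F
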