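import Pool.Agent.Lib_MP_af4de1_v3.Core

/-!
# Assembly: general facts
-/

set_option autoImplicit false

namespace SokalV3

open Complex SokalU SokalF1 SokalF1S SokalF1M

/-- sum over the far waves of one side -/
theorem farsum {J : Finset ℤ} {i : ℤ → ℕ} (hinj : Set.InjOn i (J : Set ℤ)) (hi : ∀ j ∈ J, 1 ≤ i j)
    {a : ℤ → ℝ} {f g : ℝ} (hf : 0 ≤ f) (hg : 0 ≤ g) (h1 : ∀ j ∈ J, i j = 1 → a j ≤ f)
    (h2 : ∀ j ∈ J, 2 ≤ i j → a j ≤ (1 / 2) ^ (i j) * g) : ∑ j ∈ J, a j ≤ f + g / 2 := by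
  set φ : ℕ → ℝ := fun k => if k = 1 then f else (1 / 2) ^ k * g with hφ
  have hφ0 : ∀ k, 0 ≤ φ k := by
    intro k
    simp only [hφ]
    split_ifs
    · exact hf
    · positivity
  have s1 : ∑ j ∈ J, a j ≤ ∑ j ∈ J, φ (i j) := by
    refine Finset.sum_le_sum fun j hj => ?_
    simp only [hφ]
    split_ifs with h
    · exact h1 j hj h
    · exact h2 j hj (by have := hi j hj; omega)
  have s2 : ∑ j ∈ J, φ (i j) = ∑ k ∈ J.image i, φ k := (Finset.sum_image hinj).symm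
  obtain ⟨M, hM⟩ : ∃ M : ℕ, J.image i ⊆ Finset.Ico 1 (M + 2) := by
    refine ⟨(J.image i).sup id, fun k hk => ?_⟩
    have h3 : k ≤ (J.image i).sup id := Finset.le_sup (f := id) hk
    obtain ⟨j, hj, rfl⟩ := Finset.mem_image.1 hk
    have := hi j hj
    simp only [Finset.mem_Ico]
    omega
  have s3 : ∑ k ∈ J.image i, φ k ≤ ∑ k ∈ Finset.Ico 1 (M + 2), φ k :=
    Finset.sum_le_sum_of_subset_of_nonneg hM fun k _ _ => hφ0 k
  have s4 : ∀ M : ℕ, ∑ k ∈ Finset.Ico 1 (M + 2), φ k ≤ f + g / 2 - (1 / 2) ^ (M + 1) * g := by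
    intro M
    induction M with
    | zero =>
      have : Finset.Ico 1 (0 + 2) = {1} := rfl
      rw [this, Finset.sum_singleton]
      simp only [hφ, if_true]
      linarith
    | succ n ih =>
      rw [Finset.sum_Ico_succ_top (by omega)]
      have e : φ (n + 2) = (1 / 2) ^ (n + 2) * g := by
        simp only [hφ]
        rw [if_neg (by omega)]
      rw [e]
      have e2 : ((1 : ℝ) / 2) ^ (n + 2) = (1 / 2) ^ (n + 1) * (1 / 2) := pow_succ _ _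
      rw [e2]
      linarith
  have h5 : 0 ≤ (1 / 2 : ℝ) ^ (M + 1) * g := by positivity
  rw [s2] at s1
  linarith [s4 M]

theorem norm_kap {r δ y η : ℝ} (hδ : 0 < δ) (h : At r δ y η) : ‖kap r δ y‖ = r * Real.exp (-y) := by
  unfold kap
  rw [norm_div, norm_sK h.dom, Complex.norm_real, Real.norm_of_nonneg hδ.le]
  field_simp

theorem kap_re {r δ y : ℝ} : (kap r δ y).re = sx (r * δ) y / δ := by
  unfold kap
  rw [Complex.div_ofReal_re]
  unfold sK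
  simp

theorem kap_im {r δ y : ℝ} : (kap r δ y).im = y / δ := by
  unfold kap
  rw [Complex.div_ofReal_im]
  unfold sK
  simp

/-- `|κ| ≤ |κ + m|` -/
theorem norm_le_add {κ : ℂ} {m : ℝ} (hm : 0 ≤ m) (hk : 0 ≤ κ.re) : ‖κ‖ ≤ ‖κ + m‖ := by
  rw [← Real.sqrt_sq (norm_nonneg κ), ← Real.sqrt_sq (norm_nonneg (κ + m)), Complex.sq_norm,
    Complex.sq_norm, Complex.normSq_apply, Complex.normSq_apply]
  refine Real.sqrt_le_sqrt ?_
  simp only [Complex.add_re, Complex.ofReal_re, Complex.add_im, Complex.ofReal_im, add_zero]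
  nlinarith [mul_nonneg hm hk, sq_nonneg m]

/-- `|κ + m| ≥ q (|κ| + m)`, when `(2 q² - 1) |κ| ≤ Re κ`, `q ≤ 1`. -/
theorem norm_add_ge {κ : ℂ} {m q : ℝ} (hm : 0 ≤ m) (hq : 0 ≤ q) (hq1 : q ≤ 1)
    (hk : (2 * q ^ 2 - 1) * ‖κ‖ ≤ κ.re) : q * (‖κ‖ + m) ≤ ‖κ + m‖ := by
  have hn := norm_nonneg κ
  refine abs_le_of_sq_le_sq' ?_ (norm_nonneg _) |>.2
  have e1 : ‖κ + m‖ ^ 2 = ‖κ‖ ^ 2 + 2 * m * κ.re + m ^ 2 := by
    rw [Complex.sq_norm, Complex.sq_norm, Complex.normSq_apply, Complex.normSq_apply]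
    simp only [Complex.add_re, Complex.ofReal_re, Complex.add_im, Complex.ofReal_im, add_zero]
    ring
  rw [e1]
  have h1 : q ^ 2 ≤ 1 := pow_le_one₀ hq hq1
  have h2 : 2 * m * ((2 * q ^ 2 - 1) * ‖κ‖) ≤ 2 * m * κ.re := by gcongr
  have h3 : 0 ≤ (1 - q ^ 2) * (‖κ‖ - m) ^ 2 := mul_nonneg (by linarith) (sq_nonneg _)
  nlinarith

/-- `‖V1 + m V0‖` of a far wave -/
theorem shf_m {r δ y ζ H f0 f1 f2 m : ℝ} (h : Shf r δ y ζ H f0 f1 f2) :
    ‖V1 r δ y ζ + m * V0 r δ y ζ‖ ≤ (f1 * H + ‖kap r δ y + m‖ * f0) * sM r δ y := by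
  have e : V1 r δ y ζ + m * V0 r δ y ζ =
      (V1 r δ y ζ - kap r δ y * V0 r δ y ζ) + (kap r δ y + m) * V0 r δ y ζ := by ring
  have e2 : (f1 * H + ‖kap r δ y + m‖ * f0) * sM r δ y =
      f1 * H * sM r δ y + ‖kap r δ y + m‖ * (f0 * sM r δ y) := by ring
  rw [e, e2]
  refine (norm_add_le _ _).trans (add_le_add h.s1 ?_)
  rw [norm_mul]
  exact mul_le_mul_of_nonneg_left h.s0 (norm_nonneg _)

/-- `‖V1 + m V0‖` of the own wave -/
theorem own_m {r δ y e k v m : ℝ} (h : Own r δ y e k v) (hk : k ≤ ‖kap r δ y + m‖) :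
    (‖kap r δ y + m‖ - k) * ((1 - e) * sM r δ y) ≤ ‖V1 r δ y 0 + m * V0 r δ y 0‖ := by
  have e1 : (kap r δ y + m) * V0 r δ y 0 =
      (V1 r δ y 0 + m * V0 r δ y 0) - (V1 r δ y 0 - kap r δ y * V0 r δ y 0) := by ring
  have h1 : ‖kap r δ y + m‖ * ‖V0 r δ y 0‖ ≤ ‖V1 r δ y 0 + m * V0 r δ y 0‖ + k * ‖V0 r δ y 0‖ := by
    rw [← norm_mul, e1]
    exact (norm_sub_le _ _).trans (by gcongr; exact h.o1)
  have h2 : (‖kap r δ y + m‖ - k) * ((1 - e) * sM r δ y) ≤ (‖kap r δ y + m‖ - k) * ‖V0 r δ y 0‖ :=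
    mul_le_mul_of_nonneg_left h.o0 (by linarith)
  linarith

/-- the angle of wave `j` -/
theorem two_pi_hst {N : ℕ} (hN : N ≠ 0) : (N : ℝ) * hst N = 2 * Real.pi := by
  unfold hst
  have : (N : ℝ) ≠ 0 := by exact_mod_cast hN
  field_simp

theorem wp_period' (r δ θ : ℝ) : wp r δ (θ - 2 * Real.pi) = wp r δ θ := by
  unfold wp
  have : ((θ - r * δ + δ / 2 : ℝ) : ℂ) * I =
      ((θ - 2 * Real.pi - r * δ + δ / 2 : ℝ) : ℂ) * I + 2 * Real.pi * I := by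
    push_cast; ring
  rw [this, Complex.exp_add, Complex.exp_two_pi_mul_I, mul_one]

theorem hst_pos {N : ℕ} (hN : N ≠ 0) : 0 < hst N := by
  unfold hst
  have : (0 : ℝ) < N := by exact_mod_cast Nat.pos_of_ne_zero hN
  have := Real.pi_pos
  positivity

end SokalV3
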