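import Pool.Agent.Lib_MP_af4de1_v3.V3

/-!
# Plan v3: the SHIFT structures used by the assembly (fields `e` relaxed)

`PShfLw`, `PShfRw` are `PShfL`, `PShfR` of `V3.lean` with the fields `e` relaxed to
`((1/2)^i * 3/100, (1/2)^i * 3/50, 1)`; all other fields are verbatim.
-/

set_option autoImplicit false

namespace SokalV3

open Complex SokalU SokalF1 SokalF1S SokalF1M

/-- PIECE SHIFT (regime I), left side. -/
structure PShfLw : Prop where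
  /-- first far wave, inner own angles, `Γ < 10` (true .109, .084, .08) -/
  a : ∀ (N : ℕ) (r δ y η : ℝ), Reg1 N r δ → At r δ y η → Sad1 N r δ y → Gm N r δ < 10 →
    0 ≤ η → η ≤ ei1 N r δ → η + hst N ≤ Real.pi →
    Shf r δ y (hst N) (HH N r δ) (1 / 5) (1 / 5) 1
  /-- the same for `Γ ≥ 10` (true .0147, .012) -/
  a' : ∀ (N : ℕ) (r δ y η : ℝ), Reg1 N r δ → At r δ y η → Sad1 N r δ y → 10 ≤ Gm N r δ →
    0 ≤ η → η ≤ ei1 N r δ → η + hst N ≤ Real.pi →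
    Shf r δ y (hst N) (HH N r δ) (3 / 50) (3 / 50) 1
  /-- first far wave in the window, `Γ < 10` (true .033, .025, .057) -/
  b : ∀ (N : ℕ) (r δ y η : ℝ), Reg1 N r δ → At r δ y η → Sad1 N r δ y → Gm N r δ < 10 →
    ei1 N r δ ≤ η → η ≤ eo1 N r δ → η + hst N ≤ Real.pi →
    Shf r δ y (hst N) (HH N r δ) (2 / 25) (2 / 25) (13 / 100)
  /-- first far wave in the window, `Γ ≥ 10` (true 8e-4) -/
  c : ∀ (N : ℕ) (r δ y η : ℝ), Reg1 N r δ → At r δ y η → Sad1 N r δ y → 10 ≤ Gm N r δ →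
    ei1 N r δ ≤ η → η ≤ eo1 N r δ → η + hst N ≤ Real.pi →
    Shf r δ y (hst N) (HH N r δ) (1 / 100) (1 / 100) (1 / 100)
  /-- the other far waves, all own angles (true for `i = 2`: 2.5e-4, 3.5e-4, 5e-4; `i = 3`: 1e-7) -/
  d : ∀ (N i : ℕ) (r δ y η : ℝ), Reg1 N r δ → At r δ y η → Sad1 N r δ y →
    0 ≤ η → η ≤ eo1 N r δ → 2 ≤ i → η + i * hst N ≤ Real.pi →
    Shf r δ y (i * hst N) (HH N r δ) ((1 / 2) ^ i / 100) ((1 / 2) ^ i / 100) ((1 / 2) ^ i / 100)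
  /-- far waves seen from the boundary saddle `η = eo1` (true 3e-3 for `i = 1`, 1e-6 for `i = 2`) -/
  e : ∀ (N i : ℕ) (r δ y ζ : ℝ), Reg1 N r δ → At r δ y (eo1 N r δ) → Sad1 N r δ y →
    1 ≤ i → i * hst N ≤ ζ → eo1 N r δ + ζ ≤ Real.pi →
    Shf r δ y ζ (HH N r δ) ((1 / 2) ^ i * (3 / 100)) ((1 / 2) ^ i * (3 / 50)) 1
  /-- outer waves, boundary saddle (true 1.006) -/
  o : ∀ (N : ℕ) (r δ y ζ : ℝ), Reg1 N r δ → At r δ y (eo1 N r δ) → Sad1 N r δ y →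
    0 ≤ ζ → ζ ≤ ei1 N r δ → Out r δ y ζ (23 / 20)

/-- PIECE SHIFT (regime I), right side. -/
structure PShfRw : Prop where
  /-- true .092, .080, .10 -/
  a : ∀ (N : ℕ) (r δ y η : ℝ), Reg1 N r δ → At r δ y η → Sad1 N r δ y → Gm N r δ < 10 →
    η ≤ 0 → -ei1 N r δ ≤ η → -Real.pi ≤ η - hst N →
    Shf r δ y (-hst N) (HH N r δ) (1 / 5) (1 / 5) 1
  /-- the same for `Γ ≥ 10` (true .0104, .0091) -/
  a' : ∀ (N : ℕ) (r δ y η : ℝ), Reg1 N r δ → At r δ y η → Sad1 N r δ y → 10 ≤ Gm N r δ →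
    η ≤ 0 → -ei1 N r δ ≤ η → -Real.pi ≤ η - hst N →
    Shf r δ y (-hst N) (HH N r δ) (3 / 50) (3 / 50) 1
  /-- true .024, .026, .034 -/
  b : ∀ (N : ℕ) (r δ y η : ℝ), Reg1 N r δ → At r δ y η → Sad1 N r δ y → Gm N r δ < 10 →
    η ≤ -ei1 N r δ → -eo1 N r δ ≤ η → -Real.pi ≤ η - hst N →
    Shf r δ y (-hst N) (HH N r δ) (3 / 50) (7 / 100) (3 / 20)
  /-- true 5e-4 -/
  c : ∀ (N : ℕ) (r δ y η : ℝ), Reg1 N r δ → At r δ y η → Sad1 N r δ y → 10 ≤ Gm N r δ →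
    η ≤ -ei1 N r δ → -eo1 N r δ ≤ η → -Real.pi ≤ η - hst N →
    Shf r δ y (-hst N) (HH N r δ) (1 / 100) (1 / 100) (1 / 100)
  d : ∀ (N i : ℕ) (r δ y η : ℝ), Reg1 N r δ → At r δ y η → Sad1 N r δ y →
    η ≤ 0 → -eo1 N r δ ≤ η → 2 ≤ i → -Real.pi ≤ η - i * hst N →
    Shf r δ y (-(i * hst N)) (HH N r δ) ((1 / 2) ^ i / 100) ((1 / 2) ^ i / 100) ((1 / 2) ^ i / 100)
  e : ∀ (N i : ℕ) (r δ y ζ : ℝ), Reg1 N r δ → At r δ y (-eo1 N r δ) → Sad1 N r δ y →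
    1 ≤ i → ζ ≤ -(i * hst N) → -Real.pi ≤ -eo1 N r δ + ζ →
    Shf r δ y ζ (HH N r δ) ((1 / 2) ^ i * (3 / 100)) ((1 / 2) ^ i * (3 / 50)) 1
  /-- true 1.052 -/
  o : ∀ (N : ℕ) (r δ y ζ : ℝ), Reg1 N r δ → At r δ y (-eo1 N r δ) → Sad1 N r δ y →
    ζ ≤ 0 → -ei1 N r δ ≤ ζ → Out r δ y ζ (5 / 4)

end SokalV3
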