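import Pool.Agent.Lib_MP_af4de1_v3.Asm0
import Pool.Agent.Lib_MP_af4de1_v3.V3e

/-!
# Assembly: one side near a tie, and the localisation, as general lemmas
-/

set_option autoImplicit false

namespace SokalV3

open Complex SokalU SokalF1 SokalF1S SokalF1M

/-- One side: own wave and far waves, everything relative to the saddle of the side. -/
theorem side_near {r δ y e k v H f0 f1 f2 g0 : ℝ} (own : Own r δ y e k v) (he : e < 1)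
    (hM : 0 < sM r δ y) (hH : 0 ≤ H) (hf0 : 0 ≤ f0) (hf1 : 0 ≤ f1) (hf2 : 0 ≤ f2)
    {J : Finset ℤ} {i : ℤ → ℕ} {ζ : ℤ → ℝ} {c : ℤ → ℂ} {c0 : ℂ} (hg0 : 0 < g0)
    (hc : ∀ j ∈ J, ‖c j‖ = g0) (hc0 : ‖c0‖ = g0)
    (hinj : Set.InjOn i (J : Set ℤ)) (hi : ∀ j ∈ J, 1 ≤ i j)
    (h1 : ∀ j ∈ J, i j = 1 → Shf r δ y (ζ j) H f0 f1 f2)
    (h2 : ∀ j ∈ J, 2 ≤ i j →
      Shf r δ y (ζ j) H ((1 / 2) ^ (i j) / 100) ((1 / 2) ^ (i j) / 100) ((1 / 2) ^ (i j) / 100))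
    (hlt : (f0 + 1 / 200) / (1 - e) < 1) :
    c0 * V0 r δ y 0 + ∑ j ∈ J, c j * V0 r δ y (ζ j) ≠ 0 ∧
    ‖(c0 * V1 r δ y 0 + ∑ j ∈ J, c j * V1 r δ y (ζ j)) /
        (c0 * V0 r δ y 0 + ∑ j ∈ J, c j * V0 r δ y (ζ j)) - kap r δ y‖ ≤
      (k + (f1 + 1 / 200) / (1 - e) * H) / (1 - (f0 + 1 / 200) / (1 - e)) ∧
    ‖(c0 * V2 r δ y 0 + ∑ j ∈ J, c j * V2 r δ y (ζ j)) /
        (c0 * V0 r δ y 0 + ∑ j ∈ J, c j * V0 r δ y (ζ j)) -
      ((c0 * V1 r δ y 0 + ∑ j ∈ J, c j * V1 r δ y (ζ j)) /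
        (c0 * V0 r δ y 0 + ∑ j ∈ J, c j * V0 r δ y (ζ j))) ^ 2‖ ≤
      (v + (f2 + 1 / 200) / (1 - e) * H ^ 2) / (1 - (f0 + 1 / 200) / (1 - e)) +
        ((k + (f1 + 1 / 200) / (1 - e) * H) / (1 - (f0 + 1 / 200) / (1 - e))) ^ 2 := by
  set κ := kap r δ y with hκ
  set M := sM r δ y with hMdef
  have h1e : 0 < 1 - e := by linarith
  have hp : (1 - e) * M * g0 ≤ ‖c0 * V0 r δ y 0‖ := by
    rw [norm_mul, hc0]
    have := own.o0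
    nlinarith
  have hpos : 0 < ‖c0 * V0 r δ y 0‖ := lt_of_lt_of_le (by positivity) hp
  have hpne : c0 * V0 r δ y 0 ≠ 0 := norm_pos_iff.1 hpos
  have key : ∀ F : ℝ, 0 ≤ F → F * M * g0 ≤ F / (1 - e) * ‖c0 * V0 r δ y 0‖ := by
    intro F hF
    have : F / (1 - e) * ((1 - e) * M * g0) = F * M * g0 := by field_simp
    rw [← this]
    exact mul_le_mul_of_nonneg_left hp (by positivity)
  have wsum : ∀ (a : ℤ → ℂ), ‖∑ j ∈ J, c j * a j‖ ≤ g0 * ∑ j ∈ J, ‖a j‖ := by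
    intro a
    refine (norm_sum_le _ _).trans ?_
    rw [Finset.mul_sum]
    refine Finset.sum_le_sum fun j hj => ?_
    rw [norm_mul, hc j hj]
  have b0 : ‖∑ j ∈ J, c j * V0 r δ y (ζ j)‖ ≤ (f0 + 1 / 200) / (1 - e) * ‖c0 * V0 r δ y 0‖ := by
    refine (wsum _).trans ?_
    have hs : ∑ j ∈ J, ‖V0 r δ y (ζ j)‖ ≤ f0 * M + (M / 100) / 2 :=
      farsum hinj hi (by positivity) (by positivity) (fun j hj hj1 => (h1 j hj hj1).s0)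
        (fun j hj hj2 => ((h2 j hj hj2).s0).trans (le_of_eq (by ring)))
    have := key (f0 + 1 / 200) (by positivity)
    calc g0 * ∑ j ∈ J, ‖V0 r δ y (ζ j)‖ ≤ g0 * (f0 * M + (M / 100) / 2) := by gcongr
      _ = (f0 + 1 / 200) * M * g0 := by ring
      _ ≤ _ := this
  have b1 : ‖∑ j ∈ J, c j * V1 r δ y (ζ j) - κ * ∑ j ∈ J, c j * V0 r δ y (ζ j)‖ ≤
      (f1 + 1 / 200) / (1 - e) * H * ‖c0 * V0 r δ y 0‖ := by
    have e1 : ∑ j ∈ J, c j * V1 r δ y (ζ j) - κ * ∑ j ∈ J, c j * V0 r δ y (ζ j) =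
        ∑ j ∈ J, c j * (V1 r δ y (ζ j) - κ * V0 r δ y (ζ j)) := by
      rw [Finset.mul_sum, ← Finset.sum_sub_distrib]
      refine Finset.sum_congr rfl fun j _ => ?_
      ring
    rw [e1]
    refine (wsum _).trans ?_
    have hs : ∑ j ∈ J, ‖V1 r δ y (ζ j) - κ * V0 r δ y (ζ j)‖ ≤ f1 * H * M + (H * M / 100) / 2 :=
      farsum hinj hi (by positivity) (by positivity) (fun j hj hj1 => (h1 j hj hj1).s1)
        (fun j hj hj2 => ((h2 j hj hj2).s1).trans (le_of_eq (by ring)))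
    have := key (f1 + 1 / 200) (by positivity)
    calc g0 * ∑ j ∈ J, ‖V1 r δ y (ζ j) - κ * V0 r δ y (ζ j)‖ ≤
          g0 * (f1 * H * M + (H * M / 100) / 2) := by gcongr
      _ = H * ((f1 + 1 / 200) * M * g0) := by ring
      _ ≤ H * ((f1 + 1 / 200) / (1 - e) * ‖c0 * V0 r δ y 0‖) := by gcongr
      _ = _ := by ring
  have b2 : ‖∑ j ∈ J, c j * V2 r δ y (ζ j) - 2 * κ * ∑ j ∈ J, c j * V1 r δ y (ζ j) +
      κ ^ 2 * ∑ j ∈ J, c j * V0 r δ y (ζ j)‖ ≤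
      (f2 + 1 / 200) / (1 - e) * H ^ 2 * ‖c0 * V0 r δ y 0‖ := by
    have e1 : ∑ j ∈ J, c j * V2 r δ y (ζ j) - 2 * κ * ∑ j ∈ J, c j * V1 r δ y (ζ j) +
        κ ^ 2 * ∑ j ∈ J, c j * V0 r δ y (ζ j) =
        ∑ j ∈ J, c j * (V2 r δ y (ζ j) - 2 * κ * V1 r δ y (ζ j) + κ ^ 2 * V0 r δ y (ζ j)) := by
      rw [Finset.mul_sum, Finset.mul_sum, ← Finset.sum_sub_distrib, ← Finset.sum_add_distrib]
      refine Finset.sum_congr rfl fun j _ => ?_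
      ring
    rw [e1]
    refine (wsum _).trans ?_
    have hs : ∑ j ∈ J, ‖V2 r δ y (ζ j) - 2 * κ * V1 r δ y (ζ j) + κ ^ 2 * V0 r δ y (ζ j)‖ ≤
        f2 * H ^ 2 * M + (H ^ 2 * M / 100) / 2 :=
      farsum hinj hi (by positivity) (by positivity) (fun j hj hj1 => (h1 j hj hj1).s2)
        (fun j hj hj2 => ((h2 j hj hj2).s2).trans (le_of_eq (by ring)))
    have := key (f2 + 1 / 200) (by positivity)
    calc g0 * ∑ j ∈ J, ‖V2 r δ y (ζ j) - 2 * κ * V1 r δ y (ζ j) + κ ^ 2 * V0 r δ y (ζ j)‖ ≤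
          g0 * (f2 * H ^ 2 * M + (H ^ 2 * M / 100) / 2) := by gcongr
      _ = H ^ 2 * ((f2 + 1 / 200) * M * g0) := by ring
      _ ≤ H ^ 2 * ((f2 + 1 / 200) / (1 - e) * ‖c0 * V0 r δ y 0‖) := by gcongr
      _ = _ := by ring
  refine piece_base hpne hlt ?_ ?_ b0 b1 b2
  · have e1 : c0 * V1 r δ y 0 - κ * (c0 * V0 r δ y 0) = c0 * (V1 r δ y 0 - κ * V0 r δ y 0) := by ring
    rw [e1, norm_mul, norm_mul]
    calc ‖c0‖ * ‖V1 r δ y 0 - κ * V0 r δ y 0‖ ≤ ‖c0‖ * (k * ‖V0 r δ y 0‖) := by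
          gcongr; exact own.o1
      _ = _ := by ring
  · have e1 : c0 * V2 r δ y 0 - 2 * κ * (c0 * V1 r δ y 0) + κ ^ 2 * (c0 * V0 r δ y 0) =
        c0 * (V2 r δ y 0 - 2 * κ * V1 r δ y 0 + κ ^ 2 * V0 r δ y 0) := by ring
    rw [e1, norm_mul, norm_mul]
    calc ‖c0‖ * ‖V2 r δ y 0 - 2 * κ * V1 r δ y 0 + κ ^ 2 * V0 r δ y 0‖ ≤
          ‖c0‖ * (v * ‖V0 r δ y 0‖) := by
          gcongr; exact own.o2
      _ = _ := by ring

/-- the inner side in the localisation -/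
theorem side_inner {r δ y e k v H f0 f1 f2 m : ℝ} (own : Own r δ y e k v) (he : e ≤ 1)
    (hM : 0 < sM r δ y) (hH : 0 ≤ H) (hf0 : 0 ≤ f0) (hf1 : 0 ≤ f1)
    (hk : k ≤ ‖kap r δ y + m‖)
    {J : Finset ℤ} {i : ℤ → ℕ} {ζ : ℤ → ℝ}
    (hinj : Set.InjOn i (J : Set ℤ)) (hi : ∀ j ∈ J, 1 ≤ i j)
    (h1 : ∀ j ∈ J, i j = 1 → Shf r δ y (ζ j) H f0 f1 f2)
    (h2 : ∀ j ∈ J, 2 ≤ i j →
      Shf r δ y (ζ j) H ((1 / 2) ^ (i j) / 100) ((1 / 2) ^ (i j) / 100) ((1 / 2) ^ (i j) / 100)) :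
    ((‖kap r δ y + m‖ - k) * (1 - e) - (f1 * H + ‖kap r δ y + m‖ * f0) -
        (H + ‖kap r δ y + m‖) / 200) * sM r δ y ≤
      ‖V1 r δ y 0 + m * V0 r δ y 0‖ - ∑ j ∈ J, ‖V1 r δ y (ζ j) + m * V0 r δ y (ζ j)‖ := by
  have hs : ∑ j ∈ J, ‖V1 r δ y (ζ j) + m * V0 r δ y (ζ j)‖ ≤
      (f1 * H + ‖kap r δ y + m‖ * f0) * sM r δ y +
        ((H + ‖kap r δ y + m‖) * sM r δ y / 100) / 2 :=
    farsum hinj hi (by positivity) (by positivity) (fun j hj hj1 => shf_m (h1 j hj hj1))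
      (fun j hj hj2 => (shf_m (h2 j hj hj2)).trans (le_of_eq (by ring)))
  have ho := own_m own hk
  linarith

/-- the outer side in the localisation -/
theorem side_outer {r δ y H C m : ℝ} (hM : 0 < sM r δ y) (hH : 0 ≤ H) (hm : 0 ≤ m)
    {J : Finset ℤ} {i : ℤ → ℕ} {ζ : ℤ → ℝ} {ζ0 : ℝ}
    (hinj : Set.InjOn i (J : Set ℤ)) (hi : ∀ j ∈ J, 1 ≤ i j)
    (h0 : Out r δ y ζ0 C)
    (h1 : ∀ j ∈ J, Shf r δ y (ζ j) H ((1 / 2) ^ (i j) * (3 / 100)) ((1 / 2) ^ (i j) * (3 / 50)) 1) :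
    ‖V1 r δ y ζ0 + m * V0 r δ y ζ0‖ + ∑ j ∈ J, ‖V1 r δ y (ζ j) + m * V0 r δ y (ζ j)‖ ≤
      (C * (‖kap r δ y‖ + m) + (6 * H + 3 * (‖kap r δ y‖ + m)) / 100) * sM r δ y := by
  have hn : ‖kap r δ y + m‖ ≤ ‖kap r δ y‖ + m := by
    refine (norm_add_le _ _).trans ?_
    rw [Complex.norm_real, Real.norm_of_nonneg hm]
  have hg : 0 ≤ (6 * H + 3 * (‖kap r δ y‖ + m)) * sM r δ y := by positivity
  have hb : ∀ j ∈ J, ‖V1 r δ y (ζ j) + m * V0 r δ y (ζ j)‖ ≤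
      (1 / 2) ^ (i j) * ((6 * H + 3 * (‖kap r δ y‖ + m)) * sM r δ y / 100) := by
    intro j hj
    refine (shf_m (h1 j hj)).trans ?_
    have : ((1 / 2) ^ (i j) * (3 / 50) * H + ‖kap r δ y + m‖ * ((1 / 2) ^ (i j) * (3 / 100))) *
        sM r δ y = (1 / 2) ^ (i j) * ((6 * H + 3 * ‖kap r δ y + m‖) * sM r δ y / 100) := by ring
    rw [this]
    gcongr
  have hs : ∑ j ∈ J, ‖V1 r δ y (ζ j) + m * V0 r δ y (ζ j)‖ ≤
      (6 * H + 3 * (‖kap r δ y‖ + m)) * sM r δ y / 200 +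
        ((6 * H + 3 * (‖kap r δ y‖ + m)) * sM r δ y / 100) / 2 :=
    farsum hinj hi (by positivity) (by positivity)
      (fun j hj hj1 => by
        have h3 := hb j hj
        rw [hj1] at h3
        linarith)
      (fun j hj _ => hb j hj)
  have h3 := h0 m hm
  linarith

/-- The localisation: real part. `u = |κ_a + m|`, `S_a = |κ_a| + m`, `S_b = |κ_b| + m`. -/
theorem loc_real {u Sa Sb H k e f0 f1 C Ma Mb g kk hb hc q α β' : ℝ}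
    (hMa : 0 < Ma) (hMb : 0 < Mb) (hSb : 0 < Sb) (hu0 : 0 < u) (he : e ≤ 1) (hf1 : 0 ≤ f1)
    (hg : 0 < g) (hq0 : 0 < q)
    (hkk : k ≤ kk * H) (hkk0 : 0 ≤ kk) (hHu : H ≤ hb * u) (hHS : H ≤ hc * Sb)
    (hq : q * Sa ≤ u) (hgap : g * (Sb * Mb) ≤ Sa * Ma)
    (hα : α ≤ (1 - kk * hb) * (1 - e) - f1 * hb - f0 - (hb + 1) / 200) (hα0 : 0 < α)
    (hβ : C + (6 * hc + 3) / 100 ≤ β') (hnum : β' < q * α * g)
    (h : ((u - k) * (1 - e) - (f1 * H + u * f0) - (H + u) / 200) * Ma ≤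
      (C * Sb + (6 * H + 3 * Sb) / 100) * Mb) : False := by
  have h1e : 0 ≤ 1 - e := by linarith
  have hkH : k ≤ kk * (hb * u) := hkk.trans (mul_le_mul_of_nonneg_left hHu hkk0)
  have hL : α * u ≤ (u - k) * (1 - e) - (f1 * H + u * f0) - (H + u) / 200 := by
    have a1 : (u - kk * (hb * u)) * (1 - e) ≤ (u - k) * (1 - e) :=
      mul_le_mul_of_nonneg_right (by linarith) h1e
    have a2 : f1 * H ≤ f1 * (hb * u) := mul_le_mul_of_nonneg_left hHu hf1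
    have a3 : α * u ≤ ((1 - kk * hb) * (1 - e) - f1 * hb - f0 - (hb + 1) / 200) * u :=
      mul_le_mul_of_nonneg_right hα hu0.le
    nlinarith
  have hR : C * Sb + (6 * H + 3 * Sb) / 100 ≤ β' * Sb := by
    have : (C + (6 * hc + 3) / 100) * Sb ≤ β' * Sb := mul_le_mul_of_nonneg_right hβ hSb.le
    linarith
  have h2 : α * u * Ma ≤ β' * Sb * Mb :=
    (mul_le_mul_of_nonneg_right hL hMa.le).trans (h.trans (mul_le_mul_of_nonneg_right hR hMb.le))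
  have h3 : α * (q * Sa) * Ma ≤ α * u * Ma := by gcongr
  have h4 : q * α * (g * (Sb * Mb)) ≤ q * α * (Sa * Ma) :=
    mul_le_mul_of_nonneg_left hgap (by positivity)
  have h5 : 0 < Sb * Mb := by positivity
  have h6 : q * α * g * (Sb * Mb) ≤ β' * (Sb * Mb) := by linarith
  exact absurd (le_of_mul_le_mul_right h6 h5) (not_le.2 hnum)

end SokalV3
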