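import Pool.Agent.Lib_MP_af4de1_v3.Asm1

/-!
# Assembly: indices, and the numbers of one side
-/

set_option autoImplicit false

namespace SokalV3

open Complex SokalU SokalF1 SokalF1S SokalF1M

/-- far classes of the left side -/
noncomputable def Jp (N : ℕ) (x : ℝ) : Finset ℤ :=
  (Finset.Ico (1 : ℤ) ((N : ℤ) - 1)).filter fun j => (x + j) * hst N ≤ Real.pi

/-- far classes of the right side -/
noncomputable def Jm (N : ℕ) (x : ℝ) : Finset ℤ :=
  (Finset.Ico (1 : ℤ) ((N : ℤ) - 1)).filter fun j => ¬ (x + j) * hst N ≤ Real.pi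

/-- index of a far class, left -/
def ip (j : ℤ) : ℕ := j.toNat
/-- index of a far class, right -/
def im (N : ℕ) (j : ℤ) : ℕ := ((N : ℤ) - 1 - j).toNat

theorem split_sum {M : Type*} [AddCommMonoid M] {N : ℕ} (hN : 2 ≤ N) (x : ℝ) (f : ℤ → M) :
    ∑ j ∈ Finset.Ico (-1 : ℤ) (-1 + N), f j =
      (f 0 + ∑ j ∈ Jp N x, f j) + (f (-1) + ∑ j ∈ Jm N x, f j) := by
  have e : Finset.Ico (-1 : ℤ) (-1 + N) =
      insert (-1) (insert 0 (Finset.Ico (1 : ℤ) ((N : ℤ) - 1))) := by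
    ext j
    simp only [Finset.mem_Ico, Finset.mem_insert]
    omega
  rw [e, Finset.sum_insert (by simp), Finset.sum_insert (by simp)]
  unfold Jp Jm
  rw [← Finset.sum_filter_add_sum_filter_not (Finset.Ico (1 : ℤ) ((N : ℤ) - 1))
    (fun j => (x + j) * hst N ≤ Real.pi)]
  abel

theorem ip_inj {N : ℕ} {x : ℝ} : Set.InjOn ip (Jp N x : Set ℤ) := by
  intro a ha b hb h
  simp only [Jp, Finset.coe_filter, Finset.mem_Ico, Set.mem_ofPred_eq] at ha hb
  unfold ip at h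
  omega

theorem im_inj {N : ℕ} {x : ℝ} : Set.InjOn (im N) (Jm N x : Set ℤ) := by
  intro a ha b hb h
  simp only [Jm, Finset.coe_filter, Finset.mem_Ico, Set.mem_ofPred_eq] at ha hb
  unfold im at h
  omega

theorem ip_one {N : ℕ} {x : ℝ} : ∀ j ∈ Jp N x, 1 ≤ ip j := by
  intro j hj
  simp only [Jp, Finset.mem_filter, Finset.mem_Ico] at hj
  unfold ip
  omega

theorem im_one {N : ℕ} {x : ℝ} : ∀ j ∈ Jm N x, 1 ≤ im N j := by
  intro j hj
  simp only [Jm, Finset.mem_filter, Finset.mem_Ico] at hj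
  unfold im
  omega

theorem ip_cast {N : ℕ} {x : ℝ} {j : ℤ} (hj : j ∈ Jp N x) : ((ip j : ℕ) : ℝ) = j := by
  simp only [Jp, Finset.mem_filter, Finset.mem_Ico] at hj
  have : ((ip j : ℕ) : ℤ) = j := by
    unfold ip
    exact Int.toNat_of_nonneg (by omega)
  exact_mod_cast this

theorem im_cast {N : ℕ} {x : ℝ} {j : ℤ} (hj : j ∈ Jm N x) : ((im N j : ℕ) : ℝ) = N - 1 - j := by
  simp only [Jm, Finset.mem_filter, Finset.mem_Ico] at hj
  have : ((im N j : ℕ) : ℤ) = (N : ℤ) - 1 - j := by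
    unfold im
    exact Int.toNat_of_nonneg (by omega)
  exact_mod_cast this

theorem jp_le {N : ℕ} {x : ℝ} {j : ℤ} (hj : j ∈ Jp N x) : (x + j) * hst N ≤ Real.pi := by
  simp only [Jp, Finset.mem_filter] at hj
  exact hj.2

theorem jm_lt {N : ℕ} {x : ℝ} {j : ℤ} (hj : j ∈ Jm N x) : Real.pi < (x + j) * hst N := by
  simp only [Jm, Finset.mem_filter] at hj
  exact not_le.1 hj.2

/-- the waves of the left side, seen from a saddle at `η` -/
theorem wl (N : ℕ) {r δ x y η : ℝ} (h : At r δ y η) (j : ℤ) :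
    wj N r δ x j = wp r δ (sE (r * δ) y + ((x + j) * hst N - η)) := by
  unfold wj
  rw [h.eta]
  congr 1
  ring

/-- the waves of the right side, seen from a saddle at `η` -/
theorem wr (N : ℕ) {r δ x y η : ℝ} (h : At r δ y η) (j : ℤ) :
    wj N r δ x j = wp r δ (sE (r * δ) y + ((x + j) * hst N - 2 * Real.pi - η)) := by
  unfold wj
  rw [h.eta, ← wp_period']
  congr 1
  ring

/-- Numbers of one side. -/
theorem side_num {k v H n D G0 G1 G2 K A V E z C dd Hm hb : ℝ} (hH : Hm ≤ H) (hHm : 0 < Hm)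
    (hn : 0 < n) (hD : dd ≤ D) (hdd : 0 < dd) (hk : k ≤ K * H) (hv : v ≤ A * (n / D) + V * H ^ 2)
    (hA : 0 ≤ A) (hHn : H ≤ hb * n) (hG0 : G0 < 1) (hE : (K + G1) / (1 - G0) ≤ E)
    (hk0 : 0 ≤ k + G1 * H) (hV : 0 ≤ V + G2) (hE0 : 0 ≤ E)
    (hz : E * hb ≤ z) (hz1 : z < 1)
    (hC : A / ((1 - G0) * dd * Hm) + ((V + G2) / (1 - G0) + E ^ 2) * hb ≤ C * (1 - z)) :
    (k + G1 * H) / (1 - G0) ≤ E * H ∧ E * H ≤ z * n ∧
      (v + G2 * H ^ 2) / (1 - G0) + ((k + G1 * H) / (1 - G0)) ^ 2 ≤ C * H * ((1 - z) * n) := by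
  have hH0 : 0 < H := lt_of_lt_of_le hHm hH
  have h1 : 0 < 1 - G0 := by linarith
  have a1 : (k + G1 * H) / (1 - G0) ≤ E * H := by
    have : (k + G1 * H) / (1 - G0) ≤ (K + G1) / (1 - G0) * H := by
      rw [div_mul_eq_mul_div]
      gcongr
      linarith
    exact this.trans (mul_le_mul_of_nonneg_right hE hH0.le)
  have a2 : E * H ≤ z * n := by
    have : E * H ≤ E * (hb * n) := mul_le_mul_of_nonneg_left hHn hE0
    have h3 : E * hb * n ≤ z * n := mul_le_mul_of_nonneg_right hz hn.le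
    linarith
  refine ⟨a1, a2, ?_⟩
  have a0 : 0 ≤ (k + G1 * H) / (1 - G0) := by positivity
  have b1 : ((k + G1 * H) / (1 - G0)) ^ 2 ≤ E ^ 2 * H ^ 2 := by
    rw [← mul_pow]
    exact pow_le_pow_left₀ a0 a1 2
  have b2 : (v + G2 * H ^ 2) / (1 - G0) ≤ A / ((1 - G0) * dd * Hm) * H * n +
      (V + G2) / (1 - G0) * H ^ 2 := by
    have c1 : A * (n / D) ≤ A * (n / dd) := by gcongr
    have c2 : A * (n / dd) ≤ A * (n / dd) * (H / Hm) := by
      have : 1 ≤ H / Hm := by rwa [one_le_div hHm]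
      exact le_mul_of_one_le_right (by positivity) this
    have c3 : v + G2 * H ^ 2 ≤ A * (n / dd) * (H / Hm) + (V + G2) * H ^ 2 := by linarith
    have c4 : (v + G2 * H ^ 2) / (1 - G0) ≤
        (A * (n / dd) * (H / Hm) + (V + G2) * H ^ 2) / (1 - G0) := by gcongr
    refine c4.trans (le_of_eq ?_)
    field_simp
  have hW : 0 ≤ (V + G2) / (1 - G0) + E ^ 2 := by positivity
  have b3 : ((V + G2) / (1 - G0) + E ^ 2) * H ^ 2 ≤ ((V + G2) / (1 - G0) + E ^ 2) * hb * H * n := by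
    have : H ^ 2 ≤ H * (hb * n) := by rw [sq]; exact mul_le_mul_of_nonneg_left hHn hH0.le
    calc ((V + G2) / (1 - G0) + E ^ 2) * H ^ 2 ≤
          ((V + G2) / (1 - G0) + E ^ 2) * (H * (hb * n)) := mul_le_mul_of_nonneg_left this hW
      _ = _ := by ring
  have b4 : (A / ((1 - G0) * dd * Hm) + ((V + G2) / (1 - G0) + E ^ 2) * hb) * (H * n) ≤
      C * (1 - z) * (H * n) := mul_le_mul_of_nonneg_right hC (by positivity)
  calc _ ≤ A / ((1 - G0) * dd * Hm) * H * n + (V + G2) / (1 - G0) * H ^ 2 + E ^ 2 * H ^ 2 :=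
        add_le_add b2 b1
    _ = A / ((1 - G0) * dd * Hm) * H * n + ((V + G2) / (1 - G0) + E ^ 2) * H ^ 2 := by ring
    _ ≤ A / ((1 - G0) * dd * Hm) * H * n + ((V + G2) / (1 - G0) + E ^ 2) * hb * H * n :=
        add_le_add le_rfl b3
    _ = (A / ((1 - G0) * dd * Hm) + ((V + G2) / (1 - G0) + E ^ 2) * hb) * (H * n) := by ring
    _ ≤ C * (1 - z) * (H * n) := b4
    _ = _ := by ring

/-- `H² = Γ r` -/
theorem HH_sq {N : ℕ} {r δ : ℝ} (hr : 0 ≤ r) : HH N r δ ^ 2 = Gm N r δ * r := by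
  unfold HH Gm RR
  have h1 : 0 < 1 + (r * δ) ^ 2 := by positivity
  rw [div_pow, Real.sq_sqrt h1.le]
  field_simp

theorem HH_pos {N : ℕ} {r δ : ℝ} (hN : N ≠ 0) (hr : 0 < r) : 0 < HH N r δ := by
  unfold HH RR
  have := hst_pos hN
  positivity

/-- Regime I, `Γ < 10`. -/
theorem HH_A {N : ℕ} {r δ : ℝ} (h : Par N r δ) (hG : Gm N r δ < 10) :
    1641 / 100 ≤ HH N r δ ∧ HH N r δ ≤ 448 / 1000 * r := by
  have hr := h.r0
  have hG' := h.G
  have hp := HH_pos (N := N) (δ := δ) (by have := h.N2; omega) (by linarith : 0 < r)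
  have hsq := HH_sq (N := N) (r := r) (δ := δ) (by linarith)
  constructor
  · refine abs_le_of_sq_le_sq' ?_ hp.le |>.2
    rw [hsq]
    nlinarith
  · refine abs_le_of_sq_le_sq' ?_ (by positivity) |>.2
    rw [hsq]
    nlinarith

/-- Regime I, `Γ ≥ 10`. -/
theorem HH_B {N : ℕ} {r δ : ℝ} (h : Reg1 N r δ) (hG : 10 ≤ Gm N r δ) :
    2233 / 100 ≤ HH N r δ ∧ HH N r δ ≤ 1049 / 1000 * r := by
  have hr := h.r0
  have hp := HH_pos (N := N) (δ := δ) (by have := h.N2; omega) (by linarith : 0 < r)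
  have hsq := HH_sq (N := N) (r := r) (δ := δ) (by linarith)
  constructor
  · refine abs_le_of_sq_le_sq' ?_ hp.le |>.2
    rw [hsq]
    nlinarith
  · refine abs_le_of_sq_le_sq' ?_ (by positivity) |>.2
    have hI := h.I
    have hR : 0 < RR r δ := by unfold RR; positivity
    have h2 : HH N r δ ^ 2 = r ^ 2 * (hst N ^ 2 / RR r δ) := by
      unfold HH
      rw [div_pow, Real.sq_sqrt hR.le]
      ring
    have h3 : hst N ^ 2 / RR r δ ≤ 11 / 10 := by rwa [div_le_iff₀ hR]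
    rw [h2]
    nlinarith [sq_nonneg r]

end SokalV3
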