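import Pool.Agent.Lib_MP_af4de1_v3.Asm2

/-!
# Assembly of regime I
-/

set_option autoImplicit false

namespace SokalV3

open Complex SokalU SokalF1 SokalF1S SokalF1M

/-- the pieces of regime I -/
structure P1 : Prop where
  S : PSad1
  PP : PPair1
  G : PGap1
  O : POwn1
  L : PShfLw
  R : PShfRw

theorem At.pos {r δ y η : ℝ} (h : At r δ y η) : 0 < r * δ := h.dom.1

/-- the sign of `y` is the sign of `η` -/
theorem At.y_nn {r δ y η : ℝ} (h : At r δ y η) (hη : 0 ≤ η) : 0 ≤ y := by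
  by_contra hy
  push Not at hy
  have h1 := sE_strictMonoOn h.dom (dom_zero h.pos) h.y1.le
  have h2 := h1 (Set.left_mem_Icc.2 hy.le) (Set.right_mem_Icc.2 hy.le) hy
  rw [h.eta, sE_zero h.pos] at h2
  linarith

theorem At.y_np {r δ y η : ℝ} (h : At r δ y η) (hη : η ≤ 0) : y ≤ 0 := by
  by_contra hy
  push Not at hy
  have h1 := sE_strictMonoOn (dom_zero h.pos) h.dom (by norm_num : (-1 : ℝ) ≤ 0)
  have h2 := h1 (Set.left_mem_Icc.2 hy.le) (Set.right_mem_Icc.2 hy.le) hy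
  rw [h.eta, sE_zero h.pos] at h2
  linarith

/-- what is used of a saddle near a tie or in the localisation -/
theorem sad_T {N : ℕ} {r δ y : ℝ} (h : Sad1 N r δ y) :
    |y| ≤ 4 / 5 * sx (r * δ) y := by
  rcases h with ⟨_, h⟩ | ⟨_, h⟩
  · refine h.T.trans ?_
    have := sx_nonneg (r * δ) y
    linarith
  · exact h.T

theorem kap_re_pos {N : ℕ} {r δ y : ℝ} (hδ : 0 < δ) (h : Sad1 N r δ y) : 0 ≤ (kap r δ y).re := by
  rw [kap_re]
  have := sx_nonneg (r * δ) y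
  positivity

/-- `(2q²-1)|κ| ≤ Re κ` from `|y| ≤ T x` -/
theorem kap_cos {r δ y T a : ℝ} (hδ : 0 < δ) (hT : |y| ≤ T * sx (r * δ) y) (ha : 0 ≤ a)
    (haT : a ^ 2 * (1 + T ^ 2) ≤ 1) : a * ‖kap r δ y‖ ≤ (kap r δ y).re := by
  have hx := sx_nonneg (r * δ) y
  have hre : 0 ≤ (kap r δ y).re := by rw [kap_re]; positivity
  refine abs_le_of_sq_le_sq' ?_ hre |>.2
  have h1 : |(kap r δ y).im| ≤ T * (kap r δ y).re := by
    rw [kap_im, kap_re, abs_div, abs_of_pos hδ, ← mul_div_assoc]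
    gcongr
  have h2 : (kap r δ y).im ^ 2 ≤ T ^ 2 * (kap r δ y).re ^ 2 := by
    rw [← sq_abs, ← mul_pow]
    exact pow_le_pow_left₀ (abs_nonneg _) h1 2
  rw [mul_pow, Complex.sq_norm, Complex.normSq_apply]
  have h3 : a ^ 2 * ((kap r δ y).re * (kap r δ y).re + (kap r δ y).im * (kap r δ y).im) ≤
      a ^ 2 * (1 + T ^ 2) * (kap r δ y).re ^ 2 := by
    have : 0 ≤ a ^ 2 := sq_nonneg a
    nlinarith
  have h4 : a ^ 2 * (1 + T ^ 2) * (kap r δ y).re ^ 2 ≤ 1 * (kap r δ y).re ^ 2 := by gcongr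
  linarith

theorem sM_pos' {r δ y η : ℝ} (h : At r δ y η) : 0 < sM r δ y := sM_pos h.y1

theorem sx_pos' {r δ y T : ℝ} (hpos : 0 < r * δ) (hT : |y| ≤ T * sx (r * δ) y) (hdom : Dom (r * δ) y) :
    0 < sx (r * δ) y := by
  rcases (sx_nonneg (r * δ) y).lt_or_eq with h | h
  · exact h
  · exfalso
    rw [← h, mul_zero] at hT
    have hy : y = 0 := abs_eq_zero.1 (le_antisymm hT (abs_nonneg _))
    rw [hy] at h
    have h2 := sx_sq_add (dom_zero hpos)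
    rw [← h] at h2
    rw [neg_zero, Real.exp_zero, mul_one] at h2
    have h3 := pow_pos hpos 2
    linarith

/-- The conclusion, from the two sides. -/
theorem fin_near {N : ℕ} {r δ y0 y1 η m T : ℝ} {R DR D2R L DL D2L : ℂ}
    {e0 e1 l0 l1 E0 E1 z0 z1 C0 C1 dq t0 t1 χ tχ s : ℝ}
    (hδ : 0 < δ) (hH : 0 < HH N r δ) (hm : 0 < m)
    (h0 : At r δ y0 η) (h1 : At r δ y1 (η - hst N)) (hy0 : 0 ≤ y0) (hy1 : y1 ≤ 0)
    (hT0 : |y0| ≤ T * sx (r * δ) y0) (hT1 : |y1| ≤ T * sx (r * δ) y1) (hT : 0 ≤ T)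
    (hΔ : 22 / 25 * HH N r δ ≤ ‖kap r δ y0 - kap r δ y1‖)
    (hR : R ≠ 0) (hL : L ≠ 0) (h : (DR + DL) + m * (R + L) = 0)
    (he0 : ‖DR / R - kap r δ y0‖ ≤ e0) (he1 : ‖DL / L - kap r δ y1‖ ≤ e1)
    (hl0 : ‖D2R / R - (DR / R) ^ 2‖ ≤ l0) (hl1 : ‖D2L / L - (DL / L) ^ 2‖ ≤ l1)
    (a0 : e0 ≤ E0 * HH N r δ) (b0 : E0 * HH N r δ ≤ z0 * ‖kap r δ y0‖)
    (c0 : l0 ≤ C0 * HH N r δ * ((1 - z0) * ‖kap r δ y0‖))
    (a1 : e1 ≤ E1 * HH N r δ) (b1 : E1 * HH N r δ ≤ z1 * ‖kap r δ y1‖)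
    (c1 : l1 ≤ C1 * HH N r δ * ((1 - z1) * ‖kap r δ y1‖))
    (hz0 : z0 < 1) (hz1 : z1 < 1) (hd : 0 < dq) (hdq : E0 + E1 + dq ≤ 22 / 25)
    (hχ : C0 + C1 ≤ χ * dq) (hχ1 : χ < 1)
    (ht0 : 0 ≤ t0) (ht1 : 0 ≤ t1) (htχ : 0 ≤ tχ)
    (q0 : z0 ^ 2 ≤ t0 ^ 2 * (1 - z0 ^ 2)) (q1 : z1 ^ 2 ≤ t1 ^ 2 * (1 - z1 ^ 2))
    (qχ : χ ^ 2 ≤ tχ ^ 2 * (1 - χ ^ 2))
    (h01 : t0 * t1 < 1) (hs : (t0 + t1) / (1 - t0 * t1) ≤ s) (hsT : s * T < 1)
    (hfin : (s + T) / (1 - s * T) * tχ < 1) :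
    0 < ((D2R + D2L) / (DR + DL) - (DR + DL) / (R + L)).re := by
  have hx0 := sx_pos' h0.pos hT0 h0.dom
  have hx1 := sx_pos' h1.pos hT1 h1.dom
  have k0 : 0 < (kap r δ y0).re := by rw [kap_re]; positivity
  have k1 : 0 < (kap r δ y1).re := by rw [kap_re]; positivity
  have n0 : 0 < ‖kap r δ y0‖ := norm_pos_iff.2 (fun h' => by rw [h'] at k0; simp at k0)
  have n1 : 0 < ‖kap r δ y1‖ := norm_pos_iff.2 (fun h' => by rw [h'] at k1; simp at k1)
  have hA : Cone T ((kap r δ y0 + m) * (kap r δ y1 + m)) := by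
    refine cone_opp hT ?_ ?_ ?_ ?_ ?_ ?_
    · simp only [Complex.add_re, Complex.ofReal_re]; linarith
    · simp only [Complex.add_re, Complex.ofReal_re]; linarith
    · simp only [Complex.add_im, Complex.ofReal_im, add_zero, kap_im]; positivity
    · simp only [Complex.add_im, Complex.ofReal_im, add_zero, Complex.add_re, Complex.ofReal_re]
      have e1 : (kap r δ y0).im ≤ T * (kap r δ y0).re := by
        rw [kap_im, kap_re, ← mul_div_assoc]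
        gcongr
        exact (le_abs_self _).trans hT0
      have e2 := mul_nonneg hT hm.le
      rw [mul_add]
      linarith
    · simp only [Complex.add_im, Complex.ofReal_im, add_zero, kap_im]
      exact div_nonpos_of_nonpos_of_nonneg hy1 hδ.le
    · simp only [Complex.add_im, Complex.ofReal_im, add_zero, Complex.add_re, Complex.ofReal_re]
      have e1 : -(kap r δ y1).im ≤ T * (kap r δ y1).re := by
        rw [kap_im, kap_re, ← mul_div_assoc, ← neg_div]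
        gcongr
        exact (neg_le_abs _).trans hT1
      have e2 := mul_nonneg hT hm.le
      rw [mul_add]
      linarith
  refine U_core (e0 := E0 * HH N r δ) (e1 := E1 * HH N r δ)
    (l0 := C0 * HH N r δ * ((1 - z0) * ‖kap r δ y0‖)) (l1 := C1 * HH N r δ * ((1 - z1) * ‖kap r δ y1‖))
    (b0 := ‖kap r δ y0‖) (b1 := ‖kap r δ y1‖) (d := dq * HH N r δ) (Δ := 22 / 25 * HH N r δ)
    (c0 := C0 * HH N r δ) (c1 := C1 * HH N r δ) (z0 := z0) (z1 := z1)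
    hm hR hL h (he0.trans a0) (he1.trans a1) (hl0.trans c0) (hl1.trans c1)
    (norm_le_add hm.le k0.le) (norm_le_add hm.le k1.le) n0 n1 hΔ (by positivity) ?_ b0 b1 hz0 hz1
    le_rfl le_rfl ?_ hχ1 hT hA ht0 ht1 htχ q0 q1 qχ h01 hs hsT hfin
  · have := mul_le_mul_of_nonneg_right hdq hH.le
    linarith
  · have := mul_le_mul_of_nonneg_right hχ hH.le
    linarith

end SokalV3
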