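import Pool.Agent.Lib_MP_af4de1_v3.Asm3

/-!
# Assembly of regime I: `waveU_reg1`
-/

set_option autoImplicit false

namespace SokalV3

open Complex SokalU SokalF1 SokalF1S SokalF1M

theorem exp_lb {p q : ℕ} (hq : q ≠ 0) {c : ℝ} (h : c ^ q ≤ (2.7182818283 : ℝ) ^ p) :
    c ≤ Real.exp ((p : ℝ) / q) := by
  have hq' : (q : ℝ) ≠ 0 := by exact_mod_cast hq
  refine le_of_pow_le_pow_left₀ hq (Real.exp_pos _).le ?_
  have e1 : Real.exp ((p : ℝ) / q) ^ q = Real.exp 1 ^ p := by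
    rw [← Real.exp_nat_mul, ← Real.exp_nat_mul]
    congr 1
    field_simp
  rw [e1]
  refine h.trans (pow_le_pow_left₀ (by norm_num) ?_ p)
  have := Real.exp_one_gt_d9
  linarith

theorem exp_ub {p q : ℕ} (hq : q ≠ 0) {c : ℝ} (hc : 0 < c)
    (h : (2.7182818286 : ℝ) ^ p * c ^ q ≤ 1) :
    c ≤ Real.exp (-((p : ℝ) / q)) := by
  have hq' : (q : ℝ) ≠ 0 := by exact_mod_cast hq
  refine le_of_pow_le_pow_left₀ hq (Real.exp_pos _).le ?_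
  have e1 : Real.exp (-((p : ℝ) / q)) ^ q * Real.exp 1 ^ p = 1 := by
    rw [← Real.exp_nat_mul, ← Real.exp_nat_mul, ← Real.exp_add]
    rw [Real.exp_eq_one_iff]
    field_simp
    ring
  have e2 : Real.exp 1 ^ p ≤ (2.7182818286 : ℝ) ^ p :=
    pow_le_pow_left₀ (Real.exp_pos _).le (by have := Real.exp_one_lt_d9; linarith) p
  have e3 : 0 < Real.exp 1 ^ p := by positivity
  have e4 : Real.exp 1 ^ p * c ^ q ≤ 1 :=
    (mul_le_mul_of_nonneg_right e2 (by positivity)).trans h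
  have e5 : c ^ q * Real.exp 1 ^ p ≤ Real.exp (-((p : ℝ) / q)) ^ q * Real.exp 1 ^ p := by
    rw [e1]; linarith
  exact le_of_mul_le_mul_right e5 e3

theorem exp_gap : (2.33 : ℝ) ≤ Real.exp (17 / 20) := by
  have := exp_lb (p := 17) (q := 20) (by norm_num) (c := 2.33) (by norm_num)
  norm_num at this ⊢
  exact this

theorem exp_15 : (0.86 : ℝ) ≤ Real.exp (-(3 / 20)) := by
  have := exp_ub (p := 3) (q := 20) (by norm_num) (c := 0.86) (by norm_num) (by norm_num)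
  norm_num at this ⊢
  exact this

theorem exp_41 : (0.6636 : ℝ) ≤ Real.exp (-(41 / 100)) := by
  have := exp_ub (p := 41) (q := 100) (by norm_num) (c := 0.6636) (by norm_num) (by norm_num)
  norm_num at this ⊢
  exact this

theorem exp_56 : (0.5712 : ℝ) ≤ Real.exp (-(14 / 25)) := by
  have := exp_ub (p := 14) (q := 25) (by norm_num) (c := 0.5712) (by norm_num) (by norm_num)
  norm_num at this ⊢
  exact this

theorem Sad1.A {N : ℕ} {r δ y : ℝ} (h : Sad1 N r δ y) (hG : Gm N r δ < 10) : SadA N r δ y := by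
  rcases h with ⟨_, h⟩ | ⟨h, _⟩
  · exact h
  · linarith

theorem Sad1.B {N : ℕ} {r δ y : ℝ} (h : Sad1 N r δ y) (hG : 10 ≤ Gm N r δ) : SadB N r δ y := by
  rcases h with ⟨h, _⟩ | ⟨_, h⟩
  · linarith
  · exact h

/-- the waves, seen from a saddle `ya` (left) and a saddle `yb` (right) -/
theorem wave_split {N : ℕ} (hN : 2 ≤ N) {r δ ya yb ηa ηb : ℝ} (ha : At r δ ya ηa)
    (hb : At r δ yb ηb) (x : ℝ) (c : ℤ → ℂ) (F : ℂ → ℂ) :
    ∑ j ∈ Finset.Ico (-1 : ℤ) (-1 + N), c j * F (wj N r δ x j) =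
      (c 0 * F (wp r δ (sE (r * δ) ya + (x * hst N - ηa))) +
        ∑ j ∈ Jp N x, c j * F (wp r δ (sE (r * δ) ya + ((x + j) * hst N - ηa)))) +
      (c (-1) * F (wp r δ (sE (r * δ) yb + ((x - 1) * hst N - ηb))) +
        ∑ j ∈ Jm N x, c j * F (wp r δ (sE (r * δ) yb + ((x + j) * hst N - 2 * Real.pi - ηb)))) := by
  rw [split_sum hN x]
  congr 1
  · congr 1
    · rw [wl N ha 0]
      norm_num
    · refine Finset.sum_congr rfl fun j _ => ?_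
      rw [wl N ha j]
  · congr 1
    · rw [wl N hb (-1)]
      push_cast
      rw [← sub_eq_add_neg]
    · refine Finset.sum_congr rfl fun j _ => ?_
      rw [wr N hb j]

/-- From the zero, `a` inner, `b` outer. -/
theorem loc_core {r δ ya yb H e k v f0 f1 f2 C m g0 ζ0 : ℝ} {Ja Jb : Finset ℤ} {ia ib : ℤ → ℕ}
    {ζa ζb : ℤ → ℝ} {c : ℤ → ℂ} {ca cb : ℂ}
    (own : Own r δ ya e k v) (he : e ≤ 1) (hMa : 0 < sM r δ ya) (hMb : 0 < sM r δ yb) (hH : 0 ≤ H)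
    (hf0 : 0 ≤ f0) (hf1 : 0 ≤ f1) (hk : k ≤ ‖kap r δ ya + m‖) (hm : 0 ≤ m)
    (ja : Set.InjOn ia (Ja : Set ℤ)) (jb : Set.InjOn ib (Jb : Set ℤ))
    (oa : ∀ j ∈ Ja, 1 ≤ ia j) (ob : ∀ j ∈ Jb, 1 ≤ ib j)
    (h1 : ∀ j ∈ Ja, ia j = 1 → Shf r δ ya (ζa j) H f0 f1 f2)
    (h2 : ∀ j ∈ Ja, 2 ≤ ia j →
      Shf r δ ya (ζa j) H ((1 / 2) ^ (ia j) / 100) ((1 / 2) ^ (ia j) / 100) ((1 / 2) ^ (ia j) / 100))
    (h3 : Out r δ yb ζ0 C)
    (h4 : ∀ j ∈ Jb, Shf r δ yb (ζb j) H ((1 / 2) ^ (ib j) * (3 / 100)) ((1 / 2) ^ (ib j) * (3 / 50)) 1)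
    (hg0 : 0 < g0) (hc : ∀ j, ‖c j‖ = g0) (hca : ‖ca‖ = g0) (hcb : ‖cb‖ = g0)
    (hz : ((ca * V1 r δ ya 0 + ∑ j ∈ Ja, c j * V1 r δ ya (ζa j)) +
        (cb * V1 r δ yb ζ0 + ∑ j ∈ Jb, c j * V1 r δ yb (ζb j))) +
      m * ((ca * V0 r δ ya 0 + ∑ j ∈ Ja, c j * V0 r δ ya (ζa j)) +
        (cb * V0 r δ yb ζ0 + ∑ j ∈ Jb, c j * V0 r δ yb (ζb j))) = 0) :
    ((‖kap r δ ya + m‖ - k) * (1 - e) - (f1 * H + ‖kap r δ ya + m‖ * f0) -
        (H + ‖kap r δ ya + m‖) / 200) * sM r δ ya ≤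
      (C * (‖kap r δ yb‖ + m) + (6 * H + 3 * (‖kap r δ yb‖ + m)) / 100) * sM r δ yb := by
  refine (side_inner own he hMa hH hf0 hf1 hk ja oa h1 h2).trans
    (le_trans ?_ (side_outer hMb hH hm jb ob h3 h4))
  have e1 : ca * (V1 r δ ya 0 + m * V0 r δ ya 0) =
      -(∑ j ∈ Ja, c j * (V1 r δ ya (ζa j) + m * V0 r δ ya (ζa j)) +
        (cb * (V1 r δ yb ζ0 + m * V0 r δ yb ζ0) +
          ∑ j ∈ Jb, c j * (V1 r δ yb (ζb j) + m * V0 r δ yb (ζb j)))) := by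
    have a1 : ∀ (J : Finset ℤ) (y : ℝ) (ζ : ℤ → ℝ),
        ∑ j ∈ J, c j * (V1 r δ y (ζ j) + m * V0 r δ y (ζ j)) =
        ∑ j ∈ J, c j * V1 r δ y (ζ j) + m * ∑ j ∈ J, c j * V0 r δ y (ζ j) := by
      intro J y ζ
      rw [Finset.mul_sum, ← Finset.sum_add_distrib]
      refine Finset.sum_congr rfl fun j _ => ?_
      ring
    rw [a1, a1]
    linear_combination hz
  have wsum : ∀ (J : Finset ℤ) (a : ℤ → ℂ), ‖∑ j ∈ J, c j * a j‖ ≤ g0 * ∑ j ∈ J, ‖a j‖ := by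
    intro J a
    refine (norm_sum_le _ _).trans ?_
    rw [Finset.mul_sum]
    refine Finset.sum_le_sum fun j _ => ?_
    rw [norm_mul, hc j]
  have e2 : g0 * ‖V1 r δ ya 0 + m * V0 r δ ya 0‖ ≤
      g0 * ∑ j ∈ Ja, ‖V1 r δ ya (ζa j) + m * V0 r δ ya (ζa j)‖ +
      (g0 * ‖V1 r δ yb ζ0 + m * V0 r δ yb ζ0‖ +
        g0 * ∑ j ∈ Jb, ‖V1 r δ yb (ζb j) + m * V0 r δ yb (ζb j)‖) := by
    calc g0 * ‖V1 r δ ya 0 + m * V0 r δ ya 0‖ = ‖ca * (V1 r δ ya 0 + m * V0 r δ ya 0)‖ := by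
          rw [norm_mul, hca]
      _ = ‖∑ j ∈ Ja, c j * (V1 r δ ya (ζa j) + m * V0 r δ ya (ζa j)) +
        (cb * (V1 r δ yb ζ0 + m * V0 r δ yb ζ0) +
          ∑ j ∈ Jb, c j * (V1 r δ yb (ζb j) + m * V0 r δ yb (ζb j)))‖ := by rw [e1, norm_neg]
      _ ≤ _ := by
          refine (norm_add_le _ _).trans (add_le_add (wsum _ _) ((norm_add_le _ _).trans
            (add_le_add ?_ (wsum _ _))))
          rw [norm_mul, hcb]
  have e3 : g0 * (‖V1 r δ ya 0 + m * V0 r δ ya 0‖ -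
      ∑ j ∈ Ja, ‖V1 r δ ya (ζa j) + m * V0 r δ ya (ζa j)‖) ≤
      g0 * (‖V1 r δ yb ζ0 + m * V0 r δ yb ζ0‖ +
        ∑ j ∈ Jb, ‖V1 r δ yb (ζb j) + m * V0 r δ yb (ζb j)‖) := by linarith
  exact le_of_mul_le_mul_left e3 hg0

/-- the gap, with `m` -/
theorem gap_m {r δ ya yb m g : ℝ} (h : Gap r δ ya yb (17 / 20)) (hg : g ≤ Real.exp (17 / 20))
    (hm : 0 ≤ m) (hMb : 0 < sM r δ yb) :
    g * ((‖kap r δ yb‖ + m) * sM r δ yb) ≤ (‖kap r δ ya‖ + m) * sM r δ ya := by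
  have h0 := h.g0
  have h1 := h.g1
  have a : g * ((‖kap r δ yb‖ + m) * sM r δ yb) ≤
      Real.exp (17 / 20) * ((‖kap r δ yb‖ + m) * sM r δ yb) := by gcongr
  have b : m * (Real.exp (17 / 20) * sM r δ yb) ≤ m * sM r δ ya := by gcongr
  linarith

/-- `H` against `|κ|` -/
theorem H_kap {N : ℕ} {r δ y η a b c B : ℝ} (hr : 0 < r) (hδ : 0 < δ) (hat : At r δ y η)
    (hy : y ≤ b) (ha : HH N r δ ≤ a * r) (hc : c ≤ Real.exp (-b)) (ha0 : 0 ≤ a)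
    (hB : a ≤ B * c) (hB0 : 0 ≤ B) : HH N r δ ≤ B * ‖kap r δ y‖ := by
  rw [norm_kap hδ hat]
  have h1 : c ≤ Real.exp (-y) := hc.trans (Real.exp_le_exp.2 (by linarith))
  calc HH N r δ ≤ a * r := ha
    _ ≤ B * c * r := by gcongr
    _ ≤ B * Real.exp (-y) * r := by gcongr
    _ = _ := by ring

end SokalV3
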