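import Pool.Agent.Lib_MP_af4de1_v3.Asm4

/-!
# Assembly of regime I: localisation
-/

set_option autoImplicit false

namespace SokalV3

open Complex SokalU SokalF1 SokalF1S SokalF1M

theorem loc_fin {r δ ya yb ηa ηb H m k e f0 f1 C kk hb hc q T α β' : ℝ} (hr : 0 < r) (hδ : 0 < δ)
    (hm : 0 < m) (ha : At r δ ya ηa) (hb' : At r δ yb ηb) (hT : |ya| ≤ T * sx (r * δ) ya)
    (gap : Gap r δ ya yb (17 / 20)) (hH : 0 ≤ H) (hkk : k ≤ kk * H) (hkk0 : 0 ≤ kk)
    (hHu : H ≤ hb * ‖kap r δ ya‖) (hb0 : 0 ≤ hb) (hHS : H ≤ hc * ‖kap r δ yb‖) (hc0 : 0 ≤ hc)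
    (hkb : kk * hb ≤ 1) (hq0 : 0 < q) (hq1 : q ≤ 1) (h2q : 0 ≤ 2 * q ^ 2 - 1)
    (hqT : (2 * q ^ 2 - 1) ^ 2 * (1 + T ^ 2) ≤ 1) (he : e ≤ 1) (hf1 : 0 ≤ f1)
    (hα : α ≤ (1 - kk * hb) * (1 - e) - f1 * hb - f0 - (hb + 1) / 200) (hα0 : 0 < α)
    (hβ : C + (6 * hc + 3) / 100 ≤ β') (hnum : β' < q * α * 2.33)
    (h : k ≤ ‖kap r δ ya + m‖ →
      ((‖kap r δ ya + m‖ - k) * (1 - e) - (f1 * H + ‖kap r δ ya + m‖ * f0) -
        (H + ‖kap r δ ya + m‖) / 200) * sM r δ ya ≤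
      (C * (‖kap r δ yb‖ + m) + (6 * H + 3 * (‖kap r δ yb‖ + m)) / 100) * sM r δ yb) :
      False := by
  have hx := sx_nonneg (r * δ) ya
  have hre : 0 ≤ (kap r δ ya).re := by rw [kap_re]; positivity
  have hna : 0 < ‖kap r δ ya‖ := by rw [norm_kap hδ ha]; positivity
  have hnb : 0 < ‖kap r δ yb‖ := by rw [norm_kap hδ hb']; positivity
  have hu := norm_le_add hm.le hre
  have hu0 : 0 < ‖kap r δ ya + m‖ := lt_of_lt_of_le hna hu
  have hcos := kap_cos hδ hT h2q hqT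
  have hqS : q * (‖kap r δ ya‖ + m) ≤ ‖kap r δ ya + m‖ := norm_add_ge hm.le hq0.le hq1 hcos
  have hHu' : H ≤ hb * ‖kap r δ ya + m‖ := hHu.trans (mul_le_mul_of_nonneg_left hu hb0)
  have hHS' : H ≤ hc * (‖kap r δ yb‖ + m) :=
    hHS.trans (mul_le_mul_of_nonneg_left (by linarith) hc0)
  have hk : k ≤ ‖kap r δ ya + m‖ := by
    have h1 : kk * H ≤ kk * (hb * ‖kap r δ ya + m‖) := mul_le_mul_of_nonneg_left hHu' hkk0
    have h2 : kk * hb * ‖kap r δ ya + m‖ ≤ 1 * ‖kap r δ ya + m‖ :=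
      mul_le_mul_of_nonneg_right hkb hu0.le
    linarith
  exact loc_real (Sa := ‖kap r δ ya‖ + m) (sM_pos ha.y1) (sM_pos hb'.y1) (by linarith) hu0 he hf1
    (by norm_num : (0 : ℝ) < 2.33) hq0 hkk hkk0 hHu' hHS' hqS
    (gap_m gap exp_gap hm.le (sM_pos hb'.y1)) hα hα0 hβ hnum (h hk)

theorem om1_pos {N : ℕ} {r δ : ℝ} : 0 < om1 N r δ := by
  unfold om1; split_ifs <;> norm_num

theorem om1_le {N : ℕ} {r δ : ℝ} : om1 N r δ ≤ 1 / 4 := by
  unfold om1; split_ifs <;> norm_num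

theorem eo_ei (N : ℕ) (r δ : ℝ) : eo1 N r δ = hst N - ei1 N r δ := by
  unfold eo1 ei1; ring

theorem hst_le {N : ℕ} (hN : 3 ≤ N) : hst N ≤ 2 * Real.pi / 3 := by
  have h1 := two_pi_hst (N := N) (by omega)
  have h2 := hst_pos (N := N) (by omega)
  have h3 : (3 : ℝ) ≤ N := by exact_mod_cast hN
  nlinarith

variable {N : ℕ} {r δ x g0 m : ℝ} {c : ℤ → ℂ}

/-- `x h < ei1` : no zero -/
theorem loc_left (P : P1) (h : Reg1 N r δ) (hx0 : 0 ≤ x) (hx : x * hst N < ei1 N r δ)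
    (hg0 : 0 < g0) (hc : ∀ j, ‖c j‖ = g0) (hm : 0 < m)
    (hz : ∑ j ∈ Finset.Ico (-1 : ℤ) (-1 + N), c j * DE (tt δ) (wj N r δ x j) +
      m * ∑ j ∈ Finset.Ico (-1 : ℤ) (-1 + N), c j * E (tt δ) (wj N r δ x j) = 0) : False := by
  have hpi := Real.pi_pos
  have hr : 0 < r := by have := h.r0; linarith
  have hδ := h.d0
  have hh := hst_pos (N := N) (by have := h.N3; omega)
  have hh3 := hst_le h.N3
  have hNh := two_pi_hst (N := N) (by have := h.N3; omega)
  have ho := om1_pos (N := N) (r := r) (δ := δ)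
  have ho' := om1_le (N := N) (r := r) (δ := δ)
  have hoe := eo_ei N r δ
  have hei0 : 0 ≤ ei1 N r δ := by unfold ei1; nlinarith
  have hie : ei1 N r δ ≤ eo1 N r δ := by unfold ei1 eo1; nlinarith
  have hη0 : 0 ≤ x * hst N := by positivity
  have heo0 : 0 ≤ eo1 N r δ := hei0.trans hie
  obtain ⟨ya, ha⟩ := P.S.ex N r δ (x * hst N) h (by rw [abs_of_nonneg hη0]; linarith)
  have sa := P.S.sad N r δ ya _ h ha (by rw [abs_of_nonneg hη0]; linarith)
  obtain ⟨yb, hb⟩ := P.S.ex N r δ (-eo1 N r δ) h (by rw [abs_neg, abs_of_nonneg heo0])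
  have sb := P.S.sad N r δ yb _ h hb (by rw [abs_neg, abs_of_nonneg heo0])
  have hya0 := ha.y_nn hη0
  have hyb0 := hb.y_np (by linarith)
  have gap := P.G.L N r δ ya yb _ h ha hb hη0 hx.le
  have own := P.O.L N r δ ya _ h ha sa hη0 (by linarith)
  have hH := HH_pos (N := N) (r := r) (δ := δ) (by have := h.N3; omega) hr
  have zj : ∀ j ∈ Jp N x, (x + j) * hst N - x * hst N = (ip j : ℕ) * hst N := by
    intro j hj
    rw [ip_cast hj]; ring
  have h2 : ∀ j ∈ Jp N x, 2 ≤ ip j → Shf r δ ya ((x + j) * hst N - x * hst N) (HH N r δ)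
      ((1 / 2) ^ (ip j) / 100) ((1 / 2) ^ (ip j) / 100) ((1 / 2) ^ (ip j) / 100) := by
    intro j hj hj2
    rw [zj j hj]
    refine P.L.d N (ip j) r δ ya _ h ha sa hη0 (by linarith) hj2 ?_
    rw [ip_cast hj]
    have := jp_le hj
    linarith
  have h3 : Out r δ yb ((x - 1) * hst N - -eo1 N r δ) (5 / 4) := by
    refine P.R.o N r δ yb _ h hb sb ?_ ?_
    · rw [hoe]; linarith
    · have : 0 ≤ x * hst N := hη0
      rw [hoe]; linarith
  have h4 : ∀ j ∈ Jm N x, Shf r δ yb ((x + j) * hst N - 2 * Real.pi - -eo1 N r δ) (HH N r δ)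
      ((1 / 2) ^ (im N j) * (3 / 100)) ((1 / 2) ^ (im N j) * (3 / 50)) 1 := by
    intro j hj
    refine P.R.e N (im N j) r δ yb _ h hb sb (im_one j hj) ?_ ?_
    · rw [im_cast hj, ← hNh, hoe]
      linarith
    · have := jm_lt hj
      linarith
  have hz' := hz
  rw [wave_split (by have := h.N3; omega) ha hb x c (DE (tt δ)),
    wave_split (by have := h.N3; omega) ha hb x c (E (tt δ)), sub_self] at hz'
  have core : ∀ {f0 f1 f2 : ℝ}, 0 ≤ f0 → 0 ≤ f1 →
      (x * hst N + hst N ≤ Real.pi → Shf r δ ya (hst N) (HH N r δ) f0 f1 f2) →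
      7 / 8 * kD r δ ya + HH N r δ / 500 ≤ ‖kap r δ ya + m‖ →
      ((‖kap r δ ya + m‖ - (7 / 8 * kD r δ ya + HH N r δ / 500)) * (1 - 2 / 25) -
        (f1 * HH N r δ + ‖kap r δ ya + m‖ * f0) -
        (HH N r δ + ‖kap r δ ya + m‖) / 200) * sM r δ ya ≤
      (5 / 4 * (‖kap r δ yb‖ + m) + (6 * HH N r δ + 3 * (‖kap r δ yb‖ + m)) / 100) * sM r δ yb := by
    intro f0 f1 f2 hf0 hf1 hS hk
    exact loc_core (f0 := f0) (f1 := f1) (f2 := f2) own (by norm_num) (sM_pos ha.y1)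
      (sM_pos hb.y1) hH.le hf0 hf1 hk hm.le ip_inj im_inj ip_one im_one
      (ζa := fun j : ℤ => (x + j) * hst N - x * hst N)
      (ζb := fun j : ℤ => (x + j) * hst N - 2 * Real.pi - -eo1 N r δ)
      (fun j hj hj1 => by
        have e1 : (x + j) * hst N - x * hst N = hst N := by
          rw [zj j hj, hj1]; norm_num
        simp only [e1]
        refine hS ?_
        have := jp_le hj
        linarith)
      h2 h3 h4 hg0 hc (hc 0) (hc (-1)) hz'
  have hsx := sx_nonneg (r * δ) ya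
  rcases lt_or_ge (Gm N r δ) 10 with hG | hG
  · have A := sa.A hG
    have hHA := (HH_A h.toPar hG).2
    have hin := P.S.inn N r δ ya _ h ha hG (by rw [abs_of_nonneg hη0]; linarith)
    rw [abs_of_nonneg hya0] at hin
    refine loc_fin (kk := 0.05042) (hb := 0.521) (hc := 0.448) (q := 0.98) (T := 19 / 50)
      (α := 0.584) (β' := 1.3069) hr hδ hm ha hb A.T gap hH.le ?_ (by norm_num)
      (H_kap hr hδ ha hin hHA exp_15 (by norm_num) (by norm_num) (by norm_num)) (by norm_num)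
      (H_kap (b := 0) (c := 1) hr hδ hb hyb0 hHA (by simp) (by norm_num) (by norm_num)
        (by norm_num)) (by norm_num) (by norm_num) (by norm_num) (by norm_num) (by norm_num)
      (by norm_num) (by norm_num) ?_ ?_ (by norm_num) (by norm_num) (by norm_num)
      (core (f0 := 1 / 5) (f1 := 1 / 5) (by norm_num) (by norm_num)
        (P.L.a N r δ ya _ h ha sa hG hη0 hx.le))
    · have := A.a
      linarith
    · norm_num
    · norm_num
  · have B := sa.B hG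
    have hHB := (HH_B h hG).2
    refine loc_fin (kk := 0.04167) (hb := 1.8365) (hc := 1.049) (q := 0.94) (T := 4 / 5)
      (α := 0.665) (β' := 1.343) hr hδ hm ha hb B.T gap hH.le ?_ (by norm_num)
      (H_kap hr hδ ha B.hi hHB exp_56 (by norm_num) (by norm_num) (by norm_num)) (by norm_num)
      (H_kap (b := 0) (c := 1) hr hδ hb hyb0 hHB (by simp) (by norm_num) (by norm_num)
        (by norm_num)) (by norm_num) (by norm_num) (by norm_num) (by norm_num) (by norm_num)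
      (by norm_num) (by norm_num) ?_ ?_ (by norm_num) (by norm_num) (by norm_num)
      (core (f0 := 3 / 50) (f1 := 3 / 50) (by norm_num) (by norm_num)
        (P.L.a' N r δ ya _ h ha sa hG hη0 hx.le))
    · have := B.a
      linarith
    · norm_num
    · norm_num

end SokalV3
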