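import Pool.Agent.Lib_MP_af4de1_v3.Asm5

/-!
# Assembly of regime I: localisation, right side
-/

set_option autoImplicit false

namespace SokalV3

open Complex SokalU SokalF1 SokalF1S SokalF1M

variable {N : ℕ} {r δ x g0 m : ℝ} {c : ℤ → ℂ}

/-- `x h > eo1` : no zero -/
theorem loc_right (P : P1) (h : Reg1 N r δ) (hx1 : x < 1) (hx : eo1 N r δ < x * hst N)
    (hg0 : 0 < g0) (hc : ∀ j, ‖c j‖ = g0) (hm : 0 < m)
    (hz : ∑ j ∈ Finset.Ico (-1 : ℤ) (-1 + N), c j * DE (tt δ) (wj N r δ x j) +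
      m * ∑ j ∈ Finset.Ico (-1 : ℤ) (-1 + N), c j * E (tt δ) (wj N r δ x j) = 0) : False := by
  have hpi := Real.pi_pos
  have hr : 0 < r := by have := h.r0; linarith
  have hδ := h.d0
  have hh := hst_pos (N := N) (by have := h.N3; omega)
  have hh3 := hst_le h.N3
  have hNh := two_pi_hst (N := N) (by have := h.N3; omega)
  have ho := om1_pos (N := N) (r := r) (δ := δ)
  have ho' := om1_le (N := N) (r := r) (δ := δ)
  have hoe := eo_ei N r δ
  have hei0 : 0 ≤ ei1 N r δ := by unfold ei1; nlinarith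
  have hie : ei1 N r δ ≤ eo1 N r δ := by unfold ei1 eo1; nlinarith
  have heo0 : 0 ≤ eo1 N r δ := hei0.trans hie
  have hxh : x * hst N < hst N := by nlinarith
  have hη0 : x * hst N - hst N ≤ 0 := by linarith
  have hη1 : -ei1 N r δ ≤ x * hst N - hst N := by linarith
  have hηa : |x * hst N - hst N| ≤ ei1 N r δ := by rw [abs_of_nonpos hη0]; linarith
  obtain ⟨ya, ha⟩ := P.S.ex N r δ (x * hst N - hst N) h (hηa.trans hie)
  have sa := P.S.sad N r δ ya _ h ha (hηa.trans hie)
  obtain ⟨yb, hb⟩ := P.S.ex N r δ (eo1 N r δ) h (by rw [abs_of_nonneg heo0])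
  have sb := P.S.sad N r δ yb _ h hb (by rw [abs_of_nonneg heo0])
  have hya0 := ha.y_np hη0
  have hyb0 := hb.y_nn heo0
  have gap := P.G.R N r δ ya yb _ h ha hb hη0 hη1
  have own := P.O.R N r δ ya _ h ha sa hη0 (by linarith)
  have hH := HH_pos (N := N) (r := r) (δ := δ) (by have := h.N3; omega) hr
  have zj : ∀ j ∈ Jm N x, (x + j) * hst N - 2 * Real.pi - (x * hst N - hst N) =
      -((im N j : ℕ) * hst N) := by
    intro j hj
    rw [im_cast hj, ← hNh]; ring
  have h2 : ∀ j ∈ Jm N x, 2 ≤ im N j →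
      Shf r δ ya ((x + j) * hst N - 2 * Real.pi - (x * hst N - hst N)) (HH N r δ)
      ((1 / 2) ^ (im N j) / 100) ((1 / 2) ^ (im N j) / 100) ((1 / 2) ^ (im N j) / 100) := by
    intro j hj hj2
    rw [zj j hj]
    refine P.R.d N (im N j) r δ ya _ h ha sa hη0 (by linarith) hj2 ?_
    have h5 := zj j hj
    have := jm_lt hj
    linarith
  have h3 : Out r δ yb (x * hst N - eo1 N r δ) (23 / 20) := by
    refine P.L.o N r δ yb _ h hb sb ?_ ?_
    · linarith
    · linarith
  have h4 : ∀ j ∈ Jp N x, Shf r δ yb ((x + j) * hst N - eo1 N r δ) (HH N r δ)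
      ((1 / 2) ^ (ip j) * (3 / 100)) ((1 / 2) ^ (ip j) * (3 / 50)) 1 := by
    intro j hj
    refine P.L.e N (ip j) r δ yb _ h hb sb (ip_one j hj) ?_ ?_
    · rw [ip_cast hj]
      linarith
    · have := jp_le hj
      linarith
  have hz' := hz
  rw [wave_split (by have := h.N3; omega) hb ha x c (DE (tt δ)),
    wave_split (by have := h.N3; omega) hb ha x c (E (tt δ))] at hz'
  have e0 : (x - 1) * hst N - (x * hst N - hst N) = 0 := by ring
  rw [e0] at hz'
  have core : ∀ {f0 f1 f2 : ℝ}, 0 ≤ f0 → 0 ≤ f1 →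
      (-Real.pi ≤ x * hst N - hst N - hst N → Shf r δ ya (-hst N) (HH N r δ) f0 f1 f2) →
      13 / 10 * kD r δ ya + HH N r δ / 500 ≤ ‖kap r δ ya + m‖ →
      ((‖kap r δ ya + m‖ - (13 / 10 * kD r δ ya + HH N r δ / 500)) * (1 - 3 / 25) -
        (f1 * HH N r δ + ‖kap r δ ya + m‖ * f0) -
        (HH N r δ + ‖kap r δ ya + m‖) / 200) * sM r δ ya ≤
      (23 / 20 * (‖kap r δ yb‖ + m) + (6 * HH N r δ + 3 * (‖kap r δ yb‖ + m)) / 100) * sM r δ yb := by
    intro f0 f1 f2 hf0 hf1 hS hk
    exact loc_core (f0 := f0) (f1 := f1) (f2 := f2) own (by norm_num) (sM_pos ha.y1)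
      (sM_pos hb.y1) hH.le hf0 hf1 hk hm.le im_inj ip_inj im_one ip_one
      (ζb := fun j : ℤ => (x + j) * hst N - eo1 N r δ)
      (ζa := fun j : ℤ => (x + j) * hst N - 2 * Real.pi - (x * hst N - hst N))
      (fun j hj hj1 => by
        have e1 : (x + j) * hst N - 2 * Real.pi - (x * hst N - hst N) = -hst N := by
          rw [zj j hj, hj1]; norm_num
        simp only [e1]
        refine hS ?_
        have := jm_lt hj
        linarith)
      h2 h3 h4 hg0 hc (hc (-1)) (hc 0) (by simp only [V1, V0]; linear_combination hz')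
  have hsx := sx_nonneg (r * δ) ya
  rcases lt_or_ge (Gm N r δ) 10 with hG | hG
  · have A := sa.A hG
    have hHA := (HH_A h.toPar hG).2
    refine loc_fin (kk := 0.0675) (hb := 0.521) (hc := 0.6758) (q := 0.98) (T := 19 / 50)
      (α := 0.537) (β' := 1.22056) hr hδ hm ha hb A.T gap hH.le ?_ (by norm_num)
      (H_kap (b := 0) (c := 1) hr hδ ha hya0 hHA (by simp) (by norm_num) (by norm_num)
        (by norm_num)) (by norm_num)
      (H_kap hr hδ hb (sb.A hG).hi hHA exp_41 (by norm_num) (by norm_num) (by norm_num))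
      (by norm_num) (by norm_num) (by norm_num) (by norm_num) (by norm_num)
      (by norm_num) (by norm_num) ?_ ?_ (by norm_num) (by norm_num) (by norm_num)
      (core (f0 := 1 / 5) (f1 := 1 / 5) (by norm_num) (by norm_num)
        (P.R.a N r δ ya _ h ha sa hG hη0 hη1))
    · have := A.a
      linarith
    · norm_num
    · norm_num
  · have B := sa.B hG
    have hHB := (HH_B h hG).2
    refine loc_fin (kk := 0.0545) (hb := 1.049) (hc := 1.8365) (q := 0.94) (T := 4 / 5)
      (α := 0.69) (β' := 1.2902) hr hδ hm ha hb B.T gap hH.le ?_ (by norm_num)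
      (H_kap (b := 0) (c := 1) hr hδ ha hya0 hHB (by simp) (by norm_num) (by norm_num)
        (by norm_num)) (by norm_num)
      (H_kap hr hδ hb (sb.B hG).hi hHB exp_56 (by norm_num) (by norm_num) (by norm_num))
      (by norm_num) (by norm_num) (by norm_num) (by norm_num) (by norm_num)
      (by norm_num) (by norm_num) ?_ ?_ (by norm_num) (by norm_num) (by norm_num)
      (core (f0 := 3 / 50) (f1 := 3 / 50) (by norm_num) (by norm_num)
        (P.R.a' N r δ ya _ h ha sa hG hη0 hη1))
    · have := B.a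
      linarith
    · norm_num
    · norm_num

end SokalV3
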