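import Pool.Agent.Lib_MP_af4de1_v3.Asm6

/-!
# Assembly of regime I: near a tie, and the end
-/

set_option autoImplicit false

namespace SokalV3

open Complex SokalU SokalF1 SokalF1S SokalF1M

variable {N : ℕ} {r δ x g0 m : ℝ} {c : ℤ → ℂ}

/-- the end of the near case: everything relative to `H` and `|κ|` -/
theorem near_core (P : P1) (h : Reg1 N r δ) (hx0 : 0 ≤ x) (hx1 : x < 1)
    (hlo : ei1 N r δ ≤ x * hst N) (hhi : x * hst N ≤ eo1 N r δ)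
    (hg0 : 0 < g0) (hc : ∀ j, ‖c j‖ = g0) (hm : 0 < m)
    {y0 y1 : ℝ} (h0 : At r δ y0 (x * hst N)) (h1 : At r δ y1 (x * hst N - hst N))
    (s0 : Sad1 N r δ y0) (s1 : Sad1 N r δ y1)
    {f0 f1 f2 u0 u1 u2 G0 G1 G2 U0 U1 U2 T dd Hm K0 K1 b0 b1 : ℝ}
    {E0 E1 z0 z1 C0 C1 dq t0 t1 χ tχ s : ℝ}
    (SL : x * hst N + hst N ≤ Real.pi → Shf r δ y0 (hst N) (HH N r δ) f0 f1 f2)
    (SR : -Real.pi ≤ x * hst N - hst N - hst N → Shf r δ y1 (-hst N) (HH N r δ) u0 u1 u2)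
    (hf0 : 0 ≤ f0) (hf1 : 0 ≤ f1) (hf2 : 0 ≤ f2) (hu0 : 0 ≤ u0) (hu1 : 0 ≤ u1) (hu2 : 0 ≤ u2)
    (eG0 : (f0 + 1 / 200) / (1 - 2 / 25) = G0) (eG1 : (f1 + 1 / 200) / (1 - 2 / 25) = G1)
    (eG2 : (f2 + 1 / 200) / (1 - 2 / 25) = G2)
    (eU0 : (u0 + 1 / 200) / (1 - 3 / 25) = U0) (eU1 : (u1 + 1 / 200) / (1 - 3 / 25) = U1)
    (eU2 : (u2 + 1 / 200) / (1 - 3 / 25) = U2)
    (hG0 : G0 < 1) (hU0 : U0 < 1)
    (hT0 : |y0| ≤ T * sx (r * δ) y0) (hT1 : |y1| ≤ T * sx (r * δ) y1) (hT : 0 ≤ T)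
    (hHm : 0 < Hm) (hH : Hm ≤ HH N r δ) (hdd : 0 < dd) (hD0 : dd ≤ sD (r * δ) y0)
    (hD1 : dd ≤ sD (r * δ) y1)
    (k0 : 7 / 8 * kD r δ y0 + HH N r δ / 500 ≤ K0 * HH N r δ)
    (k1 : 13 / 10 * kD r δ y1 + HH N r δ / 500 ≤ K1 * HH N r δ)
    (hb0 : HH N r δ ≤ b0 * ‖kap r δ y0‖) (hb1 : HH N r δ ≤ b1 * ‖kap r δ y1‖)
    (hE0 : (K0 + G1) / (1 - G0) ≤ E0) (hE1 : (K1 + U1) / (1 - U0) ≤ E1) (hE00 : 0 ≤ E0)
    (hE10 : 0 ≤ E1) (hz0 : E0 * b0 ≤ z0) (hz1 : E1 * b1 ≤ z1) (hz0' : z0 < 1) (hz1' : z1 < 1)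
    (hC0 : 5 / 4 / ((1 - G0) * dd * Hm) + ((1 / 200 + G2) / (1 - G0) + E0 ^ 2) * b0 ≤ C0 * (1 - z0))
    (hC1 : 8 / 5 / ((1 - U0) * dd * Hm) + ((1 / 200 + U2) / (1 - U0) + E1 ^ 2) * b1 ≤ C1 * (1 - z1))
    (hd : 0 < dq) (hdq : E0 + E1 + dq ≤ 22 / 25)
    (hχ : C0 + C1 ≤ χ * dq) (hχ1 : χ < 1)
    (ht0 : 0 ≤ t0) (ht1 : 0 ≤ t1) (htχ : 0 ≤ tχ)
    (q0 : z0 ^ 2 ≤ t0 ^ 2 * (1 - z0 ^ 2)) (q1 : z1 ^ 2 ≤ t1 ^ 2 * (1 - z1 ^ 2))
    (qχ : χ ^ 2 ≤ tχ ^ 2 * (1 - χ ^ 2))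
    (h01 : t0 * t1 < 1) (hs : (t0 + t1) / (1 - t0 * t1) ≤ s) (hsT : s * T < 1)
    (hfin : (s + T) / (1 - s * T) * tχ < 1)
    (hz : ∑ j ∈ Finset.Ico (-1 : ℤ) (-1 + N), c j * DE (tt δ) (wj N r δ x j) +
      m * ∑ j ∈ Finset.Ico (-1 : ℤ) (-1 + N), c j * E (tt δ) (wj N r δ x j) = 0) :
    0 < ((∑ j ∈ Finset.Ico (-1 : ℤ) (-1 + N), c j * SokalBPlus.D2E (tt δ) (wj N r δ x j)) /
          (∑ j ∈ Finset.Ico (-1 : ℤ) (-1 + N), c j * DE (tt δ) (wj N r δ x j)) -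
        (∑ j ∈ Finset.Ico (-1 : ℤ) (-1 + N), c j * DE (tt δ) (wj N r δ x j)) /
          (∑ j ∈ Finset.Ico (-1 : ℤ) (-1 + N), c j * E (tt δ) (wj N r δ x j))).re := by
  have hpi := Real.pi_pos
  have hr : 0 < r := by have := h.r0; linarith
  have hδ := h.d0
  have hN3 := h.N3
  have hh := hst_pos (N := N) (by omega)
  have hNh := two_pi_hst (N := N) (by omega)
  have hoe := eo_ei N r δ
  have hη0 : 0 ≤ x * hst N := by positivity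
  have hxh : x * hst N < hst N := by
    have := mul_lt_mul_of_pos_right hx1 hh
    rwa [one_mul] at this
  have hη1 : x * hst N - hst N ≤ 0 := (sub_neg.2 hxh).le
  have hη3 : -eo1 N r δ ≤ x * hst N - hst N := by rw [hoe]; linarith only [hlo]
  have hHp : 0 < HH N r δ := lt_of_lt_of_le hHm hH
  have own0 := P.O.L N r δ y0 _ h h0 s0 hη0 hhi
  have own1 := P.O.R N r δ y1 _ h h1 s1 hη1 hη3
  have pair := P.PP N r δ y0 y1 _ h h0 h1 s0 s1 hlo hhi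
  have zj : ∀ j ∈ Jp N x, (x + j) * hst N - x * hst N = (ip j : ℕ) * hst N := by
    intro j hj
    rw [ip_cast hj]; ring
  have zj' : ∀ j ∈ Jm N x, (x + j) * hst N - 2 * Real.pi - (x * hst N - hst N) =
      -((im N j : ℕ) * hst N) := by
    intro j hj
    rw [im_cast hj, ← hNh]; ring
  have L1 : ∀ j ∈ Jp N x, ip j = 1 → Shf r δ y0 ((x + j) * hst N - x * hst N) (HH N r δ) f0 f1 f2 := by
    intro j hj hj1
    rw [zj j hj, hj1, Nat.cast_one, one_mul]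
    refine SL ?_
    have e1 := zj j hj
    rw [hj1, Nat.cast_one, one_mul] at e1
    have := jp_le hj
    linarith only [this, e1]
  have L2 : ∀ j ∈ Jp N x, 2 ≤ ip j → Shf r δ y0 ((x + j) * hst N - x * hst N) (HH N r δ)
      ((1 / 2) ^ (ip j) / 100) ((1 / 2) ^ (ip j) / 100) ((1 / 2) ^ (ip j) / 100) := by
    intro j hj hj2
    rw [zj j hj]
    refine P.L.d N (ip j) r δ y0 _ h h0 s0 hη0 hhi hj2 ?_
    rw [ip_cast hj]
    have := jp_le hj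
    linarith only [this, hj]
  have R1 : ∀ j ∈ Jm N x, im N j = 1 →
      Shf r δ y1 ((x + j) * hst N - 2 * Real.pi - (x * hst N - hst N)) (HH N r δ) u0 u1 u2 := by
    intro j hj hj1
    have e1 := zj' j hj
    rw [hj1, Nat.cast_one, one_mul] at e1
    rw [e1]
    refine SR ?_
    have := jm_lt hj
    linarith only [this, e1]
  have R2 : ∀ j ∈ Jm N x, 2 ≤ im N j →
      Shf r δ y1 ((x + j) * hst N - 2 * Real.pi - (x * hst N - hst N)) (HH N r δ)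
      ((1 / 2) ^ (im N j) / 100) ((1 / 2) ^ (im N j) / 100) ((1 / 2) ^ (im N j) / 100) := by
    intro j hj hj2
    rw [zj' j hj]
    refine P.R.d N (im N j) r δ y1 _ h h1 s1 hη1 hη3 hj2 ?_
    have h5 := zj' j hj
    have := jm_lt hj
    linarith only [this, h5]
  obtain ⟨a0, a1, a2⟩ := side_near (c := c) (c0 := c 0) own0 (by norm_num) (sM_pos h0.y1) hHp.le
    hf0 hf1 hf2 hg0 (fun j _ => hc j) (hc 0) ip_inj ip_one L1 L2 (by rw [eG0]; exact hG0)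
  obtain ⟨d0, d1, d2⟩ := side_near (c := c) (c0 := c (-1)) own1 (by norm_num) (sM_pos h1.y1) hHp.le
    hu0 hu1 hu2 hg0 (fun j _ => hc j) (hc (-1)) im_inj im_one R1 R2 (by rw [eU0]; exact hU0)
  rw [eG0, eG1] at a1
  rw [eG0, eG1, eG2] at a2
  rw [eU0, eU1] at d1
  rw [eU0, eU1, eU2] at d2
  have hn0 : 0 < ‖kap r δ y0‖ := by rw [norm_kap hδ h0]; positivity
  have hn1 : 0 < ‖kap r δ y1‖ := by rw [norm_kap hδ h1]; positivity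
  have kD0 : 0 ≤ kD r δ y0 := div_nonneg (norm_nonneg _) (sD2_pos h0.y1).le
  have kD1 : 0 ≤ kD r δ y1 := div_nonneg (norm_nonneg _) (sD2_pos h1.y1).le
  have pG1 : 0 ≤ G1 := by rw [← eG1]; positivity
  have pG2 : 0 ≤ G2 := by rw [← eG2]; positivity
  have pU1 : 0 ≤ U1 := by rw [← eU1]; positivity
  have pU2 : 0 ≤ U2 := by rw [← eU2]; positivity
  obtain ⟨n0, n1, n2⟩ := side_num (D := sD (r * δ) y0) (V := 1 / 200) (C := C0)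
    (v := 5 / 4 * (‖kap r δ y0‖ / sD (r * δ) y0) + HH N r δ ^ 2 / 200)
    (k := 7 / 8 * kD r δ y0 + HH N r δ / 500) hH hHm hn0 hD0 hdd k0
    (le_of_eq (by ring)) (by norm_num) hb0 hG0 hE0 (by positivity) (by positivity) hE00 hz0 hz0' hC0
  obtain ⟨m0, m1, m2⟩ := side_num (D := sD (r * δ) y1) (V := 1 / 200) (C := C1)
    (v := 8 / 5 * (‖kap r δ y1‖ / sD (r * δ) y1) + HH N r δ ^ 2 / 200)
    (k := 13 / 10 * kD r δ y1 + HH N r δ / 500) hH hHm hn1 hD1 hdd k1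
    (le_of_eq (by ring)) (by norm_num) hb1 hU0 hE1 (by positivity) (by positivity) hE10 hz1 hz1' hC1
  have w := fun F => wave_split (N := N) (by omega) h0 h1 x c F
  have e0 : (x - 1) * hst N - (x * hst N - hst N) = 0 := by ring
  rw [sub_self] at w
  rw [e0] at w
  rw [w, w] at hz
  rw [w, w, w]
  exact fin_near hδ hHp hm h0 h1 (h0.y_nn hη0) (h1.y_np hη1) hT0 hT1 hT pair a0 d0 hz
    a1 d1 a2 d2 n0 n1 n2 m0 m1 m2 hz0' hz1' hd hdq hχ hχ1 ht0 ht1 htχ q0 q1 qχ h01 hs hsT hfin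

end SokalV3
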