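import Pool.Agent.Lib_MP_af4de1_v3.Asm7

/-!
# Assembly of regime I: the theorem
-/

set_option autoImplicit false

namespace SokalV3

open Complex SokalU SokalF1 SokalF1S SokalF1M

theorem sD_ge {ρ y a b : ℝ} (h : a ≤ sD2 ρ y) (ha : b ^ 2 ≤ a) : b ≤ sD ρ y := by
  unfold sD
  exact Real.le_sqrt_of_sq_le (ha.trans h)

/-- **Regime I.** -/
theorem waveU_reg1 (P : P1) {N : ℕ} {r δ : ℝ} (h : Reg1 N r δ) : WaveU N δ r := by
  intro x g0 m c hx0 hx1 hg0 hc hm _ hz
  have hpi := Real.pi_pos
  have hr : 0 < r := by have := h.r0; linarith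
  have hδ := h.d0
  have hN3 := h.N3
  have hh := hst_pos (N := N) (by omega)
  have hoe := eo_ei N r δ
  have ho := om1_pos (N := N) (r := r) (δ := δ)
  have ho' := om1_le (N := N) (r := r) (δ := δ)
  have hei0 : 0 ≤ ei1 N r δ := by
    unfold ei1
    exact mul_nonneg (by linarith) hh.le
  rcases lt_or_ge (x * hst N) (ei1 N r δ) with hlo | hlo
  · exact (loc_left P h hx0 hlo hg0 hc hm hz).elim
  rcases lt_or_ge (eo1 N r δ) (x * hst N) with hhi | hhi
  · exact (loc_right P h hx1 hhi hg0 hc hm hz).elim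
  have hη0 : 0 ≤ x * hst N := mul_nonneg hx0 hh.le
  have hxh : x * hst N < hst N := by
    have := mul_lt_mul_of_pos_right hx1 hh
    rwa [one_mul] at this
  have a0 : |x * hst N| ≤ eo1 N r δ := by rwa [abs_of_nonneg hη0]
  have a1 : |x * hst N - hst N| ≤ eo1 N r δ := by
    rw [abs_of_nonpos (by linarith)]; linarith
  obtain ⟨y0, h0⟩ := P.S.ex N r δ (x * hst N) h a0
  obtain ⟨y1, h1⟩ := P.S.ex N r δ (x * hst N - hst N) h a1
  have s0 := P.S.sad N r δ y0 _ h h0 a0
  have s1 := P.S.sad N r δ y1 _ h h1 a1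
  have n0 := h0.y_nn hη0
  have n1 := h1.y_np (by linarith)
  rcases lt_or_ge (Gm N r δ) 10 with hG | hG
  · have A0 := s0.A hG
    have A1 := s1.A hG
    obtain ⟨hH1, hH2⟩ := HH_A h.toPar hG
    refine near_core P h hx0 hx1 hlo hhi hg0 hc hm h0 h1 s0 s1
      (f0 := 2 / 25) (f1 := 2 / 25) (f2 := 13 / 100) (u0 := 3 / 50) (u1 := 7 / 100) (u2 := 3 / 20)
      (T := 19 / 50) (dd := 0.9219) (Hm := 16.41) (K0 := 0.04575) (K1 := 0.067)
      (b0 := 0.6752) (b1 := 0.448) (E0 := 0.15221) (E1 := 0.16437) (z0 := 0.1028) (z1 := 0.0737)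
      (C0 := 0.2448) (C1 := 0.231) (dq := 0.56342) (t0 := 0.10335) (t1 := 0.07391)
      (χ := 0.8446) (tχ := 1.578) (s := 0.1787)
      (P.L.b N r δ y0 _ h h0 s0 hG hlo hhi)
      (fun h5 => P.R.b N r δ y1 _ h h1 s1 hG (by linarith) (by linarith) h5)
      (by norm_num) (by norm_num) (by norm_num) (by norm_num) (by norm_num) (by norm_num)
      rfl rfl rfl rfl rfl rfl (by norm_num) (by norm_num) A0.T A1.T (by norm_num)
      (by norm_num) (by linarith) (by norm_num) (sD_ge A0.D (by norm_num))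
      (sD_ge A1.D (by norm_num)) ?_ ?_
      (H_kap hr hδ h0 A0.hi hH2 exp_41 (by norm_num) (by norm_num) (by norm_num))
      (H_kap (b := 0) (c := 1) hr hδ h1 n1 hH2 (by simp) (by norm_num) (by norm_num)
        (by norm_num)) ?_ ?_ (by norm_num) (by norm_num) (by norm_num) (by norm_num)
      (by norm_num) (by norm_num) ?_ ?_ (by norm_num) (by norm_num) (by norm_num) (by norm_num)
      (by norm_num) (by norm_num) (by norm_num) (by norm_num) (by norm_num) (by norm_num)
      (by norm_num) (by norm_num) (by norm_num) (by norm_num) hz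
    · have := A0.a
      linarith
    · have := A1.a
      linarith
    · norm_num
    · norm_num
    · norm_num
    · norm_num
  · have B0 := s0.B hG
    have B1 := s1.B hG
    obtain ⟨hH1, hH2⟩ := HH_B h hG
    refine near_core P h hx0 hx1 hlo hhi hg0 hc hm h0 h1 s0 s1
      (f0 := 1 / 100) (f1 := 1 / 100) (f2 := 1 / 100) (u0 := 1 / 100) (u1 := 1 / 100)
      (u2 := 1 / 100)
      (T := 4 / 5) (dd := 0.8062) (Hm := 22.33) (K0 := 0.037) (K1 := 0.054)
      (b0 := 1.8365) (b1 := 1.049) (E0 := 0.0542) (E1 := 0.0723) (z0 := 0.09954) (z1 := 0.07585)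
      (C0 := 0.1287) (C1 := 0.1293) (dq := 0.7535) (t0 := 0.1002) (t1 := 0.0762)
      (χ := 0.343) (tχ := 0.366) (s := 0.178)
      (P.L.c N r δ y0 _ h h0 s0 hG hlo hhi)
      (fun h5 => P.R.c N r δ y1 _ h h1 s1 hG (by linarith) (by linarith) h5)
      (by norm_num) (by norm_num) (by norm_num) (by norm_num) (by norm_num) (by norm_num)
      rfl rfl rfl rfl rfl rfl (by norm_num) (by norm_num) B0.T B1.T (by norm_num)
      (by norm_num) (by linarith) (by norm_num) (sD_ge B0.D (by norm_num))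
      (sD_ge B1.D (by norm_num)) ?_ ?_
      (H_kap hr hδ h0 B0.hi hH2 exp_56 (by norm_num) (by norm_num) (by norm_num))
      (H_kap (b := 0) (c := 1) hr hδ h1 n1 hH2 (by simp) (by norm_num) (by norm_num)
        (by norm_num)) ?_ ?_ (by norm_num) (by norm_num) (by norm_num) (by norm_num)
      (by norm_num) (by norm_num) ?_ ?_ (by norm_num) (by norm_num) (by norm_num) (by norm_num)
      (by norm_num) (by norm_num) (by norm_num) (by norm_num) (by norm_num) (by norm_num)
      (by norm_num) (by norm_num) (by norm_num) (by norm_num) hz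
    · have := B0.a
      linarith
    · have := B1.a
      linarith
    · norm_num
    · norm_num
    · norm_num
    · norm_num

end SokalV3
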