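import Pool.Agent.Lib_MP_af4de1_v3.CenSum

/-!
# SHIFT: from a `Zone` over `univ` with the base point `w = 1` to `Shf`, in units of `H`

`P = LvF r δ η g q √(1+1/m²)`, `m = mm ρ`, `τ = |η|/h`:
`shf_wK`: base point `w = K/ρ`: `f0 = P I0`, `f1 = √(P I0 · P IW R/h²)`, `f2 = P IW R/h² + P Ie/Γ`;
`shf_w1`: base point `1`: `f0 = P S0`, `f1 = √(P S0 · P SW R/h²) + k τ P S0`, `f2 = (√(P SW R/h²) + k τ √(P S0))² + P SE/Γ`.
-/

set_option autoImplicit false

namespace SokalCen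

open MeasureTheory Set SokalU SokalF1 SokalF1S SokalF1M SokalV3

/-- the full prefactor -/
noncomputable def PF (r δ η g q : ℝ) : ℝ := LvF r δ η g q * √(1 + 1 / mm (r * δ) ^ 2)

theorem PF_nonneg (r δ η g q : ℝ) : 0 ≤ PF r δ η g q :=
  mul_nonneg (LvF_nonneg _ _ _ _ _) (Real.sqrt_nonneg _)

private theorem mmp (ρ : ℝ) : 0 < mm ρ := by
  unfold mm
  have : 0 < √(1 + ρ ^ 2) := Real.sqrt_pos.2 (by positivity)
  positivity

private theorem RRp (r δ : ℝ) : 0 < RR r δ := by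
  unfold RR
  positivity

private theorem hstp {N : ℕ} (hN : 1 ≤ N) : 0 < hst N := by
  unfold hst
  have : (1 : ℝ) ≤ N := by exact_mod_cast hN
  have := Real.pi_pos
  positivity

/-- FROM ONE ZONE (base point `K/ρ`) TO `Shf`, in units of `H`. -/
theorem shf_wK {N : ℕ} {r δ y η ζ g k q I0 IW Ie f0 f1 f2 : ℝ} (hN : 1 ≤ N) (hr : 0 < r)
    (hδ : 0 < δ) (hA : At r δ y η) (hL : Lev r δ y η g k q)
    (h0 : 0 ≤ I0) (hW : 0 ≤ IW) (hE : 0 ≤ Ie)
    (Z : Zone r (mm (r * δ)) (r * δ) (η + ζ) (sK (r * δ) y / (r * δ : ℝ)) univ I0 IW Ie)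
    (hf0 : PF r δ η g q * I0 ≤ f0)
    (hf1 : √(PF r δ η g q * I0 * (PF r δ η g q * IW * (RR r δ / hst N ^ 2))) ≤ f1)
    (hf2 : PF r δ η g q * IW * (RR r δ / hst N ^ 2) + PF r δ η g q * Ie / Gm N r δ ≤ f2) :
    Shf r δ y ζ (HH N r δ) f0 f1 f2 := by
  have hh := hstp hN
  have hR := RRp r δ
  have hsR : 0 < √(RR r δ) := Real.sqrt_pos.2 hR
  have hsq : √(RR r δ) ^ 2 = RR r δ := Real.sq_sqrt hR.le
  have hP := PF_nonneg r δ η g q
  have e1 : LvF r δ η g q * √(1 + 1 / mm (r * δ) ^ 2) = PF r δ η g q := rfl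
  set P := PF r δ η g q with hPd
  refine shf_zone (L := LvF r δ η g q) (m := mm (r * δ)) hr hδ hA hL (wb hr hδ (mmp _)) le_rfl
    h0 hW hE Z ?_ ?_ ?_
  · rwa [e1]
  · rw [e1, Real.sqrt_mul h0]
    have e2 : √(P * I0 * (P * IW * (RR r δ / hst N ^ 2))) =
        P * (√I0 * √IW) * (√(RR r δ) / hst N) := by
      have e3 : P * I0 * (P * IW * (RR r δ / hst N ^ 2)) =
          (P * (√I0 * √IW) * (√(RR r δ) / hst N)) ^ 2 := by
        rw [mul_pow, mul_pow, mul_pow, div_pow, hsq, Real.sq_sqrt h0, Real.sq_sqrt hW]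
        ring
      rw [e3, Real.sqrt_sq (by positivity)]
    rw [e2] at hf1
    have e4 : P * (r * (√I0 * √IW)) = (P * (√I0 * √IW) * (√(RR r δ) / hst N)) * HH N r δ := by
      unfold HH
      field_simp
    rw [e4]
    exact mul_le_mul_of_nonneg_right hf1 (by unfold HH; positivity)
  · rw [e1]
    have e4 : P * (r ^ 2 * IW + r * Ie) =
        (P * IW * (RR r δ / hst N ^ 2) + P * Ie / Gm N r δ) * HH N r δ ^ 2 := by
      unfold HH Gm
      rw [div_pow, hsq]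
      field_simp
    rw [e4]
    exact mul_le_mul_of_nonneg_right hf2 (by positivity)

/-- FROM ONE ZONE (base point `1`) TO `Shf`. -/
theorem shf_w1 {N : ℕ} {r δ y η ζ g k q S0 SW SE f0 f1 f2 : ℝ} (hN : 1 ≤ N) (hr : 0 < r)
    (hδ : 0 < δ) (hA : At r δ y η) (hL : Lev r δ y η g k q) (hk : 0 ≤ k)
    (h0 : 0 ≤ S0) (hW : 0 ≤ SW) (hE : 0 ≤ SE)
    (Z : Zone r (mm (r * δ)) (r * δ) (η + ζ) 1 univ S0 SW SE)
    (hf0 : PF r δ η g q * S0 ≤ f0)
    (hf1 : √(PF r δ η g q * S0 * (PF r δ η g q * SW * (RR r δ / hst N ^ 2))) +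
      k * (|η| / hst N) * (PF r δ η g q * S0) ≤ f1)
    (hf2 : (√(PF r δ η g q * SW * (RR r δ / hst N ^ 2)) +
      k * (|η| / hst N) * √(PF r δ η g q * S0)) ^ 2 + PF r δ η g q * SE / Gm N r δ ≤ f2) :
    Shf r δ y ζ (HH N r δ) f0 f1 f2 := by
  have hh := hstp hN
  have hR := RRp r δ
  have hsR : 0 < √(RR r δ) := Real.sqrt_pos.2 hR
  have hsq : √(RR r δ) ^ 2 = RR r δ := Real.sq_sqrt hR.le
  have hκ := w_sub hr hL
  have hP := PF_nonneg r δ η g q
  set κ := k * |η| / √(RR r δ) with hκd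
  have hκ0 : 0 ≤ κ := by rw [hκd]; positivity
  have Z1 := Z.tri h0 hW hκ
  have e1 : LvF r δ η g q * √(1 + 1 / mm (r * δ) ^ 2) = PF r δ η g q := rfl
  set P := PF r δ η g q with hPd
  refine shf_zone (L := LvF r δ η g q) (m := mm (r * δ)) hr hδ hA hL (wb hr hδ (mmp _)) le_rfl
    h0 (by positivity) hE Z1 ?_ ?_ ?_
  · rwa [e1]
  · rw [e1, Real.sqrt_mul h0, Real.sqrt_sq (by positivity)]
    have e2 : √(P * S0 * (P * SW * (RR r δ / hst N ^ 2))) =
        P * (√S0 * √SW) * (√(RR r δ) / hst N) := by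
      have e3 : P * S0 * (P * SW * (RR r δ / hst N ^ 2)) =
          (P * (√S0 * √SW) * (√(RR r δ) / hst N)) ^ 2 := by
        rw [mul_pow, mul_pow, mul_pow, div_pow, hsq, Real.sq_sqrt h0, Real.sq_sqrt hW]
        ring
      rw [e3, Real.sqrt_sq (by positivity)]
    rw [e2] at hf1
    have e4 : P * (r * (√S0 * (√SW + κ * √S0))) = (P * (√S0 * √SW) * (√(RR r δ) / hst N) +
        k * (|η| / hst N) * (P * S0)) * HH N r δ := by
      unfold HH
      rw [hκd]
      have e5 : √S0 * √S0 = S0 := Real.mul_self_sqrt h0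
      field_simp
      linear_combination (k * |η|) * P * e5
    rw [e4]
    exact mul_le_mul_of_nonneg_right hf1 (by unfold HH; positivity)
  · rw [e1]
    have e2 : √(P * SW * (RR r δ / hst N ^ 2)) = √P * √SW * (√(RR r δ) / hst N) := by
      have e3 : P * SW * (RR r δ / hst N ^ 2) = (√P * √SW * (√(RR r δ) / hst N)) ^ 2 := by
        rw [mul_pow, mul_pow, div_pow, hsq, Real.sq_sqrt hP, Real.sq_sqrt hW]
      rw [e3, Real.sqrt_sq (by positivity)]
    have e2' : √(P * S0) = √P * √S0 := Real.sqrt_mul hP _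
    rw [e2, e2'] at hf2
    have e4 : P * (r ^ 2 * (√SW + κ * √S0) ^ 2 + r * SE) =
        ((√P * √SW * (√(RR r δ) / hst N) + k * (|η| / hst N) * (√P * √S0)) ^ 2 +
          P * SE / Gm N r δ) * HH N r δ ^ 2 := by
      have e6 : (√P * √SW * (√(RR r δ) / hst N) + k * (|η| / hst N) * (√P * √S0)) ^ 2 =
          P * ((√SW + κ * √S0) ^ 2 * (RR r δ / hst N ^ 2)) := by
        have e7 : √P * √SW * (√(RR r δ) / hst N) + k * (|η| / hst N) * (√P * √S0) =
            √P * ((√SW + κ * √S0) * (√(RR r δ) / hst N)) := by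
          rw [hκd]
          field_simp
        rw [e7, mul_pow, mul_pow, Real.sq_sqrt hP, div_pow, hsq]
      rw [e6]
      unfold HH Gm
      rw [div_pow, hsq]
      field_simp
    rw [e4]
    exact mul_le_mul_of_nonneg_right hf2 (by positivity)

end SokalCen
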