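import Pool.Agent.Lib_MP_af4de1_v3.CelCov
import Pool.Agent.Lib_MP_af4de1_v3.CenDef
import Pool.Agent.Lib_MP_af4de1_v3.ShfW

/-!
# Bridge, both sides: the truncated Gaussians of `CenDef.lean` times the level factor in scaled variables (helper6)

`A = a c²/ν`, `Q = a c² + ν B`, `t = u h`, weights `a0 = α0 (h c)²`, `a1 = α1 c²`, `a2 = α2`, `l = λ (h c)²`.
`z0 = PF · g0`, `zW = PF · gW · R/h²`.
-/

set_option autoImplicit false

namespace SokalCel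

open SokalFN SokalF1 SokalV3 SokalCen Real

/-- `e^(-Γ e0)` -/
noncomputable def zX (g c ν τ Γ u a B l : ℝ) : ℝ :=
  exp (-(Γ * (u ^ 2 * (1 / (c ^ 2 / B + ν / a)) - l - g / 2 * τ ^ 2)))

/-- the part beyond the centre -/
noncomputable def zY (g c ν τ Γ u a B l : ℝ) : ℝ :=
  min (zX g c ν τ Γ u a B l / 2)
    (√Γ * (u * a * c / √(π * ν * (a * c ^ 2 + ν * B))) * zX g c ν τ Γ u a B l)

/-- `PF · g0` -/
noncomputable def z0 (μ q g c ν τ Γ u a B l : ℝ) : ℝ :=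
  √(q * (1 + c ^ 2 / μ ^ 2) / (2 * (a * c ^ 2 + ν * B))) *
    (zX g c ν τ Γ u a B l / 2 + zY g c ν τ Γ u a B l)

/-- `PF · gW · R/h²` -/
noncomputable def zW (μ q g c ν τ Γ u a B l w0 w1 w2 : ℝ) : ℝ :=
  √(q * (1 + c ^ 2 / μ ^ 2) / (2 * (a * c ^ 2 + ν * B))) *
    min (zX g c ν τ Γ u a B l * (w0 +
        w1 * (u ^ 2 * (ν * B / (a * c ^ 2 + ν * B)) ^ 2 +
          c ^ 2 * (ν / (2 * Γ * (a * c ^ 2 + ν * B)))) +
        w2 * ((u * (a * c / (a * c ^ 2 + ν * B))) ^ 2 + ν / (2 * Γ * (a * c ^ 2 + ν * B)))))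
      (zX g c ν τ Γ u a B l / 2 * (w0 +
        w1 * (u ^ 2 * (ν * B / (a * c ^ 2 + ν * B)) ^ 2 +
          c ^ 2 * (ν / (2 * Γ * (a * c ^ 2 + ν * B)))) +
        w2 * ((u * (a * c / (a * c ^ 2 + ν * B))) ^ 2 +
          2 * (u * (a * c / (a * c ^ 2 + ν * B))) * √(ν / (π * Γ * (a * c ^ 2 + ν * B))) +
          ν / (2 * Γ * (a * c ^ 2 + ν * B)))) +
      zY g c ν τ Γ u a B l * (w0 + w1 * u ^ 2 + w2 * (u * (a * c / (a * c ^ 2 + ν * B))) ^ 2))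

/-! ### helpers for `min` -/

theorem mul_min_comm {k x y : ℝ} (h : 0 ≤ k) : k * min x y = min (k * x) (k * y) := by
  rcases le_total x y with h1 | h1
  · rw [min_eq_left h1, min_eq_left (mul_le_mul_of_nonneg_left h1 h)]
  · rw [min_eq_right h1, min_eq_right (mul_le_mul_of_nonneg_left h1 h)]

section

variable {r δ η c ν h τ Γ a B u : ℝ}

/-- `A + B` -/
theorem zAB (hν : 0 < ν) : a * c ^ 2 / ν + B = (a * c ^ 2 + ν * B) / ν := by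
  field_simp

theorem Scl0.gG (s : Scl0 r δ η c ν h τ Γ) (ha : 0 < a) (hB : 0 < B) :
    SokalCen.gG r (a * c ^ 2 / ν) B = h * c * √(π * ν / (Γ * (a * c ^ 2 + ν * B))) := by
  have h2 := s.c0
  have h3 := s.n0
  have h4 := s.h0
  have h5 := s.Gpos
  have hQ : 0 < a * c ^ 2 + ν * B := by positivity
  unfold SokalCen.gG
  have e : h * c = √((h * c) ^ 2) := (Real.sqrt_sq (by positivity)).symm
  rw [zAB h3]
  conv_rhs => rw [e]
  rw [← Real.sqrt_mul (by positivity), s.er]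
  congr 1
  field_simp

/-- `PF · gG` -/
theorem Scl0.PG (s : Scl0 r δ η c ν h τ Γ) (ha : 0 < a) (hB : 0 < B) {g q : ℝ} (hq : 0 ≤ q) :
    PF r δ η g q * SokalCen.gG r (a * c ^ 2 / ν) B =
      √(q * (1 + c ^ 2 / (5 / 4) ^ 2) / (2 * (a * c ^ 2 + ν * B))) * exp (g / 2 * Γ * τ ^ 2) := by
  have h2 := s.c0
  have h3 := s.n0
  have hQ : 0 < a * c ^ 2 + ν * B := by positivity
  have h4 := s.P (g := g) (q := q) (μ := 5 / 4) (X := (a * c ^ 2 + ν * B) / ν) hq (by norm_num)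
    (by positivity)
  unfold PF SokalCen.gG
  rw [s.em, zAB h3, h4]
  congr 2
  field_simp

theorem Scl0.gs (s : Scl0 r δ η c ν h τ Γ) (ha : 0 < a) (hB : 0 < B) :
    SokalCen.gs r (a * c ^ 2 / ν) B = (h * c) ^ 2 * (ν / (2 * Γ * (a * c ^ 2 + ν * B))) := by
  have h2 := s.c0
  have h3 := s.n0
  have h4 := s.h0
  have h5 := s.Gpos
  have hQ : 0 < a * c ^ 2 + ν * B := by positivity
  unfold SokalCen.gs
  rw [zAB h3, s.er]
  field_simp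

theorem Scl0.gv (s : Scl0 r δ η c ν h τ Γ) (ha : 0 < a) (hB : 0 < B) :
    SokalCen.gv (a * c ^ 2 / ν) B (u * h) = h * (u * (ν * B / (a * c ^ 2 + ν * B))) := by
  have h2 := s.c0
  have h3 := s.n0
  have hQ : 0 < a * c ^ 2 + ν * B := by positivity
  unfold SokalCen.gv
  rw [zAB h3]
  field_simp

theorem Scl0.tv (s : Scl0 r δ η c ν h τ Γ) (ha : 0 < a) (hB : 0 < B) :
    u * h - SokalCen.gv (a * c ^ 2 / ν) B (u * h) =
      h * c * (u * (a * c / (a * c ^ 2 + ν * B))) := by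
  have h2 := s.c0
  have h3 := s.n0
  have hQ : 0 < a * c ^ 2 + ν * B := by positivity
  rw [s.gv ha hB]
  field_simp
  ring

/-- the Gaussian factors -/
theorem Scl0.ex (s : Scl0 r δ η c ν h τ Γ) (ha : 0 < a) (hB : 0 < B) {g l : ℝ} :
    exp (g / 2 * Γ * τ ^ 2) * exp (-(r * (a * c ^ 2 / ν * B * (u * h) ^ 2 / (a * c ^ 2 / ν + B) -
      l * (h * c) ^ 2))) = zX g c ν τ Γ u a B l := by
  have h2 := s.c0
  have h3 := s.n0
  have h4 := s.h0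
  have hQ : 0 < a * c ^ 2 + ν * B := by positivity
  unfold zX
  rw [← exp_add]
  congr 1
  rw [zAB h3, s.er]
  have e : 1 / (c ^ 2 / B + ν / a) = a * B / (a * c ^ 2 + ν * B) := by
    field_simp
  rw [e]
  field_simp
  ring

/-- `(t - v)/gG` -/
theorem Scl0.rat (s : Scl0 r δ η c ν h τ Γ) (ha : 0 < a) (hB : 0 < B) :
    h * c * (u * (a * c / (a * c ^ 2 + ν * B))) =
      SokalCen.gG r (a * c ^ 2 / ν) B * (√Γ * (u * a * c / √(π * ν * (a * c ^ 2 + ν * B)))) := by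
  have h2 := s.c0
  have h3 := s.n0
  have h5 := s.Gpos
  have hQ : 0 < a * c ^ 2 + ν * B := by positivity
  have hpi := pi_pos
  rw [s.gG ha hB]
  obtain ⟨Q, hQe⟩ : ∃ Q, Q = a * c ^ 2 + ν * B := ⟨_, rfl⟩
  rw [← hQe] at hQ ⊢
  have e1 : √(π * ν / (Γ * Q)) * √Γ = √(π * ν * Q) / Q := by
    rw [← Real.sqrt_mul (by positivity), eq_div_iff hQ.ne']
    have e : Q = √(Q ^ 2) := (Real.sqrt_sq hQ.le).symm
    conv_lhs => rw [e]
    rw [← Real.sqrt_mul (by positivity), Real.sqrt_sq hQ.le]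
    congr 1
    field_simp
  have e2 : √(π * ν * Q) ≠ 0 := (Real.sqrt_pos.2 (by positivity)).ne'
  calc h * c * (u * (a * c / Q)) = h * c * (u * a * c) * (1 / Q) := by ring
    _ = h * c * (√(π * ν / (Γ * Q)) * √Γ) * (u * a * c / √(π * ν * Q)) := by
        rw [e1]
        field_simp
    _ = _ := by ring

/-- `PF · gr · e^..` -/
theorem Scl0.PY (s : Scl0 r δ η c ν h τ Γ) (ha : 0 < a) (hB : 0 < B) {g q l : ℝ} (hq : 0 ≤ q) :
    PF r δ η g q * (gr r (a * c ^ 2 / ν) B (u * h) *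
      exp (-(r * (a * c ^ 2 / ν * B * (u * h) ^ 2 / (a * c ^ 2 / ν + B) - l * (h * c) ^ 2)))) =
      √(q * (1 + c ^ 2 / (5 / 4) ^ 2) / (2 * (a * c ^ 2 + ν * B))) * zY g c ν τ Γ u a B l := by
  have hE := s.ex (u := u) ha hB (g := g) (l := l)
  have hP := s.PG ha hB (g := g) hq
  have hR := s.rat (u := u) ha hB
  have hv := s.tv (u := u) ha hB
  unfold gr zY
  rw [hv, hR]
  obtain ⟨G, hG⟩ : ∃ G, G = SokalCen.gG r (a * c ^ 2 / ν) B := ⟨_, rfl⟩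
  obtain ⟨K, hK⟩ : ∃ K, K = √Γ * (u * a * c / √(π * ν * (a * c ^ 2 + ν * B))) := ⟨_, rfl⟩
  obtain ⟨E, hEe⟩ : ∃ E, E = exp (-(r * (a * c ^ 2 / ν * B * (u * h) ^ 2 / (a * c ^ 2 / ν + B) -
      l * (h * c) ^ 2))) := ⟨_, rfl⟩
  obtain ⟨V, hV⟩ : ∃ V, V = √(q * (1 + c ^ 2 / (5 / 4) ^ 2) / (2 * (a * c ^ 2 + ν * B))) := ⟨_, rfl⟩
  rw [← hG, ← hV] at hP
  rw [← hEe] at hE
  rw [← hG, ← hK, ← hEe, ← hV, ← hE]
  have hG0 : 0 ≤ G := by rw [hG]; exact Real.sqrt_nonneg _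
  have hE0 : 0 < E := by rw [hEe]; exact exp_pos _
  have hV0 : 0 ≤ V := by rw [hV]; exact Real.sqrt_nonneg _
  have hPF := PF_nonneg r δ η g q
  obtain ⟨P, hPe⟩ : ∃ P, P = PF r δ η g q := ⟨_, rfl⟩
  rw [← hPe] at hP hPF ⊢
  obtain ⟨W, hW⟩ : ∃ W, W = exp (g / 2 * Γ * τ ^ 2) := ⟨_, rfl⟩
  rw [← hW] at hP ⊢
  rw [mul_min_comm hV0, mul_comm (min (G / 2) (G * K)) E, ← mul_assoc, mul_min_comm (by positivity)]
  congr 1
  · calc P * E * (G / 2) = (P * G) * E / 2 := by ring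
      _ = V * W * E / 2 := by rw [hP]
      _ = _ := by ring
  · calc P * E * (G * K) = (P * G) * E * K := by ring
      _ = V * W * E * K := by rw [hP]
      _ = _ := by ring

/-- `PF · g0` -/
theorem Scl0.g0 (s : Scl0 r δ η c ν h τ Γ) (ha : 0 < a) (hB : 0 < B) {g q l : ℝ} (hq : 0 ≤ q) :
    PF r δ η g q * SokalCen.g0 r (a * c ^ 2 / ν) B (u * h) (l * (h * c) ^ 2) =
      z0 (5 / 4) q g c ν τ Γ u a B l := by
  have hE := s.ex (u := u) ha hB (g := g) (l := l)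
  have hP := s.PG ha hB (g := g) hq
  have hY := s.PY (u := u) ha hB (g := g) (l := l) hq
  unfold SokalCen.g0 z0
  rw [mul_add, ← hY, ← hE]
  obtain ⟨E, hEe⟩ : ∃ E, E = exp (-(r * (a * c ^ 2 / ν * B * (u * h) ^ 2 / (a * c ^ 2 / ν + B) -
      l * (h * c) ^ 2))) := ⟨_, rfl⟩
  rw [← hEe]
  linear_combination (E / 2) * hP

/-- `PF · gW · R/h²` -/
theorem Scl0.gW (s : Scl0 r δ η c ν h τ Γ) (ha : 0 < a) (hB : 0 < B) {g q l : ℝ} (hq : 0 ≤ q)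
    {w0 w1 w2 : ℝ} :
    PF r δ η g q * SokalCen.gW r (a * c ^ 2 / ν) B (u * h) (l * (h * c) ^ 2) (w0 * (h * c) ^ 2)
      (w1 * c ^ 2) w2 * (RR r δ / h ^ 2) = zW (5 / 4) q g c ν τ Γ u a B l w0 w1 w2 := by
  have h2 := s.c0
  have h3 := s.n0
  have h4 := s.h0
  have h5 := s.Gpos
  have hpi := pi_pos
  have hQ : 0 < a * c ^ 2 + ν * B := by positivity
  have hE := s.ex (u := u) ha hB (g := g) (l := l)
  have hP := s.PG ha hB (g := g) hq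
  have hY := s.PY (u := u) ha hB (g := g) (l := l) hq
  have hPF := PF_nonneg r δ η g q
  have hc : RR r δ / h ^ 2 = 1 / (h * c) ^ 2 := by
    rw [s.eRR]
    field_simp
  unfold SokalCen.gW zW
  rw [s.gs ha hB, s.tv ha hB, s.gv ha hB, hc]
  have hs : √(2 * ((h * c) ^ 2 * (ν / (2 * Γ * (a * c ^ 2 + ν * B)))) / π) =
      h * c * √(ν / (π * Γ * (a * c ^ 2 + ν * B))) := by
    have e : h * c = √((h * c) ^ 2) := (Real.sqrt_sq (by positivity)).symm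
    conv_rhs => rw [e]
    rw [← Real.sqrt_mul (by positivity)]
    congr 1
    field_simp
  rw [hs]
  obtain ⟨E, hEe⟩ : ∃ E, E = exp (-(r * (a * c ^ 2 / ν * B * (u * h) ^ 2 / (a * c ^ 2 / ν + B) -
      l * (h * c) ^ 2))) := ⟨_, rfl⟩
  rw [← hEe] at hE hY ⊢
  obtain ⟨G, hG⟩ : ∃ G, G = SokalCen.gG r (a * c ^ 2 / ν) B := ⟨_, rfl⟩
  obtain ⟨D, hD⟩ : ∃ D, D = SokalCen.gr r (a * c ^ 2 / ν) B (u * h) := ⟨_, rfl⟩
  obtain ⟨Q, hQe⟩ : ∃ Q, Q = a * c ^ 2 + ν * B := ⟨_, rfl⟩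
  rw [← hG, ← hQe] at hP
  rw [← hD, ← hQe] at hY
  rw [← hG, ← hD, ← hQe]
  obtain ⟨V, hV⟩ : ∃ V, V = √(q * (1 + c ^ 2 / (5 / 4) ^ 2) / (2 * Q)) := ⟨_, rfl⟩
  rw [← hV] at hP hY ⊢
  have hV0 : 0 ≤ V := by rw [hV]; exact Real.sqrt_nonneg _
  have hE0 : 0 < E := by rw [hEe]; exact exp_pos _
  obtain ⟨P, hPe⟩ : ∃ P, P = PF r δ η g q := ⟨_, rfl⟩
  rw [← hPe] at hP hPF hY ⊢
  obtain ⟨X, hX⟩ : ∃ X, X = zX g c ν τ Γ u a B l := ⟨_, rfl⟩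
  obtain ⟨Y, hYe⟩ : ∃ Y, Y = zY g c ν τ Γ u a B l := ⟨_, rfl⟩
  obtain ⟨W, hW⟩ : ∃ W, W = exp (g / 2 * Γ * τ ^ 2) := ⟨_, rfl⟩
  rw [← hX, ← hW] at hE
  rw [← hYe] at hY
  rw [← hW] at hP
  rw [← hX, ← hYe]
  -- `P G E = V X`, `P D E = V Y`
  have k1 : P * G * E = V * X := by rw [hP, ← hE]; ring
  have k2 : P * D * E = V * Y := by rw [← hY]; ring
  obtain ⟨S, hS⟩ : ∃ S, S = √(ν / (π * Γ * Q)) := ⟨_, rfl⟩
  rw [← hS]
  rw [mul_min_comm hV0]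
  have k3 : ∀ x y : ℝ, P * (min x y * E) * (1 / (h * c) ^ 2) =
      min (P * (x * E) * (1 / (h * c) ^ 2)) (P * (y * E) * (1 / (h * c) ^ 2)) := by
    intro x y
    have e1 : ∀ z : ℝ, P * (z * E) * (1 / (h * c) ^ 2) = (P * E * (1 / (h * c) ^ 2)) * z := by
      intro z; ring
    rw [e1, e1, e1]
    exact mul_min_comm (by positivity)
  rw [k3]
  have hhc : (h * c) ≠ 0 := by positivity
  rw [← hQe] at hQ
  congr 1
  · rw [← mul_assoc V X, ← k1]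
    field_simp
  · rw [mul_add V, ← mul_assoc V Y, ← k2]
    have e5 : V * (X / 2 * (w0 + w1 * (u ^ 2 * (ν * B / Q) ^ 2 + c ^ 2 * (ν / (2 * Γ * Q))) +
        w2 * ((u * (a * c / Q)) ^ 2 + 2 * (u * (a * c / Q)) * S + ν / (2 * Γ * Q)))) =
        (V * X) / 2 * (w0 + w1 * (u ^ 2 * (ν * B / Q) ^ 2 + c ^ 2 * (ν / (2 * Γ * Q))) +
        w2 * ((u * (a * c / Q)) ^ 2 + 2 * (u * (a * c / Q)) * S + ν / (2 * Γ * Q))) := by ring
    rw [e5, ← k1]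
    field_simp

end

end SokalCel
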