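import Pool.Agent.Lib_MP_af4de1_v3.CelL1

/-!
# Cells, left side: front and behind in scaled variables

Front `0 ≤ s ≤ π - t`: half Gaussian `exp (-r (1 - cos t) - r aR(1) s²)`.
Behind `v = t + z`: half Gaussian `exp (-r A' t² - Bb z²)`.
-/

set_option autoImplicit false

namespace SokalCel

open SokalFN

/-- `1/π`, upper bound -/
theorem inv_pi_le : 1 / Real.pi ≤ fx 350008700000 := by
  have h := Real.pi_gt_d4
  rw [div_le_iff₀ Real.pi_pos]
  unfold fx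
  nlinarith

/-- monotonicity used for the front part -/
theorem front_mono {c d a : ℝ} (hc : 0 < c) (hcd : c ≤ d) (p : ℕ) (h : p * d ^ 2 ≤ 2 * a) :
    (1 / c) ^ p * Real.exp (-(a / c ^ 2)) ≤ (1 / d) ^ p * Real.exp (-(a / d ^ 2)) := by
  have hd : 0 < d := hc.trans_le hcd
  have h1 : (d / c) ^ p ≤ Real.exp (a / c ^ 2 - a / d ^ 2) := by
    have h2 : d / c ≤ Real.exp (d / c - 1) := by
      have := Real.add_one_le_exp (d / c - 1)
      linarith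
    have h3 : (d / c) ^ p ≤ Real.exp (d / c - 1) ^ p := pow_le_pow_left₀ (by positivity) h2 p
    rw [← Real.exp_nat_mul] at h3
    refine h3.trans (Real.exp_le_exp.2 ?_)
    have hx : 1 ≤ d / c := by rw [le_div_iff₀ hc]; linarith
    have e : a / c ^ 2 - a / d ^ 2 = a / d ^ 2 * ((d / c) ^ 2 - 1) := by
      field_simp
    rw [e]
    have h4 : (p : ℝ) / 2 ≤ a / d ^ 2 := by
      rw [div_le_div_iff₀ (by norm_num) (by positivity)]
      linarith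
    have h5 : 0 ≤ (d / c) ^ 2 - 1 := by nlinarith
    have h6 := mul_le_mul_of_nonneg_right h4 h5
    have hp : (0 : ℝ) ≤ p := Nat.cast_nonneg p
    nlinarith [mul_nonneg hp (sq_nonneg (d / c - 1))]
  have h2 : Real.exp (-(a / d ^ 2)) = Real.exp (a / c ^ 2 - a / d ^ 2) * Real.exp (-(a / c ^ 2)) := by
    rw [← Real.exp_add]
    congr 1
    ring
  have h3 : (1 / c) ^ p = (1 / d) ^ p * (d / c) ^ p := by
    rw [← mul_pow]
    congr 1
    field_simp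
  rw [h2, h3, mul_assoc]
  refine mul_le_mul_of_nonneg_left ?_ (by positivity)
  exact mul_le_mul_of_nonneg_right h1 (Real.exp_pos _).le

theorem front_mono' {c d a Γ B E : ℝ} (hc : 0 < c) (hcd : c ≤ d) (p : ℕ) (ha : a ≤ Γ * B)
    (h : p * d ^ 2 ≤ 2 * a) :
    (1 / c) ^ p * Real.exp (-(Γ * (B / c ^ 2 - E))) ≤ (1 / d) ^ p * Real.exp (-(Γ * (B / d ^ 2 - E))) := by
  have h1 := front_mono hc hcd p (a := Γ * B) (by linarith)
  have e1 : Real.exp (-(Γ * (B / c ^ 2 - E))) = Real.exp (-(Γ * B / c ^ 2)) * Real.exp (Γ * E) := by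
    rw [← Real.exp_add]; congr 1; ring
  have e2 : Real.exp (-(Γ * (B / d ^ 2 - E))) = Real.exp (-(Γ * B / d ^ 2)) * Real.exp (Γ * E) := by
    rw [← Real.exp_add]; congr 1; ring
  rw [e1, e2, ← mul_assoc, ← mul_assoc]
  exact mul_le_mul_of_nonneg_right h1 (Real.exp_pos _).le

/-- front coefficient `a_f = (μ - (23/32) ν)/μ²` -/
noncomputable def Lf (μ ν : ℝ) : ℝ := (μ - 23 / 32 * ν) / μ ^ 2

/-- front, `F0` -/
noncomputable def LF0 (μ q g c ν h τ Γ : ℝ) : ℝ :=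
  √(q * (1 + c ^ 2 / μ ^ 2) / (2 * Lf μ ν)) / 2 * (1 / c) *
    Real.exp (-(Γ * ((1 + τ) ^ 2 * bq ((1 + τ) * h) / c ^ 2 - g / 2 * τ ^ 2)))

/-- front, `W R/h²` times `c²` -/
noncomputable def LFW (μ c ν τ Γ : ℝ) : ℝ :=
  (1 + τ) ^ 2 + 2 * (1 + τ) * √(ν / (Γ * Lf μ ν) * (1 / Real.pi)) +
    (1 + 9 / 8 * (c ^ 2 / μ ^ 2)) * (ν / (Γ * Lf μ ν)) / 2

/-- the front part: upper bounds of `F0` and of `F0 W/c²` -/
def xf (P : Par) (C : Cl) (b : I) (G : ℕ) : Option (ℕ × ℕ) :=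
  let f := mL (mL (P.M.1 - mU C.n.2 790273982464) P.N.1) P.N.1
  let a0 := mL (mL C.t1.1 C.t1.1) b.1
  let d2 := mU C.c.2 C.c.2
  let e2 := mU (mU C.u.2 C.u.2) P.g.2
  let x := dL a0 d2
  let Vn := SC + mU C.c2.2 (mU P.N.2 P.N.2)
  let w := dU C.n.2 (mL G f)
  bif Nat.blt 0 f && Nat.blt 0 (mL G f) && Nat.blt 0 C.c.2 && Nat.ble (3 * d2) (2 * mL G a0) &&
      Nat.ble (mU C.n.2 790273982464) P.M.1 && Nat.ble e2 x then
    let S := sqU (mU P.q.2 (dU Vn f) / 2 + 1) / 2 + 1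
    let i1 := dU SC C.c.2
    let E := eN (mL G (x - e2))
    let W := mU C.t1.2 C.t1.2 + 2 * mU C.t1.2 (sqU (mU w 350008700000)) + (mU (Vn + (Vn - SC) / 8 + 1) w / 2 + 1)
    some (mU (mU S i1) E, mU (mU (mU S (mU i1 (mU i1 i1))) E) W)
  else none

theorem half_up {x : ℝ} {a : ℕ} (h : x ≤ fx a) : x / 2 ≤ fx (a / 2 + 1) := by
  have h1 := fx_divU a 2 (by norm_num)
  push_cast at h1
  linarith

theorem two_up {x : ℝ} {a : ℕ} (h : x ≤ fx a) : 2 * x ≤ fx (2 * a) := by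
  rw [two_mul, two_mul, fx_add]
  linarith

theorem xf_sound {P : Par} {μ q g kk c ν h τ Γ : ℝ} (hP : P.Ok μ q g kk) {C : Cl}
    (hC : C.Has μ c ν h τ) {b : I} {G : ℕ} (hb : Mem (bq ((1 + τ) * h)) b)
    (hG : fx G ≤ Γ) (hc : 0 < c) (hν : 0 < ν) (hτ : 0 ≤ τ)
    {a a' : ℕ} (hx : xf P C b G = some (a, a')) :
    LF0 μ q g c ν h τ Γ ≤ fx a ∧ LF0 μ q g c ν h τ Γ * (LFW μ c ν τ Γ / c ^ 2) ≤ fx a' := by
  have hμ := hP.pos
  have hμ1 := hP.le
  unfold xf at hx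
  simp only at hx
  obtain ⟨f, hfe⟩ : ∃ f, f = mL (mL (P.M.1 - mU C.n.2 790273982464) P.N.1) P.N.1 := ⟨_, rfl⟩
  obtain ⟨a0, ha0⟩ : ∃ a0, a0 = mL (mL C.t1.1 C.t1.1) b.1 := ⟨_, rfl⟩
  obtain ⟨d2, hd2⟩ : ∃ d2, d2 = mU C.c.2 C.c.2 := ⟨_, rfl⟩
  obtain ⟨e2, he2⟩ : ∃ e2, e2 = mU (mU C.u.2 C.u.2) P.g.2 := ⟨_, rfl⟩
  rw [← hfe, ← ha0, ← hd2, ← he2] at hx
  obtain ⟨x, hxe⟩ : ∃ x, x = dL a0 d2 := ⟨_, rfl⟩
  obtain ⟨Vn, hVn⟩ : ∃ Vn, Vn = SC + mU C.c2.2 (mU P.N.2 P.N.2) := ⟨_, rfl⟩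
  obtain ⟨w, hw⟩ : ∃ w, w = dU C.n.2 (mL G f) := ⟨_, rfl⟩
  rw [← hxe, ← hVn, ← hw] at hx
  cases hbb : (Nat.blt 0 f && Nat.blt 0 (mL G f) && Nat.blt 0 C.c.2 &&
      Nat.ble (3 * d2) (2 * mL G a0) && Nat.ble (mU C.n.2 790273982464) P.M.1 && Nat.ble e2 x) with
  | false => rw [hbb] at hx; simp at hx
  | true =>
    rw [hbb] at hx
    simp only [cond_true, Option.some.injEq, Prod.mk.injEq] at hx
    obtain ⟨ha, ha'⟩ := hx
    simp only [Bool.and_eq_true, blt_iff, Nat.ble_eq] at hbb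
    obtain ⟨⟨⟨⟨⟨hf0, hGf⟩, hc1⟩, h3⟩, hnM⟩, he⟩ := hbb
    -- f
    obtain ⟨F, hF⟩ : ∃ F, F = Lf μ ν := ⟨_, rfl⟩
    have hfF : fx f ≤ F := by
      rw [hfe, hF]
      have k1 : (23 / 32 : ℝ) ≤ fx 790273982464 := by unfold fx; norm_num
      have k2 : ν * (23 / 32) ≤ fx (mU C.n.2 790273982464) := mulU hC.hn.2 k1 (by norm_num)
      have k3 := subL hP.hM.1 k2 hnM
      have k4 := mulL (mulL k3 hP.hN.1) hP.hN.1
      refine k4.trans (le_of_eq ?_)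
      unfold Lf
      field_simp
    have hF0 : 0 < F := (fx_pos hf0).trans_le hfF
    have hGpos : 0 < G := by
      rcases Nat.eq_zero_or_pos G with h0 | h0
      · rw [h0] at hGf; simp [mL] at hGf
      · exact h0
    have hΓ0 : 0 < Γ := (fx_pos hGpos).trans_le hG
    obtain ⟨D, hD⟩ : ∃ D, D = fx C.c.2 := ⟨_, rfl⟩
    have hcD : c ≤ D := by rw [hD]; exact hC.hc.2
    have hD0 : 0 < D := by rw [hD]; exact fx_pos hc1
    obtain ⟨B, hB⟩ : ∃ B, B = (1 + τ) ^ 2 * bq ((1 + τ) * h) := ⟨_, rfl⟩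
    have hB1 : fx a0 ≤ B := by
      rw [ha0, hB, pow_two]
      exact mulL (mulL hC.ht1.1 hC.ht1.1) hb.1
    have hD2 : D ^ 2 ≤ fx d2 := by
      rw [hd2, hD, pow_two]
      exact le_mU _ _
    have hGa : fx (mL G a0) ≤ Γ * B := mulL hG hB1
    have hcond : (3 : ℝ) * D ^ 2 ≤ 2 * fx (mL G a0) := by
      have k1 : fx (3 * d2) ≤ fx (2 * mL G a0) := fx_mono h3
      have k2 : fx (3 * d2) = 3 * fx d2 := by unfold fx; push_cast; ring
      have k3 : fx (2 * mL G a0) = 2 * fx (mL G a0) := by unfold fx; push_cast; ring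
      rw [k2, k3] at k1
      linarith
    have m3 := front_mono' (E := g / 2 * τ ^ 2) hc hcD 3 hGa (by push_cast; exact hcond)
    have m1 := front_mono' (E := g / 2 * τ ^ 2) hc hcD 1 hGa (by
      push_cast; nlinarith [sq_nonneg D])
    -- exponent
    have hE2 : g / 2 * τ ^ 2 ≤ fx e2 := by
      rw [he2, mul_comm]
      have h1 := mulU hC.hu.2 hC.hu.2 hτ
      have hg0 : 0 ≤ g / 2 := (fx_nonneg _).trans hP.hg.1
      have h2 := mulU h1 hP.hg.2 hg0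
      rwa [pow_two]
    have hx1 : fx x ≤ B / D ^ 2 := by
      rw [hxe]
      exact divL hB1 hD2 (by positivity)
    have hE := expNegU (mulL hG (subL hx1 hE2 he))
    have hi1 : 1 / D ≤ fx (dU SC C.c.2) := by
      rw [hD]; exact divU (le_of_eq fx_one.symm) le_rfl hc1
    -- square root
    have hVn1 : 1 + c ^ 2 / μ ^ 2 ≤ fx Vn := by
      rw [hVn]
      refine addU (le_of_eq fx_one.symm) ?_
      have h2 := mulU hC.hc2.2 (mulU hP.hN.2 hP.hN.2 (by positivity)) (by positivity)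
      refine le_trans (le_of_eq ?_) h2
      field_simp
    have hq0 : 0 ≤ q := hP.hq.nonneg
    have hS : √(q * (1 + c ^ 2 / μ ^ 2) / (2 * F)) / 2 ≤ fx (sqU (mU P.q.2 (dU Vn f) / 2 + 1) / 2 + 1) := by
      apply half_up
      apply sqrtU
      have k1 := half_up (mulU hP.hq.2 (divU hVn1 hfF hf0) (by positivity))
      refine le_trans (le_of_eq ?_) k1
      field_simp
    have hw1 : ν / (Γ * F) ≤ fx w := by
      rw [hw]
      exact divU hC.hn.2 (mulL hG hfF) hGf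
    have hW : LFW μ c ν τ Γ ≤
        fx (mU C.t1.2 C.t1.2 + 2 * mU C.t1.2 (sqU (mU w 350008700000)) +
          (mU (Vn + (Vn - SC) / 8 + 1) w / 2 + 1)) := by
      have hV8 : 1 + 9 / 8 * (c ^ 2 / μ ^ 2) ≤ fx (Vn + (Vn - SC) / 8 + 1) := by
        have k1 : c ^ 2 / μ ^ 2 ≤ fx (Vn - SC) := by
          have := subU hVn1 (le_of_eq fx_one)
          linarith
        have k2 := fx_divU (Vn - SC) 8 (by norm_num)
        push_cast at k2
        rw [Nat.add_assoc, fx_add]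
        linarith
      unfold LFW
      rw [← hF]
      refine addU (addU ?_ ?_) ?_
      · rw [pow_two]; exact mulU hC.ht1.2 hC.ht1.2 (by positivity)
      · have k1 := mulU hC.ht1.2 (sqrtU (mulU hw1 inv_pi_le (by positivity))) (Real.sqrt_nonneg _)
        have k2 := two_up k1
        rw [← mul_assoc] at k2
        exact k2
      · exact half_up (mulU hV8 hw1 (by positivity))
    have hW0 : 0 ≤ LFW μ c ν τ Γ := by
      unfold LFW
      rw [← hF]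
      positivity
    have e0 : LF0 μ q g c ν h τ Γ = √(q * (1 + c ^ 2 / μ ^ 2) / (2 * F)) / 2 *
        ((1 / c) ^ 1 * Real.exp (-(Γ * (B / c ^ 2 - g / 2 * τ ^ 2)))) := by
      unfold LF0
      rw [← hF, ← hB]
      ring
    constructor
    · rw [← ha, e0]
      have k1 := mulU (mulU hS hi1 (by positivity)) hE (Real.exp_pos _).le
      refine le_trans ?_ k1
      rw [mul_assoc]
      refine mul_le_mul_of_nonneg_left ?_ (by positivity)
      rw [pow_one, pow_one] at m1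
      rw [pow_one]
      exact m1
    · rw [← ha', e0]
      have k1 := mulU (mulU (mulU hS (mulU hi1 (mulU hi1 hi1 (by positivity)) (by positivity))
        (by positivity)) hE (Real.exp_pos _).le) hW hW0
      refine le_trans ?_ k1
      have e1 : √(q * (1 + c ^ 2 / μ ^ 2) / (2 * F)) / 2 *
          ((1 / c) ^ 1 * Real.exp (-(Γ * (B / c ^ 2 - g / 2 * τ ^ 2)))) * (LFW μ c ν τ Γ / c ^ 2) =
          √(q * (1 + c ^ 2 / μ ^ 2) / (2 * F)) / 2 * ((1 / c) ^ 3 *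
            Real.exp (-(Γ * (B / c ^ 2 - g / 2 * τ ^ 2)))) * LFW μ c ν τ Γ := by
        ring
      rw [e1]
      refine mul_le_mul_of_nonneg_right ?_ hW0
      have e2 : 1 / D * (1 / D * (1 / D)) = (1 / D) ^ 3 := by ring
      rw [e2, mul_assoc]
      exact mul_le_mul_of_nonneg_left m3 (by positivity)

/-! ### behind -/

/-- `T2 = (t + 6/5) c/μ` -/
noncomputable def LT2 (μ c h τ : ℝ) : ℝ := ((1 + τ) * h + 6 / 5) * c / μ

/-- `Qb` -/
noncomputable def LQb (μ c ν h τ : ℝ) : ℝ :=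
  La μ ν (LT2 μ c h τ) * c ^ 2 + ν * (11 / 25 * Real.exp (-(LT2 μ c h τ)))

/-- behind, `H0` -/
noncomputable def LB0 (μ q g c ν h τ Γ : ℝ) : ℝ :=
  √(q * (1 + c ^ 2 / μ ^ 2) / (2 * LQb μ c ν h τ)) / 2 *
    Real.exp (-(Γ * ((1 + τ) ^ 2 * (La μ ν (LT2 μ c h τ) / ν) - g / 2 * τ ^ 2)))

/-- behind, `W R/h²` -/
noncomputable def LBW (μ c ν h τ Γ : ℝ) : ℝ :=
  (1 + τ) ^ 2 / μ ^ 2 + 2 * (1 + τ) * (c / μ ^ 2 * √(ν / (Γ * LQb μ c ν h τ) * (1 / Real.pi))) +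
    (1 + c ^ 2 / μ ^ 2) * (ν / (Γ * LQb μ c ν h τ)) / 2

/-- the part behind: upper bounds of `H0` and `W` -/
def xh (P : Par) (C : Cl) (G : ℕ) : Option (ℕ × ℕ) :=
  let T := im (im (ia C.t (ic 6 5)) C.c) P.N
  let a := xa P C.n T
  let Q := ia (im a C.c2) (im C.n (im (ic 11 25) (ien T)))
  let e2 := mU (mU C.u.2 C.u.2) P.g.2
  let x := mL (mL C.t1.1 C.t1.1) (dL a.1 C.n.2)
  let Vn := SC + mU C.c2.2 (mU P.N.2 P.N.2)
  let w := dU C.n.2 (mL G Q.1)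
  let N2 := mU P.N.2 P.N.2
  bif Nat.blt 0 Q.1 && Nat.blt 0 (mL G Q.1) && Nat.blt 0 C.n.2 && Nat.ble e2 x then
    some (mU (sqU (mU P.q.2 (dU Vn Q.1) / 2 + 1) / 2 + 1) (eN (mL G (x - e2))),
      mU (mU C.t1.2 C.t1.2) N2 + 2 * mU C.t1.2 (mU (mU C.c.2 N2) (sqU (mU w 350008700000))) +
        (mU Vn w / 2 + 1))
  else none

theorem xh_sound {P : Par} {μ q g kk c ν h τ Γ : ℝ} (hP : P.Ok μ q g kk) {C : Cl}
    (hC : C.Has μ c ν h τ) {G : ℕ}
    (hG : fx G ≤ Γ) (hc : 0 < c) (hν : 0 < ν) (hτ : 0 ≤ τ) (hν1 : ν ≤ 1)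
    {a a' : ℕ} (hx : xh P C G = some (a, a')) :
    LB0 μ q g c ν h τ Γ ≤ fx a ∧ LBW μ c ν h τ Γ ≤ fx a' := by
  have hμ := hP.pos
  have hμ1 := hP.le
  unfold xh at hx
  simp only at hx
  obtain ⟨T, hTe⟩ : ∃ T, T = im (im (ia C.t (ic 6 5)) C.c) P.N := ⟨_, rfl⟩
  rw [← hTe] at hx
  obtain ⟨α, hα⟩ : ∃ α, α = xa P C.n T := ⟨_, rfl⟩
  rw [← hα] at hx
  obtain ⟨Q, hQe⟩ : ∃ Q, Q = ia (im α C.c2) (im C.n (im (ic 11 25) (ien T))) := ⟨_, rfl⟩
  obtain ⟨e2, he2⟩ : ∃ e2, e2 = mU (mU C.u.2 C.u.2) P.g.2 := ⟨_, rfl⟩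
  obtain ⟨x, hxe⟩ : ∃ x, x = mL (mL C.t1.1 C.t1.1) (dL α.1 C.n.2) := ⟨_, rfl⟩
  obtain ⟨Vn, hVn⟩ : ∃ Vn, Vn = SC + mU C.c2.2 (mU P.N.2 P.N.2) := ⟨_, rfl⟩
  rw [← hQe, ← he2, ← hxe, ← hVn] at hx
  obtain ⟨w, hw⟩ : ∃ w, w = dU C.n.2 (mL G Q.1) := ⟨_, rfl⟩
  rw [← hw] at hx
  cases hbb : (Nat.blt 0 Q.1 && Nat.blt 0 (mL G Q.1) && Nat.blt 0 C.n.2 && Nat.ble e2 x) with
  | false => rw [hbb] at hx; simp at hx
  | true =>
    rw [hbb] at hx
    simp only [cond_true, Option.some.injEq, Prod.mk.injEq] at hx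
    obtain ⟨ha, ha'⟩ := hx
    simp only [Bool.and_eq_true, blt_iff, Nat.ble_eq] at hbb
    obtain ⟨⟨⟨hQ0, hGQ⟩, hn0⟩, he⟩ := hbb
    have hT : Mem (LT2 μ c h τ) T := by
      have k1 := ((hC.ht.add (Mem.const 6 5 (by norm_num))).mul hC.hc).mul hP.hN
      rw [hTe]
      unfold LT2
      rw [mul_one_div] at k1
      exact_mod_cast k1
    obtain ⟨t2, ht2⟩ : ∃ t2, t2 = LT2 μ c h τ := ⟨_, rfl⟩
    rw [← ht2] at hT
    obtain ⟨A, hA⟩ : ∃ A, A = La μ ν t2 := ⟨_, rfl⟩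
    have hmA : Mem A α := by rw [hA, hα]; exact mem_xa hP hC.hn hT hν1
    have hmQ : Mem (A * c ^ 2 + ν * (11 / 25 * Real.exp (-t2))) Q := by
      rw [hQe]
      have k1 := (hmA.mul hC.hc2).add (hC.hn.mul ((Mem.const 11 25 (by norm_num)).mul hT.expn))
      exact_mod_cast k1
    have hA0 : 0 ≤ A := hmA.nonneg
    have hQr : 0 < A * c ^ 2 + ν * (11 / 25 * Real.exp (-t2)) := by positivity
    obtain ⟨R, hR⟩ : ∃ R, R = A * c ^ 2 + ν * (11 / 25 * Real.exp (-t2)) := ⟨_, rfl⟩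
    rw [← hR] at hmQ hQr
    have hGpos : 0 < G := by
      rcases Nat.eq_zero_or_pos G with h0 | h0
      · rw [h0] at hGQ; simp [mL] at hGQ
      · exact h0
    have hΓ0 : 0 < Γ := (fx_pos hGpos).trans_le hG
    have hE2 : g / 2 * τ ^ 2 ≤ fx e2 := by
      rw [he2, mul_comm]
      have h1 := mulU hC.hu.2 hC.hu.2 hτ
      have hg0 : 0 ≤ g / 2 := (fx_nonneg _).trans hP.hg.1
      have h2 := mulU h1 hP.hg.2 hg0
      rwa [pow_two]
    have hx1 : fx x ≤ (1 + τ) ^ 2 * (A / ν) := by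
      rw [hxe, pow_two]
      exact mulL (mulL hC.ht1.1 hC.ht1.1) (divL hmA.1 hC.hn.2 hν)
    have hE := expNegU (mulL hG (subL hx1 hE2 he))
    have hVn1 : 1 + c ^ 2 / μ ^ 2 ≤ fx Vn := by
      rw [hVn]
      refine addU (le_of_eq fx_one.symm) ?_
      have h2 := mulU hC.hc2.2 (mulU hP.hN.2 hP.hN.2 (by positivity)) (by positivity)
      refine le_trans (le_of_eq ?_) h2
      field_simp
    have hq0 : 0 ≤ q := hP.hq.nonneg
    have hS : √(q * (1 + c ^ 2 / μ ^ 2) / (2 * R)) / 2 ≤ fx (sqU (mU P.q.2 (dU Vn Q.1) / 2 + 1) / 2 + 1) := by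
      apply half_up
      apply sqrtU
      have k1 := half_up (mulU hP.hq.2 (divU hVn1 hmQ.1 hQ0) (by positivity))
      refine le_trans (le_of_eq ?_) k1
      field_simp
    have hw1 : ν / (Γ * R) ≤ fx w := by
      rw [hw]
      exact divU hC.hn.2 (mulL hG hmQ.1) hGQ
    constructor
    · rw [← ha]
      have k1 := mulU hS hE (Real.exp_pos _).le
      refine le_trans (le_of_eq ?_) k1
      unfold LB0 LQb
      rw [← ht2, ← hA, ← hR]
    · rw [← ha']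
      unfold LBW LQb
      rw [← ht2, ← hA, ← hR]
      have hN2 : 1 / μ ^ 2 ≤ fx (mU P.N.2 P.N.2) := by
        have k1 := mulU hP.hN.2 hP.hN.2 (by positivity)
        refine le_trans (le_of_eq ?_) k1
        field_simp
      refine addU (addU ?_ ?_) ?_
      · have k1 := mulU (mulU hC.ht1.2 hC.ht1.2 (by positivity)) hN2 (by positivity)
        refine le_trans (le_of_eq ?_) k1
        field_simp
      · have k1 := mulU hC.ht1.2 (mulU (mulU hC.hc.2 hN2 (by positivity))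
          (sqrtU (mulU hw1 inv_pi_le (by positivity))) (Real.sqrt_nonneg _)) (by positivity)
        have k2 := two_up k1
        refine le_trans (le_of_eq ?_) k2
        ring
      · exact half_up (mulU hVn1 hw1 (by positivity))

end SokalCel
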