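import Pool.Agent.Lib_MP_af4de1_v3.CelL2

/-!
# Cells: the image of a left wave (it arrives from the right side), `t' = 2π - t`, `x = t'/h`
-/

set_option autoImplicit false

namespace SokalCel

open SokalFN

/-- clamp of an exponent -/
def cl (a : ℕ) : ℕ := min a 70368744177664

theorem expCl {y : ℝ} {a : ℕ} (h : fx a ≤ y) : Real.exp (-y) ≤ fx (eN (cl a)) :=
  expNegU ((fx_mono (min_le_left _ _)).trans h)

/-- `x^p e^(-Γ (Z x² - E))` is decreasing -/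
theorem img_mono {x x0 Γ Z E : ℝ} (hx0 : 0 < x0) (hx : x0 ≤ x) (p : ℕ)
    (h : p ≤ 2 * (Γ * Z * x0 ^ 2)) :
    x ^ p * Real.exp (-(Γ * (Z * x ^ 2 - E))) ≤ x0 ^ p * Real.exp (-(Γ * (Z * x0 ^ 2 - E))) := by
  have hx' : 0 < x := hx0.trans_le hx
  have h1 := front_mono' (c := 1 / x) (d := 1 / x0) (a := Γ * Z) (Γ := Γ) (B := Z) (E := E)
    (by positivity) (one_div_le_one_div_of_le hx0 hx) p le_rfl (by
      rw [one_div, inv_pow, ← div_eq_mul_inv, div_le_iff₀ (by positivity)]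
      linarith)
  simp only [one_div_one_div] at h1
  have e1 : Z / (1 / x) ^ 2 = Z * x ^ 2 := by field_simp
  have e2 : Z / (1 / x0) ^ 2 = Z * x0 ^ 2 := by field_simp
  rwa [e1, e2] at h1

/-- `ν` times the quadratic coefficient over `c²`, right side -/
noncomputable def Lr (μ ν T : ℝ) : ℝ :=
  (μ - ν * ((1 + min 1 T / 3 + 5 * min 1 T ^ 2 / 48) / 2)) / μ ^ 2 / max 1 T

/-- interval of `(1 + min 1 T/3 + 5 (min 1 T)²/48)/2` -/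
def xs (T : I) : I :=
  let m := imn (SC, SC) T
  let s := im (ia (ia (SC, SC) (im m (ic 1 3))) (im (im m m) (ic 5 48))) (ic 1 2)
  s

theorem mem_xs {T : ℝ} {t : I} (hT : Mem T t) :
    Mem ((1 + min 1 T / 3 + 5 * min 1 T ^ 2 / 48) / 2) (xs t) := by
  have h1 := Mem.one.min hT
  have h2 := ((Mem.one.add (h1.mul (Mem.const 1 3 (by norm_num)))).add
    ((h1.mul h1).mul (Mem.const 5 48 (by norm_num)))).mul (Mem.const 1 2 (by norm_num))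
  have e : (1 + min 1 T / 3 + 5 * min 1 T ^ 2 / 48) / 2 =
      (1 + min 1 T * (((1 : ℕ) : ℝ) / ((3 : ℕ) : ℝ)) +
        min 1 T * min 1 T * (((5 : ℕ) : ℝ) / ((48 : ℕ) : ℝ))) * (((1 : ℕ) : ℝ) / ((2 : ℕ) : ℝ)) := by
    push_cast
    ring
  rw [e]
  exact h2

/-- interval of `Lr` -/
def xr (P : Par) (n T : I) : I :=
  im (im (im (is' P.M (im n (xs T))) P.N) P.N) (id' (SC, SC) (imx (SC, SC) T))

theorem mem_xr {P : Par} {μ q g kk ν T : ℝ} {n t : I} (hP : P.Ok μ q g kk) (hn : Mem ν n)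
    (hT : Mem T t) (hν : ν ≤ 1) (hT0 : 0 ≤ T) : Mem (Lr μ ν T) (xr P n t) := by
  have hm0 : 0 ≤ min 1 T := le_min zero_le_one hT0
  have hm1 : min 1 T ≤ 1 := min_le_left _ _
  have hs : (1 + min 1 T / 3 + 5 * min 1 T ^ 2 / 48) / 2 ≤ 1 := by nlinarith
  have hs0 : 0 ≤ (1 + min 1 T / 3 + 5 * min 1 T ^ 2 / 48) / 2 := by positivity
  have hν0 := hn.nonneg
  have hle : ν * ((1 + min 1 T / 3 + 5 * min 1 T ^ 2 / 48) / 2) ≤ μ := by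
    have h1 := mul_le_mul hν hs hs0 zero_le_one
    have := hP.le
    linarith
  have h1 := ((hP.hM.sub (hn.mul (mem_xs hT)) hle).mul hP.hN).mul hP.hN
  have h2 := Mem.one.div (Mem.one.max hT) (b := imx (SC, SC) t) (by
    show 0 < max SC t.1
    exact lt_of_lt_of_le (by norm_num) (le_max_left _ _))
  have h3 := h1.mul h2
  have e : Lr μ ν T = (μ - ν * ((1 + min 1 T / 3 + 5 * min 1 T ^ 2 / 48) / 2)) * (1 / μ) * (1 / μ) *
      (1 / max 1 T) := by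
    unfold Lr
    have := hP.pos
    have h4 : (0 : ℝ) < max 1 T := lt_max_of_lt_left one_pos
    field_simp
  rw [e]
  exact h3

/-- `t'` -/
noncomputable def Ltp (h τ : ℝ) : ℝ := 2 * Real.pi - (1 + τ) * h

/-- `(t' + 6/5) c/μ` -/
noncomputable def LT3 (μ c h τ : ℝ) : ℝ := (Ltp h τ + 6 / 5) * c / μ

/-- `Qi` -/
noncomputable def LQi (μ c ν T : ℝ) : ℝ := Lr μ ν T * c ^ 2 + ν * (11 / 25)

/-- image, main part, `I0` -/
noncomputable def LI0 (μ q g c ν h τ Γ : ℝ) : ℝ :=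
  √(q * (1 + c ^ 2 / μ ^ 2) / (2 * LQi μ c ν (Ltp h τ * c / μ))) *
    Real.exp (-(Γ * (1 / (c ^ 2 / (11 / 25) + ν / Lr μ ν (Ltp h τ * c / μ)) * (Ltp h τ / h) ^ 2 -
      g / 2 * τ ^ 2)))

/-- `e^T'`, part behind -/
noncomputable def Le (μ c h τ : ℝ) : ℝ := Real.exp (min 1 (LT3 μ c h τ))

/-- `e^T`, main part -/
noncomputable def Le1 (μ c h τ : ℝ) : ℝ := Real.exp (min 1 (Ltp h τ * c / μ))

/-- image, main part, weight (with `e1 ≤ (1 + e^T')/2`) -/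
noncomputable def LIW (μ c ν h τ Γ : ℝ) : ℝ :=
  (Ltp h τ / h) ^ 2 * (((1 + Le1 μ c h τ) / 2) ^ 2 / μ ^ 2 *
      (ν * (11 / 25) / LQi μ c ν (Ltp h τ * c / μ)) ^ 2 +
    Le1 μ c h τ * (Lr μ ν (Ltp h τ * c / μ) * c / LQi μ c ν (Ltp h τ * c / μ)) ^ 2) +
  (((1 + Le1 μ c h τ) / 2) ^ 2 / μ ^ 2 * c ^ 2 + Le1 μ c h τ) *
    (ν / (Γ * LQi μ c ν (Ltp h τ * c / μ))) / 2

/-- image, part behind, `H0` -/
noncomputable def LJ0 (μ q g c ν h τ Γ : ℝ) : ℝ :=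
  √(q * (1 + c ^ 2 / μ ^ 2) / (2 * LQi μ c ν (LT3 μ c h τ))) / 2 *
    Real.exp (-(Γ * (Lr μ ν (LT3 μ c h τ) / ν * (Ltp h τ / h) ^ 2 - g / 2 * τ ^ 2)))

/-- image, part behind, weight -/
noncomputable def LJW (μ c ν h τ Γ : ℝ) : ℝ :=
  ((1 + Le μ c h τ) / 2) ^ 2 / μ ^ 2 * ((Ltp h τ / h) ^ 2 + 2 * (Ltp h τ / h) *
      (c * √(ν / (Γ * LQi μ c ν (LT3 μ c h τ)) * (1 / Real.pi)))) +
  (((1 + Le μ c h τ) / 2) ^ 2 / μ ^ 2 * c ^ 2 + Le μ c h τ) *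
    (ν / (Γ * LQi μ c ν (LT3 μ c h τ))) / 2

/-- the image: upper bounds of `I0 + H0`, `I0 W + H0 W`, `e^T I0 + e^T' H0` -/
def xi (P : Par) (C : Cl) (G : ℕ) : Option (ℕ × ℕ × ℕ) :=
  let tp : I := (6908231557316 - C.t.2, 6908451460481 - C.t.1)
  let T := im (im tp C.c) P.N
  let T3 := im (im (ia tp (ic 6 5)) C.c) P.N
  let a := xr P C.n T
  let a3 := xr P C.n T3
  let Q := ia (im a C.c2) (im C.n (ic 11 25))
  let Q3 := ia (im a3 C.c2) (im C.n (ic 11 25))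
  let Y := ia (id' C.c2 (ic 11 25)) (id' C.n a)
  let Z := dL SC Y.2
  let Z3 := dL a3.1 C.n.2
  let e2 := mU (mU C.u.2 C.u.2) P.g.2
  let x0 := dL tp.1 C.h.2
  let y := mL Z (mL x0 x0)
  let y3 := mL Z3 (mL x0 x0)
  let N2 := mU P.N.2 P.N.2
  let Vn := SC + mU C.c2.2 N2
  let e := dU SC (eNL (min SC T3.2))
  let f := dU SC (eNL (min SC T.2))
  let w := dU C.n.2 (mL G Q.1)
  let w3 := dU C.n.2 (mL G Q3.1)
  let o := mU (mU ((SC + e) / 2 + 1) ((SC + e) / 2 + 1)) N2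
  let v := mU (mU ((SC + f) / 2 + 1) ((SC + f) / 2 + 1)) N2
  bif Nat.blt 0 a.1 && Nat.blt 0 Q.1 && Nat.blt 0 Q3.1 && Nat.blt 0 (mL G Q.1) && Nat.blt 0 (mL G Q3.1) &&
      Nat.blt 0 Y.1 && Nat.blt 0 C.n.2 && Nat.blt 0 C.h.2 && Nat.blt 0 x0 &&
      Nat.ble SC (mL G y) && Nat.ble SC (mL G y3) && Nat.ble e2 y && Nat.ble e2 y3 &&
      Nat.blt 0 (eNL (min SC T3.2)) && Nat.blt 0 (eNL (min SC T.2)) && Nat.ble C.t.2 6908231557316 then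
    let I0 := mU (sqU (mU P.q.2 (dU Vn Q.1) / 2 + 1)) (eN (cl (mL G (y - e2))))
    let J0 := mU (sqU (mU P.q.2 (dU Vn Q3.1) / 2 + 1) / 2 + 1) (eN (cl (mL G (y3 - e2))))
    let l := dU (mU C.n.2 (ic 11 25).2) Q.1
    let k := dU (mU a.2 C.c.2) Q.1
    let IW := mU (mU x0 x0) (mU v (mU l l) + mU f (mU k k)) + (mU (mU v C.c2.2 + f) w / 2 + 1)
    let JW := mU o (mU x0 x0 + mU (2 * x0) (mU C.c.2 (sqU (mU w3 350008700000)))) +
      (mU (mU o C.c2.2 + e) w3 / 2 + 1)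
    some (I0 + J0, mU I0 IW + mU J0 JW, mU f I0 + mU e J0)
  else none


theorem two_pi_lo : fx 6908231557316 ≤ 2 * Real.pi := by
  have h := Real.pi_gt_d4
  unfold fx
  linarith

theorem two_pi_hi : 2 * Real.pi ≤ fx 6908451460481 := by
  have h := Real.pi_lt_d4
  unfold fx
  linarith

/-- `Γ (Z x² - E)`-Gaussian with a quadratic weight, decreasing in `x` -/
theorem img_bound {x X Γ Z E w2 w1 w0 : ℝ} (hX : 0 < X) (hx : X ≤ x)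
    (h : 1 ≤ Γ * (Z * X ^ 2)) (h2 : 0 ≤ w2) (h1 : 0 ≤ w1) (h0 : 0 ≤ w0) :
    (w2 * x ^ 2 + w1 * x + w0) * Real.exp (-(Γ * (Z * x ^ 2 - E))) ≤
      (w2 * X ^ 2 + w1 * X + w0) * Real.exp (-(Γ * (Z * X ^ 2 - E))) := by
  have m2 := img_mono (Γ := Γ) (Z := Z) (E := E) hX hx 2 (by push_cast; nlinarith)
  have m1 := img_mono (Γ := Γ) (Z := Z) (E := E) hX hx 1 (by push_cast; nlinarith)
  have m0 := img_mono (Γ := Γ) (Z := Z) (E := E) hX hx 0 (by push_cast; nlinarith)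
  simp only [pow_zero, one_mul, pow_one] at m0 m1
  have k2 := mul_le_mul_of_nonneg_left m2 h2
  have k1 := mul_le_mul_of_nonneg_left m1 h1
  have k0 := mul_le_mul_of_nonneg_left m0 h0
  nlinarith

theorem xi_sound {P : Par} {μ q g kk c ν h τ Γ : ℝ} (hP : P.Ok μ q g kk) {C : Cl}
    (hC : C.Has μ c ν h τ) {G : ℕ}
    (hG : fx G ≤ Γ) (hc : 0 < c) (hν : 0 < ν) (hh : 0 < h) (hτ : 0 ≤ τ) (hν1 : ν ≤ 1)
    (htp : (1 + τ) * h ≤ Real.pi)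
    {a0 a1 a2 : ℕ} (hx : xi P C G = some (a0, a1, a2)) :
    LI0 μ q g c ν h τ Γ + LJ0 μ q g c ν h τ Γ ≤ fx a0 ∧
    LI0 μ q g c ν h τ Γ * LIW μ c ν h τ Γ + LJ0 μ q g c ν h τ Γ * LJW μ c ν h τ Γ ≤ fx a1 ∧
    Le1 μ c h τ * LI0 μ q g c ν h τ Γ + Le μ c h τ * LJ0 μ q g c ν h τ Γ ≤ fx a2 := by
  have hμ := hP.pos
  have hμ1 := hP.le
  have hpi := Real.pi_pos
  unfold xi at hx
  simp only at hx
  obtain ⟨tp, htpe⟩ : ∃ tp : I, tp = (6908231557316 - C.t.2, 6908451460481 - C.t.1) := ⟨_, rfl⟩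
  rw [show (6908231557316 - C.t.2, 6908451460481 - C.t.1) = tp from htpe.symm] at hx
  rw [show (6908231557316 - C.t.2 : ℕ) = tp.1 by rw [htpe]] at hx
  obtain ⟨T, hTe⟩ : ∃ T, T = im (im tp C.c) P.N := ⟨_, rfl⟩
  obtain ⟨T3, hT3e⟩ : ∃ T3, T3 = im (im (ia tp (ic 6 5)) C.c) P.N := ⟨_, rfl⟩
  rw [← hTe, ← hT3e] at hx
  obtain ⟨a, hae⟩ : ∃ a, a = xr P C.n T := ⟨_, rfl⟩
  obtain ⟨a3, ha3e⟩ : ∃ a3, a3 = xr P C.n T3 := ⟨_, rfl⟩
  rw [← hae, ← ha3e] at hx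
  obtain ⟨Q, hQe⟩ : ∃ Q, Q = ia (im a C.c2) (im C.n (ic 11 25)) := ⟨_, rfl⟩
  obtain ⟨Q3, hQ3e⟩ : ∃ Q3, Q3 = ia (im a3 C.c2) (im C.n (ic 11 25)) := ⟨_, rfl⟩
  obtain ⟨Y, hYe⟩ : ∃ Y, Y = ia (id' C.c2 (ic 11 25)) (id' C.n a) := ⟨_, rfl⟩
  rw [← hQe, ← hQ3e, ← hYe] at hx
  obtain ⟨Z, hZe⟩ : ∃ Z, Z = dL SC Y.2 := ⟨_, rfl⟩
  obtain ⟨Z3, hZ3e⟩ : ∃ Z3, Z3 = dL a3.1 C.n.2 := ⟨_, rfl⟩
  obtain ⟨e2, he2⟩ : ∃ e2, e2 = mU (mU C.u.2 C.u.2) P.g.2 := ⟨_, rfl⟩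
  obtain ⟨x0, hx0e⟩ : ∃ x0, x0 = dL tp.1 C.h.2 := ⟨_, rfl⟩
  rw [← hZe, ← hZ3e, ← he2, ← hx0e] at hx
  obtain ⟨y, hye⟩ : ∃ y, y = mL Z (mL x0 x0) := ⟨_, rfl⟩
  obtain ⟨y3, hy3e⟩ : ∃ y3, y3 = mL Z3 (mL x0 x0) := ⟨_, rfl⟩
  obtain ⟨N2, hN2e⟩ : ∃ N2, N2 = mU P.N.2 P.N.2 := ⟨_, rfl⟩
  rw [← hye, ← hy3e, ← hN2e] at hx
  obtain ⟨Vn, hVn⟩ : ∃ Vn, Vn = SC + mU C.c2.2 N2 := ⟨_, rfl⟩
  obtain ⟨ee, hee⟩ : ∃ ee, ee = dU SC (eNL (min SC T3.2)) := ⟨_, rfl⟩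
  obtain ⟨w, hwe⟩ : ∃ w, w = dU C.n.2 (mL G Q.1) := ⟨_, rfl⟩
  obtain ⟨w3, hw3e⟩ : ∃ w3, w3 = dU C.n.2 (mL G Q3.1) := ⟨_, rfl⟩
  obtain ⟨ff, hff⟩ : ∃ ff, ff = dU SC (eNL (min SC T.2)) := ⟨_, rfl⟩
  rw [← hVn, ← hee, ← hff, ← hwe, ← hw3e] at hx
  obtain ⟨o, hoe⟩ : ∃ o, o = mU (mU ((SC + ee) / 2 + 1) ((SC + ee) / 2 + 1)) N2 := ⟨_, rfl⟩
  obtain ⟨v, hve⟩ : ∃ v, v = mU (mU ((SC + ff) / 2 + 1) ((SC + ff) / 2 + 1)) N2 := ⟨_, rfl⟩
  rw [← hoe, ← hve] at hx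
  cases hbb : (Nat.blt 0 a.1 && Nat.blt 0 Q.1 && Nat.blt 0 Q3.1 && Nat.blt 0 (mL G Q.1) &&
      Nat.blt 0 (mL G Q3.1) && Nat.blt 0 Y.1 && Nat.blt 0 C.n.2 && Nat.blt 0 C.h.2 &&
      Nat.blt 0 x0 && Nat.ble SC (mL G y) && Nat.ble SC (mL G y3) && Nat.ble e2 y &&
      Nat.ble e2 y3 && Nat.blt 0 (eNL (min SC T3.2)) && Nat.blt 0 (eNL (min SC T.2)) &&
      Nat.ble C.t.2 6908231557316) with
  | false => rw [hbb] at hx; simp at hx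
  | true =>
    rw [hbb] at hx
    simp only [cond_true, Option.some.injEq, Prod.mk.injEq] at hx
    obtain ⟨ha0, ha1, ha2⟩ := hx
    simp only [Bool.and_eq_true, blt_iff, Nat.ble_eq] at hbb
    obtain ⟨⟨⟨⟨⟨⟨⟨⟨⟨⟨⟨⟨⟨⟨⟨haa, hQ0⟩, hQ30⟩, hGQ⟩, hGQ3⟩, hY0⟩, hn0⟩, hh0⟩, hx00⟩, hGy⟩, hGy3⟩, hey⟩, hey3⟩,
      heN⟩, hfN⟩, htle⟩ := hbb
    -- t'
    have hmtp : Mem (Ltp h τ) tp := by
      rw [htpe]
      unfold Ltp
      exact ⟨subL two_pi_lo hC.ht.2 htle, subU two_pi_hi hC.ht.1⟩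
    have htp0 : 0 < Ltp h τ := by unfold Ltp; linarith
    have hmT : Mem (Ltp h τ * c / μ) T := by
      have k := (hmtp.mul hC.hc).mul hP.hN
      rw [mul_one_div] at k
      rw [hTe]; exact k
    have hmT3 : Mem (LT3 μ c h τ) T3 := by
      have k := ((hmtp.add (Mem.const 6 5 (by norm_num))).mul hC.hc).mul hP.hN
      rw [mul_one_div] at k
      rw [hT3e]
      unfold LT3
      exact_mod_cast k
    have hT30 : 0 ≤ LT3 μ c h τ := by unfold LT3; positivity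
    obtain ⟨t1, ht1⟩ : ∃ t1, t1 = Ltp h τ * c / μ := ⟨_, rfl⟩
    obtain ⟨t3, ht3⟩ : ∃ t3, t3 = LT3 μ c h τ := ⟨_, rfl⟩
    rw [← ht1] at hmT
    rw [← ht3] at hmT3 hT30
    have ht10 : 0 ≤ t1 := by rw [ht1]; positivity
    obtain ⟨A, hA⟩ : ∃ A, A = Lr μ ν t1 := ⟨_, rfl⟩
    obtain ⟨A3, hA3⟩ : ∃ A3, A3 = Lr μ ν t3 := ⟨_, rfl⟩
    have hmA : Mem A a := by rw [hA, hae]; exact mem_xr hP hC.hn hmT hν1 ht10
    have hmA3 : Mem A3 a3 := by rw [hA3, ha3e]; exact mem_xr hP hC.hn hmT3 hν1 hT30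
    have hm11 : Mem (11 / 25 : ℝ) (ic 11 25) := by exact_mod_cast Mem.const 11 25 (by norm_num)
    have hmQ : Mem (A * c ^ 2 + ν * (11 / 25)) Q := by
      rw [hQe]; exact (hmA.mul hC.hc2).add (hC.hn.mul hm11)
    have hmQ3 : Mem (A3 * c ^ 2 + ν * (11 / 25)) Q3 := by
      rw [hQ3e]; exact (hmA3.mul hC.hc2).add (hC.hn.mul hm11)
    have hA0 : 0 < A := (fx_pos haa).trans_le hmA.1
    have hA30 : 0 ≤ A3 := hmA3.nonneg
    obtain ⟨R, hR⟩ : ∃ R, R = A * c ^ 2 + ν * (11 / 25) := ⟨_, rfl⟩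
    obtain ⟨R3, hR3⟩ : ∃ R3, R3 = A3 * c ^ 2 + ν * (11 / 25) := ⟨_, rfl⟩
    rw [← hR] at hmQ
    rw [← hR3] at hmQ3
    have hR0 : 0 < R := by rw [hR]; positivity
    have hR30 : 0 < R3 := by rw [hR3]; positivity
    have h11 : 0 < (ic 11 25).1 := by unfold ic SC; norm_num
    have hmY : Mem (c ^ 2 / (11 / 25) + ν / A) Y := by
      rw [hYe]; exact (hC.hc2.div hm11 h11).add (hC.hn.div hmA haa)
    obtain ⟨Zr, hZr⟩ : ∃ Zr, Zr = 1 / (c ^ 2 / (11 / 25) + ν / A) := ⟨_, rfl⟩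
    have hZ1 : fx Z ≤ Zr := by
      rw [hZe, hZr]
      exact divL (le_of_eq fx_one) hmY.2 (by positivity)
    obtain ⟨Zr3, hZr3⟩ : ∃ Zr3, Zr3 = A3 / ν := ⟨_, rfl⟩
    have hZ31 : fx Z3 ≤ Zr3 := by
      rw [hZ3e, hZr3]
      exact divL hmA3.1 hC.hn.2 hν
    have hZr0 : 0 ≤ Zr := (fx_nonneg _).trans hZ1
    have hZr30 : 0 ≤ Zr3 := (fx_nonneg _).trans hZ31
    have hGpos : 0 < G := by
      rcases Nat.eq_zero_or_pos G with h0 | h0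
      · rw [h0] at hGQ; simp [mL] at hGQ
      · exact h0
    have hΓ0 : 0 < Γ := (fx_pos hGpos).trans_le hG
    have hE2 : g / 2 * τ ^ 2 ≤ fx e2 := by
      rw [he2, mul_comm]
      have h1 := mulU hC.hu.2 hC.hu.2 hτ
      have hg0 : 0 ≤ g / 2 := (fx_nonneg _).trans hP.hg.1
      have h2 := mulU h1 hP.hg.2 hg0
      rwa [pow_two]
    -- x
    obtain ⟨x, hxr⟩ : ∃ x, x = Ltp h τ / h := ⟨_, rfl⟩
    obtain ⟨X, hXr⟩ : ∃ X, X = fx x0 := ⟨_, rfl⟩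
    have hX0 : 0 < X := by rw [hXr]; exact fx_pos hx00
    have hXx : X ≤ x := by
      rw [hXr, hxr, hx0e]
      exact divL hmtp.1 hC.hh.2 hh
    have hXX : fx (mL x0 x0) ≤ X ^ 2 := by
      rw [hXr, pow_two]; exact mL_le _ _
    have hXXu : X ^ 2 ≤ fx (mU x0 x0) := by
      rw [hXr, pow_two]; exact le_mU _ _
    have hy1 : fx y ≤ Zr * X ^ 2 := by rw [hye]; exact mulL hZ1 hXX
    have hy31 : fx y3 ≤ Zr3 * X ^ 2 := by rw [hy3e]; exact mulL hZ31 hXX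
    have hΓy : 1 ≤ Γ * (Zr * X ^ 2) := by
      rw [← fx_one]
      exact (fx_mono hGy).trans (mulL hG hy1)
    have hΓy3 : 1 ≤ Γ * (Zr3 * X ^ 2) := by
      rw [← fx_one]
      exact (fx_mono hGy3).trans (mulL hG hy31)
    have hE := expCl (mulL hG (subL hy1 hE2 hey))
    have hE3 := expCl (mulL hG (subL hy31 hE2 hey3))
    -- prefactors
    have hN2 : 1 / μ ^ 2 ≤ fx N2 := by
      have k1 := mulU hP.hN.2 hP.hN.2 (by positivity)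
      rw [hN2e]
      refine le_trans (le_of_eq ?_) k1
      field_simp
    have hVn1 : 1 + c ^ 2 / μ ^ 2 ≤ fx Vn := by
      rw [hVn]
      refine addU (le_of_eq fx_one.symm) ?_
      have h2 := mulU hC.hc2.2 hN2 (by positivity)
      refine le_trans (le_of_eq ?_) h2
      field_simp
    have hq0 : 0 ≤ q := hP.hq.nonneg
    have hS : √(q * (1 + c ^ 2 / μ ^ 2) / (2 * R)) ≤ fx (sqU (mU P.q.2 (dU Vn Q.1) / 2 + 1)) := by
      apply sqrtU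
      have k1 := half_up (mulU hP.hq.2 (divU hVn1 hmQ.1 hQ0) (by positivity))
      refine le_trans (le_of_eq ?_) k1
      field_simp
    have hS3 : √(q * (1 + c ^ 2 / μ ^ 2) / (2 * R3)) / 2 ≤
        fx (sqU (mU P.q.2 (dU Vn Q3.1) / 2 + 1) / 2 + 1) := by
      apply half_up
      apply sqrtU
      have k1 := half_up (mulU hP.hq.2 (divU hVn1 hmQ3.1 hQ30) (by positivity))
      refine le_trans (le_of_eq ?_) k1
      field_simp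
    have hw1 : ν / (Γ * R) ≤ fx w := by
      rw [hwe]
      exact divU hC.hn.2 (mulL hG hmQ.1) hGQ
    have hw31 : ν / (Γ * R3) ≤ fx w3 := by
      rw [hw3e]
      exact divU hC.hn.2 (mulL hG hmQ3.1) hGQ3
    -- e^T'
    have hee1 : Le μ c h τ ≤ fx ee := by
      rw [hee]
      unfold Le
      rw [← ht3]
      have k1 : min 1 t3 ≤ fx (min SC T3.2) := minU (le_of_eq fx_one.symm) hmT3.2
      exact expUp k1 heN
    have hff1 : Le1 μ c h τ ≤ fx ff := by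
      rw [hff]
      unfold Le1
      rw [← ht1]
      have k1 : min 1 t1 ≤ fx (min SC T.2) := minU (le_of_eq fx_one.symm) hmT.2
      exact expUp k1 hfN
    obtain ⟨F1, hF1⟩ : ∃ F1, F1 = Le1 μ c h τ := ⟨_, rfl⟩
    rw [← hF1] at hff1
    have hF10 : 0 < F1 := by rw [hF1]; exact Real.exp_pos _
    have hv1 : ((1 + F1) / 2) ^ 2 / μ ^ 2 ≤ fx v := by
      have k1 : (1 + F1) / 2 ≤ fx ((SC + ff) / 2 + 1) := half_up (addU (le_of_eq fx_one.symm) hff1)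
      have k2 := mulU (mulU k1 k1 (by positivity)) hN2 (by positivity)
      rw [hve]
      refine le_trans (le_of_eq ?_) k2
      field_simp
    obtain ⟨U, hU⟩ : ∃ U, U = ((1 + F1) / 2) ^ 2 / μ ^ 2 := ⟨_, rfl⟩
    rw [← hU] at hv1
    have hU0 : 0 ≤ U := by rw [hU]; positivity
    have hvc : U * c ^ 2 + F1 ≤ fx (mU v C.c2.2 + ff) := addU (mulU hv1 hC.hc2.2 (by positivity)) hff1
    obtain ⟨E1, hE1⟩ : ∃ E1, E1 = Le μ c h τ := ⟨_, rfl⟩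
    rw [← hE1] at hee1
    have hE10 : 0 < E1 := by rw [hE1]; exact Real.exp_pos _
    have ho1 : ((1 + E1) / 2) ^ 2 / μ ^ 2 ≤ fx o := by
      have k1 : (1 + E1) / 2 ≤ fx ((SC + ee) / 2 + 1) := half_up (addU (le_of_eq fx_one.symm) hee1)
      have k2 := mulU (mulU k1 k1 (by positivity)) hN2 (by positivity)
      rw [hoe]
      refine le_trans (le_of_eq ?_) k2
      field_simp
    obtain ⟨O, hO⟩ : ∃ O, O = ((1 + E1) / 2) ^ 2 / μ ^ 2 := ⟨_, rfl⟩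
    rw [← hO] at ho1
    have hO0 : 0 ≤ O := by rw [hO]; positivity
    have hoc : O * c ^ 2 + E1 ≤ fx (mU o C.c2.2 + ee) := addU (mulU ho1 hC.hc2.2 (by positivity)) hee1
    have hl : ν * (11 / 25) / R ≤ fx (dU (mU C.n.2 (ic 11 25).2) Q.1) :=
      divU (mulU hC.hn.2 hm11.2 (by norm_num)) hmQ.1 hQ0
    have hk : A * c / R ≤ fx (dU (mU a.2 C.c.2) Q.1) := divU (mulU hmA.2 hC.hc.2 hc.le) hmQ.1 hQ0
    have hl0 : 0 ≤ ν * (11 / 25) / R := by positivity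
    have hk0 : 0 ≤ A * c / R := by positivity
    have hw0 : 0 ≤ ν / (Γ * R) := by positivity
    have hw30 : 0 ≤ ν / (Γ * R3) := by positivity
    -- weights at `X`
    have hW : U * (ν * (11 / 25) / R) ^ 2 + F1 * (A * c / R) ^ 2 ≤
        fx (mU v (mU (dU (mU C.n.2 (ic 11 25).2) Q.1) (dU (mU C.n.2 (ic 11 25).2) Q.1)) +
          mU ff (mU (dU (mU a.2 C.c.2) Q.1) (dU (mU a.2 C.c.2) Q.1))) := by
      rw [pow_two, pow_two]
      exact addU (mulU hv1 (mulU hl hl hl0) (by positivity)) (mulU hff1 (mulU hk hk hk0) (by positivity))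
    have hc0' : (U * c ^ 2 + F1) * (ν / (Γ * R)) / 2 ≤ fx (mU (mU v C.c2.2 + ff) w / 2 + 1) :=
      half_up (mulU hvc hw1 hw0)
    have hc3' : (O * c ^ 2 + E1) * (ν / (Γ * R3)) / 2 ≤ fx (mU (mU o C.c2.2 + ee) w3 / 2 + 1) :=
      half_up (mulU hoc hw31 hw30)
    have hIW := addU (mulU hXXu hW (by positivity)) hc0'
    have hs3 : √(ν / (Γ * R3) * (1 / Real.pi)) ≤ fx (sqU (mU w3 350008700000)) :=
      sqrtU (mulU hw31 inv_pi_le (by positivity))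
    have hX2 : 2 * X ≤ fx (2 * x0) := two_up (le_of_eq hXr)
    have hJW := addU (mulU ho1 (addU hXXu (mulU hX2 (mulU hC.hc.2 hs3 (Real.sqrt_nonneg _))
      (by positivity))) (by positivity)) hc3'
    -- the two parts
    have e0 : LI0 μ q g c ν h τ Γ = √(q * (1 + c ^ 2 / μ ^ 2) / (2 * R)) *
        Real.exp (-(Γ * (Zr * x ^ 2 - g / 2 * τ ^ 2))) := by
      unfold LI0 LQi
      rw [← ht1, ← hA, ← hR, ← hZr, ← hxr]
    have e3 : LJ0 μ q g c ν h τ Γ = √(q * (1 + c ^ 2 / μ ^ 2) / (2 * R3)) / 2 *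
        Real.exp (-(Γ * (Zr3 * x ^ 2 - g / 2 * τ ^ 2))) := by
      unfold LJ0 LQi
      rw [← ht3, ← hA3, ← hR3, ← hZr3, ← hxr]
    have eW : LIW μ c ν h τ Γ = (U * (ν * (11 / 25) / R) ^ 2 + F1 * (A * c / R) ^ 2) * x ^ 2 + 0 * x +
        (U * c ^ 2 + F1) * (ν / (Γ * R)) / 2 := by
      unfold LIW LQi
      rw [← ht1, ← hA, ← hR, ← hxr, ← hF1, ← hU]
      ring
    have eJ : LJW μ c ν h τ Γ = O * x ^ 2 + (O * 2 * (c * √(ν / (Γ * R3) * (1 / Real.pi)))) * x +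
        (O * c ^ 2 + E1) * (ν / (Γ * R3)) / 2 := by
      unfold LJW LQi
      rw [← ht3, ← hA3, ← hR3, ← hxr, ← hE1, ← hO]
      ring
    have b0 := img_bound (E := g / 2 * τ ^ 2) (w2 := 0) (w1 := 0) (w0 := 1) hX0 hXx hΓy le_rfl le_rfl zero_le_one
    have b3 := img_bound (E := g / 2 * τ ^ 2) (w2 := 0) (w1 := 0) (w0 := 1) hX0 hXx hΓy3 le_rfl le_rfl zero_le_one
    have bW := img_bound (E := g / 2 * τ ^ 2) (w2 := U * (ν * (11 / 25) / R) ^ 2 + F1 * (A * c / R) ^ 2)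
      (w1 := 0) (w0 := (U * c ^ 2 + F1) * (ν / (Γ * R)) / 2) hX0 hXx hΓy (by positivity) le_rfl
      (by positivity)
    have bJ := img_bound (E := g / 2 * τ ^ 2) (w2 := O)
      (w1 := O * 2 * (c * √(ν / (Γ * R3) * (1 / Real.pi))))
      (w0 := (O * c ^ 2 + E1) * (ν / (Γ * R3)) / 2) hX0 hXx hΓy3 hO0 (by positivity)
      (by positivity)
    simp only [zero_mul, zero_add, one_mul] at b0 b3
    have s0 : 0 ≤ √(q * (1 + c ^ 2 / μ ^ 2) / (2 * R)) := Real.sqrt_nonneg _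
    have s3 : 0 ≤ √(q * (1 + c ^ 2 / μ ^ 2) / (2 * R3)) / 2 := by positivity
    have c0 := mulU hS hE (Real.exp_pos _).le
    have c3 := mulU hS3 hE3 (Real.exp_pos _).le
    refine ⟨?_, ?_, ?_⟩
    · rw [← ha0, e0, e3]
      exact addU ((mul_le_mul_of_nonneg_left b0 s0).trans c0) ((mul_le_mul_of_nonneg_left b3 s3).trans c3)
    · rw [← ha1, e0, e3]
      refine addU ?_ ?_
      · rw [eW]
        have k1 := mulU c0 hIW (by positivity)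
        refine le_trans ?_ k1
        have k2 := mul_le_mul_of_nonneg_left bW s0
        refine le_trans (le_of_eq ?_) (k2.trans (le_of_eq ?_)) <;> ring
      · rw [eJ]
        have k1 := mulU c3 hJW (by positivity)
        refine le_trans ?_ k1
        have k2 := mul_le_mul_of_nonneg_left bJ s3
        refine le_trans (le_of_eq ?_) (k2.trans (le_of_eq ?_)) <;> ring
    · rw [← ha2, ← hE1, ← hF1, e0, e3]
      have j0 : 0 ≤ √(q * (1 + c ^ 2 / μ ^ 2) / (2 * R)) *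
        Real.exp (-(Γ * (Zr * x ^ 2 - g / 2 * τ ^ 2))) := by positivity
      have j3 : 0 ≤ √(q * (1 + c ^ 2 / μ ^ 2) / (2 * R3)) / 2 *
        Real.exp (-(Γ * (Zr3 * x ^ 2 - g / 2 * τ ^ 2))) := by positivity
      exact addU (mulU hff1 ((mul_le_mul_of_nonneg_left b0 s0).trans c0) j0)
        (mulU hee1 ((mul_le_mul_of_nonneg_left b3 s3).trans c3) j3)

end SokalCel
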