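import Pool.Agent.Lib_MP_af4de1_v3.CenZ1

/-!
# CEN, far zones: all images beyond `c`, uniform in `q = r`

`farR` : `S = Ici c`, any `θ`; `farL` : `S = Iic (-c)`.  Period trick: for `f ≥ 0` of period `2π` and `λ > 0`
`∫_c^∞ e^(-λ(s-c)) f = (1 - e^(-2πλ))⁻¹ ∫_c^(c+2π) e^(-λ(s-c)) f`.
-/

set_option autoImplicit false

namespace SokalCen

open Real MeasureTheory Set

/-! ## the period trick -/

/-- `∫_c^∞ e^(-λ(s-c)) f(s) ds ≤ P/(1 - e^(-2πλ))` -/
theorem period_lint {lam c P M : ℝ} {f : ℝ → ℝ} (hl : 0 < lam) (hP : 0 ≤ P)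
    (hf0 : ∀ s, 0 ≤ f s) (hfM : ∀ s, f s ≤ M) (hper : ∀ s, f (s + 2 * π) = f s)
    (hI : ∫⁻ s in Icc c (c + 2 * π), ENNReal.ofReal (f s) ≤ ENNReal.ofReal P) :
    ∫⁻ s in Ici c, ENNReal.ofReal (exp (-(lam * (s - c))) * f s) ≤
      ENNReal.ofReal (P / (1 - exp (-(2 * π * lam)))) := by
  set J := ∫⁻ s in Ici c, ENNReal.ofReal (exp (-(lam * (s - c))) * f s) with hJ
  have hM : 0 ≤ M := (hf0 0).trans (hfM 0)
  -- finite
  have hfin : J ≠ ⊤ := by
    have h1 : J ≤ ∫⁻ s in Ici c, ENNReal.ofReal (M * exp (-(lam * (s - c)))) := by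
      refine setLIntegral_mono' measurableSet_Ici fun s _ => ENNReal.ofReal_le_ofReal ?_
      rw [mul_comm]
      exact mul_le_mul_of_nonneg_right (hfM s) (exp_pos _).le
    have h2 : IntegrableOn (fun s : ℝ => M * exp (-(lam * (s - c)))) (Ici c) := by
      rw [integrableOn_Ici_iff_integrableOn_Ioi]
      have h3 : IntegrableOn (fun s : ℝ => M * exp (lam * c) * exp (-lam * s)) (Ioi c) :=
        (integrableOn_exp_mul_Ioi (a := -lam) (by linarith) c).const_mul (M * exp (lam * c))
      refine IntegrableOn.congr_fun h3 (fun s _ => ?_) measurableSet_Ioi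
      show M * exp (lam * c) * exp (-lam * s) = M * exp (-(lam * (s - c)))
      rw [mul_assoc, ← exp_add]
      congr 2
      ring
    have h3 : ∫⁻ s in Ici c, ENNReal.ofReal (M * exp (-(lam * (s - c)))) < ⊤ := by
      have h4 := h2.2
      rw [hasFiniteIntegral_iff_ofReal] at h4
      · exact h4
      · exact Filter.Eventually.of_forall fun s => mul_nonneg hM (exp_pos _).le
    exact (h1.trans_lt h3).ne
  -- the recursion
  have hle : J ≤ ENNReal.ofReal P + ENNReal.ofReal (exp (-(2 * π * lam))) * J := by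
    have h1 : Ici c ⊆ Icc c (c + 2 * π) ∪ Ici (c + 2 * π) := fun s hs => by
      rcases le_total s (c + 2 * π) with h | h
      · exact Or.inl ⟨hs, h⟩
      · exact Or.inr h
    refine (lintegral_mono_set h1).trans ((lintegral_union_le _ _ _).trans (add_le_add ?_ ?_))
    · refine le_trans (setLIntegral_mono' measurableSet_Icc fun s hs => ENNReal.ofReal_le_ofReal ?_) hI
      refine mul_le_of_le_one_left (hf0 s) (exp_le_one_iff.2 ?_)
      have : 0 ≤ lam * (s - c) := mul_nonneg hl.le (by linarith [hs.1])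
      linarith
    · have h2 := lint_shift (fun s => ENNReal.ofReal (exp (-(lam * (s - c))) * f s)) (2 * π)
        (Ici (c + 2 * π))
      have h3 : (fun x : ℝ => x + 2 * π) ⁻¹' Ici (c + 2 * π) = Ici c := by
        ext x
        simp
      rw [h3] at h2
      rw [← h2, hJ, ← lintegral_const_mul' _ _ ENNReal.ofReal_ne_top]
      refine le_of_eq (lintegral_congr fun s => ?_)
      rw [← ENNReal.ofReal_mul (exp_pos _).le, hper, ← mul_assoc, ← exp_add]
      congr 3
      ring
  have he : exp (-(2 * π * lam)) < 1 := by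
    have := pi_pos
    have h2 : 0 < 2 * π * lam := by positivity
    rw [← exp_zero]
    exact exp_lt_exp.2 (by linarith)
  have h5 : J.toReal ≤ P + exp (-(2 * π * lam)) * J.toReal := by
    have h6 := ENNReal.toReal_mono (by
      exact ENNReal.add_ne_top.2 ⟨ENNReal.ofReal_ne_top, ENNReal.mul_ne_top ENNReal.ofReal_ne_top hfin⟩) hle
    rw [ENNReal.toReal_add ENNReal.ofReal_ne_top (ENNReal.mul_ne_top ENNReal.ofReal_ne_top hfin),
      ENNReal.toReal_mul, ENNReal.toReal_ofReal hP, ENNReal.toReal_ofReal (exp_pos _).le] at h6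
    exact h6
  rw [← ENNReal.ofReal_toReal hfin]
  refine ENNReal.ofReal_le_ofReal ?_
  rw [le_div_iff₀ (by linarith)]
  linarith

/-- the integral over a period of `e^(-k (1 - cos))` -/
theorem period_cos {k θ c : ℝ} (hk : 0 < k) :
    ∫⁻ s in Icc c (c + 2 * π), ENNReal.ofReal (exp (-(k * (1 - cos (θ + s))))) ≤
      ENNReal.ofReal √(π ^ 3 / (2 * k)) := by
  have hcont : Continuous fun s : ℝ => exp (-(k * (1 - cos (θ + s)))) := by fun_prop
  have hcont' : Continuous fun s : ℝ => exp (-(k * (1 - cos s))) := by fun_prop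
  have hπ := pi_pos
  have hle : c ≤ c + 2 * π := by linarith
  have h1 : ∫⁻ s in Icc c (c + 2 * π), ENNReal.ofReal (exp (-(k * (1 - cos (θ + s))))) =
      ENNReal.ofReal (∫ s in c..(c + 2 * π), exp (-(k * (1 - cos (θ + s))))) := by
    rw [intervalIntegral.integral_of_le hle, ofReal_integral_eq_lintegral_ofReal]
    · exact setLIntegral_congr Ioc_ae_eq_Icc.symm
    · exact (hcont.integrableOn_Icc (a := c) (b := c + 2 * π)).mono_set Ioc_subset_Icc_self
    · exact Filter.Eventually.of_forall fun s => (exp_pos _).le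
  rw [h1]
  refine ENNReal.ofReal_le_ofReal ?_
  have h2 : ∫ s in c..(c + 2 * π), exp (-(k * (1 - cos (θ + s)))) =
      ∫ s in (θ + c)..(θ + c + 2 * π), exp (-(k * (1 - cos s))) := by
    have := intervalIntegral.integral_comp_add_left (a := c) (b := c + 2 * π)
      (fun s : ℝ => exp (-(k * (1 - cos s)))) θ
    rw [this, add_assoc]
  have hper : Function.Periodic (fun s : ℝ => exp (-(k * (1 - cos s)))) (2 * π) := fun s => by
    simp only [cos_add_two_pi]
  have h3 := hper.intervalIntegral_add_eq (θ + c) (-π)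
  rw [h2, h3, show -π + 2 * π = π by ring]
  have h4 : ∫ s in (-π)..π, exp (-(k * (1 - cos s))) ≤
      ∫ s in (-π)..π, exp (-(2 * k / π ^ 2) * s ^ 2) := by
    refine intervalIntegral.integral_mono_on (by linarith) (hcont'.intervalIntegrable _ _)
      ((by fun_prop : Continuous fun s : ℝ => exp (-(2 * k / π ^ 2) * s ^ 2)).intervalIntegrable _ _)
      fun s hs => exp_le_exp.2 ?_
    have h5 := cos_le_one_sub_mul_cos_sq (abs_le.2 ⟨hs.1, hs.2⟩)
    have h6 := mul_le_mul_of_nonneg_left (show 2 / π ^ 2 * s ^ 2 ≤ 1 - cos s by linarith) hk.le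
    have e : k * (2 / π ^ 2 * s ^ 2) = 2 * k / π ^ 2 * s ^ 2 := by ring
    rw [e] at h6
    linarith
  have hb : 0 < 2 * k / π ^ 2 := by positivity
  have h5 : ∫ s in (-π)..π, exp (-(2 * k / π ^ 2) * s ^ 2) ≤
      ∫ s : ℝ, exp (-(2 * k / π ^ 2) * s ^ 2) := by
    rw [intervalIntegral.integral_of_le (by linarith)]
    exact setIntegral_le_integral (integrable_exp_neg_mul_sq hb)
      (Filter.Eventually.of_forall fun s => (exp_pos _).le)
  rw [integral_gaussian] at h5
  refine h4.trans (h5.trans (le_of_eq ?_))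
  congr 1
  field_simp

/-- the same with the weight `2 (1 - cos)` -/
theorem period_cos2 {k θ c : ℝ} (hk : 0 < k) :
    ∫⁻ s in Icc c (c + 2 * π), ENNReal.ofReal
      (2 * (1 - cos (θ + s)) * exp (-(k * (1 - cos (θ + s))))) ≤
      ENNReal.ofReal (3 / 2 / k * √(π ^ 3 / k)) := by
  have h1 : ∀ s : ℝ, 2 * (1 - cos (θ + s)) * exp (-(k * (1 - cos (θ + s)))) ≤
      3 / 2 / k * exp (-(k / 2 * (1 - cos (θ + s)))) := by
    intro s
    obtain ⟨u, hu⟩ : ∃ u, u = k / 2 * (1 - cos (θ + s)) := ⟨_, rfl⟩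
    have e1 : k * (1 - cos (θ + s)) = u + u := by rw [hu]; ring
    have e2 : 2 * (1 - cos (θ + s)) = 4 / k * u := by
      rw [hu]
      field_simp
      ring
    rw [e1, ← hu, e2, neg_add, exp_add, ← mul_assoc]
    refine mul_le_mul_of_nonneg_right ?_ (exp_pos _).le
    -- `u e^{-u} ≤ 3/8`
    have h2 : u * exp (-u) ≤ 3 / 8 := by
      have h3 := add_one_le_exp (u - 1)
      have h4 : u ≤ exp (u - 1) := by linarith
      have h5 := mul_le_mul_of_nonneg_right h4 (exp_pos (-u)).le
      rw [← exp_add, show u - 1 + -u = -1 by ring] at h5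
      have h6 : exp (-1) ≤ 3 / 8 := by
        have h7 := Real.exp_one_gt_d9
        rw [exp_neg, inv_le_comm₀ (exp_pos _) (by norm_num)]
        norm_num
        linarith
      linarith
    have h3 : 0 ≤ 4 / k := by positivity
    calc 4 / k * u * exp (-u) = 4 / k * (u * exp (-u)) := by ring
      _ ≤ 4 / k * (3 / 8) := mul_le_mul_of_nonneg_left h2 h3
      _ = 3 / 2 / k := by ring
  have hk2 : 0 ≤ 3 / 2 / k := by positivity
  calc ∫⁻ s in Icc c (c + 2 * π), ENNReal.ofReal (2 * (1 - cos (θ + s)) * exp (-(k * (1 - cos (θ + s)))))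
      ≤ ∫⁻ s in Icc c (c + 2 * π), ENNReal.ofReal (3 / 2 / k) *
        ENNReal.ofReal (exp (-(k / 2 * (1 - cos (θ + s))))) := by
        refine setLIntegral_mono' measurableSet_Icc fun s _ => ?_
        rw [← ENNReal.ofReal_mul hk2]
        exact ENNReal.ofReal_le_ofReal (h1 s)
    _ = ENNReal.ofReal (3 / 2 / k) * ∫⁻ s in Icc c (c + 2 * π),
        ENNReal.ofReal (exp (-(k / 2 * (1 - cos (θ + s))))) :=
        lintegral_const_mul' _ _ ENNReal.ofReal_ne_top
    _ ≤ ENNReal.ofReal (3 / 2 / k) * ENNReal.ofReal √(π ^ 3 / (2 * (k / 2))) :=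
        mul_le_mul_right (period_cos (by positivity)) _
    _ = ENNReal.ofReal (3 / 2 / k * √(π ^ 3 / k)) := by
        rw [← ENNReal.ofReal_mul hk2]
        congr 4
        ring

/-! ## one-sided integrals -/

private theorem fac_le {lam P : ℝ} (hl : 1 / 2 ≤ lam) (hP : 0 ≤ P) :
    P / (1 - exp (-(2 * π * lam))) ≤ 20 / 19 * P := by
  have hπ := pi_gt_three
  have h1 : exp (-(2 * π * lam)) ≤ 1 / 20 := by
    have h2 : exp (-(2 * π * lam)) ≤ exp (-3) := exp_le_exp.2 (by nlinarith)
    refine h2.trans ?_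
    rw [exp_neg, inv_le_comm₀ (exp_pos _) (by norm_num)]
    have h3 := Real.exp_one_gt_d9
    have h4 : exp 3 = exp 1 ^ 3 := by
      rw [← exp_nat_mul]
      norm_num
    rw [h4]
    have h5 : (2.7182818283 : ℝ) ^ 3 ≤ exp 1 ^ 3 := pow_le_pow_left₀ (by norm_num) h3.le 3
    refine le_trans ?_ h5
    norm_num
  rw [div_le_iff₀ (by linarith)]
  nlinarith

theorem far_J0 {lam c θ k : ℝ} (hl : 1 / 2 ≤ lam) (hk : 0 < k) :
    ∫⁻ s in Ici c, ENNReal.ofReal (exp (-(lam * (s - c))) * exp (-(k * (1 - cos (θ + s))))) ≤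
      ENNReal.ofReal (20 / 19 * √(π ^ 3 / (2 * k))) := by
  refine (period_lint (M := 1) (by linarith) (sqrt_nonneg _) (fun s => (exp_pos _).le) (fun s => ?_)
    (fun s => ?_) (period_cos hk)).trans (ENNReal.ofReal_le_ofReal (fac_le hl (sqrt_nonneg _)))
  · refine exp_le_one_iff.2 ?_
    have h1 := cos_le_one (θ + s)
    have : 0 ≤ k * (1 - cos (θ + s)) := mul_nonneg hk.le (by linarith)
    linarith
  · rw [← add_assoc, cos_add_two_pi]

theorem far_J2 {lam c θ k : ℝ} (hl : 1 / 2 ≤ lam) (hk : 0 < k) :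
    ∫⁻ s in Ici c, ENNReal.ofReal (exp (-(lam * (s - c))) *
        (2 * (1 - cos (θ + s)) * exp (-(k * (1 - cos (θ + s)))))) ≤
      ENNReal.ofReal (20 / 19 * (3 / 2 / k * √(π ^ 3 / k))) := by
  have h0 : 0 ≤ 3 / 2 / k * √(π ^ 3 / k) := by positivity
  have hc : ∀ s, 0 ≤ 1 - cos (θ + s) := fun s => by
    have := cos_le_one (θ + s)
    linarith
  refine (period_lint (M := 4) (by linarith) h0
    (fun s => mul_nonneg (by linarith [hc s]) (exp_pos _).le) (fun s => ?_)
    (fun s => ?_) (period_cos2 hk)).trans (ENNReal.ofReal_le_ofReal (fac_le hl h0))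
  · have h1 := neg_one_le_cos (θ + s)
    have h2 : exp (-(k * (1 - cos (θ + s)))) ≤ 1 := by
      refine exp_le_one_iff.2 ?_
      have := mul_nonneg hk.le (hc s)
      linarith
    have h3 := mul_le_mul (show 2 * (1 - cos (θ + s)) ≤ 4 by linarith) h2 (exp_pos _).le
      (by norm_num)
    linarith
  · rw [← add_assoc, cos_add_two_pi]

theorem far_comb {lam c θ k E a b : ℝ} {F : ℝ → ℝ} (hl : 1 / 2 ≤ lam) (hk : 0 < k) (hE : 0 ≤ E)
    (ha : 0 ≤ a) (hb : 0 ≤ b)
    (hF : ∀ s, c ≤ s → F s ≤ E * (exp (-(lam * (s - c))) * (a * exp (-(k * (1 - cos (θ + s)))) +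
      b * (2 * (1 - cos (θ + s)) * exp (-(k * (1 - cos (θ + s)))))))) :
    ∫⁻ s in Ici c, ENNReal.ofReal (F s) ≤
      ENNReal.ofReal (E * (a * (20 / 19 * √(π ^ 3 / (2 * k))) +
        b * (20 / 19 * (3 / 2 / k * √(π ^ 3 / k))))) := by
  have j0 := far_J0 (c := c) (θ := θ) hl hk
  have j2 := far_J2 (c := c) (θ := θ) hl hk
  set f0 : ℝ → ℝ := fun s => exp (-(lam * (s - c))) * exp (-(k * (1 - cos (θ + s)))) with hf0
  set f2 : ℝ → ℝ := fun s => exp (-(lam * (s - c))) *
    (2 * (1 - cos (θ + s)) * exp (-(k * (1 - cos (θ + s))))) with hf2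
  have p0 : ∀ s, 0 ≤ f0 s := fun s => mul_nonneg (exp_pos _).le (exp_pos _).le
  have p2 : ∀ s, 0 ≤ f2 s := fun s => by
    have := cos_le_one (θ + s)
    exact mul_nonneg (exp_pos _).le (mul_nonneg (by linarith) (exp_pos _).le)
  have m0 : Measurable fun s => ENNReal.ofReal (E * a) * ENNReal.ofReal (f0 s) := by
    have : Continuous f0 := by rw [hf0]; fun_prop
    exact this.measurable.ennreal_ofReal.const_mul _
  calc ∫⁻ s in Ici c, ENNReal.ofReal (F s)
      ≤ ∫⁻ s in Ici c, (ENNReal.ofReal (E * a) * ENNReal.ofReal (f0 s) +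
          ENNReal.ofReal (E * b) * ENNReal.ofReal (f2 s)) := by
        refine setLIntegral_mono' measurableSet_Ici fun s hs => ?_
        rw [← ENNReal.ofReal_mul (mul_nonneg hE ha), ← ENNReal.ofReal_mul (mul_nonneg hE hb),
          ← ENNReal.ofReal_add (mul_nonneg (mul_nonneg hE ha) (p0 s))
            (mul_nonneg (mul_nonneg hE hb) (p2 s))]
        refine ENNReal.ofReal_le_ofReal ((hF s hs).trans (le_of_eq ?_))
        rw [hf0, hf2]
        ring
    _ = ENNReal.ofReal (E * a) * (∫⁻ s in Ici c, ENNReal.ofReal (f0 s)) +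
          ENNReal.ofReal (E * b) * (∫⁻ s in Ici c, ENNReal.ofReal (f2 s)) := by
        rw [lintegral_add_left m0, lintegral_const_mul' _ _ ENNReal.ofReal_ne_top,
          lintegral_const_mul' _ _ ENNReal.ofReal_ne_top]
    _ ≤ ENNReal.ofReal (E * a) * ENNReal.ofReal (20 / 19 * √(π ^ 3 / (2 * k))) +
          ENNReal.ofReal (E * b) * ENNReal.ofReal (20 / 19 * (3 / 2 / k * √(π ^ 3 / k))) :=
        add_le_add (mul_le_mul_right j0 _) (mul_le_mul_right j2 _)
    _ = _ := by
        rw [← ENNReal.ofReal_mul (mul_nonneg hE ha), ← ENNReal.ofReal_mul (mul_nonneg hE hb),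
          ← ENNReal.ofReal_add (by positivity) (by positivity)]
        congr 1
        ring

private theorem pi3_lt : π ^ 3 < 32 := by
  have h := Real.pi_lt_d2
  have h1 := pi_pos
  calc π ^ 3 < 3.15 ^ 3 := pow_lt_pow_left₀ h h1.le (by norm_num)
    _ < 32 := by norm_num

private theorem sqrt_div_le {K q n : ℝ} (hq : 0 < q) (hn : 0 ≤ n) (h : K ≤ n ^ 2) :
    √(K / q) ≤ n / √q := by
  have h1 : √(K / q) ≤ √(n ^ 2 / q) := Real.sqrt_le_sqrt (div_le_div_of_nonneg_right h hq.le)
  rwa [Real.sqrt_div (sq_nonneg n), Real.sqrt_sq hn] at h1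

/-- `s² e^(-2(s-c)/c) ≤ c²` -/
private theorem sq_far {s c : ℝ} (hc : 0 < c) (hs : c ≤ s) :
    s ^ 2 ≤ c ^ 2 * exp (2 / c * (s - c)) := by
  have h1 := add_one_le_exp ((s - c) / c)
  have h2 : s / c ≤ exp ((s - c) / c) := by
    have e : s / c = (s - c) / c + 1 := by
      field_simp
      ring
    rw [e]
    exact h1
  have h3 : (s / c) ^ 2 ≤ exp ((s - c) / c) ^ 2 :=
    pow_le_pow_left₀ (div_nonneg (hc.le.trans hs) hc.le) h2 2
  have h4 : exp ((s - c) / c) ^ 2 = exp (2 / c * (s - c)) := by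
    rw [← exp_nat_mul]
    congr 1
    push_cast
    ring
  rw [h4, div_pow, div_le_iff₀ (by positivity)] at h3
  linarith

private theorem lam_facts {q A c : ℝ} (hc : 4 ≤ c) (h1 : 1 ≤ q * A * c) :
    1 / 2 ≤ q * A * c - 2 / c ∧ q * A * c - 2 / c ≤ q * A * c := by
  have h2 : 2 / c ≤ 1 / 2 := by
    rw [div_le_iff₀ (by linarith)]
    linarith
  have h3 : 0 ≤ 2 / c := by positivity
  exact ⟨by linarith, by linarith⟩

theorem Wm_nonneg' (m θ s : ℝ) : 0 ≤ Wm m θ 1 s := by
  unfold Wm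
  positivity

/-- FAR ZONE, right: all `s ≥ c`, any `θ`, `w = 1`. -/
theorem farR {q m ρ θ c A E : ℝ} (hq : 0 < q) (hρ : 0 < ρ) (hm : ρ ≤ m) (hc : 4 ≤ c)
    (hA : A = AR m ρ c) (h1 : 1 ≤ q * A * c) (hE : E = exp (-(q * (A * c ^ 2)))) :
    Zone q m ρ θ 1 (Ici c) (8 * E / √q) ((24 * (c / m) ^ 2 / √q + 54 / (q * √q)) * E)
      (22 * E / √q) := by
  have hm0 : 0 < m := hρ.trans_le hm
  have hc0 : 0 < c := by linarith
  obtain ⟨hl, hl2⟩ := lam_facts hc h1
  have hE0 : 0 < E := by rw [hE]; exact exp_pos _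
  have hsq : 0 < √q := Real.sqrt_pos.2 hq
  -- pointwise
  have hD : ∀ s, c ≤ s → exp (-(q * Dm m ρ θ s)) ≤
      E * (exp (-(q * A * c * (s - c))) * exp (-(q * (1 - cos (θ + s))))) := by
    intro s hs
    rw [hE, ← exp_add, ← exp_add]
    refine exp_le_exp.2 ?_
    have e1 := Qm_ray_right hρ hm hc0 hs
    have e2 := Qm_AR hρ hm hc0.le le_rfl hc0
    rw [← hA] at e2
    have e3 : A * c ^ 2 * (s / c) ≤ Qm m ρ s :=
      (mul_le_mul_of_nonneg_right e2 (div_nonneg (hc0.le.trans hs) hc0.le)).trans e1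
    have e4 : A * c ^ 2 * (s / c) = A * c ^ 2 + A * c * (s - c) := by
      field_simp
      ring
    have e5 : 1 ≤ exp (pm m s) := one_le_exp (pm_nonneg hm0 (by linarith))
    have e6 : 0 ≤ 1 - cos (θ + s) := by
      have := cos_le_one (θ + s)
      linarith
    have e7 : 1 - cos (θ + s) ≤ exp (pm m s) * (1 - cos (θ + s)) := le_mul_of_one_le_left e6 e5
    have e8 : A * c ^ 2 + A * c * (s - c) + (1 - cos (θ + s)) ≤ Dm m ρ θ s := by
      rw [Dm_eq]
      linarith
    have e9 := mul_le_mul_of_nonneg_left e8 hq.le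
    linarith
  have hX : ∀ s, c ≤ s → exp (-(q * A * c * (s - c))) ≤ exp (-((q * A * c - 2 / c) * (s - c))) := by
    intro s hs
    refine exp_le_exp.2 ?_
    have := mul_le_mul_of_nonneg_right hl2 (show 0 ≤ s - c by linarith)
    linarith
  have hXs : ∀ s, c ≤ s → s ^ 2 * exp (-(q * A * c * (s - c))) ≤
      c ^ 2 * exp (-((q * A * c - 2 / c) * (s - c))) := by
    intro s hs
    have h2 := mul_le_mul_of_nonneg_right (sq_far hc0 hs) (exp_pos (-(q * A * c * (s - c)))).le
    refine h2.trans (le_of_eq ?_)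
    rw [mul_assoc, ← exp_add]
    congr 2
    ring
  have s0 : √(π ^ 3 / (2 * q)) ≤ 4 / √q := by
    have e : π ^ 3 / (2 * q) = π ^ 3 / 2 / q := by
      field_simp
    rw [e]
    exact sqrt_div_le hq (by norm_num) (by linarith [pi3_lt])
  have s2 : √(π ^ 3 / q) ≤ 6 / √q := sqrt_div_le hq (by norm_num) (by linarith [pi3_lt])
  have he1 : exp 1 ≤ 2.7182818286 := Real.exp_one_lt_d9.le
  have hpe : ∀ s : ℝ, exp (pm m s) ≤ exp 1 := fun s =>
    exp_le_exp.2 ((le_abs_self _).trans (pm_mem m s))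
  refine ⟨?_, ?_, ?_⟩
  · refine (far_comb (θ := θ) (k := q) (E := E) (a := 1) (b := 0) hl hq hE0.le zero_le_one le_rfl
      fun s hs => ?_).trans (ENNReal.ofReal_le_ofReal ?_)
    · refine (hD s hs).trans (mul_le_mul_of_nonneg_left ?_ hE0.le)
      have := mul_le_mul_of_nonneg_right (hX s hs) (exp_pos (-(q * (1 - cos (θ + s))))).le
      linarith
    · have h5 : E * (1 * (20 / 19 * √(π ^ 3 / (2 * q)))) ≤ E * (8 / √q) := by
        refine mul_le_mul_of_nonneg_left ?_ hE0.le
        have h6 : 20 / 19 * (4 / √q) ≤ 8 / √q := by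
          rw [← mul_div_assoc]
          exact div_le_div_of_nonneg_right (by norm_num) hsq.le
        linarith [mul_le_mul_of_nonneg_left s0 (show (0 : ℝ) ≤ 20 / 19 by norm_num)]
      have e : 8 * E / √q = E * (8 / √q) := by ring
      rw [e]
      linarith
  · have hF : ∀ s, c ≤ s → Wm m θ 1 s * exp (-(q * Dm m ρ θ s)) ≤
        E * (exp (-((q * A * c - 2 / c) * (s - c))) * (3 / m ^ 2 * c ^ 2 *
          exp (-(q * (1 - cos (θ + s)))) + exp 1 * (2 * (1 - cos (θ + s)) *
          exp (-(q * (1 - cos (θ + s))))))) := by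
      intro s hs
      have hs0 : 0 ≤ s := by linarith
      have e6 : 0 ≤ 1 - cos (θ + s) := by
        have := cos_le_one (θ + s)
        linarith
      have hW : Wm m θ 1 s ≤ 3 / m ^ 2 * s ^ 2 + exp 1 * (2 * (1 - cos (θ + s))) := by
        rw [Wm_one]
        have hp0 : 0 ≤ pm m s := pm_nonneg hm0 hs0
        have hp := pm_le hm0 hs0
        have hp1 : pm m s ≤ 1 := (le_abs_self _).trans (pm_mem m s)
        have g1 := eS_ge hp0 hp1 one_pos
        have hS : eS 1 = exp 1 - 1 := by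
          unfold eS
          rw [div_one]
        have hS0 := eS_nonneg one_pos
        have he : 1 ≤ exp (pm m s) := one_le_exp hp0
        have g2 : (exp (pm m s) - 1) ^ 2 ≤ (eS 1 * (s / m)) ^ 2 :=
          pow_le_pow_left₀ (by linarith) (g1.trans (mul_le_mul_of_nonneg_left hp hS0)) 2
        have g3 : (eS 1) ^ 2 ≤ 3 := by
          rw [hS]
          have : exp 1 - 1 ≤ 1.7182818286 := by linarith
          have h0 : 0 ≤ exp 1 - 1 := by
            rw [← hS]
            exact hS0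
          calc (exp 1 - 1) ^ 2 ≤ 1.7182818286 ^ 2 := pow_le_pow_left₀ h0 this 2
            _ ≤ 3 := by norm_num
        have g4 : (eS 1 * (s / m)) ^ 2 ≤ 3 / m ^ 2 * s ^ 2 := by
          rw [mul_pow, div_pow]
          have : 0 ≤ s ^ 2 / m ^ 2 := by positivity
          have g5 := mul_le_mul_of_nonneg_right g3 this
          refine g5.trans (le_of_eq ?_)
          ring
        have g6 := mul_le_mul_of_nonneg_right (hpe s) (show 0 ≤ 2 * (1 - cos (θ + s)) by linarith)
        linarith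
      have hX0 := hX s hs
      have hXs0 := hXs s hs
      have hx := exp_pos (-(q * A * c * (s - c)))
      have hg := exp_pos (-(q * (1 - cos (θ + s))))
      have hW0 := Wm_nonneg' m θ s
      calc Wm m θ 1 s * exp (-(q * Dm m ρ θ s))
          ≤ (3 / m ^ 2 * s ^ 2 + exp 1 * (2 * (1 - cos (θ + s)))) *
            (E * (exp (-(q * A * c * (s - c))) * exp (-(q * (1 - cos (θ + s)))))) :=
            mul_le_mul hW (hD s hs) (exp_pos _).le (by positivity)
        _ = E * ((3 / m ^ 2 * exp (-(q * (1 - cos (θ + s))))) *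
              (s ^ 2 * exp (-(q * A * c * (s - c)))) +
            (exp 1 * (2 * (1 - cos (θ + s)) * exp (-(q * (1 - cos (θ + s)))))) *
              exp (-(q * A * c * (s - c)))) := by ring
        _ ≤ E * ((3 / m ^ 2 * exp (-(q * (1 - cos (θ + s))))) *
              (c ^ 2 * exp (-((q * A * c - 2 / c) * (s - c)))) +
            (exp 1 * (2 * (1 - cos (θ + s)) * exp (-(q * (1 - cos (θ + s)))))) *
              exp (-((q * A * c - 2 / c) * (s - c)))) := by
            refine mul_le_mul_of_nonneg_left (add_le_add ?_ ?_) hE0.le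
            · exact mul_le_mul_of_nonneg_left hXs0 (by positivity)
            · exact mul_le_mul_of_nonneg_left hX0
                (mul_nonneg (exp_pos _).le (mul_nonneg (by linarith) hg.le))
        _ = _ := by ring
    refine (far_comb (θ := θ) (k := q) (E := E) (a := 3 / m ^ 2 * c ^ 2) (b := exp 1) hl hq hE0.le
      (by positivity) (exp_pos _).le hF).trans (ENNReal.ofReal_le_ofReal ?_)
    have h3 : 3 / m ^ 2 * c ^ 2 * (20 / 19 * √(π ^ 3 / (2 * q))) ≤ 24 * (c / m) ^ 2 / √q := by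
      have e : 24 * (c / m) ^ 2 / √q = 3 / m ^ 2 * c ^ 2 * (8 / √q) := by
        rw [div_pow]
        ring
      rw [e]
      refine mul_le_mul_of_nonneg_left ?_ (by positivity)
      have h6 : 20 / 19 * (4 / √q) ≤ 8 / √q := by
        rw [← mul_div_assoc]
        exact div_le_div_of_nonneg_right (by norm_num) hsq.le
      linarith [mul_le_mul_of_nonneg_left s0 (show (0 : ℝ) ≤ 20 / 19 by norm_num)]
    have h4 : exp 1 * (20 / 19 * (3 / 2 / q * √(π ^ 3 / q))) ≤ 54 / (q * √q) := by
      have h5 : 3 / 2 / q * √(π ^ 3 / q) ≤ 3 / 2 / q * (6 / √q) :=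
        mul_le_mul_of_nonneg_left s2 (by positivity)
      have e : 3 / 2 / q * (6 / √q) = 9 / (q * √q) := by
        field_simp
        norm_num
      rw [e] at h5
      have h7 : 0 ≤ 9 / (q * √q) := by positivity
      calc exp 1 * (20 / 19 * (3 / 2 / q * √(π ^ 3 / q)))
          ≤ 3 * (20 / 19 * (9 / (q * √q))) := by
            refine mul_le_mul (by linarith) (mul_le_mul_of_nonneg_left h5 (by norm_num))
              (by positivity) (by norm_num)
        _ = (540 / 19) / (q * √q) := by ring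
        _ ≤ 54 / (q * √q) := div_le_div_of_nonneg_right (by norm_num) (by positivity)
    have h5 := mul_le_mul_of_nonneg_left (add_le_add h3 h4) hE0.le
    rw [mul_comm _ E]
    exact h5
  · refine (far_comb (θ := θ) (k := q) (E := E) (a := exp 1) (b := 0) hl hq hE0.le (exp_pos _).le
      le_rfl fun s hs => ?_).trans (ENNReal.ofReal_le_ofReal ?_)
    · have h2 := mul_le_mul (hpe s) (hD s hs) (exp_pos _).le (exp_pos _).le
      refine h2.trans ?_
      have h3 := mul_le_mul_of_nonneg_right (hX s hs) (exp_pos (-(q * (1 - cos (θ + s))))).le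
      have h4 := mul_le_mul_of_nonneg_left h3 (mul_nonneg (exp_pos 1).le hE0.le)
      linarith
    · have h6 : exp 1 * (20 / 19 * (4 / √q)) ≤ 22 / √q := by
        calc exp 1 * (20 / 19 * (4 / √q)) ≤ 3 * (20 / 19 * (4 / √q)) :=
              mul_le_mul_of_nonneg_right (by linarith) (by positivity)
          _ = (240 / 19) / √q := by ring
          _ ≤ 22 / √q := div_le_div_of_nonneg_right (by norm_num) hsq.le
      have h7 := mul_le_mul_of_nonneg_left (mul_le_mul_of_nonneg_left s0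
        (show (0 : ℝ) ≤ 20 / 19 by norm_num)) (exp_pos 1).le
      have h8 := mul_le_mul_of_nonneg_left (h7.trans h6) hE0.le
      have e : 22 * E / √q = E * (22 / √q) := by ring
      rw [e]
      linarith

/-- FAR ZONE, left: all `s ≤ -c`, any `θ`, `w = 1`. -/
theorem farL {q m ρ θ c A E : ℝ} (hq : 0 < q) (hρ : 0 < ρ) (hm : ρ ≤ m) (hc : 4 ≤ c)
    (hA : A = AL m ρ c) (h1 : 1 ≤ q * A * c) (hE : E = exp (-(q * (A * c ^ 2)))) :
    Zone q m ρ θ 1 (Iic (-c)) (8 * E / √q) ((8 * (c / m) ^ 2 / √q + 54 / (q * √q)) * E)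
      (8 * E / √q) := by
  have hm0 : 0 < m := hρ.trans_le hm
  have hc0 : 0 < c := by linarith
  obtain ⟨hl, hl2⟩ := lam_facts hc h1
  have hE0 : 0 < E := by rw [hE]; exact exp_pos _
  have hsq : 0 < √q := Real.sqrt_pos.2 hq
  have hneg : ∀ F : ℝ → ENNReal, ∫⁻ s in Iic (-c), F s = ∫⁻ v in Ici c, F (-v) := fun F => by
    have h := lint_neg F (Iic (-c))
    have hs : (fun x : ℝ => -x) ⁻¹' Iic (-c) = Ici c := by
      ext x
      simp
    rw [hs] at h
    exact h.symm
  have hcos : ∀ v : ℝ, cos (θ + -v) = cos (-θ + v) := fun v => by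
    rw [← cos_neg]
    congr 1
    ring
  obtain ⟨k, hk⟩ : ∃ k, k = q * exp (-1) := ⟨_, rfl⟩
  have hk0 : 0 < k := by rw [hk]; positivity
  -- pointwise
  have hD : ∀ v, c ≤ v → exp (-(q * Dm m ρ θ (-v))) ≤
      E * (exp (-(q * A * c * (v - c))) * exp (-(k * (1 - cos (-θ + v))))) := by
    intro v hs
    rw [hE, ← exp_add, ← exp_add]
    refine exp_le_exp.2 ?_
    have e1 := Qm_ray_left hρ hm hc0 hs
    have e2 := Qm_AL hρ hm hc0.le le_rfl hc0
    rw [← hA] at e2
    have e3 : A * c ^ 2 * (v / c) ≤ Qm m ρ (-v) :=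
      (mul_le_mul_of_nonneg_right e2 (div_nonneg (hc0.le.trans hs) hc0.le)).trans e1
    have e4 : A * c ^ 2 * (v / c) = A * c ^ 2 + A * c * (v - c) := by
      field_simp
      ring
    have e5 : exp (-1) ≤ exp (pm m (-v)) := exp_le_exp.2 (le_max_left _ _)
    have e6 : 0 ≤ 1 - cos (-θ + v) := by
      have := cos_le_one (-θ + v)
      linarith
    have e7 := mul_le_mul_of_nonneg_right e5 e6
    have e8 : A * c ^ 2 + A * c * (v - c) + exp (-1) * (1 - cos (-θ + v)) ≤ Dm m ρ θ (-v) := by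
      rw [Dm_eq, hcos]
      linarith
    have e9 := mul_le_mul_of_nonneg_left e8 hq.le
    rw [hk]
    linarith
  have hX : ∀ v, c ≤ v → exp (-(q * A * c * (v - c))) ≤ exp (-((q * A * c - 2 / c) * (v - c))) := by
    intro s hs
    refine exp_le_exp.2 ?_
    have := mul_le_mul_of_nonneg_right hl2 (show 0 ≤ s - c by linarith)
    linarith
  have hXs : ∀ s, c ≤ s → s ^ 2 * exp (-(q * A * c * (s - c))) ≤
      c ^ 2 * exp (-((q * A * c - 2 / c) * (s - c))) := by
    intro s hs
    have h2 := mul_le_mul_of_nonneg_right (sq_far hc0 hs) (exp_pos (-(q * A * c * (s - c)))).le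
    refine h2.trans (le_of_eq ?_)
    rw [mul_assoc, ← exp_add]
    congr 2
    ring
  have he1 : exp 1 ≤ 2.7182818286 := Real.exp_one_lt_d9.le
  have hke : ∀ K : ℝ, K / k = K * exp 1 / q := fun K => by
    rw [hk, exp_neg]
    field_simp
  have s0 : √(π ^ 3 / (2 * k)) ≤ 7 / √q := by
    have e : π ^ 3 / (2 * k) = π ^ 3 / 2 * exp 1 / q := by
      rw [← hke]
      field_simp
    rw [e]
    refine sqrt_div_le hq (by norm_num) ?_
    have h2 : π ^ 3 / 2 * exp 1 ≤ 16 * 2.7182818286 := by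
      refine mul_le_mul (by linarith [pi3_lt]) he1 (exp_pos _).le (by norm_num)
    refine h2.trans (by norm_num)
  have s2 : √(π ^ 3 / k) ≤ 19 / 2 / √q := by
    rw [hke]
    refine sqrt_div_le hq (by norm_num) ?_
    have h2 : π ^ 3 * exp 1 ≤ 32 * 2.7182818286 := by
      refine mul_le_mul (by linarith [pi3_lt]) he1 (exp_pos _).le (by norm_num)
    refine h2.trans (by norm_num)
  have h68 : 20 / 19 * √(π ^ 3 / (2 * k)) ≤ 8 / √q := by
    have h6 : 20 / 19 * (7 / √q) ≤ 8 / √q := by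
      rw [← mul_div_assoc]
      exact div_le_div_of_nonneg_right (by norm_num) hsq.le
    linarith [mul_le_mul_of_nonneg_left s0 (show (0 : ℝ) ≤ 20 / 19 by norm_num)]
  have hp0 : ∀ v : ℝ, c ≤ v → pm m (-v) ≤ 0 := fun v hv => pm_nonpos hm0 (by linarith)
  refine ⟨?_, ?_, ?_⟩
  · rw [hneg]
    refine (far_comb (θ := -θ) (k := k) (E := E) (a := 1) (b := 0)
      (F := fun v => exp (-(q * Dm m ρ θ (-v)))) hl hk0 hE0.le zero_le_one le_rfl
      fun s hs => ?_).trans (ENNReal.ofReal_le_ofReal ?_)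
    · refine (hD s hs).trans (mul_le_mul_of_nonneg_left ?_ hE0.le)
      have := mul_le_mul_of_nonneg_right (hX s hs) (exp_pos (-(k * (1 - cos (-θ + s))))).le
      linarith
    · have h5 := mul_le_mul_of_nonneg_left h68 hE0.le
      have e : 8 * E / √q = E * (8 / √q) := by ring
      rw [e]
      linarith
  · have hF : ∀ s, c ≤ s → Wm m θ 1 (-s) * exp (-(q * Dm m ρ θ (-s))) ≤
        E * (exp (-((q * A * c - 2 / c) * (s - c))) * (1 / m ^ 2 * c ^ 2 *
          exp (-(k * (1 - cos (-θ + s)))) + 1 * (2 * (1 - cos (-θ + s)) *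
          exp (-(k * (1 - cos (-θ + s))))))) := by
      intro s hs
      have hs0 : 0 ≤ s := by linarith
      have e6 : 0 ≤ 1 - cos (-θ + s) := by
        have := cos_le_one (-θ + s)
        linarith
      have hW : Wm m θ 1 (-s) ≤ 1 / m ^ 2 * s ^ 2 + 2 * (1 - cos (-θ + s)) := by
        rw [Wm_one, hcos]
        have hp := pm_ge hm0 hs0
        have he1 : exp (pm m (-s)) ≤ 1 := exp_le_one_iff.2 (hp0 s hs)
        have he0 := exp_pos (pm m (-s))
        have g1 := add_one_le_exp (pm m (-s))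
        have g2 : (exp (pm m (-s)) - 1) ^ 2 ≤ (s / m) ^ 2 := by
          rw [← neg_sq (exp (pm m (-s)) - 1)]
          exact pow_le_pow_left₀ (by linarith) (by linarith) 2
        have e : 1 / m ^ 2 * s ^ 2 = (s / m) ^ 2 := by
          field_simp
        rw [e]
        have g3 := mul_le_mul_of_nonneg_right he1 e6
        linarith
      have hX0 := hX s hs
      have hXs0 := hXs s hs
      have hx := exp_pos (-(q * A * c * (s - c)))
      have hg := exp_pos (-(k * (1 - cos (-θ + s))))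
      have hW0 := Wm_nonneg' m θ (-s)
      calc Wm m θ 1 (-s) * exp (-(q * Dm m ρ θ (-s)))
          ≤ (1 / m ^ 2 * s ^ 2 + 2 * (1 - cos (-θ + s))) *
            (E * (exp (-(q * A * c * (s - c))) * exp (-(k * (1 - cos (-θ + s)))))) :=
            mul_le_mul hW (hD s hs) (exp_pos _).le (by positivity)
        _ = E * ((1 / m ^ 2 * exp (-(k * (1 - cos (-θ + s))))) *
              (s ^ 2 * exp (-(q * A * c * (s - c)))) +
            (2 * (1 - cos (-θ + s)) * exp (-(k * (1 - cos (-θ + s))))) *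
              exp (-(q * A * c * (s - c)))) := by ring
        _ ≤ E * ((1 / m ^ 2 * exp (-(k * (1 - cos (-θ + s))))) *
              (c ^ 2 * exp (-((q * A * c - 2 / c) * (s - c)))) +
            (2 * (1 - cos (-θ + s)) * exp (-(k * (1 - cos (-θ + s))))) *
              exp (-((q * A * c - 2 / c) * (s - c)))) := by
            refine mul_le_mul_of_nonneg_left (add_le_add ?_ ?_) hE0.le
            · exact mul_le_mul_of_nonneg_left hXs0 (by positivity)
            · exact mul_le_mul_of_nonneg_left hX0 (mul_nonneg (by linarith) hg.le)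
        _ = _ := by ring
    rw [hneg]
    refine (far_comb (θ := -θ) (k := k) (E := E) (a := 1 / m ^ 2 * c ^ 2) (b := 1)
      (F := fun v => Wm m θ 1 (-v) * exp (-(q * Dm m ρ θ (-v)))) hl hk0 hE0.le
      (by positivity) zero_le_one hF).trans (ENNReal.ofReal_le_ofReal ?_)
    have h3 : 1 / m ^ 2 * c ^ 2 * (20 / 19 * √(π ^ 3 / (2 * k))) ≤ 8 * (c / m) ^ 2 / √q := by
      have e : 8 * (c / m) ^ 2 / √q = 1 / m ^ 2 * c ^ 2 * (8 / √q) := by
        rw [div_pow]
        ring
      rw [e]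
      exact mul_le_mul_of_nonneg_left h68 (by positivity)
    have h4 : 1 * (20 / 19 * (3 / 2 / k * √(π ^ 3 / k))) ≤ 54 / (q * √q) := by
      have hk3 : 3 / 2 / k ≤ 4.08 / q := by
        rw [hke]
        exact div_le_div_of_nonneg_right (by linarith) hq.le
      have h5 : 3 / 2 / k * √(π ^ 3 / k) ≤ 4.08 / q * (19 / 2 / √q) :=
        mul_le_mul hk3 s2 (Real.sqrt_nonneg _) (by positivity)
      have e : 4.08 / q * (19 / 2 / √q) = 38.76 / (q * √q) := by
        field_simp
        norm_num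
      rw [e] at h5
      calc 1 * (20 / 19 * (3 / 2 / k * √(π ^ 3 / k)))
          ≤ 20 / 19 * (38.76 / (q * √q)) := by linarith
        _ = 40.8 / (q * √q) := by ring
        _ ≤ 54 / (q * √q) := div_le_div_of_nonneg_right (by norm_num) (by positivity)
    have h5 := mul_le_mul_of_nonneg_left (add_le_add h3 h4) hE0.le
    rw [mul_comm _ E]
    exact h5
  · rw [hneg]
    refine (far_comb (θ := -θ) (k := k) (E := E) (a := 1) (b := 0)
      (F := fun v => exp (pm m (-v)) * exp (-(q * Dm m ρ θ (-v)))) hl hk0 hE0.le zero_le_one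
      le_rfl fun s hs => ?_).trans (ENNReal.ofReal_le_ofReal ?_)
    · have h2 := mul_le_mul (exp_le_one_iff.2 (hp0 s hs)) (hD s hs) (exp_pos _).le zero_le_one
      refine h2.trans ?_
      have h3 := mul_le_mul_of_nonneg_right (hX s hs) (exp_pos (-(k * (1 - cos (-θ + s))))).le
      have h4 := mul_le_mul_of_nonneg_left h3 hE0.le
      linarith
    · have h5 := mul_le_mul_of_nonneg_left h68 hE0.le
      have e : 8 * E / √q = E * (8 / √q) := by ring
      rw [e]
      linarith

end SokalCen
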