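import Pool.Agent.Lib_MP_af4de1_v3.CenZ1

/-!
# CEN, zone Z4: the image (both halves, both sides), `w = 1`

`t' = 2π - t`.  Left `θ = t`: `s` near `t'` (the right side of the path); right `θ = -t`: `s` near `-t'`.
`Zone.add_two_pi`, `Zone.sub_two_pi` : zones are `2π`-periodic in `θ`.
-/

set_option autoImplicit false

namespace SokalCen

open Real MeasureTheory Set

theorem Dm_two_pi (m ρ θ s : ℝ) : Dm m ρ (θ + 2 * π) s = Dm m ρ θ s := by
  unfold Dm
  rw [show θ + 2 * π + s = θ + s + 2 * π by ring, cos_add_two_pi]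

theorem em_two_pi (m θ s : ℝ) : em m (θ + 2 * π) s = em m θ s := by
  unfold em
  have e : ((pm m s : ℝ) : ℂ) + ((θ + 2 * π : ℝ) + s) * Complex.I =
      ((pm m s : ℝ) : ℂ) + (θ + s) * Complex.I + 2 * π * Complex.I := by
    push_cast
    ring
  rw [e, Complex.exp_add, Complex.exp_two_pi_mul_I, mul_one]

theorem Wm_two_pi (m θ : ℝ) (w : ℂ) (s : ℝ) : Wm m (θ + 2 * π) w s = Wm m θ w s := by
  unfold Wm
  rw [em_two_pi]

/-- zones are periodic -/
theorem Zone.add_two_pi {q m ρ θ : ℝ} {w : ℂ} {S : Set ℝ} {I0 IW Ie : ℝ}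
    (h : Zone q m ρ θ w S I0 IW Ie) : Zone q m ρ (θ + 2 * π) w S I0 IW Ie := by
  refine ⟨?_, ?_, ?_⟩
  · simp only [Dm_two_pi]
    exact h.i0
  · simp only [Dm_two_pi, Wm_two_pi]
    exact h.iW
  · simp only [Dm_two_pi]
    exact h.ie

theorem Zone.sub_two_pi {q m ρ θ : ℝ} {w : ℂ} {S : Set ℝ} {I0 IW Ie : ℝ}
    (h : Zone q m ρ θ w S I0 IW Ie) : Zone q m ρ (θ - 2 * π) w S I0 IW Ie := by
  have e1 : ∀ s, Dm m ρ (θ - 2 * π) s = Dm m ρ θ s := fun s => by
    have := Dm_two_pi m ρ (θ - 2 * π) s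
    rw [sub_add_cancel] at this
    exact this.symm
  have e2 : ∀ s, Wm m (θ - 2 * π) w s = Wm m θ w s := fun s => by
    have := Wm_two_pi m (θ - 2 * π) w s
    rw [sub_add_cancel] at this
    exact this.symm
  refine ⟨?_, ?_, ?_⟩
  · simp only [e1]
    exact h.i0
  · simp only [e1, e2]
    exact h.iW
  · simp only [e1]
    exact h.ie

/-! ## the half next to the path -/

/-- IMAGE, `θ = t`, `s ∈ [t' - 6/5, t']`, `t' = 2π - t`. -/
theorem imgL_main {q m ρ t t' : ℝ} (hq : 0 < q) (hρ : 0 < ρ) (hm : ρ ≤ m) (ht' : t' = 2 * π - t)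
    (h0 : 0 < t') :
    Zone q m ρ t 1 (SmR t') (gF q (AR m ρ t') (11 / 25) t' 0 1 0 0)
      (gF q (AR m ρ t') (11 / 25) t' 0 0 (eS (cT m t') ^ 2 / m ^ 2) (exp (cT m t')))
      (exp (cT m t') * gF q (AR m ρ t') (11 / 25) t' 0 1 0 0) := by
  have h := (zmain_R' hq hρ hm h0 (win_all t')).add_two_pi
  have e : -t' + 2 * π = t := by rw [ht']; ring
  rwa [e] at h

/-- IMAGE, `θ = -t`, `s ∈ [-t', -(t' - 6/5)]`, `t' = 2π - t`; `B = 11/25 e^(-t'/m)`. -/
theorem imgR_main {q m ρ t t' : ℝ} (hq : 0 < q) (hρ : 0 < ρ) (hm : ρ ≤ m) (ht' : t' = 2 * π - t)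
    (h0 : 0 < t') {B l : ℝ} (hL : Lft m t' (11 / 25) B l) :
    Zone q m ρ (-t) 1 (SmL t') (gF q (AL m ρ t') B t' l 1 0 0)
      (gF q (AL m ρ t') B t' l 0 (1 / m ^ 2) 1)
      (1 * gF q (AL m ρ t') B t' l 1 0 0) := by
  have h := (zmain_L' hq hρ hm h0 (win_all t') hL).sub_two_pi
  have e : t' - 2 * π = -t := by rw [ht']; ring
  rwa [e] at h

theorem pm_ge_one {m v : ℝ} : -1 ≤ pm m (-v) := le_max_left _ _

theorem pm_ge_cT {m v t : ℝ} (hm : 0 < m) (hv : 0 ≤ v) (hvt : v ≤ t) : -cT m t ≤ pm m (-v) := by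
  unfold cT
  rw [neg_le_iff_add_nonneg]
  rcases min_choice 1 (t / m) with h | h
  · rw [h]
    have := pm_ge_one (m := m) (v := v)
    linarith
  · rw [h]
    have h2 := pm_ge hm hv
    have h3 : v / m ≤ t / m := div_le_div_of_nonneg_right hvt hm.le
    linarith

/-- the factor `e^a` on the left with the clipped path -/
theorem lft_cT {m t β : ℝ} (hm : 0 < m) (hβ : 0 < β) : Lft m t β (β * exp (-cT m t)) 0 := by
  refine ⟨by positivity, le_rfl, fun v hv hvt => ?_⟩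
  have h1 := pm_ge_cT hm hv hvt
  have h2 := exp_le_exp.2 h1
  have h3 := mul_le_mul_of_nonneg_right h2 (show 0 ≤ β * (t - v) ^ 2 by positivity)
  linarith

/-! ## the half behind -/

private theorem cos_img {t t' s : ℝ} (ht' : t' = 2 * π - t) : cos (t + s) = cos (s - t') := by
  rw [ht', show s - (2 * π - t) = t + s - 2 * π by ring, cos_sub_two_pi]

private theorem img_cos {z : ℝ} (h0 : 0 ≤ z) (h1 : z ≤ 6 / 5) : 11 / 25 * z ^ 2 ≤ 1 - cos z :=
  (win_all z).2 z h0 le_rfl h1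

private theorem img_half {c Z b K c0 c1 c2 J : ℝ} {F : ℝ → ℝ} (hb : 0 < b)
    (h0 : ∀ z : ℝ, 0 < z → 0 ≤ c0 + c1 * z + c2 * z ^ 2)
    (hF : ∀ z : ℝ, 0 < z → z ≤ Z → F (z + c) ≤ (c0 + c1 * z + c2 * z ^ 2) * exp (-(b * z ^ 2)))
    (hJ : c0 * (√(π / b) / 2) + c1 * (1 / (2 * b)) + c2 * (√(π / b) / (4 * b)) ≤ J) (hK : K = c + Z) :
    ∫⁻ s in Icc c K, ENNReal.ofReal (F s) ≤ ENNReal.ofReal J := by
  have h1 : ∫⁻ s in Icc c K, ENNReal.ofReal (F s) = ∫⁻ s in Ioc c K, ENNReal.ofReal (F s) :=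
    setLIntegral_congr Ioc_ae_eq_Icc.symm
  have h2 : ∫⁻ s in Ioc c K, ENNReal.ofReal (F s) ≤
      ∫⁻ s in Ioi c, ENNReal.ofReal ((c0 + c1 * (s - c) + c2 * (s - c) ^ 2) *
        exp (-(b * (s - c) ^ 2))) := by
    refine le_trans (setLIntegral_mono' measurableSet_Ioc fun s hs => ENNReal.ofReal_le_ofReal ?_)
      (lintegral_mono_set fun s hs => hs.1)
    have h3 := hF (s - c) (by linarith [hs.1]) (by linarith [hs.2])
    rwa [sub_add_cancel] at h3
  rw [h1]
  refine h2.trans ?_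
  rw [lint_Ioi]
  refine (half_le hb h0 fun z _ => ?_).trans (ENNReal.ofReal_le_ofReal hJ)
  rw [add_sub_cancel_right]

/-- IMAGE, behind, `θ = t`, `s ∈ [t', t' + 6/5]`. -/
theorem imgL_beh {q m ρ t t' Z b E : ℝ} (hq : 0 < q) (hρ : 0 < ρ) (hm : ρ ≤ m)
    (ht' : t' = 2 * π - t) (h0 : 0 < t') (hZ : Z = t' + 6 / 5) (hb : b = q * (AR m ρ Z + 11 / 25))
    (hE : E = exp (-(q * (AR m ρ Z * t' ^ 2)))) :
    Zone q m ρ t 1 (Icc t' Z) (E * (√(π / b) / 2))
      (eS (cT m Z) ^ 2 / m ^ 2 * (t' ^ 2 * (E * (√(π / b) / 2)) + 2 * t' * (E * (1 / (2 * b))) +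
        E * (√(π / b) / (4 * b))) + exp (cT m Z) * (E * (√(π / b) / (4 * b))))
      (exp (cT m Z) * (E * (√(π / b) / 2))) := by
  have hm0 : 0 < m := hρ.trans_le hm
  have hZ0 : 0 < Z := by rw [hZ]; linarith
  have hA := AR_pos hρ hm hZ0
  have hb0 : 0 < b := by rw [hb]; positivity
  have hE0 : 0 < E := by rw [hE]; exact exp_pos _
  have hEx : ∀ z : ℝ, 0 < z → z ≤ 6 / 5 → exp (-(q * Dm m ρ t (z + t'))) ≤
      E * exp (-(b * z ^ 2)) := by
    intro z hz hz1
    rw [hE, ← exp_add]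
    refine exp_le_exp.2 ?_
    have e1 := Qm_AR hρ hm (show 0 ≤ z + t' by linarith) (show z + t' ≤ Z by linarith) hZ0
    have e2 := img_cos hz.le hz1
    have e3 : 1 ≤ exp (pm m (z + t')) := one_le_exp (pm_nonneg hm0 (by linarith))
    have e4 : 0 ≤ 1 - cos z := by
      have := cos_le_one z
      linarith
    have e5 : 1 - cos z ≤ exp (pm m (z + t')) * (1 - cos z) := le_mul_of_one_le_left e4 e3
    have e6 : AR m ρ Z * t' ^ 2 + (AR m ρ Z + 11 / 25) * z ^ 2 ≤ Dm m ρ t (z + t') := by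
      rw [Dm_eq, cos_img ht', add_sub_cancel_right]
      nlinarith [mul_pos (mul_pos hA hz) h0]
    have e7 := mul_le_mul_of_nonneg_left e6 hq.le
    rw [hb]
    linarith
  have hS : MeasurableSet (Icc t' Z) := measurableSet_Icc
  have hk : 0 ≤ eS (cT m Z) ^ 2 / m ^ 2 := by positivity
  have hT := exp_pos (cT m Z)
  refine ⟨?_, ?_, ?_⟩
  · refine img_half (c0 := E) (c1 := 0) (c2 := 0) hb0 (fun z _ => by linarith)
      (fun z hz hz1 => ?_) (by linarith) hZ
    have := hEx z hz hz1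
    linarith
  · refine img_half (c0 := E * (eS (cT m Z) ^ 2 / m ^ 2) * t' ^ 2)
      (c1 := 2 * (E * (eS (cT m Z) ^ 2 / m ^ 2)) * t')
      (c2 := E * (eS (cT m Z) ^ 2 / m ^ 2 + exp (cT m Z))) hb0 (fun z hz => by positivity)
      (fun z hz hz1 => ?_) (le_of_eq ?_) hZ
    · have h1 := hEx z hz hz1
      have h2 := Wm_one_R (θ := t) hm0 (show 0 ≤ z + t' by linarith)
        (show z + t' ≤ Z by linarith) hZ0
      have h3 : Wm m t 1 (z + t') ≤ eS (cT m Z) ^ 2 / m ^ 2 * (z + t') ^ 2 +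
          exp (cT m Z) * z ^ 2 := by
        rw [Wm_one]
        have hp0 : 0 ≤ pm m (z + t') := pm_nonneg hm0 (by linarith)
        have hp := pm_le hm0 (show 0 ≤ z + t' by linarith)
        have hpT := pm_le_cT hm0 (show 0 ≤ z + t' by linarith) (show z + t' ≤ Z by linarith)
        have hT0 : 0 < cT m Z := lt_min one_pos (div_pos hZ0 hm0)
        have he := exp_le_exp.2 hpT
        have he0 := exp_pos (pm m (z + t'))
        have g1 := eS_ge hp0 hpT hT0
        have hS := eS_nonneg hT0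
        have he1 : 1 ≤ exp (pm m (z + t')) := one_le_exp hp0
        have g2 : (exp (pm m (z + t')) - 1) ^ 2 ≤ (eS (cT m Z) * ((z + t') / m)) ^ 2 :=
          pow_le_pow_left₀ (by linarith) (g1.trans (mul_le_mul_of_nonneg_left hp hS)) 2
        have e : eS (cT m Z) ^ 2 / m ^ 2 * (z + t') ^ 2 = (eS (cT m Z) * ((z + t') / m)) ^ 2 := by
          field_simp
        rw [e, cos_img ht', add_sub_cancel_right]
        have g3 := one_sub_cos_le z
        have g4 : 0 ≤ 1 - cos z := by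
          have := cos_le_one z
          linarith
        nlinarith [mul_le_mul_of_nonneg_left g3 he0.le, mul_le_mul_of_nonneg_right he (sq_nonneg z)]
      have h4 := mul_le_mul h3 h1 (exp_pos _).le (by positivity)
      refine h4.trans (le_of_eq ?_)
      ring
    · ring
  · refine img_half (c0 := exp (cT m Z) * E) (c1 := 0) (c2 := 0) hb0 (fun z _ => by nlinarith [mul_pos hT hE0])
      (fun z hz hz1 => ?_) (by linarith) hZ
    have h1 := hEx z hz hz1
    have h2 := exp_le_exp.2 (pm_le_cT hm0 (show 0 ≤ z + t' by linarith) (show z + t' ≤ Z by linarith))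
    have h3 := mul_le_mul h2 h1 (exp_pos _).le hT.le
    refine h3.trans (le_of_eq ?_)
    ring

private theorem cos_img' {t t' z : ℝ} (ht' : t' = 2 * π - t) : cos (-t + -(z + t')) = cos z := by
  rw [ht', show -t + -(z + (2 * π - t)) = -(z + 2 * π) by ring, cos_neg, cos_add_two_pi]

/-- IMAGE, behind, `θ = -t`, `s ∈ [-(t' + 6/5), -t']`. -/
theorem imgR_beh {q m ρ t t' Z b E : ℝ} (hq : 0 < q) (hρ : 0 < ρ) (hm : ρ ≤ m)
    (ht' : t' = 2 * π - t) (h0 : 0 < t') (hZ : Z = t' + 6 / 5)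
    (hb : b = q * (AL m ρ Z + 11 / 25 * exp (-cT m Z)))
    (hE : E = exp (-(q * (AL m ρ Z * t' ^ 2)))) :
    Zone q m ρ (-t) 1 (Icc (-Z) (-t')) (E * (√(π / b) / 2))
      (1 / m ^ 2 * (t' ^ 2 * (E * (√(π / b) / 2)) + 2 * t' * (E * (1 / (2 * b))) +
        E * (√(π / b) / (4 * b))) + E * (√(π / b) / (4 * b)))
      (E * (√(π / b) / 2)) := by
  have hm0 : 0 < m := hρ.trans_le hm
  have hZ0 : 0 < Z := by rw [hZ]; linarith
  have hA := AL_pos hρ hm hZ0
  have hb0 : 0 < b := by rw [hb]; positivity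
  have hE0 : 0 < E := by rw [hE]; exact exp_pos _
  have hEx : ∀ z : ℝ, 0 < z → z ≤ 6 / 5 → exp (-(q * Dm m ρ (-t) (-(z + t')))) ≤
      E * exp (-(b * z ^ 2)) := by
    intro z hz hz1
    rw [hE, ← exp_add]
    refine exp_le_exp.2 ?_
    have e1 := Qm_AL hρ hm (show 0 ≤ z + t' by linarith) (show z + t' ≤ Z by linarith) hZ0
    have e2 := img_cos hz.le hz1
    have e3 : exp (-cT m Z) ≤ exp (pm m (-(z + t'))) :=
      exp_le_exp.2 (pm_ge_cT hm0 (by linarith) (by linarith))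
    have e4 : 0 ≤ 1 - cos z := by
      have := cos_le_one z
      linarith
    have e5 := mul_le_mul_of_nonneg_right e3 e4
    have e5' := mul_le_mul_of_nonneg_left e2 (exp_pos (-cT m Z)).le
    have e6 : AL m ρ Z * t' ^ 2 + (AL m ρ Z + 11 / 25 * exp (-cT m Z)) * z ^ 2 ≤
        Dm m ρ (-t) (-(z + t')) := by
      rw [Dm_eq, cos_img' ht']
      nlinarith [mul_pos (mul_pos hA hz) h0]
    have e7 := mul_le_mul_of_nonneg_left e6 hq.le
    rw [hb]
    linarith
  have hk : 0 ≤ 1 / m ^ 2 := by positivity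
  refine ⟨?_, ?_, ?_⟩
  · rw [lint_Icc_neg, neg_neg, neg_neg]
    refine img_half (F := fun v => exp (-(q * Dm m ρ (-t) (-v)))) (c0 := E) (c1 := 0) (c2 := 0) hb0
      (fun z _ => by linarith) (fun z hz hz1 => ?_) (by linarith) hZ
    have := hEx z hz hz1
    linarith
  · rw [lint_Icc_neg, neg_neg, neg_neg]
    refine img_half (F := fun v => Wm m (-t) 1 (-v) * exp (-(q * Dm m ρ (-t) (-v))))
      (c0 := E * (1 / m ^ 2) * t' ^ 2)
      (c1 := 2 * (E * (1 / m ^ 2)) * t')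
      (c2 := E * (1 / m ^ 2 + 1)) hb0 (fun z hz => by positivity)
      (fun z hz hz1 => ?_) (le_of_eq ?_) hZ
    · have h1 := hEx z hz hz1
      have h3 : Wm m (-t) 1 (-(z + t')) ≤ 1 / m ^ 2 * (z + t') ^ 2 + z ^ 2 := by
        rw [Wm_one, cos_img' ht']
        have hp0 : pm m (-(z + t')) ≤ 0 := pm_nonpos hm0 (by linarith)
        have hp := pm_ge hm0 (show 0 ≤ z + t' by linarith)
        have he1 : exp (pm m (-(z + t'))) ≤ 1 := exp_le_one_iff.2 hp0
        have he0 := exp_pos (pm m (-(z + t')))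
        have g1 := add_one_le_exp (pm m (-(z + t')))
        have g2 : (exp (pm m (-(z + t'))) - 1) ^ 2 ≤ ((z + t') / m) ^ 2 := by
          rw [← neg_sq (exp (pm m (-(z + t'))) - 1)]
          exact pow_le_pow_left₀ (by linarith) (by linarith) 2
        have e : 1 / m ^ 2 * (z + t') ^ 2 = ((z + t') / m) ^ 2 := by
          field_simp
        rw [e]
        have g3 := one_sub_cos_le z
        have g4 : 0 ≤ 1 - cos z := by
          have := cos_le_one z
          linarith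
        nlinarith
      have h4 := mul_le_mul h3 h1 (exp_pos _).le (by positivity)
      refine h4.trans (le_of_eq ?_)
      ring
    · ring
  · rw [lint_Icc_neg, neg_neg, neg_neg]
    refine img_half (F := fun v => exp (pm m (-v)) * exp (-(q * Dm m ρ (-t) (-v)))) (c0 := E) (c1 := 0)
      (c2 := 0) hb0 (fun z _ => by linarith) (fun z hz hz1 => ?_) (by linarith) hZ
    have h1 := hEx z hz hz1
    have h2 : exp (pm m (-(z + t'))) ≤ 1 := exp_le_one_iff.2 (pm_nonpos hm0 (by linarith))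
    have h3 := mul_le_mul h2 h1 (exp_pos _).le zero_le_one
    refine h3.trans (le_of_eq ?_)
    ring

end SokalCen
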