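import Pool.Agent.Lib_MP_af4de1_v3.CenSumL
import Pool.Agent.Lib_MP_af4de1_v3.CenImg
import Pool.Agent.Lib_MP_af4de1_v3.CenFar
import Pool.Agent.Lib_MP_af4de1_v3.ShfW

/-!
# CEN: the total on the left with the direction `w = K/ρ`

Main zone: truncated (`g0`, `gW`) and Pythagoras (`Zone.pyth_L`).  All the other zones: base point `w = 1`, ONE
triangle inequality.  `TL0 TLW TLE`; the part behind of the image is a parameter `v` (`tkL` of helper82,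
`tjL` with slope), `zoneTL`, `shf_TL`.  Rest and far: parameter `u` (`uF`: helper82's far zones, uniform in
`r`; `uL`: rays, only for bounded `r`).
-/

set_option autoImplicit false

namespace SokalCen

open MeasureTheory Set SokalU SokalF1 SokalF1S SokalF1M SokalV3

/-- `b` of the image part behind -/
noncomputable def kb (q m ρ t' : ℝ) : ℝ := q * (AR m ρ (t' + 6 / 5) + 11 / 25)

/-- `E` of the image part behind -/
noncomputable def kE (q m ρ t' : ℝ) : ℝ := Real.exp (-(q * (AR m ρ (t' + 6 / 5) * t' ^ 2)))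

/-- image, behind: helper82's closed form without the slope -/
noncomputable def tkL (q m ρ t' : ℝ) : ℝ × ℝ × ℝ :=
  (kE q m ρ t' * (√(Real.pi / kb q m ρ t') / 2),
    eS (cT m (t' + 6 / 5)) ^ 2 / m ^ 2 * (t' ^ 2 * (kE q m ρ t' * (√(Real.pi / kb q m ρ t') / 2)) +
      2 * t' * (kE q m ρ t' * (1 / (2 * kb q m ρ t'))) +
      kE q m ρ t' * (√(Real.pi / kb q m ρ t') / (4 * kb q m ρ t'))) +
      Real.exp (cT m (t' + 6 / 5)) * (kE q m ρ t' * (√(Real.pi / kb q m ρ t') / (4 * kb q m ρ t'))),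
    Real.exp (cT m (t' + 6 / 5)) * (kE q m ρ t' * (√(Real.pi / kb q m ρ t') / 2)))

theorem kb_pos {q m ρ t' : ℝ} (hq : 0 < q) (hρ : 0 < ρ) (hm : ρ ≤ m) (ht : 0 < t') :
    0 < kb q m ρ t' := by
  have := AR_pos hρ hm (by linarith : 0 < t' + 6 / 5)
  unfold kb
  positivity

theorem zn_imgk {q m ρ t : ℝ} (hq : 0 < q) (hρ : 0 < ρ) (hm : ρ ≤ m) (ht : t ≤ Real.pi) :
    Zn q m ρ t 1 (Icc (2 * Real.pi - t) (2 * Real.pi - t + 6 / 5)) (tkL q m ρ (2 * Real.pi - t)) := by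
  have hm0 : 0 < m := hρ.trans_le hm
  have ht' : 0 < 2 * Real.pi - t := by linarith [Real.pi_pos]
  have hb := kb_pos hq hρ hm ht'
  have hE : 0 < kE q m ρ (2 * Real.pi - t) := by
    unfold kE
    exact Real.exp_pos _
  exact ⟨⟨by unfold tkL; positivity, by unfold tkL; positivity, by unfold tkL; positivity⟩,
    imgL_beh hq hρ hm rfl ht' rfl rfl rfl⟩

/-- the other zones, base point `1`; `v` = image behind, `u` = rest and far -/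
noncomputable def oL (q m ρ t : ℝ) (v u : ℝ × ℝ × ℝ) : ℝ × ℝ × ℝ :=
  tbL q m ρ t + tfL q m ρ t + tiL q m ρ (2 * Real.pi - t) + v + u

/-- rest and far -/
noncomputable def uL (q m ρ t ε : ℝ) : ℝ × ℝ × ℝ :=
  trL q m ρ ε + tgR q m ρ (2 * Real.pi - t + 5) + tgL q m ρ (t + 5)

/-- far, right end (helper82) -/
noncomputable def tFR (q m ρ c : ℝ) : ℝ × ℝ × ℝ :=
  (8 * Real.exp (-(q * (AR m ρ c * c ^ 2))) / √q,
    (24 * (c / m) ^ 2 / √q + 54 / (q * √q)) * Real.exp (-(q * (AR m ρ c * c ^ 2))),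
    22 * Real.exp (-(q * (AR m ρ c * c ^ 2))) / √q)

/-- far, left end (helper82) -/
noncomputable def tFL (q m ρ c : ℝ) : ℝ × ℝ × ℝ :=
  (8 * Real.exp (-(q * (AL m ρ c * c ^ 2))) / √q,
    (8 * (c / m) ^ 2 / √q + 54 / (q * √q)) * Real.exp (-(q * (AL m ρ c * c ^ 2))),
    8 * Real.exp (-(q * (AL m ρ c * c ^ 2))) / √q)

/-- rest and far, uniform in `q` -/
noncomputable def uF (q m ρ t ε : ℝ) : ℝ × ℝ × ℝ :=
  trL q m ρ ε + tFR q m ρ (2 * Real.pi - t + 5) + tFL q m ρ (t + 5)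

/-- total `I0` -/
noncomputable def TL0 (q m ρ t B l : ℝ) (v u : ℝ × ℝ × ℝ) : ℝ :=
  (tmL' q m ρ t B l).1 + (oL q m ρ t v u).1
/-- total `IW` with the direction `w`, `κ ≥ |w - 1|` -/
noncomputable def TLW (q m ρ t B l : ℝ) (v u : ℝ × ℝ × ℝ) (κ : ℝ) : ℝ :=
  (1 * (tmL' q m ρ t B l).2.1 + κ ^ 2 * (tmL' q m ρ t B l).1) +
    (√(oL q m ρ t v u).2.1 + κ * √(oL q m ρ t v u).1) ^ 2
/-- total `Ie` -/
noncomputable def TLE (q m ρ t B l : ℝ) (v u : ℝ × ℝ × ℝ) : ℝ :=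
  (tmL' q m ρ t B l).2.2 + (oL q m ρ t v u).2.2

/-- the set of the other zones -/
def So (t : ℝ) : Set ℝ := Icc (-(t + 6 / 5)) (-t) ∪ Icc 0 (6 / 5 - t) ∪
  Icc (max 0 (2 * Real.pi - t - 6 / 5)) (2 * Real.pi - t) ∪
  Icc (2 * Real.pi - t) (2 * Real.pi - t + 6 / 5) ∪ ({s | 6336 / 10000 ≤ 1 - Real.cos (t + s)} ∪
  Ici (2 * Real.pi - t + 5) ∪ Iic (-(t + 5)))

theorem cov_So {t : ℝ} (h0 : 0 < t) (h1 : t ≤ Real.pi) (s : ℝ) :
    s ∈ Icc (-t) (min 0 (6 / 5 - t)) ∪ So t := by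
  have hc := cover_L h0 h1 s
  unfold So
  simp only [mem_union]
  rcases hc with h | h | h | h | h | h | h | h
  · tauto
  · tauto
  · tauto
  · tauto
  · tauto
  · tauto
  · tauto
  · have : s ∈ {s | 6336 / 10000 ≤ 1 - Real.cos (t + s)} := h
    tauto

theorem zn_u {q m ρ t ε : ℝ} (hq : 0 < q) (hρ : 0 < ρ) (hm' : 5 / 4 * ρ ≤ m) (h0 : 0 < t)
    (h1 : t ≤ Real.pi) (he0 : 0 < ε) (he1 : ε < 1) :
    Zn q m ρ t 1 ({s | 6336 / 10000 ≤ 1 - Real.cos (t + s)} ∪ Ici (2 * Real.pi - t + 5) ∪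
      Iic (-(t + 5))) (uL q m ρ t ε) := by
  have hm : ρ ≤ m := by linarith
  exact ((zn_rest hq hρ hm hm' he0 he1).add (zn_farR hq hρ hm (by linarith [Real.pi_pos]))).add
    (zn_farL hq hρ hm (by linarith))

theorem zn_farR' {q m ρ θ c : ℝ} (hq : 0 < q) (hρ : 0 < ρ) (hm : ρ ≤ m) (hc : 4 ≤ c)
    (h1 : 1 ≤ q * AR m ρ c * c) : Zn q m ρ θ 1 (Ici c) (tFR q m ρ c) := by
  have hm0 : 0 < m := hρ.trans_le hm
  exact ⟨⟨by unfold tFR; positivity, by unfold tFR; positivity, by unfold tFR; positivity⟩,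
    farR hq hρ hm hc rfl h1 rfl⟩

theorem zn_farL' {q m ρ θ c : ℝ} (hq : 0 < q) (hρ : 0 < ρ) (hm : ρ ≤ m) (hc : 4 ≤ c)
    (h1 : 1 ≤ q * AL m ρ c * c) : Zn q m ρ θ 1 (Iic (-c)) (tFL q m ρ c) := by
  have hm0 : 0 < m := hρ.trans_le hm
  exact ⟨⟨by unfold tFL; positivity, by unfold tFL; positivity, by unfold tFL; positivity⟩,
    farL hq hρ hm hc rfl h1 rfl⟩

/-- rest and far, uniform in `q` (helper82's FAR) -/
theorem zn_uF {q m ρ t ε : ℝ} (hq : 0 < q) (hρ : 0 < ρ) (hm' : 5 / 4 * ρ ≤ m) (h0 : 0 < t)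
    (h1 : t ≤ Real.pi) (he0 : 0 < ε) (he1 : ε < 1)
    (hR : 1 ≤ q * AR m ρ (2 * Real.pi - t + 5) * (2 * Real.pi - t + 5))
    (hL : 1 ≤ q * AL m ρ (t + 5) * (t + 5)) :
    Zn q m ρ t 1 ({s | 6336 / 10000 ≤ 1 - Real.cos (t + s)} ∪ Ici (2 * Real.pi - t + 5) ∪
      Iic (-(t + 5))) (uF q m ρ t ε) := by
  have hm : ρ ≤ m := by linarith
  exact ((zn_rest hq hρ hm hm' he0 he1).add
    (zn_farR' hq hρ hm (by linarith [Real.pi_pos]) hR)).add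
    (zn_farL' hq hρ hm (by linarith) hL)

theorem zn_o {q m ρ t : ℝ} {v u : ℝ × ℝ × ℝ} (hq : 0 < q) (hρ : 0 < ρ) (hm : ρ ≤ m)
    (hm1 : 5 / 4 ≤ m) (h0 : 0 < t) (h1 : t ≤ Real.pi) (hs : t ≤ 6 / 5 → 1 ≤ q * m * Real.sin t)
    (hv : Zn q m ρ t 1 (Icc (2 * Real.pi - t) (2 * Real.pi - t + 6 / 5)) v)
    (hu : Zn q m ρ t 1 ({s | 6336 / 10000 ≤ 1 - Real.cos (t + s)} ∪ Ici (2 * Real.pi - t + 5) ∪
      Iic (-(t + 5))) u) : Zn q m ρ t 1 (So t) (oL q m ρ t v u) :=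
  ((((zn_beh hq hρ hm h0.le).add (zn_front hq hρ hm hm1 h0 hs)).add (zn_img hq hρ hm h1)).add hv).add hu

/-- THE TOTAL, LEFT, direction `w = K/ρ`. -/
theorem zoneTL {r δ y η g k q m t β B l : ℝ} {v u : ℝ × ℝ × ℝ} (hr : 0 < r) (hA : At r δ y η)
    (hy : 0 ≤ y) (hL : Lev r δ y η g k q) (hm' : r * δ ≤ m) (hm1 : 5 / 4 ≤ m)
    (h0 : 0 < t) (h1 : t ≤ Real.pi) (hW : Win β t) (hLf : Lft m t β B l)
    (hs : t ≤ 6 / 5 → 1 ≤ r * m * Real.sin t)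
    (hv : Zn r m (r * δ) t 1 (Icc (2 * Real.pi - t) (2 * Real.pi - t + 6 / 5)) v)
    (hu : Zn r m (r * δ) t 1 ({s | 6336 / 10000 ≤ 1 - Real.cos (t + s)} ∪
      Ici (2 * Real.pi - t + 5) ∪ Iic (-(t + 5))) u) :
    0 ≤ TL0 r m (r * δ) t B l v u ∧ 0 ≤ TLW r m (r * δ) t B l v u (k * (|η| / √(RR r δ))) ∧
      0 ≤ TLE r m (r * δ) t B l v u ∧
    Zone r m (r * δ) t (sK (r * δ) y / (r * δ : ℝ)) univ (TL0 r m (r * δ) t B l v u)
      (TLW r m (r * δ) t B l v u (k * (|η| / √(RR r δ)))) (TLE r m (r * δ) t B l v u) := by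
  have hρ : 0 < r * δ := hA.dom.1
  have hm0 : 0 < m := by linarith
  have hw := norm_w_sub hr hL
  have hκ : 0 ≤ k * (|η| / √(RR r δ)) := (norm_nonneg _).trans hw
  obtain ⟨⟨a0, a1, a2⟩, zm⟩ := zn_main' hr hρ hm' h0 hW hLf
  obtain ⟨⟨b0, b1, b2⟩, zo⟩ := zn_o hr hρ hm' hm1 h0 h1 hs hv hu
  have hp := Real.pi_gt_three
  have Z1 := Zone.pyth_L measurableSet_Icc hr hm0 hA hy hL a0 a1
    (fun s hs => hs.2.trans (min_le_left _ _)) (fun s hs => hs.1)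
    (fun s hs => by
      have := hs.2.trans (min_le_right _ _)
      linarith) zm
  have Z2 := zo.tri b0 b1 hw
  have n1 : 0 ≤ 1 * (tmL' r m (r * δ) t B l).2.1 +
      (k * (|η| / √(RR r δ))) ^ 2 * (tmL' r m (r * δ) t B l).1 := by positivity
  have n2 : 0 ≤ (√(oL r m (r * δ) t v u).2.1 +
      k * (|η| / √(RR r δ)) * √(oL r m (r * δ) t v u).1) ^ 2 := sq_nonneg _
  have Z3 := (Z1.union Z2 a0 n1 a2 b0 n2 b2).subset (fun s _ => cov_So h0 h1 s : univ ⊆ _)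
  exact ⟨add_nonneg a0 b0, add_nonneg n1 n2, add_nonneg a2 b2, Z3⟩

theorem mm_ge {ρ : ℝ} : 5 / 4 ≤ mm ρ := by
  unfold mm
  have : (1 : ℝ) ≤ √(1 + ρ ^ 2) := by
    rw [Real.one_le_sqrt]
    linarith [sq_nonneg ρ]
  linarith

theorem mm_ge' {ρ : ℝ} : 5 / 4 * ρ ≤ mm ρ := by
  unfold mm
  have : ρ ≤ √(1 + ρ ^ 2) := Real.le_sqrt_of_sq_le (by linarith)
  linarith

/-- LEFT: from the three numbers to `Shf`. `m = mm ρ`, `v = tkL ..` or `tjL ..`, `u = uL ..`. -/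
theorem shf_TL {N : ℕ} {r δ y η ζ g k q β B l f0 f1 f2 : ℝ} {v u : ℝ × ℝ × ℝ} (hN : 1 ≤ N)
    (hr : 0 < r) (hδ : 0 < δ) (hA : At r δ y η) (hy : 0 ≤ y) (hL : Lev r δ y η g k q)
    (h0 : 0 < η + ζ) (h1 : η + ζ ≤ Real.pi) (hW : Win β (η + ζ))
    (hLf : Lft (mm (r * δ)) (η + ζ) β B l)
    (hs : η + ζ ≤ 6 / 5 → 1 ≤ r * mm (r * δ) * Real.sin (η + ζ))
    (hv : Zn r (mm (r * δ)) (r * δ) (η + ζ) 1
      (Icc (2 * Real.pi - (η + ζ)) (2 * Real.pi - (η + ζ) + 6 / 5)) v)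
    (hu : Zn r (mm (r * δ)) (r * δ) (η + ζ) 1 ({s | 6336 / 10000 ≤ 1 - Real.cos (η + ζ + s)} ∪
      Ici (2 * Real.pi - (η + ζ) + 5) ∪ Iic (-(η + ζ + 5))) u)
    (hf0 : PF r δ η g q * TL0 r (mm (r * δ)) (r * δ) (η + ζ) B l v u ≤ f0)
    (hf1 : √(PF r δ η g q * TL0 r (mm (r * δ)) (r * δ) (η + ζ) B l v u *
      (PF r δ η g q * TLW r (mm (r * δ)) (r * δ) (η + ζ) B l v u (k * (|η| / √(RR r δ))) *
        (RR r δ / hst N ^ 2))) ≤ f1)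
    (hf2 : PF r δ η g q * TLW r (mm (r * δ)) (r * δ) (η + ζ) B l v u (k * (|η| / √(RR r δ))) *
      (RR r δ / hst N ^ 2) + PF r δ η g q * TLE r (mm (r * δ)) (r * δ) (η + ζ) B l v u / Gm N r δ ≤ f2) :
    Shf r δ y ζ (HH N r δ) f0 f1 f2 := by
  have hm : r * δ ≤ mm (r * δ) := by
    have := mm_ge' (ρ := r * δ)
    have := mul_pos hr hδ
    linarith
  obtain ⟨n0, n1, n2, Z⟩ := zoneTL hr hA hy hL hm mm_ge h0 h1 hW hLf hs hv hu
  exact shf_wK hN hr hδ hA hL n0 n1 n2 Z hf0 hf1 hf2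

end SokalCen
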