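import Pool.Agent.Lib_MP_af4de1_v3.BrG
import Pool.Agent.Lib_MP_af4de1_v3.CelL3
import Pool.Agent.Lib_MP_af4de1_v3.CelL2
import Pool.Agent.Lib_MP_af4de1_v3.CenTL

/-!
# Bridge, left side: behind, front, image behind (helper6)

`PF · I0`, `PF · IW · R/h²` of the zones in helper58's scaled forms.
-/

set_option autoImplicit false

namespace SokalCel

open SokalFN SokalF1 SokalV3 SokalCen Real

/-! ### the half Gaussian -/

theorem hg1 {B : ℝ} (hB : 0 < B) : 1 / (2 * B) = √(π / B) / 2 * √(1 / (π * B)) := by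
  have hpi := pi_pos
  have e : √(π / B) * √(1 / (π * B)) = 1 / B := by
    rw [← Real.sqrt_mul (by positivity)]
    have e1 : π / B * (1 / (π * B)) = (1 / B) ^ 2 := by
      field_simp
    rw [e1, Real.sqrt_sq (by positivity)]
  have e2 : √(π / B) / 2 * √(1 / (π * B)) = (√(π / B) * √(1 / (π * B))) / 2 := by ring
  rw [e2, e]
  field_simp

theorem hg2 {B : ℝ} (hB : 0 < B) : √(π / B) / (4 * B) = √(π / B) / 2 * (1 / (2 * B)) := by
  field_simp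
  norm_num

section

variable {r δ η c ν h τ Γ Y : ℝ}

theorem Scl0.s1 (s : Scl0 r δ η c ν h τ Γ) (hY : 0 < Y) :
    √(1 / (π * (r * (Y / ν)))) = h * c * √(ν / (Γ * Y) * (1 / π)) := by
  have h2 := s.c0
  have h3 := s.n0
  have h4 := s.h0
  have h5 := s.Gpos
  have hpi := pi_pos
  have e : h * c = √((h * c) ^ 2) := (Real.sqrt_sq (by positivity)).symm
  rw [e, ← Real.sqrt_mul (by positivity), s.er]
  congr 1
  field_simp

theorem Scl0.s2 (s : Scl0 r δ η c ν h τ Γ) (hY : 0 < Y) :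
    1 / (2 * (r * (Y / ν))) = (h * c) ^ 2 * (ν / (Γ * Y)) / 2 := by
  have h2 := s.c0
  have h3 := s.n0
  have h4 := s.h0
  have h5 := s.Gpos
  rw [s.er]
  field_simp

/-- `PF √(π/(r Y/ν))` -/
theorem Scl0.PH (s : Scl0 r δ η c ν h τ Γ) (hY : 0 < Y) {g q : ℝ} (hq : 0 ≤ q) :
    PF r δ η g q * √(π / (r * (Y / ν))) =
      √(q * (1 + c ^ 2 / (5 / 4) ^ 2) / (2 * Y)) * exp (g / 2 * Γ * τ ^ 2) := by
  have h3 := s.n0
  have h4 := s.P (g := g) (q := q) (μ := 5 / 4) (X := Y / ν) hq (by norm_num) (by positivity)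
  unfold PF
  rw [s.em, h4]
  congr 2
  field_simp

theorem Scl0.hR (s : Scl0 r δ η c ν h τ Γ) : RR r δ / h ^ 2 = 1 / (h * c) ^ 2 := by
  have h2 := s.c0
  have h4 := s.h0
  rw [s.eRR]
  field_simp

end

/-! ### the slopes -/

theorem max_inv {x : ℝ} (hx : 0 < x) : min 1 (1 / x) = 1 / max 1 x := by
  rcases le_total 1 x with h | h
  · rw [max_eq_right h, min_eq_right]
    rw [div_le_one hx]
    exact h
  · rw [max_eq_left h, min_eq_left, div_one]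
    rw [le_div_iff₀ hx, one_mul]
    exact h

theorem AL_eq {μ c ν t : ℝ} (hμ : 0 < μ) (hc : 0 < c) (hν : 0 < ν) (ht : 0 < t) :
    AL (μ / c) (ν / c) t = La μ ν (t * c / μ) * c ^ 2 / ν := by
  have e1 : μ / c / t = 1 / (t * c / μ) := by field_simp
  have hm : (0 : ℝ) < max 1 (t * c / μ) := lt_max_of_lt_left one_pos
  unfold AL aL La
  rw [e1, max_inv (by positivity)]
  field_simp

theorem cT_eq {μ c t : ℝ} (hμ : 0 < μ) (hc : 0 < c) : cT (μ / c) t = min 1 (t * c / μ) := by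
  unfold cT
  congr 1
  field_simp

theorem AR_eq' {μ c ν t : ℝ} (hμ : 0 < μ) (hc : 0 < c) (hν : 0 < ν) (ht : 0 < t) :
    AR (μ / c) (ν / c) t = Lr μ ν (t * c / μ) * c ^ 2 / ν := by
  have e1 : μ / c / t = 1 / (t * c / μ) := by field_simp
  have hm : (0 : ℝ) < max 1 (t * c / μ) := lt_max_of_lt_left one_pos
  unfold AR aR Lr
  rw [e1, max_inv (by positivity), cT_eq hμ hc]
  field_simp

theorem La_pos {μ ν T : ℝ} (hμ : 1 ≤ μ) (h1 : ν < 1) : 0 < La μ ν T := by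
  have hm : (0 : ℝ) < max 1 T := lt_max_of_lt_left one_pos
  unfold La
  have : 0 < μ - ν / 2 := by linarith
  positivity

theorem Lr_pos {μ ν T : ℝ} (hμ : 1 ≤ μ) (h0 : 0 < ν) (h1 : ν < 1) (hT : 0 ≤ T) : 0 < Lr μ ν T := by
  have hm : (0 : ℝ) < max 1 T := lt_max_of_lt_left one_pos
  obtain ⟨x, hx⟩ : ∃ x, x = min 1 T := ⟨_, rfl⟩
  have x0 : 0 ≤ x := by rw [hx]; exact le_min one_pos.le hT
  have x1 : x ≤ 1 := by rw [hx]; exact min_le_left _ _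
  unfold Lr
  rw [← hx]
  have h2 : (1 + x / 3 + 5 * x ^ 2 / 48) / 2 ≤ 23 / 32 := by nlinarith
  have h3 : 0 ≤ (1 + x / 3 + 5 * x ^ 2 / 48) / 2 := by positivity
  have h4 : ν * ((1 + x / 3 + 5 * x ^ 2 / 48) / 2) ≤ 1 * (23 / 32) :=
    mul_le_mul h1.le h2 h3 one_pos.le
  have : 0 < μ - ν * ((1 + x / 3 + 5 * x ^ 2 / 48) / 2) := by linarith
  positivity

section

variable {r δ η c ν h τ Γ : ℝ}

/-! ### behind -/

theorem Scl0.bA (s : Scl0 r δ η c ν h τ Γ) :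
    SokalCen.bA (mm (r * δ)) (r * δ) ((1 + τ) * h) = La (5 / 4) ν (LT2 (5 / 4) c h τ) * c ^ 2 / ν := by
  have h2 := s.c0
  have h3 := s.n0
  have h4 := s.h0
  have h5 := s.u0
  unfold SokalCen.bA LT2
  rw [s.em, s.eρ, AL_eq (by norm_num) h2 h3 (by positivity)]

theorem Scl0.bB (s : Scl0 r δ η c ν h τ Γ) :
    SokalCen.bB (mm (r * δ)) (r * δ) ((1 + τ) * h) = LQb (5 / 4) c ν h τ / ν := by
  have h2 := s.c0
  have h3 := s.n0
  unfold SokalCen.bB LQb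
  rw [s.bA]
  have e : ((1 + τ) * h + 6 / 5) / mm (r * δ) = LT2 (5 / 4) c h τ := by
    unfold LT2
    rw [s.em]
    field_simp
  rw [e]
  field_simp

theorem LQb_pos {μ c ν h τ : ℝ} (hμ : 1 ≤ μ) (hc : 0 < c) (h0 : 0 < ν) (h1 : ν < 1) :
    0 < LQb μ c ν h τ := by
  have := La_pos (T := LT2 μ c h τ) hμ h1
  unfold LQb
  positivity

theorem Scl0.beh0 (s : Scl0 r δ η c ν h τ Γ) {g q : ℝ} (hq : 0 ≤ q) :
    PF r δ η g q * bH0 r (mm (r * δ)) (r * δ) ((1 + τ) * h) = LB0 (5 / 4) q g c ν h τ Γ := by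
  have h2 := s.c0
  have h3 := s.n0
  have h4 := s.h0
  have hY := LQb_pos (μ := 5 / 4) (h := h) (τ := τ) (by norm_num) h2 h3 s.n1
  have hP := s.PH (g := g) hY hq
  unfold bH0 LB0
  rw [s.bA, s.bB]
  have e1 : exp (-(r * (La (5 / 4) ν (LT2 (5 / 4) c h τ) * c ^ 2 / ν) * ((1 + τ) * h) ^ 2)) *
      exp (g / 2 * Γ * τ ^ 2) = exp (-(Γ * ((1 + τ) ^ 2 * (La (5 / 4) ν (LT2 (5 / 4) c h τ) / ν) -
        g / 2 * τ ^ 2))) := by
    rw [← exp_add, s.er]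
    congr 1
    field_simp
    ring
  rw [← e1]
  linear_combination (exp (-(r * (La (5 / 4) ν (LT2 (5 / 4) c h τ) * c ^ 2 / ν) *
    ((1 + τ) * h) ^ 2)) / 2) * hP

theorem Scl0.beh1 (s : Scl0 r δ η c ν h τ Γ) :
    bH1 r (mm (r * δ)) (r * δ) ((1 + τ) * h) = bH0 r (mm (r * δ)) (r * δ) ((1 + τ) * h) *
      (h * c * √(ν / (Γ * LQb (5 / 4) c ν h τ) * (1 / π))) := by
  have h2 := s.c0
  have h3 := s.n0
  have hY := LQb_pos (μ := 5 / 4) (h := h) (τ := τ) (by norm_num) h2 h3 s.n1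
  have hr := s.rpos
  have k1 := hg1 (B := r * (LQb (5 / 4) c ν h τ / ν)) (by positivity)
  rw [s.s1 hY] at k1
  unfold bH1 bH0
  rw [s.bB]
  obtain ⟨E, hE⟩ : ∃ E, E = exp (-(r * SokalCen.bA (mm (r * δ)) (r * δ) ((1 + τ) * h) *
    ((1 + τ) * h) ^ 2)) := ⟨_, rfl⟩
  rw [← hE, div_eq_mul_one_div E, k1]
  ring

theorem Scl0.beh2 (s : Scl0 r δ η c ν h τ Γ) :
    bH2 r (mm (r * δ)) (r * δ) ((1 + τ) * h) = bH0 r (mm (r * δ)) (r * δ) ((1 + τ) * h) *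
      ((h * c) ^ 2 * (ν / (Γ * LQb (5 / 4) c ν h τ)) / 2) := by
  have h2 := s.c0
  have h3 := s.n0
  have hY := LQb_pos (μ := 5 / 4) (h := h) (τ := τ) (by norm_num) h2 h3 s.n1
  have hr := s.rpos
  have k1 := hg2 (B := r * (LQb (5 / 4) c ν h τ / ν)) (by positivity)
  rw [s.s2 hY] at k1
  unfold bH2 bH0
  rw [s.bB]
  obtain ⟨E, hE⟩ : ∃ E, E = exp (-(r * SokalCen.bA (mm (r * δ)) (r * δ) ((1 + τ) * h) *
    ((1 + τ) * h) ^ 2)) := ⟨_, rfl⟩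
  rw [← hE, mul_div_assoc E, k1]
  ring

/-- BEHIND: `PF · I0`, `PF · IW · R/h²`, `PF · Ie` -/
theorem Scl0.beh (s : Scl0 r δ η c ν h τ Γ) {g q : ℝ} (hq : 0 ≤ q) :
    PF r δ η g q * (tbL r (mm (r * δ)) (r * δ) ((1 + τ) * h)).1 = LB0 (5 / 4) q g c ν h τ Γ ∧
    PF r δ η g q * (tbL r (mm (r * δ)) (r * δ) ((1 + τ) * h)).2.1 * (RR r δ / h ^ 2) =
      LB0 (5 / 4) q g c ν h τ Γ * LBW (5 / 4) c ν h τ Γ ∧
    PF r δ η g q * (tbL r (mm (r * δ)) (r * δ) ((1 + τ) * h)).2.2 = LB0 (5 / 4) q g c ν h τ Γ := by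
  have h2 := s.c0
  have h4 := s.h0
  refine ⟨s.beh0 hq, ?_, s.beh0 hq⟩
  unfold tbL
  show PF r δ η g q * ((((1 + τ) * h) ^ 2 * bH0 r (mm (r * δ)) (r * δ) ((1 + τ) * h) +
    2 * ((1 + τ) * h) * bH1 r (mm (r * δ)) (r * δ) ((1 + τ) * h) +
    bH2 r (mm (r * δ)) (r * δ) ((1 + τ) * h)) / mm (r * δ) ^ 2 +
    bH2 r (mm (r * δ)) (r * δ) ((1 + τ) * h)) * (RR r δ / h ^ 2) = _
  rw [s.beh1, s.beh2, ← s.beh0 hq, s.hR, s.em]
  unfold LBW
  field_simp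
  ring

/-! ### front -/

theorem Lf_pos {μ ν : ℝ} (hμ : 1 ≤ μ) (h1 : ν < 1) : 0 < Lf μ ν := by
  unfold Lf
  have : 0 < μ - 23 / 32 * ν := by linarith
  positivity

theorem Scl0.aR1 (s : Scl0 r δ η c ν h τ Γ) :
    aR (mm (r * δ)) (r * δ) 1 = (Lf (5 / 4) ν * c ^ 2) / ν := by
  have h2 := s.c0
  have h3 := s.n0
  unfold aR Lf
  rw [s.em, s.eρ]
  field_simp
  ring

/-- FRONT, `t ≤ 6/5` -/
theorem Scl0.fro (s : Scl0 r δ η c ν h τ Γ) {g q : ℝ} (hq : 0 ≤ q) (ht : (1 + τ) * h ≤ 6 / 5) :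
    PF r δ η g q * (tfL r (mm (r * δ)) (r * δ) ((1 + τ) * h)).1 = LF0 (5 / 4) q g c ν h τ Γ ∧
    PF r δ η g q * (tfL r (mm (r * δ)) (r * δ) ((1 + τ) * h)).2.1 * (RR r δ / h ^ 2) =
      LF0 (5 / 4) q g c ν h τ Γ * (LFW (5 / 4) c ν τ Γ / c ^ 2) ∧
    PF r δ η g q * (tfL r (mm (r * δ)) (r * δ) ((1 + τ) * h)).2.2 = LF0 (5 / 4) q g c ν h τ Γ := by
  have h2 := s.c0
  have h3 := s.n0
  have h4 := s.h0
  have h5 := s.u0
  have h6 := s.Gpos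
  have hL := Lf_pos (μ := 5 / 4) (by norm_num) s.n1
  have hY : 0 < Lf (5 / 4) ν * c ^ 2 := by positivity
  have hr := s.rpos
  have hP := s.PH (g := g) hY hq
  have ht0 : 0 < (1 + τ) * h := by positivity
  have e0 : √(q * (1 + c ^ 2 / (5 / 4) ^ 2) / (2 * (Lf (5 / 4) ν * c ^ 2))) =
      √(q * (1 + c ^ 2 / (5 / 4) ^ 2) / (2 * Lf (5 / 4) ν)) * (1 / c) := by
    have e : 1 / c = √((1 / c) ^ 2) := (Real.sqrt_sq (by positivity)).symm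
    rw [e, ← Real.sqrt_mul (by positivity)]
    congr 1
    field_simp
  have e1 : exp (-(r * (1 - cos ((1 + τ) * h)))) * exp (g / 2 * Γ * τ ^ 2) =
      exp (-(Γ * ((1 + τ) ^ 2 * bq ((1 + τ) * h) / c ^ 2 - g / 2 * τ ^ 2))) := by
    rw [← exp_add, s.er]
    congr 1
    unfold bq
    field_simp
    ring
  have key : PF r δ η g q * (exp (-(r * (1 - cos ((1 + τ) * h)))) *
      (√(π / (r * (Lf (5 / 4) ν * c ^ 2 / ν))) / 2)) = LF0 (5 / 4) q g c ν h τ Γ := by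
    unfold LF0
    rw [← e1]
    rw [e0] at hP
    linear_combination (exp (-(r * (1 - cos ((1 + τ) * h)))) / 2) * hP
  unfold tfL
  rw [if_pos ht, s.aR1]
  refine ⟨key, ?_, key⟩
  show PF r δ η g q * (exp (-(r * (1 - cos ((1 + τ) * h)))) * (((1 + τ) * h) ^ 2 *
    (√(π / (r * (Lf (5 / 4) ν * c ^ 2 / ν))) / 2) + 2 * ((1 + τ) * h) *
    h1 (r * (Lf (5 / 4) ν * c ^ 2 / ν)) + (1 + 9 / (8 * mm (r * δ) ^ 2)) *
    SokalCen.h2 (r * (Lf (5 / 4) ν * c ^ 2 / ν)))) * (RR r δ / h ^ 2) = _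
  unfold h1 SokalCen.h2
  have hB : 0 < r * (Lf (5 / 4) ν * c ^ 2 / ν) := by positivity
  have k1 := hg1 hB
  rw [s.s1 hY] at k1
  have k2 := hg2 hB
  rw [s.s2 hY] at k2
  rw [k2, k1, s.hR, s.em, ← key]
  have e2 : √(ν / (Γ * (Lf (5 / 4) ν * c ^ 2)) * (1 / π)) =
      √(ν / (Γ * Lf (5 / 4) ν) * (1 / π)) * (1 / c) := by
    have hpi := pi_pos
    have e : 1 / c = √((1 / c) ^ 2) := (Real.sqrt_sq (by positivity)).symm
    rw [e, ← Real.sqrt_mul (by positivity)]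
    congr 1
    field_simp
  rw [e2]
  unfold LFW
  field_simp

/-! ### image, behind -/

theorem brS_le {T : ℝ} (h0 : 0 < T) : eS T ≤ (1 + exp T) / 2 := by
  unfold eS
  rw [div_le_iff₀ h0]
  -- `(exp T - 1) ≤ (1 + exp T)/2 * T`
  have key : ∀ x : ℝ, 0 ≤ x → 0 ≤ (1 + exp x) / 2 * x - (exp x - 1) := by
    intro x hx
    have hm : MonotoneOn (fun x : ℝ => (1 + exp x) / 2 * x - (exp x - 1)) (Set.Ici 0) := by
      apply monotoneOn_of_deriv_nonneg (convex_Ici 0)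
      · fun_prop
      · fun_prop
      · intro z hz
        rw [interior_Ici] at hz
        have hz0 : 0 < z := hz
        have hd : HasDerivAt (fun x : ℝ => (1 + exp x) / 2 * x - (exp x - 1))
            ((exp z / 2) * z + (1 + exp z) / 2 * 1 - exp z) z := by
          have h1 := (((Real.hasDerivAt_exp z).const_add 1).div_const 2).mul (hasDerivAt_id z)
          have h2 := (Real.hasDerivAt_exp z).sub_const 1
          exact h1.sub h2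
        rw [hd.deriv]
        -- `1 + z e^z - e^z ≥ 0`
        have h3 : (1 - z) * exp z ≤ 1 := by
          have h4 := Real.add_one_le_exp (-z)
          have h5 : exp (-z) * exp z = 1 := by rw [← exp_add]; simp
          nlinarith [exp_pos z]
        nlinarith
    have := hm (Set.mem_Ici.2 le_rfl) (Set.mem_Ici.2 hx) hx
    simpa using this
  have := key T h0.le
  linarith

theorem Ltp_pos {h τ : ℝ} (ht : (1 + τ) * h ≤ π) : 0 < Ltp h τ := by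
  unfold Ltp
  linarith [pi_pos]

theorem LQi_pos {μ c ν T : ℝ} (hμ : 1 ≤ μ) (hc : 0 < c) (h0 : 0 < ν) (h1 : ν < 1) (hT : 0 ≤ T) :
    0 < LQi μ c ν T := by
  have := Lr_pos hμ h0 h1 hT
  unfold LQi
  positivity

theorem Scl0.kb (s : Scl0 r δ η c ν h τ Γ) (ht : (1 + τ) * h ≤ π) :
    SokalCen.kb r (mm (r * δ)) (r * δ) (Ltp h τ) = r * (LQi (5 / 4) c ν (LT3 (5 / 4) c h τ) / ν) := by
  have h2 := s.c0
  have h3 := s.n0
  have h4 := Ltp_pos ht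
  unfold SokalCen.kb LQi LT3
  rw [s.em, s.eρ, AR_eq' (by norm_num) h2 h3 (by positivity)]
  field_simp

theorem Scl0.cT3 (s : Scl0 r δ η c ν h τ Γ) :
    cT (mm (r * δ)) (Ltp h τ + 6 / 5) = min 1 (LT3 (5 / 4) c h τ) := by
  have h2 := s.c0
  unfold LT3
  rw [s.em, cT_eq (by norm_num) h2]

/-- IMAGE, BEHIND -/
theorem Scl0.imb (s : Scl0 r δ η c ν h τ Γ) {g q : ℝ} (hq : 0 ≤ q) (ht : (1 + τ) * h ≤ π) :
    PF r δ η g q * (tkL r (mm (r * δ)) (r * δ) (Ltp h τ)).1 = LJ0 (5 / 4) q g c ν h τ Γ ∧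
    PF r δ η g q * (tkL r (mm (r * δ)) (r * δ) (Ltp h τ)).2.1 * (RR r δ / h ^ 2) ≤
      LJ0 (5 / 4) q g c ν h τ Γ * LJW (5 / 4) c ν h τ Γ ∧
    PF r δ η g q * (tkL r (mm (r * δ)) (r * δ) (Ltp h τ)).2.2 =
      Le (5 / 4) c h τ * LJ0 (5 / 4) q g c ν h τ Γ := by
  have h2 := s.c0
  have h3 := s.n0
  have h4 := s.h0
  have h5 := s.u0
  have h6 := s.Gpos
  have htp := Ltp_pos ht
  have hr := s.rpos
  have hT3 : 0 < LT3 (5 / 4) c h τ := by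
    unfold LT3
    positivity
  have hY := LQi_pos (μ := 5 / 4) (T := LT3 (5 / 4) c h τ) (by norm_num) h2 h3 s.n1 hT3.le
  have hA := Lr_pos (μ := 5 / 4) (T := LT3 (5 / 4) c h τ) (by norm_num) h3 s.n1 hT3.le
  have hP := s.PH (g := g) hY hq
  have hB : 0 < r * (LQi (5 / 4) c ν (LT3 (5 / 4) c h τ) / ν) := by positivity
  have eA : AR (mm (r * δ)) (r * δ) (Ltp h τ + 6 / 5) =
      Lr (5 / 4) ν (LT3 (5 / 4) c h τ) * c ^ 2 / ν := by
    unfold LT3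
    rw [s.em, s.eρ, AR_eq' (by norm_num) h2 h3 (by positivity)]
  have e1 : kE r (mm (r * δ)) (r * δ) (Ltp h τ) * exp (g / 2 * Γ * τ ^ 2) =
      exp (-(Γ * (Lr (5 / 4) ν (LT3 (5 / 4) c h τ) / ν * (Ltp h τ / h) ^ 2 - g / 2 * τ ^ 2))) := by
    unfold kE
    rw [eA, ← exp_add, s.er]
    congr 1
    field_simp
    ring
  have key : PF r δ η g q * (kE r (mm (r * δ)) (r * δ) (Ltp h τ) *
      (√(π / (r * (LQi (5 / 4) c ν (LT3 (5 / 4) c h τ) / ν))) / 2)) =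
      LJ0 (5 / 4) q g c ν h τ Γ := by
    unfold LJ0
    rw [← e1]
    linear_combination (kE r (mm (r * δ)) (r * δ) (Ltp h τ) / 2) * hP
  have k1 := hg1 hB
  rw [s.s1 hY] at k1
  have k2 := hg2 hB
  rw [s.s2 hY] at k2
  have eL : exp (cT (mm (r * δ)) (Ltp h τ + 6 / 5)) = Le (5 / 4) c h τ := by
    rw [s.cT3]
    rfl
  have hm0 : 0 < min 1 (LT3 (5 / 4) c h τ) := lt_min one_pos hT3
  have hS : eS (cT (mm (r * δ)) (Ltp h τ + 6 / 5)) ≤ (1 + Le (5 / 4) c h τ) / 2 := by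
    rw [s.cT3]
    exact brS_le hm0
  have hS0 : 0 ≤ eS (cT (mm (r * δ)) (Ltp h τ + 6 / 5)) := by
    rw [s.cT3]
    exact eS_nonneg hm0
  unfold tkL
  rw [s.kb ht]
  refine ⟨key, ?_, ?_⟩
  · show PF r δ η g q * (eS (cT (mm (r * δ)) (Ltp h τ + 6 / 5)) ^ 2 / mm (r * δ) ^ 2 *
      ((Ltp h τ) ^ 2 * (kE r (mm (r * δ)) (r * δ) (Ltp h τ) *
        (√(π / (r * (LQi (5 / 4) c ν (LT3 (5 / 4) c h τ) / ν))) / 2)) +
      2 * (Ltp h τ) * (kE r (mm (r * δ)) (r * δ) (Ltp h τ) *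
        (1 / (2 * (r * (LQi (5 / 4) c ν (LT3 (5 / 4) c h τ) / ν))))) +
      kE r (mm (r * δ)) (r * δ) (Ltp h τ) *
        (√(π / (r * (LQi (5 / 4) c ν (LT3 (5 / 4) c h τ) / ν))) /
          (4 * (r * (LQi (5 / 4) c ν (LT3 (5 / 4) c h τ) / ν))))) +
      exp (cT (mm (r * δ)) (Ltp h τ + 6 / 5)) * (kE r (mm (r * δ)) (r * δ) (Ltp h τ) *
        (√(π / (r * (LQi (5 / 4) c ν (LT3 (5 / 4) c h τ) / ν))) /
          (4 * (r * (LQi (5 / 4) c ν (LT3 (5 / 4) c h τ) / ν)))))) * (RR r δ / h ^ 2) ≤ _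
    rw [k2, k1, eL, s.hR, s.em]
    obtain ⟨S, hSe⟩ : ∃ S, S = eS (cT (5 / 4 / c) (Ltp h τ + 6 / 5)) := ⟨_, rfl⟩
    rw [s.em] at hS hS0
    rw [← hSe] at hS hS0 ⊢
    obtain ⟨L, hLe⟩ : ∃ L, L = Le (5 / 4) c h τ := ⟨_, rfl⟩
    rw [← hLe] at hS
    unfold LJW
    rw [← hLe, ← key]
    rw [s.em] at key ⊢
    obtain ⟨Q, hQ⟩ : ∃ Q, Q = LQi (5 / 4) c ν (LT3 (5 / 4) c h τ) := ⟨_, rfl⟩
    rw [← hQ] at hY ⊢
    obtain ⟨R, hRe⟩ : ∃ R, R = √(ν / (Γ * Q) * (1 / π)) := ⟨_, rfl⟩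
    have hR0 : 0 ≤ R := by rw [hRe]; exact Real.sqrt_nonneg _
    rw [← hRe]
    obtain ⟨K, hK⟩ : ∃ K, K = kE r (5 / 4 / c) (r * δ) (Ltp h τ) * (√(π / (r * (Q / ν))) / 2) :=
      ⟨_, rfl⟩
    have hK0 : 0 ≤ K := by
      rw [hK]
      unfold kE
      positivity
    have hPF := PF_nonneg r δ η g q
    obtain ⟨P, hPe⟩ : ∃ P, P = PF r δ η g q := ⟨_, rfl⟩
    rw [← hPe] at hPF ⊢
    have e5 : P * (S ^ 2 / (5 / 4 / c) ^ 2 * (Ltp h τ ^ 2 * (kE r (5 / 4 / c) (r * δ) (Ltp h τ) *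
        (√(π / (r * (Q / ν))) / 2)) + 2 * Ltp h τ * (kE r (5 / 4 / c) (r * δ) (Ltp h τ) *
        (√(π / (r * (Q / ν))) / 2 * (h * c * R))) + kE r (5 / 4 / c) (r * δ) (Ltp h τ) *
        (√(π / (r * (Q / ν))) / 2 * ((h * c) ^ 2 * (ν / (Γ * Q)) / 2))) +
        L * (kE r (5 / 4 / c) (r * δ) (Ltp h τ) *
        (√(π / (r * (Q / ν))) / 2 * ((h * c) ^ 2 * (ν / (Γ * Q)) / 2)))) * (1 / (h * c) ^ 2) =
        P * K * (S ^ 2 / (5 / 4) ^ 2 * ((Ltp h τ / h) ^ 2 + 2 * (Ltp h τ / h) * (c * R)) +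
          (S ^ 2 / (5 / 4) ^ 2 * c ^ 2 + L) * (ν / (Γ * Q)) / 2) := by
      rw [hK]
      field_simp
      ring
    rw [e5, ← hK]
    refine mul_le_mul_of_nonneg_left ?_ (by positivity)
    have h7 : S ^ 2 ≤ ((1 + L) / 2) ^ 2 := pow_le_pow_left₀ hS0 hS 2
    have h8 : S ^ 2 / (5 / 4) ^ 2 ≤ ((1 + L) / 2) ^ 2 / (5 / 4) ^ 2 := by gcongr
    gcongr
  · show PF r δ η g q * (exp (cT (mm (r * δ)) (Ltp h τ + 6 / 5)) *
      (kE r (mm (r * δ)) (r * δ) (Ltp h τ) *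
        (√(π / (r * (LQi (5 / 4) c ν (LT3 (5 / 4) c h τ) / ν))) / 2))) = _
    rw [eL, ← key]
    ring

end

end SokalCel
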