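import Pool.Agent.Lib_MP_af4de1_v3.BrL1

/-!
# Bridge, left side: from numbers to `Shf` (helper6)

`brL_num` : the total `TL0 TLW TLE` of `CenTL.lean` (any rest/far triple `u`) with bounds of the main part
`M0 MW` and of the others `O0 OW OE` (scaled: times `PF`, `R/h²`, `1/Γ`).  Any real `h`; `H = r h c`.
-/

set_option autoImplicit false

namespace SokalCel

open SokalFN SokalU SokalF1 SokalF1S SokalF1M SokalV3 SokalCen Real MeasureTheory Set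

section

variable {r δ η c ν h τ Γ : ℝ}

/-- FROM ONE ZONE TO `Shf`, any `h`. -/
theorem Scl0.shf (s : Scl0 r δ η c ν h τ Γ) {y ζ g k q I0 IW Ie f0 f1 f2 : ℝ} (hδ : 0 < δ)
    (hA : At r δ y η) (hL : Lev r δ y η g k q) (h0 : 0 ≤ I0) (hW : 0 ≤ IW) (hE : 0 ≤ Ie)
    (Z : Zone r (mm (r * δ)) (r * δ) (η + ζ) (sK (r * δ) y / (r * δ : ℝ)) univ I0 IW Ie)
    (hf0 : PF r δ η g q * I0 ≤ f0)
    (hf1 : √(PF r δ η g q * I0 * (PF r δ η g q * IW * (RR r δ / h ^ 2))) ≤ f1)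
    (hf2 : PF r δ η g q * IW * (RR r δ / h ^ 2) + PF r δ η g q * Ie / Γ ≤ f2) :
    Shf r δ y ζ (r * (h * c)) f0 f1 f2 := by
  have h2 := s.c0
  have h3 := s.n0
  have h4 := s.h0
  have h6 := s.Gpos
  have hr := s.rpos
  have hP := PF_nonneg r δ η g q
  have hm : 0 < mm (r * δ) := by rw [s.em]; positivity
  have e1 : SokalCen.LvF r δ η g q * √(1 + 1 / mm (r * δ) ^ 2) = PF r δ η g q := rfl
  rw [s.hR] at hf1 hf2
  obtain ⟨P, hPe⟩ : ∃ P, P = PF r δ η g q := ⟨_, rfl⟩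
  rw [← hPe] at hf0 hf1 hf2 hP
  refine shf_zone (L := SokalCen.LvF r δ η g q) (m := mm (r * δ)) hr hδ hA hL (wb hr hδ hm) le_rfl
    h0 hW hE Z ?_ ?_ ?_
  · rwa [e1, ← hPe]
  · rw [e1, ← hPe]
    have e3 : √(P * I0 * (P * IW * (1 / (h * c) ^ 2))) = P * √(I0 * IW) * (1 / (h * c)) := by
      have e4 : P * I0 * (P * IW * (1 / (h * c) ^ 2)) = (P * √(I0 * IW) * (1 / (h * c))) ^ 2 := by
        have e5 : √(I0 * IW) ^ 2 = I0 * IW := Real.sq_sqrt (mul_nonneg h0 hW)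
        have e6 : (P * √(I0 * IW) * (1 / (h * c))) ^ 2 =
          P ^ 2 * √(I0 * IW) ^ 2 * (1 / (h * c) ^ 2) := by
          field_simp
        rw [e6, e5]
        ring
      rw [e4, Real.sqrt_sq (by positivity)]
    rw [e3] at hf1
    have e4 : P * (r * √(I0 * IW)) = P * √(I0 * IW) * (1 / (h * c)) * (r * (h * c)) := by
      field_simp
    rw [e4]
    exact mul_le_mul_of_nonneg_right hf1 (by positivity)
  · rw [e1, ← hPe]
    have e4 : P * (r ^ 2 * IW + r * Ie) =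
        (P * IW * (1 / (h * c) ^ 2) + P * Ie / Γ) * (r * (h * c)) ^ 2 := by
      rw [s.Gr]
      field_simp
    rw [e4]
    exact mul_le_mul_of_nonneg_right hf2 (by positivity)

/-- the weight with the triangle inequality, scaled -/
theorem tri_scale {P W I κ H : ℝ} (hP : 0 ≤ P) (hW : 0 ≤ W) (hH : 0 < H) :
    P * (√W + κ * H * √I) ^ 2 * (1 / H ^ 2) = (√(P * W * (1 / H ^ 2)) + κ * √(P * I)) ^ 2 := by
  have e1 : √(P * W * (1 / H ^ 2)) = √P * √W * (1 / H) := by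
    have : P * W * (1 / H ^ 2) = P * (W * (1 / H) ^ 2) := by ring
    rw [this, Real.sqrt_mul hP, Real.sqrt_mul hW, Real.sqrt_sq (by positivity)]
    ring
  have e2 : √(P * I) = √P * √I := Real.sqrt_mul hP _
  have e3 : √P ^ 2 = P := Real.sq_sqrt hP
  rw [e1, e2]
  have e4 : √P * √W * (1 / H) + κ * (√P * √I) = √P * ((√W + κ * H * √I) * (1 / H)) := by
    field_simp
  rw [e4, mul_pow, e3, mul_pow]
  ring

/-- THE BRIDGE, LEFT, with numbers. -/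
theorem brL_num (s : Scl0 r δ η c ν h τ Γ) {y ζ g k q β B l f0 f1 f2 M0 MW O0 OW OE : ℝ}
    {v u : ℝ × ℝ × ℝ} (hδ : 0 < δ) (hA : At r δ y η) (hy : 0 ≤ y)
    (hL : Lev r δ y η g k q) (hk : 0 ≤ k) (hθ : η + ζ = (1 + τ) * h) (hπ : (1 + τ) * h ≤ π)
    (hW : Win β ((1 + τ) * h)) (hLf : Lft (mm (r * δ)) ((1 + τ) * h) β B l)
    (hs : (1 + τ) * h ≤ 6 / 5 → 1 ≤ r * mm (r * δ) * Real.sin ((1 + τ) * h))
    (hv : Zn r (mm (r * δ)) (r * δ) ((1 + τ) * h) 1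
      (Icc (2 * π - (1 + τ) * h) (2 * π - (1 + τ) * h + 6 / 5)) v)
    (hu : Zn r (mm (r * δ)) (r * δ) ((1 + τ) * h) 1
      ({x | 6336 / 10000 ≤ 1 - Real.cos ((1 + τ) * h + x)} ∪
        Ici (2 * π - (1 + τ) * h + 5) ∪ Iic (-((1 + τ) * h + 5))) u)
    (hM0 : PF r δ η g q * (tmL' r (mm (r * δ)) (r * δ) ((1 + τ) * h) B l).1 ≤ M0)
    (hMW : PF r δ η g q * (tmL' r (mm (r * δ)) (r * δ) ((1 + τ) * h) B l).2.1 * (RR r δ / h ^ 2) ≤ MW)
    (hO0 : PF r δ η g q * (oL r (mm (r * δ)) (r * δ) ((1 + τ) * h) v u).1 ≤ O0)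
    (hOW : PF r δ η g q * (oL r (mm (r * δ)) (r * δ) ((1 + τ) * h) v u).2.1 * (RR r δ / h ^ 2) ≤ OW)
    (hOE : PF r δ η g q * (oL r (mm (r * δ)) (r * δ) ((1 + τ) * h) v u).2.2 / Γ ≤ OE)
    (hf0 : M0 + O0 ≤ f0)
    (hf1 : √((M0 + O0) * (MW + (k * τ) ^ 2 * M0 + (√OW + k * τ * √O0) ^ 2)) ≤ f1)
    (hf2 : MW + (k * τ) ^ 2 * M0 + (√OW + k * τ * √O0) ^ 2 + M0 / Γ + OE ≤ f2) :
    Shf r δ y ζ (r * (h * c)) f0 f1 f2 := by
  have h2 := s.c0
  have h3 := s.n0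
  have h4 := s.h0
  have h5 := s.u0
  have h6 := s.Gpos
  have hr := s.rpos
  have hρ := s.rho0
  have hP := PF_nonneg r δ η g q
  have ht0 : 0 < (1 + τ) * h := by positivity
  have hm5 : 5 / 4 * (r * δ) ≤ mm (r * δ) := mm_ge'
  have hm : r * δ ≤ mm (r * δ) := by linarith
  have hm1 : 5 / 4 ≤ mm (r * δ) := mm_ge
  have e0 : k * (|η| / √(RR r δ)) = k * τ * (h * c) := by rw [s.eηR]; ring
  obtain ⟨n0, n1, n2, Z⟩ := zoneTL (v := v) (u := u) hr hA hy hL hm hm1 ht0 hπ hW hLf hs hv hu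
  obtain ⟨⟨a0, a1, a2⟩, -⟩ := zn_main' hr hρ hm ht0 hW hLf
  obtain ⟨⟨b0, b1, b2⟩, -⟩ := zn_o hr hρ hm hm1 ht0 hπ hs hv hu
  rw [← hθ] at Z n0 n1 n2
  rw [s.hR] at hMW hOW
  have k1 : PF r δ η g q * TL0 r (mm (r * δ)) (r * δ) (η + ζ) B l v u ≤ M0 + O0 := by
    rw [hθ]
    unfold TL0
    rw [mul_add]
    exact add_le_add hM0 hO0
  have k2 : PF r δ η g q * TLW r (mm (r * δ)) (r * δ) (η + ζ) B l v u (k * (|η| / √(RR r δ))) *
      (RR r δ / h ^ 2) ≤ MW + (k * τ) ^ 2 * M0 + (√OW + k * τ * √O0) ^ 2 := by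
    rw [hθ, e0, s.hR]
    unfold TLW
    have e1 : PF r δ η g q * (1 * (tmL' r (mm (r * δ)) (r * δ) ((1 + τ) * h) B l).2.1 +
        (k * τ * (h * c)) ^ 2 * (tmL' r (mm (r * δ)) (r * δ) ((1 + τ) * h) B l).1 +
        (√(oL r (mm (r * δ)) (r * δ) ((1 + τ) * h) v u).2.1 +
          k * τ * (h * c) * √(oL r (mm (r * δ)) (r * δ) ((1 + τ) * h) v u).1) ^ 2) *
        (1 / (h * c) ^ 2) =
        PF r δ η g q * (tmL' r (mm (r * δ)) (r * δ) ((1 + τ) * h) B l).2.1 * (1 / (h * c) ^ 2) +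
        (k * τ) ^ 2 * (PF r δ η g q * (tmL' r (mm (r * δ)) (r * δ) ((1 + τ) * h) B l).1) +
        PF r δ η g q * (√(oL r (mm (r * δ)) (r * δ) ((1 + τ) * h) v u).2.1 +
          k * τ * (h * c) * √(oL r (mm (r * δ)) (r * δ) ((1 + τ) * h) v u).1) ^ 2 *
        (1 / (h * c) ^ 2) := by
      field_simp
    rw [e1, tri_scale hP b1 (by positivity)]
    have k3 := Real.sqrt_le_sqrt hOW
    have k4 := Real.sqrt_le_sqrt hO0
    have k5 : 0 ≤ k * τ := by positivity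
    gcongr
  have k3 : PF r δ η g q * TLE r (mm (r * δ)) (r * δ) (η + ζ) B l v u / Γ ≤ M0 / Γ + OE := by
    rw [hθ]
    unfold TLE
    have e1 : PF r δ η g q * ((tmL' r (mm (r * δ)) (r * δ) ((1 + τ) * h) B l).2.2 +
        (oL r (mm (r * δ)) (r * δ) ((1 + τ) * h) v u).2.2) / Γ =
        PF r δ η g q * (tmL' r (mm (r * δ)) (r * δ) ((1 + τ) * h) B l).1 / Γ +
        PF r δ η g q * (oL r (mm (r * δ)) (r * δ) ((1 + τ) * h) v u).2.2 / Γ := by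
      have : (tmL' r (mm (r * δ)) (r * δ) ((1 + τ) * h) B l).2.2 =
        (tmL' r (mm (r * δ)) (r * δ) ((1 + τ) * h) B l).1 := rfl
      rw [this]
      ring
    rw [e1]
    exact add_le_add (div_le_div_of_nonneg_right hM0 h6.le) hOE
  have m0 : 0 ≤ PF r δ η g q * TL0 r (mm (r * δ)) (r * δ) (η + ζ) B l v u := by
    exact mul_nonneg hP n0
  have m1 : 0 ≤ PF r δ η g q * TLW r (mm (r * δ)) (r * δ) (η + ζ) B l v u (k * (|η| / √(RR r δ))) *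
      (RR r δ / h ^ 2) := by
    rw [s.hR]
    exact mul_nonneg (mul_nonneg hP n1) (by positivity)
  refine s.shf hδ hA hL n0 n1 n2 Z
    (k1.trans hf0) ?_ ?_
  · refine le_trans (Real.sqrt_le_sqrt ?_) hf1
    exact mul_le_mul k1 k2 m1 (m0.trans k1)
  · have := add_le_add k2 k3
    linarith

end

end SokalCel
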