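import Pool.Agent.Lib_MP_af4de1_v3.BrL2

/-!
# Bridge, left side: main part and main part of the image (helper6)
-/

set_option autoImplicit false

namespace SokalCel

open SokalFN SokalU SokalF1 SokalF1S SokalF1M SokalV3 SokalCen Real MeasureTheory Set

/-- `T = t/m` -/
noncomputable def LT (μ c h τ : ℝ) : ℝ := (1 + τ) * h * c / μ

/-- `B` of the main part -/
noncomputable def LB (μ c h τ β σ : ℝ) : ℝ := β * exp (-(σ * LT μ c h τ))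

/-- `l/(h c)²` of the main part -/
noncomputable def Ll (μ c h τ β σ : ℝ) : ℝ :=
  (1 + τ) ^ 2 * (4 / 27 * (1 - σ) ^ 3 * ((1 + τ) * h * LB μ c h τ β σ / (μ * c)))

section

variable {r δ η c ν h τ Γ : ℝ}

theorem Scl0.tm (s : Scl0 r δ η c ν h τ Γ) : (1 + τ) * h / mm (r * δ) = LT (5 / 4) c h τ := by
  have h2 := s.c0
  unfold LT
  rw [s.em]
  field_simp

/-- `Lft` in scaled form -/
theorem Scl0.lft (s : Scl0 r δ η c ν h τ Γ) {β σ : ℝ} (hβ : 0 < β) (h0 : 0 ≤ σ) (h1 : σ ≤ 1) :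
    Lft (mm (r * δ)) ((1 + τ) * h) β (LB (5 / 4) c h τ β σ) (Ll (5 / 4) c h τ β σ * (h * c) ^ 2) := by
  have h2 := s.c0
  have h4 := s.h0
  have h5 := s.u0
  have hm : 0 < mm (r * δ) := by rw [s.em]; positivity
  have hl := lft_sigma (m := mm (r * δ)) (t := (1 + τ) * h) hm (by positivity) hβ h0 h1
  rw [s.tm] at hl
  have e : 4 / 27 * (1 - σ) ^ 3 * LT (5 / 4) c h τ * (β * exp (-(σ * LT (5 / 4) c h τ))) *
      ((1 + τ) * h) ^ 2 = Ll (5 / 4) c h τ β σ * (h * c) ^ 2 := by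
    unfold Ll LB LT
    field_simp
  rw [e] at hl
  exact hl

/-- MAIN -/
theorem Scl0.mainL (s : Scl0 r δ η c ν h τ Γ) {g q B l : ℝ} (hq : 0 ≤ q) (hB : 0 < B) :
    PF r δ η g q * (tmL' r (mm (r * δ)) (r * δ) ((1 + τ) * h) B (l * (h * c) ^ 2)).1 =
      z0 (5 / 4) q g c ν τ Γ (1 + τ) (La (5 / 4) ν (LT (5 / 4) c h τ)) B l ∧
    PF r δ η g q * (tmL' r (mm (r * δ)) (r * δ) ((1 + τ) * h) B (l * (h * c) ^ 2)).2.1 *
      (RR r δ / h ^ 2) =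
      zW (5 / 4) q g c ν τ Γ (1 + τ) (La (5 / 4) ν (LT (5 / 4) c h τ)) B l 0 (1 / (5 / 4) ^ 2) 1 := by
  have h2 := s.c0
  have h3 := s.n0
  have h4 := s.h0
  have h5 := s.u0
  have hA : AL (mm (r * δ)) (r * δ) ((1 + τ) * h) =
      La (5 / 4) ν (LT (5 / 4) c h τ) * c ^ 2 / ν := by
    unfold LT
    rw [s.em, s.eρ, AL_eq (by norm_num) h2 h3 (by positivity)]
  have ha := La_pos (μ := 5 / 4) (T := LT (5 / 4) c h τ) (by norm_num) s.n1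
  unfold tmL'
  rw [hA]
  refine ⟨s.g0 ha hB hq, ?_⟩
  have e := s.gW (u := 1 + τ) ha hB (g := g) (l := l) hq (w0 := 0) (w1 := 1 / (5 / 4) ^ 2) (w2 := 1)
  rw [← e]
  have e1 : (0 : ℝ) * (h * c) ^ 2 = 0 := by ring
  have e2 : 1 / mm (r * δ) ^ 2 = 1 / (5 / 4) ^ 2 * c ^ 2 := by
    rw [s.em]
    field_simp
  rw [e1]
  show PF r δ η g q * SokalCen.gW r (La (5 / 4) ν (LT (5 / 4) c h τ) * c ^ 2 / ν) B ((1 + τ) * h)
    (l * (h * c) ^ 2) 0 (1 / mm (r * δ) ^ 2) 1 * (RR r δ / h ^ 2) = _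
  rw [e2]

/-- `T'` -/
noncomputable def LTp (μ c h τ : ℝ) : ℝ := Ltp h τ * c / μ

/-- IMAGE, MAIN -/
theorem Scl0.imgL (s : Scl0 r δ η c ν h τ Γ) {g q : ℝ} (hq : 0 ≤ q) (hπ : (1 + τ) * h ≤ π) :
    PF r δ η g q * (tiL r (mm (r * δ)) (r * δ) (Ltp h τ)).1 =
      z0 (5 / 4) q g c ν τ Γ (Ltp h τ / h) (Lr (5 / 4) ν (LTp (5 / 4) c h τ)) (11 / 25) 0 ∧
    PF r δ η g q * (tiL r (mm (r * δ)) (r * δ) (Ltp h τ)).2.1 * (RR r δ / h ^ 2) =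
      zW (5 / 4) q g c ν τ Γ (Ltp h τ / h) (Lr (5 / 4) ν (LTp (5 / 4) c h τ)) (11 / 25) 0 0
        (eS (min 1 (LTp (5 / 4) c h τ)) ^ 2 / (5 / 4) ^ 2) (exp (min 1 (LTp (5 / 4) c h τ))) ∧
    PF r δ η g q * (tiL r (mm (r * δ)) (r * δ) (Ltp h τ)).2.2 =
      exp (min 1 (LTp (5 / 4) c h τ)) *
        z0 (5 / 4) q g c ν τ Γ (Ltp h τ / h) (Lr (5 / 4) ν (LTp (5 / 4) c h τ)) (11 / 25) 0 := by
  have h2 := s.c0
  have h3 := s.n0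
  have h4 := s.h0
  have h5 := s.u0
  have htp := Ltp_pos hπ
  have hT : 0 < LTp (5 / 4) c h τ := by
    unfold LTp
    positivity
  have hA : AR (mm (r * δ)) (r * δ) (Ltp h τ) =
      Lr (5 / 4) ν (LTp (5 / 4) c h τ) * c ^ 2 / ν := by
    unfold LTp
    rw [s.em, s.eρ, AR_eq' (by norm_num) h2 h3 htp]
  have hc : cT (mm (r * δ)) (Ltp h τ) = min 1 (LTp (5 / 4) c h τ) := by
    unfold LTp
    rw [s.em, cT_eq (by norm_num) h2]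
  have ha := Lr_pos (μ := 5 / 4) (T := LTp (5 / 4) c h τ) (by norm_num) h3 s.n1 hT.le
  have hB : (0 : ℝ) < 11 / 25 := by norm_num
  have ht : Ltp h τ = Ltp h τ / h * h := by field_simp
  have he : e1c (mm (r * δ)) (Ltp h τ) = eS (min 1 (LTp (5 / 4) c h τ)) := by
    unfold e1c eS
    rw [hc]
  have k0 := s.g0 (u := Ltp h τ / h) ha hB (g := g) (l := 0) hq
  rw [← ht, zero_mul] at k0
  have kW := s.gW (u := Ltp h τ / h) ha hB (g := g) (l := 0) hq (w0 := 0)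
    (w1 := eS (min 1 (LTp (5 / 4) c h τ)) ^ 2 / (5 / 4) ^ 2) (w2 := exp (min 1 (LTp (5 / 4) c h τ)))
  rw [← ht, zero_mul] at kW
  unfold tiL
  rw [hA, hc, he]
  refine ⟨k0, ?_, ?_⟩
  · rw [← kW]
    have e2 : eS (min 1 (LTp (5 / 4) c h τ)) ^ 2 / mm (r * δ) ^ 2 =
        eS (min 1 (LTp (5 / 4) c h τ)) ^ 2 / (5 / 4) ^ 2 * c ^ 2 := by
      rw [s.em]
      field_simp
    show PF r δ η g q * SokalCen.gW r (Lr (5 / 4) ν (LTp (5 / 4) c h τ) * c ^ 2 / ν) (11 / 25)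
      (Ltp h τ) 0 0 (eS (min 1 (LTp (5 / 4) c h τ)) ^ 2 / mm (r * δ) ^ 2)
      (exp (min 1 (LTp (5 / 4) c h τ))) * (RR r δ / h ^ 2) = _
    rw [e2]
  · rw [← k0]
    show PF r δ η g q * (exp (min 1 (LTp (5 / 4) c h τ)) *
      SokalCen.g0 r (Lr (5 / 4) ν (LTp (5 / 4) c h τ) * c ^ 2 / ν) (11 / 25) (Ltp h τ) 0) = _
    ring

/-! ### the sum of the other zones -/

/-- OTHERS: bounds of the sums from bounds of the pieces (front `F0`, `FW`; rest and far `U0`, `UW`, `UE`) -/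
theorem Scl0.oth (s : Scl0 r δ η c ν h τ Γ) {g q F0 FW U0 UW UE : ℝ} {u : ℝ × ℝ × ℝ}
    (hq : 0 ≤ q) (hπ : (1 + τ) * h ≤ π)
    (n0 : 0 ≤ F0) (n1 : 0 ≤ FW)
    (hF : (1 + τ) * h ≤ 6 / 5 → LF0 (5 / 4) q g c ν h τ Γ ≤ F0 ∧
      LF0 (5 / 4) q g c ν h τ Γ * (LFW (5 / 4) c ν τ Γ / c ^ 2) ≤ FW)
    (hU0 : PF r δ η g q * u.1 ≤ U0) (hUW : PF r δ η g q * u.2.1 * (RR r δ / h ^ 2) ≤ UW)
    (hUE : PF r δ η g q * u.2.2 / Γ ≤ UE) :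
    PF r δ η g q * (oL r (mm (r * δ)) (r * δ) ((1 + τ) * h)
        (tkL r (mm (r * δ)) (r * δ) (2 * π - (1 + τ) * h)) u).1 ≤
      LB0 (5 / 4) q g c ν h τ Γ + F0 +
        z0 (5 / 4) q g c ν τ Γ (Ltp h τ / h) (Lr (5 / 4) ν (LTp (5 / 4) c h τ)) (11 / 25) 0 +
        LJ0 (5 / 4) q g c ν h τ Γ + U0 ∧
    PF r δ η g q * (oL r (mm (r * δ)) (r * δ) ((1 + τ) * h)
        (tkL r (mm (r * δ)) (r * δ) (2 * π - (1 + τ) * h)) u).2.1 * (RR r δ / h ^ 2) ≤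
      LB0 (5 / 4) q g c ν h τ Γ * LBW (5 / 4) c ν h τ Γ + FW +
        zW (5 / 4) q g c ν τ Γ (Ltp h τ / h) (Lr (5 / 4) ν (LTp (5 / 4) c h τ)) (11 / 25) 0 0
          (eS (min 1 (LTp (5 / 4) c h τ)) ^ 2 / (5 / 4) ^ 2) (exp (min 1 (LTp (5 / 4) c h τ))) +
        LJ0 (5 / 4) q g c ν h τ Γ * LJW (5 / 4) c ν h τ Γ + UW ∧
    PF r δ η g q * (oL r (mm (r * δ)) (r * δ) ((1 + τ) * h)
        (tkL r (mm (r * δ)) (r * δ) (2 * π - (1 + τ) * h)) u).2.2 / Γ ≤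
      (LB0 (5 / 4) q g c ν h τ Γ + F0 +
        exp (min 1 (LTp (5 / 4) c h τ)) *
          z0 (5 / 4) q g c ν τ Γ (Ltp h τ / h) (Lr (5 / 4) ν (LTp (5 / 4) c h τ)) (11 / 25) 0 +
        Le (5 / 4) c h τ * LJ0 (5 / 4) q g c ν h τ Γ) / Γ + UE := by
  have h6 := s.Gpos
  obtain ⟨b0, b1, b2⟩ := s.beh (g := g) hq
  obtain ⟨i0, i1, i2⟩ := s.imgL (g := g) hq hπ
  obtain ⟨j0, j1, j2⟩ := s.imb (g := g) hq hπ
  have hf : PF r δ η g q * (tfL r (mm (r * δ)) (r * δ) ((1 + τ) * h)).1 ≤ F0 ∧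
      PF r δ η g q * (tfL r (mm (r * δ)) (r * δ) ((1 + τ) * h)).2.1 * (RR r δ / h ^ 2) ≤ FW ∧
      PF r δ η g q * (tfL r (mm (r * δ)) (r * δ) ((1 + τ) * h)).2.2 ≤ F0 := by
    by_cases ht : (1 + τ) * h ≤ 6 / 5
    · obtain ⟨f0, f1, f2⟩ := s.fro (g := g) hq ht
      obtain ⟨k0, k1⟩ := hF ht
      exact ⟨f0.le.trans k0, f1.le.trans k1, f2.le.trans k0⟩
    · unfold tfL
      rw [if_neg ht]
      simp only [Prod.fst_zero, Prod.snd_zero, mul_zero, zero_mul]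
      exact ⟨n0, n1, n0⟩
  obtain ⟨f0, f1, f2⟩ := hf
  have eT : Ltp h τ = 2 * π - (1 + τ) * h := rfl
  rw [← eT]
  unfold oL
  rw [← eT]
  refine ⟨?_, ?_, ?_⟩
  · show PF r δ η g q * ((tbL r (mm (r * δ)) (r * δ) ((1 + τ) * h)).1 +
      (tfL r (mm (r * δ)) (r * δ) ((1 + τ) * h)).1 + (tiL r (mm (r * δ)) (r * δ) (Ltp h τ)).1 +
      (tkL r (mm (r * δ)) (r * δ) (Ltp h τ)).1 + u.1) ≤ _
    linarith
  · show PF r δ η g q * ((tbL r (mm (r * δ)) (r * δ) ((1 + τ) * h)).2.1 +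
      (tfL r (mm (r * δ)) (r * δ) ((1 + τ) * h)).2.1 + (tiL r (mm (r * δ)) (r * δ) (Ltp h τ)).2.1 +
      (tkL r (mm (r * δ)) (r * δ) (Ltp h τ)).2.1 + u.2.1) * (RR r δ / h ^ 2) ≤ _
    linarith
  · show PF r δ η g q * ((tbL r (mm (r * δ)) (r * δ) ((1 + τ) * h)).2.2 +
      (tfL r (mm (r * δ)) (r * δ) ((1 + τ) * h)).2.2 + (tiL r (mm (r * δ)) (r * δ) (Ltp h τ)).2.2 +
      (tkL r (mm (r * δ)) (r * δ) (Ltp h τ)).2.2 + u.2.2) / Γ ≤ _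
    have e : PF r δ η g q * ((tbL r (mm (r * δ)) (r * δ) ((1 + τ) * h)).2.2 +
      (tfL r (mm (r * δ)) (r * δ) ((1 + τ) * h)).2.2 + (tiL r (mm (r * δ)) (r * δ) (Ltp h τ)).2.2 +
      (tkL r (mm (r * δ)) (r * δ) (Ltp h τ)).2.2 + u.2.2) / Γ =
      (PF r δ η g q * (tbL r (mm (r * δ)) (r * δ) ((1 + τ) * h)).2.2 +
      PF r δ η g q * (tfL r (mm (r * δ)) (r * δ) ((1 + τ) * h)).2.2 +
      PF r δ η g q * (tiL r (mm (r * δ)) (r * δ) (Ltp h τ)).2.2 +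
      PF r δ η g q * (tkL r (mm (r * δ)) (r * δ) (Ltp h τ)).2.2) / Γ +
      PF r δ η g q * u.2.2 / Γ := by ring
    rw [e, b2, i2, j2]
    refine add_le_add ?_ hUE
    refine div_le_div_of_nonneg_right ?_ h6.le
    linarith

end

end SokalCel
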