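import Pool.Agent.Lib_MP_af4de1_v3.CenB
import Pool.Agent.Lib_MP_af4de1_f1.GTay

/-!
# The rest zone on the right side for `t ≥ 6/5` and `5/4 ≤ m ≤ 16/5`: `Dm ≥ 3/5`
-/

set_option autoImplicit false

namespace SokalCen

open Real MeasureTheory Set

private theorem z6_cos12 : cos (6 / 5) ≤ 3664 / 10000 := by
  have h := SokalF1G.cos_le4 (x := 6 / 5) (by norm_num)
  refine h.trans (le_of_eq ?_)
  norm_num

private theorem z6_sin12 : 912 / 1000 ≤ sin (6 / 5) := by
  have h := SokalF1G.sin_ge3 (x := 6 / 5) (by norm_num)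
  refine le_trans (le_of_eq ?_) h
  norm_num

private theorem z6_exp : 5487 / 10000 ≤ exp (-(3 / 5)) := by
  have h2 : exp (-(3 / 5)) = exp (-(3 / 10)) ^ 2 := by
    rw [← Real.exp_nat_mul]
    norm_num
  have h0 := Real.exp_bound' (x := 3 / 10) (by norm_num) (by norm_num) (n := 5) (by norm_num)
  simp only [Finset.sum_range_succ, Finset.sum_range_zero, Nat.factorial] at h0
  norm_num at h0
  have h3 : exp (3 / 10) ≤ 134987 / 100000 := by linarith
  have h4 : (74080 / 100000 : ℝ) ≤ exp (-(3 / 10)) := by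
    rw [Real.exp_neg, le_inv_comm₀ (by norm_num) (Real.exp_pos _)]
    refine h3.trans ?_
    norm_num
  rw [h2]
  have h5 := pow_le_pow_left₀ (by norm_num) h4 2
  refine le_trans ?_ h5
  norm_num

/-- `1 - cos (t + v) ≥ .6336 + (2/5) v` for `6/5 ≤ t`, `t + v ≤ π` -/
private theorem z6_C {t v : ℝ} (ht : 6 / 5 ≤ t) (hv : 0 ≤ v) (h : t + v ≤ π) :
    6336 / 10000 + 2 / 5 * v ≤ 1 - cos (t + v) := by
  have hpi := Real.pi_lt_d2
  have h1 : cos (t + v) ≤ cos (6 / 5 + v) :=
    Real.cos_le_cos_of_nonneg_of_le_pi (by linarith) h (by linarith)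
  have h2 : cos (6 / 5 + v) = cos (6 / 5) * cos v - sin (6 / 5) * sin v := Real.cos_add _ _
  have hc := z6_cos12
  have hs := z6_sin12
  have hc0 : 0 ≤ cos (6 / 5) :=
    Real.cos_nonneg_of_mem_Icc ⟨by linarith [Real.pi_gt_three], by linarith [Real.pi_gt_three]⟩
  have h3 : cos (6 / 5) * cos v ≤ cos (6 / 5) := by
    have := Real.cos_le_one v
    nlinarith only [hc0, this]
  -- concavity of the sine
  have h4 : 46 / 100 * v ≤ sin v := by
    have hconc := strictConcaveOn_sin_Icc.concaveOn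
    set L := π - 6 / 5 with hL
    have hL0 : 0 < L := by
      rw [hL]
      linarith [Real.pi_gt_three]
    have hvL : v ≤ L := by rw [hL]; linarith
    have hmem0 : (0 : ℝ) ∈ Icc 0 π := ⟨le_rfl, Real.pi_pos.le⟩
    have hmemL : L ∈ Icc 0 π := ⟨hL0.le, by rw [hL]; linarith⟩
    have hk := hconc.2 hmem0 hmemL
      (show (0 : ℝ) ≤ 1 - v / L by rw [sub_nonneg, div_le_one hL0]; exact hvL)
      (div_nonneg hv hL0.le) (by ring)
    have e1 : (1 - v / L) • (0 : ℝ) + (v / L) • L = v := by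
      simp only [smul_eq_mul, mul_zero, zero_add]
      field_simp
    rw [e1] at hk
    simp only [smul_eq_mul, Real.sin_zero, mul_zero, zero_add] at hk
    have h5 : sin L = sin (6 / 5) := by rw [hL, Real.sin_pi_sub]
    rw [h5] at hk
    refine le_trans ?_ hk
    have h6 : 46 / 100 * L ≤ sin (6 / 5) := by rw [hL]; linarith
    have h7 : 46 / 100 * v = v / L * (46 / 100 * L) := by field_simp
    rw [h7]
    exact mul_le_mul_of_nonneg_left h6 (div_nonneg hv hL0.le)
  have h5 : 0 ≤ sin v := by linarith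
  have h6 : 912 / 1000 * sin v ≤ sin (6 / 5) * sin v := mul_le_mul_of_nonneg_right hs h5
  linarith

/-- the rest zone, right side -/
theorem Dm_35 {m ρ t s : ℝ} (hρ : 0 < ρ) (hm : 5 / 4 * ρ ≤ m) (hm1 : 5 / 4 ≤ m)
    (hm2 : m ≤ 16 / 5) (ht : 6 / 5 ≤ t) (ht2 : t ≤ π) (h : 6336 / 10000 ≤ 1 - cos (-t + s)) :
    3 / 5 ≤ Dm m ρ (-t) s := by
  have hρm : ρ ≤ m := by linarith
  have hm0 : 0 < m := by linarith
  rw [Dm_eq]
  rcases le_total 0 s with hs | hs
  · have h1 := Qm_nonneg hρ hρm s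
    have h2 : 1 ≤ exp (pm m s) := Real.one_le_exp (pm_nonneg hm0 hs)
    nlinarith only [h, h1, h2]
  obtain ⟨v, rfl⟩ : ∃ v, s = -v := ⟨-s, by ring⟩
  have hv : 0 ≤ v := by linarith
  have e1 : cos (-t + -v) = cos (t + v) := by
    rw [← Real.cos_neg]
    ring_nf
  rw [e1] at h ⊢
  have hmu : 3 / 4 ≤ m / ρ - 1 / 2 := by
    have : 5 / 4 ≤ m / ρ := by rwa [le_div_iff₀ hρ]
    linarith
  rcases le_total m v with h1 | h1
  · have h2 := Qm_left hρ hm0 hm0.le (by rw [div_self hm0.ne'])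
    have h3 := Qm_ray_left hρ hρm hm0 h1
    have h4 : aL m ρ * m ^ 2 = m / ρ - 1 / 2 := by
      unfold aL
      field_simp
    rw [h4] at h2
    have h5 : 1 ≤ v / m := by rwa [le_div_iff₀ hm0, one_mul]
    have h6 : Qm m ρ (-m) ≤ Qm m ρ (-m) * (v / m) := by nlinarith only [hmu, h2, h5]
    have h7 : 0 ≤ exp (pm m (-v)) * (1 - cos (t + v)) :=
      mul_nonneg (exp_pos _).le (by linarith)
    linarith
  have hx1 : v / m ≤ 1 := by rwa [div_le_one hm0]
  have hx0 : 0 ≤ v / m := div_nonneg hv hm0.le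
  have h2 := Qm_left hρ hm0 hv hx1
  have h3 : aL m ρ * v ^ 2 = (m / ρ - 1 / 2) * (v / m) ^ 2 := by
    unfold aL
    field_simp
  rw [h3] at h2
  have h4 : 3 / 4 * (v / m) ^ 2 ≤ Qm m ρ (-v) :=
    (mul_le_mul_of_nonneg_right hmu (sq_nonneg _)).trans h2
  have h5 : pm m (-v) = -(v / m) := by
    unfold pm
    rw [neg_div, min_eq_right (by linarith), max_eq_right (by linarith)]
  rw [h5]
  set x := v / m with hx
  have hE := exp_pos (-x)
  have hv1 : v = m * x := by rw [hx]; field_simp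
  set C := 1 - cos (t + v) with hC
  rcases le_total (t + v) π with h6 | h6
  · have h7 := z6_C ht hv h6
    have h8 : 5 / 4 * x ≤ v := by rw [hv1]; exact mul_le_mul_of_nonneg_right hm1 hx0
    have h9 : 6336 / 10000 + 1 / 2 * x ≤ C := by linarith
    have h10 : 1 - x ≤ exp (-x) := SokalF1G.en_ge1
    have h11 : (1 - x) * (6336 / 10000 + 1 / 2 * x) ≤ exp (-x) * C := by
      have h12 : (1 - x) * (6336 / 10000 + 1 / 2 * x) ≤ exp (-x) * (6336 / 10000 + 1 / 2 * x) :=
        mul_le_mul_of_nonneg_right h10 (by linarith)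
      exact h12.trans (mul_le_mul_of_nonneg_left h9 hE.le)
    nlinarith only [h4, h11, sq_nonneg (x - 67 / 250)]
  · rcases le_total (3 / 4) C with h7 | h7
    · have h10 := SokalF1G.en_ge3 hx0
      have h11 : 3 / 4 * exp (-x) ≤ exp (-x) * C := by nlinarith only [hE, h7]
      have h12 : 4 / 5 ≤ x ^ 2 + (1 - x + x ^ 2 / 2 - x ^ 3 / 6) := by
        nlinarith only [mul_nonneg hx0 (sq_nonneg (x - 7 / 20)), mul_nonneg (mul_nonneg hx0 hx0) (sub_nonneg.2 hx1)]
      linarith
    · -- cos (t+v) ≥ 1/4, so t + v ≥ 3π/2 + 1/4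
      have h8 : 1 / 4 ≤ cos (t + v) := by rw [hC] at h7; linarith
      have h9 : 3 * π / 2 < t + v := by
        by_contra hc
        push Not at hc
        have : cos (t + v) ≤ 0 :=
          Real.cos_nonpos_of_pi_div_two_le_of_le (by linarith [Real.pi_pos]) (by linarith)
        linarith
      have h10 : cos (t + v) = sin (t + v - 3 * π / 2) := by
        have e : t + v - 3 * π / 2 = t + v - π - π / 2 := by ring
        rw [e, Real.sin_sub_pi_div_two, Real.cos_sub_pi]
        ring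
      have h11 : sin (t + v - 3 * π / 2) ≤ t + v - 3 * π / 2 := Real.sin_le (by linarith)
      have hpi := Real.pi_gt_d2
      have h12 : 182 / 100 ≤ v := by linarith
      have h13 : 56875 / 100000 ≤ x := by
        rw [hx, le_div_iff₀ hm0]
        linarith
      have h14 : 5487 / 10000 * (8 / 5 - x) ≤ exp (-x) := by
        have e : exp (-x) = exp (-(3 / 5)) * exp (3 / 5 - x) := by
          rw [← Real.exp_add]
          ring_nf
        rw [e]
        have h15 := Real.add_one_le_exp (3 / 5 - x)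
        have h16 := z6_exp
        have h17 : 0 ≤ 8 / 5 - x := by linarith
        calc 5487 / 10000 * (8 / 5 - x) ≤ exp (-(3 / 5)) * (8 / 5 - x) :=
              mul_le_mul_of_nonneg_right h16 h17
          _ ≤ exp (-(3 / 5)) * exp (3 / 5 - x) :=
              mul_le_mul_of_nonneg_left (by linarith) (exp_pos _).le
      have h18 : 6336 / 10000 * exp (-x) ≤ exp (-x) * C := by nlinarith only [hE, h]
      nlinarith only [h4, h13, h14, h18]

end SokalCen
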