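import Pool.Agent.Lib_MP_af4de1_fa.FarNum

/-!
# Cells, core: bisection of a box in three variables, bounds of `(1 - cos θ)/θ²`, lower bound of `exp (-y)`
-/

set_option autoImplicit false

namespace SokalCel

open SokalFN

/-! ### bisection -/

/-- Bisection: `ok` holds on the box or on both halves (the longest weighted side is halved). -/
def bis (ok : ℕ → ℕ → ℕ → ℕ → ℕ → ℕ → Bool) (wx wy wz : ℕ) :
    ℕ → ℕ → ℕ → ℕ → ℕ → ℕ → ℕ → Bool
  | 0, x0, x1, y0, y1, z0, z1 => ok x0 x1 y0 y1 z0 z1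
  | n + 1, x0, x1, y0, y1, z0, z1 =>
    ok x0 x1 y0 y1 z0 z1 ||
      bif Nat.ble (wy * (y1 - y0)) (wx * (x1 - x0)) && Nat.ble (wz * (z1 - z0)) (wx * (x1 - x0)) then
        bis ok wx wy wz n x0 ((x0 + x1) / 2) y0 y1 z0 z1 &&
          bis ok wx wy wz n ((x0 + x1) / 2) x1 y0 y1 z0 z1
      else
        bif Nat.ble (wz * (z1 - z0)) (wy * (y1 - y0)) then
          bis ok wx wy wz n x0 x1 y0 ((y0 + y1) / 2) z0 z1 &&
            bis ok wx wy wz n x0 x1 ((y0 + y1) / 2) y1 z0 z1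
        else
          bis ok wx wy wz n x0 x1 y0 y1 z0 ((z0 + z1) / 2) &&
            bis ok wx wy wz n x0 x1 y0 y1 ((z0 + z1) / 2) z1

theorem bis_sound {P : ℝ → ℝ → ℝ → Prop} {ok : ℕ → ℕ → ℕ → ℕ → ℕ → ℕ → Bool}
    (hok : ∀ x0 x1 y0 y1 z0 z1, ok x0 x1 y0 y1 z0 z1 = true → ∀ x y z : ℝ, fx x0 ≤ x → x ≤ fx x1 →
      fx y0 ≤ y → y ≤ fx y1 → fx z0 ≤ z → z ≤ fx z1 → P x y z) (wx wy wz : ℕ) :
    ∀ n x0 x1 y0 y1 z0 z1, bis ok wx wy wz n x0 x1 y0 y1 z0 z1 = true → ∀ x y z : ℝ, fx x0 ≤ x →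
      x ≤ fx x1 → fx y0 ≤ y → y ≤ fx y1 → fx z0 ≤ z → z ≤ fx z1 → P x y z := by
  intro n
  induction n with
  | zero => intro x0 x1 y0 y1 z0 z1 h; exact hok _ _ _ _ _ _ h
  | succ n ih =>
    intro x0 x1 y0 y1 z0 z1 h x y z h1 h2 h3 h4 h5 h6
    rw [bis, Bool.or_eq_true] at h
    rcases h with h | h
    · exact hok _ _ _ _ _ _ h x y z h1 h2 h3 h4 h5 h6
    · cases hb : (Nat.ble (wy * (y1 - y0)) (wx * (x1 - x0)) &&
          Nat.ble (wz * (z1 - z0)) (wx * (x1 - x0))) with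
      | true =>
        rw [hb] at h
        simp only [cond_true, Bool.and_eq_true] at h
        rcases le_total x (fx ((x0 + x1) / 2)) with hx | hx
        · exact ih _ _ _ _ _ _ h.1 x y z h1 hx h3 h4 h5 h6
        · exact ih _ _ _ _ _ _ h.2 x y z hx h2 h3 h4 h5 h6
      | false =>
        rw [hb] at h
        simp only [cond_false] at h
        cases hc : Nat.ble (wz * (z1 - z0)) (wy * (y1 - y0)) with
        | true =>
          rw [hc] at h
          simp only [cond_true, Bool.and_eq_true] at h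
          rcases le_total y (fx ((y0 + y1) / 2)) with hx | hx
          · exact ih _ _ _ _ _ _ h.1 x y z h1 h2 h3 hx h5 h6
          · exact ih _ _ _ _ _ _ h.2 x y z h1 h2 hx h4 h5 h6
        | false =>
          rw [hc] at h
          simp only [cond_false, Bool.and_eq_true] at h
          rcases le_total z (fx ((z0 + z1) / 2)) with hx | hx
          · exact ih _ _ _ _ _ _ h.1 x y z h1 h2 h3 h4 h5 hx
          · exact ih _ _ _ _ _ _ h.2 x y z h1 h2 h3 h4 hx h6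

/-! ### cosine -/

private theorem CelC_mono {F F' : ℝ → ℝ} (hd : ∀ x, HasDerivAt F (F' x) x) (h0 : F 0 = 0)
    (hF' : ∀ x, 0 ≤ x → 0 ≤ F' x) {x : ℝ} (hx : 0 ≤ x) : 0 ≤ F x := by
  have h1 : MonotoneOn F (Set.Ici 0) := by
    refine monotoneOn_of_deriv_nonneg (convex_Ici 0)
      (fun y _ => (hd y).continuousAt.continuousWithinAt)
      (fun y _ => (hd y).differentiableAt.differentiableWithinAt) fun y hy => ?_
    rw [interior_Ici] at hy
    rw [(hd y).deriv]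
    exact hF' y (le_of_lt hy)
  have := h1 (Set.mem_Ici.2 le_rfl) (Set.mem_Ici.2 hx) hx
  rwa [h0] at this

private theorem CelC_pw (n : ℕ) (c : ℝ) (x : ℝ) :
    HasDerivAt (fun x : ℝ => x ^ n / c) (n * x ^ (n - 1) / c) x :=
  (hasDerivAt_pow n x).div_const c

private theorem CelC_sin1 {x : ℝ} (hx : 0 ≤ x) : Real.sin x ≤ x := Real.sin_le hx

private theorem CelC_cos2 {x : ℝ} (hx : 0 ≤ x) : 1 - x ^ 2 / 2 ≤ Real.cos x := by
  have h := CelC_mono (F := fun x => Real.cos x - (1 - x ^ 2 / 2)) (F' := fun x => x - Real.sin x)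
    (fun x => ?_) (by simp) (fun x hx => ?_) hx
  · linarith
  · refine HasDerivAt.congr_deriv ((Real.hasDerivAt_cos x).sub ((hasDerivAt_const x (1 : ℝ)).sub (CelC_pw 2 2 x))) ?_
    norm_num
    ring
  · have h := CelC_sin1 hx
    linarith

private theorem CelC_sin3 {x : ℝ} (hx : 0 ≤ x) : x - x ^ 3 / 6 ≤ Real.sin x := by
  have h := CelC_mono (F := fun x => Real.sin x - (x - x ^ 3 / 6)) (F' := fun x => Real.cos x - (1 - x ^ 2 / 2))
    (fun x => ?_) (by simp) (fun x hx => ?_) hx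
  · linarith
  · refine HasDerivAt.congr_deriv ((Real.hasDerivAt_sin x).sub ((hasDerivAt_id x).sub (CelC_pw 3 6 x))) ?_
    norm_num
    ring
  · have h := CelC_cos2 hx
    linarith

private theorem CelC_cos4 {x : ℝ} (hx : 0 ≤ x) : Real.cos x ≤ 1 - x ^ 2 / 2 + x ^ 4 / 24 := by
  have h := CelC_mono (F := fun x => (1 - x ^ 2 / 2 + x ^ 4 / 24) - Real.cos x) (F' := fun x => Real.sin x - (x - x ^ 3 / 6))
    (fun x => ?_) (by simp) (fun x hx => ?_) hx
  · linarith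
  · refine HasDerivAt.congr_deriv ((((hasDerivAt_const x (1 : ℝ)).sub (CelC_pw 2 2 x)).add (CelC_pw 4 24 x)).sub (Real.hasDerivAt_cos x)) ?_
    norm_num
    ring
  · have h := CelC_sin3 hx
    linarith

private theorem CelC_sin5 {x : ℝ} (hx : 0 ≤ x) : Real.sin x ≤ x - x ^ 3 / 6 + x ^ 5 / 120 := by
  have h := CelC_mono (F := fun x => (x - x ^ 3 / 6 + x ^ 5 / 120) - Real.sin x) (F' := fun x => (1 - x ^ 2 / 2 + x ^ 4 / 24) - Real.cos x)
    (fun x => ?_) (by simp) (fun x hx => ?_) hx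
  · linarith
  · refine HasDerivAt.congr_deriv ((((hasDerivAt_id x).sub (CelC_pw 3 6 x)).add (CelC_pw 5 120 x)).sub (Real.hasDerivAt_sin x)) ?_
    norm_num
    ring
  · have h := CelC_cos4 hx
    linarith

theorem cos6 {x : ℝ} (hx : 0 ≤ x) : 1 - x ^ 2 / 2 + x ^ 4 / 24 - x ^ 6 / 720 ≤ Real.cos x := by
  have h := CelC_mono (F := fun x => Real.cos x - (1 - x ^ 2 / 2 + x ^ 4 / 24 - x ^ 6 / 720)) (F' := fun x => (x - x ^ 3 / 6 + x ^ 5 / 120) - Real.sin x)
    (fun x => ?_) (by simp) (fun x hx => ?_) hx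
  · linarith
  · refine HasDerivAt.congr_deriv ((Real.hasDerivAt_cos x).sub ((((hasDerivAt_const x (1 : ℝ)).sub (CelC_pw 2 2 x)).add (CelC_pw 4 24 x)).sub (CelC_pw 6 720 x))) ?_
    norm_num
    ring
  · have h := CelC_sin5 hx
    linarith

private theorem CelC_sin7 {x : ℝ} (hx : 0 ≤ x) : x - x ^ 3 / 6 + x ^ 5 / 120 - x ^ 7 / 5040 ≤ Real.sin x := by
  have h := CelC_mono (F := fun x => Real.sin x - (x - x ^ 3 / 6 + x ^ 5 / 120 - x ^ 7 / 5040)) (F' := fun x => Real.cos x - (1 - x ^ 2 / 2 + x ^ 4 / 24 - x ^ 6 / 720))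
    (fun x => ?_) (by simp) (fun x hx => ?_) hx
  · linarith
  · refine HasDerivAt.congr_deriv ((Real.hasDerivAt_sin x).sub ((((hasDerivAt_id x).sub (CelC_pw 3 6 x)).add (CelC_pw 5 120 x)).sub (CelC_pw 7 5040 x))) ?_
    norm_num
    ring
  · have h := cos6 hx
    linarith

theorem cos8 {x : ℝ} (hx : 0 ≤ x) : Real.cos x ≤ 1 - x ^ 2 / 2 + x ^ 4 / 24 - x ^ 6 / 720 + x ^ 8 / 40320 := by
  have h := CelC_mono (F := fun x => (1 - x ^ 2 / 2 + x ^ 4 / 24 - x ^ 6 / 720 + x ^ 8 / 40320) - Real.cos x) (F' := fun x => Real.sin x - (x - x ^ 3 / 6 + x ^ 5 / 120 - x ^ 7 / 5040))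
    (fun x => ?_) (by simp) (fun x hx => ?_) hx
  · linarith
  · refine HasDerivAt.congr_deriv ((((((hasDerivAt_const x (1 : ℝ)).sub (CelC_pw 2 2 x)).add (CelC_pw 4 24 x)).sub (CelC_pw 6 720 x)).add (CelC_pw 8 40320 x)).sub (Real.hasDerivAt_cos x)) ?_
    norm_num
    ring
  · have h := CelC_sin7 hx
    linarith

/-- `b(θ) = (1 - cos θ)/θ²` -/
noncomputable def bq (θ : ℝ) : ℝ := (1 - Real.cos θ) / θ ^ 2

/-- lower polynomial in `x = θ²` -/
theorem bq_ge {θ X : ℝ} (h0 : 0 < θ) (hX : θ ^ 2 ≤ X) :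
    1 / 2 - X / 24 + X ^ 2 / 720 - X ^ 3 / 40320 ≤ bq θ := by
  have h1 := cos8 h0.le
  have h2 : 1 / 2 - θ ^ 2 / 24 + (θ ^ 2) ^ 2 / 720 - (θ ^ 2) ^ 3 / 40320 ≤ bq θ := by
    unfold bq
    rw [le_div_iff₀ (by positivity)]
    nlinarith
  refine le_trans ?_ h2
  obtain ⟨x, hx⟩ : ∃ x, x = θ ^ 2 := ⟨_, rfl⟩
  rw [← hx] at hX ⊢
  have hx0 : 0 ≤ x := by rw [hx]; positivity
  have e : 1 / 2 - x / 24 + x ^ 2 / 720 - x ^ 3 / 40320 - (1 / 2 - X / 24 + X ^ 2 / 720 - X ^ 3 / 40320) =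
      (X - x) * (1 / 24 - (X + x) / 720 + (X ^ 2 + X * x + x ^ 2) / 40320) := by ring
  have h3 : 0 ≤ 1 / 24 - (X + x) / 720 + (X ^ 2 + X * x + x ^ 2) / 40320 := by
    nlinarith [sq_nonneg (X - x), sq_nonneg (X + x - 37)]
  have h4 := mul_nonneg (sub_nonneg.2 hX) h3
  linarith

/-- upper polynomial in `x = θ²` -/
theorem bq_le {θ X : ℝ} (h0 : 0 < θ) (hX : X ≤ θ ^ 2) (h1 : θ ^ 2 ≤ 15) (hX0 : 0 ≤ X) :
    bq θ ≤ 1 / 2 - X / 24 + X ^ 2 / 720 := by
  have h1' := cos6 h0.le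
  have h2 : bq θ ≤ 1 / 2 - θ ^ 2 / 24 + (θ ^ 2) ^ 2 / 720 := by
    unfold bq
    rw [div_le_iff₀ (by positivity)]
    nlinarith
  refine h2.trans ?_
  obtain ⟨x, hx⟩ : ∃ x, x = θ ^ 2 := ⟨_, rfl⟩
  rw [← hx] at hX h1 ⊢
  have e : (1 / 2 - X / 24 + X ^ 2 / 720) - (1 / 2 - x / 24 + x ^ 2 / 720) =
      (x - X) * (1 / 24 - (x + X) / 720) := by ring
  have h4 := mul_nonneg (sub_nonneg.2 hX) (by linarith : (0 : ℝ) ≤ 1 / 24 - (x + X) / 720)
  linarith

theorem bq_pos {θ : ℝ} (h0 : 0 < θ) (h1 : θ < 2 * Real.pi) : 0 < bq θ := by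
  unfold bq
  have h2 : Real.cos θ < 1 := by
    have e : Real.cos θ = 1 - 2 * Real.sin (θ / 2) ^ 2 := by
      have : θ = 2 * (θ / 2) := by ring
      conv_lhs => rw [this]
      rw [Real.cos_two_mul, Real.cos_sq']
      ring
    have hs : 0 < Real.sin (θ / 2) := Real.sin_pos_of_pos_of_lt_pi (by linarith) (by linarith)
    have : 0 < Real.sin (θ / 2) ^ 2 := by positivity
    linarith
  exact div_pos (by linarith) (by positivity)

theorem fx_divU (m k : ℕ) (hk : 0 < k) : fx m / k ≤ fx (m / k + 1) := by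
  unfold fx
  have hk' : (0 : ℝ) < k := by exact_mod_cast hk
  have h : m < (m / k + 1) * k := by
    have := Nat.lt_div_mul_add hk (a := m)
    have h2 := Nat.div_add_mod m k
    have h3 := Nat.mod_lt m hk
    nlinarith
  have h2 : (m : ℝ) ≤ ((m / k + 1 : ℕ) : ℝ) * k := by exact_mod_cast h.le
  rw [div_right_comm]
  have : (m : ℝ) / k ≤ ((m / k + 1 : ℕ) : ℝ) := by rwa [div_le_iff₀ hk']
  gcongr

theorem fx_half : fx 549755813888 = 1 / 2 := by unfold fx; norm_num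

/-- lower bound of `b(θ)` for `θ ≤ fx t` -/
def bL (t : ℕ) : ℕ :=
  let x := mU t t
  549755813888 + mL x x / 720 - (x / 24 + 1 + (mU (mU x x) x / 40320 + 1))

theorem bL_le {θ : ℝ} {t : ℕ} (h0 : 0 < θ) (h : θ ≤ fx t)
    (hp : (mU t t / 24 + 1 + (mU (mU (mU t t) (mU t t)) (mU t t) / 40320 + 1)) ≤
      549755813888 + mL (mU t t) (mU t t) / 720) : fx (bL t) ≤ bq θ := by
  have hx : θ ^ 2 ≤ fx (mU t t) := by
    have := mulU h h h0.le
    nlinarith
  refine le_trans ?_ (bq_ge h0 hx)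
  unfold bL
  obtain ⟨x, hx'⟩ : ∃ x, x = mU t t := ⟨_, rfl⟩
  simp only [← hx'] at hp ⊢
  have h1 : fx (mL x x / 720) ≤ fx x ^ 2 / 720 := by
    refine (fx_div _ 720 (by norm_num)).trans ?_
    have := mL_le x x
    have h2 : fx x ^ 2 = fx x * fx x := by ring
    rw [h2]
    push_cast
    gcongr
  have h2 : fx x / 24 ≤ fx (x / 24 + 1) := by
    have := fx_divU x 24 (by norm_num)
    exact_mod_cast this
  have h3 : fx x ^ 3 / 40320 ≤ fx (mU (mU x x) x / 40320 + 1) := by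
    have h4 := fx_divU (mU (mU x x) x) 40320 (by norm_num)
    have h5 : fx x ^ 3 ≤ fx (mU (mU x x) x) := by
      have h6 := mulU (le_mU x x) (le_refl (fx x)) (fx_nonneg x)
      calc fx x ^ 3 = fx x * fx x * fx x := by ring
        _ ≤ _ := h6
    refine le_trans ?_ h4
    push_cast
    gcongr
  have h4 : fx 549755813888 = 1 / 2 := fx_half
  have h5 : fx (549755813888 + mL x x / 720 - (x / 24 + 1 + (mU (mU x x) x / 40320 + 1))) =
      fx (549755813888 + mL x x / 720) - fx (x / 24 + 1 + (mU (mU x x) x / 40320 + 1)) := by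
    have : fx (549755813888 + mL x x / 720) =
        fx (549755813888 + mL x x / 720 - (x / 24 + 1 + (mU (mU x x) x / 40320 + 1))) +
        fx (x / 24 + 1 + (mU (mU x x) x / 40320 + 1)) := by
      rw [← fx_add]; congr 1; omega
    linarith
  rw [h5, fx_add 549755813888, fx_add (x / 24 + 1)]
  linarith

/-- upper bound of `b(θ)` for `fx t ≤ θ` -/
def bU (t : ℕ) : ℕ :=
  let x := mL t t
  549755813888 + (mU x x / 720 + 1) - x / 24

theorem le_bU {θ : ℝ} {t : ℕ} (h0 : 0 < θ) (h : fx t ≤ θ) (h1 : θ ^ 2 ≤ 15) : bq θ ≤ fx (bU t) := by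
  have hx : fx (mL t t) ≤ θ ^ 2 := by
    have := mulL h h
    nlinarith
  refine (bq_le h0 hx h1 (fx_nonneg _)).trans ?_
  unfold bU
  obtain ⟨x, hx'⟩ : ∃ x, x = mL t t := ⟨_, rfl⟩
  simp only [← hx']
  have h2 : fx (x / 24) ≤ fx x / 24 := by
    have := fx_div x 24 (by norm_num)
    exact_mod_cast this
  have h3 : fx x ^ 2 / 720 ≤ fx (mU x x / 720 + 1) := by
    have h4 := fx_divU (mU x x) 720 (by norm_num)
    have h5 : fx x ^ 2 ≤ fx (mU x x) := by
      have := le_mU x x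
      nlinarith
    refine le_trans ?_ h4
    push_cast
    gcongr
  have h4 := subU (a := 1 / 2 + fx x ^ 2 / 720) (b := fx x / 24) (addU (by rw [fx_half]) h3) h2
  linarith

/-! ### lower bound of `exp (-y)` -/

private theorem CelC_em1 {t : ℝ} : 1 - t ≤ Real.exp (-t) := by
  have := Real.add_one_le_exp (-t)
  linarith

private theorem CelC_em2 {t : ℝ} (ht : 0 ≤ t) : Real.exp (-t) ≤ 1 - t + t ^ 2 / 2 := by
  have h := CelC_mono (F := fun t => (1 - t + t ^ 2 / 2) - Real.exp (-t))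
    (F' := fun t => Real.exp (-t) - (1 - t)) (fun x => ?_) (by simp) (fun x hx => ?_) ht
  · linarith
  · have hd : HasDerivAt (fun t : ℝ => Real.exp (-t)) (Real.exp (-x) * (-1)) x :=
      (hasDerivAt_neg x).exp
    refine HasDerivAt.congr_deriv ((((hasDerivAt_const x (1 : ℝ)).sub (hasDerivAt_id x)).add
      (CelC_pw 2 2 x)).sub hd) ?_
    norm_num
    ring
  · have := CelC_em1 (t := x)
    linarith

theorem em3 {t : ℝ} (ht : 0 ≤ t) : 1 - t + t ^ 2 / 2 - t ^ 3 / 6 ≤ Real.exp (-t) := by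
  have h := CelC_mono (F := fun t => Real.exp (-t) - (1 - t + t ^ 2 / 2 - t ^ 3 / 6))
    (F' := fun t => (1 - t + t ^ 2 / 2) - Real.exp (-t)) (fun x => ?_) (by simp) (fun x hx => ?_) ht
  · linarith
  · have hd : HasDerivAt (fun t : ℝ => Real.exp (-t)) (Real.exp (-x) * (-1)) x :=
      (hasDerivAt_neg x).exp
    refine HasDerivAt.congr_deriv (hd.sub ((((hasDerivAt_const x (1 : ℝ)).sub (hasDerivAt_id x)).add
      (CelC_pw 2 2 x)).sub (CelC_pw 3 6 x))) ?_
    norm_num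
    ring
  · have := CelC_em2 hx
    linarith

/-- lower bound of `exp (-y)` for `y ≤ fx a` -/
def eNL (a : ℕ) : ℕ :=
  let z := a / 256 + 1
  sqN 8 (SC + mL z z / 2 - (z + (mU (mU z z) z / 6 + 1)))

theorem eNL_le {y : ℝ} {a : ℕ} (h : y ≤ fx a) : fx (eNL a) ≤ Real.exp (-y) := by
  obtain ⟨z, hz⟩ : ∃ z, z = a / 256 + 1 := ⟨_, rfl⟩
  have hz1 : fx a / 256 ≤ fx z := by
    have := fx_divU a 256 (by norm_num)
    rw [hz]
    exact_mod_cast this
  have hz0 := fx_nonneg z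
  have key : fx (SC + mL z z / 2 - (z + (mU (mU z z) z / 6 + 1))) ≤ Real.exp (-(fx z)) := by
    rcases le_total (z + (mU (mU z z) z / 6 + 1)) (SC + mL z z / 2) with hc | hc
    · refine le_trans ?_ (em3 hz0)
      have h1 : fx (mL z z / 2) ≤ fx z ^ 2 / 2 := by
        refine (fx_div _ 2 (by norm_num)).trans ?_
        have := mL_le z z
        have h2 : fx z ^ 2 = fx z * fx z := by ring
        rw [h2]
        push_cast
        gcongr
      have h3 : fx z ^ 3 / 6 ≤ fx (mU (mU z z) z / 6 + 1) := by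
        have h4 := fx_divU (mU (mU z z) z) 6 (by norm_num)
        have h5 : fx z ^ 3 ≤ fx (mU (mU z z) z) := by
          have h6 := mulU (le_mU z z) (le_refl (fx z)) hz0
          calc fx z ^ 3 = fx z * fx z * fx z := by ring
            _ ≤ _ := h6
        refine le_trans ?_ h4
        push_cast
        gcongr
      have h5 : fx (SC + mL z z / 2) = fx (SC + mL z z / 2 - (z + (mU (mU z z) z / 6 + 1))) +
          fx (z + (mU (mU z z) z / 6 + 1)) := by
        rw [← fx_add]; congr 1; omega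
      rw [fx_add SC, fx_one] at h5
      rw [fx_add z] at h5
      linarith
    · have e : SC + mL z z / 2 - (z + (mU (mU z z) z / 6 + 1)) = 0 := by omega
      rw [e, fx_zero]
      exact (Real.exp_pos _).le
  have h2 := sqN_le 8 _ _ key
  have e : eNL a = sqN 8 (SC + mL z z / 2 - (z + (mU (mU z z) z / 6 + 1))) := by
    rw [hz]; rfl
  rw [e]
  refine h2.trans (Real.exp_le_exp.2 ?_)
  norm_num
  linarith

/-- upper bound of `exp y` for `y ≤ fx a` -/
theorem expUp {y : ℝ} {a : ℕ} (h : y ≤ fx a) (hp : 0 < eNL a) : Real.exp y ≤ fx (dU SC (eNL a)) := by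
  have h1 : Real.exp y = 1 / Real.exp (-y) := by rw [Real.exp_neg, one_div, inv_inv]
  rw [h1]
  exact divU (by rw [fx_one]) (eNL_le h) hp

/-- lower bound of `exp y` for `fx a ≤ y` -/
theorem expLo {y : ℝ} {a : ℕ} (h : fx a ≤ y) : fx (eL a) ≤ Real.exp y :=
  (eL_le a).trans (Real.exp_le_exp.2 h)

end SokalCel
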