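import Pool.Agent.Lib_MP_af4de1_v3.CenZ6
import Pool.Agent.Lib_MP_af4de1_v3.CelCore

/-!
# The rest zone: uniform numerical bounds (both sides)

`P = LvF r δ η g q * √(1 + 1/m²)`, `m = mm ρ`; `P * red r m ρ (1/20) d ≤ (41/2) √R exp (-(19/20) r d + (g/2) r η²/R)`.
-/

set_option autoImplicit false

namespace SokalCen

open Real SokalV3

/-- the closed form -/
theorem rest_P {r δ η g q d : ℝ} (hr : 499 / 10 ≤ r) (hδ : 0 < δ) (hq0 : 0 ≤ q) (hq : q ≤ 2) :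
    LvF r δ η g q * √(1 + 1 / mm (r * δ) ^ 2) * red r (mm (r * δ)) (r * δ) (1 / 20) d ≤
      41 / 2 * √(RR r δ) * exp (-(19 / 20 * (r * d) - g / 2 * (r * η ^ 2 / RR r δ))) := by
  have hr0 : 0 < r := by linarith
  have hρ : 0 < r * δ := mul_pos hr0 hδ
  obtain ⟨ρ, hρe⟩ : ∃ ρ, ρ = r * δ := ⟨_, rfl⟩
  obtain ⟨s, hs⟩ : ∃ s, s = √(RR r δ) := ⟨_, rfl⟩
  have hRR : RR r δ = 1 + ρ ^ 2 := by rw [hρe]; rfl
  have hR0 : 0 < RR r δ := by rw [hRR]; positivity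
  have hs0 : 0 < s := by rw [hs]; exact Real.sqrt_pos.2 hR0
  have hs2 : s ^ 2 = 1 + ρ ^ 2 := by rw [hs, Real.sq_sqrt hR0.le, hRR]
  have hs1 : 1 ≤ s := by nlinarith [sq_nonneg ρ]
  rw [← hρe] at hρ
  have hρs : ρ ≤ s := by nlinarith
  have hm : mm (r * δ) = 5 / 4 * s := by
    unfold mm
    rw [← hρe, ← hRR, ← hs]
  have hla : laR r (mm (r * δ)) (r * δ) (1 / 20) = r * s / (40 * ρ) := by
    rw [hm, ← hρe]
    unfold laR
    field_simp
    ring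
  have hpi := Real.pi_gt_d4
  have hpi0 := Real.pi_pos
  -- the two parts
  obtain ⟨A, hA⟩ : ∃ A, A = √(r / (2 * π * ρ)) * √(q * s) := ⟨_, rfl⟩
  have hA0 : 0 ≤ A := by rw [hA]; positivity
  have hA2 : A ^ 2 = r * q * s / (2 * π * ρ) := by
    rw [hA, mul_pow, Real.sq_sqrt (by positivity), Real.sq_sqrt (by positivity)]
    field_simp
  have h1 : A * √(π / (r * s / (40 * ρ))) ≤ 6325 / 1000 := by
    refine abs_le_of_sq_le_sq' ?_ (by norm_num) |>.2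
    rw [mul_pow, hA2, Real.sq_sqrt (by positivity)]
    have e : r * q * s / (2 * π * ρ) * (π / (r * s / (40 * ρ))) = 20 * q := by
      field_simp
      ring
    rw [e]
    nlinarith
  have h2 : A * (2 / (r * s / (40 * ρ))) ≤ 639 / 100 := by
    refine abs_le_of_sq_le_sq' ?_ (by norm_num) |>.2
    rw [mul_pow, hA2]
    have e : r * q * s / (2 * π * ρ) * (2 / (r * s / (40 * ρ))) ^ 2 =
        3200 * (q * (ρ / s)) / (π * r) := by
      field_simp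
      ring
    rw [e, div_le_iff₀ (by positivity)]
    have h3 : ρ / s ≤ 1 := by rwa [div_le_one hs0]
    have h3' : 0 ≤ ρ / s := by positivity
    have h4 : q * (ρ / s) ≤ 2 * 1 := mul_le_mul hq h3 h3' (by norm_num)
    have h5 : (3.1415 : ℝ) * (499 / 10) ≤ π * r := mul_le_mul hpi.le hr (by norm_num) hpi0.le
    nlinarith
  have h3 : √(1 + 1 / (5 / 4 * s) ^ 2) ≤ 12807 / 10000 := by
    rw [Real.sqrt_le_left (by norm_num)]
    have : 1 / (5 / 4 * s) ^ 2 ≤ 16 / 25 := by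
      rw [div_le_iff₀ (by positivity)]
      nlinarith
    linarith
  have hE1 := exp_pos (g / 2 * (r * η ^ 2 / RR r δ))
  have hE2 := exp_pos (-((1 - 1 / 20) * (r * d)))
  unfold LvF red
  rw [hla, hm, ← hρe, ← hs, ← hA]
  have e1 : exp (-(19 / 20 * (r * d) - g / 2 * (r * η ^ 2 / RR r δ))) =
      exp (g / 2 * (r * η ^ 2 / RR r δ)) * exp (-((1 - 1 / 20) * (r * d))) := by
    rw [← exp_add]
    congr 1
    ring
  rw [e1]
  have e2 : A * exp (g / 2 * (r * η ^ 2 / RR r δ)) * √(1 + 1 / (5 / 4 * s) ^ 2) *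
      (exp (-((1 - 1 / 20) * (r * d))) *
        (5 / 4 * s * (√(π / (r * s / (40 * ρ))) + 2 / (r * s / (40 * ρ))))) =
      (A * √(π / (r * s / (40 * ρ))) + A * (2 / (r * s / (40 * ρ)))) *
        √(1 + 1 / (5 / 4 * s) ^ 2) * (5 / 4) * s *
        (exp (g / 2 * (r * η ^ 2 / RR r δ)) * exp (-((1 - 1 / 20) * (r * d)))) := by ring
  rw [e2]
  refine mul_le_mul_of_nonneg_right (mul_le_mul_of_nonneg_right ?_ hs0.le) (by positivity)
  have h4 : A * √(π / (r * s / (40 * ρ))) + A * (2 / (r * s / (40 * ρ))) ≤ 12715 / 1000 := by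
    linarith
  have h5 : 0 ≤ A * √(π / (r * s / (40 * ρ))) + A * (2 / (r * s / (40 * ρ))) := by positivity
  have h6 := mul_le_mul h4 h3 (Real.sqrt_nonneg _) (by norm_num)
  nlinarith

/-! ## numbers -/

theorem sqrt_le_exp {x : ℝ} (hx : 0 ≤ x) : √(1 + x) ≤ exp (x / 2) := by
  have h1 : 1 + x ≤ exp x := by
    have := Real.add_one_le_exp x
    linarith
  have h2 : exp x = exp (x / 2) ^ 2 := by
    rw [← Real.exp_nat_mul]
    congr 1
    push_cast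
    ring
  rw [Real.sqrt_le_left (exp_pos _).le, ← h2]
  exact h1

/-- `√r e^(-cr)` decreases -/
theorem sqrt_exp_mono {r c : ℝ} (hr : 499 / 10 ≤ r) (hc : 1 / 2 ≤ c * (499 / 10)) :
    √r * exp (-(c * r)) ≤ √(499 / 10) * exp (-(c * (499 / 10))) := by
  obtain ⟨x, hx⟩ : ∃ x, x = r / (499 / 10) - 1 := ⟨_, rfl⟩
  have hx0 : 0 ≤ x := by
    rw [hx, sub_nonneg, one_le_div (by norm_num)]
    exact hr
  have hr' : r = 499 / 10 * (1 + x) := by
    rw [hx]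
    ring
  rw [hr', Real.sqrt_mul (by norm_num), mul_assoc]
  refine mul_le_mul_of_nonneg_left ?_ (Real.sqrt_nonneg _)
  refine (mul_le_mul_of_nonneg_right (sqrt_le_exp hx0) (exp_pos _).le).trans ?_
  rw [← exp_add]
  refine exp_le_exp.2 ?_
  have := mul_le_mul_of_nonneg_right hc hx0
  linarith

/-- `r √r e^(-cr)` decreases -/
theorem sqrt_exp_mono' {r c : ℝ} (hr : 499 / 10 ≤ r) (hc : 3 / 2 ≤ c * (499 / 10)) :
    r * √r * exp (-(c * r)) ≤ 499 / 10 * √(499 / 10) * exp (-(c * (499 / 10))) := by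
  obtain ⟨x, hx⟩ : ∃ x, x = r / (499 / 10) - 1 := ⟨_, rfl⟩
  have hx0 : 0 ≤ x := by
    rw [hx, sub_nonneg, one_le_div (by norm_num)]
    exact hr
  have hr' : r = 499 / 10 * (1 + x) := by
    rw [hx]
    ring
  rw [hr', Real.sqrt_mul (by norm_num)]
  have h1 : 1 + x ≤ exp x := by
    have := Real.add_one_le_exp x
    linarith
  have h2 := mul_le_mul h1 (sqrt_le_exp hx0) (Real.sqrt_nonneg _) (exp_pos _).le
  rw [← exp_add] at h2
  have h3 : exp (x + x / 2) * exp (-(c * (499 / 10 * (1 + x)))) ≤ exp (-(c * (499 / 10))) := by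
    rw [← exp_add]
    refine exp_le_exp.2 ?_
    have := mul_le_mul_of_nonneg_right hc hx0
    linarith
  have h4 := (mul_le_mul_of_nonneg_right h2 (exp_pos (-(c * (499 / 10 * (1 + x))))).le).trans h3
  have h5 : (0 : ℝ) ≤ 499 / 10 * √(499 / 10) := by positivity
  have h6 := mul_le_mul_of_nonneg_left h4 h5
  refine le_trans (le_of_eq ?_) h6
  ring

theorem sqrt_r0 : √(499 / 10) ≤ 7065 / 1000 := by
  rw [Real.sqrt_le_left (by norm_num)]
  norm_num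

theorem exp_neg_nat {x : ℝ} {n : ℕ} (h : (n : ℝ) ≤ x) : exp (-x) ≤ (1 / 2.7182818) ^ n := by
  have h1 : exp (-x) ≤ exp (-(n : ℝ)) := exp_le_exp.2 (by linarith)
  refine h1.trans ?_
  have h2 : exp (-(n : ℝ)) = (1 / exp 1) ^ n := by
    rw [Real.exp_neg, one_div, inv_pow, ← Real.exp_nat_mul, mul_one]
  rw [h2]
  have h3 := Real.exp_one_gt_d9
  have h4 : 1 / exp 1 ≤ 1 / 2.7182818 := by
    refine div_le_div_of_nonneg_left (by norm_num) (by norm_num) ?_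
    linarith
  exact pow_le_pow_left₀ (by positivity) h4 n

/-- Small and middle `Γ`: `G0 ≤ Γ`, level exponent at most `K`, `√R ≤ σ √r`. -/
theorem rest_AB {r δ η g q h G0 K σ : ℝ} {n : ℕ} (hr : 499 / 10 ≤ r) (hδ : 0 < δ) (hq0 : 0 ≤ q)
    (hq : q ≤ 2) (hh : 0 < h) (hG0 : 0 < G0) (hG : G0 ≤ r * h ^ 2 / RR r δ) (hσ : 0 ≤ σ)
    (hhG : h ^ 2 ≤ σ ^ 2 * G0) (hK : g / 2 * (r * η ^ 2 / RR r δ) ≤ K)
    (hn : (n : ℝ) ≤ 19 / 40 * (499 / 10) - K) :
    LvF r δ η g q * √(1 + 1 / mm (r * δ) ^ 2) * re0 r (mm (r * δ)) (r * δ) (1 / 20) ≤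
        145 * σ * (1 / 2.7182818) ^ n ∧
      LvF r δ η g q * √(1 + 1 / mm (r * δ) ^ 2) * (20 * re0 r (mm (r * δ)) (r * δ) (1 / 20)) *
          (RR r δ / h ^ 2) ≤ 145000 / G0 * σ * (1 / 2.7182818) ^ n := by
  have hr0 : 0 < r := by linarith
  have hR0 : 0 < RR r δ := by unfold RR; positivity
  have h1 := rest_P (η := η) (g := g) (d := 1 / 2) hr hδ hq0 hq
  rw [red_half] at h1
  obtain ⟨X, hX⟩ : ∃ X, X = LvF r δ η g q * √(1 + 1 / mm (r * δ) ^ 2) *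
    re0 r (mm (r * δ)) (r * δ) (1 / 20) := ⟨_, rfl⟩
  have e1 : LvF r δ η g q * √(1 + 1 / mm (r * δ) ^ 2) * (20 * re0 r (mm (r * δ)) (r * δ) (1 / 20)) *
      (RR r δ / h ^ 2) = 20 * X * (RR r δ / h ^ 2) := by
    rw [hX]
    ring
  rw [e1, ← hX]
  rw [← hX] at h1
  have hRle : RR r δ / h ^ 2 ≤ r / G0 := by
    rw [le_div_iff₀ hR0] at hG
    rw [div_le_div_iff₀ (by positivity) hG0]
    linarith
  have hsR : √(RR r δ) ≤ σ * √r := by
    rw [Real.sqrt_le_left (by positivity), mul_pow, Real.sq_sqrt hr0.le]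
    rw [div_le_div_iff₀ (by positivity) hG0] at hRle
    have h2 : r * h ^ 2 ≤ r * (σ ^ 2 * G0) := mul_le_mul_of_nonneg_left hhG hr0.le
    have h3 : RR r δ * G0 ≤ (σ ^ 2 * r) * G0 := by linarith
    exact le_of_mul_le_mul_right h3 hG0
  have h2 : X ≤ 41 / 2 * (σ * √r) * (exp (-(19 / 40 * r)) * exp K) := by
    refine h1.trans ?_
    have h3 : exp (-(19 / 20 * (r * (1 / 2)) - g / 2 * (r * η ^ 2 / RR r δ))) ≤
        exp (-(19 / 40 * r)) * exp K := by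
      rw [← exp_add]
      refine exp_le_exp.2 ?_
      linarith
    exact mul_le_mul (mul_le_mul_of_nonneg_left hsR (by norm_num)) h3 (exp_pos _).le (by positivity)
  have hN : exp (-(19 / 40 * (499 / 10))) * exp K ≤ (1 / 2.7182818) ^ n := by
    rw [← exp_add]
    have e : -(19 / 40 * (499 / 10 : ℝ)) + K = -(19 / 40 * (499 / 10) - K) := by ring
    rw [e]
    exact exp_neg_nat hn
  have hs0 := sqrt_r0
  have hEK := exp_pos K
  have hpow : (0 : ℝ) ≤ (1 / 2.7182818) ^ n := by positivity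
  constructor
  · have h3 := sqrt_exp_mono (c := 19 / 40) hr (by norm_num)
    calc X ≤ 41 / 2 * (σ * √r) * (exp (-(19 / 40 * r)) * exp K) := h2
      _ = 41 / 2 * σ * exp K * (√r * exp (-(19 / 40 * r))) := by ring
      _ ≤ 41 / 2 * σ * exp K * (√(499 / 10) * exp (-(19 / 40 * (499 / 10)))) := by gcongr
      _ = 41 / 2 * σ * √(499 / 10) * (exp (-(19 / 40 * (499 / 10))) * exp K) := by ring
      _ ≤ 41 / 2 * σ * (7065 / 1000) * (1 / 2.7182818) ^ n := by gcongr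
      _ ≤ 145 * σ * (1 / 2.7182818) ^ n := by
        have : 0 ≤ σ * (1 / 2.7182818) ^ n := by positivity
        nlinarith
  · have h3 := sqrt_exp_mono' (c := 19 / 40) hr (by norm_num)
    calc 20 * X * (RR r δ / h ^ 2) ≤ 20 * (41 / 2 * (σ * √r) * (exp (-(19 / 40 * r)) * exp K)) *
          (r / G0) := by
          have : 0 ≤ RR r δ / h ^ 2 := by positivity
          gcongr
      _ = 410 * σ / G0 * exp K * (r * √r * exp (-(19 / 40 * r))) := by ring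
      _ ≤ 410 * σ / G0 * exp K * (499 / 10 * √(499 / 10) * exp (-(19 / 40 * (499 / 10)))) := by
          gcongr
      _ = 410 * σ / G0 * (499 / 10) * √(499 / 10) * (exp (-(19 / 40 * (499 / 10))) * exp K) := by
          ring
      _ ≤ 410 * σ / G0 * (499 / 10) * (7065 / 1000) * (1 / 2.7182818) ^ n := by gcongr
      _ ≤ 145000 / G0 * σ * (1 / 2.7182818) ^ n := by
        have : 0 ≤ σ / G0 * (1 / 2.7182818) ^ n := by positivity
        have e2 : 410 * σ / G0 * (499 / 10) * (7065 / 1000) * (1 / 2.7182818) ^ n =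
            410 * (499 / 10) * (7065 / 1000) * (σ / G0 * (1 / 2.7182818) ^ n) := by ring
        have e3 : 145000 / G0 * σ * (1 / 2.7182818) ^ n =
            145000 * (σ / G0 * (1 / 2.7182818) ^ n) := by ring
        rw [e2, e3]
        exact mul_le_mul_of_nonneg_right (by norm_num) this

/-- REST, `27/5 ≤ Γ ≤ 10`, `|η| ≤ (3/4) h`, level `g ≤ 6/5` (both sides). -/
theorem rest_A {r δ η g q h : ℝ} (hr : 499 / 10 ≤ r) (hδ : 0 < δ) (hq0 : 0 ≤ q) (hq : q ≤ 2)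
    (hg : g ≤ 6 / 5) (hh : 0 < h) (hh2 : h ≤ 21 / 10) (hη : |η| ≤ 3 / 4 * h)
    (hG : 27 / 5 ≤ r * h ^ 2 / RR r δ) (hG2 : r * h ^ 2 / RR r δ ≤ 10) :
    LvF r δ η g q * √(1 + 1 / mm (r * δ) ^ 2) * re0 r (mm (r * δ)) (r * δ) (1 / 20) ≤
        1 / 1000000 ∧
      LvF r δ η g q * √(1 + 1 / mm (r * δ) ^ 2) * (20 * re0 r (mm (r * δ)) (r * δ) (1 / 20)) *
          (RR r δ / h ^ 2) ≤ 1 / 10000 ∧
      LvF r δ η g q * √(1 + 1 / mm (r * δ) ^ 2) * (3 * re0 r (mm (r * δ)) (r * δ) (1 / 20)) /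
          (r * h ^ 2 / RR r δ) ≤ 1 / 1000000 := by
  have hr0 : 0 < r := by linarith
  have hR0 : 0 < RR r δ := by unfold RR; positivity
  have hη2 : η ^ 2 ≤ 9 / 16 * h ^ 2 := by
    rw [← sq_abs]
    have := pow_le_pow_left₀ (abs_nonneg η) hη 2
    linarith
  have hK : g / 2 * (r * η ^ 2 / RR r δ) ≤ 27 / 8 := by
    have h1 : r * η ^ 2 / RR r δ ≤ 9 / 16 * (r * h ^ 2 / RR r δ) := by
      rw [← mul_div_assoc]
      refine div_le_div_of_nonneg_right ?_ hR0.le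
      have := mul_le_mul_of_nonneg_left hη2 hr0.le
      linarith
    have h2 : 0 ≤ r * η ^ 2 / RR r δ := by positivity
    have h3 : g / 2 * (r * η ^ 2 / RR r δ) ≤ 3 / 5 * (r * η ^ 2 / RR r δ) :=
      mul_le_mul_of_nonneg_right (by linarith) h2
    linarith
  obtain ⟨h1, h2⟩ := rest_AB (n := 20) (G0 := 27 / 5) (K := 27 / 8) (σ := 91 / 100) (η := η)
    (g := g) (q := q) (h := h) hr hδ hq0 hq hh (by norm_num) hG (by norm_num) (by nlinarith) hK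
    (by norm_num)
  have h3 := h1.trans (show 145 * (91 / 100) * (1 / 2.7182818) ^ 20 ≤ (3 / 10000000 : ℝ) by
    norm_num)
  refine ⟨h3.trans (by norm_num), h2.trans (by norm_num), ?_⟩
  rw [div_le_iff₀ (by linarith)]
  have e : LvF r δ η g q * √(1 + 1 / mm (r * δ) ^ 2) * (3 * re0 r (mm (r * δ)) (r * δ) (1 / 20)) =
      3 * (LvF r δ η g q * √(1 + 1 / mm (r * δ) ^ 2) * re0 r (mm (r * δ)) (r * δ) (1 / 20)) := by
    ring
  rw [e]
  linarith

/-- REST, `10 ≤ Γ ≤ 20`, `|η| ≤ (13/20) h`, level `g ≤ 13/10` (both sides). -/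
theorem rest_B {r δ η g q h : ℝ} (hr : 499 / 10 ≤ r) (hδ : 0 < δ) (hq0 : 0 ≤ q) (hq : q ≤ 2)
    (hg : g ≤ 13 / 10) (hh : 0 < h) (hh2 : h ≤ 21 / 10) (hη : |η| ≤ 13 / 20 * h)
    (hG : 10 ≤ r * h ^ 2 / RR r δ) (hG2 : r * h ^ 2 / RR r δ ≤ 20) :
    LvF r δ η g q * √(1 + 1 / mm (r * δ) ^ 2) * re0 r (mm (r * δ)) (r * δ) (1 / 20) ≤
        1 / 500000 ∧
      LvF r δ η g q * √(1 + 1 / mm (r * δ) ^ 2) * (20 * re0 r (mm (r * δ)) (r * δ) (1 / 20)) *
          (RR r δ / h ^ 2) ≤ 1 / 5000 ∧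
      LvF r δ η g q * √(1 + 1 / mm (r * δ) ^ 2) * (3 * re0 r (mm (r * δ)) (r * δ) (1 / 20)) /
          (r * h ^ 2 / RR r δ) ≤ 1 / 1000000 := by
  have hr0 : 0 < r := by linarith
  have hR0 : 0 < RR r δ := by unfold RR; positivity
  have hη2 : η ^ 2 ≤ 169 / 400 * h ^ 2 := by
    rw [← sq_abs]
    have := pow_le_pow_left₀ (abs_nonneg η) hη 2
    linarith
  have hK : g / 2 * (r * η ^ 2 / RR r δ) ≤ 11 / 2 := by
    have h1 : r * η ^ 2 / RR r δ ≤ 169 / 400 * (r * h ^ 2 / RR r δ) := by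
      rw [← mul_div_assoc]
      refine div_le_div_of_nonneg_right ?_ hR0.le
      have := mul_le_mul_of_nonneg_left hη2 hr0.le
      linarith
    have h2 : 0 ≤ r * η ^ 2 / RR r δ := by positivity
    have h3 : g / 2 * (r * η ^ 2 / RR r δ) ≤ 13 / 20 * (r * η ^ 2 / RR r δ) :=
      mul_le_mul_of_nonneg_right (by linarith) h2
    linarith
  obtain ⟨h1, h2⟩ := rest_AB (n := 18) (G0 := 10) (K := 11 / 2) (σ := 67 / 100) (η := η)
    (g := g) (q := q) (h := h) hr hδ hq0 hq hh (by norm_num) hG (by norm_num) (by nlinarith) hK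
    (by norm_num)
  have h3 := h1.trans (show 145 * (67 / 100) * (1 / 2.7182818) ^ 18 ≤ (2 / 1000000 : ℝ) by
    norm_num)
  refine ⟨h3.trans (by norm_num), h2.trans (by norm_num), ?_⟩
  rw [div_le_iff₀ (by linarith)]
  have e : LvF r δ η g q * √(1 + 1 / mm (r * δ) ^ 2) * (3 * re0 r (mm (r * δ)) (r * δ) (1 / 20)) =
      3 * (LvF r δ η g q * √(1 + 1 / mm (r * δ) ^ 2) * re0 r (mm (r * δ)) (r * δ) (1 / 20)) := by
    ring
  rw [e]
  linarith

theorem exp_half_ge : (1.6487 : ℝ) ≤ exp (1 / 2) := by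
  have h1 := Real.exp_one_gt_d9
  have h2 : exp 1 = exp (1 / 2) ^ 2 := by
    rw [← Real.exp_nat_mul]
    norm_num
  by_contra hcon
  push Not at hcon
  have h3 := exp_pos (1 / 2 : ℝ)
  nlinarith

/-- half steps -/
theorem exp_neg_half {x : ℝ} {n : ℕ} (h : (n : ℝ) / 2 ≤ x) : exp (-x) ≤ (1 / 1.6487) ^ n := by
  have h1 : exp (-x) ≤ exp (-((n : ℝ) / 2)) := exp_le_exp.2 (by linarith)
  refine h1.trans ?_
  have h2 : exp (-((n : ℝ) / 2)) = (1 / exp (1 / 2)) ^ n := by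
    rw [Real.exp_neg, one_div, inv_pow, ← Real.exp_nat_mul]
    congr 2
    ring
  rw [h2]
  have h3 := exp_half_ge
  have h4 : 1 / exp (1 / 2) ≤ 1 / 1.6487 :=
    div_le_div_of_nonneg_left (by norm_num) (by norm_num) h3
  exact pow_le_pow_left₀ (by positivity) h4 n

/-- Large `Γ`: `Γ ≥ 20`, `h²/R ≤ Y`, level exponent at most `κ Γ`. -/
theorem rest_C {r δ η g q h κ Y d : ℝ} {n : ℕ} (hr : 499 / 10 ≤ r) (hδ : 0 < δ) (hq0 : 0 ≤ q)
    (hq : q ≤ 2) (hh : 0 < h) (hG : 20 ≤ r * h ^ 2 / RR r δ) (hY : h ^ 2 / RR r δ ≤ Y)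
    (hκ : 3 / 40 ≤ κ) (hK : g / 2 * (r * η ^ 2 / RR r δ) ≤ κ * (r * h ^ 2 / RR r δ))
    (hc : 0 ≤ 19 / 20 * d - κ * Y) (hn : (n : ℝ) / 2 ≤ (19 / 20 * d - κ * Y) * (499 / 10)) :
    LvF r δ η g q * √(1 + 1 / mm (r * δ) ^ 2) * red r (mm (r * δ)) (r * δ) (1 / 20) d ≤
        41 / 2 * (h / √Y) * (1 / 1.6487) ^ n ∧
      LvF r δ η g q * √(1 + 1 / mm (r * δ) ^ 2) * (20 * red r (mm (r * δ)) (r * δ) (1 / 20) d) *
          (RR r δ / h ^ 2) ≤ 410 * (h / (Y * √Y)) * (1 / 1.6487) ^ n := by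
  have hr0 : 0 < r := by linarith
  have hR0 : 0 < RR r δ := by unfold RR; positivity
  have h1 := rest_P (η := η) (g := g) (d := d) hr hδ hq0 hq
  obtain ⟨X, hX⟩ : ∃ X, X = LvF r δ η g q * √(1 + 1 / mm (r * δ) ^ 2) *
    red r (mm (r * δ)) (r * δ) (1 / 20) d := ⟨_, rfl⟩
  have e1 : LvF r δ η g q * √(1 + 1 / mm (r * δ) ^ 2) * (20 * red r (mm (r * δ)) (r * δ) (1 / 20) d) *
      (RR r δ / h ^ 2) = 20 * X * (RR r δ / h ^ 2) := by
    rw [hX]
    ring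
  rw [e1, ← hX]
  rw [← hX] at h1
  obtain ⟨y, hy⟩ : ∃ y, y = h ^ 2 / RR r δ := ⟨_, rfl⟩
  have hy0 : 0 < y := by rw [hy]; positivity
  have hRy : RR r δ = h ^ 2 / y := by
    rw [hy]
    field_simp
  have ery : r * y = r * h ^ 2 / RR r δ := by rw [hy, mul_div_assoc]
  have hG' : 20 ≤ r * y := by rw [ery]; exact hG
  have hK' : g / 2 * (r * η ^ 2 / RR r δ) ≤ κ * (r * y) := by rw [ery]; exact hK
  rw [← hy] at hY
  have hY0 : 0 < Y := hy0.trans_le hY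
  obtain ⟨u, hu⟩ : ∃ u, u = Y / y - 1 := ⟨_, rfl⟩
  have hu0 : 0 ≤ u := by
    rw [hu, sub_nonneg, one_le_div hy0]
    exact hY
  have hYy : Y / y = 1 + u := by rw [hu]; ring
  have hκG : 3 / 2 ≤ κ * (r * y) := by nlinarith
  have hsR : √(RR r δ) = h / √Y * √(1 + u) := by
    rw [hRy, Real.sqrt_div (sq_nonneg h), Real.sqrt_sq hh.le, ← hYy, Real.sqrt_div hY0.le]
    have h3 : 0 < √Y := Real.sqrt_pos.2 hY0
    have h4 : 0 < √y := Real.sqrt_pos.2 hy0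
    field_simp
  have hRh : RR r δ / h ^ 2 = 1 / Y * (1 + u) := by
    rw [hRy, ← hYy]
    field_simp
  have eu : κ * (r * y) = κ * (r * Y) - κ * (r * y) * u := by
    rw [hu]
    field_simp
    ring
  have hE : exp (-(19 / 20 * (r * d) - g / 2 * (r * η ^ 2 / RR r δ))) ≤
      exp (-((19 / 20 * d - κ * Y) * (499 / 10))) * exp (-(κ * (r * y) * u)) := by
    rw [← exp_add]
    refine exp_le_exp.2 ?_
    have h3 : (19 / 20 * d - κ * Y) * (499 / 10) ≤ (19 / 20 * d - κ * Y) * r :=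
      mul_le_mul_of_nonneg_left hr hc
    linarith
  have hN := exp_neg_half hn
  have hs := sqrt_le_exp hu0
  have h1u : 1 + u ≤ exp u := by
    have := Real.add_one_le_exp u
    linarith
  have hsY : 0 < √Y := Real.sqrt_pos.2 hY0
  have hX1 : X ≤ 41 / 2 * (h / √Y * √(1 + u)) *
      ((1 / 1.6487) ^ n * exp (-(κ * (r * y) * u))) := by
    rw [hsR] at h1
    refine h1.trans ?_
    refine mul_le_mul_of_nonneg_left (hE.trans ?_) (by positivity)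
    exact mul_le_mul_of_nonneg_right hN (exp_pos _).le
  constructor
  · refine hX1.trans ?_
    have h3 : √(1 + u) * exp (-(κ * (r * y) * u)) ≤ 1 := by
      refine (mul_le_mul_of_nonneg_right hs (exp_pos _).le).trans ?_
      rw [← exp_add]
      refine exp_le_one_iff.2 ?_
      nlinarith [mul_le_mul_of_nonneg_right hκG hu0]
    have h4 : 0 ≤ 41 / 2 * (h / √Y) * (1 / 1.6487) ^ n := by positivity
    have h5 := mul_le_mul_of_nonneg_left h3 h4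
    refine le_trans (le_of_eq ?_) (h5.trans (le_of_eq (mul_one _)))
    ring
  · rw [hRh]
    have h3 : (1 + u) * √(1 + u) * exp (-(κ * (r * y) * u)) ≤ 1 := by
      have h4 := mul_le_mul h1u hs (Real.sqrt_nonneg _) (exp_pos _).le
      refine (mul_le_mul_of_nonneg_right h4 (exp_pos _).le).trans ?_
      rw [← exp_add, ← exp_add]
      refine exp_le_one_iff.2 ?_
      nlinarith [mul_le_mul_of_nonneg_right hκG hu0]
    have h4 : 0 ≤ 410 * (h / (Y * √Y)) * (1 / 1.6487) ^ n := by positivity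
    have h5 := mul_le_mul_of_nonneg_left h3 h4
    have h6 : 20 * X * (1 / Y * (1 + u)) ≤ 20 * (41 / 2 * (h / √Y * √(1 + u)) *
        ((1 / 1.6487) ^ n * exp (-(κ * (r * y) * u)))) * (1 / Y * (1 + u)) := by
      have : 0 ≤ 1 / Y * (1 + u) := by positivity
      gcongr
    refine h6.trans (le_trans (le_of_eq ?_) (h5.trans (le_of_eq (mul_one _))))
    field_simp
    ring

/-- `Dm ≥ 53/100` on the rest, both sides -/
theorem Dm_53 {m ρ θ s : ℝ} (hρ : 0 < ρ) (hm : 5 / 4 * ρ ≤ m)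
    (h : 6336 / 10000 ≤ 1 - cos (θ + s)) : 53 / 100 ≤ Dm m ρ θ s := by
  have hρm : ρ ≤ m := by linarith
  have hm0 : 0 < m := hρ.trans_le hρm
  have hmu : 5 / 4 ≤ m / ρ := by rwa [le_div_iff₀ hρ]
  rw [Dm_eq]
  rcases le_total 0 s with hs | hs
  · have h1 := Qm_nonneg hρ hρm s
    have h2 : 1 ≤ exp (pm m s) := one_le_exp (pm_nonneg hm0 hs)
    nlinarith
  · have hv : 0 ≤ -s := by linarith
    rcases le_total (-s) m with h1 | h1
    · have hx1 : -s / m ≤ 1 := by rwa [div_le_one hm0]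
      have hx0 : 0 ≤ -s / m := div_nonneg hv hm0.le
      have h2 := Qm_left hρ hm0 hv hx1
      rw [neg_neg] at h2
      have hpa : pm m s = -(-s / m) := by
        rw [pm_mid hm0 (by linarith) (by linarith)]
        ring
      have e1 : aL m ρ * (-s) ^ 2 = (m / ρ - 1 / 2) * (-s / m) ^ 2 := by
        unfold aL
        field_simp
      rw [e1] at h2
      rw [hpa]
      generalize -s / m = x at *
      have h3 := SokalCel.em3 hx0
      have h4 : (3 / 4 : ℝ) * x ^ 2 ≤ (m / ρ - 1 / 2) * x ^ 2 :=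
        mul_le_mul_of_nonneg_right (by linarith) (sq_nonneg x)
      have h5 : (6336 / 10000 : ℝ) * exp (-x) ≤ exp (-x) * (1 - cos (θ + s)) := by
        rw [mul_comm]
        exact mul_le_mul_of_nonneg_left h (exp_pos _).le
      have h6 : (6336 / 10000 : ℝ) * (1 - x + x ^ 2 / 2 - x ^ 3 / 6) ≤
        6336 / 10000 * exp (-x) := by linarith
      have h7 : (53 / 100 : ℝ) ≤ 3 / 4 * x ^ 2 + 6336 / 10000 * (1 - x + x ^ 2 / 2 - x ^ 3 / 6) := by
        have h8 : 0 ≤ x ^ 2 * (1 - x) := mul_nonneg (sq_nonneg x) (by linarith)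
        nlinarith [sq_nonneg (x - 33 / 100), mul_nonneg hx0 (sq_nonneg (x - 33 / 100))]
      linarith
    · have h2 := Qm_left hρ hm0 hm0.le (by rw [div_self hm0.ne'])
      have h3 := Qm_ray_left hρ hρm hm0 h1
      rw [neg_neg] at h3
      have e1 : aL m ρ * m ^ 2 = m / ρ - 1 / 2 := by
        unfold aL
        field_simp
      rw [e1] at h2
      have h4 : 1 ≤ -s / m := by rwa [le_div_iff₀ hm0, one_mul]
      have h5 : 3 / 4 ≤ Qm m ρ (-m) * (-s / m) := by nlinarith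
      have h6 : 0 ≤ exp (pm m s) * (1 - cos (θ + s)) :=
        mul_nonneg (exp_pos _).le (by linarith)
      linarith

private theorem C_aux {r δ η g h κ τ : ℝ} (hr0 : 0 < r) (hτ : |η| ≤ τ * h)
    (hg0 : 0 ≤ g) (hκ : g / 2 * τ ^ 2 ≤ κ) :
    g / 2 * (r * η ^ 2 / RR r δ) ≤ κ * (r * h ^ 2 / RR r δ) := by
  have hR0 : 0 < RR r δ := by unfold RR; positivity
  have hη2 : η ^ 2 ≤ τ ^ 2 * h ^ 2 := by
    rw [← sq_abs, ← mul_pow]
    exact pow_le_pow_left₀ (abs_nonneg η) hτ 2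
  have h1 : r * η ^ 2 / RR r δ ≤ τ ^ 2 * (r * h ^ 2 / RR r δ) := by
    rw [← mul_div_assoc]
    refine div_le_div_of_nonneg_right ?_ hR0.le
    have := mul_le_mul_of_nonneg_left hη2 hr0.le
    linarith
  calc g / 2 * (r * η ^ 2 / RR r δ) ≤ g / 2 * (τ ^ 2 * (r * h ^ 2 / RR r δ)) :=
        mul_le_mul_of_nonneg_left h1 (by linarith)
    _ = g / 2 * τ ^ 2 * (r * h ^ 2 / RR r δ) := by ring
    _ ≤ κ * (r * h ^ 2 / RR r δ) := mul_le_mul_of_nonneg_right hκ (by positivity)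

private theorem sq_ge {Y a : ℝ} (h : a ^ 2 ≤ Y) : a ≤ √Y := Real.le_sqrt_of_sq_le h

/-- REST, `Γ ≥ 20`, `h²/R ≤ 7/10`, `|η| ≤ (3/5) h`, level `g ≤ 3/2` (both sides), `d = 1/2`. -/
theorem rest_C1 {r δ η g q h : ℝ} (hr : 499 / 10 ≤ r) (hδ : 0 < δ) (hq0 : 0 ≤ q) (hq : q ≤ 2)
    (hg0 : 0 ≤ g) (hg : g ≤ 3 / 2) (hh : 0 < h) (hh2 : h ≤ 21 / 10) (hη : |η| ≤ 3 / 5 * h)
    (hG : 20 ≤ r * h ^ 2 / RR r δ) (hY : h ^ 2 / RR r δ ≤ 7 / 10) :
    LvF r δ η g q * √(1 + 1 / mm (r * δ) ^ 2) * red r (mm (r * δ)) (r * δ) (1 / 20) (1 / 2) ≤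
        1 / 20000 ∧
      LvF r δ η g q * √(1 + 1 / mm (r * δ) ^ 2) *
        (20 * red r (mm (r * δ)) (r * δ) (1 / 20) (1 / 2)) * (RR r δ / h ^ 2) ≤ 13 / 10000 ∧
      LvF r δ η g q * √(1 + 1 / mm (r * δ) ^ 2) *
        (3 * red r (mm (r * δ)) (r * δ) (1 / 20) (1 / 2)) / (r * h ^ 2 / RR r δ) ≤ 1 / 100000 := by
  have hr0 : 0 < r := by linarith
  obtain ⟨h1, h2⟩ := rest_C (n := 28) (κ := 27 / 100) (Y := 7 / 10) (d := 1 / 2) (η := η)
    (g := g) (q := q) (h := h) hr hδ hq0 hq hh hG hY (by norm_num)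
    (C_aux hr0 hη hg0 (by nlinarith)) (by norm_num) (by norm_num)
  have h3 : (8366 / 10000 : ℝ) ≤ √(7 / 10) := sq_ge (by norm_num)
  have h4 : h / √(7 / 10) ≤ 21 / 10 / (8366 / 10000) := by
    gcongr
  have h5 : h / (7 / 10 * √(7 / 10)) ≤ 21 / 10 / (7 / 10 * (8366 / 10000)) := by
    gcongr
  have h6 : 41 / 2 * (h / √(7 / 10)) * (1 / 1.6487) ^ 28 ≤
      41 / 2 * (21 / 10 / (8366 / 10000)) * (1 / 1.6487) ^ 28 := by gcongr
  have h7 : 410 * (h / (7 / 10 * √(7 / 10))) * (1 / 1.6487) ^ 28 ≤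
      410 * (21 / 10 / (7 / 10 * (8366 / 10000))) * (1 / 1.6487) ^ 28 := by gcongr
  have h8 := (h1.trans h6).trans (show 41 / 2 * (21 / 10 / (8366 / 10000)) * (1 / 1.6487) ^ 28 ≤
    (1 / 20000 : ℝ) by norm_num)
  refine ⟨h8, (h2.trans h7).trans (by norm_num), ?_⟩
  rw [div_le_iff₀ (by linarith)]
  have e : LvF r δ η g q * √(1 + 1 / mm (r * δ) ^ 2) *
      (3 * red r (mm (r * δ)) (r * δ) (1 / 20) (1 / 2)) =
      3 * (LvF r δ η g q * √(1 + 1 / mm (r * δ) ^ 2) *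
        red r (mm (r * δ)) (r * δ) (1 / 20) (1 / 2)) := by ring
  rw [e]
  linarith

/-- REST, `Γ ≥ 20`, `h²/R ≤ 11/10`, `|η| ≤ (3/5) h`, level `g ≤ 3/2`, `d = 3/5` (right side, `Dm_35`). -/
theorem rest_C2 {r δ η g q h : ℝ} (hr : 499 / 10 ≤ r) (hδ : 0 < δ) (hq0 : 0 ≤ q) (hq : q ≤ 2)
    (hg0 : 0 ≤ g) (hg : g ≤ 3 / 2) (hh : 0 < h) (hh2 : h ≤ 21 / 10) (hη : |η| ≤ 3 / 5 * h)
    (hG : 20 ≤ r * h ^ 2 / RR r δ) (hY : h ^ 2 / RR r δ ≤ 11 / 10) :
    LvF r δ η g q * √(1 + 1 / mm (r * δ) ^ 2) * red r (mm (r * δ)) (r * δ) (1 / 20) (3 / 5) ≤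
        1 / 10000 ∧
      LvF r δ η g q * √(1 + 1 / mm (r * δ) ^ 2) *
        (20 * red r (mm (r * δ)) (r * δ) (1 / 20) (3 / 5)) * (RR r δ / h ^ 2) ≤ 11 / 10000 ∧
      LvF r δ η g q * √(1 + 1 / mm (r * δ) ^ 2) *
        (3 * red r (mm (r * δ)) (r * δ) (1 / 20) (3 / 5)) / (r * h ^ 2 / RR r δ) ≤ 1 / 50000 := by
  have hr0 : 0 < r := by linarith
  obtain ⟨h1, h2⟩ := rest_C (n := 27) (κ := 27 / 100) (Y := 11 / 10) (d := 3 / 5) (η := η)
    (g := g) (q := q) (h := h) hr hδ hq0 hq hh hG hY (by norm_num)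
    (C_aux hr0 hη hg0 (by nlinarith)) (by norm_num) (by norm_num)
  have h3 : (10488 / 10000 : ℝ) ≤ √(11 / 10) := sq_ge (by norm_num)
  have h6 : 41 / 2 * (h / √(11 / 10)) * (1 / 1.6487) ^ 27 ≤
      41 / 2 * (21 / 10 / (10488 / 10000)) * (1 / 1.6487) ^ 27 := by gcongr
  have h7 : 410 * (h / (11 / 10 * √(11 / 10))) * (1 / 1.6487) ^ 27 ≤
      410 * (21 / 10 / (11 / 10 * (10488 / 10000))) * (1 / 1.6487) ^ 27 := by gcongr
  have h8 := (h1.trans h6).trans (show 41 / 2 * (21 / 10 / (10488 / 10000)) * (1 / 1.6487) ^ 27 ≤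
    (1 / 10000 : ℝ) by norm_num)
  refine ⟨h8, (h2.trans h7).trans (by norm_num), ?_⟩
  rw [div_le_iff₀ (by linarith)]
  have e : LvF r δ η g q * √(1 + 1 / mm (r * δ) ^ 2) *
      (3 * red r (mm (r * δ)) (r * δ) (1 / 20) (3 / 5)) =
      3 * (LvF r δ η g q * √(1 + 1 / mm (r * δ) ^ 2) *
        red r (mm (r * δ)) (r * δ) (1 / 20) (3 / 5)) := by ring
  rw [e]
  linarith

/-- REST, `Γ ≥ 20`, `h²/R ≤ 11/10`, `|η| ≤ (3/5) h`, level `g ≤ 6/5`, `d = 53/100` (left side, `Dm_53`). -/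
theorem rest_CL {r δ η g q h : ℝ} (hr : 499 / 10 ≤ r) (hδ : 0 < δ) (hq0 : 0 ≤ q) (hq : q ≤ 2)
    (hg0 : 0 ≤ g) (hg : g ≤ 6 / 5) (hh : 0 < h) (hh2 : h ≤ 21 / 10) (hη : |η| ≤ 3 / 5 * h)
    (hG : 20 ≤ r * h ^ 2 / RR r δ) (hY : h ^ 2 / RR r δ ≤ 11 / 10) :
    LvF r δ η g q * √(1 + 1 / mm (r * δ) ^ 2) * red r (mm (r * δ)) (r * δ) (1 / 20) (53 / 100) ≤
        1 / 10000 ∧
      LvF r δ η g q * √(1 + 1 / mm (r * δ) ^ 2) *
        (20 * red r (mm (r * δ)) (r * δ) (1 / 20) (53 / 100)) * (RR r δ / h ^ 2) ≤ 17 / 10000 ∧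
      LvF r δ η g q * √(1 + 1 / mm (r * δ) ^ 2) *
        (3 * red r (mm (r * δ)) (r * δ) (1 / 20) (53 / 100)) / (r * h ^ 2 / RR r δ) ≤
          1 / 50000 := by
  have hr0 : 0 < r := by linarith
  obtain ⟨h1, h2⟩ := rest_C (n := 26) (κ := 27 / 125) (Y := 11 / 10) (d := 53 / 100) (η := η)
    (g := g) (q := q) (h := h) hr hδ hq0 hq hh hG hY (by norm_num)
    (C_aux hr0 hη hg0 (by nlinarith)) (by norm_num) (by norm_num)
  have h3 : (10488 / 10000 : ℝ) ≤ √(11 / 10) := sq_ge (by norm_num)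
  have h6 : 41 / 2 * (h / √(11 / 10)) * (1 / 1.6487) ^ 26 ≤
      41 / 2 * (21 / 10 / (10488 / 10000)) * (1 / 1.6487) ^ 26 := by gcongr
  have h7 : 410 * (h / (11 / 10 * √(11 / 10))) * (1 / 1.6487) ^ 26 ≤
      410 * (21 / 10 / (11 / 10 * (10488 / 10000))) * (1 / 1.6487) ^ 26 := by gcongr
  have h8 := (h1.trans h6).trans (show 41 / 2 * (21 / 10 / (10488 / 10000)) * (1 / 1.6487) ^ 26 ≤
    (1 / 10000 : ℝ) by norm_num)
  refine ⟨h8, (h2.trans h7).trans (by norm_num), ?_⟩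
  rw [div_le_iff₀ (by linarith)]
  have e : LvF r δ η g q * √(1 + 1 / mm (r * δ) ^ 2) *
      (3 * red r (mm (r * δ)) (r * δ) (1 / 20) (53 / 100)) =
      3 * (LvF r δ η g q * √(1 + 1 / mm (r * δ) ^ 2) *
        red r (mm (r * δ)) (r * δ) (1 / 20) (53 / 100)) := by ring
  rw [e]
  linarith

end SokalCen
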