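import Pool.Agent.Lib_MP_af4de1_v3.CenFarReal
import Pool.Agent.Lib_MP_af4de1_v3.RestNum
import Pool.Agent.Lib_MP_af4de1_v3.CenZ6R

/-!
# CEN: rest and far as ONE zone, with the bounds in units of `PF`

`UB N r δ η g q θ S b0 bW be` : some zone `(u0, uW, ue)` on `S` (base point `1`) with
`PF u0 ≤ b0`, `PF uW R/h² ≤ bW`, `PF ue/Γ ≤ be`.
`uL_*` : left set, `θ = t`; `uR_*` : right set, `θ = -t`; `|η| + h ≤ t ≤ π`.
-/

set_option autoImplicit false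

namespace SokalCen

open Real MeasureTheory Set SokalV3 SokalF1

/-- A zone on `S` with the three bounds. -/
def UB (N : ℕ) (r δ η g q θ : ℝ) (S : Set ℝ) (b0 bW be : ℝ) : Prop :=
  ∃ u0 uW ue : ℝ, 0 ≤ u0 ∧ 0 ≤ uW ∧ 0 ≤ ue ∧
    Zone r (mm (r * δ)) (r * δ) θ 1 S u0 uW ue ∧
    PF r δ η g q * u0 ≤ b0 ∧
    PF r δ η g q * uW * (RR r δ / hst N ^ 2) ≤ bW ∧
    PF r δ η g q * ue / Gm N r δ ≤ be

theorem UB.union {N : ℕ} {r δ η g q θ b0 bW be c0 cW ce : ℝ} {S T : Set ℝ}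
    (h : UB N r δ η g q θ S b0 bW be) (h' : UB N r δ η g q θ T c0 cW ce) :
    UB N r δ η g q θ (S ∪ T) (b0 + c0) (bW + cW) (be + ce) := by
  obtain ⟨u0, uW, ue, a0, a1, a2, z, e0, e1, e2⟩ := h
  obtain ⟨v0, vW, ve, b0, b1, b2, z', f0, f1, f2⟩ := h'
  refine ⟨u0 + v0, uW + vW, ue + ve, add_nonneg a0 b0, add_nonneg a1 b1, add_nonneg a2 b2,
    z.union z' a0 a1 a2 b0 b1 b2, ?_, ?_, ?_⟩
  · rw [mul_add]
    exact add_le_add e0 f0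
  · rw [mul_add, add_mul]
    exact add_le_add e1 f1
  · rw [mul_add, add_div]
    exact add_le_add e2 f2

theorem UB.mono {N : ℕ} {r δ η g q θ b0 bW be c0 cW ce : ℝ} {S T : Set ℝ}
    (h : UB N r δ η g q θ T b0 bW be) (hST : S ⊆ T) (h0 : b0 ≤ c0) (h1 : bW ≤ cW)
    (h2 : be ≤ ce) : UB N r δ η g q θ S c0 cW ce := by
  obtain ⟨u0, uW, ue, a0, a1, a2, z, e0, e1, e2⟩ := h
  exact ⟨u0, uW, ue, a0, a1, a2, z.subset hST, e0.trans h0, e1.trans h1, e2.trans h2⟩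

/-- the rest of the line, left -/
def UsL (t : ℝ) : Set ℝ :=
  {s | 6336 / 10000 ≤ 1 - cos (t + s)} ∪ Ici (2 * π - t + 5) ∪ Iic (-(t + 5))

/-- the rest of the line, right -/
def UsR (t : ℝ) : Set ℝ :=
  {s | 6336 / 10000 ≤ 1 - cos (-t + s)} ∪ (Ici (t + 5) ∪ Iic (-(2 * π - t + 5)))

theorem far_UB {N : ℕ} {r δ η g q c1 c2 : ℝ} (hR : Reg1 N r δ) (hη : |η| ≤ 3 / 4 * hst N)
    (hg : g ≤ 9 / 5) (hq : q ≤ 33 / 20) (h1 : 5 + |η| + hst N ≤ c1)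
    (h2 : 5 + |η| + hst N ≤ c2) (θ : ℝ) :
    UB N r δ η g q θ (Ici c1 ∪ Iic (-c2)) (1 / 500000) (1 / 100000) (1 / 2500000) :=
  far_ex hR hη hg hq h1 h2 θ

section

variable {N : ℕ} {r δ η g q : ℝ}

theorem u_h (hR : Reg1 N r δ) : 0 < hst N ∧ hst N ≤ 21 / 10 := by
  have hN3 : (3 : ℝ) ≤ N := by exact_mod_cast hR.N3
  have hN0 : (0 : ℝ) < N := by linarith
  have hpi := Real.pi_lt_d4
  have hpi0 := Real.pi_pos
  unfold hst
  refine ⟨by positivity, ?_⟩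
  have : 2 * π / N ≤ 2 * π / 3 := div_le_div_of_nonneg_left (by positivity) (by norm_num) hN3
  linarith

theorem u_m {ρ : ℝ} (hρ : 0 < ρ) : 5 / 4 * ρ ≤ mm ρ := by
  unfold mm
  have : ρ ≤ √(1 + ρ ^ 2) := Real.le_sqrt_of_sq_le (by linarith)
  linarith

/-- the rest zone from `Zr_gen` -/
private theorem rest_UB {θ d b0 bW be : ℝ} {S : Set ℝ} (mS : MeasurableSet S)
    (hR : Reg1 N r δ) (hd : ∀ s ∈ S, d ≤ Dm (mm (r * δ)) (r * δ) θ s)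
    (h : LvF r δ η g q * √(1 + 1 / mm (r * δ) ^ 2) * red r (mm (r * δ)) (r * δ) (1 / 20) d ≤ b0 ∧
      LvF r δ η g q * √(1 + 1 / mm (r * δ) ^ 2) *
        (20 * red r (mm (r * δ)) (r * δ) (1 / 20) d) * (RR r δ / hst N ^ 2) ≤ bW ∧
      LvF r δ η g q * √(1 + 1 / mm (r * δ) ^ 2) *
        (3 * red r (mm (r * δ)) (r * δ) (1 / 20) d) / (r * hst N ^ 2 / RR r δ) ≤ be) :
    UB N r δ η g q θ S b0 bW be := by
  have hr0 : 0 < r := by linarith [hR.r0]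
  have hρ : 0 < r * δ := mul_pos hr0 hR.d0
  have hm := u_m hρ
  have hm0 : 0 < mm (r * δ) := by linarith
  have hre : 0 ≤ red r (mm (r * δ)) (r * δ) (1 / 20) d := by
    unfold red laR
    positivity
  refine ⟨_, _, _, hre, by positivity, by positivity,
    Zr_gen mS hr0 hρ hm (by norm_num) (by norm_num) (by rw [norm_one]; norm_num) hd, h⟩

theorem mS_rest (θ : ℝ) : MeasurableSet {s : ℝ | 6336 / 10000 ≤ 1 - cos (θ + s)} :=
  measurableSet_le measurable_const (by fun_prop)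

/-! ## the two sets -/

theorem u_left {t b0 bW be : ℝ} (hR : Reg1 N r δ) (hη : |η| ≤ 3 / 4 * hst N)
    (hg : g ≤ 9 / 5) (hq : q ≤ 33 / 20) (ht : |η| + hst N ≤ t) (htp : t ≤ π)
    (h : UB N r δ η g q t {s | 6336 / 10000 ≤ 1 - cos (t + s)} b0 bW be) :
    UB N r δ η g q t (UsL t) (b0 + 1 / 500000) (bW + 1 / 100000) (be + 1 / 2500000) := by
  refine (h.union (far_UB hR hη hg hq (c1 := 2 * π - t + 5) (c2 := t + 5) (by linarith)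
    (by linarith) t)).mono ?_ le_rfl le_rfl le_rfl
  unfold UsL
  rw [union_assoc]

theorem u_right {t b0 bW be : ℝ} (hR : Reg1 N r δ) (hη : |η| ≤ 3 / 4 * hst N)
    (hg : g ≤ 9 / 5) (hq : q ≤ 33 / 20) (ht : |η| + hst N ≤ t) (htp : t ≤ π)
    (h : UB N r δ η g q (-t) {s | 6336 / 10000 ≤ 1 - cos (-t + s)} b0 bW be) :
    UB N r δ η g q (-t) (UsR t) (b0 + 1 / 500000) (bW + 1 / 100000) (be + 1 / 2500000) :=
  h.union (far_UB hR hη hg hq (c1 := t + 5) (c2 := 2 * π - t + 5) (by linarith)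
    (by linarith) (-t))

/-! ## `Γ < 10` -/

theorem uA (hR : Reg1 N r δ) (hG : Gm N r δ ≤ 10) (hη : |η| ≤ 3 / 4 * hst N)
    (hg : g ≤ 6 / 5) (hq0 : 0 ≤ q) (hq : q ≤ 33 / 20) (θ : ℝ) :
    UB N r δ η g q θ {s | 6336 / 10000 ≤ 1 - cos (θ + s)} (1 / 1000000) (1 / 10000)
      (1 / 1000000) := by
  obtain ⟨hh0, hh1⟩ := u_h hR
  have hr0 : 0 < r := by linarith [hR.r0]
  have hρ : 0 < r * δ := mul_pos hr0 hR.d0
  have h := rest_A (q := q) hR.r0 hR.d0 hq0 (by linarith) hg hh0 hh1 hη hR.G hG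
  rw [← red_half] at h
  exact rest_UB (mS_rest θ) hR (fun s hs => Dm_half hρ (u_m hρ) hs) h

/-- LEFT, `Γ < 10` -/
theorem uL_A {t : ℝ} (hR : Reg1 N r δ) (hG : Gm N r δ ≤ 10) (hη : |η| ≤ 3 / 4 * hst N)
    (hg : g ≤ 6 / 5) (hq0 : 0 ≤ q) (hq : q ≤ 33 / 20) (ht : |η| + hst N ≤ t) (htp : t ≤ π) :
    UB N r δ η g q t (UsL t) (1 / 300000) (1 / 9000) (1 / 700000) :=
  (u_left hR hη (by linarith) hq ht htp (uA hR hG hη hg hq0 hq t)).mono subset_rfl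
    (by norm_num) (by norm_num) (by norm_num)

/-- RIGHT, `Γ < 10` -/
theorem uR_A {t : ℝ} (hR : Reg1 N r δ) (hG : Gm N r δ ≤ 10) (hη : |η| ≤ 3 / 4 * hst N)
    (hg : g ≤ 6 / 5) (hq0 : 0 ≤ q) (hq : q ≤ 33 / 20) (ht : |η| + hst N ≤ t) (htp : t ≤ π) :
    UB N r δ η g q (-t) (UsR t) (1 / 300000) (1 / 9000) (1 / 700000) :=
  (u_right hR hη (by linarith) hq ht htp (uA hR hG hη hg hq0 hq (-t))).mono subset_rfl
    (by norm_num) (by norm_num) (by norm_num)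

/-! ## `10 ≤ Γ ≤ 20` -/

theorem uB (hR : Reg1 N r δ) (hG : 10 ≤ Gm N r δ) (hG2 : Gm N r δ ≤ 20)
    (hη : |η| ≤ 13 / 20 * hst N) (hg : g ≤ 13 / 10) (hq0 : 0 ≤ q) (hq : q ≤ 33 / 20) (θ : ℝ) :
    UB N r δ η g q θ {s | 6336 / 10000 ≤ 1 - cos (θ + s)} (1 / 500000) (1 / 5000)
      (1 / 1000000) := by
  obtain ⟨hh0, hh1⟩ := u_h hR
  have hr0 : 0 < r := by linarith [hR.r0]
  have hρ : 0 < r * δ := mul_pos hr0 hR.d0
  have h := rest_B (q := q) hR.r0 hR.d0 hq0 (by linarith) hg hh0 hh1 hη hG hG2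
  rw [← red_half] at h
  exact rest_UB (mS_rest θ) hR (fun s hs => Dm_half hρ (u_m hρ) hs) h

/-- LEFT, `10 ≤ Γ ≤ 20` -/
theorem uL_B {t : ℝ} (hR : Reg1 N r δ) (hG : 10 ≤ Gm N r δ) (hG2 : Gm N r δ ≤ 20)
    (hη : |η| ≤ 13 / 20 * hst N) (hg : g ≤ 13 / 10) (hq0 : 0 ≤ q) (hq : q ≤ 33 / 20)
    (ht : |η| + hst N ≤ t) (htp : t ≤ π) :
    UB N r δ η g q t (UsL t) (1 / 250000) (1 / 4700) (1 / 700000) :=
  (u_left hR (hη.trans (by linarith [(u_h hR).1])) (by linarith) hq ht htp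
    (uB hR hG hG2 hη hg hq0 hq t)).mono subset_rfl (by norm_num) (by norm_num) (by norm_num)

/-- RIGHT, `10 ≤ Γ ≤ 20` -/
theorem uR_B {t : ℝ} (hR : Reg1 N r δ) (hG : 10 ≤ Gm N r δ) (hG2 : Gm N r δ ≤ 20)
    (hη : |η| ≤ 13 / 20 * hst N) (hg : g ≤ 13 / 10) (hq0 : 0 ≤ q) (hq : q ≤ 33 / 20)
    (ht : |η| + hst N ≤ t) (htp : t ≤ π) :
    UB N r δ η g q (-t) (UsR t) (1 / 250000) (1 / 4700) (1 / 700000) :=
  (u_right hR (hη.trans (by linarith [(u_h hR).1])) (by linarith) hq ht htp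
    (uB hR hG hG2 hη hg hq0 hq (-t))).mono subset_rfl (by norm_num) (by norm_num) (by norm_num)

/-! ## `20 ≤ Γ`, left -/

/-- LEFT, `20 ≤ Γ` -/
theorem uL_C {t : ℝ} (hR : Reg1 N r δ) (hG : 20 ≤ Gm N r δ)
    (hη : |η| ≤ 3 / 5 * hst N) (hg0 : 0 ≤ g) (hg : g ≤ 6 / 5) (hq0 : 0 ≤ q) (hq : q ≤ 33 / 20)
    (ht : |η| + hst N ≤ t) (htp : t ≤ π) :
    UB N r δ η g q t (UsL t) (1 / 9000) (18 / 10000) (1 / 40000) := by
  obtain ⟨hh0, hh1⟩ := u_h hR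
  have hr0 : 0 < r := by linarith [hR.r0]
  have hρ : 0 < r * δ := mul_pos hr0 hR.d0
  have hRp : 0 < RR r δ := by unfold RR; positivity
  have hY : hst N ^ 2 / RR r δ ≤ 11 / 10 := by
    rw [div_le_iff₀ hRp]
    exact hR.I
  have h := rest_CL (q := q) hR.r0 hR.d0 hq0 (by linarith) hg0 hg hh0 hh1 hη hG hY
  exact (u_left hR (hη.trans (by linarith)) (by linarith) hq ht htp
    (rest_UB (mS_rest t) hR (fun s hs => Dm_53 hρ (u_m hρ) hs) h)).mono subset_rfl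
    (by norm_num) (by norm_num) (by norm_num)

end

end SokalCen
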