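import Pool.Agent.Lib_MP_af4de1_v3.BrL3
import Pool.Agent.Lib_MP_af4de1_v3.CenUReal

/-!
# Bridge, left side: the last step from the scaled numbers to `Shf` (helper6)

`brL_reg` : regime I, `0 ≤ η`, any shift `ζ ≥ hst N` with `η + ζ ≤ π`; the scaled variables are taken with `h = ζ`.
`brL_h` : `ζ = hst N`, `H = HH N r δ`.
-/

set_option autoImplicit false

namespace SokalCel

open SokalFN SokalU SokalF1 SokalF1S SokalF1M SokalV3 SokalCen Real MeasureTheory Set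

theorem y_nonneg {r δ y η : ℝ} (h : At r δ y η) (hη : 0 ≤ η) : 0 ≤ y := by
  by_contra hcon
  push Not at hcon
  have h1 := sE_strictMonoOn h.dom (dom_zero h.dom.1) h.y1.le ⟨le_rfl, hcon.le⟩ ⟨hcon.le, le_rfl⟩ hcon
  rw [sE_zero h.dom.1, h.eta] at h1
  linarith

/-- `1 ≤ r m sin t` for `h ≤ t ≤ 6/5` -/
theorem front_sin {N : ℕ} {r δ t : ℝ} (hR : Reg1 N r δ) (h1 : hst N ≤ t) (h2 : t ≤ 6 / 5) :
    1 ≤ r * mm (r * δ) * Real.sin t := by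
  have hh := hst_pos3 hR.N3
  have hr : 0 < r := by linarith [hR.r0]
  have hm : 5 / 4 ≤ mm (r * δ) := mm_ge
  have ht : 0 < t := by linarith
  have hpi := Real.pi_gt_three
  have hpi4 := Real.pi_lt_four
  have hs := Real.mul_le_sin ht.le (by linarith)
  have hs2 : 1 / 2 * t ≤ Real.sin t := by
    refine le_trans ?_ hs
    refine mul_le_mul_of_nonneg_right ?_ ht.le
    rw [div_le_div_iff₀ (by norm_num) (by linarith)]
    linarith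
  have hRR : 1 ≤ RR r δ := by
    unfold RR
    nlinarith [sq_nonneg (r * δ)]
  have hG := hR.G
  unfold Gm at hG
  rw [le_div_iff₀ (by linarith)] at hG
  have k1 : 27 / 5 ≤ r * hst N ^ 2 := by nlinarith
  have k2 : r * hst N ^ 2 ≤ r * hst N * (6 / 5) := by
    have : hst N ≤ 6 / 5 := by linarith
    nlinarith [mul_pos hr hh]
  have k3 : 9 / 2 ≤ r * hst N := by linarith
  have k4 : r * hst N ≤ r * t := mul_le_mul_of_nonneg_left h1 hr.le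
  have k5 : r * (5 / 4) ≤ r * mm (r * δ) := mul_le_mul_of_nonneg_left hm hr.le
  have hs0 : 0 ≤ Real.sin t := le_trans (by positivity) hs2
  calc (1 : ℝ) ≤ r * (5 / 4) * (1 / 2 * t) := by nlinarith
    _ ≤ r * mm (r * δ) * Real.sin t := mul_le_mul k5 hs2 (by positivity) (by positivity)

theorem win_b {t : ℝ} (h0 : 0 < t) (h1 : t ≤ π) : Win (bq t) t := win_t h0 h1

/-- THE BRIDGE, LEFT, regime I, any shift `ζ ≥ hst N` (scaled variables with `h = ζ`). -/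
theorem brL_reg {N : ℕ} {r δ y η ζ g k q c ν τ Γ β σ F0 FW U0 UW UE M0 MW O0 OW OE f0 f1 f2 : ℝ}
    (hR : Reg1 N r δ) (hA : At r δ y η) (hη : 0 ≤ η) (hL : Lev r δ y η g k q) (hk : 0 ≤ k)
    (hq : 0 ≤ q) (hζ : hst N ≤ ζ) (hπ : η + ζ ≤ π) (s : Scl0 r δ η c ν ζ τ Γ)
    (hβ : 0 < β) (hW : Win β ((1 + τ) * ζ)) (hσ0 : 0 ≤ σ) (hσ1 : σ ≤ 1)
    (hu : UB N r δ η g q (η + ζ) (UsL (η + ζ)) U0 UW UE)
    (n0 : 0 ≤ F0) (n1 : 0 ≤ FW)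
    (hF : (1 + τ) * ζ ≤ 6 / 5 → LF0 (5 / 4) q g c ν ζ τ Γ ≤ F0 ∧
      LF0 (5 / 4) q g c ν ζ τ Γ * (LFW (5 / 4) c ν τ Γ / c ^ 2) ≤ FW)
    (hM0 : z0 (5 / 4) q g c ν τ Γ (1 + τ) (La (5 / 4) ν (LT (5 / 4) c ζ τ))
      (LB (5 / 4) c ζ τ β σ) (Ll (5 / 4) c ζ τ β σ) ≤ M0)
    (hMW : zW (5 / 4) q g c ν τ Γ (1 + τ) (La (5 / 4) ν (LT (5 / 4) c ζ τ))
      (LB (5 / 4) c ζ τ β σ) (Ll (5 / 4) c ζ τ β σ) 0 (1 / (5 / 4) ^ 2) 1 ≤ MW)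
    (hO0 : LB0 (5 / 4) q g c ν ζ τ Γ + F0 +
        z0 (5 / 4) q g c ν τ Γ (Ltp ζ τ / ζ) (Lr (5 / 4) ν (LTp (5 / 4) c ζ τ)) (11 / 25) 0 +
        LJ0 (5 / 4) q g c ν ζ τ Γ + U0 ≤ O0)
    (hOW : LB0 (5 / 4) q g c ν ζ τ Γ * LBW (5 / 4) c ν ζ τ Γ + FW +
        zW (5 / 4) q g c ν τ Γ (Ltp ζ τ / ζ) (Lr (5 / 4) ν (LTp (5 / 4) c ζ τ)) (11 / 25) 0 0
          (eS (min 1 (LTp (5 / 4) c ζ τ)) ^ 2 / (5 / 4) ^ 2) (exp (min 1 (LTp (5 / 4) c ζ τ))) +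
        LJ0 (5 / 4) q g c ν ζ τ Γ * LJW (5 / 4) c ν ζ τ Γ + UW ≤ OW)
    (hOE : (LB0 (5 / 4) q g c ν ζ τ Γ + F0 +
        exp (min 1 (LTp (5 / 4) c ζ τ)) *
          z0 (5 / 4) q g c ν τ Γ (Ltp ζ τ / ζ) (Lr (5 / 4) ν (LTp (5 / 4) c ζ τ)) (11 / 25) 0 +
        Le (5 / 4) c ζ τ * LJ0 (5 / 4) q g c ν ζ τ Γ) / Γ + UE ≤ OE)
    (hf0 : M0 + O0 ≤ f0)
    (hf1 : √((M0 + O0) * (MW + (k * τ) ^ 2 * M0 + (√OW + k * τ * √O0) ^ 2)) ≤ f1)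
    (hf2 : MW + (k * τ) ^ 2 * M0 + (√OW + k * τ * √O0) ^ 2 + M0 / Γ + OE ≤ f2) :
    Shf r δ y ζ (r * (ζ * c)) f0 f1 f2 := by
  have hh := hst_pos3 hR.N3
  have h4 := s.h0
  have h5 := s.u0
  have hr := s.rpos
  have hΓ := s.Gpos
  have hρ := s.rho0
  have hη' : η = τ * ζ := by rw [← s.eη, abs_of_nonneg hη]
  have hθ : η + ζ = (1 + τ) * ζ := by rw [hη']; ring
  have hm5 : 5 / 4 * (r * δ) ≤ mm (r * δ) := mm_ge'
  have hm : r * δ ≤ mm (r * δ) := by linarith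
  have hP := PF_nonneg r δ η g q
  obtain ⟨u0, uW, ue, a0, a1, a2, Z, e0, e1, e2⟩ := hu
  rw [hθ] at Z hπ
  unfold UsL at Z
  -- the units
  have hRp : 0 < RR r δ := by unfold RR; positivity
  have k1 : PF r δ η g q * uW * (RR r δ / ζ ^ 2) ≤ UW := by
    refine le_trans ?_ e1
    refine mul_le_mul_of_nonneg_left ?_ (mul_nonneg hP a1)
    refine div_le_div_of_nonneg_left hRp.le (by positivity) ?_
    exact pow_le_pow_left₀ hh.le hζ 2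
  have hG : Gm N r δ ≤ Γ := by
    rw [s.Gr]
    unfold Gm
    rw [s.eRR]
    have hc := s.c0
    have e : r * hst N ^ 2 / (1 / c ^ 2) = r * (hst N * c) ^ 2 := by field_simp
    rw [e]
    refine mul_le_mul_of_nonneg_left ?_ hr.le
    exact pow_le_pow_left₀ (by positivity) (mul_le_mul_of_nonneg_right hζ hc.le) 2
  have hG0 : 0 < Gm N r δ := by linarith [hR.G]
  have k2 : PF r δ η g q * ue / Γ ≤ UE := by
    refine le_trans ?_ e2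
    exact div_le_div_of_nonneg_left (mul_nonneg hP a2) hG0 hG
  obtain ⟨o0, oW, oE⟩ := s.oth (u := (u0, uW, ue)) (g := g) hq hπ n0 n1 hF e0 k1 k2
  obtain ⟨m0, mW⟩ := s.mainL (g := g) (q := q) (B := LB (5 / 4) c ζ τ β σ)
    (l := Ll (5 / 4) c ζ τ β σ) hq (by unfold LB; positivity)
  exact brL_num s hR.d0 hA (y_nonneg hA hη) hL hk hθ hπ hW (s.lft hβ hσ0 hσ1)
    (fun h => front_sin hR (by rw [← hθ]; linarith) h)
    (zn_imgk hr hρ hm hπ) ⟨⟨a0, a1, a2⟩, Z⟩ (m0.le.trans hM0) (mW.le.trans hMW) (o0.trans hO0)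
    (oW.trans hOW) (oE.trans hOE) hf0 hf1 hf2

end SokalCel
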