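import Pool.Agent.Lib_MP_af4de1_v3.CelL3

/-!
# Cells: the truncated Gaussian `g0`, `gW` in scaled variables (used for the main part and for the image)

`a = ν α` (`A = α c²`), `Q = a c² + ν B`, `x = t/h`, `m = min 1 (a c x √(4 Γ/(π ν Q)))`:
`P g0 = √(q V/(2 Q)) (1+m)/2 e^(-Γ (Z x² - E))`.
-/

set_option autoImplicit false

namespace SokalCel

open SokalFN

/-- `Q` -/
noncomputable def gQ (c ν a B : ℝ) : ℝ := a * c ^ 2 + ν * B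

/-- relative width to the right of the centre -/
noncomputable def gm (c ν a B x Γ : ℝ) : ℝ := min 1 (a * c * x * √(4 / Real.pi * Γ / (ν * gQ c ν a B)))

/-- `P g0` -/
noncomputable def gF0 (qV c ν a B x Γ Z E : ℝ) : ℝ :=
  √(qV / (2 * gQ c ν a B)) * ((1 + gm c ν a B x Γ) / 2) * Real.exp (-(Γ * (Z * x ^ 2 - E)))

/-- full weight -/
noncomputable def gWf (μ c ν a B x Γ w1 w2 : ℝ) : ℝ :=
  w1 * (x * (ν * B / gQ c ν a B)) ^ 2 / μ ^ 2 + w2 * (x * (a * c / gQ c ν a B)) ^ 2 +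
    (w1 * c ^ 2 / μ ^ 2 + w2) * (ν / (Γ * gQ c ν a B)) / 2

/-- truncated weight -/
noncomputable def gWt (μ c ν a B x Γ w1 w2 : ℝ) : ℝ :=
  (1 + gm c ν a B x Γ) / 2 * (w1 * x ^ 2 / μ ^ 2 + w2 * (x * (a * c / gQ c ν a B)) ^ 2) +
    (w1 * c ^ 2 / μ ^ 2 + w2) * (ν / (Γ * gQ c ν a B)) / 4 +
    w2 * (x * (a * c / gQ c ν a B)) * √(ν / (Γ * gQ c ν a B) * (1 / Real.pi))

/-- `P gW R/h²` (upper bound) -/
noncomputable def gFW (qV μ c ν a B x Γ Z E w1 w2 : ℝ) : ℝ :=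
  √(qV / (2 * gQ c ν a B)) * Real.exp (-(Γ * (Z * x ^ 2 - E))) *
    min (gWf μ c ν a B x Γ w1 w2) (gWt μ c ν a B x Γ w1 w2)

/-! ### monotonicity in `x` and `Γ` -/

theorem exp_mono_G {Γ Γ0 e : ℝ} (h : Γ0 ≤ Γ) (he : 0 ≤ e) :
    Real.exp (-(Γ * e)) ≤ Real.exp (-(Γ0 * e)) :=
  Real.exp_le_exp.2 (neg_le_neg (mul_le_mul_of_nonneg_right h he))

theorem sqrt_mono_G {Γ Γ0 e : ℝ} (h0 : 0 < Γ0) (h : Γ0 ≤ Γ) (he : 1 ≤ 2 * (Γ0 * e)) :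
    √(Γ / Γ0) * Real.exp (-(Γ * e)) ≤ Real.exp (-(Γ0 * e)) := by
  have h1 : √(Γ / Γ0) ≤ Real.exp ((Γ / Γ0 - 1) / 2) := by
    rw [Real.sqrt_le_left (Real.exp_pos _).le, ← Real.exp_nat_mul]
    have := Real.add_one_le_exp (Γ / Γ0 - 1)
    have e1 : ((2 : ℕ) : ℝ) * ((Γ / Γ0 - 1) / 2) = Γ / Γ0 - 1 := by push_cast; ring
    rw [e1]
    linarith
  have h2 : (Γ / Γ0 - 1) / 2 ≤ Γ * e - Γ0 * e := by
    have e1 : Γ * e - Γ0 * e = (Γ / Γ0 - 1) * (Γ0 * e) := by field_simp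
    rw [e1]
    have h3 : 0 ≤ Γ / Γ0 - 1 := by
      rw [sub_nonneg, le_div_iff₀ h0]; linarith
    nlinarith
  have h3 : Real.exp (-(Γ0 * e)) = Real.exp (Γ * e - Γ0 * e) * Real.exp (-(Γ * e)) := by
    rw [← Real.exp_add]; congr 1; ring
  rw [h3]
  exact mul_le_mul_of_nonneg_right (h1.trans (Real.exp_le_exp.2 h2)) (Real.exp_pos _).le

/-- powers -/
theorem pw_mono {x x0 Γ Γ0 Z E : ℝ} (hx0 : 0 < x0) (hx : x0 ≤ x) (hG : Γ0 ≤ Γ)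
    (hZ : 0 ≤ Z) (p : ℕ) (h : p ≤ 2 * (Γ0 * (Z * x0 ^ 2))) (hE : E ≤ Z * x0 ^ 2) :
    x ^ p * Real.exp (-(Γ * (Z * x ^ 2 - E))) ≤ x0 ^ p * Real.exp (-(Γ0 * (Z * x0 ^ 2 - E))) := by
  have h1 := img_mono (Γ := Γ) (Z := Z) (E := E) hx0 hx p (by
    have : Γ0 * (Z * x0 ^ 2) ≤ Γ * (Z * x0 ^ 2) := mul_le_mul_of_nonneg_right hG (by positivity)
    nlinarith)
  refine h1.trans (mul_le_mul_of_nonneg_left (exp_mono_G hG (by linarith)) (by positivity))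

/-- the truncation factor -/
theorem min_scale {f k : ℝ} (hf : 1 ≤ f) : min 1 (f * k) ≤ f * min 1 k := by
  rcases le_total 1 k with h | h
  · rw [min_eq_left h, mul_one]
    exact (min_le_left _ _).trans hf
  · rw [min_eq_right h]
    exact min_le_right _ _

theorem mn_mono {x x0 Γ Γ0 Z E κ : ℝ} (hx0 : 0 < x0) (hx : x0 ≤ x) (hG0 : 0 < Γ0) (hG : Γ0 ≤ Γ)
    (hZ : 0 ≤ Z) (hκ : 0 ≤ κ) (p : ℕ) (h : p + 1 ≤ 2 * (Γ0 * (Z * x0 ^ 2)))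
    (he : 1 ≤ 2 * (Γ0 * (Z * x0 ^ 2 - E))) :
    min 1 (κ * x * √Γ) * (x ^ p * Real.exp (-(Γ * (Z * x ^ 2 - E)))) ≤
      min 1 (κ * x0 * √Γ0) * (x0 ^ p * Real.exp (-(Γ0 * (Z * x0 ^ 2 - E)))) := by
  have hx' : 0 < x := hx0.trans_le hx
  have hG' : 0 < Γ := hG0.trans_le hG
  have hs0 : 0 < √Γ0 := Real.sqrt_pos.2 hG0
  obtain ⟨f, hf⟩ : ∃ f, f = x / x0 * √(Γ / Γ0) := ⟨_, rfl⟩
  have hf1 : 1 ≤ f := by
    rw [hf]
    have h1 : 1 ≤ x / x0 := by rw [le_div_iff₀ hx0]; linarith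
    have h2 : 1 ≤ √(Γ / Γ0) := by
      rw [Real.one_le_sqrt, le_div_iff₀ hG0]; linarith
    nlinarith
  have e1 : κ * x * √Γ = f * (κ * x0 * √Γ0) := by
    rw [hf, Real.sqrt_div hG'.le]
    field_simp
  have h1 := min_scale (k := κ * x0 * √Γ0) hf1
  rw [← e1] at h1
  have h2 := mul_le_mul_of_nonneg_right h1 (by positivity : 0 ≤ x ^ p * Real.exp (-(Γ * (Z * x ^ 2 - E))))
  refine h2.trans ?_
  have h3 := img_mono (Γ := Γ) (Z := Z) (E := E) hx0 hx (p + 1) (by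
    have : Γ0 * (Z * x0 ^ 2) ≤ Γ * (Z * x0 ^ 2) := mul_le_mul_of_nonneg_right hG (by positivity)
    push_cast
    nlinarith)
  have h4 := sqrt_mono_G hG0 hG he
  have hm0 : 0 ≤ min 1 (κ * x0 * √Γ0) := le_min zero_le_one (by positivity)
  have e2 : f * min 1 (κ * x0 * √Γ0) * (x ^ p * Real.exp (-(Γ * (Z * x ^ 2 - E)))) =
      min 1 (κ * x0 * √Γ0) * (√(Γ / Γ0) / x0 * (x ^ (p + 1) * Real.exp (-(Γ * (Z * x ^ 2 - E))))) := by
    rw [hf, pow_succ]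
    field_simp
    try ring
  rw [e2]
  refine mul_le_mul_of_nonneg_left ?_ hm0
  have h5 := mul_le_mul_of_nonneg_left h3 (by positivity : 0 ≤ √(Γ / Γ0) / x0)
  refine h5.trans ?_
  have e3 : √(Γ / Γ0) / x0 * (x0 ^ (p + 1) * Real.exp (-(Γ * (Z * x0 ^ 2 - E)))) =
      x0 ^ p * (√(Γ / Γ0) * Real.exp (-(Γ * (Z * x0 ^ 2 - E)))) := by
    rw [pow_succ]
    field_simp
  rw [e3]
  exact mul_le_mul_of_nonneg_left h4 (by positivity)

theorem gm_eq {c ν a b x Γ κ : ℝ} (h : κ = a * c * √(4 / Real.pi / (ν * gQ c ν a b)))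
    (h0 : 0 ≤ 4 / Real.pi / (ν * gQ c ν a b)) : gm c ν a b x Γ = min 1 (κ * x * √Γ) := by
  unfold gm
  rw [h]
  congr 1
  have : 4 / Real.pi * Γ / (ν * gQ c ν a b) = 4 / Real.pi / (ν * gQ c ν a b) * Γ := by ring
  rw [this, Real.sqrt_mul h0]
  ring

/-- conditions of monotonicity -/
structure Mono (x x0 Γ Γ0 Z E : ℝ) : Prop where
  x0p : 0 < x0
  xx : x0 ≤ x
  G0p : 0 < Γ0
  GG : Γ0 ≤ Γ
  Z0 : 0 ≤ Z
  c3 : 3 ≤ 2 * (Γ0 * (Z * x0 ^ 2))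
  c1 : 1 ≤ 2 * (Γ0 * (Z * x0 ^ 2 - E))

theorem Mono.hE {x x0 Γ Γ0 Z E : ℝ} (h : Mono x x0 Γ Γ0 Z E) : E ≤ Z * x0 ^ 2 := by
  by_contra hc
  push Not at hc
  have h1 := h.c1
  have h2 := h.G0p
  nlinarith

theorem gF0_mono {qV c ν a b x x0 Γ Γ0 Z E : ℝ} (h : Mono x x0 Γ Γ0 Z E) (hc : 0 < c) (hν : 0 < ν)
    (ha : 0 ≤ a) (hb : 0 < b) : gF0 qV c ν a b x Γ Z E ≤ gF0 qV c ν a b x0 Γ0 Z E := by
  have hR : 0 < gQ c ν a b := by unfold gQ; positivity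
  obtain ⟨κ, hκ⟩ : ∃ κ, κ = a * c * √(4 / Real.pi / (ν * gQ c ν a b)) := ⟨_, rfl⟩
  have hκ0 : 0 ≤ κ := by rw [hκ]; positivity
  have hx : 0 ≤ x := h.x0p.le.trans h.xx
  have hp : 0 ≤ 4 / Real.pi / (ν * gQ c ν a b) := by positivity
  have c3 := h.c3
  have p0 := pw_mono (E := E) h.x0p h.xx h.GG h.Z0 0 (by push_cast; linarith) h.hE
  have m0 := mn_mono (E := E) h.x0p h.xx h.G0p h.GG h.Z0 hκ0 0 (by push_cast; linarith) h.c1
  unfold gF0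
  rw [gm_eq hκ hp, gm_eq hκ hp]
  simp only [pow_zero, one_mul] at p0 m0
  have hs : 0 ≤ √(qV / (2 * gQ c ν a b)) := Real.sqrt_nonneg _
  generalize Real.exp (-(Γ * (Z * x ^ 2 - E))) = ex at *
  generalize Real.exp (-(Γ0 * (Z * x0 ^ 2 - E))) = Ex at *
  have k2 : (1 + min 1 (κ * x * √Γ)) / 2 * ex ≤ (1 + min 1 (κ * x0 * √Γ0)) / 2 * Ex := by linarith
  have k3 := mul_le_mul_of_nonneg_left k2 hs
  refine le_trans (le_of_eq ?_) (k3.trans (le_of_eq ?_)) <;> ring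

theorem gFW_mono {qV μ c ν a b x x0 Γ Γ0 Z E v1 v2 : ℝ} (h : Mono x x0 Γ Γ0 Z E) (hc : 0 < c)
    (hν : 0 < ν) (ha : 0 ≤ a) (hb : 0 < b) (h1 : 0 ≤ v1) (h2 : 0 ≤ v2) :
    gFW qV μ c ν a b x Γ Z E v1 v2 ≤ gFW qV μ c ν a b x0 Γ0 Z E v1 v2 := by
  have hR : 0 < gQ c ν a b := by unfold gQ; positivity
  obtain ⟨κ, hκ⟩ : ∃ κ, κ = a * c * √(4 / Real.pi / (ν * gQ c ν a b)) := ⟨_, rfl⟩
  have hκ0 : 0 ≤ κ := by rw [hκ]; positivity
  have hx0 := h.x0p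
  have hx : 0 < x := hx0.trans_le h.xx
  have hΓ : 0 < Γ := h.G0p.trans_le h.GG
  have hΓ0 := h.G0p
  have hp : 0 ≤ 4 / Real.pi / (ν * gQ c ν a b) := by positivity
  have c3 := h.c3
  have p0 := pw_mono (E := E) h.x0p h.xx h.GG h.Z0 0 (by push_cast; linarith) h.hE
  have p1 := pw_mono (E := E) h.x0p h.xx h.GG h.Z0 1 (by push_cast; linarith) h.hE
  have p2 := pw_mono (E := E) h.x0p h.xx h.GG h.Z0 2 (by push_cast; linarith) h.hE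
  have m2 := mn_mono (E := E) h.x0p h.xx h.G0p h.GG h.Z0 hκ0 2 (by push_cast; linarith) h.c1
  unfold gFW gWf gWt
  rw [gm_eq hκ hp, gm_eq hκ hp]
  simp only [pow_zero, one_mul, pow_one] at p0 p1
  have hs : 0 ≤ √(qV / (2 * gQ c ν a b)) := Real.sqrt_nonneg _
  have hex0 : 0 < Real.exp (-(Γ * (Z * x ^ 2 - E))) := Real.exp_pos _
  have hEx0 : 0 < Real.exp (-(Γ0 * (Z * x0 ^ 2 - E))) := Real.exp_pos _
  have hm0 : 0 ≤ min 1 (κ * x * √Γ) := le_min zero_le_one (by positivity)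
  have hM0 : 0 ≤ min 1 (κ * x0 * √Γ0) := le_min zero_le_one (by positivity)
  generalize Real.exp (-(Γ * (Z * x ^ 2 - E))) = ex at *
  generalize Real.exp (-(Γ0 * (Z * x0 ^ 2 - E))) = Ex at *
  generalize min 1 (κ * x * √Γ) = m at *
  generalize min 1 (κ * x0 * √Γ0) = M at *
  generalize gQ c ν a b = R at *
  obtain ⟨O, hO⟩ : ∃ O, O = a * c / R := ⟨_, rfl⟩
  have hO0 : 0 ≤ O := by rw [hO]; positivity
  obtain ⟨L, hL⟩ : ∃ L, L = ν * b / R := ⟨_, rfl⟩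
  have hL0 : 0 ≤ L := by rw [hL]; positivity
  obtain ⟨W, hW⟩ : ∃ W, W = ν / (Γ * R) := ⟨_, rfl⟩
  obtain ⟨W', hW'⟩ : ∃ W', W' = ν / (Γ0 * R) := ⟨_, rfl⟩
  have hWW : W ≤ W' := by
    rw [hW, hW']
    exact div_le_div_of_nonneg_left hν.le (by positivity) (mul_le_mul_of_nonneg_right h.GG hR.le)
  have hWp : 0 ≤ W := by rw [hW]; positivity
  have hW'p : 0 ≤ W' := by rw [hW']; positivity
  obtain ⟨v, hve⟩ : ∃ v, v = v1 * c ^ 2 / μ ^ 2 + v2 := ⟨_, rfl⟩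
  have hv0 : 0 ≤ v := by rw [hve]; positivity
  rw [← hO, ← hL, ← hW, ← hW', ← hve]
  have kf : ex * (v1 * (x * L) ^ 2 / μ ^ 2 + v2 * (x * O) ^ 2 + v * W / 2) ≤
      Ex * (v1 * (x0 * L) ^ 2 / μ ^ 2 + v2 * (x0 * O) ^ 2 + v * W' / 2) := by
    have u1 := mul_le_mul_of_nonneg_left p2 (by positivity : 0 ≤ v1 * L ^ 2 / μ ^ 2 + v2 * O ^ 2)
    have u2 : v * W / 2 * ex ≤ v * W' / 2 * Ex := by
      have : v * W / 2 ≤ v * W' / 2 := by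
        have := mul_le_mul_of_nonneg_left hWW hv0
        linarith
      exact mul_le_mul this p0 hex0.le (by positivity)
    have e1 : ex * (v1 * (x * L) ^ 2 / μ ^ 2 + v2 * (x * O) ^ 2 + v * W / 2) =
        (v1 * L ^ 2 / μ ^ 2 + v2 * O ^ 2) * (x ^ 2 * ex) + v * W / 2 * ex := by ring
    have e2 : Ex * (v1 * (x0 * L) ^ 2 / μ ^ 2 + v2 * (x0 * O) ^ 2 + v * W' / 2) =
        (v1 * L ^ 2 / μ ^ 2 + v2 * O ^ 2) * (x0 ^ 2 * Ex) + v * W' / 2 * Ex := by ring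
    rw [e1, e2]
    linarith
  have kt : ex * ((1 + m) / 2 * (v1 * x ^ 2 / μ ^ 2 + v2 * (x * O) ^ 2) + v * W / 4 +
      v2 * (x * O) * √(W * (1 / Real.pi))) ≤
      Ex * ((1 + M) / 2 * (v1 * x0 ^ 2 / μ ^ 2 + v2 * (x0 * O) ^ 2) + v * W' / 4 +
      v2 * (x0 * O) * √(W' * (1 / Real.pi))) := by
    have u1 := mul_le_mul_of_nonneg_left (add_le_add p2 m2)
      (by positivity : 0 ≤ (v1 / μ ^ 2 + v2 * O ^ 2) / 2)
    have u2 : v * W / 4 * ex ≤ v * W' / 4 * Ex := by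
      have : v * W / 4 ≤ v * W' / 4 := by
        have := mul_le_mul_of_nonneg_left hWW hv0
        linarith
      exact mul_le_mul this p0 hex0.le (by positivity)
    have u3 : v2 * O * √(W * (1 / Real.pi)) * (x * ex) ≤
        v2 * O * √(W' * (1 / Real.pi)) * (x0 * Ex) := by
      have k1 : √(W * (1 / Real.pi)) ≤ √(W' * (1 / Real.pi)) :=
        Real.sqrt_le_sqrt (mul_le_mul_of_nonneg_right hWW (by positivity))
      have k2 : v2 * O * √(W * (1 / Real.pi)) ≤ v2 * O * √(W' * (1 / Real.pi)) :=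
        mul_le_mul_of_nonneg_left k1 (by positivity)
      exact mul_le_mul k2 p1 (by positivity) (by positivity)
    have e1 : ex * ((1 + m) / 2 * (v1 * x ^ 2 / μ ^ 2 + v2 * (x * O) ^ 2) + v * W / 4 +
        v2 * (x * O) * √(W * (1 / Real.pi))) =
        (v1 / μ ^ 2 + v2 * O ^ 2) / 2 * (x ^ 2 * ex + m * (x ^ 2 * ex)) + v * W / 4 * ex +
        v2 * O * √(W * (1 / Real.pi)) * (x * ex) := by ring
    have e2 : Ex * ((1 + M) / 2 * (v1 * x0 ^ 2 / μ ^ 2 + v2 * (x0 * O) ^ 2) + v * W' / 4 +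
        v2 * (x0 * O) * √(W' * (1 / Real.pi))) =
        (v1 / μ ^ 2 + v2 * O ^ 2) / 2 * (x0 ^ 2 * Ex + M * (x0 ^ 2 * Ex)) + v * W' / 4 * Ex +
        v2 * O * √(W' * (1 / Real.pi)) * (x0 * Ex) := by ring
    rw [e1, e2]
    linarith
  rw [mul_assoc, mul_assoc √(qV / (2 * R)) Ex]
  refine mul_le_mul_of_nonneg_left ?_ hs
  rw [mul_min_of_nonneg _ _ hex0.le, mul_min_of_nonneg _ _ hEx0.le]
  exact min_le_min kf kt

/-! ### numbers -/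

/-- upper bound of `gm` at `(fx x0, fx G)` -/
def xmm (A c n : I) (Q1 x0 G : ℕ) : ℕ :=
  bif Nat.blt 0 (mL n.1 Q1) then
    min SC (mU (mU (mU A.2 c.2) x0) (mU (sqU (dU 1399983000000 (mL n.1 Q1))) (sqU G)))
  else SC

theorem four_pi_le : 4 / Real.pi ≤ fx 1399983000000 := by
  have h := Real.pi_gt_d4
  rw [div_le_iff₀ Real.pi_pos]
  unfold fx
  linarith

theorem kk1 {k : ℝ} {A ci : I} {R x0 G : ℕ} {a c : ℝ} (ha : Mem a A) (hc : Mem c ci)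
    (h : k ≤ fx R) : a * c * √k * fx x0 * √(fx G) ≤ fx (mU (mU (mU A.2 ci.2) x0) (mU (sqU R) (sqU G))) := by
  have hc0 := hc.nonneg
  have ha0 := ha.nonneg
  have k2 := mulU (mulU (mulU ha.2 hc.2 hc0) (le_refl (fx x0)) (fx_nonneg _))
    (mulU (sqrtU h) (sqrtU (le_refl (fx G))) (Real.sqrt_nonneg _)) (by positivity)
  refine le_trans (le_of_eq ?_) k2
  ring

theorem kk2 {ν Q : ℝ} {n : I} {Q1 : ℕ} (hn : Mem ν n) (hQ : fx Q1 ≤ Q) (hbl : 0 < mL n.1 Q1) :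
    4 / Real.pi / (ν * Q) ≤ fx (dU 1399983000000 (mL n.1 Q1)) :=
  divU four_pi_le (mulL hn.1 hQ) hbl

theorem kk3 {ν Q : ℝ} {n : I} {Q1 : ℕ} (hn : Mem ν n) (hQ : fx Q1 ≤ Q) : 0 ≤ 4 / Real.pi / (ν * Q) :=
  div_nonneg (by positivity) (mul_nonneg hn.nonneg ((fx_nonneg _).trans hQ))

theorem xmm_le {c ν a b : ℝ} {A ci n : I} {Q1 x0 G : ℕ} (ha : Mem a A) (hc : Mem c ci) (hn : Mem ν n)
    (hQ : fx Q1 ≤ gQ c ν a b) : gm c ν a b (fx x0) (fx G) ≤ fx (xmm A ci n Q1 x0 G) := by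
  unfold xmm
  cases hbl : Nat.blt 0 (mL n.1 Q1) with
  | false =>
    rw [cond_false, fx_one]
    exact min_le_left _ _
  | true =>
    rw [cond_true]
    rw [blt_iff] at hbl
    rw [gm_eq rfl (kk3 hn hQ)]
    exact minU (le_of_eq fx_one.symm) (kk1 ha hc (kk2 hn hQ hbl))

/-- the evaluator; `z` lower bound of `Z`, `x0` lower bound of `x`, `e2` upper bound of `E`, `G` lower bound
of `Γ`, `w1`, `w2` upper bounds of the weights, `V` upper bound of `1 + c²/μ²`, `N2` of `1/μ²`. -/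
def xg (C : Cl) (q V N2 : ℕ) (a B : I) (z x0 e2 G w1 w2 : ℕ) : Option (ℕ × ℕ) :=
  let Q := ia (im a C.c2) (im C.n B)
  let y := mL z (mL x0 x0)
  let w := dU C.n.2 (mL G Q.1)
  let l := dU (mU C.n.2 B.2) Q.1
  let o := dU (mU a.2 C.c.2) Q.1
  bif Nat.blt 0 Q.1 && Nat.blt 0 (mL G Q.1) && Nat.blt 0 x0 && Nat.ble (3 * SC) (2 * mL G y) &&
      Nat.ble e2 y && Nat.ble SC (2 * mL G (y - e2)) then
    let r := (SC + xmm a C.c C.n Q.1 x0 G) / 2 + 1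
    let FE := mU (sqU (mU q (dU V Q.1) / 2 + 1)) (eN (cl (mL G (y - e2))))
    let v := mU (mU w1 C.c2.2) N2 + w2
    let wo := mU w2 (mU (mU x0 o) (mU x0 o))
    let Wf := mU (mU w1 (mU (mU x0 l) (mU x0 l))) N2 + wo + (mU v w / 2 + 1)
    let Wt := mU r (mU (mU w1 (mU x0 x0)) N2 + wo) + (mU v w / 4 + 1) +
      mU (mU w2 (mU x0 o)) (sqU (mU w 350008700000))
    some (mU FE r, mU FE (min Wf Wt))
  else none

/-- `√(q V/(2 Q)) e^(-..)` -/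
theorem FE_le {q c μ R : ℝ} {qn Vn Q1 : ℕ} (hq : q ≤ fx qn)
    (hV : 1 + c ^ 2 / μ ^ 2 ≤ fx Vn) (hR : fx Q1 ≤ R) (hQ0 : 0 < Q1) :
    √(q * (1 + c ^ 2 / μ ^ 2) / (2 * R)) ≤ fx (sqU (mU qn (dU Vn Q1) / 2 + 1)) := by
  apply sqrtU
  have hR0 : 0 < R := (fx_pos hQ0).trans_le hR
  have k1 := half_up (mulU hq (divU hV hR hQ0) (by positivity))
  refine le_trans (le_of_eq ?_) k1
  field_simp

theorem Wf_le {μ c O L W x0 v1 v2 : ℝ} {xn on ln wn w1 w2 N2 cn : ℕ}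
    (hx : 0 ≤ x0) (hO0 : 0 ≤ O) (hL0 : 0 ≤ L) (hW0 : 0 ≤ W)
    (hxn : x0 ≤ fx xn) (hO : O ≤ fx on) (hL : L ≤ fx ln) (hW : W ≤ fx wn) (hv1 : v1 ≤ fx w1)
    (hv2 : v2 ≤ fx w2) (hN2 : 1 / μ ^ 2 ≤ fx N2) (hc2 : c ^ 2 ≤ fx cn) :
    v1 * (x0 * L) ^ 2 / μ ^ 2 + v2 * (x0 * O) ^ 2 + (v1 * c ^ 2 / μ ^ 2 + v2) * W / 2 ≤
      fx (mU (mU w1 (mU (mU xn ln) (mU xn ln))) N2 + mU w2 (mU (mU xn on) (mU xn on)) +
        (mU (mU (mU w1 cn) N2 + w2) wn / 2 + 1)) := by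
  have hXO : x0 * O ≤ fx (mU xn on) := mulU hxn hO hO0
  have hXL : x0 * L ≤ fx (mU xn ln) := mulU hxn hL hL0
  refine addU (addU ?_ ?_) (half_up (mulU (addU ?_ hv2) hW hW0))
  · have k1 := mulU (mulU hv1 (mulU hXL hXL (by positivity)) (by positivity)) hN2 (by positivity)
    refine le_trans (le_of_eq ?_) k1
    ring
  · rw [pow_two]
    exact mulU hv2 (mulU hXO hXO (by positivity)) (by positivity)
  · have k1 := mulU (mulU hv1 hc2 (by positivity)) hN2 (by positivity)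
    refine le_trans (le_of_eq ?_) k1
    ring

theorem Wt_le {μ c M O W x0 v1 v2 : ℝ} {xn on rn wn w1 w2 N2 cn : ℕ}
    (hx : 0 ≤ x0) (hO0 : 0 ≤ O) (hW0 : 0 ≤ W) (h1 : 0 ≤ v1) (h2 : 0 ≤ v2)
    (hxn : x0 ≤ fx xn) (hO : O ≤ fx on) (hM : (1 + M) / 2 ≤ fx rn) (hW : W ≤ fx wn)
    (hv1 : v1 ≤ fx w1) (hv2 : v2 ≤ fx w2) (hN2 : 1 / μ ^ 2 ≤ fx N2) (hc2 : c ^ 2 ≤ fx cn) :
    (1 + M) / 2 * (v1 * x0 ^ 2 / μ ^ 2 + v2 * (x0 * O) ^ 2) + (v1 * c ^ 2 / μ ^ 2 + v2) * W / 4 +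
        v2 * (x0 * O) * √(W * (1 / Real.pi)) ≤
      fx (mU rn (mU (mU w1 (mU xn xn)) N2 + mU w2 (mU (mU xn on) (mU xn on))) +
          (mU (mU (mU w1 cn) N2 + w2) wn / 4 + 1) +
          mU (mU w2 (mU xn on)) (sqU (mU wn 350008700000))) := by
  have hXO : x0 * O ≤ fx (mU xn on) := mulU hxn hO hO0
  refine addU (addU (mulU hM (addU ?_ ?_) (by positivity)) ?_) ?_
  · have k1 := mulU (mulU hv1 (mulU hxn hxn hx) (by positivity)) hN2 (by positivity)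
    refine le_trans (le_of_eq ?_) k1
    ring
  · rw [pow_two]
    exact mulU hv2 (mulU hXO hXO (by positivity)) (by positivity)
  · have k0 : v1 * c ^ 2 / μ ^ 2 + v2 ≤ fx (mU (mU w1 cn) N2 + w2) := by
      refine addU ?_ hv2
      have k1 := mulU (mulU hv1 hc2 (by positivity)) hN2 (by positivity)
      refine le_trans (le_of_eq ?_) k1
      ring
    have k1 := mulU k0 hW hW0
    have k2 := fx_divU (mU (mU (mU w1 cn) N2 + w2) wn) 4 (by norm_num)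
    push_cast at k2
    exact (div_le_div_of_nonneg_right k1 (by norm_num : (0:ℝ) ≤ 4)).trans k2
  · exact mulU (mulU hv2 hXO (by positivity))
      (sqrtU (mulU hW inv_pi_le (by positivity))) (Real.sqrt_nonneg _)

theorem xg_sound {μ q c ν h τ Γ : ℝ} {C : Cl} (hC : C.Has μ c ν h τ)
    {qn Vn N2 : ℕ} {A B : I} {z x0 e2 G w1 w2 : ℕ} {a b x Z E v1 v2 : ℝ}
    (hc : 0 < c) (hν : 0 < ν) (hq : q ≤ fx qn)
    (hV : 1 + c ^ 2 / μ ^ 2 ≤ fx Vn) (hN2 : 1 / μ ^ 2 ≤ fx N2)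
    (ha : Mem a A) (hb : Mem b B) (hb0 : 0 < b) (hz : fx z ≤ Z) (hx : fx x0 ≤ x) (hE : E ≤ fx e2)
    (hG : fx G ≤ Γ) (hv10 : 0 ≤ v1) (hv20 : 0 ≤ v2) (hv1 : v1 ≤ fx w1) (hv2 : v2 ≤ fx w2)
    {r0 r1 : ℕ} (hr : xg C qn Vn N2 A B z x0 e2 G w1 w2 = some (r0, r1)) :
    gF0 (q * (1 + c ^ 2 / μ ^ 2)) c ν a b x Γ Z E ≤ fx r0 ∧
    gFW (q * (1 + c ^ 2 / μ ^ 2)) μ c ν a b x Γ Z E v1 v2 ≤ fx r1 := by
  unfold xg at hr
  simp only at hr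
  have hmQ : Mem (gQ c ν a b) (ia (im A C.c2) (im C.n B)) := (ha.mul hC.hc2).add (hC.hn.mul hb)
  generalize hQe : ia (im A C.c2) (im C.n B) = Q at hr hmQ
  generalize hye : mL z (mL x0 x0) = y at hr
  cases hbb : (Nat.blt 0 Q.1 && Nat.blt 0 (mL G Q.1) && Nat.blt 0 x0 &&
      Nat.ble (3 * SC) (2 * mL G y) && Nat.ble e2 y && Nat.ble SC (2 * mL G (y - e2))) with
  | false => rw [hbb] at hr; simp at hr
  | true =>
    rw [hbb] at hr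
    simp only [cond_true, Option.some.injEq, Prod.mk.injEq] at hr
    obtain ⟨hr0, hr1⟩ := hr
    simp only [Bool.and_eq_true, blt_iff, Nat.ble_eq] at hbb
    obtain ⟨⟨⟨⟨⟨hQ0, hGQ⟩, hx00⟩, h3⟩, hey⟩, h1⟩ := hbb
    have hGpos : 0 < G := by
      rcases Nat.eq_zero_or_pos G with h0 | h0
      · rw [h0] at hGQ; simp [mL] at hGQ
      · exact h0
    have hΓ0 : 0 < fx G := fx_pos hGpos
    have hX0 : 0 < fx x0 := fx_pos hx00
    have ha0 : 0 ≤ a := ha.nonneg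
    have hR0 : 0 < gQ c ν a b := (fx_pos hQ0).trans_le hmQ.1
    have hZ0 : 0 ≤ Z := (fx_nonneg _).trans hz
    have hy1 : fx y ≤ Z * fx x0 ^ 2 := by
      rw [← hye, pow_two]
      exact mulL hz (mL_le _ _)
    have c3 : (3 : ℝ) ≤ 2 * (fx G * (Z * fx x0 ^ 2)) := by
      have k1 : fx (3 * SC) ≤ fx (2 * mL G y) := fx_mono h3
      have k2 : fx (3 * SC) = 3 := by unfold fx SC; norm_num
      have k3 : fx (2 * mL G y) = 2 * fx (mL G y) := by unfold fx; push_cast; ring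
      have k4 := mulL (le_refl (fx G)) hy1
      rw [k2, k3] at k1
      linarith
    have hyE : fx (y - e2) ≤ Z * fx x0 ^ 2 - E := subL hy1 hE hey
    have hGd : fx (mL G (y - e2)) ≤ fx G * (Z * fx x0 ^ 2 - E) := mulL (le_refl _) hyE
    have c1 : (1 : ℝ) ≤ 2 * (fx G * (Z * fx x0 ^ 2 - E)) := by
      have k1 : fx SC ≤ fx (2 * mL G (y - e2)) := fx_mono h1
      have k3 : fx (2 * mL G (y - e2)) = 2 * fx (mL G (y - e2)) := by unfold fx; push_cast; ring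
      rw [fx_one, k3] at k1
      linarith
    have hM : Mono x (fx x0) Γ (fx G) Z E := ⟨hX0, hx, hΓ0, hG, hZ0, c3, c1⟩
    have hEx1 := expCl hGd
    have hS := FE_le hq hV hmQ.1 hQ0
    have hFE := mulU hS hEx1 (Real.exp_pos _).le
    have hmn := xmm_le (x0 := x0) (G := G) ha hC.hc hC.hn hmQ.1
    have hρ : (1 + gm c ν a b (fx x0) (fx G)) / 2 ≤ fx ((SC + xmm A C.c C.n Q.1 x0 G) / 2 + 1) :=
      half_up (addU (le_of_eq fx_one.symm) hmn)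
    have hm0 : 0 ≤ gm c ν a b (fx x0) (fx G) := by
      unfold gm
      exact le_min zero_le_one (by positivity)
    have hO1 : a * c / gQ c ν a b ≤ fx (dU (mU A.2 C.c.2) Q.1) :=
      divU (mulU ha.2 hC.hc.2 hc.le) hmQ.1 hQ0
    have hL1 : ν * b / gQ c ν a b ≤ fx (dU (mU C.n.2 B.2) Q.1) :=
      divU (mulU hC.hn.2 hb.2 hb0.le) hmQ.1 hQ0
    have hW1 : ν / (fx G * gQ c ν a b) ≤ fx (dU C.n.2 (mL G Q.1)) :=
      divU hC.hn.2 (mulL (le_refl _) hmQ.1) hGQ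
    have hc2 := hC.hc2.2
    constructor
    · refine (gF0_mono hM hc hν ha0 hb0).trans ?_
      rw [← hr0]
      have k1 := mulU hFE hρ (by positivity)
      refine le_trans (le_of_eq ?_) k1
      unfold gF0
      ring
    · refine (gFW_mono hM hc hν ha0 hb0 hv10 hv20).trans ?_
      rw [← hr1]
      unfold gFW gWf gWt
      refine mulU hFE (minU ?_ ?_) ?_
      · exact Wf_le hX0.le (by positivity) (by positivity) (by positivity)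
          le_rfl hO1 hL1 hW1 hv1 hv2 hN2 hc2
      · exact Wt_le hX0.le (by positivity) (by positivity)
          hv10 hv20 le_rfl hO1 hρ hW1 hv1 hv2 hN2 hc2
      · exact le_min (by positivity) (by positivity)

end SokalCel
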