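import Pool.Agent.Lib_MP_af4de1_v3.BrL4
import Pool.Agent.Lib_MP_af4de1_v3.CelL4

/-!
# Bridge, left side: `z0 = gF0`, `zW ≤ gFW` (helper6)
-/

set_option autoImplicit false

namespace SokalCel

open SokalFN Real

section

variable {μ q g c ν τ Γ u a B l Z w1 w2 : ℝ}

/-- the truncation factor -/
theorem zY_eq (hc : 0 < c) (hν : 0 < ν) (hΓ : 0 < Γ) (ha : 0 < a) (hB : 0 < B) :
    zY g c ν τ Γ u a B l = zX g c ν τ Γ u a B l / 2 * gm c ν a B u Γ := by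
  have hpi := pi_pos
  have hQ : 0 < a * c ^ 2 + ν * B := by positivity
  have hX : 0 < zX g c ν τ Γ u a B l := by unfold zX; exact exp_pos _
  unfold zY gm gQ
  obtain ⟨X, hXe⟩ : ∃ X, X = zX g c ν τ Γ u a B l := ⟨_, rfl⟩
  rw [← hXe] at hX ⊢
  obtain ⟨Q, hQe⟩ : ∃ Q, Q = a * c ^ 2 + ν * B := ⟨_, rfl⟩
  rw [← hQe] at hQ ⊢
  have e1 : √(4 / π * Γ / (ν * Q)) = 2 * √Γ / √(π * ν * Q) := by
    have e2 : 4 / π * Γ / (ν * Q) = 2 ^ 2 * Γ / (π * ν * Q) := by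
      field_simp
      norm_num
    rw [e2, Real.sqrt_div (by positivity), Real.sqrt_mul (by positivity),
      Real.sqrt_sq (by norm_num)]
  rw [e1, mul_min_comm (by positivity)]
  congr 1
  · ring
  · ring

theorem z0_eq (hc : 0 < c) (hν : 0 < ν) (hΓ : 0 < Γ) (ha : 0 < a) (hB : 0 < B)
    (hZ : u ^ 2 * (1 / (c ^ 2 / B + ν / a)) - l = Z * u ^ 2) :
    z0 μ q g c ν τ Γ u a B l =
      gF0 (q * (1 + c ^ 2 / μ ^ 2)) c ν a B u Γ Z (g / 2 * τ ^ 2) := by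
  unfold z0 gF0
  rw [zY_eq hc hν hΓ ha hB]
  have eX : zX g c ν τ Γ u a B l = exp (-(Γ * (Z * u ^ 2 - g / 2 * τ ^ 2))) := by
    unfold zX
    rw [hZ]
  rw [eX]
  unfold gQ
  ring

theorem zW_le (hμ : 0 < μ) (hc : 0 < c) (hν : 0 < ν) (hΓ : 0 < Γ) (ha : 0 < a) (hB : 0 < B)
    (h1 : 0 ≤ w1)
    (hZ : u ^ 2 * (1 / (c ^ 2 / B + ν / a)) - l = Z * u ^ 2) :
    zW μ q g c ν τ Γ u a B l 0 (w1 / μ ^ 2) w2 ≤
      gFW (q * (1 + c ^ 2 / μ ^ 2)) μ c ν a B u Γ Z (g / 2 * τ ^ 2) w1 w2 := by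
  have hpi := pi_pos
  have hQ : 0 < a * c ^ 2 + ν * B := by positivity
  have eX : zX g c ν τ Γ u a B l = exp (-(Γ * (Z * u ^ 2 - g / 2 * τ ^ 2))) := by
    unfold zX
    rw [hZ]
  unfold zW gFW
  rw [zY_eq hc hν hΓ ha hB, eX]
  obtain ⟨X, hXe⟩ : ∃ X, X = exp (-(Γ * (Z * u ^ 2 - g / 2 * τ ^ 2))) := ⟨_, rfl⟩
  have hX : 0 < X := by rw [hXe]; exact exp_pos _
  rw [← hXe]
  have hV : √(q * (1 + c ^ 2 / μ ^ 2) / (2 * (a * c ^ 2 + ν * B))) =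
      √(q * (1 + c ^ 2 / μ ^ 2) / (2 * gQ c ν a B)) := rfl
  rw [hV]
  refine le_trans ?_ (le_of_eq (mul_assoc _ _ _).symm)
  refine mul_le_mul_of_nonneg_left ?_ (Real.sqrt_nonneg _)
  rw [mul_min_comm hX.le]
  have hS : √(ν / (π * Γ * (a * c ^ 2 + ν * B))) = √(ν / (Γ * (a * c ^ 2 + ν * B)) * (1 / π)) := by
    congr 1
    field_simp
  refine min_le_min ?_ ?_
  · refine le_of_eq ?_
    unfold gWf gQ
    field_simp
    ring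
  · rw [hS]
    unfold gWt gQ
    obtain ⟨m, hm⟩ : ∃ m, m = gm c ν a B u Γ := ⟨_, rfl⟩
    rw [← hm]
    obtain ⟨S, hSe⟩ : ∃ S, S = √(ν / (Γ * (a * c ^ 2 + ν * B)) * (1 / π)) := ⟨_, rfl⟩
    rw [← hSe]
    obtain ⟨Q, hQe⟩ : ∃ Q, Q = a * c ^ 2 + ν * B := ⟨_, rfl⟩
    have hk : (ν * B / Q) ^ 2 ≤ 1 := by
      have h3 : ν * B / Q ≤ 1 := by
        rw [div_le_one (by rw [hQe]; exact hQ), hQe]
        have : 0 < a * c ^ 2 := by positivity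
        linarith
      have h4 : 0 ≤ ν * B / Q := div_nonneg (by positivity) (by rw [hQe]; exact hQ.le)
      nlinarith
    rw [← hQe] at hQ ⊢
    have hk2 : X / 2 * (w1 / μ ^ 2 * (u ^ 2 * (ν * B / Q) ^ 2)) ≤ X / 2 * (w1 / μ ^ 2 * u ^ 2) := by
      refine mul_le_mul_of_nonneg_left ?_ (by positivity)
      refine mul_le_mul_of_nonneg_left ?_ (by positivity)
      nlinarith [sq_nonneg u]
    have e1 : X / 2 * (0 + w1 / μ ^ 2 * (u ^ 2 * (ν * B / Q) ^ 2 + c ^ 2 * (ν / (2 * Γ * Q))) +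
        w2 * ((u * (a * c / Q)) ^ 2 + 2 * (u * (a * c / Q)) * S + ν / (2 * Γ * Q))) +
        X / 2 * m * (0 + w1 / μ ^ 2 * u ^ 2 + w2 * (u * (a * c / Q)) ^ 2) =
        X / 2 * (w1 / μ ^ 2 * (u ^ 2 * (ν * B / Q) ^ 2)) +
        (X / 2 * (w1 / μ ^ 2 * (c ^ 2 * (ν / (2 * Γ * Q))) +
        w2 * ((u * (a * c / Q)) ^ 2 + 2 * (u * (a * c / Q)) * S + ν / (2 * Γ * Q))) +
        X / 2 * m * (w1 / μ ^ 2 * u ^ 2 + w2 * (u * (a * c / Q)) ^ 2)) := by ring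
    rw [e1]
    refine (add_le_add_left hk2 _).trans (le_of_eq ?_)
    field_simp
    ring

end

/-- `Z` of the main part -/
theorem LZ_id {c ν h τ β σ μ : ℝ} :
    (1 + τ) ^ 2 * (1 / (c ^ 2 / LB μ c h τ β σ + ν / La μ ν (LT μ c h τ))) - Ll μ c h τ β σ =
      LZ μ c ν ((1 + τ) * h) (LT μ c h τ) β σ * (1 + τ) ^ 2 := by
  unfold LZ Ll LB
  ring

end SokalCel
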