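import Pool.Agent.Lib_MP_af4de1_v3.CelL4

/-!
# Cells, left side: the total and the checker

`tM0, tMW` main part (truncated), `tI0, tIW` image (main part, truncated), `LJ0, LJW` image behind, `LB0, LBW`
behind, `LF0, LFW` front.
-/

set_option autoImplicit false

namespace SokalCel

open SokalFN

/-- main part, `P I0` -/
noncomputable def tM0 (μ q g c ν h τ Γ β σ : ℝ) : ℝ :=
  gF0 (q * (1 + c ^ 2 / μ ^ 2)) c ν (La μ ν ((1 + τ) * h * c / μ))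
    (β * Real.exp (-(σ * ((1 + τ) * h * c / μ)))) (1 + τ) Γ
    (LZ μ c ν ((1 + τ) * h) ((1 + τ) * h * c / μ) β σ) (g / 2 * τ ^ 2)

/-- main part, `P IW R/h²` (base point `1`) -/
noncomputable def tMW (μ q g c ν h τ Γ β σ : ℝ) : ℝ :=
  gFW (q * (1 + c ^ 2 / μ ^ 2)) μ c ν (La μ ν ((1 + τ) * h * c / μ))
    (β * Real.exp (-(σ * ((1 + τ) * h * c / μ)))) (1 + τ) Γ
    (LZ μ c ν ((1 + τ) * h) ((1 + τ) * h * c / μ) β σ) (g / 2 * τ ^ 2) 1 1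

/-- `α ν` of the image -/
noncomputable def iA (μ c ν h τ : ℝ) : ℝ := Lr μ ν (Ltp h τ * c / μ)

/-- `T'` of the image -/
noncomputable def iT (μ c h τ : ℝ) : ℝ := min 1 (Ltp h τ * c / μ)

/-- image, main part, `P I0` -/
noncomputable def tI0 (μ q g c ν h τ Γ : ℝ) : ℝ :=
  gF0 (q * (1 + c ^ 2 / μ ^ 2)) c ν (iA μ c ν h τ) (11 / 25) (Ltp h τ / h) Γ
    (1 / (c ^ 2 / (11 / 25) + ν / iA μ c ν h τ)) (g / 2 * τ ^ 2)

/-- image, main part, `P IW R/h²` -/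
noncomputable def tIW (μ q g c ν h τ Γ : ℝ) : ℝ :=
  gFW (q * (1 + c ^ 2 / μ ^ 2)) μ c ν (iA μ c ν h τ) (11 / 25) (Ltp h τ / h) Γ
    (1 / (c ^ 2 / (11 / 25) + ν / iA μ c ν h τ)) (g / 2 * τ ^ 2)
    (((Real.exp (iT μ c h τ) - 1) / iT μ c h τ) ^ 2) (Real.exp (iT μ c h τ))

/-- sum of the other zones, `P I0` -/
noncomputable def lI (μ q g c ν h τ Γ U : ℝ) : ℝ :=
  LB0 μ q g c ν h τ Γ + (if (1 + τ) * h ≤ 6 / 5 then LF0 μ q g c ν h τ Γ else 0) +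
    (tI0 μ q g c ν h τ Γ + LJ0 μ q g c ν h τ Γ) + U

/-- sum of the other zones, `P IW R/h²` -/
noncomputable def lW (μ q g c ν h τ Γ U : ℝ) : ℝ :=
  LB0 μ q g c ν h τ Γ * LBW μ c ν h τ Γ +
    (if (1 + τ) * h ≤ 6 / 5 then LF0 μ q g c ν h τ Γ * (LFW μ c ν τ Γ / c ^ 2) else 0) +
    (tIW μ q g c ν h τ Γ + LJ0 μ q g c ν h τ Γ * LJW μ c ν h τ Γ) + U

/-- sum of the other zones, `P Ie/Γ` -/
noncomputable def lE (μ q g c ν h τ Γ U : ℝ) : ℝ :=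
  (LB0 μ q g c ν h τ Γ + (if (1 + τ) * h ≤ 6 / 5 then LF0 μ q g c ν h τ Γ else 0) +
    (Real.exp (iT μ c h τ) * tI0 μ q g c ν h τ Γ + Le μ c h τ * LJ0 μ q g c ν h τ Γ)) / Γ + U

/-- the total weight -/
noncomputable def lT (μ q g kk c ν h τ Γ β σ U0 UW : ℝ) : ℝ :=
  tMW μ q g c ν h τ Γ β σ + (kk * τ) ^ 2 * tM0 μ q g c ν h τ Γ β σ +
    (√(lW μ q g c ν h τ Γ UW) + kk * τ * √(lI μ q g c ν h τ Γ U0)) ^ 2

/-- the three bounds -/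
structure LOk (μ q g kk c ν h τ Γ β σ U0 UW Ue F0 F1 F2 : ℝ) : Prop where
  f0 : tM0 μ q g c ν h τ Γ β σ + lI μ q g c ν h τ Γ U0 ≤ F0
  f1 : √((tM0 μ q g c ν h τ Γ β σ + lI μ q g c ν h τ Γ U0) *
    lT μ q g kk c ν h τ Γ β σ U0 UW) ≤ F1
  f2 : lT μ q g kk c ν h τ Γ β σ U0 UW + tM0 μ q g c ν h τ Γ β σ / Γ + lE μ q g c ν h τ Γ Ue ≤ F2

end SokalCel
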