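import Pool.Agent.Lib_MP_af4de1_v3.CelTree

/-!
# Cells: a tree from subtrees (helper10)
-/

set_option autoImplicit false

namespace SokalCel

variable {ok : ℕ → ℕ → ℕ → ℕ → ℕ → ℕ → Bool} {a b : BT} {x0 x1 y0 y1 z0 z1 : ℕ}

theorem bisT_X (m : ℕ) (h1 : bisT ok a x0 m y0 y1 z0 z1 = true) (h2 : bisT ok b m x1 y0 y1 z0 z1 = true)
    (hm : Nat.div (Nat.add x0 x1) 2 = m) : bisT ok (BT.X a b) x0 x1 y0 y1 z0 z1 = true := by
  subst hm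
  rw [bisT, h1, h2]
  rfl

theorem bisT_Y (m : ℕ) (h1 : bisT ok a x0 x1 y0 m z0 z1 = true) (h2 : bisT ok b x0 x1 m y1 z0 z1 = true)
    (hm : Nat.div (Nat.add y0 y1) 2 = m) : bisT ok (BT.Y a b) x0 x1 y0 y1 z0 z1 = true := by
  subst hm
  rw [bisT, h1, h2]
  rfl

theorem bisT_Z (m : ℕ) (h1 : bisT ok a x0 x1 y0 y1 z0 m = true) (h2 : bisT ok b x0 x1 y0 y1 m z1 = true)
    (hm : Nat.div (Nat.add z0 z1) 2 = m) : bisT ok (BT.Z a b) x0 x1 y0 y1 z0 z1 = true := by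
  subst hm
  rw [bisT, h1, h2]
  rfl

end SokalCel
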