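import Pool.Agent.Lib_MP_af4de1_v3.CelRunG
import Pool.Agent.Lib_MP_af4de1_v3.CelTreeN

/-!
# Cells: the run along trees for ANY cell test (helper6)
-/

set_option autoImplicit false

namespace SokalCel

open SokalFN SokalV3

/-- soundness of the cell test `celG` -/
theorem celG_sound {K : RnD} {chk : ℕ → I → I → I → I → Bool} {P : ℝ → ℝ → ℝ → ℝ → ℝ → Prop}
    (hs : ∀ (G : ℕ) (ci ni hi ui : I), chk G ci ni hi ui = true → ∀ c ν h τ Γ : ℝ,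
      DmR K c ν h τ Γ → fx G ≤ Γ → Mem c ci → Mem ν ni → Mem h hi → Mem τ ui → P c ν h τ Γ)
    (ci ni hi ui : I) (hx : celG K chk ci ni hi ui = true) (c ν h τ Γ : ℝ) (D : DmR K c ν h τ Γ)
    (hc : Mem c ci) (hn : Mem ν ni) (hh : Mem h hi) (hu : Mem τ ui) : P c ν h τ Γ := by
  have hm : fx (mL (mL hi.1 ci.1) (mL hi.1 ci.1)) ≤ (h * c) ^ 2 := by
    have h1 := mulL hh.1 hc.1
    have h2 := mulL h1 h1
    rwa [← pow_two] at h2
  unfold celG at hx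
  rw [Bool.or_eq_true, Bool.or_eq_true, blt_iff, blt_iff] at hx
  rcases hx with h1 | h1 | h1
  · exfalso
    have h2 : fx K.H < fx (mL (mL hi.1 ci.1) (mL hi.1 ci.1)) := by
      unfold fx
      have : (K.H : ℝ) < (mL (mL hi.1 ci.1) (mL hi.1 ci.1) : ℕ) := by exact_mod_cast h1
      gcongr
    linarith [D.H]
  · exfalso
    have h2 : fx piU < fx (mL (SC + ui.1) hi.1) := by
      unfold fx
      have : (piU : ℝ) < (mL (SC + ui.1) hi.1 : ℕ) := by exact_mod_cast h1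
      gcongr
    have h3 : fx (SC + ui.1) ≤ 1 + τ := by
      rw [fx_add, fx_one]
      linarith [hu.1]
    have h4 := mulL h3 hh.1
    linarith [D.tp, pi_le_piU]
  · have hG : fx (max K.G0 (mL g49 (mL (mL hi.1 ci.1) (mL hi.1 ci.1)))) ≤ Γ := by
      rcases max_choice K.G0 (mL g49 (mL (mL hi.1 ci.1) (mL hi.1 ci.1))) with e | e
      · rw [e]; exact D.G0
      · rw [e]; exact (mulL g49_le hm).trans D.G1
    exact hs _ ci ni hi ui h1 c ν h τ Γ D hG hc hn hh hu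

/-- **The run, generic, along two trees** (chart `c` on `[0, xc]`, chart `ν` on `[0, xn]`). -/
theorem run_tree {K : RnD} {chk : ℕ → I → I → I → I → Bool} {P : ℝ → ℝ → ℝ → ℝ → ℝ → Prop}
    (hs : ∀ (G : ℕ) (ci ni hi ui : I), chk G ci ni hi ui = true → ∀ c ν h τ Γ : ℝ,
      DmR K c ν h τ Γ → fx G ≤ Γ → Mem c ci → Mem ν ni → Mem h hi → Mem τ ui → P c ν h τ Γ)
    {tc tn : BT} {xc xn y0 y1 z0 z1 : ℕ}
    (hC : bisT (okGC (celG K chk)) tc 0 xc y0 y1 z0 z1 = true)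
    (hN : bisT (okGN (celG K chk)) tn 0 xn y0 y1 z0 z1 = true)
    (ec : 7 / 10 ≤ fx xc) (en : 18 / 25 ≤ fx xn)
    {c ν h τ Γ : ℝ} (D : DmR K c ν h τ Γ) (hh0 : fx y0 ≤ h) (hh : h ≤ fx y1) (h0 : fx z0 ≤ τ)
    (h1 : τ ≤ fx z1) : P c ν h τ Γ := by
  have key := celG_sound hs
  rcases chart D.cn with h2 | h2
  · have k2 := bisT_sound (P := fun c h τ => ∀ ν Γ : ℝ, DmR K c ν h τ Γ → P c ν h τ Γ)
      (fun x0 x1 y0 y1 z0 z1 hx x y z a1 a2 a3 a4 a5 a6 ν Γ D =>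
        key _ _ _ _ hx x ν y z Γ D ⟨a1, a2⟩ (Mem.co ⟨a1, a2⟩ D.cn D.n0.le) ⟨a3, a4⟩ ⟨a5, a6⟩)
      tc 0 xc y0 y1 z0 z1 hC
    exact k2 c h τ (by rw [fx_zero]; exact D.c0.le) (h2.trans ec) hh0 hh h0 h1 ν Γ D
  · have k2 := bisT_sound (P := fun ν h τ => ∀ c Γ : ℝ, DmR K c ν h τ Γ → P c ν h τ Γ)
      (fun x0 x1 y0 y1 z0 z1 hx x y z a1 a2 a3 a4 a5 a6 c Γ D =>
        key _ _ _ _ hx c x y z Γ D (Mem.co ⟨a1, a2⟩ (by linarith [D.cn]) D.c0.le) ⟨a1, a2⟩ ⟨a3, a4⟩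
          ⟨a5, a6⟩) tn 0 xn y0 y1 z0 z1 hN
    exact k2 ν h τ (by rw [fx_zero]; exact D.n0.le) (h2.trans en) hh0 hh h0 h1 c Γ D

end SokalCel
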