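import Pool.Agent.Lib_MP_af4de1_v3.CelRunL
import Pool.Agent.Lib_MP_af4de1_v3.CelRunT
import Pool.Agent.Lib_MP_af4de1_v3.CelL5

/-!
# Bridge, left side: `LOk → RunL` (helper6)
-/

set_option autoImplicit false

namespace SokalCel

open SokalFN SokalV3 SokalCen Real

/-- `LOk → RunL` -/
theorem LOk.run {μ q g k c ν h τ Γ β σ U0 UW UE f0 f1 f2 : ℝ} (hμ : 1 ≤ μ) (hc : 0 < c)
    (hν : 0 < ν) (hν1 : ν < 1) (hh : 0 < h) (hτ : 0 ≤ τ) (hΓ : 0 < Γ) (hπ : (1 + τ) * h ≤ π)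
    (hβ : 0 < β) (hW : Win β ((1 + τ) * h)) (hσ0 : 0 ≤ σ) (hσ1 : σ ≤ 1)
    (H : LOk μ q g k c ν h τ Γ β σ U0 UW UE f0 f1 f2) : RunL μ q g k c ν h τ Γ U0 UW UE f0 f1 f2 := by
  have hμ0 : 0 < μ := by linarith
  have htp := Ltp_pos hπ
  have hB : 0 < LB μ c h τ β σ := by unfold LB; positivity
  have ha := La_pos (T := LT μ c h τ) hμ hν1
  have hT' : 0 ≤ LTp μ c h τ := by unfold LTp; positivity
  have ha' := Lr_pos (T := LTp μ c h τ) hμ hν hν1 hT'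
  have hB' : (0 : ℝ) < 11 / 25 := by norm_num
  have hLf := Lf_pos hμ hν1
  have hF : 0 ≤ LF0 μ q g c ν h τ Γ := by
    unfold LF0
    positivity
  have hFW : 0 ≤ LFW μ c ν τ Γ := by
    unfold LFW
    have hpi := pi_pos
    positivity
  -- the four zones
  have m0 : z0 μ q g c ν τ Γ (1 + τ) (La μ ν (LT μ c h τ)) (LB μ c h τ β σ) (Ll μ c h τ β σ) =
      tM0 μ q g c ν h τ Γ β σ := z0_eq hc hν hΓ ha hB LZ_id
  have mW : zW μ q g c ν τ Γ (1 + τ) (La μ ν (LT μ c h τ)) (LB μ c h τ β σ) (Ll μ c h τ β σ) 0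
      (1 / μ ^ 2) 1 ≤ tMW μ q g c ν h τ Γ β σ := zW_le hμ0 hc hν hΓ ha hB zero_le_one LZ_id
  have hZ : (Ltp h τ / h) ^ 2 * (1 / (c ^ 2 / (11 / 25) + ν / Lr μ ν (LTp μ c h τ))) - 0 =
      1 / (c ^ 2 / (11 / 25) + ν / Lr μ ν (LTp μ c h τ)) * (Ltp h τ / h) ^ 2 := by ring
  have i0 : z0 μ q g c ν τ Γ (Ltp h τ / h) (Lr μ ν (LTp μ c h τ)) (11 / 25) 0 =
      tI0 μ q g c ν h τ Γ := z0_eq hc hν hΓ ha' hB' hZ
  have iW : zW μ q g c ν τ Γ (Ltp h τ / h) (Lr μ ν (LTp μ c h τ)) (11 / 25) 0 0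
      (eS (min 1 (LTp μ c h τ)) ^ 2 / μ ^ 2) (exp (min 1 (LTp μ c h τ))) ≤
      tIW μ q g c ν h τ Γ := zW_le hμ0 hc hν hΓ ha' hB' (sq_nonneg _) hZ
  refine ⟨β, σ, if (1 + τ) * h ≤ 6 / 5 then LF0 μ q g c ν h τ Γ else 0,
    if (1 + τ) * h ≤ 6 / 5 then LF0 μ q g c ν h τ Γ * (LFW μ c ν τ Γ / c ^ 2) else 0,
    tM0 μ q g c ν h τ Γ β σ, tMW μ q g c ν h τ Γ β σ, lI μ q g c ν h τ Γ U0,
    lW μ q g c ν h τ Γ UW, lE μ q g c ν h τ Γ UE, hβ, hW, hσ0, hσ1, ?_, ?_, ?_, m0.le, mW, ?_, ?_, ?_,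
    H.f0, H.f1, H.f2⟩
  · split_ifs
    · exact hF
    · exact le_rfl
  · split_ifs
    · positivity
    · exact le_rfl
  · intro ht
    rw [if_pos ht, if_pos ht]
    exact ⟨le_rfl, le_rfl⟩
  · rw [i0]
    unfold lI
    linarith
  · unfold lW
    linarith
  · rw [i0]
    refine le_of_eq ?_
    unfold lE
    have : LTp μ c h τ = Ltp h τ * c / μ := rfl
    unfold iT
    rw [this]
    ring

/-- from `LOk` on a domain to `RunsL` -/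
theorem runsL_of {K : RnD} {q g k U0 UW UE f0 f1 f2 t0 t1 : ℝ}
    (H : ∀ c ν h τ Γ : ℝ, DmR K c ν h τ Γ → h ≤ 2 * π / 3 → t0 ≤ τ → τ ≤ t1 →
      ∃ β σ : ℝ, ((β = bq ((1 + τ) * h) ∧ (1 + τ) * h ≤ 6 / 5) ∨ β = 11 / 25) ∧ 0 ≤ σ ∧ σ ≤ 1 ∧
        LOk (5 / 4) q g k c ν h τ Γ β σ U0 UW UE f0 f1 f2) :
    RunsL K q g k U0 UW UE f0 f1 f2 t0 t1 := by
  intro c ν h τ Γ D hh h0 h1
  obtain ⟨β, σ, hb, s0, s1, L⟩ := H c ν h τ Γ D hh h0 h1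
  have hc := D.c0
  have hν := D.n0
  have hh0 := D.h0
  have hτ := D.u0
  have ht : 0 < (1 + τ) * h := by positivity
  have hν1 : ν < 1 := by
    have := D.cn
    have h2 : 0 < c ^ 2 := by positivity
    nlinarith [D.n1]
  have hΓ : 0 < Γ := by
    have := D.G1
    have h2 : 0 < 499 / 10 * (h * c) ^ 2 := by positivity
    linarith
  have hW : Win β ((1 + τ) * h) := by
    rcases hb with ⟨e, _⟩ | e
    · rw [e]; exact win_b ht D.tp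
    · rw [e]; exact win_all _
  exact L.run (by norm_num) hc hν hν1 hh0 hτ hΓ D.tp hW.1 hW s0 s1

end SokalCel
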