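import Pool.Agent.Lib_MP_af4de1_v3.CelL1

/-!
# Cells, right side: main part in scaled variables

`c = 1/√R`, `ν = ρ/√R`, `m = μ √R`, `t = (1+τ) h`, `T = t/m = (1+τ) h c/μ`, `A = Ra c²/ν`, `B = β`,
`Q = Ra c² + ν β = ν (A + B)`.  The forms are `g0`, `gW` of `CenDef.lean` (truncated at `t`) with the weight
`e^T κ² + (eS T)²/m² s² + e^T (1+κ) (t-s)²`, `κ = kk τ h c`, times the level factor; `RMW` is divided by `(h c)²`.
-/

set_option autoImplicit false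

namespace SokalCel

open SokalFN

/-- `1 + T/3 + 5T²/48` -/
noncomputable def sS (T : ℝ) : ℝ := 1 + T / 3 + 5 * T ^ 2 / 48

/-- `ν` times the quadratic coefficient over `c²` -/
noncomputable def Ra (μ ν T : ℝ) : ℝ := (μ - ν * sS (min 1 T) / 2) / μ ^ 2 / max 1 T

/-- `Q` -/
noncomputable def RQ (μ c ν T β : ℝ) : ℝ := Ra μ ν T * c ^ 2 + ν * β

/-- exponent over `Γ` -/
noncomputable def Re0 (μ g c ν τ T β : ℝ) : ℝ :=
  (1 + τ) ^ 2 * (1 / (c ^ 2 / β + ν / Ra μ ν T)) - g / 2 * τ ^ 2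

/-- prefactor -/
noncomputable def RV (μ q c ν T β : ℝ) : ℝ := √(q * (1 + c ^ 2 / μ ^ 2) / (2 * RQ μ c ν T β))

/-- `(t - v)/gG` over `√Γ` -/
noncomputable def Rk (μ c ν τ T β : ℝ) : ℝ := (1 + τ) * Ra μ ν T * c / √(Real.pi * ν * RQ μ c ν T β)

/-- `e^(-Γ e0)` -/
noncomputable def RX (μ g c ν τ T β Γ : ℝ) : ℝ := Real.exp (-(Γ * Re0 μ g c ν τ T β))

/-- the part to the right of the centre -/
noncomputable def RY (μ g c ν τ T β Γ : ℝ) : ℝ :=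
  min (RX μ g c ν τ T β Γ / 2) (√Γ * Rk μ c ν τ T β * RX μ g c ν τ T β Γ)

/-- main part, `m0` -/
noncomputable def RM0 (μ q g c ν h τ Γ β : ℝ) : ℝ :=
  RV μ q c ν ((1 + τ) * h * c / μ) β *
    (RX μ g c ν τ ((1 + τ) * h * c / μ) β Γ / 2 + RY μ g c ν τ ((1 + τ) * h * c / μ) β Γ)

/-- `(e^T - 1)/T` at `min 1 T` -/
noncomputable def Re1 (T : ℝ) : ℝ := (Real.exp (min 1 T) - 1) / min 1 T

/-- coefficient of `(e^a - 1)²` in the full integral -/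
noncomputable def Rm1 (μ c ν τ T β Γ : ℝ) : ℝ :=
  (1 + τ) ^ 2 * (ν * β / RQ μ c ν T β) ^ 2 / μ ^ 2 + c ^ 2 * (ν / (2 * Γ * RQ μ c ν T β)) / μ ^ 2

/-- `(1 + τ)(1 - λ)/c` -/
noncomputable def Ro (μ c ν τ T β : ℝ) : ℝ := (1 + τ) * (Ra μ ν T * c / RQ μ c ν T β)

/-- full weighted integral, without prefactor -/
noncomputable def RF (μ kk g c ν h τ T β Γ : ℝ) : ℝ :=
  RX μ g c ν τ T β Γ * (Real.exp (min 1 T) * (kk * τ) ^ 2 + Re1 T ^ 2 * Rm1 μ c ν τ T β Γ +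
    Real.exp (min 1 T) * (1 + kk * τ * (h * c)) *
      (Ro μ c ν τ T β ^ 2 + ν / (2 * Γ * RQ μ c ν T β)))

/-- truncated weighted integral, without prefactor -/
noncomputable def RG (μ kk g c ν h τ T β Γ : ℝ) : ℝ :=
  RX μ g c ν τ T β Γ / 2 * (Real.exp (min 1 T) * (kk * τ) ^ 2 + Re1 T ^ 2 * Rm1 μ c ν τ T β Γ +
    Real.exp (min 1 T) * (1 + kk * τ * (h * c)) *
      (Ro μ c ν τ T β ^ 2 + 2 * Ro μ c ν τ T β * √(ν / (Real.pi * Γ * RQ μ c ν T β)) +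
        ν / (2 * Γ * RQ μ c ν T β))) +
  RY μ g c ν τ T β Γ * (Real.exp (min 1 T) * (kk * τ) ^ 2 + Re1 T ^ 2 * ((1 + τ) ^ 2 / μ ^ 2) +
    Real.exp (min 1 T) * (1 + kk * τ * (h * c)) * Ro μ c ν τ T β ^ 2)

/-- main part, weight -/
noncomputable def RMW (μ q kk g c ν h τ Γ β : ℝ) : ℝ :=
  RV μ q c ν ((1 + τ) * h * c / μ) β *
    min (RF μ kk g c ν h τ ((1 + τ) * h * c / μ) β Γ) (RG μ kk g c ν h τ ((1 + τ) * h * c / μ) β Γ)

/-- main part, `e^a` -/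
noncomputable def RMe (μ q g c ν h τ Γ β : ℝ) : ℝ :=
  Real.exp (min 1 ((1 + τ) * h * c / μ)) * RM0 μ q g c ν h τ Γ β / Γ

/-! ### elementary bounds -/

/-- `√Γ e^(-Γ e)` decreases for `2 Γ e ≥ 1` -/
theorem sqrt_exp_anti {G Γ e : ℝ} (hG : 0 < G) (h : G ≤ Γ) (he : 1 ≤ 2 * (G * e)) :
    √Γ * Real.exp (-(Γ * e)) ≤ √G * Real.exp (-(G * e)) := by
  have h1 : √Γ ≤ √G * Real.exp ((Γ - G) * e) := by
    rw [Real.sqrt_le_left (by positivity), mul_pow, Real.sq_sqrt hG.le, ← Real.exp_nat_mul]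
    have h2 := Real.add_one_le_exp ((2 : ℕ) * ((Γ - G) * e))
    have h3 : Γ ≤ G * (((2 : ℕ) : ℝ) * ((Γ - G) * e) + 1) := by
      push_cast
      have h4 : (Γ - G) * 1 ≤ (Γ - G) * (2 * (G * e)) :=
        mul_le_mul_of_nonneg_left he (by linarith)
      nlinarith
    exact h3.trans (mul_le_mul_of_nonneg_left h2 hG.le)
  have h5 : Real.exp ((Γ - G) * e) * Real.exp (-(Γ * e)) = Real.exp (-(G * e)) := by
    rw [← Real.exp_add]
    congr 1
    ring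
  calc √Γ * Real.exp (-(Γ * e)) ≤ √G * Real.exp ((Γ - G) * e) * Real.exp (-(Γ * e)) :=
        mul_le_mul_of_nonneg_right h1 (Real.exp_pos _).le
    _ = _ := by rw [mul_assoc, h5]

/-- `(e^T - 1)/T ≤ 1 + T/2 + T²/6 + 0.0517 T³` -/
theorem Re1_le {T : ℝ} (h0 : 0 < T) :
    Re1 T ≤ 1 + min 1 T / 2 + min 1 T ^ 2 / 6 + 517 / 10000 * min 1 T ^ 3 := by
  have hm0 : 0 < min 1 T := lt_min one_pos h0
  have hm1 : min 1 T ≤ 1 := min_le_left _ _
  unfold Re1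
  obtain ⟨x, hx⟩ : ∃ x, x = min 1 T := ⟨_, rfl⟩
  rw [← hx] at hm0 hm1 ⊢
  rw [div_le_iff₀ hm0]
  have h := Real.exp_bound' hm0.le hm1 (n := 8) (by norm_num)
  simp only [Finset.sum_range_succ, Finset.sum_range_zero, Nat.factorial] at h
  norm_num at h
  have a1 : x ^ 5 ≤ x ^ 4 := pow_le_pow_of_le_one hm0.le hm1 (by norm_num)
  have a2 : x ^ 6 ≤ x ^ 4 := pow_le_pow_of_le_one hm0.le hm1 (by norm_num)
  have a3 : x ^ 7 ≤ x ^ 4 := pow_le_pow_of_le_one hm0.le hm1 (by norm_num)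
  have a4 : x ^ 8 ≤ x ^ 4 := pow_le_pow_of_le_one hm0.le hm1 (by norm_num)
  have a0 : 0 ≤ x ^ 4 := by positivity
  nlinarith

theorem fx_mulN (n k : ℕ) : fx (n * k) = fx n * k := by
  unfold fx
  push_cast
  ring

/-- interval of `sS` -/
def isS (a : I) : I :=
  (SC + a.1 / 3 + mL a.1 a.1 * 5 / 48, SC + (a.2 / 3 + 1) + (mU a.2 a.2 * 5 / 48 + 1))

theorem Mem.sS {x : ℝ} {a : I} (h : Mem x a) : Mem (sS x) (isS a) := by
  have h0 := h.nonneg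
  have h2 := h.sq
  unfold SokalCel.sS isS
  constructor
  · show fx (SC + a.1 / 3 + mL a.1 a.1 * 5 / 48) ≤ 1 + x / 3 + 5 * x ^ 2 / 48
    have h3 := fx_div a.1 3 (by norm_num)
    have h4 := fx_div (mL a.1 a.1 * 5) 48 (by norm_num)
    rw [fx_mulN] at h4
    have h5 := h.1
    have h6 := h2.1
    change fx (mL a.1 a.1) ≤ x ^ 2 at h6
    rw [fx_add, fx_add, fx_one]
    push_cast at h3 h4
    linarith
  · show 1 + x / 3 + 5 * x ^ 2 / 48 ≤ fx (SC + (a.2 / 3 + 1) + (mU a.2 a.2 * 5 / 48 + 1))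
    have h3 := fx_divU a.2 3 (by norm_num)
    have h4 := fx_divU (mU a.2 a.2 * 5) 48 (by norm_num)
    rw [fx_mulN] at h4
    have h5 := h.2
    have h6 := h2.2
    change x ^ 2 ≤ fx (mU a.2 a.2) at h6
    rw [fx_add, fx_add SC, fx_one]
    push_cast at h3 h4
    linarith

/-- interval of `Ra` -/
def xaR (P : Par) (n T : I) : I :=
  let y := im n (isS (imn (SC, SC) T))
  im (im (im (is' P.M (y.1 / 2, y.2 / 2 + 1)) P.N) P.N) (id' (SC, SC) (imx (SC, SC) T))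

theorem sS_le {T : ℝ} (h : 0 ≤ T) : sS (min 1 T) ≤ 23 / 16 := by
  have h1 : min 1 T ≤ 1 := min_le_left _ _
  have h0 : 0 ≤ min 1 T := le_min one_pos.le h
  unfold sS
  nlinarith

theorem mem_xaR {P : Par} {μ q g kk ν T : ℝ} {n t : I} (hP : P.Ok μ q g kk) (hn : Mem ν n)
    (hT : Mem T t) (hν : ν ≤ 1) : Mem (Ra μ ν T) (xaR P n t) := by
  have hs := (Mem.one.min hT).sS
  have h0 := mem_half (hn.mul hs)
  have hT0 := hT.nonneg
  have hle : ν * sS (min 1 T) / 2 ≤ μ := by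
    have h1 := sS_le hT0
    have h2 := hn.nonneg
    have h3 := hs.nonneg
    have h4 : ν * sS (min 1 T) ≤ 1 * (23 / 16) := mul_le_mul hν h1 h3 one_pos.le
    linarith [hP.le]
  have h1 := ((hP.hM.sub h0 hle).mul hP.hN).mul hP.hN
  have h2 := Mem.one.div (Mem.one.max hT) (b := imx (SC, SC) t) (by
    show 0 < max SC t.1
    exact lt_of_lt_of_le (by norm_num) (le_max_left _ _))
  have h3 := h1.mul h2
  have e : Ra μ ν T = (μ - ν * sS (min 1 T) / 2) * (1 / μ) * (1 / μ) * (1 / max 1 T) := by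
    unfold Ra
    have := hP.pos
    have h4 : (0 : ℝ) < max 1 T := lt_max_of_lt_left one_pos
    field_simp
  rw [e]
  exact h3

/-- upper bound of `1 + T/2 + T²/6 + 0.0517 T³` -/
def e1U (T : ℕ) : ℕ := SC + (T / 2 + 1) + (mU T T / 6 + 1) + mU 56844751946 (mU (mU T T) T)

theorem e1U_ge {T : ℝ} {n : ℕ} (h0 : 0 < T) (h : min 1 T ≤ fx n) : Re1 T ≤ fx (e1U n) := by
  have hm0 : 0 ≤ min 1 T := le_min one_pos.le h0.le
  refine (Re1_le h0).trans ?_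
  obtain ⟨x, hx⟩ : ∃ x, x = min 1 T := ⟨_, rfl⟩
  rw [← hx] at h hm0 ⊢
  have h1 := mulU h h hm0
  have h2 := mulU h1 h hm0
  have k1 := fx_divU n 2 (by norm_num)
  have k2 := fx_divU (mU n n) 6 (by norm_num)
  have k3 : (517 / 10000 : ℝ) ≤ fx 56844751946 := by unfold fx; norm_num
  have k4 := mulU k3 h2 (by positivity)
  push_cast at k1 k2
  unfold e1U
  refine le_trans (le_of_eq ?_) (addU (addU (addU (le_of_eq fx_one.symm) ((div_le_div_of_nonneg_right h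
    (by norm_num : (0:ℝ) ≤ 2)).trans k1)) ((div_le_div_of_nonneg_right h1
    (by norm_num : (0:ℝ) ≤ 6)).trans k2)) k4)
  ring

/-- lower bound of `π` -/
abbrev piL : ℕ := 3454115778658

theorem piL_le : fx piL ≤ Real.pi := by
  have := Real.pi_gt_d4
  unfold fx piL
  norm_num at this ⊢
  linarith

end SokalCel
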