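import Pool.Agent.Lib_MP_af4de1_v3.CenHalf
import Pool.Agent.Lib_MP_af4de1_f1.N1IntB

/-!
# CEN: the zone behind the wave, left (helper69)

`θ = t > 0`, `s = -(t + z)`, `0 ≤ z ≤ 6/5`, `A' = AL m ρ (t + 6/5)`:
`Dm ≥ A' (t + z)² + (11/25) e^(-(t+6/5)/m) z²`, `|em - 1|² ≤ ((t+z)/m)² + z²`, `e^a ≤ 1`.
-/

set_option autoImplicit false

namespace SokalCen

open Real MeasureTheory Set

/-- `1 - cos z ≥ 11/25 z²` for `|z| ≤ 6/5` -/
theorem beh_cos {z : ℝ} (h0 : 0 ≤ z) (h1 : z ≤ 6 / 5) : 11 / 25 * z ^ 2 ≤ 1 - cos z := by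
  have h := SokalF1.ip_near (t := z) (by rw [abs_of_nonneg h0]; exact h1)
  nlinarith [sq_nonneg z]

/-- the path on the left -/
theorem beh_pm_ge {m v : ℝ} (hm : 0 < m) (hv : 0 ≤ v) : -(v / m) ≤ pm m (-v) := by
  unfold pm
  refine le_trans ?_ (le_max_right _ _)
  rw [neg_div]
  refine le_min ?_ le_rfl
  have : 0 ≤ v / m := by positivity
  linarith

theorem beh_pm_le {m v : ℝ} (hm : 0 < m) (hv : 0 ≤ v) : pm m (-v) ≤ 0 :=
  pm_nonpos hm (by linarith)

/-- weight with the base point `1`: exact form -/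
theorem beh_Wm (m θ s : ℝ) : Wm m θ 1 s = (exp (pm m s) - 1) ^ 2 +
    2 * exp (pm m s) * (1 - cos (θ + s)) := by
  have h : ∀ a φ : ℝ, ‖Complex.exp (a + φ * Complex.I) - 1‖ ^ 2 = (exp a - 1) ^ 2 +
      2 * exp a * (1 - cos φ) := by
    intro a φ
    rw [← Complex.normSq_eq_norm_sq, Complex.normSq_apply]
    have e1 : (Complex.exp (a + φ * Complex.I) - 1).re = exp a * cos φ - 1 := by
      rw [Complex.sub_re, Complex.exp_re]
      simp
    have e2 : (Complex.exp (a + φ * Complex.I) - 1).im = exp a * sin φ := by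
      rw [Complex.sub_im, Complex.exp_im]
      simp
    rw [e1, e2]
    have h3 := sin_sq_add_cos_sq φ
    linear_combination (exp a ^ 2) * h3
  unfold Wm em
  rw [← h]
  congr 3
  push_cast
  ring

/-- weight on the left: `W ≤ (v/m)² + φ²` -/
theorem beh_Wm_left {m θ v : ℝ} (hm : 0 < m) (hv : 0 ≤ v) :
    Wm m θ 1 (-v) ≤ (v / m) ^ 2 + (θ - v) ^ 2 := by
  rw [beh_Wm]
  have h1 := beh_pm_ge hm hv
  have h2 := beh_pm_le hm hv
  have h3 : exp (pm m (-v)) ≤ 1 := exp_le_one_iff.2 h2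
  have h4 := add_one_le_exp (pm m (-v))
  have h5 : (exp (pm m (-v)) - 1) ^ 2 ≤ (v / m) ^ 2 := by
    apply sq_le_sq'
    · linarith
    · have : 0 ≤ v / m := by positivity
      linarith
  have h6 := one_sub_sq_div_two_le_cos (x := θ + -v)
  have h7 := exp_pos (pm m (-v))
  have h8 := cos_le_one (θ + -v)
  have h9 : 2 * exp (pm m (-v)) * (1 - cos (θ + -v)) ≤ 2 * 1 * ((θ - v) ^ 2 / 2) := by
    apply mul_le_mul
    · linarith
    · have : (θ - v) ^ 2 = (θ + -v) ^ 2 := by ring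
      rw [this]
      linarith
    · linarith
    · norm_num
  linarith

/-- closed form: the lower coefficient of `Qm` behind the wave -/
noncomputable def bA (m ρ t : ℝ) : ℝ := AL m ρ (t + 6 / 5)

/-- closed form: coefficient of `z²` behind the wave, left -/
noncomputable def bB (m ρ t : ℝ) : ℝ := bA m ρ t + 11 / 25 * exp (-((t + 6 / 5) / m))

theorem bA_pos {m ρ t : ℝ} (hρ : 0 < ρ) (hm : ρ ≤ m) (ht : 0 ≤ t) : 0 < bA m ρ t :=
  AL_pos hρ hm (by linarith)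

theorem bB_pos {m ρ t : ℝ} (hρ : 0 < ρ) (hm : ρ ≤ m) (ht : 0 ≤ t) : 0 < bB m ρ t := by
  have := bA_pos hρ hm ht
  unfold bB
  positivity

/-- BEHIND, left, with the slope. -/
theorem zone_behind_L {q m ρ t : ℝ} (hq : 0 < q) (hρ : 0 < ρ) (hm : ρ ≤ m) (ht : 0 ≤ t) :
    Zone q m ρ t 1 (Icc (-t - 6 / 5) (-t))
      (exp (-(q * (bA m ρ t * t ^ 2))) * h0 (q * (2 * bA m ρ t * t)) (q * bB m ρ t))
      (exp (-(q * (bA m ρ t * t ^ 2))) * ((t / m) ^ 2 * h0 (q * (2 * bA m ρ t * t)) (q * bB m ρ t) +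
        2 * t / m ^ 2 * h1 (q * bB m ρ t) + (1 / m ^ 2 + 1) * h2 (q * bB m ρ t)))
      (exp (-(q * (bA m ρ t * t ^ 2))) * h0 (q * (2 * bA m ρ t * t)) (q * bB m ρ t)) := by
  have hm0 : 0 < m := hρ.trans_le hm
  have hA := bA_pos hρ hm ht
  have hB := bB_pos hρ hm ht
  have h := Zone.below (q := q) (m := m) (ρ := ρ) (θ := t) (w := 1) (c := -t)
    (a0 := bA m ρ t * t ^ 2) (b := 2 * bA m ρ t * t) (B := bB m ρ t) (e0 := 1)
    (c0 := (t / m) ^ 2) (c1 := 2 * t / m ^ 2) (c2 := 1 / m ^ 2 + 1)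
    (measurableSet_Icc (a := -t - 6 / 5) (b := -t)) hq (by positivity) hB (by positivity)
    (by positivity) (by positivity) zero_le_one (fun s hs => hs.2) ?_ ?_ ?_
  · rwa [one_mul] at h
  · intro s hs
    set z := -t - s with hz
    have hz0 : 0 ≤ z := by linarith [hs.2]
    have hz1 : z ≤ 6 / 5 := by linarith [hs.1]
    have hs' : s = -(t + z) := by rw [hz]; ring
    rw [Dm_eq, hs']
    have h1 : bA m ρ t * (t + z) ^ 2 ≤ Qm m ρ (-(t + z)) :=
      Qm_AL hρ hm (by linarith) (by linarith) (by linarith)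
    have h2 : exp (-((t + 6 / 5) / m)) * (11 / 25 * z ^ 2) ≤
        exp (pm m (-(t + z))) * (1 - cos (t + -(t + z))) := by
      apply mul_le_mul
      · apply exp_le_exp.2
        refine le_trans ?_ (beh_pm_ge hm0 (by linarith : 0 ≤ t + z))
        apply neg_le_neg
        apply div_le_div_of_nonneg_right _ hm0.le
        linarith
      · have e : t + -(t + z) = -z := by ring
        rw [e, cos_neg]
        exact beh_cos hz0 hz1
      · positivity
      · exact (exp_pos _).le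
    unfold bB
    nlinarith
  · intro s hs
    set z := -t - s with hz
    have hz0 : 0 ≤ z := by linarith [hs.2]
    have hs' : s = -(t + z) := by rw [hz]; ring
    rw [hs']
    refine (beh_Wm_left hm0 (by linarith)).trans (le_of_eq ?_)
    field_simp
    ring
  · intro s hs
    exact exp_le_one_iff.2 (pm_nonpos hm0 (by linarith [hs.2]))

/-- helper58's closed form: `E √(π/Bb)/2`, `E/(2Bb)`, `E √(π/Bb)/(4Bb)` -/
noncomputable def bH0 (q m ρ t : ℝ) : ℝ :=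
  exp (-(q * bA m ρ t * t ^ 2)) * √(π / (q * bB m ρ t)) / 2
noncomputable def bH1 (q m ρ t : ℝ) : ℝ :=
  exp (-(q * bA m ρ t * t ^ 2)) / (2 * (q * bB m ρ t))
noncomputable def bH2 (q m ρ t : ℝ) : ℝ :=
  exp (-(q * bA m ρ t * t ^ 2)) * √(π / (q * bB m ρ t)) / (4 * (q * bB m ρ t))

/-- BEHIND, left, without the slope. -/
theorem zone_behind_L' {q m ρ t : ℝ} (hq : 0 < q) (hρ : 0 < ρ) (hm : ρ ≤ m) (ht : 0 ≤ t) :
    Zone q m ρ t 1 (Icc (-t - 6 / 5) (-t)) (bH0 q m ρ t)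
      ((t ^ 2 * bH0 q m ρ t + 2 * t * bH1 q m ρ t + bH2 q m ρ t) / m ^ 2 + bH2 q m ρ t)
      (bH0 q m ρ t) := by
  have hm0 : 0 < m := hρ.trans_le hm
  have h := zone_behind_L hq hρ hm ht
  have hl : h0 (q * (2 * bA m ρ t * t)) (q * bB m ρ t) ≤ √(π / (q * bB m ρ t)) / 2 :=
    min_le_left _ _
  have hp := exp_pos (-(q * (bA m ρ t * t ^ 2)))
  have e : -(q * bA m ρ t * t ^ 2) = -(q * (bA m ρ t * t ^ 2)) := by ring
  have k0 : exp (-(q * (bA m ρ t * t ^ 2))) * h0 (q * (2 * bA m ρ t * t)) (q * bB m ρ t) ≤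
      bH0 q m ρ t := by
    unfold bH0
    rw [e, mul_div_assoc]
    exact mul_le_mul_of_nonneg_left hl hp.le
  refine ⟨h.i0.trans (ENNReal.ofReal_le_ofReal k0), h.iW.trans (ENNReal.ofReal_le_ofReal ?_),
    h.ie.trans (ENNReal.ofReal_le_ofReal k0)⟩
  have e1 : (t ^ 2 * bH0 q m ρ t + 2 * t * bH1 q m ρ t + bH2 q m ρ t) / m ^ 2 + bH2 q m ρ t =
      (t / m) ^ 2 * bH0 q m ρ t + exp (-(q * (bA m ρ t * t ^ 2))) *
        (2 * t / m ^ 2 * h1 (q * bB m ρ t) + (1 / m ^ 2 + 1) * h2 (q * bB m ρ t)) := by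
    unfold bH1 bH2 h1 h2
    rw [e]
    field_simp
    ring
  rw [e1]
  have k1 := mul_le_mul_of_nonneg_left k0 (sq_nonneg (t / m))
  linarith

end SokalCen
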