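import Pool.Agent.Lib_MP_af4de1_v3.CenDef
import Pool.Agent.Lib_MP_af4de1_fa.FrE
import Pool.Agent.Lib_MP_af4de1_f1.GTay

/-!
# CEN: the Gaussian integrals of `CenDef`: `g0`, `gW`, `h0`, `h1`, `h2`

Moments on the half line: `∫_(0,∞) (c0 + c1 z + c2 z²) e^(-b z²) = c0 G/2 + c1/(2b) + c2 G/(4b)`, `G = √(π/b)`.
-/

set_option autoImplicit false

namespace SokalCen

open Real MeasureTheory Set

/-! ## half line moments -/

private theorem cg_i0 {b : ℝ} (hb : 0 < b) :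
    IntegrableOn (fun z : ℝ => exp (-(b * z ^ 2))) (Ioi 0) := by
  have h := (integrable_exp_neg_mul_sq hb).integrableOn (s := Ioi (0 : ℝ))
  refine h.congr_fun (fun z _ => ?_) measurableSet_Ioi
  simp only [neg_mul]

private theorem cg_v0 (b : ℝ) : ∫ z in Ioi (0 : ℝ), exp (-(b * z ^ 2)) = √(π / b) / 2 := by
  rw [← integral_gaussian_Ioi b]
  refine setIntegral_congr_fun measurableSet_Ioi fun z _ => ?_
  simp only [neg_mul]

private theorem cg_i1 {b : ℝ} (hb : 0 < b) :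
    IntegrableOn (fun z : ℝ => z * exp (-(b * z ^ 2))) (Ioi 0) := by
  have h := (integrable_rpow_mul_exp_neg_mul_sq hb (s := 1) (by norm_num)).integrableOn
    (s := Ioi (0 : ℝ))
  refine h.congr_fun (fun z _ => ?_) measurableSet_Ioi
  simp only [neg_mul, rpow_one]

private theorem cg_v1 {b : ℝ} (hb : 0 < b) :
    ∫ z in Ioi (0 : ℝ), z * exp (-(b * z ^ 2)) = 1 / (2 * b) := by
  have h := integral_rpow_mul_exp_neg_mul_rpow (p := 2) (q := 1) (by norm_num) (by norm_num) hb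
  have e : ∫ z in Ioi (0 : ℝ), z * exp (-(b * z ^ 2)) =
      ∫ z in Ioi (0 : ℝ), z ^ (1 : ℝ) * exp (-b * z ^ (2 : ℝ)) := by
    refine setIntegral_congr_fun measurableSet_Ioi fun z _ => ?_
    simp only [neg_mul, rpow_one, rpow_two]
  rw [e, h]
  norm_num [Real.Gamma_one]
  rw [rpow_neg_one]

private theorem cg_i2 {b : ℝ} (hb : 0 < b) :
    IntegrableOn (fun z : ℝ => z ^ 2 * exp (-(b * z ^ 2))) (Ioi 0) := by
  have h := (integrable_rpow_mul_exp_neg_mul_sq hb (s := 2) (by norm_num)).integrableOn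
    (s := Ioi (0 : ℝ))
  refine h.congr_fun (fun z _ => ?_) measurableSet_Ioi
  simp only [neg_mul, rpow_two]

private theorem cg_v2 {b : ℝ} (hb : 0 < b) :
    ∫ z in Ioi (0 : ℝ), z ^ 2 * exp (-(b * z ^ 2)) = √(π / b) / (4 * b) := by
  have h := integral_rpow_mul_exp_neg_mul_rpow (p := 2) (q := 2) (by norm_num) (by norm_num) hb
  have e : ∫ z in Ioi (0 : ℝ), z ^ 2 * exp (-(b * z ^ 2)) =
      ∫ z in Ioi (0 : ℝ), z ^ (2 : ℝ) * exp (-b * z ^ (2 : ℝ)) := by
    refine setIntegral_congr_fun measurableSet_Ioi fun z _ => ?_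
    simp only [neg_mul, rpow_two]
  have hG : Gamma ((2 + 1) / 2) = √π / 2 := by
    have : ((2 : ℝ) + 1) / 2 = 1 / 2 + 1 := by norm_num
    rw [this, Real.Gamma_add_one (by norm_num), Real.Gamma_one_half_eq]
    ring
  have hs : 0 < √b := sqrt_pos.2 hb
  have hr : b ^ (-(2 + 1) / 2 : ℝ) = 1 / (b * √b) := by
    have e1 : (-(2 + 1) / 2 : ℝ) = -(1 + 1 / 2) := by norm_num
    rw [e1, rpow_neg hb.le, rpow_add hb, rpow_one, ← sqrt_eq_rpow]
    simp
  rw [e, h, hG, hr, sqrt_div pi_pos.le]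
  field_simp
  ring

private theorem cg_int {b : ℝ} (c0 c1 c2 : ℝ) (hb : 0 < b) :
    IntegrableOn (fun z : ℝ => (c0 + c1 * z + c2 * z ^ 2) * exp (-(b * z ^ 2))) (Ioi 0) ∧
    ∫ z in Ioi (0 : ℝ), (c0 + c1 * z + c2 * z ^ 2) * exp (-(b * z ^ 2)) =
      c0 * (√(π / b) / 2) + c1 * (1 / (2 * b)) + c2 * (√(π / b) / (4 * b)) := by
  have i0 := (cg_i0 hb).const_mul c0
  have i1 := (cg_i1 hb).const_mul c1
  have i2 := (cg_i2 hb).const_mul c2
  have i01 : IntegrableOn (fun z : ℝ => c0 * exp (-(b * z ^ 2)) + c1 * (z * exp (-(b * z ^ 2))))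
      (Ioi 0) := Integrable.add i0 i1
  have e : (fun z : ℝ => (c0 + c1 * z + c2 * z ^ 2) * exp (-(b * z ^ 2))) =
      fun z : ℝ => (c0 * exp (-(b * z ^ 2)) + c1 * (z * exp (-(b * z ^ 2)))) +
        c2 * (z ^ 2 * exp (-(b * z ^ 2))) := by
    funext z
    ring
  rw [e]
  refine ⟨Integrable.add i01 i2, ?_⟩
  rw [integral_add i01 i2, integral_add i0 i1,
    integral_const_mul, integral_const_mul, integral_const_mul, cg_v0, cg_v1 hb, cg_v2 hb]

theorem half_nonneg {b c0 c1 c2 : ℝ} (hb : 0 < b)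
    (h0 : ∀ z : ℝ, 0 < z → 0 ≤ c0 + c1 * z + c2 * z ^ 2) :
    0 ≤ c0 * (√(π / b) / 2) + c1 * (1 / (2 * b)) + c2 * (√(π / b) / (4 * b)) := by
  rw [← (cg_int c0 c1 c2 hb).2]
  exact setIntegral_nonneg measurableSet_Ioi fun z hz => mul_nonneg (h0 z hz) (exp_pos _).le

/-- THE HALF LINE MOMENTS. -/
theorem half_le {b c0 c1 c2 : ℝ} {F : ℝ → ℝ} (hb : 0 < b)
    (h0 : ∀ z : ℝ, 0 < z → 0 ≤ c0 + c1 * z + c2 * z ^ 2)
    (hF : ∀ z : ℝ, 0 < z → F z ≤ (c0 + c1 * z + c2 * z ^ 2) * exp (-(b * z ^ 2))) :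
    ∫⁻ z in Ioi (0 : ℝ), ENNReal.ofReal (F z) ≤
      ENNReal.ofReal (c0 * (√(π / b) / 2) + c1 * (1 / (2 * b)) + c2 * (√(π / b) / (4 * b))) := by
  have hi := (cg_int c0 c1 c2 hb).1
  have hv := (cg_int c0 c1 c2 hb).2
  rw [← hv, ofReal_integral_eq_lintegral_ofReal hi]
  · refine setLIntegral_mono' measurableSet_Ioi fun z hz => ENNReal.ofReal_le_ofReal (hF z hz)
  · refine (ae_restrict_iff' measurableSet_Ioi).2 (Filter.Eventually.of_forall fun z hz => ?_)
    exact mul_nonneg (h0 z hz) (exp_pos _).le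

/-! ## transformations -/

theorem lint_neg (F : ℝ → ENNReal) (s : Set ℝ) :
    ∫⁻ x in (fun x : ℝ => -x) ⁻¹' s, F (-x) = ∫⁻ x in s, F x :=
  (Measure.measurePreserving_neg (volume : Measure ℝ)).setLIntegral_comp_preimage_emb
    (Homeomorph.neg ℝ).isClosedEmbedding.measurableEmbedding F s

theorem lint_shift (F : ℝ → ENNReal) (c : ℝ) (s : Set ℝ) :
    ∫⁻ x in (fun x : ℝ => x + c) ⁻¹' s, F (x + c) = ∫⁻ x in s, F x :=
  (measurePreserving_add_right (volume : Measure ℝ) c).setLIntegral_comp_preimage_emb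
    (measurableEmbedding_addRight c) F s

/-- `∫_(c,∞) F(s) = ∫_(0,∞) F(z + c)` -/
theorem lint_Ioi (F : ℝ → ENNReal) (c : ℝ) :
    ∫⁻ s in Ioi c, F s = ∫⁻ z in Ioi (0 : ℝ), F (z + c) := by
  have h := lint_shift F c (Ioi c)
  have hs : (fun x : ℝ => x + c) ⁻¹' Ioi c = Ioi 0 := by
    ext x
    simp
  rw [hs] at h
  exact h.symm

/-- `∫_(-∞,c) F(s) = ∫_(0,∞) F(c - z)` -/
theorem lint_Iio (F : ℝ → ENNReal) (c : ℝ) :
    ∫⁻ s in Iio c, F s = ∫⁻ z in Ioi (0 : ℝ), F (c - z) := by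
  have h := lint_neg F (Iio c)
  have hs : (fun x : ℝ => -x) ⁻¹' Iio c = Ioi (-c) := by
    ext x
    constructor
    · intro hx
      have hx' : -x < c := hx
      show -c < x
      linarith
    · intro hx
      have hx' : -c < x := hx
      show -x < c
      linarith
  rw [hs, lint_Ioi] at h
  rw [← h]
  refine lintegral_congr fun z => ?_
  congr 1
  ring

/-- `∫_[a,b] F(s) = ∫_[-b,-a] F(-s)` -/
theorem lint_Icc_neg (F : ℝ → ENNReal) (a b : ℝ) :
    ∫⁻ s in Icc a b, F s = ∫⁻ v in Icc (-b) (-a), F (-v) := by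
  have h := lint_neg F (Icc a b)
  have hs : (fun x : ℝ => -x) ⁻¹' Icc a b = Icc (-b) (-a) := by
    ext x
    constructor
    · intro hx
      have hx' : a ≤ -x ∧ -x ≤ b := hx
      exact ⟨by linarith [hx'.2], by linarith [hx'.1]⟩
    · intro hx
      have hx' : -b ≤ x ∧ x ≤ -a := hx
      exact ⟨by linarith [hx'.2], by linarith [hx'.1]⟩
  rw [hs] at h
  exact h.symm

/-! ## the full two-term Gaussian -/

private theorem cg_split {q A B : ℝ} (hA : 0 < A) (hB : 0 < B) (t l v : ℝ) :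
    exp (-(q * (A * v ^ 2 + B * (t - v) ^ 2 - l))) =
      exp (-(q * (A * B * t ^ 2 / (A + B) - l))) * exp (-(q * (A + B) * (v - gv A B t) ^ 2)) := by
  have hAB : 0 < A + B := add_pos hA hB
  rw [← exp_add]
  congr 1
  unfold gv
  field_simp
  ring

theorem gv_nonneg {A B t : ℝ} (hA : 0 < A) (hB : 0 < B) (ht : 0 ≤ t) : 0 ≤ gv A B t := by
  unfold gv
  positivity

theorem gv_le {A B t : ℝ} (hA : 0 < A) (hB : 0 < B) (ht : 0 ≤ t) : gv A B t ≤ t := by
  unfold gv
  rw [div_le_iff₀ (add_pos hA hB)]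
  nlinarith [mul_nonneg hA.le ht]

private theorem cg_right {q A B t w : ℝ} (hq : 0 < q) (hA : 0 < A) (hB : 0 < B) (ht : 0 ≤ t)
    (hw : 0 ≤ w) :
    ∫⁻ v in Ioc (gv A B t) t, ENNReal.ofReal (w * exp (-(q * (A + B) * (v - gv A B t) ^ 2))) ≤
      ENNReal.ofReal (gr q A B t * w) := by
  have hAB : 0 < A + B := add_pos hA hB
  have hb : 0 < q * (A + B) := mul_pos hq hAB
  have hgv := gv_le hA hB ht
  unfold gr
  have h1 : ∫⁻ v in Ioc (gv A B t) t,
      ENNReal.ofReal (w * exp (-(q * (A + B) * (v - gv A B t) ^ 2))) ≤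
        ENNReal.ofReal (gG q A B / 2 * w) := by
    refine (lintegral_mono_set (Ioc_subset_Ioi_self : Ioc (gv A B t) t ⊆ Ioi (gv A B t))).trans ?_
    rw [lint_Ioi]
    refine (half_le (c0 := w) (c1 := 0) (c2 := 0) hb (fun z hz => by simpa using hw)
      (fun z hz => by simp)).trans (le_of_eq ?_)
    congr 1
    unfold gG
    ring
  have h2 : ∫⁻ v in Ioc (gv A B t) t,
      ENNReal.ofReal (w * exp (-(q * (A + B) * (v - gv A B t) ^ 2))) ≤
        ENNReal.ofReal ((t - gv A B t) * w) := by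
    calc ∫⁻ v in Ioc (gv A B t) t,
          ENNReal.ofReal (w * exp (-(q * (A + B) * (v - gv A B t) ^ 2)))
        ≤ ∫⁻ v in Ioc (gv A B t) t, ENNReal.ofReal w := by
          refine lintegral_mono fun s => ENNReal.ofReal_le_ofReal ?_
          have h3 : exp (-(q * (A + B) * (s - gv A B t) ^ 2)) ≤ 1 :=
            exp_le_one_iff.2 (by have : 0 ≤ q * (A + B) * (s - gv A B t) ^ 2 := by positivity
                                 linarith)
          nlinarith
      _ = ENNReal.ofReal ((t - gv A B t) * w) := by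
          rw [setLIntegral_const, Real.volume_Ioc, ← ENNReal.ofReal_mul hw, mul_comm w]
  rcases le_total (gG q A B / 2) (t - gv A B t) with h | h
  · rwa [min_eq_left h]
  · rwa [min_eq_right h]

/-- the basic form: the weight `W v` on `[0, t]`, majorised on the two halves -/
private theorem cg_main {q A B t l c0 c1 c2 w : ℝ} {W : ℝ → ℝ} (hq : 0 < q) (hA : 0 < A) (hB : 0 < B)
    (ht : 0 ≤ t) (hW : ∀ v, 0 ≤ v → v ≤ t → 0 ≤ W v)
    (hL : ∀ z, 0 < z → 0 ≤ c0 + c1 * z + c2 * z ^ 2)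
    (hL' : ∀ z, 0 ≤ z → z ≤ gv A B t → W (gv A B t - z) ≤ c0 + c1 * z + c2 * z ^ 2)
    (hw : 0 ≤ w) (hR : ∀ v, gv A B t ≤ v → v ≤ t → W v ≤ w) :
    ∫⁻ v in Icc 0 t, ENNReal.ofReal (W v * exp (-(q * (A * v ^ 2 + B * (t - v) ^ 2 - l)))) ≤
      ENNReal.ofReal ((c0 * (gG q A B / 2) + c1 * gs q A B + c2 * (gG q A B / 2 * gs q A B) +
        gr q A B t * w) * exp (-(q * (A * B * t ^ 2 / (A + B) - l)))) := by
  have hAB : 0 < A + B := add_pos hA hB
  have hb : 0 < q * (A + B) := mul_pos hq hAB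
  have hgv := gv_le hA hB ht
  have hgv0 := gv_nonneg hA hB ht
  set K := exp (-(q * (A * B * t ^ 2 / (A + B) - l))) with hK
  have hK0 : 0 < K := exp_pos _
  have hpt : ∀ v : ℝ, ENNReal.ofReal (W v * exp (-(q * (A * v ^ 2 + B * (t - v) ^ 2 - l)))) =
      ENNReal.ofReal K * ENNReal.ofReal (W v * exp (-(q * (A + B) * (v - gv A B t) ^ 2))) := by
    intro v
    rw [← ENNReal.ofReal_mul hK0.le, cg_split hA hB]
    congr 1
    ring
  have hsub : Icc 0 t ⊆ Icc 0 (gv A B t) ∪ Ioc (gv A B t) t := by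
    intro s hs
    rcases le_or_gt s (gv A B t) with h | h
    · exact Or.inl ⟨hs.1, h⟩
    · exact Or.inr ⟨h, hs.2⟩
  have hleft : ∫⁻ v in Icc 0 (gv A B t),
      ENNReal.ofReal (W v * exp (-(q * (A + B) * (v - gv A B t) ^ 2))) ≤
        ENNReal.ofReal (c0 * (gG q A B / 2) + c1 * gs q A B + c2 * (gG q A B / 2 * gs q A B)) := by
    have e1 : ∫⁻ v in Icc 0 (gv A B t),
        ENNReal.ofReal (W v * exp (-(q * (A + B) * (v - gv A B t) ^ 2))) ≤
          ∫⁻ v in Iic (gv A B t), (Icc 0 (gv A B t)).indicator (fun v =>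
            ENNReal.ofReal (W v * exp (-(q * (A + B) * (v - gv A B t) ^ 2)))) v := by
      rw [lintegral_indicator measurableSet_Icc, Measure.restrict_restrict measurableSet_Icc,
        inter_eq_self_of_subset_left Icc_subset_Iic_self]
    refine e1.trans ?_
    rw [setLIntegral_congr (Iio_ae_eq_Iic (μ := volume) (a := gv A B t)).symm, lint_Iio]
    have e2 : ∀ z ∈ Ioi (0 : ℝ), (Icc 0 (gv A B t)).indicator (fun v =>
        ENNReal.ofReal (W v * exp (-(q * (A + B) * (v - gv A B t) ^ 2)))) (gv A B t - z) ≤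
        ENNReal.ofReal ((c0 + c1 * z + c2 * z ^ 2) * exp (-(q * (A + B) * z ^ 2))) := by
      intro z hz
      by_cases hin : gv A B t - z ∈ Icc 0 (gv A B t)
      · rw [indicator_of_mem hin]
        refine ENNReal.ofReal_le_ofReal ?_
        have : gv A B t - z - gv A B t = -z := by ring
        rw [this, neg_sq]
        exact mul_le_mul_of_nonneg_right (hL' z (le_of_lt hz) (by linarith [hin.1])) (exp_pos _).le
      · rw [indicator_of_notMem hin]
        exact zero_le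
    refine (setLIntegral_mono' measurableSet_Ioi e2).trans ?_
    refine (half_le (c0 := c0) (c1 := c1) (c2 := c2) hb hL fun z hz => le_rfl).trans (le_of_eq ?_)
    congr 1
    unfold gG gs
    have hne : q * (A + B) ≠ 0 := hb.ne'
    field_simp
    ring
  have hright : ∫⁻ v in Ioc (gv A B t) t,
      ENNReal.ofReal (W v * exp (-(q * (A + B) * (v - gv A B t) ^ 2))) ≤
        ENNReal.ofReal (gr q A B t * w) := by
    refine le_trans ?_ (cg_right hq hA hB ht hw)
    refine setLIntegral_mono' measurableSet_Ioc fun v hv => ENNReal.ofReal_le_ofReal ?_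
    exact mul_le_mul_of_nonneg_right (hR v hv.1.le hv.2) (exp_pos _).le
  have hc : 0 ≤ c0 * (gG q A B / 2) + c1 * gs q A B + c2 * (gG q A B / 2 * gs q A B) := by
    have h := half_nonneg hb hL
    have e : c0 * (√(π / (q * (A + B))) / 2) + c1 * (1 / (2 * (q * (A + B)))) +
        c2 * (√(π / (q * (A + B))) / (4 * (q * (A + B)))) =
        c0 * (gG q A B / 2) + c1 * gs q A B + c2 * (gG q A B / 2 * gs q A B) := by
      unfold gG gs
      have hne : q * (A + B) ≠ 0 := hb.ne'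
      field_simp
      ring
    rwa [e] at h
  have hgr : 0 ≤ gr q A B t := by
    unfold gr gG
    exact le_min (by positivity) (by linarith)
  calc ∫⁻ v in Icc 0 t, ENNReal.ofReal (W v * exp (-(q * (A * v ^ 2 + B * (t - v) ^ 2 - l))))
      ≤ ∫⁻ v in Icc 0 (gv A B t) ∪ Ioc (gv A B t) t,
          ENNReal.ofReal (W v * exp (-(q * (A * v ^ 2 + B * (t - v) ^ 2 - l)))) :=
        lintegral_mono_set hsub
    _ = ∫⁻ v in Icc 0 (gv A B t) ∪ Ioc (gv A B t) t, ENNReal.ofReal K *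
          ENNReal.ofReal (W v * exp (-(q * (A + B) * (v - gv A B t) ^ 2))) :=
        lintegral_congr fun v => hpt v
    _ = ENNReal.ofReal K * ∫⁻ v in Icc 0 (gv A B t) ∪ Ioc (gv A B t) t,
          ENNReal.ofReal (W v * exp (-(q * (A + B) * (v - gv A B t) ^ 2))) :=
        lintegral_const_mul' _ _ ENNReal.ofReal_ne_top
    _ ≤ ENNReal.ofReal K * (ENNReal.ofReal (c0 * (gG q A B / 2) + c1 * gs q A B +
          c2 * (gG q A B / 2 * gs q A B)) + ENNReal.ofReal (gr q A B t * w)) :=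
        mul_le_mul_right ((lintegral_union_le _ _ _).trans (add_le_add hleft hright)) _
    _ = _ := by
        rw [← ENNReal.ofReal_add hc (mul_nonneg hgr hw), ← ENNReal.ofReal_mul hK0.le]
        congr 1
        ring

/-- `∫_[0,t] exp(-q (A v² + B (t-v)² - l)) ≤ g0` -/
theorem g0_le {q A B t l : ℝ} (hq : 0 < q) (hA : 0 < A) (hB : 0 < B) (ht : 0 ≤ t) :
    ∫⁻ v in Icc 0 t, ENNReal.ofReal (exp (-(q * (A * v ^ 2 + B * (t - v) ^ 2 - l)))) ≤
      ENNReal.ofReal (g0 q A B t l) := by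
  have h := cg_main (l := l) (c0 := 1) (c1 := 0) (c2 := 0) (w := 1) (W := fun _ => 1) hq hA hB ht
    (fun v _ _ => by norm_num) (fun z _ => by norm_num) (fun z _ _ => by norm_num) (by norm_num)
    (fun v _ _ => le_rfl)
  simp only [one_mul, zero_mul, add_zero, mul_one] at h
  exact h

private theorem cg_full {q A B t l a0 a1 a2 : ℝ} (hq : 0 < q) (hA : 0 < A) (hB : 0 < B)
    (h0 : 0 ≤ a0) (h1 : 0 ≤ a1) (h2 : 0 ≤ a2) :
    ∫⁻ v : ℝ, ENNReal.ofReal ((a0 + a1 * v ^ 2 + a2 * (t - v) ^ 2) *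
        exp (-(q * (A * v ^ 2 + B * (t - v) ^ 2 - l)))) ≤
      ENNReal.ofReal (gG q A B * (a0 + a1 * (gv A B t ^ 2 + gs q A B) +
        a2 * ((t - gv A B t) ^ 2 + gs q A B)) * exp (-(q * (A * B * t ^ 2 / (A + B) - l)))) := by
  have hAB : 0 < A + B := add_pos hA hB
  have hb : 0 < q * (A + B) := mul_pos hq hAB
  set K := exp (-(q * (A * B * t ^ 2 / (A + B) - l))) with hK
  have hK0 : 0 < K := exp_pos _
  set c := gv A B t with hc
  set F : ℝ → ENNReal := fun v => ENNReal.ofReal ((a0 + a1 * v ^ 2 + a2 * (t - v) ^ 2) *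
    exp (-(q * (A + B) * (v - c) ^ 2))) with hF
  have hpt : ∀ v : ℝ, ENNReal.ofReal ((a0 + a1 * v ^ 2 + a2 * (t - v) ^ 2) *
      exp (-(q * (A * v ^ 2 + B * (t - v) ^ 2 - l)))) = ENNReal.ofReal K * F v := by
    intro v
    rw [hF, ← ENNReal.ofReal_mul hK0.le, cg_split hA hB]
    congr 1
    ring
  have hW : ∀ v : ℝ, 0 ≤ a0 + a1 * v ^ 2 + a2 * (t - v) ^ 2 := fun v => by positivity
  have hsp : ∫⁻ v : ℝ, F v ≤ ENNReal.ofReal (gG q A B * (a0 + a1 * (c ^ 2 + gs q A B) +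
      a2 * ((t - c) ^ 2 + gs q A B))) := by
    have e1 := lintegral_add_compl (μ := (volume : Measure ℝ)) F (measurableSet_Ioi (a := c))
    rw [compl_Ioi, setLIntegral_congr (Iio_ae_eq_Iic (μ := volume) (a := c)).symm, lint_Iio,
      lint_Ioi] at e1
    have hm : Measurable fun z : ℝ => F (z + c) := by
      rw [hF]
      fun_prop
    rw [← e1, ← lintegral_add_left hm]
    have e2 : ∀ z ∈ Ioi (0 : ℝ), F (z + c) + F (c - z) =
        ENNReal.ofReal ((2 * (a0 + a1 * c ^ 2 + a2 * (t - c) ^ 2) + 0 * z + 2 * (a1 + a2) * z ^ 2) *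
          exp (-(q * (A + B) * z ^ 2))) := by
      intro z _
      rw [hF]
      simp only
      rw [← ENNReal.ofReal_add (mul_nonneg (hW _) (exp_pos _).le) (mul_nonneg (hW _) (exp_pos _).le)]
      congr 1
      have e3 : z + c - c = z := by ring
      have e4 : c - z - c = -z := by ring
      rw [e3, e4, neg_sq]
      ring
    rw [setLIntegral_congr_fun measurableSet_Ioi e2]
    refine (half_le (c0 := 2 * (a0 + a1 * c ^ 2 + a2 * (t - c) ^ 2)) (c1 := 0) (c2 := 2 * (a1 + a2))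
      hb (fun z _ => by positivity) fun z hz => le_rfl).trans (le_of_eq ?_)
    congr 1
    unfold gG gs
    have hne : q * (A + B) ≠ 0 := hb.ne'
    field_simp
    ring
  calc ∫⁻ v : ℝ, ENNReal.ofReal ((a0 + a1 * v ^ 2 + a2 * (t - v) ^ 2) *
        exp (-(q * (A * v ^ 2 + B * (t - v) ^ 2 - l)))) = ∫⁻ v : ℝ, ENNReal.ofReal K * F v :=
        lintegral_congr fun v => hpt v
    _ = ENNReal.ofReal K * ∫⁻ v : ℝ, F v := lintegral_const_mul' _ _ ENNReal.ofReal_ne_top
    _ ≤ ENNReal.ofReal K * ENNReal.ofReal (gG q A B * (a0 + a1 * (c ^ 2 + gs q A B) +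
      a2 * ((t - c) ^ 2 + gs q A B))) := mul_le_mul_right hsp _
    _ = _ := by
        rw [← ENNReal.ofReal_mul hK0.le]
        congr 1
        ring

/-- `∫_ℝ (a0 + a1 v² + a2 (t-v)²) exp(-q (A v² + B (t-v)² - l))`: exact second moments -/
theorem gfull_le {q A B t l a0 a1 a2 : ℝ} (hq : 0 < q) (hA : 0 < A) (hB : 0 < B)
    (h0 : 0 ≤ a0) (h1 : 0 ≤ a1) (h2 : 0 ≤ a2) :
    ∫⁻ v : ℝ, ENNReal.ofReal ((a0 + a1 * v ^ 2 + a2 * (t - v) ^ 2) *
        exp (-(q * (A * v ^ 2 + B * (t - v) ^ 2 - l)))) ≤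
      ENNReal.ofReal (gG q A B * (a0 + a1 * (gv A B t ^ 2 + gs q A B) +
        a2 * ((t - gv A B t) ^ 2 + gs q A B)) * exp (-(q * (A * B * t ^ 2 / (A + B) - l)))) :=
  cg_full hq hA hB h0 h1 h2

/-- `∫_[0,t] (a0 + a1 v² + a2 (t-v)²) exp(-q (A v² + B (t-v)² - l)) ≤ gW` -/
theorem gW_le {q A B t l a0 a1 a2 : ℝ} (hq : 0 < q) (hA : 0 < A) (hB : 0 < B) (ht : 0 ≤ t)
    (h0 : 0 ≤ a0) (h1 : 0 ≤ a1) (h2 : 0 ≤ a2) :
    ∫⁻ v in Icc 0 t, ENNReal.ofReal ((a0 + a1 * v ^ 2 + a2 * (t - v) ^ 2) *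
        exp (-(q * (A * v ^ 2 + B * (t - v) ^ 2 - l)))) ≤
      ENNReal.ofReal (gW q A B t l a0 a1 a2) := by
  have hAB : 0 < A + B := add_pos hA hB
  have hb : 0 < q * (A + B) := mul_pos hq hAB
  have hgv := gv_le hA hB ht
  have hgv0 := gv_nonneg hA hB ht
  have f1 : ∫⁻ v in Icc 0 t, ENNReal.ofReal ((a0 + a1 * v ^ 2 + a2 * (t - v) ^ 2) *
        exp (-(q * (A * v ^ 2 + B * (t - v) ^ 2 - l)))) ≤
      ENNReal.ofReal (gG q A B * (a0 + a1 * (gv A B t ^ 2 + gs q A B) +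
        a2 * ((t - gv A B t) ^ 2 + gs q A B)) * exp (-(q * (A * B * t ^ 2 / (A + B) - l)))) :=
    (setLIntegral_le_lintegral _ _).trans (cg_full hq hA hB h0 h1 h2)
  have f2 := cg_main (l := l) (c0 := a0 + a1 * gv A B t ^ 2 + a2 * (t - gv A B t) ^ 2)
    (c1 := 2 * a2 * (t - gv A B t)) (c2 := a1 + a2) (w := a0 + a1 * t ^ 2 + a2 * (t - gv A B t) ^ 2)
    (W := fun v => a0 + a1 * v ^ 2 + a2 * (t - v) ^ 2) hq hA hB ht
    (fun v _ _ => by positivity)
    (fun z hz => by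
      have : 0 ≤ t - gv A B t := by linarith
      positivity)
    (fun z hz hz2 => by
      have := mul_nonneg h1 (mul_nonneg hgv0 hz)
      nlinarith [this])
    (by positivity)
    (fun v hv hv2 => by
      have e1 : v ^ 2 ≤ t ^ 2 := pow_le_pow_left₀ (by linarith) hv2 2
      have e2 : (t - v) ^ 2 ≤ (t - gv A B t) ^ 2 := pow_le_pow_left₀ (by linarith) (by linarith) 2
      have e3 := mul_le_mul_of_nonneg_left e1 h1
      have e4 := mul_le_mul_of_nonneg_left e2 h2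
      linarith)
  have e5 : gs q A B = gG q A B / 2 * (2 * √(2 * gs q A B / π)) / 2 := by
    unfold gG gs
    have e6 : 2 * (1 / (2 * q * (A + B))) / π = 1 / (q * (A + B) * π) := by
      field_simp
    rw [e6, sqrt_div pi_pos.le, sqrt_div zero_le_one, sqrt_one, sqrt_mul hb.le]
    have hs1 : 0 < √(q * (A + B)) := sqrt_pos.2 hb
    have hs2 : 0 < √π := sqrt_pos.2 pi_pos
    have hs3 : √(q * (A + B)) ^ 2 = q * (A + B) := sq_sqrt hb.le
    field_simp
    rw [hs3]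
  have e7 : ((a0 + a1 * gv A B t ^ 2 + a2 * (t - gv A B t) ^ 2) * (gG q A B / 2) +
      2 * a2 * (t - gv A B t) * gs q A B + (a1 + a2) * (gG q A B / 2 * gs q A B) +
        gr q A B t * (a0 + a1 * t ^ 2 + a2 * (t - gv A B t) ^ 2)) =
      gG q A B / 2 * (a0 + a1 * (gv A B t ^ 2 + gs q A B) +
        a2 * ((t - gv A B t) ^ 2 + 2 * (t - gv A B t) * √(2 * gs q A B / π) + gs q A B)) +
      gr q A B t * (a0 + a1 * t ^ 2 + a2 * (t - gv A B t) ^ 2) := by
    linear_combination (2 * a2 * (t - gv A B t)) * e5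
  rw [e7] at f2
  unfold gW
  rcases le_total (gG q A B * (a0 + a1 * (gv A B t ^ 2 + gs q A B) +
        a2 * ((t - gv A B t) ^ 2 + gs q A B))) (gG q A B / 2 * (a0 + a1 * (gv A B t ^ 2 + gs q A B) +
        a2 * ((t - gv A B t) ^ 2 + 2 * (t - gv A B t) * √(2 * gs q A B / π) + gs q A B)) +
      gr q A B t * (a0 + a1 * t ^ 2 + a2 * (t - gv A B t) ^ 2)) with h | h
  · rw [min_eq_left h]
    exact f1
  · rw [min_eq_right h]
    exact f2

/-! ## half Gaussians with a slope -/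

/-- `∫_[0,∞) e^(-b z - B z²) ≤ h0` -/
theorem h0_le {b B : ℝ} (hb : 0 ≤ b) (hB : 0 < B) :
    ∫⁻ z in Ioi (0 : ℝ), ENNReal.ofReal (exp (-(b * z + B * z ^ 2))) ≤
      ENNReal.ofReal (SokalCen.h0 b B) := by
  have f1 : ∫⁻ z in Ioi (0 : ℝ), ENNReal.ofReal (exp (-(b * z + B * z ^ 2))) ≤
      ENNReal.ofReal (√(π / B) / 2) := by
    refine (half_le (c0 := 1) (c1 := 0) (c2 := 0) hB (fun z _ => by norm_num) fun z hz => ?_).trans
      (le_of_eq ?_)
    · simp only [zero_mul, add_zero, one_mul]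
      refine exp_le_exp.2 ?_
      have := mul_nonneg hb (le_of_lt hz)
      linarith
    · congr 1
      ring
  have f2 : ∫⁻ z in Ioi (0 : ℝ), ENNReal.ofReal (exp (-(b * z + B * z ^ 2))) ≤
      ENNReal.ofReal (√(π / B) / 2 - b / (2 * B) + b ^ 2 * √(π / B) / (8 * B)) := by
    refine (half_le (c0 := 1) (c1 := -b) (c2 := b ^ 2 / 2) hB (fun z _ => by
      nlinarith [sq_nonneg (b * z - 1)]) fun z hz => ?_).trans (le_of_eq ?_)
    · have h1 := SokalF1G.en_le2 (x := b * z) (mul_nonneg hb (le_of_lt hz))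
      have e : exp (-(b * z + B * z ^ 2)) = exp (-(b * z)) * exp (-(B * z ^ 2)) := by
        rw [← exp_add]
        congr 1
        ring
      rw [e]
      refine mul_le_mul_of_nonneg_right (h1.trans (le_of_eq (by ring))) (exp_pos _).le
    · congr 1
      field_simp
      ring
  unfold SokalCen.h0
  rcases le_total (√(π / B) / 2) (√(π / B) / 2 - b / (2 * B) + b ^ 2 * √(π / B) / (8 * B)) with h | h
  · rwa [min_eq_left h]
  · rwa [min_eq_right h]

/-- `∫_[0,∞) z e^(-B z²) = h1` -/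
theorem h1_le {b B : ℝ} (hb : 0 ≤ b) (hB : 0 < B) :
    ∫⁻ z in Ioi (0 : ℝ), ENNReal.ofReal (z * exp (-(b * z + B * z ^ 2))) ≤
      ENNReal.ofReal (SokalCen.h1 B) := by
  refine (half_le (c0 := 0) (c1 := 1) (c2 := 0) hB (fun z hz => by simpa using le_of_lt hz)
    fun z hz => ?_).trans (le_of_eq ?_)
  · simp only [zero_add, one_mul, zero_mul, add_zero]
    refine mul_le_mul_of_nonneg_left (exp_le_exp.2 ?_) (le_of_lt hz)
    have := mul_nonneg hb (le_of_lt hz)
    linarith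
  · unfold SokalCen.h1
    congr 1
    ring

/-- `∫_[0,∞) z² e^(-B z²) = h2` -/
theorem h2_le {b B : ℝ} (hb : 0 ≤ b) (hB : 0 < B) :
    ∫⁻ z in Ioi (0 : ℝ), ENNReal.ofReal (z ^ 2 * exp (-(b * z + B * z ^ 2))) ≤
      ENNReal.ofReal (SokalCen.h2 B) := by
  refine (half_le (c0 := 0) (c1 := 0) (c2 := 1) hB (fun z hz => by simpa using sq_nonneg z)
    fun z hz => ?_).trans (le_of_eq ?_)
  · simp only [zero_add, one_mul, zero_mul]
    refine mul_le_mul_of_nonneg_left (exp_le_exp.2 ?_) (sq_nonneg z)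
    have := mul_nonneg hb (le_of_lt hz)
    linarith
  · unfold SokalCen.h2
    congr 1
    ring

/-- all three at once: weight `a0 + a1 z + a2 z²` -/
theorem hW_le {b B a0 a1 a2 : ℝ} (hb : 0 ≤ b) (hB : 0 < B) (h0 : 0 ≤ a0) (h1 : 0 ≤ a1)
    (h2 : 0 ≤ a2) :
    ∫⁻ z in Ioi (0 : ℝ), ENNReal.ofReal ((a0 + a1 * z + a2 * z ^ 2) *
      exp (-(b * z + B * z ^ 2))) ≤
      ENNReal.ofReal (a0 * SokalCen.h0 b B + a1 * SokalCen.h1 B + a2 * SokalCen.h2 B) := by
  have hh0 : 0 ≤ SokalCen.h0 b B := by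
    unfold SokalCen.h0
    refine le_min (by positivity) ?_
    have := half_nonneg (c0 := 1) (c1 := -b) (c2 := b ^ 2 / 2) hB (fun z _ => by
      nlinarith [sq_nonneg (b * z - 1)])
    refine this.trans (le_of_eq ?_)
    field_simp
    ring
  have hh1 : 0 ≤ SokalCen.h1 B := by
    unfold SokalCen.h1
    positivity
  have hh2 : 0 ≤ SokalCen.h2 B := by
    unfold SokalCen.h2
    positivity
  have hm0 : Measurable fun z : ℝ => ENNReal.ofReal a0 * ENNReal.ofReal (exp (-(b * z + B * z ^ 2))) := by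
    fun_prop
  have hm1 : Measurable fun z : ℝ => ENNReal.ofReal a0 * ENNReal.ofReal (exp (-(b * z + B * z ^ 2))) +
      ENNReal.ofReal a1 * ENNReal.ofReal (z * exp (-(b * z + B * z ^ 2))) := by
    fun_prop
  calc ∫⁻ z in Ioi (0 : ℝ), ENNReal.ofReal ((a0 + a1 * z + a2 * z ^ 2) *
        exp (-(b * z + B * z ^ 2)))
      = ∫⁻ z in Ioi (0 : ℝ), ((ENNReal.ofReal a0 * ENNReal.ofReal (exp (-(b * z + B * z ^ 2))) +
          ENNReal.ofReal a1 * ENNReal.ofReal (z * exp (-(b * z + B * z ^ 2)))) +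
          ENNReal.ofReal a2 * ENNReal.ofReal (z ^ 2 * exp (-(b * z + B * z ^ 2)))) := by
        refine setLIntegral_congr_fun measurableSet_Ioi fun z hz => ?_
        have hz' : 0 ≤ z := le_of_lt hz
        have he : 0 ≤ exp (-(b * z + B * z ^ 2)) := (exp_pos _).le
        rw [← ENNReal.ofReal_mul h0, ← ENNReal.ofReal_mul h1, ← ENNReal.ofReal_mul h2,
          ← ENNReal.ofReal_add (by positivity) (by positivity),
          ← ENNReal.ofReal_add (by positivity) (by positivity)]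
        congr 1
        ring
    _ = ENNReal.ofReal a0 * (∫⁻ z in Ioi (0 : ℝ), ENNReal.ofReal (exp (-(b * z + B * z ^ 2)))) +
        ENNReal.ofReal a1 * (∫⁻ z in Ioi (0 : ℝ), ENNReal.ofReal (z * exp (-(b * z + B * z ^ 2)))) +
        ENNReal.ofReal a2 * (∫⁻ z in Ioi (0 : ℝ),
          ENNReal.ofReal (z ^ 2 * exp (-(b * z + B * z ^ 2)))) := by
        rw [lintegral_add_left hm1, lintegral_add_left hm0,
          lintegral_const_mul' _ _ ENNReal.ofReal_ne_top, lintegral_const_mul' _ _ ENNReal.ofReal_ne_top,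
          lintegral_const_mul' _ _ ENNReal.ofReal_ne_top]
    _ ≤ ENNReal.ofReal a0 * ENNReal.ofReal (SokalCen.h0 b B) +
        ENNReal.ofReal a1 * ENNReal.ofReal (SokalCen.h1 B) +
        ENNReal.ofReal a2 * ENNReal.ofReal (SokalCen.h2 B) :=
        add_le_add (add_le_add (mul_le_mul_right (h0_le hb hB) _) (mul_le_mul_right (h1_le hb hB) _))
          (mul_le_mul_right (h2_le hb hB) _)
    _ = _ := by
        rw [← ENNReal.ofReal_mul h0, ← ENNReal.ofReal_mul h1, ← ENNReal.ofReal_mul h2,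
          ← ENNReal.ofReal_add (by positivity) (by positivity),
          ← ENNReal.ofReal_add (by positivity) (by positivity)]

end SokalCen
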