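import Pool.Agent.Lib_MP_af4de1_v3.CenB
import Pool.Agent.Lib_MP_af4de1_v3.CenG

/-!
# CEN: the front zones (the side away from the wave) and the rest zone, base point `w = 1`

Left, `θ = t`, `0 < t ≤ 6/5`, `S = [0, 6/5 - t]`:
`q Dm ≥ q (1 - cos t) + frL s + q aR(m,ρ,1) s² + s/m`, `frL = q (sin t + (1 - cos t)/m) - 1/m`, `W ≤ e^(s/m) ((t+s)² + 9 s²/(8 m²))`.

Right, `θ = -t`, `S = [-(6/5 - t), 0]`, `s = -v`:
`q Dm ≥ q (1 - cos t) + frR v + q aL v²`, `frR = q (1 - cos t)/2`, `W ≤ (t+v)² + v²/m²`, `e^a ≤ 1`.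

Rest: `1 - cos (θ + s) ≥ 6336/10000`: `Dm ≥ 1/2`.
-/

set_option autoImplicit false

namespace SokalCen

open Real MeasureTheory Set

/-- the weight with the base point `1` -/
theorem fr_Wm_one (m θ s : ℝ) :
    Wm m θ 1 s = (exp (pm m s) - 1) ^ 2 + 2 * exp (pm m s) * (1 - cos (θ + s)) := by
  unfold Wm em
  set a := pm m s
  have e1 : ((a : ℂ) + ((θ : ℂ) + (s : ℂ)) * Complex.I) = (a : ℂ) + ((θ + s : ℝ) : ℂ) * Complex.I := by
    push_cast
    ring
  rw [e1, ← Complex.normSq_eq_norm_sq, Complex.normSq_apply]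
  have h1 : (Complex.exp ((a : ℂ) + ((θ + s : ℝ) : ℂ) * Complex.I) - 1).re =
      exp a * cos (θ + s) - 1 := by
    rw [Complex.sub_re, Complex.exp_re]
    simp only [Complex.add_re, Complex.add_im, Complex.mul_re, Complex.mul_im, Complex.ofReal_re,
      Complex.ofReal_im, Complex.I_re, Complex.I_im, Complex.one_re]
    ring_nf
  have h2 : (Complex.exp ((a : ℂ) + ((θ + s : ℝ) : ℂ) * Complex.I) - 1).im =
      exp a * sin (θ + s) := by
    rw [Complex.sub_im, Complex.exp_im]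
    simp only [Complex.add_re, Complex.add_im, Complex.mul_re, Complex.mul_im, Complex.ofReal_re,
      Complex.ofReal_im, Complex.I_re, Complex.I_im, Complex.one_im]
    ring_nf
  rw [h1, h2]
  have h3 := sin_sq_add_cos_sq (θ + s)
  linear_combination exp a ^ 2 * h3

/-- the half line integral over `[0, X]` -/
theorem fr_int {X K b B c0 c1 c2 : ℝ} {F : ℝ → ℝ} (hK : 0 ≤ K) (hb : 0 ≤ b) (hB : 0 < B)
    (h0 : 0 ≤ c0) (h1 : 0 ≤ c1) (h2 : 0 ≤ c2)
    (h : ∀ z : ℝ, 0 < z → z ≤ X → F z ≤ K * ((c0 + c1 * z + c2 * z ^ 2) *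
      exp (-(b * z + B * z ^ 2)))) :
    ∫⁻ z in Icc 0 X, ENNReal.ofReal (F z) ≤
      ENNReal.ofReal (K * (c0 * SokalCen.h0 b B + c1 * SokalCen.h1 B + c2 * SokalCen.h2 B)) := by
  calc ∫⁻ z in Icc 0 X, ENNReal.ofReal (F z) = ∫⁻ z in Ioc 0 X, ENNReal.ofReal (F z) :=
        (setLIntegral_congr Ioc_ae_eq_Icc).symm
    _ ≤ ∫⁻ z in Ioc 0 X, ENNReal.ofReal K * ENNReal.ofReal ((c0 + c1 * z + c2 * z ^ 2) *
          exp (-(b * z + B * z ^ 2))) :=
        setLIntegral_mono' measurableSet_Ioc fun z hz => by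
          rw [← ENNReal.ofReal_mul hK]
          exact ENNReal.ofReal_le_ofReal (h z hz.1 hz.2)
    _ ≤ ∫⁻ z in Ioi (0 : ℝ), ENNReal.ofReal K * ENNReal.ofReal ((c0 + c1 * z + c2 * z ^ 2) *
          exp (-(b * z + B * z ^ 2))) := lintegral_mono_set Ioc_subset_Ioi_self
    _ = ENNReal.ofReal K * ∫⁻ z in Ioi (0 : ℝ), ENNReal.ofReal ((c0 + c1 * z + c2 * z ^ 2) *
          exp (-(b * z + B * z ^ 2))) := lintegral_const_mul' _ _ ENNReal.ofReal_ne_top
    _ ≤ ENNReal.ofReal K * ENNReal.ofReal (c0 * SokalCen.h0 b B + c1 * SokalCen.h1 B +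
          c2 * SokalCen.h2 B) := mul_le_mul_right (hW_le hb hB h0 h1 h2) _
    _ = _ := (ENNReal.ofReal_mul hK).symm

/-- `1 - cos (t+s) ≥ 1 - cos t + s sin t` -/
theorem fr_cos {t s : ℝ} (ht : 0 ≤ t) (hs : 0 ≤ s) (h : t + s ≤ 6 / 5) :
    1 - cos t + s * sin t ≤ 1 - cos (t + s) := by
  rcases eq_or_lt_of_le hs with rfl | hs
  · simp
  have hpi : (6 / 5 : ℝ) ≤ π / 2 := by linarith [pi_gt_three]
  obtain ⟨c, hc, hc'⟩ := exists_hasDerivAt_eq_slope (f := cos) (f' := fun x => -sin x)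
    (a := t) (b := t + s) (by linarith) continuous_cos.continuousOn
    (fun x _ => hasDerivAt_cos x)
  have h1 : sin t ≤ sin c := sin_le_sin_of_le_of_le_pi_div_two (by linarith [pi_pos])
    (by linarith [hc.2]) hc.1.le
  have h2 : t + s - t = s := by ring
  rw [h2] at hc'
  have h3 : -sin c * s = cos (t + s) - cos t := by
    rw [hc']
    field_simp
  nlinarith

/-- the slope on the left -/
noncomputable def frL (q m t : ℝ) : ℝ := q * (sin t + (1 - cos t) / m) - 1 / m

/-- the slope on the right -/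
noncomputable def frR (q t : ℝ) : ℝ := q * ((1 - cos t) / 2)

theorem frL_nonneg {q m t : ℝ} (hq : 0 < q) (hm : 0 < m) (h : 1 ≤ q * m * sin t) :
    0 ≤ frL q m t := by
  unfold frL
  have h1 := cos_le_one t
  have h2 : 0 ≤ (1 - cos t) / m := div_nonneg (by linarith) hm.le
  have h3 : 1 / m ≤ q * sin t := by
    rw [div_le_iff₀ hm]
    linarith
  have h4 := mul_nonneg hq.le h2
  linarith

theorem frR_nonneg {q t : ℝ} (hq : 0 < q) : 0 ≤ frR q t := by
  unfold frR
  have h1 := cos_le_one t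
  exact mul_nonneg hq.le (by linarith)

private theorem fr_exp {a : ℝ} (h0 : 0 ≤ a) (h1 : a ≤ 1) :
    (exp a - 1) ^ 2 ≤ exp a * (9 / 8 * a ^ 2) := by
  have e1 := Real.exp_bound' h0 h1 (n := 4) (by norm_num)
  have e2 : exp a ≤ 1 + a + a ^ 2 / 2 + a ^ 3 / 6 + 5 * a ^ 4 / 96 := by
    refine e1.trans (le_of_eq ?_)
    norm_num [Finset.sum_range_succ, Nat.factorial]
    ring
  have e3 := Real.exp_bound (x := -a) (by rw [abs_neg, abs_of_nonneg h0]; exact h1) (n := 4)
    (by norm_num)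
  rw [abs_le] at e3
  have e4 : exp (-a) ≤ 1 - a + a ^ 2 / 2 - a ^ 3 / 6 + 5 * a ^ 4 / 96 := by
    have e5 := e3.2
    rw [abs_neg, abs_of_nonneg h0] at e5
    norm_num [Finset.sum_range_succ, Nat.factorial] at e5
    nlinarith [e5]
  have e6 : exp a * exp (-a) = 1 := by rw [← exp_add]; simp
  have e7 : (exp a - 1) ^ 2 = exp a * (exp a + exp (-a) - 2) := by
    linear_combination (-1 : ℝ) * e6
  rw [e7]
  refine mul_le_mul_of_nonneg_left ?_ (exp_pos a).le
  have h2 : a ^ 2 ≤ 1 := pow_le_one₀ h0 h1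
  have h3 : a ^ 4 ≤ a ^ 2 := by nlinarith [sq_nonneg a]
  nlinarith

/-- FRONT, left. -/
theorem zone_front_L {q m ρ t : ℝ} (hq : 0 < q) (hρ : 0 < ρ) (hm : ρ ≤ m) (hm1 : 5 / 4 ≤ m)
    (ht0 : 0 < t) (ht : t ≤ 6 / 5) (hqm : 1 ≤ q * m * sin t) :
    Zone q m ρ t 1 (Icc 0 (6 / 5 - t))
      (exp (-(q * (1 - cos t))) * h0 (frL q m t) (q * aR m ρ 1))
      (exp (-(q * (1 - cos t))) * (t ^ 2 * h0 (frL q m t) (q * aR m ρ 1) +
        2 * t * h1 (q * aR m ρ 1) + (1 + 9 / (8 * m ^ 2)) * h2 (q * aR m ρ 1)))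
      (exp (-(q * (1 - cos t))) * h0 (frL q m t) (q * aR m ρ 1)) := by
  have hm0 : 0 < m := by linarith
  have hA := aR_pos (T := 1) hρ hm (by norm_num) le_rfl
  have hB : 0 < q * aR m ρ 1 := mul_pos hq hA
  have hb := frL_nonneg hq hm0 hqm
  have hK : 0 ≤ exp (-(q * (1 - cos t))) := (exp_pos _).le
  have hpa : ∀ s : ℝ, 0 < s → s ≤ 6 / 5 - t → pm m s = s / m := by
    intro s hs hs'
    have h1 : s / m ≤ 1 := by
      rw [div_le_one hm0]
      linarith
    have h2 : 0 ≤ s / m := by positivity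
    unfold pm
    rw [min_eq_right h1, max_eq_right (by linarith)]
  have hD : ∀ s : ℝ, 0 < s → s ≤ 6 / 5 - t → q * (1 - cos t) + (frL q m t * s +
      q * aR m ρ 1 * s ^ 2) + s / m ≤ q * Dm m ρ t s := by
    intro s hs hs'
    have h1 : s / m ≤ 1 := by
      rw [div_le_one hm0]
      linarith
    have h2 := Qm_right (T := 1) hρ hm0 hs.le h1 le_rfl
    have h3 := fr_cos ht0.le hs.le (by linarith)
    have h4 := Real.add_one_le_exp (s / m)
    have h5 : 0 ≤ sin t := sin_nonneg_of_nonneg_of_le_pi ht0.le (by linarith [pi_gt_three])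
    have h6 : 0 ≤ 1 - cos t := by linarith [cos_le_one t]
    have h7 : 0 ≤ s / m := by positivity
    have h8 : (s / m + 1) * (1 - cos t + s * sin t) ≤ exp (s / m) * (1 - cos (t + s)) :=
      mul_le_mul h4 h3 (by positivity) (exp_pos _).le
    have h9 : 0 ≤ s / m * (s * sin t) := by positivity
    rw [Dm_eq, hpa s hs hs']
    have h10 : frL q m t * s = q * (s * sin t + s / m * (1 - cos t)) - s / m := by
      unfold frL
      field_simp
    rw [h10]
    have h11 : 1 - cos t + (s * sin t + s / m * (1 - cos t)) + aR m ρ 1 * s ^ 2 ≤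
        Qm m ρ s + exp (s / m) * (1 - cos (t + s)) := by nlinarith
    have h12 := mul_le_mul_of_nonneg_left h11 hq.le
    nlinarith [h12]
  refine ⟨?_, ?_, ?_⟩
  · refine (fr_int (c0 := 1) (c1 := 0) (c2 := 0) hK hb hB (by norm_num) le_rfl le_rfl
      fun z hz hz' => ?_).trans (le_of_eq ?_)
    · rw [show (1 + 0 * z + 0 * z ^ 2) = (1 : ℝ) by ring, one_mul, ← exp_add]
      refine exp_le_exp.2 ?_
      have h1 := hD z hz hz'
      have h2 : 0 ≤ z / m := by positivity
      linarith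
    · congr 1
      ring
  · refine (fr_int (c0 := t ^ 2) (c1 := 2 * t) (c2 := 1 + 9 / (8 * m ^ 2)) hK hb hB
      (by positivity) (by positivity) (by positivity) fun z hz hz' => ?_)
    have h1 := hD z hz hz'
    have h0' : 0 ≤ z / m := by positivity
    have h1' : z / m ≤ 1 := by
      rw [div_le_one hm0]
      linarith
    have h2 : Wm m t 1 z ≤ exp (z / m) * (t ^ 2 + 2 * t * z + (1 + 9 / (8 * m ^ 2)) * z ^ 2) := by
      rw [fr_Wm_one, hpa z hz hz']
      have h3 := fr_exp h0' h1'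
      have h4 := Real.one_sub_sq_div_two_le_cos (x := t + z)
      have h5 : 2 * exp (z / m) * (1 - cos (t + z)) ≤ exp (z / m) * (t + z) ^ 2 := by
        have := mul_le_mul_of_nonneg_left (by linarith : 2 * (1 - cos (t + z)) ≤ (t + z) ^ 2)
          (exp_pos (z / m)).le
        linarith
      refine (add_le_add h3 h5).trans (le_of_eq ?_)
      field_simp
      ring
    have hP : 0 ≤ t ^ 2 + 2 * t * z + (1 + 9 / (8 * m ^ 2)) * z ^ 2 := by positivity
    calc Wm m t 1 z * exp (-(q * Dm m ρ t z))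
        ≤ exp (z / m) * (t ^ 2 + 2 * t * z + (1 + 9 / (8 * m ^ 2)) * z ^ 2) *
          exp (-(q * Dm m ρ t z)) := mul_le_mul_of_nonneg_right h2 (exp_pos _).le
      _ = (t ^ 2 + 2 * t * z + (1 + 9 / (8 * m ^ 2)) * z ^ 2) *
          exp (z / m + -(q * Dm m ρ t z)) := by
          rw [exp_add]
          ring
      _ ≤ (t ^ 2 + 2 * t * z + (1 + 9 / (8 * m ^ 2)) * z ^ 2) *
          exp (-(q * (1 - cos t)) + -(frL q m t * z + q * aR m ρ 1 * z ^ 2)) :=
          mul_le_mul_of_nonneg_left (exp_le_exp.2 (by linarith)) hP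
      _ = _ := by
          rw [exp_add]
          ring
  · refine (fr_int (c0 := 1) (c1 := 0) (c2 := 0) hK hb hB (by norm_num) le_rfl le_rfl
      fun z hz hz' => ?_).trans (le_of_eq ?_)
    · rw [show (1 + 0 * z + 0 * z ^ 2) = (1 : ℝ) by ring, one_mul, ← exp_add, ← exp_add,
        hpa z hz hz']
      refine exp_le_exp.2 ?_
      have h1 := hD z hz hz'
      linarith
    · congr 1
      ring

/-- `(1 - cos t)(1 + v/2) ≤ e^(-v/m) (1 - cos (t+v))` -/
theorem fr_left {m t v : ℝ} (hm : 5 / 4 ≤ m) (ht : 0 < t) (hv : 0 ≤ v) (h : t + v ≤ 6 / 5) :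
    (1 - cos t) * (1 + v / 2) ≤ exp (-(v / m)) * (1 - cos (t + v)) := by
  have hm0 : 0 < m := by linarith
  have hd : ∀ x : ℝ, HasDerivAt (fun x : ℝ => (1 - cos (t + x)) * exp (-(13 / 10 * x)))
      (sin (t + x) * exp (-(13 / 10 * x)) + (1 - cos (t + x)) *
        (exp (-(13 / 10 * x)) * -(13 / 10))) x := by
    intro x
    have h1 : HasDerivAt (fun x : ℝ => t + x) 1 x := (hasDerivAt_id x).const_add t
    have h2 : HasDerivAt (fun x : ℝ => 1 - cos (t + x)) (sin (t + x)) x := by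
      have := (h1.cos).const_sub 1
      simpa using this
    have h3 : HasDerivAt (fun x : ℝ => exp (-(13 / 10 * x))) (exp (-(13 / 10 * x)) * -(13 / 10)) x := by
      have h4 : HasDerivAt (fun x : ℝ => -(13 / 10 * x)) (-(13 / 10)) x := by
        have h5 := (hasDerivAt_id x).const_mul (-(13 / 10) : ℝ)
        rw [mul_one] at h5
        refine h5.congr_of_eventuallyEq (Filter.Eventually.of_forall fun y => ?_)
        simp only [id]
        ring
      exact h4.exp
    exact h2.mul h3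
  have hmono : MonotoneOn (fun x : ℝ => (1 - cos (t + x)) * exp (-(13 / 10 * x)))
      (Icc 0 (6 / 5 - t)) := by
    refine monotoneOn_of_deriv_nonneg (convex_Icc _ _) (fun x _ =>
      (hd x).continuousAt.continuousWithinAt) (fun x _ =>
      (hd x).differentiableAt.differentiableWithinAt) ?_
    intro x hx
    rw [interior_Icc] at hx
    rw [(hd x).deriv]
    have hu0 : 0 < t + x := by linarith [hx.1]
    have hu1 : t + x ≤ 6 / 5 := by linarith [hx.2]
    generalize t + x = u at hu0 hu1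
    have e1 : sin u = 2 * sin (u / 2) * cos (u / 2) := by
      rw [← sin_two_mul]
      congr 1
      ring
    have e2 : 1 - cos u = 2 * sin (u / 2) ^ 2 := by
      have h1 : cos u = 2 * cos (u / 2) ^ 2 - 1 := by
        rw [← cos_two_mul]
        congr 1
        ring
      have h2 := sin_sq_add_cos_sq (u / 2)
      rw [h1]
      linarith
    have h1 : sin (u / 2) ≤ u / 2 := sin_le (by linarith)
    have h2 := Real.one_sub_sq_div_two_le_cos (x := u / 2)
    have h3 : 0 ≤ sin (u / 2) := sin_nonneg_of_nonneg_of_le_pi (by linarith)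
      (by linarith [pi_gt_three])
    have h4 : 13 / 10 * sin (u / 2) ≤ cos (u / 2) := by nlinarith
    have h5 : 0 ≤ 2 * sin (u / 2) * (cos (u / 2) - 13 / 10 * sin (u / 2)) :=
      mul_nonneg (by linarith) (by linarith)
    have h6 : sin u * exp (-(13 / 10 * x)) + (1 - cos u) * (exp (-(13 / 10 * x)) * -(13 / 10)) =
        exp (-(13 / 10 * x)) * (2 * sin (u / 2) * (cos (u / 2) - 13 / 10 * sin (u / 2))) := by
      rw [e1, e2]
      ring
    rw [h6]
    exact mul_nonneg (exp_pos _).le h5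
  have h1 := hmono (a := 0) (b := v) ⟨le_rfl, by linarith⟩ ⟨hv, by linarith⟩ hv
  simp only [add_zero, mul_zero, neg_zero, exp_zero, mul_one] at h1
  have h2 : 1 + v / 2 ≤ exp (13 / 10 * v - v / m) := by
    have h3 := Real.add_one_le_exp (13 / 10 * v - v / m)
    have h4 : v / m ≤ 4 / 5 * v := by
      rw [div_le_iff₀ hm0]
      nlinarith
    linarith
  have h6 : 0 ≤ 1 - cos t := by linarith [cos_le_one t]
  have h7 : 0 ≤ 1 - cos (t + v) := by linarith [cos_le_one (t + v)]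
  calc (1 - cos t) * (1 + v / 2)
      ≤ (1 - cos (t + v)) * exp (-(13 / 10 * v)) * exp (13 / 10 * v - v / m) :=
        mul_le_mul h1 h2 (by positivity) (mul_nonneg h7 (exp_pos _).le)
    _ = exp (-(v / m)) * (1 - cos (t + v)) := by
        rw [mul_assoc, ← exp_add, mul_comm]
        congr 2
        ring

/-- FRONT, right. -/
theorem zone_front_R {q m ρ t : ℝ} (hq : 0 < q) (hρ : 0 < ρ) (hm : ρ ≤ m) (hm1 : 5 / 4 ≤ m)
    (ht0 : 0 < t) (ht : t ≤ 6 / 5) :
    Zone q m ρ (-t) 1 (Icc (-(6 / 5 - t)) 0)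
      (exp (-(q * (1 - cos t))) * h0 (frR q t) (q * aL m ρ))
      (exp (-(q * (1 - cos t))) * (t ^ 2 * h0 (frR q t) (q * aL m ρ) +
        2 * t * h1 (q * aL m ρ) + (1 + 1 / m ^ 2) * h2 (q * aL m ρ)))
      (exp (-(q * (1 - cos t))) * h0 (frR q t) (q * aL m ρ)) := by
  have hm0 : 0 < m := by linarith
  have hA := aL_pos hρ hm
  have hB : 0 < q * aL m ρ := mul_pos hq hA
  have hb := frR_nonneg (t := t) hq
  have hK : 0 ≤ exp (-(q * (1 - cos t))) := (exp_pos _).le
  have hpa : ∀ v : ℝ, 0 < v → v ≤ 6 / 5 - t → pm m (-v) = -(v / m) := by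
    intro s hs hs'
    have h1 : s / m ≤ 1 := by
      rw [div_le_one hm0]
      linarith
    have h2 : 0 ≤ s / m := by positivity
    unfold pm
    rw [neg_div, min_eq_right (by linarith), max_eq_right (by linarith)]
  have hco : ∀ v : ℝ, cos (-t + -v) = cos (t + v) := by
    intro v
    rw [← cos_neg]
    congr 1
    ring
  have hD : ∀ v : ℝ, 0 < v → v ≤ 6 / 5 - t → q * (1 - cos t) + (frR q t * v +
      q * aL m ρ * v ^ 2) ≤ q * Dm m ρ (-t) (-v) := by
    intro s hs hs'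
    have h1 : s / m ≤ 1 := by
      rw [div_le_one hm0]
      linarith
    have h2 := Qm_left hρ hm0 hs.le h1
    have h3 := fr_left hm1 ht0 hs.le (by linarith)
    rw [Dm_eq, hpa s hs hs', hco]
    unfold frR
    have h12 := mul_le_mul_of_nonneg_left (add_le_add h2 h3) hq.le
    nlinarith [h12]
  have hset : ∀ F : ℝ → ENNReal, ∫⁻ s in Icc (-(6 / 5 - t)) 0, F s =
      ∫⁻ v in Icc 0 (6 / 5 - t), F (-v) := by
    intro F
    rw [lint_Icc_neg, neg_zero, neg_neg]
  refine ⟨?_, ?_, ?_⟩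
  · rw [hset]
    refine (fr_int (c0 := 1) (c1 := 0) (c2 := 0) hK hb hB (by norm_num) le_rfl le_rfl
      fun z hz hz' => ?_).trans (le_of_eq ?_)
    · rw [show (1 + 0 * z + 0 * z ^ 2) = (1 : ℝ) by ring, one_mul, ← exp_add]
      refine exp_le_exp.2 ?_
      have h1 := hD z hz hz'
      linarith
    · congr 1
      ring
  · rw [hset]
    refine (fr_int (c0 := t ^ 2) (c1 := 2 * t) (c2 := 1 + 1 / m ^ 2) hK hb hB
      (by positivity) (by positivity) (by positivity) fun z hz hz' => ?_)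
    have h1 := hD z hz hz'
    have h0' : 0 ≤ z / m := by positivity
    have h2 : Wm m (-t) 1 (-z) ≤ t ^ 2 + 2 * t * z + (1 + 1 / m ^ 2) * z ^ 2 := by
      rw [fr_Wm_one, hpa z hz hz', hco]
      have h3 := Real.add_one_le_exp (-(z / m))
      have h3' : exp (-(z / m)) ≤ 1 := exp_le_one_iff.2 (by linarith)
      have h4 := Real.one_sub_sq_div_two_le_cos (x := t + z)
      have h5 : 2 * exp (-(z / m)) * (1 - cos (t + z)) ≤ (t + z) ^ 2 := by
        have h7 : 0 ≤ 1 - cos (t + z) := by linarith [cos_le_one (t + z)]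
        nlinarith [mul_le_mul_of_nonneg_right h3' h7]
      have h6 : (exp (-(z / m)) - 1) ^ 2 ≤ (z / m) ^ 2 := by
        rw [sq_le_sq, abs_of_nonneg h0', abs_le]
        constructor <;> linarith
      refine (add_le_add h6 h5).trans (le_of_eq ?_)
      field_simp
      ring
    have hP : 0 ≤ t ^ 2 + 2 * t * z + (1 + 1 / m ^ 2) * z ^ 2 := by positivity
    calc Wm m (-t) 1 (-z) * exp (-(q * Dm m ρ (-t) (-z)))
        ≤ (t ^ 2 + 2 * t * z + (1 + 1 / m ^ 2) * z ^ 2) *
          exp (-(q * Dm m ρ (-t) (-z))) := mul_le_mul_of_nonneg_right h2 (exp_pos _).le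
      _ ≤ (t ^ 2 + 2 * t * z + (1 + 1 / m ^ 2) * z ^ 2) *
          exp (-(q * (1 - cos t)) + -(frR q t * z + q * aL m ρ * z ^ 2)) :=
          mul_le_mul_of_nonneg_left (exp_le_exp.2 (by linarith)) hP
      _ = _ := by
          rw [exp_add]
          ring
  · rw [hset]
    refine (fr_int (c0 := 1) (c1 := 0) (c2 := 0) hK hb hB (by norm_num) le_rfl le_rfl
      fun z hz hz' => ?_).trans (le_of_eq ?_)
    · rw [show (1 + 0 * z + 0 * z ^ 2) = (1 : ℝ) by ring, one_mul, ← exp_add, ← exp_add,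
        hpa z hz hz']
      refine exp_le_exp.2 ?_
      have h1 := hD z hz hz'
      have h2 : 0 ≤ z / m := by positivity
      linarith
    · congr 1
      ring

/-- `h0` without the slope -/
theorem fr_h0_half (b B : ℝ) : h0 b B ≤ √(π / B) / 2 := min_le_left _ _

/-! ## the rest zone -/

private theorem rest_poly {b : ℝ} (h0 : 0 ≤ b) (h1 : b ≤ 1) :
    1 / 2 ≤ 3 / 4 * b ^ 2 + exp (-b) * (6336 / 10000) := by
  have e3 := Real.exp_bound (x := -b) (by rw [abs_neg, abs_of_nonneg h0]; exact h1) (n := 4)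
    (by norm_num)
  rw [abs_le] at e3
  have e4 : 1 - b + b ^ 2 / 2 - b ^ 3 / 6 - 5 * b ^ 4 / 96 ≤ exp (-b) := by
    have e5 := e3.1
    rw [abs_neg, abs_of_nonneg h0] at e5
    norm_num [Finset.sum_range_succ, Nat.factorial] at e5
    nlinarith [e5]
  nlinarith [sq_nonneg (b - 31 / 100), mul_nonneg h0 (sub_nonneg.2 h1),
    mul_nonneg (mul_nonneg h0 h0) (sub_nonneg.2 h1), mul_nonneg (mul_nonneg (mul_nonneg h0 h0) h0)
      (sub_nonneg.2 h1), sq_nonneg (b * (b - 31 / 100))]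

/-- `Dm ≥ 1/2` far from the wave -/
theorem Dm_rest {m ρ θ s : ℝ} (hρ : 0 < ρ) (hm : 5 / 4 * ρ ≤ m)
    (h : 6336 / 10000 ≤ 1 - cos (θ + s)) : 1 / 2 ≤ Dm m ρ θ s := by
  have hm0 : 0 < m := by linarith
  have hm' : ρ ≤ m := by linarith
  rw [Dm_eq]
  rcases le_total 0 s with hs | hs
  · have h1 := Qm_nonneg hρ hm' s
    have h2 : 1 ≤ exp (pm m s) := one_le_exp (pm_nonneg hm0 hs)
    nlinarith
  · obtain ⟨v, rfl⟩ : ∃ v, s = -v := ⟨-s, by ring⟩
    have hv : 0 ≤ v := by linarith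
    rcases le_total v m with h1 | h1
    · have h2 : v / m ≤ 1 := by rwa [div_le_one hm0]
      have h3 := Qm_left hρ hm0 hv h2
      have h4 : pm m (-v) = -(v / m) := by
        have : 0 ≤ v / m := by positivity
        unfold pm
        rw [neg_div, min_eq_right (by linarith), max_eq_right (by linarith)]
      have h5 := rest_poly (b := v / m) (by positivity) h2
      have h6 : 3 / 4 * (v / m) ^ 2 ≤ aL m ρ * v ^ 2 := by
        have h7 : 5 / 4 ≤ m / ρ := by
          rw [le_div_iff₀ hρ]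
          linarith
        unfold aL
        have e : (m / ρ - 1 / 2) / m ^ 2 * v ^ 2 = (m / ρ - 1 / 2) * (v / m) ^ 2 := by
          field_simp
        rw [e]
        nlinarith [sq_nonneg (v / m)]
      have h8 : exp (-(v / m)) * (6336 / 10000) ≤ exp (-(v / m)) * (1 - cos (θ + -v)) :=
        mul_le_mul_of_nonneg_left h (exp_pos _).le
      rw [h4]
      linarith
    · have h2 := Qm_ray_left hρ hm' hm0 h1
      have h3 := Qm_left (s := m) hρ hm0 hm0.le (by rw [div_self hm0.ne'])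
      have h6 : 3 / 4 ≤ aL m ρ * m ^ 2 := by
        have h7 : 5 / 4 ≤ m / ρ := by
          rw [le_div_iff₀ hρ]
          linarith
        unfold aL
        have e : (m / ρ - 1 / 2) / m ^ 2 * m ^ 2 = m / ρ - 1 / 2 := by
          field_simp
        rw [e]
        linarith
      have h7 : 1 ≤ v / m := by rwa [one_le_div hm0]
      have h8 : 0 ≤ exp (pm m (-v)) * (1 - cos (θ + -v)) :=
        mul_nonneg (exp_pos _).le (by linarith [cos_le_one (θ + -v)])
      nlinarith

/-- REST: any set of length `≤ L` on which `1 - cos (θ+s) ≥ 6336/10000`. -/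
theorem zone_rest {q m ρ θ a L : ℝ} {S : Set ℝ} (hq : 0 < q) (hρ : 0 < ρ) (hm : 5 / 4 * ρ ≤ m)
    (hL : 0 ≤ L) (hS : MeasurableSet S) (hSI : S ⊆ Icc a (a + L))
    (h : ∀ s ∈ S, 6336 / 10000 ≤ 1 - cos (θ + s)) :
    Zone q m ρ θ 1 S (L * exp (-(q / 2))) (14 * L * exp (-(q / 2))) (11 / 4 * L * exp (-(q / 2))) := by
  have hvol : volume S ≤ ENNReal.ofReal L := by
    refine (measure_mono hSI).trans (le_of_eq ?_)
    rw [Real.volume_Icc]
    congr 1
    ring
  have key : ∀ (F : ℝ → ℝ) (C : ℝ), 0 ≤ C → (∀ s ∈ S, F s ≤ C * exp (-(q / 2))) →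
      ∫⁻ s in S, ENNReal.ofReal (F s) ≤ ENNReal.ofReal (C * L * exp (-(q / 2))) := by
    intro F C hC hF
    calc ∫⁻ s in S, ENNReal.ofReal (F s) ≤ ∫⁻ _ in S, ENNReal.ofReal (C * exp (-(q / 2))) :=
          setLIntegral_mono' hS fun s hs => ENNReal.ofReal_le_ofReal (hF s hs)
      _ = ENNReal.ofReal (C * exp (-(q / 2))) * volume S := by
          rw [lintegral_const, Measure.restrict_apply MeasurableSet.univ, univ_inter]
      _ ≤ ENNReal.ofReal (C * exp (-(q / 2))) * ENNReal.ofReal L := mul_le_mul_right hvol _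
      _ = _ := by
          rw [← ENNReal.ofReal_mul (by positivity)]
          congr 1
          ring
  have hE : ∀ s ∈ S, exp (-(q * Dm m ρ θ s)) ≤ exp (-(q / 2)) := by
    intro s hs
    have h1 := Dm_rest hρ hm (h s hs)
    refine exp_le_exp.2 ?_
    nlinarith
  have hpm : ∀ s, exp (pm m s) ≤ 11 / 4 := by
    intro s
    have h1 : pm m s ≤ 1 := (abs_le.1 (pm_mem m s)).2
    have h2 := Real.exp_one_lt_d9
    refine (exp_le_exp.2 h1).trans ?_
    linarith
  refine ⟨?_, ?_, ?_⟩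
  · have := key (fun s => exp (-(q * Dm m ρ θ s))) 1 (by norm_num) fun s hs => by
      rw [one_mul]
      exact hE s hs
    rwa [one_mul] at this
  · refine key (fun s => Wm m θ 1 s * exp (-(q * Dm m ρ θ s))) 14 (by norm_num) fun s hs => ?_
    have h1 : Wm m θ 1 s ≤ 14 := by
      rw [fr_Wm_one]
      have h2 := exp_pos (pm m s)
      have h3 := neg_one_le_cos (θ + s)
      have h4 := hpm s
      have h5 := Real.exp_one_lt_d9
      have h6 : exp (pm m s) ≤ exp 1 := exp_le_exp.2 (abs_le.1 (pm_mem m s)).2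
      nlinarith
    exact mul_le_mul h1 (hE s hs) (exp_pos _).le (by norm_num)
  · refine key (fun s => exp (pm m s) * exp (-(q * Dm m ρ θ s))) (11 / 4) (by norm_num)
      fun s hs => mul_le_mul (hpm s) (hE s hs) (exp_pos _).le (by norm_num)

end SokalCen
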