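import Pool.Agent.Lib_MP_af4de1_v3.CenRedM
import Pool.Agent.Lib_MP_af4de1_v3.SadBase

/-!
# Pythagoras for the weights of the main zone (both sides)

`|u - w|² ≤ |w| |u - 1|² + |u| |w - 1|²` if `(|u| - 1)(|w| - 1) ≥ 0` and `Im u Im w ≥ 0`.
-/

set_option autoImplicit false

namespace SokalCen

open Complex MeasureTheory Set SokalU SokalF1 SokalF1S SokalF1M SokalV3

/-- Pythagoras -/
theorem pyth {u w : ℂ} (h : 0 ≤ (‖u‖ - 1) * (‖w‖ - 1)) (him : 0 ≤ u.im * w.im) :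
    ‖u - w‖ ^ 2 ≤ ‖w‖ * ‖u - 1‖ ^ 2 + ‖u‖ * ‖w - 1‖ ^ 2 := by
  have hu := norm_nonneg u
  have hw := norm_nonneg w
  have e0 : ∀ z : ℂ, ‖z‖ ^ 2 = z.re ^ 2 + z.im ^ 2 := fun z => by
    rw [← Complex.normSq_eq_norm_sq, Complex.normSq_apply]
    ring
  have hur : u.re ≤ ‖u‖ := Complex.re_le_norm u
  have hwr : w.re ≤ ‖w‖ := Complex.re_le_norm w
  have eu := e0 u
  have ew := e0 w
  have e1 := e0 (u - w)
  have e2 := e0 (u - 1)
  have e3 := e0 (w - 1)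
  simp only [Complex.sub_re, Complex.sub_im, Complex.one_re, Complex.one_im, sub_zero] at e1 e2 e3
  rw [e1, e2, e3]
  set p := ‖u‖ with hp
  set q := ‖w‖ with hq
  have f1 : (u.re - 1) ^ 2 + u.im ^ 2 = p ^ 2 - 2 * u.re + 1 := by rw [eu]; ring
  have f2 : (w.re - 1) ^ 2 + w.im ^ 2 = q ^ 2 - 2 * w.re + 1 := by rw [ew]; ring
  have f3 : (u.re - w.re) ^ 2 + (u.im - w.im) ^ 2 =
      p ^ 2 + q ^ 2 - 2 * (u.re * w.re + u.im * w.im) := by rw [eu, ew]; ring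
  rw [f1, f2, f3]
  have h1 : 0 ≤ (p - u.re) * (q - w.re) := mul_nonneg (by linarith) (by linarith)
  have h2 : 0 ≤ (p - 1) * (q - 1) * (p + q) := mul_nonneg h (by linarith)
  nlinarith

theorem Wm_pyth {m θ s : ℝ} {w : ℂ} (h : 0 ≤ (‖em m θ s‖ - 1) * (‖w‖ - 1))
    (him : 0 ≤ (em m θ s).im * w.im) :
    Wm m θ w s ≤ ‖w‖ * Wm m θ 1 s + ‖em m θ s‖ * ‖w - 1‖ ^ 2 := pyth h him

theorem em_im (m θ s : ℝ) : (em m θ s).im = Real.exp (pm m s) * Real.sin (θ + s) := by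
  have e : ((pm m s : ℝ) : ℂ) + ((θ : ℂ) + (s : ℂ)) * I =
      ((pm m s : ℝ) : ℂ) + ((θ + s : ℝ) : ℂ) * I := by push_cast; ring
  unfold em
  rw [e, Complex.exp_im]
  simp

theorem norm_w {ρ y : ℝ} (h : Dom ρ y) : ‖sK ρ y / (ρ : ℂ)‖ = Real.exp (-y) := by
  have hρ : 0 < ρ := h.1
  rw [norm_div, norm_sK h, Complex.norm_real, Real.norm_of_nonneg hρ.le]
  field_simp

theorem im_w (ρ y : ℝ) : (sK ρ y / (ρ : ℂ)).im = y / ρ := by
  unfold sK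
  rw [Complex.div_ofReal_im]
  simp

/-- `|w - 1| ≤ κ = k |η|/√R` -/
theorem norm_w_sub {r δ y η g k q : ℝ} (hr : 0 < r) (hL : Lev r δ y η g k q) :
    ‖sK (r * δ) y / (r * δ : ℝ) - 1‖ ≤ k * (|η| / √(RR r δ)) := by
  have h := hL.l1
  rw [kap_eq hr] at h
  have e : (r : ℂ) * (sK (r * δ) y / (r * δ : ℝ)) - r = r * (sK (r * δ) y / (r * δ : ℝ) - 1) := by
    ring
  rw [e, norm_mul, Complex.norm_real, Real.norm_of_nonneg hr.le] at h
  have e2 : k * (r * |η| / √(RR r δ)) = r * (k * (|η| / √(RR r δ))) := by ring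
  rw [e2] at h
  exact le_of_mul_le_mul_left h hr

/-- RIGHT main zone. -/
theorem Zone.pyth_R {r δ y η g k q m t T I0 IW Ie : ℝ} {S : Set ℝ} (hS : MeasurableSet S)
    (hr : 0 < r) (hm : 0 < m) (hA : At r δ y η) (hy : y ≤ 0) (hL : Lev r δ y η g k q)
    (h0 : 0 ≤ I0) (h1 : 0 ≤ IW)
    (hs0 : ∀ s ∈ S, 0 ≤ s) (hs1 : ∀ s ∈ S, s ≤ t) (hs2 : ∀ s ∈ S, t - s ≤ Real.pi)
    (hs3 : ∀ s ∈ S, pm m s ≤ T)
    (Z : Zone r m (r * δ) (-t) 1 S I0 IW Ie) :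
    Zone r m (r * δ) (-t) (sK (r * δ) y / (r * δ : ℝ)) S I0
      ((1 + k * (|η| / √(RR r δ))) * IW + Real.exp T * (k * (|η| / √(RR r δ))) ^ 2 * I0) Ie := by
  have hw1 := norm_w_sub hr hL
  have hκ : 0 ≤ k * (|η| / √(RR r δ)) := (norm_nonneg _).trans hw1
  have hρ : 0 < r * δ := hA.dom.1
  refine Zone.pyth hS Z h0 h1 (by linarith) (by positivity) fun s hs => ?_
  have ha : 0 ≤ pm m s := by
    unfold pm
    exact le_max_of_le_right (le_min one_pos.le (div_nonneg (hs0 s hs) hm.le))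
  have hu : ‖em m (-t) s‖ = Real.exp (pm m s) := norm_em m (-t) s
  have hu1 : 1 ≤ ‖em m (-t) s‖ := by rw [hu]; exact Real.one_le_exp ha
  have hw := norm_w hA.dom
  have hw2 : 1 ≤ ‖sK (r * δ) y / ((r * δ : ℝ) : ℂ)‖ := by
    rw [hw]
    exact Real.one_le_exp (by linarith)
  have him1 : (em m (-t) s).im ≤ 0 := by
    rw [em_im]
    have h2 : Real.sin (-t + s) = -Real.sin (t - s) := by
      rw [← Real.sin_neg]
      ring_nf
    have h3 : 0 ≤ Real.sin (t - s) :=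
      Real.sin_nonneg_of_nonneg_of_le_pi (by linarith [hs1 s hs]) (hs2 s hs)
    rw [h2]
    have := Real.exp_pos (pm m s)
    nlinarith
  have him2 : (sK (r * δ) y / ((r * δ : ℝ) : ℂ)).im ≤ 0 := by
    rw [im_w]
    exact div_nonpos_of_nonpos_of_nonneg hy hρ.le
  have hp := Wm_pyth (m := m) (θ := -t) (s := s) (w := sK (r * δ) y / ((r * δ : ℝ) : ℂ))
    (mul_nonneg (by linarith) (by linarith)) (mul_nonneg_of_nonpos_of_nonpos him1 him2)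
  refine hp.trans (add_le_add ?_ ?_)
  · refine mul_le_mul_of_nonneg_right ?_ (Wm_nonneg _ _ _ _)
    have h4 : ‖sK (r * δ) y / ((r * δ : ℝ) : ℂ)‖ ≤
        ‖sK (r * δ) y / ((r * δ : ℝ) : ℂ) - 1‖ + ‖(1 : ℂ)‖ := by
      have := norm_add_le (sK (r * δ) y / ((r * δ : ℝ) : ℂ) - 1) 1
      rwa [sub_add_cancel] at this
    rw [norm_one] at h4
    linarith
  · rw [hu]
    have h5 : Real.exp (pm m s) ≤ Real.exp T := Real.exp_le_exp.2 (hs3 s hs)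
    have h6 := pow_le_pow_left₀ (norm_nonneg _) hw1 2
    exact mul_le_mul h5 h6 (by positivity) (Real.exp_pos _).le

/-- LEFT main zone. -/
theorem Zone.pyth_L {r δ y η g k q m t I0 IW Ie : ℝ} {S : Set ℝ} (hS : MeasurableSet S)
    (hr : 0 < r) (hm : 0 < m) (hA : At r δ y η) (hy : 0 ≤ y) (hL : Lev r δ y η g k q)
    (h0 : 0 ≤ I0) (h1 : 0 ≤ IW)
    (hs0 : ∀ s ∈ S, s ≤ 0) (hs1 : ∀ s ∈ S, -t ≤ s) (hs2 : ∀ s ∈ S, t + s ≤ Real.pi)
    (Z : Zone r m (r * δ) t 1 S I0 IW Ie) :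
    Zone r m (r * δ) t (sK (r * δ) y / (r * δ : ℝ)) S I0
      (1 * IW + (k * (|η| / √(RR r δ))) ^ 2 * I0) Ie := by
  have hw1 := norm_w_sub hr hL
  have hκ : 0 ≤ k * (|η| / √(RR r δ)) := (norm_nonneg _).trans hw1
  have hρ : 0 < r * δ := hA.dom.1
  refine Zone.pyth hS Z h0 h1 (by linarith) (by positivity) fun s hs => ?_
  have ha : pm m s ≤ 0 := by
    unfold pm
    exact max_le (by norm_num)
      ((min_le_right _ _).trans (div_nonpos_of_nonpos_of_nonneg (hs0 s hs) hm.le))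
  have hu : ‖em m t s‖ = Real.exp (pm m s) := norm_em m t s
  have hu1 : ‖em m t s‖ ≤ 1 := by rw [hu]; exact Real.exp_le_one_iff.2 ha
  have hw := norm_w hA.dom
  have hw2 : ‖sK (r * δ) y / ((r * δ : ℝ) : ℂ)‖ ≤ 1 := by
    rw [hw]
    exact Real.exp_le_one_iff.2 (by linarith)
  have him1 : 0 ≤ (em m t s).im := by
    rw [em_im]
    exact mul_nonneg (Real.exp_pos _).le
      (Real.sin_nonneg_of_nonneg_of_le_pi (by linarith [hs1 s hs]) (hs2 s hs))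
  have him2 : 0 ≤ (sK (r * δ) y / ((r * δ : ℝ) : ℂ)).im := by
    rw [im_w]
    exact div_nonneg hy hρ.le
  have hp := Wm_pyth (m := m) (θ := t) (s := s) (w := sK (r * δ) y / ((r * δ : ℝ) : ℂ))
    (mul_nonneg_of_nonpos_of_nonpos (by linarith) (by linarith)) (mul_nonneg him1 him2)
  refine hp.trans (add_le_add ?_ ?_)
  · exact mul_le_mul_of_nonneg_right hw2 (Wm_nonneg _ _ _ _)
  · have h6 := pow_le_pow_left₀ (norm_nonneg _) hw1 2
    have h7 : ‖em m t s‖ * ‖sK (r * δ) y / ((r * δ : ℝ) : ℂ) - 1‖ ^ 2 ≤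
        1 * ‖sK (r * δ) y / ((r * δ : ℝ) : ℂ) - 1‖ ^ 2 :=
      mul_le_mul_of_nonneg_right hu1 (by positivity)
    linarith

end SokalCen
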