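import Pool.Agent.Lib_MP_af4de1_v3.V3

/-!
# The level of a saddle relative to `e^r` (centre path)

With `t = |η|`, `τ = t/h`: `r t²/R = Γ τ²`, `r t/√R = τ H`.
-/

set_option autoImplicit false

namespace SokalV3

open Complex SokalU SokalF1 SokalF1S SokalF1M

/-- The level of the saddle `y` at the angle `η`: loss at most `g Γ τ²/2`, `|κ - r| ≤ k τ H`, `D ≤ q √R`. -/
structure Lev (r δ y η g k q : ℝ) : Prop where
  l0 : r - sx (r * δ) y * (1 + y) / δ ≤ g / 2 * (r * η ^ 2 / RR r δ)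
  l1 : ‖kap r δ y - r‖ ≤ k * (r * |η| / √(RR r δ))
  l2 : sD (r * δ) y ≤ q * √(RR r δ)

end SokalV3
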