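import Pool.Agent.Lib_MP_af4de1_v3.CenZ
import Pool.Agent.Lib_MP_af4de1_v3.Lev

/-! # CEN: the wave bound in helper35's form `WB`, the direction `w = K/ρ`, `κ`, the factor `q ≤ 1 + κ` on
the right (owner helper66) -/

set_option autoImplicit false

namespace SokalCen

open Complex MeasureTheory SokalU SokalF1 SokalF1S SokalF1M SokalV3

theorem wb {r δ θ m : ℝ} (hr : 0 < r) (hδ : 0 < δ) (hm : 0 < m) : WB r δ θ m := by
  intro c0 c1 c2
  exact wave_cen hr hδ hm θ c0 c1 c2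

/-- the direction -/
theorem sK_ww {ρ y : ℝ} (h : Dom ρ y) : sK ρ y / (ρ : ℂ) = ww (-y) (sP ρ y) := by
  have h0 : (ρ : ℂ) ≠ 0 := by exact_mod_cast h.1.ne'
  rw [sK_polar h]
  unfold ww
  rw [Complex.exp_add]
  push_cast
  field_simp

theorem ww_zero : ww 0 0 = 1 := by
  unfold ww
  simp

/-- `|w| = e^(-y)` -/
theorem nrm_w {ρ y : ℝ} (h : Dom ρ y) : ‖sK ρ y / (ρ : ℂ)‖ = Real.exp (-y) := by
  rw [norm_div, norm_sK h, Complex.norm_real, Real.norm_of_nonneg h.1.le]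
  field_simp [h.1.ne']

/-- `|w - 1| ≤ κ = k |η|/√R` -/
theorem w_sub {r δ y η g k q : ℝ} (hr : 0 < r) (hL : Lev r δ y η g k q) :
    ‖sK (r * δ) y / ((r * δ : ℝ) : ℂ) - 1‖ ≤ k * |η| / √(RR r δ) := by
  have h1 := hL.l1
  rw [kap_eq hr] at h1
  have e : (r : ℂ) * (sK (r * δ) y / ((r * δ : ℝ) : ℂ)) - r =
      r * (sK (r * δ) y / ((r * δ : ℝ) : ℂ) - 1) := by ring
  rw [e, norm_mul, Complex.norm_real, Real.norm_of_nonneg hr.le] at h1
  have e2 : k * (r * |η| / √(RR r δ)) = r * (k * |η| / √(RR r δ)) := by ring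
  rw [e2] at h1
  exact le_of_mul_le_mul_left h1 hr

/-- `e^(-y) ≤ 1 + κ` -/
theorem exp_le_kap {r δ y η g k q : ℝ} (hr : 0 < r) (hd : Dom (r * δ) y)
    (hL : Lev r δ y η g k q) : Real.exp (-y) ≤ 1 + k * |η| / √(RR r δ) := by
  have h1 := w_sub hr hL
  have h2 := nrm_w hd
  have h3 : ‖sK (r * δ) y / ((r * δ : ℝ) : ℂ)‖ ≤
      ‖sK (r * δ) y / ((r * δ : ℝ) : ℂ) - 1‖ + 1 := by
    have := norm_add_le (sK (r * δ) y / ((r * δ : ℝ) : ℂ) - 1) 1
    simpa using this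
  linarith

/-- `D ≤ e^(-y) √R` for `y ≤ 0` -/
theorem sD_le_exp {r δ y : ℝ} (hd : Dom (r * δ) y) (hy : y ≤ 0) :
    sD (r * δ) y ≤ Real.exp (-y) * √(RR r δ) := by
  have h1 := sx_sq_add hd
  have h2 := Real.add_one_le_exp (2 * y)
  have h3 : Real.exp (2 * y) ≤ Real.exp (-y) ^ 2 := by
    rw [← Real.exp_nat_mul]
    apply Real.exp_le_exp.2
    push_cast
    linarith
  have h4 : sD2 (r * δ) y ≤ Real.exp (-y) ^ 2 * RR r δ := by
    unfold sD2 RR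
    have : (1 + y) ^ 2 + sx (r * δ) y ^ 2 = 1 + 2 * y + (r * δ * Real.exp (-y)) ^ 2 := by
      linear_combination h1
    rw [this, mul_add, mul_pow]
    linarith
  unfold sD
  calc √(sD2 (r * δ) y) ≤ √(Real.exp (-y) ^ 2 * RR r δ) := Real.sqrt_le_sqrt h4
    _ = _ := by
      rw [Real.sqrt_mul (by positivity), Real.sqrt_sq (Real.exp_pos _).le]

/-- RIGHT: the factor `q` may be replaced by `1 + κ`. -/
theorem Lev.q1 {r δ y η g k q : ℝ} (hr : 0 < r) (hd : Dom (r * δ) y) (hy : y ≤ 0)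
    (hL : Lev r δ y η g k q) : Lev r δ y η g k (1 + k * |η| / √(RR r δ)) :=
  ⟨hL.l0, hL.l1, (sD_le_exp hd hy).trans
    (mul_le_mul_of_nonneg_right (exp_le_kap hr hd hL) (Real.sqrt_nonneg _))⟩

end SokalCen
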