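import Pool.Agent.Lib_MP_af4de1_v3.CenB

/-!
# CEN: half Gaussians with slope and one-sided zones (helper69)

`Zone.above`, `Zone.below`: a zone `S` on one side of the point `c`, `z = s - c` resp. `z = c - s`,
`Dm ≥ a0 + b z + B z²`, `W ≤ c0 + c1 z + c2 z²`, `e^a ≤ e0`.
`Zone.ray_above`, `Zone.ray_below`: the same with `B = 0`.
-/

set_option autoImplicit false

namespace SokalCen

open Real MeasureTheory Set

/-! ## integrals over `(0, ∞)` -/

theorem half_z1 {B : ℝ} (hB : 0 < B) : ∫ z in Ioi (0 : ℝ), z * exp (-(B * z ^ 2)) = 1 / (2 * B) := by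
  have h := integral_rpow_mul_exp_neg_mul_rpow (p := 2) (q := 1) (b := B) (by norm_num)
    (by norm_num) hB
  have e : ∫ z in Ioi (0 : ℝ), z * exp (-(B * z ^ 2)) =
      ∫ s in Ioi (0 : ℝ), s ^ (1 : ℝ) * Real.exp (-B * s ^ (2 : ℝ)) := by
    refine setIntegral_congr_fun measurableSet_Ioi fun s _ => ?_
    simp only [Real.rpow_one, Real.rpow_two, neg_mul]
  rw [e, h]
  norm_num
  rw [Real.rpow_neg_one]

theorem half_z0 (B : ℝ) : ∫ z in Ioi (0 : ℝ), exp (-(B * z ^ 2)) = √(π / B) / 2 := by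
  rw [← integral_gaussian_Ioi B]
  simp only [neg_mul]

theorem half_z2 {B : ℝ} (hB : 0 < B) :
    ∫ z in Ioi (0 : ℝ), z ^ 2 * exp (-(B * z ^ 2)) = √(π / B) / (4 * B) := by
  have h := integral_rpow_mul_exp_neg_mul_rpow (p := 2) (q := 2) (b := B) (by norm_num)
    (by norm_num) hB
  have e : ∫ z in Ioi (0 : ℝ), z ^ 2 * exp (-(B * z ^ 2)) =
      ∫ s in Ioi (0 : ℝ), s ^ (2 : ℝ) * Real.exp (-B * s ^ (2 : ℝ)) := by
    refine setIntegral_congr_fun measurableSet_Ioi fun s _ => ?_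
    simp only [Real.rpow_two, neg_mul]
  rw [e, h]
  have h3 : Real.Gamma ((2 + 1) / 2) = √π / 2 := by
    have h4 : ((2 + 1) / 2 : ℝ) = 1 / 2 + 1 := by norm_num
    rw [h4, Real.Gamma_add_one (by norm_num), Real.Gamma_one_half_eq]
    ring
  rw [h3]
  have h5 : (B : ℝ) ^ (-(2 + 1) / 2 : ℝ) = B⁻¹ * (√B)⁻¹ := by
    have h6 : (-(2 + 1) / 2 : ℝ) = -1 + -(1 / 2) := by norm_num
    rw [h6, Real.rpow_add (by positivity), Real.rpow_neg_one, Real.rpow_neg (by positivity),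
      ← Real.sqrt_eq_rpow]
  have h7 : √(π / B) = √π * (√B)⁻¹ := by
    rw [Real.sqrt_div Real.pi_pos.le, div_eq_mul_inv]
  rw [h5, h7]
  field_simp
  ring

theorem half_i0 {B : ℝ} (hB : 0 < B) : IntegrableOn (fun z : ℝ => exp (-(B * z ^ 2))) (Ioi 0) := by
  have h := (integrable_exp_neg_mul_sq hB).integrableOn (s := Ioi 0)
  simpa only [neg_mul] using h

theorem half_i1 {B : ℝ} (hB : 0 < B) :
    IntegrableOn (fun z : ℝ => z * exp (-(B * z ^ 2))) (Ioi 0) := by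
  have h := (integrable_mul_exp_neg_mul_sq hB).integrableOn (s := Ioi 0)
  simpa only [neg_mul] using h

theorem half_i2 {B : ℝ} (hB : 0 < B) :
    IntegrableOn (fun z : ℝ => z ^ 2 * exp (-(B * z ^ 2))) (Ioi 0) := by
  have h := integrableOn_rpow_mul_exp_neg_mul_sq hB (s := 2) (by norm_num)
  simpa only [neg_mul, Real.rpow_two] using h

/-- all three at once -/
theorem half_poly {B : ℝ} (hB : 0 < B) (a0 a1 a2 : ℝ) :
    IntegrableOn (fun z : ℝ => (a0 + a1 * z + a2 * z ^ 2) * exp (-(B * z ^ 2))) (Ioi 0) ∧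
    ∫ z in Ioi (0 : ℝ), (a0 + a1 * z + a2 * z ^ 2) * exp (-(B * z ^ 2)) =
      a0 * (√(π / B) / 2) + a1 * (1 / (2 * B)) + a2 * (√(π / B) / (4 * B)) := by
  have i0 := (half_i0 hB).const_mul a0
  have i1 := (half_i1 hB).const_mul a1
  have i2 := (half_i2 hB).const_mul a2
  have e : (fun z : ℝ => (a0 + a1 * z + a2 * z ^ 2) * exp (-(B * z ^ 2))) = fun z =>
      a0 * exp (-(B * z ^ 2)) + a1 * (z * exp (-(B * z ^ 2))) +
        a2 * (z ^ 2 * exp (-(B * z ^ 2))) := by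
    funext z
    ring
  rw [e]
  refine ⟨(i0.add i1).add i2, ?_⟩
  have h01 : IntegrableOn (fun z : ℝ => a0 * exp (-(B * z ^ 2)) + a1 * (z * exp (-(B * z ^ 2))))
      (Ioi 0) := i0.add i1
  rw [integral_add h01 i2, integral_add i0 i1, integral_const_mul, integral_const_mul,
    integral_const_mul, half_z0, half_z1 hB, half_z2 hB]

/-- lintegral of a nonnegative quadratic polynomial times the Gaussian -/
theorem lint_poly {B a0 a1 a2 : ℝ} (hB : 0 < B) (h : ∀ z : ℝ, 0 ≤ z → 0 ≤ a0 + a1 * z + a2 * z ^ 2) :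
    ∫⁻ z in Ioi (0 : ℝ), ENNReal.ofReal ((a0 + a1 * z + a2 * z ^ 2) * exp (-(B * z ^ 2))) =
      ENNReal.ofReal (a0 * (√(π / B) / 2) + a1 * (1 / (2 * B)) + a2 * (√(π / B) / (4 * B))) := by
  obtain ⟨hi, he⟩ := half_poly hB a0 a1 a2
  rw [← he, ofReal_integral_eq_lintegral_ofReal hi]
  filter_upwards [ae_restrict_mem measurableSet_Ioi] with z hz
  exact mul_nonneg (h z (le_of_lt hz)) (exp_pos _).le

private theorem exp_neg_le2 {x : ℝ} (hx : 0 ≤ x) : Real.exp (-x) ≤ 1 - x + x ^ 2 / 2 := by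
  have h3 := Real.quadratic_le_exp_of_nonneg hx
  rw [Real.exp_neg]
  have h4 : 0 < 1 + x + x ^ 2 / 2 := by positivity
  refine (inv_anti₀ h4 h3).trans ?_
  rw [inv_le_iff_one_le_mul₀ h4]
  nlinarith [sq_nonneg (x ^ 2)]

theorem lint_h0 {b B : ℝ} (hb : 0 ≤ b) (hB : 0 < B) :
    ∫⁻ z in Ioi (0 : ℝ), ENNReal.ofReal (exp (-(b * z + B * z ^ 2))) ≤ ENNReal.ofReal (h0 b B) := by
  unfold h0
  rw [ENNReal.ofReal_min]
  refine le_min ?_ ?_
  · have h := lint_poly (a0 := 1) (a1 := 0) (a2 := 0) hB (fun z hz => by norm_num)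
    have e : √(π / B) / 2 = 1 * (√(π / B) / 2) + 0 * (1 / (2 * B)) + 0 * (√(π / B) / (4 * B)) := by
      ring
    rw [e, ← h]
    refine setLIntegral_mono' measurableSet_Ioi fun z hz => ENNReal.ofReal_le_ofReal ?_
    have hz0 : 0 < z := hz
    have : 0 ≤ b * z := by positivity
    rw [zero_mul, zero_mul, add_zero, add_zero, one_mul]
    apply exp_le_exp.2
    linarith
  · have h := lint_poly (a0 := 1) (a1 := -b) (a2 := b ^ 2 / 2) hB
      (fun z _ => by nlinarith [sq_nonneg (b * z - 1)])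
    have e : √(π / B) / 2 - b / (2 * B) + b ^ 2 * √(π / B) / (8 * B) =
        1 * (√(π / B) / 2) + -b * (1 / (2 * B)) + b ^ 2 / 2 * (√(π / B) / (4 * B)) := by
      field_simp
      ring
    rw [e, ← h]
    refine setLIntegral_mono' measurableSet_Ioi fun z hz => ENNReal.ofReal_le_ofReal ?_
    have hz0 : 0 < z := hz
    have h1 := exp_neg_le2 (show 0 ≤ b * z by positivity)
    have e2 : exp (-(b * z + B * z ^ 2)) = exp (-(b * z)) * exp (-(B * z ^ 2)) := by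
      rw [← Real.exp_add]
      congr 1
      ring
    rw [e2]
    refine mul_le_mul_of_nonneg_right (h1.trans (le_of_eq ?_)) (exp_pos _).le
    ring

theorem h0_nonneg {b B : ℝ} (_hb : 0 ≤ b) (hB : 0 < B) : 0 ≤ h0 b B := by
  unfold h0
  refine le_min (by positivity) ?_
  obtain ⟨-, he⟩ := half_poly hB 1 (-b) (b ^ 2 / 2)
  have e : √(π / B) / 2 - b / (2 * B) + b ^ 2 * √(π / B) / (8 * B) =
      1 * (√(π / B) / 2) + -b * (1 / (2 * B)) + b ^ 2 / 2 * (√(π / B) / (4 * B)) := by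
    field_simp
    ring
  rw [e, ← he]
  refine setIntegral_nonneg measurableSet_Ioi fun z _ => mul_nonneg ?_ (exp_pos _).le
  nlinarith [sq_nonneg (b * z - 1)]

theorem h1_nonneg {B : ℝ} (hB : 0 < B) : 0 ≤ h1 B := by
  unfold h1
  positivity

theorem h2_nonneg {B : ℝ} (hB : 0 < B) : 0 ≤ h2 B := by
  unfold h2
  positivity

/-- the weighted half Gaussian with slope -/
theorem lint_hW {b B c0 c1 c2 : ℝ} (hb : 0 ≤ b) (hB : 0 < B) (k0 : 0 ≤ c0) (k1 : 0 ≤ c1)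
    (k2 : 0 ≤ c2) :
    ∫⁻ z in Ioi (0 : ℝ), ENNReal.ofReal ((c0 + c1 * z + c2 * z ^ 2) * exp (-(b * z + B * z ^ 2))) ≤
      ENNReal.ofReal (c0 * h0 b B + c1 * h1 B + c2 * h2 B) := by
  have n0 := h0_nonneg hb hB
  have n1 := h1_nonneg hB
  have n2 := h2_nonneg hB
  have h := lint_poly (a0 := 0) (a1 := c1) (a2 := c2) hB (fun z hz => by positivity)
  have e : ∀ z ∈ Ioi (0 : ℝ), ENNReal.ofReal ((c0 + c1 * z + c2 * z ^ 2) *
      exp (-(b * z + B * z ^ 2))) ≤ ENNReal.ofReal c0 * ENNReal.ofReal (exp (-(b * z + B * z ^ 2))) +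
        ENNReal.ofReal ((0 + c1 * z + c2 * z ^ 2) * exp (-(B * z ^ 2))) := by
    intro z hz
    have hz0 : 0 < z := hz
    rw [← ENNReal.ofReal_mul k0, ← ENNReal.ofReal_add (by positivity) (by positivity)]
    refine ENNReal.ofReal_le_ofReal ?_
    have h3 : exp (-(b * z + B * z ^ 2)) ≤ exp (-(B * z ^ 2)) := by
      apply exp_le_exp.2
      have : 0 ≤ b * z := by positivity
      linarith
    have h4 : 0 ≤ c1 * z + c2 * z ^ 2 := by positivity
    have h5 := mul_le_mul_of_nonneg_left h3 h4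
    linarith
  refine (setLIntegral_mono' measurableSet_Ioi e).trans ?_
  have e3 : c0 * h0 b B + c1 * h1 B + c2 * h2 B = c0 * h0 b B +
      (0 * (√(π / B) / 2) + c1 * (1 / (2 * B)) + c2 * (√(π / B) / (4 * B))) := by
    unfold h1 h2
    ring
  rw [lintegral_add_left (by fun_prop), lintegral_const_mul _ (by fun_prop), h, e3,
    ENNReal.ofReal_add (p := c0 * h0 b B) (by positivity) (by positivity), ENNReal.ofReal_mul k0]
  exact add_le_add (mul_le_mul_right (lint_h0 hb hB) _) le_rfl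

/-- the ray -/
theorem ray_poly {b c0 c1 c2 : ℝ} (hb : 0 < b) (k0 : 0 ≤ c0) (k1 : 0 ≤ c1) (k2 : 0 ≤ c2) :
    ∫⁻ z in Ioi (0 : ℝ), ENNReal.ofReal ((c0 + c1 * z + c2 * z ^ 2) * exp (-(b * z))) ≤
      ENNReal.ofReal (c0 / b + c1 / b ^ 2 + c2 * (2 / b ^ 3)) := by
  have key : ∀ n : ℕ, IntegrableOn (fun z : ℝ => z ^ n * exp (-(b * z))) (Ioi 0) ∧
      ∫ z in Ioi (0 : ℝ), z ^ n * exp (-(b * z)) = (n.factorial : ℝ) / b ^ (n + 1) := by
    intro n
    have h1 := integral_rpow_mul_exp_neg_mul_Ioi (a := (n : ℝ) + 1) (r := b) (by positivity) hb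
    have h2 := integrableOn_rpow_mul_exp_neg_mul_rpow (p := 1) (s := (n : ℝ)) (b := b)
      (by linarith [n.cast_nonneg (α := ℝ)]) one_pos hb
    constructor
    · refine h2.congr_fun (fun z _ => ?_) measurableSet_Ioi
      simp only [Real.rpow_natCast, Real.rpow_one]
      congr 2
      ring
    · have e : ∫ z in Ioi (0 : ℝ), z ^ n * exp (-(b * z)) =
          ∫ t in Ioi (0 : ℝ), t ^ ((n : ℝ) + 1 - 1) * exp (-(b * t)) := by
        refine setIntegral_congr_fun measurableSet_Ioi fun z _ => ?_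
        simp only [add_sub_cancel_right, Real.rpow_natCast]
      rw [e, h1, Real.Gamma_nat_eq_factorial]
      have : ((n : ℝ) + 1) = ((n + 1 : ℕ) : ℝ) := by push_cast; ring
      rw [this, Real.rpow_natCast, one_div, inv_pow, div_eq_inv_mul]
  obtain ⟨i0, e0⟩ := key 0
  obtain ⟨i1, e1⟩ := key 1
  obtain ⟨i2, e2⟩ := key 2
  have j0 := i0.const_mul c0
  have j1 := i1.const_mul c1
  have j2 := i2.const_mul c2
  have j01 : IntegrableOn (fun z : ℝ => c0 * (z ^ 0 * exp (-(b * z))) +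
      c1 * (z ^ 1 * exp (-(b * z)))) (Ioi 0) := j0.add j1
  have e : (fun z : ℝ => (c0 + c1 * z + c2 * z ^ 2) * exp (-(b * z))) = fun z =>
      c0 * (z ^ 0 * exp (-(b * z))) + c1 * (z ^ 1 * exp (-(b * z))) +
        c2 * (z ^ 2 * exp (-(b * z))) := by
    funext z
    ring
  have hi : IntegrableOn (fun z : ℝ => (c0 + c1 * z + c2 * z ^ 2) * exp (-(b * z))) (Ioi 0) := by
    rw [e]
    exact j01.add j2
  have he : ∫ z in Ioi (0 : ℝ), (c0 + c1 * z + c2 * z ^ 2) * exp (-(b * z)) =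
      c0 / b + c1 / b ^ 2 + c2 * (2 / b ^ 3) := by
    rw [e, integral_add j01 j2, integral_add j0 j1, integral_const_mul, integral_const_mul,
      integral_const_mul, e0, e1, e2]
    norm_num [Nat.factorial]
    ring
  rw [← he, ofReal_integral_eq_lintegral_ofReal hi]
  filter_upwards [ae_restrict_mem measurableSet_Ioi] with z hz
  have hz0 : 0 < z := hz
  positivity

/-! ## one side of a point -/

theorem lint_above {S : Set ℝ} (mS : MeasurableSet S) {F G : ℝ → ℝ} {c : ℝ}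
    (h : ∀ s ∈ S, c ≤ s ∧ F s ≤ G (s - c)) :
    ∫⁻ s in S, ENNReal.ofReal (F s) ≤ ∫⁻ z in Ioi (0 : ℝ), ENNReal.ofReal (G z) := by
  rw [setLIntegral_congr (Ioi_ae_eq_Ici (μ := volume) (a := (0 : ℝ))), ← lintegral_indicator mS,
    ← lintegral_add_left_eq_self (μ := volume) _ c, ← lintegral_indicator measurableSet_Ici]
  refine lintegral_mono fun z => ?_
  by_cases hz : c + z ∈ S
  · obtain ⟨h1, h2⟩ := h _ hz
    have hz0 : z ∈ Ici (0 : ℝ) := by
      simp only [mem_Ici]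
      linarith
    rw [indicator_of_mem hz, indicator_of_mem hz0]
    rw [add_sub_cancel_left] at h2
    exact ENNReal.ofReal_le_ofReal h2
  · rw [indicator_of_notMem hz]
    exact bot_le

theorem lint_below {S : Set ℝ} (mS : MeasurableSet S) {F G : ℝ → ℝ} {c : ℝ}
    (h : ∀ s ∈ S, s ≤ c ∧ F s ≤ G (c - s)) :
    ∫⁻ s in S, ENNReal.ofReal (F s) ≤ ∫⁻ z in Ioi (0 : ℝ), ENNReal.ofReal (G z) := by
  rw [setLIntegral_congr (Ioi_ae_eq_Ici (μ := volume) (a := (0 : ℝ))), ← lintegral_indicator mS,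
    ← lintegral_sub_left_eq_self (μ := volume) _ c, ← lintegral_indicator measurableSet_Ici]
  refine lintegral_mono fun z => ?_
  by_cases hz : c - z ∈ S
  · obtain ⟨h1, h2⟩ := h _ hz
    have hz0 : z ∈ Ici (0 : ℝ) := by
      simp only [mem_Ici]
      linarith
    rw [indicator_of_mem hz, indicator_of_mem hz0]
    rw [sub_sub_cancel] at h2
    exact ENNReal.ofReal_le_ofReal h2
  · rw [indicator_of_notMem hz]
    exact bot_le

/-- the bounds over `(0, ∞)` from which a zone is made -/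
private theorem zone_of {q m ρ θ a0 b B e0 c0 c1 c2 : ℝ} {w : ℂ} {S : Set ℝ} {σ : ℝ → ℝ}
    (hL : ∀ F G : ℝ → ℝ, (∀ s ∈ S, F s ≤ G (σ s)) →
      ∫⁻ s in S, ENNReal.ofReal (F s) ≤ ∫⁻ z in Ioi (0 : ℝ), ENNReal.ofReal (G z))
    (hσ : ∀ s ∈ S, 0 ≤ σ s) (hq : 0 ≤ q) (hb : 0 ≤ q * b) (hB : 0 < q * B) (k0 : 0 ≤ c0)
    (k1 : 0 ≤ c1) (k2 : 0 ≤ c2) (ke : 0 ≤ e0)
    (hD : ∀ s ∈ S, a0 + b * σ s + B * σ s ^ 2 ≤ Dm m ρ θ s)
    (hW : ∀ s ∈ S, Wm m θ w s ≤ c0 + c1 * σ s + c2 * σ s ^ 2)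
    (hE : ∀ s ∈ S, exp (pm m s) ≤ e0) :
    Zone q m ρ θ w S (exp (-(q * a0)) * h0 (q * b) (q * B))
      (exp (-(q * a0)) * (c0 * h0 (q * b) (q * B) + c1 * h1 (q * B) + c2 * h2 (q * B)))
      (e0 * (exp (-(q * a0)) * h0 (q * b) (q * B))) := by
  have hx : ∀ s ∈ S, exp (-(q * Dm m ρ θ s)) ≤ exp (-(q * a0)) *
      exp (-(q * b * σ s + q * B * σ s ^ 2)) := by
    intro s hs
    rw [← Real.exp_add]
    apply exp_le_exp.2
    have := mul_le_mul_of_nonneg_left (hD s hs) hq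
    linarith
  have hp := exp_pos (-(q * a0))
  have i0 : ∫⁻ s in S, ENNReal.ofReal (exp (-(q * Dm m ρ θ s))) ≤
      ENNReal.ofReal (exp (-(q * a0)) * h0 (q * b) (q * B)) := by
    refine (hL _ (fun z => exp (-(q * a0)) * exp (-(q * b * z + q * B * z ^ 2))) hx).trans ?_
    simp_rw [ENNReal.ofReal_mul hp.le]
    rw [lintegral_const_mul _ (by fun_prop)]
    exact mul_le_mul_right (lint_h0 hb hB) _
  refine ⟨i0, ?_, ?_⟩
  · refine (hL _ (fun z => exp (-(q * a0)) * ((c0 + c1 * z + c2 * z ^ 2) *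
      exp (-(q * b * z + q * B * z ^ 2)))) fun s hs => ?_).trans ?_
    · have h1 := hσ s hs
      calc Wm m θ w s * exp (-(q * Dm m ρ θ s)) ≤ (c0 + c1 * σ s + c2 * σ s ^ 2) *
            (exp (-(q * a0)) * exp (-(q * b * σ s + q * B * σ s ^ 2))) :=
            mul_le_mul (hW s hs) (hx s hs) (exp_pos _).le (by positivity)
        _ = _ := by ring
    · simp_rw [ENNReal.ofReal_mul hp.le]
      rw [lintegral_const_mul _ (by fun_prop)]
      exact mul_le_mul_right (lint_hW hb hB k0 k1 k2) _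
  · refine (hL _ (fun z => e0 * (exp (-(q * a0)) * exp (-(q * b * z + q * B * z ^ 2))))
      fun s hs => ?_).trans ?_
    · exact mul_le_mul (hE s hs) (hx s hs) (exp_pos _).le ke
    · simp_rw [ENNReal.ofReal_mul ke, ENNReal.ofReal_mul hp.le]
      rw [lintegral_const_mul _ (by fun_prop), lintegral_const_mul _ (by fun_prop)]
      exact mul_le_mul_right (mul_le_mul_right (lint_h0 hb hB) _) _

/-- A zone above `c` : `z = s - c`. -/
theorem Zone.above {q m ρ θ c a0 b B e0 c0 c1 c2 : ℝ} {w : ℂ} {S : Set ℝ} (mS : MeasurableSet S)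
    (hq : 0 < q) (hb : 0 ≤ b) (hB : 0 < B) (k0 : 0 ≤ c0) (k1 : 0 ≤ c1) (k2 : 0 ≤ c2)
    (ke : 0 ≤ e0) (hS : ∀ s ∈ S, c ≤ s)
    (hD : ∀ s ∈ S, a0 + b * (s - c) + B * (s - c) ^ 2 ≤ Dm m ρ θ s)
    (hW : ∀ s ∈ S, Wm m θ w s ≤ c0 + c1 * (s - c) + c2 * (s - c) ^ 2)
    (hE : ∀ s ∈ S, exp (pm m s) ≤ e0) :
    Zone q m ρ θ w S (exp (-(q * a0)) * h0 (q * b) (q * B))
      (exp (-(q * a0)) * (c0 * h0 (q * b) (q * B) + c1 * h1 (q * B) + c2 * h2 (q * B)))
      (e0 * (exp (-(q * a0)) * h0 (q * b) (q * B))) :=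
  zone_of (σ := fun s => s - c) (fun _ _ h => lint_above mS fun s hs => ⟨hS s hs, h s hs⟩)
    (fun s hs => by have := hS s hs; linarith) hq.le (by positivity) (by positivity)
    k0 k1 k2 ke hD hW hE

/-- A zone below `c` : `z = c - s`. -/
theorem Zone.below {q m ρ θ c a0 b B e0 c0 c1 c2 : ℝ} {w : ℂ} {S : Set ℝ} (mS : MeasurableSet S)
    (hq : 0 < q) (hb : 0 ≤ b) (hB : 0 < B) (k0 : 0 ≤ c0) (k1 : 0 ≤ c1) (k2 : 0 ≤ c2)
    (ke : 0 ≤ e0) (hS : ∀ s ∈ S, s ≤ c)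
    (hD : ∀ s ∈ S, a0 + b * (c - s) + B * (c - s) ^ 2 ≤ Dm m ρ θ s)
    (hW : ∀ s ∈ S, Wm m θ w s ≤ c0 + c1 * (c - s) + c2 * (c - s) ^ 2)
    (hE : ∀ s ∈ S, exp (pm m s) ≤ e0) :
    Zone q m ρ θ w S (exp (-(q * a0)) * h0 (q * b) (q * B))
      (exp (-(q * a0)) * (c0 * h0 (q * b) (q * B) + c1 * h1 (q * B) + c2 * h2 (q * B)))
      (e0 * (exp (-(q * a0)) * h0 (q * b) (q * B))) :=
  zone_of (σ := fun s => c - s) (fun _ _ h => lint_below mS fun s hs => ⟨hS s hs, h s hs⟩)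
    (fun s hs => by have := hS s hs; linarith) hq.le (by positivity) (by positivity)
    k0 k1 k2 ke hD hW hE

private theorem zone_ray {q m ρ θ a0 b e0 c0 c1 c2 : ℝ} {w : ℂ} {S : Set ℝ} {σ : ℝ → ℝ}
    (hL : ∀ F G : ℝ → ℝ, (∀ s ∈ S, F s ≤ G (σ s)) →
      ∫⁻ s in S, ENNReal.ofReal (F s) ≤ ∫⁻ z in Ioi (0 : ℝ), ENNReal.ofReal (G z))
    (hσ : ∀ s ∈ S, 0 ≤ σ s) (hq : 0 ≤ q) (hb : 0 < q * b) (k0 : 0 ≤ c0)
    (k1 : 0 ≤ c1) (k2 : 0 ≤ c2) (ke : 0 ≤ e0)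
    (hD : ∀ s ∈ S, a0 + b * σ s ≤ Dm m ρ θ s)
    (hW : ∀ s ∈ S, Wm m θ w s ≤ c0 + c1 * σ s + c2 * σ s ^ 2)
    (hE : ∀ s ∈ S, exp (pm m s) ≤ e0) :
    Zone q m ρ θ w S (exp (-(q * a0)) * (1 / (q * b)))
      (exp (-(q * a0)) * (c0 / (q * b) + c1 / (q * b) ^ 2 + c2 * (2 / (q * b) ^ 3)))
      (e0 * (exp (-(q * a0)) * (1 / (q * b)))) := by
  have hx : ∀ s ∈ S, exp (-(q * Dm m ρ θ s)) ≤ exp (-(q * a0)) * exp (-(q * b * σ s)) := by
    intro s hs
    rw [← Real.exp_add]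
    apply exp_le_exp.2
    have := mul_le_mul_of_nonneg_left (hD s hs) hq
    linarith
  have hp := exp_pos (-(q * a0))
  have j0 : ∫⁻ z in Ioi (0 : ℝ), ENNReal.ofReal (exp (-(q * b * z))) ≤
      ENNReal.ofReal (1 / (q * b)) := by
    have h := ray_poly (b := q * b) (c0 := 1) (c1 := 0) (c2 := 0) hb zero_le_one le_rfl le_rfl
    simpa using h
  have i0 : ∫⁻ s in S, ENNReal.ofReal (exp (-(q * Dm m ρ θ s))) ≤
      ENNReal.ofReal (exp (-(q * a0)) * (1 / (q * b))) := by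
    refine (hL _ (fun z => exp (-(q * a0)) * exp (-(q * b * z))) hx).trans ?_
    simp_rw [ENNReal.ofReal_mul hp.le]
    rw [lintegral_const_mul _ (by fun_prop)]
    exact mul_le_mul_right j0 _
  refine ⟨i0, ?_, ?_⟩
  · refine (hL _ (fun z => exp (-(q * a0)) * ((c0 + c1 * z + c2 * z ^ 2) *
      exp (-(q * b * z)))) fun s hs => ?_).trans ?_
    · have h1 := hσ s hs
      calc Wm m θ w s * exp (-(q * Dm m ρ θ s)) ≤ (c0 + c1 * σ s + c2 * σ s ^ 2) *
            (exp (-(q * a0)) * exp (-(q * b * σ s))) :=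
            mul_le_mul (hW s hs) (hx s hs) (exp_pos _).le (by positivity)
        _ = _ := by ring
    · simp_rw [ENNReal.ofReal_mul hp.le]
      rw [lintegral_const_mul _ (by fun_prop)]
      exact mul_le_mul_right (ray_poly hb k0 k1 k2) _
  · refine (hL _ (fun z => e0 * (exp (-(q * a0)) * exp (-(q * b * z))))
      fun s hs => ?_).trans ?_
    · exact mul_le_mul (hE s hs) (hx s hs) (exp_pos _).le ke
    · simp_rw [ENNReal.ofReal_mul ke, ENNReal.ofReal_mul hp.le]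
      rw [lintegral_const_mul _ (by fun_prop), lintegral_const_mul _ (by fun_prop)]
      exact mul_le_mul_right (mul_le_mul_right j0 _) _

/-- A ray above `c`. -/
theorem Zone.ray_above {q m ρ θ c a0 b e0 c0 c1 c2 : ℝ} {w : ℂ} {S : Set ℝ}
    (mS : MeasurableSet S) (hq : 0 < q) (hb : 0 < b) (k0 : 0 ≤ c0) (k1 : 0 ≤ c1) (k2 : 0 ≤ c2)
    (ke : 0 ≤ e0) (hS : ∀ s ∈ S, c ≤ s) (hD : ∀ s ∈ S, a0 + b * (s - c) ≤ Dm m ρ θ s)
    (hW : ∀ s ∈ S, Wm m θ w s ≤ c0 + c1 * (s - c) + c2 * (s - c) ^ 2)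
    (hE : ∀ s ∈ S, exp (pm m s) ≤ e0) :
    Zone q m ρ θ w S (exp (-(q * a0)) * (1 / (q * b)))
      (exp (-(q * a0)) * (c0 / (q * b) + c1 / (q * b) ^ 2 + c2 * (2 / (q * b) ^ 3)))
      (e0 * (exp (-(q * a0)) * (1 / (q * b)))) :=
  zone_ray (σ := fun s => s - c) (fun _ _ h => lint_above mS fun s hs => ⟨hS s hs, h s hs⟩)
    (fun s hs => by have := hS s hs; linarith) hq.le (by positivity)
    k0 k1 k2 ke hD hW hE

/-- A ray below `c`. -/
theorem Zone.ray_below {q m ρ θ c a0 b e0 c0 c1 c2 : ℝ} {w : ℂ} {S : Set ℝ}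
    (mS : MeasurableSet S) (hq : 0 < q) (hb : 0 < b) (k0 : 0 ≤ c0) (k1 : 0 ≤ c1) (k2 : 0 ≤ c2)
    (ke : 0 ≤ e0) (hS : ∀ s ∈ S, s ≤ c) (hD : ∀ s ∈ S, a0 + b * (c - s) ≤ Dm m ρ θ s)
    (hW : ∀ s ∈ S, Wm m θ w s ≤ c0 + c1 * (c - s) + c2 * (c - s) ^ 2)
    (hE : ∀ s ∈ S, exp (pm m s) ≤ e0) :
    Zone q m ρ θ w S (exp (-(q * a0)) * (1 / (q * b)))
      (exp (-(q * a0)) * (c0 / (q * b) + c1 / (q * b) ^ 2 + c2 * (2 / (q * b) ^ 3)))
      (e0 * (exp (-(q * a0)) * (1 / (q * b)))) :=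
  zone_ray (σ := fun s => c - s) (fun _ _ h => lint_below mS fun s hs => ⟨hS s hs, h s hs⟩)
    (fun s hs => by have := hS s hs; linarith) hq.le (by positivity)
    k0 k1 k2 ke hD hW hE

end SokalCen
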