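import Pool.Agent.Lib_MP_af4de1_v3.CenA

/-!
# CEN: the part `Qm` of the height without the angle (`0 < ρ ≤ m`)
-/

set_option autoImplicit false

namespace SokalCen

open Real

theorem Dm_eq (m ρ θ s : ℝ) : Dm m ρ θ s = Qm m ρ s + exp (pm m s) * (1 - cos (θ + s)) := by
  unfold Dm Qm
  ring

@[fun_prop]
theorem continuous_Qm (m ρ : ℝ) : Continuous (Qm m ρ) := by
  unfold Qm
  fun_prop

@[fun_prop]
theorem continuous_Dm (m ρ θ : ℝ) : Continuous (Dm m ρ θ) := by
  unfold Dm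
  fun_prop

theorem pm_nonneg {m s : ℝ} (hm : 0 < m) (hs : 0 ≤ s) : 0 ≤ pm m s := by
  unfold pm
  exact le_max_of_le_right (le_min one_pos.le (div_nonneg hs hm.le))

theorem pm_nonpos {m s : ℝ} (hm : 0 < m) (hs : s ≤ 0) : pm m s ≤ 0 := by
  unfold pm
  refine max_le (by norm_num) ((min_le_right _ _).trans ?_)
  exact div_nonpos_of_nonpos_of_nonneg hs hm.le

theorem one_le_mu {m ρ : ℝ} (hρ : 0 < ρ) (hm : ρ ≤ m) : 1 ≤ m / ρ := by
  rwa [le_div_iff₀ hρ, one_mul]

private theorem cb_mu {m ρ s : ℝ} (hρ : 0 < ρ) (hm : 0 < m) : s / m * s / ρ = m / ρ * (s / m) ^ 2 := by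
  field_simp

theorem Qm_right {m ρ s T : ℝ} (hρ : 0 < ρ) (hm : 0 < m) (hs : 0 ≤ s) (hT : s / m ≤ T) (hT1 : T ≤ 1) :
    aR m ρ T * s ^ 2 ≤ Qm m ρ s := by
  have ha0 : 0 ≤ s / m := div_nonneg hs hm.le
  have hpa : pm m s = s / m := by
    unfold pm
    rw [min_eq_right (hT.trans hT1), max_eq_right (by linarith)]
  have e1 : aR m ρ T * s ^ 2 = (m / ρ - (1 + T / 3 + 5 * T ^ 2 / 48) / 2) * (s / m) ^ 2 := by
    unfold aR
    field_simp
  unfold Qm
  rw [hpa, e1, cb_mu hρ hm]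
  have hexp := Real.exp_bound' ha0 (hT.trans hT1) (n := 4) (by norm_num)
  generalize s / m = a at *
  generalize m / ρ = mu
  have h2 : Real.exp a ≤ 1 + a + a ^ 2 / 2 + a ^ 3 / 6 + 5 * a ^ 4 / 96 := by
    refine hexp.trans (le_of_eq ?_)
    norm_num [Finset.sum_range_succ, Nat.factorial]
    ring
  have h3 : a / 3 + 5 * a ^ 2 / 48 ≤ T / 3 + 5 * T ^ 2 / 48 := by
    have := pow_le_pow_left₀ ha0 hT 2
    linarith
  have h4 := mul_le_mul_of_nonneg_right h3 (sq_nonneg a)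
  nlinarith [h2, h4]

theorem Qm_left {m ρ s : ℝ} (hρ : 0 < ρ) (hm : 0 < m) (hs : 0 ≤ s) (hT : s / m ≤ 1) :
    aL m ρ * s ^ 2 ≤ Qm m ρ (-s) := by
  have ha0 : 0 ≤ s / m := div_nonneg hs hm.le
  have hpa : pm m (-s) = -(s / m) := by
    unfold pm
    rw [neg_div, min_eq_right (by linarith), max_eq_right (by linarith)]
  have e1 : aL m ρ * s ^ 2 = (m / ρ - 1 / 2) * (s / m) ^ 2 := by
    unfold aL
    field_simp
  have e2 : -(s / m) * -s / ρ = s / m * s / ρ := by ring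
  unfold Qm
  rw [hpa, e1, e2, cb_mu hρ hm]
  generalize s / m = b at *
  generalize m / ρ = mu
  have h2 : Real.exp (-b) ≤ 1 - b + b ^ 2 / 2 := by
    rw [Real.exp_neg]
    have h3 := Real.quadratic_le_exp_of_nonneg ha0
    have h4 : 0 < 1 + b + b ^ 2 / 2 := by positivity
    refine (inv_anti₀ h4 h3).trans ?_
    rw [inv_le_iff_one_le_mul₀ h4]
    nlinarith [sq_nonneg (b ^ 2)]
  nlinarith [h2]

private theorem rayr_mono {t x : ℝ} (ht : 0 < t) (htx : t ≤ x) (hx : x ≤ 1) :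
    (Real.exp x - 1) / x - (Real.exp t - 1) / t ≤ x - t := by
  have hd : ∀ y : ℝ, 0 < y → HasDerivAt (fun y : ℝ => y - (Real.exp y - 1) / y)
      (1 - (Real.exp y * y - (Real.exp y - 1) * 1) / y ^ 2) y := by
    intro y hy
    exact (hasDerivAt_id y).sub (((Real.hasDerivAt_exp y).sub_const 1).div (hasDerivAt_id y) hy.ne')
  have hm : MonotoneOn (fun y : ℝ => y - (Real.exp y - 1) / y) (Set.Icc t 1) := by
    refine monotoneOn_of_deriv_nonneg (convex_Icc t 1) ?_ ?_ ?_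
    · intro y hy
      exact (hd y (ht.trans_le hy.1)).continuousAt.continuousWithinAt
    · intro y hy
      rw [interior_Icc] at hy
      exact (hd y (ht.trans hy.1)).differentiableAt.differentiableWithinAt
    · intro y hy
      rw [interior_Icc] at hy
      have hy0 : 0 < y := ht.trans hy.1
      rw [(hd y hy0).deriv, sub_nonneg, div_le_one (by positivity)]
      have h1 := Real.add_one_le_exp y
      have h2 : 0 ≤ (Real.exp y - (y + 1)) * (1 - y) := mul_nonneg (by linarith) (by linarith [hy.2])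
      nlinarith
  have h := hm ⟨le_rfl, htx.trans hx⟩ ⟨htx, hx⟩ htx
  simp only at h
  linarith

private theorem rayl_mono {t x : ℝ} (ht : 0 < t) (htx : t ≤ x) (hx : x ≤ 1) :
    (1 - t - Real.exp (-t)) / t + t ≤ (1 - x - Real.exp (-x)) / x + x := by
  have hd : ∀ y : ℝ, 0 < y → HasDerivAt (fun y : ℝ => (1 - y - Real.exp (-y)) / y + y)
      (((-1 - Real.exp (-y) * -1) * y - (1 - y - Real.exp (-y)) * 1) / y ^ 2 + 1) y := by
    intro y hy
    have h1 : HasDerivAt (fun y : ℝ => Real.exp (-y)) (Real.exp (-y) * -1) y :=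
      (hasDerivAt_neg y).exp
    have h2 : HasDerivAt (fun y : ℝ => 1 - y) (-1) y := (hasDerivAt_id y).const_sub 1
    exact ((h2.sub h1).div (hasDerivAt_id y) hy.ne').add (hasDerivAt_id y)
  have hm : MonotoneOn (fun y : ℝ => (1 - y - Real.exp (-y)) / y + y) (Set.Icc t 1) := by
    refine monotoneOn_of_deriv_nonneg (convex_Icc t 1) ?_ ?_ ?_
    · intro y hy
      exact (hd y (ht.trans_le hy.1)).continuousAt.continuousWithinAt
    · intro y hy
      rw [interior_Icc] at hy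
      exact (hd y (ht.trans hy.1)).differentiableAt.differentiableWithinAt
    · intro y hy
      rw [interior_Icc] at hy
      have hy0 : 0 < y := ht.trans hy.1
      rw [(hd y hy0).deriv]
      have h1 := Real.add_one_le_exp (-y)
      have h3 : -1 ≤ ((-1 - Real.exp (-y) * -1) * y - (1 - y - Real.exp (-y)) * 1) / y ^ 2 := by
        rw [le_div_iff₀ (by positivity)]
        have h2 : 0 ≤ (Real.exp (-y) - (-y + 1)) * (1 + y) := mul_nonneg (by linarith) (by linarith)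
        nlinarith
      linarith
  exact hm ⟨le_rfl, htx.trans hx⟩ ⟨htx, hx⟩ htx

/-- the function of the right side, `x = s / √R` -/
private noncomputable def qr (m x : ℝ) : ℝ := 1 + min 1 x + m * min 1 x * x - Real.exp (min 1 x)

/-- the function of the left side -/
private noncomputable def ql (m x : ℝ) : ℝ := 1 - min 1 x + m * min 1 x * x - Real.exp (-min 1 x)

private theorem qr_mono {m t x : ℝ} (hm : 1 ≤ m) (ht : 0 < t) (htx : t ≤ x) : qr m t / t ≤ qr m x / x := by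
  have hx0 : 0 < x := ht.trans_le htx
  -- below `1`
  have hA : ∀ u v : ℝ, 0 < u → u ≤ v → v ≤ 1 → qr m u / u ≤ qr m v / v := by
    intro u v hu huv hv
    have hv0 : 0 < v := hu.trans_le huv
    have e : ∀ w : ℝ, 0 < w → w ≤ 1 → qr m w / w = 1 - (Real.exp w - 1) / w + m * w := by
      intro w hw hw1
      unfold qr
      rw [min_eq_right hw1]
      field_simp
      ring
    rw [e u hu (huv.trans hv), e v hv0 hv]
    have h1 := rayr_mono hu huv hv
    have h2 : (v - u) ≤ m * (v - u) := le_mul_of_one_le_left (by linarith) hm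
    linarith
  -- above `1`
  have hB : ∀ u v : ℝ, 1 ≤ u → u ≤ v → qr m u / u ≤ qr m v / v := by
    intro u v hu huv
    have hu0 : 0 < u := by linarith
    have hv0 : 0 < v := by linarith
    have e : ∀ w : ℝ, 1 ≤ w → qr m w / w = m - (Real.exp 1 - 2) / w := by
      intro w hw
      have hw0 : 0 < w := by linarith
      unfold qr
      rw [min_eq_left hw]
      field_simp
      ring
    rw [e u hu, e v (hu.trans huv)]
    have h1 : 0 ≤ Real.exp 1 - 2 := by
      have := Real.exp_one_gt_d9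
      linarith
    have h2 : (Real.exp 1 - 2) / v ≤ (Real.exp 1 - 2) / u := div_le_div_of_nonneg_left h1 hu0 huv
    linarith
  rcases le_total x 1 with h1 | h1
  · exact hA t x ht htx h1
  · rcases le_total t 1 with h2 | h2
    · exact (hA t 1 ht h2 le_rfl).trans (hB 1 x le_rfl h1)
    · exact hB t x h2 htx

private theorem ql_mono {m t x : ℝ} (hm : 1 ≤ m) (ht : 0 < t) (htx : t ≤ x) : ql m t / t ≤ ql m x / x := by
  have hx0 : 0 < x := ht.trans_le htx
  have hA : ∀ u v : ℝ, 0 < u → u ≤ v → v ≤ 1 → ql m u / u ≤ ql m v / v := by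
    intro u v hu huv hv
    have hv0 : 0 < v := hu.trans_le huv
    have e : ∀ w : ℝ, 0 < w → w ≤ 1 → ql m w / w = (1 - w - Real.exp (-w)) / w + m * w := by
      intro w hw hw1
      unfold ql
      rw [min_eq_right hw1]
      field_simp
      ring
    rw [e u hu (huv.trans hv), e v hv0 hv]
    have h1 := rayl_mono hu huv hv
    have h2 : (v - u) ≤ m * (v - u) := le_mul_of_one_le_left (by linarith) hm
    linarith
  have hB : ∀ u v : ℝ, 1 ≤ u → u ≤ v → ql m u / u ≤ ql m v / v := by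
    intro u v hu huv
    have hu0 : 0 < u := by linarith
    have hv0 : 0 < v := by linarith
    have e : ∀ w : ℝ, 1 ≤ w → ql m w / w = m - Real.exp (-1) / w := by
      intro w hw
      have hw0 : 0 < w := by linarith
      unfold ql
      rw [min_eq_left hw]
      field_simp
      ring
    rw [e u hu, e v (hu.trans huv)]
    have h2 : Real.exp (-1) / v ≤ Real.exp (-1) / u := div_le_div_of_nonneg_left (Real.exp_nonneg _) hu0 huv
    linarith
  rcases le_total x 1 with h1 | h1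
  · exact hA t x ht htx h1
  · rcases le_total t 1 with h2 | h2
    · exact (hA t 1 ht h2 le_rfl).trans (hB 1 x le_rfl h1)
    · exact hB t x h2 htx


private theorem Qm_eq_qr {m ρ s : ℝ} (hρ : 0 < ρ) (hm : 0 < m) (hs : 0 ≤ s) :
    Qm m ρ s = qr (m / ρ) (s / m) := by
  have h1 : pm m s = min 1 (s / m) := by
    unfold pm
    refine max_eq_right ?_
    have : 0 ≤ min 1 (s / m) := le_min one_pos.le (div_nonneg hs hm.le)
    linarith
  have h2 : s / ρ = m / ρ * (s / m) := by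
    field_simp
  unfold Qm qr
  rw [h1, mul_div_assoc, h2]
  ring

private theorem Qm_eq_ql {m ρ s : ℝ} (hρ : 0 < ρ) (hm : 0 < m) (hs : 0 ≤ s) :
    Qm m ρ (-s) = ql (m / ρ) (s / m) := by
  have h1 : pm m (-s) = -min 1 (s / m) := by
    unfold pm
    have h0 : 0 ≤ s / m := div_nonneg hs hm.le
    rw [neg_div, min_eq_right (by linarith), ← max_neg_neg]
  have h2 : s / ρ = m / ρ * (s / m) := by
    field_simp
  unfold Qm ql
  rw [h1, mul_div_assoc, neg_div, h2]
  ring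

theorem Qm_ray_right {m ρ s1 s : ℝ} (hρ : 0 < ρ) (hm : ρ ≤ m) (hs1 : 0 < s1) (h : s1 ≤ s) :
    Qm m ρ s1 * (s / s1) ≤ Qm m ρ s := by
  have hR : 0 < m := hρ.trans_le hm
  have hs : 0 < s := hs1.trans_le h
  have h1 := qr_mono (one_le_mu hρ hm) (div_pos hs1 hR) (div_le_div_of_nonneg_right h hR.le)
  rw [← Qm_eq_qr hρ hR hs1.le, ← Qm_eq_qr hρ hR hs.le, div_div_eq_mul_div, div_div_eq_mul_div,
    div_le_div_iff₀ hs1 hs] at h1
  have h2 : Qm m ρ s1 * s ≤ Qm m ρ s * s1 := by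
    have h3 : Qm m ρ s1 * m * s = (Qm m ρ s1 * s) * m := by ring
    have h4 : Qm m ρ s * m * s1 = (Qm m ρ s * s1) * m := by ring
    rw [h3, h4] at h1
    exact le_of_mul_le_mul_right h1 hR
  rw [← mul_div_assoc, div_le_iff₀ hs1]
  exact h2

theorem Qm_ray_left {m ρ s1 s : ℝ} (hρ : 0 < ρ) (hm : ρ ≤ m) (hs1 : 0 < s1) (h : s1 ≤ s) :
    Qm m ρ (-s1) * (s / s1) ≤ Qm m ρ (-s) := by
  have hR : 0 < m := hρ.trans_le hm
  have hs : 0 < s := hs1.trans_le h
  have h1 := ql_mono (one_le_mu hρ hm) (div_pos hs1 hR) (div_le_div_of_nonneg_right h hR.le)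
  rw [← Qm_eq_ql hρ hR hs1.le, ← Qm_eq_ql hρ hR hs.le, div_div_eq_mul_div, div_div_eq_mul_div,
    div_le_div_iff₀ hs1 hs] at h1
  have h2 : Qm m ρ (-s1) * s ≤ Qm m ρ (-s) * s1 := by
    have h3 : Qm m ρ (-s1) * m * s = (Qm m ρ (-s1) * s) * m := by ring
    have h4 : Qm m ρ (-s) * m * s1 = (Qm m ρ (-s) * s1) * m := by ring
    rw [h3, h4] at h1
    exact le_of_mul_le_mul_right h1 hR
  rw [← mul_div_assoc, div_le_iff₀ hs1]
  exact h2

theorem aR_pos {m ρ T : ℝ} (hρ : 0 < ρ) (hm : ρ ≤ m) (hT0 : 0 ≤ T) (hT1 : T ≤ 1) : 0 < aR m ρ T := by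
  have h1 := one_le_mu hρ hm
  have h2 : 0 < m := hρ.trans_le hm
  unfold aR
  refine div_pos ?_ (by positivity)
  nlinarith

theorem aL_pos {m ρ : ℝ} (hρ : 0 < ρ) (hm : ρ ≤ m) : 0 < aL m ρ := by
  have h1 := one_le_mu hρ hm
  have h2 : 0 < m := hρ.trans_le hm
  unfold aL
  exact div_pos (by linarith) (by positivity)

theorem cT_nonneg {m t : ℝ} (hm : 0 < m) (ht : 0 ≤ t) : 0 ≤ cT m t :=
  le_min one_pos.le (div_nonneg ht hm.le)

theorem cT_le (m t : ℝ) : cT m t ≤ 1 := min_le_left _ _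

theorem cF_pos {m t : ℝ} (hm : 0 < m) (ht : 0 < t) : 0 < min 1 (m / t) :=
  lt_min one_pos (div_pos hm ht)

theorem AR_pos {m ρ t : ℝ} (hρ : 0 < ρ) (hm : ρ ≤ m) (ht : 0 < t) : 0 < AR m ρ t := by
  have h2 : 0 < m := hρ.trans_le hm
  exact mul_pos (aR_pos hρ hm (cT_nonneg h2 ht.le) (cT_le _ _)) (cF_pos h2 ht)

theorem AL_pos {m ρ t : ℝ} (hρ : 0 < ρ) (hm : ρ ≤ m) (ht : 0 < t) : 0 < AL m ρ t := by
  have h2 : 0 < m := hρ.trans_le hm
  exact mul_pos (aL_pos hρ hm) (cF_pos h2 ht)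

/-- `Qm s ≥ AR s²` on `[0, t]` -/
theorem Qm_AR {m ρ s t : ℝ} (hρ : 0 < ρ) (hm : ρ ≤ m) (hs : 0 ≤ s) (h : s ≤ t) (ht : 0 < t) :
    AR m ρ t * s ^ 2 ≤ Qm m ρ s := by
  have hm0 : 0 < m := hρ.trans_le hm
  have hA := aR_pos hρ hm (cT_nonneg hm0 ht.le) (cT_le m t)
  have hF := cF_pos hm0 ht
  rcases le_total s m with h1 | h1
  · have h2 : s / m ≤ cT m t :=
      le_min ((div_le_one hm0).2 h1) (div_le_div_of_nonneg_right h hm0.le)
    refine le_trans ?_ (Qm_right hρ hm0 hs h2 (cT_le _ _))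
    unfold AR
    have h3 : min 1 (m / t) ≤ 1 := min_le_left _ _
    have h4 : 0 ≤ aR m ρ (cT m t) * s ^ 2 := by positivity
    nlinarith
  · have hT : cT m t = 1 := by
      unfold cT
      rw [min_eq_left]
      rw [le_div_iff₀ hm0, one_mul]
      exact h1.trans h
    have h2 := Qm_right hρ hm0 hm0.le (T := 1) (by rw [div_self hm0.ne']) le_rfl
    have h3 := Qm_ray_right hρ hm hm0 h1
    refine le_trans ?_ h3
    unfold AR
    rw [hT] at hA ⊢
    have h5 : min 1 (m / t) ≤ m / t := min_le_right _ _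
    have h6 : aR m ρ 1 * min 1 (m / t) * s ^ 2 ≤ aR m ρ 1 * (m / t) * s ^ 2 := by gcongr
    have h7 : aR m ρ 1 * (m / t) * s ^ 2 ≤ aR m ρ 1 * m * s := by
      have : s ^ 2 / t ≤ s := by
        rw [div_le_iff₀ ht]
        nlinarith
      have e : aR m ρ 1 * (m / t) * s ^ 2 = aR m ρ 1 * m * (s ^ 2 / t) := by ring
      rw [e]
      gcongr
    have h8 : aR m ρ 1 * m * s ≤ Qm m ρ m * (s / m) := by
      have e : aR m ρ 1 * m * s = aR m ρ 1 * m ^ 2 * (s / m) := by field_simp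
      rw [e]
      gcongr
    linarith

/-- `Qm (-v) ≥ AL v²` on `[0, t]` -/
theorem Qm_AL {m ρ s t : ℝ} (hρ : 0 < ρ) (hm : ρ ≤ m) (hs : 0 ≤ s) (h : s ≤ t) (ht : 0 < t) :
    AL m ρ t * s ^ 2 ≤ Qm m ρ (-s) := by
  have hm0 : 0 < m := hρ.trans_le hm
  have hA := aL_pos hρ hm
  have hF := cF_pos hm0 ht
  rcases le_total s m with h1 | h1
  · refine le_trans ?_ (Qm_left hρ hm0 hs ((div_le_one hm0).2 h1))
    unfold AL
    have h3 : min 1 (m / t) ≤ 1 := min_le_left _ _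
    have h4 : 0 ≤ aL m ρ * s ^ 2 := by positivity
    nlinarith
  · have h2 := Qm_left hρ hm0 hm0.le (by rw [div_self hm0.ne'])
    have h3 := Qm_ray_left hρ hm hm0 h1
    refine le_trans ?_ h3
    unfold AL
    have h5 : min 1 (m / t) ≤ m / t := min_le_right _ _
    have h6 : aL m ρ * min 1 (m / t) * s ^ 2 ≤ aL m ρ * (m / t) * s ^ 2 := by gcongr
    have h7 : aL m ρ * (m / t) * s ^ 2 ≤ aL m ρ * m * s := by
      have : s ^ 2 / t ≤ s := by
        rw [div_le_iff₀ ht]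
        nlinarith
      have e : aL m ρ * (m / t) * s ^ 2 = aL m ρ * m * (s ^ 2 / t) := by ring
      rw [e]
      gcongr
    have h8 : aL m ρ * m * s ≤ Qm m ρ (-m) * (s / m) := by
      have e : aL m ρ * m * s = aL m ρ * m ^ 2 * (s / m) := by field_simp
      rw [e]
      gcongr
    linarith

theorem Qm_nonneg {m ρ : ℝ} (hρ : 0 < ρ) (hm : ρ ≤ m) (s : ℝ) : 0 ≤ Qm m ρ s := by
  rcases eq_or_ne s 0 with rfl | h0
  · unfold Qm pm
    simp
  rcases le_total 0 s with hs | hs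
  · have h1 : 0 < s := lt_of_le_of_ne hs h0.symm
    have h2 := Qm_AR hρ hm hs le_rfl h1
    have h3 := AR_pos hρ hm h1
    refine le_trans ?_ h2
    positivity
  · have h1 : 0 < -s := by
      have : s < 0 := lt_of_le_of_ne hs h0
      linarith
    have h2 := Qm_AL hρ hm h1.le le_rfl h1
    have h3 := AL_pos hρ hm h1
    rw [neg_neg] at h2
    refine le_trans ?_ h2
    positivity

theorem Dm_nonneg {m ρ : ℝ} (hρ : 0 < ρ) (hm : ρ ≤ m) (θ s : ℝ) : 0 ≤ Dm m ρ θ s := by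
  rw [Dm_eq]
  have h1 := Qm_nonneg hρ hm s
  have h2 := Real.cos_le_one (θ + s)
  have h3 : 0 ≤ exp (pm m s) * (1 - cos (θ + s)) := mul_nonneg (exp_pos _).le (by linarith)
  linarith

/-- behind, right: `Qm (t+z) ≥ AR t² + AR t z` -/
theorem Qm_beh_R {m ρ t z : ℝ} (hρ : 0 < ρ) (hm : ρ ≤ m) (ht : 0 < t) (hz : 0 ≤ z) :
    AR m ρ t * t ^ 2 + AR m ρ t * t * z ≤ Qm m ρ (t + z) := by
  have h1 := Qm_ray_right hρ hm ht (by linarith : t ≤ t + z)
  have h2 := Qm_AR hρ hm ht.le le_rfl ht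
  refine le_trans ?_ h1
  have e : AR m ρ t * t ^ 2 + AR m ρ t * t * z = AR m ρ t * t ^ 2 * ((t + z) / t) := by
    field_simp
  rw [e]
  gcongr

/-- behind, left -/
theorem Qm_beh_L {m ρ t z : ℝ} (hρ : 0 < ρ) (hm : ρ ≤ m) (ht : 0 < t) (hz : 0 ≤ z) :
    AL m ρ t * t ^ 2 + AL m ρ t * t * z ≤ Qm m ρ (-(t + z)) := by
  have h1 := Qm_ray_left hρ hm ht (by linarith : t ≤ t + z)
  have h2 := Qm_AL hρ hm ht.le le_rfl ht
  refine le_trans ?_ h1
  have e : AL m ρ t * t ^ 2 + AL m ρ t * t * z = AL m ρ t * t ^ 2 * ((t + z) / t) := by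
    field_simp
  rw [e]
  gcongr

end SokalCen
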