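import Pool.Agent.Lib_MP_af4de1_v3.CenG
import Pool.Agent.Lib_MP_af4de1_v3.CenB
import Pool.Agent.Lib_MP_af4de1_v3.TailInt

/-!
# CEN, zone Z1: the main zone, both sides

Left `θ = t`, `s = -v`; right `θ = -t`, `s = v`; `0 ≤ v ≤ t`, `u = t - v`.
`zmain_of_L`, `zmain_of_R` : general hypotheses (two-term Gaussian on `[0,t]`);
`zgauss_L`, `zgauss_R` : the same over any set, with the exact moments over the line;
`zmain_L`, `zmain_R` : the closed forms of `CenDef` with `w = 1`.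
-/

set_option autoImplicit false

namespace SokalCen

open Real MeasureTheory Set

/-! ## the window -/

theorem win_t {t : ℝ} (h0 : 0 < t) (h1 : t ≤ π) : Win ((1 - cos t) / t ^ 2) t := by
  have hc : cos t < 1 := by
    have := Real.cos_lt_cos_of_nonneg_of_le_pi le_rfl h1 h0
    rwa [cos_zero] at this
  refine ⟨div_pos (by linarith) (by positivity), fun u hu hut _ => ?_⟩
  rw [div_mul_eq_mul_div, div_le_iff₀ (by positivity)]
  have hx : 0 ≤ t / 2 := by linarith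
  have hs0 : 0 ≤ sin (t / 2) := sin_nonneg_of_nonneg_of_le_pi hx (by linarith [pi_pos])
  have hsu : 0 ≤ sin (u / 2) := sin_nonneg_of_nonneg_of_le_pi (by linarith) (by linarith [pi_pos])
  -- concavity of the sine
  have hcon := strictConcaveOn_sin_Icc.concaveOn.2 (left_mem_Icc.2 pi_pos.le)
    (⟨hx, by linarith [pi_pos]⟩ : t / 2 ∈ Icc 0 π)
    (show 0 ≤ 1 - u / t by rw [sub_nonneg, div_le_one h0]; exact hut)
    (show 0 ≤ u / t by positivity) (by ring)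
  simp only [smul_eq_mul, sin_zero, mul_zero, zero_add] at hcon
  have e1 : u / t * (t / 2) = u / 2 := by field_simp
  rw [e1] at hcon
  have h2 : u * sin (t / 2) ≤ t * sin (u / 2) := by
    have := mul_le_mul_of_nonneg_left hcon h0.le
    rwa [← mul_assoc, mul_div_cancel₀ _ h0.ne'] at this
  have h3 : (u * sin (t / 2)) ^ 2 ≤ (t * sin (u / 2)) ^ 2 :=
    pow_le_pow_left₀ (mul_nonneg hu hs0) h2 2
  have e2 : 1 - cos t = 2 * sin (t / 2) ^ 2 := by
    have h5 := Real.cos_two_mul (t / 2)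
    rw [mul_div_cancel₀ _ (two_ne_zero' ℝ)] at h5
    have h4 := Real.sin_sq_add_cos_sq (t / 2)
    linarith
  have e3 : 1 - cos u = 2 * sin (u / 2) ^ 2 := by
    have h5 := Real.cos_two_mul (u / 2)
    rw [mul_div_cancel₀ _ (two_ne_zero' ℝ)] at h5
    have h4 := Real.sin_sq_add_cos_sq (u / 2)
    linarith
  rw [e2, e3]
  rw [mul_pow, mul_pow] at h3
  linarith

private theorem cz_cos {u : ℝ} (h0 : 0 ≤ u) (h1 : u ≤ 6 / 5) : 11 / 25 * u ^ 2 ≤ 1 - cos u := by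
  have h := SokalV3T.cos_le_quart h0
  have h2 : u ^ 2 ≤ 36 / 25 := by nlinarith
  nlinarith [mul_nonneg (sq_nonneg u) (sub_nonneg.2 h2)]

theorem win_all (t : ℝ) : Win (11 / 25) t :=
  ⟨by norm_num, fun _ hu _ hu2 => cz_cos hu hu2⟩

/-! ## the factor `e^a` on the left -/

theorem pm_ge {m v : ℝ} (hm : 0 < m) (_ : 0 ≤ v) : -(v / m) ≤ pm m (-v) := by
  unfold pm
  refine le_max_of_le_right (le_min ?_ ?_)
  · have : 0 ≤ v / m := by positivity
    linarith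
  · rw [neg_div]

theorem lft_sigma {m t β σ : ℝ} (hm : 0 < m) (ht : 0 ≤ t) (hβ : 0 < β) (h0 : 0 ≤ σ) (h1 : σ ≤ 1) :
    Lft m t β (β * exp (-(σ * (t / m))))
      (4 / 27 * (1 - σ) ^ 3 * (t / m) * (β * exp (-(σ * (t / m)))) * t ^ 2) := by
  have h1' : 0 ≤ 1 - σ := by linarith
  refine ⟨by positivity, by positivity, fun v hv hvt => ?_⟩
  have hp := pm_ge hm hv
  have hE := exp_pos (-(σ * (t / m)))
  have h2 : exp (-(v / m)) ≤ exp (pm m (-v)) := exp_le_exp.2 hp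
  have hsq : 0 ≤ β * (t - v) ^ 2 := by positivity
  refine le_trans ?_ (mul_le_mul_of_nonneg_right h2 hsq)
  have h3 : exp (-(σ * (t / m))) * (1 - (v / m - σ * (t / m))) ≤ exp (-(v / m)) := by
    have h4 := add_one_le_exp (-(v / m - σ * (t / m)))
    have e : exp (-(v / m)) = exp (-(σ * (t / m))) * exp (-(v / m - σ * (t / m))) := by
      rw [← exp_add]
      congr 1
      ring
    rw [e]
    exact mul_le_mul_of_nonneg_left (by linarith) hE.le
  refine le_trans ?_ (mul_le_mul_of_nonneg_right h3 hsq)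
  -- `(t-v)² (v - σ t) ≤ (4/27) (1-σ)³ t³`
  have h5 : (t - v) ^ 2 * (v - σ * t) ≤ 4 / 27 * (1 - σ) ^ 3 * t ^ 3 := by
    have hx : 0 ≤ t - v := by linarith
    have hst : 0 ≤ (1 - σ) * t := mul_nonneg h1' ht
    have e : 4 / 27 * (1 - σ) ^ 3 * t ^ 3 - (t - v) ^ 2 * (v - σ * t) =
        ((t - v) - 2 / 3 * ((1 - σ) * t)) ^ 2 * ((t - v) + 1 / 3 * ((1 - σ) * t)) := by ring
    have : 0 ≤ ((t - v) - 2 / 3 * ((1 - σ) * t)) ^ 2 * ((t - v) + 1 / 3 * ((1 - σ) * t)) := by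
      positivity
    linarith
  have h6 : 0 ≤ β * exp (-(σ * (t / m))) / m := by positivity
  have h7 := mul_le_mul_of_nonneg_left h5 h6
  have e1 : exp (-(σ * (t / m))) * (1 - (v / m - σ * (t / m))) * (β * (t - v) ^ 2) =
      β * exp (-(σ * (t / m))) * (t - v) ^ 2 -
        β * exp (-(σ * (t / m))) / m * ((t - v) ^ 2 * (v - σ * t)) := by
    ring
  have e2 : 4 / 27 * (1 - σ) ^ 3 * (t / m) * (β * exp (-(σ * (t / m)))) * t ^ 2 =
      β * exp (-(σ * (t / m))) / m * (4 / 27 * (1 - σ) ^ 3 * t ^ 3) := by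
    ring
  rw [e1, e2]
  linarith

theorem lft_one {m t β : ℝ} (hm : 0 < m) (ht : 0 ≤ t) (hβ : 0 < β) :
    Lft m t β (β * exp (-(t / m))) 0 := by
  have h := lft_sigma (σ := 1) hm ht hβ (by norm_num) le_rfl
  simpa using h

/-! ## the weight with `w = 1` -/

theorem Wm_one (m θ s : ℝ) : Wm m θ 1 s =
    (exp (pm m s) - 1) ^ 2 + 2 * exp (pm m s) * (1 - cos (θ + s)) := by
  unfold Wm em
  have h : Complex.exp (pm m s + (θ + s) * Complex.I) - 1 =
      ((exp (pm m s) * cos (θ + s) - 1 : ℝ) : ℂ) +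
      ((exp (pm m s) * sin (θ + s) : ℝ) : ℂ) * Complex.I := by
    have e : ((pm m s : ℝ) : ℂ) + (θ + s) * Complex.I = (pm m s : ℂ) + ((θ + s : ℝ) : ℂ) * Complex.I := by
      push_cast
      ring
    rw [e, Complex.exp_add, Complex.exp_mul_I, ← Complex.ofReal_exp, ← Complex.ofReal_cos,
      ← Complex.ofReal_sin]
    push_cast
    ring
  rw [h, Complex.sq_norm, Complex.normSq_add_mul_I]
  linear_combination (exp (pm m s) ^ 2) * Real.sin_sq_add_cos_sq (θ + s)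

theorem one_sub_cos_le (u : ℝ) : 2 * (1 - cos u) ≤ u ^ 2 := by
  have := Real.one_sub_sq_div_two_le_cos (x := u)
  linarith

theorem Wm_one_L {m θ s : ℝ} (hm : 0 < m) (hs : s ≤ 0) :
    Wm m θ 1 s ≤ 1 / m ^ 2 * s ^ 2 + (θ + s) ^ 2 := by
  rw [Wm_one]
  have hp0 : pm m s ≤ 0 := pm_nonpos hm hs
  have hp := pm_ge hm (neg_nonneg.2 hs)
  rw [neg_neg, neg_div, neg_neg] at hp
  have he1 : exp (pm m s) ≤ 1 := exp_le_one_iff.2 hp0
  have he0 := exp_pos (pm m s)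
  have h1 := add_one_le_exp (pm m s)
  have h2 : (exp (pm m s) - 1) ^ 2 ≤ (s / m) ^ 2 := by
    rw [← neg_sq (exp (pm m s) - 1), ← neg_sq (s / m)]
    exact pow_le_pow_left₀ (by linarith) (by linarith) 2
  have e : 1 / m ^ 2 * s ^ 2 = (s / m) ^ 2 := by
    field_simp
  rw [e]
  have h3 := one_sub_cos_le (θ + s)
  have h4 : 0 ≤ 1 - cos (θ + s) := by
    have := cos_le_one (θ + s)
    linarith
  nlinarith

/-- slope of `e^a - 1` on `[0, T]` -/
noncomputable def eS (T : ℝ) : ℝ := (exp T - 1) / T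

theorem eS_ge {a T : ℝ} (h0 : 0 ≤ a) (h : a ≤ T) (hT : 0 < T) : exp a - 1 ≤ eS T * a := by
  have hcon := convexOn_exp.2 (mem_univ 0) (mem_univ T)
    (show 0 ≤ 1 - a / T by rw [sub_nonneg, div_le_one hT]; exact h)
    (show 0 ≤ a / T by positivity) (by ring)
  simp only [smul_eq_mul, mul_zero, zero_add, exp_zero, mul_one] at hcon
  rw [div_mul_cancel₀ _ hT.ne'] at hcon
  unfold eS
  have e : (exp T - 1) / T * a = a / T * exp T - a / T := by
    field_simp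
  rw [e]
  linarith

theorem eS_nonneg {T : ℝ} (hT : 0 < T) : 0 ≤ eS T := by
  unfold eS
  have := add_one_le_exp T
  exact div_nonneg (by linarith) hT.le

theorem pm_le {m s : ℝ} (hm : 0 < m) (hs : 0 ≤ s) : pm m s ≤ s / m := by
  unfold pm
  refine max_le ?_ (min_le_right _ _)
  have : 0 ≤ s / m := by positivity
  linarith

theorem pm_le_cT {m s t : ℝ} (hm : 0 < m) (hs : 0 ≤ s) (h : s ≤ t) : pm m s ≤ cT m t := by
  unfold pm cT
  have h1 : s / m ≤ t / m := div_le_div_of_nonneg_right h hm.le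
  refine max_le ?_ (min_le_min le_rfl h1)
  refine le_min (by norm_num) ?_
  have : 0 ≤ s / m := by positivity
  linarith

theorem Wm_one_R {m θ s t : ℝ} (hm : 0 < m) (hs : 0 ≤ s) (h : s ≤ t) (ht : 0 < t) :
    Wm m θ 1 s ≤ eS (cT m t) ^ 2 / m ^ 2 * s ^ 2 + exp (cT m t) * (θ + s) ^ 2 := by
  rw [Wm_one]
  have hp0 : 0 ≤ pm m s := pm_nonneg hm hs
  have hp := pm_le hm hs
  have hpT := pm_le_cT hm hs h
  have hT : 0 < cT m t := lt_min one_pos (div_pos ht hm)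
  have he := exp_le_exp.2 hpT
  have he0 := exp_pos (pm m s)
  have h1 := eS_ge hp0 hpT hT
  have hS := eS_nonneg hT
  have he1 : 1 ≤ exp (pm m s) := one_le_exp hp0
  have h2 : (exp (pm m s) - 1) ^ 2 ≤ (eS (cT m t) * (s / m)) ^ 2 :=
    pow_le_pow_left₀ (by linarith) (h1.trans (mul_le_mul_of_nonneg_left hp hS)) 2
  have e : eS (cT m t) ^ 2 / m ^ 2 * s ^ 2 = (eS (cT m t) * (s / m)) ^ 2 := by
    field_simp
  rw [e]
  have h3 := one_sub_cos_le (θ + s)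
  have h4 : 0 ≤ 1 - cos (θ + s) := by
    have := cos_le_one (θ + s)
    linarith
  nlinarith [mul_le_mul_of_nonneg_left h3 he0.le, mul_le_mul_of_nonneg_right he (sq_nonneg (θ + s))]

/-! ## the zones -/

private theorem cz_mono {S T : Set ℝ} {F G : ℝ → ℝ} (hS : MeasurableSet S) (hST : S ⊆ T)
    (h : ∀ s ∈ S, F s ≤ G s) :
    ∫⁻ s in S, ENNReal.ofReal (F s) ≤ ∫⁻ s in T, ENNReal.ofReal (G s) :=
  (setLIntegral_mono' hS fun s hs => ENNReal.ofReal_le_ofReal (h s hs)).trans (lintegral_mono_set hST)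

private theorem cz_ee {S : Set ℝ} {F G : ℝ → ℝ} {ee J : ℝ} (hS : MeasurableSet S) (hee : 0 ≤ ee)
    (h : ∀ s ∈ S, G s ≤ ee) (hF : ∀ s, 0 ≤ F s)
    (hJ : ∫⁻ s in S, ENNReal.ofReal (F s) ≤ ENNReal.ofReal J) :
    ∫⁻ s in S, ENNReal.ofReal (G s * F s) ≤ ENNReal.ofReal (ee * J) := by
  calc ∫⁻ s in S, ENNReal.ofReal (G s * F s)
      ≤ ∫⁻ s in S, ENNReal.ofReal ee * ENNReal.ofReal (F s) := by
        refine setLIntegral_mono' hS fun s hs => ?_
        rw [← ENNReal.ofReal_mul hee]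
        exact ENNReal.ofReal_le_ofReal (mul_le_mul_of_nonneg_right (h s hs) (hF s))
    _ = ENNReal.ofReal ee * ∫⁻ s in S, ENNReal.ofReal (F s) :=
        lintegral_const_mul' _ _ ENNReal.ofReal_ne_top
    _ ≤ ENNReal.ofReal ee * ENNReal.ofReal J := mul_le_mul_right hJ _
    _ = ENNReal.ofReal (ee * J) := (ENNReal.ofReal_mul hee).symm

/-- MAIN ZONE, right, general hypotheses. -/
theorem zmain_of_R {q m ρ t A B l a0 a1 a2 ee : ℝ} {w : ℂ} {S : Set ℝ} (hq : 0 < q) (hA : 0 < A)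
    (hB : 0 < B) (ht : 0 ≤ t) (hS : MeasurableSet S) (hSt : ∀ s ∈ S, 0 ≤ s ∧ s ≤ t)
    (hD : ∀ s ∈ S, A * s ^ 2 + B * (t - s) ^ 2 - l ≤ Dm m ρ (-t) s)
    (h0 : 0 ≤ a0) (h1 : 0 ≤ a1) (h2 : 0 ≤ a2)
    (hW : ∀ s ∈ S, Wm m (-t) w s ≤ a0 + a1 * s ^ 2 + a2 * (t - s) ^ 2)
    (hee : 0 ≤ ee) (he : ∀ s ∈ S, exp (pm m s) ≤ ee) :
    Zone q m ρ (-t) w S (g0 q A B t l) (gW q A B t l a0 a1 a2) (ee * g0 q A B t l) := by
  have hST : S ⊆ Icc 0 t := fun s hs => ⟨(hSt s hs).1, (hSt s hs).2⟩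
  have hE : ∀ s ∈ S, exp (-(q * Dm m ρ (-t) s)) ≤
      exp (-(q * (A * s ^ 2 + B * (t - s) ^ 2 - l))) := fun s hs => by
    refine exp_le_exp.2 ?_
    have := mul_le_mul_of_nonneg_left (hD s hs) hq.le
    linarith
  have i0 := (cz_mono hS hST hE).trans (g0_le hq hA hB ht)
  refine ⟨i0, ?_, cz_ee hS hee he (fun s => (exp_pos _).le) i0⟩
  refine (cz_mono hS hST fun s hs => ?_).trans (gW_le (a0 := a0) (a1 := a1) (a2 := a2) hq hA hB ht
    h0 h1 h2)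
  exact mul_le_mul (hW s hs) (hE s hs) (exp_pos _).le (by positivity)

/-- MAIN ZONE, left, general hypotheses. -/
theorem zmain_of_L {q m ρ t A B l a0 a1 a2 ee : ℝ} {w : ℂ} {S : Set ℝ} (hq : 0 < q) (hA : 0 < A)
    (hB : 0 < B) (ht : 0 ≤ t) (hS : MeasurableSet S) (hSt : ∀ s ∈ S, -t ≤ s ∧ s ≤ 0)
    (hD : ∀ s ∈ S, A * s ^ 2 + B * (t + s) ^ 2 - l ≤ Dm m ρ t s)
    (h0 : 0 ≤ a0) (h1 : 0 ≤ a1) (h2 : 0 ≤ a2)
    (hW : ∀ s ∈ S, Wm m t w s ≤ a0 + a1 * s ^ 2 + a2 * (t + s) ^ 2)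
    (hee : 0 ≤ ee) (he : ∀ s ∈ S, exp (pm m s) ≤ ee) :
    Zone q m ρ t w S (g0 q A B t l) (gW q A B t l a0 a1 a2) (ee * g0 q A B t l) := by
  have hST : S ⊆ Icc (-t) 0 := fun s hs => ⟨(hSt s hs).1, (hSt s hs).2⟩
  have hE : ∀ s ∈ S, exp (-(q * Dm m ρ t s)) ≤
      exp (-(q * (A * s ^ 2 + B * (t + s) ^ 2 - l))) := fun s hs => by
    refine exp_le_exp.2 ?_
    have := mul_le_mul_of_nonneg_left (hD s hs) hq.le
    linarith
  have i0 : ∫⁻ s in S, ENNReal.ofReal (exp (-(q * Dm m ρ t s))) ≤ ENNReal.ofReal (g0 q A B t l) := by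
    refine (cz_mono hS hST hE).trans ?_
    rw [lint_Icc_neg, neg_zero, neg_neg]
    refine le_trans (le_of_eq ?_) (g0_le (l := l) hq hA hB ht)
    refine lintegral_congr fun v => ?_
    rw [neg_sq, ← sub_eq_add_neg]
  refine ⟨i0, ?_, cz_ee hS hee he (fun s => (exp_pos _).le) i0⟩
  refine (cz_mono hS hST (G := fun s => (a0 + a1 * s ^ 2 + a2 * (t + s) ^ 2) *
    exp (-(q * (A * s ^ 2 + B * (t + s) ^ 2 - l)))) fun s hs => ?_).trans ?_
  · exact mul_le_mul (hW s hs) (hE s hs) (exp_pos _).le (by positivity)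
  · rw [lint_Icc_neg, neg_zero, neg_neg]
    refine le_trans (le_of_eq ?_) (gW_le (l := l) (a0 := a0) (a1 := a1) (a2 := a2) hq hA hB ht
      h0 h1 h2)
    refine lintegral_congr fun v => ?_
    rw [neg_sq, ← sub_eq_add_neg]

/-- the value of the full two-term Gaussian with the weight `a0 + a1 v² + a2 (t-v)²` -/
noncomputable def gF (q A B t l a0 a1 a2 : ℝ) : ℝ :=
  gG q A B * (a0 + a1 * (gv A B t ^ 2 + gs q A B) + a2 * ((t - gv A B t) ^ 2 + gs q A B)) *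
    exp (-(q * (A * B * t ^ 2 / (A + B) - l)))

/-- ANY set, right, exact moments over the line. -/
theorem zgauss_R {q m ρ t A B l a0 a1 a2 ee : ℝ} {w : ℂ} {S : Set ℝ} (hq : 0 < q) (hA : 0 < A)
    (hB : 0 < B) (hS : MeasurableSet S)
    (hD : ∀ s ∈ S, A * s ^ 2 + B * (t - s) ^ 2 - l ≤ Dm m ρ (-t) s)
    (h0 : 0 ≤ a0) (h1 : 0 ≤ a1) (h2 : 0 ≤ a2)
    (hW : ∀ s ∈ S, Wm m (-t) w s ≤ a0 + a1 * s ^ 2 + a2 * (t - s) ^ 2)
    (hee : 0 ≤ ee) (he : ∀ s ∈ S, exp (pm m s) ≤ ee) :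
    Zone q m ρ (-t) w S (gF q A B t l 1 0 0) (gF q A B t l a0 a1 a2) (ee * gF q A B t l 1 0 0) := by
  have hE : ∀ s ∈ S, exp (-(q * Dm m ρ (-t) s)) ≤
      exp (-(q * (A * s ^ 2 + B * (t - s) ^ 2 - l))) := fun s hs => by
    refine exp_le_exp.2 ?_
    have := mul_le_mul_of_nonneg_left (hD s hs) hq.le
    linarith
  have i0 : ∫⁻ s in S, ENNReal.ofReal (exp (-(q * Dm m ρ (-t) s))) ≤
      ENNReal.ofReal (gF q A B t l 1 0 0) := by
    refine (cz_mono hS (subset_univ S) (G := fun s => (1 + 0 * s ^ 2 + 0 * (t - s) ^ 2) *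
      exp (-(q * (A * s ^ 2 + B * (t - s) ^ 2 - l)))) fun s hs => ?_).trans ?_
    · simp only [zero_mul, add_zero, one_mul]
      exact hE s hs
    · rw [Measure.restrict_univ]
      exact gfull_le hq hA hB zero_le_one le_rfl le_rfl
  refine ⟨i0, ?_, cz_ee hS hee he (fun s => (exp_pos _).le) i0⟩
  refine (cz_mono hS (subset_univ S) (G := fun s => (a0 + a1 * s ^ 2 + a2 * (t - s) ^ 2) *
    exp (-(q * (A * s ^ 2 + B * (t - s) ^ 2 - l)))) fun s hs => ?_).trans ?_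
  · exact mul_le_mul (hW s hs) (hE s hs) (exp_pos _).le (by positivity)
  · rw [Measure.restrict_univ]
    exact gfull_le hq hA hB h0 h1 h2

/-- ANY set, left, exact moments over the line. -/
theorem zgauss_L {q m ρ t A B l a0 a1 a2 ee : ℝ} {w : ℂ} {S : Set ℝ} (hq : 0 < q) (hA : 0 < A)
    (hB : 0 < B) (hS : MeasurableSet S)
    (hD : ∀ s ∈ S, A * s ^ 2 + B * (t + s) ^ 2 - l ≤ Dm m ρ t s)
    (h0 : 0 ≤ a0) (h1 : 0 ≤ a1) (h2 : 0 ≤ a2)
    (hW : ∀ s ∈ S, Wm m t w s ≤ a0 + a1 * s ^ 2 + a2 * (t + s) ^ 2)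
    (hee : 0 ≤ ee) (he : ∀ s ∈ S, exp (pm m s) ≤ ee) :
    Zone q m ρ t w S (gF q A B t l 1 0 0) (gF q A B t l a0 a1 a2) (ee * gF q A B t l 1 0 0) := by
  have hE : ∀ s ∈ S, exp (-(q * Dm m ρ t s)) ≤
      exp (-(q * (A * s ^ 2 + B * (t + s) ^ 2 - l))) := fun s hs => by
    refine exp_le_exp.2 ?_
    have := mul_le_mul_of_nonneg_left (hD s hs) hq.le
    linarith
  have hneg : ∀ F : ℝ → ENNReal, ∫⁻ s, F s = ∫⁻ v, F (-v) := fun F => by
    have := lint_neg F univ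
    simpa using this.symm
  have i0 : ∫⁻ s in S, ENNReal.ofReal (exp (-(q * Dm m ρ t s))) ≤
      ENNReal.ofReal (gF q A B t l 1 0 0) := by
    refine (cz_mono hS (subset_univ S) (G := fun s => (1 + 0 * s ^ 2 + 0 * (t + s) ^ 2) *
      exp (-(q * (A * s ^ 2 + B * (t + s) ^ 2 - l)))) fun s hs => ?_).trans ?_
    · simp only [zero_mul, add_zero, one_mul]
      exact hE s hs
    · rw [Measure.restrict_univ, hneg]
      refine le_trans (le_of_eq ?_) (gfull_le (t := t) (l := l) hq hA hB zero_le_one le_rfl le_rfl)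
      refine lintegral_congr fun v => ?_
      rw [neg_sq, ← sub_eq_add_neg]
  refine ⟨i0, ?_, cz_ee hS hee he (fun s => (exp_pos _).le) i0⟩
  refine (cz_mono hS (subset_univ S) (G := fun s => (a0 + a1 * s ^ 2 + a2 * (t + s) ^ 2) *
    exp (-(q * (A * s ^ 2 + B * (t + s) ^ 2 - l)))) fun s hs => ?_).trans ?_
  · exact mul_le_mul (hW s hs) (hE s hs) (exp_pos _).le (by positivity)
  · rw [Measure.restrict_univ, hneg]
    refine le_trans (le_of_eq ?_) (gfull_le (t := t) (l := l) hq hA hB h0 h1 h2)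
    refine lintegral_congr fun v => ?_
    rw [neg_sq, ← sub_eq_add_neg]

/-- the set of the main zone, left -/
def SmL (t : ℝ) : Set ℝ := {s | -t ≤ s ∧ s ≤ 0 ∧ t + s ≤ 6 / 5}

/-- the set of the main zone, right -/
def SmR (t : ℝ) : Set ℝ := {s | 0 ≤ s ∧ s ≤ t ∧ t - s ≤ 6 / 5}

theorem measurableSet_SmL (t : ℝ) : MeasurableSet (SmL t) := by
  unfold SmL
  measurability

theorem measurableSet_SmR (t : ℝ) : MeasurableSet (SmR t) := by
  unfold SmR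
  measurability

theorem Dm_main_L {m ρ t β B l s : ℝ} (hρ : 0 < ρ) (hm : ρ ≤ m) (ht : 0 < t) (hW : Win β t)
    (hL : Lft m t β B l) (hs : s ∈ SmL t) :
    AL m ρ t * s ^ 2 + B * (t + s) ^ 2 - l ≤ Dm m ρ t s := by
  obtain ⟨h1, h2, h3⟩ := hs
  have hv : 0 ≤ -s := by linarith
  have hvt : -s ≤ t := by linarith
  have e1 := Qm_AL hρ hm hv hvt ht
  rw [neg_neg, neg_sq] at e1
  have e2 := hL.2.2 (-s) hv hvt
  rw [neg_neg, sub_neg_eq_add] at e2
  have e3 := hW.2 (t + s) (by linarith) (by linarith) h3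
  have e4 := mul_le_mul_of_nonneg_left e3 (exp_pos (pm m s)).le
  rw [Dm_eq]
  linarith

theorem Dm_main_R {m ρ t β s : ℝ} (hρ : 0 < ρ) (hm : ρ ≤ m) (ht : 0 < t) (hW : Win β t)
    (hs : s ∈ SmR t) : AR m ρ t * s ^ 2 + β * (t - s) ^ 2 - 0 ≤ Dm m ρ (-t) s := by
  obtain ⟨h1, h2, h3⟩ := hs
  have hm0 : 0 < m := hρ.trans_le hm
  have e1 := Qm_AR hρ hm h1 h2 ht
  have e3 := hW.2 (t - s) (by linarith) (by linarith) h3
  have e5 : cos (-t + s) = cos (t - s) := by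
    rw [← cos_neg]
    congr 1
    ring
  have e6 : 1 ≤ exp (pm m s) := one_le_exp (pm_nonneg hm0 h1)
  have e7 : 0 ≤ 1 - cos (t - s) := by
    have := cos_le_one (t - s)
    linarith
  have e8 : 1 - cos (t - s) ≤ exp (pm m s) * (1 - cos (t - s)) := le_mul_of_one_le_left e7 e6
  rw [Dm_eq, e5]
  linarith

/-- Z1 LEFT, `w = 1`, closed forms of `CenDef`. -/
theorem zmain_L {q m ρ t β B l : ℝ} (hq : 0 < q) (hρ : 0 < ρ) (hm : ρ ≤ m) (ht : 0 < t)
    (hW : Win β t) (hL : Lft m t β B l) :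
    Zone q m ρ t 1 (SmL t) (g0 q (AL m ρ t) B t l) (gW q (AL m ρ t) B t l 0 (1 / m ^ 2) 1)
      (1 * g0 q (AL m ρ t) B t l) := by
  have hm0 : 0 < m := hρ.trans_le hm
  refine zmain_of_L hq (AL_pos hρ hm ht) hL.1 ht.le (measurableSet_SmL t)
    (fun s hs => ⟨hs.1, hs.2.1⟩) (fun s hs => Dm_main_L hρ hm ht hW hL hs) le_rfl (by positivity)
    zero_le_one (fun s hs => ?_) zero_le_one fun s hs => exp_le_one_iff.2 (pm_nonpos hm0 hs.2.1)
  have := Wm_one_L (θ := t) hm0 hs.2.1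
  linarith

/-- Z1 RIGHT, `w = 1`, closed forms of `CenDef`. -/
theorem zmain_R {q m ρ t β : ℝ} (hq : 0 < q) (hρ : 0 < ρ) (hm : ρ ≤ m) (ht : 0 < t)
    (hW : Win β t) :
    Zone q m ρ (-t) 1 (SmR t) (g0 q (AR m ρ t) β t 0)
      (gW q (AR m ρ t) β t 0 0 (eS (cT m t) ^ 2 / m ^ 2) (exp (cT m t)))
      (exp (cT m t) * g0 q (AR m ρ t) β t 0) := by
  have hm0 : 0 < m := hρ.trans_le hm
  refine zmain_of_R hq (AR_pos hρ hm ht) hW.1 ht.le (measurableSet_SmR t)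
    (fun s hs => ⟨hs.1, hs.2.1⟩) (fun s hs => Dm_main_R hρ hm ht hW hs) le_rfl (by positivity)
    (exp_pos _).le (fun s hs => ?_) (exp_pos _).le
    fun s hs => exp_le_exp.2 (pm_le_cT hm0 hs.1 hs.2.1)
  have h1 := Wm_one_R (θ := -t) hm0 hs.1 hs.2.1 ht
  have e : (-t + s) ^ 2 = (t - s) ^ 2 := by ring
  rw [e] at h1
  linarith

/-- Z1 LEFT with the exact moments over the line. -/
theorem zmain_L' {q m ρ t β B l : ℝ} (hq : 0 < q) (hρ : 0 < ρ) (hm : ρ ≤ m) (ht : 0 < t)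
    (hW : Win β t) (hL : Lft m t β B l) :
    Zone q m ρ t 1 (SmL t) (gF q (AL m ρ t) B t l 1 0 0) (gF q (AL m ρ t) B t l 0 (1 / m ^ 2) 1)
      (1 * gF q (AL m ρ t) B t l 1 0 0) := by
  have hm0 : 0 < m := hρ.trans_le hm
  refine zgauss_L hq (AL_pos hρ hm ht) hL.1 (measurableSet_SmL t)
    (fun s hs => Dm_main_L hρ hm ht hW hL hs) le_rfl (by positivity)
    zero_le_one (fun s hs => ?_) zero_le_one fun s hs => exp_le_one_iff.2 (pm_nonpos hm0 hs.2.1)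
  have := Wm_one_L (θ := t) hm0 hs.2.1
  linarith

/-- Z1 RIGHT with the exact moments over the line. -/
theorem zmain_R' {q m ρ t β : ℝ} (hq : 0 < q) (hρ : 0 < ρ) (hm : ρ ≤ m) (ht : 0 < t)
    (hW : Win β t) :
    Zone q m ρ (-t) 1 (SmR t) (gF q (AR m ρ t) β t 0 1 0 0)
      (gF q (AR m ρ t) β t 0 0 (eS (cT m t) ^ 2 / m ^ 2) (exp (cT m t)))
      (exp (cT m t) * gF q (AR m ρ t) β t 0 1 0 0) := by
  have hm0 : 0 < m := hρ.trans_le hm
  refine zgauss_R hq (AR_pos hρ hm ht) hW.1 (measurableSet_SmR t)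
    (fun s hs => Dm_main_R hρ hm ht hW hs) le_rfl (by positivity)
    (exp_pos _).le (fun s hs => ?_) (exp_pos _).le
    fun s hs => exp_le_exp.2 (pm_le_cT hm0 hs.1 hs.2.1)
  have h1 := Wm_one_R (θ := -t) hm0 hs.1 hs.2.1 ht
  have e : (-t + s) ^ 2 = (t - s) ^ 2 := by ring
  rw [e] at h1
  linarith

end SokalCen
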