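import Pool.Agent.Lib_MP_af4de1_v3.CenZ
import Pool.Agent.Lib_MP_af4de1_v3.CenHalf
import Pool.Agent.Lib_MP_af4de1_v3.CenBehL
import Pool.Agent.Lib_MP_af4de1_v3.CenZ1

/-! # CEN zone 2, right (behind): `s = t+z`, `0 ≤ z ≤ 6/5`.
FINAL FORM (base point `1`): `Z2R1` with `beh0R`, `behWR` (no chords, slope, factor `e^T`, `T = cT m t`).
Older forms (chords): `Z2R`, `Z2Rc`.
`Dm ≥ AR t² + AR t z + (11/25) z²` (`Qm_beh_R`), `e^a ≤ e^((t+z)/m) ≤` chord on `[0, 6/5]` (convex),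
the same for `(e^a - 1)²`; `W ≤ (e^a - 1)² + (e^n - 1)² + e^(a+n) ((5/4) z² + 5 p²)`. -/

set_option autoImplicit false

namespace SokalCen

open Real MeasureTheory Set

private theorem z2r_int {q m ρ θ t a0 b B c0 c1 c2 : ℝ} {S : Set ℝ} (mS : MeasurableSet S)
    (hS : ∀ s ∈ S, t ≤ s) (hq : 0 < q) (hb : 0 ≤ b)
    (hB : 0 < B) (k0 : 0 ≤ c0) (k1 : 0 ≤ c1) (k2 : 0 ≤ c2) (P : ℝ → ℝ)
    (hP : ∀ s ∈ S, P s ≤ c0 + c1 * (s - t) + c2 * (s - t) ^ 2)
    (hD : ∀ s ∈ S, a0 + b * (s - t) + B * (s - t) ^ 2 ≤ Dm m ρ θ s) :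
    ∫⁻ s in S, ENNReal.ofReal (P s * exp (-(q * Dm m ρ θ s))) ≤
      ENNReal.ofReal (exp (-(q * a0)) * (c0 * h0 (q * b) (q * B) + c1 * h1 (q * B) +
        c2 * h2 (q * B))) := by
  have h1 : ∫⁻ s in S, ENNReal.ofReal (P s * exp (-(q * Dm m ρ θ s))) ≤
      ∫⁻ z in Ioi (0 : ℝ), ENNReal.ofReal (exp (-(q * a0)) * ((c0 + c1 * z + c2 * z ^ 2) *
        exp (-(q * b * z + q * B * z ^ 2)))) := by
    refine lint_above (G := fun z => exp (-(q * a0)) * ((c0 + c1 * z + c2 * z ^ 2) *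
        exp (-(q * b * z + q * B * z ^ 2)))) (c := t) mS fun s hs => ⟨hS s hs, ?_⟩
    have hst := hS s hs
    have hz : 0 ≤ s - t := by linarith
    have hc : 0 ≤ c0 + c1 * (s - t) + c2 * (s - t) ^ 2 := by positivity
    have e1 : exp (-(q * Dm m ρ θ s)) ≤ exp (-(q * a0)) * exp (-(q * b * (s - t) +
        q * B * (s - t) ^ 2)) := by
      rw [← Real.exp_add]
      refine exp_le_exp.2 ?_
      have := mul_le_mul_of_nonneg_left (hD s hs) hq.le
      linarith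
    calc P s * exp (-(q * Dm m ρ θ s))
        ≤ (c0 + c1 * (s - t) + c2 * (s - t) ^ 2) * exp (-(q * Dm m ρ θ s)) :=
          mul_le_mul_of_nonneg_right (hP s hs) (exp_pos _).le
      _ ≤ (c0 + c1 * (s - t) + c2 * (s - t) ^ 2) * (exp (-(q * a0)) *
          exp (-(q * b * (s - t) + q * B * (s - t) ^ 2))) := mul_le_mul_of_nonneg_left e1 hc
      _ = _ := by ring
  refine h1.trans ?_
  simp only [ENNReal.ofReal_mul (exp_pos (-(q * a0))).le]
  rw [lintegral_const_mul _ (by fun_prop)]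
  exact mul_le_mul_right (lint_hW (mul_nonneg hq.le hb) (mul_pos hq hB) k0 k1 k2) _

private theorem z2r_pm {m s : ℝ} (hm : 0 < m) (hs : 0 ≤ s) : pm m s ≤ s / m := by
  have h : 0 ≤ s / m := div_nonneg hs hm.le
  unfold pm
  exact max_le (by linarith) (min_le_right _ _)

private theorem z2r_chord {m t z : ℝ} (hm : 0 < m) (h0 : 0 ≤ z) (h1 : z ≤ 6 / 5) :
    exp ((t + z) / m) ≤ exp (t / m) + (eE m t - exp (t / m)) / (6 / 5) * z := by
  have h := convexOn_exp.2 (mem_univ (t / m)) (mem_univ ((t + 6 / 5) / m))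
    (by linarith : 0 ≤ 1 - z / (6 / 5)) (by positivity : 0 ≤ z / (6 / 5)) (by ring)
  simp only [smul_eq_mul] at h
  have e : (1 - z / (6 / 5)) * (t / m) + z / (6 / 5) * ((t + 6 / 5) / m) = (t + z) / m := by
    field_simp
    ring
  rw [e] at h
  unfold eE
  linarith

private theorem z2r_eE {m t : ℝ} (hm : 0 < m) : exp (t / m) ≤ eE m t := by
  unfold eE
  refine exp_le_exp.2 ?_
  gcongr
  linarith

private theorem z2r_D {m ρ t s : ℝ} (hρ : 0 < ρ) (hm : ρ ≤ m) (ht : 0 < t) (h0 : t ≤ s)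
    (h1 : s ≤ t + 6 / 5) :
    AR m ρ t * t ^ 2 + AR m ρ t * t * (s - t) + 11 / 25 * (s - t) ^ 2 ≤ Dm m ρ (-t) s := by
  have hm0 : 0 < m := hρ.trans_le hm
  have hz : 0 ≤ s - t := by linarith
  have h2 := Qm_beh_R hρ hm ht hz
  have h3 := beh_cos hz (by linarith : s - t ≤ 6 / 5)
  rw [show t + (s - t) = s by ring] at h2
  rw [Dm_eq, show -t + s = s - t by ring]
  have h4 : 1 ≤ exp (pm m s) := one_le_exp (pm_nonneg hm0 (by linarith))
  have h5 : 0 ≤ 1 - cos (s - t) := by linarith [cos_le_one (s - t)]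
  nlinarith

private theorem z2r_E {m t s : ℝ} (hm : 0 < m) (ht : 0 < t) (h0 : t ≤ s) (h1 : s ≤ t + 6 / 5) :
    exp (pm m s) ≤ exp (t / m) + (eE m t - exp (t / m)) / (6 / 5) * (s - t) := by
  have h2 := z2r_pm hm (by linarith : 0 ≤ s)
  have h3 := z2r_chord (m := m) (t := t) hm (by linarith : 0 ≤ s - t) (by linarith : s - t ≤ 6 / 5)
  rw [show t + (s - t) = s by ring] at h3
  exact (exp_le_exp.2 h2).trans h3

private theorem z2r_E1 {m t s : ℝ} (hm : 0 < m) (ht : 0 < t) (h0 : t ≤ s) (h1 : s ≤ t + 6 / 5) :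
    exp (pm m s) ≤ eE m t := by
  have h2 := z2r_pm hm (by linarith : 0 ≤ s)
  unfold eE
  refine exp_le_exp.2 (h2.trans ?_)
  gcongr

private theorem z2r_sq {m t s : ℝ} (hm : 0 < m) (ht : 0 < t) (h0 : t ≤ s) (h1 : s ≤ t + 6 / 5) :
    (exp (pm m s) - 1) ^ 2 ≤ (exp (t / m) - 1) ^ 2 +
      ((eE m t - 1) ^ 2 - (exp (t / m) - 1) ^ 2) / (6 / 5) * (s - t) := by
  have h2 := z2r_E hm ht h0 h1
  have h3 : 1 ≤ exp (pm m s) := one_le_exp (pm_nonneg hm (by linarith))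
  have h4 : 1 ≤ exp (t / m) := one_le_exp (by positivity)
  have h5 := z2r_eE (t := t) hm
  obtain ⟨l, hl⟩ : ∃ l, l = (s - t) / (6 / 5) := ⟨_, rfl⟩
  have hl0 : 0 ≤ l := by rw [hl]; exact div_nonneg (by linarith) (by norm_num)
  have hl1 : l ≤ 1 := by rw [hl, div_le_one (by norm_num)]; linarith
  have e1 : (eE m t - exp (t / m)) / (6 / 5) * (s - t) = (eE m t - exp (t / m)) * l := by
    rw [hl]; ring
  have e2 : ((eE m t - 1) ^ 2 - (exp (t / m) - 1) ^ 2) / (6 / 5) * (s - t) =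
      ((eE m t - 1) ^ 2 - (exp (t / m) - 1) ^ 2) * l := by
    rw [hl]; ring
  rw [e1] at h2
  rw [e2]
  have h6 : (exp (pm m s) - 1) ^ 2 ≤ ((exp (t / m) - 1) + (eE m t - exp (t / m)) * l) ^ 2 := by
    refine pow_le_pow_left₀ (by linarith) (by linarith) 2
  refine h6.trans ?_
  have h7 : 0 ≤ (eE m t - exp (t / m)) ^ 2 * (l * (1 - l)) :=
    mul_nonneg (sq_nonneg _) (mul_nonneg hl0 (by linarith))
  nlinarith [h7]

private theorem z2r_c1 {m t : ℝ} (hm : 0 < m) (ht : 0 < t) :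
    0 ≤ ((eE m t - 1) ^ 2 - (exp (t / m) - 1) ^ 2) / (6 / 5) := by
  have h4 : 1 ≤ exp (t / m) := one_le_exp (by positivity)
  have h5 := z2r_eE (t := t) hm
  have : (exp (t / m) - 1) ^ 2 ≤ (eE m t - 1) ^ 2 := pow_le_pow_left₀ (by linarith) (by linarith) 2
  have : 0 ≤ (eE m t - 1) ^ 2 - (exp (t / m) - 1) ^ 2 := by linarith
  positivity

private theorem z2r_0 {q m ρ t : ℝ} (hq : 0 < q) (hρ : 0 < ρ) (hm : ρ ≤ m) (ht : 0 < t) :
    ∫⁻ s in Icc t (t + 6 / 5), ENNReal.ofReal (exp (-(q * Dm m ρ (-t) s))) ≤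
      ENNReal.ofReal (b0R q m ρ t) := by
  have hA := AR_pos hρ hm ht
  have h := z2r_int (q := q) (m := m) (ρ := ρ) (θ := -t) (t := t) (a0 := AR m ρ t * t ^ 2)
    (b := AR m ρ t * t) (B := 11 / 25) (c0 := 1) (c1 := 0) (c2 := 0) (S := Icc t (t + 6 / 5))
    measurableSet_Icc (fun s hs => hs.1) hq (by positivity) (by norm_num) (by norm_num) le_rfl
    le_rfl (fun _ => 1) (fun s _ => by norm_num) (fun s hs => z2r_D hρ hm ht hs.1 hs.2)
  simp only [one_mul, zero_mul, add_zero] at h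
  exact h

private theorem z2r_e {q m ρ t : ℝ} (hq : 0 < q) (hρ : 0 < ρ) (hm : ρ ≤ m) (ht : 0 < t) :
    ∫⁻ s in Icc t (t + 6 / 5), ENNReal.ofReal (exp (pm m s) * exp (-(q * Dm m ρ (-t) s))) ≤
      ENNReal.ofReal (beR q m ρ t) := by
  have hA := AR_pos hρ hm ht
  have hm0 : 0 < m := hρ.trans_le hm
  have h5 := z2r_eE (t := t) hm0
  have h := z2r_int (q := q) (m := m) (ρ := ρ) (θ := -t) (t := t) (a0 := AR m ρ t * t ^ 2)
    (b := AR m ρ t * t) (B := 11 / 25) (c0 := exp (t / m))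
    (c1 := (eE m t - exp (t / m)) / (6 / 5)) (c2 := 0) (S := Icc t (t + 6 / 5))
    measurableSet_Icc (fun s hs => hs.1) hq (by positivity) (by norm_num) (exp_pos _).le
    (div_nonneg (by linarith) (by norm_num)) le_rfl
    (fun s => exp (pm m s)) (fun s hs => by
      have := z2r_E hm0 ht hs.1 hs.2
      linarith) (fun s hs => z2r_D hρ hm ht hs.1 hs.2)
  refine h.trans (le_of_eq ?_)
  unfold beR bbR BBR
  congr 1
  ring

/-- the zone behind, right, base point `1`: `bWR` with `n = p = 0` and `5/4` replaced by `1` -/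
theorem Z2Rc {q m ρ t : ℝ} (hq : 0 < q) (hρ : 0 < ρ) (hm : ρ ≤ m) (ht : 0 < t) :
    Zone q m ρ (-t) 1 (Icc t (t + 6 / 5)) (b0R q m ρ t)
      (exp (-(q * (AR m ρ t * t ^ 2))) * (h0 (bbR q m ρ t) (BBR q) * (exp (t / m) - 1) ^ 2 +
        h1 (BBR q) * (((eE m t - 1) ^ 2 - (exp (t / m) - 1) ^ 2) / (6 / 5)) +
        h2 (BBR q) * eE m t))
      (beR q m ρ t) := by
  have hA := AR_pos hρ hm ht
  have hm0 : 0 < m := hρ.trans_le hm
  refine ⟨z2r_0 hq hρ hm ht, ?_, z2r_e hq hρ hm ht⟩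
  have h := z2r_int (q := q) (m := m) (ρ := ρ) (θ := -t) (t := t) (a0 := AR m ρ t * t ^ 2)
    (b := AR m ρ t * t) (B := 11 / 25) (c0 := (exp (t / m) - 1) ^ 2)
    (c1 := ((eE m t - 1) ^ 2 - (exp (t / m) - 1) ^ 2) / (6 / 5)) (c2 := eE m t)
    (S := Icc t (t + 6 / 5))
    measurableSet_Icc (fun s hs => hs.1) hq (by positivity) (by norm_num) (sq_nonneg _)
    (z2r_c1 hm0 ht) (exp_pos _).le
    (Wm m (-t) 1) (fun s hs => by
      have h2 := z2r_sq hm0 ht hs.1 hs.2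
      have h3 := z2r_E1 hm0 ht hs.1 hs.2
      have h4 : 1 - cos (-t + s) ≤ (s - t) ^ 2 / 2 := by
        have := one_sub_sq_div_two_le_cos (x := -t + s)
        have e : (-t + s) ^ 2 = (s - t) ^ 2 := by ring
        rw [e] at this
        linarith
      have h5 := mul_le_mul h3 h4 (by linarith [cos_le_one (-t + s)]) (exp_pos _).le
      rw [beh_Wm]
      linarith) (fun s hs => z2r_D hρ hm ht hs.1 hs.2)
  refine h.trans (le_of_eq ?_)
  unfold bbR BBR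
  congr 1
  ring

theorem Z2R {q m ρ t n p : ℝ} (hq : 0 < q) (hρ : 0 < ρ) (hm : ρ ≤ m) (ht : 0 < t)
    (hn : 0 ≤ n) (hp : 0 ≤ p) :
    Zone q m ρ (-t) (ww n (-p)) (Icc t (t + 6 / 5)) (b0R q m ρ t) (bWR q m ρ t n p)
      (beR q m ρ t) := by
  have hA := AR_pos hρ hm ht
  have hm0 : 0 < m := hρ.trans_le hm
  have hn1 : 1 ≤ exp n := one_le_exp hn
  refine ⟨z2r_0 hq hρ hm ht, ?_, z2r_e hq hρ hm ht⟩
  have h := z2r_int (q := q) (m := m) (ρ := ρ) (θ := -t) (t := t) (a0 := AR m ρ t * t ^ 2)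
    (b := AR m ρ t * t) (B := 11 / 25)
    (c0 := (exp (t / m) - 1) ^ 2 + (exp n - 1) ^ 2 + 5 * eE m t * exp n * p ^ 2)
    (c1 := ((eE m t - 1) ^ 2 - (exp (t / m) - 1) ^ 2) / (6 / 5)) (c2 := 5 / 4 * eE m t * exp n)
    (S := Icc t (t + 6 / 5))
    measurableSet_Icc (fun s hs => hs.1) hq (by positivity) (by norm_num)
    (by unfold eE; positivity) (z2r_c1 hm0 ht) (by unfold eE; positivity)
    (Wm m (-t) (ww n (-p))) (fun s hs => by
      have h2 := z2r_sq hm0 ht hs.1 hs.2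
      have h3 := z2r_E1 hm0 ht hs.1 hs.2
      have h30 : 1 ≤ exp (pm m s) := one_le_exp (pm_nonneg hm0 (by linarith [hs.1]))
      have h4 : 1 - cos (-t + s - -p) ≤ (5 / 4 * (s - t) ^ 2 + 5 * p ^ 2) / 2 := by
        have := one_sub_sq_div_two_le_cos (x := -t + s - -p)
        nlinarith [sq_nonneg ((s - t) / 2 - 2 * p)]
      have h6 : exp (pm m s + n) ≤ eE m t * exp n := by
        rw [Real.exp_add]
        exact mul_le_mul_of_nonneg_right h3 (exp_pos _).le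
      have h5 := mul_le_mul h6 h4 (by linarith [cos_le_one (-t + s - -p)])
        (by unfold eE; positivity)
      have h7 : (exp (pm m s) - exp n) ^ 2 ≤ (exp (pm m s) - 1) ^ 2 + (exp n - 1) ^ 2 := by
        nlinarith [mul_nonneg (by linarith : 0 ≤ exp (pm m s) - 1) (by linarith : 0 ≤ exp n - 1)]
      rw [Wm_eq]
      linarith) (fun s hs => z2r_D hρ hm ht hs.1 hs.2)
  refine h.trans (le_of_eq ?_)
  unfold bWR bbR BBR
  congr 1
  ring

/-! ### final form -/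

/-- curvature behind, right: `q (11/25) e^T`, `T = cT m t` -/
noncomputable def B2R (q m t : ℝ) : ℝ := q * (11 / 25 * exp (cT m t))

/-- behind, right: `∫ e^(-q Dm)` -/
noncomputable def beh0R (q m ρ t : ℝ) : ℝ :=
  exp (-(q * (AR m ρ t * t ^ 2))) * h0 (bbR q m ρ t) (B2R q m t)

/-- behind, right: `∫ |em - 1|² e^(-q Dm)` -/
noncomputable def behWR (q m ρ t : ℝ) : ℝ :=
  exp (-(q * (AR m ρ t * t ^ 2))) * ((eS (cT m (t + 6 / 5)) / m) ^ 2 *
    (t ^ 2 * h0 (bbR q m ρ t) (B2R q m t) + 2 * t * h1 (B2R q m t) + h2 (B2R q m t)) +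
      exp (cT m (t + 6 / 5)) * h2 (B2R q m t))

theorem B2R_pos {q m t : ℝ} (hq : 0 < q) : 0 < B2R q m t := by
  unfold B2R
  positivity

theorem beh0R_nonneg {q m ρ t : ℝ} (hq : 0 < q) (hρ : 0 < ρ) (hm : ρ ≤ m) (ht : 0 < t) :
    0 ≤ beh0R q m ρ t := by
  have hA := AR_pos hρ hm ht
  have h := h0_nonneg (b := bbR q m ρ t) (by unfold bbR; positivity) (B2R_pos (m := m) (t := t) hq)
  unfold beh0R
  positivity

theorem behWR_nonneg {q m ρ t : ℝ} (hq : 0 < q) (hρ : 0 < ρ) (hm : ρ ≤ m) (ht : 0 < t) :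
    0 ≤ behWR q m ρ t := by
  have hA := AR_pos hρ hm ht
  have h := h0_nonneg (b := bbR q m ρ t) (by unfold bbR; positivity) (B2R_pos (m := m) (t := t) hq)
  have h' := h1_nonneg (B2R_pos (m := m) (t := t) hq)
  have h'' := h2_nonneg (B2R_pos (m := m) (t := t) hq)
  unfold behWR
  positivity

private theorem z2r_T {m t s : ℝ} (hm : 0 < m) (ht : 0 < t) (h0 : t ≤ s) : cT m t ≤ pm m s := by
  unfold cT pm
  refine le_max_of_le_right (min_le_min le_rfl ?_)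
  gcongr

private theorem z2r_D' {m ρ t s : ℝ} (hρ : 0 < ρ) (hm : ρ ≤ m) (ht : 0 < t) (h0 : t ≤ s)
    (h1 : s ≤ t + 6 / 5) : AR m ρ t * t ^ 2 + AR m ρ t * t * (s - t) +
      11 / 25 * exp (cT m t) * (s - t) ^ 2 ≤ Dm m ρ (-t) s := by
  have hm0 : 0 < m := hρ.trans_le hm
  have hz : 0 ≤ s - t := by linarith
  have h2 := Qm_beh_R hρ hm ht hz
  have h3 := beh_cos hz (by linarith : s - t ≤ 6 / 5)
  rw [show t + (s - t) = s by ring] at h2
  rw [Dm_eq, show -t + s = s - t by ring]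
  have h4 : exp (cT m t) ≤ exp (pm m s) := exp_le_exp.2 (z2r_T hm0 ht h0)
  have h5 : 0 ≤ 1 - cos (s - t) := by linarith [cos_le_one (s - t)]
  have h6 : exp (cT m t) * (11 / 25 * (s - t) ^ 2) ≤ exp (pm m s) * (1 - cos (s - t)) :=
    mul_le_mul h4 h3 (by positivity) (exp_pos _).le
  linarith

/-- THE ZONE BEHIND, RIGHT, base point `1`. -/
theorem Z2R1 {q m ρ t : ℝ} (hq : 0 < q) (hρ : 0 < ρ) (hm : ρ ≤ m) (ht : 0 < t) :
    Zone q m ρ (-t) 1 (Icc t (t + 6 / 5)) (beh0R q m ρ t) (behWR q m ρ t)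
      (exp (cT m (t + 6 / 5)) * beh0R q m ρ t) := by
  have hA := AR_pos hρ hm ht
  have hm0 : 0 < m := hρ.trans_le hm
  have hTb : 0 < cT m (t + 6 / 5) := lt_min one_pos (div_pos (by linarith) hm0)
  have h := Zone.above (q := q) (m := m) (ρ := ρ) (θ := -t) (w := 1) (c := t)
    (a0 := AR m ρ t * t ^ 2) (b := AR m ρ t * t) (B := 11 / 25 * exp (cT m t))
    (c0 := (eS (cT m (t + 6 / 5)) / m) ^ 2 * t ^ 2)
    (c1 := (eS (cT m (t + 6 / 5)) / m) ^ 2 * (2 * t))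
    (c2 := (eS (cT m (t + 6 / 5)) / m) ^ 2 + exp (cT m (t + 6 / 5)))
    (e0 := exp (cT m (t + 6 / 5))) (S := Icc t (t + 6 / 5))
    measurableSet_Icc hq (by positivity) (by positivity) (by positivity) (by positivity)
    (by positivity) (exp_pos _).le (fun s hs => hs.1)
    (fun s hs => z2r_D' hρ hm ht hs.1 hs.2)
    (fun s hs => by
      have h1 := Wm_one_R (m := m) (θ := -t) hm0 (ht.le.trans hs.1) hs.2 (by linarith)
      refine h1.trans (le_of_eq ?_)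
      rw [div_pow]
      ring)
    (fun s hs => exp_le_exp.2 (pm_le_cT hm0 (ht.le.trans hs.1) hs.2))
  refine h.mono (le_of_eq ?_) (le_of_eq ?_) (le_of_eq ?_)
  · unfold beh0R bbR B2R
    ring_nf
  · unfold behWR bbR B2R
    ring
  · unfold beh0R bbR B2R
    ring_nf

end SokalCen
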