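import Pool.Agent.Lib_MP_af4de1_v3.CenZ

/-! # CEN: the rest, `1 - cos (θ+s) ≥ 6336/10000`, where `Dm ≥ 1/2` (needs `m ≥ (5/4) ρ`).

Left, `x = |s|/m ≤ 1`: `Qm ≥ (m/ρ - 1/2) x² ≥ (3/4) x²` and `(3/4) x² + 0.6336 e^(-x) ≥ 1/2` (minimum .537 at
`x = .32`); `x ≥ 1`: `Qm ≥ 3/4`.  Right: `e^a ≥ 1`.  Everywhere `Qm ≥ (2/5) (m/ρ) min (x²) x` (as
`m/ρ - 23/32 ≥ (2/5) m/ρ`, rays for `x ≥ 1`).  So `q Dm ≥ (1-ε) q/2 + ε q Qm`, and
`∫ exp (-λ min (x²) |x|) dx ≤ √(π/λ) + 2/λ`, `λ = laR q m ρ ε`. -/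

set_option autoImplicit false

namespace SokalCen

open Real MeasureTheory Set

/-- `Qm ≥ (2/5) (m/ρ) min (x²) |x|`, `x = s/m` -/
theorem Qm_min {m ρ s : ℝ} (hρ : 0 < ρ) (hm : 5 / 4 * ρ ≤ m) :
    2 / 5 * (m / ρ) * min ((s / m) ^ 2) |s / m| ≤ Qm m ρ s := by
  have hρm : ρ ≤ m := by linarith
  have hm0 : 0 < m := hρ.trans_le hρm
  have hmu : 5 / 4 ≤ m / ρ := by rwa [le_div_iff₀ hρ]
  rcases eq_or_ne s 0 with rfl | h0
  · have h := Qm_nonneg hρ hρm 0
    simpa using h
  -- the common estimate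
  have key : ∀ v : ℝ, 0 < v → 2 / 5 * (m / ρ) * min ((v / m) ^ 2) (v / m) ≤
      (m / ρ - 23 / 32) / m ^ 2 * min 1 (m / v) * v ^ 2 := by
    intro v hv
    have h1 : min ((v / m) ^ 2) (v / m) = min 1 (m / v) * (v / m) ^ 2 := by
      rcases le_total v m with h | h
      · have h2 : v / m ≤ 1 := by rwa [div_le_one hm0]
        have h3 : 0 ≤ v / m := div_nonneg hv.le hm0.le
        have h4 : 1 ≤ m / v := by rwa [le_div_iff₀ hv, one_mul]
        have h5 : (v / m) ^ 2 ≤ v / m := by nlinarith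
        rw [min_eq_left h4, min_eq_left h5, one_mul]
      · have h2 : 1 ≤ v / m := by rwa [le_div_iff₀ hm0, one_mul]
        have h4 : m / v ≤ 1 := by rwa [div_le_one hv]
        have h5 : v / m ≤ (v / m) ^ 2 := by nlinarith
        rw [min_eq_right h4, min_eq_right h5]
        field_simp
    have h2 : 2 / 5 * (m / ρ) ≤ m / ρ - 23 / 32 := by linarith
    have h3 : 0 ≤ min 1 (m / v) * (v / m) ^ 2 := by positivity
    rw [h1]
    calc 2 / 5 * (m / ρ) * (min 1 (m / v) * (v / m) ^ 2)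
        ≤ (m / ρ - 23 / 32) * (min 1 (m / v) * (v / m) ^ 2) := mul_le_mul_of_nonneg_right h2 h3
      _ = (m / ρ - 23 / 32) / m ^ 2 * min 1 (m / v) * v ^ 2 := by
        field_simp
  rcases lt_or_gt_of_ne h0 with hs | hs
  · have hv : 0 < -s := by linarith
    have h1 := Qm_AL hρ hρm hv.le le_rfl hv
    rw [neg_neg] at h1
    have h2 := key (-s) hv
    have e1 : (-s / m) ^ 2 = (s / m) ^ 2 := by rw [neg_div, neg_sq]
    have e2 : |s / m| = -s / m := by
      rw [abs_of_nonpos (div_nonpos_of_nonpos_of_nonneg hs.le hm0.le), neg_div]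
    rw [e1] at h2
    rw [e2]
    refine h2.trans (le_trans ?_ h1)
    unfold AL aL
    have h3 : 0 < min 1 (m / -s) := cF_pos hm0 hv
    have h4 : (m / ρ - 23 / 32) / m ^ 2 ≤ (m / ρ - 1 / 2) / m ^ 2 :=
      div_le_div_of_nonneg_right (by linarith) (by positivity)
    gcongr
  · have h1 := Qm_AR hρ hρm hs.le le_rfl hs
    have h2 := key s hs
    have e2 : |s / m| = s / m := abs_of_nonneg (div_nonneg hs.le hm0.le)
    rw [e2]
    refine h2.trans (le_trans ?_ h1)
    unfold AR aR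
    have h3 : 0 < min 1 (m / s) := cF_pos hm0 hs
    have hT0 := cT_nonneg hm0 hs.le
    have hT1 := cT_le m s
    have h4 : (m / ρ - 23 / 32) / m ^ 2 ≤
        (m / ρ - (1 + cT m s / 3 + 5 * cT m s ^ 2 / 48) / 2) / m ^ 2 :=
      div_le_div_of_nonneg_right (by nlinarith) (by positivity)
    gcongr

theorem Dm_half {m ρ θ s : ℝ} (hρ : 0 < ρ) (hm : 5 / 4 * ρ ≤ m)
    (h : 6336 / 10000 ≤ 1 - cos (θ + s)) : 1 / 2 ≤ Dm m ρ θ s := by
  have hρm : ρ ≤ m := by linarith
  have hm0 : 0 < m := hρ.trans_le hρm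
  have hmu : 5 / 4 ≤ m / ρ := by rwa [le_div_iff₀ hρ]
  rw [Dm_eq]
  rcases le_total 0 s with hs | hs
  · have h1 := Qm_nonneg hρ hρm s
    have h2 : 1 ≤ exp (pm m s) := one_le_exp (pm_nonneg hm0 hs)
    nlinarith
  · have hv : 0 ≤ -s := by linarith
    rcases le_total (-s) m with h1 | h1
    · have hx1 : -s / m ≤ 1 := by rwa [div_le_one hm0]
      have hx0 : 0 ≤ -s / m := div_nonneg hv hm0.le
      have h2 := Qm_left hρ hm0 hv hx1
      rw [neg_neg] at h2
      have hpa : pm m s = -(-s / m) := by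
        rw [pm_mid hm0 (by linarith) (by linarith)]
        ring
      have e1 : aL m ρ * (-s) ^ 2 = (m / ρ - 1 / 2) * (-s / m) ^ 2 := by
        unfold aL
        field_simp
      rw [e1] at h2
      rw [hpa]
      generalize -s / m = x at *
      have h3 : 1 - x + x ^ 2 / 4 ≤ exp (-x) := by
        have h := Real.add_one_le_exp (-x / 2)
        have h' : exp (-x) = exp (-x / 2) ^ 2 := by
          rw [← Real.exp_nat_mul]
          congr 1
          push_cast
          ring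
        rw [h']
        have h'' := pow_le_pow_left₀ (by linarith) h 2
        refine le_trans (le_of_eq ?_) h''
        ring
      have h4 : (3 / 4 : ℝ) * x ^ 2 ≤ (m / ρ - 1 / 2) * x ^ 2 :=
        mul_le_mul_of_nonneg_right (by linarith) (sq_nonneg x)
      have h5 : (6336 / 10000 : ℝ) * exp (-x) ≤ exp (-x) * (1 - cos (θ + s)) := by
        rw [mul_comm]
        exact mul_le_mul_of_nonneg_left h (exp_pos _).le
      have h6 : (6336 / 10000 : ℝ) * (1 - x + x ^ 2 / 4) ≤ 6336 / 10000 * exp (-x) := by linarith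
      nlinarith [sq_nonneg (x - 7 / 20)]
    · have h2 := Qm_left hρ hm0 hm0.le (by rw [div_self hm0.ne'])
      have h3 := Qm_ray_left hρ hρm hm0 h1
      rw [neg_neg] at h3
      have e1 : aL m ρ * m ^ 2 = m / ρ - 1 / 2 := by
        unfold aL
        field_simp
      rw [e1] at h2
      have h4 : 1 ≤ -s / m := by rwa [le_div_iff₀ hm0, one_mul]
      have h5 : 3 / 4 ≤ Qm m ρ (-m) * (-s / m) := by nlinarith
      have h6 : 0 ≤ exp (pm m s) * (1 - cos (θ + s)) :=
        mul_nonneg (exp_pos _).le (by linarith)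
      linarith

private theorem zr_gauss {b : ℝ} (hb : 0 < b) :
    ∫⁻ s : ℝ, ENNReal.ofReal (exp (-b * s ^ 2)) = ENNReal.ofReal √(π / b) := by
  rw [← ofReal_integral_eq_lintegral_ofReal (integrable_exp_neg_mul_sq hb)
    (Filter.Eventually.of_forall fun s => (exp_pos _).le), integral_gaussian]

private theorem zr_exp {b : ℝ} (hb : 0 < b) :
    ∫⁻ s : ℝ, ENNReal.ofReal (exp (-b * |s|)) = ENNReal.ofReal (2 / b) := by
  rw [← ofReal_integral_eq_lintegral_ofReal (SokalPG.integrable_exp_abs hb)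
    (Filter.Eventually.of_forall fun s => (exp_pos _).le)]
  congr 1
  have h := integral_comp_abs (f := fun s => exp (-b * s))
  rw [h, integral_exp_mul_Ioi (by linarith : -b < 0), mul_zero, exp_zero]
  field_simp

theorem zr_int {m la : ℝ} (hm : 0 < m) (hl : 0 < la) :
    ∫⁻ s : ℝ, ENNReal.ofReal (exp (-(la * min ((s / m) ^ 2) |s / m|))) ≤
      ENNReal.ofReal (m * (√(π / la) + 2 / la)) := by
  have h1 : ∀ s : ℝ, ENNReal.ofReal (exp (-(la * min ((s / m) ^ 2) |s / m|))) ≤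
      ENNReal.ofReal (exp (-(la / m ^ 2) * s ^ 2)) + ENNReal.ofReal (exp (-(la / m) * |s|)) := by
    intro s
    rw [← ENNReal.ofReal_add (exp_pos _).le (exp_pos _).le]
    refine ENNReal.ofReal_le_ofReal ?_
    have e1 : -(la / m ^ 2) * s ^ 2 = -(la * (s / m) ^ 2) := by field_simp
    have e2 : -(la / m) * |s| = -(la * |s / m|) := by
      rw [abs_div, abs_of_pos hm]
      field_simp
    rw [e1, e2]
    have p1 := exp_pos (-(la * (s / m) ^ 2))
    have p2 := exp_pos (-(la * |s / m|))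
    rcases min_choice ((s / m) ^ 2) |s / m| with h | h
    · rw [h]
      linarith
    · rw [h]
      linarith
  refine (lintegral_mono h1).trans ?_
  rw [lintegral_add_left (by fun_prop), zr_gauss (by positivity), zr_exp (by positivity),
    ← ENNReal.ofReal_add (by positivity) (by positivity)]
  refine ENNReal.ofReal_le_ofReal (le_of_eq ?_)
  have e1 : π / (la / m ^ 2) = m ^ 2 * (π / la) := by field_simp
  rw [e1, Real.sqrt_mul (by positivity), Real.sqrt_sq hm.le]
  field_simp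

/-- the rest with a general lower bound `d` of `Dm` -/
noncomputable def red (q m ρ ε d : ℝ) : ℝ :=
  exp (-((1 - ε) * (q * d))) * (m * (√(π / laR q m ρ ε) + 2 / laR q m ρ ε))

theorem red_half (q m ρ ε : ℝ) : red q m ρ ε (1 / 2) = re0 q m ρ ε := by
  unfold red re0
  congr 3
  ring

/-- REST on any set with `d ≤ Dm`. -/
theorem Zr_gen {q m ρ ε θ d : ℝ} {w : ℂ} {S : Set ℝ} (mS : MeasurableSet S) (hq : 0 < q)
    (hρ : 0 < ρ) (hm : 5 / 4 * ρ ≤ m) (hε0 : 0 < ε) (hε1 : ε < 1) (hw : ‖w‖ ≤ 17 / 10)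
    (hd : ∀ s ∈ S, d ≤ Dm m ρ θ s) :
    Zone q m ρ θ w S (red q m ρ ε d) (20 * red q m ρ ε d) (3 * red q m ρ ε d) := by
  have hρm : ρ ≤ m := by linarith
  have hm0 : 0 < m := hρ.trans_le hρm
  have hla : 0 < laR q m ρ ε := by
    unfold laR
    positivity
  have hre : 0 ≤ red q m ρ ε d := by
    unfold red
    positivity
  -- pointwise
  have hE : ∀ s ∈ S, exp (-(q * Dm m ρ θ s)) ≤ exp (-((1 - ε) * (q * d))) *
      exp (-(laR q m ρ ε * min ((s / m) ^ 2) |s / m|)) := by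
    intro s hs
    rw [← exp_add]
    refine exp_le_exp.2 ?_
    have h1 := hd s hs
    have h2 := Qm_min (s := s) hρ hm
    have h3 : Qm m ρ s ≤ Dm m ρ θ s := by
      rw [Dm_eq]
      have h4 := Real.cos_le_one (θ + s)
      have h5 : 0 ≤ exp (pm m s) * (1 - cos (θ + s)) := mul_nonneg (exp_pos _).le (by linarith)
      linarith
    have h4 : (1 - ε) * q * d ≤ (1 - ε) * q * Dm m ρ θ s :=
      mul_le_mul_of_nonneg_left h1 (mul_nonneg (by linarith) hq.le)
    have h5 : ε * q * (2 / 5 * (m / ρ) * min ((s / m) ^ 2) |s / m|) ≤ ε * q * Dm m ρ θ s :=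
      mul_le_mul_of_nonneg_left (h2.trans h3) (mul_nonneg hε0.le hq.le)
    have e : laR q m ρ ε * min ((s / m) ^ 2) |s / m| =
        ε * q * (2 / 5 * (m / ρ) * min ((s / m) ^ 2) |s / m|) := by
      unfold laR
      ring
    rw [e]
    linarith
  have key : ∀ C : ℝ, 0 ≤ C → ∀ F : ℝ → ℝ, (∀ s, F s ≤ C) →
      ∫⁻ s in S, ENNReal.ofReal (F s * exp (-(q * Dm m ρ θ s))) ≤
        ENNReal.ofReal (C * red q m ρ ε d) := by
    intro C hC F hF
    calc ∫⁻ s in S, ENNReal.ofReal (F s * exp (-(q * Dm m ρ θ s)))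
        ≤ ∫⁻ s in S, ENNReal.ofReal (C * exp (-((1 - ε) * (q * d)))) *
            ENNReal.ofReal (exp (-(laR q m ρ ε * min ((s / m) ^ 2) |s / m|))) := by
          refine setLIntegral_mono' mS fun s hs => ?_
          rw [← ENNReal.ofReal_mul (by positivity)]
          refine ENNReal.ofReal_le_ofReal ?_
          rw [mul_assoc]
          exact mul_le_mul (hF s) (hE s hs) (exp_pos _).le hC
      _ ≤ ∫⁻ s : ℝ, ENNReal.ofReal (C * exp (-((1 - ε) * (q * d)))) *
            ENNReal.ofReal (exp (-(laR q m ρ ε * min ((s / m) ^ 2) |s / m|))) :=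
          setLIntegral_le_lintegral _ _
      _ = ENNReal.ofReal (C * exp (-((1 - ε) * (q * d)))) *
            ∫⁻ s : ℝ, ENNReal.ofReal (exp (-(laR q m ρ ε * min ((s / m) ^ 2) |s / m|))) :=
          lintegral_const_mul' _ _ ENNReal.ofReal_ne_top
      _ ≤ ENNReal.ofReal (C * exp (-((1 - ε) * (q * d)))) *
            ENNReal.ofReal (m * (√(π / laR q m ρ ε) + 2 / laR q m ρ ε)) :=
          mul_le_mul_right (zr_int hm0 hla) _
      _ = ENNReal.ofReal (C * red q m ρ ε d) := by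
          rw [← ENNReal.ofReal_mul (by positivity)]
          congr 1
          unfold red
          ring
  have he : ∀ s, exp (pm m s) ≤ 272 / 100 := by
    intro s
    have h1 := (abs_le.1 (pm_mem m s)).2
    have h2 := exp_le_exp.2 h1
    have h3 := Real.exp_one_lt_d9
    linarith
  refine ⟨?_, ?_, ?_⟩
  · have h := key 1 zero_le_one (fun _ => 1) fun _ => le_rfl
    simpa only [one_mul] using h
  · refine key 20 (by norm_num) (fun s => Wm m θ w s) fun s => ?_
    unfold Wm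
    have h1 : ‖em m θ s - w‖ ≤ 272 / 100 + 17 / 10 := by
      refine (norm_sub_le _ _).trans (add_le_add ?_ hw)
      rw [norm_em]
      exact he s
    have h2 := pow_le_pow_left₀ (norm_nonneg (em m θ s - w)) h1 2
    refine h2.trans (by norm_num)
  · exact key 3 (by norm_num) (fun s => exp (pm m s)) fun s => (he s).trans (by norm_num)

theorem Zr {q m ρ ε θ : ℝ} {w : ℂ} (hq : 0 < q) (hρ : 0 < ρ) (hm : 5 / 4 * ρ ≤ m) (hε0 : 0 < ε)
    (hε1 : ε < 1) (hw : ‖w‖ ≤ 17 / 10) :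
    Zone q m ρ θ w {s | 6336 / 10000 ≤ 1 - cos (θ + s)} (re0 q m ρ ε) (20 * re0 q m ρ ε)
      (3 * re0 q m ρ ε) := by
  rw [← red_half]
  exact Zr_gen (measurableSet_le measurable_const (by fun_prop)) hq hρ hm hε0 hε1 hw
    fun s hs => Dm_half hρ hm hs

end SokalCen
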