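import Pool.Agent.Lib_MP_af4de1_v3.CenZ1
import Pool.Agent.Lib_MP_af4de1_v3.CenFront
import Pool.Agent.Lib_MP_af4de1_v3.CenBehL
import Pool.Agent.Lib_MP_af4de1_v3.CenPy
import Pool.Agent.Lib_MP_af4de1_v3.CenZ6
import Pool.Agent.Lib_MP_af4de1_v3.CenSum
import Pool.Agent.Lib_MP_af4de1_v3.CenZ2R
import Pool.Agent.Lib_MP_af4de1_v3.CenFar
import Pool.Agent.Lib_MP_af4de1_v3.ShfW
import Pool.Agent.Lib_MP_af4de1_v3.CenImg
import Pool.Agent.Lib_MP_af4de1_fa.FrD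

/-!
# CEN: TOTAL on the RIGHT (`θ = -t`, `0 < t ≤ π`): all zones, `w = K/ρ` (owner helper66)

`t' = 2π - t`.  Main zone with the direction `w` (Pythagoras), everything else with `w = 1` and one triangle.
-/

set_option autoImplicit false

namespace SokalCen

open Real MeasureTheory Set SokalF1 SokalF1S SokalF1M SokalV3

/-- `β` of the window -/
noncomputable def bet (t : ℝ) : ℝ := if t ≤ 6 / 5 then (1 - cos t) / t ^ 2 else 11 / 25

theorem win_bet {t : ℝ} (h0 : 0 < t) : Win (bet t) t := by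
  unfold bet
  split_ifs with h
  · exact win_t h0 (by linarith [pi_gt_three])
  · exact win_all t

/-! ### main, right -/

noncomputable def mR0 (q m ρ t : ℝ) : ℝ := g0 q (AR m ρ t) (bet t) t 0
noncomputable def mRW (q m ρ t κ : ℝ) : ℝ :=
  gW q (AR m ρ t) (bet t) t 0 (exp (cT m t) * κ ^ 2) (eS (cT m t) ^ 2 / m ^ 2)
    (exp (cT m t) * (1 + κ))
noncomputable def mRe (q m ρ t : ℝ) : ℝ := exp (cT m t) * mR0 q m ρ t

/-! ### behind, right, `w = 1` -/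

noncomputable def c2b (q m ρ t : ℝ) : ℝ := q * (AR m ρ t * t)
noncomputable def c2B (q m t : ℝ) : ℝ := q * (11 / 25 * exp (cT m t))
noncomputable def c2E (q m ρ t : ℝ) : ℝ := exp (-(q * (AR m ρ t * t ^ 2)))
noncomputable def bR0 (q m ρ t : ℝ) : ℝ := c2E q m ρ t * h0 (c2b q m ρ t) (c2B q m t)
noncomputable def bRW (q m ρ t : ℝ) : ℝ := c2E q m ρ t *
  ((eS (cT m (t + 6 / 5)) / m) ^ 2 * (t ^ 2 * h0 (c2b q m ρ t) (c2B q m t) +
    2 * t * h1 (c2B q m t) + h2 (c2B q m t)) + exp (cT m (t + 6 / 5)) * h2 (c2B q m t))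
noncomputable def bRe (q m ρ t : ℝ) : ℝ := exp (cT m (t + 6 / 5)) * bR0 q m ρ t

/-! ### front, right, `w = 1` -/

noncomputable def fR0 (q m ρ t : ℝ) : ℝ :=
  if t < 6 / 5 then exp (-(q * (1 - cos t))) * h0 (frR q t) (q * aL m ρ) else 0
noncomputable def fRW (q m ρ t : ℝ) : ℝ :=
  if t < 6 / 5 then exp (-(q * (1 - cos t))) * (t ^ 2 * h0 (frR q t) (q * aL m ρ) +
    2 * t * h1 (q * aL m ρ) + (1 + 1 / m ^ 2) * h2 (q * aL m ρ)) else 0

/-! ### image, right: the left zones at `t' = 2π - t` -/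

noncomputable def iB (m t : ℝ) : ℝ := 11 / 25 * exp (-cT m t)
noncomputable def iL0 (q m ρ t : ℝ) : ℝ := g0 q (AL m ρ t) (iB m t) t 0
noncomputable def iLW (q m ρ t : ℝ) : ℝ := gW q (AL m ρ t) (iB m t) t 0 0 (1 / m ^ 2) 1
noncomputable def jL0 (q m ρ t : ℝ) : ℝ := bH0 q m ρ t
noncomputable def jLW (q m ρ t : ℝ) : ℝ :=
  (t ^ 2 * bH0 q m ρ t + 2 * t * bH1 q m ρ t + bH2 q m ρ t) / m ^ 2 + bH2 q m ρ t

/-! ### sums of the other zones; `F0 FW Fe`: rest and far -/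

noncomputable def SR0 (q m ρ t F0 : ℝ) : ℝ :=
  bR0 q m ρ t + fR0 q m ρ t + iL0 q m ρ (2 * π - t) + jL0 q m ρ (2 * π - t) + F0
noncomputable def SRW (q m ρ t FW : ℝ) : ℝ :=
  bRW q m ρ t + fRW q m ρ t + iLW q m ρ (2 * π - t) + jLW q m ρ (2 * π - t) + FW
noncomputable def SRe (q m ρ t Fe : ℝ) : ℝ :=
  bRe q m ρ t + fR0 q m ρ t + iL0 q m ρ (2 * π - t) + jL0 q m ρ (2 * π - t) + Fe

/-! ### totals -/

noncomputable def TR0 (q m ρ t F0 : ℝ) : ℝ := mR0 q m ρ t + SR0 q m ρ t F0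
noncomputable def TRW (q m ρ t κ F0 FW : ℝ) : ℝ :=
  mRW q m ρ t κ + (√(SRW q m ρ t FW) + κ * √(SR0 q m ρ t F0)) ^ 2
noncomputable def TRe (q m ρ t Fe : ℝ) : ℝ := mRe q m ρ t + SRe q m ρ t Fe

/-! ### the weight of the main zone -/

theorem tr_em_zero (m : ℝ) : em m 0 0 = 1 := by
  unfold em pm
  simp

/-- `|w - 1|²` -/
theorem tr_sub_one_sq (c d : ℝ) : ‖ww c d - 1‖ ^ 2 = (exp c - 1) ^ 2 + 2 * exp c * (1 - cos d) := by
  have h := Wm_eq 1 0 c d 0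
  unfold Wm at h
  rw [tr_em_zero] at h
  have e1 : pm 1 0 = 0 := by
    unfold pm
    simp
  rw [e1] at h
  have e2 : (0 : ℝ) + 0 - d = -d := by ring
  rw [e2, cos_neg, exp_zero, zero_add] at h
  have e3 : ‖ww c d - 1‖ = ‖1 - ww c d‖ := norm_sub_rev _ _
  rw [e3, h]
  ring

theorem Wm_main_R {m t κ c d s : ℝ} (hm : 0 < m) (ht : 0 < t) (hc : 0 ≤ c) (hd : d ≤ 0)
    (hd2 : -(π / 2) ≤ d) (hκ : 0 ≤ κ) (hw : ‖ww c d - 1‖ ≤ κ) (hs : s ∈ SmR t) :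
    Wm m (-t) (ww c d) s ≤ exp (cT m t) * κ ^ 2 + eS (cT m t) ^ 2 / m ^ 2 * s ^ 2 +
      exp (cT m t) * (1 + κ) * (t - s) ^ 2 := by
  obtain ⟨h1, h2, h3⟩ := hs
  have hT : 0 < cT m t := lt_min one_pos (by positivity)
  have ha0 : 0 ≤ pm m s := pm_nonneg hm h1
  have haT : pm m s ≤ cT m t := pm_le_cT hm h1 h2
  have hk : (exp c - 1) ^ 2 + 2 * exp c * (1 - cos d) ≤ κ ^ 2 := by
    rw [← tr_sub_one_sq]
    exact pow_le_pow_left₀ (norm_nonneg _) hw 2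
  have hec : 1 ≤ exp c := one_le_exp hc
  have hcd : 0 ≤ 1 - cos d := by linarith [cos_le_one d]
  have hec2 : exp c ≤ 1 + κ := by
    have h4 : (exp c - 1) ^ 2 ≤ κ ^ 2 := by
      have := mul_nonneg (mul_nonneg zero_le_two (exp_pos c).le) hcd
      linarith
    have h5 := abs_le_of_sq_le_sq' h4 hκ
    linarith [h5.2]
  set A := exp (pm m s) with hA
  have hA1 : 1 ≤ A := one_le_exp ha0
  have hAT : A ≤ exp (cT m t) := exp_le_exp.2 haT
  have e1 : A - 1 ≤ eS (cT m t) * (s / m) := by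
    refine (eS_ge ha0 haT hT).trans ?_
    exact mul_le_mul_of_nonneg_left (pm_le hm h1) (eS_nonneg hT)
  have e2 : (A - 1) ^ 2 ≤ eS (cT m t) ^ 2 / m ^ 2 * s ^ 2 := by
    have := pow_le_pow_left₀ (by linarith) e1 2
    calc (A - 1) ^ 2 ≤ (eS (cT m t) * (s / m)) ^ 2 := this
      _ = _ := by
        field_simp
  have hu : 0 ≤ t - s := by linarith
  have e3 := one_sub_cos_le (t - s)
  have hcu : 0 ≤ 1 - cos (t - s) := by linarith [cos_le_one (t - s)]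
  have e4 : 1 - cos (-t + s - d) ≤ (1 - cos (t - s)) + (1 - cos d) := by
    have e5 : cos (-t + s - d) = cos (t - s) * cos d - sin (t - s) * sin d := by
      rw [← cos_add, ← cos_neg]
      congr 1
      ring
    have e6 : 0 ≤ sin (t - s) := sin_nonneg_of_nonneg_of_le_pi hu (by linarith [pi_gt_three])
    have e7 : sin d ≤ 0 := sin_nonpos_of_nonpos_of_neg_pi_le hd (by linarith [pi_pos])
    rw [e5]
    nlinarith [mul_nonneg hcu hcd, mul_nonneg e6 (neg_nonneg.2 e7)]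
  rw [Wm_eq, ← hA, Real.exp_add, ← hA]
  have e8 : (A - exp c) ^ 2 ≤ (A - 1) ^ 2 + (exp c - 1) ^ 2 := by
    nlinarith [mul_nonneg (sub_nonneg.2 hA1) (sub_nonneg.2 hec)]
  have hAc : 0 ≤ 2 * (A * exp c) := by positivity
  have e9 := mul_le_mul_of_nonneg_left e4 hAc
  -- `2 A e^c (1 - cos u) ≤ e^T (1+κ) u²`
  have e10 : 2 * (A * exp c) * (1 - cos (t - s)) ≤ exp (cT m t) * (1 + κ) * (t - s) ^ 2 := by
    calc 2 * (A * exp c) * (1 - cos (t - s)) = (A * exp c) * (2 * (1 - cos (t - s))) := by ring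
      _ ≤ (exp (cT m t) * (1 + κ)) * (t - s) ^ 2 :=
        mul_le_mul (mul_le_mul hAT hec2 (exp_pos _).le (exp_pos _).le) e3 (by positivity)
          (by positivity)
  have e11 : (exp c - 1) ^ 2 + 2 * (A * exp c) * (1 - cos d) ≤ exp (cT m t) * κ ^ 2 := by
    have e12 : (exp c - 1) ^ 2 ≤ A * (exp c - 1) ^ 2 := le_mul_of_one_le_left (sq_nonneg _) hA1
    have e13 : A * ((exp c - 1) ^ 2 + 2 * exp c * (1 - cos d)) ≤ exp (cT m t) * κ ^ 2 :=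
      mul_le_mul hAT hk (by positivity) (exp_pos _).le
    linarith
  linarith

/-! ### the zones cover the line -/

theorem tr_far_cos {u : ℝ} (h1 : 6 / 5 ≤ u) (h2 : u ≤ 5) : 6336 / 10000 ≤ 1 - cos u := by
  rcases le_total u π with h | h
  · exact SokalFA.cos_split_large h1 h
  · have e : cos u = cos (2 * π - u) := by rw [cos_two_pi_sub]
    rw [e]
    exact SokalFA.cos_split_large (by linarith [pi_gt_d]) (by linarith)

theorem cov_R {t : ℝ} (h1 : t ≤ π) (s : ℝ) :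
    s ∈ SmR t ∨ (s ∈ Icc t (t + 6 / 5) ∨ s ∈ (if t < 6 / 5 then Icc (-(6 / 5 - t)) 0 else ∅) ∨
      s ∈ SmL (2 * π - t) ∨ s ∈ Icc (-(2 * π - t) - 6 / 5) (-(2 * π - t)) ∨
      s ∈ {s | 6336 / 10000 ≤ 1 - cos (-t + s)} ∨ s ∈ Ici (t + 5) ∪ Iic (-(2 * π - t + 5))) := by
  have hp := pi_gt_d
  have hp2 := pi_lt_d
  have hc : ∀ u, cos (-t + s) = cos u → 6 / 5 ≤ u → u ≤ 5 →
      s ∈ {s | 6336 / 10000 ≤ 1 - cos (-t + s)} := fun u hu h2 h3 => by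
    show 6336 / 10000 ≤ 1 - cos (-t + s)
    rw [hu]
    exact tr_far_cos h2 h3
  rcases le_total (t + 5) s with a | a
  · exact Or.inr (Or.inr (Or.inr (Or.inr (Or.inr (Or.inr (Or.inl a))))))
  rcases le_total (t + 6 / 5) s with b | b
  · exact Or.inr (Or.inr (Or.inr (Or.inr (Or.inr (Or.inl (hc (s - t) (by congr 1; ring)
      (by linarith) (by linarith)))))))
  rcases le_total t s with c | c
  · exact Or.inr (Or.inl ⟨c, b⟩)
  rcases le_total 0 s with d | d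
  · rcases le_total (t - s) (6 / 5) with e | e
    · exact Or.inl ⟨d, c, e⟩
    · refine Or.inr (Or.inr (Or.inr (Or.inr (Or.inr (Or.inl (hc (t - s) ?_ e (by linarith)))))))
      rw [← cos_neg]
      congr 1
      ring
  rcases le_total (t - s) (6 / 5) with e | e
  · rcases lt_or_ge t (6 / 5) with f | f
    · refine Or.inr (Or.inr (Or.inl ?_))
      rw [if_pos f]
      exact ⟨by linarith, d⟩
    · have hs : s = 0 := by linarith
      have ht : t = 6 / 5 := by linarith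
      refine Or.inl ⟨hs.ge, by linarith, e⟩
  rcases le_total (t - s) 5 with f | f
  · refine Or.inr (Or.inr (Or.inr (Or.inr (Or.inr (Or.inl (hc (t - s) ?_ e f))))))
    rw [← cos_neg]
    congr 1
    ring
  rcases le_total (t - s) (2 * π - 6 / 5) with g | g
  · refine Or.inr (Or.inr (Or.inr (Or.inr (Or.inr (Or.inl (hc (2 * π - (t - s)) ?_ (by linarith)
      (by linarith)))))))
    rw [cos_two_pi_sub, ← cos_neg]
    congr 1
    ring
  rcases le_total (t - s) (2 * π) with i | i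
  · exact Or.inr (Or.inr (Or.inr (Or.inl ⟨by linarith, d, by linarith⟩)))
  rcases le_total (t - s) (2 * π + 6 / 5) with j | j
  · exact Or.inr (Or.inr (Or.inr (Or.inr (Or.inl ⟨by linarith, by linarith⟩))))
  rcases le_total (t - s) (2 * π + 5) with k | k
  · refine Or.inr (Or.inr (Or.inr (Or.inr (Or.inr (Or.inl (hc (t - s - 2 * π) ?_ (by linarith)
      (by linarith)))))))
    rw [cos_sub_two_pi, ← cos_neg]
    congr 1
    ring
  · refine Or.inr (Or.inr (Or.inr (Or.inr (Or.inr (Or.inr (Or.inr ?_))))))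
    show s ≤ -(2 * π - t + 5)
    linarith

/-! ### nonnegativity -/

theorem tr_gG_nonneg (q A B : ℝ) : 0 ≤ gG q A B := Real.sqrt_nonneg _

theorem tr_gr_nonneg {q A B t : ℝ} (hA : 0 < A) (hB : 0 < B) (ht : 0 ≤ t) : 0 ≤ gr q A B t :=
  le_min (div_nonneg (tr_gG_nonneg _ _ _) zero_le_two) (by linarith [gv_le hA hB ht])

theorem tr_gs_nonneg {q A B : ℝ} (hq : 0 < q) (hA : 0 < A) (hB : 0 < B) : 0 ≤ gs q A B := by
  unfold gs
  positivity

theorem tr_g0_nonneg {q A B t l : ℝ} (hA : 0 < A) (hB : 0 < B) (ht : 0 ≤ t) :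
    0 ≤ g0 q A B t l := by
  have h1 := tr_gG_nonneg q A B
  have h2 := tr_gr_nonneg (q := q) hA hB ht
  unfold g0
  positivity

theorem tr_gW_nonneg {q A B t l a0 a1 a2 : ℝ} (hq : 0 < q) (hA : 0 < A) (hB : 0 < B) (ht : 0 ≤ t)
    (h0 : 0 ≤ a0) (h1 : 0 ≤ a1) (h2 : 0 ≤ a2) : 0 ≤ gW q A B t l a0 a1 a2 := by
  have e1 := tr_gG_nonneg q A B
  have e2 := tr_gr_nonneg (q := q) hA hB ht
  have e3 := tr_gs_nonneg hq hA hB
  have e4 : 0 ≤ t - gv A B t := by linarith [gv_le hA hB ht]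
  unfold gW
  refine mul_nonneg (le_min ?_ ?_) (exp_pos _).le <;> positivity

section nn

variable {q m ρ t : ℝ}

theorem tr_bet_pos (h0 : 0 < t) : 0 < bet t := (win_bet h0).1

theorem mR0_nonneg (hρ : 0 < ρ) (hm : ρ ≤ m) (ht : 0 < t) : 0 ≤ mR0 q m ρ t :=
  tr_g0_nonneg (AR_pos hρ hm ht) (tr_bet_pos ht) ht.le

theorem mRW_nonneg {κ : ℝ} (hq : 0 < q) (hρ : 0 < ρ) (hm : ρ ≤ m) (ht : 0 < t) (hκ : 0 ≤ κ) :
    0 ≤ mRW q m ρ t κ :=
  tr_gW_nonneg hq (AR_pos hρ hm ht) (tr_bet_pos ht) ht.le (by positivity) (by positivity) (by positivity)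

theorem mRe_nonneg (hρ : 0 < ρ) (hm : ρ ≤ m) (ht : 0 < t) : 0 ≤ mRe q m ρ t :=
  mul_nonneg (exp_pos _).le (mR0_nonneg hρ hm ht)

theorem c2b_nonneg (hq : 0 < q) (hρ : 0 < ρ) (hm : ρ ≤ m) (ht : 0 < t) : 0 ≤ c2b q m ρ t :=
  mul_nonneg hq.le (mul_nonneg (AR_pos hρ hm ht).le ht.le)

theorem c2B_pos (hq : 0 < q) : 0 < c2B q m t := by
  unfold c2B
  positivity

theorem bR0_nonneg (hq : 0 < q) (hρ : 0 < ρ) (hm : ρ ≤ m) (ht : 0 < t) : 0 ≤ bR0 q m ρ t :=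
  mul_nonneg (exp_pos _).le (h0_nonneg (c2b_nonneg hq hρ hm ht) (c2B_pos hq))

theorem bRW_nonneg (hq : 0 < q) (hρ : 0 < ρ) (hm : ρ ≤ m) (ht : 0 < t) : 0 ≤ bRW q m ρ t := by
  have e0 := h0_nonneg (c2b_nonneg hq hρ hm ht) (c2B_pos (m := m) (t := t) hq)
  have e1 := h1_nonneg (c2B_pos (m := m) (t := t) hq)
  have e2 := h2_nonneg (c2B_pos (m := m) (t := t) hq)
  unfold bRW c2E
  positivity

theorem bRe_nonneg (hq : 0 < q) (hρ : 0 < ρ) (hm : ρ ≤ m) (ht : 0 < t) : 0 ≤ bRe q m ρ t :=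
  mul_nonneg (exp_pos _).le (bR0_nonneg hq hρ hm ht)

theorem fR0_nonneg (hq : 0 < q) (hρ : 0 < ρ) (hm : ρ ≤ m) : 0 ≤ fR0 q m ρ t := by
  unfold fR0
  split_ifs
  · exact mul_nonneg (exp_pos _).le (h0_nonneg (frR_nonneg hq) (mul_pos hq (aL_pos hρ hm)))
  · exact le_rfl

theorem fRW_nonneg (hq : 0 < q) (hρ : 0 < ρ) (hm : ρ ≤ m) (ht : 0 < t) : 0 ≤ fRW q m ρ t := by
  have hB := mul_pos hq (aL_pos hρ hm)
  have e0 := h0_nonneg (frR_nonneg (t := t) hq) hB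
  have e1 := h1_nonneg hB
  have e2 := h2_nonneg hB
  unfold fRW
  split_ifs
  · positivity
  · exact le_rfl

theorem tr_iB_pos : 0 < iB m t := by
  unfold iB
  positivity

theorem iL0_nonneg (hρ : 0 < ρ) (hm : ρ ≤ m) (ht : 0 < t) : 0 ≤ iL0 q m ρ t :=
  tr_g0_nonneg (AL_pos hρ hm ht) tr_iB_pos ht.le

theorem iLW_nonneg (hq : 0 < q) (hρ : 0 < ρ) (hm : ρ ≤ m) (ht : 0 < t) : 0 ≤ iLW q m ρ t :=
  tr_gW_nonneg hq (AL_pos hρ hm ht) tr_iB_pos ht.le le_rfl (by positivity) zero_le_one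

theorem tr_bH0_nonneg : 0 ≤ bH0 q m ρ t := by
  unfold bH0
  positivity

theorem tr_bH1_nonneg (hq : 0 < q) (hρ : 0 < ρ) (hm : ρ ≤ m) (ht : 0 ≤ t) : 0 ≤ bH1 q m ρ t := by
  have := bB_pos hρ hm ht
  unfold bH1
  positivity

theorem tr_bH2_nonneg (hq : 0 < q) (hρ : 0 < ρ) (hm : ρ ≤ m) (ht : 0 ≤ t) : 0 ≤ bH2 q m ρ t := by
  have := bB_pos hρ hm ht
  unfold bH2
  positivity

theorem jL0_nonneg : 0 ≤ jL0 q m ρ t := tr_bH0_nonneg

theorem jLW_nonneg (hq : 0 < q) (hρ : 0 < ρ) (hm : ρ ≤ m) (ht : 0 ≤ t) : 0 ≤ jLW q m ρ t := by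
  have e0 := tr_bH0_nonneg (q := q) (m := m) (ρ := ρ) (t := t)
  have e1 := tr_bH1_nonneg hq hρ hm ht
  have e2 := tr_bH2_nonneg hq hρ hm ht
  unfold jLW
  positivity

end nn

/-! ### the zones -/

theorem bR_zone {q m ρ t : ℝ} (hq : 0 < q) (hρ : 0 < ρ) (hm : ρ ≤ m) (ht : 0 < t) :
    Zone q m ρ (-t) 1 (Icc t (t + 6 / 5)) (bR0 q m ρ t) (bRW q m ρ t) (bRe q m ρ t) :=
  Z2R1 hq hρ hm ht

theorem tr_zone_empty (q m ρ θ : ℝ) (w : ℂ) : Zone q m ρ θ w ∅ 0 0 0 := by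
  refine ⟨?_, ?_, ?_⟩ <;> simp

theorem fR_zone {q m ρ t : ℝ} (hq : 0 < q) (hρ : 0 < ρ) (hm : ρ ≤ m) (hm1 : 5 / 4 ≤ m)
    (ht : 0 < t) : Zone q m ρ (-t) 1 (if t < 6 / 5 then Icc (-(6 / 5 - t)) 0 else ∅) (fR0 q m ρ t)
      (fRW q m ρ t) (fR0 q m ρ t) := by
  unfold fR0 fRW
  split_ifs with h
  · exact zone_front_R hq hρ hm hm1 ht h.le
  · exact tr_zone_empty _ _ _ _ _

theorem iL_zone {q m ρ t : ℝ} (hq : 0 < q) (hρ : 0 < ρ) (hm : ρ ≤ m) (ht : 0 < t) :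
    Zone q m ρ t 1 (SmL t) (iL0 q m ρ t) (iLW q m ρ t) (iL0 q m ρ t) := by
  have hm0 : 0 < m := hρ.trans_le hm
  have h := zmain_L (q := q) hq hρ hm ht (win_all t) (lft_cT hm0 (by norm_num : (0 : ℝ) < 11 / 25))
  rw [one_mul] at h
  exact h

/-- MAIN ZONE with the direction `w`. -/
theorem mR_zone {q m ρ t κ c d : ℝ} (hq : 0 < q) (hρ : 0 < ρ) (hm : ρ ≤ m) (ht : 0 < t)
    (hc : 0 ≤ c) (hd : d ≤ 0) (hd2 : -(π / 2) ≤ d) (hκ : 0 ≤ κ) (hw : ‖ww c d - 1‖ ≤ κ) :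
    Zone q m ρ (-t) (ww c d) (SmR t) (mR0 q m ρ t) (mRW q m ρ t κ) (mRe q m ρ t) := by
  have hm0 : 0 < m := hρ.trans_le hm
  exact zmain_of_R hq (AR_pos hρ hm ht) (tr_bet_pos ht) ht.le (measurableSet_SmR t)
    (fun s hs => ⟨hs.1, hs.2.1⟩) (fun s hs => Dm_main_R hρ hm ht (win_bet ht) hs) (by positivity)
    (by positivity) (by positivity) (fun s hs => Wm_main_R hm0 ht hc hd hd2 hκ hw hs)
    (exp_pos _).le fun s hs => exp_le_exp.2 (pm_le_cT hm0 hs.1 hs.2.1)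

/-- ALL ZONES, right. -/
theorem zoneR {q m ρ t κ c d F0 FW Fe : ℝ} (hq : 0 < q) (hρ : 0 < ρ) (hm : ρ ≤ m)
    (hm1 : 5 / 4 ≤ m) (ht : 0 < t) (htp : t ≤ π) (hc : 0 ≤ c) (hd : d ≤ 0) (hd2 : -(π / 2) ≤ d)
    (hκ : 0 ≤ κ) (hw : ‖ww c d - 1‖ ≤ κ) (hF0 : 0 ≤ F0) (hFW : 0 ≤ FW) (hFe : 0 ≤ Fe)
    (hF : Zone q m ρ (-t) 1 ({s | 6336 / 10000 ≤ 1 - cos (-t + s)} ∪
      (Ici (t + 5) ∪ Iic (-(2 * π - t + 5)))) F0 FW Fe) :
    Zone q m ρ (-t) (ww c d) univ (TR0 q m ρ t F0) (TRW q m ρ t κ F0 FW) (TRe q m ρ t Fe) := by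
  have hp := pi_gt_d
  have ht' : 0 < 2 * π - t := by linarith
  have e : (2 * π - t) - 2 * π = -t := by ring
  -- images
  have zi := (iL_zone hq hρ hm ht').sub_two_pi
  rw [e] at zi
  have zj := (zone_behind_L' hq hρ hm ht'.le).sub_two_pi
  rw [e] at zj
  have n1 := bR0_nonneg hq hρ hm ht
  have n2 := bRW_nonneg hq hρ hm ht
  have n3 := bRe_nonneg hq hρ hm ht
  have n4 := fR0_nonneg (t := t) hq hρ hm
  have n5 := fRW_nonneg hq hρ hm ht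
  have n6 := iL0_nonneg (q := q) hρ hm ht'
  have n7 := iLW_nonneg hq hρ hm ht'
  have n8 := jL0_nonneg (q := q) (m := m) (ρ := ρ) (t := 2 * π - t)
  have n9 := jLW_nonneg hq hρ hm ht'.le
  have z1 := (bR_zone hq hρ hm ht).union (fR_zone hq hρ hm hm1 ht) n1 n2 n3 n4 n5 n4
  have z2 := z1.union zi (by positivity) (by positivity) (by positivity) n6 n7 n6
  have z3 := z2.union zj (by positivity) (by positivity) (by positivity) n8 n9 n8
  have z4 := z3.union hF (by positivity) (by positivity) (by positivity) hF0 hFW hFe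
  have z5 := z4.tri (w' := ww c d) (κ := κ) (by positivity) (by positivity) hw
  have z6 := (mR_zone hq hρ hm ht hc hd hd2 hκ hw).union z5 (mR0_nonneg hρ hm ht)
    (mRW_nonneg hq hρ hm ht hκ) (mRe_nonneg hρ hm ht) (by positivity) (by positivity)
    (by positivity)
  refine z6.subset fun s _ => ?_
  rcases cov_R htp s with h | h | h | h | h | h | h
  · exact Or.inl h
  · exact Or.inr (Or.inl (Or.inl (Or.inl (Or.inl h))))
  · exact Or.inr (Or.inl (Or.inl (Or.inl (Or.inr h))))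
  · exact Or.inr (Or.inl (Or.inl (Or.inr h)))
  · exact Or.inr (Or.inl (Or.inr h))
  · exact Or.inr (Or.inr (Or.inl h))
  · exact Or.inr (Or.inr (Or.inr h))


/-! ### to `Shf` -/

/-- RIGHT: from the real inequalities to `Shf`.  `F0 FW Fe`: any zone bound of rest and far. -/
theorem shfR_cen {N : ℕ} {r δ y η ζ t g k q F0 FW Fe f0 f1 f2 : ℝ} (hN : 1 ≤ N) (hr : 0 < r)
    (hδ : 0 < δ) (hA : At r δ y η) (hy : y ≤ 0) (hL : Lev r δ y η g k q) (hk : 0 ≤ k)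
    (hθ : η + ζ = -t) (ht : 0 < t) (htp : t ≤ π) (hF0 : 0 ≤ F0) (hFW : 0 ≤ FW) (hFe : 0 ≤ Fe)
    (hF : Zone r (mm (r * δ)) (r * δ) (-t) 1 ({s | 6336 / 10000 ≤ 1 - cos (-t + s)} ∪
      (Ici (t + 5) ∪ Iic (-(2 * π - t + 5)))) F0 FW Fe)
    (hf0 : PF r δ η g q * TR0 r (mm (r * δ)) (r * δ) t F0 ≤ f0)
    (hf1 : √(PF r δ η g q * TR0 r (mm (r * δ)) (r * δ) t F0 *
      (PF r δ η g q * TRW r (mm (r * δ)) (r * δ) t (k * |η| / √(RR r δ)) F0 FW *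
        (RR r δ / hst N ^ 2))) ≤ f1)
    (hf2 : PF r δ η g q * TRW r (mm (r * δ)) (r * δ) t (k * |η| / √(RR r δ)) F0 FW *
        (RR r δ / hst N ^ 2) +
      PF r δ η g q * TRe r (mm (r * δ)) (r * δ) t Fe / Gm N r δ ≤ f2) :
    Shf r δ y ζ (HH N r δ) f0 f1 f2 := by
  have hρ : 0 < r * δ := hA.dom.1
  have hR : √(1 + (r * δ) ^ 2) = √(RR r δ) := rfl
  have hsq1 : 1 ≤ √(1 + (r * δ) ^ 2) := by
    rw [show (1 : ℝ) = √1 by simp]
    exact Real.sqrt_le_sqrt (by simp; positivity)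
  have hsqρ : r * δ ≤ √(1 + (r * δ) ^ 2) :=
    Real.le_sqrt_of_sq_le (by linarith)
  have hm : r * δ ≤ mm (r * δ) := by
    unfold mm
    linarith
  have hm1 : 5 / 4 ≤ mm (r * δ) := by
    unfold mm
    linarith
  have hκ : 0 ≤ k * |η| / √(RR r δ) := by positivity
  have hw := w_sub hr hL
  rw [sK_ww hA.dom] at hw
  have hc : 0 ≤ -y := by linarith
  have hd : sP (r * δ) y ≤ 0 := sP_nonpos hρ hy
  have hd2 : -(π / 2) ≤ sP (r * δ) y := (abs_le.1 (sP_abs_le (r * δ) y)).1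
  have Z := zoneR hr hρ hm hm1 ht htp hc hd hd2 hκ hw hF0 hFW hFe hF
  have hp := pi_gt_d
  have ht' : 0 < 2 * π - t := by linarith
  have n0 := mR0_nonneg (q := r) hρ hm ht
  have n1 := bR0_nonneg hr hρ hm ht
  have n3 := bRe_nonneg hr hρ hm ht
  have n4 := fR0_nonneg (t := t) hr hρ hm
  have n6 := iL0_nonneg (q := r) hρ hm ht'
  have n8 := jL0_nonneg (q := r) (m := mm (r * δ)) (ρ := r * δ) (t := 2 * π - t)
  have n9 := mRe_nonneg (q := r) hρ hm ht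
  have n10 := mRW_nonneg hr hρ hm ht hκ
  have m0 : 0 ≤ TR0 r (mm (r * δ)) (r * δ) t F0 := by
    unfold TR0 SR0
    positivity
  have mW : 0 ≤ TRW r (mm (r * δ)) (r * δ) t (k * |η| / √(RR r δ)) F0 FW := by
    unfold TRW
    positivity
  have me : 0 ≤ TRe r (mm (r * δ)) (r * δ) t Fe := by
    unfold TRe SRe
    positivity
  rw [← hθ] at Z
  rw [← sK_ww hA.dom] at Z
  exact shf_wK hN hr hδ hA hL m0 mW me Z hf0 hf1 hf2

end SokalCen
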