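import Pool.Agent.Lib_MP_af4de1_v3.ShfW
import Pool.Agent.Lib_MP_af4de1_v3.CenTR
import Pool.Agent.Lib_MP_af4de1_v3.CelRM

/-!
# BRIDGE, right side, main part: closed forms of `CenDef` times `PF` = scaled forms of `CelRM`

`s = √R`, `c = 1/s`, `ν = ρ/s`, `m = μ s`, `t = (1+τ) h`, `Γ = r h²/R`, `κ = kk τ (h c)`.
-/

set_option autoImplicit false

namespace SokalCel

open Real SokalCen

/-- the prefactor in scaled variables -/
noncomputable def PS (r ρ s g q τ Γ μ : ℝ) : ℝ :=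
  √(r / (2 * π * ρ)) * √(q * s) * exp (g / 2 * (Γ * τ ^ 2)) * √(1 + 1 / (μ * s) ^ 2)

theorem min_inv_max {m t : ℝ} (hm : 0 < m) (ht : 0 < t) : min 1 (m / t) = 1 / max 1 (t / m) := by
  rcases le_total (t / m) 1 with h | h
  · rw [max_eq_left h, min_eq_left, div_one]
    rw [div_le_one hm] at h
    rwa [le_div_iff₀ ht, one_mul]
  · rw [max_eq_right h, min_eq_right, one_div_div]
    rw [one_le_div hm] at h
    rwa [div_le_one ht]

theorem AR_eq {ρ s μ t : ℝ} (hρ : 0 < ρ) (hs : 0 < s) (hμ : 0 < μ) (ht : 0 < t) :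
    AR (μ * s) ρ t = Ra μ (ρ / s) (t / (μ * s)) * (1 / s) ^ 2 / (ρ / s) := by
  have hm : 0 < μ * s := mul_pos hμ hs
  have hM : 0 < max 1 (t / (μ * s)) := lt_max_of_lt_left one_pos
  unfold AR
  rw [min_inv_max hm ht]
  unfold aR cT Ra sS
  set T := min 1 (t / (μ * s)) with hT
  field_simp

theorem Ra_pos {μ ν T : ℝ} (hμ : 1 ≤ μ) (hν0 : 0 < ν) (hν : ν ≤ 1) (hT : 0 < T) : 0 < Ra μ ν T := by
  unfold Ra
  have hM : 0 < max 1 T := lt_max_of_lt_left one_pos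
  have h1 : sS (min 1 T) ≤ 23 / 16 := sS_le hT.le
  have h2 : 0 < sS (min 1 T) := by
    have h3 : 0 < min 1 T := lt_min one_pos hT
    unfold sS
    positivity
  have h4 : ν * sS (min 1 T) ≤ 1 * (23 / 16) := mul_le_mul hν h1 h2.le zero_le_one
  have h5 : 0 < μ - ν * sS (min 1 T) / 2 := by linarith
  positivity

/-- data -/
structure Dat (r ρ s h τ Γ : ℝ) : Prop where
  r0 : 0 < r
  ρ0 : 0 < ρ
  s0 : 0 < s
  s2 : s ^ 2 = 1 + ρ ^ 2
  h0 : 0 < h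
  τ0 : 0 ≤ τ
  G : Γ = r * h ^ 2 / s ^ 2

section

variable {r ρ s h τ Γ : ℝ} (D : Dat r ρ s h τ Γ)

include D

theorem Dat.ρs : ρ ≤ s := by
  have h1 := D.s2
  have h2 := D.s0
  have h3 := D.ρ0
  nlinarith

theorem Dat.ν0 : 0 < ρ / s := div_pos D.ρ0 D.s0

theorem Dat.ν1 : ρ / s ≤ 1 := by
  rw [div_le_one D.s0]
  exact D.ρs

theorem Dat.t0 : 0 < (1 + τ) * h := mul_pos (by linarith [D.τ0]) D.h0

theorem Dat.Γ0 : 0 < Γ := by
  rw [D.G]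
  have := D.r0
  have := D.h0
  have := D.s0
  positivity

theorem Dat.Te {μ : ℝ} (hμ : 0 < μ) : (1 + τ) * h * (1 / s) / μ = (1 + τ) * h / (μ * s) := by
  have := D.s0
  field_simp

theorem Dat.T0 {μ : ℝ} (hμ : 0 < μ) : 0 < (1 + τ) * h * (1 / s) / μ := by
  have h1 := D.t0
  have h2 := D.s0
  positivity

/-- `A + B = Q/ν` -/
theorem Dat.AB {μ β : ℝ} (hμ : 0 < μ) :
    AR (μ * s) ρ ((1 + τ) * h) + β =
      RQ μ (1 / s) (ρ / s) ((1 + τ) * h * (1 / s) / μ) β / (ρ / s) := by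
  have h1 := D.ρ0
  have h2 := D.s0
  rw [AR_eq D.ρ0 D.s0 hμ D.t0, ← D.Te hμ]
  unfold RQ
  field_simp

theorem Dat.RQ_pos {μ β : ℝ} (hμ : 1 ≤ μ) (hβ : 0 < β) :
    0 < RQ μ (1 / s) (ρ / s) ((1 + τ) * h * (1 / s) / μ) β := by
  have h1 := Ra_pos hμ D.ν0 D.ν1 (D.T0 (μ := μ) (by linarith))
  have h2 := D.ν0
  have h3 := D.s0
  unfold RQ
  positivity

/-- prefactor times the full Gaussian -/
theorem Dat.PG {μ β g q : ℝ} (hμ : 1 ≤ μ) (hβ : 0 < β) (hq : 0 ≤ q) :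
    PS r ρ s g q τ Γ μ * gG r (AR (μ * s) ρ ((1 + τ) * h)) β =
      RV μ q (1 / s) (ρ / s) ((1 + τ) * h * (1 / s) / μ) β * exp (g / 2 * (Γ * τ ^ 2)) := by
  have hμ0 : 0 < μ := by linarith
  have hQ := D.RQ_pos hμ hβ
  have h1 := D.ρ0
  have h2 := D.s0
  have h3 := D.r0
  have hpi := Real.pi_pos
  unfold gG PS RV
  rw [D.AB hμ0]
  set Q := RQ μ (1 / s) (ρ / s) ((1 + τ) * h * (1 / s) / μ) β with hQd
  have e1 : √(r / (2 * π * ρ)) * √(q * s) * √(1 + 1 / (μ * s) ^ 2) *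
      √(π / (r * (Q / (ρ / s)))) = √(q * (1 + (1 / s) ^ 2 / μ ^ 2) / (2 * Q)) := by
    rw [← Real.sqrt_mul (by positivity), ← Real.sqrt_mul (by positivity),
      ← Real.sqrt_mul (by positivity)]
    congr 1
    field_simp
  rw [← e1]
  ring

/-- exponent -/
theorem Dat.ex {μ β g : ℝ} (hμ : 1 ≤ μ) (hβ : 0 < β) :
    exp (g / 2 * (Γ * τ ^ 2)) * exp (-(r * (AR (μ * s) ρ ((1 + τ) * h) * β * ((1 + τ) * h) ^ 2 /
      (AR (μ * s) ρ ((1 + τ) * h) + β) - 0))) =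
      RX μ g (1 / s) (ρ / s) τ ((1 + τ) * h * (1 / s) / μ) β Γ := by
  have hμ0 : 0 < μ := by linarith
  have hA := Ra_pos hμ D.ν0 D.ν1 (D.T0 (μ := μ) hμ0)
  have hQ := D.RQ_pos hμ hβ
  have h1 := D.ρ0
  have h2 := D.s0
  have h3 := D.h0
  rw [← Real.exp_add, D.AB hμ0, AR_eq D.ρ0 D.s0 hμ0 D.t0, ← D.Te hμ0, D.G]
  unfold RX Re0
  congr 1
  set T := (1 + τ) * h * (1 / s) / μ with hT
  unfold RQ at hQ ⊢
  set A := Ra μ (ρ / s) T with hAd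
  have hQ' : A * (1 / s) ^ 2 + ρ / s * β ≠ 0 := hQ.ne'
  have e2 : (1 / s) ^ 2 / β + ρ / s / A = (A * (1 / s) ^ 2 + ρ / s * β) / (A * β) := by
    field_simp
  rw [e2]
  set QQ := A * (1 / s) ^ 2 + ρ / s * β with hQQ
  field_simp
  ring

/-- `(t - gv)/gG` -/
theorem Dat.gv {μ β : ℝ} (hμ : 1 ≤ μ) (hβ : 0 < β) :
    (1 + τ) * h - gv (AR (μ * s) ρ ((1 + τ) * h)) β ((1 + τ) * h) =
      h * (1 / s) * Ro μ (1 / s) (ρ / s) τ ((1 + τ) * h * (1 / s) / μ) β := by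
  have hμ0 : 0 < μ := by linarith
  have hA := Ra_pos hμ D.ν0 D.ν1 (D.T0 (μ := μ) hμ0)
  have hQ := D.RQ_pos hμ hβ
  have h1 := D.ρ0
  have h2 := D.s0
  have h3 := D.h0
  unfold SokalCen.gv Ro
  rw [D.AB hμ0]
  set T := (1 + τ) * h * (1 / s) / μ with hT
  unfold RQ at hQ ⊢
  set A := Ra μ (ρ / s) T with hAd
  set QQ := A * (1 / s) ^ 2 + ρ / s * β with hQQ
  have e3 : A = (QQ - ρ / s * β) * s ^ 2 := by
    rw [hQQ]
    field_simp
    ring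
  rw [e3]
  field_simp

theorem Dat.gvn {μ β : ℝ} (hμ : 1 ≤ μ) (hβ : 0 < β) :
    0 ≤ Ro μ (1 / s) (ρ / s) τ ((1 + τ) * h * (1 / s) / μ) β := by
  have hA := Ra_pos hμ D.ν0 D.ν1 (D.T0 (μ := μ) (by linarith))
  have hQ := D.RQ_pos hμ hβ
  have h2 := D.s0
  have h3 := D.τ0
  unfold Ro
  positivity

/-- `gs` -/
theorem Dat.gs {μ β : ℝ} (hμ : 1 ≤ μ) (hβ : 0 < β) :
    gs r (AR (μ * s) ρ ((1 + τ) * h)) β =
      (h * (1 / s)) ^ 2 * (ρ / s / (2 * Γ * RQ μ (1 / s) (ρ / s) ((1 + τ) * h * (1 / s) / μ) β)) := by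
  have hμ0 : 0 < μ := by linarith
  have hQ := D.RQ_pos hμ hβ
  have h1 := D.ρ0
  have h2 := D.s0
  have h3 := D.h0
  have h4 := D.r0
  have h5 := D.Γ0
  unfold SokalCen.gs
  have e : (2 : ℝ) * r * (AR (μ * s) ρ ((1 + τ) * h) + β) = 2 * r *
      (RQ μ (1 / s) (ρ / s) ((1 + τ) * h * (1 / s) / μ) β / (ρ / s)) := by rw [D.AB hμ0]
  rw [e, D.G]
  set Q := RQ μ (1 / s) (ρ / s) ((1 + τ) * h * (1 / s) / μ) β with hQd
  field_simp

theorem Dat.cTe {μ : ℝ} (hμ : 0 < μ) :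
    cT (μ * s) ((1 + τ) * h) = min 1 ((1 + τ) * h * (1 / s) / μ) := by
  rw [D.Te hμ]
  rfl

/-- truncation -/
theorem Dat.Pgr {μ β g q : ℝ} (hμ : 1 ≤ μ) (hβ : 0 < β) (hq : 0 ≤ q) :
    PS r ρ s g q τ Γ μ * (gr r (AR (μ * s) ρ ((1 + τ) * h)) β ((1 + τ) * h) *
      exp (-(r * (AR (μ * s) ρ ((1 + τ) * h) * β * ((1 + τ) * h) ^ 2 /
      (AR (μ * s) ρ ((1 + τ) * h) + β) - 0)))) =
      RV μ q (1 / s) (ρ / s) ((1 + τ) * h * (1 / s) / μ) β *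
        RY μ g (1 / s) (ρ / s) τ ((1 + τ) * h * (1 / s) / μ) β Γ := by
  have hμ0 : 0 < μ := by linarith
  have hQ := D.RQ_pos hμ hβ
  have hA := Ra_pos hμ D.ν0 D.ν1 (D.T0 (μ := μ) hμ0)
  have h1 := D.ρ0
  have h2 := D.s0
  have h3 := D.h0
  have h4 := D.r0
  have h5 := D.Γ0
  have hτ := D.τ0
  have hpi := Real.pi_pos
  have hPG := D.PG (g := g) (q := q) hμ hβ hq
  have hex := D.ex (g := g) hμ hβ
  have hgv := D.gv hμ hβ
  have hg0 : 0 < gG r (AR (μ * s) ρ ((1 + τ) * h)) β := by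
    unfold gG
    rw [D.AB hμ0]
    have := D.ν0
    positivity
  have hk : (1 + τ) * h - SokalCen.gv (AR (μ * s) ρ ((1 + τ) * h)) β ((1 + τ) * h) =
      gG r (AR (μ * s) ρ ((1 + τ) * h)) β * (√Γ * Rk μ (1 / s) (ρ / s) τ
        ((1 + τ) * h * (1 / s) / μ) β) := by
    rw [hgv]
    unfold gG Ro Rk
    rw [D.AB hμ0]
    set Q := RQ μ (1 / s) (ρ / s) ((1 + τ) * h * (1 / s) / μ) β with hQd
    set A := Ra μ (ρ / s) ((1 + τ) * h * (1 / s) / μ) with hAd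
    have e1 : √(π / (r * (Q / (ρ / s)))) * √Γ = h * (1 / s) * √(π * (ρ / s) * Q) / Q := by
      rw [← Real.sqrt_mul (by positivity), D.G]
      have e2 : π / (r * (Q / (ρ / s))) * (r * h ^ 2 / s ^ 2) =
          (π * (ρ / s) * Q) * (h * (1 / s) / Q) ^ 2 := by
        field_simp
      rw [e2, Real.sqrt_mul (by positivity), Real.sqrt_sq (by positivity)]
      ring
    have e3 : 0 < √(π * (ρ / s) * Q) := Real.sqrt_pos.2 (by positivity)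
    calc h * (1 / s) * ((1 + τ) * (A * (1 / s) / Q)) =
        (h * (1 / s) * √(π * (ρ / s) * Q) / Q) * ((1 + τ) * A * (1 / s) / √(π * (ρ / s) * Q)) := by
          field_simp
      _ = _ := by
          rw [← e1]
          ring
  unfold gr
  rw [hk]
  set G := gG r (AR (μ * s) ρ ((1 + τ) * h)) β with hG
  set X := exp (-(r * (AR (μ * s) ρ ((1 + τ) * h) * β * ((1 + τ) * h) ^ 2 /
      (AR (μ * s) ρ ((1 + τ) * h) + β) - 0))) with hX
  set κ := √Γ * Rk μ (1 / s) (ρ / s) τ ((1 + τ) * h * (1 / s) / μ) β with hκ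
  set V := RV μ q (1 / s) (ρ / s) ((1 + τ) * h * (1 / s) / μ) β with hV
  have hV0 : 0 ≤ V := Real.sqrt_nonneg _
  have hX0 : 0 < X := exp_pos _
  unfold RY
  rw [← hex]
  have e4 : min (G / 2) (G * κ) = G * min (1 / 2) κ := by
    rw [mul_min_of_nonneg _ _ hg0.le]
    congr 1
    ring
  have hE0 : 0 < exp (g / 2 * (Γ * τ ^ 2)) := exp_pos _
  have e5 : min (exp (g / 2 * (Γ * τ ^ 2)) * X / 2) (√Γ * Rk μ (1 / s) (ρ / s) τ
      ((1 + τ) * h * (1 / s) / μ) β * (exp (g / 2 * (Γ * τ ^ 2)) * X)) =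
      (exp (g / 2 * (Γ * τ ^ 2)) * X) * min (1 / 2) κ := by
    rw [mul_min_of_nonneg _ _ (by positivity)]
    congr 1
    · ring
    · rw [hκ]
      ring
  rw [e4, e5]
  calc PS r ρ s g q τ Γ μ * (G * min (1 / 2) κ * X) =
      (PS r ρ s g q τ Γ μ * G) * (min (1 / 2) κ * X) := by ring
    _ = _ := by
      rw [hPG]
      ring

theorem Dat.PgG {μ β g q : ℝ} (hμ : 1 ≤ μ) (hβ : 0 < β) (hq : 0 ≤ q) :
    PS r ρ s g q τ Γ μ * (gG r (AR (μ * s) ρ ((1 + τ) * h)) β *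
      exp (-(r * (AR (μ * s) ρ ((1 + τ) * h) * β * ((1 + τ) * h) ^ 2 /
      (AR (μ * s) ρ ((1 + τ) * h) + β) - 0)))) =
      RV μ q (1 / s) (ρ / s) ((1 + τ) * h * (1 / s) / μ) β *
        RX μ g (1 / s) (ρ / s) τ ((1 + τ) * h * (1 / s) / μ) β Γ := by
  rw [← D.ex hμ hβ, ← mul_assoc, D.PG hμ hβ hq]
  ring

/-- main part, `m0` -/
theorem Dat.main0 {μ β g q : ℝ} (hμ : 1 ≤ μ) (hβ : 0 < β) (hq : 0 ≤ q) :
    PS r ρ s g q τ Γ μ * g0 r (AR (μ * s) ρ ((1 + τ) * h)) β ((1 + τ) * h) 0 =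
      RM0 μ q g (1 / s) (ρ / s) h τ Γ β := by
  have e1 := D.PgG (g := g) (q := q) hμ hβ hq
  have e2 := D.Pgr (g := g) (q := q) hμ hβ hq
  unfold g0 RM0
  linear_combination e1 / 2 + e2

/-- main part, weight -/
theorem Dat.mainW {μ β g q kk : ℝ} (hμ : 1 ≤ μ) (hβ : 0 < β) (hq : 0 ≤ q) :
    PS r ρ s g q τ Γ μ * gW r (AR (μ * s) ρ ((1 + τ) * h)) β ((1 + τ) * h) 0
      (exp (cT (μ * s) ((1 + τ) * h)) * (kk * τ * (h * (1 / s))) ^ 2)
      (SokalCen.eS (cT (μ * s) ((1 + τ) * h)) ^ 2 / (μ * s) ^ 2)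
      (exp (cT (μ * s) ((1 + τ) * h)) * (1 + kk * τ * (h * (1 / s)))) =
      (h * (1 / s)) ^ 2 * RMW μ q kk g (1 / s) (ρ / s) h τ Γ β := by
  have hμ0 : 0 < μ := by linarith
  have h2 := D.s0
  have h3 := D.h0
  have hρ := D.ρ0
  have h5 := D.Γ0
  have hpi := Real.pi_pos
  have hQ := D.RQ_pos hμ hβ
  have e1 := D.PgG (g := g) (q := q) hμ hβ hq
  have e2 := D.Pgr (g := g) (q := q) hμ hβ hq
  have hgv := D.gv hμ hβ
  have hgn := D.gvn hμ hβ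
  have hgs := D.gs hμ hβ
  have hcT := D.cTe hμ0
  have hAB := D.AB (β := β) hμ0
  have hgv1 : SokalCen.gv (AR (μ * s) ρ ((1 + τ) * h)) β ((1 + τ) * h) =
      (1 + τ) * h * (ρ / s * β / RQ μ (1 / s) (ρ / s) ((1 + τ) * h * (1 / s) / μ) β) := by
    unfold SokalCen.gv
    rw [hAB]
    field_simp
  have hsg : √(2 * (SokalCen.gs r (AR (μ * s) ρ ((1 + τ) * h)) β) / π) = (h * (1 / s)) *
      √(ρ / s / (π * Γ * RQ μ (1 / s) (ρ / s) ((1 + τ) * h * (1 / s) / μ) β)) := by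
    rw [hgs]
    have e : 2 * ((h * (1 / s)) ^ 2 * (ρ / s / (2 * Γ * RQ μ (1 / s) (ρ / s)
        ((1 + τ) * h * (1 / s) / μ) β))) / π = (h * (1 / s)) ^ 2 *
        (ρ / s / (π * Γ * RQ μ (1 / s) (ρ / s) ((1 + τ) * h * (1 / s) / μ) β)) := by
      field_simp
    rw [e, Real.sqrt_mul (by positivity), Real.sqrt_sq (by positivity)]
  unfold gW RMW
  rw [hsg, hgs, hgv, hgv1, hcT]
  unfold RF RG Rm1
  have hR1 : SokalCen.eS (min 1 ((1 + τ) * h * (1 / s) / μ)) = Re1 ((1 + τ) * h * (1 / s) / μ) := rfl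
  rw [hR1]
  set Q := RQ μ (1 / s) (ρ / s) ((1 + τ) * h * (1 / s) / μ) β with hQd
  set T := (1 + τ) * h * (1 / s) / μ with hT
  set V := RV μ q (1 / s) (ρ / s) T β with hV
  set o := Ro μ (1 / s) (ρ / s) τ T β with ho
  set X := exp (-(r * (AR (μ * s) ρ ((1 + τ) * h) * β * ((1 + τ) * h) ^ 2 /
      (AR (μ * s) ρ ((1 + τ) * h) + β) - 0))) with hX
  set G := gG r (AR (μ * s) ρ ((1 + τ) * h)) β with hG
  set P := PS r ρ s g q τ Γ μ with hP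
  set S := √(ρ / s / (π * Γ * Q)) with hS
  have hX0 : 0 ≤ X := (exp_pos _).le
  have hP0 : 0 ≤ P := by rw [hP]; unfold PS; positivity
  have hV0 : 0 ≤ V := Real.sqrt_nonneg _
  set RXX := RX μ g (1 / s) (ρ / s) τ T β Γ with hRX
  set RYY := RY μ g (1 / s) (ρ / s) τ T β Γ with hRY
  set gg := gr r (AR (μ * s) ρ ((1 + τ) * h)) β ((1 + τ) * h) with hgg
  set E := exp (min 1 T) with hE
  set K := kk * τ * (h * (1 / s)) with hK
  set e1' := Re1 T with he1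
  -- push everything into the minimum
  have step : ∀ a b : ℝ, P * (min a b * X) = min (P * (a * X)) (P * (b * X)) := fun a b => by
    rw [min_mul_of_nonneg _ _ hX0, mul_min_of_nonneg _ _ hP0]
  have step2 : ∀ a b : ℝ, (h * (1 / s)) ^ 2 * (V * min a b) =
      min ((h * (1 / s)) ^ 2 * (V * a)) ((h * (1 / s)) ^ 2 * (V * b)) := fun a b => by
    rw [mul_min_of_nonneg _ _ hV0, mul_min_of_nonneg _ _ (by positivity)]
  rw [step, step2]
  congr 1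
  · have key : ∀ w w' : ℝ, w = (h * (1 / s)) ^ 2 * w' → P * (G * w * X) =
        (h * (1 / s)) ^ 2 * (V * (RXX * w')) := fun w w' hw => by
      rw [hw]
      linear_combination ((h * (1 / s)) ^ 2 * w') * e1
    refine key _ _ ?_
    rw [hK]
    field_simp
  · have key : ∀ w w' z z' : ℝ, w = (h * (1 / s)) ^ 2 * w' → z = (h * (1 / s)) ^ 2 * z' →
        P * ((G / 2 * w + gg * z) * X) =
        (h * (1 / s)) ^ 2 * (V * (RXX / 2 * w' + RYY * z')) := fun w w' z z' hw hz => by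
      rw [hw, hz]
      linear_combination ((h * (1 / s)) ^ 2 * w' / 2) * e1 + ((h * (1 / s)) ^ 2 * z') * e2
    refine key _ _ _ _ ?_ ?_
    · rw [hK]
      field_simp
    · rw [hK]
      field_simp

/-- main part, `e^a` -/
theorem Dat.mainE {μ β g q : ℝ} (hμ : 1 ≤ μ) (hβ : 0 < β) (hq : 0 ≤ q) :
    PS r ρ s g q τ Γ μ * (exp (cT (μ * s) ((1 + τ) * h)) *
      g0 r (AR (μ * s) ρ ((1 + τ) * h)) β ((1 + τ) * h) 0) = Γ * RMe μ q g (1 / s) (ρ / s) h τ Γ β := by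
  have h5 := D.Γ0
  have e1 := D.main0 (g := g) (q := q) hμ hβ hq
  rw [D.cTe (by linarith : 0 < μ)]
  unfold RMe
  rw [← e1]
  field_simp

end

end SokalCel
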