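import Pool.Agent.Lib_MP_af4de1_v3.Lev
import Pool.Agent.Lib_MP_af4de1_f1.Sad

/-!
# `D ≤ (1 + κ) √R`, `κ = k |η|/√R`, from field `l1` of `Lev` (both sides)
-/

set_option autoImplicit false

namespace SokalV3

open Complex SokalU SokalF1 SokalF1S SokalF1M

theorem Lev.q1 {r δ y η g k q : ℝ} (hr : 0 < r) (hδ : 0 < δ) (h : Lev r δ y η g k q) :
    sD (r * δ) y ≤ (1 + k * (|η| / √(RR r δ))) * √(RR r δ) := by
  have hρ : 0 < r * δ := by positivity
  have hR : 0 < RR r δ := by unfold RR; positivity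
  have hRe : RR r δ = 1 + (r * δ) ^ 2 := rfl
  set s := √(RR r δ) with hs
  have hs0 : 0 < s := Real.sqrt_pos.2 hR
  have hs2 : s ^ 2 = 1 + (r * δ) ^ 2 := by rw [hs, Real.sq_sqrt hR.le, hRe]
  have hρs : r * δ ≤ s := by
    refine abs_le_of_sq_le_sq' ?_ hs0.le |>.2
    rw [hs2]
    linarith
  have h1 := h.l1
  -- |K - ρ| ≤ κ ρ
  have e1 : kap r δ y - r = ((1 / δ : ℝ) : ℂ) * (sK (r * δ) y - (r * δ : ℝ)) := by
    unfold kap
    have hd : (δ : ℂ) ≠ 0 := by exact_mod_cast hδ.ne'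
    push_cast
    field_simp
  rw [e1, norm_mul, Complex.norm_real, Real.norm_of_nonneg (by positivity)] at h1
  have h2 : ‖sK (r * δ) y - (r * δ : ℝ)‖ ≤ k * (|η| / s) * (r * δ) := by
    have h3 := mul_le_mul_of_nonneg_left h1 hδ.le
    have e2 : δ * (1 / δ * ‖sK (r * δ) y - (r * δ : ℝ)‖) = ‖sK (r * δ) y - (r * δ : ℝ)‖ := by
      field_simp
    rw [e2] at h3
    refine h3.trans (le_of_eq ?_)
    ring
  have hκ : 0 ≤ k * (|η| / s) := by
    have h3 := (norm_nonneg _).trans h2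
    exact nonneg_of_mul_nonneg_left h3 hρ
  have h4 : sD (r * δ) y = ‖1 - I * sK (r * δ) y‖ := by
    unfold sD
    rw [← norm_one_sub, Real.sqrt_sq (norm_nonneg _)]
  have h5 : ‖1 - I * ((r * δ : ℝ) : ℂ)‖ = s := by
    rw [hs, hRe, Complex.norm_def, Complex.normSq_apply]
    congr 1
    simp
    ring
  have e3 : 1 - I * sK (r * δ) y =
      (1 - I * ((r * δ : ℝ) : ℂ)) - I * (sK (r * δ) y - ((r * δ : ℝ) : ℂ)) := by ring
  have h6 : ‖1 - I * sK (r * δ) y‖ ≤ s + k * (|η| / s) * (r * δ) := by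
    rw [e3]
    refine (norm_sub_le _ _).trans ?_
    rw [h5, norm_mul, Complex.norm_I, one_mul]
    linarith
  rw [h4]
  refine h6.trans ?_
  have h7 := mul_le_mul_of_nonneg_left hρs hκ
  linarith

/-- `Lev` with `q` replaced by `1 + κ` -/
theorem Lev.toQ {r δ y η g k q : ℝ} (hr : 0 < r) (hδ : 0 < δ) (h : Lev r δ y η g k q) :
    Lev r δ y η g k (1 + k * (|η| / √(RR r δ))) :=
  ⟨h.l0, h.l1, h.q1 hr hδ⟩

end SokalV3
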