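import Pool.Agent.Lib_MP_af4de1_v3.CelL3

/-!
# Cells, right side: the image (it arrives from the left side), `t' = 2π - t`, `x = t'/h`

Main half: full Gaussian with `A = La c²/ν`, `B = 11/25 e^(-min 1 T')`.  Half behind: no slope.
`RI0`, `RJ0` : level factor times the two integrals; `RI0 RIW`, `RJ0 RJW` : the weighted ones over `(h c)²`.
`xiR` : upper bounds of `RI0 + RJ0` and `RI0 RIW + RJ0 RJW`.
-/

set_option autoImplicit false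

namespace SokalCel

open SokalFN

/-- `B` of the image, `11/25 e^(-min 1 T')` -/
noncomputable def RBi (μ c h τ : ℝ) : ℝ := 11 / 25 * Real.exp (-(min 1 (Ltp h τ * c / μ)))

/-- `Q` of the image -/
noncomputable def RQi (μ c ν h τ : ℝ) : ℝ :=
  La μ ν (Ltp h τ * c / μ) * c ^ 2 + ν * RBi μ c h τ

/-- image, main half -/
noncomputable def RI0 (μ q g c ν h τ Γ : ℝ) : ℝ :=
  √(q * (1 + c ^ 2 / μ ^ 2) / (2 * RQi μ c ν h τ)) *
    Real.exp (-(Γ * (1 / (c ^ 2 / RBi μ c h τ + ν / La μ ν (Ltp h τ * c / μ)) * (Ltp h τ / h) ^ 2 -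
      g / 2 * τ ^ 2)))

/-- image, main half, mean of `W R/h²` -/
noncomputable def RIW (μ c ν h τ Γ : ℝ) : ℝ :=
  (Ltp h τ / h) ^ 2 * ((ν * RBi μ c h τ / RQi μ c ν h τ) ^ 2 / μ ^ 2 +
    (La μ ν (Ltp h τ * c / μ) * c / RQi μ c ν h τ) ^ 2) +
  (1 + c ^ 2 / μ ^ 2) * (ν / (Γ * RQi μ c ν h τ)) / 2

/-- `Q` of the half behind -/
noncomputable def RQj (μ c ν h τ : ℝ) : ℝ :=
  La μ ν (LT3 μ c h τ) * c ^ 2 + ν * (11 / 25 * Real.exp (-(LT3 μ c h τ)))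

/-- image, half behind -/
noncomputable def RJ0 (μ q g c ν h τ Γ : ℝ) : ℝ :=
  √(q * (1 + c ^ 2 / μ ^ 2) / (2 * RQj μ c ν h τ)) / 2 *
    Real.exp (-(Γ * (La μ ν (LT3 μ c h τ) / ν * (Ltp h τ / h) ^ 2 - g / 2 * τ ^ 2)))

/-- image, half behind, mean of `W R/h²` -/
noncomputable def RJW (μ c ν h τ Γ : ℝ) : ℝ :=
  (Ltp h τ / h) ^ 2 / μ ^ 2 + 2 * (Ltp h τ / h) *
    (c / μ ^ 2 * √(ν / (Γ * RQj μ c ν h τ) * (1 / Real.pi))) +
  (1 + c ^ 2 / μ ^ 2) * (ν / (Γ * RQj μ c ν h τ)) / 2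

/-- the image, right: upper bounds of `I0 + J0`, `I0 W + J0 W` -/
def xiR (P : Par) (C : Cl) (G : ℕ) : Option (ℕ × ℕ) :=
  let tp : I := (6908231557316 - C.t.2, 6908451460481 - C.t.1)
  let T := im (im tp C.c) P.N
  let T3 := im (im (ia tp (ic 6 5)) C.c) P.N
  let a := xa P C.n T
  let a3 := xa P C.n T3
  let B := im (ic 11 25) (ien (imn (SC, SC) T))
  let Q := ia (im a C.c2) (im C.n B)
  let Q3 := ia (im a3 C.c2) (im C.n (im (ic 11 25) (ien T3)))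
  let Y := ia (id' C.c2 B) (id' C.n a)
  let Z := dL SC Y.2
  let Z3 := dL a3.1 C.n.2
  let e2 := mU (mU C.u.2 C.u.2) P.g.2
  let x0 := dL tp.1 C.h.2
  let y := mL Z (mL x0 x0)
  let y3 := mL Z3 (mL x0 x0)
  let N2 := mU P.N.2 P.N.2
  let Vn := SC + mU C.c2.2 N2
  let w := dU C.n.2 (mL G Q.1)
  let w3 := dU C.n.2 (mL G Q3.1)
  bif Nat.blt 0 a.1 && Nat.blt 0 B.1 && Nat.blt 0 Q.1 && Nat.blt 0 Q3.1 && Nat.blt 0 (mL G Q.1) &&
      Nat.blt 0 (mL G Q3.1) && Nat.blt 0 Y.1 && Nat.blt 0 C.n.2 && Nat.blt 0 C.h.2 && Nat.blt 0 x0 &&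
      Nat.ble SC (mL G y) && Nat.ble SC (mL G y3) && Nat.ble e2 y && Nat.ble e2 y3 &&
      Nat.ble C.t.2 6908231557316 then
    let I0 := mU (sqU (mU P.q.2 (dU Vn Q.1) / 2 + 1)) (eN (cl (mL G (y - e2))))
    let J0 := mU (sqU (mU P.q.2 (dU Vn Q3.1) / 2 + 1) / 2 + 1) (eN (cl (mL G (y3 - e2))))
    let l := dU (mU C.n.2 B.2) Q.1
    let k := dU (mU a.2 C.c.2) Q.1
    let IW := mU (mU x0 x0) (mU (mU l l) N2 + mU k k) + (mU Vn w / 2 + 1)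
    let JW := mU (mU x0 x0) N2 + mU (2 * x0) (mU (mU C.c.2 N2) (sqU (mU w3 350008700000))) +
      (mU Vn w3 / 2 + 1)
    some (I0 + J0, mU I0 IW + mU J0 JW)
  else none

theorem xiR_sound {P : Par} {μ q g kk c ν h τ Γ : ℝ} (hP : P.Ok μ q g kk) {C : Cl}
    (hC : C.Has μ c ν h τ) {G : ℕ}
    (hG : fx G ≤ Γ) (hc : 0 < c) (hν : 0 < ν) (hh : 0 < h) (hτ : 0 ≤ τ) (hν1 : ν ≤ 1)
    (htp : (1 + τ) * h ≤ Real.pi)
    {a0 a1 : ℕ} (hx : xiR P C G = some (a0, a1)) :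
    RI0 μ q g c ν h τ Γ + RJ0 μ q g c ν h τ Γ ≤ fx a0 ∧
    RI0 μ q g c ν h τ Γ * RIW μ c ν h τ Γ + RJ0 μ q g c ν h τ Γ * RJW μ c ν h τ Γ ≤ fx a1 := by
  have hμ := hP.pos
  have hμ1 := hP.le
  have hpi := Real.pi_pos
  unfold xiR at hx
  simp only at hx
  obtain ⟨tp, htpe⟩ : ∃ tp : I, tp = (6908231557316 - C.t.2, 6908451460481 - C.t.1) := ⟨_, rfl⟩
  rw [show (6908231557316 - C.t.2, 6908451460481 - C.t.1) = tp from htpe.symm] at hx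
  rw [show (6908231557316 - C.t.2 : ℕ) = tp.1 by rw [htpe]] at hx
  obtain ⟨T, hTe⟩ : ∃ T, T = im (im tp C.c) P.N := ⟨_, rfl⟩
  obtain ⟨T3, hT3e⟩ : ∃ T3, T3 = im (im (ia tp (ic 6 5)) C.c) P.N := ⟨_, rfl⟩
  rw [← hTe, ← hT3e] at hx
  obtain ⟨a, hae⟩ : ∃ a, a = xa P C.n T := ⟨_, rfl⟩
  obtain ⟨a3, ha3e⟩ : ∃ a3, a3 = xa P C.n T3 := ⟨_, rfl⟩
  obtain ⟨B, hBe⟩ : ∃ B, B = im (ic 11 25) (ien (imn (SC, SC) T)) := ⟨_, rfl⟩
  rw [← hae, ← ha3e, ← hBe] at hx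
  obtain ⟨Q, hQe⟩ : ∃ Q, Q = ia (im a C.c2) (im C.n B) := ⟨_, rfl⟩
  obtain ⟨Q3, hQ3e⟩ : ∃ Q3, Q3 = ia (im a3 C.c2) (im C.n (im (ic 11 25) (ien T3))) := ⟨_, rfl⟩
  obtain ⟨Y, hYe⟩ : ∃ Y, Y = ia (id' C.c2 B) (id' C.n a) := ⟨_, rfl⟩
  rw [← hQe, ← hQ3e, ← hYe] at hx
  obtain ⟨Z, hZe⟩ : ∃ Z, Z = dL SC Y.2 := ⟨_, rfl⟩
  obtain ⟨Z3, hZ3e⟩ : ∃ Z3, Z3 = dL a3.1 C.n.2 := ⟨_, rfl⟩
  obtain ⟨e2, he2⟩ : ∃ e2, e2 = mU (mU C.u.2 C.u.2) P.g.2 := ⟨_, rfl⟩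
  obtain ⟨x0, hx0e⟩ : ∃ x0, x0 = dL tp.1 C.h.2 := ⟨_, rfl⟩
  rw [← hZe, ← hZ3e, ← he2, ← hx0e] at hx
  obtain ⟨y, hye⟩ : ∃ y, y = mL Z (mL x0 x0) := ⟨_, rfl⟩
  obtain ⟨y3, hy3e⟩ : ∃ y3, y3 = mL Z3 (mL x0 x0) := ⟨_, rfl⟩
  obtain ⟨N2, hN2e⟩ : ∃ N2, N2 = mU P.N.2 P.N.2 := ⟨_, rfl⟩
  rw [← hye, ← hy3e, ← hN2e] at hx
  obtain ⟨Vn, hVn⟩ : ∃ Vn, Vn = SC + mU C.c2.2 N2 := ⟨_, rfl⟩
  obtain ⟨w, hwe⟩ : ∃ w, w = dU C.n.2 (mL G Q.1) := ⟨_, rfl⟩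
  obtain ⟨w3, hw3e⟩ : ∃ w3, w3 = dU C.n.2 (mL G Q3.1) := ⟨_, rfl⟩
  rw [← hVn, ← hwe, ← hw3e] at hx
  cases hbb : (Nat.blt 0 a.1 && Nat.blt 0 B.1 && Nat.blt 0 Q.1 && Nat.blt 0 Q3.1 &&
      Nat.blt 0 (mL G Q.1) && Nat.blt 0 (mL G Q3.1) && Nat.blt 0 Y.1 && Nat.blt 0 C.n.2 &&
      Nat.blt 0 C.h.2 && Nat.blt 0 x0 && Nat.ble SC (mL G y) && Nat.ble SC (mL G y3) &&
      Nat.ble e2 y && Nat.ble e2 y3 && Nat.ble C.t.2 6908231557316) with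
  | false => rw [hbb] at hx; simp at hx
  | true =>
    rw [hbb] at hx
    simp only [cond_true, Option.some.injEq, Prod.mk.injEq] at hx
    obtain ⟨ha0, ha1⟩ := hx
    simp only [Bool.and_eq_true, blt_iff, Nat.ble_eq] at hbb
    obtain ⟨⟨⟨⟨⟨⟨⟨⟨⟨⟨⟨⟨⟨⟨haa, hB0⟩, hQ0⟩, hQ30⟩, hGQ⟩, hGQ3⟩, hY0⟩, hn0⟩, hh0⟩, hx00⟩, hGy⟩, hGy3⟩, hey⟩, hey3⟩,
      htle⟩ := hbb
    -- t'
    have hmtp : Mem (Ltp h τ) tp := by
      rw [htpe]
      unfold Ltp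
      exact ⟨subL two_pi_lo hC.ht.2 htle, subU two_pi_hi hC.ht.1⟩
    have htp0 : 0 < Ltp h τ := by unfold Ltp; linarith
    have hmT : Mem (Ltp h τ * c / μ) T := by
      have k := (hmtp.mul hC.hc).mul hP.hN
      rw [mul_one_div] at k
      rw [hTe]; exact k
    have hmT3 : Mem (LT3 μ c h τ) T3 := by
      have k := ((hmtp.add (Mem.const 6 5 (by norm_num))).mul hC.hc).mul hP.hN
      rw [mul_one_div] at k
      rw [hT3e]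
      unfold LT3
      exact_mod_cast k
    have hT30 : 0 ≤ LT3 μ c h τ := by unfold LT3; positivity
    obtain ⟨b, hb⟩ : ∃ b, b = RBi μ c h τ := ⟨_, rfl⟩
    have hmB : Mem b B := by
      rw [hb, hBe]
      unfold RBi
      have k := (Mem.const 11 25 (by norm_num)).mul (Mem.one.min hmT).expn
      exact_mod_cast k
    have hb0 : 0 < b := (fx_pos hB0).trans_le hmB.1
    obtain ⟨t1, ht1⟩ : ∃ t1, t1 = Ltp h τ * c / μ := ⟨_, rfl⟩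
    obtain ⟨t3, ht3⟩ : ∃ t3, t3 = LT3 μ c h τ := ⟨_, rfl⟩
    rw [← ht1] at hmT
    rw [← ht3] at hmT3 hT30
    obtain ⟨A, hA⟩ : ∃ A, A = La μ ν t1 := ⟨_, rfl⟩
    obtain ⟨A3, hA3⟩ : ∃ A3, A3 = La μ ν t3 := ⟨_, rfl⟩
    have hmA : Mem A a := by rw [hA, hae]; exact mem_xa hP hC.hn hmT hν1
    have hmA3 : Mem A3 a3 := by rw [hA3, ha3e]; exact mem_xa hP hC.hn hmT3 hν1
    have hmQ : Mem (A * c ^ 2 + ν * b) Q := by
      rw [hQe]; exact (hmA.mul hC.hc2).add (hC.hn.mul hmB)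
    have hmQ3 : Mem (A3 * c ^ 2 + ν * (11 / 25 * Real.exp (-t3))) Q3 := by
      rw [hQ3e]
      have k := (hmA3.mul hC.hc2).add (hC.hn.mul ((Mem.const 11 25 (by norm_num)).mul hmT3.expn))
      exact_mod_cast k
    have hA0 : 0 < A := (fx_pos haa).trans_le hmA.1
    have hA30 : 0 ≤ A3 := hmA3.nonneg
    obtain ⟨R, hR⟩ : ∃ R, R = A * c ^ 2 + ν * b := ⟨_, rfl⟩
    obtain ⟨R3, hR3⟩ : ∃ R3, R3 = A3 * c ^ 2 + ν * (11 / 25 * Real.exp (-t3)) := ⟨_, rfl⟩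
    rw [← hR] at hmQ
    rw [← hR3] at hmQ3
    have hR0 : 0 < R := by rw [hR]; positivity
    have hR30 : 0 < R3 := by rw [hR3]; positivity
    have hmY : Mem (c ^ 2 / b + ν / A) Y := by
      rw [hYe]; exact (hC.hc2.div hmB hB0).add (hC.hn.div hmA haa)
    obtain ⟨Zr, hZr⟩ : ∃ Zr, Zr = 1 / (c ^ 2 / b + ν / A) := ⟨_, rfl⟩
    have hZ1 : fx Z ≤ Zr := by
      rw [hZe, hZr]
      exact divL (le_of_eq fx_one) hmY.2 (by positivity)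
    obtain ⟨Zr3, hZr3⟩ : ∃ Zr3, Zr3 = A3 / ν := ⟨_, rfl⟩
    have hZ31 : fx Z3 ≤ Zr3 := by
      rw [hZ3e, hZr3]
      exact divL hmA3.1 hC.hn.2 hν
    have hZr0 : 0 ≤ Zr := (fx_nonneg _).trans hZ1
    have hZr30 : 0 ≤ Zr3 := (fx_nonneg _).trans hZ31
    have hGpos : 0 < G := by
      rcases Nat.eq_zero_or_pos G with h0 | h0
      · rw [h0] at hGQ; simp [mL] at hGQ
      · exact h0
    have hΓ0 : 0 < Γ := (fx_pos hGpos).trans_le hG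
    have hE2 : g / 2 * τ ^ 2 ≤ fx e2 := by
      rw [he2, mul_comm]
      have h1 := mulU hC.hu.2 hC.hu.2 hτ
      have hg0 : 0 ≤ g / 2 := (fx_nonneg _).trans hP.hg.1
      have h2 := mulU h1 hP.hg.2 hg0
      rwa [pow_two]
    -- x
    obtain ⟨x, hxr⟩ : ∃ x, x = Ltp h τ / h := ⟨_, rfl⟩
    obtain ⟨X, hXr⟩ : ∃ X, X = fx x0 := ⟨_, rfl⟩
    have hX0 : 0 < X := by rw [hXr]; exact fx_pos hx00
    have hXx : X ≤ x := by
      rw [hXr, hxr, hx0e]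
      exact divL hmtp.1 hC.hh.2 hh
    have hXX : fx (mL x0 x0) ≤ X ^ 2 := by
      rw [hXr, pow_two]; exact mL_le _ _
    have hXXu : X ^ 2 ≤ fx (mU x0 x0) := by
      rw [hXr, pow_two]; exact le_mU _ _
    have hy1 : fx y ≤ Zr * X ^ 2 := by rw [hye]; exact mulL hZ1 hXX
    have hy31 : fx y3 ≤ Zr3 * X ^ 2 := by rw [hy3e]; exact mulL hZ31 hXX
    have hΓy : 1 ≤ Γ * (Zr * X ^ 2) := by
      rw [← fx_one]
      exact (fx_mono hGy).trans (mulL hG hy1)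
    have hΓy3 : 1 ≤ Γ * (Zr3 * X ^ 2) := by
      rw [← fx_one]
      exact (fx_mono hGy3).trans (mulL hG hy31)
    have hE := expCl (mulL hG (subL hy1 hE2 hey))
    have hE3 := expCl (mulL hG (subL hy31 hE2 hey3))
    -- prefactors
    have hN2 : 1 / μ ^ 2 ≤ fx N2 := by
      have k1 := mulU hP.hN.2 hP.hN.2 (by positivity)
      rw [hN2e]
      refine le_trans (le_of_eq ?_) k1
      field_simp
    have hVn1 : 1 + c ^ 2 / μ ^ 2 ≤ fx Vn := by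
      rw [hVn]
      refine addU (le_of_eq fx_one.symm) ?_
      have h2 := mulU hC.hc2.2 hN2 (by positivity)
      refine le_trans (le_of_eq ?_) h2
      field_simp
    have hq0 : 0 ≤ q := hP.hq.nonneg
    have hS : √(q * (1 + c ^ 2 / μ ^ 2) / (2 * R)) ≤ fx (sqU (mU P.q.2 (dU Vn Q.1) / 2 + 1)) := by
      apply sqrtU
      have k1 := half_up (mulU hP.hq.2 (divU hVn1 hmQ.1 hQ0) (by positivity))
      refine le_trans (le_of_eq ?_) k1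
      field_simp
    have hS3 : √(q * (1 + c ^ 2 / μ ^ 2) / (2 * R3)) / 2 ≤
        fx (sqU (mU P.q.2 (dU Vn Q3.1) / 2 + 1) / 2 + 1) := by
      apply half_up
      apply sqrtU
      have k1 := half_up (mulU hP.hq.2 (divU hVn1 hmQ3.1 hQ30) (by positivity))
      refine le_trans (le_of_eq ?_) k1
      field_simp
    have hw1 : ν / (Γ * R) ≤ fx w := by
      rw [hwe]
      exact divU hC.hn.2 (mulL hG hmQ.1) hGQ
    have hw31 : ν / (Γ * R3) ≤ fx w3 := by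
      rw [hw3e]
      exact divU hC.hn.2 (mulL hG hmQ3.1) hGQ3
    have hl : ν * b / R ≤ fx (dU (mU C.n.2 B.2) Q.1) :=
      divU (mulU hC.hn.2 hmB.2 hb0.le) hmQ.1 hQ0
    have hk : A * c / R ≤ fx (dU (mU a.2 C.c.2) Q.1) := divU (mulU hmA.2 hC.hc.2 hc.le) hmQ.1 hQ0
    have hl0 : 0 ≤ ν * b / R := by positivity
    have hk0 : 0 ≤ A * c / R := by positivity
    have hw0 : 0 ≤ ν / (Γ * R) := by positivity
    have hw30 : 0 ≤ ν / (Γ * R3) := by positivity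
    -- weights at `X`
    have hW : (ν * b / R) ^ 2 / μ ^ 2 + (A * c / R) ^ 2 ≤
        fx (mU (mU (dU (mU C.n.2 B.2) Q.1) (dU (mU C.n.2 B.2) Q.1)) N2 +
          mU (dU (mU a.2 C.c.2) Q.1) (dU (mU a.2 C.c.2) Q.1)) := by
      refine addU ?_ ?_
      · have k1 := mulU (mulU hl hl hl0) hN2 (by positivity)
        refine le_trans (le_of_eq ?_) k1
        ring
      · rw [pow_two]
        exact mulU hk hk hk0
    have hc0' : (1 + c ^ 2 / μ ^ 2) * (ν / (Γ * R)) / 2 ≤ fx (mU Vn w / 2 + 1) :=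
      half_up (mulU hVn1 hw1 hw0)
    have hc3' : (1 + c ^ 2 / μ ^ 2) * (ν / (Γ * R3)) / 2 ≤ fx (mU Vn w3 / 2 + 1) :=
      half_up (mulU hVn1 hw31 hw30)
    have hIW := addU (mulU hXXu hW (by positivity)) hc0'
    have hs3 : √(ν / (Γ * R3) * (1 / Real.pi)) ≤ fx (sqU (mU w3 350008700000)) :=
      sqrtU (mulU hw31 inv_pi_le (by positivity))
    have hX2 : 2 * X ≤ fx (2 * x0) := two_up (le_of_eq hXr)
    have hJW := addU (addU (mulU hXXu hN2 (by positivity)) (mulU hX2 (mulU (mulU hC.hc.2 hN2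
      (by positivity)) hs3 (Real.sqrt_nonneg _)) (by positivity))) hc3'
    -- the two parts
    have e0 : RI0 μ q g c ν h τ Γ = √(q * (1 + c ^ 2 / μ ^ 2) / (2 * R)) *
        Real.exp (-(Γ * (Zr * x ^ 2 - g / 2 * τ ^ 2))) := by
      unfold RI0 RQi
      rw [← ht1, ← hb, ← hA, ← hR, ← hZr, ← hxr]
    have e3 : RJ0 μ q g c ν h τ Γ = √(q * (1 + c ^ 2 / μ ^ 2) / (2 * R3)) / 2 *
        Real.exp (-(Γ * (Zr3 * x ^ 2 - g / 2 * τ ^ 2))) := by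
      unfold RJ0 RQj
      rw [← ht3, ← hA3, ← hR3, ← hZr3, ← hxr]
    have eW : RIW μ c ν h τ Γ = ((ν * b / R) ^ 2 / μ ^ 2 + (A * c / R) ^ 2) * x ^ 2 + 0 * x +
        (1 + c ^ 2 / μ ^ 2) * (ν / (Γ * R)) / 2 := by
      unfold RIW RQi
      rw [← ht1, ← hb, ← hA, ← hR, ← hxr]
      ring
    have eJ : RJW μ c ν h τ Γ = 1 / μ ^ 2 * x ^ 2 +
        (2 * (c * (1 / μ ^ 2) * √(ν / (Γ * R3) * (1 / Real.pi)))) * x +
        (1 + c ^ 2 / μ ^ 2) * (ν / (Γ * R3)) / 2 := by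
      unfold RJW RQj
      rw [← ht3, ← hA3, ← hR3, ← hxr]
      ring
    have b0 := img_bound (E := g / 2 * τ ^ 2) (w2 := 0) (w1 := 0) (w0 := 1) hX0 hXx hΓy le_rfl le_rfl
      zero_le_one
    have b3 := img_bound (E := g / 2 * τ ^ 2) (w2 := 0) (w1 := 0) (w0 := 1) hX0 hXx hΓy3 le_rfl le_rfl
      zero_le_one
    have bW := img_bound (E := g / 2 * τ ^ 2) (w2 := (ν * b / R) ^ 2 / μ ^ 2 + (A * c / R) ^ 2)
      (w1 := 0) (w0 := (1 + c ^ 2 / μ ^ 2) * (ν / (Γ * R)) / 2) hX0 hXx hΓy (by positivity) le_rfl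
      (by positivity)
    have bJ := img_bound (E := g / 2 * τ ^ 2) (w2 := 1 / μ ^ 2)
      (w1 := 2 * (c * (1 / μ ^ 2) * √(ν / (Γ * R3) * (1 / Real.pi))))
      (w0 := (1 + c ^ 2 / μ ^ 2) * (ν / (Γ * R3)) / 2) hX0 hXx hΓy3 (by positivity) (by positivity)
      (by positivity)
    simp only [zero_mul, zero_add, one_mul] at b0 b3
    have s0 : 0 ≤ √(q * (1 + c ^ 2 / μ ^ 2) / (2 * R)) := Real.sqrt_nonneg _
    have s3 : 0 ≤ √(q * (1 + c ^ 2 / μ ^ 2) / (2 * R3)) / 2 := by positivity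
    have c0 := mulU hS hE (Real.exp_pos _).le
    have c3 := mulU hS3 hE3 (Real.exp_pos _).le
    refine ⟨?_, ?_⟩
    · rw [← ha0, e0, e3]
      exact addU ((mul_le_mul_of_nonneg_left b0 s0).trans c0) ((mul_le_mul_of_nonneg_left b3 s3).trans c3)
    · rw [← ha1, e0, e3]
      refine addU ?_ ?_
      · rw [eW]
        have k1 := mulU c0 hIW (by positivity)
        refine le_trans ?_ k1
        have k2 := mul_le_mul_of_nonneg_left bW s0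
        refine le_trans (le_of_eq ?_) (k2.trans (le_of_eq ?_)) <;> ring
      · rw [eJ]
        have k1 := mulU c3 hJW (by positivity)
        refine le_trans ?_ k1
        have k2 := mul_le_mul_of_nonneg_left bJ s3
        refine le_trans (le_of_eq ?_) (k2.trans (le_of_eq ?_)) <;> ring

end SokalCel
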