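import Pool.Agent.Lib_MP_af4de1_v3.BrR1
import Pool.Agent.Lib_MP_af4de1_v3.CelRI

/-!
# BRIDGE, right side, image: `iL0 iLW jL0 jLW` of `CenTR` at `t' = 2π - t` against `CelRI`

`PS iL0 ≤ RI0`, `PS iLW ≤ (h c)² RI0 RIW`, `PS jL0 = RJ0`, `PS jLW = (h c)² RJ0 RJW`.
`Dat.imI0 imIW` : the sums, in the form of the evaluator `xiR`.
-/

set_option autoImplicit false

namespace SokalCel

open Real SokalCen

theorem AL_eqL {ρ s μ t : ℝ} (hρ : 0 < ρ) (hs : 0 < s) (hμ : 0 < μ) (ht : 0 < t) :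
    AL (μ * s) ρ t = La μ (ρ / s) (t / (μ * s)) * (1 / s) ^ 2 / (ρ / s) := by
  have hm : 0 < μ * s := mul_pos hμ hs
  have hM : 0 < max 1 (t / (μ * s)) := lt_max_of_lt_left one_pos
  unfold AL
  rw [min_inv_max hm ht]
  unfold aL La
  field_simp

theorem La_posL {μ ν T : ℝ} (hμ : 1 ≤ μ) (hν : ν ≤ 1) : 0 < La μ ν T := by
  unfold La
  have hM : 0 < max 1 T := lt_max_of_lt_left one_pos
  have h5 : 0 < μ - ν / 2 := by linarith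
  positivity

theorem RBi_pos (μ c h τ : ℝ) : 0 < RBi μ c h τ := by
  unfold RBi
  positivity

theorem PS_nonneg (r ρ s g q τ Γ μ : ℝ) : 0 ≤ PS r ρ s g q τ Γ μ := by
  unfold PS
  positivity

section

variable {r ρ s h τ Γ : ℝ} (D : Dat r ρ s h τ Γ)

include D

/-- prefactor times a Gaussian -/
theorem Dat.PQ {μ Q g q : ℝ} (hμ : 1 ≤ μ) (hQ : 0 < Q) (hq : 0 ≤ q) :
    PS r ρ s g q τ Γ μ * √(π / (r * (Q / (ρ / s)))) =
      √(q * (1 + (1 / s) ^ 2 / μ ^ 2) / (2 * Q)) * exp (g / 2 * (Γ * τ ^ 2)) := by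
  have hμ0 : 0 < μ := by linarith
  have h1 := D.ρ0
  have h2 := D.s0
  have h3 := D.r0
  have hpi := Real.pi_pos
  unfold PS
  have e1 : √(r / (2 * π * ρ)) * √(q * s) * √(1 + 1 / (μ * s) ^ 2) *
      √(π / (r * (Q / (ρ / s)))) = √(q * (1 + (1 / s) ^ 2 / μ ^ 2) / (2 * Q)) := by
    rw [← Real.sqrt_mul (by positivity), ← Real.sqrt_mul (by positivity),
      ← Real.sqrt_mul (by positivity)]
    congr 1
    field_simp
  rw [← e1]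
  ring

theorem Dat.tpe {μ : ℝ} (hμ : 0 < μ) : Ltp h τ / (μ * s) = Ltp h τ * (1 / s) / μ := by
  have := D.s0
  field_simp

/-- `A + B` of the image -/
theorem Dat.ABi {μ : ℝ} (hμ : 0 < μ) (ht : 0 < Ltp h τ) :
    AL (μ * s) ρ (Ltp h τ) + RBi μ (1 / s) h τ = RQi μ (1 / s) (ρ / s) h τ / (ρ / s) := by
  have h1 := D.ρ0
  have h2 := D.s0
  rw [AL_eqL D.ρ0 D.s0 hμ ht, D.tpe hμ]
  unfold RQi
  field_simp

theorem Dat.iBe {μ : ℝ} (hμ : 0 < μ) : iB (μ * s) (Ltp h τ) = RBi μ (1 / s) h τ := by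
  unfold iB RBi cT
  rw [D.tpe hμ]

theorem Dat.RQi_pos {μ : ℝ} (hμ : 1 ≤ μ) : 0 < RQi μ (1 / s) (ρ / s) h τ := by
  have h1 := La_posL (T := Ltp h τ * (1 / s) / μ) hμ D.ν1
  have h2 := D.ν0
  have h3 := D.s0
  have h4 := RBi_pos μ (1 / s) h τ
  unfold RQi
  positivity

/-- exponent of the main half -/
theorem Dat.exi {μ g : ℝ} (hμ : 1 ≤ μ) (ht : 0 < Ltp h τ) :
    exp (g / 2 * (Γ * τ ^ 2)) * exp (-(r * (AL (μ * s) ρ (Ltp h τ) * RBi μ (1 / s) h τ *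
      Ltp h τ ^ 2 / (AL (μ * s) ρ (Ltp h τ) + RBi μ (1 / s) h τ) - 0))) =
      exp (-(Γ * (1 / ((1 / s) ^ 2 / RBi μ (1 / s) h τ + ρ / s / La μ (ρ / s)
        (Ltp h τ * (1 / s) / μ)) * (Ltp h τ / h) ^ 2 - g / 2 * τ ^ 2))) := by
  have hμ0 : 0 < μ := by linarith
  have hA := La_posL (T := Ltp h τ * (1 / s) / μ) hμ D.ν1
  have hQ := D.RQi_pos hμ
  have hB := RBi_pos μ (1 / s) h τ
  have h1 := D.ρ0
  have h2 := D.s0
  have h3 := D.h0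
  rw [← Real.exp_add, D.ABi hμ0 ht, AL_eqL D.ρ0 D.s0 hμ0 ht, D.tpe hμ0, D.G]
  congr 1
  unfold RQi at hQ ⊢
  set B := RBi μ (1 / s) h τ with hBd
  set A := La μ (ρ / s) (Ltp h τ * (1 / s) / μ) with hAd
  have hQ' : A * (1 / s) ^ 2 + ρ / s * B ≠ 0 := hQ.ne'
  have e2 : (1 / s) ^ 2 / B + ρ / s / A = (A * (1 / s) ^ 2 + ρ / s * B) / (A * B) := by
    field_simp
  rw [e2]
  set QQ := A * (1 / s) ^ 2 + ρ / s * B with hQQ
  field_simp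
  ring

/-- full Gaussian, main half -/
theorem Dat.PGi {μ g q : ℝ} (hμ : 1 ≤ μ) (hq : 0 ≤ q) (ht : 0 < Ltp h τ) :
    PS r ρ s g q τ Γ μ * (gG r (AL (μ * s) ρ (Ltp h τ)) (RBi μ (1 / s) h τ) *
      exp (-(r * (AL (μ * s) ρ (Ltp h τ) * RBi μ (1 / s) h τ * Ltp h τ ^ 2 /
        (AL (μ * s) ρ (Ltp h τ) + RBi μ (1 / s) h τ) - 0)))) =
      RI0 μ q g (1 / s) (ρ / s) h τ Γ := by
  have hμ0 : 0 < μ := by linarith
  have hQ := D.RQi_pos hμ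
  have e := D.exi (g := g) hμ ht
  have e1 := D.PQ (g := g) (q := q) hμ hQ hq
  unfold RI0
  rw [← e, ← mul_assoc]
  unfold gG
  have e2 : π / (r * (AL (μ * s) ρ (Ltp h τ) + RBi μ (1 / s) h τ)) =
      π / (r * (RQi μ (1 / s) (ρ / s) h τ / (ρ / s))) := by rw [D.ABi hμ0 ht]
  rw [e2, e1]
  ring

/-- image, main half, `I0` -/
theorem Dat.iI0 {μ g q : ℝ} (hμ : 1 ≤ μ) (hq : 0 ≤ q) (ht : 0 < Ltp h τ) :
    PS r ρ s g q τ Γ μ * iL0 r (μ * s) ρ (Ltp h τ) ≤ RI0 μ q g (1 / s) (ρ / s) h τ Γ := by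
  have hμ0 : 0 < μ := by linarith
  rw [← D.PGi hμ hq ht]
  refine mul_le_mul_of_nonneg_left ?_ (PS_nonneg _ _ _ _ _ _ _ _)
  unfold iL0 g0
  rw [D.iBe hμ0]
  refine mul_le_mul_of_nonneg_right ?_ (exp_pos _).le
  have h1 : gr r (AL (μ * s) ρ (Ltp h τ)) (RBi μ (1 / s) h τ) (Ltp h τ) ≤
      gG r (AL (μ * s) ρ (Ltp h τ)) (RBi μ (1 / s) h τ) / 2 := min_le_left _ _
  linarith

/-- image, main half, weight -/
theorem Dat.iIW {μ g q : ℝ} (hμ : 1 ≤ μ) (hq : 0 ≤ q) (ht : 0 < Ltp h τ) :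
    PS r ρ s g q τ Γ μ * iLW r (μ * s) ρ (Ltp h τ) ≤
      (h * (1 / s)) ^ 2 * (RI0 μ q g (1 / s) (ρ / s) h τ Γ * RIW μ (1 / s) (ρ / s) h τ Γ) := by
  have hμ0 : 0 < μ := by linarith
  have hQ := D.RQi_pos hμ
  have hB := RBi_pos μ (1 / s) h τ
  have hA := La_posL (T := Ltp h τ * (1 / s) / μ) hμ D.ν1
  have h1 := D.ρ0
  have h2 := D.s0
  have h3 := D.h0
  have h4 := D.r0
  have h5 := D.Γ0
  have hAB := D.ABi hμ0 ht
  have e1 : SokalCen.gv (AL (μ * s) ρ (Ltp h τ)) (RBi μ (1 / s) h τ) (Ltp h τ) =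
      Ltp h τ * (ρ / s * RBi μ (1 / s) h τ / RQi μ (1 / s) (ρ / s) h τ) := by
    unfold SokalCen.gv
    rw [hAB]
    field_simp
  have e2 : Ltp h τ - Ltp h τ * (ρ / s * RBi μ (1 / s) h τ / RQi μ (1 / s) (ρ / s) h τ) =
      h * (1 / s) * (Ltp h τ / h * (La μ (ρ / s) (Ltp h τ * (1 / s) / μ) * (1 / s) /
        RQi μ (1 / s) (ρ / s) h τ)) := by
    have e3 : La μ (ρ / s) (Ltp h τ * (1 / s) / μ) =
        (RQi μ (1 / s) (ρ / s) h τ - ρ / s * RBi μ (1 / s) h τ) * s ^ 2 := by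
      unfold RQi
      field_simp
      ring
    rw [e3]
    field_simp
  have e4 : SokalCen.gs r (AL (μ * s) ρ (Ltp h τ)) (RBi μ (1 / s) h τ) =
      (h * (1 / s)) ^ 2 * (ρ / s / (Γ * RQi μ (1 / s) (ρ / s) h τ) / 2) := by
    unfold SokalCen.gs
    have e : (2 : ℝ) * r * (AL (μ * s) ρ (Ltp h τ) + RBi μ (1 / s) h τ) = 2 * r *
      (RQi μ (1 / s) (ρ / s) h τ / (ρ / s)) := by rw [hAB]
    rw [e, D.G]
    field_simp
  rw [← D.PGi hμ hq ht]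
  have hP := PS_nonneg r ρ s g q τ Γ μ
  unfold iLW gW
  rw [D.iBe hμ0, e1, e2, e4]
  set X := exp (-(r * (AL (μ * s) ρ (Ltp h τ) * RBi μ (1 / s) h τ * Ltp h τ ^ 2 /
        (AL (μ * s) ρ (Ltp h τ) + RBi μ (1 / s) h τ) - 0))) with hX
  have hX0 : 0 ≤ X := (exp_pos _).le
  set G := gG r (AL (μ * s) ρ (Ltp h τ)) (RBi μ (1 / s) h τ) with hG
  refine (mul_le_mul_of_nonneg_left (mul_le_mul_of_nonneg_right (min_le_left _ _) hX0) hP).trans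
    (le_of_eq ?_)
  unfold RIW
  field_simp
  ring

/-- `bB` -/
theorem Dat.bBe {μ : ℝ} (hμ : 0 < μ) (ht : 0 < Ltp h τ) :
    bA (μ * s) ρ (Ltp h τ) = La μ (ρ / s) (LT3 μ (1 / s) h τ) * (1 / s) ^ 2 / (ρ / s) ∧
    bB (μ * s) ρ (Ltp h τ) = RQj μ (1 / s) (ρ / s) h τ / (ρ / s) := by
  have h1 := D.ρ0
  have h2 := D.s0
  have e0 : (Ltp h τ + 6 / 5) / (μ * s) = LT3 μ (1 / s) h τ := by
    unfold LT3
    field_simp
  have e1 : bA (μ * s) ρ (Ltp h τ) = La μ (ρ / s) (LT3 μ (1 / s) h τ) * (1 / s) ^ 2 / (ρ / s) := by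
    unfold bA
    rw [AL_eqL D.ρ0 D.s0 hμ (by linarith), e0]
  refine ⟨e1, ?_⟩
  unfold bB
  rw [e1, e0]
  unfold RQj
  field_simp

theorem Dat.RQj_pos {μ : ℝ} (hμ : 1 ≤ μ) : 0 < RQj μ (1 / s) (ρ / s) h τ := by
  have h1 := La_posL (T := LT3 μ (1 / s) h τ) hμ D.ν1
  have h2 := D.ν0
  have h3 := D.s0
  unfold RQj
  positivity

/-- image, half behind, `I0` -/
theorem Dat.jI0 {μ g q : ℝ} (hμ : 1 ≤ μ) (hq : 0 ≤ q) (ht : 0 < Ltp h τ) :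
    PS r ρ s g q τ Γ μ * jL0 r (μ * s) ρ (Ltp h τ) = RJ0 μ q g (1 / s) (ρ / s) h τ Γ := by
  have hμ0 : 0 < μ := by linarith
  have hQ := D.RQj_pos hμ
  obtain ⟨e1, e2⟩ := D.bBe hμ0 ht
  have e3 := D.PQ (g := g) (q := q) hμ hQ hq
  have h1 := D.ρ0
  have h2 := D.s0
  have h3 := D.h0
  have e4 : exp (g / 2 * (Γ * τ ^ 2)) * exp (-(r * bA (μ * s) ρ (Ltp h τ) * Ltp h τ ^ 2)) =
      exp (-(Γ * (La μ (ρ / s) (LT3 μ (1 / s) h τ) / (ρ / s) * (Ltp h τ / h) ^ 2 -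
        g / 2 * τ ^ 2))) := by
    rw [← Real.exp_add, e1, D.G]
    congr 1
    field_simp
    ring
  unfold jL0 bH0 RJ0
  rw [← e4, e2]
  calc _ = (PS r ρ s g q τ Γ μ * √(π / (r * (RQj μ (1 / s) (ρ / s) h τ / (ρ / s))))) *
        (exp (-(r * bA (μ * s) ρ (Ltp h τ) * Ltp h τ ^ 2)) / 2) := by ring
    _ = _ := by
        rw [e3]
        ring

/-- image, half behind, weight -/
theorem Dat.jIW {μ g q : ℝ} (hμ : 1 ≤ μ) (hq : 0 ≤ q) (ht : 0 < Ltp h τ) :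
    PS r ρ s g q τ Γ μ * jLW r (μ * s) ρ (Ltp h τ) =
      (h * (1 / s)) ^ 2 * (RJ0 μ q g (1 / s) (ρ / s) h τ Γ * RJW μ (1 / s) (ρ / s) h τ Γ) := by
  have hμ0 : 0 < μ := by linarith
  have hQ := D.RQj_pos hμ
  obtain ⟨e1, e2⟩ := D.bBe hμ0 ht
  have e3 := D.jI0 (g := g) (q := q) hμ hq ht
  have h1 := D.ρ0
  have h2 := D.s0
  have h3 := D.h0
  have h4 := D.r0
  have h5 := D.Γ0
  have hpi := Real.pi_pos
  rw [← e3]
  unfold jLW jL0 bH2 bH1 bH0 RJW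
  rw [e2]
  set Q := RQj μ (1 / s) (ρ / s) h τ with hQd
  set X := exp (-(r * bA (μ * s) ρ (Ltp h τ) * Ltp h τ ^ 2)) with hX
  set P := PS r ρ s g q τ Γ μ with hP
  set W := √(π / (r * (Q / (ρ / s)))) with hW
  have hW2 : W ^ 2 = π / (r * (Q / (ρ / s))) := Real.sq_sqrt (by positivity)
  -- the square root of `RJW`
  have e4 : √(ρ / s / (Γ * Q) * (1 / π)) = W * (s / (π * h)) := by
    rw [hW, D.G]
    have e5 : ρ / s / (r * h ^ 2 / s ^ 2 * Q) * (1 / π) =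
        (π / (r * (Q / (ρ / s)))) * (s / (π * h)) ^ 2 := by
      field_simp
    rw [e5, Real.sqrt_mul (by positivity), Real.sqrt_sq (by positivity)]
  rw [e4]
  have e6 : r = π / (W ^ 2 * (Q / (ρ / s))) := by
    rw [hW2]
    field_simp
  have hWpos : 0 < W := Real.sqrt_pos.2 (by positivity)
  have e7 : Γ = π / (W ^ 2 * (Q / (ρ / s))) * h ^ 2 / s ^ 2 := by
    rw [← e6]
    exact D.G
  have e8 : (1 : ℝ) / (r * (Q / (ρ / s))) = W ^ 2 / π := by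
    rw [hW2]
    field_simp
  have e9 : ρ / s / (Γ * Q) = W ^ 2 * s ^ 2 / (π * h ^ 2) := by
    rw [e7]
    field_simp
  have e10 : X / (2 * (r * (Q / (ρ / s)))) = X / 2 * (W ^ 2 / π) := by
    rw [← e8]
    field_simp
  have e11 : X * W / (4 * (r * (Q / (ρ / s)))) = X * W / 4 * (W ^ 2 / π) := by
    rw [← e8]
    field_simp
  rw [e9, e10, e11]
  field_simp
  ring

/-- THE IMAGE, in the form of `xiR` -/
theorem Dat.imI0 {μ g q : ℝ} (hμ : 1 ≤ μ) (hq : 0 ≤ q) (ht : 0 < Ltp h τ) :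
    PS r ρ s g q τ Γ μ * (iL0 r (μ * s) ρ (Ltp h τ) + jL0 r (μ * s) ρ (Ltp h τ)) ≤
      RI0 μ q g (1 / s) (ρ / s) h τ Γ + RJ0 μ q g (1 / s) (ρ / s) h τ Γ := by
  have h1 := D.iI0 (g := g) (q := q) hμ hq ht
  have h2 := D.jI0 (g := g) (q := q) hμ hq ht
  rw [mul_add]
  linarith

theorem Dat.imIW {μ g q : ℝ} (hμ : 1 ≤ μ) (hq : 0 ≤ q) (ht : 0 < Ltp h τ) :
    PS r ρ s g q τ Γ μ * (iLW r (μ * s) ρ (Ltp h τ) + jLW r (μ * s) ρ (Ltp h τ)) ≤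
      (h * (1 / s)) ^ 2 * (RI0 μ q g (1 / s) (ρ / s) h τ Γ * RIW μ (1 / s) (ρ / s) h τ Γ +
        RJ0 μ q g (1 / s) (ρ / s) h τ Γ * RJW μ (1 / s) (ρ / s) h τ Γ) := by
  have h1 := D.iIW (g := g) (q := q) hμ hq ht
  have h2 := D.jIW (g := g) (q := q) hμ hq ht
  rw [mul_add, mul_add]
  linarith

end

end SokalCel
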