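import Pool.Agent.Lib_MP_af4de1_v3.CelL2
import Pool.Agent.Lib_MP_af4de1_v3.CelRM

/-!
# Cells, right side: behind in scaled variables

`s = t + z`, `0 ≤ z ≤ 6/5`: `x = t/m`, `T = min 1 x`, `T' = min 1 ((t + 6/5)/m)`, `AR m ρ t = Ra c²/ν`,
slope `b = r AR t`, curvature `B = r (11/25) e^T`, `h0 b B = √(π/B)/2 min 1 (1 - X/√π + X²/4)`, `X = b/√B`.
`P I0 = RBK φ`, `P IW R/h² = RBK W`, `P Ie/Γ = e^(T') RBK φ/Γ`, `P` the level factor.
-/

set_option autoImplicit false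

namespace SokalCel

open SokalFN

/-- `t/m` -/
noncomputable def Rx (μ c h τ : ℝ) : ℝ := (1 + τ) * h * c / μ

/-- curvature `(11/25) e^T` -/
noncomputable def Rβ (μ c h τ : ℝ) : ℝ := 11 / 25 * Real.exp (min 1 (Rx μ c h τ))

/-- base of the half Gaussian behind -/
noncomputable def RBK (μ q g c ν h τ Γ : ℝ) : ℝ :=
  √(q * (1 + c ^ 2 / μ ^ 2) / (2 * (ν * Rβ μ c h τ))) / 2 *
    Real.exp (-(Γ * ((1 + τ) ^ 2 * (Ra μ ν (Rx μ c h τ) / ν) - g / 2 * τ ^ 2)))

/-- slope over the square root of the curvature -/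
noncomputable def RbX (μ c ν h τ Γ : ℝ) : ℝ :=
  √Γ * ((1 + τ) * (Ra μ ν (Rx μ c h τ) * c)) / (ν * √(Rβ μ c h τ))

/-- the factor of `h0` -/
noncomputable def Rφ (X : ℝ) : ℝ := min 1 (1 - X * √(1 / Real.pi) + X ^ 2 / 4)

/-- `(t + 6/5)/m` -/
noncomputable def Ry (μ c h τ : ℝ) : ℝ := ((1 + τ) * h + 6 / 5) * c / μ

/-- `W` without the `φ` part -/
noncomputable def RBR (μ c h τ Γ : ℝ) : ℝ :=
  Re1 (Ry μ c h τ) ^ 2 / μ ^ 2 * (2 * (1 + τ) * (c * √(1 / (Γ * Rβ μ c h τ) * (1 / Real.pi))) +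
    c ^ 2 * (1 / (Γ * Rβ μ c h τ)) / 2) + Real.exp (min 1 (Ry μ c h τ)) * (1 / (Γ * Rβ μ c h τ)) / 2

/-- behind, right: `P I0` -/
noncomputable def RB0 (μ q g c ν h τ Γ : ℝ) : ℝ := RBK μ q g c ν h τ Γ * Rφ (RbX μ c ν h τ Γ)

/-- behind, right: `P IW R/h²` -/
noncomputable def RBW (μ q g c ν h τ Γ : ℝ) : ℝ :=
  Re1 (Ry μ c h τ) ^ 2 / μ ^ 2 * (1 + τ) ^ 2 * RB0 μ q g c ν h τ Γ +
    RBK μ q g c ν h τ Γ * RBR μ c h τ Γ

/-- behind, right: `P Ie/Γ` -/
noncomputable def RBE (μ q g c ν h τ Γ : ℝ) : ℝ :=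
  Real.exp (min 1 (Ry μ c h τ)) * RB0 μ q g c ν h τ Γ * (1 / Γ)

/-! ### real lemmas -/

theorem Re1_nonneg' {T : ℝ} (h : 0 < T) : 0 ≤ Re1 T := by
  unfold Re1
  have h1 : 0 < min 1 T := lt_min one_pos h
  have := Real.add_one_le_exp (min 1 T)
  exact div_nonneg (by linarith) h1.le

/-- convexity: bound of `φ` from the ends of an interval -/
theorem phi_ends {X a b k : ℝ} (h1 : a ≤ X) (h2 : X ≤ b) :
    1 - X * k + X ^ 2 / 4 ≤ max (1 - a * k + a ^ 2 / 4) (1 - b * k + b ^ 2 / 4) := by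
  rcases le_total (X + a) (4 * k) with h | h
  · refine le_max_of_le_left ?_
    have := mul_nonneg (sub_nonneg.2 h1) (sub_nonneg.2 h)
    nlinarith
  · refine le_max_of_le_right ?_
    have h3 : 4 * k ≤ X + b := by linarith
    have := mul_nonneg (sub_nonneg.2 h2) (sub_nonneg.2 h3)
    nlinarith

/-- monotonicity in `Γ` -/
theorem phi_mono {G Γ e X k : ℝ} (hG : 0 < G) (hΓ : G ≤ Γ) (he : 1 ≤ G * e) (hXk : X * k ≤ 1) :
    (1 - √(Γ / G) * X * k + (√(Γ / G) * X) ^ 2 / 4) * Real.exp (-(Γ * e)) ≤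
      (1 - X * k + X ^ 2 / 4) * Real.exp (-(G * e)) := by
  have hs0 : 1 ≤ Γ / G := by rwa [le_div_iff₀ hG, one_mul]
  obtain ⟨s, hs⟩ : ∃ s, s = √(Γ / G) := ⟨_, rfl⟩
  have hs1 : 1 ≤ s := by rw [hs]; exact Real.one_le_sqrt.2 hs0
  have hs2 : s ^ 2 = Γ / G := by rw [hs]; exact Real.sq_sqrt (by linarith)
  rw [← hs]
  have h1 : 1 - s * X * k + (s * X) ^ 2 / 4 ≤ s ^ 2 * (1 - X * k + X ^ 2 / 4) := by
    have h2 : 0 ≤ (s - 1) * (s * (1 - X * k) + 1) := by
      refine mul_nonneg (by linarith) ?_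
      have := mul_nonneg (by linarith : (0:ℝ) ≤ s) (sub_nonneg.2 hXk)
      linarith
    nlinarith
  have h3 : s ^ 2 ≤ Real.exp (Γ * e - G * e) := by
    rw [hs2]
    have h4 := Real.add_one_le_exp (Γ / G - 1)
    refine (by linarith : Γ / G ≤ Real.exp (Γ / G - 1)).trans (Real.exp_le_exp.2 ?_)
    have e1 : Γ * e - G * e = (Γ / G - 1) * (G * e) := by field_simp
    rw [e1]
    nlinarith [mul_nonneg (by linarith : (0:ℝ) ≤ Γ / G - 1) (sub_nonneg.2 he)]
  have h5 : 0 ≤ 1 - X * k + X ^ 2 / 4 := by nlinarith [sq_nonneg X]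
  have h6 : Real.exp (-(G * e)) = Real.exp (Γ * e - G * e) * Real.exp (-(Γ * e)) := by
    rw [← Real.exp_add]
    congr 1
    ring
  rw [h6, ← mul_assoc]
  refine mul_le_mul_of_nonneg_right ?_ (Real.exp_pos _).le
  rw [mul_comm (1 - X * k + X ^ 2 / 4)]
  exact h1.trans (mul_le_mul_of_nonneg_right h3 h5)

/-- monotonicity in `ν` -/
theorem nu_mono {ν d a E : ℝ} (hν : 0 < ν) (hd : ν ≤ d) (h : d ≤ 2 * a) :
    √(1 / ν) * Real.exp (-(a / ν - E)) ≤ √(1 / d) * Real.exp (-(a / d - E)) := by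
  have hd0 : 0 < d := hν.trans_le hd
  have h1 := front_mono (Real.sqrt_pos.2 hν) (Real.sqrt_le_sqrt hd) 1 (a := a) (by
    rw [Real.sq_sqrt hd0.le]; push_cast; linarith)
  rw [Real.sq_sqrt hd0.le, Real.sq_sqrt hν.le, pow_one, pow_one] at h1
  have e1 : Real.exp (-(a / ν - E)) = Real.exp (-(a / ν)) * Real.exp E := by
    rw [← Real.exp_add]; congr 1; ring
  have e2 : Real.exp (-(a / d - E)) = Real.exp (-(a / d)) * Real.exp E := by
    rw [← Real.exp_add]; congr 1; ring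
  rw [e1, e2, ← mul_assoc, ← mul_assoc, Real.sqrt_div zero_le_one, Real.sqrt_one,
    Real.sqrt_div zero_le_one, Real.sqrt_one]
  exact mul_le_mul_of_nonneg_right h1 (Real.exp_pos _).le

/-- lower bound of `√(1/π)` -/
theorem sip_ge : fx 620322466595 ≤ √(1 / Real.pi) := by
  refine Real.le_sqrt_of_sq_le ?_
  rw [le_div_iff₀ Real.pi_pos]
  have h := Real.pi_lt_d4
  have h1 : fx 620322466595 ^ 2 ≤ 3183 / 10000 := by unfold fx; norm_num
  nlinarith [Real.pi_pos]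

/-- `X √(1/π) ≤ 1` -/
theorem sip_le {X : ℝ} (h : X ≤ fx 1946135577067) : X * √(1 / Real.pi) ≤ 1 := by
  have h1 : X ≤ 177 / 100 := h.trans (by unfold fx; norm_num)
  have h2 : √(1 / Real.pi) ≤ 100 / 177 := by
    rw [Real.sqrt_le_left (by norm_num), div_le_iff₀ Real.pi_pos]
    have := Real.pi_gt_d4
    nlinarith
  have h3 : 0 ≤ √(1 / Real.pi) := Real.sqrt_nonneg _
  rcases le_total 0 X with h4 | h4
  · nlinarith
  · nlinarith

/-! ### the evaluator -/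

/-- upper bound of `1 - y √(1/π) + y²/4` -/
def xph (y : ℕ) : ℕ := SC + (mU y y / 4 + 1) - mL y 620322466595

theorem xph_le (y : ℕ) : 1 - fx y * √(1 / Real.pi) + fx y ^ 2 / 4 ≤ fx (xph y) := by
  have h1 : fx (mL y 620322466595) ≤ fx y * √(1 / Real.pi) := mulL le_rfl sip_ge
  have h2 : fx y ^ 2 / 4 ≤ fx (mU y y / 4 + 1) := by
    have k1 := fx_divU (mU y y) 4 (by norm_num)
    have k2 := le_mU y y
    push_cast at k1
    have k3 : fx y ^ 2 = fx y * fx y := by ring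
    linarith
  have h3 := subU (addU (le_of_eq fx_one.symm) h2) h1
  unfold xph
  linarith

/-- the factor of `h0`: `(lo, hi)` is the interval of `X` -/
def xφ (lo hi : ℕ) : ℕ :=
  bif Nat.ble hi 1946135577067 then min SC (max (xph lo) (xph hi)) else SC

/-- behind, right: upper bounds of `RB0`, `RBW`, `RBE` -/
def xbr (P : Par) (C : Cl) (G : ℕ) : Option (ℕ × ℕ × ℕ) :=
  let T := imn (SC, SC) C.T
  let T2 := imn (SC, SC) (im (im (ia C.t (ic 6 5)) C.c) P.N)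
  let A := xaR P C.n C.T
  let B := im (ic 11 25) (iep T)
  let e2 := mU (mU C.u.2 C.u.2) P.g.2
  let a0 := mL (mL C.t1.1 C.t1.1) A.1
  let x0 := dL a0 C.n.2
  let Vn := SC + mU C.c2.2 (mU P.N.2 P.N.2)
  let w := dU SC (mL G B.1)
  let U := dU SC (eNL T2.2)
  let d := mL C.n.1 (sqL B.1)
  bif Nat.blt 0 (eNL T.2) && Nat.blt 0 (mL C.n.2 B.1) && Nat.blt 0 (mL G B.1) &&
      Nat.blt 0 (eNL T2.2) && Nat.ble e2 x0 && Nat.ble C.n.2 (2 * mL G a0) &&
      Nat.ble SC (mL G (x0 - e2)) then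
    let K := mU (sqU (mU P.q.2 (dU Vn (mL C.n.2 B.1)) / 2 + 1) / 2 + 1) (eN (mL G (x0 - e2)))
    let φ := bif Nat.blt 0 d then
        xφ (dL (mL (sqL G) (mL C.t1.1 (mL A.1 C.c.1))) (mU C.n.2 (sqU B.2)))
          (dU (mU (sqU G) (mU C.t1.2 (mU A.2 C.c.2))) d)
      else SC
    let F := mU K φ
    let E1 := e1U T2.2
    let E2 := mU (mU E1 E1) (mU P.N.2 P.N.2)
    let R := mU E2 (2 * mU C.t1.2 (mU C.c.2 (sqU (mU w 350008700000))) + (mU C.c2.2 w / 2 + 1)) +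
      (mU U w / 2 + 1)
    some (F, mU (mU E2 (mU C.t1.2 C.t1.2)) F + mU K R, mU (mU U F) (dU SC G))
  else none

theorem xbr_sound {P : Par} {μ q g kk c ν h τ Γ : ℝ} (hP : P.Ok μ q g kk) {C : Cl}
    (hC : C.Has μ c ν h τ) {G : ℕ}
    (hG : fx G ≤ Γ) (hc : 0 < c) (hν : 0 < ν) (hh : 0 < h) (hτ : 0 ≤ τ) (hν1 : ν ≤ 1)
    {a a' a'' : ℕ} (hx : xbr P C G = some (a, a', a'')) :
    RB0 μ q g c ν h τ Γ ≤ fx a ∧ RBW μ q g c ν h τ Γ ≤ fx a' ∧ RBE μ q g c ν h τ Γ ≤ fx a'' := by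
  have hμ := hP.pos
  have hμ1 := hP.le
  unfold xbr at hx
  simp only at hx
  obtain ⟨T, hTe⟩ : ∃ T, T = imn (SC, SC) C.T := ⟨_, rfl⟩
  obtain ⟨T2, hT2e⟩ : ∃ T2, T2 = imn (SC, SC) (im (im (ia C.t (ic 6 5)) C.c) P.N) := ⟨_, rfl⟩
  obtain ⟨A, hAe⟩ : ∃ A, A = xaR P C.n C.T := ⟨_, rfl⟩
  rw [← hTe, ← hT2e, ← hAe] at hx
  obtain ⟨B, hBe⟩ : ∃ B, B = im (ic 11 25) (iep T) := ⟨_, rfl⟩
  obtain ⟨e2, he2⟩ : ∃ e2, e2 = mU (mU C.u.2 C.u.2) P.g.2 := ⟨_, rfl⟩
  obtain ⟨a0, ha0⟩ : ∃ a0, a0 = mL (mL C.t1.1 C.t1.1) A.1 := ⟨_, rfl⟩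
  obtain ⟨Vn, hVn⟩ : ∃ Vn, Vn = SC + mU C.c2.2 (mU P.N.2 P.N.2) := ⟨_, rfl⟩
  rw [← hBe, ← he2, ← ha0, ← hVn] at hx
  obtain ⟨x0, hx0⟩ : ∃ x0, x0 = dL a0 C.n.2 := ⟨_, rfl⟩
  obtain ⟨w, hw⟩ : ∃ w, w = dU SC (mL G B.1) := ⟨_, rfl⟩
  obtain ⟨U, hU⟩ : ∃ U, U = dU SC (eNL T2.2) := ⟨_, rfl⟩
  obtain ⟨d, hd⟩ : ∃ d, d = mL C.n.1 (sqL B.1) := ⟨_, rfl⟩
  rw [← hx0, ← hw, ← hU, ← hd] at hx
  cases hbb : (Nat.blt 0 (eNL T.2) && Nat.blt 0 (mL C.n.2 B.1) && Nat.blt 0 (mL G B.1) &&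
      Nat.blt 0 (eNL T2.2) && Nat.ble e2 x0 && Nat.ble C.n.2 (2 * mL G a0) &&
      Nat.ble SC (mL G (x0 - e2))) with
  | false => rw [hbb] at hx; simp at hx
  | true =>
    rw [hbb] at hx
    simp only [cond_true, Option.some.injEq, Prod.mk.injEq] at hx
    obtain ⟨K, hK⟩ : ∃ K, K = mU (sqU (mU P.q.2 (dU Vn (mL C.n.2 B.1)) / 2 + 1) / 2 + 1)
        (eN (mL G (x0 - e2))) := ⟨_, rfl⟩
    obtain ⟨φ, hφ⟩ : ∃ φ, φ = (bif Nat.blt 0 d then
        xφ (dL (mL (sqL G) (mL C.t1.1 (mL A.1 C.c.1))) (mU C.n.2 (sqU B.2)))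
          (dU (mU (sqU G) (mU C.t1.2 (mU A.2 C.c.2))) d)
      else SC) := ⟨_, rfl⟩
    obtain ⟨E1, hE1⟩ : ∃ E1, E1 = e1U T2.2 := ⟨_, rfl⟩
    rw [← hK, ← hφ, ← hE1] at hx
    obtain ⟨E2, hE2'⟩ : ∃ E2, E2 = mU (mU E1 E1) (mU P.N.2 P.N.2) := ⟨_, rfl⟩
    rw [← hE2'] at hx
    obtain ⟨ha, ha', ha''⟩ := hx
    simp only [Bool.and_eq_true, blt_iff, Nat.ble_eq] at hbb
    obtain ⟨⟨⟨⟨⟨⟨gT, gB⟩, gGB⟩, gT2⟩, ge⟩, gn⟩, gS⟩ := hbb
    -- real quantities
    obtain ⟨x, hxr⟩ : ∃ x, x = Rx μ c h τ := ⟨_, rfl⟩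
    have hmx : Mem x C.T := by rw [hxr]; exact hC.hT
    have hx0' : 0 < x := by rw [hxr]; unfold Rx; positivity
    have hmT : Mem (min 1 x) T := by rw [hTe]; exact Mem.one.min hmx
    have hmA : Mem (Ra μ ν x) A := by rw [hAe]; exact mem_xaR hP hC.hn hmx hν1
    obtain ⟨α, hα⟩ : ∃ α, α = Ra μ ν x := ⟨_, rfl⟩
    rw [← hα] at hmA
    have hmB : Mem (11 / 25 * Real.exp (min 1 x)) B := by
      rw [hBe]
      have := (Mem.const 11 25 (by norm_num)).mul (hmT.expp gT)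
      exact_mod_cast this
    obtain ⟨β, hβ⟩ : ∃ β, β = 11 / 25 * Real.exp (min 1 x) := ⟨_, rfl⟩
    rw [← hβ] at hmB
    have hβ0 : 0 < β := by rw [hβ]; positivity
    obtain ⟨y, hy⟩ : ∃ y, y = Ry μ c h τ := ⟨_, rfl⟩
    have hy0 : 0 < y := by
      rw [hy]; unfold Ry
      positivity
    have hmT2 : Mem (min 1 y) T2 := by
      have k1 := ((hC.ht.add (Mem.const 6 5 (by norm_num))).mul hC.hc).mul hP.hN
      rw [hT2e, hy]
      refine Mem.one.min ?_
      rw [mul_one_div] at k1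
      exact_mod_cast k1
    -- `G`
    have hGpos : 0 < G := by
      rcases Nat.eq_zero_or_pos G with h0 | h0
      · rw [h0] at gGB; simp [mL] at gGB
      · exact h0
    obtain ⟨G', hG'⟩ : ∃ G', G' = fx G := ⟨_, rfl⟩
    have hG'0 : 0 < G' := by rw [hG']; exact fx_pos hGpos
    have hGΓ : G' ≤ Γ := by rw [hG']; exact hG
    have hΓ0 : 0 < Γ := hG'0.trans_le hGΓ
    -- `D`
    obtain ⟨D, hD⟩ : ∃ D, D = fx C.n.2 := ⟨_, rfl⟩
    have hνD : ν ≤ D := by rw [hD]; exact hC.hn.2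
    have hD0 : 0 < D := hν.trans_le hνD
    -- exponent
    have hE2 : g / 2 * τ ^ 2 ≤ fx e2 := by
      rw [he2, mul_comm]
      have h1 := mulU hC.hu.2 hC.hu.2 hτ
      have hg0 : 0 ≤ g / 2 := (fx_nonneg _).trans hP.hg.1
      have h2 := mulU h1 hP.hg.2 hg0
      rwa [pow_two]
    have hA1 : fx a0 ≤ (1 + τ) ^ 2 * α := by
      rw [ha0, pow_two]
      exact mulL (mulL hC.ht1.1 hC.ht1.1) hmA.1
    have hA0 : 0 ≤ (1 + τ) ^ 2 * α := (fx_nonneg _).trans hA1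
    have hα0 : 0 ≤ α := hmA.nonneg
    have hx1 : fx x0 ≤ fx a0 / D := by
      rw [hx0]
      exact divL le_rfl (by rw [hD]) hD0
    have hxe : fx (x0 - e2) ≤ fx a0 / D - g / 2 * τ ^ 2 := subL hx1 hE2 ge
    obtain ⟨e, hee⟩ : ∃ e, e = (1 + τ) ^ 2 * (α / ν) - g / 2 * τ ^ 2 := ⟨_, rfl⟩
    have hxe2 : fx (x0 - e2) ≤ e := by
      refine hxe.trans ?_
      rw [hee]
      have k1 : fx a0 / D ≤ (1 + τ) ^ 2 * (α / ν) := by
        rw [← mul_div_assoc]
        exact div_le_div₀ hA0 hA1 hν hνD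
      linarith
    have he0 : 0 ≤ e := (fx_nonneg _).trans hxe2
    have hGe : 1 ≤ G' * e := by
      have k1 : fx SC ≤ fx (mL G (x0 - e2)) := fx_mono gS
      rw [fx_one] at k1
      exact k1.trans (mulL (by rw [hG']) hxe2)
    -- square root
    have hVn1 : 1 + c ^ 2 / μ ^ 2 ≤ fx Vn := by
      rw [hVn]
      refine addU (le_of_eq fx_one.symm) ?_
      have h2 := mulU hC.hc2.2 (mulU hP.hN.2 hP.hN.2 (by positivity)) (by positivity)
      refine le_trans (le_of_eq ?_) h2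
      field_simp
    have hq0 : 0 ≤ q := hP.hq.nonneg
    have hV0 : 0 ≤ 1 + c ^ 2 / μ ^ 2 := by positivity
    have hS : √(q * (1 + c ^ 2 / μ ^ 2) / (2 * (D * β))) / 2 ≤
        fx (sqU (mU P.q.2 (dU Vn (mL C.n.2 B.1)) / 2 + 1) / 2 + 1) := by
      apply half_up
      apply sqrtU
      have k0 : fx (mL C.n.2 B.1) ≤ D * β := mulL (by rw [hD]) hmB.1
      have k1 := half_up (mulU hP.hq.2 (divU hVn1 k0 gB) (by positivity))
      refine le_trans (le_of_eq ?_) k1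
      field_simp
    -- `K` at `G'`
    have hKG : √(q * (1 + c ^ 2 / μ ^ 2) / (2 * (ν * β))) / 2 * Real.exp (-(G' * e)) ≤ fx K := by
      have k1 := nu_mono (E := G' * (g / 2 * τ ^ 2)) (a := G' * fx a0) hν hνD (by
        have k2 : fx C.n.2 ≤ fx (2 * mL G a0) := fx_mono gn
        have k3 : fx (2 * mL G a0) = 2 * fx (mL G a0) := by unfold fx; push_cast; ring
        have k4 : fx (mL G a0) ≤ G' * fx a0 := mulL (by rw [hG']) le_rfl
        rw [k3, ← hD] at k2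
        linarith)
      have k5 : Real.exp (-(G' * e)) ≤ Real.exp (-(G' * fx a0 / ν - G' * (g / 2 * τ ^ 2))) := by
        refine Real.exp_le_exp.2 ?_
        rw [hee]
        have k6 : G' * fx a0 / ν ≤ G' * ((1 + τ) ^ 2 * (α / ν)) := by
          have : G' * ((1 + τ) ^ 2 * (α / ν)) = G' * ((1 + τ) ^ 2 * α) / ν := by ring
          rw [this]
          gcongr
        linarith
      have k7 : Real.exp (-(G' * fx a0 / D - G' * (g / 2 * τ ^ 2))) ≤ fx (eN (mL G (x0 - e2))) := by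
        have k8 : fx (mL G (x0 - e2)) ≤ G' * fx a0 / D - G' * (g / 2 * τ ^ 2) := by
          have k9 := mulL (a := G') (b := fx a0 / D - g / 2 * τ ^ 2) (m := G) (n := x0 - e2)
            (by rw [hG']) hxe
          refine k9.trans (le_of_eq ?_)
          ring
        exact expNegU k8
      have s1 : √(q * (1 + c ^ 2 / μ ^ 2) / (2 * (ν * β))) =
          √(q * (1 + c ^ 2 / μ ^ 2) / (2 * β)) * √(1 / ν) := by
        rw [← Real.sqrt_mul (by positivity)]
        congr 1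
        field_simp
      have s2 : √(q * (1 + c ^ 2 / μ ^ 2) / (2 * (D * β))) =
          √(q * (1 + c ^ 2 / μ ^ 2) / (2 * β)) * √(1 / D) := by
        rw [← Real.sqrt_mul (by positivity)]
        congr 1
        field_simp
      rw [s2] at hS
      have k10 := mulU hS k7 (Real.exp_pos _).le
      rw [hK]
      refine le_trans ?_ k10
      rw [s1]
      have k11 : √(1 / ν) * Real.exp (-(G' * e)) ≤
          √(1 / D) * Real.exp (-(G' * fx a0 / D - G' * (g / 2 * τ ^ 2))) :=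
        (mul_le_mul_of_nonneg_left k5 (Real.sqrt_nonneg _)).trans k1
      have k12 : 0 ≤ √(q * (1 + c ^ 2 / μ ^ 2) / (2 * β)) / 2 := by positivity
      have k13 := mul_le_mul_of_nonneg_left k11 k12
      refine le_trans (le_of_eq ?_) (k13.trans (le_of_eq ?_)) <;> ring
    obtain ⟨Kr, hKr⟩ : ∃ Kr, Kr = √(q * (1 + c ^ 2 / μ ^ 2) / (2 * (ν * β))) / 2 := ⟨_, rfl⟩
    have hKr0 : 0 ≤ Kr := by rw [hKr]; positivity
    rw [← hKr] at hKG
    have hKΓ : Kr * Real.exp (-(Γ * e)) ≤ fx K := by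
      refine le_trans (mul_le_mul_of_nonneg_left (Real.exp_le_exp.2 ?_) hKr0) hKG
      have := mul_le_mul_of_nonneg_right hGΓ he0
      linarith
    have hKΓ0 : 0 ≤ Kr * Real.exp (-(Γ * e)) := mul_nonneg hKr0 (Real.exp_pos _).le
    have hφ0 : 0 ≤ Rφ (RbX μ c ν h τ Γ) := by
      unfold Rφ
      refine le_min zero_le_one ?_
      have k1 : √(1 / Real.pi) ^ 2 ≤ 1 := by
        rw [Real.sq_sqrt (by positivity), div_le_one Real.pi_pos]
        have := Real.pi_gt_three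
        linarith
      have k2 := sq_nonneg (RbX μ c ν h τ Γ / 2 - √(1 / Real.pi))
      have k3 : (RbX μ c ν h τ Γ / 2 - √(1 / Real.pi)) ^ 2 = RbX μ c ν h τ Γ ^ 2 / 4 -
        RbX μ c ν h τ Γ * √(1 / Real.pi) + √(1 / Real.pi) ^ 2 := by ring
      linarith
    -- the factor of `h0`
    obtain ⟨k, hk⟩ : ∃ k, k = √(1 / Real.pi) := ⟨_, rfl⟩
    have hφ1 : Kr * Real.exp (-(Γ * e)) * Rφ (RbX μ c ν h τ Γ) ≤ fx (mU K φ) := by
      have b1 : Kr * Real.exp (-(Γ * e)) * Rφ (RbX μ c ν h τ Γ) ≤ fx K * fx SC := by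
        rw [fx_one]
        have : Rφ (RbX μ c ν h τ Γ) ≤ 1 := min_le_left _ _
        exact mul_le_mul hKΓ this hφ0 (fx_nonneg _)
      rw [hφ]
      cases hb2 : Nat.blt 0 d with
      | false => exact b1.trans (le_mU _ _)
      | true =>
        rw [blt_iff] at hb2
        obtain ⟨lo, hlo⟩ : ∃ lo, lo = dL (mL (sqL G) (mL C.t1.1 (mL A.1 C.c.1)))
          (mU C.n.2 (sqU B.2)) := ⟨_, rfl⟩
        obtain ⟨hi, hhi⟩ : ∃ hi, hi = dU (mU (sqU G) (mU C.t1.2 (mU A.2 C.c.2))) d := ⟨_, rfl⟩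
        rw [cond_true, ← hlo, ← hhi]
        unfold xφ
        cases hb3 : Nat.ble hi 1946135577067 with
        | false => exact b1.trans (le_mU _ _)
        | true =>
          rw [Nat.ble_eq] at hb3
          rw [cond_true]
          obtain ⟨X, hX⟩ : ∃ X, X = √G' * ((1 + τ) * (α * c)) / (ν * √β) := ⟨_, rfl⟩
          have hXlo : fx lo ≤ X := by
            rw [hX, hlo]
            refine divL (mulL (sqrtL (by rw [hG'])) (mulL hC.ht1.1 (mulL hmA.1 hC.hc.1)))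
              (mulU hC.hn.2 (sqrtU hmB.2) (Real.sqrt_nonneg _)) ?_
            have := Real.sqrt_pos.2 hβ0
            positivity
          have hXhi : X ≤ fx hi := by
            rw [hX, hhi]
            refine divU (mulU (sqrtU (by rw [hG'])) (mulU hC.ht1.2 (mulU hmA.2 hC.hc.2 hc.le)
              (by positivity)) (by positivity)) ?_ hb2
            rw [hd]
            exact mulL hC.hn.1 (sqrtL hmB.1)
          have hXk : X * k ≤ 1 := by
            rw [hk]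
            exact sip_le (hXhi.trans (fx_mono hb3))
          have hRX : RbX μ c ν h τ Γ = √(Γ / G') * X := by
            unfold RbX Rβ
            rw [← hxr, ← hβ, ← hα, hX]
            have : √Γ = √(Γ / G') * √G' := by
              rw [← Real.sqrt_mul (by positivity)]
              congr 1
              field_simp
            rw [this]
            ring
          have hp := phi_mono hG'0 hGΓ hGe hXk
          rw [← hRX] at hp
          have hends := phi_ends (k := k) hXlo hXhi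
          have hlo' := xph_le lo
          have hhi' := xph_le hi
          rw [← hk] at hlo' hhi'
          have hmax : 1 - X * k + X ^ 2 / 4 ≤ fx (max (xph lo) (xph hi)) :=
            hends.trans (maxU hlo' hhi')
          have hF : Rφ (RbX μ c ν h τ Γ) ≤ 1 - RbX μ c ν h τ Γ * k + RbX μ c ν h τ Γ ^ 2 / 4 := by
            rw [hk]
            exact min_le_right _ _
          have b2 : Kr * Real.exp (-(Γ * e)) * Rφ (RbX μ c ν h τ Γ) ≤
              fx K * fx (max (xph lo) (xph hi)) := by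
            have c1 : Rφ (RbX μ c ν h τ Γ) * Real.exp (-(Γ * e)) ≤
                (1 - X * k + X ^ 2 / 4) * Real.exp (-(G' * e)) :=
              (mul_le_mul_of_nonneg_right hF (Real.exp_pos _).le).trans hp
            have c2 : (1 - X * k + X ^ 2 / 4) * Real.exp (-(G' * e)) ≤
                fx (max (xph lo) (xph hi)) * Real.exp (-(G' * e)) :=
              mul_le_mul_of_nonneg_right hmax (Real.exp_pos _).le
            have c3 := mul_le_mul_of_nonneg_left (c1.trans c2) hKr0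
            have c4 := mul_le_mul_of_nonneg_right hKG (fx_nonneg (max (xph lo) (xph hi)))
            have e1 : Kr * Real.exp (-(Γ * e)) * Rφ (RbX μ c ν h τ Γ) =
              Kr * (Rφ (RbX μ c ν h τ Γ) * Real.exp (-(Γ * e))) := by ring
            have e2 : Kr * (fx (max (xph lo) (xph hi)) * Real.exp (-(G' * e))) =
              Kr * Real.exp (-(G' * e)) * fx (max (xph lo) (xph hi)) := by ring
            rw [e1]
            rw [e2] at c3
            exact c3.trans c4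
          rcases le_total SC (max (xph lo) (xph hi)) with h5 | h5
          · rw [min_eq_left h5]
            exact b1.trans (le_mU _ _)
          · rw [min_eq_right h5]
            exact b2.trans (le_mU _ _)
    have hRBK : RBK μ q g c ν h τ Γ = Kr * Real.exp (-(Γ * e)) := by
      unfold RBK Rβ
      rw [← hxr, ← hβ, ← hα, hKr, hee]
    have hF0 : RB0 μ q g c ν h τ Γ ≤ fx (mU K φ) := by
      unfold RB0
      rw [hRBK]
      exact hφ1
    -- the weights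
    have hU1 : Real.exp (min 1 y) ≤ fx U := by rw [hU]; exact expUp hmT2.2 gT2
    have hRe : Re1 y ≤ fx E1 := by rw [hE1]; exact e1U_ge hy0 hmT2.2
    have hRe0 : 0 ≤ Re1 y := Re1_nonneg' hy0
    have hN2 : 1 / μ ^ 2 ≤ fx (mU P.N.2 P.N.2) := by
      have k1 := mulU hP.hN.2 hP.hN.2 (by positivity)
      refine le_trans (le_of_eq ?_) k1
      field_simp
    have hE : Re1 y ^ 2 / μ ^ 2 ≤ fx E2 := by
      rw [hE2']
      have k1 := mulU (mulU hRe hRe hRe0) hN2 (by positivity)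
      refine le_trans (le_of_eq ?_) k1
      ring
    have hw1 : 1 / (Γ * β) ≤ fx w := by
      rw [hw]
      exact divU (le_of_eq fx_one.symm) (mulL hG hmB.1) gGB
    have hR : RBR μ c h τ Γ ≤ fx (mU E2 (2 * mU C.t1.2 (mU C.c.2 (sqU (mU w 350008700000))) +
        (mU C.c2.2 w / 2 + 1)) + (mU U w / 2 + 1)) := by
      unfold RBR Rβ
      rw [← hxr, ← hβ, ← hy]
      refine addU (mulU hE (addU ?_ ?_) (by positivity)) ?_
      · have k1 := mulU hC.ht1.2 (mulU hC.hc.2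
          (sqrtU (mulU hw1 inv_pi_le (by positivity))) (Real.sqrt_nonneg _)) (by positivity)
        have k2 := two_up k1
        refine le_trans (le_of_eq ?_) k2
        ring
      · exact half_up (mulU hC.hc2.2 hw1 (by positivity))
      · exact half_up (mulU hU1 hw1 (by positivity))
    have hR0 : 0 ≤ RBR μ c h τ Γ := by
      unfold RBR Rβ
      rw [← hxr, ← hβ, ← hy]
      positivity
    have hRB0 : 0 ≤ RB0 μ q g c ν h τ Γ := by
      unfold RB0
      rw [hRBK]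
      exact mul_nonneg hKΓ0 hφ0
    refine ⟨?_, ?_, ?_⟩
    · rw [← ha]
      exact hF0
    · rw [← ha']
      unfold RBW
      rw [← hy]
      refine addU (mulU (mulU hE ?_ (by positivity)) hF0 hRB0) ?_
      · rw [pow_two]; exact mulU hC.ht1.2 hC.ht1.2 (by positivity)
      · rw [hRBK]
        exact mulU hKΓ hR hR0
    · rw [← ha'']
      unfold RBE
      rw [← hy]
      exact mulU (mulU hU1 hF0 hRB0) (divU (le_of_eq fx_one.symm) hG hGpos) (by positivity)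

end SokalCel
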