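import Pool.Agent.Lib_MP_af4de1_v3.BrR1
import Pool.Agent.Lib_MP_af4de1_v3.BrRI
import Pool.Agent.Lib_MP_af4de1_v3.CelRB

/-!
# BRIDGE, right side, behind: `bR0 bRW bRe` of `CenTR` against `RB0 RBW RBE` of `CelRB`

`PS bR0 = RB0`, `PS bRW = (h c)² RBW`, `PS bRe = Γ RBE`.
-/

set_option autoImplicit false

namespace SokalCel

open Real SokalCen

theorem Rβ_pos (μ c h τ : ℝ) : 0 < Rβ μ c h τ := by
  unfold Rβ
  positivity

section

variable {r ρ s h τ Γ : ℝ} (D : Dat r ρ s h τ Γ)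

include D

/-- the curvature -/
theorem Dat.c2Be {μ : ℝ} (hμ : 0 < μ) :
    c2B r (μ * s) ((1 + τ) * h) = r * Rβ μ (1 / s) h τ := by
  unfold c2B Rβ
  rw [D.cTe hμ]
  rfl

/-- the weight arguments -/
theorem Dat.cTy {μ : ℝ} (hμ : 0 < μ) :
    cT (μ * s) ((1 + τ) * h + 6 / 5) = min 1 (Ry μ (1 / s) h τ) := by
  have := D.s0
  unfold cT Ry
  congr 1
  field_simp

/-- `b = X √B` -/
theorem Dat.c2be {μ : ℝ} (hμ : 1 ≤ μ) :
    c2b r (μ * s) ρ ((1 + τ) * h) =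
      RbX μ (1 / s) (ρ / s) h τ Γ * √(r * Rβ μ (1 / s) h τ) := by
  have hμ0 : 0 < μ := by linarith
  have h1 := D.ρ0
  have h2 := D.s0
  have h3 := D.h0
  have h4 := D.r0
  have h5 := D.Γ0
  have hβ := Rβ_pos μ (1 / s) h τ
  unfold c2b RbX
  rw [AR_eq D.ρ0 D.s0 hμ0 D.t0, ← D.Te hμ0]
  have e0 : Rx μ (1 / s) h τ = (1 + τ) * h * (1 / s) / μ := rfl
  rw [e0]
  set A := Ra μ (ρ / s) ((1 + τ) * h * (1 / s) / μ) with hA
  set β := Rβ μ (1 / s) h τ with hβd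
  have e1 : √Γ = √r * (h / s) := by
    rw [D.G]
    have e2 : r * h ^ 2 / s ^ 2 = r * (h / s) ^ 2 := by
      field_simp
    rw [e2, Real.sqrt_mul h4.le, Real.sqrt_sq (by positivity)]
  have e3 : √(r * β) = √r * √β := Real.sqrt_mul h4.le _
  have e4 : √r ^ 2 = r := Real.sq_sqrt h4.le
  have e5 : 0 < √β := Real.sqrt_pos.2 hβ
  have e6 : 0 < √r := Real.sqrt_pos.2 h4
  rw [e1, e3]
  have e7 : r = √r * √r := by
    rw [← pow_two]
    exact e4.symm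
  calc r * (A * (1 / s) ^ 2 / (ρ / s) * ((1 + τ) * h))
      = √r * √r * (A * (1 / s) ^ 2 / (ρ / s) * ((1 + τ) * h)) := by rw [← e7]
    _ = _ := by
        field_simp

/-- prefactor, exponent and the half Gaussian -/
theorem Dat.PbK {μ g q : ℝ} (hμ : 1 ≤ μ) (hq : 0 ≤ q) :
    PS r ρ s g q τ Γ μ * (c2E r (μ * s) ρ ((1 + τ) * h) *
      (√(π / (r * Rβ μ (1 / s) h τ)) / 2)) = RBK μ q g (1 / s) (ρ / s) h τ Γ := by
  have hμ0 : 0 < μ := by linarith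
  have h1 := D.ρ0
  have h2 := D.s0
  have h3 := D.h0
  have hν := D.ν0
  have hβ := Rβ_pos μ (1 / s) h τ
  have e := D.PQ (μ := μ) (g := g) (q := q) hμ (mul_pos hν hβ) hq
  have e1 : ρ / s * Rβ μ (1 / s) h τ / (ρ / s) = Rβ μ (1 / s) h τ := by
    field_simp
  rw [e1] at e
  have e2 : exp (g / 2 * (Γ * τ ^ 2)) * c2E r (μ * s) ρ ((1 + τ) * h) =
      exp (-(Γ * ((1 + τ) ^ 2 * (Ra μ (ρ / s) (Rx μ (1 / s) h τ) / (ρ / s)) - g / 2 * τ ^ 2))) := by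
    unfold c2E
    rw [← Real.exp_add, AR_eq D.ρ0 D.s0 hμ0 D.t0, ← D.Te hμ0, D.G]
    have e0 : Rx μ (1 / s) h τ = (1 + τ) * h * (1 / s) / μ := rfl
    rw [e0]
    congr 1
    field_simp
    ring
  unfold RBK
  rw [← e2]
  calc _ = (PS r ρ s g q τ Γ μ * √(π / (r * Rβ μ (1 / s) h τ))) *
        (c2E r (μ * s) ρ ((1 + τ) * h) / 2) := by ring
    _ = _ := by
        rw [e]
        ring

/-- `h0` -/
theorem Dat.bh0 {μ : ℝ} (hμ : 1 ≤ μ) :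
    SokalCen.h0 (c2b r (μ * s) ρ ((1 + τ) * h)) (c2B r (μ * s) ((1 + τ) * h)) =
      √(π / (r * Rβ μ (1 / s) h τ)) / 2 * Rφ (RbX μ (1 / s) (ρ / s) h τ Γ) := by
  have hμ0 : 0 < μ := by linarith
  have h4 := D.r0
  have hβ := Rβ_pos μ (1 / s) h τ
  have hpi := Real.pi_pos
  rw [D.c2Be hμ0, D.c2be hμ]
  unfold SokalCen.h0 Rφ
  have hB : 0 < r * Rβ μ (1 / s) h τ := mul_pos h4 hβ
  set B := r * Rβ μ (1 / s) h τ with hBd
  set X := RbX μ (1 / s) (ρ / s) h τ Γ with hX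
  have hSB : 0 < √B := Real.sqrt_pos.2 hB
  have hSp : 0 < √π := Real.sqrt_pos.2 hpi
  have e1 : √(π / B) = √π / √B := Real.sqrt_div hpi.le _
  have e2 : √(1 / π) = 1 / √π := by
    rw [Real.sqrt_div zero_le_one, Real.sqrt_one]
  have e3 : √B ^ 2 = B := Real.sq_sqrt hB.le
  have e4 : √π ^ 2 = π := Real.sq_sqrt hpi.le
  rw [e1, e2, mul_min_of_nonneg _ _ (by positivity), mul_one]
  congr 1
  have e5 : X * √B / (2 * B) = X / (2 * √B) := by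
    rw [div_eq_div_iff (by positivity) (by positivity)]
    linear_combination (2 * X) * e3
  have e6 : (X * √B) ^ 2 * (√π / √B) / (8 * B) = X ^ 2 * (√π / √B) / 8 := by
    rw [mul_pow, e3]
    field_simp
  rw [e5, e6]
  field_simp
  ring

/-- `P I0` -/
theorem Dat.bb0 {μ g q : ℝ} (hμ : 1 ≤ μ) (hq : 0 ≤ q) :
    PS r ρ s g q τ Γ μ * bR0 r (μ * s) ρ ((1 + τ) * h) = RB0 μ q g (1 / s) (ρ / s) h τ Γ := by
  have e := D.PbK (g := g) (q := q) hμ hq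
  unfold bR0 RB0
  rw [D.bh0 hμ, ← e]
  ring

/-- `P Ie` -/
theorem Dat.bbe {μ g q : ℝ} (hμ : 1 ≤ μ) (hq : 0 ≤ q) :
    PS r ρ s g q τ Γ μ * bRe r (μ * s) ρ ((1 + τ) * h) = Γ * RBE μ q g (1 / s) (ρ / s) h τ Γ := by
  have hμ0 : 0 < μ := by linarith
  have e := D.bb0 (g := g) (q := q) hμ hq
  have h5 := D.Γ0
  unfold bRe RBE
  rw [D.cTy hμ0, ← e]
  field_simp

/-- `P IW` -/
theorem Dat.bbW {μ g q : ℝ} (hμ : 1 ≤ μ) (hq : 0 ≤ q) :
    PS r ρ s g q τ Γ μ * bRW r (μ * s) ρ ((1 + τ) * h) =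
      (h * (1 / s)) ^ 2 * RBW μ q g (1 / s) (ρ / s) h τ Γ := by
  have hμ0 : 0 < μ := by linarith
  have h1 := D.ρ0
  have h2 := D.s0
  have h3 := D.h0
  have h4 := D.r0
  have h5 := D.Γ0
  have hβ := Rβ_pos μ (1 / s) h τ
  have hpi := Real.pi_pos
  have e0 := D.bb0 (g := g) (q := q) hμ hq
  have eK := D.PbK (g := g) (q := q) hμ hq
  unfold bRW RBW RBR
  rw [D.cTy hμ0]
  have hR1 : SokalCen.eS (min 1 (Ry μ (1 / s) h τ)) = Re1 (Ry μ (1 / s) h τ) := rfl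
  rw [hR1, ← e0, ← eK]
  unfold bR0
  rw [D.c2Be hμ0]
  set β := Rβ μ (1 / s) h τ with hβd
  set e1 := Re1 (Ry μ (1 / s) h τ) with he1
  set P := PS r ρ s g q τ Γ μ with hP
  set E := c2E r (μ * s) ρ ((1 + τ) * h) with hE
  set H := SokalCen.h0 (c2b r (μ * s) ρ ((1 + τ) * h)) (r * β) with hH
  set U := exp (min 1 (Ry μ (1 / s) h τ)) with hU
  have hB : 0 < r * β := mul_pos h4 hβ
  set W := √(π / (r * β)) with hW
  have hW0 : 0 < W := Real.sqrt_pos.2 (by positivity)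
  have hW2 : W ^ 2 = π / (r * β) := Real.sq_sqrt (by positivity)
  -- `√(1/(Γ β π)) = s/(h W r β)`
  have e3 : √(1 / (Γ * β) * (1 / π)) = W * (s / (π * h)) := by
    rw [hW, D.G]
    have e5 : 1 / (r * h ^ 2 / s ^ 2 * β) * (1 / π) = (π / (r * β)) * (s / (π * h)) ^ 2 := by
      field_simp
    rw [e5, Real.sqrt_mul (by positivity), Real.sqrt_sq (by positivity)]
  have e4 : 1 / (Γ * β) = s ^ 2 * W ^ 2 / (π * h ^ 2) := by
    rw [hW2, D.G]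
    field_simp
  have e6 : SokalCen.h1 (r * β) = W ^ 2 / (2 * π) := by
    unfold SokalCen.h1
    rw [hW2]
    field_simp
  have e7 : SokalCen.h2 (r * β) = W * W ^ 2 / (4 * π) := by
    unfold SokalCen.h2
    rw [← hW, hW2]
    field_simp
  rw [e3, e4, e6, e7]
  field_simp
  ring

end

end SokalCel
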