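import Pool.Agent.Lib_MP_af4de1_v3.CelL2

/-!
# Cells, right side: front in scaled variables

Front `s = -v ≤ 0`: half Gaussian `exp (-r (1 - cos t) - r aL v²)`; `P I0 = RF0`, `P IW R/h² = RF0 RFW/c²`,
`P Ie = RF0`, `P` the level factor.
-/

set_option autoImplicit false

namespace SokalCel

open SokalFN

/-- front coefficient `(μ - ν/2)/μ²` -/
noncomputable def Rf (μ ν : ℝ) : ℝ := (μ - 1 / 2 * ν) / μ ^ 2

/-- front, right: `P I0` -/
noncomputable def RF0 (μ q g c ν h τ Γ : ℝ) : ℝ :=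
  √(q * (1 + c ^ 2 / μ ^ 2) / (2 * Rf μ ν)) / 2 * (1 / c) *
    Real.exp (-(Γ * ((1 + τ) ^ 2 * bq ((1 + τ) * h) / c ^ 2 - g / 2 * τ ^ 2)))

/-- front, right: `(IW/I0) (R/h²) c²` -/
noncomputable def RFW (μ c ν τ Γ : ℝ) : ℝ :=
  (1 + τ) ^ 2 + 2 * (1 + τ) * √(ν / (Γ * Rf μ ν) * (1 / Real.pi)) +
    (1 + c ^ 2 / μ ^ 2) * (ν / (Γ * Rf μ ν)) / 2

/-- the front part: upper bounds of `F0` and of `F0 W/c²` -/
def xfr (P : Par) (C : Cl) (b : I) (G : ℕ) : Option (ℕ × ℕ) :=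
  let f := mL (mL (P.M.1 - mU C.n.2 549755813888) P.N.1) P.N.1
  let a0 := mL (mL C.t1.1 C.t1.1) b.1
  let d2 := mU C.c.2 C.c.2
  let e2 := mU (mU C.u.2 C.u.2) P.g.2
  let x := dL a0 d2
  let Vn := SC + mU C.c2.2 (mU P.N.2 P.N.2)
  let w := dU C.n.2 (mL G f)
  bif Nat.blt 0 f && Nat.blt 0 (mL G f) && Nat.blt 0 C.c.2 && Nat.ble (3 * d2) (2 * mL G a0) &&
      Nat.ble (mU C.n.2 549755813888) P.M.1 && Nat.ble e2 x then
    let S := sqU (mU P.q.2 (dU Vn f) / 2 + 1) / 2 + 1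
    let i1 := dU SC C.c.2
    let E := eN (mL G (x - e2))
    let W := mU C.t1.2 C.t1.2 + 2 * mU C.t1.2 (sqU (mU w 350008700000)) + (mU Vn w / 2 + 1)
    some (mU (mU S i1) E, mU (mU (mU S (mU i1 (mU i1 i1))) E) W)
  else none


theorem xfr_sound {P : Par} {μ q g kk c ν h τ Γ : ℝ} (hP : P.Ok μ q g kk) {C : Cl}
    (hC : C.Has μ c ν h τ) {b : I} {G : ℕ} (hb : Mem (bq ((1 + τ) * h)) b)
    (hG : fx G ≤ Γ) (hc : 0 < c) (hν : 0 < ν) (hτ : 0 ≤ τ)
    {a a' : ℕ} (hx : xfr P C b G = some (a, a')) :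
    RF0 μ q g c ν h τ Γ ≤ fx a ∧ RF0 μ q g c ν h τ Γ * (RFW μ c ν τ Γ / c ^ 2) ≤ fx a' ∧ 0 < G := by
  have hμ := hP.pos
  have hμ1 := hP.le
  unfold xfr at hx
  simp only at hx
  obtain ⟨f, hfe⟩ : ∃ f, f = mL (mL (P.M.1 - mU C.n.2 549755813888) P.N.1) P.N.1 := ⟨_, rfl⟩
  obtain ⟨a0, ha0⟩ : ∃ a0, a0 = mL (mL C.t1.1 C.t1.1) b.1 := ⟨_, rfl⟩
  obtain ⟨d2, hd2⟩ : ∃ d2, d2 = mU C.c.2 C.c.2 := ⟨_, rfl⟩
  obtain ⟨e2, he2⟩ : ∃ e2, e2 = mU (mU C.u.2 C.u.2) P.g.2 := ⟨_, rfl⟩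
  rw [← hfe, ← ha0, ← hd2, ← he2] at hx
  obtain ⟨x, hxe⟩ : ∃ x, x = dL a0 d2 := ⟨_, rfl⟩
  obtain ⟨Vn, hVn⟩ : ∃ Vn, Vn = SC + mU C.c2.2 (mU P.N.2 P.N.2) := ⟨_, rfl⟩
  obtain ⟨w, hw⟩ : ∃ w, w = dU C.n.2 (mL G f) := ⟨_, rfl⟩
  rw [← hxe, ← hVn, ← hw] at hx
  cases hbb : (Nat.blt 0 f && Nat.blt 0 (mL G f) && Nat.blt 0 C.c.2 &&
      Nat.ble (3 * d2) (2 * mL G a0) && Nat.ble (mU C.n.2 549755813888) P.M.1 && Nat.ble e2 x) with
  | false => rw [hbb] at hx; simp at hx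
  | true =>
    rw [hbb] at hx
    simp only [cond_true, Option.some.injEq, Prod.mk.injEq] at hx
    obtain ⟨ha, ha'⟩ := hx
    simp only [Bool.and_eq_true, blt_iff, Nat.ble_eq] at hbb
    obtain ⟨⟨⟨⟨⟨hf0, hGf⟩, hc1⟩, h3⟩, hnM⟩, he⟩ := hbb
    -- f
    obtain ⟨F, hF⟩ : ∃ F, F = Rf μ ν := ⟨_, rfl⟩
    have hfF : fx f ≤ F := by
      rw [hfe, hF]
      have k1 : (1 / 2 : ℝ) ≤ fx 549755813888 := by unfold fx; norm_num
      have k2 : ν * (1 / 2) ≤ fx (mU C.n.2 549755813888) := mulU hC.hn.2 k1 (by norm_num)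
      have k3 := subL hP.hM.1 k2 hnM
      have k4 := mulL (mulL k3 hP.hN.1) hP.hN.1
      refine k4.trans (le_of_eq ?_)
      unfold Rf
      field_simp
    have hF0 : 0 < F := (fx_pos hf0).trans_le hfF
    have hGpos : 0 < G := by
      rcases Nat.eq_zero_or_pos G with h0 | h0
      · rw [h0] at hGf; simp [mL] at hGf
      · exact h0
    have hΓ0 : 0 < Γ := (fx_pos hGpos).trans_le hG
    obtain ⟨D, hD⟩ : ∃ D, D = fx C.c.2 := ⟨_, rfl⟩
    have hcD : c ≤ D := by rw [hD]; exact hC.hc.2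
    have hD0 : 0 < D := by rw [hD]; exact fx_pos hc1
    obtain ⟨B, hB⟩ : ∃ B, B = (1 + τ) ^ 2 * bq ((1 + τ) * h) := ⟨_, rfl⟩
    have hB1 : fx a0 ≤ B := by
      rw [ha0, hB, pow_two]
      exact mulL (mulL hC.ht1.1 hC.ht1.1) hb.1
    have hD2 : D ^ 2 ≤ fx d2 := by
      rw [hd2, hD, pow_two]
      exact le_mU _ _
    have hGa : fx (mL G a0) ≤ Γ * B := mulL hG hB1
    have hcond : (3 : ℝ) * D ^ 2 ≤ 2 * fx (mL G a0) := by
      have k1 : fx (3 * d2) ≤ fx (2 * mL G a0) := fx_mono h3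
      have k2 : fx (3 * d2) = 3 * fx d2 := by unfold fx; push_cast; ring
      have k3 : fx (2 * mL G a0) = 2 * fx (mL G a0) := by unfold fx; push_cast; ring
      rw [k2, k3] at k1
      linarith
    have m3 := front_mono' (E := g / 2 * τ ^ 2) hc hcD 3 hGa (by push_cast; exact hcond)
    have m1 := front_mono' (E := g / 2 * τ ^ 2) hc hcD 1 hGa (by
      push_cast; nlinarith [sq_nonneg D])
    -- exponent
    have hE2 : g / 2 * τ ^ 2 ≤ fx e2 := by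
      rw [he2, mul_comm]
      have h1 := mulU hC.hu.2 hC.hu.2 hτ
      have hg0 : 0 ≤ g / 2 := (fx_nonneg _).trans hP.hg.1
      have h2 := mulU h1 hP.hg.2 hg0
      rwa [pow_two]
    have hx1 : fx x ≤ B / D ^ 2 := by
      rw [hxe]
      exact divL hB1 hD2 (by positivity)
    have hE := expNegU (mulL hG (subL hx1 hE2 he))
    have hi1 : 1 / D ≤ fx (dU SC C.c.2) := by
      rw [hD]; exact divU (le_of_eq fx_one.symm) le_rfl hc1
    -- square root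
    have hVn1 : 1 + c ^ 2 / μ ^ 2 ≤ fx Vn := by
      rw [hVn]
      refine addU (le_of_eq fx_one.symm) ?_
      have h2 := mulU hC.hc2.2 (mulU hP.hN.2 hP.hN.2 (by positivity)) (by positivity)
      refine le_trans (le_of_eq ?_) h2
      field_simp
    have hq0 : 0 ≤ q := hP.hq.nonneg
    have hS : √(q * (1 + c ^ 2 / μ ^ 2) / (2 * F)) / 2 ≤ fx (sqU (mU P.q.2 (dU Vn f) / 2 + 1) / 2 + 1) := by
      apply half_up
      apply sqrtU
      have k1 := half_up (mulU hP.hq.2 (divU hVn1 hfF hf0) (by positivity))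
      refine le_trans (le_of_eq ?_) k1
      field_simp
    have hw1 : ν / (Γ * F) ≤ fx w := by
      rw [hw]
      exact divU hC.hn.2 (mulL hG hfF) hGf
    have hW : RFW μ c ν τ Γ ≤
        fx (mU C.t1.2 C.t1.2 + 2 * mU C.t1.2 (sqU (mU w 350008700000)) + (mU Vn w / 2 + 1)) := by
      unfold RFW
      rw [← hF]
      refine addU (addU ?_ ?_) ?_
      · rw [pow_two]; exact mulU hC.ht1.2 hC.ht1.2 (by positivity)
      · have k1 := mulU hC.ht1.2 (sqrtU (mulU hw1 inv_pi_le (by positivity))) (Real.sqrt_nonneg _)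
        have k2 := two_up k1
        rw [← mul_assoc] at k2
        exact k2
      · exact half_up (mulU hVn1 hw1 (by positivity))
    have hW0 : 0 ≤ RFW μ c ν τ Γ := by
      unfold RFW
      rw [← hF]
      positivity
    have e0 : RF0 μ q g c ν h τ Γ = √(q * (1 + c ^ 2 / μ ^ 2) / (2 * F)) / 2 *
        ((1 / c) ^ 1 * Real.exp (-(Γ * (B / c ^ 2 - g / 2 * τ ^ 2)))) := by
      unfold RF0
      rw [← hF, ← hB]
      ring
    refine ⟨?_, ?_, hGpos⟩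
    · rw [← ha, e0]
      have k1 := mulU (mulU hS hi1 (by positivity)) hE (Real.exp_pos _).le
      refine le_trans ?_ k1
      rw [mul_assoc]
      refine mul_le_mul_of_nonneg_left ?_ (by positivity)
      rw [pow_one, pow_one] at m1
      rw [pow_one]
      exact m1
    · rw [← ha', e0]
      have k1 := mulU (mulU (mulU hS (mulU hi1 (mulU hi1 hi1 (by positivity)) (by positivity))
        (by positivity)) hE (Real.exp_pos _).le) hW hW0
      refine le_trans ?_ k1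
      have e1 : √(q * (1 + c ^ 2 / μ ^ 2) / (2 * F)) / 2 *
          ((1 / c) ^ 1 * Real.exp (-(Γ * (B / c ^ 2 - g / 2 * τ ^ 2)))) * (RFW μ c ν τ Γ / c ^ 2) =
          √(q * (1 + c ^ 2 / μ ^ 2) / (2 * F)) / 2 * ((1 / c) ^ 3 *
            Real.exp (-(Γ * (B / c ^ 2 - g / 2 * τ ^ 2)))) * RFW μ c ν τ Γ := by
        ring
      rw [e1]
      refine mul_le_mul_of_nonneg_right ?_ hW0
      have e2 : 1 / D * (1 / D * (1 / D)) = (1 / D) ^ 3 := by ring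
      rw [e2, mul_assoc]
      exact mul_le_mul_of_nonneg_left m3 (by positivity)

end SokalCel
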