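import Pool.Agent.Lib_MP_af4de1_v3.CelRM
import Pool.Agent.Lib_MP_af4de1_v3.CelRB
import Pool.Agent.Lib_MP_af4de1_v3.CelRF
import Pool.Agent.Lib_MP_af4de1_v3.CelRI

/-!
# Right side: the sum of the other zones in scaled variables, and the three inequalities of a run

`b0 bW be`: rest and far (`UB` of `CenUReal`).  `RunP` is what a run proves for one point.
-/

set_option autoImplicit false

namespace SokalCel

/-- front present only for `t < 6/5` -/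
noncomputable def XF0 (μ q g c ν h τ Γ : ℝ) : ℝ :=
  if (1 + τ) * h < 6 / 5 then RF0 μ q g c ν h τ Γ else 0

noncomputable def XFW (μ q g c ν h τ Γ : ℝ) : ℝ :=
  if (1 + τ) * h < 6 / 5 then RF0 μ q g c ν h τ Γ * (RFW μ c ν τ Γ / c ^ 2) else 0

/-- `P SR0` -/
noncomputable def XS0 (μ q g c ν h τ Γ b : ℝ) : ℝ :=
  RB0 μ q g c ν h τ Γ + XF0 μ q g c ν h τ Γ + (RI0 μ q g c ν h τ Γ + RJ0 μ q g c ν h τ Γ) + b

/-- `P SRW R/h²` -/
noncomputable def XSW (μ q g c ν h τ Γ b : ℝ) : ℝ :=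
  RBW μ q g c ν h τ Γ + XFW μ q g c ν h τ Γ +
    (RI0 μ q g c ν h τ Γ * RIW μ c ν h τ Γ + RJ0 μ q g c ν h τ Γ * RJW μ c ν h τ Γ) + b

/-- `P SRe/Γ` -/
noncomputable def XSe (μ q g c ν h τ Γ b : ℝ) : ℝ :=
  RBE μ q g c ν h τ Γ + (XF0 μ q g c ν h τ Γ + (RI0 μ q g c ν h τ Γ + RJ0 μ q g c ν h τ Γ)) / Γ + b

/-- the three inequalities at a point; `β` is the curvature of the window at `t = (1+τ) h` -/
structure RunP (μ q k g c ν h τ Γ β b0 bW be f0 f1 f2 : ℝ) : Prop where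
  i0 : RM0 μ q g c ν h τ Γ β + XS0 μ q g c ν h τ Γ b0 ≤ f0
  i1 : √((RM0 μ q g c ν h τ Γ β + XS0 μ q g c ν h τ Γ b0) *
      (RMW μ q k g c ν h τ Γ β +
        (√(XSW μ q g c ν h τ Γ bW) + k * τ * √(XS0 μ q g c ν h τ Γ b0)) ^ 2)) ≤ f1
  i2 : RMW μ q k g c ν h τ Γ β +
        (√(XSW μ q g c ν h τ Γ bW) + k * τ * √(XS0 μ q g c ν h τ Γ b0)) ^ 2 +
      (RMe μ q g c ν h τ Γ β + XSe μ q g c ν h τ Γ be) ≤ f2

end SokalCel
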