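import Pool.Agent.Lib_MP_af4de1_v3.BrRI
import Pool.Agent.Lib_MP_af4de1_v3.RSum

/-!
# BRIDGE, right side, front: `fR0 fRW` of `CenTR` against `RF0 RFW` of `CelRF` (helper15)
-/

set_option autoImplicit false

namespace SokalCel

open Real SokalCen

theorem Rf_pos {μ ν : ℝ} (hμ : 1 ≤ μ) (hν : ν ≤ 1) : 0 < Rf μ ν := by
  unfold Rf
  have h1 : 0 < μ - 1 / 2 * ν := by linarith
  positivity

theorem aL_eqf {ρ s μ : ℝ} (hρ : 0 < ρ) (hs : 0 < s) (hμ : 0 < μ) :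
    aL (μ * s) ρ = Rf μ (ρ / s) * (1 / s) ^ 2 / (ρ / s) := by
  unfold aL Rf
  field_simp

section

variable {r ρ s h τ Γ : ℝ} (D : Dat r ρ s h τ Γ)

include D

/-- `r aL = Γ Rf/(ν h²)` -/
theorem Dat.fB {μ : ℝ} (hμ : 1 ≤ μ) :
    r * aL (μ * s) ρ = Γ * Rf μ (ρ / s) / (ρ / s * h ^ 2) := by
  have hμ0 : 0 < μ := by linarith
  have h1 := D.ρ0
  have h2 := D.s0
  have h3 := D.h0
  rw [aL_eqf h1 h2 hμ0, D.G]
  field_simp

/-- exponent -/
theorem Dat.fE {g : ℝ} :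
    exp (g / 2 * (Γ * τ ^ 2)) * exp (-(r * (1 - cos ((1 + τ) * h)))) =
      exp (-(Γ * ((1 + τ) ^ 2 * bq ((1 + τ) * h) / (1 / s) ^ 2 - g / 2 * τ ^ 2))) := by
  have h2 := D.s0
  have h3 := D.h0
  have ht : 0 < 1 + τ := by linarith [D.τ0]
  rw [← Real.exp_add, D.G]
  congr 1
  unfold bq
  obtain ⟨C, hC⟩ : ∃ C, C = 1 - cos ((1 + τ) * h) := ⟨_, rfl⟩
  obtain ⟨u, hu⟩ : ∃ u, u = 1 + τ := ⟨_, rfl⟩
  rw [← hC]
  rw [← hu] at ht ⊢
  field_simp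
  ring

/-- prefactor times the half Gaussian -/
theorem Dat.fH {μ g q : ℝ} (hμ : 1 ≤ μ) (hq : 0 ≤ q) :
    PS r ρ s g q τ Γ μ * (exp (-(r * (1 - cos ((1 + τ) * h)))) *
      (√(π / (r * aL (μ * s) ρ)) / 2)) = RF0 μ q g (1 / s) (ρ / s) h τ Γ := by
  have hμ0 : 0 < μ := by linarith
  have h1 := D.ρ0
  have h2 := D.s0
  have hRf := Rf_pos hμ D.ν1
  have hQ : 0 < Rf μ (ρ / s) * (1 / s) ^ 2 := by positivity
  have k1 := D.PQ (g := g) hμ hQ hq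
  rw [← aL_eqf h1 h2 hμ0] at k1
  have k2 : √(q * (1 + (1 / s) ^ 2 / μ ^ 2) / (2 * (Rf μ (ρ / s) * (1 / s) ^ 2))) =
      √(q * (1 + (1 / s) ^ 2 / μ ^ 2) / (2 * Rf μ (ρ / s))) * (1 / (1 / s)) := by
    have e : (1 / (1 / s)) = √((1 / (1 / s)) ^ 2) := (Real.sqrt_sq (by positivity)).symm
    rw [e, ← Real.sqrt_mul (by positivity)]
    congr 1
    field_simp
  have k3 := D.fE (g := g)
  unfold RF0
  rw [← k3]
  calc PS r ρ s g q τ Γ μ * (exp (-(r * (1 - cos ((1 + τ) * h)))) *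
        (√(π / (r * aL (μ * s) ρ)) / 2)) =
      (PS r ρ s g q τ Γ μ * √(π / (r * aL (μ * s) ρ))) *
        exp (-(r * (1 - cos ((1 + τ) * h)))) / 2 := by ring
    _ = _ := by
      rw [k1, k2]
      ring

/-- FRONT, `I0` -/
theorem Dat.frF0 {μ g q : ℝ} (hμ : 1 ≤ μ) (hq : 0 ≤ q) :
    PS r ρ s g q τ Γ μ * fR0 r (μ * s) ρ ((1 + τ) * h) ≤ XF0 μ q g (1 / s) (ρ / s) h τ Γ := by
  unfold fR0 XF0
  split_ifs with h1
  · rw [← D.fH hμ hq]
    refine mul_le_mul_of_nonneg_left ?_ (PS_nonneg r ρ s g q τ Γ μ)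
    exact mul_le_mul_of_nonneg_left (min_le_left _ _) (exp_pos _).le
  · rw [mul_zero]

/-- FRONT, `IW` -/
theorem Dat.frFW {μ g q : ℝ} (hμ : 1 ≤ μ) (hq : 0 ≤ q) :
    PS r ρ s g q τ Γ μ * fRW r (μ * s) ρ ((1 + τ) * h) ≤
      (h * (1 / s)) ^ 2 * XFW μ q g (1 / s) (ρ / s) h τ Γ := by
  unfold fRW XFW
  split_ifs with h1
  · rw [← D.fH hμ hq]
    have hμ0 : 0 < μ := by linarith
    have h1 := D.ρ0
    have h2 := D.s0
    have h3 := D.h0
    have h4 := D.r0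
    have hΓ := D.Γ0
    have hν := D.ν0
    have hRf := Rf_pos hμ D.ν1
    have hB0 : 0 < r * aL (μ * s) ρ := by
      rw [aL_eqf h1 h2 hμ0]
      positivity
    obtain ⟨B, hB⟩ : ∃ B, B = r * aL (μ * s) ρ := ⟨_, rfl⟩
    have hBe := D.fB hμ
    rw [← hB] at hBe hB0 ⊢
    obtain ⟨H, hH⟩ : ∃ H, H = √(π / B) / 2 := ⟨_, rfl⟩
    rw [← hH]
    have hπ := Real.pi_pos
    have hH0 : 0 < H := by rw [hH]; positivity
    -- the three integrals
    have e0 : SokalCen.h0 (frR r ((1 + τ) * h)) B ≤ H := by rw [hH]; exact min_le_left _ _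
    have e1 : SokalCen.h1 B = H * (h * √(ρ / s / (Γ * Rf μ (ρ / s)) * (1 / π))) := by
      unfold SokalCen.h1
      have k1 : h * √(ρ / s / (Γ * Rf μ (ρ / s)) * (1 / π)) = √(1 / (π * B)) := by
        have e : h = √(h ^ 2) := (Real.sqrt_sq h3.le).symm
        conv_lhs => rw [e]
        rw [← Real.sqrt_mul (by positivity), hBe]
        congr 1
        field_simp
      rw [k1, hH]
      have k2 : √(π / B) * √(1 / (π * B)) = 1 / B := by
        rw [← Real.sqrt_mul (by positivity)]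
        have : π / B * (1 / (π * B)) = (1 / B) ^ 2 := by field_simp
        rw [this, Real.sqrt_sq (by positivity)]
      calc 1 / (2 * B) = (1 / B) / 2 := by field_simp
        _ = (√(π / B) * √(1 / (π * B))) / 2 := by rw [k2]
        _ = _ := by ring
    have e2 : SokalCen.h2 B = H * (h ^ 2 * (ρ / s / (Γ * Rf μ (ρ / s))) / 2) := by
      unfold SokalCen.h2
      rw [hH]
      have k1 : h ^ 2 * (ρ / s / (Γ * Rf μ (ρ / s))) = 1 / B := by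
        rw [hBe]
        field_simp
      rw [k1]
      field_simp
      ring
    obtain ⟨S, hS⟩ : ∃ S, S = √(ρ / s / (Γ * Rf μ (ρ / s)) * (1 / π)) := ⟨_, rfl⟩
    obtain ⟨V, hV⟩ : ∃ V, V = ρ / s / (Γ * Rf μ (ρ / s)) := ⟨_, rfl⟩
    rw [← hS] at e1
    rw [← hV] at e2
    rw [e1, e2]
    have eW : (h * (1 / s)) ^ 2 * (RFW μ (1 / s) (ρ / s) τ Γ / (1 / s) ^ 2) =
        ((1 + τ) * h) ^ 2 + 2 * ((1 + τ) * h) * (h * S) +
          (1 + 1 / (μ * s) ^ 2) * (h ^ 2 * V / 2) := by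
      unfold RFW
      rw [← hS, ← hV]
      field_simp
    have hP := PS_nonneg r ρ s g q τ Γ μ
    obtain ⟨E, hE⟩ : ∃ E, E = exp (-(r * (1 - cos ((1 + τ) * h)))) := ⟨_, rfl⟩
    rw [← hE]
    have hE0 : 0 ≤ E := by rw [hE]; exact (exp_pos _).le
    have e3 : (h * (1 / s)) ^ 2 * (PS r ρ s g q τ Γ μ * (E * H) *
        (RFW μ (1 / s) (ρ / s) τ Γ / (1 / s) ^ 2)) = PS r ρ s g q τ Γ μ * (E *
        (H * ((h * (1 / s)) ^ 2 * (RFW μ (1 / s) (ρ / s) τ Γ / (1 / s) ^ 2)))) := by ring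
    rw [e3, eW]
    refine mul_le_mul_of_nonneg_left (mul_le_mul_of_nonneg_left ?_ hE0) hP
    have e4 := mul_le_mul_of_nonneg_left e0 (sq_nonneg ((1 + τ) * h))
    refine le_trans (add_le_add_left (add_le_add_left e4 _) _) (le_of_eq ?_)
    ring
  · rw [mul_zero, mul_zero]

end

end SokalCel
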