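import Pool.Agent.Lib_MP_af4de1_v3.CenTL
import Pool.Agent.Lib_MP_af4de1_v3.CenTR
import Pool.Agent.Lib_MP_af4de1_v3.V3e

/-!
# SHIFT, N-free forms (for field `e`): `shf_wK`, `shf_w1`, `shf_TL`, `shfR_cen` with a real `h > 0` instead
of `hst N`; `Shf` is homogeneous in `H` (`shf_scale`) and monotone (`shf_mono`)
-/

set_option autoImplicit false

namespace SokalCen

open MeasureTheory Set SokalU SokalF1 SokalF1S SokalF1M SokalV3

theorem shf_mono {r δ y ζ H f0 f1 f2 g0 g1 g2 : ℝ} (h : Shf r δ y ζ H f0 f1 f2) (hy : -1 < y)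
    (hH : 0 ≤ H) (h0 : f0 ≤ g0) (h1 : f1 ≤ g1) (h2 : f2 ≤ g2) : Shf r δ y ζ H g0 g1 g2 := by
  have hM := sM_pos (r := r) (δ := δ) hy
  refine ⟨h.s0.trans ?_, h.s1.trans ?_, h.s2.trans ?_⟩
  · gcongr
  · gcongr
  · gcongr

/-- homogeneity in `H` -/
theorem shf_scale {r δ y ζ H H' s f0 f1 f2 : ℝ} (h : Shf r δ y ζ H' f0 f1 f2) (hH : H' = s * H) :
    Shf r δ y ζ H f0 (f1 * s) (f2 * s ^ 2) := by
  subst hH
  refine ⟨h.s0, h.s1.trans (le_of_eq ?_), h.s2.trans (le_of_eq ?_)⟩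
  · ring
  · ring

private theorem sh_mmp (ρ : ℝ) : 0 < mm ρ := by
  unfold mm
  have : 0 < √(1 + ρ ^ 2) := Real.sqrt_pos.2 (by positivity)
  positivity

private theorem sh_RRp (r δ : ℝ) : 0 < RR r δ := by
  unfold RR
  positivity

/-- base point `K/ρ`, real `h` -/
theorem shf_wKh {r δ y η ζ g k q h I0 IW Ie f0 f1 f2 : ℝ} (hh : 0 < h) (hr : 0 < r)
    (hδ : 0 < δ) (hA : At r δ y η) (hL : Lev r δ y η g k q)
    (h0 : 0 ≤ I0) (hW : 0 ≤ IW) (hE : 0 ≤ Ie)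
    (Z : Zone r (mm (r * δ)) (r * δ) (η + ζ) (sK (r * δ) y / (r * δ : ℝ)) univ I0 IW Ie)
    (hf0 : PF r δ η g q * I0 ≤ f0)
    (hf1 : √(PF r δ η g q * I0 * (PF r δ η g q * IW * (RR r δ / h ^ 2))) ≤ f1)
    (hf2 : PF r δ η g q * IW * (RR r δ / h ^ 2) + PF r δ η g q * Ie / (r * h ^ 2 / RR r δ) ≤ f2) :
    Shf r δ y ζ (r * h / √(RR r δ)) f0 f1 f2 := by
  have hR := sh_RRp r δ
  have hsR : 0 < √(RR r δ) := Real.sqrt_pos.2 hR
  have hsq : √(RR r δ) ^ 2 = RR r δ := Real.sq_sqrt hR.le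
  have hP := PF_nonneg r δ η g q
  have e1 : LvF r δ η g q * √(1 + 1 / mm (r * δ) ^ 2) = PF r δ η g q := rfl
  set P := PF r δ η g q with hPd
  refine shf_zone (L := LvF r δ η g q) (m := mm (r * δ)) hr hδ hA hL (wb hr hδ (sh_mmp _)) le_rfl
    h0 hW hE Z ?_ ?_ ?_
  · rwa [e1]
  · rw [e1, Real.sqrt_mul h0]
    have e2 : √(P * I0 * (P * IW * (RR r δ / h ^ 2))) =
        P * (√I0 * √IW) * (√(RR r δ) / h) := by
      have e3 : P * I0 * (P * IW * (RR r δ / h ^ 2)) =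
          (P * (√I0 * √IW) * (√(RR r δ) / h)) ^ 2 := by
        rw [mul_pow, mul_pow, mul_pow, div_pow, hsq, Real.sq_sqrt h0, Real.sq_sqrt hW]
        ring
      rw [e3, Real.sqrt_sq (by positivity)]
    rw [e2] at hf1
    have e4 : P * (r * (√I0 * √IW)) = (P * (√I0 * √IW) * (√(RR r δ) / h)) *
        (r * h / √(RR r δ)) := by
      field_simp
    rw [e4]
    exact mul_le_mul_of_nonneg_right hf1 (by positivity)
  · rw [e1]
    have e4 : P * (r ^ 2 * IW + r * Ie) =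
        (P * IW * (RR r δ / h ^ 2) + P * Ie / (r * h ^ 2 / RR r δ)) * (r * h / √(RR r δ)) ^ 2 := by
      rw [div_pow, hsq]
      field_simp
    rw [e4]
    exact mul_le_mul_of_nonneg_right hf2 (by positivity)

/-- LEFT, real `h` -/
theorem shf_TLh {r δ y η ζ g k q h β B l f0 f1 f2 : ℝ} {v u : ℝ × ℝ × ℝ} (hh : 0 < h)
    (hr : 0 < r) (hδ : 0 < δ) (hA : At r δ y η) (hy : 0 ≤ y) (hL : Lev r δ y η g k q)
    (h0 : 0 < η + ζ) (h1 : η + ζ ≤ Real.pi) (hW : Win β (η + ζ))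
    (hLf : Lft (mm (r * δ)) (η + ζ) β B l)
    (hs : η + ζ ≤ 6 / 5 → 1 ≤ r * mm (r * δ) * Real.sin (η + ζ))
    (hv : Zn r (mm (r * δ)) (r * δ) (η + ζ) 1
      (Icc (2 * Real.pi - (η + ζ)) (2 * Real.pi - (η + ζ) + 6 / 5)) v)
    (hu : Zn r (mm (r * δ)) (r * δ) (η + ζ) 1 ({s | 6336 / 10000 ≤ 1 - Real.cos (η + ζ + s)} ∪
      Ici (2 * Real.pi - (η + ζ) + 5) ∪ Iic (-(η + ζ + 5))) u)
    (hf0 : PF r δ η g q * TL0 r (mm (r * δ)) (r * δ) (η + ζ) B l v u ≤ f0)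
    (hf1 : √(PF r δ η g q * TL0 r (mm (r * δ)) (r * δ) (η + ζ) B l v u *
      (PF r δ η g q * TLW r (mm (r * δ)) (r * δ) (η + ζ) B l v u (k * (|η| / √(RR r δ))) *
        (RR r δ / h ^ 2))) ≤ f1)
    (hf2 : PF r δ η g q * TLW r (mm (r * δ)) (r * δ) (η + ζ) B l v u (k * (|η| / √(RR r δ))) *
      (RR r δ / h ^ 2) + PF r δ η g q * TLE r (mm (r * δ)) (r * δ) (η + ζ) B l v u /
        (r * h ^ 2 / RR r δ) ≤ f2) :
    Shf r δ y ζ (r * h / √(RR r δ)) f0 f1 f2 := by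
  have hm : r * δ ≤ mm (r * δ) := by
    have := mm_ge' (ρ := r * δ)
    have := mul_pos hr hδ
    linarith
  obtain ⟨n0, n1, n2, Z⟩ := zoneTL hr hA hy hL hm mm_ge h0 h1 hW hLf hs hv hu
  exact shf_wKh hh hr hδ hA hL n0 n1 n2 Z hf0 hf1 hf2

/-- RIGHT, real `h` -/
theorem shfR_cenh {r δ y η ζ t g k q h F0 FW Fe f0 f1 f2 : ℝ} (hh : 0 < h) (hr : 0 < r)
    (hδ : 0 < δ) (hA : At r δ y η) (hy : y ≤ 0) (hL : Lev r δ y η g k q) (hk : 0 ≤ k)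
    (hθ : η + ζ = -t) (ht : 0 < t) (htp : t ≤ Real.pi) (hF0 : 0 ≤ F0) (hFW : 0 ≤ FW) (hFe : 0 ≤ Fe)
    (hF : Zone r (mm (r * δ)) (r * δ) (-t) 1 ({s | 6336 / 10000 ≤ 1 - Real.cos (-t + s)} ∪
      (Ici (t + 5) ∪ Iic (-(2 * Real.pi - t + 5)))) F0 FW Fe)
    (hf0 : PF r δ η g q * TR0 r (mm (r * δ)) (r * δ) t F0 ≤ f0)
    (hf1 : √(PF r δ η g q * TR0 r (mm (r * δ)) (r * δ) t F0 *
      (PF r δ η g q * TRW r (mm (r * δ)) (r * δ) t (k * |η| / √(RR r δ)) F0 FW *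
        (RR r δ / h ^ 2))) ≤ f1)
    (hf2 : PF r δ η g q * TRW r (mm (r * δ)) (r * δ) t (k * |η| / √(RR r δ)) F0 FW *
        (RR r δ / h ^ 2) +
      PF r δ η g q * TRe r (mm (r * δ)) (r * δ) t Fe / (r * h ^ 2 / RR r δ) ≤ f2) :
    Shf r δ y ζ (r * h / √(RR r δ)) f0 f1 f2 := by
  have hρ : 0 < r * δ := hA.dom.1
  have hR : √(1 + (r * δ) ^ 2) = √(RR r δ) := rfl
  have hsq1 : 1 ≤ √(1 + (r * δ) ^ 2) := by
    rw [show (1 : ℝ) = √1 by simp]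
    exact Real.sqrt_le_sqrt (by simp; positivity)
  have hsqρ : r * δ ≤ √(1 + (r * δ) ^ 2) :=
    Real.le_sqrt_of_sq_le (by linarith)
  have hm : r * δ ≤ mm (r * δ) := by
    unfold mm
    linarith
  have hm1 : 5 / 4 ≤ mm (r * δ) := by
    unfold mm
    linarith
  have hκ : 0 ≤ k * |η| / √(RR r δ) := by positivity
  have hw := w_sub hr hL
  rw [sK_ww hA.dom] at hw
  have hc : 0 ≤ -y := by linarith
  have hd : sP (r * δ) y ≤ 0 := sP_nonpos hρ hy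
  have hd2 : -(Real.pi / 2) ≤ sP (r * δ) y := (abs_le.1 (sP_abs_le (r * δ) y)).1
  have Z := zoneR hr hρ hm hm1 ht htp hc hd hd2 hκ hw hF0 hFW hFe hF
  have hp := pi_gt_d
  have ht' : 0 < 2 * Real.pi - t := by linarith
  have n0 := mR0_nonneg (q := r) hρ hm ht
  have n1 := bR0_nonneg hr hρ hm ht
  have n3 := bRe_nonneg hr hρ hm ht
  have n4 := fR0_nonneg (t := t) hr hρ hm
  have n6 := iL0_nonneg (q := r) hρ hm ht'
  have n8 := jL0_nonneg (q := r) (m := mm (r * δ)) (ρ := r * δ) (t := 2 * Real.pi - t)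
  have n9 := mRe_nonneg (q := r) hρ hm ht
  have n10 := mRW_nonneg hr hρ hm ht hκ
  have m0 : 0 ≤ TR0 r (mm (r * δ)) (r * δ) t F0 := by
    unfold TR0 SR0
    positivity
  have mW : 0 ≤ TRW r (mm (r * δ)) (r * δ) t (k * |η| / √(RR r δ)) F0 FW := by
    unfold TRW
    positivity
  have me : 0 ≤ TRe r (mm (r * δ)) (r * δ) t Fe := by
    unfold TRe SRe
    positivity
  rw [← hθ] at Z
  rw [← sK_ww hA.dom] at Z
  exact shf_wKh hh hr hδ hA hL m0 mW me Z hf0 hf1 hf2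

end SokalCen
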