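import Pool.Agent.Lib_MP_af4de1_v3.BrR2
import Pool.Agent.Lib_MP_af4de1_v3.ShfH

/-!
# From the total on the right (`CenTR`) to `Shf` in scaled variables, REAL `h > 0` (field `e`)

`BrR2.lean` with a real `h` instead of `hst N`, `Γ = r h²/R`, `H = r h/√R`.
-/

set_option autoImplicit false

namespace SokalCel

open Real MeasureTheory Set SokalCen SokalV3 SokalF1 SokalF1S SokalF1M

/-- the data -/
theorem dath {r δ h : ℝ} (hh : 0 < h) (hr : 0 < r) (hδ : 0 < δ) (η : ℝ) :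
    Dat r (r * δ) (√(RR r δ)) (h) (|η| / h) ((r * h ^ 2 / RR r δ)) := by
  have hR : 0 < RR r δ := by unfold RR; positivity
  refine ⟨hr, by positivity, Real.sqrt_pos.2 hR, ?_, hh, by positivity, ?_⟩
  · rw [Real.sq_sqrt hR.le]
    rfl
  · rw [Real.sq_sqrt hR.le]

theorem PF_eqh {r δ h : ℝ} (hh : 0 < h) (hr : 0 < r) (hδ : 0 < δ) (η g q : ℝ) :
    PF r δ η g q = PS r (r * δ) (√(RR r δ)) g q (|η| / h) ((r * h ^ 2 / RR r δ)) (5 / 4) := by
  have e1 : (r * h ^ 2 / RR r δ) * (|η| / h) ^ 2 = r * η ^ 2 / RR r δ := by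
    rw [div_pow, sq_abs]
    field_simp
  have e2 : mm (r * δ) = 5 / 4 * √(RR r δ) := rfl
  unfold PF LvF PS
  rw [e1, e2]

private theorem brh_gG (q A B : ℝ) : 0 ≤ gG q A B := Real.sqrt_nonneg _

private theorem brh_gv {A B t : ℝ} (hA : 0 < A) (hB : 0 < B) (ht : 0 ≤ t) : SokalCen.gv A B t ≤ t := by
  unfold SokalCen.gv
  rw [div_le_iff₀ (by positivity)]
  nlinarith [mul_nonneg hA.le ht]

private theorem brh_gr {q A B t : ℝ} (hA : 0 < A) (hB : 0 < B) (ht : 0 ≤ t) : 0 ≤ gr q A B t := by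
  have := brh_gG q A B
  have := brh_gv hA hB ht
  unfold gr
  exact le_min (by positivity) (by linarith)

private theorem brh_g0 {q A B t l : ℝ} (hA : 0 < A) (hB : 0 < B) (ht : 0 ≤ t) :
    0 ≤ g0 q A B t l := by
  have := brh_gG q A B
  have := brh_gr (q := q) hA hB ht
  unfold g0
  positivity

private theorem brh_gW {q A B t l a0 a1 a2 : ℝ} (hq : 0 < q) (hA : 0 < A) (hB : 0 < B)
    (ht : 0 ≤ t) (h0 : 0 ≤ a0) (h1 : 0 ≤ a1) (h2 : 0 ≤ a2) : 0 ≤ gW q A B t l a0 a1 a2 := by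
  have hG := brh_gG q A B
  have hs : 0 ≤ SokalCen.gs q A B := by unfold SokalCen.gs; positivity
  have hr := brh_gr (q := q) hA hB ht
  have hv := brh_gv hA hB ht
  have hv' : 0 ≤ t - SokalCen.gv A B t := by linarith
  unfold gW
  refine mul_nonneg (le_min ?_ ?_) (exp_pos _).le
  · positivity
  · positivity

/-- THE THREE INEQUALITIES, right side. -/
theorem shfR_ofh {r δ y η ζ g k q h f0 f1 f2 F0 FW Fe S0 SW Se : ℝ} (hh : 0 < h) (hr : 0 < r)
    (hδ : 0 < δ) (hA : At r δ y η) (hL : Lev r δ y η g k q) (hk : 0 ≤ k) (hq : 0 ≤ q)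
    (hS0 : 0 ≤ SR0 r (mm (r * δ)) (r * δ) ((1 + |η| / h) * h) F0)
    (hSW : 0 ≤ SRW r (mm (r * δ)) (r * δ) ((1 + |η| / h) * h) FW)
    (hSe : 0 ≤ SRe r (mm (r * δ)) (r * δ) ((1 + |η| / h) * h) Fe)
    (Z : Zone r (mm (r * δ)) (r * δ) (η + ζ) (sK (r * δ) y / (r * δ : ℝ)) univ
      (TR0 r (mm (r * δ)) (r * δ) ((1 + |η| / h) * h) F0)
      (TRW r (mm (r * δ)) (r * δ) ((1 + |η| / h) * h) (k * (|η| / √(RR r δ))) F0 FW)
      (TRe r (mm (r * δ)) (r * δ) ((1 + |η| / h) * h) Fe))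
    (b0 : PF r δ η g q * SR0 r (mm (r * δ)) (r * δ) ((1 + |η| / h) * h) F0 ≤ S0)
    (bW : PF r δ η g q * SRW r (mm (r * δ)) (r * δ) ((1 + |η| / h) * h) FW *
      (RR r δ / h ^ 2) ≤ SW)
    (be : PF r δ η g q * SRe r (mm (r * δ)) (r * δ) ((1 + |η| / h) * h) Fe / (r * h ^ 2 / RR r δ) ≤ Se)
    (hf0 : RM0 (5 / 4) q g (1 / √(RR r δ)) (r * δ / √(RR r δ)) (h) (|η| / h) ((r * h ^ 2 / RR r δ))
      (bet ((1 + |η| / h) * h)) + S0 ≤ f0)
    (hf1 : √((RM0 (5 / 4) q g (1 / √(RR r δ)) (r * δ / √(RR r δ)) (h) (|η| / h)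
        ((r * h ^ 2 / RR r δ)) (bet ((1 + |η| / h) * h)) + S0) *
      (RMW (5 / 4) q k g (1 / √(RR r δ)) (r * δ / √(RR r δ)) (h) (|η| / h)
        ((r * h ^ 2 / RR r δ)) (bet ((1 + |η| / h) * h)) +
        (√SW + k * (|η| / h) * √S0) ^ 2)) ≤ f1)
    (hf2 : RMW (5 / 4) q k g (1 / √(RR r δ)) (r * δ / √(RR r δ)) (h) (|η| / h)
        ((r * h ^ 2 / RR r δ)) (bet ((1 + |η| / h) * h)) +
        (√SW + k * (|η| / h) * √S0) ^ 2 +
      (RMe (5 / 4) q g (1 / √(RR r δ)) (r * δ / √(RR r δ)) (h) (|η| / h)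
        ((r * h ^ 2 / RR r δ)) (bet ((1 + |η| / h) * h)) + Se) ≤ f2) :
    Shf r δ y ζ ((r * h / √(RR r δ))) f0 f1 f2 := by
  have D := dath hh hr hδ η
  have hs := D.s0
  have hs2 : √(RR r δ) ^ 2 = RR r δ := Real.sq_sqrt (by unfold RR; positivity)
  have hR : 0 < RR r δ := by unfold RR; positivity
  have hΓ := D.Γ0
  have ht : 0 < (1 + |η| / h) * h := D.t0
  have hβ := bet_pos ht
  have hPF := PF_nonneg r δ η g q
  have em : mm (r * δ) = 5 / 4 * √(RR r δ) := rfl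
  have m1 := D.main0 (μ := 5 / 4) (g := g) (q := q) (by norm_num) hβ hq
  have m2 := D.mainW (μ := 5 / 4) (g := g) (q := q) (kk := k) (by norm_num) hβ hq
  have m3 := D.mainE (μ := 5 / 4) (g := g) (q := q) (by norm_num) hβ hq
  rw [← PF_eqh hh hr hδ η g q] at m1 m2 m3
  have eκ : k * (|η| / h) * (h * (1 / √(RR r δ))) = k * (|η| / √(RR r δ)) := by
    field_simp
  rw [eκ] at m2
  have e0 : PF r δ η g q * mR0 r (mm (r * δ)) (r * δ) ((1 + |η| / h) * h) =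
      RM0 (5 / 4) q g (1 / √(RR r δ)) (r * δ / √(RR r δ)) (h) (|η| / h)
        ((r * h ^ 2 / RR r δ)) (bet ((1 + |η| / h) * h)) := m1
  have eW : PF r δ η g q * mRW r (mm (r * δ)) (r * δ) ((1 + |η| / h) * h)
      (k * (|η| / √(RR r δ))) = (h * (1 / √(RR r δ))) ^ 2 *
      RMW (5 / 4) q k g (1 / √(RR r δ)) (r * δ / √(RR r δ)) (h) (|η| / h)
        ((r * h ^ 2 / RR r δ)) (bet ((1 + |η| / h) * h)) := m2
  have eE : PF r δ η g q * mRe r (mm (r * δ)) (r * δ) ((1 + |η| / h) * h) =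
      (r * h ^ 2 / RR r δ) * RMe (5 / 4) q g (1 / √(RR r δ)) (r * δ / √(RR r δ)) (h) (|η| / h)
        ((r * h ^ 2 / RR r δ)) (bet ((1 + |η| / h) * h)) := m3
  set t := (1 + |η| / h) * h with htd
  set M0 := RM0 (5 / 4) q g (1 / √(RR r δ)) (r * δ / √(RR r δ)) (h) (|η| / h)
        ((r * h ^ 2 / RR r δ)) (bet t) with hM0
  set MW := RMW (5 / 4) q k g (1 / √(RR r δ)) (r * δ / √(RR r δ)) (h) (|η| / h)
        ((r * h ^ 2 / RR r δ)) (bet t) with hMW
  set Me := RMe (5 / 4) q g (1 / √(RR r δ)) (r * δ / √(RR r δ)) (h) (|η| / h)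
        ((r * h ^ 2 / RR r δ)) (bet t) with hMe
  set P := PF r δ η g q with hP
  set A0 := SR0 r (mm (r * δ)) (r * δ) t F0 with hA0
  set AW := SRW r (mm (r * δ)) (r * δ) t FW with hAW
  set Ae := SRe r (mm (r * δ)) (r * δ) t Fe with hAe
  have hgG : ∀ q A B : ℝ, 0 ≤ gG q A B := fun q A B => Real.sqrt_nonneg _
  -- nonnegativity of the main part
  have n0 : 0 ≤ mR0 r (mm (r * δ)) (r * δ) t := by
    unfold mR0
    exact brh_g0 (AR_pos D.ρ0 (by rw [em]; linarith [D.ρs, D.ρ0]) ht) hβ ht.le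
  have nW : 0 ≤ mRW r (mm (r * δ)) (r * δ) t (k * (|η| / √(RR r δ))) := by
    unfold mRW
    have : 0 ≤ k * (|η| / √(RR r δ)) := by positivity
    exact brh_gW D.r0 (AR_pos D.ρ0 (by rw [em]; linarith [D.ρs, D.ρ0]) ht) hβ ht.le (by positivity)
      (by positivity) (by positivity)
  have nE : 0 ≤ mRe r (mm (r * δ)) (r * δ) t := by
    unfold mRe
    positivity
  have hκ : 0 ≤ k * (|η| / √(RR r δ)) := by positivity
  have hkτ : 0 ≤ k * (|η| / h) := by positivity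
  have s0' : 0 ≤ S0 := le_trans (by positivity) b0
  have sW' : 0 ≤ SW := le_trans (by positivity) bW
  have se' : 0 ≤ Se := le_trans (by positivity) be
  have hM0n : 0 ≤ M0 := by rw [← e0]; positivity
  have hMWn : 0 ≤ MW := by
    have h1 : 0 < (h * (1 / √(RR r δ))) ^ 2 := by positivity
    have h2 : 0 ≤ (h * (1 / √(RR r δ))) ^ 2 * MW := by rw [← eW]; positivity
    exact nonneg_of_mul_nonneg_right h2 h1
  -- the totals in units
  have t0 : P * TR0 r (mm (r * δ)) (r * δ) t F0 ≤ M0 + S0 := by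
    unfold TR0
    rw [mul_add, e0]
    linarith
  have tW : P * TRW r (mm (r * δ)) (r * δ) t (k * (|η| / √(RR r δ))) F0 FW *
      (RR r δ / h ^ 2) ≤ MW + (√SW + k * (|η| / h) * √S0) ^ 2 := by
    unfold TRW
    rw [← hA0, ← hAW, mul_add, add_mul, eW]
    have e5 : (h * (1 / √(RR r δ))) ^ 2 * MW * (RR r δ / h ^ 2) = MW := by
      have e6 : (h * (1 / √(RR r δ))) ^ 2 = h ^ 2 / RR r δ := by
        rw [mul_pow, div_pow, hs2]
        ring
      rw [e6]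
      field_simp
    rw [e5]
    have e7 : P * (√AW + k * (|η| / √(RR r δ)) * √A0) ^ 2 * (RR r δ / h ^ 2) =
        (√(P * AW * (RR r δ / h ^ 2)) + k * (|η| / h) * √(P * A0)) ^ 2 := by
      have e8 : √(P * AW * (RR r δ / h ^ 2)) = √P * √AW * (√(RR r δ) / h) := by
        rw [Real.sqrt_mul (by positivity), Real.sqrt_mul hPF, Real.sqrt_div hR.le,
          Real.sqrt_sq hh.le]
      have e9 : √(P * A0) = √P * √A0 := Real.sqrt_mul hPF _
      rw [e8, e9]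
      have e10 : √P ^ 2 = P := Real.sq_sqrt hPF
      have e11 : √P * √AW * (√(RR r δ) / h) + k * (|η| / h) * (√P * √A0) =
          √P * (√(RR r δ) / h) * (√AW + k * (|η| / √(RR r δ)) * √A0) := by
        field_simp
      rw [e11, mul_pow, mul_pow, e10, div_pow, hs2]
      ring
    rw [e7]
    have e12 : √(P * AW * (RR r δ / h ^ 2)) ≤ √SW := Real.sqrt_le_sqrt bW
    have e13 : √(P * A0) ≤ √S0 := Real.sqrt_le_sqrt b0
    have e14 : √(P * AW * (RR r δ / h ^ 2)) + k * (|η| / h) * √(P * A0) ≤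
        √SW + k * (|η| / h) * √S0 :=
      add_le_add e12 (mul_le_mul_of_nonneg_left e13 hkτ)
    have e15 := pow_le_pow_left₀ (by positivity) e14 2
    linarith
  have te : P * TRe r (mm (r * δ)) (r * δ) t Fe / (r * h ^ 2 / RR r δ) ≤ Me + Se := by
    unfold TRe
    rw [mul_add, add_div, eE, ← hAe, mul_div_cancel_left₀ _ hΓ.ne']
    linarith
  have nT0 : 0 ≤ TR0 r (mm (r * δ)) (r * δ) t F0 := by
    unfold TR0
    exact add_nonneg n0 hS0
  have nTW : 0 ≤ TRW r (mm (r * δ)) (r * δ) t (k * (|η| / √(RR r δ))) F0 FW := by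
    unfold TRW
    positivity
  have nTe : 0 ≤ TRe r (mm (r * δ)) (r * δ) t Fe := by
    unfold TRe
    exact add_nonneg nE hSe
  refine shf_wKh hh hr hδ hA hL nT0 nTW nTe Z (t0.trans hf0) ?_ ?_
  · refine le_trans (Real.sqrt_le_sqrt ?_) hf1
    exact mul_le_mul t0 tW (by positivity) (by positivity)
  · linarith
 
end SokalCel
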