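import Pool.Agent.Lib_MP_af4de1_v3.CelInt

/-!
# Cells: last step of a run

Scaled units: `M0, MW, Me` main part, `O0, OW, Oe` all other parts (base point 1, one triangle inequality with
`k τ`).
-/

set_option autoImplicit false

namespace SokalCel

open SokalFN

/-- the last step: `t0, t1, t2` are the targets -/
def fin (k u m0 mW me o0 oW oe t0 t1 t2 : ℕ) : Bool :=
  let s0 := m0 + o0
  let q := sqU oW + mU (mU k u) (sqU o0)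
  let sw := mW + mU q q
  Nat.ble s0 t0 && Nat.ble (mU s0 sw) (mL t1 t1) && Nat.ble (sw + (me + oe)) t2

theorem fin_sound {κ τ M0 MW Me O0 OW Oe : ℝ} {k u m0 mW me o0 oW oe t0 t1 t2 : ℕ}
    (hκ : 0 ≤ κ) (hτ : 0 ≤ τ) (hk : κ ≤ fx k) (hu : τ ≤ fx u) (hM0 : 0 ≤ M0) (hO0 : 0 ≤ O0)
    (hMW : 0 ≤ MW) (h1 : M0 ≤ fx m0) (h2 : MW ≤ fx mW) (h3 : Me ≤ fx me) (h4 : O0 ≤ fx o0)
    (h5 : OW ≤ fx oW) (h6 : Oe ≤ fx oe) (h : fin k u m0 mW me o0 oW oe t0 t1 t2 = true) :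
    M0 + O0 ≤ fx t0 ∧ √((M0 + O0) * (MW + (√OW + κ * τ * √O0) ^ 2)) ≤ fx t1 ∧
      MW + (√OW + κ * τ * √O0) ^ 2 + (Me + Oe) ≤ fx t2 := by
  unfold fin at h
  simp only [Bool.and_eq_true, Nat.ble_eq] at h
  obtain ⟨⟨a0, a1⟩, a2⟩ := h
  have b0 : M0 + O0 ≤ fx (m0 + o0) := addU h1 h4
  have b1 : √OW + κ * τ * √O0 ≤ fx (sqU oW + mU (mU k u) (sqU o0)) :=
    addU (sqrtU h5) (mulU (mulU hk hu hτ) (sqrtU h4) (Real.sqrt_nonneg _))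
  have b2 : 0 ≤ √OW + κ * τ * √O0 := by positivity
  have b3 : (√OW + κ * τ * √O0) ^ 2 ≤ fx (mU (sqU oW + mU (mU k u) (sqU o0))
      (sqU oW + mU (mU k u) (sqU o0))) := by
    rw [pow_two]
    exact mulU b1 b1 b2
  have b4 : MW + (√OW + κ * τ * √O0) ^ 2 ≤ fx (mW + mU (sqU oW + mU (mU k u) (sqU o0))
      (sqU oW + mU (mU k u) (sqU o0))) := addU h2 b3
  have b5 : 0 ≤ MW + (√OW + κ * τ * √O0) ^ 2 := by positivity
  refine ⟨b0.trans (fx_mono a0), ?_, (addU b4 (addU h3 h6)).trans (fx_mono a2)⟩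
  have b6 := mulU b0 b4 b5
  have b7 : (M0 + O0) * (MW + (√OW + κ * τ * √O0) ^ 2) ≤ fx t1 * fx t1 :=
    b6.trans ((fx_mono a1).trans (mL_le t1 t1))
  rw [Real.sqrt_le_left (fx_nonneg _), pow_two (fx t1)]
  exact b7

end SokalCel
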