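import Pool.Agent.Lib_MP_af4de1_v3.CelCore

/-!
# Cells, intervals: `Mem x a`, `a = (lower, upper)`, and the operations
-/

set_option autoImplicit false

namespace SokalCel

open SokalFN

/-- an interval -/
abbrev I := ℕ × ℕ

/-- membership -/
def Mem (x : ℝ) (a : I) : Prop := fx a.1 ≤ x ∧ x ≤ fx a.2

theorem Mem.nonneg {x : ℝ} {a : I} (h : Mem x a) : 0 ≤ x := (fx_nonneg _).trans h.1

/-- product -/
def im (a b : I) : I := (mL a.1 b.1, mU a.2 b.2)
/-- quotient (needs `0 < b.1`) -/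
def id' (a b : I) : I := (dL a.1 b.2, dU a.2 b.1)
/-- sum -/
def ia (a b : I) : I := (a.1 + b.1, a.2 + b.2)
/-- difference (for nonnegative values) -/
def is' (a b : I) : I := (a.1 - b.2, a.2 - b.1)
/-- square root -/
def isq (a : I) : I := (sqL a.1, sqU a.2)
/-- `exp (-x)` -/
def ien (a : I) : I := (eNL a.2, eN a.1)
/-- `exp x` (needs `0 < eNL a.2`) -/
def iep (a : I) : I := (eL a.1, dU SC (eNL a.2))
/-- minimum -/
def imn (a b : I) : I := (min a.1 b.1, min a.2 b.2)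
/-- maximum -/
def imx (a b : I) : I := (max a.1 b.1, max a.2 b.2)

theorem Mem.mul {x y : ℝ} {a b : I} (hx : Mem x a) (hy : Mem y b) : Mem (x * y) (im a b) :=
  ⟨mulL hx.1 hy.1, mulU hx.2 hy.2 hy.nonneg⟩

theorem Mem.div {x y : ℝ} {a b : I} (hx : Mem x a) (hy : Mem y b) (h : 0 < b.1) :
    Mem (x / y) (id' a b) :=
  ⟨divL hx.1 hy.2 ((fx_pos h).trans_le hy.1), divU hx.2 hy.1 h⟩

theorem Mem.add {x y : ℝ} {a b : I} (hx : Mem x a) (hy : Mem y b) : Mem (x + y) (ia a b) :=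
  ⟨addL hx.1 hy.1, addU hx.2 hy.2⟩

theorem Mem.sub {x y : ℝ} {a b : I} (hx : Mem x a) (hy : Mem y b) (h : y ≤ x) :
    Mem (x - y) (is' a b) := by
  refine ⟨?_, subU hx.2 hy.1⟩
  rcases le_total b.2 a.1 with h1 | h1
  · exact subL hx.1 hy.2 h1
  · have e : a.1 - b.2 = 0 := by omega
    show fx (a.1 - b.2) ≤ x - y
    rw [e, fx_zero]
    linarith

theorem Mem.sqrt {x : ℝ} {a : I} (hx : Mem x a) : Mem (√x) (isq a) := ⟨sqrtL hx.1, sqrtU hx.2⟩

theorem Mem.expn {x : ℝ} {a : I} (hx : Mem x a) : Mem (Real.exp (-x)) (ien a) :=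
  ⟨eNL_le hx.2, expNegU hx.1⟩

theorem Mem.expp {x : ℝ} {a : I} (hx : Mem x a) (h : 0 < eNL a.2) : Mem (Real.exp x) (iep a) :=
  ⟨expLo hx.1, expUp hx.2 h⟩

theorem Mem.min {x y : ℝ} {a b : I} (hx : Mem x a) (hy : Mem y b) : Mem (min x y) (imn a b) :=
  ⟨minL hx.1 hy.1, minU hx.2 hy.2⟩

theorem Mem.max {x y : ℝ} {a b : I} (hx : Mem x a) (hy : Mem y b) : Mem (max x y) (imx a b) :=
  ⟨by
    show fx (Max.max a.1 b.1) ≤ Max.max x y
    rcases le_total a.1 b.1 with h | h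
    · rw [max_eq_right h]; exact hy.1.trans (le_max_right _ _)
    · rw [max_eq_left h]; exact hx.1.trans (le_max_left _ _), maxU hx.2 hy.2⟩

/-- constants `p / q` -/
def ic (p q : ℕ) : I := (p * SC / q, p * SC / q + 1)

theorem Mem.const (p q : ℕ) (hq : 0 < q) : Mem ((p : ℝ) / q) (ic p q) := by
  have hq' : (0 : ℝ) < q := by exact_mod_cast hq
  constructor
  · have h := fx_div (p * SC) q hq
    refine h.trans (le_of_eq ?_)
    unfold fx SC
    push_cast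
    field_simp
  · have h := fx_divU (p * SC) q hq
    refine le_trans (le_of_eq ?_) h
    unfold fx SC
    push_cast
    field_simp

theorem Mem.nat (p : ℕ) : Mem (p : ℝ) (p * SC, p * SC) := by
  have : fx (p * SC) = p := by unfold fx SC; push_cast; field_simp
  exact ⟨this.le, this.ge⟩

theorem Mem.one : Mem 1 (SC, SC) := by
  rw [Mem, fx_one]; exact ⟨le_rfl, le_rfl⟩

theorem Mem.sq {x : ℝ} {a : I} (hx : Mem x a) : Mem (x ^ 2) (im a a) := by
  rw [pow_two]; exact hx.mul hx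

/-- `√(1 - x²)` -/
def ico (a : I) : I := isq (is' (SC, SC) (im a a))

theorem Mem.co {x y : ℝ} {a : I} (hx : Mem x a) (h : x ^ 2 + y ^ 2 = 1) (hy : 0 ≤ y) :
    Mem y (ico a) := by
  have e : y = √(1 - x ^ 2) := by
    rw [show 1 - x ^ 2 = y ^ 2 by linarith, Real.sqrt_sq hy]
  rw [e]
  refine (Mem.one.sub hx.sq ?_).sqrt
  nlinarith [sq_nonneg y]

/-- `b(θ) = (1 - cos θ)/θ²` -/
def ib (a : I) : I := (bL a.2, bU a.1)

theorem Mem.bq {θ : ℝ} {a : I} (hx : Mem θ a) (h0 : 0 < θ) (h1 : θ ^ 2 ≤ 15)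
    (hp : (mU a.2 a.2 / 24 + 1 + (mU (mU (mU a.2 a.2) (mU a.2 a.2)) (mU a.2 a.2) / 40320 + 1)) ≤
      549755813888 + mL (mU a.2 a.2) (mU a.2 a.2) / 720) : Mem (bq θ) (ib a) :=
  ⟨bL_le h0 hx.2 hp, le_bU h0 hx.1 h1⟩

end SokalCel
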