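import Pool.Agent.Lib_MP_af4de1_v3.CelInt

/-!
# Cells, left side: main part in scaled variables

`c = 1/√R`, `ν = ρ/√R`, `m = μ √R`, `t = (1+τ) h`, `T = t/m = (1+τ) h c/μ`, `a = ν α = (μ - ν/2)/μ²/max 1 T`
(`A = α c²`), `B = β e^(-σT)`, `Q = a c² + ν B`.
-/

set_option autoImplicit false

namespace SokalCel

open SokalFN

/-- `ν` times the quadratic coefficient over `c²` -/
noncomputable def La (μ ν T : ℝ) : ℝ := (μ - ν / 2) / μ ^ 2 / max 1 T

/-- exponent over `Γ (1+τ)²` -/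
noncomputable def LZ (μ c ν t T β σ : ℝ) : ℝ :=
  1 / (c ^ 2 / (β * Real.exp (-(σ * T))) + ν / La μ ν T) -
    4 / 27 * (1 - σ) ^ 3 * (t * (β * Real.exp (-(σ * T))) / (μ * c))

/-- `Q` -/
noncomputable def LQ (μ c ν T β σ : ℝ) : ℝ := La μ ν T * c ^ 2 + ν * (β * Real.exp (-(σ * T)))

/-- main part, `m0` -/
noncomputable def LM0 (μ q g c ν h τ Γ β σ : ℝ) : ℝ :=
  √(q * (1 + c ^ 2 / μ ^ 2) / (2 * LQ μ c ν ((1 + τ) * h * c / μ) β σ)) *
    Real.exp (-(Γ * ((1 + τ) ^ 2 * LZ μ c ν ((1 + τ) * h) ((1 + τ) * h * c / μ) β σ - g / 2 * τ ^ 2)))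

/-- weight of the main part (mean of `W R/h²`) -/
noncomputable def LMW (μ kk c ν h τ Γ β σ : ℝ) : ℝ :=
  kk ^ 2 * τ ^ 2 + (1 + τ) ^ 2 *
    ((ν * (β * Real.exp (-(σ * ((1 + τ) * h * c / μ)))) / LQ μ c ν ((1 + τ) * h * c / μ) β σ) ^ 2 / μ ^ 2 +
     (La μ ν ((1 + τ) * h * c / μ) * c / LQ μ c ν ((1 + τ) * h * c / μ) β σ) ^ 2) +
    (1 + c ^ 2 / μ ^ 2) * ν / (2 * Γ * LQ μ c ν ((1 + τ) * h * c / μ) β σ)

/-! ### intervals; `M`, `IM`: intervals of `μ`, `1/μ` -/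

/-- constants of a run -/
structure Par where
  /-- `μ` -/
  M : I
  /-- `1/μ` -/
  N : I
  /-- `q` -/
  q : I
  /-- `g/2` -/
  g : I
  /-- `kk` -/
  k : I

/-- the constants are right -/
structure Par.Ok (P : Par) (μ q g kk : ℝ) : Prop where
  hM : Mem μ P.M
  hN : Mem (1 / μ) P.N
  hq : Mem q P.q
  hg : Mem (g / 2) P.g
  hk : Mem kk P.k
  pos : 0 < μ
  le : 1 ≤ μ

/-- `a` -/
def xa (P : Par) (n T : I) : I :=
  im (im (im (is' P.M (n.1 / 2, n.2 / 2 + 1)) P.N) P.N) (id' (SC, SC) (imx (SC, SC) T))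

theorem mem_half {x : ℝ} {a : I} (h : Mem x a) : Mem (x / 2) (a.1 / 2, a.2 / 2 + 1) := by
  constructor
  · have h1 := fx_div a.1 2 (by norm_num)
    have h2 := h.1
    push_cast at h1
    show fx (a.1 / 2) ≤ x / 2
    linarith
  · have h1 := fx_divU a.2 2 (by norm_num)
    have h2 := h.2
    push_cast at h1
    show x / 2 ≤ fx (a.2 / 2 + 1)
    linarith

theorem mem_xa {P : Par} {μ q g kk ν T : ℝ} {n t : I} (hP : P.Ok μ q g kk) (hn : Mem ν n)
    (hT : Mem T t) (hν : ν ≤ 1) : Mem (La μ ν T) (xa P n t) := by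
  have h1 := ((hP.hM.sub (mem_half hn) (by linarith [hP.le])).mul hP.hN).mul hP.hN
  have h2 := Mem.one.div (Mem.one.max hT) (b := imx (SC, SC) t) (by
    show 0 < max SC t.1
    exact lt_of_lt_of_le (by norm_num) (le_max_left _ _))
  have h3 := h1.mul h2
  have e : La μ ν T = (μ - ν / 2) * (1 / μ) * (1 / μ) * (1 / max 1 T) := by
    unfold La
    have := hP.pos
    have h4 : (0 : ℝ) < max 1 T := lt_max_of_lt_left one_pos
    field_simp
  rw [e]
  exact h3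

/-- data of a cell which do not depend on `σ` -/
structure Cl where
  c : I
  n : I
  h : I
  u : I
  t1 : I
  t : I
  T : I
  a : I
  c2 : I

/-- the data of a cell -/
def mk (P : Par) (c n h u : I) : Cl :=
  let t1 := ia (SC, SC) u
  let t := im t1 h
  let T := im (im t c) P.N
  { c := c, n := n, h := h, u := u, t1 := t1, t := t, T := T, a := xa P n T, c2 := im c c }

/-- the cell contains the point -/
structure Cl.Has (C : Cl) (μ c ν h τ : ℝ) : Prop where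
  hc : Mem c C.c
  hn : Mem ν C.n
  hh : Mem h C.h
  hu : Mem τ C.u
  ht1 : Mem (1 + τ) C.t1
  ht : Mem ((1 + τ) * h) C.t
  hT : Mem ((1 + τ) * h * c / μ) C.T
  ha : Mem (La μ ν ((1 + τ) * h * c / μ)) C.a
  hc2 : Mem (c ^ 2) C.c2

theorem mk_has {P : Par} {μ q g kk c ν h τ : ℝ} {ci ni hi ui : I} (hP : P.Ok μ q g kk)
    (hc : Mem c ci) (hn : Mem ν ni) (hh : Mem h hi) (hu : Mem τ ui) (hν : ν ≤ 1) :
    (mk P ci ni hi ui).Has μ c ν h τ := by
  have h1 := Mem.one.add hu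
  have h2 := h1.mul hh
  have h3 : Mem ((1 + τ) * h * c / μ) (im (im (im (ia (SC, SC) ui) hi) ci) P.N) := by
    have := (h2.mul hc).mul hP.hN
    rwa [mul_one_div] at this
  exact ⟨hc, hn, hh, hu, h1, h2, h3, mem_xa hP hn h3 hν, hc.sq⟩

/-- `B` -/
def xB (C : Cl) (b : I) (s : ℕ) : I := im b (ien (im (s, s) C.T))

/-- the main part: `(m0, W)`, upper bounds; `G` lower bound of `Γ`, `s` = `σ`, `B` = interval of `B` -/
def xm (P : Par) (C : Cl) (B : I) (s G : ℕ) : Option (ℕ × ℕ) :=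
  let Q := ia (im C.a C.c2) (im C.n B)
  let Y := ia (id' C.c2 B) (id' C.n C.a)
  let Z := id' (SC, SC) Y
  let s1 := SC - s
  let pen := bif Nat.ble SC s then 0 else
    mU (mU (mU (mU (mU s1 s1) s1) 162890611523) (mU (mU C.t.2 B.2) P.N.2)) (dU SC C.c.1)
  let e1 := mL (mL C.t1.1 C.t1.1) (Z.1 - pen)
  let e2 := mU (mU C.u.2 C.u.2) P.g.2
  let V := mU (SC + mU C.c2.2 (mU P.N.2 P.N.2)) (dU SC Q.1)
  bif Nat.blt 0 B.1 && Nat.blt 0 C.a.1 && Nat.blt 0 Y.1 && Nat.blt 0 Q.1 && (Nat.ble SC s || Nat.blt 0 C.c.1) &&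
      Nat.ble s SC && Nat.ble pen Z.1 && Nat.ble e2 e1 && Nat.blt 0 G then
    let l := dU (mU C.n.2 B.2) Q.1
    let o := dU (mU C.a.2 C.c.2) Q.1
    some (mU (sqU (mU P.q.2 V / 2 + 1)) (eN (mL G (e1 - e2))),
      mU (mU P.k.2 C.u.2) (mU P.k.2 C.u.2) +
      mU (mU C.t1.2 C.t1.2) (mU (mU l l) (mU P.N.2 P.N.2) + mU o o) +
      (mU (mU C.n.2 V) (dU SC G) / 2 + 1))
  else none

theorem blt_iff {a b : ℕ} : Nat.blt a b = true ↔ a < b := by
  simp [Nat.blt, Nat.ble_eq]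

theorem xm_sound {P : Par} {μ q g kk c ν h τ Γ β σ : ℝ} (hP : P.Ok μ q g kk) {C : Cl}
    (hC : C.Has μ c ν h τ) {B : I} {s G : ℕ} (hB : Mem (β * Real.exp (-(σ * ((1 + τ) * h * c / μ)))) B)
    (hs : σ = fx s) (hG : fx G ≤ Γ) (hc : 0 < c) (hν : 0 < ν) (hh : 0 < h) (hτ : 0 ≤ τ)
    {a b : ℕ} (hx : xm P C B s G = some (a, b)) :
    LM0 μ q g c ν h τ Γ β σ ≤ fx a ∧ LMW μ kk c ν h τ Γ β σ ≤ fx b := by
  have hμ := hP.pos
  have hμ1 := hP.le
  unfold xm at hx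
  simp only at hx
  obtain ⟨Q, hQe⟩ : ∃ Q, Q = ia (im C.a C.c2) (im C.n B) := ⟨_, rfl⟩
  obtain ⟨Y, hYe⟩ : ∃ Y, Y = ia (id' C.c2 B) (id' C.n C.a) := ⟨_, rfl⟩
  rw [← hQe, ← hYe] at hx
  obtain ⟨Z, hZe⟩ : ∃ Z, Z = id' (SC, SC) Y := ⟨_, rfl⟩
  rw [← hZe] at hx
  obtain ⟨pen, hpe⟩ : ∃ pen, pen = (bif Nat.ble SC s then 0 else
    mU (mU (mU (mU (mU (SC - s) (SC - s)) (SC - s)) 162890611523) (mU (mU C.t.2 B.2) P.N.2))
      (dU SC C.c.1)) := ⟨_, rfl⟩
  rw [← hpe] at hx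
  obtain ⟨e1, he1⟩ : ∃ e1, e1 = mL (mL C.t1.1 C.t1.1) (Z.1 - pen) := ⟨_, rfl⟩
  obtain ⟨e2, he2⟩ : ∃ e2, e2 = mU (mU C.u.2 C.u.2) P.g.2 := ⟨_, rfl⟩
  obtain ⟨V, hVe⟩ : ∃ V, V = mU (SC + mU C.c2.2 (mU P.N.2 P.N.2)) (dU SC Q.1) := ⟨_, rfl⟩
  rw [← he1, ← he2, ← hVe] at hx
  cases hbb : (Nat.blt 0 B.1 && Nat.blt 0 C.a.1 && Nat.blt 0 Y.1 && Nat.blt 0 Q.1 &&
      (Nat.ble SC s || Nat.blt 0 C.c.1) && Nat.ble s SC && Nat.ble pen Z.1 && Nat.ble e2 e1 &&
      Nat.blt 0 G) with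
  | false => rw [hbb] at hx; simp at hx
  | true =>
    rw [hbb] at hx
    simp only [cond_true, Option.some.injEq, Prod.mk.injEq] at hx
    obtain ⟨ha', hb'⟩ := hx
    simp only [Bool.and_eq_true, Bool.or_eq_true, blt_iff, Nat.ble_eq] at hbb
    obtain ⟨⟨⟨⟨⟨⟨⟨⟨hB0, ha0⟩, hY0⟩, hQ0⟩, hsc⟩, hs1⟩, hpZ⟩, he⟩, hG0⟩ := hbb
    -- the real quantities
    obtain ⟨T, hT⟩ : ∃ T, T = (1 + τ) * h * c / μ := ⟨_, rfl⟩
    rw [← hT] at hB
    obtain ⟨b', hb''⟩ : ∃ b', b' = β * Real.exp (-(σ * T)) := ⟨_, rfl⟩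
    rw [← hb''] at hB
    obtain ⟨A, hA⟩ : ∃ A, A = La μ ν T := ⟨_, rfl⟩
    have hCa : Mem A C.a := by rw [hA, hT]; exact hC.ha
    have hmQ : Mem (A * c ^ 2 + ν * b') Q := by
      rw [hQe]; exact (hCa.mul hC.hc2).add (hC.hn.mul hB)
    have hmY : Mem (c ^ 2 / b' + ν / A) Y := by
      rw [hYe]; exact (hC.hc2.div hB hB0).add (hC.hn.div hCa ha0)
    have hmZ : Mem (1 / (c ^ 2 / b' + ν / A)) Z := by
      rw [hZe]; exact Mem.one.div hmY hY0
    have hΓ0 : 0 < Γ := (fx_pos hG0).trans_le hG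
    have hA0 : 0 < A := (fx_pos ha0).trans_le hCa.1
    have hb0 : 0 < b' := (fx_pos hB0).trans_le hB.1
    have hQr : 0 < A * c ^ 2 + ν * b' := by positivity
    have hσ0 : 0 ≤ σ := by rw [hs]; exact fx_nonneg _
    have hσ1 : σ ≤ 1 := by rw [hs, ← fx_one]; exact fx_mono hs1
    -- penalty
    have hpen : 4 / 27 * (1 - σ) ^ 3 * ((1 + τ) * h * b' / (μ * c)) ≤ fx pen := by
      rcases hsc with h1 | h1
      · have h2 : s = SC := le_antisymm hs1 h1
        have h3 : σ = 1 := by rw [hs, h2, fx_one]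
        rw [h3]
        simp only [sub_self]
        have := fx_nonneg pen
        norm_num
        exact this
      · cases hb2 : Nat.ble SC s with
        | true =>
          rw [Nat.ble_eq] at hb2
          have h2 : s = SC := le_antisymm hs1 hb2
          have h3 : σ = 1 := by rw [hs, h2, fx_one]
          rw [h3]
          simp only [sub_self]
          have := fx_nonneg pen
          norm_num
          exact this
        | false =>
          rw [hb2] at hpe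
          simp only [cond_false] at hpe
          rw [hpe]
          have k1 : 1 - σ ≤ fx (SC - s) := by
            rw [hs]
            exact subU (le_of_eq fx_one.symm) le_rfl
          have k0 : 0 ≤ 1 - σ := by linarith
          have k2 := mulU k1 k1 k0
          have k3 := mulU k2 k1 k0
          have k4 : (4 / 27 : ℝ) ≤ fx 162890611523 := by unfold fx; norm_num
          have k5 := mulU k3 k4 (by norm_num)
          have k6 := mulU (mulU hC.ht.2 hB.2 hb0.le) hP.hN.2 (by positivity)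
          have k7 := mulU k5 k6 (by positivity)
          have k8 : 1 / c ≤ fx (dU SC C.c.1) := divU (le_of_eq fx_one.symm) hC.hc.1 h1
          have k9 := mulU k7 k8 (by positivity)
          refine le_trans (le_of_eq ?_) k9
          field_simp
    -- exponent
    have hE1 : fx e1 ≤ (1 + τ) ^ 2 * (1 / (c ^ 2 / b' + ν / A) -
        4 / 27 * (1 - σ) ^ 3 * ((1 + τ) * h * b' / (μ * c))) := by
      rw [he1, pow_two]
      exact mulL (mulL hC.ht1.1 hC.ht1.1) (subL hmZ.1 hpen hpZ)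
    have hE2 : g / 2 * τ ^ 2 ≤ fx e2 := by
      rw [he2, mul_comm]
      have h1 := mulU hC.hu.2 hC.hu.2 hτ
      have hg0 : 0 ≤ g / 2 := (fx_nonneg _).trans hP.hg.1
      have h2 := mulU h1 hP.hg.2 hg0
      rwa [pow_two]
    have hE := subL hE1 hE2 he
    have hE' := mulL hG hE
    have hX := expNegU hE'
    -- prefactor
    have hV : (1 + c ^ 2 / μ ^ 2) * (1 / (A * c ^ 2 + ν * b')) ≤ fx V := by
      rw [hVe]
      have h1 : 1 + c ^ 2 / μ ^ 2 ≤ fx (SC + mU C.c2.2 (mU P.N.2 P.N.2)) := by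
        refine addU (le_of_eq fx_one.symm) ?_
        have h2 := mulU hC.hc2.2 (mulU hP.hN.2 hP.hN.2 (by positivity)) (by positivity)
        refine le_trans (le_of_eq ?_) h2
        field_simp
      exact mulU h1 (divU (le_of_eq fx_one.symm) hmQ.1 hQ0) (by positivity)
    have hq0 : 0 ≤ q := hP.hq.nonneg
    have hS : √(q * (1 + c ^ 2 / μ ^ 2) / (2 * (A * c ^ 2 + ν * b'))) ≤
        fx (sqU (mU P.q.2 V / 2 + 1)) := by
      apply sqrtU
      have h1 := mulU hP.hq.2 hV (by positivity)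
      have h2 := fx_divU (mU P.q.2 V) 2 (by norm_num)
      push_cast at h2
      refine le_trans (le_of_eq ?_) ((div_le_div_of_nonneg_right h1 (by norm_num : (0:ℝ) ≤ 2)).trans h2)
      field_simp
    constructor
    · rw [← ha']
      have h1 := mulU hS hX (Real.exp_pos _).le
      refine le_trans (le_of_eq ?_) h1
      unfold LM0 LQ LZ
      rw [← hT, ← hb'', ← hA]
    · rw [← hb']
      unfold LMW LQ
      rw [← hT, ← hb'', ← hA]
      have k0 : 0 ≤ kk := hP.hk.nonneg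
      have w1 : kk ^ 2 * τ ^ 2 ≤ fx (mU (mU P.k.2 C.u.2) (mU P.k.2 C.u.2)) := by
        have h1 := mulU hP.hk.2 hC.hu.2 hτ
        have h2 := mulU h1 h1 (by positivity)
        refine le_trans (le_of_eq ?_) h2
        ring
      have w2 : (ν * b' / (A * c ^ 2 + ν * b')) ^ 2 / μ ^ 2 ≤
          fx (mU (mU (dU (mU C.n.2 B.2) Q.1) (dU (mU C.n.2 B.2) Q.1)) (mU P.N.2 P.N.2)) := by
        have h1 := divU (mulU hC.hn.2 hB.2 hb0.le) hmQ.1 hQ0
        have h2 := mulU (mulU h1 h1 (by positivity)) (mulU hP.hN.2 hP.hN.2 (by positivity))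
          (by positivity)
        refine le_trans (le_of_eq ?_) h2
        field_simp
      have w3 : (A * c / (A * c ^ 2 + ν * b')) ^ 2 ≤
          fx (mU (dU (mU C.a.2 C.c.2) Q.1) (dU (mU C.a.2 C.c.2) Q.1)) := by
        have h1 := divU (mulU hCa.2 hC.hc.2 hc.le) hmQ.1 hQ0
        have h2 := mulU h1 h1 (by positivity)
        refine le_trans (le_of_eq ?_) h2
        ring
      have w4 : (1 + c ^ 2 / μ ^ 2) * ν / (2 * Γ * (A * c ^ 2 + ν * b')) ≤
          fx (mU (mU C.n.2 V) (dU SC G) / 2 + 1) := by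
        have h1 := mulU (mulU hC.hn.2 hV (by positivity))
          (divU (le_of_eq fx_one.symm) hG hG0) (by positivity)
        have h2 := fx_divU (mU (mU C.n.2 V) (dU SC G)) 2 (by norm_num)
        push_cast at h2
        refine le_trans (le_of_eq ?_)
          ((div_le_div_of_nonneg_right h1 (by norm_num : (0:ℝ) ≤ 2)).trans h2)
        field_simp
      have w5 : (1 + τ) ^ 2 ≤ fx (mU C.t1.2 C.t1.2) := by
        have h1 := mulU hC.ht1.2 hC.ht1.2 (by positivity)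
        refine le_trans (le_of_eq ?_) h1
        ring
      exact addU (addU w1 (mulU w5 (addU w2 w3) (by positivity))) w4

end SokalCel
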