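import Pool.Agent.Lib_MP_af4de1_v3.CelL5

/-!
# Cells, left side: evaluators of the total
-/

set_option autoImplicit false

namespace SokalCel

open SokalFN

theorem bif_some {α : Type*} {b : Bool} {x : Option α} {r : α}
    (h : (bif b then x else none) = some r) : b = true ∧ x = some r := by
  cases b with
  | false => simp at h
  | true => exact ⟨rfl, h⟩

/-! ### evaluators -/

/-- lower bound of `LZ` -/
def xz (P : Par) (C : Cl) (B : I) (s : ℕ) : Option ℕ :=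
  let Y := ia (id' C.c2 B) (id' C.n C.a)
  let Z := dL SC Y.2
  let pen := bif Nat.ble SC s then 0 else
    mU (mU (mU (mU (mU (SC - s) (SC - s)) (SC - s)) 162890611523) (mU (mU C.t.2 B.2) P.N.2)) (dU SC C.c.1)
  bif Nat.blt 0 B.1 && Nat.blt 0 C.a.1 && (Nat.ble SC s || Nat.blt 0 C.c.1) &&
      Nat.ble s SC && Nat.ble pen Z then some (Z - pen) else none

theorem xz_sound {P : Par} {μ q g kk c ν h τ β σ : ℝ} (hP : P.Ok μ q g kk) {C : Cl}
    (hC : C.Has μ c ν h τ) {B : I} {s : ℕ} (hB : Mem (β * Real.exp (-(σ * ((1 + τ) * h * c / μ)))) B)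
    (hs : σ = fx s) (hc : 0 < c) (hν : 0 < ν) (hh : 0 < h) (hτ : 0 ≤ τ)
    {z : ℕ} (hx : xz P C B s = some z) :
    fx z ≤ LZ μ c ν ((1 + τ) * h) ((1 + τ) * h * c / μ) β σ := by
  have hμ := hP.pos
  unfold xz at hx
  simp only at hx
  obtain ⟨T, hT⟩ : ∃ T, T = (1 + τ) * h * c / μ := ⟨_, rfl⟩
  obtain ⟨A, hA⟩ : ∃ A, A = La μ ν T := ⟨_, rfl⟩
  have hCa : Mem A C.a := by rw [hA, hT]; exact hC.ha
  rw [← hT] at hB
  obtain ⟨b', hb''⟩ : ∃ b', b' = β * Real.exp (-(σ * T)) := ⟨_, rfl⟩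
  rw [← hb''] at hB
  generalize hYe : ia (id' C.c2 B) (id' C.n C.a) = Y at hx
  generalize hZe : dL SC Y.2 = Z at hx
  generalize hpe : (bif Nat.ble SC s then 0 else
    mU (mU (mU (mU (mU (SC - s) (SC - s)) (SC - s)) 162890611523) (mU (mU C.t.2 B.2) P.N.2))
      (dU SC C.c.1)) = pen at hx
  cases hbb : (Nat.blt 0 B.1 && Nat.blt 0 C.a.1 && (Nat.ble SC s || Nat.blt 0 C.c.1) &&
      Nat.ble s SC && Nat.ble pen Z) with
  | false => rw [hbb] at hx; simp at hx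
  | true =>
    rw [hbb] at hx
    simp only [cond_true, Option.some.injEq] at hx
    simp only [Bool.and_eq_true, Bool.or_eq_true, blt_iff, Nat.ble_eq] at hbb
    obtain ⟨⟨⟨⟨hB0, ha0⟩, hsc⟩, hs1⟩, hpZ⟩ := hbb
    have hmY : Mem (c ^ 2 / b' + ν / A) Y := by
      rw [← hYe]; exact (hC.hc2.div hB hB0).add (hC.hn.div hCa ha0)
    have hA0 : 0 < A := (fx_pos ha0).trans_le hCa.1
    have hb0 : 0 < b' := (fx_pos hB0).trans_le hB.1
    have hmZ : fx Z ≤ 1 / (c ^ 2 / b' + ν / A) := by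
      rw [← hZe]
      exact divL (le_of_eq fx_one) hmY.2 (by positivity)
    have hσ1 : σ ≤ 1 := by rw [hs, ← fx_one]; exact fx_mono hs1
    have hpen : 4 / 27 * (1 - σ) ^ 3 * ((1 + τ) * h * b' / (μ * c)) ≤ fx pen := by
      cases hb2 : Nat.ble SC s with
      | true =>
        rw [Nat.ble_eq] at hb2
        have h2 : s = SC := le_antisymm hs1 hb2
        have h3 : σ = 1 := by rw [hs, h2, fx_one]
        rw [h3]
        have := fx_nonneg pen
        norm_num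
        exact this
      | false =>
        rw [hb2, cond_false] at hpe
        have h1 : 0 < C.c.1 := by
          rcases hsc with h | h
          · rw [← Nat.ble_eq] at h; rw [h] at hb2; exact absurd hb2 (by simp)
          · exact h
        rw [← hpe]
        have k1 : 1 - σ ≤ fx (SC - s) := by
          rw [hs]
          exact subU (le_of_eq fx_one.symm) le_rfl
        have k0 : 0 ≤ 1 - σ := by linarith
        have k2 := mulU k1 k1 k0
        have k3 := mulU k2 k1 k0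
        have k4 : (4 / 27 : ℝ) ≤ fx 162890611523 := by unfold fx; norm_num
        have k5 := mulU k3 k4 (by norm_num)
        have k6 := mulU (mulU hC.ht.2 hB.2 hb0.le) hP.hN.2 (by positivity)
        have k7 := mulU k5 k6 (by positivity)
        have k8 : 1 / c ≤ fx (dU SC C.c.1) := divU (le_of_eq fx_one.symm) hC.hc.1 h1
        have k9 := mulU k7 k8 (by positivity)
        refine le_trans (le_of_eq ?_) k9
        field_simp
    have h1 := subL hmZ hpen hpZ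
    rw [← hx]
    refine h1.trans (le_of_eq ?_)
    unfold LZ
    rw [← hT, ← hb'', ← hA]

/-- `(e^T - 1)/T ≤ (1 + e^T)/2` -/
theorem eS_le {T : ℝ} (hT : 0 < T) : (Real.exp T - 1) / T ≤ (1 + Real.exp T) / 2 := by
  have hd : ∀ x, HasDerivAt (fun x : ℝ => (1 + Real.exp x) / 2 * x - (Real.exp x - 1))
      ((1 + Real.exp x * (x - 1)) / 2) x := by
    intro x
    have h1 : HasDerivAt (fun x : ℝ => (1 + Real.exp x) / 2) (Real.exp x / 2) x :=
      ((Real.hasDerivAt_exp x).const_add 1).div_const 2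
    have h2 := h1.mul (hasDerivAt_id x)
    have h3 : HasDerivAt (fun x : ℝ => Real.exp x - 1) (Real.exp x) x :=
      (Real.hasDerivAt_exp x).sub_const 1
    refine HasDerivAt.congr_deriv (h2.sub h3) ?_
    simp only [id_eq]
    ring
  have hm : MonotoneOn (fun x : ℝ => (1 + Real.exp x) / 2 * x - (Real.exp x - 1)) (Set.Ici 0) := by
    refine monotoneOn_of_deriv_nonneg (convex_Ici 0)
      (fun y _ => (hd y).continuousAt.continuousWithinAt)
      (fun y _ => (hd y).differentiableAt.differentiableWithinAt) fun y hy => ?_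
    rw [(hd y).deriv]
    have h1 := Real.add_one_le_exp (-y)
    have h2 : Real.exp y * Real.exp (-y) = 1 := by rw [← Real.exp_add]; simp
    have h3 := Real.exp_pos y
    nlinarith
  have h := hm (Set.mem_Ici.2 le_rfl) (Set.mem_Ici.2 hT.le) hT.le
  simp only [Real.exp_zero] at h
  rw [div_le_iff₀ hT]
  norm_num at h
  linarith

/-- interval of `t'` -/
def xtp (C : Cl) : I := (6908231557316 - C.t.2, 6908451460481 - C.t.1)

theorem mem_xtp {μ c ν h τ : ℝ} {C : Cl} (hC : C.Has μ c ν h τ) (hle : C.t.2 ≤ 6908231557316) :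
    Mem (Ltp h τ) (xtp C) := ⟨subL two_pi_lo hC.ht.2 hle, subU two_pi_hi hC.ht.1⟩

/-- last step of `xjm` -/
def xjg (C : Cl) (qn e2 Vn N2 G : ℕ) (a B : I) (z x0 v f : ℕ) : Option (ℕ × ℕ × ℕ) :=
  match xg C qn Vn N2 a B z x0 e2 G v f with
  | some (i0, iW) => some (i0, iW, mU f i0)
  | none => none

theorem xjg_sound {μ c ν h τ : ℝ} {C : Cl} (hC : C.Has μ c ν h τ) {qn e2 Vn N2 G z x0 v f : ℕ}
    {a B : I} {q A b Z x E Γ w e : ℝ} (hq0 : 0 ≤ q) (hc : 0 < c) (hν : 0 < ν) (hx0' : 0 ≤ x)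
    (hΓ0 : 0 ≤ Γ) (hA0 : 0 ≤ A)
    (hq : q ≤ fx qn) (hV : 1 + c ^ 2 / μ ^ 2 ≤ fx Vn) (hN2 : 1 / μ ^ 2 ≤ fx N2) (ha : Mem A a)
    (hb : Mem b B) (hb0 : 0 < b) (hz : fx z ≤ Z) (hx : fx x0 ≤ x) (hE : E ≤ fx e2) (hG : fx G ≤ Γ)
    (hw : 0 ≤ w) (he : 0 ≤ e) (hwv : w ≤ fx v) (hef : e ≤ fx f)
    {a0 a1 a2 : ℕ} (hr : xjg C qn e2 Vn N2 G a B z x0 v f = some (a0, a1, a2)) :
    gF0 (q * (1 + c ^ 2 / μ ^ 2)) c ν A b x Γ Z E ≤ fx a0 ∧
    gFW (q * (1 + c ^ 2 / μ ^ 2)) μ c ν A b x Γ Z E w e ≤ fx a1 ∧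
    e * gF0 (q * (1 + c ^ 2 / μ ^ 2)) c ν A b x Γ Z E ≤ fx a2 := by
  unfold xjg at hr
  cases hg : xg C qn Vn N2 a B z x0 e2 G v f with
  | none => rw [hg] at hr; simp at hr
  | some r =>
    obtain ⟨i0, iW⟩ := r
    rw [hg] at hr
    simp only [Option.some.injEq, Prod.mk.injEq] at hr
    obtain ⟨h0, h1, h2⟩ := hr
    have hs := xg_sound hC hc hν hq hV hN2 ha hb hb0 hz hx hE hG hw he hwv hef hg
    refine ⟨?_, ?_, ?_⟩
    · rw [← h0]; exact hs.1
    · rw [← h1]; exact hs.2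
    · rw [← h2]
      refine mulU hef hs.1 ?_
      unfold gF0
      have : 0 ≤ gm c ν A b x Γ := by
        unfold gm
        refine le_min zero_le_one ?_
        positivity
      positivity

/-- `(e + 1)/2` squared -/
def sqh (f : ℕ) : ℕ := mU ((SC + f) / 2 + 1) ((SC + f) / 2 + 1)

theorem sqh_sound {T : ℝ} (hT : 0 < T) {f : ℕ} (hf : Real.exp T ≤ fx f) :
    ((Real.exp T - 1) / T) ^ 2 ≤ fx (sqh f) := by
  have he1 : (Real.exp T - 1) / T ≤ fx ((SC + f) / 2 + 1) :=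
    (eS_le hT).trans (half_up (addU (le_of_eq fx_one.symm) hf))
  have he0 : 0 ≤ (Real.exp T - 1) / T := by
    have := Real.add_one_le_exp T
    exact div_nonneg (by linarith) hT.le
  rw [pow_two]; exact mulU he1 he1 he0

/-- the image, main part: `(I0, IW, Ie)` -/
def xjm (P : Par) (C : Cl) (e2 Vn N2 G : ℕ) : Option (ℕ × ℕ × ℕ) :=
  let tp := xtp C
  let T := im (im tp C.c) P.N
  let a := xr P C.n T
  let Y := ia (id' C.c2 (ic 11 25)) (id' C.n a)
  let f := dU SC (eNL (min SC T.2))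
  bif Nat.blt 0 a.1 && Nat.blt 0 (eNL (min SC T.2)) && Nat.ble C.t.2 6908231557316 then
    xjg C P.q.2 e2 Vn N2 G a (ic 11 25) (dL SC Y.2) (dL tp.1 C.h.2) (sqh f) f
  else none

theorem xjm_sound {P : Par} {μ q g kk c ν h τ Γ : ℝ} (hP : P.Ok μ q g kk) {C : Cl}
    (hC : C.Has μ c ν h τ) {e2 Vn N2 G : ℕ} (hE2 : g / 2 * τ ^ 2 ≤ fx e2)
    (hVn : 1 + c ^ 2 / μ ^ 2 ≤ fx Vn) (hN2 : 1 / μ ^ 2 ≤ fx N2)
    (hG : fx G ≤ Γ) (hc : 0 < c) (hν : 0 < ν) (hh : 0 < h) (hν1 : ν ≤ 1)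
    (htp : (1 + τ) * h ≤ Real.pi)
    {a0 a1 a2 : ℕ} (hx : xjm P C e2 Vn N2 G = some (a0, a1, a2)) :
    tI0 μ q g c ν h τ Γ ≤ fx a0 ∧ tIW μ q g c ν h τ Γ ≤ fx a1 ∧
    Real.exp (iT μ c h τ) * tI0 μ q g c ν h τ Γ ≤ fx a2 := by
  have hμ := hP.pos
  have hpi := Real.pi_pos
  have hΓ0 : 0 ≤ Γ := (fx_nonneg G).trans hG
  unfold xjm at hx
  simp only at hx
  generalize hTe : im (im (xtp C) C.c) P.N = T at hx
  generalize hae : xr P C.n T = a at hx
  generalize hYe : ia (id' C.c2 (ic 11 25)) (id' C.n a) = Y at hx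
  generalize hfe : dU SC (eNL (min SC T.2)) = f at hx
  generalize hvf : sqh f = v at hx
  generalize hBe : ic 11 25 = B at hx hYe
  obtain ⟨hbb, hx⟩ := bif_some hx
  · simp only [Bool.and_eq_true, blt_iff, Nat.ble_eq] at hbb
    obtain ⟨⟨haa, hfN⟩, htle⟩ := hbb
    have hmtp := mem_xtp hC htle
    have htp0 : 0 < Ltp h τ := by unfold Ltp; linarith
    have hmT : Mem (Ltp h τ * c / μ) T := by
      have k := (hmtp.mul hC.hc).mul hP.hN
      rw [mul_one_div] at k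
      rw [← hTe]; exact k
    have hT0 : 0 < Ltp h τ * c / μ := by positivity
    have hmA : Mem (iA μ c ν h τ) a := by
      rw [← hae]; exact mem_xr hP hC.hn hmT hν1 hT0.le
    have hA0 : 0 < iA μ c ν h τ := (fx_pos haa).trans_le hmA.1
    have hm11 : Mem (11 / 25 : ℝ) B := by
      rw [← hBe]; exact_mod_cast Mem.const 11 25 (by norm_num)
    have h11 : 0 < B.1 := by rw [← hBe]; unfold ic SC; norm_num
    have hmY : Mem (c ^ 2 / (11 / 25) + ν / iA μ c ν h τ) Y := by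
      rw [← hYe]; exact (hC.hc2.div hm11 h11).add (hC.hn.div hmA haa)
    have hZ1 : fx (dL SC Y.2) ≤ 1 / (c ^ 2 / (11 / 25) + ν / iA μ c ν h τ) :=
      divL (le_of_eq fx_one) hmY.2 (by positivity)
    have hX : fx (dL (xtp C).1 C.h.2) ≤ Ltp h τ / h := divL hmtp.1 hC.hh.2 hh
    have hf1 : Real.exp (iT μ c h τ) ≤ fx f := by
      rw [← hfe]
      have k1 : min 1 (Ltp h τ * c / μ) ≤ fx (min SC T.2) := minU (le_of_eq fx_one.symm) hmT.2
      exact expUp k1 hfN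
    have hiT : 0 < iT μ c h τ := lt_min one_pos hT0
    have hv1 := sqh_sound hiT hf1
    rw [hvf] at hv1
    have hq0 : 0 ≤ q := hP.hq.nonneg
    generalize dL SC Y.2 = z at hx hZ1
    generalize dL (xtp C).1 C.h.2 = x0 at hx hX
    exact xjg_sound hC hq0 hc hν (by positivity) hΓ0 hA0.le hP.hq.2 hVn hN2 hmA hm11 (by norm_num)
      hZ1 hX hE2 hG (sq_nonneg _) (Real.exp_pos _).le hv1 hf1 hx

/-- the image, part behind: `(J0, J0 JW, e J0)` -/
def xjb (P : Par) (C : Cl) (e2 Vn N2 G : ℕ) : Option (ℕ × ℕ × ℕ) :=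
  let tp := xtp C
  let T := im (im (ia tp (ic 6 5)) C.c) P.N
  let a := xr P C.n T
  let Q := ia (im a C.c2) (im C.n (ic 11 25))
  let x0 := dL tp.1 C.h.2
  let y := mL (dL a.1 C.n.2) (mL x0 x0)
  let e := dU SC (eNL (min SC T.2))
  let w := dU C.n.2 (mL G Q.1)
  let o := mU (mU ((SC + e) / 2 + 1) ((SC + e) / 2 + 1)) N2
  bif Nat.blt 0 Q.1 && Nat.blt 0 (mL G Q.1) &&
      Nat.blt 0 x0 && Nat.ble SC (mL G y) && Nat.ble e2 y &&
      Nat.blt 0 (eNL (min SC T.2)) && Nat.ble C.t.2 6908231557316 then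
    let J0 := mU (sqU (mU P.q.2 (dU Vn Q.1) / 2 + 1) / 2 + 1) (eN (cl (mL G (y - e2))))
    let JW := mU o (mU x0 x0 + mU (2 * x0) (mU C.c.2 (sqU (mU w 350008700000)))) +
        (mU (mU o C.c2.2 + e) w / 2 + 1)
    some (J0, mU J0 JW, mU e J0)
  else none

theorem JW_le {c O E W X : ℝ} {on en xn wn cn c2n : ℕ} (hO0 : 0 ≤ O) (hX0 : 0 ≤ X) (hc0 : 0 ≤ c)
    (hW0 : 0 ≤ W) (hO : O ≤ fx on) (hE : E ≤ fx en) (hX : X ≤ fx xn) (hW : W ≤ fx wn)
    (hc : c ≤ fx cn) (hc2 : c ^ 2 ≤ fx c2n) :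
    O * X ^ 2 + (O * 2 * (c * √(W * (1 / Real.pi)))) * X + (O * c ^ 2 + E) * W / 2 ≤
      fx (mU on (mU xn xn + mU (2 * xn) (mU cn (sqU (mU wn 350008700000)))) +
        (mU (mU on c2n + en) wn / 2 + 1)) := by
  have h1 : X ^ 2 ≤ fx (mU xn xn) := by rw [pow_two]; exact mulU hX hX hX0
  have h2 : √(W * (1 / Real.pi)) ≤ fx (sqU (mU wn 350008700000)) :=
    sqrtU (mulU hW inv_pi_le (by positivity))
  have h3 : 2 * X ≤ fx (2 * xn) := two_up hX
  have h4 := mulU hO (addU h1 (mulU h3 (mulU hc h2 (Real.sqrt_nonneg _)) (by positivity)))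
    (by positivity)
  have h5 := half_up (mulU (addU (mulU hO hc2 (by positivity)) hE) hW hW0)
  refine le_trans (le_of_eq ?_) (addU h4 h5)
  ring

theorem xjb_sound {P : Par} {μ q g kk c ν h τ Γ : ℝ} (hP : P.Ok μ q g kk) {C : Cl}
    (hC : C.Has μ c ν h τ) {e2 Vn N2 G : ℕ} (hE2 : g / 2 * τ ^ 2 ≤ fx e2)
    (hVn : 1 + c ^ 2 / μ ^ 2 ≤ fx Vn) (hN2 : 1 / μ ^ 2 ≤ fx N2)
    (hG : fx G ≤ Γ) (hc : 0 < c) (hν : 0 < ν) (hh : 0 < h) (hν1 : ν ≤ 1)
    (htp : (1 + τ) * h ≤ Real.pi)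
    {a0 a1 a2 : ℕ} (hx : xjb P C e2 Vn N2 G = some (a0, a1, a2)) :
    LJ0 μ q g c ν h τ Γ ≤ fx a0 ∧ LJ0 μ q g c ν h τ Γ * LJW μ c ν h τ Γ ≤ fx a1 ∧
    Le μ c h τ * LJ0 μ q g c ν h τ Γ ≤ fx a2 := by
  have hμ := hP.pos
  have hpi := Real.pi_pos
  unfold xjb at hx
  simp only at hx
  generalize hTe : im (im (ia (xtp C) (ic 6 5)) C.c) P.N = T at hx
  generalize hae : xr P C.n T = a at hx
  generalize hQe : ia (im a C.c2) (im C.n (ic 11 25)) = Q at hx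
  generalize hx0e : dL (xtp C).1 C.h.2 = x0 at hx
  generalize hye : mL (dL a.1 C.n.2) (mL x0 x0) = y at hx
  generalize hee : dU SC (eNL (min SC T.2)) = e at hx
  generalize hwe : dU C.n.2 (mL G Q.1) = w at hx
  generalize hoe : mU (mU ((SC + e) / 2 + 1) ((SC + e) / 2 + 1)) N2 = o at hx
  cases hbb : (Nat.blt 0 Q.1 && Nat.blt 0 (mL G Q.1) &&
      Nat.blt 0 x0 && Nat.ble SC (mL G y) && Nat.ble e2 y &&
      Nat.blt 0 (eNL (min SC T.2)) && Nat.ble C.t.2 6908231557316) with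
  | false => rw [hbb] at hx; simp at hx
  | true =>
    rw [hbb] at hx
    simp only [cond_true, Option.some.injEq, Prod.mk.injEq] at hx
    obtain ⟨ha0, ha1, ha2⟩ := hx
    simp only [Bool.and_eq_true, blt_iff, Nat.ble_eq] at hbb
    obtain ⟨⟨⟨⟨⟨⟨hQ0, hGQ⟩, hx00⟩, hGy⟩, hey⟩, heN⟩, htle⟩ := hbb
    have hmtp := mem_xtp hC htle
    have htp0 : 0 < Ltp h τ := by unfold Ltp; linarith
    have hmT : Mem (LT3 μ c h τ) T := by
      have k := ((hmtp.add (Mem.const 6 5 (by norm_num))).mul hC.hc).mul hP.hN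
      rw [mul_one_div] at k
      rw [← hTe]
      unfold LT3
      exact_mod_cast k
    have hT0 : 0 ≤ LT3 μ c h τ := by unfold LT3; positivity
    have hmA : Mem (Lr μ ν (LT3 μ c h τ)) a := by
      rw [← hae]; exact mem_xr hP hC.hn hmT hν1 hT0
    have hm11 : Mem (11 / 25 : ℝ) (ic 11 25) := by exact_mod_cast Mem.const 11 25 (by norm_num)
    have hmQ : Mem (LQi μ c ν (LT3 μ c h τ)) Q := by
      rw [← hQe]; exact (hmA.mul hC.hc2).add (hC.hn.mul hm11)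
    have hR0 : 0 < LQi μ c ν (LT3 μ c h τ) := (fx_pos hQ0).trans_le hmQ.1
    have hZ1 : fx (dL a.1 C.n.2) ≤ Lr μ ν (LT3 μ c h τ) / ν := divL hmA.1 hC.hn.2 hν
    have hGpos : 0 < G := by
      rcases Nat.eq_zero_or_pos G with h0 | h0
      · rw [h0] at hGQ; simp [mL] at hGQ
      · exact h0
    have hΓ0 : 0 < Γ := (fx_pos hGpos).trans_le hG
    have hX0 : 0 < fx x0 := fx_pos hx00
    have hXx : fx x0 ≤ Ltp h τ / h := by
      rw [← hx0e]
      exact divL hmtp.1 hC.hh.2 hh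
    have hy1 : fx y ≤ Lr μ ν (LT3 μ c h τ) / ν * fx x0 ^ 2 := by
      rw [← hye, pow_two]; exact mulL hZ1 (mL_le _ _)
    have hΓy : 1 ≤ Γ * (Lr μ ν (LT3 μ c h τ) / ν * fx x0 ^ 2) := by
      rw [← fx_one]
      exact (fx_mono hGy).trans (mulL hG hy1)
    have hE := expCl (mulL hG (subL hy1 hE2 hey))
    have hq0 : 0 ≤ q := hP.hq.nonneg
    have hS : √(q * (1 + c ^ 2 / μ ^ 2) / (2 * LQi μ c ν (LT3 μ c h τ))) / 2 ≤
        fx (sqU (mU P.q.2 (dU Vn Q.1) / 2 + 1) / 2 + 1) :=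
      half_up (FE_le hP.hq.2 hVn hmQ.1 hQ0)
    have hw1 : ν / (Γ * LQi μ c ν (LT3 μ c h τ)) ≤ fx w := by
      rw [← hwe]
      exact divU hC.hn.2 (mulL hG hmQ.1) hGQ
    have hee1 : Le μ c h τ ≤ fx e := by
      rw [← hee]
      have k1 : min 1 (LT3 μ c h τ) ≤ fx (min SC T.2) := minU (le_of_eq fx_one.symm) hmT.2
      exact expUp k1 heN
    have hE10 : 0 < Le μ c h τ := Real.exp_pos _
    have ho1 : ((1 + Le μ c h τ) / 2) ^ 2 / μ ^ 2 ≤ fx o := by
      have k1 : (1 + Le μ c h τ) / 2 ≤ fx ((SC + e) / 2 + 1) := half_up (addU (le_of_eq fx_one.symm) hee1)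
      have k2 := mulU (mulU k1 k1 (by positivity)) hN2 (by positivity)
      rw [← hoe]
      refine le_trans (le_of_eq ?_) k2
      ring
    obtain ⟨O, hO⟩ : ∃ O, O = ((1 + Le μ c h τ) / 2) ^ 2 / μ ^ 2 := ⟨_, rfl⟩
    rw [← hO] at ho1
    have hO0 : 0 ≤ O := by rw [hO]; positivity
    have hw0 : 0 ≤ ν / (Γ * LQi μ c ν (LT3 μ c h τ)) := by positivity
    have hJW := JW_le hO0 hX0.le hc.le hw0 ho1 hee1 le_rfl hw1 hC.hc.2 hC.hc2.2
    have b3 := img_bound (E := g / 2 * τ ^ 2) (w2 := 0) (w1 := 0) (w0 := 1) hX0 hXx hΓy le_rfl le_rfl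
      zero_le_one
    have bJ := img_bound (E := g / 2 * τ ^ 2) (w2 := O)
      (w1 := O * 2 * (c * √(ν / (Γ * LQi μ c ν (LT3 μ c h τ)) * (1 / Real.pi))))
      (w0 := (O * c ^ 2 + Le μ c h τ) * (ν / (Γ * LQi μ c ν (LT3 μ c h τ))) / 2) hX0 hXx hΓy hO0
      (by positivity) (by positivity)
    simp only [zero_mul, zero_add, one_mul] at b3
    have s3 : 0 ≤ √(q * (1 + c ^ 2 / μ ^ 2) / (2 * LQi μ c ν (LT3 μ c h τ))) / 2 := by positivity
    have c3 := mulU hS hE (Real.exp_pos _).le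
    have k3 := (mul_le_mul_of_nonneg_left b3 s3).trans c3
    have j0 : 0 ≤ LJ0 μ q g c ν h τ Γ := by unfold LJ0; positivity
    have e3 : LJ0 μ q g c ν h τ Γ ≤ fx a0 := by
      rw [← ha0]
      exact k3
    refine ⟨e3, ?_, ?_⟩
    · rw [← ha1]
      have k1 := mulU c3 hJW (by positivity)
      refine le_trans ?_ k1
      have k2 := mul_le_mul_of_nonneg_left bJ s3
      have eJ : LJW μ c ν h τ Γ = O * (Ltp h τ / h) ^ 2 +
          (O * 2 * (c * √(ν / (Γ * LQi μ c ν (LT3 μ c h τ)) * (1 / Real.pi)))) * (Ltp h τ / h) +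
          (O * c ^ 2 + Le μ c h τ) * (ν / (Γ * LQi μ c ν (LT3 μ c h τ))) / 2 := by
        unfold LJW
        rw [← hO]
        ring
      rw [eJ]
      unfold LJ0
      refine le_trans (le_of_eq ?_) (k2.trans (le_of_eq ?_)) <;> ring
    · rw [← ha2]
      rw [← ha0] at e3
      exact mulU hee1 e3 j0

end SokalCel
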