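import Pool.Agent.Lib_MP_af4de1_v3.CelL5a

/-!
# Cells, left side: the checker `chkL` and its soundness
-/

set_option autoImplicit false

namespace SokalCel

open SokalFN

/-- one step of the choice of `σ` -/
def sstep (C : Cl) (b : I) (s : ℕ) : ℕ :=
  let x := mU C.n.1 (xB C b s).1
  (3 * dL x (mL C.a.1 C.c2.1 + x) - SC) / 2

/-- interval of `t` cut at `6/5` -/
def tb (C : Cl) : I := (C.t.1, min C.t.2 1319413953332)

/-- interval of `β` -/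
def bb (C : Cl) : I := bif Nat.ble C.t.2 1319413953331 then ib (tb C) else ic 11 25

/-- front -/
def lfr (P : Par) (C : Cl) (G : ℕ) : Option (ℕ × ℕ) :=
  bif Nat.ble C.t.1 1319413953331 then xf P C (ib (tb C)) G else some (0, 0)

/-- main part -/
def xmn (P : Par) (C : Cl) (e2 Vn N2 G s : ℕ) (B : I) : Option (ℕ × ℕ) :=
  (xz P C B s).bind fun z => xg C P.q.2 Vn N2 C.a B z C.t1.1 e2 G SC SC

/-- the other zones -/
def xot (P : Par) (C : Cl) (e2 Vn N2 G r0 rW re : ℕ) : Option (ℕ × ℕ × ℕ) :=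
  (xh P C G).bind fun b => (xjm P C e2 Vn N2 G).bind fun i => (xjb P C e2 Vn N2 G).bind fun j =>
    (lfr P C G).bind fun a => some (b.1 + a.1 + (i.1 + j.1) + r0,
      mU b.1 b.2 + a.2 + (i.2.1 + j.2.1) + rW, dU (b.1 + a.1 + (i.2.2 + j.2.2)) G + re)

/-- the final test -/
def fin6 (F0 F1 F2 G k m0 mW o0 oW eO : ℕ) : Bool :=
  let x := m0 + o0
  let v := sqU oW + mU k (sqU o0)
  let W := mW + mU (mU k k) m0 + mU v v
  Nat.ble x F0 && Nat.ble (sqU (mU x W)) F1 && Nat.ble (W + dU m0 G + eO) F2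

/-- the checker, from the data of the cell -/
def chkC (P : Par) (F0 F1 F2 r0 rW re G : ℕ) (C : Cl) (s : ℕ) (B : I) (N2 Vn e2 : ℕ) : Bool :=
  match xmn P C e2 Vn N2 G s B with
  | none => false
  | some m =>
    match xot P C e2 Vn N2 G r0 rW re with
    | none => false
    | some o => fin6 F0 F1 F2 G (mU C.u.2 P.k.2) m.1 m.2 o.1 o.2.1 o.2.2

/-- **The checker of a cell, left side.** `G` lower bound of `Γ`. -/
def chkL (P : Par) (F0 F1 F2 r0 rW re G : ℕ) (c n h u : I) : Bool :=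
  let C := mk P c n h u
  let b := bb C
  let s := min SC (sstep C b (sstep C b SC))
  let N2 := mU P.N.2 P.N.2
  Nat.blt 0 G && chkC P F0 F1 F2 r0 rW re G C s (xB C b s) N2 (SC + mU C.c2.2 N2)
    (mU (mU C.u.2 C.u.2) P.g.2)

/-! ### soundness -/

theorem mU_mono {a b a' b' : ℕ} (h : a ≤ a') (h' : b ≤ b') : mU a b ≤ mU a' b' := by
  unfold mU
  have := Nat.mul_le_mul h h'
  first
    | exact Nat.add_le_add_right (Nat.div_le_div_right this) 1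
    | omega

/-- the condition of `Mem.bq` below `6/5` -/
theorem hp65 {t : ℕ} (h : t ≤ 1319413953332) :
    (mU t t / 24 + 1 + (mU (mU (mU t t) (mU t t)) (mU t t) / 40320 + 1)) ≤
      549755813888 + mL (mU t t) (mU t t) / 720 := by
  have h1 : mU t t ≤ mU 1319413953332 1319413953332 := mU_mono h h
  have h2 := mU_mono h1 h1
  have h3 := mU_mono h2 h1
  have e1 : mU 1319413953332 1319413953332 / 24 ≤ 70000000000 := by
    norm_num [mU, SC]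
  have e2 : mU (mU (mU 1319413953332 1319413953332) (mU 1319413953332 1319413953332))
      (mU 1319413953332 1319413953332) / 40320 ≤ 100000000 := by
    norm_num [mU, SC]
  have k1 := (Nat.div_le_div_right (c := 24) h1).trans e1
  have k2 := (Nat.div_le_div_right (c := 40320) h3).trans e2
  generalize mU t t / 24 = X at k1 ⊢
  generalize mU (mU (mU t t) (mU t t)) (mU t t) / 40320 = Y at k2 ⊢
  generalize mL (mU t t) (mU t t) / 720 = Z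
  omega

theorem mem_tb {μ c ν h τ : ℝ} {C : Cl} (hC : C.Has μ c ν h τ) (ht : (1 + τ) * h ≤ 6 / 5) :
    Mem ((1 + τ) * h) (tb C) := by
  refine ⟨hC.ht.1, ?_⟩
  show (1 + τ) * h ≤ fx (min C.t.2 1319413953332)
  rcases le_total C.t.2 1319413953332 with h1 | h1
  · rw [min_eq_left h1]; exact hC.ht.2
  · rw [min_eq_right h1]
    refine ht.trans ?_
    unfold fx; norm_num

theorem mem_bb6 {μ c ν h τ : ℝ} {C : Cl} (hC : C.Has μ c ν h τ) (ht0 : 0 < (1 + τ) * h)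
    (ht : (1 + τ) * h ≤ 6 / 5) : Mem (bq ((1 + τ) * h)) (ib (tb C)) := by
  refine Mem.bq (mem_tb hC ht) ht0 (by nlinarith) (hp65 ?_)
  exact min_le_right _ _

/-- the value of `β` of a cell -/
theorem exists_beta {μ c ν h τ : ℝ} {C : Cl} (hC : C.Has μ c ν h τ) (ht0 : 0 < (1 + τ) * h) :
    ∃ β : ℝ, ((β = bq ((1 + τ) * h) ∧ (1 + τ) * h ≤ 6 / 5) ∨ β = 11 / 25) ∧ Mem β (bb C) := by
  unfold bb
  cases hb : Nat.ble C.t.2 1319413953331 with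
  | false =>
    refine ⟨11 / 25, Or.inr rfl, ?_⟩
    rw [cond_false]
    exact_mod_cast Mem.const 11 25 (by norm_num)
  | true =>
    rw [Nat.ble_eq] at hb
    have ht : (1 + τ) * h ≤ 6 / 5 := by
      refine hC.ht.2.trans ((fx_mono hb).trans ?_)
      unfold fx; norm_num
    refine ⟨_, Or.inl ⟨rfl, ht⟩, ?_⟩
    rw [cond_true]
    exact mem_bb6 hC ht0 ht

theorem beta_pos {t β : ℝ} (ht0 : 0 < t)
    (h : (β = bq t ∧ t ≤ 6 / 5) ∨ β = 11 / 25) : 0 < β := by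
  rcases h with ⟨h, ht⟩ | h
  · rw [h]
    refine bq_pos ht0 ?_
    have := Real.pi_gt_three
    linarith
  · rw [h]; norm_num

theorem lfr_sound {P : Par} {μ q g kk c ν h τ Γ : ℝ} (hP : P.Ok μ q g kk) {C : Cl}
    (hC : C.Has μ c ν h τ) {G : ℕ} (ht0 : 0 < (1 + τ) * h)
    (hG : fx G ≤ Γ) (hc : 0 < c) (hν : 0 < ν) (hτ : 0 ≤ τ)
    {a : ℕ × ℕ} (hx : lfr P C G = some a) :
    (if (1 + τ) * h ≤ 6 / 5 then LF0 μ q g c ν h τ Γ else 0) ≤ fx a.1 ∧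
    (if (1 + τ) * h ≤ 6 / 5 then LF0 μ q g c ν h τ Γ * (LFW μ c ν τ Γ / c ^ 2) else 0) ≤ fx a.2 := by
  by_cases ht : (1 + τ) * h ≤ 6 / 5
  · rw [if_pos ht, if_pos ht]
    unfold lfr at hx
    cases hb : Nat.ble C.t.1 1319413953331 with
    | false =>
      exfalso
      have h1 : ¬ (C.t.1 ≤ 1319413953331) := by
        rw [← Nat.ble_eq, hb]; simp
      have h2 : 1319413953332 ≤ C.t.1 := by omega
      have h3 := (fx_mono h2).trans (hC.ht.1.trans ht)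
      unfold fx at h3
      norm_num at h3
    | true =>
      rw [hb, cond_true] at hx
      obtain ⟨a0, a1⟩ := a
      exact xf_sound hP hC (mem_bb6 hC ht0 ht) hG hc hν hτ hx
  · rw [if_neg ht, if_neg ht]
    exact ⟨fx_nonneg _, fx_nonneg _⟩

theorem bind_some' {α β : Type*} {x : Option α} {f : α → Option β} {r : β}
    (h : x.bind f = some r) : ∃ a, x = some a ∧ f a = some r := Option.bind_eq_some_iff.1 h

theorem xmn_sound {P : Par} {μ q g kk c ν h τ Γ β : ℝ} (hP : P.Ok μ q g kk) {C : Cl}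
    (hC : C.Has μ c ν h τ) {e2 Vn N2 G s : ℕ} {B : I} (hE2 : g / 2 * τ ^ 2 ≤ fx e2)
    (hVn : 1 + c ^ 2 / μ ^ 2 ≤ fx Vn) (hN2 : 1 / μ ^ 2 ≤ fx N2)
    (hG : fx G ≤ Γ) (hc : 0 < c) (hν : 0 < ν) (hh : 0 < h) (hτ : 0 ≤ τ) (hβ : 0 < β)
    (hB : Mem (β * Real.exp (-(fx s * ((1 + τ) * h * c / μ)))) B)
    {m : ℕ × ℕ} (hx : xmn P C e2 Vn N2 G s B = some m) :
    tM0 μ q g c ν h τ Γ β (fx s) ≤ fx m.1 ∧ tMW μ q g c ν h τ Γ β (fx s) ≤ fx m.2 := by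
  unfold xmn at hx
  obtain ⟨z, hz, hx⟩ := bind_some' hx
  obtain ⟨m0, mW⟩ := m
  have k1 := xz_sound hP hC hB rfl hc hν hh hτ hz
  have k2 : (1 : ℝ) ≤ fx SC := le_of_eq fx_one.symm
  unfold tM0 tMW
  exact xg_sound hC hc hν hP.hq.2 hVn hN2 hC.ha hB (mul_pos hβ (Real.exp_pos _)) k1 hC.ht1.1 hE2 hG
    zero_le_one zero_le_one k2 k2 hx

theorem xot_sound {P : Par} {μ q g kk c ν h τ Γ U0 UW Ue : ℝ} (hP : P.Ok μ q g kk) {C : Cl}
    (hC : C.Has μ c ν h τ) {e2 Vn N2 G r0 rW re : ℕ} (hE2 : g / 2 * τ ^ 2 ≤ fx e2)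
    (hVn : 1 + c ^ 2 / μ ^ 2 ≤ fx Vn) (hN2 : 1 / μ ^ 2 ≤ fx N2)
    (hG : fx G ≤ Γ) (hG0 : 0 < G) (hc : 0 < c) (hν : 0 < ν) (hh : 0 < h) (hτ : 0 ≤ τ) (hν1 : ν ≤ 1)
    (htp : (1 + τ) * h ≤ Real.pi)
    (hU0 : U0 ≤ fx r0) (hUW : UW ≤ fx rW) (hUe : Ue ≤ fx re)
    {o : ℕ × ℕ × ℕ} (hx : xot P C e2 Vn N2 G r0 rW re = some o) :
    lI μ q g c ν h τ Γ U0 ≤ fx o.1 ∧ lW μ q g c ν h τ Γ UW ≤ fx o.2.1 ∧
    lE μ q g c ν h τ Γ Ue ≤ fx o.2.2 := by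
  have ht0 : 0 < (1 + τ) * h := by positivity
  have hμ := hP.pos
  unfold xot at hx
  obtain ⟨b, hb, hx⟩ := bind_some' hx
  obtain ⟨i, hi, hx⟩ := bind_some' hx
  obtain ⟨j, hj, hx⟩ := bind_some' hx
  obtain ⟨a, ha, hx⟩ := bind_some' hx
  obtain ⟨b0, bW⟩ := b
  obtain ⟨i0, iW, ie⟩ := i
  obtain ⟨j0, jW, je⟩ := j
  obtain ⟨a0, aW⟩ := a
  have kb := xh_sound hP hC hG hc hν hτ hν1 hb
  have ki := xjm_sound hP hC hE2 hVn hN2 hG hc hν hh hν1 htp hi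
  have kj := xjb_sound hP hC hE2 hVn hN2 hG hc hν hh hν1 htp hj
  have ka := lfr_sound hP hC ht0 hG hc hν hτ ha
  simp only [Option.some.injEq] at hx
  rw [← hx]
  have nB : 0 ≤ LBW μ c ν h τ Γ := by
    have hΓ0 : 0 ≤ Γ := (fx_nonneg G).trans hG
    have hπ := Real.pi_pos
    unfold LBW
    have := hP.le
    unfold LQb La
    have h1 : 0 ≤ μ - ν / 2 := by linarith
    positivity
  refine ⟨?_, ?_, ?_⟩
  · unfold lI
    exact addU (addU (addU kb.1 ka.1) (addU ki.1 kj.1)) hU0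
  · unfold lW
    exact addU (addU (addU (mulU kb.1 kb.2 nB) ka.2) (addU ki.2.1 kj.2.1)) hUW
  · unfold lE
    exact addU (divU (addU (addU kb.1 ka.1) (addU ki.2.2 kj.2.2)) hG hG0) hUe

theorem fin6_sound {F0 F1 F2 G k m0 mW o0 oW eO : ℕ} {kt M0 MW O0 OW OE Γ : ℝ}
    (hG : fx G ≤ Γ) (hG0 : 0 < G)
    (hx : fin6 F0 F1 F2 G k m0 mW o0 oW eO = true) (hk : kt ≤ fx k) (hk0 : 0 ≤ kt)
    (h1 : M0 ≤ fx m0) (h10 : 0 ≤ M0) (h2 : MW ≤ fx mW) (h3 : O0 ≤ fx o0) (h30 : 0 ≤ O0)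
    (h4 : OW ≤ fx oW) (h5 : OE ≤ fx eO) :
    M0 + O0 ≤ fx F0 ∧
    √((M0 + O0) * (MW + kt ^ 2 * M0 + (√OW + kt * √O0) ^ 2)) ≤ fx F1 ∧
    MW + kt ^ 2 * M0 + (√OW + kt * √O0) ^ 2 + M0 / Γ + OE ≤ fx F2 := by
  unfold fin6 at hx
  simp only [Bool.and_eq_true, Nat.ble_eq] at hx
  obtain ⟨⟨hx0, hx1⟩, hx2⟩ := hx
  have k1 := addU h1 h3
  have k2 := addU (sqrtU h4) (mulU hk (sqrtU h3) (Real.sqrt_nonneg _))
  have k3 := mulU k2 k2 (by positivity)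
  have k4 := mulU (mulU hk hk hk0) h1 h10
  have k5 := addU (addU h2 k4) k3
  have e : MW + kt ^ 2 * M0 + (√OW + kt * √O0) ^ 2 =
      MW + kt * kt * M0 + (√OW + kt * √O0) * (√OW + kt * √O0) := by ring
  rw [← e] at k5
  refine ⟨k1.trans (fx_mono hx0), ?_, ?_⟩
  · refine le_trans (sqrtU ?_) (fx_mono hx1)
    refine (mul_le_mul_of_nonneg_left k5 (by positivity)).trans ?_
    exact mulU k1 le_rfl (fx_nonneg _)
  · exact (addU (addU k5 (divU h1 hG hG0)) h5).trans (fx_mono hx2)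

theorem gF0_nonneg {V c ν a b x Γ Z E : ℝ} (hc : 0 < c) (ha : 0 ≤ a) (hx : 0 ≤ x) :
    0 ≤ gF0 V c ν a b x Γ Z E := by
  unfold gF0
  have : 0 ≤ gm c ν a b x Γ := by
    unfold gm
    refine le_min zero_le_one ?_
    positivity
  positivity

theorem La_nonneg {μ ν T : ℝ} (hμ : 1 ≤ μ) (hν1 : ν ≤ 1) : 0 ≤ La μ ν T := by
  unfold La
  have : 0 ≤ μ - ν / 2 := by linarith
  have h2 : 0 ≤ max 1 T := zero_le_one.trans (le_max_left _ _)
  positivity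

/-- soundness of the checker from the data of the cell -/
theorem chkC_sound {P : Par} {μ q g kk c ν h τ Γ β U0 UW Ue : ℝ} (hP : P.Ok μ q g kk) {C : Cl}
    (hC : C.Has μ c ν h τ) {e2 Vn N2 G s F0 F1 F2 r0 rW re : ℕ} {B : I}
    (hE2 : g / 2 * τ ^ 2 ≤ fx e2)
    (hVn : 1 + c ^ 2 / μ ^ 2 ≤ fx Vn) (hN2 : 1 / μ ^ 2 ≤ fx N2)
    (hG : fx G ≤ Γ) (hG0 : 0 < G) (hc : 0 < c) (hν : 0 < ν) (hh : 0 < h) (hτ : 0 ≤ τ) (hν1 : ν ≤ 1)
    (htp : (1 + τ) * h ≤ Real.pi) (hβ : 0 < β)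
    (hB : Mem (β * Real.exp (-(fx s * ((1 + τ) * h * c / μ)))) B)
    (hO : 0 ≤ lI μ q g c ν h τ Γ U0)
    (hU0 : U0 ≤ fx r0) (hUW : UW ≤ fx rW) (hUe : Ue ≤ fx re)
    (hx : chkC P F0 F1 F2 r0 rW re G C s B N2 Vn e2 = true) :
    LOk μ q g kk c ν h τ Γ β (fx s) U0 UW Ue (fx F0) (fx F1) (fx F2) := by
  unfold chkC at hx
  cases hm : xmn P C e2 Vn N2 G s B with
  | none => rw [hm] at hx; exact absurd hx (by simp)
  | some m =>
    rw [hm] at hx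
    cases ho : xot P C e2 Vn N2 G r0 rW re with
    | none => rw [ho] at hx; exact absurd hx (by simp)
    | some o =>
      rw [ho] at hx
      have k1 := xmn_sound hP hC hE2 hVn hN2 hG hc hν hh hτ hβ hB hm
      have k2 := xot_sound hP hC hE2 hVn hN2 hG hG0 hc hν hh hτ hν1 htp hU0 hUW hUe ho
      have hk0 : 0 ≤ kk := hP.hk.nonneg
      have hμ := hP.pos
      have hk : kk * τ ≤ fx (mU C.u.2 P.k.2) := by
        rw [mul_comm]
        exact mulU hC.hu.2 hP.hk.2 hk0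
      have n1 : 0 ≤ tM0 μ q g c ν h τ Γ β (fx s) := by
        unfold tM0
        exact gF0_nonneg hc (La_nonneg hP.le hν1) (by linarith)
      have k := fin6_sound hG hG0 hx hk (by positivity) k1.1 n1 k1.2 k2.1 hO k2.2.1 k2.2.2
      exact ⟨k.1, k.2.1, k.2.2⟩

theorem lI_nonneg {μ q g c ν h τ Γ U0 : ℝ} (hμ : 1 ≤ μ) (hc : 0 < c) (hν : 0 < ν) (hh : 0 < h)
    (hτ : 0 ≤ τ) (hν1 : ν ≤ 1) (hΓ : 0 ≤ Γ) (htp : (1 + τ) * h ≤ Real.pi)
    (hA : 0 ≤ iA μ c ν h τ) (hU : 0 ≤ U0) : 0 ≤ lI μ q g c ν h τ Γ U0 := by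
  have hpi := Real.pi_pos
  have htp0 : 0 < Ltp h τ := by unfold Ltp; linarith
  have h1 : 0 ≤ LB0 μ q g c ν h τ Γ := by unfold LB0; positivity
  have h2 : 0 ≤ LF0 μ q g c ν h τ Γ := by unfold LF0; positivity
  have h3 : 0 ≤ LJ0 μ q g c ν h τ Γ := by unfold LJ0; positivity
  have h4 : 0 ≤ tI0 μ q g c ν h τ Γ := by
    unfold tI0
    exact gF0_nonneg hc hA (by positivity)
  have h5 : 0 ≤ (if (1 + τ) * h ≤ 6 / 5 then LF0 μ q g c ν h τ Γ else 0) := by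
    split_ifs
    · exact h2
    · exact le_rfl
  unfold lI
  positivity

/-- **Soundness of `chkL`.** -/
theorem chkL_sound {P : Par} {μ q g kk c ν h τ Γ U0 UW Ue f0 f1 f2 : ℝ} (hP : P.Ok μ q g kk)
    {F0 F1 F2 r0 rW re G : ℕ} {ci ni hi ui : I}
    (hx : chkL P F0 F1 F2 r0 rW re G ci ni hi ui = true)
    (hG : fx G ≤ Γ) (hc : 0 < c) (hν : 0 < ν) (hν1 : ν ≤ 1) (hh : 0 < h) (hτ : 0 ≤ τ)
    (htp : (1 + τ) * h ≤ Real.pi) (mc : Mem c ci) (mn : Mem ν ni) (mh : Mem h hi) (mu : Mem τ ui)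
    (hA : 0 ≤ iA μ c ν h τ)
    (hU : 0 ≤ U0) (hU0 : U0 ≤ fx r0) (hUW : UW ≤ fx rW) (hUe : Ue ≤ fx re)
    (hf0 : fx F0 ≤ f0) (hf1 : fx F1 ≤ f1) (hf2 : fx F2 ≤ f2) :
    ∃ β σ : ℝ, ((β = bq ((1 + τ) * h) ∧ (1 + τ) * h ≤ 6 / 5) ∨ β = 11 / 25) ∧ 0 < β ∧
      0 ≤ σ ∧ σ ≤ 1 ∧ LOk μ q g kk c ν h τ Γ β σ U0 UW Ue f0 f1 f2 := by
  have hC := mk_has hP mc mn mh mu hν1
  have hμ := hP.pos
  have ht0 : 0 < (1 + τ) * h := by positivity
  unfold chkL at hx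
  simp only at hx
  rw [Bool.and_eq_true, blt_iff] at hx
  obtain ⟨hG0, hx⟩ := hx
  generalize mk P ci ni hi ui = C at hx hC
  obtain ⟨β, hβ, hmb⟩ := exists_beta hC ht0
  have hb0 := beta_pos ht0 hβ
  generalize bb C = b at hx hmb
  have hs1 : min SC (sstep C b (sstep C b SC)) ≤ SC := min_le_left _ _
  generalize min SC (sstep C b (sstep C b SC)) = s at hx hs1
  have hΓ0 : 0 ≤ Γ := (fx_nonneg G).trans hG
  have hB : Mem (β * Real.exp (-(fx s * ((1 + τ) * h * c / μ)))) (xB C b s) := by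
    unfold xB
    exact hmb.mul (Mem.mul ⟨le_rfl, le_rfl⟩ hC.hT).expn
  have hN2 : 1 / μ ^ 2 ≤ fx (mU P.N.2 P.N.2) := by
    refine le_trans (le_of_eq ?_) (mulU hP.hN.2 hP.hN.2 (by positivity))
    field_simp
  have hVn : 1 + c ^ 2 / μ ^ 2 ≤ fx (SC + mU C.c2.2 (mU P.N.2 P.N.2)) := by
    refine addU (le_of_eq fx_one.symm) ?_
    rw [div_eq_mul_one_div]
    exact mulU hC.hc2.2 hN2 (by positivity)
  have hE2 : g / 2 * τ ^ 2 ≤ fx (mU (mU C.u.2 C.u.2) P.g.2) := by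
    rw [mul_comm, pow_two]
    exact mulU (mulU hC.hu.2 hC.hu.2 hτ) hP.hg.2 hP.hg.nonneg
  have k := chkC_sound hP hC hE2 hVn hN2 hG hG0 hc hν hh hτ hν1 htp hb0 hB
    (lI_nonneg hP.le hc hν hh hτ hν1 hΓ0 htp hA hU) hU0 hUW hUe hx
  refine ⟨β, fx s, hβ, hb0, fx_nonneg s, ?_, k.f0.trans hf0, k.f1.trans hf1, k.f2.trans hf2⟩
  rw [← fx_one]
  exact fx_mono hs1

end SokalCel
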