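import Pool.Agent.Lib_MP_af4de1_v3.CelCore

/-!
# Cells: bisection along a given tree (only the leaves are evaluated) (helper4)

`BT.L` leaf, `BT.X a b`, `BT.Y a b`, `BT.Z a b` : halve the first, second, third side.
-/

set_option autoImplicit false

namespace SokalCel

open SokalFN

/-- a bisection tree of a box in three variables -/
inductive BT : Type
  | L : BT
  | X : BT → BT → BT
  | Y : BT → BT → BT
  | Z : BT → BT → BT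

/-- `ok` on all leaves of the tree -/
def bisT (ok : ℕ → ℕ → ℕ → ℕ → ℕ → ℕ → Bool) : BT → ℕ → ℕ → ℕ → ℕ → ℕ → ℕ → Bool
  | BT.L, x0, x1, y0, y1, z0, z1 => ok x0 x1 y0 y1 z0 z1
  | BT.X a b, x0, x1, y0, y1, z0, z1 =>
    bisT ok a x0 (Nat.div (Nat.add x0 x1) 2) y0 y1 z0 z1 &&
      bisT ok b (Nat.div (Nat.add x0 x1) 2) x1 y0 y1 z0 z1
  | BT.Y a b, x0, x1, y0, y1, z0, z1 =>
    bisT ok a x0 x1 y0 (Nat.div (Nat.add y0 y1) 2) z0 z1 &&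
      bisT ok b x0 x1 (Nat.div (Nat.add y0 y1) 2) y1 z0 z1
  | BT.Z a b, x0, x1, y0, y1, z0, z1 =>
    bisT ok a x0 x1 y0 y1 z0 (Nat.div (Nat.add z0 z1) 2) &&
      bisT ok b x0 x1 y0 y1 (Nat.div (Nat.add z0 z1) 2) z1

theorem bisT_sound {P : ℝ → ℝ → ℝ → Prop} {ok : ℕ → ℕ → ℕ → ℕ → ℕ → ℕ → Bool}
    (hok : ∀ x0 x1 y0 y1 z0 z1, ok x0 x1 y0 y1 z0 z1 = true → ∀ x y z : ℝ, fx x0 ≤ x → x ≤ fx x1 →
      fx y0 ≤ y → y ≤ fx y1 → fx z0 ≤ z → z ≤ fx z1 → P x y z) :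
    ∀ (t : BT) (x0 x1 y0 y1 z0 z1 : ℕ), bisT ok t x0 x1 y0 y1 z0 z1 = true → ∀ x y z : ℝ,
      fx x0 ≤ x → x ≤ fx x1 → fx y0 ≤ y → y ≤ fx y1 → fx z0 ≤ z → z ≤ fx z1 → P x y z := by
  intro t
  induction t with
  | L => intro x0 x1 y0 y1 z0 z1 h; exact hok _ _ _ _ _ _ h
  | X a b iha ihb =>
    intro x0 x1 y0 y1 z0 z1 h x y z h1 h2 h3 h4 h5 h6
    rw [bisT, Bool.and_eq_true] at h
    rcases le_total x (fx (Nat.div (Nat.add x0 x1) 2)) with hx | hx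
    · exact iha _ _ _ _ _ _ h.1 x y z h1 hx h3 h4 h5 h6
    · exact ihb _ _ _ _ _ _ h.2 x y z hx h2 h3 h4 h5 h6
  | Y a b iha ihb =>
    intro x0 x1 y0 y1 z0 z1 h x y z h1 h2 h3 h4 h5 h6
    rw [bisT, Bool.and_eq_true] at h
    rcases le_total y (fx (Nat.div (Nat.add y0 y1) 2)) with hx | hx
    · exact iha _ _ _ _ _ _ h.1 x y z h1 h2 h3 hx h5 h6
    · exact ihb _ _ _ _ _ _ h.2 x y z h1 h2 hx h4 h5 h6
  | Z a b iha ihb =>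
    intro x0 x1 y0 y1 z0 z1 h x y z h1 h2 h3 h4 h5 h6
    rw [bisT, Bool.and_eq_true] at h
    rcases le_total z (fx (Nat.div (Nat.add z0 z1) 2)) with hx | hx
    · exact iha _ _ _ _ _ _ h.1 x y z h1 h2 h3 h4 h5 hx
    · exact ihb _ _ _ _ _ _ h.2 x y z h1 h2 h3 h4 hx h6

end SokalCel
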