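import Pool.Agent.Lib_MP_af4de1_v3.CelRC
import Pool.Agent.Lib_MP_af4de1_v3.CelTree

/-!
# Cells, right side: the test of a box of the runs of field `e`, and the constants of the classes (helper4)
-/

set_option autoImplicit false

namespace SokalCel

open SokalFN

/-- the interval of `c` -/
def chC (ch : Bool) (x0 x1 : ℕ) : I := bif ch then (x0, x1) else ico (x0, x1)
/-- the interval of `ν` -/
def chN (ch : Bool) (x0 x1 : ℕ) : I := bif ch then ico (x0, x1) else (x0, x1)

/-- `π`, upper bound -/
abbrev piX : ℕ := 3454225729823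

/-- one box of a run of `e`; `U0`, `U1`: `τ0`, `E` : lower bound of `G0` -/
def okE (P : Par) (U0 U1 E s0 sW se : ℕ) (ch : Bool) (x0 x1 y0 y1 z0 z1 : ℕ) : Bool :=
  let c := chC ch x0 x1
  let C := mk P c (chN ch x0 x1) (y0, y1) (z0, z1)
  let hc := mL y0 c.1
  let v := dL z0 U1
  let w := dU z1 U0
  Nat.blt piX C.t.1 || Nat.blt (ic 11 10).2 (mL (mL v hc) (mL v hc)) ||
    Nat.blt (piX / 2 + 1) (mL v y0) ||
    chkR P C (max (dL E (mU w w)) (mL (ic 499 10).1 (mL hc hc))) s0 sW se
      16492674416 (mL 32985348833 v) (mL v v)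

/-- class `Γ < 10` -/
abbrev pRA : Par := ⟨(1374389534720, 1374389534721), (879609302220, 879609302221),
  (1484340697497, 1484340697498), (659706976665, 659706976666), (1319413953331, 1319413953332)⟩
/-- class `10 ≤ Γ < 20` -/
abbrev pRB : Par := ⟨(1374389534720, 1374389534721), (879609302220, 879609302221),
  (1561306511441, 1561306511442), (714682558054, 714682558055), (1429365116108, 1429365116109)⟩
/-- class `20 ≤ Γ` -/
abbrev pRC : Par := ⟨(1374389534720, 1374389534721), (879609302220, 879609302221),
  (1814194185830, 1814194185831), (934584883609, 934584883610), (1869169767219, 1869169767220)⟩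

end SokalCel
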