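import Pool.Agent.Lib_MP_af4de1_v3.CelRM2
import Pool.Agent.Lib_MP_af4de1_v3.CelRB
import Pool.Agent.Lib_MP_af4de1_v3.CelRF
import Pool.Agent.Lib_MP_af4de1_v3.CelRI
import Pool.Agent.Lib_MP_af4de1_v3.CenTR

/-!
# Cells, right side: the CHECKER of one cell (helper15)

`chkR P C G s0 sW se F0 F1 F2`: `G` lower bound of `Γ`, `s0 sW se` constants of rest and far, `F0 F1 F2` targets.
The level constant `q` is replaced by `min q (1 + kk τ h c)`.
-/

set_option autoImplicit false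

namespace SokalCel

open SokalFN

/-- `6/5`, lower bound -/
abbrev sxL : ℕ := 1319413953331
/-- `6/5`, upper bound -/
abbrev sxU : ℕ := 1319413953332

/-- level constant of the cell: `min q (1 + kk τ h c)` -/
def lvP (P : Par) (C : Cl) : Par :=
  ⟨P.M, P.N, imn P.q (ia (SC, SC) (im P.k (im C.u (im C.h C.c)))), P.g, P.k⟩

/-- interval of `(1 - cos t)/t²` for `t ≤ 6/5` -/
def bP (C : Cl) : I := (bL (min C.t.2 sxU), bU C.t.1)

/-- interval of `bet t` -/
def bB (C : Cl) : I :=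
  bif Nat.ble sxU C.t.1 then ic 11 25 else
    bif Nat.ble C.t.2 sxL then bP C else
      (min (bP C).1 (ic 11 25).1, max (bP C).2 (ic 11 25).2)

/-- last step: `kt` upper bound of `kk τ` -/
def finR (kt m0 mW me o0 oW oe F0 F1 F2 : ℕ) : Bool :=
  let d := sqU oW + mU kt (sqU o0)
  let w := mW + mU d d
  Nat.ble (m0 + o0) F0 && Nat.ble (w + (me + oe)) F2 && Nat.ble (mU (m0 + o0) w) (mL F1 F1)

/-- the front, nothing for `6/5 ≤ t` -/
def xfR (P : Par) (C : Cl) (G : ℕ) : Option (ℕ × ℕ) :=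
  bif Nat.ble sxU C.t.1 then some (0, 0) else xfr P C (bP C) G

/-- THE CHECKER of one cell, right side -/
def chkR (P : Par) (C : Cl) (G s0 sW se F0 F1 F2 : ℕ) : Bool :=
  match xmR (lvP P C) C (bB C) G with
  | none => false
  | some (m0, mW, me) =>
    match xbr (lvP P C) C G with
    | none => false
    | some (b0, bW, be) =>
      match xfR (lvP P C) C G with
      | none => false
      | some (f0, fW) =>
        match xiR (lvP P C) C G with
        | none => false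
        | some (i0, iW) =>
          finR (mU P.k.2 C.u.2) m0 mW me (b0 + f0 + i0 + s0) (bW + fW + iW + sW)
            (be + mU (f0 + i0) (dU SC G) + se) F0 F1 F2

/-! ### the real sums -/

/-- front: `P I0` (half Gaussian), nothing for `6/5 ≤ t` -/
noncomputable def RFF (μ q g c ν h τ Γ : ℝ) : ℝ :=
  if (1 + τ) * h < 6 / 5 then RF0 μ q g c ν h τ Γ else 0

/-- front: `P IW R/h²` -/
noncomputable def RFV (μ q g c ν h τ Γ : ℝ) : ℝ :=
  if (1 + τ) * h < 6 / 5 then RF0 μ q g c ν h τ Γ * (RFW μ c ν τ Γ / c ^ 2) else 0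

/-- behind, front, image: `P I0` -/
noncomputable def RO0 (μ q g c ν h τ Γ : ℝ) : ℝ :=
  RB0 μ q g c ν h τ Γ + RFF μ q g c ν h τ Γ + (RI0 μ q g c ν h τ Γ + RJ0 μ q g c ν h τ Γ)

/-- behind, front, image: `P IW R/h²` -/
noncomputable def ROW (μ q g c ν h τ Γ : ℝ) : ℝ :=
  RBW μ q g c ν h τ Γ + RFV μ q g c ν h τ Γ +
    (RI0 μ q g c ν h τ Γ * RIW μ c ν h τ Γ + RJ0 μ q g c ν h τ Γ * RJW μ c ν h τ Γ)

/-- behind, front, image: `P Ie/Γ` -/
noncomputable def ROe (μ q g c ν h τ Γ : ℝ) : ℝ :=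
  RBE μ q g c ν h τ Γ +
    (RFF μ q g c ν h τ Γ + (RI0 μ q g c ν h τ Γ + RJ0 μ q g c ν h τ Γ)) / Γ

/-! ### soundness -/

theorem sxL_le : fx sxL ≤ 6 / 5 := by unfold fx sxL; norm_num
theorem le_sxU : 6 / 5 < fx sxU := by unfold fx sxU; norm_num

theorem lvP_ok {P : Par} {μ q g kk c ν h τ : ℝ} (hP : P.Ok μ q g kk) {C : Cl}
    (hC : C.Has μ c ν h τ) : (lvP P C).Ok μ (min q (1 + kk * τ * (h * c))) g kk := by
  refine ⟨hP.hM, hP.hN, ?_, hP.hg, hP.hk, hP.pos, hP.le⟩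
  have h1 := Mem.one.add (hP.hk.mul (hC.hu.mul (hC.hh.mul hC.hc)))
  rw [← mul_assoc] at h1
  exact hP.hq.min h1

theorem hp_ok {a : ℕ} (h : a ≤ sxU) :
    (mU a a / 24 + 1 + (mU (mU (mU a a) (mU a a)) (mU a a) / 40320 + 1)) ≤
      549755813888 + mL (mU a a) (mU a a) / 720 := by
  have m1 : ∀ x y x' y' : ℕ, x ≤ x' → y ≤ y' → mU x y ≤ mU x' y' := by
    intro x y x' y' h1 h2
    unfold mU
    exact Nat.add_le_add_right (Nat.div_le_div_right (Nat.mul_le_mul h1 h2)) 1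
  have h1 : mU a a ≤ 1583296744000 := (m1 _ _ _ _ h h).trans (by decide)
  have h2 : mU (mU (mU a a) (mU a a)) (mU a a) ≤ 3283124128370 :=
    (m1 _ _ _ _ (m1 _ _ _ _ h1 h1) h1).trans (by decide)
  omega

theorem mem_bP {C : Cl} {θ : ℝ} (ht : Mem θ C.t) (h0 : 0 < θ) (h1 : θ ≤ 6 / 5) :
    Mem (bq θ) (bP C) := by
  refine ⟨bL_le h0 ?_ (hp_ok (min_le_right _ _)), le_bU h0 ht.1 (by nlinarith)⟩
  rcases le_total C.t.2 sxU with h | h
  · rw [min_eq_left h]; exact ht.2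
  · rw [min_eq_right h]; exact h1.trans le_sxU.le

theorem mem_bB {C : Cl} {θ : ℝ} (ht : Mem θ C.t) (h0 : 0 < θ) : Mem (SokalCen.bet θ) (bB C) := by
  have hc : Mem (11 / 25 : ℝ) (ic 11 25) := by
    have := Mem.const 11 25 (by norm_num)
    exact_mod_cast this
  unfold bB SokalCen.bet
  cases h1 : Nat.ble sxU C.t.1 with
  | true =>
    rw [Nat.ble_eq] at h1
    have h2 : 6 / 5 < θ := le_sxU.trans_le ((fx_mono h1).trans ht.1)
    rw [cond_true, if_neg (not_le.2 h2)]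
    exact hc
  | false =>
    rw [cond_false]
    cases h2 : Nat.ble C.t.2 sxL with
    | true =>
      rw [Nat.ble_eq] at h2
      have h3 : θ ≤ 6 / 5 := ht.2.trans ((fx_mono h2).trans sxL_le)
      rw [cond_true, if_pos h3]
      exact mem_bP ht h0 h3
    | false =>
      rw [cond_false]
      split_ifs with h3
      · have h4 := mem_bP ht h0 h3
        exact ⟨(fx_mono (min_le_left _ _)).trans h4.1, h4.2.trans (fx_mono (le_max_left _ _))⟩
      · exact ⟨(fx_mono (min_le_right _ _)).trans hc.1, hc.2.trans (fx_mono (le_max_right _ _))⟩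

theorem xfR_sound {P : Par} {μ q g kk c ν h τ Γ : ℝ} (hP : P.Ok μ q g kk) {C : Cl}
    (hC : C.Has μ c ν h τ) {G : ℕ} (hG : fx G ≤ Γ) (hc : 0 < c) (hν : 0 < ν) (hh : 0 < h)
    (hτ : 0 ≤ τ) {a a' : ℕ} (hx : xfR P C G = some (a, a')) :
    RFF μ q g c ν h τ Γ ≤ fx a ∧ RFV μ q g c ν h τ Γ ≤ fx a' := by
  unfold xfR at hx
  unfold RFF RFV
  cases h1 : Nat.ble sxU C.t.1 with
  | true =>
    rw [h1, cond_true] at hx
    rw [Nat.ble_eq] at h1
    have h2 : 6 / 5 < (1 + τ) * h := le_sxU.trans_le ((fx_mono h1).trans hC.ht.1)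
    rw [if_neg (not_lt.2 h2.le), if_neg (not_lt.2 h2.le)]
    exact ⟨fx_nonneg _, fx_nonneg _⟩
  | false =>
    rw [h1, cond_false] at hx
    split_ifs with h2
    · have h3 := xfr_sound hP hC (mem_bP hC.ht (by positivity) h2.le) hG hc hν hτ hx
      exact ⟨h3.1, h3.2.1⟩
    · exact ⟨fx_nonneg _, fx_nonneg _⟩

/-! ### nonnegativity of the main part -/

theorem RcA_pos {μ ν T : ℝ} (hμ : 1 ≤ μ) (hν : 0 ≤ ν) (hν1 : ν ≤ 1) (hT : 0 ≤ T) : 0 < Ra μ ν T := by
  have h1 := sS_le hT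
  have h2 : ν * sS (min 1 T) ≤ 23 / 16 := by
    have h3 : 0 ≤ sS (min 1 T) := by
      unfold sS
      have : 0 ≤ min 1 T := le_min one_pos.le hT
      positivity
    nlinarith
  unfold Ra
  have h3 : 0 < μ - ν * sS (min 1 T) / 2 := by linarith
  have h4 : 0 < max 1 T := lt_max_of_lt_left one_pos
  positivity

theorem RcM_nonneg {μ q kk g c ν h τ Γ β : ℝ} (hμ : 1 ≤ μ) (hk : 0 ≤ kk) (hc : 0 < c) (hν : 0 < ν)
    (hν1 : ν ≤ 1) (hh : 0 < h) (hτ : 0 ≤ τ) (hβ : 0 < β) (hΓ : 0 < Γ) :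
    0 ≤ RM0 μ q g c ν h τ Γ β ∧ 0 ≤ RMW μ q kk g c ν h τ Γ β := by
  have hμ0 : 0 < μ := by linarith
  obtain ⟨T, hT⟩ : ∃ T, T = (1 + τ) * h * c / μ := ⟨_, rfl⟩
  have hT0 : 0 < T := by rw [hT]; positivity
  have hA0 := RcA_pos hμ hν.le hν1 hT0.le
  have hR0 : 0 < RQ μ c ν T β := by unfold RQ; positivity
  have hX0 : 0 ≤ RX μ g c ν τ T β Γ := by unfold RX; exact (Real.exp_pos _).le
  have hV0 : 0 ≤ RV μ q c ν T β := by unfold RV; exact Real.sqrt_nonneg _
  have hY0 : 0 ≤ RY μ g c ν τ T β Γ := by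
    unfold RY Rk
    refine le_min (by linarith) ?_
    have := Real.pi_pos
    positivity
  have ho0 : 0 ≤ Ro μ c ν τ T β := by
    unfold Ro
    positivity
  have hm0 : 0 ≤ Rm1 μ c ν τ T β Γ := by
    unfold Rm1
    positivity
  constructor
  · unfold RM0
    rw [← hT]
    positivity
  · unfold RMW
    rw [← hT]
    refine mul_nonneg hV0 (le_min ?_ ?_)
    · unfold RF
      positivity
    · unfold RG
      positivity

/-- last step -/
theorem finR_sound {kt m0 mW me o0 oW oe F0 F1 F2 : ℕ} {K M0 MW Me O0 OW Oe : ℝ}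
    (h : finR kt m0 mW me o0 oW oe F0 F1 F2 = true) (hK : K ≤ fx kt) (hK0 : 0 ≤ K)
    (h1 : M0 ≤ fx m0) (h2 : MW ≤ fx mW) (h3 : Me ≤ fx me) (h4 : O0 ≤ fx o0) (h5 : OW ≤ fx oW)
    (h6 : Oe ≤ fx oe) (hW : 0 ≤ MW) :
    M0 + O0 ≤ fx F0 ∧ √((M0 + O0) * (MW + (√OW + K * √O0) ^ 2)) ≤ fx F1 ∧
      MW + (√OW + K * √O0) ^ 2 + (Me + Oe) ≤ fx F2 := by
  unfold finR at h
  simp only [Bool.and_eq_true, Nat.ble_eq] at h
  obtain ⟨⟨g1, g2⟩, g3⟩ := h
  have d1 : √OW + K * √O0 ≤ fx (sqU oW + mU kt (sqU o0)) :=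
    addU (sqrtU h5) (mulU hK (sqrtU h4) (Real.sqrt_nonneg _))
  have d0 : 0 ≤ √OW + K * √O0 := by positivity
  have w1 : MW + (√OW + K * √O0) ^ 2 ≤
      fx (mW + mU (sqU oW + mU kt (sqU o0)) (sqU oW + mU kt (sqU o0))) := by
    refine addU h2 ?_
    rw [pow_two]
    exact mulU d1 d1 d0
  have a1 := addU h1 h4
  refine ⟨a1.trans (fx_mono g1), ?_, (addU w1 (addU h3 h6)).trans (fx_mono g2)⟩
  rw [Real.sqrt_le_left (fx_nonneg _)]
  refine (mulU a1 w1 (by positivity)).trans ((fx_mono g3).trans ?_)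
  rw [pow_two]
  exact mL_le _ _

/-- THE CHECKER IS RIGHT. `S0 SW Se`: behind, front, image, rest and far. -/
theorem chkR_sound {P : Par} {μ q g kk c ν h τ Γ : ℝ} (hP : P.Ok μ q g kk) {C : Cl}
    (hC : C.Has μ c ν h τ) {G s0 sW se F0 F1 F2 : ℕ} (hG : fx G ≤ Γ) (hc : 0 < c) (hν : 0 < ν)
    (hν1 : ν ≤ 1) (hh : 0 < h) (hτ : 0 ≤ τ) (htp : (1 + τ) * h ≤ Real.pi)
    (hx : chkR P C G s0 sW se F0 F1 F2 = true) {q' S0 SW Se : ℝ}
    (hq : q' = min q (1 + kk * τ * (h * c)))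
    (h0 : S0 ≤ RO0 μ q' g c ν h τ Γ + fx s0) (hW : SW ≤ ROW μ q' g c ν h τ Γ + fx sW)
    (he : Se ≤ ROe μ q' g c ν h τ Γ + fx se) :
    RM0 μ q' g c ν h τ Γ (SokalCen.bet ((1 + τ) * h)) + S0 ≤ fx F0 ∧
    √((RM0 μ q' g c ν h τ Γ (SokalCen.bet ((1 + τ) * h)) + S0) *
      (RMW μ q' kk g c ν h τ Γ (SokalCen.bet ((1 + τ) * h)) + (√SW + kk * τ * √S0) ^ 2)) ≤ fx F1 ∧
    RMW μ q' kk g c ν h τ Γ (SokalCen.bet ((1 + τ) * h)) + (√SW + kk * τ * √S0) ^ 2 +
      (RMe μ q' g c ν h τ Γ (SokalCen.bet ((1 + τ) * h)) + Se) ≤ fx F2 := by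
  have hP' : (lvP P C).Ok μ q' g kk := by rw [hq]; exact lvP_ok hP hC
  have ht0 : 0 < (1 + τ) * h := by positivity
  have hB := mem_bB hC.ht ht0
  have hβ := (SokalCen.win_bet ht0).1
  unfold chkR at hx
  cases e1 : xmR (lvP P C) C (bB C) G with
  | none => rw [e1] at hx; simp at hx
  | some m =>
    obtain ⟨m0, mW, me⟩ := m
    rw [e1] at hx
    cases e2 : xbr (lvP P C) C G with
    | none => simp [e2] at hx
    | some b =>
      obtain ⟨b0, bW, be⟩ := b
      rw [e2] at hx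
      cases e3 : xfR (lvP P C) C G with
      | none => simp [e3] at hx
      | some f =>
        obtain ⟨f0, fW⟩ := f
        rw [e3] at hx
        cases e4 : xiR (lvP P C) C G with
        | none => simp [e4] at hx
        | some i =>
          obtain ⟨i0, iW⟩ := i
          rw [e4] at hx
          simp only at hx
          obtain ⟨k1, k2, k3⟩ := xmR_sound hP' hC hB hG hc hν hν1 hh hτ e1
          obtain ⟨k4, k5, k6⟩ := xbr_sound hP' hC hG hc hν hh hτ hν1 e2
          obtain ⟨k7, k8⟩ := xfR_sound hP' hC hG hc hν hh hτ e3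
          obtain ⟨k9, k10⟩ := xiR_sound hP' hC hG hc hν hh hτ hν1 htp e4
          have hG0 : 0 < G := by
            unfold xmR at e1
            simp only at e1
            cases hok : okR (lvP P C) C (bB C) G with
            | false => rw [hok] at e1; simp at e1
            | true =>
              unfold okR at hok
              simp only [Bool.and_eq_true, blt_iff] at hok
              exact hok.2
          have hΓ : 0 < Γ := (fx_pos hG0).trans_le hG
          obtain ⟨_, n2⟩ := RcM_nonneg (q := q') (g := g) hP.le hP.hk.nonneg hc hν hν1 hh hτ hβ hΓ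
          have hRFF : 0 ≤ RFF μ q' g c ν h τ Γ := by
            unfold RFF RF0
            split_ifs
            · positivity
            · exact le_rfl
          have hRI : 0 ≤ RI0 μ q' g c ν h τ Γ + RJ0 μ q' g c ν h τ Γ := by
            unfold RI0 RJ0
            positivity
          refine finR_sound hx (mulU hP.hk.2 hC.hu.2 hτ) (mul_nonneg hP.hk.nonneg hτ) k1 k2 k3
            (h0.trans ?_) (hW.trans ?_) (he.trans ?_) n2
          · unfold RO0
            exact addU (addU (addU k4 k7) k9) le_rfl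
          · unfold ROW
            exact addU (addU (addU k5 k8) k10) le_rfl
          · unfold ROe
            refine addU (addU k6 ?_) le_rfl
            have h1 := mulU (addU k7 k9) (divU (le_of_eq fx_one.symm) hG hG0) (by positivity)
            refine le_trans (le_of_eq ?_) h1
            ring

end SokalCel
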