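import Pool.Agent.Lib_MP_af4de1_v3.CelRC
import Pool.Agent.Lib_MP_af4de1_v3.RSum

/-!
# Cells, right side: the checker gives `RunP` (helper15)
-/

set_option autoImplicit false

namespace SokalCel

open SokalFN

/-- THE CHECKER GIVES THE THREE INEQUALITIES, `q' = min q (1 + kk τ h c)`. -/
theorem chkR_run {P : Par} {μ q g kk c ν h τ Γ : ℝ} (hP : P.Ok μ q g kk) {C : Cl}
    (hC : C.Has μ c ν h τ) {G s0 sW se F0 F1 F2 : ℕ} (hG : fx G ≤ Γ) (hc : 0 < c) (hν : 0 < ν)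
    (hν1 : ν ≤ 1) (hh : 0 < h) (hτ : 0 ≤ τ) (htp : (1 + τ) * h ≤ Real.pi)
    (hx : chkR P C G s0 sW se F0 F1 F2 = true) {b0 bW be f0 f1 f2 : ℝ}
    (h0 : b0 ≤ fx s0) (hW : bW ≤ fx sW) (he : be ≤ fx se)
    (g0 : fx F0 ≤ f0) (g1 : fx F1 ≤ f1) (g2 : fx F2 ≤ f2) :
    RunP μ (min q (1 + kk * τ * (h * c))) kk g c ν h τ Γ (SokalCen.bet ((1 + τ) * h))
      b0 bW be f0 f1 f2 := by
  obtain ⟨q', hq⟩ : ∃ q', q' = min q (1 + kk * τ * (h * c)) := ⟨_, rfl⟩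
  rw [← hq]
  have k := chkR_sound hP hC hG hc hν hν1 hh hτ htp hx hq
    (S0 := XS0 μ q' g c ν h τ Γ b0) (SW := XSW μ q' g c ν h τ Γ bW)
    (Se := XSe μ q' g c ν h τ Γ be)
    (by unfold XS0 RO0 XF0 RFF; linarith)
    (by unfold XSW ROW XFW RFV; linarith)
    (by unfold XSe ROe XF0 RFF; linarith)
  exact ⟨k.1.trans g0, k.2.1.trans g1, k.2.2.trans g2⟩

end SokalCel
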