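import Pool.Agent.Lib_MP_af4de1_v3.CelRM

/-!
# Cells, right side: evaluator of the main part
-/

set_option autoImplicit false

namespace SokalCel

open SokalFN

/-- data of the main part of a cell (right side) -/
structure RD where
  T1 : I
  a : I
  Q : I
  X : ℕ
  Pf : ℕ
  eT : ℕ
  es2 : ℕ
  m1 : ℕ
  a2 : ℕ
  w0 : ℕ
  gs : ℕ
  oo : ℕ
  cr : ℕ
  Yv : ℕ
  N2 : ℕ
  t2 : ℕ

/-- the numbers -/
def mkR (P : Par) (C : Cl) (B : I) (G : ℕ) : RD :=
  let T1 := imn (SC, SC) C.T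
  let a := xaR P C.n C.T
  let Q := ia (im a C.c2) (im C.n B)
  let Y := ia (id' C.c2 B) (id' C.n a)
  let e1 := mL (mL C.t1.1 C.t1.1) (dL SC Y.2)
  let e2 := mU (mU C.u.2 C.u.2) P.g.2
  let X := eN (mL G (e1 - e2))
  let V := mU (SC + mU C.c2.2 (mU P.N.2 P.N.2)) (dU SC Q.1)
  let eT := dU SC (eNL T1.2)
  let es := e1U T1.2
  let es2 := mU es es
  let l := dU (mU C.n.2 B.2) Q.1
  let o := dU (mU a.2 C.c.2) Q.1
  let gs := mU (mU C.n.2 (dU SC Q.1)) (dU SC G) / 2 + 1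
  let N2 := mU P.N.2 P.N.2
  let t2 := mU C.t1.2 C.t1.2
  let kt := mU P.k.2 C.u.2
  let oo := mU C.t1.2 o
  let cr := mU (2 * oo) (sqU (dU (mU C.n.2 (dU SC Q.1)) (mL piL G)))
  let Xh := X / 2 + 1
  let pQ := mL (mL piL C.n.1) Q.1
  { T1 := T1, a := a, Q := Q, X := X, Pf := sqU (mU P.q.2 V / 2 + 1), eT := eT, es2 := es2,
    m1 := mU (mU t2 (mU l l)) N2 + mU (mU C.c2.2 gs) N2,
    a2 := mU eT (SC + mU kt (mU C.h.2 C.c.2)), w0 := mU eT (mU kt kt), gs := gs, oo := oo, cr := cr,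
    Yv := bif Nat.blt 0 pQ then min Xh (mU (mU (mU (mU C.t1.2 a.2) C.c.2) (sqU (dU G pQ))) X) else Xh,
    N2 := N2, t2 := t2 }

/-- admissibility -/
def okR (P : Par) (C : Cl) (B : I) (G : ℕ) : Bool :=
  let a := xaR P C.n C.T
  let Y := ia (id' C.c2 B) (id' C.n a)
  let Q := ia (im a C.c2) (im C.n B)
  let e1 := mL (mL C.t1.1 C.t1.1) (dL SC Y.2)
  let e2 := mU (mU C.u.2 C.u.2) P.g.2
  Nat.blt 0 B.1 && Nat.blt 0 a.1 && Nat.blt 0 Q.1 && Nat.ble e2 e1 && Nat.ble SC (2 * mL G (e1 - e2)) &&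
    Nat.blt 0 (eNL (imn (SC, SC) C.T).2) && Nat.blt 0 (mL piL G) && Nat.blt 0 G

/-- full weight -/
def wF (D : RD) : ℕ := mU D.X (D.w0 + mU D.es2 D.m1 + mU D.a2 (mU D.oo D.oo + D.gs))

/-- truncated weight -/
def wG (D : RD) : ℕ :=
  mU (D.X / 2 + 1) (D.w0 + mU D.es2 D.m1 + mU D.a2 (mU D.oo D.oo + D.cr + D.gs)) +
    mU D.Yv (D.w0 + mU D.es2 (mU D.t2 D.N2) + mU D.a2 (mU D.oo D.oo))

/-- the main part, right: `(m0, mW, me)` -/
def xmR (P : Par) (C : Cl) (B : I) (G : ℕ) : Option (ℕ × ℕ × ℕ) :=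
  let D := mkR P C B G
  let m0 := mU D.Pf (D.X / 2 + 1 + D.Yv)
  bif okR P C B G then some (m0, mU D.Pf (min (wF D) (wG D)), mU (mU D.eT m0) (dU SC G)) else none

/-! ### soundness -/

/-- the real quantities of a cell -/
structure RH (D : RD) (μ q kk g c ν h τ Γ β T : ℝ) : Prop where
  Q0 : 0 < RQ μ c ν T β
  a0 : 0 < Ra μ ν T
  X : RX μ g c ν τ T β Γ ≤ fx D.X
  V : RV μ q c ν T β ≤ fx D.Pf
  eT : Real.exp (min 1 T) ≤ fx D.eT
  es : Re1 T ^ 2 ≤ fx D.es2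
  m1 : Rm1 μ c ν τ T β Γ ≤ fx D.m1
  a2 : Real.exp (min 1 T) * (1 + kk * τ * (h * c)) ≤ fx D.a2
  w0 : Real.exp (min 1 T) * (kk * τ) ^ 2 ≤ fx D.w0
  gs : ν / (2 * Γ * RQ μ c ν T β) ≤ fx D.gs
  oo : Ro μ c ν τ T β ≤ fx D.oo
  cr : 2 * Ro μ c ν τ T β * √(ν / (Real.pi * Γ * RQ μ c ν T β)) ≤ fx D.cr
  Y : RY μ g c ν τ T β Γ ≤ fx D.Yv
  tN : (1 + τ) ^ 2 / μ ^ 2 ≤ fx (mU D.t2 D.N2)

theorem half_le {x : ℝ} {n : ℕ} (h : x ≤ fx n) : x / 2 ≤ fx (n / 2 + 1) := by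
  have h1 := fx_divU n 2 (by norm_num)
  push_cast at h1
  linarith

theorem R_exp {G E : ℕ} {Γ e : ℝ} (hG : fx G ≤ Γ) (hG0 : 0 < G) (hE : fx E ≤ e)
    (heG : SC ≤ 2 * mL G E) : Real.exp (-(Γ * e)) ≤ fx (eN (mL G E)) ∧
      √Γ * Real.exp (-(Γ * e)) ≤ √(fx G) * fx (eN (mL G E)) := by
  have hGr : 0 < fx G := fx_pos hG0
  have he0 : 0 ≤ e := (fx_nonneg _).trans hE
  have hGE : fx (mL G E) ≤ fx G * e := mulL le_rfl hE
  have h2G : 1 ≤ 2 * (fx G * e) := by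
    have h1 : fx SC ≤ fx (2 * mL G E) := fx_mono heG
    rw [fx_one] at h1
    have h2 : fx (2 * mL G E) = fx (mL G E) * 2 := by rw [mul_comm, fx_mulN]; norm_num
    linarith
  have hXG : Real.exp (-(fx G * e)) ≤ fx (eN (mL G E)) := expNegU hGE
  refine ⟨?_, (sqrt_exp_anti hGr hG h2G).trans (mul_le_mul_of_nonneg_left hXG (Real.sqrt_nonneg _))⟩
  refine le_trans (Real.exp_le_exp.2 ?_) hXG
  have := mul_le_mul_of_nonneg_right hG he0
  linarith

theorem R_e0 {t1 u Y g : I} {τ g0 y : ℝ} (ht : Mem (1 + τ) t1) (hu : Mem τ u) (hg : Mem (g0 / 2) g)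
    (hy : Mem y Y) (hy0 : 0 < y) (hτ : 0 ≤ τ)
    (hle : mU (mU u.2 u.2) g.2 ≤ mL (mL t1.1 t1.1) (dL SC Y.2)) :
    fx (mL (mL t1.1 t1.1) (dL SC Y.2) - mU (mU u.2 u.2) g.2) ≤ (1 + τ) ^ 2 * (1 / y) - g0 / 2 * τ ^ 2 := by
  refine subL ?_ ?_ hle
  · rw [pow_two]
    exact mulL (mulL ht.1 ht.1) (divL (le_of_eq fx_one) hy.2 hy0)
  · have h1 := mulU hu.2 hu.2 hτ
    have hg0 : 0 ≤ g0 / 2 := (fx_nonneg _).trans hg.1
    have h2 := mulU h1 hg.2 hg0
    refine le_trans (le_of_eq ?_) h2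
    ring

theorem R_V {c2 N q Q : I} {c μ q0 R : ℝ} (hc : Mem (c ^ 2) c2) (hN : Mem (1 / μ) N) (hq : Mem q0 q)
    (hR : Mem R Q) (hQ0 : 0 < Q.1) (hμ : 0 < μ) :
    √(q0 * (1 + c ^ 2 / μ ^ 2) / (2 * R)) ≤
      fx (sqU (mU q.2 (mU (SC + mU c2.2 (mU N.2 N.2)) (dU SC Q.1)) / 2 + 1)) := by
  have hR0 : 0 < R := (fx_pos hQ0).trans_le hR.1
  have h1 : 1 + c ^ 2 / μ ^ 2 ≤ fx (SC + mU c2.2 (mU N.2 N.2)) := by
    refine addU (le_of_eq fx_one.symm) ?_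
    have h2 := mulU hc.2 (mulU hN.2 hN.2 (by positivity)) (by positivity)
    refine le_trans (le_of_eq ?_) h2
    field_simp
  have hV := mulU h1 (divU (le_of_eq fx_one.symm) hR.1 hQ0) (by positivity)
  have h3 := mulU hq.2 hV (by positivity)
  apply sqrtU
  refine le_trans (le_of_eq ?_) (half_le h3)
  field_simp

theorem R_gs {n Q : I} {ν R Γ : ℝ} {G : ℕ} (hn : Mem ν n) (hR : Mem R Q) (hQ0 : 0 < Q.1) (hG : fx G ≤ Γ)
    (hG0 : 0 < G) : ν / (2 * Γ * R) ≤ fx (mU (mU n.2 (dU SC Q.1)) (dU SC G) / 2 + 1) := by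
  have hR0 : 0 < R := (fx_pos hQ0).trans_le hR.1
  have hΓ0 : 0 < Γ := (fx_pos hG0).trans_le hG
  have h0 := mulU hn.2 (divU (le_of_eq fx_one.symm) hR.1 hQ0) (by positivity)
  have h1 := mulU h0 (divU (le_of_eq fx_one.symm) hG hG0) (by positivity)
  refine le_trans (le_of_eq ?_) (half_le h1)
  field_simp

theorem R_m1 {t2 l N2 c2 gs : ℕ} {a b d e f : ℝ} (h1 : a ≤ fx t2) (h2 : b ≤ fx l) (h3 : 1 / d ≤ fx N2)
    (h4 : e ≤ fx c2) (h5 : f ≤ fx gs) (hb : 0 ≤ b) (hd : 0 < d) (hf : 0 ≤ f) :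
    a * b ^ 2 / d + e * f / d ≤ fx (mU (mU t2 (mU l l)) N2 + mU (mU c2 gs) N2) := by
  refine addU ?_ ?_
  · have k1 := mulU (mulU h1 (mulU h2 h2 hb) (by positivity)) h3 (by positivity)
    refine le_trans (le_of_eq ?_) k1
    field_simp
  · have k1 := mulU (mulU h4 h5 hf) h3 (by positivity)
    refine le_trans (le_of_eq ?_) k1
    field_simp

theorem R_cr {o n Q : I} {oo : ℕ} {x ν R Γ : ℝ} {G : ℕ} (hx : x ≤ fx oo) (hn : Mem ν n) (hR : Mem R Q)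
    (hQ0 : 0 < Q.1) (hG : fx G ≤ Γ) (hG0 : 0 < G) (hpG : 0 < mL piL G) :
    2 * x * √(ν / (Real.pi * Γ * R)) ≤
      fx (mU (2 * oo) (sqU (dU (mU n.2 (dU SC Q.1)) (mL piL G)))) := by
  have hR0 : 0 < R := (fx_pos hQ0).trans_le hR.1
  have hΓ0 : 0 < Γ := (fx_pos hG0).trans_le hG
  have h0 := mulU hn.2 (divU (le_of_eq fx_one.symm) hR.1 hQ0) (by positivity)
  have h1 : 2 * x ≤ fx (2 * oo) := by
    have h2 : fx (2 * oo) = fx oo * 2 := by rw [mul_comm, fx_mulN]; norm_num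
    linarith
  refine mulU h1 (sqrtU ?_) (Real.sqrt_nonneg _)
  have h3 := divU h0 (mulL piL_le hG) hpG
  refine le_trans (le_of_eq ?_) h3
  field_simp

theorem R_Y {X p b : ℕ} {u pν Γ x : ℝ} {G : ℕ} (hp : fx p ≤ pν) (hb : u ≤ fx b) (hu : 0 ≤ u)
    (hx : x ≤ fx X) (hx2 : √Γ * x ≤ √(fx G) * fx X) :
    min (x / 2) (√Γ * (u / √pν) * x) ≤
      fx (bif Nat.blt 0 p then min (X / 2 + 1) (mU (mU b (sqU (dU G p))) X) else X / 2 + 1) := by
  by_cases h0 : 0 < p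
  · have h1 : Nat.blt 0 p = true := by rw [blt_iff]; exact h0
    rw [h1, cond_true]
    refine minU (half_le hx) ?_
    have h2 : √(fx G) / √pν ≤ fx (sqU (dU G p)) := by
      rw [← Real.sqrt_div (fx_nonneg G)]
      exact sqrtU (divU le_rfl hp h0)
    have h4 := mulU (mulU hb h2 (by positivity)) (le_refl (fx X)) (fx_nonneg _)
    refine le_trans ?_ h4
    have h5 : 0 ≤ u / √pν := by positivity
    calc √Γ * (u / √pν) * x = (u / √pν) * (√Γ * x) := by ring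
      _ ≤ (u / √pν) * (√(fx G) * fx X) := mul_le_mul_of_nonneg_left hx2 h5
      _ = _ := by ring
  · have h1 : Nat.blt 0 p = false := by
      cases hh : Nat.blt 0 p with
      | false => rfl
      | true => rw [blt_iff] at hh; exact absurd hh h0
    rw [h1, cond_false]
    exact (min_le_left _ _).trans (half_le hx)

theorem RH_of {P : Par} {μ q g kk c ν h τ Γ β T : ℝ} (hP : P.Ok μ q g kk) {C : Cl}
    (hC : C.Has μ c ν h τ) {B : I} {G : ℕ} (hB : Mem β B) (hT : T = (1 + τ) * h * c / μ)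
    (hG : fx G ≤ Γ) (hc : 0 < c) (hν : 0 < ν) (hν1 : ν ≤ 1) (hh : 0 < h) (hτ : 0 ≤ τ)
    (hok : okR P C B G = true) : RH (mkR P C B G) μ q kk g c ν h τ Γ β T := by
  have hμ := hP.pos
  have hmT : Mem T C.T := by rw [hT]; exact hC.hT
  have hT0 : 0 < T := by rw [hT]; positivity
  have hmT1 : Mem (min 1 T) (imn (SC, SC) C.T) := Mem.one.min hmT
  have hCa : Mem (Ra μ ν T) (xaR P C.n C.T) := mem_xaR hP hC.hn hmT hν1
  unfold okR at hok
  simp only [Bool.and_eq_true, blt_iff, Nat.ble_eq] at hok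
  obtain ⟨⟨⟨⟨⟨⟨⟨hB0, ha0⟩, hQ0⟩, hele⟩, heG⟩, hE0⟩, hpG⟩, hG0⟩ := hok
  have hmQ : Mem (RQ μ c ν T β) (ia (im (xaR P C.n C.T) C.c2) (im C.n B)) := by
    unfold RQ; exact (hCa.mul hC.hc2).add (hC.hn.mul hB)
  have hA0 : 0 < Ra μ ν T := (fx_pos ha0).trans_le hCa.1
  have hβ0 : 0 < β := (fx_pos hB0).trans_le hB.1
  have hmY : Mem (c ^ 2 / β + ν / Ra μ ν T) (ia (id' C.c2 B) (id' C.n (xaR P C.n C.T))) :=
    (hC.hc2.div hB hB0).add (hC.hn.div hCa ha0)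
  have hΓ0 : 0 < Γ := (fx_pos hG0).trans_le hG
  have hR0 : 0 < RQ μ c ν T β := (fx_pos hQ0).trans_le hmQ.1
  have hk0 : 0 ≤ kk := hP.hk.nonneg
  have hE := R_e0 hC.ht1 hC.hu hP.hg hmY (by positivity) hτ hele
  have hX := R_exp hG hG0 hE heG
  have hes : Re1 T ≤ fx (e1U (imn (SC, SC) C.T).2) := e1U_ge hT0 hmT1.2
  have hes0 : 0 ≤ Re1 T := by
    unfold Re1
    have h1 : 0 < min 1 T := lt_min one_pos hT0
    have h2 := Real.add_one_le_exp (min 1 T)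
    exact div_nonneg (by linarith) h1.le
  have hN2 : 1 / μ ^ 2 ≤ fx (mU P.N.2 P.N.2) := by
    have h1 := mulU hP.hN.2 hP.hN.2 (by positivity)
    refine le_trans (le_of_eq ?_) h1
    field_simp
  have ht2 : (1 + τ) ^ 2 ≤ fx (mU C.t1.2 C.t1.2) := by
    have h1 := mulU hC.ht1.2 hC.ht1.2 (by positivity)
    rwa [← pow_two] at h1
  have hkt : kk * τ ≤ fx (mU P.k.2 C.u.2) := mulU hP.hk.2 hC.hu.2 hτ
  have heT : Real.exp (min 1 T) ≤ fx (dU SC (eNL (imn (SC, SC) C.T).2)) := expUp hmT1.2 hE0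
  have hgs := R_gs hC.hn hmQ hQ0 hG hG0
  have hto : Ro μ c ν τ T β ≤ fx (mU C.t1.2 (dU (mU (xaR P C.n C.T).2 C.c.2)
      (ia (im (xaR P C.n C.T) C.c2) (im C.n B)).1)) :=
    mulU hC.ht1.2 (divU (mulU hCa.2 hC.hc.2 hc.le) hmQ.1 hQ0) (by positivity)
  have hl := divU (mulU hC.hn.2 hB.2 hβ0.le) hmQ.1 hQ0
  exact {
    Q0 := hR0
    a0 := hA0
    X := hX.1
    V := R_V hC.hc2 hP.hN hP.hq hmQ hQ0 hμ
    eT := heT
    es := by
      rw [pow_two]
      exact mulU hes hes hes0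
    m1 := R_m1 ht2 hl hN2 hC.hc2.2 hgs (by positivity) (by positivity) (by positivity)
    a2 := mulU heT (addU (le_of_eq fx_one.symm) (mulU hkt (mulU hC.hh.2 hC.hc.2 hc.le) (by positivity)))
      (by positivity)
    w0 := by
      rw [pow_two]
      exact mulU heT (mulU hkt hkt (by positivity)) (by positivity)
    gs := hgs
    oo := hto
    cr := R_cr (o := C.c) hto hC.hn hmQ hQ0 hG hG0 hpG
    Y := R_Y (mulL (mulL piL_le hC.hn.1) hmQ.1)
      (mulU (mulU hC.ht1.2 hCa.2 hA0.le) hC.hc.2 hc.le) (by positivity) hX.1 hX.2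
    tN := by
      have h1 := mulU ht2 hN2 (by positivity)
      refine le_trans (le_of_eq ?_) h1
      ring }

theorem xmR_sound {P : Par} {μ q g kk c ν h τ Γ β : ℝ} (hP : P.Ok μ q g kk) {C : Cl}
    (hC : C.Has μ c ν h τ) {B : I} {G : ℕ} (hB : Mem β B)
    (hG : fx G ≤ Γ) (hc : 0 < c) (hν : 0 < ν) (hν1 : ν ≤ 1) (hh : 0 < h) (hτ : 0 ≤ τ)
    {x y z : ℕ} (hx : xmR P C B G = some (x, y, z)) :
    RM0 μ q g c ν h τ Γ β ≤ fx x ∧ RMW μ q kk g c ν h τ Γ β ≤ fx y ∧ RMe μ q g c ν h τ Γ β ≤ fx z := by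
  unfold xmR at hx
  simp only at hx
  cases hok : okR P C B G with
  | false => rw [hok] at hx; simp at hx
  | true =>
    rw [hok] at hx
    simp only [cond_true, Option.some.injEq, Prod.mk.injEq] at hx
    obtain ⟨hx0, hy0, hz0⟩ := hx
    have H := RH_of (T := (1 + τ) * h * c / μ) hP hC hB rfl hG hc hν hν1 hh hτ hok
    have hG0 : 0 < G := by
      unfold okR at hok
      simp only [Bool.and_eq_true, blt_iff] at hok
      exact hok.2
    obtain ⟨D, hD⟩ : ∃ D, D = mkR P C B G := ⟨_, rfl⟩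
    rw [← hD] at H hx0 hy0 hz0
    have hμ := hP.pos
    have hΓ0 : 0 < Γ := (fx_pos hG0).trans_le hG
    obtain ⟨T, hT⟩ : ∃ T, T = (1 + τ) * h * c / μ := ⟨_, rfl⟩
    have hT0 : 0 < T := by rw [hT]; positivity
    rw [← hT] at H
    have hk0 : 0 ≤ kk := hP.hk.nonneg
    have hA0 := H.a0
    have hR0 := H.Q0
    have hX0 : 0 ≤ RX μ g c ν τ T β Γ := by unfold RX; exact (Real.exp_pos _).le
    have hV0 : 0 ≤ RV μ q c ν T β := by unfold RV; exact Real.sqrt_nonneg _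
    have hY0 : 0 ≤ RY μ g c ν τ T β Γ := by
      unfold RY Rk
      refine le_min (by linarith) ?_
      have := Real.pi_pos
      positivity
    have ho0 : 0 ≤ Ro μ c ν τ T β := by
      unfold Ro
      positivity
    have hm0 : 0 ≤ Rm1 μ c ν τ T β Γ := by
      unfold Rm1
      positivity
    have hh2 := half_le H.X
    have h0 : RX μ g c ν τ T β Γ / 2 + RY μ g c ν τ T β Γ ≤ fx (D.X / 2 + 1 + D.Yv) := by
      rw [fx_add]
      exact add_le_add hh2 H.Y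
    have hM0 : RM0 μ q g c ν h τ Γ β ≤ fx x := by
      rw [← hx0]
      unfold RM0
      rw [← hT]
      exact mulU H.V h0 (by positivity)
    have hg0 : 0 ≤ ν / (2 * Γ * RQ μ c ν T β) := by positivity
    have hoo : Ro μ c ν τ T β ^ 2 ≤ fx (mU D.oo D.oo) := by
      rw [pow_two]
      exact mulU H.oo H.oo ho0
    have hes := H.es
    have q1 := addU H.w0 (mulU H.es H.m1 hm0)
    refine ⟨hM0, ?_, ?_⟩
    · rw [← hy0]
      unfold RMW
      rw [← hT]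
      have hF : RF μ kk g c ν h τ T β Γ ≤ fx (wF D) := by
        unfold RF wF
        exact mulU H.X (addU q1 (mulU H.a2 (addU hoo H.gs) (by positivity))) (by positivity)
      have hGG : RG μ kk g c ν h τ T β Γ ≤ fx (wG D) := by
        unfold RG wG
        refine addU (mulU hh2 (addU q1 (mulU H.a2 (addU (addU hoo H.cr) H.gs) (by positivity)))
          (by positivity)) ?_
        exact mulU H.Y (addU (addU H.w0 (mulU H.es H.tN (by positivity))) (mulU H.a2 hoo (by positivity)))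
          (by positivity)
      refine mulU H.V (minU hF hGG) (le_min ?_ ?_)
      · unfold RF; positivity
      · unfold RG; positivity
    · rw [← hz0]
      unfold RMe
      rw [← hT]
      have hM00 : 0 ≤ RM0 μ q g c ν h τ Γ β := by
        unfold RM0
        rw [← hT]
        positivity
      rw [← hx0] at hM0
      have h1 := mulU (mulU H.eT hM0 hM00) (divU (le_of_eq fx_one.symm) hG hG0) (by positivity)
      refine le_trans (le_of_eq ?_) h1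
      ring

end SokalCel
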