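import Mathlib

/-!
# The rest zone, left side, `Γ < 10`: one explicit real inequality

`1/c ≤ (2 π/3) y`, `y = 1/(h c)`, `r = Γ y² ≥ 49.9`; the left side is at most
`20 · 15.2 · 2.1 · y³ · exp (-19/40 (r - 49.9) - 20)` and `y³ ≤ (r/5.4)²/3`.
-/

set_option autoImplicit false

namespace SokalCel

open Real

theorem rest_exp20 : Real.exp (-20 : ℝ) ≤ 21 / 10 ^ 10 := by
  have h1 := Real.exp_one_gt_d9
  have h2 : (27182 / 10000 : ℝ) ^ 20 ≤ Real.exp 20 := by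
    have : Real.exp 20 = Real.exp 1 ^ 20 := by
      rw [← Real.exp_nat_mul]; norm_num
    rw [this]
    gcongr
    linarith
  rw [Real.exp_neg, inv_le_comm₀ (Real.exp_pos _) (by norm_num)]
  refine le_trans ?_ h2
  norm_num

/-- the common core: `20 · 32 · z²/3 · exp (-(19/40)(r - 49.9) - 20)`, `z = r/5.4` -/
theorem rest_core {r : ℝ} (hr : 499 / 10 ≤ r) :
    640 * ((r / (27 / 5)) ^ 2 / 3) * (Real.exp (-(19 / 40 * (r - 499 / 10))) * Real.exp (-20)) ≤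
      1 / 10000 := by
  obtain ⟨u, hu⟩ : ∃ u, u = r - 499 / 10 := ⟨_, rfl⟩
  have hu0 : 0 ≤ u := by linarith
  have hru : r = 499 / 10 + u := by linarith
  rw [← hu, hru]
  have e1 : (1 + 19 / 80 * u) ^ 2 * Real.exp (-(19 / 40 * u)) ≤ 1 := by
    have a1 : 1 + 19 / 80 * u ≤ Real.exp (19 / 80 * u) := by
      linarith [Real.add_one_le_exp (19 / 80 * u)]
    have a2 : (1 + 19 / 80 * u) ^ 2 ≤ Real.exp (19 / 80 * u) ^ 2 := by gcongr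
    have a3 : Real.exp (19 / 80 * u) ^ 2 * Real.exp (-(19 / 40 * u)) = 1 := by
      rw [← Real.exp_nat_mul, ← Real.exp_add]
      norm_num
      ring
    have := Real.exp_pos (-(19 / 40 * u))
    nlinarith
  have e2 : (499 / 10 + u) ^ 2 ≤ (499 / 10) ^ 2 * (1 + 19 / 80 * u) ^ 2 := by
    rw [← mul_pow]
    gcongr
    nlinarith
  have e3 : (499 / 10 + u) ^ 2 * Real.exp (-(19 / 40 * u)) ≤ (499 / 10) ^ 2 := by
    have := (Real.exp_pos (-(19 / 40 * u))).le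
    calc (499 / 10 + u) ^ 2 * Real.exp (-(19 / 40 * u)) ≤
        (499 / 10) ^ 2 * (1 + 19 / 80 * u) ^ 2 * Real.exp (-(19 / 40 * u)) := by gcongr
      _ = (499 / 10) ^ 2 * ((1 + 19 / 80 * u) ^ 2 * Real.exp (-(19 / 40 * u))) := by ring
      _ ≤ (499 / 10) ^ 2 * 1 := by gcongr
      _ = _ := by ring
  have e4 := rest_exp20
  have e5 := (Real.exp_pos (-20 : ℝ)).le
  calc 640 * (((499 / 10 + u) / (27 / 5)) ^ 2 / 3) *
        (Real.exp (-(19 / 40 * u)) * Real.exp (-20)) =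
      640 / 3 * (5 / 27) ^ 2 * ((499 / 10 + u) ^ 2 * Real.exp (-(19 / 40 * u))) *
        Real.exp (-20) := by ring
    _ ≤ 640 / 3 * (5 / 27) ^ 2 * (499 / 10) ^ 2 * (21 / 10 ^ 10) := by gcongr
    _ ≤ _ := by norm_num

theorem rest_L {c ν h τ Γ q : ℝ} (hc : 0 < c) (hν : 0 < ν) (h1 : c ^ 2 + ν ^ 2 = 1)
    (hh : 0 < h) (h2 : h ≤ 2 * Real.pi / 3) (hτ0 : 0 ≤ τ) (hτ : τ ≤ 3 / 4) (hG0 : 27 / 5 ≤ Γ)
    (hG1 : Γ < 10) (hr : 499 / 10 ≤ Γ / (h * c) ^ 2) (hq0 : 0 ≤ q) (hq : q ≤ 11 / 10) :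
    20 * (Real.exp (-(19 / 40 * (Γ / (h * c) ^ 2)) + 3 / 5 * (Γ * τ ^ 2)) *
      ((√(q * (1 + c ^ 2 / (5 / 4) ^ 2) * (5 / 4) / (4 / 5 * (1 / 20))) +
        5 / (1 / 20) * √(q * (1 + c ^ 2 / (5 / 4) ^ 2) * ν / (2 * Real.pi * (Γ / (h * c) ^ 2)))) /
          c)) * (1 / (h * c) ^ 2) ≤ 1 / 10000 := by
  have _ := hq0
  have hp := Real.pi_gt_d4
  have hp2 := Real.pi_lt_d4
  have hhc : 0 < h * c := by positivity
  obtain ⟨r, hrr⟩ : ∃ r, r = Γ / (h * c) ^ 2 := ⟨_, rfl⟩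
  rw [← hrr] at hr ⊢
  obtain ⟨Y, hY⟩ : ∃ Y, Y = 1 / (h * c) := ⟨_, rfl⟩
  have hY0 : 0 < Y := by rw [hY]; positivity
  have hY2 : 1 / (h * c) ^ 2 = Y ^ 2 := by rw [hY]; ring
  have hr2 : r = Γ * Y ^ 2 := by rw [hrr, ← hY2]; ring
  have hΓ : 0 < Γ := by linarith
  have hc1 : c ^ 2 ≤ 1 := by nlinarith
  have hν1 : ν ≤ 1 := by nlinarith
  -- exponent
  have hE : Real.exp (-(19 / 40 * r) + 3 / 5 * (Γ * τ ^ 2)) ≤
      Real.exp (-(19 / 40 * (r - 499 / 10))) * Real.exp (-20) := by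
    rw [← Real.exp_add]
    apply Real.exp_le_exp.mpr
    have a1 : τ ^ 2 ≤ 9 / 16 := by nlinarith
    have a2 : Γ * τ ^ 2 ≤ 10 * (9 / 16) := by gcongr
    linarith
  -- bracket
  have hB1 : √(q * (1 + c ^ 2 / (5 / 4) ^ 2) * (5 / 4) / (4 / 5 * (1 / 20))) ≤ 76 / 10 := by
    apply Real.sqrt_le_iff.mpr
    refine ⟨by norm_num, ?_⟩
    have a1 : q * (1 + c ^ 2 / (5 / 4) ^ 2) ≤ 11 / 10 * (1 + 1 / (5 / 4) ^ 2) := by gcongr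
    rw [div_le_iff₀ (by norm_num)]
    norm_num at a1 ⊢
    linarith
  have hB2 : √(q * (1 + c ^ 2 / (5 / 4) ^ 2) * ν / (2 * Real.pi * r)) ≤ 76 / 1000 := by
    apply Real.sqrt_le_iff.mpr
    refine ⟨by norm_num, ?_⟩
    have a1 : q * (1 + c ^ 2 / (5 / 4) ^ 2) * ν ≤ 11 / 10 * (1 + 1 / (5 / 4) ^ 2) * 1 := by gcongr
    rw [div_le_iff₀ (by positivity)]
    have a2 : (62830 / 10000) * (499 / 10) ≤ 2 * Real.pi * r := by gcongr; linarith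
    norm_num at a1 a2 ⊢
    nlinarith
  have hcY : 1 / c ≤ 20944 / 10000 * Y := by
    have : 1 / c = h * Y := by rw [hY]; field_simp
    rw [this]
    gcongr
    linarith
  have hB0 : 0 ≤ √(q * (1 + c ^ 2 / (5 / 4) ^ 2) * (5 / 4) / (4 / 5 * (1 / 20))) +
        5 / (1 / 20) * √(q * (1 + c ^ 2 / (5 / 4) ^ 2) * ν / (2 * Real.pi * r)) := by positivity
  have hX : (√(q * (1 + c ^ 2 / (5 / 4) ^ 2) * (5 / 4) / (4 / 5 * (1 / 20))) +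
        5 / (1 / 20) * √(q * (1 + c ^ 2 / (5 / 4) ^ 2) * ν / (2 * Real.pi * r))) / c ≤
      32 * Y := by
    rw [div_eq_mul_one_div]
    calc _ ≤ (152 / 10) * (20944 / 10000 * Y) := by
            gcongr
            linarith
      _ ≤ 32 * Y := by nlinarith
  have hz : Y ^ 2 ≤ r / (27 / 5) := by
    rw [le_div_iff₀ (by norm_num), hr2]
    nlinarith [sq_nonneg Y]
  have hYz : Y ≤ r / (27 / 5) / 3 := by
    have hz0 : 0 ≤ r / (27 / 5) / 3 := by positivity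
    refine (sq_le_sq₀ hY0.le hz0).mp (hz.trans ?_)
    have : 9 ≤ r / (27 / 5) := by rw [le_div_iff₀ (by norm_num)]; linarith
    nlinarith
  have hY3 : Y ^ 3 ≤ (r / (27 / 5)) ^ 2 / 3 := by
    have : Y ^ 3 = Y * Y ^ 2 := by ring
    rw [this]
    calc Y * Y ^ 2 ≤ (r / (27 / 5) / 3) * (r / (27 / 5)) := by gcongr
      _ = _ := by ring
  rw [hY2]
  have hcore := rest_core hr
  have hEE : 0 ≤ Real.exp (-(19 / 40 * (r - 499 / 10))) * Real.exp (-20) := by positivity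
  calc _ ≤ 20 * ((Real.exp (-(19 / 40 * (r - 499 / 10))) * Real.exp (-20)) * (32 * Y)) * Y ^ 2 := by
          gcongr
    _ = 640 * Y ^ 3 * (Real.exp (-(19 / 40 * (r - 499 / 10))) * Real.exp (-20)) := by ring
    _ ≤ 640 * ((r / (27 / 5)) ^ 2 / 3) *
          (Real.exp (-(19 / 40 * (r - 499 / 10))) * Real.exp (-20)) := by gcongr
    _ ≤ _ := hcore

/-- without the factor `20/(h c)²` -/
theorem rest_L1 {c ν h τ Γ q : ℝ} (hc : 0 < c) (hν : 0 < ν) (h1 : c ^ 2 + ν ^ 2 = 1)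
    (hh : 0 < h) (h2 : h ≤ 2 * Real.pi / 3) (hτ0 : 0 ≤ τ) (hτ : τ ≤ 3 / 4) (hG0 : 27 / 5 ≤ Γ)
    (hG1 : Γ < 10) (hr : 499 / 10 ≤ Γ / (h * c) ^ 2) (hq0 : 0 ≤ q) (hq : q ≤ 11 / 10) :
    Real.exp (-(19 / 40 * (Γ / (h * c) ^ 2)) + 3 / 5 * (Γ * τ ^ 2)) *
      ((√(q * (1 + c ^ 2 / (5 / 4) ^ 2) * (5 / 4) / (4 / 5 * (1 / 20))) +
        5 / (1 / 20) * √(q * (1 + c ^ 2 / (5 / 4) ^ 2) * ν / (2 * Real.pi * (Γ / (h * c) ^ 2)))) /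
          c) ≤ 1 / 10000 := by
  have h3 := rest_L hc hν h1 hh h2 hτ0 hτ hG0 hG1 hr hq0 hq
  have h4 : 1 ≤ 1 / (h * c) ^ 2 := by
    have a1 : Γ / (h * c) ^ 2 ≤ 10 / (h * c) ^ 2 := by gcongr
    have a2 : 10 / (h * c) ^ 2 = 10 * (1 / (h * c) ^ 2) := by ring
    linarith
  obtain ⟨W, hW⟩ : ∃ W, W = Real.exp (-(19 / 40 * (Γ / (h * c) ^ 2)) + 3 / 5 * (Γ * τ ^ 2)) *
      ((√(q * (1 + c ^ 2 / (5 / 4) ^ 2) * (5 / 4) / (4 / 5 * (1 / 20))) +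
        5 / (1 / 20) * √(q * (1 + c ^ 2 / (5 / 4) ^ 2) * ν / (2 * Real.pi * (Γ / (h * c) ^ 2)))) /
          c) := ⟨_, rfl⟩
  have hW0 : 0 ≤ W := by rw [hW]; positivity
  rw [← hW] at h3 ⊢
  nlinarith

/-- with the factor `3/Γ` -/
theorem rest_L3 {c ν h τ Γ q : ℝ} (hc : 0 < c) (hν : 0 < ν) (h1 : c ^ 2 + ν ^ 2 = 1)
    (hh : 0 < h) (h2 : h ≤ 2 * Real.pi / 3) (hτ0 : 0 ≤ τ) (hτ : τ ≤ 3 / 4) (hG0 : 27 / 5 ≤ Γ)
    (hG1 : Γ < 10) (hr : 499 / 10 ≤ Γ / (h * c) ^ 2) (hq0 : 0 ≤ q) (hq : q ≤ 11 / 10) :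
    3 / Γ * (Real.exp (-(19 / 40 * (Γ / (h * c) ^ 2)) + 3 / 5 * (Γ * τ ^ 2)) *
      ((√(q * (1 + c ^ 2 / (5 / 4) ^ 2) * (5 / 4) / (4 / 5 * (1 / 20))) +
        5 / (1 / 20) * √(q * (1 + c ^ 2 / (5 / 4) ^ 2) * ν / (2 * Real.pi * (Γ / (h * c) ^ 2)))) /
          c)) ≤ 1 / 10000 := by
  have h3 := rest_L1 hc hν h1 hh h2 hτ0 hτ hG0 hG1 hr hq0 hq
  have h4 : 3 / Γ ≤ 1 := by rw [div_le_one (by linarith)]; linarith
  obtain ⟨W, hW⟩ : ∃ W, W = Real.exp (-(19 / 40 * (Γ / (h * c) ^ 2)) + 3 / 5 * (Γ * τ ^ 2)) *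
      ((√(q * (1 + c ^ 2 / (5 / 4) ^ 2) * (5 / 4) / (4 / 5 * (1 / 20))) +
        5 / (1 / 20) * √(q * (1 + c ^ 2 / (5 / 4) ^ 2) * ν / (2 * Real.pi * (Γ / (h * c) ^ 2)))) /
          c) := ⟨_, rfl⟩
  have hW0 : 0 ≤ W := by rw [hW]; positivity
  rw [← hW] at h3 ⊢
  nlinarith

end SokalCel
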