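import Pool.Agent.Lib_MP_af4de1_v3.CelRC2
import Pool.Agent.Lib_MP_af4de1_v3.CelCov

/-!
# Cells, right side: the run over a box, both charts (helper10)
-/

set_option autoImplicit false

namespace SokalCel

open SokalFN SokalV3

/-- data of a run: constants, lower bound `G0` of `Γ`, upper bound `H` of `(h c)²`, constants of rest and far, targets -/
structure RnD where
  P : Par
  G0 : ℕ
  H : ℕ
  s0 : ℕ
  sW : ℕ
  se : ℕ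
  F0 : ℕ
  F1 : ℕ
  F2 : ℕ

/-- lower bound of `499/10` -/
abbrev g49 : ℕ := 54865630226022
/-- upper bound of `π` -/
abbrev piU : ℕ := 3454225729822

theorem g49_le : fx g49 ≤ 499 / 10 := by unfold fx g49; norm_num

theorem pi_le_piU : Real.pi ≤ fx piU := by
  have h := Real.pi_lt_d4
  unfold fx piU
  norm_num at h ⊢
  linarith

/-- the test of a cell: outside the domain, or the checker -/
def celR (K : RnD) (c n h u : I) : Bool :=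
  Nat.blt K.H (mL (mL h.1 c.1) (mL h.1 c.1)) || (Nat.blt piU (mL (SC + u.1) h.1) ||
    chkR K.P (mk K.P c n h u) (max K.G0 (mL g49 (mL (mL h.1 c.1) (mL h.1 c.1)))) K.s0 K.sW K.se K.F0 K.F1 K.F2)

/-- chart `c` -/
def okC (K : RnD) (c0 c1 h0 h1 u0 u1 : ℕ) : Bool := celR K (c0, c1) (ico (c0, c1)) (h0, h1) (u0, u1)

/-- chart `ν` -/
def okN (K : RnD) (n0 n1 h0 h1 u0 u1 : ℕ) : Bool := celR K (ico (n0, n1)) (n0, n1) (h0, h1) (u0, u1)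

/-- the domain of a run -/
structure DmR (K : RnD) (c ν h τ Γ : ℝ) : Prop where
  c0 : 0 < c
  n0 : 0 < ν
  n1 : ν ≤ 1
  cn : c ^ 2 + ν ^ 2 = 1
  h0 : 0 < h
  u0 : 0 ≤ τ
  tp : (1 + τ) * h ≤ Real.pi
  H : (h * c) ^ 2 ≤ fx K.H
  G0 : fx K.G0 ≤ Γ
  G1 : 499 / 10 * (h * c) ^ 2 ≤ Γ

/-- constants and targets of the statement against those of the run -/
structure RnD.Le (K : RnD) (b0 bW be f0 f1 f2 : ℝ) : Prop where
  b0 : b0 ≤ fx K.s0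
  bW : bW ≤ fx K.sW
  be : be ≤ fx K.se
  f0 : fx K.F0 ≤ f0
  f1 : fx K.F1 ≤ f1
  f2 : fx K.F2 ≤ f2

theorem celR_sound {K : RnD} {μ q g kk c ν h τ Γ b0 bW be f0 f1 f2 : ℝ} (hP : K.P.Ok μ q g kk)
    (L : K.Le b0 bW be f0 f1 f2) (D : DmR K c ν h τ Γ)
    {ci ni hi ui : I} (hc : Mem c ci) (hn : Mem ν ni) (hh : Mem h hi) (hu : Mem τ ui)
    (hx : celR K ci ni hi ui = true) :
    RunP μ (min q (1 + kk * τ * (h * c))) kk g c ν h τ Γ (SokalCen.bet ((1 + τ) * h)) b0 bW be f0 f1 f2 := by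
  have hm : fx (mL (mL hi.1 ci.1) (mL hi.1 ci.1)) ≤ (h * c) ^ 2 := by
    have h1 := mulL hh.1 hc.1
    have h2 := mulL h1 h1
    rwa [← pow_two] at h2
  unfold celR at hx
  rw [Bool.or_eq_true, Bool.or_eq_true, blt_iff, blt_iff] at hx
  rcases hx with h1 | h1 | h1
  · exfalso
    have h2 : fx K.H < fx (mL (mL hi.1 ci.1) (mL hi.1 ci.1)) := by
      unfold fx
      have : (K.H : ℝ) < (mL (mL hi.1 ci.1) (mL hi.1 ci.1) : ℕ) := by exact_mod_cast h1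
      gcongr
    linarith [D.H]
  · exfalso
    have h2 : fx piU < fx (mL (SC + ui.1) hi.1) := by
      unfold fx
      have : (piU : ℝ) < (mL (SC + ui.1) hi.1 : ℕ) := by exact_mod_cast h1
      gcongr
    have h3 : fx (SC + ui.1) ≤ 1 + τ := by
      rw [fx_add, fx_one]
      linarith [hu.1]
    have h4 := mulL h3 hh.1
    linarith [D.tp, pi_le_piU]
  · have hC := mk_has hP hc hn hh hu D.n1
    have hG : fx (max K.G0 (mL g49 (mL (mL hi.1 ci.1) (mL hi.1 ci.1)))) ≤ Γ := by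
      rcases max_choice K.G0 (mL g49 (mL (mL hi.1 ci.1) (mL hi.1 ci.1))) with e | e
      · rw [e]; exact D.G0
      · rw [e]; exact (mulL g49_le hm).trans D.G1
    exact chkR_run hP hC hG D.c0 D.n0 D.n1 D.h0 D.u0 D.tp h1 L.b0 L.bW L.be L.f0 L.f1 L.f2

/-- boxes side by side in the first variable -/
def ChB (ok : ℕ → ℕ → ℕ → ℕ → ℕ → ℕ → Bool) (wx wy wz n y0 y1 z0 z1 : ℕ) : ℕ → List ℕ → Prop
  | _, [] => True
  | a, b :: t => bis ok wx wy wz n a b y0 y1 z0 z1 = true ∧ ChB ok wx wy wz n y0 y1 z0 z1 b t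

theorem ChB.sound {P : ℝ → ℝ → ℝ → Prop} {ok : ℕ → ℕ → ℕ → ℕ → ℕ → ℕ → Bool}
    (hok : ∀ x0 x1 y0 y1 z0 z1, ok x0 x1 y0 y1 z0 z1 = true → ∀ x y z : ℝ, fx x0 ≤ x → x ≤ fx x1 →
      fx y0 ≤ y → y ≤ fx y1 → fx z0 ≤ z → z ≤ fx z1 → P x y z) {wx wy wz n y0 y1 z0 z1 : ℕ} :
    ∀ (l : List ℕ) (a : ℕ), ChB ok wx wy wz n y0 y1 z0 z1 a l → ∀ x y z : ℝ, fx a ≤ x →
      x ≤ fx (l.getLastD a) → fx y0 ≤ y → y ≤ fx y1 → fx z0 ≤ z → z ≤ fx z1 → x ≠ fx a → P x y z := by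
  intro l
  induction l with
  | nil =>
    intro a _ x y z h1 h2 _ _ _ _ hne
    exact absurd (le_antisymm h2 h1) hne
  | cons b t ih =>
    intro a h x y z h1 h2 h3 h4 h5 h6 hne
    rcases le_or_gt x (fx b) with hb | hb
    · exact bis_sound hok wx wy wz n _ _ _ _ _ _ h.1 x y z h1 hb h3 h4 h5 h6
    · refine ih b h.2 x y z hb.le ?_ h3 h4 h5 h6 hb.ne'
      rwa [List.getLastD_cons] at h2

/-- what one cell of chart `c` gives -/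
def PtC (K : RnD) (μ q g kk b0 bW be f0 f1 f2 c h τ : ℝ) : Prop :=
  ∀ ν Γ : ℝ, DmR K c ν h τ Γ →
    RunP μ (min q (1 + kk * τ * (h * c))) kk g c ν h τ Γ (SokalCen.bet ((1 + τ) * h)) b0 bW be f0 f1 f2

/-- what one cell of chart `ν` gives -/
def PtN (K : RnD) (μ q g kk b0 bW be f0 f1 f2 ν h τ : ℝ) : Prop :=
  ∀ c Γ : ℝ, DmR K c ν h τ Γ →
    RunP μ (min q (1 + kk * τ * (h * c))) kk g c ν h τ Γ (SokalCen.bet ((1 + τ) * h)) b0 bW be f0 f1 f2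

theorem okC_sound {K : RnD} {μ q g kk b0 bW be f0 f1 f2 : ℝ} (hP : K.P.Ok μ q g kk)
    (L : K.Le b0 bW be f0 f1 f2) (x0 x1 y0 y1 z0 z1 : ℕ) (hx : okC K x0 x1 y0 y1 z0 z1 = true) (x y z : ℝ)
    (a1 : fx x0 ≤ x) (a2 : x ≤ fx x1) (a3 : fx y0 ≤ y) (a4 : y ≤ fx y1) (a5 : fx z0 ≤ z) (a6 : z ≤ fx z1) :
    PtC K μ q g kk b0 bW be f0 f1 f2 x y z := fun _ _ D =>
  celR_sound hP L D ⟨a1, a2⟩ (Mem.co ⟨a1, a2⟩ D.cn D.n0.le) ⟨a3, a4⟩ ⟨a5, a6⟩ hx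

theorem okN_sound {K : RnD} {μ q g kk b0 bW be f0 f1 f2 : ℝ} (hP : K.P.Ok μ q g kk)
    (L : K.Le b0 bW be f0 f1 f2) (x0 x1 y0 y1 z0 z1 : ℕ) (hx : okN K x0 x1 y0 y1 z0 z1 = true) (x y z : ℝ)
    (a1 : fx x0 ≤ x) (a2 : x ≤ fx x1) (a3 : fx y0 ≤ y) (a4 : y ≤ fx y1) (a5 : fx z0 ≤ z) (a6 : z ≤ fx z1) :
    PtN K μ q g kk b0 bW be f0 f1 f2 x y z := fun _ _ D =>
  celR_sound hP L D (Mem.co ⟨a1, a2⟩ (by linarith [D.cn]) D.c0.le) ⟨a1, a2⟩ ⟨a3, a4⟩ ⟨a5, a6⟩ hx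

/-- **The run from the two charts**, any certificates: chart `c` up to `7/10`, chart `ν` up to `18/25`. -/
theorem run_of {K : RnD} {μ q g kk b0 bW be f0 f1 f2 t0 t1 : ℝ}
    (hC : ∀ c h τ : ℝ, 0 < c → c ≤ 7 / 10 → 0 < h → h ≤ 2 * Real.pi / 3 → t0 ≤ τ → τ ≤ t1 →
      PtC K μ q g kk b0 bW be f0 f1 f2 c h τ)
    (hN : ∀ ν h τ : ℝ, 0 < ν → ν ≤ 18 / 25 → 0 < h → h ≤ 2 * Real.pi / 3 → t0 ≤ τ → τ ≤ t1 →
      PtN K μ q g kk b0 bW be f0 f1 f2 ν h τ)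
    {c ν h τ Γ : ℝ} (D : DmR K c ν h τ Γ) (hh : h ≤ 2 * Real.pi / 3) (h0 : t0 ≤ τ) (h1 : τ ≤ t1) :
    RunP μ (min q (1 + kk * τ * (h * c))) kk g c ν h τ Γ (SokalCen.bet ((1 + τ) * h)) b0 bW be f0 f1 f2 := by
  rcases chart D.cn with h2 | h2
  · exact hC c h τ D.c0 h2 D.h0 hh h0 h1 ν Γ D
  · exact hN ν h τ D.n0 h2 D.h0 hh h0 h1 c Γ D

/-- **The run.** Chart `c` up to `7/10`, chart `ν` up to `18/25`. -/
theorem run_sound {K : RnD} {μ q g kk : ℝ} (hP : K.P.Ok μ q g kk) {wx wy wz n wx' wy' wz' n' y1 z0 z1 : ℕ}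
    {lc ln : List ℕ} (hC : ChB (okC K) wx wy wz n 0 y1 z0 z1 0 lc) (hN : ChB (okN K) wx' wy' wz' n' 0 y1 z0 z1 0 ln)
    (ec : 7 / 10 ≤ fx (lc.getLastD 0)) (en : 18 / 25 ≤ fx (ln.getLastD 0)) (ey : 2 * Real.pi / 3 ≤ fx y1)
    {b0 bW be f0 f1 f2 : ℝ} (L : K.Le b0 bW be f0 f1 f2)
    {c ν h τ Γ : ℝ} (D : DmR K c ν h τ Γ) (hh : h ≤ 2 * Real.pi / 3) (h0 : fx z0 ≤ τ) (h1 : τ ≤ fx z1) :
    RunP μ (min q (1 + kk * τ * (h * c))) kk g c ν h τ Γ (SokalCen.bet ((1 + τ) * h)) b0 bW be f0 f1 f2 := by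
  refine run_of (t0 := fx z0) (t1 := fx z1) ?_ ?_ D hh h0 h1
  · intro c h τ a1 a2 a3 a4 a5 a6
    exact ChB.sound (okC_sound hP L) lc 0 hC c h τ (by rw [fx_zero]; exact a1.le) (a2.trans ec)
      (by rw [fx_zero]; exact a3.le) (a4.trans ey) a5 a6 (by rw [fx_zero]; exact a1.ne')
  · intro ν h τ a1 a2 a3 a4 a5 a6
    exact ChB.sound (okN_sound hP L) ln 0 hN ν h τ (by rw [fx_zero]; exact a1.le) (a2.trans en)
      (by rw [fx_zero]; exact a3.le) (a4.trans ey) a5 a6 (by rw [fx_zero]; exact a1.ne')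

/-- from the scaled variables of regime I -/
theorem Scl.dmR {N : ℕ} {r δ η c ν h τ Γ : ℝ} (s : Scl N r δ η c ν h τ Γ) {K : RnD}
    (tp : (1 + τ) * h ≤ Real.pi) (H : (h * c) ^ 2 ≤ fx K.H) (G0 : fx K.G0 ≤ Γ) : DmR K c ν h τ Γ :=
  ⟨s.c0, s.n0, s.n1.le, s.cn, s.h0, s.u0, tp, H, G0, s.G1⟩

end SokalCel
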