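import Pool.Agent.Lib_MP_af4de1_v3.ShfE0
import Pool.Agent.Lib_MP_af4de1_v3.RSum

/-!
# Field `e`, right: the statement of the runs
-/

set_option autoImplicit false

namespace SokalCel

open SokalCen

/-- a run for `E1R`: class with level `(g, k, q)`, `eo1 = τ0 h`, `Γ ≥ G0`; `h = |ζ|`, `τ = eo1/|ζ|` -/
def RunE (q k g τ0 G0 b0 bW be : ℝ) : Prop := ∀ c ν h τ Γ : ℝ, DomE τ0 G0 c ν h τ Γ →
  RunP (5 / 4) (min q (1 + k * τ * (h * c))) k g c ν h τ Γ (bet ((1 + τ) * h)) b0 bW be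
    (3 / 200) (3 / 100 * (τ / τ0)) ((τ / τ0) ^ 2)

end SokalCel
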