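import Pool.Agent.Lib_MP_af4de1_v3.CelRC2
import Pool.Agent.Lib_MP_af4de1_v3.CelOkE
import Pool.Agent.Lib_MP_af4de1_v3.ShfRe0

/-!
# Cells, right side: the wrapper of the runs of field `e` (helper4)

`okE`: one box in (`x` = `c` or `ν`, `h`, `τ`), `Γ ≥ max (G0 τ0²/τ²) (49.9 (h c)²)`, targets `3/200`,
`(3/100) τ/τ0`, `(τ/τ0)²`.
-/

set_option autoImplicit false

namespace SokalCel

open SokalFN

theorem mem_chC {ch : Bool} {x0 x1 : ℕ} {c ν : ℝ} (h : c ^ 2 + ν ^ 2 = 1) (hc : 0 ≤ c)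
    (h0 : fx x0 ≤ (bif ch then c else ν)) (h1 : (bif ch then c else ν) ≤ fx x1) :
    Mem c (chC ch x0 x1) := by
  cases ch with
  | true => exact ⟨h0, h1⟩
  | false => exact chart_n (a := (x0, x1)) ⟨h0, h1⟩ h hc

theorem mem_chN {ch : Bool} {x0 x1 : ℕ} {c ν : ℝ} (h : c ^ 2 + ν ^ 2 = 1) (hν : 0 ≤ ν)
    (h0 : fx x0 ≤ (bif ch then c else ν)) (h1 : (bif ch then c else ν) ≤ fx x1) :
    Mem ν (chN ch x0 x1) := by
  cases ch with
  | true => exact chart_c (a := (x0, x1)) ⟨h0, h1⟩ h hν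
  | false => exact ⟨h0, h1⟩

theorem pi_leX : Real.pi ≤ fx piX := by
  have h := Real.pi_lt_d4
  unfold fx piX
  norm_num at h ⊢
  linarith

theorem le_piX {x : ℝ} {a : ℕ} (ha : fx a ≤ x) (hx : x ≤ Real.pi) : Nat.blt piX a = false := by
  cases h : Nat.blt piX a with
  | false => rfl
  | true =>
    rw [blt_iff] at h
    have h1 : fx piX < fx a := by
      unfold fx
      have : (piX : ℝ) < (a : ℝ) := by exact_mod_cast h
      gcongr
    linarith [pi_leX]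

theorem blt_false {x y : ℝ} {a b : ℕ} (ha : fx a ≤ x) (hb : y ≤ fx b) (hxy : x ≤ y) :
    Nat.blt b a = false := by
  cases h : Nat.blt b a with
  | false => rfl
  | true =>
    rw [blt_iff] at h
    have h1 : fx b < fx a := by
      unfold fx
      have : (b : ℝ) < (a : ℝ) := by exact_mod_cast h
      gcongr
    linarith

/-- what a run of `e` proves for a point -/
def PtE (q g kk τ0 G0 b0 bW be : ℝ) (c ν h τ : ℝ) : Prop :=
  ∀ Γ : ℝ, SokalCen.DomE τ0 G0 c ν h τ Γ →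
    RunP (5 / 4) (min q (1 + kk * τ * (h * c))) kk g c ν h τ Γ (SokalCen.bet ((1 + τ) * h)) b0 bW be
      (3 / 200) (3 / 100 * (τ / τ0)) ((τ / τ0) ^ 2)

theorem okE_sound {P : Par} {q g kk τ0 G0 b0 bW be : ℝ} (hP : P.Ok (5 / 4) q g kk)
    {U0 U1 E s0 sW se : ℕ} (hτ0 : 0 < τ0) (hU : fx U0 ≤ τ0) (hU0 : 0 < U0) (hU1 : τ0 ≤ fx U1)
    (hE : fx E ≤ G0) (h0 : b0 ≤ fx s0) (hW : bW ≤ fx sW) (he : be ≤ fx se) {ch : Bool}
    {x0 x1 y0 y1 z0 z1 : ℕ} (hx : okE P U0 U1 E s0 sW se ch x0 x1 y0 y1 z0 z1 = true)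
    {c ν h τ : ℝ} (a0 : fx x0 ≤ (bif ch then c else ν)) (a1 : (bif ch then c else ν) ≤ fx x1)
    (a2 : fx y0 ≤ h) (a3 : h ≤ fx y1) (a4 : fx z0 ≤ τ) (a5 : τ ≤ fx z1) :
    PtE q g kk τ0 G0 b0 bW be c ν h τ := by
  intro Γ D
  have hc := D.c0
  have hν := D.n0
  have hcn := D.cn
  have hh := D.h0
  have hτ : 0 < τ := by linarith [D.u1]
  have hν1 : ν ≤ 1 := by nlinarith
  have mc := mem_chC hcn hc.le a0 a1
  have mn := mem_chN hcn hν.le a0 a1
  have mh : Mem h (y0, y1) := ⟨a2, a3⟩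
  have mt : Mem τ (z0, z1) := ⟨a4, a5⟩
  have hC := mk_has hP mc mn mh mt hν1
  unfold okE at hx
  simp only at hx
  obtain ⟨hcL, ehc⟩ : ∃ x, x = mL y0 (chC ch x0 x1).1 := ⟨_, rfl⟩
  obtain ⟨v, ev⟩ : ∃ x, x = dL z0 U1 := ⟨_, rfl⟩
  obtain ⟨w, ew⟩ : ∃ x, x = dU z1 U0 := ⟨_, rfl⟩
  rw [← ehc, ← ev, ← ew] at hx
  have k1 : fx hcL ≤ h * c := by rw [ehc]; exact mulL a2 mc.1
  have k2 : fx v ≤ τ / τ0 := by rw [ev]; exact divL a4 hU1 hτ0
  have k3 : τ / τ0 ≤ fx w := by rw [ew]; exact divU a5 hU hU0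
  have q1 : Nat.blt piX (mk P (chC ch x0 x1) (chN ch x0 x1) (y0, y1) (z0, z1)).t.1 = false :=
    le_piX hC.ht.1 D.t
  have q2 : Nat.blt (ic 11 10).2 (mL (mL v hcL) (mL v hcL)) = false := by
    have m1 := mulL k2 k1
    have m2 := mulL m1 m1
    have m3 : ((11 : ℕ) : ℝ) / ((10 : ℕ) : ℝ) ≤ fx (ic 11 10).2 := (Mem.const 11 10 (by norm_num)).2
    refine blt_false m2 m3 ?_
    have hI := D.I
    have e : τ / τ0 * (h * c) * (τ / τ0 * (h * c)) = (τ * h * c) ^ 2 / τ0 ^ 2 := by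
      field_simp
    rw [e, div_le_iff₀ (by positivity)]
    push_cast
    exact hI
  have q3 : Nat.blt (piX / 2 + 1) (mL v y0) = false := by
    have m1 := mulL k2 a2
    have m2 := half_up pi_leX
    refine blt_false m1 m2 ?_
    have hN := D.N4
    rw [div_mul_eq_mul_div, div_le_iff₀ hτ0]
    linarith
  rw [q1, q2, q3] at hx
  simp only [Bool.false_or] at hx
  have hG : fx (max (dL E (mU w w)) (mL (ic 499 10).1 (mL hcL hcL))) ≤ Γ := by
    rcases max_cases (dL E (mU w w)) (mL (ic 499 10).1 (mL hcL hcL)) with ⟨e, _⟩ | ⟨e, _⟩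
    · rw [e]
      have m1 := mulU k3 k3 (by positivity)
      have m2 : fx (dL E (mU w w)) ≤ G0 / (τ / τ0 * (τ / τ0)) := divL hE m1 (by positivity)
      refine m2.trans ?_
      have hGG := D.G
      rw [div_le_iff₀ (by positivity)]
      have e2 : Γ * (τ / τ0 * (τ / τ0)) = Γ * τ ^ 2 / τ0 ^ 2 := by
        field_simp
      rw [e2, le_div_iff₀ (by positivity)]
      exact hGG
    · rw [e]
      have m1 := mulL k1 k1
      have m2 := mulL (Mem.const 499 10 (by norm_num)).1 m1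
      refine m2.trans ?_
      have hRR := D.R
      push_cast
      rw [← pow_two]
      exact hRR
  refine chkR_run hP hC hG hc hν hν1 hh hτ.le D.t hx h0 hW he ?_ ?_ ?_
  · unfold fx
    norm_num
  · have m1 : fx 32985348833 ≤ 3 / 100 := by unfold fx; norm_num
    exact mulL m1 k2
  · rw [pow_two]
    exact mulL k2 k2

/-- A RUN of `e`: the two charts, along trees. -/
theorem runE_of {P : Par} {q g kk τ0 G0 b0 bW be : ℝ} (hP : P.Ok (5 / 4) q g kk)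
    {U0 U1 E s0 sW se : ℕ} (hτ0 : 0 < τ0) (hU : fx U0 ≤ τ0) (hU0 : 0 < U0) (hU1 : τ0 ≤ fx U1)
    (hE : fx E ≤ G0) (h0 : b0 ≤ fx s0) (hW : bW ≤ fx sW) (he : be ≤ fx se)
    {Y Z : ℕ} {t1 t2 : BT} (hY : Real.pi / (1 + τ0 / 2) ≤ fx Y) (hZ : fx Z ≤ τ0 / 2)
    (H1 : bisT (okE P U0 U1 E s0 sW se true) t1 0 769658139444 0 Y Z U1 = true)
    (H2 : bisT (okE P U0 U1 E s0 sW se false) t2 0 791648371999 0 Y Z U1 = true) :
    RunE q kk g τ0 G0 b0 bW be := by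
  intro c ν h τ Γ D
  have hc := D.c0
  have hν := D.n0
  have hh := D.h0
  have hτ : 0 < τ := by linarith [D.u1]
  have y1 : h ≤ fx Y := by
    refine le_trans ?_ hY
    rw [le_div_iff₀ (by positivity)]
    nlinarith [D.t, D.u1]
  have z0 : fx Z ≤ τ := hZ.trans D.u1
  have z1 : τ ≤ fx U1 := D.u2.trans hU1
  have o0 : fx 0 = 0 := fx_zero
  rcases chart D.cn with hx | hx
  · have e1 : (7 : ℝ) / 10 ≤ fx 769658139444 := by unfold fx; norm_num
    exact bisT_sound (P := fun x y z => ∀ ν', ν' = ν → PtE q g kk τ0 G0 b0 bW be x ν' y z)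
      (fun x0 x1 y0 y1 z0 z1 hk x y z b0' b1' b2 b3 b4 b5 ν' _ =>
        okE_sound (ch := true) (c := x) (ν := ν') hP hτ0 hU hU0 hU1 hE h0 hW he hk b0' b1' b2 b3 b4 b5)
      t1 _ _ _ _ _ _ H1 c h τ (by rw [o0]; exact hc.le) (hx.trans e1)
      (by rw [o0]; exact hh.le) y1 z0 z1 ν rfl Γ D
  · have e1 : (18 : ℝ) / 25 ≤ fx 791648371999 := by unfold fx; norm_num
    exact bisT_sound (P := fun x y z => ∀ c', c' = c → PtE q g kk τ0 G0 b0 bW be c' x y z)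
      (fun x0 x1 y0 y1 z0 z1 hk x y z b0' b1' b2 b3 b4 b5 c' _ =>
        okE_sound (ch := false) (c := c') (ν := x) hP hτ0 hU hU0 hU1 hE h0 hW he hk b0' b1' b2 b3 b4 b5)
      t2 _ _ _ _ _ _ H2 ν h τ (by rw [o0]; exact hν.le) (hx.trans e1)
      (by rw [o0]; exact hh.le) y1 z0 z1 c rfl Γ D

end SokalCel
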