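import Pool.Agent.Lib_MP_af4de1_v3.CelRun

/-!
# Cells: the run over a box for ANY cell test (helper6)
-/

set_option autoImplicit false

namespace SokalCel

open SokalFN SokalV3

/-- chart `c` -/
def okGC (cel : I → I → I → I → Bool) (c0 c1 h0 h1 u0 u1 : ℕ) : Bool :=
  cel (c0, c1) (ico (c0, c1)) (h0, h1) (u0, u1)

/-- chart `ν` -/
def okGN (cel : I → I → I → I → Bool) (n0 n1 h0 h1 u0 u1 : ℕ) : Bool :=
  cel (ico (n0, n1)) (n0, n1) (h0, h1) (u0, u1)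

/-- the box is outside of the domain, or the checker `chk G c n h u` -/
def celG (K : RnD) (chk : ℕ → I → I → I → I → Bool) (c n h u : I) : Bool :=
  Nat.blt K.H (mL (mL h.1 c.1) (mL h.1 c.1)) || (Nat.blt piU (mL (SC + u.1) h.1) ||
    chk (max K.G0 (mL g49 (mL (mL h.1 c.1) (mL h.1 c.1)))) c n h u)

/-- **The run, generic.** `chk G c n h u` proves `P` at every point of the box with `fx G ≤ Γ`. -/
theorem run_gen {K : RnD} {chk : ℕ → I → I → I → I → Bool} {P : ℝ → ℝ → ℝ → ℝ → ℝ → Prop}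
    (hs : ∀ (G : ℕ) (ci ni hi ui : I), chk G ci ni hi ui = true → ∀ c ν h τ Γ : ℝ,
      DmR K c ν h τ Γ → fx G ≤ Γ → Mem c ci → Mem ν ni → Mem h hi → Mem τ ui → P c ν h τ Γ)
    {wx wy wz n wx' wy' wz' n' y1 z0 z1 : ℕ} {lc ln : List ℕ}
    (hC : ChB (okGC (celG K chk)) wx wy wz n 0 y1 z0 z1 0 lc)
    (hN : ChB (okGN (celG K chk)) wx' wy' wz' n' 0 y1 z0 z1 0 ln)
    (ec : 7 / 10 ≤ fx (lc.getLastD 0)) (en : 18 / 25 ≤ fx (ln.getLastD 0)) (ey : 2 * Real.pi / 3 ≤ fx y1)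
    {c ν h τ Γ : ℝ} (D : DmR K c ν h τ Γ) (hh : h ≤ 2 * Real.pi / 3) (h0 : fx z0 ≤ τ) (h1 : τ ≤ fx z1) :
    P c ν h τ Γ := by
  have key : ∀ (ci ni hi ui : I), celG K chk ci ni hi ui = true → ∀ c ν h τ Γ : ℝ,
      DmR K c ν h τ Γ → Mem c ci → Mem ν ni → Mem h hi → Mem τ ui → P c ν h τ Γ := by
    intro ci ni hi ui hx c ν h τ Γ D hc hn hh hu
    have hm : fx (mL (mL hi.1 ci.1) (mL hi.1 ci.1)) ≤ (h * c) ^ 2 := by
      have h1 := mulL hh.1 hc.1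
      have h2 := mulL h1 h1
      rwa [← pow_two] at h2
    unfold celG at hx
    rw [Bool.or_eq_true, Bool.or_eq_true, blt_iff, blt_iff] at hx
    rcases hx with h1 | h1 | h1
    · exfalso
      have h2 : fx K.H < fx (mL (mL hi.1 ci.1) (mL hi.1 ci.1)) := by
        unfold fx
        have : (K.H : ℝ) < (mL (mL hi.1 ci.1) (mL hi.1 ci.1) : ℕ) := by exact_mod_cast h1
        gcongr
      linarith [D.H]
    · exfalso
      have h2 : fx piU < fx (mL (SC + ui.1) hi.1) := by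
        unfold fx
        have : (piU : ℝ) < (mL (SC + ui.1) hi.1 : ℕ) := by exact_mod_cast h1
        gcongr
      have h3 : fx (SC + ui.1) ≤ 1 + τ := by
        rw [fx_add, fx_one]
        linarith [hu.1]
      have h4 := mulL h3 hh.1
      linarith [D.tp, pi_le_piU]
    · have hG : fx (max K.G0 (mL g49 (mL (mL hi.1 ci.1) (mL hi.1 ci.1)))) ≤ Γ := by
        rcases max_choice K.G0 (mL g49 (mL (mL hi.1 ci.1) (mL hi.1 ci.1))) with e | e
        · rw [e]; exact D.G0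
        · rw [e]; exact (mulL g49_le hm).trans D.G1
      exact hs _ ci ni hi ui h1 c ν h τ Γ D hG hc hn hh hu
  have hh0 : fx 0 ≤ h := by rw [fx_zero]; exact D.h0.le
  rcases chart D.cn with h2 | h2
  · have k2 := ChB.sound (P := fun c h τ => ∀ ν Γ : ℝ, DmR K c ν h τ Γ → P c ν h τ Γ)
      (fun x0 x1 y0 y1 z0 z1 hx x y z a1 a2 a3 a4 a5 a6 ν Γ D =>
        key _ _ _ _ hx x ν y z Γ D ⟨a1, a2⟩ (Mem.co ⟨a1, a2⟩ D.cn D.n0.le) ⟨a3, a4⟩ ⟨a5, a6⟩) lc 0 hC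
    refine k2 c h τ (by rw [fx_zero]; exact D.c0.le) (h2.trans ec) hh0 (hh.trans ey) h0 h1 ?_ ν Γ D
    rw [fx_zero]; exact D.c0.ne'
  · have k2 := ChB.sound (P := fun ν h τ => ∀ c Γ : ℝ, DmR K c ν h τ Γ → P c ν h τ Γ)
      (fun x0 x1 y0 y1 z0 z1 hx x y z a1 a2 a3 a4 a5 a6 c Γ D =>
        key _ _ _ _ hx c x y z Γ D (Mem.co ⟨a1, a2⟩ (by linarith [D.cn]) D.c0.le) ⟨a1, a2⟩ ⟨a3, a4⟩
          ⟨a5, a6⟩) ln 0 hN
    refine k2 ν h τ (by rw [fx_zero]; exact D.n0.le) (h2.trans en) hh0 (hh.trans ey) h0 h1 ?_ c Γ D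
    rw [fx_zero]; exact D.n0.ne'

end SokalCel
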