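import Pool.Agent.Lib_MP_af4de1_v3.BrL5
import Pool.Agent.Lib_MP_af4de1_v3.CelRunG
import Pool.Agent.Lib_MP_af4de1_v3.LevL

/-!
# Cells, left side: from the runs to the fields `a`, `a'`, `b`, `c` of `PShfL` (helper6)

`RunL` : the numerical hypotheses of `brL_reg` at a point; `RunsL` : `RunL` at all points of the domain of a run.
-/

set_option autoImplicit false

namespace SokalCel

open SokalFN SokalU SokalF1 SokalF1S SokalF1M SokalV3 SokalCen Real MeasureTheory Set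

/-- the numerical hypotheses of the left bridge -/
def RunL (μ q g k c ν h τ Γ U0 UW UE f0 f1 f2 : ℝ) : Prop :=
  ∃ β σ F0 FW M0 MW O0 OW OE : ℝ, 0 < β ∧ Win β ((1 + τ) * h) ∧ 0 ≤ σ ∧ σ ≤ 1 ∧ 0 ≤ F0 ∧ 0 ≤ FW ∧
    ((1 + τ) * h ≤ 6 / 5 → LF0 μ q g c ν h τ Γ ≤ F0 ∧
      LF0 μ q g c ν h τ Γ * (LFW μ c ν τ Γ / c ^ 2) ≤ FW) ∧
    z0 μ q g c ν τ Γ (1 + τ) (La μ ν (LT μ c h τ)) (LB μ c h τ β σ) (Ll μ c h τ β σ) ≤ M0 ∧
    zW μ q g c ν τ Γ (1 + τ) (La μ ν (LT μ c h τ)) (LB μ c h τ β σ) (Ll μ c h τ β σ) 0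
      (1 / μ ^ 2) 1 ≤ MW ∧
    LB0 μ q g c ν h τ Γ + F0 +
      z0 μ q g c ν τ Γ (Ltp h τ / h) (Lr μ ν (LTp μ c h τ)) (11 / 25) 0 +
      LJ0 μ q g c ν h τ Γ + U0 ≤ O0 ∧
    LB0 μ q g c ν h τ Γ * LBW μ c ν h τ Γ + FW +
      zW μ q g c ν τ Γ (Ltp h τ / h) (Lr μ ν (LTp μ c h τ)) (11 / 25) 0 0
        (eS (min 1 (LTp μ c h τ)) ^ 2 / μ ^ 2) (exp (min 1 (LTp μ c h τ))) +
      LJ0 μ q g c ν h τ Γ * LJW μ c ν h τ Γ + UW ≤ OW ∧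
    (LB0 μ q g c ν h τ Γ + F0 + exp (min 1 (LTp μ c h τ)) *
        z0 μ q g c ν τ Γ (Ltp h τ / h) (Lr μ ν (LTp μ c h τ)) (11 / 25) 0 +
      Le μ c h τ * LJ0 μ q g c ν h τ Γ) / Γ + UE ≤ OE ∧
    M0 + O0 ≤ f0 ∧
    √((M0 + O0) * (MW + (k * τ) ^ 2 * M0 + (√OW + k * τ * √O0) ^ 2)) ≤ f1 ∧
    MW + (k * τ) ^ 2 * M0 + (√OW + k * τ * √O0) ^ 2 + M0 / Γ + OE ≤ f2

theorem RunL.shf {N : ℕ} {r δ y η ζ g k q c ν τ Γ U0 UW UE f0 f1 f2 : ℝ}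
    (hR : Reg1 N r δ) (hA : At r δ y η) (hη : 0 ≤ η) (hL : Lev r δ y η g k q) (hk : 0 ≤ k)
    (hq : 0 ≤ q) (hζ : hst N ≤ ζ) (hπ : η + ζ ≤ π) (s : Scl0 r δ η c ν ζ τ Γ)
    (hu : UB N r δ η g q (η + ζ) (UsL (η + ζ)) U0 UW UE)
    (h : RunL (5 / 4) q g k c ν ζ τ Γ U0 UW UE f0 f1 f2) : Shf r δ y ζ (r * (ζ * c)) f0 f1 f2 := by
  obtain ⟨β, σ, F0, FW, M0, MW, O0, OW, OE, a1, a2, a3, a4, a5, a6, a7, a8, a9, a10, a11, a12, a13,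
    a14, a15⟩ := h
  exact brL_reg hR hA hη hL hk hq hζ hπ s a1 a2 a3 a4 hu a5 a6 a7 a8 a9 a10 a11 a12 a13 a14 a15

/-- `RunL` on the domain of a run -/
def RunsL (K : RnD) (q g k U0 UW UE f0 f1 f2 t0 t1 : ℝ) : Prop :=
  ∀ c ν h τ Γ : ℝ, DmR K c ν h τ Γ → h ≤ 2 * Real.pi / 3 → t0 ≤ τ → τ ≤ t1 →
    RunL (5 / 4) q g k c ν h τ Γ U0 UW UE f0 f1 f2

/-- the step common to the fields, `ζ = hst N` -/
theorem RunsL.field {K : RnD} {q g k U0 UW UE f0 f1 f2 t0 t1 : ℝ}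
    (H : RunsL K q g k U0 UW UE f0 f1 f2 t0 t1) {N : ℕ} {r δ y η : ℝ}
    (hR : Reg1 N r δ) (hA : At r δ y η) (hη : 0 ≤ η) (hL : Lev r δ y η g k q) (hk : 0 ≤ k)
    (hq : 0 ≤ q) (hπ : η + hst N ≤ π)
    (hu : UB N r δ η g q (η + hst N) (UsL (η + hst N)) U0 UW UE)
    (h0 : t0 * hst N ≤ η) (h1 : η ≤ t1 * hst N) (hG : fx K.G0 ≤ Gm N r δ)
    (hH : hst N ^ 2 / RR r δ ≤ fx K.H) : Shf r δ y (hst N) (HH N r δ) f0 f1 f2 := by
  have s := scl hR η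
  have hh := s.h0
  have e0 : |η| = η := abs_of_nonneg hη
  have hπ' : (1 + |η| / hst N) * hst N ≤ π := by
    have : (1 + |η| / hst N) * hst N = η + hst N := by
      rw [e0]
      field_simp
      ring
    rw [this]
    exact hπ
  have hHc : (hst N * (1 / √(RR r δ))) ^ 2 ≤ fx K.H := by
    have hRp : 0 < RR r δ := by unfold RR; positivity
    have : (hst N * (1 / √(RR r δ))) ^ 2 = hst N ^ 2 / RR r δ := by
      rw [mul_one_div, div_pow, Real.sq_sqrt hRp.le]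
    rw [this]
    exact hH
  have D : DmR K (1 / √(RR r δ)) (r * δ / √(RR r δ)) (hst N) (|η| / hst N) (Gm N r δ) :=
    s.dmR hπ' hHc hG
  have k0 : t0 ≤ |η| / hst N := by
    rw [e0, le_div_iff₀ hh]
    exact h0
  have k1 : |η| / hst N ≤ t1 := by
    rw [e0, div_le_iff₀ hh]
    exact h1
  have := (H _ _ _ _ _ D s.h1 k0 k1).shf hR hA hη hL hk hq le_rfl hπ s.toScl0 hu
  have e : r * (hst N * (1 / √(RR r δ))) = HH N r δ := by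
    unfold HH
    ring
  rwa [e] at this

/-! ### units -/

theorem H10 {N : ℕ} {r δ G : ℝ} (hR : Reg1 N r δ) (hG : Gm N r δ ≤ G) :
    hst N ^ 2 / RR r δ ≤ G * (10 / 499) := by
  have hr := hR.r0
  have hRp : 0 < RR r δ := by unfold RR; positivity
  have e : Gm N r δ = r * (hst N ^ 2 / RR r δ) := by
    unfold Gm
    ring
  have h1 : 0 ≤ hst N ^ 2 / RR r δ := by positivity
  rw [e] at hG
  nlinarith

theorem H11 {N : ℕ} {r δ : ℝ} (hR : Reg1 N r δ) : hst N ^ 2 / RR r δ ≤ 11 / 10 := by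
  have hRp : 0 < RR r δ := by unfold RR; positivity
  rw [div_le_iff₀ hRp]
  exact hR.I

theorem om1_A {N : ℕ} {r δ : ℝ} (h : Gm N r δ < 10) : om1 N r δ = 1 / 4 := by
  unfold om1
  rw [if_pos h]

theorem om1_B {N : ℕ} {r δ : ℝ} (h : 10 ≤ Gm N r δ) (h2 : Gm N r δ < 20) : om1 N r δ = 3 / 20 := by
  unfold om1
  rw [if_neg (not_lt.2 h), if_pos h2]

theorem om1_C {N : ℕ} {r δ : ℝ} (h : 20 ≤ Gm N r δ) : om1 N r δ = 1 / 10 := by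
  unfold om1
  rw [if_neg (not_lt.2 (by linarith)), if_neg (not_lt.2 h)]

/-! ### the fields -/

/-- class `Γ < 10` -/
theorem fieldL_A {K : RnD} {f0 f1 f2 t0 t1 : ℝ} (ht : t1 ≤ 3 / 4)
    (H : RunsL K (11 / 10) (6 / 5) 1 (1 / 300000) (1 / 9000) (1 / 700000) f0 f1 f2 t0 t1)
    (hG0 : fx K.G0 ≤ 27 / 5) (hH : 100 / 499 ≤ fx K.H) {N : ℕ} {r δ y η : ℝ} (hR : Reg1 N r δ)
    (hA : At r δ y η) (hS : Sad1 N r δ y) (hG : Gm N r δ < 10) (hη : 0 ≤ η)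
    (h0 : t0 * hst N ≤ η) (h1 : η ≤ t1 * hst N) (hπ : η + hst N ≤ π) :
    Shf r δ y (hst N) (HH N r δ) f0 f1 f2 := by
  have hh := hst_pos3 hR.N3
  have k1 : η ≤ 3 / 4 * hst N := h1.trans (mul_le_mul_of_nonneg_right ht hh.le)
  have k2 : η ≤ eo1 N r δ := by
    unfold eo1
    rw [om1_A hG]
    linarith
  have e0 : |η| = η := abs_of_nonneg hη
  refine H.field hR hA hη (levL_A hR hA hS hG hη k2) (by norm_num) (by norm_num) hπ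
    (uL_A hR hG.le (by rw [e0]; exact k1) le_rfl (by norm_num) (by norm_num)
      (by rw [e0]) hπ) h0 h1 (hG0.trans hR.G) ?_
  refine (H10 hR hG.le).trans ?_
  linarith

/-- class `10 ≤ Γ < 20` -/
theorem fieldL_B {K : RnD} {f0 f1 f2 t0 t1 : ℝ} (ht : t1 ≤ 13 / 20)
    (H : RunsL K (23 / 20) (6 / 5) 1 (1 / 250000) (1 / 4700) (1 / 700000) f0 f1 f2 t0 t1)
    (hG0 : fx K.G0 ≤ 10) (hH : 200 / 499 ≤ fx K.H) {N : ℕ} {r δ y η : ℝ} (hR : Reg1 N r δ)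
    (hA : At r δ y η) (hS : Sad1 N r δ y) (hG : 10 ≤ Gm N r δ) (hG2 : Gm N r δ < 20) (hη : 0 ≤ η)
    (h0 : t0 * hst N ≤ η) (h1 : η ≤ t1 * hst N) (hπ : η + hst N ≤ π) :
    Shf r δ y (hst N) (HH N r δ) f0 f1 f2 := by
  have hh := hst_pos3 hR.N3
  have k1 : η ≤ 13 / 20 * hst N := h1.trans (mul_le_mul_of_nonneg_right ht hh.le)
  have k2 : η ≤ eo1 N r δ := by
    unfold eo1
    rw [om1_B hG hG2]
    linarith
  have e0 : |η| = η := abs_of_nonneg hη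
  refine H.field hR hA hη (levL hR hA hS hη k2) (by norm_num) (by norm_num) hπ
    (uL_B hR hG hG2.le (by rw [e0]; exact k1) (by norm_num) (by norm_num) (by norm_num)
      (by rw [e0]) hπ) h0 h1 (hG0.trans hG) ?_
  refine (H10 hR hG2.le).trans ?_
  linarith

/-- class `20 ≤ Γ` -/
theorem fieldL_C {K : RnD} {f0 f1 f2 t0 t1 : ℝ} (ht : t1 ≤ 3 / 5)
    (H : RunsL K (23 / 20) (6 / 5) 1 (1 / 9000) (18 / 10000) (1 / 40000) f0 f1 f2 t0 t1)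
    (hG0 : fx K.G0 ≤ 20) (hH : 11 / 10 ≤ fx K.H) {N : ℕ} {r δ y η : ℝ} (hR : Reg1 N r δ)
    (hA : At r δ y η) (hS : Sad1 N r δ y) (hG : 20 ≤ Gm N r δ) (hη : 0 ≤ η)
    (h0 : t0 * hst N ≤ η) (h1 : η ≤ t1 * hst N) (hπ : η + hst N ≤ π) :
    Shf r δ y (hst N) (HH N r δ) f0 f1 f2 := by
  have hh := hst_pos3 hR.N3
  have k1 : η ≤ 3 / 5 * hst N := h1.trans (mul_le_mul_of_nonneg_right ht hh.le)
  have k2 : η ≤ eo1 N r δ := by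
    unfold eo1
    rw [om1_C hG]
    linarith
  have e0 : |η| = η := abs_of_nonneg hη
  exact H.field hR hA hη (levL hR hA hS hη k2) (by norm_num) (by norm_num) hπ
    (uL_C hR hG (by rw [e0]; exact k1) (by norm_num) le_rfl (by norm_num) (by norm_num)
      (by rw [e0]) hπ) h0 h1 (hG0.trans hG) ((H11 hR).trans hH)

/-- FIELD `a` -/
theorem shfL_a_of {K : RnD} (hG0 : fx K.G0 ≤ 27 / 5) (hH : 100 / 499 ≤ fx K.H)
    (H : RunsL K (11 / 10) (6 / 5) 1 (1 / 300000) (1 / 9000) (1 / 700000) (1 / 5) (1 / 5) 1 0 (1 / 4)) :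
    ∀ (N : ℕ) (r δ y η : ℝ), Reg1 N r δ → At r δ y η → Sad1 N r δ y → Gm N r δ < 10 →
    0 ≤ η → η ≤ ei1 N r δ → η + hst N ≤ Real.pi →
    Shf r δ y (hst N) (HH N r δ) (1 / 5) (1 / 5) 1 := by
  intro N r δ y η hR hA hS hG h0 h1 hπ
  refine fieldL_A (by norm_num) H hG0 hH hR hA hS hG h0 (by linarith) ?_ hπ
  unfold ei1 at h1
  rw [om1_A hG] at h1
  linarith

/-- FIELD `b` -/
theorem shfL_b_of {K : RnD} (hG0 : fx K.G0 ≤ 27 / 5) (hH : 100 / 499 ≤ fx K.H)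
    (H : RunsL K (11 / 10) (6 / 5) 1 (1 / 300000) (1 / 9000) (1 / 700000) (2 / 25) (2 / 25) (13 / 100)
      (1 / 4) (3 / 4)) :
    ∀ (N : ℕ) (r δ y η : ℝ), Reg1 N r δ → At r δ y η → Sad1 N r δ y → Gm N r δ < 10 →
    ei1 N r δ ≤ η → η ≤ eo1 N r δ → η + hst N ≤ Real.pi →
    Shf r δ y (hst N) (HH N r δ) (2 / 25) (2 / 25) (13 / 100) := by
  intro N r δ y η hR hA hS hG h0 h1 hπ
  have hh := hst_pos3 hR.N3
  unfold ei1 at h0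
  unfold eo1 at h1
  rw [om1_A hG] at h0 h1
  exact fieldL_A (by norm_num) H hG0 hH hR hA hS hG (by linarith) (by linarith) (by linarith) hπ

/-- FIELD `a'` -/
theorem shfL_a'_of {K K' : RnD} (hG0 : fx K.G0 ≤ 10) (hH : 200 / 499 ≤ fx K.H)
    (H : RunsL K (23 / 20) (6 / 5) 1 (1 / 250000) (1 / 4700) (1 / 700000) (3 / 50) (3 / 50) 1 0 (7 / 20))
    (hG0' : fx K'.G0 ≤ 20) (hH' : 11 / 10 ≤ fx K'.H)
    (H' : RunsL K' (23 / 20) (6 / 5) 1 (1 / 9000) (18 / 10000) (1 / 40000) (3 / 50) (3 / 50) 1 0 (2 / 5)) :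
    ∀ (N : ℕ) (r δ y η : ℝ), Reg1 N r δ → At r δ y η → Sad1 N r δ y → 10 ≤ Gm N r δ →
    0 ≤ η → η ≤ ei1 N r δ → η + hst N ≤ Real.pi →
    Shf r δ y (hst N) (HH N r δ) (3 / 50) (3 / 50) 1 := by
  intro N r δ y η hR hA hS hG h0 h1 hπ
  unfold ei1 at h1
  rcases lt_or_ge (Gm N r δ) 20 with hG2 | hG2
  · rw [om1_B hG hG2] at h1
    exact fieldL_B (by norm_num) H hG0 hH hR hA hS hG hG2 h0 (by linarith) (by linarith) hπ
  · rw [om1_C hG2] at h1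
    exact fieldL_C (by norm_num) H' hG0' hH' hR hA hS hG2 h0 (by linarith) (by linarith) hπ

/-- FIELD `c` -/
theorem shfL_c_of {K K' : RnD} (hG0 : fx K.G0 ≤ 10) (hH : 200 / 499 ≤ fx K.H)
    (H : RunsL K (23 / 20) (6 / 5) 1 (1 / 250000) (1 / 4700) (1 / 700000) (1 / 100) (1 / 100) (1 / 100)
      (7 / 20) (13 / 20))
    (hG0' : fx K'.G0 ≤ 20) (hH' : 11 / 10 ≤ fx K'.H)
    (H' : RunsL K' (23 / 20) (6 / 5) 1 (1 / 9000) (18 / 10000) (1 / 40000) (1 / 100) (1 / 100) (1 / 100)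
      (2 / 5) (3 / 5)) :
    ∀ (N : ℕ) (r δ y η : ℝ), Reg1 N r δ → At r δ y η → Sad1 N r δ y → 10 ≤ Gm N r δ →
    ei1 N r δ ≤ η → η ≤ eo1 N r δ → η + hst N ≤ Real.pi →
    Shf r δ y (hst N) (HH N r δ) (1 / 100) (1 / 100) (1 / 100) := by
  intro N r δ y η hR hA hS hG h0 h1 hπ
  have hh := hst_pos3 hR.N3
  unfold ei1 at h0
  unfold eo1 at h1
  rcases lt_or_ge (Gm N r δ) 20 with hG2 | hG2
  · rw [om1_B hG hG2] at h0 h1
    exact fieldL_B (by norm_num) H hG0 hH hR hA hS hG hG2 (by linarith) (by linarith) (by linarith) hπ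
  · rw [om1_C hG2] at h0 h1
    exact fieldL_C (by norm_num) H' hG0' hH' hR hA hS hG2 (by linarith) (by linarith) (by linarith) hπ

end SokalCel
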