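import Pool.Agent.Lib_MP_af4de1_v3.CelRunL
import Pool.Agent.Lib_MP_af4de1_v3.ShfE0

/-!
# SHIFT, field `e`, left side: from the three runs to `E1L` (helper93)
-/

set_option autoImplicit false

namespace SokalCel

open SokalFN SokalU SokalF1 SokalF1S SokalF1M SokalV3 SokalCen Real MeasureTheory Set

/-- a run of `e`, `i = 1`, left -/
def RunLE (q g k τ0 G0 U0 UW UE : ℝ) : Prop :=
  ∀ c ν h τ Γ : ℝ, DomE τ0 G0 c ν h τ Γ →
    RunL (5 / 4) q g k c ν h τ Γ U0 UW UE (3 / 200) (3 / 100 * (τ / τ0)) ((τ / τ0) ^ 2)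

/-- one class -/
theorem RunLE.shf {q g k τ0 G0 U0 UW UE : ℝ} (H : RunLE q g k τ0 G0 U0 UW UE) {N : ℕ}
    {r δ y z : ℝ} (hR : Reg1 N r δ) (hA : At r δ y (eo1 N r δ)) (hτ0 : 0 < τ0)
    (hτ : eo1 N r δ = τ0 * hst N) (hG : G0 ≤ Gm N r δ) (hL : Lev r δ y (eo1 N r δ) g k q)
    (hk : 0 ≤ k) (hq : 0 ≤ q) (h1 : hst N ≤ z) (h2 : z ≤ 2 * hst N) (h3 : eo1 N r δ + z ≤ π)
    (hu : UB N r δ (eo1 N r δ) g q (eo1 N r δ + z) (UsL (eo1 N r δ + z)) U0 UW UE) :
    Shf r δ y z (r * z / √(RR r δ)) (3 / 200) (3 / 100 * (hst N / z)) ((hst N / z) ^ 2) := by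
  have hh := hst_pos3 hR.N3
  have hz : 0 < z := hh.trans_le h1
  have he : 0 ≤ eo1 N r δ := by rw [hτ]; positivity
  have D := domE hR hτ0 hτ hG h1 h2 h3
  have s := scl0 hR.r0 hR.d0 hz (eo1 N r δ)
  rw [abs_of_nonneg he] at s
  have eΓ : r * (z * (1 / √(RR r δ))) ^ 2 = r * z ^ 2 / RR r δ := by
    have hRp : 0 < RR r δ := by unfold RR; positivity
    rw [mul_one_div, div_pow, Real.sq_sqrt hRp.le]
    ring
  rw [eΓ] at s
  have k1 := (H _ _ _ _ _ D).shf hR hA he hL hk hq h1 h3 s hu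
  have e1 : eo1 N r δ / z / τ0 = hst N / z := by
    rw [hτ]
    field_simp
  have e2 : r * (z * (1 / √(RR r δ))) = r * z / √(RR r δ) := by ring
  rw [e1, e2] at k1
  exact k1

/-- `E1L` from three runs -/
theorem e1L_of (A : RunLE (11 / 10) (6 / 5) 1 (3 / 4) (27 / 5) (1 / 300000) (1 / 9000) (1 / 700000))
    (B : RunLE (23 / 20) (6 / 5) 1 (13 / 20) 10 (1 / 250000) (1 / 4700) (1 / 700000))
    (C : RunLE (23 / 20) (6 / 5) 1 (3 / 5) 20 (1 / 9000) (18 / 10000) (1 / 40000)) : E1L := by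
  intro N r δ y z hR hA hS h1 h2 h3
  have hh := hst_pos3 hR.N3
  rcases lt_or_ge (Gm N r δ) 10 with hG | hG
  · have e := eoe_A hG
    have he : 0 ≤ eo1 N r δ := by rw [e]; positivity
    have ha := abs_of_nonneg he
    exact A.shf hR hA (by norm_num) e hR.G (levL_A hR hA hS hG he le_rfl) (by norm_num)
      (by norm_num) h1 h2 h3
      (uL_A hR hG.le (by rw [ha, e]) le_rfl (by norm_num) (by norm_num)
        (by rw [ha]; linarith) h3)
  · rcases lt_or_ge (Gm N r δ) 20 with hG2 | hG2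
    · have e := eoe_B hG hG2
      have he : 0 ≤ eo1 N r δ := by rw [e]; positivity
      have ha := abs_of_nonneg he
      exact B.shf hR hA (by norm_num) e hG (levL hR hA hS he le_rfl) (by norm_num)
        (by norm_num) h1 h2 h3
        (uL_B hR hG hG2.le (by rw [ha, e]) (by norm_num) (by norm_num) (by norm_num)
          (by rw [ha]; linarith) h3)
    · have e := eoe_C hG2
      have he : 0 ≤ eo1 N r δ := by rw [e]; positivity
      have ha := abs_of_nonneg he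
      exact C.shf hR hA (by norm_num) e hG2 (levL hR hA hS he le_rfl) (by norm_num)
        (by norm_num) h1 h2 h3
        (uL_C hR hG2 (by rw [ha, e]) (by norm_num) le_rfl (by norm_num) (by norm_num)
          (by rw [ha]; linarith) h3)

end SokalCel
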