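import Pool.Agent.Lib_MP_af4de1_v3.CelRunE
import Pool.Agent.Lib_MP_af4de1_v3.CelTreeN
import Pool.Agent.Lib_MP_af4de1_v3.ShfLe0

/-!
# Cells, left side: the wrapper of the runs of field `e` (helper93)

`okLE`: one box in (`x` = `c` or `ν`, `h`, `τ`), `Γ ≥ max (G0 τ0²/τ²) (49.9 (h c)²)`, targets `3/200`,
`(3/100) τ/τ0`, `(τ/τ0)²`, for any sound left checker `chk F1 F2 G c n h u`.
-/

set_option autoImplicit false

namespace SokalCel

open SokalFN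

/-- a sound left checker with the target `3/200` -/
def SndL (chk : ℕ → ℕ → ℕ → I → I → I → I → Bool) (q g k U0 UW UE : ℝ) : Prop :=
  ∀ (F1 F2 G : ℕ) (ci ni hi ui : I), chk F1 F2 G ci ni hi ui = true → ∀ c ν h τ Γ f1 f2 : ℝ,
    0 < c → 0 < ν → c ^ 2 + ν ^ 2 = 1 → 0 < h → 0 ≤ τ → (1 + τ) * h ≤ Real.pi → fx G ≤ Γ →
    499 / 10 * (h * c) ^ 2 ≤ Γ → Mem c ci → Mem ν ni → Mem h hi → Mem τ ui →
    fx F1 ≤ f1 → fx F2 ≤ f2 → RunL (5 / 4) q g k c ν h τ Γ U0 UW UE (3 / 200) f1 f2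

/-- one box of a run of `e`, left; `V0 ≤ τ0 ≤ V1`, `E` : lower bound of `G0` -/
def okLE (chk : ℕ → ℕ → ℕ → I → I → I → I → Bool) (V0 V1 E : ℕ) (ch : Bool)
    (x0 x1 y0 y1 z0 z1 : ℕ) : Bool :=
  let c := chC ch x0 x1
  let hc := mL y0 c.1
  let v := dL z0 V1
  let w := dU z1 V0
  Nat.blt piX (mL (SC + z0) y0) || Nat.blt (ic 11 10).2 (mL (mL v hc) (mL v hc)) ||
    Nat.blt (piX / 2 + 1) (mL v y0) ||
    chk (mL 32985348833 v) (mL v v) (max (dL E (mU w w)) (mL (ic 499 10).1 (mL hc hc)))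
      c (chN ch x0 x1) (y0, y1) (z0, z1)

/-- what a run of `e` proves for a point -/
def PtLE (q g k τ0 G0 U0 UW UE : ℝ) (c ν h τ : ℝ) : Prop :=
  ∀ Γ : ℝ, SokalCen.DomE τ0 G0 c ν h τ Γ →
    RunL (5 / 4) q g k c ν h τ Γ U0 UW UE (3 / 200) (3 / 100 * (τ / τ0)) ((τ / τ0) ^ 2)

theorem okLE_sound {chk : ℕ → ℕ → ℕ → I → I → I → I → Bool} {q g k τ0 G0 U0 UW UE : ℝ}
    (hs : SndL chk q g k U0 UW UE) {V0 V1 E : ℕ} (hτ0 : 0 < τ0) (hV : fx V0 ≤ τ0) (hV0 : 0 < V0)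
    (hV1 : τ0 ≤ fx V1) (hE : fx E ≤ G0) {ch : Bool} {x0 x1 y0 y1 z0 z1 : ℕ}
    (hx : okLE chk V0 V1 E ch x0 x1 y0 y1 z0 z1 = true)
    {c ν h τ : ℝ} (a0 : fx x0 ≤ (bif ch then c else ν)) (a1 : (bif ch then c else ν) ≤ fx x1)
    (a2 : fx y0 ≤ h) (a3 : h ≤ fx y1) (a4 : fx z0 ≤ τ) (a5 : τ ≤ fx z1) :
    PtLE q g k τ0 G0 U0 UW UE c ν h τ := by
  intro Γ D
  have hc := D.c0
  have hν := D.n0
  have hcn := D.cn
  have hh := D.h0
  have hτ : 0 < τ := by linarith [D.u1]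
  have mc := mem_chC hcn hc.le a0 a1
  have mn := mem_chN hcn hν.le a0 a1
  have mh : Mem h (y0, y1) := ⟨a2, a3⟩
  have mt : Mem τ (z0, z1) := ⟨a4, a5⟩
  unfold okLE at hx
  simp only at hx
  obtain ⟨hcL, ehc⟩ : ∃ x, x = mL y0 (chC ch x0 x1).1 := ⟨_, rfl⟩
  obtain ⟨v, ev⟩ : ∃ x, x = dL z0 V1 := ⟨_, rfl⟩
  obtain ⟨w, ew⟩ : ∃ x, x = dU z1 V0 := ⟨_, rfl⟩
  rw [← ehc, ← ev, ← ew] at hx
  have k1 : fx hcL ≤ h * c := by rw [ehc]; exact mulL a2 mc.1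
  have k2 : fx v ≤ τ / τ0 := by rw [ev]; exact divL a4 hV1 hτ0
  have k3 : τ / τ0 ≤ fx w := by rw [ew]; exact divU a5 hV hV0
  have q1 : Nat.blt piX (mL (SC + z0) y0) = false := by
    refine le_piX (mulL ?_ a2) D.t
    rw [fx_add, fx_one]
    linarith
  have q2 : Nat.blt (ic 11 10).2 (mL (mL v hcL) (mL v hcL)) = false := by
    have m1 := mulL k2 k1
    have m2 := mulL m1 m1
    have m3 : ((11 : ℕ) : ℝ) / ((10 : ℕ) : ℝ) ≤ fx (ic 11 10).2 := (Mem.const 11 10 (by norm_num)).2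
    refine blt_false m2 m3 ?_
    have hI := D.I
    have e : τ / τ0 * (h * c) * (τ / τ0 * (h * c)) = (τ * h * c) ^ 2 / τ0 ^ 2 := by
      field_simp
    rw [e, div_le_iff₀ (by positivity)]
    push_cast
    exact hI
  have q3 : Nat.blt (piX / 2 + 1) (mL v y0) = false := by
    have m1 := mulL k2 a2
    have m2 := half_up pi_leX
    refine blt_false m1 m2 ?_
    have hN := D.N4
    rw [div_mul_eq_mul_div, div_le_iff₀ hτ0]
    linarith
  rw [q1, q2, q3] at hx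
  simp only [Bool.false_or] at hx
  have hG : fx (max (dL E (mU w w)) (mL (ic 499 10).1 (mL hcL hcL))) ≤ Γ := by
    rcases max_cases (dL E (mU w w)) (mL (ic 499 10).1 (mL hcL hcL)) with ⟨e, _⟩ | ⟨e, _⟩
    · rw [e]
      have m1 := mulU k3 k3 (by positivity)
      have m2 : fx (dL E (mU w w)) ≤ G0 / (τ / τ0 * (τ / τ0)) := divL hE m1 (by positivity)
      refine m2.trans ?_
      have hGG := D.G
      rw [div_le_iff₀ (by positivity)]
      have e2 : Γ * (τ / τ0 * (τ / τ0)) = Γ * τ ^ 2 / τ0 ^ 2 := by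
        field_simp
      rw [e2, le_div_iff₀ (by positivity)]
      exact hGG
    · rw [e]
      have m1 := mulL k1 k1
      have m2 := mulL (Mem.const 499 10 (by norm_num)).1 m1
      refine m2.trans ?_
      have hRR := D.R
      push_cast
      rw [← pow_two]
      exact hRR
  refine hs _ _ _ _ _ _ _ hx c ν h τ Γ _ _ hc hν hcn hh hτ.le D.t hG D.R mc mn mh mt ?_ ?_
  · have m1 : fx 32985348833 ≤ 3 / 100 := by unfold fx; norm_num
    exact mulL m1 k2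
  · rw [pow_two]
    exact mulL k2 k2

/-- A RUN of `e`, left: the two charts. -/
theorem runLE_of {chk : ℕ → ℕ → ℕ → I → I → I → I → Bool} {q g k τ0 G0 U0 UW UE : ℝ}
    (hs : SndL chk q g k U0 UW UE) {V0 V1 E : ℕ} (hτ0 : 0 < τ0) (hV : fx V0 ≤ τ0) (hV0 : 0 < V0)
    (hV1 : τ0 ≤ fx V1) (hE : fx E ≤ G0) {T1 T2 : BT} {Y Z : ℕ}
    (hY : Real.pi / (1 + τ0 / 2) ≤ fx Y) (hZ : fx Z ≤ τ0 / 2)
    (H1 : bisT (okLE chk V0 V1 E true) T1 0 769658139444 0 Y Z V1 = true)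
    (H2 : bisT (okLE chk V0 V1 E false) T2 0 791648371999 0 Y Z V1 = true) :
    RunLE q g k τ0 G0 U0 UW UE := by
  intro c ν h τ Γ D
  have hc := D.c0
  have hν := D.n0
  have hh := D.h0
  have hτ : 0 < τ := by linarith [D.u1]
  have y1 : h ≤ fx Y := by
    refine le_trans ?_ hY
    rw [le_div_iff₀ (by positivity)]
    nlinarith [D.t, D.u1]
  have z0 : fx Z ≤ τ := hZ.trans D.u1
  have z1 : τ ≤ fx V1 := D.u2.trans hV1
  have o0 : fx 0 = 0 := fx_zero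
  rcases chart D.cn with hx | hx
  · have e1 : (7 : ℝ) / 10 ≤ fx 769658139444 := by unfold fx; norm_num
    exact bisT_sound (P := fun x y z => ∀ ν', ν' = ν → PtLE q g k τ0 G0 U0 UW UE x ν' y z)
      (fun x0 x1 y0 y1 z0 z1 hk x y z b0' b1' b2 b3 b4 b5 ν' _ =>
        okLE_sound (ch := true) (c := x) (ν := ν') hs hτ0 hV hV0 hV1 hE hk b0' b1' b2 b3 b4 b5)
      T1 _ _ _ _ _ _ H1 c h τ (by rw [o0]; exact hc.le) (hx.trans e1)
      (by rw [o0]; exact hh.le) y1 z0 z1 ν rfl Γ D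
  · have e1 : (18 : ℝ) / 25 ≤ fx 791648371999 := by unfold fx; norm_num
    exact bisT_sound (P := fun x y z => ∀ c', c' = c → PtLE q g k τ0 G0 U0 UW UE c' x y z)
      (fun x0 x1 y0 y1 z0 z1 hk x y z b0' b1' b2 b3 b4 b5 c' _ =>
        okLE_sound (ch := false) (c := c') (ν := x) hs hτ0 hV hV0 hV1 hE hk b0' b1' b2 b3 b4 b5)
      T2 _ _ _ _ _ _ H2 ν h τ (by rw [o0]; exact hν.le) (hx.trans e1)
      (by rw [o0]; exact hh.le) y1 z0 z1 c rfl Γ D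

end SokalCel
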