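import Pool.Agent.Lib_MP_af4de1_v3.BrL6
import Pool.Agent.Lib_MP_af4de1_v3.CelL6
import Pool.Agent.Lib_MP_af4de1_v3.CelRunLE

/-!
# Cells, left side: `chkL` gives `RunL`; runs of the left side along trees (helper93)
-/

set_option autoImplicit false

namespace SokalCel

open SokalFN SokalV3 SokalCen Real

/-- `chkL` gives `RunL` -/
theorem chkL_runE {P : Par} {q g kk c ν h τ Γ U0 UW UE f0 f1 f2 : ℝ} (hP : P.Ok (5 / 4) q g kk)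
    {F0 F1 F2 r0 rW re G : ℕ} {ci ni hi ui : I}
    (hx : chkL P F0 F1 F2 r0 rW re G ci ni hi ui = true)
    (hc : 0 < c) (hν : 0 < ν) (hcn : c ^ 2 + ν ^ 2 = 1) (hh : 0 < h) (hτ : 0 ≤ τ)
    (htp : (1 + τ) * h ≤ π) (hG : fx G ≤ Γ) (hR : 499 / 10 * (h * c) ^ 2 ≤ Γ)
    (mc : Mem c ci) (mn : Mem ν ni) (mh : Mem h hi) (mu : Mem τ ui)
    (hU : 0 ≤ U0) (hU0 : U0 ≤ fx r0) (hUW : UW ≤ fx rW) (hUE : UE ≤ fx re)
    (hf0 : fx F0 ≤ f0) (hf1 : fx F1 ≤ f1) (hf2 : fx F2 ≤ f2) :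
    RunL (5 / 4) q g kk c ν h τ Γ U0 UW UE f0 f1 f2 := by
  have hν1 : ν < 1 := by
    have h2 : 0 < c ^ 2 := by positivity
    nlinarith
  have ht : 0 < (1 + τ) * h := by positivity
  have hΓ : 0 < Γ := by
    have h2 : 0 < 499 / 10 * (h * c) ^ 2 := by positivity
    linarith
  have htp' := Ltp_pos htp
  have hT' : 0 ≤ LTp (5 / 4) c h τ := by unfold LTp; positivity
  have hA : 0 ≤ iA (5 / 4) c ν h τ := (Lr_pos (by norm_num) hν hν1 hT').le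
  obtain ⟨β, σ, hb, hb0, s0, s1, L⟩ := chkL_sound hP hx hG hc hν hν1.le hh hτ htp mc mn mh mu hA hU
    hU0 hUW hUE hf0 hf1 hf2
  have hW : Win β ((1 + τ) * h) := by
    rcases hb with ⟨e, _⟩ | e
    · rw [e]; exact win_b ht htp
    · rw [e]; exact win_all _
  exact L.run (by norm_num) hc hν hν1 hh hτ hΓ htp hb0 hW s0 s1

/-- the checker of `e` is sound -/
theorem sndL_of {P : Par} {q g kk U0 UW UE : ℝ} (hP : P.Ok (5 / 4) q g kk) {r0 rW re : ℕ}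
    (hU : 0 ≤ U0) (hU0 : U0 ≤ fx r0) (hUW : UW ≤ fx rW) (hUE : UE ≤ fx re) :
    SndL (fun F1 F2 G c n h u => chkL P 16492674416 F1 F2 r0 rW re G c n h u) q g kk U0 UW UE := by
  intro F1 F2 G ci ni hi ui hx c ν h τ Γ f1 f2 hc hν hcn hh hτ htp hG hR mc mn mh mu hf1 hf2
  refine chkL_runE hP hx hc hν hcn hh hτ htp hG hR mc mn mh mu hU hU0 hUW hUE ?_ hf1 hf2
  unfold fx
  norm_num

/-- the checker of the fields `a`, `b` (data of the run `K`) -/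
def chkK (K : RnD) (G : ℕ) (c n h u : I) : Bool :=
  chkL K.P K.F0 K.F1 K.F2 K.s0 K.sW K.se G c n h u

/-- A RUN of the left side along two trees. -/
theorem runsL_by {K : RnD} {q g kk U0 UW UE f0 f1 f2 t0 t1 : ℝ} (hP : K.P.Ok (5 / 4) q g kk)
    (hU : 0 ≤ U0) (hU0 : U0 ≤ fx K.s0) (hUW : UW ≤ fx K.sW) (hUE : UE ≤ fx K.se)
    (hf0 : fx K.F0 ≤ f0) (hf1 : fx K.F1 ≤ f1) (hf2 : fx K.F2 ≤ f2)
    {tc tn : BT} {xc xn y1 z0 z1 : ℕ}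
    (hC : bisT (okGC (celG K (chkK K))) tc 0 xc 0 y1 z0 z1 = true)
    (hN : bisT (okGN (celG K (chkK K))) tn 0 xn 0 y1 z0 z1 = true)
    (ec : 7 / 10 ≤ fx xc) (en : 18 / 25 ≤ fx xn) (ey : 2 * π / 3 ≤ fx y1)
    (e0 : fx z0 ≤ t0) (e1 : t1 ≤ fx z1) : RunsL K q g kk U0 UW UE f0 f1 f2 t0 t1 := by
  intro c ν h τ Γ D hh h0 h1
  refine run_tree (P := fun c ν h τ Γ => RunL (5 / 4) q g kk c ν h τ Γ U0 UW UE f0 f1 f2) ?_ hC hN ec
    en D (by rw [fx_zero]; exact D.h0.le) (hh.trans ey) (e0.trans h0) (h1.trans e1)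
  intro G ci ni hi ui hx c ν h τ Γ D hG mc mn mh mu
  exact chkL_runE hP hx D.c0 D.n0 D.cn D.h0 D.u0 D.tp hG D.G1 mc mn mh mu hU hU0 hUW hUE hf0 hf1 hf2

end SokalCel
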