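import Pool.Agent.Lib_MP_af4de1_v3.RestNum

/-!
# The rest zone with `w = 1` and the class `Γ ≥ 20`, level `g ≤ 17/10` (right side)

`Zr_one`: weight factor `14`.  `rest_PR`: `P * red ≤ (31/2) √R exp (-(19/20) r d + (g/2) r η²/R)` for
`q ≤ 33/20`.  `rest_CR`: general class bound; instances `restR_1 .. restR_i`.
-/

set_option autoImplicit false

namespace SokalCen

open Real MeasureTheory Set SokalV3 SokalF1 SokalF1S SokalF1M

/-- REST on any set with `d ≤ Dm`, `w = 1`. -/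
theorem Zr_one {q m ρ ε θ d : ℝ} {S : Set ℝ} (mS : MeasurableSet S) (hq : 0 < q)
    (hρ : 0 < ρ) (hm : 5 / 4 * ρ ≤ m) (hε0 : 0 < ε) (hε1 : ε < 1)
    (hd : ∀ s ∈ S, d ≤ Dm m ρ θ s) :
    Zone q m ρ θ 1 S (red q m ρ ε d) (14 * red q m ρ ε d) (3 * red q m ρ ε d) := by
  have hρm : ρ ≤ m := by linarith
  have hm0 : 0 < m := hρ.trans_le hρm
  have hla : 0 < laR q m ρ ε := by
    unfold laR
    positivity
  have hre : 0 ≤ red q m ρ ε d := by
    unfold red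
    positivity
  have h0 := Zr_gen (w := 1) mS hq hρ hm hε0 hε1 (by norm_num) hd
  -- pointwise
  have hE : ∀ s ∈ S, exp (-(q * Dm m ρ θ s)) ≤ exp (-((1 - ε) * (q * d))) *
      exp (-(laR q m ρ ε * min ((s / m) ^ 2) |s / m|)) := by
    intro s hs
    rw [← exp_add]
    refine exp_le_exp.2 ?_
    have h1 := hd s hs
    have h2 := Qm_min (s := s) hρ hm
    have h3 : Qm m ρ s ≤ Dm m ρ θ s := by
      rw [Dm_eq]
      have h4 := Real.cos_le_one (θ + s)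
      have h5 : 0 ≤ exp (pm m s) * (1 - cos (θ + s)) := mul_nonneg (exp_pos _).le (by linarith)
      linarith
    have h4 : (1 - ε) * q * d ≤ (1 - ε) * q * Dm m ρ θ s :=
      mul_le_mul_of_nonneg_left h1 (mul_nonneg (by linarith) hq.le)
    have h5 : ε * q * (2 / 5 * (m / ρ) * min ((s / m) ^ 2) |s / m|) ≤ ε * q * Dm m ρ θ s :=
      mul_le_mul_of_nonneg_left (h2.trans h3) (mul_nonneg hε0.le hq.le)
    have e : laR q m ρ ε * min ((s / m) ^ 2) |s / m| =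
        ε * q * (2 / 5 * (m / ρ) * min ((s / m) ^ 2) |s / m|) := by
      unfold laR
      ring
    rw [e]
    linarith
  have key : ∀ C : ℝ, 0 ≤ C → ∀ F : ℝ → ℝ, (∀ s, F s ≤ C) →
      ∫⁻ s in S, ENNReal.ofReal (F s * exp (-(q * Dm m ρ θ s))) ≤
        ENNReal.ofReal (C * red q m ρ ε d) := by
    intro C hC F hF
    calc ∫⁻ s in S, ENNReal.ofReal (F s * exp (-(q * Dm m ρ θ s)))
        ≤ ∫⁻ s in S, ENNReal.ofReal (C * exp (-((1 - ε) * (q * d)))) *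
            ENNReal.ofReal (exp (-(laR q m ρ ε * min ((s / m) ^ 2) |s / m|))) := by
          refine setLIntegral_mono' mS fun s hs => ?_
          rw [← ENNReal.ofReal_mul (by positivity)]
          refine ENNReal.ofReal_le_ofReal ?_
          rw [mul_assoc]
          exact mul_le_mul (hF s) (hE s hs) (exp_pos _).le hC
      _ ≤ ∫⁻ s : ℝ, ENNReal.ofReal (C * exp (-((1 - ε) * (q * d)))) *
            ENNReal.ofReal (exp (-(laR q m ρ ε * min ((s / m) ^ 2) |s / m|))) :=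
          setLIntegral_le_lintegral _ _
      _ = ENNReal.ofReal (C * exp (-((1 - ε) * (q * d)))) *
            ∫⁻ s : ℝ, ENNReal.ofReal (exp (-(laR q m ρ ε * min ((s / m) ^ 2) |s / m|))) :=
          lintegral_const_mul' _ _ ENNReal.ofReal_ne_top
      _ ≤ ENNReal.ofReal (C * exp (-((1 - ε) * (q * d)))) *
            ENNReal.ofReal (m * (√(π / laR q m ρ ε) + 2 / laR q m ρ ε)) :=
          mul_le_mul_right (zr_int hm0 hla) _
      _ = ENNReal.ofReal (C * red q m ρ ε d) := by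
          rw [← ENNReal.ofReal_mul (by positivity)]
          congr 1
          unfold red
          ring
  have he : ∀ s, exp (pm m s) ≤ 272 / 100 := by
    intro s
    have h1 := (abs_le.1 (pm_mem m s)).2
    have h2 := exp_le_exp.2 h1
    have h3 := Real.exp_one_lt_d9
    linarith
  refine ⟨h0.i0, ?_, h0.ie⟩
  refine key 14 (by norm_num) (fun s => Wm m θ 1 s) fun s => ?_
  unfold Wm
  have h1 : ‖em m θ s - 1‖ ≤ 272 / 100 + 1 := by
    refine (norm_sub_le _ _).trans (add_le_add ?_ (by simp))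
    rw [norm_em]
    exact he s
  have h2 := pow_le_pow_left₀ (norm_nonneg (em m θ s - 1)) h1 2
  refine h2.trans (by norm_num)

/-- the closed form, sharper -/
theorem rest_PR {r δ η g q d : ℝ} (hr : 499 / 10 ≤ r) (hδ : 0 < δ) (hq0 : 0 ≤ q)
    (hq : q ≤ 33 / 20) :
    LvF r δ η g q * √(1 + 1 / mm (r * δ) ^ 2) * red r (mm (r * δ)) (r * δ) (1 / 20) d ≤
      31 / 2 * √(RR r δ) * exp (-(19 / 20 * (r * d) - g / 2 * (r * η ^ 2 / RR r δ))) := by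
  have hr0 : 0 < r := by linarith
  have hρ : 0 < r * δ := mul_pos hr0 hδ
  obtain ⟨ρ, hρe⟩ : ∃ ρ, ρ = r * δ := ⟨_, rfl⟩
  obtain ⟨s, hs⟩ : ∃ s, s = √(RR r δ) := ⟨_, rfl⟩
  have hRR : RR r δ = 1 + ρ ^ 2 := by rw [hρe]; rfl
  have hR0 : 0 < RR r δ := by rw [hRR]; positivity
  have hs0 : 0 < s := by rw [hs]; exact Real.sqrt_pos.2 hR0
  have hs2 : s ^ 2 = 1 + ρ ^ 2 := by rw [hs, Real.sq_sqrt hR0.le, hRR]
  have hs1 : 1 ≤ s := by nlinarith only [hs0, hs2]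
  rw [← hρe] at hρ
  have hρs : ρ ≤ s := by nlinarith only [hs2, hs1]
  have hm : mm (r * δ) = 5 / 4 * s := by
    unfold mm
    rw [← hρe, ← hRR, ← hs]
  have hla : laR r (mm (r * δ)) (r * δ) (1 / 20) = r * s / (40 * ρ) := by
    rw [hm, ← hρe]
    unfold laR
    field_simp
    ring
  have hpi := Real.pi_gt_d4
  have hpi0 := Real.pi_pos
  -- the two parts
  obtain ⟨A, hA⟩ : ∃ A, A = √(r / (2 * π * ρ)) * √(q * s) := ⟨_, rfl⟩
  obtain ⟨x, hx⟩ : ∃ x, x = √(ρ / s) := ⟨_, rfl⟩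
  have hν0 : 0 ≤ ρ / s := by positivity
  have hν1 : ρ / s ≤ 1 := by rwa [div_le_one hs0]
  have hx0 : 0 ≤ x := by rw [hx]; exact Real.sqrt_nonneg _
  have hx2 : x ^ 2 = ρ / s := by rw [hx, Real.sq_sqrt hν0]
  have hx1 : x ≤ 1 := by nlinarith only [hν1, hx2]
  have hA0 : 0 ≤ A := by rw [hA]; positivity
  have hA2 : A ^ 2 = r * q * s / (2 * π * ρ) := by
    rw [hA, mul_pow, Real.sq_sqrt (by positivity), Real.sq_sqrt (by positivity)]
    field_simp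
  have h1 : A * √(π / (r * s / (40 * ρ))) ≤ 5745 / 1000 := by
    refine abs_le_of_sq_le_sq' ?_ (by norm_num) |>.2
    rw [mul_pow, hA2, Real.sq_sqrt (by positivity)]
    have e : r * q * s / (2 * π * ρ) * (π / (r * s / (40 * ρ))) = 20 * q := by
      field_simp
      ring
    rw [e]
    linarith only [hq]
  have h2 : A * (2 / (r * s / (40 * ρ))) ≤ 5804 / 1000 * x := by
    refine abs_le_of_sq_le_sq' ?_ (by positivity) |>.2
    rw [mul_pow, hA2, mul_pow, hx2]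
    have e : r * q * s / (2 * π * ρ) * (2 / (r * s / (40 * ρ))) ^ 2 =
        3200 * q / (π * r) * (ρ / s) := by
      field_simp
      ring
    rw [e]
    refine mul_le_mul_of_nonneg_right ?_ hν0
    rw [div_le_iff₀ (by positivity)]
    have h5 : (3.1415 : ℝ) * (499 / 10) ≤ π * r := mul_le_mul hpi.le hr (by norm_num) hpi0.le
    linarith only [hq, h5]
  have hν2 : 1 / (5 / 4 * s) ^ 2 = 16 / 25 * (1 - x ^ 4) := by
    have e : x ^ 4 = (ρ / s) ^ 2 := by rw [← hx2]; ring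
    rw [e, div_pow, hs2]
    have e2 : (1 + ρ ^ 2 : ℝ) ≠ 0 := by positivity
    rw [mul_pow, hs2]
    field_simp
    ring
  have hx4 : 22871 / 10000 * x - 14238 / 10000 ≤ x ^ 4 := by
    nlinarith only [sq_nonneg (x ^ 2 - (83 / 100) ^ 2)]
  have h3 : √(1 + 1 / (5 / 4 * s) ^ 2) ≤ 16830 / 10000 - 6347 / 10000 * x := by
    rw [hν2]
    have h6 : √(1 + 16 / 25 * (1 - x ^ 4)) ≤
        (1153 / 1000 + (1 + 16 / 25 * (1 - x ^ 4)) / (1153 / 1000)) / 2 := by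
      have h7 : 0 ≤ 1 + 16 / 25 * (1 - x ^ 4) := by
        have : x ^ 4 ≤ 1 := pow_le_one₀ hx0 hx1
        linarith
      have h8 := Real.sq_sqrt h7
      have h9 := sq_nonneg (√(1 + 16 / 25 * (1 - x ^ 4)) - 1153 / 1000)
      rw [← sub_nonneg]
      have h10 : (1153 / 1000 + (1 + 16 / 25 * (1 - x ^ 4)) / (1153 / 1000)) / 2 -
          √(1 + 16 / 25 * (1 - x ^ 4)) =
          (√(1 + 16 / 25 * (1 - x ^ 4)) - 1153 / 1000) ^ 2 / (2 * (1153 / 1000)) := by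
        rw [sub_sq, h8]
        ring
      rw [h10]
      positivity
    refine h6.trans ?_
    linarith
  have hE1 := exp_pos (g / 2 * (r * η ^ 2 / RR r δ))
  have hE2 := exp_pos (-((1 - 1 / 20) * (r * d)))
  unfold LvF red
  rw [hla, hm, ← hρe, ← hs, ← hA]
  have e1 : exp (-(19 / 20 * (r * d) - g / 2 * (r * η ^ 2 / RR r δ))) =
      exp (g / 2 * (r * η ^ 2 / RR r δ)) * exp (-((1 - 1 / 20) * (r * d))) := by
    rw [← exp_add]
    congr 1
    ring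
  rw [e1]
  have e2 : A * exp (g / 2 * (r * η ^ 2 / RR r δ)) * √(1 + 1 / (5 / 4 * s) ^ 2) *
      (exp (-((1 - 1 / 20) * (r * d))) *
        (5 / 4 * s * (√(π / (r * s / (40 * ρ))) + 2 / (r * s / (40 * ρ))))) =
      (A * √(π / (r * s / (40 * ρ))) + A * (2 / (r * s / (40 * ρ)))) *
        √(1 + 1 / (5 / 4 * s) ^ 2) * (5 / 4) * s *
        (exp (g / 2 * (r * η ^ 2 / RR r δ)) * exp (-((1 - 1 / 20) * (r * d)))) := by ring
  rw [e2]
  refine mul_le_mul_of_nonneg_right (mul_le_mul_of_nonneg_right ?_ hs0.le) (by positivity)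
  have h4 : A * √(π / (r * s / (40 * ρ))) + A * (2 / (r * s / (40 * ρ))) ≤
      5745 / 1000 + 5804 / 1000 * x := by
    linarith
  have h5 : 0 ≤ A * √(π / (r * s / (40 * ρ))) + A * (2 / (r * s / (40 * ρ))) := by positivity
  have h6 := mul_le_mul h4 h3 (Real.sqrt_nonneg _) (by linarith)
  have h7 : (5745 / 1000 + 5804 / 1000 * x) * (16830 / 10000 - 6347 / 10000 * x) ≤ 124 / 10 := by
    nlinarith only [sq_nonneg (x - 83 / 100)]
  linarith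

/-- steps `1/8` -/
theorem exp_neg_eighth {x : ℝ} {n : ℕ} (h : (n : ℝ) / 8 ≤ x) : exp (-x) ≤ (1 / 1.1331) ^ n := by
  have h1 : exp (-x) ≤ exp (-((n : ℝ) / 8)) := exp_le_exp.2 (by linarith)
  refine h1.trans ?_
  have h2 : exp (-((n : ℝ) / 8)) = (1 / exp (1 / 8)) ^ n := by
    rw [Real.exp_neg, one_div, inv_pow, ← Real.exp_nat_mul]
    congr 2
    ring
  rw [h2]
  have h3 : (1.1331 : ℝ) ≤ exp (1 / 8) := by
    have h5 := Real.exp_one_gt_d9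
    have h6 : exp 1 = exp (1 / 8) ^ 8 := by
      rw [← Real.exp_nat_mul]
      norm_num
    by_contra hcon
    push Not at hcon
    have h7 := pow_le_pow_left₀ (exp_pos (1 / 8 : ℝ)).le hcon.le 8
    rw [← h6] at h7
    have : (1.1331 : ℝ) ^ 8 < 2.7182818283 := by norm_num
    linarith
  have h4 : 1 / exp (1 / 8) ≤ 1 / 1.1331 :=
    div_le_div_of_nonneg_left (by norm_num) (by norm_num) h3
  exact pow_le_pow_left₀ (by positivity) h4 n

/-- Large `Γ`: `Γ ≥ 20`, `h²/R ≤ Y`, level exponent at most `κ Γ`, `w = 1`. -/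
theorem rest_CR {r δ η g q h κ Y d : ℝ} {n : ℕ} (hr : 499 / 10 ≤ r) (hδ : 0 < δ) (hq0 : 0 ≤ q)
    (hq : q ≤ 33 / 20) (hh : 0 < h) (hG : 20 ≤ r * h ^ 2 / RR r δ) (hY : h ^ 2 / RR r δ ≤ Y)
    (hκ : 3 / 40 ≤ κ) (hK : g / 2 * (r * η ^ 2 / RR r δ) ≤ κ * (r * h ^ 2 / RR r δ))
    (hc : 0 ≤ 19 / 20 * d - κ * Y) (hn : (n : ℝ) / 8 ≤ (19 / 20 * d - κ * Y) * (499 / 10)) :
    LvF r δ η g q * √(1 + 1 / mm (r * δ) ^ 2) * red r (mm (r * δ)) (r * δ) (1 / 20) d ≤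
        31 / 2 * (h / √Y) * (1 / 1.1331) ^ n ∧
      LvF r δ η g q * √(1 + 1 / mm (r * δ) ^ 2) * (14 * red r (mm (r * δ)) (r * δ) (1 / 20) d) *
          (RR r δ / h ^ 2) ≤ 217 * (h / (Y * √Y)) * (1 / 1.1331) ^ n := by
  have hr0 : 0 < r := by linarith
  have hR0 : 0 < RR r δ := by unfold RR; positivity
  have h1 := rest_PR (η := η) (g := g) (d := d) hr hδ hq0 hq
  obtain ⟨X, hX⟩ : ∃ X, X = LvF r δ η g q * √(1 + 1 / mm (r * δ) ^ 2) *
    red r (mm (r * δ)) (r * δ) (1 / 20) d := ⟨_, rfl⟩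
  have e1 : LvF r δ η g q * √(1 + 1 / mm (r * δ) ^ 2) * (14 * red r (mm (r * δ)) (r * δ) (1 / 20) d) *
      (RR r δ / h ^ 2) = 14 * X * (RR r δ / h ^ 2) := by
    rw [hX]
    ring
  rw [e1, ← hX]
  rw [← hX] at h1
  obtain ⟨y, hy⟩ : ∃ y, y = h ^ 2 / RR r δ := ⟨_, rfl⟩
  have hy0 : 0 < y := by rw [hy]; positivity
  have hRy : RR r δ = h ^ 2 / y := by
    rw [hy]
    field_simp
  have ery : r * y = r * h ^ 2 / RR r δ := by rw [hy, mul_div_assoc]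
  have hG' : 20 ≤ r * y := by rw [ery]; exact hG
  have hK' : g / 2 * (r * η ^ 2 / RR r δ) ≤ κ * (r * y) := by rw [ery]; exact hK
  rw [← hy] at hY
  have hY0 : 0 < Y := hy0.trans_le hY
  obtain ⟨u, hu⟩ : ∃ u, u = Y / y - 1 := ⟨_, rfl⟩
  have hu0 : 0 ≤ u := by
    rw [hu, sub_nonneg, one_le_div hy0]
    exact hY
  have hYy : Y / y = 1 + u := by rw [hu]; ring
  have hκG : 3 / 2 ≤ κ * (r * y) := by nlinarith only [hκ, hG']
  have hsR : √(RR r δ) = h / √Y * √(1 + u) := by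
    rw [hRy, Real.sqrt_div (sq_nonneg h), Real.sqrt_sq hh.le, ← hYy, Real.sqrt_div hY0.le]
    have h3 : 0 < √Y := Real.sqrt_pos.2 hY0
    have h4 : 0 < √y := Real.sqrt_pos.2 hy0
    field_simp
  have hRh : RR r δ / h ^ 2 = 1 / Y * (1 + u) := by
    rw [hRy, ← hYy]
    field_simp
  have eu : κ * (r * y) = κ * (r * Y) - κ * (r * y) * u := by
    rw [hu]
    field_simp
    ring
  have hE : exp (-(19 / 20 * (r * d) - g / 2 * (r * η ^ 2 / RR r δ))) ≤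
      exp (-((19 / 20 * d - κ * Y) * (499 / 10))) * exp (-(κ * (r * y) * u)) := by
    rw [← exp_add]
    refine exp_le_exp.2 ?_
    have h3 : (19 / 20 * d - κ * Y) * (499 / 10) ≤ (19 / 20 * d - κ * Y) * r :=
      mul_le_mul_of_nonneg_left hr hc
    linarith
  have hN := exp_neg_eighth hn
  have hs := sqrt_le_exp hu0
  have h1u : 1 + u ≤ exp u := by
    have := Real.add_one_le_exp u
    linarith
  have hsY : 0 < √Y := Real.sqrt_pos.2 hY0
  have hX1 : X ≤ 31 / 2 * (h / √Y * √(1 + u)) *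
      ((1 / 1.1331) ^ n * exp (-(κ * (r * y) * u))) := by
    rw [hsR] at h1
    refine h1.trans ?_
    refine mul_le_mul_of_nonneg_left (hE.trans ?_) (by positivity)
    exact mul_le_mul_of_nonneg_right hN (exp_pos _).le
  constructor
  · refine hX1.trans ?_
    have h3 : √(1 + u) * exp (-(κ * (r * y) * u)) ≤ 1 := by
      refine (mul_le_mul_of_nonneg_right hs (exp_pos _).le).trans ?_
      rw [← exp_add]
      refine exp_le_one_iff.2 ?_
      nlinarith only [hu0, hκG]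
    have h4 : 0 ≤ 31 / 2 * (h / √Y) * (1 / 1.1331) ^ n := by positivity
    have h5 := mul_le_mul_of_nonneg_left h3 h4
    refine le_trans (le_of_eq ?_) (h5.trans (le_of_eq (mul_one _)))
    ring
  · rw [hRh]
    have h3 : (1 + u) * √(1 + u) * exp (-(κ * (r * y) * u)) ≤ 1 := by
      have h4 := mul_le_mul h1u hs (Real.sqrt_nonneg _) (exp_pos _).le
      refine (mul_le_mul_of_nonneg_right h4 (exp_pos _).le).trans ?_
      rw [← exp_add, ← exp_add]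
      refine exp_le_one_iff.2 ?_
      linarith only [mul_le_mul_of_nonneg_right hκG hu0]
    have h4 : 0 ≤ 217 * (h / (Y * √Y)) * (1 / 1.1331) ^ n := by positivity
    have h5 := mul_le_mul_of_nonneg_left h3 h4
    have h6 : 14 * X * (1 / Y * (1 + u)) ≤ 14 * (31 / 2 * (h / √Y * √(1 + u)) *
        ((1 / 1.1331) ^ n * exp (-(κ * (r * y) * u)))) * (1 / Y * (1 + u)) := by
      have : 0 ≤ 1 / Y * (1 + u) := by positivity
      gcongr
    refine h6.trans (le_trans (le_of_eq ?_) (h5.trans (le_of_eq (mul_one _))))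
    field_simp
    ring

private theorem CR_aux {r δ η g h κ τ : ℝ} (hr0 : 0 < r) (hτ : |η| ≤ τ * h)
    (hg0 : 0 ≤ g) (hκ : g / 2 * τ ^ 2 ≤ κ) :
    g / 2 * (r * η ^ 2 / RR r δ) ≤ κ * (r * h ^ 2 / RR r δ) := by
  have hR0 : 0 < RR r δ := by unfold RR; positivity
  have hη2 : η ^ 2 ≤ τ ^ 2 * h ^ 2 := by
    rw [← sq_abs, ← mul_pow]
    exact pow_le_pow_left₀ (abs_nonneg η) hτ 2
  have h1 : r * η ^ 2 / RR r δ ≤ τ ^ 2 * (r * h ^ 2 / RR r δ) := by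
    rw [← mul_div_assoc]
    refine div_le_div_of_nonneg_right ?_ hR0.le
    have := mul_le_mul_of_nonneg_left hη2 hr0.le
    linarith
  calc g / 2 * (r * η ^ 2 / RR r δ) ≤ g / 2 * (τ ^ 2 * (r * h ^ 2 / RR r δ)) :=
        mul_le_mul_of_nonneg_left h1 (by linarith)
    _ = g / 2 * τ ^ 2 * (r * h ^ 2 / RR r δ) := by ring
    _ ≤ κ * (r * h ^ 2 / RR r δ) := mul_le_mul_of_nonneg_right hκ (by positivity)

/-- the numbers of an instance: `σ ≤ √Y`, `h ≤ 21/10` -/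
theorem rest_inst {r δ η g q h κ τ Y d σ S0 SW Se : ℝ} {n : ℕ} (hr : 499 / 10 ≤ r) (hδ : 0 < δ)
    (hq0 : 0 ≤ q) (hq : q ≤ 33 / 20) (hg0 : 0 ≤ g) (hh : 0 < h) (hh2 : h ≤ 21 / 10)
    (hG : 20 ≤ r * h ^ 2 / RR r δ) (hY : h ^ 2 / RR r δ ≤ Y) (hτ : |η| ≤ τ * h)
    (hκτ : g / 2 * τ ^ 2 ≤ κ) (hκ : 3 / 40 ≤ κ)
    (hc : 0 ≤ 19 / 20 * d - κ * Y) (hn : (n : ℝ) / 8 ≤ (19 / 20 * d - κ * Y) * (499 / 10))
    (hσ : 0 < σ) (hσY : σ ^ 2 ≤ Y)
    (h0 : 31 / 2 * (21 / 10 / σ) * (1 / 1.1331) ^ n ≤ S0)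
    (hW : 217 * (21 / 10 / (Y * σ)) * (1 / 1.1331) ^ n ≤ SW) (he : 3 * S0 ≤ 20 * Se) :
    LvF r δ η g q * √(1 + 1 / mm (r * δ) ^ 2) * red r (mm (r * δ)) (r * δ) (1 / 20) d ≤ S0 ∧
      LvF r δ η g q * √(1 + 1 / mm (r * δ) ^ 2) *
        (14 * red r (mm (r * δ)) (r * δ) (1 / 20) d) * (RR r δ / h ^ 2) ≤ SW ∧
      LvF r δ η g q * √(1 + 1 / mm (r * δ) ^ 2) *
        (3 * red r (mm (r * δ)) (r * δ) (1 / 20) d) / (r * h ^ 2 / RR r δ) ≤ Se := by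
  have hr0 : 0 < r := by linarith
  have hR0 : 0 < RR r δ := by unfold RR; positivity
  have hY0 : 0 < Y := lt_of_lt_of_le (by positivity) hσY
  obtain ⟨h1, h2⟩ := rest_CR (n := n) (κ := κ) (Y := Y) (d := d) (η := η)
    (g := g) (q := q) (h := h) hr hδ hq0 hq hh hG hY hκ (CR_aux hr0 hτ hg0 hκτ) hc hn
  have h3 : σ ≤ √Y := Real.le_sqrt_of_sq_le hσY
  have h4 : 31 / 2 * (h / √Y) * (1 / 1.1331) ^ n ≤ 31 / 2 * (21 / 10 / σ) * (1 / 1.1331) ^ n := by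
    gcongr
  have h5 : 217 * (h / (Y * √Y)) * (1 / 1.1331) ^ n ≤
      217 * (21 / 10 / (Y * σ)) * (1 / 1.1331) ^ n := by
    gcongr
  have h8 := (h1.trans h4).trans h0
  refine ⟨h8, (h2.trans h5).trans hW, ?_⟩
  rw [div_le_iff₀ (by linarith)]
  have e : LvF r δ η g q * √(1 + 1 / mm (r * δ) ^ 2) *
      (3 * red r (mm (r * δ)) (r * δ) (1 / 20) d) =
      3 * (LvF r δ η g q * √(1 + 1 / mm (r * δ) ^ 2) *
        red r (mm (r * δ)) (r * δ) (1 / 20) d) := by ring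
  rw [e]
  have hS : 0 ≤ LvF r δ η g q * √(1 + 1 / mm (r * δ) ^ 2) *
        red r (mm (r * δ)) (r * δ) (1 / 20) d := by
    unfold LvF red
    have hla : 0 ≤ laR r (mm (r * δ)) (r * δ) (1 / 20) := by
      unfold laR mm
      positivity
    have : 0 ≤ mm (r * δ) := by unfold mm; positivity
    positivity
  have hSe : 0 ≤ Se := by linarith
  have h9 := mul_le_mul_of_nonneg_left hG hSe
  linarith

/-- window or inner, `Γ ≥ 20`, `h²/R ≤ 2/5`, `|η| ≤ (3/5) h`, `d = 1/2` -/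
theorem restR_1 {r δ η g q h : ℝ} (hr : 499 / 10 ≤ r) (hδ : 0 < δ) (hq0 : 0 ≤ q)
    (hq : q ≤ 33 / 20) (hg0 : 0 ≤ g) (hg : g ≤ 17 / 10) (hh : 0 < h) (hh2 : h ≤ 21 / 10)
    (hη : |η| ≤ 3 / 5 * h) (hG : 20 ≤ r * h ^ 2 / RR r δ) (hY : h ^ 2 / RR r δ ≤ 2 / 5) :
    LvF r δ η g q * √(1 + 1 / mm (r * δ) ^ 2) * red r (mm (r * δ)) (r * δ) (1 / 20) (1 / 2) ≤
        1 / 500000 ∧
      LvF r δ η g q * √(1 + 1 / mm (r * δ) ^ 2) *
        (14 * red r (mm (r * δ)) (r * δ) (1 / 20) (1 / 2)) * (RR r δ / h ^ 2) ≤ 1 / 20000 ∧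
      LvF r δ η g q * √(1 + 1 / mm (r * δ) ^ 2) *
        (3 * red r (mm (r * δ)) (r * δ) (1 / 20) (1 / 2)) / (r * h ^ 2 / RR r δ) ≤ 1 / 3000000 :=
  rest_inst (n := 140) (κ := 306 / 1000) (Y := 2 / 5) (τ := 3 / 5) (σ := 632 / 1000) hr hδ hq0 hq
    hg0 hh hh2 hG hY hη (by linarith only [hg]) (by norm_num) (by norm_num) (by norm_num) (by norm_num)
    (by norm_num) (by norm_num) (by norm_num) (by norm_num)

/-- window, `Γ ≥ 20`, `h²/R ≤ 37/50`, `|η| ≤ (3/5) h`, `d = 1/2` -/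
theorem restR_2 {r δ η g q h : ℝ} (hr : 499 / 10 ≤ r) (hδ : 0 < δ) (hq0 : 0 ≤ q)
    (hq : q ≤ 33 / 20) (hg0 : 0 ≤ g) (hg : g ≤ 17 / 10) (hh : 0 < h) (hh2 : h ≤ 21 / 10)
    (hη : |η| ≤ 3 / 5 * h) (hG : 20 ≤ r * h ^ 2 / RR r δ) (hY : h ^ 2 / RR r δ ≤ 37 / 50) :
    LvF r δ η g q * √(1 + 1 / mm (r * δ) ^ 2) * red r (mm (r * δ)) (r * δ) (1 / 20) (1 / 2) ≤
        1 / 6000 ∧
      LvF r δ η g q * √(1 + 1 / mm (r * δ) ^ 2) *
        (14 * red r (mm (r * δ)) (r * δ) (1 / 20) (1 / 2)) * (RR r δ / h ^ 2) ≤ 31 / 10000 ∧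
      LvF r δ η g q * √(1 + 1 / mm (r * δ) ^ 2) *
        (3 * red r (mm (r * δ)) (r * δ) (1 / 20) (1 / 2)) / (r * h ^ 2 / RR r δ) ≤ 1 / 40000 :=
  rest_inst (n := 99) (κ := 306 / 1000) (Y := 37 / 50) (τ := 3 / 5) (σ := 86 / 100) hr hδ hq0 hq
    hg0 hh hh2 hG hY hη (by linarith only [hg]) (by norm_num) (by norm_num) (by norm_num) (by norm_num)
    (by norm_num) (by norm_num) (by norm_num) (by norm_num)

/-- window, `Γ ≥ 20`, `h²/R ≤ 11/10`, `|η| ≤ (3/5) h`, `d = 3/5` (`Dm_35`) -/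
theorem restR_3 {r δ η g q h : ℝ} (hr : 499 / 10 ≤ r) (hδ : 0 < δ) (hq0 : 0 ≤ q)
    (hq : q ≤ 33 / 20) (hg0 : 0 ≤ g) (hg : g ≤ 17 / 10) (hh : 0 < h) (hh2 : h ≤ 21 / 10)
    (hη : |η| ≤ 3 / 5 * h) (hG : 20 ≤ r * h ^ 2 / RR r δ) (hY : h ^ 2 / RR r δ ≤ 11 / 10) :
    LvF r δ η g q * √(1 + 1 / mm (r * δ) ^ 2) * red r (mm (r * δ)) (r * δ) (1 / 20) (3 / 5) ≤
        29 / 100000 ∧
      LvF r δ η g q * √(1 + 1 / mm (r * δ) ^ 2) *
        (14 * red r (mm (r * δ)) (r * δ) (1 / 20) (3 / 5)) * (RR r δ / h ^ 2) ≤ 37 / 10000 ∧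
      LvF r δ η g q * √(1 + 1 / mm (r * δ) ^ 2) *
        (3 * red r (mm (r * δ)) (r * δ) (1 / 20) (3 / 5)) / (r * h ^ 2 / RR r δ) ≤ 1 / 20000 :=
  rest_inst (n := 93) (κ := 306 / 1000) (Y := 11 / 10) (τ := 3 / 5) (σ := 1048 / 1000) hr hδ hq0 hq
    hg0 hh hh2 hG hY hη (by linarith only [hg]) (by norm_num) (by norm_num) (by norm_num) (by norm_num)
    (by norm_num) (by norm_num) (by norm_num) (by norm_num)

/-- inner own angles, `Γ ≥ 20`, `h²/R ≤ 11/10`, `|η| ≤ (2/5) h`, `d = 1/2` -/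
theorem restR_i {r δ η g q h : ℝ} (hr : 499 / 10 ≤ r) (hδ : 0 < δ) (hq0 : 0 ≤ q)
    (hq : q ≤ 33 / 20) (hg0 : 0 ≤ g) (hg : g ≤ 17 / 10) (hh : 0 < h) (hh2 : h ≤ 21 / 10)
    (hη : |η| ≤ 2 / 5 * h) (hG : 20 ≤ r * h ^ 2 / RR r δ) (hY : h ^ 2 / RR r δ ≤ 11 / 10) :
    LvF r δ η g q * √(1 + 1 / mm (r * δ) ^ 2) * red r (mm (r * δ)) (r * δ) (1 / 20) (1 / 2) ≤
        1 / 200000 ∧
      LvF r δ η g q * √(1 + 1 / mm (r * δ) ^ 2) *
        (14 * red r (mm (r * δ)) (r * δ) (1 / 20) (1 / 2)) * (RR r δ / h ^ 2) ≤ 1 / 20000 ∧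
      LvF r δ η g q * √(1 + 1 / mm (r * δ) ^ 2) *
        (3 * red r (mm (r * δ)) (r * δ) (1 / 20) (1 / 2)) / (r * h ^ 2 / RR r δ) ≤ 1 / 1000000 :=
  rest_inst (n := 129) (κ := 136 / 1000) (Y := 11 / 10) (τ := 2 / 5) (σ := 1048 / 1000) hr hδ hq0 hq
    hg0 hh hh2 hG hY hη (by linarith only [hg]) (by norm_num) (by norm_num) (by norm_num) (by norm_num)
    (by norm_num) (by norm_num) (by norm_num) (by norm_num)

end SokalCen
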