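import Pool.Agent.Lib_MP_af4de1_v3.CenUReal
import Pool.Agent.Lib_MP_af4de1_v3.RestR

/-!
# CEN: rest and far as ONE zone, right side, `Γ ≥ 20` (and the constants of helper4's cells)
-/

set_option autoImplicit false

namespace SokalCen

open Real MeasureTheory Set SokalV3 SokalF1

variable {N : ℕ} {r δ η g q : ℝ}

/-- the rest zone from `Zr_one` -/
theorem rest_UB1 {θ d b0 bW be : ℝ} {S : Set ℝ} (mS : MeasurableSet S)
    (hR : Reg1 N r δ) (hd : ∀ s ∈ S, d ≤ Dm (mm (r * δ)) (r * δ) θ s)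
    (h : LvF r δ η g q * √(1 + 1 / mm (r * δ) ^ 2) * red r (mm (r * δ)) (r * δ) (1 / 20) d ≤ b0 ∧
      LvF r δ η g q * √(1 + 1 / mm (r * δ) ^ 2) *
        (14 * red r (mm (r * δ)) (r * δ) (1 / 20) d) * (RR r δ / hst N ^ 2) ≤ bW ∧
      LvF r δ η g q * √(1 + 1 / mm (r * δ) ^ 2) *
        (3 * red r (mm (r * δ)) (r * δ) (1 / 20) d) / (r * hst N ^ 2 / RR r δ) ≤ be) :
    UB N r δ η g q θ S b0 bW be := by
  have hr0 : 0 < r := by linarith [hR.r0]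
  have hρ : 0 < r * δ := mul_pos hr0 hR.d0
  have hm := u_m hρ
  have hm0 : 0 < mm (r * δ) := by linarith
  have hre : 0 ≤ red r (mm (r * δ)) (r * δ) (1 / 20) d := by
    unfold red laR
    positivity
  exact ⟨_, _, _, hre, by positivity, by positivity,
    Zr_one mS hr0 hρ hm (by norm_num) (by norm_num) hd, h⟩

/-- RIGHT, inner own angles, `20 ≤ Γ` -/
theorem uR_Ci {t : ℝ} (hR : Reg1 N r δ) (hG : 20 ≤ Gm N r δ)
    (hη : |η| ≤ 2 / 5 * hst N) (hg0 : 0 ≤ g) (hg : g ≤ 17 / 10) (hq0 : 0 ≤ q) (hq : q ≤ 33 / 20)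
    (ht : |η| + hst N ≤ t) (htp : t ≤ π) :
    UB N r δ η g q (-t) (UsR t) (7 / 1000000) (7 / 100000) (2 / 1000000) := by
  obtain ⟨hh0, hh1⟩ := u_h hR
  have hr0 : 0 < r := by linarith [hR.r0]
  have hρ : 0 < r * δ := mul_pos hr0 hR.d0
  have hRp : 0 < RR r δ := by unfold RR; positivity
  have hY : hst N ^ 2 / RR r δ ≤ 11 / 10 := by
    rw [div_le_iff₀ hRp]
    exact hR.I
  have h := restR_i (q := q) hR.r0 hR.d0 hq0 hq hg0 hg hh0 hh1 hη hG hY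
  exact (u_right hR (hη.trans (by linarith)) (by linarith) hq ht htp
    (rest_UB1 (mS_rest (-t)) hR (fun s hs => Dm_half hρ (u_m hρ) hs) h)).mono subset_rfl
    (by norm_num) (by norm_num) (by norm_num)

/-- RIGHT, `20 ≤ Γ`, `h²/R ≤ 2/5` -/
theorem uR_C0 {t : ℝ} (hR : Reg1 N r δ) (hG : 20 ≤ Gm N r δ)
    (hη : |η| ≤ 3 / 5 * hst N) (hg0 : 0 ≤ g) (hg : g ≤ 17 / 10) (hq0 : 0 ≤ q) (hq : q ≤ 33 / 20)
    (ht : |η| + hst N ≤ t) (htp : t ≤ π) (hY : hst N ^ 2 / RR r δ ≤ 2 / 5) :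
    UB N r δ η g q (-t) (UsR t) (4 / 1000000) (6 / 100000) (1 / 1000000) := by
  obtain ⟨hh0, hh1⟩ := u_h hR
  have hr0 : 0 < r := by linarith [hR.r0]
  have hρ : 0 < r * δ := mul_pos hr0 hR.d0
  have h := restR_1 (q := q) hR.r0 hR.d0 hq0 hq hg0 hg hh0 hh1 hη hG hY
  exact (u_right hR (hη.trans (by linarith)) (by linarith) hq ht htp
    (rest_UB1 (mS_rest (-t)) hR (fun s hs => Dm_half hρ (u_m hρ) hs) h)).mono subset_rfl
    (by norm_num) (by norm_num) (by norm_num)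

/-- RIGHT, `20 ≤ Γ`, `h²/R ≤ 37/50` -/
theorem uR_C1 {t : ℝ} (hR : Reg1 N r δ) (hG : 20 ≤ Gm N r δ)
    (hη : |η| ≤ 3 / 5 * hst N) (hg0 : 0 ≤ g) (hg : g ≤ 17 / 10) (hq0 : 0 ≤ q) (hq : q ≤ 33 / 20)
    (ht : |η| + hst N ≤ t) (htp : t ≤ π) (hY : hst N ^ 2 / RR r δ ≤ 37 / 50) :
    UB N r δ η g q (-t) (UsR t) (17 / 100000) (32 / 10000) (3 / 100000) := by
  obtain ⟨hh0, hh1⟩ := u_h hR
  have hr0 : 0 < r := by linarith [hR.r0]
  have hρ : 0 < r * δ := mul_pos hr0 hR.d0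
  have h := restR_2 (q := q) hR.r0 hR.d0 hq0 hq hg0 hg hh0 hh1 hη hG hY
  exact (u_right hR (hη.trans (by linarith)) (by linarith) hq ht htp
    (rest_UB1 (mS_rest (-t)) hR (fun s hs => Dm_half hρ (u_m hρ) hs) h)).mono subset_rfl
    (by norm_num) (by norm_num) (by norm_num)

/-- `Dm ≥ 3/5` on the rest zone when `h²/R ≥ 7/10`, `t ≥ 6/5` -/
theorem u_35 {t : ℝ} (hR : Reg1 N r δ) (htp : t ≤ π) (h65 : 6 / 5 ≤ t)
    (hY : 7 / 10 ≤ hst N ^ 2 / RR r δ) :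
    ∀ s, 6336 / 10000 ≤ 1 - cos (-t + s) → 3 / 5 ≤ Dm (mm (r * δ)) (r * δ) (-t) s := by
  obtain ⟨hh0, hh1⟩ := u_h hR
  have hr0 : 0 < r := by linarith [hR.r0]
  have hρ : 0 < r * δ := mul_pos hr0 hR.d0
  have hRp : 0 < RR r δ := by unfold RR; positivity
  have hR1 : 1 ≤ RR r δ := by
    unfold RR
    have := sq_nonneg (r * δ)
    linarith
  have hR2 : RR r δ ≤ 63 / 10 := by
    rw [le_div_iff₀ hRp] at hY
    nlinarith
  have hmm : mm (r * δ) = 5 / 4 * √(RR r δ) := rfl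
  have hs1 : 1 ≤ √(RR r δ) := Real.one_le_sqrt.2 hR1
  have hs2 : √(RR r δ) ≤ 64 / 25 := by
    rw [Real.sqrt_le_left (by norm_num)]
    linarith
  intro s hs
  exact Dm_35 hρ (u_m hρ) (by rw [hmm]; linarith) (by rw [hmm]; linarith) h65 htp hs

/-- RIGHT, `20 ≤ Γ`, `h²/R ≥ 37/50`, `t ≥ 6/5` -/
theorem uR_C2 {t : ℝ} (hR : Reg1 N r δ) (hG : 20 ≤ Gm N r δ)
    (hη : |η| ≤ 3 / 5 * hst N) (hg0 : 0 ≤ g) (hg : g ≤ 17 / 10) (hq0 : 0 ≤ q) (hq : q ≤ 33 / 20)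
    (ht : |η| + hst N ≤ t) (htp : t ≤ π) (h65 : 6 / 5 ≤ t)
    (hY : 37 / 50 ≤ hst N ^ 2 / RR r δ) :
    UB N r δ η g q (-t) (UsR t) (151 / 500000) (38 / 10000) (6 / 100000) := by
  obtain ⟨hh0, hh1⟩ := u_h hR
  have hRp : 0 < RR r δ := by unfold RR; positivity
  have hY1 : hst N ^ 2 / RR r δ ≤ 11 / 10 := by
    rw [div_le_iff₀ hRp]
    exact hR.I
  have h := restR_3 (q := q) hR.r0 hR.d0 hq0 hq hg0 hg hh0 hh1 hη hG hY1
  exact (u_right hR (hη.trans (by linarith)) (by linarith) hq ht htp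
    (rest_UB1 (mS_rest (-t)) hR (fun s hs => u_35 hR htp h65 (by linarith) s hs) h)).mono subset_rfl
    (by norm_num) (by norm_num) (by norm_num)

/-- RIGHT, window, `20 ≤ Γ`, `h²/R ≥ 37/50` -/
theorem uR_Cw {t : ℝ} (hR : Reg1 N r δ) (hG : 20 ≤ Gm N r δ)
    (hη0 : 2 / 5 * hst N ≤ |η|) (hη : |η| ≤ 3 / 5 * hst N) (hg0 : 0 ≤ g) (hg : g ≤ 17 / 10)
    (hq0 : 0 ≤ q) (hq : q ≤ 33 / 20)
    (ht : |η| + hst N ≤ t) (htp : t ≤ π) (hY : 37 / 50 ≤ hst N ^ 2 / RR r δ) :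
    UB N r δ η g q (-t) (UsR t) (151 / 500000) (38 / 10000) (6 / 100000) := by
  refine uR_C2 hR hG hη hg0 hg hq0 hq ht htp ?_ hY
  obtain ⟨hh0, hh1⟩ := u_h hR
  have hRp : 0 < RR r δ := by unfold RR; positivity
  have hR1 : 1 ≤ RR r δ := by
    unfold RR
    have := sq_nonneg (r * δ)
    linarith
  rw [le_div_iff₀ hRp] at hY
  have h1 : (6 / 7 : ℝ) ≤ hst N := by
    by_contra hcon
    push Not at hcon
    nlinarith
  linarith

end SokalCen
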