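import Pool.Agent.Lib_MP_af4de1_v3.ShfR1
import Pool.Agent.Lib_MP_af4de1_v3.CelRun
import Pool.Agent.Lib_MP_af4de1_v3.CenURealR
import Pool.Agent.Lib_MP_af4de1_v3.LevR
import Pool.Agent.Lib_MP_af4de1_v3.V3e

/-!
# Right side: the fields `a`, `a'`, `b`, `c` from the runs

`RunOK q k g τ0 τ1 G0 Hc b0 bW be f0 f1 f2`: what a run proves for all points of regime I.
`BFrAll`: the bridge of behind and front.
-/

set_option autoImplicit false

namespace SokalCel

open Real MeasureTheory Set SokalCen SokalV3 SokalF1 SokalF1S SokalF1M SokalFN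

/-- the bridge of behind and front -/
def BFrAll : Prop := ∀ r ρ s g q τ Γ μ h : ℝ, Dat r ρ s h τ Γ → 1 ≤ μ → 0 ≤ q →
  BFr r ρ s g q τ Γ μ h

/-- the statement of a run -/
def RunOK (q k g τ0 τ1 G0 Hc b0 bW be f0 f1 f2 : ℝ) : Prop :=
  ∀ (N : ℕ) (r δ η c ν h τ Γ : ℝ), Scl N r δ η c ν h τ Γ → (1 + τ) * h ≤ π → τ0 ≤ τ → τ ≤ τ1 →
    G0 ≤ Γ → (h * c) ^ 2 ≤ Hc →
    RunP (5 / 4) (min q (1 + k * τ * (h * c))) k g c ν h τ Γ (bet ((1 + τ) * h)) b0 bW be f0 f1 f2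

/-- `RunOK` from a run of `CelRun` -/
theorem runOK_of {K : RnD} {q k g τ0 τ1 G0 Hc b0 bW be f0 f1 f2 : ℝ}
    (hP : K.P.Ok (5 / 4) q g k) {wx wy wz n wx' wy' wz' n' y1 z0 z1 : ℕ}
    {lc ln : List ℕ} (hC : ChB (okC K) wx wy wz n 0 y1 z0 z1 0 lc)
    (hN : ChB (okN K) wx' wy' wz' n' 0 y1 z0 z1 0 ln)
    (ec : 7 / 10 ≤ fx (lc.getLastD 0)) (en : 18 / 25 ≤ fx (ln.getLastD 0))
    (ey : 2 * π / 3 ≤ fx y1) (L : K.Le b0 bW be f0 f1 f2) (hG : fx K.G0 ≤ G0) (hH : Hc ≤ fx K.H)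
    (h0 : fx z0 ≤ τ0) (h1 : τ1 ≤ fx z1) : RunOK q k g τ0 τ1 G0 Hc b0 bW be f0 f1 f2 :=
  fun _ _ _ _ _ _ _ _ _ s tp t0 t1 g0 hc =>
    run_sound hP hC hN ec en ey L (s.dmR tp (hc.trans hH) (hG.trans g0)) s.h1 (h0.trans t0)
      (t1.trans h1)

/-- two ranges of `τ` -/
theorem RunOK.glue {q k g τ0 τ1 τ2 G0 Hc b0 bW be f0 f1 f2 : ℝ}
    (h1 : RunOK q k g τ0 τ1 G0 Hc b0 bW be f0 f1 f2)
    (h2 : RunOK q k g τ1 τ2 G0 Hc b0 bW be f0 f1 f2) :
    RunOK q k g τ0 τ2 G0 Hc b0 bW be f0 f1 f2 := by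
  intro N r δ η c ν h τ Γ s tp t0 t1 g0 hc
  rcases le_total τ τ1 with h | h
  · exact h1 N r δ η c ν _ τ Γ s tp t0 h g0 hc
  · exact h2 N r δ η c ν _ τ Γ s tp h t1 g0 hc

/-- ALL FIELDS with `ζ = -h`: one point. -/
theorem shfR_pt {N : ℕ} {r δ y η g k q τ0 τ1 G0 Hc f0 f1 f2 b0 bW be : ℝ} (hB : BFrAll)
    (X : RunOK q k g τ0 τ1 G0 Hc b0 bW be f0 f1 f2) (hR : Reg1 N r δ) (hA : At r δ y η)
    (hη : η ≤ 0) (hp : -π ≤ η - hst N) (hL : Lev r δ y η g k q) (hk : 0 ≤ k) (hq : 0 ≤ q)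
    (h0 : τ0 * hst N ≤ |η|) (h1 : |η| ≤ τ1 * hst N) (hG : G0 ≤ Gm N r δ)
    (hc : hst N ^ 2 / RR r δ ≤ Hc)
    (U : ∀ q', 0 ≤ q' → q' ≤ q → UB N r δ η g q' (-(|η| + hst N)) (UsR (|η| + hst N)) b0 bW be) :
    Shf r δ y (-hst N) (HH N r δ) f0 f1 f2 := by
  have hN : 1 ≤ N := by
    have := hR.N3
    omega
  have hr : 0 < r := by linarith [hR.r0]
  have hδ := hR.d0
  have hh := hst_pos1 hN
  have hRR : 0 < RR r δ := by unfold RR; positivity
  have hs := scl hR η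
  have hte : (1 + |η| / hst N) * hst N = |η| + hst N := by
    field_simp
    ring
  have htp : (1 + |η| / hst N) * hst N ≤ π := by
    rw [hte, abs_of_nonpos hη]
    linarith
  have hcc : (hst N * (1 / √(RR r δ))) ^ 2 = hst N ^ 2 / RR r δ := by
    rw [mul_pow, div_pow, Real.sq_sqrt hRR.le]
    ring
  have R := X N r δ η _ _ _ _ _ hs htp (hs.le_tau h0) (hs.tau_le h1) hG (by rw [hcc]; exact hc)
  have e1 : 1 + k * (|η| / hst N) * (hst N * (1 / √(RR r δ))) = 1 + k * (|η| / √(RR r δ)) := by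
    field_simp
  rw [e1] at R
  have hL' := hL.qmin hr hδ
  have hq' : 0 ≤ min q (1 + k * (|η| / √(RR r δ))) := le_min hq (by positivity)
  have hU := U _ hq' (min_le_left _ _)
  rw [← hte] at hU
  exact shfR_run0 hR hA hη hp hL' hk hq'
    (hB _ _ _ _ _ _ _ _ _ (dat hN hr hδ η) (by norm_num) hq') hU R

private theorem h2_of_G {N : ℕ} {r δ G : ℝ} (hR : Reg1 N r δ) (hG : Gm N r δ ≤ G) :
    hst N ^ 2 / RR r δ ≤ G / (499 / 10) := by
  have hr := hR.r0
  have hRR : 0 < RR r δ := by unfold RR; positivity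
  have h1 : 499 / 10 * (hst N ^ 2 / RR r δ) ≤ Gm N r δ := by
    unfold Gm
    rw [mul_div_assoc]
    exact mul_le_mul_of_nonneg_right hr (by positivity)
  rw [le_div_iff₀ (by norm_num)]
  linarith

/-- field `a` -/
theorem shfR_a_of (hB : BFrAll)
    (X : RunOK (27 / 20) (6 / 5) (6 / 5) 0 (1 / 4) (27 / 5) (100 / 499) (1 / 300000) (1 / 9000)
      (1 / 700000) (1 / 5) (1 / 5) 1) :
    ∀ (N : ℕ) (r δ y η : ℝ), Reg1 N r δ → At r δ y η → Sad1 N r δ y → Gm N r δ < 10 →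
    η ≤ 0 → -ei1 N r δ ≤ η → -Real.pi ≤ η - hst N →
    Shf r δ y (-hst N) (HH N r δ) (1 / 5) (1 / 5) 1 := by
  intro N r δ y η hR hA _ hG hη h1 hp
  have e1 : ei1 N r δ = 1 / 4 * hst N := by
    unfold ei1 om1
    rw [if_pos hG]
    norm_num
  have e2 : eo1 N r δ = 3 / 4 * hst N := by
    unfold eo1 om1
    rw [if_pos hG]
    norm_num
  have hh := hst_pos3 hR.N3
  have ha : |η| = -η := abs_of_nonpos hη
  have hL := levR_A hR hA hη (by rw [e2]; rw [e1] at h1; linarith) hG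
  refine shfR_pt hB X hR hA hη hp hL (by norm_num) (by norm_num) (by rw [ha]; linarith)
    (by rw [ha]; linarith) hR.G ((h2_of_G hR hG.le).trans (by norm_num)) fun q' h2 h3 => ?_
  refine uR_A hR hG.le (by rw [ha]; rw [e1] at h1; linarith) le_rfl h2 (h3.trans (by norm_num))
    le_rfl (by rw [ha]; linarith)

/-- field `b` -/
theorem shfR_b_of (hB : BFrAll)
    (X : RunOK (27 / 20) (6 / 5) (6 / 5) (1 / 4) (3 / 4) (27 / 5) (100 / 499) (1 / 300000)
      (1 / 9000) (1 / 700000) (3 / 50) (7 / 100) (3 / 20)) :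
    ∀ (N : ℕ) (r δ y η : ℝ), Reg1 N r δ → At r δ y η → Sad1 N r δ y → Gm N r δ < 10 →
    η ≤ -ei1 N r δ → -eo1 N r δ ≤ η → -Real.pi ≤ η - hst N →
    Shf r δ y (-hst N) (HH N r δ) (3 / 50) (7 / 100) (3 / 20) := by
  intro N r δ y η hR hA _ hG h1 h2 hp
  have e1 : ei1 N r δ = 1 / 4 * hst N := by
    unfold ei1 om1
    rw [if_pos hG]
    norm_num
  have e2 : eo1 N r δ = 3 / 4 * hst N := by
    unfold eo1 om1
    rw [if_pos hG]
    norm_num
  have hh := hst_pos3 hR.N3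
  have hη : η ≤ 0 := by linarith
  have ha : |η| = -η := abs_of_nonpos hη
  have hL := levR_A hR hA hη h2 hG
  refine shfR_pt hB X hR hA hη hp hL (by norm_num) (by norm_num) (by rw [ha]; linarith)
    (by rw [ha]; linarith) hR.G ((h2_of_G hR hG.le).trans (by norm_num)) fun q' h3 h4 => ?_
  refine uR_A hR hG.le (by rw [ha]; linarith) le_rfl h3 (h4.trans (by norm_num))
    le_rfl (by rw [ha]; linarith)

/-- field `a'` -/
theorem shfR_a'_of (hB : BFrAll)
    (XB : RunOK (71 / 50) (13 / 10) (13 / 10) 0 (7 / 20) 10 (200 / 499) (1 / 250000) (1 / 4700)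
      (1 / 700000) (3 / 50) (3 / 50) 1)
    (XC : RunOK (33 / 20) (17 / 10) (17 / 10) 0 (2 / 5) 20 (11 / 10) (7 / 1000000) (7 / 100000)
      (2 / 1000000) (3 / 50) (3 / 50) 1) :
    ∀ (N : ℕ) (r δ y η : ℝ), Reg1 N r δ → At r δ y η → Sad1 N r δ y → 10 ≤ Gm N r δ →
    η ≤ 0 → -ei1 N r δ ≤ η → -Real.pi ≤ η - hst N →
    Shf r δ y (-hst N) (HH N r δ) (3 / 50) (3 / 50) 1 := by
  intro N r δ y η hR hA _ hG hη h1 hp
  have hh := hst_pos3 hR.N3
  have ha : |η| = -η := abs_of_nonpos hη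
  rcases lt_or_ge (Gm N r δ) 20 with hG2 | hG2
  · have e1 : ei1 N r δ = 7 / 20 * hst N := by
      unfold ei1 om1
      rw [if_neg (not_lt.2 hG), if_pos hG2]
      norm_num
    have e2 : eo1 N r δ = 13 / 20 * hst N := by
      unfold eo1 om1
      rw [if_neg (not_lt.2 hG), if_pos hG2]
      norm_num
    have hL := levR_B hR hA hη (by rw [e2]; rw [e1] at h1; linarith) hG hG2
    refine shfR_pt hB XB hR hA hη hp hL (by norm_num) (by norm_num) (by rw [ha]; linarith)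
      (by rw [ha]; linarith) hG ((h2_of_G hR hG2.le).trans (by norm_num)) fun q' h3 h4 => ?_
    refine uR_B hR hG hG2.le (by rw [ha]; rw [e1] at h1; linarith) le_rfl h3
      (h4.trans (by norm_num)) le_rfl (by rw [ha]; linarith)
  · have e1 : ei1 N r δ = 2 / 5 * hst N := by
      unfold ei1 om1
      rw [if_neg (not_lt.2 hG), if_neg (not_lt.2 hG2)]
      norm_num
    have e2 : eo1 N r δ = 3 / 5 * hst N := by
      unfold eo1 om1
      rw [if_neg (not_lt.2 hG), if_neg (not_lt.2 hG2)]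
      norm_num
    have hRR : 0 < RR r δ := by unfold RR; positivity
    have hY : hst N ^ 2 / RR r δ ≤ 11 / 10 := by
      rw [div_le_iff₀ hRR]
      exact hR.I
    have hL := levR_C hR hA hη (by rw [e2]; rw [e1] at h1; linarith) hG2
    refine shfR_pt hB XC hR hA hη hp hL (by norm_num) (by norm_num) (by rw [ha]; linarith)
      (by rw [ha]; linarith) hG2 hY fun q' h3 h4 => ?_
    refine uR_Ci hR hG2 (by rw [ha]; rw [e1] at h1; linarith) (by norm_num) le_rfl h3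
      h4 le_rfl (by rw [ha]; linarith)

/-- field `c` -/
theorem shfR_c_of (hB : BFrAll)
    (XB : RunOK (71 / 50) (13 / 10) (13 / 10) (7 / 20) (13 / 20) 10 (200 / 499) (1 / 250000)
      (1 / 4700) (1 / 700000) (1 / 100) (1 / 100) (1 / 100))
    (XC1 : RunOK (33 / 20) (17 / 10) (17 / 10) (2 / 5) (3 / 5) 20 (37 / 50) (17 / 100000)
      (32 / 10000) (3 / 100000) (1 / 100) (1 / 100) (1 / 100))
    (XC2 : RunOK (33 / 20) (17 / 10) (17 / 10) (2 / 5) (3 / 5) (18463 / 500) (11 / 10)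
      (151 / 500000) (38 / 10000) (6 / 100000) (1 / 100) (1 / 100) (1 / 100)) :
    ∀ (N : ℕ) (r δ y η : ℝ), Reg1 N r δ → At r δ y η → Sad1 N r δ y → 10 ≤ Gm N r δ →
    η ≤ -ei1 N r δ → -eo1 N r δ ≤ η → -Real.pi ≤ η - hst N →
    Shf r δ y (-hst N) (HH N r δ) (1 / 100) (1 / 100) (1 / 100) := by
  intro N r δ y η hR hA _ hG h1 h2 hp
  have hh := hst_pos3 hR.N3
  rcases lt_or_ge (Gm N r δ) 20 with hG2 | hG2
  · have e1 : ei1 N r δ = 7 / 20 * hst N := by
      unfold ei1 om1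
      rw [if_neg (not_lt.2 hG), if_pos hG2]
      norm_num
    have e2 : eo1 N r δ = 13 / 20 * hst N := by
      unfold eo1 om1
      rw [if_neg (not_lt.2 hG), if_pos hG2]
      norm_num
    have hη : η ≤ 0 := by linarith
    have ha : |η| = -η := abs_of_nonpos hη
    have hL := levR_B hR hA hη h2 hG hG2
    refine shfR_pt hB XB hR hA hη hp hL (by norm_num) (by norm_num) (by rw [ha]; linarith)
      (by rw [ha]; linarith) hG ((h2_of_G hR hG2.le).trans (by norm_num)) fun q' h3 h4 => ?_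
    refine uR_B hR hG hG2.le (by rw [ha]; linarith) le_rfl h3
      (h4.trans (by norm_num)) le_rfl (by rw [ha]; linarith)
  · have e1 : ei1 N r δ = 2 / 5 * hst N := by
      unfold ei1 om1
      rw [if_neg (not_lt.2 hG), if_neg (not_lt.2 hG2)]
      norm_num
    have e2 : eo1 N r δ = 3 / 5 * hst N := by
      unfold eo1 om1
      rw [if_neg (not_lt.2 hG), if_neg (not_lt.2 hG2)]
      norm_num
    have hη : η ≤ 0 := by linarith
    have ha : |η| = -η := abs_of_nonpos hη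
    have hRR : 0 < RR r δ := by unfold RR; positivity
    have hY : hst N ^ 2 / RR r δ ≤ 11 / 10 := by
      rw [div_le_iff₀ hRR]
      exact hR.I
    have hL := levR_C hR hA hη h2 hG2
    rcases le_total (hst N ^ 2 / RR r δ) (37 / 50) with hY2 | hY2
    · refine shfR_pt hB XC1 hR hA hη hp hL (by norm_num) (by norm_num) (by rw [ha]; linarith)
        (by rw [ha]; linarith) hG2 hY2 fun q' h3 h4 => ?_
      exact uR_C1 hR hG2 (by rw [ha]; linarith) (by norm_num) le_rfl h3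
        h4 le_rfl (by rw [ha]; linarith) hY2
    · have hG3 : 18463 / 500 ≤ Gm N r δ := by
        have h3 : 499 / 10 * (hst N ^ 2 / RR r δ) ≤ Gm N r δ := by
          unfold Gm
          rw [mul_div_assoc]
          exact mul_le_mul_of_nonneg_right hR.r0 (by positivity)
        linarith
      refine shfR_pt hB XC2 hR hA hη hp hL (by norm_num) (by norm_num) (by rw [ha]; linarith)
        (by rw [ha]; linarith) hG3 hY fun q' h3 h4 => ?_
      exact uR_Cw hR hG2 (by rw [ha]; linarith) (by rw [ha]; linarith) (by norm_num) le_rfl h3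
        h4 le_rfl (by rw [ha]; linarith) hY2

end SokalCel
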