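import Pool.Agent.Lib_MP_af4de1_v3.CelTree
import Pool.Agent.Lib_MP_af4de1_v3.ShfR2

/-!
# Cells, right side: runs along trees (`CelRun` with `bisT`) (helper4)
-/

set_option autoImplicit false

namespace SokalCel

open SokalFN SokalV3

/-- **The run along trees.** Chart `c` up to `7/10`, chart `ν` up to `18/25`. -/
theorem runT_sound {K : RnD} {μ q g kk : ℝ} (hP : K.P.Ok μ q g kk) {xc xn y1 z0 z1 : ℕ}
    {tc tn : BT} (hC : bisT (okC K) tc 0 xc 0 y1 z0 z1 = true)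
    (hN : bisT (okN K) tn 0 xn 0 y1 z0 z1 = true)
    (ec : 7 / 10 ≤ fx xc) (en : 18 / 25 ≤ fx xn) (ey : 2 * Real.pi / 3 ≤ fx y1)
    {b0 bW be f0 f1 f2 : ℝ} (L : K.Le b0 bW be f0 f1 f2)
    {c ν h τ Γ : ℝ} (D : DmR K c ν h τ Γ) (hh : h ≤ 2 * Real.pi / 3) (h0 : fx z0 ≤ τ) (h1 : τ ≤ fx z1) :
    RunP μ (min q (1 + kk * τ * (h * c))) kk g c ν h τ Γ (SokalCen.bet ((1 + τ) * h)) b0 bW be f0 f1 f2 := by
  have hh0 : fx 0 ≤ h := by rw [fx_zero]; exact D.h0.le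
  rcases chart D.cn with h2 | h2
  · have key := bisT_sound (P := fun c h τ => ∀ ν Γ : ℝ, DmR K c ν h τ Γ →
      RunP μ (min q (1 + kk * τ * (h * c))) kk g c ν h τ Γ (SokalCen.bet ((1 + τ) * h)) b0 bW be f0 f1 f2)
      (fun x0 x1 y0 y1 z0 z1 hx x y z a1 a2 a3 a4 a5 a6 ν Γ D =>
        celR_sound hP L D ⟨a1, a2⟩ (Mem.co ⟨a1, a2⟩ D.cn D.n0.le) ⟨a3, a4⟩ ⟨a5, a6⟩ hx)
      tc _ _ _ _ _ _ hC
    exact key c h τ (by rw [fx_zero]; exact D.c0.le) (h2.trans ec) hh0 (hh.trans ey) h0 h1 ν Γ D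
  · have key := bisT_sound (P := fun ν h τ => ∀ c Γ : ℝ, DmR K c ν h τ Γ →
      RunP μ (min q (1 + kk * τ * (h * c))) kk g c ν h τ Γ (SokalCen.bet ((1 + τ) * h)) b0 bW be f0 f1 f2)
      (fun x0 x1 y0 y1 z0 z1 hx x y z a1 a2 a3 a4 a5 a6 c Γ D =>
        celR_sound hP L D (Mem.co ⟨a1, a2⟩ (by linarith [D.cn]) D.c0.le) ⟨a1, a2⟩ ⟨a3, a4⟩ ⟨a5, a6⟩ hx)
      tn _ _ _ _ _ _ hN
    exact key ν h τ (by rw [fx_zero]; exact D.n0.le) (h2.trans en) hh0 (hh.trans ey) h0 h1 c Γ D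

/-- `RunOK` from a run along trees -/
theorem runOK_ofT {K : RnD} {q k g τ0 τ1 G0 Hc b0 bW be f0 f1 f2 : ℝ}
    (hP : K.P.Ok (5 / 4) q g k) {xc xn y1 z0 z1 : ℕ} {tc tn : BT}
    (hC : bisT (okC K) tc 0 xc 0 y1 z0 z1 = true) (hN : bisT (okN K) tn 0 xn 0 y1 z0 z1 = true)
    (ec : 7 / 10 ≤ fx xc) (en : 18 / 25 ≤ fx xn) (ey : 2 * Real.pi / 3 ≤ fx y1)
    (L : K.Le b0 bW be f0 f1 f2) (hG : fx K.G0 ≤ G0) (hH : Hc ≤ fx K.H)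
    (h0 : fx z0 ≤ τ0) (h1 : τ1 ≤ fx z1) : RunOK q k g τ0 τ1 G0 Hc b0 bW be f0 f1 f2 :=
  fun _ _ _ _ _ _ _ _ _ s tp t0 t1 g0 hc =>
    runT_sound hP hC hN ec en ey L (s.dmR tp (hc.trans hH) (hG.trans g0)) s.h1 (h0.trans t0)
      (t1.trans h1)

end SokalCel
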