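import Pool.Agent.Lib_MP_af4de1_v3.CenDef

/-!
# CEN: the representation on the centre path with an arbitrary slope `m > 0`
-/

set_option autoImplicit false

open Complex MeasureTheory Filter Topology SokalU SokalPG SokalFA

namespace SokalCen

/-- the multiplier `r e^(a + i(θ+s))` -/
noncomputable def km (r m θ s : ℝ) : ℂ := r * cexp (pm m s + (θ + s) * I)

theorem pc_eq_pm {m : ℝ} (hm : 0 < m) (s : ℝ) : pc (1 / m) m s = pm m s := by
  unfold pc pm
  have : 1 / m * m = 1 := by field_simp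
  rw [this]
  congr 2
  ring

theorem pm_mem (m s : ℝ) : |pm m s| ≤ 1 := by
  unfold pm
  rw [abs_le]
  exact ⟨le_max_left _ _, max_le (by norm_num) (min_le_left _ _)⟩

@[fun_prop]
theorem continuous_pm (m : ℝ) : Continuous (pm m) := by
  unfold pm
  fun_prop

theorem pm_mid {m s : ℝ} (hm : 0 < m) (h1 : -m ≤ s) (h2 : s ≤ m) : pm m s = s / m := by
  unfold pm
  have h3 : s / m ≤ 1 := by rwa [div_le_one hm]
  have h4 : -1 ≤ s / m := by rw [le_div_iff₀ hm]; linarith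
  rw [min_eq_right h3, max_eq_right h4]

theorem pm_right {m s : ℝ} (hm : 0 < m) (h2 : m ≤ s) : pm m s = 1 := by
  unfold pm
  have h3 : 1 ≤ s / m := by rwa [le_div_iff₀ hm, one_mul]
  rw [min_eq_left h3]
  norm_num

theorem pm_left {m s : ℝ} (hm : 0 < m) (h2 : s ≤ -m) : pm m s = -1 := by
  unfold pm
  have h3 : s / m ≤ -1 := by rw [div_le_iff₀ hm]; linarith
  rw [min_eq_right (by linarith), max_eq_left h3]

theorem norm_pv {m : ℝ} (hm : 0 < m) (s : ℝ) : ‖pv (1 / m) m s‖ ≤ √(1 + 1 / m ^ 2) := by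
  unfold pv
  split_ifs
  · have h1 : 1 / m ^ 2 = (1 / m) ^ 2 := by rw [div_pow]; norm_num
    rw [h1]
    generalize 1 / m = x
    rw [Complex.norm_def]
    apply Real.sqrt_le_sqrt
    rw [Complex.normSq_apply]
    simp only [Complex.sub_re, Complex.one_re, Complex.mul_re, Complex.ofReal_re,
      Complex.I_re, Complex.ofReal_im, Complex.I_im, Complex.sub_im, Complex.one_im,
      Complex.mul_im]
    apply le_of_eq
    ring
  · rw [norm_one, Real.one_le_sqrt]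
    have : (0 : ℝ) ≤ 1 / m ^ 2 := by positivity
    linarith

/-- The modulus of `f` on the path. -/
theorem norm_f_path {r ρ : ℝ} (hr : 0 < r) (hρ : 0 < ρ) (m θ s : ℝ) :
    ‖f (-(((ρ / r : ℝ) : ℂ) * I)) r (θ * I) (pm m s + s * I)‖ = Real.exp (-(r * Dm m ρ θ s)) := by
  set a := pm m s with hadef
  have hδ : 0 < ρ / r := by positivity
  have ht := t0_inv hδ
  unfold f
  rw [Complex.norm_exp]
  congr 1
  have h1 : ((a : ℂ) + s * I) ^ 2 / (2 * (-(((ρ / r : ℝ) : ℂ) * I))) =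
      ((-(a * s * (r / ρ)) : ℝ) : ℂ) +
      (((a ^ 2 - s ^ 2) * (r / ρ) / 2 : ℝ) : ℂ) * I := by
    have h2 : ((a : ℂ) + s * I) ^ 2 / (2 * (-(((ρ / r : ℝ) : ℂ) * I))) =
        ((a : ℂ) + s * I) ^ 2 * (-(((ρ / r : ℝ) : ℂ) * I))⁻¹ / 2 := by
      rw [mul_comm (2 : ℂ) _, ← div_div, div_eq_mul_inv _ (-(((ρ / r : ℝ) : ℂ) * I))]
    have h4 : (1 / (ρ / r) : ℝ) = r / ρ := by field_simp
    rw [h2, ht, h4]
    have h3 := Complex.I_sq
    push_cast
    linear_combination (((s : ℂ) ^ 2 * ((r / ρ) * I)) / 2 + (a : ℂ) * s * (r / ρ)) * h3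
  have h4 : ((r : ℂ) * (cexp (θ * I + (a + s * I)) - 1 - (a + s * I))).re =
      r * (Real.exp a * Real.cos (θ + s) - 1 - a) := by
    have h5 : (θ : ℂ) * I + (a + s * I) = (a : ℂ) + ((θ + s : ℝ) : ℂ) * I := by
      push_cast; ring
    rw [h5, Complex.re_ofReal_mul]
    congr 1
    simp only [Complex.sub_re, Complex.add_re, Complex.one_re, Complex.ofReal_re,
      Complex.mul_re, Complex.I_re, Complex.I_im, Complex.ofReal_im]
    rw [Complex.exp_re]
    simp only [Complex.add_re, Complex.add_im, Complex.mul_re, Complex.mul_im, Complex.ofReal_re,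
      Complex.ofReal_im, Complex.I_re, Complex.I_im]
    ring_nf
  have h8 : ∀ u v : ℝ, ((u : ℂ) + (v : ℂ) * I).re = u := fun u v => by simp
  rw [Complex.add_re, h4, h1, h8]
  unfold Dm
  rw [← hadef]
  field_simp
  ring

theorem km_eq (r m θ s : ℝ) : (r : ℂ) * cexp (θ * I + (pm m s + s * I)) = km r m θ s := by
  unfold km
  congr 2
  ring

theorem norm_km {r : ℝ} (hr : 0 < r) (m θ s : ℝ) : ‖km r m θ s‖ = r * Real.exp (pm m s) := by
  unfold km
  rw [norm_mul, Complex.norm_real, Real.norm_of_nonneg hr.le, Complex.norm_exp]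
  simp

/-- THE ABSOLUTE BOUND. -/
theorem abs_cen {r ρ m : ℝ} (hr : 0 < r) (hρ : 0 < ρ) (hm : 0 < m) (θ : ℝ) (c0 c1 c2 : ℂ) :
    ENNReal.ofReal ‖c0 * Ef 0 (-(((ρ / r : ℝ) : ℂ) * I)) (SokalFA.wp r ρ θ) +
      c1 * Ef 1 (-(((ρ / r : ℝ) : ℂ) * I)) (SokalFA.wp r ρ θ) +
      c2 * Ef 2 (-(((ρ / r : ℝ) : ℂ) * I)) (SokalFA.wp r ρ θ)‖ ≤
    ENNReal.ofReal (√(r / (2 * Real.pi * ρ)) * Real.exp r) *
      ∫⁻ s : ℝ, ENNReal.ofReal (√(1 + 1 / m ^ 2) *
        ‖c0 + c1 * km r m θ s + c2 * km r m θ s ^ 2‖ * Real.exp (-(r * Dm m ρ θ s))) := by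
  have hδ : 0 < ρ / r := by positivity
  set t : ℂ := -(((ρ / r : ℝ) : ℂ) * I) with ht
  set c : ℝ := 1 / m with hc
  have hcpos : 0 < c := by positivity
  have hcs1 : c * m = 1 := by rw [hc]; field_simp
  have hcs : c * m ≤ 1 := hcs1.le
  have hk : |((r : ℂ)).im| < c * m / (ρ / r) := by
    rw [Complex.ofReal_im, abs_zero, hcs1]; positivity
  have key : ∀ j : ℕ, gcst t⁻¹ * Ef j t (SokalFA.wp r ρ θ) = cexp (S t r) *
      ∫ s : ℝ, gi c m (fun h => ((r : ℂ) * cexp (θ * I + h)) ^ j) r (θ * I) t s := by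
    intro j
    have h := path_formula hcpos hm hcs hδ (r : ℂ) (θ * I) hk j
    rw [← ht, zp_wp hr] at h
    exact h
  have hint : ∀ j : ℕ, Integrable (gi c m (fun h => ((r : ℂ) * cexp (θ * I + h)) ^ j) r (θ * I) t) :=
    fun j => integrable_path hcpos hm hcs hδ (r : ℂ) (θ * I) hk (Wt_pow (r : ℂ) (θ * I) j)
  have hsum : gcst t⁻¹ * (c0 * Ef 0 t (SokalFA.wp r ρ θ) + c1 * Ef 1 t (SokalFA.wp r ρ θ) +
      c2 * Ef 2 t (SokalFA.wp r ρ θ)) = cexp (S t r) * ∫ s : ℝ,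
      (c0 * gi c m (fun h => ((r : ℂ) * cexp (θ * I + h)) ^ 0) r (θ * I) t s +
      c1 * gi c m (fun h => ((r : ℂ) * cexp (θ * I + h)) ^ 1) r (θ * I) t s +
      c2 * gi c m (fun h => ((r : ℂ) * cexp (θ * I + h)) ^ 2) r (θ * I) t s) := by
    have hA : Integrable fun s =>
        c0 * gi c m (fun h => ((r : ℂ) * cexp (θ * I + h)) ^ 0) r (θ * I) t s +
        c1 * gi c m (fun h => ((r : ℂ) * cexp (θ * I + h)) ^ 1) r (θ * I) t s :=
      ((hint 0).const_mul c0).add ((hint 1).const_mul c1)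
    rw [integral_add hA ((hint 2).const_mul c2),
      integral_add ((hint 0).const_mul c0) ((hint 1).const_mul c1),
      integral_const_mul, integral_const_mul, integral_const_mul]
    linear_combination c0 * key 0 + c1 * key 1 + c2 * key 2
  have hpt : ∀ s : ℝ, ‖c0 * gi c m (fun h => ((r : ℂ) * cexp (θ * I + h)) ^ 0) r (θ * I) t s +
      c1 * gi c m (fun h => ((r : ℂ) * cexp (θ * I + h)) ^ 1) r (θ * I) t s +
      c2 * gi c m (fun h => ((r : ℂ) * cexp (θ * I + h)) ^ 2) r (θ * I) t s‖ ≤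
      √(1 + 1 / m ^ 2) *
        ‖c0 + c1 * km r m θ s + c2 * km r m θ s ^ 2‖ * Real.exp (-(r * Dm m ρ θ s)) := by
    intro s
    have hpz : pz c m s = (pm m s : ℂ) + s * I := by
      unfold pz
      rw [hc, pc_eq_pm hm]
    have e1 : c0 * gi c m (fun h => ((r : ℂ) * cexp (θ * I + h)) ^ 0) r (θ * I) t s +
      c1 * gi c m (fun h => ((r : ℂ) * cexp (θ * I + h)) ^ 1) r (θ * I) t s +
      c2 * gi c m (fun h => ((r : ℂ) * cexp (θ * I + h)) ^ 2) r (θ * I) t s =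
      pv c m s * (c0 + c1 * km r m θ s + c2 * km r m θ s ^ 2) *
        f t r (θ * I) (pm m s + s * I) := by
      simp only [gi, hpz, km_eq]
      ring
    rw [e1, norm_mul, norm_mul, ht, norm_f_path hr hρ]
    have h1 := norm_pv hm s
    gcongr
  have hG : ‖gcst t⁻¹‖ = √(2 * Real.pi * (ρ / r)) := norm_gcst r ρ hr hρ
  have hSn : ‖cexp (S t r)‖ = Real.exp r := norm_cexp_S r ρ
  have hmain : ENNReal.ofReal (√(2 * Real.pi * (ρ / r))) *
      ENNReal.ofReal ‖c0 * Ef 0 t (SokalFA.wp r ρ θ) + c1 * Ef 1 t (SokalFA.wp r ρ θ) +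
      c2 * Ef 2 t (SokalFA.wp r ρ θ)‖ ≤ ENNReal.ofReal (Real.exp r) *
      ∫⁻ s : ℝ, ENNReal.ofReal (√(1 + 1 / m ^ 2) *
        ‖c0 + c1 * km r m θ s + c2 * km r m θ s ^ 2‖ * Real.exp (-(r * Dm m ρ θ s))) := by
    rw [← ENNReal.ofReal_mul (Real.sqrt_nonneg _), ← hG, ← norm_mul, hsum, norm_mul, hSn,
      ENNReal.ofReal_mul (Real.exp_pos _).le]
    refine mul_le_mul_right ?_ _
    refine (ofReal_integral_norm_le_lintegral_aux _ _ ?_)
    exact hpt
  have hc2 : √(r / (2 * Real.pi * ρ)) * √(2 * Real.pi * (ρ / r)) = 1 := by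
    rw [← Real.sqrt_mul (by positivity)]
    have : r / (2 * Real.pi * ρ) * (2 * Real.pi * (ρ / r)) = 1 := by
      have := Real.pi_pos
      field_simp
    rw [this, Real.sqrt_one]
  calc ENNReal.ofReal ‖c0 * Ef 0 t (SokalFA.wp r ρ θ) + c1 * Ef 1 t (SokalFA.wp r ρ θ) +
      c2 * Ef 2 t (SokalFA.wp r ρ θ)‖ = ENNReal.ofReal (√(r / (2 * Real.pi * ρ))) *
        (ENNReal.ofReal (√(2 * Real.pi * (ρ / r))) *
      ENNReal.ofReal ‖c0 * Ef 0 t (SokalFA.wp r ρ θ) + c1 * Ef 1 t (SokalFA.wp r ρ θ) +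
      c2 * Ef 2 t (SokalFA.wp r ρ θ)‖) := by
        rw [← mul_assoc, ← ENNReal.ofReal_mul (Real.sqrt_nonneg _), hc2, ENNReal.ofReal_one, one_mul]
    _ ≤ _ := by
        rw [ENNReal.ofReal_mul (Real.sqrt_nonneg _),
          mul_assoc (ENNReal.ofReal √(r / (2 * Real.pi * ρ)))]
        exact mul_le_mul_right hmain _

/-- Absolute bound of one wave, general slope `m`. -/
theorem wave_cen {r del m : ℝ} (hr : 0 < r) (hd : 0 < del) (hm : 0 < m) (θ : ℝ) (c0 c1 c2 : ℂ) :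
    ENNReal.ofReal ‖c0 * E (SokalF1.tt del) (SokalF1.wp r del θ) +
      c1 * DE (SokalF1.tt del) (SokalF1.wp r del θ) +
      c2 * SokalBPlus.D2E (SokalF1.tt del) (SokalF1.wp r del θ)‖ ≤
    ENNReal.ofReal (√(r / (2 * Real.pi * (r * del))) * Real.exp r) *
      ∫⁻ s : ℝ, ENNReal.ofReal (√(1 + 1 / m ^ 2) *
        ‖c0 + c1 * km r m θ s + c2 * (km r m θ s ^ 2 + km r m θ s)‖ *
          Real.exp (-(r * Dm m (r * del) θ s))) := by
  have h := abs_cen hr (mul_pos hr hd) hm θ c0 (c1 + c2) c2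
  rw [← SokalFA.tt_eq hr, ← SokalFA.wp_eq hr] at h
  have e1 : c0 * E (SokalF1.tt del) (SokalF1.wp r del θ) +
      c1 * DE (SokalF1.tt del) (SokalF1.wp r del θ) +
      c2 * SokalBPlus.D2E (SokalF1.tt del) (SokalF1.wp r del θ) =
      c0 * Ef 0 (SokalF1.tt del) (SokalF1.wp r del θ) +
      (c1 + c2) * Ef 1 (SokalF1.tt del) (SokalF1.wp r del θ) +
      c2 * Ef 2 (SokalF1.tt del) (SokalF1.wp r del θ) := by
    rw [SokalFA.D2E_eq, Ef_zero, Ef_one]
    ring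
  rw [e1]
  refine h.trans (le_of_eq ?_)
  congr 1
  refine lintegral_congr fun s => ?_
  congr 3
  ring_nf

end SokalCen
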