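import Pool.Agent.Lib_MP_af4de1_v3.CenZ
import Pool.Agent.Lib_MP_af4de1_fa.FrD

/-! # CEN: the zones cover the line.  `1 - cos u ≥ 1 - cos (6/5) ≥ 6336/10000` for `6/5 ≤ |u| ≤ 2π - 6/5`
(`SokalFA.cos_split_large`), `2π - 6/5 > 5`. -/

set_option autoImplicit false

namespace SokalCen

open Real MeasureTheory Set

/-- `6/5 ≤ u ≤ 2π - 6/5` -/
theorem cos_rest {u : ℝ} (h1 : 6 / 5 ≤ u) (h2 : u ≤ 2 * π - 6 / 5) :
    6336 / 10000 ≤ 1 - cos u := by
  rcases le_total u π with h | h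
  · exact SokalFA.cos_split_large h1 h
  · have h3 := SokalFA.cos_split_large (u := 2 * π - u) (by linarith) (by linarith)
    rwa [Real.cos_two_pi_sub] at h3

theorem cover_L {t : ℝ} (h0 : 0 < t) (h1 : t ≤ π) (s : ℝ) :
    s ∈ Icc (-t) (min 0 (6 / 5 - t)) ∨ s ∈ Icc (-(t + 6 / 5)) (-t) ∨ s ∈ Icc 0 (6 / 5 - t) ∨
      s ∈ Icc (max 0 (2 * π - t - 6 / 5)) (2 * π - t) ∨ s ∈ Icc (2 * π - t) (2 * π - t + 6 / 5) ∨
      s ∈ Ici (2 * π - t + 5) ∨ s ∈ Iic (-(t + 5)) ∨ 6336 / 10000 ≤ 1 - cos (t + s) := by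
  have hp := pi_gt_d
  simp only [mem_Icc, mem_Ici, mem_Iic, le_min_iff, max_le_iff]
  by_contra hc
  push Not at hc
  obtain ⟨a1, a2, a3, a4, a5, a6, a7, a8⟩ := hc
  rcases lt_or_ge (t + s) (-(6 / 5)) with h | h
  · have h3 := cos_rest (u := -(t + s)) (by linarith) (by linarith)
    rw [Real.cos_neg] at h3
    linarith
  rcases le_or_gt (t + s) 0 with h2 | h2
  · have := a2 (by linarith)
    linarith
  rcases le_or_gt (t + s) (6 / 5) with h3 | h3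
  · rcases le_total s 0 with h4 | h4
    · have := a1 (by linarith) h4
      linarith
    · have := a3 h4
      linarith
  rcases lt_or_ge (t + s) (2 * π - 6 / 5) with h4 | h4
  · have := cos_rest h3.le h4.le
    linarith
  rcases le_or_gt (t + s) (2 * π) with h5 | h5
  · have := a4 ⟨by linarith, by linarith⟩
    linarith
  rcases le_or_gt (t + s) (2 * π + 6 / 5) with h6 | h6
  · have := a5 (by linarith)
    linarith
  have h7 := cos_rest (u := t + s - 2 * π) (by linarith) (by linarith)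
  rw [Real.cos_sub_two_pi] at h7
  linarith

theorem cover_R {t : ℝ} (h0 : 0 < t) (h1 : t ≤ π) (s : ℝ) :
    s ∈ Icc (max 0 (t - 6 / 5)) t ∨ s ∈ Icc t (t + 6 / 5) ∨ s ∈ Icc (-(6 / 5 - t)) 0 ∨
      s ∈ Icc (-(2 * π - t)) (min 0 (6 / 5 - (2 * π - t))) ∨
      s ∈ Icc (-(2 * π - t + 6 / 5)) (-(2 * π - t)) ∨
      s ∈ Ici (t + 5) ∨ s ∈ Iic (-(2 * π - t + 5)) ∨ 6336 / 10000 ≤ 1 - cos (-t + s) := by
  have h := cover_L h0 h1 (-s)
  simp only [mem_Icc, mem_Ici, mem_Iic, le_min_iff, max_le_iff] at h ⊢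
  have e : cos (t + -s) = cos (-t + s) := by
    rw [← Real.cos_neg (-t + s)]
    congr 1
    ring
  rw [e] at h
  rcases h with ⟨p1, p2, p3⟩ | ⟨p1, p2⟩ | ⟨p1, p2⟩ | ⟨⟨p1, p2⟩, p3⟩ | ⟨p1, p2⟩ | p | p | p
  · exact Or.inl ⟨⟨by linarith, by linarith⟩, by linarith⟩
  · exact Or.inr (Or.inl ⟨by linarith, by linarith⟩)
  · exact Or.inr (Or.inr (Or.inl ⟨by linarith, by linarith⟩))
  · exact Or.inr (Or.inr (Or.inr (Or.inl ⟨by linarith, by linarith, by linarith⟩)))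
  · exact Or.inr (Or.inr (Or.inr (Or.inr (Or.inl ⟨by linarith, by linarith⟩))))
  · exact Or.inr (Or.inr (Or.inr (Or.inr (Or.inr (Or.inr (Or.inl (by linarith)))))))
  · exact Or.inr (Or.inr (Or.inr (Or.inr (Or.inr (Or.inl (by linarith))))))
  · exact Or.inr (Or.inr (Or.inr (Or.inr (Or.inr (Or.inr (Or.inr p))))))

end SokalCen
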