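import Pool.Agent.Lib_MP_af4de1_v3.CenZ
import Pool.Agent.Lib_MP_af4de1_v3.CenZ1

/-! # CEN: the hypotheses `Win`, `Lft` and the change of the direction `w` -/

set_option autoImplicit false

namespace SokalCen

open Real MeasureTheory Set

/-- `(1 - cos u)/u²` decreases on `(0, π]`. -/
theorem win_small {t : ℝ} (h0 : 0 < t) (h1 : t ≤ 6 / 5) : Win ((1 - cos t) / t ^ 2) t :=
  win_t h0 (by linarith [pi_gt_three])

theorem win_any (t : ℝ) : Win (11 / 25) t := win_all t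

/-- `e^(-v/m) (t-v)² ≥ e^(-σt/m) ((t-v)² - (4/27) (1-σ)³ t³/m)`: `e^(-(v-σt)/m) ≥ 1 - (v-σt)/m`, and
`x (L-x)² ≤ (4/27) L³` for `0 ≤ x ≤ L = (1-σ) t`. -/
theorem lft_small {m t β σ : ℝ} (hm : 0 < m) (ht : 0 < t) (_htm : t ≤ m) (hβ : 0 < β) (h0 : 0 ≤ σ)
    (h1 : σ ≤ 1) : Lft m t β (β * exp (-(σ * t / m)))
      (β * exp (-(σ * t / m)) * (4 / 27 * ((1 - σ) ^ 3 * t ^ 3 / m))) := by
  have h := lft_sigma hm ht.le hβ h0 h1
  have e1 : σ * (t / m) = σ * t / m := by ring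
  rw [e1] at h
  have e2 : 4 / 27 * (1 - σ) ^ 3 * (t / m) * (β * exp (-(σ * t / m))) * t ^ 2 =
      β * exp (-(σ * t / m)) * (4 / 27 * ((1 - σ) ^ 3 * t ^ 3 / m)) := by ring
  rwa [e2] at h

theorem lft_any {m t β : ℝ} (_hm : 0 < m) (_ht : 0 < t) (hβ : 0 < β) :
    Lft m t β (β * exp (-1)) 0 := by
  refine ⟨by positivity, le_rfl, fun v _ _ => ?_⟩
  have h1 : exp (-1) ≤ exp (pm m (-v)) := by
    refine exp_le_exp.2 ?_
    unfold pm
    exact le_max_left _ _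
  have h2 := mul_le_mul_of_nonneg_right h1 (by positivity : 0 ≤ β * (t - v) ^ 2)
  linarith

theorem ww_zero : ww 0 0 = 1 := by
  unfold ww
  simp

/-- change of the direction: `|em - w|² ≤ (5/4)|em - 1|² + 5|w - 1|²` -/
theorem zone_conv {q m ρ θ k : ℝ} {w : ℂ} {S : Set ℝ} {I0 IW Ie : ℝ} (h0 : 0 ≤ I0) (hW : 0 ≤ IW)
    (h : Zone q m ρ θ (ww 0 0) S I0 IW Ie) (hk : ‖w - 1‖ ≤ k) :
    Zone q m ρ θ w S I0 (5 / 4 * IW + 5 * k ^ 2 * I0) Ie := by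
  rw [ww_zero] at h
  refine (h.tri h0 hW hk).mono le_rfl ?_ le_rfl
  have e1 := Real.sq_sqrt h0
  have e2 := Real.sq_sqrt hW
  nlinarith [sq_nonneg (√IW / 2 - 2 * (k * √I0))]

end SokalCen
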