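import Pool.Agent.Lib_MP_af4de1_v3.ShfW
import Pool.Agent.Lib_MP_af4de1_v3.CenFar

/-!
# CEN: the real inequalities of the far zones, all fields of regime I, both sides

`A = AL m ρ c` or `AR m ρ c`, `c ≥ 5 + |η| + h`, `|η| ≤ (3/4) h`, `g ≤ 9/5`, `q ≤ 33/20`:
`1 ≤ r A c`, `PF · 22 E/√r ≤ 1/1000000`, `PF · (24 (c/m)²/√r + 54/(r√r)) E · R/h² ≤ 1/200000`, `E = exp (-(r (A c²)))`.
`far_real` (raw), `far_realR`, `far_realL` (forms of `CenFar`), `far_ex` (both rays as one zone, any angle).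
-/

set_option autoImplicit false

namespace SokalCen

open Real SokalV3 SokalF1

/-- clipped square -/
private theorem fa_clip {m c : ℝ} (hm : 0 < m) (hc : 0 < c) :
    min 1 (m / c) * (c / m) ^ 2 = min ((c / m) ^ 2) (c / m) := by
  rcases le_total c m with h | h
  · have h1 : 1 ≤ m / c := by rwa [one_le_div hc]
    have h2 : c / m ≤ 1 := by rwa [div_le_one hm]
    have h3 : 0 ≤ c / m := by positivity
    rw [min_eq_left h1, min_eq_left (by nlinarith), one_mul]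
  · have h1 : m / c ≤ 1 := by rwa [div_le_one hc]
    have h2 : 1 ≤ c / m := by rwa [one_le_div hm]
    rw [min_eq_right h1, min_eq_right (by nlinarith)]
    field_simp

private theorem fa_AL {m ρ c : ℝ} (hρ : 0 < ρ) (hm : 5 / 4 * ρ ≤ m) (hc : 0 < c) :
    17 / 40 * (m / ρ) * min ((c / m) ^ 2) (c / m) ≤ AL m ρ c * c ^ 2 := by
  have hm0 : 0 < m := by linarith
  have hU : 5 / 4 ≤ m / ρ := by
    rw [le_div_iff₀ hρ]
    linarith
  have e : AL m ρ c * c ^ 2 = (m / ρ - 1 / 2) * (min 1 (m / c) * (c / m) ^ 2) := by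
    unfold AL aL
    field_simp
  rw [e, fa_clip hm0 hc]
  refine mul_le_mul_of_nonneg_right (by linarith) ?_
  exact le_min (by positivity) (by positivity)

private theorem fa_AR {m ρ c : ℝ} (hρ : 0 < ρ) (hm : 5 / 4 * ρ ≤ m) (hc : 0 < c) :
    17 / 40 * (m / ρ) * min ((c / m) ^ 2) (c / m) ≤ AR m ρ c * c ^ 2 := by
  have hm0 : 0 < m := by linarith
  have hU : 5 / 4 ≤ m / ρ := by
    rw [le_div_iff₀ hρ]
    linarith
  have hT0 := cT_nonneg hm0 hc.le
  have hT1 := cT_le m c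
  have e : AR m ρ c * c ^ 2 = (m / ρ - (1 + cT m c / 3 + 5 * cT m c ^ 2 / 48) / 2) *
      (min 1 (m / c) * (c / m) ^ 2) := by
    unfold AR aR
    field_simp
  rw [e, fa_clip hm0 hc]
  refine mul_le_mul_of_nonneg_right ?_ (le_min (by positivity) (by positivity))
  nlinarith

/-- facts on the exponents -/
private theorem fa_core {r U x Γ τ X G : ℝ} (hr : 499 / 10 ≤ r) (hU : 5 / 4 ≤ U) (hx : 0 < x)
    (hΓ : 27 / 5 ≤ Γ) (h0 : 0 ≤ τ) (h1 : τ ≤ 3 / 4)
    (hA : 16 / 25 * Γ * (169 / 50 + τ) ^ 2 ≤ r * x ^ 2)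
    (hB : 16 / 25 * Γ * (119 / 100 * (169 / 50 + τ)) ≤ r * x)
    (hX : 17 / 40 * U * (r * min (x ^ 2) x) ≤ X) (hG : G ≤ 9 / 10 * Γ * τ ^ 2) :
    18 ≤ X - G ∧ X ≤ 3 / 2 * (X - G) ∧ U ≤ X / 16 ∧ r * x ^ 2 * U ≤ 3 / 25 * X ^ 2 := by
  have hr0 : 0 < r := by linarith
  have hU0 : 0 < U := by linarith
  have hΓ0 : 0 < Γ := by linarith
  have hGτ : 0 ≤ Γ * τ := by positivity
  rcases le_total x 1 with h | h
  · have hmin : min (x ^ 2) x = x ^ 2 := min_eq_left (by nlinarith)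
    rw [hmin] at hX
    have a1 : 16 / 25 * Γ * (57 / 5 + 6 * τ) ≤ r * x ^ 2 := by
      refine le_trans ?_ hA
      have : 57 / 5 + 6 * τ ≤ (169 / 50 + τ) ^ 2 := by nlinarith [sq_nonneg τ]
      exact mul_le_mul_of_nonneg_left this (by positivity)
    have a2 : 39 ≤ r * x ^ 2 := by nlinarith
    have a3 : 17 / 40 * (5 / 4) * (r * x ^ 2) ≤ X := by
      refine le_trans ?_ hX
      nlinarith
    have a4 : Γ * τ ^ 2 ≤ 3 / 4 * (Γ * τ) := by nlinarith
    have a5 : 17 / 40 * U * 39 ≤ X := le_trans (by nlinarith) hX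
    have a6 : (20 : ℝ) ≤ X := by linarith
    refine ⟨by nlinarith, by nlinarith, by nlinarith, ?_⟩
    nlinarith
  · have hmin : min (x ^ 2) x = x := min_eq_right (by nlinarith)
    rw [hmin] at hX
    have a0 : 499 / 10 ≤ r * x := by nlinarith
    have a3 : 17 / 40 * (5 / 4) * (r * x) ≤ X := by
      refine le_trans ?_ hX
      nlinarith
    have a4 : Γ * τ ^ 2 ≤ 3 / 4 * (Γ * τ) := by nlinarith
    have a5 : 17 / 40 * U * (499 / 10) ≤ X := le_trans (by nlinarith) hX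
    have a6 : (53 / 2 : ℝ) ≤ X := by linarith
    have a7 : 17 / 40 * (5 / 4) * (16 / 25 * Γ * (119 / 100 * (169 / 50 + τ))) ≤ X := by linarith
    have a8 : 9 / 10 * Γ * τ ^ 2 ≤ 31 / 100 * X := by
      have : 9 / 10 * Γ * τ ^ 2 ≤
          31 / 100 * (17 / 40 * (5 / 4) * (16 / 25 * Γ * (119 / 100 * (169 / 50 + τ)))) := by
        have h2 : 9 / 10 * τ ^ 2 ≤
            31 / 100 * (17 / 40 * (5 / 4) * (16 / 25 * (119 / 100 * (169 / 50 + τ)))) := by
          nlinarith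
        nlinarith
      linarith
    refine ⟨by linarith, by linarith, by linarith, ?_⟩
    have b1 : 17 / 40 * (U * r * x) ≤ X := by linarith
    have b2 : 0 ≤ 17 / 40 * (U * r * x) := by positivity
    have b3 : (17 / 40 * (U * r * x)) ^ 2 ≤ X ^ 2 := pow_le_pow_left₀ b2 b1 2
    have b4 : (499 / 10) * (5 / 4) ≤ r * U := mul_le_mul hr hU (by norm_num) hr0.le
    have b5 : 0 ≤ r * x ^ 2 * U := by positivity
    nlinarith [mul_le_mul_of_nonneg_right b4 b5]

/-- `Y² e^(-Y) ≤ 1/180000`, `Y ≥ 18` -/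
private theorem fa_exp {Y : ℝ} (hY : 18 ≤ Y) : Y ^ 2 * exp (-Y) ≤ 1 / 180000 := by
  have h1 : (60000000 : ℝ) ≤ exp 18 := by
    have h2 := Real.exp_one_gt_d9
    have h3 : exp 18 = exp 1 ^ 18 := by rw [← exp_nat_mul]; norm_num
    rw [h3]
    calc (60000000 : ℝ) ≤ 2.718 ^ 18 := by norm_num
      _ ≤ exp 1 ^ 18 := pow_le_pow_left₀ (by norm_num) (by linarith) 18
  have h4 := Real.quadratic_le_exp_of_nonneg (x := Y - 18) (by linarith)
  have h5 : Y ^ 2 ≤ 324 * exp (Y - 18) := by nlinarith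
  have h6 : exp (Y - 18) * exp (-Y) = exp (-18) := by
    rw [← exp_add]
    congr 1
    ring
  have h7 : exp (-18) * 60000000 ≤ 1 := by
    have h8 : exp (-18) * exp 18 = 1 := by rw [← exp_add]; simp
    nlinarith [exp_pos (-18)]
  calc Y ^ 2 * exp (-Y) ≤ 324 * exp (Y - 18) * exp (-Y) :=
        mul_le_mul_of_nonneg_right h5 (exp_pos _).le
    _ = 324 * exp (-18) := by rw [mul_assoc, h6]
    _ ≤ 1 / 180000 := by linarith

/-- the two bounds -/
private theorem fa_fin {r U x Γ X G P : ℝ} (hr : 499 / 10 ≤ r) (hU : 5 / 4 ≤ U)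
    (hΓ : 27 / 5 ≤ Γ) (f1 : 18 ≤ X - G) (f2 : X ≤ 3 / 2 * (X - G)) (f3 : U ≤ X / 16)
    (f4 : r * x ^ 2 * U ≤ 3 / 25 * X ^ 2) (hP : P ≤ 3 / 5 * √(r * U) * exp G) :
    P * (22 * exp (-X) / √r) ≤ 1 / 1000000 ∧
      P * ((24 * x ^ 2 / √r + 54 / (r * √r)) * exp (-X)) * (r / Γ) ≤ 1 / 200000 := by
  have hr0 : 0 < r := by linarith
  have hs : 0 < √r := Real.sqrt_pos.2 hr0
  have hs2 : √r * √r = r := Real.mul_self_sqrt hr0.le
  have hUU : √U ≤ U := by
    rw [Real.sqrt_le_left (by linarith)]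
    nlinarith
  have hP2 : P ≤ 3 / 5 * (√r * U) * exp G := by
    refine hP.trans (mul_le_mul_of_nonneg_right ?_ (exp_pos _).le)
    rw [Real.sqrt_mul hr0.le]
    have := mul_le_mul_of_nonneg_left hUU hs.le
    linarith
  set Y := X - G with hY
  have hE : exp G * exp (-X) = exp (-Y) := by
    rw [← exp_add]
    congr 1
    rw [hY]
    ring
  have hEp := exp_pos (-Y)
  have h2 := fa_exp f1
  have h3 : Y * exp (-Y) ≤ Y ^ 2 * exp (-Y) / 18 := by
    have : Y * 18 ≤ Y ^ 2 := by nlinarith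
    nlinarith
  constructor
  · calc P * (22 * exp (-X) / √r) ≤ 3 / 5 * (√r * U) * exp G * (22 * exp (-X) / √r) :=
          mul_le_mul_of_nonneg_right hP2 (by positivity)
      _ = 66 / 5 * U * (exp G * exp (-X)) := by
          field_simp
          ring
      _ = 66 / 5 * U * exp (-Y) := by rw [hE]
      _ ≤ 66 / 5 * (X / 16) * exp (-Y) := by gcongr
      _ ≤ 66 / 5 * (3 / 2 * Y / 16) * exp (-Y) := by gcongr
      _ ≤ 1 / 1000000 := by nlinarith
  · have hx2 : 0 ≤ x ^ 2 := sq_nonneg x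
    have hΓ0 : 0 < Γ := by linarith
    calc P * ((24 * x ^ 2 / √r + 54 / (r * √r)) * exp (-X)) * (r / Γ)
        = P * (((24 * x ^ 2 / √r + 54 / (r * √r)) * exp (-X)) * (r / Γ)) := by ring
      _ ≤ 3 / 5 * (√r * U) * exp G * (((24 * x ^ 2 / √r + 54 / (r * √r)) * exp (-X)) * (r / Γ)) :=
          mul_le_mul_of_nonneg_right hP2 (by positivity)
      _ = 3 / 5 * (24 * (r * x ^ 2 * U) + 54 * U) / Γ * (exp G * exp (-X)) := by
          field_simp
      _ = 3 / 5 * (24 * (r * x ^ 2 * U) + 54 * U) / Γ * exp (-Y) := by rw [hE]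
      _ ≤ 3 / 5 * (24 * (3 / 25 * X ^ 2) + 54 * (X / 16)) / (27 / 5) * exp (-Y) := by
          have hX0 : 0 ≤ X := by linarith
          refine mul_le_mul_of_nonneg_right ?_ hEp.le
          refine div_le_div₀ (by positivity) ?_ (by norm_num) hΓ
          linarith
      _ ≤ 3 / 5 * (24 * (3 / 25 * (3 / 2 * Y) ^ 2) + 54 * (3 / 2 * Y / 16)) / (27 / 5) *
          exp (-Y) := by
          have hX0 : 0 ≤ X := by linarith
          gcongr
      _ ≤ 1 / 200000 := by nlinarith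

private theorem fa_s1 {c y h Γ M : ℝ} (hy : 0 ≤ y) (hc : c = y * h) (hh : h ≤ 21 / 10)
    (hΓ : 27 / 5 ≤ Γ) (hM : 119 / 100 ≤ M) : c * (19 / 10) ≤ 16 / 25 * Γ * (M * y) := by
  have h1 : (27 / 5 : ℝ) * (119 / 100) ≤ Γ * M := mul_le_mul hΓ hM (by norm_num) (by linarith)
  have h2 : c ≤ y * (21 / 10) := by
    rw [hc]
    exact mul_le_mul_of_nonneg_left hh hy
  have h3 := mul_le_mul_of_nonneg_right h1 hy
  linarith

private theorem fa_s2 {c y h Γ : ℝ} (hy : 169 / 50 ≤ y) (hc : c = y * h) (hh : h ≤ 21 / 10)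
    (hΓ : 27 / 5 ≤ Γ) : c * (19 / 10) ≤ 16 / 25 * Γ * y ^ 2 := by
  have hy0 : 0 ≤ y := by linarith
  have h2 : c ≤ y * (21 / 10) := by
    rw [hc]
    exact mul_le_mul_of_nonneg_left hh hy0
  have h3 : (27 / 5 : ℝ) * (169 / 50 * y) ≤ Γ * y ^ 2 := by
    refine mul_le_mul hΓ ?_ (by positivity) (by linarith)
    nlinarith
  linarith

private theorem fa_s3 {c z : ℝ} (hc : 0 < c) (h : c * (19 / 10) ≤ z) :
    c ≤ 17 / 40 * (5 / 4) * z := by
  linarith

/-- THE FAR ZONES: all fields of regime I, both sides. -/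
theorem far_real {N : ℕ} {r δ η g q c A : ℝ} (hR : Reg1 N r δ) (hη : |η| ≤ 3 / 4 * hst N)
    (hg : g ≤ 9 / 5) (hq : q ≤ 33 / 20) (hc : 5 + |η| + hst N ≤ c)
    (hA : A = AL (mm (r * δ)) (r * δ) c ∨ A = AR (mm (r * δ)) (r * δ) c) :
    1 ≤ r * A * c ∧ PF r δ η g q * (22 * exp (-(r * (A * c ^ 2))) / √r) ≤ 1 / 1000000 ∧
      PF r δ η g q * ((24 * (c / mm (r * δ)) ^ 2 / √r + 54 / (r * √r)) *
        exp (-(r * (A * c ^ 2)))) * (RR r δ / hst N ^ 2) ≤ 1 / 200000 := by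
  have hr := hR.r0
  have hr0 : 0 < r := by linarith
  have hδ := hR.d0
  have hρ : 0 < r * δ := mul_pos hr0 hδ
  have hN3 : (3 : ℝ) ≤ N := by exact_mod_cast hR.N3
  have hN0 : (0 : ℝ) < N := by linarith
  have hpi := Real.pi_lt_d4
  have hpi0 := Real.pi_pos
  have hh0 : 0 < hst N := by
    unfold hst
    positivity
  have hh1 : hst N ≤ 2 * π / 3 := by
    unfold hst
    exact div_le_div_of_nonneg_left (by positivity) (by norm_num) hN3
  have hRR : RR r δ = 1 + (r * δ) ^ 2 := rfl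
  have hRp : 0 < RR r δ := by
    rw [hRR]
    positivity
  have hmm : mm (r * δ) = 5 / 4 * √(RR r δ) := rfl
  have hsR : 0 < √(RR r δ) := Real.sqrt_pos.2 hRp
  have hsq : √(RR r δ) * √(RR r δ) = RR r δ := Real.mul_self_sqrt hRp.le
  have hG : 27 / 5 ≤ r * hst N ^ 2 / RR r δ := hR.G
  have hI := hR.I
  set h := hst N with hhd
  set ρ := r * δ with hρd
  set R := RR r δ with hRd
  set m := mm ρ with hmd
  set Γ := r * h ^ 2 / R with hΓd
  set τ := |η| / h with hτd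
  have hτ0 : 0 ≤ τ := by positivity
  have hτ1 : τ ≤ 3 / 4 := by
    rw [hτd, div_le_iff₀ hh0]
    exact hη
  have hητ : |η| = τ * h := by
    rw [hτd]
    field_simp
  have hm0 : 0 < m := by rw [hmm]; positivity
  have hm2 : m ^ 2 = 25 / 16 * R := by
    rw [hmm]
    nlinarith
  have hmρ : 5 / 4 * ρ ≤ m := by
    rw [hmm]
    have : ρ ≤ √R := by
      refine Real.le_sqrt_of_sq_le ?_
      linarith
    linarith
  have hU : 5 / 4 ≤ m / ρ := by
    rw [le_div_iff₀ hρ]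
    exact hmρ
  have hc0 : 0 < c := by
    have := abs_nonneg η
    linarith
  have hx : 0 < c / m := by positivity
  have hch : 169 / 50 + τ ≤ c / h := by
    rw [le_div_iff₀ hh0]
    rw [hητ] at hc
    have : h * (119 / 50) ≤ 5 := by linarith
    linarith
  have hΓ0 : 0 < Γ := by linarith
  have hrΓ : r = Γ * R / h ^ 2 := by
    rw [hΓd]
    field_simp
  have hmh : 119 / 100 ≤ m / h := by
    rw [le_div_iff₀ hh0]
    have : (119 / 100 * h) ^ 2 ≤ m ^ 2 := by
      rw [hm2]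
      nlinarith
    exact le_of_sq_le_sq this hm0.le
  have e1 : r * (c / m) ^ 2 = 16 / 25 * Γ * (c / h) ^ 2 := by
    rw [div_pow, hm2, hΓd]
    field_simp
  have e2 : r * (c / m) = 16 / 25 * Γ * (m / h * (c / h)) := by
    have : r * (c / m) = 16 / 25 * (r * (16 / 25 * m ^ 2)⁻¹ * (m ^ 2)) * (c / m) * (25 / 16) * (16 / 25) := by
      field_simp
    have h3 : 16 / 25 * Γ * (m / h * (c / h)) = 16 / 25 * (r / R) * (m * c) := by
      rw [hΓd]
      field_simp
    have h4 : R = 16 / 25 * m ^ 2 := by rw [hm2]; ring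
    rw [h3, h4]
    field_simp
  have hAle : 16 / 25 * Γ * (169 / 50 + τ) ^ 2 ≤ r * (c / m) ^ 2 := by
    rw [e1]
    gcongr
  have hBle : 16 / 25 * Γ * (119 / 100 * (169 / 50 + τ)) ≤ r * (c / m) := by
    rw [e2]
    gcongr
  have hAc : 17 / 40 * (m / ρ) * min ((c / m) ^ 2) (c / m) ≤ A * c ^ 2 := by
    rcases hA with rfl | rfl
    · exact fa_AL hρ hmρ hc0
    · exact fa_AR hρ hmρ hc0
  have hX : 17 / 40 * (m / ρ) * (r * min ((c / m) ^ 2) (c / m)) ≤ r * (A * c ^ 2) := by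
    have := mul_le_mul_of_nonneg_left hAc hr0.le
    linarith
  have hGG : g / 2 * (r * η ^ 2 / R) ≤ 9 / 10 * Γ * τ ^ 2 := by
    have h3 : r * η ^ 2 / R = Γ * τ ^ 2 := by
      rw [← sq_abs, hητ, hΓd]
      field_simp
    rw [h3]
    have : 0 ≤ Γ * τ ^ 2 := by positivity
    nlinarith
  obtain ⟨f1, f2, f3, f4⟩ := fa_core hr hU hx hG hτ0 hτ1 hAle hBle hX hGG
  have hR1 : 1 ≤ R := by
    have := sq_nonneg ρ
    linarith
  have hP : PF r δ η g q ≤ 3 / 5 * √(r * (m / ρ)) * exp (g / 2 * (r * η ^ 2 / R)) := by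
    have e3 : √(r / (2 * π * ρ)) * √(q * √R) * √(1 + 1 / m ^ 2) ≤ 3 / 5 * √(r * (m / ρ)) := by
      have e4 : √(q * √R) ≤ √(33 / 20 * √R) :=
        Real.sqrt_le_sqrt (mul_le_mul_of_nonneg_right hq hsR.le)
      have e5 : √(1 + 1 / m ^ 2) ≤ √(41 / 25) := by
        refine Real.sqrt_le_sqrt ?_
        have : 1 / m ^ 2 ≤ 16 / 25 := by
          rw [hm2, div_le_div_iff₀ (by positivity) (by norm_num)]
          linarith
        linarith
      have e6 : √((9 : ℝ) / 25) = 3 / 5 := by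
        rw [show (9 : ℝ) / 25 = (3 / 5) ^ 2 by norm_num]
        exact Real.sqrt_sq (by norm_num)
      calc √(r / (2 * π * ρ)) * √(q * √R) * √(1 + 1 / m ^ 2)
          ≤ √(r / (2 * π * ρ)) * √(33 / 20 * √R) * √(41 / 25) := by gcongr
        _ = √(r / (2 * π * ρ) * (33 / 20 * √R) * (41 / 25)) := by
            rw [← Real.sqrt_mul (show 0 ≤ r / (2 * π * ρ) by positivity),
              ← Real.sqrt_mul (show 0 ≤ r / (2 * π * ρ) * (33 / 20 * √R) by positivity)]
        _ ≤ √(9 / 25 * (r * (m / ρ))) := by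
            refine Real.sqrt_le_sqrt ?_
            rw [hmm]
            have e7 : r / (2 * π * ρ) * (33 / 20 * √R) * (41 / 25) =
                r * √R / ρ * (1353 / 1000 / π) := by
              field_simp
              ring
            have e8 : 9 / 25 * (r * (5 / 4 * √R / ρ)) = r * √R / ρ * (9 / 20) := by
              ring
            rw [e7, e8]
            refine mul_le_mul_of_nonneg_left ?_ (by positivity)
            rw [div_le_iff₀ hpi0]
            have := Real.pi_gt_d4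
            linarith
        _ = 3 / 5 * √(r * (m / ρ)) := by
            rw [Real.sqrt_mul (by norm_num), e6]
    have e9 : PF r δ η g q = √(r / (2 * π * ρ)) * √(q * √R) * √(1 + 1 / m ^ 2) *
        exp (g / 2 * (r * η ^ 2 / R)) := by
      unfold PF LvF
      ring
    rw [e9]
    exact mul_le_mul_of_nonneg_right e3 (exp_pos _).le
  obtain ⟨g1, g2⟩ := fa_fin hr hU hG f1 f2 f3 f4 hP
  refine ⟨?_, g1, ?_⟩
  · -- the side condition
    have hXc : r * (A * c ^ 2) = r * A * c * c := by ring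
    have k1 : 17 / 40 * (m / ρ) * (r * min ((c / m) ^ 2) (c / m)) ≤ r * A * c * c := by
      rw [← hXc]
      exact hX
    have k2 : c ≤ 17 / 40 * (m / ρ) * (r * min ((c / m) ^ 2) (c / m)) := by
      have k3 : 17 / 40 * (5 / 4) * (r * min ((c / m) ^ 2) (c / m)) ≤
          17 / 40 * (m / ρ) * (r * min ((c / m) ^ 2) (c / m)) := by
        have : 0 ≤ r * min ((c / m) ^ 2) (c / m) := by positivity
        nlinarith
      refine le_trans ?_ k3
      have h2h : h ≤ 21 / 10 := by linarith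
      have k5 : c = c / h * h := by field_simp
      have k6 : 0 ≤ c / h := by positivity
      have k4 : c * (19 / 10) ≤ r * (c / m) := by
        rw [e2]
        exact fa_s1 k6 k5 h2h hG hmh
      have k4' : c * (19 / 10) ≤ r * (c / m) ^ 2 := by
        rw [e1]
        exact fa_s2 (by linarith) k5 h2h hG
      rcases min_choice ((c / m) ^ 2) (c / m) with hmi | hmi
      · rw [hmi]
        exact fa_s3 hc0 k4'
      · rw [hmi]
        exact fa_s3 hc0 k4
    have k3 : c * 1 ≤ c * (r * A * c) := by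
      rw [mul_one, mul_comm c]
      exact k2.trans k1
    exact le_of_mul_le_mul_left k3 hc0
  · have : R / h ^ 2 = r / Γ := by
      rw [hΓd]
      field_simp
    rw [this]
    exact g2

/-- The form of `farR`. -/
theorem far_realR {N : ℕ} {r δ η g q c : ℝ} (hR : Reg1 N r δ) (hη : |η| ≤ 3 / 4 * hst N)
    (hg : g ≤ 9 / 5) (hq : q ≤ 33 / 20) (hc : 5 + |η| + hst N ≤ c) :
    1 ≤ r * AR (mm (r * δ)) (r * δ) c * c ∧
      PF r δ η g q * (8 * exp (-(r * (AR (mm (r * δ)) (r * δ) c * c ^ 2))) / √r) ≤ 1 / 1000000 ∧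
      PF r δ η g q * ((24 * (c / mm (r * δ)) ^ 2 / √r + 54 / (r * √r)) *
        exp (-(r * (AR (mm (r * δ)) (r * δ) c * c ^ 2)))) * (RR r δ / hst N ^ 2) ≤ 1 / 200000 ∧
      PF r δ η g q * (22 * exp (-(r * (AR (mm (r * δ)) (r * δ) c * c ^ 2))) / √r) / Gm N r δ ≤
        1 / 5000000 := by
  obtain ⟨h1, h2, h3⟩ := far_real hR hη hg hq hc (Or.inr rfl)
  have hP := PF_nonneg r δ η g q
  have hr0 : 0 < r := by linarith [hR.r0]
  refine ⟨h1, ?_, h3, ?_⟩
  · refine le_trans (mul_le_mul_of_nonneg_left ?_ hP) h2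
    refine div_le_div_of_nonneg_right ?_ (Real.sqrt_nonneg _)
    nlinarith [exp_pos (-(r * (AR (mm (r * δ)) (r * δ) c * c ^ 2)))]
  · rw [div_le_iff₀ (by linarith [hR.G])]
    have := hR.G
    linarith

/-- The form of `farL`. -/
theorem far_realL {N : ℕ} {r δ η g q c : ℝ} (hR : Reg1 N r δ) (hη : |η| ≤ 3 / 4 * hst N)
    (hg : g ≤ 9 / 5) (hq : q ≤ 33 / 20) (hc : 5 + |η| + hst N ≤ c) :
    1 ≤ r * AL (mm (r * δ)) (r * δ) c * c ∧
      PF r δ η g q * (8 * exp (-(r * (AL (mm (r * δ)) (r * δ) c * c ^ 2))) / √r) ≤ 1 / 1000000 ∧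
      PF r δ η g q * ((8 * (c / mm (r * δ)) ^ 2 / √r + 54 / (r * √r)) *
        exp (-(r * (AL (mm (r * δ)) (r * δ) c * c ^ 2)))) * (RR r δ / hst N ^ 2) ≤ 1 / 200000 ∧
      PF r δ η g q * (8 * exp (-(r * (AL (mm (r * δ)) (r * δ) c * c ^ 2))) / √r) / Gm N r δ ≤
        1 / 5000000 := by
  obtain ⟨h1, h2, h3⟩ := far_real hR hη hg hq hc (Or.inl rfl)
  have hP := PF_nonneg r δ η g q
  have hr0 : 0 < r := by linarith [hR.r0]
  have h4 : PF r δ η g q * (8 * exp (-(r * (AL (mm (r * δ)) (r * δ) c * c ^ 2))) / √r) ≤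
      1 / 1000000 := by
    refine le_trans (mul_le_mul_of_nonneg_left ?_ hP) h2
    refine div_le_div_of_nonneg_right ?_ (Real.sqrt_nonneg _)
    nlinarith [exp_pos (-(r * (AL (mm (r * δ)) (r * δ) c * c ^ 2)))]
  refine ⟨h1, h4, ?_, ?_⟩
  · refine le_trans (mul_le_mul_of_nonneg_right (mul_le_mul_of_nonneg_left ?_ hP) ?_) h3
    · refine mul_le_mul_of_nonneg_right ?_ (exp_pos _).le
      have h5 : 8 * (c / mm (r * δ)) ^ 2 / √r ≤ 24 * (c / mm (r * δ)) ^ 2 / √r := by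
        refine div_le_div_of_nonneg_right ?_ (Real.sqrt_nonneg _)
        nlinarith [sq_nonneg (c / mm (r * δ))]
      linarith
    · have : 0 < RR r δ := by unfold RR; positivity
      positivity
  · rw [div_le_iff₀ (by linarith [hR.G])]
    have := hR.G
    linarith

/-- Both rays as one zone, any angle. -/
theorem far_ex {N : ℕ} {r δ η g q c1 c2 : ℝ} (hR : Reg1 N r δ) (hη : |η| ≤ 3 / 4 * hst N)
    (hg : g ≤ 9 / 5) (hq : q ≤ 33 / 20) (h1 : 5 + |η| + hst N ≤ c1)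
    (h2 : 5 + |η| + hst N ≤ c2) (θ : ℝ) :
    ∃ F0 FW Fe : ℝ, 0 ≤ F0 ∧ 0 ≤ FW ∧ 0 ≤ Fe ∧
      Zone r (mm (r * δ)) (r * δ) θ 1 (Set.Ici c1 ∪ Set.Iic (-c2)) F0 FW Fe ∧
      PF r δ η g q * F0 ≤ 1 / 500000 ∧
      PF r δ η g q * FW * (RR r δ / hst N ^ 2) ≤ 1 / 100000 ∧
      PF r δ η g q * Fe / Gm N r δ ≤ 1 / 2500000 := by
  obtain ⟨a1, a2, a3, a4⟩ := far_realR hR hη hg hq h1
  obtain ⟨b1, b2, b3, b4⟩ := far_realL hR hη hg hq h2
  have hr0 : 0 < r := by linarith [hR.r0]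
  have hρ : 0 < r * δ := mul_pos hr0 hR.d0
  have hm : r * δ ≤ mm (r * δ) := by
    unfold mm
    have : r * δ ≤ √(1 + (r * δ) ^ 2) := Real.le_sqrt_of_sq_le (by linarith)
    nlinarith
  have hm0 : 0 < mm (r * δ) := hρ.trans_le hm
  have hh0 : 0 ≤ hst N := by
    unfold hst
    positivity
  have hc1 : 4 ≤ c1 := by linarith [abs_nonneg η]
  have hc2 : 4 ≤ c2 := by linarith [abs_nonneg η]
  have zR := farR (θ := θ) hr0 hρ hm hc1 rfl a1 rfl
  have zL := farL (θ := θ) hr0 hρ hm hc2 rfl b1 rfl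
  refine ⟨_, _, _, ?_, ?_, ?_, zR.union zL (by positivity) (by positivity) (by positivity)
    (by positivity) (by positivity) (by positivity), ?_, ?_, ?_⟩
  · positivity
  · positivity
  · positivity
  · rw [mul_add]
    linarith
  · rw [mul_add, add_mul]
    linarith
  · rw [mul_add, add_div]
    linarith

end SokalCen
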