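import Pool.Agent.Lib_MP_af4de1_v3.Lev
import Pool.Agent.Lib_MP_af4de1_fa.FarSum
import Pool.Agent.Lib_MP_af4de1_fa.FrC2

/-!
# SHIFT on the centre path: reduction to three real integrals (both sides)

`cJ ρ r θ w = ∫⁻ √(1+1/R) w(s) exp(-r DD(ρ,θ,s)) ds` with the weights `1`, `r √W2`, `r² W2 + r e^a`.
`shf_cen`: `f0 = P J0`, `f1 H = P (J1 + k t J0)`, `f2 H² = P (J2 + 2 k t J1 + (k t)² J0)`, `t = r|η|/√R`,
`P = √(r/(2πρ)) √(q √R) exp(g/2 (r η²/R))`.
-/

set_option autoImplicit false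

namespace SokalV3

open Complex MeasureTheory SokalU SokalF1 SokalF1S SokalF1M

/-- integral over the centre path with the weight `w` -/
noncomputable def cJ (r ρ θ : ℝ) (w : ℝ → ℝ) : ENNReal :=
  ∫⁻ s : ℝ, ENNReal.ofReal (√(1 + 1 / (1 + ρ ^ 2)) * w s * Real.exp (-(r * SokalFA.DD ρ θ s)))

/-- weight of order 1 -/
noncomputable def cw1 (r ρ θ s : ℝ) : ℝ := r * √(SokalFA.W2 ρ θ s)

/-- weight of order 2 -/
noncomputable def cw2 (r ρ θ s : ℝ) : ℝ := r ^ 2 * SokalFA.W2 ρ θ s + r * Real.exp (SokalFA.pa ρ s)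

theorem W2_nonneg (ρ θ s : ℝ) : 0 ≤ SokalFA.W2 ρ θ s := by
  unfold SokalFA.W2
  have h1 := Real.exp_pos (SokalFA.pa ρ s)
  have h2 := Real.cos_le_one (θ + s)
  have h3 : 0 ≤ 1 - Real.cos (θ + s) := by linarith
  positivity

theorem cw1_nonneg {r : ℝ} (hr : 0 < r) (ρ θ s : ℝ) : 0 ≤ cw1 r ρ θ s := by
  unfold cw1
  positivity

theorem cw2_nonneg {r : ℝ} (hr : 0 < r) (ρ θ s : ℝ) : 0 ≤ cw2 r ρ θ s := by
  unfold cw2
  have := W2_nonneg ρ θ s
  positivity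

theorem norm_kp_sub' {r : ℝ} (hr : 0 < r) (ρ θ s : ℝ) :
    ‖SokalFA.kp r ρ θ s - r‖ = cw1 r ρ θ s := by
  have h := SokalFA.norm_kp_sub hr ρ θ s
  unfold cw1
  have h1 : 0 ≤ ‖SokalFA.kp r ρ θ s - r‖ := norm_nonneg _
  rw [← Real.sqrt_sq h1, h, Real.sqrt_mul (by positivity), Real.sqrt_sq hr.le]

theorem continuous_DD (ρ θ : ℝ) : Continuous (SokalFA.DD ρ θ) := by
  have h : SokalFA.DD ρ θ = fun s => SokalFA.Qr ρ s + Real.exp (SokalFA.pa ρ s) *
      (1 - Real.cos (θ + s)) := by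
    funext s
    exact SokalFA.DD_eq ρ θ s
  rw [h]
  have h1 := SokalFA.continuous_pa ρ
  have h2 := SokalFA.continuous_Qr ρ
  fun_prop

theorem continuous_W2 (ρ θ : ℝ) : Continuous (SokalFA.W2 ρ θ) := by
  unfold SokalFA.W2
  have h1 := SokalFA.continuous_pa ρ
  fun_prop

theorem measurable_term {w : ℝ → ℝ} (hw : Measurable w) (r ρ θ : ℝ) : Measurable fun s : ℝ =>
    ENNReal.ofReal (√(1 + 1 / (1 + ρ ^ 2)) * w s * Real.exp (-(r * SokalFA.DD ρ θ s))) := by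
  have h := (continuous_DD ρ θ).measurable
  fun_prop

theorem measurable_cw1 (r ρ θ : ℝ) : Measurable (cw1 r ρ θ) := by
  have h := (continuous_W2 ρ θ).measurable
  unfold cw1
  fun_prop

theorem measurable_cw2 (r ρ θ : ℝ) : Measurable (cw2 r ρ θ) := by
  have h := (continuous_W2 ρ θ).measurable
  have h1 := (SokalFA.continuous_pa ρ).measurable
  unfold cw2
  fun_prop

/-- linear combination of two weights -/
theorem cJ_add {r ρ θ a b : ℝ} {w v : ℝ → ℝ} (ha : 0 ≤ a) (hb : 0 ≤ b) (hw : ∀ s, 0 ≤ w s)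
    (hv : ∀ s, 0 ≤ v s) (mw : Measurable w) (mv : Measurable v) :
    cJ r ρ θ (fun s => a * w s + b * v s) =
      ENNReal.ofReal a * cJ r ρ θ w + ENNReal.ofReal b * cJ r ρ θ v := by
  unfold cJ
  rw [← lintegral_const_mul _ (measurable_term mw r ρ θ),
    ← lintegral_const_mul _ (measurable_term mv r ρ θ),
    ← lintegral_add_left ((measurable_term mw r ρ θ).const_mul _)]
  refine lintegral_congr fun s => ?_
  have h1 := hw s
  have h2 := hv s
  rw [← ENNReal.ofReal_mul ha, ← ENNReal.ofReal_mul hb, ← ENNReal.ofReal_add (by positivity)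
    (by positivity)]
  congr 1
  ring

theorem cJ_mono {r ρ θ : ℝ} {w v : ℝ → ℝ} (h : ∀ s, w s ≤ v s) : cJ r ρ θ w ≤ cJ r ρ θ v := by
  unfold cJ
  refine lintegral_mono fun s => ENNReal.ofReal_le_ofReal ?_
  have := h s
  gcongr

/-- from the lintegral bound to a bound by the level -/
theorem cen_level {r δ y η g k q P T j f : ℝ} (hr : 0 < r) (hδ : 0 < δ) (hy : -1 < y)
    (hL : Lev r δ y η g k q) (hT : 0 ≤ T) (hj : 0 ≤ j) {J : ENNReal}
    (h : ENNReal.ofReal T ≤ ENNReal.ofReal (√(r / (2 * Real.pi * (r * δ))) * Real.exp r) * J)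
    (hJ : J ≤ ENNReal.ofReal j)
    (hP : √(r / (2 * Real.pi * (r * δ))) * √(q * √(RR r δ)) *
      Real.exp (g / 2 * (r * η ^ 2 / RR r δ)) ≤ P)
    (hf : P * j ≤ f) : T ≤ f * sM r δ y := by
  have hM := sM_pos (r := r) (δ := δ) hy
  have h1 : T ≤ √(r / (2 * Real.pi * (r * δ))) * Real.exp r * j := by
    have h2 := h.trans (mul_le_mul_right hJ _)
    rw [← ENNReal.ofReal_mul (by positivity)] at h2
    rwa [ENNReal.ofReal_le_ofReal_iff (by positivity)] at h2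
  refine h1.trans ?_
  have h3 : Real.exp r ≤ √(q * √(RR r δ)) * Real.exp (g / 2 * (r * η ^ 2 / RR r δ)) * sM r δ y := by
    have hD : 0 < sD2 (r * δ) y := sD2_pos hy
    have hs : 0 < √(sD (r * δ) y) := by
      unfold sD
      positivity
    have e1 : sM r δ y = Real.exp (sx (r * δ) y * (1 + y) / δ) / √(sD (r * δ) y) := by
      unfold sM sD
      rw [show √(√(sD2 (r * δ) y)) = (sD2 (r * δ) y) ^ (1 / 4 : ℝ) from by
        rw [Real.sqrt_eq_rpow, Real.sqrt_eq_rpow, ← Real.rpow_mul hD.le]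
        norm_num]
    have e2 : √(sD (r * δ) y) ≤ √(q * √(RR r δ)) := Real.sqrt_le_sqrt hL.l2
    have e3 : Real.exp r ≤ Real.exp (g / 2 * (r * η ^ 2 / RR r δ)) *
        Real.exp (sx (r * δ) y * (1 + y) / δ) := by
      rw [← Real.exp_add]
      apply Real.exp_le_exp.2
      have := hL.l0
      linarith
    rw [e1]
    calc Real.exp r ≤ Real.exp (g / 2 * (r * η ^ 2 / RR r δ)) *
          Real.exp (sx (r * δ) y * (1 + y) / δ) := e3
      _ = √(sD (r * δ) y) * (Real.exp (g / 2 * (r * η ^ 2 / RR r δ)) *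
          (Real.exp (sx (r * δ) y * (1 + y) / δ) / √(sD (r * δ) y))) := by
          field_simp
      _ ≤ √(q * √(RR r δ)) * (Real.exp (g / 2 * (r * η ^ 2 / RR r δ)) *
          (Real.exp (sx (r * δ) y * (1 + y) / δ) / √(sD (r * δ) y))) := by gcongr
      _ = _ := by ring
  calc √(r / (2 * Real.pi * (r * δ))) * Real.exp r * j
      ≤ √(r / (2 * Real.pi * (r * δ))) * (√(q * √(RR r δ)) *
        Real.exp (g / 2 * (r * η ^ 2 / RR r δ)) * sM r δ y) * j := by gcongr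
    _ = (√(r / (2 * Real.pi * (r * δ))) * √(q * √(RR r δ)) *
        Real.exp (g / 2 * (r * η ^ 2 / RR r δ))) * j * sM r δ y := by ring
    _ ≤ P * j * sM r δ y := by gcongr
    _ ≤ f * sM r δ y := by gcongr

/-- THE REDUCTION: a wave at the angle `η + ζ`, seen from the saddle `y` of the angle `η`. -/
theorem shf_cen {r δ y η ζ H g k q P j0 j1 j2 f0 f1 f2 : ℝ} (hr : 0 < r) (hδ : 0 < δ)
    (hA : At r δ y η) (hL : Lev r δ y η g k q) (hk : 0 ≤ k)
    (hj0 : 0 ≤ j0) (hj1 : 0 ≤ j1) (hj2 : 0 ≤ j2)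
    (h0 : cJ r (r * δ) (η + ζ) (fun _ => 1) ≤ ENNReal.ofReal j0)
    (h1 : cJ r (r * δ) (η + ζ) (cw1 r (r * δ) (η + ζ)) ≤ ENNReal.ofReal j1)
    (h2 : cJ r (r * δ) (η + ζ) (cw2 r (r * δ) (η + ζ)) ≤ ENNReal.ofReal j2)
    (hP : √(r / (2 * Real.pi * (r * δ))) * √(q * √(RR r δ)) *
      Real.exp (g / 2 * (r * η ^ 2 / RR r δ)) ≤ P)
    (hf0 : P * j0 ≤ f0)
    (hf1 : P * (j1 + k * (r * |η| / √(RR r δ)) * j0) ≤ f1 * H)
    (hf2 : P * (j2 + 2 * (k * (r * |η| / √(RR r δ))) * j1 +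
      (k * (r * |η| / √(RR r δ))) ^ 2 * j0) ≤ f2 * H ^ 2) :
    Shf r δ y ζ H f0 f1 f2 := by
  set ρ := r * δ with hρ
  set t := k * (r * |η| / √(RR r δ)) with ht
  have ht0 : 0 ≤ t := by rw [ht]; positivity
  have hk1 : ‖kap r δ y - r‖ ≤ t := hL.l1
  have m1 := measurable_cw1 r ρ (η + ζ)
  have m2 := measurable_cw2 r ρ (η + ζ)
  have n1 := cw1_nonneg hr ρ (η + ζ)
  have n2 := cw2_nonneg hr ρ (η + ζ)
  refine ⟨?_, ?_, ?_⟩
  · have hw := SokalFA.wave_bound hr hδ (η + ζ) 1 0 0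
    refine cen_level hr hδ hA.y1 hL (norm_nonneg _) hj0 (J := cJ r ρ (η + ζ) (fun _ => 1)) ?_ h0 hP
      hf0
    unfold V0
    rw [hA.eta]
    simpa [cJ] using hw
  · have hw := SokalFA.wave_bound hr hδ (η + ζ) (-kap r δ y) 1 0
    have hJ : cJ r ρ (η + ζ) (fun s => 1 * cw1 r ρ (η + ζ) s + t * (fun _ => (1 : ℝ)) s) ≤
        ENNReal.ofReal (j1 + t * j0) := by
      rw [cJ_add zero_le_one ht0 n1 (fun _ => zero_le_one) m1 measurable_const,
        ENNReal.ofReal_add hj1 (by positivity), ENNReal.ofReal_mul ht0, ENNReal.ofReal_one, one_mul]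
      gcongr
    refine cen_level hr hδ hA.y1 hL (norm_nonneg _) (by positivity) (J := cJ r ρ (η + ζ)
      (fun s => 1 * cw1 r ρ (η + ζ) s + t * (fun _ => (1 : ℝ)) s)) ?_ hJ hP hf1
    unfold V0 V1
    rw [hA.eta]
    have e : DE (tt δ) (wp r δ (η + ζ)) - kap r δ y * E (tt δ) (wp r δ (η + ζ)) =
        -kap r δ y * E (tt δ) (wp r δ (η + ζ)) + 1 * DE (tt δ) (wp r δ (η + ζ)) +
          0 * SokalBPlus.D2E (tt δ) (wp r δ (η + ζ)) := by ring
    rw [e]
    refine hw.trans ?_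
    gcongr
    unfold cJ
    refine lintegral_mono fun s => ENNReal.ofReal_le_ofReal ?_
    have hn : ‖-kap r δ y + 1 * SokalFA.kp r ρ (η + ζ) s +
        0 * (SokalFA.kp r ρ (η + ζ) s ^ 2 + SokalFA.kp r ρ (η + ζ) s)‖ ≤
        1 * cw1 r ρ (η + ζ) s + t * 1 := by
      have e : -kap r δ y + 1 * SokalFA.kp r ρ (η + ζ) s +
          0 * (SokalFA.kp r ρ (η + ζ) s ^ 2 + SokalFA.kp r ρ (η + ζ) s) =
          (SokalFA.kp r ρ (η + ζ) s - r) - (kap r δ y - r) := by ring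
      rw [e]
      refine (norm_sub_le _ _).trans ?_
      rw [norm_kp_sub' hr]
      linarith
    gcongr
  · have hw := SokalFA.wave_bound hr hδ (η + ζ) (kap r δ y ^ 2) (-(2 * kap r δ y)) 1
    have hJ : cJ r ρ (η + ζ) (fun s => 1 * cw2 r ρ (η + ζ) s + 1 * (2 * t * cw1 r ρ (η + ζ) s +
        t ^ 2 * (fun _ => (1 : ℝ)) s)) ≤ ENNReal.ofReal (j2 + 2 * t * j1 + t ^ 2 * j0) := by
      rw [cJ_add (w := cw2 r ρ (η + ζ)) (v := fun s => 2 * t * cw1 r ρ (η + ζ) s +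
          t ^ 2 * (fun _ => (1 : ℝ)) s) zero_le_one zero_le_one n2
          (fun s => by have := n1 s; positivity) m2
          ((m1.const_mul _).add (measurable_const.const_mul _)),
        cJ_add (by positivity) (by positivity) n1 (fun _ => zero_le_one) m1 measurable_const,
        ENNReal.ofReal_add (by positivity) (by positivity),
        ENNReal.ofReal_add hj2 (by positivity), ENNReal.ofReal_mul (p := 2 * t) (by positivity),
        ENNReal.ofReal_mul (p := t ^ 2) (by positivity), ENNReal.ofReal_one, one_mul, one_mul,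
        add_assoc]
      gcongr
    refine cen_level hr hδ hA.y1 hL (norm_nonneg _) (by positivity) (J := cJ r ρ (η + ζ)
      (fun s => 1 * cw2 r ρ (η + ζ) s + 1 * (2 * t * cw1 r ρ (η + ζ) s +
        t ^ 2 * (fun _ => (1 : ℝ)) s))) ?_ hJ hP hf2
    unfold V0 V1 V2
    rw [hA.eta]
    have e : SokalBPlus.D2E (tt δ) (wp r δ (η + ζ)) - 2 * kap r δ y * DE (tt δ) (wp r δ (η + ζ)) +
        kap r δ y ^ 2 * E (tt δ) (wp r δ (η + ζ)) =
        kap r δ y ^ 2 * E (tt δ) (wp r δ (η + ζ)) + -(2 * kap r δ y) * DE (tt δ) (wp r δ (η + ζ)) +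
          1 * SokalBPlus.D2E (tt δ) (wp r δ (η + ζ)) := by ring
    rw [e]
    refine hw.trans ?_
    gcongr
    unfold cJ
    refine lintegral_mono fun s => ENNReal.ofReal_le_ofReal ?_
    have hn : ‖kap r δ y ^ 2 + -(2 * kap r δ y) * SokalFA.kp r ρ (η + ζ) s +
        1 * (SokalFA.kp r ρ (η + ζ) s ^ 2 + SokalFA.kp r ρ (η + ζ) s)‖ ≤
        1 * cw2 r ρ (η + ζ) s + 1 * (2 * t * cw1 r ρ (η + ζ) s + t ^ 2 * 1) := by
      have e : kap r δ y ^ 2 + -(2 * kap r δ y) * SokalFA.kp r ρ (η + ζ) s +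
          1 * (SokalFA.kp r ρ (η + ζ) s ^ 2 + SokalFA.kp r ρ (η + ζ) s) =
          ((SokalFA.kp r ρ (η + ζ) s - r) - (kap r δ y - r)) ^ 2 + SokalFA.kp r ρ (η + ζ) s := by
        ring
      rw [e]
      refine (norm_add_le _ _).trans ?_
      rw [norm_pow, SokalFA.norm_kp hr]
      have e2 : ‖(SokalFA.kp r ρ (η + ζ) s - r) - (kap r δ y - r)‖ ≤ cw1 r ρ (η + ζ) s + t := by
        refine (norm_sub_le _ _).trans ?_
        rw [norm_kp_sub' hr]
        linarith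
      have e3 : ‖(SokalFA.kp r ρ (η + ζ) s - r) - (kap r δ y - r)‖ ^ 2 ≤
          (cw1 r ρ (η + ζ) s + t) ^ 2 := by
        have := norm_nonneg ((SokalFA.kp r ρ (η + ζ) s - r) - (kap r δ y - r))
        gcongr
      have e4 : cw1 r ρ (η + ζ) s ^ 2 = r ^ 2 * SokalFA.W2 ρ (η + ζ) s := by
        unfold cw1
        rw [mul_pow, Real.sq_sqrt (W2_nonneg _ _ _)]
      have e5 : cw2 r ρ (η + ζ) s = cw1 r ρ (η + ζ) s ^ 2 + r * Real.exp (SokalFA.pa ρ s) := by
        rw [e4]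
        rfl
      rw [e5]
      nlinarith
    gcongr

end SokalV3
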