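import Pool.Agent.Lib_MP_af4de1_v3.CenZ6

/-!
# CEN: the rest zone in the form (3) of helper82 (`w = 1`, `|s| ≤ Z`)

`exp (-q Dm) ≤ exp (-q/4) exp (-(q/2) Qm)`, `Qm ≥ AR s²` on `[0, Z]`, `Qm (-v) ≥ AL v²` on `[0, Z]`.
-/

set_option autoImplicit false

namespace SokalCen

open Real MeasureTheory Set

/-- `∫ exp (-(q/2) A s²)` over a half line, times `exp (-q/4)` -/
noncomputable def rs0 (q A : ℝ) : ℝ := exp (-(q / 4)) * (√(2 * π / (q * A)) / 2)

theorem rs0_nonneg (q A : ℝ) : 0 ≤ rs0 q A := by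
  unfold rs0
  positivity

private theorem rs_half {b : ℝ} (hb : 0 < b) :
    ∫⁻ s in Ioi (0 : ℝ), ENNReal.ofReal (exp (-b * s ^ 2)) = ENNReal.ofReal (√(π / b) / 2) := by
  rw [← ofReal_integral_eq_lintegral_ofReal (integrable_exp_neg_mul_sq hb).integrableOn
    (Filter.Eventually.of_forall fun s => (exp_pos _).le), integral_gaussian_Ioi]

private theorem rs_Ici {b : ℝ} (hb : 0 < b) :
    ∫⁻ s in Ici (0 : ℝ), ENNReal.ofReal (exp (-b * s ^ 2)) = ENNReal.ofReal (√(π / b) / 2) := by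
  rw [← rs_half hb]
  exact setLIntegral_congr Ioi_ae_eq_Ici.symm

private theorem rs_Iic {b : ℝ} (hb : 0 < b) :
    ∫⁻ s in Iic (0 : ℝ), ENNReal.ofReal (exp (-b * s ^ 2)) = ENNReal.ofReal (√(π / b) / 2) := by
  rw [← rs_Ici hb]
  have h := (Measure.measurePreserving_neg (volume : Measure ℝ)).setLIntegral_comp_preimage_emb
    (Homeomorph.neg ℝ).isClosedEmbedding.measurableEmbedding
    (fun s => ENNReal.ofReal (exp (-b * s ^ 2))) (Ici 0)
  have hs : (fun x : ℝ => -x) ⁻¹' Ici 0 = Iic 0 := by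
    ext x
    constructor
    · intro hx
      have hx' : 0 ≤ -x := hx
      show x ≤ 0
      linarith
    · intro hx
      have hx' : x ≤ 0 := hx
      show 0 ≤ -x
      linarith
  rw [← h]
  have e : (Neg.neg : ℝ → ℝ) ⁻¹' Ici 0 = Iic 0 := hs
  rw [e]
  refine lintegral_congr fun s => ?_
  rw [neg_sq]

/-- the common part -/
private theorem rs_key {q m ρ θ A C : ℝ} {S T : Set ℝ} (hq : 0 < q) (hρ : 0 < ρ)
    (hm : 5 / 4 * ρ ≤ m) (hA : 0 < A) (mS : MeasurableSet S) (hST : S ⊆ T)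
    (hQ : ∀ s ∈ S, A * s ^ 2 ≤ Qm m ρ s) (hD : ∀ s ∈ S, 6336 / 10000 ≤ 1 - cos (θ + s))
    (hT : ∫⁻ s in T, ENNReal.ofReal (exp (-(q / 2 * A) * s ^ 2)) =
      ENNReal.ofReal (√(π / (q / 2 * A)) / 2)) (hC : 0 ≤ C) (F : ℝ → ℝ) (hF : ∀ s ∈ S, F s ≤ C) :
    ∫⁻ s in S, ENNReal.ofReal (F s * exp (-(q * Dm m ρ θ s))) ≤ ENNReal.ofReal (C * rs0 q A) := by
  have hE : ∀ s ∈ S, exp (-(q * Dm m ρ θ s)) ≤ exp (-(q / 4)) * exp (-(q / 2 * A) * s ^ 2) := by
    intro s hs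
    rw [← exp_add]
    refine exp_le_exp.2 ?_
    have h1 := Dm_half hρ hm (hD s hs)
    have h2 := hQ s hs
    have h3 : Qm m ρ s ≤ Dm m ρ θ s := by
      rw [Dm_eq]
      have h4 := Real.cos_le_one (θ + s)
      have h5 : 0 ≤ exp (pm m s) * (1 - cos (θ + s)) := mul_nonneg (exp_pos _).le (by linarith)
      linarith
    have h4 : q / 2 * (1 / 2) ≤ q / 2 * Dm m ρ θ s := mul_le_mul_of_nonneg_left h1 (by linarith)
    have h5 : q / 2 * (A * s ^ 2) ≤ q / 2 * Dm m ρ θ s :=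
      mul_le_mul_of_nonneg_left (h2.trans h3) (by linarith)
    linarith
  calc ∫⁻ s in S, ENNReal.ofReal (F s * exp (-(q * Dm m ρ θ s)))
      ≤ ∫⁻ s in S, ENNReal.ofReal (C * exp (-(q / 4))) *
          ENNReal.ofReal (exp (-(q / 2 * A) * s ^ 2)) := by
        refine setLIntegral_mono' mS fun s hs => ?_
        rw [← ENNReal.ofReal_mul (by positivity)]
        refine ENNReal.ofReal_le_ofReal ?_
        rw [mul_assoc]
        exact mul_le_mul (hF s hs) (hE s hs) (exp_pos _).le hC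
    _ ≤ ∫⁻ s in T, ENNReal.ofReal (C * exp (-(q / 4))) *
          ENNReal.ofReal (exp (-(q / 2 * A) * s ^ 2)) := lintegral_mono_set hST
    _ = ENNReal.ofReal (C * exp (-(q / 4))) *
          ∫⁻ s in T, ENNReal.ofReal (exp (-(q / 2 * A) * s ^ 2)) :=
        lintegral_const_mul' _ _ ENNReal.ofReal_ne_top
    _ = ENNReal.ofReal (C * rs0 q A) := by
        rw [hT, ← ENNReal.ofReal_mul (by positivity)]
        congr 1
        unfold rs0
        have e : π / (q / 2 * A) = 2 * π / (q * A) := by field_simp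
        rw [e]
        ring

/-- REST, the part `0 ≤ s ≤ Z`. -/
theorem rest_R {q m ρ θ Z : ℝ} {S : Set ℝ} (hq : 0 < q) (hρ : 0 < ρ) (hm : 5 / 4 * ρ ≤ m)
    (hZ : 0 < Z) (mS : MeasurableSet S) (hS : ∀ s ∈ S, 0 ≤ s ∧ s ≤ Z)
    (hD : ∀ s ∈ S, 6336 / 10000 ≤ 1 - cos (θ + s)) :
    Zone q m ρ θ 1 S (rs0 q (AR m ρ Z)) (14 * rs0 q (AR m ρ Z)) (exp 1 * rs0 q (AR m ρ Z)) := by
  have hρm : ρ ≤ m := by linarith
  have hA := AR_pos hρ hρm hZ
  have key := fun C hC F hF => rs_key (C := C) hq hρ hm hA mS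
    (T := Ici 0) (fun s hs => (hS s hs).1) (fun s hs => Qm_AR hρ hρm (hS s hs).1 (hS s hs).2 hZ) hD
    (rs_Ici (by positivity)) hC F hF
  have he : ∀ s, exp (pm m s) ≤ exp 1 := fun s => exp_le_exp.2 (abs_le.1 (pm_mem m s)).2
  refine ⟨?_, ?_, ?_⟩
  · have h := key 1 zero_le_one (fun _ => 1) fun _ _ => le_rfl
    simpa only [one_mul] using h
  · refine key 14 (by norm_num) (fun s => Wm m θ 1 s) fun s _ => ?_
    unfold Wm
    have h1 : ‖em m θ s - 1‖ ≤ 272 / 100 + 1 := by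
      refine (norm_sub_le _ _).trans (add_le_add ?_ (le_of_eq norm_one))
      rw [norm_em]
      have := Real.exp_one_lt_d9
      linarith [he s]
    have h2 := pow_le_pow_left₀ (norm_nonneg (em m θ s - 1)) h1 2
    refine h2.trans (by norm_num)
  · exact key (exp 1) (exp_pos _).le (fun s => exp (pm m s)) fun s _ => he s

/-- REST, the part `-Z ≤ s ≤ 0`. -/
theorem rest_L {q m ρ θ Z : ℝ} {S : Set ℝ} (hq : 0 < q) (hρ : 0 < ρ) (hm : 5 / 4 * ρ ≤ m)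
    (hZ : 0 < Z) (mS : MeasurableSet S) (hS : ∀ s ∈ S, -Z ≤ s ∧ s ≤ 0)
    (hD : ∀ s ∈ S, 6336 / 10000 ≤ 1 - cos (θ + s)) :
    Zone q m ρ θ 1 S (rs0 q (AL m ρ Z)) (5 * rs0 q (AL m ρ Z)) (1 * rs0 q (AL m ρ Z)) := by
  have hρm : ρ ≤ m := by linarith
  have hm0 : 0 < m := hρ.trans_le hρm
  have hA := AL_pos hρ hρm hZ
  have hQ : ∀ s ∈ S, AL m ρ Z * s ^ 2 ≤ Qm m ρ s := by
    intro s hs
    have h := Qm_AL hρ hρm (by linarith [(hS s hs).2] : 0 ≤ -s) (by linarith [(hS s hs).1]) hZ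
    rwa [neg_neg, neg_sq] at h
  have key := fun C hC F hF => rs_key (C := C) hq hρ hm hA mS
    (T := Iic 0) (fun s hs => (hS s hs).2) hQ hD (rs_Iic (by positivity)) hC F hF
  have he : ∀ s ∈ S, exp (pm m s) ≤ 1 := fun s hs => exp_le_one_iff.2 (pm_nonpos hm0 (hS s hs).2)
  refine ⟨?_, ?_, ?_⟩
  · have h := key 1 zero_le_one (fun _ => 1) fun _ _ => le_rfl
    simpa only [one_mul] using h
  · refine key 5 (by norm_num) (fun s => Wm m θ 1 s) fun s hs => ?_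
    unfold Wm
    have h1 : ‖em m θ s - 1‖ ≤ 1 + 1 := by
      refine (norm_sub_le _ _).trans (add_le_add ?_ (le_of_eq norm_one))
      rw [norm_em]
      exact he s hs
    have h2 := pow_le_pow_left₀ (norm_nonneg (em m θ s - 1)) h1 2
    refine h2.trans (by norm_num)
  · exact key 1 zero_le_one (fun s => exp (pm m s)) he

/-- REST, both parts together: `|s| ≤ Z`. -/
theorem rest_all {q m ρ θ Z : ℝ} {S : Set ℝ} (hq : 0 < q) (hρ : 0 < ρ) (hm : 5 / 4 * ρ ≤ m)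
    (hZ : 0 < Z) (mS : MeasurableSet S) (hS : ∀ s ∈ S, -Z ≤ s ∧ s ≤ Z)
    (hD : ∀ s ∈ S, 6336 / 10000 ≤ 1 - cos (θ + s)) :
    Zone q m ρ θ 1 S (rs0 q (AR m ρ Z) + rs0 q (AL m ρ Z))
      (14 * rs0 q (AR m ρ Z) + 5 * rs0 q (AL m ρ Z))
      (exp 1 * rs0 q (AR m ρ Z) + 1 * rs0 q (AL m ρ Z)) := by
  have h1 := rest_R hq hρ hm hZ (mS.inter measurableSet_Ici) (S := S ∩ Ici 0)
    (fun s hs => ⟨hs.2, (hS s hs.1).2⟩) fun s hs => hD s hs.1
  have h2 := rest_L hq hρ hm hZ (mS.inter measurableSet_Iic) (S := S ∩ Iic 0)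
    (fun s hs => ⟨(hS s hs.1).1, hs.2⟩) fun s hs => hD s hs.1
  have n1 := rs0_nonneg q (AR m ρ Z)
  have n2 := rs0_nonneg q (AL m ρ Z)
  have n3 := exp_pos (1 : ℝ)
  refine (h1.union h2 n1 (by positivity) (by positivity) n2 (by positivity)
    (by positivity)).subset fun s hs => ?_
  rcases le_total 0 s with h | h
  · exact Or.inl ⟨hs, h⟩
  · exact Or.inr ⟨hs, h⟩

end SokalCen
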