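import Pool.Agent.Lib_MP_af4de1_v3.CenF

/-! # CEN zone 1, left (main): `v = -s ∈ [0,t]`, `u = t - v ≤ 6/5`.
`Dm ≥ AL v² + B u² - l` (`Qm_AL`, `Lft`, `Win`), `W ≤ v²/m² + u²` (base point `w = 1`). -/

set_option autoImplicit false

namespace SokalCen

open Real MeasureTheory Set

theorem Icc_sub_SmL (t : ℝ) : Icc (-t) (min 0 (6 / 5 - t)) ⊆ SmL t := by
  intro s hs
  have h1 := hs.2.trans (min_le_left _ _)
  have h2 := hs.2.trans (min_le_right _ _)
  exact ⟨hs.1, h1, by linarith⟩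

theorem Z1L1 {q m ρ t β B l : ℝ} (hq : 0 < q) (hρ : 0 < ρ) (hm : ρ ≤ m) (ht : 0 < t)
    (hW : Win β t) (hL : Lft m t β B l) :
    Zone q m ρ t 1 (Icc (-t) (min 0 (6 / 5 - t))) (g0 q (AL m ρ t) B t l)
      (gW q (AL m ρ t) B t l 0 (1 / m ^ 2) 1) (g0 q (AL m ρ t) B t l) := by
  have h := (zmain_L hq hρ hm ht hW hL).subset (Icc_sub_SmL t)
  rwa [one_mul] at h

/-- the same with the exact moments over the line -/
theorem Z1L1' {q m ρ t β B l : ℝ} (hq : 0 < q) (hρ : 0 < ρ) (hm : ρ ≤ m) (ht : 0 < t)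
    (hW : Win β t) (hL : Lft m t β B l) :
    Zone q m ρ t 1 (Icc (-t) (min 0 (6 / 5 - t))) (gF q (AL m ρ t) B t l 1 0 0)
      (gF q (AL m ρ t) B t l 0 (1 / m ^ 2) 1) (gF q (AL m ρ t) B t l 1 0 0) := by
  have h := (zmain_L' hq hρ hm ht hW hL).subset (Icc_sub_SmL t)
  rwa [one_mul] at h

/-- general direction -/
theorem Z1L {q m ρ t y ψ β B l K2 : ℝ} (hq : 0 < q) (hρ : 0 < ρ) (hm : ρ ≤ m) (ht : 0 < t)
    (hy : 0 ≤ y) (hψ : 0 ≤ ψ) (hW : Win β t) (hL : Lft m t β B l) (hK : y ^ 2 + ψ ^ 2 ≤ K2) :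
    Zone q m ρ t (ww (-y) ψ) (Icc (-t) (min 0 (6 / 5 - t))) (g0 q (AL m ρ t) B t l)
      (gW q (AL m ρ t) B t l K2 (1 / m ^ 2) 1) (g0 q (AL m ρ t) B t l) := by
  have hm0 : 0 < m := hρ.trans_le hm
  have hS : MeasurableSet (Icc (-t) (min 0 (6 / 5 - t))) := measurableSet_Icc
  have h := zmain_of_L (l := l) (a0 := K2) (a1 := 1 / m ^ 2) (a2 := 1) (ee := 1) (w := ww (-y) ψ)
    hq (AL_pos hρ hm ht) hL.1 ht.le hS
    (fun s hs => ⟨hs.1, hs.2.trans (min_le_left _ _)⟩)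
    (fun s hs => Dm_main_L hρ hm ht hW hL (Icc_sub_SmL t hs)) (by nlinarith) (by positivity)
    zero_le_one (fun s hs => ?_) zero_le_one
    fun s hs => exp_le_one_iff.2 (pm_nonpos hm0 (hs.2.trans (min_le_left _ _)))
  · rwa [one_mul] at h
  · have hs0 : s ≤ 0 := hs.2.trans (min_le_left _ _)
    have hu : 0 ≤ t + s := by linarith [hs.1]
    rw [Wm_eq]
    have hp0 : pm m s ≤ 0 := pm_nonpos hm0 hs0
    have hp := pm_ge hm0 (neg_nonneg.2 hs0)
    rw [neg_neg, neg_div, neg_neg] at hp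
    -- the radial part
    have h1 : (exp (pm m s) - exp (-y)) ^ 2 ≤ (s / m) ^ 2 + y ^ 2 := by
      have a1 := add_one_le_exp (pm m s)
      have a2 := add_one_le_exp (-y)
      have a3 : exp (pm m s) ≤ 1 := exp_le_one_iff.2 hp0
      have a4 : exp (-y) ≤ 1 := exp_le_one_iff.2 (by linarith)
      have a5 : s / m ≤ 0 := div_nonpos_of_nonpos_of_nonneg hs0 hm0.le
      have b1 : exp (pm m s) - exp (-y) ≤ y := by linarith
      have b2 : s / m ≤ exp (pm m s) - exp (-y) := by linarith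
      rcases le_total 0 (exp (pm m s) - exp (-y)) with h | h
      · nlinarith [sq_nonneg (s / m)]
      · nlinarith [sq_nonneg y]
    -- the angular part
    have h2 : 2 * exp (pm m s + -y) * (1 - cos (t + s - ψ)) ≤ (t + s) ^ 2 + ψ ^ 2 := by
      have a1 : exp (pm m s + -y) ≤ 1 := exp_le_one_iff.2 (by linarith)
      have a2 := one_sub_cos_le (t + s - ψ)
      have a3 : 0 ≤ 1 - cos (t + s - ψ) := by linarith [cos_le_one (t + s - ψ)]
      have a4 : (t + s - ψ) ^ 2 ≤ (t + s) ^ 2 + ψ ^ 2 := by nlinarith [mul_nonneg hu hψ]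
      nlinarith
    have e : 1 / m ^ 2 * s ^ 2 = (s / m) ^ 2 := by
      field_simp
    rw [e]
    linarith

end SokalCen
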