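import Pool.Agent.Lib_MP_af4de1_v3.CenF

/-! # CEN zone 1, right (main): `s ∈ [0,t]`, `u = t - s ≤ 6/5`, `T = cT m t`.
`Dm ≥ AR s² + β u²` (`Qm_AR`, `Win`, `e^a ≥ 1`),
`W ≤ (e^a - 1)² + (e^n - 1)² + e^(a+n) (u² + p²)`, `e^a - 1 ≤ e1c m t * s/m`. -/

set_option autoImplicit false

namespace SokalCen

open Real MeasureTheory Set

theorem eS_cT (m t : ℝ) : eS (cT m t) = e1c m t := rfl

theorem Icc_sub_SmR (t : ℝ) : Icc (max 0 (t - 6 / 5)) t ⊆ SmR t := by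
  intro s hs
  have h1 := (le_max_left 0 (t - 6 / 5)).trans hs.1
  have h2 := (le_max_right 0 (t - 6 / 5)).trans hs.1
  exact ⟨h1, hs.2, by linarith⟩

theorem Z1R1 {q m ρ t β : ℝ} (hq : 0 < q) (hρ : 0 < ρ) (hm : ρ ≤ m) (ht : 0 < t)
    (hW : Win β t) :
    Zone q m ρ (-t) 1 (Icc (max 0 (t - 6 / 5)) t) (g0 q (AR m ρ t) β t 0)
      (gW q (AR m ρ t) β t 0 0 (e1c m t ^ 2 / m ^ 2) (exp (cT m t)))
      (exp (cT m t) * g0 q (AR m ρ t) β t 0) :=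
  (zmain_R hq hρ hm ht hW).subset (Icc_sub_SmR t)

/-- the same with the exact moments over the line -/
theorem Z1R1' {q m ρ t β : ℝ} (hq : 0 < q) (hρ : 0 < ρ) (hm : ρ ≤ m) (ht : 0 < t)
    (hW : Win β t) :
    Zone q m ρ (-t) 1 (Icc (max 0 (t - 6 / 5)) t) (gF q (AR m ρ t) β t 0 1 0 0)
      (gF q (AR m ρ t) β t 0 0 (e1c m t ^ 2 / m ^ 2) (exp (cT m t)))
      (exp (cT m t) * gF q (AR m ρ t) β t 0 1 0 0) :=
  (zmain_R' hq hρ hm ht hW).subset (Icc_sub_SmR t)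

/-- general direction -/
theorem Z1R {q m ρ t n p β : ℝ} (hq : 0 < q) (hρ : 0 < ρ) (hm : ρ ≤ m) (ht : 0 < t)
    (hn : 0 ≤ n) (hp : 0 ≤ p) (hW : Win β t) :
    Zone q m ρ (-t) (ww n (-p)) (Icc (max 0 (t - 6 / 5)) t) (g0 q (AR m ρ t) β t 0)
      (gW q (AR m ρ t) β t 0 ((exp n - 1) ^ 2 + exp (cT m t + n) * p ^ 2) (e1c m t ^ 2 / m ^ 2)
        (exp (cT m t + n))) (exp (cT m t) * g0 q (AR m ρ t) β t 0) := by
  have hm0 : 0 < m := hρ.trans_le hm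
  have hT : 0 < cT m t := lt_min one_pos (div_pos ht hm0)
  have hS : MeasurableSet (Icc (max 0 (t - 6 / 5)) t) := measurableSet_Icc
  refine zmain_of_R hq (AR_pos hρ hm ht) hW.1 ht.le hS
    (fun s hs => ⟨(Icc_sub_SmR t hs).1, hs.2⟩) (fun s hs => Dm_main_R hρ hm ht hW (Icc_sub_SmR t hs))
    (by positivity) (by positivity) (exp_pos _).le (fun s hs => ?_) (exp_pos _).le
    fun s hs => exp_le_exp.2 (pm_le_cT hm0 (Icc_sub_SmR t hs).1 hs.2)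
  obtain ⟨h0, h1, h2⟩ := Icc_sub_SmR t hs
  rw [Wm_eq]
  have hp0 : 0 ≤ pm m s := pm_nonneg hm0 h0
  have hp1 := pm_le hm0 h0
  have hpT := pm_le_cT hm0 h0 h1
  have hSl := eS_ge hp0 hpT hT
  have hSn := eS_nonneg hT
  have he1 : 1 ≤ exp (pm m s) := one_le_exp hp0
  have hn1 : 1 ≤ exp n := one_le_exp hn
  have hu : 0 ≤ t - s := by linarith
  have b1 : (exp (pm m s) - exp n) ^ 2 ≤ (exp (pm m s) - 1) ^ 2 + (exp n - 1) ^ 2 := by
    nlinarith [mul_nonneg (sub_nonneg.2 he1) (sub_nonneg.2 hn1)]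
  have b2 : (exp (pm m s) - 1) ^ 2 ≤ (eS (cT m t) * (s / m)) ^ 2 :=
    pow_le_pow_left₀ (by linarith) (hSl.trans (mul_le_mul_of_nonneg_left hp1 hSn)) 2
  have b3 : 2 * exp (pm m s + n) * (1 - cos (-t + s - -p)) ≤
      exp (cT m t + n) * ((t - s) ^ 2 + p ^ 2) := by
    have a1 : exp (pm m s + n) ≤ exp (cT m t + n) := exp_le_exp.2 (by linarith)
    have a2 := one_sub_cos_le (-t + s - -p)
    have a3 : 0 ≤ 1 - cos (-t + s - -p) := by linarith [cos_le_one (-t + s - -p)]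
    have a4 : (-t + s - -p) ^ 2 ≤ (t - s) ^ 2 + p ^ 2 := by nlinarith [mul_nonneg hu hp]
    have a5 := exp_pos (pm m s + n)
    calc 2 * exp (pm m s + n) * (1 - cos (-t + s - -p))
        = exp (pm m s + n) * (2 * (1 - cos (-t + s - -p))) := by ring
      _ ≤ exp (cT m t + n) * ((t - s) ^ 2 + p ^ 2) :=
          mul_le_mul a1 (a2.trans a4) (by linarith) (exp_pos _).le
  have e : e1c m t ^ 2 / m ^ 2 * s ^ 2 = (eS (cT m t) * (s / m)) ^ 2 := by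
    rw [eS_cT]
    field_simp
  rw [e]
  nlinarith [b1, b2, b3]

end SokalCen
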