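import Pool.Agent.Lib_MP_af4de1_v3.CenZ
import Pool.Agent.Lib_MP_af4de1_v3.CenHalf

/-! # CEN: far tails. `Dm ≥ Qm ≥ A S |s|` for `|s| ≥ S` (rays, `Qm_AR`, `Qm_AL`), `W ≤ (e + 17/10)² ≤ 20`. -/

set_option autoImplicit false

namespace SokalCen

open Real MeasureTheory Set

private theorem zf_e (m s : ℝ) : exp (pm m s) ≤ 272 / 100 := by
  have h1 := (abs_le.1 (pm_mem m s)).2
  have h2 := exp_le_exp.2 h1
  have h3 := Real.exp_one_lt_d9
  linarith

private theorem zf_W (m θ s : ℝ) {w : ℂ} (hw : ‖w‖ ≤ 17 / 10) : Wm m θ w s ≤ 20 := by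
  unfold Wm
  have h1 : ‖em m θ s - w‖ ≤ 272 / 100 + 17 / 10 := by
    refine (norm_sub_le _ _).trans (add_le_add ?_ hw)
    rw [norm_em]
    exact zf_e m s
  have h2 := pow_le_pow_left₀ (norm_nonneg (em m θ s - w)) h1 2
  exact h2.trans (by norm_num)

private theorem zf_D {m ρ θ s x : ℝ} (h : x ≤ Qm m ρ s) : x ≤ Dm m ρ θ s := by
  rw [Dm_eq]
  have h4 := Real.cos_le_one (θ + s)
  have h5 : 0 ≤ exp (pm m s) * (1 - cos (θ + s)) := mul_nonneg (exp_pos _).le (by linarith)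
  linarith

private theorem zf_conv {q m ρ θ A S : ℝ} {w : ℂ} {X : Set ℝ}
    (h : Zone q m ρ θ w X (exp (-(q * (A * S ^ 2))) * (1 / (q * (A * S))))
      (exp (-(q * (A * S ^ 2))) * (20 / (q * (A * S)) + 0 / (q * (A * S)) ^ 2 +
        0 * (2 / (q * (A * S)) ^ 3))) (3 * (exp (-(q * (A * S ^ 2))) * (1 / (q * (A * S)))))) :
    Zone q m ρ θ w X (fa0 q A S) (20 * fa0 q A S) (3 * fa0 q A S) := by
  refine h.mono (le_of_eq ?_) (le_of_eq ?_) (le_of_eq ?_)
  · unfold fa0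
    ring
  · unfold fa0
    ring
  · unfold fa0
    ring

theorem ZfR {q m ρ S θ : ℝ} {w : ℂ} (hq : 0 < q) (hρ : 0 < ρ) (hm : ρ ≤ m) (hS : 0 < S)
    (hw : ‖w‖ ≤ 17 / 10) : Zone q m ρ θ w (Ici S) (fa0 q (AR m ρ S) S)
      (20 * fa0 q (AR m ρ S) S) (3 * fa0 q (AR m ρ S) S) := by
  have hA := AR_pos hρ hm hS
  refine zf_conv (Zone.ray_above (c := S) measurableSet_Ici hq (by positivity) (by norm_num) le_rfl le_rfl
    (by norm_num) (fun s hs => hs) (fun s hs => ?_) (fun s hs => ?_)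
    fun s _ => (zf_e m s).trans (by norm_num))
  · have h1 := Qm_beh_R (z := s - S) hρ hm hS (by linarith [mem_Ici.1 hs])
    have e : S + (s - S) = s := by ring
    rw [e] at h1
    exact zf_D h1
  · have := zf_W m θ s hw
    linarith

theorem ZfL {q m ρ S θ : ℝ} {w : ℂ} (hq : 0 < q) (hρ : 0 < ρ) (hm : ρ ≤ m) (hS : 0 < S)
    (hw : ‖w‖ ≤ 17 / 10) : Zone q m ρ θ w (Iic (-S)) (fa0 q (AL m ρ S) S)
      (20 * fa0 q (AL m ρ S) S) (3 * fa0 q (AL m ρ S) S) := by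
  have hA := AL_pos hρ hm hS
  refine zf_conv (Zone.ray_below (c := -S) measurableSet_Iic hq (by positivity) (by norm_num) le_rfl le_rfl
    (by norm_num) (fun s hs => hs) (fun s hs => ?_) (fun s hs => ?_)
    fun s _ => (zf_e m s).trans (by norm_num))
  · have h1 := Qm_beh_L (z := -S - s) hρ hm hS (by linarith [mem_Iic.1 hs])
    have e : -(S + (-S - s)) = s := by ring
    rw [e] at h1
    exact zf_D h1
  · have := zf_W m θ s hw
    linarith

end SokalCen
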