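import Pool.Agent.Lib_MP_af4de1_v3.CenCov
import Pool.Agent.Lib_MP_af4de1_v3.CenZ1L
import Pool.Agent.Lib_MP_af4de1_v3.CenZ1R
import Pool.Agent.Lib_MP_af4de1_v3.CenBehL
import Pool.Agent.Lib_MP_af4de1_v3.CenFront
import Pool.Agent.Lib_MP_af4de1_v3.CenZ5
import Pool.Agent.Lib_MP_af4de1_v3.CenZ6
import Pool.Agent.Lib_MP_af4de1_v3.CenPy
import Pool.Agent.Lib_MP_af4de1_v3.CenSum

/-!
# CEN: the total of the zones, left side (`θ = t`, `0 < t ≤ π`, base point `w = 1`)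

Triples `(I0, IW, Ie)`.  `zoneL` : the zone over `univ` is the sum of `tmL` (main), `tbL` (behind), `tfL` (front,
only for `t ≤ 6/5`), `tiL`, `tjL` (image at `t' = 2π - t`, main part and behind), `trL` (rest), `tgL` (far).
`shf_total` : from a zone over `univ` with `w = 1` to `Shf`, triangle inequality in `L²`.
-/

set_option autoImplicit false

namespace SokalCen

open Real MeasureTheory Set

/-! ## triples -/

/-- a zone with a nonnegative triple -/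
def Zn (q m ρ θ : ℝ) (w : ℂ) (S : Set ℝ) (v : ℝ × ℝ × ℝ) : Prop :=
  (0 ≤ v.1 ∧ 0 ≤ v.2.1 ∧ 0 ≤ v.2.2) ∧ Zone q m ρ θ w S v.1 v.2.1 v.2.2

theorem Zn.add {q m ρ θ : ℝ} {w : ℂ} {S T : Set ℝ} {v u : ℝ × ℝ × ℝ} (h : Zn q m ρ θ w S v)
    (h' : Zn q m ρ θ w T u) : Zn q m ρ θ w (S ∪ T) (v + u) := by
  obtain ⟨⟨a0, a1, a2⟩, hz⟩ := h
  obtain ⟨⟨b0, b1, b2⟩, hz'⟩ := h'
  exact ⟨⟨add_nonneg a0 b0, add_nonneg a1 b1, add_nonneg a2 b2⟩, hz.union hz' a0 a1 a2 b0 b1 b2⟩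

theorem Zn.sub {q m ρ θ : ℝ} {w : ℂ} {S T : Set ℝ} {v : ℝ × ℝ × ℝ} (h : Zn q m ρ θ w T v)
    (hS : S ⊆ T) : Zn q m ρ θ w S v := ⟨h.1, h.2.subset hS⟩

theorem Zn.empty (q m ρ θ : ℝ) (w : ℂ) : Zn q m ρ θ w ∅ 0 := by
  refine ⟨⟨le_rfl, le_rfl, le_rfl⟩, ?_, ?_, ?_⟩ <;> simp

theorem Zn.period {q m ρ θ : ℝ} {w : ℂ} {S : Set ℝ} {v : ℝ × ℝ × ℝ}
    (h : Zn q m ρ (θ - 2 * π) w S v) : Zn q m ρ θ w S v := ⟨h.1, zone_period h.2⟩

/-- THE COVER, left: any zones over the eight sets give a zone over the line. -/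
theorem sumL {q m ρ t : ℝ} {w : ℂ} (h0 : 0 < t) (h1 : t ≤ π) {v1 v2 v3 v4 v5 v6 v7 v8 : ℝ × ℝ × ℝ}
    (z1 : Zn q m ρ t w (Icc (-t) (min 0 (6 / 5 - t))) v1)
    (z2 : Zn q m ρ t w (Icc (-(t + 6 / 5)) (-t)) v2)
    (z3 : Zn q m ρ t w (Icc 0 (6 / 5 - t)) v3)
    (z4 : Zn q m ρ t w (Icc (max 0 (2 * π - t - 6 / 5)) (2 * π - t)) v4)
    (z5 : Zn q m ρ t w (Icc (2 * π - t) (2 * π - t + 6 / 5)) v5)
    (z6 : Zn q m ρ t w {s | 6336 / 10000 ≤ 1 - cos (t + s)} v6)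
    (z7 : Zn q m ρ t w (Ici (2 * π - t + 5)) v7)
    (z8 : Zn q m ρ t w (Iic (-(t + 5))) v8) :
    Zn q m ρ t w univ (v1 + v2 + v3 + v4 + v5 + v6 + v7 + v8) := by
  refine (((((((z1.add z2).add z3).add z4).add z5).add z6).add z7).add z8).sub fun s _ => ?_
  simp only [mem_union]
  rcases cover_L h0 h1 s with h | h | h | h | h | h | h | h
  · tauto
  · tauto
  · tauto
  · tauto
  · tauto
  · tauto
  · tauto
  · have : s ∈ {s | 6336 / 10000 ≤ 1 - cos (t + s)} := h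
    tauto

/-! ## the closed forms -/

/-- main -/
noncomputable def tmL (q m ρ t B l : ℝ) : ℝ × ℝ × ℝ :=
  (gF q (AL m ρ t) B t l 1 0 0, gF q (AL m ρ t) B t l 0 (1 / m ^ 2) 1, gF q (AL m ρ t) B t l 1 0 0)

/-- main, truncated at `t` -/
noncomputable def tmL' (q m ρ t B l : ℝ) : ℝ × ℝ × ℝ :=
  (g0 q (AL m ρ t) B t l, gW q (AL m ρ t) B t l 0 (1 / m ^ 2) 1, g0 q (AL m ρ t) B t l)

/-- behind -/
noncomputable def tbL (q m ρ t : ℝ) : ℝ × ℝ × ℝ :=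
  (bH0 q m ρ t, (t ^ 2 * bH0 q m ρ t + 2 * t * bH1 q m ρ t + bH2 q m ρ t) / m ^ 2 + bH2 q m ρ t,
    bH0 q m ρ t)

/-- front, `t ≤ 6/5` -/
noncomputable def tfL (q m ρ t : ℝ) : ℝ × ℝ × ℝ :=
  if t ≤ 6 / 5 then
    (exp (-(q * (1 - cos t))) * (√(π / (q * aR m ρ 1)) / 2),
      exp (-(q * (1 - cos t))) * (t ^ 2 * (√(π / (q * aR m ρ 1)) / 2) +
        2 * t * h1 (q * aR m ρ 1) + (1 + 9 / (8 * m ^ 2)) * h2 (q * aR m ρ 1)),
      exp (-(q * (1 - cos t))) * (√(π / (q * aR m ρ 1)) / 2))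
  else 0

/-- image, main part: the right main zone at `t'` -/
noncomputable def tiL (q m ρ t' : ℝ) : ℝ × ℝ × ℝ :=
  (g0 q (AR m ρ t') (11 / 25) t' 0,
    gW q (AR m ρ t') (11 / 25) t' 0 0 (e1c m t' ^ 2 / m ^ 2) (exp (cT m t')),
    exp (cT m t') * g0 q (AR m ρ t') (11 / 25) t' 0)

/-- slope behind, right -/
noncomputable def jb (q m ρ t : ℝ) : ℝ := q * (AR m ρ t * t)
/-- curvature behind, right -/
noncomputable def jB (q m t : ℝ) : ℝ := q * (11 / 25 * exp (cT m t))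
/-- `I0` behind, right -/
noncomputable def j0 (q m ρ t : ℝ) : ℝ :=
  exp (-(q * (AR m ρ t * t ^ 2))) * h0 (jb q m ρ t) (jB q m t)

/-- image, behind: the right zone behind at `t'` -/
noncomputable def tjL (q m ρ t' : ℝ) : ℝ × ℝ × ℝ :=
  (j0 q m ρ t',
    exp (-(q * (AR m ρ t' * t' ^ 2))) * ((e1c m (t' + 6 / 5) / m) ^ 2 *
      (t' ^ 2 * h0 (jb q m ρ t') (jB q m t') + 2 * t' * h1 (jB q m t') + h2 (jB q m t')) +
      exp (cT m (t' + 6 / 5)) * h2 (jB q m t')),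
    exp (cT m (t' + 6 / 5)) * j0 q m ρ t')

/-- rest -/
noncomputable def trL (q m ρ ε : ℝ) : ℝ × ℝ × ℝ :=
  (re0 q m ρ ε, 20 * re0 q m ρ ε, 3 * re0 q m ρ ε)

/-- far, right end -/
noncomputable def tgR (q m ρ S : ℝ) : ℝ × ℝ × ℝ :=
  (fa0 q (AR m ρ S) S, 20 * fa0 q (AR m ρ S) S, 3 * fa0 q (AR m ρ S) S)

/-- far, left end -/
noncomputable def tgL (q m ρ S : ℝ) : ℝ × ℝ × ℝ :=
  (fa0 q (AL m ρ S) S, 20 * fa0 q (AL m ρ S) S, 3 * fa0 q (AL m ρ S) S)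

/-- the total, left -/
noncomputable def TL (q m ρ t B l ε : ℝ) : ℝ × ℝ × ℝ :=
  tmL q m ρ t B l + tbL q m ρ t + tfL q m ρ t + tiL q m ρ (2 * π - t) + tjL q m ρ (2 * π - t) +
    trL q m ρ ε + tgR q m ρ (2 * π - t + 5) + tgL q m ρ (t + 5)

/-! ## nonnegativity -/

theorem gG_nonneg (q A B : ℝ) : 0 ≤ gG q A B := Real.sqrt_nonneg _

theorem gs_nonneg {q A B : ℝ} (hq : 0 < q) (hA : 0 < A) (hB : 0 < B) : 0 ≤ gs q A B := by
  unfold gs
  positivity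

theorem gF_nonneg {q A B t l a0 a1 a2 : ℝ} (hq : 0 < q) (hA : 0 < A) (hB : 0 < B) (h0 : 0 ≤ a0)
    (h1 : 0 ≤ a1) (h2 : 0 ≤ a2) : 0 ≤ gF q A B t l a0 a1 a2 := by
  have := gG_nonneg q A B
  have := gs_nonneg hq hA hB
  unfold gF
  positivity

theorem gr_nonneg {q A B t : ℝ} (hA : 0 < A) (hB : 0 < B) (ht : 0 ≤ t) : 0 ≤ gr q A B t := by
  have := gG_nonneg q A B
  have := gv_le hA hB ht
  unfold gr
  exact le_min (by positivity) (by linarith)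

theorem g0_nonneg {q A B t l : ℝ} (hA : 0 < A) (hB : 0 < B) (ht : 0 ≤ t) : 0 ≤ g0 q A B t l := by
  have := gG_nonneg q A B
  have := gr_nonneg (q := q) hA hB ht
  unfold g0
  positivity

theorem gW_nonneg {q A B t l a0 a1 a2 : ℝ} (hq : 0 < q) (hA : 0 < A) (hB : 0 < B) (ht : 0 ≤ t)
    (h0 : 0 ≤ a0) (h1 : 0 ≤ a1) (h2 : 0 ≤ a2) : 0 ≤ gW q A B t l a0 a1 a2 := by
  have hG := gG_nonneg q A B
  have hs := gs_nonneg hq hA hB
  have hr := gr_nonneg (q := q) hA hB ht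
  have hv := gv_le hA hB ht
  have hv' : 0 ≤ t - gv A B t := by linarith
  unfold gW
  refine mul_nonneg (le_min ?_ ?_) (exp_pos _).le
  · positivity
  · positivity

theorem fa0_nonneg {q A S : ℝ} (hq : 0 < q) (hA : 0 < A) (hS : 0 < S) : 0 ≤ fa0 q A S := by
  unfold fa0
  positivity

theorem re0_nonneg {q m ρ ε : ℝ} (hq : 0 < q) (hρ : 0 < ρ) (hm : ρ ≤ m) (hε : 0 < ε) :
    0 ≤ re0 q m ρ ε := by
  have hm0 : 0 < m := hρ.trans_le hm
  have : 0 < laR q m ρ ε := by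
    unfold laR
    positivity
  unfold re0
  positivity

/-! ## the zones -/

section zones

variable {q m ρ t : ℝ} (hq : 0 < q) (hρ : 0 < ρ) (hm : ρ ≤ m)
include hq hρ hm

theorem zn_main {β B l : ℝ} (ht : 0 < t) (hW : Win β t) (hL : Lft m t β B l) :
    Zn q m ρ t 1 (Icc (-t) (min 0 (6 / 5 - t))) (tmL q m ρ t B l) := by
  have hA := AL_pos hρ hm ht
  exact ⟨⟨gF_nonneg hq hA hL.1 zero_le_one le_rfl le_rfl,
    gF_nonneg hq hA hL.1 le_rfl (by positivity) zero_le_one,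
    gF_nonneg hq hA hL.1 zero_le_one le_rfl le_rfl⟩, Z1L1' hq hρ hm ht hW hL⟩

theorem zn_main' {β B l : ℝ} (ht : 0 < t) (hW : Win β t) (hL : Lft m t β B l) :
    Zn q m ρ t 1 (Icc (-t) (min 0 (6 / 5 - t))) (tmL' q m ρ t B l) := by
  have hA := AL_pos hρ hm ht
  exact ⟨⟨g0_nonneg hA hL.1 ht.le, gW_nonneg hq hA hL.1 ht.le le_rfl (by positivity) zero_le_one,
    g0_nonneg hA hL.1 ht.le⟩, Z1L1 hq hρ hm ht hW hL⟩

theorem zn_beh (ht : 0 ≤ t) : Zn q m ρ t 1 (Icc (-(t + 6 / 5)) (-t)) (tbL q m ρ t) := by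
  have hm0 : 0 < m := hρ.trans_le hm
  have hB := bB_pos hρ hm ht
  have e : -(t + 6 / 5) = -t - 6 / 5 := by ring
  have n0 : 0 ≤ bH0 q m ρ t := by
    unfold bH0
    positivity
  have n1 : 0 ≤ bH1 q m ρ t := by
    unfold bH1
    positivity
  have n2 : 0 ≤ bH2 q m ρ t := by
    unfold bH2
    positivity
  rw [e]
  exact ⟨⟨n0, by unfold tbL; positivity, n0⟩, zone_behind_L' hq hρ hm ht⟩

theorem zn_front (hm1 : 5 / 4 ≤ m) (ht : 0 < t) (hs : t ≤ 6 / 5 → 1 ≤ q * m * sin t) :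
    Zn q m ρ t 1 (Icc 0 (6 / 5 - t)) (tfL q m ρ t) := by
  have hA := aR_pos (T := 1) hρ hm (by norm_num) le_rfl
  have hB : 0 < q * aR m ρ 1 := mul_pos hq hA
  have hm0 : 0 < m := hρ.trans_le hm
  unfold tfL
  by_cases h : t ≤ 6 / 5
  · rw [if_pos h]
    have n1 := h1_nonneg hB
    have n2 := h2_nonneg hB
    refine ⟨⟨by positivity, by positivity, by positivity⟩, ?_⟩
    have hl : h0 (frL q m t) (q * aR m ρ 1) ≤ √(π / (q * aR m ρ 1)) / 2 := min_le_left _ _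
    have he := exp_pos (-(q * (1 - cos t)))
    refine (zone_front_L hq hρ hm hm1 ht h (hs h)).mono ?_ ?_ ?_
    · exact mul_le_mul_of_nonneg_left hl he.le
    · refine mul_le_mul_of_nonneg_left ?_ he.le
      have := mul_le_mul_of_nonneg_left hl (sq_nonneg t)
      linarith
    · exact mul_le_mul_of_nonneg_left hl he.le
  · rw [if_neg h, Icc_eq_empty (by push Not at h ⊢; linarith)]
    exact Zn.empty q m ρ t 1

theorem zn_img (ht : t ≤ π) :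
    Zn q m ρ t 1 (Icc (max 0 (2 * π - t - 6 / 5)) (2 * π - t)) (tiL q m ρ (2 * π - t)) := by
  have hm0 : 0 < m := hρ.trans_le hm
  have ht' : 0 < 2 * π - t := by linarith [pi_pos]
  have hA := AR_pos hρ hm ht'
  have hB : (0 : ℝ) < 11 / 25 := by norm_num
  refine Zn.period ?_
  have e : t - 2 * π = -(2 * π - t) := by ring
  rw [e]
  exact ⟨⟨g0_nonneg hA hB ht'.le, gW_nonneg hq hA hB ht'.le le_rfl (by positivity) (exp_pos _).le,
    mul_nonneg (exp_pos _).le (g0_nonneg hA hB ht'.le)⟩, Z1R1 hq hρ hm ht' (win_any _)⟩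

theorem zn_rest {ε : ℝ} (hm' : 5 / 4 * ρ ≤ m) (h0 : 0 < ε) (h1 : ε < 1) :
    Zn q m ρ t 1 {s | 6336 / 10000 ≤ 1 - cos (t + s)} (trL q m ρ ε) := by
  have n := re0_nonneg hq hρ hm h0
  exact ⟨⟨n, by unfold trL; positivity, by unfold trL; positivity⟩,
    Zr hq hρ hm' h0 h1 (by rw [norm_one]; norm_num)⟩

theorem zn_farR {S : ℝ} (hS : 0 < S) : Zn q m ρ t 1 (Ici S) (tgR q m ρ S) := by
  have n := fa0_nonneg hq (AR_pos hρ hm hS) hS
  exact ⟨⟨n, by unfold tgR; positivity, by unfold tgR; positivity⟩,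
    ZfR hq hρ hm hS (by rw [norm_one]; norm_num)⟩

theorem zn_farL {S : ℝ} (hS : 0 < S) : Zn q m ρ t 1 (Iic (-S)) (tgL q m ρ S) := by
  have n := fa0_nonneg hq (AL_pos hρ hm hS) hS
  exact ⟨⟨n, by unfold tgL; positivity, by unfold tgL; positivity⟩,
    ZfL hq hρ hm hS (by rw [norm_one]; norm_num)⟩

omit hq hρ hm in
/-- the path beyond `t` -/
private theorem sl_pm_ge {m t s : ℝ} (hm : 0 < m) (h : t ≤ s) : cT m t ≤ pm m s := by
  unfold pm cT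
  have h1 : t / m ≤ s / m := div_le_div_of_nonneg_right h hm.le
  exact (min_le_min le_rfl h1).trans (le_max_right _ _)

/-- BEHIND, right, `w = 1`: slope `AR t`, curvature `(11/25) e^T`, quadratic weight. -/
theorem zbeh_R (ht : 0 < t) : Zn q m ρ (-t) 1 (Icc t (t + 6 / 5)) (tjL q m ρ t) := by
  have hm0 : 0 < m := hρ.trans_le hm
  have hA := AR_pos hρ hm ht
  have ht5 : 0 < t + 6 / 5 := by linarith
  have hT : 0 < cT m (t + 6 / 5) := lt_min one_pos (div_pos ht5 hm0)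
  have he := eS_nonneg hT
  have h := Zone.above (q := q) (m := m) (ρ := ρ) (θ := -t) (w := 1) (c := t)
    (S := Icc t (t + 6 / 5)) (a0 := AR m ρ t * t ^ 2) (b := AR m ρ t * t)
    (B := 11 / 25 * exp (cT m t)) (e0 := exp (cT m (t + 6 / 5)))
    (c0 := (eS (cT m (t + 6 / 5)) / m) ^ 2 * t ^ 2) (c1 := (eS (cT m (t + 6 / 5)) / m) ^ 2 * (2 * t))
    (c2 := (eS (cT m (t + 6 / 5)) / m) ^ 2 + exp (cT m (t + 6 / 5)))
    measurableSet_Icc hq (by positivity) (by positivity) (by positivity) (by positivity)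
    (by positivity) (exp_pos _).le (fun s hs => hs.1) (fun s hs => ?_) (fun s hs => ?_)
    (fun s hs => exp_le_exp.2 (pm_le_cT hm0 (ht.le.trans hs.1) hs.2))
  · have n0 := h0_nonneg (b := jb q m ρ t) (B := jB q m t) (by unfold jb; positivity)
      (by unfold jB; positivity)
    have n1 := h1_nonneg (B := jB q m t) (by unfold jB; positivity)
    have n2 := h2_nonneg (B := jB q m t) (by unfold jB; positivity)
    have nj : 0 ≤ j0 q m ρ t := by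
      unfold j0
      positivity
    refine ⟨⟨nj, by unfold tjL; positivity, by unfold tjL; positivity⟩, ?_⟩
    have e1 : (exp (-(q * (AR m ρ t * t ^ 2))) * ((eS (cT m (t + 6 / 5)) / m) ^ 2 * t ^ 2 *
        h0 (q * (AR m ρ t * t)) (q * (11 / 25 * exp (cT m t))) +
        (eS (cT m (t + 6 / 5)) / m) ^ 2 * (2 * t) * h1 (q * (11 / 25 * exp (cT m t))) +
        ((eS (cT m (t + 6 / 5)) / m) ^ 2 + exp (cT m (t + 6 / 5))) *
          h2 (q * (11 / 25 * exp (cT m t))))) = (tjL q m ρ t).2.1 := by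
      show _ = exp (-(q * (AR m ρ t * t ^ 2))) * ((eS (cT m (t + 6 / 5)) / m) ^ 2 *
        (t ^ 2 * h0 (q * (AR m ρ t * t)) (q * (11 / 25 * exp (cT m t))) +
          2 * t * h1 (q * (11 / 25 * exp (cT m t))) + h2 (q * (11 / 25 * exp (cT m t)))) +
        exp (cT m (t + 6 / 5)) * h2 (q * (11 / 25 * exp (cT m t))))
      ring
    rw [e1] at h
    exact h
  · obtain ⟨z, rfl⟩ : ∃ z, s = t + z := ⟨s - t, by ring⟩
    have hz0 : 0 ≤ z := by linarith [hs.1]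
    have hz1 : z ≤ 6 / 5 := by linarith [hs.2]
    have b1 := Qm_beh_R hρ hm ht hz0
    have b2 := (win_all z).2 z hz0 le_rfl hz1
    have b3 : exp (cT m t) ≤ exp (pm m (t + z)) := exp_le_exp.2 (sl_pm_ge hm0 (by linarith))
    have e1 : -t + (t + z) = z := by ring
    have e2 : t + z - t = z := by ring
    rw [Dm_eq, e1, e2]
    have b4 : 11 / 25 * exp (cT m t) * z ^ 2 ≤ exp (pm m (t + z)) * (1 - cos z) := by
      calc 11 / 25 * exp (cT m t) * z ^ 2 = exp (cT m t) * (11 / 25 * z ^ 2) := by ring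
        _ ≤ exp (pm m (t + z)) * (1 - cos z) :=
          mul_le_mul b3 b2 (by positivity) (exp_pos _).le
    linarith
  · obtain ⟨z, rfl⟩ : ∃ z, s = t + z := ⟨s - t, by ring⟩
    have hz0 : 0 ≤ z := by linarith [hs.1]
    have b1 := Wm_one_R (θ := -t) hm0 (by linarith : 0 ≤ t + z) hs.2 ht5
    have e1 : -t + (t + z) = z := by ring
    have e2 : t + z - t = z := by ring
    rw [e1] at b1
    rw [e2]
    refine b1.trans (le_of_eq ?_)
    field_simp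
    ring

theorem zn_imgb (ht : t ≤ π) :
    Zn q m ρ t 1 (Icc (2 * π - t) (2 * π - t + 6 / 5)) (tjL q m ρ (2 * π - t)) := by
  refine Zn.period ?_
  have e : t - 2 * π = -(2 * π - t) := by ring
  rw [e]
  exact zbeh_R hq hρ hm (by linarith [pi_pos])

/-- THE TOTAL, LEFT. -/
theorem zoneL {β B l ε : ℝ} (hm' : 5 / 4 * ρ ≤ m) (hm1 : 5 / 4 ≤ m) (h0 : 0 < t) (h1 : t ≤ π)
    (hW : Win β t) (hL : Lft m t β B l) (hs : t ≤ 6 / 5 → 1 ≤ q * m * sin t) (he0 : 0 < ε)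
    (he1 : ε < 1) : Zn q m ρ t 1 univ (TL q m ρ t B l ε) :=
  sumL h0 h1 (zn_main hq hρ hm h0 hW hL) (zn_beh hq hρ hm h0.le) (zn_front hq hρ hm hm1 h0 hs)
    (zn_img hq hρ hm h1) (zn_imgb hq hρ hm h1) (zn_rest hq hρ hm hm' he0 he1)
    (zn_farR hq hρ hm (by linarith [pi_pos])) (zn_farL hq hρ hm (by linarith))

end zones

end SokalCen
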