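import Pool.Agent.Lib_MP_af4de1_v3.CenTL
import Pool.Agent.Lib_MP_af4de1_v3.RestNum

/-!
# CEN: rest and far for the left total, general lower bound `d` of `Dm` on the rest

`uD q m ρ t ε d` is an admissible `u` of `shf_TL`; `d = 1/2` (`Dm_half`), `d = 53/100` (`Dm_53`).
-/

set_option autoImplicit false

namespace SokalCen

open MeasureTheory Set

/-- rest with the bound `d` -/
noncomputable def tD (q m ρ ε d : ℝ) : ℝ × ℝ × ℝ :=
  (red q m ρ ε d, 20 * red q m ρ ε d, 3 * red q m ρ ε d)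

/-- rest (bound `d`) and far -/
noncomputable def uD (q m ρ t ε d : ℝ) : ℝ × ℝ × ℝ :=
  tD q m ρ ε d + tFR q m ρ (2 * Real.pi - t + 5) + tFL q m ρ (t + 5)

theorem red_nonneg {q m ρ ε d : ℝ} (hq : 0 < q) (hρ : 0 < ρ) (hm : ρ ≤ m) (hε : 0 < ε) :
    0 ≤ red q m ρ ε d := by
  have hm0 : 0 < m := hρ.trans_le hm
  have : 0 < laR q m ρ ε := by
    unfold laR
    positivity
  unfold red
  positivity

theorem zn_D {q m ρ t ε d : ℝ} (hq : 0 < q) (hρ : 0 < ρ) (hm' : 5 / 4 * ρ ≤ m) (he0 : 0 < ε)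
    (he1 : ε < 1) (hd : ∀ s, 6336 / 10000 ≤ 1 - Real.cos (t + s) → d ≤ Dm m ρ t s) :
    Zn q m ρ t 1 {s | 6336 / 10000 ≤ 1 - Real.cos (t + s)} (tD q m ρ ε d) := by
  have hm : ρ ≤ m := by linarith
  have n := red_nonneg (d := d) hq hρ hm he0
  exact ⟨⟨n, by unfold tD; positivity, by unfold tD; positivity⟩,
    Zr_gen (measurableSet_le measurable_const (by fun_prop)) hq hρ hm' he0 he1
      (by rw [norm_one]; norm_num) fun s hs => hd s hs⟩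

/-- rest and far, general `d` -/
theorem zn_uD {q m ρ t ε d : ℝ} (hq : 0 < q) (hρ : 0 < ρ) (hm' : 5 / 4 * ρ ≤ m) (h0 : 0 < t)
    (h1 : t ≤ Real.pi) (he0 : 0 < ε) (he1 : ε < 1)
    (hd : ∀ s, 6336 / 10000 ≤ 1 - Real.cos (t + s) → d ≤ Dm m ρ t s)
    (hR : 1 ≤ q * AR m ρ (2 * Real.pi - t + 5) * (2 * Real.pi - t + 5))
    (hL : 1 ≤ q * AL m ρ (t + 5) * (t + 5)) :
    Zn q m ρ t 1 ({s | 6336 / 10000 ≤ 1 - Real.cos (t + s)} ∪ Ici (2 * Real.pi - t + 5) ∪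
      Iic (-(t + 5))) (uD q m ρ t ε d) := by
  have hm : ρ ≤ m := by linarith
  exact ((zn_D hq hρ hm' he0 he1 hd).add
    (zn_farR' hq hρ hm (by linarith [Real.pi_pos]) hR)).add
    (zn_farL' hq hρ hm (by linarith) hL)

/-- `d = 53/100` -/
theorem zn_uD53 {q m ρ t ε : ℝ} (hq : 0 < q) (hρ : 0 < ρ) (hm' : 5 / 4 * ρ ≤ m) (h0 : 0 < t)
    (h1 : t ≤ Real.pi) (he0 : 0 < ε) (he1 : ε < 1)
    (hR : 1 ≤ q * AR m ρ (2 * Real.pi - t + 5) * (2 * Real.pi - t + 5))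
    (hL : 1 ≤ q * AL m ρ (t + 5) * (t + 5)) :
    Zn q m ρ t 1 ({s | 6336 / 10000 ≤ 1 - Real.cos (t + s)} ∪ Ici (2 * Real.pi - t + 5) ∪
      Iic (-(t + 5))) (uD q m ρ t ε (53 / 100)) :=
  zn_uD hq hρ hm' h0 h1 he0 he1 (fun _ hs => Dm_53 hρ hm' hs) hR hL

end SokalCen
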