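import Pool.Agent.Lib_MP_af4de1_v3.Lev
import Pool.Agent.Lib_MP_af4de1_fa.FarSum
import Pool.Agent.Lib_MP_af4de1_fa.FrB

/-!
# Centre path, single wave: reduction of `Shf` to three integrals, exact weights (both sides)

`cL g q r δ η = exp (g/2 r η²/R) √q R^(1/4) √(r/(2πρ))`; `JI ρ r θ w = ∫⁻ √(1+1/R) w exp(-r DD)`.
-/

set_option autoImplicit false

open Complex MeasureTheory SokalU SokalPG SokalF1 SokalF1S SokalF1M SokalFA

namespace SokalV3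

/-- level factor -/
noncomputable def cL (g q r δ η : ℝ) : ℝ :=
  Real.exp (g / 2 * (r * η ^ 2 / RR r δ)) * (√q * RR r δ ^ (1 / 4 : ℝ) * √(r / (2 * Real.pi * (r * δ))))

/-- the integral with the weight `w` on the centre path -/
noncomputable def JI (ρ r θ : ℝ) (w : ℝ → ℝ) : ENNReal :=
  ∫⁻ s : ℝ, ENNReal.ofReal (√(1 + 1 / (1 + ρ ^ 2)) * w s * Real.exp (-(r * DD ρ θ s)))

theorem RR_pos_x (r δ : ℝ) : 0 < RR r δ := by
  unfold RR
  positivity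

theorem exp_level_x {r δ y η g k q : ℝ} (hy : -1 < y) (hq : 0 ≤ q) (hL : Lev r δ y η g k q) :
    Real.exp r ≤ Real.exp (g / 2 * (r * η ^ 2 / RR r δ)) * (√q * RR r δ ^ (1 / 4 : ℝ)) *
      sM r δ y := by
  have hR := RR_pos_x r δ
  have hD := sD2_pos (ρ := r * δ) hy
  have h1 : sD2 (r * δ) y ^ (1 / 4 : ℝ) ≤ √q * RR r δ ^ (1 / 4 : ℝ) := by
    have h2 : sD2 (r * δ) y ^ (1 / 4 : ℝ) = √(sD (r * δ) y) := by
      unfold sD
      rw [Real.sqrt_eq_rpow, Real.sqrt_eq_rpow, ← Real.rpow_mul hD.le]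
      norm_num
    have h3 : √(q * √(RR r δ)) = √q * RR r δ ^ (1 / 4 : ℝ) := by
      rw [Real.sqrt_mul hq]
      congr 1
      rw [Real.sqrt_eq_rpow, Real.sqrt_eq_rpow, ← Real.rpow_mul hR.le]
      norm_num
    rw [h2, ← h3]
    exact Real.sqrt_le_sqrt hL.l2
  have h2 : Real.exp r ≤ Real.exp (g / 2 * (r * η ^ 2 / RR r δ)) *
      Real.exp (sx (r * δ) y * (1 + y) / δ) := by
    rw [← Real.exp_add]
    apply Real.exp_le_exp.2
    have := hL.l0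
    linarith
  have h3 : Real.exp (sx (r * δ) y * (1 + y) / δ) = sD2 (r * δ) y ^ (1 / 4 : ℝ) * sM r δ y := by
    unfold sM
    have := Real.rpow_pos_of_pos hD (1 / 4)
    field_simp
  rw [h3] at h2
  refine h2.trans ?_
  have hM := sM_pos (r := r) (δ := δ) hy
  rw [mul_assoc]
  refine mul_le_mul_of_nonneg_left ?_ (Real.exp_pos _).le
  exact mul_le_mul_of_nonneg_right h1 hM.le

/-- one wave -/
theorem cen_one_x {r δ y η g k q θ : ℝ} (hr : 0 < r) (hd : 0 < δ) (hy : -1 < y) (hq : 0 ≤ q)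
    (hL : Lev r δ y η g k q) (c0 c1 c2 : ℂ) (w : ℝ → ℝ)
    (hw : ∀ s, ‖c0 + c1 * kp r (r * δ) θ s + c2 * (kp r (r * δ) θ s ^ 2 + kp r (r * δ) θ s)‖ ≤ w s)
    {B F : ℝ} (hB : 0 ≤ B) (hI : JI (r * δ) r θ w ≤ ENNReal.ofReal B)
    (hF : cL g q r δ η * B ≤ F) :
    ‖c0 * E (tt δ) (SokalF1.wp r δ θ) + c1 * DE (tt δ) (SokalF1.wp r δ θ) +
      c2 * SokalBPlus.D2E (tt δ) (SokalF1.wp r δ θ)‖ ≤ F * sM r δ y := by
  have hM := sM_pos (r := r) (δ := δ) hy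
  have hP : 0 ≤ √(r / (2 * Real.pi * (r * δ))) * Real.exp r := by positivity
  have h1 := wave_bound hr hd θ c0 c1 c2
  have h2 : ∫⁻ s : ℝ, ENNReal.ofReal (√(1 + 1 / (1 + (r * δ) ^ 2)) *
        ‖c0 + c1 * kp r (r * δ) θ s + c2 * (kp r (r * δ) θ s ^ 2 + kp r (r * δ) θ s)‖ *
          Real.exp (-(r * DD (r * δ) θ s))) ≤ ENNReal.ofReal B := by
    refine le_trans ?_ hI
    unfold JI
    refine lintegral_mono fun s => ENNReal.ofReal_le_ofReal ?_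
    have := hw s
    gcongr
  have h3 := h1.trans (mul_le_mul_right h2 _)
  rw [← ENNReal.ofReal_mul hP, ENNReal.ofReal_le_ofReal_iff (mul_nonneg hP hB)] at h3
  refine h3.trans ?_
  have h4 := exp_level_x hy hq hL
  calc √(r / (2 * Real.pi * (r * δ))) * Real.exp r * B
      ≤ √(r / (2 * Real.pi * (r * δ))) * (Real.exp (g / 2 * (r * η ^ 2 / RR r δ)) *
          (√q * RR r δ ^ (1 / 4 : ℝ)) * sM r δ y) * B := by gcongr
    _ = cL g q r δ η * B * sM r δ y := by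
        unfold cL
        ring
    _ ≤ F * sM r δ y := mul_le_mul_of_nonneg_right hF hM.le

/-- REDUCTION, exact weights: any majorants `w0, w1, w2` of `1`, `|kp - κ|`, `|(kp-κ)² + kp|`. -/
theorem shf_cen_x {r δ y η ζ g k q H f0 f1 f2 : ℝ} (hr : 0 < r) (hd : 0 < δ) (hy : -1 < y)
    (hη : sE (r * δ) y = η) (hq : 0 ≤ q) (hL : Lev r δ y η g k q) {w1 w2 : ℝ → ℝ}
    (hw1 : ∀ s, ‖kp r (r * δ) (η + ζ) s - kap r δ y‖ ≤ w1 s)
    (hw2 : ∀ s, ‖(kp r (r * δ) (η + ζ) s - kap r δ y) ^ 2 + kp r (r * δ) (η + ζ) s‖ ≤ w2 s)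
    {B0 B1 B2 : ℝ} (hB0 : 0 ≤ B0) (hB1 : 0 ≤ B1) (hB2 : 0 ≤ B2)
    (h0 : JI (r * δ) r (η + ζ) (fun _ => 1) ≤ ENNReal.ofReal B0)
    (h1 : JI (r * δ) r (η + ζ) w1 ≤ ENNReal.ofReal B1)
    (h2 : JI (r * δ) r (η + ζ) w2 ≤ ENNReal.ofReal B2)
    (k0 : cL g q r δ η * B0 ≤ f0) (k1 : cL g q r δ η * B1 ≤ f1 * H)
    (k2 : cL g q r δ η * B2 ≤ f2 * H ^ 2) : Shf r δ y ζ H f0 f1 f2 := by
  refine ⟨?_, ?_, ?_⟩
  · have := cen_one_x (θ := η + ζ) hr hd hy hq hL 1 0 0 (fun _ => 1) (fun s => by simp) hB0 h0 k0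
    unfold V0
    rw [hη]
    simpa using this
  · have := cen_one_x (θ := η + ζ) hr hd hy hq hL (-kap r δ y) 1 0 w1
      (fun s => by
        have := hw1 s
        refine le_trans (le_of_eq ?_) this
        congr 1
        ring) hB1 h1 k1
    unfold V1 V0
    rw [hη]
    refine le_trans (le_of_eq ?_) this
    congr 1
    ring
  · have := cen_one_x (θ := η + ζ) hr hd hy hq hL (kap r δ y ^ 2) (-2 * kap r δ y) 1 w2
      (fun s => by
        have := hw2 s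
        refine le_trans (le_of_eq ?_) this
        congr 1
        ring) hB2 h2 k2
    unfold V2 V1 V0
    rw [hη]
    refine le_trans (le_of_eq ?_) this
    congr 1
    ring

/-- the weights from `|kp - κ| ≤ u` -/
theorem wt2_of_x {r ρ θ s : ℝ} (hr : 0 < r) (κ : ℂ) {u : ℝ} (h : ‖kp r ρ θ s - κ‖ ≤ u) :
    ‖(kp r ρ θ s - κ) ^ 2 + kp r ρ θ s‖ ≤ u ^ 2 + r * Real.exp (SokalFA.pa ρ s) := by
  refine (norm_add_le _ _).trans ?_
  rw [norm_pow, norm_kp hr]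
  gcongr

end SokalV3
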