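import Pool.Agent.Lib_MP_af4de1_v3.V3
import Pool.Agent.Lib_MP_af4de1_f1.MonA

/-!
# SHIFT, common layer: the shifted waves from three real integrals

Path through the own saddle, `c = 1/(1+x)`, `s1 = 1+x`.
`mW r δ y ζ w = ∫ ‖pv s‖ (w s exp(-Ht/δ))`, `uW`: `‖u-1‖²`, `u = exp(a + i (s+ζ))`.
-/

set_option autoImplicit false

open Complex MeasureTheory Filter Topology SokalU SokalPG SokalF1 SokalF1S SokalF1M

namespace SokalV3

/-- the path through the saddle -/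
noncomputable def pa (ρ y s : ℝ) : ℝ := pc (1 + sx ρ y)⁻¹ (1 + sx ρ y) s

/-- the integral with the weight `w` -/
noncomputable def mW (r δ y ζ : ℝ) (w : ℝ → ℝ) : ℝ :=
  ∫ s : ℝ, ‖pv (1 + sx (r * δ) y)⁻¹ (1 + sx (r * δ) y) s‖ *
    (w s * Real.exp (-(Ht (sx (r * δ) y) y ζ (pa (r * δ) y s) s / δ)))

/-- `‖u - 1‖²` -/
noncomputable def uW (ρ y ζ s : ℝ) : ℝ :=
  (Real.exp (pa ρ y s) - 1) ^ 2 + 2 * Real.exp (pa ρ y s) * (1 - Real.cos (s + ζ))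

theorem uW_nonneg (ρ y ζ s : ℝ) : 0 ≤ uW ρ y ζ s := by
  unfold uW
  have h1 := Real.exp_pos (pa ρ y s)
  have h2 := Real.cos_le_one (s + ζ)
  have h3 : 0 ≤ 1 - Real.cos (s + ζ) := by linarith
  positivity

theorem norm_u_sub_one (a θ : ℝ) : ‖cexp (a + θ * I) - 1‖ ^ 2 =
    (Real.exp a - 1) ^ 2 + 2 * Real.exp a * (1 - Real.cos θ) := by
  have h : cexp (a + θ * I) - 1 = ((Real.exp a * Real.cos θ - 1 : ℝ) : ℂ) +
      ((Real.exp a * Real.sin θ : ℝ) : ℂ) * I := by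
    rw [Complex.exp_add, Complex.exp_mul_I, ← Complex.ofReal_exp, ← Complex.ofReal_cos,
      ← Complex.ofReal_sin]
    push_cast
    ring
  rw [h, Complex.sq_norm, Complex.normSq_add_mul_I]
  linear_combination (Real.exp a ^ 2) * Real.sin_sq_add_cos_sq θ

theorem uW_eq (ρ y ζ s : ℝ) : ‖cexp (ζ * I + pz (1 + sx ρ y)⁻¹ (1 + sx ρ y) s) - 1‖ ^ 2 =
    uW ρ y ζ s := by
  have h : (ζ : ℂ) * I + pz (1 + sx ρ y)⁻¹ (1 + sx ρ y) s =
      ((pa ρ y s : ℝ) : ℂ) + ((s + ζ : ℝ) : ℂ) * I := by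
    unfold pz pa
    push_cast
    ring
  rw [h, norm_u_sub_one]
  rfl

theorem sqrt_uW (ρ y ζ s : ℝ) : ‖cexp (ζ * I + pz (1 + sx ρ y)⁻¹ (1 + sx ρ y) s) - 1‖ =
    √(uW ρ y ζ s) := by
  rw [← uW_eq, Real.sqrt_sq (norm_nonneg _)]

section rep

variable {r δ y : ℝ} (hδ : 0 < δ) (hD : Dom (r * δ) y) (hy : -1 < y) (hk : |y| < 1)

theorem xp (ρ y : ℝ) : 0 < 1 + sx ρ y := by
  have := sx_nonneg ρ y
  linarith

theorem xcs (ρ y : ℝ) : (1 + sx ρ y)⁻¹ * (1 + sx ρ y) = 1 := inv_mul_cancel₀ (xp ρ y).ne'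

include hδ hk in
theorem kap_im_rep : |(kap r δ y).im| < (1 + sx (r * δ) y)⁻¹ * (1 + sx (r * δ) y) / δ := by
  unfold kap
  exact im_kappa hδ (by rwa [xcs])

/-- general weight -/
noncomputable def mC (r δ y ζ : ℝ) (m : ℂ → ℂ) : ℂ :=
  ∫ s : ℝ, gi (1 + sx (r * δ) y)⁻¹ (1 + sx (r * δ) y) m (kap r δ y) (ζ * I) (-((δ : ℂ) * I)) s

include hδ hk in
theorem integrable_mC (ζ : ℝ) {m : ℂ → ℂ} {K : ℝ} (hm : Wt m K) :
    Integrable (gi (1 + sx (r * δ) y)⁻¹ (1 + sx (r * δ) y) m (kap r δ y) (ζ * I)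
      (-((δ : ℂ) * I))) :=
  integrable_path (inv_pos.2 (xp _ _)) (xp _ _) (xcs _ _).le hδ _ _ (kap_im_rep hδ hk) hm

theorem norm_gi_w (ζ : ℝ) (m : ℂ → ℂ) (w : ℝ → ℝ) (s : ℝ)
    (hw : ‖m (pz (1 + sx (r * δ) y)⁻¹ (1 + sx (r * δ) y) s)‖ = w s) :
    ‖gi (1 + sx (r * δ) y)⁻¹ (1 + sx (r * δ) y) m (kap r δ y) (ζ * I) (-((δ : ℂ) * I)) s‖ =
      ‖pv (1 + sx (r * δ) y)⁻¹ (1 + sx (r * δ) y) s‖ *
        (w s * Real.exp (-(Ht (sx (r * δ) y) y ζ (pa (r * δ) y s) s / δ))) := by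
  unfold gi
  rw [norm_mul, norm_mul, hw,
    show pz (1 + sx (r * δ) y)⁻¹ (1 + sx (r * δ) y) s = ((pa (r * δ) y s : ℝ) : ℂ) + s * I from rfl]
  unfold kap
  rw [norm_f_shift]

include hδ hk in
/-- Integrability of a real weight which is the modulus of an admissible weight. -/
theorem integrable_mW (ζ : ℝ) {m : ℂ → ℂ} {K : ℝ} (hm : Wt m K) (w : ℝ → ℝ)
    (hw : ∀ s, ‖m (pz (1 + sx (r * δ) y)⁻¹ (1 + sx (r * δ) y) s)‖ = w s) :
    Integrable fun s : ℝ => ‖pv (1 + sx (r * δ) y)⁻¹ (1 + sx (r * δ) y) s‖ *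
      (w s * Real.exp (-(Ht (sx (r * δ) y) y ζ (pa (r * δ) y s) s / δ))) := by
  refine (integrable_mC (r := r) hδ hk ζ hm).norm.congr (Eventually.of_forall fun s => ?_)
  exact norm_gi_w ζ m w s (hw s)

theorem norm_mC_le (ζ : ℝ) (m : ℂ → ℂ) (w : ℝ → ℝ)
    (hw : ∀ s, ‖m (pz (1 + sx (r * δ) y)⁻¹ (1 + sx (r * δ) y) s)‖ = w s) :
    ‖mC r δ y ζ m‖ ≤ mW r δ y ζ w := by
  unfold mC mW
  refine (norm_integral_le_integral_norm _).trans (le_of_eq ?_)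
  refine integral_congr_ae (Eventually.of_forall fun s => ?_)
  exact norm_gi_w ζ m w s (hw s)

/-- the weight `u^j` -/
theorem Wt_u (ζ : ℝ) (j : ℕ) : Wt (fun h => cexp (ζ * I + h) ^ j)
    ((‖(1 : ℂ)‖ * Real.exp (‖(ζ : ℂ) * I‖ + 1)) ^ j) := by
  have h := Wt_pow 1 (ζ * I) j
  refine ⟨?_, ?_⟩
  · have := h.1
    simpa using this
  · intro x y hx
    have := h.2 x y hx
    simpa using this

theorem Wt_mono {m : ℂ → ℂ} {K K' : ℝ} (h : Wt m K) (hK : K ≤ K') : Wt m K' := by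
  refine ⟨h.1, fun x y hx => (h.2 x y hx).trans ?_⟩
  exact mul_le_mul_of_nonneg_right hK (by positivity)

theorem Wt_add {m m' : ℂ → ℂ} {K K' : ℝ} (h : Wt m K) (h' : Wt m' K') :
    Wt (fun z => m z + m' z) (K + K') := by
  refine ⟨h.1.add h'.1, fun x y hx => (norm_add_le _ _).trans ?_⟩
  rw [add_mul]
  exact add_le_add (h.2 x y hx) (h'.2 x y hx)

theorem Wt_smul {m : ℂ → ℂ} {K : ℝ} (h : Wt m K) (a : ℂ) : Wt (fun z => a * m z) (‖a‖ * K) := by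
  refine ⟨h.1.const_mul a, fun x y hx => ?_⟩
  rw [norm_mul, mul_assoc]
  exact mul_le_mul_of_nonneg_left (h.2 x y hx) (norm_nonneg _)

/-- the weight `u - 1` -/
theorem Wt_u1 (ζ : ℝ) : ∃ K, Wt (fun h => cexp (ζ * I + h) - 1) K := by
  have h := Wt_add (Wt_u ζ 1) (Wt_smul (Wt_u ζ 0) (-1))
  have e : (fun h : ℂ => cexp (ζ * I + h) - 1) =
      fun h : ℂ => cexp (ζ * I + h) ^ 1 + (-1) * cexp (ζ * I + h) ^ 0 := by
    funext h
    ring
  rw [e]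
  exact ⟨_, h⟩

/-- the weight `(u - 1)²` -/
theorem Wt_u2 (ζ : ℝ) : ∃ K, Wt (fun h => (cexp (ζ * I + h) - 1) ^ 2) K := by
  have h := Wt_add (Wt_u ζ 2) (Wt_add (Wt_smul (Wt_u ζ 1) (-2)) (Wt_u ζ 0))
  have e : (fun h : ℂ => (cexp (ζ * I + h) - 1) ^ 2) =
      fun h : ℂ => cexp (ζ * I + h) ^ 2 + ((-2) * cexp (ζ * I + h) ^ 1 +
        cexp (ζ * I + h) ^ 0) := by
    funext h
    ring
  rw [e]
  exact ⟨_, h⟩

theorem norm_u (ζ : ℝ) (s : ℝ) : ‖cexp (ζ * I + pz (1 + sx (r * δ) y)⁻¹ (1 + sx (r * δ) y) s)‖ =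
    Real.exp (pa (r * δ) y s) := by
  rw [Complex.norm_exp]
  congr 1
  unfold pz pa
  simp

include hδ hk in
/-- integrability for the weight `1` -/
theorem integrable_w0 (ζ : ℝ) :
    Integrable fun s : ℝ => ‖pv (1 + sx (r * δ) y)⁻¹ (1 + sx (r * δ) y) s‖ *
      ((fun _ => (1 : ℝ)) s * Real.exp (-(Ht (sx (r * δ) y) y ζ (pa (r * δ) y s) s / δ))) :=
  integrable_mW hδ hk ζ (Wt_u ζ 0) (fun _ => 1) fun s => by simp

include hδ hk in
/-- integrability for the weight `√uW` -/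
theorem integrable_w1 (ζ : ℝ) :
    Integrable fun s : ℝ => ‖pv (1 + sx (r * δ) y)⁻¹ (1 + sx (r * δ) y) s‖ *
      ((fun s => √(uW (r * δ) y ζ s)) s *
        Real.exp (-(Ht (sx (r * δ) y) y ζ (pa (r * δ) y s) s / δ))) := by
  obtain ⟨K, hK⟩ := Wt_u1 ζ
  exact integrable_mW hδ hk ζ hK _ fun s => sqrt_uW _ _ _ _

include hδ hk in
/-- integrability for the weight `uW` -/
theorem integrable_w2 (ζ : ℝ) :
    Integrable fun s : ℝ => ‖pv (1 + sx (r * δ) y)⁻¹ (1 + sx (r * δ) y) s‖ *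
      (uW (r * δ) y ζ s *
        Real.exp (-(Ht (sx (r * δ) y) y ζ (pa (r * δ) y s) s / δ))) := by
  obtain ⟨K, hK⟩ := Wt_u2 ζ
  exact integrable_mW hδ hk ζ hK _ fun s => by rw [norm_pow, uW_eq]

include hδ hk in
/-- integrability for the weight `exp a` -/
theorem integrable_we (ζ : ℝ) :
    Integrable fun s : ℝ => ‖pv (1 + sx (r * δ) y)⁻¹ (1 + sx (r * δ) y) s‖ *
      ((fun s => Real.exp (pa (r * δ) y s)) s *
        Real.exp (-(Ht (sx (r * δ) y) y ζ (pa (r * δ) y s) s / δ))) := by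
  exact integrable_mW hδ hk ζ (Wt_u ζ 1) _ fun s => by rw [pow_one, norm_u]

include hδ hD hk in
theorem Ef_rep (ζ : ℝ) (j : ℕ) :
    gcst (-((δ : ℂ) * I))⁻¹ * Ef j (tt δ) (wp r δ (sE (r * δ) y + ζ)) =
      cexp (S (-((δ : ℂ) * I)) (kap r δ y)) *
        (kap r δ y ^ j * mC r δ y ζ (fun h => cexp (ζ * I + h) ^ j)) := by
  have h1 := path_formula (inv_pos.2 (xp (r * δ) y)) (xp _ _) (xcs _ _).le hδ (kap r δ y) (ζ * I)
    (kap_im_rep hδ hk) j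
  rw [wp_add hδ hD]
  unfold kap at h1 ⊢
  rw [show tt δ = -((δ : ℂ) * I) from rfl, h1]
  congr 1
  unfold mC kap
  rw [← integral_const_mul]
  refine integral_congr_ae (Eventually.of_forall fun s => ?_)
  simp only [gi]
  ring

include hδ in
theorem mC_lin2 (hk : |y| < 1) (ζ : ℝ) {m m' : ℂ → ℂ} {K K' : ℝ} (h : Wt m K) (h' : Wt m' K')
    (a b : ℂ) : mC r δ y ζ (fun z => a * m z + b * m' z) =
      a * mC r δ y ζ m + b * mC r δ y ζ m' := by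
  unfold mC
  rw [← integral_const_mul, ← integral_const_mul, ← integral_add
    ((integrable_mC hδ hk ζ h).const_mul a) ((integrable_mC hδ hk ζ h').const_mul b)]
  refine integral_congr_ae (Eventually.of_forall fun s => ?_)
  simp only [gi]
  ring

include hδ hy in
/-- from an identity for the integral to a bound -/
theorem level_le {T I0 : ℂ} {B : ℝ}
    (h : gcst (-((δ : ℂ) * I))⁻¹ * T = cexp (S (-((δ : ℂ) * I)) (kap r δ y)) * I0)
    (hB : ‖I0‖ ≤ B * sG r δ y) : ‖T‖ ≤ B * sM r δ y := by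
  have h1 := congrArg norm h
  have h2 : 0 < √(2 * Real.pi * δ) := Real.sqrt_pos.2 (by have := Real.pi_pos; positivity)
  have h3 := sM_sG (r := r) hδ hy
  have hG := sG_pos (r := r) hδ hy
  rw [norm_mul, norm_mul, norm_gcst hδ, Complex.norm_exp] at h1
  unfold kap at h1
  rw [S_re hδ] at h1
  have h5 : ‖T‖ = Real.exp (sx (r * δ) y * (1 + y) / δ) / √(2 * Real.pi * δ) * ‖I0‖ := by
    rw [div_mul_eq_mul_div, eq_div_iff h2.ne', ← h1, mul_comm]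
  rw [h5, h3]
  have h6 : 0 < sM r δ y / sG r δ y := div_pos (sM_pos hy) hG
  calc sM r δ y / sG r δ y * ‖I0‖ ≤ sM r δ y / sG r δ y * (B * sG r δ y) :=
        mul_le_mul_of_nonneg_left hB h6.le
    _ = B * sM r δ y := by field_simp

include hδ hD hk in
/-- THE COMMON LAYER. -/
theorem shf_of {ζ H f0 f1 f2 : ℝ}
    (h0 : mW r δ y ζ (fun _ => 1) ≤ f0 * sG r δ y)
    (h1 : ‖kap r δ y‖ * mW r δ y ζ (fun s => √(uW (r * δ) y ζ s)) ≤ f1 * H * sG r δ y)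
    (h2 : ‖kap r δ y‖ ^ 2 * mW r δ y ζ (uW (r * δ) y ζ) +
      ‖kap r δ y‖ * mW r δ y ζ (fun s => Real.exp (pa (r * δ) y s)) ≤ f2 * H ^ 2 * sG r δ y) :
    Shf r δ y ζ H f0 f1 f2 := by
  have hy : -1 < y := (abs_lt.1 hk).1
  have e0 := Ef_rep hδ hD hk ζ 0
  have e1 := Ef_rep hδ hD hk ζ 1
  have e2 := Ef_rep hδ hD hk ζ 2
  rw [SokalF1M.Ef_zero] at e0
  rw [SokalF1M.Ef_one] at e1
  have w0 := Wt_u ζ 0
  have w1 := Wt_u ζ 1
  have w2 := Wt_u ζ 2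
  refine ⟨?_, ?_, ?_⟩
  · refine level_le hδ hy (I0 := mC r δ y ζ (fun h => cexp (ζ * I + h) ^ 0)) ?_
      ((norm_mC_le ζ _ (fun _ => 1) fun s => by simp).trans h0)
    unfold V0
    rw [e0, pow_zero, one_mul]
  · have hI : gcst (-((δ : ℂ) * I))⁻¹ * (V1 r δ y ζ - kap r δ y * V0 r δ y ζ) =
        cexp (S (-((δ : ℂ) * I)) (kap r δ y)) *
          (kap r δ y * mC r δ y ζ (fun h => cexp (ζ * I + h) - 1)) := by
      have h3 := mC_lin2 (r := r) hδ hk ζ w1 w0 1 (-1)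
      have h4 : (fun h : ℂ => cexp (ζ * I + h) - 1) =
          fun z : ℂ => 1 * cexp (ζ * I + z) ^ 1 + (-1) * cexp (ζ * I + z) ^ 0 := by
        funext z
        ring
      rw [h4, h3]
      unfold V1 V0
      linear_combination e1 - kap r δ y * e0
    refine level_le hδ hy hI ?_
    rw [norm_mul]
    exact (mul_le_mul_of_nonneg_left (norm_mC_le ζ _ _ fun s => sqrt_uW _ _ _ _)
      (norm_nonneg _)).trans h1
  · have hI : gcst (-((δ : ℂ) * I))⁻¹ * (V2 r δ y ζ - 2 * kap r δ y * V1 r δ y ζ +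
          kap r δ y ^ 2 * V0 r δ y ζ) =
        cexp (S (-((δ : ℂ) * I)) (kap r δ y)) *
          (kap r δ y ^ 2 * mC r δ y ζ (fun h => (cexp (ζ * I + h) - 1) ^ 2) +
            kap r δ y * mC r δ y ζ (fun h => cexp (ζ * I + h) ^ 1)) := by
      have h3 := mC_lin2 (r := r) hδ hk ζ w2 (Wt_add (Wt_smul w1 (-2)) w0) 1 1
      have h3' := mC_lin2 (r := r) hδ hk ζ w1 w0 (-2) 1
      have h4 : (fun h : ℂ => (cexp (ζ * I + h) - 1) ^ 2) =
          fun z : ℂ => 1 * cexp (ζ * I + z) ^ 2 + 1 * ((-2) * cexp (ζ * I + z) ^ 1 +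
            cexp (ζ * I + z) ^ 0) := by
        funext z
        ring
      have h5 : (fun z : ℂ => (-2) * cexp (ζ * I + z) ^ 1 + cexp (ζ * I + z) ^ 0) =
          fun z : ℂ => (-2) * cexp (ζ * I + z) ^ 1 + 1 * cexp (ζ * I + z) ^ 0 := by
        funext z
        ring
      rw [h4, h3, h5, h3']
      unfold V2 V1 V0
      rw [D2E_Ef]
      linear_combination (1 - 2 * kap r δ y) * e1 + e2 + kap r δ y ^ 2 * e0
    refine level_le hδ hy hI ?_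
    refine (norm_add_le _ _).trans (le_trans (add_le_add ?_ ?_) h2)
    · rw [norm_mul, norm_pow]
      exact mul_le_mul_of_nonneg_left (norm_mC_le ζ _ _ fun s => by rw [norm_pow, uW_eq])
        (by positivity)
    · rw [norm_mul]
      exact mul_le_mul_of_nonneg_left (norm_mC_le ζ _ _ fun s => by rw [pow_one, norm_u])
        (norm_nonneg _)

end rep

end SokalV3
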