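import Pool.Agent.Lib_MP_af4de1_v3.Lev
import Pool.Agent.Lib_MP_af4de1_v3.ShfRep

/-!
# From the centre saddle to the saddle `y`

If the wave at the angle `θ = η + ζ` is controlled from the centre saddle (`y = 0`, level `e^r/√√R`, `κ = r`), it is
controlled from the saddle `y` (`Lev.lean`).
-/

set_option autoImplicit false

namespace SokalV3

open Complex SokalU SokalF1 SokalF1S SokalF1M

theorem sx_y0 {ρ : ℝ} (h : 0 ≤ ρ) : sx ρ 0 = ρ := by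
  unfold sx
  simp [Real.sqrt_sq h]

theorem sE_y0 {ρ : ℝ} (h : 0 ≤ ρ) : sE ρ 0 = 0 := by
  unfold sE sP
  rw [sx_y0 h]
  simp

theorem sD2_y0 {ρ : ℝ} (h : 0 ≤ ρ) : sD2 ρ 0 = 1 + ρ ^ 2 := by
  unfold sD2
  rw [sx_y0 h]
  ring

theorem dom_y0 {ρ : ℝ} (h : 0 < ρ) : Dom ρ 0 := ⟨h, by simpa using h.le⟩

theorem kap_y0 {r δ : ℝ} (hr : 0 < r) (hδ : 0 < δ) : kap r δ 0 = r := by
  unfold kap sK
  rw [sx_y0 (mul_pos hr hδ).le]
  have : (δ : ℂ) ≠ 0 := by exact_mod_cast hδ.ne'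
  push_cast
  field_simp
  ring

theorem sM_y0_le {r δ y η g k q lam : ℝ} (hr : 0 < r) (hδ : 0 < δ) (hy : -1 < y)
    (hL : Lev r δ y η g k q) (hq : 0 ≤ q)
    (hlam : √q * Real.exp (g / 2 * (r * η ^ 2 / RR r δ)) ≤ lam) :
    sM r δ 0 ≤ lam * sM r δ y := by
  have hρ := mul_pos hr hδ
  have hR : 0 < RR r δ := by unfold RR; positivity
  have hD := sD2_pos (ρ := r * δ) hy
  have e0 : sM r δ 0 = Real.exp r / √(√(RR r δ)) := by
    unfold sM
    rw [sx_y0 hρ.le, sD2_y0 hρ.le]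
    have h3 : √(√(RR r δ)) = (1 + (r * δ) ^ 2) ^ (1 / 4 : ℝ) := by
      rw [Real.sqrt_eq_rpow, Real.sqrt_eq_rpow, ← Real.rpow_mul hR.le]
      norm_num
      rfl
    rw [h3]
    congr 2
    field_simp
    ring
  have e1 : sM r δ y = Real.exp (sx (r * δ) y * (1 + y) / δ) / √(sD (r * δ) y) := by
    unfold sM sD
    have h3 : √(√(sD2 (r * δ) y)) = (sD2 (r * δ) y) ^ (1 / 4 : ℝ) := by
      rw [Real.sqrt_eq_rpow, Real.sqrt_eq_rpow, ← Real.rpow_mul hD.le]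
      norm_num
    rw [h3]
  have hsD : 0 < sD (r * δ) y := Real.sqrt_pos.2 hD
  have hq2 : 0 < √(√(RR r δ)) := Real.sqrt_pos.2 (Real.sqrt_pos.2 hR)
  have hq3 : 0 < √(sD (r * δ) y) := Real.sqrt_pos.2 hsD
  have h1 : √(sD (r * δ) y) ≤ √q * √(√(RR r δ)) := by
    rw [← Real.sqrt_mul hq]
    exact Real.sqrt_le_sqrt hL.l2
  have h2 : Real.exp r ≤ Real.exp (g / 2 * (r * η ^ 2 / RR r δ)) *
      Real.exp (sx (r * δ) y * (1 + y) / δ) := by
    rw [← Real.exp_add]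
    exact Real.exp_le_exp.2 (by linarith [hL.l0])
  rw [e0, e1, div_le_iff₀ hq2]
  have h4 : √q * Real.exp (g / 2 * (r * η ^ 2 / RR r δ)) *
      (Real.exp (sx (r * δ) y * (1 + y) / δ) / √(sD (r * δ) y)) ≤
      lam * (Real.exp (sx (r * δ) y * (1 + y) / δ) / √(sD (r * δ) y)) :=
    mul_le_mul_of_nonneg_right hlam (by positivity)
  refine le_trans ?_ (mul_le_mul_of_nonneg_right h4 hq2.le)
  have h5 : Real.exp (g / 2 * (r * η ^ 2 / RR r δ)) * Real.exp (sx (r * δ) y * (1 + y) / δ) ≤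
      √q * Real.exp (g / 2 * (r * η ^ 2 / RR r δ)) *
      (Real.exp (sx (r * δ) y * (1 + y) / δ) / √(sD (r * δ) y)) * √(√(RR r δ)) := by
    have h6 : √q * Real.exp (g / 2 * (r * η ^ 2 / RR r δ)) *
        (Real.exp (sx (r * δ) y * (1 + y) / δ) / √(sD (r * δ) y)) * √(√(RR r δ)) =
        Real.exp (g / 2 * (r * η ^ 2 / RR r δ)) * Real.exp (sx (r * δ) y * (1 + y) / δ) *
          (√q * √(√(RR r δ)) / √(sD (r * δ) y)) := by ring
    rw [h6]
    refine le_mul_of_one_le_right (by positivity) ?_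
    rw [one_le_div hq3]
    exact h1
  exact h2.trans h5

/-- the transfer from the centre saddle to the saddle `y` -/
theorem shf_of_y0 {r δ y η ζ θ H g k q lam kt f0 f1 f2 : ℝ} (hr : 0 < r) (hδ : 0 < δ)
    (hA : At r δ y η) (hL : Lev r δ y η g k q) (hq : 0 ≤ q) (hθ : η + ζ = θ)
    (hlam : √q * Real.exp (g / 2 * (r * η ^ 2 / RR r δ)) ≤ lam)
    (hH : 0 ≤ H) (hkt0 : 0 ≤ kt) (hkt : k * (r * |η| / √(RR r δ)) ≤ kt * H)
    (hf0 : 0 ≤ f0) (hf1 : 0 ≤ f1) (hf2 : 0 ≤ f2) (hS : Shf r δ 0 θ H f0 f1 f2) :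
    Shf r δ y ζ H (lam * f0) (lam * (f1 + kt * f0)) (lam * (f2 + 2 * kt * f1 + kt ^ 2 * f0)) := by
  have hρ := mul_pos hr hδ
  have eθ : sE (r * δ) y + ζ = sE (r * δ) 0 + θ := by
    rw [hA.eta, sE_y0 hρ.le, zero_add, hθ]
  have e0 : V0 r δ y ζ = V0 r δ 0 θ := by unfold V0; rw [eθ]
  have e1 : V1 r δ y ζ = V1 r δ 0 θ := by unfold V1; rw [eθ]
  have e2 : V2 r δ y ζ = V2 r δ 0 θ := by unfold V2; rw [eθ]
  have hM := sM_y0_le hr hδ hA.y1 hL hq hlam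
  have hd : ‖kap r δ y - r‖ ≤ kt * H := hL.l1.trans hkt
  have s0 := hS.s0
  have s1 := hS.s1
  have s2 := hS.s2
  rw [kap_y0 hr hδ] at s1 s2
  have hM0 : 0 ≤ sM r δ 0 := (sM_pos (by norm_num)).le
  rw [← e0] at s0
  rw [← e1, ← e0] at s1
  rw [← e2, ← e1, ← e0] at s2
  set d : ℂ := kap r δ y - r with hdd
  set A0 := V0 r δ y ζ
  set A1 := V1 r δ y ζ
  set A2 := V2 r δ y ζ
  refine ⟨?_, ?_, ?_⟩
  · calc ‖A0‖ ≤ f0 * sM r δ 0 := s0
      _ ≤ f0 * (lam * sM r δ y) := mul_le_mul_of_nonneg_left hM hf0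
      _ = _ := by ring
  · have h1 : A1 - kap r δ y * A0 = (A1 - r * A0) - d * A0 := by rw [hdd]; ring
    calc ‖A1 - kap r δ y * A0‖ ≤ ‖A1 - r * A0‖ + ‖d * A0‖ := by rw [h1]; exact norm_sub_le _ _
      _ ≤ f1 * H * sM r δ 0 + kt * H * (f0 * sM r δ 0) := by
          rw [norm_mul]
          exact add_le_add s1 (mul_le_mul hd s0 (norm_nonneg _) (by positivity))
      _ = (f1 + kt * f0) * H * sM r δ 0 := by ring
      _ ≤ (f1 + kt * f0) * H * (lam * sM r δ y) := mul_le_mul_of_nonneg_left hM (by positivity)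
      _ = _ := by ring
  · have h1 : A2 - 2 * kap r δ y * A1 + kap r δ y ^ 2 * A0 =
        (A2 - 2 * r * A1 + r ^ 2 * A0) - 2 * d * (A1 - r * A0) + d ^ 2 * A0 := by rw [hdd]; ring
    calc ‖A2 - 2 * kap r δ y * A1 + kap r δ y ^ 2 * A0‖ ≤
        ‖A2 - 2 * r * A1 + r ^ 2 * A0‖ + ‖2 * d * (A1 - r * A0)‖ + ‖d ^ 2 * A0‖ := by
          rw [h1]
          exact (norm_add_le _ _).trans (add_le_add (norm_sub_le _ _) le_rfl)
      _ ≤ f2 * H ^ 2 * sM r δ 0 + 2 * (kt * H) * (f1 * H * sM r δ 0) +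
          (kt * H) ^ 2 * (f0 * sM r δ 0) := by
          rw [norm_mul, norm_mul, norm_mul, norm_pow, Complex.norm_two]
          refine add_le_add (add_le_add s2 ?_) ?_
          · exact mul_le_mul (mul_le_mul_of_nonneg_left hd (by norm_num)) s1 (norm_nonneg _)
              (by positivity)
          · exact mul_le_mul (pow_le_pow_left₀ (norm_nonneg _) hd 2) s0 (norm_nonneg _)
              (by positivity)
      _ = (f2 + 2 * kt * f1 + kt ^ 2 * f0) * H ^ 2 * sM r δ 0 := by ring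
      _ ≤ (f2 + 2 * kt * f1 + kt ^ 2 * f0) * H ^ 2 * (lam * sM r δ y) :=
          mul_le_mul_of_nonneg_left hM (by positivity)
      _ = _ := by ring

/-- the height at the centre saddle -/
theorem Ht_y0 (x θ a s : ℝ) : Ht x 0 θ a s = a * s - x * (Real.exp a * Real.cos (s + θ) - 1 - a) := by
  unfold Ht
  ring

/-- the common layer at the centre saddle: `H' = Ht ρ 0 θ (pa ρ 0 s) s / δ` -/
theorem shf_y0 {r δ θ H f0 f1 f2 : ℝ} (hr : 0 < r) (hδ : 0 < δ)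
    (h0 : mW r δ 0 θ (fun _ => 1) ≤ f0 * sG r δ 0)
    (h1 : r * mW r δ 0 θ (fun s => √(uW (r * δ) 0 θ s)) ≤ f1 * H * sG r δ 0)
    (h2 : r ^ 2 * mW r δ 0 θ (uW (r * δ) 0 θ) +
      r * mW r δ 0 θ (fun s => Real.exp (pa (r * δ) 0 s)) ≤ f2 * H ^ 2 * sG r δ 0) :
    Shf r δ 0 θ H f0 f1 f2 := by
  have hρ := mul_pos hr hδ
  have hk : ‖kap r δ 0‖ = r := by
    rw [kap_y0 hr hδ, Complex.norm_real, Real.norm_of_nonneg hr.le]
  refine shf_of hδ (dom_y0 hρ) (by norm_num) h0 ?_ ?_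
  · rw [hk]; exact h1
  · rw [hk]; exact h2

end SokalV3
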