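import Pool.Agent.Lib_MP_af4de1_v3.CenB
import Pool.Agent.Lib_MP_af4de1_v3.CenRedM

/-!
# CEN: closed forms of the zones (definitions) and elementary facts (owner helper66)

Left zones are for `θ = t`, right zones for `θ = -t`; `t > 0` may be larger than `π` (images, `t' = 2π - t`).
`w = e^(c + i d)`: left `c = -y ≤ 0`, `d = ψ ≥ 0`; right `c = n ≥ 0`, `d = -p ≤ 0`.
-/

set_option autoImplicit false

namespace SokalCen

open Real MeasureTheory Set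

/-- the direction of the saddle -/
noncomputable def ww (c d : ℝ) : ℂ := Complex.exp (c + d * Complex.I)

theorem pi_gt_d : (3.1415 : ℝ) < π := Real.pi_gt_d4
theorem pi_lt_d : π < (3.1416 : ℝ) := Real.pi_lt_d4

/-! ### behind, left: `v = t + z`, `0 ≤ z ≤ 6/5` -/

/-- slope -/
noncomputable def bbL (q m ρ t : ℝ) : ℝ := q * (AL m ρ t * t)
/-- curvature -/
noncomputable def BBL (q m t : ℝ) : ℝ := q * (11 / 25 * exp (-cT m (t + 6 / 5)))
noncomputable def b0L (q m ρ t : ℝ) : ℝ :=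
  exp (-(q * (AL m ρ t * t ^ 2))) * h0 (bbL q m ρ t) (BBL q m t)
noncomputable def bWL (q m ρ t K2 : ℝ) : ℝ :=
  exp (-(q * (AL m ρ t * t ^ 2))) * (h0 (bbL q m ρ t) (BBL q m t) * (t ^ 2 / m ^ 2 + 5 * K2) +
    h1 (BBL q m t) * (2 * t / m ^ 2) + h2 (BBL q m t) * (1 / m ^ 2 + 5 / 4))

/-! ### behind, right: `s = t + z` -/

noncomputable def bbR (q m ρ t : ℝ) : ℝ := q * (AR m ρ t * t)
noncomputable def BBR (q : ℝ) : ℝ := q * (11 / 25)
noncomputable def b0R (q m ρ t : ℝ) : ℝ :=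
  exp (-(q * (AR m ρ t * t ^ 2))) * h0 (bbR q m ρ t) (BBR q)
/-- `e^a` at the end -/
noncomputable def eE (m t : ℝ) : ℝ := exp ((t + 6 / 5) / m)
noncomputable def bWR (q m ρ t n p : ℝ) : ℝ :=
  exp (-(q * (AR m ρ t * t ^ 2))) * (h0 (bbR q m ρ t) (BBR q) *
      ((exp (t / m) - 1) ^ 2 + (exp n - 1) ^ 2 + 5 * eE m t * exp n * p ^ 2) +
    h1 (BBR q) * (((eE m t - 1) ^ 2 - (exp (t / m) - 1) ^ 2) / (6 / 5)) +
    h2 (BBR q) * (5 / 4 * eE m t * exp n))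
noncomputable def beR (q m ρ t : ℝ) : ℝ :=
  exp (-(q * (AR m ρ t * t ^ 2))) * (h0 (bbR q m ρ t) (BBR q) * exp (t / m) +
    h1 (BBR q) * ((eE m t - exp (t / m)) / (6 / 5)))

/-! ### front, left (`θ = t < 6/5`, `0 ≤ s ≤ 6/5 - t`): slope `q sin t` -/

/-- `min (h0 b B) (1/b)` -/
noncomputable def k0 (b B : ℝ) : ℝ := min (h0 b B) (1 / b)
/-- `∫ z e^(-bz-Bz²)` -/
noncomputable def k1 (b B : ℝ) : ℝ := min (h1 B) (1 / b ^ 2)
/-- `(e^T - 1)/T`, `T = cT m (6/5)` -/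
noncomputable def e1c (m t : ℝ) : ℝ := (exp (cT m t) - 1) / cT m t
noncomputable def BFL (q m ρ : ℝ) : ℝ := q * AR m ρ (6 / 5)
noncomputable def f0L (q m ρ t : ℝ) : ℝ := exp (-(q * (1 - cos t))) * k0 (q * sin t) (BFL q m ρ)
noncomputable def fWL (q m ρ t y : ℝ) : ℝ :=
  exp (-(q * (1 - cos t))) * (k0 (q * sin t) (BFL q m ρ) * (y ^ 2 + t ^ 2) +
    k1 (q * sin t) (BFL q m ρ) * (2 * e1c m (6 / 5) * y / m + 2 * t + e1c m (6 / 5) * t ^ 2 / m) +
    h2 (BFL q m ρ) * (e1c m (6 / 5) ^ 2 / m ^ 2 + 1 + 2 * e1c m (6 / 5) * t / m +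
      6 / 5 * e1c m (6 / 5) / m))
noncomputable def feL (q m ρ t : ℝ) : ℝ :=
  exp (-(q * (1 - cos t))) * (k0 (q * sin t) (BFL q m ρ) +
    k1 (q * sin t) (BFL q m ρ) * (e1c m (6 / 5) / m))

/-! ### front, right (`θ = -t`, `-(6/5 - t) ≤ s ≤ 0`) -/

noncomputable def BFR (q m ρ : ℝ) : ℝ := q * AL m ρ (6 / 5)
noncomputable def f0R (q m ρ t : ℝ) : ℝ := exp (-(q * (1 - cos t))) * (√(π / BFR q m ρ) / 2)
noncomputable def fWR (q m ρ t n : ℝ) : ℝ :=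
  exp (-(q * (1 - cos t))) * (√(π / BFR q m ρ) / 2 * ((exp n - 1) ^ 2 + exp n * t ^ 2) +
    h1 (BFR q m ρ) * (2 * (exp n - 1) / m + 2 * exp n * t) +
    h2 (BFR q m ρ) * (1 / m ^ 2 + exp n))

/-! ### far and rest -/

/-- `∫_[S,∞) exp (-q Qm)`, `A = AR m ρ S` or `AL m ρ S` -/
noncomputable def fa0 (q A S : ℝ) : ℝ := exp (-(q * (A * S ^ 2))) / (q * (A * S))

/-- `λ` -/
noncomputable def laR (q m ρ ε : ℝ) : ℝ := 2 / 5 * (ε * q * (m / ρ))
noncomputable def re0 (q m ρ ε : ℝ) : ℝ :=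
  exp (-((1 - ε) * q / 2)) * (m * (√(π / laR q m ρ ε) + 2 / laR q m ρ ε))

/-! ### elementary facts -/

/-- the weight in real form -/
theorem Wm_eq (m θ c d s : ℝ) : Wm m θ (ww c d) s = (exp (pm m s) - exp c) ^ 2 +
    2 * exp (pm m s + c) * (1 - cos (θ + s - d)) := by
  unfold Wm em ww
  have e : Complex.exp (pm m s + (θ + s) * Complex.I) - Complex.exp (c + d * Complex.I) =
      ((exp (pm m s) * cos (θ + s) - exp c * cos d : ℝ) : ℂ) +
      ((exp (pm m s) * sin (θ + s) - exp c * sin d : ℝ) : ℂ) * Complex.I := by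
    rw [Complex.exp_add, Complex.exp_add, Complex.exp_mul_I, Complex.exp_mul_I]
    push_cast
    ring
  rw [e, Complex.sq_norm, Complex.normSq_add_mul_I, Real.exp_add, Real.cos_sub]
  have h1 := Real.sin_sq_add_cos_sq (θ + s)
  have h2 := Real.sin_sq_add_cos_sq d
  have h3 : exp (pm m s) ^ 2 * (sin (θ + s) ^ 2 + cos (θ + s) ^ 2) = exp (pm m s) ^ 2 := by
    rw [h1, mul_one]
  have h4 : exp c ^ 2 * (sin d ^ 2 + cos d ^ 2) = exp c ^ 2 := by rw [h2, mul_one]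
  nlinarith [h3, h4]

theorem Dm_period (m ρ θ s : ℝ) : Dm m ρ (θ - 2 * π) s = Dm m ρ θ s := by
  unfold Dm
  have : θ - 2 * π + s = θ + s - 2 * π := by ring
  rw [this, Real.cos_sub_two_pi]

theorem em_period (m θ s : ℝ) : em m (θ - 2 * π) s = em m θ s := by
  unfold em
  have : (pm m s : ℂ) + (((θ - 2 * π : ℝ) : ℂ) + s) * Complex.I =
      pm m s + (θ + s) * Complex.I - 2 * π * Complex.I := by
    push_cast
    ring
  rw [this, Complex.exp_sub, Complex.exp_two_pi_mul_I, div_one]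

theorem zone_period {q m ρ θ : ℝ} {w : ℂ} {S : Set ℝ} {I0 IW Ie : ℝ}
    (h : Zone q m ρ (θ - 2 * π) w S I0 IW Ie) : Zone q m ρ θ w S I0 IW Ie := by
  have e1 : ∀ s, Dm m ρ (θ - 2 * π) s = Dm m ρ θ s := Dm_period m ρ θ
  have e2 : ∀ s, Wm m (θ - 2 * π) w s = Wm m θ w s := fun s => by
    unfold Wm
    rw [em_period]
  obtain ⟨h0, h1, h2⟩ := h
  refine ⟨?_, ?_, ?_⟩
  · simpa only [e1] using h0
  · simpa only [e1, e2] using h1
  · simpa only [e1] using h2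

end SokalCen
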