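import Pool.Agent.Lib_MP_af4de1_v3.CenZ
import Pool.Agent.Lib_MP_af4de1_v3.CenBehL

/-! # CEN zone 2, left (behind): `s = -(t+z)`, `0 ≤ z ≤ 6/5`, base point `1` (helper69).
`Dm ≥ AL t² + AL t z + (11/25) e^(-cT m (t+6/5)) z²` (`Qm_beh_L`, `beh_cos`), `W ≤ (t+z)²/m² + z²`. -/

set_option autoImplicit false

namespace SokalCen

open Real MeasureTheory Set

/-- `-cT m T ≤ pm m (-v)` for `v ≤ T` -/
theorem neg_cT_le_pm {m v T : ℝ} (hm : 0 < m) (hT : 0 ≤ T) (hv : v ≤ T) : -cT m T ≤ pm m (-v) := by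
  have h1 : v / m ≤ T / m := div_le_div_of_nonneg_right hv hm.le
  have h3 : -v / m = -(v / m) := by ring
  have h4 : 0 ≤ T / m := div_nonneg hT hm.le
  unfold pm cT
  rw [h3]
  rcases le_total 1 (T / m) with h | h
  · rw [min_eq_left h]
    exact le_max_left _ _
  · rw [min_eq_right h]
    refine le_trans ?_ (le_max_right _ _)
    exact le_min (by linarith) (by linarith)

/-- `bWL` for the base point `1` -/
noncomputable def bWL1 (q m ρ t : ℝ) : ℝ :=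
  exp (-(q * (AL m ρ t * t ^ 2))) * (h0 (bbL q m ρ t) (BBL q m t) * (t ^ 2 / m ^ 2) +
    h1 (BBL q m t) * (2 * t / m ^ 2) + h2 (BBL q m t) * (1 / m ^ 2 + 1))

theorem BBL_pos {q m t : ℝ} (hq : 0 < q) : 0 < BBL q m t := by
  unfold BBL
  positivity

theorem bbL_nonneg {q m ρ t : ℝ} (hq : 0 < q) (hρ : 0 < ρ) (hm : ρ ≤ m) (ht : 0 < t) :
    0 ≤ bbL q m ρ t := by
  have := AL_pos hρ hm ht
  unfold bbL
  positivity

theorem b0L_nonneg {q m ρ t : ℝ} (hq : 0 < q) (hρ : 0 < ρ) (hm : ρ ≤ m) (ht : 0 < t) :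
    0 ≤ b0L q m ρ t :=
  mul_nonneg (exp_pos _).le (h0_nonneg (bbL_nonneg hq hρ hm ht) (BBL_pos hq))

theorem bWL1_nonneg {q m ρ t : ℝ} (hq : 0 < q) (hρ : 0 < ρ) (hm : ρ ≤ m) (ht : 0 < t) :
    0 ≤ bWL1 q m ρ t := by
  have h0 := h0_nonneg (bbL_nonneg hq hρ hm ht) (BBL_pos (m := m) (t := t) hq)
  have h1 := h1_nonneg (BBL_pos (m := m) (t := t) hq)
  have h2 := h2_nonneg (BBL_pos (m := m) (t := t) hq)
  unfold bWL1
  positivity

/-- `bWL1 ≤ bWL` -/
theorem bWL1_le {q m ρ t K2 : ℝ} (hq : 0 < q) (hρ : 0 < ρ) (hm : ρ ≤ m) (ht : 0 < t)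
    (hK : 0 ≤ K2) : bWL1 q m ρ t ≤ bWL q m ρ t K2 := by
  have n0 := h0_nonneg (bbL_nonneg hq hρ hm ht) (BBL_pos (m := m) (t := t) hq)
  have n2 := h2_nonneg (BBL_pos (m := m) (t := t) hq)
  unfold bWL1 bWL
  refine mul_le_mul_of_nonneg_left ?_ (exp_pos _).le
  have e1 : h0 (bbL q m ρ t) (BBL q m t) * (t ^ 2 / m ^ 2) ≤
      h0 (bbL q m ρ t) (BBL q m t) * (t ^ 2 / m ^ 2 + 5 * K2) :=
    mul_le_mul_of_nonneg_left (by linarith) n0
  have e2 : h2 (BBL q m t) * (1 / m ^ 2 + 1) ≤ h2 (BBL q m t) * (1 / m ^ 2 + 5 / 4) :=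
    mul_le_mul_of_nonneg_left (by linarith) n2
  linarith

theorem Z2L1 {q m ρ t : ℝ} (hq : 0 < q) (hρ : 0 < ρ) (hm : ρ ≤ m) (ht : 0 < t) :
    Zone q m ρ t 1 (Icc (-(t + 6 / 5)) (-t)) (b0L q m ρ t) (bWL1 q m ρ t) (b0L q m ρ t) := by
  have hm0 : 0 < m := hρ.trans_le hm
  have hA := AL_pos hρ hm ht
  have h := Zone.below (q := q) (m := m) (ρ := ρ) (θ := t) (w := 1) (c := -t)
    (a0 := AL m ρ t * t ^ 2) (b := AL m ρ t * t) (B := 11 / 25 * exp (-cT m (t + 6 / 5))) (e0 := 1)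
    (c0 := t ^ 2 / m ^ 2) (c1 := 2 * t / m ^ 2) (c2 := 1 / m ^ 2 + 1)
    (measurableSet_Icc (a := -(t + 6 / 5)) (b := -t)) hq (by positivity) (by positivity)
    (by positivity) (by positivity) (by positivity) zero_le_one (fun s hs => hs.2) ?_ ?_ ?_
  · rw [one_mul] at h
    have e : exp (-(q * (AL m ρ t * t ^ 2))) * (t ^ 2 / m ^ 2 * h0 (q * (AL m ρ t * t))
        (q * (11 / 25 * exp (-cT m (t + 6 / 5)))) + 2 * t / m ^ 2 *
        h1 (q * (11 / 25 * exp (-cT m (t + 6 / 5)))) + (1 / m ^ 2 + 1) *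
        h2 (q * (11 / 25 * exp (-cT m (t + 6 / 5))))) = bWL1 q m ρ t := by
      unfold bWL1 bbL BBL
      ring
    rw [e] at h
    exact h
  · intro s hs
    set z := -t - s with hz
    have hz0 : 0 ≤ z := by linarith [hs.2]
    have hz1 : z ≤ 6 / 5 := by linarith [hs.1]
    have hs' : s = -(t + z) := by rw [hz]; ring
    rw [Dm_eq, hs']
    have h1 := Qm_beh_L hρ hm ht hz0
    have h2 : exp (-cT m (t + 6 / 5)) * (11 / 25 * z ^ 2) ≤
        exp (pm m (-(t + z))) * (1 - cos (t + -(t + z))) := by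
      apply mul_le_mul
      · exact exp_le_exp.2 (neg_cT_le_pm hm0 (by linarith) (by linarith))
      · have e : t + -(t + z) = -z := by ring
        rw [e, cos_neg]
        exact beh_cos hz0 hz1
      · positivity
      · exact (exp_pos _).le
    linarith
  · intro s hs
    set z := -t - s with hz
    have hz0 : 0 ≤ z := by linarith [hs.2]
    have hs' : s = -(t + z) := by rw [hz]; ring
    rw [hs']
    refine (beh_Wm_left hm0 (by linarith)).trans (le_of_eq ?_)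
    field_simp
    ring
  · intro s hs
    exact exp_le_one_iff.2 (pm_nonpos hm0 (by linarith [hs.2]))

end SokalCen
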