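import Pool.Agent.Lib_MP_af4de1_v3.CenZ
import Pool.Agent.Lib_MP_af4de1_v3.CenFront

/-!
# CEN: half line integrals with the closed forms `k0`, `k1` of `CenZ`, and the geometry of the front zones
-/

set_option autoImplicit false

namespace SokalCen

open Real MeasureTheory Set

private theorem k_exp {b : ℝ} (hb : 0 < b) :
    ∫⁻ z in Ioi (0 : ℝ), ENNReal.ofReal (exp (-(b * z))) = ENNReal.ofReal (1 / b) := by
  have hi : IntegrableOn (fun z : ℝ => exp (-(b * z))) (Ioi 0) := by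
    have h := integrableOn_exp_mul_Ioi (a := -b) (by linarith) 0
    refine h.congr_fun (fun z _ => ?_) measurableSet_Ioi
    simp only [neg_mul]
  have hv : ∫ z in Ioi (0 : ℝ), exp (-(b * z)) = 1 / b := by
    have h := integral_exp_mul_Ioi (a := -b) (by linarith) 0
    have e : ∫ z in Ioi (0 : ℝ), exp (-(b * z)) = ∫ z in Ioi (0 : ℝ), exp (-b * z) := by
      refine setIntegral_congr_fun measurableSet_Ioi fun z _ => ?_
      simp only [neg_mul]
    rw [e, h]
    simp
  rw [← hv, ofReal_integral_eq_lintegral_ofReal hi]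
  exact Filter.Eventually.of_forall fun z => (exp_pos _).le

private theorem k_exp1 {b : ℝ} (hb : 0 < b) :
    ∫⁻ z in Ioi (0 : ℝ), ENNReal.ofReal (z * exp (-(b * z))) = ENNReal.ofReal (1 / b ^ 2) := by
  have hi : IntegrableOn (fun z : ℝ => z * exp (-(b * z))) (Ioi 0) := by
    have h := integrableOn_rpow_mul_exp_neg_mul_rpow (p := 1) (s := 1) (by norm_num) one_pos hb
    refine h.congr_fun (fun z _ => ?_) measurableSet_Ioi
    simp only [neg_mul, rpow_one]
  have hv : ∫ z in Ioi (0 : ℝ), z * exp (-(b * z)) = 1 / b ^ 2 := by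
    have h := integral_rpow_mul_exp_neg_mul_Ioi (a := 2) (r := b) (by norm_num) hb
    have e : ∫ z in Ioi (0 : ℝ), z * exp (-(b * z)) =
        ∫ t in Ioi (0 : ℝ), t ^ ((2 : ℝ) - 1) * exp (-(b * t)) := by
      refine setIntegral_congr_fun measurableSet_Ioi fun z _ => ?_
      norm_num
    rw [e, h]
    rw [Real.Gamma_two, mul_one, rpow_two]
    field_simp
  rw [← hv, ofReal_integral_eq_lintegral_ofReal hi]
  refine (ae_restrict_iff' measurableSet_Ioi).2 (Filter.Eventually.of_forall fun z hz => ?_)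
  exact mul_nonneg (le_of_lt hz) (exp_pos _).le

theorem fk_k0_le {b B : ℝ} (hb : 0 < b) (hB : 0 < B) :
    ∫⁻ z in Ioi (0 : ℝ), ENNReal.ofReal (exp (-(b * z + B * z ^ 2))) ≤
      ENNReal.ofReal (k0 b B) := by
  have h1 := h0_le hb.le hB
  have h2 : ∫⁻ z in Ioi (0 : ℝ), ENNReal.ofReal (exp (-(b * z + B * z ^ 2))) ≤
      ENNReal.ofReal (1 / b) := by
    rw [← k_exp hb]
    refine lintegral_mono fun z => ENNReal.ofReal_le_ofReal (exp_le_exp.2 ?_)
    have := mul_nonneg hB.le (sq_nonneg z)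
    linarith
  unfold k0
  rcases le_total (h0 b B) (1 / b) with h | h
  · rwa [min_eq_left h]
  · rwa [min_eq_right h]

theorem fk_k1_le {b B : ℝ} (hb : 0 < b) (hB : 0 < B) :
    ∫⁻ z in Ioi (0 : ℝ), ENNReal.ofReal (z * exp (-(b * z + B * z ^ 2))) ≤
      ENNReal.ofReal (k1 b B) := by
  have h1' := h1_le hb.le hB
  have h2 : ∫⁻ z in Ioi (0 : ℝ), ENNReal.ofReal (z * exp (-(b * z + B * z ^ 2))) ≤
      ENNReal.ofReal (1 / b ^ 2) := by
    rw [← k_exp1 hb]
    refine setLIntegral_mono' measurableSet_Ioi fun z hz => ENNReal.ofReal_le_ofReal ?_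
    refine mul_le_mul_of_nonneg_left (exp_le_exp.2 ?_) (le_of_lt hz)
    have := mul_nonneg hB.le (sq_nonneg z)
    linarith
  unfold k1
  rcases le_total (h1 B) (1 / b ^ 2) with h | h
  · rwa [min_eq_left h]
  · rwa [min_eq_right h]

theorem fk_h0_nonneg {b B : ℝ} (hB : 0 < B) : 0 ≤ h0 b B := by
  unfold h0
  refine le_min (by positivity) ?_
  have := half_nonneg (b := B) (c0 := 1) (c1 := -b) (c2 := b ^ 2 / 2) hB (fun z _ => by
    nlinarith [sq_nonneg (b * z - 1)])
  refine this.trans (le_of_eq ?_)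
  field_simp
  ring

theorem fk_k0_nonneg {b B : ℝ} (hb : 0 < b) (hB : 0 < B) : 0 ≤ k0 b B :=
  le_min (fk_h0_nonneg hB) (by positivity)

theorem fk_k1_nonneg {b B : ℝ} (hb : 0 < b) (hB : 0 < B) : 0 ≤ k1 b B := by
  unfold k1 h1
  exact le_min (by positivity) (by positivity)

/-- three bounds at once over `[0, X]` -/
theorem kr_int {X K b B c0 c1 c2 J0 J1 J2 : ℝ} {F : ℝ → ℝ} (hK : 0 ≤ K)
    (h0 : 0 ≤ c0) (h1 : 0 ≤ c1) (h2 : 0 ≤ c2) (g0 : 0 ≤ J0) (g1 : 0 ≤ J1) (g2 : 0 ≤ J2)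
    (i0 : ∫⁻ z in Ioi (0 : ℝ), ENNReal.ofReal (exp (-(b * z + B * z ^ 2))) ≤ ENNReal.ofReal J0)
    (i1 : ∫⁻ z in Ioi (0 : ℝ), ENNReal.ofReal (z * exp (-(b * z + B * z ^ 2))) ≤
      ENNReal.ofReal J1)
    (i2 : ∫⁻ z in Ioi (0 : ℝ), ENNReal.ofReal (z ^ 2 * exp (-(b * z + B * z ^ 2))) ≤
      ENNReal.ofReal J2)
    (h : ∀ z : ℝ, 0 < z → z ≤ X → F z ≤ K * ((c0 + c1 * z + c2 * z ^ 2) *
      exp (-(b * z + B * z ^ 2)))) :
    ∫⁻ z in Icc 0 X, ENNReal.ofReal (F z) ≤
      ENNReal.ofReal (K * (J0 * c0 + J1 * c1 + J2 * c2)) := by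
  have hm0 : Measurable fun z : ℝ => ENNReal.ofReal c0 *
      ENNReal.ofReal (exp (-(b * z + B * z ^ 2))) := by
    fun_prop
  have hm1 : Measurable fun z : ℝ => ENNReal.ofReal c0 *
      ENNReal.ofReal (exp (-(b * z + B * z ^ 2))) +
      ENNReal.ofReal c1 * ENNReal.ofReal (z * exp (-(b * z + B * z ^ 2))) := by
    fun_prop
  have key : ∫⁻ z in Ioi (0 : ℝ), ENNReal.ofReal ((c0 + c1 * z + c2 * z ^ 2) *
        exp (-(b * z + B * z ^ 2))) ≤ ENNReal.ofReal (J0 * c0 + J1 * c1 + J2 * c2) := by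
    calc ∫⁻ z in Ioi (0 : ℝ), ENNReal.ofReal ((c0 + c1 * z + c2 * z ^ 2) *
          exp (-(b * z + B * z ^ 2)))
        = ∫⁻ z in Ioi (0 : ℝ), ((ENNReal.ofReal c0 * ENNReal.ofReal (exp (-(b * z + B * z ^ 2))) +
            ENNReal.ofReal c1 * ENNReal.ofReal (z * exp (-(b * z + B * z ^ 2)))) +
            ENNReal.ofReal c2 * ENNReal.ofReal (z ^ 2 * exp (-(b * z + B * z ^ 2)))) := by
          refine setLIntegral_congr_fun measurableSet_Ioi fun z hz => ?_
          have hz' : 0 ≤ z := le_of_lt hz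
          have he : 0 ≤ exp (-(b * z + B * z ^ 2)) := (exp_pos _).le
          rw [← ENNReal.ofReal_mul h0, ← ENNReal.ofReal_mul h1, ← ENNReal.ofReal_mul h2,
            ← ENNReal.ofReal_add (by positivity) (by positivity),
            ← ENNReal.ofReal_add (by positivity) (by positivity)]
          congr 1
          ring
      _ = ENNReal.ofReal c0 * (∫⁻ z in Ioi (0 : ℝ), ENNReal.ofReal (exp (-(b * z + B * z ^ 2)))) +
          ENNReal.ofReal c1 * (∫⁻ z in Ioi (0 : ℝ), ENNReal.ofReal (z * exp (-(b * z + B * z ^ 2)))) +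
          ENNReal.ofReal c2 * (∫⁻ z in Ioi (0 : ℝ),
            ENNReal.ofReal (z ^ 2 * exp (-(b * z + B * z ^ 2)))) := by
          rw [lintegral_add_left hm1, lintegral_add_left hm0,
            lintegral_const_mul' _ _ ENNReal.ofReal_ne_top,
            lintegral_const_mul' _ _ ENNReal.ofReal_ne_top,
            lintegral_const_mul' _ _ ENNReal.ofReal_ne_top]
      _ ≤ ENNReal.ofReal c0 * ENNReal.ofReal J0 + ENNReal.ofReal c1 * ENNReal.ofReal J1 +
          ENNReal.ofReal c2 * ENNReal.ofReal J2 :=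
          add_le_add (add_le_add (mul_le_mul_right i0 _) (mul_le_mul_right i1 _))
            (mul_le_mul_right i2 _)
      _ = _ := by
          rw [← ENNReal.ofReal_mul h0, ← ENNReal.ofReal_mul h1, ← ENNReal.ofReal_mul h2,
            ← ENNReal.ofReal_add (by positivity) (by positivity),
            ← ENNReal.ofReal_add (by positivity) (by positivity)]
          congr 1
          ring
  calc ∫⁻ z in Icc 0 X, ENNReal.ofReal (F z) = ∫⁻ z in Ioc 0 X, ENNReal.ofReal (F z) :=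
        (setLIntegral_congr Ioc_ae_eq_Icc).symm
    _ ≤ ∫⁻ z in Ioc 0 X, ENNReal.ofReal K * ENNReal.ofReal ((c0 + c1 * z + c2 * z ^ 2) *
          exp (-(b * z + B * z ^ 2))) :=
        setLIntegral_mono' measurableSet_Ioc fun z hz => by
          rw [← ENNReal.ofReal_mul hK]
          exact ENNReal.ofReal_le_ofReal (h z hz.1 hz.2)
    _ ≤ ∫⁻ z in Ioi (0 : ℝ), ENNReal.ofReal K * ENNReal.ofReal ((c0 + c1 * z + c2 * z ^ 2) *
          exp (-(b * z + B * z ^ 2))) := lintegral_mono_set Ioc_subset_Ioi_self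
    _ = ENNReal.ofReal K * ∫⁻ z in Ioi (0 : ℝ), ENNReal.ofReal ((c0 + c1 * z + c2 * z ^ 2) *
          exp (-(b * z + B * z ^ 2))) := lintegral_const_mul' _ _ ENNReal.ofReal_ne_top
    _ ≤ ENNReal.ofReal K * ENNReal.ofReal (J0 * c0 + J1 * c1 + J2 * c2) :=
        mul_le_mul_right key _
    _ = _ := (ENNReal.ofReal_mul hK).symm

/-- `e^a - 1 ≤ a (e^T - 1)/T` on `[0, T]` -/
theorem fk_chord {a T : ℝ} (h0 : 0 ≤ a) (h : a ≤ T) (hT : 0 < T) :
    exp a - 1 ≤ a * ((exp T - 1) / T) := by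
  have h1 : a / T ≤ 1 := by rwa [div_le_one hT]
  have h2 : 0 ≤ a / T := by positivity
  have h3 := convexOn_exp.2 (mem_univ (0 : ℝ)) (mem_univ T)
    (show (0 : ℝ) ≤ 1 - a / T by linarith) h2 (by ring)
  simp only [smul_eq_mul, mul_zero, zero_add, exp_zero, mul_one] at h3
  have e : a / T * T = a := by field_simp
  rw [e] at h3
  have e2 : a * ((exp T - 1) / T) = a / T * exp T - a / T := by
    field_simp
  rw [e2]
  linarith

/-- `1 - cos t ≤ e^(-v/m) (1 - cos (t+v))`, `m ≥ 6/5` -/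
theorem fr_left' {m t v : ℝ} (hm : 6 / 5 ≤ m) (ht : 0 < t) (hv : 0 ≤ v) (h : t + v ≤ 6 / 5) :
    1 - cos t ≤ exp (-(v / m)) * (1 - cos (t + v)) := by
  have hm0 : 0 < m := by linarith
  have h1 := fr_left (m := 5 / 4) (t := t) (v := v) le_rfl ht hv h
  have h2 : 0 ≤ 1 - cos t := by linarith [cos_le_one t]
  have h3 : 0 ≤ 1 - cos (t + v) := by linarith [cos_le_one (t + v)]
  have h4 : exp (-(v / (5 / 4))) ≤ exp (-(v / m)) * (1 + v / 2) := by
    have h5 : v / m ≤ v * (5 / 6) := by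
      rw [div_le_iff₀ hm0]
      nlinarith
    have h6 : exp (-(v / (5 / 4))) = exp (-(v / m)) * exp (v / m - v / (5 / 4)) := by
      rw [← exp_add]
      congr 1
      ring
    rw [h6]
    refine mul_le_mul_of_nonneg_left ?_ (exp_pos _).le
    have h7 : v / m - v / (5 / 4) ≤ v / 30 := by
      have : v / (5 / 4) = v * (4 / 5) := by ring
      rw [this]
      linarith
    have h8 : exp (v / m - v / (5 / 4)) ≤ exp (v / 30) := exp_le_exp.2 h7
    have h9 : exp (v / 30) ≤ 1 + v / 2 := by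
      have h10 := fk_chord (a := v / 30) (T := 1) (by positivity) (by linarith) one_pos
      have h11 := Real.exp_one_lt_d9
      rw [div_one] at h10
      nlinarith
    exact h8.trans h9
  have h5 : (1 - cos t) * (1 + v / 2) ≤ exp (-(v / m)) * (1 + v / 2) * (1 - cos (t + v)) :=
    h1.trans (mul_le_mul_of_nonneg_right h4 h3)
  have h6 : 0 < 1 + v / 2 := by linarith
  have h7 : (1 - cos t) * (1 + v / 2) ≤ (exp (-(v / m)) * (1 - cos (t + v))) * (1 + v / 2) := by
    linarith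
  exact le_of_mul_le_mul_right h7 h6

end SokalCen
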