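import Pool.Agent.Lib_MP_af4de1_v3.CenZ3K

/-! # CEN zone 3, left (front): `θ = t ≤ 6/5 ≤ m`, `0 ≤ s ≤ 6/5 - t`.
`Dm ≥ AR m ρ (6/5) s² + (1 - cos t) + s sin t` (`Qm_AR` with `t = 6/5`, `e^a ≥ 1`, `1 - cos` convex on `[0,π/2]`),
`W ≤ (e1 s/m + y)² + (1 + e1 s/m)(t+s)²`, `e1 = e1c m (6/5)`, `s³ ≤ (6/5) s²`. -/

set_option autoImplicit false

namespace SokalCen

open Real MeasureTheory Set

theorem fk_e1c_nonneg {m t : ℝ} (hm : 0 < m) (ht : 0 < t) : 0 ≤ e1c m t := by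
  have hT0 : 0 ≤ cT m t := cT_nonneg hm ht.le
  unfold e1c
  refine div_nonneg ?_ hT0
  have := one_le_exp hT0
  linarith

theorem Z3L {q m ρ t y ψ : ℝ} (hq : 0 < q) (hρ : 0 < ρ) (hm : ρ ≤ m) (hm2 : 6 / 5 ≤ m) (ht : 0 < t)
    (ht2 : t ≤ 6 / 5) (hy : 0 ≤ y) (hψ : 0 ≤ ψ) (hψ2 : ψ ≤ 2 * t) :
    Zone q m ρ t (ww (-y) ψ) (Icc 0 (6 / 5 - t)) (f0L q m ρ t) (fWL q m ρ t y) (feL q m ρ t) := by
  have hm0 : 0 < m := by linarith
  have hA := AR_pos (t := 6 / 5) hρ hm (by norm_num)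
  have hB : 0 < BFL q m ρ := mul_pos hq hA
  have hsin : 0 < sin t := sin_pos_of_pos_of_lt_pi ht (by linarith [pi_gt_three])
  have hb : 0 < q * sin t := mul_pos hq hsin
  have hK := (exp_pos (-(q * (1 - cos t)))).le
  have hTe : cT m (6 / 5) = (6 / 5) / m := min_eq_right (by rw [div_le_one hm0]; exact hm2)
  have hT0 : 0 < cT m (6 / 5) := by
    rw [hTe]
    positivity
  have he10 : 0 ≤ e1c m (6 / 5) := fk_e1c_nonneg hm0 (by norm_num)
  have hpa : ∀ s : ℝ, 0 < s → s ≤ 6 / 5 - t → pm m s = s / m := fun s hs hs' =>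
    pm_mid hm0 (by linarith) (by linarith)
  have hch : ∀ s : ℝ, 0 < s → s ≤ 6 / 5 - t → exp (s / m) ≤ 1 + s / m * e1c m (6 / 5) := by
    intro s hs hs'
    have h := fk_chord (a := s / m) (T := cT m (6 / 5)) (by positivity)
      (by rw [hTe]; exact div_le_div_of_nonneg_right (by linarith) hm0.le) hT0
    unfold e1c
    linarith
  have hD : ∀ s : ℝ, 0 < s → s ≤ 6 / 5 - t → q * (1 - cos t) + (q * sin t * s +
      BFL q m ρ * s ^ 2) ≤ q * Dm m ρ t s := by
    intro s hs hs'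
    have h1 := Qm_AR (t := 6 / 5) hρ hm hs.le (by linarith) (by norm_num)
    have h2 := fr_cos ht.le hs.le (by linarith)
    have h3 : 1 ≤ exp (pm m s) := one_le_exp (pm_nonneg hm0 hs.le)
    have h4 : 0 ≤ 1 - cos (t + s) := by linarith [cos_le_one (t + s)]
    rw [Dm_eq]
    unfold BFL
    have h5 : (1 - cos t + s * sin t) + AR m ρ (6 / 5) * s ^ 2 ≤
        Qm m ρ s + exp (pm m s) * (1 - cos (t + s)) := by nlinarith
    have h6 := mul_le_mul_of_nonneg_left h5 hq.le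
    linarith
  have g0 := fk_k0_nonneg hb hB
  have g1 := fk_k1_nonneg hb hB
  have g2 : 0 ≤ h2 (BFL q m ρ) := by
    unfold h2
    positivity
  have i0 := fk_k0_le hb hB
  have i1 := fk_k1_le hb hB
  have i2 := h2_le hb.le hB
  refine ⟨?_, ?_, ?_⟩
  · refine (kr_int (c0 := 1) (c1 := 0) (c2 := 0) hK (by norm_num) le_rfl le_rfl g0 g1 g2 i0 i1 i2
      fun z hz hz' => ?_).trans (le_of_eq ?_)
    · rw [show (1 + 0 * z + 0 * z ^ 2) = (1 : ℝ) by ring, one_mul, ← exp_add]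
      refine exp_le_exp.2 ?_
      have h1 := hD z hz hz'
      linarith
    · unfold f0L
      congr 1
      ring
  · refine (kr_int (c0 := y ^ 2 + t ^ 2)
      (c1 := 2 * e1c m (6 / 5) * y / m + 2 * t + e1c m (6 / 5) * t ^ 2 / m)
      (c2 := e1c m (6 / 5) ^ 2 / m ^ 2 + 1 + 2 * e1c m (6 / 5) * t / m + 6 / 5 * e1c m (6 / 5) / m)
      hK (by positivity) (by positivity) (by positivity) g0 g1 g2 i0 i1 i2 fun z hz hz' => ?_)
    have h1 := hD z hz hz'
    have h2 := hch z hz hz'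
    set e := e1c m (6 / 5)
    have hz0 : 0 ≤ z / m := by positivity
    have hW : Wm m t (ww (-y) ψ) z ≤ (y ^ 2 + t ^ 2) + (2 * e * y / m + 2 * t + e * t ^ 2 / m) * z +
        (e ^ 2 / m ^ 2 + 1 + 2 * e * t / m + 6 / 5 * e / m) * z ^ 2 := by
      rw [Wm_eq, hpa z hz hz']
      have h3 := Real.add_one_le_exp (-y)
      have h3' : exp (-y) ≤ 1 := exp_le_one_iff.2 (by linarith)
      have h4 : 1 ≤ exp (z / m) := one_le_exp hz0
      have h5 : (exp (z / m) - exp (-y)) ^ 2 ≤ (z / m * e + y) ^ 2 :=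
        pow_le_pow_left₀ (by linarith) (by linarith) 2
      have h6 : exp (z / m + -y) ≤ 1 + z / m * e := by
        rw [exp_add]
        nlinarith
      have h7 := Real.one_sub_sq_div_two_le_cos (x := t + z - ψ)
      have h8 : (t + z - ψ) ^ 2 ≤ (t + z) ^ 2 := by
        rw [sq_le_sq, abs_of_nonneg (by linarith : 0 ≤ t + z), abs_le]
        constructor <;> linarith
      have h9 : 2 * exp (z / m + -y) * (1 - cos (t + z - ψ)) ≤ (1 + z / m * e) * (t + z) ^ 2 := by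
        have h10 : 2 * (1 - cos (t + z - ψ)) ≤ (t + z) ^ 2 := by linarith
        have h11 : 0 ≤ 2 * (1 - cos (t + z - ψ)) := by linarith [cos_le_one (t + z - ψ)]
        calc 2 * exp (z / m + -y) * (1 - cos (t + z - ψ))
            = exp (z / m + -y) * (2 * (1 - cos (t + z - ψ))) := by ring
          _ ≤ _ := mul_le_mul h6 h10 h11 (by positivity)
      have h12 : z ^ 3 ≤ 6 / 5 * z ^ 2 := by nlinarith [sq_nonneg z]
      have h13 : e / m * z ^ 3 ≤ e / m * (6 / 5 * z ^ 2) :=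
        mul_le_mul_of_nonneg_left h12 (by positivity)
      refine (add_le_add h5 h9).trans ?_
      have e1 : (z / m * e + y) ^ 2 + (1 + z / m * e) * (t + z) ^ 2 =
          (y ^ 2 + t ^ 2) + (2 * e * y / m + 2 * t + e * t ^ 2 / m) * z +
            (e ^ 2 / m ^ 2 + 1 + 2 * e * t / m) * z ^ 2 + e / m * z ^ 3 := by
        field_simp
        ring
      have e2 : (e ^ 2 / m ^ 2 + 1 + 2 * e * t / m + 6 / 5 * e / m) * z ^ 2 =
          (e ^ 2 / m ^ 2 + 1 + 2 * e * t / m) * z ^ 2 + e / m * (6 / 5 * z ^ 2) := by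
        field_simp
      rw [e1, e2]
      linarith
    have hP : 0 ≤ (y ^ 2 + t ^ 2) + (2 * e * y / m + 2 * t + e * t ^ 2 / m) * z +
        (e ^ 2 / m ^ 2 + 1 + 2 * e * t / m + 6 / 5 * e / m) * z ^ 2 := by positivity
    calc Wm m t (ww (-y) ψ) z * exp (-(q * Dm m ρ t z))
        ≤ ((y ^ 2 + t ^ 2) + (2 * e * y / m + 2 * t + e * t ^ 2 / m) * z +
        (e ^ 2 / m ^ 2 + 1 + 2 * e * t / m + 6 / 5 * e / m) * z ^ 2) *
          exp (-(q * Dm m ρ t z)) := mul_le_mul_of_nonneg_right hW (exp_pos _).le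
      _ ≤ ((y ^ 2 + t ^ 2) + (2 * e * y / m + 2 * t + e * t ^ 2 / m) * z +
        (e ^ 2 / m ^ 2 + 1 + 2 * e * t / m + 6 / 5 * e / m) * z ^ 2) *
          exp (-(q * (1 - cos t)) + -(q * sin t * z + BFL q m ρ * z ^ 2)) :=
          mul_le_mul_of_nonneg_left (exp_le_exp.2 (by linarith)) hP
      _ = _ := by
          rw [exp_add]
          ring
  · refine (kr_int (c0 := 1) (c1 := e1c m (6 / 5) / m) (c2 := 0) hK (by norm_num) (by positivity)
      le_rfl g0 g1 g2 i0 i1 i2 fun z hz hz' => ?_).trans (le_of_eq ?_)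
    · have h1 := hD z hz hz'
      have h2 := hch z hz hz'
      rw [hpa z hz hz']
      calc exp (z / m) * exp (-(q * Dm m ρ t z))
          ≤ (1 + z / m * e1c m (6 / 5)) *
            exp (-(q * (1 - cos t)) + -(q * sin t * z + BFL q m ρ * z ^ 2)) :=
            mul_le_mul h2 (exp_le_exp.2 (by linarith)) (exp_pos _).le (by positivity)
        _ = _ := by
            rw [exp_add]
            ring
    · unfold feL
      congr 1
      ring

end SokalCen
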