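import Pool.Agent.Lib_MP_af4de1_v3.CenZ3K

/-! # CEN zone 3, right (front): `θ = -t`, `t ≤ 6/5 ≤ m`, `s = -v`, `0 ≤ v ≤ 6/5 - t`.
`Dm ≥ AL m ρ (6/5) v² + (1 - cos t)` (`Qm_AL` with `t = 6/5`; `e^(-v/m)(1 - cos (t+v))` increases since
`tan ((t+v)/2) ≤ tan (3/5) ≤ 6/5 ≤ m`), `W ≤ (e^n - 1 + v/m)² + e^n (t+v)²`. -/

set_option autoImplicit false

namespace SokalCen

open Real MeasureTheory Set

theorem Z3R {q m ρ t n p : ℝ} (hq : 0 < q) (hρ : 0 < ρ) (hm : ρ ≤ m) (hm2 : 6 / 5 ≤ m) (ht : 0 < t)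
    (ht2 : t ≤ 6 / 5) (hn : 0 ≤ n) (hp : 0 ≤ p) (hp2 : p ≤ 2 * t) :
    Zone q m ρ (-t) (ww n (-p)) (Icc (-(6 / 5 - t)) 0) (f0R q m ρ t) (fWR q m ρ t n)
      (f0R q m ρ t) := by
  have hm0 : 0 < m := by linarith
  have hA := AL_pos (t := 6 / 5) hρ hm (by norm_num)
  have hB : 0 < BFR q m ρ := mul_pos hq hA
  have hK := (exp_pos (-(q * (1 - cos t)))).le
  have hpa : ∀ v : ℝ, 0 < v → v ≤ 6 / 5 - t → pm m (-v) = -(v / m) := fun s hs hs' => by
    rw [pm_mid hm0 (by linarith) (by linarith), neg_div]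
  have hco : ∀ v : ℝ, cos (-t + -v) = cos (t + v) := by
    intro v
    rw [← cos_neg]
    congr 1
    ring
  have hD : ∀ v : ℝ, 0 < v → v ≤ 6 / 5 - t → q * (1 - cos t) + (0 * v +
      BFR q m ρ * v ^ 2) ≤ q * Dm m ρ (-t) (-v) := by
    intro v hv hv'
    have h1 := Qm_AL (t := 6 / 5) hρ hm hv.le (by linarith) (by norm_num)
    have h3 := fr_left' hm2 ht hv.le (by linarith)
    rw [Dm_eq, hpa v hv hv', hco]
    unfold BFR
    have h12 := mul_le_mul_of_nonneg_left (add_le_add h1 h3) hq.le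
    nlinarith [h12]
  have hset : ∀ F : ℝ → ENNReal, ∫⁻ s in Icc (-(6 / 5 - t)) 0, F s =
      ∫⁻ v in Icc 0 (6 / 5 - t), F (-v) := by
    intro F
    rw [lint_Icc_neg, neg_zero, neg_neg]
  have g0 : 0 ≤ √(π / BFR q m ρ) / 2 := by positivity
  have g1 : 0 ≤ h1 (BFR q m ρ) := by
    unfold h1
    positivity
  have g2 : 0 ≤ h2 (BFR q m ρ) := by
    unfold h2
    positivity
  have i0 : ∫⁻ z in Ioi (0 : ℝ), ENNReal.ofReal (exp (-(0 * z + BFR q m ρ * z ^ 2))) ≤
      ENNReal.ofReal (√(π / BFR q m ρ) / 2) :=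
    (h0_le le_rfl hB).trans (ENNReal.ofReal_le_ofReal (min_le_left _ _))
  have i1 := h1_le (b := 0) le_rfl hB
  have i2 := h2_le (b := 0) le_rfl hB
  have hI : ∫⁻ s in Icc (-(6 / 5 - t)) 0, ENNReal.ofReal (exp (-(q * Dm m ρ (-t) s))) ≤
      ENNReal.ofReal (f0R q m ρ t) := by
    rw [hset]
    refine (kr_int (c0 := 1) (c1 := 0) (c2 := 0) hK (by norm_num) le_rfl le_rfl g0 g1 g2 i0 i1 i2
      fun z hz hz' => ?_).trans (le_of_eq ?_)
    · rw [show (1 + 0 * z + 0 * z ^ 2) = (1 : ℝ) by ring, one_mul, ← exp_add]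
      refine exp_le_exp.2 ?_
      have h1 := hD z hz hz'
      linarith
    · unfold f0R
      congr 1
      ring
  refine ⟨hI, ?_, ?_⟩
  · rw [hset]
    have hen : 1 ≤ exp n := one_le_exp hn
    have hen' : 0 ≤ exp n - 1 := by linarith
    refine (kr_int (c0 := (exp n - 1) ^ 2 + exp n * t ^ 2)
      (c1 := 2 * (exp n - 1) / m + 2 * exp n * t)
      (c2 := 1 / m ^ 2 + exp n)
      hK (by positivity) (by positivity) (by positivity) g0 g1 g2 i0 i1 i2 fun z hz hz' => ?_)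
    have h1 := hD z hz hz'
    have hz0 : 0 ≤ z / m := by positivity
    have hW : Wm m (-t) (ww n (-p)) (-z) ≤ ((exp n - 1) ^ 2 + exp n * t ^ 2) +
        (2 * (exp n - 1) / m + 2 * exp n * t) * z + (1 / m ^ 2 + exp n) * z ^ 2 := by
      rw [Wm_eq, hpa z hz hz']
      have h3 := Real.add_one_le_exp (-(z / m))
      have h3' : exp (-(z / m)) ≤ 1 := exp_le_one_iff.2 (by linarith)
      have h5 : (exp (-(z / m)) - exp n) ^ 2 ≤ (exp n - 1 + z / m) ^ 2 := by
        have h5' : (exp n - exp (-(z / m))) ^ 2 ≤ (exp n - 1 + z / m) ^ 2 :=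
          pow_le_pow_left₀ (by linarith) (by linarith) 2
        nlinarith
      have h6 : exp (-(z / m) + n) ≤ exp n := exp_le_exp.2 (by linarith)
      have h7 := Real.one_sub_sq_div_two_le_cos (x := -t + -z - -p)
      have h8 : (-t + -z - -p) ^ 2 ≤ (t + z) ^ 2 := by
        rw [sq_le_sq, abs_of_nonneg (by linarith : 0 ≤ t + z), abs_le]
        constructor <;> linarith
      have h9 : 2 * exp (-(z / m) + n) * (1 - cos (-t + -z - -p)) ≤ exp n * (t + z) ^ 2 := by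
        have h10 : 2 * (1 - cos (-t + -z - -p)) ≤ (t + z) ^ 2 := by linarith
        have h11 : 0 ≤ 2 * (1 - cos (-t + -z - -p)) := by linarith [cos_le_one (-t + -z - -p)]
        calc 2 * exp (-(z / m) + n) * (1 - cos (-t + -z - -p))
            = exp (-(z / m) + n) * (2 * (1 - cos (-t + -z - -p))) := by ring
          _ ≤ _ := mul_le_mul h6 h10 h11 (by positivity)
      have e0 : ((-z : ℝ) : ℝ) = -z := rfl
      refine (add_le_add h5 h9).trans (le_of_eq ?_)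
      field_simp
      ring
    have hP : 0 ≤ ((exp n - 1) ^ 2 + exp n * t ^ 2) +
        (2 * (exp n - 1) / m + 2 * exp n * t) * z + (1 / m ^ 2 + exp n) * z ^ 2 := by positivity
    calc Wm m (-t) (ww n (-p)) (-z) * exp (-(q * Dm m ρ (-t) (-z)))
        ≤ (((exp n - 1) ^ 2 + exp n * t ^ 2) +
        (2 * (exp n - 1) / m + 2 * exp n * t) * z + (1 / m ^ 2 + exp n) * z ^ 2) *
          exp (-(q * Dm m ρ (-t) (-z))) := mul_le_mul_of_nonneg_right hW (exp_pos _).le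
      _ ≤ (((exp n - 1) ^ 2 + exp n * t ^ 2) +
        (2 * (exp n - 1) / m + 2 * exp n * t) * z + (1 / m ^ 2 + exp n) * z ^ 2) *
          exp (-(q * (1 - cos t)) + -(0 * z + BFR q m ρ * z ^ 2)) :=
          mul_le_mul_of_nonneg_left (exp_le_exp.2 (by linarith)) hP
      _ = _ := by
          rw [exp_add]
          ring
  · refine le_trans (setLIntegral_mono' measurableSet_Icc fun s hs => ?_) hI
    refine ENNReal.ofReal_le_ofReal ?_
    have h1 : exp (pm m s) ≤ 1 := exp_le_one_iff.2 (pm_nonpos hm0 hs.2)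
    nlinarith [exp_pos (-(q * Dm m ρ (-t) s))]

end SokalCen
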