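import Pool.Agent.Lib_MP_af4de1_v3.CenRedM
import Pool.Agent.Lib_MP_af4de1_v3.CenA

/-!
# Far waves with `Γ ≥ 10` (fields `a'`, `c`), I: pointwise facts on the centre path of slope `m ≥ 5ρ/4`

`Dm = Qm + e^a (1 - cos (θ+s))`, quadratic lower bounds of `Qm`, rays, weights `|e^(a+i(θ+s)) - 1|² ≤ 2 C Dm`
with `C = 1` (left) and `C = 14/5` (right).
-/

set_option autoImplicit false

namespace SokalCl

open Real SokalCen

/-- right side function, `x = s/m` -/
private noncomputable def qr (μ x : ℝ) : ℝ := 1 + min 1 x + μ * min 1 x * x - exp (min 1 x)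

/-- left side function, `x = -s/m` -/
private noncomputable def ql (μ x : ℝ) : ℝ := 1 - min 1 x + μ * min 1 x * x - exp (-min 1 x)

theorem Dm_eq (m ρ θ s : ℝ) : Dm m ρ θ s = Qm m ρ s + exp (pm m s) * (1 - cos (θ + s)) := by
  unfold Dm Qm
  ring

private theorem rayr_mono {t x : ℝ} (ht : 0 < t) (htx : t ≤ x) (hx : x ≤ 1) :
    (exp x - 1) / x - (exp t - 1) / t ≤ x - t := by
  have hd : ∀ y : ℝ, 0 < y → HasDerivAt (fun y : ℝ => y - (exp y - 1) / y)
      (1 - (exp y * y - (exp y - 1) * 1) / y ^ 2) y := by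
    intro y hy
    exact (hasDerivAt_id y).sub (((Real.hasDerivAt_exp y).sub_const 1).div (hasDerivAt_id y) hy.ne')
  have hm : MonotoneOn (fun y : ℝ => y - (exp y - 1) / y) (Set.Icc t 1) := by
    refine monotoneOn_of_deriv_nonneg (convex_Icc t 1) ?_ ?_ ?_
    · intro y hy
      exact (hd y (ht.trans_le hy.1)).continuousAt.continuousWithinAt
    · intro y hy
      rw [interior_Icc] at hy
      exact (hd y (ht.trans hy.1)).differentiableAt.differentiableWithinAt
    · intro y hy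
      rw [interior_Icc] at hy
      have hy0 : 0 < y := ht.trans hy.1
      rw [(hd y hy0).deriv, sub_nonneg, div_le_one (by positivity)]
      have h1 := Real.add_one_le_exp y
      have h2 : 0 ≤ (exp y - (y + 1)) * (1 - y) := mul_nonneg (by linarith) (by linarith [hy.2])
      nlinarith
  have h := hm ⟨le_rfl, htx.trans hx⟩ ⟨htx, hx⟩ htx
  simp only at h
  linarith

private theorem rayl_mono {t x : ℝ} (ht : 0 < t) (htx : t ≤ x) (hx : x ≤ 1) :
    (1 - t - exp (-t)) / t + t ≤ (1 - x - exp (-x)) / x + x := by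
  have hd : ∀ y : ℝ, 0 < y → HasDerivAt (fun y : ℝ => (1 - y - exp (-y)) / y + y)
      (((-1 - exp (-y) * -1) * y - (1 - y - exp (-y)) * 1) / y ^ 2 + 1) y := by
    intro y hy
    have h1 : HasDerivAt (fun y : ℝ => exp (-y)) (exp (-y) * -1) y :=
      (hasDerivAt_neg y).exp
    have h2 : HasDerivAt (fun y : ℝ => 1 - y) (-1) y := (hasDerivAt_id y).const_sub 1
    exact ((h2.sub h1).div (hasDerivAt_id y) hy.ne').add (hasDerivAt_id y)
  have hm : MonotoneOn (fun y : ℝ => (1 - y - exp (-y)) / y + y) (Set.Icc t 1) := by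
    refine monotoneOn_of_deriv_nonneg (convex_Icc t 1) ?_ ?_ ?_
    · intro y hy
      exact (hd y (ht.trans_le hy.1)).continuousAt.continuousWithinAt
    · intro y hy
      rw [interior_Icc] at hy
      exact (hd y (ht.trans hy.1)).differentiableAt.differentiableWithinAt
    · intro y hy
      rw [interior_Icc] at hy
      have hy0 : 0 < y := ht.trans hy.1
      rw [(hd y hy0).deriv]
      have h1 := Real.add_one_le_exp (-y)
      have h3 : -1 ≤ ((-1 - exp (-y) * -1) * y - (1 - y - exp (-y)) * 1) / y ^ 2 := by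
        rw [le_div_iff₀ (by positivity)]
        have h2 : 0 ≤ (exp (-y) - (-y + 1)) * (1 + y) := mul_nonneg (by linarith) (by linarith)
        nlinarith
      linarith
  exact hm ⟨le_rfl, htx.trans hx⟩ ⟨htx, hx⟩ htx

private theorem qr_mono {μ t x : ℝ} (hm : 1 ≤ μ) (ht : 0 < t) (htx : t ≤ x) : qr μ t / t ≤ qr μ x / x := by
  have hx0 : 0 < x := ht.trans_le htx
  have hA : ∀ u v : ℝ, 0 < u → u ≤ v → v ≤ 1 → qr μ u / u ≤ qr μ v / v := by
    intro u v hu huv hv
    have hv0 : 0 < v := hu.trans_le huv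
    have e : ∀ w : ℝ, 0 < w → w ≤ 1 → qr μ w / w = 1 - (exp w - 1) / w + μ * w := by
      intro w hw hw1
      unfold qr
      rw [min_eq_right hw1]
      field_simp
      ring
    rw [e u hu (huv.trans hv), e v hv0 hv]
    have h1 := rayr_mono hu huv hv
    have h2 : (v - u) ≤ μ * (v - u) := le_mul_of_one_le_left (by linarith) hm
    linarith
  have hB : ∀ u v : ℝ, 1 ≤ u → u ≤ v → qr μ u / u ≤ qr μ v / v := by
    intro u v hu huv
    have hu0 : 0 < u := by linarith
    have hv0 : 0 < v := by linarith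
    have e : ∀ w : ℝ, 1 ≤ w → qr μ w / w = μ - (exp 1 - 2) / w := by
      intro w hw
      have hw0 : 0 < w := by linarith
      unfold qr
      rw [min_eq_left hw]
      field_simp
      ring
    rw [e u hu, e v (hu.trans huv)]
    have h1 : 0 ≤ exp 1 - 2 := by
      have := Real.exp_one_gt_d9
      linarith
    have h2 : (exp 1 - 2) / v ≤ (exp 1 - 2) / u := div_le_div_of_nonneg_left h1 hu0 huv
    linarith
  rcases le_total x 1 with h1 | h1
  · exact hA t x ht htx h1
  · rcases le_total t 1 with h2 | h2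
    · exact (hA t 1 ht h2 le_rfl).trans (hB 1 x le_rfl h1)
    · exact hB t x h2 htx

private theorem ql_mono {μ t x : ℝ} (hm : 1 ≤ μ) (ht : 0 < t) (htx : t ≤ x) : ql μ t / t ≤ ql μ x / x := by
  have hx0 : 0 < x := ht.trans_le htx
  have hA : ∀ u v : ℝ, 0 < u → u ≤ v → v ≤ 1 → ql μ u / u ≤ ql μ v / v := by
    intro u v hu huv hv
    have hv0 : 0 < v := hu.trans_le huv
    have e : ∀ w : ℝ, 0 < w → w ≤ 1 → ql μ w / w = (1 - w - exp (-w)) / w + μ * w := by
      intro w hw hw1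
      unfold ql
      rw [min_eq_right hw1]
      field_simp
      ring
    rw [e u hu (huv.trans hv), e v hv0 hv]
    have h1 := rayl_mono hu huv hv
    have h2 : (v - u) ≤ μ * (v - u) := le_mul_of_one_le_left (by linarith) hm
    linarith
  have hB : ∀ u v : ℝ, 1 ≤ u → u ≤ v → ql μ u / u ≤ ql μ v / v := by
    intro u v hu huv
    have hu0 : 0 < u := by linarith
    have hv0 : 0 < v := by linarith
    have e : ∀ w : ℝ, 1 ≤ w → ql μ w / w = μ - exp (-1) / w := by
      intro w hw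
      have hw0 : 0 < w := by linarith
      unfold ql
      rw [min_eq_left hw]
      field_simp
      ring
    rw [e u hu, e v (hu.trans huv)]
    have h2 : exp (-1) / v ≤ exp (-1) / u := div_le_div_of_nonneg_left (Real.exp_nonneg _) hu0 huv
    linarith
  rcases le_total x 1 with h1 | h1
  · exact hA t x ht htx h1
  · rcases le_total t 1 with h2 | h2
    · exact (hA t 1 ht h2 le_rfl).trans (hB 1 x le_rfl h1)
    · exact hB t x h2 htx

theorem pm_nonneg {m s : ℝ} (hm : 0 < m) (hs : 0 ≤ s) : 0 ≤ pm m s := by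
  unfold pm
  exact le_max_of_le_right (le_min one_pos.le (div_nonneg hs hm.le))

theorem pm_nonpos {m s : ℝ} (hm : 0 < m) (hs : s ≤ 0) : pm m s ≤ 0 := by
  unfold pm
  exact max_le (by norm_num) ((min_le_right _ _).trans (div_nonpos_of_nonpos_of_nonneg hs hm.le))

theorem neg_div_le_pm {m u : ℝ} (hm : 0 < m) (hu : 0 ≤ u) : -(u / m) ≤ pm m (-u) := by
  unfold pm
  rw [neg_div]
  have : 0 ≤ u / m := div_nonneg hu hm.le
  rw [min_eq_right (by linarith)]
  exact le_max_right _ _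

private theorem Qm_eq_qr {m ρ s : ℝ} (hm : 0 < m) (hs : 0 ≤ s) : Qm m ρ s = qr (m / ρ) (s / m) := by
  have h1 : pm m s = min 1 (s / m) := by
    unfold pm
    refine max_eq_right ?_
    have : 0 ≤ min 1 (s / m) := le_min one_pos.le (div_nonneg hs hm.le)
    linarith
  have h2 : s / ρ = m / ρ * (s / m) := by
    field_simp
  unfold Qm qr
  rw [h1, mul_div_assoc, h2]
  ring

private theorem Qm_eq_ql {m ρ s : ℝ} (hm : 0 < m) (hs : 0 ≤ s) :
    Qm m ρ (-s) = ql (m / ρ) (s / m) := by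
  have h1 : pm m (-s) = -min 1 (s / m) := by
    unfold pm
    have h0 : 0 ≤ s / m := div_nonneg hs hm.le
    rw [neg_div, min_eq_right (by linarith), ← max_neg_neg]
  have h2 : s / ρ = m / ρ * (s / m) := by
    field_simp
  unfold Qm ql
  rw [h1, mul_div_assoc, neg_div, h2]
  ring

theorem Qm_ray_right {m ρ s1 s : ℝ} (hm : 0 < m) (hμ : 1 ≤ m / ρ) (hs1 : 0 < s1) (h : s1 ≤ s) :
    Qm m ρ s1 * (s / s1) ≤ Qm m ρ s := by
  have hs : 0 < s := hs1.trans_le h
  have h1 := qr_mono hμ (div_pos hs1 hm) (div_le_div_of_nonneg_right h hm.le)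
  rw [← Qm_eq_qr hm hs1.le, ← Qm_eq_qr hm hs.le, div_div_eq_mul_div, div_div_eq_mul_div,
    div_le_div_iff₀ hs1 hs] at h1
  have h2 : Qm m ρ s1 * s ≤ Qm m ρ s * s1 := by
    have h3 : Qm m ρ s1 * m * s = (Qm m ρ s1 * s) * m := by ring
    have h4 : Qm m ρ s * m * s1 = (Qm m ρ s * s1) * m := by ring
    rw [h3, h4] at h1
    exact le_of_mul_le_mul_right h1 hm
  rw [← mul_div_assoc, div_le_iff₀ hs1]
  exact h2

theorem Qm_ray_left {m ρ s1 s : ℝ} (hm : 0 < m) (hμ : 1 ≤ m / ρ) (hs1 : 0 < s1) (h : s1 ≤ s) :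
    Qm m ρ (-s1) * (s / s1) ≤ Qm m ρ (-s) := by
  have hs : 0 < s := hs1.trans_le h
  have h1 := ql_mono hμ (div_pos hs1 hm) (div_le_div_of_nonneg_right h hm.le)
  rw [← Qm_eq_ql hm hs1.le, ← Qm_eq_ql hm hs.le, div_div_eq_mul_div, div_div_eq_mul_div,
    div_le_div_iff₀ hs1 hs] at h1
  have h2 : Qm m ρ (-s1) * s ≤ Qm m ρ (-s) * s1 := by
    have h3 : Qm m ρ (-s1) * m * s = (Qm m ρ (-s1) * s) * m := by ring
    have h4 : Qm m ρ (-s) * m * s1 = (Qm m ρ (-s) * s1) * m := by ring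
    rw [h3, h4] at h1
    exact le_of_mul_le_mul_right h1 hm
  rw [← mul_div_assoc, div_le_iff₀ hs1]
  exact h2

theorem exp_le_quart {a : ℝ} (h0 : 0 ≤ a) (h1 : a ≤ 1) :
    exp a ≤ 1 + a + a ^ 2 / 2 + a ^ 3 / 6 + 5 * a ^ 4 / 96 := by
  have hexp := Real.exp_bound' h0 h1 (n := 4) (by norm_num)
  refine hexp.trans (le_of_eq ?_)
  norm_num [Finset.sum_range_succ, Nat.factorial]
  ring

/-- the number `γ(T)` -/
noncomputable def gam (T : ℝ) : ℝ := 1 + T / 3 + 5 * T ^ 2 / 48

private theorem qr_mid {μ x T : ℝ} (hx : 0 ≤ x) (hxT : x ≤ T) (hT : T ≤ 1) :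
    (μ - gam T / 2) * x ^ 2 ≤ qr μ x := by
  unfold qr gam
  rw [min_eq_right (hxT.trans hT)]
  have h2 := exp_le_quart hx (hxT.trans hT)
  have h3 : x / 3 + 5 * x ^ 2 / 48 ≤ T / 3 + 5 * T ^ 2 / 48 := by
    have := pow_le_pow_left₀ hx hxT 2
    linarith
  have h4 := mul_le_mul_of_nonneg_right h3 (sq_nonneg x)
  nlinarith [h2, h4]

theorem gam_le {T : ℝ} (h0 : 0 ≤ T) (h1 : T ≤ 1) : gam T ≤ 69 / 48 := by
  unfold gam
  nlinarith

theorem gam_ge {T : ℝ} (h0 : 0 ≤ T) : 1 ≤ gam T := by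
  unfold gam
  nlinarith [sq_nonneg T]

/-- `Qm s ≥ A s²` on `[0, t]`, right -/
theorem Qm_right {m ρ t T A : ℝ} (hm : 0 < m) (hμ : 5 / 4 ≤ m / ρ) (ht : 0 < t)
    (hT : min 1 (t / m) ≤ T) (hT1 : T ≤ 1) (hA0 : 0 ≤ A)
    (hA : A * m ^ 2 ≤ (m / ρ - gam T / 2) * min 1 (m / t)) {s : ℝ} (hs : 0 ≤ s) (hst : s ≤ t) :
    A * s ^ 2 ≤ Qm m ρ s := by
  have hT0 : 0 ≤ T := (le_min one_pos.le (div_nonneg ht.le hm.le)).trans hT
  have hk : 0 < m / ρ - gam T / 2 := by
    have := gam_le hT0 hT1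
    linarith
  have hA1 : A * m ^ 2 ≤ m / ρ - gam T / 2 := by
    refine hA.trans ?_
    have : min 1 (m / t) ≤ 1 := min_le_left _ _
    nlinarith
  rcases le_total s m with h1 | h1
  · rw [Qm_eq_qr hm hs]
    have hx : s / m ≤ 1 := by rwa [div_le_one hm]
    have hxT : s / m ≤ T := by
      refine le_trans ?_ hT
      exact le_min hx (div_le_div_of_nonneg_right hst hm.le)
    have h2 := qr_mid (μ := m / ρ) (div_nonneg hs hm.le) hxT hT1
    refine le_trans ?_ h2
    have e : A * s ^ 2 = A * m ^ 2 * (s / m) ^ 2 := by field_simp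
    rw [e]
    exact mul_le_mul_of_nonneg_right hA1 (sq_nonneg _)
  · have hs0 : 0 < s := hm.trans_le h1
    have htm : m ≤ t := h1.trans hst
    have h2 := Qm_ray_right hm (by linarith : 1 ≤ m / ρ) hm h1
    refine le_trans ?_ h2
    have hT' : (1 : ℝ) ≤ T := by
      have : (1 : ℝ) ≤ t / m := by rwa [le_div_iff₀ hm, one_mul]
      rwa [min_eq_left this] at hT
    have h3 := qr_mid (μ := m / ρ) (x := 1) (T := T) zero_le_one hT' hT1
    have h4 : m / ρ - gam T / 2 ≤ Qm m ρ m := by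
      rw [Qm_eq_qr hm hm.le, div_self hm.ne']
      simpa using h3
    have h5 : min 1 (m / t) = m / t := min_eq_right (by rw [div_le_one ht]; exact htm)
    rw [h5] at hA
    have h6 : A * (m * t) ≤ m / ρ - gam T / 2 := by
      have e : A * m ^ 2 = A * (m * t) * (m / t) := by field_simp
      rw [e] at hA
      exact le_of_mul_le_mul_right hA (div_pos hm ht)
    calc A * s ^ 2 = A * (m * s) * (s / m) := by field_simp
      _ ≤ A * (m * t) * (s / m) := by
          have : 0 ≤ s / m := by positivity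
          have h7 : A * (m * s) ≤ A * (m * t) := by
            apply mul_le_mul_of_nonneg_left _ hA0
            nlinarith
          exact mul_le_mul_of_nonneg_right h7 this
      _ ≤ Qm m ρ m * (s / m) := by
          have : 0 ≤ s / m := by positivity
          exact mul_le_mul_of_nonneg_right (h6.trans h4) this

private theorem exp_neg_le {b : ℝ} (hb : 0 ≤ b) : exp (-b) ≤ 1 - b + b ^ 2 / 2 := by
  rw [Real.exp_neg]
  have h3 := Real.quadratic_le_exp_of_nonneg hb
  have h4 : 0 < 1 + b + b ^ 2 / 2 := by positivity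
  refine (inv_anti₀ h4 h3).trans ?_
  rw [inv_le_iff_one_le_mul₀ h4]
  nlinarith [sq_nonneg (b ^ 2)]

private theorem ql_mid {μ x : ℝ} (hx : 0 ≤ x) (hT : x ≤ 1) : (μ - 1 / 2) * x ^ 2 ≤ ql μ x := by
  unfold ql
  rw [min_eq_right hT]
  have := exp_neg_le hx
  nlinarith

/-- `Qm (-u) ≥ A u²` on `[0, t]`, left -/
theorem Qm_left {m ρ t A : ℝ} (hm : 0 < m) (hμ : 5 / 4 ≤ m / ρ) (ht : 0 < t) (hA0 : 0 ≤ A)
    (hA : A * m ^ 2 ≤ (m / ρ - 1 / 2) * min 1 (m / t)) {s : ℝ} (hs : 0 ≤ s) (hst : s ≤ t) :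
    A * s ^ 2 ≤ Qm m ρ (-s) := by
  have hk : 0 < m / ρ - 1 / 2 := by linarith
  have hA1 : A * m ^ 2 ≤ m / ρ - 1 / 2 := by
    refine hA.trans ?_
    have : min 1 (m / t) ≤ 1 := min_le_left _ _
    nlinarith
  rcases le_total s m with h1 | h1
  · rw [Qm_eq_ql hm hs]
    have hx : s / m ≤ 1 := by rwa [div_le_one hm]
    have h2 := ql_mid (μ := m / ρ) (div_nonneg hs hm.le) hx
    refine le_trans ?_ h2
    have e : A * s ^ 2 = A * m ^ 2 * (s / m) ^ 2 := by field_simp
    rw [e]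
    exact mul_le_mul_of_nonneg_right hA1 (sq_nonneg _)
  · have hs0 : 0 < s := hm.trans_le h1
    have htm : m ≤ t := h1.trans hst
    have h2 := Qm_ray_left hm (by linarith : 1 ≤ m / ρ) hm h1
    refine le_trans ?_ h2
    have h3 := ql_mid (μ := m / ρ) (x := 1) zero_le_one le_rfl
    have h4 : m / ρ - 1 / 2 ≤ Qm m ρ (-m) := by
      rw [Qm_eq_ql hm hm.le, div_self hm.ne']
      simpa using h3
    have h5 : min 1 (m / t) = m / t := min_eq_right (by rw [div_le_one ht]; exact htm)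
    rw [h5] at hA
    have h6 : A * (m * t) ≤ m / ρ - 1 / 2 := by
      have e : A * m ^ 2 = A * (m * t) * (m / t) := by field_simp
      rw [e] at hA
      exact le_of_mul_le_mul_right hA (div_pos hm ht)
    calc A * s ^ 2 = A * (m * s) * (s / m) := by field_simp
      _ ≤ A * (m * t) * (s / m) := by
          have : 0 ≤ s / m := by positivity
          have h7 : A * (m * s) ≤ A * (m * t) := by
            apply mul_le_mul_of_nonneg_left _ hA0
            nlinarith
          exact mul_le_mul_of_nonneg_right h7 this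
      _ ≤ Qm m ρ (-m) * (s / m) := by
          have : 0 ≤ s / m := by positivity
          exact mul_le_mul_of_nonneg_right (h6.trans h4) this

/-! ## weights -/

theorem Wm_one (m θ s : ℝ) :
    Wm m θ 1 s = (exp (pm m s) - 1) ^ 2 + 2 * exp (pm m s) * (1 - cos (θ + s)) := by
  unfold Wm SokalCen.em
  rw [Complex.sq_norm, Complex.normSq_apply]
  have h1 : (Complex.exp (pm m s + (θ + s) * Complex.I) - 1).re =
      exp (pm m s) * cos (θ + s) - 1 := by
    simp [Complex.exp_re]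
  have h2 : (Complex.exp (pm m s + (θ + s) * Complex.I) - 1).im =
      exp (pm m s) * sin (θ + s) := by
    simp [Complex.exp_im]
  rw [h1, h2]
  have h3 := Real.sin_sq_add_cos_sq (θ + s)
  generalize exp (pm m s) = x at *
  generalize cos (θ + s) = c at *
  generalize sin (θ + s) = d at *
  have h4 : d ^ 2 = 1 - c ^ 2 := by linarith
  calc (x * c - 1) * (x * c - 1) + x * d * (x * d) = (x * c - 1) ^ 2 + x ^ 2 * d ^ 2 := by ring
    _ = (x * c - 1) ^ 2 + x ^ 2 * (1 - c ^ 2) := by rw [h4]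
    _ = (x - 1) ^ 2 + 2 * x * (1 - c) := by ring

private theorem Wm_of {m ρ θ s C : ℝ} (hC : 1 ≤ C)
    (h : (exp (pm m s) - 1) ^ 2 ≤ 2 * C * Qm m ρ s) : Wm m θ 1 s ≤ 2 * C * Dm m ρ θ s := by
  rw [Dm_eq, Wm_one]
  have h1 := Real.exp_pos (pm m s)
  have h2 := Real.cos_le_one (θ + s)
  have h3 : 0 ≤ exp (pm m s) * (1 - cos (θ + s)) := mul_nonneg h1.le (by linarith)
  nlinarith

theorem W_left {m ρ θ s : ℝ} (hm : 0 < m) (hμ : 5 / 4 ≤ m / ρ) (hs : s ≤ 0) :
    Wm m θ 1 s ≤ 2 * 1 * Dm m ρ θ s := by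
  refine Wm_of le_rfl ?_
  obtain ⟨u, hu⟩ : ∃ u, u = -s := ⟨_, rfl⟩
  have hu0 : 0 ≤ u := by rw [hu]; linarith
  have hsu : s = -u := by rw [hu, neg_neg]
  rw [hsu, Qm_eq_ql hm hu0]
  have h1 : pm m (-u) = -min 1 (u / m) := by
    unfold pm
    have h0 : 0 ≤ u / m := div_nonneg hu0 hm.le
    rw [neg_div, min_eq_right (by linarith), ← max_neg_neg]
  rw [h1]
  have hx0 : 0 ≤ u / m := div_nonneg hu0 hm.le
  generalize u / m = x at *
  rcases le_total x 1 with hx | hx
  · have h2 := ql_mid (μ := m / ρ) hx0 hx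
    rw [min_eq_right hx]
    have h3 := Real.add_one_le_exp (-x)
    have h4 : exp (-x) ≤ 1 := Real.exp_le_one_iff.2 (by linarith)
    have h5 : (exp (-x) - 1) ^ 2 ≤ x ^ 2 := by
      have h6 : (1 - exp (-x)) ^ 2 ≤ x ^ 2 := pow_le_pow_left₀ (by linarith) (by linarith) 2
      nlinarith
    have h6 : x ^ 2 ≤ 2 * 1 * ((m / ρ - 1 / 2) * x ^ 2) := by nlinarith [sq_nonneg x]
    linarith
  · rw [min_eq_left hx]
    unfold ql
    rw [min_eq_left hx]
    have h4 : exp (-1) ≤ 1 := Real.exp_le_one_iff.2 (by linarith)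
    have h3 := Real.exp_pos (-1)
    have h5 : (exp (-1) - 1) ^ 2 ≤ 1 := by nlinarith
    have h6 : exp (-1 : ℝ) ≤ 2 / 5 := by
      rw [Real.exp_neg]
      have := Real.exp_one_gt_d9
      rw [inv_le_comm₀ (by positivity) (by norm_num)]
      linarith
    have h7 : 5 / 4 ≤ m / ρ * 1 * x := by nlinarith
    linarith

theorem W_right {m ρ θ s : ℝ} (hm : 0 < m) (hμ : 5 / 4 ≤ m / ρ) (hs : 0 ≤ s) :
    Wm m θ 1 s ≤ 2 * (14 / 5) * Dm m ρ θ s := by
  refine Wm_of (by norm_num) ?_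
  rw [Qm_eq_qr hm hs]
  have h1 : pm m s = min 1 (s / m) := by
    unfold pm
    refine max_eq_right ?_
    have : 0 ≤ min 1 (s / m) := le_min one_pos.le (div_nonneg hs hm.le)
    linarith
  rw [h1]
  have hx0 : 0 ≤ s / m := div_nonneg hs hm.le
  generalize s / m = x at *
  rcases le_total x 1 with hx | hx
  · have h2 := qr_mid (μ := m / ρ) hx0 le_rfl hx
    rw [min_eq_right hx]
    have h3 := exp_le_quart hx0 hx
    have h4 : 1 ≤ exp x := Real.one_le_exp hx0
    have h5 : exp x - 1 ≤ x * (55 / 32) := by nlinarith [mul_nonneg hx0 hx0, mul_nonneg (mul_nonneg hx0 hx0) hx0, mul_nonneg hx0 (sub_nonneg.2 hx), mul_nonneg (mul_nonneg hx0 hx0) (sub_nonneg.2 hx), mul_nonneg (mul_nonneg (mul_nonneg hx0 hx0) hx0) (sub_nonneg.2 hx)]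
    have h6 : (exp x - 1) ^ 2 ≤ (x * (55 / 32)) ^ 2 := pow_le_pow_left₀ (by linarith) h5 2
    have h7 := gam_le hx0 hx
    have h8 : 17 / 32 ≤ m / ρ - gam x / 2 := by linarith
    have h9 : 17 / 32 * x ^ 2 ≤ (m / ρ - gam x / 2) * x ^ 2 := mul_le_mul_of_nonneg_right h8 (sq_nonneg x)
    nlinarith [sq_nonneg x]
  · rw [min_eq_left hx]
    unfold qr
    rw [min_eq_left hx]
    have h3 := Real.exp_one_lt_d9
    have h4 := Real.exp_one_gt_d9
    have h7 : 5 / 4 ≤ m / ρ * 1 * x := by nlinarith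
    nlinarith

/-- the exponential trick with `ε = 1/8` -/
theorem trick {r D W C : ℝ} (hr : 0 < r) (hC : 0 ≤ C) (hW : W ≤ 2 * C * D) :
    W * exp (-(r * D)) ≤ 16 * C / (exp 1 * r) * exp (-(7 / 8 * r * D)) := by
  have h1 := Real.add_one_le_exp (r * D / 8 - 1)
  have h2 : r * D * exp (-(r * D)) ≤ 8 / exp 1 * exp (-(7 / 8 * r * D)) := by
    have e1 : exp (-(7 / 8 * r * D)) = exp (-(r * D)) * exp (r * D / 8) := by
      rw [← Real.exp_add]
      congr 1
      ring
    have e2 : exp (r * D / 8) = exp 1 * exp (r * D / 8 - 1) := by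
      rw [← Real.exp_add]
      congr 1
      ring
    rw [e1, e2]
    have h3 := Real.exp_pos (-(r * D))
    have h4 := Real.exp_pos 1
    have e3 : 8 / exp 1 * (exp (-(r * D)) * (exp 1 * exp (r * D / 8 - 1))) =
        8 * exp (r * D / 8 - 1) * exp (-(r * D)) := by
      field_simp
    rw [e3]
    exact mul_le_mul_of_nonneg_right (by linarith) h3.le
  have h3 := Real.exp_pos (-(r * D))
  calc W * exp (-(r * D)) ≤ 2 * C * D * exp (-(r * D)) := mul_le_mul_of_nonneg_right hW h3.le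
    _ = 2 * C / r * (r * D * exp (-(r * D))) := by field_simp
    _ ≤ 2 * C / r * (8 / exp 1 * exp (-(7 / 8 * r * D))) := by
        apply mul_le_mul_of_nonneg_left h2
        positivity
    _ = _ := by
        have h4 := Real.exp_pos 1
        field_simp
        ring

end SokalCl
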