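import Pool.Agent.Lib_MP_af4de1_v3.ClA
import Pool.Agent.Lib_MP_af4de1_fa.FrD
import Pool.Agent.Lib_MP_af4de1_fa.FrD3

/-!
# Far waves with `Γ ≥ 10`, II: the four integrals
-/

set_option autoImplicit false

namespace SokalCl

open Real SokalCen SokalFA MeasureTheory Set

/-- integral of a shifted Gaussian -/
theorem gauss_shift {b : ℝ} (hb : 0 < b) (c : ℝ) :
    ∫⁻ s : ℝ, ENNReal.ofReal (exp (-(b * (s - c) ^ 2))) = ENNReal.ofReal √(π / b) := by
  have h0 : ∀ s : ℝ, exp (-(b * s ^ 2)) = exp (-b * s ^ 2) := fun s => by rw [neg_mul]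
  have h1 : ∫⁻ s : ℝ, ENNReal.ofReal (exp (-(b * (s - c) ^ 2))) =
      ∫⁻ s : ℝ, ENNReal.ofReal (exp (-(b * s ^ 2))) := by
    have := lintegral_sub_right_eq_self (μ := (volume : Measure ℝ))
      (fun s => ENNReal.ofReal (exp (-(b * s ^ 2)))) c
    exact this
  rw [h1]
  simp only [h0]
  rw [← ofReal_integral_eq_lintegral_ofReal (integrable_exp_neg_mul_sq hb)
    (Filter.Eventually.of_forall fun s => (exp_pos _).le), integral_gaussian]

/-- a two-term Gaussian: `f ≥ A s² + B (s - t)²` on `S` -/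
theorem gauss_two {q A B t : ℝ} {S : Set ℝ} {f : ℝ → ℝ} (hq : 0 < q) (hA : 0 < A) (hB : 0 < B)
    (hS : MeasurableSet S) (hf : ∀ s ∈ S, A * s ^ 2 + B * (s - t) ^ 2 ≤ f s) :
    ∫⁻ s in S, ENNReal.ofReal (exp (-(q * f s))) ≤
      ENNReal.ofReal (√(π / (q * (A + B))) * exp (-(q * (A * B / (A + B) * t ^ 2)))) := by
  have hAB : 0 < A + B := add_pos hA hB
  have hb : 0 < q * (A + B) := mul_pos hq hAB
  have hK : 0 ≤ exp (-(q * (A * B / (A + B) * t ^ 2))) := (exp_pos _).le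
  calc ∫⁻ s in S, ENNReal.ofReal (exp (-(q * f s)))
      ≤ ∫⁻ s in S, ENNReal.ofReal (exp (-(q * (A * B / (A + B) * t ^ 2)))) *
          ENNReal.ofReal (exp (-(q * (A + B) * (s - B * t / (A + B)) ^ 2))) := by
        refine setLIntegral_mono' hS fun s hs => ?_
        rw [← ENNReal.ofReal_mul hK, ← exp_add]
        refine ENNReal.ofReal_le_ofReal (exp_le_exp.2 ?_)
        have h1 := mul_le_mul_of_nonneg_left (hf s hs) hq.le
        have e : A * s ^ 2 + B * (s - t) ^ 2 =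
            A * B / (A + B) * t ^ 2 + (A + B) * (s - B * t / (A + B)) ^ 2 := by
          field_simp
          ring
        rw [e] at h1
        linarith
    _ ≤ ∫⁻ s : ℝ, ENNReal.ofReal (exp (-(q * (A * B / (A + B) * t ^ 2)))) *
          ENNReal.ofReal (exp (-(q * (A + B) * (s - B * t / (A + B)) ^ 2))) :=
        setLIntegral_le_lintegral _ _
    _ = ENNReal.ofReal (√(π / (q * (A + B))) * exp (-(q * (A * B / (A + B) * t ^ 2)))) := by
        rw [lintegral_const_mul' _ _ ENNReal.ofReal_ne_top, gauss_shift hb, ← ENNReal.ofReal_mul hK,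
          mul_comm]

/-- half Gaussian: `f ≥ A s² + c` on `S ⊆ [0,∞)` -/
theorem gauss_half' {q A c : ℝ} {S : Set ℝ} {f : ℝ → ℝ} (hq : 0 < q) (hA : 0 < A)
    (hS : MeasurableSet S) (hS0 : ∀ s ∈ S, 0 ≤ s) (hf : ∀ s ∈ S, A * s ^ 2 + c ≤ f s) :
    ∫⁻ s in S, ENNReal.ofReal (exp (-(q * f s))) ≤
      ENNReal.ofReal (√(π / (q * A)) / 2 * exp (-(q * c))) := by
  have hb : 0 < q * A := mul_pos hq hA
  have hK : 0 ≤ exp (-(q * c)) := (exp_pos _).le
  have h2 : Integrable (fun s : ℝ => exp (-(q * A) * s ^ 2)) (volume.restrict (Ioi 0)) :=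
    (integrable_exp_neg_mul_sq hb).integrableOn
  calc ∫⁻ s in S, ENNReal.ofReal (exp (-(q * f s)))
      ≤ ∫⁻ s in S, ENNReal.ofReal (exp (-(q * c))) * ENNReal.ofReal (exp (-(q * A) * s ^ 2)) := by
        refine setLIntegral_mono' hS fun s hs => ?_
        rw [← ENNReal.ofReal_mul hK, ← exp_add]
        refine ENNReal.ofReal_le_ofReal (exp_le_exp.2 ?_)
        have h1 := mul_le_mul_of_nonneg_left (hf s hs) hq.le
        linarith
    _ ≤ ∫⁻ s in Ici 0, ENNReal.ofReal (exp (-(q * c))) * ENNReal.ofReal (exp (-(q * A) * s ^ 2)) :=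
        lintegral_mono_set fun s hs => hS0 s hs
    _ = ∫⁻ s in Ioi 0, ENNReal.ofReal (exp (-(q * c))) * ENNReal.ofReal (exp (-(q * A) * s ^ 2)) :=
        setLIntegral_congr Ioi_ae_eq_Ici.symm
    _ = ENNReal.ofReal (√(π / (q * A)) / 2 * exp (-(q * c))) := by
        rw [lintegral_const_mul' _ _ ENNReal.ofReal_ne_top, ← ofReal_integral_eq_lintegral_ofReal h2
          (Filter.Eventually.of_forall fun s => (exp_pos _).le), integral_gaussian_Ioi,
          ← ENNReal.ofReal_mul hK, mul_comm]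

/-! ## the tangent trick -/

/-- `(t' - w) (1+v) e^(-σT/2) ≤ (T-w) e^(-w/2)` -/
theorem tangent {T σ v w : ℝ} (hv : 2 * v = (1 - σ) * T) (hw : w ≤ T) :
    exp (-(σ * T / 2)) * (T * (1 + σ * v) - (1 + v) * w) ≤ (T - w) * exp (-(w / 2)) := by
  have h1 := Real.add_one_le_exp (-((w - σ * T) / 2))
  have h2 : exp (-(w / 2)) = exp (-(σ * T / 2)) * exp (-((w - σ * T) / 2)) := by
    rw [← exp_add]
    congr 1
    ring
  rw [h2]
  have h3 := exp_pos (-(σ * T / 2))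
  have h4 : T * (1 + σ * v) - (1 + v) * w ≤ (T - w) * exp (-((w - σ * T) / 2)) := by
    have h5 : (T - w) * (1 - (w - σ * T) / 2) ≤ (T - w) * exp (-((w - σ * T) / 2)) :=
      mul_le_mul_of_nonneg_left (by linarith) (by linarith)
    have hv' : v = (1 - σ) * T / 2 := by linarith
    subst hv'
    nlinarith [sq_nonneg (w - σ * T)]
  calc exp (-(σ * T / 2)) * (T * (1 + σ * v) - (1 + v) * w)
      ≤ exp (-(σ * T / 2)) * ((T - w) * exp (-((w - σ * T) / 2))) :=
        mul_le_mul_of_nonneg_left h4 h3.le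
    _ = _ := by ring

/-- the new centre `θ' = θ tr` -/
noncomputable def tr (σ T : ℝ) : ℝ := (1 + σ * ((1 - σ) * T / 2)) / (1 + (1 - σ) * T / 2)

/-- `L1²` -/
noncomputable def Lq (σ T : ℝ) : ℝ := exp (-(σ * T)) * (1 + (1 - σ) * T / 2) ^ 2

theorem tr_pos {σ T : ℝ} (h0 : 0 ≤ σ) (h1 : σ ≤ 1) (hT : 0 ≤ T) : 0 < tr σ T := by
  unfold tr
  have : 0 ≤ (1 - σ) * T / 2 := by
    have := mul_nonneg (sub_nonneg.2 h1) hT
    linarith
  have h2 := mul_nonneg h0 this
  positivity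

theorem tr_le {σ T : ℝ} (h1 : σ ≤ 1) (hT : 0 ≤ T) : tr σ T ≤ 1 := by
  unfold tr
  have : 0 ≤ (1 - σ) * T / 2 := by
    have := mul_nonneg (sub_nonneg.2 h1) hT
    linarith
  rw [div_le_one (by positivity)]
  nlinarith

theorem Lq_pos {σ T : ℝ} (h1 : σ ≤ 1) (hT : 0 ≤ T) : 0 < Lq σ T := by
  unfold Lq
  have : 0 ≤ (1 - σ) * T / 2 := by
    have := mul_nonneg (sub_nonneg.2 h1) hT
    linarith
  positivity

/-- the main zone, pointwise -/
theorem main_pt {m ρ θ σ A β : ℝ} (hm : 0 < m) (hμ : 5 / 4 ≤ m / ρ) (hθ : 0 < θ)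
    (h0 : 0 ≤ σ) (h1 : σ ≤ 1) (hA0 : 0 < A) (hA : A * m ^ 2 ≤ (m / ρ - 1 / 2) * min 1 (m / θ))
    (hβ0 : 0 ≤ β) (hβ : ∀ z : ℝ, 0 ≤ z → z ≤ θ → β * z ^ 2 ≤ 1 - cos z) {s : ℝ}
    (hs : s ∈ Icc (-(θ * tr σ (θ / m))) 0) :
    A * s ^ 2 + β * Lq σ (θ / m) * (s - -(θ * tr σ (θ / m))) ^ 2 ≤ Dm m ρ θ s := by
  have hT0 : 0 < θ / m := div_pos hθ hm
  have htr := tr_le (σ := σ) h1 hT0.le
  obtain ⟨hs1, hs0⟩ := hs
  obtain ⟨u, hu⟩ : ∃ u, u = -s := ⟨_, rfl⟩
  have hsu : s = -u := by rw [hu, neg_neg]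
  have hu0 : 0 ≤ u := by linarith
  have hut : u ≤ θ * tr σ (θ / m) := by linarith
  have huθ : u ≤ θ := hut.trans (by nlinarith)
  rw [hsu, Dm_eq]
  have q1 := Qm_left hm hμ hθ hA0.le hA hu0 huθ
  have q2 := neg_div_le_pm hm hu0
  have q3 : exp (-(u / m)) ≤ exp (pm m (-u)) := exp_le_exp.2 q2
  have q4 := hβ (θ - u) (by linarith) (by linarith)
  have q5 : θ + -u = θ - u := by ring
  rw [q5]
  have q6 : exp (-(u / m)) * (β * (θ - u) ^ 2) ≤ exp (pm m (-u)) * (1 - cos (θ - u)) :=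
    mul_le_mul q3 q4 (by positivity) (exp_pos _).le
  obtain ⟨v, hv⟩ : ∃ v, v = (1 - σ) * (θ / m) / 2 := ⟨_, rfl⟩
  have hv0 : 0 ≤ v := by
    rw [hv]
    have := mul_nonneg (sub_nonneg.2 h1) hT0.le
    linarith
  have q7 := tangent (T := θ / m) (σ := σ) (v := v) (w := u / m) (by rw [hv]; ring)
    (div_le_div_of_nonneg_right huθ hm.le)
  have e1 : tr σ (θ / m) = (1 + σ * v) / (1 + v) := by unfold tr; rw [hv]
  have e2 : θ / m * (1 + σ * v) - (1 + v) * (u / m) = (1 + v) * (θ * tr σ (θ / m) - u) / m := by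
    rw [e1]
    field_simp
  have q8 : 0 ≤ exp (-(σ * (θ / m) / 2)) * (θ / m * (1 + σ * v) - (1 + v) * (u / m)) := by
    rw [e2]
    have : 0 ≤ θ * tr σ (θ / m) - u := by linarith
    positivity
  have q9 := pow_le_pow_left₀ q8 q7 2
  have e3 : (exp (-(σ * (θ / m) / 2)) * (θ / m * (1 + σ * v) - (1 + v) * (u / m))) ^ 2 =
      Lq σ (θ / m) * (θ * tr σ (θ / m) - u) ^ 2 / m ^ 2 := by
    rw [e2]
    unfold Lq
    rw [← hv]
    have : exp (-(σ * (θ / m))) = exp (-(σ * (θ / m) / 2)) ^ 2 := by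
      rw [← Real.exp_nat_mul]
      congr 1
      push_cast
      ring
    rw [this]
    field_simp
  have e4 : ((θ / m - u / m) * exp (-(u / m / 2))) ^ 2 = exp (-(u / m)) * (θ - u) ^ 2 / m ^ 2 := by
    have : exp (-(u / m)) = exp (-(u / m / 2)) ^ 2 := by
      rw [← Real.exp_nat_mul]
      congr 1
      push_cast
      ring
    rw [this]
    field_simp
  rw [e3, e4, div_le_div_iff_of_pos_right (by positivity)] at q9
  have q10 := mul_le_mul_of_nonneg_left q9 hβ0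
  have e5 : (-u - -(θ * tr σ (θ / m))) ^ 2 = (θ * tr σ (θ / m) - u) ^ 2 := by ring
  rw [e5, neg_sq]
  nlinarith [q1, q6, q10]

theorem main_int {q m ρ θ σ A β : ℝ} (hq : 0 < q) (hm : 0 < m) (hμ : 5 / 4 ≤ m / ρ) (hθ : 0 < θ)
    (h0 : 0 ≤ σ) (h1 : σ ≤ 1) (hA0 : 0 < A) (hA : A * m ^ 2 ≤ (m / ρ - 1 / 2) * min 1 (m / θ))
    (hβ0 : 0 < β) (hβ : ∀ z : ℝ, 0 ≤ z → z ≤ θ → β * z ^ 2 ≤ 1 - cos z) :
    ∫⁻ s in Icc (-(θ * tr σ (θ / m))) 0, ENNReal.ofReal (exp (-(q * Dm m ρ θ s))) ≤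
      ENNReal.ofReal (√(π / (q * (A + β * Lq σ (θ / m)))) *
        exp (-(q * (A * (β * Lq σ (θ / m)) / (A + β * Lq σ (θ / m)) * (θ * tr σ (θ / m)) ^ 2)))) := by
  have hT0 : 0 < θ / m := div_pos hθ hm
  have h := gauss_two (t := -(θ * tr σ (θ / m))) (f := Dm m ρ θ) hq hA0
    (mul_pos hβ0 (Lq_pos h1 hT0.le)) measurableSet_Icc
    (fun s hs => main_pt hm hμ hθ h0 h1 hA0 hA hβ0.le hβ hs)
  rwa [neg_sq] at h

/-! ## tails -/

private theorem gw_shift (V c : ℝ) (a : ℝ) (hV : 15 ≤ V) :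
    ∫ s in a..(a + 2 * π), gw V (s - c) ≤ 67 / 25 / √V := by
  have hper : Function.Periodic (fun s => gw V (s - c)) (2 * π) := by
    intro u
    have : u + 2 * π - c = (u - c) + 2 * π := by ring
    simp only [this]
    unfold gw
    rw [Real.cos_add_two_pi]
  rw [hper.intervalIntegral_add_eq a (c - π)]
  have h2 := intervalIntegral.integral_comp_sub_right (a := c - π) (b := c - π + 2 * π) (gw V) c
  rw [h2]
  have e1 : c - π - c = -π := by ring
  have e2 : c - π + 2 * π - c = π := by ring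
  rw [e1, e2]
  exact W_le hV

/-- tail: `f s ≥ Q s/u + E (1 - cos (s - c))` for `s > u`, `0 < u ≤ 2π` -/
theorem tail_gen {q Q E u c u1 : ℝ} {f : ℝ → ℝ} (hq : 0 < q) (hQ : 0 < Q) (hu : 0 < u)
    (hu2 : u ≤ 2 * π) (hu1 : u ≤ u1) (hV : 15 ≤ q * E)
    (hf : ∀ s, u1 < s → Q * (s / u) + E * (1 - cos (s - c)) ≤ f s) :
    ∫⁻ s in Ioi u1, ENNReal.ofReal (exp (-(q * f s))) ≤
      ENNReal.ofReal (exp (-(q * Q * (u1 / u))) * (67 / 25 / √(q * E)) / (1 - exp (-(q * Q)))) := by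
  have hpi := Real.pi_pos
  have hqQ : 0 < q * Q := mul_pos hq hQ
  have hr1 : exp (-(q * Q)) < 1 := by
    rw [← Real.exp_zero]
    exact exp_lt_exp.2 (by linarith)
  have key := tail_abs (w := fun s => exp (-(q * Q * (s / u)))) (F := fun s => gw (q * E) (s - c))
    (S1 := u1) (h := 2 * π) (A := exp (-(q * Q * (u1 / u)))) (r1 := exp (-(q * Q)))
    (Wc := 67 / 25 / √(q * E)) (by positivity) (exp_pos _).le (exp_pos _).le hr1
    ((continuous_gw _).comp (by fun_prop)) (fun s => (gw_pos _ _).le)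
    (fun a => gw_shift _ _ _ hV) (fun s => (exp_pos _).le) (fun n s hs => ?_)
  · refine (setLIntegral_mono' measurableSet_Ioi fun s hs => ?_).trans key
    refine ENNReal.ofReal_le_ofReal ?_
    have h1 := mul_le_mul_of_nonneg_left (hf s hs) hq.le
    unfold gw
    rw [← exp_add]
    refine exp_le_exp.2 ?_
    nlinarith
  · have h1 := hs.1
    rw [← Real.exp_nat_mul, ← exp_add]
    refine exp_le_exp.2 ?_
    have h2 : u1 / u + n ≤ s / u := by
      rw [div_add' _ _ _ hu.ne', div_le_div_iff_of_pos_right hu]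
      have : (n : ℝ) * u ≤ n * (2 * π) := mul_le_mul_of_nonneg_left hu2 (Nat.cast_nonneg n)
      linarith
    nlinarith

private theorem neg_int (F : ℝ → ENNReal) (c : ℝ) :
    ∫⁻ s in Iio (-c), F s = ∫⁻ u in Ioi c, F (-u) := by
  have h := (Measure.measurePreserving_neg (volume : Measure ℝ)).setLIntegral_comp_preimage_emb
    (Homeomorph.neg ℝ).isClosedEmbedding.measurableEmbedding F (Iio (-c))
  rw [← h]
  congr 2
  ext x
  simp

/-- `x ≥ 16/5`: `1/(1 - e^(-x)) ≤ 1.05` -/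
theorem inv_one_sub_exp {x : ℝ} (hx : 16 / 5 ≤ x) : 1 / (1 - exp (-x)) ≤ 21 / 20 := by
  have h1 : exp (-x) ≤ 1 / 21 := by
    have h2 : exp (-x) ≤ exp (-(16 / 5)) := exp_le_exp.2 (by linarith)
    have h3 : exp (-(16 / 5 : ℝ)) ≤ 1 / 21 := by
      rw [Real.exp_neg, inv_eq_one_div]
      apply one_div_le_one_div_of_le (by norm_num)
      have h5 : exp (16 / 5) = exp (1 / 5) ^ 16 := by
        rw [← Real.exp_nat_mul]
        norm_num
      have h6 : (1 + 1 / 5 + (1 / 5) ^ 2 / 2 : ℝ) ≤ exp (1 / 5) :=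
        Real.quadratic_le_exp_of_nonneg (by norm_num)
      rw [h5]
      calc (21 : ℝ) ≤ (1 + 1 / 5 + (1 / 5) ^ 2 / 2) ^ 16 := by norm_num
        _ ≤ _ := pow_le_pow_left₀ (by norm_num) h6 16
    linarith
  rw [div_le_iff₀ (by linarith)]
  linarith

/-- left tail -/
theorem left_tail {q m ρ θ σ A : ℝ} (hq : 42 ≤ q) (hm : 0 < m) (hμ : 5 / 4 ≤ m / ρ) (hθ : 0 < θ)
    (hθπ : θ ≤ π) (h0 : 0 ≤ σ) (h1 : σ ≤ 1) (hA0 : 0 < A)
    (hA : A * m ^ 2 ≤ (m / ρ - 1 / 2) * min 1 (m / θ))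
    (hx : 16 / 5 ≤ q * (A * (θ * tr σ (θ / m)) ^ 2)) :
    ∫⁻ s in Iio (-(θ * tr σ (θ / m))), ENNReal.ofReal (exp (-(q * Dm m ρ θ s))) ≤
      ENNReal.ofReal (exp (-(q * (A * (θ * tr σ (θ / m)) ^ 2))) *
        (141 / 50 * √(exp 1 / q))) := by
  have hpi := Real.pi_pos
  have hq0 : 0 < q := by linarith
  have hT0 : 0 < θ / m := div_pos hθ hm
  have htr := tr_le (σ := σ) h1 hT0.le
  have htr0 := tr_pos h0 h1 hT0.le
  obtain ⟨u, hu⟩ : ∃ u, u = θ * tr σ (θ / m) := ⟨_, rfl⟩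
  rw [← hu] at hx ⊢
  have hu0 : 0 < u := by rw [hu]; positivity
  have huθ : u ≤ θ := by rw [hu]; nlinarith
  have hQ : 0 < A * u ^ 2 := by positivity
  have hE1 : exp 1 < 2.7182818286 := Real.exp_one_lt_d9
  have hE0 := exp_pos (1 : ℝ)
  have hV : 15 ≤ q * (1 / exp 1) := by
    rw [mul_one_div, le_div_iff₀ hE0]
    nlinarith
  rw [neg_int]
  have hf : ∀ s, u < s → A * u ^ 2 * (s / u) + 1 / exp 1 * (1 - cos (s - θ)) ≤ Dm m ρ θ (-s) := by
    intro s hs
    rw [Dm_eq]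
    have a1 := Qm_ray_left hm (by linarith : 1 ≤ m / ρ) hu0 hs.le
    have a2 := Qm_left hm hμ hθ hA0.le hA hu0.le huθ
    have a3 : 1 / exp 1 ≤ exp (pm m (-s)) := by
      rw [one_div, ← Real.exp_neg]
      exact exp_le_exp.2 (abs_le.1 (pm_mem m (-s))).1
    have a4 : θ + -s = -(s - θ) := by ring
    rw [a4, cos_neg]
    have a5 := cos_le_one (s - θ)
    have a6 : 0 ≤ s / u := div_nonneg (by linarith) hu0.le
    have a7 := mul_le_mul_of_nonneg_right a2 a6
    have a8 := mul_le_mul_of_nonneg_right a3 (by linarith : 0 ≤ 1 - cos (s - θ))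
    linarith
  have key := tail_gen (u1 := u) (f := fun s => Dm m ρ θ (-s)) hq0 hQ hu0
    (by linarith : u ≤ 2 * π) le_rfl hV hf
  refine key.trans (ENNReal.ofReal_le_ofReal ?_)
  have b1 := inv_one_sub_exp hx
  have e1 : q * (A * u ^ 2) * (u / u) = q * (A * u ^ 2) := by rw [div_self hu0.ne', mul_one]
  have e2 : 67 / 25 / √(q * (1 / exp 1)) = 67 / 25 * √(exp 1 / q) := by
    have : exp 1 / q = (q * (1 / exp 1))⁻¹ := by field_simp
    rw [this, Real.sqrt_inv]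
    ring
  rw [e1, e2]
  have b2 := exp_pos (-(q * (A * u ^ 2)))
  have b3 := Real.sqrt_nonneg (exp 1 / q)
  calc exp (-(q * (A * u ^ 2))) * (67 / 25 * √(exp 1 / q)) / (1 - exp (-(q * (A * u ^ 2))))
      = exp (-(q * (A * u ^ 2))) * (67 / 25 * √(exp 1 / q)) *
          (1 / (1 - exp (-(q * (A * u ^ 2))))) := by ring
    _ ≤ exp (-(q * (A * u ^ 2))) * (67 / 25 * √(exp 1 / q)) * (21 / 20) :=
        mul_le_mul_of_nonneg_left b1 (by positivity)
    _ ≤ _ := by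
        have : 67 / 25 * (21 / 20) * √(exp 1 / q) ≤ 141 / 50 * √(exp 1 / q) := by nlinarith
        nlinarith

/-- pointwise, right -/
theorem right_ray {m ρ θ A u T s : ℝ} (hm : 0 < m) (hμ : 5 / 4 ≤ m / ρ) (hu : u = 2 * π - θ)
    (hu0 : 0 < u) (hT : min 1 (u / m) ≤ T) (hT1 : T ≤ 1) (hA0 : 0 < A)
    (hA : A * m ^ 2 ≤ (m / ρ - gam T / 2) * min 1 (m / u)) (hs : u < s) :
    A * u ^ 2 * (s / u) + 1 * (1 - cos (s - u)) ≤ Dm m ρ θ s := by
  rw [Dm_eq]
  have a1 := Qm_ray_right hm (by linarith : 1 ≤ m / ρ) hu0 hs.le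
  have a2 := Qm_right hm hμ hu0 hT hT1 hA0.le hA hu0.le le_rfl
  have a3 : 1 ≤ exp (pm m s) := Real.one_le_exp (pm_nonneg hm (by linarith))
  have a4 : θ + s = s - u + 2 * π := by rw [hu]; ring
  rw [a4, cos_add_two_pi]
  have a5 := cos_le_one (s - u)
  have a6 : 0 ≤ s / u := div_nonneg (by linarith) hu0.le
  have a7 := mul_le_mul_of_nonneg_right a2 a6
  have a8 := mul_le_mul_of_nonneg_right a3 (by linarith : 0 ≤ 1 - cos (s - u))
  linarith

/-- right tail -/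
theorem right_tail {q m ρ θ A u T : ℝ} (hq : 42 ≤ q) (hm : 0 < m) (hμ : 5 / 4 ≤ m / ρ)
    (hu : u = 2 * π - θ) (hu0 : 0 < u) (hθ : 0 ≤ θ) (hT : min 1 (u / m) ≤ T) (hT1 : T ≤ 1)
    (hA0 : 0 < A) (hA : A * m ^ 2 ≤ (m / ρ - gam T / 2) * min 1 (m / u))
    (hx : 16 / 5 ≤ q * (A * u ^ 2)) :
    ∫⁻ s in Ioi u, ENNReal.ofReal (exp (-(q * Dm m ρ θ s))) ≤
      ENNReal.ofReal (exp (-(q * (A * u ^ 2))) * (141 / 50 * √(1 / q))) := by
  have hpi := Real.pi_pos
  have hq0 : 0 < q := by linarith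
  have hQ : 0 < A * u ^ 2 := by positivity
  have key := tail_gen (u1 := u) (E := 1) (c := u) (f := Dm m ρ θ) hq0 hQ hu0
    (by linarith : u ≤ 2 * π) le_rfl (by linarith)
    (fun s hs => right_ray hm hμ hu hu0 hT hT1 hA0 hA hs)
  refine key.trans (ENNReal.ofReal_le_ofReal ?_)
  have b1 := inv_one_sub_exp hx
  have e1 : q * (A * u ^ 2) * (u / u) = q * (A * u ^ 2) := by rw [div_self hu0.ne', mul_one]
  have e2 : 67 / 25 / √(q * 1) = 67 / 25 * √(1 / q) := by
    rw [mul_one, one_div, Real.sqrt_inv]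
    ring
  rw [e1, e2]
  have b2 := exp_pos (-(q * (A * u ^ 2)))
  have b3 := Real.sqrt_nonneg (1 / q)
  calc exp (-(q * (A * u ^ 2))) * (67 / 25 * √(1 / q)) / (1 - exp (-(q * (A * u ^ 2))))
      = exp (-(q * (A * u ^ 2))) * (67 / 25 * √(1 / q)) *
          (1 / (1 - exp (-(q * (A * u ^ 2))))) := by ring
    _ ≤ exp (-(q * (A * u ^ 2))) * (67 / 25 * √(1 / q)) * (21 / 20) :=
        mul_le_mul_of_nonneg_left b1 (by positivity)
    _ ≤ _ := by
        have : 67 / 25 * (21 / 20) * √(1 / q) ≤ 141 / 50 * √(1 / q) := by nlinarith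
        nlinarith

/-- `67/25 · e^(-x)/(1 - e^(-y)) ≤ 1/100` for `x ≥ 28/5`, `y ≥ 16/5` -/
private theorem small_exp {x y : ℝ} (hx : 29 / 5 ≤ x) (hy : 16 / 5 ≤ y) :
    exp (-x) * (67 / 25) * (1 / (1 - exp (-y))) ≤ 1 / 100 := by
  have h1 := inv_one_sub_exp hy
  have h2 : exp (-x) ≤ 1 / 300 := by
    have h2 : exp (-x) ≤ exp (-(29 / 5)) := exp_le_exp.2 (by linarith)
    have h3 : exp (-(29 / 5 : ℝ)) ≤ 1 / 300 := by
      rw [Real.exp_neg, inv_eq_one_div]
      apply one_div_le_one_div_of_le (by norm_num)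
      have h5 : exp (29 / 5) = exp (1 / 5) ^ 29 := by
        rw [← Real.exp_nat_mul]
        norm_num
      have h6 : (1 + 1 / 5 + (1 / 5) ^ 2 / 2 : ℝ) ≤ exp (1 / 5) :=
        Real.quadratic_le_exp_of_nonneg (by norm_num)
      rw [h5]
      calc (300 : ℝ) ≤ (1 + 1 / 5 + (1 / 5) ^ 2 / 2) ^ 29 := by norm_num
        _ ≤ _ := pow_le_pow_left₀ (by norm_num) h6 29
    linarith
  have h3 := exp_pos (-x)
  have h4 : exp (-x) * (67 / 25) * (1 / (1 - exp (-y))) ≤ exp (-x) * (67 / 25) * (21 / 20) :=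
    mul_le_mul_of_nonneg_left h1 (by positivity)
  linarith

/-- right tail, sharp version -/
theorem right_tail_half {q m ρ θ A u T : ℝ} (hq : 42 ≤ q) (hm : 0 < m) (hμ : 5 / 4 ≤ m / ρ)
    (hu : u = 2 * π - θ) (hu0 : 0 < u) (hθ : 0 ≤ θ) (hT : min 1 (u / m) ≤ T) (hT1 : T ≤ 1)
    (hA0 : 0 < A) (hA : A * m ^ 2 ≤ (m / ρ - gam T / 2) * min 1 (m / u))
    (hx : 29 / 5 ≤ q * (A * u ^ 2) * (π / u)) (hx2 : 16 / 5 ≤ q * (A * u ^ 2)) :
    ∫⁻ s in Ioi u, ENNReal.ofReal (exp (-(q * Dm m ρ θ s))) ≤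
      ENNReal.ofReal (exp (-(q * (A * u ^ 2))) * (27 / 20 * √(1 / q))) := by
  have hpi := Real.pi_pos
  have hq0 : 0 < q := by linarith
  have hQ : 0 < A * u ^ 2 := by positivity
  have hpt := fun s hs => right_ray (θ := θ) (s := s) hm hμ hu hu0 hT hT1 hA0 hA hs
  have hsub : Ioi u ⊆ Ioc u (u + π) ∪ Ioi (u + π) := by
    intro s hs
    rcases le_or_gt s (u + π) with h | h
    · exact Or.inl ⟨hs, h⟩
    · exact Or.inr h
  have k1 : ∫⁻ s in Ioc u (u + π), ENNReal.ofReal (exp (-(q * Dm m ρ θ s))) ≤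
      ENNReal.ofReal (exp (-(q * (A * u ^ 2))) * (67 / 50 / √q)) := by
    have hint : IntegrableOn (fun s => exp (-(q * (A * u ^ 2))) * gw q (s - u)) (Ioc u (u + π)) := by
      have hcont : Continuous fun s => exp (-(q * (A * u ^ 2))) * gw q (s - u) :=
        continuous_const.mul ((continuous_gw _).comp (by fun_prop))
      exact (hcont.continuousOn.integrableOn_Icc).mono_set Ioc_subset_Icc_self
    calc ∫⁻ s in Ioc u (u + π), ENNReal.ofReal (exp (-(q * Dm m ρ θ s)))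
        ≤ ∫⁻ s in Ioc u (u + π), ENNReal.ofReal (exp (-(q * (A * u ^ 2))) * gw q (s - u)) := by
          refine setLIntegral_mono' measurableSet_Ioc fun s hs => ?_
          refine ENNReal.ofReal_le_ofReal ?_
          have h1 := mul_le_mul_of_nonneg_left (hpt s hs.1) hq0.le
          unfold gw
          rw [← exp_add]
          refine exp_le_exp.2 ?_
          have h2 : A * u ^ 2 * 1 ≤ A * u ^ 2 * (s / u) := by
            apply mul_le_mul_of_nonneg_left _ hQ.le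
            rw [le_div_iff₀ hu0, one_mul]
            exact hs.1.le
          nlinarith
      _ = ENNReal.ofReal (∫ s in Ioc u (u + π), exp (-(q * (A * u ^ 2))) * gw q (s - u)) := by
          rw [ofReal_integral_eq_lintegral_ofReal hint]
          exact Filter.Eventually.of_forall fun s =>
            mul_nonneg (exp_pos _).le (gw_pos _ _).le
      _ ≤ _ := by
          apply ENNReal.ofReal_le_ofReal
          rw [← intervalIntegral.integral_of_le (by linarith), intervalIntegral.integral_const_mul]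
          have h2 := intervalIntegral.integral_comp_sub_right (a := u) (b := u + π) (gw q) u
          rw [h2]
          have e1 : u - u = 0 := by ring
          have e2 : u + π - u = π := by ring
          rw [e1, e2]
          exact mul_le_mul_of_nonneg_left (half_W (by linarith) hpi.le le_rfl) (exp_pos _).le
  have k2 := tail_gen (u1 := u + π) (E := 1) (c := u) (f := Dm m ρ θ) hq0 hQ hu0
    (by linarith : u ≤ 2 * π) (by linarith) (by linarith)
    (fun s hs => hpt s (by linarith))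
  refine ((lintegral_mono_set hsub).trans (lintegral_union_le _ _ _)).trans ?_
  refine (add_le_add k1 k2).trans ?_
  have hs : 0 < √q := Real.sqrt_pos.2 hq0
  have b2 := exp_pos (-(q * (A * u ^ 2)))
  have c1 : exp (-(q * (A * u ^ 2))) < 1 := by
    rw [← Real.exp_zero]
    exact exp_lt_exp.2 (by linarith)
  rw [← ENNReal.ofReal_add (by positivity) (div_nonneg (by positivity) (by linarith))]
  refine ENNReal.ofReal_le_ofReal ?_
  have b1 := small_exp hx hx2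
  have e1 : exp (-(q * (A * u ^ 2) * ((u + π) / u))) =
      exp (-(q * (A * u ^ 2))) * exp (-(q * (A * u ^ 2) * (π / u))) := by
    rw [← exp_add]
    congr 1
    field_simp
    ring
  have e3 : √(1 / q) = 1 / √q := by rw [one_div, Real.sqrt_inv, one_div]
  rw [e1, mul_one, e3]
  calc exp (-(q * (A * u ^ 2))) * (67 / 50 / √q) +
        exp (-(q * (A * u ^ 2))) * exp (-(q * (A * u ^ 2) * (π / u))) * (67 / 25 / √q) /
          (1 - exp (-(q * (A * u ^ 2))))
      = exp (-(q * (A * u ^ 2))) / √q * (67 / 50 + exp (-(q * (A * u ^ 2) * (π / u))) * (67 / 25) *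
          (1 / (1 - exp (-(q * (A * u ^ 2)))))) := by ring
    _ ≤ exp (-(q * (A * u ^ 2))) / √q * (67 / 50 + 1 / 100) :=
        mul_le_mul_of_nonneg_left (by linarith) (by positivity)
    _ = _ := by ring

/-! ## right main zone -/

/-- `1 - cos` on `[0, u]`, `u = 2π - θ` -/
theorem cos_chord {u z β : ℝ} (hu0 : 0 < u) (hu : u ≤ 2 * π) (hβ : β * u ^ 2 ≤ 1 - cos u)
    (hz : 0 ≤ z) (hzu : z ≤ u) : β * z ^ 2 ≤ 1 - cos z := by
  have e : ∀ x : ℝ, 1 - cos x = 2 * sin (x / 2) ^ 2 := by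
    intro x
    have h2 := Real.cos_sq (x / 2)
    have h := Real.cos_sq' (x / 2)
    rw [show 2 * (x / 2) = x by ring] at h2
    linarith
  rw [e] at hβ ⊢
  have h1 : 0 ≤ sin (u / 2) := sin_nonneg_of_nonneg_of_le_pi (by linarith) (by linarith)
  have h2 : z / u * sin (u / 2) ≤ sin (z / 2) := by
    have hx1 : u / 2 ∈ Icc (0 : ℝ) π := ⟨by linarith, by linarith⟩
    have hx2 : (0 : ℝ) ∈ Icc (0 : ℝ) π := ⟨le_rfl, Real.pi_pos.le⟩
    have ha : 0 ≤ z / u := div_nonneg hz hu0.le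
    have hb : 0 ≤ 1 - z / u := by rw [sub_nonneg, div_le_one hu0]; exact hzu
    have hc := strictConcaveOn_sin_Icc.concaveOn.2 hx1 hx2 ha hb (by ring)
    simp only [smul_eq_mul, mul_zero, add_zero, sin_zero] at hc
    have e2 : z / u * (u / 2) = z / 2 := by field_simp
    rwa [e2] at hc
  have h3 : (z / u * sin (u / 2)) ^ 2 ≤ sin (z / 2) ^ 2 :=
    pow_le_pow_left₀ (mul_nonneg (div_nonneg hz hu0.le) h1) h2 2
  have h4 : β * z ^ 2 = β * u ^ 2 * (z / u) ^ 2 := by field_simp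
  rw [h4]
  have h5 := mul_le_mul_of_nonneg_right hβ (sq_nonneg (z / u))
  nlinarith

theorem right_main {q m ρ θ A u T β : ℝ} (hq : 0 < q) (hm : 0 < m) (hμ : 5 / 4 ≤ m / ρ)
    (hu : u = 2 * π - θ) (hu0 : 0 < u) (hθ : 0 ≤ θ) (hT : min 1 (u / m) ≤ T) (hT1 : T ≤ 1)
    (hA0 : 0 < A) (hA : A * m ^ 2 ≤ (m / ρ - gam T / 2) * min 1 (m / u)) (hβ0 : 0 < β)
    (hβ : β * u ^ 2 ≤ 1 - cos θ) :
    ∫⁻ s in Ioc 0 u, ENNReal.ofReal (exp (-(q * Dm m ρ θ s))) ≤
      ENNReal.ofReal (√(π / (q * (A + β))) * exp (-(q * (A * β / (A + β) * u ^ 2)))) := by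
  refine gauss_two hq hA0 hβ0 measurableSet_Ioc fun s hs => ?_
  rw [Dm_eq]
  have a2 := Qm_right hm hμ hu0 hT hT1 hA0.le hA hs.1.le hs.2
  have a3 : 1 ≤ exp (pm m s) := Real.one_le_exp (pm_nonneg hm hs.1.le)
  have a4 : θ + s = 2 * π - (u - s) := by rw [hu]; ring
  have a5 : cos θ = cos u := by rw [hu, cos_two_pi_sub]
  rw [a4, cos_two_pi_sub]
  rw [a5] at hβ
  have a6 := cos_chord (z := u - s) hu0 (by linarith) hβ (by linarith [hs.2]) (by linarith [hs.1])
  have a7 := cos_le_one (u - s)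
  have a8 := mul_le_mul_of_nonneg_right a3 (by linarith : 0 ≤ 1 - cos (u - s))
  have e1 : (s - u) ^ 2 = (u - s) ^ 2 := by ring
  rw [e1]
  linarith

/-- right main zone with the window `11/25` -/
theorem right_split {q m ρ θ A u T : ℝ} (hq : 0 < q) (hm : 0 < m) (hμ : 5 / 4 ≤ m / ρ)
    (hu : u = 2 * π - θ) (hu0 : 0 < u) (hθ : 6 / 5 ≤ θ) (hT : min 1 (u / m) ≤ T) (hT1 : T ≤ 1)
    (hA0 : 0 < A) (hA : A * m ^ 2 ≤ (m / ρ - gam T / 2) * min 1 (m / u)) :
    ∫⁻ s in Ioc 0 u, ENNReal.ofReal (exp (-(q * Dm m ρ θ s))) ≤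
      ENNReal.ofReal (√(π / (q * (A + 11 / 25))) * exp (-(q * (A * (11 / 25) / (A + 11 / 25) * u ^ 2))) +
        √(π / (q * A)) / 2 * exp (-(q * (396 / 625)))) := by
  have hpt : ∀ s ∈ Ioc 0 u, A * s ^ 2 + (1 - cos (u - s)) ≤ Dm m ρ θ s := by
    intro s hs
    rw [Dm_eq]
    have a2 := Qm_right hm hμ hu0 hT hT1 hA0.le hA hs.1.le hs.2
    have a3 : 1 ≤ exp (pm m s) := Real.one_le_exp (pm_nonneg hm hs.1.le)
    have a4 : θ + s = 2 * π - (u - s) := by rw [hu]; ring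
    rw [a4, cos_two_pi_sub]
    have a7 := cos_le_one (u - s)
    have a8 := mul_le_mul_of_nonneg_right a3 (by linarith : 0 ≤ 1 - cos (u - s))
    linarith
  have hsub : Ioc 0 u ⊆ (Ioc 0 u ∩ Ici (u - 6 / 5)) ∪ (Ioc 0 u ∩ Iio (u - 6 / 5)) := by
    intro s hs
    rcases le_or_gt (u - 6 / 5) s with h | h
    · exact Or.inl ⟨hs, h⟩
    · exact Or.inr ⟨hs, h⟩
  have k1 := gauss_two (t := u) (f := Dm m ρ θ) hq hA0 (by norm_num : (0 : ℝ) < 11 / 25)
    (measurableSet_Ioc.inter measurableSet_Ici) (S := Ioc 0 u ∩ Ici (u - 6 / 5)) (by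
      intro s hs
      refine le_trans ?_ (hpt s hs.1)
      have h1 := cos_split_small (u := u - s) (by
        have := hs.2
        have := hs.1.2
        simp only [mem_Ici] at *
        rw [abs_le]
        constructor <;> linarith)
      have e1 : (s - u) ^ 2 = (u - s) ^ 2 := by ring
      rw [e1]
      linarith)
  have k2 := gauss_half' (c := 396 / 625) (f := Dm m ρ θ) hq hA0
    (measurableSet_Ioc.inter measurableSet_Iio) (S := Ioc 0 u ∩ Iio (u - 6 / 5))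
    (fun s hs => hs.1.1.le) (by
      intro s hs
      refine le_trans ?_ (hpt s hs.1)
      have h0 := hs.1.1
      have h0' := hs.2
      simp only [mem_Iio] at h0'
      have h1 : 396 / 625 ≤ 1 - cos (u - s) := by
        rcases le_total (u - s) π with h | h
        · have := cos_split_large (u := u - s) (by linarith) h
          norm_num at this ⊢
          linarith
        · have := cos_split_large (u := 2 * π - (u - s)) (by linarith) (by linarith)
          rw [cos_two_pi_sub] at this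
          norm_num at this ⊢
          linarith
      linarith)
  refine ((lintegral_mono_set hsub).trans (lintegral_union_le _ _ _)).trans ?_
  refine (add_le_add k1 k2).trans ?_
  rw [← ENNReal.ofReal_add (by positivity) (by positivity)]

end SokalCl
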