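import Pool.Agent.Lib_MP_af4de1_v3.ClB
import Pool.Agent.Lib_MP_af4de1_fa.FrM

/-!
# Far waves with `Γ ≥ 10`, III: closed forms in `p = ρ/√R`, `T = θ/m`, `V = r θ²/R`
-/

set_option autoImplicit false

namespace SokalCl

open Real SokalCen SokalFA SokalV3 MeasureTheory Set

/-- real parameters of one wave -/
structure Pt where
  /-- `ρ/√R` -/
  p : ℝ
  /-- `θ/m` -/
  T : ℝ
  /-- the angle -/
  θ : ℝ
  /-- `2π - θ` -/
  u : ℝ
  /-- `r θ²/R` -/
  V : ℝ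
  /-- tangent point -/
  σ : ℝ
  /-- clip -/
  cl : ℝ
  /-- right coefficient -/
  A2 : ℝ

noncomputable def N0 (p : ℝ) : ℝ := 23 / 20 * (1 + 16 / 25 * (1 - p ^ 2))
noncomputable def bt (θ : ℝ) : ℝ := 1 / (2 + 1487 / 5000 * θ ^ 2)
noncomputable def al (x : Pt) : ℝ := (8 / 5 - 16 / 25 * x.p) * x.cl
noncomputable def Bm (x : Pt) : ℝ := bt x.θ * Lq x.σ x.T
noncomputable def Zm (x : Pt) : ℝ := 2 * x.p / al x + (1 - x.p ^ 2) / Bm x
noncomputable def Z3 (x : Pt) : ℝ := (x.θ / x.u) ^ 2 * (2 * x.p / x.A2) + (1 - x.p ^ 2) / bt x.θ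
noncomputable def Zp (x : Pt) : ℝ := 2 * x.p / x.A2 + (1 - x.p ^ 2) * (25 / 11)

/-- main -/
noncomputable def g1 (x : Pt) (κ : ℝ) : ℝ :=
  √(N0 x.p / (κ * al x * Bm x * Zm x)) * exp (-(κ * x.V * (tr x.σ x.T ^ 2 / Zm x)))
/-- left tail -/
noncomputable def g2 (x : Pt) (κ : ℝ) : ℝ :=
  √(N0 x.p * exp 1 / (2 * π * κ * x.p)) * (141 / 50) *
    exp (-(κ * x.V * (tr x.σ x.T ^ 2 * al x / (2 * x.p))))
/-- right main -/
noncomputable def g3 (x : Pt) (κ : ℝ) : ℝ :=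
  √(N0 x.p / (κ * x.A2 * bt x.θ * Z3 x)) * exp (-(κ * x.V / Z3 x))
/-- right tail -/
noncomputable def g4 (x : Pt) (κ : ℝ) : ℝ :=
  √(N0 x.p / (2 * π * κ * x.p)) * (141 / 50) * exp (-(κ * x.V * ((x.u / x.θ) ^ 2 * x.A2 / (2 * x.p))))
/-- right main, window form -/
noncomputable def g3h (x : Pt) (κ : ℝ) : ℝ :=
  √(N0 x.p / (κ * x.A2 * (11 / 25) * Zp x)) * exp (-(κ * x.V / ((x.θ / x.u) ^ 2 * Zp x))) +
    √(N0 x.p / (κ * (1 - x.p ^ 2) * x.A2)) / 2 *
      exp (-(κ * (396 / 625) * (x.V / (x.θ ^ 2 * (1 - x.p ^ 2)))))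
/-- right tail, sharp form -/
noncomputable def g4h (x : Pt) (κ : ℝ) : ℝ :=
  √(N0 x.p / (2 * π * κ * x.p)) * (27 / 20) * exp (-(κ * x.V * ((x.u / x.θ) ^ 2 * x.A2 / (2 * x.p))))

/-- the geometry behind the parameters -/
structure Geo (r δ θ : ℝ) (x : Pt) : Prop where
  r0 : 499 / 10 ≤ r
  d0 : 0 < δ
  hθ : x.θ = θ
  th0 : 0 < θ
  thπ : θ ≤ π
  hp : x.p = r * δ / √(1 + (r * δ) ^ 2)
  hT : x.T = θ / mm (r * δ)
  hu : x.u = 2 * π - θ
  hV : x.V = r * θ ^ 2 / RR r δ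
  s0 : 0 ≤ x.σ
  s1 : x.σ ≤ 1
  c0 : 0 < x.cl
  c1 : x.cl ≤ 1
  cT : x.cl * x.T ≤ 1
  a0 : 0 < x.A2
  a1 : x.A2 ≤ (8 / 5 - 16 / 25 * gam (min 1 (x.u / mm (r * δ))) * x.p) * min 1 (mm (r * δ) / x.u)

/-- prefactor without level -/
noncomputable def K0 (r δ : ℝ) : ℝ := √(r / (2 * π * (r * δ))) * √(23 / 20 * √(RR r δ)) *
  √(1 + 1 / mm (r * δ) ^ 2)

section geo

variable {r δ θ : ℝ} {x : Pt}

theorem Geo.rho (g : Geo r δ θ x) : 0 < r * δ := mul_pos (by linarith [g.r0]) g.d0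

theorem Geo.sq (g : Geo r δ θ x) : 0 < √(1 + (r * δ) ^ 2) := Real.sqrt_pos.2 (by positivity)

theorem Geo.mpos (g : Geo r δ θ x) : 0 < mm (r * δ) := by
  unfold mm
  have := g.sq
  positivity

theorem Geo.p0 (g : Geo r δ θ x) : 0 < x.p := by
  rw [g.hp]
  exact div_pos g.rho g.sq

theorem Geo.R (g : Geo r δ θ x) : (1 - x.p ^ 2) * (1 + (r * δ) ^ 2) = 1 := by
  have h1 := g.sq
  have h2 : √(1 + (r * δ) ^ 2) ^ 2 = 1 + (r * δ) ^ 2 := Real.sq_sqrt (by positivity)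
  rw [g.hp, div_pow, h2]
  field_simp
  ring

theorem Geo.p1 (g : Geo r δ θ x) : 0 < 1 - x.p ^ 2 := by
  have h1 := g.R
  have h2 : 0 < 1 + (r * δ) ^ 2 := by positivity
  by_contra h
  push Not at h
  nlinarith

theorem Geo.p1' (g : Geo r δ θ x) : x.p < 1 := by
  have := g.p1
  have := g.p0
  nlinarith

theorem Geo.m2 (g : Geo r δ θ x) : (1 - x.p ^ 2) * mm (r * δ) ^ 2 = 25 / 16 := by
  have h1 := g.R
  have h2 : √(1 + (r * δ) ^ 2) ^ 2 = 1 + (r * δ) ^ 2 := Real.sq_sqrt (by positivity)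
  unfold mm
  rw [mul_pow, h2]
  linear_combination (25 / 16) * h1

theorem Geo.mu (g : Geo r δ θ x) : mm (r * δ) / (r * δ) = 5 / (4 * x.p) := by
  have h1 := g.sq
  have h2 := g.rho
  rw [g.hp]
  unfold mm
  field_simp

theorem Geo.mu' (g : Geo r δ θ x) : 5 / 4 ≤ mm (r * δ) / (r * δ) := by
  rw [g.mu, div_le_div_iff₀ (by norm_num) (by have := g.p0; positivity)]
  have := g.p1'
  linarith

theorem Geo.al0 (g : Geo r δ θ x) : 0 < al x := by
  unfold al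
  have := g.p1'
  have := g.c0
  have : 0 < 8 / 5 - 16 / 25 * x.p := by linarith
  positivity

/-- left coefficient -/
noncomputable def Ale (x : Pt) : ℝ := al x * (1 - x.p ^ 2) / (2 * x.p)
/-- right coefficient -/
noncomputable def Ari (x : Pt) : ℝ := x.A2 * (1 - x.p ^ 2) / (2 * x.p)

theorem Geo.Ale0 (g : Geo r δ θ x) : 0 < Ale x := by
  unfold Ale
  have := g.al0
  have := g.p0
  have := g.p1
  positivity

theorem Geo.Ari0 (g : Geo r δ θ x) : 0 < Ari x := by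
  unfold Ari
  have := g.a0
  have := g.p0
  have := g.p1
  positivity

theorem Geo.hA (g : Geo r δ θ x) : Ale x * mm (r * δ) ^ 2 ≤
    (mm (r * δ) / (r * δ) - 1 / 2) * min 1 (mm (r * δ) / θ) := by
  have hp := g.p0
  have e : Ale x * mm (r * δ) ^ 2 = (5 / (4 * x.p) - 1 / 2) * x.cl := by
    have h1 := g.m2
    unfold Ale al
    have e1 : (8 / 5 - 16 / 25 * x.p) * x.cl * (1 - x.p ^ 2) / (2 * x.p) * mm (r * δ) ^ 2 =
        (8 / 5 - 16 / 25 * x.p) * x.cl / (2 * x.p) * ((1 - x.p ^ 2) * mm (r * δ) ^ 2) := by ring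
    rw [e1, h1]
    field_simp
    ring
  rw [e, g.mu]
  have h2 : x.cl ≤ min 1 (mm (r * δ) / θ) := by
    refine le_min g.c1 ?_
    rw [le_div_iff₀ g.th0]
    have h3 := g.cT
    rw [g.hT, ← mul_div_assoc, div_le_one g.mpos] at h3
    exact h3
  refine mul_le_mul_of_nonneg_left h2 ?_
  rw [← g.mu]
  linarith [g.mu']

theorem Geo.u0 (g : Geo r δ θ x) : 0 < x.u := by
  rw [g.hu]
  linarith [g.thπ, Real.pi_pos]

theorem Geo.hAr (g : Geo r δ θ x) : Ari x * mm (r * δ) ^ 2 ≤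
    (mm (r * δ) / (r * δ) - gam (min 1 (x.u / mm (r * δ))) / 2) * min 1 (mm (r * δ) / x.u) := by
  have hp := g.p0
  have e : Ari x * mm (r * δ) ^ 2 = x.A2 * (25 / (32 * x.p)) := by
    have h1 := g.m2
    unfold Ari
    have e1 : x.A2 * (1 - x.p ^ 2) / (2 * x.p) * mm (r * δ) ^ 2 =
        x.A2 / (2 * x.p) * ((1 - x.p ^ 2) * mm (r * δ) ^ 2) := by ring
    rw [e1, h1]
    field_simp
    ring
  rw [e, g.mu]
  have h1 := mul_le_mul_of_nonneg_right g.a1 (by positivity : 0 ≤ 25 / (32 * x.p))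
  refine h1.trans (le_of_eq ?_)
  field_simp
  ring

theorem Geo.cos (g : Geo r δ θ x) : ∀ z : ℝ, 0 ≤ z → z ≤ θ → bt θ * z ^ 2 ≤ 1 - Real.cos z := by
  intro z h0 h1
  have h2 := cos_pade h0 (h1.trans g.thπ)
  have h3 : 0 < 2 + 1487 / 5000 * z ^ 2 := by positivity
  have h4 : bt θ ≤ bt z := by
    unfold bt
    apply one_div_le_one_div_of_le h3
    have := pow_le_pow_left₀ h0 h1 2
    linarith
  have h5 : bt z * z ^ 2 ≤ 1 - Real.cos z := by
    unfold bt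
    rw [one_div, inv_mul_le_iff₀ h3]
    linarith
  have := mul_le_mul_of_nonneg_right h4 (sq_nonneg z)
  linarith

theorem bt_pos (θ : ℝ) : 0 < bt θ := by
  unfold bt
  positivity

theorem Geo.T0 (g : Geo r δ θ x) : 0 < x.T := by
  rw [g.hT]
  exact div_pos g.th0 g.mpos

theorem Geo.Bm0 (g : Geo r δ θ x) : 0 < Bm x := by
  unfold Bm
  exact mul_pos (bt_pos _) (Lq_pos g.s1 g.T0.le)

theorem Geo.K0pos (g : Geo r δ θ x) : 0 < K0 r δ := by
  unfold K0 RR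
  have h1 := g.rho
  have h2 := Real.pi_pos
  have h3 : 0 < r := by linarith [g.r0]
  have h4 := g.mpos
  positivity

/-- all prefactors -/
theorem Geo.K0_sqrt (g : Geo r δ θ x) {Y κ : ℝ} (hκ : 0 < κ) :
    K0 r δ * √(Y / (κ * r)) = √(N0 x.p * Y / (2 * π * κ * x.p)) := by
  have h1 := g.rho
  have h2 := Real.pi_pos
  have h3 : 0 < r := by linarith [g.r0]
  have h4 := g.mpos
  have h5 := g.sq
  have hp := g.p0
  unfold K0
  rw [← Real.sqrt_mul (by positivity), ← Real.sqrt_mul (by unfold RR; positivity),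
    ← Real.sqrt_mul (by unfold RR; positivity)]
  congr 1
  obtain ⟨S, hS⟩ : ∃ S, S = √(1 + (r * δ) ^ 2) := ⟨_, rfl⟩
  have hS0 : 0 < S := by rw [hS]; exact h5
  have e1 : √(RR r δ) = S := by rw [hS]; rfl
  have e2 : r * δ = x.p * S := by
    rw [g.hp, ← hS]
    field_simp
  have e3 : (1 - x.p ^ 2) * S ^ 2 = 1 := by
    have := g.R
    rw [hS, Real.sq_sqrt (by positivity)]
    exact this
  have e4 : mm (r * δ) = 5 / 4 * S := by unfold mm; rw [← hS]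
  rw [e1, e4, e2]
  have e5 : 1 - x.p ^ 2 = 1 / S ^ 2 := by
    field_simp
    linarith
  unfold N0
  rw [e5]
  field_simp
  ring

end geo

/-! ## a zone from two integrals -/

theorem zone_mk {r m ρ θ C E J J' : ℝ} {S : Set ℝ} (hr : 0 < r) (hC : 0 ≤ C)
    (hE0 : 0 ≤ E) (hS : MeasurableSet S)
    (hW : ∀ s ∈ S, Wm m θ 1 s ≤ 2 * C * Dm m ρ θ s) (hE : ∀ s ∈ S, exp (pm m s) ≤ E)
    (hJ : ∫⁻ s in S, ENNReal.ofReal (exp (-(r * Dm m ρ θ s))) ≤ ENNReal.ofReal J)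
    (hJ' : ∫⁻ s in S, ENNReal.ofReal (exp (-(7 / 8 * r * Dm m ρ θ s))) ≤ ENNReal.ofReal J') :
    Zone r m ρ θ 1 S J (16 * C / (exp 1 * r) * J') (E * J) := by
  have hc : 0 ≤ 16 * C / (exp 1 * r) := by
    have := exp_pos (1 : ℝ)
    positivity
  refine ⟨hJ, ?_, ?_⟩
  · calc ∫⁻ s in S, ENNReal.ofReal (Wm m θ 1 s * exp (-(r * Dm m ρ θ s)))
        ≤ ∫⁻ s in S, ENNReal.ofReal (16 * C / (exp 1 * r)) *
            ENNReal.ofReal (exp (-(7 / 8 * r * Dm m ρ θ s))) := by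
          refine setLIntegral_mono' hS fun s hs => ?_
          rw [← ENNReal.ofReal_mul hc]
          exact ENNReal.ofReal_le_ofReal (trick hr hC (hW s hs))
      _ = ENNReal.ofReal (16 * C / (exp 1 * r)) *
            ∫⁻ s in S, ENNReal.ofReal (exp (-(7 / 8 * r * Dm m ρ θ s))) :=
          lintegral_const_mul' _ _ ENNReal.ofReal_ne_top
      _ ≤ _ := by
          rw [ENNReal.ofReal_mul hc]
          exact mul_le_mul_right hJ' _
  · calc ∫⁻ s in S, ENNReal.ofReal (exp (pm m s) * exp (-(r * Dm m ρ θ s)))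
        ≤ ∫⁻ s in S, ENNReal.ofReal E * ENNReal.ofReal (exp (-(r * Dm m ρ θ s))) := by
          refine setLIntegral_mono' hS fun s hs => ?_
          rw [← ENNReal.ofReal_mul hE0]
          exact ENNReal.ofReal_le_ofReal (mul_le_mul_of_nonneg_right (hE s hs) (exp_pos _).le)
      _ = ENNReal.ofReal E * ∫⁻ s in S, ENNReal.ofReal (exp (-(r * Dm m ρ θ s))) :=
          lintegral_const_mul' _ _ ENNReal.ofReal_ne_top
      _ ≤ _ := by
          rw [ENNReal.ofReal_mul hE0]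
          exact mul_le_mul_right hJ _

/-! ## the integrals in normalised form -/

section norm

variable {r δ θ : ℝ} {x : Pt}

theorem Geo.G1 (g : Geo r δ θ x) {κ : ℝ} (hκ : 0 < κ) :
    ∫⁻ s in Icc (-(θ * tr x.σ (θ / mm (r * δ)))) 0,
      ENNReal.ofReal (exp (-(κ * r * Dm (mm (r * δ)) (r * δ) θ s))) ≤
      ENNReal.ofReal (g1 x κ / K0 r δ) := by
  have hr : 0 < r := by linarith [g.r0]
  have hK := g.K0pos
  have hp := g.p0
  have hp1 := g.p1
  have hB := g.Bm0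
  have hA := g.Ale0
  have ha := g.al0
  have hpi := Real.pi_pos
  have hZ : 0 < Zm x := by
    unfold Zm
    positivity
  have key := main_int (q := κ * r) (m := mm (r * δ)) (ρ := r * δ) (θ := θ) (σ := x.σ) (A := Ale x)
    (β := bt θ) (mul_pos hκ hr) g.mpos g.mu' g.th0 g.s0 g.s1 g.Ale0 g.hA (bt_pos θ) g.cos
  refine key.trans (ENNReal.ofReal_le_ofReal (le_of_eq ?_))
  have eB : bt θ * Lq x.σ (θ / mm (r * δ)) = Bm x := by unfold Bm; rw [g.hθ, g.hT]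
  rw [eB, ← g.hT]
  have eZ : 2 * x.p * (Ale x + Bm x) = al x * Bm x * Zm x := by
    unfold Ale Zm
    field_simp
    ring
  have e1 : √(π / (κ * r * (Ale x + Bm x))) = √(N0 x.p / (κ * al x * Bm x * Zm x)) / K0 r δ := by
    rw [eq_div_iff hK.ne', mul_comm]
    have h1 : π / (κ * r * (Ale x + Bm x)) = π / (Ale x + Bm x) / (κ * r) := by
      field_simp
    rw [h1, g.K0_sqrt hκ]
    congr 1
    have h2 : κ * al x * Bm x * Zm x = κ * (2 * x.p * (Ale x + Bm x)) := by rw [eZ]; ring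
    rw [h2]
    have : 0 < Ale x + Bm x := by positivity
    field_simp
  have e2 : κ * r * (Ale x * Bm x / (Ale x + Bm x) * (θ * tr x.σ x.T) ^ 2) =
      κ * x.V * (tr x.σ x.T ^ 2 / Zm x) := by
    have h1 : Ale x * Bm x / (Ale x + Bm x) = (1 - x.p ^ 2) / Zm x := by
      have h3 : 0 < Ale x + Bm x := by positivity
      rw [div_eq_div_iff h3.ne' hZ.ne']
      have h4 : Ale x * Bm x * Zm x = Ale x * (al x * Bm x * Zm x) / al x := by field_simp
      rw [h4, ← eZ]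
      unfold Ale
      field_simp
    have h2 : x.V = r * θ ^ 2 * (1 - x.p ^ 2) := by
      rw [g.hV]
      have h5 := g.R
      unfold RR
      rw [div_eq_iff (by positivity)]
      linear_combination (-r * θ ^ 2) * h5
    rw [h1, h2]
    field_simp
  rw [e1, e2]
  unfold g1
  ring

theorem Geo.V_eq (g : Geo r δ θ x) : x.V = r * θ ^ 2 * (1 - x.p ^ 2) := by
  rw [g.hV]
  have h5 := g.R
  unfold RR
  rw [div_eq_iff (by positivity)]
  linear_combination (-r * θ ^ 2) * h5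

theorem Geo.G2 (g : Geo r δ θ x) {κ : ℝ} (hκ : 7 / 8 ≤ κ)
    (hx : 16 / 5 ≤ 7 / 8 * (x.V * (tr x.σ x.T ^ 2 * al x / (2 * x.p)))) :
    ∫⁻ s in Iio (-(θ * tr x.σ (θ / mm (r * δ)))),
      ENNReal.ofReal (exp (-(κ * r * Dm (mm (r * δ)) (r * δ) θ s))) ≤
      ENNReal.ofReal (g2 x κ / K0 r δ) := by
  have hr : 0 < r := by linarith [g.r0]
  have hK := g.K0pos
  have hp := g.p0
  have hp1 := g.p1
  have ha := g.al0
  have hpi := Real.pi_pos
  have hκ0 : 0 < κ := by linarith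
  have e1 : κ * r * (Ale x * (θ * tr x.σ x.T) ^ 2) =
      κ * x.V * (tr x.σ x.T ^ 2 * al x / (2 * x.p)) := by
    rw [g.V_eq]
    unfold Ale
    field_simp
  have hpos : 0 ≤ x.V * (tr x.σ x.T ^ 2 * al x / (2 * x.p)) := by linarith
  have key := left_tail (q := κ * r) (m := mm (r * δ)) (ρ := r * δ) (θ := θ) (σ := x.σ)
    (A := Ale x) (by nlinarith [g.r0]) g.mpos g.mu' g.th0 g.thπ g.s0 g.s1 g.Ale0 g.hA (by
      rw [← g.hT, e1, mul_assoc]
      nlinarith)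
  refine key.trans (ENNReal.ofReal_le_ofReal (le_of_eq ?_))
  rw [← g.hT, e1]
  have e2 : √(exp 1 / (κ * r)) = √(N0 x.p * exp 1 / (2 * π * κ * x.p)) / K0 r δ := by
    rw [eq_div_iff hK.ne', mul_comm, g.K0_sqrt hκ0]
  rw [e2]
  unfold g2
  ring

theorem Geo.G3 (g : Geo r δ θ x) {κ : ℝ} (hκ : 0 < κ) :
    ∫⁻ s in Ioc 0 x.u, ENNReal.ofReal (exp (-(κ * r * Dm (mm (r * δ)) (r * δ) θ s))) ≤
      ENNReal.ofReal (g3 x κ / K0 r δ) := by
  have hr : 0 < r := by linarith [g.r0]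
  have hK := g.K0pos
  have hp := g.p0
  have hp1 := g.p1
  have hA := g.Ari0
  have ha := g.a0
  have hu := g.u0
  have hθ := g.th0
  have hb := bt_pos θ
  have hpi := Real.pi_pos
  have hZ : 0 < Z3 x := by
    unfold Z3
    have := bt_pos x.θ
    have h0 : 0 ≤ (x.θ / x.u) ^ 2 * (2 * x.p / x.A2) := by positivity
    have h1 : 0 < (1 - x.p ^ 2) / bt x.θ := by positivity
    linarith
  have hβ : 0 < bt θ * θ ^ 2 / x.u ^ 2 := by positivity
  have key := right_main (q := κ * r) (m := mm (r * δ)) (ρ := r * δ) (θ := θ) (A := Ari x)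
    (u := x.u) (T := min 1 (x.u / mm (r * δ))) (β := bt θ * θ ^ 2 / x.u ^ 2)
    (mul_pos hκ hr) g.mpos g.mu' g.hu hu g.th0.le le_rfl (min_le_left _ _) hA g.hAr hβ (by
      have h1 := g.cos θ g.th0.le le_rfl
      have e : bt θ * θ ^ 2 / x.u ^ 2 * x.u ^ 2 = bt θ * θ ^ 2 := by field_simp
      rw [e]
      exact h1)
  refine key.trans (ENNReal.ofReal_le_ofReal (le_of_eq ?_))
  obtain ⟨β, hβe⟩ : ∃ β, β = bt θ * θ ^ 2 / x.u ^ 2 := ⟨_, rfl⟩
  rw [← hβe] at hβ ⊢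
  have eZ : 2 * x.p * (Ari x + β) = x.A2 * bt x.θ * Z3 x := by
    rw [hβe]
    unfold Ari Z3
    rw [g.hθ]
    field_simp
    ring
  have e1 : √(π / (κ * r * (Ari x + β))) = √(N0 x.p / (κ * x.A2 * bt x.θ * Z3 x)) / K0 r δ := by
    rw [eq_div_iff hK.ne', mul_comm]
    have h1 : π / (κ * r * (Ari x + β)) = π / (Ari x + β) / (κ * r) := by
      field_simp
    rw [h1, g.K0_sqrt hκ]
    congr 1
    have h2 : κ * x.A2 * bt x.θ * Z3 x = κ * (2 * x.p * (Ari x + β)) := by rw [eZ]; ring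
    rw [h2]
    have : 0 < Ari x + β := by positivity
    field_simp
  have e2 : κ * r * (Ari x * β / (Ari x + β) * x.u ^ 2) = κ * x.V / Z3 x := by
    have h3 : 0 < Ari x + β := by positivity
    have h1 : Ari x * β / (Ari x + β) * x.u ^ 2 = (1 - x.p ^ 2) * θ ^ 2 / Z3 x := by
      rw [div_mul_eq_mul_div, div_eq_div_iff h3.ne' hZ.ne']
      have h4 : Ari x * β * x.u ^ 2 * Z3 x =
          Ari x * β * x.u ^ 2 * (x.A2 * bt x.θ * Z3 x) / (x.A2 * bt x.θ) := by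
        have := bt_pos x.θ
        field_simp
      rw [h4, ← eZ, g.hθ]
      have h5 : Ari x * β * x.u ^ 2 = x.A2 * (1 - x.p ^ 2) / (2 * x.p) * (bt θ * θ ^ 2) := by
        rw [hβe]
        unfold Ari
        field_simp
      rw [h5]
      field_simp
    rw [h1, g.V_eq]
    field_simp
  rw [e1, e2]
  unfold g3
  ring

theorem Geo.e_right (g : Geo r δ θ x) (κ : ℝ) :
    κ * r * (Ari x * x.u ^ 2) = κ * x.V * ((x.u / x.θ) ^ 2 * x.A2 / (2 * x.p)) := by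
  have hp := g.p0
  have hθ := g.th0
  rw [g.V_eq, g.hθ]
  unfold Ari
  field_simp

theorem Geo.G4 (g : Geo r δ θ x) {κ : ℝ} (hκ : 7 / 8 ≤ κ)
    (hx : 16 / 5 ≤ 7 / 8 * (x.V * ((x.u / x.θ) ^ 2 * x.A2 / (2 * x.p)))) :
    ∫⁻ s in Ioi x.u, ENNReal.ofReal (exp (-(κ * r * Dm (mm (r * δ)) (r * δ) θ s))) ≤
      ENNReal.ofReal (g4 x κ / K0 r δ) := by
  have hr : 0 < r := by linarith [g.r0]
  have hK := g.K0pos
  have hκ0 : 0 < κ := by linarith
  have e1 := g.e_right κ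
  have hpos : 0 ≤ x.V * ((x.u / x.θ) ^ 2 * x.A2 / (2 * x.p)) := by linarith
  have key := right_tail (q := κ * r) (m := mm (r * δ)) (ρ := r * δ) (θ := θ) (A := Ari x)
    (u := x.u) (T := min 1 (x.u / mm (r * δ))) (by nlinarith [g.r0]) g.mpos g.mu' g.hu g.u0
    g.th0.le le_rfl (min_le_left _ _) g.Ari0 g.hAr (by
      rw [e1, mul_assoc]
      nlinarith)
  refine key.trans (ENNReal.ofReal_le_ofReal (le_of_eq ?_))
  rw [e1]
  have e2 : √(1 / (κ * r)) = √(N0 x.p / (2 * π * κ * x.p)) / K0 r δ := by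
    rw [eq_div_iff hK.ne', mul_comm, g.K0_sqrt hκ0, mul_one]
  rw [e2]
  unfold g4
  ring

theorem Geo.G3h (g : Geo r δ θ x) {κ : ℝ} (hκ : 0 < κ) (hθ2 : 6 / 5 ≤ θ) :
    ∫⁻ s in Ioc 0 x.u, ENNReal.ofReal (exp (-(κ * r * Dm (mm (r * δ)) (r * δ) θ s))) ≤
      ENNReal.ofReal (g3h x κ / K0 r δ) := by
  have hr : 0 < r := by linarith [g.r0]
  have hK := g.K0pos
  have hp := g.p0
  have hp1 := g.p1
  have hA := g.Ari0
  have ha := g.a0
  have hu := g.u0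
  have hθ := g.th0
  have hpi := Real.pi_pos
  have hZ : 0 < Zp x := by
    unfold Zp
    positivity
  have key := right_split (q := κ * r) (m := mm (r * δ)) (ρ := r * δ) (θ := θ) (A := Ari x)
    (u := x.u) (T := min 1 (x.u / mm (r * δ)))
    (mul_pos hκ hr) g.mpos g.mu' g.hu hu hθ2 le_rfl (min_le_left _ _) hA g.hAr
  refine key.trans (ENNReal.ofReal_le_ofReal (le_of_eq ?_))
  have eZ : 2 * x.p * (Ari x + 11 / 25) = x.A2 * (11 / 25) * Zp x := by
    unfold Ari Zp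
    field_simp
    ring
  have e1 : √(π / (κ * r * (Ari x + 11 / 25))) =
      √(N0 x.p / (κ * x.A2 * (11 / 25) * Zp x)) / K0 r δ := by
    rw [eq_div_iff hK.ne', mul_comm]
    have h1 : π / (κ * r * (Ari x + 11 / 25)) = π / (Ari x + 11 / 25) / (κ * r) := by
      field_simp
    rw [h1, g.K0_sqrt hκ]
    congr 1
    have h2 : κ * x.A2 * (11 / 25) * Zp x = κ * (2 * x.p * (Ari x + 11 / 25)) := by rw [eZ]; ring
    rw [h2]
    have : 0 < Ari x + 11 / 25 := by positivity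
    field_simp
  have e2 : κ * r * (Ari x * (11 / 25) / (Ari x + 11 / 25) * x.u ^ 2) =
      κ * x.V / ((x.θ / x.u) ^ 2 * Zp x) := by
    have h3 : 0 < Ari x + 11 / 25 := by positivity
    have h1 : Ari x * (11 / 25) / (Ari x + 11 / 25) = (1 - x.p ^ 2) / Zp x := by
      rw [div_eq_div_iff h3.ne' hZ.ne']
      have h4 : Ari x * (11 / 25) * Zp x = Ari x * (x.A2 * (11 / 25) * Zp x) / x.A2 := by field_simp
      rw [h4, ← eZ]
      unfold Ari
      field_simp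
    rw [h1, g.V_eq, g.hθ]
    field_simp
  have e3 : √(π / (κ * r * Ari x)) = √(N0 x.p / (κ * (1 - x.p ^ 2) * x.A2)) / K0 r δ := by
    rw [eq_div_iff hK.ne', mul_comm]
    have h1 : π / (κ * r * Ari x) = π / Ari x / (κ * r) := by
      field_simp
    rw [h1, g.K0_sqrt hκ]
    congr 1
    unfold Ari
    field_simp
  have e4 : κ * r * (396 / 625) = κ * (396 / 625) * (x.V / (x.θ ^ 2 * (1 - x.p ^ 2))) := by
    rw [g.V_eq, g.hθ]
    field_simp
  rw [e1, e2, e3, e4]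
  unfold g3h
  ring

theorem Geo.G4h (g : Geo r δ θ x) {κ : ℝ} (hκ : 7 / 8 ≤ κ) (hθ2 : 9 / 10 * π ≤ θ)
    (hx : 32 / 5 ≤ 7 / 8 * (x.V * ((x.u / x.θ) ^ 2 * x.A2 / (2 * x.p)))) :
    ∫⁻ s in Ioi x.u, ENNReal.ofReal (exp (-(κ * r * Dm (mm (r * δ)) (r * δ) θ s))) ≤
      ENNReal.ofReal (g4h x κ / K0 r δ) := by
  have hr : 0 < r := by linarith [g.r0]
  have hK := g.K0pos
  have hu := g.u0
  have hκ0 : 0 < κ := by linarith
  have e1 := g.e_right κ
  have hpos : 0 ≤ x.V * ((x.u / x.θ) ^ 2 * x.A2 / (2 * x.p)) := by linarith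
  have h32 : 32 / 5 ≤ κ * r * (Ari x * x.u ^ 2) := by
    rw [e1, mul_assoc]
    nlinarith
  have hpi3 := Real.pi_pos
  have hpu : 10 / 11 ≤ π / x.u := by
    rw [le_div_iff₀ hu, g.hu]
    linarith
  have key := right_tail_half (q := κ * r) (m := mm (r * δ)) (ρ := r * δ) (θ := θ) (A := Ari x)
    (u := x.u) (T := min 1 (x.u / mm (r * δ))) (by nlinarith [g.r0]) g.mpos g.mu' g.hu g.u0
    g.th0.le le_rfl (min_le_left _ _) g.Ari0 g.hAr (by nlinarith) (by linarith)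
  refine key.trans (ENNReal.ofReal_le_ofReal (le_of_eq ?_))
  rw [e1]
  have e2 : √(1 / (κ * r)) = √(N0 x.p / (2 * π * κ * x.p)) / K0 r δ := by
    rw [eq_div_iff hK.ne', mul_comm, g.K0_sqrt hκ0, mul_one]
  rw [e2]
  unfold g4h
  ring

end norm

end SokalCl
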