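import Pool.Agent.Lib_MP_af4de1_v3.ClC

/-!
# Far waves with `Γ ≥ 10`, IV: from the closed forms to `Shf`
-/

set_option autoImplicit false

namespace SokalCl

open Real SokalCen SokalFA SokalV3 SokalF1 SokalF1S SokalF1M MeasureTheory Set

theorem wb_cen {r δ m : ℝ} (hr : 0 < r) (hδ : 0 < δ) (hm : 0 < m) (θ : ℝ) : WB r δ θ m := by
  intro c0 c1 c2
  exact wave_cen hr hδ hm θ c0 c1 c2

/-- sums of the normalised integrals -/
noncomputable def s0 (x : Pt) (G3 G4 : ℝ → ℝ) : ℝ := g1 x 1 + g2 x 1 + (G3 1 + G4 1)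
noncomputable def sW (x : Pt) (G3 G4 : ℝ → ℝ) : ℝ :=
  g1 x (7 / 8) + g2 x (7 / 8) + 14 / 5 * (G3 (7 / 8) + G4 (7 / 8))
noncomputable def se (x : Pt) (G3 G4 : ℝ → ℝ) : ℝ := g1 x 1 + g2 x 1 + exp 1 * (G3 1 + G4 1)

theorem g1_nonneg (x : Pt) (κ : ℝ) : 0 ≤ g1 x κ := by
  unfold g1
  positivity

theorem g2_nonneg (x : Pt) (κ : ℝ) : 0 ≤ g2 x κ := by
  unfold g2
  positivity

theorem g3_nonneg (x : Pt) (κ : ℝ) : 0 ≤ g3 x κ := by
  unfold g3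
  positivity

theorem g4_nonneg (x : Pt) (κ : ℝ) : 0 ≤ g4 x κ := by
  unfold g4
  positivity

theorem g3h_nonneg (x : Pt) (κ : ℝ) : 0 ≤ g3h x κ := by
  unfold g3h
  positivity

theorem g4h_nonneg (x : Pt) (κ : ℝ) : 0 ≤ g4h x κ := by
  unfold g4h
  positivity

theorem pm_le_one (m s : ℝ) : pm m s ≤ 1 := (abs_le.1 (pm_mem m s)).2

/-- the zone over the whole line, base point `1` -/
theorem zone_univ {r δ θ : ℝ} {x : Pt} (g : Geo r δ θ x) {G3 G4 : ℝ → ℝ}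
    (hx2 : 16 / 5 ≤ 7 / 8 * (x.V * (tr x.σ x.T ^ 2 * al x / (2 * x.p))))
    (n3 : ∀ κ, 0 ≤ G3 κ) (n4 : ∀ κ, 0 ≤ G4 κ)
    (h3 : ∀ κ, 7 / 8 ≤ κ → ∫⁻ s in Ioc 0 x.u,
      ENNReal.ofReal (exp (-(κ * r * Dm (mm (r * δ)) (r * δ) θ s))) ≤
      ENNReal.ofReal (G3 κ / K0 r δ))
    (h4 : ∀ κ, 7 / 8 ≤ κ → ∫⁻ s in Ioi x.u,
      ENNReal.ofReal (exp (-(κ * r * Dm (mm (r * δ)) (r * δ) θ s))) ≤
      ENNReal.ofReal (G4 κ / K0 r δ)) :
    Zone r (mm (r * δ)) (r * δ) θ 1 univ (s0 x G3 G4 / K0 r δ)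
      (16 / (exp 1 * r) * (sW x G3 G4 / K0 r δ)) (se x G3 G4 / K0 r δ) := by
  have hr : 0 < r := by linarith [g.r0]
  have hK := g.K0pos
  have hm := g.mpos
  have hμ := g.mu'
  have hu := g.u0
  have he := exp_pos (1 : ℝ)
  have hT0 : 0 < θ / mm (r * δ) := div_pos g.th0 hm
  have htr0 := tr_pos g.s0 g.s1 hT0.le
  have hc0 : 0 ≤ θ * tr x.σ (θ / mm (r * δ)) := by
    have := g.th0
    positivity
  have hone : ∀ s, exp (-(1 * r * Dm (mm (r * δ)) (r * δ) θ s)) =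
      exp (-(r * Dm (mm (r * δ)) (r * δ) θ s)) := fun s => by rw [one_mul]
  have a1 := g.G1 (κ := 1) one_pos
  have a1' := g.G1 (κ := 7 / 8) (by norm_num)
  have a2 := g.G2 (κ := 1) (by norm_num) hx2
  have a2' := g.G2 (κ := 7 / 8) (by norm_num) hx2
  have a3 := h3 1 (by norm_num)
  have a3' := h3 (7 / 8) (by norm_num)
  have a4 := h4 1 (by norm_num)
  have a4' := h4 (7 / 8) (by norm_num)
  simp only [hone] at a1 a2 a3 a4
  have z1 := zone_mk (C := 1) (E := 1) hr (by norm_num) (by norm_num) measurableSet_Icc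
    (fun s hs => W_left (θ := θ) hm hμ hs.2)
    (fun s hs => exp_le_one_iff.2 (pm_nonpos hm hs.2)) a1 a1'
  have z2 := zone_mk (C := 1) (E := 1) hr (by norm_num) (by norm_num) measurableSet_Iio
    (fun s hs => W_left (θ := θ) hm hμ (by have := mem_Iio.1 hs; linarith))
    (fun s hs => exp_le_one_iff.2 (pm_nonpos hm (by have := mem_Iio.1 hs; linarith))) a2 a2'
  have z3 := zone_mk (C := 14 / 5) (E := exp 1) hr (by norm_num) he.le measurableSet_Ioc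
    (fun s hs => W_right (θ := θ) hm hμ hs.1.le)
    (fun s _ => exp_le_exp.2 (pm_le_one _ s)) a3 a3'
  have z4 := zone_mk (C := 14 / 5) (E := exp 1) hr (by norm_num) he.le measurableSet_Ioi
    (fun s hs => W_right (θ := θ) hm hμ (by have := mem_Ioi.1 hs; linarith))
    (fun s _ => exp_le_exp.2 (pm_le_one _ s)) a4 a4'
  have q1 := g1_nonneg x
  have q2 := g2_nonneg x
  have hc1 : 0 ≤ 16 * 1 / (exp 1 * r) := by positivity
  have hc2 : 0 ≤ 16 * (14 / 5) / (exp 1 * r) := by positivity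
  have d : ∀ a : ℝ, 0 ≤ a → 0 ≤ a / K0 r δ := fun a ha => div_nonneg ha hK.le
  have z12 := z1.union z2 (d _ (q1 1)) (mul_nonneg hc1 (d _ (q1 _))) (mul_nonneg zero_le_one (d _ (q1 1)))
    (d _ (q2 1)) (mul_nonneg hc1 (d _ (q2 _))) (mul_nonneg zero_le_one (d _ (q2 1)))
  have z34 := z3.union z4 (d _ (n3 1)) (mul_nonneg hc2 (d _ (n3 _))) (mul_nonneg he.le (d _ (n3 1)))
    (d _ (n4 1)) (mul_nonneg hc2 (d _ (n4 _))) (mul_nonneg he.le (d _ (n4 1)))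
  have z := z12.union z34
    (add_nonneg (d _ (q1 1)) (d _ (q2 1)))
    (add_nonneg (mul_nonneg hc1 (d _ (q1 _))) (mul_nonneg hc1 (d _ (q2 _))))
    (add_nonneg (mul_nonneg zero_le_one (d _ (q1 1))) (mul_nonneg zero_le_one (d _ (q2 1))))
    (add_nonneg (d _ (n3 1)) (d _ (n4 1)))
    (add_nonneg (mul_nonneg hc2 (d _ (n3 _))) (mul_nonneg hc2 (d _ (n4 _))))
    (add_nonneg (mul_nonneg he.le (d _ (n3 1))) (mul_nonneg he.le (d _ (n4 1))))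
  have hcov : (univ : Set ℝ) ⊆ (Icc (-(θ * tr x.σ (θ / mm (r * δ)))) 0 ∪
      Iio (-(θ * tr x.σ (θ / mm (r * δ))))) ∪ (Ioc 0 x.u ∪ Ioi x.u) := by
    intro s _
    rcases lt_or_ge s (-(θ * tr x.σ (θ / mm (r * δ)))) with h | h
    · exact Or.inl (Or.inr h)
    · rcases le_or_gt s 0 with h' | h'
      · exact Or.inl (Or.inl ⟨h, h'⟩)
      · rcases le_or_gt s x.u with h'' | h''
        · exact Or.inr (Or.inl ⟨h', h''⟩)
        · exact Or.inr (Or.inr h'')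
  refine (z.subset hcov).mono (le_of_eq ?_) (le_of_eq ?_) (le_of_eq ?_)
  · unfold s0
    ring
  · unfold sW
    field_simp
  · unfold se
    ring

/-- FROM THE CLOSED FORMS TO `Shf` -/
theorem shf_num {N : ℕ} {r δ y η a0 aW ae f0 f1 f2 : ℝ} {x : Pt} {G3 G4 : ℝ → ℝ} (hN : 0 < N)
    (hA : At r δ y η) (hL : Lev r δ y η (6 / 5) 1 (23 / 20)) (hη : 0 ≤ η)
    (g : Geo r δ (η + hst N) x)
    (hx2 : 16 / 5 ≤ 7 / 8 * (x.V * (tr x.σ x.T ^ 2 * al x / (2 * x.p))))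
    (n3 : ∀ κ, 0 ≤ G3 κ) (n4 : ∀ κ, 0 ≤ G4 κ)
    (h3 : ∀ κ, 7 / 8 ≤ κ → ∫⁻ s in Ioc 0 x.u,
      ENNReal.ofReal (exp (-(κ * r * Dm (mm (r * δ)) (r * δ) (η + hst N) s))) ≤
      ENNReal.ofReal (G3 κ / K0 r δ))
    (h4 : ∀ κ, 7 / 8 ≤ κ → ∫⁻ s in Ioi x.u,
      ENNReal.ofReal (exp (-(κ * r * Dm (mm (r * δ)) (r * δ) (η + hst N) s))) ≤
      ENNReal.ofReal (G4 κ / K0 r δ))
    (b0 : exp (3 / 5 * (r * η ^ 2 / RR r δ)) * s0 x G3 G4 ≤ a0)
    (bW : 16 / exp 1 * (exp (3 / 5 * (r * η ^ 2 / RR r δ)) * sW x G3 G4) ≤ aW * Gm N r δ)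
    (be : exp (3 / 5 * (r * η ^ 2 / RR r δ)) * se x G3 G4 ≤ ae * Gm N r δ)
    (e0 : a0 ≤ f0) (e1 : √a0 * (√aW + η / hst N * √a0) ≤ f1)
    (e2 : (√aW + η / hst N * √a0) ^ 2 + ae ≤ f2) :
    Shf r δ y (hst N) (HH N r δ) f0 f1 f2 := by
  have hr : 0 < r := by linarith [g.r0]
  have hδ := g.d0
  have hK := g.K0pos
  have hm := g.mpos
  have he := exp_pos (1 : ℝ)
  have hpi := Real.pi_pos
  have hNr : (0 : ℝ) < N := by exact_mod_cast hN
  have hh : 0 < hst N := by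
    unfold hst
    positivity
  have hR : 0 < RR r δ := by
    unfold RR
    positivity
  have hS : 0 < √(RR r δ) := Real.sqrt_pos.2 hR
  have hSS : √(RR r δ) ^ 2 = RR r δ := Real.sq_sqrt hR.le
  have hH : 0 < HH N r δ := by
    unfold HH
    positivity
  have hG : 0 < Gm N r δ := by
    unfold Gm
    positivity
  have hHG : HH N r δ ^ 2 = r * Gm N r δ := by
    unfold HH Gm
    rw [div_pow, hSS]
    ring
  have hΛ := exp_pos (3 / 5 * (r * η ^ 2 / RR r δ))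
  obtain ⟨Λ, hΛe⟩ : ∃ Λ, Λ = exp (3 / 5 * (r * η ^ 2 / RR r δ)) := ⟨_, rfl⟩
  rw [← hΛe] at b0 bW be hΛ
  have q1 := g1_nonneg x
  have q2 := g2_nonneg x
  have hs0 : 0 ≤ s0 x G3 G4 := by
    unfold s0
    linarith [q1 1, q2 1, n3 1, n4 1]
  have hsW : 0 ≤ sW x G3 G4 := by
    unfold sW
    linarith [q1 (7 / 8), q2 (7 / 8), n3 (7 / 8), n4 (7 / 8)]
  have hse : 0 ≤ se x G3 G4 := by
    unfold se
    have := mul_nonneg he.le (add_nonneg (n3 1) (n4 1))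
    linarith [q1 1, q2 1]
  have z := zone_univ g hx2 n3 n4 h3 h4
  have hI0 : 0 ≤ s0 x G3 G4 / K0 r δ := div_nonneg hs0 hK.le
  have hIW : 0 ≤ 16 / (exp 1 * r) * (sW x G3 G4 / K0 r δ) := by positivity
  have hIe : 0 ≤ se x G3 G4 / K0 r δ := div_nonneg hse hK.le
  have hw : ‖(sK (r * δ) y / (r * δ : ℝ) : ℂ) - 1‖ ≤ η / √(RR r δ) := by
    have h1 := hL.l1
    rw [kap_eq hr] at h1
    have e : (r : ℂ) * (sK (r * δ) y / (r * δ : ℝ)) - r = r * (sK (r * δ) y / (r * δ : ℝ) - 1) := by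
      ring
    rw [e, norm_mul, Complex.norm_real, Real.norm_of_nonneg hr.le, abs_of_nonneg hη, one_mul,
      mul_div_assoc] at h1
    exact le_of_mul_le_mul_left h1 hr
  have zt := z.tri hI0 hIW hw
  have hP : LvF r δ η (6 / 5) (23 / 20) * √(1 + 1 / mm (r * δ) ^ 2) = K0 r δ * Λ := by
    rw [hΛe]
    unfold LvF K0
    have : (6 : ℝ) / 5 / 2 = 3 / 5 := by norm_num
    rw [this]
    ring
  have ha0 : 0 ≤ a0 := le_trans (by positivity) b0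
  have haW : 0 ≤ aW := by
    have : 0 ≤ aW * Gm N r δ := le_trans (by positivity) bW
    exact nonneg_of_mul_nonneg_left this hG
  have hae : 0 ≤ ae := by
    have : 0 ≤ ae * Gm N r δ := le_trans (by positivity) be
    exact nonneg_of_mul_nonneg_left this hG
  have hτ : 0 ≤ η / hst N := div_nonneg hη hh.le
  -- square roots
  have p0 : K0 r δ * Λ * (s0 x G3 G4 / K0 r δ) ≤ a0 := by
    have : K0 r δ * Λ * (s0 x G3 G4 / K0 r δ) = Λ * s0 x G3 G4 := by field_simp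
    rw [this]
    exact b0
  have pW : K0 r δ * Λ * (16 / (exp 1 * r) * (sW x G3 G4 / K0 r δ)) * r ^ 2 ≤
      HH N r δ ^ 2 * aW := by
    have : K0 r δ * Λ * (16 / (exp 1 * r) * (sW x G3 G4 / K0 r δ)) * r ^ 2 =
        r * (16 / exp 1 * (Λ * sW x G3 G4)) := by field_simp
    rw [this, hHG]
    nlinarith
  have pe : K0 r δ * Λ * (r * (se x G3 G4 / K0 r δ)) ≤ HH N r δ ^ 2 * ae := by
    have : K0 r δ * Λ * (r * (se x G3 G4 / K0 r δ)) = r * (Λ * se x G3 G4) := by field_simp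
    rw [this, hHG]
    nlinarith
  obtain ⟨I0, hI0e⟩ : ∃ I0, I0 = s0 x G3 G4 / K0 r δ := ⟨_, rfl⟩
  obtain ⟨IW, hIWe⟩ : ∃ IW, IW = 16 / (exp 1 * r) * (sW x G3 G4 / K0 r δ) := ⟨_, rfl⟩
  obtain ⟨Ie, hIee⟩ : ∃ Ie, Ie = se x G3 G4 / K0 r δ := ⟨_, rfl⟩
  rw [← hI0e, ← hIWe, ← hIee] at zt
  rw [← hI0e] at p0 hI0
  rw [← hIWe] at pW hIW
  rw [← hIee] at pe hIe
  have hKL : 0 < K0 r δ * Λ := mul_pos hK hΛ
  have r0 : √(K0 r δ * Λ) * √I0 ≤ √a0 := by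
    rw [← Real.sqrt_mul hKL.le]
    exact Real.sqrt_le_sqrt p0
  have rW : √(K0 r δ * Λ) * √IW * r ≤ HH N r δ * √aW := by
    have h1 : √(K0 r δ * Λ) * √IW * r = √(K0 r δ * Λ * IW * r ^ 2) := by
      have h3 : √(K0 r δ * Λ * IW * r ^ 2) = √(K0 r δ * Λ * IW) * √(r ^ 2) :=
        Real.sqrt_mul (by positivity) _
      have h4 : √(K0 r δ * Λ * IW) = √(K0 r δ * Λ) * √IW := Real.sqrt_mul hKL.le _
      rw [h3, h4, Real.sqrt_sq hr.le]
    have h2 : HH N r δ * √aW = √(HH N r δ ^ 2 * aW) := by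
      rw [Real.sqrt_mul (by positivity), Real.sqrt_sq hH.le]
    rw [h1, h2]
    exact Real.sqrt_le_sqrt pW
  have hκ : r * (η / √(RR r δ)) = η / hst N * HH N r δ := by
    unfold HH
    field_simp
  have rT : √(K0 r δ * Λ) * (r * (√IW + η / √(RR r δ) * √I0)) ≤
      HH N r δ * (√aW + η / hst N * √a0) := by
    have h1 : √(K0 r δ * Λ) * (r * (√IW + η / √(RR r δ) * √I0)) =
        √(K0 r δ * Λ) * √IW * r + r * (η / √(RR r δ)) * (√(K0 r δ * Λ) * √I0) := by ring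
    rw [h1, hκ]
    have h2 : η / hst N * HH N r δ * (√(K0 r δ * Λ) * √I0) ≤ η / hst N * HH N r δ * √a0 :=
      mul_le_mul_of_nonneg_left r0 (by positivity)
    linarith
  have rT0 : 0 ≤ √(K0 r δ * Λ) * (r * (√IW + η / √(RR r δ) * √I0)) := by positivity
  refine shf_zone hr hδ hA hL (wb_cen hr hδ hm _) le_rfl hI0 (by positivity) hIe zt ?_ ?_ ?_
  · rw [hP]
    linarith
  · rw [hP]
    have h1 : √(I0 * (√IW + η / √(RR r δ) * √I0) ^ 2) = √I0 * (√IW + η / √(RR r δ) * √I0) := by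
      rw [Real.sqrt_mul hI0, Real.sqrt_sq (by positivity)]
    rw [h1]
    have h2 : K0 r δ * Λ = √(K0 r δ * Λ) * √(K0 r δ * Λ) := (Real.mul_self_sqrt hKL.le).symm
    calc K0 r δ * Λ * (r * (√I0 * (√IW + η / √(RR r δ) * √I0)))
        = (√(K0 r δ * Λ) * √(K0 r δ * Λ)) * (r * (√I0 * (√IW + η / √(RR r δ) * √I0))) := by
          rw [← h2]
      _ = (√(K0 r δ * Λ) * √I0) * (√(K0 r δ * Λ) * (r * (√IW + η / √(RR r δ) * √I0))) := by ring
      _ ≤ √a0 * (HH N r δ * (√aW + η / hst N * √a0)) :=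
          mul_le_mul r0 rT rT0 (Real.sqrt_nonneg _)
      _ = √a0 * (√aW + η / hst N * √a0) * HH N r δ := by ring
      _ ≤ f1 * HH N r δ := mul_le_mul_of_nonneg_right e1 hH.le
  · rw [hP]
    have h2 : K0 r δ * Λ = √(K0 r δ * Λ) ^ 2 := (Real.sq_sqrt hKL.le).symm
    have h3 := pow_le_pow_left₀ rT0 rT 2
    calc K0 r δ * Λ * (r ^ 2 * (√IW + η / √(RR r δ) * √I0) ^ 2 + r * Ie)
        = K0 r δ * Λ * (r ^ 2 * (√IW + η / √(RR r δ) * √I0) ^ 2) + K0 r δ * Λ * (r * Ie) := by ring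
      _ = √(K0 r δ * Λ) ^ 2 * (r ^ 2 * (√IW + η / √(RR r δ) * √I0) ^ 2) + K0 r δ * Λ * (r * Ie) := by
          rw [← h2]
      _ = (√(K0 r δ * Λ) * (r * (√IW + η / √(RR r δ) * √I0))) ^ 2 + K0 r δ * Λ * (r * Ie) := by ring
      _ ≤ (HH N r δ * (√aW + η / hst N * √a0)) ^ 2 + HH N r δ ^ 2 * ae := add_le_add h3 pe
      _ = ((√aW + η / hst N * √a0) ^ 2 + ae) * HH N r δ ^ 2 := by ring
      _ ≤ f2 * HH N r δ ^ 2 := mul_le_mul_of_nonneg_right e2 (by positivity)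

end SokalCl
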