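import Pool.Agent.Lib_MP_af4de1_v3.ClD

/-!
# Far waves with `Γ ≥ 10`, V: bounds of the closed forms on a box
-/

set_option autoImplicit false

namespace SokalCl

open Real

/-- `√(M/Z) e^(-c/Z)` increases in `Z` while `c/Z ≥ 1/2` -/
theorem sqrt_exp_mono {M Z Z1 c : ℝ} (hM : 0 ≤ M) (hZ : 0 < Z) (hZ1 : Z ≤ Z1)
    (hc : 1 / 2 ≤ c / Z1) : √(M / Z) * exp (-(c / Z)) ≤ √(M / Z1) * exp (-(c / Z1)) := by
  have hZ1' : 0 < Z1 := hZ.trans_le hZ1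
  obtain ⟨x, hx⟩ : ∃ x, x = Z1 / Z := ⟨_, rfl⟩
  have hx1 : 1 ≤ x := by rw [hx, le_div_iff₀ hZ, one_mul]; exact hZ1
  have e1 : M / Z = M / Z1 * x := by rw [hx]; field_simp
  have e2 : c / Z = c / Z1 + c / Z1 * (x - 1) := by rw [hx]; field_simp; ring
  rw [e1, Real.sqrt_mul (by positivity), e2, neg_add, Real.exp_add]
  have h1 : √x * exp (-(c / Z1 * (x - 1))) ≤ 1 := by
    have h2 : √x ≤ exp (c / Z1 * (x - 1)) := by
      rw [Real.sqrt_le_left (exp_pos _).le, ← Real.exp_nat_mul]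
      have h3 := Real.add_one_le_exp (((2 : ℕ) : ℝ) * (c / Z1 * (x - 1)))
      have h4 : x - 1 ≤ ((2 : ℕ) : ℝ) * (c / Z1 * (x - 1)) := by
        push_cast
        nlinarith
      linarith
    have h5 := exp_pos (-(c / Z1 * (x - 1)))
    calc √x * exp (-(c / Z1 * (x - 1)))
        ≤ exp (c / Z1 * (x - 1)) * exp (-(c / Z1 * (x - 1))) :=
          mul_le_mul_of_nonneg_right h2 h5.le
      _ = 1 := by rw [← Real.exp_add, add_neg_cancel, Real.exp_zero]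
  have h6 := exp_pos (-(c / Z1))
  have h7 := Real.sqrt_nonneg (M / Z1)
  calc √(M / Z1) * √x * (exp (-(c / Z1)) * exp (-(c / Z1 * (x - 1))))
      = √(M / Z1) * exp (-(c / Z1)) * (√x * exp (-(c / Z1 * (x - 1)))) := by ring
    _ ≤ √(M / Z1) * exp (-(c / Z1)) * 1 := mul_le_mul_of_nonneg_left h1 (by positivity)
    _ = _ := mul_one _

/-- `φ(p) = p/(8/5 - 16/25 p)` -/
noncomputable def ph (p : ℝ) : ℝ := p / (8 / 5 - 16 / 25 * p)

/-- concave-convex bound on an interval -/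
theorem chord_bd {a b p p0 p1 M : ℝ} (ha : 0 ≤ a) (hb : 0 ≤ b) (h0 : p0 ≤ p) (h1 : p ≤ p1)
    (hp1 : p1 ≤ 1)
    (hM0 : a * (2 * ph p0) + b * (2 * (1 - p0 ^ 2) + (p1 - p0) ^ 2 / 2) ≤ M)
    (hM1 : a * (2 * ph p1) + b * (2 * (1 - p1 ^ 2) + (p1 - p0) ^ 2 / 2) ≤ M) :
    a * (2 * ph p) + b * (2 * (1 - p ^ 2)) ≤ M := by
  have key : ∀ q : ℝ, q ≤ 1 → ph q = 125 / 16 / (5 - 2 * q) - 25 / 16 := by
    intro q hq
    unfold ph
    have h5 : 0 < 5 - 2 * q := by linarith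
    have h6 : 0 < 8 / 5 - 16 / 25 * q := by linarith
    rw [div_sub' h5.ne', div_eq_div_iff h6.ne' h5.ne']
    ring
  have hD0 : 0 < 5 - 2 * p0 := by linarith
  have hD1 : 0 < 5 - 2 * p1 := by linarith
  have hD : 0 < 5 - 2 * p := by linarith
  -- the linear majorant of `ph`
  have hlin : ph p ≤ 125 / 16 * ((5 - 2 * p0) + (5 - 2 * p1) - (5 - 2 * p)) /
      ((5 - 2 * p0) * (5 - 2 * p1)) - 25 / 16 := by
    rw [key p (by linarith)]
    have : 125 / 16 / (5 - 2 * p) ≤ 125 / 16 * ((5 - 2 * p0) + (5 - 2 * p1) - (5 - 2 * p)) /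
      ((5 - 2 * p0) * (5 - 2 * p1)) := by
      rw [div_le_div_iff₀ hD (by positivity)]
      nlinarith [mul_nonneg (sub_nonneg.2 h0) (sub_nonneg.2 h1)]
    linarith
  have e0 : ph p0 = 125 / 16 * ((5 - 2 * p0) + (5 - 2 * p1) - (5 - 2 * p0)) /
      ((5 - 2 * p0) * (5 - 2 * p1)) - 25 / 16 := by
    rw [key p0 (by linarith)]
    field_simp
    ring
  have e1 : ph p1 = 125 / 16 * ((5 - 2 * p0) + (5 - 2 * p1) - (5 - 2 * p1)) /
      ((5 - 2 * p0) * (5 - 2 * p1)) - 25 / 16 := by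
    rw [key p1 hp1]
    field_simp
    ring
  have hq : 1 - p ^ 2 ≤ 1 - (p0 + p1) * p + p0 * p1 + (p1 - p0) ^ 2 / 4 := by
    nlinarith [sq_nonneg (2 * p - (p0 + p1))]
  -- linear function `Λ`
  obtain ⟨c1, hc1⟩ : ∃ c1, c1 = 125 / 16 / ((5 - 2 * p0) * (5 - 2 * p1)) := ⟨_, rfl⟩
  have f : ∀ q : ℝ, 125 / 16 * ((5 - 2 * p0) + (5 - 2 * p1) - (5 - 2 * q)) /
      ((5 - 2 * p0) * (5 - 2 * p1)) = c1 * (5 - 2 * p0 - 2 * p1 + 2 * q) := by
    intro q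
    rw [hc1]
    ring
  rw [f] at hlin e0 e1
  have hle : a * (2 * ph p) + b * (2 * (1 - p ^ 2)) ≤
      a * (2 * (c1 * (5 - 2 * p0 - 2 * p1 + 2 * p) - 25 / 16)) +
        b * (2 * (1 - (p0 + p1) * p + p0 * p1 + (p1 - p0) ^ 2 / 4)) := by
    have h3 := mul_le_mul_of_nonneg_left hlin ha
    have h4 := mul_le_mul_of_nonneg_left hq hb
    linarith
  refine hle.trans ?_
  rw [e0] at hM0
  rw [e1] at hM1
  -- affine in `p`
  have g0 : a * (2 * (c1 * (5 - 2 * p0 - 2 * p1 + 2 * p0) - 25 / 16)) +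
        b * (2 * (1 - (p0 + p1) * p0 + p0 * p1 + (p1 - p0) ^ 2 / 4)) ≤ M := by
    nlinarith
  have g1 : a * (2 * (c1 * (5 - 2 * p0 - 2 * p1 + 2 * p1) - 25 / 16)) +
        b * (2 * (1 - (p0 + p1) * p1 + p0 * p1 + (p1 - p0) ^ 2 / 4)) ≤ M := by
    nlinarith
  obtain ⟨m1, hm1⟩ : ∃ m1, m1 = a * (2 * (c1 * 2)) - b * (2 * (p0 + p1)) := ⟨_, rfl⟩
  obtain ⟨m0, hm0⟩ : ∃ m0, m0 = a * (2 * (c1 * (5 - 2 * p0 - 2 * p1) - 25 / 16)) +
        b * (2 * (1 + p0 * p1 + (p1 - p0) ^ 2 / 4)) := ⟨_, rfl⟩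
  have k : ∀ q : ℝ, a * (2 * (c1 * (5 - 2 * p0 - 2 * p1 + 2 * q) - 25 / 16)) +
        b * (2 * (1 - (p0 + p1) * q + p0 * p1 + (p1 - p0) ^ 2 / 4)) = m0 + m1 * q := by
    intro q
    rw [hm0, hm1]
    ring
  rw [k] at g0 g1 ⊢
  rcases le_total 0 m1 with h | h
  · have := mul_le_mul_of_nonneg_left h1 h
    linarith
  · have := mul_le_mul_of_nonpos_left h0 h
    linarith

/-- the level and the rate -/
theorem level_bd {V V0 c L L' : ℝ} (h0 : 0 ≤ V0) (hV : V0 ≤ V) (hL : L' ≤ L) (hc : L ≤ c) :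
    exp (L' * V) * exp (-(V * c)) ≤ exp (-(V0 * (c - L))) := by
  rw [← Real.exp_add]
  refine exp_le_exp.2 ?_
  have h1 : 0 ≤ V := h0.trans hV
  have h2 := mul_le_mul_of_nonneg_left hL h1
  have h3 := mul_le_mul_of_nonneg_right hV (sub_nonneg.2 hc)
  nlinarith

/-! ## the factor `e^(σT)/(1+σv)²` and `1/tr` -/

/-- `b(σ,T)` -/
noncomputable def bb (σ T : ℝ) : ℝ := exp (σ * T) / (1 + σ * ((1 - σ) * T / 2)) ^ 2

theorem bb_pos {σ T : ℝ} (h0 : 0 ≤ σ) (h1 : σ ≤ 1) (hT : 0 ≤ T) : 0 < bb σ T := by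
  unfold bb
  have : 0 ≤ σ * ((1 - σ) * T / 2) := by
    have := mul_nonneg (sub_nonneg.2 h1) hT
    positivity
  positivity

theorem bb_mono {σ T T1 : ℝ} (h0 : 0 ≤ σ) (h1 : σ ≤ 1) (hT : 0 ≤ T) (hTT : T ≤ T1) :
    bb σ T ≤ bb σ T1 := by
  have h2 : 0 ≤ (1 - σ) * T / 2 := by
    have := mul_nonneg (sub_nonneg.2 h1) hT
    linarith
  have h3 : 0 ≤ (1 - σ) * T1 / 2 := by
    have := mul_nonneg (sub_nonneg.2 h1) (hT.trans hTT)
    linarith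
  have p1 : 0 < 1 + σ * ((1 - σ) * T / 2) := by positivity
  have p2 : 0 < 1 + σ * ((1 - σ) * T1 / 2) := by positivity
  have e : ∀ S : ℝ, bb σ S = (exp (σ * S / 2) / (1 + σ * ((1 - σ) * S / 2))) ^ 2 := by
    intro S
    unfold bb
    rw [div_pow, ← Real.exp_nat_mul]
    congr 2
    push_cast
    ring
  rw [e T, e T1]
  refine pow_le_pow_left₀ (by positivity) ?_ 2
  rw [div_le_div_iff₀ p1 p2]
  have h4 := Real.add_one_le_exp (σ * (T1 - T) / 2)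
  have h5 : exp (σ * T1 / 2) = exp (σ * T / 2) * exp (σ * (T1 - T) / 2) := by
    rw [← Real.exp_add]
    congr 1
    ring
  rw [h5]
  have h6 : 1 + σ * ((1 - σ) * T1 / 2) ≤
      exp (σ * (T1 - T) / 2) * (1 + σ * ((1 - σ) * T / 2)) := by
    have h7 : (σ * (T1 - T) / 2 + 1) * (1 + σ * ((1 - σ) * T / 2)) ≤
        exp (σ * (T1 - T) / 2) * (1 + σ * ((1 - σ) * T / 2)) :=
      mul_le_mul_of_nonneg_right h4 p1.le
    refine le_trans ?_ h7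
    have h8 : 0 ≤ σ * (T1 - T) := mul_nonneg h0 (by linarith)
    have h9 : 0 ≤ σ * (T1 - T) * σ := mul_nonneg h8 h0
    have h10 : 0 ≤ σ * (T1 - T) * (σ * ((1 - σ) * T / 2)) := by positivity
    nlinarith
  have h11 := exp_pos (σ * T / 2)
  calc exp (σ * T / 2) * (1 + σ * ((1 - σ) * T1 / 2))
      ≤ exp (σ * T / 2) * (exp (σ * (T1 - T) / 2) * (1 + σ * ((1 - σ) * T / 2))) :=
        mul_le_mul_of_nonneg_left h6 h11.le
    _ = _ := by ring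

/-- `1/tr` -/
noncomputable def itr (σ T : ℝ) : ℝ := (1 + (1 - σ) * T / 2) / (1 + σ * ((1 - σ) * T / 2))

theorem itr_mono {σ T T1 : ℝ} (h0 : 0 ≤ σ) (h1 : σ ≤ 1) (hT : 0 ≤ T) (hTT : T ≤ T1) :
    itr σ T ≤ itr σ T1 := by
  unfold itr
  have h2 : 0 ≤ (1 - σ) * T / 2 := by
    have := mul_nonneg (sub_nonneg.2 h1) hT
    linarith
  have h3 : (1 - σ) * T / 2 ≤ (1 - σ) * T1 / 2 := by
    have := mul_le_mul_of_nonneg_left hTT (sub_nonneg.2 h1)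
    linarith
  generalize (1 - σ) * T / 2 = v at *
  generalize (1 - σ) * T1 / 2 = v1 at *
  have h4 : 0 ≤ v1 := h2.trans h3
  rw [div_le_div_iff₀ (by positivity) (by positivity)]
  nlinarith [mul_nonneg (sub_nonneg.2 h1) (sub_nonneg.2 h3)]

theorem itr_pos {σ T : ℝ} (h0 : 0 ≤ σ) (h1 : σ ≤ 1) (hT : 0 ≤ T) : 0 < itr σ T := by
  unfold itr
  have h2 : 0 ≤ (1 - σ) * T / 2 := by
    have := mul_nonneg (sub_nonneg.2 h1) hT
    linarith
  positivity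

theorem tr_itr {σ T : ℝ} (h0 : 0 ≤ σ) (h1 : σ ≤ 1) (hT : 0 ≤ T) : tr σ T * itr σ T = 1 := by
  unfold itr tr
  have h2 : 0 ≤ (1 - σ) * T / 2 := by
    have := mul_nonneg (sub_nonneg.2 h1) hT
    linarith
  have h5 : 0 < 2 + (1 - σ) * T := by linarith
  have h6 : 0 < 2 + σ * ((1 - σ) * T) := by
    have := mul_nonneg h0 h2
    linarith
  have : 0 < 1 + (1 - σ) * T / 2 := by positivity
  have : 0 < 1 + σ * ((1 - σ) * T / 2) := by positivity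
  field_simp
  all_goals exact div_self (by nlinarith [mul_pos h5 h6])

theorem Lq_tr {σ T : ℝ} (h0 : 0 ≤ σ) (h1 : σ ≤ 1) (hT : 0 ≤ T) :
    Lq σ T * tr σ T ^ 2 * bb σ T = 1 := by
  unfold Lq tr bb
  have h2 : 0 ≤ (1 - σ) * T / 2 := by
    have := mul_nonneg (sub_nonneg.2 h1) hT
    linarith
  have : 0 < 1 + (1 - σ) * T / 2 := by positivity
  have : 0 < 1 + σ * ((1 - σ) * T / 2) := by positivity
  have h5 : 0 < 2 + (1 - σ) * T := by linarith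
  have h6 : 0 < 2 + σ * ((1 - σ) * T) := by
    have := mul_nonneg h0 h2
    linarith
  rw [Real.exp_neg]
  have := exp_pos (σ * T)
  field_simp
  all_goals exact div_self (by nlinarith [mul_pos h5 h6])

/-- conditions on the parameters of a point -/
structure PtOK (x : Pt) : Prop where
  p0 : 0 < x.p
  p1 : x.p < 1
  T0 : 0 < x.T
  th0 : 0 < x.θ
  u0 : 0 < x.u
  hθ : x.θ ^ 2 * (1 - x.p ^ 2) = 25 / 16 * x.T ^ 2
  s0 : 0 ≤ x.σ
  s1 : x.σ ≤ 1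
  c0 : 0 < x.cl
  a0 : 0 < x.A2

theorem N0_le {p p0 : ℝ} (h0 : 0 ≤ p0) (h : p0 ≤ p) : N0 p ≤ N0 p0 := by
  unfold N0
  have := pow_le_pow_left₀ h0 h 2
  linarith

theorem N0_pos {p : ℝ} (h0 : 0 ≤ p) (h1 : p ≤ 1) : 0 < N0 p := by
  unfold N0
  have : p ^ 2 ≤ 1 := by nlinarith
  linarith

/-- MAIN zone -/
theorem g1_le {x : Pt} (h : PtOK x) {κ p0 p1 T1 a1 b1 W1 Nb th1 : ℝ} (hκ : 0 < κ)
    (hp0 : 0 ≤ p0) (h0 : p0 ≤ x.p) (h1 : x.p ≤ p1) (hp1 : p1 ≤ 1) (hT : x.T ≤ T1)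
    (hth : x.θ ≤ th1) (ha : itr x.σ T1 ^ 2 / x.cl ≤ a1) (hb : bb x.σ T1 ≤ b1)
    (hW0 : a1 * (2 * ph p0) + b1 * (2 * (1 - p0 ^ 2) + (p1 - p0) ^ 2 / 2) +
      b1 * (1487 / 3200 * T1 ^ 2) ≤ W1)
    (hW1 : a1 * (2 * ph p1) + b1 * (2 * (1 - p1 ^ 2) + (p1 - p0) ^ 2 / 2) +
      b1 * (1487 / 3200 * T1 ^ 2) ≤ W1)
    (hN : N0 p0 * (2 + 1487 / 5000 * th1 ^ 2) * b1 / ((8 / 5 - 16 / 25 * p1) * x.cl) ≤ Nb)
    (hc : 1 / 2 ≤ κ * x.V / W1) :
    g1 x κ ≤ √(Nb / W1 / κ) * exp (-(x.V * (κ * (1 / W1)))) := by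
  have q1 := h.p0
  have q2 := h.p1
  have hs0 := h.s0
  have hs1 := h.s1
  have hT0 := h.T0
  have hcl := h.c0
  have hbb := bb_pos hs0 hs1 hT0.le
  have hbm := (bb_mono hs0 hs1 hT0.le hT).trans hb
  have him := itr_mono hs0 hs1 hT0.le hT
  have hi0 := itr_pos hs0 hs1 hT0.le
  have htr := tr_pos hs0 hs1 hT0.le
  have hb1 : 0 < b1 := hbb.trans_le hbm
  have hbt := bt_pos x.θ
  have hLq := Lq_pos hs1 hT0.le
  have hq : 0 < 1 - x.p ^ 2 := by nlinarith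
  have hal : 0 < al x := by
    unfold al
    have : 0 < 8 / 5 - 16 / 25 * x.p := by linarith
    positivity
  have hB : 0 < Bm x := by
    unfold Bm
    positivity
  have hZ : 0 < Zm x := by
    unfold Zm
    positivity
  obtain ⟨W, hW⟩ : ∃ W, W = Zm x / tr x.σ x.T ^ 2 := ⟨_, rfl⟩
  have hWpos : 0 < W := by rw [hW]; positivity
  have e1 : tr x.σ x.T = 1 / itr x.σ x.T := by
    rw [eq_div_iff hi0.ne']
    exact tr_itr hs0 hs1 hT0.le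
  have e2 : (2 + 1487 / 5000 * x.θ ^ 2) * (1 - x.p ^ 2) = 2 * (1 - x.p ^ 2) + 1487 / 3200 * x.T ^ 2 := by
    have := h.hθ
    linear_combination (1487 / 5000) * this
  have hBt : Bm x * tr x.σ x.T ^ 2 = 1 / ((2 + 1487 / 5000 * x.θ ^ 2) * bb x.σ x.T) := by
    have h3 := Lq_tr hs0 hs1 hT0.le
    unfold Bm bt
    rw [eq_div_iff (by positivity)]
    calc 1 / (2 + 1487 / 5000 * x.θ ^ 2) * Lq x.σ x.T * tr x.σ x.T ^ 2 *
          ((2 + 1487 / 5000 * x.θ ^ 2) * bb x.σ x.T)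
        = (1 / (2 + 1487 / 5000 * x.θ ^ 2) * (2 + 1487 / 5000 * x.θ ^ 2)) *
          (Lq x.σ x.T * tr x.σ x.T ^ 2 * bb x.σ x.T) := by ring
      _ = 1 := by
          rw [h3, mul_one, one_div, inv_mul_cancel₀ (by positivity)]
  have hWe : W = itr x.σ x.T ^ 2 / x.cl * (2 * ph x.p) +
      bb x.σ x.T * (2 * (1 - x.p ^ 2) + 1487 / 3200 * x.T ^ 2) := by
    rw [hW]
    unfold Zm
    rw [add_div]
    congr 1
    · rw [e1]
      unfold al ph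
      have : 0 < 8 / 5 - 16 / 25 * x.p := by linarith
      field_simp
    · rw [div_div, hBt, ← e2]
      field_simp
  have hWW : W ≤ W1 := by
    rw [hWe]
    have hph : 0 ≤ ph x.p := by
      unfold ph
      have : 0 < 8 / 5 - 16 / 25 * x.p := by linarith
      positivity
    have k1 : itr x.σ x.T ^ 2 / x.cl ≤ a1 := by
      refine le_trans ?_ ha
      have := pow_le_pow_left₀ hi0.le him 2
      exact div_le_div_of_nonneg_right this hcl.le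
    have k2 := mul_le_mul_of_nonneg_right k1 (by positivity : 0 ≤ 2 * ph x.p)
    have k3 : bb x.σ x.T * (2 * (1 - x.p ^ 2) + 1487 / 3200 * x.T ^ 2) ≤
        b1 * (2 * (1 - x.p ^ 2)) + b1 * (1487 / 3200 * T1 ^ 2) := by
      have k4 : x.T ^ 2 ≤ T1 ^ 2 := pow_le_pow_left₀ hT0.le hT 2
      calc bb x.σ x.T * (2 * (1 - x.p ^ 2) + 1487 / 3200 * x.T ^ 2)
          ≤ b1 * (2 * (1 - x.p ^ 2) + 1487 / 3200 * x.T ^ 2) :=
            mul_le_mul_of_nonneg_right hbm (by positivity)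
        _ ≤ b1 * (2 * (1 - x.p ^ 2) + 1487 / 3200 * T1 ^ 2) :=
            mul_le_mul_of_nonneg_left (by linarith) hb1.le
        _ = _ := by ring
    have ha1 : 0 ≤ a1 := le_trans (by positivity) k1
    have k5 := chord_bd (M := W1 - b1 * (1487 / 3200 * T1 ^ 2)) ha1 hb1.le h0 h1 hp1
      (by linarith) (by linarith)
    linarith
  have hW1' : 0 < W1 := hWpos.trans_le hWW
  have hg : g1 x κ = √(N0 x.p * ((2 + 1487 / 5000 * x.θ ^ 2) * bb x.σ x.T) / (al x * κ) / W) *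
      exp (-(κ * x.V / W)) := by
    unfold g1
    have a1' : N0 x.p / (κ * al x * Bm x * Zm x) =
        N0 x.p * ((2 + 1487 / 5000 * x.θ ^ 2) * bb x.σ x.T) / (al x * κ) / W := by
      have hZW : Zm x = W * tr x.σ x.T ^ 2 := by rw [hW]; field_simp
      have h3 : κ * al x * Bm x * Zm x = κ * al x * W * (Bm x * tr x.σ x.T ^ 2) := by
        rw [hZW]; ring
      rw [h3, hBt]
      field_simp
    have a2' : κ * x.V * (tr x.σ x.T ^ 2 / Zm x) = κ * x.V / W := by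
      rw [hW]
      field_simp
    rw [a1', a2']
  have hNn : 0 ≤ N0 x.p * ((2 + 1487 / 5000 * x.θ ^ 2) * bb x.σ x.T) / (al x * κ) := by
    have := N0_pos q1.le q2.le
    positivity
  have m1 := sqrt_exp_mono hNn hWpos hWW hc
  rw [hg]
  refine m1.trans ?_
  have e5 : κ * x.V / W1 = x.V * (κ * (1 / W1)) := by ring
  rw [e5]
  refine mul_le_mul_of_nonneg_right (Real.sqrt_le_sqrt ?_) (exp_pos _).le
  rw [div_right_comm Nb W1 κ]
  refine div_le_div_of_nonneg_right ?_ hW1'.le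
  have e6 : N0 x.p * ((2 + 1487 / 5000 * x.θ ^ 2) * bb x.σ x.T) / (al x * κ) =
      N0 x.p * ((2 + 1487 / 5000 * x.θ ^ 2) * bb x.σ x.T) / al x / κ := by rw [div_div]
  rw [e6]
  refine div_le_div_of_nonneg_right (le_trans ?_ hN) hκ.le
  have n1 := N0_le hp0 h0
  have n2 := N0_pos q1.le q2.le
  have n3 : (2 + 1487 / 5000 * x.θ ^ 2) ≤ (2 + 1487 / 5000 * th1 ^ 2) := by
    have := pow_le_pow_left₀ h.th0.le hth 2
    linarith
  have n4 : (8 / 5 - 16 / 25 * p1) * x.cl ≤ al x := by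
    unfold al
    exact mul_le_mul_of_nonneg_right (by linarith) hcl.le
  have n5 : 0 < (8 / 5 - 16 / 25 * p1) * x.cl := by
    have : 0 < 8 / 5 - 16 / 25 * p1 := by linarith
    positivity
  have n6 : N0 x.p * ((2 + 1487 / 5000 * x.θ ^ 2) * bb x.σ x.T) ≤
      N0 p0 * (2 + 1487 / 5000 * th1 ^ 2) * b1 := by
    rw [mul_assoc]
    exact mul_le_mul n1 (mul_le_mul n3 hbm hbb.le (by positivity)) (by positivity) (by linarith)
  have n7 : 0 ≤ N0 p0 * (2 + 1487 / 5000 * th1 ^ 2) * b1 := le_trans (by positivity) n6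
  exact div_le_div₀ n7 n6 n5 n4

/-- LEFT TAIL -/
theorem g2_le {x : Pt} (h : PtOK x) {κ p0 p1 T1 a1 t2 : ℝ} (hκ : 0 < κ) (hV : 0 < x.V)
    (hp0 : 0 ≤ p0) (h0 : p0 ≤ x.p) (h1 : x.p ≤ p1) (hT : x.T ≤ T1)
    (ha : itr x.σ T1 ^ 2 / x.cl ≤ a1) (ht2 : 0 < t2) (ht : t2 * a1 ≤ 1)
    (hc : 1 / 2 ≤ κ * x.V * (t2 * (4 / 5)) / p1) :
    g2 x κ ≤ √(N0 p0 * exp 1 / (2 * π * p1) / κ) * (141 / 50) *
      exp (-(x.V * (κ * (t2 * (4 / 5 / p1 - 8 / 25))))) := by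
  have q1 := h.p0
  have q2 := h.p1
  have hs0 := h.s0
  have hs1 := h.s1
  have hT0 := h.T0
  have hcl := h.c0
  have him := itr_mono hs0 hs1 hT0.le hT
  have hi0 := itr_pos hs0 hs1 hT0.le
  have hpi := Real.pi_pos
  have he := exp_pos (1 : ℝ)
  have k1 : itr x.σ x.T ^ 2 / x.cl ≤ a1 := by
    refine le_trans ?_ ha
    have := pow_le_pow_left₀ hi0.le him 2
    exact div_le_div_of_nonneg_right this hcl.le
  have hk0 : 0 < itr x.σ x.T ^ 2 / x.cl := by positivity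
  have e1 : tr x.σ x.T = 1 / itr x.σ x.T := by
    rw [eq_div_iff hi0.ne']
    exact tr_itr hs0 hs1 hT0.le
  have k2 : t2 ≤ tr x.σ x.T ^ 2 * x.cl := by
    have k3 : t2 * (itr x.σ x.T ^ 2 / x.cl) ≤ 1 := (mul_le_mul_of_nonneg_left k1 ht2.le).trans ht
    have e2 : tr x.σ x.T ^ 2 * x.cl = 1 / (itr x.σ x.T ^ 2 / x.cl) := by
      rw [e1]
      field_simp
    rw [e2, le_div_iff₀ hk0]
    exact k3
  have e3 : tr x.σ x.T ^ 2 * al x / (2 * x.p) = tr x.σ x.T ^ 2 * x.cl * (4 / 5 / x.p - 8 / 25) := by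
    unfold al
    field_simp
    ring
  have hpos : 0 ≤ 4 / 5 / x.p - 8 / 25 := by
    have : 4 / 5 ≤ 4 / 5 / x.p := by
      rw [le_div_iff₀ q1]
      linarith
    linarith
  have k4 : t2 * (4 / 5 / x.p - 8 / 25) ≤ tr x.σ x.T ^ 2 * al x / (2 * x.p) := by
    rw [e3]
    exact mul_le_mul_of_nonneg_right k2 hpos
  have hp1 : 0 < p1 := q1.trans_le h1
  unfold g2
  have s1 : exp (-(κ * x.V * (tr x.σ x.T ^ 2 * al x / (2 * x.p)))) ≤
      exp (κ * x.V * (t2 * (8 / 25))) * exp (-(κ * x.V * (t2 * (4 / 5)) / x.p)) := by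
    rw [← Real.exp_add]
    refine exp_le_exp.2 ?_
    have := mul_le_mul_of_nonneg_left k4 (by positivity : 0 ≤ κ * x.V)
    have e4 : κ * x.V * (t2 * (4 / 5)) / x.p = κ * x.V * (t2 * (4 / 5 / x.p)) := by ring
    rw [e4]
    linarith
  have s2 := sqrt_exp_mono (M := N0 x.p * exp 1 / (2 * π * κ)) (Z := x.p) (Z1 := p1)
    (c := κ * x.V * (t2 * (4 / 5))) (by
      have := N0_pos q1.le q2.le
      positivity) q1 h1 hc
  have e5 : N0 x.p * exp 1 / (2 * π * κ) / x.p = N0 x.p * exp 1 / (2 * π * κ * x.p) := by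
    rw [div_div]
  rw [e5] at s2
  have s3 : √(N0 x.p * exp 1 / (2 * π * κ) / p1) ≤ √(N0 p0 * exp 1 / (2 * π * p1) / κ) := by
    refine Real.sqrt_le_sqrt ?_
    have e6 : N0 p0 * exp 1 / (2 * π * p1) / κ = N0 p0 * exp 1 / (2 * π * κ) / p1 := by
      field_simp
    rw [e6]
    have := N0_le hp0 h0
    gcongr
  calc √(N0 x.p * exp 1 / (2 * π * κ * x.p)) * (141 / 50) *
        exp (-(κ * x.V * (tr x.σ x.T ^ 2 * al x / (2 * x.p))))
      ≤ √(N0 x.p * exp 1 / (2 * π * κ * x.p)) * (141 / 50) *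
        (exp (κ * x.V * (t2 * (8 / 25))) * exp (-(κ * x.V * (t2 * (4 / 5)) / x.p))) :=
        mul_le_mul_of_nonneg_left s1 (by positivity)
    _ = (141 / 50) * exp (κ * x.V * (t2 * (8 / 25))) *
        (√(N0 x.p * exp 1 / (2 * π * κ * x.p)) * exp (-(κ * x.V * (t2 * (4 / 5)) / x.p))) := by ring
    _ ≤ (141 / 50) * exp (κ * x.V * (t2 * (8 / 25))) *
        (√(N0 x.p * exp 1 / (2 * π * κ) / p1) * exp (-(κ * x.V * (t2 * (4 / 5)) / p1))) :=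
        mul_le_mul_of_nonneg_left s2 (by positivity)
    _ ≤ (141 / 50) * exp (κ * x.V * (t2 * (8 / 25))) *
        (√(N0 p0 * exp 1 / (2 * π * p1) / κ) * exp (-(κ * x.V * (t2 * (4 / 5)) / p1))) := by
        have := exp_pos (-(κ * x.V * (t2 * (4 / 5)) / p1))
        have := exp_pos (κ * x.V * (t2 * (8 / 25)))
        gcongr
    _ = √(N0 p0 * exp 1 / (2 * π * p1) / κ) * (141 / 50) *
        (exp (κ * x.V * (t2 * (8 / 25))) * exp (-(κ * x.V * (t2 * (4 / 5)) / p1))) := by ring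
    _ = _ := by
        rw [← Real.exp_add]
        congr 2
        ring

/-- the left condition -/
theorem hx2_of {x : Pt} (h : PtOK x) {p1 T1 a1 t2 V0 : ℝ} (hV0 : 0 ≤ V0) (hV : V0 ≤ x.V)
    (h1 : x.p ≤ p1) (hp1 : p1 ≤ 1) (hT : x.T ≤ T1)
    (ha : itr x.σ T1 ^ 2 / x.cl ≤ a1) (ht2 : 0 < t2) (ht : t2 * a1 ≤ 1)
    (hc : 16 / 5 ≤ 7 / 8 * (V0 * (t2 * (4 / 5 / p1 - 8 / 25)))) :
    16 / 5 ≤ 7 / 8 * (x.V * (tr x.σ x.T ^ 2 * al x / (2 * x.p))) := by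
  have q1 := h.p0
  have q2 := h.p1
  have hs0 := h.s0
  have hs1 := h.s1
  have hT0 := h.T0
  have hcl := h.c0
  have him := itr_mono hs0 hs1 hT0.le hT
  have hi0 := itr_pos hs0 hs1 hT0.le
  have k1 : itr x.σ x.T ^ 2 / x.cl ≤ a1 := by
    refine le_trans ?_ ha
    have := pow_le_pow_left₀ hi0.le him 2
    exact div_le_div_of_nonneg_right this hcl.le
  have hk0 : 0 < itr x.σ x.T ^ 2 / x.cl := by positivity
  have e1 : tr x.σ x.T = 1 / itr x.σ x.T := by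
    rw [eq_div_iff hi0.ne']
    exact tr_itr hs0 hs1 hT0.le
  have k2 : t2 ≤ tr x.σ x.T ^ 2 * x.cl := by
    have k3 : t2 * (itr x.σ x.T ^ 2 / x.cl) ≤ 1 := (mul_le_mul_of_nonneg_left k1 ht2.le).trans ht
    have e2 : tr x.σ x.T ^ 2 * x.cl = 1 / (itr x.σ x.T ^ 2 / x.cl) := by
      rw [e1]
      field_simp
    rw [e2, le_div_iff₀ hk0]
    exact k3
  have e3 : tr x.σ x.T ^ 2 * al x / (2 * x.p) = tr x.σ x.T ^ 2 * x.cl * (4 / 5 / x.p - 8 / 25) := by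
    unfold al
    field_simp
    ring
  have hp1' : 0 < p1 := q1.trans_le h1
  have k5 : 4 / 5 / p1 ≤ 4 / 5 / x.p := div_le_div_of_nonneg_left (by norm_num) q1 h1
  have hpos : 0 ≤ 4 / 5 / p1 - 8 / 25 := by
    have : 4 / 5 ≤ 4 / 5 / p1 := by
      rw [le_div_iff₀ hp1']
      linarith
    linarith
  have k4 : t2 * (4 / 5 / p1 - 8 / 25) ≤ tr x.σ x.T ^ 2 * al x / (2 * x.p) := by
    rw [e3]
    exact mul_le_mul k2 (by linarith) hpos (by positivity)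
  have k6 : V0 * (t2 * (4 / 5 / p1 - 8 / 25)) ≤ x.V * (tr x.σ x.T ^ 2 * al x / (2 * x.p)) :=
    mul_le_mul hV k4 (by positivity) (by linarith)
  linarith

/-- RIGHT MAIN zone -/
theorem g3_le {x : Pt} (h : PtOK x) {κ p0 p1 T1 th1 r1 Z1 Nb : ℝ} (hκ : 0 < κ)
    (hp0 : 0 ≤ p0) (h0 : p0 ≤ x.p) (h1 : x.p ≤ p1) (hT : x.T ≤ T1) (hth : x.θ ≤ th1)
    (hr : x.θ / x.u ≤ r1)
    (hZ : r1 ^ 2 * (2 * p1 / x.A2) + 2 * (1 - p0 ^ 2) + 1487 / 3200 * T1 ^ 2 ≤ Z1)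
    (hN : N0 p0 * (2 + 1487 / 5000 * th1 ^ 2) / x.A2 ≤ Nb)
    (hc : 1 / 2 ≤ κ * x.V / Z1) :
    g3 x κ ≤ √(Nb / Z1 / κ) * exp (-(x.V * (κ * (1 / Z1)))) := by
  have q1 := h.p0
  have q2 := h.p1
  have hT0 := h.T0
  have hA := h.a0
  have hu := h.u0
  have hθ := h.th0
  have hbt := bt_pos x.θ
  have hq : 0 < 1 - x.p ^ 2 := by nlinarith
  have e2 : (1 - x.p ^ 2) / bt x.θ = 2 * (1 - x.p ^ 2) + 1487 / 3200 * x.T ^ 2 := by
    have := h.hθ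
    unfold bt
    rw [div_div_eq_mul_div, div_one]
    linear_combination (1487 / 5000) * this
  have hZ0 : 0 < Z3 x := by
    unfold Z3
    have h0 : 0 ≤ (x.θ / x.u) ^ 2 * (2 * x.p / x.A2) := by positivity
    have h1 : 0 < (1 - x.p ^ 2) / bt x.θ := by positivity
    linarith
  have hZZ : Z3 x ≤ Z1 := by
    unfold Z3
    rw [e2]
    refine le_trans ?_ hZ
    have k1 : (x.θ / x.u) ^ 2 ≤ r1 ^ 2 := pow_le_pow_left₀ (by positivity) hr 2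
    have k2 : 2 * x.p / x.A2 ≤ 2 * p1 / x.A2 := div_le_div_of_nonneg_right (by linarith) hA.le
    have k3 := mul_le_mul k1 k2 (by positivity) (by positivity)
    have k4 : p0 ^ 2 ≤ x.p ^ 2 := pow_le_pow_left₀ hp0 h0 2
    have k5 : x.T ^ 2 ≤ T1 ^ 2 := pow_le_pow_left₀ hT0.le hT 2
    linarith
  have hZ1' : 0 < Z1 := hZ0.trans_le hZZ
  have hg : g3 x κ = √(N0 x.p * (2 + 1487 / 5000 * x.θ ^ 2) / (x.A2 * κ) / Z3 x) *
      exp (-(κ * x.V / Z3 x)) := by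
    unfold g3
    congr 2
    unfold bt
    field_simp
  have m1 := sqrt_exp_mono (M := N0 x.p * (2 + 1487 / 5000 * x.θ ^ 2) / (x.A2 * κ)) (by
    have := N0_pos q1.le q2.le
    positivity) hZ0 hZZ hc
  rw [hg]
  refine m1.trans ?_
  have e5 : κ * x.V / Z1 = x.V * (κ * (1 / Z1)) := by ring
  rw [e5]
  refine mul_le_mul_of_nonneg_right (Real.sqrt_le_sqrt ?_) (exp_pos _).le
  rw [div_right_comm Nb Z1 κ]
  refine div_le_div_of_nonneg_right ?_ hZ1'.le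
  rw [← div_div]
  refine div_le_div_of_nonneg_right (le_trans ?_ hN) hκ.le
  refine div_le_div_of_nonneg_right ?_ hA.le
  have n1 := N0_le hp0 h0
  have n2 := N0_pos q1.le q2.le
  have n3 : (2 + 1487 / 5000 * x.θ ^ 2) ≤ (2 + 1487 / 5000 * th1 ^ 2) := by
    have := pow_le_pow_left₀ hθ.le hth 2
    linarith
  exact mul_le_mul n1 n3 (by positivity) (by linarith)

/-- RIGHT TAIL, any constant `c4` -/
theorem g4_le' {x : Pt} (h : PtOK x) {κ p0 p1 s4 c4 : ℝ} (hκ : 0 < κ) (hV : 0 < x.V)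
    (hp0 : 0 ≤ p0) (h0 : p0 ≤ x.p) (h1 : x.p ≤ p1) (hs : 0 < s4) (hs4 : s4 ≤ x.u / x.θ)
    (hc4 : 0 ≤ c4) (hc : 1 / 2 ≤ κ * x.V * (s4 ^ 2 * x.A2 / 2) / p1) :
    √(N0 x.p / (2 * π * κ * x.p)) * c4 * exp (-(κ * x.V * ((x.u / x.θ) ^ 2 * x.A2 / (2 * x.p)))) ≤
      √(N0 p0 / (2 * π * p1) / κ) * c4 * exp (-(x.V * (κ * (s4 ^ 2 * x.A2 / (2 * p1))))) := by
  have q1 := h.p0
  have q2 := h.p1
  have hA := h.a0
  have hpi := Real.pi_pos
  have hp1 : 0 < p1 := q1.trans_le h1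
  have k1 : s4 ^ 2 ≤ (x.u / x.θ) ^ 2 := pow_le_pow_left₀ hs.le hs4 2
  have s1 : exp (-(κ * x.V * ((x.u / x.θ) ^ 2 * x.A2 / (2 * x.p)))) ≤
      exp (-(κ * x.V * (s4 ^ 2 * x.A2 / 2) / x.p)) := by
    refine exp_le_exp.2 (neg_le_neg ?_)
    have e1 : κ * x.V * (s4 ^ 2 * x.A2 / 2) / x.p = κ * x.V * (s4 ^ 2 * x.A2 / (2 * x.p)) := by
      field_simp
    rw [e1]
    gcongr
  have s2 := sqrt_exp_mono (M := N0 x.p / (2 * π * κ)) (Z := x.p) (Z1 := p1)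
    (c := κ * x.V * (s4 ^ 2 * x.A2 / 2)) (by
      have := N0_pos q1.le q2.le
      positivity) q1 h1 hc
  have e5 : N0 x.p / (2 * π * κ) / x.p = N0 x.p / (2 * π * κ * x.p) := by
    rw [div_div]
  rw [e5] at s2
  have s3 : √(N0 x.p / (2 * π * κ) / p1) ≤ √(N0 p0 / (2 * π * p1) / κ) := by
    refine Real.sqrt_le_sqrt ?_
    have e6 : N0 p0 / (2 * π * p1) / κ = N0 p0 / (2 * π * κ) / p1 := by
      field_simp
    rw [e6]
    have := N0_le hp0 h0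
    gcongr
  calc √(N0 x.p / (2 * π * κ * x.p)) * c4 *
        exp (-(κ * x.V * ((x.u / x.θ) ^ 2 * x.A2 / (2 * x.p))))
      ≤ √(N0 x.p / (2 * π * κ * x.p)) * c4 * exp (-(κ * x.V * (s4 ^ 2 * x.A2 / 2) / x.p)) :=
        mul_le_mul_of_nonneg_left s1 (by positivity)
    _ = c4 * (√(N0 x.p / (2 * π * κ * x.p)) * exp (-(κ * x.V * (s4 ^ 2 * x.A2 / 2) / x.p))) := by
        ring
    _ ≤ c4 * (√(N0 x.p / (2 * π * κ) / p1) * exp (-(κ * x.V * (s4 ^ 2 * x.A2 / 2) / p1))) :=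
        mul_le_mul_of_nonneg_left s2 hc4
    _ ≤ c4 * (√(N0 p0 / (2 * π * p1) / κ) * exp (-(κ * x.V * (s4 ^ 2 * x.A2 / 2) / p1))) := by
        have := exp_pos (-(κ * x.V * (s4 ^ 2 * x.A2 / 2) / p1))
        gcongr
    _ = _ := by
        have e7 : κ * x.V * (s4 ^ 2 * x.A2 / 2) / p1 = x.V * (κ * (s4 ^ 2 * x.A2 / (2 * p1))) := by
          field_simp
        rw [e7]
        ring

theorem hx4_of {x : Pt} (h : PtOK x) {p1 s4 V0 c : ℝ} (hV0 : 0 ≤ V0) (hV : V0 ≤ x.V)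
    (h1 : x.p ≤ p1) (hs : 0 < s4) (hs4 : s4 ≤ x.u / x.θ)
    (hc : c ≤ 7 / 8 * (V0 * (s4 ^ 2 * x.A2 / (2 * p1)))) :
    c ≤ 7 / 8 * (x.V * ((x.u / x.θ) ^ 2 * x.A2 / (2 * x.p))) := by
  have q1 := h.p0
  have hA := h.a0
  have hp1 : 0 < p1 := q1.trans_le h1
  have k1 : s4 ^ 2 ≤ (x.u / x.θ) ^ 2 := pow_le_pow_left₀ hs.le hs4 2
  have k2 : s4 ^ 2 * x.A2 / (2 * p1) ≤ (x.u / x.θ) ^ 2 * x.A2 / (2 * x.p) := by
    gcongr
  have k3 : V0 * (s4 ^ 2 * x.A2 / (2 * p1)) ≤ x.V * ((x.u / x.θ) ^ 2 * x.A2 / (2 * x.p)) :=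
    mul_le_mul hV k2 (by positivity) (by linarith)
  linarith

/-- `1 - p²` against its chord, for `Zp` -/
theorem chord_bd' {a b p p0 p1 M : ℝ} (hb : 0 ≤ b) (h0 : p0 ≤ p) (h1 : p ≤ p1)
    (hM0 : a * p0 + b * (1 - p0 ^ 2 + (p1 - p0) ^ 2 / 4) ≤ M)
    (hM1 : a * p1 + b * (1 - p1 ^ 2 + (p1 - p0) ^ 2 / 4) ≤ M) :
    a * p + b * (1 - p ^ 2) ≤ M := by
  have hq : 1 - p ^ 2 ≤ 1 - (p0 + p1) * p + p0 * p1 + (p1 - p0) ^ 2 / 4 := by
    nlinarith [sq_nonneg (2 * p - (p0 + p1))]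
  have h4 := mul_le_mul_of_nonneg_left hq hb
  have h5 : a * p + b * (1 - p ^ 2) ≤
      (b * (1 + p0 * p1 + (p1 - p0) ^ 2 / 4)) + (a - b * (p0 + p1)) * p := by linarith
  refine h5.trans ?_
  rcases le_total 0 (a - b * (p0 + p1)) with h | h
  · have := mul_le_mul_of_nonneg_left h1 h
    nlinarith
  · have := mul_le_mul_of_nonpos_left h0 h
    nlinarith

/-- RIGHT MAIN zone, window form -/
theorem g3h_le {x : Pt} (h : PtOK x) {κ p0 p1 th1 r1 Z1 Nb c3 Nc : ℝ} (hκ : 0 < κ)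
    (hV : 0 < x.V) (hp0 : 0 ≤ p0) (h0 : p0 ≤ x.p) (h1 : x.p ≤ p1) (hp01 : p0 < 1)
    (hth : x.θ ≤ th1) (hr0 : 0 < r1) (hr : x.θ / x.u ≤ r1)
    (hZ0 : 2 / x.A2 * p0 + 25 / 11 * (1 - p0 ^ 2 + (p1 - p0) ^ 2 / 4) ≤ Z1)
    (hZ1 : 2 / x.A2 * p1 + 25 / 11 * (1 - p1 ^ 2 + (p1 - p0) ^ 2 / 4) ≤ Z1)
    (hN : N0 p0 / (x.A2 * (11 / 25)) ≤ Nb) (hN' : N0 p0 / ((1 - p0 ^ 2) * x.A2) ≤ Nc)
    (hc3 : c3 = 1 / r1 ^ 2)
    (hc : 1 / 2 ≤ κ * x.V * c3 / Z1)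
    (hc' : 1 / 2 ≤ κ * x.V * (396 / 625 / th1 ^ 2) / (1 - p0 ^ 2)) :
    g3h x κ ≤ √(Nb / Z1 / κ) * exp (-(x.V * (κ * (c3 / Z1)))) +
      √(Nc / κ) / 2 * exp (-(x.V * (κ * (396 / 625 / th1 ^ 2 / (1 - p0 ^ 2))))) := by
  have q1 := h.p0
  have q2 := h.p1
  have hA := h.a0
  have hu := h.u0
  have hθ := h.th0
  have hth0 : 0 < th1 := hθ.trans_le hth
  have hq : 0 < 1 - x.p ^ 2 := by nlinarith
  have hq0 : 0 < 1 - p0 ^ 2 := by nlinarith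
  have hqq : 1 - x.p ^ 2 ≤ 1 - p0 ^ 2 := by
    have := pow_le_pow_left₀ hp0 h0 2
    linarith
  have n2 := N0_pos q1.le q2.le
  have n1 := N0_le hp0 h0
  unfold g3h
  refine add_le_add ?_ ?_
  · have hZp : 0 < Zp x := by
      unfold Zp
      positivity
    have hZZ : Zp x ≤ Z1 := by
      have := chord_bd' (a := 2 / x.A2) (b := 25 / 11) (by norm_num) h0 h1 hZ0 hZ1
      unfold Zp
      have e : 2 * x.p / x.A2 = 2 / x.A2 * x.p := by ring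
      rw [e]
      linarith
    have hZ1' : 0 < Z1 := hZp.trans_le hZZ
    have k1 : (x.θ / x.u) ^ 2 ≤ r1 ^ 2 := pow_le_pow_left₀ (by positivity) hr 2
    have s1 : exp (-(κ * x.V / ((x.θ / x.u) ^ 2 * Zp x))) ≤ exp (-(κ * x.V * c3 / Zp x)) := by
      refine exp_le_exp.2 (neg_le_neg ?_)
      rw [hc3, mul_one_div, div_div]
      have : 0 < (x.θ / x.u) ^ 2 * Zp x := by positivity
      gcongr
    have s2 := sqrt_exp_mono (M := N0 x.p / (κ * x.A2 * (11 / 25))) (Z := Zp x) (Z1 := Z1)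
      (c := κ * x.V * c3) (by positivity) hZp hZZ hc
    have e5 : N0 x.p / (κ * x.A2 * (11 / 25)) / Zp x = N0 x.p / (κ * x.A2 * (11 / 25) * Zp x) := by
      rw [div_div]
    rw [e5] at s2
    have s3 : √(N0 x.p / (κ * x.A2 * (11 / 25)) / Z1) ≤ √(Nb / Z1 / κ) := by
      refine Real.sqrt_le_sqrt ?_
      rw [div_right_comm Nb Z1 κ]
      refine div_le_div_of_nonneg_right ?_ hZ1'.le
      have e6 : N0 x.p / (κ * x.A2 * (11 / 25)) = N0 x.p / (x.A2 * (11 / 25)) / κ := by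
        field_simp
      rw [e6]
      refine div_le_div_of_nonneg_right (le_trans ?_ hN) hκ.le
      exact div_le_div_of_nonneg_right n1 (by positivity)
    calc √(N0 x.p / (κ * x.A2 * (11 / 25) * Zp x)) * exp (-(κ * x.V / ((x.θ / x.u) ^ 2 * Zp x)))
        ≤ √(N0 x.p / (κ * x.A2 * (11 / 25) * Zp x)) * exp (-(κ * x.V * c3 / Zp x)) :=
          mul_le_mul_of_nonneg_left s1 (Real.sqrt_nonneg _)
      _ ≤ √(N0 x.p / (κ * x.A2 * (11 / 25)) / Z1) * exp (-(κ * x.V * c3 / Z1)) := s2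
      _ ≤ √(Nb / Z1 / κ) * exp (-(κ * x.V * c3 / Z1)) :=
          mul_le_mul_of_nonneg_right s3 (exp_pos _).le
      _ = _ := by
          have e7 : κ * x.V * c3 / Z1 = x.V * (κ * (c3 / Z1)) := by ring
          rw [e7]
  · have s1 : exp (-(κ * (396 / 625) * (x.V / (x.θ ^ 2 * (1 - x.p ^ 2))))) ≤
        exp (-(κ * x.V * (396 / 625 / th1 ^ 2) / (1 - x.p ^ 2))) := by
      refine exp_le_exp.2 (neg_le_neg ?_)
      have e : κ * x.V * (396 / 625 / th1 ^ 2) / (1 - x.p ^ 2) =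
          κ * (396 / 625) * (x.V / (th1 ^ 2 * (1 - x.p ^ 2))) := by field_simp
      rw [e]
      gcongr
    have s2 := sqrt_exp_mono (M := N0 x.p / (κ * x.A2)) (Z := 1 - x.p ^ 2) (Z1 := 1 - p0 ^ 2)
      (c := κ * x.V * (396 / 625 / th1 ^ 2)) (by positivity) hq hqq hc'
    have e5 : N0 x.p / (κ * x.A2) / (1 - x.p ^ 2) = N0 x.p / (κ * (1 - x.p ^ 2) * x.A2) := by
      field_simp
    rw [e5] at s2
    have s3 : √(N0 x.p / (κ * x.A2) / (1 - p0 ^ 2)) ≤ √(Nc / κ) := by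
      refine Real.sqrt_le_sqrt ?_
      have e6 : N0 x.p / (κ * x.A2) / (1 - p0 ^ 2) = N0 x.p / ((1 - p0 ^ 2) * x.A2) / κ := by
        field_simp
      rw [e6]
      refine div_le_div_of_nonneg_right (le_trans ?_ hN') hκ.le
      exact div_le_div_of_nonneg_right n1 (by positivity)
    calc √(N0 x.p / (κ * (1 - x.p ^ 2) * x.A2)) / 2 *
          exp (-(κ * (396 / 625) * (x.V / (x.θ ^ 2 * (1 - x.p ^ 2)))))
        ≤ √(N0 x.p / (κ * (1 - x.p ^ 2) * x.A2)) / 2 *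
          exp (-(κ * x.V * (396 / 625 / th1 ^ 2) / (1 - x.p ^ 2))) :=
          mul_le_mul_of_nonneg_left s1 (by positivity)
      _ = 1 / 2 * (√(N0 x.p / (κ * (1 - x.p ^ 2) * x.A2)) *
          exp (-(κ * x.V * (396 / 625 / th1 ^ 2) / (1 - x.p ^ 2)))) := by ring
      _ ≤ 1 / 2 * (√(N0 x.p / (κ * x.A2) / (1 - p0 ^ 2)) *
          exp (-(κ * x.V * (396 / 625 / th1 ^ 2) / (1 - p0 ^ 2)))) :=
          mul_le_mul_of_nonneg_left s2 (by norm_num)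
      _ ≤ 1 / 2 * (√(Nc / κ) * exp (-(κ * x.V * (396 / 625 / th1 ^ 2) / (1 - p0 ^ 2)))) := by
          have := exp_pos (-(κ * x.V * (396 / 625 / th1 ^ 2) / (1 - p0 ^ 2)))
          gcongr
      _ = _ := by
          have e7 : κ * x.V * (396 / 625 / th1 ^ 2) / (1 - p0 ^ 2) =
              x.V * (κ * (396 / 625 / th1 ^ 2 / (1 - p0 ^ 2))) := by ring
          rw [e7]
          ring

end SokalCl
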