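import Pool.Agent.Lib_MP_af4de1_v3.ClE
import Pool.Agent.Lib_MP_af4de1_v3.CelCore

/-!
# Far waves with `Γ ≥ 10`, VI: fixed point evaluation of one cell, tools and the left zones
-/

set_option autoImplicit false

namespace SokalCl

open Real SokalFN SokalCel

/-- evaluates the argument before it is used -/
def fc (n : ℕ) (k : ℕ → Bool) : Bool :=
  match n with
  | 0 => k 0
  | m + 1 => k (m + 1)

theorem fc_elim {n : ℕ} {k : ℕ → Bool} (h : fc n k = true) : ∃ q, q = n ∧ k q = true := by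
  cases n with
  | zero => exact ⟨0, rfl, h⟩
  | succ m => exact ⟨m + 1, rfl, h⟩

/-- upper bound of `a/b · n` -/
def rU (a b n : ℕ) : ℕ := a * n / b + 1
/-- lower bound of `a/b · n` -/
def rL (a b n : ℕ) : ℕ := a * n / b

theorem fx_mul (a n : ℕ) : fx (a * n) = a * fx n := by
  unfold fx
  push_cast
  ring

theorem rU_le {c x : ℝ} {a b n : ℕ} (hb : 0 < b) (hc : c * b ≤ a) (hx : x ≤ fx n)
    (hc0 : 0 ≤ c) : c * x ≤ fx (rU a b n) := by
  refine le_trans ?_ (fx_divU (a * n) b hb)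
  have hb' : (0 : ℝ) < b := by exact_mod_cast hb
  rw [le_div_iff₀ hb', fx_mul]
  have h0 := fx_nonneg n
  calc c * x * b = (c * b) * x := by ring
    _ ≤ (c * b) * fx n := mul_le_mul_of_nonneg_left hx (by positivity)
    _ ≤ a * fx n := mul_le_mul_of_nonneg_right hc h0

theorem rL_le {c x : ℝ} {a b n : ℕ} (hb : 0 < b) (hc : (a : ℝ) ≤ c * b) (hx : fx n ≤ x)
    (hc0 : 0 ≤ c) : fx (rL a b n) ≤ c * x := by
  refine (fx_div (a * n) b hb).trans ?_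
  have hb' : (0 : ℝ) < b := by exact_mod_cast hb
  rw [div_le_iff₀ hb', fx_mul]
  have h0 := fx_nonneg n
  calc a * fx n ≤ (c * b) * fx n := mul_le_mul_of_nonneg_right hc h0
    _ ≤ (c * b) * x := mul_le_mul_of_nonneg_left hx (by positivity)
    _ = c * x * b := by ring

theorem oneSubU {p : ℝ} {n : ℕ} (h : fx n ≤ p) : 1 - p ^ 2 ≤ fx (SC - mL n n) := by
  have := mulL h h
  have h2 : p ^ 2 = p * p := sq p
  rw [h2]
  exact subU fx_one.ge this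

theorem fx_sub_zero {m n : ℕ} (h : m ≤ n) : fx (m - n) = 0 := by
  rw [Nat.sub_eq_zero_of_le h, fx_zero]

theorem oneSubL {p : ℝ} {n : ℕ} (h0 : 0 ≤ p) (h : p ≤ fx n) (hn : n ≤ SC) :
    fx (SC - mU n n) ≤ 1 - p ^ 2 := by
  have h1 : p ≤ 1 := h.trans (by rw [← fx_one]; exact fx_mono hn)
  rcases le_total (mU n n) SC with hc | hc
  · have := mulU h h h0
    have h2 : p ^ 2 = p * p := sq p
    rw [h2]
    exact subL fx_one.le this hc
  · rw [fx_sub_zero hc]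
    have h4 : p * p ≤ 1 := mul_le_one₀ h1 h0 h1
    rw [sub_nonneg, sq]
    exact h4

/-- square, upper -/
theorem sqU_le {x : ℝ} {n : ℕ} (h0 : 0 ≤ x) (h : x ≤ fx n) : x ^ 2 ≤ fx (mU n n) := by
  rw [sq]
  exact mulU h h h0

theorem sqL_le {x : ℝ} {n : ℕ} (h : fx n ≤ x) : fx (mL n n) ≤ x ^ 2 := by
  rw [sq]
  exact mulL h h

theorem fx_two (n : ℕ) : fx (2 * n) = 2 * fx n := by
  rw [fx_mul]
  norm_num

/-- lower bound of `8/5 - 16/25 p` -/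
def c85 (p : ℕ) : ℕ := 1759218604441 - rU 16 25 p

theorem fx_85 : fx 1759218604441 ≤ 8 / 5 := by
  unfold fx
  norm_num

theorem c85_le {p : ℕ} (hp : p ≤ SC) : fx (c85 p) ≤ 8 / 5 - 16 / 25 * fx p := by
  refine subL fx_85 (rU_le (by norm_num) (by norm_num) le_rfl (by norm_num)) ?_
  unfold rU
  unfold SC at hp
  omega

theorem c85_pos {p : ℕ} (hp : p ≤ SC) : 0 < c85 p := by
  unfold c85 rU
  unfold SC at hp
  omega

theorem ph_le {p : ℕ} (hp : p ≤ SC) : ph (fx p) ≤ fx (dU p (c85 p)) := by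
  unfold ph
  exact divU le_rfl (c85_le hp) (c85_pos hp)

theorem ph_nonneg {p : ℕ} (hp : p ≤ SC) : 0 ≤ ph (fx p) := by
  unfold ph
  have := c85_le hp
  have := fx_nonneg (c85 p)
  have := fx_nonneg p
  exact div_nonneg (fx_nonneg p) (by linarith)

/-! ## the form of all bounds -/

/-- bound of a zone for `7/8 ≤ κ ≤ 1` -/
def Bd (g : ℝ → ℝ) (V : ℝ) (s c : ℕ) : Prop :=
  ∀ κ : ℝ, 7 / 8 ≤ κ → κ ≤ 1 → g κ ≤ √(1 / κ) * fx s * exp (-(V * (κ * fx c)))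

theorem Bd.of {g : ℝ → ℝ} {V M f c' : ℝ} {s c : ℕ} (hV : 0 ≤ V)
    (hg : ∀ κ : ℝ, 7 / 8 ≤ κ → κ ≤ 1 → g κ ≤ √(M / κ) * f * exp (-(V * (κ * c'))))
    (hM : 0 ≤ M) (hs : √M * f ≤ fx s) (hc : fx c ≤ c') : Bd g V s c := by
  intro κ h1 h2
  have hκ : 0 < κ := by linarith
  refine (hg κ h1 h2).trans ?_
  have e1 : √(M / κ) = √M * √(1 / κ) := by
    rw [← Real.sqrt_mul hM]
    congr 1
    ring
  have e2 : exp (-(V * (κ * c'))) ≤ exp (-(V * (κ * fx c))) := by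
    refine exp_le_exp.2 (neg_le_neg ?_)
    gcongr
  have e3 : √(M / κ) * f ≤ √(1 / κ) * fx s := by
    rw [e1]
    calc √M * √(1 / κ) * f = √(1 / κ) * (√M * f) := by ring
      _ ≤ _ := mul_le_mul_of_nonneg_left hs (Real.sqrt_nonneg _)
  exact mul_le_mul e3 e2 (exp_pos _).le (by have := fx_nonneg s; positivity)

/-- the value for `κ = 1` -/
def eeU (V0 L s c : ℕ) : ℕ := mU s (eN (mL V0 (c - L)))
/-- the value for `κ = 7/8` -/
def ffU (V0 L s c : ℕ) : ℕ := mU (mU s 1175487881257) (eN (mL V0 (rL 7 8 c - L)))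

theorem Bd.at {g : ℝ → ℝ} {V L' κ : ℝ} {s c V0 L cc ss : ℕ} (h : Bd g V s c) (h1 : 7 / 8 ≤ κ)
    (h2 : κ ≤ 1) (hV : fx V0 ≤ V) (hL : L' ≤ fx L) (hcc : fx cc ≤ κ * fx c) (hLc : L ≤ cc)
    (hs : √(1 / κ) * fx s ≤ fx ss) :
    exp (L' * V) * g κ ≤ fx (mU ss (eN (mL V0 (cc - L)))) := by
  have hV0 := fx_nonneg V0
  have e1 := h κ h1 h2
  have hLc' : fx L ≤ κ * fx c := (fx_mono hLc).trans hcc
  have e2 := level_bd hV0 hV hL hLc'
  have e3 : exp (-(fx V0 * (κ * fx c - fx L))) ≤ fx (eN (mL V0 (cc - L))) :=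
    expNegU (mulL le_rfl (subL hcc le_rfl hLc))
  have hs0 := fx_nonneg s
  calc exp (L' * V) * g κ ≤ exp (L' * V) * (√(1 / κ) * fx s * exp (-(V * (κ * fx c)))) :=
        mul_le_mul_of_nonneg_left e1 (exp_pos _).le
    _ = √(1 / κ) * fx s * (exp (L' * V) * exp (-(V * (κ * fx c)))) := by ring
    _ ≤ √(1 / κ) * fx s * exp (-(fx V0 * (κ * fx c - fx L))) :=
        mul_le_mul_of_nonneg_left e2 (by positivity)
    _ ≤ fx (mU ss (eN (mL V0 (cc - L)))) := mulU hs e3 (exp_pos _).le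

theorem Bd.one {g : ℝ → ℝ} {V L' : ℝ} {s c V0 L : ℕ} (h : Bd g V s c) (hV : fx V0 ≤ V)
    (hL : L' ≤ fx L) (hLc : L ≤ rL 7 8 c) : exp (L' * V) * g 1 ≤ fx (eeU V0 L s c) := by
  have h1 : rL 7 8 c ≤ c := by
    unfold rL
    omega
  refine h.at (by norm_num) le_rfl hV hL (by rw [one_mul]) (hLc.trans h1) ?_
  norm_num

theorem Bd.sev {g : ℝ → ℝ} {V L' : ℝ} {s c V0 L : ℕ} (h : Bd g V s c) (hV : fx V0 ≤ V)
    (hL : L' ≤ fx L) (hLc : L ≤ rL 7 8 c) : exp (L' * V) * g (7 / 8) ≤ fx (ffU V0 L s c) := by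
  refine h.at le_rfl (by norm_num) hV hL
    (rL_le (by norm_num) (by norm_num) le_rfl (by norm_num)) hLc ?_
  have h2 : √(1 / (7 / 8 : ℝ)) ≤ fx 1175487881257 := by
    rw [Real.sqrt_le_left (fx_nonneg _)]
    unfold fx
    norm_num
  rw [mul_comm]
  exact mulU le_rfl h2 (Real.sqrt_nonneg _)

/-! ## facts about a cell -/

/-- facts delivered by the geometric stage -/
structure FA (p T τ θ u V : ℝ) (p0 p1 t1 q0 sp0 T1 th1 thl V0 L : ℕ) : Prop where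
  hp : 0 < p
  hp1 : p < 1
  hT : 0 < T
  hθ : 0 < θ
  hu : u = 2 * π - θ
  hu0 : 0 < u
  hV : fx V0 ≤ V
  hV0 : 0 < V
  e : θ ^ 2 * (1 - p ^ 2) = 25 / 16 * T ^ 2
  b0 : fx p0 ≤ p
  b1 : p ≤ fx p1
  p1s : p1 ≤ SC
  τ0 : 0 ≤ τ
  τ1 : τ ≤ fx t1
  hq : 1 - fx p0 ^ 2 ≤ fx q0
  hsp : √(1 - p ^ 2) ≤ fx sp0
  hT1 : T ≤ fx T1
  hth1 : θ ≤ fx th1
  hthl : fx thl ≤ θ
  hL : 3 / 5 * (τ / (1 + τ)) ^ 2 ≤ fx L

/-- common numbers -/
structure FN (p0 T1 th1 n0 be tt : ℕ) : Prop where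
  h1 : N0 (fx p0) ≤ fx n0
  h2 : 2 + 1487 / 5000 * fx th1 ^ 2 ≤ fx be
  h3 : 1487 / 3200 * fx T1 ^ 2 ≤ fx tt

def okN (q0 T1 th1 : ℕ) (k : ℕ → ℕ → ℕ → Bool) : Bool :=
  fc (rU 23 20 (SC + rU 16 25 q0)) fun n0 =>
  fc (2 * SC + rU 1487 5000 (mU th1 th1)) fun be =>
  fc (rU 1487 3200 (mU T1 T1)) fun tt => k n0 be tt

theorem okN_sound {p0 q0 T1 th1 : ℕ} {k : ℕ → ℕ → ℕ → Bool} (hq : 1 - fx p0 ^ 2 ≤ fx q0)
    (h : okN q0 T1 th1 k = true) : ∃ n0 be tt, FN p0 T1 th1 n0 be tt ∧ k n0 be tt = true := by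
  unfold okN at h
  obtain ⟨n0, e1, h⟩ := fc_elim h
  obtain ⟨be, e2, h⟩ := fc_elim h
  obtain ⟨tt, e3, h⟩ := fc_elim h
  refine ⟨n0, be, tt, ⟨?_, ?_, ?_⟩, h⟩
  · rw [e1]
    unfold N0
    exact rU_le (by norm_num) (by norm_num)
      (addU fx_one.ge (rU_le (by norm_num) (by norm_num) hq (by norm_num))) (by norm_num)
  · rw [e2]
    have h0 : fx (2 * SC) = 2 := by rw [fx_two, fx_one, mul_one]
    exact addU h0.ge (rU_le (by norm_num) (by norm_num) (sqU_le (fx_nonneg _) le_rfl)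
      (by norm_num))
  · rw [e3]
    exact rU_le (by norm_num) (by norm_num) (sqU_le (fx_nonneg _) le_rfl) (by norm_num)

/-! ## left zones -/

/-- facts of the first left stage -/
structure FB (σ T1' : ℝ) (icl a1 b1 : ℕ) : Prop where
  s0 : 0 ≤ σ
  s1 : σ ≤ 1
  i1 : 1 ≤ fx icl
  i2 : T1' ≤ fx icl
  ha : itr σ T1' ^ 2 / (1 / fx icl) ≤ fx a1
  hb : bb σ T1' ≤ fx b1

def okB1 (p0 p1 T1 : ℕ) (k : ℕ → ℕ → ℕ → Bool) : Bool :=
  fc (mL ((p0 + p1) / 2) ((p0 + p1) / 2)) fun sg =>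
  fc (SC - sg) fun dsg =>
  fc (SC + mL sg (rL 1 2 (mL dsg T1))) fun den =>
  fc (dU (SC + rU 1 2 (mU dsg T1)) den) fun i1 =>
  fc (eNL (mU sg T1)) fun en =>
  fc (dU (dU SC en) (mL den den)) fun b1 =>
  fc (max SC T1) fun icl =>
  fc (mU (mU i1 i1) icl) fun a1 =>
    Nat.ble sg SC && Nat.ble 1 en && k icl a1 b1

theorem okB1_sound {p0 p1 T1 : ℕ} {k : ℕ → ℕ → ℕ → Bool} (h : okB1 p0 p1 T1 k = true) :
    ∃ (σ : ℝ) (icl a1 b1 : ℕ), FB σ (fx T1) icl a1 b1 ∧ k icl a1 b1 = true := by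
  unfold okB1 at h
  obtain ⟨sg, e1, h⟩ := fc_elim h
  obtain ⟨dsg, e2, h⟩ := fc_elim h
  obtain ⟨den, e3, h⟩ := fc_elim h
  obtain ⟨i1, e4, h⟩ := fc_elim h
  obtain ⟨en, e5, h⟩ := fc_elim h
  obtain ⟨b1, e6, h⟩ := fc_elim h
  obtain ⟨icl, e7, h⟩ := fc_elim h
  obtain ⟨a1, e8, h⟩ := fc_elim h
  simp only [Bool.and_eq_true, Nat.ble_eq] at h
  obtain ⟨⟨hsg, hen⟩, h⟩ := h
  have hσ0 := fx_nonneg sg
  have hσ1 : fx sg ≤ 1 := by rw [← fx_one]; exact fx_mono hsg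
  have hT := fx_nonneg T1
  have hdsg : fx dsg = 1 - fx sg := by
    have : fx SC = fx (SC - sg) + fx sg := by rw [← fx_add]; congr 1; omega
    rw [fx_one] at this
    rw [e2]
    linarith
  have hv0 : 0 ≤ (1 - fx sg) * fx T1 / 2 := by
    have := mul_nonneg (sub_nonneg.2 hσ1) hT
    linarith
  have hvU : (1 - fx sg) * fx T1 / 2 ≤ fx (rU 1 2 (mU dsg T1)) := by
    have := rU_le (c := 1 / 2) (a := 1) (b := 2) (by norm_num) (by norm_num)
      (mulU hdsg.ge (le_refl (fx T1)) hT) (by norm_num)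
    linarith
  have hvL : fx (rL 1 2 (mL dsg T1)) ≤ (1 - fx sg) * fx T1 / 2 := by
    have := rL_le (c := 1 / 2) (a := 1) (b := 2) (by norm_num) (by norm_num)
      (mulL hdsg.le (le_refl (fx T1))) (by norm_num)
    linarith
  have hden : fx den ≤ 1 + fx sg * ((1 - fx sg) * fx T1 / 2) := by
    rw [e3]
    exact addL fx_one.le (mulL le_rfl hvL)
  have hden0 : 0 < den := by
    rw [e3]
    unfold SC
    omega
  have hi : itr (fx sg) (fx T1) ≤ fx i1 := by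
    rw [e4]
    unfold itr
    exact divU (addU fx_one.ge hvU) hden hden0
  have hi0 := itr_pos hσ0 hσ1 hT
  have hicl : fx icl = max 1 (fx T1) := by
    rw [e7]
    rcases le_total SC T1 with hc | hc
    · have : 1 ≤ fx T1 := by rw [← fx_one]; exact fx_mono hc
      rw [max_eq_right hc, max_eq_right this]
    · have : fx T1 ≤ 1 := by rw [← fx_one]; exact fx_mono hc
      rw [max_eq_left hc, max_eq_left this, fx_one]
  refine ⟨fx sg, icl, a1, b1, ⟨hσ0, hσ1, ?_, ?_, ?_, ?_⟩, h⟩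
  · rw [hicl]
    exact le_max_left _ _
  · rw [hicl]
    exact le_max_right _ _
  · rw [e8, div_div_eq_mul_div, div_one]
    exact mulU (sqU_le hi0.le hi) le_rfl (fx_nonneg _)
  · rw [e6]
    unfold bb
    have h1 : exp (fx sg * fx T1) ≤ fx (dU SC en) := by
      have := expUp (y := fx sg * fx T1) (a := mU sg T1) (mulU le_rfl le_rfl hT) (by
        rw [← e5]
        omega)
      rw [← e5] at this
      exact this
    refine divU h1 (sqL_le hden) ?_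
    have : SC ≤ den := by
      rw [e3]
      omega
    unfold mL
    refine Nat.div_pos ?_ (by norm_num)
    exact (Nat.mul_le_mul this this).trans' (by norm_num)

/-- sum for `W` -/
theorem W_sum {A B P D q d tt : ℕ} {x y z t : ℝ} (hx : x ≤ fx P) (hx0 : 0 ≤ x) (hy : y ≤ fx q)
    (hz : z ≤ fx d) (ht : t ≤ fx tt) (hyz : 0 ≤ 2 * y + z) (ht0 : 0 ≤ t)
    (hD : mU (2 * A) P + mU B (2 * q + d) ≤ D) :
    fx A * (2 * x) + fx B * (2 * y + z) + fx B * t ≤ fx (D + mU B tt) := by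
  rw [fx_add]
  refine add_le_add (le_trans ?_ (fx_mono hD)) (mulU le_rfl ht ht0)
  refine addU ?_ ?_
  · have e : fx A * (2 * x) = fx (2 * A) * x := by rw [fx_two]; ring
    rw [e]
    exact mulU le_rfl hx hx0
  · refine mulU le_rfl ?_ hyz
    rw [fx_add, fx_two]
    linarith

def okB2 (p0 p1 q0 V0 n0 be tt icl a1 b1 : ℕ) (k : ℕ → ℕ → ℕ → ℕ → Bool) : Bool :=
  fc (c85 p1) fun cp =>
  fc (rU 1 2 (mU (p1 - p0) (p1 - p0))) fun d2 =>
  fc (max (mU (2 * a1) (dU p0 (c85 p0)) + mU b1 (2 * q0 + d2))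
    (mU (2 * a1) (dU p1 cp) + mU b1 (2 * (SC - mL p1 p1) + d2)) + mU b1 tt) fun W =>
  fc (dL SC W) fun c1 =>
  fc (dL SC a1) fun t2 =>
  fc (mL t2 (dL 879609302220 p1 - 351843720889)) fun c2 =>
  fc (sqU (dU (dU (mU (mU n0 be) (mU b1 icl)) cp) W)) fun s1 =>
  fc (rU 141 50 (sqU (dU (mU n0 475681044300) p1))) fun s2 =>
    Nat.ble 1 W && Nat.ble 1 p1 && Nat.ble 1 t2 && Nat.ble 549755813888 (mL V0 (rL 7 8 c1)) &&
      Nat.ble 3518437208884 (rL 7 8 (mL V0 c2)) && k s1 c1 s2 c2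

theorem FA.ok {p T τ θ u V σ cl A2 : ℝ} {p0 p1 t1 q0 sp0 T1 th1 thl V0 L : ℕ}
    (hA : FA p T τ θ u V p0 p1 t1 q0 sp0 T1 th1 thl V0 L) (s0 : 0 ≤ σ) (s1 : σ ≤ 1)
    (c0 : 0 < cl) (a0 : 0 < A2) : PtOK ⟨p, T, θ, u, V, σ, cl, A2⟩ :=
  ⟨hA.hp, hA.hp1, hA.hT, hA.hθ, hA.hu0, hA.e, s0, s1, c0, a0⟩

/-- the half -/
theorem half_le {V κ c' : ℝ} {V0 c : ℕ} (hV : fx V0 ≤ V) (hκ : 7 / 8 ≤ κ) (hc : fx c ≤ c')
    (h : 549755813888 ≤ mL V0 (rL 7 8 c)) : 1 / 2 ≤ V * (κ * c') := by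
  have h1 : fx 549755813888 ≤ fx (mL V0 (rL 7 8 c)) := fx_mono h
  rw [fx_half] at h1
  have h2 : fx (rL 7 8 c) ≤ 7 / 8 * fx c := rL_le (by norm_num) (by norm_num) le_rfl (by norm_num)
  have h3 := mL_le V0 (rL 7 8 c)
  have h4 := fx_nonneg V0
  have h5 := fx_nonneg c
  have h6 : fx (rL 7 8 c) ≤ κ * c' := by
    refine h2.trans (mul_le_mul hκ hc h5 (by linarith))
  have h7 : fx V0 * fx (rL 7 8 c) ≤ V * (κ * c') :=
    mul_le_mul hV h6 (fx_nonneg _) (h4.trans hV)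
  linarith

theorem okB2_sound {p T τ θ u V σ : ℝ}
    {p0 p1 t1 q0 sp0 T1 th1 thl V0 L n0 be tt icl a1 b1 : ℕ} {k : ℕ → ℕ → ℕ → ℕ → Bool}
    (hA : FA p T τ θ u V p0 p1 t1 q0 sp0 T1 th1 thl V0 L) (hN : FN p0 T1 th1 n0 be tt)
    (hB : FB σ (fx T1) icl a1 b1) (h : okB2 p0 p1 q0 V0 n0 be tt icl a1 b1 k = true) :
    ∃ s1 c1 s2 c2 : ℕ, (∀ A2 : ℝ, 0 < A2 →
      16 / 5 ≤ 7 / 8 * (V * (tr σ T ^ 2 * al ⟨p, T, θ, u, V, σ, 1 / fx icl, A2⟩ / (2 * p))) ∧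
      Bd (g1 ⟨p, T, θ, u, V, σ, 1 / fx icl, A2⟩) V s1 c1 ∧
      Bd (g2 ⟨p, T, θ, u, V, σ, 1 / fx icl, A2⟩) V s2 c2) ∧ k s1 c1 s2 c2 = true := by
  unfold okB2 at h
  obtain ⟨cp, e1, h⟩ := fc_elim h
  obtain ⟨d2, e2, h⟩ := fc_elim h
  obtain ⟨W, e3, h⟩ := fc_elim h
  obtain ⟨c1, e4, h⟩ := fc_elim h
  obtain ⟨t2, e5, h⟩ := fc_elim h
  obtain ⟨c2, e6, h⟩ := fc_elim h
  obtain ⟨s1, e7, h⟩ := fc_elim h
  obtain ⟨s2, e8, h⟩ := fc_elim h
  simp only [Bool.and_eq_true, Nat.ble_eq] at h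
  obtain ⟨⟨⟨⟨⟨k1, k2⟩, k3⟩, k4⟩, k5⟩, h⟩ := h
  refine ⟨s1, c1, s2, c2, fun A2 hA2 => ?_, h⟩
  have hV0 := fx_nonneg V0
  have hVV := hA.hV
  have hVp := hA.hV0
  have hWp : 0 < fx W := fx_pos k1
  have hp1p : 0 < fx p1 := fx_pos k2
  have ht2 : 0 < fx t2 := fx_pos k3
  have hi := hB.i1
  have hicl : 0 < fx icl := by linarith
  have hP0 := fx_nonneg p0
  have hP1 : fx p1 ≤ 1 := by rw [← fx_one]; exact fx_mono hA.p1s
  have hp01 : fx p0 ≤ fx p1 := hA.b0.trans hA.b1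
  have hp01n : p0 ≤ p1 := by
    by_contra hc
    push Not at hc
    have : fx p1 < fx p0 := by
      unfold fx
      have : (p1 : ℝ) < p0 := by exact_mod_cast hc
      gcongr
    linarith
  have hp0s : p0 ≤ SC := hp01n.trans hA.p1s
  have hok := hA.ok hB.s0 hB.s1 (by positivity : 0 < 1 / fx icl) hA2
  have hcp : fx cp ≤ 8 / 5 - 16 / 25 * fx p1 := by rw [e1]; exact c85_le hA.p1s
  have hcp0 : 0 < cp := by rw [e1]; exact c85_pos hA.p1s
  have hd : fx (p1 - p0) = fx p1 - fx p0 := by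
    have : fx p1 = fx (p1 - p0) + fx p0 := by rw [← fx_add]; congr 1; omega
    linarith
  have hd2 : (fx p1 - fx p0) ^ 2 / 2 ≤ fx d2 := by
    have h1 : (fx p1 - fx p0) ^ 2 ≤ fx (mU (p1 - p0) (p1 - p0)) :=
      sqU_le (by linarith) hd.ge
    have := rU_le (c := 1 / 2) (a := 1) (b := 2) (by norm_num) (by norm_num) h1 (by norm_num)
    rw [← e2] at this
    linarith
  have hq1 : 1 - fx p1 ^ 2 ≤ fx (SC - mL p1 p1) := oneSubU le_rfl
  have hb1 := bb_pos hB.s0 hB.s1 (fx_nonneg T1)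
  have h1p0 : 0 ≤ 1 - fx p0 ^ 2 := by nlinarith
  have h1p1 : 0 ≤ 1 - fx p1 ^ 2 := by nlinarith
  have hW0 : fx a1 * (2 * ph (fx p0)) + fx b1 * (2 * (1 - fx p0 ^ 2) + (fx p1 - fx p0) ^ 2 / 2) +
      fx b1 * (1487 / 3200 * fx T1 ^ 2) ≤ fx W := by
    rw [e3]
    exact W_sum (ph_le hp0s) (ph_nonneg hp0s) hA.hq hd2 hN.h3 (by positivity) (by positivity)
      (le_max_left _ _)
  have hW1 : fx a1 * (2 * ph (fx p1)) + fx b1 * (2 * (1 - fx p1 ^ 2) + (fx p1 - fx p0) ^ 2 / 2) +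
      fx b1 * (1487 / 3200 * fx T1 ^ 2) ≤ fx W := by
    rw [e3]
    refine W_sum (P := dU p1 cp) ?_ (ph_nonneg hA.p1s) hq1 hd2 hN.h3 (by positivity)
      (by positivity) (le_max_right _ _)
    rw [e1]
    exact ph_le hA.p1s
  have hNb : N0 (fx p0) * (2 + 1487 / 5000 * fx th1 ^ 2) * fx b1 /
      ((8 / 5 - 16 / 25 * fx p1) * (1 / fx icl)) ≤ fx (dU (mU (mU n0 be) (mU b1 icl)) cp) := by
    have hc0 : 0 < 8 / 5 - 16 / 25 * fx p1 := (fx_pos hcp0).trans_le hcp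
    have e : N0 (fx p0) * (2 + 1487 / 5000 * fx th1 ^ 2) * fx b1 /
      ((8 / 5 - 16 / 25 * fx p1) * (1 / fx icl)) = N0 (fx p0) * (2 + 1487 / 5000 * fx th1 ^ 2) *
        (fx b1 * fx icl) / (8 / 5 - 16 / 25 * fx p1) := by field_simp
    rw [e]
    refine divU (mulU (mulU hN.h1 hN.h2 (by positivity)) (mulU le_rfl le_rfl (fx_nonneg _))
      (mul_nonneg (fx_nonneg _) (fx_nonneg _))) hcp hcp0
  have hc1 : fx c1 ≤ 1 / fx W := by
    rw [e4]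
    have := dL_le SC W
    rwa [fx_one] at this
  have ht : fx t2 * fx a1 ≤ 1 := by
    have h1 : fx t2 ≤ 1 / fx a1 := by
      rw [e5]
      have := dL_le SC a1
      rwa [fx_one] at this
    rcases (fx_nonneg a1).eq_or_lt with h2 | h2
    · rw [← h2]
      norm_num
    · rwa [le_div_iff₀ h2] at h1
  have hc2 : fx c2 ≤ fx t2 * (4 / 5 / fx p1 - 8 / 25) := by
    rw [e6]
    refine mulL le_rfl (subL (divL ?_ le_rfl hp1p) ?_ ?_)
    · unfold fx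
      norm_num
    · unfold fx
      norm_num
    · unfold dL
      rw [Nat.le_div_iff_mul_le k2]
      exact Nat.mul_le_mul (by norm_num) hA.p1s
  have h16 : 16 / 5 ≤ 7 / 8 * (fx V0 * (fx t2 * (4 / 5 / fx p1 - 8 / 25))) := by
    have h1 : fx 3518437208884 ≤ fx (rL 7 8 (mL V0 c2)) := fx_mono k5
    have h2 : (16 : ℝ) / 5 ≤ fx 3518437208884 := by
      unfold fx
      norm_num
    have h3 : fx (rL 7 8 (mL V0 c2)) ≤ 7 / 8 * (fx V0 * fx c2) :=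
      rL_le (by norm_num) (by norm_num) (mL_le _ _) (by norm_num)
    have h4 := mul_le_mul_of_nonneg_left hc2 hV0
    linarith
  refine ⟨hx2_of hok hV0 hVV hA.b1 hP1 hA.hT1 hB.ha ht2 ht h16, ?_, ?_⟩
  · refine Bd.of (f := 1) (M := fx (dU (mU (mU n0 be) (mU b1 icl)) cp) / fx W)
      (c' := 1 / fx W) hVp.le (fun κ q1 q2 => ?_) (div_nonneg (fx_nonneg _) hWp.le) ?_ hc1
    · rw [mul_one]
      refine g1_le hok (by linarith) hP0 hA.b0 hA.b1 hP1 hA.hT1 hA.hth1 hB.ha hB.hb hW0 hW1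
        hNb ?_
      have := half_le hVV q1 hc1 k4
      calc (1 : ℝ) / 2 ≤ V * (κ * (1 / fx W)) := this
        _ = κ * V / fx W := by ring
    · rw [mul_one, e7]
      exact sqrtU (le_dU k1)
  · refine Bd.of (f := 141 / 50) (M := N0 (fx p0) * exp 1 / (2 * π * fx p1))
      (c' := fx t2 * (4 / 5 / fx p1 - 8 / 25)) hVp.le (fun κ q1 q2 => ?_) ?_ ?_ hc2
    · refine g2_le hok (by linarith) hVp hP0 hA.b0 hA.b1 hA.hT1 hB.ha ht2 ht ?_
      have h1 : 4 / 5 / fx p1 - 8 / 25 ≤ 4 / 5 / fx p1 := by linarith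
      have h2 : fx V0 * (fx t2 * (4 / 5 / fx p1 - 8 / 25)) ≤ V * (fx t2 * (4 / 5 / fx p1)) := by
        have : fx t2 * (4 / 5 / fx p1 - 8 / 25) ≤ fx t2 * (4 / 5 / fx p1) :=
          mul_le_mul_of_nonneg_left h1 ht2.le
        calc fx V0 * (fx t2 * (4 / 5 / fx p1 - 8 / 25)) ≤ fx V0 * (fx t2 * (4 / 5 / fx p1)) :=
              mul_le_mul_of_nonneg_left this hV0
          _ ≤ V * (fx t2 * (4 / 5 / fx p1)) := mul_le_mul_of_nonneg_right hVV (by positivity)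
      have h3 : κ * V * (fx t2 * (4 / 5)) / fx p1 = κ * (V * (fx t2 * (4 / 5 / fx p1))) := by
        field_simp
      rw [h3]
      have h4 : 7 / 8 * (V * (fx t2 * (4 / 5 / fx p1))) ≤ κ * (V * (fx t2 * (4 / 5 / fx p1))) :=
        mul_le_mul_of_nonneg_right q1 (by positivity)
      linarith
    · have := N0_pos hP0 (hp01.trans hP1)
      positivity
    · rw [e8, mul_comm]
      have hn0 := N0_pos hP0 (hp01.trans hP1)
      refine rU_le (by norm_num) (by norm_num) (sqrtU ?_) (by norm_num)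
      have e : N0 (fx p0) * exp 1 / (2 * π * fx p1) = N0 (fx p0) * (exp 1 / (2 * π)) / fx p1 := by
        field_simp
      rw [e]
      refine divU (mulU hN.h1 ?_ (by positivity)) le_rfl k2
      have h1 := Real.exp_one_lt_d9
      have h2 := Real.pi_gt_d6
      rw [div_le_iff₀ (by positivity)]
      have h3 : (43262 / 100000 : ℝ) ≤ fx 475681044300 := by unfold fx; norm_num
      have h4 : (432629 / 1000000 : ℝ) ≤ fx 475681044300 := by unfold fx; norm_num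
      nlinarith

end SokalCl
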