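import Pool.Agent.Lib_MP_af4de1_v3.ClF

/-!
# Far waves with `Γ ≥ 10`, VII: fixed point evaluation of one cell, right zones and totals
-/

set_option autoImplicit false

namespace SokalCl

open Real SokalFN SokalCel

theorem fx_lt {m n : ℕ} (h : m < n) : fx m < fx n := by
  unfold fx
  have : (m : ℝ) < n := by exact_mod_cast h
  gcongr

/-! ## right zones, common part -/

/-- facts of the first right stage -/
structure FC (p θ u : ℝ) (A2 r1 s4 : ℕ) : Prop where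
  a0 : 0 < A2
  a1 : fx A2 ≤ (8 / 5 - 16 / 25 * gam (min 1 (4 / 5 * √(1 - p ^ 2) * u)) * p) *
    min 1 (1 / (4 / 5 * √(1 - p ^ 2) * u))
  r0 : 0 < r1
  r1 : θ / u ≤ fx r1
  s0 : 0 < s4
  s1 : fx s4 ≤ u / θ

def okC1 (p1 sp0 th1 thl : ℕ) (k : ℕ → ℕ → ℕ → Bool) : Bool :=
  fc (mU (6908436066480 - thl) (rU 4 5 sp0)) fun T3 =>
  fc (min SC T3) fun mn =>
  fc (SC + rU 1 3 mn + rU 5 48 (mU mn mn)) fun g =>
  fc (dL (1759218604441 - mU (rU 16 25 g) p1) (max SC T3)) fun A2 =>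
  fc (6908433867456 - th1) fun uL =>
  fc (dU th1 uL) fun r1 =>
  fc (dL uL th1) fun s4 =>
    Nat.ble 1 A2 && Nat.ble 1 uL && Nat.ble 1 s4 && k A2 r1 s4

theorem fx_tpu : 2 * π ≤ fx 6908436066480 := by
  have := Real.pi_lt_d6
  have h : (6.283186 : ℝ) ≤ fx 6908436066480 := by unfold fx; norm_num
  linarith

theorem fx_tpl : fx 6908433867456 ≤ 2 * π := by
  have := Real.pi_gt_d6
  have h : fx 6908433867456 ≤ (6.283184 : ℝ) := by unfold fx; norm_num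
  linarith

theorem okC1_sound {p T τ θ u V : ℝ} {p0 p1 t1 q0 sp0 T1 th1 thl V0 L : ℕ}
    {k : ℕ → ℕ → ℕ → Bool} (hA : FA p T τ θ u V p0 p1 t1 q0 sp0 T1 th1 thl V0 L)
    (h : okC1 p1 sp0 th1 thl k = true) :
    ∃ A2 r1 s4 : ℕ, FC p θ u A2 r1 s4 ∧ k A2 r1 s4 = true := by
  unfold okC1 at h
  obtain ⟨T3, e1, h⟩ := fc_elim h
  obtain ⟨mn, e2, h⟩ := fc_elim h
  obtain ⟨g, e3, h⟩ := fc_elim h
  obtain ⟨A2, e4, h⟩ := fc_elim h
  obtain ⟨uL, e5, h⟩ := fc_elim h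
  obtain ⟨r1, e6, h⟩ := fc_elim h
  obtain ⟨s4, e7, h⟩ := fc_elim h
  simp only [Bool.and_eq_true, Nat.ble_eq] at h
  obtain ⟨⟨⟨k1, k2⟩, k3⟩, h⟩ := h
  have hp := hA.hp
  have hp1 := hA.hp1
  have hu0 := hA.hu0
  have hq : 0 < 1 - p ^ 2 := by nlinarith
  have hS : 0 < √(1 - p ^ 2) := Real.sqrt_pos.2 hq
  obtain ⟨X, hX⟩ : ∃ X, X = 4 / 5 * √(1 - p ^ 2) * u := ⟨_, rfl⟩
  have hX0 : 0 < X := by rw [hX]; positivity
  have huU : u ≤ fx (6908436066480 - thl) := by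
    rw [hA.hu]
    exact subU fx_tpu hA.hthl
  have huL : fx uL ≤ u := by
    rw [e5, hA.hu]
    refine subL fx_tpl hA.hth1 ?_
    rw [e5] at k2
    omega
  have hXT : X ≤ fx T3 := by
    have : X = u * (4 / 5 * √(1 - p ^ 2)) := by rw [hX]; ring
    rw [this, e1]
    exact mulU huU (rU_le (by norm_num) (by norm_num) hA.hsp (by norm_num)) (by positivity)
  have hmn : min 1 X ≤ fx mn := by
    rw [e2]
    exact minU fx_one.ge hXT
  have hm0 : 0 ≤ min 1 X := le_min zero_le_one hX0.le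
  have hg : gam (min 1 X) ≤ fx g := by
    rw [e3]
    unfold gam
    have h1 := rU_le (c := 1 / 3) (a := 1) (b := 3) (by norm_num) (by norm_num) hmn (by norm_num)
    have h2 := rU_le (c := 5 / 48) (a := 5) (b := 48) (by norm_num) (by norm_num)
      (sqU_le hm0 hmn) (by norm_num)
    have h3 := addU (addU fx_one.ge h1) h2
    refine le_trans (le_of_eq ?_) h3
    ring
  have hg1 := gam_ge hm0
  have hM : mU (rU 16 25 g) p1 ≤ 1759218604441 := by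
    by_contra hc
    push Not at hc
    have h0 : 1759218604441 - mU (rU 16 25 g) p1 = 0 := Nat.sub_eq_zero_of_le hc.le
    rw [h0] at e4
    unfold dL at e4
    simp only [zero_mul, Nat.zero_div] at e4
    omega
  have hM' : fx (1759218604441 - mU (rU 16 25 g) p1) ≤ 8 / 5 - 16 / 25 * gam (min 1 X) * p :=
    subL fx_85 (mulU (rU_le (by norm_num) (by norm_num) hg (by norm_num)) hA.b1 hp.le) hM
  have hicl : fx (max SC T3) = max 1 (fx T3) := by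
    rcases le_total SC T3 with hc | hc
    · have : 1 ≤ fx T3 := by rw [← fx_one]; exact fx_mono hc
      rw [max_eq_right hc, max_eq_right this]
    · have : fx T3 ≤ 1 := by rw [← fx_one]; exact fx_mono hc
      rw [max_eq_left hc, max_eq_left this, fx_one]
  have hmax : 1 ≤ max 1 (fx T3) := le_max_left _ _
  have hmaxX : X ≤ max 1 (fx T3) := hXT.trans (le_max_right _ _)
  have hA2 : fx A2 ≤ (8 / 5 - 16 / 25 * gam (min 1 X) * p) * min 1 (1 / X) := by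
    have h1 : fx A2 ≤ fx (1759218604441 - mU (rU 16 25 g) p1) / max 1 (fx T3) := by
      rw [e4, ← hicl]
      exact dL_le _ _
    have h0 := fx_nonneg (1759218604441 - mU (rU 16 25 g) p1)
    have h2 : 1 / max 1 (fx T3) ≤ min 1 (1 / X) := by
      refine le_min ?_ ?_
      · rw [div_le_one (by linarith)]
        exact hmax
      · exact one_div_le_one_div_of_le hX0 hmaxX
    calc fx A2 ≤ fx (1759218604441 - mU (rU 16 25 g) p1) / max 1 (fx T3) := h1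
      _ = fx (1759218604441 - mU (rU 16 25 g) p1) * (1 / max 1 (fx T3)) := by ring
      _ ≤ _ := mul_le_mul hM' h2 (by positivity) (h0.trans hM')
  refine ⟨A2, r1, s4, ⟨k1, ?_, ?_, ?_, k3, ?_⟩, h⟩
  · rw [hX] at hA2
    exact hA2
  · rw [e6]
    exact Nat.succ_pos _
  · rw [e6]
    exact divU hA.hth1 huL k2
  · rw [e7]
    exact divL huL hA.hth1 hA.hθ

/-! ## right zones, general -/

def okC2 (p1 q0 V0 n0 be tt A2 r1 s4p : ℕ) (k : ℕ → ℕ → ℕ → ℕ → Bool) : Bool :=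
  fc (dU (mU (mU r1 r1) (2 * p1)) A2 + 2 * q0 + tt) fun Z =>
  fc (dL SC Z) fun c3 =>
  fc (dL (mL (mL s4p s4p) A2) (2 * p1)) fun c4 =>
  fc (sqU (dU (dU (mU n0 be) A2) Z)) fun s3 =>
  fc (rU 141 50 (sqU (dU (mU n0 174992746955) p1))) fun s4 =>
    Nat.ble 1 Z && Nat.ble 1 p1 && Nat.ble 549755813888 (mL V0 (rL 7 8 c3)) &&
      Nat.ble 3518437208884 (rL 7 8 (mL V0 c4)) && k s3 c3 s4 c4

theorem fx_2p : 1 / (2 * π) ≤ fx 174992746955 := by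
  have h1 := Real.pi_gt_d6
  have h : 1 ≤ fx 174992746955 * (2 * 3.141592) := by unfold fx; norm_num
  rw [div_le_iff₀ (by positivity)]
  have h2 := mul_le_mul_of_nonneg_left (by linarith : (2 : ℝ) * 3.141592 ≤ 2 * π)
    (fx_nonneg 174992746955)
  linarith

/-- the right tail -/
theorem tail_bd {p T τ θ u V σ cl c k4 : ℝ} {p0 p1 t1 q0 sp0 T1 th1 thl V0 L n0 be tt A2 r1 s4p c4 s4 : ℕ}
    (hA : FA p T τ θ u V p0 p1 t1 q0 sp0 T1 th1 thl V0 L) (hN : FN p0 T1 th1 n0 be tt)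
    (hC : FC p θ u A2 r1 s4p) (s0 : 0 ≤ σ) (s1 : σ ≤ 1) (c0 : 0 < cl) (hp1 : 0 < p1)
    (hc4 : c4 = dL (mL (mL s4p s4p) A2) (2 * p1)) (hk4 : 1 / 2 ≤ k4)
    (h4 : k4 ≤ 7 / 8 * (fx V0 * fx c4)) (hc : 0 ≤ c)
    (hs : c * fx (sqU (dU (mU n0 174992746955) p1)) ≤ fx s4) :
    k4 ≤ 7 / 8 * (V * ((u / θ) ^ 2 * fx A2 / (2 * p))) ∧
    Bd (fun κ => √(N0 p / (2 * π * κ * p)) * c * exp (-(κ * V * ((u / θ) ^ 2 * fx A2 / (2 * p)))))
      V s4 c4 := by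
  have hV0 := fx_nonneg V0
  have hVV := hA.hV
  have hVp := hA.hV0
  have hA2 : 0 < fx A2 := fx_pos hC.a0
  have hs4 : 0 < fx s4p := fx_pos hC.s0
  have hp1p : 0 < fx p1 := fx_pos hp1
  have hP0 := fx_nonneg p0
  have hP1 : fx p1 ≤ 1 := by rw [← fx_one]; exact fx_mono hA.p1s
  have hp01 : fx p0 ≤ fx p1 := hA.b0.trans hA.b1
  have hok := hA.ok s0 s1 c0 hA2
  have hc4' : fx c4 ≤ fx s4p ^ 2 * fx A2 / (2 * fx p1) := by
    rw [hc4]
    refine divL (mulL (sqL_le le_rfl) le_rfl) ?_ (by positivity)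
    rw [fx_two]
  have h16 : k4 ≤ 7 / 8 * (fx V0 * (fx s4p ^ 2 * fx A2 / (2 * fx p1))) := by
    have := mul_le_mul_of_nonneg_left hc4' hV0
    linarith
  refine ⟨hx4_of hok hV0 hVV hA.b1 hs4 hC.s1 h16, ?_⟩
  have hn0 := N0_pos hP0 (hp01.trans hP1)
  refine Bd.of (f := c) (M := N0 (fx p0) / (2 * π * fx p1))
      (c' := fx s4p ^ 2 * fx A2 / (2 * fx p1)) hVp.le (fun κ q1 q2 => ?_) (by positivity) ?_ hc4'
  · have := g4_le' (κ := κ) hok (by linarith) hVp hP0 hA.b0 hA.b1 hs4 hC.s1 hc ?_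
    · exact this
    · have h1 : fx V0 * (fx s4p ^ 2 * fx A2 / (2 * fx p1)) ≤
          V * (fx s4p ^ 2 * fx A2 / (2 * fx p1)) := mul_le_mul_of_nonneg_right hVV (by positivity)
      have h2 : 7 / 8 * (V * (fx s4p ^ 2 * fx A2 / (2 * fx p1))) ≤
          κ * (V * (fx s4p ^ 2 * fx A2 / (2 * fx p1))) :=
        mul_le_mul_of_nonneg_right q1 (by positivity)
      have h3 : κ * V * (fx s4p ^ 2 * fx A2 / 2) / fx p1 =
          κ * (V * (fx s4p ^ 2 * fx A2 / (2 * fx p1))) := by field_simp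
      show 1 / 2 ≤ κ * V * (fx s4p ^ 2 * fx A2 / 2) / fx p1
      rw [h3]
      linarith
  · refine le_trans ?_ hs
    rw [mul_comm]
    refine mul_le_mul_of_nonneg_left (sqrtU ?_) hc
    have e : N0 (fx p0) / (2 * π * fx p1) = N0 (fx p0) * (1 / (2 * π)) / fx p1 := by
      field_simp
    rw [e]
    exact divU (mulU hN.h1 fx_2p (by positivity)) le_rfl hp1

theorem okC2_sound {p T τ θ u V : ℝ}
    {p0 p1 t1 q0 sp0 T1 th1 thl V0 L n0 be tt A2 r1 s4p : ℕ} {k : ℕ → ℕ → ℕ → ℕ → Bool}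
    (hA : FA p T τ θ u V p0 p1 t1 q0 sp0 T1 th1 thl V0 L) (hN : FN p0 T1 th1 n0 be tt)
    (hC : FC p θ u A2 r1 s4p) (h : okC2 p1 q0 V0 n0 be tt A2 r1 s4p k = true) :
    ∃ s3 c3 s4 c4 : ℕ, (∀ σ cl : ℝ, 0 ≤ σ → σ ≤ 1 → 0 < cl →
      16 / 5 ≤ 7 / 8 * (V * ((u / θ) ^ 2 * fx A2 / (2 * p))) ∧
      Bd (g3 ⟨p, T, θ, u, V, σ, cl, fx A2⟩) V s3 c3 ∧
      Bd (g4 ⟨p, T, θ, u, V, σ, cl, fx A2⟩) V s4 c4) ∧ k s3 c3 s4 c4 = true := by
  unfold okC2 at h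
  obtain ⟨Z, e1, h⟩ := fc_elim h
  obtain ⟨c3, e2, h⟩ := fc_elim h
  obtain ⟨c4, e3, h⟩ := fc_elim h
  obtain ⟨s3, e4, h⟩ := fc_elim h
  obtain ⟨s4, e5, h⟩ := fc_elim h
  simp only [Bool.and_eq_true, Nat.ble_eq] at h
  obtain ⟨⟨⟨⟨k1, k2⟩, k3⟩, k4⟩, h⟩ := h
  refine ⟨s3, c3, s4, c4, fun σ cl s0 s1 c0 => ?_, h⟩
  have hV0 := fx_nonneg V0
  have hVV := hA.hV
  have hVp := hA.hV0
  have hA2 : 0 < fx A2 := fx_pos hC.a0
  have hZp : 0 < fx Z := fx_pos k1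
  have hp1p : 0 < fx p1 := fx_pos k2
  have hP0 := fx_nonneg p0
  have hP1 : fx p1 ≤ 1 := by rw [← fx_one]; exact fx_mono hA.p1s
  have hp01 : fx p0 ≤ fx p1 := hA.b0.trans hA.b1
  have hn0 := N0_pos hP0 (hp01.trans hP1)
  have hok := hA.ok s0 s1 c0 hA2
  have h4 : 16 / 5 ≤ 7 / 8 * (fx V0 * fx c4) := by
    have h1 : fx 3518437208884 ≤ fx (rL 7 8 (mL V0 c4)) := fx_mono k4
    have h2 : (16 : ℝ) / 5 ≤ fx 3518437208884 := by
      unfold fx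
      norm_num
    have h3 : fx (rL 7 8 (mL V0 c4)) ≤ 7 / 8 * (fx V0 * fx c4) :=
      rL_le (by norm_num) (by norm_num) (mL_le _ _) (by norm_num)
    linarith
  have ht := tail_bd (σ := σ) (cl := cl) (c := 141 / 50) hA hN hC s0 s1 c0 k2 e3 (by norm_num) h4
    (by norm_num) (s4 := s4) (by
      rw [e5]
      exact rU_le (by norm_num) (by norm_num) le_rfl (by norm_num))
  refine ⟨ht.1, ?_, ht.2⟩
  have hZ : fx r1 ^ 2 * (2 * fx p1 / fx A2) + 2 * (1 - fx p0 ^ 2) + 1487 / 3200 * fx T1 ^ 2 ≤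
      fx Z := by
    rw [e1]
    refine addU (addU ?_ ?_) hN.h3
    · have e : fx r1 ^ 2 * (2 * fx p1 / fx A2) = fx r1 ^ 2 * (2 * fx p1) / fx A2 := by ring
      rw [e]
      refine divU (mulU (sqU_le (fx_nonneg _) le_rfl) ?_ (by positivity)) le_rfl hC.a0
      rw [fx_two]
    · rw [fx_two]
      exact mul_le_mul_of_nonneg_left hA.hq (by norm_num)
  have hc3 : fx c3 ≤ 1 / fx Z := by
    rw [e2]
    have := dL_le SC Z
    rwa [fx_one] at this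
  refine Bd.of (f := 1) (M := fx (dU (mU n0 be) A2) / fx Z)
      (c' := 1 / fx Z) hVp.le (fun κ q1 q2 => ?_) (div_nonneg (fx_nonneg _) hZp.le) ?_ hc3
  · rw [mul_one]
    refine g3_le hok (by linarith) hP0 hA.b0 hA.b1 hA.hT1 hA.hth1 hC.r1 hZ ?_ ?_
    · exact divU (mulU hN.h1 hN.h2 (by positivity)) le_rfl hC.a0
    · have := half_le hVV q1 hc3 k3
      calc (1 : ℝ) / 2 ≤ V * (κ * (1 / fx Z)) := this
        _ = κ * V / fx Z := by ring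
  · rw [mul_one, e4]
    exact sqrtU (le_dU k1)

/-! ## right zones, window form -/

def okC3 (p0 p1 q0 th1 V0 n0 A2 r1 s4p : ℕ) (k : ℕ → ℕ → ℕ → ℕ → ℕ → ℕ → Bool) : Bool :=
  fc (dU (2 * SC) A2) fun i2 =>
  fc (rU 1 4 (mU (p1 - p0) (p1 - p0))) fun d4 =>
  fc (max (mU i2 p0 + rU 25 11 (q0 + d4)) (mU i2 p1 + rU 25 11 (SC - mL p1 p1 + d4))) fun Z =>
  fc (dL SC (mU (mU r1 r1) Z)) fun c3 =>
  fc (dL (mL (mL s4p s4p) A2) (2 * p1)) fun c4 =>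
  fc (dL 696650567358 (mU (mU th1 th1) q0)) fun c5 =>
  fc (sqU (dU (rU 25 11 (dU n0 A2)) Z)) fun s3 =>
  fc (rU 27 20 (sqU (dU (mU n0 174992746955) p1))) fun s4 =>
  fc (rU 1 2 (sqU (dU n0 (mL (SC - mU p0 p0) A2)))) fun s5 =>
    Nat.ble 1 Z && Nat.ble 1 p1 && Nat.ble (p0 + 1) SC && Nat.ble 1 (mL (SC - mU p0 p0) A2) &&
      Nat.ble 549755813888 (mL V0 (rL 7 8 c3)) && Nat.ble 549755813888 (mL V0 (rL 7 8 c5)) &&
      Nat.ble 7036874417767 (rL 7 8 (mL V0 c4)) && k s3 c3 s4 c4 s5 c5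

/-- sum of two bounds -/
def Bd2 (g : ℝ → ℝ) (V : ℝ) (s c s' c' : ℕ) : Prop :=
  ∃ a b : ℝ → ℝ, (∀ κ, 7 / 8 ≤ κ → κ ≤ 1 → g κ ≤ a κ + b κ) ∧ Bd a V s c ∧ Bd b V s' c'

theorem okC3_sound {p T τ θ u V : ℝ}
    {p0 p1 t1 q0 sp0 T1 th1 thl V0 L n0 be tt A2 r1 s4p : ℕ}
    {k : ℕ → ℕ → ℕ → ℕ → ℕ → ℕ → Bool}
    (hA : FA p T τ θ u V p0 p1 t1 q0 sp0 T1 th1 thl V0 L) (hN : FN p0 T1 th1 n0 be tt)
    (hC : FC p θ u A2 r1 s4p) (h : okC3 p0 p1 q0 th1 V0 n0 A2 r1 s4p k = true) :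
    ∃ s3 c3 s4 c4 s5 c5 : ℕ, (∀ σ cl : ℝ, 0 ≤ σ → σ ≤ 1 → 0 < cl →
      32 / 5 ≤ 7 / 8 * (V * ((u / θ) ^ 2 * fx A2 / (2 * p))) ∧
      Bd2 (g3h ⟨p, T, θ, u, V, σ, cl, fx A2⟩) V s3 c3 s5 c5 ∧
      Bd (g4h ⟨p, T, θ, u, V, σ, cl, fx A2⟩) V s4 c4) ∧ k s3 c3 s4 c4 s5 c5 = true := by
  unfold okC3 at h
  obtain ⟨i2, e1, h⟩ := fc_elim h
  obtain ⟨d4, e2, h⟩ := fc_elim h
  obtain ⟨Z, e3, h⟩ := fc_elim h
  obtain ⟨c3, e4, h⟩ := fc_elim h
  obtain ⟨c4, e5, h⟩ := fc_elim h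
  obtain ⟨c5, e6, h⟩ := fc_elim h
  obtain ⟨s3, e7, h⟩ := fc_elim h
  obtain ⟨s4, e8, h⟩ := fc_elim h
  obtain ⟨s5, e9, h⟩ := fc_elim h
  simp only [Bool.and_eq_true, Nat.ble_eq] at h
  obtain ⟨⟨⟨⟨⟨⟨⟨k1, k2⟩, k3⟩, k4⟩, k5⟩, k6⟩, k7⟩, h⟩ := h
  refine ⟨s3, c3, s4, c4, s5, c5, fun σ cl s0 s1 c0 => ?_, h⟩
  have hV0 := fx_nonneg V0
  have hVV := hA.hV
  have hVp := hA.hV0
  have hA2 : 0 < fx A2 := fx_pos hC.a0
  have hZp : 0 < fx Z := fx_pos k1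
  have hp1p : 0 < fx p1 := fx_pos k2
  have hr0 : 0 < fx r1 := fx_pos hC.r0
  have hP0 := fx_nonneg p0
  have hP0' : fx p0 < 1 := by
    rw [← fx_one]
    exact fx_lt (by omega)
  have hP1 : fx p1 ≤ 1 := by rw [← fx_one]; exact fx_mono hA.p1s
  have hp01 : fx p0 ≤ fx p1 := hA.b0.trans hA.b1
  have hp01n : p0 ≤ p1 := by
    by_contra hc
    push Not at hc
    have := fx_lt hc
    linarith
  have hn0 := N0_pos hP0 (hp01.trans hP1)
  have hok := hA.ok s0 s1 c0 hA2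
  have hq0 : 0 < 1 - fx p0 ^ 2 := by nlinarith
  have h4 : 32 / 5 ≤ 7 / 8 * (fx V0 * fx c4) := by
    have h1 : fx 7036874417767 ≤ fx (rL 7 8 (mL V0 c4)) := fx_mono k7
    have h2 : (32 : ℝ) / 5 ≤ fx 7036874417767 := by
      unfold fx
      norm_num
    have h3 : fx (rL 7 8 (mL V0 c4)) ≤ 7 / 8 * (fx V0 * fx c4) :=
      rL_le (by norm_num) (by norm_num) (mL_le _ _) (by norm_num)
    linarith
  have ht := tail_bd (σ := σ) (cl := cl) (c := 27 / 20) hA hN hC s0 s1 c0 k2 e5 (by norm_num) h4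
    (by norm_num) (s4 := s4) (by
      rw [e8]
      exact rU_le (by norm_num) (by norm_num) le_rfl (by norm_num))
  refine ⟨ht.1, ?_, ht.2⟩
  have hd : fx (p1 - p0) = fx p1 - fx p0 := by
    have : fx p1 = fx (p1 - p0) + fx p0 := by rw [← fx_add]; congr 1; omega
    linarith
  have hd4 : (fx p1 - fx p0) ^ 2 / 4 ≤ fx d4 := by
    have h1 : (fx p1 - fx p0) ^ 2 ≤ fx (mU (p1 - p0) (p1 - p0)) :=
      sqU_le (by linarith) hd.ge
    have := rU_le (c := 1 / 4) (a := 1) (b := 4) (by norm_num) (by norm_num) h1 (by norm_num)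
    rw [← e2] at this
    linarith
  have hi2 : 2 / fx A2 ≤ fx i2 := by
    rw [e1]
    refine divU ?_ le_rfl hC.a0
    rw [fx_two, fx_one, mul_one]
  have hZ0 : 2 / fx A2 * fx p0 + 25 / 11 * (1 - fx p0 ^ 2 + (fx p1 - fx p0) ^ 2 / 4) ≤ fx Z := by
    rw [e3]
    refine le_trans ?_ (fx_mono (le_max_left _ _))
    exact addU (mulU hi2 le_rfl (fx_nonneg _)) (rU_le (by norm_num) (by norm_num)
      (addU hA.hq hd4) (by norm_num))
  have hZ1 : 2 / fx A2 * fx p1 + 25 / 11 * (1 - fx p1 ^ 2 + (fx p1 - fx p0) ^ 2 / 4) ≤ fx Z := by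
    rw [e3]
    refine le_trans ?_ (fx_mono (le_max_right _ _))
    exact addU (mulU hi2 le_rfl (fx_nonneg _)) (rU_le (by norm_num) (by norm_num)
      (addU (oneSubU le_rfl) hd4) (by norm_num))
  have hc3 : fx c3 ≤ 1 / fx r1 ^ 2 / fx Z := by
    rw [e4, div_div]
    exact divL fx_one.le (mulU (sqU_le (fx_nonneg _) le_rfl) le_rfl (fx_nonneg _)) (by positivity)
  have hth0 : 0 < fx th1 := hA.hθ.trans_le hA.hth1
  have hc5 : fx c5 ≤ 396 / 625 / fx th1 ^ 2 / (1 - fx p0 ^ 2) := by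
    rw [e6, div_div]
    refine divL ?_ (mulU (sqU_le (fx_nonneg _) le_rfl) hA.hq hq0.le) (by positivity)
    unfold fx
    norm_num
  refine ⟨fun κ => √(fx (rU 25 11 (dU n0 A2)) / fx Z / κ) *
      exp (-(V * (κ * (1 / fx r1 ^ 2 / fx Z)))),
    fun κ => √(fx (dU n0 (mL (SC - mU p0 p0) A2)) / κ) / 2 *
      exp (-(V * (κ * (396 / 625 / fx th1 ^ 2 / (1 - fx p0 ^ 2))))), fun κ q1 q2 => ?_, ?_, ?_⟩
  · have hh := half_le hVV q1 hc3 k5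
    have hh' := half_le hVV q1 hc5 k6
    refine g3h_le (x := ⟨p, T, θ, u, V, σ, cl, fx A2⟩) hok (by linarith) hVp hP0 hA.b0 hA.b1
      hP0' hA.hth1 hr0 hC.r1 hZ0 hZ1 ?_ ?_ rfl ?_ ?_
    · have e : N0 (fx p0) / (fx A2 * (11 / 25)) = 25 / 11 * (N0 (fx p0) / fx A2) := by
        field_simp
      show N0 (fx p0) / (fx A2 * (11 / 25)) ≤ _
      rw [e]
      exact rU_le (by norm_num) (by norm_num) (divU hN.h1 le_rfl hC.a0) (by norm_num)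
    · show N0 (fx p0) / ((1 - fx p0 ^ 2) * fx A2) ≤ _
      refine divU hN.h1 (mulL ?_ le_rfl) k4
      exact oneSubL hP0 le_rfl (by omega)
    · show 1 / 2 ≤ κ * V * (1 / fx r1 ^ 2) / fx Z
      calc (1 : ℝ) / 2 ≤ V * (κ * (1 / fx r1 ^ 2 / fx Z)) := hh
        _ = _ := by ring
    · show 1 / 2 ≤ κ * V * (396 / 625 / fx th1 ^ 2) / (1 - fx p0 ^ 2)
      calc (1 : ℝ) / 2 ≤ V * (κ * (396 / 625 / fx th1 ^ 2 / (1 - fx p0 ^ 2))) := hh'
        _ = _ := by ring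
  · refine Bd.of (f := 1) (M := fx (rU 25 11 (dU n0 A2)) / fx Z)
      (c' := 1 / fx r1 ^ 2 / fx Z) hVp.le (fun κ q1 q2 => ?_) (div_nonneg (fx_nonneg _) hZp.le) ?_ hc3
    · rw [mul_one]
    · rw [mul_one, e7]
      exact sqrtU (le_dU k1)
  · refine Bd.of (f := 1 / 2) (M := fx (dU n0 (mL (SC - mU p0 p0) A2)))
      (c' := 396 / 625 / fx th1 ^ 2 / (1 - fx p0 ^ 2)) hVp.le (fun κ q1 q2 => ?_)
      (fx_nonneg _) ?_ hc5
    · refine le_of_eq ?_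
      ring
    · rw [e9, mul_comm]
      exact rU_le (by norm_num) (by norm_num) (sqrtU le_rfl) (by norm_num)

end SokalCl
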