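import Pool.Agent.Lib_MP_af4de1_v3.ClD
import Pool.Agent.Lib_MP_af4de1_v3.ClG

/-!
# Far waves with `Γ ≥ 10`, VIII: one cell
-/

set_option autoImplicit false

namespace SokalCl

open Real SokalFN SokalCel

/-! ## a point -/

/-- facts about a point; `vt` bounds the angle -/
structure PTs (vt p T τ θ u V : ℝ) : Prop where
  hp : 0 < p
  hp1 : p < 1
  hT : 0 < T
  hθ : 0 < θ
  hu : u = 2 * π - θ
  hu0 : 0 < u
  hπ : θ ≤ π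
  e : θ ^ 2 * (1 - p ^ 2) = 25 / 16 * T ^ 2
  τ0 : 0 ≤ τ
  hv : θ ≤ (1 + τ) * vt
  V1 : 10 * (1 + τ) ^ 2 ≤ V
  V2 : 2495 / 32 * T ^ 2 ≤ V

theorem PTs.V0 {vt p T τ θ u V : ℝ} (h : PTs vt p T τ θ u V) : 0 < V := by
  have := h.V1
  have := h.τ0
  have : 0 < 10 * (1 + τ) ^ 2 := by positivity
  linarith

theorem PTs.S {vt p T τ θ u V : ℝ} (h : PTs vt p T τ θ u V) :
    0 < √(1 - p ^ 2) ∧ θ * √(1 - p ^ 2) = 5 / 4 * T := by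
  have hp := h.hp
  have hp1 := h.hp1
  have hq : 0 < 1 - p ^ 2 := by nlinarith
  have hS := Real.sqrt_pos.2 hq
  refine ⟨hS, ?_⟩
  have h2 : √(1 - p ^ 2) ^ 2 = 1 - p ^ 2 := Real.sq_sqrt hq.le
  have h3 : (θ * √(1 - p ^ 2)) ^ 2 = (5 / 4 * T) ^ 2 := by
    rw [mul_pow, h2, h.e]
    ring
  have hθ := h.hθ
  have hT := h.hT
  exact (sq_eq_sq₀ (by positivity) (by positivity)).1 h3

/-- the two lower bounds of `V` -/
theorem V_le {vt p T τ θ u V : ℝ} {T0 t0 : ℕ} (h : PTs vt p T τ θ u V) (hT : fx T0 ≤ T)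
    (ht : fx t0 ≤ τ) :
    fx (max (10 * mL (SC + t0) (SC + t0)) (rL 2495 32 (mL T0 T0))) ≤ V := by
  rcases max_choice (10 * mL (SC + t0) (SC + t0)) (rL 2495 32 (mL T0 T0)) with hc | hc <;> rw [hc]
  · refine le_trans ?_ h.V1
    rw [fx_mul]
    have := sqL_le (addL fx_one.le ht)
    push_cast
    linarith
  · exact (rL_le (by norm_num) (by norm_num) (sqL_le hT) (by norm_num)).trans h.V2

/-- the level -/
theorem L_le {τ : ℝ} {t1 : ℕ} (h0 : 0 ≤ τ) (h1 : τ ≤ fx t1) :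
    3 / 5 * (τ / (1 + τ)) ^ 2 ≤ fx (rU 3 5 (mU (dU t1 (SC + t1)) (dU t1 (SC + t1)))) := by
  have h2 : τ / (1 + τ) ≤ fx (dU t1 (SC + t1)) := by
    have h3 : τ / (1 + τ) ≤ fx t1 / (1 + fx t1) := by
      rw [div_le_div_iff₀ (by linarith) (by linarith)]
      nlinarith
    refine h3.trans (divU le_rfl ?_ ?_)
    · rw [fx_add, fx_one]
    · unfold SC
      omega
  exact rU_le (by norm_num) (by norm_num) (sqU_le (by positivity) h2) (by norm_num)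

theorem q_le {p : ℝ} {p0 q0 : ℕ} (hp : fx p0 ≤ p) (hq : 1 - fx p0 ^ 2 ≤ fx q0) :
    √(1 - p ^ 2) ≤ fx (sqU q0) := by
  refine sqrtU (le_trans ?_ hq)
  have := pow_le_pow_left₀ (fx_nonneg p0) hp 2
  linarith

/-! ## stage A, general -/

def okA (vt p0 p1 T0 T1 t0 t1 : ℕ) (k : ℕ → ℕ → ℕ → ℕ → ℕ → ℕ → Bool) : Bool :=
  fc (SC - mL p0 p0) fun q0 =>
  fc (sqU q0) fun sp0 =>
  fc (mU (SC + t1) vt) fun thm =>
  Nat.ble (mU thm sp0 + 1) (rL 5 4 T0) ||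
  (Nat.ble p1 SC && fc (sqL (SC - mU p1 p1)) fun sp1 =>
  fc (bif Nat.beq sp1 0 then thm else min (dU (rU 5 4 T1) sp1) thm) fun th1 =>
  fc (dL (rL 5 4 T0) sp0) fun thl =>
  fc (max (10 * mL (SC + t0) (SC + t0)) (rL 2495 32 (mL T0 T0))) fun V0 =>
  fc (dU t1 (SC + t1)) fun x =>
  fc (rU 3 5 (mU x x)) fun L => k q0 sp0 th1 thl V0 L)

theorem okA_sound {vt : ℕ} {p T τ θ u V : ℝ} {p0 p1 T0 T1 t0 t1 : ℕ}
    {k : ℕ → ℕ → ℕ → ℕ → ℕ → ℕ → Bool} (h : okA vt p0 p1 T0 T1 t0 t1 k = true)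
    (hP : PTs (fx vt) p T τ θ u V) (b0 : fx p0 ≤ p) (b1 : p ≤ fx p1) (b2 : fx T0 ≤ T)
    (b3 : T ≤ fx T1) (b4 : fx t0 ≤ τ) (b5 : τ ≤ fx t1) :
    ∃ q0 sp0 th1 thl V0 L : ℕ, FA p T τ θ u V p0 p1 t1 q0 sp0 T1 th1 thl V0 L ∧
      k q0 sp0 th1 thl V0 L = true := by
  unfold okA at h
  obtain ⟨q0, e1, h⟩ := fc_elim h
  obtain ⟨sp0, e2, h⟩ := fc_elim h
  obtain ⟨thm, e3, h⟩ := fc_elim h
  obtain ⟨hS, hθS⟩ := hP.S
  have hθ := hP.hθ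
  have hq : 1 - fx p0 ^ 2 ≤ fx q0 := by
    rw [e1]
    exact oneSubU le_rfl
  have hsp : √(1 - p ^ 2) ≤ fx sp0 := by
    rw [e2]
    exact q_le b0 hq
  have hthm : θ ≤ fx thm := by
    refine hP.hv.trans ?_
    rw [e3]
    exact mulU (addU fx_one.ge b5) le_rfl (fx_nonneg _)
  have hT0' : fx (rL 5 4 T0) ≤ 5 / 4 * T :=
    rL_le (by norm_num) (by norm_num) b2 (by norm_num)
  rw [Bool.or_eq_true] at h
  rcases h with h | h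
  · exfalso
    rw [Nat.ble_eq] at h
    have h1 : fx (mU thm sp0) < fx (rL 5 4 T0) := fx_lt (by omega)
    have h2 := mulU hthm hsp hS.le
    linarith
  · rw [Bool.and_eq_true] at h
    obtain ⟨hp1, h⟩ := h
    rw [Nat.ble_eq] at hp1
    obtain ⟨sp1, e4, h⟩ := fc_elim h
    obtain ⟨th1, e5, h⟩ := fc_elim h
    obtain ⟨thl, e6, h⟩ := fc_elim h
    obtain ⟨V0, e7, h⟩ := fc_elim h
    obtain ⟨x, e8, h⟩ := fc_elim h
    obtain ⟨L, e9, h⟩ := fc_elim h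
    refine ⟨q0, sp0, th1, thl, V0, L, ⟨hP.hp, hP.hp1, hP.hT, hP.hθ, hP.hu, hP.hu0, ?_, hP.V0, hP.e, b0, b1,
      hp1, hP.τ0, b5, hq, hsp, b3, ?_, ?_, ?_⟩, h⟩
    · rw [e7]
      exact V_le hP b2 b4
    · rw [e5]
      cases hb : Nat.beq sp1 0 with
      | true =>
        rw [cond_true]
        exact hthm
      | false =>
        rw [cond_false]
        have hsp1 : 0 < sp1 := by
          rcases Nat.eq_zero_or_pos sp1 with h0 | h0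
          · rw [h0] at hb
            exact absurd hb (by decide)
          · exact h0
        have hs1 : fx sp1 ≤ √(1 - p ^ 2) := by
          rw [e4]
          exact sqrtL (oneSubL hP.hp.le b1 hp1)
        have h2 : θ ≤ fx (dU (rU 5 4 T1) sp1) := by
          have e : θ = 5 / 4 * T / √(1 - p ^ 2) := by
            rw [eq_div_iff hS.ne']
            exact hθS
          rw [e]
          exact divU (rU_le (by norm_num) (by norm_num) b3 (by norm_num)) hs1 hsp1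
        rcases min_choice (dU (rU 5 4 T1) sp1) thm with hc | hc <;> rw [hc]
        · exact h2
        · exact hthm
    · rw [e6]
      have e : θ = 5 / 4 * T / √(1 - p ^ 2) := by
        rw [eq_div_iff hS.ne']
        exact hθS
      rw [e]
      exact divL hT0' hsp hS
    · rw [e9, e8]
      exact L_le hP.τ0 b5

/-! ## stage A, three points -/

def okA3 (p0 p1 t0 t1 : ℕ) (k : ℕ → ℕ → ℕ → ℕ → ℕ → ℕ → ℕ → Bool) : Bool :=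
  fc (SC - mL p0 p0) fun q0 =>
  fc (sqU q0) fun sp0 =>
  Nat.ble p1 SC &&
  fc (sqL (SC - mU p1 p1)) fun sp1 =>
  fc (min (mU (SC + t1) 2302812022160) 3454218033240) fun th1 =>
  fc (mL (SC + t0) 2302811289152) fun thl =>
  fc (rL 4 5 (mL thl sp1)) fun T0 =>
  fc (rU 4 5 (mU th1 sp0)) fun T1 =>
  fc (max (10 * mL (SC + t0) (SC + t0)) (rL 2495 32 (mL T0 T0))) fun V0 =>
  fc (dU t1 (SC + t1)) fun x =>
  fc (rU 3 5 (mU x x)) fun L => k q0 sp0 T1 th1 thl V0 L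

theorem okA3_sound {p T τ θ u V : ℝ} {p0 p1 t0 t1 : ℕ}
    {k : ℕ → ℕ → ℕ → ℕ → ℕ → ℕ → ℕ → Bool} (h : okA3 p0 p1 t0 t1 k = true)
    (hP : PTs (2 * π / 3) p T τ θ u V) (hθe : θ = (1 + τ) * (2 * π / 3))
    (b0 : fx p0 ≤ p) (b1 : p ≤ fx p1) (b4 : fx t0 ≤ τ) (b5 : τ ≤ fx t1) :
    ∃ q0 sp0 T1 th1 thl V0 L : ℕ, FA p T τ θ u V p0 p1 t1 q0 sp0 T1 th1 thl V0 L ∧
      k q0 sp0 T1 th1 thl V0 L = true := by
  unfold okA3 at h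
  obtain ⟨q0, e1, h⟩ := fc_elim h
  obtain ⟨sp0, e2, h⟩ := fc_elim h
  rw [Bool.and_eq_true] at h
  obtain ⟨hp1, h⟩ := h
  rw [Nat.ble_eq] at hp1
  obtain ⟨sp1, e3, h⟩ := fc_elim h
  obtain ⟨th1, e4, h⟩ := fc_elim h
  obtain ⟨thl, e5, h⟩ := fc_elim h
  obtain ⟨T0, e6, h⟩ := fc_elim h
  obtain ⟨T1, e7, h⟩ := fc_elim h
  obtain ⟨V0, e8, h⟩ := fc_elim h
  obtain ⟨x, e9, h⟩ := fc_elim h
  obtain ⟨L, e10, h⟩ := fc_elim h
  obtain ⟨hS, hθS⟩ := hP.S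
  have hθ := hP.hθ
  have hpi := Real.pi_pos
  have hpl := Real.pi_gt_d6
  have hpu := Real.pi_lt_d6
  have hq : 1 - fx p0 ^ 2 ≤ fx q0 := by
    rw [e1]
    exact oneSubU le_rfl
  have hsp : √(1 - p ^ 2) ≤ fx sp0 := by
    rw [e2]
    exact q_le b0 hq
  have hs1 : fx sp1 ≤ √(1 - p ^ 2) := by
    rw [e3]
    exact sqrtL (oneSubL hP.hp.le b1 hp1)
  have hth1 : θ ≤ fx th1 := by
    rw [e4]
    rcases min_choice (mU (SC + t1) 2302812022160) 3454218033240 with hc | hc <;> rw [hc]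
    · rw [hθe]
      refine mulU (addU fx_one.ge b5) ?_ (by positivity)
      have : (3.141593 : ℝ) * 2 / 3 ≤ fx 2302812022160 := by unfold fx; norm_num
      linarith
    · refine hP.hπ.trans ?_
      have : (3.141593 : ℝ) ≤ fx 3454218033240 := by unfold fx; norm_num
      linarith
  have hthl : fx thl ≤ θ := by
    rw [e5, hθe]
    refine mulL (addL fx_one.le b4) ?_
    have : fx 2302811289152 ≤ (3.141592 : ℝ) * 2 / 3 := by unfold fx; norm_num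
    linarith
  have hT : T = 4 / 5 * (θ * √(1 - p ^ 2)) := by
    rw [hθS]
    ring
  have hT0 : fx T0 ≤ T := by
    rw [e6, hT]
    exact rL_le (by norm_num) (by norm_num) (mulL hthl hs1) (by norm_num)
  have hT1 : T ≤ fx T1 := by
    rw [e7, hT]
    exact rU_le (by norm_num) (by norm_num) (mulU hth1 hsp hS.le) (by norm_num)
  refine ⟨q0, sp0, T1, th1, thl, V0, L, ⟨hP.hp, hP.hp1, hP.hT, hP.hθ, hP.hu, hP.hu0, ?_, hP.V0,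
    hP.e, b0, b1, hp1, hP.τ0, b5, hq, hsp, hT1, hth1, hthl, ?_⟩, h⟩
  · rw [e8]
    exact V_le hP hT0 b4
  · rw [e10, e9]
    exact L_le hP.τ0 b5

/-! ## sums -/

def okE (V0 L s c s' c' : ℕ) (k : ℕ → ℕ → Bool) : Bool :=
  Nat.ble L (rL 7 8 c) && Nat.ble L (rL 7 8 c') &&
    fc (eeU V0 L s c + eeU V0 L s' c') fun e =>
    fc (ffU V0 L s c + ffU V0 L s' c') fun f => k e f

theorem okE_sound {V L' : ℝ} {V0 L s c s' c' : ℕ} {k : ℕ → ℕ → Bool}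
    (h : okE V0 L s c s' c' k = true) (hV : fx V0 ≤ V) (hL : L' ≤ fx L) :
    ∃ e f : ℕ, (∀ a b : ℝ → ℝ, Bd a V s c → Bd b V s' c' →
      exp (L' * V) * (a 1 + b 1) ≤ fx e ∧ exp (L' * V) * (a (7 / 8) + b (7 / 8)) ≤ fx f) ∧
      k e f = true := by
  unfold okE at h
  simp only [Bool.and_eq_true, Nat.ble_eq] at h
  obtain ⟨⟨h1, h2⟩, h⟩ := h
  obtain ⟨e, e1, h⟩ := fc_elim h
  obtain ⟨f, e2, h⟩ := fc_elim h
  refine ⟨e, f, fun a b ha hb => ⟨?_, ?_⟩, h⟩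
  · rw [e1, mul_add]
    exact addU (ha.one hV hL h1) (hb.one hV hL h2)
  · rw [e2, mul_add]
    exact addU (ha.sev hV hL h1) (hb.sev hV hL h2)

def okE3 (V0 L s c s' c' s5 c5 : ℕ) (k : ℕ → ℕ → Bool) : Bool :=
  Nat.ble L (rL 7 8 c) && Nat.ble L (rL 7 8 c') && Nat.ble L (rL 7 8 c5) &&
    fc (eeU V0 L s c + eeU V0 L s5 c5 + eeU V0 L s' c') fun e =>
    fc (ffU V0 L s c + ffU V0 L s5 c5 + ffU V0 L s' c') fun f => k e f

theorem okE3_sound {V L' : ℝ} {V0 L s c s' c' s5 c5 : ℕ} {k : ℕ → ℕ → Bool}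
    (h : okE3 V0 L s c s' c' s5 c5 k = true) (hV : fx V0 ≤ V) (hL : L' ≤ fx L) :
    ∃ e f : ℕ, (∀ a b : ℝ → ℝ, Bd2 a V s c s5 c5 → Bd b V s' c' →
      exp (L' * V) * (a 1 + b 1) ≤ fx e ∧ exp (L' * V) * (a (7 / 8) + b (7 / 8)) ≤ fx f) ∧
      k e f = true := by
  unfold okE3 at h
  simp only [Bool.and_eq_true, Nat.ble_eq] at h
  obtain ⟨⟨⟨h1, h2⟩, h3⟩, h⟩ := h
  obtain ⟨e, e1, h⟩ := fc_elim h
  obtain ⟨f, e2, h⟩ := fc_elim h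
  refine ⟨e, f, fun a b ha hb => ?_, h⟩
  obtain ⟨x, y, hxy, hx, hy⟩ := ha
  have hE := exp_pos (L' * V)
  constructor
  · rw [e1, mul_add]
    refine addU ?_ (hb.one hV hL h2)
    refine (mul_le_mul_of_nonneg_left (hxy 1 (by norm_num) le_rfl) hE.le).trans ?_
    rw [mul_add]
    exact addU (hx.one hV hL h1) (hy.one hV hL h3)
  · rw [e2, mul_add]
    refine addU ?_ (hb.sev hV hL h2)
    refine (mul_le_mul_of_nonneg_left (hxy (7 / 8) le_rfl (by norm_num)) hE.le).trans ?_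
    rw [mul_add]
    exact addU (hx.sev hV hL h1) (hy.sev hV hL h3)

/-! ## totals -/

def fin (lim0 lim2 t1 V0 eL fL eR fR : ℕ) : Bool :=
  fc (eL + eR) fun a0 =>
  fc (dU (mU (SC + t1) (SC + t1)) V0) fun iv =>
  fc (mU (mU 6471803571383 (fL + rU 14 5 fR)) iv) fun aW =>
  fc (mU (eL + mU 2988782478118 eR) iv) fun ae =>
  fc (sqU aW + mU t1 (sqU a0)) fun s =>
    Nat.ble 1 V0 && Nat.ble a0 lim0 && Nat.ble (mU s s + ae) lim2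

/-- the conclusion for one point -/
def Good (G3 G4 : Pt → ℝ → ℝ) (k4 lim0 lim2 p T τ θ u V : ℝ) : Prop :=
  ∃ σ cl A2 : ℝ, 0 ≤ σ ∧ σ ≤ 1 ∧ 0 < cl ∧ cl ≤ 1 ∧ cl * T ≤ 1 ∧ 0 < A2 ∧
    A2 ≤ (8 / 5 - 16 / 25 * gam (min 1 (4 / 5 * √(1 - p ^ 2) * u)) * p) *
      min 1 (1 / (4 / 5 * √(1 - p ^ 2) * u)) ∧
    16 / 5 ≤ 7 / 8 * (V * (tr σ T ^ 2 * al ⟨p, T, θ, u, V, σ, cl, A2⟩ / (2 * p))) ∧
    k4 ≤ 7 / 8 * (V * ((u / θ) ^ 2 * A2 / (2 * p))) ∧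
    ∃ a0 aW ae : ℝ,
      exp (3 / 5 * (τ / (1 + τ)) ^ 2 * V) * s0 ⟨p, T, θ, u, V, σ, cl, A2⟩
        (G3 ⟨p, T, θ, u, V, σ, cl, A2⟩) (G4 ⟨p, T, θ, u, V, σ, cl, A2⟩) ≤ a0 ∧
      16 / exp 1 * (exp (3 / 5 * (τ / (1 + τ)) ^ 2 * V) * sW ⟨p, T, θ, u, V, σ, cl, A2⟩
        (G3 ⟨p, T, θ, u, V, σ, cl, A2⟩) (G4 ⟨p, T, θ, u, V, σ, cl, A2⟩)) ≤
          aW * (V / (1 + τ) ^ 2) ∧
      exp (3 / 5 * (τ / (1 + τ)) ^ 2 * V) * se ⟨p, T, θ, u, V, σ, cl, A2⟩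
        (G3 ⟨p, T, θ, u, V, σ, cl, A2⟩) (G4 ⟨p, T, θ, u, V, σ, cl, A2⟩) ≤
          ae * (V / (1 + τ) ^ 2) ∧
      a0 ≤ lim0 ∧ (√aW + τ * √a0) ^ 2 + ae ≤ lim2

theorem fin_sound {V τ Λ A A' B B' : ℝ} {lim0 lim2 t1 V0 eL fL eR fR : ℕ}
    (h : fin lim0 lim2 t1 V0 eL fL eR fR = true) (hV : fx V0 ≤ V) (hVp : 0 < V) (h0 : 0 ≤ τ)
    (h1 : τ ≤ fx t1) (hB0 : 0 ≤ Λ * B) (hA0' : 0 ≤ Λ * A') (hB0' : 0 ≤ Λ * B')
    (hA : Λ * A ≤ fx eL) (hA' : Λ * A' ≤ fx fL) (hB : Λ * B ≤ fx eR) (hB' : Λ * B' ≤ fx fR) :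
    ∃ a0 aW ae : ℝ, Λ * (A + B) ≤ a0 ∧
      16 / exp 1 * (Λ * (A' + 14 / 5 * B')) ≤ aW * (V / (1 + τ) ^ 2) ∧
      Λ * (A + exp 1 * B) ≤ ae * (V / (1 + τ) ^ 2) ∧
      a0 ≤ fx lim0 ∧ (√aW + τ * √a0) ^ 2 + ae ≤ fx lim2 := by
  unfold fin at h
  obtain ⟨a0, e1, h⟩ := fc_elim h
  obtain ⟨iv, e2, h⟩ := fc_elim h
  obtain ⟨aW, e3, h⟩ := fc_elim h
  obtain ⟨ae, e4, h⟩ := fc_elim h
  obtain ⟨s, e5, h⟩ := fc_elim h
  simp only [Bool.and_eq_true, Nat.ble_eq] at h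
  obtain ⟨⟨k1, k2⟩, k3⟩ := h
  have hV0 : 0 < fx V0 := fx_pos k1
  have hτ : 0 < (1 + τ) ^ 2 := by positivity
  have hiv : (1 + τ) ^ 2 / V ≤ fx iv := by
    rw [e2]
    exact divU (sqU_le (by linarith) (addU fx_one.ge h1)) hV k1
  have hE := exp_pos (1 : ℝ)
  -- scaling by `V/(1+τ)²`
  have key : ∀ x y : ℝ, 0 ≤ y → x ≤ y → x ≤ y * fx iv * (V / (1 + τ) ^ 2) := by
    intro x y hy hxy
    have e : y = y * ((1 + τ) ^ 2 / V) * (V / (1 + τ) ^ 2) := by field_simp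
    calc x ≤ y := hxy
      _ = y * ((1 + τ) ^ 2 / V) * (V / (1 + τ) ^ 2) := e
      _ ≤ y * fx iv * (V / (1 + τ) ^ 2) := by
          have := mul_le_mul_of_nonneg_left hiv hy
          exact mul_le_mul_of_nonneg_right this (by positivity)
  refine ⟨fx a0, fx aW, fx ae, ?_, ?_, ?_, fx_mono k2, ?_⟩
  · rw [e1, mul_add]
    exact addU hA hB
  · have h3 : 16 / exp 1 * (Λ * (A' + 14 / 5 * B')) ≤
        fx (mU 6471803571383 (fL + rU 14 5 fR)) := by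
      have h4 : Λ * (A' + 14 / 5 * B') ≤ fx (fL + rU 14 5 fR) := by
        have : Λ * (A' + 14 / 5 * B') = Λ * A' + 14 / 5 * (Λ * B') := by ring
        rw [this]
        exact addU hA' (rU_le (by norm_num) (by norm_num) hB' (by norm_num))
      refine mulU ?_ h4 ?_
      · have := Real.exp_one_gt_d9
        have h5 : 16 / 2.7182818283 ≤ fx 6471803571383 := by unfold fx; norm_num
        refine le_trans ?_ h5
        exact div_le_div_of_nonneg_left (by norm_num) (by norm_num) this.le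
      · have : Λ * (A' + 14 / 5 * B') = Λ * A' + 14 / 5 * (Λ * B') := by ring
        rw [this]
        positivity
    refine (key _ _ (fx_nonneg _) h3).trans ?_
    rw [e3]
    exact mul_le_mul_of_nonneg_right (le_mU _ _) (by positivity)
  · have h3 : Λ * (A + exp 1 * B) ≤ fx (eL + mU 2988782478118 eR) := by
      have : Λ * (A + exp 1 * B) = Λ * A + exp 1 * (Λ * B) := by ring
      rw [this]
      refine addU hA (mulU ?_ hB hB0)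
      have := Real.exp_one_lt_d9
      have h5 : (2.7182818286 : ℝ) ≤ fx 2988782478118 := by unfold fx; norm_num
      linarith
    refine (key _ _ (fx_nonneg _) h3).trans ?_
    rw [e4]
    exact mul_le_mul_of_nonneg_right (le_mU _ _) (by positivity)
  · refine le_trans (addU ?_ le_rfl) (fx_mono k3)
    refine sqU_le (by positivity) ?_
    rw [e5]
    exact addU (sqrtU le_rfl) (mulU h1 (sqrtU le_rfl) (Real.sqrt_nonneg _))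

/-! ## one cell -/

/-- the cell test, general -/
def okG (vt lim0 lim2 p0 p1 T0 T1 t0 t1 : ℕ) : Bool :=
  okA vt p0 p1 T0 T1 t0 t1 fun q0 sp0 th1 thl V0 L =>
  okN q0 T1 th1 fun n0 be tt =>
  okB1 p0 p1 T1 fun icl a1 b1 =>
  okB2 p0 p1 q0 V0 n0 be tt icl a1 b1 fun s1 c1 s2 c2 =>
  okC1 p1 sp0 th1 thl fun A2 r1 s4p =>
  okC2 p1 q0 V0 n0 be tt A2 r1 s4p fun s3 c3 s4 c4 =>
  okE V0 L s1 c1 s2 c2 fun eL fL =>
  okE V0 L s3 c3 s4 c4 fun eR fR =>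
  fin lim0 lim2 t1 V0 eL fL eR fR

theorem FB.pack {σ T T1 : ℝ} {icl a1 b1 : ℕ} (h : FB σ T1 icl a1 b1) (hT : T ≤ T1) :
    0 < 1 / fx icl ∧ 1 / fx icl ≤ 1 ∧ 1 / fx icl * T ≤ 1 := by
  have h1 := h.i1
  have h2 := h.i2
  have h0 : 0 < fx icl := by linarith
  refine ⟨by positivity, ?_, ?_⟩
  · rw [div_le_one h0]
    exact h1
  · rw [one_div, inv_mul_le_iff₀ h0]
    linarith

theorem okG_sound {vt lim0 lim2 p0 p1 T0 T1 t0 t1 : ℕ}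
    (h : okG vt lim0 lim2 p0 p1 T0 T1 t0 t1 = true) {p T τ : ℝ}
    (b0 : fx p0 ≤ p) (b1 : p ≤ fx p1) (b2 : fx T0 ≤ T)
    (b3 : T ≤ fx T1) (b4 : fx t0 ≤ τ) (b5 : τ ≤ fx t1) {θ u V : ℝ}
    (hP : PTs (fx vt) p T τ θ u V) :
    Good g3 g4 (16 / 5) (fx lim0) (fx lim2) p T τ θ u V := by
  unfold okG at h
  obtain ⟨q0, sp0, th1, thl, V0, L, hA, h⟩ := okA_sound h hP b0 b1 b2 b3 b4 b5
  obtain ⟨n0, be, tt, hN, h⟩ := okN_sound hA.hq h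
  obtain ⟨σ, icl, a1, bb1, hB, h⟩ := okB1_sound h
  obtain ⟨s1, c1, s2, c2, hL, h⟩ := okB2_sound hA hN hB h
  obtain ⟨A2, r1, s4p, hC, h⟩ := okC1_sound hA h
  obtain ⟨s3, c3, s4, c4, hR, h⟩ := okC2_sound hA hN hC h
  obtain ⟨eL, fL, hEL, h⟩ := okE_sound h hA.hV hA.hL
  obtain ⟨eR, fR, hER, h⟩ := okE_sound h hA.hV hA.hL
  obtain ⟨z1, z2, z3⟩ := hB.pack hA.hT1
  obtain ⟨l1, l2, l3⟩ := hL (fx A2) (fx_pos hC.a0)
  obtain ⟨r1', r2, r3⟩ := hR σ (1 / fx icl) hB.s0 hB.s1 z1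
  obtain ⟨x1, x2⟩ := hEL _ _ l2 l3
  obtain ⟨y1, y2⟩ := hER _ _ r2 r3
  have hΛ := exp_pos (3 / 5 * (τ / (1 + τ)) ^ 2 * V)
  refine ⟨σ, 1 / fx icl, fx A2, hB.s0, hB.s1, z1, z2, z3, fx_pos hC.a0, hC.a1, l1, r1', ?_⟩
  exact fin_sound h hA.hV hA.hV0 hA.τ0 hA.τ1
    (mul_nonneg hΛ.le (add_nonneg (g3_nonneg _ _) (g4_nonneg _ _)))
    (mul_nonneg hΛ.le (add_nonneg (g1_nonneg _ _) (g2_nonneg _ _)))
    (mul_nonneg hΛ.le (add_nonneg (g3_nonneg _ _) (g4_nonneg _ _))) x1 x2 y1 y2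

/-- the cell test, three points -/
def okW (lim0 lim2 p0 p1 t0 t1 : ℕ) : Bool :=
  okA3 p0 p1 t0 t1 fun q0 sp0 T1 th1 thl V0 L =>
  okN q0 T1 th1 fun n0 be tt =>
  okB1 p0 p1 T1 fun icl a1 b1 =>
  okB2 p0 p1 q0 V0 n0 be tt icl a1 b1 fun s1 c1 s2 c2 =>
  okC1 p1 sp0 th1 thl fun A2 r1 s4p =>
  okC3 p0 p1 q0 th1 V0 n0 A2 r1 s4p fun s3 c3 s4 c4 s5 c5 =>
  okE V0 L s1 c1 s2 c2 fun eL fL =>
  okE3 V0 L s3 c3 s4 c4 s5 c5 fun eR fR =>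
  fin lim0 lim2 t1 V0 eL fL eR fR

theorem okW_sound {lim0 lim2 p0 p1 t0 t1 : ℕ}
    (h : okW lim0 lim2 p0 p1 t0 t1 = true) {p τ : ℝ}
    (b0 : fx p0 ≤ p) (b1 : p ≤ fx p1) (b4 : fx t0 ≤ τ) (b5 : τ ≤ fx t1) {T θ u V : ℝ}
    (hP : PTs (2 * π / 3) p T τ θ u V) (hθe : θ = (1 + τ) * (2 * π / 3)) :
    Good g3h g4h (32 / 5) (fx lim0) (fx lim2) p T τ θ u V := by
  unfold okW at h
  obtain ⟨q0, sp0, T1, th1, thl, V0, L, hA, h⟩ := okA3_sound h hP hθe b0 b1 b4 b5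
  obtain ⟨n0, be, tt, hN, h⟩ := okN_sound hA.hq h
  obtain ⟨σ, icl, a1, bb1, hB, h⟩ := okB1_sound h
  obtain ⟨s1, c1, s2, c2, hL, h⟩ := okB2_sound hA hN hB h
  obtain ⟨A2, r1, s4p, hC, h⟩ := okC1_sound hA h
  obtain ⟨s3, c3, s4, c4, s5, c5, hR, h⟩ := okC3_sound hA hN hC h
  obtain ⟨eL, fL, hEL, h⟩ := okE_sound h hA.hV hA.hL
  obtain ⟨eR, fR, hER, h⟩ := okE3_sound h hA.hV hA.hL
  obtain ⟨z1, z2, z3⟩ := hB.pack hA.hT1
  obtain ⟨l1, l2, l3⟩ := hL (fx A2) (fx_pos hC.a0)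
  obtain ⟨r1', r2, r3⟩ := hR σ (1 / fx icl) hB.s0 hB.s1 z1
  obtain ⟨x1, x2⟩ := hEL _ _ l2 l3
  obtain ⟨y1, y2⟩ := hER _ _ r2 r3
  have hΛ := exp_pos (3 / 5 * (τ / (1 + τ)) ^ 2 * V)
  refine ⟨σ, 1 / fx icl, fx A2, hB.s0, hB.s1, z1, z2, z3, fx_pos hC.a0, hC.a1, l1, r1', ?_⟩
  exact fin_sound h hA.hV hA.hV0 hA.τ0 hA.τ1
    (mul_nonneg hΛ.le (add_nonneg (g3h_nonneg _ _) (g4h_nonneg _ _)))
    (mul_nonneg hΛ.le (add_nonneg (g1_nonneg _ _) (g2_nonneg _ _)))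
    (mul_nonneg hΛ.le (add_nonneg (g3h_nonneg _ _) (g4h_nonneg _ _))) x1 x2 y1 y2

end SokalCl
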