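import Pool.Agent.Lib_MP_af4de1_v3.ClH

/-!
# Far waves with `Γ ≥ 10`, IX: the cells
-/

set_option autoImplicit false

namespace SokalCl

open SokalFN SokalCel

/-- three points, `τ ∈ [7/20, 1/2]` -/
theorem cellW : bis (fun x0 x1 _ _ z0 z1 => okW 10995116277 10995116277 x0 x1 z0 z1) 4 0 1 24
    951077558026 1099511627776 0 0 384829069721 549755813888 = true := by decide +kernel

/-- at least four points, `τ ∈ [7/20, 13/20]` -/
theorem cellC : bis (okG 1727109016620 10995116277 10995116277) 2 1 2 24
    0 1099511627776 0 2308974418330 384829069721 714682558055 = true := by decide +kernel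

/-- at least three points, `τ ∈ [0, 2/5]` -/
theorem cellA : bis (okG 2302812022160 43980465111 98956046499) 2 1 2 24
    0 1099511627776 0 2638827906663 0 439804651111 = true := by decide +kernel

end SokalCl
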