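import Pool.Agent.Lib_MP_af4de1_v3.DzDefs
import Pool.Agent.Lib_MP_af4de1_fa.FrD3
import Pool.Agent.Lib_MP_af4de1_fa.FrD
import Pool.Agent.Lib_MP_af4de1_fa.FrE

/-!
# Fields `d`: the plain integrals (abstract height `E`)
-/

set_option autoImplicit false

namespace SokalDz

open Real MeasureTheory Set SokalFA

/-- full Gaussian -/
theorem gauss_all {a : ℝ} (ha : 0 < a) (c : ℝ) :
    ∫⁻ v : ℝ, ENNReal.ofReal (exp (-(a * (v - c) ^ 2))) = ENNReal.ofReal √(π / a) := by
  have h1 : ∫⁻ v : ℝ, ENNReal.ofReal (exp (-(a * (v - c) ^ 2))) =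
      ∫⁻ v : ℝ, ENNReal.ofReal (exp (-(a * v ^ 2))) :=
    lintegral_sub_right_eq_self (μ := (volume : Measure ℝ))
      (fun v : ℝ => ENNReal.ofReal (exp (-(a * v ^ 2)))) c
  have h2 := integral_gaussian a
  have h3 := integrable_exp_neg_mul_sq ha
  rw [h1, ← h2, ofReal_integral_eq_lintegral_ofReal h3
    (Filter.Eventually.of_forall fun v => (exp_pos _).le)]
  refine lintegral_congr fun v => ?_
  rw [neg_mul]

/-- half Gaussian -/
theorem gauss_Ioi {a : ℝ} (ha : 0 < a) :
    ∫⁻ v in Ioi (0 : ℝ), ENNReal.ofReal (exp (-(a * v ^ 2))) = ENNReal.ofReal (√(π / a) / 2) := by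
  have h2 := integral_gaussian_Ioi a
  have h3 := (integrable_exp_neg_mul_sq ha).integrableOn (s := Ioi 0)
  rw [← h2, ofReal_integral_eq_lintegral_ofReal h3
    (Filter.Eventually.of_forall fun v => (exp_pos _).le)]
  refine lintegral_congr fun v => ?_
  rw [neg_mul]

/-- main zone -/
theorem base_main {E : ℝ → ℝ} {q A B φ l : ℝ} {S : Set ℝ} (hq : 0 < q) (hAB : 0 < A + B)
    (hS : MeasurableSet S) (h : ∀ v ∈ S, A * v ^ 2 + B * (φ - v) ^ 2 - l ≤ E v) :
    ∫⁻ v in S, ENNReal.ofReal (exp (-(q * E v))) ≤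
      ENNReal.ofReal (√(π / (q * (A + B))) * exp (-(q * (A * B * φ ^ 2 / (A + B) - l)))) := by
  have ha : 0 < q * (A + B) := mul_pos hq hAB
  set K := exp (-(q * (A * B * φ ^ 2 / (A + B) - l))) with hK
  have hpt : ∀ v ∈ S, exp (-(q * E v)) ≤ K * exp (-(q * (A + B) * (v - B * φ / (A + B)) ^ 2)) := by
    intro v hv
    rw [hK, ← exp_add]
    refine exp_le_exp.2 ?_
    have h1 := mul_le_mul_of_nonneg_left (h v hv) hq.le
    have e : q * (A * v ^ 2 + B * (φ - v) ^ 2 - l) = q * (A * B * φ ^ 2 / (A + B) - l) +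
        q * (A + B) * (v - B * φ / (A + B)) ^ 2 := by
      field_simp
      ring
    linarith
  calc ∫⁻ v in S, ENNReal.ofReal (exp (-(q * E v)))
      ≤ ∫⁻ v in S, ENNReal.ofReal K *
          ENNReal.ofReal (exp (-(q * (A + B) * (v - B * φ / (A + B)) ^ 2))) := by
        refine setLIntegral_mono' hS fun v hv => ?_
        rw [← ENNReal.ofReal_mul (exp_pos _).le]
        exact ENNReal.ofReal_le_ofReal (hpt v hv)
    _ ≤ ∫⁻ v : ℝ, ENNReal.ofReal K *
          ENNReal.ofReal (exp (-(q * (A + B) * (v - B * φ / (A + B)) ^ 2))) :=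
        setLIntegral_le_lintegral _ _
    _ = ENNReal.ofReal (√(π / (q * (A + B))) * K) := by
        rw [lintegral_const_mul' _ _ ENNReal.ofReal_ne_top, gauss_all ha,
          ← ENNReal.ofReal_mul (exp_pos _).le, mul_comm]

/-- half Gaussian with a constant -/
theorem base_half {E : ℝ → ℝ} {q A c : ℝ} {S : Set ℝ} (hq : 0 < q) (hA : 0 < A)
    (hS : MeasurableSet S) (h0 : ∀ v ∈ S, 0 < v) (h : ∀ v ∈ S, A * v ^ 2 + c ≤ E v) :
    ∫⁻ v in S, ENNReal.ofReal (exp (-(q * E v))) ≤
      ENNReal.ofReal (√(π / (q * A)) / 2 * exp (-(q * c))) := by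
  calc ∫⁻ v in S, ENNReal.ofReal (exp (-(q * E v)))
      ≤ ∫⁻ v in S, ENNReal.ofReal (exp (-(q * c))) *
          ENNReal.ofReal (exp (-(q * A * v ^ 2))) := by
        refine setLIntegral_mono' hS fun v hv => ?_
        rw [← ENNReal.ofReal_mul (exp_pos _).le, ← exp_add]
        refine ENNReal.ofReal_le_ofReal (exp_le_exp.2 ?_)
        have h1 := mul_le_mul_of_nonneg_left (h v hv) hq.le
        linarith
    _ ≤ ∫⁻ v in Ioi (0 : ℝ), ENNReal.ofReal (exp (-(q * c))) *
          ENNReal.ofReal (exp (-(q * A * v ^ 2))) := lintegral_mono_set fun v hv => h0 v hv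
    _ = ENNReal.ofReal (√(π / (q * A)) / 2 * exp (-(q * c))) := by
        rw [lintegral_const_mul' _ _ ENNReal.ofReal_ne_top, gauss_Ioi (mul_pos hq hA),
          ← ENNReal.ofReal_mul (exp_pos _).le, mul_comm]

theorem gw_shift_periodic (V φ : ℝ) : Function.Periodic (fun v => gw V (v - φ)) (2 * π) := by
  intro v
  unfold gw
  simp only
  rw [show v + 2 * π - φ = v - φ + 2 * π by ring, cos_add_two_pi]

theorem period_le {V : ℝ} (hV : 15 ≤ V) (φ a : ℝ) :
    ∫ v in a..(a + 2 * π), gw V (v - φ) ≤ 67 / 25 / √V := by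
  have h1 := (gw_shift_periodic V φ).intervalIntegral_add_eq a (φ - π)
  rw [h1]
  have h2 : ∫ v in (φ - π)..(φ - π + 2 * π), gw V (v - φ) = ∫ u in (-π)..π, gw V u := by
    rw [intervalIntegral.integral_comp_sub_right (fun u => gw V u) φ]
    congr 1 <;> ring
  rw [h2]
  exact W_le hV

/-- tail -/
theorem base_tail {E Q : ℝ → ℝ} {q Y V φ : ℝ} (hq : 0 < q) (hV : 15 ≤ V) (hφ : 0 < φ)
    (hφ2 : φ ≤ 2 * π) (hY : 6 ≤ Y) (hQ : Y ≤ q * Q φ)
    (hray : ∀ v, φ ≤ v → Q φ * (v / φ) ≤ Q v)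
    (h : ∀ v, φ < v → q * Q v + V * (1 - cos (v - φ)) ≤ q * E v) :
    ∫⁻ v in Ioi φ, ENNReal.ofReal (exp (-(q * E v))) ≤
      ENNReal.ofReal (3 / 2 / √V * exp (-Y)) := by
  have hpi := Real.pi_pos
  have hV0 : (0 : ℝ) < V := by linarith
  have hs : 0 < √V := Real.sqrt_pos.2 hV0
  have hqQ : ∀ v, φ ≤ v → Y * (v / φ) ≤ q * Q v := by
    intro v hv
    have h1 := mul_le_mul_of_nonneg_left (hray v hv) hq.le
    have h2 : 0 ≤ v / φ := div_nonneg (hφ.le.trans hv) hφ.le
    nlinarith [mul_le_mul_of_nonneg_right hQ h2]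
  have hcont : Continuous fun v => gw V (v - φ) := (continuous_gw V).comp (continuous_sub_right φ)
  -- first half period
  have hA : ∫⁻ v in Ioc φ (φ + π), ENNReal.ofReal (exp (-(q * E v))) ≤
      ENNReal.ofReal (exp (-Y) * (67 / 50 / √V)) := by
    calc ∫⁻ v in Ioc φ (φ + π), ENNReal.ofReal (exp (-(q * E v)))
        ≤ ∫⁻ v in Ioc φ (φ + π), ENNReal.ofReal (exp (-Y)) * ENNReal.ofReal (gw V (v - φ)) := by
          refine setLIntegral_mono' measurableSet_Ioc fun v hv => ?_
          rw [← ENNReal.ofReal_mul (exp_pos _).le]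
          unfold gw
          rw [← exp_add]
          refine ENNReal.ofReal_le_ofReal (exp_le_exp.2 ?_)
          have h1 := h v hv.1
          have h2 := hqQ v hv.1.le
          have h3 : 1 ≤ v / φ := by rw [le_div_iff₀ hφ]; linarith [hv.1]
          nlinarith
      _ = ENNReal.ofReal (exp (-Y)) * ∫⁻ v in Ioc φ (φ + π), ENNReal.ofReal (gw V (v - φ)) :=
          lintegral_const_mul' _ _ ENNReal.ofReal_ne_top
      _ ≤ ENNReal.ofReal (exp (-Y)) * ENNReal.ofReal (67 / 50 / √V) := by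
          refine mul_le_mul_right ?_ _
          have hint : IntegrableOn (fun v => gw V (v - φ)) (Ioc φ (φ + π)) :=
            hcont.continuousOn.integrableOn_Icc.mono_set Ioc_subset_Icc_self
          rw [← ofReal_integral_eq_lintegral_ofReal hint
            (Filter.Eventually.of_forall fun v => (gw_pos V _).le)]
          refine ENNReal.ofReal_le_ofReal ?_
          rw [← intervalIntegral.integral_of_le (by linarith),
            intervalIntegral.integral_comp_sub_right (fun u => gw V u) φ]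
          have h4 := half_W hV hpi.le le_rfl
          rw [sub_self, add_sub_cancel_left]
          exact h4
      _ = _ := by rw [← ENNReal.ofReal_mul (exp_pos _).le]
  -- the rest
  have hB : ∫⁻ v in Ioi (φ + π), ENNReal.ofReal (exp (-(q * E v))) ≤
      ENNReal.ofReal (exp (-(3 / 2 * Y)) * (67 / 25 / √V) / (1 - exp (-Y))) := by
    have h1 := tail_abs (w := fun v => if φ + π < v then exp (-(q * Q v)) else 0)
      (F := fun v => gw V (v - φ)) (S1 := φ + π) (h := 2 * π)
      (A := exp (-(3 / 2 * Y))) (r1 := exp (-Y)) (Wc := 67 / 25 / √V) (by positivity)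
      (exp_pos _).le (exp_pos _).le (exp_lt_one_iff.2 (by linarith)) hcont
      (fun v => (gw_pos V _).le) (fun a => period_le hV φ a)
      (fun v => by split_ifs <;> positivity) ?_
    · refine le_trans ?_ h1
      refine setLIntegral_mono' measurableSet_Ioi fun v hv => ?_
      have hv' : φ + π < v := hv
      simp only [hv', if_true]
      unfold gw
      rw [← exp_add]
      refine ENNReal.ofReal_le_ofReal (exp_le_exp.2 ?_)
      have := h v (by linarith)
      linarith
    · intro n v hv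
      have hn : (0 : ℝ) ≤ n := Nat.cast_nonneg n
      have hv' : φ + π < v := by
        have := hv.1
        have h3 : (0 : ℝ) ≤ n * (2 * π) := by positivity
        linarith
      simp only [hv', if_true]
      rw [← exp_nat_mul, ← exp_add]
      refine exp_le_exp.2 ?_
      have h2 := hqQ v (by linarith)
      have h3 : 3 / 2 + (n : ℝ) ≤ v / φ := by
        rw [le_div_iff₀ hφ]
        have h4 := hv.1
        nlinarith
      have h5 := mul_le_mul_of_nonneg_left h3 (by linarith : (0 : ℝ) ≤ Y)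
      linarith
  have hsplit : Ioi φ = Ioc φ (φ + π) ∪ Ioi (φ + π) := (Ioc_union_Ioi_eq_Ioi (by linarith)).symm
  rw [hsplit]
  refine (lintegral_union_le _ _ _).trans ((add_le_add hA hB).trans ?_)
  have e6 : exp (-6) ≤ 1 / 400 := by
    have h6 : (400 : ℝ) ≤ exp 6 := by
      have h8 : exp 6 = exp 1 ^ 6 := by rw [← Real.exp_nat_mul]; norm_num
      rw [h8]
      have h9 : (2718 / 1000 : ℝ) ≤ exp 1 := by linarith [Real.exp_one_gt_d9]
      calc (400 : ℝ) ≤ (2718 / 1000) ^ 6 := by norm_num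
        _ ≤ exp 1 ^ 6 := pow_le_pow_left₀ (by norm_num) h9 6
    rw [Real.exp_neg, inv_eq_one_div]
    exact one_div_le_one_div_of_le (by norm_num) h6
  have e3 : exp (-3) ≤ 1 / 20 := by
    have h6 : (20 : ℝ) ≤ exp 3 := by
      have h8 : exp 3 = exp 1 ^ 3 := by rw [← Real.exp_nat_mul]; norm_num
      rw [h8]
      have h9 : (2718 / 1000 : ℝ) ≤ exp 1 := by linarith [Real.exp_one_gt_d9]
      calc (20 : ℝ) ≤ (2718 / 1000) ^ 3 := by norm_num
        _ ≤ exp 1 ^ 3 := pow_le_pow_left₀ (by norm_num) h9 3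
    rw [Real.exp_neg, inv_eq_one_div]
    exact one_div_le_one_div_of_le (by norm_num) h6
  have eY : exp (-Y) ≤ 1 / 400 := (exp_le_exp.2 (by linarith)).trans e6
  have eY2 : exp (-(Y / 2)) ≤ 1 / 20 := (exp_le_exp.2 (by linarith)).trans e3
  have ed : exp (-(3 / 2 * Y)) = exp (-Y) * exp (-(Y / 2)) := by rw [← exp_add]; congr 1; ring
  have hY0 := exp_pos (-Y)
  have hY1 := exp_pos (-(Y / 2))
  rw [← ENNReal.ofReal_add (by positivity) (by
    have : 0 < 1 - exp (-Y) := by linarith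
    positivity)]
  refine ENNReal.ofReal_le_ofReal ?_
  have hd : 0 < 1 - exp (-Y) := by linarith
  have h1 : exp (-(3 / 2 * Y)) * (67 / 25 / √V) / (1 - exp (-Y)) ≤
      exp (-Y) * (4 / 25 / √V) := by
    rw [ed, div_le_iff₀ hd]
    have h2 : exp (-(Y / 2)) * (67 / 25) ≤ 4 / 25 * (1 - exp (-Y)) := by nlinarith
    have h3 : exp (-Y) * exp (-(Y / 2)) * (67 / 25 / √V) =
        exp (-Y) * (exp (-(Y / 2)) * (67 / 25)) / √V := by ring
    have h4 : exp (-Y) * (4 / 25 / √V) * (1 - exp (-Y)) =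
        exp (-Y) * (4 / 25 * (1 - exp (-Y))) / √V := by ring
    rw [h3, h4]
    gcongr
  calc _ ≤ exp (-Y) * (67 / 50 / √V) + exp (-Y) * (4 / 25 / √V) := by linarith
    _ = 3 / 2 / √V * exp (-Y) := by ring

end SokalDz
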