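import Pool.Agent.Lib_MP_af4de1_v3.CenRedM
import Pool.Agent.Lib_MP_af4de1_v3.CenB
import Pool.Agent.Lib_MP_af4de1_v3.CenY0

/-!
# Fields `d` (`i ≥ 2`): closed forms (helper20)

Centre path of slope `m = mm ρ = (5/4) √(1+ρ²)`.  `φ` is the angle of a half line: `φ = |θ|` on the side of the wave,
`φ = 2π - |θ|` on the other side.  `q = r` or `q = 8r/9`.
Main, Tail (`|s| > φ`), Far (`1 - cos ≥ .6336`), fronT (`φ > 2π - 6/5`); `r..`: `s > 0`, `l..`: `s < 0`.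
-/

set_option autoImplicit false

namespace SokalDz

open Real MeasureTheory Set SokalCen SokalV3

/-- quadratic coefficient, right -/
noncomputable def rA (ρ φ : ℝ) : ℝ := AR (mm ρ) ρ φ
/-- quadratic coefficient, left -/
noncomputable def lA (ρ φ : ℝ) : ℝ := AL (mm ρ) ρ φ

/-- right, main -/
noncomputable def rM (q ρ φ B : ℝ) : ℝ :=
  √(π / (q * (rA ρ φ + B))) * exp (-(q * (rA ρ φ * B * φ ^ 2 / (rA ρ φ + B))))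
/-- right, tail -/
noncomputable def rT (q ρ φ : ℝ) : ℝ := 3 / 2 / √q * exp (-(q * (rA ρ φ * φ ^ 2)))
/-- right, far -/
noncomputable def rF (q ρ φ : ℝ) : ℝ := √(π / (q * rA ρ φ)) / 2 * exp (-(q * (3168 / 5000)))
open scoped Classical in
/-- right, front -/
noncomputable def rO (q ρ φ : ℝ) : ℝ :=
  if 2 * π - φ < 6 / 5 then
    √(π / (q * (rA ρ φ + 11 / 25))) / 2 * exp (-(q * (11 / 25 * (2 * π - φ) ^ 2))) else 0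

/-- left, main -/
noncomputable def lM (q ρ φ B l : ℝ) : ℝ :=
  √(π / (q * (lA ρ φ + B))) * exp (-(q * (lA ρ φ * B * φ ^ 2 / (lA ρ φ + B) - l)))
/-- left, tail -/
noncomputable def lT (q ρ φ : ℝ) : ℝ := 5 / 2 / √q * exp (-(q * (lA ρ φ * φ ^ 2)))
/-- left, far (`e = 1/2` or `11/20`, see `HE`) -/
noncomputable def lF (q ρ φ e : ℝ) : ℝ := √(3 * π / (q * lA ρ φ)) / 2 * exp (-(q * e))
open scoped Classical in
/-- left, front -/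
noncomputable def lO (q ρ φ : ℝ) : ℝ :=
  if 2 * π - φ < 6 / 5 then
    √(π / (q * lA ρ φ)) / 2 * exp (-(q * (11 / 25 * (2 * π - φ) ^ 2))) else 0

/-- the constant in front -/
noncomputable def Kc (r ρ : ℝ) : ℝ :=
  √(r / (2 * π * ρ)) * √(√(1 + ρ ^ 2)) * √(1 + 1 / mm ρ ^ 2)

/-- right main, hypothesis on `B` -/
def HR (φ B : ℝ) : Prop := 0 < B ∧ ∀ u : ℝ, 0 ≤ u → u ≤ φ → u ≤ 6 / 5 → B * u ^ 2 ≤ 1 - cos u

/-- right main, hypothesis on the weight constant (`T ≥ φ/m`, `T ≤ 1`) -/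
def HC (ρ φ C : ℝ) : Prop := 14 / 5 ≤ C ∨ ∃ T : ℝ, φ ≤ T * mm ρ ∧ T ≤ 1 ∧ 1 ≤ C ∧
  (1 + T / 2 + 2 * T ^ 2 / 9) ^ 2 ≤ C * (5 / 2 - (1 + T / 3 + 5 * T ^ 2 / 48))

/-- right front, hypothesis on the weight constant -/
def HF (ρ φ C : ℝ) : Prop := 14 / 5 ≤ C ∨ ∃ T : ℝ, 6 / 5 - (2 * π - φ) ≤ T * mm ρ ∧ 0 ≤ T ∧ T ≤ 1 ∧
  1 ≤ C ∧ (1 + T / 2 + 2 * T ^ 2 / 9) ^ 2 ≤ C * (5 / 2 - (1 + T / 3 + 5 * T ^ 2 / 48))

/-- left far, hypothesis on `e` (`e = 1/2` always holds, `HE_half`) -/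
def HE (ρ e : ℝ) : Prop := 0 < e ∧ ∀ x : ℝ, 0 ≤ x → x ≤ 1 →
  e ≤ 3168 / 5000 * exp (-x) + 2 / 3 * ((mm ρ / ρ - 1 / 2) * x ^ 2)

/-- left main, hypothesis on `B`, `l` -/
def HL (ρ φ B l : ℝ) : Prop := 0 < B ∧ 0 ≤ l ∧ ∀ v : ℝ, 0 ≤ v → v ≤ φ → φ - v ≤ 6 / 5 →
  B * (φ - v) ^ 2 - l ≤ exp (pm (mm ρ) (-v)) * (1 - cos (φ - v))

/-- the sum of the weighted zones divided by `r` -/
noncomputable def SW (r ρ φR φL C Cf B B' l e : ℝ) : ℝ :=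
  20 / 3 * (C * rM (8 / 9 * r) ρ φR B + 14 / 5 * rT (8 / 9 * r) ρ φR +
    Cf * rO (8 / 9 * r) ρ φR +
    lM (8 / 9 * r) ρ φL B' l + lT (8 / 9 * r) ρ φL + lO (8 / 9 * r) ρ φL) +
  r * (14 * rF r ρ φR + 4 * lF r ρ φL e) +
  (68 / 25 * (rM r ρ φR B + rT r ρ φR + rF r ρ φR + rO r ρ φR) +
    (lM r ρ φL B' l + lT r ρ φL + lF r ρ φL e + lO r ρ φL))

open scoped Classical in
/-- the claim as a function of `X = r θ²/R`, `r` and `ρ` -/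
noncomputable def Fd (r ρ X : ℝ) : ℝ := if X ≤ 80 then 2 / 25 * exp (-(17 / 100 * X)) else
  if X ≤ 31 / 4 * r then 1 / 2000 * exp (-(X / 25)) else
    1 / 2000 * exp (-(7 / 25 * (r / (1 + ρ ^ 2))))

/-- the hypotheses of the statement at `y = 0` -/
structure HypD (r ρ t : ℝ) : Prop where
  ρ0 : 0 < ρ
  r0 : 499 / 10 ≤ r
  t0 : 0 < t
  t1 : t ≤ π
  X : 108 / 5 ≤ r * t ^ 2 / (1 + ρ ^ 2)

/-- REAL INEQUALITY, wave on the left (`θ = t`): owner helper7 -/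
def PRealDL : Prop := ∀ r ρ t : ℝ, HypD r ρ t → ∃ C Cf B B' l e : ℝ, HR (2 * π - t) B ∧
  HC ρ (2 * π - t) C ∧ HF ρ (2 * π - t) Cf ∧ HL ρ t B' l ∧ HE ρ e ∧
  l ≤ lA ρ t * B' * t ^ 2 / (lA ρ t + B') ∧
  Kc r ρ * SW r ρ (2 * π - t) t C Cf B B' l e ≤ 27 / 5 * Fd r ρ (r * t ^ 2 / (1 + ρ ^ 2))

/-- REAL INEQUALITY, wave on the right (`θ = -t`): owner helper48 -/
def PRealDR : Prop := ∀ r ρ t : ℝ, HypD r ρ t → ∃ C Cf B B' l e : ℝ, HR t B ∧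
  HC ρ t C ∧ HF ρ t Cf ∧ HL ρ (2 * π - t) B' l ∧ HE ρ e ∧
  l ≤ lA ρ (2 * π - t) * B' * (2 * π - t) ^ 2 / (lA ρ (2 * π - t) + B') ∧
  Kc r ρ * SW r ρ t (2 * π - t) C Cf B B' l e ≤ 27 / 5 * Fd r ρ (r * t ^ 2 / (1 + ρ ^ 2))

/-- The statement (S), left. -/
def PDL : Prop := ∀ r δ t H : ℝ, 0 < δ → HypD r (r * δ) t → 0 < H → 27 / 5 * r ≤ H ^ 2 →
  Shf r δ 0 t H (Fd r (r * δ) (r * t ^ 2 / (1 + (r * δ) ^ 2)))
    (Fd r (r * δ) (r * t ^ 2 / (1 + (r * δ) ^ 2))) (Fd r (r * δ) (r * t ^ 2 / (1 + (r * δ) ^ 2)))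

/-- The statement (S), right. -/
def PDR : Prop := ∀ r δ t H : ℝ, 0 < δ → HypD r (r * δ) t → 0 < H → 27 / 5 * r ≤ H ^ 2 →
  Shf r δ 0 (-t) H (Fd r (r * δ) (r * t ^ 2 / (1 + (r * δ) ^ 2)))
    (Fd r (r * δ) (r * t ^ 2 / (1 + (r * δ) ^ 2))) (Fd r (r * δ) (r * t ^ 2 / (1 + (r * δ) ^ 2)))

end SokalDz
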