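import Pool.Agent.Lib_MP_af4de1_v3.DzWt

/-!
# Fields `d`: the zones of a half line
-/

set_option autoImplicit false

namespace SokalDz

open Real MeasureTheory Set SokalCen

/-- the three integrals over a set, abstract -/
structure HZ (r : ℝ) (D W a : ℝ → ℝ) (S : Set ℝ) (I0 IW Ie : ℝ) : Prop where
  i0 : ∫⁻ v in S, ENNReal.ofReal (exp (-(r * D v))) ≤ ENNReal.ofReal I0
  iW : ∫⁻ v in S, ENNReal.ofReal (W v * exp (-(r * D v))) ≤ ENNReal.ofReal IW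
  ie : ∫⁻ v in S, ENNReal.ofReal (exp (a v) * exp (-(r * D v))) ≤ ENNReal.ofReal Ie

theorem HZ.subset {r : ℝ} {D W a : ℝ → ℝ} {S T : Set ℝ} {I0 IW Ie : ℝ}
    (h : HZ r D W a T I0 IW Ie) (hST : S ⊆ T) : HZ r D W a S I0 IW Ie :=
  ⟨(lintegral_mono_set hST).trans h.i0, (lintegral_mono_set hST).trans h.iW,
    (lintegral_mono_set hST).trans h.ie⟩

theorem HZ.union {r : ℝ} {D W a : ℝ → ℝ} {S T : Set ℝ} {I0 IW Ie J0 JW Je : ℝ}
    (h : HZ r D W a S I0 IW Ie) (h' : HZ r D W a T J0 JW Je)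
    (a0 : 0 ≤ I0) (a1 : 0 ≤ IW) (a2 : 0 ≤ Ie) (b0 : 0 ≤ J0) (b1 : 0 ≤ JW) (b2 : 0 ≤ Je) :
    HZ r D W a (S ∪ T) (I0 + J0) (IW + JW) (Ie + Je) := by
  refine ⟨?_, ?_, ?_⟩
  · rw [ENNReal.ofReal_add a0 b0]
    exact (lintegral_union_le _ _ _).trans (add_le_add h.i0 h'.i0)
  · rw [ENNReal.ofReal_add a1 b1]
    exact (lintegral_union_le _ _ _).trans (add_le_add h.iW h'.iW)
  · rw [ENNReal.ofReal_add a2 b2]
    exact (lintegral_union_le _ _ _).trans (add_le_add h.ie h'.ie)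

/-- weights bounded by constants -/
theorem HZ.const {r w0 e0 I0 : ℝ} {D W a : ℝ → ℝ} {S : Set ℝ} (hS : MeasurableSet S)
    (hw : ∀ v ∈ S, W v ≤ w0) (he : ∀ v ∈ S, exp (a v) ≤ e0) (w00 : 0 ≤ w0) (e00 : 0 ≤ e0)
    (h0 : ∫⁻ v in S, ENNReal.ofReal (exp (-(r * D v))) ≤ ENNReal.ofReal I0) :
    HZ r D W a S I0 (w0 * I0) (e0 * I0) := by
  have key : ∀ (c : ℝ) (f : ℝ → ℝ), 0 ≤ c → (∀ v ∈ S, f v ≤ c) →
      ∫⁻ v in S, ENNReal.ofReal (f v * exp (-(r * D v))) ≤ ENNReal.ofReal (c * I0) := by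
    intro c f hc hf
    calc ∫⁻ v in S, ENNReal.ofReal (f v * exp (-(r * D v)))
        ≤ ∫⁻ v in S, ENNReal.ofReal c * ENNReal.ofReal (exp (-(r * D v))) := by
          refine setLIntegral_mono' hS fun v hv => ?_
          rw [← ENNReal.ofReal_mul hc]
          exact ENNReal.ofReal_le_ofReal (mul_le_mul_of_nonneg_right (hf v hv) (exp_pos _).le)
      _ = ENNReal.ofReal c * ∫⁻ v in S, ENNReal.ofReal (exp (-(r * D v))) :=
          lintegral_const_mul' _ _ ENNReal.ofReal_ne_top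
      _ ≤ ENNReal.ofReal c * ENNReal.ofReal I0 := mul_le_mul_right h0 _
      _ = _ := by rw [← ENNReal.ofReal_mul hc]
  exact ⟨h0, key w0 W w00 hw, key e0 (fun v => exp (a v)) e00 he⟩

/-- the weight by the height -/
theorem HZ.height {r C e0 I0 I1 : ℝ} {D W a : ℝ → ℝ} {S : Set ℝ} (hr : 0 < r) (hC : 0 ≤ C)
    (hS : MeasurableSet S)
    (hw : ∀ v ∈ S, W v ≤ 2 * C * D v) (he : ∀ v ∈ S, exp (a v) ≤ e0) (e00 : 0 ≤ e0)
    (h0 : ∫⁻ v in S, ENNReal.ofReal (exp (-(r * D v))) ≤ ENNReal.ofReal I0)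
    (h1 : ∫⁻ v in S, ENNReal.ofReal (exp (-(8 / 9 * r * D v))) ≤ ENNReal.ofReal I1) :
    HZ r D W a S I0 (20 / 3 * C * I1 / r) (e0 * I0) := by
  have h2 := HZ.const (W := fun _ => 0) (w0 := 0) hS (fun _ _ => le_rfl) he le_rfl e00 h0
  refine ⟨h0, ?_, h2.ie⟩
  have hc : 0 ≤ 20 / 3 * C / r := by positivity
  calc ∫⁻ v in S, ENNReal.ofReal (W v * exp (-(r * D v)))
      ≤ ∫⁻ v in S, ENNReal.ofReal (20 / 3 * C / r) *
          ENNReal.ofReal (exp (-(8 / 9 * r * D v))) := by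
        refine setLIntegral_mono' hS fun v hv => ?_
        rw [← ENNReal.ofReal_mul hc]
        refine ENNReal.ofReal_le_ofReal ?_
        have h3 := mul_le_mul_of_nonneg_right (hw v hv) (exp_pos (-(r * D v))).le
        have h4 := ytrick (r * D v)
        have h5 : 2 * C * D v * exp (-(r * D v)) = 2 * C / r * (r * D v * exp (-(r * D v))) := by
          field_simp
        have h6 : 0 ≤ 2 * C / r := by positivity
        have h7 := mul_le_mul_of_nonneg_left h4 h6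
        rw [h5] at h3
        refine h3.trans (h7.trans (le_of_eq ?_))
        rw [show 8 / 9 * (r * D v) = 8 / 9 * r * D v by ring]
        ring
    _ = ENNReal.ofReal (20 / 3 * C / r) * ∫⁻ v in S, ENNReal.ofReal (exp (-(8 / 9 * r * D v))) :=
        lintegral_const_mul' _ _ ENNReal.ofReal_ne_top
    _ ≤ ENNReal.ofReal (20 / 3 * C / r) * ENNReal.ofReal I1 := mul_le_mul_right h1 _
    _ = _ := by
        rw [← ENNReal.ofReal_mul hc]
        congr 1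
        ring

section

variable {ρ φ : ℝ}

theorem rA_pos (hρ : 0 < ρ) (hφ : 0 < φ) : 0 < rA ρ φ := AR_pos hρ (rho_le_mm' hρ) hφ
theorem lA_pos (hρ : 0 < ρ) (hφ : 0 < φ) : 0 < lA ρ φ := AL_pos hρ (rho_le_mm' hρ) hφ

/-- `1 - cos` far from `0` and `2π` -/
theorem cos_far {u : ℝ} (h1 : 6 / 5 ≤ u) (h2 : u ≤ 2 * π - 6 / 5) : 3168 / 5000 ≤ 1 - cos u := by
  rcases le_total u π with h | h
  · have := SokalFA.cos_split_large h1 h
    linarith
  · have := SokalFA.cos_split_large (u := 2 * π - u) (by linarith) (by linarith)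
    rw [cos_two_pi_sub] at this
    linarith

/-- `1 - cos` near `2π` -/
theorem cos_near {u : ℝ} (h1 : 2 * π - 6 / 5 ≤ u) (h2 : u ≤ 2 * π) :
    11 / 25 * (2 * π - u) ^ 2 ≤ 1 - cos u := by
  have := SokalFA.cos_split_small (u := 2 * π - u) (by rw [abs_le]; constructor <;> linarith)
  rwa [cos_two_pi_sub] at this

/-- the sets -/
def S1 (φ : ℝ) : Set ℝ := Ioc 0 φ ∩ Ici (φ - 6 / 5)
def S3 (φ : ℝ) : Set ℝ := Ioc 0 φ ∩ Icc (φ - (2 * π - 6 / 5)) (φ - 6 / 5)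
def S4 (φ : ℝ) : Set ℝ := Ioc 0 φ ∩ Iic (φ - (2 * π - 6 / 5))

theorem mS1 (φ : ℝ) : MeasurableSet (S1 φ) := measurableSet_Ioc.inter measurableSet_Ici
theorem mS3 (φ : ℝ) : MeasurableSet (S3 φ) := measurableSet_Ioc.inter measurableSet_Icc
theorem mS4 (φ : ℝ) : MeasurableSet (S4 φ) := measurableSet_Ioc.inter measurableSet_Iic

theorem cover (φ : ℝ) : Ioi (0 : ℝ) ⊆ ((S1 φ ∪ Ioi φ) ∪ (S3 φ ∪ S4 φ)) := by
  intro v hv
  have hv' : 0 < v := hv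
  rcases lt_or_ge φ v with h | h
  · exact Or.inl (Or.inr h)
  · rcases le_total (φ - 6 / 5) v with h1 | h1
    · exact Or.inl (Or.inl ⟨⟨hv', h⟩, h1⟩)
    · rcases le_total (φ - (2 * π - 6 / 5)) v with h2 | h2
      · exact Or.inr (Or.inl ⟨⟨hv', h⟩, ⟨h2, h1⟩⟩)
      · exact Or.inr (Or.inr ⟨⟨hv', h⟩, h2⟩)

/-! ## right -/

section right

variable {θ q B : ℝ}

theorem exp_pm_ge_one {m v : ℝ} (hm : 0 < m) (hv : 0 ≤ v) : 1 ≤ exp (pm m v) :=
  Real.one_le_exp (pm_nonneg hm hv)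

theorem Dm_right_ge {v c : ℝ} (hv : 0 ≤ v) (hcos : cos (θ + v) = cos (φ - v))
    (hc0 : 0 ≤ c) (hc : c ≤ 1 - cos (φ - v)) : Qm (mm ρ) ρ v + c ≤ Dm (mm ρ) ρ θ v := by
  rw [Dm_eq, hcos]
  have h1 := exp_pm_ge_one (mm_pos ρ) hv
  nlinarith

theorem jR1 (hρ : 0 < ρ) (hφ : 0 < φ) (hq : 0 < q) (hB : HR φ B)
    (hcos : ∀ v, cos (θ + v) = cos (φ - v)) :
    ∫⁻ v in S1 φ, ENNReal.ofReal (exp (-(q * Dm (mm ρ) ρ θ v))) ≤
      ENNReal.ofReal (rM q ρ φ B) := by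
  have hA := rA_pos hρ hφ
  have h := base_main (E := fun v => Dm (mm ρ) ρ θ v) (q := q) (A := rA ρ φ) (B := B) (φ := φ)
    (l := 0) hq (add_pos hA hB.1) (mS1 φ) ?_
  · refine h.trans (le_of_eq ?_)
    unfold rM
    rw [sub_zero]
  · rintro v ⟨⟨h0, h1⟩, h2⟩
    have h2' : φ - 6 / 5 ≤ v := h2
    have h3 := hB.2 (φ - v) (by linarith) (by linarith) (by linarith)
    have h4 := Qm_AR hρ (rho_le_mm' hρ) h0.le h1 hφ
    have h5 := Dm_right_ge (ρ := ρ) h0.le (hcos v) (by have := hB.1; positivity) h3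
    unfold rA
    linarith

theorem jR2 (hρ : 0 < ρ) (hφ : 0 < φ) (hφ2 : φ ≤ 2 * π) (hq : 15 ≤ q)
    (hY : 6 ≤ q * (rA ρ φ * φ ^ 2)) (hcos : ∀ v, cos (θ + v) = cos (φ - v)) :
    ∫⁻ v in Ioi φ, ENNReal.ofReal (exp (-(q * Dm (mm ρ) ρ θ v))) ≤
      ENNReal.ofReal (rT q ρ φ) := by
  have hq0 : 0 < q := by linarith
  refine (base_tail (E := fun v => Dm (mm ρ) ρ θ v) (Q := Qm (mm ρ) ρ) hq0 hq hφ hφ2 hY
    (mul_le_mul_of_nonneg_left (Qm_AR hρ (rho_le_mm' hρ) hφ.le le_rfl hφ) hq0.le)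
    (fun v hv => Qm_ray_right hρ (rho_le_mm' hρ) hφ hv) ?_).trans (le_of_eq rfl)
  intro v hv
  have h1 : cos (φ - v) = cos (v - φ) := by rw [← cos_neg, neg_sub]
  have h2 := cos_le_one (v - φ)
  have h5 := Dm_right_ge (ρ := ρ) (c := 1 - cos (v - φ)) (hφ.le.trans hv.le) (hcos v)
    (by linarith) (by rw [h1])
  have := mul_le_mul_of_nonneg_left h5 hq0.le
  linarith

theorem jR3 (hρ : 0 < ρ) (hφ : 0 < φ) (hq : 0 < q) (hcos : ∀ v, cos (θ + v) = cos (φ - v)) :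
    ∫⁻ v in S3 φ, ENNReal.ofReal (exp (-(q * Dm (mm ρ) ρ θ v))) ≤
      ENNReal.ofReal (rF q ρ φ) := by
  refine (base_half (E := fun v => Dm (mm ρ) ρ θ v) (c := 3168 / 5000) hq (rA_pos hρ hφ) (mS3 φ)
    (fun v hv => hv.1.1) ?_).trans (le_of_eq rfl)
  rintro v ⟨⟨h0, h1⟩, ⟨h2, h3⟩⟩
  have h4 := cos_far (u := φ - v) (by linarith) (by linarith)
  have h5 := Qm_AR hρ (rho_le_mm' hρ) h0.le h1 hφ
  have h6 := Dm_right_ge (ρ := ρ) h0.le (hcos v) (by norm_num) h4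
  unfold rA
  linarith

theorem jR4 (hρ : 0 < ρ) (hφ : 0 < φ) (hφ2 : φ < 2 * π) (hq : 0 < q)
    (hcos : ∀ v, cos (θ + v) = cos (φ - v)) :
    ∫⁻ v in S4 φ, ENNReal.ofReal (exp (-(q * Dm (mm ρ) ρ θ v))) ≤
      ENNReal.ofReal (rO q ρ φ) := by
  unfold rO
  split_ifs with hc
  · refine (base_half (E := fun v => Dm (mm ρ) ρ θ v) (c := 11 / 25 * (2 * π - φ) ^ 2) hq
      (A := rA ρ φ + 11 / 25) (by have := rA_pos hρ hφ; linarith) (mS4 φ)
      (fun v hv => hv.1.1) ?_)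
    rintro v ⟨⟨h0, h1⟩, h2⟩
    have h2' : v ≤ φ - (2 * π - 6 / 5) := h2
    have h4 := cos_near (u := φ - v) (by linarith) (by linarith)
    have h5 := Qm_AR hρ (rho_le_mm' hρ) h0.le h1 hφ
    have h6 := Dm_right_ge (ρ := ρ) h0.le (hcos v) (by positivity) h4
    have h7 : 11 / 25 * (2 * π - (φ - v)) ^ 2 ≥ 11 / 25 * v ^ 2 + 11 / 25 * (2 * π - φ) ^ 2 := by
      have : 0 ≤ (2 * π - φ) * v := mul_nonneg (by linarith) h0.le
      nlinarith
    unfold rA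
    linarith
  · have hS : S4 φ = ∅ := by
      ext v
      simp only [S4, mem_inter_iff, mem_Ioc, mem_Iic, mem_empty_iff_false, iff_false]
      rintro ⟨⟨h0, _⟩, h2⟩
      linarith
    rw [hS]
    simp

end right

/-! ## left -/

section left

variable {θ q B l e : ℝ}

theorem Dm_left_eq {v : ℝ} (hcos : cos (θ + -v) = cos (φ - v)) :
    Dm (mm ρ) ρ θ (-v) = Qm (mm ρ) ρ (-v) + exp (pm (mm ρ) (-v)) * (1 - cos (φ - v)) := by
  rw [Dm_eq, hcos]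

theorem exp_pm_le_one {m v : ℝ} (hm : 0 < m) (hv : 0 ≤ v) : exp (pm m (-v)) ≤ 1 :=
  Real.exp_le_one_iff.2 (pm_nonpos hm (by linarith))

theorem jL1 (hρ : 0 < ρ) (hφ : 0 < φ) (hq : 0 < q) (hB : HL ρ φ B l)
    (hcos : ∀ v, cos (θ + -v) = cos (φ - v)) :
    ∫⁻ v in S1 φ, ENNReal.ofReal (exp (-(q * Dm (mm ρ) ρ θ (-v)))) ≤
      ENNReal.ofReal (lM q ρ φ B l) := by
  have hA := lA_pos hρ hφ
  refine (base_main (E := fun v => Dm (mm ρ) ρ θ (-v)) (q := q) (A := lA ρ φ) (B := B) (φ := φ)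
    (l := l) hq (add_pos hA hB.1) (mS1 φ) ?_).trans (le_of_eq rfl)
  rintro v ⟨⟨h0, h1⟩, h2⟩
  have h2' : φ - 6 / 5 ≤ v := h2
  have h3 := hB.2.2 v h0.le h1 (by linarith)
  have h4 := Qm_AL hρ (rho_le_mm' hρ) h0.le h1 hφ
  rw [Dm_left_eq (hcos v)]
  unfold lA
  linarith

theorem jL2 (hρ : 0 < ρ) (hφ : 0 < φ) (hφ2 : φ ≤ 2 * π) (hq : 41 ≤ q)
    (hY : 6 ≤ q * (lA ρ φ * φ ^ 2)) (hcos : ∀ v, cos (θ + -v) = cos (φ - v)) :
    ∫⁻ v in Ioi φ, ENNReal.ofReal (exp (-(q * Dm (mm ρ) ρ θ (-v)))) ≤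
      ENNReal.ofReal (lT q ρ φ) := by
  have hq0 : 0 < q := by linarith
  have he1 : 367 / 1000 ≤ exp (-1) := by
    rw [Real.exp_neg, inv_eq_one_div, div_le_div_iff₀ (by norm_num) (exp_pos _)]
    have := Real.exp_one_lt_d9
    linarith
  have hV : 15 ≤ q * exp (-1) := by nlinarith
  refine (base_tail (E := fun v => Dm (mm ρ) ρ θ (-v)) (Q := fun v => Qm (mm ρ) ρ (-v))
    (V := q * exp (-1)) hq0 hV hφ hφ2 hY
    (mul_le_mul_of_nonneg_left (Qm_AL hρ (rho_le_mm' hρ) hφ.le le_rfl hφ) hq0.le)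
    (fun v hv => Qm_ray_left hρ (rho_le_mm' hρ) hφ hv) ?_).trans ?_
  · intro v hv
    have h1 : cos (φ - v) = cos (v - φ) := by rw [← cos_neg, neg_sub]
    have h2 := cos_le_one (v - φ)
    have h3 : exp (-1) ≤ exp (pm (mm ρ) (-v)) := exp_le_exp.2 (abs_le.1 (pm_mem _ _)).1
    rw [Dm_left_eq (hcos v), h1]
    have h4 := mul_le_mul_of_nonneg_right h3 (by linarith : 0 ≤ 1 - cos (v - φ))
    have := mul_le_mul_of_nonneg_left h4 hq0.le
    linarith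
  · refine ENNReal.ofReal_le_ofReal ?_
    unfold lT
    refine mul_le_mul_of_nonneg_right ?_ (exp_pos _).le
    rw [Real.sqrt_mul hq0.le]
    have hs : 0 < √q := Real.sqrt_pos.2 hq0
    have h5 : 3 / 5 ≤ √(exp (-1)) := by
      refine Real.le_sqrt_of_sq_le ?_
      linarith
    rw [div_le_div_iff₀ (by positivity) hs]
    nlinarith

theorem jL3 (hρ : 0 < ρ) (hφ : 0 < φ) (hq : 0 < q) (he : HE ρ e)
    (hcos : ∀ v, cos (θ + -v) = cos (φ - v)) :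
    ∫⁻ v in S3 φ, ENNReal.ofReal (exp (-(q * Dm (mm ρ) ρ θ (-v)))) ≤
      ENNReal.ofReal (lF q ρ φ e) := by
  have hA := lA_pos hρ hφ
  have key := base_half (E := fun v => Dm (mm ρ) ρ θ (-v)) (c := e) (A := lA ρ φ / 3) hq
    (by positivity) (mS3 φ) (fun v hv => hv.1.1) ?_
  · refine key.trans (le_of_eq ?_)
    unfold lF
    congr 4
    field_simp
  · rintro v ⟨⟨h0, h1⟩, ⟨h2, h3⟩⟩
    have hm := mm_pos ρ
    have h4 := cos_far (u := φ - v) (by linarith) (by linarith)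
    have h5 := Qm_AL hρ (rho_le_mm' hρ) h0.le h1 hφ
    have h6 := Qm_left_x hρ h0.le
    have hpm := pm_neg' hm h0.le
    have h7 := he.2 (min 1 (v / mm ρ)) (le_min one_pos.le (div_nonneg h0.le hm.le))
      (min_le_left _ _)
    rw [Dm_left_eq (hcos v), hpm]
    have h8 := exp_pos (-min 1 (v / mm ρ))
    have h9 := mul_le_mul_of_nonneg_left h4 h8.le
    unfold lA
    linarith

theorem jL4 (hρ : 0 < ρ) (hφ : 0 < φ) (hφ2 : φ < 2 * π) (hq : 0 < q)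
    (hcos : ∀ v, cos (θ + -v) = cos (φ - v)) :
    ∫⁻ v in S4 φ, ENNReal.ofReal (exp (-(q * Dm (mm ρ) ρ θ (-v)))) ≤
      ENNReal.ofReal (lO q ρ φ) := by
  unfold lO
  split_ifs with hc
  · refine (base_half (E := fun v => Dm (mm ρ) ρ θ (-v)) (c := 11 / 25 * (2 * π - φ) ^ 2) hq
      (A := lA ρ φ) (lA_pos hρ hφ) (mS4 φ) (fun v hv => hv.1.1) ?_)
    rintro v ⟨⟨h0, h1⟩, h2⟩
    have h2' : v ≤ φ - (2 * π - 6 / 5) := h2
    have h4 := cos_near (u := φ - v) (by linarith) (by linarith)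
    have h5 := Qm_AL hρ (rho_le_mm' hρ) h0.le h1 hφ
    have hm := mm_pos ρ
    have hmg := mm_ge ρ
    have hpm := pm_neg' hm h0.le
    have h8 := exp_pos (-min 1 (v / mm ρ))
    have h9 := mul_le_mul_of_nonneg_left h4 h8.le
    set ψ := 2 * π - φ with hψ
    have hψ0 : 0 < ψ := by linarith
    -- `e^x ≤ (1 + v/ψ)²`
    set y := 4 / 5 * v with hy
    have hy0 : 0 ≤ y := by positivity
    have hy1 : y ≤ 1 := by linarith
    have hxy : min 1 (v / mm ρ) ≤ y := by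
      refine (min_le_right _ _).trans ?_
      rw [div_le_iff₀ hm]
      nlinarith
    have h10 : exp (min 1 (v / mm ρ)) ≤ 1 + y + y ^ 2 := by
      refine (exp_le_exp.2 hxy).trans ?_
      have := exp_le_cubic hy0 hy1
      nlinarith [mul_nonneg hy0 (sq_nonneg y)]
    have h11 : exp (-min 1 (v / mm ρ)) * exp (min 1 (v / mm ρ)) = 1 := by
      rw [← exp_add, neg_add_cancel, exp_zero]
    have h12 : ψ ^ 2 * exp (min 1 (v / mm ρ)) ≤ (ψ + v) ^ 2 := by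
      have h13 : ψ ^ 2 * exp (min 1 (v / mm ρ)) ≤ ψ ^ 2 * (1 + y + y ^ 2) :=
        mul_le_mul_of_nonneg_left h10 (sq_nonneg ψ)
      refine h13.trans ?_
      have hψ2 : ψ + v ≤ 6 / 5 := by linarith
      have h14 : ψ ^ 2 ≤ 6 / 5 * ψ := by nlinarith
      have h15 : ψ ^ 2 ≤ 36 / 25 := by nlinarith
      have h16 : ψ ^ 2 * y ≤ 6 / 5 * ψ * y := mul_le_mul_of_nonneg_right h14 hy0
      have h17 : ψ ^ 2 * y ^ 2 ≤ 36 / 25 * y ^ 2 := mul_le_mul_of_nonneg_right h15 (sq_nonneg y)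
      have h18 : 36 / 25 * y ^ 2 ≤ v ^ 2 := by rw [hy]; nlinarith [sq_nonneg v]
      have h19 : 6 / 5 * ψ * y ≤ 2 * ψ * v := by
        rw [hy]
        nlinarith [mul_nonneg hψ0.le h0.le]
      nlinarith
    have h20 : ψ ^ 2 ≤ exp (-min 1 (v / mm ρ)) * (ψ + v) ^ 2 := by
      have h21 := mul_le_mul_of_nonneg_left h12 h8.le
      calc ψ ^ 2 = exp (-min 1 (v / mm ρ)) * (ψ ^ 2 * exp (min 1 (v / mm ρ))) := by
            linear_combination (-ψ ^ 2) * h11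
        _ ≤ _ := h21
    have h22 : 2 * π - (φ - v) = ψ + v := by rw [hψ]; ring
    rw [h22] at h9
    rw [Dm_left_eq (hcos v), hpm]
    unfold lA
    nlinarith
  · have hS : S4 φ = ∅ := by
      ext v
      simp only [S4, mem_inter_iff, mem_Ioc, mem_Iic, mem_empty_iff_false, iff_false]
      rintro ⟨⟨h0, _⟩, h2⟩
      linarith
    rw [hS]
    simp

end left

end

end SokalDz
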