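import Pool.Agent.Lib_MP_af4de1_v3.SadEx

/-!
# F1, plan v3: `PSad1.sad` for `Γ < 10` (`SadA`) and `PSad1.inn`

`|η|² ≤ u2 R`, `u2 = 9/16 · 10/49.9 ≤ .11274` (inner angles: `u2 = .01253`).
* `y ≥ 0`: `ρ(1 - e^-y) + (y + y²/2)e^y/ρ ≤ η`; if `y ≥ y0` the left side is at least `a ρ + b/ρ` with `a² ≥ u2`,
  `2ab > u2`: contradiction. Similarly for `y = -t`.
* `T`: `s = |sin ψ| ≤ .3552`.
-/

set_option autoImplicit false

namespace SokalV3

open Complex SokalU SokalF1 SokalF1S SokalF1M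

/-- the contradiction -/
theorem psa_no_big {ρ a b u2 η : ℝ} (hρ : 0 < ρ) (ha : 0 ≤ a) (hb : 0 ≤ b) (h1 : u2 ≤ a ^ 2)
    (h2 : u2 < 2 * a * b) (hη : a * ρ + b / ρ ≤ η) (hs : η ^ 2 ≤ u2 * (1 + ρ ^ 2)) : False := by
  have h6 : 0 < ρ⁻¹ := inv_pos.2 hρ
  have h7 : ρ * ρ⁻¹ = 1 := mul_inv_cancel₀ hρ.ne'
  rw [div_eq_mul_inv] at hη
  have h0 : 0 ≤ a * ρ + b * ρ⁻¹ := by positivity
  have h3 : (a * ρ + b * ρ⁻¹) ^ 2 ≤ η ^ 2 := pow_le_pow_left₀ h0 hη 2
  have h4 : (a * ρ + b * ρ⁻¹) ^ 2 = a ^ 2 * ρ ^ 2 + 2 * a * b + (b * ρ⁻¹) ^ 2 := by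
    linear_combination (2 * a * b) * h7
  have h5 := mul_le_mul_of_nonneg_right h1 (sq_nonneg ρ)
  have h8 := sq_nonneg (b * ρ⁻¹)
  nlinarith

theorem psa_y_le_of {ρ y y0 a b u2 η : ℝ} (hD : Dom ρ y) (hE : sE ρ y = η) (h0 : 0 ≤ y0)
    (hs : η ^ 2 ≤ u2 * (1 + ρ ^ 2)) (ha : 0 ≤ a) (hb : 0 ≤ b) (h1 : u2 ≤ a ^ 2)
    (h2 : u2 < 2 * a * b) (hea : a ≤ 1 - Real.exp (-y0))
    (heb : b ≤ (y0 + y0 ^ 2 / 2) * Real.exp y0) : y ≤ y0 := by
  by_contra hcon
  push Not at hcon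
  have hρ := hD.1
  have hy : 0 ≤ y := h0.trans hcon.le
  have h3 := sE_ge_pos hD hy
  rw [hE] at h3
  have h4 : Real.exp (-y) ≤ Real.exp (-y0) := Real.exp_le_exp.2 (by linarith)
  have h5 : Real.exp y0 ≤ Real.exp y := Real.exp_le_exp.2 hcon.le
  have h6 : b ≤ (y + y ^ 2 / 2) * Real.exp y := by
    refine heb.trans (mul_le_mul ?_ h5 (Real.exp_pos _).le (by positivity))
    nlinarith
  refine psa_no_big hρ ha hb h1 h2 (le_trans ?_ h3) hs
  have h7 : a * ρ ≤ ρ * (1 - Real.exp (-y)) := by nlinarith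
  have h8 : b / ρ ≤ (y + y ^ 2 / 2) * Real.exp y / ρ := div_le_div_of_nonneg_right h6 hρ.le
  linarith

/-- `(t - t²/2) e^(-t)` on `[t0, 1]` is at least `min` of the values at the ends -/
theorem psa_tb_ge {t0 t b : ℝ} (ht0 : t0 ≤ t) (ht1 : t ≤ 1) (hb : b ≤ 18 / 100)
    (heb : b ≤ (t0 - t0 ^ 2 / 2) * Real.exp (-t0)) : b ≤ (t - t ^ 2 / 2) * Real.exp (-t) := by
  -- increasing up to `2 - √2`, decreasing after
  have hd : ∀ u : ℝ, HasDerivAt (fun u : ℝ => (u - u ^ 2 / 2) * Real.exp (-u))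
      ((1 - 2 * u + u ^ 2 / 2) * Real.exp (-u)) u := by
    intro u
    have e2 : HasDerivAt (fun u : ℝ => Real.exp (-u)) (-Real.exp (-u)) u := by
      have := (hasDerivAt_neg u).exp
      simpa using this
    have e3 : HasDerivAt (fun u : ℝ => u - u ^ 2 / 2) (1 - u) u := by
      have h := (hasDerivAt_id u).sub ((hasDerivAt_pow 2 u).div_const 2)
      refine h.congr_deriv ?_
      simp
    refine (e3.mul e2).congr_deriv ?_
    ring
  have hc : Continuous (fun u : ℝ => (u - u ^ 2 / 2) * Real.exp (-u)) := by fun_prop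
  rcases le_total t (29 / 50) with h | h
  · have hm : MonotoneOn (fun u : ℝ => (u - u ^ 2 / 2) * Real.exp (-u)) (Set.Icc t0 (29 / 50)) := by
      refine monotoneOn_of_deriv_nonneg (convex_Icc _ _) hc.continuousOn
        (fun u _ => (hd u).differentiableAt.differentiableWithinAt) (fun u hu => ?_)
      rw [interior_Icc] at hu
      rw [(hd u).deriv]
      have h1 := hu.2
      have h2 := hu.1
      refine mul_nonneg ?_ (Real.exp_pos _).le
      nlinarith
    exact heb.trans (hm ⟨le_rfl, ht0.trans h⟩ ⟨ht0, h⟩ ht0)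
  · have e1 : Real.exp t ≤ Real.exp 1 := Real.exp_le_exp.2 ht1
    have e1' := Real.exp_one_lt_d9
    rcases le_total t (9 / 10) with h' | h'
    · -- `t ∈ [.58, .9]`: `t - t²/2 ≥ .4118`, `e^-t ≥ .406`... use `t = .58`: value ≥ .4118·e^(-t)
      have hexp : (40 : ℝ) / 100 ≤ Real.exp (-t) := by
        have h3 : Real.exp (-(9 / 10)) ≤ Real.exp (-t) := Real.exp_le_exp.2 (by linarith)
        have e2 : Real.exp (9 / 10) ≤ 246 / 100 := by
          have h := Real.exp_bound' (show (0 : ℝ) ≤ 9 / 10 by norm_num) (by norm_num) (n := 8)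
            (by norm_num)
          simp only [Finset.sum_range_succ, Finset.sum_range_zero, Nat.factorial] at h
          norm_num at h
          linarith
        have e3 : (40 : ℝ) / 100 ≤ Real.exp (-(9 / 10)) := by
          rw [Real.exp_neg, le_inv_comm₀ (by norm_num) (Real.exp_pos _)]
          refine e2.trans ?_
          norm_num
        linarith
      rcases le_total t (7 / 10) with h'' | h''
      · have hexp2 : (49 : ℝ) / 100 ≤ Real.exp (-t) := by
          have h3 : Real.exp (-(7 / 10)) ≤ Real.exp (-t) := Real.exp_le_exp.2 (by linarith)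
          have e2 : Real.exp (7 / 10) ≤ 2014 / 1000 := by
            have h := Real.exp_bound' (show (0 : ℝ) ≤ 7 / 10 by norm_num) (by norm_num) (n := 8)
              (by norm_num)
            simp only [Finset.sum_range_succ, Finset.sum_range_zero, Nat.factorial] at h
            norm_num at h
            linarith
          have e3 : (49 : ℝ) / 100 ≤ Real.exp (-(7 / 10)) := by
            rw [Real.exp_neg, le_inv_comm₀ (by norm_num) (Real.exp_pos _)]
            refine e2.trans ?_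
            norm_num
          linarith
        have h5 : (411 : ℝ) / 1000 ≤ t - t ^ 2 / 2 := by nlinarith
        nlinarith
      · have h5 : (455 : ℝ) / 1000 ≤ t - t ^ 2 / 2 := by nlinarith
        nlinarith
    · have h5 : (495 : ℝ) / 1000 ≤ t - t ^ 2 / 2 := by nlinarith
      have h6 : (367 : ℝ) / 1000 ≤ Real.exp (-t) := by
        rw [Real.exp_neg, le_inv_comm₀ (by norm_num) (Real.exp_pos _)]
        refine le_trans (e1.trans e1'.le) ?_
        norm_num
      nlinarith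

theorem psa_t_le_of {ρ t t0 a b u2 η : ℝ} (hD : Dom ρ (-t)) (ht : t ≤ 1) (hE : sE ρ (-t) = η)
    (h0 : 0 ≤ t0) (hs : η ^ 2 ≤ u2 * (1 + ρ ^ 2)) (ha : 0 ≤ a) (hb : 0 ≤ b) (h1 : u2 ≤ a ^ 2)
    (h2 : u2 < 2 * a * b) (hea : a ≤ Real.exp t0 - 1) (hb18 : b ≤ 18 / 100)
    (heb : b ≤ (t0 - t0 ^ 2 / 2) * Real.exp (-t0)) : t ≤ t0 := by
  by_contra hcon
  push Not at hcon
  have hρ := hD.1
  have hy : 0 ≤ t := h0.trans hcon.le
  have h3 := sE_le_neg hD hy ht
  rw [hE] at h3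
  have h5 : Real.exp t0 ≤ Real.exp t := Real.exp_le_exp.2 hcon.le
  have h6 := psa_tb_ge hcon.le ht hb18 heb
  refine psa_no_big (η := -η) hρ ha hb h1 h2 (le_trans ?_ h3) (by rwa [neg_sq])
  have h7 : a * ρ ≤ ρ * (Real.exp t - 1) := by nlinarith
  have h8 : b / ρ ≤ (t - t ^ 2 / 2) * Real.exp (-t) / ρ := div_le_div_of_nonneg_right h6 hρ.le
  linarith

/-! ### the angles for `Γ < 10` -/

theorem psa_eo_sq {N : ℕ} {r δ η : ℝ} (h : Reg1 N r δ) (hG : Gm N r δ < 10)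
    (hη : |η| ≤ eo1 N r δ) : η ^ 2 ≤ 11273 / 100000 * (1 + (r * δ) ^ 2) := by
  have h3 := psa_hst_sq_le h.toPar hG.le
  have h1 : η ^ 2 ≤ eo1 N r δ ^ 2 := by
    rw [← sq_abs η]
    exact pow_le_pow_left₀ (abs_nonneg _) hη 2
  have h2 : eo1 N r δ = 3 / 4 * hst N := by
    unfold eo1 om1
    rw [if_pos hG]
    norm_num
  have hR : RR r δ = 1 + (r * δ) ^ 2 := rfl
  rw [hR] at h3
  rw [h2] at h1
  nlinarith [sq_nonneg (r * δ)]

theorem psa_ei_sq {N : ℕ} {r δ η : ℝ} (h : Reg1 N r δ) (hG : Gm N r δ < 10)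
    (hη : |η| ≤ ei1 N r δ) : η ^ 2 ≤ 1253 / 100000 * (1 + (r * δ) ^ 2) := by
  have h3 := psa_hst_sq_le h.toPar hG.le
  have h1 : η ^ 2 ≤ ei1 N r δ ^ 2 := by
    rw [← sq_abs η]
    exact pow_le_pow_left₀ (abs_nonneg _) hη 2
  have h2 : ei1 N r δ = 1 / 4 * hst N := by
    unfold ei1 om1
    rw [if_pos hG]
    norm_num
  have hR : RR r δ = 1 + (r * δ) ^ 2 := rfl
  rw [hR] at h3
  rw [h2] at h1
  nlinarith [sq_nonneg (r * δ)]

theorem psa_exp_lb (x : ℝ) (hx : 0 ≤ x) :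
    1 + x + x ^ 2 / 2 + x ^ 3 / 6 + x ^ 4 / 24 + x ^ 5 / 120 ≤ Real.exp x := by
  have h := Real.sum_le_exp_of_nonneg hx 6
  simp only [Finset.sum_range_succ, Finset.sum_range_zero, Nat.factorial] at h
  norm_num at h
  linarith

theorem psa_exp_ub (x : ℝ) (hx : 0 ≤ x) (hx1 : x ≤ 1) :
    Real.exp x ≤ 1 + x + x ^ 2 / 2 + x ^ 3 / 6 + x ^ 4 / 24 + x ^ 5 / 120 + x ^ 6 * (7 / (720 * 6)) := by
  have h := Real.exp_bound' hx hx1 (n := 6) (by norm_num)
  simp only [Finset.sum_range_succ, Finset.sum_range_zero, Nat.factorial] at h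
  norm_num at h
  linarith

theorem psa_exp_neg_ub {x a b : ℝ} (h : b ≤ Real.exp x) (hb : 0 < b) (hab : 1 ≤ a * b) :
    Real.exp (-x) ≤ a := by
  have ha : 0 < a := by
    by_contra hc
    push Not at hc
    nlinarith
  rw [Real.exp_neg, inv_le_comm₀ (Real.exp_pos _) ha]
  refine le_trans ?_ h
  rw [inv_le_iff_one_le_mul₀ ha]
  linarith

theorem psa_exp_neg_lb {x a b : ℝ} (h : Real.exp x ≤ b) (ha : 0 < a) (hab : a * b ≤ 1) :
    a ≤ Real.exp (-x) := by
  rw [Real.exp_neg, le_inv_comm₀ ha (Real.exp_pos _)]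
  refine h.trans ?_
  rw [le_inv_comm₀ (lt_of_lt_of_le (Real.exp_pos _) h) ha]
  have hb : 0 < b := lt_of_lt_of_le (Real.exp_pos _) h
  rw [inv_eq_one_div, le_div_iff₀ hb]
  exact hab

theorem psa_e41 : (15068 : ℝ) / 10000 ≤ Real.exp (41 / 100) := by
  refine le_trans ?_ (psa_exp_lb _ (by norm_num))
  norm_num

theorem psa_e41' : Real.exp (41 / 100) ≤ 15069 / 10000 := by
  refine (psa_exp_ub _ (by norm_num) (by norm_num)).trans ?_
  norm_num

theorem psa_e31 : (1363 : ℝ) / 1000 ≤ Real.exp (31 / 100) := by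
  refine le_trans ?_ (psa_exp_lb _ (by norm_num))
  norm_num

theorem psa_e31' : Real.exp (31 / 100) ≤ 13635 / 10000 := by
  refine (psa_exp_ub _ (by norm_num) (by norm_num)).trans ?_
  norm_num

theorem psa_e15 : (1161 : ℝ) / 1000 ≤ Real.exp (3 / 20) := by
  refine le_trans ?_ (psa_exp_lb _ (by norm_num))
  norm_num

theorem psa_e15' : Real.exp (3 / 20) ≤ 1162 / 1000 := by
  refine (psa_exp_ub _ (by norm_num) (by norm_num)).trans ?_
  norm_num

/-- `hi` -/
theorem psa_hi {ρ y η : ℝ} (hD : Dom ρ y) (hE : sE ρ y = η)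
    (hs : η ^ 2 ≤ 11273 / 100000 * (1 + ρ ^ 2)) : y ≤ 41 / 100 := by
  have h1 : Real.exp (-(41 / 100)) ≤ 664 / 1000 :=
    psa_exp_neg_ub psa_e41 (by norm_num) (by norm_num)
  have h2 := psa_e41
  refine psa_y_le_of (a := 336 / 1000) (b := 1 / 2) hD hE (by norm_num) hs (by norm_num)
    (by norm_num) (by norm_num) (by norm_num) (by linarith) ?_
  norm_num
  linarith

/-- `lo` -/
theorem psa_lo {ρ y η : ℝ} (hD : Dom ρ y) (hy : -1 < y) (hE : sE ρ y = η)
    (hs : η ^ 2 ≤ 11273 / 100000 * (1 + ρ ^ 2)) : -(31 / 100) ≤ y := by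
  have h1 : (7333 : ℝ) / 10000 ≤ Real.exp (-(31 / 100)) :=
    psa_exp_neg_lb psa_e31' (by norm_num) (by norm_num)
  have h2 := psa_e31
  have h3 := psa_t_le_of (ρ := ρ) (t := -y) (t0 := 31 / 100) (a := 36 / 100) (b := 18 / 100)
    (η := η) (by rwa [neg_neg]) (by linarith) (by rwa [neg_neg]) (by norm_num) hs (by norm_num)
    (by norm_num) (by norm_num) (by norm_num) (by linarith) (by norm_num) (by
      norm_num
      linarith)
  linarith

/-- inner angles -/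
theorem psa_inn {ρ y η : ℝ} (hD : Dom ρ y) (hy : -1 < y) (hE : sE ρ y = η)
    (hs : η ^ 2 ≤ 1253 / 100000 * (1 + ρ ^ 2)) : |y| ≤ 3 / 20 := by
  have h1 : Real.exp (-(3 / 20)) ≤ 8614 / 10000 :=
    psa_exp_neg_ub psa_e15 (by norm_num) (by norm_num)
  have h1' : (860 : ℝ) / 1000 ≤ Real.exp (-(3 / 20)) :=
    psa_exp_neg_lb psa_e15' (by norm_num) (by norm_num)
  have h2 := psa_e15
  have h4 : y ≤ 3 / 20 := by
    refine psa_y_le_of (a := 138 / 1000) (b := 18 / 100) hD hE (by norm_num) hs (by norm_num)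
      (by norm_num) (by norm_num) (by norm_num) (by linarith) ?_
    norm_num
    linarith
  have h3 := psa_t_le_of (ρ := ρ) (t := -y) (t0 := 3 / 20) (a := 16 / 100) (b := 11 / 100)
    (η := η) (by rwa [neg_neg]) (by linarith) (by rwa [neg_neg]) (by norm_num) hs (by norm_num)
    (by norm_num) (by norm_num) (by norm_num) (by linarith) (by norm_num) (by
      norm_num
      linarith)
  exact abs_le.2 ⟨by linarith, h4⟩

/-- `T`, `y ≥ 0` -/
theorem psa_T_pos {ρ y η : ℝ} (hD : Dom ρ y) (hy : 0 ≤ y) (hy1 : y ≤ 41 / 100)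
    (hE : sE ρ y = η) (hs : η ^ 2 ≤ 11273 / 100000 * (1 + ρ ^ 2)) :
    y ≤ 19 / 50 * sx ρ y := by
  by_contra hcon
  push Not at hcon
  have hρ := hD.1
  have hx := sx_nonneg ρ y
  have hx2 := sx_sq_add hD
  have hsin := y_exp_eq hD
  have h3 := sE_ge_pos hD hy
  rw [hE] at h3
  have e1 := exp_mul_neg y
  have hEp := Real.exp_pos y
  have hEn := Real.exp_pos (-y)
  have hE1 : (663 : ℝ) / 1000 ≤ Real.exp (-y) := by
    refine le_trans (psa_exp_neg_lb psa_e41' (by norm_num) (by norm_num)) ?_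
    exact Real.exp_le_exp.2 (by linarith)
  have hadd := Real.add_one_le_exp y
  set E := Real.exp y with hEdef
  set E' := Real.exp (-y) with hE'def
  set s := Real.sin (sP ρ y) with hsdef
  -- `s ≥ .3552`
  have h4 : (ρ * E') ^ 2 ≤ 79253 / 10000 * y ^ 2 := by
    rw [← hx2]
    nlinarith
  have h5 : y = ρ * E' * s := y_eq hD
  have hs0 : 0 ≤ s := by
    have h6 : 0 ≤ ρ * s := by
      rw [← hsin]
      positivity
    exact nonneg_of_mul_nonneg_right h6 hρ
  have h6 : 0 < ρ * E' := by positivity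
  have h7 : (3552 : ℝ) / 10000 ≤ s := by
    rw [h5] at h4
    have h8 : (ρ * E') ^ 2 * 1 ≤ (ρ * E') ^ 2 * (79253 / 10000 * s ^ 2) := by
      linarith [show (ρ * E') ^ 2 * (79253 / 10000 * s ^ 2) =
        79253 / 10000 * (ρ * E' * s) ^ 2 by ring]
    have h9 := le_of_mul_le_mul_left h8 (by positivity)
    nlinarith
  -- `η ≥ s + .156 ρ²`
  have h8 : (y + y ^ 2 / 2) * E / ρ = (1 + y / 2) * s := by
    rw [div_eq_iff hρ.ne']
    linear_combination (1 + y / 2) * hsin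
  rw [h8] at h3
  have h9 : 3552 / 10000 * (663 / 1000) * ρ ≤ y := by
    rw [h5]
    have : 663 / 1000 * (3552 / 10000) ≤ E' * s := mul_le_mul hE1 h7 (by norm_num) hEn.le
    nlinarith
  have h10 : 663 / 1000 * y ≤ 1 - E' := by
    have h11 : 1 - E' = E' * (E - 1) := by linear_combination -e1
    rw [h11]
    nlinarith
  have h12 : 3552 / 10000 + 156 / 1000 * ρ ^ 2 ≤ η := by
    have h13 : 156 / 1000 * ρ ≤ 1 - E' := by nlinarith
    nlinarith [mul_nonneg hy hs0, mul_le_mul_of_nonneg_left h13 hρ.le]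
  have h13 : (3552 / 10000 + 156 / 1000 * ρ ^ 2) ^ 2 ≤ η ^ 2 :=
    pow_le_pow_left₀ (by positivity) h12 2
  nlinarith [sq_nonneg (ρ ^ 2 - 1 / 20), sq_nonneg (ρ ^ 2)]

/-- `T`, `y = -t ≤ 0` -/
theorem psa_T_neg {ρ t η : ℝ} (hD : Dom ρ (-t)) (ht : 0 ≤ t) (ht1 : t ≤ 31 / 100)
    (hE : sE ρ (-t) = η) (hs : η ^ 2 ≤ 11273 / 100000 * (1 + ρ ^ 2)) :
    t ≤ 19 / 50 * sx ρ (-t) := by
  by_contra hcon
  push Not at hcon
  have hρ := hD.1
  have hx := sx_nonneg ρ (-t)
  have hx2 := sx_sq_add hD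
  have h3 := sE_le_neg hD ht (by linarith)
  rw [hE] at h3
  rw [neg_neg] at hx2
  have e1 := exp_mul_neg t
  have hEp := Real.exp_pos t
  have hEn := Real.exp_pos (-t)
  have hE1 : Real.exp t ≤ 13635 / 10000 := (Real.exp_le_exp.2 ht1).trans psa_e31'
  have hE2 : 1 ≤ Real.exp t := Real.one_le_exp ht
  have hadd := Real.add_one_le_exp t
  have hdom : t * Real.exp (-t) ≤ ρ := by
    have := hD.2
    rwa [abs_neg, abs_of_nonneg ht] at this
  set E := Real.exp t with hEdef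
  set E' := Real.exp (-t) with hE'def
  set s := t * E' / ρ with hsdef
  have hs0 : 0 ≤ s := by positivity
  have hs1 : s ≤ 1 := by
    rw [hsdef, div_le_one hρ]
    exact hdom
  have hsr : s * ρ = t * E' := by
    rw [hsdef]
    field_simp
  have h5 : t = ρ * E * s := by linear_combination (-t) * e1 - E * hsr
  have h4 : (ρ * E) ^ 2 ≤ 79253 / 10000 * t ^ 2 := by
    rw [← hx2]
    nlinarith
  have h6 : 0 < ρ * E := by positivity
  have h7 : (3552 : ℝ) / 10000 ≤ s := by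
    rw [h5] at h4
    have h8 : (ρ * E) ^ 2 * 1 ≤ (ρ * E) ^ 2 * (79253 / 10000 * s ^ 2) := by
      linarith [show (ρ * E) ^ 2 * (79253 / 10000 * s ^ 2) =
        79253 / 10000 * (ρ * E * s) ^ 2 by ring]
    have h9 := le_of_mul_le_mul_left h8 (by positivity)
    nlinarith
  have h8 : (t - t ^ 2 / 2) * E' / ρ = (1 - t / 2) * s := by
    rw [div_eq_iff hρ.ne']
    linear_combination (-(1 - t / 2)) * hsr
  rw [h8] at h3
  -- `F ≥ s + t (ρ - s/2)`
  have h9 : s + t * (ρ - s / 2) ≤ -η := by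
    have : ρ * t ≤ ρ * (E - 1) := mul_le_mul_of_nonneg_left (by linarith) hρ.le
    nlinarith
  have h10 : -η ≤ 3358 / 10000 * (1 + ρ ^ 2 / 2) := by
    refine abs_le_of_sq_le_sq' ?_ (by positivity) |>.2
    rw [neg_sq]
    nlinarith [sq_nonneg (ρ ^ 2)]
  have h11 : s * ρ ≤ t := by
    rw [hsr]
    have : E' ≤ 1 := Real.exp_le_one_iff.2 (by linarith)
    nlinarith
  have h12 : t ≤ 13635 / 10000 * (s * ρ) := by
    have h13 : t = E * (s * ρ) := by linear_combination h5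
    rw [h13]
    exact mul_le_mul_of_nonneg_right hE1 (by positivity)
  have hs3 : s ^ 3 ≤ s ^ 2 := by nlinarith [sq_nonneg s]
  rcases le_total (s / 2) ρ with h | h
  · have h13 : s * ρ * (ρ - s / 2) ≤ t * (ρ - s / 2) :=
      mul_le_mul_of_nonneg_right h11 (by linarith)
    have h14 : 0 ≤ 3 / 10 * s * (ρ - s * (5 / 6)) ^ 2 := by positivity
    have h15 : 0 ≤ (7 / 10 * s - 1679 / 10000) * ρ ^ 2 :=
      mul_nonneg (by linarith) (sq_nonneg _)
    have h16 : 3358 / 10000 < s - s ^ 3 * (5 / 24) := by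
      nlinarith [mul_nonneg (sub_nonneg.2 h7) (sub_nonneg.2 hs1), mul_nonneg hs0 (mul_nonneg (sub_nonneg.2 h7) (sub_nonneg.2 hs1))]
    nlinarith
  · have h13 : 13635 / 10000 * (s * ρ) * (ρ - s / 2) ≤ t * (ρ - s / 2) := by
      nlinarith
    have h14 : 0 ≤ 13635 / 10000 * s * (ρ - s / 4) ^ 2 := by positivity
    have h15 : ρ ^ 2 ≤ s ^ 2 / 4 := by nlinarith
    have h16 : 3358 / 10000 + 42 / 1000 * s ^ 2 < s - s ^ 3 * (13635 / 160000) := by
      nlinarith [mul_nonneg (sub_nonneg.2 h7) (sub_nonneg.2 hs1), mul_nonneg hs0 (mul_nonneg (sub_nonneg.2 h7) (sub_nonneg.2 hs1))]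
    nlinarith

/-- PIECE `PSad1.sad`, case `Γ < 10` -/
theorem psad1_sadA (N : ℕ) (r δ y η : ℝ) (h : Reg1 N r δ) (hA : At r δ y η)
    (hG : Gm N r δ < 10) (hη : |η| ≤ eo1 N r δ) : SadA N r δ y := by
  have hs := psa_eo_sq h hG hη
  have hD := hA.dom
  have hy1 := hA.y1
  have hE := hA.eta
  have hlo := psa_lo hD hy1 hE hs
  have hhi := psa_hi hD hE hs
  have hT : |y| ≤ 19 / 50 * sx (r * δ) y := by
    rcases le_total 0 y with h0 | h0
    · rw [abs_of_nonneg h0]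
      exact psa_T_pos hD h0 hhi hE hs
    · rw [abs_of_nonpos h0]
      have h1 := psa_T_neg (ρ := r * δ) (t := -y) (η := η) (by rwa [neg_neg]) (by linarith)
        (by linarith) (by rwa [neg_neg]) hs
      rwa [neg_neg] at h1
  have hx := sx_nonneg (r * δ) y
  have hx2 := sx_sq hD
  refine ⟨hlo, hhi, hT, ?_, ?_⟩
  · unfold sD2
    rcases le_total 0 y with h0 | h0
    · nlinarith [sq_nonneg (sx (r * δ) y)]
    · rw [abs_of_nonpos h0] at hT
      have h1 : (-y) ^ 2 ≤ (19 / 50 * sx (r * δ) y) ^ 2 := pow_le_pow_left₀ (by linarith) hT 2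
      nlinarith [sq_nonneg (y + 1 / 8)]
  · have hHH : 82 / 100 ≤ 1 / 20 * HH N r δ := by
      have h1 := psa_Gm_mul N r δ
      have hR := psa_RR_pos r δ
      have hr := h.r0
      have hG5 := h.G
      have h2 : HH N r δ ^ 2 = r * Gm N r δ := by
        unfold HH Gm
        rw [div_pow, Real.sq_sqrt hR.le]
        ring
      have h3 : 499 / 10 * (27 / 5) ≤ r * Gm N r δ := mul_le_mul hr hG5 (by norm_num) (by linarith)
      have h4 : 0 ≤ HH N r δ := by
        have h5 := (psa_hst_pos (N := N) (le_trans (by norm_num) h.N3)).le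
        unfold HH
        have : 0 ≤ r := by linarith
        positivity
      have h5 : 164 / 10 ≤ HH N r δ := by
        refine abs_le_of_sq_le_sq' ?_ h4 |>.2
        rw [h2]
        refine le_trans ?_ h3
        norm_num
      linarith
    refine le_trans ?_ hHH
    unfold kD
    have hpos : 0 < sD2 (r * δ) y := sD2_pos hy1
    rw [norm_sK hD, div_le_iff₀ hpos]
    unfold sD2
    rw [hx2]
    nlinarith [sq_nonneg (r * δ * Real.exp (-y) - 61 / 100)]

/-- PIECE `PSad1.inn` -/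
theorem psad1_inn (N : ℕ) (r δ y η : ℝ) (h : Reg1 N r δ) (hA : At r δ y η)
    (hG : Gm N r δ < 10) (hη : |η| ≤ ei1 N r δ) : |y| ≤ 3 / 20 :=
  psa_inn hA.dom hA.y1 hA.eta (psa_ei_sq h hG hη)

end SokalV3
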