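import Pool.Agent.Lib_MP_af4de1_v3.DzDefs
import Pool.Agent.Lib_MP_af4de1_v3.SadA

/-!
# Fields `d`: the numbers of the reduction (helper48)

`s = i` (real, `≥ 2`), `t = |η|/h`, `X = Γ (s + t)²`; class A: `Γ < 10`, B: `10 ≤ Γ < 20`, C: `Γ ≥ 20`.
-/

set_option autoImplicit false

namespace SokalDz

open Real SokalCen SokalV3

/-- the constants `(g, k, q)`, the bound of `t` and of `Γ` for one class -/
inductive Cls (Γ t : ℝ) : ℝ → ℝ → ℝ → Prop
  | A (h1 : 27 / 5 ≤ Γ) (h2 : Γ < 10) (h3 : t ≤ 3 / 4) : Cls Γ t (6 / 5) (6 / 5) (27 / 20)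
  | B (h1 : 10 ≤ Γ) (h2 : Γ < 20) (h3 : t ≤ 13 / 20) : Cls Γ t (13 / 10) (13 / 10) (71 / 50)
  | C (h1 : 20 ≤ Γ) (h3 : t ≤ 3 / 5) : Cls Γ t (7 / 5) (3 / 2) (3 / 2)

theorem Cls.g0 {Γ t g k q : ℝ} (h : Cls Γ t g k q) : 0 < g := by cases h <;> norm_num
theorem Cls.k0 {Γ t g k q : ℝ} (h : Cls Γ t g k q) : 0 < k := by cases h <;> norm_num
theorem Cls.q0 {Γ t g k q : ℝ} (h : Cls Γ t g k q) : 0 < q := by cases h <;> norm_num
theorem Cls.G0 {Γ t g k q : ℝ} (h : Cls Γ t g k q) : 27 / 5 ≤ Γ := by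
  cases h with
  | A h1 h2 h3 => exact h1
  | B h1 h2 h3 => linarith
  | C h1 h3 => linarith

/-- `√q (1 + k t)² ≤ 9/2` -/
theorem Cls.pre {Γ t g k q : ℝ} (h : Cls Γ t g k q) (ht : 0 ≤ t) : √q * (1 + k * t) ^ 2 ≤ 9 / 2 := by
  have h1 : √q ≤ 49 / 40 := by
    rw [Real.sqrt_le_iff]
    cases h <;> norm_num
  have h2 : 0 ≤ k * t ∧ k * t ≤ 9 / 10 := by
    cases h with
    | A h1 h2 h3 => constructor <;> nlinarith
    | B h1 h2 h3 => constructor <;> nlinarith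
    | C h1 h3 => constructor <;> nlinarith
  have h3 : (1 + k * t) ^ 2 ≤ (19 / 10) ^ 2 := pow_le_pow_left₀ (by linarith) (by linarith) 2
  calc √q * (1 + k * t) ^ 2 ≤ 49 / 40 * (19 / 10) ^ 2 :=
        mul_le_mul h1 h3 (by positivity) (by norm_num)
    _ ≤ 9 / 2 := by norm_num

private theorem two_le_exp : (2 : ℝ) ≤ exp (7 / 10) := by
  refine le_trans ?_ (psa_exp_lb _ (by norm_num))
  norm_num

theorem two_pow_le (i : ℕ) : (2 : ℝ) ^ i ≤ exp (7 / 10 * i) := by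
  have h := pow_le_pow_left₀ (by norm_num) two_le_exp i
  rwa [← Real.exp_nat_mul, mul_comm] at h

/-- from the exponent to the claim -/
theorem claim_of {P c E β : ℝ} {i : ℕ} (hP : P ≤ 9 / 2) (hc : 0 ≤ c)
    (hβ : 450 * c ≤ exp β) (h : 7 / 10 * (i : ℝ) + β + E ≤ 0) :
    P * (c * exp E) ≤ (1 / 2) ^ i / 100 := by
  have h2 := two_pow_le i
  have hE := exp_pos E
  have e1 : exp (7 / 10 * (i : ℝ)) * exp β * exp E ≤ 1 := by
    rw [← exp_add, ← exp_add, exp_le_one_iff]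
    exact h
  have e2 : (2 : ℝ) ^ i * (450 * c) * exp E ≤ 1 := by
    refine le_trans ?_ e1
    gcongr
  have h2p : (0 : ℝ) < 2 ^ i := by positivity
  have e3 : P * (c * exp E) ≤ 9 / 2 * (c * exp E) := by gcongr
  refine e3.trans ?_
  rw [div_pow, one_pow, div_div, le_div_iff₀ (by positivity)]
  calc 9 / 2 * (c * exp E) * (2 ^ i * 100) = 2 ^ i * (450 * c) * exp E := by ring
    _ ≤ 1 := e2

private theorem exp_b1 : (450 : ℝ) * (2 / 25) ≤ exp (18 / 5) := by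
  have h := psa_exp_lb (9 / 10) (by norm_num)
  have h2 : exp (18 / 5) = exp (9 / 10) ^ 4 := by
    rw [← Real.exp_nat_mul]
    norm_num
  rw [h2]
  refine le_trans ?_ (pow_le_pow_left₀ (by norm_num) h 4)
  norm_num

private theorem exp_b2 : (450 : ℝ) * (1 / 2000) ≤ exp (-(7 / 5)) := by
  have h := psa_exp_ub (7 / 10) (by norm_num) (by norm_num)
  have h2 : exp (-(7 / 5)) = (exp (7 / 10) ^ 2)⁻¹ := by
    rw [← Real.exp_nat_mul, ← Real.exp_neg]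
    norm_num
  rw [h2, le_inv_comm₀ (by norm_num) (by positivity)]
  refine (pow_le_pow_left₀ (exp_pos _).le h 2).trans ?_
  norm_num

/-! ### `i ≥ 3` -/

theorem b1_ge {Γ t g k q s : ℝ} (h : Cls Γ t g k q) (ht : 0 ≤ t) (hs : 3 ≤ s) :
    7 / 10 * s + 18 / 5 + (g / 2 * (Γ * t ^ 2) - 17 / 100 * (Γ * (s + t) ^ 2)) ≤ 0 := by
  have hG := h.G0
  have h1 : 17 / 100 * s ^ 2 ≤ 17 / 100 * (s + t) ^ 2 - g / 2 * t ^ 2 := by
    cases h with
    | A h1 h2 h3 => nlinarith [mul_nonneg ht (sub_nonneg.2 h3), mul_nonneg ht (sub_nonneg.2 hs)]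
    | B h1 h2 h3 => nlinarith [mul_nonneg ht (sub_nonneg.2 h3), mul_nonneg ht (sub_nonneg.2 hs)]
    | C h1 h3 => nlinarith [mul_nonneg ht (sub_nonneg.2 h3), mul_nonneg ht (sub_nonneg.2 hs)]
  have h2 := mul_le_mul_of_nonneg_left h1 (by linarith : 0 ≤ Γ)
  have h3 : 27 / 5 * (17 / 100 * s ^ 2) ≤ Γ * (17 / 100 * s ^ 2) := by gcongr
  nlinarith

theorem b2_ge {Γ t g k q s : ℝ} (h : Cls Γ t g k q) (ht : 0 ≤ t) (hs : 3 ≤ s) :
    7 / 10 * s + -(7 / 5) + (g / 2 * (Γ * t ^ 2) - Γ * (s + t) ^ 2 / 25) ≤ 0 := by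
  cases h with
  | A h1 h2 h3 =>
    have e1 : s ^ 2 / 25 - 27 / 200 ≤ (s + t) ^ 2 / 25 - 3 / 5 * t ^ 2 := by
      nlinarith [mul_nonneg ht (sub_nonneg.2 h3), mul_nonneg ht (sub_nonneg.2 hs)]
    have e2 := mul_le_mul_of_nonneg_left e1 (by linarith : 0 ≤ Γ)
    have e3 : 27 / 5 * (s ^ 2 / 25 - 27 / 200) ≤ Γ * (s ^ 2 / 25 - 27 / 200) :=
      mul_le_mul_of_nonneg_right h1 (by nlinarith)
    nlinarith [sq_nonneg (s - 7 / 4)]
  | B h1 h2 h3 =>
    have e1 : s ^ 2 / 25 - 102 / 1000 ≤ (s + t) ^ 2 / 25 - 13 / 20 * t ^ 2 := by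
      nlinarith [mul_nonneg ht (sub_nonneg.2 h3), mul_nonneg ht (sub_nonneg.2 hs)]
    have e2 := mul_le_mul_of_nonneg_left e1 (by linarith : 0 ≤ Γ)
    have e3 : 10 * (s ^ 2 / 25 - 102 / 1000) ≤ Γ * (s ^ 2 / 25 - 102 / 1000) :=
      mul_le_mul_of_nonneg_right h1 (by nlinarith)
    nlinarith [sq_nonneg (s - 7 / 4)]
  | C h1 h3 =>
    have e1 : s ^ 2 / 25 - 94 / 1000 ≤ (s + t) ^ 2 / 25 - 7 / 10 * t ^ 2 := by
      nlinarith [mul_nonneg ht (sub_nonneg.2 h3), mul_nonneg ht (sub_nonneg.2 hs)]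
    have e2 := mul_le_mul_of_nonneg_left e1 (by linarith : 0 ≤ Γ)
    have e3 : 20 * (s ^ 2 / 25 - 94 / 1000) ≤ Γ * (s ^ 2 / 25 - 94 / 1000) :=
      mul_le_mul_of_nonneg_right h1 (by nlinarith)
    nlinarith

theorem b3_ge {Γ t g k q s r : ℝ} (h : Cls Γ t g k q) (ht : 0 ≤ t) (hs : 3 ≤ s)
    (hr : 499 / 10 ≤ r) (hX : 31 / 4 * r < Γ * (s + t) ^ 2) :
    7 / 10 * s + -(7 / 5) + (g / 2 * (Γ * t ^ 2) - Γ * (s + t) ^ 2 / 40) ≤ 0 := by
  have hX' : 386 < Γ * (s + t) ^ 2 := by linarith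
  cases h with
  | A h1 h2 h3 =>
    have hs6 : 27 / 5 ≤ s := by
      by_contra hc
      push Not at hc
      have : (s + t) ^ 2 ≤ (123 / 20) ^ 2 := pow_le_pow_left₀ (by linarith) (by linarith) 2
      nlinarith
    have e1 : s ^ 2 / 40 - 1 / 8 ≤ (s + t) ^ 2 / 40 - 3 / 5 * t ^ 2 := by
      nlinarith [mul_nonneg ht (sub_nonneg.2 h3), mul_nonneg ht (sub_nonneg.2 hs6)]
    have e2 := mul_le_mul_of_nonneg_left e1 (by linarith : 0 ≤ Γ)
    have e3 : 27 / 5 * (s ^ 2 / 40 - 1 / 8) ≤ Γ * (s ^ 2 / 40 - 1 / 8) :=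
      mul_le_mul_of_nonneg_right h1 (by nlinarith)
    nlinarith
  | B h1 h2 h3 =>
    have hs4 : 37 / 10 ≤ s := by
      by_contra hc
      push Not at hc
      have : (s + t) ^ 2 ≤ (87 / 20) ^ 2 := pow_le_pow_left₀ (by linarith) (by linarith) 2
      nlinarith
    have e1 : s ^ 2 / 40 - 15 / 100 ≤ (s + t) ^ 2 / 40 - 13 / 20 * t ^ 2 := by
      nlinarith [mul_nonneg ht (sub_nonneg.2 h3), mul_nonneg ht (sub_nonneg.2 hs4)]
    have e2 := mul_le_mul_of_nonneg_left e1 (by linarith : 0 ≤ Γ)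
    have e3 : 10 * (s ^ 2 / 40 - 15 / 100) ≤ Γ * (s ^ 2 / 40 - 15 / 100) :=
      mul_le_mul_of_nonneg_right h1 (by nlinarith)
    nlinarith
  | C h1 h3 =>
    have e1 : s ^ 2 / 40 - 154 / 1000 ≤ (s + t) ^ 2 / 40 - 7 / 10 * t ^ 2 := by
      nlinarith [mul_nonneg ht (sub_nonneg.2 h3), mul_nonneg ht (sub_nonneg.2 hs)]
    have e2 := mul_le_mul_of_nonneg_left e1 (by linarith : 0 ≤ Γ)
    have e3 : 20 * (s ^ 2 / 40 - 154 / 1000) ≤ Γ * (s ^ 2 / 40 - 154 / 1000) :=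
      mul_le_mul_of_nonneg_right h1 (by nlinarith)
    nlinarith

/-! ### `i = 2` -/

private theorem exp_a : (3719 : ℝ) / 100 ≤ exp (459 / 125) := by
  have h := psa_exp_lb (459 / 500) (by norm_num)
  have h2 : exp (459 / 125) = exp (459 / 500) ^ 4 := by
    rw [← Real.exp_nat_mul]
    norm_num
  rw [h2]
  refine le_trans ?_ (pow_le_pow_left₀ (by norm_num) h 4)
  norm_num

/-- class A, `X ≤ 80` -/
theorem two_A {Γ t : ℝ} (h1 : 27 / 5 ≤ Γ) (h3 : t ≤ 3 / 4) (ht : 0 ≤ t) :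
    √(27 / 20) * (1 + 6 / 5 * t) ^ 2 * (2 / 25 *
      exp (6 / 5 / 2 * (Γ * t ^ 2) - 17 / 100 * (Γ * (2 + t) ^ 2))) ≤ (1 / 2) ^ 2 / 100 := by
  have hq : √(27 / 20) ≤ 11619 / 10000 := by
    rw [Real.sqrt_le_iff]
    norm_num
  set z := 459 / 250 * t - 1161 / 1000 * t ^ 2 with hz
  have hz0 : 0 ≤ z := by rw [hz]; nlinarith
  have e1 : 6 / 5 / 2 * (Γ * t ^ 2) - 17 / 100 * (Γ * (2 + t) ^ 2) ≤ -(459 / 125) - 2 * z := by
    have : 0 ≤ 17 / 25 + 17 / 25 * t - 43 / 100 * t ^ 2 := by nlinarith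
    have h2 := mul_le_mul_of_nonneg_right h1 this
    rw [hz]
    nlinarith
  have e2 : 1 + 6 / 5 * t ≤ exp z := by
    have h2 := Real.quadratic_le_exp_of_nonneg hz0
    refine le_trans ?_ h2
    have h4 : 0 ≤ t * (159 / 250 - 1161 / 1000 * t + t * (459 / 250 - 1161 / 1000 * t) ^ 2 / 2) := by
      refine mul_nonneg ht ?_
      have h5 : 0 ≤ 3 / 4 - t := by linarith
      have h6 : (9652 / 10000) ≤ 459 / 250 - 1161 / 1000 * t := by linarith
      have h7 : (9652 / 10000 : ℝ) ^ 2 ≤ (459 / 250 - 1161 / 1000 * t) ^ 2 :=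
        pow_le_pow_left₀ (by norm_num) h6 2
      nlinarith
    rw [hz]
    nlinarith
  have e3 : (1 + 6 / 5 * t) ^ 2 ≤ exp z ^ 2 := pow_le_pow_left₀ (by linarith) e2 2
  have e4 : exp (6 / 5 / 2 * (Γ * t ^ 2) - 17 / 100 * (Γ * (2 + t) ^ 2)) ≤
      (exp (459 / 125))⁻¹ * (exp z ^ 2)⁻¹ := by
    refine (exp_le_exp.2 e1).trans (le_of_eq ?_)
    rw [sub_eq_add_neg, exp_add, exp_neg, exp_neg, ← Real.exp_nat_mul]
    norm_num
  have e5 : (exp (459 / 125))⁻¹ ≤ 100 / 3719 := by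
    rw [inv_le_comm₀ (exp_pos _) (by norm_num)]
    refine le_trans (le_of_eq (by norm_num)) exp_a
  have hzp : 0 < exp z ^ 2 := by positivity
  calc √(27 / 20) * (1 + 6 / 5 * t) ^ 2 * (2 / 25 *
      exp (6 / 5 / 2 * (Γ * t ^ 2) - 17 / 100 * (Γ * (2 + t) ^ 2))) ≤
      11619 / 10000 * exp z ^ 2 * (2 / 25 * (100 / 3719 * (exp z ^ 2)⁻¹)) := by
        gcongr
        exact e4.trans (mul_le_mul_of_nonneg_right e5 (by positivity))
    _ = 11619 / 10000 * (2 / 25) * (100 / 3719) := by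
        field_simp
    _ ≤ (1 / 2) ^ 2 / 100 := by norm_num

private theorem exp_c : (450 : ℝ) * (2 / 25) ≤ exp (19 / 5) := by
  exact exp_b1.trans (exp_le_exp.2 (by norm_num))

/-- `2 ≤ s ≤ 3`, classes B, C, `X ≤ 80` -/
theorem two_B {Γ t g k q s : ℝ} (h : Cls Γ t g k q) (ht : 0 ≤ t) (hG : 10 ≤ Γ) (hs : 2 ≤ s) :
    7 / 10 * 2 + 18 / 5 + (g / 2 * (Γ * t ^ 2) - 17 / 100 * (Γ * (s + t) ^ 2)) ≤ 0 := by
  have h1 : 17 / 25 ≤ 17 / 100 * (s + t) ^ 2 - g / 2 * t ^ 2 := by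
    have h0 : (2 + t) ^ 2 ≤ (s + t) ^ 2 := pow_le_pow_left₀ (by linarith) (by linarith) 2
    cases h with
    | A h1 h2 h3 => linarith
    | B h1 h2 h3 => nlinarith [mul_nonneg ht (sub_nonneg.2 h3)]
    | C h1 h3 => nlinarith [mul_nonneg ht (sub_nonneg.2 h3)]
  have h2 := mul_le_mul_of_nonneg_left h1 (by linarith : 0 ≤ Γ)
  nlinarith

/-- `2 ≤ s ≤ 3`, classes B, C, `X > 80` -/
theorem two_C {Γ t g k q s : ℝ} (h : Cls Γ t g k q) (ht : 0 ≤ t) (hG : 10 ≤ Γ) (hs : 2 ≤ s) :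
    g / 2 * (Γ * t ^ 2) - Γ * (s + t) ^ 2 / 25 ≤ 0 := by
  have h0 : (2 + t) ^ 2 ≤ (s + t) ^ 2 := pow_le_pow_left₀ (by linarith) (by linarith) 2
  cases h with
  | A h1 h2 h3 => linarith
  | B h1 h2 h3 =>
    have e1 : 0 ≤ (s + t) ^ 2 / 25 - 13 / 20 * t ^ 2 := by
      nlinarith [mul_nonneg ht (sub_nonneg.2 h3)]
    have e2 := mul_nonneg (by linarith : 0 ≤ Γ) e1
    nlinarith
  | C h1 h3 =>
    have e1 : 0 ≤ (s + t) ^ 2 / 25 - 7 / 10 * t ^ 2 := by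
      nlinarith [mul_nonneg ht (sub_nonneg.2 h3)]
    have e2 := mul_nonneg (by linarith : 0 ≤ Γ) e1
    nlinarith

/-- class A, `X > 80` -/
theorem two_A' {Γ t X : ℝ} (h1 : 27 / 5 ≤ Γ) (h2 : Γ < 10) (h3 : t ≤ 3 / 4) (ht : 0 ≤ t)
    (hX : 80 < X) :
    √(27 / 20) * (1 + 6 / 5 * t) ^ 2 * (1 / 2000 * exp (6 / 5 / 2 * (Γ * t ^ 2) - X / 25)) ≤
      (1 / 2) ^ 2 / 100 := by
  have hq : √(27 / 20) ≤ 11619 / 10000 := by
    rw [Real.sqrt_le_iff]
    norm_num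
  have h4 : (1 + 6 / 5 * t) ^ 2 ≤ (19 / 10) ^ 2 := pow_le_pow_left₀ (by linarith) (by linarith) 2
  have h5 : 6 / 5 / 2 * (Γ * t ^ 2) - X / 25 ≤ 7 / 40 := by
    have : t ^ 2 ≤ (3 / 4) ^ 2 := pow_le_pow_left₀ ht h3 2
    have h6 : Γ * t ^ 2 ≤ 10 * (3 / 4) ^ 2 := mul_le_mul h2.le this (sq_nonneg _) (by norm_num)
    linarith
  have h6 : exp (6 / 5 / 2 * (Γ * t ^ 2) - X / 25) ≤ 1192 / 1000 := by
    refine (exp_le_exp.2 h5).trans ((psa_exp_ub _ (by norm_num) (by norm_num)).trans ?_)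
    norm_num
  calc √(27 / 20) * (1 + 6 / 5 * t) ^ 2 * (1 / 2000 * exp (6 / 5 / 2 * (Γ * t ^ 2) - X / 25)) ≤
      11619 / 10000 * (19 / 10) ^ 2 * (1 / 2000 * (1192 / 1000)) := by gcongr
    _ ≤ (1 / 2) ^ 2 / 100 := by norm_num

/-- THE NUMBERS: every real `s ≥ i`. -/
theorem dz_num {Γ t g k q r s Q : ℝ} {i : ℕ} (h : Cls Γ t g k q) (ht : 0 ≤ t) (hi : 2 ≤ i)
    (his : (i : ℝ) ≤ s) (hr : 499 / 10 ≤ r) (hQ : 0 ≤ Q)
    (hXQ : Γ * (s + t) ^ 2 ≤ 987 / 100 * Q) (hηQ : 20 ≤ Γ → Γ * t ^ 2 ≤ 79 / 200 * Q) {F : ℝ}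
    (hF : F = if Γ * (s + t) ^ 2 ≤ 80 then 2 / 25 * exp (-(17 / 100 * (Γ * (s + t) ^ 2))) else
      if Γ * (s + t) ^ 2 ≤ 31 / 4 * r then 1 / 2000 * exp (-(Γ * (s + t) ^ 2 / 25)) else
        1 / 2000 * exp (-(7 / 25 * Q))) :
    √q * exp (g / 2 * (Γ * t ^ 2)) * (1 + k * t) ^ 2 * F ≤ (1 / 2) ^ i / 100 := by
  have hP := h.pre ht
  have hP0 : 0 ≤ √q * (1 + k * t) ^ 2 := by positivity
  have hG := h.G0
  have hi2 : (2 : ℝ) ≤ i := by exact_mod_cast hi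
  have hs2 : 2 ≤ s := hi2.trans his
  have hre : ∀ c E : ℝ, √q * exp (g / 2 * (Γ * t ^ 2)) * (1 + k * t) ^ 2 * (c * exp E) =
      √q * (1 + k * t) ^ 2 * (c * exp (g / 2 * (Γ * t ^ 2) + E)) := by
    intro c E
    rw [exp_add]
    ring
  rw [hF]
  split_ifs with h1 h2
  · rw [hre, ← sub_eq_add_neg]
    rcases lt_or_ge s 3 with h3 | h3
    · have h4 : i = 2 := by
        have : (i : ℝ) < 3 := his.trans_lt h3
        have : i < 3 := by exact_mod_cast this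
        omega
      subst h4
      cases h with
      | A a b c =>
        refine le_trans ?_ (two_A a c ht)
        have h5 : Γ * (2 + t) ^ 2 ≤ Γ * (s + t) ^ 2 := by
          have : (2 + t) ^ 2 ≤ (s + t) ^ 2 := pow_le_pow_left₀ (by linarith) (by linarith) 2
          exact mul_le_mul_of_nonneg_left this (by linarith)
        gcongr
      | B a b c => exact claim_of hP (by norm_num) exp_b1 (by
          have := two_B (.B a b c) ht a hs2
          push_cast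
          exact this)
      | C a c => exact claim_of hP (by norm_num) exp_b1 (by
          have := two_B (.C a c) ht (by linarith) hs2
          push_cast
          exact this)
    · exact claim_of hP (by norm_num) exp_b1 (by
        have := b1_ge h ht h3
        linarith)
  · rw [hre, ← sub_eq_add_neg]
    push Not at h1
    rcases lt_or_ge s 3 with h3 | h3
    · have h4 : i = 2 := by
        have : (i : ℝ) < 3 := his.trans_lt h3
        have : i < 3 := by exact_mod_cast this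
        omega
      subst h4
      have key : 10 ≤ Γ → √q * (1 + k * t) ^ 2 * (1 / 2000 * exp (g / 2 * (Γ * t ^ 2) -
          Γ * (s + t) ^ 2 / 25)) ≤ (1 / 2) ^ 2 / 100 := by
        intro hG10
        have h6 := exp_le_one_iff.2 (two_C h ht hG10 hs2)
        calc √q * (1 + k * t) ^ 2 * (1 / 2000 * exp (g / 2 * (Γ * t ^ 2) - Γ * (s + t) ^ 2 / 25)) ≤
            9 / 2 * (1 / 2000 * 1) := by gcongr
          _ ≤ (1 / 2) ^ 2 / 100 := by norm_num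
      cases h with
      | A a b c => exact two_A' a b c ht h1
      | B a b c => exact key a
      | C a c => exact key (by linarith)
    · exact claim_of hP (by norm_num) exp_b2 (by
        have := b2_ge h ht h3
        linarith)
  · rw [hre, ← sub_eq_add_neg]
    push Not at h1 h2
    rcases lt_or_ge s 3 with h3 | h3
    · have h4 : i = 2 := by
        have : (i : ℝ) < 3 := his.trans_lt h3
        have : i < 3 := by exact_mod_cast this
        omega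
      subst h4
      cases h with
      | A a b c =>
        exfalso
        have : (s + t) ^ 2 ≤ (15 / 4) ^ 2 := pow_le_pow_left₀ (by linarith) (by linarith) 2
        nlinarith
      | B a b c =>
        exfalso
        have : (s + t) ^ 2 ≤ (73 / 20) ^ 2 := pow_le_pow_left₀ (by linarith) (by linarith) 2
        nlinarith
      | C a c =>
        have h6 : exp (7 / 5 / 2 * (Γ * t ^ 2) - 7 / 25 * Q) ≤ 1 := by
          rw [exp_le_one_iff]
          have := hηQ a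
          linarith
        calc √(3 / 2) * (1 + 3 / 2 * t) ^ 2 * (1 / 2000 *
              exp (7 / 5 / 2 * (Γ * t ^ 2) - 7 / 25 * Q)) ≤ 9 / 2 * (1 / 2000 * 1) := by gcongr
          _ ≤ (1 / 2) ^ 2 / 100 := by norm_num
    · refine claim_of hP (by norm_num) exp_b2 ?_
      have := b3_ge h ht h3 hr h2
      linarith

end SokalDz
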