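import Pool.Agent.Lib_MP_af4de1_v3.DzDefs

/-!
# `PRealDL` (real inequality of the field `L.d`), stage 0: parameters and the terms (helper7)

`R = 1 + ρ²`, `y = 1/R`, `p = ρ/√R`, `x = t/√R`, `X = r x²`, `P = (1 + 16 y/25)/p`, `Kc = √(r P/(2π))`.
-/

set_option autoImplicit false

namespace SokalDz

open Real MeasureTheory Set SokalCen SokalV3

/-- the parameters -/
structure Pr (ρ t p y x : ℝ) : Prop where
  ρ0 : 0 < ρ
  t0 : 0 < t
  p0 : 0 < p
  p1 : p < 1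
  y0 : 0 < y
  hy : y = 1 - p ^ 2
  hR : y * (1 + ρ ^ 2) = 1
  hp : p * √(1 + ρ ^ 2) = ρ
  x0 : 0 < x
  hx : x * √(1 + ρ ^ 2) = t

theorem Pr.ex {ρ t : ℝ} (hρ : 0 < ρ) (ht : 0 < t) :
    Pr ρ t (ρ / √(1 + ρ ^ 2)) (1 / (1 + ρ ^ 2)) (t / √(1 + ρ ^ 2)) := by
  have hR : 0 < 1 + ρ ^ 2 := by positivity
  have hs : 0 < √(1 + ρ ^ 2) := Real.sqrt_pos.2 hR
  have hss : √(1 + ρ ^ 2) ^ 2 = 1 + ρ ^ 2 := Real.sq_sqrt hR.le
  refine ⟨hρ, ht, by positivity, ?_, by positivity, ?_, by field_simp, by field_simp, by positivity,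
    by field_simp⟩
  · rw [div_lt_one hs]
    nlinarith
  · rw [div_pow, hss]
    field_simp
    ring

variable {r ρ t p y x : ℝ}

theorem Pr.s0 (h : Pr ρ t p y x) : 0 < √(1 + ρ ^ 2) := Real.sqrt_pos.2 (by positivity)

theorem Pr.ss (h : Pr ρ t p y x) : √(1 + ρ ^ 2) ^ 2 = 1 + ρ ^ 2 := Real.sq_sqrt (by positivity)

theorem Pr.y1 (h : Pr ρ t p y x) : y < 1 := by
  have := h.hy
  have := mul_pos h.p0 h.p0
  nlinarith

theorem Pr.ts (h : Pr ρ t p y x) : t ^ 2 * y = x ^ 2 := by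
  rw [← h.hx, mul_pow, h.ss]
  linear_combination x ^ 2 * h.hR

theorem Pr.m2 (h : Pr ρ t p y x) : mm ρ ^ 2 * y = 25 / 16 := by
  unfold mm
  rw [mul_pow, h.ss]
  linear_combination 25 / 16 * h.hR

theorem Pr.m0 (h : Pr ρ t p y x) : 0 < mm ρ := by
  unfold mm
  have := h.s0
  positivity

theorem Pr.m1 (h : Pr ρ t p y x) : 5 / 4 ≤ mm ρ := by
  unfold mm
  have : 1 ≤ √(1 + ρ ^ 2) := by
    rw [Real.one_le_sqrt]
    nlinarith [sq_nonneg ρ]
  linarith

theorem Pr.mr (h : Pr ρ t p y x) : mm ρ / ρ = 5 / (4 * p) := by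
  have hs := h.s0
  have hp := h.p0
  have hρ := h.ρ0
  have e : mm ρ / ρ = (5 / 4 * √(1 + ρ ^ 2)) / (p * √(1 + ρ ^ 2)) := by
    rw [h.hp]
    rfl
  rw [e]
  field_simp

/-- `t / m = 4x/5` -/
theorem Pr.tm (h : Pr ρ t p y x) : t / mm ρ = 4 / 5 * x := by
  have hs := h.s0
  unfold mm
  nth_rewrite 1 [← h.hx]
  field_simp

theorem Pr.mt (h : Pr ρ t p y x) : mm ρ / t = 5 / (4 * x) := by
  have hs := h.s0
  have hx := h.x0
  have e : mm ρ / t = (5 / 4 * √(1 + ρ ^ 2)) / (x * √(1 + ρ ^ 2)) := by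
    rw [h.hx]
    rfl
  rw [e]
  field_simp

/-- `P` -/
noncomputable def PP (p y : ℝ) : ℝ := (1 + 16 / 25 * y) / p

theorem Pr.PP0 (h : Pr ρ t p y x) : 0 < PP p y := by
  have := h.p0
  have := h.y0
  unfold PP
  positivity

/-- the slope coefficient `a = 4/(5p) - 8/25` -/
noncomputable def aa (p : ℝ) : ℝ := 4 / (5 * p) - 8 / 25

theorem aa_pos (h0 : 0 < p) (h1 : p < 1) : 12 / 25 < aa p := by
  unfold aa
  have : 4 / 5 < 4 / (5 * p) := by
    rw [div_lt_div_iff₀ (by norm_num) (by positivity)]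
    nlinarith
  linarith

theorem Pr.lA (h : Pr ρ t p y x) : lA ρ t = aa p * y * min 1 (mm ρ / t) := by
  have hm := h.m0
  have hp := h.p0
  unfold SokalDz.lA AL aL
  congr 1
  rw [h.mr]
  unfold aa
  have h2 := h.m2
  have h3 : mm ρ ^ 2 ≠ 0 := by positivity
  rw [div_eq_iff h3]
  linear_combination (-(5 / (4 * p) - 1 / 2) * (16 / 25)) * h2

theorem Pr.rA (h : Pr ρ t p y x) (φ : ℝ) : rA ρ φ = (aa p - 8 / 25 *
    (cT (mm ρ) φ / 3 + 5 * cT (mm ρ) φ ^ 2 / 48)) * y * min 1 (mm ρ / φ) := by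
  have hm := h.m0
  have hp := h.p0
  unfold SokalDz.rA AR aR
  congr 1
  rw [h.mr]
  unfold aa
  have h2 := h.m2
  have h3 : mm ρ ^ 2 ≠ 0 := by positivity
  rw [div_eq_iff h3]
  linear_combination (-(5 / (4 * p) - (1 + cT (mm ρ) φ / 3 + 5 * cT (mm ρ) φ ^ 2 / 48) / 2) *
    (16 / 25)) * h2

theorem Pr.Kc (h : Pr ρ t p y x) (hr : 0 < r) : Kc r ρ = √(r * PP p y / (2 * π)) := by
  have hm := h.m0
  have hp := h.p0
  have hs := h.s0
  have hρ := h.ρ0
  have hpi := Real.pi_pos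
  unfold SokalDz.Kc
  rw [← Real.sqrt_mul (by positivity), ← Real.sqrt_mul (by positivity)]
  congr 1
  have h2 := h.m2
  have e1 : 1 / mm ρ ^ 2 = 16 / 25 * y := by
    rw [div_eq_iff (by positivity)]
    linear_combination (-(16 / 25)) * h2
  have e2 : √(1 + ρ ^ 2) = ρ / p := by
    rw [eq_div_iff hp.ne']
    linear_combination h.hp
  rw [e1, e2]
  unfold PP
  field_simp

/-- `Kc √(π/(8/9 r A))` -/
theorem Pr.K8 (h : Pr ρ t p y x) (hr : 0 < r) {A : ℝ} (hA : 0 < A) :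
    SokalDz.Kc r ρ * √(π / (8 / 9 * r * A)) = 3 / 4 * √(PP p y / A) := by
  have hP := h.PP0
  have hpi := Real.pi_pos
  rw [h.Kc hr, ← Real.sqrt_mul (by positivity)]
  have e : r * PP p y / (2 * π) * (π / (8 / 9 * r * A)) = (3 / 4) ^ 2 * (PP p y / A) := by
    field_simp
    norm_num
  rw [e, Real.sqrt_mul (by positivity), Real.sqrt_sq (by norm_num)]

theorem sqrt_half_le {z : ℝ} (hz : 0 ≤ z) : √(z / 2) ≤ 7072 / 10000 * √z := by
  rw [Real.sqrt_le_left (by positivity), mul_pow, Real.sq_sqrt hz]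
  nlinarith

/-- `Kc √(π/(r A))` -/
theorem Pr.K1 (h : Pr ρ t p y x) (hr : 0 < r) {A : ℝ} (hA : 0 < A) :
    SokalDz.Kc r ρ * √(π / (r * A)) ≤ 7072 / 10000 * √(PP p y / A) := by
  have hP := h.PP0
  have hpi := Real.pi_pos
  rw [h.Kc hr, ← Real.sqrt_mul (by positivity)]
  have e : r * PP p y / (2 * π) * (π / (r * A)) = PP p y / A / 2 := by
    field_simp
  rw [e]
  exact sqrt_half_le (by positivity)

/-- `Kc c/√(8/9 r)` -/
theorem Pr.K8t (h : Pr ρ t p y x) (hr : 0 < r) {c : ℝ} (hc : 0 ≤ c) :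
    SokalDz.Kc r ρ * (c / √(8 / 9 * r)) ≤ c * (4232 / 10000) * √(PP p y) := by
  have hP := h.PP0
  have hpi := Real.pi_pos
  have h1 : √(r * PP p y / (2 * π)) = √(8 / 9 * r) * √(PP p y * (9 / (16 * π))) := by
    rw [← Real.sqrt_mul (by positivity)]
    congr 1
    field_simp
    norm_num
  have h0 : 0 < √(8 / 9 * r) := Real.sqrt_pos.2 (by positivity)
  have h2 : √(PP p y * (9 / (16 * π))) ≤ 4232 / 10000 * √(PP p y) := by
    rw [Real.sqrt_le_left (by positivity), mul_pow, Real.sq_sqrt hP.le]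
    have h3 : 9 / (16 * π) ≤ (4232 / 10000) ^ 2 := by
      rw [div_le_iff₀ (by positivity)]
      nlinarith [Real.pi_gt_d4]
    nlinarith
  rw [h.Kc hr, h1]
  calc √(8 / 9 * r) * √(PP p y * (9 / (16 * π))) * (c / √(8 / 9 * r)) =
      c * √(PP p y * (9 / (16 * π))) := by field_simp
    _ ≤ c * (4232 / 10000 * √(PP p y)) := mul_le_mul_of_nonneg_left h2 hc
    _ = _ := by ring

/-- `Kc c/√r` -/
theorem Pr.K1t (h : Pr ρ t p y x) (hr : 0 < r) {c : ℝ} (hc : 0 ≤ c) :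
    SokalDz.Kc r ρ * (c / √r) ≤ c * (399 / 1000) * √(PP p y) := by
  have hP := h.PP0
  have hpi := Real.pi_pos
  have h1 : √(r * PP p y / (2 * π)) = √r * √(PP p y * (1 / (2 * π))) := by
    rw [← Real.sqrt_mul (by positivity)]
    congr 1
    field_simp
  have h0 : 0 < √r := Real.sqrt_pos.2 (by positivity)
  have h2 : √(PP p y * (1 / (2 * π))) ≤ 399 / 1000 * √(PP p y) := by
    rw [Real.sqrt_le_left (by positivity), mul_pow, Real.sq_sqrt hP.le]
    have h3 : 1 / (2 * π) ≤ (399 / 1000) ^ 2 := by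
      rw [div_le_iff₀ (by positivity)]
      nlinarith [Real.pi_gt_d4]
    nlinarith
  rw [h.Kc hr, h1]
  calc √r * √(PP p y * (1 / (2 * π))) * (c / √r) =
      c * √(PP p y * (1 / (2 * π))) := by field_simp
    _ ≤ c * (399 / 1000 * √(PP p y)) := mul_le_mul_of_nonneg_left h2 hc
    _ = _ := by ring

/-- a Gaussian term, `q = 8r/9` and `q = r` together -/
theorem Pr.gauss (h : Pr ρ t p y x) (hr : 0 < r) {A e E a b d : ℝ} (hA : 0 < A) (ha : 0 ≤ a)
    (hb : 0 ≤ b) (hE : E ≤ r * e) (hd : exp (-(E / 9)) ≤ d) :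
    SokalDz.Kc r ρ * (a * (√(π / (8 / 9 * r * A)) * exp (-(8 / 9 * r * e))) +
      b * (√(π / (r * A)) * exp (-(r * e)))) ≤
      (3 / 4 * a + 7072 / 10000 * b * d) * √(PP p y / A) * exp (-(8 / 9 * E)) := by
  have hP := h.PP0
  have hS : 0 ≤ √(PP p y / A) := Real.sqrt_nonneg _
  have e1 : exp (-(8 / 9 * r * e)) ≤ exp (-(8 / 9 * E)) := Real.exp_le_exp.2 (by linarith)
  have e2 : exp (-(r * e)) ≤ d * exp (-(8 / 9 * E)) := by
    calc exp (-(r * e)) ≤ exp (-(E / 9)) * exp (-(8 / 9 * E)) := by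
          rw [← Real.exp_add]
          exact Real.exp_le_exp.2 (by linarith)
      _ ≤ _ := mul_le_mul_of_nonneg_right hd (Real.exp_pos _).le
  have k8 := h.K8 hr hA
  have k1 := h.K1 hr hA
  have hK : 0 ≤ SokalDz.Kc r ρ := by rw [h.Kc hr]; positivity
  calc SokalDz.Kc r ρ * (a * (√(π / (8 / 9 * r * A)) * exp (-(8 / 9 * r * e))) +
      b * (√(π / (r * A)) * exp (-(r * e)))) =
      a * ((SokalDz.Kc r ρ * √(π / (8 / 9 * r * A))) * exp (-(8 / 9 * r * e))) +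
      b * ((SokalDz.Kc r ρ * √(π / (r * A))) * exp (-(r * e))) := by ring
    _ ≤ a * ((3 / 4 * √(PP p y / A)) * exp (-(8 / 9 * E))) +
      b * ((7072 / 10000 * √(PP p y / A)) * (d * exp (-(8 / 9 * E)))) := by
        rw [k8]
        refine add_le_add (mul_le_mul_of_nonneg_left (mul_le_mul_of_nonneg_left e1 (by positivity)) ha)
          (mul_le_mul_of_nonneg_left ?_ hb)
        exact mul_le_mul k1 e2 (Real.exp_pos _).le (by positivity)
    _ = _ := by ring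

/-- a tail term, `q = 8r/9` and `q = r` together -/
theorem Pr.tail (h : Pr ρ t p y x) (hr : 0 < r) {c e E a b d : ℝ} (hc : 0 ≤ c) (ha : 0 ≤ a)
    (hb : 0 ≤ b) (hE : E ≤ r * e) (hd : exp (-(E / 9)) ≤ d) :
    SokalDz.Kc r ρ * (a * (c / √(8 / 9 * r) * exp (-(8 / 9 * r * e))) +
      b * (c / √r * exp (-(r * e)))) ≤
      c * (4232 / 10000 * a + 399 / 1000 * b * d) * √(PP p y) * exp (-(8 / 9 * E)) := by
  have hP := h.PP0
  have hS : 0 ≤ √(PP p y) := Real.sqrt_nonneg _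
  have e1 : exp (-(8 / 9 * r * e)) ≤ exp (-(8 / 9 * E)) := Real.exp_le_exp.2 (by linarith)
  have e2 : exp (-(r * e)) ≤ d * exp (-(8 / 9 * E)) := by
    calc exp (-(r * e)) ≤ exp (-(E / 9)) * exp (-(8 / 9 * E)) := by
          rw [← Real.exp_add]
          exact Real.exp_le_exp.2 (by linarith)
      _ ≤ _ := mul_le_mul_of_nonneg_right hd (Real.exp_pos _).le
  have k8 := h.K8t hr hc
  have k1 := h.K1t hr hc
  calc SokalDz.Kc r ρ * (a * (c / √(8 / 9 * r) * exp (-(8 / 9 * r * e))) +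
      b * (c / √r * exp (-(r * e)))) =
      a * ((SokalDz.Kc r ρ * (c / √(8 / 9 * r))) * exp (-(8 / 9 * r * e))) +
      b * ((SokalDz.Kc r ρ * (c / √r)) * exp (-(r * e))) := by ring
    _ ≤ a * ((c * (4232 / 10000) * √(PP p y)) * exp (-(8 / 9 * E))) +
      b * ((c * (399 / 1000) * √(PP p y)) * (d * exp (-(8 / 9 * E)))) := by
        refine add_le_add (mul_le_mul_of_nonneg_left ?_ ha) (mul_le_mul_of_nonneg_left ?_ hb)
        · exact mul_le_mul k8 e1 (Real.exp_pos _).le (by positivity)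
        · exact mul_le_mul k1 e2 (Real.exp_pos _).le (by positivity)
    _ = _ := by ring

end SokalDz
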