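import Pool.Agent.Lib_MP_af4de1_v3.DzZone

/-!
# Fields `d`: from the real inequalities to the statements at `y = 0`, and the free parameters
-/

set_option autoImplicit false

namespace SokalDz

open Real MeasureTheory Set SokalCen SokalV3

section

variable {r ρ t φ : ℝ}

/-- `r φ²/R ≥ 108/5` for every angle above `t` -/
theorem HypD.U (h : HypD r ρ t) (hφ : t ≤ φ) : 108 / 5 ≤ r * φ ^ 2 / (1 + ρ ^ 2) := by
  refine h.X.trans ?_
  have h1 := h.t0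
  have h2 := h.r0
  have h3 : t ^ 2 ≤ φ ^ 2 := pow_le_pow_left₀ h1.le hφ 2
  gcongr

theorem tail_R (h : HypD r ρ t) (hφ : t ≤ φ) : 6 ≤ 8 / 9 * r * (rA ρ φ * φ ^ 2) := by
  have hU := h.U hφ
  have hρ := h.ρ0
  have hr := h.r0
  have hφ0 : 0 < φ := h.t0.trans_le hφ
  have hm := mm_pos ρ
  have hm2 := sq_mm ρ
  have h54 := mm_div hρ
  have hR : 0 < 1 + ρ ^ 2 := by positivity
  rw [le_div_iff₀ hR] at hU
  unfold rA AR cT aR
  rcases le_total φ (mm ρ) with hc | hc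
  · have hT1 : φ / mm ρ ≤ 1 := (div_le_one hm).2 hc
    have hT2 : 1 ≤ mm ρ / φ := (one_le_div hφ0).2 hc
    have hT0 : 0 < φ / mm ρ := div_pos hφ0 hm
    rw [min_eq_right hT1, min_eq_left hT2, mul_one]
    set T := φ / mm ρ with hT
    have e1 : (mm ρ / ρ - (1 + T / 3 + 5 * T ^ 2 / 48) / 2) / mm ρ ^ 2 * φ ^ 2 =
        (mm ρ / ρ - (1 + T / 3 + 5 * T ^ 2 / 48) / 2) * T ^ 2 := by
      rw [hT]; field_simp
    rw [e1]
    have h1 : (5 / 4 - (1 + T / 3 + 5 * T ^ 2 / 48) / 2) * T ^ 2 ≤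
        (mm ρ / ρ - (1 + T / 3 + 5 * T ^ 2 / 48) / 2) * T ^ 2 :=
      mul_le_mul_of_nonneg_right (by linarith) (sq_nonneg T)
    have h2 : φ ^ 2 = T ^ 2 * mm ρ ^ 2 := by rw [hT]; field_simp
    rw [h2, hm2] at hU
    have h3 : 108 / 5 ≤ r * T ^ 2 * (25 / 16) := by
      have : 108 / 5 * (1 + ρ ^ 2) ≤ r * T ^ 2 * (25 / 16) * (1 + ρ ^ 2) := by linarith
      exact le_of_mul_le_mul_right this hR
    have h4 : 6 ≤ 8 / 9 * r * ((5 / 4 - (1 + T / 3 + 5 * T ^ 2 / 48) / 2) * T ^ 2) := by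
      have e2 : 8 / 9 * r * ((5 / 4 - (1 + T / 3 + 5 * T ^ 2 / 48) / 2) * T ^ 2) =
          8 / 9 * (r * T ^ 2) * (3 / 4 - T / 6 - 5 * T ^ 2 / 96) := by ring
      rw [e2]
      rcases le_total T (3 / 5) with h5 | h5
      · have h6 : 63 / 100 ≤ 3 / 4 - T / 6 - 5 * T ^ 2 / 96 := by nlinarith
        nlinarith
      · have h6 : 53 / 100 ≤ 3 / 4 - T / 6 - 5 * T ^ 2 / 96 := by nlinarith
        have h7 : 9 / 25 ≤ T ^ 2 := by nlinarith
        have h8 : 499 / 10 * (9 / 25) ≤ r * T ^ 2 := by nlinarith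
        nlinarith
    refine h4.trans ?_
    exact mul_le_mul_of_nonneg_left h1 (by linarith)
  · have hT1 : 1 ≤ φ / mm ρ := (one_le_div hm).2 hc
    have hT2 : mm ρ / φ ≤ 1 := (div_le_one hφ0).2 hc
    rw [min_eq_left hT1, min_eq_right hT2]
    have e1 : (mm ρ / ρ - (1 + 1 / 3 + 5 * 1 ^ 2 / 48) / 2) / mm ρ ^ 2 * (mm ρ / φ) * φ ^ 2 =
        (mm ρ / ρ - (1 + 1 / 3 + 5 * 1 ^ 2 / 48) / 2) * (φ / mm ρ) := by field_simp
    rw [e1]
    have h1 : 53 / 100 * 1 ≤ (mm ρ / ρ - (1 + 1 / 3 + 5 * 1 ^ 2 / 48) / 2) * (φ / mm ρ) :=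
      mul_le_mul (by linarith) hT1 (by norm_num) (by linarith)
    nlinarith

theorem tail_L (h : HypD r ρ t) (hφ : t ≤ φ) : 6 ≤ 8 / 9 * r * (lA ρ φ * φ ^ 2) := by
  have hU := h.U hφ
  have hρ := h.ρ0
  have hr := h.r0
  have hφ0 : 0 < φ := h.t0.trans_le hφ
  have hm := mm_pos ρ
  have hm2 := sq_mm ρ
  have h54 := mm_div hρ
  have hR : 0 < 1 + ρ ^ 2 := by positivity
  rw [le_div_iff₀ hR] at hU
  unfold lA AL aL
  rcases le_total φ (mm ρ) with hc | hc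
  · have hT2 : 1 ≤ mm ρ / φ := (one_le_div hφ0).2 hc
    have hT0 : 0 < φ / mm ρ := div_pos hφ0 hm
    rw [min_eq_left hT2, mul_one]
    set T := φ / mm ρ with hT
    have e1 : (mm ρ / ρ - 1 / 2) / mm ρ ^ 2 * φ ^ 2 = (mm ρ / ρ - 1 / 2) * T ^ 2 := by
      rw [hT]; field_simp
    rw [e1]
    have h1 : (3 / 4) * T ^ 2 ≤ (mm ρ / ρ - 1 / 2) * T ^ 2 :=
      mul_le_mul_of_nonneg_right (by linarith) (sq_nonneg T)
    have h2 : φ ^ 2 = T ^ 2 * mm ρ ^ 2 := by rw [hT]; field_simp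
    rw [h2, hm2] at hU
    have h3 : 108 / 5 ≤ r * T ^ 2 * (25 / 16) := by
      have : 108 / 5 * (1 + ρ ^ 2) ≤ r * T ^ 2 * (25 / 16) * (1 + ρ ^ 2) := by linarith
      exact le_of_mul_le_mul_right this hR
    have h4 : 6 ≤ 8 / 9 * r * (3 / 4 * T ^ 2) := by nlinarith
    exact h4.trans (mul_le_mul_of_nonneg_left h1 (by linarith))
  · have hT1 : 1 ≤ φ / mm ρ := (one_le_div hm).2 hc
    have hT2 : mm ρ / φ ≤ 1 := (div_le_one hφ0).2 hc
    rw [min_eq_right hT2]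
    have e1 : (mm ρ / ρ - 1 / 2) / mm ρ ^ 2 * (mm ρ / φ) * φ ^ 2 =
        (mm ρ / ρ - 1 / 2) * (φ / mm ρ) := by field_simp
    rw [e1]
    have h1 : 3 / 4 * 1 ≤ (mm ρ / ρ - 1 / 2) * (φ / mm ρ) :=
      mul_le_mul (by linarith) hT1 (by norm_num) (by linarith)
    nlinarith

end

/-- (S), left -/
theorem pDL (hP : PRealDL) : PDL := by
  intro r δ t H hδ h hH hH2
  obtain ⟨C, Cf, B, B', l, e, hB, hC, hCf, hB', he, hl, hF⟩ := hP r (r * δ) t h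
  have hpi := Real.pi_pos
  have h0 := h.t0
  have h1 := h.t1
  refine shf_dz (φR := 2 * π - t) (φL := t) (ρ := r * δ) hδ h.r0 hH hH2 rfl (by linarith) (by linarith) h0
    (by linarith) hB hC hCf hB' he (tail_R h (by linarith)) (tail_L h le_rfl) (by linarith) ?_ ?_ hF
  · intro v
    rw [show 2 * π - t - v = 2 * π - (t + v) by ring, cos_two_pi_sub]
  · intro v
    rw [← sub_eq_add_neg]

/-- (S), right -/
theorem pDR (hP : PRealDR) : PDR := by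
  intro r δ t H hδ h hH hH2
  obtain ⟨C, Cf, B, B', l, e, hB, hC, hCf, hB', he, hl, hF⟩ := hP r (r * δ) t h
  have hpi := Real.pi_pos
  have h0 := h.t0
  have h1 := h.t1
  refine shf_dz (φR := t) (φL := 2 * π - t) (ρ := r * δ) hδ h.r0 hH hH2 rfl h0 (by linarith)
    (by linarith) (by linarith) hB hC hCf hB' he (tail_R h le_rfl) (tail_L h (by linarith))
    (by linarith) ?_ ?_ hF
  · intro v
    rw [← cos_neg, show -(-t + v) = t - v by ring]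
  · intro v
    rw [show 2 * π - t - v = 2 * π - (t + v) by ring, cos_two_pi_sub, ← cos_neg]
    congr 1
    ring

/-! ## free parameters -/

section par

variable {ρ φ : ℝ}

theorem HR_11_25 (φ : ℝ) : HR φ (11 / 25) := by
  refine ⟨by norm_num, fun u h0 _ h2 => ?_⟩
  exact SokalFA.cos_split_small (by rw [abs_of_nonneg h0]; exact h2)

/-- `1/2 - φ²/24` for `φ ≤ 3` -/
theorem HR_quad (h0 : 0 ≤ φ) (h1 : φ ≤ 3) : HR φ (1 / 2 - φ ^ 2 / 24) := by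
  refine ⟨by nlinarith, fun u hu0 hu1 _ => ?_⟩
  have h2 : cos u ≤ 1 - u ^ 2 / 2 + u ^ 4 / 24 := SokalF1G.cos_le4 hu0
  have h3 : u ^ 2 ≤ φ ^ 2 := pow_le_pow_left₀ hu0 hu1 2
  have h4 : u ^ 2 * u ^ 2 ≤ φ ^ 2 * u ^ 2 := mul_le_mul_of_nonneg_right h3 (sq_nonneg u)
  nlinarith

/-- left, `B = β e^(-σT)`, `l = (4/27)(1-σ)³ T B φ²`, `T = φ/m` -/
theorem HL_sig {β σ : ℝ} (hφ : 0 < φ) (hβ : HR φ β) (_hσ0 : 0 ≤ σ) (hσ1 : σ ≤ 1) :
    HL ρ φ (β * exp (-(σ * (φ / mm ρ))))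
      (4 / 27 * (1 - σ) ^ 3 * (φ / mm ρ) * (β * exp (-(σ * (φ / mm ρ)))) * φ ^ 2) := by
  have hm := mm_pos ρ
  have hβ0 := hβ.1
  have hs : 0 ≤ 1 - σ := by linarith
  refine ⟨by positivity, by positivity, fun v h0 h1 h2 => ?_⟩
  have hc := hβ.2 (φ - v) (by linarith) (by linarith) (by linarith)
  have hpm := pm_neg' hm h0
  have hE : exp (-(v / mm ρ)) ≤ exp (pm (mm ρ) (-v)) := by
    rw [hpm]
    exact exp_le_exp.2 (by linarith [min_le_right 1 (v / mm ρ)])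
  have hsq : 0 ≤ β * (φ - v) ^ 2 := by positivity
  have h3 : exp (-(v / mm ρ)) * (β * (φ - v) ^ 2) ≤ exp (pm (mm ρ) (-v)) * (1 - cos (φ - v)) :=
    mul_le_mul hE hc hsq (exp_pos _).le
  refine le_trans ?_ h3
  set Eσ := exp (-(σ * (φ / mm ρ))) with hEσ
  have hEσ0 : 0 < Eσ := exp_pos _
  have h4 : exp (-(v / mm ρ)) = Eσ * exp (-((v - σ * φ) / mm ρ)) := by
    rw [hEσ, ← exp_add]
    congr 1
    field_simp
    ring
  have h5 : 1 - (v - σ * φ) / mm ρ ≤ exp (-((v - σ * φ) / mm ρ)) := by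
    have := Real.add_one_le_exp (-((v - σ * φ) / mm ρ))
    linarith
  have h6 : (v - σ * φ) * (φ - v) ^ 2 ≤ 4 / 27 * ((1 - σ) * φ) ^ 3 := by
    have h7 : 0 ≤ (1 - σ) * φ := by positivity
    set a := (1 - σ) * φ with ha
    have h8 : v - σ * φ = a - (φ - v) := by rw [ha]; ring
    have h9 : 0 ≤ φ - v := by linarith
    rw [h8]
    set z := φ - v
    -- `4/27 a³ - (a - z) z² = (z - 2a/3)² (z + a/3)`
    have h10 : 4 / 27 * a ^ 3 - (a - z) * z ^ 2 = (z - 2 / 3 * a) ^ 2 * (z + a / 3) := by ring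
    have h11 : 0 ≤ (z - 2 / 3 * a) ^ 2 * (z + a / 3) := by positivity
    linarith
  have h7 : (φ - v) ^ 2 - 4 / 27 * (1 - σ) ^ 3 * (φ / mm ρ) * φ ^ 2 ≤
      exp (-((v - σ * φ) / mm ρ)) * (φ - v) ^ 2 := by
    have h8 := mul_le_mul_of_nonneg_right h5 (sq_nonneg (φ - v))
    refine le_trans ?_ h8
    have h9 : (1 - (v - σ * φ) / mm ρ) * (φ - v) ^ 2 =
        (φ - v) ^ 2 - (v - σ * φ) * (φ - v) ^ 2 / mm ρ := by ring
    rw [h9]
    have h10 : (v - σ * φ) * (φ - v) ^ 2 / mm ρ ≤ 4 / 27 * ((1 - σ) * φ) ^ 3 / mm ρ :=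
      div_le_div_of_nonneg_right h6 hm.le
    have h11 : 4 / 27 * ((1 - σ) * φ) ^ 3 / mm ρ =
        4 / 27 * (1 - σ) ^ 3 * (φ / mm ρ) * φ ^ 2 := by ring
    linarith
  have h8 := mul_le_mul_of_nonneg_left h7 (mul_pos hβ0 hEσ0).le
  rw [h4]
  calc _ = β * Eσ * ((φ - v) ^ 2 - 4 / 27 * (1 - σ) ^ 3 * (φ / mm ρ) * φ ^ 2) := by ring
    _ ≤ _ := h8
    _ = _ := by ring

/-- left, clipped: `B = β e^(-1)`, `l = 0` -/
theorem HL_clip {β : ℝ} (hβ : HR φ β) : HL ρ φ (β * exp (-1)) 0 := by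
  have hβ0 := hβ.1
  refine ⟨by positivity, le_rfl, fun v h0 h1 h2 => ?_⟩
  have hc := hβ.2 (φ - v) (by linarith) (by linarith) (by linarith)
  have hE : exp (-1) ≤ exp (pm (mm ρ) (-v)) := exp_le_exp.2 (abs_le.1 (pm_mem _ _)).1
  have h3 : exp (-1) * (β * (φ - v) ^ 2) ≤ exp (pm (mm ρ) (-v)) * (1 - cos (φ - v)) :=
    mul_le_mul hE hc (by positivity) (exp_pos _).le
  rw [sub_zero]
  refine le_trans (le_of_eq ?_) h3
  ring

theorem HC_big (ρ φ : ℝ) : HC ρ φ (14 / 5) := Or.inl le_rfl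
theorem HF_big (ρ φ : ℝ) : HF ρ φ (14 / 5) := Or.inl le_rfl

/-- `T ≤ 66/125 = .528` -/
theorem HC_34_25 (h : φ ≤ 66 / 125 * mm ρ) : HC ρ φ (34 / 25) :=
  Or.inr ⟨66 / 125, h, by norm_num, by norm_num, by norm_num⟩

/-- `T ≤ 3/5` -/
theorem HC_38_25 (h : φ ≤ 3 / 5 * mm ρ) : HC ρ φ (38 / 25) :=
  Or.inr ⟨3 / 5, h, by norm_num, by norm_num, by norm_num⟩

/-- `e = 1/2` -/
theorem HE_half (hρ : 0 < ρ) : HE ρ (1 / 2) := by
  refine ⟨by norm_num, fun x h0 h1 => ?_⟩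
  have h54 := mm_div hρ
  have h2 : 3 / 4 * x ^ 2 ≤ (mm ρ / ρ - 1 / 2) * x ^ 2 :=
    mul_le_mul_of_nonneg_right (by linarith) (sq_nonneg x)
  -- tangent at `x = 2/5`
  have h3 : exp (-(2 / 5)) * (1 - (x - 2 / 5)) ≤ exp (-x) := by
    have h4 := Real.add_one_le_exp (-(x - 2 / 5))
    have h5 : exp (-x) = exp (-(2 / 5)) * exp (-(x - 2 / 5)) := by rw [← exp_add]; congr 1; ring
    rw [h5]
    exact mul_le_mul_of_nonneg_left (by linarith) (exp_pos _).le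
  have h4 : 67 / 100 ≤ exp (-(2 / 5)) := by
    have h5 := Real.exp_bound' (x := 2 / 5) (by norm_num) (by norm_num) (n := 4) (by norm_num)
    norm_num [Finset.sum_range_succ, Nat.factorial] at h5
    rw [Real.exp_neg, ← one_div, div_le_div_iff₀ (by norm_num) (exp_pos _)]
    linarith
  have h6 : 67 / 100 * (7 / 5 - x) ≤ exp (-x) := by nlinarith
  nlinarith [sq_nonneg (x - 212 / 500)]

/-- `e = 11/20` when `m/ρ ≥ 19/10` -/
theorem HE_11_20 (h : 19 / 10 ≤ mm ρ / ρ) : HE ρ (11 / 20) := by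
  refine ⟨by norm_num, fun x h0 h1 => ?_⟩
  have h2 : 7 / 5 * x ^ 2 ≤ (mm ρ / ρ - 1 / 2) * x ^ 2 :=
    mul_le_mul_of_nonneg_right (by linarith) (sq_nonneg x)
  -- tangent at `x = 1/4`
  have h3 : exp (-(1 / 4)) * (1 - (x - 1 / 4)) ≤ exp (-x) := by
    have h4 := Real.add_one_le_exp (-(x - 1 / 4))
    have h5 : exp (-x) = exp (-(1 / 4)) * exp (-(x - 1 / 4)) := by rw [← exp_add]; congr 1; ring
    rw [h5]
    exact mul_le_mul_of_nonneg_left (by linarith) (exp_pos _).le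
  have h4 : 7787 / 10000 ≤ exp (-(1 / 4)) := by
    have h5 := Real.exp_bound' (x := 1 / 4) (by norm_num) (by norm_num) (n := 5) (by norm_num)
    norm_num [Finset.sum_range_succ, Nat.factorial] at h5
    rw [Real.exp_neg, ← one_div, div_le_div_iff₀ (by norm_num) (exp_pos _)]
    linarith
  have h6 : 7787 / 10000 * (5 / 4 - x) ≤ exp (-x) := by nlinarith
  nlinarith [sq_nonneg (x - 264 / 1000)]

end par

end SokalDz
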