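import Pool.Agent.Lib_MP_af4de1_v3.DzRL0
import Pool.Agent.Lib_MP_af4de1_v3.DzS

/-!
# `PRealDL`, `X ≤ 80`, stage 1: the main term, general lemmas (helper7)
-/

set_option autoImplicit false

namespace SokalDz

open Real MeasureTheory Set SokalCen SokalV3

variable {r ρ t p y x : ℝ}

theorem ex_neg {E c : ℝ} (n : ℕ) (f : ℝ) (hE : n + f ≤ E) (hf : 0 ≤ f) (hc0 : 0 ≤ c)
    (hc : 1 ≤ c * ((2718281828 / 1000000000) ^ n * (1 + f + f ^ 2 / 2 + f ^ 3 / 6 + f ^ 4 / 24 +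
      f ^ 5 / 120 + f ^ 6 / 720))) :
    exp (-E) ≤ c := by
  have h1 : (2718281828 / 1000000000 : ℝ) ≤ exp 1 := by linarith [Real.exp_one_gt_d9]
  have h2 : (2718281828 / 1000000000 : ℝ) ^ n ≤ exp n := by
    have := pow_le_pow_left₀ (by norm_num) h1 n
    rwa [← Real.exp_nat_mul, mul_one] at this
  have h3 : 1 + f + f ^ 2 / 2 + f ^ 3 / 6 + f ^ 4 / 24 + f ^ 5 / 120 + f ^ 6 / 720 ≤ exp f := by
    have := Real.sum_le_exp_of_nonneg hf 7
    simp only [Finset.sum_range_succ, Finset.sum_range_zero, Nat.factorial] at this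
    norm_num at this
    linarith
  have h4 : (2718281828 / 1000000000 : ℝ) ^ n * (1 + f + f ^ 2 / 2 + f ^ 3 / 6 + f ^ 4 / 24 +
      f ^ 5 / 120 + f ^ 6 / 720) ≤
      exp E := by
    calc _ ≤ exp n * exp f := mul_le_mul h2 h3 (by positivity) (exp_pos _).le
      _ = exp (n + f) := by rw [Real.exp_add]
      _ ≤ exp E := Real.exp_le_exp.2 hE
  have h5 : 1 ≤ c * exp E := hc.trans (mul_le_mul_of_nonneg_left h4 hc0)
  have h6 := Real.exp_pos (-E)
  have h7 : exp E * exp (-E) = 1 := by rw [← Real.exp_add, add_neg_cancel, Real.exp_zero]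
  calc exp (-E) = 1 * exp (-E) := (one_mul _).symm
    _ ≤ c * exp E * exp (-E) := mul_le_mul_of_nonneg_right h5 h6.le
    _ = c := by rw [mul_assoc, h7, mul_one]

theorem HL_scale {φ B l c : ℝ} (h : HL ρ φ B l) (hc0 : 0 < c) (hc1 : c ≤ 1) :
    HL ρ φ (c * B) (c * l) := by
  obtain ⟨h1, h2, h3⟩ := h
  refine ⟨by positivity, by positivity, fun v h0 h4 h5 => ?_⟩
  have h6 := h3 v h0 h4 h5
  have h7 : 0 ≤ exp (pm (mm ρ) (-v)) * (1 - cos (φ - v)) :=
    mul_nonneg (exp_pos _).le (by linarith [cos_le_one (φ - v)])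
  nlinarith

/-- any smaller coefficient -/
theorem HL_c {φ β σ B : ℝ} (hφ : 0 < φ) (hβ : HR φ β) (hσ0 : 0 ≤ σ) (hσ1 : σ ≤ 1) (hB : 0 < B)
    (hB1 : B ≤ β * exp (-(σ * (φ / mm ρ)))) :
    HL ρ φ B (4 / 27 * (1 - σ) ^ 3 * (φ / mm ρ) * B * φ ^ 2) := by
  have h := HL_sig (ρ := ρ) hφ hβ hσ0 hσ1
  set D := β * exp (-(σ * (φ / mm ρ))) with hD
  have hD0 : 0 < D := hB.trans_le hB1
  have h1 := HL_scale h (div_pos hB hD0) ((div_le_one hD0).2 hB1)
  have e1 : B / D * D = B := by field_simp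
  have e2 : B / D * (4 / 27 * (1 - σ) ^ 3 * (φ / mm ρ) * D * φ ^ 2) =
      4 / 27 * (1 - σ) ^ 3 * (φ / mm ρ) * B * φ ^ 2 := by field_simp
  rwa [e1, e2] at h1

/-- The exponent of the main term: `lA = a y k`, `h' ≥ 1/(a k)`, condition (★). -/
theorem Pr.expM (h : Pr ρ t p y x) (hr : 0 < r) {B q lam k h' : ℝ} (hB : 0 < B)
    (hk : 0 < k) (hlA : SokalDz.lA ρ t = aa p * y * k) (hh : 1 ≤ h' * (aa p * k))
    (hst : (y + B * h') * (lam * x * B + q * y) ≤ B * y) :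
    r * x ^ 2 * q ≤ r * (SokalDz.lA ρ t * B * t ^ 2 / (SokalDz.lA ρ t + B) -
      5 / 4 * lam * (t / mm ρ) * B * t ^ 2) := by
  have ha := aa_pos h.p0 h.p1
  have hy := h.y0
  have hak : 0 < aa p * k := mul_pos (by linarith) hk
  have ht2 : t ^ 2 = x ^ 2 / y := by rw [eq_div_iff hy.ne', h.ts]
  rw [hlA, h.tm, ht2]
  have hh' : 0 < h' := by
    by_contra hn
    nlinarith
  have e : r * (aa p * y * k * B * (x ^ 2 / y) / (aa p * y * k + B) -
      5 / 4 * lam * (4 / 5 * x) * B * (x ^ 2 / y)) =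
      r * x ^ 2 * (aa p * k * B / (aa p * y * k + B) - lam * x * B / y) := by
    field_simp
  rw [e]
  have hx := h.x0
  refine mul_le_mul_of_nonneg_left ?_ (by positivity)
  have hD : 0 < aa p * y * k + B := by positivity
  have h1 : B / (y + B * h') ≤ aa p * k * B / (aa p * y * k + B) := by
    rw [div_le_div_iff₀ (by positivity) hD]
    have : B * (aa p * k * B * h') = (aa p * k * h') * B ^ 2 := by ring
    nlinarith [mul_le_mul_of_nonneg_right hh (sq_nonneg B)]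
  have h2 : q + lam * x * B / y ≤ B / (y + B * h') := by
    rw [le_div_iff₀ (by positivity)]
    have e2 : (q + lam * x * B / y) * (y + B * h') =
        (y + B * h') * (lam * x * B + q * y) / y := by
      field_simp
      ring
    rw [e2, div_le_iff₀ hy]
    exact hst
  linarith

/-- from the polynomial inequality to (★) -/
theorem star_of {p y B kap L q : ℝ} (hp1 : p < 1)
    (hN : (y * (20 - 8 * p) + 25 * B * p * kap) * (L + q * y) ≤ B * y * (20 - 8 * p)) :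
    (y + B * (kap * (25 * p / (20 - 8 * p)))) * (L + q * y) ≤ B * y := by
  have hg : 0 < 20 - 8 * p := by linarith
  obtain ⟨g, hgd⟩ : ∃ g, g = 20 - 8 * p := ⟨_, rfl⟩
  rw [← hgd] at hg hN ⊢
  have e : (y + B * (kap * (25 * p / g))) * (L + q * y) =
      (y * g + 25 * B * p * kap) * (L + q * y) / g := by
    field_simp
  rw [e, div_le_iff₀ hg]
  exact hN

theorem aa_h {p k kap : ℝ} (h0 : 0 < p) (h1 : p < 1) (hk : 1 ≤ kap * k) :
    1 ≤ kap * (25 * p / (20 - 8 * p)) * (aa p * k) := by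
  have hg : 0 < 20 - 8 * p := by linarith
  unfold aa
  have e3 : 4 / (5 * p) - 8 / 25 = (20 - 8 * p) / (25 * p) := by
    field_simp
    ring
  rw [e3]
  obtain ⟨g, hgd⟩ : ∃ g, g = 20 - 8 * p := ⟨_, rfl⟩
  rw [← hgd] at hg ⊢
  have e : kap * (25 * p / g) * (g / (25 * p) * k) = kap * k := by
    field_simp
  rw [e]
  exact hk

/-- scaling of (★) from `x0` to `x ≥ x0` -/
theorem star_scale {y B0 B h lam x0 x q0 q nu kap : ℝ} (hy : 0 < y) (hB : 0 < B) (hB0 : B ≤ B0)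
    (hh : 0 ≤ h) (hlam : 0 ≤ lam) (hx0 : 0 < x0) (hx : x0 ≤ x) (hq : 0 ≤ q) (hq0 : 0 < q0)
    (hkap : 1 ≤ kap)
    (H : (y + B0 * h) * (lam * x0 * B0 + q0 * y) ≤ B0 * y)
    (hnu : lam * x0 * B0 ≤ nu * q0 * y)
    (hqq : kap * B0 * q * x0 ≤ B * q0 * (x0 - nu * (kap * x - x0))) :
    (y + B * (kap * h)) * (lam * x * B + q * y) ≤ B * y := by
  have hB00 : 0 < B0 := hB.trans_le hB0
  have hxx : 0 < x := hx0.trans_le hx
  have hw : 0 ≤ lam * x * B + q * y := by positivity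
  have h1 : y + B * (kap * h) ≤ kap * (y + B0 * h) := by nlinarith [mul_nonneg hh hB00.le, mul_nonneg (sub_nonneg.2 hkap) hy.le, mul_nonneg (mul_nonneg (by linarith : (0:ℝ) ≤ kap) hh) (sub_nonneg.2 hB0)]
  have hW0 : 0 < lam * x0 * B0 + q0 * y := by positivity
  -- `kap B0 (lam x B + q y) ≤ B (lam x0 B0 + q0 y)`
  have h2 : kap * B0 * (lam * x * B + q * y) ≤ B * (lam * x0 * B0 + q0 * y) := by
    have h3 : kap * B0 * q * x0 * y ≤ B * q0 * (x0 - nu * (kap * x - x0)) * y :=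
      mul_le_mul_of_nonneg_right hqq hy.le
    have h4 : 0 ≤ kap * x - x0 := by nlinarith
    have h5 : B * (kap * x - x0) * (lam * x0 * B0) ≤ B * (kap * x - x0) * (nu * q0 * y) :=
      mul_le_mul_of_nonneg_left hnu (by positivity)
    have h6 : x0 * (kap * B0 * (lam * x * B + q * y)) ≤ x0 * (B * (lam * x0 * B0 + q0 * y)) := by
      nlinarith
    exact le_of_mul_le_mul_left h6 hx0
  have h7 : (y + B * (kap * h)) * (lam * x * B + q * y) * B0 ≤ B * y * B0 := by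
    calc (y + B * (kap * h)) * (lam * x * B + q * y) * B0
        ≤ kap * (y + B0 * h) * (lam * x * B + q * y) * B0 :=
          mul_le_mul_of_nonneg_right (mul_le_mul_of_nonneg_right h1 hw) hB00.le
      _ = (y + B0 * h) * (kap * B0 * (lam * x * B + q * y)) := by ring
      _ ≤ (y + B0 * h) * (B * (lam * x0 * B0 + q0 * y)) :=
          mul_le_mul_of_nonneg_left h2 (by positivity)
      _ = B * ((y + B0 * h) * (lam * x0 * B0 + q0 * y)) := by ring
      _ ≤ B * (B0 * y) := mul_le_mul_of_nonneg_left H hB.le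
      _ = B * y * B0 := by ring
  exact le_of_mul_le_mul_right h7 hB00

/-- the factor in front -/
theorem PP_le {p y A B k S2 lo : ℝ} (h0 : 0 < p) (hA : A = aa p * y * k) (hAB : 0 < A + B)
    (hS : 0 ≤ lo) (hlo : S2 ≤ lo ^ 2)
    (hN : 1 + 16 / 25 * y ≤ S2 * ((4 / 5 - 8 / 25 * p) * y * k + B * p)) :
    √(PP p y / (A + B)) ≤ lo := by
  rw [Real.sqrt_le_left hS]
  refine le_trans ?_ hlo
  unfold PP
  rw [div_le_iff₀ hAB, div_le_iff₀ h0]
  refine hN.trans (le_of_eq ?_)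
  rw [hA]
  unfold aa
  field_simp

/-- the group of the main term, left -/
theorem Pr.GlM (h : Pr ρ t p y x) (hr : 0 < r) {B l E d S : ℝ} (hA : 0 < SokalDz.lA ρ t)
    (hB : 0 < B) (hE : E ≤ r * (SokalDz.lA ρ t * B * t ^ 2 / (SokalDz.lA ρ t + B) - l))
    (hd : exp (-(E / 9)) ≤ d) (hS : √(PP p y / (SokalDz.lA ρ t + B)) ≤ S) :
    SokalDz.Kc r ρ * (20 / 3 * lM (8 / 9 * r) ρ t B l + lM r ρ t B l) ≤
      (5 + 7072 / 10000 * d) * S * exp (-(8 / 9 * E)) := by
  have hg := h.gauss hr (A := SokalDz.lA ρ t + B) (a := 20 / 3) (b := 1)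
    (e := SokalDz.lA ρ t * B * t ^ 2 / (SokalDz.lA ρ t + B) - l) (by positivity) (by norm_num)
    (by norm_num) hE hd
  have hd0 : 0 ≤ d := (exp_pos _).le.trans hd
  unfold lM
  rw [one_mul] at hg
  refine hg.trans ?_
  have h1 : (3 / 4 * (20 / 3) + 7072 / 10000 * 1 * d : ℝ) = 5 + 7072 / 10000 * d := by ring
  rw [h1]
  exact mul_le_mul_of_nonneg_right (mul_le_mul_of_nonneg_left hS (by positivity)) (exp_pos _).le

end SokalDz
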