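import Mathlib

/-!
# `PRealDL`, `X ≤ 80`, polynomial certificates in `p` (Bernstein form; helper7)
-/

set_option autoImplicit false

namespace SokalDz

theorem cA1 {p : ℝ} (h0 : 0 ≤ p) (h1 : p ≤ 331/500) :
    ((1 - p ^ 2) * (20 - 8 * p) + 25 * (467/1000) * p * (1)) * ((5137/140625) + 3621/10000 * (1 - p ^ 2)) ≤
      467/1000 * (1 - p ^ 2) * (20 - 8 * p) := by
  obtain ⟨s, hs⟩ : ∃ s, s = p - 0 := ⟨_, rfl⟩
  obtain ⟨w, hw⟩ : ∃ w, w = 331/500 - p := ⟨_, rfl⟩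
  have s0 : 0 ≤ s := by rw [hs]; linarith
  have w0 : 0 ≤ w := by rw [hw]; linarith
  have e : 467/1000 * (1 - p ^ 2) * (20 - 8 * p) -
    (((1 - p ^ 2) * (20 - 8 * p) + 25 * (467/1000) * p * (1)) * ((5137/140625) + 3621/10000 * (1 - p ^ 2))) =
      384582500000000/35758762295859 * s ^ 0 * w ^ 5 +
      954557934568750/35758762295859 * s ^ 1 * w ^ 4 +
      232162207465000/11919587431953 * s ^ 2 * w ^ 3 +
      963060112227619/95356699455624 * s ^ 3 * w ^ 2 +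
      182624960394727/47678349727812 * s ^ 4 * w ^ 1 +
      29591743277912381/178793811479295000 * s ^ 5 * w ^ 0 := by
    rw [hs, hw]; ring
  have hp : 0 ≤ 467/1000 * (1 - p ^ 2) * (20 - 8 * p) -
    (((1 - p ^ 2) * (20 - 8 * p) + 25 * (467/1000) * p * (1)) * ((5137/140625) + 3621/10000 * (1 - p ^ 2))) := by rw [e]; positivity
  linarith

theorem cB1 {p : ℝ} (h0 : 6619/10000 ≤ p) (h1 : p ≤ 913/1000) :
    ((1 - p ^ 2) * (20 - 8 * p) + 25 * (771/2000) * p * (1)) * ((25443/2000000) + 3621/10000 * (1 - p ^ 2)) ≤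
      771/2000 * (1 - p ^ 2) * (20 - 8 * p) := by
  obtain ⟨s, hs⟩ : ∃ s, s = p - 6619/10000 := ⟨_, rfl⟩
  obtain ⟨w, hw⟩ : ∃ w, w = 913/1000 - p := ⟨_, rfl⟩
  have s0 : 0 ≤ s := by rw [hs]; linarith
  have w0 : 0 ≤ w := by rw [hw]; linarith
  have e : 771/2000 * (1 - p ^ 2) * (20 - 8 * p) -
    (((1 - p ^ 2) * (20 - 8 * p) + 25 * (771/2000) * p * (1)) * ((25443/2000000) + 3621/10000 * (1 - p ^ 2))) =
      92383457829684319027/4621466533364516250 * s ^ 0 * w ^ 5 +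
      29648001311429151079/92429330667290325 * s ^ 1 * w ^ 4 +
      17383031263688417707/18485866133458065 * s ^ 2 * w ^ 3 +
      3713013665822307878/3697173226691613 * s ^ 3 * w ^ 2 +
      1404881920682206780/3697173226691613 * s ^ 4 * w ^ 1 +
      67171192807244120/3697173226691613 * s ^ 5 * w ^ 0 := by
    rw [hs, hw]; ring
  have hp : 0 ≤ 771/2000 * (1 - p ^ 2) * (20 - 8 * p) -
    (((1 - p ^ 2) * (20 - 8 * p) + 25 * (771/2000) * p * (1)) * ((25443/2000000) + 3621/10000 * (1 - p ^ 2))) := by rw [e]; positivity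
  linarith

theorem cA0 {p : ℝ} (h0 : 0 ≤ p) (h1 : p ≤ 119/500) :
    ((1 - p ^ 2) * (20 - 8 * p) + 25 * (239/500) * p * (1)) * ((3346/84375) + 1933/5000 * (1 - p ^ 2)) ≤
      239/500 * (1 - p ^ 2) * (20 - 8 * p) := by
  obtain ⟨s, hs⟩ : ∃ s, s = p - 0 := ⟨_, rfl⟩
  obtain ⟨w, hw⟩ : ∃ w, w = 119/500 - p := ⟨_, rfl⟩
  have s0 : 0 ≤ s := by rw [hs]; linarith
  have w0 : 0 ≤ w := by rw [hw]; linarith
  have e : 239/500 * (1 - p ^ 2) * (20 - 8 * p) -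
    (((1 - p ^ 2) * (20 - 8 * p) + 25 * (239/500) * p * (1)) * ((3346/84375) + 1933/5000 * (1 - p ^ 2))) =
      873175000000000/644315488173 * s ^ 0 * w ^ 5 +
      1086619169875000/214771829391 * s ^ 1 * w ^ 4 +
      4627758289300000/644315488173 * s ^ 2 * w ^ 3 +
      6155917130723635/1288630976346 * s ^ 3 * w ^ 2 +
      925265169581813/644315488173 * s ^ 4 * w ^ 1 +
      112968903546021193/805394360216250 * s ^ 5 * w ^ 0 := by
    rw [hs, hw]; ring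
  have hp : 0 ≤ 239/500 * (1 - p ^ 2) * (20 - 8 * p) -
    (((1 - p ^ 2) * (20 - 8 * p) + 25 * (239/500) * p * (1)) * ((3346/84375) + 1933/5000 * (1 - p ^ 2))) := by rw [e]; positivity
  linarith

theorem cT1_0 {p : ℝ} (h0 : 0 ≤ p) (h1 : p ≤ 913/2000) :
    ((1 - p ^ 2) * (20 - 8 * p) + 25 * (49 / 100) * p * 1) * (4 / 75 * (1 - p ^ 2 + 1 / 4) * (49 / 100) + 397 / 1000 * (1 - p ^ 2)) ≤
      49 / 100 * (1 - p ^ 2) * (20 - 8 * p) := by
  obtain ⟨s, hs⟩ : ∃ s, s = p - 0 := ⟨_, rfl⟩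
  obtain ⟨w, hw⟩ : ∃ w, w = 913/2000 - p := ⟨_, rfl⟩
  have s0 : 0 ≤ s := by rw [hs]; linarith
  have w0 : 0 ≤ w := by rw [hw]; linarith
  have e : 49 / 100 * (1 - p ^ 2) * (20 - 8 * p) -
    (((1 - p ^ 2) * (20 - 8 * p) + 25 * (49 / 100) * p * 1) * (4 / 75 * (1 - p ^ 2 + 1 / 4) * (49 / 100) + 397 / 1000 * (1 - p ^ 2))) =
      115840000000000000/1903159303787379 * s ^ 0 * w ^ 5 +
      327383644000000000/1903159303787379 * s ^ 1 * w ^ 4 +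
      98765205312000000/634386434595793 * s ^ 2 * w ^ 3 +
      103816251058184600/1903159303787379 * s ^ 3 * w ^ 2 +
      13799172692776664/1903159303787379 * s ^ 4 * w ^ 1 +
      735759181999538171/1189474564867111875 * s ^ 5 * w ^ 0 := by
    rw [hs, hw]; ring
  have hp : 0 ≤ 49 / 100 * (1 - p ^ 2) * (20 - 8 * p) -
    (((1 - p ^ 2) * (20 - 8 * p) + 25 * (49 / 100) * p * 1) * (4 / 75 * (1 - p ^ 2 + 1 / 4) * (49 / 100) + 397 / 1000 * (1 - p ^ 2))) := by rw [e]; positivity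
  linarith

theorem cT1_1 {p : ℝ} (h0 : 913/2000 ≤ p) (h1 : p ≤ 913/1000) :
    ((1 - p ^ 2) * (20 - 8 * p) + 25 * (49 / 100) * p * 1) * (4 / 75 * (1 - p ^ 2 + 1 / 4) * (49 / 100) + 397 / 1000 * (1 - p ^ 2)) ≤
      49 / 100 * (1 - p ^ 2) * (20 - 8 * p) := by
  obtain ⟨s, hs⟩ : ∃ s, s = p - 913/2000 := ⟨_, rfl⟩
  obtain ⟨w, hw⟩ : ∃ w, w = 913/1000 - p := ⟨_, rfl⟩
  have s0 : 0 ≤ s := by rw [hs]; linarith
  have w0 : 0 ≤ w := by rw [hw]; linarith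
  have e : 49 / 100 * (1 - p ^ 2) * (20 - 8 * p) -
    (((1 - p ^ 2) * (20 - 8 * p) + 25 * (49 / 100) * p * 1) * (4 / 75 * (1 - p ^ 2 + 1 / 4) * (49 / 100) + 397 / 1000 * (1 - p ^ 2))) =
      4708858764797044294400/1586414597698741725651 * s ^ 0 * w ^ 7 +
      1309614406457875532800/1586414597698741725651 * s ^ 1 * w ^ 6 +
      150538481174291541958400/1586414597698741725651 * s ^ 2 * w ^ 5 +
      674379238518031834048000/1586414597698741725651 * s ^ 3 * w ^ 4 +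
      347078855213415558144000/528804865899580575217 * s ^ 4 * w ^ 3 +
      687830180001763024076800/1586414597698741725651 * s ^ 5 * w ^ 2 +
      57223628789541198131200/528804865899580575217 * s ^ 6 * w ^ 1 +
      4635759021706121420800/1586414597698741725651 * s ^ 7 * w ^ 0 := by
    rw [hs, hw]; ring
  have hp : 0 ≤ 49 / 100 * (1 - p ^ 2) * (20 - 8 * p) -
    (((1 - p ^ 2) * (20 - 8 * p) + 25 * (49 / 100) * p * 1) * (4 / 75 * (1 - p ^ 2 + 1 / 4) * (49 / 100) + 397 / 1000 * (1 - p ^ 2))) := by rw [e]; positivity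
  linarith

theorem cT1 {p : ℝ} (h0 : 0 ≤ p) (h1 : p ≤ 913/1000) :
    ((1 - p ^ 2) * (20 - 8 * p) + 25 * (49 / 100) * p * 1) * (4 / 75 * (1 - p ^ 2 + 1 / 4) * (49 / 100) + 397 / 1000 * (1 - p ^ 2)) ≤
      49 / 100 * (1 - p ^ 2) * (20 - 8 * p) := by
  rcases le_total p (913/2000) with h | h
  · exact cT1_0 (by linarith) h
  exact cT1_1 (by linarith) h1

theorem sA1 {p : ℝ} (h0 : 0 ≤ p) (h1 : p ≤ 331/500) :
    1 + 16 / 25 * (1 - p ^ 2) ≤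
      213/100 * ((4 / 5 - 8 / 25 * p) * (1 - p ^ 2) * (1) + 467/1000 * p) := by
  obtain ⟨s, hs⟩ : ∃ s, s = p - 0 := ⟨_, rfl⟩
  obtain ⟨w, hw⟩ : ∃ w, w = 331/500 - p := ⟨_, rfl⟩
  have s0 : 0 ≤ s := by rw [hs]; linarith
  have w0 : 0 ≤ w := by rw [hw]; linarith
  have e : 213/100 * ((4 / 5 - 8 / 25 * p) * (1 - p ^ 2) * (1) + 467/1000 * p) -
    (1 + 16 / 25 * (1 - p ^ 2)) =
      8000000/36264691 * s ^ 0 * w ^ 3 +
      99819705/72529382 * s ^ 1 * w ^ 2 +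
      17533253/36264691 * s ^ 2 * w ^ 1 +
      426767357/45330863750 * s ^ 3 * w ^ 0 := by
    rw [hs, hw]; ring
  have hp : 0 ≤ 213/100 * ((4 / 5 - 8 / 25 * p) * (1 - p ^ 2) * (1) + 467/1000 * p) -
    (1 + 16 / 25 * (1 - p ^ 2)) := by rw [e]; positivity
  linarith

theorem sA2 {p : ℝ} (h0 : 0 ≤ p) (h1 : p ≤ 331/500) :
    1 + 16 / 25 * (1 - p ^ 2) ≤
      221/100 * ((4 / 5 - 8 / 25 * p) * (1 - p ^ 2) * (987/1000) + 11/25 * p) := by
  obtain ⟨s, hs⟩ : ∃ s, s = p - 0 := ⟨_, rfl⟩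
  obtain ⟨w, hw⟩ : ∃ w, w = 331/500 - p := ⟨_, rfl⟩
  have s0 : 0 ≤ s := by rw [hs]; linarith
  have w0 : 0 ≤ w := by rw [hw]; linarith
  have e : 221/100 * ((4 / 5 - 8 / 25 * p) * (1 - p ^ 2) * (987/1000) + 11/25 * p) -
    (1 + 16 / 25 * (1 - p ^ 2)) =
      13127000/36264691 * s ^ 0 * w ^ 3 +
      310435352/181323455 * s ^ 1 * w ^ 2 +
      6064952953/9066172750 * s ^ 2 * w ^ 1 +
      191477445007/11332715937500 * s ^ 3 * w ^ 0 := by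
    rw [hs, hw]; ring
  have hp : 0 ≤ 221/100 * ((4 / 5 - 8 / 25 * p) * (1 - p ^ 2) * (987/1000) + 11/25 * p) -
    (1 + 16 / 25 * (1 - p ^ 2)) := by rw [e]; positivity
  linarith

theorem sB1 {p : ℝ} (h0 : 6619/10000 ≤ p) (h1 : p ≤ 913/1000) :
    1 + 16 / 25 * (1 - p ^ 2) ≤
      127/50 * ((4 / 5 - 8 / 25 * p) * (1 - p ^ 2) * (1) + 771/2000 * p) := by
  obtain ⟨s, hs⟩ : ∃ s, s = p - 6619/10000 := ⟨_, rfl⟩
  obtain ⟨w, hw⟩ : ∃ w, w = 913/1000 - p := ⟨_, rfl⟩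
  have s0 : 0 ≤ s := by rw [hs]; linarith
  have w0 : 0 ≤ w := by rw [hw]; linarith
  have e : 127/50 * ((4 / 5 - 8 / 25 * p) * (1 - p ^ 2) * (1) + 771/2000 * p) -
    (1 + 16 / 25 * (1 - p ^ 2)) =
      79981014601772/9895099269375 * s ^ 0 * w ^ 3 +
      9634288852888/659673284625 * s ^ 1 * w ^ 2 +
      771107589752/131934656925 * s ^ 2 * w ^ 1 +
      10739901808/79160794155 * s ^ 3 * w ^ 0 := by
    rw [hs, hw]; ring
  have hp : 0 ≤ 127/50 * ((4 / 5 - 8 / 25 * p) * (1 - p ^ 2) * (1) + 771/2000 * p) -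
    (1 + 16 / 25 * (1 - p ^ 2)) := by rw [e]; positivity
  linarith

theorem sB2 {p : ℝ} (h0 : 6619/10000 ≤ p) (h1 : p ≤ 913/1000) :
    1 + 16 / 25 * (1 - p ^ 2) ≤
      283/100 * ((4 / 5 - 8 / 25 * p) * (1 - p ^ 2) * (987/1000) + 1693/5000 * p) := by
  obtain ⟨s, hs⟩ : ∃ s, s = p - 6619/10000 := ⟨_, rfl⟩
  obtain ⟨w, hw⟩ : ∃ w, w = 913/1000 - p := ⟨_, rfl⟩
  have s0 : 0 ≤ s := by rw [hs]; linarith
  have w0 : 0 ≤ w := by rw [hw]; linarith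
  have e : 283/100 * ((4 / 5 - 8 / 25 * p) * (1 - p ^ 2) * (987/1000) + 1693/5000 * p) -
    (1 + 16 / 25 * (1 - p ^ 2)) =
      61812561230301539/4947549634687500 * s ^ 0 * w ^ 3 +
      3901241711917253/164918321156250 * s ^ 1 * w ^ 2 +
      173964842244731/16491832115625 * s ^ 2 * w ^ 1 +
      2774033966074/9895099269375 * s ^ 3 * w ^ 0 := by
    rw [hs, hw]; ring
  have hp : 0 ≤ 283/100 * ((4 / 5 - 8 / 25 * p) * (1 - p ^ 2) * (987/1000) + 1693/5000 * p) -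
    (1 + 16 / 25 * (1 - p ^ 2)) := by rw [e]; positivity
  linarith

theorem sA0 {p : ℝ} (h0 : 0 ≤ p) (h1 : p ≤ 119/500) :
    1 + 16 / 25 * (1 - p ^ 2) ≤
      103/50 * ((4 / 5 - 8 / 25 * p) * (1 - p ^ 2) * (1) + 239/500 * p) := by
  obtain ⟨s, hs⟩ : ∃ s, s = p - 0 := ⟨_, rfl⟩
  obtain ⟨w, hw⟩ : ∃ w, w = 119/500 - p := ⟨_, rfl⟩
  have s0 : 0 ≤ s := by rw [hs]; linarith
  have w0 : 0 ≤ w := by rw [hw]; linarith
  have e : 103/50 * ((4 / 5 - 8 / 25 * p) * (1 - p ^ 2) * (1) + 239/500 * p) -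
    (1 + 16 / 25 * (1 - p ^ 2)) =
      1000000/1685159 * s ^ 0 * w ^ 3 +
      12683030/1685159 * s ^ 1 * w ^ 2 +
      15228916/1685159 * s ^ 2 * w ^ 1 +
      2910464258/1053224375 * s ^ 3 * w ^ 0 := by
    rw [hs, hw]; ring
  have hp : 0 ≤ 103/50 * ((4 / 5 - 8 / 25 * p) * (1 - p ^ 2) * (1) + 239/500 * p) -
    (1 + 16 / 25 * (1 - p ^ 2)) := by rw [e]; positivity
  linarith

theorem sT1_0 {p : ℝ} (h0 : 0 ≤ p) (h1 : p ≤ 913/2000) :
    1 + 16 / 25 * (1 - p ^ 2) ≤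
      21/10 * ((4 / 5 - 8 / 25 * p) * (1 - p ^ 2) * (1) + 49/100 * p) := by
  obtain ⟨s, hs⟩ : ∃ s, s = p - 0 := ⟨_, rfl⟩
  obtain ⟨w, hw⟩ : ∃ w, w = 913/2000 - p := ⟨_, rfl⟩
  have s0 : 0 ≤ s := by rw [hs]; linarith
  have w0 : 0 ≤ w := by rw [hw]; linarith
  have e : 21/10 * ((4 / 5 - 8 / 25 * p) * (1 - p ^ 2) * (1) + 49/100 * p) -
    (1 + 16 / 25 * (1 - p ^ 2)) =
      320000000/761048497 * s ^ 0 * w ^ 3 +
      2263764000/761048497 * s ^ 1 * w ^ 2 +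
      1833704480/761048497 * s ^ 2 * w ^ 1 +
      50170633748/95131062125 * s ^ 3 * w ^ 0 := by
    rw [hs, hw]; ring
  have hp : 0 ≤ 21/10 * ((4 / 5 - 8 / 25 * p) * (1 - p ^ 2) * (1) + 49/100 * p) -
    (1 + 16 / 25 * (1 - p ^ 2)) := by rw [e]; positivity
  linarith

theorem sT1_1 {p : ℝ} (h0 : 913/2000 ≤ p) (h1 : p ≤ 913/1000) :
    1 + 16 / 25 * (1 - p ^ 2) ≤
      21/10 * ((4 / 5 - 8 / 25 * p) * (1 - p ^ 2) * (1) + 49/100 * p) := by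
  obtain ⟨s, hs⟩ : ∃ s, s = p - 913/2000 := ⟨_, rfl⟩
  obtain ⟨w, hw⟩ : ∃ w, w = 913/1000 - p := ⟨_, rfl⟩
  have s0 : 0 ≤ s := by rw [hs]; linarith
  have w0 : 0 ≤ w := by rw [hw]; linarith
  have e : 21/10 * ((4 / 5 - 8 / 25 * p) * (1 - p ^ 2) * (1) + 49/100 * p) -
    (1 + 16 / 25 * (1 - p ^ 2)) =
      6421841119744000000000/528804865899580575217 * s ^ 0 * w ^ 7 +
      34879139517440000000000/528804865899580575217 * s ^ 1 * w ^ 6 +
      71223377589248000000000/528804865899580575217 * s ^ 2 * w ^ 5 +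
      65877027815424000000000/528804865899580575217 * s ^ 3 * w ^ 4 +
      24092686526976000000000/528804865899580575217 * s ^ 4 * w ^ 3 +
      921239333888000000000/528804865899580575217 * s ^ 5 * w ^ 2 +
      1277591668736000000000/528804865899580575217 * s ^ 6 * w ^ 1 +
      1338090237952000000000/528804865899580575217 * s ^ 7 * w ^ 0 := by
    rw [hs, hw]; ring
  have hp : 0 ≤ 21/10 * ((4 / 5 - 8 / 25 * p) * (1 - p ^ 2) * (1) + 49/100 * p) -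
    (1 + 16 / 25 * (1 - p ^ 2)) := by rw [e]; positivity
  linarith

theorem sT1 {p : ℝ} (h0 : 0 ≤ p) (h1 : p ≤ 913/1000) :
    1 + 16 / 25 * (1 - p ^ 2) ≤
      21/10 * ((4 / 5 - 8 / 25 * p) * (1 - p ^ 2) * (1) + 49/100 * p) := by
  rcases le_total p (913/2000) with h | h
  · exact sT1_0 (by linarith) h
  exact sT1_1 (by linarith) h1

end SokalDz
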