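import Mathlib

/-!
# `PRealDL`, `X ≤ 80`, polynomial certificates in `p`, `y ≤ 1/6` (Bernstein form; helper7)
-/

set_option autoImplicit false

namespace SokalDz

theorem cG1 {p : ℝ} (h0 : 1141/1250 ≤ p) (h1 : p ≤ 1) :
    163/400 * ((1 - p ^ 2) * (20 - 8 * p) + 25 * (1297/5000) * p) ≤
      1297/5000 * (20 - 8 * p) := by
  obtain ⟨s, hs⟩ : ∃ s, s = p - 1141/1250 := ⟨_, rfl⟩
  obtain ⟨w, hw⟩ : ∃ w, w = 1 - p := ⟨_, rfl⟩
  have s0 : 0 ≤ s := by rw [hs]; linarith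
  have w0 : 0 ≤ w := by rw [hw]; linarith
  have e : 1297/5000 * (20 - 8 * p) -
    (163/400 * ((1 - p ^ 2) * (20 - 8 * p) + 25 * (1297/5000) * p)) =
      28920671257/1036023200 * s ^ 0 * w ^ 3 +
      8050814075/10360232 * s ^ 1 * w ^ 2 +
      60566683125/41440928 * s ^ 2 * w ^ 1 +
      14692578125/20720464 * s ^ 3 * w ^ 0 := by
    rw [hs, hw]; ring
  have hp : 0 ≤ 1297/5000 * (20 - 8 * p) -
    (163/400 * ((1 - p ^ 2) * (20 - 8 * p) + 25 * (1297/5000) * p)) := by rw [e]; positivity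
  linarith

theorem cG2 {p : ℝ} (h0 : 1141/1250 ≤ p) (h1 : p ≤ 1) :
    39/100 * ((1 - p ^ 2) * (20 - 8 * p) + 25 * (2229/10000) * p) ≤
      2229/10000 * (20 - 8 * p) := by
  obtain ⟨s, hs⟩ : ∃ s, s = p - 1141/1250 := ⟨_, rfl⟩
  obtain ⟨w, hw⟩ : ∃ w, w = 1 - p := ⟨_, rfl⟩
  have s0 : 0 ≤ s := by rw [hs]; linarith
  have w0 : 0 ≤ w := by rw [hw]; linarith
  have e : 2229/10000 * (20 - 8 * p) -
    (39/100 * ((1 - p ^ 2) * (20 - 8 * p) + 25 * (2229/10000) * p)) =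
      16050281817/518011600 * s ^ 0 * w ^ 3 +
      4299517575/5180116 * s ^ 1 * w ^ 2 +
      32293363125/20720464 * s ^ 2 * w ^ 1 +
      7836328125/10360232 * s ^ 3 * w ^ 0 := by
    rw [hs, hw]; ring
  have hp : 0 ≤ 2229/10000 * (20 - 8 * p) -
    (39/100 * ((1 - p ^ 2) * (20 - 8 * p) + 25 * (2229/10000) * p)) := by rw [e]; positivity
  linarith

theorem cG3 {p : ℝ} (h0 : 1141/1250 ≤ p) (h1 : p ≤ 1) :
    29/80 * ((1 - p ^ 2) * (20 - 8 * p) + 25 * (1763/10000) * p) ≤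
      1763/10000 * (20 - 8 * p) := by
  obtain ⟨s, hs⟩ : ∃ s, s = p - 1141/1250 := ⟨_, rfl⟩
  obtain ⟨w, hw⟩ : ∃ w, w = 1 - p := ⟨_, rfl⟩
  have s0 : 0 ≤ s := by rw [hs]; linarith
  have w0 : 0 ≤ w := by rw [hw]; linarith
  have e : 1763/10000 * (20 - 8 * p) -
    (29/80 * ((1 - p ^ 2) * (20 - 8 * p) + 25 * (1763/10000) * p)) =
      7779060037/414409280 * s ^ 0 * w ^ 3 +
      17186065375/20720464 * s ^ 1 * w ^ 2 +
      132163963125/82881856 * s ^ 2 * w ^ 1 +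
      32367578125/41440928 * s ^ 3 * w ^ 0 := by
    rw [hs, hw]; ring
  have hp : 0 ≤ 1763/10000 * (20 - 8 * p) -
    (29/80 * ((1 - p ^ 2) * (20 - 8 * p) + 25 * (1763/10000) * p)) := by rw [e]; positivity
  linarith

theorem sG1 {p : ℝ} (h0 : 1141/1250 ≤ p) (h1 : p ≤ 1) :
    1 + 16 / 25 * (1 - p ^ 2) ≤
      193/50 * ((4 / 5 - 8 / 25 * p) * (1 - p ^ 2) * (1) + 1297/5000 * p) := by
  obtain ⟨s, hs⟩ : ∃ s, s = p - 1141/1250 := ⟨_, rfl⟩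
  obtain ⟨w, hw⟩ : ∃ w, w = 1 - p := ⟨_, rfl⟩
  have s0 : 0 ≤ s := by rw [hs]; linarith
  have w0 : 0 ≤ w := by rw [hw]; linarith
  have e : 193/50 * ((4 / 5 - 8 / 25 * p) * (1 - p ^ 2) * (1) + 1297/5000 * p) -
    (1 + 16 / 25 * (1 - p ^ 2)) =
      655409858573/3237572500 * s ^ 0 * w ^ 3 +
      511358007/1295029 * s ^ 1 * w ^ 2 +
      1000409025/5180116 * s ^ 2 * w ^ 1 +
      5015625/2590058 * s ^ 3 * w ^ 0 := by
    rw [hs, hw]; ring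
  have hp : 0 ≤ 193/50 * ((4 / 5 - 8 / 25 * p) * (1 - p ^ 2) * (1) + 1297/5000 * p) -
    (1 + 16 / 25 * (1 - p ^ 2)) := by rw [e]; positivity
  linarith

theorem sG2 {p : ℝ} (h0 : 1141/1250 ≤ p) (h1 : p ≤ 1) :
    1 + 16 / 25 * (1 - p ^ 2) ≤
      449/100 * ((4 / 5 - 8 / 25 * p) * (1 - p ^ 2) * (1) + 2229/10000 * p) := by
  obtain ⟨s, hs⟩ : ∃ s, s = p - 1141/1250 := ⟨_, rfl⟩
  obtain ⟨w, hw⟩ : ∃ w, w = 1 - p := ⟨_, rfl⟩
  have s0 : 0 ≤ s := by rw [hs]; linarith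
  have w0 : 0 ≤ w := by rw [hw]; linarith
  have e : 449/100 * ((4 / 5 - 8 / 25 * p) * (1 - p ^ 2) * (1) + 2229/10000 * p) -
    (1 + 16 / 25 * (1 - p ^ 2)) =
      3655794293953/12950290000 * s ^ 0 * w ^ 3 +
      2865239327/5180116 * s ^ 1 * w ^ 2 +
      5607571525/20720464 * s ^ 2 * w ^ 1 +
      12828125/10360232 * s ^ 3 * w ^ 0 := by
    rw [hs, hw]; ring
  have hp : 0 ≤ 449/100 * ((4 / 5 - 8 / 25 * p) * (1 - p ^ 2) * (1) + 2229/10000 * p) -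
    (1 + 16 / 25 * (1 - p ^ 2)) := by rw [e]; positivity
  linarith

theorem sG3 {p : ℝ} (h0 : 1141/1250 ≤ p) (h1 : p ≤ 1) :
    1 + 16 / 25 * (1 - p ^ 2) ≤
      142/25 * ((4 / 5 - 8 / 25 * p) * (1 - p ^ 2) * (1) + 1763/10000 * p) := by
  obtain ⟨s, hs⟩ : ∃ s, s = p - 1141/1250 := ⟨_, rfl⟩
  obtain ⟨w, hw⟩ : ∃ w, w = 1 - p := ⟨_, rfl⟩
  have s0 : 0 ≤ s := by rw [hs]; linarith
  have w0 : 0 ≤ w := by rw [hw]; linarith
  have e : 142/25 * ((4 / 5 - 8 / 25 * p) * (1 - p ^ 2) * (1) + 1763/10000 * p) -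
    (1 + 16 / 25 * (1 - p ^ 2)) =
      704353354737/1618786250 * s ^ 0 * w ^ 3 +
      1111374566/1295029 * s ^ 1 * w ^ 2 +
      1096482325/2590058 * s ^ 2 * w ^ 1 +
      2703125/1295029 * s ^ 3 * w ^ 0 := by
    rw [hs, hw]; ring
  have hp : 0 ≤ 142/25 * ((4 / 5 - 8 / 25 * p) * (1 - p ^ 2) * (1) + 1763/10000 * p) -
    (1 + 16 / 25 * (1 - p ^ 2)) := by rw [e]; positivity
  linarith

end SokalDz
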