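import Pool.Agent.Lib_MP_af4de1_v3.DzRL1
import Pool.Agent.Lib_MP_af4de1_v3.DzRLc
import Pool.Agent.Lib_MP_af4de1_v3.DzRLg

/-!
# `PRealDL`, `X ≤ 80`, stage 2: the main term for `t ≤ 14/5` (helper7)
-/

set_option autoImplicit false

namespace SokalDz

open Real MeasureTheory Set SokalCen SokalV3

variable {r ρ t p y x X : ℝ}

/-- The main term is at most `c` times the claim. -/
def LMok (r ρ t X c : ℝ) : Prop := ∃ B l : ℝ, HL ρ t B l ∧
  l ≤ lA ρ t * B * t ^ 2 / (lA ρ t + B) ∧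
  Kc r ρ * (20 / 3 * lM (8 / 9 * r) ρ t B l + lM r ρ t B l) ≤
    c * (54 / 125 * exp (-(17 / 100 * X)))

theorem LMok.mono {c c' : ℝ} (h : LMok r ρ t X c) (hc : c ≤ c') : LMok r ρ t X c' := by
  obtain ⟨B, l, h1, h2, h3⟩ := h
  exact ⟨B, l, h1, h2, h3.trans (mul_le_mul_of_nonneg_right hc (by positivity))⟩

theorem Pr.k_pos (h : Pr ρ t p y x) : 0 < min 1 (mm ρ / t) :=
  lt_min one_pos (div_pos h.m0 h.t0)

theorem Pr.k_one (h : Pr ρ t p y x) (hx : x ≤ 5 / 4) : min 1 (mm ρ / t) = 1 := by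
  refine min_eq_left ?_
  have hx0 := h.x0
  rw [h.mt, le_div_iff₀ (by positivity)]
  linarith

theorem Pr.k_ge (h : Pr ρ t p y x) (hx : x ≤ 6331 / 5000) : 987 / 1000 ≤ min 1 (mm ρ / t) := by
  refine le_min (by norm_num) ?_
  have hx0 := h.x0
  rw [h.mt, le_div_iff₀ (by positivity)]
  linarith

theorem Pr.lmF (h : Pr ρ t p y x) (hr : 0 < r) {β σ B q h' S E0 ex c : ℝ} (hX : X = r * x ^ 2)
    (hβ : HR t β) (hσ0 : 0 ≤ σ) (hσ1 : σ ≤ 1) (hB : 0 < B) (hB1 : B ≤ β * exp (-(σ * (4 / 5 * x))))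
    (hh : 1 ≤ h' * (aa p * min 1 (mm ρ / t)))
    (hst : (y + B * h') * ((4 / 5 * (4 / 27 * (1 - σ) ^ 3)) * x * B + q * y) ≤ B * y)
    (hq : 0 ≤ q) (hS0 : 0 ≤ S) (hS : √(PP p y / (SokalDz.lA ρ t + B)) ≤ S)
    (hE : E0 ≤ (8 / 9 * q - 17 / 100) * X) (hex : exp (-E0) ≤ ex)
    (hc : (5 + 7072 / 10000) * S * ex ≤ c * (54 / 125)) : LMok r ρ t X c := by
  have hk := h.k_pos
  have ha := aa_pos h.p0 h.p1
  have hy := h.y0
  have hx := h.x0
  have hlA := h.lA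
  have hA : 0 < SokalDz.lA ρ t := by
    rw [hlA]
    exact mul_pos (mul_pos (by linarith) hy) hk
  have hHL := HL_c (ρ := ρ) h.t0 hβ hσ0 hσ1 hB (by rw [h.tm]; exact hB1)
  have hE1 := h.expM hr hB hk hlA hh hst
  have e1 : 5 / 4 * (4 / 5 * (4 / 27 * (1 - σ) ^ 3)) * (t / mm ρ) * B * t ^ 2 =
      4 / 27 * (1 - σ) ^ 3 * (t / mm ρ) * B * t ^ 2 := by ring
  rw [e1, ← hX] at hE1
  have hX0 : 0 < X := by rw [hX]; positivity
  have hXq : 0 ≤ X * q := by positivity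
  refine ⟨B, _, hHL, ?_, ?_⟩
  · have h2 : 0 ≤ r * (SokalDz.lA ρ t * B * t ^ 2 / (SokalDz.lA ρ t + B) -
        4 / 27 * (1 - σ) ^ 3 * (t / mm ρ) * B * t ^ 2) := hXq.trans hE1
    have h3 := (mul_nonneg_iff_of_pos_left hr).1 h2
    linarith
  · have hd : exp (-(X * q / 9)) ≤ 1 := exp_le_one_iff.2 (by linarith)
    have h4 := h.GlM hr (d := 1) hA hB hE1 hd hS
    refine h4.trans ?_
    have h5 : exp (-(8 / 9 * (X * q))) ≤ ex * exp (-(17 / 100 * X)) := by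
      calc exp (-(8 / 9 * (X * q))) ≤ exp (-E0) * exp (-(17 / 100 * X)) := by
            rw [← Real.exp_add]
            exact Real.exp_le_exp.2 (by linarith)
        _ ≤ _ := mul_le_mul_of_nonneg_right hex (exp_pos _).le
    calc (5 + 7072 / 10000 * 1) * S * exp (-(8 / 9 * (X * q))) ≤
        (5 + 7072 / 10000 * 1) * S * (ex * exp (-(17 / 100 * X))) :=
          mul_le_mul_of_nonneg_left h5 (by positivity)
      _ = (5 + 7072 / 10000) * S * ex * exp (-(17 / 100 * X)) := by ring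
      _ ≤ c * (54 / 125) * exp (-(17 / 100 * X)) := mul_le_mul_of_nonneg_right hc (exp_pos _).le
      _ = _ := by ring

theorem PP_le' {p y A B k k' S2 lo : ℝ} (h0 : 0 < p) (h1 : p < 1) (hy : 0 < y)
    (hA : A = aa p * y * k) (hk : k' ≤ k) (hk0 : 0 < k') (hB : 0 < B) (hS2 : 0 ≤ S2)
    (hS : 0 ≤ lo) (hlo : S2 ≤ lo ^ 2)
    (hN : 1 + 16 / 25 * y ≤ S2 * ((4 / 5 - 8 / 25 * p) * y * k' + B * p)) :
    √(PP p y / (A + B)) ≤ lo := by
  have ha := aa_pos h0 h1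
  have hA0 : 0 < A := by rw [hA]; exact mul_pos (mul_pos (by linarith) hy) (by linarith)
  refine PP_le h0 hA (by linarith) hS hlo (hN.trans ?_)
  refine mul_le_mul_of_nonneg_left ?_ hS2
  have : (4 / 5 - 8 / 25 * p) * y * k' ≤ (4 / 5 - 8 / 25 * p) * y * k :=
    mul_le_mul_of_nonneg_left hk (mul_nonneg (by linarith) hy.le)
  linarith

/-- `HR t (1/2 - x²/(24 y))`-type bounds -/
theorem Pr.HRq (h : Pr ρ t p y x) {β : ℝ} (hβ0 : 0 < β) (ht : t ≤ 3)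
    (hβ : β ≤ 1 / 2 - t ^ 2 / 24) : HR t β := by
  have h1 := HR_quad h.t0.le ht
  refine ⟨hβ0, fun u h0 h2 h3 => le_trans ?_ (h1.2 u h0 h2 h3)⟩
  exact mul_le_mul_of_nonneg_right hβ (sq_nonneg u)

/-- the range of `p` from the range of `y` -/
theorem Pr.p_le (h : Pr ρ t p y x) {a : ℝ} (ha : 0 ≤ a) (hy : 1 - a ^ 2 ≤ y) : p ≤ a := by
  have := h.hy
  exact abs_le_of_sq_le_sq' (by linarith) ha |>.2

theorem Pr.le_p (h : Pr ρ t p y x) {a : ℝ} (hy : y ≤ 1 - a ^ 2) : a ≤ p := by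
  have := h.hy
  exact abs_le_of_sq_le_sq' (by linarith) h.p0.le |>.2

/-- `t < 9/20`, `y ≥ 1/6` -/
theorem Pr.lmT (h : Pr ρ t p y x) (hr : 499 / 10 ≤ r) (hX : X = r * x ^ 2) (hX1 : 108 / 5 ≤ X)
    (ht : t ≤ 9 / 20) (hy : 1 / 6 ≤ y) : LMok r ρ t X (369 / 1000) := by
  have hr0 : 0 < r := by linarith
  have hy0 := h.y0
  have hx0 := h.x0
  have ht0 := h.t0
  have hp0 := h.p0
  have hp : p ≤ 913 / 1000 := h.p_le (by norm_num) (by linarith)
  have hts := h.ts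
  have hx1 : x ≤ 9 / 20 * (y + 1 / 4) := by
    refine abs_le_of_sq_le_sq' ?_ (by positivity) |>.2
    rw [← hts]
    have h1 : t ^ 2 ≤ (9 / 20) ^ 2 := pow_le_pow_left₀ ht0.le ht 2
    nlinarith [sq_nonneg (y - 1 / 4), mul_le_mul_of_nonneg_right h1 hy0.le]
  have hx2 : x ≤ 5 / 4 := by
    have := h.y1
    linarith
  have hk1 := h.k_one hx2
  have hc := cT1 hp0.le hp
  rw [← h.hy] at hc
  refine h.lmF hr0 (β := 1 / 2 - t ^ 2 / 24) (σ := 0) (B := 49 / 100) (q := 397 / 1000)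
    (h' := 1 * (25 * p / (20 - 8 * p))) (S := 14492 / 10000) (E0 := 39503 / 10000)
    (ex := 1926 / 100000) hX (HR_quad ht0.le (by linarith)) le_rfl zero_le_one (by norm_num) ?_ ?_ ?_
    (by norm_num) (by norm_num) ?_ ?_ ?_ (by norm_num)
  · rw [zero_mul, neg_zero, Real.exp_zero, mul_one]
    nlinarith
  · rw [hk1]
    exact aa_h hp0 h.p1 (by norm_num)
  · refine star_of h.p1 (le_trans ?_ hc)
    have h20 : 0 < 20 - 8 * p := by linarith [h.p1]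
    refine mul_le_mul_of_nonneg_left ?_ (by positivity)
    linarith
  · have hs := sT1 hp0.le hp
    rw [← h.hy] at hs
    refine PP_le' hp0 h.p1 hy0 h.lA (le_of_eq hk1.symm) one_pos (by norm_num)
      (by norm_num : (0 : ℝ) ≤ 21 / 10) (by norm_num) (by norm_num) ?_
    exact hs
  · linarith
  · exact ex_neg 3 (9503 / 10000) (by norm_num) (by norm_num) (by norm_num) (by norm_num)

/-- `y ≥ 4717/5000` (`R ≤ 1.06`), `x ≤ 7/10` -/
theorem Pr.lmA0 (h : Pr ρ t p y x) (hr : 499 / 10 ≤ r) (hX : X = r * x ^ 2) (hX1 : 108 / 5 ≤ X)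
    (hx : x ≤ 7 / 10) (hy : 4717 / 5000 ≤ y) : LMok r ρ t X (447 / 1000) := by
  have hr0 : 0 < r := by linarith
  have hy0 := h.y0
  have hx0 := h.x0
  have ht0 := h.t0
  have hp0 := h.p0
  have hp : p ≤ 119 / 500 := h.p_le (by norm_num) (by norm_num; linarith)
  have hts := h.ts
  have hk1 := h.k_one (by linarith : x ≤ 5 / 4)
  have ht2 : t ^ 2 ≤ 52 / 100 := by
    have h1 : x ^ 2 ≤ (7 / 10) ^ 2 := pow_le_pow_left₀ hx0.le hx 2
    nlinarith [sq_nonneg t]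
  have ht3 : t ≤ 3 := by nlinarith
  have hc := cA0 hp0.le hp
  rw [← h.hy] at hc
  refine h.lmF hr0 (β := 1 / 2 - t ^ 2 / 24) (σ := 0) (B := 239 / 500) (q := 1933 / 5000)
    (h' := 1 * (25 * p / (20 - 8 * p))) (S := 14353 / 10000) (E0 := 375 / 100)
    (ex := 2353 / 100000) hX (HR_quad ht0.le ht3) le_rfl zero_le_one (by norm_num) ?_ ?_ ?_
    (by norm_num) (by norm_num) ?_ ?_ ?_ (by norm_num)
  · rw [zero_mul, neg_zero, Real.exp_zero, mul_one]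
    linarith
  · rw [hk1]
    exact aa_h hp0 h.p1 (by norm_num)
  · refine star_of h.p1 (le_trans ?_ hc)
    have h20 : 0 < 20 - 8 * p := by linarith [h.p1]
    refine mul_le_mul_of_nonneg_left ?_ (by positivity)
    linarith
  · have hs := sA0 hp0.le hp
    rw [← h.hy] at hs
    exact PP_le' hp0 h.p1 hy0 h.lA (le_of_eq hk1.symm) one_pos (by norm_num)
      (by norm_num : (0 : ℝ) ≤ 103 / 50) (by norm_num) (by norm_num) hs
  · linarith
  · exact ex_neg 3 (75 / 100) (by norm_num) (by norm_num) (by norm_num) (by norm_num)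

end SokalDz
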