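import Pool.Agent.Lib_MP_af4de1_v3.DzRL2

/-!
# `PRealDL`, `X ≤ 80`, stage 3: the main term for `t ≤ 14/5`, the other cases (helper7)
-/

set_option autoImplicit false

namespace SokalDz

open Real MeasureTheory Set SokalCen SokalV3

variable {r ρ t p y x X : ℝ}

theorem ex328 : exp (-(328 / 100)) ≤ 3764 / 100000 :=
  ex_neg 3 (28 / 100) (by norm_num) (by norm_num) (by norm_num) (by norm_num)

/-- `y ≥ 2809/5000`, `x ≤ 33/50` -/
theorem Pr.lmA1a (h : Pr ρ t p y x) (hr : 499 / 10 ≤ r) (hX : X = r * x ^ 2) (hX1 : 108 / 5 ≤ X)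
    (hx : x ≤ 33 / 50) (hy : 2809 / 5000 ≤ y) : LMok r ρ t X (726 / 1000) := by
  have hr0 : 0 < r := by linarith
  have hy0 := h.y0
  have hx0 := h.x0
  have ht0 := h.t0
  have hp0 := h.p0
  have hp : p ≤ 331 / 500 := h.p_le (by norm_num) (by norm_num; linarith)
  have hts := h.ts
  have hk1 := h.k_one (by linarith : x ≤ 5 / 4)
  have ht2 : t ^ 2 ≤ 7754 / 10000 := by
    have h1 : x ^ 2 ≤ (33 / 50) ^ 2 := pow_le_pow_left₀ hx0.le hx 2
    nlinarith [sq_nonneg t]
  have ht3 : t ≤ 3 := by nlinarith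
  have hc := cA1 hp0.le hp
  rw [← h.hy] at hc
  refine h.lmF hr0 (β := 1 / 2 - t ^ 2 / 24) (σ := 0) (B := 467 / 1000) (q := 3621 / 10000)
    (h' := 1 * (25 * p / (20 - 8 * p))) (S := 14595 / 10000) (E0 := 328 / 100)
    (ex := 3764 / 100000) hX (HR_quad ht0.le ht3) le_rfl zero_le_one (by norm_num) ?_ ?_ ?_
    (by norm_num) (by norm_num) ?_ ?_ ex328 (by norm_num)
  · rw [zero_mul, neg_zero, Real.exp_zero, mul_one]
    linarith
  · rw [hk1]
    exact aa_h hp0 h.p1 (by norm_num)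
  · refine star_of h.p1 (le_trans ?_ hc)
    have h20 : 0 < 20 - 8 * p := by linarith [h.p1]
    refine mul_le_mul_of_nonneg_left ?_ (by positivity)
    linarith
  · have hs := sA1 hp0.le hp
    rw [← h.hy] at hs
    exact PP_le' hp0 h.p1 hy0 h.lA (le_of_eq hk1.symm) one_pos (by norm_num)
      (by norm_num : (0 : ℝ) ≤ 213 / 100) (by norm_num) (by norm_num) hs
  · linarith

/-- the exponent for `x ≥ 33/50` -/
theorem E_lin (hr : 499 / 10 ≤ r) (hX : X = r * x ^ 2) (h0 : 33 / 50 ≤ x) (h1 : x ≤ 6331 / 5000) :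
    328 / 100 ≤ (8 / 9 * (4941 / 10000 - x / 5) - 17 / 100) * X := by
  have h2 : 0 ≤ 8 / 9 * (4941 / 10000 - x / 5) - 17 / 100 := by linarith
  have h3 : 499 / 10 * x ^ 2 ≤ X := by
    rw [hX]
    exact mul_le_mul_of_nonneg_right hr (sq_nonneg x)
  refine le_trans ?_ (mul_le_mul_of_nonneg_left h3 h2)
  have h4 : 0 ≤ (x - 33 / 50) * (6331 / 5000 - x) := mul_nonneg (by linarith) (by linarith)
  nlinarith [mul_nonneg h4 (by linarith : (0 : ℝ) ≤ x)]

/-- `(★)` at `x ≥ 33/50` for the two families -/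
theorem Pr.star_x (h : Pr ρ t p y x) {B0 B lam q nu kap : ℝ} (hB : 0 < B) (hBB : B ≤ B0)
    (hlam : 0 ≤ lam) (h0 : 33 / 50 ≤ x) (hq : 0 ≤ q) (hkap : 1 ≤ kap)
    (H : (y * (20 - 8 * p) + 25 * B0 * p * 1) * (lam * (33 / 50) * B0 + 3621 / 10000 * y) ≤
      B0 * y * (20 - 8 * p))
    (hnu : lam * (33 / 50) * B0 ≤ nu * (3621 / 10000) * y)
    (hqq : kap * B0 * q * (33 / 50) ≤ B * (3621 / 10000) * (33 / 50 - nu * (kap * x - 33 / 50))) :
    (y + B * (kap * (25 * p / (20 - 8 * p)))) * (lam * x * B + q * y) ≤ B * y := by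
  have hp0 := h.p0
  have h20 : 0 < 20 - 8 * p := by linarith [h.p1]
  refine star_scale h.y0 hB hBB (by positivity) hlam (by norm_num) h0 hq (by norm_num) hkap ?_ hnu hqq
  have := star_of h.p1 H
  rwa [one_mul] at this

/-- `y ≥ 2809/5000`, `x ≥ 33/50` -/
theorem Pr.lmA1b (h : Pr ρ t p y x) (hr : 499 / 10 ≤ r) (hX : X = r * x ^ 2)
    (h0 : 33 / 50 ≤ x) (h1 : x ≤ 6331 / 5000) (hy : 2809 / 5000 ≤ y) :
    LMok r ρ t X (740 / 1000) := by
  have hr0 : 0 < r := by linarith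
  have hy0 := h.y0
  have hx0 := h.x0
  have ht0 := h.t0
  have hp0 := h.p0
  have hp : p ≤ 331 / 500 := h.p_le (by norm_num) (by norm_num; linarith)
  have hts := h.ts
  have hk0 := h.k_pos
  have hkge := h.k_ge h1
  have hc := cA1 hp0.le hp
  rw [← h.hy] at hc
  -- the common part
  have key : ∀ B β kap : ℝ, 11 / 25 ≤ B → B ≤ 467 / 1000 → B ≤ β → HR t β → 1 ≤ kap →
      1 ≤ kap * min 1 (mm ρ / t) →
      kap * (467 / 1000) * (4941 / 10000 - x / 5) * (33 / 50) ≤
        B * (3621 / 10000) * (33 / 50 - 18 / 100 * (kap * x - 33 / 50)) →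
      LMok r ρ t X (740 / 1000) := by
    intro B β kap hB0 hB1 hBβ hβ hkap hkk hqq
    have hB : 0 < B := by linarith
    have hq : 0 ≤ 4941 / 10000 - x / 5 := by linarith
    refine h.lmF hr0 (β := β) (σ := 0) (B := B) (q := 4941 / 10000 - x / 5)
      (h' := kap * (25 * p / (20 - 8 * p))) (S := 14867 / 10000) (E0 := 328 / 100)
      (ex := 3764 / 100000) hX hβ le_rfl zero_le_one hB ?_ ?_ ?_
      hq (by norm_num) ?_ (E_lin hr hX h0 h1) ex328 (by norm_num)
    · rw [zero_mul, neg_zero, Real.exp_zero, mul_one]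
      exact hBβ
    · exact aa_h hp0 h.p1 hkk
    · refine h.star_x (B0 := 467 / 1000) (nu := 18 / 100) hB hB1 (by norm_num) h0 hq hkap ?_ ?_ hqq
      · refine le_trans (le_of_eq ?_) (hc.trans (le_of_eq ?_)) <;> ring
      · linarith
    · have hs := sA2 hp0.le hp
      rw [← h.hy] at hs
      refine PP_le' hp0 h.p1 hy0 h.lA hkge (by norm_num) hB
        (by norm_num : (0 : ℝ) ≤ 221 / 100) (by norm_num) (by norm_num) (hs.trans ?_)
      have : 11 / 25 * p ≤ B * p := mul_le_mul_of_nonneg_right hB0 hp0.le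
      linarith
  have e2 : t ^ 2 ≤ 17802 / 10000 * x ^ 2 := by
    have : t ^ 2 * (2809 / 5000) ≤ x ^ 2 := by
      rw [← hts]
      exact mul_le_mul_of_nonneg_left hy (sq_nonneg t)
    linarith [sq_nonneg x]
  rcases le_total x (177 / 200) with hxa | hxa
  · have hk1 := h.k_one (by linarith : x ≤ 5 / 4)
    have ht3 : t ≤ 3 := by nlinarith
    refine key (467 / 1000 - 12 / 100 * (x - 33 / 50)) (1 / 2 - t ^ 2 / 24) 1 (by linarith)
      (by linarith) ?_ (HR_quad ht0.le ht3) le_rfl (by rw [hk1]; norm_num) ?_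
    · nlinarith [mul_nonneg (sub_nonneg.2 h0) (sub_nonneg.2 hxa)]
    · nlinarith [mul_nonneg (sub_nonneg.2 h0) (sub_nonneg.2 hxa)]
  · rcases le_total x (5 / 4) with hxb | hxb
    · have hk1 := h.k_one hxb
      refine key (11 / 25) (11 / 25) 1 le_rfl (by norm_num) le_rfl (HR_11_25 t) le_rfl
        (by rw [hk1]; norm_num) ?_
      linarith
    · refine key (11 / 25) (11 / 25) (10132 / 10000) le_rfl (by norm_num) le_rfl (HR_11_25 t)
        (by norm_num) ?_ ?_
      · linarith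
      · linarith

theorem exp_x5 (hx : 33 / 50 ≤ x) : 3855 / 10000 - 772 / 10000 * (x - 33 / 50) ≤
    11 / 25 * exp (-(1 / 4 * (4 / 5 * x))) := by
  have h1 : exp (132 / 1000) ≤ 114125 / 100000 := by
    have := Real.exp_bound' (x := 132 / 1000) (by norm_num) (by norm_num) (n := 3) (by norm_num)
    simp only [Finset.sum_range_succ, Finset.sum_range_zero, Nat.factorial] at this
    norm_num at this
    linarith
  have h2 : 8762 / 10000 ≤ exp (-(132 / 1000)) := by
    rw [Real.exp_neg, ← one_div, le_div_iff₀ (exp_pos _)]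
    linarith
  have h3 : 1 - (x - 33 / 50) / 5 ≤ exp (-((x - 33 / 50) / 5)) := by
    have := Real.add_one_le_exp (-((x - 33 / 50) / 5))
    linarith
  have e : exp (-(1 / 4 * (4 / 5 * x))) = exp (-(132 / 1000)) * exp (-((x - 33 / 50) / 5)) := by
    rw [← Real.exp_add]
    congr 1
    ring
  rw [e]
  rcases le_total 0 (1 - (x - 33 / 50) / 5) with h4 | h4
  · have h5 := mul_le_mul h2 h3 h4 (exp_pos _).le
    linarith
  · have := mul_pos (exp_pos (-(132 / 1000))) (exp_pos (-((x - 33 / 50) / 5)))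
    linarith

/-- `1/6 ≤ y ≤ 2810/5000`, `x ≤ 33/50` -/
theorem Pr.lmBa (h : Pr ρ t p y x) (hr : 499 / 10 ≤ r) (hX : X = r * x ^ 2) (hX1 : 108 / 5 ≤ X)
    (hx : x ≤ 33 / 50) (hy : 1 / 6 ≤ y) (hy2 : y ≤ 2809 / 5000) : LMok r ρ t X (793 / 1000) := by
  have hr0 : 0 < r := by linarith
  have hy0 := h.y0
  have hx0 := h.x0
  have ht0 := h.t0
  have hp0 := h.p0
  have hp : p ≤ 913 / 1000 := h.p_le (by norm_num) (by norm_num; linarith)
  have hp' : 6619 / 10000 ≤ p := h.le_p (by norm_num; linarith)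
  have hk1 := h.k_one (by linarith : x ≤ 5 / 4)
  have hc := cB1 hp' hp
  rw [← h.hy] at hc
  refine h.lmF hr0 (β := 11 / 25) (σ := 1 / 4) (B := 771 / 2000) (q := 3621 / 10000)
    (h' := 1 * (25 * p / (20 - 8 * p))) (S := 15938 / 10000) (E0 := 328 / 100)
    (ex := 3764 / 100000) hX (HR_11_25 t) (by norm_num) (by norm_num) (by norm_num) ?_ ?_ ?_
    (by norm_num) (by norm_num) ?_ ?_ ex328 (by norm_num)
  · have h1 := exp_x5 (x := 33 / 50) le_rfl
    have h2 : exp (-(1 / 4 * (4 / 5 * (33 / 50)))) ≤ exp (-(1 / 4 * (4 / 5 * x))) :=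
      Real.exp_le_exp.2 (by linarith)
    linarith
  · rw [hk1]
    exact aa_h hp0 h.p1 (by norm_num)
  · refine star_of h.p1 (le_trans ?_ hc)
    have h20 : 0 < 20 - 8 * p := by linarith [h.p1]
    refine mul_le_mul_of_nonneg_left ?_ (by positivity)
    linarith
  · have hs := sB1 hp' hp
    rw [← h.hy] at hs
    exact PP_le' hp0 h.p1 hy0 h.lA (le_of_eq hk1.symm) one_pos (by norm_num)
      (by norm_num : (0 : ℝ) ≤ 127 / 50) (by norm_num) (by norm_num) hs
  · linarith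

/-- `1/6 ≤ y ≤ 2809/5000`, `x ≥ 33/50` -/
theorem Pr.lmBb (h : Pr ρ t p y x) (hr : 499 / 10 ≤ r) (hX : X = r * x ^ 2)
    (h0 : 33 / 50 ≤ x) (h1 : x ≤ 6331 / 5000) (hy : 1 / 6 ≤ y) (hy2 : y ≤ 2809 / 5000) :
    LMok r ρ t X (837 / 1000) := by
  have hr0 : 0 < r := by linarith
  have hy0 := h.y0
  have hx0 := h.x0
  have ht0 := h.t0
  have hp0 := h.p0
  have hp : p ≤ 913 / 1000 := h.p_le (by norm_num) (by norm_num; linarith)
  have hp' : 6619 / 10000 ≤ p := h.le_p (by norm_num; linarith)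
  have hk0 := h.k_pos
  have hkge := h.k_ge h1
  have hc := cB1 hp' hp
  rw [← h.hy] at hc
  have key : ∀ kap : ℝ, 1 ≤ kap → 1 ≤ kap * min 1 (mm ρ / t) →
      kap * (771 / 2000) * (4941 / 10000 - x / 5) * (33 / 50) ≤
        (3855 / 10000 - 772 / 10000 * (x - 33 / 50)) * (3621 / 10000) *
          (33 / 50 - 211 / 1000 * (kap * x - 33 / 50)) →
      LMok r ρ t X (837 / 1000) := by
    intro kap hkap hkk hqq
    have hB0 : 1693 / 5000 ≤ 3855 / 10000 - 772 / 10000 * (x - 33 / 50) := by linarith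
    have hB : 0 < 3855 / 10000 - 772 / 10000 * (x - 33 / 50) := by linarith
    have hq : 0 ≤ 4941 / 10000 - x / 5 := by linarith
    refine h.lmF hr0 (β := 11 / 25) (σ := 1 / 4)
      (B := 3855 / 10000 - 772 / 10000 * (x - 33 / 50)) (q := 4941 / 10000 - x / 5)
      (h' := kap * (25 * p / (20 - 8 * p))) (S := 16823 / 10000) (E0 := 328 / 100)
      (ex := 3764 / 100000) hX (HR_11_25 t) (by norm_num) (by norm_num) hB (exp_x5 h0) ?_ ?_
      hq (by norm_num) ?_ (E_lin hr hX h0 h1) ex328 (by norm_num)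
    · exact aa_h hp0 h.p1 hkk
    · refine h.star_x (B0 := 771 / 2000) (nu := 211 / 1000) hB (by linarith) (by norm_num) h0 hq
        hkap ?_ ?_ hqq
      · refine le_trans (le_of_eq ?_) (hc.trans (le_of_eq ?_)) <;> ring
      · linarith
    · have hs := sB2 hp' hp
      rw [← h.hy] at hs
      refine PP_le' hp0 h.p1 hy0 h.lA hkge (by norm_num) hB
        (by norm_num : (0 : ℝ) ≤ 283 / 100) (by norm_num) (by norm_num) (hs.trans ?_)
      have : 1693 / 5000 * p ≤ (3855 / 10000 - 772 / 10000 * (x - 33 / 50)) * p :=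
        mul_le_mul_of_nonneg_right hB0 hp0.le
      linarith
  rcases le_total x (5 / 4) with hxb | hxb
  · have hk1 := h.k_one hxb
    refine key 1 le_rfl (by rw [hk1]; norm_num) ?_
    nlinarith [mul_nonneg (sub_nonneg.2 h0) (sub_nonneg.2 hxb)]
  · refine key (10132 / 10000) (by norm_num) (by linarith) ?_
    nlinarith [mul_nonneg (sub_nonneg.2 h1) (sub_nonneg.2 hxb)]

end SokalDz
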