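import Pool.Agent.Lib_MP_af4de1_v3.DzRL3

/-!
# `PRealDL`, `X ≤ 80`, stage 4: the main term for `R ≥ 6`, `t ≤ 14/5` (helper7)
-/

set_option autoImplicit false

namespace SokalDz

open Real MeasureTheory Set SokalCen SokalV3

variable {r ρ t p y x X : ℝ}

theorem exp_neg_ge {a b : ℝ} (hb : 0 < b) (h : exp a ≤ 1 / b) : b ≤ exp (-a) := by
  rw [Real.exp_neg, ← one_div, le_div_iff₀ (exp_pos _)]
  rw [le_div_iff₀ hb] at h
  linarith

theorem ex528 : 1297 / 5000 ≤ 11 / 25 * exp (-(528 / 1000)) := by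
  have h1 : exp (528 / 1000) ≤ 1 / (5896 / 10000) := by
    have := Real.exp_bound' (x := 528 / 1000) (by norm_num) (by norm_num) (n := 5) (by norm_num)
    simp only [Finset.sum_range_succ, Finset.sum_range_zero, Nat.factorial] at this
    norm_num at this ⊢
    linarith
  have := exp_neg_ge (by norm_num) h1
  linarith

theorem ex680 : 2229 / 10000 ≤ 11 / 25 * exp (-(68 / 100)) := by
  have h1 : exp (68 / 100) ≤ 1 / (50660 / 100000) := by
    have := Real.exp_bound' (x := 68 / 100) (by norm_num) (by norm_num) (n := 7) (by norm_num)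
    simp only [Finset.sum_range_succ, Finset.sum_range_zero, Nat.factorial] at this
    norm_num at this ⊢
    linarith
  have := exp_neg_ge (by norm_num) h1
  linarith

theorem ex914 : 1763 / 10000 ≤ 11 / 25 * exp (-(91448 / 100000)) := by
  have h1 : exp (91448 / 100000) ≤ 1 / (4007 / 10000) := by
    have := Real.exp_bound' (x := 91448 / 100000) (by norm_num) (by norm_num) (n := 8) (by norm_num)
    simp only [Finset.sum_range_succ, Finset.sum_range_zero, Nat.factorial] at this
    norm_num at this ⊢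
    linarith
  have := exp_neg_ge (by norm_num) h1
  linarith

/-- general step for `σ = 1` -/
theorem Pr.lmS1 (h : Pr ρ t p y x) (hr : 0 < r) {B q S S2 E0 ex c x1 : ℝ} (hX : X = r * x ^ 2)
    (hx1 : x ≤ x1) (hx54 : x ≤ 5 / 4) (hB : 0 < B) (hB1 : B ≤ 11 / 25 * exp (-(4 / 5 * x1)))
    (hG : q * (y * (20 - 8 * p) + 25 * B * p) ≤ B * (20 - 8 * p))
    (hq : 0 ≤ q) (hS0 : 0 ≤ S) (hS20 : 0 ≤ S2) (hlo : S2 ≤ S ^ 2)
    (hN : 1 + 16 / 25 * y ≤ S2 * ((4 / 5 - 8 / 25 * p) * y * 1 + B * p))
    (hE : E0 ≤ (8 / 9 * q - 17 / 100) * X) (hex : exp (-E0) ≤ ex)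
    (hc : (5 + 7072 / 10000) * S * ex ≤ c * (54 / 125)) : LMok r ρ t X c := by
  have hk1 := h.k_one hx54
  have hp0 := h.p0
  have hy0 := h.y0
  refine h.lmF hr (β := 11 / 25) (σ := 1) (B := B) (q := q)
    (h' := 1 * (25 * p / (20 - 8 * p))) (S := S) (E0 := E0)
    (ex := ex) hX (HR_11_25 t) (by norm_num) le_rfl hB ?_ ?_ ?_ hq hS0 ?_ hE hex hc
  · have h2 : exp (-(4 / 5 * x1)) ≤ exp (-(1 * (4 / 5 * x))) := Real.exp_le_exp.2 (by linarith)
    linarith
  · rw [hk1]
    exact aa_h hp0 h.p1 (by norm_num)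
  · refine star_of h.p1 ?_
    have e : (y * (20 - 8 * p) + 25 * B * p * 1) *
        (4 / 5 * (4 / 27 * (1 - 1) ^ 3) * x * B + q * y) =
        y * (q * (y * (20 - 8 * p) + 25 * B * p)) := by ring
    rw [e]
    calc y * (q * (y * (20 - 8 * p) + 25 * B * p)) ≤ y * (B * (20 - 8 * p)) :=
          mul_le_mul_of_nonneg_left hG hy0.le
      _ = _ := by ring
  · exact PP_le' hp0 h.p1 hy0 h.lA (le_of_eq hk1.symm) one_pos hB hS20 hS0 hlo hN

/-- `y ≤ 1/6`, `t ≤ 14/5` -/
theorem Pr.lmG (h : Pr ρ t p y x) (hr : 499 / 10 ≤ r) (hX : X = r * x ^ 2) (hX1 : 108 / 5 ≤ X)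
    (ht : t ≤ 14 / 5) (hy : y ≤ 1 / 6) : LMok r ρ t X (603 / 1000) := by
  have hr0 : 0 < r := by linarith
  have hy0 := h.y0
  have hx0 := h.x0
  have ht0 := h.t0
  have hp0 := h.p0
  have hp' : 1141 / 1250 ≤ p := h.le_p (by norm_num; linarith)
  have hts := h.ts
  have hx2 : x ≤ 11431 / 10000 := by
    refine abs_le_of_sq_le_sq' ?_ (by norm_num) |>.2
    rw [← hts]
    have h1 : t ^ 2 ≤ (14 / 5) ^ 2 := pow_le_pow_left₀ ht0.le ht 2
    nlinarith [mul_le_mul_of_nonneg_right h1 hy0.le]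
  have hXx : 499 / 10 * x ^ 2 ≤ X := by
    rw [hX]
    exact mul_le_mul_of_nonneg_right hr (sq_nonneg x)
  rcases le_total x (33 / 50) with ha | ha
  · have hc := cG1 hp' h.p1.le
    have hs := sG1 hp' h.p1.le
    rw [← h.hy] at hc hs
    refine (h.lmS1 hr0 (B := 1297 / 5000) (q := 163 / 400) (S := 19647 / 10000) (S2 := 193 / 50)
      (E0 := 415 / 100) (ex := 1577 / 100000) (c := 41 / 100) hX ha (by linarith) (by norm_num) ?_ hc
      (by norm_num) (by norm_num) (by norm_num) (by norm_num) hs ?_ ?_ (by norm_num)).mono (by norm_num)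
    · have := ex528
      rw [show (4 / 5 * (33 / 50) : ℝ) = 528 / 1000 by norm_num]
      exact this
    · linarith
    · exact ex_neg 4 (15 / 100) (by norm_num) (by norm_num) (by norm_num) (by norm_num)
  · rcases le_total x (17 / 20) with hb | hb
    · have hc := cG2 hp' h.p1.le
      have hs := sG2 hp' h.p1.le
      rw [← h.hy] at hc hs
      refine (h.lmS1 hr0 (B := 2229 / 10000) (q := 39 / 100) (S := 21190 / 10000) (S2 := 449 / 100)
        (E0 := 384 / 100) (ex := 2152 / 100000) (c := 603 / 1000) hX hb (by linarith) (by norm_num) ?_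
        hc (by norm_num) (by norm_num) (by norm_num) (by norm_num) hs ?_ ?_ (by norm_num)).mono
        (by norm_num)
      · have := ex680
        rw [show (4 / 5 * (17 / 20) : ℝ) = 68 / 100 by norm_num]
        exact this
      · nlinarith
      · exact ex_neg 3 (84 / 100) (by norm_num) (by norm_num) (by norm_num) (by norm_num)
    · have hc := cG3 hp' h.p1.le
      have hs := sG3 hp' h.p1.le
      rw [← h.hy] at hc hs
      refine (h.lmS1 hr0 (B := 1763 / 10000) (q := 29 / 80) (S := 23833 / 10000) (S2 := 142 / 25)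
        (E0 := 54 / 10) (ex := 453 / 100000) (c := 2 / 10) hX hx2 (by linarith) (by norm_num) ?_ hc
        (by norm_num) (by norm_num) (by norm_num) (by norm_num) hs ?_ ?_ (by norm_num)).mono
        (by norm_num)
      · have := ex914
        rw [show (4 / 5 * (11431 / 10000) : ℝ) = 91448 / 100000 by norm_num]
        exact this
      · nlinarith
      · exact ex_neg 5 (4 / 10) (by norm_num) (by norm_num) (by norm_num) (by norm_num)

end SokalDz
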