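import Pool.Agent.Lib_MP_af4de1_v3.DzRL4

/-!
# `PRealDL`, `X ≤ 80`, stage 5: the other groups, general lemmas (helper7)
-/

set_option autoImplicit false

namespace SokalDz

open Real MeasureTheory Set SokalCen SokalV3

variable {r ρ t p y x X : ℝ}

theorem closeW {G K S E E0 ex c : ℝ} (hG : G ≤ K * S * exp (-(8 / 9 * E))) (hK : 0 ≤ K)
    (hS : 0 ≤ S) (hE : E0 ≤ 8 / 9 * E - 17 / 100 * X) (hex : exp (-E0) ≤ ex)
    (hc : K * S * ex ≤ c * (54 / 125)) : G ≤ c * (54 / 125 * exp (-(17 / 100 * X))) := by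
  have h5 : exp (-(8 / 9 * E)) ≤ ex * exp (-(17 / 100 * X)) := by
    calc exp (-(8 / 9 * E)) ≤ exp (-E0) * exp (-(17 / 100 * X)) := by
          rw [← Real.exp_add]
          exact Real.exp_le_exp.2 (by linarith)
      _ ≤ _ := mul_le_mul_of_nonneg_right hex (exp_pos _).le
  calc G ≤ K * S * exp (-(8 / 9 * E)) := hG
    _ ≤ K * S * (ex * exp (-(17 / 100 * X))) := mul_le_mul_of_nonneg_left h5 (by positivity)
    _ = K * S * ex * exp (-(17 / 100 * X)) := by ring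
    _ ≤ c * (54 / 125) * exp (-(17 / 100 * X)) := mul_le_mul_of_nonneg_right hc (exp_pos _).le
    _ = _ := by ring

/-- with `S ≤ s exp (u/2)` -/
theorem closeU {G K S s u E E0 ex c : ℝ} (hG : G ≤ K * S * exp (-(8 / 9 * E))) (hK : 0 ≤ K)
    (hs : 0 ≤ s) (hS : S ≤ s * exp (u / 2)) (hE : E0 ≤ 8 / 9 * E - 17 / 100 * X - u / 2)
    (hex : exp (-E0) ≤ ex)
    (hc : K * s * ex ≤ c * (54 / 125)) : G ≤ c * (54 / 125 * exp (-(17 / 100 * X))) := by
  refine closeW (E := E - 9 / 16 * u) (E0 := E0) (S := s) (K := K) (ex := ex) ?_ hK hs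
    (by linarith) hex hc
  refine hG.trans ?_
  calc K * S * exp (-(8 / 9 * E)) ≤ K * (s * exp (u / 2)) * exp (-(8 / 9 * E)) :=
        mul_le_mul_of_nonneg_right (mul_le_mul_of_nonneg_left hS hK) (exp_pos _).le
    _ = K * s * (exp (u / 2) * exp (-(8 / 9 * E))) := by ring
    _ = K * s * exp (-(8 / 9 * (E - 9 / 16 * u))) := by
        rw [← Real.exp_add]
        congr 2
        ring

/-- `u = 1/p - 1` -/
theorem Pr.u0 (h : Pr ρ t p y x) : 0 < 1 / p - 1 := by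
  have hp := h.p0
  have : 1 < 1 / p := by
    rw [lt_div_iff₀ hp, one_mul]
    exact h.p1
  linarith

theorem aa_u (h0 : 0 < p) : aa p = 12 / 25 + 4 / 5 * (1 / p - 1) := by
  unfold aa
  field_simp
  ring

/-- the crude factor -/
theorem Pr.sPP (h : Pr ρ t p y x) : √(PP p y) ≤ 1281 / 1000 * exp ((1 / p - 1) / 2) := by
  have hp := h.p0
  rw [Real.sqrt_le_left (by positivity), mul_pow, ← Real.exp_nat_mul]
  have e : ((2 : ℕ) : ℝ) * ((1 / p - 1) / 2) = 1 / p - 1 := by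
    push_cast
    ring
  rw [e]
  have h1 := Real.add_one_le_exp (1 / p - 1)
  have h2 : PP p y = (1 + 16 / 25 * y) * (1 / p) := by
    unfold PP
    ring
  rw [h2]
  have hy := h.y1
  have hy0 := h.y0
  have h3 : 0 < 1 / p := by positivity
  calc (1 + 16 / 25 * y) * (1 / p) ≤ (1281 / 1000) ^ 2 * (1 / p) :=
        mul_le_mul_of_nonneg_right (by linarith) h3.le
    _ ≤ _ := mul_le_mul_of_nonneg_left (by linarith) (by norm_num)

theorem Pr.sPP2 (h : Pr ρ t p y x) {S2 S : ℝ} (hS : 0 ≤ S) (hlo : S2 ≤ S ^ 2)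
    (hN : 1 + 16 / 25 * y ≤ S2 * p) : √(PP p y) ≤ S := by
  have hp := h.p0
  rw [Real.sqrt_le_left hS]
  refine le_trans ?_ hlo
  unfold PP
  rwa [div_le_iff₀ hp]

/-- group of the left tail -/
theorem Pr.GlT (h : Pr ρ t p y x) (hr : 0 < r) {E d : ℝ} (hE : E ≤ r * (SokalDz.lA ρ t * t ^ 2))
    (hd : exp (-(E / 9)) ≤ d) :
    SokalDz.Kc r ρ * (20 / 3 * lT (8 / 9 * r) ρ t + lT r ρ t) ≤
      5 / 2 * (4232 / 10000 * (20 / 3) + 399 / 1000 * 1 * d) * √(PP p y) * exp (-(8 / 9 * E)) := by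
  have hg := h.tail hr (c := 5 / 2) (a := 20 / 3) (b := 1)
    (e := SokalDz.lA ρ t * t ^ 2) (by norm_num) (by norm_num)
    (by norm_num) hE hd
  unfold lT
  rwa [one_mul] at hg

theorem Pr.lAt (h : Pr ρ t p y x) (hX : X = r * x ^ 2) :
    r * (SokalDz.lA ρ t * t ^ 2) = X * (aa p * min 1 (mm ρ / t)) := by
  rw [h.lA, hX]
  linear_combination r * aa p * min 1 (mm ρ / t) * h.ts

/-- `rA ≥ (4/(5p) - 23/50) y min(1, m/φ)` -/
theorem Pr.rA_ge (h : Pr ρ t p y x) {φ : ℝ} (hφ : 0 < φ) :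
    (aa p - 7 / 50) * (y * min 1 (mm ρ / φ)) ≤ SokalDz.rA ρ φ := by
  have hm := h.m0
  have hy := h.y0
  rw [h.rA]
  have h0 := cT_nonneg hm hφ.le
  have h1 := cT_le (mm ρ) φ
  have hk : 0 < min 1 (mm ρ / φ) := lt_min one_pos (div_pos hm hφ)
  have h2 : cT (mm ρ) φ ^ 2 ≤ 1 := by nlinarith
  have e : (aa p - 8 / 25 * (cT (mm ρ) φ / 3 + 5 * cT (mm ρ) φ ^ 2 / 48)) * y * min 1 (mm ρ / φ) =
    (aa p - 8 / 25 * (cT (mm ρ) φ / 3 + 5 * cT (mm ρ) φ ^ 2 / 48)) * (y * min 1 (mm ρ / φ)) := by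
    ring
  rw [e]
  exact mul_le_mul_of_nonneg_right (by linarith) (by positivity)

theorem Pr.rA0 (h : Pr ρ t p y x) {φ : ℝ} (hφ : 0 < φ) : 0 < SokalDz.rA ρ φ := by
  have hm := h.m0
  have hy := h.y0
  have hk : 0 < min 1 (mm ρ / φ) := lt_min one_pos (div_pos hm hφ)
  have ha := aa_pos h.p0 h.p1
  have : 0 < (aa p - 7 / 50) * (y * min 1 (mm ρ / φ)) :=
    mul_pos (by linarith) (by positivity)
  linarith [h.rA_ge hφ]

theorem Pr.SrA (h : Pr ρ t p y x) {φ : ℝ} (hφ : 0 < φ) (hφ1 : φ ≤ 2 * π) {S2 S : ℝ}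
    (hS2 : 0 ≤ S2) (hS : 0 ≤ S) (hlo : S2 ≤ S ^ 2)
    (hN : 1 + 16 / 25 * y ≤ S2 * ((4 / 5 - 23 / 50 * p) * y * (1989 / 10000) + 11 / 25 * p)) :
    √(PP p y / (SokalDz.rA ρ φ + 11 / 25)) ≤ S := by
  have hp := h.p0
  have hp1 := h.p1
  have hy := h.y0
  have hm := h.m0
  have hA := h.rA_ge hφ
  have ha := aa_pos hp hp1
  have hk : 1989 / 10000 ≤ min 1 (mm ρ / φ) := by
    refine le_min (by norm_num) ?_
    rw [le_div_iff₀ hφ]
    have := h.m1
    have := Real.pi_lt_d4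
    nlinarith
  have h1 : (aa p - 7 / 50) * (y * (1989 / 10000)) ≤ SokalDz.rA ρ φ :=
    le_trans (mul_le_mul_of_nonneg_left (mul_le_mul_of_nonneg_left hk hy.le) (by linarith)) hA
  have h0 : 0 < (aa p - 7 / 50) * (y * (1989 / 10000)) := mul_pos (by linarith) (by positivity)
  rw [Real.sqrt_le_left hS]
  refine le_trans ?_ hlo
  unfold PP
  rw [div_le_iff₀ (by linarith), div_le_iff₀ hp]
  refine hN.trans ?_
  rw [mul_assoc S2]
  refine mul_le_mul_of_nonneg_left ?_ hS2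
  have e : (4 / 5 - 23 / 50 * p) * y * (1989 / 10000) + 11 / 25 * p =
      ((aa p - 7 / 50) * (y * (1989 / 10000)) + 11 / 25) * p := by
    unfold aa
    field_simp
    ring
  rw [e]
  exact mul_le_mul_of_nonneg_right (by linarith) hp.le

theorem SrA_p0 (h0 : 0 ≤ p) (h1 : p ≤ 1) : 1 + 16 / 25 * (1 - p ^ 2) ≤
    1031 / 100 * ((4 / 5 - 23 / 50 * p) * (1 - p ^ 2) * (1989 / 10000) + 11 / 25 * p) := by
  nlinarith [mul_nonneg h0 (sub_nonneg.2 h1), mul_nonneg (mul_nonneg h0 h0) (sub_nonneg.2 h1),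
    mul_nonneg (mul_nonneg h0 h0) h0]

theorem SrA_p1 (h0 : 2379 / 10000 ≤ p) (h1 : p ≤ 1) : 1 + 16 / 25 * (1 - p ^ 2) ≤
    685 / 100 * ((4 / 5 - 23 / 50 * p) * (1 - p ^ 2) * (1989 / 10000) + 11 / 25 * p) := by
  have h2 : 0 ≤ p := by linarith
  nlinarith [mul_nonneg (sub_nonneg.2 h0) (sub_nonneg.2 h1),
    mul_nonneg (mul_nonneg h2 (sub_nonneg.2 h0)) (sub_nonneg.2 h1),
    mul_nonneg (mul_nonneg h2 h2) h2]

/-- group of the front -/
theorem Pr.GrO (h : Pr ρ t p y x) (hr : 0 < r) (hX : X = r * x ^ 2) (ht1 : t < 2 * π)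
    {Cf S : ℝ} (hCf : 0 ≤ Cf) (hS : √(PP p y / (SokalDz.rA ρ (2 * π - t) + 11 / 25)) ≤ S) :
    SokalDz.Kc r ρ * (20 / 3 * (Cf * rO (8 / 9 * r) ρ (2 * π - t)) +
      68 / 25 * rO r ρ (2 * π - t)) ≤
      (3 / 4 * (10 / 3 * Cf) + 7072 / 10000 * (34 / 25) * 1) * S *
        exp (-(8 / 9 * (11 / 25 * (X / y)))) := by
  have hA := h.rA0 (φ := 2 * π - t) (by linarith)
  have hS0 : 0 ≤ S := (Real.sqrt_nonneg _).trans hS
  unfold rO
  split_ifs with hc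
  · have hE : 11 / 25 * (X / y) ≤ r * (11 / 25 * (2 * π - (2 * π - t)) ^ 2) := by
      have e : 2 * π - (2 * π - t) = t := by ring
      have ht2 : t ^ 2 = x ^ 2 / y := by rw [eq_div_iff h.y0.ne', h.ts]
      rw [e, ht2, hX]
      exact le_of_eq (by ring)
    have hd : exp (-(11 / 25 * (X / y) / 9)) ≤ 1 := by
      have hy := h.y0
      have hX0 : 0 ≤ X := by rw [hX]; positivity
      exact exp_le_one_iff.2 (by have : 0 ≤ X / y := by positivity
                                 linarith)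
    have hg := h.gauss hr (A := SokalDz.rA ρ (2 * π - t) + 11 / 25) (a := 10 / 3 * Cf) (b := 34 / 25)
      (e := 11 / 25 * (2 * π - (2 * π - t)) ^ 2) (by positivity) (by positivity) (by norm_num) hE hd
    calc _ = SokalDz.Kc r ρ * (10 / 3 * Cf *
          (√(π / (8 / 9 * r * (SokalDz.rA ρ (2 * π - t) + 11 / 25))) *
            exp (-(8 / 9 * r * (11 / 25 * (2 * π - (2 * π - t)) ^ 2)))) +
          34 / 25 * (√(π / (r * (SokalDz.rA ρ (2 * π - t) + 11 / 25))) *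
            exp (-(r * (11 / 25 * (2 * π - (2 * π - t)) ^ 2))))) := by ring
      _ ≤ _ := hg
      _ ≤ _ := mul_le_mul_of_nonneg_right (mul_le_mul_of_nonneg_left hS (by positivity))
          (exp_pos _).le
  · have : 0 ≤ (3 / 4 * (10 / 3 * Cf) + 7072 / 10000 * (34 / 25) * 1) * S *
        exp (-(8 / 9 * (11 / 25 * (X / y)))) := by positivity
    simpa using this

/-- group of the image, main -/
theorem Pr.GrM (h : Pr ρ t p y x) (hr : 0 < r) {φ C B E d S : ℝ} (hφ : 0 < φ) (hC : 0 ≤ C)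
    (hB : 0 < B)
    (hE : E ≤ r * (SokalDz.rA ρ φ * B * φ ^ 2 / (SokalDz.rA ρ φ + B)))
    (hd : exp (-(E / 9)) ≤ d) (hS : √(PP p y / (SokalDz.rA ρ φ + B)) ≤ S) :
    SokalDz.Kc r ρ * (20 / 3 * (C * rM (8 / 9 * r) ρ φ B) + 68 / 25 * rM r ρ φ B) ≤
      (5 * C + 7072 / 10000 * (68 / 25) * d) * S * exp (-(8 / 9 * E)) := by
  have hA := h.rA0 hφ
  have hg := h.gauss hr (A := SokalDz.rA ρ φ + B) (a := 20 / 3 * C) (b := 68 / 25)
    (e := SokalDz.rA ρ φ * B * φ ^ 2 / (SokalDz.rA ρ φ + B)) (by positivity) (by positivity)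
    (by norm_num) hE hd
  have hd0 : 0 ≤ d := (exp_pos _).le.trans hd
  unfold rM
  calc _ = _ := by ring
    _ ≤ _ := hg
    _ ≤ (3 / 4 * (20 / 3 * C) + 7072 / 10000 * (68 / 25) * d) * S * exp (-(8 / 9 * E)) :=
        mul_le_mul_of_nonneg_right (mul_le_mul_of_nonneg_left hS (by positivity)) (exp_pos _).le
    _ = _ := by ring

/-- group of the image, tail -/
theorem Pr.GrT (h : Pr ρ t p y x) (hr : 0 < r) {φ E d : ℝ}
    (hE : E ≤ r * (SokalDz.rA ρ φ * φ ^ 2)) (hd : exp (-(E / 9)) ≤ d) :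
    SokalDz.Kc r ρ * (20 / 3 * (14 / 5 * rT (8 / 9 * r) ρ φ) + 68 / 25 * rT r ρ φ) ≤
      3 / 2 * (4232 / 10000 * (56 / 3) + 399 / 1000 * (68 / 25) * d) * √(PP p y) *
        exp (-(8 / 9 * E)) := by
  have hg := h.tail hr (c := 3 / 2) (a := 56 / 3) (b := 68 / 25)
    (e := SokalDz.rA ρ φ * φ ^ 2) (by norm_num) (by norm_num)
    (by norm_num) hE hd
  unfold rT
  calc _ = _ := by ring
    _ ≤ _ := hg

/-- lower bound for the exponent -/
theorem Elow {A B φ Y Z c : ℝ} (hr : 0 < r) (hA : 0 < A) (hB : 0 < B) (hφ : 0 < φ)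
    (hY : Y ≤ r * (A * φ ^ 2))
    (hZ : Z ≤ r * (B * φ ^ 2)) (hY0 : 0 < Y) (hZ0 : 0 < Z) (hc : c * (Y + Z) ≤ Y * Z) :
    c ≤ r * (A * B * φ ^ 2 / (A + B)) := by
  have h1 : c ≤ Y * Z / (Y + Z) := by rwa [le_div_iff₀ (by positivity)]
  refine h1.trans ?_
  have e : r * (A * B * φ ^ 2 / (A + B)) =
      (r * (A * φ ^ 2)) * (r * (B * φ ^ 2)) / (r * (A * φ ^ 2) + r * (B * φ ^ 2)) := by
    field_simp
  rw [e]
  have hY1 : 0 < r * (A * φ ^ 2) := by positivity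
  have hZ1 : 0 < r * (B * φ ^ 2) := by positivity
  rw [div_le_div_iff₀ (by positivity) (by positivity)]
  generalize r * (A * φ ^ 2) = Y' at *
  generalize r * (B * φ ^ 2) = Z' at *
  have h2 : Y * Z * Y' ≤ Y' * Z' * Y := by
    have := mul_le_mul_of_nonneg_left hZ (mul_nonneg hY0.le hY1.le)
    nlinarith
  have h3 : Y * Z * Z' ≤ Y' * Z' * Z := by
    have := mul_le_mul_of_nonneg_left hY (mul_nonneg hZ0.le hZ1.le)
    nlinarith
  nlinarith

end SokalDz
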