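import Pool.Agent.Lib_MP_af4de1_v3.DzRL5

/-!
# `PRealDL`, `X ≤ 80`, stage 6: the groups for `t ≤ 14/5` (helper7)
-/

set_option autoImplicit false

namespace SokalDz

open Real MeasureTheory Set SokalCen SokalV3

variable {r ρ t p y x X : ℝ}

theorem Pr.u_ge (h : Pr ρ t p y x) (hp : p ≤ 913 / 1000) : 952 / 10000 ≤ 1 / p - 1 := by
  have hp0 := h.p0
  have : 10952 / 10000 ≤ 1 / p := by
    rw [le_div_iff₀ hp0]
    linarith
  linarith

/-- left tail, `y ≥ 1/6` -/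
theorem Pr.glT1 (h : Pr ρ t p y x) (hr : 0 < r) (hX : X = r * x ^ 2) (hX1 : 108 / 5 ≤ X)
    (hx : x ≤ 6331 / 5000) (hy : 1 / 6 ≤ y) :
    SokalDz.Kc r ρ * (20 / 3 * lT (8 / 9 * r) ρ t + lT r ρ t) ≤
      263 / 10000 * (54 / 125 * exp (-(17 / 100 * X))) := by
  have hp0 := h.p0
  have hp : p ≤ 913 / 1000 := h.p_le (by norm_num) (by linarith)
  have hu := h.u_ge hp
  have hk := h.k_ge hx
  have ha := aa_u hp0
  have ha0 := aa_pos hp0 h.p1
  have hE : X * (aa p * (987 / 1000)) ≤ r * (SokalDz.lA ρ t * t ^ 2) := by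
    rw [h.lAt hX]
    exact mul_le_mul_of_nonneg_left (mul_le_mul_of_nonneg_left hk (by linarith)) (by linarith)
  have hXa : 0 ≤ X * (aa p * (987 / 1000)) := mul_nonneg (by linarith) (by linarith)
  have hd : exp (-(X * (aa p * (987 / 1000)) / 9)) ≤ 1 := exp_le_one_iff.2 (by linarith)
  refine closeU (h.GlT hr hE hd) (by norm_num) (by norm_num : (0 : ℝ) ≤ 1281 / 1000) h.sPP
    (E0 := 6819 / 1000) (ex := 10938 / 10000000) ?_ ?_ (by norm_num)
  · rw [ha]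
    nlinarith [mul_nonneg (sub_nonneg.2 hX1) (sub_nonneg.2 hu)]
  · exact ex_neg 6 (819 / 1000) (by norm_num) (by norm_num) (by norm_num) (by norm_num)

/-- left tail, `y ≤ 1/6`, `x ≤ 5/4` -/
theorem Pr.glT2 (h : Pr ρ t p y x) (hr : 0 < r) (hX : X = r * x ^ 2) (hX1 : 108 / 5 ≤ X)
    (hx : x ≤ 5 / 4) (hy : y ≤ 1 / 6) :
    SokalDz.Kc r ρ * (20 / 3 * lT (8 / 9 * r) ρ t + lT r ρ t) ≤
      81 / 1000 * (54 / 125 * exp (-(17 / 100 * X))) := by
  have hp0 := h.p0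
  have hp : 1141 / 1250 ≤ p := h.le_p (by norm_num; linarith)
  have ha0 := aa_pos hp0 h.p1
  have hE : X * (12 / 25) ≤ r * (SokalDz.lA ρ t * t ^ 2) := by
    rw [h.lAt hX, h.k_one hx]
    exact mul_le_mul_of_nonneg_left (by linarith) (by linarith)
  have hd : exp (-(X * (12 / 25) / 9)) ≤ 1 := exp_le_one_iff.2 (by linarith)
  refine closeW (h.GlT hr hE hd) (by norm_num) (Real.sqrt_nonneg _)
    (E0 := 5544 / 1000) (ex := 3914 / 1000000) ?_ ?_ ?_
  · linarith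
  · exact ex_neg 5 (544 / 1000) (by norm_num) (by norm_num) (by norm_num) (by norm_num)
  · have hs : √(PP p y) ≤ 11012 / 10000 := by
      refine h.sPP2 (S2 := 121264 / 100000) (by norm_num) (by norm_num) ?_
      rw [h.hy]
      nlinarith
    nlinarith

/-- front, `C = 14/5` -/
theorem Pr.grO1 (h : Pr ρ t p y x) (hr : 0 < r) (hX : X = r * x ^ 2) (hX1 : 108 / 5 ≤ X)
    (ht : t ≤ π) :
    SokalDz.Kc r ρ * (20 / 3 * (14 / 5 * rO (8 / 9 * r) ρ (2 * π - t)) +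
      68 / 25 * rO r ρ (2 * π - t)) ≤ 1 / 2 * (54 / 125 * exp (-(17 / 100 * X))) := by
  have hp0 := h.p0
  have hpi := Real.pi_pos
  have ht0 := h.t0
  have hs := SrA_p0 hp0.le h.p1.le
  rw [← h.hy] at hs
  have hS := h.SrA (φ := 2 * π - t) (by linarith) (by linarith) (by norm_num)
    (by norm_num : (0 : ℝ) ≤ 3211 / 1000) (by norm_num) hs
  have hy0 := h.y0
  have hy1 := h.y1
  have hXy : X ≤ X / y := by
    rw [le_div_iff₀ hy0]
    nlinarith
  refine closeW (h.GrO hr hX (by linarith) (by norm_num) hS) (by norm_num) (by norm_num)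
    (E0 := 4776 / 1000) (ex := 8436 / 1000000) ?_ ?_ (by norm_num)
  · linarith
  · exact ex_neg 4 (776 / 1000) (by norm_num) (by norm_num) (by norm_num) (by norm_num)

/-- front, `C = 38/25`, factor `S`, exponent `E0` -/
theorem Pr.grO2 (h : Pr ρ t p y x) (hr : 0 < r) (hX : X = r * x ^ 2)
    (ht : t ≤ π) {S2 S E0 ex c : ℝ} (hS2 : 0 ≤ S2) (hS : 0 ≤ S) (hlo : S2 ≤ S ^ 2)
    (hN : 1 + 16 / 25 * y ≤ S2 * ((4 / 5 - 23 / 50 * p) * y * (1989 / 10000) + 11 / 25 * p))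
    (hE : E0 ≤ 8 / 9 * (11 / 25 * (X / y)) - 17 / 100 * X) (hex : exp (-E0) ≤ ex)
    (hc : (3 / 4 * (10 / 3 * (38 / 25)) + 7072 / 10000 * (34 / 25) * 1) * S * ex ≤ c * (54 / 125)) :
    SokalDz.Kc r ρ * (20 / 3 * (38 / 25 * rO (8 / 9 * r) ρ (2 * π - t)) +
      68 / 25 * rO r ρ (2 * π - t)) ≤ c * (54 / 125 * exp (-(17 / 100 * X))) := by
  have hpi := Real.pi_pos
  have ht0 := h.t0
  have hS' := h.SrA (φ := 2 * π - t) (by linarith) (by linarith) hS2 hS hlo hN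
  exact closeW (h.GrO hr hX (by linarith) (by norm_num) hS') (by norm_num) hS hE hex hc

theorem Pr.grO3 (h : Pr ρ t p y x) (hr : 0 < r) (hX : X = r * x ^ 2) (hX1 : 108 / 5 ≤ X)
    (ht : t ≤ π) :
    SokalDz.Kc r ρ * (20 / 3 * (38 / 25 * rO (8 / 9 * r) ρ (2 * π - t)) +
      68 / 25 * rO r ρ (2 * π - t)) ≤ 3 / 10 * (54 / 125 * exp (-(17 / 100 * X))) := by
  have hs := SrA_p0 h.p0.le h.p1.le
  rw [← h.hy] at hs
  have hy0 := h.y0
  have hy1 := h.y1
  have hXy : X ≤ X / y := by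
    rw [le_div_iff₀ hy0]
    nlinarith
  refine h.grO2 hr hX ht (by norm_num) (by norm_num : (0 : ℝ) ≤ 3211 / 1000) (by norm_num) hs
    (E0 := 4776 / 1000) (ex := 8436 / 1000000) ?_ ?_ (by norm_num)
  · linarith
  · exact ex_neg 4 (776 / 1000) (by norm_num) (by norm_num) (by norm_num) (by norm_num)

theorem Pr.grO4 (h : Pr ρ t p y x) (hr : 499 / 10 ≤ r) (hX : X = r * x ^ 2)
    (hx : 7 / 10 ≤ x) (ht : t ≤ π) :
    SokalDz.Kc r ρ * (20 / 3 * (38 / 25 * rO (8 / 9 * r) ρ (2 * π - t)) +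
      68 / 25 * rO r ρ (2 * π - t)) ≤ 16 / 100 * (54 / 125 * exp (-(17 / 100 * X))) := by
  have hs := SrA_p0 h.p0.le h.p1.le
  rw [← h.hy] at hs
  have hy0 := h.y0
  have hy1 := h.y1
  have hX2 : 24451 / 1000 ≤ X := by
    rw [hX]
    have h1 : (7 / 10 : ℝ) ^ 2 ≤ x ^ 2 := pow_le_pow_left₀ (by norm_num) hx 2
    nlinarith
  have hXy : X ≤ X / y := by
    rw [le_div_iff₀ hy0]
    nlinarith
  refine h.grO2 (by linarith) hX ht (by norm_num) (by norm_num : (0 : ℝ) ≤ 3211 / 1000)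
    (by norm_num) hs
    (E0 := 5406 / 1000) (ex := 4493 / 1000000) ?_ ?_ (by norm_num)
  · linarith
  · exact ex_neg 5 (406 / 1000) (by norm_num) (by norm_num) (by norm_num) (by norm_num)

theorem Pr.grO5 (h : Pr ρ t p y x) (hr : 0 < r) (hX : X = r * x ^ 2) (hX1 : 108 / 5 ≤ X)
    (hy : y ≤ 4717 / 5000) (ht : t ≤ π) :
    SokalDz.Kc r ρ * (20 / 3 * (38 / 25 * rO (8 / 9 * r) ρ (2 * π - t)) +
      68 / 25 * rO r ρ (2 * π - t)) ≤ 148 / 1000 * (54 / 125 * exp (-(17 / 100 * X))) := by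
  have hp : 2379 / 10000 ≤ p := h.le_p (by norm_num; linarith)
  have hs := SrA_p1 hp h.p1.le
  rw [← h.hy] at hs
  have hy0 := h.y0
  have hXy : 10599 / 10000 * X ≤ X / y := by
    rw [le_div_iff₀ hy0]
    nlinarith
  refine h.grO2 hr hX ht (by norm_num) (by norm_num : (0 : ℝ) ≤ 26173 / 10000) (by norm_num) hs
    (E0 := 5282 / 1000) (ex := 5086 / 1000000) ?_ ?_ (by norm_num)
  · linarith
  · exact ex_neg 5 (282 / 1000) (by norm_num) (by norm_num) (by norm_num) (by norm_num)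

theorem Pr.grO6 (h : Pr ρ t p y x) (hr : 0 < r) (hX : X = r * x ^ 2) (hX1 : 108 / 5 ≤ X)
    (hy : y ≤ 2809 / 5000) (ht : t ≤ π) :
    SokalDz.Kc r ρ * (20 / 3 * (14 / 5 * rO (8 / 9 * r) ρ (2 * π - t)) +
      68 / 25 * rO r ρ (2 * π - t)) ≤ 1 / 1000 * (54 / 125 * exp (-(17 / 100 * X))) := by
  have hp0 := h.p0
  have hpi := Real.pi_pos
  have ht0 := h.t0
  have hs := SrA_p0 hp0.le h.p1.le
  rw [← h.hy] at hs
  have hS := h.SrA (φ := 2 * π - t) (by linarith) (by linarith) (by norm_num)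
    (by norm_num : (0 : ℝ) ≤ 3211 / 1000) (by norm_num) hs
  have hy0 := h.y0
  have hXy : 1779 / 1000 * X ≤ X / y := by
    rw [le_div_iff₀ hy0]
    nlinarith
  refine closeW (h.GrO hr hX (by linarith) (by norm_num) hS) (by norm_num) (by norm_num)
    (E0 := 1135 / 100) (ex := 12 / 1000000) ?_ ?_ (by norm_num)
  · linarith
  · exact ex_neg 11 (35 / 100) (by norm_num) (by norm_num) (by norm_num) (by norm_num)

/-- `Y` for `φ > m` -/
theorem Pr.Ybig (h : Pr ρ t p y x) (hr : 0 < r) {φ : ℝ} (hφ : 0 < φ) (hm : mm ρ ≤ φ) :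
    r * (25 / 16 * (17 / 50 + 4 / 5 * (1 / p - 1))) ≤ r * (SokalDz.rA ρ φ * φ ^ 2) := by
  refine mul_le_mul_of_nonneg_left ?_ hr.le
  have h1 := h.rA_ge hφ
  have hm0 := h.m0
  have hm2 := h.m2
  have hy := h.y0
  have hk : min 1 (mm ρ / φ) = mm ρ / φ := min_eq_right (by rwa [div_le_one hφ])
  rw [hk] at h1
  have ha0 := aa_pos h.p0 h.p1
  have h2 : (aa p - 7 / 50) * (y * (mm ρ / φ)) * φ ^ 2 ≤ SokalDz.rA ρ φ * φ ^ 2 :=
    mul_le_mul_of_nonneg_right h1 (sq_nonneg φ)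
  refine le_trans ?_ h2
  have e1 : (aa p - 7 / 50) * (y * (mm ρ / φ)) * φ ^ 2 = (aa p - 7 / 50) * (y * mm ρ * φ) := by
    field_simp
  have e2 : 17 / 50 + 4 / 5 * (1 / p - 1) = aa p - 7 / 50 := by
    rw [aa_u h.p0]
    ring
  rw [e1, e2]
  have h3 : 25 / 16 ≤ y * mm ρ * φ := by
    have : y * mm ρ * mm ρ ≤ y * mm ρ * φ := mul_le_mul_of_nonneg_left hm (by positivity)
    nlinarith
  calc 25 / 16 * (aa p - 7 / 50) = (aa p - 7 / 50) * (25 / 16) := by ring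
    _ ≤ _ := mul_le_mul_of_nonneg_left h3 (by linarith)

/-- images, `y ≥ 1/6` -/
theorem Pr.img1 (h : Pr ρ t p y x) (hr : 499 / 10 ≤ r) (hX2 : X ≤ 80)
    (hy : 1 / 6 ≤ y) (ht : t ≤ 14 / 5) :
    SokalDz.Kc r ρ * (20 / 3 * (14 / 5 * rM (8 / 9 * r) ρ (2 * π - t) (11 / 25)) +
      68 / 25 * rM r ρ (2 * π - t) (11 / 25)) +
    SokalDz.Kc r ρ * (20 / 3 * (14 / 5 * rT (8 / 9 * r) ρ (2 * π - t)) +
      68 / 25 * rT r ρ (2 * π - t)) ≤ 1 / 1000 * (54 / 125 * exp (-(17 / 100 * X))) := by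
  have hr0 : 0 < r := by linarith
  have hp0 := h.p0
  have hpi := Real.pi_gt_d4
  have ht0 := h.t0
  have hp : p ≤ 913 / 1000 := h.p_le (by norm_num) (by linarith)
  have hu := h.u_ge hp
  have hm0 := h.m0
  have hm2 := h.m2
  obtain ⟨φ, hφd⟩ : ∃ φ, φ = 2 * π - t := ⟨_, rfl⟩
  rw [← hφd]
  have hφ1 : 3483 / 1000 ≤ φ := by rw [hφd]; linarith
  have hφ2 : φ ≤ 2 * π := by rw [hφd]; linarith
  have hφ0 : 0 < φ := by linarith
  have hm : mm ρ ≤ φ := by
    refine le_trans ?_ hφ1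
    refine abs_le_of_sq_le_sq' ?_ (by norm_num) |>.2
    nlinarith [sq_nonneg (mm ρ)]
  have hY := h.Ybig hr0 hφ0 hm
  set u := 1 / p - 1 with hud
  have hY1 : 265 / 10 + 623 / 10 * u ≤ r * (SokalDz.rA ρ φ * φ ^ 2) := by
    refine le_trans ?_ hY
    nlinarith
  have hZ : 266 ≤ r * (11 / 25 * φ ^ 2) := by nlinarith
  have hE := Elow (c := 288 / 10) (Y := 324 / 10) (Z := 266) hr0 (h.rA0 hφ0)
    (by norm_num : (0 : ℝ) < 11 / 25) hφ0 (by linarith) hZ (by norm_num) (by norm_num) (by norm_num)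
  have hs := SrA_p0 hp0.le h.p1.le
  rw [← h.hy] at hs
  have hS := h.SrA (φ := φ) hφ0 hφ2 (by norm_num)
    (by norm_num : (0 : ℝ) ≤ 3211 / 1000) (by norm_num) hs
  have h1 : exp (-(288 / 10 / 9 : ℝ)) ≤ 1 := exp_le_one_iff.2 (by norm_num)
  have g1 := closeW (X := X) (E0 := 12) (ex := 615 / 100000000) (c := 8 / 10000)
    (h.GrM hr0 hφ0 (by norm_num : (0 : ℝ) ≤ 14 / 5) (by norm_num) hE h1 hS)
    (by norm_num) (by norm_num) (by linarith)
    (ex_neg 12 0 (by norm_num) (by norm_num) (by norm_num) (by norm_num)) (by norm_num)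
  have h2 : exp (-((265 / 10 + 623 / 10 * u) / 9)) ≤ 1 := exp_le_one_iff.2 (by linarith)
  have g2 := closeU (X := X) (E0 := 15) (ex := 31 / 100000000) (c := 2 / 10000)
    (h.GrT hr0 hY1 h2) (by norm_num) (by norm_num : (0 : ℝ) ≤ 1281 / 1000) h.sPP
    (by linarith)
    (ex_neg 15 0 (by norm_num) (by norm_num) (by norm_num) (by norm_num)) (by norm_num)
  linarith

/-- images, `y ≤ 1/6` -/
theorem Pr.img2 (h : Pr ρ t p y x) (hr : 499 / 10 ≤ r) (hX : X = r * x ^ 2) (hX1 : 108 / 5 ≤ X)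
    (hX2 : X ≤ 80) (hy : y ≤ 1 / 6) (ht : t ≤ 14 / 5) :
    SokalDz.Kc r ρ * (20 / 3 * (14 / 5 * rM (8 / 9 * r) ρ (2 * π - t) (11 / 25)) +
      68 / 25 * rM r ρ (2 * π - t) (11 / 25)) +
    SokalDz.Kc r ρ * (20 / 3 * (14 / 5 * rT (8 / 9 * r) ρ (2 * π - t)) +
      68 / 25 * rT r ρ (2 * π - t)) ≤ 22 / 100 * (54 / 125 * exp (-(17 / 100 * X))) := by
  have hr0 : 0 < r := by linarith
  have hp0 := h.p0
  have hy0 := h.y0
  have hpi := Real.pi_gt_d4
  have ht0 := h.t0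
  have hp : 1141 / 1250 ≤ p := h.le_p (by norm_num; linarith)
  have hu := h.u0
  have hm0 := h.m0
  have hm2 := h.m2
  have ha0 := aa_pos hp0 h.p1
  have hts := h.ts
  obtain ⟨φ, hφd⟩ : ∃ φ, φ = 2 * π - t := ⟨_, rfl⟩
  rw [← hφd]
  have hφ1 : 3483 / 1000 ≤ φ := by rw [hφd]; linarith
  have hφ0 : 0 < φ := by linarith
  have hZ : 266 ≤ r * (11 / 25 * φ ^ 2) := by nlinarith
  have hA := h.rA0 hφ0
  -- the two exponents
  have key : (9 / 8 * (64 / 10 + 17 / 100 * X) ≤ r * (SokalDz.rA ρ φ * φ ^ 2)) ∧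
      (9 / 8 * (599 / 100 + 17 / 100 * X) ≤
        r * (SokalDz.rA ρ φ * (11 / 25) * φ ^ 2 / (SokalDz.rA ρ φ + 11 / 25))) := by
    rcases le_total (mm ρ) φ with hm | hm
    · have hY := h.Ybig hr0 hφ0 hm
      have hY1 : 265 / 10 ≤ r * (SokalDz.rA ρ φ * φ ^ 2) := by
        refine le_trans ?_ hY
        nlinarith [mul_pos hr0 hu]
      refine ⟨by linarith, ?_⟩
      exact Elow (Y := 265 / 10) (Z := 266) hr0 hA (by norm_num : (0 : ℝ) < 11 / 25) hφ0 hY1 hZ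
        (by norm_num) (by norm_num) (by nlinarith)
    · have hY1 : 525 / 1000 * X ≤ r * (SokalDz.rA ρ φ * φ ^ 2) := by
        have h1 := h.rA_ge hφ0
        have hk : min 1 (mm ρ / φ) = 1 := min_eq_left (by rwa [le_div_iff₀ hφ0, one_mul])
        rw [hk, mul_one] at h1
        have h2 : 17 / 50 * y ≤ SokalDz.rA ρ φ :=
          le_trans (mul_le_mul_of_nonneg_right (by linarith) hy0.le) h1
        have h3 : 1547 / 1000 * t ^ 2 ≤ φ ^ 2 := by
          have : (12437 / 10000 * t) ^ 2 ≤ φ ^ 2 := by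
            refine pow_le_pow_left₀ (by positivity) ?_ 2
            rw [hφd]
            linarith
          nlinarith [sq_nonneg t]
        have h4 : 17 / 50 * y * (1547 / 1000 * t ^ 2) ≤ SokalDz.rA ρ φ * φ ^ 2 :=
          mul_le_mul h2 h3 (by positivity) hA.le
        have h5 : r * (17 / 50 * y * (1547 / 1000 * t ^ 2)) ≤ r * (SokalDz.rA ρ φ * φ ^ 2) :=
          mul_le_mul_of_nonneg_left h4 hr0.le
        refine le_trans ?_ h5
        have e : r * (17 / 50 * y * (1547 / 1000 * t ^ 2)) = 17 / 50 * (1547 / 1000) * X := by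
          rw [hX]
          linear_combination 17 / 50 * (1547 / 1000) * r * hts
        rw [e]
        linarith
      refine ⟨by linarith, ?_⟩
      exact Elow (Y := 525 / 1000 * X) (Z := 266) hr0 hA (by norm_num : (0 : ℝ) < 11 / 25) hφ0 hY1 hZ
        (by linarith) (by norm_num) (by nlinarith [mul_nonneg (sub_nonneg.2 hX1) (sub_nonneg.2 hX2)])
  obtain ⟨k1, k2⟩ := key
  have hP : PP p y ≤ 121264 / 100000 := by
    unfold PP
    rw [div_le_iff₀ hp0, h.hy]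
    nlinarith
  have hs : √(PP p y) ≤ 11012 / 10000 := by
    rw [Real.sqrt_le_left (by norm_num)]
    norm_num
    linarith
  have hS : √(PP p y / (SokalDz.rA ρ φ + 11 / 25)) ≤ 16602 / 10000 := by
    rw [Real.sqrt_le_left (by norm_num), div_le_iff₀ (by linarith)]
    nlinarith
  have h1 : exp (-(9 / 8 * (599 / 100 + 17 / 100 * X) / 9)) ≤ 1 := exp_le_one_iff.2 (by linarith)
  have g1 := closeW (X := X) (E0 := 599 / 100) (ex := 2506 / 1000000) (c := 154 / 1000)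
    (h.GrM hr0 hφ0 (by norm_num : (0 : ℝ) ≤ 14 / 5) (by norm_num) k2 h1 hS)
    (by norm_num) (by norm_num) (by linarith)
    (ex_neg 5 (99 / 100) (by norm_num) (by norm_num) (by norm_num) (by norm_num)) (by norm_num)
  have h2 : exp (-(9 / 8 * (64 / 10 + 17 / 100 * X) / 9)) ≤ 1 := exp_le_one_iff.2 (by linarith)
  have g2 := closeW (X := X) (E0 := 64 / 10) (ex := 1664 / 1000000) (c := 6 / 100)
    (h.GrT hr0 k1 h2) (by norm_num) (Real.sqrt_nonneg _)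
    (by linarith)
    (ex_neg 6 (4 / 10) (by norm_num) (by norm_num) (by norm_num) (by norm_num))
    (by nlinarith)
  have hW := exp_pos (-(17 / 100 * X))
  linarith

end SokalDz
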