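import Pool.Agent.Lib_MP_af4de1_v3.DzRL6

/-!
# `PRealDL`, `X ≤ 80`, stage 7: the sum, and the case `t ≤ 14/5` (helper7)
-/

set_option autoImplicit false

namespace SokalDz

open Real MeasureTheory Set SokalCen SokalV3

variable {r ρ t p y x X : ℝ}

/-- the statement for one point -/
def GoalL (r ρ t : ℝ) : Prop := ∃ C Cf B B' l e : ℝ, HR (2 * π - t) B ∧
  HC ρ (2 * π - t) C ∧ HF ρ (2 * π - t) Cf ∧ HL ρ t B' l ∧ HE ρ e ∧
  l ≤ lA ρ t * B' * t ^ 2 / (lA ρ t + B') ∧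
  Kc r ρ * SW r ρ (2 * π - t) t C Cf B B' l e ≤ 27 / 5 * Fd r ρ (r * t ^ 2 / (1 + ρ ^ 2))

/-- the far groups -/
def gFok (r ρ t X c : ℝ) : Prop :=
  (4 * r + 1) * (Kc r ρ * lF r ρ t (1 / 2)) + (14 * r + 68 / 25) * (Kc r ρ * rF r ρ (2 * π - t)) ≤
    c * (54 / 125 * exp (-(17 / 100 * X)))

/-- the images -/
def gIok (r ρ t C X c : ℝ) : Prop :=
  Kc r ρ * (20 / 3 * (C * rM (8 / 9 * r) ρ (2 * π - t) (11 / 25)) +
      68 / 25 * rM r ρ (2 * π - t) (11 / 25)) +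
    Kc r ρ * (20 / 3 * (14 / 5 * rT (8 / 9 * r) ρ (2 * π - t)) +
      68 / 25 * rT r ρ (2 * π - t)) ≤ c * (54 / 125 * exp (-(17 / 100 * X)))

theorem asmW {c1 c2 c3 c4 c5 C Cf : ℝ} (hρ : 0 < ρ) (ht : t ≤ π)
    (hXe : r * t ^ 2 / (1 + ρ ^ 2) = X) (hX2 : X ≤ 80)
    (hC : HC ρ (2 * π - t) C) (hCf : HF ρ (2 * π - t) Cf)
    (gM : LMok r ρ t X c1)
    (gT : Kc r ρ * (20 / 3 * lT (8 / 9 * r) ρ t + lT r ρ t) ≤
      c2 * (54 / 125 * exp (-(17 / 100 * X))))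
    (gO : Kc r ρ * (20 / 3 * (Cf * rO (8 / 9 * r) ρ (2 * π - t)) +
      68 / 25 * rO r ρ (2 * π - t)) ≤ c3 * (54 / 125 * exp (-(17 / 100 * X))))
    (gI : gIok r ρ t C X c4) (gF : gFok r ρ t X c5)
    (hs : c1 + c2 + c3 + c4 + c5 ≤ 1) : GoalL r ρ t := by
  obtain ⟨B', l, m1, m2, m3⟩ := gM
  refine ⟨C, Cf, 11 / 25, B', l, 1 / 2, HR_11_25 _, hC, hCf, m1, HE_half hρ, m2, ?_⟩
  rw [hXe]
  have hpi := Real.pi_gt_d4
  have hO : ∀ q : ℝ, lO q ρ t = 0 := by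
    intro q
    unfold lO
    rw [if_neg (by linarith)]
  have hFd : Fd r ρ X = 2 / 25 * exp (-(17 / 100 * X)) := by
    unfold Fd
    rw [if_pos hX2]
  rw [hFd]
  unfold gIok at gI
  unfold gFok at gF
  have hW := exp_pos (-(17 / 100 * X))
  calc Kc r ρ * SW r ρ (2 * π - t) t C Cf (11 / 25) B' l (1 / 2) =
      Kc r ρ * (20 / 3 * lM (8 / 9 * r) ρ t B' l + lM r ρ t B' l) +
      Kc r ρ * (20 / 3 * lT (8 / 9 * r) ρ t + lT r ρ t) +
      Kc r ρ * (20 / 3 * (Cf * rO (8 / 9 * r) ρ (2 * π - t)) + 68 / 25 * rO r ρ (2 * π - t)) +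
      (Kc r ρ * (20 / 3 * (C * rM (8 / 9 * r) ρ (2 * π - t) (11 / 25)) +
        68 / 25 * rM r ρ (2 * π - t) (11 / 25)) +
      Kc r ρ * (20 / 3 * (14 / 5 * rT (8 / 9 * r) ρ (2 * π - t)) +
        68 / 25 * rT r ρ (2 * π - t))) +
      ((4 * r + 1) * (Kc r ρ * lF r ρ t (1 / 2)) +
        (14 * r + 68 / 25) * (Kc r ρ * rF r ρ (2 * π - t))) := by
        unfold SW
        rw [hO, hO]
        ring
    _ ≤ (c1 + c2 + c3 + c4 + c5) * (54 / 125 * exp (-(17 / 100 * X))) := by linarith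
    _ ≤ 1 * (54 / 125 * exp (-(17 / 100 * X))) := mul_le_mul_of_nonneg_right hs (by positivity)
    _ = _ := by ring

theorem HypD.X' (h : HypD r ρ t) (H : Pr ρ t p y x) : r * t ^ 2 / (1 + ρ ^ 2) = r * x ^ 2 := by
  rw [← H.ts, div_eq_iff (by positivity)]
  linear_combination (-(r * t ^ 2)) * H.hR

theorem Pr.x_le (h : Pr ρ t p y x) (hr : 499 / 10 ≤ r) (hX : X = r * x ^ 2) (hX2 : X ≤ 80) :
    x ≤ 6331 / 5000 := by
  refine abs_le_of_sq_le_sq' ?_ (by norm_num) |>.2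
  have h1 : 499 / 10 * x ^ 2 ≤ r * x ^ 2 := mul_le_mul_of_nonneg_right hr (sq_nonneg x)
  rw [← hX] at h1
  nlinarith

theorem HF_front (h : Pr ρ t p y x) (ht : 9 / 20 ≤ t) : HF ρ (2 * π - t) (38 / 25) := by
  refine Or.inr ⟨3 / 5, ?_, by norm_num, by norm_num, by norm_num, by norm_num⟩
  have := h.m1
  linarith

/-- the case `t ≤ 14/5` -/
theorem goalL_lo (h : Pr ρ t p y x) (hr : 499 / 10 ≤ r) (hXe : r * t ^ 2 / (1 + ρ ^ 2) = X)
    (hX : X = r * x ^ 2) (hX1 : 108 / 5 ≤ X) (hX2 : X ≤ 80) (ht : t ≤ 14 / 5)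
    (gF : gFok r ρ t X (31 / 1000)) : GoalL r ρ t := by
  have hr0 : 0 < r := by linarith
  have hx1 := h.x_le hr hX hX2
  have hpi := Real.pi_gt_d4
  have htp : t ≤ π := by linarith
  have ht0 := h.t0
  have hy0 := h.y0
  have hx0 := h.x0
  have hρ := h.ρ0
  have hC := HC_big ρ (2 * π - t)
  have hF := HF_big ρ (2 * π - t)
  rcases le_total y (1 / 6) with hy | hy
  · have hx2 : x ≤ 5 / 4 := by
      refine abs_le_of_sq_le_sq' ?_ (by norm_num) |>.2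
      rw [← h.ts]
      have h1 : t ^ 2 ≤ (14 / 5) ^ 2 := pow_le_pow_left₀ ht0.le ht 2
      nlinarith [mul_le_mul_of_nonneg_right h1 hy0.le]
    exact asmW hρ htp hXe hX2 hC hF (h.lmG hr hX hX1 ht hy) (h.glT2 hr0 hX hX1 hx2 hy)
      (h.grO6 hr0 hX hX1 (by linarith) htp) (h.img2 hr hX hX1 hX2 hy ht) gF (by norm_num)
  · have gI := h.img1 hr hX2 hy ht
    have gT := h.glT1 hr0 hX hX1 hx1 hy
    rcases le_total y (2809 / 5000) with hy2 | hy2
    · have gO := h.grO6 hr0 hX hX1 hy2 htp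
      rcases le_total x (33 / 50) with ha | ha
      · exact asmW hρ htp hXe hX2 hC hF (h.lmBa hr hX hX1 ha hy hy2) gT gO gI gF (by norm_num)
      · exact asmW hρ htp hXe hX2 hC hF (h.lmBb hr hX ha hx1 hy hy2) gT gO gI gF (by norm_num)
    · rcases le_total t (9 / 20) with h9 | h9
      · exact asmW hρ htp hXe hX2 hC hF (h.lmT hr hX hX1 h9 hy) gT (h.grO1 hr0 hX hX1 htp) gI gF
          (by norm_num)
      · have hF' := HF_front h h9
        rcases le_total y (4717 / 5000) with hy3 | hy3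
        · have gO := h.grO5 hr0 hX hX1 hy3 htp
          rcases le_total x (33 / 50) with ha | ha
          · exact asmW hρ htp hXe hX2 hC hF' (h.lmA1a hr hX hX1 ha hy2) gT gO gI gF (by norm_num)
          · exact asmW hρ htp hXe hX2 hC hF' (h.lmA1b hr hX ha hx1 hy2) gT gO gI gF (by norm_num)
        · rcases le_total x (7 / 10) with ha | ha
          · exact asmW hρ htp hXe hX2 hC hF' (h.lmA0 hr hX hX1 ha hy3) gT (h.grO3 hr0 hX hX1 htp)
              gI gF (by norm_num)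
          · exact asmW hρ htp hXe hX2 hC hF' (h.lmA1b hr hX (by linarith) hx1 hy2) gT
              (h.grO4 hr hX ha htp) gI gF (by norm_num)

end SokalDz
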