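import Pool.Agent.Lib_MP_af4de1_v3.DzRL7

/-!
# `PRealDL`, `X ≤ 80`, stage 8: the images and the left tail for `t ≥ 14/5` (helper7)
-/

set_option autoImplicit false

namespace SokalDz

open Real MeasureTheory Set SokalCen SokalV3

variable {r ρ t p y x X : ℝ}

/-- `1/p - 1 ≥ y/2` -/
theorem Pr.u_y (h : Pr ρ t p y x) : y / 2 ≤ 1 / p - 1 := by
  have hp := h.p0
  have hp1 := h.p1
  have : 1 + y / 2 ≤ 1 / p := by
    rw [le_div_iff₀ hp, h.hy]
    nlinarith [mul_nonneg hp.le (sub_nonneg.2 hp1.le), mul_nonneg (mul_nonneg hp.le hp.le) (sub_nonneg.2 hp1.le), sq_nonneg (1 - p)]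
  linarith

/-- `√PP ≤ exp (57 u/50)` -/
theorem Pr.sPP3 (h : Pr ρ t p y x) : √(PP p y) ≤ 1 * exp ((228 / 100 * (1 / p - 1)) / 2) := by
  have hp := h.p0
  have hu := h.u0
  rw [one_mul, Real.sqrt_le_left (by positivity), ← Real.exp_nat_mul]
  have e : ((2 : ℕ) : ℝ) * ((228 / 100 * (1 / p - 1)) / 2) =
      128 / 100 * (1 / p - 1) + (1 / p - 1) := by
    push_cast
    ring
  rw [e, Real.exp_add]
  have h1 := Real.add_one_le_exp (1 / p - 1)
  have h3 := Real.add_one_le_exp (128 / 100 * (1 / p - 1))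
  have h2 : PP p y = (1 + 16 / 25 * y) * (1 / p) := by
    unfold PP
    ring
  rw [h2]
  have hy : y ≤ 2 * (1 / p - 1) := by
    have h4 : 1 / p - 1 = (1 - p) / p := by field_simp
    rw [h4, h.hy]
    have h5 : (1 - p) * p ≤ 1 - p := by nlinarith [h.p1]
    have h6 : 1 - p ≤ (1 - p) / p := by rwa [le_div_iff₀ hp]
    have : 1 - p ^ 2 ≤ 2 * (1 - p) := by nlinarith [sq_nonneg (1 - p)]
    linarith
  have hy0 := h.y0
  refine mul_le_mul ?_ (by linarith) (by positivity) (exp_pos _).le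
  linarith

/-- left tail, all `y` -/
theorem Pr.glT3 (h : Pr ρ t p y x) (hr : 499 / 10 ≤ r) (hX : X = r * x ^ 2) (hX1 : 108 / 5 ≤ X)
    (hx : x ≤ 6331 / 5000) :
    SokalDz.Kc r ρ * (20 / 3 * lT (8 / 9 * r) ρ t + lT r ρ t) ≤
      67 / 1000 * (54 / 125 * exp (-(17 / 100 * X))) := by
  have hr0 : 0 < r := by linarith
  have hp0 := h.p0
  have hu := h.u0
  have ha := aa_u hp0
  have ha0 := aa_pos hp0 h.p1
  have hk0 := h.k_pos
  have hE := h.lAt hX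
  set k := min 1 (mm ρ / t) with hkd
  have hk1 : 987 / 1000 ≤ k := h.k_ge hx
  -- `X aa k ≥ X' (12/25 + 4/5 u)`, `X' ≥ 21.6`
  have hXk : 108 / 5 ≤ X * k := by
    rcases le_total x (5 / 4) with hx5 | hx5
    · have := h.k_one hx5
      rw [hkd, this, mul_one]
      exact hX1
    · have : 779 / 10 ≤ X := by
        rw [hX]
        have h1 : (5 / 4 : ℝ) ^ 2 ≤ x ^ 2 := pow_le_pow_left₀ (by norm_num) hx5 2
        nlinarith
      nlinarith
  have hkX : 17 / 100 * X ≤ 173 / 1000 * (X * k) := by nlinarith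
  have hkX' : 5544 / 1000 ≤ 8 / 9 * (X * k * (12 / 25)) - 17 / 100 * X := by
    rcases le_total x (5 / 4) with hx5 | hx5
    · have := h.k_one hx5
      rw [hkd, this, mul_one]
      linarith
    · have : 779 / 10 ≤ X := by
        rw [hX]
        have h1 : (5 / 4 : ℝ) ^ 2 ≤ x ^ 2 := pow_le_pow_left₀ (by norm_num) hx5 2
        nlinarith
      nlinarith
  have hd : exp (-(X * (aa p * k) / 9)) ≤ 3162 / 10000 := by
    refine ex_neg 1 (152 / 1000) ?_ (by norm_num) (by norm_num) (by norm_num)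
    have : X * k * (12 / 25) ≤ X * k * aa p := mul_le_mul_of_nonneg_left ha0.le (by linarith)
    norm_num
    linarith
  refine closeU (h.GlT hr0 hE.ge hd) (by norm_num) (by norm_num : (0 : ℝ) ≤ 1) h.sPP3
    (E0 := 5544 / 1000) (ex := 3914 / 1000000) ?_ ?_ (by norm_num)
  · have e : X * (aa p * k) = X * k * (12 / 25) + X * k * (4 / 5 * (1 / p - 1)) := by
      rw [ha]
      ring
    rw [e]
    have : 108 / 5 * (4 / 5 * (1 / p - 1)) ≤ X * k * (4 / 5 * (1 / p - 1)) :=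
      mul_le_mul_of_nonneg_right hXk (by linarith)
    linarith
  · exact ex_neg 5 (544 / 1000) (by norm_num) (by norm_num) (by norm_num) (by norm_num)

/-- `Y` as a function of `w = φ/t` -/
theorem Pr.Yw (h : Pr ρ t p y x) (hX : X = r * x ^ 2) {φ w : ℝ} (hw0 : 0 < w)
    (hw : w * t = φ) (hm : φ ≤ mm ρ) :
    r * (SokalDz.rA ρ φ * φ ^ 2) = X * (w ^ 2 * (aa p - 8 / 25 *
      ((4 / 5 * (w * x)) / 3 + 5 * (4 / 5 * (w * x)) ^ 2 / 48))) := by
  have hm0 := h.m0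
  have ht0 := h.t0
  have hφ0 : 0 < φ := by rw [← hw]; positivity
  have hT : cT (mm ρ) φ = 4 / 5 * (w * x) := by
    unfold cT
    rw [min_eq_right (by rwa [div_le_one hm0]), ← hw, mul_div_assoc, h.tm]
    ring
  have hk : min 1 (mm ρ / φ) = 1 := min_eq_left (by rwa [le_div_iff₀ hφ0, one_mul])
  rw [h.rA, hT, hk, ← hw, hX]
  linear_combination r * w ^ 2 * (aa p - 8 / 25 *
      ((4 / 5 * (w * x)) / 3 + 5 * (4 / 5 * (w * x)) ^ 2 / 48)) * h.ts

/-- `w ≥ 1` -/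
theorem Pr.Yeta (h : Pr ρ t p y x) (hX0 : 0 ≤ X) (hX : X = r * x ^ 2) {φ w : ℝ} (hw1 : 1 ≤ w)
    (hw : w * t = φ) (hm : φ ≤ mm ρ) (ht1 : t ≤ π) :
    X * (12 / 25 - 853334 / 10000000 * x + 191 / 10000 * x ^ 2) ≤
      r * (SokalDz.rA ρ φ * φ ^ 2) := by
  have hm0 := h.m0
  have ht0 := h.t0
  have hx0 := h.x0
  have hpi := Real.pi_lt_d4
  rw [h.Yw hX (by linarith) hw hm]
  refine mul_le_mul_of_nonneg_left ?_ hX0
  have hwx : w * x ≤ 5 / 4 := by
    have h1 : φ / mm ρ ≤ 1 := by rwa [div_le_one hm0]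
    rw [← hw, mul_div_assoc, h.tm] at h1
    linarith
  have hyx : 10131 / 100000 * x ^ 2 ≤ y := by
    rw [← h.ts]
    have : t ^ 2 ≤ (31416 / 10000) ^ 2 := pow_le_pow_left₀ ht0.le (by linarith) 2
    have hy0 := h.y0
    nlinarith
  have ha : 12 / 25 + 405 / 10000 * x ^ 2 ≤ aa p := by
    rw [aa_u h.p0]
    have := h.u_y
    nlinarith
  have hxx : x ≤ 5 / 4 := by nlinarith
  have h1 : w ^ 2 * (12 / 25 + 405 / 10000 * x ^ 2 - 8 / 25 *
      ((4 / 5 * (w * x)) / 3 + 5 * (4 / 5 * (w * x)) ^ 2 / 48)) ≤ w ^ 2 * (aa p - 8 / 25 *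
      ((4 / 5 * (w * x)) / 3 + 5 * (4 / 5 * (w * x)) ^ 2 / 48)) :=
    mul_le_mul_of_nonneg_left (by linarith) (sq_nonneg w)
  refine le_trans ?_ h1
  -- bracket
  have hb : 0 ≤ (12 / 25 + 405 / 10000 * x ^ 2) * (w + 1) - 32 / 375 * x * (w ^ 2 + w + 1) -
      8 / 375 * x ^ 2 * (w ^ 3 + w ^ 2 + w + 1) := by
    have e1 : x * (w ^ 2 + w + 1) ≤ 5 / 4 * (w + 2) := by nlinarith
    have e2 : x ^ 2 * (w ^ 3 + w ^ 2 + w + 1) ≤ 25 / 16 * (w + 1) + x ^ 2 * (w + 1) := by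
      have : (w * x) ^ 2 ≤ (5 / 4) ^ 2 := pow_le_pow_left₀ (by positivity) hwx 2
      nlinarith
    nlinarith
  have hF := mul_nonneg (sub_nonneg.2 hw1) hb
  have e3 : w ^ 2 * (12 / 25 + 405 / 10000 * x ^ 2 - 8 / 25 *
      ((4 / 5 * (w * x)) / 3 + 5 * (4 / 5 * (w * x)) ^ 2 / 48)) =
      (w - 1) * ((12 / 25 + 405 / 10000 * x ^ 2) * (w + 1) - 32 / 375 * x * (w ^ 2 + w + 1) -
      8 / 375 * x ^ 2 * (w ^ 3 + w ^ 2 + w + 1)) +
      (12 / 25 + 405 / 10000 * x ^ 2 - 32 / 375 * x - 8 / 375 * x ^ 2) := by ring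
  rw [e3]
  nlinarith [sq_nonneg x]

end SokalDz
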