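import Pool.Agent.Lib_MP_af4de1_v3.DzRL8

/-!
# `PRealDL`, `X ≤ 80`, stage 9: the images for `t ≥ 14/5` (helper7)
-/

set_option autoImplicit false

namespace SokalDz

open Real MeasureTheory Set SokalCen SokalV3

variable {r ρ t p y x X : ℝ}

/-- general step for the images -/
theorem Pr.imgX (h : Pr ρ t p y x) (hr : 0 < r)
    {η ζ τ X0 C S1 S2 d1 d2 E1 E2 ex1 ex2 c1 c2 : ℝ} (ht1 : t ≤ π) (hX0 : 0 < X0) (hX : X0 ≤ X)
    (hη : 0 < η) (hζ : 0 < ζ) (hC : 0 ≤ C)
    (hY : η * X ≤ r * (SokalDz.rA ρ (2 * π - t) * (2 * π - t) ^ 2))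
    (hZ : ζ * X ≤ r * (11 / 25 * (2 * π - t) ^ 2)) (hτ : τ * (η + ζ) ≤ η * ζ)
    (hS1 : √(PP p y / (SokalDz.rA ρ (2 * π - t) + 11 / 25)) ≤ S1) (hS2 : √(PP p y) ≤ S2)
    (h1 : 17 / 100 ≤ 8 / 9 * τ) (h2 : 17 / 100 ≤ 8 / 9 * η)
    (hd1 : exp (-(τ * X0 / 9)) ≤ d1) (hd2 : exp (-(η * X0 / 9)) ≤ d2)
    (hE1 : E1 ≤ (8 / 9 * τ - 17 / 100) * X0) (hE2 : E2 ≤ (8 / 9 * η - 17 / 100) * X0)
    (hex1 : exp (-E1) ≤ ex1) (hex2 : exp (-E2) ≤ ex2)
    (hc1 : (5 * C + 7072 / 10000 * (68 / 25) * d1) * S1 * ex1 ≤ c1 * (54 / 125))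
    (hc2 : 3 / 2 * (4232 / 10000 * (56 / 3) + 399 / 1000 * (68 / 25) * d2) * S2 * ex2 ≤
      c2 * (54 / 125)) : gIok r ρ t C X (c1 + c2) := by
  have hpi := Real.pi_pos
  obtain ⟨φ, hφd⟩ : ∃ φ, φ = 2 * π - t := ⟨_, rfl⟩
  have hφ0 : 0 < φ := by rw [hφd]; linarith
  unfold gIok
  rw [← hφd] at hY hZ hS1 ⊢
  have hA := h.rA0 hφ0
  have hXp : 0 < X := lt_of_lt_of_le hX0 hX
  have hE : τ * X ≤ r * (SokalDz.rA ρ φ * (11 / 25) * φ ^ 2 / (SokalDz.rA ρ φ + 11 / 25)) := by
    refine Elow (Y := η * X) (Z := ζ * X) hr hA (by norm_num) hφ0 hY hZ (by positivity)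
      (by positivity) ?_
    have := mul_le_mul_of_nonneg_right hτ (by positivity : (0 : ℝ) ≤ X * X)
    nlinarith
  have hd1' : exp (-(τ * X / 9)) ≤ d1 := by
    refine le_trans (Real.exp_le_exp.2 ?_) hd1
    have : τ * X0 ≤ τ * X := mul_le_mul_of_nonneg_left hX (by linarith)
    linarith
  have hd2' : exp (-(η * X / 9)) ≤ d2 := by
    refine le_trans (Real.exp_le_exp.2 ?_) hd2
    have : η * X0 ≤ η * X := mul_le_mul_of_nonneg_left hX (by linarith)
    linarith
  have hd10 : 0 ≤ d1 := (exp_pos _).le.trans hd1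
  have hd20 : 0 ≤ d2 := (exp_pos _).le.trans hd2
  have hS10 : 0 ≤ S1 := (Real.sqrt_nonneg _).trans hS1
  have hS20 : 0 ≤ S2 := (Real.sqrt_nonneg _).trans hS2
  have g1 := closeW (X := X) (E0 := E1) (ex := ex1) (c := c1)
    (h.GrM hr hφ0 hC (by norm_num) hE hd1' hS1)
    (by positivity) hS10 (by
      have : (8 / 9 * τ - 17 / 100) * X0 ≤ (8 / 9 * τ - 17 / 100) * X :=
        mul_le_mul_of_nonneg_left hX (by linarith)
      linarith) hex1 hc1
  have hT := h.GrT hr hY hd2'
  have hT' : SokalDz.Kc r ρ * (20 / 3 * (14 / 5 * rT (8 / 9 * r) ρ φ) + 68 / 25 * rT r ρ φ) ≤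
      3 / 2 * (4232 / 10000 * (56 / 3) + 399 / 1000 * (68 / 25) * d2) * S2 *
        exp (-(8 / 9 * (η * X))) :=
    hT.trans (mul_le_mul_of_nonneg_right (mul_le_mul_of_nonneg_left hS2 (by positivity))
      (exp_pos _).le)
  have g2 := closeW (X := X) (E0 := E2) (ex := ex2) (c := c2) hT'
    (by positivity) hS20 (by
      have : (8 / 9 * η - 17 / 100) * X0 ≤ (8 / 9 * η - 17 / 100) * X :=
        mul_le_mul_of_nonneg_left hX (by linarith)
      linarith) hex2 hc2
  linarith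

theorem gIok.mono {C X' c c' : ℝ} (h : gIok r ρ t C X' c) (hc0 : 0 ≤ c) (hX : X ≤ X')
    (hc : c ≤ c') : gIok r ρ t C X c' := by
  unfold gIok at *
  refine h.trans ?_
  have h1 : exp (-(17 / 100 * X')) ≤ exp (-(17 / 100 * X)) := Real.exp_le_exp.2 (by linarith)
  have h2 := exp_pos (-(17 / 100 * X))
  calc c * (54 / 125 * exp (-(17 / 100 * X'))) ≤ c * (54 / 125 * exp (-(17 / 100 * X))) :=
        mul_le_mul_of_nonneg_left (by linarith) hc0
    _ ≤ _ := mul_le_mul_of_nonneg_right hc (by positivity)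

theorem Pr.phi2 (_h : Pr ρ t p y x) (ht1 : t ≤ π) :
    434236 / 100000 ≤ 11 / 25 * (2 * π - t) ^ 2 := by
  have hpi := Real.pi_gt_d4
  have : (31415 / 10000 : ℝ) ^ 2 ≤ (2 * π - t) ^ 2 :=
    pow_le_pow_left₀ (by norm_num) (by linarith) 2
  linarith

theorem Pr.y_le (h : Pr ρ t p y x) (ht : 14 / 5 ≤ t) {x1 : ℝ} (hx : x ≤ x1) :
    784 / 100 * y ≤ x1 ^ 2 := by
  have h1 : (14 / 5 : ℝ) ^ 2 ≤ t ^ 2 := pow_le_pow_left₀ (by norm_num) ht 2
  have h2 : x ^ 2 ≤ x1 ^ 2 := pow_le_pow_left₀ h.x0.le hx 2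
  have h3 := h.ts
  have h4 := h.y0
  nlinarith

/-- crude `S1` -/
theorem Pr.S1c (h : Pr ρ t p y x) (ht1 : t ≤ π) {P S1 : ℝ} (hP : PP p y ≤ P) (hS : 0 ≤ S1)
    (hPS : P ≤ 11 / 25 * S1 ^ 2) :
    √(PP p y / (SokalDz.rA ρ (2 * π - t) + 11 / 25)) ≤ S1 := by
  have hpi := Real.pi_pos
  have hA := h.rA0 (φ := 2 * π - t) (by linarith)
  rw [Real.sqrt_le_left hS, div_le_iff₀ (by linarith)]
  nlinarith [sq_nonneg S1]

/-- finer `S1` -/
theorem Pr.S1f (h : Pr ρ t p y x) (ht1 : t ≤ π) (hm : 2 * π - t ≤ mm ρ) {S1 S : ℝ} (hS : 0 ≤ S1)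
    (hS0 : 0 ≤ S) (hSS : S ≤ S1 ^ 2) (hN : 1 + 16 / 25 * y ≤ S * ((17 / 50 * y + 11 / 25) * p)) :
    √(PP p y / (SokalDz.rA ρ (2 * π - t) + 11 / 25)) ≤ S1 := by
  have hpi := Real.pi_pos
  have hφ0 : 0 < 2 * π - t := by linarith
  have hA := h.rA_ge hφ0
  have hp := h.p0
  have ha := aa_pos hp h.p1
  have hy := h.y0
  have hk : min 1 (mm ρ / (2 * π - t)) = 1 := min_eq_left (by rwa [le_div_iff₀ hφ0, one_mul])
  rw [hk, mul_one] at hA
  have h2 : 17 / 50 * y ≤ SokalDz.rA ρ (2 * π - t) :=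
    le_trans (mul_le_mul_of_nonneg_right (by linarith) hy.le) hA
  rw [Real.sqrt_le_left hS]
  refine le_trans ?_ hSS
  unfold PP
  rw [div_le_iff₀ (by linarith), div_le_iff₀ hp]
  refine hN.trans ?_
  rw [mul_assoc]
  refine mul_le_mul_of_nonneg_left ?_ hS0
  exact mul_le_mul_of_nonneg_right (by linarith) hp.le

/-- the inputs `hY`, `hZ` -/
theorem Pr.inY (h : Pr ρ t p y x) (hr : 0 < r) (hX : X = r * x ^ 2) (ht1 : t ≤ π)
    (hm : 2 * π - t ≤ mm ρ) {x1 η : ℝ} (hx1 : x ≤ x1) (hx2 : x1 ≤ 5 / 4)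
    (hη : η ≤ 12 / 25 - 853334 / 10000000 * x1 + 191 / 10000 * x1 ^ 2) :
    η * X ≤ r * (SokalDz.rA ρ (2 * π - t) * (2 * π - t) ^ 2) := by
  have ht0 := h.t0
  have hx0 := h.x0
  have hX0 : 0 ≤ X := by rw [hX]; positivity
  have h1 := h.Yeta hX0 hX (φ := 2 * π - t) (w := (2 * π - t) / t)
    (by rw [le_div_iff₀ ht0]; linarith) (by field_simp) hm ht1
  refine le_trans ?_ h1
  have h2 : η ≤ 12 / 25 - 853334 / 10000000 * x + 191 / 10000 * x ^ 2 := by nlinarith
  nlinarith

theorem Pr.inZ (h : Pr ρ t p y x) (hr : 0 < r) (hX : X = r * x ^ 2) (ht1 : t ≤ π)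
    {x1 ζ : ℝ} (hx1 : x ≤ x1) (hζ0 : 0 ≤ ζ) (hζ : ζ * x1 ^ 2 ≤ 434236 / 100000) :
    ζ * X ≤ r * (11 / 25 * (2 * π - t) ^ 2) := by
  have h2 : x ^ 2 ≤ x1 ^ 2 := pow_le_pow_left₀ h.x0.le hx1 2
  have h3 := h.phi2 ht1
  have h4 : ζ * x ^ 2 ≤ ζ * x1 ^ 2 := mul_le_mul_of_nonneg_left h2 hζ0
  calc ζ * X = r * (ζ * x ^ 2) := by rw [hX]; ring
    _ ≤ _ := mul_le_mul_of_nonneg_left (by linarith) hr.le

theorem Pr.PPle (h : Pr ρ t p y x) {y1 p1 P : ℝ} (hy : y ≤ y1) (hp1 : y1 ≤ 1 - p1 ^ 2)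
    (hp0 : 0 < p1) (hP : 1 + 16 / 25 * y1 ≤ P * p1) : PP p y ≤ P := by
  have hp := h.p0
  have h1 : p1 ≤ p := h.le_p (by linarith)
  have hy0 := h.y0
  have hP0 : 0 < P := by
    by_contra hn
    nlinarith
  unfold PP
  rw [div_le_iff₀ hp]
  nlinarith

/-- `φ ≤ 3m/5` -/
theorem Pr.imgA (h : Pr ρ t p y x) (hr : 499 / 10 ≤ r) (hX : X = r * x ^ 2) (hX1 : 108 / 5 ≤ X)
    (ht : 14 / 5 ≤ t) (ht1 : t ≤ π) (hT : 2 * π - t ≤ 3 / 5 * mm ρ) :
    gIok r ρ t (38 / 25) X (71 / 100) := by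
  have hr0 : 0 < r := by linarith
  have ht0 := h.t0
  have hx0 := h.x0
  have hy0 := h.y0
  have hp0 := h.p0
  have hm0 := h.m0
  have hpi := Real.pi_gt_d4
  have hm : 2 * π - t ≤ mm ρ := by linarith
  have hx75 : x ≤ 3 / 4 := by
    have h1 := h.tm
    rw [div_eq_iff hm0.ne'] at h1
    have : 4 / 5 * x * mm ρ ≤ 3 / 5 * mm ρ := by linarith
    have := le_of_mul_le_mul_right this hm0
    linarith
  have hXx : 499 / 10 * x ^ 2 ≤ X := by
    rw [hX]
    exact mul_le_mul_of_nonneg_right hr (sq_nonneg x)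
  rcases le_total x (33 / 50) with ha | ha
  · have hy := h.y_le ht ha
    have hp1 : 971817 / 1000000 ≤ p := h.le_p (by norm_num; linarith)
    have hP := h.PPle (y1 := 5557 / 100000) (p1 := 971817 / 1000000) (P := 10657 / 10000)
      (by linarith) (by norm_num) (by norm_num) (by norm_num)
    refine (h.imgX hr0 (η := 4319 / 10000) (ζ := 9968 / 1000) (τ := 4139 / 10000) (X0 := 108 / 5)
      (S1 := 1524 / 1000) (S2 := 10324 / 10000) (d1 := 371 / 1000) (d2 := 3552 / 10000)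
      (E1 := 42748 / 10000) (E2 := 46204 / 10000) (ex1 := 13923 / 1000000) (ex2 := 9855 / 1000000)
      (c1 := 4095 / 10000) (c2 := 2935 / 10000)
      ht1 (by norm_num) hX1 (by norm_num) (by norm_num) (by norm_num)
      (h.inY hr0 hX ht1 hm ha (by norm_num) (by norm_num))
      (h.inZ hr0 hX ht1 ha (by norm_num) (by norm_num)) (by norm_num)
      (h.S1f ht1 hm (S := 23225 / 10000) (by norm_num) (by norm_num) (by norm_num) ?_) ?_
      (by norm_num) (by norm_num)
      (ex_neg 0 (9933 / 10000) (by norm_num) (by norm_num) (by norm_num) (by norm_num))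
      (ex_neg 1 (365 / 10000) (by norm_num) (by norm_num) (by norm_num) (by norm_num))
      (by norm_num) (by norm_num)
      (ex_neg 4 (2748 / 10000) (by norm_num) (by norm_num) (by norm_num) (by norm_num))
      (ex_neg 4 (6204 / 10000) (by norm_num) (by norm_num) (by norm_num) (by norm_num))
      (by norm_num) (by norm_num)).mono (by norm_num) le_rfl (by norm_num)
    · rw [h.hy]
      nlinarith [mul_nonneg (sub_nonneg.2 hp1) (sub_nonneg.2 h.p1.le),
        mul_nonneg (mul_nonneg (sub_nonneg.2 hp1) (sub_nonneg.2 h.p1.le)) hp0.le]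
    · rw [Real.sqrt_le_left (by norm_num)]
      linarith
  · rcases le_total x (17 / 25) with hb | hb
    · have hy := h.y_le ht hb
      have hp1 : 970061 / 1000000 ≤ p := h.le_p (by norm_num; linarith)
      have hP := h.PPle (y1 := 58981 / 1000000) (p1 := 970061 / 1000000) (P := 10698 / 10000)
        (by linarith) (by norm_num) (by norm_num) (by norm_num)
      refine (h.imgX hr0 (η := 4308 / 10000) (ζ := 939 / 100) (τ := 4119 / 10000)
        (X0 := 21736 / 1000)
        (S1 := 15251 / 10000) (S2 := 10344 / 10000) (d1 := 3703 / 10000) (d2 := 3539 / 10000)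
        (E1 := 42630 / 10000) (E2 := 46282 / 10000) (ex1 := 14088 / 1000000)
        (ex2 := 9779 / 1000000)
        (c1 := 4140 / 10000) (c2 := 2920 / 10000)
        ht1 (by norm_num) ?_ (by norm_num) (by norm_num) (by norm_num)
        (h.inY hr0 hX ht1 hm hb (by norm_num) (by norm_num))
        (h.inZ hr0 hX ht1 hb (by norm_num) (by norm_num)) (by norm_num)
        (h.S1f ht1 hm (S := 23258 / 10000) (by norm_num) (by norm_num) (by norm_num) ?_) ?_
        (by norm_num) (by norm_num)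
        (ex_neg 0 (9947 / 10000) (by norm_num) (by norm_num) (by norm_num) (by norm_num))
        (ex_neg 1 (404 / 10000) (by norm_num) (by norm_num) (by norm_num) (by norm_num))
        (by norm_num) (by norm_num)
        (ex_neg 4 (2630 / 10000) (by norm_num) (by norm_num) (by norm_num) (by norm_num))
        (ex_neg 4 (6282 / 10000) (by norm_num) (by norm_num) (by norm_num) (by norm_num))
        (by norm_num) (by norm_num)).mono (by norm_num) le_rfl (by norm_num)
      · have h1 : (33 / 50 : ℝ) ^ 2 ≤ x ^ 2 := pow_le_pow_left₀ (by norm_num) ha 2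
        linarith
      · rw [h.hy]
        nlinarith [mul_nonneg (sub_nonneg.2 hp1) (sub_nonneg.2 h.p1.le),
          mul_nonneg (mul_nonneg (sub_nonneg.2 hp1) (sub_nonneg.2 h.p1.le)) hp0.le]
      · rw [Real.sqrt_le_left (by norm_num)]
        linarith
    · have hy := h.y_le ht hx75
      have hP := h.PPle (y1 := 7175 / 100000) (p1 := 963457 / 1000000) (P := 1086 / 1000)
        (by linarith) (by norm_num) (by norm_num) (by norm_num)
      refine (h.imgX hr0 (η := 4267 / 10000) (ζ := 7719 / 1000) (τ := 4043 / 10000)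
        (X0 := 2307 / 100)
        (S1 := 1572 / 1000) (S2 := 1043 / 1000) (d1 := 1) (d2 := 1)
        (E1 := 4368 / 1000) (E2 := 4828 / 1000) (ex1 := 12685 / 1000000)
        (ex2 := 8008 / 1000000)
        (c1 := 44 / 100) (c2 := 262 / 1000)
        ht1 (by norm_num) ?_ (by norm_num) (by norm_num) (by norm_num)
        (h.inY hr0 hX ht1 hm hx75 (by norm_num) (by norm_num))
        (h.inZ hr0 hX ht1 hx75 (by norm_num) (by norm_num)) (by norm_num)
        (h.S1c ht1 hP (by norm_num) (by norm_num)) ?_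
        (by norm_num) (by norm_num)
        (exp_le_one_iff.2 (by norm_num)) (exp_le_one_iff.2 (by norm_num))
        (by norm_num) (by norm_num)
        (ex_neg 4 (368 / 1000) (by norm_num) (by norm_num) (by norm_num) (by norm_num))
        (ex_neg 4 (828 / 1000) (by norm_num) (by norm_num) (by norm_num) (by norm_num))
        (by norm_num) (by norm_num)).mono (by norm_num) le_rfl (by norm_num)
      · have h1 : (17 / 25 : ℝ) ^ 2 ≤ x ^ 2 := pow_le_pow_left₀ (by norm_num) hb 2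
        linarith
      · rw [Real.sqrt_le_left (by norm_num)]
        linarith

/-- `φ > 3m/5` -/
theorem Pr.imgB (h : Pr ρ t p y x) (hr : 499 / 10 ≤ r) (hX : X = r * x ^ 2) (hX1 : 108 / 5 ≤ X)
    (hX2 : X ≤ 80) (ht : 14 / 5 ≤ t) (ht1 : t ≤ π) (hT : 3 / 5 * mm ρ ≤ 2 * π - t) :
    gIok r ρ t (14 / 5) X (71 / 100) := by
  have hr0 : 0 < r := by linarith
  have ht0 := h.t0
  have hx0 := h.x0
  have hy0 := h.y0
  have hp0 := h.p0
  have hm0 := h.m0
  have hpi := Real.pi_gt_d4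
  have hx1 := h.x_le hr hX hX2
  have hφ0 : 0 < 2 * π - t := by linarith
  have hXx : 499 / 10 * x ^ 2 ≤ X := by
    rw [hX]
    exact mul_le_mul_of_nonneg_right hr (sq_nonneg x)
  have hy1 : y ≤ 2045 / 10000 := by
    have := h.y_le ht hx1
    norm_num at this
    linarith
  rcases le_total (mm ρ) (2 * π - t) with hm | hm
  · -- `φ > m`
    have hY := h.Ybig hr0 hφ0 hm
    have hu := h.u0
    have hY1 : 331 / 1000 * (80 : ℝ) ≤ r * (SokalDz.rA ρ (2 * π - t) * (2 * π - t) ^ 2) := by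
      refine le_trans ?_ hY
      nlinarith [mul_pos hr0 hu]
    have hZ1 : 2708 / 1000 * (80 : ℝ) ≤ r * (11 / 25 * (2 * π - t) ^ 2) := by
      have := h.phi2 ht1
      nlinarith
    have hP := h.PPle (y1 := 2045 / 10000) (p1 := 8919 / 10000) (P := 1268 / 1000)
      hy1 (by norm_num) (by norm_num) (by norm_num)
    refine (h.imgX hr0 (X := 80) (η := 331 / 1000) (ζ := 2708 / 1000) (τ := 294 / 1000) (X0 := 80)
      (S1 := 17 / 10) (S2 := 1127 / 1000) (d1 := 1) (d2 := 1)
      (E1 := 73 / 10) (E2 := 99 / 10) (ex1 := 7 / 10000)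
      (ex2 := 1 / 10000)
      (c1 := 1 / 10) (c2 := 1 / 10)
      ht1 (by norm_num) le_rfl (by norm_num) (by norm_num) (by norm_num) hY1 hZ1 (by norm_num)
      (h.S1c ht1 hP (by norm_num) (by norm_num)) ?_
      (by norm_num) (by norm_num)
      (exp_le_one_iff.2 (by norm_num)) (exp_le_one_iff.2 (by norm_num))
      (by norm_num) (by norm_num)
      (ex_neg 7 (3 / 10) (by norm_num) (by norm_num) (by norm_num) (by norm_num))
      (ex_neg 9 (9 / 10) (by norm_num) (by norm_num) (by norm_num) (by norm_num))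
      (by norm_num) (by norm_num)).mono (by norm_num) hX2 (by norm_num)
    rw [Real.sqrt_le_left (by norm_num)]
    linarith
  · have hwx : 2 * π - t = (2 * π - t) / t * t := by field_simp
    obtain ⟨w, hwd⟩ : ∃ w, w = (2 * π - t) / t := ⟨_, rfl⟩
    rw [← hwd] at hwx
    have hw0 : 0 < w := by rw [hwd]; positivity
    have hw1 : 1 ≤ w := by
      rw [hwd, le_div_iff₀ ht0]
      linarith
    have hz : w * x * mm ρ = 5 / 4 * (2 * π - t) := by
      have h1 := h.tm
      rw [div_eq_iff hm0.ne'] at h1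
      rw [hwx]
      linear_combination (-(5 / 4) * w) * h1
    have hz1 : 3 / 4 ≤ w * x := by
      have : 3 / 4 * mm ρ ≤ w * x * mm ρ := by linarith
      exact le_of_mul_le_mul_right this hm0
    have hz2 : w * x ≤ 5 / 4 := by
      have : w * x * mm ρ ≤ 5 / 4 * mm ρ := by linarith
      exact le_of_mul_le_mul_right this hm0
    have hx5 : x ≤ 5 / 4 := by nlinarith
    rcases le_total x (3 / 4) with ha | ha
    · -- `X' = (9/16) r`
      have hY1 : 404 / 1000 * (9 / 16 * r) ≤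
          r * (SokalDz.rA ρ (2 * π - t) * (2 * π - t) ^ 2) := by
        rw [h.Yw hX hw0 hwx.symm hm, hX]
        have e : r * x ^ 2 * (w ^ 2 * (aa p - 8 / 25 *
            ((4 / 5 * (w * x)) / 3 + 5 * (4 / 5 * (w * x)) ^ 2 / 48))) =
            r * ((w * x) ^ 2 * (aa p - 8 / 25 *
            ((4 / 5 * (w * x)) / 3 + 5 * (4 / 5 * (w * x)) ^ 2 / 48))) := by ring
        rw [e]
        have ha0 := aa_pos hp0 h.p1
        generalize w * x = z at hz1 hz2
        have h2 : z ^ 2 * (12 / 25 - 8 / 25 * ((4 / 5 * z) / 3 + 5 * (4 / 5 * z) ^ 2 / 48)) ≤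
            z ^ 2 * (aa p - 8 / 25 * ((4 / 5 * z) / 3 + 5 * (4 / 5 * z) ^ 2 / 48)) :=
          mul_le_mul_of_nonneg_left (by linarith) (sq_nonneg z)
        have h3 : 404 / 1000 * (9 / 16) ≤
            z ^ 2 * (12 / 25 - 8 / 25 * ((4 / 5 * z) / 3 + 5 * (4 / 5 * z) ^ 2 / 48)) := by
          nlinarith [mul_nonneg (sub_nonneg.2 hz1) (sub_nonneg.2 hz2),
            mul_nonneg (mul_nonneg (sub_nonneg.2 hz1) (sub_nonneg.2 hz2)) (sq_nonneg z),
            mul_nonneg (mul_nonneg (sub_nonneg.2 hz1) (sub_nonneg.2 hz2)) (sub_nonneg.2 hz1)]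
        have h5 : r * (404 / 1000 * (9 / 16)) ≤ r * (z ^ 2 * (aa p - 8 / 25 *
            ((4 / 5 * z) / 3 + 5 * (4 / 5 * z) ^ 2 / 48))) :=
          mul_le_mul_of_nonneg_left (h3.trans h2) hr0.le
        linarith
      have hZ1 : 7719 / 1000 * (9 / 16 * r) ≤ r * (11 / 25 * (2 * π - t) ^ 2) := by
        have := h.phi2 ht1
        nlinarith
      have hy := h.y_le ht ha
      have hP := h.PPle (y1 := 7175 / 100000) (p1 := 963457 / 1000000) (P := 1086 / 1000)
        (by linarith) (by norm_num) (by norm_num) (by norm_num)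
      refine (h.imgX hr0 (X := 9 / 16 * r) (η := 404 / 1000) (ζ := 7719 / 1000) (τ := 383 / 1000)
        (X0 := 28)
        (S1 := 1572 / 1000) (S2 := 1043 / 1000) (d1 := 1) (d2 := 1)
        (E1 := 477 / 100) (E2 := 529 / 100) (ex1 := 85 / 10000)
        (ex2 := 505 / 100000)
        (c1 := 50 / 100) (c2 := 17 / 100)
        ht1 (by norm_num) (by linarith) (by norm_num) (by norm_num) (by norm_num) hY1 hZ1
        (by norm_num)
        (h.S1c ht1 hP (by norm_num) (by norm_num)) ?_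
        (by norm_num) (by norm_num)
        (exp_le_one_iff.2 (by norm_num)) (exp_le_one_iff.2 (by norm_num))
        (by norm_num) (by norm_num)
        (ex_neg 4 (77 / 100) (by norm_num) (by norm_num) (by norm_num) (by norm_num))
        (ex_neg 5 (29 / 100) (by norm_num) (by norm_num) (by norm_num) (by norm_num))
        (by norm_num) (by norm_num)).mono (by norm_num) ?_ (by norm_num)
      · rw [Real.sqrt_le_left (by norm_num)]
        linarith
      · rw [hX]
        have : x ^ 2 ≤ (3 / 4) ^ 2 := pow_le_pow_left₀ hx0.le ha 2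
        nlinarith
    · rcases le_total x (19 / 20) with hb | hb
      · have hy := h.y_le ht hb
        have hP := h.PPle (y1 := 1152 / 10000) (p1 := 9406 / 10000) (P := 11416 / 10000)
          (by linarith) (by norm_num) (by norm_num) (by norm_num)
        refine (h.imgX hr0 (η := 416 / 1000) (ζ := 481 / 100) (τ := 3828 / 10000)
          (X0 := 28)
          (S1 := 1612 / 1000) (S2 := 1069 / 1000) (d1 := 1) (d2 := 1)
          (E1 := 476 / 100) (E2 := 559 / 100) (ex1 := 86 / 10000)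
          (ex2 := 38 / 10000)
          (c1 := 52 / 100) (c2 := 13 / 100)
          ht1 (by norm_num) ?_ (by norm_num) (by norm_num) (by norm_num)
          (h.inY hr0 hX ht1 hm hb (by norm_num) (by norm_num))
          (h.inZ hr0 hX ht1 hb (by norm_num) (by norm_num)) (by norm_num)
          (h.S1c ht1 hP (by norm_num) (by norm_num)) ?_
          (by norm_num) (by norm_num)
          (exp_le_one_iff.2 (by norm_num)) (exp_le_one_iff.2 (by norm_num))
          (by norm_num) (by norm_num)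
          (ex_neg 4 (76 / 100) (by norm_num) (by norm_num) (by norm_num) (by norm_num))
          (ex_neg 5 (59 / 100) (by norm_num) (by norm_num) (by norm_num) (by norm_num))
          (by norm_num) (by norm_num)).mono (by norm_num) le_rfl (by norm_num)
        · have h1 : (3 / 4 : ℝ) ^ 2 ≤ x ^ 2 := pow_le_pow_left₀ (by norm_num) ha 2
          linarith
        · rw [Real.sqrt_le_left (by norm_num)]
          linarith
      · have hP := h.PPle (y1 := 2045 / 10000) (p1 := 8919 / 10000) (P := 1268 / 1000)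
          hy1 (by norm_num) (by norm_num) (by norm_num)
        refine (h.imgX hr0 (η := 403 / 1000) (ζ := 2779 / 1000) (τ := 3519 / 10000)
          (X0 := 45)
          (S1 := 17 / 10) (S2 := 1127 / 1000) (d1 := 1) (d2 := 1)
          (E1 := 64 / 10) (E2 := 84 / 10) (ex1 := 17 / 10000)
          (ex2 := 3 / 10000)
          (c1 := 2 / 10) (c2 := 1 / 10)
          ht1 (by norm_num) ?_ (by norm_num) (by norm_num) (by norm_num)
          (h.inY hr0 hX ht1 hm hx5 (by norm_num) (by norm_num))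
          (h.inZ hr0 hX ht1 hx5 (by norm_num) (by norm_num)) (by norm_num)
          (h.S1c ht1 hP (by norm_num) (by norm_num)) ?_
          (by norm_num) (by norm_num)
          (exp_le_one_iff.2 (by norm_num)) (exp_le_one_iff.2 (by norm_num))
          (by norm_num) (by norm_num)
          (ex_neg 6 (4 / 10) (by norm_num) (by norm_num) (by norm_num) (by norm_num))
          (ex_neg 8 (4 / 10) (by norm_num) (by norm_num) (by norm_num) (by norm_num))
          (by norm_num) (by norm_num)).mono (by norm_num) le_rfl (by norm_num)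
        · have h1 : (19 / 20 : ℝ) ^ 2 ≤ x ^ 2 := pow_le_pow_left₀ (by norm_num) hb 2
          linarith
        · rw [Real.sqrt_le_left (by norm_num)]
          linarith

end SokalDz
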