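import Pool.Agent.Lib_MP_af4de1_v3.CelInt

/-!
# `PRealDR`, `X ≤ 80`: the machine (helper48)

`s = 1/√R`, `p = ρ/√R`, `x = t/√R`, `y = s²`; `p` times the quadratic coefficients over `y` are `wR`, `wL`.
Two kinds of terms, `gM` (main) and `gT` (tail, front), and their bounds on a box.
-/

set_option autoImplicit false

namespace SokalDR

open Real SokalFN SokalCel

/-- main term -/
noncomputable def gM (N w y p b q X : ℝ) : ℝ :=
  √(N / (w * y + p * b)) * exp (-(8 / 9 * (X * (q * (w * b / (w * y + p * b))))))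
/-- tail term -/
noncomputable def gT (N w p q X : ℝ) : ℝ := √(N / p) * exp (-(8 / 9 * (X * (q * (w / p)))))

/-- upper bound of `17/100` -/
def kU : ℕ := 186916976722
/-- lower bound of `8/9` -/
def c89 : ℕ := 977343669134
/-- `1/2` -/
def hf : ℕ := 549755813888

theorem kU_ge : (17 : ℝ) / 100 ≤ fx kU := by unfold fx kU; norm_num
theorem c89_le : fx c89 ≤ 8 / 9 := by unfold fx c89; norm_num
theorem hf_eq : fx hf = 1 / 2 := by unfold fx hf; norm_num

/-- lower bound of `q w b/(w y + p b)` -/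
def vM (w0 y1 p1 b0 q0 : ℕ) : ℕ := mL q0 (dL SC (dU y1 b0 + dU p1 w0))

theorem vM_le {w y p b q : ℝ} {w0 y1 p1 b0 q0 : ℕ} (hw : fx w0 ≤ w) (hw0 : 0 < w0) (hb : fx b0 ≤ b)
    (hb0 : 0 < b0) (hy : 0 < y) (hy1 : y ≤ fx y1) (hp : 0 < p) (hp1 : p ≤ fx p1) (hq : fx q0 ≤ q) :
    fx (vM w0 y1 p1 b0 q0) ≤ q * (w * b / (w * y + p * b)) := by
  have w1 : 0 < w := (fx_pos hw0).trans_le hw
  have b1 : 0 < b := (fx_pos hb0).trans_le hb
  have e : w * b / (w * y + p * b) = 1 / (y / b + p / w) := by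
    field_simp
  rw [e]
  have h1 : y / b + p / w ≤ fx (dU y1 b0 + dU p1 w0) :=
    addU (divU hy1 hb hb0) (divU hp1 hw hw0)
  exact mulL hq (divL (by rw [fx_one]) h1 (by positivity))

/-- the bound of `gM e^(κX)` -/
def uM (N1 w0 y0 p0 b0 V X0 : ℕ) : ℕ :=
  mU (sqU (dU N1 (mL w0 y0 + mL p0 b0))) (eN (mL (mL V c89 - kU) X0))

theorem uM_le {N w y p b q X : ℝ} {N1 w0 y0 p0 b0 V X0 : ℕ} (hN0 : 0 ≤ N) (hN : N ≤ fx N1)
    (hw : fx w0 ≤ w) (hy : fx y0 ≤ y) (hp : fx p0 ≤ p) (hb : fx b0 ≤ b) (hD : 0 < mL w0 y0 + mL p0 b0)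
    (hV : fx V ≤ q * (w * b / (w * y + p * b))) (hk : kU ≤ mL V c89) (hX : fx X0 ≤ X) :
    gM N w y p b q X ≤ fx (uM N1 w0 y0 p0 b0 V X0) * exp (-(17 / 100 * X)) := by
  have hX0 : 0 ≤ X := (fx_nonneg _).trans hX
  obtain ⟨v, hv⟩ : ∃ v, v = q * (w * b / (w * y + p * b)) := ⟨_, rfl⟩
  have h1 : fx (mL w0 y0 + mL p0 b0) ≤ w * y + p * b := addL (mulL hw hy) (mulL hp hb)
  have h2 : √(N / (w * y + p * b)) ≤ fx (sqU (dU N1 (mL w0 y0 + mL p0 b0))) := sqrtU (divU hN h1 hD)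
  have h3 : fx (mL V c89 - kU) ≤ v * (8 / 9) - 17 / 100 :=
    subL (mulL (by rw [hv]; exact hV) c89_le) kU_ge hk
  have h4 : exp (-((v * (8 / 9) - 17 / 100) * X)) ≤ fx (eN (mL (mL V c89 - kU) X0)) :=
    expNegU (mulL h3 hX)
  have h5 : exp (-(8 / 9 * (X * v))) = exp (-((v * (8 / 9) - 17 / 100) * X)) * exp (-(17 / 100 * X)) := by
    rw [← exp_add]; congr 1; ring
  unfold gM uM
  rw [← hv, h5, ← mul_assoc]
  exact mul_le_mul_of_nonneg_right (mulU h2 h4 (exp_pos _).le) (exp_pos _).le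

/-- the bound of `gT e^(κX)` -/
def uT (N1 w0 p1 q0 X0 : ℕ) : ℕ :=
  mU (sqU N1) (eN (dL (mL (mL (mL q0 w0) c89) X0 - hf) p1 + hf - mU kU X0))

/-- the conditions -/
def cT' (w0 p1 q0 X0 : ℕ) : Bool :=
  Nat.ble hf (mL (mL (mL q0 w0) c89) X0) && Nat.ble (mU kU X0) (dL (mL (mL (mL q0 w0) c89) X0 - hf) p1 + hf) &&
    Nat.ble kU (dL (mL (mL q0 w0) c89) p1)

theorem uT_le {N w p q X : ℝ} {N1 w0 p1 q0 X0 : ℕ} (hN0 : 0 ≤ N) (hN : N ≤ fx N1)
    (hw : fx w0 ≤ w) (hp0 : 0 < p) (hp : p ≤ fx p1) (hq : fx q0 ≤ q) (hX : fx X0 ≤ X)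
    (h : cT' w0 p1 q0 X0 = true) :
    gT N w p q X ≤ fx (uT N1 w0 p1 q0 X0) * exp (-(17 / 100 * X)) := by
  unfold cT' at h
  simp only [Bool.and_eq_true, Nat.ble_eq] at h
  obtain ⟨⟨a1, a2⟩, a3⟩ := h
  have hX0 : 0 ≤ fx X0 := fx_nonneg _
  have hm := mulL (mulL hq hw) c89_le
  obtain ⟨z, hz⟩ : ∃ z, z = q * w * (8 / 9) := ⟨_, rfl⟩
  rw [← hz] at hm
  have h1 : 17 / 100 ≤ z / p := kU_ge.trans ((fx_mono a3).trans (divL hm hp hp0))
  have h2 : fx (mL (mL (mL q0 w0) c89) X0) ≤ z * fx X0 := mulL hm le_rfl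
  have h3 : fx (mL (mL (mL q0 w0) c89) X0 - hf) ≤ z * fx X0 - 1 / 2 := subL h2 hf_eq.ge a1
  have h4 : fx (dL (mL (mL (mL q0 w0) c89) X0 - hf) p1 + hf) ≤ (z * fx X0 - 1 / 2) / p + 1 / 2 :=
    addL (divL h3 hp hp0) hf_eq.le
  have h5 : 17 / 100 * fx X0 ≤ fx (mU kU X0) := mulU kU_ge le_rfl hX0
  have h6 := subL h4 h5 a2
  have h7 : exp (-((z * fx X0 - 1 / 2) / p + 1 / 2 - 17 / 100 * fx X0)) ≤
      fx (eN (dL (mL (mL (mL q0 w0) c89) X0 - hf) p1 + hf - mU kU X0)) := expNegU h6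
  have h8 : √N ≤ fx (sqU N1) := sqrtU hN
  have h9 : √(1 / p) ≤ exp ((1 / p - 1) / 2) := by
    rw [Real.sqrt_le_left (exp_pos _).le, ← exp_nat_mul]
    have := Real.add_one_le_exp (1 / p - 1)
    refine le_trans (by linarith) (this.trans (le_of_eq ?_))
    congr 1
    push_cast
    ring
  have h10 : √(N / p) ≤ √N * exp ((1 / p - 1) / 2) := by
    rw [div_eq_mul_one_div, Real.sqrt_mul hN0]
    exact mul_le_mul_of_nonneg_left h9 (Real.sqrt_nonneg _)
  have h11 : exp ((1 / p - 1) / 2) * exp (-(8 / 9 * (X * (q * (w / p))))) ≤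
      exp (-((z * fx X0 - 1 / 2) / p + 1 / 2 - 17 / 100 * fx X0)) * exp (-(17 / 100 * X)) := by
    rw [← exp_add, ← exp_add, exp_le_exp]
    have e1 : 8 / 9 * (X * (q * (w / p))) = z / p * X := by rw [hz]; field_simp
    have e2 : (z * fx X0 - 1 / 2) / p = z / p * fx X0 - 1 / p / 2 := by field_simp
    rw [e1, e2]
    nlinarith [mul_nonneg (sub_nonneg.2 h1) (sub_nonneg.2 hX)]
  unfold gT uT
  calc √(N / p) * exp (-(8 / 9 * (X * (q * (w / p))))) ≤
      √N * exp ((1 / p - 1) / 2) * exp (-(8 / 9 * (X * (q * (w / p))))) :=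
        mul_le_mul_of_nonneg_right h10 (exp_pos _).le
    _ = √N * (exp ((1 / p - 1) / 2) * exp (-(8 / 9 * (X * (q * (w / p)))))) := by ring
    _ ≤ √N * (exp (-((z * fx X0 - 1 / 2) / p + 1 / 2 - 17 / 100 * fx X0)) * exp (-(17 / 100 * X))) :=
        mul_le_mul_of_nonneg_left h11 (Real.sqrt_nonneg _)
    _ = √N * exp (-((z * fx X0 - 1 / 2) / p + 1 / 2 - 17 / 100 * fx X0)) * exp (-(17 / 100 * X)) := by
        ring
    _ ≤ _ := mul_le_mul_of_nonneg_right (mulU h8 h7 (exp_pos _).le) (exp_pos _).le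

/-! ### the weight constant -/

/-- `HC` in the variable `x` (`t/m = 4x/5`) -/
def HCx (x C : ℝ) : Prop := 14 / 5 ≤ C ∨ ∃ T : ℝ, 4 / 5 * x ≤ T ∧ T ≤ 1 ∧ 1 ≤ C ∧
  (1 + T / 2 + 2 * T ^ 2 / 9) ^ 2 ≤ C * (5 / 2 - (1 + T / 3 + 5 * T ^ 2 / 48))

theorem HCx.mono {x x' C : ℝ} (h : HCx x' C) (hx : x ≤ x') : HCx x C := by
  rcases h with h | ⟨T, h1, h2⟩
  · exact Or.inl h
  · exact Or.inr ⟨T, by linarith, h2⟩

/-- upper bound of `5 C + 7695/10000` -/
def kC (x1 : ℕ) : ℕ :=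
  bif Nat.ble x1 725677674332 then 8322753266451 else
  bif Nat.ble x1 769658139443 then 8707582336173 else
  bif Nat.ble x1 824633720832 then 9202362568672 else
  bif Nat.ble x1 962072674304 then 10521776522003 else 16239236986438

theorem kC_spec (x1 : ℕ) : ∃ C : ℝ, HCx (fx x1) C ∧ 0 < C ∧ 5 * C + 7695 / 10000 ≤ fx (kC x1) := by
  unfold kC
  cases h1 : Nat.ble x1 725677674332 with
  | true =>
    rw [Nat.ble_eq] at h1
    refine ⟨34 / 25, Or.inr ⟨66 / 125, ?_, by norm_num, by norm_num, by norm_num⟩, by norm_num, ?_⟩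
    · have := fx_mono h1
      have e : fx 725677674332 ≤ 33 / 50 := by unfold fx; norm_num
      linarith
    · simp only [cond_true]
      unfold fx
      norm_num
  | false =>
    simp only [cond_false]
    cases h2 : Nat.ble x1 769658139443 with
    | true =>
      rw [Nat.ble_eq] at h2
      refine ⟨143 / 100, Or.inr ⟨14 / 25, ?_, by norm_num, by norm_num, by norm_num⟩, by norm_num, ?_⟩
      · have := fx_mono h2
        have e : fx 769658139443 ≤ 7 / 10 := by unfold fx; norm_num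
        linarith
      · simp only [cond_true]
        unfold fx
        norm_num
    | false =>
      simp only [cond_false]
      cases h3 : Nat.ble x1 824633720832 with
      | true =>
        rw [Nat.ble_eq] at h3
        refine ⟨38 / 25, Or.inr ⟨3 / 5, ?_, by norm_num, by norm_num, by norm_num⟩, by norm_num, ?_⟩
        · have := fx_mono h3
          have e : fx 824633720832 ≤ 3 / 4 := by unfold fx; norm_num
          linarith
        · simp only [cond_true]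
          unfold fx
          norm_num
      | false =>
        simp only [cond_false]
        cases h4 : Nat.ble x1 962072674304 with
        | true =>
          rw [Nat.ble_eq] at h4
          refine ⟨44 / 25, Or.inr ⟨7 / 10, ?_, by norm_num, by norm_num, by norm_num⟩, by norm_num, ?_⟩
          · have := fx_mono h4
            have e : fx 962072674304 ≤ 7 / 8 := by unfold fx; norm_num
            linarith
          · simp only [cond_true]
            unfold fx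
            norm_num
        | false =>
          refine ⟨14 / 5, Or.inl le_rfl, by norm_num, ?_⟩
          simp only [cond_false]
          unfold fx
          norm_num

end SokalDR
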