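import Pool.Agent.Lib_MP_af4de1_v3.DzRX0

/-!
# `PRealDR`, `X ≤ 80`: the test of a box, its soundness, and the run (helper48)
-/

set_option autoImplicit false

namespace SokalDR

open Real SokalFN SokalCel

/-! ### the test -/

/-- lower bound of `p` times the coefficient, right -/
def fR (p1 x1 : ℕ) : ℕ :=
  mL (879609302220 - mU (mU 351843720889 p1) (SC + mU (min SC (mU x1 879609302221)) 366503875926 +
    mU (mU (min SC (mU x1 879609302221)) (min SC (mU x1 879609302221))) 114532461227))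
    (dL SC (max SC (mU x1 879609302221)))
/-- lower bound of `p` times the coefficient, left -/
def fL (p1 xh : ℕ) : ℕ :=
  mL (879609302220 - mU 351843720889 p1) (dL SC (max SC (mU xh 879609302221)))
/-- lower bound of `B'` -/
def fB (xh : ℕ) : ℕ := mL 483785116221 (eNL (min SC (mU xh 879609302221)))
/-- lower bound of `ψ = (x'/x)²` -/
def fQ (s0 x1 : ℕ) : ℕ :=
  max SC (mL (dL (mL s0 6908231557316 - x1) x1) (dL (mL s0 6908231557316 - x1) x1))

/-- conditions of a main term -/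
def okM (w0 y0 p0 b0 V X0 : ℕ) : Bool :=
  Nat.blt 0 w0 && Nat.blt 0 b0 && Nat.blt 0 (mL w0 y0 + mL p0 b0) && Nat.ble kU (mL V c89) &&
    Nat.ble 9070970929152 (mL V X0)

/-- the sum -/
def smY (y0 y1 p0 p1 N1 X0 wr wl bl q0 kc Vr Vl : ℕ) (fr : Bool) : ℕ :=
  mU kc (uM N1 wr y0 p0 483785116221 Vr X0) + mU 13744994858828 (uT N1 wr p1 SC X0) +
    mU 5816416510936 (uM N1 wl y0 p0 bl Vl X0) + mU 8194660161815 (uT N1 wl p1 q0 X0) +
    (bif fr then 0 else mU 2913705813607 (uT (dU N1 wl) 483785116221 y1 SC X0))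

/-- the test, data given -/
def okY (y0 y1 p0 p1 N1 X0 wr wl bl q0 kc Vr Vl : ℕ) (fr : Bool) : Bool :=
  okM wr y0 p0 483785116221 Vr X0 && okM wl y0 p0 bl Vl X0 && cT' wr p1 SC X0 && cT' wl p1 q0 X0 &&
    (fr || cT' 483785116221 y1 SC X0) &&
    Nat.ble (smY y0 y1 p0 p1 N1 X0 wr wl bl q0 kc Vr Vl fr) 427490120879

/-- the test, some data given -/
def okZ (y0 y1 p0 p1 X0 xh q0 kc : ℕ) (x1 : ℕ) (fr : Bool) : Bool :=
  okY y0 y1 p0 p1 (SC + mU 703687441777 y1) X0 (fR p1 x1) (fL p1 xh) (fB xh) q0 kc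
    (vM (fR p1 x1) y1 p1 483785116221 SC) (vM (fL p1 xh) y1 p1 (fB xh) q0) fr

/-- the test of a box -/
def okX (s0 s1 x0 x1 _z0 _z1 : ℕ) : Bool :=
  Nat.blt (mU s1 3454225729822) x0 ||
    okZ (mL s0 s0) (min SC (mU s1 s1)) (sqL (SC - min SC (mU s1 s1))) (min SC (sqU (SC - mL s0 s0)))
      (max 23749451159961 (mL 54865630226022 (mL x0 x0))) (mU s1 6908451459643 - x0) (fQ s0 x1) (kC x1) x1
      (Nat.ble (mU s1 1319413953332) x0)

/-! ### soundness -/

/-- `1 + 16/25 y` -/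
noncomputable def NN (s : ℝ) : ℝ := 1 + 16 / 25 * s ^ 2
/-- `p` times the coefficient, right -/
noncomputable def wR (p x : ℝ) : ℝ :=
  (4 / 5 - 8 / 25 * p * (1 + min 1 (4 / 5 * x) / 3 + 5 * min 1 (4 / 5 * x) ^ 2 / 48)) *
    (1 / max 1 (4 / 5 * x))
/-- `p` times the coefficient, left -/
noncomputable def wL (p x : ℝ) : ℝ := (4 / 5 - 8 / 25 * p) * (1 / max 1 (4 / 5 * x))
/-- `B'` -/
noncomputable def bL' (x : ℝ) : ℝ := 11 / 25 * exp (-(min 1 (4 / 5 * x)))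

open scoped Classical in
/-- the sum of the five terms -/
noncomputable def S5 (C N w w' y p b ψ X : ℝ) (fr : Prop) : ℝ :=
  (5 * C + 7695 / 10000) * gM N w y p (11 / 25) 1 X + 12501 / 1000 * gT N w p 1 X +
    529 / 100 * gM N w' y p b ψ X + 7453 / 1000 * gT N w' p ψ X +
    (if fr then 265 / 100 * gT (N / w') (11 / 25) y 1 X else 0)

/-- the inequality at one point -/
def PX (s x : ℝ) : Prop := ∀ p X : ℝ, 0 < s → 0 < p → p ^ 2 + s ^ 2 = 1 → 0 < x → x ≤ π * s →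
  108 / 5 ≤ X → 499 / 10 * x ^ 2 ≤ X → ∃ C : ℝ, HCx x C ∧ 0 < C ∧
    33 / 4 ≤ X * (1 * (wR p x * (11 / 25) / (wR p x * s ^ 2 + p * (11 / 25)))) ∧
    33 / 4 ≤ X * (((2 * π * s - x) / x) ^ 2 * (wL p (2 * π * s - x) * bL' (2 * π * s - x) /
      (wL p (2 * π * s - x) * s ^ 2 + p * bL' (2 * π * s - x)))) ∧
    S5 C (NN s) (wR p x) (wL p (2 * π * s - x)) (s ^ 2) p (bL' (2 * π * s - x))
      (((2 * π * s - x) / x) ^ 2) X (x < 6 / 5 * s) ≤ 243 / 625 * exp (-(17 / 100 * X))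

theorem c45U : (4 / 5 : ℝ) ≤ fx 879609302221 := by unfold fx; norm_num
theorem c45L : fx 879609302220 ≤ (4 / 5 : ℝ) := by unfold fx; norm_num
theorem c825U : (8 / 25 : ℝ) ≤ fx 351843720889 := by unfold fx; norm_num
theorem c13U : (1 / 3 : ℝ) ≤ fx 366503875926 := by unfold fx; norm_num
theorem c548U : (5 / 48 : ℝ) ≤ fx 114532461227 := by unfold fx; norm_num
theorem c1125L : fx 483785116221 ≤ (11 / 25 : ℝ) := by unfold fx; norm_num

theorem fR_le {p x : ℝ} {p1 x1 : ℕ} (hp0 : 0 < p) (hp : p ≤ fx p1) (hx0 : 0 < x) (hx : x ≤ fx x1)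
    (h0 : 0 < fR p1 x1) : fx (fR p1 x1) ≤ wR p x := by
  have h1 : 4 / 5 * x ≤ fx (mU x1 879609302221) := by
    rw [mul_comm]; exact mulU hx c45U (by norm_num)
  have hT : min 1 (4 / 5 * x) ≤ fx (min SC (mU x1 879609302221)) := minU (by rw [fx_one]) h1
  have hT0 : 0 ≤ min 1 (4 / 5 * x) := le_min zero_le_one (by positivity)
  have hM : max 1 (4 / 5 * x) ≤ fx (max SC (mU x1 879609302221)) := maxU (by rw [fx_one]) h1
  have hM0 : 0 < max 1 (4 / 5 * x) := lt_max_of_lt_left one_pos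
  have h2 : fx (dL SC (max SC (mU x1 879609302221))) ≤ 1 / max 1 (4 / 5 * x) :=
    divL (by rw [fx_one]) hM hM0
  have h3 : 1 + min 1 (4 / 5 * x) / 3 + 5 * min 1 (4 / 5 * x) ^ 2 / 48 ≤
      fx (SC + mU (min SC (mU x1 879609302221)) 366503875926 +
        mU (mU (min SC (mU x1 879609302221)) (min SC (mU x1 879609302221))) 114532461227) := by
    refine addU (addU (by rw [fx_one]) ?_) ?_
    · rw [div_eq_mul_one_div]
      exact mulU hT c13U (by norm_num)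
    · have := mulU (mulU hT hT hT0) c548U (by norm_num)
      refine le_trans (le_of_eq ?_) this
      ring
  have h30 : 0 ≤ 1 + min 1 (4 / 5 * x) / 3 + 5 * min 1 (4 / 5 * x) ^ 2 / 48 := by positivity
  have h4 := mulU (mulU c825U hp hp0.le) h3 h30
  unfold fR at h0 ⊢
  unfold wR
  refine mulL (subL c45L h4 ?_) h2
  by_contra hc
  rw [Nat.sub_eq_zero_of_le (by omega)] at h0
  simp [mL] at h0

theorem fL_le {p x : ℝ} {p1 x1 : ℕ} (hp0 : 0 < p) (hp : p ≤ fx p1) (hx : x ≤ fx x1)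
    (h0 : 0 < fL p1 x1) : fx (fL p1 x1) ≤ wL p x := by
  have h1 : 4 / 5 * x ≤ fx (mU x1 879609302221) := by
    rw [mul_comm]; exact mulU hx c45U (by norm_num)
  have hM : max 1 (4 / 5 * x) ≤ fx (max SC (mU x1 879609302221)) := maxU (by rw [fx_one]) h1
  have hM0 : 0 < max 1 (4 / 5 * x) := lt_max_of_lt_left one_pos
  have h2 : fx (dL SC (max SC (mU x1 879609302221))) ≤ 1 / max 1 (4 / 5 * x) :=
    divL (by rw [fx_one]) hM hM0
  have h4 := mulU c825U hp hp0.le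
  unfold fL at h0 ⊢
  unfold wL
  refine mulL (subL c45L h4 ?_) h2
  by_contra hc
  rw [Nat.sub_eq_zero_of_le (by omega)] at h0
  simp [mL] at h0

theorem fB_le {x : ℝ} {xh : ℕ} (hx : x ≤ fx xh) : fx (fB xh) ≤ bL' x := by
  have h1 : 4 / 5 * x ≤ fx (mU xh 879609302221) := by
    rw [mul_comm]; exact mulU hx c45U (by norm_num)
  have hT : min 1 (4 / 5 * x) ≤ fx (min SC (mU xh 879609302221)) := minU (by rw [fx_one]) h1
  exact mulL c1125L (eNL_le hT)

theorem fQ_le {s x : ℝ} {s0 x1 : ℕ} (hs : fx s0 ≤ s) (hs0 : 0 < s) (hx0 : 0 < x) (hx : x ≤ fx x1)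
    (hxs : x ≤ π * s) : fx (fQ s0 x1) ≤ ((2 * π * s - x) / x) ^ 2 := by
  have h1 : 1 ≤ (2 * π * s - x) / x := by
    rw [one_le_div hx0]
    linarith
  have h2 : fx (mL s0 6908231557316 - x1) ≤ 2 * π * s - x := by
    rcases le_total x1 (mL s0 6908231557316) with h | h
    · refine subL ?_ hx h
      rw [mul_comm]
      refine mulL hs ?_
      have := Real.pi_gt_d4
      unfold fx
      norm_num at this ⊢
      linarith
    · rw [Nat.sub_eq_zero_of_le h, fx_zero]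
      have := mul_pos Real.pi_pos hs0
      linarith
  have h3 := divL h2 hx hx0
  unfold fQ
  rcases max_choice SC (mL (dL (mL s0 6908231557316 - x1) x1) (dL (mL s0 6908231557316 - x1) x1)) with
    e | e
  · rw [e, fx_one]
    nlinarith
  · rw [e, pow_two]
    exact mulL h3 h3

theorem bltI {a b : ℕ} : Nat.blt a b = true ↔ a < b := by
  simp [Nat.blt, Nat.ble_eq]

theorem okM_spec {w y p b q X : ℝ} {w0 y0 p0 b0 V X0 : ℕ} (h : okM w0 y0 p0 b0 V X0 = true)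
    (hV : fx V ≤ q * (w * b / (w * y + p * b))) (hX : fx X0 ≤ X) :
    0 < w0 ∧ 0 < b0 ∧ 0 < mL w0 y0 + mL p0 b0 ∧ kU ≤ mL V c89 ∧
      33 / 4 ≤ X * (q * (w * b / (w * y + p * b))) := by
  unfold okM at h
  simp only [Bool.and_eq_true, bltI, Nat.ble_eq] at h
  obtain ⟨⟨⟨⟨a1, a2⟩, a3⟩, a4⟩, a5⟩ := h
  refine ⟨a1, a2, a3, a4, ?_⟩
  have h1 := mulL hV hX
  have h2 : (33 / 4 : ℝ) ≤ fx 9070970929152 := by unfold fx; norm_num
  have h3 := fx_mono a5
  rw [mul_comm] at h1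
  linarith

end SokalDR
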