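import Pool.Agent.Lib_MP_af4de1_v3.DzRX1

/-!
# `PRealDR`, `X ≤ 80`: the inequality at every point (helper48)
-/

set_option autoImplicit false

namespace SokalDR

open Real SokalFN SokalCel

theorem gM_nonneg (N w y p b q X : ℝ) : 0 ≤ gM N w y p b q X := by unfold gM; positivity
theorem gT_nonneg (N w p q X : ℝ) : 0 ≤ gT N w p q X := by unfold gT; positivity

/-- one term of the sum -/
theorem term_le {c g e : ℝ} {a u : ℕ} (hc : c ≤ fx a) (hg : g ≤ fx u * e) (hg0 : 0 ≤ g) (he : 0 ≤ e) :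
    c * g ≤ fx (mU a u) * e := by
  calc c * g ≤ fx a * (fx u * e) := mul_le_mul hc hg hg0 (fx_nonneg _)
    _ = (fx a * fx u) * e := by ring
    _ ≤ fx (mU a u) * e := mul_le_mul_of_nonneg_right (le_mU a u) he

open scoped Classical in
theorem okY_sound {C N w w' y p b ψ X : ℝ} {fr : Prop} {y0 y1 p0 p1 N1 X0 wr wl bl q0 kc Vr Vl : ℕ}
    {f : Bool} (h : okY y0 y1 p0 p1 N1 X0 wr wl bl q0 kc Vr Vl f = true) (hN0 : 0 ≤ N) (hN : N ≤ fx N1)
    (hw : 0 < wr → fx wr ≤ w) (hw' : 0 < wl → fx wl ≤ w') (hb : fx bl ≤ b) (hy0 : 0 < y) (hy : fx y0 ≤ y)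
    (hy1 : y ≤ fx y1) (hp0 : 0 < p) (hp : fx p0 ≤ p) (hp1 : p ≤ fx p1) (hψ : fx q0 ≤ ψ) (hX : fx X0 ≤ X)
    (hVr : 0 < wr → fx Vr ≤ 1 * (w * (11 / 25) / (w * y + p * (11 / 25))))
    (hVl : 0 < wl → 0 < bl → fx Vl ≤ ψ * (w' * b / (w' * y + p * b))) (hC : 5 * C + 7695 / 10000 ≤ fx kc)
    (hf : f = true → ¬fr) :
    33 / 4 ≤ X * (1 * (w * (11 / 25) / (w * y + p * (11 / 25)))) ∧
      33 / 4 ≤ X * (ψ * (w' * b / (w' * y + p * b))) ∧
      S5 C N w w' y p b ψ X fr ≤ 243 / 625 * exp (-(17 / 100 * X)) := by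
  unfold okY at h
  simp only [Bool.and_eq_true, Bool.or_eq_true, Nat.ble_eq] at h
  obtain ⟨⟨⟨⟨⟨h1, h2⟩, h3⟩, h4⟩, h5⟩, h6⟩ := h
  have hwr : 0 < wr := by
    unfold okM at h1
    simp only [Bool.and_eq_true, bltI] at h1
    exact h1.1.1.1.1
  have hwl : 0 < wl := by
    unfold okM at h2
    simp only [Bool.and_eq_true, bltI] at h2
    exact h2.1.1.1.1
  have hbl : 0 < bl := by
    unfold okM at h2
    simp only [Bool.and_eq_true, bltI] at h2
    exact h2.1.1.1.2
  obtain ⟨_, _, a3, a4, a5⟩ := okM_spec h1 (hVr hwr) hX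
  obtain ⟨_, _, b3, b4, b5⟩ := okM_spec h2 (hVl hwl hbl) hX
  refine ⟨a5, b5, ?_⟩
  have hE : 0 ≤ exp (-(17 / 100 * X)) := (exp_pos _).le
  have one_ : fx SC ≤ (1 : ℝ) := by rw [fx_one]
  have t1 := uM_le hN0 hN (hw hwr) hy hp c1125L a3 (hVr hwr) a4 hX
  have t2 := uT_le hN0 hN (hw hwr) hp0 hp1 one_ hX h3
  have t3 := uM_le hN0 hN (hw' hwl) hy hp hb b3 (hVl hwl hbl) b4 hX
  have t4 := uT_le hN0 hN (hw' hwl) hp0 hp1 hψ hX h4
  have e1 := term_le hC t1 (gM_nonneg _ _ _ _ _ _ _) hE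
  have e2 := term_le (c := 12501 / 1000) (a := 13744994858828) (by unfold fx; norm_num) t2
    (gT_nonneg _ _ _ _ _) hE
  have e3 := term_le (c := 529 / 100) (a := 5816416510936) (by unfold fx; norm_num) t3
    (gM_nonneg _ _ _ _ _ _ _) hE
  have e4 := term_le (c := 7453 / 1000) (a := 8194660161815) (by unfold fx; norm_num) t4
    (gT_nonneg _ _ _ _ _) hE
  have e5 : (if fr then 265 / 100 * gT (N / w') (11 / 25) y 1 X else 0) ≤
      fx (bif f then 0 else mU 2913705813607 (uT (dU N1 wl) 483785116221 y1 SC X0)) *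
        exp (-(17 / 100 * X)) := by
    cases f with
    | true =>
      rw [if_neg (hf rfl)]
      exact mul_nonneg (fx_nonneg _) hE
    | false =>
      simp only [cond_false]
      split_ifs with hfr
      · have hw0 : 0 < w' := (fx_pos hwl).trans_le (hw' hwl)
        have h5' : cT' 483785116221 y1 SC X0 = true := by
          rcases h5 with h5 | h5
          · exact absurd h5 (by decide)
          · exact h5
        have t5 := uT_le (N := N / w') (by positivity) (divU hN (hw' hwl) hwl) c1125L hy0 hy1 one_ hX h5'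
        exact term_le (by unfold fx; norm_num) t5 (gT_nonneg _ _ _ _ _) hE
      · exact mul_nonneg (fx_nonneg _) hE
  have h7 := fx_mono h6
  have h8 : fx 427490120879 ≤ 243 / 625 := by unfold fx; norm_num
  unfold S5
  unfold smY at h7
  rw [fx_add, fx_add, fx_add, fx_add] at h7
  calc _ ≤ fx (mU kc (uM N1 wr y0 p0 483785116221 Vr X0)) * exp (-(17 / 100 * X)) +
        fx (mU 13744994858828 (uT N1 wr p1 SC X0)) * exp (-(17 / 100 * X)) +
        fx (mU 5816416510936 (uM N1 wl y0 p0 bl Vl X0)) * exp (-(17 / 100 * X)) +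
        fx (mU 8194660161815 (uT N1 wl p1 q0 X0)) * exp (-(17 / 100 * X)) +
        fx (bif f then 0 else mU 2913705813607 (uT (dU N1 wl) 483785116221 y1 SC X0)) *
          exp (-(17 / 100 * X)) := add_le_add (add_le_add (add_le_add (add_le_add e1 e2) e3) e4) e5
    _ = (fx (mU kc (uM N1 wr y0 p0 483785116221 Vr X0)) +
        fx (mU 13744994858828 (uT N1 wr p1 SC X0)) +
        fx (mU 5816416510936 (uM N1 wl y0 p0 bl Vl X0)) +
        fx (mU 8194660161815 (uT N1 wl p1 q0 X0)) +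
        fx (bif f then 0 else mU 2913705813607 (uT (dU N1 wl) 483785116221 y1 SC X0))) *
          exp (-(17 / 100 * X)) := by ring
    _ ≤ 243 / 625 * exp (-(17 / 100 * X)) := mul_le_mul_of_nonneg_right (h7.trans h8) hE

theorem okX_sound (s0 s1 x0 x1 z0 z1 : ℕ) (h : okX s0 s1 x0 x1 z0 z1 = true) (s x z : ℝ)
    (hs0 : fx s0 ≤ s) (hs1 : s ≤ fx s1) (hx0 : fx x0 ≤ x) (hx1 : x ≤ fx x1) (_ : fx z0 ≤ z)
    (_ : z ≤ fx z1) : PX s x := by
  intro p X hs hp hps hx hxs hX1 hX2
  unfold okX at h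
  rw [Bool.or_eq_true, bltI] at h
  rcases h with h | h
  · exfalso
    have h1 : s * π ≤ fx (mU s1 3454225729822) := mulU hs1 (by
      have := Real.pi_lt_d4
      unfold fx
      norm_num at this ⊢
      linarith) Real.pi_pos.le
    have h2 : fx (mU s1 3454225729822) < fx x0 := by
      unfold fx
      have : ((mU s1 3454225729822 : ℕ) : ℝ) < (x0 : ℕ) := by exact_mod_cast h
      gcongr
    linarith
  · have hp1 : p < 1 := by nlinarith
    have hs1' : s < 1 := by nlinarith
    have y0 : fx (mL s0 s0) ≤ s ^ 2 := by rw [pow_two]; exact mulL hs0 hs0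
    have y1 : s ^ 2 ≤ fx (min SC (mU s1 s1)) := by
      refine le_trans (le_of_eq (min_eq_right (by nlinarith)).symm)
        (minU (a := 1) (by rw [fx_one]) ?_)
      rw [pow_two]
      exact mulU hs1 hs1 hs.le
    have ep : p = √(1 - s ^ 2) := by
      rw [show 1 - s ^ 2 = p ^ 2 by linarith, Real.sqrt_sq hp.le]
    have p0 : fx (sqL (SC - min SC (mU s1 s1))) ≤ p := by
      rw [ep]
      exact sqrtL (subL (by rw [fx_one]) y1 (min_le_left _ _))
    have p1 : p ≤ fx (min SC (sqU (SC - mL s0 s0))) := by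
      refine le_trans (le_of_eq (min_eq_right hp1.le).symm) (minU (a := 1) (by rw [fx_one]) ?_)
      rw [ep]
      exact sqrtU (subU (by rw [fx_one]) y0)
    have hXX : fx (max 23749451159961 (mL 54865630226022 (mL x0 x0))) ≤ X := by
      rcases max_choice 23749451159961 (mL 54865630226022 (mL x0 x0)) with e | e
      · rw [e]
        refine le_trans ?_ hX1
        unfold fx
        norm_num
      · rw [e]
        refine le_trans (mulL (a := 499 / 10) ?_ (mulL hx0 hx0)) ?_
        · unfold fx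
          norm_num
        · rw [← pow_two]
          exact hX2
    have hxh : 2 * π * s - x ≤ fx (mU s1 6908451459643 - x0) := by
      refine subU ?_ hx0
      rw [mul_comm]
      refine mulU hs1 ?_ (by positivity)
      have := Real.pi_lt_d4
      unfold fx
      norm_num at this ⊢
      linarith
    have hxx : 0 < 2 * π * s - x := by
      have := mul_pos Real.pi_pos hs
      linarith
    have hN : NN s ≤ fx (SC + mU 703687441777 (min SC (mU s1 s1))) := by
      unfold NN
      refine addU (by rw [fx_one]) (mulU ?_ y1 (by positivity))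
      unfold fx
      norm_num
    have hN0 : 0 ≤ NN s := by unfold NN; positivity
    obtain ⟨C, hC, hC0, hCk⟩ := kC_spec x1
    unfold okZ at h
    refine ⟨C, hC.mono hx1, hC0, ?_⟩
    have hfr : Nat.ble (mU s1 1319413953332) x0 = true → ¬x < 6 / 5 * s := by
      intro h1 h2
      rw [Nat.ble_eq] at h1
      have h3 : s * (6 / 5) ≤ fx (mU s1 1319413953332) := mulU hs1 (by unfold fx; norm_num) (by norm_num)
      have h4 := fx_mono h1
      linarith
    have hwR := fR_le hp p1 hx hx1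
    have hwL := fL_le hp p1 hxh
    refine okY_sound h hN0 hN hwR hwL (fB_le hxh) (by positivity) y0 y1 hp p0 p1
      (fQ_le hs0 hs hx hx1 hxs) hXX ?_ ?_ hCk hfr
    · intro h0
      exact vM_le (hwR h0) h0 c1125L (by norm_num) (by positivity) y1 hp p1 (by rw [fx_one])
    · intro h0 h1
      exact vM_le (hwL h0) h0 (fB_le hxh) h1 (by positivity) y1 hp p1 (fQ_le hs0 hs hx hx1 hxs)

theorem runX : bis okX 8 1 0 16 0 SC 0 1392201623090 0 0 = true := by decide +kernel

/-- the inequality at every point -/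
theorem pX {s x : ℝ} (hs0 : 0 ≤ s) (hs1 : s ≤ 1) (hx0 : 0 ≤ x) (hx1 : x ≤ 12662 / 10000) : PX s x := by
  refine bis_sound (P := fun s x _ => PX s x) (fun a b c d e f hk x y z h1 h2 h3 h4 h5 h6 =>
    okX_sound a b c d e f hk x y z h1 h2 h3 h4 h5 h6) 8 1 0 16 _ _ _ _ _ _ runX s x 0
    (by rw [fx_zero]; exact hs0) (by rw [fx_one]; exact hs1) (by rw [fx_zero]; exact hx0) ?_
    (by rw [fx_zero]) (by rw [fx_zero])
  refine hx1.trans ?_
  unfold fx
  norm_num

end SokalDR
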