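import Pool.Agent.Lib_MP_af4de1_v3.DzRX2
import Pool.Agent.Lib_MP_af4de1_v3.DzRL0
import Pool.Agent.Lib_MP_af4de1_v3.DzS

/-!
# `PRealDR`, `X ≤ 80` (helper48)
-/

set_option autoImplicit false

namespace SokalDR

open Real MeasureTheory Set SokalCen SokalV3 SokalDz

variable {r ρ t p y x : ℝ}

theorem min_inv {z : ℝ} (hz : 0 < z) : min 1 (5 / (4 * z)) = 1 / max 1 (4 / 5 * z) := by
  rcases le_total (4 / 5 * z) 1 with h | h
  · rw [max_eq_left h, min_eq_left, div_one]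
    rw [one_le_div (by positivity)]
    linarith
  · rw [max_eq_right h, min_eq_right]
    · field_simp
    · rw [div_le_one (by positivity)]
      linarith

theorem prR (h : Pr ρ t p y x) : rA ρ t = wR p x / p * y := by
  have hp := h.p0
  rw [h.rA, h.mt, min_inv h.x0]
  have e : cT (mm ρ) t = min 1 (4 / 5 * x) := by
    unfold cT
    rw [h.tm]
    try rw [min_comm]
  rw [e]
  unfold aa wR
  field_simp
  ring

theorem prL (h : Pr ρ t p y x) : SokalDz.lA ρ t = wL p x / p * y := by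
  have hp := h.p0
  rw [h.lA, h.mt, min_inv h.x0]
  unfold aa wL
  field_simp

theorem wR_pos (hp : 0 < p) (hp1 : p < 1) (hx : 0 < x) : 0 < wR p x := by
  have hM : 0 < max 1 (4 / 5 * x) := lt_max_of_lt_left one_pos
  have hT0 : 0 ≤ min 1 (4 / 5 * x) := le_min zero_le_one (by positivity)
  have hT1 : min 1 (4 / 5 * x) ≤ 1 := min_le_left _ _
  unfold wR
  refine mul_pos ?_ (by positivity)
  obtain ⟨T, hT⟩ : ∃ T, T = min 1 (4 / 5 * x) := ⟨_, rfl⟩
  rw [← hT] at hT0 hT1 ⊢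
  have h1 : 1 + T / 3 + 5 * T ^ 2 / 48 ≤ 69 / 48 := by nlinarith
  have h2 : 8 / 25 * p * (1 + T / 3 + 5 * T ^ 2 / 48) ≤ 8 / 25 * p * (69 / 48) :=
    mul_le_mul_of_nonneg_left h1 (by positivity)
  nlinarith

theorem wR_ge (hp : 0 < p) (hp1 : p < 1) (hx : 0 < x) (hx1 : x ≤ 12662 / 10000) : 33 / 100 ≤ wR p x := by
  have hM : 0 < max 1 (4 / 5 * x) := lt_max_of_lt_left one_pos
  have hT0 : 0 ≤ min 1 (4 / 5 * x) := le_min zero_le_one (by positivity)
  have hT1 : min 1 (4 / 5 * x) ≤ 1 := min_le_left _ _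
  have hM1 : max 1 (4 / 5 * x) ≤ 1013 / 1000 := max_le (by norm_num) (by linarith)
  unfold wR
  obtain ⟨T, hT⟩ : ∃ T, T = min 1 (4 / 5 * x) := ⟨_, rfl⟩
  rw [← hT] at hT0 hT1 ⊢
  have h1 : 1 + T / 3 + 5 * T ^ 2 / 48 ≤ 69 / 48 := by nlinarith
  have h2 : 8 / 25 * p * (1 + T / 3 + 5 * T ^ 2 / 48) ≤ 8 / 25 * p * (69 / 48) :=
    mul_le_mul_of_nonneg_left h1 (by positivity)
  have h3 : 34 / 100 ≤ 4 / 5 - 8 / 25 * p * (1 + T / 3 + 5 * T ^ 2 / 48) := by nlinarith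
  have h4 : 98 / 100 ≤ 1 / max 1 (4 / 5 * x) := by
    rw [le_div_iff₀ hM]
    linarith
  calc (33 / 100 : ℝ) ≤ 34 / 100 * (98 / 100) := by norm_num
    _ ≤ _ := mul_le_mul h3 h4 (by norm_num) (by linarith)

theorem wL_pos (hp : 0 < p) (hp1 : p < 1) : 0 < wL p x := by
  have hM : 0 < max 1 (4 / 5 * x) := lt_max_of_lt_left one_pos
  unfold wL
  exact mul_pos (by linarith) (by positivity)

theorem wL_ge (hp : 0 < p) (hp1 : p < 1) (hx : x ≤ 62832 / 10000) : 95 / 1000 ≤ wL p x := by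
  have hM : 0 < max 1 (4 / 5 * x) := lt_max_of_lt_left one_pos
  have hM1 : max 1 (4 / 5 * x) ≤ 503 / 100 := max_le (by norm_num) (by linarith)
  have h3 : 48 / 100 ≤ 4 / 5 - 8 / 25 * p := by linarith
  have h4 : 1 / (503 / 100) ≤ 1 / max 1 (4 / 5 * x) := one_div_le_one_div_of_le hM hM1
  unfold wL
  calc (95 / 1000 : ℝ) ≤ 48 / 100 * (1 / (503 / 100)) := by norm_num
    _ ≤ _ := mul_le_mul h3 h4 (by norm_num) (by linarith)

/-- `e^(-E/9) ≤ 2/5` -/
theorem d25 {E : ℝ} (h : 33 / 4 ≤ E) : exp (-(E / 9)) ≤ 2 / 5 := by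
  have h1 : exp (-(E / 9)) ≤ exp (-(11 / 12)) := exp_le_exp.2 (by linarith)
  refine h1.trans ?_
  have h2 := Real.sum_le_exp_of_nonneg (x := 11 / 12) (by norm_num) 7
  norm_num [Finset.sum_range_succ, Nat.factorial] at h2
  rw [exp_neg, inv_le_comm₀ (exp_pos _) (by norm_num)]
  linarith

theorem e11 : exp (-11) ≤ 1 / 59854 := by
  have h1 := Real.exp_one_gt_d9
  have h2 : exp 11 = exp 1 ^ 11 := by rw [← exp_nat_mul]; norm_num
  have h3 : (59854 : ℝ) ≤ exp 11 := by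
    rw [h2]
    have h4 : (2.7182 : ℝ) ^ 11 ≤ exp 1 ^ 11 := pow_le_pow_left₀ (by norm_num) (by linarith) 11
    refine le_trans ?_ h4
    norm_num
  rw [exp_neg, ← one_div]
  exact one_div_le_one_div_of_le (by norm_num) h3

/-- the far terms -/
theorem far_le {r X a b : ℝ} (hr : 499 / 10 ≤ r) (hX : X ≤ 80) (ha : a ≤ 11 / 50 * r)
    (hb : b ≤ 7 / 10 * r) :
    (7 * r + 34 / 25) * (7072 / 10000 * a) * exp (-(r * (3168 / 5000))) +
      (2 * r + 1 / 2) * (7072 / 10000 * b) * exp (-(r * (1 / 2))) ≤ 27 / 625 * exp (-(17 / 100 * X)) := by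
  obtain ⟨E, hE⟩ : ∃ E, E = exp (-(r * (1 / 2))) := ⟨_, rfl⟩
  have hE0 : 0 < E := by rw [hE]; exact exp_pos _
  have h1 : exp (-(r * (3168 / 5000))) ≤ 1 / 100 * E := by
    have h2 : exp (-(r * (3168 / 5000))) = exp (-(r * (668 / 5000))) * E := by
      rw [hE, ← exp_add]; congr 1; ring
    rw [h2]
    refine mul_le_mul_of_nonneg_right ?_ hE0.le
    have h3 : exp (-(r * (668 / 5000))) ≤ exp (-6) := exp_le_exp.2 (by linarith)
    refine h3.trans ?_
    have h4 : exp 6 = exp 1 ^ 6 := by rw [← exp_nat_mul]; norm_num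
    have h5 : (100 : ℝ) ≤ exp 6 := by
      rw [h4]
      have h1 := Real.exp_one_gt_d9
      have h6 : (2.7 : ℝ) ^ 6 ≤ exp 1 ^ 6 := pow_le_pow_left₀ (by norm_num) (by linarith) 6
      refine le_trans ?_ h6
      norm_num
    rw [exp_neg, ← one_div]
    exact one_div_le_one_div_of_le (by norm_num) h5
  have h2 : (7 * r + 34 / 25) * (7072 / 10000 * a) ≤ 11 / 10 * r ^ 2 := by
    have : (7 * r + 34 / 25) * (7072 / 10000 * a) ≤ (7 * r + 34 / 25) * (7072 / 10000 * (11 / 50 * r)) :=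
      mul_le_mul_of_nonneg_left (by linarith) (by linarith)
    nlinarith
  have h3 : (2 * r + 1 / 2) * (7072 / 10000 * b) ≤ 1 * r ^ 2 := by
    have : (2 * r + 1 / 2) * (7072 / 10000 * b) ≤ (2 * r + 1 / 2) * (7072 / 10000 * (7 / 10 * r)) :=
      mul_le_mul_of_nonneg_left (by linarith) (by linarith)
    nlinarith
  have h4 : (7 * r + 34 / 25) * (7072 / 10000 * a) * exp (-(r * (3168 / 5000))) ≤
      11 / 10 * r ^ 2 * (1 / 100 * E) := mul_le_mul h2 h1 (exp_pos _).le (by positivity)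
  have h5 : (2 * r + 1 / 2) * (7072 / 10000 * b) * E ≤ 1 * r ^ 2 * E :=
    mul_le_mul_of_nonneg_right h3 hE0.le
  -- `r² e^{-r/2} ≤ 2490.01 e^{-24.95}`
  obtain ⟨u, hu⟩ : ∃ u, u = (r - 499 / 10) / 2 := ⟨_, rfl⟩
  have hu0 : 0 ≤ u := by rw [hu]; linarith
  have hru : r = 499 / 10 + 2 * u := by rw [hu]; ring
  have h6 : r ^ 2 ≤ 249001 / 100 * exp u := by
    have h7 := Real.quadratic_le_exp_of_nonneg hu0
    have h8 : r ^ 2 ≤ 249001 / 100 * (1 + u + u ^ 2 / 2) := by rw [hru]; nlinarith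
    refine h8.trans (mul_le_mul_of_nonneg_left h7 (by norm_num))
  have h7 : exp u * E ≤ exp (-11) * exp (-(17 / 100 * X)) := by
    rw [hE, ← exp_add, ← exp_add, exp_le_exp, hu]
    linarith
  have h8 : r ^ 2 * E ≤ 249001 / 100 * (1 / 59854 * exp (-(17 / 100 * X))) := by
    calc r ^ 2 * E ≤ 249001 / 100 * exp u * E := mul_le_mul_of_nonneg_right h6 hE0.le
      _ = 249001 / 100 * (exp u * E) := by ring
      _ ≤ 249001 / 100 * (exp (-11) * exp (-(17 / 100 * X))) :=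
        mul_le_mul_of_nonneg_left h7 (by norm_num)
      _ ≤ _ := by
        refine mul_le_mul_of_nonneg_left ?_ (by norm_num)
        exact mul_le_mul_of_nonneg_right e11 (exp_pos _).le
  have h9 : 0 < exp (-(17 / 100 * X)) := exp_pos _
  rw [← hE]
  nlinarith

end SokalDR
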