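import Pool.Agent.Lib_MP_af4de1_v3.DzRX3

/-!
# `PRealDR`, `X ≤ 80`: the statement (helper48)
-/

set_option autoImplicit false

namespace SokalDR

open Real MeasureTheory Set SokalCen SokalV3 SokalDz

variable {r ρ t p y x : ℝ}

theorem kc_nonneg (h : Pr ρ t p y x) (hr : 0 < r) : 0 ≤ Kc r ρ := by
  rw [h.Kc hr]; positivity

/-- a main term -/
theorem main_le (h : Pr ρ t p y x) (hr : 0 < r) {s w b a c X q A θ : ℝ} (hs : s ^ 2 = y) (hw : 0 < w)
    (hb : 0 < b) (ha : 0 ≤ a) (hc : 0 ≤ c) (hA : A = w / p * y) (hX : r * θ ^ 2 * y = X * q)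
    (hE : 33 / 4 ≤ X * (q * (w * b / (w * s ^ 2 + p * b)))) :
    Kc r ρ * (a * (√(π / (8 / 9 * r * (A + b))) * exp (-(8 / 9 * r * (A * b * θ ^ 2 / (A + b))))) +
      c * (√(π / (r * (A + b))) * exp (-(r * (A * b * θ ^ 2 / (A + b)))))) ≤
      (3 / 4 * a + 7072 / 10000 * c * (2 / 5)) * gM (NN s) w (s ^ 2) p b q X := by
  have hp := h.p0
  have hy := h.y0
  have hA0 : 0 < A := by rw [hA]; positivity
  have hD : 0 < w * y + p * b := by positivity
  have e1 : r * (A * b * θ ^ 2 / (A + b)) = X * (q * (w * b / (w * s ^ 2 + p * b))) := by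
    have e2 : A * b * θ ^ 2 / (A + b) = θ ^ 2 * y * (w * b / (w * y + p * b)) := by
      rw [hA]
      field_simp
    rw [e2, hs]
    calc r * (θ ^ 2 * y * (w * b / (w * y + p * b))) = (r * θ ^ 2 * y) * (w * b / (w * y + p * b)) := by ring
      _ = _ := by rw [hX]; ring
  have h1 := h.gauss hr (A := A + b) (e := A * b * θ ^ 2 / (A + b))
    (E := X * (q * (w * b / (w * s ^ 2 + p * b)))) (a := a) (b := c) (d := 2 / 5) (by positivity) ha hc
    e1.ge (d25 hE)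
  refine h1.trans (le_of_eq ?_)
  have e3 : PP p y / (A + b) = NN s / (w * s ^ 2 + p * b) := by
    unfold PP NN
    rw [hA, hs]
    field_simp
  unfold gM
  rw [e3]
  ring

/-- a tail term -/
theorem tail_le (h : Pr ρ t p y x) (hr : 0 < r) {s w a c X q A θ k : ℝ} (hs : s ^ 2 = y)
    (ha : 0 ≤ a) (hc : 0 ≤ c) (hk : 0 ≤ k) (hA : A = w / p * y) (hX : r * θ ^ 2 * y = X * q)
    (hE : 33 / 4 ≤ X * (q * (w / p))) :
    Kc r ρ * (a * (k / √(8 / 9 * r) * exp (-(8 / 9 * r * (A * θ ^ 2)))) +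
      c * (k / √r * exp (-(r * (A * θ ^ 2))))) ≤
      k * (4232 / 10000 * a + 399 / 1000 * c * (2 / 5)) * gT (NN s) w p q X := by
  have e1 : r * (A * θ ^ 2) = X * (q * (w / p)) := by
    rw [hA]
    calc r * (w / p * y * θ ^ 2) = (r * θ ^ 2 * y) * (w / p) := by ring
      _ = _ := by rw [hX]; ring
  have h1 := h.tail hr (c := k) (e := A * θ ^ 2) (E := X * (q * (w / p))) (a := a) (b := c) (d := 2 / 5)
    hk ha hc e1.ge (d25 hE)
  refine h1.trans (le_of_eq ?_)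
  have e3 : PP p y = NN s / p := by
    unfold PP NN
    rw [hs]
  unfold gT
  rw [e3]
  ring

/-- the front term -/
theorem front_le (h : Pr ρ t p y x) (hr : 0 < r) {s w a c X A θ : ℝ} (hs : s ^ 2 = y) (hw : 0 < w)
    (ha : 0 ≤ a) (hc : 0 ≤ c) (hA : A = w / p * y) (hX : r * θ ^ 2 * y = X)
    (hE : 33 / 4 ≤ X * (11 / 25 / y)) :
    Kc r ρ * (a * (√(π / (8 / 9 * r * A)) * exp (-(8 / 9 * r * (11 / 25 * θ ^ 2)))) +
      c * (√(π / (r * A)) * exp (-(r * (11 / 25 * θ ^ 2))))) ≤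
      (3 / 4 * a + 7072 / 10000 * c * (2 / 5)) * gT (NN s / w) (11 / 25) (s ^ 2) 1 X := by
  have hp := h.p0
  have hy := h.y0
  have hA0 : 0 < A := by rw [hA]; positivity
  have e1 : r * (11 / 25 * θ ^ 2) = X * (11 / 25 / y) := by
    rw [← hX]
    field_simp
  have h1 := h.gauss hr (A := A) (e := 11 / 25 * θ ^ 2) (E := X * (11 / 25 / y)) (a := a) (b := c)
    (d := 2 / 5) hA0 ha hc e1.ge (d25 hE)
  refine h1.trans (le_of_eq ?_)
  have e3 : PP p y / A = NN s / w / s ^ 2 := by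
    unfold PP NN
    rw [hA, hs]
    field_simp
  unfold gT
  rw [e3, hs, one_mul]
  ring

/-- `√(P/A)`, right and left -/
theorem far_R (h : Pr ρ t p y x) {w c A : ℝ} (hw : 33 / 100 ≤ w) (hA : A = w / p * y)
    (hr : 499 / 10 ≤ r) (hy : 1 / y ≤ 46 / 100 * r) (hc : c = 1) :
    √(PP p y / A) ≤ 11 / 50 * r * c := by
  have hp := h.p0
  have hy0 := h.y0
  have hy1 := h.y1
  rw [hc, mul_one, Real.sqrt_le_left (by linarith)]
  have hw0 : 0 < w := by linarith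
  have e : PP p y / A = (1 + 16 / 25 * y) * (1 / w) * (1 / y) := by
    unfold PP
    rw [hA]
    field_simp
  have h1 : 1 / w ≤ 1 / (33 / 100) := one_div_le_one_div_of_le (by norm_num) hw
  rw [e]
  calc (1 + 16 / 25 * y) * (1 / w) * (1 / y) ≤ (41 / 25) * (1 / (33 / 100)) * (46 / 100 * r) :=
        mul_le_mul (mul_le_mul (by linarith) h1 (by positivity) (by norm_num)) hy (by positivity)
          (by norm_num)
    _ ≤ _ := by nlinarith

theorem far_L (h : Pr ρ t p y x) {w A : ℝ} (hw : 95 / 1000 ≤ w) (hA : A = w / p * y)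
    (hr : 499 / 10 ≤ r) (hy : 1 / y ≤ 46 / 100 * r) :
    √(PP p y / (A / 3)) ≤ 7 / 10 * r := by
  have hp := h.p0
  have hy0 := h.y0
  have hy1 := h.y1
  rw [Real.sqrt_le_left (by linarith)]
  have hw0 : 0 < w := by linarith
  have e : PP p y / (A / 3) = 3 * (1 + 16 / 25 * y) * (1 / w) * (1 / y) := by
    unfold PP
    rw [hA]
    field_simp
  have h1 : 1 / w ≤ 1 / (95 / 1000) := one_div_le_one_div_of_le (by norm_num) hw
  rw [e]
  calc 3 * (1 + 16 / 25 * y) * (1 / w) * (1 / y) ≤ 3 * (41 / 25) * (1 / (95 / 1000)) * (46 / 100 * r) :=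
        mul_le_mul (mul_le_mul (by linarith) h1 (by positivity) (by norm_num)) hy (by positivity)
          (by norm_num)
    _ ≤ _ := by nlinarith

/-- **Right side, `X ≤ 80`.** -/
theorem realB_R (h : HypD r ρ t) (hX80 : r * t ^ 2 / (1 + ρ ^ 2) ≤ 80) :
    ∃ C Cf B B' l e : ℝ, HR t B ∧ HC ρ t C ∧ HF ρ t Cf ∧ HL ρ (2 * π - t) B' l ∧ HE ρ e ∧
      l ≤ lA ρ (2 * π - t) * B' * (2 * π - t) ^ 2 / (lA ρ (2 * π - t) + B') ∧
      Kc r ρ * SW r ρ t (2 * π - t) C Cf B B' l e ≤ 27 / 5 * Fd r ρ (r * t ^ 2 / (1 + ρ ^ 2)) := by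
  have hr49 := h.r0
  have hr : 0 < r := by linarith
  have hρ := h.ρ0
  have ht := h.t0
  have htπ := h.t1
  have hX21 := h.X
  have hpi := Real.pi_pos
  have hpi1 := Real.pi_gt_three
  have hpi2 := Real.pi_lt_d4
  have hφ : 0 < 2 * π - t := by linarith
  have P1 := Pr.ex hρ ht
  have P2 := Pr.ex hρ hφ
  obtain ⟨p, hpd⟩ : ∃ p, p = ρ / √(1 + ρ ^ 2) := ⟨_, rfl⟩
  obtain ⟨y, hyd⟩ : ∃ y, y = 1 / (1 + ρ ^ 2) := ⟨_, rfl⟩
  obtain ⟨s, hsd⟩ : ∃ s, s = 1 / √(1 + ρ ^ 2) := ⟨_, rfl⟩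
  have ex1 : t / √(1 + ρ ^ 2) = t * s := by rw [hsd]; ring
  have ex2 : (2 * π - t) / √(1 + ρ ^ 2) = (2 * π - t) * s := by rw [hsd]; ring
  rw [← hpd, ← hyd, ex1] at P1
  rw [← hpd, ← hyd, ex2] at P2
  have hp := P1.p0
  have hp1 := P1.p1
  have hy := P1.y0
  have hy1 := P1.y1
  have hS := P1.s0
  have hs : 0 < s := by rw [hsd]; positivity
  have hs2 : s ^ 2 = y := by
    rw [hsd, hyd, div_pow, P1.ss, one_pow]
  have hps : p ^ 2 + s ^ 2 = 1 := by rw [hs2, P1.hy]; ring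
  have hs1 : s ≤ 1 := by nlinarith only [hps, hp, hs]
  obtain ⟨X, hXd⟩ : ∃ X, X = r * t ^ 2 / (1 + ρ ^ 2) := ⟨_, rfl⟩
  rw [← hXd] at hX80 hX21
  have hXy : X = r * t ^ 2 * y := by rw [hXd, hyd]; ring
  have hx : 0 < t * s := by positivity
  have hX2 : r * (t * s) ^ 2 = X := by rw [hXy, mul_pow, hs2]; ring
  have hX3 : 499 / 10 * (t * s) ^ 2 ≤ X := by
    rw [← hX2]
    exact mul_le_mul_of_nonneg_right hr49 (sq_nonneg _)
  have hx1 : t * s ≤ 12662 / 10000 := by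
    by_contra hc
    push Not at hc
    have : (12662 / 10000 : ℝ) ^ 2 < (t * s) ^ 2 := pow_lt_pow_left₀ hc (by norm_num) (by norm_num)
    linarith
  have hxs : t * s ≤ π * s := mul_le_mul_of_nonneg_right htπ hs.le
  obtain ⟨C, hC, hC0, hER, hEL, hS5⟩ := pX hs.le hs1 hx.le hx1 p X hs hp hps hx hxs hX21 hX3
  have exx : 2 * π * s - t * s = (2 * π - t) * s := by ring
  rw [exx] at hEL hS5
  have hxx : 0 < (2 * π - t) * s := by positivity
  obtain ⟨w, hwd⟩ : ∃ w, w = wR p (t * s) := ⟨_, rfl⟩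
  obtain ⟨w', hwd'⟩ : ∃ w', w' = wL p ((2 * π - t) * s) := ⟨_, rfl⟩
  obtain ⟨b, hbd⟩ : ∃ b, b = bL' ((2 * π - t) * s) := ⟨_, rfl⟩
  obtain ⟨ψ, hψd⟩ : ∃ ψ, ψ = ((2 * π - t) * s / (t * s)) ^ 2 := ⟨_, rfl⟩
  rw [← hwd] at hER hS5
  rw [← hwd', ← hbd, ← hψd] at hEL hS5
  have hw0 : 0 < w := by rw [hwd]; exact wR_pos hp hp1 hx
  have hw0' : 0 < w' := by rw [hwd']; exact wL_pos hp hp1
  have hb0 : 0 < b := by rw [hbd]; unfold bL'; positivity
  have hwg : 33 / 100 ≤ w := by rw [hwd]; exact wR_ge hp hp1 hx hx1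
  have hwg' : 95 / 1000 ≤ w' := by
    rw [hwd']
    refine wL_ge hp hp1 ?_
    have h0 : (2 * π - t) * s ≤ (2 * π - t) * 1 := mul_le_mul_of_nonneg_left hs1 hφ.le
    linarith
  have hψ1 : 1 ≤ ψ := by
    have h1 : 1 ≤ (2 * π - t) * s / (t * s) := by
      rw [one_le_div hx]
      exact mul_le_mul_of_nonneg_right (by linarith) hs.le
    rw [hψd]
    exact one_le_pow₀ h1
  have hAR : rA ρ t = w / p * y := by rw [hwd]; exact prR P1
  have hAL : SokalDz.lA ρ (2 * π - t) = w' / p * y := by rw [hwd']; exact prL P2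
  have hXR : r * t ^ 2 * y = X * 1 := by rw [hXy]; ring
  have hXL : r * (2 * π - t) ^ 2 * y = X * ψ := by
    rw [hψd, hXy]
    field_simp
  have hX0 : 0 < X := by linarith
  -- the parameters
  have hTm : (2 * π - t) / mm ρ = 4 / 5 * ((2 * π - t) * s) := P2.tm
  have hHL : HL ρ (2 * π - t) b 0 := by
    rw [hbd]
    unfold bL'
    rcases le_total (4 / 5 * ((2 * π - t) * s)) 1 with hc | hc
    · rw [min_eq_right hc]
      have := HL_sig (ρ := ρ) (β := 11 / 25) (σ := 1) hφ (HR_11_25 _) (by norm_num) le_rfl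
      rw [hTm, one_mul] at this
      simpa using this
    · rw [min_eq_left hc]
      exact HL_clip (HR_11_25 _)
  have hHC : HC ρ t C := by
    rcases hC with hC | ⟨T, h1, h2, h3, h4⟩
    · exact Or.inl hC
    · refine Or.inr ⟨T, ?_, h2, h3, h4⟩
      have h5 : t / mm ρ = 4 / 5 * (t * s) := P1.tm
      have h6 : t = t / mm ρ * mm ρ := by
        have := P1.m0
        field_simp
      rw [h6, h5]
      exact mul_le_mul_of_nonneg_right h1 P1.m0.le
  refine ⟨C, 14 / 5, 11 / 25, b, 0, 1 / 2, HR_11_25 t, hHC, HF_big _ _, hHL, HE_half hρ, ?_, ?_⟩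
  · have : 0 < SokalDz.lA ρ (2 * π - t) := by rw [hAL]; positivity
    positivity
  -- the inequality
  have hER2 : 33 / 4 ≤ X * (1 * (w / p)) := by
    refine hER.trans ?_
    have : w * (11 / 25) / (w * s ^ 2 + p * (11 / 25)) ≤ w / p := by
      rw [div_le_div_iff₀ (by positivity) hp]
      have : 0 ≤ w * (w * s ^ 2) := by positivity
      linarith only [this]
    gcongr
  have hEL2 : 33 / 4 ≤ X * (ψ * (w' / p)) := by
    refine hEL.trans ?_
    have : w' * b / (w' * s ^ 2 + p * b) ≤ w' / p := by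
      rw [div_le_div_iff₀ (by positivity) hp]
      have : 0 ≤ w' * (w' * s ^ 2) := by positivity
      linarith only [this]
    gcongr
  have hEO : 33 / 4 ≤ X * (11 / 25 / y) := by
    have : 11 / 25 ≤ 11 / 25 / y := by
      rw [le_div_iff₀ hy]
      linarith only [hy1]
    have h2 := mul_le_mul hX21 this (by norm_num) hX0.le
    linarith only [h2]
  have g1 := main_le P1 hr (a := 20 / 3 * C) (c := 68 / 25) hs2 hw0 (by norm_num) (by positivity)
    (by norm_num) hAR hXR hER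
  have g2 := tail_le P1 hr (a := 20 / 3 * (14 / 5)) (c := 68 / 25) (k := 3 / 2) hs2 (by norm_num)
    (by norm_num) (by norm_num) hAR hXR hER2
  have g3 := main_le P2 hr (a := 20 / 3) (c := 1) hs2 hw0' hb0 (by norm_num) (by norm_num) hAL hXL hEL
  have g4 := tail_le P2 hr (a := 20 / 3) (c := 1) (k := 5 / 2) hs2 (by norm_num) (by norm_num)
    (by norm_num) hAL hXL hEL2
  have g5 := front_le P2 hr (θ := t) (a := 10 / 3) (c := 1 / 2) (X := X) hs2 hw0' (by norm_num)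
    (by norm_num) hAL (by rw [hXR, mul_one]) hEO
  -- far
  have hyi : 1 / y ≤ 46 / 100 * r := by
    rw [div_le_iff₀ hy]
    have h0 : t ≤ 31416 / 10000 := by linarith only [htπ, hpi2]
    have h1 : t ^ 2 ≤ 98697 / 10000 := by nlinarith only [h0, ht]
    have h2 : 108 / 5 ≤ r * t ^ 2 * y := by rw [← hXy]; exact hX21
    have h3 : r * t ^ 2 * y ≤ r * (98697 / 10000) * y := by gcongr
    nlinarith only [mul_pos hr hy, h2, h3]
  have fR1 := far_R P1 (c := 1) hwg hAR hr49 hyi rfl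
  have fL1 := far_L P2 hwg' hAL hr49 hyi
  have hAR0 : 0 < rA ρ t := by rw [hAR]; positivity
  have hAL0 : 0 < SokalDz.lA ρ (2 * π - t) := by rw [hAL]; positivity
  rw [mul_one] at fR1
  have hfar := far_le (r := r) (X := X) hr49 hX80 fR1 fL1
  have k1 := P1.K1 hr hAR0
  have k2 := P2.K1 (r := r) hr (A := SokalDz.lA ρ (2 * π - t) / 3) (by positivity)
  have e3 : π / (r * (SokalDz.lA ρ (2 * π - t) / 3)) = 3 * π / (r * SokalDz.lA ρ (2 * π - t)) := by
    field_simp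
  rw [e3] at k2
  have f1 : Kc r ρ * ((14 * r + 68 / 25) * rF r ρ t) ≤
      (7 * r + 34 / 25) * (7072 / 10000 * √(PP p y / rA ρ t)) * exp (-(r * (3168 / 5000))) := by
    unfold rF
    calc _ = (7 * r + 34 / 25) * (Kc r ρ * √(π / (r * rA ρ t))) * exp (-(r * (3168 / 5000))) := by ring
      _ ≤ _ := by gcongr
  have f2 : Kc r ρ * ((4 * r + 1) * lF r ρ (2 * π - t) (1 / 2)) ≤
      (2 * r + 1 / 2) * (7072 / 10000 * √(PP p y / (SokalDz.lA ρ (2 * π - t) / 3))) *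
        exp (-(r * (1 / 2))) := by
    unfold lF
    calc _ = (2 * r + 1 / 2) * (Kc r ρ * √(3 * π / (r * SokalDz.lA ρ (2 * π - t)))) *
          exp (-(r * (1 / 2))) := by ring
      _ ≤ _ := by gcongr
  -- front
  have hKc := kc_nonneg P1 hr
  have hrO : ∀ q, rO q ρ t = 0 := fun q => by
    unfold rO
    rw [if_neg (by linarith)]
  have hgT0 : 0 ≤ gT (NN s / w') (11 / 25) (s ^ 2) 1 X := gT_nonneg _ _ _ _ _
  have hlO : Kc r ρ * (20 / 3 * lO (8 / 9 * r) ρ (2 * π - t) + lO r ρ (2 * π - t)) ≤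
      (if t * s < 6 / 5 * s then 265 / 100 * gT (NN s / w') (11 / 25) (s ^ 2) 1 X else 0) := by
    have e4 : 2 * π - (2 * π - t) = t := by ring
    unfold lO
    rw [e4]
    by_cases hc : t < 6 / 5
    · rw [if_pos hc, if_pos hc, if_pos (mul_lt_mul_of_pos_right hc hs)]
      calc _ = Kc r ρ * (10 / 3 * (√(π / (8 / 9 * r * SokalDz.lA ρ (2 * π - t))) *
            exp (-(8 / 9 * r * (11 / 25 * t ^ 2)))) +
            1 / 2 * (√(π / (r * SokalDz.lA ρ (2 * π - t))) * exp (-(r * (11 / 25 * t ^ 2))))) := by ring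
        _ ≤ _ := g5
        _ ≤ _ := mul_le_mul_of_nonneg_right (by norm_num) hgT0
    · rw [if_neg hc, if_neg hc, if_neg (by
        intro h1
        exact hc (lt_of_mul_lt_mul_right h1 hs.le))]
      simp
  -- the sum
  have hFd : Fd r ρ (r * t ^ 2 / (1 + ρ ^ 2)) = 2 / 25 * exp (-(17 / 100 * X)) := by
    rw [← hXd]
    unfold Fd
    rw [if_pos hX80]
  rw [hFd]
  have hgM1 := gM_nonneg (NN s) w (s ^ 2) p (11 / 25) 1 X
  have hgM2 := gM_nonneg (NN s) w' (s ^ 2) p b ψ X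
  have hgT1 := gT_nonneg (NN s) w p 1 X
  have hgT2 := gT_nonneg (NN s) w' p ψ X
  have G1 : Kc r ρ * (20 / 3 * C * rM (8 / 9 * r) ρ t (11 / 25) + 68 / 25 * rM r ρ t (11 / 25)) ≤
      (5 * C + 7695 / 10000) * gM (NN s) w (s ^ 2) p (11 / 25) 1 X := by
    unfold rM
    exact g1.trans (mul_le_mul_of_nonneg_right (by linarith) hgM1)
  have G2 : Kc r ρ * (20 / 3 * (14 / 5) * rT (8 / 9 * r) ρ t + 68 / 25 * rT r ρ t) ≤
      12501 / 1000 * gT (NN s) w p 1 X := by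
    unfold rT
    exact g2.trans (mul_le_mul_of_nonneg_right (by norm_num) hgT1)
  have G3 : Kc r ρ * (20 / 3 * lM (8 / 9 * r) ρ (2 * π - t) b 0 + lM r ρ (2 * π - t) b 0) ≤
      529 / 100 * gM (NN s) w' (s ^ 2) p b ψ X := by
    unfold lM
    rw [sub_zero]
    refine le_trans (le_of_eq ?_) (g3.trans (mul_le_mul_of_nonneg_right (by norm_num) hgM2))
    ring
  have G4 : Kc r ρ * (20 / 3 * lT (8 / 9 * r) ρ (2 * π - t) + lT r ρ (2 * π - t)) ≤
      7453 / 1000 * gT (NN s) w' p ψ X := by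
    unfold lT
    refine le_trans (le_of_eq ?_) (g4.trans (mul_le_mul_of_nonneg_right (by norm_num) hgT2))
    ring
  unfold S5 at hS5
  unfold SW
  rw [hrO, hrO]
  calc _ = Kc r ρ * (20 / 3 * C * rM (8 / 9 * r) ρ t (11 / 25) + 68 / 25 * rM r ρ t (11 / 25)) +
        Kc r ρ * (20 / 3 * (14 / 5) * rT (8 / 9 * r) ρ t + 68 / 25 * rT r ρ t) +
        Kc r ρ * (20 / 3 * lM (8 / 9 * r) ρ (2 * π - t) b 0 + lM r ρ (2 * π - t) b 0) +
        Kc r ρ * (20 / 3 * lT (8 / 9 * r) ρ (2 * π - t) + lT r ρ (2 * π - t)) +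
        Kc r ρ * (20 / 3 * lO (8 / 9 * r) ρ (2 * π - t) + lO r ρ (2 * π - t)) +
        (Kc r ρ * ((14 * r + 68 / 25) * rF r ρ t) +
          Kc r ρ * ((4 * r + 1) * lF r ρ (2 * π - t) (1 / 2))) := by ring
    _ ≤ _ := by
      by_cases hfr : t * s < 6 / 5 * s
      · rw [if_pos hfr] at hS5 hlO
        linarith only [G1, G2, G3, G4, hS5, hlO, f1, f2, hfar]
      · rw [if_neg hfr] at hS5 hlO
        linarith only [G1, G2, G3, G4, hS5, hlO, f1, f2, hfar]

end SokalDR
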