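import Pool.Agent.Lib_MP_af4de1_v3.DzBase

/-!
# Fields `d`: the weights and the pointwise bounds
-/

set_option autoImplicit false

namespace SokalDz

open Real MeasureTheory Set SokalCen

theorem mm_pos (ρ : ℝ) : 0 < mm ρ := by
  unfold mm
  positivity

theorem sq_mm (ρ : ℝ) : mm ρ ^ 2 = 25 / 16 * (1 + ρ ^ 2) := by
  unfold mm
  rw [mul_pow, Real.sq_sqrt (by positivity)]
  norm_num

theorem rho_le_sqrt (ρ : ℝ) : ρ ≤ √(1 + ρ ^ 2) := by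
  refine Real.le_sqrt_of_sq_le ?_
  linarith

theorem rho_le_mm {ρ : ℝ} (hρ : 0 < ρ) : 5 / 4 * ρ ≤ mm ρ := by
  unfold mm
  have := rho_le_sqrt ρ
  linarith

theorem rho_le_mm' {ρ : ℝ} (hρ : 0 < ρ) : ρ ≤ mm ρ := by
  have := rho_le_mm hρ
  linarith

theorem mm_div {ρ : ℝ} (hρ : 0 < ρ) : 5 / 4 ≤ mm ρ / ρ := by
  rw [le_div_iff₀ hρ]
  exact rho_le_mm hρ

theorem mm_ge (ρ : ℝ) : 5 / 4 ≤ mm ρ := by
  unfold mm
  have : 1 ≤ √(1 + ρ ^ 2) := by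
    rw [Real.one_le_sqrt]
    nlinarith [sq_nonneg ρ]
  linarith

/-- the weight at `w = 1` -/
theorem Wm_one (m θ s : ℝ) : Wm m θ 1 s =
    (exp (pm m s) - 1) ^ 2 + 2 * exp (pm m s) * (1 - cos (θ + s)) := by
  unfold Wm SokalCen.em
  have h : Complex.exp (pm m s + (θ + s) * Complex.I) - 1 =
      ((Real.exp (pm m s) * Real.cos (θ + s) - 1 : ℝ) : ℂ) +
      ((Real.exp (pm m s) * Real.sin (θ + s) : ℝ) : ℂ) * Complex.I := by
    have e : ((pm m s : ℂ) + (θ + s) * Complex.I) =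
        ((pm m s : ℝ) : ℂ) + ((θ + s : ℝ) : ℂ) * Complex.I := by push_cast; ring
    rw [e, Complex.exp_add, Complex.exp_mul_I, ← Complex.ofReal_exp, ← Complex.ofReal_cos,
      ← Complex.ofReal_sin]
    push_cast
    ring
  rw [h, Complex.sq_norm, Complex.normSq_add_mul_I]
  linear_combination (Real.exp (pm m s) ^ 2) * Real.sin_sq_add_cos_sq (θ + s)

/-- it is enough to bound the radial part -/
theorem Wm_of {m ρ θ s C : ℝ} (hC : 1 ≤ C)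
    (h : (exp (pm m s) - 1) ^ 2 ≤ 2 * C * Qm m ρ s) : Wm m θ 1 s ≤ 2 * C * Dm m ρ θ s := by
  rw [Dm_eq, Wm_one]
  have h1 := exp_pos (pm m s)
  have h2 := cos_le_one (θ + s)
  have h3 : 0 ≤ exp (pm m s) * (1 - cos (θ + s)) := mul_nonneg h1.le (by linarith)
  nlinarith

theorem exp_le_cubic {a : ℝ} (h0 : 0 ≤ a) (h1 : a ≤ 1) :
    exp a ≤ 1 + a + a ^ 2 / 2 + 2 * a ^ 3 / 9 := by
  have h := Real.exp_bound' h0 h1 (n := 3) (by norm_num)
  have e : ∑ m ∈ Finset.range 3, a ^ m / (m.factorial : ℝ) + a ^ 3 * ((3 : ℕ) + 1) /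
      (((3 : ℕ).factorial : ℝ) * (3 : ℕ)) = 1 + a + a ^ 2 / 2 + 2 * a ^ 3 / 9 := by
    simp [Finset.sum_range_succ, Nat.factorial]
    ring
  rw [e] at h
  exact h

theorem wR {ρ θ s T C : ℝ} (hρ : 0 < ρ) (hs : 0 < s) (hT : s ≤ T * mm ρ) (hT1 : T ≤ 1)
    (hC : 1 ≤ C)
    (hC2 : (1 + T / 2 + 2 * T ^ 2 / 9) ^ 2 ≤ C * (5 / 2 - (1 + T / 3 + 5 * T ^ 2 / 48))) :
    Wm (mm ρ) θ 1 s ≤ 2 * C * Dm (mm ρ) ρ θ s := by
  have hm := mm_pos ρ
  have hsT : s / mm ρ ≤ T := by rwa [div_le_iff₀ hm]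
  have ha0 : 0 ≤ s / mm ρ := by positivity
  have hQ := Qm_right hρ hm hs.le hsT hT1
  have hpm : pm (mm ρ) s = s / mm ρ :=
    pm_mid hm (by linarith) (by nlinarith)
  refine Wm_of hC ?_
  rw [hpm]
  have h54 := mm_div hρ
  have e1 : aR (mm ρ) ρ T * s ^ 2 = (mm ρ / ρ - (1 + T / 3 + 5 * T ^ 2 / 48) / 2) *
      (s / mm ρ) ^ 2 := by
    unfold aR
    field_simp
  rw [e1] at hQ
  set a := s / mm ρ
  have h1 := exp_le_cubic ha0 (hsT.trans hT1)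
  have h2 : 1 ≤ exp a := Real.one_le_exp ha0
  have h3 : exp a - 1 ≤ a * (1 + T / 2 + 2 * T ^ 2 / 9) := by
    have h4 : a ^ 2 ≤ T ^ 2 := pow_le_pow_left₀ ha0 hsT 2
    have h5 : a * (a / 2 + 2 * a ^ 2 / 9) ≤ a * (T / 2 + 2 * T ^ 2 / 9) :=
      mul_le_mul_of_nonneg_left (by linarith) ha0
    nlinarith
  have h6 : (exp a - 1) ^ 2 ≤ (a * (1 + T / 2 + 2 * T ^ 2 / 9)) ^ 2 :=
    pow_le_pow_left₀ (by linarith) h3 2
  have h7 : (5 / 4 - (1 + T / 3 + 5 * T ^ 2 / 48) / 2) * a ^ 2 ≤ Qm (mm ρ) ρ s := by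
    refine le_trans ?_ hQ
    exact mul_le_mul_of_nonneg_right (by linarith) (sq_nonneg a)
  calc (exp a - 1) ^ 2 ≤ (1 + T / 2 + 2 * T ^ 2 / 9) ^ 2 * a ^ 2 := by
        refine h6.trans (le_of_eq ?_)
        ring
    _ ≤ C * (5 / 2 - (1 + T / 3 + 5 * T ^ 2 / 48)) * a ^ 2 :=
        mul_le_mul_of_nonneg_right hC2 (sq_nonneg a)
    _ = 2 * C * ((5 / 4 - (1 + T / 3 + 5 * T ^ 2 / 48) / 2) * a ^ 2) := by ring
    _ ≤ 2 * C * Qm (mm ρ) ρ s := mul_le_mul_of_nonneg_left h7 (by linarith)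

theorem wR' {ρ θ s : ℝ} (hρ : 0 < ρ) (hs : 0 < s) :
    Wm (mm ρ) θ 1 s ≤ 2 * (14 / 5) * Dm (mm ρ) ρ θ s := by
  have hm := mm_pos ρ
  rcases le_total s (mm ρ) with h | h
  · exact wR hρ hs (T := 1) (by linarith) le_rfl (by norm_num) (by norm_num)
  · refine Wm_of (by norm_num) ?_
    have hpm : pm (mm ρ) s = 1 := pm_right hm h
    have h54 := mm_div hρ
    have h1 : 5 / 4 ≤ s / ρ := h54.trans (by gcongr)
    have he := Real.exp_one_lt_d9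
    have he2 := Real.exp_one_gt_d9
    have hQ : Qm (mm ρ) ρ s = 2 + s / ρ - exp 1 := by
      unfold Qm
      rw [hpm]
      ring
    rw [hpm, hQ]
    nlinarith

theorem pm_neg' {m v : ℝ} (hm : 0 < m) (hv : 0 ≤ v) : pm m (-v) = -min 1 (v / m) := by
  unfold pm
  have h0 : 0 ≤ v / m := div_nonneg hv hm.le
  rw [neg_div, min_eq_right (by linarith), ← max_neg_neg]

theorem Qm_left_x {ρ v : ℝ} (hρ : 0 < ρ) (hv : 0 ≤ v) :
    (mm ρ / ρ - 1 / 2) * (min 1 (v / mm ρ)) ^ 2 ≤ Qm (mm ρ) ρ (-v) := by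
  have hm := mm_pos ρ
  rcases le_total v (mm ρ) with h | h
  · have h1 : v / mm ρ ≤ 1 := (div_le_one hm).2 h
    have hQ := Qm_left hρ hm hv h1
    rw [min_eq_right h1]
    refine le_trans (le_of_eq ?_) hQ
    unfold aL
    field_simp
  · have h1 : 1 ≤ v / mm ρ := (one_le_div hm).2 h
    have hpm := pm_neg' hm hv
    rw [min_eq_left h1] at hpm ⊢
    have hQ : Qm (mm ρ) ρ (-v) = v / ρ - exp (-1) := by
      unfold Qm
      rw [hpm]
      ring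
    rw [hQ]
    have h2 : mm ρ / ρ ≤ v / ρ := by gcongr
    have h3 : exp (-1) ≤ 1 / 2 := by
      rw [Real.exp_neg, inv_eq_one_div]
      refine one_div_le_one_div_of_le (by norm_num) ?_
      linarith [Real.exp_one_gt_d9]
    linarith

theorem wL {ρ θ v : ℝ} (hρ : 0 < ρ) (hv : 0 ≤ v) :
    Wm (mm ρ) θ 1 (-v) ≤ 2 * 1 * Dm (mm ρ) ρ θ (-v) := by
  have hm := mm_pos ρ
  refine Wm_of le_rfl ?_
  have hpm := pm_neg' hm hv
  have hQ := Qm_left_x hρ hv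
  have h54 := mm_div hρ
  rw [hpm]
  set x := min 1 (v / mm ρ)
  have hx0 : 0 ≤ x := le_min one_pos.le (div_nonneg hv hm.le)
  have h1 := Real.add_one_le_exp (-x)
  have h2 : exp (-x) ≤ 1 := Real.exp_le_one_iff.2 (by linarith)
  have h3 : (exp (-x) - 1) ^ 2 ≤ x ^ 2 := by
    nlinarith
  nlinarith [sq_nonneg x]

theorem wFarR {θ v : ℝ} (m : ℝ) : Wm m θ 1 v ≤ 14 := by
  have h := Wm_one m θ v
  have h1 : exp (pm m v) ≤ exp 1 := by
    refine exp_le_exp.2 ?_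
    exact (abs_le.1 (pm_mem m v)).2
  have h2 := neg_one_le_cos (θ + v)
  have h3 := exp_pos (pm m v)
  have he := Real.exp_one_lt_d9
  rw [h]
  have h5 : exp (pm m v) * (1 - cos (θ + v)) ≤ exp (pm m v) * 2 :=
    mul_le_mul_of_nonneg_left (by linarith) h3.le
  nlinarith

theorem wFarL {θ v m : ℝ} (hm : 0 < m) (hv : 0 ≤ v) : Wm m θ 1 (-v) ≤ 4 := by
  have h := Wm_one m θ (-v)
  have h1 : exp (pm m (-v)) ≤ 1 := Real.exp_le_one_iff.2 (pm_nonpos hm (by linarith))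
  have h2 := neg_one_le_cos (θ + -v)
  have h3 := exp_pos (pm m (-v))
  rw [h]
  have h5 : exp (pm m (-v)) * (1 - cos (θ + -v)) ≤ exp (pm m (-v)) * 2 :=
    mul_le_mul_of_nonneg_left (by linarith) h3.le
  nlinarith

/-- the trick -/
theorem ytrick (y : ℝ) : y * exp (-y) ≤ 10 / 3 * exp (-(8 / 9 * y)) := by
  have h1 := Real.add_one_le_exp (y / 9 - 1)
  have h2 : exp (-(8 / 9 * y)) = exp (y / 9 - 1) * exp 1 * exp (-y) := by
    rw [← exp_add, ← exp_add]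
    congr 1
    ring
  have he := Real.exp_one_gt_d9
  have h3 := exp_pos (-y)
  have h4 := exp_pos (y / 9 - 1)
  have h5 : y ≤ 10 / 3 * (exp (y / 9 - 1) * exp 1) := by nlinarith
  rw [h2]
  nlinarith

end SokalDz
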