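import Pool.Agent.Lib_MP_af4de1_v3.DzRL0
import Pool.Agent.Lib_MP_af4de1_v3.DzS

/-!
# The real inequalities of the fields `d` for `X > 80`, 1: parameters and exponents (helper20)

`y = s²`, `x = t s`, `p² + s² = 1`.
-/

set_option autoImplicit false

namespace SokalDz

open Real MeasureTheory Set SokalCen SokalV3

variable {r ρ t φ p y x z s u v c k α A B : ℝ}

/-- the data of the case `X > 80` -/
structure PX (r ρ t p y x s : ℝ) : Prop where
  pr : Pr ρ t p y x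
  r0 : 499 / 10 ≤ r
  t1 : t ≤ π
  s0 : 0 < s
  hs : s ^ 2 = y
  hX : 80 < r * x ^ 2

theorem PX.ex (h : HypD r ρ t) (hX : 80 < r * t ^ 2 / (1 + ρ ^ 2)) :
    ∃ p y x s, PX r ρ t p y x s ∧ r * x ^ 2 = r * t ^ 2 / (1 + ρ ^ 2) ∧ y = 1 / (1 + ρ ^ 2) := by
  have hp := Pr.ex h.ρ0 h.t0
  have hR : 0 < 1 + ρ ^ 2 := by positivity
  have e : r * (t / √(1 + ρ ^ 2)) ^ 2 = r * t ^ 2 / (1 + ρ ^ 2) := by
    rw [div_pow, Real.sq_sqrt hR.le]
    ring
  refine ⟨_, _, _, √(1 / (1 + ρ ^ 2)), ⟨hp, h.r0, h.t1, Real.sqrt_pos.2 (by positivity),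
    Real.sq_sqrt (by positivity), ?_⟩, e, rfl⟩
  rw [e]
  exact hX

section

variable (h : PX r ρ t p y x s)
include h

theorem PX.xs : x = t * s := by
  have h1 := h.pr.ts
  rw [← h.hs, ← mul_pow] at h1
  exact ((pow_left_inj₀ (mul_pos h.pr.t0 h.s0).le h.pr.x0.le two_ne_zero).1 h1).symm

theorem PX.ps : p ^ 2 + s ^ 2 = 1 := by
  rw [h.hs, h.pr.hy]
  ring

theorem PX.s1 : s < 1 := by
  have h1 := h.ps
  have h2 := h.pr.p0
  have h3 := h.s0
  nlinarith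

theorem PX.sR : s * √(1 + ρ ^ 2) = 1 := by
  have h1 := h.pr.ss
  have h2 := h.pr.hR
  have h3 := h.pr.s0
  have h4 : (s * √(1 + ρ ^ 2)) ^ 2 = 1 ^ 2 := by
    rw [mul_pow, h1, h.hs, h2]
    norm_num
  exact (pow_left_inj₀ (mul_pos h.s0 h3).le zero_le_one two_ne_zero).1 h4

theorem PX.prφ (hφ : 0 < φ) : Pr ρ φ p y (φ * s) := by
  have h1 := h.sR
  have h2 := h.s0
  refine ⟨h.pr.ρ0, hφ, h.pr.p0, h.pr.p1, h.pr.y0, h.pr.hy, h.pr.hR, h.pr.hp, by positivity, ?_⟩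
  rw [mul_assoc, h1, mul_one]

theorem PX.xpi : x ≤ π * s := by
  rw [h.xs]
  exact mul_le_mul_of_nonneg_right h.t1 h.s0.le

theorem PX.y0 : 0 < y := h.pr.y0
theorem PX.y1 : y < 1 := h.pr.y1
theorem PX.rpos : 0 < r := by linarith [h.r0]

theorem PX.rx : r * x ^ 2 ≤ r * (π ^ 2 * y) := by
  have h1 : x ^ 2 ≤ (π * s) ^ 2 := pow_le_pow_left₀ h.pr.x0.le h.xpi 2
  rw [mul_pow, h.hs] at h1
  exact mul_le_mul_of_nonneg_left h1 h.rpos.le

/-- `1/y ≤ .1234 r` -/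
theorem PX.yr : 8 / 987 * 1000 ≤ r * y * 1 := by
  have h1 := h.rx
  have h2 := h.hX
  have h3 : π ^ 2 ≤ 987 / 100 := by
    have := Real.pi_lt_d4
    nlinarith [Real.pi_pos]
  have h4 : 0 < r * y := mul_pos h.rpos h.y0
  nlinarith

end

/-! ## the clip `κ = min 1 (m/φ)` -/

theorem min_sq (hz : 0 < z) : z ^ 2 * min 1 (5 / (4 * z)) = min (z ^ 2) (5 / 4 * z) := by
  rw [mul_min_of_nonneg _ _ (sq_nonneg z)]
  congr 1
  · ring
  · field_simp

theorem PX.kmono (h : PX r ρ t p y x s) (hφ : t ≤ φ) :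
    x ^ 2 * min 1 (mm ρ / t) ≤ (φ * s) ^ 2 * min 1 (mm ρ / φ) := by
  have hφ0 : 0 < φ := h.pr.t0.trans_le hφ
  have hp := h.prφ hφ0
  rw [h.pr.mt, hp.mt, min_sq h.pr.x0, min_sq hp.x0]
  have h1 : x ≤ φ * s := by
    rw [h.xs]
    exact mul_le_mul_of_nonneg_right hφ h.s0.le
  have h2 := h.pr.x0
  exact min_le_min (pow_le_pow_left₀ h2.le h1 2) (by linarith)

/-- `A φ² ≥ α k x²` -/
theorem PX.U (h : PX r ρ t p y x s) (hφ : t ≤ φ) (hα : 0 ≤ α) (hA : α * y * min 1 (mm ρ / φ) ≤ A)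
    (hk : k ≤ min 1 (mm ρ / t)) : α * k * x ^ 2 ≤ A * φ ^ 2 := by
  have h1 := h.kmono hφ
  have h2 : α * k * x ^ 2 ≤ α * (x ^ 2 * min 1 (mm ρ / t)) := by
    rw [mul_assoc]
    refine mul_le_mul_of_nonneg_left ?_ hα
    rw [mul_comm k]
    exact mul_le_mul_of_nonneg_left hk (sq_nonneg x)
  have h3 : α * ((φ * s) ^ 2 * min 1 (mm ρ / φ)) = α * y * min 1 (mm ρ / φ) * φ ^ 2 := by
    rw [mul_pow, h.hs]
    ring
  calc α * k * x ^ 2 ≤ α * (x ^ 2 * min 1 (mm ρ / t)) := h2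
    _ ≤ α * ((φ * s) ^ 2 * min 1 (mm ρ / φ)) := mul_le_mul_of_nonneg_left h1 hα
    _ = α * y * min 1 (mm ρ / φ) * φ ^ 2 := h3
    _ ≤ A * φ ^ 2 := mul_le_mul_of_nonneg_right hA (sq_nonneg φ)

/-- `B φ² ≥ (B/y) x²` -/
theorem PX.V (h : PX r ρ t p y x s) (hφ : t ≤ φ) (hB : 0 ≤ B) : B / y * x ^ 2 ≤ B * φ ^ 2 := by
  have h1 : t ^ 2 ≤ φ ^ 2 := pow_le_pow_left₀ h.pr.t0.le hφ 2
  have h2 : B / y * x ^ 2 = B * t ^ 2 := by
    have := h.y0
    rw [← h.pr.ts]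
    field_simp
  rw [h2]
  exact mul_le_mul_of_nonneg_left h1 hB

/-- harmonic mean -/
theorem harm (hA : 0 < A) (hB : 0 < B) (hφ : 0 < φ) (hu : 0 < u) (hv : 0 < v)
    (hc0 : 0 ≤ c) {w : ℝ} (hU : u * w ≤ A * φ ^ 2) (hV : v * w ≤ B * φ ^ 2) (hc : c * (u + v) ≤ u * v) :
    c * w ≤ A * B * φ ^ 2 / (A + B) := by
  have hU0 : 0 < A * φ ^ 2 := by positivity
  have hV0 : 0 < B * φ ^ 2 := by positivity
  have hAB : 0 < A + B := by positivity
  rw [le_div_iff₀ hAB]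
  -- `c w (U + V) ≤ U V`
  have h1 : c * w * (A * φ ^ 2 + B * φ ^ 2) ≤ (A * φ ^ 2) * (B * φ ^ 2) := by
    set U := A * φ ^ 2
    set V := B * φ ^ 2
    have h2 : u * v * (c * w * (U + V)) ≤ u * v * (U * V) := by
      calc u * v * (c * w * (U + V)) = c * v * ((u * w) * V) + c * u * ((v * w) * U) := by
            rw [show u * v * (c * w * (U + V)) = c * v * ((u * w) * V) + c * u * ((v * w) * U) by ring]
        _ ≤ c * v * (U * V) + c * u * (V * U) :=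
            add_le_add (mul_le_mul_of_nonneg_left (mul_le_mul_of_nonneg_right hU hV0.le) (by positivity))
              (mul_le_mul_of_nonneg_left (mul_le_mul_of_nonneg_right hV hU0.le) (by positivity))
        _ = c * (u + v) * (U * V) := by ring
        _ ≤ u * v * (U * V) := mul_le_mul_of_nonneg_right hc (by positivity)
    exact le_of_mul_le_mul_left h2 (mul_pos hu hv)
  have h3 : 0 < φ ^ 2 := by positivity
  have h4 : φ ^ 2 * (c * w * (A + B)) ≤ φ ^ 2 * (A * B * φ ^ 2) := by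
    calc φ ^ 2 * (c * w * (A + B)) = c * w * (A * φ ^ 2 + B * φ ^ 2) := by ring
      _ ≤ _ := h1
      _ = _ := by ring
  exact le_of_mul_le_mul_left h4 h3

/-! ## bounds of `k` -/

theorem PX.kc (h : PX r ρ t p y x s) : (s ≤ 1989 / 5000 ∧ (1 : ℝ) ≤ min 1 (mm ρ / t)) ∨
    (1989 / 5000 < s ∧ 1989 / 5000 / s ≤ min 1 (mm ρ / t)) := by
  have h1 := h.xpi
  have h2 := h.pr.x0
  have h3 := h.s0
  have hpi := Real.pi_lt_d4
  have hpi0 := Real.pi_pos
  rw [h.pr.mt]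
  rcases le_or_gt s (1989 / 5000) with hs | hs
  · refine Or.inl ⟨hs, le_min le_rfl ?_⟩
    rw [one_le_div (by positivity)]
    nlinarith
  · refine Or.inr ⟨hs, le_min ((div_le_one h3).2 hs.le) ?_⟩
    rw [div_le_div_iff₀ h3 (by positivity)]
    nlinarith

theorem PX.kap_ge (h : PX r ρ t p y x s) (hφ0 : 0 < φ) (hφ : φ ≤ 2 * π) :
    1989 / 10000 ≤ min 1 (mm ρ / φ) := by
  have hpi := Real.pi_lt_d4
  refine le_min (by norm_num) ?_
  rw [le_div_iff₀ hφ0]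
  have := h.pr.m1
  nlinarith

/-! ## the coefficients -/

/-- lower coefficient, right -/
noncomputable def aR' (p : ℝ) : ℝ := 4 / (5 * p) - 23 / 50

theorem aR'_eq (hp : 0 < p) : aR' p = (4 / 5 - 23 / 50 * p) / p := by
  unfold aR'
  field_simp

theorem aa_eq (hp : 0 < p) : aa p = (4 / 5 - 8 / 25 * p) / p := by
  unfold aa
  field_simp

theorem aR'_ge (hp : 0 < p) (hp1 : p < 1) : 17 / 50 / p ≤ aR' p := by
  rw [aR'_eq hp]
  exact div_le_div_of_nonneg_right (by linarith) hp.le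

theorem aa_ge (hp : 0 < p) (hp1 : p < 1) : 12 / 25 / p ≤ aa p := by
  rw [aa_eq hp]
  exact div_le_div_of_nonneg_right (by linarith) hp.le

theorem aR'_le : aR' p ≤ aa p := by
  unfold aR' aa
  linarith

theorem PX.rA_ge (h : PX r ρ t p y x s) (hφ0 : 0 < φ) :
    aR' p * y * min 1 (mm ρ / φ) ≤ rA ρ φ := by
  have hp := h.prφ hφ0
  rw [hp.rA]
  have hm := hp.m0
  have hk : 0 ≤ min 1 (mm ρ / φ) := le_min zero_le_one (by positivity)
  have hc1 : cT (mm ρ) φ ≤ 1 := by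
    unfold cT
    exact min_le_left _ _
  have hc0 : 0 ≤ cT (mm ρ) φ := by
    unfold cT
    exact le_min zero_le_one (by positivity)
  have h1 : aR' p ≤ aa p - 8 / 25 * (cT (mm ρ) φ / 3 + 5 * cT (mm ρ) φ ^ 2 / 48) := by
    unfold aR' aa
    nlinarith
  have := h.y0
  gcongr

theorem PX.rA_pos (h : PX r ρ t p y x s) (hφ0 : 0 < φ) : 0 < rA ρ φ := by
  refine lt_of_lt_of_le ?_ (h.rA_ge hφ0)
  have hp0 := h.pr.p0
  have h1 : 0 < aR' p := lt_of_lt_of_le (by positivity) (aR'_ge hp0 h.pr.p1)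
  have hm := h.pr.m0
  have h2 : 0 < min 1 (mm ρ / φ) := lt_min zero_lt_one (by positivity)
  have := h.y0
  positivity

theorem PX.lA_eq (h : PX r ρ t p y x s) (hφ0 : 0 < φ) :
    lA ρ φ = aa p * y * min 1 (mm ρ / φ) := (h.prφ hφ0).lA

theorem PX.lA_pos (h : PX r ρ t p y x s) (hφ0 : 0 < φ) : 0 < lA ρ φ := by
  rw [h.lA_eq hφ0]
  have hp0 := h.pr.p0
  have h1 : 0 < aa p := lt_of_lt_of_le (by positivity) (aa_ge hp0 h.pr.p1)
  have hm := h.pr.m0
  have h2 : 0 < min 1 (mm ρ / φ) := lt_min zero_lt_one (by positivity)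
  have := h.y0
  positivity

/-- the constants `u = α k`, right -/
theorem PX.kR (h : PX r ρ t p y x s) : ∃ k, 0 < k ∧ k ≤ min 1 (mm ρ / t) ∧
    11 / 25 ≤ aR' p * k * (44 / 25 - y) ∧ 1 / 3 ≤ aR' p * k ∧ 1352 / 10000 / p ≤ aR' p * k := by
  have hp0 := h.pr.p0
  have hp1 := h.pr.p1
  have hs0 := h.s0
  have hps := h.ps
  have hy : y = 1 - p ^ 2 := h.pr.hy
  rw [aR'_eq hp0]
  rcases h.kc with ⟨h1, h2⟩ | ⟨h1, h2⟩
  · refine ⟨1, one_pos, h2, ?_, ?_, ?_⟩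
    · rw [mul_one, hy, div_mul_eq_mul_div, le_div_iff₀ hp0]
      nlinarith [mul_pos hp0 hp0, mul_pos (mul_pos hp0 hp0) (sub_pos.2 hp1), mul_pos hp0 (sub_pos.2 hp1)]
    · rw [mul_one, le_div_iff₀ hp0]
      linarith
    · rw [mul_one]
      exact div_le_div_of_nonneg_right (by linarith) hp0.le
  · have hps2 : p * s ≤ 1 / 2 := by nlinarith [sq_nonneg (p - s)]
    refine ⟨1989 / 5000 / s, by positivity, h2, ?_, ?_, ?_⟩
    · have e : (4 / 5 - 23 / 50 * p) / p * (1989 / 5000 / s) * (44 / 25 - y) =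
          (4 / 5 - 23 / 50 * p) * (1989 / 5000) * (19 / 25 + p ^ 2) / (p * s) := by
        rw [hy]
        field_simp
        ring
      rw [e, le_div_iff₀ (mul_pos hp0 hs0)]
      have h3 : 553 / 1000 ≤ (4 / 5 - 23 / 50 * p) * (19 / 25 + p ^ 2) := by
        nlinarith [mul_pos hp0 hp0, mul_pos (mul_pos hp0 hp0) (sub_pos.2 hp1),
          mul_pos hp0 (sub_pos.2 hp1), sq_nonneg (p - 3 / 10), mul_nonneg (sub_pos.2 hp1).le (sq_nonneg (p - 3 / 10))]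
      nlinarith
    · have e : (4 / 5 - 23 / 50 * p) / p * (1989 / 5000 / s) =
          (4 / 5 - 23 / 50 * p) * (1989 / 5000) / (p * s) := by
        field_simp
      rw [e, le_div_iff₀ (mul_pos hp0 hs0)]
      have h3 : s ≤ (34 / 25 - p ^ 2) / (6 / 5) := by
        rw [le_div_iff₀ (by norm_num)]
        nlinarith [sq_nonneg (s - 3 / 5)]
      have h4 : p * s ≤ p * ((34 / 25 - p ^ 2) / (6 / 5)) := mul_le_mul_of_nonneg_left h3 hp0.le
      nlinarith [mul_nonneg hp0.le (sq_nonneg (p - 41 / 50)), sq_nonneg (p - 41 / 50)]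
    · have e : (4 / 5 - 23 / 50 * p) / p * (1989 / 5000 / s) =
          (4 / 5 - 23 / 50 * p) * (1989 / 5000) / s / p := by
        field_simp
      rw [e]
      refine div_le_div_of_nonneg_right ?_ hp0.le
      rw [le_div_iff₀ hs0]
      nlinarith [h.s1]

/-- exponent of the right main term: `E ≥ X/4` -/
theorem PX.ERM (h : PX r ρ t p y x s) (hφ : t ≤ φ) :
    r * x ^ 2 / 4 ≤ r * (rA ρ φ * (11 / 25) * φ ^ 2 / (rA ρ φ + 11 / 25)) := by
  have hφ0 : 0 < φ := h.pr.t0.trans_le hφ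
  obtain ⟨k, hk0, hk, h1, h2, _⟩ := h.kR
  have hp0 := h.pr.p0
  have ha : 0 < aR' p := lt_of_lt_of_le (by positivity) (aR'_ge hp0 h.pr.p1)
  have hy := h.y0
  have hU := h.U hφ ha.le (h.rA_ge hφ0) hk
  have hV := h.V (B := 11 / 25) hφ (by norm_num)
  have h3 : 1 / 4 * x ^ 2 ≤ rA ρ φ * (11 / 25) * φ ^ 2 / (rA ρ φ + 11 / 25) := by
    refine harm (h.rA_pos hφ0) (by norm_num) hφ0 (by positivity) (by positivity) (by norm_num) hU hV ?_
    have e : aR' p * k * (11 / 25 / y) - 1 / 4 * (aR' p * k + 11 / 25 / y) =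
        (aR' p * k * (44 / 25 - y) - 11 / 25) / (4 * y) := by
      field_simp
      ring
    have h4 : 0 ≤ (aR' p * k * (44 / 25 - y) - 11 / 25) / (4 * y) :=
      div_nonneg (by linarith) (by positivity)
    linarith
  have := h.rpos
  nlinarith

/-- exponents of the tails: `r A φ² ≥ (4/15 + .027/p) X` -/
theorem PX.ET (h : PX r ρ t p y x s) (hφ : t ≤ φ) (hA : aR' p * y * min 1 (mm ρ / φ) ≤ A) :
    (4 / 15 + 27 / 1000 / p) * (r * x ^ 2) ≤ r * (A * φ ^ 2) := by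
  have hφ0 : 0 < φ := h.pr.t0.trans_le hφ
  obtain ⟨k, hk0, hk, _, h2, h3⟩ := h.kR
  have hp0 := h.pr.p0
  have ha : 0 < aR' p := lt_of_lt_of_le (by positivity) (aR'_ge hp0 h.pr.p1)
  have hU := h.U hφ ha.le hA hk
  have h4 : 4 / 15 + 27 / 1000 / p ≤ aR' p * k := by
    have e : 27 / 1000 / p ≤ 1 / 5 * (1352 / 10000 / p) := by
      rw [← mul_div_assoc]
      exact div_le_div_of_nonneg_right (by norm_num) hp0.le
    linarith
  have h5 := mul_le_mul_of_nonneg_right h4 (sq_nonneg x)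
  have h6 := mul_le_mul_of_nonneg_left (h5.trans hU) h.rpos.le
  calc _ = r * ((4 / 15 + 27 / 1000 / p) * x ^ 2) := by ring
    _ ≤ _ := h6

theorem PX.lA_ge (h : PX r ρ t p y x s) (hφ0 : 0 < φ) :
    aR' p * y * min 1 (mm ρ / φ) ≤ lA ρ φ := by
  rw [h.lA_eq hφ0]
  have hm := h.pr.m0
  have hk : 0 ≤ min 1 (mm ρ / φ) := le_min zero_le_one (by positivity)
  have := h.y0
  have := aR'_le (p := p)
  gcongr

end SokalDz
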