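import Pool.Agent.Lib_MP_af4de1_v3.DzX1

/-!
# The real inequalities of the fields `d` for `X > 80`, 2: the left main term (helper20)
-/

set_option autoImplicit false

namespace SokalDz

open Real MeasureTheory Set SokalCen SokalV3

variable {r ρ t φ p y x z s u v c k α A B l E0 : ℝ}

/-! ## numbers -/

theorem exp_neg_nat_le (n : ℕ) : exp (-(n : ℝ)) ≤ (1000 / 2718) ^ n := by
  have h1 : exp (-(n : ℝ)) = exp (-1) ^ n := by
    rw [← Real.exp_nat_mul]
    ring_nf
  rw [h1]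
  refine pow_le_pow_left₀ (exp_pos _).le ?_ n
  rw [Real.exp_neg, ← one_div, div_le_div_iff₀ (exp_pos _) (by norm_num)]
  have := Real.exp_one_gt_d9
  linarith

/-- clipped coefficient -/
noncomputable def bc : ℝ := 11 / 25 * exp (-1)

theorem bc_gt : 16186 / 100000 < bc := by
  unfold bc
  have := Real.exp_neg_one_gt_d9
  linarith

theorem bc_lt : bc < 1619 / 10000 := by
  unfold bc
  have := Real.exp_neg_one_lt_d9
  linarith

/-! ## exponents, clipped -/

theorem PX.pi (h : PX r ρ t p y x s) : PX r ρ π p y (π * s) s := by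
  refine ⟨h.prφ Real.pi_pos, h.r0, le_rfl, h.s0, h.hs, ?_⟩
  rw [mul_pow, h.hs]
  exact h.hX.trans_le h.rx

/-- `u(.16186 - .15 y) ≥ .024279` -/
theorem PX.kL15 (h : PX r ρ t p y x s) : ∃ k, 0 < k ∧ k ≤ min 1 (mm ρ / t) ∧
    3 / 20 ≤ aa p * k ∧ 24279 / 1000000 ≤ aa p * k * (16186 / 100000 - 3 / 20 * y) := by
  have hp0 := h.pr.p0
  have hp1 := h.pr.p1
  have hs0 := h.s0
  have hps := h.ps
  have hy : y = 1 - p ^ 2 := h.pr.hy
  rw [aa_eq hp0]
  rcases h.kc with ⟨h1, h2⟩ | ⟨h1, h2⟩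
  · refine ⟨1, one_pos, h2, ?_, ?_⟩
    · rw [mul_one, le_div_iff₀ hp0]
      linarith
    · rw [mul_one, hy, div_mul_eq_mul_div, le_div_iff₀ hp0]
      have h3 : 21 / 25 ≤ p ^ 2 := by nlinarith
      nlinarith
  · refine ⟨1989 / 5000 / s, by positivity, h2, ?_, ?_⟩
    · have e : (4 / 5 - 8 / 25 * p) / p * (1989 / 5000 / s) =
          (4 / 5 - 8 / 25 * p) * (1989 / 5000) / (p * s) := by
        field_simp
      have hps2 : p * s ≤ 1 / 2 := by nlinarith [sq_nonneg (p - s)]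
      rw [e, le_div_iff₀ (mul_pos hp0 hs0)]
      linarith
    · have e : (4 / 5 - 8 / 25 * p) / p * (1989 / 5000 / s) * (16186 / 100000 - 3 / 20 * y) =
          (4 / 5 - 8 / 25 * p) * (1989 / 5000) * (1186 / 100000 + 3 / 20 * p ^ 2) / (p * s) := by
        rw [hy]
        field_simp
        ring
      rw [e, le_div_iff₀ (mul_pos hp0 hs0)]
      have h3 : s ≤ (19216 / 10000 - p ^ 2) / (192 / 100) := by
        rw [le_div_iff₀ (by norm_num)]
        nlinarith [sq_nonneg (s - 24 / 25)]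
      have h4 : p * s ≤ p * ((19216 / 10000 - p ^ 2) / (192 / 100)) :=
        mul_le_mul_of_nonneg_left h3 hp0.le
      nlinarith [mul_nonneg hp0.le (sq_nonneg (p - 287 / 1000)), sq_nonneg (p - 287 / 1000),
        mul_nonneg (sub_pos.2 hp1).le (sq_nonneg (p - 287 / 1000))]

/-- `u(.16186 - .24 y) ≥ .0388464` for `y ≤ .3` -/
theorem PX.kL24 (h : PX r ρ t p y x s) (hy3 : y ≤ 3 / 10) : ∃ k, 0 < k ∧ k ≤ min 1 (mm ρ / t) ∧
    6 / 25 ≤ aa p * k ∧ 388464 / 10000000 ≤ aa p * k * (16186 / 100000 - 6 / 25 * y) := by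
  have hp0 := h.pr.p0
  have hp1 := h.pr.p1
  have hs0 := h.s0
  have hps := h.ps
  have hy : y = 1 - p ^ 2 := h.pr.hy
  have hys : s ^ 2 = y := h.hs
  rw [aa_eq hp0]
  rcases h.kc with ⟨h1, h2⟩ | ⟨h1, h2⟩
  · refine ⟨1, one_pos, h2, ?_, ?_⟩
    · rw [mul_one, le_div_iff₀ hp0]
      linarith
    · rw [mul_one, hy, div_mul_eq_mul_div, le_div_iff₀ hp0]
      have h3 : 21 / 25 ≤ p ^ 2 := by nlinarith
      nlinarith
  · refine ⟨1989 / 5000 / s, by positivity, h2, ?_, ?_⟩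
    · have e : (4 / 5 - 8 / 25 * p) / p * (1989 / 5000 / s) =
          (4 / 5 - 8 / 25 * p) * (1989 / 5000) / (p * s) := by
        field_simp
      have hps2 : p * s ≤ 1 / 2 := by nlinarith [sq_nonneg (p - s)]
      rw [e, le_div_iff₀ (mul_pos hp0 hs0)]
      linarith
    · have e : (4 / 5 - 8 / 25 * p) / p * (1989 / 5000 / s) * (16186 / 100000 - 6 / 25 * y) =
          (4 / 5 - 8 / 25 * p) * (1989 / 5000) * (16186 / 100000 - 6 / 25 * s ^ 2) / (p * s) := by
        rw [hys]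
        field_simp
      rw [e, le_div_iff₀ (mul_pos hp0 hs0)]
      have hs2 : s ^ 2 ≤ 3 / 10 := by rw [hys]; exact hy3
      have hs3 : s ≤ 5478 / 10000 := by
        by_contra hc
        have : 5478 / 10000 < s := not_le.1 hc
        nlinarith
      have h3 : p ≤ (16999 / 10000 - s ^ 2) / (16732 / 10000) := by
        rw [le_div_iff₀ (by norm_num)]
        nlinarith [sq_nonneg (p - 8366 / 10000)]
      have h4 : p * s ≤ (16999 / 10000 - s ^ 2) / (16732 / 10000) * s :=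
        mul_le_mul_of_nonneg_right h3 hs0.le
      have h5 : 0 ≤ 16186 / 100000 - 6 / 25 * s ^ 2 := by linarith
      have h6 : (4 / 5 - 8 / 25 * ((16999 / 10000 - s ^ 2) / (16732 / 10000))) *
          (16186 / 100000 - 6 / 25 * s ^ 2) ≤ (4 / 5 - 8 / 25 * p) *
          (16186 / 100000 - 6 / 25 * s ^ 2) := mul_le_mul_of_nonneg_right (by linarith) h5
      have h7 : 388464 / 10000000 * ((16999 / 10000 - s ^ 2) / (16732 / 10000) * s) ≤
          1989 / 5000 * ((4 / 5 - 8 / 25 * ((16999 / 10000 - s ^ 2) / (16732 / 10000))) *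
          (16186 / 100000 - 6 / 25 * s ^ 2)) := by
        nlinarith [mul_nonneg (sub_nonneg.2 h1.le) (sub_nonneg.2 hs3), mul_pos hs0 hs0,
          mul_nonneg (mul_nonneg (sub_nonneg.2 h1.le) (sub_nonneg.2 hs3)) hs0.le]
      nlinarith

theorem clip_aux (hy : 0 < y) (hu : c ≤ u) (_hc : 0 < c)
    (h1 : 16186 / 100000 * c ≤ u * (16186 / 100000 - c * y)) :
    c * (u + bc / y) ≤ u * (bc / y) := by
  have hb := bc_gt
  have e : u * (bc / y) - c * (u + bc / y) = (bc * (u - c) - c * y * u) / y := by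
    field_simp
    ring
  have h2 : 0 ≤ (bc * (u - c) - c * y * u) / y := by
    refine div_nonneg ?_ hy.le
    nlinarith [mul_nonneg (sub_nonneg.2 hb.le) (sub_nonneg.2 hu)]
  linarith

theorem PX.ELM15 (h : PX r ρ t p y x s) (hφ : t ≤ φ) :
    3 / 20 * (r * x ^ 2) ≤ r * (lA ρ φ * bc * φ ^ 2 / (lA ρ φ + bc) - 0) := by
  have hφ0 : 0 < φ := h.pr.t0.trans_le hφ
  obtain ⟨k, hk0, hk, h1, h2⟩ := h.kL15
  have hp0 := h.pr.p0
  have ha : 0 < aa p := lt_of_lt_of_le (by positivity) (aa_ge hp0 h.pr.p1)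
  have hy := h.y0
  have hb : 0 < bc := lt_trans (by norm_num) bc_gt
  have hU := h.U hφ ha.le (h.lA_eq hφ0).ge hk
  have hV := h.V (B := bc) hφ hb.le
  have h3 : 3 / 20 * x ^ 2 ≤ lA ρ φ * bc * φ ^ 2 / (lA ρ φ + bc) := by
    refine harm (h.lA_pos hφ0) hb hφ0 (by positivity) (by positivity) (by norm_num) hU hV ?_
    exact clip_aux hy h1 (by norm_num) (by linarith)
  have := h.rpos
  rw [sub_zero]
  nlinarith

theorem PX.ELM24 (h : PX r ρ t p y x s) (hφ : t ≤ φ) (hy3 : y ≤ 3 / 10) :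
    6 / 25 * (r * x ^ 2) ≤ r * (lA ρ φ * bc * φ ^ 2 / (lA ρ φ + bc) - 0) := by
  have hφ0 : 0 < φ := h.pr.t0.trans_le hφ
  obtain ⟨k, hk0, hk, h1, h2⟩ := h.kL24 hy3
  have hp0 := h.pr.p0
  have ha : 0 < aa p := lt_of_lt_of_le (by positivity) (aa_ge hp0 h.pr.p1)
  have hy := h.y0
  have hb : 0 < bc := lt_trans (by norm_num) bc_gt
  have hU := h.U hφ ha.le (h.lA_eq hφ0).ge hk
  have hV := h.V (B := bc) hφ hb.le
  have h3 : 6 / 25 * x ^ 2 ≤ lA ρ φ * bc * φ ^ 2 / (lA ρ φ + bc) := by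
    refine harm (h.lA_pos hφ0) hb hφ0 (by positivity) (by positivity) (by norm_num) hU hV ?_
    exact clip_aux hy h1 (by norm_num) (by linarith)
  have := h.rpos
  rw [sub_zero]
  nlinarith

theorem HL_bc : HL ρ φ bc 0 := HL_clip (HR_11_25 φ)

/-! ## the case `y > 3/10`, `X ≤ 130`, left -/

theorem HL.mono {B' l' : ℝ} (h : HL ρ φ B l) (hB : 0 < B') (h1 : B' ≤ B) (h2 : l ≤ l') :
    HL ρ φ B' l' := by
  refine ⟨hB, h.2.1.trans h2, fun v h0 h3 h4 => ?_⟩
  have h5 := h.2.2 v h0 h3 h4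
  have h6 : B' * (φ - v) ^ 2 ≤ B * (φ - v) ^ 2 := mul_le_mul_of_nonneg_right h1 (sq_nonneg _)
  linarith

theorem PX.x130 (h : PX r ρ t p y x s) (hX : r * x ^ 2 ≤ 130) : x ≤ 16141 / 10000 := by
  have hr := h.r0
  have hx := h.pr.x0
  by_contra hc
  have h1 : 16141 / 10000 < x := not_le.1 hc
  have h2 : (16141 / 10000 : ℝ) ^ 2 < x ^ 2 := pow_lt_pow_left₀ h1 (by norm_num) two_ne_zero
  nlinarith

theorem PX.HL130 (h : PX r ρ t p y x s) (hX : r * x ^ 2 ≤ 130) :
    HL ρ t (63 / 200) (13 / 500 * t ^ 2) := by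
  have hx := h.x130 hX
  have hx0 := h.pr.x0
  have h0 := HL_sig (ρ := ρ) (σ := 1 / 4) h.pr.t0 (HR_11_25 t) (by norm_num) (by norm_num)
  rw [h.pr.tm] at h0
  have hT : 1 / 4 * (4 / 5 * x) ≤ 3229 / 10000 := by linarith
  have h1 : 63 / 88 ≤ exp (-(1 / 4 * (4 / 5 * x))) := by
    have h2 := Real.one_sub_div_pow_le_exp_neg (n := 8) (t := 3229 / 10000) (by norm_num)
    have h3 : exp (-(3229 / 10000)) ≤ exp (-(1 / 4 * (4 / 5 * x))) := exp_le_exp.2 (by linarith)
    norm_num at h2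
    linarith
  refine h0.mono (by norm_num) (by linarith) ?_
  have h4 := Real.quadratic_le_exp_of_nonneg (x := 1 / 4 * (4 / 5 * x)) (by positivity)
  have h5 : (4 / 5 * x) * exp (-(1 / 4 * (4 / 5 * x))) ≤ 416 / 440 := by
    rw [Real.exp_neg, ← div_eq_mul_inv, div_le_iff₀ (exp_pos _)]
    nlinarith
  have h6 : 4 / 27 * (1 - 1 / 4) ^ 3 * (4 / 5 * x) * (11 / 25 * exp (-(1 / 4 * (4 / 5 * x)))) =
      11 / 400 * ((4 / 5 * x) * exp (-(1 / 4 * (4 / 5 * x)))) := by ring
  rw [h6]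
  refine mul_le_mul_of_nonneg_right ?_ (sq_nonneg t)
  linarith

theorem PX.ELM23 (h : PX r ρ t p y x s) (hX : r * x ^ 2 ≤ 130) (hy3 : 3 / 10 ≤ y) :
    23 / 100 * (r * x ^ 2) ≤ r * (lA ρ t * (63 / 200) * t ^ 2 / (lA ρ t + 63 / 200) -
      13 / 500 * t ^ 2) := by
  have ht0 := h.pr.t0
  have hx := h.x130 hX
  have hx0 := h.pr.x0
  have hp0 := h.pr.p0
  have hp1 := h.pr.p1
  have ha : 0 < aa p := lt_of_lt_of_le (by positivity) (aa_ge hp0 h.pr.p1)
  have hy := h.y0
  have hyp : y = 1 - p ^ 2 := h.pr.hy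
  have hk : 7744 / 10000 ≤ min 1 (mm ρ / t) := by
    rw [h.pr.mt]
    refine le_min (by norm_num) ?_
    rw [le_div_iff₀ (by positivity)]
    linarith
  have hU := h.U (le_refl t) ha.le (h.lA_eq ht0).ge hk
  have hV := h.V (B := 63 / 200) (le_refl t) (by norm_num)
  have h3 : (23 / 100 + 13 / 500 / y) * x ^ 2 ≤
      lA ρ t * (63 / 200) * t ^ 2 / (lA ρ t + 63 / 200) := by
    refine harm (h.lA_pos ht0) (by norm_num) ht0 (by positivity) (by positivity) (by positivity)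
      hU hV ?_
    have e : aa p * (7744 / 10000) * (63 / 200 / y) -
        (23 / 100 + 13 / 500 / y) * (aa p * (7744 / 10000) + 63 / 200 / y) =
        ((4 / 5 - 8 / 25 * p) * (7744 / 10000) * y * (289 / 1000 - 23 / 100 * y) -
          63 / 200 * p * (23 / 100 * y + 13 / 500)) / (p * y ^ 2) := by
      rw [aa_eq hp0]
      field_simp
      ring
    have h4 : 0 ≤ ((4 / 5 - 8 / 25 * p) * (7744 / 10000) * y * (289 / 1000 - 23 / 100 * y) -
          63 / 200 * p * (23 / 100 * y + 13 / 500)) / (p * y ^ 2) := by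
      refine div_nonneg ?_ (by positivity)
      have hp2 : p ^ 2 ≤ 7 / 10 := by linarith
      have hp3 : p ≤ 8367 / 10000 := by
        by_contra hc
        have : 8367 / 10000 < p := not_le.1 hc
        nlinarith
      have hy1 := h.y1
      have h6 : 0 ≤ y * (289 / 1000 - 23 / 100 * y) := by
        have : 0 ≤ 289 / 1000 - 23 / 100 * y := by linarith
        positivity
      rcases le_total y (4 / 5) with hy4 | hy4
      · have h5 : p ≤ (17 / 10 - y) / (16732 / 10000) := by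
          rw [le_div_iff₀ (by norm_num)]
          nlinarith [sq_nonneg (p - 8366 / 10000)]
        have h7 : (4 / 5 - 8 / 25 * ((17 / 10 - y) / (16732 / 10000))) *
            (y * (289 / 1000 - 23 / 100 * y)) ≤
            (4 / 5 - 8 / 25 * p) * (y * (289 / 1000 - 23 / 100 * y)) :=
          mul_le_mul_of_nonneg_right (by linarith) h6
        have h8 : p * (23 / 100 * y + 13 / 500) ≤
            (17 / 10 - y) / (16732 / 10000) * (23 / 100 * y + 13 / 500) :=
          mul_le_mul_of_nonneg_right h5 (by positivity)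
        have h9 : 63 / 200 * ((17 / 10 - y) / (16732 / 10000) * (23 / 100 * y + 13 / 500)) ≤
            7744 / 10000 * ((4 / 5 - 8 / 25 * ((17 / 10 - y) / (16732 / 10000))) *
              (y * (289 / 1000 - 23 / 100 * y))) := by
          nlinarith [mul_nonneg (sub_nonneg.2 hy3) (sub_nonneg.2 hy4),
            mul_nonneg (mul_nonneg (sub_nonneg.2 hy3) (sub_nonneg.2 hy4)) hy.le]
        nlinarith
      · have h5 : p ≤ (481 / 400 - y) / (9 / 10) := by
          rw [le_div_iff₀ (by norm_num)]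
          nlinarith [sq_nonneg (p - 9 / 20)]
        have h7 : (4 / 5 - 8 / 25 * ((481 / 400 - y) / (9 / 10))) *
            (y * (289 / 1000 - 23 / 100 * y)) ≤
            (4 / 5 - 8 / 25 * p) * (y * (289 / 1000 - 23 / 100 * y)) :=
          mul_le_mul_of_nonneg_right (by linarith) h6
        have h8 : p * (23 / 100 * y + 13 / 500) ≤
            (481 / 400 - y) / (9 / 10) * (23 / 100 * y + 13 / 500) :=
          mul_le_mul_of_nonneg_right h5 (by positivity)
        have h9 : 63 / 200 * ((481 / 400 - y) / (9 / 10) * (23 / 100 * y + 13 / 500)) ≤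
            7744 / 10000 * ((4 / 5 - 8 / 25 * ((481 / 400 - y) / (9 / 10))) *
              (y * (289 / 1000 - 23 / 100 * y))) := by
          nlinarith [mul_nonneg (sub_nonneg.2 hy4) (sub_nonneg.2 hy1.le),
            mul_nonneg (mul_nonneg (sub_nonneg.2 hy4) (sub_nonneg.2 hy1.le)) hy.le]
        nlinarith
    linarith
  have h10 : 13 / 500 / y * x ^ 2 = 13 / 500 * t ^ 2 := by
    rw [← h.pr.ts]
    field_simp
  have h11 : 23 / 100 * x ^ 2 ≤ lA ρ t * (63 / 200) * t ^ 2 / (lA ρ t + 63 / 200) -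
      13 / 500 * t ^ 2 := by linarith
  have := h.rpos
  nlinarith

/-! ## prefactors -/

theorem PX.kap_s (h : PX r ρ t p y x s) (hφ0 : 0 < φ) (hφ : φ ≤ 2 * π) :
    min 1 (1989 / 10000 / s) ≤ min 1 (mm ρ / φ) := by
  have hpi := Real.pi_lt_d4
  have hs := h.s0
  refine min_le_min le_rfl ?_
  rw [(h.prφ hφ0).mt, div_le_div_iff₀ hs (by positivity)]
  nlinarith [mul_pos hφ0 hs]

theorem PX.PPle (h : PX r ρ t p y x s) (hy3 : y ≤ 3 / 10) : PP p y ≤ 143 / 100 := by
  have hp0 := h.pr.p0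
  have hy : y = 1 - p ^ 2 := h.pr.hy
  have hp3 : 8366 / 10000 ≤ p := by
    by_contra hc
    have : p < 8366 / 10000 := not_le.1 hc
    nlinarith
  unfold PP
  rw [div_le_iff₀ hp0]
  linarith

/-- for `y ≥ 3/10`: `p ≤ .8367`, `s ≥ .5477` -/
theorem PX.big (h : PX r ρ t p y x s) (hy3 : 3 / 10 ≤ y) : p ≤ 8367 / 10000 ∧ 5477 / 10000 ≤ s := by
  have hp0 := h.pr.p0
  have hs0 := h.s0
  have hy : y = 1 - p ^ 2 := h.pr.hy
  have hs := h.hs
  constructor
  · by_contra hc
    have : 8367 / 10000 < p := not_le.1 hc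
    nlinarith
  · by_contra hc
    have : s < 5477 / 10000 := not_le.1 hc
    nlinarith

/-- `PP ≤ 22 lA` for `y ≥ 3/10` -/
theorem PX.PL0 (h : PX r ρ t p y x s) (hφ0 : 0 < φ) (hφ : φ ≤ 2 * π) (hy3 : 3 / 10 ≤ y) :
    PP p y ≤ 22 * lA ρ φ := by
  have hA := h.lA_pos hφ0
  have hp0 := h.pr.p0
  have hp1 := h.pr.p1
  have hy0 := h.y0
  have hy1 := h.y1
  have hs0 := h.s0
  obtain ⟨hp3, hs3⟩ := h.big hy3
  have hk := h.kap_s hφ0 hφ
  rw [h.lA_eq hφ0, aa_eq hp0]
  unfold PP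
  rw [div_le_iff₀ hp0]
  have e : 22 * ((4 / 5 - 8 / 25 * p) / p * y * min 1 (mm ρ / φ)) * p =
      22 * (4 / 5 - 8 / 25 * p) * (y * min 1 (mm ρ / φ)) := by field_simp
  rw [e]
  have h2 : y * min 1 (1989 / 10000 / s) ≤ y * min 1 (mm ρ / φ) :=
    mul_le_mul_of_nonneg_left hk hy0.le
  have h3 : (1 + 16 / 25 * y) ≤ 22 * (5322 / 10000) * (y * min 1 (1989 / 10000 / s)) := by
    rcases le_total 1 (1989 / 10000 / s) with h4 | h4
    · rw [min_eq_left h4]
      linarith
    · rw [min_eq_right h4]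
      have e2 : y * (1989 / 10000 / s) = 1989 / 10000 * s := by
        rw [← h.hs]
        field_simp
      rw [e2]
      have h5 := h.s1
      rw [← h.hs]
      nlinarith
  have h4 : 22 * (5322 / 10000) * (y * min 1 (mm ρ / φ)) ≤
      22 * (4 / 5 - 8 / 25 * p) * (y * min 1 (mm ρ / φ)) := by
    have h5 : 0 ≤ y * min 1 (mm ρ / φ) := by
      have := h.pr.m0
      positivity
    exact mul_le_mul_of_nonneg_right (by linarith) h5
  have h5 : 22 * (5322 / 10000) * (y * min 1 (1989 / 10000 / s)) ≤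
      22 * (5322 / 10000) * (y * min 1 (mm ρ / φ)) :=
    mul_le_mul_of_nonneg_left h2 (by norm_num)
  linarith

/-- `PP/(lA + B) ≤ 22` -/
theorem PX.PL (h : PX r ρ t p y x s) (hφ0 : 0 < φ) (hφ : φ ≤ 2 * π) (hB : 4 / 25 ≤ B) :
    PP p y / (lA ρ φ + B) ≤ 22 := by
  have hA := h.lA_pos hφ0
  rw [div_le_iff₀ (by linarith)]
  rcases le_total y (3 / 10) with hy3 | hy3
  · have := h.PPle hy3
    nlinarith
  · have h1 := h.PL0 hφ0 hφ hy3
    linarith

/-- `PP/(rA + 11/25) ≤ 28` -/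
theorem PX.PR (h : PX r ρ t p y x s) (hφ0 : 0 < φ) (hφ : φ ≤ 2 * π) :
    PP p y / (rA ρ φ + 11 / 25) ≤ 28 := by
  have hA := h.rA_pos hφ0
  have hp0 := h.pr.p0
  have hp1 := h.pr.p1
  have hy0 := h.y0
  have hy1 := h.y1
  have hs0 := h.s0
  rw [div_le_iff₀ (by linarith)]
  rcases le_total y (3 / 10) with hy3 | hy3
  · have := h.PPle hy3
    nlinarith
  · obtain ⟨hp3, hs3⟩ := h.big hy3
    have hk := h.kap_s hφ0 hφ
    have h1 : PP p y ≤ 28 * rA ρ φ := by
      refine le_trans ?_ (mul_le_mul_of_nonneg_left (h.rA_ge hφ0) (by norm_num))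
      rw [aR'_eq hp0]
      unfold PP
      rw [div_le_iff₀ hp0]
      have e : 28 * ((4 / 5 - 23 / 50 * p) / p * y * min 1 (mm ρ / φ)) * p =
          28 * (4 / 5 - 23 / 50 * p) * (y * min 1 (mm ρ / φ)) := by field_simp
      rw [e]
      have h2 : y * min 1 (1989 / 10000 / s) ≤ y * min 1 (mm ρ / φ) :=
        mul_le_mul_of_nonneg_left hk hy0.le
      have h3 : (1 + 16 / 25 * y) ≤ 28 * (4151 / 10000) * (y * min 1 (1989 / 10000 / s)) := by
        rcases le_total 1 (1989 / 10000 / s) with h4 | h4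
        · rw [min_eq_left h4]
          linarith
        · rw [min_eq_right h4]
          have e2 : y * (1989 / 10000 / s) = 1989 / 10000 * s := by
            rw [← h.hs]
            field_simp
          rw [e2]
          have h5 := h.s1
          rw [← h.hs]
          nlinarith
      have h4 : 28 * (4151 / 10000) * (y * min 1 (mm ρ / φ)) ≤
          28 * (4 / 5 - 23 / 50 * p) * (y * min 1 (mm ρ / φ)) := by
        have h5 : 0 ≤ y * min 1 (mm ρ / φ) := by
          have := h.pr.m0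
          positivity
        exact mul_le_mul_of_nonneg_right (by linarith) h5
      have h5 : 28 * (4151 / 10000) * (y * min 1 (1989 / 10000 / s)) ≤
          28 * (4151 / 10000) * (y * min 1 (mm ρ / φ)) :=
        mul_le_mul_of_nonneg_left h2 (by norm_num)
      linarith
    linarith

end SokalDz
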