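import Pool.Agent.Lib_MP_af4de1_v3.DzX2

/-!
# The real inequalities of the fields `d` for `X > 80`, 3: all terms but the far ones (helper20)

Unit: `27/10000 * exp (-(X/25))`.
-/

set_option autoImplicit false

namespace SokalDz

open Real MeasureTheory Set SokalCen SokalV3

variable {r ρ t φ p y x z s u v c k α A B l E0 : ℝ}

theorem exp_split {E X G : ℝ} (h : X / 25 + G ≤ 8 / 9 * E) :
    exp (-(8 / 9 * E)) ≤ exp (-G) * exp (-(X / 25)) := by
  rw [← exp_add]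
  exact exp_le_exp.2 (by linarith)

/-- the left main term -/
theorem PX.tLM (h : PX r ρ t p y x s) (hφ0 : 0 < φ) (hφ : φ ≤ 2 * π) (hB : 4 / 25 ≤ B)
    (hE : E0 ≤ r * (lA ρ φ * B * φ ^ 2 / (lA ρ φ + B) - l))
    (h12 : r * x ^ 2 / 25 + 12 ≤ 8 / 9 * E0) :
    Kc r ρ * (20 / 3 * lM (8 / 9 * r) ρ φ B l + 1 * lM r ρ φ B l) ≤
      56 / 1000 * (27 / 10000 * exp (-(r * x ^ 2 / 25))) := by
  have hX := h.hX
  have hr := h.rpos
  have hA := h.lA_pos hφ0
  have hP := h.pr.PP0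
  have hd : exp (-(E0 / 9)) ≤ 1 / 5 := by
    have h1 : exp (-(E0 / 9)) ≤ exp (-(19 / 10)) := exp_le_exp.2 (by linarith)
    have h2 := exp_neg_nat_le 1
    have h3 : exp (-(19 / 10)) = exp (-((1 : ℕ) : ℝ)) * exp (-(9 / 10)) := by
      rw [← exp_add]; norm_num
    have h4 : exp (-(9 / 10)) ≤ 1 / 2 := by
      have h5 := Real.one_sub_div_pow_le_exp_neg (n := 1) (t := 0) (by norm_num)
      have h6 : 2 ≤ exp (9 / 10) := by
        have := Real.quadratic_le_exp_of_nonneg (x := 9 / 10) (by norm_num)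
        norm_num at this
        linarith
      rw [Real.exp_neg, ← one_div]
      exact one_div_le_one_div_of_le (by norm_num) h6
    rw [h3] at h1
    refine h1.trans ?_
    calc exp (-((1 : ℕ) : ℝ)) * exp (-(9 / 10)) ≤ (1000 / 2718) ^ 1 * (1 / 2) :=
          mul_le_mul h2 h4 (exp_pos _).le (by norm_num)
      _ ≤ _ := by norm_num
  have h1 := h.pr.gauss (a := 20 / 3) (b := 1) hr (A := lA ρ φ + B) (by linarith) (by norm_num)
    (by norm_num) hE hd
  have h2 := exp_split (G := 12) (E := E0) (X := r * x ^ 2) (by linarith)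
  have h3 : exp (-12) ≤ 1 / 162000 := by
    have := exp_neg_nat_le 12
    norm_num at this
    linarith
  have h4 : √(PP p y / (lA ρ φ + B)) ≤ 47 / 10 := by
    rw [Real.sqrt_le_left (by norm_num)]
    have := h.PL hφ0 hφ hB
    linarith
  have h5 : exp (-(8 / 9 * E0)) ≤ 1 / 162000 * exp (-(r * x ^ 2 / 25)) :=
    h2.trans (mul_le_mul_of_nonneg_right h3 (exp_pos _).le)
  unfold lM
  refine h1.trans ?_
  have hS := Real.sqrt_nonneg (PP p y / (lA ρ φ + B))
  calc (3 / 4 * (20 / 3) + 7072 / 10000 * 1 * (1 / 5)) * √(PP p y / (lA ρ φ + B)) *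
        exp (-(8 / 9 * E0)) ≤ (3 / 4 * (20 / 3) + 7072 / 10000 * 1 * (1 / 5)) * (47 / 10) *
        (1 / 162000 * exp (-(r * x ^ 2 / 25))) :=
        mul_le_mul (mul_le_mul_of_nonneg_left h4 (by norm_num)) h5 (exp_pos _).le (by norm_num)
    _ = (3 / 4 * (20 / 3) + 7072 / 10000 * 1 * (1 / 5)) * (47 / 10) * (1 / 162000) *
        exp (-(r * x ^ 2 / 25)) := by ring
    _ ≤ 56 / 1000 * (27 / 10000) * exp (-(r * x ^ 2 / 25)) :=
        mul_le_mul_of_nonneg_right (by norm_num) (exp_pos _).le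
    _ = _ := by ring

/-- the right main term -/
theorem PX.tRM (h : PX r ρ t p y x s) (hφ1 : t ≤ φ) (hφ : φ ≤ 2 * π) :
    Kc r ρ * (56 / 3 * rM (8 / 9 * r) ρ φ (11 / 25) + 68 / 25 * rM r ρ φ (11 / 25)) ≤
      25 / 1000 * (27 / 10000 * exp (-(r * x ^ 2 / 25))) := by
  have hφ0 : 0 < φ := h.pr.t0.trans_le hφ1
  have hX := h.hX
  have hr := h.rpos
  have hA := h.rA_pos hφ0
  have hP := h.pr.PP0
  have hE := h.ERM hφ1
  have hd : exp (-(r * x ^ 2 / 4 / 9)) ≤ 1 / 5 := by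
    have h1 : exp (-(r * x ^ 2 / 4 / 9)) ≤ exp (-(2 : ℕ) : ℝ) := exp_le_exp.2 (by
      push_cast
      linarith)
    have h2 := exp_neg_nat_le 2
    refine (h1.trans h2).trans (by norm_num)
  have h1 := h.pr.gauss (a := 56 / 3) (b := 68 / 25) hr (A := rA ρ φ + 11 / 25) (by linarith)
    (by norm_num) (by norm_num) hE hd
  have h2 := exp_split (G := 14) (E := r * x ^ 2 / 4) (X := r * x ^ 2) (by linarith)
  have h3 : exp (-14) ≤ 1 / 1200000 := by
    have := exp_neg_nat_le 14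
    norm_num at this
    linarith
  have h4 : √(PP p y / (rA ρ φ + 11 / 25)) ≤ 53 / 10 := by
    rw [Real.sqrt_le_left (by norm_num)]
    have := h.PR hφ0 hφ
    linarith
  have h5 : exp (-(8 / 9 * (r * x ^ 2 / 4))) ≤ 1 / 1200000 * exp (-(r * x ^ 2 / 25)) :=
    h2.trans (mul_le_mul_of_nonneg_right h3 (exp_pos _).le)
  unfold rM
  refine h1.trans ?_
  have hS := Real.sqrt_nonneg (PP p y / (rA ρ φ + 11 / 25))
  calc (3 / 4 * (56 / 3) + 7072 / 10000 * (68 / 25) * (1 / 5)) * √(PP p y / (rA ρ φ + 11 / 25)) *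
        exp (-(8 / 9 * (r * x ^ 2 / 4))) ≤
        (3 / 4 * (56 / 3) + 7072 / 10000 * (68 / 25) * (1 / 5)) * (53 / 10) *
        (1 / 1200000 * exp (-(r * x ^ 2 / 25))) :=
        mul_le_mul (mul_le_mul_of_nonneg_left h4 (by norm_num)) h5 (exp_pos _).le (by norm_num)
    _ = (3 / 4 * (56 / 3) + 7072 / 10000 * (68 / 25) * (1 / 5)) * (53 / 10) * (1 / 1200000) *
        exp (-(r * x ^ 2 / 25)) := by ring
    _ ≤ 25 / 1000 * (27 / 10000) * exp (-(r * x ^ 2 / 25)) :=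
        mul_le_mul_of_nonneg_right (by norm_num) (exp_pos _).le
    _ = _ := by ring

/-- tails -/
theorem PX.tT (h : PX r ρ t p y x s) (hφ1 : t ≤ φ) {a b c : ℝ} (ha : 0 ≤ a) (hb : 0 ≤ b) (hc : 0 ≤ c)
    (hab : c * (4232 / 10000 * a + 399 / 1000 * b * 1) ≤ 14)
    (hA : aR' p * y * min 1 (mm ρ / φ) ≤ A) :
    Kc r ρ * (a * (c / √(8 / 9 * r) * exp (-(8 / 9 * r * (A * φ ^ 2)))) +
      b * (c / √r * exp (-(r * (A * φ ^ 2))))) ≤
      2 / 1000 * (27 / 10000 * exp (-(r * x ^ 2 / 25))) := by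
  have hφ0 : 0 < φ := h.pr.t0.trans_le hφ1
  have hX := h.hX
  have hr := h.rpos
  have hP := h.pr.PP0
  have hp0 := h.pr.p0
  have hp1 := h.pr.p1
  have hE := h.ET hφ1 hA
  set E := (4 / 15 + 27 / 1000 / p) * (r * x ^ 2) with hEdef
  have hE0 : 0 ≤ E := by
    have : 0 < 27 / 1000 / p := by positivity
    have : 0 < r * x ^ 2 := by linarith
    positivity
  have hd : exp (-(E / 9)) ≤ 1 := by
    rw [← exp_zero]
    exact exp_le_exp.2 (by linarith)
  have h1 := h.pr.tail (a := a) (b := b) hr hc ha hb hE hd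
  refine h1.trans ?_
  -- `√PP ≤ 13/10 exp (1/p - 1)`
  have hw : 1 ≤ 1 / p := by
    rw [one_le_div hp0]
    exact hp1.le
  have h2 : √(PP p y) ≤ 13 / 10 * exp (1 / p - 1) := by
    have h3 : 1 / p ≤ exp (1 / p - 1) := by
      have := Real.add_one_le_exp (1 / p - 1)
      linarith
    refine le_trans ?_ (mul_le_mul_of_nonneg_left h3 (by norm_num))
    rw [Real.sqrt_le_left (by positivity)]
    unfold PP
    have h4 : (1 + 16 / 25 * y) / p ≤ 164 / 100 * (1 / p) := by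
      rw [mul_one_div]
      exact div_le_div_of_nonneg_right (by linarith [h.y1]) hp0.le
    refine h4.trans ?_
    nlinarith
  have h3 : exp (-(8 / 9 * E)) ≤ exp (-16 - (1 / p - 1)) * exp (-(r * x ^ 2 / 25)) := by
    rw [← exp_add]
    refine exp_le_exp.2 ?_
    have e : 8 / 9 * E = 32 / 135 * (r * x ^ 2) + 24 / 1000 * (1 / p) * (r * x ^ 2) := by
      rw [hEdef]
      field_simp
      ring
    rw [e]
    have h4 : 24 / 1000 * (1 / p) * 80 ≤ 24 / 1000 * (1 / p) * (r * x ^ 2) :=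
      mul_le_mul_of_nonneg_left hX.le (by positivity)
    linarith
  have h4 : exp (1 / p - 1) * exp (-16 - (1 / p - 1)) ≤ 1 / 8800000 := by
    rw [← exp_add]
    have e : 1 / p - 1 + (-16 - (1 / p - 1)) = -((16 : ℕ) : ℝ) := by
      push_cast
      ring
    rw [e]
    refine (exp_neg_nat_le 16).trans (by norm_num)
  have hS := Real.sqrt_nonneg (PP p y)
  calc c * (4232 / 10000 * a + 399 / 1000 * b * 1) * √(PP p y) * exp (-(8 / 9 * E)) ≤
      14 * (13 / 10 * exp (1 / p - 1)) * (exp (-16 - (1 / p - 1)) * exp (-(r * x ^ 2 / 25))) := by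
        refine mul_le_mul (mul_le_mul hab h2 hS (by norm_num)) h3 (exp_pos _).le (by positivity)
    _ = 14 * (13 / 10) * (exp (1 / p - 1) * exp (-16 - (1 / p - 1))) *
        exp (-(r * x ^ 2 / 25)) := by ring
    _ ≤ 14 * (13 / 10) * (1 / 8800000) * exp (-(r * x ^ 2 / 25)) :=
        mul_le_mul_of_nonneg_right (mul_le_mul_of_nonneg_left h4 (by norm_num)) (exp_pos _).le
    _ ≤ 2 / 1000 * (27 / 10000) * exp (-(r * x ^ 2 / 25)) :=
        mul_le_mul_of_nonneg_right (by norm_num) (exp_pos _).le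
    _ = _ := by ring

theorem PX.tRT (h : PX r ρ t p y x s) (hφ1 : t ≤ φ) :
    Kc r ρ * (56 / 3 * rT (8 / 9 * r) ρ φ + 68 / 25 * rT r ρ φ) ≤
      2 / 1000 * (27 / 10000 * exp (-(r * x ^ 2 / 25))) := by
  have hφ0 : 0 < φ := h.pr.t0.trans_le hφ1
  unfold rT
  exact h.tT hφ1 (by norm_num) (by norm_num) (by norm_num) (by norm_num) (h.rA_ge hφ0)

theorem PX.tLT (h : PX r ρ t p y x s) (hφ1 : t ≤ φ) :
    Kc r ρ * (20 / 3 * lT (8 / 9 * r) ρ φ + 1 * lT r ρ φ) ≤
      2 / 1000 * (27 / 10000 * exp (-(r * x ^ 2 / 25))) := by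
  have hφ0 : 0 < φ := h.pr.t0.trans_le hφ1
  unfold lT
  exact h.tT hφ1 (by norm_num) (by norm_num) (by norm_num) (by norm_num) (h.lA_ge hφ0)

/-- `PP/A ≤ 25/y` -/
theorem PX.PA (h : PX r ρ t p y x s) (hφ0 : 0 < φ) (hφ : φ ≤ 2 * π)
    (hA : aR' p * y * min 1 (mm ρ / φ) ≤ A) : PP p y ≤ 25 / y * A := by
  have hp0 := h.pr.p0
  have hp1 := h.pr.p1
  have hy0 := h.y0
  have hy1 := h.y1
  have hk := h.kap_ge hφ0 hφ
  have ha := aR'_ge hp0 hp1
  have h1 : 17 / 50 / p * (1989 / 10000) ≤ aR' p * min 1 (mm ρ / φ) :=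
    mul_le_mul ha hk (by norm_num) (le_trans (by positivity) ha)
  have h2 : PP p y ≤ 25 * (17 / 50 / p * (1989 / 10000)) := by
    unfold PP
    rw [div_le_iff₀ hp0]
    have e : 25 * (17 / 50 / p * (1989 / 10000)) * p = 25 * (17 / 50 * (1989 / 10000)) := by
      field_simp
    rw [e]
    linarith
  calc PP p y ≤ 25 * (aR' p * min 1 (mm ρ / φ)) := h2.trans (by linarith)
    _ = 25 / y * (aR' p * y * min 1 (mm ρ / φ)) := by field_simp
    _ ≤ _ := mul_le_mul_of_nonneg_left hA (by positivity)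

/-- front terms -/
theorem PX.tO (h : PX r ρ t p y x s) (hφ0 : 0 < φ) (hφ : φ ≤ 2 * π) {a b : ℝ} (ha : 0 ≤ a) (hb : 0 ≤ b)
    (hab : 3 / 4 * a + 7072 / 10000 * b * 1 ≤ 8) {ψ : ℝ} (hψ : t ≤ ψ)
    (hA : aR' p * y * min 1 (mm ρ / φ) ≤ A) (hA0 : 0 < A) :
    Kc r ρ * (a * (√(π / (8 / 9 * r * A)) * exp (-(8 / 9 * r * (11 / 25 * ψ ^ 2)))) +
      b * (√(π / (r * A)) * exp (-(r * (11 / 25 * ψ ^ 2))))) ≤
      2 / 1000 * (27 / 10000 * exp (-(r * x ^ 2 / 25))) := by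
  have hX := h.hX
  have hr := h.rpos
  have hP := h.pr.PP0
  have hp0 := h.pr.p0
  have hy0 := h.y0
  have hy1 := h.y1
  have hV := h.V (B := 11 / 25) hψ (by norm_num)
  have hE : 11 / 25 / y * (r * x ^ 2) ≤ r * (11 / 25 * ψ ^ 2) := by
    have := mul_le_mul_of_nonneg_left hV hr.le
    calc _ = r * (11 / 25 / y * x ^ 2) := by ring
      _ ≤ _ := this
  have hd : exp (-(11 / 25 / y * (r * x ^ 2) / 9)) ≤ 1 := by
    rw [← exp_zero]
    refine exp_le_exp.2 ?_
    have : 0 < 11 / 25 / y * (r * x ^ 2) := by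
      have : 0 < r * x ^ 2 := by linarith
      positivity
    linarith
  have h1 := h.pr.gauss (a := a) (b := b) hr hA0 ha hb hE hd
  refine h1.trans ?_
  have hw : 1 ≤ 1 / y := by
    rw [one_le_div hy0]
    exact hy1.le
  have h2 : √(PP p y / A) ≤ 5 * exp (1 / y - 1) := by
    have h3 : 1 / y ≤ exp (1 / y - 1) := by
      have := Real.add_one_le_exp (1 / y - 1)
      linarith
    refine le_trans ?_ (mul_le_mul_of_nonneg_left h3 (by norm_num))
    rw [Real.sqrt_le_left (by positivity), div_le_iff₀ hA0]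
    refine (h.PA hφ0 hφ hA).trans ?_
    refine mul_le_mul_of_nonneg_right ?_ hA0.le
    have e : 25 / y = 25 * (1 / y) := by ring
    rw [e]
    nlinarith
  have h3 : exp (-(8 / 9 * (11 / 25 / y * (r * x ^ 2)))) ≤
      exp (-16 - (1 / y - 1)) * exp (-(r * x ^ 2 / 25)) := by
    rw [← exp_add]
    refine exp_le_exp.2 ?_
    have e : 8 / 9 * (11 / 25 / y * (r * x ^ 2)) = 88 / 225 * ((1 / y) * (r * x ^ 2)) := by
      ring
    rw [e]
    have h4 : (1 / y) * 80 ≤ (1 / y) * (r * x ^ 2) :=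
      mul_le_mul_of_nonneg_left hX.le (by positivity)
    have h5 : 1 * (r * x ^ 2) ≤ (1 / y) * (r * x ^ 2) :=
      mul_le_mul_of_nonneg_right hw (by linarith)
    linarith
  have h4 : exp (1 / y - 1) * exp (-16 - (1 / y - 1)) ≤ 1 / 8800000 := by
    rw [← exp_add]
    have e : 1 / y - 1 + (-16 - (1 / y - 1)) = -((16 : ℕ) : ℝ) := by
      push_cast
      ring
    rw [e]
    refine (exp_neg_nat_le 16).trans (by norm_num)
  have hS := Real.sqrt_nonneg (PP p y / A)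
  calc (3 / 4 * a + 7072 / 10000 * b * 1) * √(PP p y / A) *
      exp (-(8 / 9 * (11 / 25 / y * (r * x ^ 2)))) ≤
      8 * (5 * exp (1 / y - 1)) * (exp (-16 - (1 / y - 1)) * exp (-(r * x ^ 2 / 25))) := by
        refine mul_le_mul (mul_le_mul hab h2 hS (by norm_num)) h3 (exp_pos _).le (by positivity)
    _ = 40 * (exp (1 / y - 1) * exp (-16 - (1 / y - 1))) *
        exp (-(r * x ^ 2 / 25)) := by ring
    _ ≤ 40 * (1 / 8800000) * exp (-(r * x ^ 2 / 25)) :=
        mul_le_mul_of_nonneg_right (mul_le_mul_of_nonneg_left h4 (by norm_num)) (exp_pos _).le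
    _ ≤ 2 / 1000 * (27 / 10000) * exp (-(r * x ^ 2 / 25)) :=
        mul_le_mul_of_nonneg_right (by norm_num) (exp_pos _).le
    _ = _ := by ring

theorem PX.tRO (h : PX r ρ t p y x s) (hφ0 : 0 < φ) (hφ : φ ≤ 2 * π) (hψ : t ≤ 2 * π - φ) :
    Kc r ρ * (56 / 3 * rO (8 / 9 * r) ρ φ + 68 / 25 * rO r ρ φ) ≤
      2 / 1000 * (27 / 10000 * exp (-(r * x ^ 2 / 25))) := by
  unfold rO
  have hA := h.rA_pos hφ0
  by_cases hc : 2 * π - φ < 6 / 5
  · rw [if_pos hc, if_pos hc]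
    have h1 := h.tO hφ0 hφ (a := 28 / 3) (b := 34 / 25) (by norm_num) (by norm_num) (by norm_num) hψ
      (A := rA ρ φ + 11 / 25) (by linarith [h.rA_ge hφ0]) (by linarith)
    refine le_trans (le_of_eq ?_) h1
    ring
  · rw [if_neg hc, if_neg hc]
    have := exp_pos (-(r * x ^ 2 / 25))
    simp only [mul_zero, add_zero]
    positivity

theorem PX.tLO (h : PX r ρ t p y x s) (hφ0 : 0 < φ) (hφ : φ ≤ 2 * π) (hψ : t ≤ 2 * π - φ) :
    Kc r ρ * (20 / 3 * lO (8 / 9 * r) ρ φ + 1 * lO r ρ φ) ≤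
      2 / 1000 * (27 / 10000 * exp (-(r * x ^ 2 / 25))) := by
  unfold lO
  have hA := h.lA_pos hφ0
  by_cases hc : 2 * π - φ < 6 / 5
  · rw [if_pos hc, if_pos hc]
    have h1 := h.tO hφ0 hφ (a := 10 / 3) (b := 1 / 2) (by norm_num) (by norm_num) (by norm_num) hψ
      (A := lA ρ φ) (h.lA_ge hφ0) hA
    refine le_trans (le_of_eq ?_) h1
    ring
  · rw [if_neg hc, if_neg hc]
    have := exp_pos (-(r * x ^ 2 / 25))
    simp only [mul_zero, add_zero]
    positivity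

end SokalDz
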