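import Pool.Agent.Lib_MP_af4de1_v3.DzX3

/-!
# The real inequalities of the fields `d` for `X > 80`, 4: the far terms (helper20)
-/

set_option autoImplicit false

namespace SokalDz

open Real MeasureTheory Set SokalCen SokalV3

variable {r ρ t φ p y x z s u v c k α A B l e : ℝ}

/-! ## the claim -/

theorem Fd_ge1 {X : ℝ} (hr : 0 < r) (hX : 80 < X) : 1 / 2000 * exp (-(X / 25)) ≤ Fd r ρ X := by
  unfold Fd
  rw [if_neg (not_le.2 hX)]
  split_ifs with h
  · exact le_rfl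
  · have h1 : 31 / 4 * r < X := not_le.1 h
    have h2 : r / (1 + ρ ^ 2) ≤ r := div_le_self hr.le (by nlinarith [sq_nonneg ρ])
    refine mul_le_mul_of_nonneg_left (exp_le_exp.2 ?_) (by norm_num)
    linarith

theorem Fd_ge2 {X : ℝ} (hr : 0 < r) (hX : 80 < X) : 1 / 2000 * exp (-(31 / 100 * r)) ≤ Fd r ρ X := by
  unfold Fd
  rw [if_neg (not_le.2 hX)]
  split_ifs with h
  · refine mul_le_mul_of_nonneg_left (exp_le_exp.2 ?_) (by norm_num)
    linarith
  · have h2 : r / (1 + ρ ^ 2) ≤ r := div_le_self hr.le (by nlinarith [sq_nonneg ρ])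
    refine mul_le_mul_of_nonneg_left (exp_le_exp.2 ?_) (by norm_num)
    linarith

theorem Fd_ge3 {X : ℝ} (hr : 0 < r) (hX : 80 < X) (h : 31 / 4 * r < X) :
    1 / 2000 * exp (-(7 / 25 * r)) ≤ Fd r ρ X := by
  unfold Fd
  rw [if_neg (not_le.2 hX), if_neg (not_le.2 h)]
  have h2 : r / (1 + ρ ^ 2) ≤ r := div_le_self hr.le (by nlinarith [sq_nonneg ρ])
  refine mul_le_mul_of_nonneg_left (exp_le_exp.2 ?_) (by norm_num)
  linarith

/-! ## numbers -/

theorem pow_exp_le {r0 : ℝ} (n : ℕ) (h0 : 0 < r0) (h1 : r0 ≤ r) (hc : (n : ℝ) ≤ c * r0) :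
    r ^ n * exp (-(c * r)) ≤ r0 ^ n * exp (-(c * r0)) := by
  have h2 : r / r0 ≤ exp (r / r0 - 1) := by
    have := Real.add_one_le_exp (r / r0 - 1)
    linarith
  have hr : 0 < r := h0.trans_le h1
  have h3 : (r / r0) ^ n ≤ exp (c * (r - r0)) := by
    calc (r / r0) ^ n ≤ exp (r / r0 - 1) ^ n := pow_le_pow_left₀ (by positivity) h2 n
      _ = exp (n * (r / r0 - 1)) := by rw [← Real.exp_nat_mul]
      _ ≤ exp (c * (r - r0)) := by
        refine exp_le_exp.2 ?_
        have e1 : c * (r - r0) = c * r0 * (r / r0 - 1) := by field_simp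
        rw [e1]
        refine mul_le_mul_of_nonneg_right hc ?_
        have : 1 ≤ r / r0 := (one_le_div h0).2 h1
        linarith
  have e2 : r ^ n = r0 ^ n * (r / r0) ^ n := by
    rw [← mul_pow]
    congr 1
    field_simp
  rw [e2]
  calc r0 ^ n * (r / r0) ^ n * exp (-(c * r)) ≤ r0 ^ n * exp (c * (r - r0)) * exp (-(c * r)) := by
        gcongr
    _ = r0 ^ n * exp (-(c * r0)) := by
        rw [mul_assoc, ← exp_add]
        congr 2
        ring

theorem exp_neg_split (n : ℕ) {q G : ℝ} (hq : 0 ≤ q) (hG : (n : ℝ) + q ≤ G) :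
    exp (-G) ≤ (1000 / 2718) ^ n * (1 / (1 + q + q ^ 2 / 2)) := by
  have h1 : exp (-G) ≤ exp (-(n : ℝ)) * exp (-q) := by
    rw [← exp_add]
    exact exp_le_exp.2 (by linarith)
  have h2 : exp (-q) ≤ 1 / (1 + q + q ^ 2 / 2) := by
    rw [Real.exp_neg, ← one_div]
    exact one_div_le_one_div_of_le (by positivity) (Real.quadratic_le_exp_of_nonneg hq)
  exact h1.trans (mul_le_mul (exp_neg_nat_le n) h2 (exp_pos _).le (by positivity))

/-! ## prefactors -/

theorem PX.LF0 (h : PX r ρ t p y x s) (hφ0 : 0 < φ) (e : ℝ) :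
    Kc r ρ * ((4 * r + 1) * lF r ρ φ e) ≤
      6125 / 10000 * (402010 / 100000 * r) * √(PP p y / lA ρ φ) * exp (-(r * e)) := by
  have hr := h.rpos
  have hr0 := h.r0
  have hA := h.lA_pos hφ0
  have hpi := Real.pi_pos
  have hS := Real.sqrt_nonneg (PP p y / lA ρ φ)
  have hE := exp_pos (-(r * e))
  have hP := h.pr.PP0
  have h3 : √(3 * π / (r * lA ρ φ)) = √3 * √(π / (r * lA ρ φ)) := by
    rw [← Real.sqrt_mul (by norm_num)]
    congr 1
    ring
  have h4 : √3 ≤ 173206 / 100000 := by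
    rw [Real.sqrt_le_left (by norm_num)]
    norm_num
  have h5 := h.pr.K1 hr hA
  have hK : 0 ≤ Kc r ρ := by rw [h.pr.Kc hr]; positivity
  unfold lF
  rw [h3]
  calc Kc r ρ * ((4 * r + 1) * (√3 * √(π / (r * lA ρ φ)) / 2 * exp (-(r * e)))) =
      (4 * r + 1) / 2 * (√3 * (Kc r ρ * √(π / (r * lA ρ φ)))) * exp (-(r * e)) := by ring
    _ ≤ (402010 / 100000 * r) / 2 * (173206 / 100000 * (7072 / 10000 * √(PP p y / lA ρ φ))) *
        exp (-(r * e)) := by
        refine mul_le_mul_of_nonneg_right (mul_le_mul (by linarith) (mul_le_mul h4 h5 (by positivity)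
          (by norm_num)) (by positivity) (by positivity)) hE.le
    _ = (173206 / 100000 * (7072 / 10000) / 2) * ((402010 / 100000 * r) * √(PP p y / lA ρ φ) *
        exp (-(r * e))) := by ring
    _ ≤ 6125 / 10000 * ((402010 / 100000 * r) * √(PP p y / lA ρ φ) * exp (-(r * e))) :=
        mul_le_mul_of_nonneg_right (by norm_num) (by positivity)
    _ = _ := by ring

theorem PX.RF0 (h : PX r ρ t p y x s) (hφ0 : 0 < φ) :
    Kc r ρ * ((14 * r + 68 / 25) * rF r ρ φ) ≤
      (70273 / 10000 * r) * (7072 / 10000) * √(PP p y / rA ρ φ) * exp (-(r * (3168 / 5000))) := by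
  have hr := h.rpos
  have hr0 := h.r0
  have hA := h.rA_pos hφ0
  have hpi := Real.pi_pos
  have hS := Real.sqrt_nonneg (PP p y / rA ρ φ)
  have hE := exp_pos (-(r * (3168 / 5000)))
  have h5 := h.pr.K1 hr hA
  have hP := h.pr.PP0
  have hK : 0 ≤ Kc r ρ := by rw [h.pr.Kc hr]; positivity
  unfold rF
  calc Kc r ρ * ((14 * r + 68 / 25) * (√(π / (r * rA ρ φ)) / 2 * exp (-(r * (3168 / 5000))))) =
      (7 * r + 34 / 25) * (Kc r ρ * √(π / (r * rA ρ φ))) * exp (-(r * (3168 / 5000))) := by ring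
    _ ≤ (70273 / 10000 * r) * (7072 / 10000 * √(PP p y / rA ρ φ)) * exp (-(r * (3168 / 5000))) := by
        refine mul_le_mul_of_nonneg_right (mul_le_mul (by linarith) h5 (by positivity)
          (by positivity)) hE.le
    _ = _ := by ring

/-- `√(PP/A) ≤ .2487 r` -/
theorem PX.sA (h : PX r ρ t p y x s) (hφ0 : 0 < φ) (hφ : φ ≤ 2 * π)
    (hA : aR' p * y * min 1 (mm ρ / φ) ≤ A) (hA0 : 0 < A) : √(PP p y / A) ≤ 2487 / 10000 * r := by
  have hr0 := h.r0
  have h1 := h.PA hφ0 hφ hA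
  have h2 := h.yr
  have hy := h.y0
  rw [Real.sqrt_le_left (by linarith), div_le_iff₀ hA0]
  refine h1.trans (mul_le_mul_of_nonneg_right ?_ hA0.le)
  rw [div_le_iff₀ hy]
  have h3 : (2487 / 10000 * r) ^ 2 * y = (2487 / 10000) ^ 2 * r * (r * y * 1) := by ring
  rw [h3]
  nlinarith

/-- right far -/
theorem PX.tRF (h : PX r ρ t p y x s) (hφ0 : 0 < φ) (hφ : φ ≤ 2 * π) :
    Kc r ρ * ((14 * r + 68 / 25) * rF r ρ φ) ≤ 12 / 100 * (27 / 10000 * exp (-(31 / 100 * r))) := by
  have hr := h.rpos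
  have hr0 := h.r0
  refine (h.RF0 hφ0).trans ?_
  have h1 := h.sA hφ0 hφ (h.rA_ge hφ0) (h.rA_pos hφ0)
  have h2 : exp (-(r * (3168 / 5000))) = exp (-(3236 / 10000 * r)) * exp (-(31 / 100 * r)) := by
    rw [← exp_add]
    congr 1
    ring
  rw [h2]
  have h3 := pow_exp_le (c := 3236 / 10000) 2 (by norm_num : (0:ℝ) < 499 / 10) hr0 (by norm_num)
  have h4 := exp_neg_split (q := 147 / 1000) (G := 3236 / 10000 * (499 / 10)) 16 (by norm_num)
    (by norm_num)
  norm_num at h4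
  have hE := exp_pos (-(31 / 100 * r))
  calc 70273 / 10000 * r * (7072 / 10000) * √(PP p y / rA ρ φ) *
      (exp (-(3236 / 10000 * r)) * exp (-(31 / 100 * r))) ≤
      70273 / 10000 * r * (7072 / 10000) * (2487 / 10000 * r) *
      (exp (-(3236 / 10000 * r)) * exp (-(31 / 100 * r))) := by gcongr
    _ = 70273 / 10000 * (7072 / 10000) * (2487 / 10000) * (r ^ 2 * exp (-(3236 / 10000 * r))) *
        exp (-(31 / 100 * r)) := by ring
    _ ≤ 12 / 100 * (27 / 10000) * exp (-(31 / 100 * r)) := by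
        refine mul_le_mul_of_nonneg_right ?_ hE.le
        refine (mul_le_mul_of_nonneg_left h3 (by norm_num)).trans ?_
        norm_num
        linarith
    _ = _ := by ring

end SokalDz
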