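import Pool.Agent.Lib_MP_af4de1_v3.DzHalf
import Pool.Agent.Lib_MP_af4de1_v3.CenSum

/-!
# Fields `d`: the zone over `univ` and the statement at `y = 0`
-/

set_option autoImplicit false

namespace SokalDz

open Real MeasureTheory Set SokalCen SokalV3

section

variable {r ρ θ φ C Cf B l e : ℝ}

theorem rM_nonneg (q ρ φ B : ℝ) : 0 ≤ rM q ρ φ B := by unfold rM; positivity
theorem rT_nonneg (q ρ φ : ℝ) : 0 ≤ rT q ρ φ := by unfold rT; positivity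
theorem rF_nonneg (q ρ φ : ℝ) : 0 ≤ rF q ρ φ := by unfold rF; positivity
theorem rO_nonneg (q ρ φ : ℝ) : 0 ≤ rO q ρ φ := by
  unfold rO
  split_ifs
  · positivity
  · exact le_rfl
theorem lM_nonneg (q ρ φ B l : ℝ) : 0 ≤ lM q ρ φ B l := by unfold lM; positivity
theorem lT_nonneg (q ρ φ : ℝ) : 0 ≤ lT q ρ φ := by unfold lT; positivity
theorem lF_nonneg (q ρ φ e : ℝ) : 0 ≤ lF q ρ φ e := by unfold lF; positivity
theorem lO_nonneg (q ρ φ : ℝ) : 0 ≤ lO q ρ φ := by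
  unfold lO
  split_ifs
  · positivity
  · exact le_rfl

theorem exp_pm_le (m v : ℝ) : exp (pm m v) ≤ 68 / 25 := by
  have h1 : exp (pm m v) ≤ exp 1 := exp_le_exp.2 (abs_le.1 (pm_mem m v)).2
  linarith [Real.exp_one_lt_d9]

/-- right half line -/
theorem hzR (hρ : 0 < ρ) (hr : 499 / 10 ≤ r) (hφ : 0 < φ) (hφ2 : φ < 2 * π) (hB : HR φ B)
    (hC : HC ρ φ C) (hCf : HF ρ φ Cf) (hY : 6 ≤ 8 / 9 * r * (rA ρ φ * φ ^ 2))
    (hcos : ∀ v, cos (θ + v) = cos (φ - v)) :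
    HZ r (fun v => Dm (mm ρ) ρ θ v) (fun v => Wm (mm ρ) θ 1 v) (fun v => pm (mm ρ) v) (Ioi 0)
      (rM r ρ φ B + rT r ρ φ + (rF r ρ φ + rO r ρ φ))
      (20 / 3 * C * rM (8 / 9 * r) ρ φ B / r + 20 / 3 * (14 / 5) * rT (8 / 9 * r) ρ φ / r +
        (14 * rF r ρ φ + 20 / 3 * Cf * rO (8 / 9 * r) ρ φ / r))
      (68 / 25 * rM r ρ φ B + 68 / 25 * rT r ρ φ + (68 / 25 * rF r ρ φ + 68 / 25 * rO r ρ φ)) := by
  have hr0 : 0 < r := by linarith
  have hq0 : 0 < 8 / 9 * r := by linarith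
  have hC0 : 0 ≤ C := by rcases hC with h | ⟨T, _, _, h, _⟩ <;> linarith
  have hCf0 : 0 ≤ Cf := by rcases hCf with h | ⟨T, _, _, _, h, _⟩ <;> linarith
  have hY' : 6 ≤ r * (rA ρ φ * φ ^ 2) := by
    have : 0 ≤ rA ρ φ * φ ^ 2 := by have := rA_pos hρ hφ; positivity
    nlinarith
  have hD : ∀ v, 0 ≤ Dm (mm ρ) ρ θ v := fun v => Dm_nonneg hρ (rho_le_mm' hρ) θ v
  have z1 : HZ r (fun v => Dm (mm ρ) ρ θ v) (fun v => Wm (mm ρ) θ 1 v) (fun v => pm (mm ρ) v)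
      (S1 φ) (rM r ρ φ B) (20 / 3 * C * rM (8 / 9 * r) ρ φ B / r) (68 / 25 * rM r ρ φ B) := by
    refine HZ.height hr0 hC0 (mS1 φ) ?_ (fun v _ => exp_pm_le _ v) (by norm_num)
      (jR1 hρ hφ hr0 hB hcos) (jR1 hρ hφ hq0 hB hcos)
    rintro v ⟨⟨h0, h1⟩, _⟩
    rcases hC with h | ⟨T, h2, h3, h4, h5⟩
    · exact (wR' hρ h0).trans (mul_le_mul_of_nonneg_right (by linarith) (hD v))
    · exact wR hρ h0 (h1.trans h2) h3 h4 h5
  have z2 : HZ r (fun v => Dm (mm ρ) ρ θ v) (fun v => Wm (mm ρ) θ 1 v) (fun v => pm (mm ρ) v)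
      (Ioi φ) (rT r ρ φ) (20 / 3 * (14 / 5) * rT (8 / 9 * r) ρ φ / r) (68 / 25 * rT r ρ φ) := by
    refine HZ.height hr0 (by norm_num) measurableSet_Ioi ?_ (fun v _ => exp_pm_le _ v)
      (by norm_num) (jR2 hρ hφ hφ2.le (by linarith) hY' hcos)
      (jR2 hρ hφ hφ2.le (by linarith) hY hcos)
    intro v hv
    exact wR' hρ (hφ.trans hv)
  have z3 : HZ r (fun v => Dm (mm ρ) ρ θ v) (fun v => Wm (mm ρ) θ 1 v) (fun v => pm (mm ρ) v)
      (S3 φ) (rF r ρ φ) (14 * rF r ρ φ) (68 / 25 * rF r ρ φ) :=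
    HZ.const (mS3 φ) (fun v _ => wFarR _) (fun v _ => exp_pm_le _ v) (by norm_num) (by norm_num)
      (jR3 hρ hφ hr0 hcos)
  have z4 : HZ r (fun v => Dm (mm ρ) ρ θ v) (fun v => Wm (mm ρ) θ 1 v) (fun v => pm (mm ρ) v)
      (S4 φ) (rO r ρ φ) (20 / 3 * Cf * rO (8 / 9 * r) ρ φ / r) (68 / 25 * rO r ρ φ) := by
    refine HZ.height hr0 hCf0 (mS4 φ) ?_ (fun v _ => exp_pm_le _ v) (by norm_num)
      (jR4 hρ hφ hφ2 hr0 hcos) (jR4 hρ hφ hφ2 hq0 hcos)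
    rintro v ⟨⟨h0, h1⟩, h2⟩
    have h2' : v ≤ φ - (2 * π - 6 / 5) := h2
    rcases hCf with h | ⟨T, h3, _, h5, h6, h7⟩
    · exact (wR' hρ h0).trans (mul_le_mul_of_nonneg_right (by linarith) (hD v))
    · exact wR hρ h0 (by linarith) h5 h6 h7
  have a1 := rM_nonneg r ρ φ B
  have a2 := rM_nonneg (8 / 9 * r) ρ φ B
  have a3 := rT_nonneg r ρ φ
  have a4 := rT_nonneg (8 / 9 * r) ρ φ
  have a5 := rF_nonneg r ρ φ
  have a6 := rO_nonneg r ρ φ
  have a7 := rO_nonneg (8 / 9 * r) ρ φ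
  exact ((z1.union z2 a1 (by positivity) (by positivity) a3 (by positivity) (by positivity)).union
    (z3.union z4 a5 (by positivity) (by positivity) a6 (by positivity) (by positivity))
    (by positivity) (by positivity) (by positivity) (by positivity) (by positivity)
    (by positivity)).subset (cover φ)

/-- left half line -/
theorem hzL (hρ : 0 < ρ) (hr : 499 / 10 ≤ r) (hφ : 0 < φ) (hφ2 : φ < 2 * π) (hB : HL ρ φ B l)
    (he : HE ρ e) (hY : 6 ≤ 8 / 9 * r * (lA ρ φ * φ ^ 2))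
    (hcos : ∀ v, cos (θ + -v) = cos (φ - v)) :
    HZ r (fun v => Dm (mm ρ) ρ θ (-v)) (fun v => Wm (mm ρ) θ 1 (-v)) (fun v => pm (mm ρ) (-v))
      (Ioi 0)
      (lM r ρ φ B l + lT r ρ φ + (lF r ρ φ e + lO r ρ φ))
      (20 / 3 * 1 * lM (8 / 9 * r) ρ φ B l / r + 20 / 3 * 1 * lT (8 / 9 * r) ρ φ / r +
        (4 * lF r ρ φ e + 20 / 3 * 1 * lO (8 / 9 * r) ρ φ / r))
      (1 * lM r ρ φ B l + 1 * lT r ρ φ + (1 * lF r ρ φ e + 1 * lO r ρ φ)) := by
  have hr0 : 0 < r := by linarith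
  have hq0 : 0 < 8 / 9 * r := by linarith
  have hY' : 6 ≤ r * (lA ρ φ * φ ^ 2) := by
    have : 0 ≤ lA ρ φ * φ ^ 2 := by have := lA_pos hρ hφ; positivity
    nlinarith
  have hm := mm_pos ρ
  have z1 : HZ r (fun v => Dm (mm ρ) ρ θ (-v)) (fun v => Wm (mm ρ) θ 1 (-v))
      (fun v => pm (mm ρ) (-v))
      (S1 φ) (lM r ρ φ B l) (20 / 3 * 1 * lM (8 / 9 * r) ρ φ B l / r) (1 * lM r ρ φ B l) := by
    refine HZ.height hr0 zero_le_one (mS1 φ) ?_ (fun v hv => exp_pm_le_one hm hv.1.1.le)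
      (by norm_num) (jL1 hρ hφ hr0 hB hcos) (jL1 hρ hφ hq0 hB hcos)
    rintro v ⟨⟨h0, h1⟩, _⟩
    exact wL hρ h0.le
  have z2 : HZ r (fun v => Dm (mm ρ) ρ θ (-v)) (fun v => Wm (mm ρ) θ 1 (-v))
      (fun v => pm (mm ρ) (-v))
      (Ioi φ) (lT r ρ φ) (20 / 3 * 1 * lT (8 / 9 * r) ρ φ / r) (1 * lT r ρ φ) := by
    refine HZ.height hr0 (by norm_num) measurableSet_Ioi ?_
      (fun v hv => exp_pm_le_one hm (hφ.trans hv).le)
      (by norm_num) (jL2 hρ hφ hφ2.le (by linarith) hY' hcos)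
      (jL2 hρ hφ hφ2.le (by linarith) hY hcos)
    intro v hv
    exact wL hρ (hφ.trans hv).le
  have z3 : HZ r (fun v => Dm (mm ρ) ρ θ (-v)) (fun v => Wm (mm ρ) θ 1 (-v))
      (fun v => pm (mm ρ) (-v))
      (S3 φ) (lF r ρ φ e) (4 * lF r ρ φ e) (1 * lF r ρ φ e) :=
    HZ.const (mS3 φ) (fun v hv => wFarL hm hv.1.1.le) (fun v hv => exp_pm_le_one hm hv.1.1.le)
      (by norm_num) (by norm_num) (jL3 hρ hφ hr0 he hcos)
  have z4 : HZ r (fun v => Dm (mm ρ) ρ θ (-v)) (fun v => Wm (mm ρ) θ 1 (-v))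
      (fun v => pm (mm ρ) (-v))
      (S4 φ) (lO r ρ φ) (20 / 3 * 1 * lO (8 / 9 * r) ρ φ / r) (1 * lO r ρ φ) := by
    refine HZ.height hr0 zero_le_one (mS4 φ) ?_ (fun v hv => exp_pm_le_one hm hv.1.1.le)
      (by norm_num) (jL4 hρ hφ hφ2 hr0 hcos) (jL4 hρ hφ hφ2 hq0 hcos)
    rintro v ⟨⟨h0, h1⟩, _⟩
    exact wL hρ h0.le
  have a1 := lM_nonneg r ρ φ B l
  have a2 := lM_nonneg (8 / 9 * r) ρ φ B l
  have a3 := lT_nonneg r ρ φ
  have a4 := lT_nonneg (8 / 9 * r) ρ φ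
  have a5 := lF_nonneg r ρ φ e
  have a6 := lO_nonneg r ρ φ
  have a7 := lO_nonneg (8 / 9 * r) ρ φ
  exact ((z1.union z2 a1 (by positivity) (by positivity) a3 (by positivity) (by positivity)).union
    (z3.union z4 a5 (by positivity) (by positivity) a6 (by positivity) (by positivity))
    (by positivity) (by positivity) (by positivity) (by positivity) (by positivity)
    (by positivity)).subset (cover φ)

end

/-- from the two half lines to `univ` -/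
theorem zone_of_halves {r m ρ θ : ℝ} {w : ℂ} {I0 IW Ie J0 JW Je : ℝ}
    (hR : HZ r (fun v => Dm m ρ θ v) (fun v => Wm m θ w v) (fun v => pm m v) (Ioi 0) I0 IW Ie)
    (hL : HZ r (fun v => Dm m ρ θ (-v)) (fun v => Wm m θ w (-v)) (fun v => pm m (-v)) (Ioi 0)
      J0 JW Je)
    (a0 : 0 ≤ I0) (a1 : 0 ≤ IW) (a2 : 0 ≤ Ie) (b0 : 0 ≤ J0) (b1 : 0 ≤ JW) (b2 : 0 ≤ Je) :
    Zone r m ρ θ w univ (I0 + J0) (IW + JW) (Ie + Je) := by
  refine ⟨?_, ?_, ?_⟩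
  · rw [Measure.restrict_univ, SokalFA.lintegral_sym, ENNReal.ofReal_add a0 b0]
    exact add_le_add hR.i0 hL.i0
  · rw [Measure.restrict_univ, SokalFA.lintegral_sym, ENNReal.ofReal_add a1 b1]
    exact add_le_add hR.iW hL.iW
  · rw [Measure.restrict_univ, SokalFA.lintegral_sym, ENNReal.ofReal_add a2 b2]
    exact add_le_add hR.ie hL.ie

section

variable {r ρ θ φR φL C Cf B B' l e : ℝ}

theorem sqrt_div_mono {a q : ℝ} (hq : 0 < q) (ha : 0 < a) :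
    √(π / (q * a)) ≤ √(π / (8 / 9 * q * a)) := by
  refine Real.sqrt_le_sqrt ?_
  have := Real.pi_pos
  refine div_le_div_of_nonneg_left (by positivity) (by positivity) ?_
  nlinarith [mul_pos hq ha]

/-- THE STATEMENT AT `y = 0`, general form. -/
theorem shf_dz {δ θ H F : ℝ} (hδ : 0 < δ) (hr : 499 / 10 ≤ r) (hH : 0 < H)
    (hH2 : 27 / 5 * r ≤ H ^ 2) (hρ : ρ = r * δ)
    (hR0 : 0 < φR) (hR2 : φR < 2 * π) (hL0 : 0 < φL) (hL2 : φL < 2 * π)
    (hB : HR φR B) (hC : HC ρ φR C) (hCf : HF ρ φR Cf) (hB' : HL ρ φL B' l) (he : HE ρ e)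
    (hYR : 6 ≤ 8 / 9 * r * (rA ρ φR * φR ^ 2)) (hYL : 6 ≤ 8 / 9 * r * (lA ρ φL * φL ^ 2))
    (hlA : 0 ≤ lA ρ φL * B' * φL ^ 2 / (lA ρ φL + B') - l)
    (hcR : ∀ v, cos (θ + v) = cos (φR - v)) (hcL : ∀ v, cos (θ + -v) = cos (φL - v))
    (hF : Kc r ρ * SW r ρ φR φL C Cf B B' l e ≤ 27 / 5 * F) :
    Shf r δ 0 θ H F F F := by
  have hr0 : 0 < r := by linarith
  have hρ0 : 0 < ρ := by rw [hρ]; positivity
  have hm := mm_pos ρ
  have hC0 : 1 ≤ C := by rcases hC with h | ⟨T, _, _, h, _⟩ <;> linarith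
  have hCf0 : 1 ≤ Cf := by rcases hCf with h | ⟨T, _, _, _, h, _⟩ <;> linarith
  have zR := hzR (θ := θ) hρ0 hr hR0 hR2 hB hC hCf hYR hcR
  have zL := hzL (θ := θ) hρ0 hr hL0 hL2 hB' he hYL hcL
  have a1 := rM_nonneg r ρ φR B
  have a2 := rM_nonneg (8 / 9 * r) ρ φR B
  have a3 := rT_nonneg r ρ φR
  have a4 := rT_nonneg (8 / 9 * r) ρ φR
  have a5 := rF_nonneg r ρ φR
  have a6 := rO_nonneg r ρ φR
  have a7 := rO_nonneg (8 / 9 * r) ρ φR
  have b1 := lM_nonneg r ρ φL B' l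
  have b2 := lM_nonneg (8 / 9 * r) ρ φL B' l
  have b3 := lT_nonneg r ρ φL
  have b4 := lT_nonneg (8 / 9 * r) ρ φL
  have b5 := lF_nonneg r ρ φL e
  have b6 := lO_nonneg r ρ φL
  have b7 := lO_nonneg (8 / 9 * r) ρ φL
  have Z := zone_of_halves zR zL (by positivity) (by positivity) (by positivity) (by positivity)
    (by positivity) (by positivity)
  set I0 := rM r ρ φR B + rT r ρ φR + (rF r ρ φR + rO r ρ φR) +
    (lM r ρ φL B' l + lT r ρ φL + (lF r ρ φL e + lO r ρ φL)) with hI0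
  set IW := 20 / 3 * C * rM (8 / 9 * r) ρ φR B / r + 20 / 3 * (14 / 5) * rT (8 / 9 * r) ρ φR / r +
        (14 * rF r ρ φR + 20 / 3 * Cf * rO (8 / 9 * r) ρ φR / r) +
      (20 / 3 * 1 * lM (8 / 9 * r) ρ φL B' l / r + 20 / 3 * 1 * lT (8 / 9 * r) ρ φL / r +
        (4 * lF r ρ φL e + 20 / 3 * 1 * lO (8 / 9 * r) ρ φL / r)) with hIW
  set Ie := 68 / 25 * rM r ρ φR B + 68 / 25 * rT r ρ φR +
      (68 / 25 * rF r ρ φR + 68 / 25 * rO r ρ φR) +
      (1 * lM r ρ φL B' l + 1 * lT r ρ φL + (1 * lF r ρ φL e + 1 * lO r ρ φL)) with hIe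
  have hI0n : 0 ≤ I0 := by positivity
  have hIWn : 0 ≤ IW := by positivity
  have hIen : 0 ≤ Ie := by positivity
  -- the sum
  have eW : r ^ 2 * IW + r * Ie = r * SW r ρ φR φL C Cf B B' l e := by
    rw [hIW, hIe]
    unfold SW
    field_simp
    ring
  -- monotonicity in `q`
  have mR1 : rM r ρ φR B ≤ rM (8 / 9 * r) ρ φR B := by
    have h1 := rA_pos hρ0 hR0
    have h2 := hB.1
    unfold rM
    refine mul_le_mul (sqrt_div_mono hr0 (by positivity)) ?_ (exp_pos _).le (by positivity)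
    refine exp_le_exp.2 ?_
    have : 0 ≤ rA ρ φR * B * φR ^ 2 / (rA ρ φR + B) := by positivity
    nlinarith
  have mT : ∀ c A φ : ℝ, 0 ≤ c → 0 ≤ A * φ ^ 2 →
      c / √r * exp (-(r * (A * φ ^ 2))) ≤ c / √(8 / 9 * r) * exp (-(8 / 9 * r * (A * φ ^ 2))) := by
    intro c A φ hc hA
    refine mul_le_mul ?_ (exp_le_exp.2 (by nlinarith)) (exp_pos _).le (by positivity)
    refine div_le_div_of_nonneg_left hc (Real.sqrt_pos.2 (by linarith)) (Real.sqrt_le_sqrt ?_)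
    linarith
  have mR2 : rT r ρ φR ≤ rT (8 / 9 * r) ρ φR := by
    unfold rT
    have h1 := rA_pos hρ0 hR0
    exact mT (3 / 2) _ _ (by norm_num) (by positivity)
  have mR4 : rO r ρ φR ≤ rO (8 / 9 * r) ρ φR := by
    have h1 := rA_pos hρ0 hR0
    unfold rO
    split_ifs
    · refine mul_le_mul ?_ ?_ (exp_pos _).le (by positivity)
      · have := sqrt_div_mono hr0 (a := rA ρ φR + 11 / 25) (by positivity)
        linarith
      · refine exp_le_exp.2 ?_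
        have : 0 ≤ 11 / 25 * (2 * π - φR) ^ 2 := by positivity
        nlinarith
    · exact le_rfl
  have mL1 : lM r ρ φL B' l ≤ lM (8 / 9 * r) ρ φL B' l := by
    have h1 := lA_pos hρ0 hL0
    have h2 := hB'.1
    unfold lM
    refine mul_le_mul (sqrt_div_mono hr0 (by positivity)) ?_ (exp_pos _).le (by positivity)
    refine exp_le_exp.2 ?_
    nlinarith
  have mL2 : lT r ρ φL ≤ lT (8 / 9 * r) ρ φL := by
    unfold lT
    have h1 := lA_pos hρ0 hL0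
    exact mT (5 / 2) _ _ (by norm_num) (by positivity)
  have mL4 : lO r ρ φL ≤ lO (8 / 9 * r) ρ φL := by
    have h1 := lA_pos hρ0 hL0
    unfold lO
    split_ifs
    · refine mul_le_mul ?_ ?_ (exp_pos _).le (by positivity)
      · have := sqrt_div_mono hr0 h1
        linarith
      · refine exp_le_exp.2 ?_
        have : 0 ≤ 11 / 25 * (2 * π - φL) ^ 2 := by positivity
        nlinarith
    · exact le_rfl
  have hI0W : 20 / 3 * I0 ≤ SW r ρ φR φL C Cf B B' l e := by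
    rw [hI0]
    unfold SW
    have c1 : rM (8 / 9 * r) ρ φR B ≤ C * rM (8 / 9 * r) ρ φR B := le_mul_of_one_le_left a2 hC0
    have c2 : rO (8 / 9 * r) ρ φR ≤ Cf * rO (8 / 9 * r) ρ φR := le_mul_of_one_le_left a7 hCf0
    have c3 : 20 / 3 * rF r ρ φR ≤ r * (14 * rF r ρ φR) := by nlinarith
    have c4 : 20 / 3 * lF r ρ φL e ≤ r * (4 * lF r ρ φL e) := by nlinarith
    linarith
  have hKn : 0 ≤ Kc r ρ := by unfold Kc; positivity
  have hFn : 0 ≤ F := by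
    have : 0 ≤ Kc r ρ * SW r ρ φR φL C Cf B B' l e :=
      mul_nonneg hKn ((by positivity : 0 ≤ 20 / 3 * I0).trans hI0W)
    linarith
  -- the level
  have hA : At r δ 0 0 := ⟨dom_y0 (by positivity), by norm_num, sE_y0 (by positivity)⟩
  have hRR : RR r δ = 1 + ρ ^ 2 := by unfold RR; rw [hρ]
  have hLev : Lev r δ 0 0 0 0 1 := by
    refine ⟨?_, ?_, ?_⟩
    · rw [sx_y0 (by positivity)]
      have : r - r * δ * (1 + 0) / δ = 0 := by field_simp; ring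
      rw [this]
      simp
    · rw [kap_y0 hr0 hδ]
      simp
    · unfold sD
      rw [sD2_y0 (by positivity)]
      unfold RR
      rw [one_mul]
  have hLv : LvF r δ 0 0 1 ≤ √(r / (2 * π * ρ)) * √(√(1 + ρ ^ 2)) := by
    unfold LvF
    rw [hRR, hρ]
    simp
  have hK : √(r / (2 * π * ρ)) * √(√(1 + ρ ^ 2)) * √(1 + 1 / mm ρ ^ 2) = Kc r ρ := rfl
  have hw : (SokalF1S.sK (r * δ) 0 / (r * δ : ℝ) : ℂ) = 1 := by
    unfold SokalF1S.sK
    rw [sx_y0 (by positivity)]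
    have h1 : (r : ℂ) ≠ 0 := by exact_mod_cast hr0.ne'
    have h2 : (δ : ℂ) ≠ 0 := by exact_mod_cast hδ.ne'
    push_cast
    field_simp
    ring
  have hbase : Kc r ρ * I0 ≤ F := by
    have h1 := mul_le_mul_of_nonneg_left hI0W hKn
    linarith
  have hbase2 : Kc r ρ * (r ^ 2 * IW + r * Ie) ≤ F * H ^ 2 := by
    rw [eW]
    have h1 : Kc r ρ * (r * SW r ρ φR φL C Cf B B' l e) =
        r * (Kc r ρ * SW r ρ φR φL C Cf B B' l e) := by ring
    rw [h1]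
    have h2 := mul_le_mul_of_nonneg_left hF hr0.le
    have h3 := mul_le_mul_of_nonneg_left hH2 hFn
    linarith
  refine shf_zone (m := mm ρ) (L := √(r / (2 * π * ρ)) * √(√(1 + ρ ^ 2))) (g := 0) (k := 0)
    (q := 1) (η := 0) hr0 hδ hA hLev (wb hr0 hδ hm) hLv hI0n hIWn hIen ?_ ?_ ?_ ?_
  · rw [hw, zero_add, ← hρ]
    exact Z
  · rw [hK]
    exact hbase
  · rw [hK]
    have h1 : (Kc r ρ * (r * √(I0 * IW))) ^ 2 ≤ (F * H) ^ 2 := by
      have h2 : √(I0 * IW) ^ 2 = I0 * IW := Real.sq_sqrt (mul_nonneg hI0n hIWn)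
      have h3 : (Kc r ρ * (r * √(I0 * IW))) ^ 2 = (Kc r ρ * I0) * (Kc r ρ * (r ^ 2 * IW)) := by
        rw [mul_pow, mul_pow, h2]
        ring
      rw [h3]
      have h4 : Kc r ρ * (r ^ 2 * IW) ≤ F * H ^ 2 := by
        have : 0 ≤ Kc r ρ * (r * Ie) := by positivity
        linarith
      calc (Kc r ρ * I0) * (Kc r ρ * (r ^ 2 * IW)) ≤ F * (F * H ^ 2) :=
            mul_le_mul hbase h4 (by positivity) hFn
        _ = (F * H) ^ 2 := by ring
    exact (abs_le_of_sq_le_sq' h1 (by positivity)).2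
  · rw [hK]
    exact hbase2

end

end SokalDz
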