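import Pool.Agent.Lib_MP_af4de1_f1.Sad

/-!
# The drop of the level along the saddles (helper69)

`δ (Φ(0) - Φ(y)) = ρ - x (1 + y)`.  With `t = x/ρ - 1`, `ψ = |arg K|`:
right side `(ρ - x (1 + y))/ρ = (1+t) log (1+t) - t + (1+t) log sec ψ`, `ρ t + ψ = |η|`.
-/

set_option autoImplicit false

namespace SokalV3.GL

open SokalF1S Set

/-! ### elementary inequalities -/

theorem gh_cos {ψ : ℝ} (h0 : 0 ≤ ψ) (h1 : ψ ≤ Real.pi / 2) : Real.cos ψ ≤ Real.exp (-(ψ ^ 2 / 2)) := by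
  have hd : ∀ x : ℝ, HasDerivAt (fun x : ℝ => Real.exp (x ^ 2 / 2) * Real.cos x)
      (Real.exp (x ^ 2 / 2) * (x * Real.cos x - Real.sin x)) x := by
    intro x
    have e1 : HasDerivAt (fun x : ℝ => x ^ 2 / 2) x x := by
      have := (hasDerivAt_pow 2 x).div_const 2
      simpa using this
    refine (e1.exp.mul (Real.hasDerivAt_cos x)).congr_deriv ?_
    ring
  have hm : AntitoneOn (fun x : ℝ => Real.exp (x ^ 2 / 2) * Real.cos x) (Icc 0 (Real.pi / 2)) := by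
    apply antitoneOn_of_deriv_nonpos (convex_Icc _ _)
      (fun y _ => (hd y).continuousAt.continuousWithinAt)
      (fun y _ => (hd y).differentiableAt.differentiableWithinAt)
    intro y hy
    rw [interior_Icc] at hy
    rw [(hd y).deriv]
    have h2 := Real.lt_tan hy.1 hy.2
    have hc : 0 < Real.cos y := Real.cos_pos_of_mem_Ioo ⟨by linarith [hy.1, Real.pi_pos], hy.2⟩
    rw [Real.tan_eq_sin_div_cos, lt_div_iff₀ hc] at h2
    have := Real.exp_pos (y ^ 2 / 2)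
    nlinarith
  have hπ : (0 : ℝ) ≤ Real.pi / 2 := by linarith [Real.pi_pos]
  have h2 := hm (left_mem_Icc.2 hπ) (mem_Icc.2 ⟨h0, h1⟩) h0
  simp only [zero_pow two_ne_zero, zero_div, Real.exp_zero, Real.cos_zero, mul_one] at h2
  have h3 : Real.exp (-(ψ ^ 2 / 2)) * Real.exp (ψ ^ 2 / 2) = 1 := by
    rw [← Real.exp_add]; simp
  calc Real.cos ψ = Real.exp (-(ψ ^ 2 / 2)) * (Real.exp (ψ ^ 2 / 2) * Real.cos ψ) := by
        rw [← mul_assoc, h3, one_mul]
    _ ≤ Real.exp (-(ψ ^ 2 / 2)) * 1 := mul_le_mul_of_nonneg_left h2 (Real.exp_pos _).le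
    _ = _ := mul_one _

theorem gh_log {t : ℝ} (ht : -1 < t) : t + t ^ 2 / 2 - t ^ 3 / 6 ≤ (1 + t) * Real.log (1 + t) := by
  -- `g = log (1+t) - t + t²/2` is increasing
  have hg : ∀ x : ℝ, -1 < x → HasDerivAt (fun x : ℝ => Real.log (1 + x) - x + x ^ 2 / 2)
      (x ^ 2 / (1 + x)) x := by
    intro x hx
    have h0 : 0 < 1 + x := by linarith
    have e1 : HasDerivAt (fun x : ℝ => x ^ 2 / 2) x x := by
      have := (hasDerivAt_pow 2 x).div_const 2
      simpa using this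
    have e2 := ((((hasDerivAt_id x).const_add 1).log h0.ne').sub (hasDerivAt_id x)).add e1
    refine e2.congr_deriv ?_
    simp only [id]
    field_simp
    ring
  have hgm : MonotoneOn (fun x : ℝ => Real.log (1 + x) - x + x ^ 2 / 2) (Ioi (-1)) := by
    apply monotoneOn_of_deriv_nonneg (convex_Ioi _)
      (fun y hy => (hg y hy).continuousAt.continuousWithinAt)
      (fun y hy => (hg y (by rwa [interior_Ioi] at hy)).differentiableAt.differentiableWithinAt)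
    intro y hy
    rw [interior_Ioi] at hy
    rw [(hg y hy).deriv]
    have : 0 < 1 + y := by linarith [mem_Ioi.1 hy]
    positivity
  have hf : ∀ x : ℝ, -1 < x → HasDerivAt (fun x : ℝ => (1 + x) * Real.log (1 + x) - x - x ^ 2 / 2 +
      x ^ 3 / 6) (Real.log (1 + x) - x + x ^ 2 / 2) x := by
    intro x hx
    have h0 : 0 < 1 + x := by linarith
    have e1 : HasDerivAt (fun x : ℝ => x ^ 2 / 2) x x := by
      have := (hasDerivAt_pow 2 x).div_const 2
      simpa using this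
    have e2 : HasDerivAt (fun x : ℝ => x ^ 3 / 6) (x ^ 2 / 2) x := by
      have := (hasDerivAt_pow 3 x).div_const 6
      refine this.congr_deriv ?_
      norm_num
      ring
    have e3 := ((((((hasDerivAt_id x).const_add 1).mul
      (((hasDerivAt_id x).const_add 1).log h0.ne')).sub (hasDerivAt_id x)).sub e1).add e2)
    refine e3.congr_deriv ?_
    simp only [id]
    field_simp
    ring
  rcases le_total 0 t with h | h
  · have hm : MonotoneOn (fun x : ℝ => (1 + x) * Real.log (1 + x) - x - x ^ 2 / 2 +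
      x ^ 3 / 6) (Ici 0) := by
      apply monotoneOn_of_deriv_nonneg (convex_Ici _)
        (fun y hy => (hf y (by linarith [mem_Ici.1 hy])).continuousAt.continuousWithinAt)
        (fun y hy => (hf y (by rw [interior_Ici] at hy; linarith [mem_Ioi.1 hy])).differentiableAt.differentiableWithinAt)
      intro y hy
      rw [interior_Ici] at hy
      have hy' := mem_Ioi.1 hy
      rw [(hf y (by linarith)).deriv]
      have := hgm (mem_Ioi.2 (by norm_num : (-1 : ℝ) < 0)) (mem_Ioi.2 (by linarith)) hy'.le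
      simpa using this
    have := hm (mem_Ici.2 le_rfl) (mem_Ici.2 h) h
    simp at this
    linarith
  · have hm : AntitoneOn (fun x : ℝ => (1 + x) * Real.log (1 + x) - x - x ^ 2 / 2 +
      x ^ 3 / 6) (Ioc (-1) 0) := by
      apply antitoneOn_of_deriv_nonpos (convex_Ioc _ _)
        (fun y hy => (hf y hy.1).continuousAt.continuousWithinAt)
        (fun y hy => (hf y (by rw [interior_Ioc] at hy; exact hy.1)).differentiableAt.differentiableWithinAt)
      intro y hy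
      rw [interior_Ioc] at hy
      rw [(hf y hy.1).deriv]
      have := hgm (mem_Ioi.2 hy.1) (mem_Ioi.2 (by norm_num : (-1 : ℝ) < 0)) hy.2.le
      simpa using this
    have := hm (mem_Ioc.2 ⟨ht, h⟩) (mem_Ioc.2 ⟨by norm_num, le_rfl⟩) h
    simp at this
    linarith

/-- `-log (1 - s) ≤ s + s²/2 + 2s³/3` -/
theorem gh_log2 {s : ℝ} (h0 : 0 ≤ s) (h1 : s ≤ 1 / 2) :
    -Real.log (1 - s) ≤ s + s ^ 2 / 2 + 2 / 3 * s ^ 3 := by
  have hf : ∀ x : ℝ, x < 1 → HasDerivAt (fun x : ℝ => x + x ^ 2 / 2 + 2 / 3 * x ^ 3 + Real.log (1 - x))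
      (1 + x + 2 * x ^ 2 - 1 / (1 - x)) x := by
    intro x hx
    have e1 : HasDerivAt (fun x : ℝ => x ^ 2 / 2) x x := by
      have := (hasDerivAt_pow 2 x).div_const 2
      simpa using this
    have e2 : HasDerivAt (fun x : ℝ => 2 / 3 * x ^ 3) (2 * x ^ 2) x := by
      have := (hasDerivAt_pow 3 x).const_mul (2 / 3)
      refine this.congr_deriv ?_
      norm_num
      ring
    have e3 := (((hasDerivAt_id x).add e1).add e2).add
      (((hasDerivAt_id x).const_sub 1).log (by simp only [id]; linarith))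
    refine e3.congr_deriv ?_
    simp only [id]
    have : 1 - x ≠ 0 := by linarith
    field_simp
    ring
  have hm : MonotoneOn (fun x : ℝ => x + x ^ 2 / 2 + 2 / 3 * x ^ 3 + Real.log (1 - x))
      (Icc 0 (1 / 2)) := by
    apply monotoneOn_of_deriv_nonneg (convex_Icc _ _)
      (fun y hy => (hf y (by linarith [hy.2])).continuousAt.continuousWithinAt)
      (fun y hy => (hf y (by rw [interior_Icc] at hy; linarith [hy.2])).differentiableAt.differentiableWithinAt)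
    intro y hy
    rw [interior_Icc] at hy
    rw [(hf y (by linarith [hy.2])).deriv, sub_nonneg, div_le_iff₀ (by linarith [hy.2])]
    nlinarith [hy.1, hy.2, mul_nonneg (sq_nonneg y) (by linarith [hy.2] : 0 ≤ 1 - 2 * y)]
  have := hm (left_mem_Icc.2 (by norm_num)) (mem_Icc.2 ⟨h0, h1⟩) h0
  simp at this
  linarith

/-- the harmonic inequality -/
theorem gh_harm (t ψ : ℝ) : |t ^ 3 - 3 * t * ψ ^ 2| ≤ √(t ^ 2 + ψ ^ 2) ^ 3 := by
  have h0 : 0 ≤ √(t ^ 2 + ψ ^ 2) := Real.sqrt_nonneg _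
  have h1 : √(t ^ 2 + ψ ^ 2) ^ 2 = t ^ 2 + ψ ^ 2 := Real.sq_sqrt (by positivity)
  apply abs_le_of_sq_le_sq _ (by positivity)
  have h2 : (√(t ^ 2 + ψ ^ 2) ^ 3) ^ 2 = (t ^ 2 + ψ ^ 2) ^ 3 := by
    calc (√(t ^ 2 + ψ ^ 2) ^ 3) ^ 2 = (√(t ^ 2 + ψ ^ 2) ^ 2) ^ 3 := by ring
      _ = _ := by rw [h1]
  rw [h2]
  nlinarith [sq_nonneg (3 * t ^ 2 * ψ - ψ ^ 3)]

theorem gh_mono {l w : ℝ} (h0 : 0 ≤ w) (h1 : w ≤ l) (h2 : l ≤ 2) :
    w ^ 2 / 2 - w ^ 3 / 6 ≤ l ^ 2 / 2 - l ^ 3 / 6 := by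
  have h3 : l ^ 2 + l * w + w ^ 2 ≤ 3 * (l + w) := by nlinarith
  have h4 : l ^ 2 / 2 - l ^ 3 / 6 - (w ^ 2 / 2 - w ^ 3 / 6) =
      (l - w) * ((l + w) / 2 - (l ^ 2 + l * w + w ^ 2) / 6) := by ring
  have h5 := mul_nonneg (sub_nonneg.2 h1) (by linarith : 0 ≤ (l + w) / 2 - (l ^ 2 + l * w + w ^ 2) / 6)
  linarith

/-- lower bound of `K`, all `ρ` -/
theorem gh_K2 {θ σ t ψ w : ℝ} (hu : θ ^ 2 + σ ^ 2 = 1) (hw : θ * t + σ * ψ = w) (hw0 : 0 ≤ w)
    (ht : |t| ≤ 1) (hψ : |ψ| ≤ 8 / 5) :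
    w ^ 2 / 2 - w ^ 3 / 6 ≤ (t ^ 2 + ψ ^ 2) / 2 - |t ^ 3 - 3 * t * ψ ^ 2| / 6 := by
  set l := √(t ^ 2 + ψ ^ 2) with hl
  have h0 : 0 ≤ l := Real.sqrt_nonneg _
  have h1 : l ^ 2 = t ^ 2 + ψ ^ 2 := Real.sq_sqrt (by positivity)
  have h2 : w ≤ l := by
    apply Real.le_sqrt_of_sq_le
    rw [← hw]
    nlinarith [sq_nonneg (θ * ψ - σ * t)]
  have h3 : l ≤ 2 := by
    have a1 : t ^ 2 ≤ 1 := by rw [← sq_abs]; nlinarith [abs_nonneg t]
    have a2 : ψ ^ 2 ≤ (8 / 5) ^ 2 := by rw [← sq_abs]; nlinarith [abs_nonneg ψ]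
    nlinarith
  have h4 := gh_harm t ψ
  have h5 := gh_mono hw0 h2 h3
  rw [← h1]
  linarith

/-- lower bound of `K`, `θ² ≤ 3/4` -/
theorem gh_K1 {θ σ t ψ w : ℝ} (hθ : 0 ≤ θ) (hu : θ ^ 2 + σ ^ 2 = 1)
    (hθ2 : θ ^ 2 ≤ 3 / 4) (hw : θ * t + σ * ψ = w) (hw0 : 0 ≤ w) (hw1 : w ≤ 16 / 25)
    (ht : |t| ≤ 1) (hψ : |ψ| ≤ 8 / 5) :
    w ^ 2 / 2 - w ^ 4 / 8 ≤ (t ^ 2 + ψ ^ 2) / 2 - (t ^ 3 - 3 * t * ψ ^ 2) / 6 := by
  set z : ℝ := σ * t - θ * ψ with hz
  have hl : t ^ 2 + ψ ^ 2 = w ^ 2 + z ^ 2 := by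
    rw [← hw, hz]
    linear_combination (-(t ^ 2) - ψ ^ 2) * hu
  rcases le_total (3 * z ^ 2) (w ^ 2) with h | h
  · have hC : t ^ 3 - 3 * t * ψ ^ 2 = (4 * θ ^ 3 - 3 * θ) * (w ^ 3 - 3 * w * z ^ 2) +
        (3 * σ - 4 * σ ^ 3) * (3 * w ^ 2 * z - z ^ 3) := by
      have e1 : t = θ * w + σ * z := by
        rw [← hw, hz]; linear_combination (-t) * hu
      have e2 : ψ = σ * w - θ * z := by
        rw [← hw, hz]; linear_combination (-ψ) * hu
      have e3 : σ ^ 2 = 1 - θ ^ 2 := by linarith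
      rw [e1, e2]
      have e4 : σ ^ 3 = σ * (1 - θ ^ 2) := by rw [← e3]; ring
      have e5 : σ ^ 4 = (1 - θ ^ 2) ^ 2 := by rw [← e3]; ring
      ring_nf
      rw [e4, e3]
      ring
    have hC3 : 4 * θ ^ 3 - 3 * θ ≤ 0 := by nlinarith
    have hS3 : |3 * σ - 4 * σ ^ 3| ≤ 1 := by
      apply abs_le_of_sq_le_sq _ zero_le_one
      have e3 : θ ^ 2 = 1 - σ ^ 2 := by linarith
      have : (3 * σ - 4 * σ ^ 3) ^ 2 + (4 * θ ^ 3 - 3 * θ) ^ 2 = 1 := by
        have e6 : (4 * θ ^ 3 - 3 * θ) ^ 2 = θ ^ 2 * (4 * θ ^ 2 - 3) ^ 2 := by ring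
        rw [e6, e3]
        ring
      nlinarith [sq_nonneg (4 * θ ^ 3 - 3 * θ)]
    have h1 : 0 ≤ w ^ 3 - 3 * w * z ^ 2 := by nlinarith
    have h2 : (4 * θ ^ 3 - 3 * θ) * (w ^ 3 - 3 * w * z ^ 2) ≤ 0 :=
      mul_nonpos_of_nonpos_of_nonneg hC3 h1
    have h3 : |3 * w ^ 2 * z - z ^ 3| ≤ 3 * w ^ 2 * |z| := by
      have : 3 * w ^ 2 * z - z ^ 3 = z * (3 * w ^ 2 - z ^ 2) := by ring
      rw [this, abs_mul, abs_of_nonneg (by nlinarith : 0 ≤ 3 * w ^ 2 - z ^ 2)]
      nlinarith [abs_nonneg z, sq_nonneg z]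
    have h4 : (3 * σ - 4 * σ ^ 3) * (3 * w ^ 2 * z - z ^ 3) ≤ 3 * w ^ 2 * |z| := by
      calc _ ≤ |(3 * σ - 4 * σ ^ 3) * (3 * w ^ 2 * z - z ^ 3)| := le_abs_self _
        _ = |3 * σ - 4 * σ ^ 3| * |3 * w ^ 2 * z - z ^ 3| := abs_mul _ _
        _ ≤ 1 * (3 * w ^ 2 * |z|) := mul_le_mul hS3 h3 (abs_nonneg _) zero_le_one
        _ = _ := one_mul _
    rw [hl]
    have h5 : z ^ 2 = |z| ^ 2 := (sq_abs z).symm
    nlinarith [sq_nonneg (|z| - w ^ 2 / 2)]
  · set l := √(t ^ 2 + ψ ^ 2) with hl2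
    have h0 : 0 ≤ l := Real.sqrt_nonneg _
    have h1 : l ^ 2 = t ^ 2 + ψ ^ 2 := Real.sq_sqrt (by positivity)
    have h3 : l ≤ 2 := by
      have a1 : t ^ 2 ≤ 1 := by rw [← sq_abs]; nlinarith [abs_nonneg t]
      have a2 : ψ ^ 2 ≤ (8 / 5) ^ 2 := by rw [← sq_abs]; nlinarith [abs_nonneg ψ]
      nlinarith
    have h2 : 577 / 500 * w ≤ l := by
      apply Real.le_sqrt_of_sq_le
      rw [hl]
      nlinarith
    have h4 := (le_abs_self _).trans (gh_harm t ψ)
    have h5 := gh_mono (w := 577 / 500 * w) (by positivity) h2 h3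
    rw [← h1]
    rw [← hl2] at h4
    have h6 : w ^ 2 / 2 - w ^ 4 / 8 ≤ (577 / 500 * w) ^ 2 / 2 - (577 / 500 * w) ^ 3 / 6 := by
      nlinarith [mul_nonneg (sq_nonneg w) (sub_nonneg.2 hw1), sq_nonneg (w ^ 2), mul_nonneg hw0 (sq_nonneg w)]
    linarith

/-! ### monotone functions along the saddles -/

/-- a function on `[y₁, y₂]` with nonnegative derivative in the interior -/
theorem gh_mon {f f' : ℝ → ℝ} {a b : ℝ} (hab : a ≤ b) (hc : ContinuousOn f (Icc a b))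
    (hd : ∀ y ∈ Ioo a b, HasDerivAt f (f' y) y) (hp : ∀ y ∈ Ioo a b, 0 ≤ f' y) : f a ≤ f b := by
  have hm : MonotoneOn f (Icc a b) := by
    apply monotoneOn_of_deriv_nonneg (convex_Icc _ _) hc
      (fun y hy => (hd y (by rwa [interior_Icc] at hy)).differentiableAt.differentiableWithinAt)
    intro y hy
    rw [interior_Icc] at hy
    rw [(hd y hy).deriv]
    exact hp y hy
  exact hm (left_mem_Icc.2 hab) (right_mem_Icc.2 hab) hab

theorem gh_sD2 {ρ y : ℝ} (h : Dom ρ y) : sD2 ρ y = 1 + 2 * y + ρ ^ 2 * Real.exp (-2 * y) := by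
  have := sx_sq h
  rw [← exp_two] at this
  unfold sD2
  linarith

theorem gh_expm2 (y : ℝ) : Real.exp (-2 * y) = Real.exp (-y) ^ 2 := by
  rw [← Real.exp_nat_mul]
  congr 1
  push_cast
  ring

/-- `(1 - 2y) e^y - 1 + ρ² (e^{-y} - 1) ≤ -ρ η`, `y ≤ 0` -/
theorem right_P {ρ y : ℝ} (h : Dom ρ y) (hy1 : -1 < y) (hy : y ≤ 0) :
    (1 - 2 * y) * Real.exp y - 1 + ρ ^ 2 * (Real.exp (-y) - 1) ≤ -(ρ * sE ρ y) := by
  have hρ := h.1
  have key := gh_mon (f := fun y => (1 - 2 * y) * Real.exp y - 1 + ρ ^ 2 * (Real.exp (-y) - 1) +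
      ρ * sE ρ y) (f' := fun y => -(1 + 2 * y) * Real.exp y - ρ ^ 2 * Real.exp (-y) +
      ρ * (sD2 ρ y / sx ρ y)) hy (by
      have := continuous_sE ρ
      fun_prop) (fun z hz => by
      have h3 := dom_between h (dom_zero hρ) hy1.le hz
      have e1 := (((hasDerivAt_id z).const_mul 2).const_sub 1).mul (Real.hasDerivAt_exp z)
      have e2 := (((hasDerivAt_neg z).exp).sub_const 1).const_mul (ρ ^ 2)
      have e3 := ((e1.sub_const 1).add e2).add ((hasDerivAt_sE hρ h3).const_mul ρ)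
      refine e3.congr_deriv ?_
      simp only [id]
      ring) (fun z hz => by
      have h3 := dom_between h (dom_zero hρ) hy1.le hz
      have hD : Dom ρ z := ⟨hρ, h3.le⟩
      have hx := sx_pos hρ h3
      have hx2 := sx_le hD
      have hDp : 0 < sD2 ρ z := sD2_pos (by linarith [hz.1])
      have e1 : Real.exp z * sD2 ρ z = (1 + 2 * z) * Real.exp z + ρ ^ 2 * Real.exp (-z) := by
        rw [gh_sD2 hD, gh_expm2]
        have : Real.exp z * Real.exp (-z) = 1 := by rw [← Real.exp_add]; simp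
        linear_combination (ρ ^ 2 * Real.exp (-z)) * this
      have e2 : Real.exp z * sD2 ρ z ≤ ρ * (sD2 ρ z / sx ρ z) := by
        rw [← mul_div_assoc, le_div_iff₀ hx]
        have e3 : Real.exp z * sx ρ z ≤ ρ := by
          calc Real.exp z * sx ρ z ≤ Real.exp z * (ρ * Real.exp (-z)) :=
                mul_le_mul_of_nonneg_left hx2 (Real.exp_pos _).le
            _ = ρ * (Real.exp z * Real.exp (-z)) := by ring
            _ = ρ := by rw [← Real.exp_add]; simp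
        nlinarith
      linarith)
  simp only [sE_zero hρ, Real.exp_zero, neg_zero, mul_zero, sub_zero, mul_one, sub_self,
    add_zero] at key
  linarith

/-- `1 - e^{-y} ≤ ρ η/(1 + ρ²)`, `y ≥ 0` -/
theorem left_P {ρ y : ℝ} (h : Dom ρ y) (hy : 0 ≤ y) :
    (1 + ρ ^ 2) * (1 - Real.exp (-y)) ≤ ρ * sE ρ y := by
  have hρ := h.1
  have key := gh_mon (f := fun y => ρ * sE ρ y - (1 + ρ ^ 2) * (1 - Real.exp (-y)))
      (f' := fun y => ρ * (sD2 ρ y / sx ρ y) - (1 + ρ ^ 2) * Real.exp (-y)) hy (by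
      have := continuous_sE ρ
      fun_prop) (fun z hz => by
      have h3 := dom_between (dom_zero hρ) h (by norm_num) hz
      have e2 := (((hasDerivAt_neg z).exp).const_sub 1).const_mul (1 + ρ ^ 2)
      have e3 := ((hasDerivAt_sE hρ h3).const_mul ρ).sub e2
      refine e3.congr_deriv ?_
      ring) (fun z hz => by
      have h3 := dom_between (dom_zero hρ) h (by norm_num) hz
      have hD : Dom ρ z := ⟨hρ, h3.le⟩
      have hx := sx_pos hρ h3
      have hx2 := sx_le hD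
      have hz0 := hz.1
      have hDp : 0 < sD2 ρ z := sD2_pos (by linarith [hz.1])
      have e0 : Real.exp z * Real.exp (-z) = 1 := by rw [← Real.exp_add]; simp
      have e2 : Real.exp z * sD2 ρ z ≤ ρ * (sD2 ρ z / sx ρ z) := by
        rw [← mul_div_assoc, le_div_iff₀ hx]
        have e3 : Real.exp z * sx ρ z ≤ ρ := by
          calc Real.exp z * sx ρ z ≤ Real.exp z * (ρ * Real.exp (-z)) :=
                mul_le_mul_of_nonneg_left hx2 (Real.exp_pos _).le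
            _ = ρ * (Real.exp z * Real.exp (-z)) := by ring
            _ = ρ := by rw [e0, mul_one]
        nlinarith
      have e4 : (1 + ρ ^ 2) * Real.exp (-z) ≤ Real.exp z * sD2 ρ z := by
        have e5 : (1 + ρ ^ 2) * Real.exp (-z) ^ 2 ≤ sD2 ρ z := by
          rw [gh_sD2 hD, gh_expm2]
          have e6 : Real.exp (-z) ≤ 1 := Real.exp_le_one_iff.2 (by linarith)
          have e7 := Real.exp_pos (-z)
          nlinarith
        calc (1 + ρ ^ 2) * Real.exp (-z) =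
            Real.exp z * ((1 + ρ ^ 2) * Real.exp (-z) ^ 2) := by
              linear_combination (-((1 + ρ ^ 2) * Real.exp (-z))) * e0
          _ ≤ _ := mul_le_mul_of_nonneg_left e5 (Real.exp_pos _).le
      linarith)
  simp only [sE_zero hρ, neg_zero, Real.exp_zero, sub_self, mul_zero] at key
  linarith

theorem sE_nonneg {ρ y : ℝ} (h : Dom ρ y) (hy : 0 ≤ y) : 0 ≤ sE ρ y := by
  have h1 := left_P h hy
  have h2 : Real.exp (-y) ≤ 1 := Real.exp_le_one_iff.2 (by linarith)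
  have h3 := h.1
  by_contra hcon
  push Not at hcon
  have h4 : ρ * sE ρ y < 0 := mul_neg_of_pos_of_neg h3 hcon
  have h5 : 0 ≤ (1 + ρ ^ 2) * (1 - Real.exp (-y)) := mul_nonneg (by positivity) (by linarith)
  linarith

/-- the upper bound of `y` on the left -/
theorem left_y {ρ y s : ℝ} (h : Dom ρ y) (hy : 0 ≤ y) (hs : (1 + ρ ^ 2) * s = ρ * sE ρ y)
    (hs1 : s ≤ 1 / 2) : y ≤ s + s ^ 2 / 2 + 2 / 3 * s ^ 3 := by
  have h1 := left_P h hy
  have hR : 0 < 1 + ρ ^ 2 := by positivity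
  have hs0 : 0 ≤ s := by
    have := mul_nonneg h.1.le (sE_nonneg h hy)
    rw [← hs] at this
    exact nonneg_of_mul_nonneg_right this hR
  have h2 : 1 - Real.exp (-y) ≤ s := by
    rw [← hs] at h1
    exact le_of_mul_le_mul_left h1 hR
  have h3 : Real.log (1 - s) ≤ -y := by
    rw [Real.log_le_iff_le_exp (by linarith)]
    linarith
  have h4 := gh_log2 hs0 hs1
  linarith

/-- the drop on the left, upper bound -/
theorem left_drop_le {ρ y s : ℝ} (h : Dom ρ y) (hy : 0 ≤ y) (hs : (1 + ρ ^ 2) * s = ρ * sE ρ y)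
    (hs1 : s ≤ 1 / 2) :
    ρ * (ρ - sx ρ y * (1 + y)) ≤ (1 + ρ ^ 2) * (s ^ 2 / 2 + s ^ 3 / 6 + s ^ 4 / 6) := by
  have hρ := h.1
  have hR : 0 < 1 + ρ ^ 2 := by positivity
  have hsy : s = ρ * sE ρ y / (1 + ρ ^ 2) := by rw [← hs]; field_simp
  have hmono : ∀ z ∈ Ioo 0 y, sE ρ z ≤ sE ρ y := fun z hz =>
    (sE_strictMonoOn (dom_zero hρ) h (by norm_num)).monotoneOn ⟨hz.1.le, hz.2.le⟩
      ⟨hy, le_rfl⟩ hz.2.le
  have key := gh_mon (f := fun z => (1 + ρ ^ 2) * ((ρ * sE ρ z / (1 + ρ ^ 2)) ^ 2 / 2 +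
      (ρ * sE ρ z / (1 + ρ ^ 2)) ^ 3 / 6 + (ρ * sE ρ z / (1 + ρ ^ 2)) ^ 4 / 6) +
      ρ * (sx ρ z * (1 + z)))
      (f' := fun z => ρ * (sD2 ρ z / sx ρ z) * ((ρ * sE ρ z / (1 + ρ ^ 2)) +
        (ρ * sE ρ z / (1 + ρ ^ 2)) ^ 2 / 2 + 2 / 3 * (ρ * sE ρ z / (1 + ρ ^ 2)) ^ 3 - z)) hy (by
      have h1 := continuous_sE ρ
      have h2 := continuous_sx ρ
      have h3 : ∀ z : ℝ, (1 + ρ ^ 2) ≠ 0 := fun _ => hR.ne'
      fun_prop (disch := exact hR.ne')) (fun z hz => by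
      have h3 := dom_between (dom_zero hρ) h (by norm_num) hz
      have e1 := ((hasDerivAt_sE hρ h3).const_mul ρ).div_const (1 + ρ ^ 2)
      have e2 := (((e1.pow 2).div_const 2).add ((e1.pow 3).div_const 6)).add ((e1.pow 4).div_const 6)
      have e3 := (e2.const_mul (1 + ρ ^ 2)).add ((hasDerivAt_sPhi hρ h3).const_mul ρ)
      refine e3.congr_deriv ?_
      push_cast
      field_simp
      ring) (fun z hz => by
      have h3 := dom_between (dom_zero hρ) h (by norm_num) hz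
      have hD : Dom ρ z := ⟨hρ, h3.le⟩
      have hx := sx_pos hρ h3
      have hDp : 0 < sD2 ρ z := sD2_pos (by linarith [hz.1])
      have e1 : ρ * sE ρ z / (1 + ρ ^ 2) ≤ 1 / 2 := by
        refine le_trans ?_ hs1
        rw [hsy]
        apply div_le_div_of_nonneg_right _ hR.le
        exact mul_le_mul_of_nonneg_left (hmono z hz) hρ.le
      have e2 := left_y hD hz.1.le (s := ρ * sE ρ z / (1 + ρ ^ 2)) (by field_simp) e1
      exact mul_nonneg (by positivity) (by linarith))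
  have e0 : sx ρ 0 = ρ := by
    unfold sx
    simp [Real.sqrt_sq hρ.le]
  simp only [sE_zero hρ, e0, mul_zero, zero_div] at key
  rw [← hsy] at key
  norm_num at key
  linarith

/-! ### the right side -/

theorem sE_nonpos {ρ y : ℝ} (h : Dom ρ y) (hy1 : -1 < y) (hy : y ≤ 0) : sE ρ y ≤ 0 := by
  rw [← sE_zero h.1]
  exact (sE_strictMonoOn h (dom_zero h.1) hy1.le).monotoneOn ⟨le_rfl, hy⟩ ⟨hy, le_rfl⟩ hy

theorem gh_en {n : ℝ} (h : 0 ≤ n) : 1 - n + n ^ 2 / 2 - n ^ 3 / 6 ≤ Real.exp (-n) := by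
  have d : ∀ t : ℝ, HasDerivAt (fun t : ℝ => Real.exp (-t)) (-Real.exp (-t)) t := fun t => by
    simpa using (hasDerivAt_neg t).exp
  have e1 : ∀ n : ℝ, 0 ≤ n → 1 - n ≤ Real.exp (-n) := fun n _ => by
    linarith [Real.add_one_le_exp (-n)]
  have e2 : ∀ n : ℝ, 0 ≤ n → Real.exp (-n) ≤ 1 - n + n ^ 2 / 2 := fun n hn => by
    have := gh_mon (f := fun n => 1 - n + n ^ 2 / 2 - Real.exp (-n))
      (f' := fun n => -1 + n + Real.exp (-n)) hn (by fun_prop) (fun z _ => by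
        have a1 := (((hasDerivAt_id z).const_sub 1).add ((hasDerivAt_pow 2 z).div_const 2)).sub (d z)
        refine a1.congr_deriv ?_
        norm_num) (fun z hz => by linarith [e1 z hz.1.le])
    norm_num at this
    linarith
  have := gh_mon (f := fun n => Real.exp (-n) - (1 - n + n ^ 2 / 2 - n ^ 3 / 6))
      (f' := fun n => -Real.exp (-n) - (-1 + n - n ^ 2 / 2)) h (by fun_prop) (fun z _ => by
        have a1 := (d z).sub ((((hasDerivAt_id z).const_sub 1).add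
          ((hasDerivAt_pow 2 z).div_const 2)).sub ((hasDerivAt_pow 3 z).div_const 6))
        refine a1.congr_deriv ?_
        norm_num
        ring) (fun z hz => by linarith [e2 z hz.1.le])
  norm_num at this
  linarith

/-- polynomial form of `right_P`, `n = -y` -/
theorem right_Q {ρ n : ℝ} (h : Dom ρ (-n)) (hn1 : n < 1) (hn : 0 ≤ n) :
    n - 3 / 2 * n ^ 2 + 5 / 6 * n ^ 3 - 1 / 3 * n ^ 4 + ρ ^ 2 * (n + n ^ 2 / 2) ≤
      -(ρ * sE ρ (-n)) := by
  have h1 := right_P h (by linarith) (by linarith)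
  rw [neg_neg] at h1
  have h2 := gh_en hn
  have h3 := Real.quadratic_le_exp_of_nonneg hn
  have h4 : (1 + 2 * n) * (1 - n + n ^ 2 / 2 - n ^ 3 / 6) ≤ (1 - 2 * -n) * Real.exp (-n) := by
    have : (1 - 2 * -n) = 1 + 2 * n := by ring
    rw [this]
    exact mul_le_mul_of_nonneg_left h2 (by linarith)
  have h5 : ρ ^ 2 * (n + n ^ 2 / 2) ≤ ρ ^ 2 * (Real.exp n - 1) :=
    mul_le_mul_of_nonneg_left (by linarith) (sq_nonneg _)
  nlinarith

/-- `ρ² ≥ 3` -/
theorem right_n2 {ρ n : ℝ} (h : Dom ρ (-n)) (hn1 : n < 1) (hn : 0 ≤ n) (hρ : 3 ≤ ρ ^ 2) :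
    (1 + ρ ^ 2) * n ≤ -(ρ * sE ρ (-n)) := by
  have h1 := right_Q h hn1 hn
  have h2 : 0 ≤ n ^ 3 * (5 / 6 - 1 / 3 * n) := mul_nonneg (by positivity) (by linarith)
  nlinarith [mul_nonneg (sub_nonneg.2 hρ) (sq_nonneg n)]

/-- comparison: if the polynomial is too large at `N` then `n ≤ N` -/
theorem right_n_lt {ρ n N : ℝ} (h : Dom ρ (-n)) (hn1 : n < 1) (hN : 0 ≤ N)
    (hP : -(ρ * sE ρ (-n)) < N - 3 / 2 * N ^ 2 + 5 / 6 * N ^ 3 - 1 / 3 * N ^ 4 +
      ρ ^ 2 * (N + N ^ 2 / 2)) : n < N := by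
  by_contra hcon
  push Not at hcon
  have hρ := h.1
  have hD : Dom ρ (-N) := by
    rcases hcon.lt_or_eq with h1 | h1
    · rcases hN.lt_or_eq with h2 | h2
      · exact ⟨hρ, (dom_between h (dom_zero hρ) (by linarith) ⟨by linarith, by linarith⟩).le⟩
      · rw [← h2, neg_zero]; exact dom_zero hρ
    · rw [h1]; exact h
  have h1 := right_Q hD (by linarith) hN
  have h2 : sE ρ (-n) ≤ sE ρ (-N) :=
    (sE_strictMonoOn h (dom_zero hρ) (by linarith)).monotoneOn ⟨le_rfl, by linarith⟩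
      ⟨by linarith, by linarith⟩ (by linarith)
  have h3 := mul_le_mul_of_nonneg_left h2 hρ.le
  linarith

/-- **The drop on the right.** -/
theorem right_drop {ρ y w q : ℝ} (h : Dom ρ y) (hy1 : -1 < y) (hy : y ≤ 0) (hq : 0 < q)
    (hq2 : q ^ 2 = 1 + ρ ^ 2) (hw : q * w = -sE ρ y) (hw1 : w ≤ 16 / 25) :
    ρ * (w ^ 2 / 2 - w ^ 3 / 6) ≤ ρ - sx ρ y * (1 + y) ∧
      (ρ ^ 2 ≤ 3 → ρ * (w ^ 2 / 2 - w ^ 4 / 8) ≤ ρ - sx ρ y * (1 + y)) := by
  have hρ := h.1
  have hw0 : 0 ≤ w := by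
    have := sE_nonpos h hy1 hy
    have h1 : 0 ≤ q * w := by linarith
    exact nonneg_of_mul_nonneg_right h1 hq
  set ψ := -sP ρ y with hψ
  have hψ0 : 0 ≤ ψ := by
    have := sP_nonpos hρ hy
    linarith
  have hψ1 : ψ ≤ Real.pi / 2 := by
    have := (abs_le.1 (sP_abs_le ρ y)).1
    linarith
  have hcos : Real.cos ψ = sx ρ y * Real.exp y / ρ := by
    rw [hψ, Real.cos_neg, h.cos]
  have hEt : -sE ρ y = ψ + sx ρ y - ρ := by
    rw [hψ]; unfold sE; ring
  -- small or large `t`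
  have key : (ρ * (w ^ 2 / 2) ≤ ρ - sx ρ y * (1 + y)) ∨ ∃ t : ℝ, |t| ≤ 1 ∧ sx ρ y = ρ * (1 + t) ∧
      ρ * ((t ^ 2 + ψ ^ 2) / 2 - (t ^ 3 - 3 * t * ψ ^ 2) / 6) ≤ ρ - sx ρ y * (1 + y) := by
    have hww : w ^ 2 / 2 ≤ 21 / 100 := by nlinarith
    rcases (sx_nonneg ρ y).eq_or_lt with hx | hx
    · left
      rw [← hx]
      nlinarith
    · have ht : ∃ t : ℝ, sx ρ y = ρ * (1 + t) := ⟨sx ρ y / ρ - 1, by field_simp; ring⟩
      obtain ⟨t, ht⟩ := ht
      have ht1 : -1 < t := by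
        rw [ht] at hx
        have := (mul_pos_iff_of_pos_left hρ).1 hx
        linarith
      have h1t : 0 < 1 + t := by linarith
      have hc2 : Real.cos ψ = (1 + t) * Real.exp y := by
        rw [hcos, ht]; field_simp
      have hlog : Real.log (1 + t) + ψ ^ 2 / 2 ≤ -y := by
        have h1 := gh_cos hψ0 hψ1
        rw [hc2] at h1
        have h2 : (1 + t) ≤ Real.exp (-(ψ ^ 2 / 2) - y) := by
          rw [Real.exp_sub, le_div_iff₀ (Real.exp_pos y)]
          exact h1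
        have h3 := (Real.log_le_iff_le_exp h1t).2 h2
        linarith
      have h4 := mul_le_mul_of_nonneg_left hlog h1t.le
      have h5 : ρ - sx ρ y * (1 + y) = ρ * (-t + (1 + t) * -y) := by rw [ht]; ring
      rcases le_total t 1 with h6 | h6
      · right
        refine ⟨t, abs_le.2 ⟨ht1.le, h6⟩, ht, ?_⟩
        rw [h5]
        apply mul_le_mul_of_nonneg_left _ hρ.le
        have h7 := gh_log ht1
        nlinarith
      · left
        rw [h5]
        apply mul_le_mul_of_nonneg_left _ hρ.le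
        have h7 : Real.log 2 + (1 - 2 / (1 + t)) ≤ Real.log (1 + t) := by
          have h8 := Real.one_sub_inv_le_log_of_pos (show 0 < (1 + t) / 2 by linarith)
          rw [Real.log_div h1t.ne' two_ne_zero, inv_div] at h8
          linarith
        have h8 := mul_le_mul_of_nonneg_left h7 h1t.le
        have h9 : (1 + t) * (Real.log 2 + (1 - 2 / (1 + t))) = (1 + t) * Real.log 2 + t - 1 := by
          field_simp
          ring
        have h10 := Real.log_two_gt_d9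
        nlinarith [sq_nonneg ψ, mul_nonneg h1t.le (sq_nonneg ψ)]
  rcases key with key | ⟨t, ht, hx, hK⟩
  · constructor
    · have : 0 ≤ ρ * w ^ 3 := by positivity
      nlinarith
    · intro _
      have : 0 ≤ ρ * w ^ 4 := by positivity
      nlinarith
  · have hu : (ρ / q) ^ 2 + (1 / q) ^ 2 = 1 := by
      rw [div_pow, div_pow, hq2]
      have : (1 + ρ ^ 2) ≠ 0 := by positivity
      field_simp
      ring
    have hline : ρ / q * t + 1 / q * ψ = w := by
      have : ρ * t + ψ = q * w := by rw [hw, hEt, hx]; ring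
      field_simp
      linarith
    have hψ2 : |ψ| ≤ 8 / 5 := by
      rw [abs_of_nonneg hψ0]
      have := Real.pi_lt_d2
      linarith
    constructor
    · have h1 := gh_K2 hu hline hw0 ht hψ2
      have h2 : (t ^ 3 - 3 * t * ψ ^ 2) ≤ |t ^ 3 - 3 * t * ψ ^ 2| := le_abs_self _
      refine le_trans (mul_le_mul_of_nonneg_left ?_ hρ.le) hK
      linarith
    · intro hρ3
      have hθ2 : (ρ / q) ^ 2 ≤ 3 / 4 := by
        rw [div_pow, hq2, div_le_div_iff₀ (by positivity) (by norm_num)]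
        linarith
      have h1 := gh_K1 (by positivity) hu hθ2 hline hw0 hw1 ht hψ2
      exact le_trans (mul_le_mul_of_nonneg_left h1 hρ.le) hK

end SokalV3.GL
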