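import Pool.Agent.Lib_MP_af4de1_v3.GapH

/-!
# PGap1.L: the numerical inequalities (helper69)
-/

set_option autoImplicit false

namespace SokalV3.GL

/-- cost for `ρ² ≥ 3` -/
noncomputable def cII (u w : ℝ) : ℝ :=
  13 / 20 * u + 3 / 8 * u ^ 2 + 1 / 2 * u ^ 3 + 704 / 1000 * w +
    1 / 2 * (u + u ^ 2 / 2 + 2 / 3 * u ^ 3) ^ 2

/-- cost for `1 ≤ ρ² ≤ 3`; `n ≤ N` -/
noncomputable def cIa (Y N : ℝ) : ℝ := Y + N + 3 / 8 * Y ^ 2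

/-- cost for `ρ² ≤ 1`; `n ≤ N`, `n q ≤ M` -/
noncomputable def cIb (Y N f M : ℝ) : ℝ := 3 / 2 * Y + N + 1 / 4 * Y ^ 2 + f * M

theorem numII {r v a b vm P K u w : ℝ} (hr : 0 ≤ r) (hv : 0 ≤ v) (hvm : v ≤ vm) (ha : 0 ≤ a)
    (hb : 0 ≤ b) (hu0 : 0 ≤ u) (hu : u ≤ a * v) (hw : w = b * v)
    (hP : P ≤ (b ^ 2 - a ^ 2) / 2 - (a ^ 3 + b ^ 3) * vm / 6 - a ^ 4 * vm ^ 2 / 6)
    (hK : (13 / 20 + 3 / 8 * (a * vm) + 1 / 2 * (a * vm) ^ 2 +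
      1 / 2 * (a * vm) * (1 + a * vm / 2 + 2 / 3 * (a * vm) ^ 2) ^ 2) * a + 704 / 1000 * b ≤ K)
    (hfin : 17 / 20 + K * v ≤ r * v ^ 2 * P) :
    17 / 20 + cII u w ≤ r * (w ^ 2 / 2 - w ^ 3 / 6) - r * (u ^ 2 / 2 + u ^ 3 / 6 + u ^ 4 / 6) := by
  have hum : u ≤ a * vm := hu.trans (mul_le_mul_of_nonneg_left hvm ha)
  set m := a * vm with hm
  have hm0 : 0 ≤ m := hu0.trans hum
  set C := 1 + m / 2 + 2 / 3 * m ^ 2 with hC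
  have hC0 : 0 ≤ C := by positivity
  have h1 : cII u w ≤ K * v := by
    have e1 : u + u ^ 2 / 2 + 2 / 3 * u ^ 3 ≤ u * C := by
      have : u + u ^ 2 / 2 + 2 / 3 * u ^ 3 = u * (1 + u / 2 + 2 / 3 * u ^ 2) := by ring
      rw [this, hC]
      gcongr
    have e2 : (u + u ^ 2 / 2 + 2 / 3 * u ^ 3) ^ 2 ≤ u * m * C ^ 2 := by
      calc (u + u ^ 2 / 2 + 2 / 3 * u ^ 3) ^ 2 ≤ (u * C) ^ 2 := pow_le_pow_left₀ (by positivity) e1 2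
        _ = u * u * C ^ 2 := by ring
        _ ≤ u * m * C ^ 2 := by gcongr
    have e3 : u ^ 2 ≤ u * m := by nlinarith
    have e4 : u ^ 3 ≤ u * m ^ 2 := by
      calc u ^ 3 = u * u ^ 2 := by ring
        _ ≤ u * m ^ 2 := by gcongr
    have e5 : cII u w ≤ u * (13 / 20 + 3 / 8 * m + 1 / 2 * m ^ 2 + 1 / 2 * m * C ^ 2) +
        704 / 1000 * w := by
      unfold cII
      nlinarith
    have e6 : u * (13 / 20 + 3 / 8 * m + 1 / 2 * m ^ 2 + 1 / 2 * m * C ^ 2) ≤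
        a * v * (13 / 20 + 3 / 8 * m + 1 / 2 * m ^ 2 + 1 / 2 * m * C ^ 2) :=
      mul_le_mul_of_nonneg_right hu (by positivity)
    have e7 := mul_le_mul_of_nonneg_right hK hv
    have e8 : 704 / 1000 * w = 704 / 1000 * b * v := by rw [hw]; ring
    linarith
  have h2 : u ^ 2 / 2 + u ^ 3 / 6 + u ^ 4 / 6 ≤ v ^ 2 * (a ^ 2 / 2 + a ^ 3 * vm / 6 + a ^ 4 * vm ^ 2 / 6) := by
    calc u ^ 2 / 2 + u ^ 3 / 6 + u ^ 4 / 6 ≤ (a * v) ^ 2 / 2 + (a * v) ^ 3 / 6 + (a * v) ^ 4 / 6 := by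
          gcongr
      _ = v ^ 2 * (a ^ 2 / 2 + a ^ 3 * v / 6 + a ^ 4 * v ^ 2 / 6) := by ring
      _ ≤ _ := by gcongr
  have h3 : v ^ 2 * (b ^ 2 / 2 - b ^ 3 * vm / 6) ≤ w ^ 2 / 2 - w ^ 3 / 6 := by
    have e1 : w ^ 2 / 2 - w ^ 3 / 6 = v ^ 2 * (b ^ 2 / 2 - b ^ 3 * v / 6) := by rw [hw]; ring
    rw [e1]
    gcongr
  have h4 : v ^ 2 * P ≤ w ^ 2 / 2 - w ^ 3 / 6 - (u ^ 2 / 2 + u ^ 3 / 6 + u ^ 4 / 6) := by
    have := mul_le_mul_of_nonneg_left hP (sq_nonneg v)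
    nlinarith
  have h5 := mul_le_mul_of_nonneg_left h4 hr
  nlinarith

/-- the main part in the case `ρ² ≤ 3`, `θ ≤ c` -/
theorem mainI {r v a b vm P u w c : ℝ} (hr : 0 ≤ r) (hv : 0 ≤ v) (hvm : v ≤ vm) (ha : 0 ≤ a)
    (hc : 0 ≤ c) (hu0 : 0 ≤ u) (hu : u ≤ a * v) (hw : w = b * v)
    (hP : P ≤ (b ^ 2 - a ^ 2) / 2 - b ^ 4 * vm ^ 2 / 8 - c * a ^ 3 * vm / 6 -
      c ^ 2 * a ^ 4 * vm ^ 2 / 6) :
    r * v ^ 2 * P ≤ r * (w ^ 2 / 2 - w ^ 4 / 8) -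
      r * (u ^ 2 / 2 + c * u ^ 3 / 6 + c ^ 2 * u ^ 4 / 6) := by
  have h2 : u ^ 2 / 2 + c * u ^ 3 / 6 + c ^ 2 * u ^ 4 / 6 ≤
      v ^ 2 * (a ^ 2 / 2 + c * a ^ 3 * vm / 6 + c ^ 2 * a ^ 4 * vm ^ 2 / 6) := by
    calc u ^ 2 / 2 + c * u ^ 3 / 6 + c ^ 2 * u ^ 4 / 6 ≤
        (a * v) ^ 2 / 2 + c * (a * v) ^ 3 / 6 + c ^ 2 * (a * v) ^ 4 / 6 := by gcongr
      _ = v ^ 2 * (a ^ 2 / 2 + c * a ^ 3 * v / 6 + c ^ 2 * a ^ 4 * v ^ 2 / 6) := by ring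
      _ ≤ _ := by gcongr
  have h3 : v ^ 2 * (b ^ 2 / 2 - b ^ 4 * vm ^ 2 / 8) ≤ w ^ 2 / 2 - w ^ 4 / 8 := by
    have e1 : w ^ 2 / 2 - w ^ 4 / 8 = v ^ 2 * (b ^ 2 / 2 - b ^ 4 * v ^ 2 / 8) := by rw [hw]; ring
    rw [e1]
    gcongr
  have h4 : v ^ 2 * P ≤ w ^ 2 / 2 - w ^ 4 / 8 - (u ^ 2 / 2 + c * u ^ 3 / 6 + c ^ 2 * u ^ 4 / 6) := by
    have := mul_le_mul_of_nonneg_left hP (sq_nonneg v)
    nlinarith
  have h5 := mul_le_mul_of_nonneg_left h4 hr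
  nlinarith

/-- `Y ≤ C u` -/
theorem boundY {c u m Y : ℝ} (hc : 0 ≤ c) (hu0 : 0 ≤ u) (hum : u ≤ m)
    (hY : Y ≤ c * u + (c * u) ^ 2 / 2 + 2 / 3 * (c * u) ^ 3) :
    Y ≤ c * (1 + c * m / 2 + 2 / 3 * (c * m) ^ 2) * u := by
  refine hY.trans ?_
  have : c * u + (c * u) ^ 2 / 2 + 2 / 3 * (c * u) ^ 3 =
      c * (1 + c * u / 2 + 2 / 3 * (c * u) ^ 2) * u := by ring
  rw [this]
  gcongr

theorem numIa {r v a b vm P K Cy Y N D u w : ℝ} (hr : 0 ≤ r) (hv : 0 ≤ v) (hvm : v ≤ vm) (ha : 0 ≤ a)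
    (hb : 0 ≤ b) (hu0 : 0 ≤ u) (hu : u ≤ a * v) (hw : w = b * v) (hY0 : 0 ≤ Y)
    (hY : Y ≤ 8661 / 10000 * u + (8661 / 10000 * u) ^ 2 / 2 + 2 / 3 * (8661 / 10000 * u) ^ 3)
    (hP : P ≤ (b ^ 2 - a ^ 2) / 2 - b ^ 4 * vm ^ 2 / 8 - 8661 / 10000 * a ^ 3 * vm / 6 -
      (8661 / 10000) ^ 2 * a ^ 4 * vm ^ 2 / 6)
    (hCy : 8661 / 10000 * (1 + 8661 / 10000 * (a * vm) / 2 + 2 / 3 * (8661 / 10000 * (a * vm)) ^ 2) ≤ Cy)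
    (hN : N ≤ D * w)
    (hK : Cy * a + 3 / 8 * (a * vm) * Cy ^ 2 * a + D * b ≤ K)
    (hfin : 17 / 20 + K * v ≤ r * v ^ 2 * P) :
    17 / 20 + cIa Y N ≤ r * (w ^ 2 / 2 - w ^ 4 / 8) -
      r * (u ^ 2 / 2 + 8661 / 10000 * u ^ 3 / 6 + (8661 / 10000) ^ 2 * u ^ 4 / 6) := by
  have h1 := mainI hr hv hvm ha (by norm_num) hu0 hu hw hP
  have hum : u ≤ a * vm := hu.trans (mul_le_mul_of_nonneg_left hvm ha)
  have hm0 : 0 ≤ a * vm := hu0.trans hum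
  have h2 := boundY (by norm_num) hu0 hum hY
  have h3 : Y ≤ Cy * u := h2.trans (mul_le_mul_of_nonneg_right hCy hu0)
  have hCy0 : 0 ≤ Cy := le_trans (by positivity) hCy
  have h4 : Y ^ 2 ≤ (a * vm) * Cy ^ 2 * u := by
    calc Y ^ 2 ≤ (Cy * u) ^ 2 := pow_le_pow_left₀ hY0 h3 2
      _ = u * Cy ^ 2 * u := by ring
      _ ≤ _ := by gcongr
  have h5 : Cy * u ≤ Cy * (a * v) := mul_le_mul_of_nonneg_left hu hCy0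
  have h6 : (a * vm) * Cy ^ 2 * u ≤ (a * vm) * Cy ^ 2 * (a * v) :=
    mul_le_mul_of_nonneg_left hu (by positivity)
  have h7 := mul_le_mul_of_nonneg_right hK hv
  have h8 : D * w = D * b * v := by rw [hw]; ring
  unfold cIa
  nlinarith

theorem numIb {r v a b vm P K Cy Y N D f M E u w : ℝ} (hr : 0 ≤ r) (hv : 0 ≤ v) (hvm : v ≤ vm)
    (ha : 0 ≤ a) (hb : 0 ≤ b) (hu0 : 0 ≤ u) (hu : u ≤ a * v) (hw : w = b * v) (hY0 : 0 ≤ Y)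
    (hY : Y ≤ 7072 / 10000 * u + (7072 / 10000 * u) ^ 2 / 2 + 2 / 3 * (7072 / 10000 * u) ^ 3)
    (hP : P ≤ (b ^ 2 - a ^ 2) / 2 - b ^ 4 * vm ^ 2 / 8 - 7072 / 10000 * a ^ 3 * vm / 6 -
      (7072 / 10000) ^ 2 * a ^ 4 * vm ^ 2 / 6)
    (hCy : 7072 / 10000 * (1 + 7072 / 10000 * (a * vm) / 2 + 2 / 3 * (7072 / 10000 * (a * vm)) ^ 2) ≤ Cy)
    (hN : N ≤ D * w) (hM : M ≤ E * w) (hf : 0 ≤ f)
    (hK : 3 / 2 * Cy * a + 1 / 4 * (a * vm) * Cy ^ 2 * a + D * b + f * E * b ≤ K)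
    (hfin : 17 / 20 + K * v ≤ r * v ^ 2 * P) :
    17 / 20 + cIb Y N f M ≤ r * (w ^ 2 / 2 - w ^ 4 / 8) -
      r * (u ^ 2 / 2 + 7072 / 10000 * u ^ 3 / 6 + (7072 / 10000) ^ 2 * u ^ 4 / 6) := by
  have h1 := mainI hr hv hvm ha (by norm_num) hu0 hu hw hP
  have hum : u ≤ a * vm := hu.trans (mul_le_mul_of_nonneg_left hvm ha)
  have hm0 : 0 ≤ a * vm := hu0.trans hum
  have h2 := boundY (by norm_num) hu0 hum hY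
  have h3 : Y ≤ Cy * u := h2.trans (mul_le_mul_of_nonneg_right hCy hu0)
  have hCy0 : 0 ≤ Cy := le_trans (by positivity) hCy
  have h4 : Y ^ 2 ≤ (a * vm) * Cy ^ 2 * u := by
    calc Y ^ 2 ≤ (Cy * u) ^ 2 := pow_le_pow_left₀ hY0 h3 2
      _ = u * Cy ^ 2 * u := by ring
      _ ≤ _ := by gcongr
  have h5 : Cy * u ≤ Cy * (a * v) := mul_le_mul_of_nonneg_left hu hCy0
  have h6 : (a * vm) * Cy ^ 2 * u ≤ (a * vm) * Cy ^ 2 * (a * v) :=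
    mul_le_mul_of_nonneg_left hu (by positivity)
  have h7 := mul_le_mul_of_nonneg_right hK hv
  have h8 : D * w = D * b * v := by rw [hw]; ring
  have h9 : f * M ≤ f * (E * w) := mul_le_mul_of_nonneg_left hM hf
  have h10 : f * (E * w) = f * E * b * v := by rw [hw]; ring
  unfold cIb
  nlinarith

/-- final step, small `v` -/
theorem fin_small {r v vm G0 P K : ℝ} (hvm : v ≤ vm) (hG : G0 ≤ r * v ^ 2) (hP : 0 ≤ P) (hK : 0 ≤ K)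
    (h : 17 / 20 + K * vm ≤ G0 * P) : 17 / 20 + K * v ≤ r * v ^ 2 * P := by
  have h1 := mul_le_mul_of_nonneg_right hG hP
  have h2 := mul_le_mul_of_nonneg_left hvm hK
  linarith

/-- final step, large `v` -/
theorem fin_large {r v v0 P K : ℝ} (hv0 : 0 ≤ v0) (hv : v0 ≤ v) (hr : 499 / 10 ≤ r) (hP : 0 ≤ P)
    (hKP : K ≤ 499 / 10 * v0 * P) (h : 17 / 20 + K * v0 ≤ 499 / 10 * v0 ^ 2 * P) :
    17 / 20 + K * v ≤ r * v ^ 2 * P := by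
  have hv' : 0 ≤ v := hv0.trans hv
  have h1 : 499 / 10 * (v0 * v) * P ≤ r * v ^ 2 * P := by
    have : v0 * v ≤ v ^ 2 := by nlinarith
    have h2 : 499 / 10 * (v0 * v) ≤ r * v ^ 2 := by
      calc 499 / 10 * (v0 * v) ≤ 499 / 10 * v ^ 2 := by linarith
        _ ≤ r * v ^ 2 := mul_le_mul_of_nonneg_right hr (sq_nonneg v)
    exact mul_le_mul_of_nonneg_right h2 hP
  nlinarith [mul_nonneg (sub_nonneg.2 hKP) (sub_nonneg.2 hv)]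

/-! ### the bounds of `n` -/

theorem poly_small {θ w : ℝ} (h0 : 0 ≤ θ) (h1 : θ ^ 2 ≤ 3 / 4) (hw : 0 < w) (hw1 : w ≤ 9 / 20) {N : ℝ}
    (hN : N = θ * w + 3 / 4 * w ^ 2) :
    θ * w < (1 - θ ^ 2) * (N - 3 / 2 * N ^ 2 + 5 / 6 * N ^ 3 - 1 / 3 * N ^ 4) +
      θ ^ 2 * (N + N ^ 2 / 2) := by
  have hθ1 : θ ≤ 8661 / 10000 := by nlinarith
  have hN0 : 0 ≤ N := by rw [hN]; positivity
  have hN1 : N ≤ 1 := by rw [hN]; nlinarith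
  have h2 : 0 ≤ (1 - θ ^ 2) * (N ^ 3 * (5 / 6 - 1 / 3 * N)) :=
    mul_nonneg (by linarith) (mul_nonneg (by positivity) (by linarith))
  have h3 : (θ + 27 / 80) ^ 2 * (3 / 2 - 2 * θ ^ 2) < 3 / 4 := by
    nlinarith [sq_nonneg (θ ^ 2 + θ / 3 - 4 / 9), sq_nonneg (θ - 1 / 2), mul_nonneg h0 (sq_nonneg (θ - 1 / 2)),
      sq_nonneg (θ ^ 2 - 1 / 4), mul_nonneg h0 (sub_nonneg.2 hθ1)]
  have h4 : (θ + 3 / 4 * w) ^ 2 * (3 / 2 - 2 * θ ^ 2) < 3 / 4 := by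
    refine lt_of_le_of_lt ?_ h3
    apply mul_le_mul_of_nonneg_right _ (by linarith)
    apply pow_le_pow_left₀ (by positivity)
    linarith
  have h5 : N ^ 2 * (3 / 2 - 2 * θ ^ 2) < 3 / 4 * w ^ 2 := by
    have : N = w * (θ + 3 / 4 * w) := by rw [hN]; ring
    have hw2 : 0 < w ^ 2 := by positivity
    rw [this, mul_pow, mul_assoc]
    nlinarith
  nlinarith

theorem poly_big {θ w : ℝ} (h0 : 0 < θ) (h1 : θ ^ 2 ≤ 3 / 4) (hw : 0 < w) (hw1 : w ≤ 63 / 100) {N : ℝ}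
    (hN : N = 2 * θ * w) :
    θ * w < (1 - θ ^ 2) * (N - 3 / 2 * N ^ 2 + 5 / 6 * N ^ 3 - 1 / 3 * N ^ 4) +
      θ ^ 2 * (N + N ^ 2 / 2) := by
  have hθ1 : θ ≤ 8661 / 10000 := by nlinarith
  have hN0 : 0 < N := by rw [hN]; positivity
  have hN1 : N ≤ 63 / 50 * θ := by rw [hN]; nlinarith
  have hN2 : N ≤ 11 / 10 := by linarith
  -- `θ² ≥ N²/(63/50)²`
  have h2 : 629 / 1000 * N ^ 2 ≤ θ ^ 2 := by nlinarith
  have h3 : 0 ≤ 2 * N - 5 / 6 * N ^ 2 + 1 / 3 * N ^ 3 := by nlinarith [mul_pos hN0 hN0]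
  have h4 : 1 / 2 < (1 - 629 / 1000 * N ^ 2) * (1 - 3 / 2 * N + 5 / 6 * N ^ 2 - 1 / 3 * N ^ 3) +
      629 / 1000 * N ^ 2 * (1 + N / 2) := by
    nlinarith [sq_nonneg (N - 57 / 100), mul_nonneg hN0.le (sq_nonneg (N - 57 / 100)),
      mul_nonneg (mul_nonneg hN0.le hN0.le) (sq_nonneg (N - 57 / 100)),
      mul_nonneg (mul_nonneg (mul_nonneg hN0.le hN0.le) hN0.le) (sq_nonneg (N - 57 / 100)),
      mul_nonneg hN0.le (sub_nonneg.2 hN2)]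
  have h5 : 1 / 2 < (1 - θ ^ 2) * (1 - 3 / 2 * N + 5 / 6 * N ^ 2 - 1 / 3 * N ^ 3) +
      θ ^ 2 * (1 + N / 2) := by
    have := mul_nonneg (sub_nonneg.2 h2) h3
    nlinarith
  have h6 : θ * w = N * (1 / 2) := by rw [hN]; ring
  rw [h6]
  calc N * (1 / 2) < N * ((1 - θ ^ 2) * (1 - 3 / 2 * N + 5 / 6 * N ^ 2 - 1 / 3 * N ^ 3) +
      θ ^ 2 * (1 + N / 2)) := mul_lt_mul_of_pos_left h5 hN0
    _ = _ := by ring

end SokalV3.GL
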