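import Pool.Agent.Lib_MP_af4de1_v3.V3
import Pool.Agent.Lib_MP_af4de1_v3.GapLn

/-!
# PGap1.L (helper69)
-/

set_option autoImplicit false

namespace SokalV3.GL

open Complex SokalV3 SokalU SokalF1 SokalF1S SokalF1M

theorem norm_kap {r δ y : ℝ} (hδ : 0 < δ) (h : Dom (r * δ) y) :
    ‖kap r δ y‖ = r * Real.exp (-y) := by
  unfold kap
  rw [norm_div, norm_sK h, Complex.norm_real, Real.norm_eq_abs, abs_of_pos hδ]
  field_simp

theorem sM_eq {r δ y : ℝ} (hy : -1 < y) :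
    sM r δ y = Real.exp (sx (r * δ) y * (1 + y) / δ - 1 / 4 * Real.log (sD2 (r * δ) y)) := by
  have h := sD2_pos (ρ := r * δ) hy
  unfold sM
  rw [Real.exp_sub, Real.rpow_def_of_pos h]
  congr 2
  ring

/-- the gap from the logarithmic inequality -/
theorem gap_of_log {r δ ya yb γ : ℝ} (hr : 0 < r) (hδ : 0 < δ) (ha : Dom (r * δ) ya)
    (hb : Dom (r * δ) yb) (ha1 : -1 < ya) (hb1 : -1 < yb) (hab : yb ≤ ya)
    (h : γ + (ya - yb) + 1 / 4 * (Real.log (sD2 (r * δ) ya) - Real.log (sD2 (r * δ) yb)) ≤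
      sx (r * δ) ya * (1 + ya) / δ - sx (r * δ) yb * (1 + yb) / δ) : Gap r δ ya yb γ := by
  constructor
  · rw [sM_eq ha1, sM_eq hb1, ← Real.exp_add]
    apply Real.exp_le_exp.2
    linarith
  · rw [sM_eq ha1, sM_eq hb1, norm_kap hδ ha, norm_kap hδ hb]
    have e1 : Real.exp γ * (r * Real.exp (-yb) * Real.exp (sx (r * δ) yb * (1 + yb) / δ -
        1 / 4 * Real.log (sD2 (r * δ) yb))) = r * Real.exp (γ + -yb + (sx (r * δ) yb * (1 + yb) / δ -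
        1 / 4 * Real.log (sD2 (r * δ) yb))) := by
      rw [Real.exp_add, Real.exp_add]
      ring
    have e2 : r * Real.exp (-ya) * Real.exp (sx (r * δ) ya * (1 + ya) / δ -
        1 / 4 * Real.log (sD2 (r * δ) ya)) = r * Real.exp (-ya + (sx (r * δ) ya * (1 + ya) / δ -
        1 / 4 * Real.log (sD2 (r * δ) ya))) := by
      rw [Real.exp_add]
      ring
    rw [e1, e2]
    apply mul_le_mul_of_nonneg_left _ hr.le
    apply Real.exp_le_exp.2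
    linarith

theorem exp_neg_le {x : ℝ} (hx : 0 ≤ x) : Real.exp (-x) ≤ 1 - x + x ^ 2 / 2 := by
  have d : ∀ t : ℝ, HasDerivAt (fun t : ℝ => Real.exp (-t)) (-Real.exp (-t)) t := fun t => by
    simpa using (hasDerivAt_neg t).exp
  have := gh_mon (f := fun n => 1 - n + n ^ 2 / 2 - Real.exp (-n))
    (f' := fun n => -1 + n + Real.exp (-n)) hx (by fun_prop) (fun z _ => by
      have a1 := (((hasDerivAt_id z).const_sub 1).add ((hasDerivAt_pow 2 z).div_const 2)).sub (d z)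
      refine a1.congr_deriv ?_
      norm_num) (fun z hz => by linarith [Real.add_one_le_exp (-z)])
  norm_num at this
  linarith

/-- left: `log D² ≤ log R - 2 y p + (1 + p) y²`, `p = (ρ² - 1)/R` -/
theorem logD_left {ρ y p : ℝ} (h : Dom ρ y) (hy : 0 ≤ y) (hp : (1 + ρ ^ 2) * p = ρ ^ 2 - 1) :
    Real.log (sD2 ρ y) ≤ Real.log (1 + ρ ^ 2) + (-(2 * y * p) + (1 + p) * y ^ 2) := by
  have hR : 0 < 1 + ρ ^ 2 := by positivity
  have h1 := exp_neg_le (x := 2 * y) (by linarith)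
  have h2 : sD2 ρ y ≤ (1 + ρ ^ 2) * (1 + (-(2 * y * p) + (1 + p) * y ^ 2)) := by
    rw [gh_sD2 h, neg_mul]
    have h3 := mul_le_mul_of_nonneg_left h1 (sq_nonneg ρ)
    nlinarith
  have h3 := sD2_pos (ρ := ρ) (by linarith : -1 < y)
  have h4 : 0 < 1 + (-(2 * y * p) + (1 + p) * y ^ 2) := by
    have := h3.trans_le h2
    exact (mul_pos_iff_of_pos_left hR).1 this
  calc Real.log (sD2 ρ y) ≤ Real.log ((1 + ρ ^ 2) * (1 + (-(2 * y * p) + (1 + p) * y ^ 2))) :=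
        Real.log_le_log h3 h2
    _ = Real.log (1 + ρ ^ 2) + Real.log (1 + (-(2 * y * p) + (1 + p) * y ^ 2)) :=
        Real.log_mul hR.ne' h4.ne'
    _ ≤ _ := by
      have := Real.log_le_sub_one_of_pos h4
      linarith

/-- right: `D² ≥ R (1 + 2 n p + (1 + p) n²)` -/
theorem D_right {ρ n p : ℝ} (h : Dom ρ (-n)) (hn : 0 ≤ n) (hp : (1 + ρ ^ 2) * p = ρ ^ 2 - 1) :
    (1 + ρ ^ 2) * (1 + 2 * n * p + (1 + p) * n ^ 2) ≤ sD2 ρ (-n) := by
  have h1 := Real.quadratic_le_exp_of_nonneg (show 0 ≤ 2 * n by linarith)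
  rw [gh_sD2 h, show -2 * -n = 2 * n by ring]
  have h3 := mul_le_mul_of_nonneg_left h1 (sq_nonneg ρ)
  nlinarith

theorem logD_right {ρ n p z : ℝ} (h : Dom ρ (-n)) (hn : 0 ≤ n) (hp : (1 + ρ ^ 2) * p = ρ ^ 2 - 1)
    (hz : Real.exp z ≤ 1 + 2 * n * p + (1 + p) * n ^ 2) :
    Real.log (1 + ρ ^ 2) + z ≤ Real.log (sD2 ρ (-n)) := by
  have hR : 0 < 1 + ρ ^ 2 := by positivity
  have h1 := D_right h hn hp
  have h2 := Real.exp_pos z
  have h3 : 0 < 1 + 2 * n * p + (1 + p) * n ^ 2 := h2.trans_le hz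
  calc Real.log (1 + ρ ^ 2) + z = Real.log (1 + ρ ^ 2) + Real.log (Real.exp z) := by
        rw [Real.log_exp]
    _ = Real.log ((1 + ρ ^ 2) * Real.exp z) := (Real.log_mul hR.ne' h2.ne').symm
    _ ≤ Real.log (sD2 ρ (-n)) := Real.log_le_log (by positivity)
        ((mul_le_mul_of_nonneg_left hz hR.le).trans h1)

theorem exp_71 {z : ℝ} (h0 : 0 ≤ z) (h1 : z ≤ 19 / 20) : Real.exp z ≤ 1 + z + 71 / 100 * z ^ 2 := by
  have h2 := Real.exp_bound' h0 (by linarith) (n := 4) (by norm_num)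
  norm_num [Finset.sum_range_succ, Nat.factorial] at h2
  nlinarith [mul_nonneg (sq_nonneg z) (sub_nonneg.2 h1), mul_nonneg (mul_nonneg (sq_nonneg z) h0)
    (sub_nonneg.2 h1)]

/-- the difference of the levels -/
theorem phi_diff {r δ ya yb u q θ c A : ℝ} (hr : 0 < r) (hδ : 0 < δ) (hq : 0 < q)
    (hq2 : q ^ 2 = 1 + (r * δ) ^ 2) (hθ : θ * q = r * δ) (hθc : θ ≤ c)
    (ha : Dom (r * δ) ya) (hya : 0 ≤ ya)
    (hu : q * u = sE (r * δ) ya) (hu0 : 0 ≤ u) (hu1 : u ≤ 1 / 2)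
    (hA : (r * δ) * A ≤ r * δ - sx (r * δ) yb * (1 + yb)) :
    r * A - r * (u ^ 2 / 2 + c * u ^ 3 / 6 + c ^ 2 * u ^ 4 / 6) ≤
      sx (r * δ) ya * (1 + ya) / δ - sx (r * δ) yb * (1 + yb) / δ := by
  set ρ := r * δ with hρd
  have hρ : 0 < ρ := ha.1
  have hR : 0 < 1 + ρ ^ 2 := by positivity
  have hθ0 : 0 < θ := by
    by_contra hcon
    push Not at hcon
    have := mul_nonpos_of_nonpos_of_nonneg hcon hq.le
    linarith
  have hθ1 : θ ≤ 1 := by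
    by_contra hcon
    push Not at hcon
    have h1 : q < θ * q := by nlinarith
    rw [hθ] at h1
    have h2 : q ^ 2 < ρ ^ 2 := pow_lt_pow_left₀ h1 hq.le two_ne_zero
    linarith
  have hs : (1 + ρ ^ 2) * (θ * u) = ρ * sE ρ ya := by
    rw [← hq2, ← hu, ← hθ]; ring
  have h1 := left_drop_le ha hya hs (by nlinarith)
  -- divide
  have h2 : ρ - sx ρ ya * (1 + ya) ≤ ρ * (u ^ 2 / 2 + θ * u ^ 3 / 6 + θ ^ 2 * u ^ 4 / 6) := by
    have e1 : (1 + ρ ^ 2) * ((θ * u) ^ 2 / 2 + (θ * u) ^ 3 / 6 + (θ * u) ^ 4 / 6) =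
        ρ * (ρ * (u ^ 2 / 2 + θ * u ^ 3 / 6 + θ ^ 2 * u ^ 4 / 6)) := by
      rw [← hq2]
      calc _ = (θ * q) ^ 2 * (u ^ 2 / 2 + θ * u ^ 3 / 6 + θ ^ 2 * u ^ 4 / 6) := by ring
        _ = _ := by rw [hθ]; ring
    rw [e1] at h1
    exact le_of_mul_le_mul_left h1 hρ
  have h3 : u ^ 2 / 2 + θ * u ^ 3 / 6 + θ ^ 2 * u ^ 4 / 6 ≤
      u ^ 2 / 2 + c * u ^ 3 / 6 + c ^ 2 * u ^ 4 / 6 := by gcongr
  have h4 := h2.trans (mul_le_mul_of_nonneg_left h3 hρ.le)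
  have h5 : ρ * A - ρ * (u ^ 2 / 2 + c * u ^ 3 / 6 + c ^ 2 * u ^ 4 / 6) ≤
      sx ρ ya * (1 + ya) - sx ρ yb * (1 + yb) := by linarith
  have h6 := div_le_div_of_nonneg_right h5 hδ.le
  calc _ = (ρ * A - ρ * (u ^ 2 / 2 + c * u ^ 3 / 6 + c ^ 2 * u ^ 4 / 6)) / δ := by
        rw [hρd]; field_simp
    _ ≤ _ := h6
    _ = _ := by ring

/-- the data of a pair of saddles -/
structure LD (r δ ya yb u w q : ℝ) : Prop where
  hr : 0 < r
  hδ : 0 < δ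
  hq : 0 < q
  hq2 : q ^ 2 = 1 + (r * δ) ^ 2
  ha : Dom (r * δ) ya
  hb : Dom (r * δ) yb
  hya : 0 ≤ ya
  hyb : yb ≤ 0
  hb1 : -1 < yb
  hu : q * u = sE (r * δ) ya
  hu0 : 0 ≤ u
  hu1 : u ≤ 1 / 2
  hw : q * w = -sE (r * δ) yb
  hw0 : 0 < w
  hw1 : w ≤ 63 / 100

variable {r δ ya yb u w q : ℝ}

/-- `ρ² ≥ 3` -/
theorem LD.caseII (H : LD r δ ya yb u w q) (h3 : 3 ≤ (r * δ) ^ 2)
    (hfin : 17 / 20 + cII u w ≤ r * (w ^ 2 / 2 - w ^ 3 / 6) - r * (u ^ 2 / 2 + u ^ 3 / 6 + u ^ 4 / 6)) :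
    Gap r δ ya yb (17 / 20) := by
  obtain ⟨hr, hδ, hq, hq2, ha, hb, hya, hyb, hb1, hu, hu0, hu1, hw, hw0, hw1⟩ := H
  have hρ : 0 < r * δ := ha.1
  have hR : 0 < 1 + (r * δ) ^ 2 := by positivity
  obtain ⟨θ, hθ⟩ : ∃ θ : ℝ, θ * q = r * δ := ⟨r * δ / q, by field_simp⟩
  have hθ0 : 0 < θ := (mul_pos_iff_of_pos_right hq).1 (by rw [hθ]; exact hρ)
  have hθq : θ ^ 2 * (1 + (r * δ) ^ 2) = (r * δ) ^ 2 := by rw [← hq2, ← hθ]; ring
  have hθ1 : θ ≤ 1 := by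
    by_contra hcon
    push Not at hcon
    have h1 : 1 < θ ^ 2 := by nlinarith
    have h2 := mul_lt_mul_of_pos_right h1 hR
    linarith
  have hθ2 : 3 / 4 ≤ θ ^ 2 := by
    by_contra hcon
    push Not at hcon
    nlinarith
  have hθ3 : 866 / 1000 ≤ θ := by
    by_contra hcon
    push Not at hcon
    nlinarith
  set p : ℝ := 2 * θ ^ 2 - 1 with hp
  have hpR : (1 + (r * δ) ^ 2) * p = (r * δ) ^ 2 - 1 := by rw [hp]; linear_combination 2 * hθq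
  have hp0 : 1 / 2 ≤ p := by rw [hp]; linarith
  have hp1 : p ≤ 1 := by rw [hp]; nlinarith
  -- the bounds of `n`, `y`
  obtain ⟨n, hn⟩ : ∃ n : ℝ, yb = -n := ⟨-yb, by ring⟩
  subst hn
  have hn0 : 0 ≤ n := by linarith
  have hn1 : n < 1 := by linarith
  have hnw : n ≤ θ * w := by
    have h1 := right_n2 hb hn1 hn0 h3
    have h2 : (1 + (r * δ) ^ 2) * n ≤ (1 + (r * δ) ^ 2) * (θ * w) := by
      refine h1.trans (le_of_eq ?_)
      have : -(r * δ * sE (r * δ) (-n)) = r * δ * (-sE (r * δ) (-n)) := by ring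
      rw [this, ← hw, ← hq2, ← hθ]
      ring
    exact le_of_mul_le_mul_left h2 hR
  have hn2 : n ≤ 63 / 100 := by nlinarith
  have hy : ya ≤ θ * u + (θ * u) ^ 2 / 2 + 2 / 3 * (θ * u) ^ 3 := by
    apply left_y ha hya _ (by nlinarith)
    rw [← hq2, ← hu, ← hθ]; ring
  have hyY : ya ≤ u + u ^ 2 / 2 + 2 / 3 * u ^ 3 := by
    refine hy.trans ?_
    have : θ * u ≤ u := by nlinarith
    gcongr
  -- the drop
  have hdrop := (right_drop hb hb1 (by linarith) hq hq2 hw (by linarith)).1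
  have hphi := phi_diff (yb := -n) (c := 1) hr hδ hq hq2 hθ hθ1 ha hya hu hu0 hu1 hdrop
  -- the levels
  have hla := logD_left ha hya hpR
  have hlb := logD_right hb hn0 hpR (z := 3 / 2 * n * p) (by
    have hz0 : 0 ≤ 3 / 2 * n * p := by positivity
    have hz1 : 3 / 2 * n * p ≤ 19 / 20 := by nlinarith
    refine (exp_71 hz0 hz1).trans ?_
    have h1 : 16 / 10 * p ^ 2 ≤ 1 + p := by nlinarith
    nlinarith [mul_nonneg hn0 (mul_nonneg hn0 (sub_nonneg.2 h1)), mul_nonneg hn0 (by linarith : (0:ℝ) ≤ p)])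
  apply gap_of_log hr hδ ha hb (by linarith) hb1 (by linarith)
  have hcost : ya - -n + 1 / 4 * (Real.log (sD2 (r * δ) ya) - Real.log (sD2 (r * δ) (-n))) ≤
      cII u w := by
    have e1 : 1 / 4 * (Real.log (sD2 (r * δ) ya) - Real.log (sD2 (r * δ) (-n))) ≤
        -(1 / 2 * ya * p) + 1 / 4 * (1 + p) * ya ^ 2 - 3 / 8 * n * p := by
      linarith
    have e2 : 1 / 4 * (1 + p) * ya ^ 2 ≤ 1 / 2 * (u + u ^ 2 / 2 + 2 / 3 * u ^ 3) ^ 2 := by
      have h1 : ya ^ 2 ≤ (u + u ^ 2 / 2 + 2 / 3 * u ^ 3) ^ 2 := pow_le_pow_left₀ hya hyY 2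
      have h2 : 1 / 4 * (1 + p) ≤ 1 / 2 := by linarith
      exact mul_le_mul h2 h1 (sq_nonneg _) (by norm_num)
    have e3 : n * (1 - 3 / 8 * p) ≤ 704 / 1000 * w := by
      have h1 : n * (1 - 3 / 8 * p) ≤ θ * w * (1 - 3 / 8 * p) :=
        mul_le_mul_of_nonneg_right hnw (by linarith)
      have h2 : θ * (1 - 3 / 8 * p) ≤ 704 / 1000 := by
        rw [hp]
        nlinarith [mul_nonneg (sub_nonneg.2 hθ3) (sub_nonneg.2 hθ2)]
      nlinarith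
    have e4 : ya * (1 - 1 / 2 * p) ≤ 13 / 20 * u + 3 / 8 * u ^ 2 + 1 / 2 * u ^ 3 := by
      have h1 : ya * (1 - 1 / 2 * p) ≤ (θ * u + (θ * u) ^ 2 / 2 + 2 / 3 * (θ * u) ^ 3) *
          (1 - 1 / 2 * p) := mul_le_mul_of_nonneg_right hy (by linarith)
      have h2 : θ * (1 - 1 / 2 * p) ≤ 13 / 20 := by
        rw [hp]
        nlinarith [mul_nonneg (sub_nonneg.2 hθ3) (sub_nonneg.2 hθ2)]
      have h3 : θ * u ≤ u := by nlinarith
      have h4 : 1 - 1 / 2 * p ≤ 3 / 4 := by linarith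
      have h5 : (θ * u) ^ 2 / 2 + 2 / 3 * (θ * u) ^ 3 ≤ u ^ 2 / 2 + 2 / 3 * u ^ 3 := by gcongr
      have h6 : ((θ * u) ^ 2 / 2 + 2 / 3 * (θ * u) ^ 3) * (1 - 1 / 2 * p) ≤
          (u ^ 2 / 2 + 2 / 3 * u ^ 3) * (3 / 4) :=
        mul_le_mul h5 h4 (by linarith) (by positivity)
      have h7 := mul_le_mul_of_nonneg_right h2 hu0
      nlinarith
    unfold cII
    nlinarith
  have h1 : r * (w ^ 2 / 2 - w ^ 3 / 6) - r * (u ^ 2 / 2 + u ^ 3 / 6 + u ^ 4 / 6) ≤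
      sx (r * δ) ya * (1 + ya) / δ - sx (r * δ) (-n) * (1 + -n) / δ := by
    refine le_trans (le_of_eq ?_) hphi
    ring
  linarith

end SokalV3.GL
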