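import Pool.Agent.Lib_MP_af4de1_v3.GapL

/-!
# PGap1.L: the cases `ρ² ≤ 3` (helper69)
-/

set_option autoImplicit false

namespace SokalV3.GL

open Complex SokalV3 SokalU SokalF1 SokalF1S SokalF1M

theorem n_lt {ρ n N q w θ : ℝ} (hb : Dom ρ (-n)) (hn1 : n < 1) (hN : 0 ≤ N) (hq : 0 < q)
    (hq2 : q ^ 2 = 1 + ρ ^ 2) (hθ : θ * q = ρ) (hw : q * w = -sE ρ (-n))
    (hP : θ * w < (1 - θ ^ 2) * (N - 3 / 2 * N ^ 2 + 5 / 6 * N ^ 3 - 1 / 3 * N ^ 4) +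
      θ ^ 2 * (N + N ^ 2 / 2)) : n < N := by
  apply right_n_lt hb hn1 hN
  have e1 : -(ρ * sE ρ (-n)) = q ^ 2 * (θ * w) := by
    have : -(ρ * sE ρ (-n)) = ρ * (-sE ρ (-n)) := by ring
    rw [this, ← hw, ← hθ]; ring
  have e2 : q ^ 2 * (1 - θ ^ 2) = 1 := by
    have : q ^ 2 * (1 - θ ^ 2) = q ^ 2 - (θ * q) ^ 2 := by ring
    rw [this, hθ, hq2]; ring
  have e3 : q ^ 2 * θ ^ 2 = ρ ^ 2 := by rw [← hθ]; ring
  rw [e1]
  have h1 := mul_lt_mul_of_pos_left hP (by positivity : 0 < q ^ 2)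
  calc q ^ 2 * (θ * w) < _ := h1
    _ = (q ^ 2 * (1 - θ ^ 2)) * (N - 3 / 2 * N ^ 2 + 5 / 6 * N ^ 3 - 1 / 3 * N ^ 4) +
        (q ^ 2 * θ ^ 2) * (N + N ^ 2 / 2) := by ring
    _ = _ := by rw [e2, e3, one_mul]

variable {r δ ya yb u w q : ℝ}

/-- the bound of `n` for `ρ² ≤ 3` -/
theorem LD.n_le (H : LD r δ ya yb u w q) (h3 : (r * δ) ^ 2 ≤ 3) {θ : ℝ} (hθ : θ * q = r * δ) :
    0 < θ ∧ θ ^ 2 ≤ 3 / 4 ∧ (w ≤ 9 / 20 → -yb ≤ θ * w + 3 / 4 * w ^ 2) ∧ -yb ≤ 2 * θ * w := by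
  obtain ⟨hr, hδ, hq, hq2, ha, hb, hya, hyb, hb1, hu, hu0, hu1, hw, hw0, hw1⟩ := H
  have hρ : 0 < r * δ := ha.1
  have hR : 0 < 1 + (r * δ) ^ 2 := by positivity
  have hθ0 : 0 < θ := (mul_pos_iff_of_pos_right hq).1 (by rw [hθ]; exact hρ)
  have hθq : θ ^ 2 * (1 + (r * δ) ^ 2) = (r * δ) ^ 2 := by rw [← hq2, ← hθ]; ring
  have hθ2 : θ ^ 2 ≤ 3 / 4 := by
    by_contra hcon
    push Not at hcon
    nlinarith
  obtain ⟨n, hn⟩ : ∃ n : ℝ, yb = -n := ⟨-yb, by ring⟩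
  subst hn
  rw [neg_neg]
  refine ⟨hθ0, hθ2, fun hw2 => ?_, ?_⟩
  · exact (n_lt hb (by linarith) (by positivity) hq hq2 hθ hw (poly_small hθ0.le hθ2 hw0 hw2 rfl)).le
  · exact (n_lt hb (by linarith) (by positivity) hq hq2 hθ hw (poly_big hθ0 hθ2 hw0 hw1 rfl)).le

/-- `1 ≤ ρ² ≤ 3` -/
theorem LD.caseIa (H : LD r δ ya yb u w q) (h1 : 1 ≤ (r * δ) ^ 2) (h3 : (r * δ) ^ 2 ≤ 3) {D : ℝ}
    (hD : (w ≤ 9 / 20 ∧ 8661 / 10000 + 3 / 4 * w ≤ D) ∨ 17322 / 10000 ≤ D)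
    (hfin : ∀ Y N : ℝ, 0 ≤ Y → Y ≤ 8661 / 10000 * u + (8661 / 10000 * u) ^ 2 / 2 +
      2 / 3 * (8661 / 10000 * u) ^ 3 → N ≤ D * w →
      17 / 20 + cIa Y N ≤ r * (w ^ 2 / 2 - w ^ 4 / 8) -
        r * (u ^ 2 / 2 + 8661 / 10000 * u ^ 3 / 6 + (8661 / 10000) ^ 2 * u ^ 4 / 6)) :
    Gap r δ ya yb (17 / 20) := by
  have hρ : 0 < r * δ := H.ha.1
  have hR : 0 < 1 + (r * δ) ^ 2 := by positivity
  obtain ⟨θ, hθ⟩ : ∃ θ : ℝ, θ * q = r * δ := ⟨r * δ / q, by have := H.hq; field_simp⟩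
  obtain ⟨hθ0, hθ2, hn1, hn2⟩ := H.n_le h3 hθ
  obtain ⟨hr, hδ, hq, hq2, ha, hb, hya, hyb, hb1, hu, hu0, hu1, hw, hw0, hw1⟩ := H
  have hθq : θ ^ 2 * (1 + (r * δ) ^ 2) = (r * δ) ^ 2 := by rw [← hq2, ← hθ]; ring
  have hθ3 : θ ≤ 8661 / 10000 := by nlinarith
  have hθh : 1 / 2 ≤ θ ^ 2 := by
    by_contra hcon
    push Not at hcon
    nlinarith
  set p : ℝ := 2 * θ ^ 2 - 1 with hp
  have hpR : (1 + (r * δ) ^ 2) * p = (r * δ) ^ 2 - 1 := by rw [hp]; linear_combination 2 * hθq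
  have hp0 : 0 ≤ p := by rw [hp]; linarith
  have hp1 : p ≤ 1 / 2 := by rw [hp]; linarith
  obtain ⟨n, hn⟩ : ∃ n : ℝ, yb = -n := ⟨-yb, by ring⟩
  subst hn
  rw [neg_neg] at hn1 hn2
  have hn0 : 0 ≤ n := by linarith
  have hnD : n ≤ D * w := by
    rcases hD with ⟨hw2, hD⟩ | hD
    · have h2 := hn1 hw2
      have h4 : θ * w + 3 / 4 * w ^ 2 = (θ + 3 / 4 * w) * w := by ring
      rw [h4] at h2
      exact h2.trans (mul_le_mul_of_nonneg_right (by linarith) hw0.le)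
    · exact hn2.trans (mul_le_mul_of_nonneg_right (by linarith) hw0.le)
  have hy : ya ≤ θ * u + (θ * u) ^ 2 / 2 + 2 / 3 * (θ * u) ^ 3 := by
    apply left_y ha hya _ (by nlinarith)
    rw [← hq2, ← hu, ← hθ]; ring
  have hyY : ya ≤ 8661 / 10000 * u + (8661 / 10000 * u) ^ 2 / 2 + 2 / 3 * (8661 / 10000 * u) ^ 3 := by
    refine hy.trans ?_
    gcongr
  have hdrop := (right_drop hb hb1 (by linarith) hq hq2 hw (by linarith)).2 h3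
  have hphi := phi_diff (yb := -n) (c := 8661 / 10000) hr hδ hq hq2 hθ hθ3 ha hya hu hu0 hu1 hdrop
  have hla := logD_left ha hya hpR
  have hlb := logD_right hb hn0 hpR (z := 0) (by
    rw [Real.exp_zero]
    have : 0 ≤ 2 * n * p + (1 + p) * n ^ 2 := by positivity
    linarith)
  apply gap_of_log hr hδ ha hb (by linarith) hb1 (by linarith)
  have h5 := hfin ya n hya hyY hnD
  have e1 : 0 ≤ ya * p := mul_nonneg hya hp0
  have e2 : (1 + p) * ya ^ 2 ≤ 3 / 2 * ya ^ 2 := mul_le_mul_of_nonneg_right (by linarith) (sq_nonneg _)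
  unfold cIa at h5
  linarith

theorem exp_frac {t : ℝ} (h1 : t < 1) : Real.exp (-(t / (1 - t))) ≤ 1 - t := by
  have h0 : 0 < 1 - t := by linarith
  have h2 := Real.one_sub_inv_le_log_of_pos h0
  have h3 : 1 - (1 - t)⁻¹ = -(t / (1 - t)) := by
    field_simp
    ring
  rw [h3, Real.le_log_iff_exp_le h0] at h2
  exact h2

/-- `ρ² ≤ 1` -/
theorem LD.caseIb (H : LD r δ ya yb u w q) (h1 : (r * δ) ^ 2 ≤ 1) {D E f : ℝ}
    (hD : (w ≤ 9 / 20 ∧ 7072 / 10000 + 3 / 4 * w ≤ D ∧ 2723 / 10000 + 3 / 4 * w ≤ E) ∨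
      (14144 / 10000 ≤ D ∧ 5446 / 10000 ≤ E))
    (hf0 : 0 ≤ f) (hf : 1 / 2 ≤ f * (1 - 2 * (E * w)))
    (hfin : ∀ Y N M : ℝ, 0 ≤ Y → Y ≤ 7072 / 10000 * u + (7072 / 10000 * u) ^ 2 / 2 +
      2 / 3 * (7072 / 10000 * u) ^ 3 → N ≤ D * w → M ≤ E * w →
      17 / 20 + cIb Y N f M ≤ r * (w ^ 2 / 2 - w ^ 4 / 8) -
        r * (u ^ 2 / 2 + 7072 / 10000 * u ^ 3 / 6 + (7072 / 10000) ^ 2 * u ^ 4 / 6)) :
    Gap r δ ya yb (17 / 20) := by
  have hρ : 0 < r * δ := H.ha.1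
  have hR : 0 < 1 + (r * δ) ^ 2 := by positivity
  obtain ⟨θ, hθ⟩ : ∃ θ : ℝ, θ * q = r * δ := ⟨r * δ / q, by have := H.hq; field_simp⟩
  have h3 : (r * δ) ^ 2 ≤ 3 := by linarith
  obtain ⟨hθ0, -, hn1, hn2⟩ := H.n_le h3 hθ
  obtain ⟨hr, hδ, hq, hq2, ha, hb, hya, hyb, hb1, hu, hu0, hu1, hw, hw0, hw1⟩ := H
  have hθq : θ ^ 2 * (1 + (r * δ) ^ 2) = (r * δ) ^ 2 := by rw [← hq2, ← hθ]; ring
  have hθh : θ ^ 2 ≤ 1 / 2 := by
    by_contra hcon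
    push Not at hcon
    nlinarith
  have hθ3 : θ ≤ 7072 / 10000 := by nlinarith
  set p : ℝ := 2 * θ ^ 2 - 1 with hp
  have hpR : (1 + (r * δ) ^ 2) * p = (r * δ) ^ 2 - 1 := by rw [hp]; linear_combination 2 * hθq
  have hp0 : p ≤ 0 := by rw [hp]; linarith
  have hp1 : -1 ≤ p := by rw [hp]; nlinarith
  obtain ⟨n, hn⟩ : ∃ n : ℝ, yb = -n := ⟨-yb, by ring⟩
  subst hn
  rw [neg_neg] at hn1 hn2
  have hn0 : 0 ≤ n := by linarith
  have hθp : θ * -p ≤ 2723 / 10000 := by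
    rw [hp]
    nlinarith [sq_nonneg (θ - 408 / 1000), mul_nonneg hθ0.le (sq_nonneg (θ - 408 / 1000))]
  have hnD : n ≤ D * w ∧ n * -p ≤ E * w := by
    rcases hD with ⟨hw2, hD, hE⟩ | ⟨hD, hE⟩
    · have h2 := hn1 hw2
      have h4 : θ * w + 3 / 4 * w ^ 2 = (θ + 3 / 4 * w) * w := by ring
      rw [h4] at h2
      refine ⟨h2.trans (mul_le_mul_of_nonneg_right (by linarith) hw0.le), ?_⟩
      have h5 := mul_le_mul_of_nonneg_right h2 (by linarith : (0 : ℝ) ≤ -p)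
      have h6 : (θ + 3 / 4 * w) * w * -p = (θ * -p + 3 / 4 * w * -p) * w := by ring
      rw [h6] at h5
      refine h5.trans (mul_le_mul_of_nonneg_right ?_ hw0.le)
      have h7 : 3 / 4 * w * -p ≤ 3 / 4 * w * 1 := mul_le_mul_of_nonneg_left (by linarith) (by positivity)
      linarith
    · refine ⟨hn2.trans (mul_le_mul_of_nonneg_right (by linarith) hw0.le), ?_⟩
      have h5 := mul_le_mul_of_nonneg_right hn2 (by linarith : (0 : ℝ) ≤ -p)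
      have h6 : 2 * θ * w * -p = 2 * (θ * -p) * w := by ring
      rw [h6] at h5
      exact h5.trans (mul_le_mul_of_nonneg_right (by linarith) hw0.le)
  obtain ⟨hnD, hnE⟩ := hnD
  have hy : ya ≤ θ * u + (θ * u) ^ 2 / 2 + 2 / 3 * (θ * u) ^ 3 := by
    apply left_y ha hya _ (by nlinarith)
    rw [← hq2, ← hu, ← hθ]; ring
  have hyY : ya ≤ 7072 / 10000 * u + (7072 / 10000 * u) ^ 2 / 2 + 2 / 3 * (7072 / 10000 * u) ^ 3 := by
    refine hy.trans ?_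
    gcongr
  have hdrop := (right_drop hb hb1 (by linarith) hq hq2 hw (by linarith)).2 h3
  have hphi := phi_diff (yb := -n) (c := 7072 / 10000) hr hδ hq hq2 hθ hθ3 ha hya hu hu0 hu1 hdrop
  have hla := logD_left ha hya hpR
  set t : ℝ := 2 * (n * -p) with ht
  have ht0 : 0 ≤ t := by
    have := mul_nonneg hn0 (by linarith : (0 : ℝ) ≤ -p)
    rw [ht]; linarith
  have ht1 : 1 / 2 ≤ f * (1 - t) := by
    refine hf.trans (mul_le_mul_of_nonneg_left ?_ hf0)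
    rw [ht]; linarith
  have ht2 : t < 1 := by
    by_contra hcon
    push Not at hcon
    have := mul_nonneg hf0 (by linarith : 0 ≤ t - 1)
    linarith
  have hlb := logD_right hb hn0 hpR (z := -(t / (1 - t))) (by
    refine (exp_frac ht2).trans ?_
    have : 0 ≤ (1 + p) * n ^ 2 := mul_nonneg (by linarith) (sq_nonneg _)
    rw [ht]
    linarith)
  have htf : 1 / 4 * (t / (1 - t)) ≤ f * (n * -p) := by
    have h0 : 0 < 1 - t := by linarith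
    rw [← mul_div_assoc, div_le_iff₀ h0]
    have h5 : t * (1 / 2) ≤ t * (f * (1 - t)) := mul_le_mul_of_nonneg_left ht1 ht0
    have h6 : t * (f * (1 - t)) = 2 * (f * (n * -p) * (1 - t)) := by rw [ht]; ring
    linarith
  apply gap_of_log hr hδ ha hb (by linarith) hb1 (by linarith)
  have h5 := hfin ya n (n * -p) hya hyY hnD hnE
  have e1 : -(2 * ya * p) ≤ 2 * ya := by
    have := mul_nonneg hya (by linarith : (0 : ℝ) ≤ 1 + p)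
    nlinarith
  have e2 : (1 + p) * ya ^ 2 ≤ 1 * ya ^ 2 := mul_le_mul_of_nonneg_right (by linarith) (sq_nonneg _)
  unfold cIb at h5
  linarith

end SokalV3.GL
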