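import Mathlib

/-!
# Polynomial certificates for the level lemma on the right side, `|η| ≤ π/5`

`n = -y`, `u = ρ²`; `hC` is the constraint `(ρ t)² ≤ (79/200) u`.
-/

set_option autoImplicit false
set_option linter.unusedVariables false

namespace SokalV3

private theorem lc2_g_0_0 {n : ℝ} (h0 : 0 ≤ n) (h1 : n ≤ (6 / 25)) :
    0 ≤ ((7 / 5) + 1 * n ^ 2) * (1 - 3 / 2 * n + n ^ 2 - 5 / 12 * n ^ 3) ^ 2 - ((281 / 250) * (1 - 2 * n + 3 / 2 * n ^ 2 - 1 / 2 * n ^ 3)) - 0 * (((7 / 5) + 1 * n ^ 2) * (1 + 1 / 2 * n + 1 / 6 * n ^ 2) ^ 2 - (1 + 2 / 3 * n + 3 / 10 * n ^ 2)) := by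
  obtain ⟨v, hv, rfl⟩ : ∃ v : ℝ, 0 ≤ v ∧ n = 0 + v := ⟨n - 0, by linarith, by ring⟩
  obtain ⟨w, hw, e⟩ : ∃ w : ℝ, 0 ≤ w ∧ w = (6 / 25) - v := ⟨_, by linarith, rfl⟩
  have key : (0 : ℝ) ≤ (28076171875 / 1119744) * w ^ 8 +
      (7373046875 / 46656) * v * w ^ 7 +
      (120845703125 / 279936) * v ^ 2 * w ^ 6 +
      (186392890625 / 279936) * v ^ 3 * w ^ 5 +
      (13104453125 / 20736) * v ^ 4 * w ^ 4 +
      (26312734375 / 69984) * v ^ 5 * w ^ 3 +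
      (38018288125 / 279936) * v ^ 6 * w ^ 2 +
      (2505800375 / 93312) * v ^ 7 * w +
      (2425630775 / 1119744) * v ^ 8 := by positivity
  refine key.trans (le_of_eq ?_)
  rw [e]
  ring

private theorem lc2_g_0_1 {n : ℝ} (h0 : 0 ≤ n) (h1 : n ≤ (6 / 25)) :
    0 ≤ 2 * ((7 / 5) + 1 * n ^ 2) * ((1 - 3 / 2 * n + n ^ 2 - 5 / 12 * n ^ 3) * (1 + 1 / 2 * n + 1 / 6 * n ^ 2)) - (1 + 2 / 3 * n + 3 / 10 * n ^ 2) - ((281 / 250) * (1 - 2 * n + 3 / 2 * n ^ 2 - 1 / 2 * n ^ 3)) - (79 / 200) + 0 * (((7 / 5) + 1 * n ^ 2) * (1 + 1 / 2 * n + 1 / 6 * n ^ 2) ^ 2 - (1 + 2 / 3 * n + 3 / 10 * n ^ 2)) := by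
  obtain ⟨v, hv, rfl⟩ : ∃ v : ℝ, 0 ≤ v ∧ n = 0 + v := ⟨n - 0, by linarith, by ring⟩
  obtain ⟨w, hw, e⟩ : ∃ w : ℝ, 0 ≤ w ∧ w = (6 / 25) - v := ⟨_, by linarith, rfl⟩
  have key : (0 : ℝ) ≤ (13720703125 / 2239488) * w ^ 7 +
      (81763671875 / 2239488) * v * w ^ 6 +
      (68589296875 / 746496) * v ^ 2 * w ^ 5 +
      (281323334375 / 2239488) * v ^ 3 * w ^ 4 +
      (222779359375 / 2239488) * v ^ 4 * w ^ 3 +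
      (33245381875 / 746496) * v ^ 5 * w ^ 2 +
      (22124429275 / 2239488) * v ^ 6 * w +
      (1568919485 / 2239488) * v ^ 7 := by positivity
  refine key.trans (le_of_eq ?_)
  rw [e]
  ring

private theorem lc2_g_0_2 {n : ℝ} (h0 : 0 ≤ n) (h1 : n ≤ (6 / 25)) :
    0 ≤ ((7 / 5) + 1 * n ^ 2) * (1 + 1 / 2 * n + 1 / 6 * n ^ 2) ^ 2 - (1 + 2 / 3 * n + 3 / 10 * n ^ 2) := by
  obtain ⟨v, hv, rfl⟩ : ∃ v : ℝ, 0 ≤ v ∧ n = 0 + v := ⟨n - 0, by linarith, by ring⟩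
  obtain ⟨w, hw, e⟩ : ∃ w : ℝ, 0 ≤ w ∧ w = (6 / 25) - v := ⟨_, by linarith, rfl⟩
  have key : (0 : ℝ) ≤ (48828125 / 23328) * w ^ 6 +
      (314453125 / 23328) * v * w ^ 5 +
      (1701015625 / 46656) * v ^ 2 * w ^ 4 +
      (618071875 / 11664) * v ^ 3 * w ^ 3 +
      (508872875 / 11664) * v ^ 4 * w ^ 2 +
      (449810825 / 23328) * v ^ 5 * w +
      (55551107 / 15552) * v ^ 6 := by positivity
  refine key.trans (le_of_eq ?_)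
  rw [e]
  ring

private theorem lc2_g_1_0 {n : ℝ} (h0 : (6 / 25) ≤ n) (h1 : n ≤ (9 / 25)) :
    0 ≤ ((7 / 5) + (3 / 2) * n ^ 2) * (1 - 3 / 2 * n + n ^ 2 - 5 / 12 * n ^ 3) ^ 2 - ((281 / 250) * (1 - 2 * n + 3 / 2 * n ^ 2 - 1 / 2 * n ^ 3)) - (1 / 100) * (((7 / 5) + (3 / 2) * n ^ 2) * (1 + 1 / 2 * n + 1 / 6 * n ^ 2) ^ 2 - (1 + 2 / 3 * n + 3 / 10 * n ^ 2)) := by
  obtain ⟨v, hv, rfl⟩ : ∃ v : ℝ, 0 ≤ v ∧ n = (6 / 25) + v := ⟨n - (6 / 25), by linarith, by ring⟩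
  obtain ⟨w, hw, e⟩ : ∃ w : ℝ, 0 ≤ w ∧ w = (3 / 25) - v := ⟨_, by linarith, rfl⟩
  have key : (0 : ℝ) ≤ (6192264875 / 8748) * w ^ 8 +
      (60170718175 / 13122) * v * w ^ 7 +
      (1342561875725 / 104976) * v ^ 2 * w ^ 6 +
      (38776802125 / 1944) * v ^ 3 * w ^ 5 +
      (3959055672125 / 209952) * v ^ 4 * w ^ 4 +
      (1143093143125 / 104976) * v ^ 5 * w ^ 3 +
      (254167470275 / 69984) * v ^ 6 * w ^ 2 +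
      (3866597525 / 6561) * v ^ 7 * w +
      (5247390625 / 209952) * v ^ 8 := by positivity
  refine key.trans (le_of_eq ?_)
  rw [e]
  ring

private theorem lc2_g_1_1 {n : ℝ} (h0 : (6 / 25) ≤ n) (h1 : n ≤ (9 / 25)) :
    0 ≤ 2 * ((7 / 5) + (3 / 2) * n ^ 2) * ((1 - 3 / 2 * n + n ^ 2 - 5 / 12 * n ^ 3) * (1 + 1 / 2 * n + 1 / 6 * n ^ 2)) - (1 + 2 / 3 * n + 3 / 10 * n ^ 2) - ((281 / 250) * (1 - 2 * n + 3 / 2 * n ^ 2 - 1 / 2 * n ^ 3)) - (237 / 400) + (1 / 5) * (((7 / 5) + (3 / 2) * n ^ 2) * (1 + 1 / 2 * n + 1 / 6 * n ^ 2) ^ 2 - (1 + 2 / 3 * n + 3 / 10 * n ^ 2)) := by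
  obtain ⟨v, hv, rfl⟩ : ∃ v : ℝ, 0 ≤ v ∧ n = (6 / 25) + v := ⟨n - (6 / 25), by linarith, by ring⟩
  obtain ⟨w, hw, e⟩ : ∃ w : ℝ, 0 ≤ w ∧ w = (3 / 25) - v := ⟨_, by linarith, rfl⟩
  have key : (0 : ℝ) ≤ (255188275 / 3888) * w ^ 7 +
      (4529057855 / 11664) * v * w ^ 6 +
      (3870835415 / 3888) * v ^ 2 * w ^ 5 +
      (5608186525 / 3888) * v ^ 3 * w ^ 4 +
      (14961867025 / 11664) * v ^ 4 * w ^ 3 +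
      (2734479125 / 3888) * v ^ 5 * w ^ 2 +
      (10585715 / 48) * v ^ 6 * w +
      (355209605 / 11664) * v ^ 7 := by positivity
  refine key.trans (le_of_eq ?_)
  rw [e]
  ring

private theorem lc2_g_1_2 {n : ℝ} (h0 : (6 / 25) ≤ n) (h1 : n ≤ (9 / 25)) :
    0 ≤ ((7 / 5) + (3 / 2) * n ^ 2) * (1 + 1 / 2 * n + 1 / 6 * n ^ 2) ^ 2 - (1 + 2 / 3 * n + 3 / 10 * n ^ 2) := by
  obtain ⟨v, hv, rfl⟩ : ∃ v : ℝ, 0 ≤ v ∧ n = (6 / 25) + v := ⟨n - (6 / 25), by linarith, by ring⟩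
  obtain ⟨w, hw, e⟩ : ∃ w : ℝ, 0 ≤ w ∧ w = (3 / 25) - v := ⟨_, by linarith, rfl⟩
  have key : (0 : ℝ) ≤ (58541723 / 243) * w ^ 6 +
      (1113977596 / 729) * v * w ^ 5 +
      (11792907815 / 2916) * v ^ 2 * w ^ 4 +
      (4166802220 / 729) * v ^ 3 * w ^ 3 +
      (26532053105 / 5832) * v ^ 4 * w ^ 2 +
      (2818758697 / 1458) * v ^ 5 * w +
      (249800434 / 729) * v ^ 6 := by positivity
  refine key.trans (le_of_eq ?_)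
  rw [e]
  ring

private theorem lc2_g_2_0 {n : ℝ} (h0 : (9 / 25) ≤ n) (h1 : n ≤ (2 / 5)) :
    0 ≤ ((7 / 5) + 2 * n ^ 2) * (1 - 3 / 2 * n + n ^ 2 - 5 / 12 * n ^ 3) ^ 2 - ((281 / 250) * (1 - 2 * n + 3 / 2 * n ^ 2 - 1 / 2 * n ^ 3)) - (49 / 2500) * (((7 / 5) + 2 * n ^ 2) * (1 + 1 / 2 * n + 1 / 6 * n ^ 2) ^ 2 - (1 + 2 / 3 * n + 3 / 10 * n ^ 2)) := by
  obtain ⟨v, hv, rfl⟩ : ∃ v : ℝ, 0 ≤ v ∧ n = (9 / 25) + v := ⟨n - (9 / 25), by linarith, by ring⟩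
  obtain ⟨w, hw, e⟩ : ∃ w : ℝ, 0 ≤ w ∧ w = (1 / 25) - v := ⟨_, by linarith, rfl⟩
  have key : (0 : ℝ) ≤ (25594869323 / 16) * w ^ 8 +
      (287585250049 / 24) * v * w ^ 7 +
      (156761151247 / 4) * v ^ 2 * w ^ 6 +
      (292268565655 / 4) * v ^ 3 * w ^ 5 +
      (6112801167875 / 72) * v ^ 4 * w ^ 4 +
      (1132582653125 / 18) * v ^ 5 * w ^ 3 +
      (1393288740625 / 48) * v ^ 6 * w ^ 2 +
      (68529690625 / 9) * v ^ 7 * w +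
      (10424359375 / 12) * v ^ 8 := by positivity
  refine key.trans (le_of_eq ?_)
  rw [e]
  ring

private theorem lc2_g_2_1 {n : ℝ} (h0 : (9 / 25) ≤ n) (h1 : n ≤ (2 / 5)) :
    0 ≤ 2 * ((7 / 5) + 2 * n ^ 2) * ((1 - 3 / 2 * n + n ^ 2 - 5 / 12 * n ^ 3) * (1 + 1 / 2 * n + 1 / 6 * n ^ 2)) - (1 + 2 / 3 * n + 3 / 10 * n ^ 2) - ((281 / 250) * (1 - 2 * n + 3 / 2 * n ^ 2 - 1 / 2 * n ^ 3)) - (79 / 100) + (7 / 25) * (((7 / 5) + 2 * n ^ 2) * (1 + 1 / 2 * n + 1 / 6 * n ^ 2) ^ 2 - (1 + 2 / 3 * n + 3 / 10 * n ^ 2)) := by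
  obtain ⟨v, hv, rfl⟩ : ∃ v : ℝ, 0 ≤ v ∧ n = (9 / 25) + v := ⟨n - (9 / 25), by linarith, by ring⟩
  obtain ⟨w, hw, e⟩ : ∃ w : ℝ, 0 ≤ w ∧ w = (1 / 25) - v := ⟨_, by linarith, rfl⟩
  have key : (0 : ℝ) ≤ (250323151 / 4) * w ^ 7 +
      (7562952803 / 12) * v * w ^ 6 +
      (7442265130 / 3) * v ^ 2 * w ^ 5 +
      (61676219875 / 12) * v ^ 3 * w ^ 4 +
      (55492015625 / 9) * v ^ 4 * w ^ 3 +
      (155782203125 / 36) * v ^ 5 * w ^ 2 +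
      (6622415625 / 4) * v ^ 6 * w +
      (9630171875 / 36) * v ^ 7 := by positivity
  refine key.trans (le_of_eq ?_)
  rw [e]
  ring

private theorem lc2_g_2_2 {n : ℝ} (h0 : (9 / 25) ≤ n) (h1 : n ≤ (2 / 5)) :
    0 ≤ ((7 / 5) + 2 * n ^ 2) * (1 + 1 / 2 * n + 1 / 6 * n ^ 2) ^ 2 - (1 + 2 / 3 * n + 3 / 10 * n ^ 2) := by
  obtain ⟨v, hv, rfl⟩ : ∃ v : ℝ, 0 ≤ v ∧ n = (9 / 25) + v := ⟨n - (9 / 25), by linarith, by ring⟩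
  obtain ⟨w, hw, e⟩ : ∃ w : ℝ, 0 ≤ w ∧ w = (1 / 25) - v := ⟨_, by linarith, rfl⟩
  have key : (0 : ℝ) ≤ (545284949 / 2) * w ^ 6 +
      (5015044465 / 3) * v * w ^ 5 +
      (51253535875 / 12) * v ^ 2 * w ^ 4 +
      (34923696875 / 6) * v ^ 3 * w ^ 3 +
      (160641340625 / 36) * v ^ 4 * w ^ 2 +
      (16421668750 / 9) * v ^ 5 * w +
      (2798078125 / 9) * v ^ 6 := by positivity
  refine key.trans (le_of_eq ?_)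
  rw [e]
  ring

theorem lc2_g {n u : ℝ} (h0 : 0 ≤ n) (h1 : n ≤ (2 / 5)) (hu : 0 ≤ u)
    (hC : n ^ 2 * ((1 - 3 / 2 * n + n ^ 2 - 5 / 12 * n ^ 3) + u * (1 + 1 / 2 * n + 1 / 6 * n ^ 2)) ^ 2 ≤ (79 / 200) * u) :
    (1 + u) * (u * (1 + 2 / 3 * n + 3 / 10 * n ^ 2) + ((281 / 250) * (1 - 2 * n + 3 / 2 * n ^ 2 - 1 / 2 * n ^ 3))) ≤
      (7 / 5) * ((1 - 3 / 2 * n + n ^ 2 - 5 / 12 * n ^ 3) + u * (1 + 1 / 2 * n + 1 / 6 * n ^ 2)) ^ 2 := by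
  rcases le_total n (6 / 25) with h | h
  · have c0 := lc2_g_0_0 (n := n) (by linarith) (by linarith)
    have c1 := lc2_g_0_1 (n := n) (by linarith) (by linarith)
    have c2 := lc2_g_0_2 (n := n) (by linarith) (by linarith)
    linarith [mul_nonneg (by norm_num : (0 : ℝ) ≤ 1) (sub_nonneg.2 hC), c0, mul_nonneg c1 hu,
      mul_nonneg c2 (sq_nonneg (u - 0))]
  rcases le_total n (9 / 25) with h | h
  · have c0 := lc2_g_1_0 (n := n) (by linarith) (by linarith)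
    have c1 := lc2_g_1_1 (n := n) (by linarith) (by linarith)
    have c2 := lc2_g_1_2 (n := n) (by linarith) (by linarith)
    linarith [mul_nonneg (by norm_num : (0 : ℝ) ≤ (3 / 2)) (sub_nonneg.2 hC), c0, mul_nonneg c1 hu,
      mul_nonneg c2 (sq_nonneg (u - (1 / 10)))]
  have c0 := lc2_g_2_0 (n := n) (by linarith) (by linarith)
  have c1 := lc2_g_2_1 (n := n) (by linarith) (by linarith)
  have c2 := lc2_g_2_2 (n := n) (by linarith) (by linarith)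
  linarith [mul_nonneg (by norm_num : (0 : ℝ) ≤ 2) (sub_nonneg.2 hC), c0, mul_nonneg c1 hu,
    mul_nonneg c2 (sq_nonneg (u - (7 / 50)))]

private theorem lc2_k_0_0 {n : ℝ} (h0 : 0 ≤ n) (h1 : n ≤ (2 / 5)) :
    0 ≤ ((9 / 4) + 3 * n ^ 2) * (1 - 3 / 2 * n + n ^ 2 - 5 / 12 * n ^ 3) ^ 2 - ((281 / 250) * (1 - n + 1 / 2 * n ^ 2)) - 0 * (((9 / 4) + 3 * n ^ 2) * (1 + 1 / 2 * n + 1 / 6 * n ^ 2) ^ 2 - (1 + 1 / 2 * n + 1 / 6 * n ^ 2 + 3 / 50 * n ^ 3) ^ 2) := by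
  obtain ⟨v, hv, rfl⟩ : ∃ v : ℝ, 0 ≤ v ∧ n = 0 + v := ⟨n - 0, by linarith, by ring⟩
  obtain ⟨w, hw, e⟩ : ∃ w : ℝ, 0 ≤ w ∧ w = (2 / 5) - v := ⟨_, by linarith, rfl⟩
  have key : (0 : ℝ) ≤ (1759375 / 1024) * w ^ 8 +
      (5279375 / 512) * v * w ^ 7 +
      (27648875 / 1024) * v ^ 2 * w ^ 6 +
      (2557625 / 64) * v ^ 3 * w ^ 5 +
      (36989375 / 1024) * v ^ 4 * w ^ 4 +
      (10234875 / 512) * v ^ 5 * w ^ 3 +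
      (6476825 / 1024) * v ^ 6 * w ^ 2 +
      (235625 / 256) * v ^ 7 * w +
      (28625 / 1536) * v ^ 8 := by positivity
  refine key.trans (le_of_eq ?_)
  rw [e]
  ring

private theorem lc2_k_0_1 {n : ℝ} (h0 : 0 ≤ n) (h1 : n ≤ (2 / 5)) :
    0 ≤ 2 * ((9 / 4) + 3 * n ^ 2) * ((1 - 3 / 2 * n + n ^ 2 - 5 / 12 * n ^ 3) * (1 + 1 / 2 * n + 1 / 6 * n ^ 2)) - (1 + 1 / 2 * n + 1 / 6 * n ^ 2 + 3 / 50 * n ^ 3) ^ 2 - ((281 / 250) * (1 - n + 1 / 2 * n ^ 2)) - (237 / 200) + 0 * (((9 / 4) + 3 * n ^ 2) * (1 + 1 / 2 * n + 1 / 6 * n ^ 2) ^ 2 - (1 + 1 / 2 * n + 1 / 6 * n ^ 2 + 3 / 50 * n ^ 3) ^ 2) := by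
  obtain ⟨v, hv, rfl⟩ : ∃ v : ℝ, 0 ≤ v ∧ n = 0 + v := ⟨n - 0, by linarith, by ring⟩
  obtain ⟨w, hw, e⟩ : ∃ w : ℝ, 0 ≤ w ∧ w = (2 / 5) - v := ⟨_, by linarith, rfl⟩
  have key : (0 : ℝ) ≤ (744375 / 1024) * w ^ 7 +
      (4116625 / 1024) * v * w ^ 6 +
      (29222525 / 3072) * v ^ 2 * w ^ 5 +
      (38179475 / 3072) * v ^ 3 * w ^ 4 +
      (88312685 / 9216) * v ^ 4 * w ^ 3 +
      (13083001 / 3072) * v ^ 5 * w ^ 2 +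
      (365502419 / 384000) * v ^ 6 * w +
      (76350007 / 1152000) * v ^ 7 := by positivity
  refine key.trans (le_of_eq ?_)
  rw [e]
  ring

private theorem lc2_k_0_2 {n : ℝ} (h0 : 0 ≤ n) (h1 : n ≤ (2 / 5)) :
    0 ≤ ((9 / 4) + 3 * n ^ 2) * (1 + 1 / 2 * n + 1 / 6 * n ^ 2) ^ 2 - (1 + 1 / 2 * n + 1 / 6 * n ^ 2 + 3 / 50 * n ^ 3) ^ 2 := by
  obtain ⟨v, hv, rfl⟩ : ∃ v : ℝ, 0 ≤ v ∧ n = 0 + v := ⟨n - 0, by linarith, by ring⟩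
  obtain ⟨w, hw, e⟩ : ∃ w : ℝ, 0 ≤ w ∧ w = (2 / 5) - v := ⟨_, by linarith, rfl⟩
  have key : (0 : ℝ) ≤ (78125 / 256) * w ^ 6 +
      (15625 / 8) * v * w ^ 5 +
      (2048125 / 384) * v ^ 2 * w ^ 4 +
      (254565 / 32) * v ^ 3 * w ^ 3 +
      (15731501 / 2304) * v ^ 4 * w ^ 2 +
      (4595923 / 1440) * v ^ 5 * w +
      (56990801 / 90000) * v ^ 6 := by positivity
  refine key.trans (le_of_eq ?_)
  rw [e]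
  ring

theorem lc2_k {n u : ℝ} (h0 : 0 ≤ n) (h1 : n ≤ (2 / 5)) (hu : 0 ≤ u)
    (hC : n ^ 2 * ((1 - 3 / 2 * n + n ^ 2 - 5 / 12 * n ^ 3) + u * (1 + 1 / 2 * n + 1 / 6 * n ^ 2)) ^ 2 ≤ (79 / 200) * u) :
    (1 + u) * (u * (1 + 1 / 2 * n + 1 / 6 * n ^ 2 + 3 / 50 * n ^ 3) ^ 2 + ((281 / 250) * (1 - n + 1 / 2 * n ^ 2))) ≤
      (9 / 4) * ((1 - 3 / 2 * n + n ^ 2 - 5 / 12 * n ^ 3) + u * (1 + 1 / 2 * n + 1 / 6 * n ^ 2)) ^ 2 := by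
  have c0 := lc2_k_0_0 (n := n) (by linarith) (by linarith)
  have c1 := lc2_k_0_1 (n := n) (by linarith) (by linarith)
  have c2 := lc2_k_0_2 (n := n) (by linarith) (by linarith)
  linarith [mul_nonneg (by norm_num : (0 : ℝ) ≤ 3) (sub_nonneg.2 hC), c0, mul_nonneg c1 hu,
    mul_nonneg c2 (sq_nonneg (u - 0))]

end SokalV3
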