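import Mathlib

/-!
# Polynomial certificates for the level lemma on the right side

`n = -y`, `u = ρ²`; `hC` is the constraint `(ρ t)² ≤ κ u (1 + u)`.
-/

set_option autoImplicit false
set_option linter.unusedVariables false

namespace SokalV3

private theorem lr_A_g_0_0 {n : ℝ} (h0 : 0 ≤ n) (h1 : n ≤ (23 / 100)) :
    0 ≤ (6 / 5) * (1 - 3 / 2 * n + n ^ 2 - 5 / 12 * n ^ 3) ^ 2 - ((517 / 500) * (1 - 2 * n + 3 / 2 * n ^ 2 - 1 / 2 * n ^ 3)) + (8 / 5) * (n ^ 2 * (1 - 3 / 2 * n + n ^ 2 - 5 / 12 * n ^ 3) ^ 2) := by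
  obtain ⟨v, hv, rfl⟩ : ∃ v : ℝ, 0 ≤ v ∧ n = 0 + v := ⟨n - 0, by linarith, by ring⟩
  obtain ⟨w, hw, e⟩ : ∃ w : ℝ, 0 ≤ w ∧ w = (23 / 100) - v := ⟨_, by linarith, rfl⟩
  have key : (0 : ℝ) ≤ (1660000000000000 / 78310985281) * w ^ 8 +
      (9756400000000000 / 78310985281) * v * w ^ 7 +
      (24538621000000000 / 78310985281) * v ^ 2 * w ^ 6 +
      (34226531390000000 / 78310985281) * v ^ 3 * w ^ 5 +
      (28593190900000000 / 78310985281) * v ^ 4 * w ^ 4 +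
      (42959871359800000 / 234932955843) * v ^ 5 * w ^ 3 +
      (11990287679718250 / 234932955843) * v ^ 6 * w ^ 2 +
      (490232433285900 / 78310985281) * v ^ 7 * w +
      (82228254563105 / 1409597735058) * v ^ 8 := by positivity
  refine key.trans (le_of_eq ?_)
  rw [e]
  ring

private theorem lr_A_g_0_1 {n : ℝ} (h0 : 0 ≤ n) (h1 : n ≤ (23 / 100)) :
    0 ≤ 2 * (6 / 5) * ((1 - 3 / 2 * n + n ^ 2 - 5 / 12 * n ^ 3) * (1 + 1 / 2 * n + 1 / 6 * n ^ 2)) - ((1 + 2 / 3 * n + 3 / 10 * n ^ 2) + ((517 / 500) * (1 - 2 * n + 3 / 2 * n ^ 2 - 1 / 2 * n ^ 3))) - (8 / 5) * ((141 / 1250) - 2 * n ^ 2 * ((1 - 3 / 2 * n + n ^ 2 - 5 / 12 * n ^ 3) * (1 + 1 / 2 * n + 1 / 6 * n ^ 2))) := by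
  obtain ⟨v, hv, rfl⟩ : ∃ v : ℝ, 0 ≤ v ∧ n = 0 + v := ⟨n - 0, by linarith, by ring⟩
  obtain ⟨w, hw, e⟩ : ∃ w : ℝ, 0 ≤ w ∧ w = (23 / 100) - v := ⟨_, by linarith, rfl⟩
  have key : (0 : ℝ) ≤ (18552000000000 / 3404825447) * w ^ 7 +
      (320684000000000 / 10214476341) * v * w ^ 6 +
      (264202210000000 / 3404825447) * v ^ 2 * w ^ 5 +
      (363159963900000 / 3404825447) * v ^ 3 * w ^ 4 +
      (898608678500000 / 10214476341) * v ^ 4 * w ^ 3 +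
      (147797940699000 / 3404825447) * v ^ 5 * w ^ 2 +
      (120354104058440 / 10214476341) * v ^ 6 * w +
      (40996286633426 / 30643429023) * v ^ 7 := by positivity
  refine key.trans (le_of_eq ?_)
  rw [e]
  ring

private theorem lr_A_g_0_2 {n : ℝ} (h0 : 0 ≤ n) (h1 : n ≤ (23 / 100)) :
    0 ≤ (6 / 5) * (1 + 1 / 2 * n + 1 / 6 * n ^ 2) ^ 2 - (1 + 2 / 3 * n + 3 / 10 * n ^ 2) - (8 / 5) * ((141 / 1250) - n ^ 2 * (1 + 1 / 2 * n + 1 / 6 * n ^ 2) ^ 2) := by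
  obtain ⟨v, hv, rfl⟩ : ∃ v : ℝ, 0 ≤ v ∧ n = 0 + v := ⟨n - 0, by linarith, by ring⟩
  obtain ⟨w, hw, e⟩ : ∃ w : ℝ, 0 ≤ w ∧ w = (23 / 100) - v := ⟨_, by linarith, rfl⟩
  have key : (0 : ℝ) ≤ (19520000000 / 148035889) * w ^ 6 +
      (719360000000 / 444107667) * v * w ^ 5 +
      (3035800000000 / 444107667) * v ^ 2 * w ^ 4 +
      (6186501800000 / 444107667) * v ^ 3 * w ^ 3 +
      (6668020789000 / 444107667) * v ^ 4 * w ^ 2 +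
      (1224937028480 / 148035889) * v ^ 5 * w +
      (12274677518378 / 6661615005) * v ^ 6 := by positivity
  refine key.trans (le_of_eq ?_)
  rw [e]
  ring

private theorem lr_A_g_1_0 {n : ℝ} (h0 : (23 / 100) ≤ n) (h1 : n ≤ (31 / 100)) :
    0 ≤ (6 / 5) * (1 - 3 / 2 * n + n ^ 2 - 5 / 12 * n ^ 3) ^ 2 - ((517 / 500) * (1 - 2 * n + 3 / 2 * n ^ 2 - 1 / 2 * n ^ 3)) + (12 / 5) * (n ^ 2 * (1 - 3 / 2 * n + n ^ 2 - 5 / 12 * n ^ 3) ^ 2) := by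
  obtain ⟨v, hv, rfl⟩ : ∃ v : ℝ, 0 ≤ v ∧ n = (23 / 100) + v := ⟨n - (23 / 100), by linarith, by ring⟩
  obtain ⟨w, hw, e⟩ : ∃ w : ℝ, 0 ≤ w ∧ w = (2 / 25) - v := ⟨_, by linarith, rfl⟩
  have key : (0 : ℝ) ≤ (854466367983535 / 67108864) * w ^ 8 +
      (2465869675067285 / 25165824) * v * w ^ 7 +
      (5604672309001305 / 16777216) * v ^ 2 * w ^ 6 +
      (5524908814261185 / 8388608) * v ^ 3 * w ^ 5 +
      (82588726627627175 / 100663296) * v ^ 4 * w ^ 4 +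
      (5539923459936465 / 8388608) * v ^ 5 * w ^ 3 +
      (5619824535990905 / 16777216) * v ^ 6 * w ^ 2 +
      (2459618653772165 / 25165824) * v ^ 7 * w +
      (841688932077935 / 67108864) * v ^ 8 := by positivity
  refine key.trans (le_of_eq ?_)
  rw [e]
  ring

private theorem lr_A_g_1_1 {n : ℝ} (h0 : (23 / 100) ≤ n) (h1 : n ≤ (31 / 100)) :
    0 ≤ 2 * (6 / 5) * ((1 - 3 / 2 * n + n ^ 2 - 5 / 12 * n ^ 3) * (1 + 1 / 2 * n + 1 / 6 * n ^ 2)) - ((1 + 2 / 3 * n + 3 / 10 * n ^ 2) + ((517 / 500) * (1 - 2 * n + 3 / 2 * n ^ 2 - 1 / 2 * n ^ 3))) - (12 / 5) * ((141 / 1250) - 2 * n ^ 2 * ((1 - 3 / 2 * n + n ^ 2 - 5 / 12 * n ^ 3) * (1 + 1 / 2 * n + 1 / 6 * n ^ 2))) := by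
  obtain ⟨v, hv, rfl⟩ : ∃ v : ℝ, 0 ≤ v ∧ n = (23 / 100) + v := ⟨n - (23 / 100), by linarith, by ring⟩
  obtain ⟨w, hw, e⟩ : ∃ w : ℝ, 0 ≤ w ∧ w = (2 / 25) - v := ⟨_, by linarith, rfl⟩
  have key : (0 : ℝ) ≤ (6649364474213 / 6291456) * w ^ 7 +
      (16735239827289 / 2097152) * v * w ^ 6 +
      (163882990926137 / 6291456) * v ^ 2 * w ^ 5 +
      (99505022308205 / 2097152) * v ^ 3 * w ^ 4 +
      (108874328050085 / 2097152) * v ^ 4 * w ^ 3 +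
      (214157736284161 / 6291456) * v ^ 5 * w ^ 2 +
      (25926846941073 / 2097152) * v ^ 6 * w +
      (12057355586029 / 6291456) * v ^ 7 := by positivity
  refine key.trans (le_of_eq ?_)
  rw [e]
  ring

private theorem lr_A_g_1_2 {n : ℝ} (h0 : (23 / 100) ≤ n) (h1 : n ≤ (31 / 100)) :
    0 ≤ (6 / 5) * (1 + 1 / 2 * n + 1 / 6 * n ^ 2) ^ 2 - (1 + 2 / 3 * n + 3 / 10 * n ^ 2) - (12 / 5) * ((141 / 1250) - n ^ 2 * (1 + 1 / 2 * n + 1 / 6 * n ^ 2) ^ 2) := by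
  obtain ⟨v, hv, rfl⟩ : ∃ v : ℝ, 0 ≤ v ∧ n = (23 / 100) + v := ⟨n - (23 / 100), by linarith, by ring⟩
  obtain ⟨w, hw, e⟩ : ∃ w : ℝ, 0 ≤ w ∧ w = (2 / 25) - v := ⟨_, by linarith, rfl⟩
  have key : (0 : ℝ) ≤ (3539688656689 / 3932160) * w ^ 6 +
      (4001601671433 / 655360) * v * w ^ 5 +
      (4496157287201 / 262144) * v ^ 2 * w ^ 4 +
      (1674982585299 / 65536) * v ^ 3 * w ^ 3 +
      (16768935141427 / 786432) * v ^ 4 * w ^ 2 +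
      (18576014636219 / 1966080) * v ^ 5 * w +
      (6833871009281 / 3932160) * v ^ 6 := by positivity
  refine key.trans (le_of_eq ?_)
  rw [e]
  ring

theorem lr_A_g {n u : ℝ} (h0 : 0 ≤ n) (h1 : n ≤ (31 / 100)) (hu : 0 ≤ u)
    (hC : n ^ 2 * ((1 - 3 / 2 * n + n ^ 2 - 5 / 12 * n ^ 3) + u * (1 + 1 / 2 * n + 1 / 6 * n ^ 2)) ^ 2 ≤ (141 / 1250) * (u * (1 + u))) :
    (1 + u) * (u * (1 + 2 / 3 * n + 3 / 10 * n ^ 2) + ((517 / 500) * (1 - 2 * n + 3 / 2 * n ^ 2 - 1 / 2 * n ^ 3))) ≤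
      (6 / 5) * ((1 - 3 / 2 * n + n ^ 2 - 5 / 12 * n ^ 3) + u * (1 + 1 / 2 * n + 1 / 6 * n ^ 2)) ^ 2 := by
  rcases le_total n (23 / 100) with h | h
  · have c0 := lr_A_g_0_0 (n := n) (by linarith) (by linarith)
    have c1 := lr_A_g_0_1 (n := n) (by linarith) (by linarith)
    have c2 := lr_A_g_0_2 (n := n) (by linarith) (by linarith)
    linarith [mul_nonneg (by norm_num : (0 : ℝ) ≤ (8 / 5)) (sub_nonneg.2 hC), c0, mul_nonneg c1 hu,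
      mul_nonneg c2 (mul_nonneg hu hu)]
  · have c0 := lr_A_g_1_0 (n := n) (by linarith) (by linarith)
    have c1 := lr_A_g_1_1 (n := n) (by linarith) (by linarith)
    have c2 := lr_A_g_1_2 (n := n) (by linarith) (by linarith)
    linarith [mul_nonneg (by norm_num : (0 : ℝ) ≤ (12 / 5)) (sub_nonneg.2 hC), c0, mul_nonneg c1 hu,
      mul_nonneg c2 (mul_nonneg hu hu)]

private theorem lr_A_k_0_0 {n : ℝ} (h0 : 0 ≤ n) (h1 : n ≤ (21 / 100)) :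
    0 ≤ (36 / 25) * (1 - 3 / 2 * n + n ^ 2 - 5 / 12 * n ^ 3) ^ 2 - ((517 / 500) * (1 - n + 1 / 2 * n ^ 2)) + (19 / 5) * (n ^ 2 * (1 - 3 / 2 * n + n ^ 2 - 5 / 12 * n ^ 3) ^ 2) := by
  obtain ⟨v, hv, rfl⟩ : ∃ v : ℝ, 0 ≤ v ∧ n = 0 + v := ⟨n - 0, by linarith, by ring⟩
  obtain ⟨w, hw, e⟩ : ∃ w : ℝ, 0 ≤ w ∧ w = (21 / 100) - v := ⟨_, by linarith, rfl⟩
  have key : (0 : ℝ) ≤ (580000000000000 / 5403265623) * w ^ 8 +
      (3654200000000000 / 5403265623) * v * w ^ 7 +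
      (1418827000000000 / 771895089) * v ^ 2 * w ^ 6 +
      (2158383200000000 / 771895089) * v ^ 3 * w ^ 5 +
      (1988206891000000 / 771895089) * v ^ 4 * w ^ 4 +
      (1113221428100000 / 771895089) * v ^ 5 * w ^ 3 +
      (354603967252000 / 771895089) * v ^ 6 * w ^ 2 +
      (364439021613050 / 5403265623) * v ^ 7 * w +
      (134559603255265 / 86452249968) * v ^ 8 := by positivity
  refine key.trans (le_of_eq ?_)
  rw [e]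
  ring

private theorem lr_A_k_0_1 {n : ℝ} (h0 : 0 ≤ n) (h1 : n ≤ (21 / 100)) :
    0 ≤ 2 * (36 / 25) * ((1 - 3 / 2 * n + n ^ 2 - 5 / 12 * n ^ 3) * (1 + 1 / 2 * n + 1 / 6 * n ^ 2)) - ((1 + 1 / 2 * n + 1 / 6 * n ^ 2 + 3 / 50 * n ^ 3) ^ 2 + ((517 / 500) * (1 - n + 1 / 2 * n ^ 2))) - (19 / 5) * ((141 / 1250) - 2 * n ^ 2 * ((1 - 3 / 2 * n + n ^ 2 - 5 / 12 * n ^ 3) * (1 + 1 / 2 * n + 1 / 6 * n ^ 2))) := by
  obtain ⟨v, hv, rfl⟩ : ∃ v : ℝ, 0 ≤ v ∧ n = 0 + v := ⟨n - 0, by linarith, by ring⟩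
  obtain ⟨w, hw, e⟩ : ∃ w : ℝ, 0 ≤ w ∧ w = (21 / 100) - v := ⟨_, by linarith, rfl⟩
  have key : (0 : ℝ) ≤ (13912000000000 / 600362847) * w ^ 7 +
      (11066000000000 / 85766121) * v * w ^ 6 +
      (26276930000000 / 85766121) * v ^ 2 * w ^ 5 +
      (11528560000000 / 28588707) * v ^ 3 * w ^ 4 +
      (9120274090000 / 28588707) * v ^ 4 * w ^ 3 +
      (13080795525800 / 85766121) * v ^ 5 * w ^ 2 +
      (12575226576638 / 306307575) * v ^ 6 * w +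
      (289606444144123 / 60036284700) * v ^ 7 := by positivity
  refine key.trans (le_of_eq ?_)
  rw [e]
  ring

private theorem lr_A_k_0_2 {n : ℝ} (h0 : 0 ≤ n) (h1 : n ≤ (21 / 100)) :
    0 ≤ (36 / 25) * (1 + 1 / 2 * n + 1 / 6 * n ^ 2) ^ 2 - (1 + 1 / 2 * n + 1 / 6 * n ^ 2 + 3 / 50 * n ^ 3) ^ 2 - (19 / 5) * ((141 / 1250) - n ^ 2 * (1 + 1 / 2 * n + 1 / 6 * n ^ 2) ^ 2) := by
  obtain ⟨v, hv, rfl⟩ : ∃ v : ℝ, 0 ≤ v ∧ n = 0 + v := ⟨n - 0, by linarith, by ring⟩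
  obtain ⟨w, hw, e⟩ : ∃ w : ℝ, 0 ≤ w ∧ w = (21 / 100) - v := ⟨_, by linarith, rfl⟩
  have key : (0 : ℝ) ≤ (11360000000 / 85766121) * w ^ 6 +
      (17840000000 / 9529569) * v * w ^ 5 +
      (270433000000 / 28588707) * v ^ 2 * w ^ 4 +
      (1901555620000 / 85766121) * v ^ 3 * w ^ 3 +
      (252921215200 / 9529569) * v ^ 4 * w ^ 2 +
      (452907168376 / 28588707) * v ^ 5 * w +
      (402369915825643 / 107207651250) * v ^ 6 := by positivity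
  refine key.trans (le_of_eq ?_)
  rw [e]
  ring

private theorem lr_A_k_1_0 {n : ℝ} (h0 : (21 / 100) ≤ n) (h1 : n ≤ (31 / 100)) :
    0 ≤ (36 / 25) * (1 - 3 / 2 * n + n ^ 2 - 5 / 12 * n ^ 3) ^ 2 - ((517 / 500) * (1 - n + 1 / 2 * n ^ 2)) + (29 / 5) * (n ^ 2 * (1 - 3 / 2 * n + n ^ 2 - 5 / 12 * n ^ 3) ^ 2) := by
  obtain ⟨v, hv, rfl⟩ : ∃ v : ℝ, 0 ≤ v ∧ n = (21 / 100) + v := ⟨n - (21 / 100), by linarith, by ring⟩
  obtain ⟨w, hw, e⟩ : ∃ w : ℝ, 0 ≤ w ∧ w = (1 / 10) - v := ⟨_, by linarith, rfl⟩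
  have key : (0 : ℝ) ≤ (1672894919625461 / 320000000) * w ^ 8 +
      (1395322405588471 / 40000000) * v * w ^ 7 +
      (8026000208699067 / 80000000) * v ^ 2 * w ^ 6 +
      (6455818381184537 / 40000000) * v ^ 3 * w ^ 5 +
      (5029444273112707 / 32000000) * v ^ 4 * w ^ 4 +
      (11167784135571731 / 120000000) * v ^ 5 * w ^ 3 +
      (2513604771995147 / 80000000) * v ^ 6 * w ^ 2 +
      (592762638002893 / 120000000) * v ^ 7 * w +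
      (403443951683069 / 2880000000) * v ^ 8 := by positivity
  refine key.trans (le_of_eq ?_)
  rw [e]
  ring

private theorem lr_A_k_1_1 {n : ℝ} (h0 : (21 / 100) ≤ n) (h1 : n ≤ (31 / 100)) :
    0 ≤ 2 * (36 / 25) * ((1 - 3 / 2 * n + n ^ 2 - 5 / 12 * n ^ 3) * (1 + 1 / 2 * n + 1 / 6 * n ^ 2)) - ((1 + 1 / 2 * n + 1 / 6 * n ^ 2 + 3 / 50 * n ^ 3) ^ 2 + ((517 / 500) * (1 - n + 1 / 2 * n ^ 2))) - (29 / 5) * ((141 / 1250) - 2 * n ^ 2 * ((1 - 3 / 2 * n + n ^ 2 - 5 / 12 * n ^ 3) * (1 + 1 / 2 * n + 1 / 6 * n ^ 2))) := by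
  obtain ⟨v, hv, rfl⟩ : ∃ v : ℝ, 0 ≤ v ∧ n = (21 / 100) + v := ⟨n - (21 / 100), by linarith, by ring⟩
  obtain ⟨w, hw, e⟩ : ∃ w : ℝ, 0 ≤ w ∧ w = (1 / 10) - v := ⟨_, by linarith, rfl⟩
  have key : (0 : ℝ) ≤ (35877124660119 / 1000000000) * w ^ 7 +
      (831622995045923 / 1000000000) * v * w ^ 6 +
      (14182571448309617 / 3000000000) * v ^ 2 * w ^ 5 +
      (7393929054981809 / 600000000) * v ^ 3 * w ^ 4 +
      (31313095350719737 / 1800000000) * v ^ 4 * w ^ 3 +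
      (13803163265153849 / 1000000000) * v ^ 5 * w ^ 2 +
      (17434970855376619 / 3000000000) * v ^ 6 * w +
      (3039659456691127 / 3000000000) * v ^ 7 := by positivity
  refine key.trans (le_of_eq ?_)
  rw [e]
  ring

private theorem lr_A_k_1_2 {n : ℝ} (h0 : (21 / 100) ≤ n) (h1 : n ≤ (31 / 100)) :
    0 ≤ (36 / 25) * (1 + 1 / 2 * n + 1 / 6 * n ^ 2) ^ 2 - (1 + 1 / 2 * n + 1 / 6 * n ^ 2 + 3 / 50 * n ^ 3) ^ 2 - (29 / 5) * ((141 / 1250) - n ^ 2 * (1 + 1 / 2 * n + 1 / 6 * n ^ 2) ^ 2) := by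
  obtain ⟨v, hv, rfl⟩ : ∃ v : ℝ, 0 ≤ v ∧ n = (21 / 100) + v := ⟨n - (21 / 100), by linarith, by ring⟩
  obtain ⟨w, hw, e⟩ : ∃ w : ℝ, 0 ≤ w ∧ w = (1 / 10) - v := ⟨_, by linarith, rfl⟩
  have key : (0 : ℝ) ≤ (64196180982817 / 312500000) * w ^ 6 +
      (253184163710511 / 156250000) * v * w ^ 5 +
      (961319579176013 / 187500000) * v ^ 2 * w ^ 4 +
      (394777592908931 / 46875000) * v ^ 3 * w ^ 3 +
      (4289823324985619 / 562500000) * v ^ 4 * w ^ 2 +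
      (5098746261367759 / 1406250000) * v ^ 5 * w +
      (221643060627437 / 312500000) * v ^ 6 := by positivity
  refine key.trans (le_of_eq ?_)
  rw [e]
  ring

theorem lr_A_k {n u : ℝ} (h0 : 0 ≤ n) (h1 : n ≤ (31 / 100)) (hu : 0 ≤ u)
    (hC : n ^ 2 * ((1 - 3 / 2 * n + n ^ 2 - 5 / 12 * n ^ 3) + u * (1 + 1 / 2 * n + 1 / 6 * n ^ 2)) ^ 2 ≤ (141 / 1250) * (u * (1 + u))) :
    (1 + u) * (u * (1 + 1 / 2 * n + 1 / 6 * n ^ 2 + 3 / 50 * n ^ 3) ^ 2 + ((517 / 500) * (1 - n + 1 / 2 * n ^ 2))) ≤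
      (36 / 25) * ((1 - 3 / 2 * n + n ^ 2 - 5 / 12 * n ^ 3) + u * (1 + 1 / 2 * n + 1 / 6 * n ^ 2)) ^ 2 := by
  rcases le_total n (21 / 100) with h | h
  · have c0 := lr_A_k_0_0 (n := n) (by linarith) (by linarith)
    have c1 := lr_A_k_0_1 (n := n) (by linarith) (by linarith)
    have c2 := lr_A_k_0_2 (n := n) (by linarith) (by linarith)
    linarith [mul_nonneg (by norm_num : (0 : ℝ) ≤ (19 / 5)) (sub_nonneg.2 hC), c0, mul_nonneg c1 hu,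
      mul_nonneg c2 (mul_nonneg hu hu)]
  · have c0 := lr_A_k_1_0 (n := n) (by linarith) (by linarith)
    have c1 := lr_A_k_1_1 (n := n) (by linarith) (by linarith)
    have c2 := lr_A_k_1_2 (n := n) (by linarith) (by linarith)
    linarith [mul_nonneg (by norm_num : (0 : ℝ) ≤ (29 / 5)) (sub_nonneg.2 hC), c0, mul_nonneg c1 hu,
      mul_nonneg c2 (mul_nonneg hu hu)]

private theorem lr_B_g_0_0 {n : ℝ} (h0 : 0 ≤ n) (h1 : n ≤ (1 / 5)) :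
    0 ≤ (13 / 10) * (1 - 3 / 2 * n + n ^ 2 - 5 / 12 * n ^ 3) ^ 2 - ((281 / 250) * (1 - 2 * n + 3 / 2 * n ^ 2 - 1 / 2 * n ^ 3)) + (8 / 5) * (n ^ 2 * (1 - 3 / 2 * n + n ^ 2 - 5 / 12 * n ^ 3) ^ 2) := by
  obtain ⟨v, hv, rfl⟩ : ∃ v : ℝ, 0 ≤ v ∧ n = 0 + v := ⟨n - 0, by linarith, by ring⟩
  obtain ⟨w, hw, e⟩ : ∃ w : ℝ, 0 ≤ w ∧ w = (1 / 5) - v := ⟨_, by linarith, rfl⟩
  have key : (0 : ℝ) ≤ 68750 * w ^ 8 +
      (841875 / 2) * v * w ^ 7 +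
      (8852375 / 8) * v ^ 2 * w ^ 6 +
      (19449325 / 12) * v ^ 3 * w ^ 5 +
      (17184875 / 12) * v ^ 4 * w ^ 4 +
      (3070975 / 4) * v ^ 5 * w ^ 3 +
      (67721645 / 288) * v ^ 6 * w ^ 2 +
      (4921385 / 144) * v ^ 7 * w +
      (322705 / 288) * v ^ 8 := by positivity
  refine key.trans (le_of_eq ?_)
  rw [e]
  ring

private theorem lr_B_g_0_1 {n : ℝ} (h0 : 0 ≤ n) (h1 : n ≤ (1 / 5)) :
    0 ≤ 2 * (13 / 10) * ((1 - 3 / 2 * n + n ^ 2 - 5 / 12 * n ^ 3) * (1 + 1 / 2 * n + 1 / 6 * n ^ 2)) - ((1 + 2 / 3 * n + 3 / 10 * n ^ 2) + ((281 / 250) * (1 - 2 * n + 3 / 2 * n ^ 2 - 1 / 2 * n ^ 3))) - (8 / 5) * ((847 / 5000) - 2 * n ^ 2 * ((1 - 3 / 2 * n + n ^ 2 - 5 / 12 * n ^ 3) * (1 + 1 / 2 * n + 1 / 6 * n ^ 2))) := by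
  obtain ⟨v, hv, rfl⟩ : ∃ v : ℝ, 0 ≤ v ∧ n = 0 + v := ⟨n - 0, by linarith, by ring⟩
  obtain ⟨w, hw, e⟩ : ∃ w : ℝ, 0 ≤ w ∧ w = (1 / 5) - v := ⟨_, by linarith, rfl⟩
  have key : (0 : ℝ) ≤ (32025 / 2) * w ^ 7 +
      (577025 / 6) * v * w ^ 6 +
      (743825 / 3) * v ^ 2 * w ^ 5 +
      (1422655 / 4) * v ^ 3 * w ^ 4 +
      (2450965 / 8) * v ^ 4 * w ^ 3 +
      (5696215 / 36) * v ^ 5 * w ^ 2 +
      (3256417 / 72) * v ^ 6 * w +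
      (197633 / 36) * v ^ 7 := by positivity
  refine key.trans (le_of_eq ?_)
  rw [e]
  ring

private theorem lr_B_g_0_2 {n : ℝ} (h0 : 0 ≤ n) (h1 : n ≤ (1 / 5)) :
    0 ≤ (13 / 10) * (1 + 1 / 2 * n + 1 / 6 * n ^ 2) ^ 2 - (1 + 2 / 3 * n + 3 / 10 * n ^ 2) - (8 / 5) * ((847 / 5000) - n ^ 2 * (1 + 1 / 2 * n + 1 / 6 * n ^ 2) ^ 2) := by
  obtain ⟨v, hv, rfl⟩ : ∃ v : ℝ, 0 ≤ v ∧ n = 0 + v := ⟨n - 0, by linarith, by ring⟩
  obtain ⟨w, hw, e⟩ : ∃ w : ℝ, 0 ≤ w ∧ w = (1 / 5) - v := ⟨_, by linarith, rfl⟩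
  have key : (0 : ℝ) ≤ (905 / 2) * w ^ 6 +
      (28165 / 6) * v * w ^ 5 +
      (431275 / 24) * v ^ 2 * w ^ 4 +
      (410575 / 12) * v ^ 3 * w ^ 3 +
      (2520245 / 72) * v ^ 4 * w ^ 2 +
      (332779 / 18) * v ^ 5 * w +
      (178687 / 45) * v ^ 6 := by positivity
  refine key.trans (le_of_eq ?_)
  rw [e]
  ring

private theorem lr_B_g_1_0 {n : ℝ} (h0 : (1 / 5) ≤ n) (h1 : n ≤ (53 / 100)) :
    0 ≤ (13 / 10) * (1 - 3 / 2 * n + n ^ 2 - 5 / 12 * n ^ 3) ^ 2 - ((281 / 250) * (1 - 2 * n + 3 / 2 * n ^ 2 - 1 / 2 * n ^ 3)) + (11 / 5) * (n ^ 2 * (1 - 3 / 2 * n + n ^ 2 - 5 / 12 * n ^ 3) ^ 2) := by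
  obtain ⟨v, hv, rfl⟩ : ∃ v : ℝ, 0 ≤ v ∧ n = (1 / 5) + v := ⟨n - (1 / 5), by linarith, by ring⟩
  obtain ⟨w, hw, e⟩ : ∃ w : ℝ, 0 ≤ w ∧ w = (33 / 100) - v := ⟨_, by linarith, rfl⟩
  have key : (0 : ℝ) ≤ (1430348000000000 / 12657677564169) * w ^ 8 +
      (4518578800000000 / 12657677564169) * v * w ^ 7 +
      (8471819270000000 / 12657677564169) * v ^ 2 * w ^ 6 +
      (22211188102000000 / 12657677564169) * v ^ 3 * w ^ 5 +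
      (47760861753875000 / 12657677564169) * v ^ 4 * w ^ 4 +
      (58670657573507500 / 12657677564169) * v ^ 5 * w ^ 3 +
      (79349558613099625 / 25315355128338) * v ^ 6 * w ^ 2 +
      (13921860130802425 / 12657677564169) * v ^ 7 * w +
      (31828972888165055 / 202522841026704) * v ^ 8 := by positivity
  refine key.trans (le_of_eq ?_)
  rw [e]
  ring

private theorem lr_B_g_1_1 {n : ℝ} (h0 : (1 / 5) ≤ n) (h1 : n ≤ (53 / 100)) :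
    0 ≤ 2 * (13 / 10) * ((1 - 3 / 2 * n + n ^ 2 - 5 / 12 * n ^ 3) * (1 + 1 / 2 * n + 1 / 6 * n ^ 2)) - ((1 + 2 / 3 * n + 3 / 10 * n ^ 2) + ((281 / 250) * (1 - 2 * n + 3 / 2 * n ^ 2 - 1 / 2 * n ^ 3))) - (11 / 5) * ((847 / 5000) - 2 * n ^ 2 * ((1 - 3 / 2 * n + n ^ 2 - 5 / 12 * n ^ 3) * (1 + 1 / 2 * n + 1 / 6 * n ^ 2))) := by
  obtain ⟨v, hv, rfl⟩ : ∃ v : ℝ, 0 ≤ v ∧ n = (1 / 5) + v := ⟨n - (1 / 5), by linarith, by ring⟩
  obtain ⟨w, hw, e⟩ : ∃ w : ℝ, 0 ≤ w ∧ w = (33 / 100) - v := ⟨_, by linarith, rfl⟩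
  have key : (0 : ℝ) ≤ (6985120000000 / 383565986793) * w ^ 7 +
      (23682520000000 / 383565986793) * v * w ^ 6 +
      (39926413600000 / 127855328931) * v ^ 2 * w ^ 5 +
      (381296903000000 / 383565986793) * v ^ 3 * w ^ 4 +
      (563136406340000 / 383565986793) * v ^ 4 * w ^ 3 +
      (128657378195350 / 127855328931) * v ^ 5 * w ^ 2 +
      (101315430769150 / 383565986793) * v ^ 6 * w +
      (589758419653 / 1534263947172) * v ^ 7 := by positivity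
  refine key.trans (le_of_eq ?_)
  rw [e]
  ring

private theorem lr_B_g_1_2 {n : ℝ} (h0 : (1 / 5) ≤ n) (h1 : n ≤ (53 / 100)) :
    0 ≤ (13 / 10) * (1 + 1 / 2 * n + 1 / 6 * n ^ 2) ^ 2 - (1 + 2 / 3 * n + 3 / 10 * n ^ 2) - (11 / 5) * ((847 / 5000) - n ^ 2 * (1 + 1 / 2 * n + 1 / 6 * n ^ 2) ^ 2) := by
  obtain ⟨v, hv, rfl⟩ : ∃ v : ℝ, 0 ≤ v ∧ n = (1 / 5) + v := ⟨n - (1 / 5), by linarith, by ring⟩
  obtain ⟨w, hw, e⟩ : ∃ w : ℝ, 0 ≤ w ∧ w = (33 / 100) - v := ⟨_, by linarith, rfl⟩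
  have key : (0 : ℝ) ≤ (1636971200000 / 11623211721) * w ^ 6 +
      (5285562560000 / 3874403907) * v * w ^ 5 +
      (2188740740000 / 430489323) * v ^ 2 * w ^ 4 +
      (111730177666000 / 11623211721) * v ^ 3 * w ^ 3 +
      (38270239656350 / 3874403907) * v ^ 4 * w ^ 2 +
      (6818754586192 / 1291467969) * v ^ 5 * w +
      (268253535601219 / 232464234420) * v ^ 6 := by positivity
  refine key.trans (le_of_eq ?_)
  rw [e]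
  ring

theorem lr_B_g {n u : ℝ} (h0 : 0 ≤ n) (h1 : n ≤ (53 / 100)) (hu : 0 ≤ u)
    (hC : n ^ 2 * ((1 - 3 / 2 * n + n ^ 2 - 5 / 12 * n ^ 3) + u * (1 + 1 / 2 * n + 1 / 6 * n ^ 2)) ^ 2 ≤ (847 / 5000) * (u * (1 + u))) :
    (1 + u) * (u * (1 + 2 / 3 * n + 3 / 10 * n ^ 2) + ((281 / 250) * (1 - 2 * n + 3 / 2 * n ^ 2 - 1 / 2 * n ^ 3))) ≤
      (13 / 10) * ((1 - 3 / 2 * n + n ^ 2 - 5 / 12 * n ^ 3) + u * (1 + 1 / 2 * n + 1 / 6 * n ^ 2)) ^ 2 := by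
  rcases le_total n (1 / 5) with h | h
  · have c0 := lr_B_g_0_0 (n := n) (by linarith) (by linarith)
    have c1 := lr_B_g_0_1 (n := n) (by linarith) (by linarith)
    have c2 := lr_B_g_0_2 (n := n) (by linarith) (by linarith)
    linarith [mul_nonneg (by norm_num : (0 : ℝ) ≤ (8 / 5)) (sub_nonneg.2 hC), c0, mul_nonneg c1 hu,
      mul_nonneg c2 (mul_nonneg hu hu)]
  · have c0 := lr_B_g_1_0 (n := n) (by linarith) (by linarith)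
    have c1 := lr_B_g_1_1 (n := n) (by linarith) (by linarith)
    have c2 := lr_B_g_1_2 (n := n) (by linarith) (by linarith)
    linarith [mul_nonneg (by norm_num : (0 : ℝ) ≤ (11 / 5)) (sub_nonneg.2 hC), c0, mul_nonneg c1 hu,
      mul_nonneg c2 (mul_nonneg hu hu)]

private theorem lr_B_k_0_0 {n : ℝ} (h0 : 0 ≤ n) (h1 : n ≤ (27 / 100)) :
    0 ≤ (169 / 100) * (1 - 3 / 2 * n + n ^ 2 - 5 / 12 * n ^ 3) ^ 2 - ((281 / 250) * (1 - n + 1 / 2 * n ^ 2)) + 4 * (n ^ 2 * (1 - 3 / 2 * n + n ^ 2 - 5 / 12 * n ^ 3) ^ 2) := by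
  obtain ⟨v, hv, rfl⟩ : ∃ v : ℝ, 0 ≤ v ∧ n = 0 + v := ⟨n - 0, by linarith, by ring⟩
  obtain ⟨w, hw, e⟩ : ∃ w : ℝ, 0 ≤ w ∧ w = (27 / 100) - v := ⟨_, by linarith, rfl⟩
  have key : (0 : ℝ) ≤ (5660000000000000 / 282429536481) * w ^ 8 +
      (34625800000000000 / 282429536481) * v * w ^ 7 +
      (91642944500000000 / 282429536481) * v ^ 2 * w ^ 6 +
      (136038776650000000 / 282429536481) * v ^ 3 * w ^ 5 +
      (122358245890250000 / 282429536481) * v ^ 4 * w ^ 4 +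
      (66720882442975000 / 282429536481) * v ^ 5 * w ^ 3 +
      (81818302135645625 / 1129718145924) * v ^ 6 * w ^ 2 +
      (5478368530993625 / 564859072962) * v ^ 7 * w +
      (18147131865925 / 564859072962) * v ^ 8 := by positivity
  refine key.trans (le_of_eq ?_)
  rw [e]
  ring

private theorem lr_B_k_0_1 {n : ℝ} (h0 : 0 ≤ n) (h1 : n ≤ (27 / 100)) :
    0 ≤ 2 * (169 / 100) * ((1 - 3 / 2 * n + n ^ 2 - 5 / 12 * n ^ 3) * (1 + 1 / 2 * n + 1 / 6 * n ^ 2)) - ((1 + 1 / 2 * n + 1 / 6 * n ^ 2 + 3 / 50 * n ^ 3) ^ 2 + ((281 / 250) * (1 - n + 1 / 2 * n ^ 2))) - 4 * ((847 / 5000) - 2 * n ^ 2 * ((1 - 3 / 2 * n + n ^ 2 - 5 / 12 * n ^ 3) * (1 + 1 / 2 * n + 1 / 6 * n ^ 2))) := by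
  obtain ⟨v, hv, rfl⟩ : ∃ v : ℝ, 0 ≤ v ∧ n = 0 + v := ⟨n - 0, by linarith, by ring⟩
  obtain ⟨w, hw, e⟩ : ∃ w : ℝ, 0 ≤ w ∧ w = (27 / 100) - v := ⟨_, by linarith, rfl⟩
  have key : (0 : ℝ) ≤ (19280000000000 / 3486784401) * w ^ 7 +
      (105656000000000 / 3486784401) * v * w ^ 6 +
      (83045030000000 / 1162261467) * v ^ 2 * w ^ 5 +
      (329828965000000 / 3486784401) * v ^ 3 * w ^ 4 +
      (266834952227500 / 3486784401) * v ^ 4 * w ^ 3 +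
      (44282003492525 / 1162261467) * v ^ 5 * w ^ 2 +
      (944980577752283 / 87169610025) * v ^ 6 * w +
      (117908818939283 / 87169610025) * v ^ 7 := by positivity
  refine key.trans (le_of_eq ?_)
  rw [e]
  ring

private theorem lr_B_k_0_2 {n : ℝ} (h0 : 0 ≤ n) (h1 : n ≤ (27 / 100)) :
    0 ≤ (169 / 100) * (1 + 1 / 2 * n + 1 / 6 * n ^ 2) ^ 2 - (1 + 1 / 2 * n + 1 / 6 * n ^ 2 + 3 / 50 * n ^ 3) ^ 2 - 4 * ((847 / 5000) - n ^ 2 * (1 + 1 / 2 * n + 1 / 6 * n ^ 2) ^ 2) := by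
  obtain ⟨v, hv, rfl⟩ : ∃ v : ℝ, 0 ≤ v ∧ n = 0 + v := ⟨n - 0, by linarith, by ring⟩
  obtain ⟨w, hw, e⟩ : ∃ w : ℝ, 0 ≤ w ∧ w = (27 / 100) - v := ⟨_, by linarith, rfl⟩
  have key : (0 : ℝ) ≤ (12400000000 / 387420489) * w ^ 6 +
      (86900000000 / 129140163) * v * w ^ 5 +
      (479480750000 / 129140163) * v ^ 2 * w ^ 4 +
      (3473402585000 / 387420489) * v ^ 3 * w ^ 3 +
      (1407579179975 / 129140163) * v ^ 4 * w ^ 2 +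
      (850288073612 / 129140163) * v ^ 5 * w +
      (1528571669795599 / 968551222500) * v ^ 6 := by positivity
  refine key.trans (le_of_eq ?_)
  rw [e]
  ring

private theorem lr_B_k_1_0 {n : ℝ} (h0 : (27 / 100) ≤ n) (h1 : n ≤ (39 / 100)) :
    0 ≤ (169 / 100) * (1 - 3 / 2 * n + n ^ 2 - 5 / 12 * n ^ 3) ^ 2 - ((281 / 250) * (1 - n + 1 / 2 * n ^ 2)) + (31 / 5) * (n ^ 2 * (1 - 3 / 2 * n + n ^ 2 - 5 / 12 * n ^ 3) ^ 2) := by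
  obtain ⟨v, hv, rfl⟩ : ∃ v : ℝ, 0 ≤ v ∧ n = (27 / 100) + v := ⟨n - (27 / 100), by linarith, by ring⟩
  obtain ⟨w, hw, e⟩ : ∃ w : ℝ, 0 ≤ w ∧ w = (3 / 25) - v := ⟨_, by linarith, rfl⟩
  have key : (0 : ℝ) ≤ (11312819846565095 / 6879707136) * w ^ 8 +
      (9649545862472015 / 859963392) * v * w ^ 7 +
      (56901522628984385 / 1719926784) * v ^ 2 * w ^ 6 +
      (47041863690886745 / 859963392) * v ^ 3 * w ^ 5 +
      (188921694348750325 / 3439853568) * v ^ 4 * w ^ 4 +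
      (28969526136768905 / 859963392) * v ^ 5 * w ^ 3 +
      (20458492775965985 / 1719926784) * v ^ 6 * w ^ 2 +
      (1732836591779135 / 859963392) * v ^ 7 * w +
      (553915496627495 / 6879707136) * v ^ 8 := by positivity
  refine key.trans (le_of_eq ?_)
  rw [e]
  ring

private theorem lr_B_k_1_1 {n : ℝ} (h0 : (27 / 100) ≤ n) (h1 : n ≤ (39 / 100)) :
    0 ≤ 2 * (169 / 100) * ((1 - 3 / 2 * n + n ^ 2 - 5 / 12 * n ^ 3) * (1 + 1 / 2 * n + 1 / 6 * n ^ 2)) - ((1 + 1 / 2 * n + 1 / 6 * n ^ 2 + 3 / 50 * n ^ 3) ^ 2 + ((281 / 250) * (1 - n + 1 / 2 * n ^ 2))) - (31 / 5) * ((847 / 5000) - 2 * n ^ 2 * ((1 - 3 / 2 * n + n ^ 2 - 5 / 12 * n ^ 3) * (1 + 1 / 2 * n + 1 / 6 * n ^ 2))) := by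
  obtain ⟨v, hv, rfl⟩ : ∃ v : ℝ, 0 ≤ v ∧ n = (27 / 100) + v := ⟨n - (27 / 100), by linarith, by ring⟩
  obtain ⟨w, hw, e⟩ : ∃ w : ℝ, 0 ≤ w ∧ w = (3 / 25) - v := ⟨_, by linarith, rfl⟩
  have key : (0 : ℝ) ≤ (115532252671471 / 3583180800) * w ^ 7 +
      (2014161155442253 / 3583180800) * v * w ^ 6 +
      (3390767674785889 / 1194393600) * v ^ 2 * w ^ 5 +
      (4904074591449349 / 716636160) * v ^ 3 * w ^ 4 +
      (1303975487827685 / 143327232) * v ^ 4 * w ^ 3 +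
      (8203866224407549 / 1194393600) * v ^ 5 * w ^ 2 +
      (9921189498551761 / 3583180800) * v ^ 6 * w +
      (1662276099844579 / 3583180800) * v ^ 7 := by positivity
  refine key.trans (le_of_eq ?_)
  rw [e]
  ring

private theorem lr_B_k_1_2 {n : ℝ} (h0 : (27 / 100) ≤ n) (h1 : n ≤ (39 / 100)) :
    0 ≤ (169 / 100) * (1 + 1 / 2 * n + 1 / 6 * n ^ 2) ^ 2 - (1 + 1 / 2 * n + 1 / 6 * n ^ 2 + 3 / 50 * n ^ 3) ^ 2 - (31 / 5) * ((847 / 5000) - n ^ 2 * (1 + 1 / 2 * n + 1 / 6 * n ^ 2) ^ 2) := by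
  obtain ⟨v, hv, rfl⟩ : ∃ v : ℝ, 0 ≤ v ∧ n = (27 / 100) + v := ⟨n - (27 / 100), by linarith, by ring⟩
  obtain ⟨w, hw, e⟩ : ∃ w : ℝ, 0 ≤ w ∧ w = (3 / 25) - v := ⟨_, by linarith, rfl⟩
  have key : (0 : ℝ) ≤ (562251537130987 / 3732480000) * w ^ 6 +
      (710254214149759 / 622080000) * v * w ^ 5 +
      (874333790145763 / 248832000) * v ^ 2 * w ^ 4 +
      (1055663361099991 / 186624000) * v ^ 3 * w ^ 3 +
      (1255504638664987 / 248832000) * v ^ 4 * w ^ 2 +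
      (1475214619387759 / 622080000) * v ^ 5 * w +
      (1716252883311763 / 3732480000) * v ^ 6 := by positivity
  refine key.trans (le_of_eq ?_)
  rw [e]
  ring

private theorem lr_B_k_2_0 {n : ℝ} (h0 : (39 / 100) ≤ n) (h1 : n ≤ (53 / 100)) :
    0 ≤ (169 / 100) * (1 - 3 / 2 * n + n ^ 2 - 5 / 12 * n ^ 3) ^ 2 - ((281 / 250) * (1 - n + 1 / 2 * n ^ 2)) + (59 / 5) * (n ^ 2 * (1 - 3 / 2 * n + n ^ 2 - 5 / 12 * n ^ 3) ^ 2) := by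
  obtain ⟨v, hv, rfl⟩ : ∃ v : ℝ, 0 ≤ v ∧ n = (39 / 100) + v := ⟨n - (39 / 100), by linarith, by ring⟩
  obtain ⟨w, hw, e⟩ : ∃ w : ℝ, 0 ≤ w ∧ w = (7 / 50) - v := ⟨_, by linarith, rfl⟩
  have key : (0 : ℝ) ≤ (40645254609785555 / 23612624896) * w ^ 8 +
      (40513209898877935 / 2951578112) * v * w ^ 7 +
      (40229554694232395 / 843308032) * v ^ 2 * w ^ 6 +
      (119295020896277645 / 1264962048) * v ^ 3 * w ^ 5 +
      (586448396757147325 / 5059848192) * v ^ 4 * w ^ 4 +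
      (38206185697323135 / 421654016) * v ^ 5 * w ^ 3 +
      (333719247794405155 / 7589772288) * v ^ 6 * w ^ 2 +
      (321365027589730135 / 26564203008) * v ^ 7 * w +
      (306726194342162795 / 212513624064) * v ^ 8 := by positivity
  refine key.trans (le_of_eq ?_)
  rw [e]
  ring

private theorem lr_B_k_2_1 {n : ℝ} (h0 : (39 / 100) ≤ n) (h1 : n ≤ (53 / 100)) :
    0 ≤ 2 * (169 / 100) * ((1 - 3 / 2 * n + n ^ 2 - 5 / 12 * n ^ 3) * (1 + 1 / 2 * n + 1 / 6 * n ^ 2)) - ((1 + 1 / 2 * n + 1 / 6 * n ^ 2 + 3 / 50 * n ^ 3) ^ 2 + ((281 / 250) * (1 - n + 1 / 2 * n ^ 2))) - (59 / 5) * ((847 / 5000) - 2 * n ^ 2 * ((1 - 3 / 2 * n + n ^ 2 - 5 / 12 * n ^ 3) * (1 + 1 / 2 * n + 1 / 6 * n ^ 2))) := by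
  obtain ⟨v, hv, rfl⟩ : ∃ v : ℝ, 0 ≤ v ∧ n = (39 / 100) + v := ⟨n - (39 / 100), by linarith, by ring⟩
  obtain ⟨w, hw, e⟩ : ∃ w : ℝ, 0 ≤ w ∧ w = (7 / 50) - v := ⟨_, by linarith, rfl⟩
  have key : (0 : ℝ) ≤ (3451441068084879 / 10541350400) * w ^ 7 +
      (4631708893350061 / 1505907200) * v * w ^ 6 +
      (17460694851077509 / 1505907200) * v ^ 2 * w ^ 5 +
      (21007904833948079 / 903544320) * v ^ 3 * w ^ 4 +
      (2099335320785789 / 77446656) * v ^ 4 * w ^ 3 +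
      (250802240476983311 / 13553164800) * v ^ 5 * w ^ 2 +
      (93245241228047263 / 13553164800) * v ^ 6 * w +
      (34081898373388543 / 31624051200) * v ^ 7 := by positivity
  refine key.trans (le_of_eq ?_)
  rw [e]
  ring

private theorem lr_B_k_2_2 {n : ℝ} (h0 : (39 / 100) ≤ n) (h1 : n ≤ (53 / 100)) :
    0 ≤ (169 / 100) * (1 + 1 / 2 * n + 1 / 6 * n ^ 2) ^ 2 - (1 + 1 / 2 * n + 1 / 6 * n ^ 2 + 3 / 50 * n ^ 3) ^ 2 - (59 / 5) * ((847 / 5000) - n ^ 2 * (1 + 1 / 2 * n + 1 / 6 * n ^ 2) ^ 2) := by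
  obtain ⟨v, hv, rfl⟩ : ∃ v : ℝ, 0 ≤ v ∧ n = (39 / 100) + v := ⟨n - (39 / 100), by linarith, by ring⟩
  obtain ⟨w, hw, e⟩ : ∃ w : ℝ, 0 ≤ w ∧ w = (7 / 50) - v := ⟨_, by linarith, rfl⟩
  have key : (0 : ℝ) ≤ (2116061747537513 / 9411920000) * w ^ 6 +
      (7875610938055053 / 4705960000) * v * w ^ 5 +
      (9567256966256931 / 1882384000) * v ^ 2 * w ^ 4 +
      (3812135010171879 / 470596000) * v ^ 3 * w ^ 3 +
      (13497429587966699 / 1882384000) * v ^ 4 * w ^ 2 +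
      (47297666350832119 / 14117880000) * v ^ 5 * w +
      (54775873613238713 / 84707280000) * v ^ 6 := by positivity
  refine key.trans (le_of_eq ?_)
  rw [e]
  ring

theorem lr_B_k {n u : ℝ} (h0 : 0 ≤ n) (h1 : n ≤ (53 / 100)) (hu : 0 ≤ u)
    (hC : n ^ 2 * ((1 - 3 / 2 * n + n ^ 2 - 5 / 12 * n ^ 3) + u * (1 + 1 / 2 * n + 1 / 6 * n ^ 2)) ^ 2 ≤ (847 / 5000) * (u * (1 + u))) :
    (1 + u) * (u * (1 + 1 / 2 * n + 1 / 6 * n ^ 2 + 3 / 50 * n ^ 3) ^ 2 + ((281 / 250) * (1 - n + 1 / 2 * n ^ 2))) ≤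
      (169 / 100) * ((1 - 3 / 2 * n + n ^ 2 - 5 / 12 * n ^ 3) + u * (1 + 1 / 2 * n + 1 / 6 * n ^ 2)) ^ 2 := by
  rcases le_total n (27 / 100) with h | h
  · have c0 := lr_B_k_0_0 (n := n) (by linarith) (by linarith)
    have c1 := lr_B_k_0_1 (n := n) (by linarith) (by linarith)
    have c2 := lr_B_k_0_2 (n := n) (by linarith) (by linarith)
    linarith [mul_nonneg (by norm_num : (0 : ℝ) ≤ 4) (sub_nonneg.2 hC), c0, mul_nonneg c1 hu,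
      mul_nonneg c2 (mul_nonneg hu hu)]
  rcases le_total n (39 / 100) with h' | h'
  · have c0 := lr_B_k_1_0 (n := n) (by linarith) (by linarith)
    have c1 := lr_B_k_1_1 (n := n) (by linarith) (by linarith)
    have c2 := lr_B_k_1_2 (n := n) (by linarith) (by linarith)
    linarith [mul_nonneg (by norm_num : (0 : ℝ) ≤ (31 / 5)) (sub_nonneg.2 hC), c0, mul_nonneg c1 hu,
      mul_nonneg c2 (mul_nonneg hu hu)]
  · have c0 := lr_B_k_2_0 (n := n) (by linarith) (by linarith)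
    have c1 := lr_B_k_2_1 (n := n) (by linarith) (by linarith)
    have c2 := lr_B_k_2_2 (n := n) (by linarith) (by linarith)
    linarith [mul_nonneg (by norm_num : (0 : ℝ) ≤ (59 / 5)) (sub_nonneg.2 hC), c0, mul_nonneg c1 hu,
      mul_nonneg c2 (mul_nonneg hu hu)]

private theorem lr_C_g_0_0 {n : ℝ} (h0 : 0 ≤ n) (h1 : n ≤ (53 / 100)) :
    0 ≤ (17 / 10) * (1 - 3 / 2 * n + n ^ 2 - 5 / 12 * n ^ 3) ^ 2 - ((281 / 250) * (1 - 2 * n + 3 / 2 * n ^ 2 - 1 / 2 * n ^ 3)) + 1 * (n ^ 2 * (1 - 3 / 2 * n + n ^ 2 - 5 / 12 * n ^ 3) ^ 2) := by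
  obtain ⟨v, hv, rfl⟩ : ∃ v : ℝ, 0 ≤ v ∧ n = 0 + v := ⟨n - 0, by linarith, by ring⟩
  obtain ⟨w, hw, e⟩ : ∃ w : ℝ, 0 ≤ w ∧ w = (53 / 100) - v := ⟨_, by linarith, rfl⟩
  have key : (0 : ℝ) ≤ (5760000000000000 / 62259690411361) * w ^ 8 +
      (30964400000000000 / 62259690411361) * v * w ^ 7 +
      (73838851000000000 / 62259690411361) * v ^ 2 * w ^ 6 +
      (306027800720000000 / 186779071234083) * v ^ 3 * w ^ 5 +
      (268167398822500000 / 186779071234083) * v ^ 4 * w ^ 4 +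
      (152554069075250000 / 186779071234083) * v ^ 5 * w ^ 3 +
      (328782406886723125 / 1120674427404498) * v ^ 6 * w ^ 2 +
      (33767280924595375 / 560337213702249) * v ^ 7 * w +
      (5345266072447225 / 996155046581776) * v ^ 8 := by positivity
  refine key.trans (le_of_eq ?_)
  rw [e]
  ring

private theorem lr_C_g_0_1 {n : ℝ} (h0 : 0 ≤ n) (h1 : n ≤ (53 / 100)) :
    0 ≤ 2 * (17 / 10) * ((1 - 3 / 2 * n + n ^ 2 - 5 / 12 * n ^ 3) * (1 + 1 / 2 * n + 1 / 6 * n ^ 2)) - ((1 + 2 / 3 * n + 3 / 10 * n ^ 2) + ((281 / 250) * (1 - 2 * n + 3 / 2 * n ^ 2 - 1 / 2 * n ^ 3))) - 1 * ((99 / 250) - 2 * n ^ 2 * ((1 - 3 / 2 * n + n ^ 2 - 5 / 12 * n ^ 3) * (1 + 1 / 2 * n + 1 / 6 * n ^ 2))) := by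
  obtain ⟨v, hv, rfl⟩ : ∃ v : ℝ, 0 ≤ v ∧ n = 0 + v := ⟨n - 0, by linarith, by ring⟩
  obtain ⟨w, hw, e⟩ : ∃ w : ℝ, 0 ≤ w ∧ w = (53 / 100) - v := ⟨_, by linarith, rfl⟩
  have key : (0 : ℝ) ≤ (88000000000000 / 1174711139837) * w ^ 7 +
      (1558832000000000 / 3524133419511) * v * w ^ 6 +
      (3929554280000000 / 3524133419511) * v ^ 2 * w ^ 5 +
      (1805252257400000 / 1174711139837) * v ^ 3 * w ^ 4 +
      (4320497036875000 / 3524133419511) * v ^ 4 * w ^ 3 +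
      (5750607313258750 / 10572400258533) * v ^ 5 * w ^ 2 +
      (1175822033957825 / 10572400258533) * v ^ 6 * w +
      (56178621065705 / 14096533678044) * v ^ 7 := by positivity
  refine key.trans (le_of_eq ?_)
  rw [e]
  ring

private theorem lr_C_g_0_2 {n : ℝ} (h0 : 0 ≤ n) (h1 : n ≤ (53 / 100)) :
    0 ≤ (17 / 10) * (1 + 1 / 2 * n + 1 / 6 * n ^ 2) ^ 2 - (1 + 2 / 3 * n + 3 / 10 * n ^ 2) - 1 * ((99 / 250) - n ^ 2 * (1 + 1 / 2 * n + 1 / 6 * n ^ 2) ^ 2) := by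
  obtain ⟨v, hv, rfl⟩ : ∃ v : ℝ, 0 ≤ v ∧ n = 0 + v := ⟨n - 0, by linarith, by ring⟩
  obtain ⟨w, hw, e⟩ : ∃ w : ℝ, 0 ≤ w ∧ w = (53 / 100) - v := ⟨_, by linarith, rfl⟩
  have key : (0 : ℝ) ≤ (304000000000 / 22164361129) * w ^ 6 +
      (7115000000000 / 66493083387) * v * w ^ 5 +
      (7773522500000 / 22164361129) * v ^ 2 * w ^ 4 +
      (13648482150000 / 22164361129) * v ^ 3 * w ^ 3 +
      (121596587846750 / 199479250161) * v ^ 4 * w ^ 2 +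
      (64284696967450 / 199479250161) * v ^ 5 * w +
      (18903049414643 / 265972333548) * v ^ 6 := by positivity
  refine key.trans (le_of_eq ?_)
  rw [e]
  ring

theorem lr_C_g {n u : ℝ} (h0 : 0 ≤ n) (h1 : n ≤ (53 / 100)) (hu : 0 ≤ u)
    (hC : n ^ 2 * ((1 - 3 / 2 * n + n ^ 2 - 5 / 12 * n ^ 3) + u * (1 + 1 / 2 * n + 1 / 6 * n ^ 2)) ^ 2 ≤ (99 / 250) * (u * (1 + u))) :
    (1 + u) * (u * (1 + 2 / 3 * n + 3 / 10 * n ^ 2) + ((281 / 250) * (1 - 2 * n + 3 / 2 * n ^ 2 - 1 / 2 * n ^ 3))) ≤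
      (17 / 10) * ((1 - 3 / 2 * n + n ^ 2 - 5 / 12 * n ^ 3) + u * (1 + 1 / 2 * n + 1 / 6 * n ^ 2)) ^ 2 := by
  have c0 := lr_C_g_0_0 (n := n) (by linarith) (by linarith)
  have c1 := lr_C_g_0_1 (n := n) (by linarith) (by linarith)
  have c2 := lr_C_g_0_2 (n := n) (by linarith) (by linarith)
  linarith [mul_nonneg (by norm_num : (0 : ℝ) ≤ 1) (sub_nonneg.2 hC), c0, mul_nonneg c1 hu,
    mul_nonneg c2 (mul_nonneg hu hu)]

private theorem lr_C_k_0_0 {n : ℝ} (h0 : 0 ≤ n) (h1 : n ≤ (53 / 100)) :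
    0 ≤ (289 / 100) * (1 - 3 / 2 * n + n ^ 2 - 5 / 12 * n ^ 3) ^ 2 - ((281 / 250) * (1 - n + 1 / 2 * n ^ 2)) + (23 / 5) * (n ^ 2 * (1 - 3 / 2 * n + n ^ 2 - 5 / 12 * n ^ 3) ^ 2) := by
  obtain ⟨v, hv, rfl⟩ : ∃ v : ℝ, 0 ≤ v ∧ n = 0 + v := ⟨n - 0, by linarith, by ring⟩
  obtain ⟨w, hw, e⟩ : ∃ w : ℝ, 0 ≤ w ∧ w = (53 / 100) - v := ⟨_, by linarith, rfl⟩
  have key : (0 : ℝ) ≤ (17660000000000000 / 62259690411361) * w ^ 8 +
      (101286200000000000 / 62259690411361) * v * w ^ 7 +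
      (260367684500000000 / 62259690411361) * v ^ 2 * w ^ 6 +
      (1161353372050000000 / 186779071234083) * v ^ 3 * w ^ 5 +
      (1078342084625750000 / 186779071234083) * v ^ 4 * w ^ 4 +
      (209526894662125000 / 62259690411361) * v ^ 5 * w ^ 3 +
      (2609804593751079625 / 2241348854808996) * v ^ 6 * w ^ 2 +
      (227544370649454325 / 1120674427404498) * v ^ 7 * w +
      (93937314298622615 / 8965395419235984) * v ^ 8 := by positivity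
  refine key.trans (le_of_eq ?_)
  rw [e]
  ring

private theorem lr_C_k_0_1 {n : ℝ} (h0 : 0 ≤ n) (h1 : n ≤ (53 / 100)) :
    0 ≤ 2 * (289 / 100) * ((1 - 3 / 2 * n + n ^ 2 - 5 / 12 * n ^ 3) * (1 + 1 / 2 * n + 1 / 6 * n ^ 2)) - ((1 + 1 / 2 * n + 1 / 6 * n ^ 2 + 3 / 50 * n ^ 3) ^ 2 + ((281 / 250) * (1 - n + 1 / 2 * n ^ 2))) - (23 / 5) * ((99 / 250) - 2 * n ^ 2 * ((1 - 3 / 2 * n + n ^ 2 - 5 / 12 * n ^ 3) * (1 + 1 / 2 * n + 1 / 6 * n ^ 2))) := by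
  obtain ⟨v, hv, rfl⟩ : ∃ v : ℝ, 0 ≤ v ∧ n = 0 + v := ⟨n - 0, by linarith, by ring⟩
  obtain ⟨w, hw, e⟩ : ∃ w : ℝ, 0 ≤ w ∧ w = (53 / 100) - v := ⟨_, by linarith, rfl⟩
  have key : (0 : ℝ) ≤ (183440000000000 / 1174711139837) * w ^ 7 +
      (984312000000000 / 1174711139837) * v * w ^ 6 +
      (2347537670000000 / 1174711139837) * v ^ 2 * w ^ 5 +
      (3237831885000000 / 1174711139837) * v ^ 3 * w ^ 4 +
      (24925003056942500 / 10572400258533) * v ^ 4 * w ^ 3 +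
      (12924946638721475 / 10572400258533) * v ^ 5 * w ^ 2 +
      (89651157487397176 / 264310006463325) * v ^ 6 * w +
      (3987246596253881 / 117471113983700) * v ^ 7 := by positivity
  refine key.trans (le_of_eq ?_)
  rw [e]
  ring

private theorem lr_C_k_0_2 {n : ℝ} (h0 : 0 ≤ n) (h1 : n ≤ (53 / 100)) :
    0 ≤ (289 / 100) * (1 + 1 / 2 * n + 1 / 6 * n ^ 2) ^ 2 - (1 + 1 / 2 * n + 1 / 6 * n ^ 2 + 3 / 50 * n ^ 3) ^ 2 - (23 / 5) * ((99 / 250) - n ^ 2 * (1 + 1 / 2 * n + 1 / 6 * n ^ 2) ^ 2) := by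
  obtain ⟨v, hv, rfl⟩ : ∃ v : ℝ, 0 ≤ v ∧ n = 0 + v := ⟨n - 0, by linarith, by ring⟩
  obtain ⟨w, hw, e⟩ : ∃ w : ℝ, 0 ≤ w ∧ w = (53 / 100) - v := ⟨_, by linarith, rfl⟩
  have key : (0 : ℝ) ≤ (68400000000 / 22164361129) * w ^ 6 +
      (1412100000000 / 22164361129) * v * w ^ 5 +
      (7636332250000 / 22164361129) * v ^ 2 * w ^ 4 +
      (18506194215000 / 22164361129) * v ^ 3 * w ^ 3 +
      (69020175797275 / 66493083387) * v ^ 4 * w ^ 2 +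
      (14421322149994 / 22164361129) * v ^ 5 * w +
      (40847750666398463 / 249349062701250) * v ^ 6 := by positivity
  refine key.trans (le_of_eq ?_)
  rw [e]
  ring

theorem lr_C_k {n u : ℝ} (h0 : 0 ≤ n) (h1 : n ≤ (53 / 100)) (hu : 0 ≤ u)
    (hC : n ^ 2 * ((1 - 3 / 2 * n + n ^ 2 - 5 / 12 * n ^ 3) + u * (1 + 1 / 2 * n + 1 / 6 * n ^ 2)) ^ 2 ≤ (99 / 250) * (u * (1 + u))) :
    (1 + u) * (u * (1 + 1 / 2 * n + 1 / 6 * n ^ 2 + 3 / 50 * n ^ 3) ^ 2 + ((281 / 250) * (1 - n + 1 / 2 * n ^ 2))) ≤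
      (289 / 100) * ((1 - 3 / 2 * n + n ^ 2 - 5 / 12 * n ^ 3) + u * (1 + 1 / 2 * n + 1 / 6 * n ^ 2)) ^ 2 := by
  have c0 := lr_C_k_0_0 (n := n) (by linarith) (by linarith)
  have c1 := lr_C_k_0_1 (n := n) (by linarith) (by linarith)
  have c2 := lr_C_k_0_2 (n := n) (by linarith) (by linarith)
  linarith [mul_nonneg (by norm_num : (0 : ℝ) ≤ (23 / 5)) (sub_nonneg.2 hC), c0, mul_nonneg c1 hu,
    mul_nonneg c2 (mul_nonneg hu hu)]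

end SokalV3
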