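import Pool.Agent.Lib_MP_af4de1_v3.Lev
import Pool.Agent.Lib_MP_af4de1_v3.LevRC
import Pool.Agent.Lib_MP_af4de1_v3.SadBase
import Pool.Agent.Lib_MP_af4de1_f1.GTay

/-!
# The level lemma on the right side: fields `l0` and `l1`

`n = -y`, `u = ρ²`, `t = -η`: `ρ t ≥ n (a + u b)` (`SadBase.sE_le_neg`), `K - x ≤ μ n²/(2 K)`, `K = |K| = ρ e^n`,
and the polynomial certificates of `LevRC.lean`.
-/

set_option autoImplicit false

namespace SokalV3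

open Complex SokalU SokalF1 SokalF1S SokalF1M

/-- `ρ t ≥ n (a + u b)`. -/
theorem lr_rt {ρ n : ℝ} (h : Dom ρ (-n)) (h0 : 0 ≤ n) (h1 : n ≤ 53 / 100) :
    n * ((1 - 3 / 2 * n + n ^ 2 - 5 / 12 * n ^ 3) + ρ ^ 2 * (1 + 1 / 2 * n + 1 / 6 * n ^ 2)) ≤
      ρ * -sE ρ (-n) := by
  have hρ : 0 < ρ := h.1
  have h2 := sE_le_neg h h0 (by linarith)
  have h3 : 1 + n + n ^ 2 / 2 + n ^ 3 / 6 ≤ Real.exp n := SokalF1G.e_ge3 h0
  have h4 : 1 - n + n ^ 2 / 2 - n ^ 3 / 6 ≤ Real.exp (-n) := SokalF1G.en_ge3 h0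
  have h5 := mul_le_mul_of_nonneg_left h2 hρ.le
  have e5 : ρ * (ρ * (Real.exp n - 1) + (n - n ^ 2 / 2) * Real.exp (-n) / ρ) =
      ρ ^ 2 * (Real.exp n - 1) + (n - n ^ 2 / 2) * Real.exp (-n) := by field_simp
  rw [e5] at h5
  refine le_trans ?_ h5
  have h6 : 0 ≤ n - n ^ 2 / 2 := by nlinarith only [h0, h1]
  have h7 := mul_le_mul_of_nonneg_left h4 h6
  have h8 := mul_le_mul_of_nonneg_left h3 (sq_nonneg ρ)
  have h9 : 0 ≤ n ^ 5 := by positivity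
  linarith only [h7, h8, h9]

/-- `2 K (K - x) ≤ μ n²`, `K = ρ e^n`. -/
theorem lr_x {ρ n μ θ : ℝ} (h : Dom ρ (-n)) (h0 : 0 ≤ n) (hT : n ≤ θ * sx ρ (-n))
    (hμ0 : 0 ≤ μ) (hμ : (2 - μ) ^ 2 * (1 + θ ^ 2) ≤ μ ^ 2) :
    2 * (ρ * Real.exp n) * (ρ * Real.exp n - sx ρ (-n)) ≤ μ * n ^ 2 := by
  have hρ : 0 < ρ := h.1
  have h1 := sx_sq_add h
  have h2 := sx_nonneg ρ (-n)
  have h3 := sx_le h
  rw [neg_neg] at h1 h3
  set x := sx ρ (-n) with hx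
  set K := ρ * Real.exp n with hK
  have hK0 : 0 < K := by positivity
  have h4 : (-n) ^ 2 = n ^ 2 := by ring
  rw [h4] at h1
  have h5 : n ^ 2 ≤ θ ^ 2 * x ^ 2 := by
    have := mul_self_le_mul_self h0 hT
    linarith only [this]
  have h6 : (2 - μ) * K ≤ μ * x := by
    have h7 : ((2 - μ) * K) ^ 2 ≤ (μ * x) ^ 2 := by
      have e1 : ((2 - μ) * K) ^ 2 = (2 - μ) ^ 2 * K ^ 2 := by ring
      rw [e1, ← h1]
      have h8 := mul_le_mul_of_nonneg_right hμ (sq_nonneg x)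
      have h9 := mul_le_mul_of_nonneg_left h5 (sq_nonneg (2 - μ))
      linarith only [h8, h9]
    exact le_of_abs_le (abs_le_of_sq_le_sq h7 (by positivity))
  have h7 : 0 ≤ K - x := by linarith
  have h8 := mul_le_mul_of_nonneg_right (show 2 * K ≤ μ * (K + x) by linarith) h7
  nlinarith only [h2, h1, hK0, h6]

/-- field `l0` -/
theorem lr_l0 {ρ n μ g : ℝ} (h : Dom ρ (-n)) (h0 : 0 ≤ n) (h1 : n ≤ 53 / 100) (hμ : 0 ≤ μ)
    (hg : 0 ≤ g)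
    (hx : 2 * (ρ * Real.exp n) * (ρ * Real.exp n - sx ρ (-n)) ≤ μ * n ^ 2)
    (hc : (1 + ρ ^ 2) * (ρ ^ 2 * (1 + 2 / 3 * n + 3 / 10 * n ^ 2) +
      (μ * (1 - 2 * n + 3 / 2 * n ^ 2 - 1 / 2 * n ^ 3))) ≤
      g * ((1 - 3 / 2 * n + n ^ 2 - 5 / 12 * n ^ 3) + ρ ^ 2 * (1 + 1 / 2 * n + 1 / 6 * n ^ 2)) ^ 2) :
    ρ - (1 - n) * sx ρ (-n) ≤ g / 2 * (ρ * sE ρ (-n) ^ 2 / (1 + ρ ^ 2)) := by
  have hρ : 0 < ρ := h.1
  have hR : 0 < 1 + ρ ^ 2 := by positivity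
  have ht := lr_rt h h0 h1
  have hp0 : 0 ≤ 1 - 3 / 2 * n + n ^ 2 - 5 / 12 * n ^ 3 := by nlinarith only [h1]
  set x := sx ρ (-n) with hxx
  set p := (1 - 3 / 2 * n + n ^ 2 - 5 / 12 * n ^ 3) + ρ ^ 2 * (1 + 1 / 2 * n + 1 / 6 * n ^ 2) with hp
  set s := sE ρ (-n) with hs
  have hpp : 0 ≤ p := by positivity
  have ht2 : (n * p) ^ 2 ≤ (ρ * s) ^ 2 := by
    have h2 : 0 ≤ n * p := by positivity
    have := mul_self_le_mul_self h2 ht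
    linarith only [this]
  have hE := Real.exp_pos n
  have hE' := Real.exp_pos (-n)
  have e1 := exp_mul_neg n
  -- 2 ρ (ρ e^n - x) ≤ μ n² e^{-n}
  have h3 : 2 * ρ * (ρ * Real.exp n - x) ≤ μ * n ^ 2 * Real.exp (-n) := by
    have h4 := mul_le_mul_of_nonneg_right hx hE'.le
    have e2 : 2 * (ρ * Real.exp n) * (ρ * Real.exp n - x) * Real.exp (-n) =
        2 * ρ * (ρ * Real.exp n - x) * (Real.exp n * Real.exp (-n)) := by ring
    rw [e2, e1, mul_one] at h4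
    exact h4
  have h5 : 1 + n + n ^ 2 / 2 + n ^ 3 / 6 + n ^ 4 / 24 ≤ Real.exp n := by
    have h := Real.sum_le_exp_of_nonneg h0 5
    simp only [Finset.sum_range_succ, Finset.sum_range_zero, Nat.factorial] at h
    norm_num at h
    linarith
  have h6 : 1 - (1 - n) * Real.exp n ≤ n ^ 2 / 2 * (1 + 2 / 3 * n + 3 / 10 * n ^ 2) := by
    have h7 := mul_le_mul_of_nonneg_left h5 (show 0 ≤ 1 - n by linarith)
    have h8 : 0 ≤ n ^ 4 * (3 / 5 - n) := mul_nonneg (by positivity) (by linarith)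
    linarith only [h7, h8]
  have h7 : (1 - n) * Real.exp (-n) ≤ 1 - 2 * n + 3 / 2 * n ^ 2 - 1 / 2 * n ^ 3 := by
    have h8 := mul_le_mul_of_nonneg_left (SokalF1G.en_le2 h0) (show 0 ≤ 1 - n by linarith)
    linarith only [h8]
  have h8 : 2 * ρ * (ρ - (1 - n) * x) ≤ n ^ 2 * (ρ ^ 2 * (1 + 2 / 3 * n + 3 / 10 * n ^ 2) +
      (μ * (1 - 2 * n + 3 / 2 * n ^ 2 - 1 / 2 * n ^ 3))) := by
    have h9 := mul_le_mul_of_nonneg_left h3 (show 0 ≤ 1 - n by linarith)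
    have h10 := mul_le_mul_of_nonneg_left h6 (show 0 ≤ 2 * ρ ^ 2 by positivity)
    have h11 := mul_le_mul_of_nonneg_left h7 (show 0 ≤ μ * n ^ 2 by positivity)
    linarith only [h9, h10, h11]
  have h9 := mul_le_mul_of_nonneg_left hc (sq_nonneg n)
  have h10 := mul_le_mul_of_nonneg_left ht2 hg
  have h11 := mul_le_mul_of_nonneg_left h8 hR.le
  have h12 : (2 * ρ * (1 + ρ ^ 2)) * (ρ - (1 - n) * x) ≤
      (2 * ρ * (1 + ρ ^ 2)) * (g / 2 * (ρ * s ^ 2 / (1 + ρ ^ 2))) := by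
    have e3 : (2 * ρ * (1 + ρ ^ 2)) * (g / 2 * (ρ * s ^ 2 / (1 + ρ ^ 2))) = g * (ρ * s) ^ 2 := by
      field_simp
    rw [e3]
    nlinarith only [h8, h9, h10]
  exact le_of_mul_le_mul_left h12 (by positivity)

/-- field `l1` -/
theorem lr_l1 {ρ n μ k : ℝ} (h : Dom ρ (-n)) (h0 : 0 ≤ n) (h1 : n ≤ 53 / 100) (hμ : 0 ≤ μ)
    (hx : 2 * (ρ * Real.exp n) * (ρ * Real.exp n - sx ρ (-n)) ≤ μ * n ^ 2)
    (hc : (1 + ρ ^ 2) * (ρ ^ 2 * (1 + 1 / 2 * n + 1 / 6 * n ^ 2 + 3 / 50 * n ^ 3) ^ 2 +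
      (μ * (1 - n + 1 / 2 * n ^ 2))) ≤
      k ^ 2 * ((1 - 3 / 2 * n + n ^ 2 - 5 / 12 * n ^ 3) + ρ ^ 2 * (1 + 1 / 2 * n + 1 / 6 * n ^ 2)) ^ 2) :
    (1 + ρ ^ 2) * ((sx ρ (-n) - ρ) ^ 2 + n ^ 2) ≤ k ^ 2 * (ρ * sE ρ (-n)) ^ 2 := by
  have hρ : 0 < ρ := h.1
  have hR : 0 < 1 + ρ ^ 2 := by positivity
  have ht := lr_rt h h0 h1
  have hp0 : 0 ≤ 1 - 3 / 2 * n + n ^ 2 - 5 / 12 * n ^ 3 := by nlinarith only [h1]
  have hK := sx_sq_add h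
  rw [neg_neg, neg_sq] at hK
  set x := sx ρ (-n) with hxx
  set p := (1 - 3 / 2 * n + n ^ 2 - 5 / 12 * n ^ 3) + ρ ^ 2 * (1 + 1 / 2 * n + 1 / 6 * n ^ 2) with hp
  set s := sE ρ (-n) with hs
  have hpp : 0 ≤ p := by positivity
  have ht2 : (n * p) ^ 2 ≤ (ρ * s) ^ 2 := by
    have h2 : 0 ≤ n * p := by positivity
    have := mul_self_le_mul_self h2 ht
    linarith only [this]
  have hE := Real.exp_pos n
  have hE' := Real.exp_pos (-n)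
  have e1 := exp_mul_neg n
  have h3 : 2 * ρ * (ρ * Real.exp n - x) ≤ μ * n ^ 2 * Real.exp (-n) := by
    have h4 := mul_le_mul_of_nonneg_right hx hE'.le
    have e2 : 2 * (ρ * Real.exp n) * (ρ * Real.exp n - x) * Real.exp (-n) =
        2 * ρ * (ρ * Real.exp n - x) * (Real.exp n * Real.exp (-n)) := by ring
    rw [e2, e1, mul_one] at h4
    exact h4
  -- e^n - 1 ≤ n b'
  have h5 : Real.exp n - 1 ≤ n * (1 + 1 / 2 * n + 1 / 6 * n ^ 2 + 3 / 50 * n ^ 3) := by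
    have h6 := Real.exp_bound' h0 (show n ≤ 1 by linarith) (n := 5) (by norm_num)
    simp only [Finset.sum_range_succ, Finset.sum_range_zero, Nat.factorial] at h6
    norm_num at h6
    have h7 : 0 ≤ n ^ 4 * (1 - n) := mul_nonneg (by positivity) (by linarith)
    nlinarith only [h6, h7]
  have h5' : 0 ≤ Real.exp n - 1 := by
    have := Real.add_one_le_exp n
    linarith
  have h6 : (Real.exp n - 1) ^ 2 ≤ n ^ 2 * (1 + 1 / 2 * n + 1 / 6 * n ^ 2 + 3 / 50 * n ^ 3) ^ 2 := by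
    have := mul_self_le_mul_self h5' h5
    linarith only [this]
  have h7 := mul_le_mul_of_nonneg_left (SokalF1G.en_le2 h0) (show 0 ≤ μ * n ^ 2 by positivity)
  have h8 : (x - ρ) ^ 2 + n ^ 2 ≤ n ^ 2 * (ρ ^ 2 * (1 + 1 / 2 * n + 1 / 6 * n ^ 2 + 3 / 50 * n ^ 3) ^ 2 +
      (μ * (1 - n + 1 / 2 * n ^ 2))) := by
    have h9 := mul_le_mul_of_nonneg_left h6 (sq_nonneg ρ)
    nlinarith only [hK, h3, h6, h7]
  have h9 := mul_le_mul_of_nonneg_left hc (sq_nonneg n)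
  have h10 := mul_le_mul_of_nonneg_left ht2 (sq_nonneg k)
  have h11 := mul_le_mul_of_nonneg_left h8 hR.le
  linarith only [h9, h10, h11]

end SokalV3
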