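import Pool.Agent.Lib_MP_af4de1_v3.P2OutC

/-!
# `P2.outL`: `coreL` with fixed constants
-/

set_option autoImplicit false

namespace SokalP2O

open Real Set SokalF1G MeasureTheory SokalPG

theorem ol_e17 : exp (17 / 10) ≤ 11 / 2 := by
  have h1 : exp (17 / 10) ^ 10 = exp 1 ^ 17 := by
    rw [← exp_nat_mul, ← exp_nat_mul]
    norm_num
  have h2 : exp 1 ^ 17 ≤ (27182818286 / 10000000000 : ℝ) ^ 17 :=
    pow_le_pow_left₀ (exp_pos _).le (by linarith [Real.exp_one_lt_d9]) 17
  have h3 : (27182818286 / 10000000000 : ℝ) ^ 17 ≤ (11 / 2) ^ 10 := by norm_num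
  have h4 : exp (17 / 10) ^ 10 ≤ (11 / 2 : ℝ) ^ 10 := by rw [h1]; exact h2.trans h3
  exact le_of_pow_le_pow_left₀ (by norm_num) (by norm_num) h4

theorem ol_e61 : exp (61 / 100) ≤ 18405 / 10000 := by
  have h := Real.exp_bound' (x := 61 / 100) (by norm_num) (by norm_num) (n := 7) (by norm_num)
  norm_num [Finset.sum_range_succ, Nat.factorial] at h
  linarith

theorem ol_e35 : exp (-(2 * (7 / 20) * 25) : ℝ) ≤ 1 / 38000000 := by
  have h1 : exp (2 * (7 / 20) * 25 : ℝ) ^ 2 = exp 1 ^ 35 := by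
    rw [← exp_nat_mul, ← exp_nat_mul]
    norm_num
  have h2 : (2718281828 / 1000000000 : ℝ) ^ 35 ≤ exp 1 ^ 35 :=
    pow_le_pow_left₀ (by norm_num) (by linarith [Real.exp_one_gt_d9]) 35
  have h3 : (38000000 : ℝ) ^ 2 ≤ (2718281828 / 1000000000 : ℝ) ^ 35 := by norm_num
  have h4 : (38000000 : ℝ) ^ 2 ≤ exp (2 * (7 / 20) * 25 : ℝ) ^ 2 := by
    rw [h1]; exact h3.trans h2
  have h5 : (38000000 : ℝ) ≤ exp (2 * (7 / 20) * 25 : ℝ) :=
    le_of_pow_le_pow_left₀ (by norm_num) (exp_pos _).le h4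
  rw [exp_neg, one_div]
  exact inv_anti₀ (by norm_num) h5

/-- `x ≥ .9284 W` -/
theorem GeL.Wx2 {x y ρ η ψ W D : ℝ} (G : GeL x y ρ η ψ W D) : W ≤ 10771 / 10000 * x := by
  have h1 := G.W2
  have h2 := G.yx
  have h3 := G.y0
  have h4 := G.x0
  refine abs_le_of_sq_le_sq' ?_ (by linarith) |>.2
  nlinarith

/-- `x ≥ .5044 ρ` -/
theorem GeL.xrho {x y ρ η ψ W D : ℝ} (G : GeL x y ρ η ψ W D) : ρ ≤ 19825 / 10000 * x := by
  have h1 := G.Wx2
  have h2 : exp y ≤ 18405 / 10000 := (exp_le_exp.2 G.y1).trans ol_e61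
  have h3 := G.rho
  have h4 : W * exp y ≤ 10771 / 10000 * x * (18405 / 10000) :=
    mul_le_mul h1 h2 (exp_pos _).le (by linarith [G.x0])
  have := G.x0
  rw [h3]
  linarith

/-- `coreL` with `s1 = 19/4`, `c = lam y`, `b = tau y`, `k0 = 25`, `m = 11/1000`, `X4 = -8` -/
theorem coreL2 {x y ρ η ψ W D : ℝ} (G : GeL x y ρ η ψ W D) {d lam tau z j : ℝ}
    (hd : 0 < d) (hy : 0 < y) (hlt : 19 / 4 * lam = 1 + tau) (hl1 : 7 / 20 - 1 / 60 ≤ lam)
    (hl2 : lam ≤ 47 / 100) (hη : lam * η ≤ 99 / 100) (hb : tau * y ≤ 1 / 2)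
    (hb2 : (1 + tau) * y ≤ 1) (h2b : (2 + tau) * y ≤ 17 / 10) (hx : 8 / 5 ≤ x)
    (hρ : 16 / 5 ≤ ρ) (hrd : 499 / 10 ≤ ρ * d)
    (hz : 0 ≤ z) (hz1 : z ≤ π) (hj0 : 0 ≤ j) (hj1 : j ≤ 1) {M kW X3 : ℝ} (hM : 0 ≤ M)
    (hMM : (1 + (lam * y) ^ 2) * D ≤
      M ^ 2 * (2 * (11 / 24 * (1 - lam * y) * x +
        (1 - 351 / 625 * (x * (lam * y))) * (lam * y))))
    (hβ : 6 / 5 ≤ tau * (y * d))
    (hkW : 1001 / 1000 * √(12 / 11 * (D / W)) ≤ kW)
    (hX3 : (y + tau * y) / 2 - d * (tau * y * (2 * π - z - η) - ρ * (exp (tau * y) - 1 - tau * y) -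
      (ρ - x * (1 + y))) + 6 * (tau * y * d) ^ 2 / (11 * (ρ * exp (tau * y) * d)) ≤ X3)
    (hf : Integrable (fL (lam * y) (19 / 4) x y z d j)) :
    ∫ s, fL (lam * y) (19 / 4) x y z d j s ≤
      (M * exp (61 / 10000 - (1 - lam) * (y * d) * z) + 11 / 1000 +
        kW * exp X3 + 5 / 4 * kW * exp (-8)) * sg d D := by
  have hp := Real.pi_gt_d4
  have hp2 := Real.pi_lt_d4
  have hW0 := G.W0
  have hD0 := G.D0
  have hy1 := G.y1
  have hyx := G.yx
  have hl0 : 0 < lam := by linarith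
  have ht0 : 0 < tau := by
    by_contra h
    push_neg at h
    have : tau * (y * d) ≤ 0 := mul_nonpos_of_nonpos_of_nonneg h (by positivity)
    linarith
  have ht1 : tau ≤ 12325 / 10000 := by linarith
  have ht2 : 7 / 12 - 1 / 12 ≤ tau := by linarith
  have hWy := G.Wy
  have hxW := G.xW
  have hxy : lam * (x * y) ≤ 99 / 100 := by
    have h1 : x * y ≤ W * y := mul_le_mul_of_nonneg_right hxW hy.le
    have h2 : lam * (x * y) ≤ lam * η := mul_le_mul_of_nonneg_left (by linarith) hl0.le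
    linarith
  have hkxd : 25 ≤ x * d := by
    have h1 := mul_le_mul_of_nonneg_right G.xrho hd.le
    nlinarith
  have hc0 : 0 < lam * y := by positivity
  have hly : lam * y ≤ y := by nlinarith
  have hc1 : lam * y ≤ 2763 / 10000 := by
    have : 19 / 4 * (lam * y) = (1 + tau) * y := by rw [← hlt]; ring
    nlinarith
  have hyd : 0 < y * d := by positivity
  have hbd : tau * y * d = tau * (y * d) := by ring
  have hexpb : 1 ≤ exp (tau * y) := one_le_exp (by positivity)
  have hρ0 := G.r0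
  have hμ : ρ * d ≤ ρ * exp (tau * y) * d := by
    have h1 : ρ * 1 ≤ ρ * exp (tau * y) := mul_le_mul_of_nonneg_left hexpb hρ0.le
    have := mul_le_mul_of_nonneg_right h1 hd.le
    linarith
  have hDx : D ≤ 29 / 20 * x := by
    refine abs_le_of_sq_le_sq' ?_ (by linarith) |>.2
    rw [G.D2]
    nlinarith
  have main := coreL G (d := d) (b := tau * y) (c := lam * y) (s1 := 19 / 4) (z := z) (j := j)
    (q := 29 / 20) (k0 := 25) (m := 11 / 1000) (M := M) (kW := kW) (X3 := X3) (X4 := -8)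
    hd (by positivity) hc0 (by linear_combination y * hlt) (by norm_num) le_rfl
    (by linarith) hc1 (by linarith) hly (by nlinarith) (by nlinarith) hz hz1 hj0 hj1 hM hMM
    (by norm_num) (by norm_num) hkxd (by norm_num) hDx ?_ (by rw [hbd]; exact hβ)
    (by linarith) ?_ hkW hX3 ?_ ?_ ?_ hf
  · -- conclusion
    refine main.trans (mul_le_mul_of_nonneg_right ?_ (sg_pos hd hD0).le)
    have h1 : 6 / 11 * (lam * y / (x * d)) - (y - lam * y) * z * d ≤
        61 / 10000 - (1 - lam) * (y * d) * z := by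
      have h2 : lam * y / (x * d) ≤ 2763 / 10000 / 25 := by
        rw [div_le_div_iff₀ (by linarith) (by norm_num)]
        nlinarith
      have h3 : (y - lam * y) * z * d = (1 - lam) * (y * d) * z := by ring
      rw [h3]
      linarith
    have h2 := mul_le_mul_of_nonneg_left (exp_le_exp.2 h1) hM
    linarith
  · -- middle
    have h1 := ol_e35
    have h2 : (27 : ℝ) ^ 2 * (29 / 20 * 25) * exp (-(2 * (7 / 20) * 25)) ≤
        (27 : ℝ) ^ 2 * (29 / 20 * 25) * (1 / 38000000) :=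
      mul_le_mul_of_nonneg_left h1 (by norm_num)
    refine h2.trans ?_
    nlinarith
  · -- `hβμ`
    have h1 : tau * y * d ≤ 173 / 1000 * (ρ * exp (tau * y) * d) := by
      have h2 : tau * y * d ≤ 1 / 2 * d := mul_le_mul_of_nonneg_right hb hd.le
      have h3 : 16 / 5 * d ≤ ρ * d := mul_le_mul_of_nonneg_right hρ hd.le
      linarith
    have h2 := pow_le_pow_left₀ (by positivity) h1 2
    refine h2.trans ?_
    rw [mul_pow]
    exact mul_le_mul_of_nonneg_right (by norm_num) (sq_nonneg _)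
  · -- `h1d`
    have h1 : ((y + tau * y) + y) * d = 2 * (y * d) + tau * (y * d) := by ring
    rw [h1]
    linarith
  · -- `hμ2'`
    have h1 : W = ρ * exp (-y) := by
      rw [G.rho, mul_assoc, ← exp_add]; simp
    have h2 : W * exp (-(y + tau * y)) * d = ρ * d * exp (-((2 + tau) * y)) := by
      rw [h1, mul_assoc ρ, ← exp_add]
      rw [show -y + -(y + tau * y) = -((2 + tau) * y) by ring]
      ring
    rw [h2]
    have h3 : 2 / 11 ≤ exp (-((2 + tau) * y)) := by
      have h4 : exp (-(17 / 10)) ≤ exp (-((2 + tau) * y)) := exp_le_exp.2 (by linarith)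
      have h5 : 2 / 11 ≤ exp (-(17 / 10) : ℝ) := by
        rw [exp_neg, show (2 / 11 : ℝ) = (11 / 2)⁻¹ by norm_num]
        exact inv_anti₀ (exp_pos _) ol_e17
      linarith
    nlinarith
  · -- `hX4`
    have ha0 : 0 ≤ y + tau * y := by positivity
    have h1 : exp (-(y + tau * y)) ≤ 1 - (y + tau * y) + (y + tau * y) ^ 2 / 2 := en_le2 ha0
    have h2 : exp (-(y + tau * y)) ≤ 1 := exp_le_one_iff.2 (by linarith)
    have h3 : W ≤ x + y / 5 := by
      have h4 := G.Wx
      have h5 : y * (y / x) ≤ y * (2 / 5) := mul_le_mul_of_nonneg_left G.Y1 hy.le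
      linarith
    have h4 : exp (-(y + tau * y)) * W ≤ x * (1 - (y + tau * y) + (y + tau * y) ^ 2 / 2) + y / 5 := by
      have h5 : exp (-(y + tau * y)) * W ≤ exp (-(y + tau * y)) * (x + y / 5) :=
        mul_le_mul_of_nonneg_left h3 (exp_pos _).le
      have h6 : exp (-(y + tau * y)) * x ≤ (1 - (y + tau * y) + (y + tau * y) ^ 2 / 2) * x :=
        mul_le_mul_of_nonneg_right h1 G.x0.le
      have h7 : exp (-(y + tau * y)) * (y / 5) ≤ 1 * (y / 5) :=
        mul_le_mul_of_nonneg_right h2 (by positivity)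
      linarith
    have h5 : x * (y + tau * y) ^ 2 ≤ 19 / 4 * (99 / 100) * (y + tau * y) := by
      have h6 : x * (y + tau * y) ^ 2 = 19 / 4 * (lam * (x * y)) * (y + tau * y) := by
        have : y + tau * y = 19 / 4 * lam * y := by rw [hlt]; ring
        rw [this]; ring
      rw [h6]
      have := mul_le_mul_of_nonneg_right hxy ha0
      linarith
    have h6 : 23 / 10 * (tau * y) + 6 * y ≤ ((y + tau * y) + y) * (19 / 4) +
        x * (1 - (y + tau * y)) - exp (-(y + tau * y)) * W := by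
      nlinarith
    have h7 := mul_le_mul_of_nonneg_left h6 hd.le
    have h8 : d * (23 / 10 * (tau * y) + 6 * y) = 23 / 10 * (tau * (y * d)) + 6 * (y * d) := by
      ring
    have h9 : 97 / 100 ≤ y * d := by
      by_contra h
      push_neg at h
      have : tau * (y * d) ≤ 12325 / 10000 * (97 / 100) :=
        mul_le_mul ht1 h.le hyd.le (by norm_num)
      linarith
    linarith

end SokalP2O
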