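import Pool.Agent.Lib_MP_af4de1_v3.P2OutF

/-!
# `P2.outL`: numbers of the case `Γ < 10`
-/

set_option autoImplicit false

namespace SokalP2O

open Real Set SokalF1G

theorem sq_le_le {a b : ℝ} (h : a ^ 2 ≤ b ^ 2) (hb : 0 ≤ b) : a ≤ b :=
  (abs_le_of_sq_le_sq' h hb).2

theorem X3_le {x y ρ η ψ W D : ℝ} (G : GeL x y ρ η ψ W D) (hη : η ≤ 5 / 2) {tau d Z : ℝ}
    (hd : 0 < d) (ht : 0 ≤ tau) (hb : tau * y ≤ 1) :
    (y + tau * y) / 2 - d * (tau * y * Z - ρ * (exp (tau * y) - 1 - tau * y) -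
      (ρ - x * (1 + y))) + 6 * (tau * y * d) ^ 2 / (11 * (ρ * exp (tau * y) * d)) ≤
    (1 + tau) * y / 2 - y * d * (tau * Z -
      tau ^ 2 / 2 * (η * (1 + y / 2)) * (1 + tau * y / 3 + 2 * (tau * y) ^ 2 / 19) - η / 2 -
      y / x / 2 * (y / 2 + (y / x) ^ 2 / 3) - 6 / 11 * tau ^ 2 * (y / ρ)) := by
  have hρ := G.r0
  have hy := G.y0
  have hb0 : 0 ≤ tau * y := by positivity
  have h1 : exp (tau * y) - 1 - tau * y ≤
      (tau * y) ^ 2 / 2 * (1 + tau * y / 3 + 2 * (tau * y) ^ 2 / 19) := by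
    have := e_le3 hb0 hb
    nlinarith
  have hF1 := G.F1 hη
  have h2 : ρ * (exp (tau * y) - 1 - tau * y) ≤
      y * (tau ^ 2 / 2 * (η * (1 + y / 2)) * (1 + tau * y / 3 + 2 * (tau * y) ^ 2 / 19)) := by
    have h3 := mul_le_mul_of_nonneg_left h1 hρ.le
    have h4 : 0 ≤ y * (tau ^ 2 / 2 * (1 + tau * y / 3 + 2 * (tau * y) ^ 2 / 19)) := by positivity
    have h5 : ρ * y ≤ η * (1 + y / 2) := by linarith
    have h6 := mul_le_mul_of_nonneg_left h5 h4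
    calc ρ * (exp (tau * y) - 1 - tau * y)
        ≤ ρ * ((tau * y) ^ 2 / 2 * (1 + tau * y / 3 + 2 * (tau * y) ^ 2 / 19)) := h3
      _ = y * (tau ^ 2 / 2 * (1 + tau * y / 3 + 2 * (tau * y) ^ 2 / 19)) * (ρ * y) := by ring
      _ ≤ y * (tau ^ 2 / 2 * (1 + tau * y / 3 + 2 * (tau * y) ^ 2 / 19)) *
          (η * (1 + y / 2)) := h6
      _ = _ := by ring
  have h3 := G.F2
  have h4 : 6 * (tau * y * d) ^ 2 / (11 * (ρ * exp (tau * y) * d)) ≤
      y * d * (6 / 11 * tau ^ 2 * (y / ρ)) := by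
    have h5 : 1 ≤ exp (tau * y) := one_le_exp hb0
    have e1 : y * d * (6 / 11 * tau ^ 2 * (y / ρ)) = 6 * (tau * y * d) ^ 2 / (11 * (ρ * 1 * d)) := by
      field_simp
    rw [e1]
    apply div_le_div_of_nonneg_left (by positivity) (by positivity)
    have := mul_le_mul_of_nonneg_left h5 hρ.le
    nlinarith
  have h5 := mul_le_mul_of_nonneg_left h2 hd.le
  have h6 := mul_le_mul_of_nonneg_left h3 hd.le
  have e2 : (y + tau * y) / 2 - d * (tau * y * Z - ρ * (exp (tau * y) - 1 - tau * y) -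
      (ρ - x * (1 + y))) = (1 + tau) * y / 2 - y * d * (tau * Z) +
      d * (ρ * (exp (tau * y) - 1 - tau * y)) + d * (ρ - x * (1 + y)) := by ring
  rw [e2]
  nlinarith

theorem olA_pw {y a : ℝ} (h0 : 0 ≤ y) (h : y ≤ a) :
    y ^ 2 ≤ a * y ∧ y ^ 3 ≤ a ^ 2 * y ∧ y ^ 4 ≤ a ^ 3 * y := by
  have ha : 0 ≤ a := h0.trans h
  refine ⟨?_, ?_, ?_⟩
  · nlinarith
  · have := pow_le_pow_left₀ h0 h 2
    calc y ^ 3 = y ^ 2 * y := by ring
      _ ≤ a ^ 2 * y := mul_le_mul_of_nonneg_right this h0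
  · have := pow_le_pow_left₀ h0 h 3
    calc y ^ 4 = y ^ 3 * y := by ring
      _ ≤ a ^ 3 * y := mul_le_mul_of_nonneg_right this h0

theorem olA_B1 {y : ℝ} (hy0 : 0 ≤ y) (h : y ≤ 329 / 1000) :
    0 ≤ 483 / 100 * ((117 / 100) ^ 2 * (11 / 12 * (1 - 47 / 100 * y) -
          702 / 625 * (47 / 100 * y) ^ 2) - (1 + (47 / 100 * y) ^ 2)) +
          (117 / 100) ^ 2 * (2 * (47 / 100 * y)) -
          (1 + (47 / 100 * y) ^ 2) * ((1 + y) ^ 2 / (966 / 100)) := by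
  obtain ⟨h2, h3, h4⟩ := olA_pw hy0 h
  linarith

theorem olA_A1 {y : ℝ} (hy0 : 0 ≤ y) (h : y ≤ 329 / 1000) :
    0 ≤ (117 / 100) ^ 2 * (11 / 12 * (1 - 47 / 100 * y) -
          702 / 625 * (47 / 100 * y) ^ 2) - (1 + (47 / 100 * y) ^ 2) := by
  obtain ⟨h2, h3, h4⟩ := olA_pw hy0 h
  linarith

theorem olA_A2 {y : ℝ} (hy0 : 0 ≤ y) (h : y ≤ 3576 / 10000) :
    -(28 / 1000) ≤ (117 / 100) ^ 2 * (11 / 12 * (1 - 47 / 100 * y) -
          702 / 625 * (47 / 100 * y) ^ 2) - (1 + (47 / 100 * y) ^ 2) := by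
  obtain ⟨h2, h3, h4⟩ := olA_pw hy0 h
  linarith

theorem olA_B2 {y : ℝ} (hy0 : 329 / 1000 ≤ y) (h : y ≤ 3576 / 10000) :
    23 / 100 ≤ (117 / 100) ^ 2 * (2 * (47 / 100 * y)) -
          (1 + (47 / 100 * y) ^ 2) * ((1 + y) ^ 2 / (966 / 100)) := by
  obtain ⟨h2, h3, h4⟩ := olA_pw (by linarith) h
  linarith

theorem olA_P {y : ℝ} (hy0 : 0 ≤ y) (h : y ≤ 3576 / 10000) :
    (1 + y / 2) * (1 + 493 / 400 * y / 3 + 2 * (493 / 400 * y) ^ 2 / 19) ≤
          1 + 9109 / 10000 * y + 394 / 1000 * y ^ 2 := by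
  have h3 : y ^ 3 ≤ 3576 / 10000 * y ^ 2 := by
    have := mul_le_mul_of_nonneg_right h (sq_nonneg y)
    linarith
  linarith [sq_nonneg y]

theorem olA_f {y : ℝ} (hy0 : 22 / 100 ≤ y) (h : y ≤ 3576 / 10000) :
    (1 + 493 / 400) * y / 2 - y * (522 / 100) * (11708 / 10000 - 14564 / 10000 * y - 63 / 100 * y ^ 2) ≤
      -(3 / 5) := by
  have k1 : 0 ≤ (y - 22 / 100) * (3576 / 10000 - y) := mul_nonneg (by linarith) (by linarith)
  have k2 : 0 ≤ (y - 22 / 100) * (3576 / 10000 - y) * y := mul_nonneg k1 (by linarith)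
  nlinarith

/-- the facts of the case `Γ < 10` -/
theorem outL_facA {x y ρ η ψ W D d : ℝ} (G : GeL x y ρ η ψ W D) (hη : η = 67 / 100 * π)
    (hρ : 694 / 100 ≤ ρ) (hrd : 499 / 10 ≤ ρ * d) (hd : 547 / 1000 * (ρ + 1 / ρ) ≤ d) :
    (21048 / 10000 ≤ η ∧ η ≤ 21049 / 10000) ∧ 0 < d ∧ y ≤ 3576 / 10000 ∧ 485 / 100 ≤ W ∧
    483 / 100 ≤ x ∧ y / x ≤ 741 / 10000 ∧ 115 / 100 ≤ y * d ∧ 522 / 100 ≤ d := by
  have hp := Real.pi_gt_d4
  have hp2 := Real.pi_lt_d4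
  have hη1 : 21048 / 10000 ≤ η := by linarith
  have hη2 : η ≤ 21049 / 10000 := by linarith
  have hρ0 := G.r0
  have hy0 := G.y0
  have hx0 := G.x0
  have hW0 := G.W0
  have hD0 := G.D0
  have hd0 : 0 < d := by
    have : 0 < 547 / 1000 * (ρ + 1 / ρ) := by positivity
    linarith
  have hF1 := G.F1 (by linarith)
  have hy1 : y ≤ 3576 / 10000 := by
    by_contra h
    have h' := not_le.1 h
    have : 3576 / 10000 * (5887 / 1000) ≤ y * (ρ - η / 2) :=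
      mul_le_mul h'.le (by linarith) (by norm_num) hy0
    linarith
  have hW : 485 / 100 ≤ W := by
    have h1 := e_le3 hy0 (by linarith)
    have h2 : exp y ≤ 14302 / 10000 := by
      have h3 : y ^ 2 ≤ (3576 / 10000) ^ 2 := pow_le_pow_left₀ hy0 hy1 2
      have h4 : y ^ 3 ≤ (3576 / 10000) ^ 3 := pow_le_pow_left₀ hy0 hy1 3
      have h5 : y ^ 4 ≤ (3576 / 10000) ^ 4 := pow_le_pow_left₀ hy0 hy1 4
      linarith
    have h3 := G.rho
    have h4 : W * exp y ≤ W * (14302 / 10000) := mul_le_mul_of_nonneg_left h2 hW0.le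
    linarith
  have hW2 := G.W2
  have hx : 483 / 100 ≤ x := by
    have h0 : y ^ 2 ≤ (3576 / 10000) ^ 2 := pow_le_pow_left₀ hy0 hy1 2
    have h00 : (485 / 100 : ℝ) ^ 2 ≤ W ^ 2 := pow_le_pow_left₀ (by norm_num) hW 2
    have h1 : (483 / 100 : ℝ) ^ 2 ≤ x ^ 2 := by linarith
    exact sq_le_le h1 hx0.le
  have hψ := G.psi_le
  have hY0 := G.Y0
  have hY : y / x ≤ 741 / 10000 := by
    rw [div_le_iff₀ hx0]
    linarith
  have hix : 1 / x ≤ 1 / (483 / 100) := one_div_le_one_div_of_le (by norm_num) hx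
  have hyρ : η ≤ y * (ρ + 1 / ρ) := by
    have h1 := G.F3
    have h2 : y * (x + η / 2 + 11 / 10 * (1 / x)) ≤ y * (ρ + 1 / ρ) := by
      refine mul_le_mul_of_nonneg_left ?_ hy0
      have h3 := G.eta
      have h4 : 0 < 1 / ρ := by positivity
      linarith
    linarith
  have hyd : 115 / 100 ≤ y * d := by
    have h1 := mul_le_mul_of_nonneg_left hd hy0
    linarith
  have hd5 : 522 / 100 ≤ d := by
    have h1 : 547 / 1000 * ρ ≤ d := by
      have h4 : 0 < 1 / ρ := by positivity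
      linarith
    have h2 := mul_le_mul_of_nonneg_right h1 hd0.le
    have h3 : (522 / 100 : ℝ) ^ 2 ≤ d ^ 2 := by
      rw [sq d]; linarith
    exact sq_le_le h3 hd0.le
  exact ⟨⟨hη1, hη2⟩, hd0, hy1, hW, hx, hY, hyd, hd5⟩

theorem outL_MA {x y ρ η ψ W D : ℝ} (G : GeL x y ρ η ψ W D) (hη2 : η ≤ 21049 / 10000)
    (hy1 : y ≤ 3576 / 10000) (hx : 483 / 100 ≤ x) :
    (1 + (47 / 100 * y) ^ 2) * D ≤ (117 / 100) ^ 2 * (2 * (11 / 24 * (1 - 47 / 100 * y) * x +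
      (1 - 351 / 625 * (x * (47 / 100 * y))) * (47 / 100 * y))) := by
  have hy0 := G.y0
  have hx0 := G.x0
  have hDx : D ≤ x + (1 + y) ^ 2 / (966 / 100) := by
    have h1 : 0 ≤ (1 + y) ^ 2 / (966 / 100) := by positivity
    refine sq_le_le ?_ (by linarith)
    rw [G.D2]
    have h2 : 0 ≤ (x - 483 / 100) * (1 + y) ^ 2 := mul_nonneg (by linarith) (sq_nonneg _)
    have h3 := sq_nonneg ((1 + y) ^ 2)
    linarith
  have h1 : (1 + (47 / 100 * y) ^ 2) * D ≤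
      (1 + (47 / 100 * y) ^ 2) * (x + (1 + y) ^ 2 / (966 / 100)) :=
    mul_le_mul_of_nonneg_left hDx (by positivity)
  have hxy : x * y ≤ 21049 / 10000 := by
    have := mul_le_mul_of_nonneg_right G.xW hy0
    linarith [G.Wy]
  refine h1.trans ?_
  rcases le_total y (329 / 1000) with h | h
  · have hA := olA_A1 hy0 h
    have hB := olA_B1 hy0 h
    have hC := mul_nonneg (sub_nonneg.2 hx) hA
    linarith
  · have hA := olA_A2 hy0 hy1
    have hx6 : x ≤ 64 / 10 := by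
      by_contra h6
      have h6' := not_le.1 h6
      have : 64 / 10 * (329 / 1000) ≤ x * y := mul_le_mul h6'.le h (by norm_num) hx0.le
      linarith
    have hB := olA_B2 h hy1
    have hC := mul_le_mul_of_nonneg_left hA hx0.le
    linarith

theorem outL_kA {x y ρ η ψ W D : ℝ} (G : GeL x y ρ η ψ W D)
    (hy1 : y ≤ 3576 / 10000) (hW : 485 / 100 ≤ W) :
    1001 / 1000 * √(12 / 11 * (D / W)) ≤ 107 / 100 := by
  have hW0 := G.W0
  have h1 : D ≤ 10365 / 10000 * W := by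
    refine sq_le_le ?_ (by linarith)
    rw [G.D2]
    have h00 : (485 / 100 : ℝ) ^ 2 ≤ W ^ 2 := pow_le_pow_left₀ (by norm_num) hW 2
    have h0 := G.W2
    linarith
  have h2 : D / W ≤ 10365 / 10000 := by
    rw [div_le_iff₀ hW0]; exact h1
  have h3 : √(12 / 11 * (D / W)) ≤ 1068 / 1000 := by
    rw [Real.sqrt_le_left (by norm_num)]
    linarith
  linarith

theorem outL_XA {x y ρ η ψ W D d : ℝ} (G : GeL x y ρ η ψ W D) (hη2 : η ≤ 21049 / 10000)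
    (hρ : 694 / 100 ≤ ρ) (hd0 : 0 < d) (hy1 : y ≤ 3576 / 10000) (hY : y / x ≤ 741 / 10000)
    (hyd : 115 / 100 ≤ y * d) (hd5 : 522 / 100 ≤ d) :
    (y + 493 / 400 * y) / 2 - d * ((493 / 400 * y) * π -
      ρ * (exp (493 / 400 * y) - 1 - 493 / 400 * y) - (ρ - x * (1 + y))) +
      6 * (493 / 400 * y * d) ^ 2 / (11 * (ρ * exp (493 / 400 * y) * d)) ≤ -(3 / 5) := by
  have hp := Real.pi_gt_d4
  have hy0 := G.y0
  have hY0 := G.Y0
  refine (X3_le G (by linarith) hd0 (by norm_num) (by linarith)).trans ?_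
  have hs1 : y / x / 2 * (y / 2 + (y / x) ^ 2 / 3) ≤ 67 / 10000 := by
    have h1 : (y / x) ^ 2 ≤ (741 / 10000) ^ 2 := pow_le_pow_left₀ hY0 hY 2
    have h2 : y / x / 2 * (y / 2 + (y / x) ^ 2 / 3) ≤
        741 / 10000 / 2 * (3576 / 10000 / 2 + (741 / 10000) ^ 2 / 3) :=
      mul_le_mul (by linarith) (by linarith) (by positivity) (by norm_num)
    refine h2.trans (by norm_num)
  have hs2 : 6 / 11 * (493 / 400) ^ 2 * (y / ρ) ≤ 43 / 1000 := by
    have h1 : y / ρ ≤ 3576 / 10000 / (694 / 100) := div_le_div₀ (by norm_num) hy1 (by norm_num) hρ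
    have := mul_le_mul_of_nonneg_left h1 (by norm_num : (0 : ℝ) ≤ 6 / 11 * (493 / 400) ^ 2)
    refine this.trans (by norm_num)
  have hs3 : (493 / 400) ^ 2 / 2 * (η * (1 + y / 2)) *
      (1 + 493 / 400 * y / 3 + 2 * (493 / 400 * y) ^ 2 / 19) ≤
      15988 / 10000 * (1 + 9109 / 10000 * y + 394 / 1000 * y ^ 2) := by
    have h1 : (493 / 400) ^ 2 / 2 * η ≤ 15988 / 10000 := by linarith
    have h2 := olA_P hy0 hy1
    calc (493 / 400) ^ 2 / 2 * (η * (1 + y / 2)) *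
          (1 + 493 / 400 * y / 3 + 2 * (493 / 400 * y) ^ 2 / 19)
        = ((493 / 400) ^ 2 / 2 * η) * ((1 + y / 2) *
          (1 + 493 / 400 * y / 3 + 2 * (493 / 400 * y) ^ 2 / 19)) := by ring
      _ ≤ _ := mul_le_mul h1 h2 (by positivity) (by norm_num)
  have hβ : 11708 / 10000 - 14564 / 10000 * y - 63 / 100 * y ^ 2 ≤ 493 / 400 * π -
      (493 / 400) ^ 2 / 2 * (η * (1 + y / 2)) *
        (1 + 493 / 400 * y / 3 + 2 * (493 / 400 * y) ^ 2 / 19) - η / 2 -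
      y / x / 2 * (y / 2 + (y / x) ^ 2 / 3) - 6 / 11 * (493 / 400) ^ 2 * (y / ρ) := by
    linarith [sq_nonneg y]
  have hyd0 : 0 ≤ y * d := by linarith
  have h1 := mul_le_mul_of_nonneg_left hβ hyd0
  have hy2 := (olA_pw hy0 hy1).1
  have hβ0 : 56 / 100 ≤ 11708 / 10000 - 14564 / 10000 * y - 63 / 100 * y ^ 2 := by linarith
  rcases le_total y (22 / 100) with h | h
  · have h2 : 81 / 100 ≤ 11708 / 10000 - 14564 / 10000 * y - 63 / 100 * y ^ 2 := by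
      linarith [(olA_pw hy0 h).1]
    have h3 : 115 / 100 * (81 / 100) ≤
        y * d * (11708 / 10000 - 14564 / 10000 * y - 63 / 100 * y ^ 2) :=
      mul_le_mul hyd h2 (by norm_num) hyd0
    linarith
  · have h2 : y * (522 / 100) ≤ y * d := mul_le_mul_of_nonneg_left hd5 hy0
    have h3 : y * (522 / 100) * (11708 / 10000 - 14564 / 10000 * y - 63 / 100 * y ^ 2) ≤
        y * d * (11708 / 10000 - 14564 / 10000 * y - 63 / 100 * y ^ 2) :=
      mul_le_mul_of_nonneg_right h2 (by linarith)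
    have h4 := olA_f h hy1
    linarith

theorem outL_numA {x y ρ η ψ W D d : ℝ} (G : GeL x y ρ η ψ W D) (hη : η = 67 / 100 * π)
    (hρ : 694 / 100 ≤ ρ) (hrd : 499 / 10 ≤ ρ * d) (hd : 547 / 1000 * (ρ + 1 / ρ) ≤ d) :
    8 / 5 ≤ x ∧ y ≤ 3576 / 10000 ∧ 115 / 100 ≤ y * d ∧
    (1 + (47 / 100 * y) ^ 2) * D ≤ (117 / 100) ^ 2 * (2 * (11 / 24 * (1 - 47 / 100 * y) * x +
      (1 - 351 / 625 * (x * (47 / 100 * y))) * (47 / 100 * y))) ∧
    1001 / 1000 * √(12 / 11 * (D / W)) ≤ 107 / 100 ∧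
    (y + 493 / 400 * y) / 2 - d * ((493 / 400 * y) * π -
      ρ * (exp (493 / 400 * y) - 1 - 493 / 400 * y) - (ρ - x * (1 + y))) +
      6 * (493 / 400 * y * d) ^ 2 / (11 * (ρ * exp (493 / 400 * y) * d)) ≤ -(3 / 5) := by
  obtain ⟨⟨-, hη2⟩, hd0, hy1, hW, hx, hY, hyd, hd5⟩ := outL_facA G hη hρ hrd hd
  exact ⟨by linarith, hy1, hyd, outL_MA G hη2 hy1 hx, outL_kA G hy1 hW,
    outL_XA G hη2 hρ hd0 hy1 hY hyd hd5⟩

end SokalP2O
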