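import Pool.Agent.Lib_MP_af4de1_v3.OutLA
import Pool.Agent.Lib_MP_af4de1_v3.OutLN

/-!
# `P2.outL`: the bound of the absolute integral at the two ends
-/

set_option autoImplicit false

namespace SokalP2O

open Real Set SokalF1G MeasureTheory SokalPG

theorem ol_x1 : exp (61 / 10000 : ℝ) ≤ 10062 / 10000 := by
  have h := e_le3 (x := 61 / 10000) (by norm_num) (by norm_num)
  refine h.trans (by norm_num)

theorem ol_x2 : exp (-(3 / 5) : ℝ) ≤ 58 / 100 := by
  have h := en_le2 (x := 3 / 5) (by norm_num)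
  refine h.trans (by norm_num)

theorem ol_n1 {t : ℝ} (h : t ≤ -1) : exp t ≤ 368 / 1000 := by
  have := exp_neg_le (n := 1) (c := 368 / 1000) (x := -t) (by norm_num) (by norm_num)
    (by push_cast; linarith)
  rwa [neg_neg] at this

theorem ol_n2 {t : ℝ} (h : t ≤ -2) : exp t ≤ 1354 / 10000 := by
  have := exp_neg_le (n := 2) (c := 1354 / 10000) (x := -t) (by norm_num) (by norm_num)
    (by push_cast; linarith)
  rwa [neg_neg] at this

theorem ol_n3 {t : ℝ} (h : t ≤ -3) : exp t ≤ 1 / 20 := by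
  have := exp_neg_le (n := 3) (c := 1 / 20) (x := -t) (by norm_num) (by norm_num)
    (by push_cast; linarith)
  rwa [neg_neg] at this

theorem ol_n8 : exp (-8 : ℝ) ≤ 1 / 2000 := by
  have := exp_neg_le (n := 8) (c := 1 / 2000) (x := 8) (by norm_num) (by norm_num) (by norm_num)
  exact this

/-- both ends -/
theorem outL_end {x y ρ η ψ W D : ℝ} (G : GeL x y ρ η ψ W D) {d lam tau z j : ℝ}
    (hd : 0 < d) (hy : 0 < y) (hlt : 19 / 4 * lam = 1 + tau) (hl1 : 7 / 20 - 1 / 60 ≤ lam)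
    (hl2 : lam ≤ 47 / 100) (hη : lam * η ≤ 99 / 100) (hb : tau * y ≤ 1 / 2)
    (hb2 : (1 + tau) * y ≤ 1) (h2b : (2 + tau) * y ≤ 17 / 10) (hx : 8 / 5 ≤ x)
    (hρ : 16 / 5 ≤ ρ) (hrd : 499 / 10 ≤ ρ * d) (hηp : η ≤ π) (hη0 : 0 ≤ η)
    (hz : z = 0 ∨ z = π - η) (hj0 : 0 ≤ j) (hj1 : j ≤ 1) {M kW L : ℝ} (hM : 0 ≤ M)
    (hkW0 : 0 ≤ kW) (hL0 : 0 ≤ L) (hL : L ≤ y * d)
    (hMM : (1 + (lam * y) ^ 2) * D ≤
      M ^ 2 * (2 * (11 / 24 * (1 - lam * y) * x +
        (1 - 351 / 625 * (x * (lam * y))) * (lam * y))))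
    (hβ : 6 / 5 ≤ tau * L)
    (hkW : 1001 / 1000 * √(12 / 11 * (D / W)) ≤ kW)
    (hX3 : (y + tau * y) / 2 - d * (tau * y * π - ρ * (exp (tau * y) - 1 - tau * y) -
      (ρ - x * (1 + y))) + 6 * (tau * y * d) ^ 2 / (11 * (ρ * exp (tau * y) * d)) ≤ -(3 / 5))
    (n0 : M * (10062 / 10000) + 11 / 1000 + kW * exp (-(3 / 5) - tau * L * (π - η)) +
      5 / 4 * kW * (1 / 2000) ≤ 27 / 20)
    (nZ : M * exp (61 / 10000 - (1 - lam) * L * (π - η)) + 11 / 1000 + kW * (58 / 100) +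
      5 / 4 * kW * (1 / 2000) ≤ 27 / 20)
    (hf : Integrable (fL (lam * y) (19 / 4) x y z d j)) :
    ∫ s, fL (lam * y) (19 / 4) x y z d j s ≤ 27 / 20 * sg d D := by
  have hp := Real.pi_pos
  have hsg := (sg_pos hd G.D0).le
  have htau : 0 < tau := by
    by_contra h
    have : tau * L ≤ 0 := mul_nonpos_of_nonpos_of_nonneg (not_lt.1 h) hL0
    linarith
  have hβ' : 6 / 5 ≤ tau * (y * d) := hβ.trans (mul_le_mul_of_nonneg_left hL htau.le)
  have hZ : 0 ≤ π - η := by linarith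
  have k8 : 5 / 4 * kW * exp (-8) ≤ 5 / 4 * kW * (1 / 2000) :=
    mul_le_mul_of_nonneg_left ol_n8 (by positivity)
  rcases hz with h | h
  · have hX : (y + tau * y) / 2 - d * (tau * y * (2 * π - z - η) -
        ρ * (exp (tau * y) - 1 - tau * y) - (ρ - x * (1 + y))) +
        6 * (tau * y * d) ^ 2 / (11 * (ρ * exp (tau * y) * d)) ≤
        -(3 / 5) - tau * L * (π - η) := by
      have h1 : tau * L * (π - η) ≤ tau * (y * d) * (π - η) :=
        mul_le_mul_of_nonneg_right (mul_le_mul_of_nonneg_left hL htau.le) hZ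
      have h2 : d * (tau * y * (2 * π - z - η) -
          ρ * (exp (tau * y) - 1 - tau * y) - (ρ - x * (1 + y))) =
          d * (tau * y * π - ρ * (exp (tau * y) - 1 - tau * y) - (ρ - x * (1 + y))) +
          tau * (y * d) * (π - η) := by rw [h]; ring
      rw [h2]
      linarith
    refine (coreL2 G hd hy hlt hl1 hl2 hη hb hb2 h2b hx hρ hrd (by rw [h]) (by rw [h]; exact hp.le)
      hj0 hj1 hM hMM hβ' hkW hX hf).trans (mul_le_mul_of_nonneg_right ?_ hsg)
    have h1 : M * exp (61 / 10000 - (1 - lam) * (y * d) * z) ≤ M * (10062 / 10000) := by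
      refine mul_le_mul_of_nonneg_left ?_ hM
      rw [h, mul_zero, sub_zero]
      exact ol_x1
    linarith
  · have hX : (y + tau * y) / 2 - d * (tau * y * (2 * π - z - η) -
        ρ * (exp (tau * y) - 1 - tau * y) - (ρ - x * (1 + y))) +
        6 * (tau * y * d) ^ 2 / (11 * (ρ * exp (tau * y) * d)) ≤ -(3 / 5) := by
      rw [h, show 2 * π - (π - η) - η = π by ring]
      exact hX3
    refine (coreL2 G hd hy hlt hl1 hl2 hη hb hb2 h2b hx hρ hrd (by rw [h]; exact hZ)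
      (by rw [h]; linarith)
      hj0 hj1 hM hMM hβ' hkW hX hf).trans (mul_le_mul_of_nonneg_right ?_ hsg)
    have h1 : M * exp (61 / 10000 - (1 - lam) * (y * d) * z) ≤
        M * exp (61 / 10000 - (1 - lam) * L * (π - η)) := by
      refine mul_le_mul_of_nonneg_left (exp_le_exp.2 ?_) hM
      rw [h]
      have : (1 - lam) * L * (π - η) ≤ (1 - lam) * (y * d) * (π - η) :=
        mul_le_mul_of_nonneg_right (mul_le_mul_of_nonneg_left hL (by linarith)) hZ
      linarith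
    have h2 := mul_le_mul_of_nonneg_left ol_x2 hkW0
    linarith

/-- case `Γ < 10` -/
theorem outL_endA {x y ρ η ψ W D : ℝ} (G : GeL x y ρ η ψ W D) {d z j : ℝ}
    (hη : η = 67 / 100 * π) (hρ : 694 / 100 ≤ ρ) (hrd : 499 / 10 ≤ ρ * d)
    (hd : 547 / 1000 * (ρ + 1 / ρ) ≤ d) (hy : 0 < y)
    (hz : z = 0 ∨ z = π - η) (hj0 : 0 ≤ j) (hj1 : j ≤ 1)
    (hf : Integrable (fL (47 / 100 * y) (19 / 4) x y z d j)) :
    ∫ s, fL (47 / 100 * y) (19 / 4) x y z d j s ≤ 27 / 20 * sg d D := by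
  have hp := Real.pi_gt_d4
  have hp2 := Real.pi_lt_d4
  obtain ⟨h1, h2, h3, h4, h5, h6⟩ := outL_numA G hη hρ hrd hd
  have hd0 : 0 < d := by
    by_contra h
    have : y * d ≤ 0 := mul_nonpos_of_nonneg_of_nonpos hy.le (not_lt.1 h)
    linarith
  refine outL_end G (lam := 47 / 100) (tau := 493 / 400) (M := 117 / 100) (kW := 107 / 100)
    (L := 115 / 100) hd0 hy (by norm_num) (by norm_num) (by norm_num) (by linarith) (by linarith)
    (by linarith) (by linarith) h1 (by linarith) hrd (by linarith) (by linarith) hz hj0 hj1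
    (by norm_num) (by norm_num) (by norm_num) h3 h4 (by norm_num) h5 h6 ?_ ?_ hf
  · have k1 := ol_n2 (t := -(3 / 5) - 493 / 400 * (115 / 100) * (π - η)) (by linarith)
    linarith
  · have k1 : exp (61 / 10000 - (1 - 47 / 100) * (115 / 100) * (π - η)) ≤ 58 / 100 := by
      refine (exp_le_exp.2 ?_).trans ol_x2
      linarith
    linarith

end SokalP2O
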