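import Pool.Agent.Lib_MP_af4de1_v3.T2B
import Pool.Agent.Lib_MP_af4de1_v3.OutREv

/-!
# `N = 2`, `outR`: the first lump at the far end `ζ = -z`
-/

set_option autoImplicit false

open Complex MeasureTheory Set SokalU SokalPG SokalF1 SokalF1S SokalF1M SokalF1G SokalF1B

namespace SokalV3

theorem outR_lump {x n w D z κ l q1 E cm K Lp Q : ℝ} (hx : 112 / 25 ≤ x) (hw : 0 < w) (hQ : 0 ≤ Q)
    (hD0 : 0 < D) (hc : (1 + x)⁻¹ ≤ cm) (hcm : cm < 1) (hE : Real.exp (137 / 25 * cm) ≤ E)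
    (hq1 : 0 < q1) (hq : q1 * x ≤ 473 / 1000 * x - 134 / 1000 * |n|)
    (hm : tm (-1) x n ^ 2 ≤ 1 * ta x ^ 2)
    (hκ1 : 1 < κ) (hκ : κ * E ≤ (κ - 1) * (w * (q1 * x))) (hD : D ≤ 2 * l * (q1 * x))
    (hK : κ * (300304 / 10000) * 1 * E ≤ K * (4 * q1 * (1 - cm)))
    (hF : Lp ≤ w * ((1 + x)⁻¹ * (194166 / 10000 - 137 / 25 * z + 424429 / 10000 * (1 + x)⁻¹ -
      (650039 / 10000 + K) * (1 + x)⁻¹ ^ 2) - (2 * Real.pi - z) * n) - 137 / 50 * (1 + x)⁻¹)
    (hL : κ * l * Real.exp (-(2 * Lp)) ≤ Q ^ 2) :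
    tP (-1) x n w * Real.exp (w * (ta x - n) * z) ≤ Q * √(2 * Real.pi / (w * D)) := by
  have ht := ta_eq hx
  set A := w * (ta x - n) * z with hA
  have hEA : Real.exp (-A) * Real.exp A = 1 := by rw [← Real.exp_add]; simp
  have h1 := lump_neg (κ := κ) (l := l) (q1 := q1) (E := E) (M := 1) (cm := cm) (K := K)
    (L := Lp + A) (Q := Q * Real.exp (-A)) hx hw (by positivity) hD0 hc hcm hE hq1 hq hm
    (by norm_num) hκ1 hκ hD hK ?_ ?_
  · calc tP (-1) x n w * Real.exp A ≤ Q * Real.exp (-A) * √(2 * Real.pi / (w * D)) * Real.exp A := by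
          gcongr
      _ = Q * √(2 * Real.pi / (w * D)) * (Real.exp (-A) * Real.exp A) := by ring
      _ = Q * √(2 * Real.pi / (w * D)) := by rw [hEA, mul_one]
  · have e : w * ((1 + x)⁻¹ * (194166 / 10000 + 424429 / 10000 * (1 + x)⁻¹ -
        (650039 / 10000 + K) * (1 + x)⁻¹ ^ 2) - 2 * Real.pi * n) - A =
        w * ((1 + x)⁻¹ * (194166 / 10000 - 137 / 25 * z + 424429 / 10000 * (1 + x)⁻¹ -
        (650039 / 10000 + K) * (1 + x)⁻¹ ^ 2) - (2 * Real.pi - z) * n) := by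
      rw [hA, ht]
      ring
    linarith
  · have e : Real.exp (-(2 * (Lp + A))) = Real.exp (-(2 * Lp)) * Real.exp (-A) ^ 2 := by
      rw [← Real.exp_nat_mul, ← Real.exp_add]
      congr 1
      push_cast
      ring
    rw [e, mul_pow]
    have := mul_le_mul_of_nonneg_right hL (sq_nonneg (Real.exp (-A)))
    linarith

theorem outR_red {w w0 c C n N k3 cm L A0 B0 z : ℝ} (hw : w0 ≤ w) (hw0 : 1 ≤ w0) (hC0 : 0 < C)
    (hC : C ≤ c) (hcm : c ≤ cm) (hk0 : 0 ≤ k3) (hk : 3 / 2 * k3 * cm ≤ 424429 / 10000) (hN : 0 ≤ N)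
    (hn : n ≤ N) (hA : A0 ≤ 194166 / 10000 - 137 / 25 * z) (hA0 : 137 / 50 ≤ A0)
    (hz : z ≤ 2) (hB : 2 * Real.pi - z ≤ B0) (hL : 0 ≤ L)
    (h : L ≤ w0 * (C * (A0 + 424429 / 10000 * C - k3 * C ^ 2) - B0 * N) - 137 / 50 * C) :
    L ≤ w * (c * (194166 / 10000 - 137 / 25 * z + 424429 / 10000 * c - k3 * c ^ 2) -
      (2 * Real.pi - z) * n) - 137 / 50 * c := by
  have hpi : 3 ≤ Real.pi := Real.pi_gt_three.le
  have h1 : (2 * Real.pi - z) * n ≤ B0 * N := by
    have : 0 ≤ 2 * Real.pi - z := by linarith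
    calc (2 * Real.pi - z) * n ≤ (2 * Real.pi - z) * N := by gcongr
      _ ≤ B0 * N := by gcongr
  set X0 := C * (A0 + 424429 / 10000 * C - k3 * C ^ 2) - B0 * N with hX0
  set X := c * (194166 / 10000 - 137 / 25 * z + 424429 / 10000 * c - k3 * c ^ 2) -
      (2 * Real.pi - z) * n with hX
  have hc0 : 0 < c := lt_of_lt_of_le hC0 hC
  have h2 : A0 * (c - C) ≤ X - X0 := by
    have h3 : 0 ≤ (c - C) * (424429 / 10000 * (c + C) - k3 * (c ^ 2 + c * C + C ^ 2)) := by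
      have h4 : 0 ≤ c - C := by linarith
      have h5 : 0 ≤ c + C := by linarith
      have h6 : c ^ 2 + c * C + C ^ 2 ≤ 3 / 2 * cm * (c + C) := by
        have h7 : c ^ 2 + c * C + C ^ 2 ≤ 3 / 2 * c * (c + C) := by nlinarith
        have h8 : 3 / 2 * c * (c + C) ≤ 3 / 2 * cm * (c + C) := by gcongr
        linarith
      have h7 : k3 * (c ^ 2 + c * C + C ^ 2) ≤ k3 * (3 / 2 * cm * (c + C)) := by gcongr
      have h8 : k3 * (3 / 2 * cm * (c + C)) ≤ 424429 / 10000 * (c + C) := by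
        calc k3 * (3 / 2 * cm * (c + C)) = 3 / 2 * k3 * cm * (c + C) := by ring
          _ ≤ 424429 / 10000 * (c + C) := by gcongr
      exact mul_nonneg h4 (by linarith)
    have h9 : 0 ≤ c * (194166 / 10000 - 137 / 25 * z - A0) := mul_nonneg hc0.le (by linarith)
    have e : X - X0 = A0 * (c - C) + c * (194166 / 10000 - 137 / 25 * z - A0) +
        (c - C) * (424429 / 10000 * (c + C) - k3 * (c ^ 2 + c * C + C ^ 2)) +
        (B0 * N - (2 * Real.pi - z) * n) := by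
      rw [hX, hX0]
      ring
    linarith
  have hcC : 0 ≤ c - C := by linarith
  have h3 : 0 < w0 * X0 := by linarith
  have h4 : 0 < X0 := by
    by_contra h5
    push Not at h5
    have := mul_nonpos_of_nonneg_of_nonpos (by linarith : 0 ≤ w0) h5
    linarith
  have h5 : 0 ≤ X := by
    have : 0 ≤ A0 * (c - C) := mul_nonneg (by linarith) hcC
    linarith
  have h6 : w0 * X ≤ w * X := mul_le_mul_of_nonneg_right hw h5
  have h7 : w0 * (A0 * (c - C)) ≤ w0 * (X - X0) :=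
    mul_le_mul_of_nonneg_left h2 (by linarith)
  have h8 : 1 * (137 / 50 * (c - C)) ≤ w0 * (A0 * (c - C)) := by gcongr
  linarith

theorem outR_pi : (31415926 / 10000000 : ℝ) ≤ Real.pi ∧ Real.pi ≤ 31415927 / 10000000 := by
  have h1 := Real.pi_gt_d20
  have h2 := Real.pi_lt_d20
  norm_num at h1 h2 ⊢
  constructor <;> linarith

/-- class C -/
theorem outR_lC {x n ρ w D z : ℝ} (hρ : 377 / 50 ≤ ρ) (h1 : ρ + 2071 / 1000 ≤ x)
    (h2 : x ≤ ρ + 421 / 200) (hn0 : 0 ≤ n) (hn : Real.exp n ≤ 1 + 421 / 200 / ρ)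
    (hw1 : 6839 / 12500 * (ρ + 1 / ρ) ≤ w) (hw2 : 499 / 10 / ρ ≤ w)
    (hz1 : 10367 / 10000 ≤ z) (hz2 : z ≤ 648 / 625)
    (hD0 : 0 < D) (hD : D ^ 2 ≤ 1 + x ^ 2) :
    tP (-1) x n w * Real.exp (w * (ta x - n) * z) ≤ 53 / 125 * √(2 * Real.pi / (w * D)) := by
  have hρ0 : 0 < ρ := by linarith
  have hw0 : 0 < w := lt_of_lt_of_le (by positivity) hw2
  have hwρ : 499 / 10 ≤ w * ρ := by rwa [div_le_iff₀ hρ0] at hw2
  obtain ⟨pi1, pi2⟩ := outR_pi
  have hnl : n ≤ 421 / 200 / ρ - (421 / 200 / ρ) ^ 2 / 2 + (421 / 200 / ρ) ^ 3 / 3 :=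
    le_log3 (by positivity) hn
  have hn1 : n ≤ 99 / 400 := by
    have h3 : n ≤ 421 / 200 / (377 / 50) - (421 / 200 / (377 / 50)) ^ 2 / 2 +
        (421 / 200 / (377 / 50)) ^ 3 / 3 := by
      refine le_log3 (by norm_num) (hn.trans ?_)
      gcongr
    refine h3.trans ?_
    norm_num
  have hna : |n| = n := abs_of_nonneg hn0
  have hx : 9611 / 1000 ≤ x := by linarith
  have hq : 939 / 2000 * x ≤ 473 / 1000 * x - 134 / 1000 * |n| := by rw [hna]; linarith
  have hx1 : 0 < 1 + x := by linarith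
  have hcm : (1 + x)⁻¹ ≤ 943 / 10000 := by
    rw [inv_le_comm₀ hx1 (by norm_num)]
    norm_num
    linarith
  have hC : (ρ + 621 / 200)⁻¹ ≤ (1 + x)⁻¹ := by
    apply inv_anti₀ hx1
    linarith
  refine outR_lump (κ := 431 / 400) (l := 2677 / 2500) (q1 := 939 / 2000) (E := 1677 / 1000)
    (cm := 943 / 10000) (K := 319161 / 10000) (Lp := 93 / 100) (by linarith)
    hw0 (by norm_num) hD0 hcm (by norm_num) ?_ (by norm_num) hq
    (tm_neg_sq (by linarith) hn0 (by linarith)) (by norm_num) ?_ ?_ (by norm_num) ?_ ?_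
  · refine (exp_five (by norm_num) (by norm_num)).trans ?_
    norm_num
  · have h5 : w * ρ ≤ w * x := by
      have : ρ ≤ x := by linarith
      gcongr
    norm_num at h5 ⊢
    linarith
  · refine (t2c_D (x0 := 9611 / 1000) (T := 2 * (2677 / 2500) * (939 / 2000)) (by norm_num) hx
      (by norm_num) hD (by norm_num)).trans (le_of_eq (by ring))
  · have e3 : (650039 / 10000 + 319161 / 10000 : ℝ) = 2423 / 25 := by norm_num
    rw [e3]
    refine outR_red (w0 := 6839 / 12500 * (ρ + 1 / ρ)) (A0 := 137349 / 10000) (B0 := 524649 / 100000) hw1 ?_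
      (by positivity) hC hcm (by norm_num) (by norm_num) (hn0.trans hnl) hnl (by linarith)
      (by norm_num) (by linarith) (by linarith) (by norm_num) (evR_C hρ)
    have : 0 < 1 / ρ := by positivity
    linarith
  · have h6 := exp_neg_le_of (k := 1) (t := 43 / 50) (L := 93 / 100)
      (A := 6423 / 1000) (by norm_num) (by norm_num) (by norm_num) (by norm_num)
    calc 431 / 400 * (2677 / 2500) * Real.exp (-(2 * (93 / 100))) ≤
        431 / 400 * (2677 / 2500) * (1 / (6423 / 1000)) := by gcongr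
      _ ≤ (53 / 125) ^ 2 := by norm_num

/-- class D -/
theorem outR_lD {x n ρ w D z : ℝ} (hρ : 347 / 50 ≤ ρ) (h1 : ρ + 413 / 200 ≤ x)
    (h2 : x ≤ ρ + 421 / 200) (hn0 : 0 ≤ n) (hn : Real.exp n ≤ 1 + 421 / 200 / ρ)
    (hw1 : 43061 / 50000 * (ρ + 1 / ρ) ≤ w) (hw2 : 499 / 10 / ρ ≤ w)
    (hz1 : 10367 / 10000 ≤ z) (hz2 : z ≤ 648 / 625)
    (hD0 : 0 < D) (hD : D ^ 2 ≤ 1 + x ^ 2) :
    tP (-1) x n w * Real.exp (w * (ta x - n) * z) ≤ 319 / 1250 * √(2 * Real.pi / (w * D)) := by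
  have hρ0 : 0 < ρ := by linarith
  have hw0 : 0 < w := lt_of_lt_of_le (by positivity) hw2
  have hwρ : 499 / 10 ≤ w * ρ := by rwa [div_le_iff₀ hρ0] at hw2
  obtain ⟨pi1, pi2⟩ := outR_pi
  have hnl : n ≤ 421 / 200 / ρ - (421 / 200 / ρ) ^ 2 / 2 + (421 / 200 / ρ) ^ 3 / 3 :=
    le_log3 (by positivity) hn
  have hn1 : n ≤ 2667 / 10000 := by
    have h3 : n ≤ 421 / 200 / (347 / 50) - (421 / 200 / (347 / 50)) ^ 2 / 2 +
        (421 / 200 / (347 / 50)) ^ 3 / 3 := by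
      refine le_log3 (by norm_num) (hn.trans ?_)
      gcongr
    refine h3.trans ?_
    norm_num
  have hna : |n| = n := abs_of_nonneg hn0
  have hx : 1801 / 200 ≤ x := by linarith
  have hq : 469 / 1000 * x ≤ 473 / 1000 * x - 134 / 1000 * |n| := by rw [hna]; linarith
  have hx1 : 0 < 1 + x := by linarith
  have hcm : (1 + x)⁻¹ ≤ 1 / 10 := by
    rw [inv_le_comm₀ hx1 (by norm_num)]
    norm_num
    linarith
  have hC : (ρ + 621 / 200)⁻¹ ≤ (1 + x)⁻¹ := by
    apply inv_anti₀ hx1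
    linarith
  refine outR_lump (κ := 27 / 25) (l := 1341 / 1250) (q1 := 469 / 1000) (E := 173 / 100)
    (cm := 1 / 10) (K := 332461 / 10000) (Lp := 36 / 25) (by linarith)
    hw0 (by norm_num) hD0 hcm (by norm_num) ?_ (by norm_num) hq
    (tm_neg_sq (by linarith) hn0 (by linarith)) (by norm_num) ?_ ?_ (by norm_num) ?_ ?_
  · refine (exp_five (by norm_num) (by norm_num)).trans ?_
    norm_num
  · have h5 : w * ρ ≤ w * x := by
      have : ρ ≤ x := by linarith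
      gcongr
    norm_num at h5 ⊢
    linarith
  · refine (t2c_D (x0 := 1801 / 200) (T := 2 * (1341 / 1250) * (469 / 1000)) (by norm_num) hx
      (by norm_num) hD (by norm_num)).trans (le_of_eq (by ring))
  · have e3 : (650039 / 10000 + 332461 / 10000 : ℝ) = 393 / 4 := by norm_num
    rw [e3]
    refine outR_red (w0 := 43061 / 50000 * (ρ + 1 / ρ)) (A0 := 137349 / 10000) (B0 := 524649 / 100000) hw1 ?_
      (by positivity) hC hcm (by norm_num) (by norm_num) (hn0.trans hnl) hnl (by linarith)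
      (by norm_num) (by linarith) (by linarith) (by norm_num) (evR_D hρ)
    have : 0 < 1 / ρ := by positivity
    linarith
  · have h6 := exp_neg_le_of (k := 2) (t := 22 / 25) (L := 36 / 25)
      (A := 1781 / 100) (by norm_num) (by norm_num) (by norm_num) (by norm_num)
    calc 27 / 25 * (1341 / 1250) * Real.exp (-(2 * (36 / 25))) ≤
        27 / 25 * (1341 / 1250) * (1 / (1781 / 100)) := by gcongr
      _ ≤ (319 / 1250) ^ 2 := by norm_num

/-- class B -/
theorem outR_lB {x n ρ w D z : ℝ} (hρ : 97 / 20 ≤ ρ) (h1 : ρ + 246 / 125 ≤ x)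
    (h2 : x ≤ ρ + 2043 / 1000) (hn0 : 0 ≤ n) (hn : Real.exp n ≤ 1 + 2043 / 1000 / ρ)
    (hw1 : 2533 / 2500 * (ρ + 1 / ρ) ≤ w) (hw2 : 499 / 10 / ρ ≤ w)
    (hz1 : 2199 / 2000 ≤ z) (hz2 : z ≤ 2749 / 2500)
    (hD0 : 0 < D) (hD : D ^ 2 ≤ 1 + x ^ 2) :
    tP (-1) x n w * Real.exp (w * (ta x - n) * z) ≤ 363 / 1000 * √(2 * Real.pi / (w * D)) := by
  have hρ0 : 0 < ρ := by linarith
  have hw0 : 0 < w := lt_of_lt_of_le (by positivity) hw2
  have hwρ : 499 / 10 ≤ w * ρ := by rwa [div_le_iff₀ hρ0] at hw2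
  obtain ⟨pi1, pi2⟩ := outR_pi
  have hnl : n ≤ 2043 / 1000 / ρ - (2043 / 1000 / ρ) ^ 2 / 2 + (2043 / 1000 / ρ) ^ 3 / 3 :=
    le_log3 (by positivity) hn
  have hn1 : n ≤ 143 / 400 := by
    have h3 : n ≤ 2043 / 1000 / (97 / 20) - (2043 / 1000 / (97 / 20)) ^ 2 / 2 +
        (2043 / 1000 / (97 / 20)) ^ 3 / 3 := by
      refine le_log3 (by norm_num) (hn.trans ?_)
      gcongr
    refine h3.trans ?_
    norm_num
  have hna : |n| = n := abs_of_nonneg hn0
  have hx : 3409 / 500 ≤ x := by linarith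
  have hq : 4659 / 10000 * x ≤ 473 / 1000 * x - 134 / 1000 * |n| := by rw [hna]; linarith
  have hx1 : 0 < 1 + x := by linarith
  have hcm : (1 + x)⁻¹ ≤ 16 / 125 := by
    rw [inv_le_comm₀ hx1 (by norm_num)]
    norm_num
    linarith
  have hC : (ρ + 3043 / 1000)⁻¹ ≤ (1 + x)⁻¹ := by
    apply inv_anti₀ hx1
    linarith
  refine outR_lump (κ := 1369 / 1250) (l := 678 / 625) (q1 := 4659 / 10000) (E := 2017 / 1000)
    (cm := 16 / 125) (K := 408361 / 10000) (Lp := 11 / 10) (by linarith)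
    hw0 (by norm_num) hD0 hcm (by norm_num) ?_ (by norm_num) hq
    (tm_neg_sq (by linarith) hn0 (by linarith)) (by norm_num) ?_ ?_ (by norm_num) ?_ ?_
  · refine (exp_five (by norm_num) (by norm_num)).trans ?_
    norm_num
  · have h5 : w * ρ ≤ w * x := by
      have : ρ ≤ x := by linarith
      gcongr
    norm_num at h5 ⊢
    linarith
  · refine (t2c_D (x0 := 3409 / 500) (T := 2 * (678 / 625) * (4659 / 10000)) (by norm_num) hx
      (by norm_num) hD (by norm_num)).trans (le_of_eq (by ring))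
  · have e3 : (650039 / 10000 + 408361 / 10000 : ℝ) = 2646 / 25 := by norm_num
    rw [e3]
    refine outR_red (w0 := 2533 / 2500 * (ρ + 1 / ρ)) (A0 := 133907 / 10000) (B0 := 518369 / 100000) hw1 ?_
      (by positivity) hC hcm (by norm_num) (by norm_num) (hn0.trans hnl) hnl (by linarith)
      (by norm_num) (by linarith) (by linarith) (by norm_num) (evR_B hρ)
    have : 0 < 1 / ρ := by positivity
    linarith
  · have h6 := exp_neg_le_of (k := 2) (t := 1 / 5) (L := 11 / 10)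
      (A := 1128 / 125) (by norm_num) (by norm_num) (by norm_num) (by norm_num)
    calc 1369 / 1250 * (678 / 625) * Real.exp (-(2 * (11 / 10))) ≤
        1369 / 1250 * (678 / 625) * (1 / (1128 / 125)) := by gcongr
      _ ≤ (363 / 1000) ^ 2 := by norm_num

/-- class A -/
theorem outR_lA {x n ρ w D z : ℝ} (hρ : 16 / 5 ≤ ρ) (h1 : ρ + 433 / 250 ≤ x)
    (h2 : x ≤ ρ + 377 / 200) (hn0 : 0 ≤ n) (hn : Real.exp n ≤ 1 + 377 / 200 / ρ)
    (hw1 : 2533 / 1250 * (ρ + 1 / ρ) ≤ w) (hw2 : 499 / 10 / ρ ≤ w)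
    (hz1 : 6283 / 5000 ≤ z) (hz2 : z ≤ 12567 / 10000)
    (hD0 : 0 < D) (hD : D ^ 2 ≤ 1 + x ^ 2) :
    tP (-1) x n w * Real.exp (w * (ta x - n) * z) ≤ 3719 / 10000 * √(2 * Real.pi / (w * D)) := by
  have hρ0 : 0 < ρ := by linarith
  have hw0 : 0 < w := lt_of_lt_of_le (by positivity) hw2
  have hwρ : 499 / 10 ≤ w * ρ := by rwa [div_le_iff₀ hρ0] at hw2
  obtain ⟨pi1, pi2⟩ := outR_pi
  have hnl : n ≤ 377 / 200 / ρ - (377 / 200 / ρ) ^ 2 / 2 + (377 / 200 / ρ) ^ 3 / 3 :=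
    le_log3 (by positivity) hn
  have hn1 : n ≤ 4837 / 10000 := by
    have h3 : n ≤ 377 / 200 / (16 / 5) - (377 / 200 / (16 / 5)) ^ 2 / 2 +
        (377 / 200 / (16 / 5)) ^ 3 / 3 := by
      refine le_log3 (by norm_num) (hn.trans ?_)
      gcongr
    refine h3.trans ?_
    norm_num
  have hna : |n| = n := abs_of_nonneg hn0
  have hx : 1233 / 250 ≤ x := by linarith
  have hq : 2299 / 5000 * x ≤ 473 / 1000 * x - 134 / 1000 * |n| := by rw [hna]; linarith
  have hx1 : 0 < 1 + x := by linarith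
  have hcm : (1 + x)⁻¹ ≤ 843 / 5000 := by
    rw [inv_le_comm₀ hx1 (by norm_num)]
    norm_num
    linarith
  have hC : (ρ + 577 / 200)⁻¹ ≤ (1 + x)⁻¹ := by
    apply inv_anti₀ hx1
    linarith
  refine outR_lump (κ := 2809 / 2500) (l := 11097 / 10000) (q1 := 2299 / 5000) (E := 25193 / 10000)
    (cm := 843 / 5000) (K := 555961 / 10000) (Lp := 11 / 10) (by linarith)
    hw0 (by norm_num) hD0 hcm (by norm_num) ?_ (by norm_num) hq
    (tm_neg_sq (by linarith) hn0 (by linarith)) (by norm_num) ?_ ?_ (by norm_num) ?_ ?_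
  · refine (exp_five (by norm_num) (by norm_num)).trans ?_
    norm_num
  · have h5 : w * ρ ≤ w * x := by
      have : ρ ≤ x := by linarith
      gcongr
    norm_num at h5 ⊢
    linarith
  · refine (t2c_D (x0 := 1233 / 250) (T := 2 * (11097 / 10000) * (2299 / 5000)) (by norm_num) hx
      (by norm_num) hD (by norm_num)).trans (le_of_eq (by ring))
  · have e3 : (650039 / 10000 + 555961 / 10000 : ℝ) = 603 / 5 := by norm_num
    rw [e3]
    refine outR_red (w0 := 2533 / 1250 * (ρ + 1 / ρ)) (A0 := 62649 / 5000) (B0 := 502659 / 100000) hw1 ?_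
      (by positivity) hC hcm (by norm_num) (by norm_num) (hn0.trans hnl) hnl (by linarith)
      (by norm_num) (by linarith) (by linarith) (by norm_num) (evR_A hρ)
    have : 0 < 1 / ρ := by positivity
    linarith
  · have h6 := exp_neg_le_of (k := 2) (t := 1 / 5) (L := 11 / 10)
      (A := 1128 / 125) (by norm_num) (by norm_num) (by norm_num) (by norm_num)
    calc 2809 / 2500 * (11097 / 10000) * Real.exp (-(2 * (11 / 10))) ≤
        2809 / 2500 * (11097 / 10000) * (1 / (1128 / 125)) := by gcongr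
      _ ≤ (3719 / 10000) ^ 2 := by norm_num

end SokalV3
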