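import Pool.Agent.Lib_MP_af4de1_v3.T2Com
import Pool.Agent.Lib_MP_af4de1_v3.Fix

/-!
# `N = 2`, `outR`: the core `|s| ≤ 3/2`

`c = 1/(1+x)`, `y = -n`, `n (1+x) ≤ 286/100`, `x ≥ 4932/1000`.
-/

set_option autoImplicit false

open MeasureTheory Set SokalU SokalPG SokalF1 SokalF1S SokalF1M SokalF1G SokalF1B SokalV3F

namespace SokalV3

/-! ### heights -/

theorem outR_cpos {x n s c κ : ℝ} (hc0 : 0 ≤ c) (hc1 : c ≤ 1686 / 10000) (hxc : x * c = 1 - c)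
    (hn0 : 0 ≤ n) (hn : n ≤ 286 / 100 * c) (h0 : 0 ≤ s) (h1 : s ≤ 3 / 2) (hκ0 : 0 ≤ κ)
    (h : 0 ≤ c ^ 2 + (1 - c) * ((1 / 2 - s ^ 2 / 24) - c ^ 2 / 2 - 3 / 10 * c ^ 3) -
      286 / 100 * c ^ 3 * (1 + 3 / 2 * c) - κ * (1 - c) / 2) (hcp : 0 < c) :
    κ * (x / 2) * s ^ 2 ≤ Ha x (-n) (c * s) s := by
  set b := c * s with hb
  have hb0 : 0 ≤ b := mul_nonneg hc0 h0
  have hb1 : b ≤ 1686 / 10000 * (3 / 2) := by rw [hb]; gcongr
  have hE : Real.exp b ≤ 1 + b + b ^ 2 / 2 + b ^ 3 / 5 := by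
    have := exp_five hb0 (by linarith)
    have h3 : 0 ≤ b ^ 3 := by positivity
    have h4 : b ^ 4 ≤ 1 / 3 * b ^ 3 := by nlinarith
    have h5 : b ^ 5 ≤ 1 / 3 * b ^ 3 := by nlinarith [pow_nonneg hb0 4]
    linarith
  set E := 1 + b + b ^ 2 / 2 + b ^ 3 / 5 with hEd
  have hs2 : s ^ 2 ≤ 9 / 4 := by nlinarith
  have hC4 : 0 ≤ 1 - s ^ 2 / 2 + s ^ 4 / 24 := C4_nonneg h0 h1
  have hC41 : 1 - s ^ 2 / 2 + s ^ 4 / 24 ≤ 1 := by nlinarith [sq_nonneg s]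
  have e1 : Real.exp b * Real.cos s ≤ E * (1 - s ^ 2 / 2 + s ^ 4 / 24) := ec_le h0 h1 hE
  have e2 : Real.exp b * Real.sin s ≤ E * s := by
    have := sin_le1 h0
    have h4 : Real.exp b * Real.sin s ≤ Real.exp b * s :=
      mul_le_mul_of_nonneg_left this (Real.exp_pos _).le
    exact h4.trans (mul_le_mul_of_nonneg_right hE h0)
  -- main term
  have m1 : (1 - c) * (s ^ 2 * ((1 / 2 - s ^ 2 / 24) - c ^ 2 / 2 - 3 / 10 * c ^ 3)) ≤
      (1 - c) * (1 + b - Real.exp b * Real.cos s) := by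
    refine mul_le_mul_of_nonneg_left ?_ (by linarith)
    have h5 : E * (1 - s ^ 2 / 2 + s ^ 4 / 24) ≤ (1 + b) * (1 - s ^ 2 / 2 + s ^ 4 / 24) +
        (b ^ 2 / 2 + b ^ 3 / 5) := by
      have h6 : (b ^ 2 / 2 + b ^ 3 / 5) * (1 - s ^ 2 / 2 + s ^ 4 / 24) ≤
          (b ^ 2 / 2 + b ^ 3 / 5) * 1 := by gcongr
      rw [hEd]
      linarith
    have h7 : 0 ≤ b * (s ^ 2 / 2 - s ^ 4 / 24) := by
      have : 0 ≤ s ^ 2 / 2 - s ^ 4 / 24 := by nlinarith [sq_nonneg s]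
      positivity
    have h8 : b ^ 3 / 5 ≤ 3 / 10 * c ^ 3 * s ^ 2 := by
      have : b ^ 3 = c ^ 3 * s ^ 2 * s := by rw [hb]; ring
      rw [this]
      have h9 : 0 ≤ c ^ 3 * s ^ 2 := by positivity
      nlinarith
    have h9 : b ^ 2 = c ^ 2 * s ^ 2 := by rw [hb]; ring
    rw [h9] at h5
    linarith
  have m2 : n * c * (Real.exp b * Real.sin s - s) ≤ 286 / 100 * c ^ 3 * (1 + 3 / 2 * c) * s ^ 2 := by
    have h5 : Real.exp b * Real.sin s - s ≤ (b + b ^ 2) * s := by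
      have h6 : E - 1 ≤ b + b ^ 2 := by
        rw [hEd]
        nlinarith [pow_nonneg hb0 2]
      have := mul_le_mul_of_nonneg_right h6 h0
      linarith
    have hnc : 0 ≤ n * c := by positivity
    calc n * c * (Real.exp b * Real.sin s - s) ≤ n * c * ((b + b ^ 2) * s) := by gcongr
      _ = n * c ^ 2 * (1 + c * s) * s ^ 2 := by rw [hb]; ring
      _ ≤ (286 / 100 * c) * c ^ 2 * (1 + c * (3 / 2)) * s ^ 2 := by gcongr
      _ = _ := by ring
  have m3 := mul_nonneg h (sq_nonneg s)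
  have key : c * (κ * (x / 2) * s ^ 2) ≤ c * Ha x (-n) (c * s) s := by
    unfold Ha
    rw [← hb]
    have e3 : c * (κ * (x / 2) * s ^ 2) = κ * (1 - c) / 2 * s ^ 2 := by rw [← hxc]; ring
    have e4 : c * (b * s - x * (Real.exp b * Real.cos s - 1 - b) +
        -n * (Real.exp b * Real.sin s - s)) = c ^ 2 * s ^ 2 +
        (1 - c) * (1 + b - Real.exp b * Real.cos s) - n * c * (Real.exp b * Real.sin s - s) := by
      rw [← hxc, hb]
      ring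
    rw [e3, e4]
    linarith
  exact le_of_mul_le_mul_left key hcp

theorem outR_cneg {x n u c κ U : ℝ} (hc0 : 0 ≤ c) (hc1 : c ≤ 1686 / 10000) (hxc : x * c = 1 - c)
    (hn0 : 0 ≤ n) (hn : n ≤ 286 / 100 * c) (h0 : 0 ≤ u) (h1 : u ≤ U) (hU : U ≤ 3 / 2)
    (h : 0 ≤ c ^ 2 + (1 - c) * ((1 - c * U) * (1 / 2 - U ^ 2 / 24) - c ^ 2 / 2) -
      286 / 100 * c ^ 2 * (c + U / 6) - κ * (1 - c) / 2) (hcp : 0 < c) :
    κ * (x / 2) * u ^ 2 ≤ Ha x (-n) (-(c * u)) (-u) := by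
  set b := c * u with hb
  have hb0 : 0 ≤ b := mul_nonneg hc0 h0
  have hu1 : u ≤ 3 / 2 := h1.trans hU
  have hU0 : 0 ≤ U := h0.trans h1
  have hb1 : b ≤ 1686 / 10000 * (3 / 2) := by rw [hb]; gcongr
  have hu2 : u ^ 2 ≤ 9 / 4 := by nlinarith
  have hC4 : 0 ≤ 1 - u ^ 2 / 2 + u ^ 4 / 24 := C4_nonneg h0 hu1
  have hC41 : 1 - u ^ 2 / 2 + u ^ 4 / 24 ≤ 1 := by nlinarith [sq_nonneg u]
  have e1 : Real.exp (-b) * Real.cos u ≤ (1 - b + b ^ 2 / 2) * (1 - u ^ 2 / 2 + u ^ 4 / 24) :=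
    ec_le h0 hu1 (en_le2 hb0)
  have e2 : (1 - b) * (u - u ^ 3 / 6) ≤ Real.exp (-b) * Real.sin u := by
    refine es_ge h0 hu1 ?_ (by linarith)
    have := Real.add_one_le_exp (-b)
    linarith
  have m1 : (1 - c) * (u ^ 2 * ((1 - c * U) * (1 / 2 - U ^ 2 / 24) - c ^ 2 / 2)) ≤
      (1 - c) * (1 - b - Real.exp (-b) * Real.cos u) := by
    refine mul_le_mul_of_nonneg_left ?_ (by linarith)
    have h6 : b ^ 2 / 2 * (1 - u ^ 2 / 2 + u ^ 4 / 24) ≤ b ^ 2 / 2 * 1 := by gcongr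
    have h9 : b ^ 2 = c ^ 2 * u ^ 2 := by rw [hb]; ring
    have h7 : (1 - c * U) * (1 / 2 - U ^ 2 / 24) ≤ (1 - c * u) * (1 / 2 - u ^ 2 / 24) := by
      have h10 : 1 - c * U ≤ 1 - c * u := by
        have := mul_le_mul_of_nonneg_left h1 hc0
        linarith
      have h11 : 1 / 2 - U ^ 2 / 24 ≤ 1 / 2 - u ^ 2 / 24 := by
        have : u ^ 2 ≤ U ^ 2 := by gcongr
        linarith
      have h12 : 0 ≤ 1 / 2 - U ^ 2 / 24 := by
        have : U ^ 2 ≤ (3 / 2) ^ 2 := by gcongr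
        linarith
      have h13 : 0 ≤ 1 - c * u := by rw [← hb]; linarith
      gcongr
    have h8 := mul_le_mul_of_nonneg_left h7 (sq_nonneg u)
    have h14 : u ^ 2 * ((1 - c * u) * (1 / 2 - u ^ 2 / 24)) =
        (1 - b) * (u ^ 2 / 2 - u ^ 4 / 24) := by rw [hb]; ring
    rw [h14] at h8
    have h15 : u ^ 2 * ((1 - c * U) * (1 / 2 - U ^ 2 / 24) - c ^ 2 / 2) =
        u ^ 2 * ((1 - c * U) * (1 / 2 - U ^ 2 / 24)) - b ^ 2 / 2 := by rw [h9]; ring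
    rw [h15]
    linarith
  have m2 : n * c * (u - Real.exp (-b) * Real.sin u) ≤ 286 / 100 * c ^ 2 * (c + U / 6) * u ^ 2 := by
    have h5 : u - Real.exp (-b) * Real.sin u ≤ (c + U / 6) * u ^ 2 := by
      have h6 : u - (1 - b) * (u - u ^ 3 / 6) ≤ b * u + u ^ 3 / 6 := by
        have : 0 ≤ b * u ^ 3 := by positivity
        nlinarith
      have h7 : u ^ 3 / 6 ≤ U / 6 * u ^ 2 := by
        have : u * u ^ 2 ≤ U * u ^ 2 := mul_le_mul_of_nonneg_right h1 (sq_nonneg u)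
        nlinarith
      have h8 : b * u = c * u ^ 2 := by rw [hb]; ring
      linarith
    have hnc : 0 ≤ n * c := by positivity
    calc n * c * (u - Real.exp (-b) * Real.sin u) ≤ n * c * ((c + U / 6) * u ^ 2) := by gcongr
      _ ≤ (286 / 100 * c) * c * ((c + U / 6) * u ^ 2) := by gcongr
      _ = _ := by ring
  have m3 := mul_nonneg h (sq_nonneg u)
  have key : c * (κ * (x / 2) * u ^ 2) ≤ c * Ha x (-n) (-(c * u)) (-u) := by
    unfold Ha
    rw [← hb, Real.cos_neg, Real.sin_neg]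
    have e3 : c * (κ * (x / 2) * u ^ 2) = κ * (1 - c) / 2 * u ^ 2 := by rw [← hxc]; ring
    have e4 : c * (-b * -u - x * (Real.exp (-b) * Real.cos u - 1 - -b) +
        -n * (Real.exp (-b) * -Real.sin u - -u)) = c ^ 2 * u ^ 2 +
        (1 - c) * (1 - b - Real.exp (-b) * Real.cos u) -
          n * c * (u - Real.exp (-b) * Real.sin u) := by
      rw [← hxc, hb]
      ring
    rw [e3, e4]
    linarith
  exact le_of_mul_le_mul_left key hcp

/-- the two bounds; `κ = 81/100` in general -/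
theorem outR_core_H {x n s κ cm : ℝ} (hcm : cm ≤ 1686 / 10000) (hx : (1 + x)⁻¹ ≤ cm) (hx0 : 0 < x)
    (hn0 : 0 ≤ n) (hn : n * (1 + x) ≤ 286 / 100) (hκ0 : 0 ≤ κ) (hκ1 : κ ≤ 9 / 10)
    (hκ : ∀ c : ℝ, 0 ≤ c → c ≤ cm → 0 ≤ (4765 / 10000 - κ / 2) - (8339 / 10000 - κ / 2) * c +
      4999 / 10000 * c ^ 2 - 236 / 100 * c ^ 3) :
    (|s| ≤ 3 / 4 → κ * (x / 2) * s ^ 2 ≤ Ha x (-n) ((1 + x)⁻¹ * s) s) ∧
    (|s| ≤ 3 / 2 → 1 / 2 * (x / 2) * s ^ 2 ≤ Ha x (-n) ((1 + x)⁻¹ * s) s) := by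
  have hx1 : 0 < 1 + x := by linarith
  set c := (1 + x)⁻¹ with hcd
  have hc0 : 0 < c := inv_pos.2 hx1
  have hc1 : c ≤ 1686 / 10000 := hx.trans hcm
  have hxc : x * c = 1 - c := by
    have : (1 + x) * c = 1 := mul_inv_cancel₀ hx1.ne'
    linarith
  have hnc : n ≤ 286 / 100 * c := by
    have h1 : n * (1 + x) * c ≤ 286 / 100 * c := by gcongr
    have h2 : n * (1 + x) * c = n := by
      rw [mul_assoc, mul_inv_cancel₀ hx1.ne', mul_one]
    linarith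
  have hc2 : c ^ 2 ≤ 1686 / 10000 * c := by nlinarith
  have hc3 : c ^ 3 ≤ (1686 / 10000) ^ 2 * c := by nlinarith [sq_nonneg c]
  have hc30 : 0 ≤ c ^ 3 := by positivity
  have hc20 : 0 ≤ c ^ 2 := by positivity
  have hk := hκ c hc0.le hx
  constructor
  · intro hs
    rcases le_total 0 s with h0 | h0
    · rw [abs_of_nonneg h0] at hs
      refine outR_cpos hc0.le hc1 hxc hn0 hnc h0 (by linarith) hκ0 ?_ hc0
      have hs2 : s ^ 2 ≤ 9 / 16 := by nlinarith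
      have h5 : (1 - c) * (1 / 2 - 9 / 16 / 24 - c ^ 2 / 2 - 3 / 10 * c ^ 3) ≤
          (1 - c) * (1 / 2 - s ^ 2 / 24 - c ^ 2 / 2 - 3 / 10 * c ^ 3) := by
        refine mul_le_mul_of_nonneg_left ?_ (by linarith)
        linarith
      have h6 : 0 ≤ c ^ 4 := by positivity
      have h7 : c ^ 4 ≤ 1686 / 10000 * c ^ 3 := by nlinarith
      nlinarith
    · have h0' : 0 ≤ -s := by linarith
      rw [abs_of_nonpos h0] at hs
      have := outR_cneg (κ := κ) hc0.le hc1 hxc hn0 hnc h0' hs (by norm_num) ?_ hc0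
      · have e : -(c * -s) = c * s := by ring
        rw [e, neg_neg] at this
        have e2 : (-s) ^ 2 = s ^ 2 := by ring
        rwa [e2] at this
      · have h6 : 0 ≤ c ^ 4 := by positivity
        nlinarith
  · intro hs
    rcases le_total 0 s with h0 | h0
    · rw [abs_of_nonneg h0] at hs
      refine outR_cpos hc0.le hc1 hxc hn0 hnc h0 hs (by norm_num) ?_ hc0
      have hs2 : s ^ 2 ≤ 9 / 4 := by nlinarith
      have h5 : (1 - c) * (1 / 2 - 9 / 4 / 24 - c ^ 2 / 2 - 3 / 10 * c ^ 3) ≤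
          (1 - c) * (1 / 2 - s ^ 2 / 24 - c ^ 2 / 2 - 3 / 10 * c ^ 3) := by
        refine mul_le_mul_of_nonneg_left ?_ (by linarith)
        linarith
      have h6 : 0 ≤ c ^ 4 := by positivity
      have h7 : c ^ 4 ≤ 1686 / 10000 * c ^ 3 := by nlinarith
      nlinarith
    · have h0' : 0 ≤ -s := by linarith
      rw [abs_of_nonpos h0] at hs
      have := outR_cneg (κ := 1 / 2) hc0.le hc1 hxc hn0 hnc h0' hs (by norm_num) ?_ hc0
      · have e : -(c * -s) = c * s := by ring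
        rw [e, neg_neg] at this
        have e2 : (-s) ^ 2 = s ^ 2 := by ring
        rwa [e2] at this
      · have h6 : 0 ≤ c ^ 4 := by positivity
        nlinarith

end SokalV3
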