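import Mathlib

/-!
# `N = 2` tails: the integral over one half line (linear + periodic height beyond `137/25`)
-/

set_option autoImplicit false

open MeasureTheory Set Real

namespace SokalV3

theorem t2_quasi {F : ℝ → ℝ} {s0 T q : ℝ} (hT : 0 < T) (hF : IntegrableOn F (Ici s0))
    (hq : q < 1) (h : ∀ s, s0 ≤ s → F (s + T) ≤ q * F s) :
    ∫ s in Ici s0, F s ≤ 1 / (1 - q) * ∫ s in Ico s0 (s0 + T), F s := by
  have hle : s0 ≤ s0 + T := by linarith
  have d : Disjoint (Ico s0 (s0 + T)) (Ici (s0 + T)) := by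
    rw [Set.disjoint_left]
    intro x hx hx2
    exact absurd hx.2 (not_lt.2 hx2)
  have i1 : IntegrableOn F (Ico s0 (s0 + T)) := hF.mono_set Ico_subset_Ici_self
  have i2 : IntegrableOn F (Ici (s0 + T)) := hF.mono_set (Ici_subset_Ici.2 hle)
  have e2 : ∫ s in Ici s0, F s = (∫ s in Ico s0 (s0 + T), F s) + ∫ s in Ici (s0 + T), F s := by
    rw [← setIntegral_union d measurableSet_Ici i1 i2, Ico_union_Ici_eq_Ici hle]
  have hpre : (fun x : ℝ => x + T) ⁻¹' Ici (s0 + T) = Ici s0 := by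
    ext x
    simp
  have mp := measurePreserving_add_right (volume : Measure ℝ) T
  have e3 : ∫ s in Ici s0, F (s + T) = ∫ s in Ici (s0 + T), F s := by
    rw [← hpre]
    exact mp.setIntegral_preimage_emb (measurableEmbedding_addRight T) F (Ici (s0 + T))
  have i3 : IntegrableOn (fun s => F (s + T)) (Ici s0) := by
    rw [← hpre]
    exact (mp.integrableOn_comp_preimage (measurableEmbedding_addRight T)).2 i2
  have e4 : ∫ s in Ici s0, F (s + T) ≤ ∫ s in Ici s0, q * F s :=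
    setIntegral_mono_on i3 (hF.const_mul q) measurableSet_Ici fun s hs => h s hs
  rw [integral_const_mul] at e4
  have hq' : 0 < 1 - q := by linarith
  rw [one_div, inv_mul_eq_div, le_div_iff₀ hq']
  rw [e3] at e4
  linarith

theorem t2_const {F : ℝ → ℝ} {a b A : ℝ} (hab : a ≤ b) (hF : IntegrableOn F (Ico a b))
    (h : ∀ s, a ≤ s → s ≤ b → F s ≤ A) : ∫ s in Ico a b, F s ≤ (b - a) * A := by
  have e1 : ∫ s in Ico a b, F s ≤ ∫ _ in Ico a b, A :=
    setIntegral_mono_on hF (integrableOn_const (by simp)) measurableSet_Ico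
      fun s hs => h s hs.1 hs.2.le
  refine e1.trans (le_of_eq ?_)
  rw [setIntegral_const, Real.volume_real_Ico_of_le hab, smul_eq_mul]

theorem t2_sq {m μ u : ℝ} (hμ : 0 < μ) :
    -(m * u + μ * u ^ 2) = m ^ 2 / (4 * μ) + -μ * (u + m / (2 * μ)) ^ 2 := by
  field_simp
  ring

theorem t2_gint {m μ : ℝ} (hμ : 0 < μ) :
    Integrable fun u : ℝ => exp (-(m * u + μ * u ^ 2)) := by
  have h1 : (fun u : ℝ => exp (-(m * u + μ * u ^ 2))) =
      fun u : ℝ => exp (m ^ 2 / (4 * μ)) * exp (-μ * (u + m / (2 * μ)) ^ 2) := by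
    funext u
    rw [t2_sq hμ, exp_add]
  rw [h1]
  exact ((integrable_exp_neg_mul_sq hμ).comp_add_right (m / (2 * μ))).const_mul _

theorem t2_gauss {m μ : ℝ} (hμ : 0 < μ) :
    ∫ u : ℝ, exp (-(m * u + μ * u ^ 2)) = √(π / μ) * exp (m ^ 2 / (4 * μ)) := by
  have h1 : (fun u : ℝ => exp (-(m * u + μ * u ^ 2))) =
      fun u : ℝ => exp (m ^ 2 / (4 * μ)) * exp (-μ * (u + m / (2 * μ)) ^ 2) := by
    funext u
    rw [t2_sq hμ, exp_add]
  rw [h1, integral_const_mul, integral_add_right_eq_self (fun u : ℝ => exp (-μ * u ^ 2)),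
    integral_gaussian, mul_comm]

theorem t2_side {F : ℝ → ℝ} {A1 A3 C2 m μ q : ℝ} (hF : IntegrableOn F (Ici (3 / 2)))
    (hA1 : 0 ≤ A1) (hA3 : 0 ≤ A3) (hC : 0 ≤ C2) (hμ : 0 < μ) (hq : q < 1)
    (h1 : ∀ s, 3 / 2 ≤ s → s ≤ 137 / 25 → F s ≤ A1)
    (h2 : ∀ φ, 137 / 25 - 2 * π ≤ φ → φ ≤ 4 / 5 →
      F (2 * π + φ) ≤ C2 * exp (-(m * φ + μ * φ ^ 2)))
    (h3 : ∀ φ, 4 / 5 ≤ φ → φ ≤ 137 / 25 → F (2 * π + φ) ≤ A3)
    (h4 : ∀ s, 137 / 25 ≤ s → F (s + 2 * π) ≤ q * F s) :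
    ∫ s in Ici (3 / 2), F s ≤
      4 * A1 + 1 / (1 - q) * (C2 * (√(π / μ) * exp (m ^ 2 / (4 * μ))) + 47 / 10 * A3) := by
  have hpi := Real.pi_gt_d4
  have hpi2 := Real.pi_lt_d4
  norm_num at hpi hpi2
  have hle : (3 / 2 : ℝ) ≤ 137 / 25 := by norm_num
  have d : Disjoint (Ico (3 / 2 : ℝ) (137 / 25)) (Ici (137 / 25)) := by
    rw [Set.disjoint_left]
    intro x hx hx2
    exact absurd hx.2 (not_lt.2 hx2)
  have i1 : IntegrableOn F (Ico (3 / 2) (137 / 25)) := hF.mono_set Ico_subset_Ici_self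
  have i2 : IntegrableOn F (Ici (137 / 25)) := hF.mono_set (Ici_subset_Ici.2 hle)
  have e2 : ∫ s in Ici (3 / 2), F s = (∫ s in Ico (3 / 2) (137 / 25), F s) +
      ∫ s in Ici (137 / 25), F s := by
    rw [← setIntegral_union d measurableSet_Ici i1 i2, Ico_union_Ici_eq_Ici hle]
  have b1 : ∫ s in Ico (3 / 2) (137 / 25), F s ≤ 4 * A1 := by
    refine (t2_const hle i1 h1).trans ?_
    have : (137 / 25 - 3 / 2 : ℝ) ≤ 4 := by norm_num
    exact mul_le_mul_of_nonneg_right this hA1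
  have b2 := t2_quasi (by positivity : (0 : ℝ) < 2 * π) i2 hq h4
  have hq' : 0 < 1 - q := by linarith
  -- the first period
  have hle1 : (137 / 25 : ℝ) ≤ 2 * π + 4 / 5 := by linarith
  have hle2 : 2 * π + 4 / 5 ≤ 137 / 25 + 2 * π := by linarith
  have d2 : Disjoint (Ico (137 / 25 : ℝ) (2 * π + 4 / 5)) (Ico (2 * π + 4 / 5) (137 / 25 + 2 * π)) := by
    rw [Set.disjoint_left]
    intro x hx hx2
    exact absurd hx.2 (not_lt.2 hx2.1)
  have i3 : IntegrableOn F (Ico (137 / 25) (2 * π + 4 / 5)) := i2.mono_set Ico_subset_Ici_self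
  have i4 : IntegrableOn F (Ico (2 * π + 4 / 5) (137 / 25 + 2 * π)) :=
    i2.mono_set fun x hx => mem_Ici.2 (hle1.trans hx.1)
  have e3 : ∫ s in Ico (137 / 25) (137 / 25 + 2 * π), F s =
      (∫ s in Ico (137 / 25) (2 * π + 4 / 5), F s) +
      ∫ s in Ico (2 * π + 4 / 5) (137 / 25 + 2 * π), F s := by
    rw [← setIntegral_union d2 measurableSet_Ico i3 i4, Ico_union_Ico_eq_Ico hle1 hle2]
  have b3 : ∫ s in Ico (2 * π + 4 / 5) (137 / 25 + 2 * π), F s ≤ 47 / 10 * A3 := by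
    refine (t2_const (A := A3) hle2 i4 fun s hs1 hs2 => ?_).trans ?_
    · have := h3 (s - 2 * π) (by linarith) (by linarith)
      rwa [add_sub_cancel] at this
    · have : (137 / 25 + 2 * π - (2 * π + 4 / 5) : ℝ) ≤ 47 / 10 := by
        have : (137 / 25 + 2 * π - (2 * π + 4 / 5) : ℝ) = 117 / 25 := by ring
        rw [this]
        norm_num
      exact mul_le_mul_of_nonneg_right this hA3
  have hg := t2_gint (m := m) hμ
  have hg2 : Integrable fun s : ℝ => C2 * exp (-(m * (s - 2 * π) + μ * (s - 2 * π) ^ 2)) :=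
    (hg.comp_sub_right (2 * π)).const_mul C2
  have b4 : ∫ s in Ico (137 / 25) (2 * π + 4 / 5), F s ≤
      C2 * (√(π / μ) * exp (m ^ 2 / (4 * μ))) := by
    calc ∫ s in Ico (137 / 25) (2 * π + 4 / 5), F s ≤
        ∫ s in Ico (137 / 25) (2 * π + 4 / 5),
          C2 * exp (-(m * (s - 2 * π) + μ * (s - 2 * π) ^ 2)) := by
          refine setIntegral_mono_on i3 hg2.integrableOn measurableSet_Ico fun s hs => ?_
          have := h2 (s - 2 * π) (by linarith [hs.1]) (by linarith [hs.2])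
          rwa [add_sub_cancel] at this
      _ ≤ ∫ s : ℝ, C2 * exp (-(m * (s - 2 * π) + μ * (s - 2 * π) ^ 2)) :=
          setIntegral_le_integral hg2 (Filter.Eventually.of_forall fun s => by positivity)
      _ = C2 * (√(π / μ) * exp (m ^ 2 / (4 * μ))) := by
          rw [integral_const_mul,
            integral_sub_right_eq_self (fun u : ℝ => exp (-(m * u + μ * u ^ 2))), t2_gauss hμ]
  rw [e2]
  refine add_le_add b1 (b2.trans ?_)
  rw [e3]
  refine mul_le_mul_of_nonneg_left (add_le_add b4 b3) (by positivity)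

end SokalV3
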