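import Pool.Agent.Lib_MP_af4de1_v3.T2Wt
import Pool.Agent.Lib_MP_af4de1_v3.T2Int

/-!
# `N = 2` tails: one half line
-/

set_option autoImplicit false

open Complex MeasureTheory Set SokalU SokalPG SokalF1 SokalF1S SokalF1M SokalF1G SokalF1B

namespace SokalV3

/-- bounds for a weight -/
structure WtB (w : ℂ → ℂ) (K B1 B2 B3 Q : ℝ) : Prop where
  wt : Wt w K
  b1 : 0 ≤ B1
  b2 : 0 ≤ B2
  b3 : 0 ≤ B3
  q : 0 ≤ Q
  p1 : ∀ u t : ℝ, |u| ≤ 1 → |t| ≤ 137 / 25 → ‖w ((u : ℂ) + t * I)‖ ≤ B1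
  p2 : ∀ ε a φ : ℝ, (ε = 1 ∨ ε = -1) → 0 ≤ a → a ≤ 1 → |φ| ≤ 8035 / 10000 →
    ‖w (((ε * a : ℝ) : ℂ) + ((ε * (2 * Real.pi + φ) : ℝ) : ℂ) * I)‖ ≤ B2 * Real.exp (φ ^ 2)
  p3 : ∀ u t : ℝ, |u| ≤ 1 → |t| ≤ 2 * Real.pi + 137 / 25 → ‖w ((u : ℂ) + t * I)‖ ≤ B3
  p4 : ∀ ε u t : ℝ, (ε = 1 ∨ ε = -1) → |u| ≤ 1 → 137 / 25 ≤ |t| →
    ‖w ((u : ℂ) + (t + ε * (2 * Real.pi) : ℝ) * I)‖ ≤ Q * ‖w ((u : ℂ) + t * I)‖

theorem t2_pc {ε c s1 s : ℝ} (hε : ε = 1 ∨ ε = -1) (hc : 0 ≤ c) (hs1 : 0 ≤ s1) (hs : 0 ≤ s) :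
    pc c s1 (ε * s) = ε * min (c * s1) (c * s) := by
  have h1 : 0 ≤ c * s1 := mul_nonneg hc hs1
  have h2 : 0 ≤ c * s := mul_nonneg hc hs
  unfold pc
  rcases hε with rfl | rfl
  · rw [one_mul, one_mul, max_eq_right]
    exact le_min (by linarith) (by linarith)
  · rw [neg_one_mul, neg_one_mul, mul_neg, min_eq_right (by linarith), ← max_neg_neg]

theorem t2_pv1 {ε c s1 s : ℝ} (hε : ε = 1 ∨ ε = -1) (hs1 : 0 ≤ s1) (hs : s1 ≤ s) :
    ‖pv c s1 (ε * s)‖ = 1 := by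
  have h : |ε * s| = s := by
    rcases hε with rfl | rfl
    · rw [one_mul, abs_of_nonneg (hs1.trans hs)]
    · rw [neg_one_mul, abs_neg, abs_of_nonneg (hs1.trans hs)]
  unfold pv
  rw [if_neg (by rw [h]; exact not_lt.2 hs), norm_one]

theorem t2_pv2 {c s1 s : ℝ} (hc : 0 ≤ c) (hc1 : c ≤ 2 / 5) : ‖pv c s1 s‖ ≤ 108 / 100 := by
  unfold pv
  split_ifs
  · refine abs_le_of_sq_le_sq' ?_ (by norm_num) |>.2
    have h : (1 - (c : ℂ) * I) = ((1 : ℝ) : ℂ) + ((-c : ℝ) : ℂ) * I := by push_cast; ring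
    rw [h, Complex.sq_norm, Complex.normSq_add_mul_I]
    nlinarith
  · rw [norm_one]
    norm_num

theorem t2_Hs {ε x y a s : ℝ} (hε : ε = 1 ∨ ε = -1) :
    Ha x y (ε * a) (ε * s) = Hs ε x (ε * y) a s := by
  rcases hε with rfl | rfl
  · rw [one_mul, one_mul, one_mul, Hs_pos]
  · rw [neg_one_mul, neg_one_mul, neg_one_mul, Hs_neg]

/-- the integrand on one side -/
theorem t2_gi {ε x y δ s1 s : ℝ} (hε : ε = 1 ∨ ε = -1) (hx : 0 ≤ x) (hδ : 0 < δ) (hs1 : 0 ≤ s1)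
    (hs : 0 ≤ s) (w : ℂ → ℂ) :
    ‖gi (1 + x)⁻¹ s1 w (((x : ℂ) + y * I) / δ) 0 (-((δ : ℂ) * I)) (ε * s)‖ =
      ‖pv (1 + x)⁻¹ s1 (ε * s)‖ *
        (‖w (((ε * min ((1 + x)⁻¹ * s1) ((1 + x)⁻¹ * s) : ℝ) : ℂ) + ((ε * s : ℝ) : ℂ) * I)‖ *
          Real.exp (-(1 / δ * Hs ε x (ε * y) (min ((1 + x)⁻¹ * s1) ((1 + x)⁻¹ * s)) s))) := by
  have hc : 0 ≤ (1 + x)⁻¹ := inv_nonneg.2 (by linarith)
  unfold gi
  rw [norm_mul, norm_mul]
  have h : pz (1 + x)⁻¹ s1 (ε * s) =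
      ((ε * min ((1 + x)⁻¹ * s1) ((1 + x)⁻¹ * s) : ℝ) : ℂ) + ((ε * s : ℝ) : ℂ) * I := by
    unfold pz
    rw [t2_pc hε hc hs1 hs]
  rw [h, norm_f_K hδ, t2_Hs hε, div_eq_mul_one_div, mul_comm (Hs _ _ _ _ _) (1 / δ)]

theorem t2_ts {x : ℝ} (hx : 0 ≤ x) : 0 < ts x ∧ ts x ≤ 137 / 25 ∧ ts x ≤ 1 + x ∧
    0 ≤ ta x ∧ ta x ≤ 1 := by
  have h1 : 0 < 1 + x := by linarith
  have h2 : 0 < ts x := lt_min (by norm_num) h1
  have h3 : ts x ≤ 1 + x := min_le_right _ _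
  refine ⟨h2, min_le_left _ _, h3, ?_, ?_⟩
  · unfold ta
    positivity
  · unfold ta
    rw [inv_mul_eq_div, div_le_one h1]
    exact h3

theorem t2_min1 {x s : ℝ} (hx : 0 ≤ x) (hs : s ≤ 137 / 25) :
    min ((1 + x)⁻¹ * ts x) ((1 + x)⁻¹ * s) = min 1 ((1 + x)⁻¹ * s) := by
  have h1 : 0 < 1 + x := by linarith
  have hc : 0 ≤ (1 + x)⁻¹ := inv_nonneg.2 h1.le
  have h2 : (1 + x)⁻¹ * ts x = min ((1 + x)⁻¹ * (137 / 25)) 1 := by
    unfold ts
    rw [mul_min_of_nonneg _ _ hc, inv_mul_cancel₀ h1.ne']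
  have h3 : (1 + x)⁻¹ * s ≤ (1 + x)⁻¹ * (137 / 25) := mul_le_mul_of_nonneg_left hs hc
  rw [h2, min_assoc, min_eq_right ((min_le_right _ _).trans h3)]

theorem t2_min2 {x s : ℝ} (hx : 0 ≤ x) (hs : 137 / 25 ≤ s) :
    min ((1 + x)⁻¹ * ts x) ((1 + x)⁻¹ * s) = ta x := by
  have h1 : 0 < 1 + x := by linarith
  have hc : 0 ≤ (1 + x)⁻¹ := inv_nonneg.2 h1.le
  have h2 : (1 + x)⁻¹ * ts x ≤ (1 + x)⁻¹ * s :=
    mul_le_mul_of_nonneg_left ((min_le_left _ _).trans hs) hc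
  rw [min_eq_left h2]
  rfl

theorem t2_q {L : ℝ} (h : 6 / 5 ≤ L) : Real.exp (-(2 * Real.pi * L)) ≤ 54 / 100000 := by
  obtain ⟨p1, _⟩ := t2_pi
  have h1 : (75397 / 10000 : ℝ) ≤ 2 * Real.pi * L := by
    calc (75397 / 10000 : ℝ) ≤ 62831 / 10000 * (6 / 5) := by norm_num
      _ ≤ 2 * Real.pi * L := by gcongr
  have h2 : Real.exp (-(2 * Real.pi * L)) ≤ Real.exp (-(75397 / 10000)) :=
    Real.exp_le_exp.2 (by linarith)
  refine h2.trans ?_
  rw [Real.exp_neg]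
  have h3 : (100000 / 54 : ℝ) ≤ Real.exp (75397 / 10000) := by
    have e1 : (2718 / 1000 : ℝ) ≤ Real.exp 1 := by
      have := Real.exp_one_gt_d9
      norm_num at this ⊢
      linarith
    have e2 : (75397 / 10000 : ℝ) = (7 : ℕ) * 1 + 5397 / 10000 := by norm_num
    have e3 := Real.add_one_le_exp (5397 / 20000 : ℝ)
    have e4 : Real.exp (5397 / 10000) = Real.exp (5397 / 20000) ^ 2 := by
      rw [← Real.exp_nat_mul]
      norm_num
    have e5 := Real.quadratic_le_exp_of_nonneg (x := 5397 / 20000) (by norm_num)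
    rw [e2, Real.exp_add, Real.exp_nat_mul, e4]
    calc (100000 / 54 : ℝ) ≤ (2718 / 1000) ^ 7 * (1 + 5397 / 20000 + (5397 / 20000) ^ 2 / 2) ^ 2 := by
          norm_num
      _ ≤ Real.exp 1 ^ 7 * Real.exp (5397 / 20000) ^ 2 := by gcongr
  rw [inv_le_comm₀ (Real.exp_pos _) (by norm_num)]
  refine le_trans ?_ h3
  norm_num

/-- One half line. -/
theorem t2_half {w : ℂ → ℂ} {K B1 B2 B3 Q ε r δ x y : ℝ} (hw : WtB w K B1 B2 B3 Q)
    (hε : ε = 1 ∨ ε = -1) (hx : 3 / 2 ≤ x) (hδ : 0 < δ) (hy : |y| < ta x)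
    (hT : TH ε x (ε * y) (1 / δ) (r * δ)) (hQ : Q * (54 / 100000) < 1) :
    ∫ s in Ici (3 / 2),
      ‖gi (1 + x)⁻¹ (ts x) w (((x : ℂ) + y * I) / δ) 0 (-((δ : ℂ) * I)) (ε * s)‖ ≤
      4 * (108 / 100 * (B1 * Real.exp (-(23 / 100 * r)))) +
      1 / (1 - Q * (54 / 100000)) *
        (B2 * tP ε x (ε * y) (1 / δ) + 47 / 10 * (B3 * Real.exp (-(1 / 4 * r)))) := by
  have hx0 : 0 ≤ x := by linarith
  have h1x : 0 < 1 + x := by linarith
  obtain ⟨ts0, ts1, ts2, ta0, ta1⟩ := t2_ts hx0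
  obtain ⟨p1, p2⟩ := t2_pi
  have hc0 : 0 < (1 + x)⁻¹ := inv_pos.2 h1x
  have hc1 : (1 + x)⁻¹ ≤ 2 / 5 := by
    rw [inv_le_comm₀ h1x (by norm_num)]
    norm_num
    linarith
  have hcs : (1 + x)⁻¹ * ts x ≤ 1 := ta1
  have hk : |(((x : ℂ) + y * I) / δ : ℂ).im| < (1 + x)⁻¹ * ts x / δ := by
    have e : (((x : ℂ) + y * I) / δ : ℂ) = ((1 / δ : ℝ) : ℂ) * ((x : ℂ) + y * I) := by
      push_cast; ring
    have e2 : ((x : ℂ) + y * I).im = y := by simp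
    rw [e, Complex.im_ofReal_mul, e2, abs_mul, abs_of_pos (by positivity : 0 < 1 / δ), one_div,
      inv_mul_eq_div]
    exact div_lt_div_of_pos_right hy hδ
  have hwd : 1 / δ * (r * δ) = r := by field_simp
  have hw0 : 0 < 1 / δ := by positivity
  have hint : Integrable fun s : ℝ =>
      ‖gi (1 + x)⁻¹ (ts x) w (((x : ℂ) + y * I) / δ) 0 (-((δ : ℂ) * I)) (ε * s)‖ := by
    have h := (int_gi hc0 ts0 hcs hδ hk hw.wt).norm
    rcases hε with rfl | rfl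
    · simpa using h
    · simpa using h.comp_neg
  have hmu := hT.mu
  have hside := t2_side
    (F := fun s : ℝ => ‖gi (1 + x)⁻¹ (ts x) w (((x : ℂ) + y * I) / δ) 0 (-((δ : ℂ) * I)) (ε * s)‖)
    (A1 := 108 / 100 * (B1 * Real.exp (-(23 / 100 * r)))) (A3 := B3 * Real.exp (-(1 / 4 * r)))
    (C2 := B2 * Real.exp (-(1 / δ * tH ε x (ε * y)))) (m := 1 / δ * tm ε x (ε * y))
    (μ := 1 / δ * tμ ε x (ε * y) - 1) (q := Q * (54 / 100000)) hint.integrableOn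
    (by have := hw.b1; positivity) (by have := hw.b3; positivity) (by have := hw.b2; positivity)
    (by linarith) hQ ?_ ?_ ?_ ?_
  · refine hside.trans (le_of_eq ?_)
    have e1 : Real.exp ((1 / δ * tm ε x (ε * y)) ^ 2 / (4 * (1 / δ * tμ ε x (ε * y) - 1)) -
        1 / δ * tH ε x (ε * y)) =
        Real.exp ((1 / δ * tm ε x (ε * y)) ^ 2 / (4 * (1 / δ * tμ ε x (ε * y) - 1))) *
          Real.exp (-(1 / δ * tH ε x (ε * y))) := by
      rw [← Real.exp_add]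
      congr 1
    unfold tP
    rw [e1]
    ring
  · -- the middle part
    intro s hs1 hs2
    have hs0 : 0 ≤ s := by linarith
    rw [t2_gi hε hx0 hδ ts0.le hs0, t2_min1 hx0 hs2]
    have hm0 : 0 ≤ min 1 ((1 + x)⁻¹ * s) := le_min (by norm_num) (by positivity)
    have hm1 : min 1 ((1 + x)⁻¹ * s) ≤ 1 := min_le_left _ _
    have hb : ‖w (((ε * min 1 ((1 + x)⁻¹ * s) : ℝ) : ℂ) + ((ε * s : ℝ) : ℂ) * I)‖ ≤ B1 := by
      refine hw.p1 _ _ ?_ ?_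
      · rcases hε with rfl | rfl
        · rw [one_mul, abs_of_nonneg hm0]; exact hm1
        · rw [neg_one_mul, abs_neg, abs_of_nonneg hm0]; exact hm1
      · rcases hε with rfl | rfl
        · rw [one_mul, abs_of_nonneg hs0]; exact hs2
        · rw [neg_one_mul, abs_neg, abs_of_nonneg hs0]; exact hs2
    have he : Real.exp (-(1 / δ * Hs ε x (ε * y) (min 1 ((1 + x)⁻¹ * s)) s)) ≤
        Real.exp (-(23 / 100 * r)) := by
      refine Real.exp_le_exp.2 (neg_le_neg ?_)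
      have := mul_le_mul_of_nonneg_left (hT.p1 s hs1 hs2) hw0.le
      linarith [this, hwd]
    have hpv := t2_pv2 (s1 := ts x) (s := ε * s) hc0.le hc1
    have hb1 := hw.b1
    gcongr
  · -- the lump
    intro φ hφ1 hφ2
    have hφ : |φ| ≤ 8035 / 10000 := by
      rw [abs_le]
      constructor
      · linarith
      · linarith
    have hs3 : 137 / 25 ≤ 2 * Real.pi + φ := by linarith
    rw [t2_gi hε hx0 hδ ts0.le (by linarith), t2_min2 hx0 hs3,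
      t2_pv1 hε ts0.le (ts1.trans hs3), one_mul]
    have hb := hw.p2 ε (ta x) φ hε ta0 ta1 hφ
    have hH := mul_le_mul_of_nonneg_left (t2_lump_H (ε := ε) (v := ε * y) (a := ta x) hx0 hφ) hw0.le
    have he : Real.exp (φ ^ 2) * Real.exp (-(1 / δ * Hs ε x (ε * y) (ta x) (2 * Real.pi + φ))) ≤
        Real.exp (-(1 / δ * tH ε x (ε * y))) * Real.exp (-(1 / δ * tm ε x (ε * y) * φ +
          (1 / δ * tμ ε x (ε * y) - 1) * φ ^ 2)) := by
      rw [← Real.exp_add, ← Real.exp_add]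
      refine Real.exp_le_exp.2 ?_
      unfold tH tm tμ
      linarith
    have hE := Real.exp_pos (-(1 / δ * Hs ε x (ε * y) (ta x) (2 * Real.pi + φ)))
    calc ‖w (((ε * ta x : ℝ) : ℂ) + ((ε * (2 * Real.pi + φ) : ℝ) : ℂ) * I)‖ *
          Real.exp (-(1 / δ * Hs ε x (ε * y) (ta x) (2 * Real.pi + φ))) ≤
          B2 * Real.exp (φ ^ 2) *
          Real.exp (-(1 / δ * Hs ε x (ε * y) (ta x) (2 * Real.pi + φ))) :=
          mul_le_mul_of_nonneg_right hb hE.le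
      _ = B2 * (Real.exp (φ ^ 2) *
          Real.exp (-(1 / δ * Hs ε x (ε * y) (ta x) (2 * Real.pi + φ)))) := by ring
      _ ≤ B2 * (Real.exp (-(1 / δ * tH ε x (ε * y))) * Real.exp (-(1 / δ * tm ε x (ε * y) * φ +
          (1 / δ * tμ ε x (ε * y) - 1) * φ ^ 2))) := mul_le_mul_of_nonneg_left he hw.b2
      _ = _ := by ring
  · -- the rest of the first period
    intro φ hφ1 hφ2
    have hs3 : 137 / 25 ≤ 2 * Real.pi + φ := by linarith
    rw [t2_gi hε hx0 hδ ts0.le (by linarith), t2_min2 hx0 hs3,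
      t2_pv1 hε ts0.le (ts1.trans hs3), one_mul]
    have hb : ‖w (((ε * ta x : ℝ) : ℂ) + ((ε * (2 * Real.pi + φ) : ℝ) : ℂ) * I)‖ ≤ B3 := by
      have hs0 : 0 ≤ 2 * Real.pi + φ := by linarith
      refine hw.p3 _ _ ?_ ?_
      · rcases hε with rfl | rfl
        · rw [one_mul, abs_of_nonneg ta0]; exact ta1
        · rw [neg_one_mul, abs_neg, abs_of_nonneg ta0]; exact ta1
      · rcases hε with rfl | rfl
        · rw [one_mul, abs_of_nonneg hs0]; linarith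
        · rw [neg_one_mul, abs_neg, abs_of_nonneg hs0]; linarith
    have he : Real.exp (-(1 / δ * Hs ε x (ε * y) (ta x) (2 * Real.pi + φ))) ≤
        Real.exp (-(1 / 4 * r)) := by
      refine Real.exp_le_exp.2 (neg_le_neg ?_)
      have := mul_le_mul_of_nonneg_left (hT.p3 φ hφ1 hφ2) hw0.le
      linarith [this, hwd]
    have hb3 := hw.b3
    gcongr
  · -- periodicity
    intro s hs
    have hs0 : 0 ≤ s := by linarith
    have hs2 : 137 / 25 ≤ s + 2 * Real.pi := by linarith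
    rw [t2_gi hε hx0 hδ ts0.le (by linarith), t2_min2 hx0 hs2,
      t2_pv1 hε ts0.le (ts1.trans hs2), one_mul, t2_gi hε hx0 hδ ts0.le hs0, t2_min2 hx0 hs,
      t2_pv1 hε ts0.le (ts1.trans hs), one_mul, t2_per]
    have hb := hw.p4 ε (ε * ta x) (ε * s) hε (by
        rcases hε with rfl | rfl
        · rw [one_mul, abs_of_nonneg ta0]; exact ta1
        · rw [neg_one_mul, abs_neg, abs_of_nonneg ta0]; exact ta1) (by
        rcases hε with rfl | rfl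
        · rw [one_mul, abs_of_nonneg hs0]; exact hs
        · rw [neg_one_mul, abs_neg, abs_of_nonneg hs0]; exact hs)
    rw [← mul_add] at hb
    have hq := t2_q hT.lam
    have e1 : Real.exp (-(1 / δ * (Hs ε x (ε * y) (ta x) s + 2 * Real.pi * (ta x - ε * y)))) =
        Real.exp (-(1 / δ * Hs ε x (ε * y) (ta x) s)) *
          Real.exp (-(2 * Real.pi * (1 / δ * (ta x - ε * y)))) := by
      rw [← Real.exp_add]
      congr 1
      ring
    rw [e1]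
    have hq0 := hw.q
    have hE := Real.exp_pos (-(1 / δ * Hs ε x (ε * y) (ta x) s))
    calc ‖w (((ε * ta x : ℝ) : ℂ) + ((ε * (s + 2 * Real.pi) : ℝ) : ℂ) * I)‖ *
          (Real.exp (-(1 / δ * Hs ε x (ε * y) (ta x) s)) *
          Real.exp (-(2 * Real.pi * (1 / δ * (ta x - ε * y))))) ≤
          (Q * ‖w (((ε * ta x : ℝ) : ℂ) + ((ε * s : ℝ) : ℂ) * I)‖) *
          (Real.exp (-(1 / δ * Hs ε x (ε * y) (ta x) s)) * (54 / 100000)) := by
          gcongr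
      _ = _ := by ring

end SokalV3
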