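import Pool.Agent.Lib_MP_af4de1_v3.OutR3
import Pool.Agent.Lib_MP_af4de1_v3.T2Half

/-!
# `N = 2`, `outR`: the core integral
-/

set_option autoImplicit false

open MeasureTheory Set SokalU SokalPG SokalF1 SokalF1S SokalF1M SokalF1G SokalF1B SokalV3F

namespace SokalV3

theorem outR_texp {k t : ℝ} (hk : 1 / 49 ≤ k) (ht : 499 / 10 ≤ t) :
    t * Real.exp (-(k * t)) ≤ 499 / 10 * Real.exp (-(k * (499 / 10))) := by
  have h1 : -(k * t) = -(k * (499 / 10)) + -(k * (t - 499 / 10)) := by ring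
  rw [h1, Real.exp_add]
  have h2 : t ≤ 499 / 10 * Real.exp (k * (t - 499 / 10)) := by
    have h3 := Real.add_one_le_exp (k * (t - 499 / 10))
    have h4 : 1 / 49 * (t - 499 / 10) ≤ k * (t - 499 / 10) :=
      mul_le_mul_of_nonneg_right hk (by linarith)
    linarith
  have h5 : Real.exp (k * (t - 499 / 10)) * Real.exp (-(k * (t - 499 / 10))) = 1 := by
    rw [← Real.exp_add]; simp
  have h6 := Real.exp_pos (-(k * (499 / 10)))
  have h7 := Real.exp_pos (-(k * (t - 499 / 10)))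
  calc t * (Real.exp (-(k * (499 / 10))) * Real.exp (-(k * (t - 499 / 10)))) ≤
        499 / 10 * Real.exp (k * (t - 499 / 10)) * (Real.exp (-(k * (499 / 10))) *
          Real.exp (-(k * (t - 499 / 10)))) := by gcongr
    _ = 499 / 10 * Real.exp (-(k * (499 / 10))) * (Real.exp (k * (t - 499 / 10)) *
          Real.exp (-(k * (t - 499 / 10)))) := by ring
    _ = _ := by rw [h5, mul_one]

theorem outR_pc {x s : ℝ} (hx : 1 ≤ x) (hs : |s| ≤ 3 / 2) :
    pc (1 + x)⁻¹ (ts x) s = (1 + x)⁻¹ * s := by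
  have hc0 : 0 < (1 + x)⁻¹ := inv_pos.2 (by linarith)
  have h1 : 3 / 2 ≤ ts x := le_min (by norm_num) (by linarith)
  have h2 := abs_le.1 hs
  have h3 : (1 + x)⁻¹ * s ≤ (1 + x)⁻¹ * ts x := mul_le_mul_of_nonneg_left (by linarith) hc0.le
  have h4 : (1 + x)⁻¹ * (-ts x) ≤ (1 + x)⁻¹ * s := mul_le_mul_of_nonneg_left (by linarith) hc0.le
  unfold pc
  rw [min_eq_right h3, max_eq_right]
  linarith

theorem outR_pv {c s1 s pvm : ℝ} (hpv : 1 + c ^ 2 ≤ pvm ^ 2) (hpv0 : 0 ≤ pvm) :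
    ‖pv c s1 s‖ ≤ pvm := by
  unfold pv
  split_ifs
  · refine abs_le_of_sq_le_sq' ?_ hpv0 |>.2
    have h : (1 - (c : ℂ) * Complex.I) = ((1 : ℝ) : ℂ) + ((-c : ℝ) : ℂ) * Complex.I := by
      push_cast; ring
    rw [h, Complex.sq_norm, Complex.normSq_add_mul_I]
    linarith
  · rw [norm_one]
    nlinarith [sq_nonneg c]

/-- the tail beyond `3/4` -/
theorem outR_far {w x D dl : ℝ} (hwx : 499 / 10 ≤ w * x) (hw : 0 < w) (hD0 : 0 < D)
    (hD : D ≤ dl * x) (hdl : dl ≤ 1021 / 1000) (hx : 0 < x) :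
    3 * (Real.exp (3 / 2 * (1686 / 10000)) * Real.exp (-(9 / 64 * (w * x)))) ≤
      1 / 100 * √(2 * Real.pi / (w * D)) := by
  have hpi : (314 / 100 : ℝ) ≤ Real.pi := by
    have := Real.pi_gt_d2
    norm_num at this ⊢
    linarith
  have hwD : w * D ≤ 1021 / 1000 * (w * x) := by
    have h1 : w * D ≤ w * (dl * x) := mul_le_mul_of_nonneg_left hD hw.le
    have h2 : w * (dl * x) ≤ w * (1021 / 1000 * x) := by gcongr
    linarith
  have hwD0 : 0 < w * D := by positivity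
  refine abs_le_of_sq_le_sq' ?_ (by positivity) |>.2
  rw [mul_pow, mul_pow, mul_pow, Real.sq_sqrt (by positivity), ← Real.exp_nat_mul,
    ← Real.exp_nat_mul]
  have h3 : (2 * Real.pi / (1021 / 1000 * (w * x))) ≤ 2 * Real.pi / (w * D) := by gcongr
  have h4 := outR_texp (k := 9 / 32) (by norm_num) hwx
  have e1 : ((2 : ℕ) : ℝ) * -(9 / 64 * (w * x)) = -(9 / 32 * (w * x)) := by push_cast; ring
  have e2 : ((2 : ℕ) : ℝ) * (3 / 2 * (1686 / 10000)) = 5058 / 10000 := by push_cast; norm_num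
  rw [e1, e2]
  have h5 : Real.exp (5058 / 10000) ≤ 166 / 100 := by
    refine (exp_five (by norm_num) (by norm_num)).trans ?_
    norm_num
  have h6 : Real.exp (-(9 / 32 * (499 / 10))) ≤ 1 / 1240000 := by
    have := exp_neg_le_of (k := 14) (t := 34 / 1000) (L := 7017 / 1000) (A := 1240000)
      (by norm_num) (by norm_num) (by norm_num) (by norm_num)
    refine le_trans (Real.exp_le_exp.2 ?_) this
    norm_num
  have hwx0 : 0 < w * x := by positivity
  have h7 : Real.exp (-(9 / 32 * (w * x))) ≤ 499 / 10 / 1240000 / (w * x) := by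
    rw [le_div_iff₀ hwx0, mul_comm]
    refine h4.trans ?_
    linarith
  calc 3 ^ 2 * (Real.exp (5058 / 10000) * Real.exp (-(9 / 32 * (w * x)))) ≤
        3 ^ 2 * (166 / 100 * (499 / 10 / 1240000 / (w * x))) := by gcongr
    _ = (3 ^ 2 * (166 / 100 * (499 / 10 / 1240000))) / (w * x) := by ring
    _ ≤ ((1 / 100) ^ 2 * (2 * (314 / 100) / (1021 / 1000))) / (w * x) :=
        div_le_div_of_nonneg_right (by norm_num) hwx0.le
    _ ≤ ((1 / 100) ^ 2 * (2 * Real.pi / (1021 / 1000))) / (w * x) := by gcongr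
    _ = (1 / 100) ^ 2 * (2 * Real.pi / (1021 / 1000 * (w * x))) := by field_simp
    _ ≤ (1 / 100) ^ 2 * (2 * Real.pi / (w * D)) := by gcongr

/-- the core -/
theorem outR_core_int {x n z δ D κ dl sq pvm Cc cm : ℝ} {j : ℕ} (hj : j ≤ 1) (hδ : 0 < δ)
    (hx : 4932 / 1000 ≤ x) (hcm : cm ≤ 1686 / 10000) (hxc : (1 + x)⁻¹ ≤ cm) (hn0 : 0 < n)
    (hn : n * (1 + x) ≤ 286 / 100) (hκ0 : 4 / 5 ≤ κ) (hκ1 : κ ≤ 9 / 10)
    (hκ : ∀ c : ℝ, 0 ≤ c → c ≤ cm → 0 ≤ (4765 / 10000 - κ / 2) - (8339 / 10000 - κ / 2) * c +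
      4999 / 10000 * c ^ 2 - 236 / 100 * c ^ 3)
    (hz : 0 ≤ z) (hwx : 499 / 10 ≤ 1 / δ * x) (hD0 : 0 < D) (hD : D ≤ dl * x)
    (hdl : dl ≤ 1021 / 1000) (hsq : dl ≤ κ * sq ^ 2) (hsq0 : 0 ≤ sq) (hpv : 1 + cm ^ 2 ≤ pvm ^ 2)
    (hpv0 : 0 ≤ pvm) (hC : pvm * (10005 / 10000 * sq + 1 / 100) ≤ Cc) (hk : n < ta x) :
    ∫ s in Icc (-(3 / 2 : ℝ)) (3 / 2), ‖pv (1 + x)⁻¹ (ts x) s‖ *
      (Real.exp (j * pc (1 + x)⁻¹ (ts x) s) *
        Real.exp (-(Hz x (-n) (-z) (pc (1 + x)⁻¹ (ts x) s) s / δ))) ≤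
      Cc * Real.exp (-(1 / δ * (n - 3 / 2 * (1 + x)⁻¹) * z)) * √(2 * Real.pi / (1 / δ * D)) := by
  have hx0 : 0 < x := by linarith
  have hx1 : 0 < 1 + x := by linarith
  set c := (1 + x)⁻¹ with hcd
  have hc0 : 0 < c := inv_pos.2 hx1
  have hw : 0 < 1 / δ := by positivity
  set w := 1 / δ with hwd
  obtain ⟨ts0, ts1, ts2, ta0, ta1⟩ := t2_ts hx0.le
  have hpi := Real.pi_pos
  set μ := κ * (w * x) / 2 with hμ
  have hμ0 : 0 < μ := by positivity
  have hμ1 : 1996 / 100 ≤ μ := by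
    have : 4 / 5 * (499 / 10) ≤ κ * (w * x) := by gcongr
    rw [hμ]
    linarith
  set G0 := Real.exp (-(w * (n - 3 / 2 * c) * z)) with hG0
  have hG00 : 0 < G0 := Real.exp_pos _
  set B := Real.exp (3 / 2 * (1686 / 10000)) * Real.exp (-(9 / 64 * (w * x))) with hB
  have hB0 : 0 < B := by positivity
  have hj0 : (0 : ℝ) ≤ j := Nat.cast_nonneg j
  have hj1 : (j : ℝ) ≤ 1 := by exact_mod_cast hj
  have hpt : ∀ s ∈ Icc (-(3 / 2 : ℝ)) (3 / 2), ‖pv c (ts x) s‖ *
      (Real.exp (j * pc c (ts x) s) * Real.exp (-(Hz x (-n) (-z) (pc c (ts x) s) s / δ))) ≤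
      pvm * G0 * (Real.exp (-(-(j * c) * s + μ * s ^ 2)) + B) := by
    intro s hs
    have hsa : |s| ≤ 3 / 2 := abs_le.2 ⟨hs.1, hs.2⟩
    rw [outR_pc (by linarith) hsa, ← hcd]
    obtain ⟨k1, k2⟩ := outR_core_H (s := s) hcm hxc hx0 hn0.le hn (by linarith) hκ1 hκ
    rw [← hcd] at k1 k2
    have hpv1 : ‖pv c (ts x) s‖ ≤ pvm := by
      refine outR_pv ?_ hpv0
      have : c ^ 2 ≤ cm ^ 2 := by gcongr
      linarith
    have e1 : -(Hz x (-n) (-z) (c * s) s / δ) = -(w * Ha x (-n) (c * s) s) +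
        -(w * (n + c * s) * z) := by
      unfold Hz
      rw [hwd]
      field_simp
      ring
    have h1 : Real.exp (-(w * (n + c * s) * z)) ≤ G0 := by
      rw [hG0]
      refine Real.exp_le_exp.2 (neg_le_neg ?_)
      have h2 : c * (-(3 / 2)) ≤ c * s := mul_le_mul_of_nonneg_left hs.1 hc0.le
      have h3 : n - 3 / 2 * c ≤ n + c * s := by linarith
      gcongr
    have h2 : Real.exp (j * (c * s)) * Real.exp (-(w * Ha x (-n) (c * s) s)) ≤
        Real.exp (-(-(j * c) * s + μ * s ^ 2)) + B := by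
      rcases le_total |s| (3 / 4) with h3 | h3
      · have h4 := mul_le_mul_of_nonneg_left (k1 h3) hw.le
        have h5 : Real.exp (j * (c * s)) * Real.exp (-(w * Ha x (-n) (c * s) s)) ≤
            Real.exp (-(-(j * c) * s + μ * s ^ 2)) := by
          rw [← Real.exp_add]
          refine Real.exp_le_exp.2 ?_
          rw [hμ]
          linarith
        linarith
      · have h4 := mul_le_mul_of_nonneg_left (k2 hsa) hw.le
        have h6 : 9 / 16 ≤ s ^ 2 := by
          rw [← sq_abs]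
          nlinarith
        have h7 : 9 / 64 * (w * x) ≤ w * Ha x (-n) (c * s) s := by
          have : w * (1 / 2 * (x / 2) * (9 / 16)) ≤ w * (1 / 2 * (x / 2) * s ^ 2) := by gcongr
          linarith
        have h8 : j * (c * s) ≤ 3 / 2 * (1686 / 10000) := by
          have h9 : c * s ≤ 1686 / 10000 * (3 / 2) := by
            have h10 : c * s ≤ c * (3 / 2) := mul_le_mul_of_nonneg_left hs.2 hc0.le
            have h11 : c * (3 / 2) ≤ 1686 / 10000 * (3 / 2) := by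
              have : c ≤ 1686 / 10000 := hxc.trans hcm
              gcongr
            linarith
          rcases le_total 0 (c * s) with h12 | h12
          · have : j * (c * s) ≤ 1 * (c * s) := by gcongr
            linarith
          · have : j * (c * s) ≤ 0 := mul_nonpos_of_nonneg_of_nonpos hj0 h12
            linarith
        have h5 : Real.exp (j * (c * s)) * Real.exp (-(w * Ha x (-n) (c * s) s)) ≤ B := by
          rw [hB]
          gcongr
        have := Real.exp_pos (-(-(j * c) * s + μ * s ^ 2))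
        linarith
    rw [e1, Real.exp_add]
    calc ‖pv c (ts x) s‖ * (Real.exp (j * (c * s)) * (Real.exp (-(w * Ha x (-n) (c * s) s)) *
          Real.exp (-(w * (n + c * s) * z)))) =
          ‖pv c (ts x) s‖ * (Real.exp (j * (c * s)) * Real.exp (-(w * Ha x (-n) (c * s) s))) *
          Real.exp (-(w * (n + c * s) * z)) := by ring
      _ ≤ pvm * (Real.exp (-(-(j * c) * s + μ * s ^ 2)) + B) * G0 := by gcongr
      _ = _ := by ring
  have hkk : |(-n : ℝ)| < c * ts x := by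
    rw [abs_neg, abs_of_pos hn0]
    exact hk
  have hne : (-n : ℝ) ≠ 0 := by
    intro h
    linarith
  have hI : Integrable fun s : ℝ => ‖pv c (ts x) s‖ *
      (Real.exp (j * pc c (ts x) s) * Real.exp (-(Hz x (-n) (-z) (pc c (ts x) s) s / δ))) :=
    integrable_mF' hc0 ts0 ta1 hδ hkk hne (-z) j
  have hg := t2_gint (m := -(j * c)) hμ0
  have hBi : IntegrableOn (fun _ : ℝ => B) (Icc (-(3 / 2 : ℝ)) (3 / 2)) :=
    integrableOn_const (by simp)
  have hR : IntegrableOn (fun s : ℝ => pvm * G0 * (Real.exp (-(-(j * c) * s + μ * s ^ 2)) + B))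
      (Icc (-(3 / 2 : ℝ)) (3 / 2)) := (hg.integrableOn.add hBi).const_mul (pvm * G0)
  have s1 := setIntegral_mono_on hI.integrableOn hR measurableSet_Icc hpt
  refine s1.trans ?_
  rw [integral_const_mul, integral_add hg.integrableOn hBi, setIntegral_const,
    Real.volume_real_Icc_of_le (by norm_num), smul_eq_mul]
  have s2 : ∫ s in Icc (-(3 / 2 : ℝ)) (3 / 2), Real.exp (-(-(j * c) * s + μ * s ^ 2)) ≤
      √(Real.pi / μ) * Real.exp ((-(j * c)) ^ 2 / (4 * μ)) := by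
    rw [← t2_gauss hμ0]
    exact setIntegral_le_integral hg (Filter.Eventually.of_forall fun s => (Real.exp_pos _).le)
  have s3 : Real.exp ((-(j * c)) ^ 2 / (4 * μ)) ≤ 10005 / 10000 := by
    have h1 : (-(j * c)) ^ 2 ≤ (1 * (1686 / 10000)) ^ 2 := by
      have e : (-(j * c)) ^ 2 = (j * c) ^ 2 := by ring
      have : c ≤ 1686 / 10000 := hxc.trans hcm
      rw [e]
      gcongr
    have h2 : (-(j * c)) ^ 2 / (4 * μ) ≤ 4 / 10000 := by
      rw [div_le_iff₀ (by positivity)]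
      norm_num at h1 ⊢
      linarith
    refine (Real.exp_le_exp.2 h2).trans ?_
    refine (exp_five (by norm_num) (by norm_num)).trans ?_
    norm_num
  have s4 : √(Real.pi / μ) ≤ sq * √(2 * Real.pi / (w * D)) := by
    refine abs_le_of_sq_le_sq' ?_ (by positivity) |>.2
    rw [mul_pow, Real.sq_sqrt (by positivity), Real.sq_sqrt (by positivity)]
    rw [hμ, div_le_iff₀ (by positivity)]
    have e : sq ^ 2 * (2 * Real.pi / (w * D)) * (κ * (w * x) / 2) =
        Real.pi * ((κ * sq ^ 2 * x) / D) := by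
      field_simp
    rw [e]
    have h1 : 1 ≤ κ * sq ^ 2 * x / D := by
      rw [le_div_iff₀ hD0, one_mul]
      exact hD.trans (mul_le_mul_of_nonneg_right hsq hx0.le)
    nlinarith
  have s5 := outR_far hwx hw hD0 hD hdl hx0
  rw [← hB] at s5
  have hS0 : 0 ≤ √(2 * Real.pi / (w * D)) := Real.sqrt_nonneg _
  have hS1 : 0 ≤ √(Real.pi / μ) := Real.sqrt_nonneg _
  calc pvm * G0 * ((∫ s in Icc (-(3 / 2 : ℝ)) (3 / 2), Real.exp (-(-(j * c) * s + μ * s ^ 2))) +
        (3 / 2 - -(3 / 2)) * B) ≤ pvm * G0 * (√(Real.pi / μ) * Real.exp ((-(j * c)) ^ 2 / (4 * μ)) +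
        3 * B) := by
        have e : (3 / 2 - -(3 / 2) : ℝ) * B = 3 * B := by ring
        rw [e]
        gcongr
    _ ≤ pvm * G0 * (sq * √(2 * Real.pi / (w * D)) * (10005 / 10000) +
        1 / 100 * √(2 * Real.pi / (w * D))) := by gcongr
    _ = pvm * (10005 / 10000 * sq + 1 / 100) * G0 * √(2 * Real.pi / (w * D)) := by ring
    _ ≤ Cc * G0 * √(2 * Real.pi / (w * D)) := by gcongr

end SokalV3
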