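import Pool.Agent.Lib_MP_af4de1_v3.P2OutL

/-!
# `P2.outR`: pointwise bounds for the height, right side (reflected)
-/

set_option autoImplicit false

namespace SokalP2O

open Real Set SokalF1G

/-- the height on the fixed path, right side, reflected: `y = -n`, `ζ = -z`, `a → -a`, `s = -t` -/
noncomputable def HR (x n z a t : ℝ) : ℝ :=
  (a - n) * (t - z) + x * (1 - a) - exp (-a) * (x * cos t - n * sin t)

theorem mainR {x n z c d t j : ℝ} (hx : 0 < x) (hc : 0 < c) (hd : 0 < d) (hc1 : c ≤ 21 / 100)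
    (hn : 0 ≤ n) (hz : 0 ≤ z) (hj0 : 0 ≤ j) (hj1 : j ≤ 1) (ht : |t| ≤ 1) :
    -(j * (c * t)) - d * HR x n z (c * t) t ≤ (6 / 11 * (c / (x * d)) - (n - c) * z * d) -
      d * (11 / 24 * (1 - c) * x - n * c - n / 6 + (1 - x * c * (1 / 2 + 11 / 50 * c)) * c) *
        t ^ 2 := by
  obtain ⟨hs1, hs2⟩ := abs_le.1 ht
  have hcos := cosA ht
  have hc2 : 0 ≤ 11 / 50 * c := by positivity
  rcases le_total 0 t with h0 | h0
  · have ha0 : 0 ≤ c * t := by positivity
    have ha1 : c * t ≤ c := by nlinarith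
    have e2 := en_le2 ha0
    have e3 := en_ge1 (x := c * t)
    have e4 : exp (-(c * t)) ≤ 1 := by
      rw [exp_le_one_iff]; linarith
    have g1 : x * (exp (-(c * t)) - 1 + c * t) ≤ x * ((1 / 2 + 11 / 50 * c) * (c * t) ^ 2) := by
      refine mul_le_mul_of_nonneg_left ?_ hx.le
      have := mul_nonneg hc2 (sq_nonneg (c * t))
      nlinarith
    have g2 : x * ((1 - c) * (11 / 24 * t ^ 2)) ≤ x * (exp (-(c * t)) * (1 - cos t)) := by
      refine mul_le_mul_of_nonneg_left (mul_le_mul ?_ hcos (by positivity) (exp_pos _).le) hx.le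
      linarith
    have g3 : (n - c) * z ≤ (n - c * t) * z := mul_le_mul_of_nonneg_right (by linarith) hz
    have hsin := sin_ge3 h0
    have hsin0 : 0 ≤ t - t ^ 3 / 6 := by nlinarith
    have g4 : n * (t - exp (-(c * t)) * sin t) ≤ n * (c * t ^ 2 + t ^ 2 / 6) := by
      refine mul_le_mul_of_nonneg_left ?_ hn
      have k1 : (1 - c * t) * (t - t ^ 3 / 6) ≤ exp (-(c * t)) * sin t :=
        mul_le_mul e3 hsin hsin0 (exp_pos _).le
      have k2 : t ^ 3 ≤ t ^ 2 := by nlinarith [sq_nonneg t]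
      have k3 : 0 ≤ c * t ^ 4 := by positivity
      nlinarith
    have hH : HR x n z (c * t) t = c * t ^ 2 - x * (exp (-(c * t)) - 1 + c * t) +
        x * (exp (-(c * t)) * (1 - cos t)) + (n - c * t) * z -
        n * (t - exp (-(c * t)) * sin t) := by
      unfold HR; ring
    have hlow : (n - c) * z + (11 / 24 * (1 - c) * x - n * c - n / 6 +
        (1 - x * c * (1 / 2 + 11 / 50 * c)) * c) * t ^ 2 ≤ HR x n z (c * t) t := by
      rw [hH]
      nlinarith
    have h7 := mul_le_mul_of_nonneg_left hlow hd.le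
    have h8 : 0 ≤ 6 / 11 * (c / (x * d)) := by positivity
    have h9 : 0 ≤ j * (c * t) := by positivity
    linarith
  · obtain ⟨τ, hτ⟩ : ∃ τ, t = -τ := ⟨-t, by ring⟩
    subst hτ
    have t0 : 0 ≤ τ := by linarith
    have t1 : τ ≤ 1 := by linarith
    have ha0 : 0 ≤ c * τ := by positivity
    have ha1 : c * τ ≤ c := by nlinarith
    have hab := absorb hx hc hd hj1 t0
    have ea : c * -τ = -(c * τ) := by ring
    rw [ea]
    have e1 := e_le3 ha0 (by linarith)
    have q3 : (c * τ) ^ 3 ≤ c * (c * τ) ^ 2 := by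
      have := mul_le_mul_of_nonneg_right ha1 (sq_nonneg (c * τ))
      nlinarith
    have q4 : (c * τ) ^ 4 ≤ c * (21 / 100) * (c * τ) ^ 2 := by
      have h5 : (c * τ) ^ 2 ≤ c * (21 / 100) := by
        have := mul_le_mul ha1 (ha1.trans hc1) ha0 hc.le
        nlinarith
      have := mul_le_mul_of_nonneg_right h5 (sq_nonneg (c * τ))
      nlinarith
    have e2 : exp (c * τ) - 1 - c * τ ≤ (1 / 2 + 11 / 50 * c) * (c * τ) ^ 2 := by
      have := mul_nonneg hc.le (sq_nonneg (c * τ))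
      nlinarith
    have e3 : 1 + c * τ ≤ exp (c * τ) := by linarith [add_one_le_exp (c * τ)]
    have e5 : exp (c * τ) ≤ 1 + c * τ + 3 / 5 * (c * τ) ^ 2 := by
      have := mul_le_mul_of_nonneg_right hc1 (sq_nonneg (c * τ))
      nlinarith
    rw [cos_neg] at hcos
    have hcos' : 11 / 24 * τ ^ 2 ≤ 1 - cos τ := by
      have : (-τ) ^ 2 = τ ^ 2 := by ring
      rwa [this] at hcos
    have g1 : x * (exp (c * τ) - 1 - c * τ) ≤ x * ((1 / 2 + 11 / 50 * c) * (c * τ) ^ 2) :=
      mul_le_mul_of_nonneg_left e2 hx.le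
    have g2 : x * ((1 + c * τ) * (11 / 24 * τ ^ 2)) ≤ x * (exp (c * τ) * (1 - cos τ)) :=
      mul_le_mul_of_nonneg_left (mul_le_mul e3 hcos' (by positivity) (exp_pos _).le) hx.le
    have g3 : (n - c) * z ≤ (n + c * τ) * z := mul_le_mul_of_nonneg_right (by linarith) hz
    have g4 : n * (exp (c * τ) * sin τ - τ) ≤ n * (c * τ ^ 2 + τ ^ 2 / 6) := by
      refine mul_le_mul_of_nonneg_left ?_ hn
      have k0 : 0 ≤ sin τ := sin_nonneg_of_nonneg_of_le_pi t0 (by linarith [Real.pi_gt_d4])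
      have k1 : exp (c * τ) * sin τ ≤ (1 + c * τ + 3 / 5 * (c * τ) ^ 2) * τ :=
        mul_le_mul e5 (sin_le t0) k0 (by positivity)
      have k2 : (c * τ) ^ 2 * τ ≤ (21 / 100) ^ 2 * τ ^ 2 := by
        have k3 : (c * τ) ^ 2 ≤ (21 / 100) ^ 2 * τ ^ 2 := by
          rw [mul_pow]
          exact mul_le_mul_of_nonneg_right (pow_le_pow_left₀ hc.le hc1 2) (sq_nonneg τ)
        nlinarith [sq_nonneg (c * τ), sq_nonneg τ]
      nlinarith [sq_nonneg τ]
    have g5 : 0 ≤ 11 / 24 * (x * c) * τ ^ 3 := by positivity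
    have hH : HR x n z (-(c * τ)) (-τ) = c * τ ^ 2 - x * (exp (c * τ) - 1 - c * τ) +
        x * (exp (c * τ) * (1 - cos τ)) + (n + c * τ) * z - n * (exp (c * τ) * sin τ - τ) := by
      unfold HR
      rw [cos_neg, sin_neg, neg_neg]
      ring
    have hlow : (n - c) * z + (11 / 24 * (1 - c) * x - n * c - n / 6 +
        (1 - x * c * (1 / 2 + 11 / 50 * c)) * c) * τ ^ 2 + 11 / 24 * (x * c) * τ ^ 2 ≤
        HR x n z (-(c * τ)) (-τ) := by
      rw [hH]
      nlinarith
    have h7 := mul_le_mul_of_nonneg_left hlow hd.le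
    have e6 : (-τ) ^ 2 = τ ^ 2 := by ring
    rw [e6]
    linarith

/-! ### `1 ≤ |t| ≤ 19/4` -/

theorem crudeR1 {x n z c a a1 t : ℝ} (hx : 0 < x) (hc : 0 < c) (hc1 : c ≤ 2013 / 10000)
    (hn : 0 ≤ n) (hnx : n ≤ 101 / 1000 * x) (hcn : c ≤ n) (hz : 0 ≤ z) (hz1 : z ≤ π)
    (ha0 : 0 ≤ a) (haa : a ≤ a1) (ha1 : a1 ≤ 1) (hac : a ≤ c * t) (hay : π ≤ t → n ≤ a)
    (hx2 : 4 ≤ x)
    (hcr : 17 / 100 * x ≤ 859 / 1000 * x * (1 - a1) - 141 / 2000 * x * a1 ^ 2 + (a1 - n) * (π - z))
    (h1 : 1 ≤ t) (h2 : t ≤ 19 / 4) : 17 / 100 * x ≤ HR x n z a t := by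
  have hp := Real.pi_gt_d4
  have hp2 := Real.pi_lt_d4
  have e1 := en_le2 ha0
  have e2 := en_ge1 (x := a)
  have e3 : exp (-a) ≤ 1 := by rw [exp_le_one_iff]; linarith
  have e0 := exp_pos (-a)
  rcases le_total t π with h | h
  · have hsin : 0 ≤ sin t := sin_nonneg_of_nonneg_of_le_pi (by linarith) h
    have hcos := cos_le_one' h1 h
    have g1 : 0 ≤ a * (t - z) + n * z := by
      rcases le_total z t with h3 | h3
      · have := mul_nonneg ha0 (sub_nonneg.2 h3)
        have := mul_nonneg hn hz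
        linarith
      · have h4 : a * (z - t) ≤ c * t * (z - t) := mul_le_mul_of_nonneg_right hac (sub_nonneg.2 h3)
        have h5 : t * (z - t) ≤ z := by
          have : t * (z - t) ≤ z ^ 2 / 4 := by nlinarith [sq_nonneg (z - 2 * t)]
          nlinarith
        have h6 : c * (t * (z - t)) ≤ c * z := mul_le_mul_of_nonneg_left h5 hc.le
        have h7 : c * z ≤ n * z := mul_le_mul_of_nonneg_right hcn hz
        linarith
    have g2 : 0 ≤ n * (exp (-a) * sin t) := by positivity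
    have hq := cosB (v := t) (by rw [abs_of_nonneg (by linarith)]; exact h1)
      (by rw [abs_of_nonneg (by linarith)]; exact h)
    have k1 : (1 - a) * (1 - cos t) - 5417 / 20000 * a ^ 2 ≤ 1 - a - exp (-a) * cos t := by
      rcases le_total (cos t) 0 with h3 | h3
      · have := mul_le_mul_of_nonneg_right e2 (neg_nonneg.2 h3)
        nlinarith [sq_nonneg a]
      · have := mul_le_mul_of_nonneg_right e1 h3
        have k4 : a ^ 2 * cos t ≤ a ^ 2 * (5417 / 10000) :=
          mul_le_mul_of_nonneg_left hcos (sq_nonneg a)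
        nlinarith
    have k2 : (1 - a) * (3 / 10 + 3 / 20 * t ^ 2) ≤ (1 - a) * (1 - cos t) :=
      mul_le_mul_of_nonneg_left hq (by linarith)
    have k3 : a ≤ 2013 / 10000 * t := by
      have := mul_le_mul_of_nonneg_right hc1 (by linarith : 0 ≤ t)
      linarith
    have k4 : 0 ≤ (2013 / 10000 * t - a) * ((3 / 10 + 3 / 20 * t ^ 2) +
        5417 / 20000 * (2013 / 10000 * t + a)) := mul_nonneg (by linarith) (by positivity)
    have k5 : 0 ≤ (1 - 2013 / 10000 * t) * (3 / 10 + 3 / 20 * t ^ 2) -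
        5417 / 20000 * (2013 / 10000 * t) ^ 2 - 101 / 1000 * t - 17 / 100 := by
      have k6 : 0 ≤ (t - 1) * (3142 / 1000 - t) := mul_nonneg (by linarith) (by linarith)
      have k7 : 0 ≤ (t - 1) * (3142 / 1000 - t) * t := mul_nonneg k6 (by linarith)
      nlinarith
    have g4 : 17 / 100 + 101 / 1000 * t ≤ 1 - a - exp (-a) * cos t := by nlinarith
    have g5 := mul_le_mul_of_nonneg_left g4 hx.le
    have g6 := mul_le_mul_of_nonneg_right hnx (by linarith : 0 ≤ t)
    unfold HR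
    nlinarith
  · have hcos := cos_le_T h h2
    have hay' := hay h
    have g1 : (a - n) * (π - z) ≤ (a - n) * (t - z) :=
      mul_le_mul_of_nonneg_left (by linarith) (by linarith)
    have g2 : x * cos t - n * sin t ≤ 141 / 1000 * x := by
      have k1 : x * cos t ≤ x * (1 / 25) := mul_le_mul_of_nonneg_left hcos hx.le
      have k2 : n * (-sin t) ≤ n * 1 := mul_le_mul_of_nonneg_left (by linarith [neg_one_le_sin t]) hn
      linarith
    have g3 : exp (-a) * (x * cos t - n * sin t) ≤ (1 - a + a ^ 2 / 2) * (141 / 1000 * x) := by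
      have k1 := mul_le_mul_of_nonneg_left g2 e0.le
      have k2 := mul_le_mul_of_nonneg_right e1 (by linarith : 0 ≤ 141 / 1000 * x)
      linarith
    have g4 : 0 ≤ (a1 - a) * (859 / 1000 * x + 141 / 2000 * x * (a1 + a) - (π - z)) := by
      refine mul_nonneg (by linarith) ?_
      have : 0 ≤ x * (a1 + a) := mul_nonneg hx.le (by linarith)
      linarith
    unfold HR
    nlinarith

theorem crudeR2 {x n z a τ : ℝ} (hx : 0 < x) (hn : 0 ≤ n) (hn1 : n ≤ 1 / 2) (hz : 0 ≤ z)
    (ha0 : 0 ≤ a) (ha1 : a ≤ 1) (h1 : 1 ≤ τ) (h2 : τ ≤ 19 / 4) :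
    17 / 100 * x ≤ HR x n z (-a) (-τ) := by
  have hexp := exp_le_lin ha0 ha1
  have hexp1 : 1 ≤ exp a := one_le_exp ha0
  have hcos := cos_le_all h1 h2
  have g1 : 1 - 5417 / 10000 ≤ 1 + a - exp a * cos τ := by
    rcases le_total (cos τ) 0 with h3 | h3
    · have := mul_nonneg (by linarith : 0 ≤ exp a) (neg_nonneg.2 h3)
      nlinarith
    · have h4 : (exp a - 1) * cos τ ≤ 43 / 25 * a * (5417 / 10000) :=
        mul_le_mul (by linarith) hcos h3 (by positivity)
      nlinarith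
  have g2 : n * (exp a * sin τ) ≤ (a + n) * τ := by
    rcases le_total (sin τ) 0 with h | h
    · have h3 : exp a * sin τ ≤ 0 := mul_nonpos_of_nonneg_of_nonpos (exp_pos a).le h
      have h4 : 0 ≤ (a + n) * τ := mul_nonneg (by linarith) (by linarith)
      have h5 := mul_nonneg hn (neg_nonneg.2 h3)
      linarith
    · have h3 : exp a * sin τ ≤ (1 + 43 / 25 * a) * 1 :=
        mul_le_mul hexp (sin_le_one τ) h (by positivity)
      have h4 := mul_le_mul_of_nonneg_left h3 hn
      have h5 : n * a ≤ 1 / 2 * a := mul_le_mul_of_nonneg_right hn1 ha0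
      have h6 : 0 ≤ (a + n) * (τ - 1) := mul_nonneg (by linarith) (by linarith)
      nlinarith
  have g3 : 0 ≤ (a + n) * z := mul_nonneg (by linarith) hz
  have g4 := mul_le_mul_of_nonneg_left g1 hx.le
  unfold HR
  rw [cos_neg, sin_neg, neg_neg]
  nlinarith

end SokalP2O
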