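import Pool.Agent.Lib_MP_af4de1_v3.OutR4
import Pool.Agent.Lib_MP_af4de1_v3.OutR2
import Pool.Agent.Lib_MP_af4de1_v3.T2Fact
import Pool.Agent.Lib_MP_af4de1_v3.T2Core
import Pool.Agent.Lib_MP_af4de1_v3.P2OutR

/-!
# `N = 2`, `outR`: the tails at both ends
-/

set_option autoImplicit false

open Complex MeasureTheory Set SokalU SokalPG SokalF1 SokalF1S SokalF1M SokalF1G SokalF1B SokalV3F

namespace SokalV3

/-- the integrand of `mF` with `x`, `y = -n`, `ζ = -z` on the path of `T2` -/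
noncomputable def oF (x n z δ : ℝ) (j : ℕ) (s : ℝ) : ℝ :=
  ‖pv (1 + x)⁻¹ (ts x) s‖ * (Real.exp (j * pc (1 + x)⁻¹ (ts x) s) *
    Real.exp (-(Hz x (-n) (-z) (pc (1 + x)⁻¹ (ts x) s) s / δ)))

theorem oF_int {x n z δ : ℝ} {j : ℕ} (hx : 0 ≤ x) (hδ : 0 < δ) (hn0 : 0 < n) (hnt : n < ta x) :
    Integrable (oF x n z δ j) := by
  obtain ⟨ts0, ts1, ts2, ta0, ta1⟩ := t2_ts hx
  have hc0 : 0 < (1 + x)⁻¹ := inv_pos.2 (by linarith)
  have hkk : |(-n : ℝ)| < (1 + x)⁻¹ * ts x := by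
    rw [abs_neg, abs_of_pos hn0]
    exact hnt
  have hne : (-n : ℝ) ≠ 0 := by
    intro h
    linarith
  exact integrable_mF' hc0 ts0 ta1 hδ hkk hne (-z) j

theorem oF_eq {ε x n z δ s : ℝ} {j : ℕ} (hε : ε = 1 ∨ ε = -1) (hx : 0 ≤ x) (hδ : 0 < δ) (hs : 0 ≤ s) :
    oF x n z δ j (ε * s) = ‖pv (1 + x)⁻¹ (ts x) (ε * s)‖ *
      (Real.exp (j * (ε * min ((1 + x)⁻¹ * ts x) ((1 + x)⁻¹ * s))) *
        Real.exp (-(1 / δ * (Hs ε x (ε * -n) (min ((1 + x)⁻¹ * ts x) ((1 + x)⁻¹ * s)) s +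
          (n + ε * min ((1 + x)⁻¹ * ts x) ((1 + x)⁻¹ * s)) * z)))) := by
  obtain ⟨ts0, ts1, ts2, ta0, ta1⟩ := t2_ts hx
  have hc0 : 0 ≤ (1 + x)⁻¹ := inv_nonneg.2 (by linarith)
  unfold oF
  rw [t2_pc hε hc0 ts0.le hs]
  unfold Hz
  rw [t2_Hs hε]
  congr 3
  ring

/-- light side at both ends, heavy side at `0` -/
theorem oF_light {ε x n z δ s : ℝ} {j : ℕ} (hj : j ≤ 1) (hε : ε = 1 ∨ ε = -1) (hx : 0 ≤ x)
    (hδ : 0 < δ) (hs : 0 ≤ s) (hn : 0 ≤ n) (hz : 0 ≤ z) {K : ℝ}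
    (h : (ε = 1 ∧ K = 27183 / 10000) ∨ (ε = -1 ∧ z = 0 ∧ K = 1)) :
    oF x n z δ j (ε * s) ≤ K *
      ‖gi (1 + x)⁻¹ (ts x) (fun _ => 1) (((x : ℂ) + (-n : ℝ) * I) / δ) 0 (-((δ : ℂ) * I)) (ε * s)‖ := by
  obtain ⟨ts0, ts1, ts2, ta0, ta1⟩ := t2_ts hx
  have hc0 : 0 ≤ (1 + x)⁻¹ := inv_nonneg.2 (by linarith)
  rw [oF_eq hε hx hδ hs, t2_gi hε hx hδ ts0.le hs]
  set a := min ((1 + x)⁻¹ * ts x) ((1 + x)⁻¹ * s) with ha
  have ha0 : 0 ≤ a := le_min ta0 (by positivity)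
  have ha1 : a ≤ 1 := (min_le_left _ _).trans ta1
  have hj0 : (0 : ℝ) ≤ j := Nat.cast_nonneg j
  have hj1 : (j : ℝ) ≤ 1 := by exact_mod_cast hj
  have hw : 0 < 1 / δ := by positivity
  rw [norm_one, one_mul]
  have h1 : Real.exp (j * (ε * a)) ≤ K := by
    rcases h with ⟨rfl, rfl⟩ | ⟨rfl, _, rfl⟩
    · have : (j : ℝ) * (1 * a) ≤ 1 := by
        rw [one_mul]
        calc (j : ℝ) * a ≤ 1 * 1 := by gcongr
          _ = 1 := by norm_num
      exact (Real.exp_le_exp.2 this).trans t2_e1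
    · rw [Real.exp_le_one_iff]
      have : 0 ≤ (j : ℝ) * a := by positivity
      linarith
  have h2 : Real.exp (-(1 / δ * (Hs ε x (ε * -n) a s + (n + ε * a) * z))) ≤
      Real.exp (-(1 / δ * Hs ε x (ε * -n) a s)) := by
    refine Real.exp_le_exp.2 (neg_le_neg (mul_le_mul_of_nonneg_left ?_ hw.le))
    have : 0 ≤ (n + ε * a) * z := by
      rcases h with ⟨rfl, _⟩ | ⟨rfl, rfl, _⟩
      · rw [one_mul]; positivity
      · rw [mul_zero]
    linarith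
  have h3 := norm_nonneg (pv (1 + x)⁻¹ (ts x) (ε * s))
  have h4 := Real.exp_pos (j * (ε * a))
  have hK : 0 ≤ K := h4.le.trans h1
  calc ‖pv (1 + x)⁻¹ (ts x) (ε * s)‖ * (Real.exp (j * (ε * a)) *
        Real.exp (-(1 / δ * (Hs ε x (ε * -n) a s + (n + ε * a) * z)))) ≤
      ‖pv (1 + x)⁻¹ (ts x) (ε * s)‖ * (K * Real.exp (-(1 / δ * Hs ε x (ε * -n) a s))) := by gcongr
    _ = _ := by ring

theorem oF_half {ε x n z δ r : ℝ} {j : ℕ} (hj : j ≤ 1) (hε : ε = 1 ∨ ε = -1) (hx : 3 / 2 ≤ x)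
    (hδ : 0 < δ) (hn : 0 < n) (hnt : n < ta x) (hz : 0 ≤ z) {K : ℝ}
    (h : (ε = 1 ∧ K = 27183 / 10000) ∨ (ε = -1 ∧ z = 0 ∧ K = 1))
    (hT : TH ε x (ε * -n) (1 / δ) (r * δ)) :
    ∫ s in Ici (3 / 2), oF x n z δ j (ε * s) ≤ K * (4 * (108 / 100 * Real.exp (-(23 / 100 * r))) +
      1001 / 1000 * (tP ε x (ε * -n) (1 / δ) + 47 / 10 * Real.exp (-(1 / 4 * r)))) := by
  have hx0 : 0 ≤ x := by linarith
  obtain ⟨ts0, ts1, ts2, ta0, ta1⟩ := t2_ts hx0
  have hc0 : 0 < (1 + x)⁻¹ := inv_pos.2 (by linarith)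
  have hy : |(-n : ℝ)| < ta x := by
    rw [abs_neg, abs_of_pos hn]
    exact hnt
  have hK : 0 ≤ K := by rcases h with ⟨_, rfl⟩ | ⟨_, _, rfl⟩ <;> norm_num
  have hk : |(((x : ℂ) + (-n : ℝ) * I) / δ : ℂ).im| < (1 + x)⁻¹ * ts x / δ := by
    have e : (((x : ℂ) + (-n : ℝ) * I) / δ : ℂ) = ((1 / δ : ℝ) : ℂ) * ((x : ℂ) + (-n : ℝ) * I) := by
      push_cast; ring
    have e2 : ((x : ℂ) + (-n : ℝ) * I).im = -n := by simp
    rw [e, Complex.im_ofReal_mul, e2, abs_mul, abs_of_pos (by positivity : 0 < 1 / δ), one_div,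
      inv_mul_eq_div]
    exact div_lt_div_of_pos_right hy hδ
  have hint : Integrable fun s : ℝ =>
      ‖gi (1 + x)⁻¹ (ts x) (fun _ => 1) (((x : ℂ) + (-n : ℝ) * I) / δ) 0 (-((δ : ℂ) * I)) (ε * s)‖ := by
    have hgi := (int_gi hc0 ts0 ta1 hδ hk t2_W0.wt).norm
    rcases hε with e | e
    · rw [e]; simpa using hgi
    · rw [e]; simpa using hgi.comp_neg
  have hi2 : Integrable fun s : ℝ => oF x n z δ j (ε * s) := by
    have hof := oF_int (z := z) (j := j) hx0 hδ hn hnt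
    rcases hε with e | e
    · rw [e]; simpa using hof
    · rw [e]; simpa using hof.comp_neg
  have h1 := t2_half (r := r) t2_W0 hε hx hδ hy hT (by norm_num)
  have h2 : ∫ s in Ici (3 / 2), oF x n z δ j (ε * s) ≤
      ∫ s in Ici (3 / 2), K * ‖gi (1 + x)⁻¹ (ts x) (fun _ => 1) (((x : ℂ) + (-n : ℝ) * I) / δ) 0
        (-((δ : ℂ) * I)) (ε * s)‖ :=
    setIntegral_mono_on hi2.integrableOn (hint.const_mul K).integrableOn measurableSet_Ici
      fun s hs => oF_light hj hε hx0 hδ (by have := mem_Ici.1 hs; linarith) hn.le hz h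
  rw [integral_const_mul] at h2
  have hE3 := Real.exp_pos (-(1 / 4 * r))
  have htP : 0 ≤ tP ε x (ε * -n) (1 / δ) := by
    unfold tP
    positivity
  have c : (1 / (1 - 1 * (54 / 100000)) : ℝ) ≤ 1001 / 1000 := by norm_num
  refine h2.trans (mul_le_mul_of_nonneg_left (h1.trans ?_) hK)
  rw [one_mul, one_mul, one_mul]
  have hmid : 0 ≤ tP ε x (ε * -n) (1 / δ) + 47 / 10 * Real.exp (-(1 / 4 * r)) := by positivity
  have := mul_le_mul_of_nonneg_right c hmid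
  rw [one_mul] at this
  linarith

/-- heavy side at the far end -/
theorem oF_heavy {x n z δ r h pvm : ℝ} {j : ℕ} (hx : 112 / 25 ≤ x)
    (hδ : 0 < δ) (hn : 0 < n) (hnt : n < ta x) (hz : 0 ≤ z)
    (hlam : 6 / 5 ≤ 1 / δ * (ta x - n)) (hmu : 2 ≤ 1 / δ * tμ (-1) x n)
    (hpv : 1 + ((1 + x)⁻¹) ^ 2 ≤ pvm ^ 2) (hpv0 : 1 ≤ pvm)
    (H1 : ∀ s, 3 / 2 ≤ s → s ≤ 137 / 25 → h * (r * δ) ≤
      Hs (-1) x n ((1 + x)⁻¹ * s) s - ((1 + x)⁻¹ * s - n) * z)
    (H3 : ∀ φ, 4 / 5 ≤ φ → φ ≤ 137 / 25 → 15 / 100 * (r * δ) ≤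
      Hs (-1) x n (ta x) (2 * Real.pi + φ) - (ta x - n) * z) :
    ∫ s in Ici (3 / 2), oF x n z δ j (-1 * s) ≤ 4 * (pvm * Real.exp (-(h * r))) +
      1001 / 1000 * (tP (-1) x n (1 / δ) * Real.exp (1 / δ * (ta x - n) * z) +
        47 / 10 * Real.exp (-(15 / 100 * r))) := by
  have hx0 : 0 ≤ x := by linarith
  have hx1 : 0 < 1 + x := by linarith
  obtain ⟨ts0, ts1, ts2, ta0, ta1⟩ := t2_ts hx0
  obtain ⟨p1, p2⟩ := t2_pi
  have hc0 : 0 < (1 + x)⁻¹ := inv_pos.2 hx1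
  have htx : ts x = 137 / 25 := min_eq_left (by linarith)
  have hw : 0 < 1 / δ := by positivity
  have hj0 : (0 : ℝ) ≤ j := Nat.cast_nonneg j
  have hwd : 1 / δ * (r * δ) = r := by field_simp
  have hi2 : Integrable fun s : ℝ => oF x n z δ j (-1 * s) := by
    have h := oF_int (z := z) (j := j) hx0 hδ hn hnt
    simpa using h.comp_neg
  have hεε : (-1 : ℝ) = 1 ∨ (-1 : ℝ) = -1 := Or.inr rfl
  have hnn : (-1 : ℝ) * -n = n := by ring
  -- value beyond `137/25`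
  have hfar : ∀ s, 137 / 25 ≤ s → oF x n z δ j (-1 * s) = Real.exp (-(j * ta x)) *
      Real.exp (-(1 / δ * (Hs (-1) x n (ta x) s - (ta x - n) * z))) := by
    intro s hs
    rw [oF_eq hεε hx0 hδ (by linarith), t2_min2 hx0 hs, t2_pv1 hεε ts0.le (ts1.trans hs), one_mul,
      hnn]
    congr 2
    · ring
    · ring
  have hej : Real.exp (-(j * ta x)) ≤ 1 := by
    rw [Real.exp_le_one_iff]
    have : 0 ≤ (j : ℝ) * ta x := by positivity
    linarith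
  have hej0 := Real.exp_pos (-(j * ta x))
  have hpv1 : ∀ s, ‖pv (1 + x)⁻¹ (ts x) s‖ ≤ pvm := fun s => outR_pv hpv (by linarith)
  have hside := t2_side (F := fun s : ℝ => oF x n z δ j (-1 * s))
    (A1 := pvm * Real.exp (-(h * r))) (A3 := Real.exp (-(15 / 100 * r)))
    (C2 := Real.exp (-(1 / δ * tH (-1) x n)) * Real.exp (1 / δ * (ta x - n) * z))
    (m := 1 / δ * tm (-1) x n)
    (μ := 1 / δ * tμ (-1) x n - 1) (q := 54 / 100000) hi2.integrableOn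
    (by positivity) (by positivity) (by positivity) (by linarith) (by norm_num) ?_ ?_ ?_ ?_
  · refine hside.trans ?_
    have e1 : Real.exp (-(1 / δ * tH (-1) x n)) * Real.exp (1 / δ * (ta x - n) * z) *
        (√(Real.pi / (1 / δ * tμ (-1) x n - 1)) *
          Real.exp ((1 / δ * tm (-1) x n) ^ 2 / (4 * (1 / δ * tμ (-1) x n - 1)))) =
        tP (-1) x n (1 / δ) * Real.exp (1 / δ * (ta x - n) * z) := by
      have e2 : Real.exp ((1 / δ * tm (-1) x n) ^ 2 / (4 * (1 / δ * tμ (-1) x n - 1)) -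
          1 / δ * tH (-1) x n) =
          Real.exp ((1 / δ * tm (-1) x n) ^ 2 / (4 * (1 / δ * tμ (-1) x n - 1))) *
            Real.exp (-(1 / δ * tH (-1) x n)) := by
        rw [← Real.exp_add]
        congr 1
      unfold tP
      rw [e2]
      ring
    rw [e1]
    have c : (1 / (1 - 54 / 100000) : ℝ) ≤ 1001 / 1000 := by norm_num
    have htP : 0 ≤ tP (-1) x n (1 / δ) * Real.exp (1 / δ * (ta x - n) * z) +
        47 / 10 * Real.exp (-(15 / 100 * r)) := by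
      unfold tP
      positivity
    have := mul_le_mul_of_nonneg_right c htP
    linarith
  · intro s hs1 hs2
    have hs0 : 0 ≤ s := by linarith
    rw [oF_eq hεε hx0 hδ hs0, t2_min1 hx0 hs2, hnn]
    have hm : min 1 ((1 + x)⁻¹ * s) = (1 + x)⁻¹ * s := by
      refine min_eq_right ?_
      rw [inv_mul_eq_div, div_le_one hx1]
      linarith
    rw [hm]
    have e1 : Real.exp (j * (-1 * ((1 + x)⁻¹ * s))) ≤ 1 := by
      rw [Real.exp_le_one_iff]
      have : 0 ≤ (j : ℝ) * ((1 + x)⁻¹ * s) := by positivity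
      linarith
    have e2 : Real.exp (-(1 / δ * (Hs (-1) x n ((1 + x)⁻¹ * s) s +
        (n + -1 * ((1 + x)⁻¹ * s)) * z))) ≤ Real.exp (-(h * r)) := by
      refine Real.exp_le_exp.2 (neg_le_neg ?_)
      have := mul_le_mul_of_nonneg_left (H1 s hs1 hs2) hw.le
      calc h * r = h * (1 / δ * (r * δ)) := by rw [hwd]
        _ = 1 / δ * (h * (r * δ)) := by ring
        _ ≤ 1 / δ * (Hs (-1) x n ((1 + x)⁻¹ * s) s - ((1 + x)⁻¹ * s - n) * z) := this
        _ = _ := by ring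
    have h3 := hpv1 (-1 * s)
    have h4 := Real.exp_pos (j * (-1 * ((1 + x)⁻¹ * s)))
    calc ‖pv (1 + x)⁻¹ (ts x) (-1 * s)‖ * (Real.exp (j * (-1 * ((1 + x)⁻¹ * s))) *
          Real.exp (-(1 / δ * (Hs (-1) x n ((1 + x)⁻¹ * s) s +
            (n + -1 * ((1 + x)⁻¹ * s)) * z)))) ≤ pvm * (1 * Real.exp (-(h * r))) := by gcongr
      _ = _ := by ring
  · intro φ hφ1 hφ2
    have hφ : |φ| ≤ 8035 / 10000 := by
      rw [abs_le]
      constructor
      · linarith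
      · linarith
    have hs3 : 137 / 25 ≤ 2 * Real.pi + φ := by linarith
    rw [hfar _ hs3]
    have hH := mul_le_mul_of_nonneg_left (t2_lump_H (ε := -1) (v := n) (a := ta x) hx0 hφ) hw.le
    have he : Real.exp (-(1 / δ * (Hs (-1) x n (ta x) (2 * Real.pi + φ) - (ta x - n) * z))) ≤
        Real.exp (-(1 / δ * tH (-1) x n)) * Real.exp (1 / δ * (ta x - n) * z) *
          Real.exp (-(1 / δ * tm (-1) x n * φ + (1 / δ * tμ (-1) x n - 1) * φ ^ 2)) := by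
      rw [← Real.exp_add, ← Real.exp_add]
      refine Real.exp_le_exp.2 ?_
      unfold tH tm tμ
      have hφ2 : 0 ≤ φ ^ 2 := sq_nonneg φ
      linarith
    have hE := Real.exp_pos (-(1 / δ * (Hs (-1) x n (ta x) (2 * Real.pi + φ) - (ta x - n) * z)))
    calc Real.exp (-(j * ta x)) *
          Real.exp (-(1 / δ * (Hs (-1) x n (ta x) (2 * Real.pi + φ) - (ta x - n) * z))) ≤
          1 * Real.exp (-(1 / δ * (Hs (-1) x n (ta x) (2 * Real.pi + φ) - (ta x - n) * z))) := by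
          gcongr
      _ ≤ _ := by rw [one_mul]; exact he
  · intro φ hφ1 hφ2
    have hs3 : 137 / 25 ≤ 2 * Real.pi + φ := by linarith
    rw [hfar _ hs3]
    have he : Real.exp (-(1 / δ * (Hs (-1) x n (ta x) (2 * Real.pi + φ) - (ta x - n) * z))) ≤
        Real.exp (-(15 / 100 * r)) := by
      refine Real.exp_le_exp.2 (neg_le_neg ?_)
      have := mul_le_mul_of_nonneg_left (H3 φ hφ1 hφ2) hw.le
      calc 15 / 100 * r = 15 / 100 * (1 / δ * (r * δ)) := by rw [hwd]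
        _ = 1 / δ * (15 / 100 * (r * δ)) := by ring
        _ ≤ _ := this
    have hE := Real.exp_pos (-(1 / δ * (Hs (-1) x n (ta x) (2 * Real.pi + φ) - (ta x - n) * z)))
    calc Real.exp (-(j * ta x)) *
          Real.exp (-(1 / δ * (Hs (-1) x n (ta x) (2 * Real.pi + φ) - (ta x - n) * z))) ≤
          1 * Real.exp (-(15 / 100 * r)) := by
          gcongr
      _ = _ := one_mul _
  · intro s hs
    have hs2 : 137 / 25 ≤ s + 2 * Real.pi := by linarith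
    rw [hfar _ hs, hfar _ hs2, t2_per]
    have hq := t2_q hlam
    have e1 : Real.exp (-(1 / δ * (Hs (-1) x n (ta x) s + 2 * Real.pi * (ta x - n) -
        (ta x - n) * z))) =
        Real.exp (-(1 / δ * (Hs (-1) x n (ta x) s - (ta x - n) * z))) *
          Real.exp (-(2 * Real.pi * (1 / δ * (ta x - n)))) := by
      rw [← Real.exp_add]
      congr 1
      ring
    rw [e1]
    have hE := Real.exp_pos (-(1 / δ * (Hs (-1) x n (ta x) s - (ta x - n) * z)))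
    calc Real.exp (-(j * ta x)) * (Real.exp (-(1 / δ * (Hs (-1) x n (ta x) s - (ta x - n) * z))) *
          Real.exp (-(2 * Real.pi * (1 / δ * (ta x - n))))) ≤
          Real.exp (-(j * ta x)) * (Real.exp (-(1 / δ * (Hs (-1) x n (ta x) s - (ta x - n) * z))) *
          (54 / 100000)) := by gcongr
      _ = _ := by ring

end SokalV3
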