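import Pool.Agent.Lib_MP_af4de1_v3.OutR5

/-!
# `N = 2`, `outR`: the two integrals
-/

set_option autoImplicit false

open Complex MeasureTheory Set SokalU SokalPG SokalF1 SokalF1S SokalF1M SokalF1G SokalF1B SokalV3F

namespace SokalV3

theorem oF_split {f : ℝ → ℝ} (hf : Integrable f) (h0 : ∀ s, 0 ≤ f s) :
    ∫ s, f s ≤ (∫ s in Icc (-(3 / 2 : ℝ)) (3 / 2), f s) +
      ((∫ s in Ici (3 / 2), f (1 * s)) + ∫ s in Ici (3 / 2), f (-1 * s)) := by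
  have hm : MeasurableSet {s : ℝ | 3 / 2 ≤ |s|} :=
    (isClosed_le continuous_const continuous_abs).measurableSet
  rw [← t2_split hf, ← integral_add_compl hm hf, add_comm]
  have : ∫ s in {s : ℝ | 3 / 2 ≤ |s|}ᶜ, f s ≤ ∫ s in Icc (-(3 / 2 : ℝ)) (3 / 2), f s := by
    refine setIntegral_mono_set hf.integrableOn (Filter.Eventually.of_forall h0) ?_
    refine Filter.Eventually.of_forall fun s hs => ?_
    have h1 : ¬ (3 / 2 ≤ |s|) := hs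
    push Not at h1
    have h2 := abs_lt.1 h1
    exact ⟨h2.1.le, h2.2.le⟩
  linarith

theorem oF_nonneg (x n z δ : ℝ) (j : ℕ) (s : ℝ) : 0 ≤ oF x n z δ j s := by
  unfold oF
  positivity

/-- both integrals -/
theorem oF_total {x n z δ r D κ dl sq pvm Cc cm h P1 P2 Q Kh Λ T : ℝ} {j : ℕ} (hj : j ≤ 1)
    (hδ : 0 < δ) (hx : 4932 / 1000 ≤ x) (hcm : cm ≤ 1686 / 10000) (hxc : (1 + x)⁻¹ ≤ cm)
    (hn0 : 0 < n) (hn : n * (1 + x) ≤ 286 / 100) (hκ0 : 4 / 5 ≤ κ) (hκ1 : κ ≤ 9 / 10)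
    (hκ : ∀ c : ℝ, 0 ≤ c → c ≤ cm → 0 ≤ (4765 / 10000 - κ / 2) - (8339 / 10000 - κ / 2) * c +
      4999 / 10000 * c ^ 2 - 236 / 100 * c ^ 3)
    (hz : 0 ≤ z) (hwx : 499 / 10 ≤ 1 / δ * x) (hD0 : 0 < D) (hD : D ≤ dl * x)
    (hdl : dl ≤ 1021 / 1000) (hsq : dl ≤ κ * sq ^ 2) (hsq0 : 0 ≤ sq) (hpv : 1 + cm ^ 2 ≤ pvm ^ 2)
    (hpv1 : 1 ≤ pvm) (hC : pvm * (10005 / 10000 * sq + 1 / 100) ≤ Cc)
    (hT1 : TH 1 x (-n) (1 / δ) (r * δ)) (hT2 : TH (-1) x n (1 / δ) (r * δ))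
    (hE1 : Real.exp (-(23 / 100 * r)) ≤ 376 / 10000000 * √(2 * Real.pi / (1 / δ * D)))
    (hE3 : Real.exp (-(1 / 4 * r)) ≤ 139 / 10000000 * √(2 * Real.pi / (1 / δ * D)))
    (hE4 : Real.exp (-(15 / 100 * r)) ≤ 21 / 10000 * √(2 * Real.pi / (1 / δ * D)))
    (hKh : Real.exp (-(h * r)) ≤ Kh * √(2 * Real.pi / (1 / δ * D)))
    (hP1 : tP 1 x (-n) (1 / δ) ≤ P1 * √(2 * Real.pi / (1 / δ * D)))
    (hP2 : tP (-1) x n (1 / δ) ≤ P2 * √(2 * Real.pi / (1 / δ * D)))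
    (hQ : tP (-1) x n (1 / δ) * Real.exp (1 / δ * (ta x - n) * z) ≤
      Q * √(2 * Real.pi / (1 / δ * D)))
    (H1 : ∀ s, 3 / 2 ≤ s → s ≤ 137 / 25 → h * (r * δ) ≤
      Hs (-1) x n ((1 + x)⁻¹ * s) s - ((1 + x)⁻¹ * s - n) * z)
    (H3 : ∀ φ, 4 / 5 ≤ φ → φ ≤ 137 / 25 → 15 / 100 * (r * δ) ≤
      Hs (-1) x n (ta x) (2 * Real.pi + φ) - (ta x - n) * z)
    (hΛ : Λ ≤ 1 / δ * (n - 3 / 2 * (1 + x)⁻¹) * z) (hT : Cc * Real.exp (-Λ) ≤ T)
    (num0 : Cc + 27183 / 10000 * (1001 / 1000 * P1 + 1 / 1000) + (1001 / 1000 * P2 + 1 / 1000) ≤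
      13 / 10)
    (numZ : T + 27183 / 10000 * (1001 / 1000 * P1 + 1 / 1000) + (4 * pvm * Kh +
      1001 / 1000 * (Q + 1 / 100)) ≤ 13 / 10) :
    (∫ s, oF x n 0 δ j s ≤ 13 / 10 * √(2 * Real.pi / (1 / δ * D))) ∧
    (∫ s, oF x n z δ j s ≤ 13 / 10 * √(2 * Real.pi / (1 / δ * D))) := by
  have hx0 : 0 < x := by linarith
  have hw : 0 < 1 / δ := by positivity
  have hnt : n < ta x := by
    by_contra hcon
    push Not at hcon
    have h1 := hT2.lam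
    have := mul_nonpos_of_nonneg_of_nonpos hw.le (by linarith : ta x - n ≤ 0)
    linarith
  set G := √(2 * Real.pi / (1 / δ * D)) with hG
  have hG0 : 0 ≤ G := Real.sqrt_nonneg _
  have hC0 : 0 ≤ Cc := le_trans (by positivity) hC
  have hpvc : 1 + ((1 + x)⁻¹) ^ 2 ≤ pvm ^ 2 := by
    have hc0 : 0 < (1 + x)⁻¹ := inv_pos.2 (by linarith)
    have : ((1 + x)⁻¹) ^ 2 ≤ cm ^ 2 := by gcongr
    linarith
  have core : ∀ z' : ℝ, 0 ≤ z' → ∫ s in Icc (-(3 / 2 : ℝ)) (3 / 2), oF x n z' δ j s ≤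
      Cc * Real.exp (-(1 / δ * (n - 3 / 2 * (1 + x)⁻¹) * z')) * G := fun z' hz' =>
    outR_core_int hj hδ hx hcm hxc hn0 hn hκ0 hκ1 hκ hz' hwx hD0 hD hdl hsq hsq0 hpv
      (by linarith) hC hnt
  have light : ∀ z' : ℝ, 0 ≤ z' → ∫ s in Ici (3 / 2), oF x n z' δ j (1 * s) ≤
      27183 / 10000 * (1001 / 1000 * P1 + 1 / 1000) * G := by
    intro z' hz'
    have h1 := oF_half (r := r) (K := 27183 / 10000) hj (Or.inl rfl) (by linarith) hδ hn0 hnt hz'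
      (Or.inl ⟨rfl, rfl⟩) (by rwa [one_mul])
    rw [one_mul (-n)] at h1
    linarith
  have hs0 := oF_split (oF_int (z := 0) (j := j) hx0.le hδ hn0 hnt) (oF_nonneg x n 0 δ j)
  have hsZ := oF_split (oF_int (z := z) (j := j) hx0.le hδ hn0 hnt) (oF_nonneg x n z δ j)
  constructor
  · have h1 := core 0 le_rfl
    have h2 := light 0 le_rfl
    have h3 := oF_half (z := 0) (r := r) (K := 1) hj (Or.inr rfl) (by linarith) hδ hn0 hnt le_rfl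
      (Or.inr ⟨rfl, rfl, rfl⟩) (by rwa [neg_mul_neg, one_mul])
    rw [neg_mul_neg, one_mul, one_mul] at h3
    rw [mul_zero, neg_zero, Real.exp_zero, mul_one] at h1
    have h4 := mul_le_mul_of_nonneg_right num0 hG0
    linarith
  · have h1 := core z hz
    have h2 := light z hz
    have h3 := oF_heavy (r := r) (h := h) (j := j) (by linarith) hδ hn0 hnt hz hT2.lam hT2.mu hpvc
      hpv1 H1 H3
    have h5 : Cc * Real.exp (-(1 / δ * (n - 3 / 2 * (1 + x)⁻¹) * z)) ≤ T := by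
      refine le_trans ?_ hT
      have : Real.exp (-(1 / δ * (n - 3 / 2 * (1 + x)⁻¹) * z)) ≤ Real.exp (-Λ) :=
        Real.exp_le_exp.2 (by linarith)
      gcongr
    have h6 := mul_le_mul_of_nonneg_right h5 hG0
    have h7 : pvm * Real.exp (-(h * r)) ≤ pvm * (Kh * G) := by gcongr
    have h4 := mul_le_mul_of_nonneg_right numZ hG0
    linarith

end SokalV3
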