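import Pool.Agent.Lib_MP_af4de1_v3.OutR6

/-!
# `N = 2`, `outR`: the saddle, heights on `[3/2, 19/4]`, the level of the core
-/

set_option autoImplicit false

open Complex MeasureTheory Set SokalU SokalPG SokalF1 SokalF1S SokalF1M SokalF1G SokalF1B SokalV3F

namespace SokalV3

theorem outR_sad {ρ n e : ℝ} (hD : Dom ρ (-n)) (hρ : 16 / 5 ≤ ρ) (h0 : 0 ≤ n) (h1 : n ≤ 1 / 2)
    (hE : sE ρ (-n) = -e) :
    ρ ≤ sx ρ (-n) ∧ sx ρ (-n) ≤ ρ + e ∧ ρ + e ≤ sx ρ (-n) + n / sx ρ (-n) ∧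
      ρ * (Real.exp n - 1) ≤ e ∧ sx ρ (-n) * (1 - Real.exp (-n)) ≤ e ∧
      sx ρ (-n) - ρ ≤ n * sx ρ (-n) := by
  have hρ0 : 0 < ρ := hD.1
  have hx := SokalF1T.sx_ge (ρ := ρ) (y := -n) (by linarith) (by linarith) (by linarith)
  obtain ⟨h2, h3⟩ := neg_facts hD (by linarith) (by linarith)
  rw [neg_neg] at h2 h3
  have hx0 : 0 < sx ρ (-n) := by linarith
  have hee : Real.exp n * Real.exp (-n) = 1 := by rw [← Real.exp_add]; simp
  have he0 := Real.exp_pos (-n)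
  have hen := Real.exp_pos n
  have he1 : Real.exp (-n) ≤ 1 := by
    rw [Real.exp_le_one_iff]
    linarith
  rw [hE, neg_neg] at h2
  have hpsi0 : 0 ≤ -sP ρ (-n) := by
    have := sP_nonpos hρ0 (by linarith : -n ≤ 0)
    linarith
  have hcos : sx ρ (-n) = ρ * Real.exp n * Real.cos (-sP ρ (-n)) := by
    rw [Real.cos_neg, hD.cos]
    have e : ρ * Real.exp n * (sx ρ (-n) * Real.exp (-n) / ρ) =
        sx ρ (-n) * (Real.exp n * Real.exp (-n)) := by
      field_simp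
    rw [e, hee, mul_one]
  have hsin : n = ρ * Real.exp n * Real.sin (-sP ρ (-n)) := by
    rw [Real.sin_neg, hD.sin]
    have e : ρ * Real.exp n * -(-n * Real.exp (-n) / ρ) = n * (Real.exp n * Real.exp (-n)) := by
      field_simp
    rw [e, hee, mul_one]
  have hpsi : -sP ρ (-n) ≤ n / sx ρ (-n) := by
    refine SokalP2O.ang_le hx0 (by positivity) hcos hsin hpsi0 ?_
    refine lt_of_le_of_ne ?_ ?_
    · have := sP_abs_le ρ (-n)
      have h4 := (abs_le.1 this).1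
      linarith
    · intro h
      rw [h, Real.cos_pi_div_two, mul_zero] at hcos
      linarith
  refine ⟨hx, by linarith, ?_, h2, ?_, ?_⟩
  · unfold sE at hE
    linarith
  · have h4 : sx ρ (-n) * (1 - Real.exp (-n)) ≤ ρ * Real.exp n * (1 - Real.exp (-n)) := by
      have : 0 ≤ 1 - Real.exp (-n) := by linarith
      gcongr
    have h5 : ρ * Real.exp n * (1 - Real.exp (-n)) = ρ * (Real.exp n - 1) := by
      linear_combination (-ρ) * hee
    linarith
  · have h4 : sx ρ (-n) * Real.exp (-n) ≤ ρ := by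
      have := mul_le_mul_of_nonneg_right h3 he0.le
      have e2 : ρ * Real.exp n * Real.exp (-n) = ρ := by rw [mul_assoc, hee, mul_one]
      linarith
    have h5 := Real.add_one_le_exp (-n)
    have h6 := mul_le_mul_of_nonneg_left h5 hx0.le
    linarith

theorem outR_facts {ρ n e e0 e1 ρ0 N0 d1 d2 : ℝ} (hD : Dom ρ (-n)) (h0 : 0 ≤ n) (h1 : n ≤ 1 / 2)
    (hE : sE ρ (-n) = -e) (he1 : e ≤ e1) (he0 : e0 ≤ e) (he : 0 ≤ e1) (hρ : ρ0 ≤ ρ)
    (hρ0 : 16 / 5 ≤ ρ0)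
    (hN : e1 / ρ0 - (e1 / ρ0) ^ 2 / 2 + (e1 / ρ0) ^ 3 / 3 ≤ N0) (hd1 : d1 + N0 / ρ0 ≤ e0)
    (hd2 : d2 + N0 / (ρ0 + d1) ≤ e0) (hd10 : 0 ≤ d1) (hd20 : 0 < d2) :
    0 < n ∧ ρ ≤ sx ρ (-n) ∧ sx ρ (-n) ≤ ρ + e1 ∧ ρ + d1 ≤ sx ρ (-n) ∧ ρ + d2 ≤ sx ρ (-n) ∧
      Real.exp n ≤ 1 + e1 / ρ ∧ sx ρ (-n) * (1 - Real.exp (-n)) ≤ e1 ∧
      sx ρ (-n) - ρ ≤ n * sx ρ (-n) := by
  have hρp : 0 < ρ := by linarith
  have hρ0p : 0 < ρ0 := by linarith
  obtain ⟨f1, f2, f3, f4, f5, f6⟩ := outR_sad hD (by linarith) h0 h1 hE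
  set x := sx ρ (-n) with hx
  have hx0 : 0 < x := by linarith
  have hen : Real.exp n ≤ 1 + e1 / ρ := by
    have : Real.exp n - 1 ≤ e1 / ρ := by
      rw [le_div_iff₀ hρp]
      linarith
    linarith
  have hn : n ≤ N0 := by
    refine le_trans (le_log3 (by positivity) (hen.trans ?_)) hN
    gcongr
  have hN0 : 0 ≤ N0 := h0.trans hn
  have g1 : n / x ≤ N0 / ρ0 := by
    calc n / x ≤ N0 / x := by gcongr
      _ ≤ N0 / ρ0 := div_le_div_of_nonneg_left hN0 hρ0p (by linarith)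
  have g2 : ρ + d1 ≤ x := by linarith
  have g3 : n / x ≤ N0 / (ρ0 + d1) := by
    calc n / x ≤ N0 / x := by gcongr
      _ ≤ N0 / (ρ0 + d1) := div_le_div_of_nonneg_left hN0 (by linarith) (by linarith)
  have g4 : ρ + d2 ≤ x := by linarith
  refine ⟨?_, f1, by linarith, g2, g4, hen, by linarith, f6⟩
  by_contra hcon
  push Not at hcon
  have : n * x ≤ 0 := mul_nonpos_of_nonpos_of_nonneg hcon hx0.le
  linarith

theorem outR_nx {x n e x0 : ℝ} (h0 : 0 ≤ n) (h1 : n ≤ 1 / 2) (hu : x * (1 - Real.exp (-n)) ≤ e)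
    (hx : x0 ≤ x) (hx0 : 0 < x0) (he : 0 ≤ e)
    (num : e * (1 + 1 / x0) * (1 + 69 / 100 * (e / x0)) ≤ 286 / 100) :
    n * (1 + x) ≤ 286 / 100 := by
  obtain ⟨g1, g2, g3⟩ := tf_log h0 h1
  set u := 1 - Real.exp (-n) with hud
  have hxp : 0 < x := by linarith
  have hu1 : u ≤ e / x0 := by
    rw [le_div_iff₀ hx0]
    have : u * x0 ≤ u * x := by gcongr
    linarith
  calc n * (1 + x) ≤ (u + 69 / 100 * u ^ 2) * (1 + x) := by gcongr
    _ = (x * u) * (1 + 1 / x) * (1 + 69 / 100 * u) := by field_simp; ring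
    _ ≤ e * (1 + 1 / x0) * (1 + 69 / 100 * (e / x0)) := by gcongr
    _ ≤ _ := num

theorem outR_lam {x ρ n w w0 z z0 d0 Λ : ℝ} (hρ : 0 < ρ) (hd : 3 / 2 ≤ d0) (hx : ρ + d0 ≤ x)
    (hn : x - ρ ≤ n * x) (hw0 : 0 ≤ w0) (hw : w0 ≤ w) (hz0 : 0 ≤ z0) (hz : z0 ≤ z)
    (h : Λ * ((ρ + d0) * (1 + (ρ + d0))) ≤ w0 * z0 * ((d0 - 3 / 2) * (ρ + d0) + d0)) :
    Λ ≤ w * (n - 3 / 2 * (1 + x)⁻¹) * z := by
  have hX : 0 < ρ + d0 := by linarith
  have hx0 : 0 < x := by linarith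
  set M := ((d0 - 3 / 2) * (ρ + d0) + d0) / ((ρ + d0) * (1 + (ρ + d0))) with hM
  have hM0 : 0 ≤ M := by
    have : 0 ≤ d0 - 3 / 2 := by linarith
    have : 0 ≤ d0 := by linarith
    positivity
  have h1 : M ≤ n - 3 / 2 * (1 + x)⁻¹ := by
    have h2 : 1 - ρ / (ρ + d0) ≤ n := by
      have h3 : ρ / x ≤ ρ / (ρ + d0) := by gcongr
      have h4 : 1 - ρ / x ≤ n := by
        have : 1 - ρ / x = (x - ρ) / x := by field_simp
        rw [this, div_le_iff₀ hx0]
        exact hn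
      linarith
    have h3 : (1 + x)⁻¹ ≤ (1 + (ρ + d0))⁻¹ := by
      apply inv_anti₀ (by linarith)
      linarith
    have e : M = 1 - ρ / (ρ + d0) - 3 / 2 * (1 + (ρ + d0))⁻¹ := by
      rw [hM]
      field_simp
      ring
    rw [e]
    linarith
  have h2 : Λ ≤ w0 * z0 * M := by
    rw [hM, ← mul_div_assoc, le_div_iff₀ (by positivity)]
    exact h
  have hw1 : 0 ≤ w := hw0.trans hw
  have h3 : 0 ≤ n - 3 / 2 * (1 + x)⁻¹ := hM0.trans h1
  calc Λ ≤ w0 * z0 * M := h2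
    _ = w0 * M * z0 := by ring
    _ ≤ w * (n - 3 / 2 * (1 + x)⁻¹) * z :=
        mul_le_mul (mul_le_mul hw h1 hM0 hw1) hz hz0 (mul_nonneg hw1 h3)

theorem outR_K {r δ y : ℝ} (hr : 499 / 10 ≤ r) (hδ : 0 < δ) (hD : Dom (r * δ) y) (hS : Sad2 r δ y) :
    Real.exp (-(9 / 100 * r)) ≤ 407 / 10000 * sG r δ y ∧
    Real.exp (-(15 / 100 * r)) ≤ 21 / 10000 * sG r δ y := by
  have hρ := hD.1
  have hr0 : 0 < r := by linarith
  have h1 := t2_D hD hS.lo (hS.hi) hS.D
  have hDp : 0 < √(sD2 (r * δ) y) := Real.sqrt_pos.2 (by linarith [hS.D])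
  obtain ⟨p1, p2⟩ := t2_pi
  have hG : 38107 / 10000 / r ≤ sG r δ y ^ 2 := by
    unfold sG
    rw [Real.sq_sqrt (by positivity), le_div_iff₀ hDp]
    calc 38107 / 10000 / r * √(sD2 (r * δ) y) ≤ 38107 / 10000 / r * (16488 / 10000 * (r * δ)) := by
          gcongr
      _ = 38107 / 10000 * (16488 / 10000) * δ := by field_simp
      _ ≤ 2 * Real.pi * δ := by
          refine mul_le_mul_of_nonneg_right ?_ hδ.le
          refine le_trans ?_ p1
          norm_num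
  have hGn : 0 ≤ sG r δ y := Real.sqrt_nonneg _
  have key : ∀ α K : ℝ, 0 ≤ K → r * Real.exp (-(2 * α * r)) ≤ K ^ 2 * (38107 / 10000) →
      Real.exp (-(α * r)) ≤ K * sG r δ y := by
    intro α K hK h
    refine abs_le_of_sq_le_sq' ?_ (by positivity) |>.2
    have e : Real.exp (-(α * r)) ^ 2 = Real.exp (-(2 * α * r)) := by
      rw [← Real.exp_nat_mul]
      congr 1
      push_cast
      ring
    rw [e, mul_pow]
    calc Real.exp (-(2 * α * r)) = (r * Real.exp (-(2 * α * r))) / r := by field_simp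
      _ ≤ K ^ 2 * (38107 / 10000) / r := by gcongr
      _ = K ^ 2 * (38107 / 10000 / r) := by ring
      _ ≤ K ^ 2 * sG r δ y ^ 2 := by gcongr
  have e1 : (27182818 / 10000000 : ℝ) ≤ Real.exp 1 := by
    have := Real.exp_one_gt_d9
    norm_num at this ⊢
    linarith
  constructor
  · refine key (9 / 100) (407 / 10000) (by norm_num) ?_
    refine t2_decay (by norm_num) hr ?_
    have e2 : (499 / 10 * (2 * (9 / 100)) : ℝ) = (8 : ℕ) * 1 + (2 : ℕ) * (491 / 1000) := by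
      norm_num
    have e3 := Real.sum_le_exp_of_nonneg (x := 491 / 1000) (by norm_num) 5
    simp only [Finset.sum_range_succ, Finset.sum_range_zero, Nat.factorial] at e3
    norm_num at e3
    rw [e2, Real.exp_add, Real.exp_nat_mul, Real.exp_nat_mul]
    calc (499 / 10 : ℝ) ≤ (407 / 10000) ^ 2 * (38107 / 10000) *
          ((27182818 / 10000000) ^ 8 * (1633 / 1000) ^ 2) := by norm_num
      _ ≤ (407 / 10000) ^ 2 * (38107 / 10000) *
          (Real.exp 1 ^ 8 * Real.exp (491 / 1000) ^ 2) := by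
          gcongr
          linarith
  · refine key (15 / 100) (21 / 10000) (by norm_num) ?_
    refine t2_decay (by norm_num) hr ?_
    have e2 : (499 / 10 * (2 * (15 / 100)) : ℝ) = (14 : ℕ) * 1 + (2 : ℕ) * (485 / 1000) := by
      norm_num
    have e3 := Real.sum_le_exp_of_nonneg (x := 485 / 1000) (by norm_num) 5
    simp only [Finset.sum_range_succ, Finset.sum_range_zero, Nat.factorial] at e3
    norm_num at e3
    rw [e2, Real.exp_add, Real.exp_nat_mul, Real.exp_nat_mul]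
    calc (499 / 10 : ℝ) ≤ (21 / 10000) ^ 2 * (38107 / 10000) *
          ((27182818 / 10000000) ^ 14 * (1623 / 1000) ^ 2) := by norm_num
      _ ≤ (21 / 10000) ^ 2 * (38107 / 10000) *
          (Real.exp 1 ^ 14 * Real.exp (485 / 1000) ^ 2) := by
          gcongr
          linarith

/-- heights on `[3/2, 19/4]` -/
theorem outR_h1a {x n z c s : ℝ} (hx : 4932 / 1000 ≤ x) (hc0 : 0 < c) (hxc : x * c = 1 - c)
    (hc1 : c ≤ 1686 / 10000) (hn : n ≤ 286 / 100 * c) (hcn : c ≤ n) (hz0 : 0 ≤ z)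
    (hz : z + 1884 / 1000 ≤ Real.pi) (h1 : 3 / 2 ≤ s) (h2 : s ≤ 19 / 4) :
    17 / 100 * x ≤ Hs (-1) x n (c * s) s - (c * s - n) * z := by
  have hpi := Real.pi_gt_three
  have h := SokalP2O.crudeR1 (x := x) (n := n) (z := z) (c := c) (a := c * s) (a1 := 19 / 4 * c)
    (t := s) (by linarith) hc0 (by linarith) (by linarith) (by linarith) hcn hz0 (by linarith)
    (by positivity) (by nlinarith) (by linarith) le_rfl (fun h3 => ?_) (by linarith) ?_
    (by linarith) h2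
  · unfold SokalP2O.HR at h
    unfold Hs
    have e1 : (-1 : ℝ) * (c * s) = -(c * s) := by ring
    rw [e1]
    linarith
  · have : c * (286 / 100) ≤ c * s := by
      refine mul_le_mul_of_nonneg_left ?_ hc0.le
      linarith
    linarith
  · have h3 : (19 / 4 * c - 286 / 100 * c) * (1884 / 1000) ≤ (19 / 4 * c - n) * (Real.pi - z) := by
      have : 0 ≤ 19 / 4 * c - 286 / 100 * c := by linarith
      exact mul_le_mul (by linarith) (by linarith) (by norm_num) (by linarith)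
    have key : c * (17 / 100 * x) ≤ c * (859 / 1000 * x * (1 - 19 / 4 * c) -
        141 / 2000 * x * (19 / 4 * c) ^ 2 + (19 / 4 * c - 286 / 100 * c) * (1884 / 1000)) := by
      have e1 : c * (17 / 100 * x) = 17 / 100 * (1 - c) := by rw [← hxc]; ring
      have e2 : c * (859 / 1000 * x * (1 - 19 / 4 * c) -
          141 / 2000 * x * (19 / 4 * c) ^ 2 + (19 / 4 * c - 286 / 100 * c) * (1884 / 1000)) =
          859 / 1000 * (1 - c) * (1 - 19 / 4 * c) - 141 / 2000 * (1 - c) * (19 / 4 * c) ^ 2 +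
          (19 / 4 - 286 / 100) * (1884 / 1000) * c ^ 2 := by rw [← hxc]; ring
      rw [e1, e2]
      have h5 : 0 ≤ c ^ 3 := by positivity
      nlinarith
    have := le_of_mul_le_mul_left key hc0
    linarith

end SokalV3
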