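import Pool.Agent.Lib_MP_af4de1_v3.T2FactB

/-!
# `N = 2`: `PTFact`, part C: `p1` and `p3`, the remaining three cases (helper34)
-/

set_option autoImplicit false
set_option maxHeartbeats 4000000

open Complex MeasureTheory Set SokalU SokalPG SokalF1 SokalF1S SokalF1M SokalF1G SokalF1B

namespace SokalV3

/-- `cos s ≤ .6945` on `[47/10, 137/25]` -/
theorem tf_cosC {s : ℝ} (h1 : 47 / 10 ≤ s) (h2 : s ≤ 137 / 25) : Real.cos s ≤ 6945 / 10000 := by
  have := tf_p4 (x := 1) (v := 0) (by norm_num) le_rfl (by norm_num) h1 h2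
  linarith

/-! ### `ε = 1`, `y ≤ 0`, `v = y = -n` -/

theorem tf_m1 {x n ρ s : ℝ} (hx : 16 / 5 ≤ x) (hn0 : 0 ≤ n) (hρ1 : ρ ≤ x)
    (h1 : 3 / 2 ≤ s) (h2 : s ≤ 137 / 25) :
    23 / 100 * ρ ≤ Hs 1 x (-n) (min 1 ((1 + x)⁻¹ * s)) s := by
  have hx0 : 0 < x := by linarith
  have hx1 : 0 < 1 + x := by linarith
  have hs : 0 ≤ s := by linarith
  have ham := tf_amin hx1 hs
  have has : min 1 ((1 + x)⁻¹ * s) ≤ 5 / 21 * s := by
    refine (min_le_right _ _).trans ?_
    have : (1 + x)⁻¹ ≤ 5 / 21 := by
      rw [inv_le_comm₀ hx1 (by norm_num)]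
      norm_num
      linarith
    gcongr
  set a := min 1 ((1 + x)⁻¹ * s) with had
  have ha0 : 0 ≤ a := by
    rcases ham with ⟨h, _⟩ | ⟨_, _, h⟩
    · rw [h]; norm_num
    · exact h
  have ha1 : a ≤ 1 := by
    rcases ham with ⟨h, _⟩ | ⟨_, h, _⟩
    · rw [h]
    · exact h
  have hE := tf_E ha0 ha1
  have hE0 := Real.exp_pos a
  have hsin := Real.sin_le_one s
  have hEs : Real.exp a ≤ s := by
    have h3 : a ^ 2 ≤ (5 / 21 * s) ^ 2 := by gcongr
    have h4 : 1 + 5 / 21 * s + 7184 / 10000 * (5 / 21 * s) ^ 2 ≤ s := by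
      nlinarith [mul_nonneg (by linarith : 0 ≤ s - 3 / 2) (by linarith : 0 ≤ 137 / 25 - s)]
    linarith
  have hn : n * (Real.exp a * Real.sin s) ≤ n * s := by
    refine mul_le_mul_of_nonneg_left ?_ hn0
    calc Real.exp a * Real.sin s ≤ Real.exp a * 1 := by gcongr
      _ ≤ s := by linarith
  have e1 : Hs 1 x (-n) a s = a * s + x * (1 + a) - x * (Real.exp a * Real.cos s) +
      (n * s - n * (Real.exp a * Real.sin s)) := by
    unfold Hs
    rw [one_mul]
    ring
  rw [e1]
  rcases le_total s (47 / 10) with h3 | h3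
  · have hc := tf_cosA h1 h3
    have h4 : Real.exp a * Real.cos s ≤ 1930 / 10000 := by
      have h5 : Real.exp a ≤ 27184 / 10000 := by
        have : a ^ 2 ≤ 1 := by nlinarith
        linarith
      calc Real.exp a * Real.cos s ≤ Real.exp a * (708 / 10000) := by gcongr
        _ ≤ 27184 / 10000 * (708 / 10000) := by gcongr
        _ ≤ _ := by norm_num
    have h5 : x * (Real.exp a * Real.cos s) ≤ x * (1930 / 10000) := by gcongr
    have h6 : 0 ≤ a * s := by positivity
    have h7 : 0 ≤ x * a := by positivity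
    linarith
  · have hc := tf_cosC h3 h2
    have h4 : Real.exp a * Real.cos s ≤ 6945 / 10000 * (1 + a + 7184 / 10000 * a ^ 2) := by
      calc Real.exp a * Real.cos s ≤ Real.exp a * (6945 / 10000) := by gcongr
        _ ≤ (1 + a + 7184 / 10000 * a ^ 2) * (6945 / 10000) := by gcongr
        _ = _ := by ring
    have h5 : x * (Real.exp a * Real.cos s) ≤
        x * (6945 / 10000 * (1 + a + 7184 / 10000 * a ^ 2)) := by gcongr
    have h6 : 0 ≤ a * s + x * (755 / 10000 + 3055 / 10000 * a - 49893 / 100000 * a ^ 2) := by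
      rcases le_total a (3 / 4) with h7 | h7
      · have h8 : 0 ≤ 755 / 10000 + 3055 / 10000 * a - 49893 / 100000 * a ^ 2 := by nlinarith
        positivity
      · have h8 : x ≤ 631 / 100 := by
          have h9 : a * (1 + x) ≤ 137 / 25 := by
            rcases ham with ⟨h, h'⟩ | ⟨h, _, _⟩
            · rw [h]; linarith
            · linarith
          nlinarith
        have h9 : 3 / 4 * (47 / 10) ≤ a * s := by gcongr
        have h10 : -(12 / 100) ≤ 755 / 10000 + 3055 / 10000 * a - 49893 / 100000 * a ^ 2 := by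
          nlinarith
        have h11 : x * (-(12 / 100)) ≤
            x * (755 / 10000 + 3055 / 10000 * a - 49893 / 100000 * a ^ 2) := by gcongr
        linarith
    have h7 : 0 ≤ x * a ^ 2 := by positivity
    nlinarith

theorem tf_m3 {x n ρ φ : ℝ} (hx : 16 / 5 ≤ x) (hn0 : 0 ≤ n) (hρ1 : ρ ≤ x)
    (h1 : 4 / 5 ≤ φ) (_h2 : φ ≤ 137 / 25) :
    1 / 4 * ρ ≤ Hs 1 x (-n) (ta x) (2 * Real.pi + φ) := by
  have hx0 : 0 < x := by linarith
  have hx1 : 0 < 1 + x := by linarith
  have hpi := tf_pi
  rw [tf_per]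
  have hta := tf_ta hx0.le
  set a := ta x with had
  have ha0 : 0 ≤ a := by
    rcases hta with ⟨h, _⟩ | ⟨_, _, h, _⟩
    · rw [h]; norm_num
    · exact h
  have ha1 : a ≤ 1 := by
    rcases hta with ⟨h, _⟩ | ⟨_, h, _⟩
    · rw [h]
    · exact h
  have hE := tf_E ha0 ha1
  have hE0 := Real.exp_pos a
  have hsin := Real.sin_le_one φ
  have hc := tf_cosB h1 _h2
  have h5 : Real.exp a ≤ 27184 / 10000 := by
    have : a ^ 2 ≤ 1 := by nlinarith
    linarith
  have hn : n * (Real.exp a * Real.sin φ) ≤ n * (2 * Real.pi + φ) := by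
    refine mul_le_mul_of_nonneg_left ?_ hn0
    calc Real.exp a * Real.sin φ ≤ Real.exp a * 1 := by gcongr
      _ ≤ 2 * Real.pi + φ := by linarith
  have e1 : (a - -n) * (2 * Real.pi + φ) + x * (1 + 1 * a) -
      Real.exp (1 * a) * (x * Real.cos φ - -n * Real.sin φ) =
      a * (2 * Real.pi + φ) + x * (1 + a) - x * (Real.exp a * Real.cos φ) +
      (n * (2 * Real.pi + φ) - n * (Real.exp a * Real.sin φ)) := by
    rw [one_mul]
    ring
  rw [e1]
  have h4 : Real.exp a * Real.cos φ ≤ 6971 / 10000 * (1 + a + 7184 / 10000 * a ^ 2) := by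
    calc Real.exp a * Real.cos φ ≤ Real.exp a * (6971 / 10000) := by gcongr
      _ ≤ (1 + a + 7184 / 10000 * a ^ 2) * (6971 / 10000) := by gcongr
      _ = _ := by ring
  have h6 : x * (Real.exp a * Real.cos φ) ≤
      x * (6971 / 10000 * (1 + a + 7184 / 10000 * a ^ 2)) := by gcongr
  have h7 : a * (7083 / 1000) ≤ a * (2 * Real.pi + φ) := by
    have : 7083 / 1000 ≤ 2 * Real.pi + φ := by linarith
    gcongr
  have h8 : 0 ≤ a * (7083 / 1000) + x * (529 / 10000 + 3029 / 10000 * a - 5009 / 10000 * a ^ 2) := by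
    rcases le_total a (7 / 10) with h9 | h9
    · have h10 : 0 ≤ 529 / 10000 + 3029 / 10000 * a - 5009 / 10000 * a ^ 2 := by nlinarith
      positivity
    · have h11 : x ≤ 683 / 100 := by
        have h12 : a * (1 + x) ≤ 137 / 25 := by
          rcases hta with ⟨h, h'⟩ | ⟨h, _, _⟩
          · rw [h]; linarith
          · linarith
        nlinarith
      have h10 : -(15 / 100) ≤ 529 / 10000 + 3029 / 10000 * a - 5009 / 10000 * a ^ 2 := by
        nlinarith
      have h12 : x * (-(15 / 100)) ≤
          x * (529 / 10000 + 3029 / 10000 * a - 5009 / 10000 * a ^ 2) := by gcongr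
      linarith
  have h9 : 0 ≤ x * a ^ 2 := by positivity
  nlinarith

/-! ### `ε = -1`, `y ≥ 0`, `v = -y` -/

theorem tf_u1 {x y ρ s : ℝ} (hx : 3 / 2 ≤ x) (hy0 : 0 ≤ y) (hρ : ρ ≤ x + 2105 / 1000)
    (h1 : 3 / 2 ≤ s) (h2 : s ≤ 137 / 25) :
    23 / 100 * ρ ≤ Hs (-1) x (-y) (min 1 ((1 + x)⁻¹ * s)) s := by
  have hx0 : 0 < x := by linarith
  have hx1 : 0 < 1 + x := by linarith
  have hs : 0 ≤ s := by linarith
  have ham := tf_amin hx1 hs
  set a := min 1 ((1 + x)⁻¹ * s) with had
  have ha0 : 0 ≤ a := by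
    rcases ham with ⟨h, _⟩ | ⟨_, _, h⟩
    · rw [h]; norm_num
    · exact h
  have ha1 : a ≤ 1 := by
    rcases ham with ⟨h, _⟩ | ⟨_, h, _⟩
    · rw [h]
    · exact h
  have hq := tf_q ha0 ha1
  have hE0 := Real.exp_pos (-a)
  have hE1 : Real.exp (-a) ≤ 1 := by
    rw [Real.exp_le_one_iff]
    linarith
  have hsin := Real.sin_le_one s
  have hn : y * (Real.exp (-a) * Real.sin s) ≤ y * s := by
    refine mul_le_mul_of_nonneg_left ?_ hy0
    calc Real.exp (-a) * Real.sin s ≤ Real.exp (-a) * 1 := by gcongr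
      _ ≤ s := by linarith
  have e1 : Hs (-1) x (-y) a s = a * s + x * (1 - a) - x * (Real.exp (-a) * Real.cos s) +
      (y * s - y * (Real.exp (-a) * Real.sin s)) := by
    unfold Hs
    rw [neg_one_mul]
    ring
  rw [e1]
  rcases le_total s (47 / 10) with h3 | h3
  · have hc := tf_cosA h1 h3
    have h4 : Real.exp (-a) * Real.cos s ≤ 708 / 10000 := by
      calc Real.exp (-a) * Real.cos s ≤ Real.exp (-a) * (708 / 10000) := by gcongr
        _ ≤ 1 * (708 / 10000) := by gcongr
        _ = _ := one_mul _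
    have h5 : x * (Real.exp (-a) * Real.cos s) ≤ x * (708 / 10000) := by gcongr
    rcases ham with ⟨h, h'⟩ | ⟨h, _, _⟩
    · rw [h] at h5 hn ⊢
      nlinarith
    · have h6 : a * s = a * (a * (1 + x)) := by rw [h]
      rw [h6]
      have h7 : 0 ≤ x * (a - 1 / 2) ^ 2 := by positivity
      nlinarith [sq_nonneg a]
  · have hc := tf_cosC h3 h2
    have h4 : Real.exp (-a) * Real.cos s ≤
        6945 / 10000 * (1 - 19 / 20 * a + 334 / 1000 * a ^ 2) := by
      calc Real.exp (-a) * Real.cos s ≤ Real.exp (-a) * (6945 / 10000) := by gcongr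
        _ ≤ (1 - 19 / 20 * a + 334 / 1000 * a ^ 2) * (6945 / 10000) := by gcongr
        _ = _ := by ring
    have h5 : x * (Real.exp (-a) * Real.cos s) ≤
        x * (6945 / 10000 * (1 - 19 / 20 * a + 334 / 1000 * a ^ 2)) := by gcongr
    rcases ham with ⟨h, h'⟩ | ⟨h, _, _⟩
    · rw [h] at h5 hn ⊢
      nlinarith
    · have ha2 : 0 < a := by
        rcases ha0.eq_or_lt with h6 | h6
        · rw [← h6] at h
          linarith
        · exact h6
      have hax : 47 / 10 - a ≤ a * x := by linarith
      -- `a² + x q2 ≥ .48415`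
      have hq2 : 0 ≤ 755 / 10000 - 34023 / 100000 * a + 768 / 1000 * a ^ 2 := by
        nlinarith [sq_nonneg (a - 2215 / 10000)]
      have h6 : 0 ≤ a * (a ^ 2 + x * (755 / 10000 - 34023 / 100000 * a + 768 / 1000 * a ^ 2) -
          48415 / 100000) := by
        have h7 := mul_le_mul_of_nonneg_right hax hq2
        have h8 : 0 ≤ 35485 / 100000 - 21588 / 10000 * a + 3949 / 1000 * a ^ 2 := by
          nlinarith [sq_nonneg (a - 2733 / 10000)]
        nlinarith [pow_nonneg ha0 3]
      have h7 : 0 ≤ a ^ 2 + x * (755 / 10000 - 34023 / 100000 * a + 768 / 1000 * a ^ 2) -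
          48415 / 100000 := by
        by_contra hcon
        push Not at hcon
        have := mul_neg_of_pos_of_neg ha2 hcon
        linarith
      have h8 : a * s = a * (a * (1 + x)) := by rw [h]
      rw [h8]
      have h9 : 0 ≤ x * a ^ 2 := by positivity
      have h10 : 0 ≤ x * a := by positivity
      nlinarith

theorem tf_u3 {x y ρ φ : ℝ} (hx : 3 / 2 ≤ x) (hy0 : 0 ≤ y) (hρ : ρ ≤ x + 2105 / 1000)
    (h1 : 4 / 5 ≤ φ) (h2 : φ ≤ 137 / 25) :
    1 / 4 * ρ ≤ Hs (-1) x (-y) (ta x) (2 * Real.pi + φ) := by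
  have hx0 : 0 < x := by linarith
  have hx1 : 0 < 1 + x := by linarith
  have hpi := tf_pi
  rw [tf_per]
  have hta := tf_ta hx0.le
  set a := ta x with had
  have ha0 : 0 ≤ a := by
    rcases hta with ⟨h, _⟩ | ⟨_, _, h, _⟩
    · rw [h]; norm_num
    · exact h
  have ha1 : a ≤ 1 := by
    rcases hta with ⟨h, _⟩ | ⟨_, h, _⟩
    · rw [h]
    · exact h
  have hq := tf_q ha0 ha1
  have hE0 := Real.exp_pos (-a)
  have hE1 : Real.exp (-a) ≤ 1 := by
    rw [Real.exp_le_one_iff]
    linarith
  have hsin := Real.sin_le_one φ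
  have hc := tf_cosB h1 h2
  have hn : y * (Real.exp (-a) * Real.sin φ) ≤ y * (2 * Real.pi + φ) := by
    refine mul_le_mul_of_nonneg_left ?_ hy0
    calc Real.exp (-a) * Real.sin φ ≤ Real.exp (-a) * 1 := by gcongr
      _ ≤ 2 * Real.pi + φ := by linarith
  have e1 : (a - -y) * (2 * Real.pi + φ) + x * (1 + -1 * a) -
      Real.exp (-1 * a) * (x * Real.cos φ - -y * Real.sin φ) =
      a * (2 * Real.pi + φ) + x * (1 - a) - x * (Real.exp (-a) * Real.cos φ) +
      (y * (2 * Real.pi + φ) - y * (Real.exp (-a) * Real.sin φ)) := by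
    rw [neg_one_mul]
    ring
  rw [e1]
  have h4 : Real.exp (-a) * Real.cos φ ≤
      6971 / 10000 * (1 - 19 / 20 * a + 334 / 1000 * a ^ 2) := by
    calc Real.exp (-a) * Real.cos φ ≤ Real.exp (-a) * (6971 / 10000) := by gcongr
      _ ≤ (1 - 19 / 20 * a + 334 / 1000 * a ^ 2) * (6971 / 10000) := by gcongr
      _ = _ := by ring
  have h6 : x * (Real.exp (-a) * Real.cos φ) ≤
      x * (6971 / 10000 * (1 - 19 / 20 * a + 334 / 1000 * a ^ 2)) := by gcongr
  have h7 : a * (7083 / 1000) ≤ a * (2 * Real.pi + φ) := by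
    have : 7083 / 1000 ≤ 2 * Real.pi + φ := by linarith
    gcongr
  rcases hta with ⟨h, h'⟩ | ⟨h, _, _, h'⟩
  · rw [h] at h6 h7 hn ⊢
    nlinarith
  · have ha2 : 0 < a := by
      rcases ha0.eq_or_lt with h8 | h8
      · rw [← h8] at h
        linarith
      · exact h8
    have hax : a * x = 137 / 25 - a := by linarith
    have h8 : 0 ≤ a * (a * (7083 / 1000) +
        x * (529 / 10000 - 33776 / 100000 * a - 23284 / 100000 * a ^ 2) - 52625 / 100000) := by
      have e : a * (a * (7083 / 1000) +
        x * (529 / 10000 - 33776 / 100000 * a - 23284 / 100000 * a ^ 2) - 52625 / 100000) =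
        7083 / 1000 * a ^ 2 + (a * x) * (529 / 10000 - 33776 / 100000 * a -
          23284 / 100000 * a ^ 2) - 52625 / 100000 * a := by ring
      rw [e, hax]
      nlinarith [sq_nonneg (a - 1978 / 10000), pow_nonneg ha0 3]
    have h9 : 0 ≤ a * (7083 / 1000) +
        x * (529 / 10000 - 33776 / 100000 * a - 23284 / 100000 * a ^ 2) - 52625 / 100000 := by
      by_contra hcon
      push Not at hcon
      have := mul_neg_of_pos_of_neg ha2 hcon
      linarith
    have h10 : 0 ≤ x * a ^ 2 := by positivity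
    have h11 : 0 ≤ x * a := by positivity
    nlinarith

/-! ### `ε = 1`, `y ≥ 0`, `v = y` -/

theorem tf_v1 {x y ρ s : ℝ} (hx : 3 / 2 ≤ x) (hy0 : 0 ≤ y) (hy1 : y ≤ 61 / 100)
    (hyx : y ≤ 2 / 5 * x) (hE : x * (y + y ^ 2 / 2) ≤ 2105 / 1000)
    (hρ : ρ ≤ x + 2105 / 1000) (h1 : 3 / 2 ≤ s) (h2 : s ≤ 137 / 25) :
    23 / 100 * ρ ≤ Hs 1 x y (min 1 ((1 + x)⁻¹ * s)) s := by
  have hx0 : 0 < x := by linarith
  have hx1 : 0 < 1 + x := by linarith
  have hs : 0 ≤ s := by linarith
  have hpi := tf_pi
  have ham := tf_amin hx1 hs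
  set a := min 1 ((1 + x)⁻¹ * s) with had
  have ha0 : 0 ≤ a := by
    rcases ham with ⟨h, _⟩ | ⟨_, _, h⟩
    · rw [h]; norm_num
    · exact h
  have ha1 : a ≤ 1 := by
    rcases ham with ⟨h, _⟩ | ⟨_, h, _⟩
    · rw [h]
    · exact h
  have hEa := tf_E ha0 ha1
  have hE0 := Real.exp_pos a
  have hE1 : Real.exp a ≤ 1 + 17184 / 10000 * a := by nlinarith
  have hE2 : Real.exp a ≤ 27184 / 10000 := by linarith
  have e1 : Hs 1 x y a s = (a - y) * s + x * (1 + a) -
      Real.exp a * (x * Real.cos s - y * Real.sin s) := by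
    unfold Hs
    rw [one_mul]
  rw [e1]
  rcases le_total s (47 / 10) with h3 | h3
  · have hc := tf_cosA h1 h3
    -- `(a - y) s ≥ -(.093025)(1 + x)` in the slanted case
    have hslant : a * (1 + x) = s → -(93025 / 1000000) * (1 + x) ≤ (a - y) * s := by
      intro h
      have h4 : 0 ≤ (1 + x) * (a ^ 2 - y * a + 93025 / 1000000) := by
        refine mul_nonneg hx1.le ?_
        nlinarith [sq_nonneg (a - y / 2)]
      rw [← h]
      linarith
    rcases le_total s (31 / 10) with h4 | h4
    · have hsin : 0 ≤ Real.sin s := Real.sin_nonneg_of_nonneg_of_le_pi hs (by linarith)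
      have h5 : Real.exp a * (x * Real.cos s - y * Real.sin s) ≤
          x * (708 / 10000 + 1217 / 10000 * a) := by
        have h6 : x * Real.cos s - y * Real.sin s ≤ x * (708 / 10000) := by
          have := mul_nonneg hy0 hsin
          have : x * Real.cos s ≤ x * (708 / 10000) := by gcongr
          linarith
        calc Real.exp a * (x * Real.cos s - y * Real.sin s) ≤ Real.exp a * (x * (708 / 10000)) := by
              gcongr
          _ ≤ (1 + 17184 / 10000 * a) * (x * (708 / 10000)) := by gcongr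
          _ ≤ _ := by
              have : 0 ≤ a * x := by positivity
              nlinarith
      have h6 : 0 ≤ a * x := by positivity
      rcases ham with ⟨h, h'⟩ | ⟨h, _, _⟩
      · rw [h] at h5 ⊢
        nlinarith
      · have := hslant h
        nlinarith
    · have hsin := Real.neg_one_le_sin s
      have h5 : Real.exp a * (x * Real.cos s - y * Real.sin s) ≤
          (1 + 17184 / 10000 * a) * (708 / 10000 * x + y) := by
        have h6 : x * Real.cos s - y * Real.sin s ≤ 708 / 10000 * x + y := by nlinarith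
        have h7 : 0 ≤ 708 / 10000 * x + y := by positivity
        calc Real.exp a * (x * Real.cos s - y * Real.sin s) ≤
              Real.exp a * (708 / 10000 * x + y) := by gcongr
          _ ≤ _ := by gcongr
      rcases ham with ⟨h, h'⟩ | ⟨h, _, _⟩
      · rw [h] at h5 ⊢
        nlinarith
      · have h6 := hslant h
        have h7 : 21 / 10 ≤ x := by nlinarith
        have h8 : a * (21 / 10) ≤ a * x := by gcongr
        have h9 : a * y ≤ a * (61 / 100) := by gcongr
        nlinarith
  · rcases ham with ⟨h, h'⟩ | ⟨h, _, _⟩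
    · -- `a = 1`
      rw [h]
      have hE3 : Real.exp 1 ≤ 27184 / 10000 := by rw [← h]; exact hE2
      have hE4 := Real.exp_pos 1
      rcases le_total s (51 / 10) with h4 | h4
      · have hT := tf_p1 hx0.le hy0 hyx h3 h4
        have hT0 : 0 ≤ 378 / 1000 * x + 9259 / 10000 * y := by positivity
        have h5 : Real.exp 1 * (x * Real.cos s - y * Real.sin s) ≤
            27184 / 10000 * (378 / 1000 * x + 9259 / 10000 * y) := by
          calc Real.exp 1 * (x * Real.cos s - y * Real.sin s) ≤
                Real.exp 1 * (378 / 1000 * x + 9259 / 10000 * y) := by gcongr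
            _ ≤ _ := by gcongr
        nlinarith
      · rcases le_total s (53 / 10) with h5 | h5
        · have hT := tf_p2 hx0.le hy0 hyx h3 h5
          have hT0 : 0 ≤ 5544 / 10000 * x + 8324 / 10000 * y := by positivity
          have h6 : Real.exp 1 * (x * Real.cos s - y * Real.sin s) ≤
              27184 / 10000 * (5544 / 10000 * x + 8324 / 10000 * y) := by
            calc Real.exp 1 * (x * Real.cos s - y * Real.sin s) ≤
                  Real.exp 1 * (5544 / 10000 * x + 8324 / 10000 * y) := by gcongr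
              _ ≤ _ := by gcongr
          nlinarith
        · have hT := tf_p4 hx0.le hy0 hyx h3 h2
          have hT0 : 0 ≤ 6945 / 10000 * x + 72 / 100 * y := by positivity
          have h6 : Real.exp 1 * (x * Real.cos s - y * Real.sin s) ≤
              27184 / 10000 * (6945 / 10000 * x + 72 / 100 * y) := by
            calc Real.exp 1 * (x * Real.cos s - y * Real.sin s) ≤
                  Real.exp 1 * (6945 / 10000 * x + 72 / 100 * y) := by gcongr
              _ ≤ _ := by gcongr
          have h7 : (1 - y) * (53 / 10) ≤ (1 - y) * s := by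
            have : 0 ≤ 1 - y := by linarith
            gcongr
          rcases le_total x (16 / 5) with h8 | h8
          · linarith
          · have h9 : y ≤ 53 / 100 := by
              by_contra hcon
              push Not at hcon
              nlinarith
            linarith
    · -- `a (1 + x) = s`
      have ha2 : 0 < a := by
        rcases ha0.eq_or_lt with h6 | h6
        · rw [← h6] at h
          linarith
        · exact h6
      have hx37 : 37 / 10 ≤ x := by nlinarith
      have hy2 : y * (1 + x) ≤ 2241 / 1000 := by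
        nlinarith [sq_nonneg (y - 27 / 100), mul_nonneg (by linarith : 0 ≤ x - 37 / 10) (sq_nonneg y)]
      have hys : y * s ≤ 2241 / 1000 * a := by
        rw [← h]
        calc y * (a * (1 + x)) = a * (y * (1 + x)) := by ring
          _ ≤ a * (2241 / 1000) := by gcongr
          _ = _ := by ring
      have hya : y ≤ 4769 / 10000 * a := by nlinarith
      have hT := tf_p4 hx0.le hy0 hyx h3 h2
      have hT0 : 0 ≤ 6945 / 10000 * x + 72 / 100 * y := by positivity
      have h5 : Real.exp a * (x * Real.cos s - y * Real.sin s) ≤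
          (1 + a + 7184 / 10000 * a ^ 2) * (6945 / 10000 * x + 72 / 100 * (4769 / 10000 * a)) := by
        calc Real.exp a * (x * Real.cos s - y * Real.sin s) ≤
              Real.exp a * (6945 / 10000 * x + 72 / 100 * y) := by gcongr
          _ ≤ (1 + a + 7184 / 10000 * a ^ 2) * (6945 / 10000 * x + 72 / 100 * (4769 / 10000 * a)) := by
              gcongr
      have hax : 47 / 10 - a ≤ a * x := by linarith
      have hq2 : 0 ≤ 755 / 10000 + 3055 / 10000 * a + 501 / 1000 * a ^ 2 := by positivity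
      have h6 : 0 ≤ a * (a ^ 2 - 2241 / 1000 * a +
          x * (755 / 10000 + 3055 / 10000 * a + 501 / 1000 * a ^ 2) -
          72 / 100 * (4769 / 10000 * a) * (1 + a + 7184 / 10000 * a ^ 2) - 48415 / 100000) := by
        have h7 := mul_le_mul_of_nonneg_right hax hq2
        have h8 : a ^ 2 ≤ a := by nlinarith
        have h9 : a ^ 4 ≤ a := by
          have : a ^ 4 ≤ a ^ 1 := pow_le_pow_of_le_one ha0 ha1 (by norm_num)
          linarith
        have h10 : 0 ≤ a ^ 3 := by positivity
        nlinarith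
      have h7 : 0 ≤ a ^ 2 - 2241 / 1000 * a +
          x * (755 / 10000 + 3055 / 10000 * a + 501 / 1000 * a ^ 2) -
          72 / 100 * (4769 / 10000 * a) * (1 + a + 7184 / 10000 * a ^ 2) - 48415 / 100000 := by
        by_contra hcon
        push Not at hcon
        have := mul_neg_of_pos_of_neg ha2 hcon
        linarith
      have h8 : a * s = a * (a * (1 + x)) := by rw [h]
      have h9 : (a - y) * s = a * (a * (1 + x)) - y * s := by rw [← h8]; ring
      rw [h9]
      have h10 : 0 ≤ x * a ^ 2 := by positivity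
      nlinarith

theorem tf_v3 {x y ρ φ : ℝ} (hx : 3 / 2 ≤ x) (hy0 : 0 ≤ y) (hy1 : y ≤ 61 / 100)
    (hE : x * (y + y ^ 2 / 2) ≤ 2105 / 1000)
    (hρ : ρ ≤ x + 2105 / 1000) (h1 : 4 / 5 ≤ φ) (h2 : φ ≤ 137 / 25) :
    1 / 4 * ρ ≤ Hs 1 x y (ta x) (2 * Real.pi + φ) := by
  have hx0 : 0 < x := by linarith
  have hx1 : 0 < 1 + x := by linarith
  have hpi := tf_pi
  rw [tf_per]
  have hta := tf_ta hx0.le
  set a := ta x with had
  have ha0 : 0 ≤ a := by
    rcases hta with ⟨h, _⟩ | ⟨_, _, h, _⟩
    · rw [h]; norm_num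
    · exact h
  have ha1 : a ≤ 1 := by
    rcases hta with ⟨h, _⟩ | ⟨_, h, _⟩
    · rw [h]
    · exact h
  have hEa := tf_E ha0 ha1
  have hE0 := Real.exp_pos a
  have hsin := Real.neg_one_le_sin φ
  have hc := tf_cosB h1 h2
  rw [one_mul]
  have hT : x * Real.cos φ - y * Real.sin φ ≤ 6971 / 10000 * x + y := by nlinarith
  rcases hta with ⟨h, h'⟩ | ⟨h, _, _, h'⟩
  · have hT0 : 0 ≤ 6971 / 10000 * x + y := by positivity
    have hE3 : Real.exp 1 ≤ 27184 / 10000 := by
      rw [h] at hEa
      norm_num at hEa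
      linarith
    have hE4 := Real.exp_pos 1
    rw [h]
    have h6 : Real.exp 1 * (x * Real.cos φ - y * Real.sin φ) ≤
        27184 / 10000 * (6971 / 10000 * x + y) := by
      calc Real.exp 1 * (x * Real.cos φ - y * Real.sin φ) ≤
            Real.exp 1 * (6971 / 10000 * x + y) := by gcongr
        _ ≤ _ := by gcongr
    have h7 : (1 - y) * (7083 / 1000) ≤ (1 - y) * (2 * Real.pi + φ) := by
      have : 0 ≤ 1 - y := by linarith
      have : 7083 / 1000 ≤ 2 * Real.pi + φ := by linarith
      gcongr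
    rcases le_total x (16 / 5) with h8 | h8
    · linarith
    · have h9 : y ≤ 53 / 100 := by
        by_contra hcon
        push Not at hcon
        nlinarith
      linarith
  · have ha2 : 0 < a := by
      rcases ha0.eq_or_lt with h6 | h6
      · rw [← h6] at h
        linarith
      · exact h6
    have hy2 : y * (1 + x) ≤ 2241 / 1000 := by
      nlinarith [sq_nonneg (y - 27 / 100), mul_nonneg (by linarith : 0 ≤ x - 37 / 10) (sq_nonneg y)]
    have hya : y ≤ 409 / 1000 * a := by
      have h3 : y * (137 / 25) ≤ 2241 / 1000 * a := by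
        rw [← h]
        calc y * (a * (1 + x)) = a * (y * (1 + x)) := by ring
          _ ≤ a * (2241 / 1000) := by gcongr
          _ = _ := by ring
      linarith
    have h5 : Real.exp a * (x * Real.cos φ - y * Real.sin φ) ≤
        (1 + a + 7184 / 10000 * a ^ 2) * (6971 / 10000 * x + 409 / 1000 * a) := by
      have hT0 : 0 ≤ 6971 / 10000 * x + y := by positivity
      calc Real.exp a * (x * Real.cos φ - y * Real.sin φ) ≤
            Real.exp a * (6971 / 10000 * x + y) := by gcongr
        _ ≤ (1 + a + 7184 / 10000 * a ^ 2) * (6971 / 10000 * x + 409 / 1000 * a) := by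
            gcongr
    have h7 : (a - y) * (7083 / 1000) ≤ (a - y) * (2 * Real.pi + φ) := by
      have : 0 ≤ a - y := by linarith
      have : 7083 / 1000 ≤ 2 * Real.pi + φ := by linarith
      gcongr
    have hax : a * x = 137 / 25 - a := by linarith
    have h8 : 0 ≤ a * (418 / 100 * a +
        x * (529 / 10000 + 3029 / 10000 * a - 5009 / 10000 * a ^ 2) -
        409 / 1000 * a * (1 + a + 7184 / 10000 * a ^ 2) - 52625 / 100000) := by
      have e : a * (418 / 100 * a +
        x * (529 / 10000 + 3029 / 10000 * a - 5009 / 10000 * a ^ 2) -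
        409 / 1000 * a * (1 + a + 7184 / 10000 * a ^ 2) - 52625 / 100000) =
        418 / 100 * a ^ 2 + (a * x) * (529 / 10000 + 3029 / 10000 * a - 5009 / 10000 * a ^ 2) -
        409 / 1000 * a ^ 2 * (1 + a + 7184 / 10000 * a ^ 2) - 52625 / 100000 * a := by ring
      rw [e, hax]
      have h9 : a ^ 4 ≤ a := by
        have : a ^ 4 ≤ a ^ 1 := pow_le_pow_of_le_one ha0 ha1 (by norm_num)
        linarith
      have h10 : 0 ≤ a ^ 3 := by positivity
      have h11 : 0 ≤ a ^ 2 := by positivity
      nlinarith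
    have h9 : 0 ≤ 418 / 100 * a +
        x * (529 / 10000 + 3029 / 10000 * a - 5009 / 10000 * a ^ 2) -
        409 / 1000 * a * (1 + a + 7184 / 10000 * a ^ 2) - 52625 / 100000 := by
      by_contra hcon
      push Not at hcon
      have := mul_neg_of_pos_of_neg ha2 hcon
      linarith
    have h10 : 0 ≤ x * a ^ 2 := by positivity
    nlinarith

end SokalV3
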