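import Pool.Agent.Lib_MP_af4de1_f1.PolBox
import Pool.Agent.Lib_MP_af4de1_v3.P2OutR
import Pool.Agent.Lib_MP_af4de1_v3.T2FactC
import Pool.Agent.Lib_MP_af4de1_v3.T2Com

/-!
# `N = 2`, outer waves on the right: two height lemmas (helper49 for helper65)
-/

set_option autoImplicit false
set_option maxHeartbeats 4000000

open Complex MeasureTheory Set SokalU SokalPG SokalF1 SokalF1S SokalF1M SokalF1G SokalF1B SokalPB

namespace SokalV3

private def qq (a : ℤ) (b : ℕ) : E := .dv (.c a) b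

private def sE4 : E :=
  .add (.sub (.add (.sub (.c 1) (.mul .X .Y)) (.dv (.pow (.mul .X .Y) 2) 2))
    (.dv (.pow (.mul .X .Y) 3) 6)) (.dv (.pow (.mul .X .Y) 4) 24)

private def pE (h : ℤ) (z : ℤ) : E :=
  .sub (.sub (.add (.mul (.pow .X 2) (.mul (.sub .Y (qq 286 100)) (.sub .Y (qq z 10000))))
    (.mul (.sub (.c 1) .X) (.sub (.c 1) (.mul .X .Y))))
    (.mul sE4 (.add (.mul (qq 6945 10000) (.sub (.c 1) .X)) (.mul (qq 286 100) (.pow .X 2)))))
    (.mul (qq h 100) (.sub (.c 1) (.mul (qq 273 100) .X)))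

private noncomputable def pR (h z c s : ℝ) : ℝ :=
  c ^ 2 * ((s - 286 / 100) * (s - z / 10000)) + (1 - c) * (1 - c * s) -
    (1 - c * s + (c * s) ^ 2 / 2 - (c * s) ^ 3 / 6 + (c * s) ^ 4 / 24) *
      (6945 / 10000 * (1 - c) + 286 / 100 * c ^ 2) - h / 100 * (1 - 273 / 100 * c)

private theorem pE_eval (h z : ℤ) (c s : ℝ) : (pE h z).eval c s = pR h z c s := by
  unfold pR pE sE4 qq
  simp only [E.eval]
  push_cast
  rfl

private theorem run1 : runQ (pE 9 12567).toQ 6 0 1688 10000 475 549 100 = true := by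
  decide +kernel

private theorem run2 : runQ (pE 15 10996).toQ 6 0 12801 100000 475 549 100 = true := by
  decide +kernel

private theorem pR1 {c s : ℝ} (h0 : 0 ≤ c) (h1 : c ≤ 1687 / 10000) (h2 : 19 / 4 ≤ s)
    (h3 : s ≤ 137 / 25) : 0 ≤ pR 9 12567 c s := by
  have := pE_eval 9 12567 c s
  push_cast at this
  rw [← this]
  refine (pE 9 12567).nonneg 6 (by norm_num) (by norm_num) run1 ?_ ?_ ?_ ?_ <;> push_cast <;>
    linarith

private theorem pR2 {c s : ℝ} (h0 : 0 ≤ c) (h1 : c ≤ 128 / 1000) (h2 : 19 / 4 ≤ s)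
    (h3 : s ≤ 137 / 25) : 0 ≤ pR 15 10996 c s := by
  have := pE_eval 15 10996 c s
  push_cast at this
  rw [← this]
  refine (pE 15 10996).nonneg 6 (by norm_num) (by norm_num) run2 ?_ ?_ ?_ ?_ <;> push_cast <;>
    linarith

/-- from the polynomial to the height -/
private theorem of_pR {x n z c s h z1 : ℝ} (hc0 : 0 < c) (hc1 : c ≤ 1687 / 10000)
    (hxc : x * c = 1 - c) (hn0 : 0 ≤ n) (hn : n ≤ 286 / 100 * c) (hz : z ≤ z1 / 10000)
    (hz1 : z1 ≤ 20000) (h1 : 19 / 4 ≤ s) (h2 : s ≤ 137 / 25) (hp : 0 ≤ pR h z1 c s) :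
    h / 100 * (x - 173 / 100) ≤ Hs (-1) x n (c * s) s - (c * s - n) * z := by
  have hcos := tf_cosC (s := s) (by linarith) h2
  have ha0 : 0 ≤ c * s := mul_nonneg hc0.le (by linarith)
  have hE := t2c_exp_neg_le4 ha0
  have hE0 := Real.exp_pos (-(c * s))
  have hsin := Real.sin_le_one s
  have hsin' := Real.neg_one_le_sin s
  have key : 0 ≤ c * (Hs (-1) x n (c * s) s - (c * s - n) * z - h / 100 * (x - 173 / 100)) := by
    unfold Hs
    have e1 : (-1 : ℝ) * (c * s) = -(c * s) := by ring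
    rw [e1]
    set Ex := Real.exp (-(c * s)) with hEx
    have e2 : c * ((c * s - n) * s + x * (1 + -(c * s)) - Ex * (x * Real.cos s - n * Real.sin s) -
        (c * s - n) * z - h / 100 * (x - 173 / 100)) =
        c * ((c * s - n) * (s - z)) + (x * c) * (1 - c * s) -
          Ex * ((x * c) * Real.cos s - c * n * Real.sin s) -
          h / 100 * (x * c - 173 / 100 * c) := by ring
    rw [e2, hxc]
    have h3 : c ^ 2 * ((s - 286 / 100) * (s - z1 / 10000)) ≤ c * ((c * s - n) * (s - z)) := by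
      have e3 : c ^ 2 * ((s - 286 / 100) * (s - z1 / 10000)) =
          c * ((c * s - 286 / 100 * c) * (s - z1 / 10000)) := by ring
      rw [e3]
      refine mul_le_mul_of_nonneg_left ?_ hc0.le
      refine mul_le_mul (by linarith) (by linarith) (by linarith) ?_
      have : 0 ≤ c * (s - 286 / 100) := mul_nonneg hc0.le (by linarith)
      linarith
    have h4 : Ex * ((1 - c) * Real.cos s - c * n * Real.sin s) ≤
        (1 - c * s + (c * s) ^ 2 / 2 - (c * s) ^ 3 / 6 + (c * s) ^ 4 / 24) *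
        (6945 / 10000 * (1 - c) + 286 / 100 * c ^ 2) := by
      have h5 : (1 - c) * Real.cos s - c * n * Real.sin s ≤
          6945 / 10000 * (1 - c) + 286 / 100 * c ^ 2 := by
        have h6 : (1 - c) * Real.cos s ≤ (1 - c) * (6945 / 10000) :=
          mul_le_mul_of_nonneg_left hcos (by linarith)
        have h7 : -(c * n * Real.sin s) ≤ c * n := by
          have : 0 ≤ c * n * (1 + Real.sin s) := mul_nonneg (mul_nonneg hc0.le hn0) (by linarith)
          linarith
        have h8 : c * n ≤ c * (286 / 100 * c) := mul_le_mul_of_nonneg_left hn hc0.le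
        have e4 : c * (286 / 100 * c) = 286 / 100 * c ^ 2 := by ring
        linarith
      have h9 : 0 ≤ 6945 / 10000 * (1 - c) + 286 / 100 * c ^ 2 := by
        have : 0 ≤ 1 - c := by linarith
        positivity
      calc Ex * ((1 - c) * Real.cos s - c * n * Real.sin s)
          ≤ Ex * (6945 / 10000 * (1 - c) + 286 / 100 * c ^ 2) :=
            mul_le_mul_of_nonneg_left h5 hE0.le
        _ ≤ _ := mul_le_mul_of_nonneg_right hE h9
    have h10 : h / 100 * (1 - c - 173 / 100 * c) = h / 100 * (1 - 273 / 100 * c) := by ring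
    unfold pR at hp
    rw [h10]
    linarith
  have := nonneg_of_mul_nonneg_right key hc0
  linarith

theorem outR_h1b {x n z c s : ℝ} (hc0 : 0 < c) (hxc : x * c = 1 - c) (hn0 : 0 ≤ n)
    (hn : n ≤ 286 / 100 * c) (hz0 : 0 ≤ z) (h1 : 19 / 4 ≤ s) (h2 : s ≤ 137 / 25) :
    (c ≤ 1687 / 10000 → z ≤ 12567 / 10000 →
      9 / 100 * (x - 173 / 100) ≤ Hs (-1) x n (c * s) s - (c * s - n) * z) ∧
    (c ≤ 128 / 1000 → z ≤ 10996 / 10000 →
      15 / 100 * (x - 173 / 100) ≤ Hs (-1) x n (c * s) s - (c * s - n) * z) := by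
  refine ⟨fun hc hz => ?_, fun hc hz => ?_⟩
  · exact of_pR (h := 9) (z1 := 12567) hc0 hc hxc hn0 hn hz (by norm_num) h1 h2
      (pR1 hc0.le hc h1 h2)
  · exact of_pR (h := 15) (z1 := 10996) hc0 (by linarith) hxc hn0 hn hz (by norm_num) h1 h2
      (pR2 hc0.le hc h1 h2)

private def aE : E := .mul (qq 137 25) .X

private def sE3 : E :=
  .add (.sub (.add (.sub (.c 1) aE) (.dv (.pow aE 2) 2)) (.dv (.pow aE 3) 6)) (.dv (.pow aE 4) 24)

private def p3E : E :=
  .sub (.sub (.add (.mul (.pow .X 2) (.mul (qq 262 100) (qq 58263 10000)))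
    (.mul (.sub (.c 1) .X) (.sub (.c 1) aE)))
    (.mul sE3 (.add (.mul (qq 6971 10000) (.sub (.c 1) .X)) (.mul (qq 286 100) (.pow .X 2)))))
    (.mul (qq 15 100) (.sub (.c 1) (.mul (qq 273 100) .X)))

private noncomputable def p3R (c : ℝ) : ℝ :=
  c ^ 2 * (262 / 100 * (58263 / 10000)) + (1 - c) * (1 - 137 / 25 * c) -
    (1 - 137 / 25 * c + (137 / 25 * c) ^ 2 / 2 - (137 / 25 * c) ^ 3 / 6 +
      (137 / 25 * c) ^ 4 / 24) *
      (6971 / 10000 * (1 - c) + 286 / 100 * c ^ 2) - 15 / 100 * (1 - 273 / 100 * c)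

private theorem p3E_eval (c s : ℝ) : p3E.eval c s = p3R c := by
  unfold p3R p3E sE3 aE qq
  simp only [E.eval]
  push_cast
  rfl

private theorem run3 : runQ p3E.toQ 6 0 1688 10000 0 1 1 = true := by
  decide +kernel

private theorem p3R_nonneg {c : ℝ} (h0 : 0 ≤ c) (h1 : c ≤ 1687 / 10000) : 0 ≤ p3R c := by
  rw [← p3E_eval c 0]
  refine p3E.nonneg 6 (by norm_num) (by norm_num) run3 ?_ ?_ ?_ ?_ <;> push_cast <;>
    linarith

theorem outR_h3 {x n z c φ : ℝ} (hc0 : 0 < c) (hxc : x * c = 1 - c) (hc1 : c ≤ 1687 / 10000)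
    (hn0 : 0 ≤ n) (hn : n ≤ 286 / 100 * c) (hz0 : 0 ≤ z) (hz : z ≤ 12567 / 10000)
    (h1 : 4 / 5 ≤ φ) (h2 : φ ≤ 137 / 25) :
    15 / 100 * (x - 173 / 100) ≤
      Hs (-1) x n (137 / 25 * c) (2 * Real.pi + φ) - (137 / 25 * c - n) * z := by
  have hcos := tf_cosB h1 h2
  have hp := p3R_nonneg hc0.le hc1
  have ha0 : 0 ≤ 137 / 25 * c := by positivity
  have hE := t2c_exp_neg_le4 ha0
  have hE0 := Real.exp_pos (-(137 / 25 * c))
  have hsin' := Real.neg_one_le_sin φ
  have hpi := Real.pi_gt_d4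
  have key : 0 ≤ c * (Hs (-1) x n (137 / 25 * c) (2 * Real.pi + φ) - (137 / 25 * c - n) * z -
      15 / 100 * (x - 173 / 100)) := by
    unfold Hs
    have e1 : (-1 : ℝ) * (137 / 25 * c) = -(137 / 25 * c) := by ring
    have ec : Real.cos (2 * Real.pi + φ) = Real.cos φ := by rw [add_comm, Real.cos_add_two_pi]
    have es : Real.sin (2 * Real.pi + φ) = Real.sin φ := by rw [add_comm, Real.sin_add_two_pi]
    rw [e1, ec, es]
    set Ex := Real.exp (-(137 / 25 * c)) with hEx
    have e2 : c * ((137 / 25 * c - n) * (2 * Real.pi + φ) + x * (1 + -(137 / 25 * c)) -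
        Ex * (x * Real.cos φ - n * Real.sin φ) -
        (137 / 25 * c - n) * z - 15 / 100 * (x - 173 / 100)) =
        c * ((137 / 25 * c - n) * (2 * Real.pi + φ - z)) + (x * c) * (1 - 137 / 25 * c) -
          Ex * ((x * c) * Real.cos φ - c * n * Real.sin φ) -
          15 / 100 * (x * c - 173 / 100 * c) := by ring
    rw [e2, hxc]
    have h3 : c ^ 2 * (262 / 100 * (58263 / 10000)) ≤
        c * ((137 / 25 * c - n) * (2 * Real.pi + φ - z)) := by
      have e3 : c ^ 2 * (262 / 100 * (58263 / 10000)) =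
          c * ((262 / 100 * c) * (58263 / 10000)) := by ring
      rw [e3]
      refine mul_le_mul_of_nonneg_left ?_ hc0.le
      exact mul_le_mul (by linarith) (by linarith) (by norm_num) (by linarith)
    have h4 : Ex * ((1 - c) * Real.cos φ - c * n * Real.sin φ) ≤
        (1 - 137 / 25 * c + (137 / 25 * c) ^ 2 / 2 - (137 / 25 * c) ^ 3 / 6 +
          (137 / 25 * c) ^ 4 / 24) *
        (6971 / 10000 * (1 - c) + 286 / 100 * c ^ 2) := by
      have h5 : (1 - c) * Real.cos φ - c * n * Real.sin φ ≤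
          6971 / 10000 * (1 - c) + 286 / 100 * c ^ 2 := by
        have h6 : (1 - c) * Real.cos φ ≤ (1 - c) * (6971 / 10000) :=
          mul_le_mul_of_nonneg_left hcos (by linarith)
        have h7 : -(c * n * Real.sin φ) ≤ c * n := by
          have : 0 ≤ c * n * (1 + Real.sin φ) := mul_nonneg (mul_nonneg hc0.le hn0) (by linarith)
          linarith
        have h8 : c * n ≤ c * (286 / 100 * c) := mul_le_mul_of_nonneg_left hn hc0.le
        have e4 : c * (286 / 100 * c) = 286 / 100 * c ^ 2 := by ring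
        linarith
      have h9 : 0 ≤ 6971 / 10000 * (1 - c) + 286 / 100 * c ^ 2 := by
        have : 0 ≤ 1 - c := by linarith
        positivity
      calc Ex * ((1 - c) * Real.cos φ - c * n * Real.sin φ)
          ≤ Ex * (6971 / 10000 * (1 - c) + 286 / 100 * c ^ 2) :=
            mul_le_mul_of_nonneg_left h5 hE0.le
        _ ≤ _ := mul_le_mul_of_nonneg_right hE h9
    have h10 : 15 / 100 * (1 - c - 173 / 100 * c) = 15 / 100 * (1 - 273 / 100 * c) := by ring
    unfold p3R at hp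
    rw [h10]
    linarith
  have := nonneg_of_mul_nonneg_right key hc0
  linarith

end SokalV3
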