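import Pool.Agent.Lib_MP_af4de1_v3.OutR7
import Pool.Agent.Lib_MP_af4de1_v3.OutRH
import Pool.Agent.Lib_MP_af4de1_v3.T2A
import Pool.Agent.Lib_MP_af4de1_v3.P2GapR
import Pool.Agent.Lib_MP_af4de1_v3.T2Conv

/-!
# `N = 2`: `P2.outR`
-/

set_option autoImplicit false

open Complex MeasureTheory Set SokalU SokalPG SokalF1 SokalF1S SokalF1M SokalF1G SokalF1B SokalV3F

namespace SokalV3

theorem outR_fin {r δ n ζ κ dl sq pvm Cc cm h P1 P2 Q Kh Λ T : ℝ} (hR : Reg2 r δ)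
    (hA : At r δ (-n) (-eo2 r δ)) (hS : Sad2 r δ (-n)) (hn0 : 0 < n)
    (hρx : r * δ + 1732 / 1000 ≤ sx (r * δ) (-n)) (hn : n * (1 + sx (r * δ) (-n)) ≤ 286 / 100)
    (hnx : sx (r * δ) (-n) - r * δ ≤ n * sx (r * δ) (-n))
    (hcm : cm ≤ 1686 / 10000) (hxc : (1 + sx (r * δ) (-n))⁻¹ ≤ cm) (hκ0 : 4 / 5 ≤ κ)
    (hκ1 : κ ≤ 9 / 10)
    (hκ : ∀ c : ℝ, 0 ≤ c → c ≤ cm → 0 ≤ (4765 / 10000 - κ / 2) - (8339 / 10000 - κ / 2) * c +
      4999 / 10000 * c ^ 2 - 236 / 100 * c ^ 3)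
    (hD : sD (r * δ) (-n) ≤ dl * sx (r * δ) (-n))
    (hdl : dl ≤ 1021 / 1000) (hsq : dl ≤ κ * sq ^ 2) (hsq0 : 0 ≤ sq) (hpv : 1 + cm ^ 2 ≤ pvm ^ 2)
    (hpv1 : 1 ≤ pvm) (hC : pvm * (10005 / 10000 * sq + 1 / 100) ≤ Cc)
    (hKh : Real.exp (-(h * r)) ≤ Kh * sG r δ (-n))
    (hP1 : tP 1 (sx (r * δ) (-n)) (-n) (1 / δ) ≤ P1 * sG r δ (-n))
    (hP2 : tP (-1) (sx (r * δ) (-n)) n (1 / δ) ≤ P2 * sG r δ (-n))
    (hQ : tP (-1) (sx (r * δ) (-n)) n (1 / δ) *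
      Real.exp (1 / δ * (ta (sx (r * δ) (-n)) - n) * (Real.pi - eo2 r δ)) ≤ Q * sG r δ (-n))
    (hh0 : 0 ≤ h) (hh1 : h ≤ 17 / 100)
    (Hh : ∀ s, 19 / 4 ≤ s → s ≤ 137 / 25 → h * (sx (r * δ) (-n) - 173 / 100) ≤
      Hs (-1) (sx (r * δ) (-n)) n ((1 + sx (r * δ) (-n))⁻¹ * s) s -
        ((1 + sx (r * δ) (-n))⁻¹ * s - n) * (Real.pi - eo2 r δ))
    (hΛ : Λ ≤ 1 / δ * (n - 3 / 2 * (1 + sx (r * δ) (-n))⁻¹) * (Real.pi - eo2 r δ))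
    (hT : Cc * Real.exp (-Λ) ≤ T)
    (num0 : Cc + 27183 / 10000 * (1001 / 1000 * P1 + 1 / 1000) + (1001 / 1000 * P2 + 1 / 1000) ≤
      13 / 10)
    (numZ : T + 27183 / 10000 * (1001 / 1000 * P1 + 1 / 1000) + (4 * pvm * Kh +
      1001 / 1000 * (Q + 1 / 100)) ≤ 13 / 10)
    (he0 : 1884 / 1000 ≤ eo2 r δ) (hz0 : 0 ≤ Real.pi - eo2 r δ)
    (hz1 : Real.pi - eo2 r δ ≤ 12567 / 10000)
    (hζ : ζ ≤ 0) (hζ2 : -Real.pi ≤ -eo2 r δ + ζ) : Out r δ (-n) ζ (13 / 10) := by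
  have hδ := hR.d0
  have hr := hR.r0
  have hρ := hR.rho
  have he2 : eo2 r δ ≤ 2105 / 1000 := eo2_le_all r δ
  have hη : |(-eo2 r δ)| ≤ eo2 r δ := by
    rw [abs_neg, abs_of_nonneg (by linarith)]
  obtain ⟨hT1, hT2⟩ := ptFact r δ (-n) (-eo2 r δ) hR hA hS hη
  rw [neg_neg] at hT2
  obtain ⟨g1, g3⟩ := t2_G hr hδ hA.dom hS
  obtain ⟨_, g4⟩ := outR_K hr hδ hA.dom hS
  have hGw := sG_w (r := r) (y := -n) hδ
  have hw : 0 < 1 / δ := by positivity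
  have hwd : 1 / δ * (r * δ) = r := by field_simp
  set x := sx (r * δ) (-n) with hxd
  have hx : 4932 / 1000 ≤ x := by linarith
  have hx1 : 0 < 1 + x := by linarith
  have hwx : 499 / 10 ≤ 1 / δ * x := by
    have : 1 / δ * (r * δ) ≤ 1 / δ * x := by
      have : r * δ ≤ x := by linarith
      gcongr
    linarith
  have hDp : 0 < sD (r * δ) (-n) := Real.sqrt_pos.2 (sD2_pos hA.y1)
  obtain ⟨ts0, ts1, ts2, ta0, ta1⟩ := t2_ts (by linarith : 0 ≤ x)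
  have hc0 : 0 < (1 + x)⁻¹ := inv_pos.2 hx1
  have htx : ts x = 137 / 25 := min_eq_left (by linarith)
  have hta : ta x = 137 / 25 * (1 + x)⁻¹ := by
    unfold ta
    rw [htx]
    ring
  have hxc2 : x * (1 + x)⁻¹ = 1 - (1 + x)⁻¹ := by
    have : (1 + x) * (1 + x)⁻¹ = 1 := mul_inv_cancel₀ hx1.ne'
    linarith
  have hc1 : (1 + x)⁻¹ ≤ 1686 / 10000 := hxc.trans hcm
  have hnc : n ≤ 286 / 100 * (1 + x)⁻¹ := by
    have h1 : n * (1 + x) * (1 + x)⁻¹ ≤ 286 / 100 * (1 + x)⁻¹ := by gcongr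
    have h2 : n * (1 + x) * (1 + x)⁻¹ = n := by
      rw [mul_assoc, mul_inv_cancel₀ hx1.ne', mul_one]
    linarith
  have hcn : (1 + x)⁻¹ ≤ n := by
    rw [inv_le_iff_one_le_mul₀ hx1]
    have : n * x ≤ n * (1 + x) := by
      have : x ≤ 1 + x := by linarith
      gcongr
    linarith
  have H1 : ∀ s, 3 / 2 ≤ s → s ≤ 137 / 25 → h * (r * δ) ≤
      Hs (-1) x n ((1 + x)⁻¹ * s) s - ((1 + x)⁻¹ * s - n) * (Real.pi - eo2 r δ) := by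
    intro s h1 h2
    rcases le_total s (19 / 4) with h3 | h3
    · have h4 := outR_h1a (s := s) hx hc0 hxc2 hc1 hnc hcn hz0 (by linarith) h1 h3
      have h5 : h * (r * δ) ≤ 17 / 100 * x := by
        have : r * δ ≤ x := by linarith
        gcongr
      linarith
    · have h4 := Hh s h3 h2
      have h5 : h * (r * δ) ≤ h * (x - 173 / 100) := by
        have : r * δ ≤ x - 173 / 100 := by linarith
        gcongr
      linarith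
  have H3 : ∀ φ, 4 / 5 ≤ φ → φ ≤ 137 / 25 → 15 / 100 * (r * δ) ≤
      Hs (-1) x n (ta x) (2 * Real.pi + φ) - (ta x - n) * (Real.pi - eo2 r δ) := by
    intro φ h1 h2
    have h4 := outR_h3 hc0 hxc2 (by linarith) hn0.le hnc hz0 hz1 h1 h2
    rw [hta]
    linarith
  have htot : ∀ j : ℕ, j ≤ 1 →
      (∫ s, oF x n 0 δ j s ≤ 13 / 10 * √(2 * Real.pi / (1 / δ * sD (r * δ) (-n)))) ∧
      (∫ s, oF x n (Real.pi - eo2 r δ) δ j s ≤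
        13 / 10 * √(2 * Real.pi / (1 / δ * sD (r * δ) (-n)))) := fun j hj => by
    rw [hGw] at g1 g3 g4 hKh hP1 hP2 hQ
    exact oF_total hj hδ hx hcm hxc hn0 hn hκ0 hκ1 hκ hz0 hwx hDp hD hdl hsq hsq0 hpv hpv1 hC
      hT1 hT2 g1 g3 g4 hKh hP1 hP2 hQ H1 H3 hΛ hT num0 numZ
  rw [← hGw] at htot
  have hk : |(-n : ℝ)| < (1 + x)⁻¹ * ts x := by
    rw [abs_neg, abs_of_pos hn0]
    by_contra hcon
    push Not at hcon
    have h1 := hT2.lam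
    have h2 : ta x ≤ n := hcon
    have := mul_nonpos_of_nonneg_of_nonpos hw.le (by linarith : ta x - n ≤ 0)
    linarith
  have hmF : ∀ (z' : ℝ) (j : ℕ), mF (1 + x)⁻¹ (ts x) r δ (-n) (-z') j = ∫ s, oF x n z' δ j s :=
    fun z' j => rfl
  have h00 := (htot 0 (by norm_num)).1
  have h10 := (htot 1 le_rfl).1
  have h0Z := (htot 0 (by norm_num)).2
  have h1Z := (htot 1 le_rfl).2
  rw [← hmF] at h00 h10 h0Z h1Z
  rw [neg_zero] at h00 h10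
  refine out_of_mF (Z := -(Real.pi - eo2 r δ)) hc0 ts0 ta1 hδ hA.dom hA.y1 hk (by linarith) ?_ ?_
    h00 h0Z h10 h1Z
  · exact mul_nonneg_of_nonpos_of_nonpos hζ (by linarith)
  · rw [abs_of_nonpos hζ, abs_neg, abs_of_nonneg hz0]
    linarith

end SokalV3
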