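import Pool.Agent.Lib_MP_af4de1_v3.P2OutM

/-!
# `P2.outL` for `10 ≤ Γ < 20`: `η = 13π/20`, `ρ ≥ 97/20`
-/

set_option autoImplicit false

namespace SokalP2O

open Real Set SokalF1G MeasureTheory

theorem polyB {x : ℝ} (hx : 28 / 10 ≤ x) :
    ((1 + 534 / 1000) ^ 2 + x ^ 2) * ((x + 2) ^ 2 + 1) ^ 2 ≤
      ((12008 / 10000) ^ 2 * 2 * (11 / 24 * x * (x + 2) * (x + 2 - 1) + (x + 2) -
        351 / 625 * x)) ^ 2 := by
  obtain ⟨t, rfl⟩ : ∃ t, x = 28 / 10 + t := ⟨x - 28 / 10, by ring⟩
  have ht : 0 ≤ t := by linarith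
  have h2 := pow_nonneg ht 2
  have h3 := pow_nonneg ht 3
  have h4 := pow_nonneg ht 4
  have h5 := pow_nonneg ht 5
  have h6 := pow_nonneg ht 6
  nlinarith

theorem regB {x y ρ η ψ W D : ℝ} (G : GeL x y ρ η ψ W D) (hη : η = 65 / 100 * π)
    (hρ : 485 / 100 ≤ ρ) {d z j : ℝ} (hd : 0 < d) (hr : 499 / 10 ≤ ρ * d)
    (hg : 1013 / 1000 * ρ ≤ d) (hz : z = 0 ∨ z = π - η) (hj0 : 0 ≤ j) (hj1 : j ≤ 1)
    (hf : Integrable (fL (1 / (x + 2)) ((y + 2 / ρ) * (x + 2)) x y z d j)) :
    ∫ s, fL (1 / (x + 2)) ((y + 2 / ρ) * (x + 2)) x y z d j s ≤ 27 / 20 * sg d D := by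
  have hp := Real.pi_gt_d4
  have hp2 := Real.pi_lt_d4
  have hx0 := G.x0
  have hy0 := G.y0
  have hρ0 := G.r0
  have hη1 : η ≤ 204204 / 100000 := by linarith
  have hη2 : 204197 / 100000 ≤ η := by linarith
  have hF1 := G.F1 (by linarith)
  have hF3 := G.F3
  have heta := G.eta
  have hψ0 := G.p0
  have hy1 : y ≤ 534 / 1000 := by
    by_contra hn
    push Not at hn
    nlinarith
  have hx1 : 28 / 10 ≤ x := by linarith
  have hxρ : 578 / 1000 * ρ ≤ x := by linarith
  have hY : y / x ≤ 1908 / 10000 := by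
    rw [div_le_iff₀ hx0]
    linarith
  have hψ := G.psi_le.trans hY
  have hb1 : 2 / ρ ≤ 4124 / 10000 := by
    rw [div_le_iff₀ hρ0]
    linarith
  have hb0 : 0 < 2 / ρ := by positivity
  set b := 2 / ρ with hb
  have hbρ : b * ρ = 2 := by rw [hb]; field_simp
  have hx1' : 1 / x ≤ 10 / 28 := by
    rw [div_le_div_iff₀ hx0 (by norm_num)]
    linarith
  have hyx1 : y * (1 / x) ≤ y * (10 / 28) := mul_le_mul_of_nonneg_left hx1' hy0
  -- `y (x + 2)`
  have hyu_lo : η ≤ y * (x + 2) := by nlinarith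
  have hyu_hi : y * (x + 2) ≤ 2667 / 1000 := by
    have h1 : y * (x + 2) = y * (ρ - η / 2) + y * (2 - η / 2 + ψ) := by
      rw [show x = ρ - η + ψ by linarith]; ring
    have h2 : y * (2 - η / 2 + ψ) ≤ 534 / 1000 * (2 - 204197 / 200000 + 1908 / 10000) :=
      mul_le_mul hy1 (by linarith) (by linarith) (by norm_num)
    linarith
  have hbu : b * (x + 2) = 2 + b * (2 - η + ψ) := by
    rw [← hbρ, show x = ρ - η + ψ by linarith]; ring
  have hbu_hi : b * (2 - η + ψ) ≤ 4124 / 10000 * (149 / 1000) := by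
    have h1 : b * (2 - η + ψ) ≤ b * (149 / 1000) := mul_le_mul_of_nonneg_left (by linarith) hb0.le
    linarith
  have hbu_lo : -(1 / 10) ≤ b * (2 - η + ψ) := by
    have h1 : b * (-(5 / 100)) ≤ b * (2 - η + ψ) := mul_le_mul_of_nonneg_left (by linarith) hb0.le
    linarith
  have hk : 288 / 10 ≤ x * d := by
    have := mul_le_mul_of_nonneg_right hxρ hd.le
    nlinarith
  -- `y ρ`
  have hyρ : 19 / 10 ≤ y * ρ := by
    have h1 : ρ = x + η - ψ := by linarith
    rw [h1]
    have h2 : y * (ψ + 2 - η) ≤ y * (149 / 1000) := mul_le_mul_of_nonneg_left (by linarith) hy0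
    nlinarith
  have hyd : 19 / 10 ≤ y * d := by
    have := mul_le_mul_of_nonneg_left hg hy0
    nlinarith
  have hz0 : 0 ≤ z := by rcases hz with rfl | rfl <;> linarith
  have hzπ : z ≤ π := by rcases hz with rfl | rfl <;> linarith
  have hc : 1 / (x + 2) ≤ 209 / 1000 := by
    rw [div_le_div_iff₀ (by linarith) (by norm_num)]
    linarith
  have hc0 : 0 < 1 / (x + 2) := by positivity
  have hw0 : 6 / 11 * (1 / (x + 2) / (x * d)) ≤ 4 / 1000 := by
    have h1 : 1 / (x + 2) / (x * d) ≤ 209 / 1000 / (288 / 10) :=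
      div_le_div₀ (by norm_num) hc (by norm_num) hk
    refine (mul_le_mul_of_nonneg_left h1 (by norm_num)).trans ?_
    norm_num
  have hmid : (27 : ℝ) ^ 2 * (1141 / 1000 * (288 / 10)) * exp (-(2 * (7 / 20) * (288 / 10))) ≤
      (3 / 1000) ^ 2 * (2 * π) := by
    have h1 := exp_nf 20 (f := 16 / 100) (x := 2 * (7 / 20) * (288 / 10)) (by norm_num)
      (by norm_num)
    refine (mul_le_mul_of_nonneg_left h1 (by norm_num)).trans ?_
    have h2 : (3 / 1000 : ℝ) ^ 2 * (2 * (31415 / 10000)) ≤ (3 / 1000) ^ 2 * (2 * π) := by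
      have : (31415 / 10000 : ℝ) ≤ π := by linarith
      nlinarith
    refine le_trans ?_ h2
    norm_num
  have hkw : W ^ 2 + 1 + 2 * (534 / 1000) ≤ (11243 / 10000 * W) ^ 2 := by
    have h2 := pow_le_pow_left₀ (by norm_num) (hx1.trans G.xW) 2
    nlinarith
  have h10 : exp (-10) ≤ 1 / 20000 := exp_neg_le (n := 10) (by norm_num) (by norm_num) (by norm_num)
  have hsg := sg_pos hd G.D0
  -- both values of `z`
  have key : ∀ P0 : ℝ, 0 ≤ P0 → P0 ≤ 2 * (2 * π - z - η) - 50838 / 10000 →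
      ∫ s, fL (1 / (x + 2)) ((y + 2 / ρ) * (x + 2)) x y z d j s ≤
      (12008 / 10000 * exp (6 / 11 * (1 / (x + 2) / (x * d)) - (y - 1 / (x + 2)) * z * d) +
        3 / 1000 + 111 / 100 * exp ((534 / 1000 + 4124 / 10000) / 2 - 1013 / 1000 * P0) +
        5 / 4 * (111 / 100) * exp (-10)) * sg d D := by
    intro P0 hP0 hP
    refine finL G (Y1 := 1908 / 10000) (η1 := 204204 / 100000) (k0 := 288 / 10)
      (q := 1141 / 1000) (kw := 11243 / 10000) hd (by norm_num) (by norm_num) hz0 hzπ hj0 hj1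
      (by linarith) hr hg hb1 (by norm_num) hy1 (by norm_num) hY (by linarith) hη1 (by norm_num)
      ?_ (by linarith) (by linarith) (by linarith) ?_ ?_ hP0 ?_ (by norm_num) (polyB hx1) hk
      (by norm_num) (by norm_num) ?_ (by norm_num) hmid (by norm_num) (by norm_num) hkw
      (by norm_num) (by norm_num) (by linarith) hf
    · rw [div_le_iff₀ (by norm_num)]; linarith
    · rw [hbu]; linarith
    · rw [hbu]; linarith
    · norm_num
      norm_num at hP
      linarith
    · nlinarith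
  rcases hz with rfl | rfl
  · -- `z = 0`
    refine (key (3398 / 1000) (by norm_num) (by linarith)).trans ?_
    refine mul_le_mul_of_nonneg_right ?_ hsg.le
    have h1 : exp (6 / 11 * (1 / (x + 2) / (x * d)) - (y - 1 / (x + 2)) * 0 * d) ≤
        1 + 101 / 100 * (4 / 1000) :=
      exp_small (by norm_num) (by norm_num) (by rw [mul_zero, zero_mul, sub_zero]; exact hw0)
    have h2 : exp ((534 / 1000 + 4124 / 10000) / 2 - 1013 / 1000 * (3398 / 1000)) ≤
        6 / 100 := by
      have h3 := exp_nf 2 (f := 9 / 10) (x := 1013 / 1000 * (3398 / 1000) -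
        (534 / 1000 + 4124 / 10000) / 2) (by norm_num) (by norm_num)
      rw [neg_sub] at h3
      refine h3.trans ?_
      norm_num
    linarith
  · -- `z = π - η`
    refine (key (1199 / 1000) (by norm_num) (by linarith)).trans ?_
    refine mul_le_mul_of_nonneg_right ?_ hsg.le
    have hδ : 1 ≤ (y - 1 / (x + 2)) * (π - η) * d := by
      have h1 : y - 1 / (x + 2) = (y * (x + 2) - 1) / (x + 2) := by field_simp
      have h2 : 104 / 100 * (1 / (x + 2)) ≤ y - 1 / (x + 2) := by
        rw [h1, mul_one_div]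
        exact div_le_div_of_nonneg_right (by linarith) (by linarith)
      have h3 : 96 / 100 * (x + 2) ≤ ρ := by linarith
      have h4 : 96 / 100 ≤ 1 / (x + 2) * ρ := by
        rw [div_mul_eq_mul_div, one_mul, le_div_iff₀ (by linarith)]
        linarith
      have h5 : 1013 / 1000 * (96 / 100) ≤ 1 / (x + 2) * d := by
        have := mul_le_mul_of_nonneg_left hg hc0.le
        linarith
      have h6 : 104 / 100 * (1013 / 1000 * (96 / 100)) ≤ (y - 1 / (x + 2)) * d := by
        have := mul_le_mul_of_nonneg_right h2 hd.le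
        linarith
      have h7 : 109 / 100 * (104 / 100 * (1013 / 1000 * (96 / 100))) ≤
          (π - η) * ((y - 1 / (x + 2)) * d) :=
        mul_le_mul (by linarith) h6 (by norm_num) (by linarith)
      linarith
    have h1 : exp (6 / 11 * (1 / (x + 2) / (x * d)) - (y - 1 / (x + 2)) * (π - η) * d) ≤
        38 / 100 := by
      have h3 := exp_nf 0 (f := 99 / 100) (x := (y - 1 / (x + 2)) * (π - η) * d -
        6 / 11 * (1 / (x + 2) / (x * d))) (by norm_num) (by rw [Nat.cast_zero]; linarith)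
      rw [neg_sub] at h3
      refine h3.trans ?_
      norm_num
    have h2 : exp ((534 / 1000 + 4124 / 10000) / 2 - 1013 / 1000 * (1199 / 1000)) ≤ 48 / 100 := by
      have h3 := exp_nf 0 (f := 741 / 1000) (x := 1013 / 1000 * (1199 / 1000) -
        (534 / 1000 + 4124 / 10000) / 2) (by norm_num) (by norm_num)
      rw [neg_sub] at h3
      refine h3.trans ?_
      norm_num
    linarith

end SokalP2O
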