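import Pool.Agent.Lib_MP_af4de1_v3.P2OutM

/-!
# `P2.outL` for `Γ ≥ 20`: `η = 3π/5`, `ρ ≥ 16/5`
-/

set_option autoImplicit false

namespace SokalP2O

open Real Set SokalF1G MeasureTheory

theorem polyC {x : ℝ} (hx : 1624 / 1000 ≤ x) :
    ((1 + 61 / 100) ^ 2 + x ^ 2) * ((x + 2) ^ 2 + 1) ^ 2 ≤
      ((12852 / 10000) ^ 2 * 2 * (11 / 24 * x * (x + 2) * (x + 2 - 1) + (x + 2) -
        351 / 625 * x)) ^ 2 := by
  obtain ⟨t, rfl⟩ : ∃ t, x = 1624 / 1000 + t := ⟨x - 1624 / 1000, by ring⟩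
  have ht : 0 ≤ t := by linarith
  have h2 := pow_nonneg ht 2
  have h3 := pow_nonneg ht 3
  have h4 := pow_nonneg ht 4
  have h5 := pow_nonneg ht 5
  have h6 := pow_nonneg ht 6
  nlinarith

theorem regC {x y ρ η ψ W D : ℝ} (G : GeL x y ρ η ψ W D) (hη : η = 60 / 100 * π)
    (hρ : 16 / 5 ≤ ρ) {d z j : ℝ} (hd : 0 < d) (hr : 499 / 10 ≤ ρ * d)
    (hg : 2026 / 1000 * ρ ≤ d) (hz : z = 0 ∨ z = π - η) (hj0 : 0 ≤ j) (hj1 : j ≤ 1)
    (hf : Integrable (fL (1 / (x + 2)) ((y + 6 / 5 / ρ) * (x + 2)) x y z d j)) :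
    ∫ s, fL (1 / (x + 2)) ((y + 6 / 5 / ρ) * (x + 2)) x y z d j s ≤ 27 / 20 * sg d D := by
  have hp := Real.pi_gt_d4
  have hp2 := Real.pi_lt_d4
  have hx0 := G.x0
  have hy0 := G.y0
  have hy1 := G.y1
  have hρ0 := G.r0
  have hη1 : η ≤ 188496 / 100000 := by linarith
  have hη2 : 18849 / 10000 ≤ η := by linarith
  -- `W`, `x`
  have hW : ρ ≤ 18405 / 10000 * W := by
    have h1 : exp y ≤ 18405 / 10000 := (exp_le_exp.2 hy1).trans SokalV3.p2_exp_61
    have h2 := mul_le_mul_of_nonneg_left h1 G.W0.le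
    rw [← G.rho] at h2
    linarith
  have hxρ : 203 / 400 * ρ ≤ x := by
    refine sq_le_of hx0.le ?_
    have h1 := G.W2
    have h2 := pow_le_pow_left₀ hρ0.le hW 2
    have h3 := pow_le_pow_left₀ (by norm_num : (0 : ℝ) ≤ 16 / 5) hρ 2
    have h4 := pow_le_pow_left₀ hy0 hy1 2
    nlinarith
  have hx1 : 1624 / 1000 ≤ x := by linarith
  have hY : y / x ≤ 3757 / 10000 := by
    rw [div_le_iff₀ hx0]
    linarith
  have hψ := G.psi_le.trans hY
  have heta := G.eta
  have hψ0 := G.p0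
  have hb1 : 6 / 5 / ρ ≤ 375 / 1000 := by
    rw [div_le_iff₀ hρ0]
    linarith
  have hb0 : 0 < 6 / 5 / ρ := by positivity
  set b := 6 / 5 / ρ with hb
  have hbρ : b * ρ = 6 / 5 := by rw [hb]; field_simp
  have hF1 := G.F1 (by linarith)
  have hF3 := G.F3
  have hx1' : 1 / x ≤ 1000 / 1624 := by
    rw [div_le_div_iff₀ hx0 (by norm_num)]
    linarith
  have hyx1 : y * (1 / x) ≤ y * (1000 / 1624) := mul_le_mul_of_nonneg_left hx1' hy0
  -- `y (x + 2)`
  have hyu_lo : η ≤ y * (x + 2) := by nlinarith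
  have hyu_hi : y * (x + 2) ≤ 278 / 100 := by
    have h1 : y * (x + 2) = y * (ρ - η / 2) + y * (2 - η / 2 + ψ) := by
      rw [show x = ρ - η + ψ by linarith]; ring
    have h2 : y * (2 - η / 2 + ψ) ≤ 61 / 100 * (2 - 18849 / 20000 + 3757 / 10000) :=
      mul_le_mul hy1 (by linarith) (by linarith) (by norm_num)
    linarith
  have hbu : b * (x + 2) = 6 / 5 + b * (2 - η + ψ) := by
    rw [← hbρ, show x = ρ - η + ψ by linarith]; ring
  have hbu_hi : b * (2 - η + ψ) ≤ 375 / 1000 * (2 - 18849 / 10000 + 3757 / 10000) :=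
    mul_le_mul hb1 (by linarith) (by linarith) (by norm_num)
  have hbu_lo : 0 ≤ b * (2 - η + ψ) := mul_nonneg hb0.le (by linarith)
  have hk : 253 / 10 ≤ x * d := by
    have := mul_le_mul_of_nonneg_right hxρ hd.le
    nlinarith
  -- `y ρ`
  have hyρ : 3 / 2 ≤ y * ρ := by
    have h1 : ρ = x + η - ψ := by linarith
    rw [h1]
    have h2 : y * (ψ + 2 - η) ≤ 61 / 100 * (3757 / 10000 + 2 - 18849 / 10000) :=
      mul_le_mul hy1 (by linarith) (by linarith) (by norm_num)
    nlinarith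
  have hyd : 3 ≤ y * d := by
    have := mul_le_mul_of_nonneg_left hg hy0
    nlinarith
  have hz0 : 0 ≤ z := by rcases hz with rfl | rfl <;> linarith
  have hzπ : z ≤ π := by rcases hz with rfl | rfl <;> linarith
  have hc : 1 / (x + 2) ≤ 276 / 1000 := by
    rw [div_le_div_iff₀ (by linarith) (by norm_num)]
    linarith
  have hc0 : 0 < 1 / (x + 2) := by positivity
  have hw0 : 6 / 11 * (1 / (x + 2) / (x * d)) ≤ 596 / 100000 := by
    have h1 : 1 / (x + 2) / (x * d) ≤ 276 / 1000 / (253 / 10) :=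
      div_le_div₀ (by norm_num) hc (by norm_num) hk
    refine (mul_le_mul_of_nonneg_left h1 (by norm_num)).trans ?_
    norm_num
  have hmid : (27 : ℝ) ^ 2 * (141 / 100 * (253 / 10)) * exp (-(2 * (7 / 20) * (253 / 10))) ≤
      (93 / 10000) ^ 2 * (2 * π) := by
    have h1 := exp_nf 17 (f := 71 / 100) (x := 2 * (7 / 20) * (253 / 10)) (by norm_num)
      (by norm_num)
    refine (mul_le_mul_of_nonneg_left h1 (by norm_num)).trans ?_
    have h2 : (93 / 10000 : ℝ) ^ 2 * (2 * (31415 / 10000)) ≤ (93 / 10000) ^ 2 * (2 * π) := by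
      have : (31415 / 10000 : ℝ) ≤ π := by linarith
      nlinarith
    refine le_trans ?_ h2
    norm_num
  have hkw : W ^ 2 + 1 + 2 * (61 / 100) ≤ (13175 / 10000 * W) ^ 2 := by
    have h1 : (16 / 5 : ℝ) ≤ 18405 / 10000 * W := hρ.trans hW
    have h2 := pow_le_pow_left₀ (by norm_num) h1 2
    nlinarith
  have h10 : exp (-10) ≤ 1 / 20000 := exp_neg_le (n := 10) (by norm_num) (by norm_num) (by norm_num)
  have hsg := sg_pos hd G.D0
  -- both values of `z`
  have key : ∀ P0 : ℝ, 0 ≤ P0 → P0 ≤ 6 / 5 * (2 * π - z - η) - 335525 / 100000 →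
      ∫ s, fL (1 / (x + 2)) ((y + 6 / 5 / ρ) * (x + 2)) x y z d j s ≤
      (12852 / 10000 * exp (6 / 11 * (1 / (x + 2) / (x * d)) - (y - 1 / (x + 2)) * z * d) +
        93 / 10000 + 1201 / 1000 * exp ((61 / 100 + 375 / 1000) / 2 - 2026 / 1000 * P0) +
        5 / 4 * (1201 / 1000) * exp (-10)) * sg d D := by
    intro P0 hP0 hP
    refine finL G (Y1 := 3757 / 10000) (η1 := 188496 / 100000) (k0 := 253 / 10)
      (q := 141 / 100) (kw := 13175 / 10000) hd (by norm_num) (by norm_num) hz0 hzπ hj0 hj1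
      (by linarith) hr hg hb1 (by norm_num) hy1 (by norm_num) hY (by linarith) hη1 (by norm_num)
      ?_ (by linarith) (by linarith) (by linarith) ?_ ?_ hP0 ?_ (by norm_num) (polyC hx1) hk
      (by norm_num) (by norm_num) ?_ (by norm_num) hmid (by norm_num) (by norm_num) hkw
      (by norm_num) (by norm_num) (by linarith) hf
    · rw [div_le_iff₀ (by norm_num)]; linarith
    · rw [hbu]; linarith
    · rw [hbu]; linarith
    · norm_num
      norm_num at hP
      linarith
    · nlinarith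
  rcases hz with rfl | rfl
  · -- `z = 0`
    refine (key (19224 / 10000) (by norm_num) (by linarith)).trans ?_
    refine mul_le_mul_of_nonneg_right ?_ hsg.le
    have h1 : exp (6 / 11 * (1 / (x + 2) / (x * d)) - (y - 1 / (x + 2)) * 0 * d) ≤
        1 + 101 / 100 * (596 / 100000) :=
      exp_small (by norm_num) (by norm_num) (by rw [mul_zero, zero_mul, sub_zero]; exact hw0)
    have h2 : exp ((61 / 100 + 375 / 1000) / 2 - 2026 / 1000 * (19224 / 10000)) ≤
        3345 / 100000 := by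
      have h3 := exp_nf 3 (f := 4 / 10) (x := 2026 / 1000 * (19224 / 10000) -
        (61 / 100 + 375 / 1000) / 2) (by norm_num) (by norm_num)
      rw [neg_sub] at h3
      refine h3.trans ?_
      norm_num
    linarith
  · -- `z = π - η`
    refine (key (414 / 1000) (by norm_num) (by linarith)).trans ?_
    refine mul_le_mul_of_nonneg_right ?_ hsg.le
    have hδ : 18 / 10 ≤ (y - 1 / (x + 2)) * (π - η) * d := by
      have h1 : y - 1 / (x + 2) = (y * (x + 2) - 1) / (x + 2) := by field_simp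
      have h2 : 884 / 1000 * (1 / (x + 2)) ≤ y - 1 / (x + 2) := by
        rw [h1, mul_one_div]
        exact div_le_div_of_nonneg_right (by linarith) (by linarith)
      have h3 : x + 2 ≤ 6 / 5 * ρ := by linarith
      have h4 : 5 / 6 ≤ 1 / (x + 2) * ρ := by
        rw [div_mul_eq_mul_div, one_mul, le_div_iff₀ (by linarith)]
        linarith
      have h5 : 2026 / 1000 * (5 / 6) ≤ 1 / (x + 2) * d := by
        have := mul_le_mul_of_nonneg_left hg hc0.le
        linarith
      have h6 : 884 / 1000 * (2026 / 1000 * (5 / 6)) ≤ (y - 1 / (x + 2)) * d := by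
        have := mul_le_mul_of_nonneg_right h2 hd.le
        linarith
      have h7 : 125 / 100 * (884 / 1000 * (2026 / 1000 * (5 / 6))) ≤
          (π - η) * ((y - 1 / (x + 2)) * d) :=
        mul_le_mul (by linarith) h6 (by norm_num) (by linarith)
      linarith
    have h1 : exp (6 / 11 * (1 / (x + 2) / (x * d)) - (y - 1 / (x + 2)) * (π - η) * d) ≤
        17 / 100 := by
      have h3 := exp_nf 1 (f := 79 / 100) (x := (y - 1 / (x + 2)) * (π - η) * d -
        6 / 11 * (1 / (x + 2) / (x * d))) (by norm_num) (by rw [Nat.cast_one]; linarith)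
      rw [neg_sub] at h3
      refine h3.trans ?_
      norm_num
    have h2 : exp ((61 / 100 + 375 / 1000) / 2 - 2026 / 1000 * (414 / 1000)) ≤ 71 / 100 := by
      have h3 := exp_nf 0 (f := 346 / 1000) (x := 2026 / 1000 * (414 / 1000) -
        (61 / 100 + 375 / 1000) / 2) (by norm_num) (by norm_num)
      rw [neg_sub] at h3
      refine h3.trans ?_
      norm_num
    linarith

end SokalP2O
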