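import Pool.Agent.Lib_MP_af4de1_v3.P2OutMR

/-!
# `P2.outR` for `Γ < 10`: `η = -67π/100`, `ρ ≥ 694/100`
-/

set_option autoImplicit false

namespace SokalP2O

open Real Set SokalF1G MeasureTheory

theorem polyD {x : ℝ} (hx : 9 ≤ x) :
    0 < 11 / 24 * x * (x + -1) * (x + -1 - 1) + (x + -1) - 528 / 1000 * x - 268 / 1000 * (x + -1) -
      268 / 1000 / 6 * (x + -1) ^ 2 ∧
    (1 + x ^ 2) * ((x + -1) ^ 2 + 1) ^ 2 ≤
      ((1134 / 1000) ^ 2 * 2 * (11 / 24 * x * (x + -1) * (x + -1 - 1) + (x + -1) - 528 / 1000 * x -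
        268 / 1000 * (x + -1) - 268 / 1000 / 6 * (x + -1) ^ 2)) ^ 2 := by
  obtain ⟨t, rfl⟩ : ∃ t, x = 9 + t := ⟨x - 9, by ring⟩
  have ht : 0 ≤ t := by linarith
  have h2 := pow_nonneg ht 2
  have h3 := pow_nonneg ht 3
  have h4 := pow_nonneg ht 4
  have h5 := pow_nonneg ht 5
  have h6 := pow_nonneg ht 6
  constructor
  · nlinarith
  · nlinarith

theorem regD {x n ρ η ψ W D : ℝ} (G : GeR x n ρ η ψ W D) (hη : η = 67 / 100 * π)
    (hρ : 694 / 100 ≤ ρ) {d z j : ℝ} (hd : 0 < d) (hr : 499 / 10 ≤ ρ * d)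
    (hg : 547 / 1000 * ρ ≤ d) (hz : z = 0 ∨ z = π - η) (hj0 : 0 ≤ j) (hj1 : j ≤ 1)
    (hf : Integrable (fR (1 / (x + -1)) ((n + 11 / 5 / ρ) * (x + -1)) x n z d j)) :
    ∫ s, fR (1 / (x + -1)) ((n + 11 / 5 / ρ) * (x + -1)) x n z d j s ≤ 13 / 10 * sg d D := by
  have hp := Real.pi_gt_d4
  have hp2 := Real.pi_lt_d4
  have hx0 := G.x0
  have hn0 := G.n0
  have hρ0 := G.r0
  have hη1 : η ≤ 2104872 / 1000000 := by linarith
  have hη2 : 21048 / 10000 ≤ η := by linarith
  have hF5 := G.F5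
  have hF6 := G.F6
  have heta := G.eta
  have hψ0 := G.p0
  have hn1 : n ≤ 268 / 1000 := by
    by_contra hn
    push Not at hn
    have h1 : 268 / 1000 * (694 / 100) ≤ n * ρ := mul_le_mul hn.le hρ (by norm_num) hn0
    have h2 : 268 / 1000 * (694 / 100) * (1 + 268 / 1000 / 2) ≤ n * ρ * (1 + n / 2) :=
      mul_le_mul h1 (by linarith) (by norm_num) (by positivity)
    norm_num at h2
    linarith
  have hψ4 := G.psi_le.trans G.Y1
  have hx00 : 864 / 100 ≤ x := by linarith
  have hY : n / x ≤ 32 / 1000 := by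
    rw [div_le_iff₀ hx0]
    linarith
  have hψ := G.psi_le.trans hY
  have hx1 : 9 ≤ x := by linarith
  have hxρ : ρ ≤ x := by linarith
  have hb1 : 11 / 5 / ρ ≤ 3171 / 10000 := by
    rw [div_le_iff₀ hρ0]
    linarith
  have hb0 : 0 < 11 / 5 / ρ := by positivity
  set b := 11 / 5 / ρ with hb
  have hbρ : b * ρ = 11 / 5 := by rw [hb]; field_simp
  have hx1' : 1 / x ≤ 1 / (9) := one_div_le_one_div_of_le (by norm_num) hx1
  have hyx1 : n * (1 / x) ≤ n * (1 / (9)) := mul_le_mul_of_nonneg_left hx1' hn0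
  -- `n (x + c0)`
  have hnu_lo : 208 / 100 ≤ n * (x + -1) := by nlinarith
  have hnu_hi : n * (x + -1) ≤ 2193 / 1000 := by
    have h1 : n * (x + -1) = n * ρ + n * (η + (-1) - ψ) := by
      rw [show x = ρ + η - ψ by linarith]; ring
    have h2 : n * (η + (-1) - ψ) ≤ n * (2104872 / 1000000 + (-1)) := mul_le_mul_of_nonneg_left (by linarith) hn0
    have h3 : n ^ 2 * (694 / 100) ≤ n ^ 2 * ρ := mul_le_mul_of_nonneg_left hρ (sq_nonneg n)
    nlinarith [sq_nonneg (n - 159 / 1000)]
  have hbu : b * (x + -1) = 11 / 5 + b * (η + (-1) - ψ) := by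
    rw [← hbρ, show x = ρ + η - ψ by linarith]; ring
  have hbu_hi : b * (η + (-1) - ψ) ≤ 3171 / 10000 * (2104872 / 1000000 + (-1)) :=
    mul_le_mul hb1 (by linarith) (by linarith) (by norm_num)
  have hbu_lo : 0 ≤ b * (η + (-1) - ψ) := mul_nonneg hb0.le (by linarith)
  -- `n d`
  have hnρ : 17 / 10 ≤ n * ρ := by
    have h1 : n * (η + (-1) - ψ) ≤ 268 / 1000 * (2104872 / 1000000 + (-1)) :=
      mul_le_mul hn1 (by linarith) (by linarith) (by norm_num)
    have h2 : n * (x + -1) = n * ρ + n * (η + (-1) - ψ) := by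
      rw [show x = ρ + η - ψ by linarith]; ring
    linarith
  have hnd : 3 / 4 ≤ n * d := by
    have := mul_le_mul_of_nonneg_left hg hn0
    nlinarith
  have hz0 : 0 ≤ z := by rcases hz with rfl | rfl <;> linarith
  have hzπ : z ≤ π := by rcases hz with rfl | rfl <;> linarith
  have hzη : η ≤ π - z := by rcases hz with rfl | rfl <;> linarith
  have hk : 499 / 10 ≤ x * d := hr.trans (mul_le_mul_of_nonneg_right hxρ hd.le)
  have hc : 1 / (x + -1) ≤ 125 / 1000 := by
    rw [div_le_iff₀ (by linarith)]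
    linarith
  have hc0 : 0 < 1 / (x + -1) := by
    have : 0 < x + -1 := by linarith
    positivity
  have hw0 : 6 / 11 * (1 / (x + -1) / (x * d)) ≤ 14 / 10000 := by
    have h1 : 1 / (x + -1) / (x * d) ≤ 125 / 1000 / (499 / 10) :=
      div_le_div₀ (by norm_num) hc (by norm_num) hk
    refine (mul_le_mul_of_nonneg_left h1 (by norm_num)).trans ?_
    norm_num
  have hmid : (27 : ℝ) ^ 2 * (101 / 100 * (499 / 10)) * exp (-(2 * (17 / 100) * (499 / 10))) ≤
      (16 / 1000) ^ 2 * (2 * π) := by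
    have h1 := exp_nf 16 (f := 966 / 1000) (x := 2 * (17 / 100) * (499 / 10)) (by norm_num)
      (by norm_num)
    refine (mul_le_mul_of_nonneg_left h1 (by norm_num)).trans ?_
    have h2 : (16 / 1000 : ℝ) ^ 2 * (2 * (31415 / 10000)) ≤ (16 / 1000) ^ 2 * (2 * π) := by
      have : (31415 / 10000 : ℝ) ≤ π := by linarith
      nlinarith
    refine le_trans ?_ h2
    norm_num
  have hkw : W ^ 2 + 1 ≤ (10062 / 10000 * W) ^ 2 := by
    have h2 := pow_le_pow_left₀ (by norm_num) (hx1.trans G.xW) 2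
    nlinarith
  have ha1 : n + b ≤ 5851 / 10000 := by linarith
  have ha0 : 0 ≤ n + b := by linarith
  have ha2 : (n + b) ^ 2 ≤ (5851 / 10000) ^ 2 := pow_le_pow_left₀ ha0 ha1 2
  have hcr : 17 / 100 * x ≤ 859 / 1000 * x * (1 - (n + b)) - 141 / 2000 * x * (n + b) ^ 2 +
      (n + b - n) * (π - z) := by
    have h1 : 0 ≤ x * (859 / 1000 * (1 - (n + b)) - 141 / 2000 * (n + b) ^ 2 - 17 / 100) := by
      refine mul_nonneg hx0.le ?_
      norm_num at ha2 ⊢
      linarith
    have h2 : 0 ≤ b * (π - z) := mul_nonneg hb0.le (by linarith)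
    linarith
  have h33 : x * (n + b) * (1 / 2 + (n + b) / 6 + (n + b) ^ 2 / 19) ≤ 33 / 10 := by
    have h1 : x * (n + b) ≤ 533 / 100 := by linarith
    have h2 : 1 / 2 + (n + b) / 6 + (n + b) ^ 2 / 19 ≤ 1 / 2 + 5851 / 10000 / 6 + (5851 / 10000) ^ 2 / 19 := by
      linarith
    refine (mul_le_mul h1 h2 (by positivity) (by norm_num)).trans ?_
    norm_num
  have h7 : exp (-7) ≤ 1 / 1000 * (914 / 1000) :=
    exp_neg_le (n := 7) (by norm_num) (by norm_num) (by norm_num)
  have hsg := sg_pos hd G.D0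
  obtain ⟨hI, hpoly⟩ := polyD hx1
  -- both values of `z`
  have key : ∀ P0 : ℝ, 0 ≤ P0 → P0 ≤ 11 / 5 * (2 * π - z - η) - 47106 / 10000 →
      ∫ s, fR (1 / (x + -1)) ((n + 11 / 5 / ρ) * (x + -1)) x n z d j s ≤
      (1134 / 1000 * exp (6 / 11 * (1 / (x + -1) / (x * d)) - (n - 1 / (x + -1)) * z * d) +
        16 / 1000 + 1049 / 1000 * exp ((268 / 1000 + 3171 / 10000) / 2 - 547 / 1000 * P0) +
        5 / 4 * (1049 / 1000) * exp (-7)) * sg d D := by
    intro P0 hP0 hP
    refine finR G (η1 := 2104872 / 1000000) (q := 101 / 100) (kw := 10062 / 10000) (φ := 528 / 1000) (E1 := 7278 / 10000) hd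
      (by norm_num) hz0 hzπ hj0 hj1 (by linarith) hr hg hb1 (by norm_num) hn1 (by norm_num)
      (by linarith) hη1 (by norm_num) (by norm_num) (by norm_num) ?_ (by linarith) (by linarith)
      (by linarith) (by linarith) hxρ ?_ ?_ hcr h33 hP0 ?_ (by norm_num) ?_ hI hpoly
      (by norm_num) ?_ (by norm_num) hmid (by norm_num) (by norm_num) hkw (by norm_num)
      (by norm_num) hnd hf
    · rw [div_le_iff₀ (by norm_num)]; linarith
    · rw [hbu]; linarith
    · rw [hbu]; linarith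
    · norm_num
      norm_num at hP
      linarith
    · linarith
    · nlinarith
  rcases hz with rfl | rfl
  · -- `z = 0`
    refine (key (4481 / 1000) (by norm_num) (by linarith)).trans ?_
    refine mul_le_mul_of_nonneg_right ?_ hsg.le
    have h1 : exp (6 / 11 * (1 / (x + -1) / (x * d)) - (n - 1 / (x + -1)) * 0 * d) ≤
        1 + 101 / 100 * (14 / 10000) :=
      exp_small (by norm_num) (by norm_num) (by rw [mul_zero, zero_mul, sub_zero]; exact hw0)
    have h2 : exp ((268 / 1000 + 3171 / 10000) / 2 - 547 / 1000 * (4481 / 1000)) ≤ 11559 / 100000 := by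
      have h3 := exp_nf 2 (f := 158 / 1000) (x := 547 / 1000 * (4481 / 1000) -
        (268 / 1000 + 3171 / 10000) / 2) (by norm_num) (by norm_num)
      rw [neg_sub] at h3
      refine h3.trans ?_
      norm_num
    linarith
  · -- `z = π - η`
    refine (key (22 / 10) (by norm_num) (by linarith)).trans ?_
    refine mul_le_mul_of_nonneg_right ?_ hsg.le
    have hδ : 525 / 1000 ≤ (n - 1 / (x + -1)) * (π - η) * d := by
      have h0 : 0 < x + -1 := by linarith
      have h1 : n - 1 / (x + -1) = (n * (x + -1) - 1) / (x + -1) := by field_simp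
      have h2 : 108 / 100 * (1 / (x + -1)) ≤ n - 1 / (x + -1) := by
        rw [h1, mul_one_div]
        exact div_le_div_of_nonneg_right (by linarith) (by linarith)
      have h3 : 86 / 100 * (x + -1) ≤ ρ := by linarith
      have h4 : 86 / 100 ≤ 1 / (x + -1) * ρ := by
        rw [div_mul_eq_mul_div, one_mul, le_div_iff₀ h0]
        linarith
      have h5 : 547 / 1000 * (86 / 100) ≤ 1 / (x + -1) * d := by
        have := mul_le_mul_of_nonneg_left hg hc0.le
        linarith
      have h6 : 108 / 100 * (547 / 1000 * (86 / 100)) ≤ (n - 1 / (x + -1)) * d := by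
        have := mul_le_mul_of_nonneg_right h2 hd.le
        linarith
      have h7 : 1036 / 1000 * (108 / 100 * (547 / 1000 * (86 / 100))) ≤
          (π - η) * ((n - 1 / (x + -1)) * d) :=
        mul_le_mul (by linarith) h6 (by norm_num) (by linarith)
      linarith
    have h1 : exp (6 / 11 * (1 / (x + -1) / (x * d)) - (n - 1 / (x + -1)) * (π - η) * d) ≤
        6 / 10 := by
      have h3 := exp_nf 0 (f := 52 / 100) (x := (n - 1 / (x + -1)) * (π - η) * d -
        6 / 11 * (1 / (x + -1) / (x * d))) (by norm_num) (by rw [Nat.cast_zero]; linarith)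
      rw [neg_sub] at h3
      refine h3.trans ?_
      norm_num
    have h2 : exp ((268 / 1000 + 3171 / 10000) / 2 - 547 / 1000 * (22 / 10)) ≤ 41 / 100 := by
      have h3 := exp_nf 0 (f := 91 / 100) (x := 547 / 1000 * (22 / 10) -
        (268 / 1000 + 3171 / 10000) / 2) (by norm_num) (by norm_num)
      rw [neg_sub] at h3
      refine h3.trans ?_
      norm_num
    linarith

end SokalP2O
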