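import Pool.Agent.Lib_MP_af4de1_v3.P2OutLA
import Pool.Agent.Lib_MP_af4de1_v3.P2OutLB
import Pool.Agent.Lib_MP_af4de1_v3.P2OutLC
import Pool.Agent.Lib_MP_af4de1_v3.P2OutRD
import Pool.Agent.Lib_MP_af4de1_v3.P2OutRE
import Pool.Agent.Lib_MP_af4de1_v3.P2OutRF
import Pool.Agent.Lib_MP_af4de1_v3.P2GapL

/-!
# `P2.outL`, `P2.outR`
-/

set_option autoImplicit false

namespace SokalP2O

open Real Set SokalF1G MeasureTheory SokalPG SokalF1S SokalF1M

/-! ### the parameters -/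

theorem pol {ρ E E' v : ℝ} (hρ : ρ ≠ 0) (e : E' * E = 1) : v = ρ * E' * (v * E / ρ) := by
  have : ρ * E' * (v * E / ρ) = v * (E' * E) := by field_simp
  rw [this, e, mul_one]

/-- the data of a saddle -/
theorem base {r δ y : ℝ} (hS : SokalV3.Sad2 r δ y) :
    0 < sx (r * δ) y ∧ 0 < √(sD2 (r * δ) y) ∧
    √(sD2 (r * δ) y) ^ 2 = (1 + y) ^ 2 + sx (r * δ) y ^ 2 := by
  have hD : 0 < sD2 (r * δ) y := by linarith [hS.D]
  refine ⟨?_, Real.sqrt_pos.2 hD, by rw [Real.sq_sqrt hD.le]; rfl⟩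
  by_contra hn
  have h0 : sx (r * δ) y = 0 := le_antisymm (not_lt.1 hn) (sx_nonneg _ _)
  have h1 := hS.T
  rw [h0, mul_zero] at h1
  have h2 : y = 0 := abs_eq_zero.1 (le_antisymm h1 (abs_nonneg y))
  have h3 := hS.D
  unfold sD2 at h3
  rw [h0, h2] at h3
  norm_num at h3

theorem psi_lt {ρ y x : ℝ} (hD : Dom ρ y) (hx : 0 < x) (hxe : x = sx ρ y) : |sP ρ y| < π / 2 := by
  refine lt_of_le_of_ne (sP_abs_le ρ y) fun h => ?_
  have h1 := hD.cos
  have h2 : Real.cos (sP ρ y) = 0 := by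
    rw [← Real.cos_abs, h, Real.cos_pi_div_two]
  rw [h2, ← hxe] at h1
  have h3 : 0 < x * Real.exp y / ρ := by
    have := hD.1
    positivity
  linarith

theorem mkL {r δ y η : ℝ} (hA : SokalV3.At r δ y η)
    (hS : SokalV3.Sad2 r δ y) (hy : 0 ≤ y) (hy1 : y ≤ 61 / 100) :
    GeL (sx (r * δ) y) y (r * δ) η (sP (r * δ) y) (r * δ * Real.exp (-y)) (√(sD2 (r * δ) y)) := by
  obtain ⟨b1, b2, b3⟩ := base hS
  have hρ : 0 < r * δ := hA.dom.1
  have e : Real.exp (-y) * Real.exp y = 1 := by rw [← Real.exp_add]; simp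
  have hψ := psi_lt hA.dom b1 rfl
  refine ⟨b1, hy, hy1, ?_, by positivity, b2, ?_, b3, ?_, ?_, ?_, sP_nonneg hρ hy,
    (abs_lt.1 hψ).2, ?_⟩
  · have := hS.T
    rwa [abs_of_nonneg hy] at this
  · linarith [sx_sq_add hA.dom]
  · rw [mul_assoc, e, mul_one]
  · rw [hA.dom.cos]
    exact pol hρ.ne' e
  · rw [hA.dom.sin]
    exact pol hρ.ne' e
  · have := hA.eta
    unfold sE at this
    linarith

theorem mkR {r δ y η : ℝ} (hA : SokalV3.At r δ y (-η))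
    (hS : SokalV3.Sad2 r δ y) (hy : y ≤ 0) (hy1 : -(1 / 2) ≤ y) :
    GeR (sx (r * δ) y) (-y) (r * δ) η (-sP (r * δ) y) (r * δ * Real.exp (-y))
      (√(sD2 (r * δ) y)) := by
  obtain ⟨b1, b2, b3⟩ := base hS
  have hρ : 0 < r * δ := hA.dom.1
  have e : Real.exp (-y) * Real.exp y = 1 := by rw [← Real.exp_add]; simp
  have hψ := psi_lt hA.dom b1 rfl
  refine ⟨b1, by linarith, by linarith, ?_, by positivity, b2, ?_, ?_, rfl, ?_, ?_, ?_, ?_, ?_⟩
  · have := hS.T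
    rwa [abs_of_nonpos hy] at this
  · have := sx_sq_add hA.dom
    rw [neg_sq]
    linarith
  · rw [b3]; ring
  · rw [Real.cos_neg, hA.dom.cos]
    exact pol hρ.ne' e
  · rw [Real.sin_neg, hA.dom.sin, mul_neg, ← pol hρ.ne' e]
  · linarith [sP_nonpos hρ hy]
  · linarith [(abs_lt.1 hψ).1]
  · have := hA.eta
    unfold sE at this
    linarith

/-- `sG` -/
theorem sG_eq {r δ y : ℝ} : sG r δ y = sg (1 / δ) (√(sD2 (r * δ) y)) := by
  unfold sG sg
  congr 1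
  rcases eq_or_ne δ 0 with rfl | h
  · simp
  · field_simp

/-- lower bound of `d/ρ` -/
theorem dr_ge {r δ g0 G0 : ℝ} (hr : 0 < r) (hδ : 0 < δ) (hG : G0 ≤ SokalV3.Gm 2 r δ)
    (hG0 : 0 ≤ G0) (h : g0 * (987 / 100) ≤ G0) : g0 * (r * δ) ≤ 1 / δ := by
  have hp := Real.pi_lt_d4
  have hp0 := Real.pi_pos
  have h1 : SokalV3.Gm 2 r δ * (1 + (r * δ) ^ 2) = r * π ^ 2 := by
    unfold SokalV3.Gm SokalV3.RR
    rw [SokalV3.hst_two]
    field_simp
  have h2 : π ^ 2 ≤ 987 / 100 := by nlinarith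
  have h3 : G0 * (r * δ) ^ 2 ≤ r * (987 / 100) := by
    calc G0 * (r * δ) ^ 2 ≤ SokalV3.Gm 2 r δ * (1 + (r * δ) ^ 2) :=
          mul_le_mul hG (by linarith) (by positivity) (by linarith)
      _ = r * π ^ 2 := h1
      _ ≤ _ := mul_le_mul_of_nonneg_left h2 hr.le
  have h4 : g0 * (987 / 100) * (r * δ) ^ 2 ≤ r * (987 / 100) :=
    (mul_le_mul_of_nonneg_right h (sq_nonneg _)).trans h3
  rw [le_div_iff₀ hδ]
  have h5 : r * (g0 * (r * δ) * δ) * (987 / 100) ≤ r * 1 * (987 / 100) := by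
    refine le_trans (le_of_eq ?_) (h4.trans (le_of_eq ?_)) <;> ring
  have h6 := le_of_mul_le_mul_right h5 (by norm_num)
  exact le_of_mul_le_mul_left h6 hr

/-! ### the integrals -/

theorem mF_L {c s1 r δ y ζ : ℝ} (j : ℕ) :
    SokalV3F.mF c s1 r δ y ζ j = ∫ s, fL c s1 (sx (r * δ) y) y ζ (1 / δ) j s := by
  unfold SokalV3F.mF
  congr 1
  ext s
  unfold fL SokalV3F.Hz SokalF1G.Ha HL
  congr 3
  ring

theorem int_L {c s1 r δ y : ℝ} (hc : 0 < c) (hs : 0 < s1) (hcs : c * s1 ≤ 1)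
    (hδ : 0 < δ) (hk : |y| < c * s1) (hy : y ≠ 0) (ζ : ℝ) (j : ℕ) :
    Integrable (fL c s1 (sx (r * δ) y) y ζ (1 / δ) j) := by
  refine (SokalV3F.integrable_mF (r := r) hc hs hcs hδ hk hy ζ j).congr
    (Filter.Eventually.of_forall fun s => ?_)
  simp only
  unfold fL SokalV3F.Hz SokalF1G.Ha HL
  congr 3
  ring

theorem fR_eq {c s1 r δ y ζ : ℝ} (hc : 0 < c) (hs : 0 < s1) (j : ℕ) (s : ℝ) :
    ‖pv c s1 (-s)‖ * (Real.exp (j * pc c s1 (-s)) *
      Real.exp (-(SokalV3F.Hz (sx (r * δ) y) y ζ (pc c s1 (-s)) (-s) / δ))) =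
      fR c s1 (sx (r * δ) y) (-y) (-ζ) (1 / δ) j s := by
  have e1 : pc c s1 (-s) = -pc c s1 s := by
    rcases le_total 0 s with h | h
    · exact pc_neg hc hs h
    · have := pc_neg (s := -s) hc hs (by linarith)
      rw [neg_neg] at this
      linarith
  have e2 : ‖pv c s1 (-s)‖ = ‖pv c s1 s‖ := by
    unfold pv
    rw [abs_neg]
  rw [e1, e2]
  unfold fR SokalV3F.Hz SokalF1G.Ha HR
  rw [Real.cos_neg, Real.sin_neg]
  congr 3
  · ring
  · ring

theorem mF_R {c s1 r δ y ζ : ℝ} (hc : 0 < c) (hs : 0 < s1) (j : ℕ) :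
    SokalV3F.mF c s1 r δ y ζ j = ∫ s, fR c s1 (sx (r * δ) y) (-y) (-ζ) (1 / δ) j s := by
  unfold SokalV3F.mF
  rw [← integral_neg_eq_self]
  congr 1
  ext s
  exact fR_eq hc hs j s

theorem int_R {c s1 r δ y : ℝ} (hc : 0 < c) (hs : 0 < s1) (hcs : c * s1 ≤ 1)
    (hδ : 0 < δ) (hk : |y| < c * s1) (hy : y ≠ 0) (ζ : ℝ) (j : ℕ) :
    Integrable (fR c s1 (sx (r * δ) y) (-y) (-ζ) (1 / δ) j) := by
  refine (SokalV3F.integrable_mF (r := r) hc hs hcs hδ hk hy ζ j).comp_neg.congr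
    (Filter.Eventually.of_forall fun s => ?_)
  exact fR_eq hc hs j s

/-- `Out` on the left from the bound of the integrals -/
theorem out_L {r δ y ζ η C c0 θ : ℝ} (h : SokalV3.Reg2 r δ) (hA : SokalV3.At r δ y η)
    (hθ : 0 < θ) (hy : 0 < y) (hu : 0 < sx (r * δ) y + c0)
    (h1 : y + θ / (r * δ) ≤ 1) (hζ : 0 ≤ ζ) (hζ2 : η + ζ ≤ π)
    (H : ∀ z j : ℝ, z = 0 ∨ z = π - η → 0 ≤ j → j ≤ 1 →
      Integrable (fL (1 / (sx (r * δ) y + c0)) ((y + θ / (r * δ)) * (sx (r * δ) y + c0))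
        (sx (r * δ) y) y z (1 / δ) j) →
      ∫ s, fL (1 / (sx (r * δ) y + c0)) ((y + θ / (r * δ)) * (sx (r * δ) y + c0))
        (sx (r * δ) y) y z (1 / δ) j s ≤ C * sg (1 / δ) (√(sD2 (r * δ) y))) :
    SokalV3.Out r δ y ζ C := by
  have hδ := h.d0
  have hρ : 0 < r * δ := hA.dom.1
  have hb : 0 < θ / (r * δ) := by positivity
  set c := 1 / (sx (r * δ) y + c0) with hc
  set s1 := (y + θ / (r * δ)) * (sx (r * δ) y + c0) with hs1
  have hc0 : 0 < c := by positivity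
  have hs0 : 0 < s1 := by positivity
  have hcs : c * s1 = y + θ / (r * δ) := by
    rw [hc, hs1]; field_simp
  have hk : |y| < c * s1 := by rw [hcs, abs_of_pos hy]; linarith
  have H' : ∀ z : ℝ, z = 0 ∨ z = π - η → ∀ j : ℕ, j ≤ 1 →
      SokalV3F.mF c s1 r δ y z j ≤ C * sG r δ y := by
    intro z hz j hj
    rw [mF_L, sG_eq]
    exact H z j hz (Nat.cast_nonneg j) (by exact_mod_cast hj)
      (int_L hc0 hs0 (by rw [hcs]; exact h1) hδ hk hy.ne' z j)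
  refine SokalV3F.out_of_mF (Z := π - η) hc0 hs0 (by rw [hcs]; exact h1) hδ hA.dom
    (by linarith) hk hy.ne' (mul_nonneg hζ (by linarith)) ?_ (H' 0 (Or.inl rfl) 0 (by norm_num))
    (H' _ (Or.inr rfl) 0 (by norm_num)) (H' 0 (Or.inl rfl) 1 le_rfl) (H' _ (Or.inr rfl) 1 le_rfl)
  rw [abs_of_nonneg hζ, abs_of_nonneg (by linarith)]
  linarith

theorem out_R {r δ y ζ η C c0 θ : ℝ} (h : SokalV3.Reg2 r δ) (hA : SokalV3.At r δ y (-η))
    (hθ : 0 < θ) (hy : y < 0) (hu : 0 < sx (r * δ) y + c0)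
    (h1 : -y + θ / (r * δ) ≤ 1) (hζ : ζ ≤ 0) (hζ2 : -π ≤ -η + ζ)
    (H : ∀ z j : ℝ, z = 0 ∨ z = π - η → 0 ≤ j → j ≤ 1 →
      Integrable (fR (1 / (sx (r * δ) y + c0)) ((-y + θ / (r * δ)) * (sx (r * δ) y + c0))
        (sx (r * δ) y) (-y) z (1 / δ) j) →
      ∫ s, fR (1 / (sx (r * δ) y + c0)) ((-y + θ / (r * δ)) * (sx (r * δ) y + c0))
        (sx (r * δ) y) (-y) z (1 / δ) j s ≤ C * sg (1 / δ) (√(sD2 (r * δ) y))) :
    SokalV3.Out r δ y ζ C := by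
  have hδ := h.d0
  have hρ : 0 < r * δ := hA.dom.1
  have hb : 0 < θ / (r * δ) := by positivity
  have hny : 0 < -y := by linarith
  set c := 1 / (sx (r * δ) y + c0) with hc
  set s1 := (-y + θ / (r * δ)) * (sx (r * δ) y + c0) with hs1
  have hc0 : 0 < c := by positivity
  have hs0 : 0 < s1 := by positivity
  have hcs : c * s1 = -y + θ / (r * δ) := by
    rw [hc, hs1]; field_simp
  have hk : |y| < c * s1 := by rw [hcs, abs_of_neg hy]; linarith
  have H' : ∀ z : ℝ, z = 0 ∨ z = π - η → ∀ j : ℕ, j ≤ 1 →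
      SokalV3F.mF c s1 r δ y (-z) j ≤ C * sG r δ y := by
    intro z hz j hj
    have hi := int_R (r := r) hc0 hs0 (by rw [hcs]; exact h1) hδ hk hy.ne (-z) j
    rw [mF_R hc0 hs0, sG_eq]
    rw [neg_neg] at hi ⊢
    exact H z j hz (Nat.cast_nonneg j) (by exact_mod_cast hj) hi
  have H0 := fun j hj => H' 0 (Or.inl rfl) j hj
  simp only [neg_zero] at H0
  refine SokalV3F.out_of_mF (Z := -(π - η)) hc0 hs0 (by rw [hcs]; exact h1) hδ hA.dom
    hA.y1 hk hy.ne (mul_nonneg_of_nonpos_of_nonpos hζ (by linarith)) ?_ (H0 0 (by norm_num))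
    (H' _ (Or.inr rfl) 0 (by norm_num)) (H0 1 le_rfl) (H' _ (Or.inr rfl) 1 le_rfl)
  rw [abs_of_nonpos hζ, abs_neg, abs_of_nonneg (by linarith)]
  linarith

/-! ### the two pieces -/

theorem rd_eq {r δ : ℝ} (hr : 499 / 10 ≤ r) (hδ : 0 < δ) : 499 / 10 ≤ r * δ * (1 / δ) := by
  have : r * δ * (1 / δ) = r := by field_simp
  rwa [this]

theorem eo2_A {r δ : ℝ} (h : SokalV3.Gm 2 r δ < 10) : SokalV3.eo2 r δ = 67 / 100 * π := by
  unfold SokalV3.eo2 SokalV3.om2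
  rw [SokalV3.hst_two, if_pos h]
  ring

theorem eo2_B {r δ : ℝ} (h : 10 ≤ SokalV3.Gm 2 r δ) (h2 : SokalV3.Gm 2 r δ < 20) :
    SokalV3.eo2 r δ = 65 / 100 * π := by
  unfold SokalV3.eo2 SokalV3.om2
  rw [SokalV3.hst_two, if_neg (not_lt.2 h), if_pos h2]
  ring

theorem eo2_C {r δ : ℝ} (h2 : 20 ≤ SokalV3.Gm 2 r δ) :
    SokalV3.eo2 r δ = 60 / 100 * π := by
  unfold SokalV3.eo2 SokalV3.om2
  rw [SokalV3.hst_two, if_neg (by linarith), if_neg (by linarith)]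
  ring

/-- **`P2.outL`** -/
theorem p2_outL : ∀ (r δ y ζ : ℝ), SokalV3.Reg2 r δ → SokalV3.At r δ y (SokalV3.eo2 r δ) →
    SokalV3.Sad2 r δ y → 0 ≤ ζ → SokalV3.eo2 r δ + ζ ≤ π → SokalV3.Out r δ y ζ (27 / 20) := by
  intro r δ y ζ h hA hS hζ hζ2
  have hp := Real.pi_gt_d4
  have hp2 := Real.pi_lt_d4
  have hδ := h.d0
  have hr := h.r0
  have hρ := h.rho
  have hρ0 : 0 < r * δ := hA.dom.1
  obtain ⟨-, f10, f20⟩ := SokalV3.reg2_facts h
  have hE : 0 < SokalV3.eo2 r δ := by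
    rcases SokalV3.eo2_cases h with ⟨_, _, he⟩ | ⟨_, _, he⟩ | ⟨_, _, he⟩ <;> rw [he] <;> positivity
  have hy0 : 0 ≤ y := SokalV3.p2g_y_nonneg hA.dom hA.y1 (by rw [hA.eta]; exact hE.le)
  have hy : 0 < y := by
    refine lt_of_le_of_ne hy0 fun h0 => ?_
    have h1 := hA.eta
    rw [← h0, sE_zero hρ0] at h1
    linarith
  have hy1 := (SokalV3.p2_lohi h hA (by rw [abs_of_pos hE])).2
  have G := mkL hA hS hy0 hy1
  have hx := G.x0
  have hd : 0 < 1 / δ := by positivity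
  have hrd := rd_eq hr hδ
  rcases lt_or_ge (SokalV3.Gm 2 r δ) 10 with h10 | h10
  · have hρ6 := f10 h10
    have he := eo2_A h10
    have hg : 547 / 1000 * (r * δ) ≤ 1 / δ :=
      dr_ge (by linarith) hδ h.G (by norm_num) (by norm_num)
    have hb : 13 / 5 / (r * δ) ≤ 375 / 1000 := by
      rw [div_le_iff₀ hρ0]; linarith
    refine out_L (c0 := 1) (θ := 13 / 5) h hA (by norm_num) hy (by linarith) (by linarith) hζ hζ2 ?_
    intro z j hz hj0 hj1 hf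
    exact regA G he hρ6 hd hrd hg hz hj0 hj1 hf
  rcases lt_or_ge (SokalV3.Gm 2 r δ) 20 with h20 | h20
  · have hρ4 := f20 h20
    have he := eo2_B h10 h20
    have hg : 1013 / 1000 * (r * δ) ≤ 1 / δ :=
      dr_ge (by linarith) hδ h10 (by norm_num) (by norm_num)
    have hb : 2 / (r * δ) ≤ 4124 / 10000 := by
      rw [div_le_iff₀ hρ0]; linarith
    have hy2 : y ≤ 534 / 1000 := by
      have hF1 := G.F1 (by rw [he]; linarith)
      rw [he] at hF1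
      by_contra hn
      push Not at hn
      nlinarith
    refine out_L (c0 := 2) (θ := 2) h hA (by norm_num) hy (by linarith) (by linarith) hζ hζ2 ?_
    intro z j hz hj0 hj1 hf
    exact regB G he hρ4 hd hrd hg hz hj0 hj1 hf
  · have he := eo2_C h20
    have hg : 2026 / 1000 * (r * δ) ≤ 1 / δ :=
      dr_ge (by linarith) hδ h20 (by norm_num) (by norm_num)
    have hb : 6 / 5 / (r * δ) ≤ 375 / 1000 := by
      rw [div_le_iff₀ hρ0]; linarith
    refine out_L (c0 := 2) (θ := 6 / 5) h hA (by norm_num) hy (by linarith) (by linarith) hζ hζ2 ?_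
    intro z j hz hj0 hj1 hf
    exact regC G he hρ hd hrd hg hz hj0 hj1 hf

/-- **`P2.outR`** -/
theorem p2_outR : ∀ (r δ y ζ : ℝ), SokalV3.Reg2 r δ → SokalV3.At r δ y (-SokalV3.eo2 r δ) →
    SokalV3.Sad2 r δ y → ζ ≤ 0 → -π ≤ -SokalV3.eo2 r δ + ζ → SokalV3.Out r δ y ζ (13 / 10) := by
  intro r δ y ζ h hA hS hζ hζ2
  have hp := Real.pi_gt_d4
  have hp2 := Real.pi_lt_d4
  have hδ := h.d0
  have hr := h.r0
  have hρ := h.rho
  have hρ0 : 0 < r * δ := hA.dom.1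
  obtain ⟨-, f10, f20⟩ := SokalV3.reg2_facts h
  have hE : 0 < SokalV3.eo2 r δ := by
    rcases SokalV3.eo2_cases h with ⟨_, _, he⟩ | ⟨_, _, he⟩ | ⟨_, _, he⟩ <;> rw [he] <;> positivity
  have hy0 : y ≤ 0 := SokalV3.p2g_y_nonpos hA.dom (by rw [hA.eta]; linarith)
  have hy : y < 0 := by
    refine lt_of_le_of_ne hy0 fun h0 => ?_
    have h1 := hA.eta
    rw [h0, sE_zero hρ0] at h1
    linarith
  have hy1 := (SokalV3.p2_lohi h hA (by rw [abs_neg, abs_of_pos hE])).1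
  have G := mkR hA hS hy0 hy1
  have hx := G.x0
  have hψ := G.p1
  have heta := G.eta
  have hd : 0 < 1 / δ := by positivity
  have hrd := rd_eq hr hδ
  rcases lt_or_ge (SokalV3.Gm 2 r δ) 10 with h10 | h10
  · have hρ6 := f10 h10
    have he := eo2_A h10
    have hg : 547 / 1000 * (r * δ) ≤ 1 / δ :=
      dr_ge (by linarith) hδ h.G (by norm_num) (by norm_num)
    have hb : 11 / 5 / (r * δ) ≤ 375 / 1000 := by
      rw [div_le_iff₀ hρ0]; linarith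
    refine out_R (c0 := -1) (θ := 11 / 5) h hA (by norm_num) hy (by linarith) (by linarith) hζ
      hζ2 ?_
    intro z j hz hj0 hj1 hf
    exact regD G he hρ6 hd hrd hg hz hj0 hj1 hf
  rcases lt_or_ge (SokalV3.Gm 2 r δ) 20 with h20 | h20
  · have hρ4 := f20 h20
    have he := eo2_B h10 h20
    have hg : 1013 / 1000 * (r * δ) ≤ 1 / δ :=
      dr_ge (by linarith) hδ h10 (by norm_num) (by norm_num)
    have hb : 8 / 5 / (r * δ) ≤ 375 / 1000 := by
      rw [div_le_iff₀ hρ0]; linarith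
    refine out_R (c0 := 0) (θ := 8 / 5) h hA (by norm_num) hy (by linarith) (by linarith) hζ
      hζ2 ?_
    intro z j hz hj0 hj1 hf
    exact regE G he hρ4 hd hrd hg hz hj0 hj1 hf
  · have he := eo2_C h20
    have hg : 2026 / 1000 * (r * δ) ≤ 1 / δ :=
      dr_ge (by linarith) hδ h20 (by norm_num) (by norm_num)
    have hb : 6 / 5 / (r * δ) ≤ 375 / 1000 := by
      rw [div_le_iff₀ hρ0]; linarith
    refine out_R (c0 := 0) (θ := 6 / 5) h hA (by norm_num) hy (by linarith) (by linarith) hζ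
      hζ2 ?_
    intro z j hz hj0 hj1 hf
    exact regF G he hρ hd hrd hg hz hj0 hj1 hf

end SokalP2O
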