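import Pool.Agent.Lib_MP_af4de1_v3.P2OutT
import Pool.Agent.Lib_MP_af4de1_v3.Fix

/-!
# `P2.outL`, `P2.outR`: the absolute integral from the numerical facts
-/

set_option autoImplicit false

namespace SokalP2O

open Real Set SokalF1G MeasureTheory SokalPG

/-! ### the path -/

theorem norm_pv0 (c : ℝ) : ‖(1 : ℂ) - c * Complex.I‖ = √(1 + c ^ 2) := by
  have e : (1 : ℂ) - c * Complex.I = ((1 : ℝ) : ℂ) + ((-c : ℝ) : ℂ) * Complex.I := by
    push_cast; ring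
  rw [e, Complex.norm_add_mul_I]
  congr 1
  ring

theorem one_le_A (c : ℝ) : 1 ≤ √(1 + c ^ 2) := by
  rw [Real.one_le_sqrt]
  nlinarith [sq_nonneg c]

theorem norm_pv_A (c s1 s : ℝ) : ‖pv c s1 s‖ ≤ √(1 + c ^ 2) := by
  unfold pv
  split_ifs
  · rw [norm_pv0]
  · rw [norm_one]; exact one_le_A c

theorem norm_pv_out {c s1 s : ℝ} (h : s1 ≤ |s|) : ‖pv c s1 s‖ = 1 := by
  unfold pv
  rw [if_neg (not_lt.2 h), norm_one]

theorem pc_neg {c s1 s : ℝ} (hc : 0 < c) (hs : 0 < s1) (h0 : 0 ≤ s) :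
    pc c s1 (-s) = -pc c s1 s := by
  rcases le_total s s1 with h | h
  · rw [pc_mid hc (by linarith) h, pc_mid hc (by linarith) (by linarith)]
    ring
  · rw [pc_right hc hs h, pc_left hc hs (by linarith)]

theorem pc_pos {c s1 s : ℝ} (hc : 0 < c) (hs : 0 < s1) (h0 : 0 ≤ s) :
    0 ≤ pc c s1 s ∧ pc c s1 s ≤ c * s ∧ pc c s1 s ≤ c * s1 := by
  rcases le_total s s1 with h | h
  · rw [pc_mid hc (by linarith) h]
    exact ⟨by positivity, le_rfl, mul_le_mul_of_nonneg_left h hc.le⟩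
  · rw [pc_right hc hs h]
    exact ⟨by positivity, mul_le_mul_of_nonneg_left h hc.le, le_rfl⟩

theorem pc_ge {c s1 s v u : ℝ} (hc : 0 < c) (hs : 0 < s1) (h0 : 0 ≤ s) (hu : u ≤ s)
    (h1 : v ≤ c * u) (h2 : v ≤ c * s1) : v ≤ pc c s1 s := by
  rcases le_total s s1 with h | h
  · rw [pc_mid hc (by linarith) h]
    exact h1.trans (mul_le_mul_of_nonneg_left hu hc.le)
  · rw [pc_right hc hs h]
    exact h2

/-! ### left side -/

/-- the integrand, left side -/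
noncomputable def fL (c s1 x y z d j s : ℝ) : ℝ :=
  ‖pv c s1 s‖ * (exp (j * pc c s1 s) * exp (-(d * HL x y z (pc c s1 s) s)))

theorem exp_mid {j a d H X : ℝ} (hj0 : 0 ≤ j) (hj1 : j ≤ 1) (ha1 : a ≤ 1) (hd : 0 < d)
    (hH : X ≤ H) : exp (j * a) * exp (-(d * H)) ≤ exp 1 * exp (-(d * X)) := by
  refine mul_le_mul (exp_le_exp.2 ?_) (exp_le_exp.2 ?_) (exp_pos _).le (exp_pos _).le
  · rcases le_total a 0 with h | h
    · nlinarith
    · nlinarith
  · have := mul_le_mul_of_nonneg_left hH hd.le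
    linarith

theorem coreL {x y ρ η ψ W D : ℝ} (G : GeL x y ρ η ψ W D) {d b c s1 z j : ℝ}
    (hd : 0 < d) (hb : 0 < b) (hc : 0 < c) (hs1 : c * s1 = y + b) (hs1a : 1 ≤ s1)
    (hs1b : s1 ≤ 19 / 4) (ha1 : y + b ≤ 1) (hc1 : c ≤ 2763 / 10000) (hxc : x * c ≤ 1)
    (hcy : c ≤ y) (hcπ : y ≤ c * π) (hyc : y ≤ 11 / 4 * (x * c)) (hz : 0 ≤ z) (hz1 : z ≤ π)
    (hj0 : 0 ≤ j) (hj1 : j ≤ 1) {q k0 m M kW X3 X4 : ℝ}
    (hM : 0 ≤ M) (hMM : (1 + c ^ 2) * D ≤
      M ^ 2 * (2 * (11 / 24 * (1 - c) * x + (1 - 351 / 625 * (x * c)) * c)))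
    (hq : 0 < q) (hk0 : 2 ≤ k0) (hk : k0 ≤ x * d) (hm : 0 ≤ m) (hDq : D ≤ q * x)
    (hmid : (27 : ℝ) ^ 2 * (q * k0) * exp (-(2 * (7 / 20) * k0)) ≤ m ^ 2 * (2 * π))
    (hβ : 6 / 5 ≤ b * d) (hμ2 : 34 ≤ ρ * exp b * d)
    (hβμ : (b * d) ^ 2 ≤ 3 / 100 * (ρ * exp b * d) ^ 2)
    (hkW : 1001 / 1000 * √(12 / 11 * (D / W)) ≤ kW)
    (hX3 : (y + b) / 2 - d * (b * (2 * π - z - η) - ρ * (exp b - 1 - b) - (ρ - x * (1 + y))) +
      6 * (b * d) ^ 2 / (11 * (ρ * exp b * d)) ≤ X3)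
    (h1d : 1 ≤ ((y + b) + y) * d) (hμ2' : 9 ≤ W * exp (-(y + b)) * d)
    (hX4 : (y + b) / 2 - d * (((y + b) + y) * (19 / 4) + x * (1 - (y + b)) - exp (-(y + b)) * W) -
      3 / 2 ≤ X4)
    (hf : Integrable (fL c s1 x y z d j)) :
    ∫ s, fL c s1 x y z d j s ≤ (M * exp (6 / 11 * (c / (x * d)) - (y - c) * z * d) + m +
      kW * exp X3 + 5 / 4 * kW * exp X4) * sg d D := by
  have hx := G.x0
  have hy := G.y0
  have hp := Real.pi_gt_d4
  have hp2 := Real.pi_lt_d4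
  have hs0 : 0 < s1 := by linarith
  have hA := one_le_A c
  have hA0 : 0 ≤ √(1 + c ^ 2) := by linarith
  have hA2 : √(1 + c ^ 2) ^ 2 = 1 + c ^ 2 := Real.sq_sqrt (by positivity)
  have hden : 0 < 2 * (11 / 24 * (1 - c) * x + (1 - 351 / 625 * (x * c)) * c) := by
    have h1 : 0 < 11 / 24 * (1 - c) * x := by
      have : 0 < 1 - c := by linarith
      positivity
    have h2 : 0 < (1 - 351 / 625 * (x * c)) * c := mul_pos (by linarith) hc
    linarith
  have hμe : ρ * exp b * d = W * exp (y + b) * d := by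
    rw [G.rho, exp_add]; ring
  have hA27 : 19 / 2 * (√(1 + c ^ 2) * (exp 1 * exp (-(d * (7 / 20 * x))))) ≤
      27 * exp (-(7 / 20 * (x * d))) := by
    have h1 : √(1 + c ^ 2) ≤ 104 / 100 := by
      rw [Real.sqrt_le_left (by norm_num)]
      have : c ^ 2 ≤ (2763 / 10000) ^ 2 := pow_le_pow_left₀ hc.le hc1 2
      linarith
    have h2 : exp 1 ≤ 27183 / 10000 := by linarith [Real.exp_one_lt_d9]
    have h3 : √(1 + c ^ 2) * exp 1 ≤ 104 / 100 * (27183 / 10000) :=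
      mul_le_mul h1 h2 (exp_pos _).le (by norm_num)
    rw [show d * (7 / 20 * x) = 7 / 20 * (x * d) by ring]
    have h4 := mul_le_mul_of_nonneg_right h3 (exp_pos (-(7 / 20 * (x * d)))).le
    have h5 := (exp_pos (-(7 / 20 * (x * d)))).le
    nlinarith
  refine core_sum hf (A := √(1 + c ^ 2)) (κ := y + b) (ν := 7 / 20) (k := x * d) (k0 := k0)
    (q := q) (E := 27) (mid := √(1 + c ^ 2) * (exp 1 * exp (-(d * (7 / 20 * x)))))
    (β := b * d) (μ := ρ * exp b * d) (μ' := W * exp (-(y + b)) * d)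
    (e3 := j * (y + b) - d * (b * (2 * π - z - η) - ρ * (exp b - 1 - b) - (ρ - x * (1 + y))))
    (e4 := -(d * (((y + b) + y) * (19 / 4) + x * (1 - (y + b)) - exp (-(y + b)) * W)) - 3 / 2)
    (σ := 2 * π - ψ) (σ' := 2 * π + ψ)
    (den := 2 * (11 / 24 * (1 - c) * x + (1 - 351 / 625 * (x * c)) * c))
    hd G.D0 G.W0 hden hA0 hM (by rw [hA2]; exact hMM) (by positivity) hA27 hq (by linarith) hk
    ?_ hm ?_ hmid hβ hμe hμ2 hβμ hkW ?_ rfl hμ2' ?_ ?_ ?_ ?_ ?_ ?_ ?_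
  · rw [div_le_iff₀ (by linarith)]; linarith
  · have := mul_le_mul_of_nonneg_left hDq hd.le
    linarith
  · have : j * (y + b) ≤ 1 * (y + b) := mul_le_mul_of_nonneg_right hj1 (by linarith)
    linarith
  · linarith
  · linarith [G.p0]
  · linarith [G.p1]
  · -- core
    intro s hs
    obtain ⟨k1, k2⟩ := abs_le.1 hs
    have hpc : pc c s1 s = c * s := pc_mid hc (by linarith) (by linarith)
    have hm := mainL (x := x) (y := y) (z := z) (c := c) (d := d) (s := s) (j := j) hx hc hd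
      (by linarith) hy hyc hz hj0 hj1 hs
    unfold fL
    rw [hpc, ← exp_add, mul_assoc, ← exp_add]
    refine mul_le_mul (norm_pv_A c s1 s) (exp_le_exp.2 ?_) (exp_pos _).le hA0
    linarith
  · -- middle
    intro s hs1' hs2
    unfold fL
    refine mul_le_mul (norm_pv_A c s1 s) ?_ (by positivity) hA0
    rcases le_total 0 s with h0 | h0
    · rw [abs_of_nonneg h0] at hs1' hs2
      obtain ⟨q1, q2, q3⟩ := pc_pos (s := s) hc hs0 h0
      have q4 : pc c s1 s ≤ 1 := by linarith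
      refine exp_mid hj0 hj1 q4 hd ?_
      exact crudeL1 hx hc hy G.yx hcy hz hz1 q1 q4 q2
        (fun hπ => pc_ge hc hs0 h0 hπ hcπ (by linarith)) hs1' hs2
    · obtain ⟨t, ht⟩ : ∃ t, s = -t := ⟨-s, by ring⟩
      subst ht
      have t0 : 0 ≤ t := by linarith
      rw [abs_neg, abs_of_nonneg t0] at hs1' hs2
      obtain ⟨q1, q2, q3⟩ := pc_pos (s := t) hc hs0 t0
      rw [pc_neg hc hs0 t0]
      refine exp_mid hj0 hj1 (by linarith) hd ?_
      exact crudeL2 hx hc1 hxc hy hz q1 (by linarith) q2 hs1' hs2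
  · -- right tail
    intro s hs
    have hpc : pc c s1 s = y + b := by rw [pc_right hc hs0 (by linarith), hs1]
    have hpv : ‖pv c s1 s‖ = 1 := norm_pv_out (by rw [abs_of_nonneg (by linarith)]; linarith)
    unfold fL gQ
    rw [hpc, hpv, one_mul, ← exp_add, ← exp_add, tailL G]
    apply le_of_eq
    congr 1
    ring
  · -- left tail
    intro s hs
    have hpc : pc c s1 (-s) = -(y + b) := by
      rw [pc_left hc hs0 (by linarith), hs1]
    have hpv : ‖pv c s1 (-s)‖ = 1 := norm_pv_out (by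
      rw [abs_neg, abs_of_nonneg (by linarith)]; linarith)
    unfold fL gQ
    rw [hpc, hpv, one_mul, ← exp_add, ← exp_add]
    apply exp_le_exp.2
    have := tailL' G (z := z) (a := y + b) (d := d) (t := s) hz (by linarith) hd h1d hs
    have h5 : 0 ≤ j * (y + b) := mul_nonneg hj0 (by linarith)
    linarith

/-! ### right side -/

/-- the integrand, right side (reflected) -/
noncomputable def fR (c s1 x n z d j t : ℝ) : ℝ :=
  ‖pv c s1 t‖ * (exp (-(j * pc c s1 t)) * exp (-(d * HR x n z (pc c s1 t) t)))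

theorem coreR {x n ρ η ψ W D : ℝ} (G : GeR x n ρ η ψ W D) {d b c s1 z j : ℝ}
    (hd : 0 < d) (hb : 0 < b) (hc : 0 < c) (hs1 : c * s1 = n + b) (hs1a : 1 ≤ s1)
    (hs1b : s1 ≤ 19 / 4) (ha1 : n + b ≤ 1) (hc1 : c ≤ 2013 / 10000)
    (hcn : c ≤ n) (hcπ : n ≤ c * π) (hnx : n ≤ 101 / 1000 * x) (hx4 : 4 ≤ x)
    (hz : 0 ≤ z) (hz1 : z ≤ π)
    (hcr : 17 / 100 * x ≤ 859 / 1000 * x * (1 - (n + b)) - 141 / 2000 * x * (n + b) ^ 2 +
      (n + b - n) * (π - z))
    (hj0 : 0 ≤ j) (hj1 : j ≤ 1) {q k0 m M kW X3 X4 : ℝ}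
    (hden : 0 < 2 * (11 / 24 * (1 - c) * x - n * c - n / 6 +
      (1 - x * c * (1 / 2 + 11 / 50 * c)) * c))
    (hM : 0 ≤ M) (hMM : (1 + c ^ 2) * D ≤
      M ^ 2 * (2 * (11 / 24 * (1 - c) * x - n * c - n / 6 +
        (1 - x * c * (1 / 2 + 11 / 50 * c)) * c)))
    (hq : 0 < q) (hk0 : 4 ≤ k0) (hk : k0 ≤ x * d) (hm : 0 ≤ m) (hDq : D ≤ q * x)
    (hmid : (27 : ℝ) ^ 2 * (q * k0) * exp (-(2 * (17 / 100) * k0)) ≤ m ^ 2 * (2 * π))
    (hβ : 6 / 5 ≤ b * d) (hμ2 : 34 ≤ ρ * exp (-b) * d)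
    (hβμ : (b * d) ^ 2 ≤ 3 / 100 * (ρ * exp (-b) * d) ^ 2)
    (hkW : 1001 / 1000 * √(12 / 11 * (D / W)) ≤ kW)
    (hX3 : (n + b) / 2 - d * (b * (2 * π - z - η) - ρ * (exp (-b) - 1 + b) -
      (ρ - x * (1 - n))) + 6 * (b * d) ^ 2 / (11 * (ρ * exp (-b) * d)) ≤ X3)
    (h1d : 1 ≤ ((n + b) + n) * d) (hμ2' : 9 ≤ W * exp (n + b) * d)
    (hX4 : (n + b) / 2 - d * (((n + b) + n) * (19 / 4) + x * (1 + (n + b)) - exp (n + b) * W) -
      3 / 2 ≤ X4)
    (hf : Integrable (fR c s1 x n z d j)) :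
    ∫ s, fR c s1 x n z d j s ≤ (M * exp (6 / 11 * (c / (x * d)) - (n - c) * z * d) + m +
      kW * exp X3 + 5 / 4 * kW * exp X4) * sg d D := by
  have hx := G.x0
  have hn := G.n0
  have hp := Real.pi_gt_d4
  have hp2 := Real.pi_lt_d4
  have hs0 : 0 < s1 := by linarith
  have hA := one_le_A c
  have hA0 : 0 ≤ √(1 + c ^ 2) := by linarith
  have hA2 : √(1 + c ^ 2) ^ 2 = 1 + c ^ 2 := Real.sq_sqrt (by positivity)
  have hμe : ρ * exp (-b) * d = W * exp (-(n + b)) * d := by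
    rw [G.rho, show -(n + b) = -n + -b by ring, exp_add]
    have : exp (-n) * exp n = 1 := by rw [← exp_add]; simp
    linear_combination (-(ρ * exp (-b) * d)) * this
  have hA27 : 19 / 2 * (√(1 + c ^ 2) * (exp 1 * exp (-(d * (17 / 100 * x))))) ≤
      27 * exp (-(17 / 100 * (x * d))) := by
    have h1 : √(1 + c ^ 2) ≤ 104 / 100 := by
      rw [Real.sqrt_le_left (by norm_num)]
      have : c ^ 2 ≤ (2013 / 10000) ^ 2 := pow_le_pow_left₀ hc.le hc1 2
      linarith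
    have h2 : exp 1 ≤ 27183 / 10000 := by linarith [Real.exp_one_lt_d9]
    have h3 : √(1 + c ^ 2) * exp 1 ≤ 104 / 100 * (27183 / 10000) :=
      mul_le_mul h1 h2 (exp_pos _).le (by norm_num)
    rw [show d * (17 / 100 * x) = 17 / 100 * (x * d) by ring]
    have h4 := mul_le_mul_of_nonneg_right h3 (exp_pos (-(17 / 100 * (x * d)))).le
    have h5 := (exp_pos (-(17 / 100 * (x * d)))).le
    nlinarith
  refine core_sum hf (A := √(1 + c ^ 2)) (κ := -(n + b)) (ν := 17 / 100) (k := x * d) (k0 := k0)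
    (q := q) (E := 27) (mid := √(1 + c ^ 2) * (exp 1 * exp (-(d * (17 / 100 * x)))))
    (β := b * d) (μ := ρ * exp (-b) * d) (μ' := W * exp (n + b) * d)
    (e3 := -(j * (n + b)) - d * (b * (2 * π - z - η) - ρ * (exp (-b) - 1 + b) -
      (ρ - x * (1 - n))))
    (e4 := (n + b) - (d * (((n + b) + n) * (19 / 4) + x * (1 + (n + b)) - exp (n + b) * W)) -
      3 / 2)
    (σ := 2 * π - ψ) (σ' := 2 * π + ψ)
    (den := 2 * (11 / 24 * (1 - c) * x - n * c - n / 6 +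
      (1 - x * c * (1 / 2 + 11 / 50 * c)) * c))
    hd G.D0 G.W0 hden hA0 hM (by rw [hA2]; exact hMM) (by positivity) hA27 hq (by linarith) hk
    ?_ hm ?_ hmid hβ hμe hμ2 hβμ hkW ?_ (by rw [neg_neg]) hμ2' ?_ ?_ ?_ ?_ ?_ ?_ ?_
  · rw [div_le_iff₀ (by linarith)]; linarith
  · have := mul_le_mul_of_nonneg_left hDq hd.le
    linarith
  · have : 0 ≤ j * (n + b) := mul_nonneg hj0 (by linarith)
    linarith
  · linarith
  · linarith [G.p0]
  · linarith [G.p1]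
  · -- core
    intro s hs
    obtain ⟨k1, k2⟩ := abs_le.1 hs
    have hpc : pc c s1 s = c * s := pc_mid hc (by linarith) (by linarith)
    have hm := mainR (x := x) (n := n) (z := z) (c := c) (d := d) (t := s) (j := j) hx hc hd
      (by linarith) hn hz hj0 hj1 hs
    unfold fR
    rw [hpc, ← exp_add, mul_assoc, ← exp_add]
    refine mul_le_mul (norm_pv_A c s1 s) (exp_le_exp.2 ?_) (exp_pos _).le hA0
    linarith
  · -- middle
    intro s hs1' hs2
    unfold fR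
    refine mul_le_mul (norm_pv_A c s1 s) ?_ (by positivity) hA0
    rw [show -(j * pc c s1 s) = j * (-pc c s1 s) by ring]
    rcases le_total 0 s with h0 | h0
    · rw [abs_of_nonneg h0] at hs1' hs2
      obtain ⟨q1, q2, q3⟩ := pc_pos (s := s) hc hs0 h0
      refine exp_mid hj0 hj1 (by linarith) hd ?_
      exact crudeR1 hx hc hc1 hn hnx hcn hz hz1 q1 (by linarith) ha1 q2
        (fun hπ => pc_ge hc hs0 h0 hπ hcπ (by linarith)) hx4 hcr hs1' hs2
    · obtain ⟨t, ht⟩ : ∃ t, s = -t := ⟨-s, by ring⟩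
      subst ht
      have t0 : 0 ≤ t := by linarith
      rw [abs_neg, abs_of_nonneg t0] at hs1' hs2
      obtain ⟨q1, q2, q3⟩ := pc_pos (s := t) hc hs0 t0
      rw [pc_neg hc hs0 t0, neg_neg]
      refine exp_mid hj0 hj1 (by linarith) hd ?_
      exact crudeR2 hx hn G.n1 hz q1 (by linarith) hs1' hs2
  · -- right tail
    intro s hs
    have hpc : pc c s1 s = n + b := by rw [pc_right hc hs0 (by linarith), hs1]
    have hpv : ‖pv c s1 s‖ = 1 := norm_pv_out (by rw [abs_of_nonneg (by linarith)]; linarith)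
    unfold fR gQ
    rw [hpc, hpv, one_mul, ← exp_add, ← exp_add, tailR G]
    apply le_of_eq
    congr 1
    ring
  · -- left tail
    intro s hs
    have hpc : pc c s1 (-s) = -(n + b) := by
      rw [pc_left hc hs0 (by linarith), hs1]
    have hpv : ‖pv c s1 (-s)‖ = 1 := norm_pv_out (by
      rw [abs_neg, abs_of_nonneg (by linarith)]; linarith)
    unfold fR gQ
    rw [hpc, hpv, one_mul, ← exp_add, ← exp_add]
    apply exp_le_exp.2
    have := tailR' G (z := z) (a := n + b) (d := d) (t := s) hz (by linarith) hd h1d hs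
    have h5 : j * (n + b) ≤ 1 * (n + b) := mul_le_mul_of_nonneg_right hj1 (by linarith)
    linarith

end SokalP2O
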