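import Pool.Agent.Lib_MP_af4de1_v3.P2OutQ
import Pool.Agent.Lib_MP_af4de1_v3.P2Sad

/-!
# `P2.outL`, `P2.outR`: geometric facts

`GeL` (left): `W = ρ e^(-y)`, `K = x + i y = W e^(i ψ)`, `η = ψ + ρ - x`, `D = |1 - iK|`.
`GeR` (right, reflected, `n = -y`): `W = ρ e^n`, `η = ψ + x - ρ`.
-/

set_option autoImplicit false

namespace SokalP2O

open Real Set SokalF1G

structure GeL (x y ρ η ψ W D : ℝ) : Prop where
  x0 : 0 < x
  y0 : 0 ≤ y
  y1 : y ≤ 61 / 100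
  yx : y ≤ 2 / 5 * x
  W0 : 0 < W
  D0 : 0 < D
  W2 : W ^ 2 = x ^ 2 + y ^ 2
  D2 : D ^ 2 = (1 + y) ^ 2 + x ^ 2
  rho : ρ = W * exp y
  cs : x = W * cos ψ
  sn : y = W * sin ψ
  p0 : 0 ≤ ψ
  p1 : ψ < π / 2
  eta : η = ψ + ρ - x

structure GeR (x n ρ η ψ W D : ℝ) : Prop where
  x0 : 0 < x
  n0 : 0 ≤ n
  n1 : n ≤ 1 / 2
  nx : n ≤ 2 / 5 * x
  W0 : 0 < W
  D0 : 0 < D
  W2 : W ^ 2 = x ^ 2 + n ^ 2
  D2 : D ^ 2 = (1 - n) ^ 2 + x ^ 2
  rho : W = ρ * exp n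
  cs : x = W * cos ψ
  sn : n = W * sin ψ
  p0 : 0 ≤ ψ
  p1 : ψ < π / 2
  eta : η = ψ + x - ρ

/-! ### the angle -/

theorem ang_le {x y W ψ : ℝ} (hx : 0 < x) (hW : 0 < W) (h1 : x = W * cos ψ) (h2 : y = W * sin ψ)
    (h3 : 0 ≤ ψ) (h4 : ψ < π / 2) : ψ ≤ y / x := by
  have h5 := Real.le_tan h3 h4
  have h6 : tan ψ = y / x := by
    rw [tan_eq_sin_div_cos]
    have hc : cos ψ ≠ 0 := by
      intro h
      rw [h, mul_zero] at h1
      exact hx.ne' h1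
    rw [h1, h2]
    field_simp
  rwa [h6] at h5

theorem arctan_ge {t : ℝ} (ht : 0 ≤ t) : t - t ^ 3 / 3 ≤ arctan t := by
  have h := nonneg_of_deriv (f := fun t => arctan t - (t - t ^ 3 / 3))
    (f' := fun t => 1 / (1 + t ^ 2) - (1 - t ^ 2)) (fun y => by
      have h1 := (hasDerivAt_arctan y).sub ((hasDerivAt_id y).sub ((hasDerivAt_pow 3 y).div_const 3))
      refine h1.congr_deriv ?_
      push_cast
      ring) (by simp) (fun y _ => by
        have : 0 < 1 + y ^ 2 := by positivity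
        rw [sub_nonneg, le_div_iff₀ this]
        nlinarith [sq_nonneg (y ^ 2)]) ht
  simpa using h

theorem ang_ge {x y W ψ : ℝ} (hx : 0 < x) (hy : 0 ≤ y) (h1 : x = W * cos ψ) (h2 : y = W * sin ψ)
    (h3 : 0 ≤ ψ) (h4 : ψ < π / 2) : y / x - (y / x) ^ 3 / 3 ≤ ψ := by
  have h6 : tan ψ = y / x := by
    rw [tan_eq_sin_div_cos]
    have hc : cos ψ ≠ 0 := by
      intro h
      rw [h, mul_zero] at h1
      exact hx.ne' h1
    have hW : W ≠ 0 := by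
      intro h
      rw [h, zero_mul] at h1
      exact hx.ne' h1
    rw [h1, h2]
    field_simp
  have h7 : arctan (tan ψ) = ψ := arctan_tan (by linarith [Real.pi_pos]) h4
  have h8 := arctan_ge (t := y / x) (by positivity)
  rwa [← h6, h7, h6] at h8

/-- `W ≤ x + y²/(2x)` -/
theorem W_le {x y W : ℝ} (hx : 0 < x) (hW2 : W ^ 2 = x ^ 2 + y ^ 2) :
    W ≤ x + y ^ 2 / (2 * x) := by
  have h0 : 0 ≤ x + y ^ 2 / (2 * x) := by positivity
  refine abs_le_of_sq_le_sq' ?_ h0 |>.2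
  have e : (x + y ^ 2 / (2 * x)) ^ 2 = x ^ 2 + y ^ 2 + (y ^ 2 / (2 * x)) ^ 2 := by
    field_simp
    ring
  rw [e, hW2]
  nlinarith [sq_nonneg (y ^ 2 / (2 * x))]

theorem W_ge {x y W : ℝ} (hW0 : 0 < W) (hW2 : W ^ 2 = x ^ 2 + y ^ 2) : x ≤ W := by
  refine abs_le_of_sq_le_sq' ?_ hW0.le |>.2
  rw [hW2]
  nlinarith [sq_nonneg y]

/-! ### exponentials -/

theorem ex1 {y : ℝ} (h0 : 0 ≤ y) (h1 : y ≤ 1) : exp y * (1 - y / 2) ≤ 1 + y / 2 := by
  have h := en_ge3 h0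
  have h2 : exp y * exp (-y) = 1 := by rw [← exp_add]; simp
  have h3 : 1 - y / 2 ≤ (1 + y / 2) * exp (-y) := by
    have := mul_le_mul_of_nonneg_left h (by linarith : 0 ≤ 1 + y / 2)
    have h4 : 0 ≤ y ^ 3 * (1 - y) := mul_nonneg (by positivity) (by linarith)
    nlinarith
  calc exp y * (1 - y / 2) ≤ exp y * ((1 + y / 2) * exp (-y)) :=
        mul_le_mul_of_nonneg_left h3 (exp_pos _).le
    _ = (1 + y / 2) * (exp y * exp (-y)) := by ring
    _ = 1 + y / 2 := by rw [h2, mul_one]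

theorem ex2 {y : ℝ} (h0 : 0 ≤ y) (h1 : y ≤ 7 / 10) :
    1 + y / 2 - exp y * (1 - y / 2) ≤ y ^ 3 / 7 := by
  have h := e_ge3 h0
  have h2 := mul_le_mul_of_nonneg_right h (by linarith : 0 ≤ 1 - y / 2)
  have h3 : 0 ≤ y ^ 3 * (7 / 10 - y) := mul_nonneg (by positivity) (by linarith)
  nlinarith

theorem ex3 {n : ℝ} (h0 : 0 ≤ n) (h1 : n ≤ 1) : (1 - exp (-n)) * (1 + n / 2) ≤ n := by
  have h := en_ge3 h0
  have h2 := mul_le_mul_of_nonneg_right h (by linarith : 0 ≤ 1 + n / 2)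
  have h3 : 0 ≤ n ^ 3 * (1 - n) := mul_nonneg (by positivity) (by linarith)
  nlinarith

theorem ex4 {n : ℝ} (h0 : 0 ≤ n) : 2 * n ≤ exp n - exp (-n) := by
  have h := (self_le_sinh_iff (x := n)).2 h0
  rw [sinh_eq] at h
  linarith

/-! ### left side -/

namespace GeL

variable {x y ρ η ψ W D : ℝ}

theorem r0 (G : GeL x y ρ η ψ W D) : 0 < ρ := by
  rw [G.rho]
  exact mul_pos G.W0 (exp_pos _)

theorem psi_le (G : GeL x y ρ η ψ W D) : ψ ≤ y / x := ang_le G.x0 G.W0 G.cs G.sn G.p0 G.p1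

theorem psi_ge (G : GeL x y ρ η ψ W D) : y / x - (y / x) ^ 3 / 3 ≤ ψ :=
  ang_ge G.x0 G.y0 G.cs G.sn G.p0 G.p1

theorem Y0 (G : GeL x y ρ η ψ W D) : 0 ≤ y / x := div_nonneg G.y0 G.x0.le

theorem Y1 (G : GeL x y ρ η ψ W D) : y / x ≤ 2 / 5 := by
  rw [div_le_iff₀ G.x0]
  exact G.yx

theorem Wx (G : GeL x y ρ η ψ W D) : W ≤ x + y * (y / x) / 2 := by
  refine (W_le G.x0 G.W2).trans (le_of_eq ?_)
  field_simp

theorem xW (G : GeL x y ρ η ψ W D) : x ≤ W := W_ge G.W0 G.W2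

/-- `W y ≤ η` -/
theorem Wy (G : GeL x y ρ η ψ W D) : W * y ≤ η := by
  have h1 := add_one_le_exp y
  have h2 := mul_le_mul_of_nonneg_left h1 G.W0.le
  have h3 := G.eta
  have h4 := G.xW
  have h5 := G.p0
  rw [G.rho] at h3
  linarith

/-- F1 -/
theorem F1 (G : GeL x y ρ η ψ W D) (hη : η ≤ 5 / 2) : y * (ρ - η / 2) ≤ η := by
  have h1 := ex2 G.y0 (by linarith [G.y1])
  have h2 := mul_le_mul_of_nonneg_left h1 G.W0.le
  have h3 := G.Wy
  have h4 : y / W ≤ ψ := by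
    rw [div_le_iff₀ G.W0]
    have := mul_le_mul_of_nonneg_left (sin_le G.p0) G.W0.le
    rw [← G.sn] at this
    linarith
  have h5 : (W * y) ^ 2 ≤ 7 := by
    have := pow_le_pow_left₀ (mul_nonneg G.W0.le G.y0) (h3.trans hη) 2
    refine this.trans (by norm_num)
  have h6 : W * (y ^ 3 / 7) ≤ y / W := by
    rw [le_div_iff₀ G.W0]
    have := mul_le_mul_of_nonneg_left h5 G.y0
    nlinarith
  have h7 := G.xW
  have h8 := mul_nonneg G.p0 G.y0
  have h9 := mul_nonneg (sub_nonneg.2 h7) G.y0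
  have h10 : η = ψ + W * exp y - x := by rw [← G.rho]; exact G.eta
  have h11 : η * (1 + y / 2) = ψ + ψ * y / 2 + (W - x) + (W - x) * y / 2 + y * (W * exp y) -
      W * (1 + y / 2 - exp y * (1 - y / 2)) := by
    rw [h10]; ring
  have h12 : y * (ρ - η / 2) - η = y * (W * exp y) - η * (1 + y / 2) := by rw [G.rho]; ring
  linarith

/-- F2 -/
theorem F2 (G : GeL x y ρ η ψ W D) :
    ρ - x * (1 + y) ≤ y * η / 2 + y * (y / x) / 2 * (y / 2 + (y / x) ^ 2 / 3) := by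
  have h1 := mul_le_mul_of_nonneg_left (ex1 G.y0 (by linarith [G.y1])) G.W0.le
  have h2 := mul_le_mul_of_nonneg_right G.Wx (by linarith [G.y0] : 0 ≤ 1 + y / 2)
  have h3 := mul_le_mul_of_nonneg_left G.psi_ge (by linarith [G.y0] : 0 ≤ y / 2)
  have h10 : η = ψ + W * exp y - x := by rw [← G.rho]; exact G.eta
  rw [G.rho, h10]
  nlinarith

/-- F3 -/
theorem F3 (G : GeL x y ρ η ψ W D) : η ≤ y * (x + η / 2 + 11 / 10 * (1 / x)) := by
  have h1 := mul_le_mul_of_nonneg_left (ex1 G.y0 (by linarith [G.y1])) G.W0.le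
  have h2 := mul_le_mul_of_nonneg_right G.Wx (by linarith [G.y0] : 0 ≤ 1 + y / 2)
  have h3 := mul_le_mul_of_nonneg_right G.psi_le (by linarith [G.y1] : 0 ≤ 1 - y / 2)
  have h10 : η = ψ + W * exp y - x := by rw [← G.rho]; exact G.eta
  have h4 : y ^ 2 ≤ 2 / 5 := by nlinarith [G.y0, G.y1]
  have h5 : y * (1 / x) = y / x := by ring
  have h6 := mul_nonneg G.Y0 (by linarith : 0 ≤ 2 / 5 - y ^ 2)
  have h7 : η * (1 - y / 2) = ψ * (1 - y / 2) + W * (exp y * (1 - y / 2)) - x * (1 - y / 2) := by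
    rw [h10]; ring
  have h8 : y * (x + η / 2 + 11 / 10 * (1 / x)) = y * x + y * η / 2 + 11 / 10 * (y / x) := by
    rw [← h5]; ring
  rw [h8]
  nlinarith

end GeL

/-! ### right side -/

namespace GeR

variable {x n ρ η ψ W D : ℝ}

theorem r0 (G : GeR x n ρ η ψ W D) : 0 < ρ := by
  have h := G.W0
  rw [G.rho] at h
  exact (pos_iff_pos_of_mul_pos h).2 (exp_pos _)

theorem psi_le (G : GeR x n ρ η ψ W D) : ψ ≤ n / x := ang_le G.x0 G.W0 G.cs G.sn G.p0 G.p1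

theorem psi_ge (G : GeR x n ρ η ψ W D) : n / x - (n / x) ^ 3 / 3 ≤ ψ :=
  ang_ge G.x0 G.n0 G.cs G.sn G.p0 G.p1

theorem Y0 (G : GeR x n ρ η ψ W D) : 0 ≤ n / x := div_nonneg G.n0 G.x0.le

theorem Y1 (G : GeR x n ρ η ψ W D) : n / x ≤ 2 / 5 := by
  rw [div_le_iff₀ G.x0]
  exact G.nx

theorem psi_half (G : GeR x n ρ η ψ W D) : n / x / 2 ≤ ψ := by
  have h1 := G.psi_ge
  have h2 := G.Y0
  have h3 := G.Y1
  have h4 : (n / x) ^ 2 ≤ 1 := by nlinarith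
  have h5 := mul_le_mul_of_nonneg_left h4 h2
  nlinarith

theorem Wx (G : GeR x n ρ η ψ W D) : W ≤ x + n * (n / x) / 2 := by
  refine (W_le G.x0 G.W2).trans (le_of_eq ?_)
  field_simp

theorem xW (G : GeR x n ρ η ψ W D) : x ≤ W := W_ge G.W0 G.W2

/-- F5 -/
theorem F5 (G : GeR x n ρ η ψ W D) : n * ρ * (1 + n / 2) ≤ η := by
  have h1 := mul_le_mul_of_nonneg_left (e_ge3 G.n0) G.r0.le
  rw [← G.rho] at h1
  have h2 := G.Wx
  have h3 := G.psi_half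
  have h4 : n * (n / x) / 2 ≤ n / x / 2 := by nlinarith [G.Y0, G.n1]
  have h5 := G.eta
  have h6 : 0 ≤ ρ * n ^ 3 := mul_nonneg G.r0.le (pow_nonneg G.n0 3)
  nlinarith

/-- F4 -/
theorem F4 (G : GeR x n ρ η ψ W D) : ρ * (ρ - x * (1 - n)) ≤ η ^ 2 / 2 := by
  have hρ := G.r0
  have h1 := ex4 G.n0
  have h2 : exp n * exp (-n) = 1 := by rw [← exp_add]; simp
  have h3 : 2 * n * exp n ≤ exp n ^ 2 - 1 := by
    have := mul_le_mul_of_nonneg_right h1 (exp_pos n).le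
    nlinarith
  have h4 : ρ * (ρ - W * (1 - n)) ≤ (W - ρ) ^ 2 / 2 := by
    have := mul_le_mul_of_nonneg_left h3 (sq_nonneg ρ)
    rw [G.rho]
    nlinarith
  have h5 : W - x ≤ n * ψ := by
    have h6 := G.Wx
    have h7 := mul_le_mul_of_nonneg_left G.psi_half G.n0
    nlinarith
  have h6 : ρ * n ≤ W - ρ := by
    have := mul_le_mul_of_nonneg_left (add_one_le_exp n) hρ.le
    rw [← G.rho] at this
    linarith
  have h7 : 0 ≤ ψ - (W - x) := by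
    have := mul_nonneg G.p0 (by linarith [G.n1] : 0 ≤ 1 - n)
    nlinarith
  have h8 : ρ * n * (ψ - (W - x)) ≤ (W - ρ) * (ψ - (W - x)) := mul_le_mul_of_nonneg_right h6 h7
  have h9 : ρ * (W - x) ≤ ρ * (n * ψ) := mul_le_mul_of_nonneg_left h5 hρ.le
  have h10 : η = (W - ρ) + (ψ - (W - x)) := by rw [G.eta]; ring
  rw [h10]
  nlinarith [sq_nonneg (ψ - (W - x))]

/-- F6 -/
theorem F6 (G : GeR x n ρ η ψ W D) : η ≤ n * (x - η / 2 + 5 / 4 * (1 / x)) := by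
  have h1 := mul_le_mul_of_nonneg_left (ex3 G.n0 (by linarith [G.n1])) G.x0.le
  have h2 : exp n * exp (-n) = 1 := by rw [← exp_add]; simp
  have h3 : x * exp (-n) ≤ ρ := by
    have := mul_le_mul_of_nonneg_right G.xW (exp_pos (-n)).le
    rw [G.rho] at this
    have e : ρ * exp n * exp (-n) = ρ := by rw [mul_assoc, h2, mul_one]
    linarith
  have h4 := mul_le_mul_of_nonneg_right h3 (by linarith [G.n0] : 0 ≤ 1 + n / 2)
  have h5 := mul_le_mul_of_nonneg_right G.psi_le (by linarith [G.n0] : 0 ≤ 1 + n / 2)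
  have h6 := mul_nonneg G.Y0 (by linarith [G.n1] : 0 ≤ 1 / 2 - n)
  have h7 : n * (1 / x) = n / x := by ring
  have h8 : n * (x - η / 2 + 5 / 4 * (1 / x)) = n * x - n * η / 2 + 5 / 4 * (n / x) := by
    rw [← h7]; ring
  rw [h8]
  have h9 : η * (1 + n / 2) = ψ * (1 + n / 2) + x * (1 + n / 2) - ρ * (1 + n / 2) := by
    rw [G.eta]; ring
  nlinarith

end GeR

end SokalP2O
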