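import Pool.Agent.Lib_MP_af4de1_v3.P2OutF

/-!
# `P2.outL`: pointwise bounds for the height, left side
-/

set_option autoImplicit false

namespace SokalP2O

open Real Set SokalF1G

/-- the height on the fixed path, left side -/
noncomputable def HL (x y z a s : ℝ) : ℝ :=
  (a - y) * (s - z) + x * (1 + a) - exp a * (x * cos s - y * sin s)

/-! ### trigonometric facts -/

theorem exp_le_lin {a : ℝ} (h0 : 0 ≤ a) (h1 : a ≤ 1) : exp a ≤ 1 + 43 / 25 * a := by
  have h := e_le3 h0 h1
  have h2 : a ^ 2 ≤ a := by nlinarith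
  have h3 : a ^ 3 ≤ a := by nlinarith [mul_nonneg h0 (by linarith : 0 ≤ 1 - a)]
  have h4 : a ^ 4 ≤ a := by nlinarith [mul_nonneg h0 (by linarith : 0 ≤ 1 - a)]
  linarith

theorem cos_le_one' {s : ℝ} (h1 : 1 ≤ s) (h2 : s ≤ π) : cos s ≤ 5417 / 10000 := by
  have h := cos_le_cos_of_nonneg_of_le_pi (by norm_num : (0 : ℝ) ≤ 1) h2 h1
  have h3 := cos_le4 (x := 1) (by norm_num)
  norm_num at h3
  linarith

theorem cos_le_T {s : ℝ} (h1 : π ≤ s) (h2 : s ≤ 19 / 4) : cos s ≤ 1 / 25 := by
  have hp := Real.pi_gt_d4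
  have e : cos s = -cos (s - π) := by rw [cos_sub_pi]; ring
  rcases le_total (s - π) (π / 2) with h | h
  · have := cos_nonneg_of_neg_pi_div_two_le_of_le (by linarith [Real.pi_pos] : -(π / 2) ≤ s - π) h
    linarith
  · have e2 : cos (s - π) = -sin (s - π - π / 2) := by rw [sin_sub_pi_div_two]; ring
    have h3 := sin_le (by linarith : 0 ≤ s - π - π / 2)
    rw [e, e2]
    linarith

/-- `cos s ≤ 5417/10000` on `[1, 19/4]` -/
theorem cos_le_all {s : ℝ} (h1 : 1 ≤ s) (h2 : s ≤ 19 / 4) : cos s ≤ 5417 / 10000 := by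
  rcases le_total s π with h | h
  · exact cos_le_one' h1 h
  · linarith [cos_le_T h h2]

/-! ### the core `|s| ≤ 1` -/

/-- the weight `e^(j c s)` is absorbed -/
theorem absorb {x c d s j : ℝ} (hx : 0 < x) (hc : 0 < c) (hd : 0 < d) (hj1 : j ≤ 1)
    (hs : 0 ≤ s) : j * (c * s) - d * (11 / 24 * (x * c) * s ^ 2) ≤ 6 / 11 * (c / (x * d)) := by
  have h1 : j * (c * s) ≤ 1 * (c * s) := mul_le_mul_of_nonneg_right hj1 (by positivity)
  have h2 : 0 ≤ 6 / 11 * (c / (x * d)) - (1 * (c * s) - d * (11 / 24 * (x * c) * s ^ 2)) := by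
    have e : 6 / 11 * (c / (x * d)) - (1 * (c * s) - d * (11 / 24 * (x * c) * s ^ 2)) =
        c * (x * d) * (11 / 24) * (s - 12 / 11 * (1 / (x * d))) ^ 2 := by
      field_simp
      ring
    rw [e]
    positivity
  linarith

theorem mainL {x y z c d s j : ℝ} (hx : 0 < x) (hc : 0 < c) (hd : 0 < d) (hc1 : c ≤ 7 / 25)
    (hy : 0 ≤ y) (hyc : y ≤ 11 / 4 * (x * c)) (hz : 0 ≤ z) (hj0 : 0 ≤ j) (hj1 : j ≤ 1)
    (hs : |s| ≤ 1) :
    j * (c * s) - d * HL x y z (c * s) s ≤ (6 / 11 * (c / (x * d)) - (y - c) * z * d) -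
      d * (11 / 24 * (1 - c) * x + (1 - 351 / 625 * (x * c)) * c) * s ^ 2 := by
  obtain ⟨hs1, hs2⟩ := abs_le.1 hs
  have hcos := cosA hs
  rcases le_total 0 s with h0 | h0
  · -- `s ≥ 0`
    have ha0 : 0 ≤ c * s := by positivity
    have ha1 : c * s ≤ c := by nlinarith
    have hab := absorb hx hc hd hj1 h0
    have e1 := e_le3 ha0 (by linarith)
    have e2 : exp (c * s) - 1 - c * s ≤ 351 / 625 * (c * s) ^ 2 := by
      have h3 : (c * s) ^ 3 ≤ 7 / 25 * (c * s) ^ 2 := by
        have := mul_le_mul_of_nonneg_right (ha1.trans hc1) (sq_nonneg (c * s))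
        nlinarith
      have h4 : (c * s) ^ 4 ≤ (7 / 25) ^ 2 * (c * s) ^ 2 := by
        have h5 : (c * s) ^ 2 ≤ (7 / 25) ^ 2 := pow_le_pow_left₀ ha0 (ha1.trans hc1) 2
        have := mul_le_mul_of_nonneg_right h5 (sq_nonneg (c * s))
        nlinarith
      linarith [sq_nonneg (c * s)]
    have e3 : 1 + c * s ≤ exp (c * s) := by linarith [add_one_le_exp (c * s)]
    have g1 : x * (exp (c * s) - 1 - c * s) ≤ x * (351 / 625 * (c * s) ^ 2) :=
      mul_le_mul_of_nonneg_left e2 hx.le
    have g2 : x * ((1 + c * s) * (11 / 24 * s ^ 2)) ≤ x * (exp (c * s) * (1 - cos s)) :=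
      mul_le_mul_of_nonneg_left (mul_le_mul e3 hcos (by positivity) (exp_pos _).le) hx.le
    have g3 : (y - c) * z ≤ (y - c * s) * z := mul_le_mul_of_nonneg_right (by linarith) hz
    have hsin := sin_ge3 h0
    have hsin0 : 0 ≤ s - s ^ 3 / 6 := by nlinarith
    have g4 : y * ((1 + c * s) * (s - s ^ 3 / 6)) ≤ y * (exp (c * s) * sin s) :=
      mul_le_mul_of_nonneg_left (mul_le_mul e3 hsin hsin0 (exp_pos _).le) hy
    have g5 : 0 ≤ 11 / 24 * (x * c) * s ^ 3 + y * (c * s ^ 2 - s ^ 3 / 6 - c * s ^ 4 / 6) := by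
      have k1 : 0 ≤ s ^ 3 * (11 / 4 * (x * c) - y) := mul_nonneg (by positivity) (by linarith)
      have k2 : 0 ≤ y * c * s ^ 2 * (1 - s ^ 2 / 6) :=
        mul_nonneg (by positivity) (by nlinarith)
      nlinarith
    have hH : HL x y z (c * s) s = c * s ^ 2 - x * (exp (c * s) - 1 - c * s) +
        x * (exp (c * s) * (1 - cos s)) + (y - c * s) * z + (y * (exp (c * s) * sin s) - y * s) := by
      unfold HL; ring
    have hlow : (y - c) * z + (11 / 24 * (1 - c) * x + (1 - 351 / 625 * (x * c)) * c) * s ^ 2 +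
        11 / 24 * (x * c) * s ^ 2 ≤ HL x y z (c * s) s := by
      rw [hH]
      nlinarith
    have := mul_le_mul_of_nonneg_left hlow hd.le
    linarith
  · -- `s ≤ 0`
    obtain ⟨t, ht⟩ : ∃ t, s = -t := ⟨-s, by ring⟩
    subst ht
    have t0 : 0 ≤ t := by linarith
    have t1 : t ≤ 1 := by linarith
    have ha0 : 0 ≤ c * t := by positivity
    have ha1 : c * t ≤ c := by nlinarith
    have ea : c * -t = -(c * t) := by ring
    rw [ea]
    have e2 := en_le2 ha0
    have e3 := en_ge1 (x := c * t)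
    have e4 : exp (-(c * t)) ≤ 1 := by
      rw [exp_le_one_iff]; linarith
    rw [cos_neg] at hcos
    have g1 : x * (exp (-(c * t)) - 1 + c * t) ≤ x * (351 / 625 * (c * t) ^ 2) := by
      refine mul_le_mul_of_nonneg_left ?_ hx.le
      nlinarith [sq_nonneg (c * t)]
    have hcos' : 11 / 24 * t ^ 2 ≤ 1 - cos t := by
      have : (-t) ^ 2 = t ^ 2 := by ring
      rwa [this] at hcos
    have g2 : x * ((1 - c) * (11 / 24 * t ^ 2)) ≤ x * (exp (-(c * t)) * (1 - cos t)) := by
      refine mul_le_mul_of_nonneg_left (mul_le_mul ?_ hcos' (by positivity) (exp_pos _).le) hx.le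
      linarith
    have g3 : (y - c) * z ≤ (y + c * t) * z := mul_le_mul_of_nonneg_right (by linarith) hz
    have g4 : 0 ≤ y * (t - exp (-(c * t)) * sin t) := by
      refine mul_nonneg hy ?_
      have h5 : 0 ≤ sin t := sin_nonneg_of_nonneg_of_le_pi t0 (by linarith [Real.pi_gt_d4])
      have h6 : exp (-(c * t)) * sin t ≤ 1 * sin t := mul_le_mul_of_nonneg_right e4 h5
      linarith [sin_le t0]
    have hH : HL x y z (-(c * t)) (-t) = c * t ^ 2 - x * (exp (-(c * t)) - 1 + c * t) +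
        x * (exp (-(c * t)) * (1 - cos t)) + (y + c * t) * z +
        y * (t - exp (-(c * t)) * sin t) := by
      unfold HL
      rw [cos_neg, sin_neg]
      ring
    have hlow : (y - c) * z + (11 / 24 * (1 - c) * x + (1 - 351 / 625 * (x * c)) * c) * t ^ 2 ≤
        HL x y z (-(c * t)) (-t) := by
      rw [hH]
      nlinarith
    have h7 := mul_le_mul_of_nonneg_left hlow hd.le
    have h8 : 0 ≤ 6 / 11 * (c / (x * d)) := by positivity
    have h9 : 0 ≤ j * (c * t) := by positivity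
    have e5 : (-t) ^ 2 = t ^ 2 := by ring
    rw [e5]
    linarith

/-! ### `1 ≤ |s| ≤ 19/4` -/

/-- right side -/
theorem crudeL1 {x y z c a s : ℝ} (hx : 0 < x) (hc : 0 < c) (hy : 0 ≤ y) (hyx : y ≤ 2 / 5 * x)
    (hcy : c ≤ y) (hz : 0 ≤ z) (hz1 : z ≤ π) (ha0 : 0 ≤ a) (ha1 : a ≤ 1) (hac : a ≤ c * s)
    (hay : π ≤ s → y ≤ a) (h1 : 1 ≤ s) (h2 : s ≤ 19 / 4) : 7 / 20 * x ≤ HL x y z a s := by
  have hp := Real.pi_gt_d4
  have hp2 := Real.pi_lt_d4
  have hexp := exp_le_lin ha0 ha1
  have hexp1 : 1 ≤ exp a := one_le_exp ha0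
  rcases le_total s π with h | h
  · have hsin : 0 ≤ sin s := sin_nonneg_of_nonneg_of_le_pi (by linarith) h
    have hcos := cos_le_one' h1 h
    have g1 : 0 ≤ a * (s - z) + y * z := by
      rcases le_total z s with h3 | h3
      · have := mul_nonneg ha0 (sub_nonneg.2 h3)
        have := mul_nonneg hy hz
        linarith
      · have h4 : a * (z - s) ≤ c * s * (z - s) := mul_le_mul_of_nonneg_right hac (sub_nonneg.2 h3)
        have h5 : s * (z - s) ≤ z := by
          have : s * (z - s) ≤ z ^ 2 / 4 := by nlinarith [sq_nonneg (z - 2 * s)]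
          nlinarith
        have h6 : c * (s * (z - s)) ≤ c * z := mul_le_mul_of_nonneg_left h5 hc.le
        have h7 : c * z ≤ y * z := mul_le_mul_of_nonneg_right hcy hz
        linarith
    have g2 : 1 - cos s ≤ 1 + a - exp a * cos s := by
      rcases le_total (cos s) 0 with h3 | h3
      · have := mul_nonneg (by linarith : 0 ≤ exp a - 1) (neg_nonneg.2 h3)
        nlinarith
      · have h4 : (exp a - 1) * cos s ≤ 43 / 25 * a * (5417 / 10000) :=
          mul_le_mul (by linarith) hcos h3 (by positivity)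
        nlinarith
    have g3 : y * sin s ≤ y * (exp a * sin s) := by
      refine mul_le_mul_of_nonneg_left ?_ hy
      nlinarith
    have g4 : y * (s - sin s) ≤ 2 / 5 * x * (s - sin s) :=
      mul_le_mul_of_nonneg_right hyx (by linarith [sin_le (by linarith : 0 ≤ s)])
    have g5 : 7 / 20 ≤ 1 - cos s - 2 / 5 * (s - sin s) := by
      rcases le_total s (3 / 2) with h3 | h3
      · have k1 := cos_le4 (by linarith : 0 ≤ s)
        have k2 := sin_ge3 (by linarith : 0 ≤ s)
        have k3 : 0 ≤ (s - 1) * (3 / 2 - s) := mul_nonneg (by linarith) (by linarith)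
        have k4 : 0 ≤ (s - 1) * (3 / 2 - s) * s := mul_nonneg k3 (by linarith)
        have k5 : 0 ≤ (s - 1) * (3 / 2 - s) * s ^ 2 := mul_nonneg k3 (by positivity)
        nlinarith
      · obtain ⟨u, hu⟩ : ∃ u, s = π - u := ⟨π - s, by ring⟩
        have hu0 : 0 ≤ u := by linarith
        have hu1 : u ≤ 1642 / 1000 := by linarith
        have k1 : cos s = -cos u := by rw [hu, cos_pi_sub]
        have k2 : sin s = sin u := by rw [hu, sin_pi_sub]
        have k3 := cos_ge2 (x := u)
        have k4 := sin_ge3 hu0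
        have k5 : 0 ≤ u * (1642 / 1000 - u) := mul_nonneg hu0 (by linarith)
        have k6 : 0 ≤ u * (1642 / 1000 - u) * u := mul_nonneg k5 hu0
        rw [k1, k2, hu]
        nlinarith
    have g6 := mul_le_mul_of_nonneg_left g2 hx.le
    have g7 := mul_le_mul_of_nonneg_left g5 hx.le
    unfold HL
    nlinarith
  · have hcos := cos_le_T h h2
    have hay' := hay h
    have g1 : 0 ≤ (a - y) * (s - z) := mul_nonneg (by linarith) (by linarith)
    have g2 : x * cos s - y * sin s ≤ 11 / 25 * x := by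
      have k1 : x * cos s ≤ x * (1 / 25) := mul_le_mul_of_nonneg_left hcos hx.le
      have k2 : y * (-sin s) ≤ y * 1 := mul_le_mul_of_nonneg_left (by linarith [neg_one_le_sin s]) hy
      linarith
    have g3 : exp a * (x * cos s - y * sin s) ≤ (1 + 43 / 25 * a) * (11 / 25 * x) := by
      have k1 := mul_le_mul_of_nonneg_left g2 (exp_pos a).le
      have k2 := mul_le_mul_of_nonneg_right hexp (by linarith : 0 ≤ 11 / 25 * x)
      linarith
    have g4 : 0 ≤ x * a := mul_nonneg hx.le ha0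
    unfold HL
    nlinarith

/-- left side -/
theorem crudeL2 {x y z c a t : ℝ} (hx : 0 < x) (hc1 : c ≤ 2763 / 10000) (hxc : x * c ≤ 1)
    (hy : 0 ≤ y) (hz : 0 ≤ z) (ha0 : 0 ≤ a) (ha1 : a ≤ 1) (hac : a ≤ c * t)
    (h1 : 1 ≤ t) (h2 : t ≤ 19 / 4) : 7 / 20 * x ≤ HL x y z (-a) (-t) := by
  have hp := Real.pi_gt_d4
  have hp2 := Real.pi_lt_d4
  have e1 := en_le2 ha0
  have e2 := en_ge1 (x := a)
  have e3 : exp (-a) ≤ 1 := by rw [exp_le_one_iff]; linarith
  have e0 := exp_pos (-a)
  have g1 : x * a ^ 2 ≤ a * t := by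
    have k1 : x * a ≤ t := by
      have := mul_le_mul_of_nonneg_left hac hx.le
      have := mul_le_mul_of_nonneg_right hxc (by linarith : 0 ≤ t)
      nlinarith
    have := mul_le_mul_of_nonneg_left k1 ha0
    nlinarith
  have g2 : y * (exp (-a) * sin t) ≤ y * t := by
    refine mul_le_mul_of_nonneg_left ?_ hy
    rcases le_total (sin t) 0 with h | h
    · nlinarith [mul_nonneg e0.le (neg_nonneg.2 h)]
    · have : exp (-a) * sin t ≤ 1 * 1 := mul_le_mul e3 (sin_le_one t) h (by norm_num)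
      linarith
  have g3 : 0 ≤ (a + y) * z := mul_nonneg (by linarith) hz
  have g4 : 7 / 20 ≤ 1 - a + a ^ 2 - exp (-a) * cos t := by
    rcases le_total t π with h | h
    · have hq := cosB (v := t) (by rw [abs_of_nonneg (by linarith)]; exact h1)
        (by rw [abs_of_nonneg (by linarith)]; exact h)
      have k1 : (1 - a) * (1 - cos t) + a ^ 2 / 2 ≤ 1 - a + a ^ 2 - exp (-a) * cos t := by
        rcases le_total (cos t) 0 with h3 | h3
        · have := mul_le_mul_of_nonneg_right e2 (neg_nonneg.2 h3)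
          nlinarith [sq_nonneg a]
        · have := mul_le_mul_of_nonneg_right e1 h3
          have k4 : a ^ 2 * cos t ≤ a ^ 2 * 1 := mul_le_mul_of_nonneg_left (cos_le_one t) (sq_nonneg a)
          nlinarith
      have k2 : (1 - a) * (3 / 10 + 3 / 20 * t ^ 2) ≤ (1 - a) * (1 - cos t) :=
        mul_le_mul_of_nonneg_left hq (by linarith)
      have k3 : a ≤ 2763 / 10000 * t := by
        have := mul_le_mul_of_nonneg_right hc1 (by linarith : 0 ≤ t)
        linarith
      have k4 : 0 ≤ (2763 / 10000 * t - a) * ((3 / 10 + 3 / 20 * t ^ 2) - (2763 / 10000 * t + a) / 2) := by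
        refine mul_nonneg (by linarith) ?_
        nlinarith [sq_nonneg (t - 1)]
      have k5 : 0 ≤ (1 - 2763 / 10000 * t) * (3 / 10 + 3 / 20 * t ^ 2) +
          (2763 / 10000 * t) ^ 2 / 2 - 7 / 20 := by
        have k6 : 0 ≤ (t - 1) * (3142 / 1000 - t) := mul_nonneg (by linarith) (by linarith)
        have k7 : 0 ≤ (t - 1) * (3142 / 1000 - t) * t := mul_nonneg k6 (by linarith)
        nlinarith
      nlinarith
    · have hcos := cos_le_T h h2
      have k1 : exp (-a) * cos t ≤ 1 / 25 := by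
        rcases le_total (cos t) 0 with h3 | h3
        · nlinarith [mul_nonneg e0.le (neg_nonneg.2 h3)]
        · have : exp (-a) * cos t ≤ 1 * (1 / 25) := mul_le_mul e3 hcos h3 (by norm_num)
          linarith
      nlinarith [sq_nonneg (a - 1 / 2)]
  have g5 := mul_le_mul_of_nonneg_left g4 hx.le
  unfold HL
  rw [cos_neg, sin_neg]
  nlinarith

end SokalP2O
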