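import Pool.Agent.Lib_MP_af4de1_v3.P2OutM

/-!
# `P2.outL` for `Γ < 10`: `η = 67π/100`, `ρ ≥ 694/100`
-/

set_option autoImplicit false

namespace SokalP2O

open Real Set SokalF1G MeasureTheory

theorem polyA {x : ℝ} (hx : 483 / 100 ≤ x) :
    ((1 + 358 / 1000) ^ 2 + x ^ 2) * ((x + 1) ^ 2 + 1) ^ 2 ≤
      ((1159 / 1000) ^ 2 * 2 * (11 / 24 * x * (x + 1) * (x + 1 - 1) + (x + 1) -
        351 / 625 * x)) ^ 2 := by
  obtain ⟨t, rfl⟩ : ∃ t, x = 483 / 100 + t := ⟨x - 483 / 100, by ring⟩
  have ht : 0 ≤ t := by linarith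
  have h2 := pow_nonneg ht 2
  have h3 := pow_nonneg ht 3
  have h4 := pow_nonneg ht 4
  have h5 := pow_nonneg ht 5
  have h6 := pow_nonneg ht 6
  nlinarith

theorem regA {x y ρ η ψ W D : ℝ} (G : GeL x y ρ η ψ W D) (hη : η = 67 / 100 * π)
    (hρ : 694 / 100 ≤ ρ) {d z j : ℝ} (hd : 0 < d) (hr : 499 / 10 ≤ ρ * d)
    (hg : 547 / 1000 * ρ ≤ d) (hz : z = 0 ∨ z = π - η) (hj0 : 0 ≤ j) (hj1 : j ≤ 1)
    (hf : Integrable (fL (1 / (x + 1)) ((y + 13 / 5 / ρ) * (x + 1)) x y z d j)) :
    ∫ s, fL (1 / (x + 1)) ((y + 13 / 5 / ρ) * (x + 1)) x y z d j s ≤ 27 / 20 * sg d D := by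
  have hp := Real.pi_gt_d4
  have hp2 := Real.pi_lt_d4
  have hx0 := G.x0
  have hy0 := G.y0
  have hρ0 := G.r0
  have hη1 : η ≤ 2104872 / 1000000 := by linarith
  have hη2 : 21048 / 10000 ≤ η := by linarith
  have hF1 := G.F1 (by linarith)
  have hF3 := G.F3
  have heta := G.eta
  have hψ0 := G.p0
  have hy1 : y ≤ 358 / 1000 := by
    by_contra hn
    push Not at hn
    nlinarith
  have hx1 : 483 / 100 ≤ x := by linarith
  have hxρ : 696 / 1000 * ρ ≤ x := by linarith
  have hY : y / x ≤ 742 / 10000 := by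
    rw [div_le_iff₀ hx0]
    linarith
  have hψ := G.psi_le.trans hY
  have hb1 : 13 / 5 / ρ ≤ 3747 / 10000 := by
    rw [div_le_iff₀ hρ0]
    linarith
  have hb0 : 0 < 13 / 5 / ρ := by positivity
  set b := 13 / 5 / ρ with hb
  have hbρ : b * ρ = 13 / 5 := by rw [hb]; field_simp
  have hx1' : 1 / x ≤ 100 / 483 := by
    rw [div_le_div_iff₀ hx0 (by norm_num)]
    linarith
  have hyx1 : y * (1 / x) ≤ y * (100 / 483) := mul_le_mul_of_nonneg_left hx1' hy0
  -- `y (x + 1)`
  have hyu_lo : 2 ≤ y * (x + 1) := by nlinarith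
  have hyu_hi : y * (x + 1) ≤ 2115 / 1000 := by
    have h1 : y * (x + 1) = y * (ρ - η / 2) + y * (1 - η / 2 + ψ) := by
      rw [show x = ρ - η + ψ by linarith]; ring
    have h2 : y * (1 - η / 2 + ψ) ≤ y * (22 / 1000) := mul_le_mul_of_nonneg_left (by linarith) hy0
    linarith
  have hbu : b * (x + 1) = 13 / 5 + b * (1 - η + ψ) := by
    rw [← hbρ, show x = ρ - η + ψ by linarith]; ring
  have hbu_hi : b * (1 - η + ψ) ≤ 0 := mul_nonpos_of_nonneg_of_nonpos hb0.le (by linarith)
  have hbu_lo : -(1 / 2) ≤ b * (1 - η + ψ) := by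
    have h1 : b * (-(12 / 10)) ≤ b * (1 - η + ψ) := mul_le_mul_of_nonneg_left (by linarith) hb0.le
    linarith
  have hk : 347 / 10 ≤ x * d := by
    have := mul_le_mul_of_nonneg_right hxρ hd.le
    nlinarith
  -- `y ρ`
  have hyρ : 2 ≤ y * ρ := by
    have h1 : ρ = x + η - ψ := by linarith
    rw [h1]
    have h2 : 0 ≤ y * (η - ψ - 1) := mul_nonneg hy0 (by linarith)
    nlinarith
  have hyd : 1 ≤ y * d := by
    have := mul_le_mul_of_nonneg_left hg hy0
    nlinarith
  have hz0 : 0 ≤ z := by rcases hz with rfl | rfl <;> linarith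
  have hzπ : z ≤ π := by rcases hz with rfl | rfl <;> linarith
  have hc : 1 / (x + 1) ≤ 172 / 1000 := by
    rw [div_le_div_iff₀ (by linarith) (by norm_num)]
    linarith
  have hc0 : 0 < 1 / (x + 1) := by positivity
  have hw0 : 6 / 11 * (1 / (x + 1) / (x * d)) ≤ 28 / 10000 := by
    have h1 : 1 / (x + 1) / (x * d) ≤ 172 / 1000 / (347 / 10) :=
      div_le_div₀ (by norm_num) hc (by norm_num) hk
    refine (mul_le_mul_of_nonneg_left h1 (by norm_num)).trans ?_
    norm_num
  have hmid : (27 : ℝ) ^ 2 * (104 / 100 * (347 / 10)) * exp (-(2 * (7 / 20) * (347 / 10))) ≤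
      (1 / 1000) ^ 2 * (2 * π) := by
    have h1 := exp_nf 24 (f := 29 / 100) (x := 2 * (7 / 20) * (347 / 10)) (by norm_num)
      (by norm_num)
    refine (mul_le_mul_of_nonneg_left h1 (by norm_num)).trans ?_
    have h2 : (1 / 1000 : ℝ) ^ 2 * (2 * (31415 / 10000)) ≤ (1 / 1000) ^ 2 * (2 * π) := by
      have : (31415 / 10000 : ℝ) ≤ π := by linarith
      nlinarith
    refine le_trans ?_ h2
    norm_num
  have hkw : W ^ 2 + 1 + 2 * (358 / 1000) ≤ (10362 / 10000 * W) ^ 2 := by
    have h2 := pow_le_pow_left₀ (by norm_num) (hx1.trans G.xW) 2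
    nlinarith
  have h10 : exp (-10) ≤ 1 / 20000 := exp_neg_le (n := 10) (by norm_num) (by norm_num) (by norm_num)
  have hsg := sg_pos hd G.D0
  -- both values of `z`
  have key : ∀ P0 : ℝ, 0 ≤ P0 → P0 ≤ 13 / 5 * (2 * π - z - η) - 65339 / 10000 →
      ∫ s, fL (1 / (x + 1)) ((y + 13 / 5 / ρ) * (x + 1)) x y z d j s ≤
      (1159 / 1000 * exp (6 / 11 * (1 / (x + 1) / (x * d)) - (y - 1 / (x + 1)) * z * d) +
        1 / 1000 + 1065 / 1000 * exp ((358 / 1000 + 3747 / 10000) / 2 - 547 / 1000 * P0) +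
        5 / 4 * (1065 / 1000) * exp (-10)) * sg d D := by
    intro P0 hP0 hP
    refine finL G (Y1 := 742 / 10000) (η1 := 2104872 / 1000000) (k0 := 347 / 10)
      (q := 104 / 100) (kw := 10362 / 10000) hd (by norm_num) (by norm_num) hz0 hzπ hj0 hj1
      (by linarith) hr hg hb1 (by norm_num) hy1 (by norm_num) hY (by linarith) hη1 (by norm_num)
      ?_ (by linarith) (by linarith) (by linarith) ?_ ?_ hP0 ?_ (by norm_num) (polyA hx1) hk
      (by norm_num) (by norm_num) ?_ (by norm_num) hmid (by norm_num) (by norm_num) hkw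
      (by norm_num) (by norm_num) (by linarith) hf
    · rw [div_le_iff₀ (by norm_num)]; linarith
    · rw [hbu]; linarith
    · rw [hbu]; linarith
    · norm_num
      norm_num at hP
      linarith
    · nlinarith
  rcases hz with rfl | rfl
  · -- `z = 0`
    refine (key (4329 / 1000) (by norm_num) (by linarith)).trans ?_
    refine mul_le_mul_of_nonneg_right ?_ hsg.le
    have h1 : exp (6 / 11 * (1 / (x + 1) / (x * d)) - (y - 1 / (x + 1)) * 0 * d) ≤
        1 + 101 / 100 * (28 / 10000) :=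
      exp_small (by norm_num) (by norm_num) (by rw [mul_zero, zero_mul, sub_zero]; exact hw0)
    have h2 : exp ((358 / 1000 + 3747 / 10000) / 2 - 547 / 1000 * (4329 / 1000)) ≤
        1354 / 10000 := by
      have h3 := exp_nf 2 (f := 0) (x := 547 / 1000 * (4329 / 1000) -
        (358 / 1000 + 3747 / 10000) / 2) (by norm_num) (by norm_num)
      rw [neg_sub] at h3
      refine h3.trans ?_
      norm_num
    linarith
  · -- `z = π - η`
    refine (key (1634 / 1000) (by norm_num) (by linarith)).trans ?_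
    refine mul_le_mul_of_nonneg_right ?_ hsg.le
    have hδ : 566 / 1000 ≤ (y - 1 / (x + 1)) * (π - η) * d := by
      have h1 : y - 1 / (x + 1) = (y * (x + 1) - 1) / (x + 1) := by field_simp
      have h2 : 1 * (1 / (x + 1)) ≤ y - 1 / (x + 1) := by
        rw [h1, mul_one_div]
        exact div_le_div_of_nonneg_right (by linarith) (by linarith)
      have h4 : 1 ≤ 1 / (x + 1) * ρ := by
        rw [div_mul_eq_mul_div, one_mul, le_div_iff₀ (by linarith)]
        linarith
      have h5 : 547 / 1000 * 1 ≤ 1 / (x + 1) * d := by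
        have := mul_le_mul_of_nonneg_left hg hc0.le
        linarith
      have h6 : 547 / 1000 ≤ (y - 1 / (x + 1)) * d := by
        have := mul_le_mul_of_nonneg_right h2 hd.le
        linarith
      have h7 : 1036 / 1000 * (547 / 1000) ≤
          (π - η) * ((y - 1 / (x + 1)) * d) :=
        mul_le_mul (by linarith) h6 (by norm_num) (by linarith)
      linarith
    have h1 : exp (6 / 11 * (1 / (x + 1) / (x * d)) - (y - 1 / (x + 1)) * (π - η) * d) ≤
        571 / 1000 := by
      have h3 := exp_nf 0 (f := 563 / 1000) (x := (y - 1 / (x + 1)) * (π - η) * d -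
        6 / 11 * (1 / (x + 1) / (x * d))) (by norm_num) (by rw [Nat.cast_zero]; linarith)
      rw [neg_sub] at h3
      refine h3.trans ?_
      norm_num
    have h2 : exp ((358 / 1000 + 3747 / 10000) / 2 - 547 / 1000 * (1634 / 1000)) ≤
        591 / 1000 := by
      have h3 := exp_nf 0 (f := 527 / 1000) (x := 547 / 1000 * (1634 / 1000) -
        (358 / 1000 + 3747 / 10000) / 2) (by norm_num) (by norm_num)
      rw [neg_sub] at h3
      refine h3.trans ?_
      norm_num
    linarith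

end SokalP2O
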