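import Pool.Agent.Lib_MP_af4de1_v3.P2OutN

/-!
# `P2.outL`, `P2.outR`: reduction to numbers
-/

set_option autoImplicit false

namespace SokalP2O

open Real Set SokalF1G MeasureTheory

/-- `exp (-x)` from `n + f ≤ x` -/
theorem exp_nf (n : ℕ) {f x : ℝ} (hf : 0 ≤ f) (hx : (n : ℝ) + f ≤ x) :
    exp (-x) ≤ 1 / (2718 / 1000 : ℝ) ^ n * (1 - f + f ^ 2 / 2 - f ^ 3 / 6 + f ^ 4 / 24) := by
  have h1 : exp (-(n : ℝ)) ≤ 1 / (2718 / 1000 : ℝ) ^ n :=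
    exp_neg_nat (by positivity) (by rw [one_div_one_div])
  have h2 := en_le4 hf
  calc exp (-x) ≤ exp (-(n : ℝ) + -f) := exp_le_exp.2 (by linarith)
    _ = exp (-(n : ℝ)) * exp (-f) := exp_add _ _
    _ ≤ _ := mul_le_mul h1 h2 (exp_pos _).le (by positivity)

theorem exp_small {w e : ℝ} (h0 : 0 ≤ e) (h1 : e ≤ 1 / 100) (hw : w ≤ e) :
    exp w ≤ 1 + 101 / 100 * e := by
  have h2 := (exp_le_exp.2 hw).trans (e_le3 h0 (by linarith))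
  have h3 : e ^ 2 ≤ e * (1 / 100) := by nlinarith
  have h4 : e ^ 3 ≤ e * (1 / 100) := by nlinarith [mul_nonneg h0 h0]
  have h5 : e ^ 4 ≤ e * (1 / 100) := by nlinarith [mul_nonneg h0 h0, mul_nonneg (mul_nonneg h0 h0) h0]
  linarith

theorem sq_le_of {a b : ℝ} (hb : 0 ≤ b) (h : a ^ 2 ≤ b ^ 2) : a ≤ b :=
  (abs_le_of_sq_le_sq' h hb).2

theorem kW_of {D W q kW : ℝ} (hW : 0 < W) (hk : 0 ≤ kW) (h1 : D ≤ q * W)
    (h2 : (1001 / 1000 : ℝ) ^ 2 * (12 / 11) * q ≤ kW ^ 2) :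
    1001 / 1000 * √(12 / 11 * (D / W)) ≤ kW := by
  rw [← Real.sqrt_sq hk, ← Real.sqrt_sq (by norm_num : (0 : ℝ) ≤ 1001 / 1000),
    ← Real.sqrt_mul (by norm_num)]
  apply Real.sqrt_le_sqrt
  have h3 : D / W ≤ q := by
    rw [div_le_iff₀ hW]
    exact h1
  linarith

theorem M0L_of {x y1 c0 M D : ℝ} (hx : 0 < x) (hc0 : 0 ≤ c0) (hu : 1 < x + c0)
    (hD2 : D ^ 2 ≤ (1 + y1) ^ 2 + x ^ 2)
    (hpoly : ((1 + y1) ^ 2 + x ^ 2) * ((x + c0) ^ 2 + 1) ^ 2 ≤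
      (M ^ 2 * 2 * (11 / 24 * x * (x + c0) * (x + c0 - 1) + (x + c0) - 351 / 625 * x)) ^ 2) :
    (1 + (1 / (x + c0)) ^ 2) * D ≤ M ^ 2 * (2 * (11 / 24 * (1 - 1 / (x + c0)) * x +
      (1 - 351 / 625 * (x * (1 / (x + c0)))) * (1 / (x + c0)))) := by
  set u := x + c0 with hu'
  have hu0 : 0 < u := by linarith
  have h1 : D * (u ^ 2 + 1) ≤ M ^ 2 * 2 * (11 / 24 * x * u * (u - 1) + u - 351 / 625 * x) := by
    refine sq_le_of ?_ ?_
    · have k1 : 0 ≤ 11 / 24 * x * u * (u - 1) := by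
        have : 0 ≤ u - 1 := by linarith
        positivity
      have k2 : 0 ≤ 11 / 24 * x * u * (u - 1) + u - 351 / 625 * x := by linarith
      positivity
    · rw [mul_pow]
      exact (mul_le_mul_of_nonneg_right hD2 (by positivity)).trans hpoly
  have e1 : (1 + (1 / u) ^ 2) * D = D * (u ^ 2 + 1) / u ^ 2 := by field_simp
  have e2 : M ^ 2 * (2 * (11 / 24 * (1 - 1 / u) * x +
      (1 - 351 / 625 * (x * (1 / u))) * (1 / u))) =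
      M ^ 2 * 2 * (11 / 24 * x * u * (u - 1) + u - 351 / 625 * x) / u ^ 2 := by
    field_simp
    ring
  rw [e1, e2]
  exact div_le_div_of_nonneg_right h1 (by positivity)

theorem finL {x y ρ η ψ W D : ℝ} (G : GeL x y ρ η ψ W D)
    {d θ c0 z j g0 b1 y1 Y1 η1 P0 k0 q m M kw kW : ℝ}
    (hd : 0 < d) (hθ : 0 < θ) (hc0 : 0 ≤ c0) (hz : 0 ≤ z) (hz1 : z ≤ π) (hj0 : 0 ≤ j)
    (hj1 : j ≤ 1) (hρ : 3 ≤ ρ) (hr : 499 / 10 ≤ ρ * d) (hg : g0 * ρ ≤ d)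
    (hb1 : θ / ρ ≤ b1) (hb2 : b1 ≤ 1 / 2) (hy1 : y ≤ y1) (hyb : y1 + b1 ≤ 1)
    (hY1 : y / x ≤ Y1) (hη0 : 0 ≤ η) (hη : η ≤ η1) (hη1 : η1 ≤ 5 / 2)
    (hu1 : 10000 / 2763 ≤ x + c0) (hyu1 : 1 ≤ y * (x + c0)) (hyu2 : y * (x + c0) ≤ 31415 / 10000)
    (hyu3 : y * (x + c0) ≤ 11 / 4 * x)
    (hs1 : 1 ≤ θ / ρ * (x + c0)) (hs2 : y * (x + c0) + θ / ρ * (x + c0) ≤ 19 / 4)
    (hP0 : 0 ≤ P0)
    (hP : P0 ≤ θ * (2 * π - z - η) - θ ^ 2 * (1 / 2 + b1 / 6 + b1 ^ 2 / 19) -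
      η1 * (1 + y1 / 2) * (η1 / 2 + Y1 / 2 * (y1 / 2 + Y1 ^ 2 / 3)) -
      6 / 11 * (b1 ^ 2 * (1 - b1 + b1 ^ 2 / 2)))
    (hM : 0 ≤ M) (hpoly : ((1 + y1) ^ 2 + x ^ 2) * ((x + c0) ^ 2 + 1) ^ 2 ≤
      (M ^ 2 * 2 * (11 / 24 * x * (x + c0) * (x + c0 - 1) + (x + c0) - 351 / 625 * x)) ^ 2)
    (hk : k0 ≤ x * d) (hk0 : 25 ≤ k0) (hq : 0 < q) (hDq : (1 + y1) ^ 2 + x ^ 2 ≤ (q * x) ^ 2)
    (hm : 0 ≤ m)
    (hmid : (27 : ℝ) ^ 2 * (q * k0) * exp (-(2 * (7 / 20) * k0)) ≤ m ^ 2 * (2 * π))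
    (hkW : 0 ≤ kW) (hkw0 : 0 ≤ kw) (hkw : W ^ 2 + 1 + 2 * y1 ≤ (kw * W) ^ 2)
    (hkw2 : (1001 / 1000 : ℝ) ^ 2 * (12 / 11) * kw ≤ kW ^ 2)
    (hgθ : 6 / 5 ≤ θ * g0) (hyd : 9 / 10 ≤ y * d)
    (hf : Integrable (fL (1 / (x + c0)) ((y + θ / ρ) * (x + c0)) x y z d j)) :
    ∫ s, fL (1 / (x + c0)) ((y + θ / ρ) * (x + c0)) x y z d j s ≤
      (M * exp (6 / 11 * (1 / (x + c0) / (x * d)) - (y - 1 / (x + c0)) * z * d) + m +
        kW * exp ((y1 + b1) / 2 - g0 * P0) + 5 / 4 * kW * exp (-10)) * sg d D := by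
  have hp := Real.pi_gt_d4
  have hρ0 := G.r0
  have hx := G.x0
  have hy := G.y0
  set u := x + c0 with hu
  have hu0 : 0 < u := by linarith
  have hb0 : 0 < θ / ρ := by positivity
  set b := θ / ρ with hb
  have hbρ : b * ρ = θ := by rw [hb]; field_simp
  have hc : 0 < 1 / u := by positivity
  have hyu0 : 0 ≤ y * u := by positivity
  have hD2 : D ^ 2 ≤ (1 + y1) ^ 2 + x ^ 2 := by
    rw [G.D2]
    have := pow_le_pow_left₀ (by linarith : 0 ≤ 1 + y) (by linarith : 1 + y ≤ 1 + y1) 2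
    linarith
  have hbd : 6 / 5 ≤ b * d := by
    have h1 : θ * g0 ≤ b * d := by
      have : b * (g0 * ρ) ≤ b * d := mul_le_mul_of_nonneg_left hg hb0.le
      nlinarith
    linarith
  have hexpb : 1 ≤ exp b := one_le_exp hb0.le
  have hμ : ρ * d ≤ ρ * exp b * d := by
    have : 0 < ρ * d := by positivity
    nlinarith
  refine coreL G (b := b) (c := 1 / u) (s1 := (y + b) * u) (q := q) (k0 := k0) (m := m) (M := M)
    (kW := kW) (X3 := (y1 + b1) / 2 - g0 * P0) (X4 := -10) hd hb0 hc ?_ ?_ ?_ ?_ ?_ ?_ ?_ ?_ ?_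
    hz hz1 hj0 hj1 hM ?_ hq (by linarith) hk hm ?_ hmid hbd (by linarith) ?_ ?_ ?_ ?_ ?_ ?_ hf
  · field_simp
  · linarith
  · linarith
  · linarith
  · rw [div_le_iff₀ hu0]
    rw [div_le_iff₀ (by norm_num)] at hu1
    linarith
  · rw [mul_one_div, div_le_one hu0]
    linarith
  · rw [div_le_iff₀ hu0]
    exact hyu1
  · rw [div_mul_eq_mul_div, one_mul, le_div_iff₀ hu0]
    linarith
  · have e : 11 / 4 * (x * (1 / u)) = 11 / 4 * x / u := by ring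
    rw [e, le_div_iff₀ hu0]
    exact hyu3
  · have h0 : (1 : ℝ) < 10000 / 2763 := by norm_num
    exact M0L_of hx hc0 (by linarith) hD2 hpoly
  · exact sq_le_of (by positivity) (hD2.trans hDq)
  · -- β ≤ μ
    have h1 : b * d ≤ 17 / 100 * (ρ * exp b * d) := by
      have h2 : b ≤ 17 / 100 * ρ := by linarith
      have h3 := mul_le_mul_of_nonneg_right h2 hd.le
      linarith
    have h4 := pow_le_pow_left₀ (by positivity) h1 2
    have h5 : 0 ≤ (ρ * exp b * d) ^ 2 := sq_nonneg _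
    rw [mul_pow] at h4
    linarith
  · refine kW_of G.W0 hkW ?_ hkw2
    refine sq_le_of (mul_nonneg hkw0 G.W0.le) (le_trans ?_ hkw)
    rw [G.D2, G.W2]
    nlinarith
  · exact X3L G hθ hd hg hb1 hb2 hy1 hY1 hη0 hη hη1 hP0 hP
  · have : 0 ≤ y * d := by positivity
    linarith
  · have h1 : k0 ≤ W * d := hk.trans (mul_le_mul_of_nonneg_right G.xW hd.le)
    have h2 : exp (-1) ≤ exp (-(y + b)) := exp_le_exp.2 (by linarith)
    have h3 : (366 / 1000 : ℝ) ≤ exp (-1) := by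
      rw [exp_neg, le_inv_comm₀ (by norm_num) (exp_pos _)]
      linarith [Real.exp_one_lt_d9]
    have h4 : 25 * (366 / 1000 : ℝ) ≤ W * d * exp (-(y + b)) :=
      mul_le_mul (by linarith) (h3.trans h2) (by norm_num) (by linarith)
    linarith
  · have h1 : x * (y + b) ≤ 19 / 4 := by
      have h2 : x * (y + b) ≤ u * (y + b) :=
        mul_le_mul_of_nonneg_right (by linarith) (by linarith)
      linarith
    have := X4L G hd hb0 (by linarith) h1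
    linarith

end SokalP2O
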