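import Pool.Agent.Lib_MP_af4de1_v3.P2OutM

/-!
# `P2.outR`: reduction to numbers
-/

set_option autoImplicit false

namespace SokalP2O

open Real Set SokalF1G MeasureTheory

theorem M0R_of {x n n1 φ c0 M D : ℝ} (hx : 0 < x) (hu : 1 < x + c0)
    (hn1 : n ≤ n1) (hφ : 1 / 2 + 11 / 50 * (1 / (x + c0)) ≤ φ)
    (hD2 : D ^ 2 ≤ 1 + x ^ 2)
    (hI : 0 < 11 / 24 * x * (x + c0) * (x + c0 - 1) + (x + c0) - φ * x - n1 * (x + c0) -
      n1 / 6 * (x + c0) ^ 2)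
    (hpoly : (1 + x ^ 2) * ((x + c0) ^ 2 + 1) ^ 2 ≤
      (M ^ 2 * 2 * (11 / 24 * x * (x + c0) * (x + c0 - 1) + (x + c0) - φ * x - n1 * (x + c0) -
      n1 / 6 * (x + c0) ^ 2)) ^ 2) :
    0 < 2 * (11 / 24 * (1 - 1 / (x + c0)) * x - n * (1 / (x + c0)) - n / 6 +
      (1 - x * (1 / (x + c0)) * (1 / 2 + 11 / 50 * (1 / (x + c0)))) * (1 / (x + c0))) ∧
    (1 + (1 / (x + c0)) ^ 2) * D ≤ M ^ 2 * (2 * (11 / 24 * (1 - 1 / (x + c0)) * x -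
      n * (1 / (x + c0)) - n / 6 +
      (1 - x * (1 / (x + c0)) * (1 / 2 + 11 / 50 * (1 / (x + c0)))) * (1 / (x + c0)))) := by
  set u := x + c0 with hu'
  have hu0 : 0 < u := by linarith
  set I := 11 / 24 * x * u * (u - 1) + u - φ * x - n1 * u - n1 / 6 * u ^ 2 with hI'
  have h1 : D * (u ^ 2 + 1) ≤ M ^ 2 * 2 * I := by
    refine sq_le_of (by positivity) ?_
    rw [mul_pow]
    exact (mul_le_mul_of_nonneg_right hD2 (by positivity)).trans hpoly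
  have h2 : I / u ^ 2 ≤ 11 / 24 * (1 - 1 / u) * x - n * (1 / u) - n / 6 +
      (1 - x * (1 / u) * (1 / 2 + 11 / 50 * (1 / u))) * (1 / u) := by
    have e2 : 11 / 24 * (1 - 1 / u) * x - n * (1 / u) - n / 6 +
        (1 - x * (1 / u) * (1 / 2 + 11 / 50 * (1 / u))) * (1 / u) =
        (11 / 24 * x * u * (u - 1) + u - (1 / 2 + 11 / 50 * (1 / u)) * x - n * u -
          n / 6 * u ^ 2) / u ^ 2 := by
      field_simp
      ring
    rw [e2]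
    refine div_le_div_of_nonneg_right ?_ (by positivity)
    have k1 := mul_le_mul_of_nonneg_right hφ hx.le
    have k2 := mul_le_mul_of_nonneg_right hn1 hu0.le
    have k3 := mul_le_mul_of_nonneg_right hn1 (sq_nonneg u)
    rw [hI']
    linarith
  have h3 : 0 < I / u ^ 2 := by positivity
  refine ⟨by linarith, ?_⟩
  have e1 : (1 + (1 / u) ^ 2) * D = D * (u ^ 2 + 1) / u ^ 2 := by field_simp
  rw [e1]
  calc D * (u ^ 2 + 1) / u ^ 2 ≤ M ^ 2 * 2 * I / u ^ 2 :=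
        div_le_div_of_nonneg_right h1 (by positivity)
    _ = M ^ 2 * (2 * (I / u ^ 2)) := by ring
    _ ≤ _ := mul_le_mul_of_nonneg_left (by linarith) (sq_nonneg M)

theorem finR {x n ρ η ψ W D : ℝ} (G : GeR x n ρ η ψ W D)
    {d θ c0 z j g0 b1 n1 η1 P0 q m M kw kW φ E1 : ℝ}
    (hd : 0 < d) (hθ : 0 < θ) (hz : 0 ≤ z) (hz1 : z ≤ π) (hj0 : 0 ≤ j)
    (hj1 : j ≤ 1) (hρ : 16 / 5 ≤ ρ) (hr : 499 / 10 ≤ ρ * d) (hg : g0 * ρ ≤ d)
    (hb1 : θ / ρ ≤ b1) (hb2 : b1 ≤ 1 / 2) (hn1 : n ≤ n1) (hnb : n1 + b1 ≤ 1)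
    (hη0 : 0 ≤ η) (hη : η ≤ η1)
    (hE1 : E1 ≤ 1 - b1 + b1 ^ 2 / 2 - b1 ^ 3 / 6) (hE2 : 34 ≤ 499 / 10 * E1)
    (hE3 : b1 ≤ 173 / 1000 * (16 / 5 * E1))
    (hu1 : 10000 / 2013 ≤ x + c0) (hnu1 : 1 ≤ n * (x + c0)) (hnu2 : n * (x + c0) ≤ 31415 / 10000)
    (hnx : n ≤ 101 / 1000 * x) (hx4 : 4 ≤ x) (hxρ : ρ ≤ x)
    (hs1 : 1 ≤ θ / ρ * (x + c0)) (hs2 : n * (x + c0) + θ / ρ * (x + c0) ≤ 19 / 4)
    (hcr : 17 / 100 * x ≤ 859 / 1000 * x * (1 - (n + θ / ρ)) - 141 / 2000 * x * (n + θ / ρ) ^ 2 +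
      (n + θ / ρ - n) * (π - z))
    (h33 : x * (n + θ / ρ) * (1 / 2 + (n + θ / ρ) / 6 + (n + θ / ρ) ^ 2 / 19) ≤ 33 / 10)
    (hP0 : 0 ≤ P0)
    (hP : P0 ≤ θ * (2 * π - z - η) - θ ^ 2 / 2 - η1 ^ 2 / 2 -
      6 / 11 * (b1 ^ 2 * (1 + b1 + b1 ^ 2 / 2 + b1 ^ 3 / 6 + b1 ^ 4 / 19)))
    (hM : 0 ≤ M) (hφ : 1 / 2 + 11 / 50 * (1 / (x + c0)) ≤ φ)
    (hI : 0 < 11 / 24 * x * (x + c0) * (x + c0 - 1) + (x + c0) - φ * x - n1 * (x + c0) -
      n1 / 6 * (x + c0) ^ 2)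
    (hpoly : (1 + x ^ 2) * ((x + c0) ^ 2 + 1) ^ 2 ≤
      (M ^ 2 * 2 * (11 / 24 * x * (x + c0) * (x + c0 - 1) + (x + c0) - φ * x - n1 * (x + c0) -
      n1 / 6 * (x + c0) ^ 2)) ^ 2)
    (hq : 0 < q) (hDq : 1 + x ^ 2 ≤ (q * x) ^ 2)
    (hm : 0 ≤ m)
    (hmid : (27 : ℝ) ^ 2 * (q * (499 / 10)) * exp (-(2 * (17 / 100) * (499 / 10))) ≤
      m ^ 2 * (2 * π))
    (hkW : 0 ≤ kW) (hkw0 : 0 ≤ kw) (hkw : W ^ 2 + 1 ≤ (kw * W) ^ 2)
    (hkw2 : (1001 / 1000 : ℝ) ^ 2 * (12 / 11) * kw ≤ kW ^ 2)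
    (hgθ : 6 / 5 ≤ θ * g0) (hnd : 3 / 4 ≤ n * d)
    (hf : Integrable (fR (1 / (x + c0)) ((n + θ / ρ) * (x + c0)) x n z d j)) :
    ∫ s, fR (1 / (x + c0)) ((n + θ / ρ) * (x + c0)) x n z d j s ≤
      (M * exp (6 / 11 * (1 / (x + c0) / (x * d)) - (n - 1 / (x + c0)) * z * d) + m +
        kW * exp ((n1 + b1) / 2 - g0 * P0) + 5 / 4 * kW * exp (-7)) * sg d D := by
  have hp := Real.pi_gt_d4
  have hρ0 := G.r0
  have hx := G.x0
  have hn := G.n0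
  have hk : 499 / 10 ≤ x * d := hr.trans (mul_le_mul_of_nonneg_right hxρ hd.le)
  set u := x + c0 with hu
  have hu0 : 0 < u := lt_of_lt_of_le (by norm_num) hu1
  have hu1' : 1 < u := lt_of_lt_of_le (by norm_num) hu1
  have hb0 : 0 < θ / ρ := by positivity
  set b := θ / ρ with hb
  have hc : 0 < 1 / u := by positivity
  have hD2 : D ^ 2 ≤ 1 + x ^ 2 := by
    rw [G.D2]
    have := pow_le_pow_left₀ (by linarith [G.n1] : 0 ≤ 1 - n) (by linarith : 1 - n ≤ 1) 2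
    linarith
  have hbd : 6 / 5 ≤ b * d := by
    have hbρ : b * ρ = θ := by rw [hb]; field_simp
    have h1 : θ * g0 ≤ b * d := by
      have : b * (g0 * ρ) ≤ b * d := mul_le_mul_of_nonneg_left hg hb0.le
      nlinarith
    linarith
  have hEb : E1 ≤ exp (-b) := by
    have h1 : exp (-b1) ≤ exp (-b) := exp_le_exp.2 (by linarith)
    have h2 := en_ge3 (x := b1) (by linarith)
    linarith
  have hE0 : 0 < E1 := by linarith
  have hμ : 499 / 10 * E1 ≤ ρ * exp (-b) * d := by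
    have h1 : 499 / 10 * E1 ≤ ρ * d * exp (-b) :=
      mul_le_mul hr hEb hE0.le (by positivity)
    linarith
  obtain ⟨hden, hMM⟩ := M0R_of (n := n) hx hu1' hn1 hφ hD2 hI hpoly
  refine coreR G (b := b) (c := 1 / u) (s1 := (n + b) * u) (q := q) (k0 := 499 / 10) (m := m)
    (M := M) (kW := kW) (X3 := (n1 + b1) / 2 - g0 * P0) (X4 := -7) hd hb0 hc ?_ ?_ ?_ ?_ ?_ ?_ ?_
    hnx hx4 hz hz1 hcr hj0 hj1 hden hM hMM hq (by norm_num) hk hm ?_ hmid hbd (by linarith)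
    ?_ ?_ ?_ ?_ ?_ ?_ hf
  · field_simp
  · have : 0 ≤ n * u := by positivity
    linarith
  · linarith
  · linarith
  · rw [div_le_iff₀ hu0]
    rw [div_le_iff₀ (by norm_num)] at hu1
    linarith
  · rw [div_le_iff₀ hu0]
    exact hnu1
  · rw [div_mul_eq_mul_div, one_mul, le_div_iff₀ hu0]
    linarith
  · exact sq_le_of (by positivity) (hD2.trans hDq)
  · -- β ≤ μ
    have h1 : b * d ≤ 173 / 1000 * (ρ * exp (-b) * d) := by
      have h2 : 16 / 5 * E1 ≤ ρ * exp (-b) := mul_le_mul hρ hEb hE0.le (by linarith)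
      have h3 : b ≤ 173 / 1000 * (ρ * exp (-b)) := by linarith
      have h4 := mul_le_mul_of_nonneg_right h3 hd.le
      linarith
    have h4 := pow_le_pow_left₀ (by positivity) h1 2
    have h5 : 0 ≤ (ρ * exp (-b) * d) ^ 2 := sq_nonneg _
    rw [mul_pow] at h4
    linarith
  · refine kW_of G.W0 hkW ?_ hkw2
    refine sq_le_of (mul_nonneg hkw0 G.W0.le) (le_trans ?_ hkw)
    rw [G.D2, G.W2]
    nlinarith
  · exact X3R G hθ hd hg hb1 hb2 hn1 hη0 hη hP0 hP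
  · have : 0 ≤ n * d := by positivity
    linarith
  · have h1 : 499 / 10 ≤ W * d := hk.trans (mul_le_mul_of_nonneg_right G.xW hd.le)
    have h2 : 1 ≤ exp (n + b) := one_le_exp (by linarith)
    have h4 : 499 / 10 * (1 : ℝ) ≤ W * d * exp (n + b) :=
      mul_le_mul h1 h2 (by norm_num) (by linarith)
    linarith
  · have := X4R G hd hb0 (by linarith) hnx h33
    linarith

end SokalP2O
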