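import Pool.Agent.Lib_MP_af4de1_v3.P2OutC

/-!
# `P2.outL`, `P2.outR`: the exponents of the two tails
-/

set_option autoImplicit false

namespace SokalP2O

open Real Set SokalF1G

theorem b2_mono {b b1 : ℝ} (h0 : 0 ≤ b) (h1 : b ≤ b1) (h2 : b1 ≤ 1 / 2) :
    b ^ 2 * (1 - b + b ^ 2 / 2) ≤ b1 ^ 2 * (1 - b1 + b1 ^ 2 / 2) := by
  have h3 : 0 ≤ (b1 - b) * ((b1 + b) * (1 - b1 - b) + b1 * b + (b1 + b) * (b1 ^ 2 + b ^ 2) / 2) := by
    refine mul_nonneg (by linarith) ?_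
    have h4 : 0 ≤ (b1 + b) * (1 - b1 - b) := mul_nonneg (by linarith) (by linarith)
    have h5 : 0 ≤ b1 := by linarith
    positivity
  nlinarith

theorem b2_bd {b : ℝ} (h0 : 0 ≤ b) : b ^ 2 * exp (-b) ≤ b ^ 2 * (1 - b + b ^ 2 / 2) :=
  mul_le_mul_of_nonneg_left (en_le2 h0) (sq_nonneg b)

theorem X3L {x y ρ η ψ W D : ℝ} (G : GeL x y ρ η ψ W D) {d θ z g0 b1 y1 Y1 η1 P0 : ℝ}
    (hθ : 0 < θ) (hd : 0 < d) (hg : g0 * ρ ≤ d) (hb1 : θ / ρ ≤ b1) (hb2 : b1 ≤ 1 / 2)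
    (hy1 : y ≤ y1) (hY1 : y / x ≤ Y1) (hη0 : 0 ≤ η) (hη : η ≤ η1) (hη1 : η1 ≤ 5 / 2)
    (hP0 : 0 ≤ P0)
    (hP : P0 ≤ θ * (2 * π - z - η) - θ ^ 2 * (1 / 2 + b1 / 6 + b1 ^ 2 / 19) -
      η1 * (1 + y1 / 2) * (η1 / 2 + Y1 / 2 * (y1 / 2 + Y1 ^ 2 / 3)) -
      6 / 11 * (b1 ^ 2 * (1 - b1 + b1 ^ 2 / 2))) :
    (y + θ / ρ) / 2 - d * (θ / ρ * (2 * π - z - η) - ρ * (exp (θ / ρ) - 1 - θ / ρ) -
      (ρ - x * (1 + y))) + 6 * (θ / ρ * d) ^ 2 / (11 * (ρ * exp (θ / ρ) * d)) ≤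
      (y1 + b1) / 2 - g0 * P0 := by
  have hρ := G.r0
  have hy := G.y0
  have hx := G.x0
  set b := θ / ρ with hb
  have hb0 : 0 < b := by positivity
  have hbρ : ρ * b = θ := by rw [hb]; field_simp
  -- the exponential
  have e1 := e_le3 hb0.le (by linarith)
  have e2 : ρ ^ 2 * (exp b - 1 - b) ≤ θ ^ 2 * (1 / 2 + b1 / 6 + b1 ^ 2 / 19) := by
    have k1 : exp b - 1 - b ≤ b ^ 2 * (1 / 2 + b / 6 + b ^ 2 / 19) := by nlinarith
    have k2 : b ^ 2 ≤ b1 ^ 2 := pow_le_pow_left₀ hb0.le hb1 2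
    have k3 : ρ ^ 2 * (exp b - 1 - b) ≤ ρ ^ 2 * (b ^ 2 * (1 / 2 + b / 6 + b ^ 2 / 19)) :=
      mul_le_mul_of_nonneg_left k1 (sq_nonneg ρ)
    have k4 : ρ ^ 2 * (b ^ 2 * (1 / 2 + b / 6 + b ^ 2 / 19)) =
        θ ^ 2 * (1 / 2 + b / 6 + b ^ 2 / 19) := by rw [← hbρ]; ring
    rw [k4] at k3
    refine k3.trans (mul_le_mul_of_nonneg_left (by linarith) (sq_nonneg θ))
  -- the saddle
  have e3 : ρ * (ρ - x * (1 + y)) ≤
      η1 * (1 + y1 / 2) * (η1 / 2 + Y1 / 2 * (y1 / 2 + Y1 ^ 2 / 3)) := by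
    have k1 := G.F1 (by linarith)
    have k2 : ρ * y ≤ η1 * (1 + y1 / 2) := by
      have : ρ * y ≤ η * (1 + y / 2) := by linarith
      refine this.trans (mul_le_mul hη (by linarith) (by linarith) (by linarith))
    have k3 := mul_le_mul_of_nonneg_left G.F2 hρ.le
    have k4 : ρ * (y * η / 2 + y * (y / x) / 2 * (y / 2 + (y / x) ^ 2 / 3)) =
        ρ * y * (η / 2 + y / x / 2 * (y / 2 + (y / x) ^ 2 / 3)) := by ring
    rw [k4] at k3
    have hY0 := G.Y0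
    have k5 : η / 2 + y / x / 2 * (y / 2 + (y / x) ^ 2 / 3) ≤
        η1 / 2 + Y1 / 2 * (y1 / 2 + Y1 ^ 2 / 3) := by
      have k6 : (y / x) ^ 2 ≤ Y1 ^ 2 := pow_le_pow_left₀ hY0 hY1 2
      have k7 : y / x / 2 * (y / 2 + (y / x) ^ 2 / 3) ≤ Y1 / 2 * (y1 / 2 + Y1 ^ 2 / 3) :=
        mul_le_mul (by linarith) (by linarith) (by positivity) (by linarith)
      linarith
    refine k3.trans (mul_le_mul k2 k5 (by positivity) ?_)
    exact mul_nonneg (by linarith) (by linarith)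
  have e4 := (b2_bd hb0.le).trans (b2_mono hb0.le hb1 hb2)
  have e5 : 6 * (b * d) ^ 2 / (11 * (ρ * exp b * d)) = d * (6 / 11 * (b ^ 2 * exp (-b)) / ρ) := by
    rw [exp_neg]
    field_simp
  rw [e5]
  have e6 : P0 ≤ ρ * (b * (2 * π - z - η) - ρ * (exp b - 1 - b) - (ρ - x * (1 + y)) -
      6 / 11 * (b ^ 2 * exp (-b)) / ρ) := by
    have k1 : ρ * (b * (2 * π - z - η) - ρ * (exp b - 1 - b) - (ρ - x * (1 + y)) -
        6 / 11 * (b ^ 2 * exp (-b)) / ρ) = θ * (2 * π - z - η) - ρ ^ 2 * (exp b - 1 - b) -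
        ρ * (ρ - x * (1 + y)) - 6 / 11 * (b ^ 2 * exp (-b)) := by
      rw [← hbρ]
      field_simp
    rw [k1]
    linarith
  set Q := b * (2 * π - z - η) - ρ * (exp b - 1 - b) - (ρ - x * (1 + y)) -
      6 / 11 * (b ^ 2 * exp (-b)) / ρ with hQ
  have hQ0 : 0 ≤ Q := by
    by_contra hn
    push Not at hn
    have := mul_neg_of_pos_of_neg hρ hn
    linarith
  have e7 : g0 * P0 ≤ d * Q := by
    rcases le_total 0 g0 with h | h
    · calc g0 * P0 ≤ g0 * (ρ * Q) := mul_le_mul_of_nonneg_left e6 h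
        _ = g0 * ρ * Q := by ring
        _ ≤ d * Q := mul_le_mul_of_nonneg_right hg hQ0
    · have := mul_nonneg hd.le hQ0
      have := mul_nonneg (neg_nonneg.2 h) hP0
      linarith
  have e8 : d * Q = d * (b * (2 * π - z - η) - ρ * (exp b - 1 - b) - (ρ - x * (1 + y))) -
      d * (6 / 11 * (b ^ 2 * exp (-b)) / ρ) := by rw [hQ]; ring
  linarith

theorem X3R {x n ρ η ψ W D : ℝ} (G : GeR x n ρ η ψ W D) {d θ z g0 b1 n1 η1 P0 : ℝ}
    (hθ : 0 < θ) (hd : 0 < d) (hg : g0 * ρ ≤ d) (hb1 : θ / ρ ≤ b1) (hb2 : b1 ≤ 1 / 2)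
    (hn1 : n ≤ n1) (hη0 : 0 ≤ η) (hη : η ≤ η1)
    (hP0 : 0 ≤ P0)
    (hP : P0 ≤ θ * (2 * π - z - η) - θ ^ 2 / 2 - η1 ^ 2 / 2 -
      6 / 11 * (b1 ^ 2 * (1 + b1 + b1 ^ 2 / 2 + b1 ^ 3 / 6 + b1 ^ 4 / 19))) :
    (n + θ / ρ) / 2 - d * (θ / ρ * (2 * π - z - η) - ρ * (exp (-(θ / ρ)) - 1 + θ / ρ) -
      (ρ - x * (1 - n))) + 6 * (θ / ρ * d) ^ 2 / (11 * (ρ * exp (-(θ / ρ)) * d)) ≤
      (n1 + b1) / 2 - g0 * P0 := by
  have hρ := G.r0
  have hx := G.x0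
  set b := θ / ρ with hb
  have hb0 : 0 < b := by positivity
  have hbρ : ρ * b = θ := by rw [hb]; field_simp
  have e1 := en_le2 hb0.le
  have e2 : ρ ^ 2 * (exp (-b) - 1 + b) ≤ θ ^ 2 / 2 := by
    have k3 : ρ ^ 2 * (exp (-b) - 1 + b) ≤ ρ ^ 2 * (b ^ 2 / 2) :=
      mul_le_mul_of_nonneg_left (by linarith) (sq_nonneg ρ)
    have k4 : ρ ^ 2 * (b ^ 2 / 2) = θ ^ 2 / 2 := by rw [← hbρ]; ring
    linarith
  have e3 : ρ * (ρ - x * (1 - n)) ≤ η1 ^ 2 / 2 := by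
    have := pow_le_pow_left₀ hη0 hη 2
    linarith [G.F4]
  have e4 : b ^ 2 * exp b ≤ b1 ^ 2 * (1 + b1 + b1 ^ 2 / 2 + b1 ^ 3 / 6 + b1 ^ 4 / 19) := by
    have hb10 : 0 ≤ b1 := by linarith
    have k1 := e_le3 hb10 (by linarith)
    have k2 : exp b ≤ exp b1 := exp_le_exp.2 hb1
    exact mul_le_mul (pow_le_pow_left₀ hb0.le hb1 2) (k2.trans k1) (exp_pos _).le (by positivity)
  have e5 : 6 * (b * d) ^ 2 / (11 * (ρ * exp (-b) * d)) = d * (6 / 11 * (b ^ 2 * exp b) / ρ) := by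
    rw [exp_neg]
    field_simp
  rw [e5]
  have e6 : P0 ≤ ρ * (b * (2 * π - z - η) - ρ * (exp (-b) - 1 + b) - (ρ - x * (1 - n)) -
      6 / 11 * (b ^ 2 * exp b) / ρ) := by
    have k1 : ρ * (b * (2 * π - z - η) - ρ * (exp (-b) - 1 + b) - (ρ - x * (1 - n)) -
        6 / 11 * (b ^ 2 * exp b) / ρ) = θ * (2 * π - z - η) - ρ ^ 2 * (exp (-b) - 1 + b) -
        ρ * (ρ - x * (1 - n)) - 6 / 11 * (b ^ 2 * exp b) := by
      rw [← hbρ]
      field_simp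
    rw [k1]
    linarith
  set Q := b * (2 * π - z - η) - ρ * (exp (-b) - 1 + b) - (ρ - x * (1 - n)) -
      6 / 11 * (b ^ 2 * exp b) / ρ with hQ
  have hQ0 : 0 ≤ Q := by
    by_contra hn
    push Not at hn
    have := mul_neg_of_pos_of_neg hρ hn
    linarith
  have e7 : g0 * P0 ≤ d * Q := by
    rcases le_total 0 g0 with h | h
    · calc g0 * P0 ≤ g0 * (ρ * Q) := mul_le_mul_of_nonneg_left e6 h
        _ = g0 * ρ * Q := by ring
        _ ≤ d * Q := mul_le_mul_of_nonneg_right hg hQ0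
    · have := mul_nonneg hd.le hQ0
      have := mul_nonneg (neg_nonneg.2 h) hP0
      linarith
  have e8 : d * Q = d * (b * (2 * π - z - η) - ρ * (exp (-b) - 1 + b) - (ρ - x * (1 - n))) -
      d * (6 / 11 * (b ^ 2 * exp b) / ρ) := by rw [hQ]; ring
  linarith

theorem X4L {x y ρ η ψ W D : ℝ} (G : GeL x y ρ η ψ W D) {d b : ℝ} (hd : 0 < d) (hb : 0 < b)
    (h1 : y + b ≤ 1) (h2 : x * (y + b) ≤ 19 / 4) :
    (y + b) / 2 - d * (((y + b) + y) * (19 / 4) + x * (1 - (y + b)) - exp (-(y + b)) * W) -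
      3 / 2 ≤ -1 - (19 / 8 * (b * d) + 69 / 10 * (y * d)) := by
  have hx := G.x0
  have hy := G.y0
  set a := y + b with ha
  have ha0 : 0 < a := by linarith
  have e1 := en_le2 ha0.le
  have e2 : exp (-a) ≤ 1 := by rw [exp_le_one_iff]; linarith
  have e3 : exp (-a) * W ≤ (1 - a + a ^ 2 / 2) * x + y / 5 := by
    have k1 := mul_le_mul_of_nonneg_left G.Wx (exp_pos (-a)).le
    have k2 := mul_le_mul_of_nonneg_right e1 hx.le
    have k3 : y * (y / x) / 2 ≤ y / 5 := by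
      have := mul_le_mul_of_nonneg_left G.Y1 hy
      linarith
    have k4 : exp (-a) * (y * (y / x) / 2) ≤ 1 * (y * (y / x) / 2) :=
      mul_le_mul_of_nonneg_right e2 (by have := G.Y0; positivity)
    linarith
  have e4 : x * a ^ 2 / 2 ≤ 19 / 8 * a := by
    have := mul_le_mul_of_nonneg_right h2 ha0.le
    nlinarith
  have e5 : 19 / 8 * b + 69 / 10 * y ≤ (a + y) * (19 / 4) + x * (1 - a) - exp (-a) * W := by
    linarith
  have := mul_le_mul_of_nonneg_left e5 hd.le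
  linarith

theorem X4R {x n ρ η ψ W D : ℝ} (G : GeR x n ρ η ψ W D) {d b : ℝ} (hd : 0 < d) (hb : 0 < b)
    (h1 : n + b ≤ 1) (hnx : n ≤ 101 / 1000 * x)
    (h2 : x * (n + b) * (1 / 2 + (n + b) / 6 + (n + b) ^ 2 / 19) ≤ 33 / 10) :
    (n + b) / 2 - d * (((n + b) + n) * (19 / 4) + x * (1 + (n + b)) - exp (n + b) * W) -
      3 / 2 ≤ -1 - (29 / 20 * (b * d) + 6 * (n * d)) := by
  have hx := G.x0
  have hn := G.n0
  set a := n + b with ha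
  have ha0 : 0 < a := by linarith
  have e1 := e_le3 ha0.le h1
  have e2 := exp_le_lin ha0.le h1
  have e3 : exp a * W ≤ (1 + a) * x + 33 / 10 * a + 7 / 50 * n := by
    have k1 := mul_le_mul_of_nonneg_left G.Wx (exp_pos a).le
    have k2 := mul_le_mul_of_nonneg_right e1 hx.le
    have k3 : n / x ≤ 101 / 1000 := by
      rw [div_le_iff₀ hx]
      exact hnx
    have k4 : exp a * (n * (n / x) / 2) ≤ 272 / 100 * (n * (101 / 1000) / 2) := by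
      have hY := G.Y0
      refine mul_le_mul (by linarith) ?_ (by positivity) (by norm_num)
      have := mul_le_mul_of_nonneg_left k3 hn
      linarith
    have k5 := mul_le_mul_of_nonneg_right h2 ha0.le
    nlinarith
  have e5 : 29 / 20 * b + 6 * n ≤ (a + n) * (19 / 4) + x * (1 + a) - exp a * W := by
    linarith
  have := mul_le_mul_of_nonneg_left e5 hd.le
  linarith

end SokalP2O
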