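import Pool.Agent.Lib_MP_af4de1_f1.GTay

/-!
# `P2.outL`, `P2.outR`: the integral of the periodic bump and the splitting of the path

`gQ β μ v = exp (-β v - μ (1 - cos v))`, `QQ β μ = ∫_{-π}^∞ gQ`.
-/

set_option autoImplicit false

namespace SokalP2O

open Real MeasureTheory Set SokalF1G

theorem cosA {v : ℝ} (h : |v| ≤ 1) : 11 / 24 * v ^ 2 ≤ 1 - cos v := by
  have h1 := cos_le4 (abs_nonneg v)
  have h2 : |v| ^ 4 = (v ^ 2) ^ 2 := by rw [← sq_abs v]; ring
  rw [cos_abs, sq_abs, h2] at h1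
  have h3 : v ^ 2 ≤ 1 := by rw [← sq_abs]; nlinarith [abs_nonneg v]
  nlinarith [sq_nonneg v]

theorem cosB {v : ℝ} (h1 : 1 ≤ |v|) (h2 : |v| ≤ π) : 3 / 10 + 3 / 20 * v ^ 2 ≤ 1 - cos v := by
  rw [← cos_abs v, ← sq_abs v]
  set u := |v| with hu
  have hp := Real.pi_lt_d4
  have hp0 := Real.pi_gt_d4
  rcases le_total u (27 / 10) with h3 | h3
  · have h4 := cos_le4 (by linarith : 0 ≤ u)
    have h5 : 0 ≤ (u ^ 2 - 1) * (729 / 100 - u ^ 2) := by
      apply mul_nonneg <;> nlinarith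
    nlinarith
  · have h4 : cos u = -cos (π - u) := by rw [cos_pi_sub]; ring
    have h5 := cos_ge2 (x := π - u)
    have h6 : (π - u) ^ 2 ≤ (442 / 1000) ^ 2 := pow_le_pow_left₀ (by linarith) (by linarith) 2
    have h7 : u ^ 2 ≤ (31416 / 10000) ^ 2 := pow_le_pow_left₀ (by linarith) (by linarith) 2
    rw [h4]
    nlinarith

/-! ### Gaussian with a linear term -/

theorem gl_eq {B : ℝ} (hB : 0 < B) (β v : ℝ) :
    exp (-(β * v) - B * v ^ 2) = exp (β ^ 2 / (4 * B)) * exp (-B * (v + β / (2 * B)) ^ 2) := by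
  rw [← exp_add]
  congr 1
  field_simp
  ring

theorem gl_integrable {B : ℝ} (hB : 0 < B) (β : ℝ) :
    Integrable fun v : ℝ => exp (-(β * v) - B * v ^ 2) := by
  simp_rw [gl_eq hB β]
  exact ((integrable_exp_neg_mul_sq hB).comp_add_right (β / (2 * B))).const_mul _

theorem gl_integral {B : ℝ} (hB : 0 < B) (β : ℝ) :
    ∫ v : ℝ, exp (-(β * v) - B * v ^ 2) = exp (β ^ 2 / (4 * B)) * √(π / B) := by
  simp_rw [gl_eq hB β]
  rw [integral_const_mul, integral_add_right_eq_self (fun v : ℝ => exp (-B * v ^ 2)),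
    integral_gaussian]

/-! ### the bump -/

/-- the periodic bump -/
noncomputable def gQ (β μ v : ℝ) : ℝ := exp (-(β * v) - μ * (1 - cos v))

/-- its integral -/
noncomputable def QQ (β μ : ℝ) : ℝ := ∫ v in Ioi (-π), gQ β μ v

theorem gQ_pos (β μ v : ℝ) : 0 < gQ β μ v := exp_pos _

theorem continuous_gQ (β μ : ℝ) : Continuous (gQ β μ) := by
  unfold gQ
  fun_prop

theorem gQ_int {β μ : ℝ} (hβ : 0 < β) (hμ : 0 ≤ μ) (a : ℝ) : IntegrableOn (gQ β μ) (Ioi a) := by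
  refine (exp_neg_integrableOn_Ioi a hβ).mono' (continuous_gQ β μ).aestronglyMeasurable
    (Filter.Eventually.of_forall fun v => ?_)
  rw [norm_of_nonneg (gQ_pos _ _ _).le]
  unfold gQ
  apply exp_le_exp.2
  have := mul_nonneg hμ (sub_nonneg.2 (cos_le_one v))
  linarith

theorem gQ_add (β μ v : ℝ) : gQ β μ (v + 2 * π) = exp (-(2 * π * β)) * gQ β μ v := by
  unfold gQ
  rw [← exp_add, cos_add_two_pi]
  congr 1
  ring

theorem QQ_period {β μ : ℝ} (hβ : 0 < β) (hμ : 0 ≤ μ) :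
    QQ β μ * (1 - exp (-(2 * π * β))) = ∫ v in Ioc (-π) π, gQ β μ v := by
  have hp := Real.pi_pos
  have h1 : QQ β μ = (∫ v in Ioc (-π) π, gQ β μ v) + ∫ v in Ioi π, gQ β μ v := by
    unfold QQ
    rw [← Ioc_union_Ioi_eq_Ioi (by linarith : -π ≤ π)]
    refine setIntegral_union ?_ measurableSet_Ioi ?_ ?_
    · rw [Set.disjoint_left]
      intro v h1 h2
      exact absurd h1.2 (not_le.2 h2)
    · exact (gQ_int hβ hμ (-π)).mono_set fun v hv => hv.1
    · exact gQ_int hβ hμ π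
  have h2 : ∫ v in Ioi π, gQ β μ v = exp (-(2 * π * β)) * QQ β μ := by
    have h3 := (measurePreserving_add_right volume (2 * π)).setIntegral_preimage_emb
      (measurableEmbedding_addRight (2 * π)) (gQ β μ) (Ioi π)
    have h4 : (fun v : ℝ => v + 2 * π) ⁻¹' Ioi π = Ioi (-π) := by
      ext v
      simp only [mem_preimage, mem_Ioi]
      constructor <;> intro h <;> linarith
    rw [h4] at h3
    rw [← h3]
    unfold QQ
    rw [← integral_const_mul]
    congr 1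
    ext v
    exact gQ_add β μ v
  rw [h2] at h1
  linarith

theorem QQ_nonneg (β μ : ℝ) : 0 ≤ QQ β μ :=
  setIntegral_nonneg measurableSet_Ioi fun v _ => (gQ_pos β μ v).le

theorem QQ_le0 {β μ : ℝ} (hβ : 0 < β) (hμ : 0 < μ) :
    QQ β μ * (1 - exp (-(2 * π * β))) ≤
      √(24 * π / (11 * μ)) * exp (6 * β ^ 2 / (11 * μ)) +
      √(20 * π / (3 * μ)) * exp (-(3 / 10 * μ) + 5 * β ^ 2 / (3 * μ)) := by
  rw [QQ_period hβ hμ.le]
  have hB1 : 0 < 11 / 24 * μ := by positivity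
  have hB2 : 0 < 3 / 20 * μ := by positivity
  have i1 := gl_integrable hB1 β
  have i2 := (gl_integrable hB2 β).const_mul (exp (-(3 / 10 * μ)))
  have h1 : ∫ v in Ioc (-π) π, gQ β μ v ≤ ∫ v in Ioc (-π) π,
      (exp (-(β * v) - 11 / 24 * μ * v ^ 2) +
        exp (-(3 / 10 * μ)) * exp (-(β * v) - 3 / 20 * μ * v ^ 2)) := by
    refine setIntegral_mono_on ((gQ_int hβ hμ.le (-π)).mono_set fun v hv => hv.1)
      (i1.add i2).integrableOn measurableSet_Ioc fun v hv => ?_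
    have hv2 : |v| ≤ π := abs_le.2 ⟨hv.1.le, hv.2⟩
    have p1 := exp_pos (-(β * v) - 11 / 24 * μ * v ^ 2)
    have p2 := exp_pos (-(β * v) - 3 / 20 * μ * v ^ 2)
    have p3 := exp_pos (-(3 / 10 * μ))
    rcases le_total |v| 1 with h | h
    · have h2 := mul_le_mul_of_nonneg_left (cosA h) hμ.le
      have h3 : gQ β μ v ≤ exp (-(β * v) - 11 / 24 * μ * v ^ 2) := by
        unfold gQ
        apply exp_le_exp.2
        linarith
      have := mul_pos p3 p2
      linarith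
    · have h2 := mul_le_mul_of_nonneg_left (cosB h hv2) hμ.le
      have h3 : gQ β μ v ≤ exp (-(3 / 10 * μ)) * exp (-(β * v) - 3 / 20 * μ * v ^ 2) := by
        unfold gQ
        rw [← exp_add]
        apply exp_le_exp.2
        linarith
      linarith
  refine h1.trans ((setIntegral_le_integral (i1.add i2)
    (Filter.Eventually.of_forall fun v => ?_)).trans (le_of_eq ?_))
  · have p1 := exp_pos (-(β * v) - 11 / 24 * μ * v ^ 2)
    have p2 := exp_pos (-(β * v) - 3 / 20 * μ * v ^ 2)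
    have p3 := exp_pos (-(3 / 10 * μ))
    simp only [Pi.zero_apply, Pi.add_apply]
    positivity
  · simp only [Pi.add_apply]
    rw [integral_add i1 i2, integral_const_mul, gl_integral hB1, gl_integral hB2]
    have e1 : β ^ 2 / (4 * (11 / 24 * μ)) = 6 * β ^ 2 / (11 * μ) := by field_simp; ring
    have e2 : β ^ 2 / (4 * (3 / 20 * μ)) = 5 * β ^ 2 / (3 * μ) := by field_simp; ring
    have e3 : π / (11 / 24 * μ) = 24 * π / (11 * μ) := by field_simp
    have e4 : π / (3 / 20 * μ) = 20 * π / (3 * μ) := by field_simp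
    rw [e1, e2, e3, e4, exp_add]
    ring


/-! ### numerical bounds -/

theorem exp_neg_nat {n : ℕ} {c : ℝ} (hc : 0 < c) (h : 1 / c ≤ (2718 / 1000 : ℝ) ^ n) :
    exp (-(n : ℝ)) ≤ c := by
  have h1 : (2718 / 1000 : ℝ) ≤ exp 1 := by linarith [Real.exp_one_gt_d9]
  have h2 : (2718 / 1000 : ℝ) ^ n ≤ exp (n : ℝ) := by
    have := pow_le_pow_left₀ (by norm_num) h1 n
    rwa [← exp_nat_mul, mul_one] at this
  rw [exp_neg]
  have h3 : 1 / c ≤ exp (n : ℝ) := h.trans h2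
  rw [one_div] at h3
  have := inv_anti₀ (inv_pos.2 hc) h3
  rwa [inv_inv] at this

theorem exp_neg_le {n : ℕ} {c x : ℝ} (hc : 0 < c) (h : 1 / c ≤ (2718 / 1000 : ℝ) ^ n)
    (hx : (n : ℝ) ≤ x) : exp (-x) ≤ c :=
  (exp_le_exp.2 (neg_le_neg hx)).trans (exp_neg_nat hc h)

theorem sqrt_ratio {μ : ℝ} (hμ : 0 < μ) :
    √(20 * π / (3 * μ)) ≤ 1749 / 1000 * √(24 * π / (11 * μ)) := by
  have hp := Real.pi_pos
  rw [← Real.sqrt_sq (by norm_num : (0 : ℝ) ≤ 1749 / 1000), ← Real.sqrt_mul (by norm_num)]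
  apply Real.sqrt_le_sqrt
  have e : (1749 / 1000 : ℝ) ^ 2 * (24 * π / (11 * μ)) =
      20 * π / (3 * μ) * ((1749 / 1000 : ℝ) ^ 2 * (72 / 220)) := by
    field_simp
    ring
  rw [e]
  have h1 : 0 < 20 * π / (3 * μ) := by positivity
  nlinarith

theorem QQ_le {β μ : ℝ} (hβ : 6 / 5 ≤ β) (hμ : 34 ≤ μ) (h : β ^ 2 ≤ 3 / 100 * μ ^ 2) :
    QQ β μ ≤ 1001 / 1000 * (√(24 * π / (11 * μ)) * exp (6 * β ^ 2 / (11 * μ))) := by
  have hp := Real.pi_gt_d4
  have hβ0 : 0 < β := by linarith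
  have hμ0 : 0 < μ := by linarith
  have h0 := QQ_le0 hβ0 hμ0
  have h1 := sqrt_ratio hμ0
  set S := √(24 * π / (11 * μ)) with hS
  have hS0 : 0 ≤ S := Real.sqrt_nonneg _
  set X := exp (6 * β ^ 2 / (11 * μ)) with hX
  have hX0 : 0 < X := exp_pos _
  have e1 : exp (-(3 / 10 * μ) + 5 * β ^ 2 / (3 * μ)) =
      X * exp (-(3 / 10 * μ - 37 / 33 * (β ^ 2 / μ))) := by
    rw [hX, ← exp_add]
    congr 1
    field_simp
    ring
  have h2 : β ^ 2 / μ ≤ 3 / 100 * μ := by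
    rw [div_le_iff₀ hμ0]
    linarith
  have h3 : exp (-(3 / 10 * μ - 37 / 33 * (β ^ 2 / μ))) ≤ 1 / 8000 :=
    exp_neg_le (n := 9) (by norm_num) (by norm_num) (by push_cast; linarith)
  have h4' : exp (-(2 * π * β)) ≤ 6 / 10000 := by
    have e5 : exp (-(2 * π * β)) = exp (-7) * exp (-(2 * π * β - 7)) := by
      rw [← exp_add]; congr 1; ring
    have h6 : exp (-7) ≤ 10 / 10950 := exp_neg_le (n := 7) (by norm_num) (by norm_num) (by norm_num)
    have h7 : exp (-(2 * π * β - 7)) ≤ 6 / 10 := by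
      rw [exp_neg, inv_le_comm₀ (exp_pos _) (by norm_num)]
      have h8 := e_ge3 (x := 52 / 100) (by norm_num)
      have h9 : exp (52 / 100) ≤ exp (2 * π * β - 7) := exp_le_exp.2 (by nlinarith)
      norm_num at h8 ⊢
      linarith
    rw [e5]
    calc exp (-7) * exp (-(2 * π * β - 7)) ≤ 10 / 10950 * (6 / 10) :=
          mul_le_mul h6 h7 (exp_pos _).le (by norm_num)
      _ ≤ 6 / 10000 := by norm_num
  have h5 : √(20 * π / (3 * μ)) * exp (-(3 / 10 * μ) + 5 * β ^ 2 / (3 * μ)) ≤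
      S * X * (22 / 100000) := by
    rw [e1]
    calc √(20 * π / (3 * μ)) * (X * exp (-(3 / 10 * μ - 37 / 33 * (β ^ 2 / μ)))) ≤
        (1749 / 1000 * S) * (X * (1 / 8000)) :=
          mul_le_mul h1 (mul_le_mul_of_nonneg_left h3 hX0.le) (by positivity) (by positivity)
      _ ≤ S * X * (22 / 100000) := by nlinarith [mul_nonneg hS0 hX0.le]
  have h6 : QQ β μ * (1 - 6 / 10000) ≤ QQ β μ * (1 - exp (-(2 * π * β))) :=
    mul_le_mul_of_nonneg_left (by linarith) (QQ_nonneg β μ)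
  have hSX : 0 ≤ S * X := mul_nonneg hS0 hX0.le
  nlinarith

theorem QQ1_le {μ : ℝ} (hμ : 9 ≤ μ) : QQ 1 μ ≤ 5 / 4 * √(24 * π / (11 * μ)) := by
  have hp := Real.pi_gt_d4
  have hμ0 : 0 < μ := by linarith
  have h0 := QQ_le0 one_pos hμ0
  have h1 := sqrt_ratio hμ0
  set S := √(24 * π / (11 * μ)) with hS
  have hS0 : 0 ≤ S := Real.sqrt_nonneg _
  have h2 : 1 / μ ≤ 1 / 9 := one_div_le_one_div_of_le (by norm_num) hμ
  have h3 : exp (6 * 1 ^ 2 / (11 * μ)) ≤ 1064 / 1000 := by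
    have h4 : 6 * 1 ^ 2 / (11 * μ) ≤ 6 / 99 := by
      have e : 6 * (1 : ℝ) ^ 2 / (11 * μ) = 6 / 11 * (1 / μ) := by field_simp
      rw [e]
      linarith
    refine (exp_le_exp.2 h4).trans ((e_le3 (by norm_num) (by norm_num)).trans ?_)
    norm_num
  have h4 : exp (-(3 / 10 * μ) + 5 * 1 ^ 2 / (3 * μ)) ≤ 82 / 1000 := by
    have h5 : -(3 / 10 * μ) + 5 * 1 ^ 2 / (3 * μ) ≤ -2 + -(51 / 100) := by
      have e : 5 * (1 : ℝ) ^ 2 / (3 * μ) = 5 / 3 * (1 / μ) := by field_simp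
      rw [e]
      linarith
    refine (exp_le_exp.2 h5).trans ?_
    rw [exp_add]
    have h6 : exp (-2 : ℝ) ≤ 1354 / 10000 := exp_neg_le (n := 2) (by norm_num) (by norm_num) (by norm_num)
    have h7 : exp (-(51 / 100) : ℝ) ≤ 602 / 1000 := by
      refine (en_le4 (x := 51 / 100) (by norm_num)).trans ?_
      norm_num
    calc exp (-2 : ℝ) * exp (-(51 / 100) : ℝ) ≤ 1354 / 10000 * (602 / 1000) :=
          mul_le_mul h6 h7 (exp_pos _).le (by norm_num)
      _ ≤ 82 / 1000 := by norm_num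
  have h5 : exp (-(2 * π * 1)) ≤ 1 / 400 :=
    exp_neg_le (n := 6) (by norm_num) (by norm_num) (by push_cast; linarith)
  have h6 : √(20 * π / (3 * μ)) * exp (-(3 / 10 * μ) + 5 * 1 ^ 2 / (3 * μ)) ≤
      (1749 / 1000 * S) * (82 / 1000) :=
    mul_le_mul h1 h4 (exp_pos _).le (by positivity)
  have h7 : S * exp (6 * 1 ^ 2 / (11 * μ)) ≤ S * (1064 / 1000) := mul_le_mul_of_nonneg_left h3 hS0
  have h8 : QQ 1 μ * (1 - 1 / 400) ≤ QQ 1 μ * (1 - exp (-(2 * π * 1))) :=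
    mul_le_mul_of_nonneg_left (by linarith) (QQ_nonneg 1 μ)
  nlinarith

/-! ### splitting of the path -/

theorem tail_int {β μ : ℝ} (hβ : 0 < β) (hμ : 0 ≤ μ) (σ : ℝ) :
    Integrable ((Ioi (σ - π)).indicator fun s : ℝ => gQ β μ (s - σ)) ∧
      ∫ s : ℝ, (Ioi (σ - π)).indicator (fun s : ℝ => gQ β μ (s - σ)) s = QQ β μ := by
  have e : ((Ioi (σ - π)).indicator fun s : ℝ => gQ β μ (s - σ)) =
      fun s : ℝ => (Ioi (-π)).indicator (gQ β μ) (s - σ) := by
    ext s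
    unfold Set.indicator
    simp only [mem_Ioi]
    by_cases h : σ - π < s
    · rw [if_pos h, if_pos (by linarith)]
    · rw [if_neg h, if_neg (by intro h2; apply h; linarith)]
  rw [e]
  refine ⟨((integrable_indicator_iff measurableSet_Ioi).2 (gQ_int hβ hμ (-π))).comp_sub_right σ, ?_⟩
  rw [integral_sub_right_eq_self (fun s : ℝ => (Ioi (-π)).indicator (gQ β μ) s),
    integral_indicator measurableSet_Ioi]
  rfl

theorem tail_int' {β μ : ℝ} (hβ : 0 < β) (hμ : 0 ≤ μ) (σ : ℝ) :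
    Integrable (fun s : ℝ => (Ioi (σ - π)).indicator (fun s : ℝ => gQ β μ (s - σ)) (-s)) ∧
      ∫ s : ℝ, (Ioi (σ - π)).indicator (fun s : ℝ => gQ β μ (s - σ)) (-s) = QQ β μ := by
  obtain ⟨h1, h2⟩ := tail_int hβ hμ σ
  refine ⟨h1.comp_neg, ?_⟩
  rw [integral_neg_eq_self (fun s : ℝ => (Ioi (σ - π)).indicator (fun s : ℝ => gQ β μ (s - σ)) s)]
  exact h2

theorem split_le {f : ℝ → ℝ} (hf : Integrable f) {A B E T F β μ σ F' β' μ' σ' : ℝ}
    (hA : 0 ≤ A) (hB : 0 < B) (hE : 0 ≤ E) (hT : 0 ≤ T) (hF : 0 ≤ F) (hF' : 0 ≤ F')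
    (hβ : 0 < β) (hβ' : 0 < β') (hμ : 0 ≤ μ) (hμ' : 0 ≤ μ') (hσ : σ < T + π) (hσ' : σ' < T + π)
    (h1 : ∀ s, |s| ≤ 1 → f s ≤ A * exp (-B * s ^ 2))
    (h2 : ∀ s, 1 ≤ |s| → |s| ≤ T → f s ≤ E)
    (h3 : ∀ s, T ≤ s → f s ≤ F * gQ β μ (s - σ))
    (h4 : ∀ s, T ≤ s → f (-s) ≤ F' * gQ β' μ' (s - σ')) :
    ∫ s, f s ≤ A * √(π / B) + 2 * T * E + F * QQ β μ + F' * QQ β' μ' := by
  obtain ⟨a1, a2⟩ := tail_int hβ hμ σ
  obtain ⟨b1, b2⟩ := tail_int' hβ' hμ' σ'
  have c1 := (integrable_exp_neg_mul_sq hB).const_mul A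
  have c2 : Integrable ((Icc (-T) T).indicator fun _ : ℝ => E) :=
    (integrable_indicator_iff measurableSet_Icc).2 (by simp [integrableOn_const_iff])
  have hg : Integrable fun s : ℝ => (A * exp (-B * s ^ 2) + (Icc (-T) T).indicator (fun _ => E) s) +
      (F * (Ioi (σ - π)).indicator (fun s : ℝ => gQ β μ (s - σ)) s +
        F' * (Ioi (σ' - π)).indicator (fun s : ℝ => gQ β' μ' (s - σ')) (-s)) :=
    (c1.add c2).add ((a1.const_mul F).add (b1.const_mul F'))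
  have hle : ∀ s, f s ≤ (A * exp (-B * s ^ 2) + (Icc (-T) T).indicator (fun _ => E) s) +
      (F * (Ioi (σ - π)).indicator (fun s : ℝ => gQ β μ (s - σ)) s +
        F' * (Ioi (σ' - π)).indicator (fun s : ℝ => gQ β' μ' (s - σ')) (-s)) := by
    intro s
    have p1 : 0 ≤ A * exp (-B * s ^ 2) := by positivity
    have p2 : 0 ≤ (Icc (-T) T).indicator (fun _ : ℝ => E) s := indicator_nonneg (fun _ _ => hE) _
    have p3 : 0 ≤ F * (Ioi (σ - π)).indicator (fun s : ℝ => gQ β μ (s - σ)) s :=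
      mul_nonneg hF (indicator_nonneg (fun _ _ => (gQ_pos _ _ _).le) _)
    have p4 : 0 ≤ F' * (Ioi (σ' - π)).indicator (fun s : ℝ => gQ β' μ' (s - σ')) (-s) :=
      mul_nonneg hF' (indicator_nonneg (fun _ _ => (gQ_pos _ _ _).le) _)
    rcases le_total |s| 1 with q1 | q1
    · have := h1 s q1
      linarith
    rcases le_total |s| T with q2 | q2
    · have := h2 s q1 q2
      have e : (Icc (-T) T).indicator (fun _ : ℝ => E) s = E :=
        indicator_of_mem (mem_Icc.2 (abs_le.1 q2)) _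
      linarith
    rcases le_total 0 s with q3 | q3
    · rw [abs_of_nonneg q3] at q2
      have := h3 s q2
      have e : (Ioi (σ - π)).indicator (fun s : ℝ => gQ β μ (s - σ)) s = gQ β μ (s - σ) :=
        indicator_of_mem (mem_Ioi.2 (by linarith)) _
      rw [e] at p3 ⊢
      linarith
    · rw [abs_of_nonpos q3] at q2
      have h5 := h4 (-s) q2
      rw [neg_neg] at h5
      have e : (Ioi (σ' - π)).indicator (fun s : ℝ => gQ β' μ' (s - σ')) (-s) =
          gQ β' μ' (-s - σ') := indicator_of_mem (mem_Ioi.2 (by linarith)) _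
      rw [e] at p4 ⊢
      linarith
  refine (integral_mono hf hg hle).trans (le_of_eq ?_)
  have d1 : ∫ s : ℝ, ((A * exp (-B * s ^ 2) + (Icc (-T) T).indicator (fun _ => E) s) +
      (F * (Ioi (σ - π)).indicator (fun s : ℝ => gQ β μ (s - σ)) s +
        F' * (Ioi (σ' - π)).indicator (fun s : ℝ => gQ β' μ' (s - σ')) (-s))) =
      (∫ s : ℝ, (A * exp (-B * s ^ 2) + (Icc (-T) T).indicator (fun _ => E) s)) +
      ∫ s : ℝ, (F * (Ioi (σ - π)).indicator (fun s : ℝ => gQ β μ (s - σ)) s +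
        F' * (Ioi (σ' - π)).indicator (fun s : ℝ => gQ β' μ' (s - σ')) (-s)) :=
    integral_add (c1.add c2) ((a1.const_mul F).add (b1.const_mul F'))
  have d2 : ∫ s : ℝ, (A * exp (-B * s ^ 2) + (Icc (-T) T).indicator (fun _ => E) s) =
      (∫ s : ℝ, A * exp (-B * s ^ 2)) + ∫ s : ℝ, (Icc (-T) T).indicator (fun _ => E) s :=
    integral_add c1 c2
  have d3 : ∫ s : ℝ, (F * (Ioi (σ - π)).indicator (fun s : ℝ => gQ β μ (s - σ)) s +
        F' * (Ioi (σ' - π)).indicator (fun s : ℝ => gQ β' μ' (s - σ')) (-s)) =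
      (∫ s : ℝ, F * (Ioi (σ - π)).indicator (fun s : ℝ => gQ β μ (s - σ)) s) +
      ∫ s : ℝ, F' * (Ioi (σ' - π)).indicator (fun s : ℝ => gQ β' μ' (s - σ')) (-s) :=
    integral_add (a1.const_mul F) (b1.const_mul F')
  rw [d1, d2, d3, integral_const_mul, integral_const_mul,
    integral_const_mul, a2, b2, integral_gaussian, integral_indicator measurableSet_Icc]
  simp only [integral_const, MeasurableSet.univ, measureReal_restrict_apply, univ_inter,
    Real.volume_real_Icc_of_le (by linarith : -T ≤ T), smul_eq_mul]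
  ring

end SokalP2O
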