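import Pool.Agent.Lib_MP_af4de1_v3.P2OutR

/-!
# `P2.outL`, `P2.outR`: the tails and the sum of the four parts
-/

set_option autoImplicit false

namespace SokalP2O

open Real Set SokalF1G MeasureTheory

/-- `sG` in the variables `d = 1/δ`, `D` -/
noncomputable def sg (d D : ℝ) : ℝ := √(2 * π / (d * D))

theorem sg_pos {d D : ℝ} (hd : 0 < d) (hD : 0 < D) : 0 < sg d D := by
  unfold sg
  have := Real.pi_pos
  positivity

/-! ### exact forms of the height on the flat parts -/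

theorem tailL {x y ρ η ψ W D : ℝ} (G : GeL x y ρ η ψ W D) (z b s : ℝ) :
    HL x y z (y + b) s = b * (s - (2 * π - ψ)) + ρ * exp b * (1 - cos (s - (2 * π - ψ))) +
      (b * (2 * π - z - η) - ρ * (exp b - 1 - b) - (ρ - x * (1 + y))) := by
  have e1 : cos (s - (2 * π - ψ)) = cos (s + ψ) := by
    rw [show s - (2 * π - ψ) = s + ψ - 2 * π by ring, cos_sub_two_pi]
  have e2 : x * cos s - y * sin s = W * cos (s + ψ) := by
    rw [cos_add]
    linear_combination (cos s) * G.cs - (sin s) * G.sn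
  have e3 : exp (y + b) * W = ρ * exp b := by
    rw [G.rho, exp_add]; ring
  have e4 : exp (y + b) * (x * cos s - y * sin s) = ρ * exp b * cos (s + ψ) := by
    rw [e2, ← mul_assoc, e3]
  unfold HL
  rw [e1, e4]
  linear_combination b * G.eta

theorem tailR {x n ρ η ψ W D : ℝ} (G : GeR x n ρ η ψ W D) (z b t : ℝ) :
    HR x n z (n + b) t = b * (t - (2 * π - ψ)) + ρ * exp (-b) * (1 - cos (t - (2 * π - ψ))) +
      (b * (2 * π - z - η) - ρ * (exp (-b) - 1 + b) - (ρ - x * (1 - n))) := by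
  have e1 : cos (t - (2 * π - ψ)) = cos (t + ψ) := by
    rw [show t - (2 * π - ψ) = t + ψ - 2 * π by ring, cos_sub_two_pi]
  have e2 : x * cos t - n * sin t = W * cos (t + ψ) := by
    rw [cos_add]
    linear_combination (cos t) * G.cs - (sin t) * G.sn
  have e3 : exp (-(n + b)) * W = ρ * exp (-b) := by
    rw [G.rho, show -(n + b) = -n + -b by ring, exp_add]
    have : exp (-n) * exp n = 1 := by rw [← exp_add]; simp
    linear_combination (ρ * exp (-b)) * this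
  have e4 : exp (-(n + b)) * (x * cos t - n * sin t) = ρ * exp (-b) * cos (t + ψ) := by
    rw [e2, ← mul_assoc, e3]
  unfold HR
  rw [e1, e4]
  linear_combination b * G.eta

/-- left tail, left side -/
theorem tailL' {x y ρ η ψ W D : ℝ} (G : GeL x y ρ η ψ W D) {z a d t : ℝ} (hz : 0 ≤ z)
    (ha : 0 ≤ a) (hd : 0 < d) (h1 : 1 ≤ (a + y) * d) (ht : 19 / 4 ≤ t) :
    -(d * HL x y z (-a) (-t)) ≤
      -(d * ((a + y) * (19 / 4) + x * (1 - a) - exp (-a) * W)) - 3 / 2 +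
      (-(1 * (t - (2 * π + ψ))) - W * exp (-a) * d * (1 - cos (t - (2 * π + ψ)))) := by
  have hp := Real.pi_gt_d4
  have e1 : cos (t - (2 * π + ψ)) = cos (t - ψ) := by
    rw [show t - (2 * π + ψ) = t - ψ - 2 * π by ring, cos_sub_two_pi]
  have e2 : x * cos t + y * sin t = W * cos (t - ψ) := by
    rw [cos_sub]
    linear_combination (cos t) * G.cs + (sin t) * G.sn
  have e3 : HL x y z (-a) (-t) = (a + y) * t + (a + y) * z + x * (1 - a) -
      exp (-a) * (W * cos (t - ψ)) := by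
    rw [← e2]
    unfold HL
    rw [cos_neg, sin_neg]
    ring
  have h2 : 0 ≤ d * ((a + y) * z) := by
    have := G.y0
    positivity
  have h3 : 1 * (t - 19 / 4) ≤ (a + y) * d * (t - 19 / 4) :=
    mul_le_mul_of_nonneg_right h1 (by linarith)
  have h4 := G.p0
  rw [e1, e3]
  nlinarith

theorem tailR' {x n ρ η ψ W D : ℝ} (G : GeR x n ρ η ψ W D) {z a d t : ℝ} (hz : 0 ≤ z)
    (ha : 0 ≤ a) (hd : 0 < d) (h1 : 1 ≤ (a + n) * d) (ht : 19 / 4 ≤ t) :
    -(d * HR x n z (-a) (-t)) ≤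
      -(d * ((a + n) * (19 / 4) + x * (1 + a) - exp a * W)) - 3 / 2 +
      (-(1 * (t - (2 * π + ψ))) - W * exp a * d * (1 - cos (t - (2 * π + ψ)))) := by
  have hp := Real.pi_gt_d4
  have e1 : cos (t - (2 * π + ψ)) = cos (t - ψ) := by
    rw [show t - (2 * π + ψ) = t - ψ - 2 * π by ring, cos_sub_two_pi]
  have e2 : x * cos t + n * sin t = W * cos (t - ψ) := by
    rw [cos_sub]
    linear_combination (cos t) * G.cs + (sin t) * G.sn
  have e3 : HR x n z (-a) (-t) = (a + n) * t + (a + n) * z + x * (1 + a) -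
      exp a * (W * cos (t - ψ)) := by
    rw [← e2]
    unfold HR
    rw [cos_neg, sin_neg, neg_neg]
    ring
  have h2 : 0 ≤ d * ((a + n) * z) := by
    have := G.n0
    positivity
  have h3 : 1 * (t - 19 / 4) ≤ (a + n) * d * (t - 19 / 4) :=
    mul_le_mul_of_nonneg_right h1 (by linarith)
  have h4 := G.p0
  rw [e1, e3]
  nlinarith

/-! ### normalisation -/

theorem sqrt_mu {W D d κ μ : ℝ} (hW : 0 < W) (hD : 0 < D) (hd : 0 < d) (hμ : μ = W * exp κ * d) :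
    √(24 * π / (11 * μ)) = √(12 / 11 * (D / W)) * exp (-(κ / 2)) * sg d D := by
  have hp := Real.pi_pos
  have e1 : exp (-(κ / 2)) = √(exp (-κ)) := by
    rw [show exp (-κ) = exp (-(κ / 2)) ^ 2 by rw [← exp_nat_mul]; congr 1; push_cast; ring,
      Real.sqrt_sq (exp_pos _).le]
  have e2 : exp κ * exp (-κ) = 1 := by rw [← exp_add]; simp
  unfold sg
  rw [e1, ← Real.sqrt_mul (by positivity), ← Real.sqrt_mul (by positivity)]
  congr 1
  rw [hμ, exp_neg]
  field_simp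
  ring

theorem right_bd {W D d κ β μ kW e X : ℝ} (hW : 0 < W) (hD : 0 < D) (hd : 0 < d)
    (hμ : μ = W * exp κ * d) (hβ : 6 / 5 ≤ β) (hμ2 : 34 ≤ μ) (h : β ^ 2 ≤ 3 / 100 * μ ^ 2)
    (hk : 1001 / 1000 * √(12 / 11 * (D / W)) ≤ kW)
    (hX : e - κ / 2 + 6 * β ^ 2 / (11 * μ) ≤ X) :
    exp e * QQ β μ ≤ kW * exp X * sg d D := by
  have h1 := QQ_le hβ hμ2 h
  rw [sqrt_mu hW hD hd hμ] at h1
  have hs := sg_pos hd hD
  have h2 := mul_le_mul_of_nonneg_left h1 (exp_pos e).le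
  refine h2.trans ?_
  have e1 : exp e * (1001 / 1000 * (√(12 / 11 * (D / W)) * exp (-(κ / 2)) * sg d D *
      exp (6 * β ^ 2 / (11 * μ)))) = (1001 / 1000 * √(12 / 11 * (D / W))) *
      exp (e - κ / 2 + 6 * β ^ 2 / (11 * μ)) * sg d D := by
    rw [show e - κ / 2 + 6 * β ^ 2 / (11 * μ) = e + -(κ / 2) + 6 * β ^ 2 / (11 * μ) by ring,
      exp_add, exp_add]
    ring
  rw [e1]
  refine mul_le_mul_of_nonneg_right (mul_le_mul hk (exp_le_exp.2 hX) (exp_pos _).le ?_) hs.le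
  exact le_trans (by positivity) hk

theorem left_bd {W D d κ μ kW e X : ℝ} (hW : 0 < W) (hD : 0 < D) (hd : 0 < d)
    (hμ : μ = W * exp κ * d) (hμ2 : 9 ≤ μ)
    (hk : 1001 / 1000 * √(12 / 11 * (D / W)) ≤ kW)
    (hX : e - κ / 2 ≤ X) :
    exp e * QQ 1 μ ≤ 5 / 4 * kW * exp X * sg d D := by
  have h1 := QQ1_le hμ2
  rw [sqrt_mu hW hD hd hμ] at h1
  have hs := sg_pos hd hD
  have h2 := mul_le_mul_of_nonneg_left h1 (exp_pos e).le
  refine h2.trans ?_
  have e1 : exp e * (5 / 4 * (√(12 / 11 * (D / W)) * exp (-(κ / 2)) * sg d D)) =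
      5 / 4 * √(12 / 11 * (D / W)) * exp (e - κ / 2) * sg d D := by
    rw [show e - κ / 2 = e + -(κ / 2) by ring, exp_add]
    ring
  rw [e1]
  have h3 : 0 ≤ √(12 / 11 * (D / W)) := Real.sqrt_nonneg _
  refine mul_le_mul_of_nonneg_right (mul_le_mul (by linarith) (exp_le_exp.2 hX) (exp_pos _).le ?_) hs.le
  linarith

/-- the core -/
theorem core_bd {d D A den M e0 : ℝ} (hd : 0 < d) (hD : 0 < D) (hden : 0 < den) (hA : 0 ≤ A)
    (hM : 0 ≤ M) (he : 0 ≤ e0) (h : A ^ 2 * D ≤ M ^ 2 * den) :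
    A * e0 * √(π / (d * den / 2)) ≤ M * e0 * sg d D := by
  have hp := Real.pi_pos
  have h1 : A * √(π / (d * den / 2)) ≤ M * sg d D := by
    unfold sg
    rw [← Real.sqrt_sq hA, ← Real.sqrt_sq hM, ← Real.sqrt_mul (sq_nonneg A),
      ← Real.sqrt_mul (sq_nonneg M)]
    apply Real.sqrt_le_sqrt
    have e1 : A ^ 2 * (π / (d * den / 2)) = A ^ 2 * D * (2 * π / (d * D * den)) := by
      field_simp
    have e2 : M ^ 2 * (2 * π / (d * D)) = M ^ 2 * den * (2 * π / (d * D * den)) := by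
      field_simp
    rw [e1, e2]
    exact mul_le_mul_of_nonneg_right h (by positivity)
  calc A * e0 * √(π / (d * den / 2)) = A * √(π / (d * den / 2)) * e0 := by ring
    _ ≤ M * sg d D * e0 := mul_le_mul_of_nonneg_right h1 he
    _ = _ := by ring

/-- the middle part: `dD ≤ q xd` -/
theorem mid_bd {d D k q ν m E k0 : ℝ} (hd : 0 < d) (hD : 0 < D) (hq : 0 < q) (hk0 : 0 < k0)
    (hk : k0 ≤ k) (hν : 1 / (2 * k0) ≤ ν) (hm : 0 ≤ m) (hdD : d * D ≤ q * k)
    (h : E ^ 2 * (q * k0) * exp (-(2 * ν * k0)) ≤ m ^ 2 * (2 * π)) :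
    E * exp (-(ν * k)) ≤ m * sg d D := by
  have hp := Real.pi_pos
  have hkp : 0 < k := by linarith
  unfold sg
  rw [← Real.sqrt_sq hm, ← Real.sqrt_mul (sq_nonneg m)]
  apply Real.le_sqrt_of_sq_le
  have h1 : k ≤ k0 * exp (2 * ν * (k - k0)) := by
    have h2 := add_one_le_exp (2 * ν * (k - k0))
    have h3 : 1 ≤ 2 * ν * k0 := by
      rw [div_le_iff₀ (by positivity)] at hν
      linarith
    have h4 : 1 * (k - k0) ≤ 2 * ν * k0 * (k - k0) :=
      mul_le_mul_of_nonneg_right h3 (by linarith)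
    have h5 := mul_le_mul_of_nonneg_left h2 hk0.le
    nlinarith
  have e1 : (E * exp (-(ν * k))) ^ 2 = E ^ 2 * exp (-(2 * ν * k)) := by
    rw [mul_pow, ← exp_nat_mul]
    congr 2
    push_cast
    ring
  rw [e1, ← mul_div_assoc, le_div_iff₀ (by positivity)]
  calc E ^ 2 * exp (-(2 * ν * k)) * (d * D) ≤
        E ^ 2 * exp (-(2 * ν * k)) * (q * (k0 * exp (2 * ν * (k - k0)))) := by
          refine mul_le_mul_of_nonneg_left (hdD.trans ?_) (by positivity)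
          exact mul_le_mul_of_nonneg_left h1 hq.le
    _ = E ^ 2 * (q * k0) * exp (-(2 * ν * k0)) := by
        have : exp (-(2 * ν * k)) * exp (2 * ν * (k - k0)) = exp (-(2 * ν * k0)) := by
          rw [← exp_add]; congr 1; ring
        linear_combination (E ^ 2 * q * k0) * this
    _ ≤ _ := h

/-- the sum of the four parts -/
theorem core_sum {f : ℝ → ℝ} (hf : Integrable f) {d D W A den M w E mid q k k0 ν m β κ μ kW e3 X3
    μ' e4 X4 σ σ' : ℝ} (hd : 0 < d) (hD : 0 < D) (hW : 0 < W) (hden : 0 < den) (hA : 0 ≤ A)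
    (hM : 0 ≤ M) (hMM : A ^ 2 * D ≤ M ^ 2 * den)
    (hE0 : 0 ≤ mid) (hE : 19 / 2 * mid ≤ E * exp (-(ν * k)))
    (hq : 0 < q) (hk0 : 0 < k0) (hk : k0 ≤ k) (hν : 1 / (2 * k0) ≤ ν) (hm : 0 ≤ m)
    (hdD : d * D ≤ q * k) (hmid : E ^ 2 * (q * k0) * exp (-(2 * ν * k0)) ≤ m ^ 2 * (2 * π))
    (hβ : 6 / 5 ≤ β) (hμ : μ = W * exp κ * d) (hμ2 : 34 ≤ μ) (hβμ : β ^ 2 ≤ 3 / 100 * μ ^ 2)
    (hkW : 1001 / 1000 * √(12 / 11 * (D / W)) ≤ kW)
    (hX3 : e3 - κ / 2 + 6 * β ^ 2 / (11 * μ) ≤ X3)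
    (hμ' : μ' = W * exp (-κ) * d) (hμ2' : 9 ≤ μ') (hX4 : e4 + κ / 2 ≤ X4)
    (hσ : σ < 19 / 4 + π) (hσ' : σ' < 19 / 4 + π)
    (h1 : ∀ s, |s| ≤ 1 → f s ≤ A * exp w * exp (-(d * den / 2) * s ^ 2))
    (h2 : ∀ s, 1 ≤ |s| → |s| ≤ 19 / 4 → f s ≤ mid)
    (h3 : ∀ s, 19 / 4 ≤ s → f s ≤ exp e3 * gQ β μ (s - σ))
    (h4 : ∀ s, 19 / 4 ≤ s → f (-s) ≤ exp e4 * gQ 1 μ' (s - σ')) :
    ∫ s, f s ≤ (M * exp w + m + kW * exp X3 + 5 / 4 * kW * exp X4) * sg d D := by
  have i0 := split_le hf (T := 19 / 4) (by positivity : 0 ≤ A * exp w)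
    (by positivity : 0 < d * den / 2) hE0 (by norm_num) (exp_pos e3).le (exp_pos e4).le
    (by linarith : 0 < β) one_pos (by linarith : 0 ≤ μ) (by linarith : 0 ≤ μ') hσ hσ' h1 h2 h3 h4
  have i1 := core_bd hd hD hden hA hM (exp_pos w).le hMM
  have i2 := mid_bd hd hD hq hk0 hk hν hm hdD hmid
  have i3 := right_bd hW hD hd hμ hβ hμ2 hβμ hkW hX3
  have i4 := left_bd hW hD hd hμ' hμ2' hkW (e := e4) (X := X4) (by linarith)
  linarith

end SokalP2O
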