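import Pool.Agent.Lib_MP_af4de1_v3.V3

/-!
# `P2.pair`: the two saddle points are far apart (`N = 2`, `ρ ≥ 3.2`)

`x₁ - x₀ = π - (ψ₀ - ψ₁)` exactly; the projection of `K₀ - K₁` on the direction of `K'(0)`, which is `(-ρ, 1)/√R`, is
`(ρ (x₁ - x₀) + y₀ - y₁)/√R = ρ (π - (ψ₀ - y₀/ρ) + (ψ₁ - y₁/ρ))/√R`. Right: `-ψ₁ ≤ -y₁/ρ`. Left: `y₀ ≤ .635`, from a lower
bound of `sE ρ (127/200)`, and then `ψ₀ - y₀/ρ ≤ (y₀/ρ) (1.026 e^(y₀) - 1) ≤ .186 < .06 π`.
-/

set_option autoImplicit false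

namespace SokalV3

open Complex SokalU SokalF1 SokalF1S SokalF1M

private theorem exp_lo : (1887 / 1000 : ℝ) ≤ Real.exp (127 / 200) := by
  have h := Real.sum_le_exp_of_nonneg (x := 127 / 200) (by norm_num) 9
  refine le_trans ?_ h
  norm_num [Finset.sum_range_succ, Nat.factorial]

private theorem exp_hi : Real.exp (127 / 200) ≤ 18871 / 10000 := by
  have h := Real.exp_bound' (x := 127 / 200) (by norm_num) (by norm_num) (n := 9) (by norm_num)
  refine h.trans ?_
  norm_num [Finset.sum_range_succ, Nat.factorial]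

/-- lower bound of the angle of `y = .635` -/
private theorem sE_ge {ρ : ℝ} (hρ : 16 / 5 ≤ ρ) : ρ * (47 / 100) + (157 / 100) / ρ ≤ sE ρ (127 / 200) := by
  have hρ0 : 0 < ρ := by linarith
  have a1 := exp_lo
  have a2 := exp_hi
  have he := Real.exp_pos (127 / 200 : ℝ)
  have hee : Real.exp (127 / 200 : ℝ) * Real.exp (-(127 / 200)) = 1 := by rw [← Real.exp_add]; simp
  have hen := Real.exp_pos (-(127 / 200) : ℝ)
  have hdom : Dom ρ (127 / 200) := by
    refine ⟨hρ0, ?_⟩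
    rw [abs_of_pos (by norm_num)]
    linarith
  have hn1 : Real.exp (-(127 / 200) : ℝ) ≤ 53 / 100 := by nlinarith
  have hn2 : 26 / 50 ≤ Real.exp (-(127 / 200) : ℝ) := by nlinarith
  -- `ψ`
  have hs : 127 / 200 * Real.exp (127 / 200) / ρ ≤ sP ρ (127 / 200) := by
    unfold sP
    have hs0 : 0 ≤ 127 / 200 * Real.exp (127 / 200) / ρ := by positivity
    have hs1 : 127 / 200 * Real.exp (127 / 200) / ρ ≤ 1 := by
      rw [div_le_one hρ0]
      linarith
    rw [Real.le_arcsin_iff_sin_le' ⟨by linarith [Real.pi_pos], by linarith [Real.pi_gt_three]⟩]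
    exact Real.sin_le hs0
  -- `x`
  set m := ρ * Real.exp (-(127 / 200)) with hm
  have hm0 : 0 < m := by positivity
  have hm1 : 1 ≤ m := by nlinarith
  have hx : sx ρ (127 / 200) ≤ m - (127 / 200) ^ 2 / (2 * m) := by
    have h1 := sx_sq hdom
    rw [← hm] at h1
    have h2 : (m - (127 / 200) ^ 2 / (2 * m)) ^ 2 = m ^ 2 - (127 / 200) ^ 2 + ((127 / 200) ^ 2 / (2 * m)) ^ 2 := by
      field_simp
      ring
    have h3 : 0 ≤ m - (127 / 200) ^ 2 / (2 * m) := by
      have : (127 / 200 : ℝ) ^ 2 / (2 * m) ≤ 1 := by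
        rw [div_le_one (by positivity)]
        nlinarith
      linarith
    refine (abs_le_of_sq_le_sq' ?_ h3).2
    rw [h1, h2]
    linarith [sq_nonneg ((127 / 200 : ℝ) ^ 2 / (2 * m))]
  have hm2 : (127 / 200 : ℝ) ^ 2 / (2 * m) = (127 / 200) ^ 2 / 2 * Real.exp (127 / 200) / ρ := by
    rw [hm, div_eq_div_iff (by positivity) (by positivity)]
    linear_combination (-((127 / 200 : ℝ) ^ 2 * ρ)) * hee
  have hfin : (157 / 100) / ρ ≤ 127 / 200 * Real.exp (127 / 200) / ρ + (127 / 200) ^ 2 / 2 * Real.exp (127 / 200) / ρ := by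
    rw [← add_div]
    refine div_le_div_of_nonneg_right ?_ hρ0.le
    linarith
  have hfin2 : ρ * (47 / 100) ≤ ρ - m := by
    rw [hm]
    nlinarith
  unfold sE
  rw [hm2] at hx
  linarith

/-- the left angle -/
private theorem left_le {ρ y : ℝ} (hρ : 16 / 5 ≤ ρ) (h0 : 0 ≤ y) (hy : y ≤ 127 / 200) :
    sP ρ y - y / ρ ≤ 47 / 250 := by
  have hρ0 : 0 < ρ := by linarith
  have a2 := exp_hi
  have he := Real.exp_pos y
  have he1 : Real.exp y ≤ 18871 / 10000 := (Real.exp_le_exp.2 hy).trans a2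
  have hq : y / ρ ≤ 127 / 640 := by
    rw [div_le_iff₀ hρ0]
    nlinarith
  have hq0 : 0 ≤ y / ρ := by positivity
  set s := y * Real.exp y / ρ with hs
  have hs' : s = y / ρ * Real.exp y := by rw [hs]; ring
  have hs0 : 0 ≤ s := by positivity
  have hs1 : s ≤ 375 / 1000 := by
    rw [hs']
    nlinarith
  have h1 : sP ρ y ≤ 1026 / 1000 * s := by
    unfold sP
    rw [← hs, Real.arcsin_le_iff_le_sin' ⟨by linarith [Real.pi_pos], by linarith [Real.pi_gt_three]⟩]
    refine le_trans ?_ (Real.sin_ge_sub_cube (by positivity))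
    have h2 : s ^ 3 ≤ (375 / 1000) ^ 2 * s := by nlinarith [mul_nonneg hs0 (sub_nonneg.2 hs1), mul_nonneg hs0 (mul_nonneg hs0 (sub_nonneg.2 hs1))]
    nlinarith
  rw [hs'] at h1
  nlinarith

/-- the right angle -/
private theorem right_le {ρ n : ℝ} (hρ : 16 / 5 ≤ ρ) (h0 : 0 ≤ n) (hn : n ≤ 1) : -sP ρ (-n) ≤ n / ρ := by
  have hρ0 : 0 < ρ := by linarith
  have e1 : -sP ρ (-n) = Real.arcsin (n * Real.exp (-n) / ρ) := by
    unfold sP
    rw [← Real.arcsin_neg]
    congr 1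
    ring
  have hq0 : 0 ≤ n / ρ := by positivity
  have hq : n / ρ ≤ n / 3 := div_le_div_of_nonneg_left h0 (by norm_num) (by linarith)
  rw [e1, Real.arcsin_le_iff_le_sin' ⟨by linarith [Real.pi_pos], by linarith [Real.pi_gt_three]⟩]
  refine le_trans ?_ (Real.sin_ge_sub_cube hq0)
  have h1 : Real.exp (-n) ≤ 1 - (n / ρ) ^ 2 / 6 := by
    have h2 : Real.exp (-n) ≤ 1 / (1 + n) := by
      rw [Real.exp_neg, inv_eq_one_div]
      exact one_div_le_one_div_of_le (by linarith) (by linarith [Real.add_one_le_exp n])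
    refine h2.trans ?_
    have h3 : (n / ρ) ^ 2 ≤ n ^ 2 / 9 := by
      calc (n / ρ) ^ 2 ≤ (n / 3) ^ 2 := pow_le_pow_left₀ hq0 hq 2
        _ = n ^ 2 / 9 := by ring
    rw [div_le_iff₀ (by linarith)]
    nlinarith [mul_nonneg h0 (sub_nonneg.2 hn), mul_nonneg h0 (mul_nonneg h0 (sub_nonneg.2 hn))]
  have h4 : n * Real.exp (-n) / ρ = n / ρ * Real.exp (-n) := by ring
  rw [h4]
  calc n / ρ * Real.exp (-n) ≤ n / ρ * (1 - (n / ρ) ^ 2 / 6) := mul_le_mul_of_nonneg_left h1 hq0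
    _ = n / ρ - (n / ρ) ^ 3 / 6 := by ring

private theorem hst2 : hst 2 = Real.pi := by
  unfold hst
  push_cast
  ring

/-- the end of the window is before the angle of `y = .635` -/
private theorem eo2_lt {r δ : ℝ} (h : Reg2 r δ) : eo2 r δ < sE (r * δ) (127 / 200) := by
  have hr := h.r0
  have hρ := h.rho
  refine lt_of_lt_of_le ?_ (sE_ge hρ)
  set ρ := r * δ with hρd
  have hρ0 : 0 < ρ := by linarith
  have hp3 := Real.pi_gt_d4
  have hp4 := Real.pi_lt_d4
  have hq0 : 0 < 157 / 100 / ρ := by positivity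
  have hR : 0 < RR r δ := by unfold RR; positivity
  have hRe : RR r δ = 1 + ρ ^ 2 := rfl
  unfold eo2 om2
  rw [hst2]
  have hG : Gm 2 r δ = r * Real.pi ^ 2 / RR r δ := by unfold Gm; rw [hst2]
  have hpp : (98 / 10 : ℝ) ≤ Real.pi ^ 2 := by nlinarith
  have hrp : (499 / 10) * (98 / 10) ≤ r * Real.pi ^ 2 := by nlinarith
  split_ifs with h1 h2
  · have h3 : 48 < RR r δ := by
      rw [hG, div_lt_iff₀ hR] at h1
      linarith
    rw [hRe] at h3
    have h4 : 13 / 2 ≤ ρ := by nlinarith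
    nlinarith
  · have h3 : 24 < RR r δ := by
      rw [hG, div_lt_iff₀ hR] at h2
      linarith
    rw [hRe] at h3
    have h4 : 47 / 10 ≤ ρ := by nlinarith
    nlinarith
  · have h5 : (189 / 100 : ℝ) ≤ ρ * (47 / 100) + 157 / 100 / ρ := by
      rw [← sub_nonneg]
      have : ρ * (47 / 100) + 157 / 100 / ρ - 189 / 100 = (ρ ^ 2 * (47 / 100) + 157 / 100 - 189 / 100 * ρ) / ρ := by
        field_simp
      rw [this]
      exact div_nonneg (by nlinarith) hρ0.le
    linarith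

/-- **P2.pair** -/
theorem p2_pair_proj (r δ y0 y1 η : ℝ) (h : Reg2 r δ) (h0 : At r δ y0 η) (h1 : At r δ y1 (η - hst 2))
    (he1 : ei2 r δ ≤ η) (he2 : η ≤ eo2 r δ) : 47 / 50 * HH 2 r δ ≤ ‖kap r δ y0 - kap r δ y1‖ := by
  have hρ := h.rho
  have hδ := h.d0
  have hr : 0 < r := by linarith [h.r0]
  have hρ0 : 0 < r * δ := by linarith
  have hpi := Real.pi_pos
  have hp4 := Real.pi_gt_d4
  -- window
  have hom : 0 ≤ om2 r δ ∧ om2 r δ ≤ 17 / 100 := by
    unfold om2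
    split_ifs <;> norm_num
  have hei : 0 < ei2 r δ := by
    unfold ei2
    rw [hst2]
    have : 0 < 1 / 2 - om2 r δ := by linarith [hom.2]
    positivity
  have heo : eo2 r δ < Real.pi := by
    unfold eo2
    rw [hst2]
    nlinarith [hom.2]
  rw [hst2] at h1
  -- `0 ≤ y0 ≤ .635`
  have hy0 : 0 ≤ y0 := by
    by_contra hn
    have hn' : y0 < 0 := not_le.1 hn
    have := sE_strictMonoOn h0.dom (dom_zero hρ0) h0.y1.le ⟨le_rfl, hn'.le⟩ ⟨hn'.le, le_rfl⟩ hn'
    rw [sE_zero hρ0, h0.eta] at this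
    linarith
  have hy0' : y0 ≤ 127 / 200 := by
    by_contra hn
    have hn' : 127 / 200 < y0 := not_le.1 hn
    have hd : Dom (r * δ) (127 / 200) := by
      refine ⟨hρ0, ?_⟩
      rw [abs_of_pos (by norm_num)]
      linarith [exp_hi]
    have := sE_strictMonoOn hd h0.dom (by norm_num) ⟨le_rfl, hn'.le⟩ ⟨hn'.le, le_rfl⟩ hn'
    rw [h0.eta] at this
    linarith [eo2_lt h]
  -- `-1 < y1 ≤ 0`
  have hy1 : y1 ≤ 0 := by
    by_contra hn
    have hn' : 0 < y1 := not_le.1 hn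
    have := sE_strictMonoOn (dom_zero hρ0) h1.dom (by norm_num) ⟨le_rfl, hn'.le⟩ ⟨hn'.le, le_rfl⟩ hn'
    rw [sE_zero hρ0, h1.eta] at this
    linarith
  have hL := left_le hρ hy0 hy0'
  have hRt := right_le (n := -y1) hρ (by linarith) (by linarith [h1.y1])
  rw [neg_neg] at hRt
  -- the exact difference
  have hx : sx (r * δ) y1 - sx (r * δ) y0 = Real.pi - (sP (r * δ) y0 - sP (r * δ) y1) := by
    have e0 := h0.eta
    have e1 := h1.eta
    unfold sE at e0 e1
    linarith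
  have hR : 0 < RR r δ := by unfold RR; positivity
  have hsR : 0 < √(RR r δ) := Real.sqrt_pos.2 hR
  have hsR2 : √(RR r δ) ^ 2 = 1 + (r * δ) ^ 2 := by rw [Real.sq_sqrt hR.le]; rfl
  -- projection
  set X := sx (r * δ) y1 - sx (r * δ) y0 with hX
  set Y := y0 - y1 with hY
  have hkey : 47 / 50 * Real.pi * (r * δ) ≤ (r * δ) * X + Y := by
    have e1 : (r * δ) * X + Y = (r * δ) * (Real.pi - (sP (r * δ) y0 - y0 / (r * δ)) + (sP (r * δ) y1 - y1 / (r * δ))) := by
      rw [hx, hY]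
      field_simp
      ring
    rw [e1]
    have e2 : -y1 / (r * δ) = -(y1 / (r * δ)) := neg_div _ _
    rw [e2] at hRt
    nlinarith
  have hnorm : ‖sK (r * δ) y0 - sK (r * δ) y1‖ ^ 2 = X ^ 2 + Y ^ 2 := by
    rw [Complex.sq_norm, Complex.normSq_apply]
    unfold sK
    simp only [Complex.sub_re, Complex.add_re, Complex.ofReal_re, Complex.mul_re, Complex.I_re, mul_zero,
      Complex.ofReal_im, Complex.I_im, mul_one, sub_self, add_zero, Complex.sub_im, Complex.add_im, Complex.mul_im,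
      zero_add]
    rw [hX, hY]
    ring
  have hCS : (r * δ) * X + Y ≤ √(RR r δ) * ‖sK (r * δ) y0 - sK (r * δ) y1‖ := by
    refine (abs_le_of_sq_le_sq' ?_ (by positivity)).2
    rw [mul_pow, hsR2, hnorm]
    nlinarith [sq_nonneg (X - (r * δ) * Y)]
  have hk : kap r δ y0 - kap r δ y1 = (sK (r * δ) y0 - sK (r * δ) y1) / (δ : ℂ) := by
    unfold kap
    ring
  rw [hk, norm_div, Complex.norm_real, Real.norm_of_nonneg hδ.le, le_div_iff₀ hδ]
  unfold HH
  rw [hst2]
  have e3 : 47 / 50 * (r * Real.pi / √(RR r δ)) * δ = 47 / 50 * Real.pi * (r * δ) / √(RR r δ) := by ring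
  rw [e3, div_le_iff₀ hsR]
  linarith

end SokalV3
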