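import Pool.Agent.Lib_MP_af4de1_v3.V3
import Pool.Agent.Lib_MP_af4de1_f1.Zero

/-!
# PIECE `δ = 0`
-/

set_option autoImplicit false

namespace SokalV3

open SokalF1

theorem pRoot : PRoot := fun _ _ h1 h2 h3 => waveU_root h1 h2 h3

end SokalV3
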