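import Pool.Agent.Lib_MP_af4de1_v3.CelOkE
import Pool.Agent.Lib_MP_af4de1_v3.CelTreeN

/-!
# Kernel run, field `e`, right, class A, chart `c` (helper4)
-/

set_option autoImplicit false

namespace SokalCel

def rEAc2t : BT := (.Y (.Z .L .L) (.Y (.X .L (.Z .L .L)) (.Y (.X .L (.Z .L (.X .L (.X .L .L))))
  (.Z (.X .L (.X .L .L)) (.Y (.X .L (.X (.Z .L .L) .L)) .L)))))
theorem rEAc2 : bisT (okE pRA 824633720832 824633720832 5937362789990 3665039 122167959 1570732 true) rEAc2t 0 384829069722 0 2512274118306 412316860416 618475290624 = true := by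
  decide +kernel

def rEAc4t : BT := (.Y (.X .L (.Z .L .L)) (.Y (.X .L (.X (.Z .L .L) (.Z .L (.X .L (.Y .L .L)))))
  (.Y (.X (.Y .L (.Z .L (.Y .L (.Z .L .L)))) (.X (.Z .L (.X (.Y .L (.Y .L (.Z .L .L))) (.Y .L
  .L))) (.X .L .L))) (.Y (.Y (.Z (.X .L (.X (.Z .L .L) .L)) .L) .L) .L))))
theorem rEAc4 : bisT (okE pRA 824633720832 824633720832 5937362789990 3665039 122167959 1570732 true) rEAc4t 0 384829069722 0 2512274118306 618475290624 721554505728 = true := by
  decide +kernel

def rEAc6t : BT := (.X (.Z .L .L) (.X (.Z .L (.X .L (.Z .L .L))) (.Y (.Z .L .L) (.X (.Z .L (.Z .L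
  (.Z .L .L))) (.Z .L (.X (.Z .L (.Z .L .L)) (.Z .L (.Y .L (.Z .L (.X .L .L))))))))))
theorem rEAc6 : bisT (okE pRA 824633720832 824633720832 5937362789990 3665039 122167959 1570732 true) rEAc6t 0 384829069722 0 1256137059153 721554505728 824633720832 = true := by
  decide +kernel

def rEAc7t : BT := (.Y (.X (.X .L (.Z .L (.X .L (.Z .L .L)))) (.X (.X (.Z .L (.Z .L (.Y .L (.X .L
  (.Y .L (.Y .L .L)))))) (.Y (.Z .L (.Z .L (.X .L (.X .L .L)))) (.X (.Z .L (.Z .L (.Y (.X .L .L)
  .L))) (.Y (.Z .L .L) .L)))) (.Y (.Y (.X (.Z .L (.Z .L (.Z .L (.X .L (.X .L .L))))) (.X (.Z .L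
  .L) .L)) (.X (.X (.Z .L (.Z .L .L)) .L) .L)) (.X (.X .L .L) .L)))) (.Y (.Y (.Z (.X (.Y .L (.Z .L
  .L)) (.X (.X (.Y .L (.Z .L .L)) .L) .L)) .L) .L) .L))
theorem rEAc7 : bisT (okE pRA 824633720832 824633720832 5937362789990 3665039 122167959 1570732 true) rEAc7t 0 384829069722 1256137059153 2512274118306 721554505728 824633720832 = true := by
  decide +kernel

def rEAc5t : BT := BT.Y rEAc6t rEAc7t
theorem rEAc5 : bisT (okE pRA 824633720832 824633720832 5937362789990 3665039 122167959 1570732 true) rEAc5t 0 384829069722 0 2512274118306 721554505728 824633720832 = true :=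
  bisT_Y 1256137059153 rEAc6 rEAc7 rfl

def rEAc3t : BT := BT.Z rEAc4t rEAc5t
theorem rEAc3 : bisT (okE pRA 824633720832 824633720832 5937362789990 3665039 122167959 1570732 true) rEAc3t 0 384829069722 0 2512274118306 618475290624 824633720832 = true :=
  bisT_Z 721554505728 rEAc4 rEAc5 rfl

def rEAc1t : BT := BT.Z rEAc2t rEAc3t
theorem rEAc1 : bisT (okE pRA 824633720832 824633720832 5937362789990 3665039 122167959 1570732 true) rEAc1t 0 384829069722 0 2512274118306 412316860416 824633720832 = true :=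
  bisT_Z 618475290624 rEAc2 rEAc3 rfl

def rEAc9t : BT := (.Y (.X (.Z .L (.X .L .L)) (.Z .L (.X .L (.X .L .L)))) (.X (.Y (.Z .L (.X (.X
  .L .L) .L)) (.Y (.X .L .L) (.Y (.X .L .L) (.Z .L .L)))) (.Y (.X .L .L) (.Y .L (.Y .L (.Z .L
  .L))))))
theorem rEAc9 : bisT (okE pRA 824633720832 824633720832 5937362789990 3665039 122167959 1570732 true) rEAc9t 384829069722 769658139444 0 2512274118306 412316860416 618475290624 = true := by
  decide +kernel

def rEAc12t : BT := (.X (.X (.Z .L (.X .L .L)) (.Z .L (.X .L (.X .L .L)))) (.Y (.Z .L (.X .L .L))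
  (.X (.Y (.Z .L (.X .L .L)) .L) (.Y (.Y (.Z .L (.X .L .L)) .L) .L))))
theorem rEAc12 : bisT (okE pRA 824633720832 824633720832 5937362789990 3665039 122167959 1570732 true) rEAc12t 384829069722 769658139444 0 1256137059153 618475290624 721554505728 = true := by
  decide +kernel

def rEAc14t : BT := (.X (.Y (.Z .L (.X .L .L)) (.X (.Y (.Z .L (.Z .L (.X .L .L))) (.Y (.Z .L (.Z
  .L (.Z .L (.X .L .L)))) (.X (.Z .L .L) .L))) (.Y (.Z .L (.Z .L (.X .L (.X .L .L)))) (.Y (.Y (.Z
  .L (.Z .L .L)) .L) .L)))) (.Z (.Y .L (.Y (.Z .L (.X .L .L)) (.X .L .L))) (.Y (.Z .L (.X .L .L))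
  (.X (.Y (.X (.Z .L (.Z .L .L)) (.Z .L (.Z .L (.X .L .L)))) .L) (.Y (.Y (.Z .L (.X .L (.X .L
  .L))) (.X .L .L)) .L)))))
theorem rEAc14 : bisT (okE pRA 824633720832 824633720832 5937362789990 3665039 122167959 1570732 true) rEAc14t 384829069722 577243604583 0 1256137059153 721554505728 824633720832 = true := by
  decide +kernel

def rEAc15t : BT := (.X (.Y (.X (.Z .L (.Z .L (.X .L .L))) (.Z .L (.Z .L (.X .L .L)))) (.Y (.Y (.Z
  (.Z .L (.X .L .L)) (.X (.X (.Z .L (.Y .L .L)) (.Y (.Z .L .L) .L)) (.Y (.X (.Y (.Z .L .L) .L) (.X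
  .L .L)) .L))) (.X .L .L)) .L)) (.Y (.X (.Z .L (.Z .L (.X .L (.X .L .L)))) (.X (.Z .L (.Z .L (.X
  .L .L))) (.Z .L (.Y .L (.Z .L (.X .L .L)))))) (.Y (.X (.Y (.Y (.X (.Z .L .L) .L) .L) .L) (.Z .L
  .L)) .L)))
theorem rEAc15 : bisT (okE pRA 824633720832 824633720832 5937362789990 3665039 122167959 1570732 true) rEAc15t 577243604583 769658139444 0 1256137059153 721554505728 824633720832 = true := by
  decide +kernel

def rEAc13t : BT := BT.X rEAc14t rEAc15t
theorem rEAc13 : bisT (okE pRA 824633720832 824633720832 5937362789990 3665039 122167959 1570732 true) rEAc13t 384829069722 769658139444 0 1256137059153 721554505728 824633720832 = true :=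
  bisT_X 577243604583 rEAc14 rEAc15 rfl

def rEAc11t : BT := BT.Z rEAc12t rEAc13t
theorem rEAc11 : bisT (okE pRA 824633720832 824633720832 5937362789990 3665039 122167959 1570732 true) rEAc11t 384829069722 769658139444 0 1256137059153 618475290624 824633720832 = true :=
  bisT_Z 721554505728 rEAc12 rEAc13 rfl

def rEAc16t : BT := (.Y (.X (.X (.Y (.X (.Z .L .L) .L) .L) (.Y .L .L)) (.X (.X .L .L) (.X .L .L)))
  (.Y (.Z (.X (.X .L .L) (.X .L .L)) (.Y (.Z (.X .L .L) .L) .L)) (.Y (.Y (.Z (.Z (.X .L .L) .L)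
  .L) .L) .L)))
theorem rEAc16 : bisT (okE pRA 824633720832 824633720832 5937362789990 3665039 122167959 1570732 true) rEAc16t 384829069722 769658139444 1256137059153 2512274118306 618475290624 824633720832 = true := by
  decide +kernel

def rEAc10t : BT := BT.Y rEAc11t rEAc16t
theorem rEAc10 : bisT (okE pRA 824633720832 824633720832 5937362789990 3665039 122167959 1570732 true) rEAc10t 384829069722 769658139444 0 2512274118306 618475290624 824633720832 = true :=
  bisT_Y 1256137059153 rEAc11 rEAc16 rfl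

def rEAc8t : BT := BT.Z rEAc9t rEAc10t
theorem rEAc8 : bisT (okE pRA 824633720832 824633720832 5937362789990 3665039 122167959 1570732 true) rEAc8t 384829069722 769658139444 0 2512274118306 412316860416 824633720832 = true :=
  bisT_Z 618475290624 rEAc9 rEAc10 rfl

def rEAc0t : BT := BT.X rEAc1t rEAc8t
theorem rEAc0 : bisT (okE pRA 824633720832 824633720832 5937362789990 3665039 122167959 1570732 true) rEAc0t 0 769658139444 0 2512274118306 412316860416 824633720832 = true :=
  bisT_X 384829069722 rEAc1 rEAc8 rfl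

theorem rEAc : bisT (okE pRA 824633720832 824633720832 5937362789990 3665039 122167959 1570732 true) rEAc0t 0 769658139444 0 2512274118306 412316860416 824633720832 = true := rEAc0

end SokalCel
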