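import Pool.Agent.Lib_MP_af4de1_v3.CelOkE
import Pool.Agent.Lib_MP_af4de1_v3.CelTreeN

/-!
# Kernel run, field `e`, right, class A, chart `ν` (helper4)
-/

set_option autoImplicit false

namespace SokalCel

def rEAn3t : BT := (.X (.Z .L .L) (.Z .L (.X .L (.X .L .L))))
theorem rEAn3 : bisT (okE pRA 824633720832 824633720832 5937362789990 3665039 122167959 1570732 false) rEAn3t 0 791648371999 0 628068529576 412316860416 618475290624 = true := by
  decide +kernel

def rEAn5t : BT := (.X (.X (.X .L .L) (.Z .L (.X .L .L))) (.X (.Z .L (.X .L .L)) (.X (.Z .L (.X .L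
  .L)) (.Z .L (.X .L .L)))))
theorem rEAn5 : bisT (okE pRA 824633720832 824633720832 5937362789990 3665039 122167959 1570732 false) rEAn5t 0 791648371999 0 628068529576 618475290624 721554505728 = true := by
  decide +kernel

def rEAn7t : BT := (.X (.X (.Z .L .L) (.X (.Z .L .L) (.Z .L (.X .L .L)))) (.X (.X (.Z .L (.X .L
  .L)) (.X (.Z .L .L) (.Z .L .L))) (.X (.X (.Z .L .L) (.X .L .L)) (.X (.X .L .L) (.X .L .L)))))
theorem rEAn7 : bisT (okE pRA 824633720832 824633720832 5937362789990 3665039 122167959 1570732 false) rEAn7t 0 791648371999 0 628068529576 721554505728 773094113280 = true := by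
  decide +kernel

def rEAn9t : BT := (.Y (.X .L (.X (.X .L .L) (.X .L .L))) (.Y (.X (.X .L (.Z .L .L)) (.X (.Y (.Z
  .L .L) .L) (.X (.Y (.X .L .L) .L) (.Z .L (.X .L .L))))) .L))
theorem rEAn9 : bisT (okE pRA 824633720832 824633720832 5937362789990 3665039 122167959 1570732 false) rEAn9t 0 395824185999 0 628068529576 773094113280 824633720832 = true := by
  decide +kernel

def rEAn10t : BT := (.X (.X (.Y (.X .L .L) (.Y (.X (.Z .L (.X .L .L)) (.Z .L (.X .L .L))) .L)) (.X
  (.Y .L (.Y (.Z .L (.X .L .L)) .L)) (.Y .L (.Y (.Z .L (.X .L .L)) .L)))) (.X (.Y (.X .L .L) (.Y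
  (.X (.Z .L (.X .L .L)) (.Z .L (.X .L .L))) (.Y (.X .L (.X .L (.Z .L .L))) .L))) (.Z (.X (.X .L
  .L) (.X .L .L)) (.Y (.X .L .L) (.Y (.X (.X .L .L) (.X .L .L)) (.X (.Y (.X (.X .L .L) .L) .L) (.Y
  (.X .L .L) .L)))))))
theorem rEAn10 : bisT (okE pRA 824633720832 824633720832 5937362789990 3665039 122167959 1570732 false) rEAn10t 395824185999 791648371999 0 628068529576 773094113280 824633720832 = true := by
  decide +kernel

def rEAn8t : BT := BT.X rEAn9t rEAn10t
theorem rEAn8 : bisT (okE pRA 824633720832 824633720832 5937362789990 3665039 122167959 1570732 false) rEAn8t 0 791648371999 0 628068529576 773094113280 824633720832 = true :=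
  bisT_X 395824185999 rEAn9 rEAn10 rfl

def rEAn6t : BT := BT.Z rEAn7t rEAn8t
theorem rEAn6 : bisT (okE pRA 824633720832 824633720832 5937362789990 3665039 122167959 1570732 false) rEAn6t 0 791648371999 0 628068529576 721554505728 824633720832 = true :=
  bisT_Z 773094113280 rEAn7 rEAn8 rfl

def rEAn4t : BT := BT.Z rEAn5t rEAn6t
theorem rEAn4 : bisT (okE pRA 824633720832 824633720832 5937362789990 3665039 122167959 1570732 false) rEAn4t 0 791648371999 0 628068529576 618475290624 824633720832 = true :=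
  bisT_Z 721554505728 rEAn5 rEAn6 rfl

def rEAn2t : BT := BT.Z rEAn3t rEAn4t
theorem rEAn2 : bisT (okE pRA 824633720832 824633720832 5937362789990 3665039 122167959 1570732 false) rEAn2t 0 791648371999 0 628068529576 412316860416 824633720832 = true :=
  bisT_Z 618475290624 rEAn3 rEAn4 rfl

def rEAn11t : BT := (.X (.Y (.Z .L .L) .L) (.X (.Y (.Z (.Z .L .L) (.X .L .L)) (.X .L .L)) (.Y (.Z
  (.Z .L (.X .L .L)) (.X (.X .L .L) (.X (.Z .L .L) (.Y (.Z .L .L) .L)))) (.Z .L (.X .L .L)))))
theorem rEAn11 : bisT (okE pRA 824633720832 824633720832 5937362789990 3665039 122167959 1570732 false) rEAn11t 0 791648371999 628068529576 1256137059153 412316860416 824633720832 = true := by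
  decide +kernel

def rEAn1t : BT := BT.Y rEAn2t rEAn11t
theorem rEAn1 : bisT (okE pRA 824633720832 824633720832 5937362789990 3665039 122167959 1570732 false) rEAn1t 0 791648371999 0 1256137059153 412316860416 824633720832 = true :=
  bisT_Y 628068529576 rEAn2 rEAn11 rfl

def rEAn12t : BT := (.X (.Y (.X .L .L) (.Z (.Y .L (.Z .L .L)) .L)) (.X (.Y (.Y .L .L) (.Z (.Y .L
  (.Z .L .L)) .L)) (.Y (.Z .L (.Y .L .L)) (.Y (.Z .L (.X (.Y (.Z .L .L) .L) (.Z .L (.Y .L .L))))
  (.Z (.Y .L (.Z .L .L)) (.X .L (.Y (.Z (.Z .L .L) .L) .L)))))))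
theorem rEAn12 : bisT (okE pRA 824633720832 824633720832 5937362789990 3665039 122167959 1570732 false) rEAn12t 0 791648371999 1256137059153 2512274118306 412316860416 824633720832 = true := by
  decide +kernel

def rEAn0t : BT := BT.Y rEAn1t rEAn12t
theorem rEAn0 : bisT (okE pRA 824633720832 824633720832 5937362789990 3665039 122167959 1570732 false) rEAn0t 0 791648371999 0 2512274118306 412316860416 824633720832 = true :=
  bisT_Y 1256137059153 rEAn1 rEAn12 rfl

theorem rEAn : bisT (okE pRA 824633720832 824633720832 5937362789990 3665039 122167959 1570732 false) rEAn0t 0 791648371999 0 2512274118306 412316860416 824633720832 = true := rEAn0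

end SokalCel
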