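import Pool.Agent.Lib_MP_af4de1_v3.CelOkE
import Pool.Agent.Lib_MP_af4de1_v3.CelTreeN

/-!
# Kernel run, field `e`, right, class B, chart `c` (helper4)
-/

set_option autoImplicit false

namespace SokalCel

def rEBc0t : BT := (.Y (.X (.Z .L .L) (.X (.Z .L (.Z .L .L)) (.Z .L (.Z .L (.X .L (.X .L .L))))))
  (.Y (.X (.Z .L (.X .L (.Z .L .L))) (.X (.Z .L (.X (.Y (.X .L .L) .L) (.X .L .L))) (.X (.Z .L (.X
  .L .L)) (.Z .L .L)))) (.Y (.Z (.X .L (.X (.X .L .L) .L)) (.Z (.X .L (.X (.X .L .L) (.X .L .L)))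
  (.Y (.Z (.X .L (.X .L .L)) .L) .L))) (.Z (.X (.X .L (.Z .L .L)) (.X (.X .L .L) (.X .L .L))) (.Y
  (.Z (.Z (.X .L (.X .L .L)) .L) .L) .L)))))
theorem rEBc0 : bisT (okE pRB 714682558054 714682558055 10995116277760 4398047 233938645 1570732 true) rEBc0t 0 769658139444 0 2607052020620 357341279027 714682558055 = true := by
  decide +kernel

theorem rEBc : bisT (okE pRB 714682558054 714682558055 10995116277760 4398047 233938645 1570732 true) rEBc0t 0 769658139444 0 2607052020620 357341279027 714682558055 = true := rEBc0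

end SokalCel
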