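import Pool.Agent.Lib_MP_af4de1_v3.CelOkE
import Pool.Agent.Lib_MP_af4de1_v3.CelTreeN

/-!
# Kernel run, field `e`, right, class B, chart `ν` (helper4)
-/

set_option autoImplicit false

namespace SokalCel

def rEBn0t : BT := (.X (.Y (.Z .L (.Z .L (.Y .L .L))) (.Y .L (.Z (.Y .L (.Z .L .L)) .L))) (.Y (.Z
  (.X .L .L) (.Y (.Z .L (.X .L .L)) (.X (.X .L (.Y .L .L)) (.Y (.Z .L (.X .L .L)) .L)))) (.Y (.X
  .L (.X .L (.Y .L .L))) (.Y (.Z .L (.X .L (.Z (.X .L .L) .L))) (.Z (.Z .L (.X .L (.X .L .L)))
  .L)))))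
theorem rEBn0 : bisT (okE pRB 714682558054 714682558055 10995116277760 4398047 233938645 1570732 false) rEBn0t 0 791648371999 0 2607052020620 357341279027 714682558055 = true := by
  decide +kernel

theorem rEBn : bisT (okE pRB 714682558054 714682558055 10995116277760 4398047 233938645 1570732 false) rEBn0t 0 791648371999 0 2607052020620 357341279027 714682558055 = true := rEBn0

end SokalCel
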