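import Pool.Agent.Lib_MP_af4de1_v3.CelOkE
import Pool.Agent.Lib_MP_af4de1_v3.CelTreeN

/-!
# Kernel run, field `e`, right, class C, chart `c` (helper4)
-/

set_option autoImplicit false

namespace SokalCel

def rECc0t : BT := (.X (.Y .L (.Z .L (.Y .L (.Y .L .L)))) (.Y (.Z .L (.X .L .L)) (.Y (.X (.Z .L
  (.X .L .L)) (.Z .L (.Z .L (.Y .L .L)))) (.Y (.X (.Z .L (.Z (.X .L .L) .L)) (.Z .L (.Z (.X .L .L)
  .L))) (.Z (.X (.X .L (.X .L .L)) (.Y .L (.Z .L (.Y .L .L)))) .L)))))
theorem rECc0 : bisT (okE pRC 659706976665 659706976666 21990232555520 332052512 4178144186 65970698 true) rECc0t 0 769658139444 0 2657189750847 329853488332 659706976666 = true := by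
  decide +kernel

theorem rECc : bisT (okE pRC 659706976665 659706976666 21990232555520 332052512 4178144186 65970698 true) rECc0t 0 769658139444 0 2657189750847 329853488332 659706976666 = true := rECc0

end SokalCel
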