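import Pool.Agent.Lib_MP_af4de1_v3.CelOkE
import Pool.Agent.Lib_MP_af4de1_v3.CelTreeN

/-!
# Kernel run, field `e`, right, class C, chart `ν` (helper4)
-/

set_option autoImplicit false

namespace SokalCel

def rECn0t : BT := (.Y (.X (.Z .L .L) (.Z .L (.X .L (.X .L .L)))) (.Y (.X .L (.X (.Y .L .L) (.Z .L
  (.Y .L .L)))) (.Y (.Z (.Z .L (.X .L .L)) (.X .L (.X .L (.X .L (.Z .L .L))))) (.Z (.Z (.Y .L (.X
  .L .L)) (.X .L (.X .L (.Y .L (.Z .L .L))))) .L))))
theorem rECn0 : bisT (okE pRC 659706976665 659706976666 21990232555520 332052512 4178144186 65970698 false) rECn0t 0 791648371999 0 2657189750847 329853488332 659706976666 = true := by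
  decide +kernel

theorem rECn : bisT (okE pRC 659706976665 659706976666 21990232555520 332052512 4178144186 65970698 false) rECn0t 0 791648371999 0 2657189750847 329853488332 659706976666 = true := rECn0

end SokalCel
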