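import Pool.Agent.Lib_MP_af4de1_v3.CelRunE
import Pool.Agent.Lib_MP_af4de1_v3.RunEAc
import Pool.Agent.Lib_MP_af4de1_v3.RunEAn
import Pool.Agent.Lib_MP_af4de1_v3.RunEBc
import Pool.Agent.Lib_MP_af4de1_v3.RunEBn
import Pool.Agent.Lib_MP_af4de1_v3.RunECc
import Pool.Agent.Lib_MP_af4de1_v3.RunECn

/-!
# The runs of field `e`, right: `runE_A`, `runE_B`, `runE_C` (helper4)
-/

set_option autoImplicit false

namespace SokalCel

open SokalFN

theorem pRA_ok : pRA.Ok (5 / 4) (27 / 20) (6 / 5) (6 / 5) := by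
  refine ⟨?_, ?_, ?_, ?_, ?_, by norm_num, by norm_num⟩ <;>
    · unfold Mem fx pRA
      norm_num

theorem pRB_ok : pRB.Ok (5 / 4) (71 / 50) (13 / 10) (13 / 10) := by
  refine ⟨?_, ?_, ?_, ?_, ?_, by norm_num, by norm_num⟩ <;>
    · unfold Mem fx pRB
      norm_num

theorem pRC_ok : pRC.Ok (5 / 4) (33 / 20) (17 / 10) (17 / 10) := by
  refine ⟨?_, ?_, ?_, ?_, ?_, by norm_num, by norm_num⟩ <;>
    · unfold Mem fx pRC
      norm_num

theorem runE_A : RunE (27 / 20) (6 / 5) (6 / 5) (3 / 4) (27 / 5) (1 / 300000) (1 / 9000)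
    (1 / 700000) := by
  have h := Real.pi_lt_d4
  refine runE_of pRA_ok (by norm_num) ?_ (by norm_num) ?_ ?_ ?_ ?_ ?_ ?_ ?_ rEAc rEAn
  all_goals unfold fx
  all_goals norm_num at h ⊢
  linarith

theorem runE_B : RunE (71 / 50) (13 / 10) (13 / 10) (13 / 20) 10 (1 / 250000) (1 / 4700)
    (1 / 700000) := by
  have h := Real.pi_lt_d4
  refine runE_of pRB_ok (by norm_num) ?_ (by norm_num) ?_ ?_ ?_ ?_ ?_ ?_ ?_ rEBc rEBn
  all_goals unfold fx
  all_goals norm_num at h ⊢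
  linarith

theorem runE_C : RunE (33 / 20) (17 / 10) (17 / 10) (3 / 5) 20 (151 / 500000) (38 / 10000)
    (6 / 100000) := by
  have h := Real.pi_lt_d4
  refine runE_of pRC_ok (by norm_num) ?_ (by norm_num) ?_ ?_ ?_ ?_ ?_ ?_ ?_ rECc rECn
  all_goals unfold fx
  all_goals norm_num at h ⊢
  linarith

end SokalCel
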