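import Pool.Agent.Lib_MP_af4de1_v3.CelRunLG

/-!
# The left runs: constants (helper93)
-/

set_option autoImplicit false

namespace SokalCel

open SokalFN

/-- constants of the class `Γ < 10` -/
def PLA : Par := ⟨ic 5 4, ic 4 5, ic 11 10, ic 3 5, ic 1 1⟩

/-- constants of the classes `10 ≤ Γ` -/
def PLB : Par := ⟨ic 5 4, ic 4 5, ic 23 20, ic 3 5, ic 1 1⟩

theorem PLA_ok : PLA.Ok (5 / 4) (11 / 10) (6 / 5) 1 where
  hM := by exact_mod_cast Mem.const 5 4 (by norm_num)
  hN := by
    have h := Mem.const 4 5 (by norm_num)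
    norm_num at h ⊢
    exact h
  hq := by exact_mod_cast Mem.const 11 10 (by norm_num)
  hg := by
    have h := Mem.const 3 5 (by norm_num)
    norm_num at h ⊢
    exact h
  hk := by
    have h := Mem.const 1 1 (by norm_num)
    norm_num at h ⊢
    exact h
  pos := by norm_num
  le := by norm_num

theorem PLB_ok : PLB.Ok (5 / 4) (23 / 20) (6 / 5) 1 where
  hM := by exact_mod_cast Mem.const 5 4 (by norm_num)
  hN := by
    have h := Mem.const 4 5 (by norm_num)
    norm_num at h ⊢
    exact h
  hq := by exact_mod_cast Mem.const 23 20 (by norm_num)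
  hg := by
    have h := Mem.const 3 5 (by norm_num)
    norm_num at h ⊢
    exact h
  hk := by
    have h := Mem.const 1 1 (by norm_num)
    norm_num at h ⊢
    exact h
  pos := by norm_num
  le := by norm_num

/-- checker of `e`, `Γ < 10` -/
def chkLA (F1 F2 G : ℕ) (c n h u : I) : Bool :=
  chkL PLA 16492674416 F1 F2 3665039 122167959 1570731 G c n h u

/-- checker of `e`, `10 ≤ Γ < 20` -/
def chkLB (F1 F2 G : ℕ) (c n h u : I) : Bool :=
  chkL PLB 16492674416 F1 F2 4398047 233938645 1570731 G c n h u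

/-- checker of `e`, `20 ≤ Γ` -/
def chkLC (F1 F2 G : ℕ) (c n h u : I) : Bool :=
  chkL PLB 16492674416 F1 F2 122167959 1979120930 27487791 G c n h u

theorem chkLA_snd : SndL chkLA (11 / 10) (6 / 5) 1 (1 / 300000) (1 / 9000) (1 / 700000) :=
  sndL_of (r0 := 3665039) (rW := 122167959) (re := 1570731) PLA_ok (by norm_num)
    (by unfold fx; norm_num) (by unfold fx; norm_num) (by unfold fx; norm_num)

theorem chkLB_snd : SndL chkLB (23 / 20) (6 / 5) 1 (1 / 250000) (1 / 4700) (1 / 700000) :=
  sndL_of (r0 := 4398047) (rW := 233938645) (re := 1570731) PLB_ok (by norm_num)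
    (by unfold fx; norm_num) (by unfold fx; norm_num) (by unfold fx; norm_num)

theorem chkLC_snd : SndL chkLC (23 / 20) (6 / 5) 1 (1 / 9000) (18 / 10000) (1 / 40000) :=
  sndL_of (r0 := 122167959) (rW := 1979120930) (re := 27487791) PLB_ok (by norm_num)
    (by unfold fx; norm_num) (by unfold fx; norm_num) (by unfold fx; norm_num)

end SokalCel
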