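import Pool.Agent.Lib_MP_af4de1_v3.RunLE0

/-!
# The left runs of the fields `a`, `b`: constants (helper93)
-/

set_option autoImplicit false

namespace SokalCel

open SokalFN

/-- data of the run of `a` -/
def KLa : RnD where
  P := PLA
  G0 := 5937362789990
  H := 220343011579
  s0 := 3665039
  sW := 122167959
  se := 1570731
  F0 := 219902325555
  F1 := 219902325555
  F2 := 1099511627776

/-- data of the run of `b` -/
def KLb : RnD where
  P := PLA
  G0 := 5937362789990
  H := 220343011579
  s0 := 3665039
  sW := 122167959
  se := 1570731
  F0 := 87960930222
  F1 := 87960930222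
  F2 := 142936511610

end SokalCel
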