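import Pool.Agent.Lib_MP_af4de1_v3.RunLab0

/-!
# Left runs: tree tLac (helper93)
-/

set_option autoImplicit false

namespace SokalCel

def tLac1t : BT := (.Y (.X .L (.Y (.Z .L .L) (.Z (.X .L (.Y .L (.Z .L .L))) .L))) (.X (.Y .L (.Z
  .L .L)) (.Y (.Z (.X .L (.Y (.Z (.X .L .L) .L) .L)) (.X .L .L)) (.Z (.X (.Y (.Z .L .L) (.Z (.X .L
  .L) .L)) .L) (.X .L .L)))))
theorem tLac1 : bisT (okGC (celG KLa (chkK KLa))) tLac1t 0 384829069722 0 2303000000000 0 274877906944 = true := by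
  decide +kernel

def tLac2t : BT := (.Y (.X (.Y (.Z (.X .L (.Y .L (.Z .L .L))) .L) (.Z (.X (.Y (.Z .L .L) (.Z (.X
  .L .L) .L)) (.Y (.Z (.X .L .L) .L) (.Z .L .L))) (.X .L (.Y .L .L)))) (.Y (.Z (.X (.Y .L (.Z .L
  .L)) (.Y .L (.Z (.X .L .L) .L))) (.X .L .L)) (.Z (.X (.Y (.Z (.X .L .L) .L) .L) (.Y (.Z (.X .L
  .L) (.X .L .L)) .L)) (.X (.Y .L .L) (.Y (.Z .L .L) .L))))) (.X (.Y (.Z (.X .L .L) (.X .L .L))
  .L) .L))
theorem tLac2 : bisT (okGC (celG KLa (chkK KLa))) tLac2t 384829069722 769658139444 0 2303000000000 0 274877906944 = true := by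
  decide +kernel

def tLac0t : BT := BT.X tLac1t tLac2t
theorem tLac0 : bisT (okGC (celG KLa (chkK KLa))) tLac0t 0 769658139444 0 2303000000000 0 274877906944 = true :=
  bisT_X 384829069722 tLac1 tLac2 rfl

theorem tLac : bisT (okGC (celG KLa (chkK KLa))) tLac0t 0 769658139444 0 2303000000000 0 274877906944 = true := tLac0

end SokalCel
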