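import Pool.Agent.Lib_MP_af4de1_v3.ShfR2

/-!
# Right side, the run of the field `a` (`27/5 ≤ Γ`, `τ ≤ 1/4`; targets `1/5, 1/5, 1`)
-/

set_option autoImplicit false

namespace SokalCel

open SokalFN

/-- data of the run -/
def KRa : RnD where
  P := ⟨ic 5 4, ic 4 5, ic 27 20, ic 3 5, ic 6 5⟩
  G0 := 5937362789990
  H := 220343011579
  s0 := 3665039
  sW := 122167959
  se := 1570732
  F0 := 219902325555
  F1 := 219902325555
  F2 := 1099511627776

theorem KRa_ok : KRa.P.Ok (5 / 4) (27 / 20) (6 / 5) (6 / 5) where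
  hM := by exact_mod_cast Mem.const 5 4 (by norm_num)
  hN := by
    have h := Mem.const 4 5 (by norm_num)
    norm_num at h ⊢
    exact h
  hq := by exact_mod_cast Mem.const 27 20 (by norm_num)
  hg := by
    have h := Mem.const 3 5 (by norm_num)
    norm_num at h ⊢
    exact h
  hk := by exact_mod_cast Mem.const 6 5 (by norm_num)
  pos := by norm_num
  le := by norm_num

theorem KRa_c : bis (okC KRa) 3 1 2 12 0 769658139444 0 2303000000000 0 274877906944 = true := by
  decide +kernel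

theorem KRa_n : bis (okN KRa) 3 1 2 12 0 791648371999 0 2303000000000 0 274877906944 = true := by
  decide +kernel

theorem runR_a : RunOK (27 / 20) (6 / 5) (6 / 5) 0 (1 / 4) (27 / 5) (100 / 499) (1 / 300000)
    (1 / 9000) (1 / 700000) (1 / 5) (1 / 5) 1 := by
  refine runOK_of (K := KRa) KRa_ok (lc := [769658139444]) (ln := [791648371999])
    ⟨KRa_c, trivial⟩ ⟨KRa_n, trivial⟩ ?_ ?_ ?_ ⟨?_, ?_, ?_, ?_, ?_, ?_⟩ ?_ ?_ ?_ ?_
  · show (7 / 10 : ℝ) ≤ fx 769658139444
    unfold fx; norm_num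
  · show (18 / 25 : ℝ) ≤ fx 791648371999
    unfold fx; norm_num
  · have h := Real.pi_lt_d4
    unfold fx
    norm_num at h ⊢
    linarith
  · show (1 / 300000 : ℝ) ≤ fx 3665039
    unfold fx; norm_num
  · show (1 / 9000 : ℝ) ≤ fx 122167959
    unfold fx; norm_num
  · show (1 / 700000 : ℝ) ≤ fx 1570732
    unfold fx; norm_num
  · show fx 219902325555 ≤ (1 / 5 : ℝ)
    unfold fx; norm_num
  · show fx 219902325555 ≤ (1 / 5 : ℝ)
    unfold fx; norm_num
  · show fx 1099511627776 ≤ (1 : ℝ)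
    unfold fx; norm_num
  · show fx 5937362789990 ≤ (27 / 5 : ℝ)
    unfold fx; norm_num
  · show (100 / 499 : ℝ) ≤ fx 220343011579
    unfold fx; norm_num
  · exact (fx_zero).le
  · show (1 / 4 : ℝ) ≤ fx 274877906944
    unfold fx; norm_num

end SokalCel
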