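import Pool.Agent.Lib_MP_af4de1_v3.ShfR2

/-!
# Right side, the run of the field `a'`, `10 ≤ Γ < 20` (`τ ≤ 7/20`; targets `3/50, 3/50, 1`)
-/

set_option autoImplicit false

namespace SokalCel

open SokalFN

/-- data of the run -/
def KRaB : RnD where
  P := ⟨ic 5 4, ic 4 5, ic 71 50, ic 13 20, ic 13 10⟩
  G0 := 10995116277760
  H := 440686023157
  s0 := 4398047
  sW := 233938645
  se := 1570731
  F0 := 65970697666
  F1 := 65970697666
  F2 := 1099511627776

theorem KRaB_ok : KRaB.P.Ok (5 / 4) (71 / 50) (13 / 10) (13 / 10) where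
  hM := by exact_mod_cast Mem.const 5 4 (by norm_num)
  hN := by
    have h := Mem.const 4 5 (by norm_num)
    norm_num at h ⊢
    exact h
  hq := by exact_mod_cast Mem.const 71 50 (by norm_num)
  hg := by
    have h := Mem.const 13 20 (by norm_num)
    norm_num at h ⊢
    exact h
  hk := by exact_mod_cast Mem.const 13 10 (by norm_num)
  pos := by norm_num
  le := by norm_num

theorem KRaB_c : bis (okC KRaB) 3 1 4 12 0 769658139444 0 2303000000000 0 384829069722 = true := by
  decide +kernel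

theorem KRaB_n : bis (okN KRaB) 2 1 3 12 0 791648371999 0 2303000000000 0 384829069722 = true := by
  decide +kernel

theorem runR_aB : RunOK (71 / 50) (13 / 10) (13 / 10) 0 (7 / 20) 10 (200 / 499) (1 / 250000)
    (1 / 4700) (1 / 700000) (3 / 50) (3 / 50) 1 := by
  refine runOK_of (K := KRaB) KRaB_ok (lc := [769658139444]) (ln := [791648371999])
    ⟨KRaB_c, trivial⟩ ⟨KRaB_n, trivial⟩ ?_ ?_ ?_ ⟨?_, ?_, ?_, ?_, ?_, ?_⟩ ?_ ?_ ?_ ?_
  · show (7 / 10 : ℝ) ≤ fx 769658139444
    unfold fx; norm_num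
  · show (18 / 25 : ℝ) ≤ fx 791648371999
    unfold fx; norm_num
  · have h := Real.pi_lt_d4
    unfold fx
    norm_num at h ⊢
    linarith
  · show (1 / 250000 : ℝ) ≤ fx 4398047
    unfold fx; norm_num
  · show (1 / 4700 : ℝ) ≤ fx 233938645
    unfold fx; norm_num
  · show (1 / 700000 : ℝ) ≤ fx 1570731
    unfold fx; norm_num
  · show fx 65970697666 ≤ (3 / 50 : ℝ)
    unfold fx; norm_num
  · show fx 65970697666 ≤ (3 / 50 : ℝ)
    unfold fx; norm_num
  · show fx 1099511627776 ≤ (1 : ℝ)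
    unfold fx; norm_num
  · show fx 10995116277760 ≤ (10 : ℝ)
    unfold fx; norm_num
  · show (200 / 499 : ℝ) ≤ fx 440686023157
    unfold fx; norm_num
  · show fx 0 ≤ (0 : ℝ)
    unfold fx; norm_num
  · show (7 / 20 : ℝ) ≤ fx 384829069722
    unfold fx; norm_num

end SokalCel
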