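import Pool.Agent.Lib_MP_af4de1_v3.ShfR2

/-!
# Right side, the run of the field `a'`, `20 ≤ Γ` (`τ ≤ 2/5`; targets `3/50, 3/50, 1`)
-/

set_option autoImplicit false

namespace SokalCel

open SokalFN

/-- data of the run -/
def KRaC : RnD where
  P := ⟨ic 5 4, ic 4 5, ic 33 20, ic 17 20, ic 17 10⟩
  G0 := 21990232555520
  H := 1209462790554
  s0 := 7696582
  sW := 76965814
  se := 2199024
  F0 := 65970697666
  F1 := 65970697666
  F2 := 1099511627776

theorem KRaC_ok : KRaC.P.Ok (5 / 4) (33 / 20) (17 / 10) (17 / 10) where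
  hM := by exact_mod_cast Mem.const 5 4 (by norm_num)
  hN := by
    have h := Mem.const 4 5 (by norm_num)
    norm_num at h ⊢
    exact h
  hq := by exact_mod_cast Mem.const 33 20 (by norm_num)
  hg := by
    have h := Mem.const 17 20 (by norm_num)
    norm_num at h ⊢
    exact h
  hk := by exact_mod_cast Mem.const 17 10 (by norm_num)
  pos := by norm_num
  le := by norm_num

theorem KRaC_c : bis (okC KRaC) 3 1 3 12 0 769658139444 0 2303000000000 0 439804651111 = true := by
  decide +kernel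

theorem KRaC_n : bis (okN KRaC) 3 1 3 12 0 791648371999 0 2303000000000 0 439804651111 = true := by
  decide +kernel

theorem runR_aC : RunOK (33 / 20) (17 / 10) (17 / 10) 0 (2 / 5) 20 (11 / 10) (7 / 1000000)
    (7 / 100000) (2 / 1000000) (3 / 50) (3 / 50) 1 := by
  refine runOK_of (K := KRaC) KRaC_ok (lc := [769658139444]) (ln := [791648371999])
    ⟨KRaC_c, trivial⟩ ⟨KRaC_n, trivial⟩ ?_ ?_ ?_ ⟨?_, ?_, ?_, ?_, ?_, ?_⟩ ?_ ?_ ?_ ?_
  · show (7 / 10 : ℝ) ≤ fx 769658139444
    unfold fx; norm_num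
  · show (18 / 25 : ℝ) ≤ fx 791648371999
    unfold fx; norm_num
  · have h := Real.pi_lt_d4
    unfold fx
    norm_num at h ⊢
    linarith
  · show (7 / 1000000 : ℝ) ≤ fx 7696582
    unfold fx; norm_num
  · show (7 / 100000 : ℝ) ≤ fx 76965814
    unfold fx; norm_num
  · show (2 / 1000000 : ℝ) ≤ fx 2199024
    unfold fx; norm_num
  · show fx 65970697666 ≤ (3 / 50 : ℝ)
    unfold fx; norm_num
  · show fx 65970697666 ≤ (3 / 50 : ℝ)
    unfold fx; norm_num
  · show fx 1099511627776 ≤ (1 : ℝ)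
    unfold fx; norm_num
  · show fx 21990232555520 ≤ (20 : ℝ)
    unfold fx; norm_num
  · show (11 / 10 : ℝ) ≤ fx 1209462790554
    unfold fx; norm_num
  · show fx 0 ≤ (0 : ℝ)
    unfold fx; norm_num
  · show (2 / 5 : ℝ) ≤ fx 439804651111
    unfold fx; norm_num

end SokalCel
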