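import Pool.Agent.Lib_MP_af4de1_v3.CelRun
import Pool.Agent.Lib_MP_af4de1_v3.CelTreeN

/-!
# Right side, the run of the field `b`: data and the trees of chart `c`
-/

set_option autoImplicit false

namespace SokalCel

open SokalFN

/-- data of the run -/
def KRb : RnD where
  P := ⟨ic 5 4, ic 4 5, ic 27 20, ic 3 5, ic 6 5⟩
  G0 := 5937362789990
  H := 220343011579
  s0 := 3665039
  sW := 122167959
  se := 1570732
  F0 := 65970697666
  F1 := 76965813944
  F2 := 164926744166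

def rbc3t : BT := (.Z (.Z (.Z .L .L) .L) (.Z .L .L))
theorem rbc3 : bisT (okC KRb) rbc3t 0 192414534861 0 1151500000000 274877906944 824633720832 = true := by
  decide +kernel

def rbc5t : BT := (.X (.Z (.Z .L .L) (.Z .L .L)) (.X (.Z (.Z .L .L) (.Y .L (.Z .L (.Z .L .L))))
  (.Z (.Z (.Y .L (.Z (.X .L .L) .L)) (.Z .L .L)) (.Y .L (.Z (.Z .L .L) (.Y .L (.X (.Z .L .L) (.Y
  .L (.Y .L (.Z .L (.X .L .L)))))))))))
theorem rbc5 : bisT (okC KRb) rbc5t 0 192414534861 1151500000000 2303000000000 274877906944 549755813888 = true := by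
  decide +kernel

def rbc7t : BT := (.Z (.X .L .L) .L)
theorem rbc7 : bisT (okC KRb) rbc7t 0 192414534861 1151500000000 1727250000000 549755813888 824633720832 = true := by
  decide +kernel

def rbc9t : BT := (.Z (.Z .L .L) (.X .L (.Z .L (.X .L (.Z .L .L)))))
theorem rbc9 : bisT (okC KRb) rbc9t 0 192414534861 1727250000000 2015125000000 549755813888 824633720832 = true := by
  decide +kernel

def rbc11t : BT := (.Z (.X (.X .L .L) (.X (.Z .L .L) (.Z .L (.Z .L (.X .L (.X .L .L)))))) (.Y (.Z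
  (.X .L (.X .L (.X .L (.Z .L .L)))) (.Y (.X .L (.Z (.X .L .L) .L)) .L)) (.Z (.Z (.X .L (.Y (.X .L
  (.X .L .L)) (.Y (.Y (.Z (.Z (.Z .L .L) .L) .L) .L) .L))) .L) .L)))
theorem rbc11 : bisT (okC KRb) rbc11t 0 192414534861 2015125000000 2159062500000 549755813888 824633720832 = true := by
  decide +kernel

def rbc12t : BT := (.Z (.Y (.Z (.X .L (.X .L (.Z .L (.X .L (.Z .L .L))))) (.Z (.X .L (.X (.X .L
  .L) (.Y (.X .L (.X .L .L)) (.Y (.X .L (.Z .L .L)) .L)))) (.Y (.X .L (.Y (.X .L (.Y (.Z .L .L)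
  .L)) .L)) .L))) (.Z (.Z (.X .L (.X (.X .L (.X .L .L)) (.Z (.X .L (.X .L .L)) (.Y (.X .L .L) (.Y
  (.X .L (.X .L .L)) .L))))) (.Y (.X .L (.X (.X .L .L) (.Z (.X .L (.X .L .L)) (.Y (.Y (.Z (.Z .L
  .L) .L) .L) .L)))) .L)) .L)) .L)
theorem rbc12 : bisT (okC KRb) rbc12t 0 192414534861 2159062500000 2303000000000 549755813888 824633720832 = true := by
  decide +kernel

def rbc10t : BT := BT.Y rbc11t rbc12t
theorem rbc10 : bisT (okC KRb) rbc10t 0 192414534861 2015125000000 2303000000000 549755813888 824633720832 = true :=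
  bisT_Y 2159062500000 rbc11 rbc12 rfl

def rbc8t : BT := BT.Y rbc9t rbc10t
theorem rbc8 : bisT (okC KRb) rbc8t 0 192414534861 1727250000000 2303000000000 549755813888 824633720832 = true :=
  bisT_Y 2015125000000 rbc9 rbc10 rfl

def rbc6t : BT := BT.Y rbc7t rbc8t
theorem rbc6 : bisT (okC KRb) rbc6t 0 192414534861 1151500000000 2303000000000 549755813888 824633720832 = true :=
  bisT_Y 1727250000000 rbc7 rbc8 rfl

def rbc4t : BT := BT.Z rbc5t rbc6t
theorem rbc4 : bisT (okC KRb) rbc4t 0 192414534861 1151500000000 2303000000000 274877906944 824633720832 = true :=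
  bisT_Z 549755813888 rbc5 rbc6 rfl

def rbc2t : BT := BT.Y rbc3t rbc4t
theorem rbc2 : bisT (okC KRb) rbc2t 0 192414534861 0 2303000000000 274877906944 824633720832 = true :=
  bisT_Y 1151500000000 rbc3 rbc4 rfl

def rbc15t : BT := (.Z (.Z (.X (.Z .L .L) (.Z (.Y .L (.Z .L .L)) .L)) (.Z .L .L)) (.Z (.Z .L .L)
  (.X .L .L)))
theorem rbc15 : bisT (okC KRb) rbc15t 192414534861 288621802291 0 1151500000000 274877906944 824633720832 = true := by
  decide +kernel

def rbc17t : BT := (.Z (.Z (.X (.Z (.Z .L .L) .L) (.Z (.X (.Z (.Z .L .L) .L) (.Y (.Z .L .L) (.Y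
  (.Z (.X .L .L) .L) .L))) (.Z (.X .L .L) .L))) (.Z (.X .L (.X .L .L)) (.Z .L .L))) (.X (.Z (.Z .L
  .L) (.Z .L .L)) (.Z (.Z .L .L) (.Z .L .L))))
theorem rbc17 : bisT (okC KRb) rbc17t 192414534861 288621802291 1151500000000 1727250000000 274877906944 824633720832 = true := by
  decide +kernel

def rbc19t : BT := (.Y (.Z (.Z (.Z (.X (.Z .L .L) (.Z (.Y .L .L) .L)) (.Z .L .L)) (.Z .L .L)) (.Z
  (.Z .L (.X .L .L)) (.Z (.Z .L .L) (.Y .L (.X (.Z .L (.X .L .L)) (.Y .L .L)))))) (.Z (.X (.Y (.Z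
  (.Z (.Z .L .L) .L) (.Z .L .L)) (.Z (.Z .L .L) (.Z .L .L))) (.Z .L (.X .L .L))) (.Y (.Z (.X (.X
  (.Z .L (.Y .L (.Y .L .L))) (.Y .L .L)) .L) (.Z (.X (.X (.Y (.Z .L .L) (.Z (.Y .L .L) .L)) (.Y .L
  .L)) .L) (.Y (.X (.Y (.X (.Z .L .L) .L) .L) .L) .L))) (.Z (.X (.Y (.Z .L (.Z .L (.Y .L .L))) (.Z
  .L .L)) (.X .L .L)) .L))))
theorem rbc19 : bisT (okC KRb) rbc19t 192414534861 240518168576 1727250000000 2303000000000 274877906944 824633720832 = true := by
  decide +kernel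

def rbc20t : BT := (.Y (.Z (.Z (.X (.Z .L .L) .L) (.Z .L .L)) (.Z (.Z .L .L) (.X (.Y .L .L) .L)))
  (.Z (.Z .L .L) (.X (.Z .L (.Y .L .L)) (.Y .L .L))))
theorem rbc20 : bisT (okC KRb) rbc20t 240518168576 288621802291 1727250000000 2303000000000 274877906944 824633720832 = true := by
  decide +kernel

def rbc18t : BT := BT.X rbc19t rbc20t
theorem rbc18 : bisT (okC KRb) rbc18t 192414534861 288621802291 1727250000000 2303000000000 274877906944 824633720832 = true :=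
  bisT_X 240518168576 rbc19 rbc20 rfl

def rbc16t : BT := BT.Y rbc17t rbc18t
theorem rbc16 : bisT (okC KRb) rbc16t 192414534861 288621802291 1151500000000 2303000000000 274877906944 824633720832 = true :=
  bisT_Y 1727250000000 rbc17 rbc18 rfl

def rbc14t : BT := BT.Y rbc15t rbc16t
theorem rbc14 : bisT (okC KRb) rbc14t 192414534861 288621802291 0 2303000000000 274877906944 824633720832 = true :=
  bisT_Y 1151500000000 rbc15 rbc16 rfl

def rbc22t : BT := (.Y (.Z (.Z (.Z (.Y .L (.X (.Z .L .L) (.Z (.Z .L .L) .L))) (.Z .L .L)) (.Z .L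
  .L)) (.Z (.Z .L .L) (.Z .L .L))) (.Y (.Y (.Z (.Z (.Z (.X (.Z (.Z .L .L) .L) (.Y (.Z (.Z .L .L)
  .L) (.Z .L .L))) (.Z (.X .L .L) .L)) (.X (.Z .L .L) (.Z .L .L))) (.Z (.Z .L .L) (.Z .L .L))) (.Z
  (.Z (.X (.Z .L .L) .L) (.Z .L .L)) (.Z (.Z .L .L) (.Z .L .L)))) (.Y (.X (.Z .L .L) (.Z .L .L))
  .L)))
theorem rbc22 : bisT (okC KRb) rbc22t 288621802291 336725436006 0 2303000000000 274877906944 824633720832 = true := by
  decide +kernel

def rbc23t : BT := (.Y (.Z (.Z (.Y (.Z .L .L) (.Y (.Z (.Z (.X .L .L) .L) .L) (.Z (.X (.Z (.X .L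
  (.Z .L .L)) .L) (.X (.Z (.Z .L .L) .L) (.Z (.Y .L (.Z .L .L)) .L))) (.Z (.X .L .L) .L)))) (.Z
  (.Z .L .L) (.Z .L .L))) (.Z (.Y .L (.Z .L .L)) (.Z .L .L))) (.Y (.Y (.Y (.Z (.X (.Z (.Z (.Y (.Z
  (.X (.X .L .L) .L) .L) .L) (.Z .L .L)) (.Z .L .L)) (.Z (.Z .L .L) (.X .L .L))) (.Z (.X (.Z .L
  .L) .L) (.Z .L .L))) (.Z (.Z (.X .L .L) .L) (.Z .L .L))) (.Z (.Z .L .L) (.Z .L .L))) .L))
theorem rbc23 : bisT (okC KRb) rbc23t 336725436006 384829069722 0 2303000000000 274877906944 824633720832 = true := by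
  decide +kernel

def rbc21t : BT := BT.X rbc22t rbc23t
theorem rbc21 : bisT (okC KRb) rbc21t 288621802291 384829069722 0 2303000000000 274877906944 824633720832 = true :=
  bisT_X 336725436006 rbc22 rbc23 rfl

def rbc13t : BT := BT.X rbc14t rbc21t
theorem rbc13 : bisT (okC KRb) rbc13t 192414534861 384829069722 0 2303000000000 274877906944 824633720832 = true :=
  bisT_X 288621802291 rbc14 rbc21 rfl

def rbc1t : BT := BT.X rbc2t rbc13t
theorem rbc1 : bisT (okC KRb) rbc1t 0 384829069722 0 2303000000000 274877906944 824633720832 = true :=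
  bisT_X 192414534861 rbc2 rbc13 rfl

def rbc29t : BT := (.Z (.X (.Z (.X .L .L) .L) (.Z (.X .L .L) .L)) (.Z .L .L))
theorem rbc29 : bisT (okC KRb) rbc29t 384829069722 481036337152 0 575750000000 274877906944 549755813888 = true := by
  decide +kernel

def rbc31t : BT := (.Z (.X (.Z (.Y (.Z .L .L) (.Y (.Z (.Y .L (.Z .L .L)) .L) (.Y (.Z (.Z (.X .L
  .L) .L) (.X .L .L)) .L))) (.Z (.Z .L .L) .L)) (.Y (.Z (.Z (.X .L .L) .L) .L) (.Y (.Z (.X (.Z (.Z
  .L .L) .L) (.Z (.Z .L .L) .L)) (.Z .L .L)) (.Z (.X .L .L) .L)))) (.Z (.X (.Z .L .L) (.Z .L .L))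
  (.Z .L .L)))
theorem rbc31 : bisT (okC KRb) rbc31t 384829069722 432932703437 575750000000 1151500000000 274877906944 549755813888 = true := by
  decide +kernel

def rbc32t : BT := (.Y (.Z (.Z (.X (.Z (.X .L .L) .L) (.Z (.Y .L (.Z .L .L)) .L)) (.Z .L .L)) (.Z
  .L .L)) (.Y (.Z (.X (.Z (.Y (.Z (.Z (.X .L .L) .L) .L) (.Z .L .L)) (.Z .L .L)) (.X (.Y (.Z (.Z
  (.Z .L .L) .L) (.X .L .L)) .L) (.Z (.Z .L .L) .L))) (.Z (.Z .L .L) (.X .L .L))) (.Z (.X .L .L)
  .L)))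
theorem rbc32 : bisT (okC KRb) rbc32t 432932703437 481036337152 575750000000 1151500000000 274877906944 549755813888 = true := by
  decide +kernel

def rbc30t : BT := BT.X rbc31t rbc32t
theorem rbc30 : bisT (okC KRb) rbc30t 384829069722 481036337152 575750000000 1151500000000 274877906944 549755813888 = true :=
  bisT_X 432932703437 rbc31 rbc32 rfl

def rbc28t : BT := BT.Y rbc29t rbc30t
theorem rbc28 : bisT (okC KRb) rbc28t 384829069722 481036337152 0 1151500000000 274877906944 549755813888 = true :=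
  bisT_Y 575750000000 rbc29 rbc30 rfl

def rbc33t : BT := (.Z (.X (.Z (.Z .L .L) (.Z .L .L)) (.Y .L (.Y (.Z .L .L) (.Y (.Z .L .L) .L))))
  (.Y .L (.Y (.Z .L .L) (.X (.Z .L .L) (.Y (.Z .L .L) .L)))))
theorem rbc33 : bisT (okC KRb) rbc33t 384829069722 481036337152 0 1151500000000 549755813888 824633720832 = true := by
  decide +kernel

def rbc27t : BT := BT.Z rbc28t rbc33t
theorem rbc27 : bisT (okC KRb) rbc27t 384829069722 481036337152 0 1151500000000 274877906944 824633720832 = true :=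
  bisT_Z 549755813888 rbc28 rbc33 rfl

def rbc34t : BT := (.Y (.Y (.X (.Z (.Y (.Z .L .L) .L) (.Z .L .L)) (.Y (.Z .L .L) .L)) .L) .L)
theorem rbc34 : bisT (okC KRb) rbc34t 384829069722 481036337152 1151500000000 2303000000000 274877906944 824633720832 = true := by
  decide +kernel

def rbc26t : BT := BT.Y rbc27t rbc34t
theorem rbc26 : bisT (okC KRb) rbc26t 384829069722 481036337152 0 2303000000000 274877906944 824633720832 = true :=
  bisT_Y 1151500000000 rbc27 rbc34 rfl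

def rbc37t : BT := (.Z (.Z (.X (.Z (.X .L .L) .L) (.Z (.Y .L (.X .L .L)) .L)) (.Z (.X .L .L) .L))
  (.Z (.Z .L .L) (.X .L .L)))
theorem rbc37 : bisT (okC KRb) rbc37t 481036337152 577243604583 0 575750000000 274877906944 824633720832 = true := by
  decide +kernel

def rbc38t : BT := (.X (.Y (.Z (.Z (.Z (.X (.Z (.Z (.X .L .L) .L) (.X .L .L)) (.X (.Z (.Z .L .L)
  .L) (.Z (.Z .L .L) .L))) (.Z (.X .L .L) .L)) (.X (.Z .L .L) (.Z .L .L))) (.Z (.Z .L .L) (.Z .L
  .L))) (.Z (.Y (.Z (.Z (.Z .L .L) .L) (.Z .L .L)) (.X .L .L)) (.Z (.Z .L .L) (.Z .L .L)))) (.Y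
  (.Z (.Z (.Z (.Y (.X (.Z .L .L) (.Z .L .L)) (.Y (.X (.Z (.X .L .L) .L) (.X (.Z .L .L) .L)) .L))
  (.X (.Z .L .L) (.Y .L (.Z .L .L)))) (.Z (.Z .L .L) (.X .L .L))) (.Z (.X (.Z .L .L) (.Z .L .L))
  (.Z (.X .L .L) .L))) (.Z (.Z .L .L) (.Z .L .L))))
theorem rbc38 : bisT (okC KRb) rbc38t 481036337152 577243604583 575750000000 1151500000000 274877906944 824633720832 = true := by
  decide +kernel

def rbc36t : BT := BT.Y rbc37t rbc38t
theorem rbc36 : bisT (okC KRb) rbc36t 481036337152 577243604583 0 1151500000000 274877906944 824633720832 = true :=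
  bisT_Y 575750000000 rbc37 rbc38 rfl

def rbc39t : BT := BT.L
theorem rbc39 : bisT (okC KRb) rbc39t 481036337152 577243604583 1151500000000 2303000000000 274877906944 824633720832 = true := by
  decide +kernel

def rbc35t : BT := BT.Y rbc36t rbc39t
theorem rbc35 : bisT (okC KRb) rbc35t 481036337152 577243604583 0 2303000000000 274877906944 824633720832 = true :=
  bisT_Y 1151500000000 rbc36 rbc39 rfl

def rbc25t : BT := BT.X rbc26t rbc35t
theorem rbc25 : bisT (okC KRb) rbc25t 384829069722 577243604583 0 2303000000000 274877906944 824633720832 = true :=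
  bisT_X 481036337152 rbc26 rbc35 rfl

def rbc42t : BT := (.Y (.Z (.X (.Z (.Z (.Z (.X .L .L) .L) (.X .L .L)) (.Z .L .L)) (.Z (.X (.Z (.Z
  .L .L) .L) (.Z (.Z .L .L) .L)) (.Z .L .L))) (.Y (.Z .L .L) (.Z (.Z (.X .L .L) .L) (.Z .L .L))))
  (.Y (.X (.Y (.Z (.Z (.Z (.X (.Z (.X .L .L) .L) (.Z (.X .L .L) .L)) (.Z .L .L)) (.Z .L .L)) (.Z
  (.Z .L .L) (.Z .L .L))) (.Z (.Z (.X (.Z .L .L) .L) (.Z .L .L)) (.X (.Z .L .L) (.Z .L .L)))) (.Y
  (.Z (.Z (.Z (.X (.Z (.X .L .L) .L) (.Y (.Z .L .L) .L)) (.Z (.X .L .L) .L)) (.Z (.X .L .L) .L))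
  (.Z (.Z .L .L) (.Z .L .L))) (.Z (.Z .L .L) (.Z .L .L)))) (.Z (.Z .L .L) (.Z .L .L))))
theorem rbc42 : bisT (okC KRb) rbc42t 577243604583 673450872013 0 1151500000000 274877906944 824633720832 = true := by
  decide +kernel

def rbc43t : BT := (.Y (.X (.Z (.Z (.Z (.Y .L (.X (.Z .L .L) (.Z .L .L))) (.X .L .L)) (.Z .L .L))
  (.Z (.Z .L .L) (.X .L .L))) (.Z (.Z (.X (.Z (.Y .L (.Z .L .L)) .L) (.Z (.Z (.X .L .L) .L) .L))
  (.Y .L (.Z .L .L))) (.Z (.Z .L .L) (.Z .L .L)))) (.Y (.Y (.X (.Y (.Z (.Z (.X (.Z (.Z .L .L) .L)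
  (.Z (.X .L .L) .L)) (.Z (.X .L .L) .L)) (.Z (.Z .L .L) (.Z .L .L))) (.Z (.Z .L .L) (.Z .L .L)))
  (.X (.Z (.Z (.Z .L .L) .L) (.Z .L .L)) (.Z (.Z .L .L) (.Z .L .L)))) (.Z (.Z .L .L) (.Z .L .L)))
  .L))
theorem rbc43 : bisT (okC KRb) rbc43t 673450872013 769658139444 0 1151500000000 274877906944 824633720832 = true := by
  decide +kernel

def rbc41t : BT := BT.X rbc42t rbc43t
theorem rbc41 : bisT (okC KRb) rbc41t 577243604583 769658139444 0 1151500000000 274877906944 824633720832 = true :=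
  bisT_X 673450872013 rbc42 rbc43 rfl

def rbc44t : BT := BT.L
theorem rbc44 : bisT (okC KRb) rbc44t 577243604583 769658139444 1151500000000 2303000000000 274877906944 824633720832 = true := by
  decide +kernel

def rbc40t : BT := BT.Y rbc41t rbc44t
theorem rbc40 : bisT (okC KRb) rbc40t 577243604583 769658139444 0 2303000000000 274877906944 824633720832 = true :=
  bisT_Y 1151500000000 rbc41 rbc44 rfl

def rbc24t : BT := BT.X rbc25t rbc40t
theorem rbc24 : bisT (okC KRb) rbc24t 384829069722 769658139444 0 2303000000000 274877906944 824633720832 = true :=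
  bisT_X 577243604583 rbc25 rbc40 rfl

def rbc0t : BT := BT.X rbc1t rbc24t
theorem rbc0 : bisT (okC KRb) rbc0t 0 769658139444 0 2303000000000 274877906944 824633720832 = true :=
  bisT_X 384829069722 rbc1 rbc24 rfl

theorem rbc : bisT (okC KRb) rbc0t 0 769658139444 0 2303000000000 274877906944 824633720832 = true := rbc0

end SokalCel
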