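import Pool.Agent.Lib_MP_af4de1_v3.RunRcB0

/-!
# Kernel run, field `c`, right, class B, chart `c` (helper4)
-/

set_option autoImplicit false

namespace SokalCel

def rcBc2t : BT := (.X (.Z .L .L) (.X (.Z (.Z .L .L) .L) (.Z (.Z (.X .L .L) .L) (.Z .L .L))))
theorem rcBc2 : bisT (okC KcB) rcBc2t 0 384829069722 0 1151500000000 384829069721 714682558055 = true := by
  decide +kernel

def rcBc4t : BT := (.Z (.X .L (.Z .L .L)) (.Y .L (.Y (.X .L .L) (.Y (.Z .L .L) (.Z (.Y .L (.Z .L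
  (.Y .L .L))) (.Y (.Y (.Z .L .L) .L) .L))))))
theorem rcBc4 : bisT (okC KcB) rcBc4t 0 192414534861 1151500000000 2303000000000 384829069721 714682558055 = true := by
  decide +kernel

def rcBc6t : BT := (.X (.Z (.Z (.X .L .L) .L) (.Z .L .L)) (.X (.Z (.Z (.Z .L .L) (.X .L .L)) (.Z
  .L .L)) (.Z (.Z (.X (.Z .L .L) (.Z .L .L)) (.Z .L .L)) (.Z (.Z .L .L) (.Z .L .L)))))
theorem rcBc6 : bisT (okC KcB) rcBc6t 192414534861 384829069722 1151500000000 1727250000000 384829069721 714682558055 = true := by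
  decide +kernel

def rcBc8t : BT := (.X (.X (.Z (.Z .L .L) (.Z .L .L)) (.Z (.Z (.X .L (.Z .L .L)) (.Z .L .L)) (.X
  (.Z .L .L) (.Y .L (.X (.Y .L .L) .L))))) (.X (.Y (.Z (.Z (.Z .L .L) (.X .L .L)) (.Z (.X .L .L)
  .L)) (.X (.Z .L .L) .L)) (.Y (.Z .L .L) .L)))
theorem rcBc8 : bisT (okC KcB) rcBc8t 192414534861 384829069722 1727250000000 2303000000000 384829069721 549755813888 = true := by
  decide +kernel

def rcBc9t : BT := (.Z (.X (.X (.Y .L (.Y .L (.Z .L (.Y .L (.Y .L .L))))) (.Y .L (.Y (.Z .L .L)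
  (.X (.Z (.X .L .L) (.Y .L (.Y (.Y .L .L) .L))) (.X .L .L))))) (.X (.Y (.Z .L .L) (.Y .L .L)) (.Y
  .L .L))) (.Y (.X (.X .L .L) (.X (.Z .L .L) .L)) (.Y (.X (.X (.X .L .L) (.Z .L (.X .L (.X .L
  .L)))) (.X (.X .L .L) .L)) (.Y (.Y (.Z (.X (.X .L (.X .L .L)) .L) .L) .L) .L))))
theorem rcBc9 : bisT (okC KcB) rcBc9t 192414534861 384829069722 1727250000000 2303000000000 549755813888 714682558055 = true := by
  decide +kernel

def rcBc7t : BT := BT.Z rcBc8t rcBc9t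
theorem rcBc7 : bisT (okC KcB) rcBc7t 192414534861 384829069722 1727250000000 2303000000000 384829069721 714682558055 = true :=
  bisT_Z 549755813888 rcBc8 rcBc9 rfl

def rcBc5t : BT := BT.Y rcBc6t rcBc7t
theorem rcBc5 : bisT (okC KcB) rcBc5t 192414534861 384829069722 1151500000000 2303000000000 384829069721 714682558055 = true :=
  bisT_Y 1727250000000 rcBc6 rcBc7 rfl

def rcBc3t : BT := BT.X rcBc4t rcBc5t
theorem rcBc3 : bisT (okC KcB) rcBc3t 0 384829069722 1151500000000 2303000000000 384829069721 714682558055 = true :=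
  bisT_X 192414534861 rcBc4 rcBc5 rfl

def rcBc1t : BT := BT.Y rcBc2t rcBc3t
theorem rcBc1 : bisT (okC KcB) rcBc1t 0 384829069722 0 2303000000000 384829069721 714682558055 = true :=
  bisT_Y 1151500000000 rcBc2 rcBc3 rfl

def rcBc12t : BT := (.Z (.X (.X (.Z (.X .L .L) .L) (.Z (.Z .L .L) (.X .L .L))) (.Y (.Z .L .L) (.X
  (.Z (.Y .L (.Z .L .L)) (.Z .L .L)) (.Z (.X (.Z .L .L) (.Y .L (.Z .L .L))) (.Y .L (.Z .L .L))))))
  (.X (.Z (.Z .L .L) (.X .L .L)) (.X (.Z (.Z .L .L) (.X .L .L)) (.Y .L (.Z (.Z .L .L) (.Z .L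
  .L))))))
theorem rcBc12 : bisT (okC KcB) rcBc12t 384829069722 577243604583 0 1151500000000 384829069721 714682558055 = true := by
  decide +kernel

def rcBc14t : BT := (.X (.Z (.Z (.X .L .L) .L) (.Z .L .L)) (.X (.Z (.Z .L .L) (.X .L .L)) (.Z (.Z
  .L .L) (.Z .L .L))))
theorem rcBc14 : bisT (okC KcB) rcBc14t 577243604583 769658139444 0 575750000000 384829069721 714682558055 = true := by
  decide +kernel

def rcBc16t : BT := (.Z (.Y (.X (.X (.Z .L .L) (.Z .L .L)) (.Z (.Z .L .L) (.X .L .L))) (.X (.Y (.Z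
  (.Z (.X .L .L) .L) (.Z .L .L)) (.Z .L .L)) (.Y (.X (.Y (.Z (.X .L .L) .L) .L) (.Z .L .L)) .L)))
  (.Z (.X (.X (.Z .L .L) (.Z .L .L)) (.X (.Z .L .L) (.Y .L .L))) (.X (.Y .L (.Z .L .L)) (.X (.Z .L
  .L) (.Y .L .L)))))
theorem rcBc16 : bisT (okC KcB) rcBc16t 577243604583 673450872013 575750000000 1151500000000 384829069721 714682558055 = true := by
  decide +kernel

def rcBc17t : BT := (.Y (.X (.Z (.Z (.X (.X .L .L) (.Z .L .L)) (.Z .L .L)) (.Z (.Z .L .L) (.X .L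
  .L))) (.Z (.X (.Z (.Z .L .L) (.Z .L .L)) (.Z (.Z .L .L) (.Z .L .L))) (.Y (.Z .L .L) (.Z (.Y (.X
  .L .L) .L) (.Z .L .L))))) (.Y (.X (.Z (.Z .L .L) (.Z .L .L)) (.Z .L .L)) (.Z .L .L)))
theorem rcBc17 : bisT (okC KcB) rcBc17t 673450872013 769658139444 575750000000 1151500000000 384829069721 714682558055 = true := by
  decide +kernel

def rcBc15t : BT := BT.X rcBc16t rcBc17t
theorem rcBc15 : bisT (okC KcB) rcBc15t 577243604583 769658139444 575750000000 1151500000000 384829069721 714682558055 = true :=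
  bisT_X 673450872013 rcBc16 rcBc17 rfl

def rcBc13t : BT := BT.Y rcBc14t rcBc15t
theorem rcBc13 : bisT (okC KcB) rcBc13t 577243604583 769658139444 0 1151500000000 384829069721 714682558055 = true :=
  bisT_Y 575750000000 rcBc14 rcBc15 rfl

def rcBc11t : BT := BT.X rcBc12t rcBc13t
theorem rcBc11 : bisT (okC KcB) rcBc11t 384829069722 769658139444 0 1151500000000 384829069721 714682558055 = true :=
  bisT_X 577243604583 rcBc12 rcBc13 rfl

def rcBc18t : BT := (.X (.Y (.Y (.X (.Z (.X (.Z (.Z .L .L) (.X .L .L)) (.Y (.Z (.Z .L .L) (.X .L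
  .L)) (.X (.Z .L .L) .L))) (.X (.X (.Z .L .L) (.Z .L .L)) (.Z (.Z .L .L) (.Y .L .L)))) (.X (.Y
  (.Z (.X (.Z .L .L) (.X .L .L)) (.Z .L .L)) (.Z .L .L)) (.X (.Z .L .L) (.Z .L .L)))) (.X (.X (.Y
  (.Z (.X (.Z .L .L) .L) (.Z .L .L)) (.Z .L .L)) (.Z .L .L)) (.Z .L (.X .L .L)))) (.X (.Y (.X (.Z
  .L .L) (.X (.X .L .L) .L)) .L) .L)) (.X (.Y (.Y (.Y (.Z .L .L) (.X .L .L)) .L) .L) .L))
theorem rcBc18 : bisT (okC KcB) rcBc18t 384829069722 769658139444 1151500000000 2303000000000 384829069721 714682558055 = true := by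
  decide +kernel

def rcBc10t : BT := BT.Y rcBc11t rcBc18t
theorem rcBc10 : bisT (okC KcB) rcBc10t 384829069722 769658139444 0 2303000000000 384829069721 714682558055 = true :=
  bisT_Y 1151500000000 rcBc11 rcBc18 rfl

def rcBc0t : BT := BT.X rcBc1t rcBc10t
theorem rcBc0 : bisT (okC KcB) rcBc0t 0 769658139444 0 2303000000000 384829069721 714682558055 = true :=
  bisT_X 384829069722 rcBc1 rcBc10 rfl

theorem rcBc : bisT (okC KcB) rcBc0t 0 769658139444 0 2303000000000 384829069721 714682558055 = true := rcBc0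

end SokalCel
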