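import Pool.Agent.Lib_MP_af4de1_v3.RunRcB0

/-!
# Kernel run, field `c`, right, class B, chart `ν` (helper4)
-/

set_option autoImplicit false

namespace SokalCel

def rcBn1t : BT := (.Y (.Y (.X (.Z (.Z (.Z .L .L) (.X .L .L)) (.Z .L .L)) (.X (.Z (.Z (.Z .L .L)
  (.X .L .L)) (.Z .L .L)) (.Z (.Z (.Z (.X .L .L) .L) (.X .L .L)) (.X (.Z .L .L) (.Z .L .L))))) (.Y
  (.Y (.X (.Z .L .L) (.Z (.X .L (.Z .L .L)) (.Z .L .L))) (.Z .L .L)) .L)) .L)
theorem rcBn1 : bisT (okN KcB) rcBn1t 0 395824185999 0 2303000000000 384829069721 714682558055 = true := by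
  decide +kernel

def rcBn5t : BT := (.X (.Y (.X (.Z (.X .L .L) .L) (.Z (.X .L .L) .L)) (.Y (.Y (.X (.Z .L .L) (.Z
  .L .L)) .L) .L)) (.Y (.X (.Z (.X .L .L) .L) (.Z (.X .L .L) .L)) (.Y (.Y (.X (.Y (.Z (.X .L .L)
  .L) .L) (.Y (.Z (.Z .L .L) (.X .L .L)) .L)) .L) .L)))
theorem rcBn5 : bisT (okN KcB) rcBn5t 395824185999 593736278999 0 1151500000000 384829069721 549755813888 = true := by
  decide +kernel

def rcBn6t : BT := (.X (.Y (.X (.Z (.X .L .L) .L) (.Z (.X .L .L) .L)) (.Y (.Y (.X (.Z (.Y (.X .L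
  .L) .L) (.Z .L .L)) (.Z (.Z (.X .L .L) .L) (.Z .L .L))) (.Z .L .L)) .L)) (.Y (.X (.Z (.X .L .L)
  .L) (.Z .L .L)) (.Y (.Y (.X (.Z (.Z (.X .L .L) .L) (.X .L .L)) (.Z (.Z .L .L) (.X .L .L))) (.X
  (.Z .L .L) (.X (.Z .L .L) (.Y (.Z .L .L) .L)))) (.Y .L .L))))
theorem rcBn6 : bisT (okN KcB) rcBn6t 593736278999 791648371999 0 1151500000000 384829069721 549755813888 = true := by
  decide +kernel

def rcBn4t : BT := BT.X rcBn5t rcBn6t
theorem rcBn4 : bisT (okN KcB) rcBn4t 395824185999 791648371999 0 1151500000000 384829069721 549755813888 = true :=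
  bisT_X 593736278999 rcBn5 rcBn6 rfl

def rcBn7t : BT := (.X (.Y (.X (.X (.Z .L .L) (.Z .L .L)) (.X (.Z .L .L) (.Z .L .L))) (.Y (.X (.Y
  (.Y (.Z .L .L) .L) .L) (.Y (.X (.Y (.Z .L .L) .L) (.Y (.Z (.X .L .L) .L) .L)) .L)) .L)) (.X (.Y
  (.X (.Z .L .L) (.Z .L .L)) (.Y (.X (.Y (.Z (.Z .L .L) (.X .L .L)) .L) (.Y (.X (.Z .L .L) (.Z .L
  .L)) .L)) .L)) (.X (.Y (.Z .L .L) (.Y (.Y (.X (.Z .L .L) (.Z .L .L)) (.Z .L .L)) .L)) (.Y (.Z .L
  .L) (.Y (.X (.Y (.Z .L .L) (.Z .L .L)) (.Z (.Z .L .L) (.X .L .L))) .L)))))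
theorem rcBn7 : bisT (okN KcB) rcBn7t 395824185999 791648371999 0 1151500000000 549755813888 714682558055 = true := by
  decide +kernel

def rcBn3t : BT := BT.Z rcBn4t rcBn7t
theorem rcBn3 : bisT (okN KcB) rcBn3t 395824185999 791648371999 0 1151500000000 384829069721 714682558055 = true :=
  bisT_Z 549755813888 rcBn4 rcBn7 rfl

def rcBn8t : BT := BT.L
theorem rcBn8 : bisT (okN KcB) rcBn8t 395824185999 791648371999 1151500000000 2303000000000 384829069721 714682558055 = true := by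
  decide +kernel

def rcBn2t : BT := BT.Y rcBn3t rcBn8t
theorem rcBn2 : bisT (okN KcB) rcBn2t 395824185999 791648371999 0 2303000000000 384829069721 714682558055 = true :=
  bisT_Y 1151500000000 rcBn3 rcBn8 rfl

def rcBn0t : BT := BT.X rcBn1t rcBn2t
theorem rcBn0 : bisT (okN KcB) rcBn0t 0 791648371999 0 2303000000000 384829069721 714682558055 = true :=
  bisT_X 395824185999 rcBn1 rcBn2 rfl

theorem rcBn : bisT (okN KcB) rcBn0t 0 791648371999 0 2303000000000 384829069721 714682558055 = true := rcBn0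

end SokalCel
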