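import Pool.Agent.Lib_MP_af4de1_v3.CelRunTR
import Pool.Agent.Lib_MP_af4de1_v3.RunRcBc
import Pool.Agent.Lib_MP_af4de1_v3.RunRcBn

/-!
# The run of field `c`, class `10 ≤ Γ < 20`, right: `runR_cB` (helper4)
-/

set_option autoImplicit false

namespace SokalCel

open SokalFN

theorem KcB_ok : KcB.P.Ok (5 / 4) (71 / 50) (13 / 10) (13 / 10) := by
  refine ⟨?_, ?_, ?_, ?_, ?_, by norm_num, by norm_num⟩ <;>
    · unfold Mem fx KcB
      norm_num

theorem runR_cB : RunOK (71 / 50) (13 / 10) (13 / 10) (7 / 20) (13 / 20) 10 (200 / 499)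
    (1 / 250000) (1 / 4700) (1 / 700000) (1 / 100) (1 / 100) (1 / 100) := by
  have h := Real.pi_lt_d4
  refine runOK_ofT (K := KcB) KcB_ok rcBc rcBn ?_ ?_ ?_ ⟨?_, ?_, ?_, ?_, ?_, ?_⟩ ?_ ?_ ?_ ?_
  all_goals unfold fx
  all_goals try unfold KcB
  all_goals norm_num at h ⊢
  linarith

end SokalCel
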