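import Pool.Agent.Lib_MP_af4de1_v3.CelRun
import Pool.Agent.Lib_MP_af4de1_v3.CelTreeN

/-!
# Run `c`, class `10 ≤ Γ < 20`, right: data (helper4)
-/

set_option autoImplicit false

namespace SokalCel

/-- data of the run -/
def KcB : RnD where
  P := ⟨(1374389534720, 1374389534721), (879609302220, 879609302221),
    (1561306511441, 1561306511442), (714682558054, 714682558055), (1429365116108, 1429365116109)⟩
  G0 := 10995116277760
  H := 440686023157
  s0 := 4398047
  sW := 233938645
  se := 1570732
  F0 := 10995116277
  F1 := 10995116277
  F2 := 10995116277

end SokalCel
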