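import Pool.Agent.Lib_MP_af4de1_v3.ShfR2

/-!
# Right side, the runs of the field `c`, class `20 ≤ Γ` (`2/5 ≤ τ ≤ 3/5`; targets `1/100`)
-/

set_option autoImplicit false

namespace SokalCel

open SokalFN

/-- data of the run -/
def KRc1 : RnD where
  P := ⟨ic 5 4, ic 4 5, ic 33 20, ic 17 20, ic 17 10⟩
  G0 := 21990232555520
  H := 813638604555
  s0 := 186916977
  sW := 3518437209
  se := 32985349
  F0 := 10995116277
  F1 := 10995116277
  F2 := 10995116277

theorem KRc1_ok : KRc1.P.Ok (5 / 4) (33 / 20) (17 / 10) (17 / 10) where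
  hM := by exact_mod_cast Mem.const 5 4 (by norm_num)
  hN := by
    have h := Mem.const 4 5 (by norm_num)
    norm_num at h ⊢
    exact h
  hq := by exact_mod_cast Mem.const 33 20 (by norm_num)
  hg := by
    have h := Mem.const 17 20 (by norm_num)
    norm_num at h ⊢
    exact h
  hk := by exact_mod_cast Mem.const 17 10 (by norm_num)
  pos := by norm_num
  le := by norm_num

theorem KRc1_c : bis (okC KRc1) 3 1 2 13 0 769658139444 0 2303000000000 439804651110 659706976666 = true := by
  decide +kernel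

theorem KRc1_n : bis (okN KRc1) 3 1 2 13 0 791648371999 0 2303000000000 439804651110 659706976666 = true := by
  decide +kernel

theorem runR_cC1 : RunOK (33 / 20) (17 / 10) (17 / 10) (2 / 5) (3 / 5) 20 (37 / 50) (17 / 100000)
    (32 / 10000) (3 / 100000) (1 / 100) (1 / 100) (1 / 100) := by
  refine runOK_of (K := KRc1) KRc1_ok (lc := [769658139444]) (ln := [791648371999])
    ⟨KRc1_c, trivial⟩ ⟨KRc1_n, trivial⟩ ?_ ?_ ?_ ⟨?_, ?_, ?_, ?_, ?_, ?_⟩ ?_ ?_ ?_ ?_
  · show (7 / 10 : ℝ) ≤ fx 769658139444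
    unfold fx; norm_num
  · show (18 / 25 : ℝ) ≤ fx 791648371999
    unfold fx; norm_num
  · have h := Real.pi_lt_d4
    unfold fx
    norm_num at h ⊢
    linarith
  · show (17 / 100000 : ℝ) ≤ fx 186916977
    unfold fx; norm_num
  · show (32 / 10000 : ℝ) ≤ fx 3518437209
    unfold fx; norm_num
  · show (3 / 100000 : ℝ) ≤ fx 32985349
    unfold fx; norm_num
  · show fx 10995116277 ≤ (1 / 100 : ℝ)
    unfold fx; norm_num
  · show fx 10995116277 ≤ (1 / 100 : ℝ)
    unfold fx; norm_num
  · show fx 10995116277 ≤ (1 / 100 : ℝ)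
    unfold fx; norm_num
  · show fx 21990232555520 ≤ (20 : ℝ)
    unfold fx; norm_num
  · show (37 / 50 : ℝ) ≤ fx 813638604555
    unfold fx; norm_num
  · show fx 439804651110 ≤ (2 / 5 : ℝ)
    unfold fx; norm_num
  · show (3 / 5 : ℝ) ≤ fx 659706976666
    unfold fx; norm_num

/-- data of the run -/
def KRc2 : RnD where
  P := ⟨ic 5 4, ic 4 5, ic 33 20, ic 17 20, ic 17 10⟩
  G0 := 40600566367256
  H := 1209462790554
  s0 := 332052512
  sW := 4178144186
  se := 65970698
  F0 := 10995116277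
  F1 := 10995116277
  F2 := 10995116277

theorem KRc2_ok : KRc2.P.Ok (5 / 4) (33 / 20) (17 / 10) (17 / 10) where
  hM := by exact_mod_cast Mem.const 5 4 (by norm_num)
  hN := by
    have h := Mem.const 4 5 (by norm_num)
    norm_num at h ⊢
    exact h
  hq := by exact_mod_cast Mem.const 33 20 (by norm_num)
  hg := by
    have h := Mem.const 17 20 (by norm_num)
    norm_num at h ⊢
    exact h
  hk := by exact_mod_cast Mem.const 17 10 (by norm_num)
  pos := by norm_num
  le := by norm_num

theorem KRc2_c : bis (okC KRc2) 3 1 2 13 0 769658139444 0 2303000000000 439804651110 659706976666 = true := by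
  decide +kernel

theorem KRc2_n : bis (okN KRc2) 3 1 2 13 0 791648371999 0 2303000000000 439804651110 659706976666 = true := by
  decide +kernel

theorem runR_cC2 : RunOK (33 / 20) (17 / 10) (17 / 10) (2 / 5) (3 / 5) (18463 / 500) (11 / 10) (151 / 500000)
    (38 / 10000) (6 / 100000) (1 / 100) (1 / 100) (1 / 100) := by
  refine runOK_of (K := KRc2) KRc2_ok (lc := [769658139444]) (ln := [791648371999])
    ⟨KRc2_c, trivial⟩ ⟨KRc2_n, trivial⟩ ?_ ?_ ?_ ⟨?_, ?_, ?_, ?_, ?_, ?_⟩ ?_ ?_ ?_ ?_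
  · show (7 / 10 : ℝ) ≤ fx 769658139444
    unfold fx; norm_num
  · show (18 / 25 : ℝ) ≤ fx 791648371999
    unfold fx; norm_num
  · have h := Real.pi_lt_d4
    unfold fx
    norm_num at h ⊢
    linarith
  · show (151 / 500000 : ℝ) ≤ fx 332052512
    unfold fx; norm_num
  · show (38 / 10000 : ℝ) ≤ fx 4178144186
    unfold fx; norm_num
  · show (6 / 100000 : ℝ) ≤ fx 65970698
    unfold fx; norm_num
  · show fx 10995116277 ≤ (1 / 100 : ℝ)
    unfold fx; norm_num
  · show fx 10995116277 ≤ (1 / 100 : ℝ)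
    unfold fx; norm_num
  · show fx 10995116277 ≤ (1 / 100 : ℝ)
    unfold fx; norm_num
  · show fx 40600566367256 ≤ (18463 / 500 : ℝ)
    unfold fx; norm_num
  · show (11 / 10 : ℝ) ≤ fx 1209462790554
    unfold fx; norm_num
  · show fx 439804651110 ≤ (2 / 5 : ℝ)
    unfold fx; norm_num
  · show (3 / 5 : ℝ) ≤ fx 659706976666
    unfold fx; norm_num

end SokalCel
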