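import Pool.Agent.Lib_MP_af4de1_v3.V3
import Pool.Agent.Lib_MP_af4de1_v3.SadBase

/-!
# F1, plan v3: `PSad1.ex` (existence of the saddles of regime I)

`eo1² ≤ .3969 R`. Upper end of the domain: `y e^y = ρ`, `η = π/2 + ρ`. Lower end: `y = -9/10` if
`ρ ≥ (9/10) e^(-9/10)`, else `y e^y = -ρ`, `η = ρ - π/2`.
-/

set_option autoImplicit false

namespace SokalV3

open Complex SokalU SokalF1 SokalF1S SokalF1M

theorem psa_RR_pos (r δ : ℝ) : 0 < RR r δ := by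
  unfold RR
  positivity

/-- `Γ R = r h²` -/
theorem psa_Gm_mul (N : ℕ) (r δ : ℝ) : Gm N r δ * RR r δ = r * hst N ^ 2 := by
  have h := (psa_RR_pos r δ).ne'
  unfold Gm
  field_simp

theorem psa_hst_pos {N : ℕ} (hN : 1 ≤ N) : 0 < hst N := by
  unfold hst
  have h1 : (0 : ℝ) < N := by exact_mod_cast hN
  have := Real.pi_pos
  positivity

/-- `h² ≤ (c/49.9) R` if `Γ ≤ c` -/
theorem psa_hst_sq_le {N : ℕ} {r δ c : ℝ} (hP : Par N r δ) (hG : Gm N r δ ≤ c) :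
    499 * hst N ^ 2 ≤ 10 * c * RR r δ := by
  have h1 := psa_Gm_mul N r δ
  have h2 := psa_RR_pos r δ
  have h3 := hP.r0
  have h4 := sq_nonneg (hst N)
  nlinarith [mul_le_mul_of_nonneg_right hG h2.le, mul_le_mul_of_nonneg_right h3 h4]

/-- all angles which are used: `eo1² ≤ .3969 R` -/
theorem psa_eo1_sq_le {N : ℕ} {r δ : ℝ} (h : Reg1 N r δ) :
    eo1 N r δ ^ 2 ≤ 3969 / 10000 * RR r δ := by
  have hR := psa_RR_pos r δ
  unfold eo1 om1
  split_ifs with h1 h2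
  · have h3 := psa_hst_sq_le h.toPar h1.le
    nlinarith
  · have h3 := psa_hst_sq_le h.toPar h2.le
    nlinarith
  · have h3 := h.I
    nlinarith

theorem psa_eo1_nonneg {N : ℕ} {r δ : ℝ} (h : Reg1 N r δ) : 0 ≤ eo1 N r δ := by
  have h1 := (psa_hst_pos (N := N) (le_trans (by norm_num) h.N3)).le
  unfold eo1 om1
  split_ifs <;> positivity

theorem psa_eo1_le_half_pi {N : ℕ} {r δ : ℝ} (h : Reg1 N r δ) : eo1 N r δ ≤ Real.pi / 2 := by
  have h1 := psa_hst_pos (N := N) (le_trans (by norm_num) h.N3)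
  have h2 : hst N ≤ 2 * Real.pi / 3 := by
    unfold hst
    have h3 : (3 : ℝ) ≤ N := by exact_mod_cast h.N3
    exact div_le_div_of_nonneg_left (by positivity) (by norm_num) h3
  unfold eo1 om1
  split_ifs <;> nlinarith

theorem psa_rho_pos {N : ℕ} {r δ : ℝ} (h : Par N r δ) : 0 < r * δ :=
  mul_pos (by linarith [h.r0]) h.d0

/-- the upper end of the domain -/
theorem psa_exists_top {ρ : ℝ} (hρ : 0 < ρ) :
    ∃ y, 0 ≤ y ∧ y * Real.exp y = ρ ∧ sE ρ y = Real.pi / 2 + ρ := by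
  have hc : Continuous (fun y : ℝ => y * Real.exp y) := by fun_prop
  obtain ⟨y, hy, he⟩ := intermediate_value_Icc hρ.le hc.continuousOn
    (show ρ ∈ Set.Icc ((0 : ℝ) * Real.exp 0) (ρ * Real.exp ρ) from
      ⟨by simpa using hρ.le, le_mul_of_one_le_right hρ.le (Real.one_le_exp hρ.le)⟩)
  refine ⟨y, hy.1, he, ?_⟩
  have he' : y * Real.exp y = ρ := he
  unfold sE sP sx
  rw [he', div_self hρ.ne', Real.arcsin_one, exp_two]
  have h1 : ρ * Real.exp (-y) = y := by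
    rw [← he', mul_assoc, ← Real.exp_add]
    simp
  rw [h1, sub_self, Real.sqrt_zero, sub_zero]

/-- the lower end of the domain for small `ρ` -/
theorem psa_exists_bot {ρ : ℝ} (hρ : 0 < ρ) (h : ρ ≤ 9 / 10 * Real.exp (-(9 / 10))) :
    ∃ y, -(9 / 10) ≤ y ∧ y ≤ 0 ∧ y * Real.exp y = -ρ ∧ sE ρ y = -(Real.pi / 2) + ρ := by
  have hc : Continuous (fun y : ℝ => y * Real.exp y) := by fun_prop
  obtain ⟨y, hy, he⟩ := intermediate_value_Icc (show (-(9 / 10) : ℝ) ≤ 0 by norm_num)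
    hc.continuousOn
    (show -ρ ∈ Set.Icc ((-(9 / 10) : ℝ) * Real.exp (-(9 / 10))) ((0 : ℝ) * Real.exp 0) from
      ⟨by linarith, by simpa using hρ.le⟩)
  refine ⟨y, hy.1, hy.2, he, ?_⟩
  have he' : y * Real.exp y = -ρ := he
  unfold sE sP sx
  rw [he', neg_div, div_self hρ.ne', Real.arcsin_neg, Real.arcsin_one, exp_two]
  have h1 : ρ * Real.exp (-y) = -y := by
    have h2 : ρ = -(y * Real.exp y) := by linarith
    rw [h2, neg_mul, mul_assoc, ← Real.exp_add]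
    simp
  rw [h1]
  have h3 : (-y) ^ 2 - y ^ 2 = 0 := by ring
  rw [h3, Real.sqrt_zero, sub_zero]

/-- the lower end which is used -/
theorem psa_exists_low {ρ η : ℝ} (hρ : 0 < ρ) (hη : η ^ 2 ≤ 3969 / 10000 * (1 + ρ ^ 2)) :
    ∃ y, -(9 / 10) ≤ y ∧ y ≤ 0 ∧ Dom ρ y ∧ sE ρ y ≤ -|η| := by
  have e1 : (2459 : ℝ) / 1000 ≤ Real.exp (9 / 10) := by
    have h := Real.sum_le_exp_of_nonneg (show (0 : ℝ) ≤ 9 / 10 by norm_num) 8
    simp only [Finset.sum_range_succ, Finset.sum_range_zero, Nat.factorial] at h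
    norm_num at h
    linarith
  have e2 : Real.exp (9 / 10) ≤ 246 / 100 := by
    have h := Real.exp_bound' (show (0 : ℝ) ≤ 9 / 10 by norm_num) (by norm_num) (n := 8)
      (by norm_num)
    simp only [Finset.sum_range_succ, Finset.sum_range_zero, Nat.factorial] at h
    norm_num at h
    linarith
  have e3 : (40 : ℝ) / 100 ≤ Real.exp (-(9 / 10)) := by
    rw [Real.exp_neg, le_inv_comm₀ (by norm_num) (Real.exp_pos _)]
    refine e2.trans ?_
    norm_num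
  have e4 : Real.exp (-(9 / 10)) ≤ 407 / 1000 := by
    rw [Real.exp_neg, inv_le_comm₀ (Real.exp_pos _) (by norm_num)]
    refine le_trans ?_ e1
    norm_num
  have ha := abs_nonneg η
  have ha2 : |η| ^ 2 ≤ 3969 / 10000 * (1 + ρ ^ 2) := by rwa [sq_abs]
  rcases le_total ρ (9 / 10 * Real.exp (-(9 / 10))) with h | h
  · obtain ⟨y, h1, h2, h3, h4⟩ := psa_exists_bot hρ h
    refine ⟨y, h1, h2, ⟨hρ, ?_⟩, ?_⟩
    · rw [abs_of_nonpos h2]
      linarith
    · rw [h4]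
      have h5 : ρ ≤ 37 / 100 := by linarith
      have h6 := Real.pi_gt_d2
      have h7 : |η| ≤ 7 / 10 := by
        refine abs_le_of_sq_le_sq' ?_ (by norm_num) |>.2
        nlinarith
      linarith
  · have hD : Dom ρ (-(9 / 10)) := by
      refine ⟨hρ, ?_⟩
      rw [abs_of_neg (by norm_num)]
      linarith
    refine ⟨-(9 / 10), le_rfl, by norm_num, hD, ?_⟩
    have h1 := sE_le_neg hD (by norm_num) (by norm_num)
    have h2 : |η| ≤ ρ * (Real.exp (9 / 10) - 1) +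
        (9 / 10 - (9 / 10) ^ 2 / 2) * Real.exp (-(9 / 10)) / ρ := by
      have h3 : 145 / 100 * ρ + (198 / 1000) / ρ ≤ ρ * (Real.exp (9 / 10) - 1) +
          (9 / 10 - (9 / 10) ^ 2 / 2) * Real.exp (-(9 / 10)) / ρ := by
        have h4 : 145 / 100 * ρ ≤ ρ * (Real.exp (9 / 10) - 1) := by nlinarith
        have h5 : (198 / 1000) / ρ ≤ (9 / 10 - (9 / 10) ^ 2 / 2) * Real.exp (-(9 / 10)) / ρ :=
          div_le_div_of_nonneg_right (by nlinarith) hρ.le
        linarith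
      refine le_trans ?_ h3
      have h6 : 0 < ρ⁻¹ := inv_pos.2 hρ
      have h7 : ρ * ρ⁻¹ = 1 := mul_inv_cancel₀ hρ.ne'
      rw [div_eq_mul_inv (198 / 1000 : ℝ) ρ]
      refine abs_le_of_sq_le_sq' ?_ (by positivity) |>.2
      have h8 : (145 / 100 * ρ + 198 / 1000 * ρ⁻¹) ^ 2 =
          (145 / 100) ^ 2 * ρ ^ 2 + 2 * (145 / 100) * (198 / 1000) + (198 / 1000 * ρ⁻¹) ^ 2 := by
        linear_combination (2 * (145 / 100) * (198 / 1000)) * h7
      rw [h8]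
      nlinarith [sq_nonneg ρ, sq_nonneg (198 / 1000 * ρ⁻¹)]
    linarith

/-- PIECE `PSad1.ex` -/
theorem psad1_ex (N : ℕ) (r δ η : ℝ) (h : Reg1 N r δ) (hη : |η| ≤ eo1 N r δ) :
    ∃ y, At r δ y η := by
  have hρ := psa_rho_pos h.toPar
  obtain ⟨y2, h1, h2, h3⟩ := psa_exists_top hρ
  have hsq : η ^ 2 ≤ 3969 / 10000 * (1 + (r * δ) ^ 2) := by
    have h4 := psa_eo1_sq_le h
    have h5 : η ^ 2 ≤ eo1 N r δ ^ 2 := by
      rw [← sq_abs η]
      exact pow_le_pow_left₀ (abs_nonneg _) hη 2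
    exact h5.trans h4
  obtain ⟨y1, g1, g2, g3, g4⟩ := psa_exists_low hρ hsq
  have hD2 : Dom (r * δ) y2 := ⟨hρ, by rw [abs_of_nonneg h1, h2]⟩
  obtain ⟨y, hy, he⟩ := exists_sE (ρ := r * δ) (g2.trans h1) (g4.trans (neg_abs_le η))
    (show η ≤ sE (r * δ) y2 by
      rw [h3]
      have h5 := psa_eo1_le_half_pi h
      have h6 := le_abs_self η
      linarith)
  refine ⟨y, ⟨⟨hρ, ?_⟩, by linarith [hy.1], he⟩⟩
  rw [dom_iff]
  have a1 := (dom_iff.1 g3.2).1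
  have a2 := (dom_iff.1 hD2.2).2
  have b1 : y1 * Real.exp y1 ≤ y * Real.exp y := strictMonoOn_mul_exp.monotoneOn (show y1 ∈ Set.Ici (-1 : ℝ) by
    rw [Set.mem_Ici]; linarith) (show y ∈ Set.Ici (-1 : ℝ) by
    rw [Set.mem_Ici]; linarith [hy.1]) hy.1
  have b2 : y * Real.exp y ≤ y2 * Real.exp y2 := strictMonoOn_mul_exp.monotoneOn (show y ∈ Set.Ici (-1 : ℝ) by
    rw [Set.mem_Ici]; linarith [hy.1]) (show y2 ∈ Set.Ici (-1 : ℝ) by
    rw [Set.mem_Ici]; linarith) hy.2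
  exact ⟨by linarith, by linarith⟩

end SokalV3
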