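import Pool.Agent.Lib_MP_af4de1_v3.V3

/-!
# SHIFT: closed forms for the first far wave and the cut of the pieces `b`

Left (`y ≥ 0`, shift `h`), on the path through the own saddle, `s = -v`, `0 ≤ v ≤ h`, `z = h - v`, `c = 1/(1+x)`:
`Ht ≥ A v² + l v + B (h-v)² + y E b' h`, `A = (2+x)/(2(1+x)²)`, `E = e^(-c h)`, `B = x E b`, `b = (1-cos h)/h²`,
`b' = sin h/h`, `l = y (1 - E b')`.
Right (`y = -n ≤ 0`, shift `-h`), `s = v`: `Ht ≥ A v² + l v + B (h-v)² + n b' h`, `A = (1+(1-g)x)/(1+x)²`,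
`g = (e^a1 - 1 - a1)/a1²`, `a1 = c h`, `B = x b`, `l = n (1 - b')`.
-/

set_option autoImplicit false

namespace SokalV3

open Complex SokalU SokalF1 SokalF1S SokalF1M

/-- exponent (times `δ`): minimum over `v` of `A v² + l v + B (h-v)²`, plus `X0` -/
noncomputable def sX (A B l h X0 : ℝ) : ℝ := (4 * A * B * h ^ 2 + 4 * B * l * h - l ^ 2) / (4 * (A + B)) + X0
/-- centre of the Gaussian -/
noncomputable def sv (A B l h : ℝ) : ℝ := (B * h - l / 2) / (A + B)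

/-- left: `A` -/
noncomputable def lA (x : ℝ) : ℝ := (2 + x) / (2 * (1 + x) ^ 2)
/-- left: `E` -/
noncomputable def lE (x h : ℝ) : ℝ := Real.exp (-(h / (1 + x)))
/-- left: `B` -/
noncomputable def lB (x h : ℝ) : ℝ := x * lE x h * ((1 - Real.cos h) / h ^ 2)
/-- left: `l` -/
noncomputable def ll (x y h : ℝ) : ℝ := y * (1 - lE x h * (Real.sin h / h))
/-- left: exponent times `δ` -/
noncomputable def lX (x y h : ℝ) : ℝ :=
  sX (lA x) (lB x h) (ll x y h) h (y * (lE x h * (Real.sin h / h)) * h)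
/-- left: second moment of the weight `c² v² + (h-v)²` -/
noncomputable def lW (x y h δ : ℝ) : ℝ :=
  (1 / (1 + x)) ^ 2 * sv (lA x) (lB x h) (ll x y h) h ^ 2 + (h - sv (lA x) (lB x h) (ll x y h) h) ^ 2 +
    (1 + (1 / (1 + x)) ^ 2) * δ / (2 * (lA x + lB x h))
/-- left: `F0` -/
noncomputable def lF0 (N : ℕ) (r δ y : ℝ) : ℝ :=
  √(sD (r * δ) y * (1 + (1 / (1 + sx (r * δ) y)) ^ 2) /
      (2 * (lA (sx (r * δ) y) + lB (sx (r * δ) y) (hst N)))) *
    Real.exp (-(lX (sx (r * δ) y) y (hst N) / δ))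
/-- left: `F1` -/
noncomputable def lF1 (N : ℕ) (r δ y : ℝ) : ℝ :=
  lF0 N r δ y * (‖kap r δ y‖ * √(lW (sx (r * δ) y) y (hst N) δ) / HH N r δ)
/-- left: `F2` -/
noncomputable def lF2 (N : ℕ) (r δ y : ℝ) : ℝ :=
  lF0 N r δ y * ((‖kap r δ y‖ ^ 2 * lW (sx (r * δ) y) y (hst N) δ + ‖kap r δ y‖) / HH N r δ ^ 2)

/-- right: `a1` -/
noncomputable def ra (x h : ℝ) : ℝ := h / (1 + x)
/-- right: `g` -/
noncomputable def rg (x h : ℝ) : ℝ := (Real.exp (ra x h) - 1 - ra x h) / ra x h ^ 2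
/-- right: `A` -/
noncomputable def rA (x h : ℝ) : ℝ := (1 + (1 - rg x h) * x) / (1 + x) ^ 2
/-- right: `B` -/
noncomputable def rB (x h : ℝ) : ℝ := x * ((1 - Real.cos h) / h ^ 2)
/-- right: `l`, `n = -y` -/
noncomputable def rl (n h : ℝ) : ℝ := n * (1 - Real.sin h / h)
/-- right: exponent times `δ` -/
noncomputable def rX (x n h : ℝ) : ℝ := sX (rA x h) (rB x h) (rl n h) h (n * (Real.sin h / h) * h)
/-- right: second moment of the weight `(e1 c v)² + e^a1 (h-v)²`, `e1 = (e^a1 - 1)/a1` -/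
noncomputable def rW (x n h δ : ℝ) : ℝ :=
  ((Real.exp (ra x h) - 1) / ra x h * (1 / (1 + x))) ^ 2 *
      (sv (rA x h) (rB x h) (rl n h) h ^ 2 + δ / (2 * (rA x h + rB x h))) +
    Real.exp (ra x h) * ((h - sv (rA x h) (rB x h) (rl n h) h) ^ 2 + δ / (2 * (rA x h + rB x h)))
/-- right: `F0` -/
noncomputable def rF0 (N : ℕ) (r δ y : ℝ) : ℝ :=
  √(sD (r * δ) y * (1 + (1 / (1 + sx (r * δ) y)) ^ 2) /
      (2 * (rA (sx (r * δ) y) (hst N) + rB (sx (r * δ) y) (hst N)))) *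
    Real.exp (-(rX (sx (r * δ) y) (-y) (hst N) / δ))
/-- right: `F1` -/
noncomputable def rF1 (N : ℕ) (r δ y : ℝ) : ℝ :=
  rF0 N r δ y * (‖kap r δ y‖ * √(rW (sx (r * δ) y) (-y) (hst N) δ) / HH N r δ)
/-- right: `F2` -/
noncomputable def rF2 (N : ℕ) (r δ y : ℝ) : ℝ :=
  rF0 N r δ y * ((‖kap r δ y‖ ^ 2 * rW (sx (r * δ) y) (-y) (hst N) δ +
    ‖kap r δ y‖ * Real.exp (ra (sx (r * δ) y) (hst N))) / HH N r δ ^ 2)

/- NOTE (helper73): for small `x` (`N ≥ 8`) the centre `v* = sv ..` is close to `0`, so the part `v < 0` is not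
negligible: use half Gaussians, i.e. main part `≤ (1/2 + v* √((A+B)/(π δ))) * full` and the part `v < 0` (`s > 0`)
`≤ (1/2) √(D (1+c²)/(2 A₂)) e^(-(x (1 - cos h) + y sin h)/δ)`, `A₂ = (1 + .45 x)/(1+x)²`.  Program, all `N`, both parts:
window .0565 / .0563 / .0689 (left), .034 / .041 / .057 (right); inner angles .164 / .162 (left), .121 / .127 (right);
`Γ ≥ 10`: window .0039, inner angles .040.  The two statements below are a PROPOSAL for `N ≤ 7` (or replace `1/500`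
by the half Gaussian of the part `v < 0`). -/

/-- REDUCTION of the first far wave, left (remainder: `v < 0` and `v > h`), all own angles. -/
def PRedL : Prop := ∀ (N : ℕ) (r δ y η : ℝ), Reg1 N r δ → At r δ y η → Sad1 N r δ y →
  0 ≤ η → η ≤ eo1 N r δ → η + hst N ≤ Real.pi →
  Shf r δ y (hst N) (HH N r δ) (lF0 N r δ y + 1 / 500) (lF1 N r δ y + 1 / 500) (lF2 N r δ y + 1 / 500)

/-- REDUCTION, right. -/
def PRedR : Prop := ∀ (N : ℕ) (r δ y η : ℝ), Reg1 N r δ → At r δ y η → Sad1 N r δ y →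
  η ≤ 0 → -eo1 N r δ ≤ η → -Real.pi ≤ η - hst N →
  Shf r δ y (-hst N) (HH N r δ) (rF0 N r δ y + 1 / 500) (rF1 N r δ y + 1 / 500)
    (rF2 N r δ y + 1 / 500)

/-- REAL INEQUALITY, left (program: .0585, .058, .070). -/
def PRealL : Prop := ∀ (N : ℕ) (r δ y η : ℝ), Reg1 N r δ → At r δ y η → Sad1 N r δ y →
  Gm N r δ < 10 → ei1 N r δ ≤ η → η ≤ eo1 N r δ →
  lF0 N r δ y ≤ 39 / 500 ∧ lF1 N r δ y ≤ 39 / 500 ∧ lF2 N r δ y ≤ 59 / 500

/-- REAL INEQUALITY, right (program: .034, .041, .057). -/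
def PRealR : Prop := ∀ (N : ℕ) (r δ y η : ℝ), Reg1 N r δ → At r δ y η → Sad1 N r δ y →
  Gm N r δ < 10 → η ≤ -ei1 N r δ → -eo1 N r δ ≤ η →
  rF0 N r δ y ≤ 29 / 500 ∧ rF1 N r δ y ≤ 63 / 1000 ∧ rF2 N r δ y ≤ 11 / 125

end SokalV3
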