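import Pool.Agent.Lib_MP_af4de1_v3.RunLab
import Pool.Agent.Lib_MP_af4de1_v3.RunLE
import Pool.Agent.Lib_MP_af4de1_v3.ClJ
import Pool.Agent.Lib_MP_af4de1_v3.DzRealL
import Pool.Agent.Lib_MP_af4de1_v3.ShfE0
import Pool.Agent.Lib_MP_af4de1_v3.V3e
import Pool.Agent.Lib_MP_af4de1_v3o.OFin

/-!
# Left side, regime I: `PShfLw`, complete
-/

set_option autoImplicit false

namespace SokalCel

open SokalV3 SokalF1 SokalF1S SokalF1M SokalCen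

/-- field `d`, left, from the general `d` -/
theorem shfL_d_of (D : DGL) : ∀ (N i : ℕ) (r δ y η : ℝ), Reg1 N r δ → At r δ y η →
    Sad1 N r δ y → 0 ≤ η → η ≤ eo1 N r δ → 2 ≤ i → η + i * hst N ≤ Real.pi →
    Shf r δ y (i * hst N) (HH N r δ) ((1 / 2) ^ i / 100) ((1 / 2) ^ i / 100)
      ((1 / 2) ^ i / 100) :=
  fun N i r δ y η hR hA hS h0 h1 hi hp => D N i r δ y η _ hR hA hS h0 h1 hi le_rfl hp

/-- FIELD `d`, LEFT -/
theorem shfL_d : ∀ (N i : ℕ) (r δ y η : ℝ), Reg1 N r δ → At r δ y η →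
    Sad1 N r δ y → 0 ≤ η → η ≤ eo1 N r δ → 2 ≤ i → η + i * hst N ≤ Real.pi →
    Shf r δ y (i * hst N) (HH N r δ) ((1 / 2) ^ i / 100) ((1 / 2) ^ i / 100)
      ((1 / 2) ^ i / 100) := shfL_d_of SokalDz.dGL

/-- FIELD `e`, LEFT -/
theorem shfL_e : ∀ (N i : ℕ) (r δ y ζ : ℝ), Reg1 N r δ → At r δ y (eo1 N r δ) →
    Sad1 N r δ y → 1 ≤ i → i * hst N ≤ ζ → eo1 N r δ + ζ ≤ Real.pi →
    Shf r δ y ζ (HH N r δ) ((1 / 2) ^ i * (3 / 100)) ((1 / 2) ^ i * (3 / 50)) 1 :=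
  SokalCen.shfL_e_of SokalDz.dGL e1L

/-- PIECE SHIFT, left side. -/
theorem pShfLw : PShfLw where
  a := shfL_a
  a' := SokalCl.shfL_a'
  b := shfL_b
  c := SokalCl.shfL_c
  d := shfL_d
  e := shfL_e
  o := SokalV3O.shfL_o

end SokalCel

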