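import Pool.Agent.Lib_MP_af4de1_v3.ShStat
import Pool.Agent.Lib_MP_af4de1_v3.SadBase

/-!
# Left shift, real inequalities: elementary estimates at a saddle `y ≥ 0`

`x = sx ρ y`, `0 ≤ y ≤ 41/100`, `y ≤ 19/50 x`.
-/

set_option autoImplicit false

namespace SokalV3

open Real SokalF1S

theorem exp_quad {y : ℝ} (h0 : 0 ≤ y) (h1 : y ≤ 41 / 100) : Real.exp y ≤ 1 + y + 3 / 5 * y ^ 2 := by
  have h := Real.exp_bound' h0 (by linarith) (n := 3) (by norm_num)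
  have e : ∑ m ∈ Finset.range 3, y ^ m / (m.factorial : ℝ) + y ^ 3 * ((3 : ℕ) + 1) / ((Nat.factorial 3 : ℕ) * (3 : ℕ)) =
      1 + y + y ^ 2 / 2 + 2 / 9 * y ^ 3 := by
    simp [Finset.sum_range_succ, Nat.factorial]
    ring
  rw [e] at h
  have : y ^ 3 ≤ 41 / 100 * y ^ 2 := by nlinarith [sq_nonneg y]
  nlinarith [sq_nonneg y]

theorem exp_chord {y : ℝ} (h0 : 0 ≤ y) (h1 : y ≤ 41 / 100) : Real.exp y ≤ 1 + 5 / 4 * y := by
  have h := exp_quad h0 h1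
  nlinarith

/-- `ρ e^(-y) ≤ x + y²/(2x)` -/
theorem rho_exp_le {ρ y : ℝ} (h : Dom ρ y) (hx : 0 < sx ρ y) :
    ρ * Real.exp (-y) ≤ sx ρ y + y ^ 2 / (2 * sx ρ y) := by
  have h1 := sx_sq_add h
  have hρ := h.1
  refine abs_le_of_sq_le_sq' ?_ (by positivity) |>.2
  rw [← h1]
  have e : (sx ρ y + y ^ 2 / (2 * sx ρ y)) ^ 2 = sx ρ y ^ 2 + y ^ 2 + (y ^ 2 / (2 * sx ρ y)) ^ 2 := by
    field_simp
    ring
  rw [e]
  nlinarith [sq_nonneg (y ^ 2 / (2 * sx ρ y))]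

/-- `ρ ≤ x + (27/20 x + 19/100) y` -/
theorem rho_le {ρ y : ℝ} (h : Dom ρ y) (h0 : 0 ≤ y) (h1 : y ≤ 41 / 100) (hx : 0 < sx ρ y)
    (hT : y ≤ 19 / 50 * sx ρ y) : ρ ≤ sx ρ y + (27 / 20 * sx ρ y + 19 / 100) * y := by
  have a1 := rho_exp_le h hx
  have a2 := exp_quad h0 h1
  have e1 := exp_mul_neg y
  have hρ := h.1
  set x := sx ρ y with hxd
  have a3 : y ^ 2 / (2 * x) ≤ 19 / 100 * y := by
    rw [div_le_iff₀ (by positivity)]
    nlinarith
  have a4 : ρ = (ρ * Real.exp (-y)) * Real.exp y := by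
    linear_combination (-ρ) * e1
  rw [a4]
  calc (ρ * Real.exp (-y)) * Real.exp y ≤ (x + 19 / 100 * y) * (1 + y + 3 / 5 * y ^ 2) :=
        mul_le_mul (by linarith) a2 (Real.exp_pos y).le (by positivity)
    _ ≤ _ := by
        have c1 : 3 / 5 * (x * y * y) ≤ 3 / 5 * (x * y * (41 / 100)) := by gcongr
        have c2 : 19 / 100 * (y * y) ≤ 19 / 100 * (y * (19 / 50 * x)) := by gcongr
        have c3 : 57 / 500 * (y * y * y) ≤ 57 / 500 * (y * (19 / 50 * x) * (41 / 100)) := by gcongr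
        have c4 : 0 ≤ x * y := by positivity
        nlinarith

/-- `x η ≤ y (1 + x²)(1 + 19/25 y)` -/
theorem eta_le {ρ y : ℝ} (h : Dom ρ y) (h0 : 0 ≤ y) (h1 : y ≤ 41 / 100) (hx : 0 < sx ρ y)
    (hT : y ≤ 19 / 50 * sx ρ y) :
    sx ρ y * sE ρ y ≤ y * (1 + sx ρ y ^ 2) * (1 + 19 / 25 * y) := by
  have a1 := rho_exp_le h hx
  have a2 := exp_quad h0 h1
  have a5 := exp_chord h0 h1
  have e1 := exp_mul_neg y
  have hρ := h.1
  have hψ0 := sP_nonneg (y := y) hρ h0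
  have hψ1 := (abs_le.1 (sP_abs_le ρ y)).2
  have hsx := sx_eq h
  have hy := y_eq h
  have hη : sE ρ y = sP ρ y + ρ - sx ρ y := rfl
  have ht : sP ρ y * Real.cos (sP ρ y) ≤ Real.sin (sP ρ y) := by
    rcases hψ1.eq_or_lt with h2 | h2
    · rw [h2]; simp
    · have h3 := Real.le_tan hψ0 h2
      have h4 : 0 < Real.cos (sP ρ y) := Real.cos_pos_of_mem_Ioo ⟨by linarith [Real.pi_pos], h2⟩
      rw [Real.tan_eq_sin_div_cos, le_div_iff₀ h4] at h3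
      exact h3
  have hE' := Real.exp_pos (-y)
  have b1 : sx ρ y * sP ρ y ≤ y := by
    calc sx ρ y * sP ρ y = ρ * Real.exp (-y) * (sP ρ y * Real.cos (sP ρ y)) := by
          rw [hsx]; ring
      _ ≤ ρ * Real.exp (-y) * Real.sin (sP ρ y) := mul_le_mul_of_nonneg_left ht (by positivity)
      _ = y := hy.symm
  set x := sx ρ y with hxd
  have a4 : x * ρ ≤ (x ^ 2 + y ^ 2 / 2) * Real.exp y := by
    calc x * ρ = x * ((ρ * Real.exp (-y)) * Real.exp y) := by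
          linear_combination (-x * ρ) * e1
      _ ≤ x * ((x + y ^ 2 / (2 * x)) * Real.exp y) := by
          have := Real.exp_pos y
          gcongr
      _ = _ := by field_simp
  have a6 : x ^ 2 * Real.exp y ≤ x ^ 2 * (1 + y + 3 / 5 * y ^ 2) :=
    mul_le_mul_of_nonneg_left a2 (sq_nonneg x)
  have a7 : y ^ 2 / 2 * Real.exp y ≤ y ^ 2 / 2 * (1 + 5 / 4 * y) :=
    mul_le_mul_of_nonneg_left a5 (by positivity)
  have a8 : y ^ 2 * y ≤ 41 / 100 * y ^ 2 := by nlinarith [sq_nonneg y]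
  rw [hη]
  nlinarith [mul_nonneg (sq_nonneg x) (sq_nonneg y), sq_nonneg y]

/-- `ρ ≥ x` -/
theorem le_rho {ρ y : ℝ} (h : Dom ρ y) (h0 : 0 ≤ y) : sx ρ y ≤ ρ := by
  have h1 := sx_le h
  have h2 : Real.exp (-y) ≤ 1 := Real.exp_le_one_iff.2 (by linarith)
  have hρ := h.1
  nlinarith

end SokalV3
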