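import Pool.Agent.Lib_MP_af4de1_v3.ShfR3
import Pool.Agent.Lib_MP_af4de1_v3.RunRa
import Pool.Agent.Lib_MP_af4de1_v3.RunRaB
import Pool.Agent.Lib_MP_af4de1_v3.RunRaC

/-!
# Right side, regime I: the fields `a`, `a'` of `PShfRw`
-/

set_option autoImplicit false

namespace SokalCel

open SokalV3 SokalF1 SokalF1S SokalF1M

/-- field `a` -/
theorem shfR_a : ∀ (N : ℕ) (r δ y η : ℝ), Reg1 N r δ → At r δ y η → Sad1 N r δ y → Gm N r δ < 10 →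
    η ≤ 0 → -ei1 N r δ ≤ η → -Real.pi ≤ η - hst N →
    Shf r δ y (-hst N) (HH N r δ) (1 / 5) (1 / 5) 1 :=
  shfR_a_of bfrAll runR_a

/-- field `a'` -/
theorem shfR_a' : ∀ (N : ℕ) (r δ y η : ℝ), Reg1 N r δ → At r δ y η → Sad1 N r δ y →
    10 ≤ Gm N r δ → η ≤ 0 → -ei1 N r δ ≤ η → -Real.pi ≤ η - hst N →
    Shf r δ y (-hst N) (HH N r δ) (3 / 50) (3 / 50) 1 :=
  shfR_a'_of bfrAll runR_aB runR_aC

end SokalCel
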