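import Pool.Agent.Lib_MP_af4de1_v3.ShfR0
import Pool.Agent.Lib_MP_af4de1_v3.BrRh

/-!
# Right side: from the run (`RunP`), the level (`Lev`) and rest + far to `Shf`, REAL `h > 0`
-/

set_option autoImplicit false

namespace SokalV3

/-- `Lev` with the minimum of the two bounds of `D` -/
theorem Lev.qmin {r δ y η g k q : ℝ} (hr : 0 < r) (hδ : 0 < δ) (h : Lev r δ y η g k q) :
    Lev r δ y η g k (min q (1 + k * (|η| / √(RR r δ)))) := by
  refine ⟨h.l0, h.l1, ?_⟩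
  rw [min_mul_of_nonneg _ _ (Real.sqrt_nonneg _)]
  exact le_min h.l2 (h.q1 hr hδ)

end SokalV3

namespace SokalCel

open Real MeasureTheory Set SokalCen SokalV3 SokalF1 SokalF1S SokalF1M

/-- `UB` of `CenUReal` with a real `h` -/
def UBh (h r δ η g q θ : ℝ) (S : Set ℝ) (b0 bW be : ℝ) : Prop :=
  ∃ u0 uW ue : ℝ, 0 ≤ u0 ∧ 0 ≤ uW ∧ 0 ≤ ue ∧
    Zone r (mm (r * δ)) (r * δ) θ 1 S u0 uW ue ∧
    PF r δ η g q * u0 ≤ b0 ∧
    PF r δ η g q * uW * (RR r δ / h ^ 2) ≤ bW ∧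
    PF r δ η g q * ue / (r * h ^ 2 / RR r δ) ≤ be

theorem UB.toh {N : ℕ} {h r δ η g q θ b0 bW be : ℝ} {S : Set ℝ} (hN : 1 ≤ N) (hr : 0 < r)
    (hh : hst N ≤ h) (U : UB N r δ η g q θ S b0 bW be) : UBh h r δ η g q θ S b0 bW be := by
  obtain ⟨u0, uW, ue, n0, nW, ne, Z, e0, eW, ee⟩ := U
  have h0 := hst_pos1 hN
  have hR : 0 < RR r δ := by unfold RR; positivity
  have hP := PF_nonneg r δ η g q
  refine ⟨u0, uW, ue, n0, nW, ne, Z, e0, le_trans ?_ eW, le_trans ?_ ee⟩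
  · refine mul_le_mul_of_nonneg_left ?_ (by positivity)
    gcongr
  · unfold Gm
    gcongr

theorem shfR_runh {r δ y η g k q h f0 f1 f2 b0 bW be : ℝ} (hh : 0 < h) (hr : 0 < r)
    (hδ : 0 < δ) (hA : At r δ y η) (hη : η ≤ 0) (hp : -π ≤ η - h) (hL : Lev r δ y η g k q)
    (hk : 0 ≤ k) (hq : 0 ≤ q)
    (B : BFr r (r * δ) (√(RR r δ)) g q (|η| / h) (r * h ^ 2 / RR r δ) (5 / 4) (h))
    (U : UBh h r δ η g q (-((1 + |η| / h) * h)) (UsR ((1 + |η| / h) * h)) b0 bW be)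
    (X : RunP (5 / 4) q k g (1 / √(RR r δ)) (r * δ / √(RR r δ)) (h) (|η| / h)
      (r * h ^ 2 / RR r δ) (bet ((1 + |η| / h) * h)) b0 bW be f0 f1 f2) :
    Shf r δ y (-h) ((r * h / √(RR r δ))) f0 f1 f2 := by
  have D := dath hh hr hδ η
  have hs := D.s0
  have hΓ := D.Γ0
  have hρ : 0 < r * δ := mul_pos hr hδ
  have hRR : 0 < RR r δ := by unfold RR; positivity
  have hs2 : √(RR r δ) ^ 2 = RR r δ := Real.sq_sqrt hRR.le
  have ht : 0 < (1 + |η| / h) * h := D.t0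
  have hte : (1 + |η| / h) * h = |η| + h := by
    field_simp
    ring
  have htp : (1 + |η| / h) * h ≤ π := by
    rw [hte, abs_of_nonpos hη]
    linarith
  have hθ : η + -h = -((1 + |η| / h) * h) := by
    rw [hte, abs_of_nonpos hη]
    ring
  have em : mm (r * δ) = 5 / 4 * √(RR r δ) := rfl
  obtain ⟨F0, FW, Fe, n0, nW, ne, ZF, e0, eW, ee⟩ := U
  have hsqρ : r * δ ≤ √(RR r δ) := by
    refine Real.le_sqrt_of_sq_le ?_
    unfold RR
    linarith
  have hsq1 : 1 ≤ √(RR r δ) := by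
    refine Real.le_sqrt_of_sq_le ?_
    unfold RR
    nlinarith [sq_nonneg (r * δ)]
  have hm : r * δ ≤ mm (r * δ) := by
    rw [em]
    linarith
  have hm1 : 5 / 4 ≤ mm (r * δ) := by
    rw [em]
    linarith
  have hy : y ≤ 0 := y_nonpos hA hη
  have hκ : 0 ≤ k * (|η| / √(RR r δ)) := by positivity
  have hw := w_sub hr hL
  rw [sK_ww hA.dom, mul_div_assoc] at hw
  have hc : 0 ≤ -y := by linarith
  have hd : sP (r * δ) y ≤ 0 := sP_nonpos hρ hy
  have hd2 : -(π / 2) ≤ sP (r * δ) y := (abs_le.1 (sP_abs_le (r * δ) y)).1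
  have Z := zoneR hr hρ hm hm1 ht htp hc hd hd2 hκ hw n0 nW ne ZF
  rw [← sK_ww hA.dom, ← hθ] at Z
  have ht' : 0 < 2 * π - (1 + |η| / h) * h := by linarith [pi_pos]
  have m1 := bR0_nonneg hr hρ hm ht
  have m2 := bRW_nonneg hr hρ hm ht
  have m3 := bRe_nonneg hr hρ hm ht
  have m4 := fR0_nonneg (t := (1 + |η| / h) * h) hr hρ hm
  have m5 := fRW_nonneg hr hρ hm ht
  have m6 := iL0_nonneg (q := r) hρ hm ht'
  have m7 := iLW_nonneg hr hρ hm ht'
  have m8 := jL0_nonneg (q := r) (m := mm (r * δ)) (ρ := r * δ)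
    (t := 2 * π - (1 + |η| / h) * h)
  have m9 := jLW_nonneg hr hρ hm ht'.le
  have hLt : Ltp (h) (|η| / h) = 2 * π - (1 + |η| / h) * h := rfl
  have hLt0 : 0 < Ltp (h) (|η| / h) := by rw [hLt]; exact ht'
  have i1 := D.imI0 (μ := 5 / 4) (g := g) (q := q) (by norm_num) hq hLt0
  have i2 := D.imIW (μ := 5 / 4) (g := g) (q := q) (by norm_num) hq hLt0
  obtain ⟨B0, BW, Be, f0', fW'⟩ := B
  rw [← PF_eqh hh hr hδ η g q] at i1 i2 B0 BW Be f0' fW'
  rw [hLt] at i1 i2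
  have hP := PF_nonneg r δ η g q
  have hRh : 0 < RR r δ / h ^ 2 := by positivity
  have e1 : (h * (1 / √(RR r δ))) ^ 2 * (RR r δ / h ^ 2) = 1 := by
    rw [mul_pow, div_pow, hs2]
    field_simp
  have conv : ∀ A V : ℝ, PF r δ η g q * A ≤ (h * (1 / √(RR r δ))) ^ 2 * V →
      PF r δ η g q * A * (RR r δ / h ^ 2) ≤ V := by
    intro A V hAV
    have h1 := mul_le_mul_of_nonneg_right hAV hRh.le
    have h2 : (h * (1 / √(RR r δ))) ^ 2 * V * (RR r δ / h ^ 2) = V := by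
      calc (h * (1 / √(RR r δ))) ^ 2 * V * (RR r δ / h ^ 2)
          = (h * (1 / √(RR r δ))) ^ 2 * (RR r δ / h ^ 2) * V := by ring
        _ = V := by rw [e1, one_mul]
    linarith
  have c1 := conv _ _ BW
  have c2 := conv _ _ fW'
  have c3 := conv _ _ i2
  refine shfR_ofh (F0 := F0) (FW := FW) (Fe := Fe) hh hr hδ hA hL hk hq ?_ ?_ ?_ Z ?_ ?_ ?_ X.i0
    X.i1 X.i2
  · unfold SR0
    positivity
  · unfold SRW
    positivity
  · unfold SRe
    positivity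
  · unfold SR0 XS0
    rw [← em] at B0 f0' i1
    nlinarith
  · unfold SRW XSW
    rw [← em] at c1 c2 c3
    have h1 : PF r δ η g q * (bRW r (mm (r * δ)) (r * δ) ((1 + |η| / h) * h) +
        fRW r (mm (r * δ)) (r * δ) ((1 + |η| / h) * h) +
        iLW r (mm (r * δ)) (r * δ) (2 * π - (1 + |η| / h) * h) +
        jLW r (mm (r * δ)) (r * δ) (2 * π - (1 + |η| / h) * h) + FW) *
        (RR r δ / h ^ 2) =
        PF r δ η g q * bRW r (mm (r * δ)) (r * δ) ((1 + |η| / h) * h) *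
          (RR r δ / h ^ 2) +
        PF r δ η g q * fRW r (mm (r * δ)) (r * δ) ((1 + |η| / h) * h) *
          (RR r δ / h ^ 2) +
        PF r δ η g q * (iLW r (mm (r * δ)) (r * δ) (2 * π - (1 + |η| / h) * h) +
          jLW r (mm (r * δ)) (r * δ) (2 * π - (1 + |η| / h) * h)) *
          (RR r δ / h ^ 2) + PF r δ η g q * FW * (RR r δ / h ^ 2) := by ring
    rw [h1]
    linarith
  · unfold SRe XSe
    rw [← em] at Be f0' i1
    have h1 : PF r δ η g q * (bRe r (mm (r * δ)) (r * δ) ((1 + |η| / h) * h) +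
        fR0 r (mm (r * δ)) (r * δ) ((1 + |η| / h) * h) +
        iL0 r (mm (r * δ)) (r * δ) (2 * π - (1 + |η| / h) * h) +
        jL0 r (mm (r * δ)) (r * δ) (2 * π - (1 + |η| / h) * h) + Fe) / (r * h ^ 2 / RR r δ) =
        PF r δ η g q * bRe r (mm (r * δ)) (r * δ) ((1 + |η| / h) * h) / (r * h ^ 2 / RR r δ) +
        (PF r δ η g q * fR0 r (mm (r * δ)) (r * δ) ((1 + |η| / h) * h) +
        PF r δ η g q * (iL0 r (mm (r * δ)) (r * δ) (2 * π - (1 + |η| / h) * h) +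
          jL0 r (mm (r * δ)) (r * δ) (2 * π - (1 + |η| / h) * h))) / (r * h ^ 2 / RR r δ) +
        PF r δ η g q * Fe / (r * h ^ 2 / RR r δ) := by ring
    rw [h1]
    have h2 : PF r δ η g q * bRe r (mm (r * δ)) (r * δ) ((1 + |η| / h) * h) / (r * h ^ 2 / RR r δ) ≤
        RBE (5 / 4) q g (1 / √(RR r δ)) (r * δ / √(RR r δ)) (h) (|η| / h) (r * h ^ 2 / RR r δ) := by
      rw [div_le_iff₀ hΓ, mul_comm (RBE _ _ _ _ _ _ _ _)]
      exact Be
    have h3 : (PF r δ η g q * fR0 r (mm (r * δ)) (r * δ) ((1 + |η| / h) * h) +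
        PF r δ η g q * (iL0 r (mm (r * δ)) (r * δ) (2 * π - (1 + |η| / h) * h) +
          jL0 r (mm (r * δ)) (r * δ) (2 * π - (1 + |η| / h) * h))) / (r * h ^ 2 / RR r δ) ≤
        (XF0 (5 / 4) q g (1 / √(RR r δ)) (r * δ / √(RR r δ)) (h) (|η| / h) (r * h ^ 2 / RR r δ) +
        (RI0 (5 / 4) q g (1 / √(RR r δ)) (r * δ / √(RR r δ)) (h) (|η| / h) (r * h ^ 2 / RR r δ) +
          RJ0 (5 / 4) q g (1 / √(RR r δ)) (r * δ / √(RR r δ)) (h) (|η| / h)
            (r * h ^ 2 / RR r δ))) / (r * h ^ 2 / RR r δ) :=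
      div_le_div_of_nonneg_right (add_le_add f0' i1) hΓ.le
    linarith

end SokalCel
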