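import Pool.Agent.Lib_MP_af4de1_v3.ShfR2
import Pool.Agent.Lib_MP_af4de1_v3.BrRb
import Pool.Agent.Lib_MP_af4de1_v3.BrRf

/-!
# The bridge of behind and front, all points (right side)
-/

set_option autoImplicit false

namespace SokalCel

theorem bfrAll : BFrAll := fun _ _ _ _ _ _ _ _ _ D hμ hq =>
  ⟨(D.bb0 hμ hq).le, (D.bbW hμ hq).le, (D.bbe hμ hq).le, D.frF0 hμ hq, D.frFW hμ hq⟩

end SokalCel
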