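import Pool.Agent.Lib_MP_af4de1_v3.ShfR2
import Pool.Agent.Lib_MP_af4de1_v3.ShfRe0

/-!
# Field `e`, right: `E1R` from the runs `RunE`, the bridge `BFrAll`, the levels and rest + far
-/

set_option autoImplicit false

namespace SokalCel

open Real MeasureTheory Set SokalCen SokalV3 SokalF1 SokalF1S SokalF1M SokalFN

/-- one point: `h = z = |ζ|`, `η = -eo1` -/
theorem e1R_pt {N : ℕ} {r δ y z g k q τ0 G0 b0 bW be : ℝ} (hB : BFrAll)
    (X : RunE q k g τ0 G0 b0 bW be) (hR : Reg1 N r δ) (hA : At r δ y (-eo1 N r δ))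
    (hτ0 : 0 < τ0) (hτ : eo1 N r δ = τ0 * hst N) (hL : Lev r δ y (-eo1 N r δ) g k q)
    (hk : 0 ≤ k) (hq : 0 ≤ q) (hG : G0 ≤ Gm N r δ) (h1 : hst N ≤ z) (h2 : z ≤ 2 * hst N)
    (h3 : eo1 N r δ + z ≤ π)
    (U : ∀ q', 0 ≤ q' → q' ≤ q →
      UB N r δ (-eo1 N r δ) g q' (-(eo1 N r δ + z)) (UsR (eo1 N r δ + z)) b0 bW be) :
    Shf r δ y (-z) (r * z / √(RR r δ)) (3 / 200) (3 / 100 * (hst N / z)) ((hst N / z) ^ 2) := by
  have hN : 1 ≤ N := by
    have := hR.N3
    omega
  have hr : 0 < r := by linarith [hR.r0]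
  have hδ := hR.d0
  have hh := hst_pos1 hN
  have hz : 0 < z := hh.trans_le h1
  have he : 0 ≤ eo1 N r δ := by rw [hτ]; positivity
  have ha : |(-eo1 N r δ)| = eo1 N r δ := by rw [abs_neg, abs_of_nonneg he]
  have hRR : 0 < RR r δ := by unfold RR; positivity
  have hs := domE hR hτ0 hτ hG h1 h2 h3
  have hte : (1 + eo1 N r δ / z) * z = eo1 N r δ + z := by
    field_simp
    ring
  have R := X _ _ _ _ _ hs
  have e1 : 1 + k * (eo1 N r δ / z) * (z * (1 / √(RR r δ))) =
      1 + k * (|(-eo1 N r δ)| / √(RR r δ)) := by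
    rw [ha]
    field_simp
  have e2 : eo1 N r δ / z / τ0 = hst N / z := by
    rw [hτ]
    field_simp
  rw [e1, e2] at R
  have hL' := hL.qmin hr hδ
  have hq' : 0 ≤ min q (1 + k * (|(-eo1 N r δ)| / √(RR r δ))) := le_min hq (by positivity)
  have hU := UB.toh hN hr h1 (U _ hq' (min_le_left _ _))
  rw [← hte] at hU
  have R' := R
  have hU' := hU
  rw [show eo1 N r δ / z = |(-eo1 N r δ)| / z by rw [ha]] at R' hU'
  exact shfR_runh hz hr hδ hA (by linarith) (by linarith) hL' hk hq'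
    (hB _ _ _ _ _ _ _ _ _ (dath hz hr hδ _) (by norm_num) hq') hU' R'

/-- `E1R` from the runs -/
theorem e1R_of (hB : BFrAll)
    (A : RunE (27 / 20) (6 / 5) (6 / 5) (3 / 4) (27 / 5) (1 / 300000) (1 / 9000) (1 / 700000))
    (B : RunE (71 / 50) (13 / 10) (13 / 10) (13 / 20) 10 (1 / 250000) (1 / 4700) (1 / 700000))
    (C : RunE (33 / 20) (17 / 10) (17 / 10) (3 / 5) 20 (151 / 500000) (38 / 10000)
      (6 / 100000)) : E1R := by
  intro N r δ y z hR hA _ h1 h2 h3
  have hh := hst_pos3 hR.N3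
  rcases lt_or_ge (Gm N r δ) 10 with hG | hG
  · have e := eoe_A hG
    have he : 0 ≤ eo1 N r δ := by rw [e]; positivity
    have ha : |(-eo1 N r δ)| = eo1 N r δ := by rw [abs_neg, abs_of_nonneg he]
    have hL := levR_A hR hA (by linarith) le_rfl hG
    refine e1R_pt hB A hR hA (by norm_num) e hL (by norm_num) (by norm_num) hR.G h1 h2 h3
      fun q' h4 h5 => ?_
    exact uR_A hR hG.le (by rw [ha, e]) le_rfl h4 (h5.trans (by norm_num))
      (by rw [ha]; linarith) h3
  rcases lt_or_ge (Gm N r δ) 20 with hG2 | hG2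
  · have e := eoe_B hG hG2
    have he : 0 ≤ eo1 N r δ := by rw [e]; positivity
    have ha : |(-eo1 N r δ)| = eo1 N r δ := by rw [abs_neg, abs_of_nonneg he]
    have hL := levR_B hR hA (by linarith) le_rfl hG hG2
    refine e1R_pt hB B hR hA (by norm_num) e hL (by norm_num) (by norm_num) hG h1 h2 h3
      fun q' h4 h5 => ?_
    exact uR_B hR hG hG2.le (by rw [ha, e]) le_rfl h4 (h5.trans (by norm_num))
      (by rw [ha]; linarith) h3
  · have e := eoe_C hG2
    have he : 0 ≤ eo1 N r δ := by rw [e]; positivity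
    have ha : |(-eo1 N r δ)| = eo1 N r δ := by rw [abs_neg, abs_of_nonneg he]
    have hL := levR_C hR hA (by linarith) le_rfl hG2
    refine e1R_pt hB C hR hA (by norm_num) e hL (by norm_num) (by norm_num) hG2 h1 h2 h3
      fun q' h4 h5 => ?_
    rcases le_total (hst N ^ 2 / RR r δ) (37 / 50) with hY | hY
    · exact (uR_C1 hR hG2 (by rw [ha, e]) (by norm_num) le_rfl h4 h5
        (by rw [ha]; linarith) h3 hY).mono subset_rfl (by norm_num) (by norm_num) (by norm_num)
    · exact uR_Cw hR hG2 (by rw [ha, e]; linarith) (by rw [ha, e]) (by norm_num) le_rfl h4 h5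
        (by rw [ha]; linarith) h3 hY

end SokalCel
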