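import Pool.Agent.Lib_MP_af4de1_v3.ShfR
import Pool.Agent.Lib_MP_af4de1_v3.RunRcC
import Pool.Agent.Lib_MP_af4de1_v3.ShfRe

/-!
# Right side, regime I: `PShfRw` from the open pieces

`Xb`: run of the field `b`; `XcB`: run of the field `c`, `10 ≤ Γ < 20`; `EA EB EC`: runs of the field `e`;
`D`: the general field `d`; `o`: the outer waves.
-/

set_option autoImplicit false

namespace SokalCel

open SokalV3 SokalF1 SokalF1S SokalF1M SokalCen

/-- field `b` -/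
theorem shfR_b' (X : RunOK (27 / 20) (6 / 5) (6 / 5) (1 / 4) (3 / 4) (27 / 5) (100 / 499)
      (1 / 300000) (1 / 9000) (1 / 700000) (3 / 50) (7 / 100) (3 / 20)) :
    ∀ (N : ℕ) (r δ y η : ℝ), Reg1 N r δ → At r δ y η → Sad1 N r δ y → Gm N r δ < 10 →
    η ≤ -ei1 N r δ → -eo1 N r δ ≤ η → -Real.pi ≤ η - hst N →
    Shf r δ y (-hst N) (HH N r δ) (3 / 50) (7 / 100) (3 / 20) :=
  shfR_b_of bfrAll X

/-- field `d` -/
theorem shfR_d_of (D : DGR) : ∀ (N i : ℕ) (r δ y η : ℝ), Reg1 N r δ → At r δ y η →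
    Sad1 N r δ y → η ≤ 0 → -eo1 N r δ ≤ η → 2 ≤ i → -Real.pi ≤ η - i * hst N →
    Shf r δ y (-(i * hst N)) (HH N r δ) ((1 / 2) ^ i / 100) ((1 / 2) ^ i / 100)
      ((1 / 2) ^ i / 100) :=
  fun N i r δ y η hR hA hS h0 h1 hi hp => D N i r δ y η _ hR hA hS h0 h1 hi le_rfl
    (by linarith)

/-- PIECE SHIFT, right side, from the open pieces. -/
theorem pShfRw_of
    (Xb : RunOK (27 / 20) (6 / 5) (6 / 5) (1 / 4) (3 / 4) (27 / 5) (100 / 499)
      (1 / 300000) (1 / 9000) (1 / 700000) (3 / 50) (7 / 100) (3 / 20))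
    (XcB : RunOK (71 / 50) (13 / 10) (13 / 10) (7 / 20) (13 / 20) 10 (200 / 499) (1 / 250000)
      (1 / 4700) (1 / 700000) (1 / 100) (1 / 100) (1 / 100))
    (EA : RunE (27 / 20) (6 / 5) (6 / 5) (3 / 4) (27 / 5) (1 / 300000) (1 / 9000) (1 / 700000))
    (EB : RunE (71 / 50) (13 / 10) (13 / 10) (13 / 20) 10 (1 / 250000) (1 / 4700) (1 / 700000))
    (EC : RunE (33 / 20) (17 / 10) (17 / 10) (3 / 5) 20 (151 / 500000) (38 / 10000) (6 / 100000))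
    (D : DGR)
    (o : ∀ (N : ℕ) (r δ y ζ : ℝ), Reg1 N r δ → At r δ y (-eo1 N r δ) → Sad1 N r δ y →
      ζ ≤ 0 → -ei1 N r δ ≤ ζ → Out r δ y ζ (5 / 4)) : PShfRw where
  a := shfR_a
  a' := shfR_a'
  b := shfR_b' Xb
  c := shfR_c_of bfrAll XcB runR_cC1 runR_cC2
  d := shfR_d_of D
  e := shfR_e_of D (e1R_of bfrAll EA EB EC)
  o := o

end SokalCel
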