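import Pool.Agent.Lib_MP_af4de1_v3.ShfRAll
import Pool.Agent.Lib_MP_af4de1_v3.RunE
import Pool.Agent.Lib_MP_af4de1_v3.RunRcB

/-!
# Right side, regime I: `PShfRw` from the run of `b`, the general `d` and `o`
-/

set_option autoImplicit false

namespace SokalCel

open SokalV3 SokalF1 SokalF1S SokalF1M SokalCen

/-- field `c` -/
theorem shfR_c : ∀ (N : ℕ) (r δ y η : ℝ), Reg1 N r δ → At r δ y η → Sad1 N r δ y →
    10 ≤ Gm N r δ → η ≤ -ei1 N r δ → -eo1 N r δ ≤ η → -Real.pi ≤ η - hst N →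
    Shf r δ y (-hst N) (HH N r δ) (1 / 100) (1 / 100) (1 / 100) :=
  shfR_c_of bfrAll runR_cB runR_cC1 runR_cC2

/-- the first far wave at the boundary saddle -/
theorem e1R : E1R := e1R_of bfrAll runE_A runE_B runE_C

/-- PIECE SHIFT, right side, from the open pieces. -/
theorem pShfRw_of2
    (Xb : RunOK (27 / 20) (6 / 5) (6 / 5) (1 / 4) (3 / 4) (27 / 5) (100 / 499)
      (1 / 300000) (1 / 9000) (1 / 700000) (3 / 50) (7 / 100) (3 / 20))
    (D : DGR)
    (o : ∀ (N : ℕ) (r δ y ζ : ℝ), Reg1 N r δ → At r δ y (-eo1 N r δ) → Sad1 N r δ y →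
      ζ ≤ 0 → -ei1 N r δ ≤ ζ → Out r δ y ζ (5 / 4)) : PShfRw where
  a := shfR_a
  a' := shfR_a'
  b := shfR_b' Xb
  c := shfR_c
  d := shfR_d_of D
  e := shfR_e_of D e1R
  o := o

end SokalCel
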