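import Pool.Agent.Lib_MP_af4de1_v3.ShfRAll2
import Pool.Agent.Lib_MP_af4de1_v3.RunRbX
import Pool.Agent.Lib_MP_af4de1_v3.DzRealR
import Pool.Agent.Lib_MP_af4de1_v3o.OFin

/-!
# PIECE SHIFT, right side, regime I: complete
-/

set_option autoImplicit false

namespace SokalCel

open SokalV3 SokalF1 SokalF1S SokalF1M SokalCen

/-- field `b` -/
theorem shfR_b : ∀ (N : ℕ) (r δ y η : ℝ), Reg1 N r δ → At r δ y η → Sad1 N r δ y →
    Gm N r δ < 10 → η ≤ -ei1 N r δ → -eo1 N r δ ≤ η → -Real.pi ≤ η - hst N →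
    Shf r δ y (-hst N) (HH N r δ) (3 / 50) (7 / 100) (3 / 20) :=
  shfR_b_of bfrAll runR_b

/-- PIECE SHIFT (regime I), right side. -/
theorem pShfRw : PShfRw := pShfRw_of2 runR_b SokalDz.dGR SokalV3O.shfR_o

end SokalCel
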