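import Pool.Agent.Lib_MP_af4de1_v3.Own1s

/-!
# `N = 2`: the tails `|s| ≥ 3/2`, definitions and the list of statements (helper34)

`c = 1/(1+x)`, the path is `a = c s` up to `s₁ = min (137/25) (1+x) = bs r δ y` and constant beyond (`a = ta x = c s₁`).
A side is `ε = 1` (`s > 0`, `v = y`) or `ε = -1` (`s < 0`, `v = -y`); with `s > 0` the height at `ε (a + i s)` is
`Hs ε x v a s = (a - v) s + x (1 + ε a) - e^(ε a) (x cos s - v sin s)`.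
At `s = 2π + φ`, `a = ta x`: `Hs = tH + (a - v) φ + e^(ε a) (x (1 - cos φ) + v sin φ) ≥ tH + tm φ + tμ φ²`
for `137/25 ≤ s ≤ 2π + 4/5`.   `w = 1/δ`.
-/

set_option autoImplicit false

open Complex MeasureTheory Set SokalU SokalPG SokalF1 SokalF1S SokalF1M SokalF1G SokalF1B

namespace SokalV3

/-- the height on the side `ε` -/
noncomputable def Hs (ε x v a s : ℝ) : ℝ :=
  (a - v) * s + x * (1 + ε * a) - Real.exp (ε * a) * (x * Real.cos s - v * Real.sin s)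

theorem Hs_pos (x y a s : ℝ) : Ha x y a s = Hs 1 x y a s := by
  unfold Ha Hs
  rw [one_mul]
  ring

theorem Hs_neg (x y a s : ℝ) : Ha x y (-a) (-s) = Hs (-1) x (-y) a s := by
  unfold Ha Hs
  rw [Real.cos_neg, Real.sin_neg, neg_one_mul]
  ring

/-- the end of the slanted part of the path -/
noncomputable def ts (x : ℝ) : ℝ := min (137 / 25) (1 + x)

/-- the constant real part beyond -/
noncomputable def ta (x : ℝ) : ℝ := (1 + x)⁻¹ * ts x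

noncomputable def tH (ε x v : ℝ) : ℝ :=
  2 * Real.pi * (ta x - v) - x * (Real.exp (ε * ta x) - 1 - ε * ta x)

noncomputable def tm (ε x v : ℝ) : ℝ := ta x - v + Real.exp (ε * ta x) * v

noncomputable def tμ (ε x v : ℝ) : ℝ :=
  Real.exp (ε * ta x) * (473 / 1000 * x - 134 / 1000 * |v|)

/-- the contribution of the first lump -/
noncomputable def tP (ε x v w : ℝ) : ℝ :=
  √(Real.pi / (w * tμ ε x v - 1)) *
    Real.exp ((w * tm ε x v) ^ 2 / (4 * (w * tμ ε x v - 1)) - w * tH ε x v)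

/-- The regularity facts on one side, `ρ = r δ`, `w = 1/δ`. -/
structure TH (ε x v w ρ : ℝ) : Prop where
  p1 : ∀ s, 3 / 2 ≤ s → s ≤ 137 / 25 → 23 / 100 * ρ ≤ Hs ε x v (min 1 ((1 + x)⁻¹ * s)) s
  p3 : ∀ φ, 4 / 5 ≤ φ → φ ≤ 137 / 25 → 1 / 4 * ρ ≤ Hs ε x v (ta x) (2 * Real.pi + φ)
  lam : 6 / 5 ≤ w * (ta x - v)
  mu : 2 ≤ w * tμ ε x v

/-- the sum of the two first lumps -/
noncomputable def tS (r δ y : ℝ) : ℝ :=
  tP 1 (sx (r * δ) y) y (1 / δ) + tP (-1) (sx (r * δ) y) (-y) (1 / δ)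

/-- PIECE CORE (helper34): the three tails from the two first lumps. -/
def PTCore : Prop := ∀ r δ y : ℝ, 499 / 10 ≤ r → 0 < δ → Dom (r * δ) y → Sad2 r δ y →
  TH 1 (sx (r * δ) y) y (1 / δ) (r * δ) → TH (-1) (sx (r * δ) y) (-y) (1 / δ) (r * δ) →
  Tls r δ y (bs r δ y) (fun _ => 1) ≤
      1001 / 1000 * tS r δ y + 5 / 10000 * sG r δ y ∧
    Tls r δ y (bs r δ y) gs ≤ 6466 / 1000 * tS r δ y + 52 / 10000 * sG r δ y ∧
    Tls r δ y (bs r δ y) (fun s => s * gs s) ≤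
      4235 / 100 * tS r δ y + 417 / 10000 * sG r δ y

/-- PIECE TH (helper34): the facts. -/
def PTFact : Prop := ∀ r δ y η : ℝ, Reg2 r δ → At r δ y η → Sad2 r δ y → |η| ≤ eo2 r δ →
  TH 1 (sx (r * δ) y) y (1 / δ) (r * δ) ∧ TH (-1) (sx (r * δ) y) (-y) (1 / δ) (r * δ)

/-- PIECE A: `|η| ≤ π/2` or `Γ ≥ 20` (true .0115). -/
def PTA : Prop := ∀ r δ y η : ℝ, Reg2 r δ → At r δ y η → Sad2 r δ y → |η| ≤ eo2 r δ →
  (|η| ≤ hst 2 / 2 ∨ 20 ≤ Gm 2 r δ) → tS r δ y ≤ 162 / 10000 * sG r δ y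

/-- PIECE B: `10 ≤ Γ < 20` (true .0094). -/
def PTB : Prop := ∀ r δ y η : ℝ, Reg2 r δ → At r δ y η → Sad2 r δ y → |η| ≤ eo2 r δ →
  10 ≤ Gm 2 r δ → Gm 2 r δ < 20 → tS r δ y ≤ 258 / 10000 * sG r δ y

/-- PIECE C: `Γ < 17/2` (true .0849). -/
def PTC : Prop := ∀ r δ y η : ℝ, Reg2 r δ → At r δ y η → Sad2 r δ y → |η| ≤ eo2 r δ →
  Gm 2 r δ < 17 / 2 → tS r δ y ≤ 1009 / 10000 * sG r δ y

/-- PIECE D: `17/2 ≤ Γ < 10` (true .025). -/
def PTD : Prop := ∀ r δ y η : ℝ, Reg2 r δ → At r δ y η → Sad2 r δ y → |η| ≤ eo2 r δ →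
  17 / 2 ≤ Gm 2 r δ → Gm 2 r δ < 10 → tS r δ y ≤ 844 / 10000 * sG r δ y

end SokalV3
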