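import Pool.Agent.Lib_MP_af4de1_v3.T2Def
import Pool.Agent.Lib_MP_af4de1_f1.TwoSad

/-!
# `N = 2`: evaluation of the two first lumps, general lemmas

`c = 1/(1+x)`, `a = 137/25 c` for `x ≥ 112/25`, `q = 592/1250 x - 134/1000 |v|`, `μ = e^(ε a) q`.
-/

set_option autoImplicit false

open Complex MeasureTheory Set SokalU SokalPG SokalF1 SokalF1S SokalF1M SokalF1G SokalF1B

namespace SokalV3

/-- The general estimate of a lump. -/
theorem tP_le {ε x v w D κ l L Q : ℝ} (hw : 0 < w) (hQ : 0 ≤ Q) (hD0 : 0 < D)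
    (hq : 0 < 473 / 1000 * x - 134 / 1000 * |v|) (hκ1 : 1 < κ)
    (hκ : κ ≤ (κ - 1) * (w * tμ ε x v))
    (hD : D ≤ 2 * l * (473 / 1000 * x - 134 / 1000 * |v|))
    (hF : L ≤ w * (tH ε x v - κ * tm ε x v ^ 2 / (4 * tμ ε x v)) + ε * ta x / 2)
    (hL : κ * l * Real.exp (-(2 * L)) ≤ Q ^ 2) :
    tP ε x v w ≤ Q * √(2 * Real.pi / (w * D)) := by
  have hpi := Real.pi_pos
  set q := 473 / 1000 * x - 134 / 1000 * |v| with hqd
  have hμ : tμ ε x v = Real.exp (ε * ta x) * q := rfl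
  have hμ0 : 0 < tμ ε x v := by rw [hμ]; positivity
  set μ := tμ ε x v with hμd
  have hwμ : 0 < w * μ := by positivity
  have h1 : w * μ / κ ≤ w * μ - 1 := by
    rw [div_le_iff₀ (by linarith)]
    linarith
  have h2 : 0 < w * μ / κ := by positivity
  have h3 : 0 < w * μ - 1 := by linarith
  unfold tP
  rw [← hμd]
  have hl : 0 < l := by
    by_contra hl
    push Not at hl
    have : 2 * l * q ≤ 0 := mul_nonpos_of_nonpos_of_nonneg (by linarith) hq.le
    linarith
  have e1 : (w * tm ε x v) ^ 2 / (4 * (w * μ - 1)) ≤ w * (κ * tm ε x v ^ 2 / (4 * μ)) := by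
    calc (w * tm ε x v) ^ 2 / (4 * (w * μ - 1)) ≤ (w * tm ε x v) ^ 2 / (4 * (w * μ / κ)) := by
          gcongr
      _ = w * (κ * tm ε x v ^ 2 / (4 * μ)) := by
          field_simp
  have e2 : (w * tm ε x v) ^ 2 / (4 * (w * μ - 1)) - w * tH ε x v ≤ -L + ε * ta x / 2 := by
    have : w * (tH ε x v - κ * tm ε x v ^ 2 / (4 * μ)) =
        w * tH ε x v - w * (κ * tm ε x v ^ 2 / (4 * μ)) := by ring
    rw [this] at hF
    linarith
  refine (mul_le_mul_of_nonneg_left (Real.exp_le_exp.2 e2) (Real.sqrt_nonneg _)).trans ?_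
  have h4 : 0 ≤ Q * √(2 * Real.pi / (w * D)) := by positivity
  refine abs_le_of_sq_le_sq' ?_ h4 |>.2
  rw [mul_pow, mul_pow, Real.sq_sqrt (by positivity), Real.sq_sqrt (by positivity),
    ← Real.exp_nat_mul]
  have e3 : ((2 : ℕ) : ℝ) * (-L + ε * ta x / 2) = -(2 * L) + ε * ta x := by
    push_cast
    ring
  rw [e3, Real.exp_add]
  calc Real.pi / (w * μ - 1) * (Real.exp (-(2 * L)) * Real.exp (ε * ta x)) ≤
        Real.pi / (w * μ / κ) * (Real.exp (-(2 * L)) * Real.exp (ε * ta x)) := by gcongr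
    _ = Real.pi * (κ * Real.exp (-(2 * L))) / (w * q) := by
        rw [hμ]
        field_simp
    _ ≤ Real.pi * (κ * Real.exp (-(2 * L))) / (w * (D / (2 * l))) := by
        have : D / (2 * l) ≤ q := by
          rw [div_le_iff₀ (by positivity)]
          linarith
        gcongr
    _ = (κ * l * Real.exp (-(2 * L))) * (2 * Real.pi / (w * D)) := by
        field_simp
    _ ≤ Q ^ 2 * (2 * Real.pi / (w * D)) := by gcongr

theorem sG_w {r δ y : ℝ} (hδ : 0 < δ) : sG r δ y = √(2 * Real.pi / (1 / δ * sD (r * δ) y)) := by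
  unfold sG sD
  congr 1
  field_simp

/-! ### the heights -/

theorem ta_eq {x : ℝ} (hx : 112 / 25 ≤ x) : ta x = 137 / 25 * (1 + x)⁻¹ := by
  unfold ta ts
  rw [min_eq_left (by linarith)]
  ring

theorem t2c_exp_neg_le4 {a : ℝ} (ha : 0 ≤ a) :
    Real.exp (-a) ≤ 1 - a + a ^ 2 / 2 - a ^ 3 / 6 + a ^ 4 / 24 := by
  have hd : ∀ z : ℝ, HasDerivAt (fun z : ℝ => 1 - z + z ^ 2 / 2 - z ^ 3 / 6 + z ^ 4 / 24 -
      Real.exp (-z)) (-1 + z - z ^ 2 / 2 + z ^ 3 / 6 + Real.exp (-z)) z := by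
    intro z
    have h1 := (((((hasDerivAt_const z (1 : ℝ)).sub (hasDerivAt_id z)).add
      ((hasDerivAt_pow 2 z).div_const 2)).sub ((hasDerivAt_pow 3 z).div_const 6)).add
      ((hasDerivAt_pow 4 z).div_const 24)).sub ((hasDerivAt_id z).neg.exp)
    refine h1.congr_deriv ?_
    simp
    ring
  have h3 : ∀ z : ℝ, 0 ≤ z → 0 ≤ -1 + z - z ^ 2 / 2 + z ^ 3 / 6 + Real.exp (-z) := by
    intro z hz
    have hm : MonotoneOn (fun z : ℝ => -1 + z - z ^ 2 / 2 + z ^ 3 / 6 + Real.exp (-z)) (Ici 0) := by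
      refine monotoneOn_of_deriv_nonneg (convex_Ici 0) (by fun_prop) (by fun_prop) fun u hu => ?_
      have hu0 : (0 : ℝ) < u := by simpa using hu
      have h4 : HasDerivAt (fun z : ℝ => -1 + z - z ^ 2 / 2 + z ^ 3 / 6 + Real.exp (-z))
          (1 - u + u ^ 2 / 2 - Real.exp (-u)) u := by
        have h1 := (((((hasDerivAt_const u (-1 : ℝ)).add (hasDerivAt_id u)).sub
          ((hasDerivAt_pow 2 u).div_const 2)).add ((hasDerivAt_pow 3 u).div_const 6))).add
          ((hasDerivAt_id u).neg.exp)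
        refine h1.congr_deriv ?_
        simp
        ring
      rw [h4.deriv]
      have h5 := Real.quadratic_le_exp_of_nonneg hu0.le
      have h6 : Real.exp (-u) * Real.exp u = 1 := by rw [← Real.exp_add]; simp
      have h7 := Real.exp_pos (-u)
      -- `(1 - u + u²/2)(1 + u + u²/2) = 1 + u⁴/4`
      have h8 : 1 ≤ (1 - u + u ^ 2 / 2) * Real.exp u := by
        have h9 : 0 ≤ 1 - u + u ^ 2 / 2 := by nlinarith [sq_nonneg (u - 1)]
        calc (1 : ℝ) ≤ (1 - u + u ^ 2 / 2) * (1 + u + u ^ 2 / 2) := by nlinarith [pow_nonneg hu0.le 4]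
          _ ≤ (1 - u + u ^ 2 / 2) * Real.exp u := mul_le_mul_of_nonneg_left h5 h9
      have h10 := mul_le_mul_of_nonneg_left h8 h7.le
      have h11 : Real.exp (-u) * ((1 - u + u ^ 2 / 2) * Real.exp u) = 1 - u + u ^ 2 / 2 := by
        linear_combination (1 - u + u ^ 2 / 2) * h6
      linarith
    have := hm (mem_Ici.2 le_rfl) (mem_Ici.2 hz) hz
    simp only [neg_zero, Real.exp_zero] at this
    linarith
  have hm : MonotoneOn (fun z : ℝ => 1 - z + z ^ 2 / 2 - z ^ 3 / 6 + z ^ 4 / 24 -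
      Real.exp (-z)) (Ici 0) := by
    refine monotoneOn_of_deriv_nonneg (convex_Ici 0) (by fun_prop) (by fun_prop) fun u hu => ?_
    have hu0 : (0 : ℝ) < u := by simpa using hu
    rw [(hd u).deriv]
    exact h3 u hu0.le
  have := hm (mem_Ici.2 le_rfl) (mem_Ici.2 ha) ha
  simp only [neg_zero, Real.exp_zero] at this
  linarith

/-- the height on the side `ε = -1` -/
theorem tH_neg_ge {x v : ℝ} (hx : 112 / 25 ≤ x) :
    (1 + x)⁻¹ * (194166 / 10000 + 424429 / 10000 * (1 + x)⁻¹ - 650039 / 10000 * (1 + x)⁻¹ ^ 2) -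
      2 * Real.pi * v ≤ tH (-1) x v := by
  have hx1 : 0 < 1 + x := by linarith
  set c := (1 + x)⁻¹ with hc
  have hc0 : 0 < c := inv_pos.2 hx1
  have hxc : x * c = 1 - c := by
    have : (1 + x) * c = 1 := mul_inv_cancel₀ hx1.ne'
    linarith
  have hc1 : c < 1 := by
    have : 0 < x * c := by
      have : 0 < x := by linarith
      positivity
    linarith
  have hpi : (314159 / 100000 : ℝ) ≤ Real.pi := by
    have := Real.pi_gt_d6
    norm_num at this ⊢
    linarith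
  unfold tH
  rw [ta_eq hx, ← hc]
  have h1 := t2c_exp_neg_le4 (a := 137 / 25 * c) (by positivity)
  have e1 : (-1 : ℝ) * (137 / 25 * c) = -(137 / 25 * c) := by ring
  rw [e1]
  set E := Real.exp (-(137 / 25 * c)) with hE
  have h2 : x * (E - 1 - -(137 / 25 * c)) ≤ x * ((137 / 25 * c) ^ 2 / 2 - (137 / 25 * c) ^ 3 / 6 +
      (137 / 25 * c) ^ 4 / 24) := by
    refine mul_le_mul_of_nonneg_left ?_ (by linarith)
    linarith
  have h3 : x * ((137 / 25 * c) ^ 2 / 2 - (137 / 25 * c) ^ 3 / 6 + (137 / 25 * c) ^ 4 / 24) =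
      (1 - c) * ((137 / 25) ^ 2 / 2 * c - (137 / 25) ^ 3 / 6 * c ^ 2 + (137 / 25) ^ 4 / 24 * c ^ 3) := by
    rw [← hxc]
    ring
  have h4 : 2 * (314159 / 100000) * (137 / 25 * c) ≤ 2 * Real.pi * (137 / 25 * c) := by gcongr
  have h5 : 0 ≤ c ^ 4 := by positivity
  have h6 : 0 ≤ c ^ 3 := by positivity
  have h7 : 0 ≤ c ^ 2 := by positivity
  nlinarith

/-- the height on the side `ε = 1` -/
theorem tH_pos_ge {x v : ℝ} (hx : 112 / 25 ≤ x) :
    (1 + x)⁻¹ * (194166 / 10000 - 124127 / 10000 * (1 + x)⁻¹ - 101484 / 10000 * (1 + x)⁻¹ ^ 2 -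
      11845 / 1000 * (1 + x)⁻¹ ^ 3) - 2 * Real.pi * v ≤ tH 1 x v := by
  have hx1 : 0 < 1 + x := by linarith
  set c := (1 + x)⁻¹ with hc
  have hc0 : 0 < c := inv_pos.2 hx1
  have hc25 : c ≤ 25 / 137 := by
    rw [hc, inv_le_comm₀ hx1 (by norm_num)]
    norm_num
    linarith
  have hxc : x * c = 1 - c := by
    have : (1 + x) * c = 1 := mul_inv_cancel₀ hx1.ne'
    linarith
  have hpi : (314159 / 100000 : ℝ) ≤ Real.pi := by
    have := Real.pi_gt_d6
    norm_num at this ⊢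
    linarith
  unfold tH
  rw [ta_eq hx, ← hc, one_mul]
  have h1 := Real.exp_bound' (x := 137 / 25 * c) (by positivity) (by linarith) (n := 5) (by norm_num)
  simp only [Finset.sum_range_succ, Finset.sum_range_zero, Nat.factorial] at h1
  set E := Real.exp (137 / 25 * c) with hE
  have h2 : x * (E - 1 - 137 / 25 * c) ≤ x * ((137 / 25 * c) ^ 2 / 2 + (137 / 25 * c) ^ 3 / 6 +
      (137 / 25 * c) ^ 4 / 24 + (137 / 25 * c) ^ 5 / 100) := by
    refine mul_le_mul_of_nonneg_left ?_ (by linarith)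
    norm_num at h1 ⊢
    linarith
  have h3 : x * ((137 / 25 * c) ^ 2 / 2 + (137 / 25 * c) ^ 3 / 6 +
      (137 / 25 * c) ^ 4 / 24 + (137 / 25 * c) ^ 5 / 100) =
      (1 - c) * ((137 / 25) ^ 2 / 2 * c + (137 / 25) ^ 3 / 6 * c ^ 2 + (137 / 25) ^ 4 / 24 * c ^ 3 +
        (137 / 25) ^ 5 / 100 * c ^ 4) := by
    rw [← hxc]
    ring
  have h4 : 2 * (314159 / 100000) * (137 / 25 * c) ≤ 2 * Real.pi * (137 / 25 * c) := by gcongr
  have h5 : 0 ≤ c ^ 4 := by positivity
  have h6 : 0 ≤ c ^ 3 := by positivity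
  have h7 : 0 ≤ c ^ 2 := by positivity
  have h8 : 0 ≤ c ^ 5 := by positivity
  nlinarith

/-! ### the saddle -/

/-- `y ≤ 0`: `ρ (e^n - 1) ≤ |η|`, `x ≤ ρ e^n`, `ρ ≤ x` -/
theorem neg_facts {ρ y : ℝ} (hD : Dom ρ y) (h0 : -1 ≤ y) (h1 : y ≤ 0) :
    ρ * (Real.exp (-y) - 1) ≤ -sE ρ y ∧ sx ρ y ≤ ρ * Real.exp (-y) := by
  have hρ := hD.1
  set k := ρ * Real.exp (-y) with hk
  have hk0 : 0 < k := by positivity
  have hx := sx_nonneg ρ y
  have hsq := sx_sq hD
  rw [← hk] at hsq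
  have hxk : sx ρ y ≤ k := sx_le hD
  have hyk : |y| ≤ k := hD.abs_le_exp
  -- `|ψ| ≥ n/k`
  have h2 : -y / k ≤ -sP ρ y := by
    have h3 := hD.sin
    have h4 := sP_nonpos hρ h1
    have h5 : Real.sin (-sP ρ y) ≤ -sP ρ y := Real.sin_le (by linarith)
    rw [Real.sin_neg, h3] at h5
    have e : y * Real.exp y / ρ = y / k := by
      rw [hk]
      have : Real.exp y * Real.exp (-y) = 1 := by rw [← Real.exp_add]; simp
      field_simp
      linear_combination y * this
    rw [e] at h5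
    have : -y / k = -(y / k) := by ring
    linarith
  have h3 : k - sx ρ y ≤ -y / k := by
    rw [le_div_iff₀ hk0]
    have h4 : (k - sx ρ y) * (k + sx ρ y) = y ^ 2 := by
      have : (k - sx ρ y) * (k + sx ρ y) = k ^ 2 - sx ρ y ^ 2 := by ring
      rw [this, hsq]
      ring
    have h5 : (k - sx ρ y) * k ≤ (k - sx ρ y) * (k + sx ρ y) := by
      have : 0 ≤ k - sx ρ y := by linarith
      nlinarith
    have h6 : y ^ 2 ≤ -y := by nlinarith
    linarith
  refine ⟨?_, hxk⟩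
  unfold sE
  have : ρ * (Real.exp (-y) - 1) = k - ρ := by rw [hk]; ring
  rw [this]
  linarith

/-- `y ≥ 0`: `x (e^y - 1) ≤ η`, `ρ ≤ x + η` -/
theorem pos_facts {ρ y : ℝ} (hD : Dom ρ y) (h0 : 0 ≤ y) :
    sx ρ y * (Real.exp y - 1) ≤ sE ρ y ∧ ρ ≤ sx ρ y + sE ρ y := by
  have hρ := hD.1
  have h1 := sP_nonneg hρ h0
  have hxk : sx ρ y ≤ ρ * Real.exp (-y) := sx_le hD
  have h2 : sx ρ y * Real.exp y ≤ ρ := by
    have h3 := mul_le_mul_of_nonneg_right hxk (Real.exp_pos y).le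
    have h4 : Real.exp (-y) * Real.exp y = 1 := by rw [← Real.exp_add]; simp
    rw [mul_assoc, h4, mul_one] at h3
    exact h3
  unfold sE
  constructor
  · linarith
  · linarith

/-! ### the two sides, with numbers as parameters -/

/-- side `ε = -1` -/
theorem lump_neg {x v w D κ l q1 E M cm K L Q : ℝ} (hx : 112 / 25 ≤ x) (hw : 0 < w) (hQ : 0 ≤ Q)
    (hD0 : 0 < D) (hc : (1 + x)⁻¹ ≤ cm) (hcm : cm < 1) (hE : Real.exp (137 / 25 * cm) ≤ E)
    (hq1 : 0 < q1) (hq : q1 * x ≤ 473 / 1000 * x - 134 / 1000 * |v|)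
    (hm : tm (-1) x v ^ 2 ≤ M * ta x ^ 2) (hM : 0 ≤ M)
    (hκ1 : 1 < κ) (hκ : κ * E ≤ (κ - 1) * (w * (q1 * x))) (hD : D ≤ 2 * l * (q1 * x))
    (hK : κ * (300304 / 10000) * M * E ≤ K * (4 * q1 * (1 - cm)))
    (hF : L ≤ w * ((1 + x)⁻¹ * (194166 / 10000 + 424429 / 10000 * (1 + x)⁻¹ -
      (650039 / 10000 + K) * (1 + x)⁻¹ ^ 2) - 2 * Real.pi * v) - 137 / 50 * (1 + x)⁻¹)
    (hL : κ * l * Real.exp (-(2 * L)) ≤ Q ^ 2) :
    tP (-1) x v w ≤ Q * √(2 * Real.pi / (w * D)) := by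
  have hx0 : 0 < x := by linarith
  have hx1 : 0 < 1 + x := by linarith
  have ht := ta_eq hx
  have hH := tH_neg_ge (v := v) hx
  set c := (1 + x)⁻¹ with hcd
  have hc0 : 0 < c := inv_pos.2 hx1
  have hxc : x * c = 1 - c := by
    have : (1 + x) * c = 1 := mul_inv_cancel₀ hx1.ne'
    linarith
  set q := 473 / 1000 * x - 134 / 1000 * |v| with hqd
  have hq0 : 0 < q := lt_of_lt_of_le (by positivity) hq
  have hl : 0 < l := by
    by_contra hl
    push Not at hl
    have : 2 * l * (q1 * x) ≤ 0 := mul_nonpos_of_nonpos_of_nonneg (by linarith) (by positivity)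
    linarith
  have hEt : Real.exp (ta x) ≤ E := by
    rw [ht]
    refine le_trans (Real.exp_le_exp.2 ?_) hE
    gcongr
  have hE0 : 0 < E := lt_of_lt_of_le (Real.exp_pos _) hE
  have hμ : tμ (-1) x v = Real.exp (-ta x) * q := by
    unfold tμ
    rw [neg_one_mul, ← hqd]
  have hex : Real.exp (ta x) * Real.exp (-ta x) = 1 := by rw [← Real.exp_add]; simp
  have hen := Real.exp_pos (-ta x)
  have hμE : q ≤ E * tμ (-1) x v := by
    rw [hμ]
    have h1 : 1 ≤ E * Real.exp (-ta x) := by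
      rw [← hex]
      gcongr
    calc q = 1 * q := (one_mul q).symm
      _ ≤ E * Real.exp (-ta x) * q := mul_le_mul_of_nonneg_right h1 hq0.le
      _ = _ := by ring
  have hμ0 : 0 < tμ (-1) x v := by rw [hμ]; positivity
  refine tP_le (κ := κ) (l := l) (L := L) hw hQ hD0 hq0 hκ1 ?_ ?_ ?_ hL
  · have h1 : (κ - 1) * (w * (q1 * x)) ≤ (κ - 1) * (w * (E * tμ (-1) x v)) := by
      have : 0 < κ - 1 := by linarith
      have := hq.trans hμE
      gcongr
    have h2 : κ * E ≤ (κ - 1) * (w * tμ (-1) x v) * E := by linarith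
    exact le_of_mul_le_mul_right h2 hE0
  · refine hD.trans ?_
    gcongr
  · have h1 : κ * tm (-1) x v ^ 2 / (4 * tμ (-1) x v) ≤ K * c ^ 3 := by
      rw [div_le_iff₀ (by positivity)]
      have h2 : κ * tm (-1) x v ^ 2 ≤ κ * (M * ta x ^ 2) := by gcongr
      have h3 : κ * (M * ta x ^ 2) = κ * (750760 / 25000) * M * c ^ 2 := by
        rw [ht]
        ring
      have h4 : q1 * x ≤ E * tμ (-1) x v := hq.trans hμE
      have hK0 : 0 ≤ K := by
        by_contra hK0
        push Not at hK0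
        have h5 : K * (4 * q1 * (1 - cm)) < 0 :=
          mul_neg_of_neg_of_pos hK0 (by have : 0 < 1 - cm := by linarith
                                        positivity)
        have h6 : 0 ≤ κ * (300304 / 10000) * M * E := by
          have : 0 < κ := by linarith
          positivity
        linarith
      have h5 : K * (4 * q1 * (1 - cm)) ≤ K * (4 * q1 * (1 - c)) := by gcongr
      -- `κ·30.0304·M·c² ≤ K c³ 4 μ`
      have h6 : κ * (750760 / 25000) * M * c ^ 2 * E ≤ K * c ^ 3 * (4 * tμ (-1) x v) * E := by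
        calc κ * (750760 / 25000) * M * c ^ 2 * E = (κ * (300304 / 10000) * M * E) * c ^ 2 := by ring
          _ ≤ (K * (4 * q1 * (1 - c))) * c ^ 2 := by
              have := hK.trans h5
              gcongr
          _ = K * c ^ 3 * (4 * (q1 * x)) := by rw [← hxc]; ring
          _ ≤ K * c ^ 3 * (4 * (E * tμ (-1) x v)) := by gcongr
          _ = _ := by ring
      have h7 := le_of_mul_le_mul_right h6 hE0
      linarith
    have h2 : w * (c * (194166 / 10000 + 424429 / 10000 * c - (650039 / 10000 + K) * c ^ 2) -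
        2 * Real.pi * v) ≤
        w * (tH (-1) x v - κ * tm (-1) x v ^ 2 / (4 * tμ (-1) x v)) := by
      refine mul_le_mul_of_nonneg_left ?_ hw.le
      have e : c * (194166 / 10000 + 424429 / 10000 * c - (650039 / 10000 + K) * c ^ 2) =
        c * (194166 / 10000 + 424429 / 10000 * c - 650039 / 10000 * c ^ 2) - K * c ^ 3 := by ring
      linarith
    rw [ht]
    linarith

/-- side `ε = 1` -/
theorem lump_pos {x v w D κ l q1 M cm K L Q : ℝ} (hx : 112 / 25 ≤ x) (hw : 0 < w) (hQ : 0 ≤ Q)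
    (hD0 : 0 < D) (hc : (1 + x)⁻¹ ≤ cm) (hcm : cm < 1)
    (hq1 : 0 < q1) (hq : q1 * x ≤ 473 / 1000 * x - 134 / 1000 * |v|)
    (hm : tm 1 x v ^ 2 ≤ M * ta x ^ 2) (hM : 0 ≤ M)
    (hκ1 : 1 < κ) (hκ : κ ≤ (κ - 1) * (w * (q1 * x))) (hD : D ≤ 2 * l * (q1 * x))
    (hK : κ * (300304 / 10000) * M ≤ K * (4 * q1 * (1 - cm)))
    (hF : L ≤ w * ((1 + x)⁻¹ * (194166 / 10000 - 124127 / 10000 * (1 + x)⁻¹ -
      (101484 / 10000 + K) * (1 + x)⁻¹ ^ 2 - 11845 / 1000 * (1 + x)⁻¹ ^ 3) - 2 * Real.pi * v) +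
      137 / 50 * (1 + x)⁻¹)
    (hL : κ * l * Real.exp (-(2 * L)) ≤ Q ^ 2) :
    tP 1 x v w ≤ Q * √(2 * Real.pi / (w * D)) := by
  have hx0 : 0 < x := by linarith
  have hx1 : 0 < 1 + x := by linarith
  have ht := ta_eq hx
  have hH := tH_pos_ge (v := v) hx
  set c := (1 + x)⁻¹ with hcd
  have hc0 : 0 < c := inv_pos.2 hx1
  have hxc : x * c = 1 - c := by
    have : (1 + x) * c = 1 := mul_inv_cancel₀ hx1.ne'
    linarith
  set q := 473 / 1000 * x - 134 / 1000 * |v| with hqd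
  have hq0 : 0 < q := lt_of_lt_of_le (by positivity) hq
  have hl : 0 < l := by
    by_contra hl
    push Not at hl
    have : 2 * l * (q1 * x) ≤ 0 := mul_nonpos_of_nonpos_of_nonneg (by linarith) (by positivity)
    linarith
  have hμ : tμ 1 x v = Real.exp (ta x) * q := by
    unfold tμ
    rw [one_mul, ← hqd]
  have hta : 0 ≤ ta x := by rw [ht]; positivity
  have he1 : 1 ≤ Real.exp (ta x) := Real.one_le_exp hta
  have hμq : q ≤ tμ 1 x v := by
    rw [hμ]
    calc q = 1 * q := (one_mul q).symm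
      _ ≤ _ := mul_le_mul_of_nonneg_right he1 hq0.le
  have hμ0 : 0 < tμ 1 x v := by rw [hμ]; positivity
  refine tP_le (κ := κ) (l := l) (L := L) hw hQ hD0 hq0 hκ1 ?_ ?_ ?_ hL
  · refine hκ.trans ?_
    have : 0 < κ - 1 := by linarith
    have := hq.trans hμq
    gcongr
  · refine hD.trans ?_
    gcongr
  · have h1 : κ * tm 1 x v ^ 2 / (4 * tμ 1 x v) ≤ K * c ^ 3 := by
      rw [div_le_iff₀ (by positivity)]
      have h2 : κ * tm 1 x v ^ 2 ≤ κ * (M * ta x ^ 2) := by gcongr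
      have h3 : κ * (M * ta x ^ 2) = κ * (750760 / 25000) * M * c ^ 2 := by
        rw [ht]
        ring
      have h4 : q1 * x ≤ tμ 1 x v := hq.trans hμq
      have hK0 : 0 ≤ K := by
        by_contra hK0
        push Not at hK0
        have h5 : K * (4 * q1 * (1 - cm)) < 0 :=
          mul_neg_of_neg_of_pos hK0 (by have : 0 < 1 - cm := by linarith
                                        positivity)
        have h6 : 0 ≤ κ * (300304 / 10000) * M := by
          have : 0 < κ := by linarith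
          positivity
        linarith
      have h5 : K * (4 * q1 * (1 - cm)) ≤ K * (4 * q1 * (1 - c)) := by gcongr
      have h6 : κ * (750760 / 25000) * M * c ^ 2 ≤ K * c ^ 3 * (4 * tμ 1 x v) := by
        calc κ * (750760 / 25000) * M * c ^ 2 = (κ * (300304 / 10000) * M) * c ^ 2 := by ring
          _ ≤ (K * (4 * q1 * (1 - c))) * c ^ 2 := by
              have := hK.trans h5
              gcongr
          _ = K * c ^ 3 * (4 * (q1 * x)) := by rw [← hxc]; ring
          _ ≤ K * c ^ 3 * (4 * tμ 1 x v) := by gcongr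
      linarith
    have h2 : w * (c * (194166 / 10000 - 124127 / 10000 * c - (101484 / 10000 + K) * c ^ 2 -
        11845 / 1000 * c ^ 3) - 2 * Real.pi * v) ≤
        w * (tH 1 x v - κ * tm 1 x v ^ 2 / (4 * tμ 1 x v)) := by
      refine mul_le_mul_of_nonneg_left ?_ hw.le
      have e : c * (194166 / 10000 - 124127 / 10000 * c - (101484 / 10000 + K) * c ^ 2 -
          11845 / 1000 * c ^ 3) =
        c * (194166 / 10000 - 124127 / 10000 * c - 101484 / 10000 * c ^ 2 - 11845 / 1000 * c ^ 3) -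
          K * c ^ 3 := by ring
      linarith
    rw [ht]
    linarith

/-- `log(1+z)` -/
theorem le_log3 {y z : ℝ} (hz : 0 ≤ z) (h : Real.exp y ≤ 1 + z) : y ≤ z - z ^ 2 / 2 + z ^ 3 / 3 := by
  have h1 : y ≤ Real.log (1 + z) := by
    rw [Real.le_log_iff_exp_le (by linarith)]
    exact h
  refine h1.trans ?_
  have hm : MonotoneOn (fun z : ℝ => z - z ^ 2 / 2 + z ^ 3 / 3 - Real.log (1 + z)) (Ici 0) := by
    have hc : ContinuousOn (fun z : ℝ => z - z ^ 2 / 2 + z ^ 3 / 3 - Real.log (1 + z)) (Ici 0) := by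
      refine ContinuousOn.sub (by fun_prop) (ContinuousOn.log (by fun_prop) fun u hu => ?_)
      have : (0 : ℝ) ≤ u := hu
      linarith
    have hd : ∀ u : ℝ, 0 < u → HasDerivAt (fun z : ℝ => z - z ^ 2 / 2 + z ^ 3 / 3 - Real.log (1 + z))
        (1 - u + u ^ 2 - 1 / (1 + u)) u := by
      intro u hu
      have h1 := ((((hasDerivAt_id u).sub ((hasDerivAt_pow 2 u).div_const 2)).add
        ((hasDerivAt_pow 3 u).div_const 3))).sub
        (((hasDerivAt_id u).const_add 1).log (by simp only [id]; linarith))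
      refine h1.congr_deriv ?_
      simp
    refine monotoneOn_of_deriv_nonneg (convex_Ici 0) hc ?_ fun u hu => ?_
    · intro u hu
      have : (0 : ℝ) < u := by simpa using hu
      exact (hd u this).differentiableAt.differentiableWithinAt
    · have hu0 : (0 : ℝ) < u := by simpa using hu
      rw [(hd u hu0).deriv]
      have e : 1 - u + u ^ 2 - 1 / (1 + u) = u ^ 3 / (1 + u) := by
        field_simp
        ring
      rw [e]
      positivity
  have h2 := hm (mem_Ici.2 le_rfl) (mem_Ici.2 hz) hz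
  simp only [add_zero, Real.log_one] at h2
  linarith

end SokalV3
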