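import Pool.Agent.Lib_MP_af4de1_v3.T2Lum
import Pool.Agent.Lib_MP_af4de1_v3.T2Bern

/-!
# `N = 2`, tails: the lumps, `x ≥ 112/25`, instances (helper63, partly generated)
-/

set_option autoImplicit false

namespace SokalT2

open Real Set SokalF1S SokalV3

/-- data on the side `y = -n ≤ 0` -/
structure NegD (x n w D p : ℝ) : Prop where
  x0 : 31 / 10 ≤ x
  n0 : 0 ≤ n
  n1 : n ≤ 1 / 2
  nx : n ≤ 2 / 5 * x
  D0 : 0 < D
  D1 : D ^ 2 ≤ 1 + x ^ 2
  con : x * (1 - exp (-n)) + (n - n ^ 2 / 2) / x ≤ p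
  w0 : 0 < w
  wx : 4632 / 100 ≤ w * x

/-- data on the side `y ≥ 0` -/
structure PosD (x y w D p : ℝ) : Prop where
  x0 : 3 / 2 ≤ x
  y0 : 0 ≤ y
  y1 : y ≤ 13 / 20
  yx : y ≤ 2 / 5 * x
  D0 : 0 < D
  D1 : D ^ 2 ≤ (1 + y) ^ 2 + x ^ 2
  con : x * (exp y - 1) + (y + y ^ 2 / 2) / x ≤ p
  w0 : 0 < w
  wx : 499 / 10 ≤ w * (x + 20421 / 10000)

theorem exp_neg_kf (k : ℕ) {f : ℝ} (hf : 0 ≤ f) : exp (-((k : ℝ) + f)) ≤
    ((27182818 / 10000000) ^ k * (1 + f + f ^ 2 / 2 + f ^ 3 / 6 + f ^ 4 / 24 + f ^ 5 / 120))⁻¹ := by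
  rw [exp_neg]
  refine inv_anti₀ (by positivity) ?_
  have h1 : exp ((k : ℝ) + f) = exp 1 ^ k * exp f := by
    rw [exp_add, ← exp_nat_mul, mul_one]
  rw [h1]
  have h2 : (27182818 / 10000000 : ℝ) ≤ exp 1 := by
    have := exp_one_gt_d9
    norm_num at this ⊢
    linarith
  have h3 := Real.sum_le_exp_of_nonneg hf 6
  simp only [Finset.sum_range_succ, Finset.sum_range_zero, Nat.factorial] at h3
  norm_num at h3
  exact mul_le_mul (pow_le_pow_left₀ (by norm_num) h2 k) (by linarith) (by positivity) (by positivity)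

theorem em_le {f a em : ℝ} (hf : 0 ≤ f) (hfa : f ≤ a) (he0 : 0 < em)
    (h : 1 ≤ em * (1 + f + f ^ 2 / 2 + f ^ 3 / 6 + f ^ 4 / 24 + f ^ 5 / 120)) : exp (-a) ≤ em := by
  have h3 := Real.sum_le_exp_of_nonneg hf 6
  simp only [Finset.sum_range_succ, Finset.sum_range_zero, Nat.factorial] at h3
  norm_num at h3
  have h4 : exp f ≤ exp a := exp_le_exp.2 hfa
  have h5 : 1 ≤ em * exp a := h.trans (mul_le_mul_of_nonneg_left (by linarith) he0.le)
  calc exp (-a) = exp (-a) * 1 := (mul_one _).symm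
    _ ≤ exp (-a) * (em * exp a) := mul_le_mul_of_nonneg_left h5 (exp_pos _).le
    _ = em * (exp (-a) * exp a) := by ring
    _ = em := by rw [← exp_add, neg_add_cancel, exp_zero, mul_one]

/-! ### the modes -/

theorem pos_of_mul {g T Q E : ℝ} (hg : 0 < g) (hT : 0 ≤ T) (hE0 : 0 < E) (hE : E ≤ g * (T * Q)) : 0 < Q := by
  by_contra h
  push Not at h
  have h1 := mul_nonpos_of_nonneg_of_nonpos hT h
  have h2 := mul_nonpos_of_nonneg_of_nonpos hg.le h1
  linarith

theorem modeA {g x p q w c Q E : ℝ} (hcx : c * x = 1 - c) (c0 : 0 < c) (g0 : 0 < g)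
    (hw : g * (x - p) ≤ w) (hq : q = 1 + p) (h1 : 0 ≤ 1 - q * c) (hE0 : 0 < E)
    (hE : E ≤ g * ((1 - q * c) * Q)) : E ≤ w * (c * Q) := by
  have hQ := pos_of_mul g0 h1 hE0 hE
  have h2 : g * (x - p) * (c * Q) ≤ w * (c * Q) := mul_le_mul_of_nonneg_right hw (by positivity)
  have h3 : g * (x - p) * (c * Q) = g * ((1 - q * c) * Q) := by
    rw [hq]
    linear_combination (g * Q) * hcx
  linarith

theorem modeB {w0 w c Q E : ℝ} (c0 : 0 < c) (w00 : 0 < w0) (hw : w0 ≤ w) (hE0 : 0 < E)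
    (hE : E ≤ w0 * (c * Q)) : E ≤ w * (c * Q) := by
  have hQ := pos_of_mul w00 c0.le hE0 hE
  exact hE.trans (mul_le_mul_of_nonneg_right hw (by positivity))

theorem modeC {k x w c Q E : ℝ} (hcx : c * x = 1 - c) (c0 : 0 < c) (c1 : c < 1) (k0 : 0 < k)
    (hw : k ≤ w * x) (hE0 : 0 < E) (hE : E * (1 - c) ≤ k * (c ^ 2 * Q)) : E ≤ w * (c * Q) := by
  have hQ := pos_of_mul k0 (sq_nonneg c) (mul_pos hE0 (by linarith)) hE
  have h2 : k * (c ^ 2 * Q) ≤ w * x * (c ^ 2 * Q) := mul_le_mul_of_nonneg_right hw (by positivity)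
  have h3 : w * x * (c ^ 2 * Q) = w * (c * Q) * (1 - c) := by
    linear_combination (w * c * Q) * hcx
  rw [h3] at h2
  exact le_of_mul_le_mul_right (hE.trans h2) (by linarith)

theorem modeAP {g x y t K w c X s E : ℝ} (hcx : c * x = 1 - c) (c0 : 0 < c) (c1 : c ≤ 25 / 137)
    (g0 : 0 < g) (x0 : 0 < x) (y0 : 0 ≤ y) (hy : y ≤ c * t) (hK : K = 6283 / 1000) (hX : 0 ≤ X)
    (hs : 0 ≤ s) (hw : g * (x * (1 + y)) ≤ w) (hE0 : 0 < E)
    (hE : E ≤ g * ((1 - c) * (1 + c * t) * (K * (137 / 25 - t) - (1 - c) * X - s * c ^ 2))) :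
    E ≤ w * (K * (137 / 25 * c - y) - c * ((1 - c) * X) - c * (s * c ^ 2)) := by
  have t0 : 0 ≤ c * t := y0.trans hy
  obtain ⟨Q, hQd⟩ : ∃ Q, Q = K * (137 / 25 - t) - (1 - c) * X - s * c ^ 2 := ⟨_, rfl⟩
  rw [← hQd] at hE
  have hQ : 0 < Q := pos_of_mul g0 (mul_nonneg (by linarith) (by linarith)) hE0 hE
  obtain ⟨P, hP⟩ : ∃ P, P = K * (137 / 25 * c) - c * ((1 - c) * X) - c * (s * c ^ 2) := ⟨_, rfl⟩
  have e1 : P - K * (c * t) = c * Q := by
    rw [hP, hQd]
    ring
  have e2 : K * (137 / 25 * c - y) - c * ((1 - c) * X) - c * (s * c ^ 2) = P - K * y := by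
    rw [hP]
    ring
  rw [e2]
  have hPK : P ≤ K := by
    have a1 : 0 ≤ c * ((1 - c) * X) := mul_nonneg c0.le (mul_nonneg (by linarith) hX)
    have a2 : 0 ≤ c * (s * c ^ 2) := by positivity
    have a3 : K * (137 / 25 * c) ≤ K * 1 := mul_le_mul_of_nonneg_left (by linarith) (by rw [hK]; norm_num)
    linarith
  have hK0 : 0 ≤ K := by rw [hK]; norm_num
  have h1 : (1 + c * t) * (P - K * (c * t)) ≤ (1 + y) * (P - K * y) := by
    have a1 : (1 + y) * (P - K * y) - (1 + c * t) * (P - K * (c * t)) =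
        (c * t - y) * (K * (1 + y + c * t) - P) := by ring
    have a2 : 0 ≤ K * (1 + y + c * t) - P := by
      have := mul_nonneg hK0 (by linarith : 0 ≤ y + c * t)
      linarith
    have a3 := mul_nonneg (sub_nonneg.2 hy) a2
    linarith
  have h2 : 0 ≤ P - K * y := by
    have a1 := mul_le_mul_of_nonneg_left hy hK0
    have a2 : 0 < c * Q := by positivity
    linarith
  calc E ≤ g * ((1 - c) * (1 + c * t) * Q) := hE
    _ = g * x * ((1 + c * t) * (P - K * (c * t))) := by
        rw [e1]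
        linear_combination (-g * (1 + c * t) * Q) * hcx
    _ ≤ g * x * ((1 + y) * (P - K * y)) := mul_le_mul_of_nonneg_left h1 (by positivity)
    _ = g * (x * (1 + y)) * (P - K * y) := by ring
    _ ≤ w * (P - K * y) := mul_le_mul_of_nonneg_right hw h2

theorem modeBP {y t K w w0 c X s E : ℝ} (c0 : 0 < c) (w00 : 0 < w0) (hy : y ≤ c * t)
    (hK : K = 6283 / 1000) (hw : w0 ≤ w) (hE0 : 0 < E)
    (hE : E ≤ w0 * (c * (K * (137 / 25 - t) - (1 - c) * X - s * c ^ 2))) :
    E ≤ w * (K * (137 / 25 * c - y) - c * ((1 - c) * X) - c * (s * c ^ 2)) := by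
  obtain ⟨Q, hQd⟩ : ∃ Q, Q = K * (137 / 25 - t) - (1 - c) * X - s * c ^ 2 := ⟨_, rfl⟩
  rw [← hQd] at hE
  have hQ := pos_of_mul w00 c0.le hE0 hE
  have hK0 : 0 ≤ K := by rw [hK]; norm_num
  have h1 := mul_le_mul_of_nonneg_left hy hK0
  have h2 : c * Q ≤ K * (137 / 25 * c - y) - c * ((1 - c) * X) - c * (s * c ^ 2) := by
    rw [hQd]
    linarith
  have h3 : 0 < c * Q := by positivity
  exact hE.trans (mul_le_mul hw h2 h3.le (by linarith))

theorem i_n11 {x n w D c : ℝ} (H : NegD x n w D (3927 / 2500)) (hx : 112 / 25 ≤ x)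
    (hc : c * (1 + x) = 1) (hl : 0 ≤ c) (hu : c ≤ 33 / 400) (hw : 5471 / 10000 * (x - 3927 / 2500) ≤ w) :
    tP (-1) x n w ≤ 159 / 10000 * √(2 * π / (w * D)) := by
  have c0 := c_pos hx hc
  have hE := n11_E hl hu
  refine lumpN (u := 33 / 400) (α := 3927 / 2500) (β := 17 / 5) (κ := 469 / 1000) (M := 1381 / 100)
    (θ := 337 / 1250) (d := 421 / 125) (s := 148 / 5) (e1 := 1573 / 1000) (δ1 := 20081 / 20000) (C := 143 / 100)
    (E := 9 / 2) hx hc hu (by norm_num) H.n0 H.n1 H.D0 H.D1 H.con H.w0 H.wx (by norm_num)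
    (by norm_num) (by norm_num) (by norm_num) (by norm_num) (by norm_num) (by norm_num) ?_ (by norm_num)
    (by norm_num) (by norm_num) (by norm_num) (by norm_num) (by norm_num) (by norm_num) (by norm_num)
    (by norm_num) (by norm_num)
    (by
      have h := exp_neg_kf 4 (f := 1 / 2) (by norm_num)
      have e : -((4 : ℕ) + 1 / 2 : ℝ) = -(9 / 2) := by norm_num
      rw [e] at h
      refine (mul_le_mul_of_nonneg_left h (by norm_num)).trans ?_
      norm_num) (n11_nb hl hu) ?_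
  · refine (exp_le_exp.2 (by linarith : 137 / 25 * c ≤ 137 / 25 * (33 / 400))).trans
      ((ep_ub (by norm_num) (by norm_num)).trans (by norm_num))
  · exact modeA (cx_of hc) c0 (by norm_num) hw (by norm_num : (6427 / 2500 : ℝ) = 1 + 3927 / 2500)
      (by linarith) (by norm_num) hE

theorem i_n12 {x n w D c : ℝ} (H : NegD x n w D (3927 / 2500)) (hx : 112 / 25 ≤ x)
    (hc : c * (1 + x) = 1) (hl : 33 / 400 ≤ c) (hu : c ≤ 1 / 10) (hw : 52249 / 10000 ≤ w) :
    tP (-1) x n w ≤ 159 / 10000 * √(2 * π / (w * D)) := by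
  have c0 := c_pos hx hc
  have hE := n12_E hl hu
  refine lumpN (u := 1 / 10) (α := 3927 / 2500) (β := 69 / 20) (κ := 469 / 1000) (M := 251 / 20)
    (θ := 2717 / 10000) (d := 464 / 125) (s := 669 / 20) (e1 := 173 / 100) (δ1 := 50309 / 50000) (C := 143 / 100)
    (E := 9 / 2) hx hc hu (by norm_num) H.n0 H.n1 H.D0 H.D1 H.con H.w0 H.wx (by norm_num)
    (by norm_num) (by norm_num) (by norm_num) (by norm_num) (by norm_num) (by norm_num) ?_ (by norm_num)
    (by norm_num) (by norm_num) (by norm_num) (by norm_num) (by norm_num) (by norm_num) (by norm_num)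
    (by norm_num) (by norm_num)
    (by
      have h := exp_neg_kf 4 (f := 1 / 2) (by norm_num)
      have e : -((4 : ℕ) + 1 / 2 : ℝ) = -(9 / 2) := by norm_num
      rw [e] at h
      refine (mul_le_mul_of_nonneg_left h (by norm_num)).trans ?_
      norm_num) (n12_nb hl hu) ?_
  · refine (exp_le_exp.2 (by linarith : 137 / 25 * c ≤ 137 / 25 * (1 / 10))).trans
      ((ep_ub (by norm_num) (by norm_num)).trans (by norm_num))
  · exact modeB c0 (by norm_num) hw (by norm_num) hE

theorem i_n13 {x n w D c : ℝ} (H : NegD x n w D (3927 / 2500)) (hx : 112 / 25 ≤ x)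
    (hc : c * (1 + x) = 1) (hl : 1 / 10 ≤ c) (hu : c ≤ 25 / 137) (hw : 52249 / 10000 ≤ w) :
    tP (-1) x n w ≤ 159 / 10000 * √(2 * π / (w * D)) := by
  have c0 := c_pos hx hc
  have hE := n13_E hl hu
  refine lumpN (u := 25 / 137) (α := 3927 / 2500) (β := 43 / 10) (κ := 21 / 50) (M := 143 / 20)
    (θ := 2907 / 10000) (d := 3317 / 500) (s := 1728 / 25) (e1 := 1699 / 625) (δ1 := 25623 / 25000) (C := 99 / 50)
    (E := 5) hx hc hu (by norm_num) H.n0 H.n1 H.D0 H.D1 H.con H.w0 H.wx (by norm_num)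
    (by norm_num) (by norm_num) (by norm_num) (by norm_num) (by norm_num) (by norm_num) ?_ (by norm_num)
    (by norm_num) (by norm_num) (by norm_num) (by norm_num) (by norm_num) (by norm_num) (by norm_num)
    (by norm_num) (by norm_num)
    (by
      have h := exp_neg_kf 5 (f := 0) (by norm_num)
      have e : -((5 : ℕ) + 0 : ℝ) = -(5) := by norm_num
      rw [e] at h
      refine (mul_le_mul_of_nonneg_left h (by norm_num)).trans ?_
      norm_num) (n13_nb hl hu) ?_
  · refine (exp_le_exp.2 (by linarith : 137 / 25 * c ≤ 137 / 25 * (25 / 137))).trans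
      ((ep_ub (by norm_num) (by norm_num)).trans (by norm_num))
  · exact modeB c0 (by norm_num) hw (by norm_num) hE

theorem i_n21 {x n w D c : ℝ} (H : NegD x n w D (20421 / 10000)) (hx : 112 / 25 ≤ x)
    (hc : c * (1 + x) = 1) (hl : 0 ≤ c) (hu : c ≤ 1 / 10) (hw : 2533 / 2500 * (x - 20421 / 10000) ≤ w) :
    tP (-1) x n w ≤ 159 / 10000 * √(2 * π / (w * D)) := by
  have c0 := c_pos hx hc
  have hE := n21_E hl hu
  refine lumpN (u := 1 / 10) (α := 20421 / 10000) (β := 53 / 10) (κ := 469 / 1000) (M := 251 / 20)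
    (θ := 2717 / 10000) (d := 464 / 125) (s := 669 / 20) (e1 := 173 / 100) (δ1 := 50309 / 50000) (C := 143 / 100)
    (E := 9 / 2) hx hc hu (by norm_num) H.n0 H.n1 H.D0 H.D1 H.con H.w0 H.wx (by norm_num)
    (by norm_num) (by norm_num) (by norm_num) (by norm_num) (by norm_num) (by norm_num) ?_ (by norm_num)
    (by norm_num) (by norm_num) (by norm_num) (by norm_num) (by norm_num) (by norm_num) (by norm_num)
    (by norm_num) (by norm_num)
    (by
      have h := exp_neg_kf 4 (f := 1 / 2) (by norm_num)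
      have e : -((4 : ℕ) + 1 / 2 : ℝ) = -(9 / 2) := by norm_num
      rw [e] at h
      refine (mul_le_mul_of_nonneg_left h (by norm_num)).trans ?_
      norm_num) (n21_nb hl hu) ?_
  · refine (exp_le_exp.2 (by linarith : 137 / 25 * c ≤ 137 / 25 * (1 / 10))).trans
      ((ep_ub (by norm_num) (by norm_num)).trans (by norm_num))
  · exact modeA (cx_of hc) c0 (by norm_num) hw (by norm_num : (30421 / 10000 : ℝ) = 1 + 20421 / 10000)
      (by linarith) (by norm_num) hE

theorem i_n22 {x n w D c : ℝ} (H : NegD x n w D (20421 / 10000)) (hx : 112 / 25 ≤ x)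
    (hc : c * (1 + x) = 1) (hl : 1 / 10 ≤ c) (hu : c ≤ 13 / 100) (hw : 4444 / 625 ≤ w) :
    tP (-1) x n w ≤ 159 / 10000 * √(2 * π / (w * D)) := by
  have c0 := c_pos hx hc
  have hE := n22_E hl hu
  refine lumpN (u := 13 / 100) (α := 47 / 25) (β := 67 / 10) (κ := 93 / 200) (M := 211 / 20)
    (θ := 1381 / 5000) (d := 4437 / 1000) (s := 4183 / 100) (e1 := 51 / 25) (δ1 := 101117 / 100000) (C := 79 / 50)
    (E := 93 / 20) hx hc hu (by norm_num) H.n0 H.n1 H.D0 H.D1 H.con H.w0 H.wx (by norm_num)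
    (by norm_num) (by norm_num) (by norm_num) (by norm_num) (by norm_num) (by norm_num) ?_ (by norm_num)
    (by norm_num) (by norm_num) (by norm_num) (by norm_num) (by norm_num) (by norm_num) (by norm_num)
    (by norm_num) (by norm_num)
    (by
      have h := exp_neg_kf 4 (f := 13 / 20) (by norm_num)
      have e : -((4 : ℕ) + 13 / 20 : ℝ) = -(93 / 20) := by norm_num
      rw [e] at h
      refine (mul_le_mul_of_nonneg_left h (by norm_num)).trans ?_
      norm_num) (n22_nb hl hu) ?_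
  · refine (exp_le_exp.2 (by linarith : 137 / 25 * c ≤ 137 / 25 * (13 / 100))).trans
      ((ep_ub (by norm_num) (by norm_num)).trans (by norm_num))
  · exact modeB c0 (by norm_num) hw (by norm_num) hE

theorem i_n23 {x n w D c : ℝ} (H : NegD x n w D (20421 / 10000)) (hx : 112 / 25 ≤ x)
    (hc : c * (1 + x) = 1) (hl : 13 / 100 ≤ c) (hu : c ≤ 4 / 25) (hw : 4444 / 625 ≤ w) :
    tP (-1) x n w ≤ 159 / 10000 * √(2 * π / (w * D)) := by
  have c0 := c_pos hx hc
  have hE := n23_E hl hu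
  refine lumpN (u := 4 / 25) (α := 43 / 25) (β := 159 / 20) (κ := 921 / 2000) (M := 887 / 100)
    (θ := 1409 / 5000) (d := 1329 / 250) (s := 263 / 5) (e1 := 601 / 250) (δ1 := 20363 / 20000) (C := 7 / 4)
    (E := 19 / 4) hx hc hu (by norm_num) H.n0 H.n1 H.D0 H.D1 H.con H.w0 H.wx (by norm_num)
    (by norm_num) (by norm_num) (by norm_num) (by norm_num) (by norm_num) (by norm_num) ?_ (by norm_num)
    (by norm_num) (by norm_num) (by norm_num) (by norm_num) (by norm_num) (by norm_num) (by norm_num)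
    (by norm_num) (by norm_num)
    (by
      have h := exp_neg_kf 4 (f := 3 / 4) (by norm_num)
      have e : -((4 : ℕ) + 3 / 4 : ℝ) = -(19 / 4) := by norm_num
      rw [e] at h
      refine (mul_le_mul_of_nonneg_left h (by norm_num)).trans ?_
      norm_num) (n23_nb hl hu) ?_
  · refine (exp_le_exp.2 (by linarith : 137 / 25 * c ≤ 137 / 25 * (4 / 25))).trans
      ((ep_ub (by norm_num) (by norm_num)).trans (by norm_num))
  · exact modeB c0 (by norm_num) hw (by norm_num) hE

theorem i_n24 {x n w D c : ℝ} (H : NegD x n w D (20421 / 10000)) (hx : 112 / 25 ≤ x)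
    (hc : c * (1 + x) = 1) (hl : 4 / 25 ≤ c) (hu : c ≤ 25 / 137) :
    tP (-1) x n w ≤ 159 / 10000 * √(2 * π / (w * D)) := by
  have c0 := c_pos hx hc
  have hE := n24_E hl hu
  refine lumpN (u := 25 / 137) (α := 37 / 25) (β := 189 / 20) (κ := 21 / 50) (M := 143 / 20)
    (θ := 2907 / 10000) (d := 3317 / 500) (s := 1728 / 25) (e1 := 1699 / 625) (δ1 := 25623 / 25000) (C := 99 / 50)
    (E := 97 / 20) hx hc hu (by norm_num) H.n0 H.n1 H.D0 H.D1 H.con H.w0 H.wx (by norm_num)
    (by norm_num) (by norm_num) (by norm_num) (by norm_num) (by norm_num) (by norm_num) ?_ (by norm_num)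
    (by norm_num) (by norm_num) (by norm_num) (by norm_num) (by norm_num) (by norm_num) (by norm_num)
    (by norm_num) (by norm_num)
    (by
      have h := exp_neg_kf 4 (f := 17 / 20) (by norm_num)
      have e : -((4 : ℕ) + 17 / 20 : ℝ) = -(97 / 20) := by norm_num
      rw [e] at h
      refine (mul_le_mul_of_nonneg_left h (by norm_num)).trans ?_
      norm_num) (n24_nb hl hu) ?_
  · refine (exp_le_exp.2 (by linarith : 137 / 25 * c ≤ 137 / 25 * (25 / 137))).trans
      ((ep_ub (by norm_num) (by norm_num)).trans (by norm_num))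
  · exact modeC (cx_of hc) c0 (by linarith) (by norm_num) (by linarith [H.wx] : (1158 / 25 : ℝ) ≤ w * x) (by norm_num) hE

theorem i_p11 {x y w D c : ℝ} (H : PosD x y w D (3927 / 2500)) (hx : 112 / 25 ≤ x)
    (hc : c * (1 + x) = 1) (hl : 0 ≤ c) (hu : c ≤ 11 / 100) (hw : 5471 / 10000 * (x * (1 + y)) ≤ w) :
    tP 1 x y w ≤ 159 / 10000 * √(2 * π / (w * D)) := by
  have c0 := c_pos hx hc
  have c1 := c_le hx hc
  have hE := p11_E hl hu
  have hwx : 34 ≤ w * x := by
    have h1 := mul_le_mul_of_nonneg_left hx H.w0.le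
    have h2 := H.wx
    linarith
  refine lumpP (u := 11 / 100) (α := 3927 / 2500) (β := 2 / 5) (κ := 117 / 250)
    (d := 54 / 25) (s := 483 / 25) (em := 1) (e2 := 16491 / 10000) (δ1 := 5053 / 5000) (C := 27 / 25)
    (E := 17 / 4) hx hc hu (by norm_num) H.y0 H.D0 H.D1 H.con H.w0 hwx (by norm_num)
    (by norm_num) (by norm_num) (by norm_num) (by norm_num) (by norm_num) ?_ (by norm_num) (by norm_num)
    (exp_le_one_iff.2 (by linarith))
    (by norm_num) (by norm_num) (by norm_num) (by norm_num) (by norm_num) (by norm_num)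
    (by
      have h := exp_neg_kf 4 (f := 1 / 4) (by norm_num)
      have e : -((4 : ℕ) + 1 / 4 : ℝ) = -(17 / 4) := by norm_num
      rw [e] at h
      refine (mul_le_mul_of_nonneg_left h (by norm_num)).trans ?_
      norm_num) (p11_yb hl hu) (fun hy => ?_)
  · refine (exp_le_exp.2 (by linarith : 137 / 50 * c ≤ 1 / 2)).trans
      ((ep_ub (by norm_num) (by norm_num)).trans (by norm_num))
  · exact modeAP (cx_of hc) c0 c1 (by norm_num) (by linarith) H.y0 hy rfl (by positivity) (by norm_num) hw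
      (by norm_num) hE

theorem i_p12 {x y w D c : ℝ} (H : PosD x y w D (3927 / 2500)) (hx : 112 / 25 ≤ x)
    (hc : c * (1 + x) = 1) (hl : 11 / 100 ≤ c) (hu : c ≤ 25 / 137) (hw : 52249 / 10000 ≤ w) :
    tP 1 x y w ≤ 159 / 10000 * √(2 * π / (w * D)) := by
  have c0 := c_pos hx hc
  have c1 := c_le hx hc
  have hE := p12_E hl hu
  have hwx : 34 ≤ w * x := by
    have h1 := mul_le_mul_of_nonneg_left hx H.w0.le
    have h2 := H.wx
    linarith
  refine lumpP (u := 25 / 137) (α := 3927 / 2500) (β := 2 / 5) (κ := 23 / 50)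
    (d := 621 / 500) (s := 107 / 5) (em := 137 / 250) (e2 := 16491 / 10000) (δ1 := 10421 / 10000) (C := 21 / 25)
    (E := 4) hx hc hu (by norm_num) H.y0 H.D0 H.D1 H.con H.w0 hwx (by norm_num)
    (by norm_num) (by norm_num) (by norm_num) (by norm_num) (by norm_num) ?_ (by norm_num) (by norm_num)
    (em_le (f := 137 / 25 * (11 / 100)) (by norm_num) (by linarith) (by norm_num) (by norm_num))
    (by norm_num) (by norm_num) (by norm_num) (by norm_num) (by norm_num) (by norm_num)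
    (by
      have h := exp_neg_kf 4 (f := 0) (by norm_num)
      have e : -((4 : ℕ) + 0 : ℝ) = -(4) := by norm_num
      rw [e] at h
      refine (mul_le_mul_of_nonneg_left h (by norm_num)).trans ?_
      norm_num) (p12_yb hl hu) (fun hy => ?_)
  · refine (exp_le_exp.2 (by linarith : 137 / 50 * c ≤ 1 / 2)).trans
      ((ep_ub (by norm_num) (by norm_num)).trans (by norm_num))
  · exact modeBP c0 (by norm_num) hy rfl hw (by norm_num) hE

theorem i_p21 {x y w D c : ℝ} (H : PosD x y w D (20421 / 10000)) (hx : 112 / 25 ≤ x)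
    (hc : c * (1 + x) = 1) (hl : 0 ≤ c) (hu : c ≤ 7 / 50) (hw : 2533 / 2500 * (x * (1 + y)) ≤ w) :
    tP 1 x y w ≤ 159 / 10000 * √(2 * π / (w * D)) := by
  have c0 := c_pos hx hc
  have c1 := c_le hx hc
  have hE := p21_E hl hu
  have hwx : 34 ≤ w * x := by
    have h1 := mul_le_mul_of_nonneg_left hx H.w0.le
    have h2 := H.wx
    linarith
  refine lumpP (u := 7 / 50) (α := 20421 / 10000) (β := 1 / 20) (κ := 58 / 125)
    (d := 2203 / 1000) (s := 2017 / 100) (em := 1) (e2 := 16491 / 10000) (δ1 := 20439 / 20000) (C := 11 / 10)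
    (E := 17 / 4) hx hc hu (by norm_num) H.y0 H.D0 H.D1 H.con H.w0 hwx (by norm_num)
    (by norm_num) (by norm_num) (by norm_num) (by norm_num) (by norm_num) ?_ (by norm_num) (by norm_num)
    (exp_le_one_iff.2 (by linarith))
    (by norm_num) (by norm_num) (by norm_num) (by norm_num) (by norm_num) (by norm_num)
    (by
      have h := exp_neg_kf 4 (f := 1 / 4) (by norm_num)
      have e : -((4 : ℕ) + 1 / 4 : ℝ) = -(17 / 4) := by norm_num
      rw [e] at h
      refine (mul_le_mul_of_nonneg_left h (by norm_num)).trans ?_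
      norm_num) (p21_yb hl hu) (fun hy => ?_)
  · refine (exp_le_exp.2 (by linarith : 137 / 50 * c ≤ 1 / 2)).trans
      ((ep_ub (by norm_num) (by norm_num)).trans (by norm_num))
  · exact modeAP (cx_of hc) c0 c1 (by norm_num) (by linarith) H.y0 hy rfl (by positivity) (by norm_num) hw
      (by norm_num) hE

theorem i_p22 {x y w D c : ℝ} (H : PosD x y w D (20421 / 10000)) (hx : 112 / 25 ≤ x)
    (hc : c * (1 + x) = 1) (hl : 7 / 50 ≤ c) (hu : c ≤ 25 / 137) (hw : 4444 / 625 ≤ w) :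
    tP 1 x y w ≤ 159 / 10000 * √(2 * π / (w * D)) := by
  have c0 := c_pos hx hc
  have c1 := c_le hx hc
  have hE := p22_E hl hu
  have hwx : 34 ≤ w * x := by
    have h1 := mul_le_mul_of_nonneg_left hx H.w0.le
    have h2 := H.wx
    linarith
  refine lumpP (u := 25 / 137) (α := 20421 / 10000) (β := 1 / 20) (κ := 23 / 50)
    (d := 1059 / 1000) (s := 107 / 5) (em := 93 / 200) (e2 := 16491 / 10000) (δ1 := 52353 / 50000) (C := 21 / 25)
    (E := 4) hx hc hu (by norm_num) H.y0 H.D0 H.D1 H.con H.w0 hwx (by norm_num)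
    (by norm_num) (by norm_num) (by norm_num) (by norm_num) (by norm_num) ?_ (by norm_num) (by norm_num)
    (em_le (f := 137 / 25 * (7 / 50)) (by norm_num) (by linarith) (by norm_num) (by norm_num))
    (by norm_num) (by norm_num) (by norm_num) (by norm_num) (by norm_num) (by norm_num)
    (by
      have h := exp_neg_kf 4 (f := 0) (by norm_num)
      have e : -((4 : ℕ) + 0 : ℝ) = -(4) := by norm_num
      rw [e] at h
      refine (mul_le_mul_of_nonneg_left h (by norm_num)).trans ?_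
      norm_num) (p22_yb hl hu) (fun hy => ?_)
  · refine (exp_le_exp.2 (by linarith : 137 / 50 * c ≤ 1 / 2)).trans
      ((ep_ub (by norm_num) (by norm_num)).trans (by norm_num))
  · exact modeBP c0 (by norm_num) hy rfl hw (by norm_num) hE

end SokalT2
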