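import Pool.Agent.Lib_MP_af4de1_v3.T2Ev

/-!
# `N = 2`, lumps of the side `y ≥ 0` in the low range `3/2 ≤ x ≤ 112/25` (there `ta x = 1`)
-/

set_option autoImplicit false

namespace SokalT2

open SokalV3

theorem lo_ta {x : ℝ} (hx1 : 3 / 2 ≤ x) (hx2 : x ≤ 112 / 25) : ta x = 1 := by
  unfold ta ts
  rw [min_eq_right (by linarith)]
  exact inv_mul_cancel₀ (by positivity)

theorem lo_D {x y D : ℝ} (hx1 : 3 / 2 ≤ x) (y0 : 0 ≤ y) (y1 : y ≤ 13 / 20)
    (hD0 : 0 < D) (hD : D ^ 2 ≤ (1 + y) ^ 2 + x ^ 2) :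
    D ≤ 2 * (18 / 10) * (473 / 1000 * x - 134 / 1000 * |y|) := by
  rw [abs_of_nonneg y0]
  have hq : 0 ≤ 473 / 1000 * x - 134 / 1000 * (13 / 20) := by linarith
  have h1 : D ≤ 2 * (18 / 10) * (473 / 1000 * x - 134 / 1000 * (13 / 20)) := by
    refine (sq_le_sq₀ hD0.le (by positivity)).mp (hD.trans ?_)
    have h2 : (1 + y) ^ 2 ≤ (1 + 13 / 20) ^ 2 := by gcongr
    nlinarith
  linarith

/-- `y ≤ .82425 - .1025 x` -/
theorem lo_line {x y : ℝ} (hx1 : 17 / 10 ≤ x) (hx2 : x ≤ 112 / 25)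
    (con : x * (Real.exp y - 1) + (y + y ^ 2 / 2) / x ≤ 20421 / 10000) :
    y ≤ 82425 / 100000 - 1025 / 10000 * x := by
  by_contra hc
  push Not at hc
  obtain ⟨L, hL⟩ : ∃ L : ℝ, L = 82425 / 100000 - 1025 / 10000 * x := ⟨_, rfl⟩
  rw [← hL] at hc
  have hx0 : 0 < x := by linarith
  have hL0 : 0 < L := by rw [hL]; linarith
  have hE : L + L ^ 2 / 2 + L ^ 3 / 6 ≤ Real.exp y - 1 := by
    have a1 := SokalF1G.e_ge3 hL0.le
    have a2 : Real.exp L ≤ Real.exp y := Real.exp_le_exp.mpr hc.le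
    linarith
  have h2 : L + L ^ 2 / 2 ≤ y + y ^ 2 / 2 := by gcongr
  have h3 : (x * (Real.exp y - 1) + (y + y ^ 2 / 2) / x) * x =
      x ^ 2 * (Real.exp y - 1) + (y + y ^ 2 / 2) := by
    field_simp
  have h4 : x ^ 2 * (Real.exp y - 1) + (y + y ^ 2 / 2) ≤ 20421 / 10000 * x := by
    rw [← h3]; gcongr
  have h5 : x ^ 2 * (L + L ^ 2 / 2 + L ^ 3 / 6) ≤ x ^ 2 * (Real.exp y - 1) := by gcongr
  have h6 : 20421 / 10000 * x < x ^ 2 * (L + L ^ 2 / 2 + L ^ 3 / 6) + (L + L ^ 2 / 2) := by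
    have hu : 0 ≤ x - 17 / 10 := by linarith
    have hv : 0 ≤ 112 / 25 - x := by linarith
    have p : ∀ i j : ℕ, 0 ≤ (x - 17 / 10) ^ i * (112 / 25 - x) ^ j := fun i j => by positivity
    rw [hL]
    linarith [p 0 5, p 1 4, p 2 3, p 3 2, p 4 1, p 5 0]
  linarith

/-- the core inequality `(tH - .0802 (x + 2.0421)) μ ≥ .2625 m²` -/
theorem lo_core {x y e : ℝ} (hx1 : 3 / 2 ≤ x) (hx2 : x ≤ 112 / 25) (y0 : 0 ≤ y) (y1 : y ≤ 13 / 20)
    (con : x * (Real.exp y - 1) + (y + y ^ 2 / 2) / x ≤ 20421 / 10000)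
    (he1 : 27182 / 10000 ≤ e) (he2 : e ≤ 27183 / 10000) :
    2625 / 10000 * (1 - y + e * y) ^ 2 ≤
      (62831 / 10000 * (1 - y) - x * (e - 1 - 1) - 802 / 10000 * (x + 20421 / 10000)) *
        (e * (473 / 1000 * x - 134 / 1000 * y)) := by
  -- with an upper bound `z` of `y`
  have key : ∀ z : ℝ, y ≤ z → z ≤ 13 / 20 → 0 ≤ 62831 / 10000 * (1 - z) - x * (7183 / 10000) -
      802 / 10000 * (x + 20421 / 10000) → 2625 / 10000 * (1 + 17183 / 10000 * z) ^ 2 ≤
      (62831 / 10000 * (1 - z) - x * (7183 / 10000) - 802 / 10000 * (x + 20421 / 10000)) *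
        (27182 / 10000 * (473 / 1000 * x - 134 / 1000 * z)) →
      2625 / 10000 * (1 - y + e * y) ^ 2 ≤
      (62831 / 10000 * (1 - y) - x * (e - 1 - 1) - 802 / 10000 * (x + 20421 / 10000)) *
        (e * (473 / 1000 * x - 134 / 1000 * y)) := by
    intro z hz hz1 hA h
    have z0 : 0 ≤ z := y0.trans hz
    have a1 : (1 - y + e * y) ^ 2 ≤ (1 + 17183 / 10000 * z) ^ 2 := by
      have b1 : 0 ≤ 1 - y + e * y := by nlinarith
      have b2 : 1 - y + e * y ≤ 1 + 17183 / 10000 * z := by nlinarith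
      gcongr
    have a2 : 62831 / 10000 * (1 - z) - x * (7183 / 10000) - 802 / 10000 * (x + 20421 / 10000) ≤
        62831 / 10000 * (1 - y) - x * (e - 1 - 1) - 802 / 10000 * (x + 20421 / 10000) := by
      nlinarith
    have a3 : 27182 / 10000 * (473 / 1000 * x - 134 / 1000 * z) ≤
        e * (473 / 1000 * x - 134 / 1000 * y) := by
      have b1 : 473 / 1000 * x - 134 / 1000 * z ≤ 473 / 1000 * x - 134 / 1000 * y := by linarith
      have b2 : 0 ≤ 473 / 1000 * x - 134 / 1000 * z := by linarith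
      gcongr
    have a4 : 0 ≤ 27182 / 10000 * (473 / 1000 * x - 134 / 1000 * z) := by
      have b2 : 0 ≤ 473 / 1000 * x - 134 / 1000 * z := by linarith
      positivity
    calc _ ≤ 2625 / 10000 * (1 + 17183 / 10000 * z) ^ 2 := by gcongr
      _ ≤ _ := h
      _ ≤ _ := mul_le_mul a2 a3 a4 (hA.trans a2)
  rcases le_total x (17 / 10) with h | h
  · refine key (13 / 20) y1 le_rfl (by linarith) ?_
    nlinarith
  · have hl := lo_line h hx2 con
    refine key _ hl (by linarith) (by linarith) ?_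
    nlinarith [mul_nonneg (by linarith : 0 ≤ x - 17 / 10) (by linarith : 0 ≤ 112 / 25 - x)]

theorem lo_e1 : (27182 / 10000 : ℝ) ≤ Real.exp 1 := by
  have := Real.exp_one_gt_d9; linarith

theorem lo_e2 : Real.exp 1 ≤ (27183 / 10000 : ℝ) := by
  have := Real.exp_one_lt_d9; linarith

theorem loP {x y w D : ℝ} (hx1 : 3 / 2 ≤ x) (hx2 : x ≤ 112 / 25) (y0 : 0 ≤ y) (y1 : y ≤ 13 / 20)
    (hD0 : 0 < D) (hD : D ^ 2 ≤ (1 + y) ^ 2 + x ^ 2)
    (con : x * (Real.exp y - 1) + (y + y ^ 2 / 2) / x ≤ 20421 / 10000) (hw : 0 < w)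
    (hwx : 499 / 10 ≤ w * (x + 20421 / 10000)) :
    tP 1 x y w ≤ 159 / 10000 * √(2 * Real.pi / (w * D)) := by
  have e1 := lo_e1
  have e2 := lo_e2
  have hpi := Real.pi_gt_d6
  have hta := lo_ta hx1 hx2
  have hq : 0 < 473 / 1000 * x - 134 / 1000 * |y| := by rw [abs_of_nonneg y0]; linarith
  have hμ : tμ 1 x y = Real.exp 1 * (473 / 1000 * x - 134 / 1000 * y) := by
    unfold tμ; rw [hta, abs_of_nonneg y0]; norm_num
  have hm : tm 1 x y = 1 - y + Real.exp 1 * y := by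
    unfold tm; rw [hta]; norm_num
  have hH : tH 1 x y = 2 * Real.pi * (1 - y) - x * (Real.exp 1 - 1 - 1) := by
    unfold tH; rw [hta]; norm_num
  have hμ0 : 0 < tμ 1 x y := by
    rw [hμ]; rw [abs_of_nonneg y0] at hq; positivity
  have hx0 : 0 < x + 20421 / 10000 := by linarith
  refine tP_le (κ := 105 / 100) (l := 18 / 10) (L := 9 / 2) hw (by norm_num) hD0 hq (by norm_num) ?_
    (lo_D hx1 y0 y1 hD0 hD) ?_ ?_
  · -- `w μ ≥ 21`
    have h1 : 21 * (x + 20421 / 10000) ≤ 499 / 10 * tμ 1 x y := by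
      rw [hμ]
      have : 27182 / 10000 * (473 / 1000 * x - 134 / 1000 * (13 / 20)) ≤
          Real.exp 1 * (473 / 1000 * x - 134 / 1000 * y) := by
        have b2 : 0 ≤ 473 / 1000 * x - 134 / 1000 * (13 / 20) := by linarith
        gcongr
      linarith
    have h2 : 21 * (x + 20421 / 10000) ≤ w * tμ 1 x y * (x + 20421 / 10000) := by
      calc 21 * (x + 20421 / 10000) ≤ 499 / 10 * tμ 1 x y := h1
        _ ≤ w * (x + 20421 / 10000) * tμ 1 x y := by gcongr
        _ = _ := by ring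
    have h3 := le_of_mul_le_mul_right h2 hx0
    linarith
  · have hc := lo_core hx1 hx2 y0 y1 con e1 e2
    have h1 : 802 / 10000 * (x + 20421 / 10000) ≤
        tH 1 x y - 105 / 100 * tm 1 x y ^ 2 / (4 * tμ 1 x y) := by
      have h2 : 105 / 100 * tm 1 x y ^ 2 / (4 * tμ 1 x y) =
          2625 / 10000 * tm 1 x y ^ 2 / tμ 1 x y := by
        field_simp; ring
      have h3 : 2625 / 10000 * tm 1 x y ^ 2 / tμ 1 x y ≤
          62831 / 10000 * (1 - y) - x * (Real.exp 1 - 1 - 1) -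
            802 / 10000 * (x + 20421 / 10000) := by
        rw [div_le_iff₀ hμ0, hm, hμ]
        exact hc
      have h4 : 62831 / 10000 * (1 - y) ≤ 2 * Real.pi * (1 - y) := by
        have : 0 ≤ 1 - y := by linarith
        gcongr
        linarith
      rw [h2, hH]
      linarith
    have h5 : 4 ≤ w * (tH 1 x y - 105 / 100 * tm 1 x y ^ 2 / (4 * tμ 1 x y)) := by
      calc (4 : ℝ) ≤ 802 / 10000 * (499 / 10) := by norm_num
        _ ≤ 802 / 10000 * (w * (x + 20421 / 10000)) := by gcongr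
        _ = w * (802 / 10000 * (x + 20421 / 10000)) := by ring
        _ ≤ _ := by gcongr
    rw [hta]
    linarith
  · have h1 : Real.exp (-(2 * (9 / 2) : ℝ)) ≤ 12385 / 10 ^ 8 := by
      have h2 : (27182 / 10000 : ℝ) ^ 9 ≤ Real.exp (2 * (9 / 2)) := by
        have h3 : Real.exp (2 * (9 / 2)) = Real.exp 1 ^ 9 := by
          rw [← Real.exp_nat_mul]; norm_num
        rw [h3]
        gcongr
      rw [Real.exp_neg, inv_le_comm₀ (Real.exp_pos _) (by norm_num)]
      refine le_trans ?_ h2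
      norm_num
    calc 105 / 100 * (18 / 10) * Real.exp (-(2 * (9 / 2))) ≤
        105 / 100 * (18 / 10) * (12385 / 10 ^ 8) := by gcongr
      _ ≤ (159 / 10000) ^ 2 := by norm_num

theorem loPn {x y w D : ℝ} (hx1 : 3 / 2 ≤ x) (hx2 : x ≤ 112 / 25) (y0 : 0 ≤ y) (y1 : y ≤ 13 / 20)
    (hD0 : 0 < D) (hD : D ^ 2 ≤ (1 + y) ^ 2 + x ^ 2)
    (con : x * (Real.exp y - 1) + (y + y ^ 2 / 2) / x ≤ 20421 / 10000) (hw : 0 < w)
    (hwx : 499 / 10 ≤ w * (x + 20421 / 10000)) :
    tP (-1) x (-y) w ≤ 3 / 10000 * √(2 * Real.pi / (w * D)) := by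
  have _ := con
  have e1 : 36787 / 100000 ≤ Real.exp (-1) := by
    have := Real.exp_one_lt_d9
    rw [Real.exp_neg, le_inv_comm₀ (by norm_num) (Real.exp_pos _)]
    norm_num
    linarith
  have e2 : Real.exp (-1) ≤ 36789 / 100000 := by
    have := Real.exp_one_gt_d9
    rw [Real.exp_neg, inv_le_comm₀ (Real.exp_pos _) (by norm_num)]
    norm_num
    linarith
  have hpi := Real.pi_gt_d6
  have hta := lo_ta hx1 hx2
  have habs : |-y| = y := by rw [abs_neg, abs_of_nonneg y0]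
  have hq : 0 < 473 / 1000 * x - 134 / 1000 * |-y| := by rw [habs]; linarith
  have hμ : tμ (-1) x (-y) = Real.exp (-1) * (473 / 1000 * x - 134 / 1000 * y) := by
    unfold tμ; rw [hta, habs]; norm_num
  have hm : tm (-1) x (-y) = 1 + y - Real.exp (-1) * y := by
    unfold tm; rw [hta]; norm_num; ring
  have hH : tH (-1) x (-y) = 2 * Real.pi * (1 + y) - x * Real.exp (-1) := by
    unfold tH; rw [hta]; norm_num
  have hμ1 : 22895 / 100000 ≤ tμ (-1) x (-y) := by
    rw [hμ]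
    calc (22895 / 100000 : ℝ) ≤ 36787 / 100000 * (473 / 1000 * (3 / 2) - 134 / 1000 * (13 / 20)) := by
          norm_num
      _ ≤ _ := by gcongr
  have hμ0 : 0 < tμ (-1) x (-y) := by linarith
  have hx0 : 0 < x + 20421 / 10000 := by linarith
  refine tP_le (κ := 146 / 100) (l := 18 / 10) (L := 10) hw (by norm_num) hD0 hq (by norm_num) ?_
    (by rw [habs]; have := lo_D hx1 y0 y1 hD0 hD; rwa [abs_of_nonneg y0] at this) ?_ ?_
  · -- `w μ ≥ 32/10`
    have h1 : 318 / 100 * (x + 20421 / 10000) ≤ 499 / 10 * tμ (-1) x (-y) := by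
      rw [hμ]
      have : 36787 / 100000 * (473 / 1000 * x - 134 / 1000 * (13 / 20)) ≤
          Real.exp (-1) * (473 / 1000 * x - 134 / 1000 * y) := by
        have b2 : 0 ≤ 473 / 1000 * x - 134 / 1000 * (13 / 20) := by linarith
        gcongr
      linarith
    have h2 : 318 / 100 * (x + 20421 / 10000) ≤ w * tμ (-1) x (-y) * (x + 20421 / 10000) := by
      calc 318 / 100 * (x + 20421 / 10000) ≤ 499 / 10 * tμ (-1) x (-y) := h1
        _ ≤ w * (x + 20421 / 10000) * tμ (-1) x (-y) := by gcongr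
        _ = _ := by ring
    have h3 := le_of_mul_le_mul_right h2 hx0
    linarith
  · have hm2 : tm (-1) x (-y) ^ 2 ≤ 2 := by
      rw [hm]
      have b1 : 0 ≤ 1 + y - Real.exp (-1) * y := by nlinarith
      have b2 : 1 + y - Real.exp (-1) * y ≤ 1 + 6322 / 10000 * (13 / 20) := by nlinarith
      calc (1 + y - Real.exp (-1) * y) ^ 2 ≤ (1 + 6322 / 10000 * (13 / 20)) ^ 2 := by gcongr
        _ ≤ 2 := by norm_num
    have h1 : 1375 / 1000 ≤
        tH (-1) x (-y) - 146 / 100 * tm (-1) x (-y) ^ 2 / (4 * tμ (-1) x (-y)) := by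
      have h3 : 146 / 100 * tm (-1) x (-y) ^ 2 / (4 * tμ (-1) x (-y)) ≤ 319 / 100 := by
        rw [div_le_iff₀ (by positivity)]
        linarith
      have h4 : 62831 / 10000 ≤ 2 * Real.pi * (1 + y) := by nlinarith
      have h5 : x * Real.exp (-1) ≤ 112 / 25 * (36789 / 100000) := by gcongr
      rw [hH]
      norm_num at h5
      linarith
    have h6 : 1375 / 1000 * (499 / 10) ≤
        w * (tH (-1) x (-y) - 146 / 100 * tm (-1) x (-y) ^ 2 / (4 * tμ (-1) x (-y))) *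
          (x + 20421 / 10000) := by
      calc 1375 / 1000 * (499 / 10) ≤ 1375 / 1000 * (w * (x + 20421 / 10000)) := by gcongr
        _ = w * (1375 / 1000) * (x + 20421 / 10000) := by ring
        _ ≤ _ := by gcongr
    have h7 : 105 / 10 * (x + 20421 / 10000) ≤ 1375 / 1000 * (499 / 10) := by linarith
    have h8 := le_of_mul_le_mul_right (h7.trans h6) hx0
    rw [hta]
    linarith
  · have h1 : Real.exp (-(2 * 10 : ℝ)) ≤ 21 / 10 ^ 10 := by
      have h2 : (27182 / 10000 : ℝ) ^ 20 ≤ Real.exp (2 * 10) := by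
        have h3 : Real.exp (2 * 10) = Real.exp 1 ^ 20 := by
          rw [← Real.exp_nat_mul]; norm_num
        rw [h3]
        gcongr
        exact lo_e1
      rw [Real.exp_neg, inv_le_comm₀ (Real.exp_pos _) (by norm_num)]
      refine le_trans ?_ h2
      norm_num
    calc 146 / 100 * (18 / 10) * Real.exp (-(2 * 10)) ≤
        146 / 100 * (18 / 10) * (21 / 10 ^ 10) := by gcongr
      _ ≤ (3 / 10000) ^ 2 := by norm_num

end SokalT2
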