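import Pool.Agent.Lib_MP_af4de1_v3.T2Par

/-!
# `N = 2`, tails: the four lumps for `x ≥ 112/25` with parameters (helper63)
-/

set_option autoImplicit false

namespace SokalT2

open Real Set SokalF1S SokalV3

/-- common end of the proofs: the term `θ m²/μ` -/
theorem sq_le_of {a m B κ x e1 μ θ s c u : ℝ} (hκ : 0 < κ) (hx : 0 < x) (hμ0 : 0 < μ) (he0 : 0 < e1)
    (hμ : κ * x ≤ e1 * μ) (hm : m ^ 2 ≤ B * a ^ 2) (ha : a = 137 / 25 * c) (c0 : 0 < c)
    (hcx : c * x = 1 - c) (hu : c ≤ u) (hu1 : u < 1) (hθ : 0 ≤ θ) (hB : 0 ≤ B)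
    (hs : θ * (B * (18769 / 625)) * e1 ≤ s * (κ * (1 - u))) :
    θ * m ^ 2 / μ ≤ c * (s * c ^ 2) := by
  have h1 : θ * m ^ 2 / μ ≤ θ * (B * a ^ 2) * e1 / (κ * x) := by
    rw [div_le_div_iff₀ hμ0 (by positivity)]
    have a1 : θ * m ^ 2 ≤ θ * (B * a ^ 2) := mul_le_mul_of_nonneg_left hm hθ
    calc θ * m ^ 2 * (κ * x) ≤ θ * (B * a ^ 2) * (e1 * μ) :=
          mul_le_mul a1 hμ (by positivity) (by positivity)
      _ = _ := by ring
  refine h1.trans ?_
  rw [div_le_iff₀ (by positivity)]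
  have h2 : c * (s * c ^ 2) * (κ * x) = c ^ 2 * (s * (κ * (1 - c))) := by
    linear_combination (c ^ 2 * s * κ) * hcx
  have h3 : θ * (B * a ^ 2) * e1 = c ^ 2 * (θ * (B * (18769 / 625)) * e1) := by
    rw [ha]
    ring
  rw [h2, h3]
  refine mul_le_mul_of_nonneg_left (hs.trans ?_) (sq_nonneg c)
  have hs0 : 0 ≤ s := by
    by_contra h
    push Not at h
    have a1 : s * (κ * (1 - u)) < 0 := mul_neg_of_neg_of_pos h (mul_pos hκ (by linarith))
    have a2 : 0 ≤ θ * (B * (18769 / 625)) * e1 := by positivity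
    linarith
  have a3 : κ * (1 - u) ≤ κ * (1 - c) := mul_le_mul_of_nonneg_left (by linarith) hκ.le
  exact mul_le_mul_of_nonneg_left a3 hs0

/-- dangerous lump, `y = -n ≤ 0`, `ε = -1` -/
theorem lumpN {x n w D p u α β κ M θ d s e1 δ1 C E F c : ℝ} (hx : 112 / 25 ≤ x)
    (hc : c * (1 + x) = 1) (hu : c ≤ u) (hu1 : u < 1) (n0 : 0 ≤ n) (n1 : n ≤ 1 / 2) (hD0 : 0 < D)
    (hD : D ^ 2 ≤ 1 + x ^ 2) (con : x * (1 - exp (-n)) + (n - n ^ 2 / 2) / x ≤ p) (hw : 0 < w)
    (hwx : 4632 / 100 ≤ w * x) (hα : 0 ≤ α) (hβ : 0 ≤ β) (hab : α + β * u ≤ 137 / 25)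
    (htu : u * (α + β * u) ≤ 3 / 5) (hκ0 : 0 < κ)
    (hκ : 134 / 1000 * (u * (α + β * u)) * u ≤ (473 / 1000 - κ) * (1 - u))
    (he0 : 0 < e1) (he : exp (137 / 25 * c) ≤ e1) (hθ0 : 0 ≤ θ)
    (hs : θ * (1 * (18769 / 625)) * e1 ≤ s * (κ * (1 - u))) (hM1 : 1 < M)
    (hM : M * e1 ≤ 4632 / 100 * κ) (hθ : M ≤ 4 * θ * (M - 1)) (hδ0 : 1 ≤ δ1)
    (hδ : 1 * u ^ 2 ≤ (δ1 - 1) * (2 * (1 - u) ^ 2)) (hd : e1 * δ1 ≤ d * κ)
    (hC : d * M ≤ 2 * C ^ 2 * (M - 1)) (hC0 : 0 ≤ C) (hF : C * exp (-E) ≤ F)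
    (hN : p ≤ (1 - c) * (α + β * c) * (1 - c * (α + β * c) / 2 + (c * (α + β * c)) ^ 2 * (17 / 120)) +
      3 / 4 * (c ^ 2 * (1 + c) * (α + β * c)))
    (hE : E ≤ w * (c * (6283 / 1000 * (137 / 25 - (α + β * c)) -
      (1 - c) * (150152 / 10000 - 274277 / 10000 * c + 37577 / 1000 * c ^ 2) - s * c ^ 2))) :
    tP (-1) x n w ≤ F * √(2 * π / (w * D)) := by
  have c0 := c_pos hx hc
  have c1 := c_le hx hc
  have hcx := cx_of hc
  have hta := ta_eq hx hc
  have x0 : 0 < x := by linarith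
  have u0 : 0 < u := by linarith
  have hnt := n_le hx hc hu n1 con hα hβ htu hN
  have hux := x_ge hx hc hu
  have hab' : α + β * c ≤ α + β * u := by
    have := mul_le_mul_of_nonneg_left hu hβ
    linarith
  obtain ⟨a, ha⟩ : ∃ a, a = 137 / 25 * c := ⟨_, rfl⟩
  have a0 : 0 < a := by rw [ha]; positivity
  have a1 : a ≤ 1 := by rw [ha]; linarith
  have hna : n ≤ a := by
    refine hnt.trans ?_
    rw [ha]
    have := mul_le_mul_of_nonneg_left (hab'.trans hab) c0.le
    linarith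
  have hEa := exp_pos (-a)
  have hEa1 : exp (-a) ≤ 1 := exp_le_one_iff.2 (by linarith)
  have hkap : 134 / 1000 * |n| ≤ (473 / 1000 - κ) * x := by
    rw [abs_of_nonneg n0]
    have b1 : n ≤ u * (α + β * u) := hnt.trans (mul_le_mul hu hab' (by positivity) u0.le)
    have b2 : 0 ≤ 473 / 1000 - κ := by
      by_contra h
      push Not at h
      have b3 : (473 / 1000 - κ) * (1 - u) < 0 := mul_neg_of_neg_of_pos h (by linarith)
      have b4 : 0 ≤ 134 / 1000 * (u * (α + β * u)) * u := by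
        have : 0 ≤ α + β * u := by positivity
        positivity
      linarith
    have b5 : 134 / 1000 * n * u ≤ (473 / 1000 - κ) * x * u := by
      calc 134 / 1000 * n * u ≤ 134 / 1000 * (u * (α + β * u)) * u :=
            mul_le_mul_of_nonneg_right (by linarith) u0.le
        _ ≤ (473 / 1000 - κ) * (1 - u) := hκ
        _ ≤ (473 / 1000 - κ) * (u * x) := mul_le_mul_of_nonneg_left hux b2
        _ = _ := by ring
    exact le_of_mul_le_mul_right b5 u0
  have hmu := mu_m (v := n) x0 hκ0 hkap he0 (by rw [hta]; exact he)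
  have hκx : 0 < κ * x := by positivity
  have hμ0 : 0 < tμ (-1) x n := by
    by_contra h
    push Not at h
    have := mul_nonpos_of_nonneg_of_nonpos he0.le h
    linarith
  refine tP_le hw hD0 hM1 hμ0 ?_ hθ ?_ hC hC0 (E := E) ?_ hF
  · have b1 := mul_le_mul_of_nonneg_left hmu hw.le
    have b2 := mul_le_mul_of_nonneg_right hwx hκ0.le
    have b3 : M * e1 ≤ w * tμ (-1) x n * e1 := by
      calc M * e1 ≤ 4632 / 100 * κ := hM
        _ ≤ w * x * κ := b2
        _ = w * (κ * x) := by ring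
        _ ≤ w * (e1 * tμ (-1) x n) := b1
        _ = _ := by ring
    exact le_of_mul_le_mul_right b3 he0
  · have b1 := D_le x0 zero_le_one hD u0 hu1 hux hδ hδ0
    have d0 : 0 ≤ d := by
      by_contra h
      push Not at h
      have b2 := mul_neg_of_neg_of_pos h hκ0
      have b3 : 0 < e1 * δ1 := by positivity
      linarith
    have b2 : e1 * D ≤ e1 * (d * tμ (-1) x n) := by
      calc e1 * D ≤ e1 * (δ1 * x) := mul_le_mul_of_nonneg_left b1 he0.le
        _ = e1 * δ1 * x := by ring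
        _ ≤ d * κ * x := mul_le_mul_of_nonneg_right hd x0.le
        _ = d * (κ * x) := by ring
        _ ≤ d * (e1 * tμ (-1) x n) := mul_le_mul_of_nonneg_left hmu d0
        _ = _ := by ring
    exact le_of_mul_le_mul_left b2 he0
  · refine hE.trans (mul_le_mul_of_nonneg_left ?_ hw.le)
    have hm : tm (-1) x n ^ 2 ≤ 1 * a ^ 2 := by
      unfold tm
      rw [hta, ← ha, neg_one_mul, one_mul]
      have b1 : 0 ≤ exp (-a) * n := by positivity
      have b2 : exp (-a) * n ≤ 1 * n := mul_le_mul_of_nonneg_right hEa1 n0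
      exact pow_le_pow_left₀ (by linarith) (by linarith) 2
    have b3 := sq_le_of hκ0 x0 hμ0 he0 hmu hm ha c0 hcx hu hu1 hθ0 zero_le_one hs
    have b4 := X_m hx hc
    have b5 : 6283 / 1000 * (c * (137 / 25 - (α + β * c))) ≤ 2 * π * (a - n) := by
      have hpi := pi_gt_d4
      have b6 : c * (137 / 25 - (α + β * c)) ≤ a - n := by
        rw [ha]
        linarith
      exact mul_le_mul (by linarith) b6
        (mul_nonneg c0.le (by linarith)) (by linarith)
    unfold tH
    rw [hta, neg_one_mul, ← ha]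
    rw [← ha] at b4
    have b7 : x * (exp (-a) - 1 - -a) = x * (exp (-a) - 1 + a) := by ring
    rw [b7]
    linarith

/-- dangerous lump, `y ≥ 0`, `ε = 1` -/
theorem lumpP {x y w D p u α β κ d s em e2 δ1 C E F c : ℝ} (hx : 112 / 25 ≤ x)
    (hc : c * (1 + x) = 1) (hu : c ≤ u) (hu1 : u < 1) (y0 : 0 ≤ y) (hD0 : 0 < D)
    (hD : D ^ 2 ≤ (1 + y) ^ 2 + x ^ 2) (con : x * (exp y - 1) + (y + y ^ 2 / 2) / x ≤ p) (hw : 0 < w)
    (hwx : 34 ≤ w * x) (hα : 0 ≤ α) (hβ : 0 ≤ β) (hab : (α + β * u) * (e2 + 1) ≤ 137 / 25)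
    (hκ0 : 0 < κ) (hκ : 134 / 1000 * (u * (α + β * u)) * u ≤ (473 / 1000 - κ) * (1 - u))
    (hM : 15 ≤ 34 * κ) (he2 : exp (137 / 50 * c) ≤ e2) (he0 : 0 < em) (hem1 : em ≤ 1)
    (he : exp (-(137 / 25 * c)) ≤ em)
    (hs : 2679 / 10000 * (1 * (18769 / 625)) * 1 ≤ s * (κ * (1 - u))) (hδ0 : 1 ≤ δ1)
    (hδ : (1 + u * (α + β * u)) ^ 2 * u ^ 2 ≤ (δ1 - 1) * (2 * (1 - u) ^ 2)) (hd : em * δ1 ≤ d * κ)
    (hC : d * 15 ≤ 2 * C ^ 2 * (15 - 1)) (hC0 : 0 ≤ C) (hF : C * exp (-E) ≤ F)
    (hN : p ≤ (1 - c) * (α + β * c) * (1 + c * (α + β * c) / 2 + (c * (α + β * c)) ^ 2 / 6) +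
      c ^ 2 * (1 + c) * (α + β * c))
    (hE : y ≤ c * (α + β * c) → E ≤ w * (6283 / 1000 * (137 / 25 * c - y) -
      c * ((1 - c) * (150152 / 10000 + 274278 / 10000 * c + 37577 / 1000 * c ^ 2 +
        49421 / 1000 * c ^ 3)) - c * (s * c ^ 2))) :
    tP 1 x y w ≤ F * √(2 * π / (w * D)) := by
  have c0 := c_pos hx hc
  have c1 := c_le hx hc
  have hcx := cx_of hc
  have hta := ta_eq hx hc
  have x0 : 0 < x := by linarith
  have u0 : 0 < u := by linarith
  have hyt := y_le hx hc y0 con hα hβ hu hN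
  have hux := x_ge hx hc hu
  have hab' : α + β * c ≤ α + β * u := by
    have := mul_le_mul_of_nonneg_left hu hβ
    linarith
  have hau : 0 ≤ α + β * u := by positivity
  obtain ⟨a, ha⟩ : ∃ a, a = 137 / 25 * c := ⟨_, rfl⟩
  have a0 : 0 < a := by rw [ha]; positivity
  have a1 : a ≤ 1 := by rw [ha]; linarith
  have hyu : y ≤ u * (α + β * u) := hyt.trans (mul_le_mul hu hab' (by positivity) u0.le)
  have hkap : 134 / 1000 * |y| ≤ (473 / 1000 - κ) * x := by
    rw [abs_of_nonneg y0]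
    have b2 : 0 ≤ 473 / 1000 - κ := by
      by_contra h
      push Not at h
      have b3 : (473 / 1000 - κ) * (1 - u) < 0 := mul_neg_of_neg_of_pos h (by linarith)
      have b4 : 0 ≤ 134 / 1000 * (u * (α + β * u)) * u := by positivity
      linarith
    have b5 : 134 / 1000 * y * u ≤ (473 / 1000 - κ) * x * u := by
      calc 134 / 1000 * y * u ≤ 134 / 1000 * (u * (α + β * u)) * u :=
            mul_le_mul_of_nonneg_right (by linarith) u0.le
        _ ≤ (473 / 1000 - κ) * (1 - u) := hκ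
        _ ≤ (473 / 1000 - κ) * (u * x) := mul_le_mul_of_nonneg_left hux b2
        _ = _ := by ring
    exact le_of_mul_le_mul_right b5 u0
  have hmu := mu_p (v := y) x0 hκ0 hkap he0 (by rw [hta]; exact he)
  have hκx : 0 < κ * x := by positivity
  have hμ0 : 0 < tμ 1 x y := by
    by_contra h
    push Not at h
    have := mul_nonpos_of_nonneg_of_nonpos he0.le h
    linarith
  have hmu1 : κ * x ≤ 1 * tμ 1 x y := hmu.trans (mul_le_mul_of_nonneg_right hem1 hμ0.le)
  refine tP_le hw hD0 (M := 15) (θ := 2679 / 10000) (by norm_num) hμ0 ?_ (by norm_num) ?_ hC hC0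
    (E := E) ?_ hF
  · have b1 := mul_le_mul_of_nonneg_left hmu1 hw.le
    have b2 := mul_le_mul_of_nonneg_right hwx hκ0.le
    linarith
  · have b1 := D_le x0 (sq_nonneg (1 + y)) hD u0 hu1 hux
      (by
        refine le_trans ?_ hδ
        exact mul_le_mul_of_nonneg_right (pow_le_pow_left₀ (by linarith) (by linarith) 2) (sq_nonneg u))
      hδ0
    have d0 : 0 ≤ d := by
      by_contra h
      push Not at h
      have b2 := mul_neg_of_neg_of_pos h hκ0
      have b3 : 0 < em * δ1 := by positivity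
      linarith
    have b2 : em * D ≤ em * (d * tμ 1 x y) := by
      calc em * D ≤ em * (δ1 * x) := mul_le_mul_of_nonneg_left b1 he0.le
        _ = em * δ1 * x := by ring
        _ ≤ d * κ * x := mul_le_mul_of_nonneg_right hd x0.le
        _ = d * (κ * x) := by ring
        _ ≤ d * (em * tμ 1 x y) := mul_le_mul_of_nonneg_left hmu d0
        _ = _ := by ring
    exact le_of_mul_le_mul_left b2 he0
  · refine (hE hyt).trans (mul_le_mul_of_nonneg_left ?_ hw.le)
    -- `m² ≤ a² e^a`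
    have hm2 : tm 1 x y ^ 2 ≤ a ^ 2 * exp a := by
      unfold tm
      rw [hta, ← ha, one_mul]
      obtain ⟨g, hg⟩ : ∃ g, g = exp (a / 2) := ⟨_, rfl⟩
      have hg2 : exp a = g ^ 2 := by
        rw [hg, ← exp_nat_mul]
        congr 1
        push_cast
        ring
      have hg1 : 1 ≤ g := by
        rw [hg]
        exact one_le_exp (by positivity)
      have hge : g ≤ e2 := by
        rw [hg, ha]
        refine le_trans (le_of_eq ?_) he2
        congr 1
        ring
      have b1 : y * (g + 1) ≤ a := by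
        have b2 : y * (g + 1) ≤ c * (α + β * u) * (e2 + 1) :=
          mul_le_mul (hyt.trans (mul_le_mul_of_nonneg_left hab' c0.le)) (by linarith) (by linarith)
            (by positivity)
        have b3 := mul_le_mul_of_nonneg_left hab c0.le
        rw [ha]
        linarith
      have b4 : a - y + exp a * y ≤ a * g := by
        rw [hg2]
        have := mul_le_mul_of_nonneg_right b1 (by linarith : 0 ≤ g - 1)
        linarith
      have b5 : 0 ≤ a - y + exp a * y := by
        have : 1 ≤ exp a := one_le_exp a0.le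
        have := mul_le_mul_of_nonneg_right this y0
        linarith
      have b6 := pow_le_pow_left₀ b5 b4 2
      rw [hg2] at b6 ⊢
      linarith
    have b3 : 2679 / 10000 * tm 1 x y ^ 2 / tμ 1 x y ≤ c * (s * c ^ 2) := by
      -- μ ≥ κ x e^a
      have hmu2 : κ * x * exp a ≤ tμ 1 x y := by
        unfold tμ
        rw [hta, ← ha, one_mul, mul_comm]
        exact mul_le_mul_of_nonneg_left (by linarith) (exp_pos a).le
      have hEa := exp_pos a
      have b4 : 2679 / 10000 * tm 1 x y ^ 2 / tμ 1 x y ≤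
          2679 / 10000 * (a ^ 2 * exp a) / (κ * x * exp a) := by
        refine div_le_div₀ (by positivity) (mul_le_mul_of_nonneg_left hm2 (by norm_num)) (by positivity) hmu2
      have b5 : 2679 / 10000 * (a ^ 2 * exp a) / (κ * x * exp a) =
          2679 / 10000 * a ^ 2 / (κ * x) := by
        field_simp
      rw [b5] at b4
      refine b4.trans ?_
      exact sq_le_of (m := a) (B := 1) (e1 := 1) hκ0 x0 hκx one_pos (by linarith) (by linarith) ha c0
        hcx hu hu1 (by norm_num) zero_le_one hs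
    have b4 := X_p hx hc
    have b5 : 6283 / 1000 * (137 / 25 * c - y) ≤ 2 * π * (a - y) := by
      have hpi := pi_gt_d4
      rw [← ha]
      have b6 : 0 ≤ a - y := by
        have b7 : (α + β * u) * 1 ≤ (α + β * u) * (e2 + 1) :=
          mul_le_mul_of_nonneg_left (by
            have := one_le_exp (show 0 ≤ 137 / 50 * c by positivity)
            linarith) hau
        have b8 := mul_le_mul_of_nonneg_left (hab'.trans (by linarith : α + β * u ≤ 137 / 25)) c0.le
        rw [ha]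
        linarith
      exact mul_le_mul_of_nonneg_right (by linarith) b6
    unfold tH
    rw [hta, one_mul, ← ha]
    rw [← ha] at b4
    linarith

/-- harmless lump, `y = -n ≤ 0`, `ε = 1` -/
theorem lumpNn {x n w D E F c : ℝ} (hx : 112 / 25 ≤ x) (hc : c * (1 + x) = 1) (n0 : 0 ≤ n)
    (n1 : n ≤ 1 / 2) (hnx : n ≤ 2 / 5 * x) (hD0 : 0 < D) (hD : D ^ 2 ≤ 1 + x ^ 2) (hw : 0 < w)
    (hwx : 4632 / 100 ≤ w * x) (hF : 115 / 100 * exp (-E) ≤ F)
    (hE : E ≤ w * (6283 / 1000 * (137 / 25 * c + n) -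
      c * ((1 - c) * (150152 / 10000 + 274278 / 10000 * c + 37577 / 1000 * c ^ 2 +
        49421 / 1000 * c ^ 3)) - c * (2345 / 100 * c ^ 2))) :
    tP 1 x (-n) w ≤ F * √(2 * π / (w * D)) := by
  have c0 := c_pos hx hc
  have c1 := c_le hx hc
  have hcx := cx_of hc
  have hta := ta_eq hx hc
  have x0 : 0 < x := by linarith
  obtain ⟨a, ha⟩ : ∃ a, a = 137 / 25 * c := ⟨_, rfl⟩
  have a0 : 0 < a := by rw [ha]; positivity
  have a1 : a ≤ 1 := by rw [ha]; linarith
  have hkap : 134 / 1000 * |(-n)| ≤ (473 / 1000 - 42 / 100) * x := by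
    rw [abs_neg, abs_of_nonneg n0]
    linarith
  have hmu := mu_p (v := -n) (em := 1) x0 (by norm_num : (0 : ℝ) < 42 / 100) hkap one_pos
    (exp_le_one_iff.2 (by rw [hta]; linarith))
  have hμ0 : 0 < tμ 1 x (-n) := by linarith
  refine tP_le hw hD0 (M := 15) (θ := 2679 / 10000) (d := 2441 / 1000) (C := 115 / 100) (by norm_num) hμ0
    ?_ (by norm_num) ?_ (by norm_num) (by norm_num) (E := E) ?_ hF
  · have b1 := mul_le_mul_of_nonneg_left hmu hw.le
    linarith
  · have b1 := D_le (u := 25 / 137) (δ1 := 1024928 / 1000000) x0 zero_le_one hD (by norm_num)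
      (by norm_num) (x_ge hx hc c1) (by norm_num) (by norm_num)
    linarith
  · refine hE.trans (mul_le_mul_of_nonneg_left ?_ hw.le)
    have hm : tm 1 x (-n) ^ 2 ≤ 1 * a ^ 2 := by
      unfold tm
      rw [hta, ← ha, one_mul, one_mul]
      have b1 : exp a - 1 ≤ 2 * a := by
        have := ep_ub a0.le a1
        have g2 : a ^ 2 ≤ a := by
          rw [sq]
          exact mul_le_of_le_one_left a0.le a1
        have g3 : a ^ 3 ≤ a := pow_le_of_le_one a0.le a1 (by norm_num)
        have g4 : a ^ 4 ≤ a := pow_le_of_le_one a0.le a1 (by norm_num)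
        have g5 : a ^ 5 ≤ a := pow_le_of_le_one a0.le a1 (by norm_num)
        linarith
      have b2 : 0 ≤ (exp a - 1) * n := mul_nonneg (by linarith [one_le_exp a0.le]) n0
      have b3 : (exp a - 1) * n ≤ 2 * a * (1 / 2) := mul_le_mul b1 n1 n0 (by positivity)
      refine sq_le_sq' ?_ ?_
      · linarith
      · linarith
    have b3 := sq_le_of (κ := 42 / 100) (s := 2345 / 100) (u := 25 / 137) (by norm_num) x0 hμ0 one_pos
      hmu hm ha c0 hcx c1 (by norm_num) (by norm_num : (0 : ℝ) ≤ 2679 / 10000) zero_le_one (by norm_num)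
    have b4 := X_p hx hc
    have b5 : 6283 / 1000 * (137 / 25 * c + n) ≤ 2 * π * (a - -n) := by
      have hpi := pi_gt_d4
      rw [← ha, sub_neg_eq_add]
      exact mul_le_mul_of_nonneg_right (by linarith) (by positivity)
    unfold tH
    rw [hta, one_mul, ← ha]
    rw [← ha] at b4
    linarith

/-- harmless lump, `y ≥ 0`, `ε = -1` -/
theorem lumpPn {x y w D E F c : ℝ} (hx : 112 / 25 ≤ x) (hc : c * (1 + x) = 1) (y0 : 0 ≤ y)
    (y1 : y ≤ 376 / 1000) (hD0 : 0 < D) (hD : D ^ 2 ≤ (1 + y) ^ 2 + x ^ 2) (hw : 0 < w)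
    (hwx : 34 ≤ w * x) (hF : 2 * exp (-E) ≤ F)
    (hE : E ≤ w * (6283 / 1000 * (137 / 25 * c) -
      c * ((1 - c) * (150152 / 10000 - 274277 / 10000 * c + 37577 / 1000 * c ^ 2)) -
      c * (126 * c ^ 2))) :
    tP (-1) x (-y) w ≤ F * √(2 * π / (w * D)) := by
  have c0 := c_pos hx hc
  have c1 := c_le hx hc
  have hcx := cx_of hc
  have hta := ta_eq hx hc
  have x0 : 0 < x := by linarith
  obtain ⟨a, ha⟩ : ∃ a, a = 137 / 25 * c := ⟨_, rfl⟩
  have a0 : 0 < a := by rw [ha]; positivity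
  have a1 : a ≤ 1 := by rw [ha]; linarith
  have hkap : 134 / 1000 * |(-y)| ≤ (473 / 1000 - 46 / 100) * x := by
    rw [abs_neg, abs_of_nonneg y0]
    linarith
  have hmu := mu_m (v := -y) (e1 := 27183 / 10000) x0 (by norm_num : (0 : ℝ) < 46 / 100) hkap
    (by norm_num) (by
      rw [hta, ← ha]
      have h1 := exp_le_exp.2 a1
      have h2 := exp_one_lt_d9
      linarith)
  have hμ0 : 0 < tμ (-1) x (-y) := by linarith
  refine tP_le hw hD0 (M := 57 / 10) (θ := 3032 / 10000) (d := 62 / 10) (C := 2) (by norm_num) hμ0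
    ?_ (by norm_num) ?_ (by norm_num) (by norm_num) (E := E) ?_ hF
  · have b1 := mul_le_mul_of_nonneg_left hmu hw.le
    linarith
  · have b1 := D_le (u := 25 / 137) (δ1 := 10472 / 10000) (B := (1 + 376 / 1000) ^ 2) x0 (by norm_num)
      (hD.trans (by
        have := pow_le_pow_left₀ (by linarith : 0 ≤ 1 + y) (by linarith : 1 + y ≤ 1 + 376 / 1000) 2
        linarith)) (by norm_num)
      (by norm_num) (x_ge hx hc c1) (by norm_num) (by norm_num)
    linarith
  · refine hE.trans (mul_le_mul_of_nonneg_left ?_ hw.le)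
    have hm : tm (-1) x (-y) ^ 2 ≤ 19 / 10 * a ^ 2 := by
      unfold tm
      rw [hta, ← ha, neg_one_mul]
      have b1 : 1 - exp (-a) ≤ a := by
        have := add_one_le_exp (-a)
        linarith
      have b0 : 0 ≤ 1 - exp (-a) := by
        have := exp_le_one_iff.2 (by linarith : -a ≤ 0)
        linarith
      have b2 : (1 - exp (-a)) * y ≤ a * (376 / 1000) := mul_le_mul b1 y1 y0 a0.le
      have b3 : 0 ≤ (1 - exp (-a)) * y := mul_nonneg b0 y0
      have b4 := pow_le_pow_left₀ (by linarith : 0 ≤ a - -y + exp (-a) * -y)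
        (by linarith : a - -y + exp (-a) * -y ≤ a * (1376 / 1000)) 2
      refine b4.trans ?_
      have e : (a * (1376 / 1000)) ^ 2 = (1376 / 1000) ^ 2 * a ^ 2 := by ring
      rw [e]
      exact mul_le_mul_of_nonneg_right (by norm_num) (sq_nonneg a)
    have b3 := sq_le_of (κ := 46 / 100) (s := 126) (u := 25 / 137) (by norm_num) x0 hμ0
      (by norm_num : (0 : ℝ) < 27183 / 10000)
      hmu hm ha c0 hcx c1 (by norm_num) (by norm_num : (0 : ℝ) ≤ 3032 / 10000) (by norm_num) (by norm_num)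
    have b4 := X_m hx hc
    have b5 : 6283 / 1000 * (137 / 25 * c) ≤ 2 * π * (a - -y) := by
      have hpi := pi_gt_d4
      rw [← ha, sub_neg_eq_add]
      exact mul_le_mul (by linarith) (by linarith) (by positivity) (by linarith)
    unfold tH
    rw [hta, neg_one_mul, ← ha]
    rw [← ha] at b4
    have b7 : x * (exp (-a) - 1 - -a) = x * (exp (-a) - 1 + a) := by ring
    rw [b7]
    linarith

end SokalT2
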