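import Pool.Agent.Lib_MP_af4de1_v3.T2Def
import Pool.Agent.Lib_MP_af4de1_v3.SadBase

/-!
# `N = 2`, tails: tools for the pieces A, B (helper63)

`tP_le`: the bound of one lump.  `at_pos`, `at_neg`: the relations between `x`, `y`, `ρ`, `η`.
-/

set_option autoImplicit false

namespace SokalT2

open Real Set SokalF1S SokalV3

/-! ### exponentials -/

theorem en_ub {a : ℝ} (h0 : 0 ≤ a) (h1 : a ≤ 1) :
    exp (-a) ≤ 1 - a + a ^ 2 / 2 - a ^ 3 / 6 + a ^ 4 / 24 := by
  have h := Real.exp_bound (x := -a) (by rw [abs_neg, abs_of_nonneg h0]; exact h1) (n := 6) (by norm_num)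
  simp only [Finset.sum_range_succ, Finset.sum_range_zero, Nat.factorial] at h
  norm_num at h
  have h2 := (abs_le.1 h).2
  rw [abs_of_nonneg h0] at h2
  have h3 : a ^ 6 ≤ a ^ 5 := pow_le_pow_of_le_one h0 h1 (by norm_num)
  have h4 : (-a) ^ 5 = -a ^ 5 := by ring
  have h5 : (-a) ^ 3 = -a ^ 3 := by ring
  have h6 : 0 ≤ a ^ 5 := by positivity
  rw [h4, h5] at h2
  linarith

theorem ep_ub {a : ℝ} (h0 : 0 ≤ a) (h1 : a ≤ 1) :
    exp a ≤ 1 + a + a ^ 2 / 2 + a ^ 3 / 6 + a ^ 4 / 24 + a ^ 5 / 100 := by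
  have h := Real.exp_bound' h0 h1 (n := 5) (by norm_num)
  simp only [Finset.sum_range_succ, Finset.sum_range_zero, Nat.factorial] at h
  norm_num at h
  linarith

theorem ep_lb {a : ℝ} (h0 : 0 ≤ a) : 1 + a + a ^ 2 / 2 + a ^ 3 / 6 ≤ exp a := by
  have h := Real.sum_le_exp_of_nonneg h0 4
  simp only [Finset.sum_range_succ, Finset.sum_range_zero, Nat.factorial] at h
  norm_num at h
  linarith

/-- `1 - e^(-n) ≥ n - n²/2` -/
theorem one_sub_en {n : ℝ} (h0 : 0 ≤ n) (h1 : n ≤ 1) : n - n ^ 2 / 2 ≤ 1 - exp (-n) := by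
  have h := en_ub h0 h1
  have h2 : n ^ 4 ≤ n ^ 3 := pow_le_pow_of_le_one h0 h1 (by norm_num)
  have h3 : 0 ≤ n ^ 3 := by positivity
  linarith

/-! ### one lump -/

theorem tP_le {ε x v w D θ M d C E F : ℝ} (hw : 0 < w) (hD : 0 < D) (hM : 1 < M)
    (h0 : 0 < tμ ε x v) (hμ : M ≤ w * tμ ε x v) (hθ : M ≤ 4 * θ * (M - 1))
    (hd : D ≤ d * tμ ε x v) (hC : d * M ≤ 2 * C ^ 2 * (M - 1)) (hC0 : 0 ≤ C)
    (hE : E ≤ w * (tH ε x v - θ * tm ε x v ^ 2 / tμ ε x v)) (hF : C * exp (-E) ≤ F) :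
    tP ε x v w ≤ F * √(2 * π / (w * D)) := by
  unfold tP
  set μ := tμ ε x v with hμd
  set m := tm ε x v with hmd
  set H := tH ε x v with hHd
  have hq : 0 < w * μ - 1 := by linarith
  have hM1 : 0 < M - 1 := by linarith
  have hd0 : 0 < d := by
    by_contra h
    push Not at h
    have := mul_nonpos_of_nonpos_of_nonneg h h0.le
    linarith
  have a1 : √(π / (w * μ - 1)) ≤ C * √(2 * π / (w * D)) := by
    rw [← Real.sqrt_sq hC0, ← Real.sqrt_mul (sq_nonneg C)]
    refine Real.sqrt_le_sqrt ?_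
    rw [div_le_iff₀ hq]
    have e1 : C ^ 2 * (2 * π / (w * D)) * (w * μ - 1) = π * (2 * C ^ 2 * (w * μ - 1)) / (w * D) := by
      field_simp
    rw [e1, le_div_iff₀ (by positivity)]
    refine mul_le_mul_of_nonneg_left ?_ pi_pos.le
    -- w D ≤ d w μ ≤ 2 C² (w μ - 1)
    have b1 : w * D ≤ d * (w * μ) := by
      have := mul_le_mul_of_nonneg_left hd hw.le
      linarith
    have b2 : (M - 1) * (w * μ) ≤ M * (w * μ - 1) := by linarith
    have b3 : (M - 1) * (d * (w * μ)) ≤ (M - 1) * (2 * C ^ 2 * (w * μ - 1)) := by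
      have c1 := mul_le_mul_of_nonneg_left b2 hd0.le
      have c2 := mul_le_mul_of_nonneg_right hC hq.le
      have c3 : (M - 1) * (d * (w * μ)) = d * ((M - 1) * (w * μ)) := by ring
      have c4 : (M - 1) * (2 * C ^ 2 * (w * μ - 1)) = 2 * C ^ 2 * (M - 1) * (w * μ - 1) := by ring
      have c5 : d * (M * (w * μ - 1)) = d * M * (w * μ - 1) := by ring
      rw [c3, c4]
      linarith
    exact b1.trans (le_of_mul_le_mul_left b3 hM1)
  have a2 : (w * m) ^ 2 / (4 * (w * μ - 1)) - w * H ≤ -E := by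
    have h4 : 1 ≤ 4 * θ := by
      by_contra h
      push Not at h
      have := mul_lt_mul_of_pos_right h hM1
      linarith
    have b1 : w * μ ≤ 4 * θ * (w * μ - 1) := by
      have c1 : (4 * θ - 1) * M ≤ (4 * θ - 1) * (w * μ) :=
        mul_le_mul_of_nonneg_left hμ (by linarith)
      linarith
    have b2 : (w * m) ^ 2 / (4 * (w * μ - 1)) ≤ w * (θ * m ^ 2 / μ) := by
      rw [div_le_iff₀ (by positivity)]
      have e1 : w * (θ * m ^ 2 / μ) * (4 * (w * μ - 1)) = w * m ^ 2 * (4 * θ * (w * μ - 1)) / μ := by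
        field_simp
      rw [e1, le_div_iff₀ h0]
      have c1 := mul_le_mul_of_nonneg_left b1 (by positivity : 0 ≤ w * m ^ 2)
      have e2 : (w * m) ^ 2 * μ = w * m ^ 2 * (w * μ) := by ring
      rw [e2]
      exact c1
    have b3 : w * (H - θ * m ^ 2 / μ) = w * H - w * (θ * m ^ 2 / μ) := by ring
    rw [b3] at hE
    linarith
  have a3 : √(π / (w * μ - 1)) * exp ((w * m) ^ 2 / (4 * (w * μ - 1)) - w * H) ≤
      C * √(2 * π / (w * D)) * exp (-E) :=
    mul_le_mul a1 (exp_le_exp.2 a2) (exp_pos _).le (by positivity)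
  refine a3.trans ?_
  have e1 : C * √(2 * π / (w * D)) * exp (-E) = C * exp (-E) * √(2 * π / (w * D)) := by ring
  rw [e1]
  exact mul_le_mul_of_nonneg_right hF (Real.sqrt_nonneg _)

/-! ### the saddle -/

/-- `y ≥ 0` -/
theorem at_pos {r δ y η : ℝ} (h : At r δ y η) (hy : 0 ≤ y) (hx : 1 ≤ sx (r * δ) y) :
    sx (r * δ) y * exp y ≤ r * δ ∧ r * δ ≤ sx (r * δ) y + η ∧
      sx (r * δ) y * (exp y - 1) + (y + y ^ 2 / 2) / sx (r * δ) y ≤ η := by
  have hρ := h.dom.1
  set ρ := r * δ with hρd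
  have e1 := exp_mul_neg y
  have hxk := sx_le h.dom
  have hE := exp_pos y
  refine ⟨?_, ?_, ?_⟩
  · have := mul_le_mul_of_nonneg_right hxk hE.le
    have e2 : ρ * exp (-y) * exp y = ρ * (exp y * exp (-y)) := by ring
    rw [e2, e1, mul_one] at this
    exact this
  · have h2 := sP_nonneg (ρ := ρ) hρ hy
    have h3 := h.eta
    unfold sE at h3
    linarith
  · have h2 := sE_ge_pos h.dom hy
    rw [h.eta] at h2
    refine le_trans ?_ h2
    have hk0 : 0 < ρ * exp (-y) := by positivity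
    have hx0 : 0 < sx ρ y := by linarith
    have e3 : ρ * (1 - exp (-y)) = ρ * exp (-y) * (exp y - 1) := by
      linear_combination (-ρ) * e1
    have e4 : (y + y ^ 2 / 2) * exp y / ρ = (y + y ^ 2 / 2) / (ρ * exp (-y)) := by
      rw [div_eq_div_iff hρ.ne' hk0.ne']
      linear_combination (y + y ^ 2 / 2) * ρ * e1
    rw [e3, e4]
    have hq := quadratic_le_exp_of_nonneg hy
    have hq0 : 0 ≤ y + y ^ 2 / 2 := by positivity
    set k := ρ * exp (-y) with hk
    set x := sx ρ y with hxd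
    -- (k - x) ((e^y - 1) - q/(k x)) ≥ 0
    have f1 : (y + y ^ 2 / 2) / x - (y + y ^ 2 / 2) / k = (k - x) * ((y + y ^ 2 / 2) / (k * x)) := by
      field_simp
    have f2 : (y + y ^ 2 / 2) / (k * x) ≤ y + y ^ 2 / 2 := by
      refine div_le_self hq0 ?_
      have : 1 ≤ k := by linarith
      nlinarith
    have f3 := mul_le_mul_of_nonneg_left (f2.trans (by linarith : y + y ^ 2 / 2 ≤ exp y - 1))
      (by linarith : 0 ≤ k - x)
    have f4 : (k - x) * (exp y - 1) = k * (exp y - 1) - x * (exp y - 1) := by ring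
    linarith

/-- `y = -n ≤ 0` -/
theorem at_neg {r δ n η : ℝ} (h : At r δ (-n) η) (hn : 0 ≤ n) (hn1 : n ≤ 1)
    (hx : 1 ≤ sx (r * δ) (-n)) :
    sx (r * δ) (-n) * exp (-n) ≤ r * δ ∧
      sx (r * δ) (-n) * (1 - exp (-n)) + (n - n ^ 2 / 2) / sx (r * δ) (-n) ≤ -η := by
  have hρ := h.dom.1
  set ρ := r * δ with hρd
  have e1 := exp_mul_neg n
  have hxk := sx_le h.dom
  rw [neg_neg] at hxk
  have hE := exp_pos n
  have hE' := exp_pos (-n)
  refine ⟨?_, ?_⟩
  · have := mul_le_mul_of_nonneg_right hxk hE'.le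
    have e2 : ρ * exp n * exp (-n) = ρ * (exp n * exp (-n)) := by ring
    rw [e2, e1, mul_one] at this
    exact this
  · have h2 := sE_le_neg h.dom hn hn1
    rw [h.eta] at h2
    refine le_trans ?_ h2
    have hk0 : 0 < ρ * exp n := by positivity
    have hx0 : 0 < sx ρ (-n) := by linarith
    have e3 : ρ * (exp n - 1) = ρ * exp n * (1 - exp (-n)) := by
      linear_combination ρ * e1
    have e4 : (n - n ^ 2 / 2) * exp (-n) / ρ = (n - n ^ 2 / 2) / (ρ * exp n) := by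
      rw [div_eq_div_iff hρ.ne' hk0.ne']
      linear_combination (n - n ^ 2 / 2) * ρ * e1
    rw [e3, e4]
    have hq := one_sub_en hn hn1
    have hq0 : 0 ≤ n - n ^ 2 / 2 := by nlinarith
    set k := ρ * exp n with hk
    set x := sx ρ (-n) with hxd
    have f1 : (n - n ^ 2 / 2) / x - (n - n ^ 2 / 2) / k = (k - x) * ((n - n ^ 2 / 2) / (k * x)) := by
      field_simp
    have f2 : (n - n ^ 2 / 2) / (k * x) ≤ n - n ^ 2 / 2 := by
      refine div_le_self hq0 ?_
      have : 1 ≤ k := by linarith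
      nlinarith
    have f3 := mul_le_mul_of_nonneg_left (f2.trans hq) (by linarith : 0 ≤ k - x)
    have f4 : (k - x) * (1 - exp (-n)) = k * (1 - exp (-n)) - x * (1 - exp (-n)) := by ring
    linarith

end SokalT2
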