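import Pool.Agent.Lib_MP_af4de1_v3.T2Lump

/-!
# `N = 2`, tails: the lumps with parameters, `x ≥ 112/25`, `c = 1/(1+x)` (helper63)
-/

set_option autoImplicit false

namespace SokalT2

open Real Set SokalF1S SokalV3

theorem cx_of {x c : ℝ} (hc : c * (1 + x) = 1) : c * x = 1 - c := by linarith

theorem c_pos {x c : ℝ} (hx : 112 / 25 ≤ x) (hc : c * (1 + x) = 1) : 0 < c := by
  by_contra h
  push Not at h
  have := mul_nonpos_of_nonpos_of_nonneg h (by linarith : 0 ≤ 1 + x)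
  linarith

theorem c_le {x c : ℝ} (hx : 112 / 25 ≤ x) (hc : c * (1 + x) = 1) : c ≤ 25 / 137 := by
  have := mul_le_mul_of_nonneg_left (by linarith : 137 / 25 ≤ 1 + x) (c_pos hx hc).le
  linarith

theorem ta_eq {x c : ℝ} (hx : 112 / 25 ≤ x) (hc : c * (1 + x) = 1) : ta x = 137 / 25 * c := by
  unfold ta ts
  rw [min_eq_left (by linarith), ← eq_inv_of_mul_eq_one_left hc]
  ring

/-- `x ≥ (1-u)/u` -/
theorem x_ge {x c u : ℝ} (hx : 112 / 25 ≤ x) (hc : c * (1 + x) = 1) (hu : c ≤ u) : 1 - u ≤ u * x := by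
  have := mul_le_mul_of_nonneg_right hu (by linarith : 0 ≤ 1 + x)
  linarith

/-- `D ≤ δ₁ x` -/
theorem D_le {x D u δ1 B : ℝ} (hx : 0 < x) (hB : 0 ≤ B) (hD : D ^ 2 ≤ B + x ^ 2) (hu0 : 0 < u)
    (hu1 : u < 1) (hux : 1 - u ≤ u * x) (hδ : B * u ^ 2 ≤ (δ1 - 1) * (2 * (1 - u) ^ 2))
    (hδ0 : 1 ≤ δ1) : D ≤ δ1 * x := by
  refine le_of_sq_le_sq ?_ (by positivity)
  have h1 : (1 - u) ^ 2 ≤ (u * x) ^ 2 := pow_le_pow_left₀ (by linarith) hux 2
  have h2 : 0 < u ^ 2 := by positivity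
  have h3 : B * u ^ 2 ≤ (δ1 - 1) * 2 * (u * x) ^ 2 := by
    refine hδ.trans ?_
    have := mul_le_mul_of_nonneg_left h1 (by linarith : 0 ≤ (δ1 - 1) * 2)
    linarith
  have h4 : B ≤ (δ1 - 1) * 2 * x ^ 2 := by
    have e : (δ1 - 1) * 2 * (u * x) ^ 2 = (δ1 - 1) * 2 * x ^ 2 * u ^ 2 := by ring
    rw [e] at h3
    exact le_of_mul_le_mul_right h3 h2
  have h5 : (δ1 * x) ^ 2 = x ^ 2 + (δ1 - 1) * 2 * x ^ 2 + (δ1 - 1) ^ 2 * x ^ 2 := by ring
  have h6 : 0 ≤ (δ1 - 1) ^ 2 * x ^ 2 := by positivity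
  linarith

/-- `μ ≥ κ x/e₁` on the side `ε = -1` -/
theorem mu_m {x v κ e1 : ℝ} (hx : 0 < x) (hκ0 : 0 < κ) (hκ : 134 / 1000 * |v| ≤ (473 / 1000 - κ) * x)
    (he0 : 0 < e1) (he : exp (ta x) ≤ e1) : κ * x ≤ e1 * tμ (-1) x v := by
  unfold tμ
  have h1 : κ * x ≤ 473 / 1000 * x - 134 / 1000 * |v| := by linarith
  have h2 : 0 < κ * x := by positivity
  have h3 : 1 ≤ e1 * exp (-1 * ta x) := by
    rw [neg_one_mul, exp_neg]
    rw [← div_eq_mul_inv, le_div_iff₀ (exp_pos _)]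
    linarith
  calc κ * x ≤ 473 / 1000 * x - 134 / 1000 * |v| := h1
    _ ≤ e1 * exp (-1 * ta x) * (473 / 1000 * x - 134 / 1000 * |v|) :=
        le_mul_of_one_le_left (by linarith) h3
    _ = _ := by ring

/-- `μ ≥ κ x/em` on the side `ε = 1`, `e^(-a) ≤ em` -/
theorem mu_p {x v κ em : ℝ} (hx : 0 < x) (hκ0 : 0 < κ) (hκ : 134 / 1000 * |v| ≤ (473 / 1000 - κ) * x)
    (he0 : 0 < em) (he : exp (-ta x) ≤ em) : κ * x ≤ em * tμ 1 x v := by
  unfold tμ
  have h1 : κ * x ≤ 473 / 1000 * x - 134 / 1000 * |v| := by linarith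
  have h2 : 0 < κ * x := by positivity
  have h3 : 1 ≤ em * exp (1 * ta x) := by
    rw [one_mul]
    have e1 := exp_mul_neg (ta x)
    have := mul_le_mul_of_nonneg_right he (exp_pos (ta x)).le
    linarith
  calc κ * x ≤ 473 / 1000 * x - 134 / 1000 * |v| := h1
    _ ≤ em * exp (1 * ta x) * (473 / 1000 * x - 134 / 1000 * |v|) :=
        le_mul_of_one_le_left (by linarith) h3
    _ = _ := by ring

/-- the bound of `n` -/
theorem n_le {x n c p u α β : ℝ} (hx : 112 / 25 ≤ x) (hc : c * (1 + x) = 1) (hu : c ≤ u)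
    (n1 : n ≤ 1 / 2) (con : x * (1 - exp (-n)) + (n - n ^ 2 / 2) / x ≤ p)
    (hα : 0 ≤ α) (hβ : 0 ≤ β) (htu : u * (α + β * u) ≤ 3 / 5)
    (hN : p ≤ (1 - c) * (α + β * c) * (1 - c * (α + β * c) / 2 + (c * (α + β * c)) ^ 2 * (17 / 120)) +
      3 / 4 * (c ^ 2 * (1 + c) * (α + β * c))) : n ≤ c * (α + β * c) := by
  have c0 := c_pos hx hc
  have c1 := c_le hx hc
  have hcx := cx_of hc
  by_contra hcon
  push Not at hcon
  obtain ⟨t, ht⟩ : ∃ t, t = c * (α + β * c) := ⟨_, rfl⟩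
  rw [← ht] at hcon
  have t0 : 0 ≤ t := by
    rw [ht]
    positivity
  have t1 : t ≤ 3 / 5 := by
    refine le_trans ?_ htu
    rw [ht]
    have h1 : α + β * c ≤ α + β * u := by
      have := mul_le_mul_of_nonneg_left hu hβ
      linarith
    exact mul_le_mul hu h1 (by positivity) (by linarith)
  have h1 : exp (-n) < exp (-t) := exp_lt_exp.2 (by linarith)
  have h2 := en_ub t0 (by linarith)
  have h3 : t ^ 4 ≤ 3 / 5 * t ^ 3 := by
    have e : t ^ 4 = t * t ^ 3 := by ring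
    rw [e]
    exact mul_le_mul_of_nonneg_right t1 (by positivity)
  have n0 : 0 < n := lt_of_le_of_lt t0 hcon
  have h4 := mul_le_mul_of_nonneg_left con c0.le
  have x0 : 0 < x := by linarith
  have h5 : c ^ 2 * (1 + c) ≤ c / x := by
    rw [le_div_iff₀ x0]
    have e : c ^ 2 * (1 + c) * x = c * (1 - c ^ 2) := by linear_combination (c * (1 + c)) * hcx
    rw [e]
    have : 0 ≤ c * c ^ 2 := by positivity
    linarith
  have h6 : 3 / 4 * n ≤ n - n ^ 2 / 2 := by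
    have := mul_le_mul_of_nonneg_left n1 n0.le
    linarith
  have h7 : 3 / 4 * t * (c ^ 2 * (1 + c)) < (n - n ^ 2 / 2) * (c / x) := by
    have a1 : 0 < c ^ 2 * (1 + c) := by positivity
    calc 3 / 4 * t * (c ^ 2 * (1 + c)) < 3 / 4 * n * (c ^ 2 * (1 + c)) :=
          mul_lt_mul_of_pos_right (by linarith) a1
      _ ≤ (n - n ^ 2 / 2) * (c / x) := mul_le_mul h6 h5 a1.le (by linarith)
  have h8 : c * (x * (1 - exp (-n)) + (n - n ^ 2 / 2) / x) =
      (1 - c) * (1 - exp (-n)) + (n - n ^ 2 / 2) * (c / x) := by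
    linear_combination (1 - exp (-n)) * hcx
  rw [h8] at h4
  have h9 : (1 - c) * (t - t ^ 2 / 2 + 17 / 120 * t ^ 3) ≤ (1 - c) * (1 - exp (-n)) :=
    mul_le_mul_of_nonneg_left (by linarith) (by linarith)
  have h10 := mul_le_mul_of_nonneg_left hN c0.le
  have h11 : c * ((1 - c) * (α + β * c) * (1 - c * (α + β * c) / 2 +
      (c * (α + β * c)) ^ 2 * (17 / 120)) + 3 / 4 * (c ^ 2 * (1 + c) * (α + β * c))) =
      (1 - c) * (t - t ^ 2 / 2 + 17 / 120 * t ^ 3) + 3 / 4 * t * (c ^ 2 * (1 + c)) := by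
    rw [ht]
    ring
  rw [h11] at h10
  linarith

/-- the bound of `y` -/
theorem y_le {x y c p u α β : ℝ} (hx : 112 / 25 ≤ x) (hc : c * (1 + x) = 1) (y0 : 0 ≤ y)
    (con : x * (exp y - 1) + (y + y ^ 2 / 2) / x ≤ p) (hα : 0 ≤ α) (hβ : 0 ≤ β) (hu : c ≤ u)
    (hN : p ≤ (1 - c) * (α + β * c) * (1 + c * (α + β * c) / 2 + (c * (α + β * c)) ^ 2 / 6) +
      c ^ 2 * (1 + c) * (α + β * c)) : y ≤ c * (α + β * c) := by
  have c0 := c_pos hx hc
  have c1 := c_le hx hc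
  have hcx := cx_of hc
  by_contra hcon
  push Not at hcon
  obtain ⟨t, ht⟩ : ∃ t, t = c * (α + β * c) := ⟨_, rfl⟩
  rw [← ht] at hcon
  have t0 : 0 ≤ t := by
    rw [ht]
    positivity
  have h1 : exp t < exp y := exp_lt_exp.2 hcon
  have h2 := ep_lb t0
  have h4 := mul_le_mul_of_nonneg_left con c0.le
  have x0 : 0 < x := by linarith
  have h5 : c ^ 2 * (1 + c) ≤ c / x := by
    rw [le_div_iff₀ x0]
    have e : c ^ 2 * (1 + c) * x = c * (1 - c ^ 2) := by linear_combination (c * (1 + c)) * hcx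
    rw [e]
    have : 0 ≤ c * c ^ 2 := by positivity
    linarith
  have h7 : t * (c ^ 2 * (1 + c)) < (y + y ^ 2 / 2) * (c / x) := by
    have a1 : 0 < c ^ 2 * (1 + c) := by positivity
    calc t * (c ^ 2 * (1 + c)) < y * (c ^ 2 * (1 + c)) := mul_lt_mul_of_pos_right hcon a1
      _ ≤ (y + y ^ 2 / 2) * (c / x) :=
          mul_le_mul (by linarith [sq_nonneg y]) h5 a1.le (by positivity)
  have h8 : c * (x * (exp y - 1) + (y + y ^ 2 / 2) / x) =
      (1 - c) * (exp y - 1) + (y + y ^ 2 / 2) * (c / x) := by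
    linear_combination (exp y - 1) * hcx
  rw [h8] at h4
  have h9 : (1 - c) * (t + t ^ 2 / 2 + t ^ 3 / 6) ≤ (1 - c) * (exp y - 1) :=
    mul_le_mul_of_nonneg_left (by linarith) (by linarith)
  have h10 := mul_le_mul_of_nonneg_left hN c0.le
  have h11 : c * ((1 - c) * (α + β * c) * (1 + c * (α + β * c) / 2 +
      (c * (α + β * c)) ^ 2 / 6) + c ^ 2 * (1 + c) * (α + β * c)) =
      (1 - c) * (t + t ^ 2 / 2 + t ^ 3 / 6) + t * (c ^ 2 * (1 + c)) := by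
    rw [ht]
    ring
  rw [h11] at h10
  linarith

/-- `x (e^(-a) - 1 + a)`, `a = 137/25 c` -/
theorem X_m {x c : ℝ} (hx : 112 / 25 ≤ x) (hc : c * (1 + x) = 1) :
    x * (exp (-(137 / 25 * c)) - 1 + 137 / 25 * c) ≤
      c * ((1 - c) * (150152 / 10000 - 274277 / 10000 * c + 37577 / 1000 * c ^ 2)) := by
  have c0 := c_pos hx hc
  have c1 := c_le hx hc
  have hcx := cx_of hc
  have h1 := en_ub (a := 137 / 25 * c) (by positivity) (by linarith)
  have h2 : x * (exp (-(137 / 25 * c)) - 1 + 137 / 25 * c) ≤ x * ((137 / 25 * c) ^ 2 / 2 -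
      (137 / 25 * c) ^ 3 / 6 + (137 / 25 * c) ^ 4 / 24) :=
    mul_le_mul_of_nonneg_left (by linarith) (by linarith)
  have h3 : x * ((137 / 25 * c) ^ 2 / 2 - (137 / 25 * c) ^ 3 / 6 + (137 / 25 * c) ^ 4 / 24) =
      c * ((1 - c) * ((137 / 25) ^ 2 / 2 - (137 / 25) ^ 3 / 6 * c + (137 / 25) ^ 4 / 24 * c ^ 2)) := by
    linear_combination (c * ((137 / 25) ^ 2 / 2 - (137 / 25) ^ 3 / 6 * c + (137 / 25) ^ 4 / 24 * c ^ 2)) * hcx
  rw [h3] at h2
  refine h2.trans (mul_le_mul_of_nonneg_left (mul_le_mul_of_nonneg_left ?_ (by linarith)) c0.le)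
  have h4 : 0 ≤ c ^ 2 := by positivity
  norm_num
  linarith

/-- `x (e^a - 1 - a)`, `a = 137/25 c` -/
theorem X_p {x c : ℝ} (hx : 112 / 25 ≤ x) (hc : c * (1 + x) = 1) :
    x * (exp (137 / 25 * c) - 1 - 137 / 25 * c) ≤
      c * ((1 - c) * (150152 / 10000 + 274278 / 10000 * c + 37577 / 1000 * c ^ 2 +
        49421 / 1000 * c ^ 3)) := by
  have c0 := c_pos hx hc
  have c1 := c_le hx hc
  have hcx := cx_of hc
  have h1 := ep_ub (a := 137 / 25 * c) (by positivity) (by linarith)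
  have h2 : x * (exp (137 / 25 * c) - 1 - 137 / 25 * c) ≤ x * ((137 / 25 * c) ^ 2 / 2 +
      (137 / 25 * c) ^ 3 / 6 + (137 / 25 * c) ^ 4 / 24 + (137 / 25 * c) ^ 5 / 100) :=
    mul_le_mul_of_nonneg_left (by linarith) (by linarith)
  have h3 : x * ((137 / 25 * c) ^ 2 / 2 + (137 / 25 * c) ^ 3 / 6 + (137 / 25 * c) ^ 4 / 24 +
      (137 / 25 * c) ^ 5 / 100) =
      c * ((1 - c) * ((137 / 25) ^ 2 / 2 + (137 / 25) ^ 3 / 6 * c + (137 / 25) ^ 4 / 24 * c ^ 2 +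
        (137 / 25) ^ 5 / 100 * c ^ 3)) := by
    linear_combination (c * ((137 / 25) ^ 2 / 2 + (137 / 25) ^ 3 / 6 * c +
      (137 / 25) ^ 4 / 24 * c ^ 2 + (137 / 25) ^ 5 / 100 * c ^ 3)) * hcx
  rw [h3] at h2
  refine h2.trans (mul_le_mul_of_nonneg_left (mul_le_mul_of_nonneg_left ?_ (by linarith)) c0.le)
  have h4 : 0 ≤ c ^ 2 := by positivity
  have h5 : 0 ≤ c ^ 3 := by positivity
  norm_num
  linarith

end SokalT2
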