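import Pool.Agent.Lib_MP_af4de1_v3.T2Def

/-!
# `N = 2` tails: weights and the height near the first lump
-/

set_option autoImplicit false

open Complex MeasureTheory Set SokalU SokalPG SokalF1 SokalF1S SokalF1M SokalF1G SokalF1B

namespace SokalV3

theorem t2_e1 : Real.exp 1 ≤ 27183 / 10000 := by
  have := Real.exp_one_lt_d9
  norm_num at this ⊢
  linarith

theorem t2_chord {a : ℝ} (h0 : 0 ≤ a) (h1 : a ≤ 1) : Real.exp a ≤ 1 + 17183 / 10000 * a := by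
  have h := convexOn_exp.2 (mem_univ (0 : ℝ)) (mem_univ (1 : ℝ)) (sub_nonneg.2 h1) h0
    (by ring : (1 - a) + a = 1)
  simp only [smul_eq_mul, mul_zero, zero_add, mul_one, Real.exp_zero] at h
  have h2 := mul_le_mul_of_nonneg_left t2_e1 h0
  linarith

/-- facts on `e^(ε a)` -/
theorem t2_E {ε a : ℝ} (hε : ε = 1 ∨ ε = -1) (h0 : 0 ≤ a) (h1 : a ≤ 1) :
    1 + ε * a ≤ Real.exp (ε * a) ∧ Real.exp (ε * a) ≤ 27183 / 10000 ∧
      Real.exp (ε * a) - 1 - ε * a ≤ 7183 / 10000 ∧ 0 ≤ 1 + ε * a := by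
  refine ⟨by linarith [Real.add_one_le_exp (ε * a)], ?_, ?_, ?_⟩
  · refine le_trans (Real.exp_le_exp.2 ?_) t2_e1
    rcases hε with rfl | rfl <;> linarith
  · rcases hε with rfl | rfl
    · have := t2_chord h0 h1
      rw [one_mul]
      linarith
    · have := en_le2 h0
      rw [neg_one_mul]
      nlinarith
  · rcases hε with rfl | rfl <;> linarith

theorem t2_gs_eq (u t : ℝ) : gs ((u : ℂ) + t * I) =
    ((Real.exp u * Real.cos t - 1 - u : ℝ) : ℂ) + ((Real.exp u * Real.sin t - t : ℝ) : ℂ) * I := by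
  have e0 : (((u : ℂ) + t * I)).re = u := by simp
  have e1 : (((u : ℂ) + t * I)).im = t := by simp
  unfold gs
  apply Complex.ext
  · rw [sub_re, sub_re, exp_re, e0, e1, add_re, ofReal_re, re_ofReal_mul, I_re, one_re]
    ring
  · rw [sub_im, sub_im, exp_im, e0, e1, add_im, ofReal_im, im_ofReal_mul, I_im, one_im]
    ring

theorem t2_gs_sq (u t : ℝ) : ‖gs ((u : ℂ) + t * I)‖ ^ 2 =
    (Real.exp u * Real.cos t - 1 - u) ^ 2 + (Real.exp u * Real.sin t - t) ^ 2 := by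
  rw [t2_gs_eq, Complex.sq_norm, Complex.normSq_add_mul_I]

theorem t2_pi : (62831 / 10000 : ℝ) ≤ 2 * Real.pi ∧ 2 * Real.pi ≤ 62832 / 10000 := by
  have h1 := Real.pi_gt_d6
  have h2 := Real.pi_lt_d6
  norm_num at h1 h2
  constructor <;> linarith

/-- sine near `0` -/
theorem t2_sin {φ : ℝ} : |Real.sin φ - φ| ≤ |φ| ^ 3 / 6 := by
  rcases le_total 0 φ with h | h
  · rw [abs_of_nonneg h, abs_le]
    have h1 := sin_ge3 h
    have h2 := sin_le1 h
    have h3 : 0 ≤ φ ^ 3 := by positivity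
    constructor <;> linarith
  · have h1 := sin_ge3 (neg_nonneg.2 h)
    have h2 := sin_le1 (neg_nonneg.2 h)
    rw [Real.sin_neg] at h1 h2
    rw [abs_of_nonpos h, abs_le]
    have h3 : 0 ≤ (-φ) ^ 3 := pow_nonneg (by linarith) 3
    constructor <;> linarith

theorem t2_cos {φ : ℝ} (h : |φ| ≤ 8035 / 10000) :
    473 / 1000 * φ ^ 2 ≤ 1 - Real.cos φ := by
  have h1 := cos_le4 (abs_nonneg φ)
  rw [Real.cos_abs, sq_abs] at h1
  have h2 : |φ| ^ 4 = (φ ^ 2) ^ 2 := by rw [← sq_abs φ]; ring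
  have h3 : φ ^ 2 ≤ 8035 ^ 2 / 10000 ^ 2 := by
    rw [← sq_abs φ, ← div_pow]
    exact pow_le_pow_left₀ (abs_nonneg _) h 2
  rw [h2] at h1
  nlinarith [sq_nonneg φ, mul_nonneg (sq_nonneg φ) (sub_nonneg.2 h3)]

/-- The height near the first lump. -/
theorem t2_lump_H {ε x v a φ : ℝ} (hx : 0 ≤ x) (h : |φ| ≤ 8035 / 10000) :
    2 * Real.pi * (a - v) - x * (Real.exp (ε * a) - 1 - ε * a) +
      ((a - v + Real.exp (ε * a) * v) * φ +
        Real.exp (ε * a) * (473 / 1000 * x - 134 / 1000 * |v|) * φ ^ 2) ≤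
      Hs ε x v a (2 * Real.pi + φ) := by
  have hE := (Real.exp_pos (ε * a)).le
  have h1 := mul_le_mul_of_nonneg_left (t2_cos h) hx
  have h2 := t2_sin (φ := φ)
  have h3 : |v * (Real.sin φ - φ)| ≤ |v| * (134 / 1000 * φ ^ 2) := by
    rw [abs_mul]
    refine mul_le_mul_of_nonneg_left (h2.trans ?_) (abs_nonneg v)
    have h4 : |φ| ^ 3 = |φ| * φ ^ 2 := by rw [← sq_abs φ]; ring
    rw [h4]
    nlinarith [mul_le_mul_of_nonneg_right h (sq_nonneg φ), sq_nonneg φ]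
  have h5 := (abs_le.1 h3).1
  have h6 : Real.exp (ε * a) * (x * (473 / 1000 * φ ^ 2) - |v| * (134 / 1000 * φ ^ 2)) ≤
      Real.exp (ε * a) * (x * (1 - Real.cos φ) + v * (Real.sin φ - φ)) :=
    mul_le_mul_of_nonneg_left (by linarith) hE
  have hc : Real.cos (2 * Real.pi + φ) = Real.cos φ := by
    rw [add_comm, Real.cos_add_two_pi]
  have hs : Real.sin (2 * Real.pi + φ) = Real.sin φ := by
    rw [add_comm, Real.sin_add_two_pi]
  unfold Hs
  rw [hc, hs]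
  linarith

/-- one period further -/
theorem t2_per {ε x v a s : ℝ} :
    Hs ε x v a (s + 2 * Real.pi) = Hs ε x v a s + 2 * Real.pi * (a - v) := by
  unfold Hs
  rw [Real.cos_add_two_pi, Real.sin_add_two_pi]
  ring

/-- `|gs|²` near the first lump -/
theorem t2_lump_g {ε a φ : ℝ} (hε : ε = 1 ∨ ε = -1) (h0 : 0 ≤ a) (h1 : a ≤ 1)
    (hφ : |φ| ≤ 8035 / 10000) :
    ∃ J : ℝ, 0 ≤ J ∧ J ≤ 62832 / 10000 + 17183 / 10000 * |φ| ∧
      (0 ≤ φ → J ≤ 62832 / 10000 + φ) ∧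
      ‖gs (((ε * a : ℝ) : ℂ) + ((ε * (2 * Real.pi + φ) : ℝ) : ℂ) * I)‖ ^ 2 ≤
        5161 / 10000 + J ^ 2 := by
  obtain ⟨e1, e2, e3, e4⟩ := t2_E hε h0 h1
  obtain ⟨p1, p2⟩ := t2_pi
  have hE := Real.exp_pos (ε * a)
  have hφ2 : φ ^ 2 ≤ 8035 ^ 2 / 10000 ^ 2 := by
    rw [← sq_abs φ, ← div_pow]
    exact pow_le_pow_left₀ (abs_nonneg _) hφ 2
  have hc : Real.cos (ε * (2 * Real.pi + φ)) = Real.cos φ := by
    rcases hε with rfl | rfl
    · rw [one_mul, add_comm, Real.cos_add_two_pi]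
    · rw [neg_one_mul, Real.cos_neg, add_comm, Real.cos_add_two_pi]
  have hs : Real.sin (ε * (2 * Real.pi + φ)) = ε * Real.sin φ := by
    rcases hε with rfl | rfl
    · rw [one_mul, one_mul, add_comm, Real.sin_add_two_pi]
    · rw [neg_one_mul, neg_one_mul, Real.sin_neg, add_comm, Real.sin_add_two_pi]
  have hsq : ε ^ 2 = 1 := by rcases hε with rfl | rfl <;> norm_num
  have hI : (Real.exp (ε * a) * (ε * Real.sin φ) - ε * (2 * Real.pi + φ)) ^ 2 =
      (2 * Real.pi + φ - Real.exp (ε * a) * Real.sin φ) ^ 2 := by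
    linear_combination ((2 * Real.pi + φ - Real.exp (ε * a) * Real.sin φ) ^ 2) * hsq
  -- the real part
  have hcos1 := Real.cos_le_one φ
  have hcos2 := Real.one_sub_sq_div_two_le_cos (x := φ)
  have hR1 : Real.exp (ε * a) * Real.cos φ - 1 - ε * a ≤ 7183 / 10000 := by
    nlinarith
  have hR2 : -(7183 / 10000) ≤ Real.exp (ε * a) * Real.cos φ - 1 - ε * a := by
    have hc0 : 0 ≤ Real.cos φ := by
      have : (8035 ^ 2 / 10000 ^ 2 : ℝ) ≤ 2 := by norm_num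
      linarith
    have h2 : (1 + ε * a) * Real.cos φ ≤ Real.exp (ε * a) * Real.cos φ :=
      mul_le_mul_of_nonneg_right e1 hc0
    have h3 : 1 + ε * a ≤ 2 := by rcases hε with rfl | rfl <;> linarith
    have h4 : (1 + ε * a) * (1 - Real.cos φ) ≤ 2 * (1 - Real.cos φ) :=
      mul_le_mul_of_nonneg_right h3 (by linarith)
    have : (8035 ^ 2 / 10000 ^ 2 : ℝ) ≤ 7183 / 10000 := by norm_num
    linarith
  have hR : (Real.exp (ε * a) * Real.cos φ - 1 - ε * a) ^ 2 ≤ 5161 / 10000 := by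
    have : (7183 / 10000 : ℝ) ^ 2 ≤ 5161 / 10000 := by norm_num
    nlinarith
  -- the imaginary part
  rcases le_total 0 φ with h | h
  · have hs1 := sin_le1 h
    have hs0 : 0 ≤ Real.sin φ := Real.sin_nonneg_of_nonneg_of_le_pi h (by
      rw [abs_of_nonneg h] at hφ
      have : (8035 / 10000 : ℝ) ≤ 3 := by norm_num
      linarith)
    have h2 : Real.exp (ε * a) * Real.sin φ ≤ 27183 / 10000 * φ :=
      mul_le_mul e2 hs1 hs0 (by norm_num)
    have h3 : 0 ≤ Real.exp (ε * a) * Real.sin φ := by positivity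
    rw [abs_of_nonneg h] at hφ ⊢
    refine ⟨2 * Real.pi + φ - Real.exp (ε * a) * Real.sin φ, by linarith, by linarith,
      fun _ => by linarith, ?_⟩
    rw [t2_gs_sq, hc, hs, hI]
    linarith
  · have hs1 := sin_le1 (neg_nonneg.2 h)
    have hs0 : 0 ≤ Real.sin (-φ) := Real.sin_nonneg_of_nonneg_of_le_pi (neg_nonneg.2 h) (by
      rw [abs_of_nonpos h] at hφ
      have : (8035 / 10000 : ℝ) ≤ 3 := by norm_num
      linarith)
    have h2 : Real.exp (ε * a) * Real.sin (-φ) ≤ 27183 / 10000 * (-φ) :=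
      mul_le_mul e2 hs1 hs0 (by norm_num)
    have h3 : 0 ≤ Real.exp (ε * a) * Real.sin (-φ) := by positivity
    rw [Real.sin_neg] at h2 h3
    rw [abs_of_nonpos h] at hφ ⊢
    refine ⟨2 * Real.pi + φ - Real.exp (ε * a) * Real.sin φ, by linarith, by linarith,
      fun h5 => ?_, ?_⟩
    · have h6 : φ = 0 := le_antisymm h h5
      rw [h6, Real.sin_zero]
      linarith
    · rw [t2_gs_sq, hc, hs, hI]
      linarith

theorem t2_w1 {ε a φ : ℝ} (hε : ε = 1 ∨ ε = -1) (h0 : 0 ≤ a) (h1 : a ≤ 1)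
    (hφ : |φ| ≤ 8035 / 10000) :
    ‖gs (((ε * a : ℝ) : ℂ) + ((ε * (2 * Real.pi + φ) : ℝ) : ℂ) * I)‖ ≤
      645 / 100 * Real.exp (φ ^ 2) := by
  obtain ⟨J, j0, j1, _, j3⟩ := t2_lump_g hε h0 h1 hφ
  have h2 : 645 / 100 * (1 + φ ^ 2) ≤ 645 / 100 * Real.exp (φ ^ 2) := by
    have := Real.add_one_le_exp (φ ^ 2)
    linarith
  refine le_trans ?_ h2
  refine abs_le_of_sq_le_sq' ?_ (by positivity) |>.2
  refine j3.trans ?_
  have ha := abs_nonneg φ
  have h3 : J ^ 2 ≤ (62832 / 10000 + 17183 / 10000 * |φ|) ^ 2 := pow_le_pow_left₀ j0 j1 2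
  rw [← sq_abs φ]
  nlinarith [sq_nonneg (|φ| - 135 / 1000), sq_nonneg (|φ| ^ 2)]

theorem t2_w2 {ε a φ : ℝ} (hε : ε = 1 ∨ ε = -1) (h0 : 0 ≤ a) (h1 : a ≤ 1)
    (hφ : |φ| ≤ 8035 / 10000) :
    ‖(((ε * a : ℝ) : ℂ) + ((ε * (2 * Real.pi + φ) : ℝ) : ℂ) * I) *
      gs (((ε * a : ℝ) : ℂ) + ((ε * (2 * Real.pi + φ) : ℝ) : ℂ) * I)‖ ≤
      42 * Real.exp (φ ^ 2) := by
  obtain ⟨J, j0, j1, j2, j3⟩ := t2_lump_g hε h0 h1 hφ
  obtain ⟨p1, p2⟩ := t2_pi
  have hE2 : 42 * (1 + φ ^ 2) ≤ 42 * Real.exp (φ ^ 2) := by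
    have := Real.add_one_le_exp (φ ^ 2)
    linarith
  refine le_trans ?_ hE2
  refine abs_le_of_sq_le_sq' ?_ (by positivity) |>.2
  have hsq : ε ^ 2 = 1 := by rcases hε with rfl | rfl <;> norm_num
  have hσ : ‖(((ε * a : ℝ) : ℂ) + ((ε * (2 * Real.pi + φ) : ℝ) : ℂ) * I)‖ ^ 2 ≤
      1 + (2 * Real.pi + φ) ^ 2 := by
    rw [Complex.sq_norm, Complex.normSq_add_mul_I, mul_pow, mul_pow, hsq]
    nlinarith
  rw [norm_mul, mul_pow]
  refine (mul_le_mul hσ j3 (by positivity) (by positivity)).trans ?_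
  rcases le_total 0 φ with h | h
  · have h3 : J ^ 2 ≤ (62832 / 10000 + φ) ^ 2 := pow_le_pow_left₀ j0 (j2 h) 2
    rw [abs_of_nonneg h] at hφ
    have h4 : (2 * Real.pi + φ) ^ 2 ≤ (62832 / 10000 + φ) ^ 2 :=
      pow_le_pow_left₀ (by linarith) (by linarith) 2
    have h5 : 1 + (62832 / 10000 + φ) ^ 2 ≤ 42 * (1 + φ ^ 2) := by
      nlinarith [sq_nonneg (φ - 153 / 1000)]
    calc (1 + (2 * Real.pi + φ) ^ 2) * (5161 / 10000 + J ^ 2) ≤
          (42 * (1 + φ ^ 2)) * (42 * (1 + φ ^ 2)) := by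
          refine mul_le_mul (by linarith) (by linarith) (by positivity) (by positivity)
      _ = _ := by ring
  · have h3 : J ^ 2 ≤ (62832 / 10000 + 17183 / 10000 * |φ|) ^ 2 := pow_le_pow_left₀ j0 j1 2
    rw [abs_of_nonpos h] at hφ h3
    obtain ⟨t, rfl⟩ : ∃ t, φ = -t := ⟨-φ, by ring⟩
    rw [neg_neg] at hφ h3
    have ht : 0 ≤ t := by linarith
    have h4 : (2 * Real.pi + -t) ^ 2 ≤ (62832 / 10000 - t) ^ 2 :=
      pow_le_pow_left₀ (by linarith) (by linarith) 2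
    have h5 : (1 + (62832 / 10000 - t) ^ 2) *
        (5161 / 10000 + (62832 / 10000 + 17183 / 10000 * t) ^ 2) ≤ (42 * (1 + t ^ 2)) ^ 2 := by
      nlinarith [sq_nonneg (t - 53 / 1000), pow_nonneg ht 3, pow_nonneg ht 4, pow_nonneg ht 2,
        mul_nonneg (pow_nonneg ht 3) (sub_nonneg.2 hφ)]
    calc (1 + (2 * Real.pi + -t) ^ 2) * (5161 / 10000 + J ^ 2) ≤
          (1 + (62832 / 10000 - t) ^ 2) *
            (5161 / 10000 + (62832 / 10000 + 17183 / 10000 * t) ^ 2) := by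
          refine mul_le_mul (by linarith) (by linarith) (by positivity) (by positivity)
      _ ≤ _ := h5
      _ = _ := by ring

end SokalV3
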