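import Pool.Agent.Lib_MP_af4de1_v3.TailH
import Pool.Agent.Lib_MP_af4de1_v3.TailInt
import Pool.Agent.Lib_MP_af4de1_fa.PathGen

/-!
# Tails of regime I: the integral estimate

`JI`: the only integral estimate needed; `PTail1s` follows from it (`TailRed.lean`).
-/

set_option autoImplicit false

namespace SokalV3T

open Real MeasureTheory Set

/-- the weighted integrand on the half line of sign `ε` -/
noncomputable def jf (x y d ε s : ℝ) : ℝ :=
  ‖SokalPG.pv (1 + x)⁻¹ (min (137 / 25) (1 + x)) s‖ *
    exp (69 / 100 * |s - 2 * π| - d * hq x y ε s)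

/-- the weighted integral over the half line of sign `ε` -/
noncomputable def JJ (x y d ε : ℝ) : ℝ := ∫ s in Ioi (3 / 2 : ℝ), jf x y d ε s

/-- the estimate to be proved -/
structure JI (x y d : ℝ) : Prop where
  ip : IntegrableOn (jf x y d 1) (Ioi (3 / 2))
  im : IntegrableOn (jf x y d (-1)) (Ioi (3 / 2))
  le : d * √d * (JJ x y d 1 + JJ x y d (-1)) ≤
    12 / 10000 * √(√((1 + y) ^ 2 + x ^ 2)) * exp y

end SokalV3T
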