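import Pool.Agent.Lib_MP_af4de1_v3.TailSp

/-!
# Tails of regime I: consequences of the facts `RF`
-/

set_option autoImplicit false

namespace SokalV3T

open Real

variable {x y K ρ d : ℝ}

theorem rf_ρ0 (h : RF x y K ρ d) : 0 < ρ := by
  rw [h.hρ]; exact mul_pos h.K0 (Real.exp_pos _)

theorem rf_xK (h : RF x y K ρ d) : x ≤ K := by
  refine (sq_le_sq₀ h.x0 h.K0.le).mp ?_
  rw [h.hK]
  nlinarith [sq_nonneg y]

theorem rf_ρd (h : RF x y K ρ d) : 1231 / 1000 * ρ ≤ d := by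
  have h0 := rf_ρ0 h
  have h2 := h.r2
  have : ρ * (1231 / 1000 * ρ) ≤ ρ * d := by nlinarith
  exact le_of_mul_le_mul_left this h0

theorem rf_d (h : RF x y K ρ d) : 793 / 100 ≤ d := by
  have h0 := rf_ρ0 h
  have h1 := h.r1
  have h2 := h.r2
  by_contra hc
  push Not at hc
  have h3 : ρ * d ≤ ρ * (793 / 100) := by gcongr
  rcases le_total ρ (629 / 100) with h4 | h4
  · nlinarith
  · nlinarith

theorem rf_Y (h : RF x y K ρ d) (hx : 3 ≤ x) (hy : 0 ≤ y) : y * (1 + x) ≤ 8 / 5 := by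
  by_contra hc
  push Not at hc
  have hep := h.ep hy
  have hxK := rf_xK h
  have hp := Real.pi_lt_d4
  have hK0 := h.K0
  have hx0 : 0 < x := by linarith
  have hxx : 0 < 1 + x := by linarith
  obtain ⟨v, hv⟩ : ∃ v, v = 1 / (1 + x) := ⟨_, rfl⟩
  have hv1 : v * (1 + x) = 1 := by rw [hv]; field_simp
  have hv0 : 0 < v := by rw [hv]; positivity
  have hv4 : v ≤ 1 / 4 := by nlinarith
  have hxv : x * v = 1 - v := by linarith
  have hy1 : 8 / 5 * v ≤ y := by
    have : 8 / 5 * v * (1 + x) ≤ y * (1 + x) := by rw [mul_assoc, hv1]; linarith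
    exact le_of_mul_le_mul_right this hxx
  -- e^y - 1
  have hE := SokalF1G.e_ge3 hy
  have hey : y ≤ exp y - 1 := by nlinarith [pow_nonneg hy 3, pow_nonneg hy 2]
  have s1 : x * (exp y - 1) + y / x ≤ K * (exp y - 1) + y / K := by
    have t1 : y / x - y / K = (K - x) * (y / (K * x)) := by field_simp
    have t2 : y / (K * x) ≤ exp y - 1 := by
      have : y / (K * x) ≤ y := div_le_self hy (by nlinarith)
      linarith
    nlinarith [mul_le_mul_of_nonneg_left t2 (sub_nonneg.mpr hxK)]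
  have s2 : 8 / 5 * v ^ 2 * (1 + v) ≤ y / x := by
    rw [le_div_iff₀ hx0]
    have : 8 / 5 * v ^ 2 * (1 + v) * x = 8 / 5 * v * (1 - v ^ 2) := by
      have : 8 / 5 * v ^ 2 * (1 + v) * x = 8 / 5 * v * (1 + v) * (x * v) := by ring
      rw [this, hxv]; ring
    nlinarith [pow_nonneg hv0.le 3]
  have s3 : (1 - v) * (8 / 5 + 32 / 25 * v + 256 / 375 * v ^ 2) ≤ x * (exp y - 1) := by
    have a1 : 8 / 5 * v + (8 / 5 * v) ^ 2 / 2 + (8 / 5 * v) ^ 3 / 6 ≤ exp y - 1 := by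
      have : 8 / 5 * v + (8 / 5 * v) ^ 2 / 2 + (8 / 5 * v) ^ 3 / 6 ≤
        y + y ^ 2 / 2 + y ^ 3 / 6 := by gcongr
      linarith
    have a2 : (1 - v) * (8 / 5 + 32 / 25 * v + 256 / 375 * v ^ 2) =
        x * (8 / 5 * v + (8 / 5 * v) ^ 2 / 2 + (8 / 5 * v) ^ 3 / 6) := by
      rw [← hxv]; ring
    rw [a2]
    gcongr
  nlinarith [sq_nonneg (v - 16 / 100), pow_nonneg hv0.le 3]

theorem rf_N (h : RF x y K ρ d) (hx : 3 ≤ x) (hy : y ≤ 0) : -y * (x - 9 / 10) ≤ 1571 / 1000 := by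
  have _ := hx
  by_contra hc
  push Not at hc
  have hen := h.en hy
  have hρ := h.hρ
  have hlo := h.lo
  have hxK := rf_xK h
  have hp := Real.pi_lt_d4
  obtain ⟨n, hn⟩ : ∃ n, n = -y := ⟨_, rfl⟩
  have hyn : y = -n := by linarith
  have hn0 : 0 ≤ n := by linarith
  have hn1 : n ≤ 53 / 100 := by linarith
  rw [← hn] at hc
  have hE := SokalF1G.en_le4 hn0
  rw [hρ, hyn] at hen
  have hq : n * (1 - n / 2 + n ^ 2 / 6 - n ^ 3 / 24) ≤ 1 - exp (-n) := by nlinarith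
  have hq0 : 0 ≤ 1 - n / 2 + n ^ 2 / 6 - n ^ 3 / 24 := by nlinarith [pow_nonneg hn0 2]
  have a1 : x * (n * (1 - n / 2 + n ^ 2 / 6 - n ^ 3 / 24)) ≤ K * (1 - exp (-n)) := by
    have : 0 ≤ n * (1 - n / 2 + n ^ 2 / 6 - n ^ 3 / 24) := by positivity
    have := h.K0
    gcongr
  have a2 : (1571 / 1000 + 9 / 10 * n) * (1 - n / 2 + n ^ 2 / 6 - n ^ 3 / 24) ≤
      (x * n) * (1 - n / 2 + n ^ 2 / 6 - n ^ 3 / 24) := by
    gcongr
    linarith
  have a3 : (15709 / 10000 : ℝ) ≤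
      (1571 / 1000 + 9 / 10 * n) * (1 - n / 2 + n ^ 2 / 6 - n ^ 3 / 24) := by
    nlinarith [mul_nonneg hn0 (by linarith : 0 ≤ 53 / 100 - n),
      mul_nonneg (pow_nonneg hn0 3) (by linarith : 0 ≤ 53 / 100 - n), pow_nonneg hn0 3]
  nlinarith

theorem rf_d11 (h : RF x y K ρ d) (hx : x ≤ 112 / 25) (hy : y ≤ 0) : 11 ≤ d := by
  have hlo := h.lo
  have h1 := h.r1
  have hK : K ≤ 452 / 100 := by
    refine (sq_le_sq₀ h.K0.le (by norm_num)).mp ?_
    rw [h.hK]
    have hx0 := h.x0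
    have a1 : x ^ 2 ≤ (112 / 25) ^ 2 := by gcongr
    nlinarith
  have hρ : ρ ≤ K := by
    rw [h.hρ]
    have : exp y ≤ 1 := Real.exp_le_one_iff.mpr hy
    have := h.K0
    nlinarith
  have h0 := rf_ρ0 h
  have := h.d0
  nlinarith

theorem rf_dL (h : RF x y K ρ d) (hy : 0 ≤ y) : 1231 / 1000 * (x * (1 + y)) ≤ d := by
  have h1 := rf_ρd h
  have h2 : x * (1 + y) ≤ ρ := by
    rw [h.hρ]
    have := rf_xK h
    have := h.x0
    have := h.K0
    have h3 : 1 + y ≤ exp y := by linarith [Real.add_one_le_exp y]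
    gcongr
  linarith

theorem rf_dR (h : RF x y K ρ d) (hy : y ≤ 0) : 1231 / 1000 * (x - 1571 / 1000) ≤ d := by
  have h1 := rf_ρd h
  have h2 := h.en hy
  have h3 := rf_xK h
  have := Real.pi_lt_d4
  linarith

theorem exp_q_le {s : ℝ} (h1 : 3 / 2 ≤ s) (h2 : s ≤ 3) : exp (s / 4) ≤ s := by
  obtain ⟨w, hw⟩ : ∃ w, w = (s - 3 / 2) / 4 := ⟨_, rfl⟩
  have hw0 : 0 ≤ w := by linarith
  have hw1 : w ≤ 3 / 8 := by linarith
  have e1 : s / 4 = 3 / 8 + w := by linarith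
  have e2 : exp (3 / 8 : ℝ) ≤ 146 / 100 := by
    have := SokalF1G.e_le3 (x := 3 / 8) (by norm_num) (by norm_num)
    norm_num at this ⊢
    linarith
  have e3 : exp w * (1 - w) ≤ 1 := by
    have a1 : 1 - w ≤ exp (-w) := by linarith [Real.add_one_le_exp (-w)]
    have a2 : exp w * exp (-w) = 1 := by rw [← Real.exp_add]; simp
    have := Real.exp_pos w
    nlinarith
  rw [e1, Real.exp_add]
  have hE := Real.exp_pos w
  have e4 : exp (3 / 8) * exp w ≤ 146 / 100 * exp w := by gcongr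
  have e5 : 146 / 100 * exp w * (1 - w) ≤ s * (1 - w) := by nlinarith
  have e6 := le_of_mul_le_mul_right e5 (by linarith)
  linarith

theorem hq_mono_p {y' s : ℝ} (hx : 3 ≤ x) (hs : 3 / 2 ≤ s) (hyy : y ≤ y') :
    hq x y' 1 s ≤ hq x y 1 s := by
  rw [hq_p, hq_p]
  have hx0 : 0 ≤ x := by linarith
  have ha1 := ab_le1 (s := s) hx0
  have key : exp (ab x s) * sin s ≤ s := by
    have hE := Real.exp_pos (ab x s)
    have hs1 : exp (ab x s) * sin s ≤ exp (ab x s) := by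
      have := sin_le_one s
      nlinarith
    rcases le_total s 3 with h | h
    · have a1 : ab x s ≤ s / 4 := by
        unfold ab
        rw [div_le_div_iff₀ (by linarith) (by norm_num)]
        have a2 : min (min (137 / 25) (1 + x)) s ≤ s := min_le_right _ _
        nlinarith
      have a3 : exp (ab x s) ≤ exp (s / 4) := Real.exp_le_exp.mpr a1
      have a4 := exp_q_le hs h
      linarith
    · have := e_le_of ha1
      linarith
  nlinarith

theorem hq_mono_m {y' s : ℝ} (hx : 0 ≤ x) (hs : 3 / 2 ≤ s) (hyy : y ≤ y') :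
    hq x y (-1) s ≤ hq x y' (-1) s := by
  rw [hq_m, hq_m]
  have ha0 := ab_nn hx (by linarith : 0 ≤ s)
  have hE : exp (-ab x s) ≤ 1 := Real.exp_le_one_iff.mpr (by linarith)
  have hE0 := (Real.exp_pos (-ab x s)).le
  have key : exp (-ab x s) * sin s ≤ s := by
    have a1 : sin s ≤ s := Real.sin_le (by linarith)
    have a2 : exp (-ab x s) * sin s ≤ exp (-ab x s) * s := by gcongr
    nlinarith
  nlinarith

end SokalV3T
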