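import Pool.Agent.Lib_MP_af4de1_v3.TailH

/-!
# Tails of regime I, `x ≥ 3`: the exponent of the lumps

`Gq x m d ε`: exponent of the lump near `2π` on the half line of sign `ε` (`m = |y|`, `d` the inverse of `δ`).
-/

set_option autoImplicit false

namespace SokalV3T

open Real

/-- height at the centre of the lump -/
noncomputable def Aq (x m ε : ℝ) : ℝ :=
  (al x - m) * (2 * π - m / x) + x * (1 + ε * al x) - exp (ε * al x) * (x + m ^ 2 / (2 * x))

/-- exponent of the lump -/
noncomputable def Gq (x m d ε : ℝ) : ℝ :=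
  d * Aq x m ε - (d * (al x - m) + 69 / 100) ^ 2 / (4 / 5 * (exp (ε * al x) * x * d)) -
    69 / 100 * (m / x)

/-- bound for `|y|`, `y ≤ 0` -/
noncomputable def nx (x : ℝ) : ℝ := min (53 / 100) (1571 / 1000 / (x - 9 / 10))

theorem al_small {x : ℝ} (h0 : 0 ≤ x) (h : x ≤ 112 / 25) : al x = 1 := by
  unfold al
  rw [min_eq_right (by linarith)]
  exact div_self (by linarith)

theorem al_big {x : ℝ} (h : 112 / 25 ≤ x) : al x = 137 / 25 / (1 + x) := by
  unfold al
  rw [min_eq_left (by linarith)]

end SokalV3T
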