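import Pool.Agent.Lib_MP_af4de1_v3.TailG

/-!
# Lump exponents, `y ≥ 0`, bounded `x`

`al x = 1` for `x ≤ 112/25`, `al x = 137/25/(1+x)` beyond (`al_small`, `al_big`).  Method: `v = 1/(1+x)`, `x = (1-v)/v`,
`α = 137/25 v`, `m` = the given rational function of `v`; Taylor polynomials for `exp` (upper bound in `Aq`, lower bound in the
square term), `π ≥ 3.1415` where it stands with a positive sign; clear denominators, polynomial in `v` on an interval.
True minima: 8.630 (at 4.48), 8.260 (at 5.2), 8.880 (at 6.4), 8.171 (at 5.2).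
-/

set_option autoImplicit false

namespace SokalV3T

open Real

private theorem gl_core {x a m d S0 U L c : ℝ} (hx : 0 < x) (hd : 0 < d) (ham : m ≤ a)
    (hL : 0 < L) (hE1 : exp a ≤ U) (hE2 : L ≤ exp a) (hS0 : 0 ≤ S0)
    (hH : (d * (a - m) + 69 / 100) ^ 2 ≤ S0 * (4 / 5 * (L * x * d)))
    (hG : c ≤ d * ((a - m) * (6283 / 1000 - m / x) + x * (1 + a) - U * (x + m ^ 2 / (2 * x))) - S0 -
      69 / 100 * (m / x)) (hal : al x = a) : c ≤ Gq x m d 1 := by
  unfold Gq Aq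
  rw [hal, one_mul]
  have hE0 : 0 < exp a := exp_pos a
  have h1 : (d * (a - m) + 69 / 100) ^ 2 / (4 / 5 * (exp a * x * d)) ≤ S0 := by
    rw [div_le_iff₀ (by positivity)]
    refine hH.trans (mul_le_mul_of_nonneg_left ?_ hS0)
    have : L * x * d ≤ exp a * x * d :=
      mul_le_mul_of_nonneg_right (mul_le_mul_of_nonneg_right hE2 hx.le) hd.le
    linarith
  have hπ : (3.1415 : ℝ) < π := Real.pi_gt_d4
  have h2 : (a - m) * (6283 / 1000 - m / x) ≤ (a - m) * (2 * π - m / x) := by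
    apply mul_le_mul_of_nonneg_left _ (by linarith)
    have : (6283 / 1000 : ℝ) ≤ 2 * π := by norm_num at hπ ⊢; linarith
    linarith
  have h3 : exp a * (x + m ^ 2 / (2 * x)) ≤ U * (x + m ^ 2 / (2 * x)) :=
    mul_le_mul_of_nonneg_right hE1 (by positivity)
  have h4 : d * ((a - m) * (6283 / 1000 - m / x) + x * (1 + a) - U * (x + m ^ 2 / (2 * x))) ≤
      d * ((a - m) * (2 * π - m / x) + x * (1 + a) - exp a * (x + m ^ 2 / (2 * x))) := by
    apply mul_le_mul_of_nonneg_left _ hd.le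
    linarith
  linarith

private theorem gl_lo {a : ℝ} (h : 0 ≤ a) : 1 + a + a ^ 2 / 2 + a ^ 3 / 6 ≤ exp a := by
  have := Real.sum_le_exp_of_nonneg h 4
  simp only [Finset.sum_range_succ, Finset.sum_range_zero, Nat.factorial] at this
  norm_num at this
  linarith

private theorem gl_up4 {a : ℝ} (h : 0 ≤ a) (h1 : a ≤ 1) :
    exp a ≤ 1 + a + a ^ 2 / 2 + a ^ 3 / 6 + a ^ 4 * (5 / 96) := by
  have := Real.exp_bound' h h1 (n := 4) (by norm_num)
  simp only [Finset.sum_range_succ, Finset.sum_range_zero, Nat.factorial] at this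
  norm_num at this
  linarith

private theorem gl_up5 {a : ℝ} (h : 0 ≤ a) (h1 : a ≤ 1) :
    exp a ≤ 1 + a + a ^ 2 / 2 + a ^ 3 / 6 + a ^ 4 / 24 + a ^ 5 / 100 := by
  have := Real.exp_bound' h h1 (n := 5) (by norm_num)
  simp only [Finset.sum_range_succ, Finset.sum_range_zero, Nat.factorial] at this
  norm_num at this
  linarith

private theorem gl1_G {x : ℝ} (h : 3 ≤ x) (h' : x ≤ (112 / 25)) :
    0 ≤ (-16471119 / 781250) * x ^ 0 + (-26386257 / 500000) * x ^ 1 + (-3938443 / 1000000) * x ^ 2 + (917061 / 31250) * x ^ 3 + (-5696119 / 1000000) * x ^ 4 := by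
  have hu : 0 ≤ x - 3 := by linarith
  have hw : 0 ≤ (112 / 25) - x := by linarith
  have e : (-16471119 / 781250) * x ^ 0 + (-26386257 / 500000) * x ^ 1 + (-3938443 / 1000000) * x ^ 2 + (917061 / 31250) * x ^ 3 + (-5696119 / 1000000) * x ^ 4 =
      (181419537 / 7496644) * (x - 3) ^ 0 * ((112 / 25) - x) ^ 4 + (1917355941 / 14993288) * (x - 3) ^ 1 * ((112 / 25) - x) ^ 3 + (650095128731 / 2998657600) * (x - 3) ^ 2 * ((112 / 25) - x) ^ 2 + (4512676559861 / 37483220000) * (x - 3) ^ 3 * ((112 / 25) - x) ^ 1 + (46305262969 / 29283765625) * (x - 3) ^ 4 * ((112 / 25) - x) ^ 0 := by ring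
  rw [e]
  positivity

private theorem gl1_H {x : ℝ} (h : 3 ≤ x) (h' : x ≤ (112 / 25)) :
    0 ≤ (-1034289 / 62500) * x ^ 0 + (312751107 / 3906250) * x ^ 1 + (-425316197 / 7812500) * x ^ 2 + (19398366 / 1953125) * x ^ 3 := by
  have hu : 0 ≤ x - 3 := by linarith
  have hw : 0 ≤ (112 / 25) - x := by linarith
  have e : (-1034289 / 62500) * x ^ 0 + (312751107 / 3906250) * x ^ 1 + (-425316197 / 7812500) * x ^ 2 + (19398366 / 1953125) * x ^ 3 =
      (3599568 / 6331625) * (x - 3) ^ 0 * ((112 / 25) - x) ^ 3 + (365956356 / 31658125) * (x - 3) ^ 1 * ((112 / 25) - x) ^ 2 + (712730792251 / 15829062500) * (x - 3) ^ 2 * ((112 / 25) - x) ^ 1 + (17399130088267 / 395726562500) * (x - 3) ^ 3 * ((112 / 25) - x) ^ 0 := by ring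
  rw [e]
  positivity

private theorem gl2_G {x : ℝ} (h : (112 / 25) ≤ x) (h' : x ≤ (26 / 5)) :
    0 ≤ (-218195458358177 / 152587890625) * x ^ 0 + (-40705672705711 / 23437500000) * x ^ 1 + (-941400236175781 / 585937500000) * x ^ 2 + (-207310435724453 / 146484375000) * x ^ 3 + (-114483258784427 / 195312500000) * x ^ 4 + (27062024417 / 156250000) * x ^ 5 + (3090436577 / 18750000) * x ^ 6 + (34680803 / 2500000) * x ^ 7 + (-69 / 8) * x ^ 8 := by
  have hu : 0 ≤ x - (112 / 25) := by linarith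
  have hw : 0 ≤ (26 / 5) - x := by linarith
  have e : (-218195458358177 / 152587890625) * x ^ 0 + (-40705672705711 / 23437500000) * x ^ 1 + (-941400236175781 / 585937500000) * x ^ 2 + (-207310435724453 / 146484375000) * x ^ 3 + (-114483258784427 / 195312500000) * x ^ 4 + (27062024417 / 156250000) * x ^ 5 + (3090436577 / 18750000) * x ^ 6 + (34680803 / 2500000) * x ^ 7 + (-69 / 8) * x ^ 8 =
      (1636566880141175968603 / 344373768000000) * (x - (112 / 25)) ^ 0 * ((26 / 5) - x) ^ 8 + (107686483373991704154931 / 2754990144000000) * (x - (112 / 25)) ^ 1 * ((26 / 5) - x) ^ 7 + (379970326121845193426519 / 2754990144000000) * (x - (112 / 25)) ^ 2 * ((26 / 5) - x) ^ 6 + (746507368081452063155371 / 2754990144000000) * (x - (112 / 25)) ^ 3 * ((26 / 5) - x) ^ 5 + (884028207455074014517199 / 2754990144000000) * (x - (112 / 25)) ^ 4 * ((26 / 5) - x) ^ 4 + (126871459291908750759053 / 550998028800000) * (x - (112 / 25)) ^ 5 * ((26 /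 5) - x) ^ 3 + (10368961291263966973781 / 110199605760000) * (x - (112 / 25)) ^ 6 * ((26 / 5) - x) ^ 2 + (397663106490970441397 / 22039921152000) * (x - (112 / 25)) ^ 7 * ((26 / 5) - x) ^ 1 + (3110258503873670789 / 4407984230400) * (x - (112 / 25)) ^ 8 * ((26 / 5) - x) ^ 0 := by ring
  rw [e]
  positivity

private theorem gl2_H {x : ℝ} (h : (112 / 25) ≤ x) (h' : x ≤ (26 / 5)) :
    0 ≤ (-1546298329 / 1562500) * x ^ 0 + (-8497077092 / 9765625) * x ^ 1 + (164425341 / 3125000) * x ^ 2 + (6941847 / 250000) * x ^ 3 + (16653 / 5000) * x ^ 4 := by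
  have hu : 0 ≤ x - (112 / 25) := by linarith
  have hw : 0 ≤ (26 / 5) - x := by linarith
  have e : (-1546298329 / 1562500) * x ^ 0 + (-8497077092 / 9765625) * x ^ 1 + (164425341 / 3125000) * x ^ 2 + (6941847 / 250000) * x ^ 3 + (16653 / 5000) * x ^ 4 =
      (2179482173 / 87480000) * (x - (112 / 25)) ^ 0 * ((26 / 5) - x) ^ 4 + (5878904789 / 874800) * (x - (112 / 25)) ^ 1 * ((26 / 5) - x) ^ 3 + (157511000269 / 7290000) * (x - (112 / 25)) ^ 2 * ((26 / 5) - x) ^ 2 + (1017967942429 / 43740000) * (x - (112 / 25)) ^ 3 * ((26 / 5) - x) ^ 1 + (146361247849 / 17496000) * (x - (112 / 25)) ^ 4 * ((26 / 5) - x) ^ 0 := by ring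
  rw [e]
  positivity

private theorem gl3_G {x : ℝ} (h : (26 / 5) ≤ x) (h' : x ≤ (32 / 5)) :
    0 ≤ (-29680692182057 / 37500000000) * x ^ 0 + (-139891346923 / 234375000) * x ^ 1 + (-238281016553 / 750000000) * x ^ 2 + (-88809076753 / 375000000) * x ^ 3 + (45245367767 / 750000000) * x ^ 4 + (3567434117 / 18750000) * x ^ 5 + (39565199 / 1250000) * x ^ 6 + (-219 / 25) * x ^ 7 := by
  have hu : 0 ≤ x - (26 / 5) := by linarith
  have hw : 0 ≤ (32 / 5) - x := by linarith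
  have e : (-29680692182057 / 37500000000) * x ^ 0 + (-139891346923 / 234375000) * x ^ 1 + (-238281016553 / 750000000) * x ^ 2 + (-88809076753 / 375000000) * x ^ 3 + (45245367767 / 750000000) * x ^ 4 + (3567434117 / 18750000) * x ^ 5 + (39565199 / 1250000) * x ^ 6 + (-219 / 25) * x ^ 7 =
      (139657294396500541 / 1119744000000) * (x - (26 / 5)) ^ 0 * ((32 / 5) - x) ^ 7 + (1058640884194746043 / 1119744000000) * (x - (26 / 5)) ^ 1 * ((32 / 5) - x) ^ 6 + (225566736710019719 / 74649600000) * (x - (26 / 5)) ^ 2 * ((32 / 5) - x) ^ 5 + (5881240334605952207 / 1119744000000) * (x - (26 / 5)) ^ 3 * ((32 / 5) - x) ^ 4 + (5958391409061720071 / 1119744000000) * (x - (26 / 5)) ^ 4 * ((32 / 5) - x) ^ 3 + (231532034135613071 / 74649600000) * (x - (26 / 5)) ^ 5 * ((32 / 5) - x) ^ 2 + (210443824667129399 / 223948800000) * (x - (26 / 5)) ^ 6 * ((32 / 5) - x) ^ 1 + (120897337651829077 / 1119744000000) * (x - (26 / 5)) ^ 7 * ((32 / 5) - x)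 ^ 0 := by ring
  rw [e]
  positivity

private theorem gl3_H {x : ℝ} (h : (26 / 5) ≤ x) (h' : x ≤ (32 / 5)) :
    0 ≤ (-6824577321 / 6250000) * x ^ 0 + (-2331479739857 / 2343750000) * x ^ 1 + (1202475489 / 31250000) * x ^ 2 + (30338219 / 1250000) * x ^ 3 + (18239 / 6250) * x ^ 4 := by
  have hu : 0 ≤ x - (26 / 5) := by linarith
  have hw : 0 ≤ (32 / 5) - x := by linarith
  have e : (-6824577321 / 6250000) * x ^ 0 + (-2331479739857 / 2343750000) * x ^ 1 + (1202475489 / 31250000) * x ^ 2 + (30338219 / 1250000) * x ^ 3 + (18239 / 6250) * x ^ 4 =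
      (3774741823103 / 24300000000) * (x - (26 / 5)) ^ 0 * ((32 / 5) - x) ^ 4 + (5750527660919 / 2430000000) * (x - (26 / 5)) ^ 1 * ((32 / 5) - x) ^ 3 + (13741291837201 / 2025000000) * (x - (26 / 5)) ^ 2 * ((32 / 5) - x) ^ 2 + (87047391696733 / 12150000000) * (x - (26 / 5)) ^ 3 * ((32 / 5) - x) ^ 1 + (63000729365141 / 24300000000) * (x - (26 / 5)) ^ 4 * ((32 / 5) - x) ^ 0 := by ring
  rw [e]
  positivity

private theorem gl5_G {x : ℝ} (h : (26 / 5) ≤ x) (h' : x ≤ 8) :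
    0 ≤ (-138 / 125) * x ^ 0 + (-1933432634287 / 4882812500) * x ^ 1 + (-6208735847449 / 11718750000) * x ^ 2 + (-2235412875491 / 4687500000) * x ^ 3 + (-17305013135479 / 37500000000) * x ^ 4 + (-5358394899521 / 18750000000) * x ^ 5 + (-407812499767 / 7500000000) * x ^ 6 + (4282495039 / 375000000) * x ^ 7 + (78891401 / 25000000) * x ^ 8 := by
  have hu : 0 ≤ x - (26 / 5) := by linarith
  have hw : 0 ≤ 8 - x := by linarith
  have e : (-138 / 125) * x ^ 0 + (-1933432634287 / 4882812500) * x ^ 1 + (-6208735847449 / 11718750000) * x ^ 2 + (-2235412875491 / 4687500000) * x ^ 3 + (-17305013135479 / 37500000000) * x ^ 4 + (-5358394899521 / 18750000000) * x ^ 5 + (-407812499767 / 7500000000) * x ^ 6 + (4282495039 / 375000000) * x ^ 7 + (78891401 / 25000000) * x ^ 8 =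
      (680264074746305943 / 9223681600000000) * (x - (26 / 5)) ^ 0 * (8 - x) ^ 8 + (4071903488190795743 / 2305920400000000) * (x - (26 / 5)) ^ 1 * (8 - x) ^ 7 + (8940264145721903081 / 658834400000000) * (x - (26 / 5)) ^ 2 * (8 - x) ^ 6 + (13013353055045004869 / 247062900000000) * (x - (26 / 5)) ^ 3 * (8 - x) ^ 5 + (94485282764755140463 / 790601280000000) * (x - (26 / 5)) ^ 4 * (8 - x) ^ 4 + (6576982353887798647 / 39530064000000) * (x - (26 / 5)) ^ 5 * (8 - x) ^ 3 + (1852870455682139897 / 13176688000000) * (x - (26 / 5)) ^ 6 * (8 - x) ^ 2 + (3065830074695389109 / 46118408000000) * (x - (26 / 5)) ^ 7 * (8 - x) ^ 1 + (46785832102274537 / 3458880600000) * (x - (26 / 5)) ^ 8 * (8 - x) ^ 0 := by ring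
  rw [e]
  positivity

private theorem gl5_H {x : ℝ} (h : (26 / 5) ≤ x) (h' : x ≤ 8) :
    0 ≤ (-4761 / 10000) * x ^ 0 + (-13846437 / 781250) * x ^ 1 + (-2420374879821 / 19531250000) * x ^ 2 + (-89266873847 / 976562500) * x ^ 3 + (-5923561177 / 625000000) * x ^ 4 + (1757868 / 390625) * x ^ 5 + (25851 / 62500) * x ^ 6 := by
  have hu : 0 ≤ x - (26 / 5) := by linarith
  have hw : 0 ≤ 8 - x := by linarith
  have e : (-4761 / 10000) * x ^ 0 + (-13846437 / 781250) * x ^ 1 + (-2420374879821 / 19531250000) * x ^ 2 + (-89266873847 / 976562500) * x ^ 3 + (-5923561177 / 625000000) * x ^ 4 + (1757868 / 390625) * x ^ 5 + (25851 / 62500) * x ^ 6 =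
      (1006365405057651 / 235298000000000) * (x - (26 / 5)) ^ 0 * (8 - x) ^ 6 + (11109399359219741 / 117649000000000) * (x - (26 / 5)) ^ 1 * (8 - x) ^ 5 + (25153426198243909 / 47059600000000) * (x - (26 / 5)) ^ 2 * (8 - x) ^ 4 + (80856386659560067 / 58824500000000) * (x - (26 / 5)) ^ 3 * (8 - x) ^ 3 + (431028460557910049 / 235298000000000) * (x - (26 / 5)) ^ 4 * (8 - x) ^ 2 + (29125562992529077 / 23529800000000) * (x - (26 / 5)) ^ 5 * (8 - x) ^ 1 + (3167813653814051 / 9411920000000) * (x - (26 / 5)) ^ 6 * (8 - x) ^ 0 := by ring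
  rw [e]
  positivity

theorem gl1 {x : ℝ} (h : 3 ≤ x) (h' : x ≤ 112 / 25) :
    851 / 100 ≤ Gq x (8 / 5 / (1 + x)) (793 / 100) 1 := by
  have hx : 0 < x := by linarith
  have hs : 0 < 1 + x := by linarith
  have ham : 8 / 5 / (1 + x) ≤ (1 : ℝ) := by
    rw [div_le_one hs]; linarith
  refine gl_core (a := 1) (S0 := (72 / 125)) (U := 27183 / 10000)
    (L := 2718 / 1000) hx (by positivity) ham (by positivity) ?_ ?_ (by norm_num) ?_ ?_ ?_
  · have := Real.exp_one_lt_d9; norm_num at this ⊢; linarith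
  · have := Real.exp_one_gt_d9; norm_num at this ⊢; linarith
  · have e : (72 / 125) * (4 / 5 * ((2718 / 1000) * x * (793 / 100))) -
        ((793 / 100) * (1 - 8 / 5 / (1 + x)) + 69 / 100) ^ 2 =
        ((-1034289 / 62500) * x ^ 0 + (312751107 / 3906250) * x ^ 1 + (-425316197 / 7812500) * x ^ 2 + (19398366 / 1953125) * x ^ 3) /
        ((1 + x) ^ 2) := by
      field_simp
      ring
    have h3 := div_nonneg (gl1_H h h') (by positivity : 0 ≤ (1 + x) ^ 2)
    rw [← e] at h3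
    linarith
  · have e : (793 / 100) * ((1 - 8 / 5 / (1 + x)) * (6283 / 1000 - 8 / 5 / (1 + x) / x) + x * (1 + 1) - (27183 / 10000) * (x + (8 / 5 / (1 + x)) ^ 2 / (2 * x))) - (72 / 125) -
        69 / 100 * (8 / 5 / (1 + x) / x) - 851 / 100 =
        ((-16471119 / 781250) * x ^ 0 + (-26386257 / 500000) * x ^ 1 + (-3938443 / 1000000) * x ^ 2 + (917061 / 31250) * x ^ 3 + (-5696119 / 1000000) * x ^ 4) /
        (x ^ 1 * (1 + x) ^ 2) := by
      field_simp
      ring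
    have h3 := div_nonneg (gl1_G h h') (by positivity : 0 ≤ x ^ 1 * (1 + x) ^ 2)
    rw [← e] at h3
    linarith
  · exact al_small (by linarith) h'

theorem gl2 {x : ℝ} (h : 112 / 25 ≤ x) (h' : x ≤ 26 / 5) :
    81 / 10 ≤ Gq x (8 / 5 / (1 + x)) (793 / 100) 1 := by
  have hx : 0 < x := by linarith
  have hs : 0 < 1 + x := by linarith
  have ha0 : (0 : ℝ) ≤ 137 / 25 / (1 + x) := by positivity
  have ha1 : 137 / 25 / (1 + x) ≤ (1 : ℝ) := by rw [div_le_one hs]; linarith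
  have ham : 8 / 5 / (1 + x) ≤ (137 / 25 / (1 + x) : ℝ) := by
    apply div_le_div_of_nonneg_right _ hs.le; norm_num
  refine gl_core (a := 137 / 25 / (1 + x)) (S0 := (21 / 40)) (U := 1 + (137 / 25 / (1 + x)) + (137 / 25 / (1 + x)) ^ 2 / 2 + (137 / 25 / (1 + x)) ^ 3 / 6 + (137 / 25 / (1 + x)) ^ 4 / 24 + (137 / 25 / (1 + x)) ^ 5 / 100)
    (L := 1 + (137 / 25 / (1 + x)) + (137 / 25 / (1 + x)) ^ 2 / 2 + (137 / 25 / (1 + x)) ^ 3 / 6) hx (by positivity) ham (by positivity) ?_ ?_ (by norm_num) ?_ ?_ ?_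
  · exact gl_up5 ha0 ha1
  · exact gl_lo ha0
  · have e : (21 / 40) * (4 / 5 * ((1 + (137 / 25 / (1 + x)) + (137 / 25 / (1 + x)) ^ 2 / 2 + (137 / 25 / (1 + x)) ^ 3 / 6) * x * (793 / 100))) -
        ((793 / 100) * (137 / 25 / (1 + x) - 8 / 5 / (1 + x)) + 69 / 100) ^ 2 =
        ((-1546298329 / 1562500) * x ^ 0 + (-8497077092 / 9765625) * x ^ 1 + (164425341 / 3125000) * x ^ 2 + (6941847 / 250000) * x ^ 3 + (16653 / 5000) * x ^ 4) /
        ((1 + x) ^ 3) := by
      field_simp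
      ring
    have h3 := div_nonneg (gl2_H h h') (by positivity : 0 ≤ (1 + x) ^ 3)
    rw [← e] at h3
    linarith
  · have e : (793 / 100) * ((137 / 25 / (1 + x) - 8 / 5 / (1 + x)) * (6283 / 1000 - 8 / 5 / (1 + x) / x) + x * (1 + 137 / 25 / (1 + x)) - (1 + (137 / 25 / (1 + x)) + (137 / 25 / (1 + x)) ^ 2 / 2 + (137 / 25 / (1 + x)) ^ 3 / 6 + (137 / 25 / (1 + x)) ^ 4 / 24 + (137 / 25 / (1 + x)) ^ 5 / 100) * (x + (8 / 5 / (1 + x)) ^ 2 / (2 * x))) - (21 / 40) -
        69 / 100 * (8 / 5 / (1 + x) / x) - 81 / 10 =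
        ((-218195458358177 / 152587890625) * x ^ 0 + (-40705672705711 / 23437500000) * x ^ 1 + (-941400236175781 / 585937500000) * x ^ 2 + (-207310435724453 / 146484375000) * x ^ 3 + (-114483258784427 / 195312500000) * x ^ 4 + (27062024417 / 156250000) * x ^ 5 + (3090436577 / 18750000) * x ^ 6 + (34680803 / 2500000) * x ^ 7 + (-69 / 8) * x ^ 8) /
        (x ^ 1 * (1 + x) ^ 7) := by
      field_simp
      ring
    have h3 := div_nonneg (gl2_G h h') (by positivity : 0 ≤ x ^ 1 * (1 + x) ^ 7)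
    rw [← e] at h3
    linarith
  · exact al_big h

theorem gl3 {x : ℝ} (h : 26 / 5 ≤ x) (h' : x ≤ 32 / 5) :
    83 / 10 ≤ Gq x (7 / 5 / (1 + x)) (793 / 100) 1 := by
  have hx : 0 < x := by linarith
  have hs : 0 < 1 + x := by linarith
  have ha0 : (0 : ℝ) ≤ 137 / 25 / (1 + x) := by positivity
  have ha1 : 137 / 25 / (1 + x) ≤ (1 : ℝ) := by rw [div_le_one hs]; linarith
  have ham : 7 / 5 / (1 + x) ≤ (137 / 25 / (1 + x) : ℝ) := by
    apply div_le_div_of_nonneg_right _ hs.le; norm_num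
  refine gl_core (a := 137 / 25 / (1 + x)) (S0 := (23 / 50)) (U := 1 + (137 / 25 / (1 + x)) + (137 / 25 / (1 + x)) ^ 2 / 2 + (137 / 25 / (1 + x)) ^ 3 / 6 + (137 / 25 / (1 + x)) ^ 4 * (5 / 96))
    (L := 1 + (137 / 25 / (1 + x)) + (137 / 25 / (1 + x)) ^ 2 / 2 + (137 / 25 / (1 + x)) ^ 3 / 6) hx (by positivity) ham (by positivity) ?_ ?_ (by norm_num) ?_ ?_ ?_
  · exact gl_up4 ha0 ha1
  · exact gl_lo ha0
  · have e : (23 / 50) * (4 / 5 * ((1 + (137 / 25 / (1 + x)) + (137 / 25 / (1 + x)) ^ 2 / 2 + (137 / 25 / (1 + x)) ^ 3 / 6) * x * (793 / 100))) -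
        ((793 / 100) * (137 / 25 / (1 + x) - 7 / 5 / (1 + x)) + 69 / 100) ^ 2 =
        ((-6824577321 / 6250000) * x ^ 0 + (-2331479739857 / 2343750000) * x ^ 1 + (1202475489 / 31250000) * x ^ 2 + (30338219 / 1250000) * x ^ 3 + (18239 / 6250) * x ^ 4) /
        ((1 + x) ^ 3) := by
      field_simp
      ring
    have h3 := div_nonneg (gl3_H h h') (by positivity : 0 ≤ (1 + x) ^ 3)
    rw [← e] at h3
    linarith
  · have e : (793 / 100) * ((137 / 25 / (1 + x) - 7 / 5 / (1 + x)) * (6283 / 1000 - 7 / 5 / (1 + x) / x) + x * (1 + 137 / 25 / (1 + x)) - (1 + (137 / 25 / (1 + x)) + (137 / 25 / (1 + x)) ^ 2 / 2 + (137 / 25 / (1 + x)) ^ 3 / 6 + (137 / 25 / (1 + x)) ^ 4 * (5 / 96)) * (x + (7 / 5 / (1 + x)) ^ 2 / (2 * x))) - (23 / 50) -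
        69 / 100 * (7 / 5 / (1 + x) / x) - 83 / 10 =
        ((-29680692182057 / 37500000000) * x ^ 0 + (-139891346923 / 234375000) * x ^ 1 + (-238281016553 / 750000000) * x ^ 2 + (-88809076753 / 375000000) * x ^ 3 + (45245367767 / 750000000) * x ^ 4 + (3567434117 / 18750000) * x ^ 5 + (39565199 / 1250000) * x ^ 6 + (-219 / 25) * x ^ 7) /
        (x ^ 1 * (1 + x) ^ 6) := by
      field_simp
      ring
    have h3 := div_nonneg (gl3_G h h') (by positivity : 0 ≤ x ^ 1 * (1 + x) ^ 6)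
    rw [← e] at h3
    linarith
  · exact al_big (by linarith)

theorem gl5 {x : ℝ} (h : 26 / 5 ≤ x) (h' : x ≤ 8) :
    159 / 20 ≤ Gq x (8 / 5 / (1 + x)) (1231 / 1000 * (x * (1 + 7 / 5 / (1 + x)))) 1 := by
  have hx : 0 < x := by linarith
  have hs : 0 < 1 + x := by linarith
  have ha0 : (0 : ℝ) ≤ 137 / 25 / (1 + x) := by positivity
  have ha1 : 137 / 25 / (1 + x) ≤ (1 : ℝ) := by rw [div_le_one hs]; linarith
  have ham : 8 / 5 / (1 + x) ≤ (137 / 25 / (1 + x) : ℝ) := by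
    apply div_le_div_of_nonneg_right _ hs.le; norm_num
  refine gl_core (a := 137 / 25 / (1 + x)) (S0 := (21 / 50)) (U := 1 + (137 / 25 / (1 + x)) + (137 / 25 / (1 + x)) ^ 2 / 2 + (137 / 25 / (1 + x)) ^ 3 / 6 + (137 / 25 / (1 + x)) ^ 4 * (5 / 96))
    (L := 1 + (137 / 25 / (1 + x)) + (137 / 25 / (1 + x)) ^ 2 / 2 + (137 / 25 / (1 + x)) ^ 3 / 6) hx (by positivity) ham (by positivity) ?_ ?_ (by norm_num) ?_ ?_ ?_
  · exact gl_up4 ha0 ha1
  · exact gl_lo ha0
  · have e : (21 / 50) * (4 / 5 * ((1 + (137 / 25 / (1 + x)) + (137 / 25 / (1 + x)) ^ 2 / 2 + (137 / 25 / (1 + x)) ^ 3 / 6) * x * (1231 / 1000 * (x * (1 + 7 / 5 / (1 + x)))))) -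
        ((1231 / 1000 * (x * (1 + 7 / 5 / (1 + x)))) * (137 / 25 / (1 + x) - 8 / 5 / (1 + x)) + 69 / 100) ^ 2 =
        ((-4761 / 10000) * x ^ 0 + (-13846437 / 781250) * x ^ 1 + (-2420374879821 / 19531250000) * x ^ 2 + (-89266873847 / 976562500) * x ^ 3 + (-5923561177 / 625000000) * x ^ 4 + (1757868 / 390625) * x ^ 5 + (25851 / 62500) * x ^ 6) /
        ((1 + x) ^ 4) := by
      field_simp
      ring
    have h3 := div_nonneg (gl5_H h h') (by positivity : 0 ≤ (1 + x) ^ 4)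
    rw [← e] at h3
    linarith
  · have e : (1231 / 1000 * (x * (1 + 7 / 5 / (1 + x)))) * ((137 / 25 / (1 + x) - 8 / 5 / (1 + x)) * (6283 / 1000 - 8 / 5 / (1 + x) / x) + x * (1 + 137 / 25 / (1 + x)) - (1 + (137 / 25 / (1 + x)) + (137 / 25 / (1 + x)) ^ 2 / 2 + (137 / 25 / (1 + x)) ^ 3 / 6 + (137 / 25 / (1 + x)) ^ 4 * (5 / 96)) * (x + (8 / 5 / (1 + x)) ^ 2 / (2 * x))) - (21 / 50) -
        69 / 100 * (8 / 5 / (1 + x) / x) - 159 / 20 =
        ((-138 / 125) * x ^ 0 + (-1933432634287 / 4882812500) * x ^ 1 + (-6208735847449 / 11718750000) * x ^ 2 + (-2235412875491 / 4687500000) * x ^ 3 + (-17305013135479 / 37500000000) * x ^ 4 + (-5358394899521 / 18750000000) * x ^ 5 + (-407812499767 / 7500000000) * x ^ 6 + (4282495039 / 375000000) * x ^ 7 + (78891401 / 25000000) * x ^ 8) /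
        (x ^ 1 * (1 + x) ^ 7) := by
      field_simp
      ring
    have h3 := div_nonneg (gl5_G h h') (by positivity : 0 ≤ x ^ 1 * (1 + x) ^ 7)
    rw [← e] at h3
    linarith
  · exact al_big (by linarith)


end SokalV3T
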