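import Pool.Agent.Lib_MP_af4de1_v3.TailG

/-!
# Lump exponents, `y ≤ 0`, bounded `x`

`al x = 1` for `x ≤ 112/25`, `al x = 137/25/(1+x)` beyond (`al_small`, `al_big`).  Method: `v = 1/(1+x)`, `x = (1-v)/v`,
`α = 137/25 v`, `m` = the given rational function of `v`; Taylor polynomials for `exp` (upper bound in `Aq`, lower bound in the
square term), `π ≥ 3.1415` where it stands with a positive sign; clear denominators, polynomial in `v` on an interval.
(On bounded intervals `x` itself may be used as the variable.)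
True minima: 13.16 (at 3.86, both), 10.37 (at 6.5), 9.609 (at 7.3), 8.987 (at 8); 2.115 and 1.501 (at 8).
-/

set_option autoImplicit false

namespace SokalV3T

open Real

private theorem exp_gr {t : ℝ} (h0 : 0 ≤ t) (h1 : t ≤ 1) :
    1 - t + t ^ 2 / 2 - t ^ 3 / 6 ≤ exp (-t) ∧
      exp (-t) ≤ 1 - t + t ^ 2 / 2 - t ^ 3 / 6 + t ^ 4 / 24 + t ^ 5 / 100 ∧
      exp t ≤ 1 + t + t ^ 2 / 2 + t ^ 3 / 6 + t ^ 4 / 24 + t ^ 5 / 100 := by
  have ha : |t| ≤ 1 := by rw [abs_of_nonneg h0]; exact h1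
  have hb : |-t| ≤ 1 := by rw [abs_neg]; exact ha
  have e1 := Real.exp_bound ha (n := 5) (by norm_num)
  have e2 := Real.exp_bound hb (n := 5) (by norm_num)
  rw [abs_neg, abs_of_nonneg h0] at e2
  rw [abs_of_nonneg h0] at e1
  simp only [Finset.sum_range_succ, Finset.sum_range_zero, Nat.factorial, Nat.succ_eq_add_one] at e1 e2
  norm_num at e1 e2
  rw [abs_le] at e1 e2
  have h2 : t ^ 5 ≤ t ^ 4 := pow_le_pow_of_le_one h0 h1 (by norm_num)
  have h3 : 0 ≤ t ^ 4 := by positivity
  have h4 : 0 ≤ t ^ 5 := by positivity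
  refine ⟨?_, ?_, ?_⟩
  · linarith [e2.1]
  · linarith [e2.2]
  · linarith [e1.2]

/-- the polynomial -/
private noncomputable def PG (v B : ℝ) : ℝ :=
  793 / 100 * (1 - 137 / 25 * v + (137 / 25 * v) ^ 2 / 2 - (137 / 25 * v) ^ 3 / 6) *
      (v * (137 / 25 * (1 - 19 / 10 * v) - 1571 / 1000) *
          (6283 / 1000 * ((1 - 19 / 10 * v) * (1 - v)) - 1571 / 1000 * v ^ 2) -
        (1 - v) ^ 2 * (1 - 19 / 10 * v) ^ 2 * v *
          ((137 / 25) ^ 2 / 2 - (137 / 25) ^ 3 * v / 6 + (137 / 25) ^ 4 * v ^ 2 / 24 + (137 / 25) ^ 5 * v ^ 3 / 100) -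
        (1 - 137 / 25 * v + v ^ 2 * ((137 / 25) ^ 2 / 2 - (137 / 25) ^ 3 * v / 6 + (137 / 25) ^ 4 * v ^ 2 / 24 +
          (137 / 25) ^ 5 * v ^ 3 / 100)) * ((1571 / 1000) ^ 2 * v ^ 3 / 2)) -
    v * (793 / 100 * (v * (137 / 25 * (1 - 19 / 10 * v) - 1571 / 1000)) + 69 / 100 * (1 - 19 / 10 * v)) ^ 2 /
      (4 / 5 * (793 / 100)) -
    69 / 100 * (1571 / 1000 * v ^ 2) * (1 - 19 / 10 * v) *
      (1 - 137 / 25 * v + (137 / 25 * v) ^ 2 / 2 - (137 / 25 * v) ^ 3 / 6) -
    B * ((1 - 19 / 10 * v) ^ 2 * (1 - v) * (1 - 137 / 25 * v + (137 / 25 * v) ^ 2 / 2 - (137 / 25 * v) ^ 3 / 6))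

private theorem core_gr {v x B : ℝ} (hv : 0 < v) (hv1 : v ≤ 25 / 137) (hx : x = (1 - v) / v) (hP : 0 ≤ PG v B) :
    B ≤ Gq x (1571 / 1000 / (x - 9 / 10)) (793 / 100) (-1) := by
  have hD1 : 0 < 1 - 19 / 10 * v := by linarith
  have hD2 : 0 < 1 - v := by linarith
  have hx0 : 0 < x := by rw [hx]; positivity
  have hx1 : 1 + x = 1 / v := by rw [hx]; field_simp; ring
  have hxb : 112 / 25 ≤ x := by
    rw [hx, le_div_iff₀ hv]
    linarith
  have hal : al x = 137 / 25 * v := by
    rw [al_big hxb, hx1]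
    field_simp
  have hm : 1571 / 1000 / (x - 9 / 10) = 1571 / 1000 * v / (1 - 19 / 10 * v) := by
    have h1 : x - 9 / 10 = (1 - 19 / 10 * v) / v := by rw [hx]; field_simp; ring
    rw [h1, div_div_eq_mul_div]
  have ht0 : 0 ≤ 137 / 25 * v := by positivity
  have ht1 : 137 / 25 * v ≤ 1 := by linarith
  obtain ⟨hL, hU, -⟩ := exp_gr ht0 ht1
  have hL0 : 0 < 1 - 137 / 25 * v + (137 / 25 * v) ^ 2 / 2 - (137 / 25 * v) ^ 3 / 6 := by
    obtain ⟨t, ht⟩ : ∃ t, t = 137 / 25 * v := ⟨_, rfl⟩
    rw [← ht] at ht0 ht1 ⊢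
    nlinarith [mul_nonneg ht0 ht0, mul_nonneg (mul_nonneg ht0 ht0) (sub_nonneg.2 ht1)]
  have hpi : (3.1415 : ℝ) < π := Real.pi_gt_d4
  have hN : 0 ≤ 137 / 25 * (1 - 19 / 10 * v) - 1571 / 1000 := by linarith
  unfold Gq Aq
  rw [hal, hm, show (-1 : ℝ) * (137 / 25 * v) = -(137 / 25 * v) by ring]
  unfold PG at hP
  have hWe : (137 / 25 * v) ^ 2 / 2 - (137 / 25 * v) ^ 3 / 6 + (137 / 25 * v) ^ 4 / 24 + (137 / 25 * v) ^ 5 / 100 =
      v ^ 2 * ((137 / 25) ^ 2 / 2 - (137 / 25) ^ 3 * v / 6 + (137 / 25) ^ 4 * v ^ 2 / 24 +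
          (137 / 25) ^ 5 * v ^ 3 / 100) := by ring
  have hU' : exp (-(137 / 25 * v)) ≤ 1 - 137 / 25 * v + v ^ 2 * ((137 / 25) ^ 2 / 2 - (137 / 25) ^ 3 * v / 6 +
      (137 / 25) ^ 4 * v ^ 2 / 24 + (137 / 25) ^ 5 * v ^ 3 / 100) := by
    linarith
  generalize (137 / 25) ^ 2 / 2 - (137 / 25) ^ 3 * v / 6 + (137 / 25) ^ 4 * v ^ 2 / 24 +
      (137 / 25) ^ 5 * v ^ 3 / 100 = W at hU' hP
  generalize exp (-(137 / 25 * v)) = E at hL hU' ⊢
  generalize 1 - 137 / 25 * v + (137 / 25 * v) ^ 2 / 2 - (137 / 25 * v) ^ 3 / 6 = L at hL hL0 hP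
  generalize 1 - 19 / 10 * v = D1 at hD1 hN hP ⊢
  generalize hD2e : 1 - v = D2 at hD2 hP hx
  have h1 : (137 / 25 * v - 1571 / 1000 * v / D1) = v * (137 / 25 * D1 - 1571 / 1000) / D1 := by
    field_simp
  have h2 : 0 ≤ 137 / 25 * v - 1571 / 1000 * v / D1 := by
    rw [h1]
    positivity
  have h3 : (137 / 25 * v - 1571 / 1000 * v / D1) * (6283 / 1000 - 1571 / 1000 * v / D1 / x) ≤
      (137 / 25 * v - 1571 / 1000 * v / D1) * (2 * π - 1571 / 1000 * v / D1 / x) :=
    mul_le_mul_of_nonneg_left (by linarith) h2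
  have h4 : E * (x + (1571 / 1000 * v / D1) ^ 2 / (2 * x)) ≤
      (1 - 137 / 25 * v + v ^ 2 * W) * (x + (1571 / 1000 * v / D1) ^ 2 / (2 * x)) :=
    mul_le_mul_of_nonneg_right hU' (by positivity)
  have h5 : (793 / 100 * (137 / 25 * v - 1571 / 1000 * v / D1) + 69 / 100) ^ 2 / (4 / 5 * (E * x * (793 / 100))) ≤
      (793 / 100 * (137 / 25 * v - 1571 / 1000 * v / D1) + 69 / 100) ^ 2 / (4 / 5 * (L * x * (793 / 100))) := by
    refine div_le_div_of_nonneg_left (sq_nonneg _) (by positivity) ?_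
    have h6 : L * x ≤ E * x := mul_le_mul_of_nonneg_right hL hx0.le
    linarith
  have h7 : 793 / 100 * ((137 / 25 * v - 1571 / 1000 * v / D1) * (6283 / 1000 - 1571 / 1000 * v / D1 / x) +
        x * (1 + -(137 / 25 * v)) - (1 - 137 / 25 * v + v ^ 2 * W) * (x + (1571 / 1000 * v / D1) ^ 2 / (2 * x))) -
      (793 / 100 * (137 / 25 * v - 1571 / 1000 * v / D1) + 69 / 100) ^ 2 / (4 / 5 * (L * x * (793 / 100))) -
      69 / 100 * (1571 / 1000 * v / D1 / x) - B =
      (793 / 100 * L * (v * (137 / 25 * D1 - 1571 / 1000) * (6283 / 1000 * (D1 * D2) - 1571 / 1000 * v ^ 2) -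
          D2 ^ 2 * D1 ^ 2 * v * W -
          (1 - 137 / 25 * v + v ^ 2 * W) * ((1571 / 1000) ^ 2 * v ^ 3 / 2)) -
        v * (793 / 100 * (v * (137 / 25 * D1 - 1571 / 1000)) + 69 / 100 * D1) ^ 2 / (4 / 5 * (793 / 100)) -
        69 / 100 * (1571 / 1000 * v ^ 2) * D1 * L - B * (D1 ^ 2 * D2 * L)) / (D1 ^ 2 * D2 * L) := by
    rw [hx]
    field_simp
    ring
  have h8 : 0 ≤ (793 / 100 * L * (v * (137 / 25 * D1 - 1571 / 1000) * (6283 / 1000 * (D1 * D2) - 1571 / 1000 * v ^ 2) -
          D2 ^ 2 * D1 ^ 2 * v * W -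
          (1 - 137 / 25 * v + v ^ 2 * W) * ((1571 / 1000) ^ 2 * v ^ 3 / 2)) -
        v * (793 / 100 * (v * (137 / 25 * D1 - 1571 / 1000)) + 69 / 100 * D1) ^ 2 / (4 / 5 * (793 / 100)) -
        69 / 100 * (1571 / 1000 * v ^ 2) * D1 * L - B * (D1 ^ 2 * D2 * L)) / (D1 ^ 2 * D2 * L) :=
    div_nonneg hP (by positivity)
  rw [← h7] at h8
  linarith

private theorem bern_gr (f : ℝ → ℝ → ℝ) {lo hi v : ℝ} (h1 : lo ≤ v) (h2 : v ≤ hi)
    (hf : ∀ s r : ℝ, 0 ≤ s → 0 ≤ r → 0 ≤ f s r) : 0 ≤ f (v - lo) (hi - v) :=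
  hf _ _ (sub_nonneg.2 h1) (sub_nonneg.2 h2)

private theorem pg8 {v : ℝ} (h1 : 133 / 1000 ≤ v) (h2 : v ≤ 73 / 400) : 0 ≤ PG v (97 / 10) := by
  have h := bern_gr (fun s r : ℝ =>
      4413504993142590535361145084583317431112309117575528262539 / 190437707920207359455506691336631774902343750 * r ^ 11 +
      2523862228570890960846283112596072775258290682747864820059 / 6925007560734813071109334230422973632812500 * s ^ 1 * r ^ 10 +
      1237643352910646132607686156583024307642414469926959321179 / 554000604858785045688746738433837890625000 * s ^ 2 * r ^ 9 +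
      43006346441372164956063224531468936747258244564064447223 / 5682057485731128673730735778808593750000 * s ^ 3 * r ^ 8 +
      239462047018374400613604069321928732149294735690930986219 / 14773349462900934551699913024902343750000 * s ^ 4 * r ^ 7 +
      690372834449748949198374843828342680520886976220525562973 / 29546698925801869103399826049804687500000 * s ^ 5 * r ^ 6 +
      275445201551655943292508047087441008709546502333541651613 / 11818679570320747641359930419921875000000 * s ^ 6 * r ^ 5 +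
      15265907097426296119223356111385003068514872808326260779 / 945494365625659811308794433593750000000 * s ^ 7 * r ^ 4 +
      5766639829704315732015325114602455270350441149325831499 / 756395492500527849047035546875000000000 * s ^ 8 * r ^ 3 +
      192685832070539489139066385372668686685832013039556529 / 82515871909148492623312968750000000000 * s ^ 9 * r ^ 2 +
      58142921977522464987871324659533518313868618576296903 / 139642244769328218285606562500000000000 * s ^ 10 * r ^ 1 +
      19999880228933843669337176839076759818407472184677943 / 614425876985044160456668875000000000000 * s ^ 11)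
    h1 h2 (fun s r hs hr => by positivity)
  refine h.trans (le_of_eq ?_)
  unfold PG
  ring

private theorem pg9 {v : ℝ} (h1 : 3 / 25 ≤ v) (h2 : v ≤ 667 / 5000) : 0 ≤ PG v (179 / 20) := by
  have h := bern_gr (fun s r : ℝ =>
      3206394046276659266634439057283482868537884672 / 60530747121024773466761875 * r ^ 11 +
      997662877145255214376840421884794133508982439936 / 1513268678025619336669046875 * s ^ 1 * r ^ 10 +
      83046897942650091378110745146977776042921425649664 / 22699030170384290050035703125 * s ^ 2 * r ^ 9 +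
      6810713541194194730123663108415540708968826920820736 / 567475754259607251250892578125 * s ^ 3 * r ^ 8 +
      122654395291548809878943194835694897049653796243144192 / 4728964618830060427090771484375 * s ^ 4 * r ^ 7 +
      206718201033830502697675445051732768596855408355812727168 / 5320085196183817980477117919921875 * s ^ 5 * r ^ 6 +
      609485677296176645620668165914991810197732657038669073616 / 14778014433843938834658660888671875 * s ^ 6 * r ^ 5 +
      1588539595954357100413875731779689543254117347292508992597 / 51154665347921326735356903076171875 * s ^ 7 * r ^ 4 +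
      2164002393504942340347124879769097059185636880343875466946327 / 133002129904595449511927947998046875000 * s ^ 8 * r ^ 3 +
      300792615532505964004598589546636146421258394557048423958540927 / 53200851961838179804771179199218750000000 * s ^ 9 * r ^ 2 +
      6936612193672104431005501382047856406603056205605460991991158317 / 5911205773537575533863464355468750000000000 * s ^ 10 * r ^ 1 +
      65176150961904454390963115304303638045245889549602781425184221429 / 591120577353757553386346435546875000000000000 * s ^ 11)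
    h1 h2 (fun s r hs hr => by positivity)
  refine h.trans (le_of_eq ?_)
  unfold PG
  ring

private theorem pg10 {v : ℝ} (h1 : 111 / 1000 ≤ v) (h2 : v ≤ 241 / 2000) : 0 ≤ PG v (44 / 5) := by
  have h := bern_gr (fun s r : ℝ =>
      8962516102048808748025568922738808489132285596407878061 / 21177249529335972666740417480468750 * r ^ 11 +
      334026001400405211634859712818310505861126841486288156101 / 42354499058671945333480834960937500 * s ^ 1 * r ^ 10 +
      36383671150815056207364603689584951832686139409957618981809 / 660730185315282347202301025390625000 * s ^ 2 * r ^ 9 +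
      278243880543285108387969483197226161748265931699855248068337 / 1321460370630564694404602050781250000 * s ^ 3 * r ^ 8 +
      224121130692039921554303367057917424634007040463201851353849 / 440486790210188231468200683593750000 * s ^ 4 * r ^ 7 +
      32940362054519312765895629330513818327267527008491070990405197 / 39643811118916940832138061523437500000 * s ^ 5 * r ^ 6 +
      8328538714883189951681968382481476056538096716322614553758023 / 8809735804203764629364013671875000000 * s ^ 6 * r ^ 5 +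
      1839827065710456022902888141783002061416394273749480316700687 / 2439619145779504051208496093750000000 * s ^ 7 * r ^ 4 +
      52658149530257857902333453082222476261928821013479774689102161 / 126860195580534210662841796875000000000 * s ^ 8 * r ^ 3 +
      38202240934652722556720404908886256594806101014428460989597097 / 253720391161068421325683593750000000000 * s ^ 9 * r ^ 2 +
      27455134621515238337959468279500685680397763309108097115580369 / 845734637203561404418945312500000000000 * s ^ 10 * r ^ 1 +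
      1779747129969070808535294786119809560453085135377424983669883 / 563823091469040936279296875000000000000 * s ^ 11)
    h1 h2 (fun s r hs hr => by positivity)
  refine h.trans (le_of_eq ?_)
  unfold PG
  ring

private theorem pp1 {v : ℝ} (h1 : 111 / 1000 ≤ v) (h2 : v ≤ 73 / 400) : 0 ≤ 137 / 25 * (137 / 25 * v) + (1 - v) * v * (-(137 / 25) ^ 2 / 2 + (137 / 25) ^ 3 * v / 6 - (137 / 25) ^ 4 * v ^ 2 / 24 - (137 / 25) ^ 5 * v ^ 3 / 100) - 2 := by
  have h := bern_gr (fun s r : ℝ =>
      779379037703478711146456 / 14598903550537109375 * r ^ 5 +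
      647606366488784792320164 / 583956142021484375 * s ^ 1 * r ^ 4 +
      1386947505153128213714596 / 350373685212890625 * s ^ 2 * r ^ 3 +
      134140824304389950808258 / 23358245680859375 * s ^ 3 * r ^ 2 +
      105935070091947798341281 / 28029894817031250 * s ^ 4 * r ^ 1 +
      17556379158283191370201 / 18686596544687500 * s ^ 5)
    h1 h2 (fun s r hs hr => by positivity)
  refine h.trans (le_of_eq ?_)
  ring

private theorem pp2 {v : ℝ} (h1 : 111 / 1000 ≤ v) (h2 : v ≤ 73 / 400) : 0 ≤ 137 / 25 * (137 / 25 * v) + (1 - v) * v * (-(137 / 25) ^ 2 / 2 - (137 / 25) ^ 3 * v / 6 - (137 / 25) ^ 4 * v ^ 2 / 24 - (137 / 25) ^ 5 * v ^ 3 / 100) - 29 / 20 := by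
  have h := bern_gr (fun s r : ℝ =>
      34735545272179882831496 / 1327173050048828125 * r ^ 5 +
      2821098592846899110084 / 4826083818359375 * s ^ 1 * r ^ 4 +
      64746950994778655792236 / 31852153201171875 * s ^ 2 * r ^ 3 +
      18160764708007850220434 / 6370430640234375 * s ^ 3 * r ^ 2 +
      1538199306872721161857 / 849390752031250 * s ^ 4 * r ^ 1 +
      738217491723017397291 / 1698781504062500 * s ^ 5)
    h1 h2 (fun s r hs hr => by positivity)
  refine h.trans (le_of_eq ?_)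
  ring

private theorem inv_gr {x : ℝ} (hx : 0 < x) : 0 < 1 / (1 + x) ∧ x = (1 - 1 / (1 + x)) / (1 / (1 + x)) := by
  refine ⟨by positivity, ?_⟩
  field_simp
  ring

private theorem e1_gr : (367 / 1000 : ℝ) ≤ exp (-1) ∧ exp (-1) ≤ 368 / 1000 := by
  have h1 := Real.exp_one_gt_d9
  have h2 := Real.exp_one_lt_d9
  rw [Real.exp_neg]
  constructor
  · rw [le_inv_comm₀ (by norm_num) (by positivity)]
    refine h2.le.trans ?_
    norm_num
  · rw [inv_le_comm₀ (by positivity) (by norm_num)]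
    refine le_trans ?_ h1.le
    norm_num

/-- the case `α = 1` -/
private theorem small_gr {x m : ℝ} (h : 3 ≤ x) (h' : x ≤ 112 / 25) (hm0 : 0 ≤ m) (hm : m ≤ 531 / 1000)
    (hP : 0 ≤ 11 * ((1 - m) * (6283 / 1000 * x - m) - 368 / 1000 * (x ^ 2 + m ^ 2 / 2)) -
      (11 * (1 - m) + 69 / 100) ^ 2 / (3229 / 1000) - 69 / 100 * m - 21 / 2 * x) :
    21 / 2 ≤ Gq x m 11 (-1) := by
  have hx0 : 0 < x := by linarith
  obtain ⟨hL, hU⟩ := e1_gr
  have hpi : (3.1415 : ℝ) < π := Real.pi_gt_d4
  unfold Gq Aq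
  rw [al_small hx0.le h', mul_one]
  have h1 : (1 - m) * (6283 / 1000 - m / x) ≤ (1 - m) * (2 * π - m / x) :=
    mul_le_mul_of_nonneg_left (by linarith) (by linarith)
  have h2 : exp (-1) * (x + m ^ 2 / (2 * x)) ≤ 368 / 1000 * (x + m ^ 2 / (2 * x)) :=
    mul_le_mul_of_nonneg_right hU (by positivity)
  have h3 : (11 * (1 - m) + 69 / 100) ^ 2 / (4 / 5 * (exp (-1) * x * 11)) ≤
      (11 * (1 - m) + 69 / 100) ^ 2 / (3229 / 1000 * x) := by
    refine div_le_div_of_nonneg_left (sq_nonneg _) (by positivity) ?_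
    have h6 : 367 / 1000 * x ≤ exp (-1) * x := mul_le_mul_of_nonneg_right hL hx0.le
    linarith
  have h4 : 11 * ((1 - m) * (6283 / 1000 - m / x) + x * (1 + -1) - 368 / 1000 * (x + m ^ 2 / (2 * x))) -
      (11 * (1 - m) + 69 / 100) ^ 2 / (3229 / 1000 * x) - 69 / 100 * (m / x) - 21 / 2 =
      (11 * ((1 - m) * (6283 / 1000 * x - m) - 368 / 1000 * (x ^ 2 + m ^ 2 / 2)) -
      (11 * (1 - m) + 69 / 100) ^ 2 / (3229 / 1000) - 69 / 100 * m - 21 / 2 * x) / x := by
    field_simp
    ring
  have h5 := div_nonneg hP hx0.le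
  rw [← h4] at h5
  linarith

theorem gr7a {x : ℝ} (h : 3 ≤ x) (h' : x ≤ 387 / 100) :
    21 / 2 ≤ Gq x (53 / 100) 11 (-1) := by
  refine small_gr h (by linarith) (by norm_num) (by norm_num) ?_
  nlinarith [mul_nonneg (sub_nonneg.2 h) (sub_nonneg.2 h')]

theorem gr7b {x : ℝ} (h : 386 / 100 ≤ x) (h' : x ≤ 112 / 25) :
    21 / 2 ≤ Gq x (1571 / 1000 / (x - 9 / 10)) 11 (-1) := by
  have h0 : 0 < x - 9 / 10 := by linarith
  have hm0 : 0 ≤ 1571 / 1000 / (x - 9 / 10) := by positivity
  have hm : 1571 / 1000 / (x - 9 / 10) ≤ 531 / 1000 := by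
    rw [div_le_iff₀ h0]
    linarith
  refine small_gr (by linarith) h' hm0 hm ?_
  generalize 1571 / 1000 / (x - 9 / 10) = m at hm0 hm
  nlinarith [mul_nonneg (sub_nonneg.2 h) (sub_nonneg.2 h'), mul_nonneg hm0 (sub_nonneg.2 hm),
    mul_nonneg (sub_nonneg.2 h) hm0, mul_nonneg (sub_nonneg.2 h) (sub_nonneg.2 hm),
    mul_nonneg (sub_nonneg.2 h') hm0, mul_nonneg (sub_nonneg.2 h') (sub_nonneg.2 hm)]

theorem gr8 {x : ℝ} (h : 112 / 25 ≤ x) (h' : x ≤ 13 / 2) :
    97 / 10 ≤ Gq x (1571 / 1000 / (x - 9 / 10)) (793 / 100) (-1) := by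
  have hx0 : 0 < x := by linarith
  obtain ⟨hv, hxv⟩ := inv_gr hx0
  have h0 : 0 < 1 + x := by linarith
  refine core_gr hv ?_ hxv (pg8 ?_ ?_)
  · rw [div_le_iff₀ h0]
    linarith
  · rw [le_div_iff₀ h0]
    linarith
  · rw [div_le_iff₀ h0]
    linarith

theorem gr9 {x : ℝ} (h : 13 / 2 ≤ x) (h' : x ≤ 73 / 10) :
    179 / 20 ≤ Gq x (1571 / 1000 / (x - 9 / 10)) (793 / 100) (-1) := by
  have hx0 : 0 < x := by linarith
  obtain ⟨hv, hxv⟩ := inv_gr hx0
  have h0 : 0 < 1 + x := by linarith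
  refine core_gr hv ?_ hxv (pg9 ?_ ?_)
  · rw [div_le_iff₀ h0]
    linarith
  · rw [le_div_iff₀ h0]
    linarith
  · rw [div_le_iff₀ h0]
    linarith

theorem gr10 {x : ℝ} (h : 73 / 10 ≤ x) (h' : x ≤ 8) :
    44 / 5 ≤ Gq x (1571 / 1000 / (x - 9 / 10)) (793 / 100) (-1) := by
  have hx0 : 0 < x := by linarith
  obtain ⟨hv, hxv⟩ := inv_gr hx0
  have h0 : 0 < 1 + x := by linarith
  refine core_gr hv ?_ hxv (pg10 ?_ ?_)
  · rw [div_le_iff₀ h0]
    linarith
  · rw [le_div_iff₀ h0]
    linarith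
  · rw [div_le_iff₀ h0]
    linarith

/-- plain height beyond `s = 137/25`, left side -/
theorem pb1 {x : ℝ} (h : 3 ≤ x) (h' : x ≤ 8) :
    2 ≤ 137 / 25 * al x + x * (1 - al x - exp (-al x)) := by
  have hx0 : 0 < x := by linarith
  rcases le_total x (112 / 25) with h1 | h1
  · rw [al_small hx0.le h1]
    have h2 := mul_le_mul_of_nonneg_left e1_gr.2 hx0.le
    linarith
  · obtain ⟨hv, hxv⟩ := inv_gr hx0
    have h0 : 0 < 1 + x := by linarith
    have hal : al x = 137 / 25 * (1 / (1 + x)) := by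
      rw [al_big h1]
      ring
    rw [hal]
    have hlo : 111 / 1000 ≤ 1 / (1 + x) := by
      rw [le_div_iff₀ h0]
      linarith
    have hhi : 1 / (1 + x) ≤ 73 / 400 := by
      rw [div_le_iff₀ h0]
      linarith
    have hhi' : 1 / (1 + x) ≤ 25 / 137 := by
      rw [div_le_iff₀ h0]
      linarith
    generalize 1 / (1 + x) = v at *
    obtain ⟨-, hU, -⟩ := exp_gr (t := 137 / 25 * v) (by positivity) (by linarith)
    have h2 := mul_le_mul_of_nonneg_left hU hx0.le
    have h3 := pp1 hlo hhi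
    have h4 : x * (1 - 137 / 25 * v - (1 - 137 / 25 * v + (137 / 25 * v) ^ 2 / 2 - (137 / 25 * v) ^ 3 / 6 +
        (137 / 25 * v) ^ 4 / 24 + (137 / 25 * v) ^ 5 / 100)) = (1 - v) * v * (-(137 / 25) ^ 2 / 2 +
        (137 / 25) ^ 3 * v / 6 - (137 / 25) ^ 4 * v ^ 2 / 24 - (137 / 25) ^ 5 * v ^ 3 / 100) := by
      rw [hxv]
      field_simp
      ring
    linarith

/-- plain height beyond `s = 137/25`, right side -/
theorem pb2 {x : ℝ} (h : 3 ≤ x) (h' : x ≤ 8) :
    29 / 20 ≤ 137 / 25 * al x + x * (1 + al x - exp (al x)) := by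
  have hx0 : 0 < x := by linarith
  rcases le_total x (112 / 25) with h1 | h1
  · rw [al_small hx0.le h1]
    have h2 := mul_le_mul_of_nonneg_left Real.exp_one_lt_d9.le hx0.le
    linarith
  · obtain ⟨hv, hxv⟩ := inv_gr hx0
    have h0 : 0 < 1 + x := by linarith
    have hal : al x = 137 / 25 * (1 / (1 + x)) := by
      rw [al_big h1]
      ring
    rw [hal]
    have hlo : 111 / 1000 ≤ 1 / (1 + x) := by
      rw [le_div_iff₀ h0]
      linarith
    have hhi : 1 / (1 + x) ≤ 73 / 400 := by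
      rw [div_le_iff₀ h0]
      linarith
    have hhi' : 1 / (1 + x) ≤ 25 / 137 := by
      rw [div_le_iff₀ h0]
      linarith
    generalize 1 / (1 + x) = v at *
    obtain ⟨-, -, hU⟩ := exp_gr (t := 137 / 25 * v) (by positivity) (by linarith)
    have h2 := mul_le_mul_of_nonneg_left hU hx0.le
    have h3 := pp2 hlo hhi
    have h4 : x * (1 + 137 / 25 * v - (1 + 137 / 25 * v + (137 / 25 * v) ^ 2 / 2 + (137 / 25 * v) ^ 3 / 6 +
        (137 / 25 * v) ^ 4 / 24 + (137 / 25 * v) ^ 5 / 100)) = (1 - v) * v * (-(137 / 25) ^ 2 / 2 -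
        (137 / 25) ^ 3 * v / 6 - (137 / 25) ^ 4 * v ^ 2 / 24 - (137 / 25) ^ 5 * v ^ 3 / 100) := by
      rw [hxv]
      field_simp
      ring
    linarith


end SokalV3T
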