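import Pool.Agent.Lib_MP_af4de1_v3.TailG

/-!
# Lump exponents, unbounded `x`

`al x = 1` for `x ≤ 112/25`, `al x = 137/25/(1+x)` beyond (`al_small`, `al_big`).  Method: `v = 1/(1+x)`, `x = (1-v)/v`,
`α = 137/25 v`, `m` = the given rational function of `v`; Taylor polynomials for `exp` (upper bound in `Aq`, lower bound in the
square term), `π ≥ 3.1415` where it stands with a positive sign; clear denominators, polynomial in `v` on an interval.
True infima: 8.821 (at 6.4), 9.53 (at 8), 21 (at 8), 15 (at 8), 8.968 (at 8).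
-/

set_option autoImplicit false

namespace SokalV3T

open Real

theorem gu_key {x m d ε U L : ℝ} (hx : 0 < x) (hd : 0 < d) (hm : m ≤ al x)
    (hU : exp (ε * al x) ≤ U) (hL : 0 < L) (hL' : L ≤ exp (ε * al x)) :
    d * ((al x - m) * (6283 / 1000 - m / x) + x * (1 + ε * al x) - U * (x + m ^ 2 / (2 * x))) -
      (d * (al x - m) + 69 / 100) ^ 2 / (4 / 5 * (L * x * d)) - 69 / 100 * (m / x) ≤
    Gq x m d ε := by
  unfold Gq Aq
  have hp : (6283 / 1000 : ℝ) ≤ 2 * π := by have := Real.pi_gt_d4; linarith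
  have h1 : (al x - m) * (6283 / 1000 - m / x) ≤ (al x - m) * (2 * π - m / x) :=
    mul_le_mul_of_nonneg_left (by linarith) (by linarith)
  have h2 : 0 ≤ x + m ^ 2 / (2 * x) := by positivity
  have h3 : exp (ε * al x) * (x + m ^ 2 / (2 * x)) ≤ U * (x + m ^ 2 / (2 * x)) :=
    mul_le_mul_of_nonneg_right hU h2
  have h4 : d * ((al x - m) * (6283 / 1000 - m / x) + x * (1 + ε * al x) -
      U * (x + m ^ 2 / (2 * x))) ≤ d * ((al x - m) * (2 * π - m / x) + x * (1 + ε * al x) -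
      exp (ε * al x) * (x + m ^ 2 / (2 * x))) :=
    mul_le_mul_of_nonneg_left (by linarith) hd.le
  have h5 : (d * (al x - m) + 69 / 100) ^ 2 / (4 / 5 * (exp (ε * al x) * x * d)) ≤
      (d * (al x - m) + 69 / 100) ^ 2 / (4 / 5 * (L * x * d)) := by
    apply div_le_div_of_nonneg_left (sq_nonneg _) (by positivity)
    apply mul_le_mul_of_nonneg_left _ (by norm_num)
    apply mul_le_mul_of_nonneg_right _ hd.le
    exact mul_le_mul_of_nonneg_right hL' hx.le
  linarith

/-- upper bound for `exp` of small arguments -/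
theorem gu_exp {a : ℝ} (h : |a| ≤ 1) :
    exp a ≤ 1 + a + a ^ 2 / 2 + a ^ 3 / 6 + 5 / 96 * a ^ 4 := by
  have h1 := Real.exp_bound h (n := 4) (by norm_num)
  have h2 := (abs_le.mp h1).2
  have h3 : |a| ^ 4 = a ^ 4 := by
    rw [← abs_pow]; exact abs_of_nonneg (by positivity)
  simp only [Finset.sum_range_succ, Finset.sum_range_zero, Nat.factorial, h3] at h2
  norm_num at h2
  linarith

/-- lower bound for `exp` of negative arguments -/
theorem gu_exp_low {a : ℝ} (h0 : 0 ≤ a) (h1 : a ≤ 1) :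
    1 - a + a ^ 2 / 2 - a ^ 3 / 6 ≤ exp (-a) := by
  have h := Real.exp_bound (x := -a) (by rw [abs_neg, abs_of_nonneg h0]; exact h1) (n := 5)
    (by norm_num)
  have h2 := (abs_le.mp h).1
  rw [abs_neg, abs_of_nonneg h0] at h2
  simp only [Finset.sum_range_succ, Finset.sum_range_zero, Nat.factorial] at h2
  norm_num at h2
  have h3 : a ^ 5 ≤ a ^ 4 := by
    calc a ^ 5 = a ^ 4 * a := by ring
      _ ≤ a ^ 4 * 1 := mul_le_mul_of_nonneg_left h1 (by positivity)
      _ = a ^ 4 := mul_one _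
  have h4 : 0 ≤ a ^ 4 := by positivity
  have h5 : (-a) ^ 3 = -a ^ 3 := by ring
  have h6 : (-a) ^ 4 = a ^ 4 := by ring
  nlinarith [h2, h3, h4]

theorem gu4 {x : ℝ} (h : 32 / 5 ≤ x) :
    83 / 10 ≤ Gq x (7 / 5 / (1 + x)) (1231 / 1000 * x) 1 := by
  obtain ⟨t, ht, rfl⟩ : ∃ t : ℝ, 0 ≤ t ∧ x = 32 / 5 + t := ⟨x - 32 / 5, by linarith, by ring⟩
  have hal := al_big (x := 32 / 5 + t) (by linarith)
  have hw : (0 : ℝ) < 1 + (32 / 5 + t) := by linarith
  have ha0 : 0 < al (32 / 5 + t) := by rw [hal]; positivity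
  have ha1 : al (32 / 5 + t) ≤ 1 := by rw [hal, div_le_one hw]; linarith
  have hU := gu_exp (a := al (32 / 5 + t)) (abs_le.mpr ⟨by linarith, ha1⟩)
  have hL := show 1 + al (32 / 5 + t) ≤ exp (al (32 / 5 + t)) by
    have := add_one_le_exp (al (32 / 5 + t)); linarith
  refine le_trans ?_ (gu_key (x := 32 / 5 + t) (ε := 1)
    (U := 1 + al (32 / 5 + t) + al (32 / 5 + t) ^ 2 / 2 + al (32 / 5 + t) ^ 3 / 6 +
      5 / 96 * al (32 / 5 + t) ^ 4)
    (L := 1 + al (32 / 5 + t)) (by linarith) (by positivity)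
    (by rw [hal]; exact div_le_div_of_nonneg_right (by norm_num) hw.le) (by simpa only [one_mul, neg_one_mul, neg_mul] using hU) (by linarith)
    (by simpa only [one_mul, neg_one_mul, neg_mul] using hL))
  rw [hal, ← sub_nonneg]
  field_simp
  ring_nf
  positivity

theorem gu6 {x : ℝ} (h : 8 ≤ x) :
    42 / 5 ≤ Gq x (8 / 5 / (1 + x)) (1231 / 1000 * (x * (1 + 7 / 5 / (1 + x)))) 1 := by
  obtain ⟨t, ht, rfl⟩ : ∃ t : ℝ, 0 ≤ t ∧ x = 8 + t := ⟨x - 8, by linarith, by ring⟩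
  have hal := al_big (x := 8 + t) (by linarith)
  have hw : (0 : ℝ) < 1 + (8 + t) := by linarith
  have ha0 : 0 < al (8 + t) := by rw [hal]; positivity
  have ha1 : al (8 + t) ≤ 1 := by rw [hal, div_le_one hw]; linarith
  have hU := gu_exp (a := al (8 + t)) (abs_le.mpr ⟨by linarith, ha1⟩)
  have hL := show 1 + al (8 + t) ≤ exp (al (8 + t)) by
    have := add_one_le_exp (al (8 + t)); linarith
  refine le_trans ?_ (gu_key (x := 8 + t) (ε := 1)
    (U := 1 + al (8 + t) + al (8 + t) ^ 2 / 2 + al (8 + t) ^ 3 / 6 +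
      5 / 96 * al (8 + t) ^ 4)
    (L := 1 + al (8 + t)) (by linarith) (by positivity)
    (by rw [hal]; exact div_le_div_of_nonneg_right (by norm_num) hw.le) (by simpa only [one_mul, neg_one_mul, neg_mul] using hU) (by linarith)
    (by simpa only [one_mul, neg_one_mul, neg_mul] using hL))
  rw [hal, ← sub_nonneg]
  field_simp
  ring_nf
  positivity

theorem gu12 {x : ℝ} (h : 8 ≤ x) :
    15 ≤ Gq x 0 (1231 / 1000 * x) (-1) := by
  obtain ⟨t, ht, rfl⟩ : ∃ t : ℝ, 0 ≤ t ∧ x = 8 + t := ⟨x - 8, by linarith, by ring⟩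
  have hal := al_big (x := 8 + t) (by linarith)
  have hw : (0 : ℝ) < 1 + (8 + t) := by linarith
  have ha0 : 0 < al (8 + t) := by rw [hal]; positivity
  have ha1 : al (8 + t) ≤ 1 := by rw [hal, div_le_one hw]; linarith
  have hU := gu_exp (a := -al (8 + t)) (abs_le.mpr ⟨by linarith, by linarith⟩)
  have hL := show 1 - al (8 + t) ≤ exp (-al (8 + t)) by
    have := add_one_le_exp (-al (8 + t)); linarith
  refine le_trans ?_ (gu_key (x := 8 + t) (ε := -1)
    (U := 1 + -al (8 + t) + (-al (8 + t)) ^ 2 / 2 + (-al (8 + t)) ^ 3 / 6 +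
      5 / 96 * (-al (8 + t)) ^ 4)
    (L := 1 - al (8 + t)) (by linarith) (by positivity)
    ha0.le (by simpa only [one_mul, neg_one_mul, neg_mul] using hU) (by rw [hal, sub_pos, div_lt_one hw]; linarith)
    (by simpa only [one_mul, neg_one_mul, neg_mul] using hL))
  have e2 : 1 - al (8 + t) = (88 / 25 + t) / (1 + (8 + t)) := by
    rw [hal]; field_simp; ring
  rw [e2, hal, ← sub_nonneg]
  field_simp
  ring_nf
  positivity

theorem gu13 {x : ℝ} (h : 8 ≤ x) :
    25 / 2 ≤ Gq x 0 (1231 / 1000 * (x - 1571 / 1000)) 1 := by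
  obtain ⟨t, ht, rfl⟩ : ∃ t : ℝ, 0 ≤ t ∧ x = 8 + t := ⟨x - 8, by linarith, by ring⟩
  have hal := al_big (x := 8 + t) (by linarith)
  have hw : (0 : ℝ) < 1 + (8 + t) := by linarith
  have ha0 : 0 < al (8 + t) := by rw [hal]; positivity
  have ha1 : al (8 + t) ≤ 1 := by rw [hal, div_le_one hw]; linarith
  have hU := gu_exp (a := al (8 + t)) (abs_le.mpr ⟨by linarith, ha1⟩)
  have hL := show 1 + al (8 + t) ≤ exp (al (8 + t)) by
    have := add_one_le_exp (al (8 + t)); linarith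
  refine le_trans ?_ (gu_key (x := 8 + t) (ε := 1)
    (U := 1 + al (8 + t) + al (8 + t) ^ 2 / 2 + al (8 + t) ^ 3 / 6 +
      5 / 96 * al (8 + t) ^ 4)
    (L := 1 + al (8 + t)) (by linarith) (by linarith)
    ha0.le (by simpa only [one_mul, neg_one_mul, neg_mul] using hU) (by linarith)
    (by simpa only [one_mul, neg_one_mul, neg_mul] using hL))
  have e1 : (8 : ℝ) + t - 1571 / 1000 = 6429 / 1000 + t := by ring
  rw [hal, e1, ← sub_nonneg]
  field_simp
  ring_nf
  positivity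

theorem gu11 {x : ℝ} (h : 8 ≤ x) :
    87 / 10 ≤ Gq x (1571 / 1000 / (x - 9 / 10)) (1231 / 1000 * (x - 1571 / 1000)) (-1) := by
  obtain ⟨t, ht, rfl⟩ : ∃ t : ℝ, 0 ≤ t ∧ x = 8 + t := ⟨x - 8, by linarith, by ring⟩
  have hal := al_big (x := 8 + t) (by linarith)
  have hw : (0 : ℝ) < 1 + (8 + t) := by linarith
  have ha0 : 0 < al (8 + t) := by rw [hal]; positivity
  have ha1 : al (8 + t) ≤ 1 := by rw [hal, div_le_one hw]; linarith
  have hU := gu_exp (a := -al (8 + t)) (abs_le.mpr ⟨by linarith, by linarith⟩)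
  have hL := gu_exp_low ha0.le ha1
  refine le_trans ?_ (gu_key (x := 8 + t) (ε := -1)
    (U := 1 + -al (8 + t) + (-al (8 + t)) ^ 2 / 2 + (-al (8 + t)) ^ 3 / 6 +
      5 / 96 * (-al (8 + t)) ^ 4)
    (L := 1 - al (8 + t) + al (8 + t) ^ 2 / 2 - al (8 + t) ^ 3 / 6) (by linarith) (by linarith)
    (by rw [hal, div_le_div_iff₀ (by linarith) hw]; linarith) (by simpa only [one_mul, neg_one_mul, neg_mul] using hU) (by nlinarith [ha0, ha1, mul_pos ha0 ha0, mul_nonneg (mul_pos ha0 ha0).le (sub_nonneg.mpr ha1)])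
    (by simpa only [one_mul, neg_one_mul, neg_mul] using hL))
  have e1 : (8 : ℝ) + t - 1571 / 1000 = 6429 / 1000 + t := by ring
  have e3 : (8 : ℝ) + t - 9 / 10 = 71 / 10 + t := by ring
  have e2 : 1 - al (8 + t) + al (8 + t) ^ 2 / 2 - al (8 + t) ^ 3 / 6 =
      (18413861/46875 + 199219/1250 * t + 538/25 * t ^ 2 + t ^ 3) / (1 + (8 + t)) ^ 3 := by
    rw [hal]; field_simp; ring
  rw [e2, hal, e1, e3, ← sub_nonneg]
  field_simp
  ring_nf
  positivity

end SokalV3T
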