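import Pool.Agent.Lib_MP_af4de1_f1.GLem

/-!
# Tails of regime I: the height on the path, pointwise pieces

Path `a = ± ab x s` (`s ≥ 0`), constant for `s ≥ 137/25`.  `hq x y ε s = Ha x y (ε ab x s) (ε s)`, `ε = 1, -1`.
-/

set_option autoImplicit false

namespace SokalV3T

open Real

/-- real part of the path at `s ≥ 0` -/
noncomputable def ab (x s : ℝ) : ℝ := min (min (137 / 25) (1 + x)) s / (1 + x)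

/-- its value for `s ≥ 137/25` -/
noncomputable def al (x : ℝ) : ℝ := min (137 / 25) (1 + x) / (1 + x)

/-- height of the path on the half line of sign `ε` -/
noncomputable def hq (x y ε s : ℝ) : ℝ := SokalF1G.Ha x y (ε * ab x s) (ε * s)

/-- facts of regime I in real variables: `K = |K|`, `ρ = K e^y`, `d = 1/δ` -/
structure RF (x y K ρ d : ℝ) : Prop where
  x0 : 0 ≤ x
  K0 : 0 < K
  hK : K ^ 2 = x ^ 2 + y ^ 2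
  hρ : ρ = K * exp y
  d0 : 0 < d
  r1 : 499 / 10 ≤ ρ * d
  r2 : 1231 / 1000 * (1 + ρ ^ 2) ≤ ρ * d
  lo : -(53 / 100) ≤ y
  hi : y ≤ 14 / 25
  T : |y| ≤ 4 / 5 * x
  D : 13 / 20 ≤ (1 + y) ^ 2 + x ^ 2
  ep : 0 ≤ y → K * (exp y - 1) + y / K ≤ π / 2
  ep' : 0 ≤ y → ρ ≤ x + π / 2
  en : y ≤ 0 → K - ρ ≤ π / 2

/-- case `x ≤ 3`, `y ≥ 0` (true slack .119) -/
def PTSp : Prop := ∀ x y K ρ d ε s : ℝ, RF x y K ρ d → x ≤ 3 → 0 ≤ y → (ε = 1 ∨ ε = -1) →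
  3 / 2 ≤ s → ρ / 5 + 1 / 2 ≤ hq x y ε s ∧
    (2 * π ≤ s → ρ / 5 + 1 / 2 + 2 / 5 * (s - 2 * π) ≤ hq x y ε s)

/-- case `x ≤ 3`, `y ≤ 0` (true slack .229) -/
def PTSm : Prop := ∀ x y K ρ d ε s : ℝ, RF x y K ρ d → x ≤ 3 → y ≤ 0 → (ε = 1 ∨ ε = -1) →
  3 / 2 ≤ s → ρ / 4 + 2 / 5 ≤ hq x y ε s ∧
    (2 * π ≤ s → ρ / 4 + 2 / 5 + 2 / 5 * (s - 2 * π) ≤ hq x y ε s)

/-- `x ≥ 3`, `s ≤ 137/25`, `y ≥ 0`, right side (true 2.84) -/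
def PTZa : Prop := ∀ x s : ℝ, 3 ≤ x → 3 / 2 ≤ s → s ≤ 137 / 25 →
  11 / 5 ≤ hq x (8 / 5 / (1 + x)) 1 s

/-- `x ≥ 3`, `s ≤ 137/25`, `y ≥ 0`, left side (true 2.29) -/
def PTZb : Prop := ∀ x s : ℝ, 3 ≤ x → 3 / 2 ≤ s → s ≤ 137 / 25 → 21 / 10 ≤ hq x 0 (-1) s

/-- `x ≥ 3`, `s ≤ 137/25`, `y ≤ 0`, left side (true 1.45; 1.81 for `x ≥ 112/25`) -/
def PTZd : Prop := ∀ x n s : ℝ, 3 ≤ x → 0 ≤ n → n ≤ 53 / 100 → n * (x - 9 / 10) ≤ 1571 / 1000 →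
  3 / 2 ≤ s → s ≤ 137 / 25 → 7 / 5 + 7 / 80 * (137 / 25 - s) ≤ hq x (-n) (-1) s ∧
    (112 / 25 ≤ x → 7 / 4 + 7 / 80 * (137 / 25 - s) ≤ hq x (-n) (-1) s)

end SokalV3T
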