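import Pool.Agent.Lib_MP_af4de1_v3.TailY

/-!
# Tails of regime I: `x ≥ 3`, `y ≥ 0`
-/

set_option autoImplicit false

namespace SokalV3T

open Real MeasureTheory Set SokalPG

theorem a_side {x y d m d1 G0 : ℝ} (hx : 3 ≤ x) (hy0 : 0 ≤ y) (hym : y ≤ m)
    (hm : m ≤ 8 / 5 / (1 + x)) (hd1 : 784 / 100 ≤ d1) (hdd : d1 ≤ d)
    (hμ : 11 / 5 ≤ d1 * (al x - m)) (hG0 : 3 / 2 ≤ G0) (hG : G0 ≤ Gq x m d1 1) :
    IntegrableOn (jf x y d 1) (Ioi (3 / 2)) ∧ d * √d * JJ x y d 1 ≤
      30 / 1000000 + 69 / 20 * d1 * exp (-G0) / √(exp (1 * al x) * x) := by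
  have hx0 : 0 < x := by linarith
  have ha0 := al_pos hx0.le
  have hE : 1 ≤ exp (1 * al x) := one_le_exp (by linarith)
  have hκ : 10 ≤ d1 * (exp (1 * al x) * x) := by
    have h1 : 1 * x ≤ exp (1 * al x) * x := by gcongr
    nlinarith
  have hm53 : m ≤ 53 / 100 := by
    refine hm.trans ?_
    rw [div_le_iff₀ (by linarith)]
    linarith
  have hz : ∀ s, 3 / 2 ≤ s → s ≤ 137 / 25 → 11 / 5 ≤ hq x (1 * m) 1 s := by
    intro s h1 h2
    rw [one_mul]
    exact (ptza x s hx h1 h2).trans (hq_mono_p hx h1 hm)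
  obtain ⟨i1, i2⟩ := half_lump (x := x) (y := y) (m := m) (d := d) (d1 := d1) (ε := 1)
    (z := 11 / 5) (G0 := G0) (A := 41 * exp (-(d1 * (11 / 5)))) hx (by linarith) hm53
    (Or.inl rfl) (by linarith) hdd hμ hκ hz (by linarith) hG0 hG (ioc_part hx (by linarith) hz)
    (fun s hs => by rw [one_mul]; exact hq_mono_p hx hs hym)
  refine ⟨i1, i2.trans ?_⟩
  have c1 := inner_le (d1 := d1) (d0 := 784 / 100) (z := 11 / 5)
    (A := 41) (s0 := 28 / 10) (q := 325 / 10000000000) (C := 30 / 1000000) (by norm_num) hd1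
    (by norm_num) (by norm_num) (by rw [sqrt_le_left (by norm_num)]; norm_num)
    (exp_neg_le 17 (f := 248 / 1000) (T := 128 / 100) (by norm_num) (by norm_num) (by norm_num)
      (by norm_num) (by norm_num) (by norm_num)) (by norm_num)
  linarith

/-- the right side of `JI` -/
theorem rhs_ge {x y e : ℝ} (he : e ≤ exp y) :
    12 / 10000 * √x * e ≤ 12 / 10000 * √(√((1 + y) ^ 2 + x ^ 2)) * exp y := by
  have h1 : x ≤ √((1 + y) ^ 2 + x ^ 2) := le_sqrt_of_sq_le (by nlinarith [sq_nonneg (1 + y)])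
  have h2 : √x ≤ √(√((1 + y) ^ 2 + x ^ 2)) := sqrt_le_sqrt h1
  have h3 := exp_pos y
  calc 12 / 10000 * √x * e ≤ 12 / 10000 * √x * exp y := by gcongr
    _ ≤ _ := by gcongr

theorem ji_L_of {x y K ρ d m d1 G0 q c B τ e : ℝ} (h : RF x y K ρ d) (hx : 3 ≤ x) (hy0 : 0 ≤ y)
    (hym : y ≤ m) (hm : m ≤ 8 / 5 / (1 + x)) (hd1 : 784 / 100 ≤ d1) (hdd : d1 ≤ d)
    (hμ : 11 / 5 ≤ d1 * (al x - m)) (hG0 : 3 / 2 ≤ G0) (hG : G0 ≤ Gq x m d1 1)
    (hq : exp (-G0) ≤ q) (hc : 69 / 20 * d1 * q ≤ c) (hB : B ^ 2 ≤ exp (al x) * x ^ 2)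
    (hτ : 0 ≤ τ) (hcB : c ≤ τ * B) (he : e ≤ exp y)
    (ht : τ + 36 / 1000000 + 18 / 1000000 ≤ 12 / 10000 * e) : JI x y d := by
  have hx0 : 0 < x := by linarith
  obtain ⟨i1, i2⟩ := a_side hx hy0 hym hm hd1 hdd hμ hG0 hG
  obtain ⟨j1, j2⟩ := b_side h hx hy0
  refine ⟨i1, j1, ?_⟩
  have hsx : 17 / 10 ≤ √x := le_sqrt_of_sq_le (by norm_num; linarith)
  rw [one_mul] at i2
  have h1 : 69 / 20 * d1 * exp (-G0) / √(exp (al x) * x) ≤ τ * √x := by
    refine lump_le (B := B) (exp_pos _) hx0 hB hτ ?_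
    calc 69 / 20 * d1 * exp (-G0) ≤ 69 / 20 * d1 * q := by
          have : 0 ≤ d1 := by linarith
          gcongr
      _ ≤ c := hc
      _ ≤ _ := hcB
  have h2 := rhs_ge (x := x) (y := y) he
  have h3 : √x * (τ + 36 / 1000000 + 18 / 1000000) ≤ √x * (12 / 10000 * e) := by gcongr
  have h4 : 30 / 1000000 ≤ 18 / 1000000 * √x := by linarith
  rw [mul_add]
  linarith

theorem exp_al_ge {x : ℝ} : exp 1 * al x ≤ exp (al x) := by
  have h1 : exp (al x) = exp 1 * exp (al x - 1) := by rw [← exp_add]; congr 1; ring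
  rw [h1]
  have h2 := add_one_le_exp (al x - 1)
  have h3 := exp_pos (1 : ℝ)
  exact mul_le_mul_of_nonneg_left (by linarith) h3.le

theorem ji_L {x y K ρ d : ℝ} (h : RF x y K ρ d) (hx : 3 ≤ x) (hy0 : 0 ≤ y) : JI x y d := by
  have hx0 : 0 < x := by linarith
  have hx1 : 0 < 1 + x := by linarith
  have hY := rf_Y h hx hy0
  have hd := rf_d h
  have hY' : y ≤ 8 / 5 / (1 + x) := by rwa [le_div_iff₀ hx1]
  have he1 := exp_one_gt_d9
  have hey : 1 + y ≤ exp y := by linarith [add_one_le_exp y]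
  have hdL := rf_dL h hy0
  rcases le_total x (112 / 25) with h1 | h1
  · -- bin 1
    have hal := al_small hx0.le h1
    refine ji_L_of (m := 8 / 5 / (1 + x)) (d1 := 793 / 100) (G0 := 851 / 100)
      (q := 2017 / 10000000) (c := 552 / 100000) (B := 4944 / 1000) (τ := 1117 / 1000000) (e := 1)
      h hx hy0 hY' le_rfl (by norm_num) hd ?_ (by norm_num) (gl1 hx h1)
      (exp_neg_le 8 (f := 51 / 100) (T := 16649 / 10000) (by norm_num) (by norm_num) (by norm_num)
        (by norm_num) (by norm_num) (by norm_num)) (by norm_num) ?_ (by norm_num) (by norm_num)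
      (by linarith) (by norm_num)
    · have : 8 / 5 / (1 + x) ≤ 4 / 10 := by
        rw [div_le_iff₀ hx1]
        linarith
      rw [hal]
      linarith
    · rw [hal]
      nlinarith
  rcases le_total x (26 / 5) with h2 | h2
  · -- bin 2
    have hal := al_big h1
    refine ji_L_of (m := 8 / 5 / (1 + x)) (d1 := 793 / 100) (G0 := 81 / 10)
      (q := 304 / 1000000) (c := 8318 / 1000000) (B := 738 / 100) (τ := 1130 / 1000000) (e := 1)
      h hx hy0 hY' le_rfl (by norm_num) hd ?_ (by norm_num) (gl2 h1 h2)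
      (exp_neg_le 8 (f := 10 / 100) (T := 11051 / 10000) (by norm_num) (by norm_num) (by norm_num)
        (by norm_num) (by norm_num) (by norm_num)) (by norm_num) ?_ (by norm_num) (by norm_num)
      (by linarith) (by norm_num)
    · rw [hal, ← sub_div, mul_div_assoc', le_div_iff₀ hx1]
      linarith
    · refine le_trans ?_ (mul_le_mul_of_nonneg_right exp_al_ge (sq_nonneg x))
      rw [hal]
      have e : exp 1 * (137 / 25 / (1 + x)) * x ^ 2 = exp 1 * (137 / 25) * x ^ 2 / (1 + x) := by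
        ring
      rw [e, le_div_iff₀ hx1]
      nlinarith
  -- `x ≥ 26/5`
  rcases le_total y (7 / 5 / (1 + x)) with h3 | h3
  · have h57 : 7 / 5 / (1 + x) ≤ 8 / 5 / (1 + x) := by gcongr; norm_num
    have hal := al_big h1
    rcases le_total x (32 / 5) with h4 | h4
    · -- bin 3
      refine ji_L_of (m := 7 / 5 / (1 + x)) (d1 := 793 / 100) (G0 := 83 / 10)
        (q := 249 / 1000000) (c := 6813 / 1000000) (B := 8) (τ := 860 / 1000000) (e := 1)
        h hx hy0 h3 h57 (by norm_num) hd ?_ (by norm_num) (gl3 h2 h4)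
        (exp_neg_le 8 (f := 30 / 100) (T := 13498 / 10000) (by norm_num) (by norm_num) (by norm_num)
          (by norm_num) (by norm_num) (by norm_num)) (by norm_num) ?_ (by norm_num) (by norm_num)
        (by linarith) (by norm_num)
      · rw [hal, ← sub_div, mul_div_assoc', le_div_iff₀ hx1]
        linarith
      · refine le_trans ?_ (mul_le_mul_of_nonneg_right exp_al_ge (sq_nonneg x))
        rw [hal]
        have e : exp 1 * (137 / 25 / (1 + x)) * x ^ 2 = exp 1 * (137 / 25) * x ^ 2 / (1 + x) := by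
          ring
        rw [e, le_div_iff₀ hx1]
        nlinarith
    · -- bin 4
      have hd1 : 1231 / 1000 * x ≤ d := by
        have : x * 1 ≤ x * (1 + y) := by gcongr; linarith
        linarith
      refine ji_L_of (m := 7 / 5 / (1 + x)) (d1 := 1231 / 1000 * x) (G0 := 83 / 10)
        (q := 249 / 1000000) (c := 1058 / 1000000 * x) (B := x) (τ := 1060 / 1000000) (e := 1)
        h hx hy0 h3 h57 (by linarith) hd1 ?_ (by norm_num) (gu4 h4)
        (exp_neg_le 8 (f := 30 / 100) (T := 13498 / 10000) (by norm_num) (by norm_num) (by norm_num)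
          (by norm_num) (by norm_num) (by norm_num)) (by linarith) ?_ (by norm_num) (by linarith)
        (by linarith) (by norm_num)
      · rw [hal, ← sub_div, mul_div_assoc', le_div_iff₀ hx1]
        linarith
      · have ha0 := al_pos hx0.le
        have hE : 1 ≤ exp (al x) := one_le_exp ha0.le
        nlinarith [sq_nonneg x]
  · -- `y` large
    have hal := al_big h1
    set b := 1 + 7 / 5 / (1 + x) with hb
    have hb1 : 1 ≤ b := by
      rw [hb]
      have : 0 ≤ 7 / 5 / (1 + x) := by positivity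
      linarith
    have hd1 : 1231 / 1000 * (x * b) ≤ d := by
      have : x * b ≤ x * (1 + y) := by
        have : b ≤ 1 + y := by rw [hb]; linarith
        gcongr
      linarith
    have hd0 : 784 / 100 ≤ 1231 / 1000 * (x * b) := by
      have e : x * b = x + 7 / 5 * x / (1 + x) := by rw [hb]; ring
      have h5 : 117 / 100 ≤ 7 / 5 * x / (1 + x) := by
        rw [le_div_iff₀ hx1]
        linarith
      rw [e]
      linarith
    have hμ : 11 / 5 ≤ 1231 / 1000 * (x * b) * (al x - 8 / 5 / (1 + x)) := by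
      have h6 : 1231 / 1000 * (x * 1) * (al x - 8 / 5 / (1 + x)) ≤
          1231 / 1000 * (x * b) * (al x - 8 / 5 / (1 + x)) := by
        have : 0 ≤ al x - 8 / 5 / (1 + x) := by
          rw [hal, ← sub_div]
          exact div_nonneg (by norm_num) hx1.le
        gcongr
      refine le_trans ?_ h6
      rw [hal, ← sub_div, mul_div_assoc', le_div_iff₀ hx1]
      linarith
    have heb : b ≤ exp y := by
      have : b ≤ 1 + y := by rw [hb]; linarith
      linarith
    have hxb : x ≤ x * b := by nlinarith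
    rcases le_total x 8 with h4 | h4
    · -- bin 5
      refine ji_L_of (m := 8 / 5 / (1 + x)) (d1 := 1231 / 1000 * (x * b)) (G0 := 159 / 20)
        (q := 354 / 1000000) (c := 15035 / 10000000 * (x * b)) (B := 1349 / 1000 * x)
        (τ := 1115 / 1000000 * b) (e := b)
        h hx hy0 hY' le_rfl hd0 hd1 hμ (by norm_num) (gl5 h2 h4)
        (exp_neg_le 7 (f := 95 / 100) (T := 2578 / 1000) (by norm_num) (by norm_num) (by norm_num)
          (by norm_num) (by norm_num) (by norm_num)) (by nlinarith) ?_ (by linarith) ?_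
        heb (by linarith)
      · have h6 := al_ge hx0.le h4
        have h7 : 18202 / 10000 ≤ exp (al x) := by
          have h8 : exp (3 / 5) ≤ exp (al x) := exp_le_exp.2 h6
          have h9 := Real.sum_le_exp_of_nonneg (x := 3 / 5) (by norm_num) 5
          norm_num [Finset.sum_range_succ, Nat.factorial] at h9
          linarith
        nlinarith [sq_nonneg x]
      · nlinarith
    · -- bin 6
      refine ji_L_of (m := 8 / 5 / (1 + x)) (d1 := 1231 / 1000 * (x * b)) (G0 := 42 / 5)
        (q := 225 / 1000000) (c := 956 / 1000000 * (x * b)) (B := x)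
        (τ := 960 / 1000000 * b) (e := b)
        h hx hy0 hY' le_rfl hd0 hd1 hμ (by norm_num) (gu6 h4)
        (exp_neg_le 8 (f := 40 / 100) (T := 14917 / 10000) (by norm_num) (by norm_num) (by norm_num)
          (by norm_num) (by norm_num) (by norm_num)) (by nlinarith) ?_ (by linarith) ?_
        heb (by linarith)
      · have ha0 := al_pos hx0.le
        have hE : 1 ≤ exp (al x) := one_le_exp ha0.le
        nlinarith [sq_nonneg x]
      · nlinarith

end SokalV3T
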