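import Pool.Agent.Lib_MP_af4de1_v3.TailDef
import Pool.Agent.Lib_MP_af4de1_v3.TailG

/-!
# Tails of regime I: the integrals
-/

set_option autoImplicit false

namespace SokalV3T

open Real MeasureTheory Set SokalPG

/-! ### General -/

theorem dom_int {f b : ℝ → ℝ} {S : Set ℝ} (hS : MeasurableSet S) (hf : Measurable f)
    (hf0 : ∀ s, 0 ≤ f s) (hb : IntegrableOn b S) (h : ∀ s ∈ S, f s ≤ b s) :
    IntegrableOn f S ∧ ∫ s in S, f s ≤ ∫ s in S, b s := by
  have h1 : ∀ᵐ s ∂volume.restrict S, ‖f s‖ ≤ b s := by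
    refine (ae_restrict_iff' hS).2 (ae_of_all _ fun s hs => ?_)
    rw [Real.norm_of_nonneg (hf0 s)]
    exact h s hs
  have h2 : IntegrableOn f S := Integrable.mono' hb hf.aestronglyMeasurable h1
  exact ⟨h2, setIntegral_mono_on h2 hb hS h⟩

theorem norm_pv_cases (c s1 s : ℝ) : ‖pv c s1 s‖ = if |s| < s1 then √(1 + c ^ 2) else 1 := by
  unfold pv
  split_ifs with h
  · rw [Complex.norm_def, Complex.normSq_apply]
    congr 1
    simp
    ring
  · exact norm_one

theorem c_le {x : ℝ} (hx : 0 ≤ x) : 0 ≤ (1 + x)⁻¹ ∧ (1 + x)⁻¹ ≤ 1 := by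
  have h : (0 : ℝ) < 1 + x := by linarith
  exact ⟨(inv_pos.2 h).le, inv_le_one_of_one_le₀ (by linarith)⟩

theorem pv_le {x s : ℝ} (hx : 0 ≤ x) :
    ‖pv (1 + x)⁻¹ (min (137 / 25) (1 + x)) s‖ ≤ 14143 / 10000 := by
  obtain ⟨h0, h1⟩ := c_le hx
  rw [norm_pv_cases]
  split_ifs
  · apply Real.sqrt_le_iff.2
    exact ⟨by norm_num, by nlinarith⟩
  · norm_num

theorem pv_le3 {x s : ℝ} (hx : 3 ≤ x) :
    ‖pv (1 + x)⁻¹ (min (137 / 25) (1 + x)) s‖ ≤ 1031 / 1000 := by
  have h0 := (c_le (by linarith : (0 : ℝ) ≤ x)).1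
  have h1 : (1 + x)⁻¹ ≤ 1 / 4 := by
    rw [inv_le_comm₀ (by linarith) (by norm_num)]
    linarith
  rw [norm_pv_cases]
  split_ifs
  · apply Real.sqrt_le_iff.2
    exact ⟨by norm_num, by nlinarith⟩
  · norm_num

theorem pv_one {x s : ℝ} (hs : 137 / 25 ≤ s) :
    ‖pv (1 + x)⁻¹ (min (137 / 25) (1 + x)) s‖ = 1 := by
  rw [norm_pv_cases, if_neg]
  rw [not_lt, abs_of_nonneg (by linarith)]
  exact (min_le_left _ _).trans hs

theorem continuous_hq (x y ε : ℝ) : Continuous (hq x y ε) := by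
  unfold hq SokalF1G.Ha ab
  fun_prop

theorem meas_jf (x y d ε : ℝ) : Measurable (jf x y d ε) := by
  have h1 : jf x y d ε = fun s => (if |s| < min (137 / 25) (1 + x) then √(1 + (1 + x)⁻¹ ^ 2) else 1) *
      exp (69 / 100 * |s - 2 * π| - d * hq x y ε s) := by
    funext s
    unfold jf
    rw [norm_pv_cases]
  rw [h1]
  refine Measurable.mul (Measurable.ite ?_ measurable_const measurable_const) ?_
  · exact measurableSet_lt measurable_norm measurable_const
  · have := continuous_hq x y ε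
    have h2 : Continuous fun s => exp (69 / 100 * |s - 2 * π| - d * hq x y ε s) := by fun_prop
    exact h2.measurable

theorem jf_nonneg (x y d ε s : ℝ) : 0 ≤ jf x y d ε s := mul_nonneg (norm_nonneg _) (exp_pos _).le

/-- `d^(3/2) e^(-d h)` decreases -/
theorem d_mono {d d1 h : ℝ} (h0 : 0 < d1) (hd : d1 ≤ d) (hh : 3 / 2 ≤ d1 * h) :
    d * √d * exp (-(d * h)) ≤ d1 * √d1 * exp (-(d1 * h)) := by
  set q := d / d1 with hq
  have hq1 : 1 ≤ q := by rw [hq, le_div_iff₀ h0]; linarith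
  have hq0 : 0 < q := by linarith
  have hdq : d = d1 * q := by rw [hq]; field_simp
  have h1 : q ≤ exp (q - 1) := by have := add_one_le_exp (q - 1); linarith
  have h2 : √q ≤ exp ((q - 1) / 2) := by
    rw [Real.sqrt_le_left (exp_pos _).le, ← exp_nat_mul]
    have : ((2 : ℕ) : ℝ) * ((q - 1) / 2) = q - 1 := by push_cast; ring
    rw [this]
    exact h1
  have h3 : q * √q ≤ exp ((q - 1) * (3 / 2)) := by
    calc q * √q ≤ exp (q - 1) * exp ((q - 1) / 2) := by gcongr
      _ = exp ((q - 1) * (3 / 2)) := by rw [← exp_add]; congr 1; ring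
  have h4 : exp ((q - 1) * (3 / 2)) ≤ exp ((q - 1) * (d1 * h)) :=
    exp_le_exp.2 (mul_le_mul_of_nonneg_left hh (by linarith))
  have h5 : √d = √d1 * √q := by rw [hdq, Real.sqrt_mul h0.le]
  have h6 : exp (-(d * h)) = exp (-(d1 * h)) * exp (-((q - 1) * (d1 * h))) := by
    rw [← exp_add, hdq]
    congr 1
    ring
  rw [h5, h6]
  calc d * (√d1 * √q) * (exp (-(d1 * h)) * exp (-((q - 1) * (d1 * h))))
      = d1 * √d1 * exp (-(d1 * h)) * (q * √q * exp (-((q - 1) * (d1 * h)))) := by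
        rw [hdq]; ring
    _ ≤ d1 * √d1 * exp (-(d1 * h)) * (exp ((q - 1) * (d1 * h)) * exp (-((q - 1) * (d1 * h)))) := by
        have := h3.trans h4
        gcongr
    _ = d1 * √d1 * exp (-(d1 * h)) := by rw [← exp_add]; simp

/-- reduction to `y'`, `d1` -/
theorem jf_red {x y y' d d1 ε s : ℝ} (h0 : 0 < d1) (hd : d1 ≤ d)
    (hy : hq x y' ε s ≤ hq x y ε s) (hh : 3 / 2 ≤ d1 * hq x y' ε s) :
    d * √d * jf x y d ε s ≤ d1 * √d1 * jf x y' d1 ε s := by
  have hd0 : 0 < d := by linarith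
  have h1 := d_mono h0 hd hh
  have h2 : exp (-(d * hq x y ε s)) ≤ exp (-(d * hq x y' ε s)) := by
    apply exp_le_exp.2
    have := mul_le_mul_of_nonneg_left hy hd0.le
    linarith
  unfold jf
  have e : ∀ h d : ℝ, exp (69 / 100 * |s - 2 * π| - d * h) =
      exp (69 / 100 * |s - 2 * π|) * exp (-(d * h)) := by
    intro h d
    rw [← exp_add]
    congr 1
  rw [e, e]
  set p := ‖pv (1 + x)⁻¹ (min (137 / 25) (1 + x)) s‖
  have hp : 0 ≤ p := norm_nonneg _
  set w := exp (69 / 100 * |s - 2 * π|)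
  have hw : 0 < w := exp_pos _
  calc d * √d * (p * (w * exp (-(d * hq x y ε s)))) = p * w * (d * √d * exp (-(d * hq x y ε s))) := by
        ring
    _ ≤ p * w * (d * √d * exp (-(d * hq x y' ε s))) := by gcongr
    _ ≤ p * w * (d1 * √d1 * exp (-(d1 * hq x y' ε s))) := by gcongr
    _ = _ := by ring

/-- reduction of the integrals -/
theorem jj_red {x y y' d d1 ε : ℝ} (h0 : 0 < d1) (hd : d1 ≤ d)
    (h : ∀ s, 3 / 2 ≤ s → hq x y' ε s ≤ hq x y ε s ∧ 3 / 2 ≤ d1 * hq x y' ε s)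
    (hi : IntegrableOn (jf x y' d1 ε) (Ioi (3 / 2))) :
    IntegrableOn (jf x y d ε) (Ioi (3 / 2)) ∧
      d * √d * JJ x y d ε ≤ d1 * √d1 * JJ x y' d1 ε := by
  have hd0 : 0 < d := by linarith
  have hc : 0 < d * √d := mul_pos hd0 (Real.sqrt_pos.2 hd0)
  have h1 := dom_int (f := fun s => d * √d * jf x y d ε s) (b := fun s => d1 * √d1 * jf x y' d1 ε s)
    (S := Ioi (3 / 2)) measurableSet_Ioi ((meas_jf x y d ε).const_mul _)
    (fun s => mul_nonneg hc.le (jf_nonneg x y d ε s)) (hi.const_mul _) (fun s hs => by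
      obtain ⟨h2, h3⟩ := h s (le_of_lt hs)
      exact jf_red h0 hd h2 h3)
  refine ⟨?_, ?_⟩
  · have h2 : IntegrableOn (fun s => (d * √d)⁻¹ * (d * √d * jf x y d ε s)) (Ioi (3 / 2)) :=
      h1.1.const_mul (d * √d)⁻¹
    refine h2.congr_fun (fun s _ => ?_) measurableSet_Ioi
    simp only
    rw [← mul_assoc, inv_mul_cancel₀ hc.ne', one_mul]
  · have h3 := h1.2
    rw [integral_const_mul, integral_const_mul] at h3
    exact h3

/-! ### Beyond `137/25` -/

theorem ab_big {x s : ℝ} (hs : 137 / 25 ≤ s) : ab x s = al x := by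
  unfold ab al
  rw [min_eq_left ((min_le_left _ _).trans hs)]

theorem al_pos {x : ℝ} (hx : 0 ≤ x) : 0 < al x := by
  unfold al
  have h1 : 0 < 1 + x := by linarith
  exact div_pos (lt_min (by norm_num) h1) h1

theorem hq_big {x m ε s : ℝ} (hε : ε = 1 ∨ ε = -1) (hs : 137 / 25 ≤ s) :
    hq x (ε * m) ε s = (al x - m) * s + x * (1 + ε * al x) -
      exp (ε * al x) * (x * cos s - m * sin s) := by
  unfold hq SokalF1G.Ha
  rw [ab_big hs]
  rcases hε with h | h
  · subst h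
    simp only [one_mul]
    ring
  · subst h
    simp only [neg_one_mul, sin_neg, cos_neg]
    ring

/-- the exact form near the lump: `F + μ (s - c0) + κ (1 - cos (s - c0))` -/
theorem hq_lump {x m d ε s : ℝ} (hx : 0 < x) (hε : ε = 1 ∨ ε = -1) (hs : 137 / 25 ≤ s) :
    d * hq x (ε * m) ε s =
      d * ((al x - m) * (2 * π - arctan (m / x)) + x * (1 + ε * al x) -
        exp (ε * al x) * √(x ^ 2 + m ^ 2)) +
      d * (al x - m) * (s - (2 * π - arctan (m / x))) +
      d * (exp (ε * al x) * √(x ^ 2 + m ^ 2)) * (1 - cos (s - (2 * π - arctan (m / x)))) := by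
  rw [hq_big hε hs]
  have hK : 0 < √(x ^ 2 + m ^ 2) := sqrt_pos.2 (by positivity)
  have e0 : √(1 + (m / x) ^ 2) = √(x ^ 2 + m ^ 2) / x := by
    rw [eq_div_iff hx.ne', ← Real.sqrt_sq hx.le, ← Real.sqrt_mul (by positivity), Real.sqrt_sq hx.le]
    congr 1
    field_simp
  have e1 : √(x ^ 2 + m ^ 2) * cos (arctan (m / x)) = x := by
    rw [cos_arctan, e0]
    field_simp
  have e2 : √(x ^ 2 + m ^ 2) * sin (arctan (m / x)) = m := by
    rw [sin_arctan, e0]
    field_simp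
  have e3 : cos (s - (2 * π - arctan (m / x))) = cos (s + arctan (m / x)) := by
    have : s - (2 * π - arctan (m / x)) = s + arctan (m / x) - 2 * π := by ring
    rw [this, cos_sub_two_pi]
  have e4 : √(x ^ 2 + m ^ 2) * cos (s + arctan (m / x)) = x * cos s - m * sin s := by
    rw [cos_add]
    calc √(x ^ 2 + m ^ 2) * (cos s * cos (arctan (m / x)) - sin s * sin (arctan (m / x)))
        = (√(x ^ 2 + m ^ 2) * cos (arctan (m / x))) * cos s -
          (√(x ^ 2 + m ^ 2) * sin (arctan (m / x))) * sin s := by ring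
      _ = x * cos s - m * sin s := by rw [e1, e2]
  rw [e3, ← e4]
  ring

theorem arctan_le {t : ℝ} (ht : 0 ≤ t) : arctan t ≤ t := by
  have h := Real.arctan_mem_Ioo t
  by_contra hc
  push Not at hc
  have h0 : 0 ≤ arctan t := arctan_nonneg.2 ht
  have h1 : arctan t ≤ tan (arctan t) := by
    rcases h0.eq_or_lt with h2 | h2
    · rw [← h2, tan_zero]
    · exact (lt_tan h2 h.2).le
  rw [tan_arctan] at h1
  linarith

theorem sqrt_K_le {x m : ℝ} (hx : 0 < x) : √(x ^ 2 + m ^ 2) ≤ x + m ^ 2 / (2 * x) := by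
  apply sqrt_le_iff.2
  refine ⟨by positivity, ?_⟩
  have e : (x + m ^ 2 / (2 * x)) ^ 2 = x ^ 2 + m ^ 2 + (m ^ 2 / (2 * x)) ^ 2 := by
    field_simp
    ring
  rw [e]
  nlinarith [sq_nonneg (m ^ 2 / (2 * x))]

theorem x_le_K {x m : ℝ} (hx : 0 ≤ x) : x ≤ √(x ^ 2 + m ^ 2) :=
  le_sqrt_of_sq_le (by nlinarith [sq_nonneg m])

/-- the lump: bound for the integral beyond `137/25`, and the height there -/
theorem big_part {x m d ε : ℝ} (hx : 3 ≤ x) (hm0 : 0 ≤ m) (hm1 : m ≤ 53 / 100)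
    (hε : ε = 1 ∨ ε = -1) (hd : 0 < d) (hμ : 11 / 5 ≤ d * (al x - m))
    (hκ : 10 ≤ d * (exp (ε * al x) * x)) :
    IntegrableOn (jf x (ε * m) d ε) (Ioi (137 / 25)) ∧
    ∫ s in Ioi (137 / 25 : ℝ), jf x (ε * m) d ε s ≤
      69 / 20 * exp (-Gq x m d ε) / √(exp (ε * al x) * x * d) ∧
    ∀ s, 137 / 25 ≤ s → Gq x m d ε ≤ d * hq x (ε * m) ε s := by
  have hx0 : 0 < x := by linarith
  have hE := exp_pos (ε * al x)
  have hp := pi_gt_d2
  have hp2 := pi_lt_d2
  have hal : 0 ≤ al x - m := by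
    by_contra hc
    push Not at hc
    have := mul_neg_of_pos_of_neg hd hc
    linarith
  set ψ := arctan (m / x) with hψ
  have hmx : 0 ≤ m / x := by positivity
  have hmx2 : m / x ≤ 53 / 300 := by
    rw [div_le_iff₀ hx0]
    linarith
  have hψ0 : 0 ≤ ψ := arctan_nonneg.2 hmx
  have hψ1 : ψ ≤ m / x := arctan_le hmx
  set K := √(x ^ 2 + m ^ 2) with hK
  have hK0 : x ≤ K := x_le_K hx0.le
  have hK1 : K ≤ x + m ^ 2 / (2 * x) := sqrt_K_le hx0
  have hKp : 0 < K := by linarith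
  set F := d * ((al x - m) * (2 * π - ψ) + x * (1 + ε * al x) - exp (ε * al x) * K) with hF
  set μ := d * (al x - m) with hμd
  set κ := d * (exp (ε * al x) * K) with hκd
  set c0 := 2 * π - ψ with hc0
  have hκ1 : d * (exp (ε * al x) * x) ≤ κ := by rw [hκd]; gcongr
  have hκ2 : 10 ≤ κ := hκ.trans hκ1
  have hκ0 : 0 < κ := by linarith
  have hform : ∀ s, 137 / 25 ≤ s → d * hq x (ε * m) ε s = F + μ * (s - c0) + κ * (1 - cos (s - c0)) :=
    fun s hs => hq_lump hx0 hε hs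
  have hjf : ∀ s ∈ Ioi (137 / 25 : ℝ), jf x (ε * m) d ε s = lf F μ κ c0 s := by
    intro s hs
    have hs' : 137 / 25 ≤ s := le_of_lt hs
    unfold jf lf
    rw [pv_one hs', one_mul, hform s hs']
  have hab : |2 * π - c0| = ψ := by
    rw [hc0]
    have : 2 * π - (2 * π - ψ) = ψ := by ring
    rw [this, abs_of_nonneg hψ0]
  have hFA : d * Aq x m ε ≤ F := by
    rw [hF]
    unfold Aq
    have h1 : (al x - m) * (2 * π - m / x) ≤ (al x - m) * (2 * π - ψ) := by gcongr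
    have h2 : exp (ε * al x) * K ≤ exp (ε * al x) * (x + m ^ 2 / (2 * x)) := by gcongr
    refine mul_le_mul_of_nonneg_left ?_ hd.le
    linarith
  have hsq : (μ + 69 / 100) ^ 2 / (4 / 5 * κ) ≤
      (d * (al x - m) + 69 / 100) ^ 2 / (4 / 5 * (exp (ε * al x) * x * d)) := by
    have h1 : 0 < exp (ε * al x) * x * d := by positivity
    have h2 : exp (ε * al x) * x * d ≤ κ := by linarith
    rw [← hμd]
    gcongr
  have hGle : -F + 69 / 100 * ψ + (μ + 69 / 100) ^ 2 / (4 / 5 * κ) ≤ -Gq x m d ε := by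
    unfold Gq
    linarith
  refine ⟨?_, ?_, ?_⟩
  · exact (ii_lf (F := F) (c0 := c0) (by linarith : 69 / 100 < μ) hκ0.le (137 / 25)).congr_fun
      (fun s hs => (hjf s hs).symm) measurableSet_Ioi
  · rw [setIntegral_congr_fun measurableSet_Ioi hjf]
    refine (lump hμ hκ2 ?_ ?_).trans ?_
    · rw [hc0]; linarith
    · rw [hc0]; linarith
    · rw [hab]
      have h1 : 0 < exp (ε * al x) * x * d := by positivity
      have h2 : exp (ε * al x) * x * d ≤ κ := by linarith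
      gcongr
  · intro s hs
    rw [hform s hs]
    have hs0 : 0 ≤ 1 - cos (s - c0) := by linarith [cos_le_one (s - c0)]
    have hsq0 : 0 ≤ (μ + 69 / 100) ^ 2 / (4 / 5 * κ) := by positivity
    rcases le_total c0 s with h | h
    · have h1 : 0 ≤ μ * (s - c0) := mul_nonneg (by linarith) (by linarith)
      have h2 : 0 ≤ κ * (1 - cos (s - c0)) := mul_nonneg hκ0.le hs0
      have h3 : 0 ≤ 69 / 100 * ψ := by positivity
      linarith
    · have h1 : 0 ≤ c0 - s := by linarith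
      have h2 : c0 - s ≤ 3 / 2 := by rw [hc0]; linarith
      have h3 := one_sub_cos_ge h1 h2
      have h4 : cos (c0 - s) = cos (s - c0) := by rw [← cos_neg]; congr 1; ring
      rw [h4] at h3
      have h5 : κ * (2 / 5 * (c0 - s) ^ 2) ≤ κ * (1 - cos (s - c0)) := by gcongr
      -- -μ u + 2/5 κ u² ≥ -(μ+.69)²/(4/5 κ)
      have h6 : μ * (c0 - s) - κ * (2 / 5 * (c0 - s) ^ 2) ≤ (μ + 69 / 100) ^ 2 / (4 / 5 * κ) := by
        rw [le_div_iff₀ (by positivity)]
        have hμ0 : 0 < μ := by linarith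
        nlinarith [sq_nonneg (μ - 4 / 5 * κ * (c0 - s)), sq_nonneg μ]
      have h3' : 0 ≤ 69 / 100 * ψ := by positivity
      linarith

end SokalV3T
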