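import Pool.Agent.Lib_MP_af4de1_v3.TailQ

/-!
# Tails of regime I: the integrals, second part
-/

set_option autoImplicit false

namespace SokalV3T

open Real MeasureTheory Set SokalPG

/-- `e^(a + b)` style numeric bound -/
theorem exp33 : exp (33005 / 10000) ≤ 272 / 10 := by
  have h1 : exp (33005 / 10000) = exp 1 ^ 3 * exp (3005 / 10000) := by
    rw [← exp_nat_mul, ← exp_add]
    norm_num
  have h2 := exp_one_lt_d9
  have h3 := exp_bound' (x := 3005 / 10000) (by norm_num) (by norm_num) (n := 4) (by norm_num)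
  norm_num [Finset.sum_range_succ, Nat.factorial] at h3
  have e2 : (3005 / 10000 : ℝ) = 601 / 2000 := by norm_num
  have h5 : exp (3005 / 10000) ≤ 13507 / 10000 := by
    rw [e2]
    exact h3.trans (by norm_num)
  have h4 : exp 1 ^ 3 ≤ (2.7182818286 : ℝ) ^ 3 := pow_le_pow_left₀ (exp_pos 1).le h2.le 3
  rw [h1]
  calc exp 1 ^ 3 * exp (3005 / 10000) ≤ (2.7182818286 : ℝ) ^ 3 * (13507 / 10000) :=
        mul_le_mul h4 h5 (exp_pos _).le (by positivity)
    _ ≤ 272 / 10 := by norm_num

theorem exp55 : exp (5543 / 10000) ≤ 17410 / 10000 := by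
  have h3 := exp_bound' (x := 5543 / 10000) (by norm_num) (by norm_num) (n := 6) (by norm_num)
  norm_num [Finset.sum_range_succ, Nat.factorial] at h3
  refine h3.trans ?_
  norm_num

theorem int_w (c : ℝ) : ∫ s in Ioi c, exp (-(69 / 100) * s) = exp (-(69 / 100) * c) / (69 / 100) := by
  rw [integral_exp_mul_Ioi (by norm_num) c]
  ring

theorem ii_w (c : ℝ) : IntegrableOn (fun s : ℝ => exp (-(69 / 100) * s)) (Ioi c) :=
  integrableOn_exp_mul_Ioi (by norm_num) c

/-- the weight up to `2π` -/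
theorem int_w2 {b : ℝ} : ∫ s in Ioc (3 / 2 : ℝ) b, exp (69 / 100 * (2 * π - s)) ≤ 39425 / 1000 := by
  have e : ∀ s : ℝ, exp (69 / 100 * (2 * π - s)) = exp (69 / 100 * (2 * π)) * exp (-(69 / 100) * s) := by
    intro s
    rw [← exp_add]
    congr 1
    ring
  simp only [e]
  rw [integral_const_mul]
  have h1 : ∫ s in Ioc (3 / 2 : ℝ) b, exp (-(69 / 100) * s) ≤
      ∫ s in Ioi (3 / 2 : ℝ), exp (-(69 / 100) * s) :=
    setIntegral_mono_set (ii_w _) (Filter.Eventually.of_forall fun s => (exp_pos _).le)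
      (Filter.Eventually.of_forall Ioc_subset_Ioi_self)
  rw [int_w] at h1
  have h2 : exp (69 / 100 * (2 * π)) * exp (-(69 / 100) * (3 / 2)) ≤ 272 / 10 := by
    rw [← exp_add]
    refine (exp_le_exp.2 ?_).trans exp33
    have := pi_lt_d4
    linarith
  have h0 := exp_pos (69 / 100 * (2 * π))
  calc exp (69 / 100 * (2 * π)) * ∫ s in Ioc (3 / 2 : ℝ) b, exp (-(69 / 100) * s)
      ≤ exp (69 / 100 * (2 * π)) * (exp (-(69 / 100) * (3 / 2)) / (69 / 100)) := by gcongr
    _ = exp (69 / 100 * (2 * π)) * exp (-(69 / 100) * (3 / 2)) / (69 / 100) := by ring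
    _ ≤ 272 / 10 / (69 / 100) := by gcongr
    _ ≤ _ := by norm_num

theorem ii_w2 {b : ℝ} : IntegrableOn (fun s : ℝ => exp (69 / 100 * (2 * π - s))) (Ioc (3 / 2) b) := by
  have h : Continuous fun s : ℝ => exp (69 / 100 * (2 * π - s)) := by fun_prop
  exact h.integrableOn_Ioc

/-- the inner part, `x ≥ 3` -/
theorem ioc_part {x y d ε z : ℝ} (hx : 3 ≤ x) (hd : 0 < d)
    (hz : ∀ s, 3 / 2 ≤ s → s ≤ 137 / 25 → z ≤ hq x y ε s) :
    IntegrableOn (jf x y d ε) (Ioc (3 / 2) (137 / 25)) ∧
      ∫ s in Ioc (3 / 2 : ℝ) (137 / 25), jf x y d ε s ≤ 41 * exp (-(d * z)) := by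
  have h := dom_int (f := jf x y d ε)
    (b := fun s => 1031 / 1000 * exp (-(d * z)) * exp (69 / 100 * (2 * π - s)))
    (S := Ioc (3 / 2) (137 / 25)) measurableSet_Ioc (meas_jf x y d ε) (jf_nonneg x y d ε)
    (ii_w2.const_mul _) (fun s hs => by
      have h1 := hz s hs.1.le hs.2
      have h2 := pv_le3 (s := s) hx
      have hp := pi_gt_d2
      have h3 : |s - 2 * π| = 2 * π - s := by
        rw [abs_of_nonpos (by linarith [hs.2])]
        ring
      have h4 : exp (69 / 100 * |s - 2 * π| - d * hq x y ε s) ≤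
          exp (-(d * z)) * exp (69 / 100 * (2 * π - s)) := by
        rw [← exp_add, h3]
        apply exp_le_exp.2
        have := mul_le_mul_of_nonneg_left h1 hd.le
        linarith
      unfold jf
      calc _ ≤ 1031 / 1000 * (exp (-(d * z)) * exp (69 / 100 * (2 * π - s))) := by gcongr
        _ = _ := by ring)
  refine ⟨h.1, h.2.trans ?_⟩
  rw [integral_const_mul]
  have h1 := int_w2 (b := 137 / 25)
  have h2 := exp_pos (-(d * z))
  calc 1031 / 1000 * exp (-(d * z)) * ∫ s in Ioc (3 / 2 : ℝ) (137 / 25), exp (69 / 100 * (2 * π - s))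
      ≤ 1031 / 1000 * exp (-(d * z)) * (39425 / 1000) := by gcongr
    _ ≤ 41 * exp (-(d * z)) := by nlinarith

/-- the inner part, `x ≥ 3`, with slope -/
theorem ioc_slope {x y d ε z : ℝ} (hx : 3 ≤ x) (hd : 789 / 100 ≤ d)
    (hz : ∀ s, 3 / 2 ≤ s → s ≤ 137 / 25 → z + 7 / 80 * (137 / 25 - s) ≤ hq x y ε s) :
    IntegrableOn (jf x y d ε) (Ioc (3 / 2) (137 / 25)) ∧
      ∫ s in Ioc (3 / 2 : ℝ) (137 / 25), jf x y d ε s ≤ 36 / 5 * exp (-(d * z)) := by
  have hvol : volume.real (Ioc (3 / 2 : ℝ) (137 / 25)) = 199 / 50 := by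
    rw [Real.volume_real_Ioc]
    norm_num
  have h := dom_int (f := jf x y d ε)
    (b := fun _ => 1031 / 1000 * (exp (-(d * z)) * (17410 / 10000)))
    (S := Ioc (3 / 2) (137 / 25)) measurableSet_Ioc (meas_jf x y d ε) (jf_nonneg x y d ε)
    (integrableOn_const (by simp)) (fun s hs => by
      have h1 := hz s hs.1.le hs.2
      have h2 := pv_le3 (s := s) hx
      have hp := pi_gt_d2
      have hp2 := pi_lt_d4
      have h3 : |s - 2 * π| = 2 * π - s := by
        rw [abs_of_nonpos (by linarith [hs.2])]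
        ring
      have h4 : exp (69 / 100 * |s - 2 * π| - d * hq x y ε s) ≤
          exp (-(d * z)) * (17410 / 10000) := by
        have h5 : exp (69 / 100 * |s - 2 * π| - d * hq x y ε s) ≤
            exp (-(d * z)) * exp (5543 / 10000) := by
          rw [← exp_add, h3]
          apply exp_le_exp.2
          have h6 := mul_le_mul_of_nonneg_left h1 (by linarith : (0 : ℝ) ≤ d)
          have h7 : 789 / 100 * (7 / 80 * (137 / 25 - s)) ≤ d * (7 / 80 * (137 / 25 - s)) :=
            mul_le_mul_of_nonneg_right hd (by linarith [hs.2])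
          linarith [hs.2]
        refine h5.trans ?_
        have := exp55
        gcongr
      unfold jf
      gcongr)
  refine ⟨h.1, h.2.trans ?_⟩
  rw [setIntegral_const, hvol, smul_eq_mul]
  have h2 := exp_pos (-(d * z))
  nlinarith

/-- the outer part without lump -/
theorem plain_part {x y d ε P : ℝ} (hd : 793 / 100 ≤ d)
    (hP : ∀ s, 137 / 25 ≤ s → P + 3 / 5 * (s - 137 / 25) ≤ hq x y ε s) :
    IntegrableOn (jf x y d ε) (Ioi (137 / 25)) ∧
      ∫ s in Ioi (137 / 25 : ℝ), jf x y d ε s ≤ 1 / 2 * exp (-(d * P)) := by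
  have ha : -(3 / 5 * d - 69 / 100) < 0 := by linarith
  set a := -(3 / 5 * d - 69 / 100) with had
  set C := exp (5543 / 10000 - d * P - a * (137 / 25)) with hC
  have h := dom_int (f := jf x y d ε) (b := fun s => C * exp (a * s))
    (S := Ioi (137 / 25)) measurableSet_Ioi (meas_jf x y d ε) (jf_nonneg x y d ε)
    ((integrableOn_exp_mul_Ioi ha _).const_mul _) (fun s hs => by
      have hs' : 137 / 25 ≤ s := le_of_lt hs
      have h1 := hP s hs'
      have hp := pi_gt_d2
      have hp2 := pi_lt_d4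
      have h3 : |s - 2 * π| ≤ (s - 137 / 25) + (2 * π - 137 / 25) := by
        rw [abs_le]
        constructor <;> linarith
      unfold jf
      rw [pv_one hs', one_mul, hC, ← exp_add]
      apply exp_le_exp.2
      have h6 := mul_le_mul_of_nonneg_left h1 (by linarith : (0 : ℝ) ≤ d)
      rw [had]
      linarith)
  refine ⟨h.1, h.2.trans ?_⟩
  rw [integral_const_mul, integral_exp_mul_Ioi ha]
  have e : C * (-exp (a * (137 / 25)) / a) = exp (5543 / 10000) * exp (-(d * P)) / (-a) := by
    have : C * exp (a * (137 / 25)) = exp (5543 / 10000) * exp (-(d * P)) := by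
      rw [hC, ← exp_add, ← exp_add]
      congr 1
      ring
    have ha' : a ≠ 0 := ha.ne
    clear_value a
    rw [← this]
    field_simp
  rw [e, div_le_iff₀ (by linarith)]
  have h1 := exp55
  have h2 := exp_pos (-(d * P))
  have h3 : 4068 / 1000 ≤ -a := by rw [had]; linarith
  calc exp (5543 / 10000) * exp (-(d * P)) ≤ 17410 / 10000 * exp (-(d * P)) := by gcongr
    _ ≤ 1 / 2 * exp (-(d * P)) * (4068 / 1000) := by nlinarith
    _ ≤ 1 / 2 * exp (-(d * P)) * -a := by gcongr

/-- the whole half line, `x ≤ 3` -/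
theorem s_part {x y d ε q : ℝ} (hx : 0 ≤ x) (hd : 793 / 100 ≤ d)
    (h1 : ∀ s, 3 / 2 ≤ s → q ≤ hq x y ε s)
    (h2 : ∀ s, 2 * π ≤ s → q + 2 / 5 * (s - 2 * π) ≤ hq x y ε s) :
    IntegrableOn (jf x y d ε) (Ioi (3 / 2)) ∧ JJ x y d ε ≤ 57 * exp (-(d * q)) := by
  have hp := pi_gt_d2
  have hd0 : 0 < d := by linarith
  have a1 := dom_int (f := jf x y d ε)
    (b := fun s => 14143 / 10000 * exp (-(d * q)) * exp (69 / 100 * (2 * π - s)))
    (S := Ioc (3 / 2) (2 * π)) measurableSet_Ioc (meas_jf x y d ε) (jf_nonneg x y d ε)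
    (ii_w2.const_mul _) (fun s hs => by
      have h3 := h1 s hs.1.le
      have h4 := pv_le (s := s) hx
      have h5 : |s - 2 * π| = 2 * π - s := by
        rw [abs_of_nonpos (by linarith [hs.2])]
        ring
      have h6 : exp (69 / 100 * |s - 2 * π| - d * hq x y ε s) ≤
          exp (-(d * q)) * exp (69 / 100 * (2 * π - s)) := by
        rw [← exp_add, h5]
        apply exp_le_exp.2
        have := mul_le_mul_of_nonneg_left h3 hd0.le
        linarith
      unfold jf
      calc _ ≤ 14143 / 10000 * (exp (-(d * q)) * exp (69 / 100 * (2 * π - s))) := by gcongr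
        _ = _ := by ring)
  have ha : -(2 / 5 * d - 69 / 100) < 0 := by linarith
  set a := -(2 / 5 * d - 69 / 100) with had
  set C := 14143 / 10000 * exp (-(d * q) - a * (2 * π)) with hC
  have a2 := dom_int (f := jf x y d ε) (b := fun s => C * exp (a * s))
    (S := Ioi (2 * π)) measurableSet_Ioi (meas_jf x y d ε) (jf_nonneg x y d ε)
    ((integrableOn_exp_mul_Ioi ha _).const_mul _) (fun s hs => by
      have hs' : 2 * π ≤ s := le_of_lt hs
      have h3 := h2 s hs'
      have h4 := pv_le (s := s) hx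
      have h5 : |s - 2 * π| = s - 2 * π := abs_of_nonneg (by linarith)
      have h6 : exp (69 / 100 * |s - 2 * π| - d * hq x y ε s) ≤
          exp (-(d * q) - a * (2 * π)) * exp (a * s) := by
        rw [← exp_add, h5]
        apply exp_le_exp.2
        have := mul_le_mul_of_nonneg_left h3 hd0.le
        rw [had]
        linarith
      unfold jf
      calc _ ≤ 14143 / 10000 * (exp (-(d * q) - a * (2 * π)) * exp (a * s)) := by gcongr
        _ = _ := by rw [hC]; ring)
  have hu : Ioi (3 / 2 : ℝ) = Ioc (3 / 2) (2 * π) ∪ Ioi (2 * π) :=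
    (Ioc_union_Ioi_eq_Ioi (by linarith)).symm
  refine ⟨by rw [hu]; exact a1.1.union a2.1, ?_⟩
  unfold JJ
  rw [hu, setIntegral_union (Ioc_disjoint_Ioi le_rfl) measurableSet_Ioi a1.1 a2.1]
  have b1 := a1.2
  have b2 := a2.2
  rw [integral_const_mul] at b1
  rw [integral_const_mul, integral_exp_mul_Ioi ha] at b2
  have e : C * (-exp (a * (2 * π)) / a) = 14143 / 10000 * exp (-(d * q)) / (-a) := by
    have : C * exp (a * (2 * π)) = 14143 / 10000 * exp (-(d * q)) := by
      rw [hC, mul_assoc, ← exp_add]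
      congr 2
      ring
    have ha' : a ≠ 0 := ha.ne
    clear_value a
    rw [← this]
    field_simp
  rw [e] at b2
  have hE := exp_pos (-(d * q))
  have c1 : 14143 / 10000 * exp (-(d * q)) * ∫ s in Ioc (3 / 2 : ℝ) (2 * π),
      exp (69 / 100 * (2 * π - s)) ≤ 14143 / 10000 * exp (-(d * q)) * (39425 / 1000) := by
    have := int_w2 (b := 2 * π)
    gcongr
  have c2 : 14143 / 10000 * exp (-(d * q)) / (-a) ≤ 57 / 100 * exp (-(d * q)) := by
    have h3 : 2482 / 1000 ≤ -a := by rw [had]; linarith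
    rw [div_le_iff₀ (by linarith)]
    calc 14143 / 10000 * exp (-(d * q)) ≤ 57 / 100 * exp (-(d * q)) * (2482 / 1000) := by nlinarith
      _ ≤ _ := by gcongr
  nlinarith

end SokalV3T
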