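import Pool.Agent.Lib_MP_af4de1_v3.TailW

/-!
# `PTail1s` from `JI`
-/

set_option autoImplicit false

open Complex MeasureTheory Set SokalU SokalPG SokalF1 SokalF1S SokalF1M SokalF1G SokalF1B SokalV3

namespace SokalV3T

theorem hst_sq_le {N : ℕ} (hN : 3 ≤ N) : hst N ^ 2 ≤ 43866 / 10000 := by
  have h1 : hst N ≤ 2 * Real.pi / 3 := by
    unfold hst
    have hN3 : (3 : ℝ) ≤ N := by exact_mod_cast hN
    have := Real.pi_pos
    gcongr
  have h0 : 0 ≤ hst N := by
    unfold hst
    have := Real.pi_pos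
    positivity
  have h2 := Real.pi_lt_d4
  have h3 : hst N ≤ 20944 / 10000 := by linarith
  nlinarith

theorem rf_of {N : ℕ} {r δ y η : ℝ} (hR : Reg1 N r δ) (hA : At r δ y η) (hS : Sad1 N r δ y)
    (hη : |η| ≤ eo1 N r δ) :
    RF (sx (r * δ) y) y (r * δ * Real.exp (-y)) (r * δ) (1 / δ) := by
  have hδ := hR.d0
  have hr0 := hR.r0
  have hr : 0 < r := by linarith
  have hD := hA.dom
  have hρ := hD.1
  have hE := Real.exp_pos (-y)
  have hEE : Real.exp (-y) * Real.exp y = 1 := by rw [← Real.exp_add]; simp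
  have hK0 : 0 < r * δ * Real.exp (-y) := mul_pos hρ hE
  have hrd : r * δ * (1 / δ) = r := by field_simp
  have hη2 := hη.trans (eo1_le hR.N3)
  have hRR : (0 : ℝ) < RR r δ := by unfold RR; positivity
  have hG := hR.G
  have hh := hst_sq_le hR.N3
  have lo : -(53 / 100) ≤ y := by
    rcases hS with h | h
    · linarith [h.2.lo]
    · linarith [h.2.lo]
  refine ⟨sx_nonneg _ _, hK0, ?_, ?_, by positivity, by rw [hrd]; linarith, ?_, lo, ?_, ?_, ?_,
    ?_, ?_, ?_⟩
  · exact (sx_sq_add hD).symm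
  · rw [mul_assoc, hEE, mul_one]
  · rw [hrd]
    unfold Gm at hG
    rw [le_div_iff₀ hRR] at hG
    have h1 : r * hst N ^ 2 ≤ r * (43866 / 10000) := by gcongr
    unfold RR at hG
    linarith
  · rcases hS with h | h
    · linarith [h.2.hi]
    · linarith [h.2.hi]
  · rcases hS with h | h
    · linarith [h.2.T, sx_nonneg (r * δ) y]
    · linarith [h.2.T]
  · have h1 : 13 / 20 ≤ sD2 (r * δ) y := by
      rcases hS with h | h
      · linarith [h.2.D]
      · exact h.2.D
    exact h1
  · intro hy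
    have h1 := sE_ge_pos hD hy
    rw [hA.eta] at h1
    have h2 := le_abs_self η
    have e1 : r * δ * Real.exp (-y) * (Real.exp y - 1) = r * δ * (1 - Real.exp (-y)) := by
      have : r * δ * Real.exp (-y) * (Real.exp y - 1) =
        r * δ * (Real.exp (-y) * Real.exp y - Real.exp (-y)) := by ring
      rw [this, hEE]
    have e2 : y / (r * δ * Real.exp (-y)) = y * Real.exp y / (r * δ) := by
      rw [div_eq_div_iff hK0.ne' hρ.ne']
      have : y * Real.exp y * (r * δ * Real.exp (-y)) =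
        y * (r * δ) * (Real.exp (-y) * Real.exp y) := by ring
      rw [this, hEE, mul_one]
    rw [e1, e2]
    have h3 : y * Real.exp y / (r * δ) ≤ (y + y ^ 2 / 2) * Real.exp y / (r * δ) := by
      have := sq_nonneg y
      gcongr
      linarith
    linarith
  · intro hy
    have h1 := sP_nonneg (y := y) hρ hy
    have h2 := le_abs_self η
    have h3 : sP (r * δ) y + r * δ - sx (r * δ) y = η := hA.eta
    linarith
  · intro hy
    obtain ⟨t, rfl⟩ : ∃ t, y = -t := ⟨-y, by ring⟩
    have ht : 0 ≤ t := by linarith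
    have h1 := sE_le_neg hD ht (by linarith)
    rw [hA.eta] at h1
    have h2 := neg_abs_le η
    rw [neg_neg]
    have h3 : 0 ≤ (t - t ^ 2 / 2) * Real.exp (-t) / (r * δ) := by
      have : 0 ≤ t - t ^ 2 / 2 := by nlinarith
      have := Real.exp_pos (-t)
      positivity
    linarith

theorem sqrt_two_pi : 250662 / 100000 ≤ √(2 * Real.pi) := by
  apply Real.le_sqrt_of_sq_le
  have := Real.pi_gt_d6
  norm_num
  linarith

/-- `HH² ≥ 27/5 r` -/
theorem HH_sq_ge {N : ℕ} {r δ : ℝ} (hR : Reg1 N r δ) : 27 / 5 * r ≤ HH N r δ ^ 2 := by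
  have hG := hR.G
  have hr0 := hR.r0
  have hRR : (0 : ℝ) < RR r δ := by unfold RR; positivity
  have e : HH N r δ ^ 2 = r * Gm N r δ := by
    unfold HH Gm
    rw [div_pow, Real.sq_sqrt hRR.le]
    ring
  rw [e]
  have := mul_le_mul_of_nonneg_left hG (by linarith : (0 : ℝ) ≤ r)
  linarith

/-- `d ≥ 7.8` -/
theorem d78 {d : ℝ} (h0 : 0 < d) (h : 61 ≤ d * d) : 78 / 10 ≤ d := by nlinarith

theorem r_le_d2 {ρ d : ℝ} (hd : 0 ≤ d) (h : 1231 / 1000 * ρ ≤ d) :
    ρ * d ≤ (9014 / 10000 * d) ^ 2 := by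
  have h1 := mul_le_mul_of_nonneg_right h hd
  have h2 : (9014 / 10000 * d) ^ 2 = (9014 / 10000) ^ 2 * (d * d) := by ring
  have h3 : 0 ≤ d * d := mul_nonneg hd hd
  rw [h2]
  linarith

theorem num0 {ρ d P : ℝ} (hρ : 1231 / 1000 * ρ ≤ d) (hd : 78 / 10 ≤ d) (hP : 250662 / 100000 ≤ P) :
    12 / 10000 * (18 / 10 + ρ) ≤ d * (1 / 500 * P) := by
  have h1 : d * (250662 / 100000) ≤ d * P := mul_le_mul_of_nonneg_left hP (by linarith)
  linarith

theorem num1 {D K x y : ℝ} (h1 : D ^ 2 = (1 + y) ^ 2 + x ^ 2) (h2 : x ^ 2 + y ^ 2 = K ^ 2)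
    (h3 : y ≤ K) (h5 : 0 < K) : D ≤ 1 + K := by
  refine abs_le_of_sq_le_sq' ?_ (by linarith) |>.2
  have e1 : (1 + K) ^ 2 = 1 + 2 * K + K ^ 2 := by ring
  have e2 : (1 + y) ^ 2 = 1 + 2 * y + y ^ 2 := by ring
  rw [h1, e1, e2]
  linarith

theorem ptail1s_of (hJ : ∀ x y K ρ d : ℝ, RF x y K ρ d → JI x y d) : PTail1s := by
  intro N r δ y η hR hA hS hη
  have hF := rf_of hR hA hS hη
  obtain ⟨i1, i2, hle⟩ := hJ _ _ _ _ _ hF
  have hδ := hR.d0
  have hr0 := hR.r0
  have hr : 0 < r := by linarith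
  have hD := hA.dom
  have hρ := hD.1
  have hy1 := hA.y1
  have hD2 := sD2_pos (ρ := r * δ) hy1
  have hDD : 0 < sD (r * δ) y := Real.sqrt_pos.2 hD2
  have hrd : r * δ * (1 / δ) = r := by field_simp
  have hEE : Real.exp (-y) * Real.exp y = 1 := by rw [← Real.exp_add]; simp
  have w1 := tls_le (r := r) (δ := δ) (y := y) (C := 1) (w := fun _ => (1 : ℂ)) hδ
    (fun a t _ => one_w (a := a) (s := t)) i1 i2
  have w2 := tls_le (r := r) (δ := δ) (y := y) hδ (fun a t h => gs_w (s := t) h) i1 i2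
  have w3 := tls_le (r := r) (δ := δ) (y := y) (w := fun σ => σ * gs σ) hδ
    (fun a t h => sgs_w (s := t) h) i1 i2
  have hJ0 : 0 ≤ JJ (sx (r * δ) y) y (1 / δ) 1 + JJ (sx (r * δ) y) y (1 / δ) (-1) := by
    have : ∀ ε, 0 ≤ JJ (sx (r * δ) y) y (1 / δ) ε := fun ε =>
      setIntegral_nonneg measurableSet_Ioi fun s _ =>
        mul_nonneg (norm_nonneg _) (Real.exp_pos _).le
    exact add_nonneg (this 1) (this (-1))
  set J := JJ (sx (r * δ) y) y (1 / δ) 1 + JJ (sx (r * δ) y) y (1 / δ) (-1) with hJdef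
  -- `D`, `d`
  set d := 1 / δ with hd
  have hd0 : 0 < d := by positivity
  have hsd : 0 < √d := Real.sqrt_pos.2 hd0
  have hsd2 : √d * √d = d := Real.mul_self_sqrt hd0.le
  have hDe : √((1 + y) ^ 2 + sx (r * δ) y ^ 2) = sD (r * δ) y := rfl
  rw [hDe] at hle
  set D := sD (r * δ) y with hDdef
  have hsD : 0 < √D := Real.sqrt_pos.2 hDD
  have hsD2 : √D * √D = D := Real.mul_self_sqrt hDD.le
  set P := √(2 * Real.pi) with hP
  have hP0 := sqrt_two_pi
  have hPP : 0 < P := by linarith
  -- `G = P/(√d √D)`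
  have hGe : sG r δ y * (√d * √D) = P := by
    have h1 : sG r δ y = √(2 * Real.pi * δ / D) := rfl
    rw [h1, ← Real.sqrt_mul hd0.le, ← Real.sqrt_mul (by positivity), hP]
    congr 1
    rw [hd]
    field_simp
  have hG := sG_pos (r := r) hδ hy1
  have hEy := Real.exp_pos y
  have hEn := Real.exp_pos (-y)
  -- kap
  have hkap : ‖kap r δ y‖ = r * Real.exp (-y) := by
    unfold kap
    rw [norm_div, norm_sK hD, Complex.norm_real, Real.norm_eq_abs, abs_of_pos hδ]
    field_simp
  -- `J √d d ≤ 12/10000 √D e^y`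
  have hJ1 : d * √d * J * Real.exp (-y) ≤ 12 / 10000 * √D := by
    calc d * √d * J * Real.exp (-y) ≤ 12 / 10000 * √D * Real.exp y * Real.exp (-y) := by gcongr
      _ = 12 / 10000 * √D * (Real.exp (-y) * Real.exp y) := by ring
      _ = 12 / 10000 * √D := by rw [hEE, mul_one]
  have hdρ : 1231 / 1000 * (r * δ) ≤ d := by
    have h1 := hF.r2
    have h2 : 1231 / 1000 * (r * δ) ^ 2 ≤ r * δ * d := by linarith
    have h3 : r * δ * (1231 / 1000 * (r * δ)) ≤ r * δ * d := by linarith
    exact le_of_mul_le_mul_left h3 hρ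
  refine ⟨?_, ?_, ?_⟩
  · -- T0
    refine w1.trans ?_
    rw [one_mul]
    have hd2 : 61 ≤ d * d := by
      have h1 := hF.r1
      have h2 := mul_le_mul hdρ h1 (by norm_num) hd0.le
      have h3 : 1231 / 1000 * (r * δ) * (499 / 10) ≤ r * δ * (d * d) := by
        calc 1231 / 1000 * (r * δ) * (499 / 10) ≤ d * (r * δ * d) := h2
          _ = r * δ * (d * d) := by ring
      have h4 : r * δ * (1231 / 1000 * (499 / 10)) ≤ r * δ * (d * d) := by linarith
      have := le_of_mul_le_mul_left h4 hρ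
      linarith
    have hd3 := d78 hd0 hd2
    -- D e^y ≤ e^y + ρ
    have hDK : D ≤ 1 + r * δ * Real.exp (-y) := by
      have h1 : D ^ 2 = (1 + y) ^ 2 + sx (r * δ) y ^ 2 := Real.sq_sqrt hD2.le
      have h2 := sx_sq_add hD
      have h3 : |y| ≤ r * δ * Real.exp (-y) := hD.abs_le_exp
      have h4 := le_abs_self y
      exact num1 h1 h2 (h4.trans h3) (mul_pos hρ hEn)
    have hey : Real.exp y ≤ 18 / 10 := by
      have h1 : y ≤ 14 / 25 := hF.hi
      have h2 : Real.exp y ≤ Real.exp (14 / 25) := Real.exp_le_exp.2 h1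
      have h3 : Real.exp (14 / 25) ≤ 18 / 10 := by
        have := Real.exp_bound' (x := 14 / 25) (by norm_num) (by norm_num) (n := 5) (by norm_num)
        refine this.trans ?_
        norm_num [Finset.sum_range_succ, Nat.factorial]
      linarith
    have hDe2 : D * Real.exp y ≤ 18 / 10 + r * δ := by
      calc D * Real.exp y ≤ (1 + r * δ * Real.exp (-y)) * Real.exp y := by gcongr
        _ = Real.exp y + r * δ * (Real.exp (-y) * Real.exp y) := by ring
        _ = Real.exp y + r * δ := by rw [hEE, mul_one]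
        _ ≤ _ := by linarith
    have h1 : d * (√d * √D * J) ≤ d * (1 / 500 * P) := by
      have h2 : d * (√d * √D * J) = d * √d * J * √D := by ring
      rw [h2]
      calc d * √d * J * √D ≤ (12 / 10000 * √D * Real.exp y) * √D := by gcongr
        _ = 12 / 10000 * (√D * √D * Real.exp y) := by ring
        _ = 12 / 10000 * (D * Real.exp y) := by rw [hsD2]
        _ ≤ 12 / 10000 * (18 / 10 + r * δ) := by gcongr
        _ ≤ d * (1 / 500 * P) := num0 hdρ hd3 hP0
    have h3 := le_of_mul_le_mul_left h1 hd0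
    have h4 : √d * √D * J ≤ √d * √D * (1 / 500 * sG r δ y) := by
      calc √d * √D * J ≤ 1 / 500 * P := h3
        _ = √d * √D * (1 / 500 * sG r δ y) := by rw [← hGe]; ring
    exact le_of_mul_le_mul_left h4 (by positivity)
  · -- T1
    have hH := HH_nonneg_own hR.toPar
    have hH2 := HH_sq_ge hR
    rw [hkap]
    have h0 : r * Real.exp (-y) / D * Tls r δ y (bs r δ y) gs ≤
        r * Real.exp (-y) / D * (71 / 10 * J) := by
      gcongr
    refine h0.trans ?_
    -- √ρ √d = √r
    have hsr : 0 < √r := Real.sqrt_pos.2 hr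
    have hsr2 : √r * √r = r := Real.mul_self_sqrt hr.le
    have hHr : 23237 / 10000 * √r ≤ HH N r δ := by
      refine abs_le_of_sq_le_sq' ?_ hH |>.2
      have : (23237 / 10000 * √r) ^ 2 = (23237 / 10000) ^ 2 * r := by
        rw [mul_pow, Real.sq_sqrt hr.le]
      rw [this]
      refine le_trans ?_ hH2
      exact mul_le_mul_of_nonneg_right (by norm_num) hr.le
    -- √r ≤ .9014 d
    have hrd2 : √r ≤ 9014 / 10000 * d := by
      refine abs_le_of_sq_le_sq' ?_ (by positivity) |>.2
      rw [Real.sq_sqrt hr.le]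
      calc r = r * δ * d := hrd.symm
        _ ≤ _ := r_le_d2 hd0.le hdρ
    have h1 : √d * √D * (r * Real.exp (-y) * (71 / 10 * J)) ≤
        √d * √D * (D * (3 / 2 * (HH N r δ / 1000) * sG r δ y)) := by
      have e1 : √d * √D * (r * Real.exp (-y) * (71 / 10 * J)) =
          71 / 10 * √r * √D * (√r * (√d * J * Real.exp (-y))) := by
        rw [← hsr2]
        rw [hsr2]
        calc √d * √D * (r * Real.exp (-y) * (71 / 10 * J)) =
            71 / 10 * √D * (r * (√d * J * Real.exp (-y))) := by ring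
          _ = 71 / 10 * √D * (√r * √r * (√d * J * Real.exp (-y))) := by rw [hsr2]
          _ = _ := by ring
      have e2 : √d * √D * (D * (3 / 2 * (HH N r δ / 1000) * sG r δ y)) =
          D * (3 / 2 * (HH N r δ / 1000) * P) := by rw [← hGe]; ring
      rw [e1, e2]
      have h2 : √r * (√d * J * Real.exp (-y)) ≤ 9014 / 10000 * (12 / 10000 * √D) := by
        calc √r * (√d * J * Real.exp (-y)) ≤ 9014 / 10000 * d * (√d * J * Real.exp (-y)) := by
              gcongr
          _ = 9014 / 10000 * (d * √d * J * Real.exp (-y)) := by ring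
          _ ≤ _ := by gcongr
      calc 71 / 10 * √r * √D * (√r * (√d * J * Real.exp (-y)))
          ≤ 71 / 10 * √r * √D * (9014 / 10000 * (12 / 10000 * √D)) := by gcongr
        _ = (71 / 10 * (9014 / 10000) * (12 / 10000)) * √r * (√D * √D) := by ring
        _ = (71 / 10 * (9014 / 10000) * (12 / 10000)) * √r * D := by rw [hsD2]
        _ ≤ (3 / 2 * (23237 / 10000) / 1000 * (250662 / 100000)) * √r * D := by
          refine mul_le_mul_of_nonneg_right (mul_le_mul_of_nonneg_right ?_ hsr.le) hDD.le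
          norm_num
        _ = D * (3 / 2 * ((23237 / 10000 * √r) / 1000) * (250662 / 100000)) := by ring
        _ ≤ D * (3 / 2 * (HH N r δ / 1000) * P) := by gcongr
    have h2 := le_of_mul_le_mul_left h1 (by positivity)
    rw [div_mul_eq_mul_div, div_le_iff₀ hDD]
    linarith
  · -- T2
    have hH2 := HH_sq_ge hR
    rw [hkap]
    have h0 : r * Real.exp (-y) / D * Tls r δ y (bs r δ y) (fun σ => σ * gs σ) ≤
        r * Real.exp (-y) / D * (451 / 10 * J) := by
      gcongr
    refine h0.trans ?_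
    have hdδ : d * δ = 1 := by rw [hd]; field_simp
    have h1 : d * (√d * √D) * (r * Real.exp (-y) * (451 / 10 * J)) ≤
        d * (√d * √D) * (D * (HH N r δ ^ 2 / 250 * (δ * sG r δ y))) := by
      have e2 : d * (√d * √D) * (D * (HH N r δ ^ 2 / 250 * (δ * sG r δ y))) =
          D * (HH N r δ ^ 2 / 250 * P) := by
        calc d * (√d * √D) * (D * (HH N r δ ^ 2 / 250 * (δ * sG r δ y))) =
            D * (HH N r δ ^ 2 / 250 * ((d * δ) * (sG r δ y * (√d * √D)))) := by ring
          _ = D * (HH N r δ ^ 2 / 250 * P) := by rw [hdδ, hGe, one_mul]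
      rw [e2]
      calc d * (√d * √D) * (r * Real.exp (-y) * (451 / 10 * J)) =
          451 / 10 * r * √D * (d * √d * J * Real.exp (-y)) := by ring
        _ ≤ 451 / 10 * r * √D * (12 / 10000 * √D) := by gcongr
        _ = 451 / 10 * (12 / 10000) * r * (√D * √D) := by ring
        _ = 451 / 10 * (12 / 10000) * r * D := by rw [hsD2]
        _ ≤ (27 / 5 / 250 * (250662 / 100000)) * r * D := by
          refine mul_le_mul_of_nonneg_right (mul_le_mul_of_nonneg_right ?_ hr.le) hDD.le
          norm_num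
        _ = D * (27 / 5 * r / 250 * (250662 / 100000)) := by ring
        _ ≤ D * (HH N r δ ^ 2 / 250 * P) := by gcongr
    have h2 := le_of_mul_le_mul_left h1 (by positivity)
    rw [div_mul_eq_mul_div, div_le_iff₀ hDD]
    linarith

end SokalV3T
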