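import Pool.Agent.Lib_MP_af4de1_v3.TailH

/-!
# Tails of regime I, `x ≤ 3`, `y ≤ 0`

Hints.  `Ha x y a s = a s - x (e^a cos s - 1 - a) + y (e^a sin s - s)`; `x ≤ 3` gives `ab x s = 1` for
`s ≥ 1 + x` and `ab x s = s/(1+x)` below.  `ρ = K e^y ≤ K ≤ x + (2/5)|y|` (as `|y| ≤ 4x/5`), even
`ρ ≤ (x + (2/5) n)(1 - n + n²/2)`, `n = |y| ≤ min (.53, 4x/5)`.  True slack: `.229` for `ε = -1`
(at `x = 1.03`, `n = .53`, `s = 3/2`), `1.1` for `ε = 1`.
`ε = -1`: `hq = a s + x (1 - a - e^(-a) cos s) - n (s - e^(-a) sin s)`.  For `s ≥ 4`: `a = 1`, linear in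
`(x, n)` for fixed `s`.  For `3/2 ≤ s ≤ 4`: `cos s ≤ 0.0708`.
-/

set_option autoImplicit false

namespace SokalV3T

open Real SokalF1G

private theorem ta_lo {x s : ℝ} (hx3 : x ≤ 3) (h : s ≤ 1 + x) : ab x s = s / (1 + x) := by
  unfold ab
  rw [min_eq_right (show 1 + x ≤ 137 / 25 by linarith), min_eq_right h]

private theorem ta_hi {x s : ℝ} (hx0 : 0 ≤ x) (hx3 : x ≤ 3) (h : 1 + x ≤ s) : ab x s = 1 := by
  unfold ab
  rw [min_eq_right (show 1 + x ≤ 137 / 25 by linarith), min_eq_left h]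
  exact div_self (by linarith)

private theorem hqp (x y s : ℝ) : hq x y 1 s = ab x s * s + x * (1 + ab x s) + (-y) * s -
    exp (ab x s) * (x * cos s + (-y) * sin s) := by
  unfold hq Ha
  rw [one_mul, one_mul]
  ring

private theorem hqm (x y s : ℝ) : hq x y (-1) s = ab x s * s + x * (1 - ab x s) - (-y) * s -
    exp (-ab x s) * (x * cos s - (-y) * sin s) := by
  unfold hq Ha
  rw [neg_one_mul, neg_one_mul, cos_neg, sin_neg]
  ring

private theorem tT {x y K ρ d : ℝ} (h : RF x y K ρ d) (hy : y ≤ 0) :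
    ρ / 4 + 2 / 5 ≤ x / 4 + (-y) / 10 - 147 / 800 * (x * (-y)) + 2 / 5 ∧ K ≤ x + 2 / 5 * (-y) := by
  obtain ⟨n, rfl⟩ : ∃ n, y = -n := ⟨-y, by ring⟩
  rw [neg_neg]
  have hn0 : 0 ≤ n := by linarith
  have hn : n ≤ 53 / 100 := by linarith [h.lo]
  have hnx : n ≤ 4 / 5 * x := by
    have := h.T
    rwa [abs_neg, abs_of_nonneg hn0] at this
  have hx0 := h.x0
  have hK0 := h.K0
  have hK : K ≤ x + 2 / 5 * n := by
    by_contra hc
    push Not at hc
    have h1 := pow_lt_pow_left₀ hc (by positivity) two_ne_zero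
    have h2 := h.hK
    have h3 : 0 ≤ n * (4 / 5 * x - 21 / 25 * n) := mul_nonneg hn0 (by linarith)
    nlinarith
  have hE : exp (-n) ≤ 1 - 147 / 200 * n := by
    have h1 : 1 + n + n ^ 2 / 2 ≤ exp n := quadratic_le_exp_of_nonneg hn0
    rw [exp_neg, inv_le_comm₀ (exp_pos n) (by nlinarith)]
    refine le_trans ?_ h1
    rw [inv_eq_one_div, div_le_iff₀ (by nlinarith)]
    have h3 : 0 ≤ n * (53 / 100 - n) := mul_nonneg hn0 (by linarith)
    have h4 : 0 ≤ n * (n * (53 / 100 - n)) := mul_nonneg hn0 h3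
    nlinarith
  refine ⟨?_, hK⟩
  rw [h.hρ]
  have h5 : K * exp (-n) ≤ (x + 2 / 5 * n) * (1 - 147 / 200 * n) :=
    mul_le_mul hK hE (exp_pos _).le (by positivity)
  nlinarith [mul_nonneg hn0 hn0]

private theorem te_lo : (3678 : ℝ) / 10000 ≤ exp (-1) := by
  have h := exp_one_lt_d9
  rw [exp_neg, le_inv_comm₀ (by norm_num) (exp_pos 1)]
  norm_num
  linarith

private theorem te_hi : exp (-1) ≤ (3679 : ℝ) / 10000 := by
  have h := exp_one_gt_d9
  rw [exp_neg, inv_le_comm₀ (exp_pos 1) (by norm_num)]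
  norm_num
  linarith

private theorem tcos {s : ℝ} (h1 : 3 / 2 ≤ s) (h2 : s ≤ π + π / 2) : cos s ≤ 708 / 10000 := by
  rcases le_total s (π / 2) with h | h
  · have h3 : cos s = sin (π / 2 - s) := (sin_pi_div_two_sub s).symm
    have h4 : sin (π / 2 - s) ≤ π / 2 - s := sin_le (by linarith)
    have := pi_lt_d4
    rw [h3]
    linarith
  · have := cos_nonpos_of_pi_div_two_le_of_le h h2
    linarith

private theorem tsin {s : ℝ} (h1 : 3 / 2 ≤ s) (h2 : s ≤ 2) : 9 / 10 ≤ sin s := by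
  have h3 : sin s = cos (s - π / 2) := (cos_sub_pi_div_two s).symm
  have h4 := one_sub_sq_div_two_le_cos (x := s - π / 2)
  have := pi_lt_d4
  have := pi_gt_d4
  have h5 : (s - π / 2) ^ 2 ≤ (43 / 100) ^ 2 := by
    apply sq_le_sq'
    · linarith
    · linarith
  rw [h3]
  nlinarith

/-- division by `1 + x` -/
private theorem tdiv {x s R : ℝ} (hx0 : 0 ≤ x) (h : 0 ≤ (1 + x) * R + s * (s - x)) :
    0 ≤ R + s / (1 + x) * (s - x) := by
  have h1 : 0 < 1 + x := by linarith
  have h2 : R + s / (1 + x) * (s - x) = ((1 + x) * R + s * (s - x)) / (1 + x) := by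
    field_simp
  rw [h2]
  positivity

private theorem m1 {x n s c σ A : ℝ} (hx0 : 0 ≤ x) (hx3 : x ≤ 3) (hn0 : 0 ≤ n)
    (hn : n ≤ 53 / 100) (hs : 3 / 2 ≤ s) (hs2 : s ≤ 2) (hc : c ≤ 708 / 10000) (hσ : 9 / 10 ≤ σ)
    (hA : 3678 / 10000 ≤ A) (hA1 : A ≤ 1) :
    x / 4 + n / 10 - 147 / 800 * (x * n) + 2 / 5 ≤
      s / (1 + x) * s + x * (1 - s / (1 + x)) - n * s - A * (x * c - n * σ) := by
  have hw : x * c - n * σ ≤ 708 / 10000 * x - 9 / 10 * n := by
    have h1 := mul_le_mul_of_nonneg_left hc hx0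
    have h2 := mul_le_mul_of_nonneg_left hσ hn0
    linarith
  have hAw : A * (x * c - n * σ) ≤ A * (708 / 10000 * x - 9 / 10 * n) :=
    mul_le_mul_of_nonneg_left hw (by linarith)
  rcases le_total (708 / 10000 * x - 9 / 10 * n) 0 with h | h
  · have h2 : A * (708 / 10000 * x - 9 / 10 * n) ≤
        3678 / 10000 * (708 / 10000 * x - 9 / 10 * n) := by nlinarith
    have h3 : 0 ≤ (1 + x) * (x - n * s - 3678 / 10000 * (708 / 10000 * x - 9 / 10 * n) -
        (x / 4 + n / 10 - 147 / 800 * (x * n) + 2 / 5)) + s * (s - x) := by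
      have h4 : 0 ≤ (53 / 100 - n) * (s - 23102 / 100000 - 147 / 800 * x) :=
        mul_nonneg (by linarith) (by linarith)
      have h5 : 0 ≤ (1 + x) * ((53 / 100 - n) * (s - 23102 / 100000 - 147 / 800 * x)) :=
        mul_nonneg (by linarith) h4
      have h6 : 0 ≤ s * s - x * s + (1 + x) * (82134726 / 100000000 * x - 2775594 / 10000000 -
          53 / 100 * s) := by
        rcases le_total x 1 with hx | hx
        · have h7 : 0 ≤ (s - 3 / 2) * (s + 97 / 100 - 153 / 100 * x) :=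
            mul_nonneg (by linarith) (by linarith)
          nlinarith [sq_nonneg (x - 1066 / 1000)]
        · nlinarith [sq_nonneg (s - (153 / 100 * x + 53 / 100) / 2),
            mul_nonneg (sub_nonneg.2 hx) (sub_nonneg.2 hx)]
      nlinarith
    have h8 := tdiv hx0 h3
    linarith
  · have h2 : A * (708 / 10000 * x - 9 / 10 * n) ≤ 708 / 10000 * x - 9 / 10 * n := by nlinarith
    have h3 : 0 ≤ (1 + x) * (x - n * s - (708 / 10000 * x - 9 / 10 * n) -
        (x / 4 + n / 10 - 147 / 800 * (x * n) + 2 / 5)) + s * (s - x) := by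
      have h4 : x - n * s - (708 / 10000 * x - 9 / 10 * n) -
          (x / 4 + n / 10 - 147 / 800 * (x * n) + 2 / 5) ≥ 58 / 100 * x - 2 / 5 := by
        have h5 : 0 ≤ n * (2 - s) := mul_nonneg hn0 (by linarith)
        have h6 : 0 ≤ x * n := mul_nonneg hx0 hn0
        nlinarith
      have h5 : (1 + x) * (58 / 100 * x - 2 / 5) ≤ (1 + x) * (x - n * s -
          (708 / 10000 * x - 9 / 10 * n) -
          (x / 4 + n / 10 - 147 / 800 * (x * n) + 2 / 5)) :=
        mul_le_mul_of_nonneg_left h4 (by linarith)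
      have h6 : 0 ≤ (s - 3 / 2) * (s + 3 / 2 - x) := mul_nonneg (by linarith) (by linarith)
      nlinarith [sq_nonneg (x - 112 / 100)]
    have h8 := tdiv hx0 h3
    linarith

private theorem m2 {x n s W : ℝ} (hx0 : 0 ≤ x) (hx3 : x ≤ 3) (hn : n ≤ 53 / 100) (hs : 2 ≤ s)
    (hW : W ≤ 0) :
    x / 4 + n / 10 - 147 / 800 * (x * n) + 2 / 5 ≤
      s / (1 + x) * s + x * (1 - s / (1 + x)) - n * s - W := by
  have h3 : 0 ≤ (1 + x) * (x - n * s - (x / 4 + n / 10 - 147 / 800 * (x * n) + 2 / 5)) +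
      s * (s - x) := by
    have h4 : 0 ≤ (53 / 100 - n) * (s + 1 / 10 - 147 / 800 * x) :=
      mul_nonneg (by linarith) (by linarith)
    have h5 : 0 ≤ (1 + x) * ((53 / 100 - n) * (s + 1 / 10 - 147 / 800 * x)) :=
      mul_nonneg (by linarith) h4
    have h6 : 0 ≤ s * s - x * s + (1 + x) * (8473875 / 10000000 * x - 453 / 1000 -
        53 / 100 * s) := by
      rcases le_total x (3 / 2) with hx | hx
      · have h7 : 0 ≤ (s - 2) * (s + 147 / 100 - 153 / 100 * x) :=
          mul_nonneg (by linarith) (by linarith)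
        nlinarith [sq_nonneg (x - 1573 / 1000)]
      · nlinarith [sq_nonneg (s - (153 / 100 * x + 53 / 100) / 2),
          mul_nonneg (sub_nonneg.2 hx) (sub_nonneg.2 hx)]
    nlinarith
  have h8 := tdiv hx0 h3
  linarith

private theorem m3 {x n s c σ A : ℝ} (hx0 : 0 ≤ x) (hn0 : 0 ≤ n)
    (hn : n ≤ 53 / 100) (hs : 1 + x ≤ s) (hc : c ≤ 708 / 10000) (hσ : 0 ≤ σ)
    (hA : 0 ≤ A) (hA1 : A ≤ 3679 / 10000) :
    x / 4 + n / 10 - 147 / 800 * (x * n) + 2 / 5 ≤
      1 * s + x * (1 - 1) - n * s - A * (x * c - n * σ) := by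
  have h1 : A * (x * c - n * σ) ≤ 3679 / 10000 * (708 / 10000 * x) := by
    have h2 := mul_le_mul_of_nonneg_left hc hx0
    have h3 := mul_nonneg hn0 hσ
    have h4 : A * (x * c - n * σ) ≤ A * (708 / 10000 * x) :=
      mul_le_mul_of_nonneg_left (by linarith) hA
    have h5 : A * (708 / 10000 * x) ≤ 3679 / 10000 * (708 / 10000 * x) :=
      mul_le_mul_of_nonneg_right hA1 (by positivity)
    linarith
  have h6 : 0 ≤ (s - (1 + x)) * (1 - n) := mul_nonneg (by linarith) (by linarith)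
  have h7 : 0 ≤ (53 / 100 - n) * (11 / 10 + x - 147 / 800 * x) :=
    mul_nonneg (by linarith) (by linarith)
  nlinarith

private theorem m4 {x n s c σ A : ℝ} (hx0 : 0 ≤ x) (hx3 : x ≤ 3) (hn0 : 0 ≤ n)
    (hn : n ≤ 53 / 100) (hs : 314 / 100 ≤ s) (hc : c ≤ 0) (hσ : -1 ≤ σ)
    (hA : 0 ≤ A) (hA1 : A ≤ 3679 / 10000) :
    x / 4 + n / 10 - 147 / 800 * (x * n) + 2 / 5 ≤
      1 * s + x * (1 - 1) - n * s - A * (x * c - n * σ) := by
  have h1 : A * (x * c - n * σ) ≤ 3679 / 10000 * n := by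
    have h2 := mul_nonpos_of_nonneg_of_nonpos hx0 hc
    have h3 := mul_le_mul_of_nonneg_left hσ hn0
    have h4 : A * (x * c - n * σ) ≤ A * n :=
      mul_le_mul_of_nonneg_left (by linarith) hA
    have h5 : A * n ≤ 3679 / 10000 * n := mul_le_mul_of_nonneg_right hA1 hn0
    linarith
  have h6 : 0 ≤ (s - 314 / 100) * (1 - n) := mul_nonneg (by linarith) (by linarith)
  have h7 : 0 ≤ (3 - x) * (1 / 4 - 147 / 800 * n) := mul_nonneg (by linarith) (by linarith)
  nlinarith

private theorem m5 {x n s c σ A K : ℝ} (hx0 : 0 ≤ x) (hx3 : x ≤ 3) (hn0 : 0 ≤ n)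
    (hn : n ≤ 53 / 100) (hs : 471 / 100 ≤ s) (hK0 : 0 < K) (hK : K ^ 2 = x ^ 2 + n ^ 2)
    (hK1 : K ≤ x + 2 / 5 * n) (hcσ : σ ^ 2 + c ^ 2 = 1) (hA : 0 ≤ A) (hA1 : A ≤ 3679 / 10000) :
    x / 4 + n / 10 - 147 / 800 * (x * n) + 2 / 5 ≤
      1 * s + x * (1 - 1) - n * s - A * (x * c - n * σ) ∧
    (628 / 100 ≤ s → x / 4 + n / 10 - 147 / 800 * (x * n) + 2 / 5 + 2 / 5 * (s - 628 / 100) ≤
      1 * s + x * (1 - 1) - n * s - A * (x * c - n * σ)) := by
  have h0 : x * c - n * σ ≤ K := by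
    by_contra hc
    push Not at hc
    have h1 := pow_lt_pow_left₀ hc hK0.le two_ne_zero
    have h2 : (x * c - n * σ) ^ 2 + (x * σ + n * c) ^ 2 = K ^ 2 := by
      rw [hK]
      linear_combination (x ^ 2 + n ^ 2) * hcσ
    nlinarith [sq_nonneg (x * σ + n * c)]
  have h1 : A * (x * c - n * σ) ≤ 3679 / 10000 * (x + 2 / 5 * n) := by
    have h4 : A * (x * c - n * σ) ≤ A * (x + 2 / 5 * n) :=
      mul_le_mul_of_nonneg_left (by linarith) hA
    have h5 : A * (x + 2 / 5 * n) ≤ 3679 / 10000 * (x + 2 / 5 * n) :=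
      mul_le_mul_of_nonneg_right hA1 (by positivity)
    linarith
  have h7 : 0 ≤ (3 - x) * (1 / 4 - 147 / 800 * n) := mul_nonneg (by linarith) (by linarith)
  constructor
  · have h6 : 0 ≤ (s - 471 / 100) * (1 - n) := mul_nonneg (by linarith) (by linarith)
    nlinarith
  · intro hs2
    have h6 : 0 ≤ (s - 628 / 100) * (3 / 5 - n) := mul_nonneg (by linarith) (by linarith)
    nlinarith

private theorem p1 {x n s c σ E a : ℝ} (hx0 : 0 ≤ x) (hn0 : 0 ≤ n)
    (hn : n ≤ 53 / 100) (hs : 3 / 2 ≤ s) (hc : c ≤ 708 / 10000) (hσ : σ ≤ 1) (hE : 0 ≤ E)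
    (hE1 : E ≤ 2719 / 1000) (ha : s ≤ a * s + x * a) :
    x / 4 + n / 10 - 147 / 800 * (x * n) + 2 / 5 ≤
      a * s + x * (1 + a) + n * s - E * (x * c + n * σ) := by
  have h1 : E * (x * c + n * σ) ≤ 2719 / 1000 * (708 / 10000 * x + n) := by
    have h2 := mul_le_mul_of_nonneg_left hc hx0
    have h3 := mul_le_mul_of_nonneg_left hσ hn0
    have h4 : E * (x * c + n * σ) ≤ E * (708 / 10000 * x + n) :=
      mul_le_mul_of_nonneg_left (by linarith) hE
    have h5 : E * (708 / 10000 * x + n) ≤ 2719 / 1000 * (708 / 10000 * x + n) :=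
      mul_le_mul_of_nonneg_right hE1 (by positivity)
    linarith
  have h6 : 0 ≤ n * (s - 3 / 2) := mul_nonneg hn0 (by linarith)
  have h7 : 0 ≤ x * n := mul_nonneg hx0 hn0
  nlinarith

private theorem p2 {x n s c σ E : ℝ} (hx0 : 0 ≤ x) (hx3 : x ≤ 3) (hn0 : 0 ≤ n)
    (hn : n ≤ 53 / 100) (hs : 471 / 100 ≤ s) (hc : c ≤ 1) (hσ : σ ≤ 1) (hE : 0 ≤ E)
    (hE1 : E ≤ 2719 / 1000) :
    x / 4 + n / 10 - 147 / 800 * (x * n) + 2 / 5 ≤
      1 * s + x * (1 + 1) + n * s - E * (x * c + n * σ) ∧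
    (628 / 100 ≤ s → x / 4 + n / 10 - 147 / 800 * (x * n) + 2 / 5 + 2 / 5 * (s - 628 / 100) ≤
      1 * s + x * (1 + 1) + n * s - E * (x * c + n * σ)) := by
  have h1 : E * (x * c + n * σ) ≤ 2719 / 1000 * (x + n) := by
    have h2 := mul_le_mul_of_nonneg_left hc hx0
    have h3 := mul_le_mul_of_nonneg_left hσ hn0
    have h4 : E * (x * c + n * σ) ≤ E * (x + n) :=
      mul_le_mul_of_nonneg_left (by linarith) hE
    have h5 : E * (x + n) ≤ 2719 / 1000 * (x + n) :=
      mul_le_mul_of_nonneg_right hE1 (by positivity)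
    linarith
  have h6 : 0 ≤ n * (s - 471 / 100) := mul_nonneg hn0 (by linarith)
  have h7 : 0 ≤ x * n := mul_nonneg hx0 hn0
  constructor
  · nlinarith
  · intro hs2
    nlinarith

theorem ptsm : PTSm := by
  intro x y K ρ d ε s h hx3 hy hε hs
  obtain ⟨hT, hK1⟩ := tT h hy
  have hx0 := h.x0
  have hn0 : 0 ≤ -y := by linarith
  have hn : -y ≤ 53 / 100 := by linarith [h.lo]
  have hK0 := h.K0
  have hK2 : K ^ 2 = x ^ 2 + (-y) ^ 2 := by
    rw [h.hK]
    ring
  have hpi := pi_gt_d4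
  have hpi' := pi_lt_d4
  have he : exp 1 ≤ 2719 / 1000 := by
    have := exp_one_lt_d9
    linarith
  rcases hε with rfl | rfl
  · rw [hqp]
    rcases le_total s (π + π / 2) with hs1 | hs1
    · have ha : exp (ab x s) ≤ exp 1 ∧ s ≤ ab x s * s + x * ab x s := by
        rcases le_total s (1 + x) with h1 | h1
        · rw [ta_lo hx3 h1]
          have h2 : 0 < 1 + x := by linarith
          constructor
          · rw [exp_le_exp, div_le_one h2]
            exact h1
          · have h3 : s / (1 + x) * s + x * (s / (1 + x)) = s * (s + x) / (1 + x) := by ring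
            rw [h3, le_div_iff₀ h2]
            nlinarith
        · rw [ta_hi hx0 hx3 h1]
          constructor
          · exact le_refl _
          · linarith
      have h1 := p1 hx0 hn0 hn hs (tcos hs hs1) (sin_le_one s) (exp_pos (ab x s)).le
        (ha.1.trans he) ha.2
      refine ⟨hT.trans h1, fun h2 => ?_⟩
      exfalso
      linarith
    · rw [ta_hi hx0 hx3 (by linarith)]
      obtain ⟨h1, h2⟩ := p2 hx0 hx3 hn0 hn (by linarith) (cos_le_one s) (sin_le_one s)
        (exp_pos 1).le he (s := s)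
      refine ⟨hT.trans h1, fun h3 => ?_⟩
      have h4 := h2 (by linarith)
      linarith
  · rw [hqm]
    rcases le_total s (1 + x) with h1 | h1
    · rw [ta_lo hx3 h1]
      have h2 : 0 < 1 + x := by linarith
      have ha1 : s / (1 + x) ≤ 1 := by
        rw [div_le_one h2]
        exact h1
      have ha0 : 0 ≤ s / (1 + x) := by positivity
      have hA1 : exp (-(s / (1 + x))) ≤ 1 := by
        rw [exp_le_one_iff]
        linarith
      have hA : 3678 / 10000 ≤ exp (-(s / (1 + x))) := by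
        refine te_lo.trans ?_
        rw [exp_le_exp]
        linarith
      have hvac : ∀ b c : ℝ, 2 * π ≤ s → b ≤ c := by
        intro b c h3
        exfalso
        linarith
      rcases le_total s 2 with h3 | h3
      · exact ⟨hT.trans (m1 hx0 hx3 hn0 hn hs h3 (tcos hs (by linarith)) (tsin hs h3) hA hA1),
          hvac _ _⟩
      · have hW : exp (-(s / (1 + x))) * (x * cos s - (-y) * sin s) ≤ 0 := by
          apply mul_nonpos_of_nonneg_of_nonpos (exp_pos _).le
          rcases le_total s π with h4 | h4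
          · have h5 := cos_nonpos_of_pi_div_two_le_of_le (x := s) (by linarith) (by linarith)
            have h6 := sin_nonneg_of_nonneg_of_le_pi (x := s) (by linarith) h4
            have h7 := mul_nonpos_of_nonneg_of_nonpos hx0 h5
            have h8 := mul_nonneg hn0 h6
            linarith
          · have h5 : cos s ≤ -(6 / 10) := by
              have h6 : cos s = -cos (s - π) := by rw [cos_sub_pi, neg_neg]
              have h7 := one_sub_sq_div_two_le_cos (x := s - π)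
              have h8 : (s - π) ^ 2 ≤ (86 / 100) ^ 2 := by
                apply sq_le_sq'
                · linarith
                · linarith
              rw [h6]
              nlinarith
            have h6 := neg_one_le_sin s
            have h7 := mul_le_mul_of_nonneg_left h5 hx0
            have h8 := mul_le_mul_of_nonneg_left h6 hn0
            have h9 : 214 / 100 ≤ x := by linarith
            linarith
        exact ⟨hT.trans (m2 hx0 hx3 hn h3 hW), hvac _ _⟩
    · rw [ta_hi hx0 hx3 h1]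
      have hA0 := (exp_pos (-1)).le
      rcases le_total s π with h3 | h3
      · refine ⟨hT.trans (m3 hx0 hn0 hn h1 (tcos hs (by linarith))
          (sin_nonneg_of_nonneg_of_le_pi (by linarith) h3) hA0 te_hi), fun h4 => ?_⟩
        exfalso
        linarith
      · rcases le_total s (π + π / 2) with h4 | h4
        · refine ⟨hT.trans (m4 hx0 hx3 hn0 hn (by linarith)
            (cos_nonpos_of_pi_div_two_le_of_le (by linarith) h4) (neg_one_le_sin s) hA0 te_hi),
            fun h5 => ?_⟩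
          exfalso
          linarith
        · obtain ⟨h5, h6⟩ := m5 hx0 hx3 hn0 hn (by linarith) hK0 hK2 hK1 (sin_sq_add_cos_sq s)
            hA0 te_hi (s := s)
          refine ⟨hT.trans h5, fun h7 => ?_⟩
          have h8 := h6 (by linarith)
          linarith


end SokalV3T
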