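import Pool.Agent.Lib_MP_af4de1_v3.TailH
import Pool.Agent.Lib_MP_af4de1_f1.GTay

/-!
# Tails of regime I, `x ≤ 3`, `y ≥ 0`

`ε = 1`, `4 ≤ s ≤ 2 π`: the height is linear in `(x, y)`; vertices `(0,0)`, `(.7,.56)`, `(1.6102,.56)`, `(3,.396)`.
The other ranges are crude.
-/

set_option autoImplicit false

namespace SokalV3T

open Real SokalF1G

theorem hq_p (x y s : ℝ) : hq x y 1 s =
    ab x s * s + x * (1 + ab x s) - y * s - exp (ab x s) * (x * cos s) +
      exp (ab x s) * (y * sin s) := by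
  simp only [hq, Ha, one_mul]; ring

theorem hq_m (x y s : ℝ) : hq x y (-1) s =
    ab x s * s + x * (1 - ab x s) + y * s - exp (-ab x s) * (x * cos s) -
      exp (-ab x s) * (y * sin s) := by
  simp only [hq, Ha, neg_mul, one_mul, cos_neg, sin_neg]; ring

theorem ab_one {x s : ℝ} (hx : 0 ≤ x) (h3 : x ≤ 3) (hs : 1 + x ≤ s) : ab x s = 1 := by
  unfold ab
  rw [min_eq_right (by linarith : 1 + x ≤ 137 / 25), min_eq_left hs]
  exact div_self (by positivity)

theorem ab_mul {x s : ℝ} (hx : 0 ≤ x) (h3 : x ≤ 3) (hs : s ≤ 1 + x) :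
    ab x s * (1 + x) = s := by
  unfold ab
  rw [min_eq_right (by linarith : 1 + x ≤ 137 / 25), min_eq_right hs]
  field_simp

theorem ab_le1 {x s : ℝ} (hx : 0 ≤ x) : ab x s ≤ 1 := by
  unfold ab
  rw [div_le_one (by positivity)]
  exact (min_le_left _ _).trans (min_le_right _ _)

theorem ab_nn {x s : ℝ} (hx : 0 ≤ x) (hs : 0 ≤ s) : 0 ≤ ab x s := by
  unfold ab
  have : (0 : ℝ) ≤ min (min (137 / 25) (1 + x)) s :=
    le_min (le_min (by norm_num) (by linarith)) hs
  positivity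

theorem e1lt : exp 1 ≤ (27183 / 10000 : ℝ) := by
  have := Real.exp_one_lt_d9
  linarith

theorem e1gt : (27182 / 10000 : ℝ) ≤ exp 1 := by
  have := Real.exp_one_gt_d9
  linarith

/-- `cos s ≤ .0708` on `[3/2, 3 π / 2]` -/
theorem cos_le0708 {s : ℝ} (h1 : 3 / 2 ≤ s) (h2 : s ≤ 3 * π / 2) : cos s ≤ 708 / 10000 := by
  have hp := Real.pi_lt_d4
  rcases le_total s (π / 2) with h | h
  · have h3 : cos s = sin (π / 2 - s) := by rw [sin_pi_div_two_sub]
    have h4 : sin (π / 2 - s) ≤ π / 2 - s := Real.sin_le (by linarith)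
    rw [h3]; linarith
  · have := Real.cos_nonpos_of_pi_div_two_le_of_le h (by linarith)
    linarith

/-- the line bound for `y` -/
theorem lineA {x y K ρ d : ℝ} (h : RF x y K ρ d) (h3 : x ≤ 3) (hy : 0 ≤ y) :
    y ≤ 3 / 4 - 118 / 1000 * x := by
  by_contra hc
  push Not at hc
  have hi := h.hi
  rcases le_total x (161 / 100) with h1 | h1
  · linarith
  have hep := h.ep hy
  have hK := h.hK
  have hK0 := h.K0
  have hp := Real.pi_lt_d4
  obtain ⟨L, hL⟩ : ∃ L : ℝ, L = 3 / 4 - 118 / 1000 * x := ⟨_, rfl⟩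
  rw [← hL] at hc
  have hx0 : 0 < x := by linarith
  have hL0 : 0 < L := by rw [hL]; linarith
  have hL1 : L ≤ 56003 / 100000 := by rw [hL]; linarith
  -- K lower bound
  have hK1 : x + 4849 / 10000 * L ^ 2 / x ≤ K := by
    refine (sq_le_sq₀ (by positivity) hK0.le).mp ?_
    rw [hK]
    have e1 : (x + 4849 / 10000 * L ^ 2 / x) ^ 2 =
        x ^ 2 + 2 * (4849 / 10000) * L ^ 2 + (4849 / 10000) ^ 2 * L ^ 2 * (L / x) ^ 2 := by
      field_simp
      ring
    have e2 : L / x ≤ 348 / 1000 := by rw [div_le_iff₀ hx0]; linarith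
    have e3 : (L / x) ^ 2 ≤ (348 / 1000) ^ 2 := by gcongr
    have e4 : L ^ 2 ≤ y ^ 2 := by gcongr
    rw [e1]
    nlinarith [sq_nonneg L]
  have hE : L + L ^ 2 / 2 + L ^ 3 / 6 ≤ exp y - 1 := by
    have a1 := e_ge3 hL0.le
    have a2 : exp L ≤ exp y := Real.exp_le_exp.mpr hc.le
    linarith
  have hyK : 94 / 100 * L / x ≤ y / K := by
    rw [div_le_div_iff₀ hx0 hK0]
    have b1 : 94 / 100 * K ≤ x := by
      refine (sq_le_sq₀ (by positivity) hx0.le).mp ?_
      rw [mul_pow, hK]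
      nlinarith [h.hi]
    nlinarith
  have h5 : (x + 4849 / 10000 * L ^ 2 / x) * (L + L ^ 2 / 2 + L ^ 3 / 6) ≤ K * (exp y - 1) := by
    gcongr
  have h6 : (x + 4849 / 10000 * L ^ 2 / x) * (L + L ^ 2 / 2 + L ^ 3 / 6) + 94 / 100 * L / x ≤
      π / 2 := by linarith
  have h7 : (x ^ 2 + 4849 / 10000 * L ^ 2) * (L + L ^ 2 / 2 + L ^ 3 / 6) + 94 / 100 * L ≤
      15708 / 10000 * x := by
    have h8 : (x ^ 2 + 4849 / 10000 * L ^ 2) * (L + L ^ 2 / 2 + L ^ 3 / 6) + 94 / 100 * L =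
      ((x + 4849 / 10000 * L ^ 2 / x) * (L + L ^ 2 / 2 + L ^ 3 / 6) + 94 / 100 * L / x) * x := by
      field_simp
    rw [h8]
    have : π / 2 ≤ 15708 / 10000 := by linarith
    nlinarith
  have hlt : 15708 / 10000 * x <
      (x ^ 2 + 4849 / 10000 * L ^ 2) * (L + L ^ 2 / 2 + L ^ 3 / 6) + 94 / 100 * L := by
    have hu : 0 ≤ x - 161 / 100 := by linarith
    have hv : 0 ≤ 3 - x := by linarith
    have p : ∀ i j : ℕ, 0 ≤ (x - 161 / 100) ^ i * (3 - x) ^ j := fun i j => by positivity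
    rw [hL]
    linarith [p 0 5, p 1 4, p 2 3, p 3 2, p 4 1, p 5 0]
  linarith

theorem e_le_of {a : ℝ} (h : a ≤ 1) : exp a ≤ 27183 / 10000 :=
  (Real.exp_le_exp.mpr h).trans e1lt

/-- `ε = 1`, `s ≤ π` -/
theorem sp_a {x y s : ℝ} (hx : 0 ≤ x) (h3 : x ≤ 3) (hy : 0 ≤ y) (hyx : y ≤ 4 / 5 * x)
    (hy1 : y ≤ 14 / 25) (hyl : y ≤ 3 / 4 - 118 / 1000 * x) (hs : 3 / 2 ≤ s) (hs2 : s ≤ π) :
    x / 5 + 8142 / 10000 ≤ hq x y 1 s := by
  have hpi := Real.pi_pos
  rw [hq_p]
  have ha1 := ab_le1 (s := s) hx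
  have ha0 := ab_nn hx (by linarith : 0 ≤ s)
  have hc := cos_le0708 hs (by linarith)
  have hsn : 0 ≤ sin s := Real.sin_nonneg_of_nonneg_of_le_pi (by linarith) hs2
  have hE := e_le_of ha1
  have hE0 := (Real.exp_pos (ab x s)).le
  have t1 : exp (ab x s) * (x * cos s) ≤ 1925 / 10000 * x := by
    have : x * cos s ≤ 708 / 10000 * x := by nlinarith
    calc exp (ab x s) * (x * cos s) ≤ exp (ab x s) * (708 / 10000 * x) := by gcongr
      _ ≤ 27183 / 10000 * (708 / 10000 * x) := by gcongr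
      _ ≤ _ := by linarith
  have t2 : 0 ≤ exp (ab x s) * (y * sin s) := by positivity
  rcases le_total (1 + x) s with h | h
  · rw [ab_one hx h3 h] at *
    nlinarith
  · have hm := ab_mul hx h3 h
    have g : 0 ≤ (ab x s * s + x * (1 + ab x s) - y * s - 1925 / 10000 * x -
        (x / 5 + 8142 / 10000)) * (1 + x) := by
      have e1 : (ab x s * s + x * (1 + ab x s) - y * s - 1925 / 10000 * x -
        (x / 5 + 8142 / 10000)) * (1 + x) = s * s + x * (1 + x) + x * s - y * (s * (1 + x)) -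
          (3925 / 10000 * x + 8142 / 10000) * (1 + x) := by
        have : ab x s * s * (1 + x) = s * s := by rw [mul_right_comm, hm]
        have : x * ab x s * (1 + x) = x * s := by rw [mul_assoc, hm]
        linarith
      rw [e1]
      have e2 : y * (s * (1 + x)) ≤ (3 / 4 - 118 / 1000 * x) * (s * (1 + x)) := by gcongr
      nlinarith [mul_nonneg hx (by linarith : 0 ≤ s - 3 / 2), mul_nonneg (mul_nonneg hx hx) (by linarith : 0 ≤ s - 3 / 2), sq_nonneg (s - 3 / 2)]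
    have g2 := nonneg_of_mul_nonneg_left g (by linarith)
    linarith

/-- `ε = 1`, `π ≤ s ≤ 4` -/
theorem sp_b {x y s : ℝ} (hx : 0 ≤ x) (h3 : x ≤ 3) (hy : 0 ≤ y) (hyx : y ≤ 4 / 5 * x)
    (hy1 : y ≤ 14 / 25) (hs : π ≤ s) (hs2 : s ≤ 4) :
    x / 5 + 8142 / 10000 ≤ hq x y 1 s := by
  have hp := Real.pi_gt_d4
  rw [hq_p]
  have ha1 := ab_le1 (s := s) hx
  have ha0 := ab_nn hx (by linarith : 0 ≤ s)
  have hc : cos s ≤ 0 := Real.cos_nonpos_of_pi_div_two_le_of_le (by linarith) (by linarith)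
  have hsn : -(8585 / 10000) ≤ sin s := by
    have a1 : sin s = - sin (s - π) := by rw [sin_sub_pi]; ring
    have a2 : sin (s - π) ≤ s - π := Real.sin_le (by linarith)
    linarith
  have hE := e_le_of ha1
  have hE0 := (Real.exp_pos (ab x s)).le
  have t1 : exp (ab x s) * (x * cos s) ≤ 0 := by
    have : x * cos s ≤ 0 := mul_nonpos_of_nonneg_of_nonpos hx hc
    exact mul_nonpos_of_nonneg_of_nonpos hE0 this
  have t2 : -(23337 / 10000 * y) ≤ exp (ab x s) * (y * sin s) := by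
    have a1 : exp (ab x s) * (y * (8585 / 10000)) ≤ 27183 / 10000 * (y * (8585 / 10000)) := by
      gcongr
    have a2 : exp (ab x s) * (y * (-(8585 / 10000))) ≤ exp (ab x s) * (y * sin s) := by gcongr
    linarith
  rcases le_total (1 + x) s with h | h
  · rw [ab_one hx h3 h] at *
    rcases le_total x (6 / 10) with h6 | h6
    · nlinarith
    · nlinarith
  · have hm := ab_mul hx h3 h
    have g : 0 ≤ (ab x s * s + x * (1 + ab x s) - y * s - 23337 / 10000 * y -
        (x / 5 + 8142 / 10000)) * (1 + x) := by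
      have e1 : (ab x s * s + x * (1 + ab x s) - y * s - 23337 / 10000 * y -
        (x / 5 + 8142 / 10000)) * (1 + x) = s * s + x * (1 + x) + x * s -
          y * ((s + 23337 / 10000) * (1 + x)) - (1 / 5 * x + 8142 / 10000) * (1 + x) := by
        have : ab x s * s * (1 + x) = s * s := by rw [mul_right_comm, hm]
        have : x * ab x s * (1 + x) = x * s := by rw [mul_assoc, hm]
        linarith
      rw [e1]
      have hs0 : 0 ≤ (s + 23337 / 10000) * (1 + x) := by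
        apply mul_nonneg <;> linarith
      have e2 : y * ((s + 23337 / 10000) * (1 + x)) ≤
          14 / 25 * ((s + 23337 / 10000) * (1 + x)) := by gcongr
      nlinarith [mul_nonneg hx (by linarith : 0 ≤ s - 3), sq_nonneg (s - 3),
        mul_nonneg hx (by linarith : 0 ≤ x - 2)]
    have g2 := nonneg_of_mul_nonneg_left g (by linarith)
    linarith


/-- linear function on the polygon -/
theorem poly4 {x y A B C : ℝ} (hx : 0 ≤ x) (h3 : x ≤ 3) (hyx : y ≤ 4 / 5 * x)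
    (hy1 : y ≤ 14 / 25) (hyl : y ≤ 3 / 4 - 118 / 1000 * x) (hC : C ≤ 0)
    (f0 : 0 ≤ A) (f1 : 0 ≤ A + 7 / 10 * B + 14 / 25 * C) (f2 : 0 ≤ A + 16102 / 10000 * B + 14 / 25 * C)
    (f3 : 0 ≤ A + 3 * B + 396 / 1000 * C) : 0 ≤ A + B * x + C * y := by
  rcases le_total x (7 / 10) with h | h
  · have : C * (4 / 5 * x) ≤ C * y := mul_le_mul_of_nonpos_left hyx hC
    nlinarith
  rcases le_total x (16102 / 10000) with h' | h'
  · have : C * (14 / 25) ≤ C * y := mul_le_mul_of_nonpos_left hy1 hC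
    nlinarith [mul_nonneg (sub_nonneg.mpr h) f2, mul_nonneg (sub_nonneg.mpr h') f1]
  · have : C * (3 / 4 - 118 / 1000 * x) ≤ C * y := mul_le_mul_of_nonpos_left hyl hC
    nlinarith [mul_nonneg (sub_nonneg.mpr h') f3, mul_nonneg (sub_nonneg.mpr h3) f2]


theorem ver1 {u : ℝ} (h0 : 0 ≤ u) (h1 : u ≤ 22832 / 10000) :
    0 ≤ (62831 / 10000 - u - 8142 / 10000) +
      7 / 10 * (18 / 10 - (27182 / 10000 * (1 - u ^ 2 / 2 + u ^ 4 / 24) + 1 / 10000)) +
      14 / 25 * (-(62831 / 10000 - u) - 27183 / 10000 * (u - u ^ 3 / 6 + u ^ 5 / 120)) := by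
  rcases le_total u (2 / 5) with h | h
  · have p : ∀ i j : ℕ, 0 ≤ u ^ i * (2 / 5 - u) ^ j := fun i j => by
      have : 0 ≤ 2 / 5 - u := by linarith
      positivity
    linarith [p 0 5, p 1 4, p 2 3, p 3 2, p 4 1, p 5 0]
  rcases le_total u 1 with h' | h'
  · have p : ∀ i j : ℕ, 0 ≤ (u - 2 / 5) ^ i * (1 - u) ^ j := fun i j => by
      have : 0 ≤ 1 - u := by linarith
      have : 0 ≤ u - 2 / 5 := by linarith
      positivity
    linarith [p 0 5, p 1 4, p 2 3, p 3 2, p 4 1, p 5 0]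
  · have p : ∀ i j : ℕ, 0 ≤ (u - 1) ^ i * (22832 / 10000 - u) ^ j := fun i j => by
      have : 0 ≤ 22832 / 10000 - u := by linarith
      have : 0 ≤ u - 1 := by linarith
      positivity
    linarith [p 0 5, p 1 4, p 2 3, p 3 2, p 4 1, p 5 0]

theorem ver2 {u : ℝ} (h0 : 0 ≤ u) (h1 : u ≤ 22832 / 10000) :
    0 ≤ (62831 / 10000 - u - 8142 / 10000) +
      16102 / 10000 * (18 / 10 - (27182 / 10000 * (1 - u ^ 2 / 2 + u ^ 4 / 24) + 1 / 10000)) +
      14 / 25 * (-(62831 / 10000 - u) - 27183 / 10000 * (u - u ^ 3 / 6 + u ^ 5 / 120)) := by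
  rcases le_total u (2 / 5) with h | h
  · have p : ∀ i j : ℕ, 0 ≤ u ^ i * (2 / 5 - u) ^ j := fun i j => by
      have : 0 ≤ 2 / 5 - u := by linarith
      positivity
    linarith [p 0 5, p 1 4, p 2 3, p 3 2, p 4 1, p 5 0]
  rcases le_total u 1 with h' | h'
  · have p : ∀ i j : ℕ, 0 ≤ (u - 2 / 5) ^ i * (1 - u) ^ j := fun i j => by
      have : 0 ≤ 1 - u := by linarith
      have : 0 ≤ u - 2 / 5 := by linarith
      positivity
    linarith [p 0 5, p 1 4, p 2 3, p 3 2, p 4 1, p 5 0]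
  · have p : ∀ i j : ℕ, 0 ≤ (u - 1) ^ i * (22832 / 10000 - u) ^ j := fun i j => by
      have : 0 ≤ 22832 / 10000 - u := by linarith
      have : 0 ≤ u - 1 := by linarith
      positivity
    linarith [p 0 5, p 1 4, p 2 3, p 3 2, p 4 1, p 5 0]

theorem ver3 {u : ℝ} (h0 : 0 ≤ u) (h1 : u ≤ 22832 / 10000) :
    0 ≤ (62831 / 10000 - u - 8142 / 10000) +
      3 * (18 / 10 - (27182 / 10000 * (1 - u ^ 2 / 2 + u ^ 4 / 24) + 1 / 10000)) +
      396 / 1000 * (-(62831 / 10000 - u) - 27183 / 10000 * (u - u ^ 3 / 6 + u ^ 5 / 120)) := by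
  rcases le_total u (2 / 5) with h | h
  · have p : ∀ i j : ℕ, 0 ≤ u ^ i * (2 / 5 - u) ^ j := fun i j => by
      have : 0 ≤ 2 / 5 - u := by linarith
      positivity
    linarith [p 0 5, p 1 4, p 2 3, p 3 2, p 4 1, p 5 0]
  rcases le_total u 1 with h' | h'
  · have p : ∀ i j : ℕ, 0 ≤ (u - 2 / 5) ^ i * (1 - u) ^ j := fun i j => by
      have : 0 ≤ 1 - u := by linarith
      have : 0 ≤ u - 2 / 5 := by linarith
      positivity
    linarith [p 0 5, p 1 4, p 2 3, p 3 2, p 4 1, p 5 0]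
  · have p : ∀ i j : ℕ, 0 ≤ (u - 1) ^ i * (22832 / 10000 - u) ^ j := fun i j => by
      have : 0 ≤ 22832 / 10000 - u := by linarith
      have : 0 ≤ u - 1 := by linarith
      positivity
    linarith [p 0 5, p 1 4, p 2 3, p 3 2, p 4 1, p 5 0]

/-- `ε = 1`, `4 ≤ s ≤ 2 π` -/
theorem sp_c {x y s : ℝ} (hx : 0 ≤ x) (h3 : x ≤ 3) (hy : 0 ≤ y) (hyx : y ≤ 4 / 5 * x)
    (hy1 : y ≤ 14 / 25) (hyl : y ≤ 3 / 4 - 118 / 1000 * x) (hs : 4 ≤ s) (hs2 : s ≤ 2 * π) :
    x / 5 + 8142 / 10000 ≤ hq x y 1 s := by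
  have hp := Real.pi_gt_d6
  have hp2 := Real.pi_lt_d4
  rw [hq_p, ab_one hx h3 (by linarith)]
  obtain ⟨u, hu⟩ : ∃ u, u = 2 * π - s := ⟨_, rfl⟩
  have hsu : s = 2 * π - u := by linarith
  have hu0 : 0 ≤ u := by linarith
  have hu1 : u ≤ 22832 / 10000 := by linarith
  have hcos : cos s = cos u := by rw [hsu, cos_two_pi_sub]
  have hsin : sin s = - sin u := by rw [hsu, sin_two_pi_sub]
  rw [hcos, hsin]
  have hc4 := cos_le4 hu0
  have hs5 := sin_le5 hu0
  have hsn : 0 ≤ sin u := Real.sin_nonneg_of_nonneg_of_le_pi hu0 (by linarith)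
  have e1 := e1lt
  have e2 := e1gt
  have k1 : exp 1 * cos u ≤ 27182 / 10000 * (1 - u ^ 2 / 2 + u ^ 4 / 24) + 1 / 10000 := by
    have b0 : u ^ 2 ≤ 12 := by nlinarith
    have b1 : 1 - u ^ 2 / 2 + u ^ 4 / 24 ≤ 1 := by
      nlinarith [mul_nonneg (sq_nonneg u) (sub_nonneg.2 b0)]
    have b2 : exp 1 * cos u ≤ exp 1 * (1 - u ^ 2 / 2 + u ^ 4 / 24) := by gcongr
    nlinarith
  have k2 : exp 1 * sin u ≤ 27183 / 10000 * (u - u ^ 3 / 6 + u ^ 5 / 120) := by
    calc exp 1 * sin u ≤ 27183 / 10000 * sin u := by gcongr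
      _ ≤ _ := by gcongr
  have hs50 : 0 ≤ u - u ^ 3 / 6 + u ^ 5 / 120 := hsn.trans hs5
  have key := poly4 hx h3 hyx hy1 hyl (A := 62831 / 10000 - u - 8142 / 10000)
    (B := 18 / 10 - (27182 / 10000 * (1 - u ^ 2 / 2 + u ^ 4 / 24) + 1 / 10000))
    (C := -(62831 / 10000 - u) - 27183 / 10000 * (u - u ^ 3 / 6 + u ^ 5 / 120))
    (by nlinarith) (by linarith) (ver1 hu0 hu1) (ver2 hu0 hu1) (ver3 hu0 hu1)
  have k3 : exp 1 * (x * cos u) ≤
      (27182 / 10000 * (1 - u ^ 2 / 2 + u ^ 4 / 24) + 1 / 10000) * x := by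
    have := mul_le_mul_of_nonneg_right k1 hx
    linarith
  have k4 : exp 1 * (y * sin u) ≤
      (27183 / 10000 * (u - u ^ 3 / 6 + u ^ 5 / 120)) * y := by
    have := mul_le_mul_of_nonneg_right k2 hy
    linarith
  have k5 : (1 - y) * (62831 / 10000 - u) ≤ (1 - y) * s := by
    have : 0 ≤ 1 - y := by linarith
    gcongr
    linarith
  nlinarith

/-- `ε = 1`, `s ≥ 2 π` -/
theorem sp_d {x y s : ℝ} (hx : 0 ≤ x) (h3 : x ≤ 3) (hy : 0 ≤ y) (hyx : y ≤ 4 / 5 * x)
    (hy1 : y ≤ 14 / 25) (hyl : y ≤ 3 / 4 - 118 / 1000 * x) (hs : 2 * π ≤ s) :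
    x / 5 + 8142 / 10000 + 2 / 5 * (s - 2 * π) ≤ hq x y 1 s := by
  have hp := Real.pi_gt_d4
  have hp2 := Real.pi_lt_d4
  rw [hq_p, ab_one hx h3 (by linarith)]
  obtain ⟨v, hv⟩ : ∃ v, v = s - 2 * π := ⟨_, rfl⟩
  have hsv : s = v + 2 * π := by linarith
  have hv0 : 0 ≤ v := by linarith
  have hcos : cos s = cos v := by rw [hsv, cos_add_two_pi]
  have hsin : sin s = sin v := by rw [hsv, sin_add_two_pi]
  rw [hcos, hsin]
  have e1 := e1lt
  have e2 := e1gt
  have hE0 := (Real.exp_pos 1).le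
  rcases le_total v π with h | h
  · have hsn : 0 ≤ sin v := Real.sin_nonneg_of_nonneg_of_le_pi hv0 h
    have t2 : 0 ≤ exp 1 * (y * sin v) := by positivity
    have t1 : exp 1 * (x * cos v) ≤ 27183 / 10000 * x := by
      calc exp 1 * (x * cos v) ≤ exp 1 * (x * 1) := by gcongr; exact cos_le_one v
        _ ≤ 27183 / 10000 * (x * 1) := by gcongr
        _ = _ := by ring
    have key := poly4 hx h3 hyx hy1 hyl (A := 62830 / 10000 - 8142 / 10000)
      (B := -(9183 / 10000)) (C := -(62832 / 10000)) (by norm_num) (by norm_num) (by norm_num)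
      (by norm_num) (by norm_num)
    have k1 : 2 / 5 * v ≤ (1 - y) * v := by gcongr; linarith
    have k2 : y * (2 * π) ≤ y * (62832 / 10000) := by gcongr; linarith
    rw [hsv]
    nlinarith
  · have hK : exp 1 * (x * cos v) - exp 1 * (y * sin v) ≤ 27183 / 10000 * √(x ^ 2 + y ^ 2) := by
      have a1 : x * cos v - y * sin v ≤ √(x ^ 2 + y ^ 2) := by
        apply Real.le_sqrt_of_sq_le
        nlinarith [sq_nonneg (x * sin v + y * cos v), sin_sq_add_cos_sq v]
      have a0 : 0 ≤ √(x ^ 2 + y ^ 2) := Real.sqrt_nonneg _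
      calc exp 1 * (x * cos v) - exp 1 * (y * sin v) = exp 1 * (x * cos v - y * sin v) := by ring
        _ ≤ exp 1 * √(x ^ 2 + y ^ 2) := by gcongr
        _ ≤ _ := by gcongr
    have k1 : 2 / 5 * v + π * (6 / 10 - y) ≤ (1 - y) * v := by nlinarith
    have k2 : y * (3 * π) ≤ y * (94248 / 10000) := by gcongr; linarith
    rcases le_total x (7 / 5) with hx7 | hx7
    · have hs1 : √(x ^ 2 + y ^ 2) ≤ x + 2 / 5 * y := by
        apply Real.sqrt_le_iff.mpr
        constructor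
        · positivity
        · nlinarith
      rw [hsv]
      nlinarith
    · have hs1 : √(x ^ 2 + y ^ 2) ≤ x + 11 / 100 := by
        apply Real.sqrt_le_iff.mpr
        constructor
        · positivity
        · nlinarith
      rw [hsv]
      nlinarith

/-- `ε = -1` -/
theorem sp_m {x y s : ℝ} (hx : 0 ≤ x) (h3 : x ≤ 3) (hy : 0 ≤ y) (hs : 3 / 2 ≤ s) :
    x / 5 + 8142 / 10000 ≤ hq x y (-1) s ∧
      (2 * π ≤ s → x / 5 + 8142 / 10000 + 2 / 5 * (s - 2 * π) ≤ hq x y (-1) s) := by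
  have hp := Real.pi_gt_d4
  have hp2 := Real.pi_lt_d4
  rw [hq_m]
  have ha1 := ab_le1 (s := s) hx
  have ha0 := ab_nn hx (by linarith : 0 ≤ s)
  have hE : exp (-ab x s) ≤ 1 := Real.exp_le_one_iff.mpr (by linarith)
  have hE0 := (Real.exp_pos (-ab x s)).le
  have t2 : exp (-ab x s) * (y * sin s) ≤ y * s := by
    have : sin s ≤ s := Real.sin_le (by linarith)
    calc exp (-ab x s) * (y * sin s) ≤ exp (-ab x s) * (y * s) := by gcongr
      _ ≤ 1 * (y * s) := by gcongr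
      _ = _ := by ring
  rcases le_total (1 + x) s with h | h
  · rw [ab_one hx h3 h] at *
    have hE1 : exp (-1 : ℝ) ≤ 368 / 1000 := by
      rw [Real.exp_neg, inv_le_comm₀ (Real.exp_pos 1) (by norm_num)]
      have := e1gt
      norm_num
      linarith
    have t1 : exp (-1) * (x * cos s) ≤ 368 / 1000 * x := by
      calc exp (-1) * (x * cos s) ≤ exp (-1) * (x * 1) := by gcongr; exact cos_le_one s
        _ ≤ 368 / 1000 * (x * 1) := by gcongr
        _ = _ := by ring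
    constructor
    · nlinarith
    · intro h2
      nlinarith
  · have hc := cos_le0708 hs (by linarith)
    have t1 : exp (-ab x s) * (x * cos s) ≤ 708 / 10000 * x := by
      calc exp (-ab x s) * (x * cos s) ≤ exp (-ab x s) * (x * (708 / 10000)) := by gcongr
        _ ≤ 1 * (x * (708 / 10000)) := by gcongr
        _ = _ := by ring
    have hm := ab_mul hx h3 h
    have g : 0 ≤ (ab x s * s + x * (1 - ab x s) - 708 / 10000 * x -
        (x / 5 + 8142 / 10000)) * (1 + x) := by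
      have e1 : (ab x s * s + x * (1 - ab x s) - 708 / 10000 * x -
        (x / 5 + 8142 / 10000)) * (1 + x) = s * s + x * (1 + x) - x * s -
          (2708 / 10000 * x + 8142 / 10000) * (1 + x) := by
        have : ab x s * s * (1 + x) = s * s := by rw [mul_right_comm, hm]
        have : x * ab x s * (1 + x) = x * s := by rw [mul_assoc, hm]
        linarith
      rw [e1]
      nlinarith [mul_nonneg (by linarith : 0 ≤ s - 3 / 2) (by linarith : 0 ≤ s - x / 2), sq_nonneg (x - 1)]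
    have g2 := nonneg_of_mul_nonneg_left g (by linarith)
    constructor
    · linarith
    · intro h2
      linarith

theorem ptsp : PTSp := by
  intro x y K ρ d ε s h h3 hy hε hs
  have hx := h.x0
  have hyx : y ≤ 4 / 5 * x := by
    have := h.T
    rwa [abs_of_nonneg hy] at this
  have hy1 := h.hi
  have hyl := lineA h h3 hy
  have hR : ρ / 5 + 1 / 2 ≤ x / 5 + 8142 / 10000 := by
    have := h.ep' hy
    have := Real.pi_lt_d4
    linarith
  rcases hε with rfl | rfl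
  · have h2 : 2 * π ≤ s → ρ / 5 + 1 / 2 + 2 / 5 * (s - 2 * π) ≤ hq x y 1 s := fun h2 => by
      have := sp_d hx h3 hy hyx hy1 hyl h2
      linarith
    refine ⟨?_, h2⟩
    rcases le_total s π with h4 | h4
    · have := sp_a hx h3 hy hyx hy1 hyl hs h4
      linarith
    rcases le_total s 4 with h5 | h5
    · have := sp_b hx h3 hy hyx hy1 h4 h5
      linarith
    rcases le_total s (2 * π) with h6 | h6
    · have := sp_c hx h3 hy hyx hy1 hyl h5 h6
      linarith
    · have := h2 h6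
      linarith
  · obtain ⟨h1, h2⟩ := sp_m hx h3 hy hs
    exact ⟨by linarith, fun h' => by have := h2 h'; linarith⟩

end SokalV3T
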