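import Pool.Agent.Lib_MP_af4de1_v3.TailDef
import Pool.Agent.Lib_MP_af4de1_v3.Own1s

/-!
# Tails of regime I: weights, and `Tls` in terms of `JJ`
-/

set_option autoImplicit false

open Complex MeasureTheory Set SokalU SokalPG SokalF1 SokalF1S SokalF1M SokalF1G SokalF1B SokalV3

namespace SokalV3T

/-- `|e^(is) - 1| ≤ ||s| - 2π|` -/
theorem exp_I_sub (s : ℝ) : ‖cexp ((s : ℂ) * I) - 1‖ ≤ |(|s|) - 2 * Real.pi| := by
  have h1 : ∀ t : ℝ, ‖cexp ((t : ℂ) * I) - 1‖ ≤ |t - 2 * Real.pi| := by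
    intro t
    have e : cexp ((t : ℂ) * I) = cexp (I * ((t - 2 * Real.pi : ℝ) : ℂ)) := by
      have : (t : ℂ) * I = I * ((t - 2 * Real.pi : ℝ) : ℂ) + 2 * Real.pi * I := by
        push_cast
        ring
      rw [this, Complex.exp_add, Complex.exp_two_pi_mul_I, mul_one]
    rw [e]
    exact Real.norm_exp_I_mul_ofReal_sub_one_le
  rcases abs_cases s with ⟨h, _⟩ | ⟨h, _⟩
  · rw [h]
    exact h1 s
  · rw [h]
    have e : ‖cexp ((s : ℂ) * I) - 1‖ = ‖cexp (((-s : ℝ) : ℂ) * I) - 1‖ := by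
      have h2 : (starRingEnd ℂ) (cexp ((s : ℂ) * I) - 1) = cexp (((-s : ℝ) : ℂ) * I) - 1 := by
        rw [map_sub, ← Complex.exp_conj, map_mul, Complex.conj_ofReal, Complex.conj_I, map_one]
        push_cast
        ring_nf
      rw [← h2, Complex.norm_conj]
    rw [e]
    exact h1 (-s)

theorem exp_one_le : Real.exp 1 ≤ 27183 / 10000 := by
  have := Real.exp_one_lt_d9
  linarith

/-- `|e^σ - 1 - σ| ≤ 7.0016 + 3.7183 v` -/
theorem gs_lin {a s : ℝ} (ha : |a| ≤ 1) :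
    ‖gs ((a : ℂ) + s * I)‖ ≤ 70016 / 10000 + 37183 / 10000 * |(|s|) - 2 * Real.pi| := by
  obtain ⟨a0, a1⟩ := abs_le.1 ha
  have e : gs ((a : ℂ) + s * I) = (Real.exp a : ℂ) * (cexp ((s : ℂ) * I) - 1) +
      ((Real.exp a - 1 - a : ℝ) : ℂ) - (s : ℂ) * I := by
    unfold gs
    rw [Complex.exp_add]
    push_cast
    ring
  have h0 := exp_I_sub s
  have h1 : ‖(Real.exp a : ℂ) * (cexp ((s : ℂ) * I) - 1)‖ ≤
      27183 / 10000 * |(|s|) - 2 * Real.pi| := by
    rw [norm_mul, Complex.norm_real, Real.norm_eq_abs, abs_of_pos (Real.exp_pos a)]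
    have := (Real.exp_le_exp.2 a1).trans exp_one_le
    gcongr
  have h2 : ‖((Real.exp a - 1 - a : ℝ) : ℂ)‖ ≤ 7183 / 10000 := by
    rw [Complex.norm_real, Real.norm_eq_abs]
    have h3 := Real.add_one_le_exp a
    rw [abs_of_nonneg (by linarith)]
    rcases le_total 0 a with h | h
    · have h4 : Real.exp a ≤ (1 - a) * 1 + a * Real.exp 1 := by
        have := convexOn_exp.2 (mem_univ (0 : ℝ)) (mem_univ (1 : ℝ)) (by linarith : 0 ≤ 1 - a) h
          (by ring)
        simp only [smul_eq_mul, mul_zero, mul_one, zero_add, Real.exp_zero] at this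
        linarith
      have h5 := exp_one_le
      nlinarith
    · have h4 : Real.exp a ≤ 1 + a + a ^ 2 / 2 := by
        have h6 := Real.quadratic_le_exp_of_nonneg (x := -a) (by linarith)
        have h7 : Real.exp a * Real.exp (-a) = 1 := by rw [← Real.exp_add]; simp
        have h8 := Real.exp_pos a
        have h9 : 0 < 1 + a + a ^ 2 / 2 := by nlinarith [sq_nonneg (a + 1)]
        by_contra hc
        push Not at hc
        have h10 : (1 + a + a ^ 2 / 2) * (1 + -a + (-a) ^ 2 / 2) < 1 := by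
          calc (1 + a + a ^ 2 / 2) * (1 + -a + (-a) ^ 2 / 2)
              ≤ (1 + a + a ^ 2 / 2) * Real.exp (-a) := by gcongr
            _ < Real.exp a * Real.exp (-a) := by gcongr
            _ = 1 := h7
        nlinarith [sq_nonneg (a ^ 2)]
      nlinarith
  have h3 : ‖(s : ℂ) * I‖ ≤ 2 * Real.pi + |(|s|) - 2 * Real.pi| := by
    rw [norm_mul, Complex.norm_I, mul_one, Complex.norm_real, Real.norm_eq_abs]
    linarith [le_abs_self (|s| - 2 * Real.pi)]
  rw [e]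
  have h4 := norm_sub_le ((Real.exp a : ℂ) * (cexp ((s : ℂ) * I) - 1) +
      ((Real.exp a - 1 - a : ℝ) : ℂ)) ((s : ℂ) * I)
  have h5 := norm_add_le ((Real.exp a : ℂ) * (cexp ((s : ℂ) * I) - 1))
      ((Real.exp a - 1 - a : ℝ) : ℂ)
  have hp := Real.pi_lt_d4
  linarith

theorem exp69 (v : ℝ) (hv : 0 ≤ v) :
    1 + 69 / 100 * v + 238 / 1000 * v ^ 2 ≤ Real.exp (69 / 100 * v) := by
  have := Real.quadratic_le_exp_of_nonneg (x := 69 / 100 * v) (by positivity)
  nlinarith [sq_nonneg v]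

theorem gs_w {a s : ℝ} (ha : |a| ≤ 1) :
    ‖gs ((a : ℂ) + s * I)‖ ≤ 71 / 10 * Real.exp (69 / 100 * |(|s|) - 2 * Real.pi|) := by
  refine (gs_lin ha).trans ?_
  have hv := abs_nonneg (|s| - 2 * Real.pi)
  set v := |(|s|) - 2 * Real.pi|
  have := exp69 v hv
  nlinarith [sq_nonneg v]

theorem sgs_w {a s : ℝ} (ha : |a| ≤ 1) :
    ‖((a : ℂ) + s * I) * gs ((a : ℂ) + s * I)‖ ≤
      451 / 10 * Real.exp (69 / 100 * |(|s|) - 2 * Real.pi|) := by
  have h1 := gs_lin (s := s) ha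
  have hv := abs_nonneg (|s| - 2 * Real.pi)
  have h2 : ‖(a : ℂ) + s * I‖ ≤ 6363 / 1000 + |(|s|) - 2 * Real.pi| := by
    rw [Complex.norm_add_mul_I]
    apply Real.sqrt_le_iff.2
    refine ⟨by positivity, ?_⟩
    have h3 : a ^ 2 ≤ 1 := by
      rw [← sq_abs]
      exact pow_le_one₀ (abs_nonneg _) ha
    have h4 : |s| ≤ 2 * Real.pi + |(|s|) - 2 * Real.pi| := by
      linarith [le_abs_self (|s| - 2 * Real.pi)]
    have hp := Real.pi_lt_d4
    have hp3 := Real.pi_gt_three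
    have h5 : s ^ 2 ≤ (2 * 31416 / 10000 + |(|s|) - 2 * Real.pi|) ^ 2 := by
      rw [← sq_abs s]
      refine pow_le_pow_left₀ (abs_nonneg _) (by linarith) 2
    nlinarith
  rw [norm_mul]
  have h6 : ‖(a : ℂ) + s * I‖ * ‖gs ((a : ℂ) + s * I)‖ ≤
      (6363 / 1000 + |(|s|) - 2 * Real.pi|) *
      (70016 / 10000 + 37183 / 10000 * |(|s|) - 2 * Real.pi|) := by
    gcongr
  refine h6.trans ?_
  set v := |(|s|) - 2 * Real.pi|
  have := exp69 v hv
  nlinarith [sq_nonneg v]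

theorem one_w {a s : ℝ} :
    ‖(fun _ => (1 : ℂ)) ((a : ℂ) + s * I)‖ ≤ 1 * Real.exp (69 / 100 * |(|s|) - 2 * Real.pi|) := by
  have := Real.one_le_exp (show 0 ≤ 69 / 100 * |(|s|) - 2 * Real.pi| by positivity)
  rw [one_mul, norm_one]
  exact this

/-! ### The path -/

theorem pc_ab {x s : ℝ} (hx : 0 ≤ x) (hs : 0 ≤ s) :
    pc (1 + x)⁻¹ (min (137 / 25) (1 + x)) s = ab x s := by
  have h1 : 0 < 1 + x := by linarith
  have hc : 0 < (1 + x)⁻¹ := inv_pos.2 h1
  have hs1 : 0 < min (137 / 25) (1 + x) := lt_min (by norm_num) h1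
  unfold ab
  rcases le_total s (min (137 / 25) (1 + x)) with h | h
  · rw [pc_mid hc (by linarith) h, min_eq_right h, inv_mul_eq_div]
  · rw [pc_right hc hs1 h, min_eq_left h, inv_mul_eq_div]

theorem pc_neg_ab {x s : ℝ} (hx : 0 ≤ x) (hs : 0 ≤ s) :
    pc (1 + x)⁻¹ (min (137 / 25) (1 + x)) (-s) = -ab x s := by
  have h1 : 0 < 1 + x := by linarith
  have hc : 0 < (1 + x)⁻¹ := inv_pos.2 h1
  have hs1 : 0 < min (137 / 25) (1 + x) := lt_min (by norm_num) h1
  unfold ab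
  rcases le_total s (min (137 / 25) (1 + x)) with h | h
  · rw [pc_mid hc (by linarith) (by linarith), min_eq_right h, mul_neg, inv_mul_eq_div]
  · rw [pc_left hc hs1 (by linarith), min_eq_left h, inv_mul_eq_div]

theorem ab_abs {x s : ℝ} (hx : 0 ≤ x) (hs : 0 ≤ s) : |ab x s| ≤ 1 := by
  have h1 : 0 < 1 + x := by linarith
  have hs1 : 0 < min (137 / 25) (1 + x) := lt_min (by norm_num) h1
  unfold ab
  rw [abs_of_nonneg (div_nonneg (le_min hs1.le hs) h1.le), div_le_one h1]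
  exact (min_le_left _ _).trans (min_le_right _ _)

theorem pv_neg (c s1 s : ℝ) : pv c s1 (-s) = pv c s1 s := by
  unfold pv
  rw [abs_neg]

/-- the integrand of `Tls` on the half line of sign `ε` -/
theorem gi_le {x y δ s ε C : ℝ} (hδ : 0 < δ) (hx : 0 ≤ x) (hs : 0 ≤ s) (hε : ε = 1 ∨ ε = -1)
    {w : ℂ → ℂ} (hw : ∀ a t : ℝ, |a| ≤ 1 → ‖w ((a : ℂ) + t * I)‖ ≤
      C * Real.exp (69 / 100 * |(|t|) - 2 * Real.pi|)) :
    ‖gi (1 + x)⁻¹ (min (137 / 25) (1 + x)) w (((x : ℂ) + y * I) / δ) 0 (-((δ : ℂ) * I)) (ε * s)‖ ≤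
      C * jf x y (1 / δ) ε s := by
  have e1 : pc (1 + x)⁻¹ (min (137 / 25) (1 + x)) (ε * s) = ε * ab x s := by
    rcases hε with h | h
    · rw [h, one_mul, one_mul, pc_ab hx hs]
    · rw [h, neg_one_mul, neg_one_mul, pc_neg_ab hx hs]
  have e2 : pv (1 + x)⁻¹ (min (137 / 25) (1 + x)) (ε * s) =
      pv (1 + x)⁻¹ (min (137 / 25) (1 + x)) s := by
    rcases hε with h | h
    · rw [h, one_mul]
    · rw [h, neg_one_mul, pv_neg]
  have e3 : |ε * s| = s := by
    rcases hε with h | h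
    · rw [h, one_mul, abs_of_nonneg hs]
    · rw [h, neg_one_mul, abs_neg, abs_of_nonneg hs]
  have e4 : |ε * ab x s| ≤ 1 := by
    rcases hε with h | h
    · rw [h, one_mul]
      exact ab_abs hx hs
    · rw [h, neg_one_mul, abs_neg]
      exact ab_abs hx hs
  unfold gi pz
  rw [e1, e2, norm_mul, norm_mul, norm_f_K hδ]
  have h1 := hw (ε * ab x s) (ε * s) e4
  rw [e3] at h1
  have h2 : C * jf x y (1 / δ) ε s = ‖pv (1 + x)⁻¹ (min (137 / 25) (1 + x)) s‖ *
      (C * Real.exp (69 / 100 * |s - 2 * Real.pi|) *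
        Real.exp (-(Ha x y (ε * ab x s) (ε * s) / δ))) := by
    unfold jf hq
    rw [sub_eq_add_neg, Real.exp_add]
    have e5 : -(1 / δ * Ha x y (ε * ab x s) (ε * s)) = -(Ha x y (ε * ab x s) (ε * s) / δ) := by
      ring
    rw [e5]
    ring
  rw [h2]
  gcongr

theorem tls_le {r δ y C : ℝ} (hδ : 0 < δ) {w : ℂ → ℂ}
    (hw : ∀ a t : ℝ, |a| ≤ 1 → ‖w ((a : ℂ) + t * I)‖ ≤
      C * Real.exp (69 / 100 * |(|t|) - 2 * Real.pi|))
    (i1 : IntegrableOn (jf (sx (r * δ) y) y (1 / δ) 1) (Ioi (3 / 2)))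
    (i2 : IntegrableOn (jf (sx (r * δ) y) y (1 / δ) (-1)) (Ioi (3 / 2))) :
    Tls r δ y (bs r δ y) w ≤
      C * (JJ (sx (r * δ) y) y (1 / δ) 1 + JJ (sx (r * δ) y) y (1 / δ) (-1)) := by
  have hx := sx_nonneg (r * δ) y
  unfold Tls bs
  have hK : sK (r * δ) y = ((sx (r * δ) y : ℝ) : ℂ) + (y : ℂ) * I := rfl
  rw [hK]
  set x := sx (r * δ) y with hxdef
  set g : ℝ → ℝ := fun s => ‖gi (1 + x)⁻¹ (min (137 / 25) (1 + x)) w (((x : ℂ) + y * I) / δ) 0
    (-((δ : ℂ) * I)) s‖ with hg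
  have hset : {s : ℝ | 3 / 2 ≤ |s|} = Iic (-(3 / 2)) ∪ Ici (3 / 2) := by
    ext s
    simp only [Set.mem_ofPred_eq, mem_union, mem_Iic, mem_Ici, le_abs]
    constructor
    · rintro (h | h)
      · right; exact h
      · left; linarith
    · rintro (h | h)
      · right; linarith
      · left; exact h
  have i1' : IntegrableOn (fun s => C * jf x y (1 / δ) 1 s) (Ici (3 / 2)) :=
    ((integrableOn_Ici_iff_integrableOn_Ioi (by simp)).2 i1).const_mul C
  have i2' : IntegrableOn (fun s => C * jf x y (1 / δ) (-1) (-s)) (Iic (-(3 / 2))) := by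
    have h1 : IntegrableOn (jf x y (1 / δ) (-1)) (Ici (3 / 2)) :=
      (integrableOn_Ici_iff_integrableOn_Ioi (by simp)).2 i2
    have h2 : IntegrableOn (fun s => jf x y (1 / δ) (-1) (-s)) (Iic (-(3 / 2))) := by
      have := h1.comp_neg
      simpa using this
    exact h2.const_mul C
  set B : ℝ → ℝ := fun s => if 0 < s then C * jf x y (1 / δ) 1 s else C * jf x y (1 / δ) (-1) (-s)
    with hB
  have b1 : ∀ s ∈ Ici (3 / 2 : ℝ), B s = C * jf x y (1 / δ) 1 s := by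
    intro s hs
    have : (0 : ℝ) < s := lt_of_lt_of_le (by norm_num) hs
    simp only [hB, if_pos this]
  have b2 : ∀ s ∈ Iic (-(3 / 2) : ℝ), B s = C * jf x y (1 / δ) (-1) (-s) := by
    intro s hs
    have : ¬ (0 : ℝ) < s := not_lt.2 (le_trans hs (by norm_num))
    simp only [hB, if_neg this]
  have j1 : IntegrableOn B (Ici (3 / 2)) := i1'.congr_fun (fun s hs => (b1 s hs).symm)
    measurableSet_Ici
  have j2 : IntegrableOn B (Iic (-(3 / 2))) := i2'.congr_fun (fun s hs => (b2 s hs).symm)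
    measurableSet_Iic
  have hdis : Disjoint (Iic (-(3 / 2) : ℝ)) (Ici (3 / 2)) := by
    rw [Set.disjoint_left]
    intro s h1 h2
    have : (s : ℝ) ≤ -(3 / 2) := h1
    have : (3 / 2 : ℝ) ≤ s := h2
    linarith
  rw [hset]
  have hle : ∫ s in Iic (-(3 / 2)) ∪ Ici (3 / 2), g s ≤ ∫ s in Iic (-(3 / 2)) ∪ Ici (3 / 2), B s := by
    refine integral_mono_of_nonneg (ae_of_all _ fun s => norm_nonneg _) (j2.union j1) ?_
    refine (ae_restrict_iff' (measurableSet_Iic.union measurableSet_Ici)).2 (ae_of_all _ ?_)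
    intro s hs
    rcases hs with h | h
    · rw [b2 s h]
      have hs0 : (0 : ℝ) ≤ -s := by
        have : s ≤ -(3 / 2) := h
        linarith
      have := gi_le (x := x) (y := y) hδ hx hs0 (Or.inr rfl) hw
      rw [neg_one_mul, neg_neg] at this
      exact this
    · rw [b1 s h]
      have hs0 : (0 : ℝ) ≤ s := le_trans (by norm_num) (show (3 / 2 : ℝ) ≤ s from h)
      have := gi_le (x := x) (y := y) hδ hx hs0 (Or.inl rfl) hw
      rw [one_mul] at this
      exact this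
  refine hle.trans (le_of_eq ?_)
  rw [setIntegral_union hdis measurableSet_Ici j2 j1,
    setIntegral_congr_fun measurableSet_Iic b2, setIntegral_congr_fun measurableSet_Ici b1,
    integral_Ici_eq_integral_Ioi, integral_const_mul, integral_const_mul]
  have e : ∫ s in Iic (-(3 / 2) : ℝ), jf x y (1 / δ) (-1) (-s) =
      ∫ s in Ioi (3 / 2 : ℝ), jf x y (1 / δ) (-1) s := by
    have := integral_comp_neg_Iic (-(3 / 2)) (jf x y (1 / δ) (-1))
    rw [this, neg_neg]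
  rw [e]
  unfold JJ
  ring

end SokalV3T
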