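import Pool.Agent.Lib_MP_af4de1_v3.TailH
import Pool.Agent.Lib_MP_af4de1_f1.GLem

/-!
# Tails of regime I: the heights for `x ≥ 3`, `3/2 ≤ s ≤ 137/25` (PTZa, PTZb)

`c = 1/(1+x)`, `X = 1 + x`, `ab x s = c s` for `s ≤ X`, `= 1` for `s ≥ X`.
-/

set_option autoImplicit false

namespace SokalV3T

open Real SokalF1G

/-! ### Numbers -/

theorem tza_em1 : exp (-1) ≤ (3679 / 10000 : ℝ) := em1_hi

theorem tza_emh : exp (-(1 / 2)) ≤ (60678 / 100000 : ℝ) := by
  have h := en_le4 (x := 1 / 2) (by norm_num)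
  norm_num at h ⊢
  linarith

theorem tza_ch1 {a : ℝ} (h0 : 0 ≤ a) (h1 : a ≤ 1) : exp (-a) ≤ 1 - 632 / 1000 * a := by
  have hc := convexOn_exp.2 (Set.mem_univ (0 : ℝ)) (Set.mem_univ (-1 : ℝ))
    (show (0 : ℝ) ≤ 1 - a by linarith) h0 (by ring)
  simp only [smul_eq_mul, exp_zero] at hc
  have e : (1 - a) * 0 + a * -1 = -a := by ring
  rw [e] at hc
  have := mul_le_mul_of_nonneg_left tza_em1 h0
  linarith

theorem tza_ch2 {a : ℝ} (h0 : 1 / 2 ≤ a) (h1 : a ≤ 1) :
    exp (-a) ≤ 3679 / 10000 + 478 / 1000 * (1 - a) := by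
  have hc := convexOn_exp.2 (Set.mem_univ (-(1 / 2) : ℝ)) (Set.mem_univ (-1 : ℝ))
    (show (0 : ℝ) ≤ 2 * (1 - a) by linarith) (show (0 : ℝ) ≤ 2 * a - 1 by linarith) (by ring)
  simp only [smul_eq_mul] at hc
  have e : 2 * (1 - a) * -(1 / 2) + (2 * a - 1) * -1 = -a := by ring
  rw [e] at hc
  have h2 := mul_le_mul_of_nonneg_left tza_em1 (show (0 : ℝ) ≤ 2 * a - 1 by linarith)
  have h3 := mul_le_mul_of_nonneg_left tza_emh (show (0 : ℝ) ≤ 2 * (1 - a) by linarith)
  linarith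

theorem tza_ch3 {a : ℝ} (h0 : 0 ≤ a) (h1 : a ≤ 1 / 2) : exp (-a) ≤ 1 - 786 / 1000 * a := by
  have hc := convexOn_exp.2 (Set.mem_univ (0 : ℝ)) (Set.mem_univ (-(1 / 2) : ℝ))
    (show (0 : ℝ) ≤ 1 - 2 * a by linarith) (show (0 : ℝ) ≤ 2 * a by linarith) (by ring)
  simp only [smul_eq_mul, exp_zero] at hc
  have e : (1 - 2 * a) * 0 + 2 * a * -(1 / 2) = -a := by ring
  rw [e] at hc
  have h3 := mul_le_mul_of_nonneg_left tza_emh (show (0 : ℝ) ≤ 2 * a by linarith)
  linarith

theorem tza_chp {a : ℝ} (h0 : 0 ≤ a) (h1 : a ≤ 1) : exp a ≤ 1 + 1719 / 1000 * a := by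
  have hc := convexOn_exp.2 (Set.mem_univ (0 : ℝ)) (Set.mem_univ (1 : ℝ))
    (show (0 : ℝ) ≤ 1 - a by linarith) h0 (by ring)
  simp only [smul_eq_mul, exp_zero] at hc
  have e : (1 - a) * 0 + a * 1 = a := by ring
  rw [e] at hc
  have he := exp_one_lt_d9
  nlinarith

/-- `cos s ≤ 9/100` for `3/2 ≤ s ≤ 3π/2`. -/
theorem tza_cos {v : ℝ} (h1 : 3 / 2 ≤ v) (h2 : v ≤ 3 * π / 2) : cos v ≤ 9 / 100 := by
  rcases le_total v π with h | h
  · have h3 : cos v ≤ cos (3 / 2) := cos_le_cos_of_nonneg_of_le_pi (by norm_num) h h1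
    have h4 := cos_le4 (x := 3 / 2) (by norm_num)
    norm_num at h4
    linarith
  · have h3 : cos v ≤ 0 := cos_nonpos_of_pi_div_two_le_of_le (by linarith [pi_pos]) (by linarith)
    linarith

/-- `cos s` and `-sin s` for `3π/2 ≤ s ≤ 137/25`, `t = 137/25 - s` -/
theorem tza_end {s t : ℝ} (h1 : 3 * π / 2 ≤ s) (h2 : s ≤ 137 / 25) (ht : t = 137 / 25 - s) :
    0 ≤ cos s ∧ cos s ≤ 695 / 1000 - 7 / 10 * t ∧ 0 ≤ -sin s ∧ -sin s ≤ 72 / 100 + 7 / 10 * t ∧
      0 ≤ t ∧ t ≤ 768 / 1000 := by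
  have hpi := pi_gt_d4
  have hpi2 := pi_lt_d4
  obtain ⟨v, hv⟩ : ∃ v, v = 2 * π - 4 / 5 - s := ⟨_, rfl⟩
  have hv0 : 0 ≤ v := by linarith
  have hv1 : v ≤ 7709 / 10000 := by linarith
  have ec : cos s = cos (4 / 5 + v) := by
    rw [← cos_two_pi_sub s]
    congr 1
    rw [hv]
    ring
  have es : -sin s = sin (4 / 5 + v) := by
    have : sin (4 / 5 + v) = sin (2 * π - s) := by
      congr 1
      rw [hv]
      ring
    rw [this, sin_two_pi_sub]
  have c1 := cos_le4 (x := 4 / 5) (by norm_num)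
  have s1 := sin_ge3 (x := 4 / 5) (by norm_num)
  have s1' := sin_ge7 (x := 4 / 5) (by norm_num)
  have s2 := sin_le5 (x := 4 / 5) (by norm_num)
  have c2 := cos_le4 (x := v) hv0
  have s3 := sin_ge3 (x := v) hv0
  have s4 := sin_le1 (x := v) hv0
  have c3 := cos_le_one v
  have c4 : 0 ≤ cos (4 / 5 : ℝ) := cos_nonneg_of_neg_pi_div_two_le_of_le (by linarith) (by linarith)
  have s5 : 0 ≤ sin (4 / 5 : ℝ) := sin_nonneg_of_nonneg_of_le_pi (by norm_num) (by linarith)
  have s6 : 0 ≤ sin v := sin_nonneg_of_nonneg_of_le_pi hv0 (by linarith)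
  have c5 : 0 ≤ cos v := cos_nonneg_of_neg_pi_div_two_le_of_le (by linarith) (by linarith)
  norm_num at c1 s1' s2
  refine ⟨?_, ?_, ?_, ?_, by linarith, by linarith⟩
  · rw [ec]
    exact cos_nonneg_of_neg_pi_div_two_le_of_le (by linarith) (by linarith)
  · rw [ec, cos_add]
    have h3 : cos (4 / 5) * cos v ≤ 6971 / 10000 * (1 - v ^ 2 / 2 + v ^ 4 / 24) :=
      mul_le_mul (by linarith) c2 c5 (by norm_num)
    have h4 : 7173 / 10000 * (v - v ^ 3 / 6) ≤ sin (4 / 5) * sin v := by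
      have h5 : 0 ≤ v - v ^ 3 / 6 := by nlinarith
      exact mul_le_mul (by linarith) s3 h5 s5
    have h6 : v ^ 4 ≤ v ^ 2 := by nlinarith [sq_nonneg v]
    have h7 : v ^ 3 ≤ 8 / 10 * v ^ 2 := by nlinarith [sq_nonneg v]
    have h8 : t ≤ v - 30 / 10000 := by linarith
    nlinarith [sq_nonneg v]
  · rw [es]
    exact sin_nonneg_of_nonneg_of_le_pi (by linarith) (by linarith)
  · rw [es, sin_add]
    have h3 : sin (4 / 5) * cos v ≤ sin (4 / 5) := mul_le_of_le_one_right s5 c3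
    have h4 : cos (4 / 5) * sin v ≤ 6971 / 10000 * v := mul_le_mul (by linarith) s4 s6 (by norm_num)
    have h8 : v ≤ t + 32 / 10000 := by linarith
    linarith

/-! ### The path -/

theorem tza_un {x s : ℝ} (_ : 0 ≤ x) (hs : s ≤ 137 / 25) (h : s ≤ 1 + x) :
    ab x s = 1 / (1 + x) * s := by
  unfold ab
  rw [min_eq_right (le_min hs h)]
  ring

theorem tza_cl {x s : ℝ} (hx : 0 ≤ x) (hs : s ≤ 137 / 25) (h : 1 + x ≤ s) : ab x s = 1 := by
  unfold ab
  have h1 : min (137 / 25) (1 + x) = 1 + x := min_eq_right (by linarith)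
  rw [h1, min_eq_left h, div_self (by linarith)]

theorem tza_hpos {x y s : ℝ} : hq x y 1 s =
    ab x s * s + x * (1 + ab x s) - y * s - exp (ab x s) * (x * cos s - y * sin s) := by
  unfold hq Ha
  rw [one_mul, one_mul]
  ring

theorem tza_hneg {x y s : ℝ} : hq x y (-1) s =
    ab x s * s + x * (1 - ab x s) + y * s - exp (-ab x s) * (x * cos s + y * sin s) := by
  unfold hq Ha
  rw [neg_one_mul, neg_one_mul, cos_neg, sin_neg]
  ring

/-! ### PTZb -/

theorem ptzb : PTZb := by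
  intro x s hx hs hs2
  have hx0 : 0 ≤ x := by linarith
  have hpi := pi_gt_d4
  have hpi2 := pi_lt_d4
  have hX : 0 < 1 + x := by linarith
  rw [tza_hneg]
  rcases le_total s (1 + x) with h | h
  · rw [tza_un hx0 hs2 h]
    obtain ⟨c, hc⟩ : ∃ c, c = 1 / (1 + x) := ⟨_, rfl⟩
    rw [← hc]
    have hc0 : 0 < c := by rw [hc]; positivity
    have hcX : c * (1 + x) = 1 := by rw [hc]; field_simp
    have ha1 : c * s ≤ 1 := by
      rw [← hcX]
      exact mul_le_mul_of_nonneg_left h hc0.le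
    have ha0 : 0 ≤ c * s := by nlinarith
    have hE0 := exp_pos (-(c * s))
    rcases le_total s (3 * π / 2) with h2 | h2
    · have h3 := tza_cos hs h2
      have hE1 : exp (-(c * s)) ≤ 1 := exp_le_one_iff.2 (by linarith)
      have h4 : exp (-(c * s)) * (x * cos s + 0 * sin s) ≤ x * (9 / 100) := by
        have : exp (-(c * s)) * cos s ≤ 9 / 100 := by nlinarith
        nlinarith
      have h5 : 0 ≤ s ^ 2 + x * (1 + x - s) - 9 / 100 * x * (1 + x) - 21 / 10 * (1 + x) := by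
        nlinarith [sq_nonneg (s - x / 2), mul_nonneg (by linarith : 0 ≤ x - 3) (by linarith : 0 ≤ x - 3)]
      have h6 := mul_nonneg hc0.le h5
      have e : c * (s ^ 2 + x * (1 + x - s) - 9 / 100 * x * (1 + x) - 21 / 10 * (1 + x)) =
          c * s * s + x * (c * (1 + x) - c * s) - 9 / 100 * x * (c * (1 + x)) -
            21 / 10 * (c * (1 + x)) := by ring
      rw [e, hcX] at h6
      linarith
    · obtain ⟨k0, k1, k2, k3, k4, k5⟩ := tza_end h2 hs2 (t := 137 / 25 - s) rfl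
      have hE1 := tza_ch1 ha0 ha1
      have h4 : exp (-(c * s)) * (x * cos s + 0 * sin s) ≤ (1 - 632 / 1000 * (c * s)) * (x * (7 / 10)) := by
        apply mul_le_mul hE1 _ (by nlinarith) (by linarith)
        nlinarith
      have h5 : 0 ≤ s ^ 2 + x * (1 + x - s) - (1 + x - 632 / 1000 * s) * (x * (7 / 10)) -
          21 / 10 * (1 + x) := by
        nlinarith [sq_nonneg (s - x / 2), sq_nonneg (x - 7), sq_nonneg (s - 47 / 10),
          mul_nonneg (by linarith : 0 ≤ x - 3) (by linarith : 0 ≤ s - 47 / 10)]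
      have h6 := mul_nonneg hc0.le h5
      have e : c * (s ^ 2 + x * (1 + x - s) - (1 + x - 632 / 1000 * s) * (x * (7 / 10)) -
          21 / 10 * (1 + x)) =
          c * s * s + x * (c * (1 + x) - c * s) - (c * (1 + x) - 632 / 1000 * (c * s)) * (x * (7 / 10)) -
            21 / 10 * (c * (1 + x)) := by ring
      rw [e, hcX] at h6
      linarith
  · rw [tza_cl hx0 hs2 h]
    have hE0 := exp_pos (-1 : ℝ)
    have hE1 := tza_em1
    have hcs : cos s ≤ 7 / 10 := by
      rcases le_total s (3 * π / 2) with h2 | h2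
      · exact (tza_cos hs h2).trans (by norm_num)
      · obtain ⟨k0, k1, k2, k3, k4, k5⟩ := tza_end h2 hs2 (t := 137 / 25 - s) rfl
        linarith
    have h4 : exp (-1) * (x * cos s + 0 * sin s) ≤ x * (26 / 100) := by
      have : exp (-1) * cos s ≤ 26 / 100 := by nlinarith
      nlinarith
    linarith

/-! ### PTZa -/

theorem ptza : PTZa := by
  intro x s hx hs hs2
  have hx0 : 0 ≤ x := by linarith
  have hpi := pi_gt_d4
  have hpi2 := pi_lt_d4
  have hX : 0 < 1 + x := by linarith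
  obtain ⟨c, hc⟩ : ∃ c, c = 1 / (1 + x) := ⟨_, rfl⟩
  have hc0 : 0 < c := by rw [hc]; positivity
  have hcX : c * (1 + x) = 1 := by rw [hc]; field_simp
  have hy : 8 / 5 / (1 + x) = 8 / 5 * c := by rw [hc]; ring
  have hc4 : c ≤ 1 / 4 := by nlinarith
  have he := exp_one_lt_d9
  have hs1 := neg_one_le_sin s
  rw [tza_hpos, hy]
  rcases le_total s (1 + x) with h | h
  · rw [tza_un hx0 hs2 h, ← hc]
    have ha1 : c * s ≤ 1 := by
      rw [← hcX]
      exact mul_le_mul_of_nonneg_left h hc0.le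
    have ha0 : 0 ≤ c * s := by nlinarith
    have hE0 := exp_pos (c * s)
    have hE1 := tza_chp ha0 ha1
    have hE2 : exp (c * s) ≤ 2719 / 1000 := by linarith
    have hsin : -(exp (c * s) * (8 / 5 * c * sin s)) ≤ 2719 / 1000 * (8 / 5 * c) := by
      have h3 : -(c * sin s) ≤ c := by nlinarith
      have h4 : exp (c * s) * c ≤ 2719 / 1000 * c := mul_le_mul_of_nonneg_right hE2 hc0.le
      have h5 : exp (c * s) * -(c * sin s) ≤ exp (c * s) * c := mul_le_mul_of_nonneg_left h3 hE0.le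
      linarith
    rcases le_total s (3 * π / 2) with h2 | h2
    · have h3 := tza_cos hs h2
      have h4 : exp (c * s) * (x * cos s) ≤ (1 + 1719 / 1000 * (c * s)) * (x * (9 / 100)) := by
        have h5 : exp (c * s) * (x * cos s) ≤ exp (c * s) * (x * (9 / 100)) := by
          apply mul_le_mul_of_nonneg_left _ hE0.le
          exact mul_le_mul_of_nonneg_left h3 hx0
        exact h5.trans (mul_le_mul_of_nonneg_right hE1 (by positivity))
      have h5 : 0 ≤ s ^ 2 + x * (1 + x + s) - 8 / 5 * s -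
          (1 + x + 1719 / 1000 * s) * (x * (9 / 100)) - 2719 / 1000 * (8 / 5) - 22 / 10 * (1 + x) := by
        nlinarith [mul_nonneg (by linarith : 0 ≤ x - 3) (by linarith : 0 ≤ s - 3 / 2),
          mul_nonneg (by linarith : 0 ≤ x - 3) (by linarith : 0 ≤ x - 3),
          mul_nonneg (by linarith : 0 ≤ s - 3 / 2) (by linarith : 0 ≤ s - 3 / 2)]
      have h6 := mul_nonneg hc0.le h5
      have e : c * (s ^ 2 + x * (1 + x + s) - 8 / 5 * s -
          (1 + x + 1719 / 1000 * s) * (x * (9 / 100)) - 2719 / 1000 * (8 / 5) - 22 / 10 * (1 + x)) =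
          c * s * s + x * (c * (1 + x) + c * s) - 8 / 5 * c * s -
          (c * (1 + x) + 1719 / 1000 * (c * s)) * (x * (9 / 100)) - 2719 / 1000 * (8 / 5 * c) -
            22 / 10 * (c * (1 + x)) := by ring
      rw [e, hcX] at h6
      linarith
    · obtain ⟨k0, k1, k2, k3, k4, k5⟩ := tza_end h2 hs2 (t := 137 / 25 - s) rfl
      have h4 : exp (c * s) * (x * cos s) ≤ (1 + 1719 / 1000 * (c * s)) * (x * (7 / 10)) := by
        apply mul_le_mul hE1 _ (by positivity) (by linarith)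
        exact mul_le_mul_of_nonneg_left (by linarith) hx0
      have h5 : 0 ≤ s ^ 2 + x * (1 + x + s) - 8 / 5 * s -
          (1 + x + 1719 / 1000 * s) * (x * (7 / 10)) - 2719 / 1000 * (8 / 5) - 22 / 10 * (1 + x) := by
        nlinarith [sq_nonneg (x - 5), sq_nonneg (s - 47 / 10), mul_nonneg (by linarith : 0 ≤ x - 3)
          (by linarith : 0 ≤ s - 47 / 10), mul_nonneg (by linarith : 0 ≤ x - 3) (by linarith : 0 ≤ 137 / 25 - s)]
      have h6 := mul_nonneg hc0.le h5
      have e : c * (s ^ 2 + x * (1 + x + s) - 8 / 5 * s -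
          (1 + x + 1719 / 1000 * s) * (x * (7 / 10)) - 2719 / 1000 * (8 / 5) - 22 / 10 * (1 + x)) =
          c * s * s + x * (c * (1 + x) + c * s) - 8 / 5 * c * s -
          (c * (1 + x) + 1719 / 1000 * (c * s)) * (x * (7 / 10)) - 2719 / 1000 * (8 / 5 * c) -
            22 / 10 * (c * (1 + x)) := by ring
      rw [e, hcX] at h6
      linarith
  · rw [tza_cl hx0 hs2 h]
    have hE0 := exp_pos (1 : ℝ)
    have hsin : -(exp 1 * (8 / 5 * c * sin s)) ≤ 2719 / 1000 * (8 / 5 * c) := by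
      have h3 : -(c * sin s) ≤ c := by nlinarith
      have h4 : exp 1 * c ≤ 2719 / 1000 * c := mul_le_mul_of_nonneg_right (by linarith) hc0.le
      have h5 : exp 1 * -(c * sin s) ≤ exp 1 * c := mul_le_mul_of_nonneg_left h3 hE0.le
      linarith
    rcases le_total s (3 * π / 2) with h2 | h2
    · have h3 := tza_cos hs h2
      have h4 : exp 1 * (x * cos s) ≤ x * (25 / 100) := by
        have : exp 1 * cos s ≤ 25 / 100 := by nlinarith
        nlinarith
      have h6 : c * s ≤ 137 / 25 * (1 / 4) := by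
        calc c * s ≤ (1 / 4) * (137 / 25) := mul_le_mul hc4 hs2 (by linarith) (by norm_num)
          _ = _ := by ring
      linarith
    · obtain ⟨k0, k1, k2, k3, k4, k5⟩ := tza_end h2 hs2 (t := 137 / 25 - s) rfl
      obtain ⟨t, ht⟩ : ∃ t, t = 137 / 25 - s := ⟨_, rfl⟩
      rw [← ht] at k1 k3 k4 k5
      have h4 : exp 1 * (x * cos s) ≤ 27183 / 10000 * (x * (695 / 1000 - 7 / 10 * t)) := by
        apply mul_le_mul (by linarith) _ (by positivity) (by norm_num)
        exact mul_le_mul_of_nonneg_left k1 hx0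
      have hst : s = 137 / 25 - t := by linarith
      have h5 : 0 ≤ s * (1 + x) + 2 * x * (1 + x) - 8 / 5 * s -
          27183 / 10000 * (x * (695 / 1000 - 7 / 10 * t)) * (1 + x) - 2719 / 1000 * (8 / 5) -
            22 / 10 * (1 + x) := by
        rw [hst]
        nlinarith [mul_nonneg k4 (by linarith : 0 ≤ x - 3), mul_nonneg (by linarith : 0 ≤ x - 3)
          (by linarith : 0 ≤ x - 3), mul_nonneg k4 (mul_nonneg (by linarith : 0 ≤ x - 3)
          (by linarith : 0 ≤ x - 3))]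
      have h6 := mul_nonneg hc0.le h5
      have e : c * (s * (1 + x) + 2 * x * (1 + x) - 8 / 5 * s -
          27183 / 10000 * (x * (695 / 1000 - 7 / 10 * t)) * (1 + x) - 2719 / 1000 * (8 / 5) -
            22 / 10 * (1 + x)) = s * (c * (1 + x)) + 2 * x * (c * (1 + x)) - 8 / 5 * c * s -
          27183 / 10000 * (x * (695 / 1000 - 7 / 10 * t)) * (c * (1 + x)) - 2719 / 1000 * (8 / 5 * c) -
            22 / 10 * (c * (1 + x)) := by ring
      rw [e, hcX] at h6
      linarith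

end SokalV3T
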