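import Pool.Agent.Lib_MP_af4de1_v3.TailQ2
import Pool.Agent.Lib_MP_af4de1_v3.TailSp
import Pool.Agent.Lib_MP_af4de1_v3.TailSm
import Pool.Agent.Lib_MP_af4de1_v3.TailZa
import Pool.Agent.Lib_MP_af4de1_v3.TailF
import Pool.Agent.Lib_MP_af4de1_v3.TailGL
import Pool.Agent.Lib_MP_af4de1_v3.TailGU
import Pool.Agent.Lib_MP_af4de1_v3.TailGR

/-!
# Tails of regime I: half lines
-/

set_option autoImplicit false

namespace SokalV3T

open Real MeasureTheory Set SokalPG

theorem split_137 {x y d ε A B : ℝ}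
    (h1 : IntegrableOn (jf x y d ε) (Ioc (3 / 2) (137 / 25)) ∧
      ∫ s in Ioc (3 / 2 : ℝ) (137 / 25), jf x y d ε s ≤ A)
    (h2 : IntegrableOn (jf x y d ε) (Ioi (137 / 25)) ∧
      ∫ s in Ioi (137 / 25 : ℝ), jf x y d ε s ≤ B) :
    IntegrableOn (jf x y d ε) (Ioi (3 / 2)) ∧ JJ x y d ε ≤ A + B := by
  have hu : Ioi (3 / 2 : ℝ) = Ioc (3 / 2) (137 / 25) ∪ Ioi (137 / 25) :=
    (Ioc_union_Ioi_eq_Ioi (by norm_num)).symm
  refine ⟨by rw [hu]; exact h1.1.union h2.1, ?_⟩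
  unfold JJ
  rw [hu, setIntegral_union (Ioc_disjoint_Ioi le_rfl) measurableSet_Ioi h1.1 h2.1]
  linarith [h1.2, h2.2]

/-- half line with a lump -/
theorem half_lump {x y m d d1 ε z A G0 : ℝ} (hx : 3 ≤ x) (hm0 : 0 ≤ m) (hm1 : m ≤ 53 / 100)
    (hε : ε = 1 ∨ ε = -1) (hd1 : 0 < d1) (hdd : d1 ≤ d) (hμ : 11 / 5 ≤ d1 * (al x - m))
    (hκ : 10 ≤ d1 * (exp (ε * al x) * x))
    (hz : ∀ s, 3 / 2 ≤ s → s ≤ 137 / 25 → z ≤ hq x (ε * m) ε s) (hzd : 3 / 2 ≤ d1 * z)
    (hG : 3 / 2 ≤ G0) (hG1 : G0 ≤ Gq x m d1 ε)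
    (hA : IntegrableOn (jf x (ε * m) d1 ε) (Ioc (3 / 2) (137 / 25)) ∧
      ∫ s in Ioc (3 / 2 : ℝ) (137 / 25), jf x (ε * m) d1 ε s ≤ A)
    (hy : ∀ s, 3 / 2 ≤ s → hq x (ε * m) ε s ≤ hq x y ε s) :
    IntegrableOn (jf x y d ε) (Ioi (3 / 2)) ∧
      d * √d * JJ x y d ε ≤ d1 * √d1 * A +
        69 / 20 * d1 * exp (-G0) / √(exp (ε * al x) * x) := by
  obtain ⟨b1, b2, b3⟩ := big_part hx hm0 hm1 hε hd1 hμ hκ
  obtain ⟨i1, i2⟩ := split_137 hA ⟨b1, b2⟩
  have hred := jj_red (x := x) (y := y) (y' := ε * m) (d := d) (d1 := d1) (ε := ε) hd1 hdd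
    (fun s hs => ⟨hy s hs, by
      rcases le_total s (137 / 25) with h | h
      · have := mul_le_mul_of_nonneg_left (hz s hs h) hd1.le
        linarith
      · linarith [b3 s h]⟩) i1
  refine ⟨hred.1, hred.2.trans ?_⟩
  have hs1 : 0 < √d1 := sqrt_pos.2 hd1
  have hc : 0 < d1 * √d1 := mul_pos hd1 hs1
  have hE : 0 < exp (ε * al x) * x := mul_pos (exp_pos _) (by linarith)
  have e1 : √(exp (ε * al x) * x * d1) = √(exp (ε * al x) * x) * √d1 := sqrt_mul hE.le _
  have hsE : 0 < √(exp (ε * al x) * x) := sqrt_pos.2 hE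
  have h2 : exp (-Gq x m d1 ε) ≤ exp (-G0) := exp_le_exp.2 (by linarith)
  calc d1 * √d1 * JJ x (ε * m) d1 ε
      ≤ d1 * √d1 * (A + 69 / 20 * exp (-Gq x m d1 ε) / √(exp (ε * al x) * x * d1)) := by gcongr
    _ ≤ d1 * √d1 * (A + 69 / 20 * exp (-G0) / √(exp (ε * al x) * x * d1)) := by gcongr
    _ = d1 * √d1 * A + 69 / 20 * d1 * exp (-G0) / √(exp (ε * al x) * x) := by
      rw [e1]
      field_simp

/-- half line without lump -/
theorem half_plain {x y d ε z P : ℝ} (hx : 3 ≤ x) (hdd : 793 / 100 ≤ d)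
    (hz : ∀ s, 3 / 2 ≤ s → s ≤ 137 / 25 → z ≤ hq x 0 ε s) (hz1 : 1 ≤ z) (hP1 : 1 ≤ P)
    (hP : ∀ s, 137 / 25 ≤ s → P + 3 / 5 * (s - 137 / 25) ≤ hq x 0 ε s)
    (hy : ∀ s, 3 / 2 ≤ s → hq x 0 ε s ≤ hq x y ε s) :
    IntegrableOn (jf x y d ε) (Ioi (3 / 2)) ∧
      d * √d * JJ x y d ε ≤ 793 / 100 * √(793 / 100) *
        (41 * exp (-(793 / 100 * z)) + 1 / 2 * exp (-(793 / 100 * P))) := by
  have hd1 : (0 : ℝ) < 793 / 100 := by norm_num
  obtain ⟨i1, i2⟩ := split_137 (ioc_part hx hd1 hz) (plain_part (x := x) (y := 0) (ε := ε) le_rfl hP)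
  have hred := jj_red (x := x) (y := y) (y' := 0) (d := d) (d1 := 793 / 100) (ε := ε) hd1 hdd
    (fun s hs => ⟨hy s hs, by
      rcases le_total s (137 / 25) with h | h
      · linarith [hz s hs h]
      · linarith [hP s h]⟩) i1
  refine ⟨hred.1, hred.2.trans ?_⟩
  gcongr

/-! ### Numbers -/

theorem sqrt793 : √(793 / 100 : ℝ) ≤ 28161 / 10000 := by
  rw [sqrt_le_left (by norm_num)]
  norm_num

/-- `e^(-(n + f)) ≤ q` from `1 ≤ q e^n T(f)` -/
theorem exp_neg_le {g q : ℝ} (n : ℕ) {f T : ℝ} (hg : (n : ℝ) + f ≤ g) (hf : 0 ≤ f)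
    (hT : T ≤ 1 + f + f ^ 2 / 2 + f ^ 3 / 6 + f ^ 4 / 24) (hT0 : 0 ≤ T) (hq : 0 < q)
    (h : 1 ≤ q * ((27182818 / 10000000) ^ n * T)) : exp (-g) ≤ q := by
  have h1 : (27182818 / 10000000 : ℝ) ^ n ≤ exp n := by
    have e : exp (n : ℝ) = exp 1 ^ n := by rw [← exp_nat_mul, mul_one]
    rw [e]
    have := exp_one_gt_d9
    exact pow_le_pow_left₀ (by norm_num) (by linarith) n
  have h2 : 1 + f + f ^ 2 / 2 + f ^ 3 / 6 + f ^ 4 / 24 ≤ exp f := by
    have := Real.sum_le_exp_of_nonneg hf 5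
    norm_num [Finset.sum_range_succ, Nat.factorial] at this
    linarith
  have h3 : (27182818 / 10000000 : ℝ) ^ n * T ≤ exp g := by
    calc (27182818 / 10000000 : ℝ) ^ n * T ≤ exp n * exp f := by
          have := hT.trans h2
          gcongr
      _ = exp (n + f) := by rw [exp_add]
      _ ≤ exp g := exp_le_exp.2 hg
  rw [exp_neg, inv_le_comm₀ (exp_pos g) hq]
  have h4 : 1 / q ≤ exp g := by
    rw [div_le_iff₀ hq]
    calc (1 : ℝ) ≤ q * ((27182818 / 10000000) ^ n * T) := h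
      _ ≤ q * exp g := by gcongr
      _ = exp g * q := by ring
  rwa [one_div] at h4

/-! ### The side without danger, `y ≥ 0` -/

theorem al_le_one {x : ℝ} (hx : 0 ≤ x) : al x ≤ 1 := by
  unfold al
  rw [div_le_one (by linarith)]
  exact min_le_right _ _

theorem al_ge {x : ℝ} (hx : 0 ≤ x) (h : x ≤ 8) : 3 / 5 ≤ al x := by
  unfold al
  rw [le_div_iff₀ (by linarith)]
  refine le_min ?_ ?_
  · linarith
  · linarith

theorem plain_m {x s : ℝ} (hx : 3 ≤ x) (h8 : x ≤ 8) (hs : 137 / 25 ≤ s) :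
    2 + 3 / 5 * (s - 137 / 25) ≤ hq x 0 (-1) s := by
  have h1 := hq_big (x := x) (m := 0) (Or.inr rfl : (-1 : ℝ) = 1 ∨ (-1 : ℝ) = -1) hs
  rw [mul_zero] at h1
  rw [h1]
  have h2 := pb1 hx h8
  have h3 := al_ge (by linarith) h8
  have h4 := exp_pos (-al x)
  have h5 : exp (-1 * al x) = exp (-al x) := by rw [neg_one_mul]
  rw [h5]
  have h6 : exp (-al x) * (x * cos s - 0 * sin s) ≤ exp (-al x) * x := by
    have := cos_le_one s
    have : x * cos s ≤ x := by nlinarith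
    rw [zero_mul, sub_zero]
    gcongr
  nlinarith [mul_nonneg (sub_nonneg.2 h3) (sub_nonneg.2 hs)]

theorem b_side {x y K ρ d : ℝ} (h : RF x y K ρ d) (hx : 3 ≤ x) (hy : 0 ≤ y) :
    IntegrableOn (jf x y d (-1)) (Ioi (3 / 2)) ∧
      d * √d * JJ x y d (-1) ≤ 36 / 1000000 * √x := by
  have hmono : ∀ s, 3 / 2 ≤ s → hq x 0 (-1) s ≤ hq x y (-1) s :=
    fun s hs => hq_mono_m (by linarith) hs hy
  have hsx : 17 / 10 ≤ √x := le_sqrt_of_sq_le (by norm_num; linarith)
  rcases le_total x 8 with h8 | h8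
  · obtain ⟨i1, i2⟩ := half_plain (x := x) (y := y) (d := d) (ε := -1) (z := 21 / 10) (P := 2) hx
      (rf_d h) (fun s h1 h2 => ptzb x s hx h1 h2) (by norm_num) (by norm_num)
      (fun s hs => plain_m hx h8 hs) hmono
    refine ⟨i1, i2.trans ?_⟩
    have e1 : exp (-(793 / 100 * (21 / 10))) ≤ 60 / 1000000000 :=
      exp_neg_le 16 (f := 65 / 100) (T := 19 / 10) (by norm_num) (by norm_num) (by norm_num)
        (by norm_num) (by norm_num) (by norm_num)
    have e2 : exp (-(793 / 100 * 2)) ≤ 132 / 1000000000 :=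
      exp_neg_le 15 (f := 85 / 100) (T := 233 / 100) (by norm_num) (by norm_num) (by norm_num)
        (by norm_num) (by norm_num) (by norm_num)
    have e3 := sqrt793
    calc 793 / 100 * √(793 / 100) *
        (41 * exp (-(793 / 100 * (21 / 10))) + 1 / 2 * exp (-(793 / 100 * 2)))
        ≤ 793 / 100 * (28161 / 10000) * (41 * (60 / 1000000000) + 1 / 2 * (132 / 1000000000)) := by
          gcongr
      _ ≤ 36 / 1000000 * (17 / 10) := by norm_num
      _ ≤ _ := by gcongr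
  · have hx0 : 0 < x := by linarith
    have hd1 : 1231 / 1000 * x ≤ d := by
      have h1 := rf_dL h hy
      have h2 : x * 1 ≤ x * (1 + y) := by gcongr; linarith
      linarith
    have hal := al_big (x := x) (by linarith)
    have hμ : 5 ≤ 1231 / 1000 * x * al x := by
      rw [hal, mul_div_assoc', le_div_iff₀ (by linarith)]
      linarith
    have ha1 := al_le_one hx0.le
    have hE : 1 / 3 ≤ exp (-1 * al x) := by
      have h1 := exp_one_lt_d9
      have h2 : exp (-1) ≤ exp (-1 * al x) := exp_le_exp.2 (by linarith)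
      have h3 : exp (-1) * exp 1 = 1 := by rw [← exp_add]; simp
      have h4 := exp_pos (-1 : ℝ)
      nlinarith
    have hκ : 10 ≤ 1231 / 1000 * x * (exp (-1 * al x) * x) := by
      have h1 : 1 / 3 * x ≤ exp (-1 * al x) * x := by gcongr
      nlinarith
    have hz : ∀ s, 3 / 2 ≤ s → s ≤ 137 / 25 → 21 / 10 ≤ hq x (-1 * 0) (-1) s := by
      intro s h1 h2
      rw [mul_zero]
      exact ptzb x s hx h1 h2
    have hd1p : 0 < 1231 / 1000 * x := by positivity
    obtain ⟨i1, i2⟩ := half_lump (x := x) (y := y) (m := 0) (d := d) (d1 := 1231 / 1000 * x)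
      (ε := -1) (z := 21 / 10) (G0 := 15)
      (A := 41 * exp (-(1231 / 1000 * x * (21 / 10)))) hx le_rfl (by norm_num)
      (Or.inr rfl) hd1p hd1 (by rw [sub_zero]; linarith) hκ hz (by linarith) (by norm_num)
      (gu12 h8) (ioc_part hx hd1p hz) (fun s hs => by rw [mul_zero]; exact hmono s hs)
    refine ⟨i1, i2.trans ?_⟩
    have hd9 : 98 / 10 ≤ 1231 / 1000 * x := by linarith
    have c1 : 1231 / 1000 * x * √(1231 / 1000 * x) * (41 * exp (-(1231 / 1000 * x * (21 / 10)))) ≤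
        1 / 100000 := by
      have h1 := d_mono (d := 1231 / 1000 * x) (d1 := 98 / 10) (h := 21 / 10) (by norm_num) hd9
        (by norm_num)
      have h2 : √(98 / 10 : ℝ) ≤ 32 / 10 := by
        rw [sqrt_le_left (by norm_num)]
        norm_num
      have h3 : exp (-(98 / 10 * (21 / 10))) ≤ 2 / 1000000000 :=
        exp_neg_le 20 (f := 58 / 100) (T := 178 / 100) (by norm_num) (by norm_num) (by norm_num)
          (by norm_num) (by norm_num) (by norm_num)
      calc _ = 41 * (1231 / 1000 * x * √(1231 / 1000 * x) *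
            exp (-(1231 / 1000 * x * (21 / 10)))) := by ring
        _ ≤ 41 * (98 / 10 * √(98 / 10) * exp (-(98 / 10 * (21 / 10)))) := by gcongr
        _ ≤ 41 * (98 / 10 * (32 / 10) * (2 / 1000000000)) := by gcongr
        _ ≤ _ := by norm_num
    have c2 : 69 / 20 * (1231 / 1000 * x) * exp (-15) / √(exp (-1 * al x) * x) ≤
        3 / 1000000 * √x := by
      have hsx0 : 0 < √x := sqrt_pos.2 hx0
      have hsx2 : √x * √x = x := mul_self_sqrt hx0.le
      have h1 : 1 / 2 * √x ≤ √(exp (-1 * al x) * x) := by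
        rw [sqrt_mul (exp_pos _).le]
        have h2 : 1 / 2 ≤ √(exp (-1 * al x)) := le_sqrt_of_sq_le (le_trans (by norm_num) hE)
        gcongr
      have h3 : exp (-15) ≤ 31 / 100000000 :=
        exp_neg_le 15 (f := 0) (T := 1) (by norm_num) (by norm_num) (by norm_num)
          (by norm_num) (by norm_num) (by norm_num)
      rw [div_le_iff₀ (lt_of_lt_of_le (by positivity) h1)]
      calc 69 / 20 * (1231 / 1000 * x) * exp (-15)
          ≤ 69 / 20 * (1231 / 1000 * x) * (31 / 100000000) := by gcongr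
        _ ≤ 3 / 1000000 * √x * (1 / 2 * √x) := by
          have : 3 / 1000000 * √x * (1 / 2 * √x) = 3 / 2000000 * x := by
            calc 3 / 1000000 * √x * (1 / 2 * √x) = 3 / 2000000 * (√x * √x) := by ring
              _ = _ := by rw [hsx2]
          rw [this]
          nlinarith
        _ ≤ _ := by gcongr
    have c3 : 1 / 100000 ≤ 1 / 150000 * √x * (15 / 10) := by
      have : 1 ≤ √x := by linarith
      nlinarith
    nlinarith

end SokalV3T
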