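import Pool.Agent.Lib_MP_af4de1_v3.TailH

/-!
# Tails of regime I, `x ≥ 3`, `y ≤ 0`, `s ≤ 137/25`, left side
-/

set_option autoImplicit false

namespace SokalV3T

open Real SokalF1G

/-! ### Polynomial inequalities -/

theorem zd_A1_1 {x s : ℝ} (hx : 3 ≤ x) (h0 : 3 / 2 ≤ s) (h1 : s ≤ 3927 / 2500) :
    (7 / 5 + 7 / 80 * (137 / 25 - s)) * (1 + x) ≤ s ^ 2 + x * (1 + x - s) - 53 / 100 * s * (1 + x) - (1 + x) * (x * (1.5708 - s) - 53 / 100 * 0.997) := by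
  obtain ⟨u, hu, rfl⟩ : ∃ u, 0 ≤ u ∧ x = 3 + u := ⟨x - 3, by linarith, by ring⟩
  obtain ⟨v, hv, rfl⟩ : ∃ v, 0 ≤ v ∧ s = 3 / 2 + v := ⟨s - 3 / 2, by linarith, by ring⟩
  obtain ⟨w, hw, hwv⟩ : ∃ w, 0 ≤ w ∧ w = 177 / 2500 - v := ⟨_, by linarith, rfl⟩
  have h : 0 ≤ (5256500 / 31329) * w ^ 2 +
      (15039775 / 31329) * v ^ 1 * w ^ 1 +
      (9814604 / 31329) * v ^ 2 +
      (6228250 / 10443) * u ^ 1 * w ^ 2 +
      (53104925 / 41772) * u ^ 1 * v ^ 1 * w ^ 1 +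
      (28191925 / 41772) * u ^ 1 * v ^ 2 +
      (5807500 / 31329) * u ^ 2 * w ^ 2 +
      (12057500 / 31329) * u ^ 2 * v ^ 1 * w ^ 1 +
      (6250000 / 31329) * u ^ 2 * v ^ 2 := by
    positivity
  rw [hwv] at h
  nlinarith [h]

theorem zd_A1_2 {x s : ℝ} (hx : 112 / 25 ≤ x) (h0 : 3 / 2 ≤ s) (h1 : s ≤ 3927 / 2500) :
    (7 / 4 + 7 / 80 * (137 / 25 - s)) * (1 + x) ≤ s ^ 2 + x * (1 + x - s) - 53 / 100 * s * (1 + x) - (1 + x) * (x * (1.5708 - s) - 53 / 100 * 0.997) := by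
  obtain ⟨u, hu, rfl⟩ : ∃ u, 0 ≤ u ∧ x = 112 / 25 + u := ⟨x - 112 / 25, by linarith, by ring⟩
  obtain ⟨v, hv, rfl⟩ : ∃ v, 0 ≤ v ∧ s = 3 / 2 + v := ⟨s - 3 / 2, by linarith, by ring⟩
  obtain ⟨w, hw, hwv⟩ : ∃ w, 0 ≤ w ∧ w = 177 / 2500 - v := ⟨_, by linarith, rfl⟩
  have h : 0 ≤ (33643178 / 31329) * w ^ 2 +
      (305687959 / 125316) * v ^ 1 * w ^ 1 +
      (171240563 / 125316) * v ^ 2 +
      (3743050 / 3481) * u ^ 1 * w ^ 2 +
      (94858525 / 41772) * u ^ 1 * v ^ 1 * w ^ 1 +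
      (49941925 / 41772) * u ^ 1 * v ^ 2 +
      (5807500 / 31329) * u ^ 2 * w ^ 2 +
      (12057500 / 31329) * u ^ 2 * v ^ 1 * w ^ 1 +
      (6250000 / 31329) * u ^ 2 * v ^ 2 := by
    positivity
  rw [hwv] at h
  nlinarith [h]

theorem zd_A2_1 {x s : ℝ} (hx : 3 ≤ x) (h0 : 3 / 2 ≤ s) (h1 : s ≤ 3927 / 2500) :
    (7 / 5 + 7 / 80 * (137 / 25 - s)) * (1 + x) ≤ s ^ 2 + x * (1 + x - s) - 53 / 100 * s * (1 + x) - (1 + x - s) * (x * (1.5708 - s) - 53 / 100 * 0.997) := by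
  obtain ⟨u, hu, rfl⟩ : ∃ u, 0 ≤ u ∧ x = 3 + u := ⟨x - 3, by linarith, by ring⟩
  obtain ⟨v, hv, rfl⟩ : ∃ v, 0 ≤ v ∧ s = 3 / 2 + v := ⟨s - 3 / 2, by linarith, by ring⟩
  obtain ⟨w, hw, hwv⟩ : ∃ w, 0 ≤ w ∧ w = 177 / 2500 - v := ⟨_, by linarith, rfl⟩
  have h : 0 ≤ (9175625 / 125316) * w ^ 2 +
      (279340123 / 1253160) * v ^ 1 * w ^ 1 +
      (185077553 / 1253160) * v ^ 2 +
      (6449500 / 10443) * u ^ 1 * w ^ 2 +
      (54031697 / 41772) * u ^ 1 * v ^ 1 * w ^ 1 +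
      (28191925 / 41772) * u ^ 1 * v ^ 2 +
      (5807500 / 31329) * u ^ 2 * w ^ 2 +
      (12057500 / 31329) * u ^ 2 * v ^ 1 * w ^ 1 +
      (6250000 / 31329) * u ^ 2 * v ^ 2 := by
    positivity
  rw [hwv] at h
  nlinarith [h]

theorem zd_A2_2 {x s : ℝ} (hx : 112 / 25 ≤ x) (h0 : 3 / 2 ≤ s) (h1 : s ≤ 3927 / 2500) :
    (7 / 4 + 7 / 80 * (137 / 25 - s)) * (1 + x) ≤ s ^ 2 + x * (1 + x - s) - 53 / 100 * s * (1 + x) - (1 + x - s) * (x * (1.5708 - s) - 53 / 100 * 0.997) := by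
  obtain ⟨u, hu, rfl⟩ : ∃ u, 0 ≤ u ∧ x = 112 / 25 + u := ⟨x - 112 / 25, by linarith, by ring⟩
  obtain ⟨v, hv, rfl⟩ : ∃ v, 0 ≤ v ∧ s = 3 / 2 + v := ⟨s - 3 / 2, by linarith, by ring⟩
  obtain ⟨w, hw, hwv⟩ : ∃ w, 0 ≤ w ∧ w = 177 / 2500 - v := ⟨_, by linarith, rfl⟩
  have h : 0 ≤ (126651737 / 125316) * w ^ 2 +
      (13878886949 / 6265800) * v ^ 1 * w ^ 1 +
      (1504899023 / 1253160) * v ^ 2 +
      (3816800 / 3481) * u ^ 1 * w ^ 2 +
      (95785297 / 41772) * u ^ 1 * v ^ 1 * w ^ 1 +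
      (49941925 / 41772) * u ^ 1 * v ^ 2 +
      (5807500 / 31329) * u ^ 2 * w ^ 2 +
      (12057500 / 31329) * u ^ 2 * v ^ 1 * w ^ 1 +
      (6250000 / 31329) * u ^ 2 * v ^ 2 := by
    positivity
  rw [hwv] at h
  nlinarith [h]

theorem zd_B1a_1 {x s : ℝ} (hx : 3 ≤ x) (h0 : 157 / 100 ≤ s) (h1 : s ≤ 1309 / 625) :
    (7 / 5 + 7 / 80 * (137 / 25 - s)) * (1 + x) ≤ s ^ 2 + x * (1 + x - s) - 53 / 100 * s * (1 + x) - (1 + x - s) * (-(0.95 * x * (s - 1.5708)) - 0.4558) := by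
  obtain ⟨u, hu, rfl⟩ : ∃ u, 0 ≤ u ∧ x = 3 + u := ⟨x - 3, by linarith, by ring⟩
  obtain ⟨v, hv, rfl⟩ : ∃ v, 0 ≤ v ∧ s = 157 / 100 + v := ⟨s - 157 / 100, by linarith, by ring⟩
  obtain ⟨w, hw, hwv⟩ : ∃ w, 0 ≤ w ∧ w = 1311 / 2500 - v := ⟨_, by linarith, rfl⟩
  have h : 0 ≤ (3500335 / 1718721) * w ^ 2 +
      (457405189 / 34374420) * v ^ 1 * w ^ 1 +
      (80951453 / 8593605) * v ^ 2 +
      (82686205 / 6874884) * u ^ 1 * w ^ 2 +
      (267623917 / 8593605) * u ^ 1 * v ^ 1 * w ^ 1 +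
      (156102236 / 8593605) * u ^ 1 * v ^ 2 +
      (2081750 / 572907) * u ^ 2 * w ^ 2 +
      (5201375 / 572907) * u ^ 2 * v ^ 1 * w ^ 1 +
      (1039875 / 190969) * u ^ 2 * v ^ 2 := by
    positivity
  rw [hwv] at h
  nlinarith [h]

theorem zd_B1a_2 {x s : ℝ} (hx : 112 / 25 ≤ x) (h0 : 157 / 100 ≤ s) (h1 : s ≤ 1309 / 625) :
    (7 / 4 + 7 / 80 * (137 / 25 - s)) * (1 + x) ≤ s ^ 2 + x * (1 + x - s) - 53 / 100 * s * (1 + x) - (1 + x - s) * (-(0.95 * x * (s - 1.5708)) - 0.4558) := by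
  obtain ⟨u, hu, rfl⟩ : ∃ u, 0 ≤ u ∧ x = 112 / 25 + u := ⟨x - 112 / 25, by linarith, by ring⟩
  obtain ⟨v, hv, rfl⟩ : ∃ v, 0 ≤ v ∧ s = 157 / 100 + v := ⟨s - 157 / 100, by linarith, by ring⟩
  obtain ⟨w, hw, hwv⟩ : ∃ w, 0 ≤ w ∧ w = 1311 / 2500 - v := ⟨_, by linarith, rfl⟩
  have h : 0 ≤ (715726529 / 34374420) * w ^ 2 +
      (56145607141 / 859360500) * v ^ 1 * w ^ 1 +
      (8863591532 / 214840125) * v ^ 2 +
      (147879965 / 6874884) * u ^ 1 * w ^ 2 +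
      (476689967 / 8593605) * u ^ 1 * v ^ 1 * w ^ 1 +
      (283676086 / 8593605) * u ^ 1 * v ^ 2 +
      (2081750 / 572907) * u ^ 2 * w ^ 2 +
      (5201375 / 572907) * u ^ 2 * v ^ 1 * w ^ 1 +
      (1039875 / 190969) * u ^ 2 * v ^ 2 := by
    positivity
  rw [hwv] at h
  nlinarith [h]

theorem zd_B1b_1 {x s : ℝ} (hx : 3 ≤ x) (h0 : 1047 / 500 ≤ s) (h1 : s ≤ 3927 / 1250) :
    (7 / 5 + 7 / 80 * (137 / 25 - s)) * (1 + x) ≤ s ^ 2 + x * (1 + x - s) - 53 / 100 * s * (1 + x) - (1 + x - s) * (-(x / 2)) := by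
  obtain ⟨u, hu, rfl⟩ : ∃ u, 0 ≤ u ∧ x = 3 + u := ⟨x - 3, by linarith, by ring⟩
  obtain ⟨v, hv, rfl⟩ : ∃ v, 0 ≤ v ∧ s = 1047 / 500 + v := ⟨s - 1047 / 500, by linarith, by ring⟩
  obtain ⟨w, hw, hwv⟩ : ∃ w, 0 ≤ w ∧ w = 2619 / 2500 - v := ⟨_, by linarith, rfl⟩
  have h : 0 ≤ (3619700 / 2286387) * w ^ 2 +
      (2695435 / 2286387) * v ^ 1 * w ^ 1 +
      (1362122 / 2286387) * v ^ 2 +
      (37940875 / 9145548) * u ^ 1 * w ^ 2 +
      (58923725 / 9145548) * u ^ 1 * v ^ 1 * w ^ 1 +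
      (10491425 / 4572774) * u ^ 1 * v ^ 2 +
      (3125000 / 2286387) * u ^ 2 * w ^ 2 +
      (6250000 / 2286387) * u ^ 2 * v ^ 1 * w ^ 1 +
      (3125000 / 2286387) * u ^ 2 * v ^ 2 := by
    positivity
  rw [hwv] at h
  nlinarith [h]

theorem zd_B1b_2 {x s : ℝ} (hx : 112 / 25 ≤ x) (h0 : 1047 / 500 ≤ s) (h1 : s ≤ 3927 / 1250) :
    (7 / 4 + 7 / 80 * (137 / 25 - s)) * (1 + x) ≤ s ^ 2 + x * (1 + x - s) - 53 / 100 * s * (1 + x) - (1 + x - s) * (-(x / 2)) := by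
  obtain ⟨u, hu, rfl⟩ : ∃ u, 0 ≤ u ∧ x = 112 / 25 + u := ⟨x - 112 / 25, by linarith, by ring⟩
  obtain ⟨v, hv, rfl⟩ : ∃ v, 0 ≤ v ∧ s = 1047 / 500 + v := ⟨s - 1047 / 500, by linarith, by ring⟩
  obtain ⟨w, hw, hwv⟩ : ∃ w, 0 ≤ w ∧ w = 2619 / 2500 - v := ⟨_, by linarith, rfl⟩
  have h : 0 ≤ (246083885 / 27436644) * w ^ 2 +
      (362346559 / 27436644) * v ^ 1 * w ^ 1 +
      (71849659 / 13718322) * v ^ 2 +
      (216072625 / 27436644) * u ^ 1 * w ^ 2 +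
      (381271175 / 27436644) * u ^ 1 * v ^ 1 * w ^ 1 +
      (82599275 / 13718322) * u ^ 1 * v ^ 2 +
      (3125000 / 2286387) * u ^ 2 * w ^ 2 +
      (6250000 / 2286387) * u ^ 2 * v ^ 1 * w ^ 1 +
      (3125000 / 2286387) * u ^ 2 * v ^ 2 := by
    positivity
  rw [hwv] at h
  nlinarith [h]

theorem zd_B2a1_1 {x s : ℝ} (hx : 3 ≤ x) (h0 : 6283 / 2000 ≤ s) (h1 : s ≤ 18 / 5) :
    (7 / 5 + 7 / 80 * (137 / 25 - s)) * (1 + x) ≤ s ^ 2 + x * (1 + x - s) - 53 / 100 * s * (1 + x) - (1 + x - s) * (-2.43) := by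
  obtain ⟨u, hu, rfl⟩ : ∃ u, 0 ≤ u ∧ x = 3 + u := ⟨x - 3, by linarith, by ring⟩
  obtain ⟨v, hv, rfl⟩ : ∃ v, 0 ≤ v ∧ s = 6283 / 2000 + v := ⟨s - 6283 / 2000, by linarith, by ring⟩
  obtain ⟨w, hw, hwv⟩ : ∃ w, 0 ≤ w ∧ w = 917 / 2000 - v := ⟨_, by linarith, rfl⟩
  have h : 0 ≤ (5808889 / 840889) * w ^ 2 +
      (9936000 / 840889) * v ^ 1 * w ^ 1 +
      (4968000 / 840889) * v ^ 2 +
      (12075545 / 840889) * u ^ 1 * w ^ 2 +
      (21505545 / 840889) * u ^ 1 * v ^ 1 * w ^ 1 +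
      (9430000 / 840889) * u ^ 1 * v ^ 2 +
      (4000000 / 840889) * u ^ 2 * w ^ 2 +
      (8000000 / 840889) * u ^ 2 * v ^ 1 * w ^ 1 +
      (4000000 / 840889) * u ^ 2 * v ^ 2 := by
    positivity
  rw [hwv] at h
  nlinarith [h]

theorem zd_B2a1_2 {x s : ℝ} (hx : 112 / 25 ≤ x) (h0 : 6283 / 2000 ≤ s) (h1 : s ≤ 18 / 5) :
    (7 / 4 + 7 / 80 * (137 / 25 - s)) * (1 + x) ≤ s ^ 2 + x * (1 + x - s) - 53 / 100 * s * (1 + x) - (1 + x - s) * (-2.43) := by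
  obtain ⟨u, hu, rfl⟩ : ∃ u, 0 ≤ u ∧ x = 112 / 25 + u := ⟨x - 112 / 25, by linarith, by ring⟩
  obtain ⟨v, hv, rfl⟩ : ∃ v, 0 ≤ v ∧ s = 6283 / 2000 + v := ⟨s - 6283 / 2000, by linarith, by ring⟩
  obtain ⟨w, hw, hwv⟩ : ∃ w, 0 ≤ w ∧ w = 917 / 2000 - v := ⟨_, by linarith, rfl⟩
  have h : 0 ≤ (123851478 / 4204445) * w ^ 2 +
      (219717033 / 4204445) * v ^ 1 * w ^ 1 +
      (20014000 / 840889) * v ^ 2 +
      (22515545 / 840889) * u ^ 1 * w ^ 2 +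
      (42385545 / 840889) * u ^ 1 * v ^ 1 * w ^ 1 +
      (19870000 / 840889) * u ^ 1 * v ^ 2 +
      (4000000 / 840889) * u ^ 2 * w ^ 2 +
      (8000000 / 840889) * u ^ 2 * v ^ 1 * w ^ 1 +
      (4000000 / 840889) * u ^ 2 * v ^ 2 := by
    positivity
  rw [hwv] at h
  nlinarith [h]

theorem zd_B2a2_1 {x s : ℝ} (_hx : 3 ≤ x) (h0 : 18 / 5 ≤ s) (_h1 : s ≤ 453 / 100) :
    (7 / 5 + 7 / 80 * (137 / 25 - s)) * (1 + x) ≤ s ^ 2 + x * (1 + x - s) - 53 / 100 * s * (1 + x) := by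
  nlinarith [sq_nonneg (x - 0.43975 - 0.72125 * s), mul_nonneg (sub_nonneg.2 h0) (sub_nonneg.2 h0)]

theorem zd_B2a2_2 {x s : ℝ} (hx : 112 / 25 ≤ x) (h0 : 18 / 5 ≤ s) (h1 : s ≤ 453 / 100) :
    (7 / 4 + 7 / 80 * (137 / 25 - s)) * (1 + x) ≤ s ^ 2 + x * (1 + x - s) - 53 / 100 * s * (1 + x) := by
  obtain ⟨u, hu, rfl⟩ : ∃ u, 0 ≤ u ∧ x = 112 / 25 + u := ⟨x - 112 / 25, by linarith, by ring⟩
  obtain ⟨v, hv, rfl⟩ : ∃ v, 0 ≤ v ∧ s = 18 / 5 + v := ⟨s - 18 / 5, by linarith, by ring⟩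
  obtain ⟨w, hw, hwv⟩ : ∃ w, 0 ≤ w ∧ w = 93 / 100 - v := ⟨_, by linarith, rfl⟩
  have h : 0 ≤ (4351 / 8649) * w ^ 2 +
      (1144643 / 864900) * v ^ 1 * w ^ 1 +
      (1574443 / 864900) * v ^ 2 +
      (25375 / 8649) * u ^ 1 * w ^ 2 +
      (149339 / 34596) * u ^ 1 * v ^ 1 * w ^ 1 +
      (47839 / 34596) * u ^ 1 * v ^ 2 +
      (10000 / 8649) * u ^ 2 * w ^ 2 +
      (20000 / 8649) * u ^ 2 * v ^ 1 * w ^ 1 +
      (10000 / 8649) * u ^ 2 * v ^ 2 := by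
    positivity
  rw [hwv] at h
  nlinarith [h]

theorem zd_B2b_1 {x s : ℝ} (_hx : 3 ≤ x) (h0 : 453 / 100 ≤ s) (_h1 : s ≤ 377 / 80) :
    (7 / 5 + 7 / 80 * (137 / 25 - s)) * (1 + x) ≤ s ^ 2 + x * (1 + x - s) - 53 / 100 * s * (1 + x) - 53 / 100 * (1 + x - 5 / 8 * s) := by
  nlinarith [sq_nonneg (x - 0.70475 - 0.72125 * s), mul_nonneg (sub_nonneg.2 h0) (sub_nonneg.2 h0)]

theorem zd_B2b_2 {x s : ℝ} (hx : 112 / 25 ≤ x) (h0 : 453 / 100 ≤ s) (h1 : s ≤ 377 / 80) :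
    (7 / 4 + 7 / 80 * (137 / 25 - s)) * (1 + x) ≤ s ^ 2 + x * (1 + x - s) - 53 / 100 * s * (1 + x) - 53 / 100 * (1 + x - 5 / 8 * s) := by
  obtain ⟨u, hu, rfl⟩ : ∃ u, 0 ≤ u ∧ x = 112 / 25 + u := ⟨x - 112 / 25, by linarith, by ring⟩
  obtain ⟨v, hv, rfl⟩ : ∃ v, 0 ≤ v ∧ s = 453 / 100 + v := ⟨s - 453 / 100, by linarith, by ring⟩
  obtain ⟨w, hw, hwv⟩ : ∃ w, 0 ≤ w ∧ w = 73 / 400 - v := ⟨_, by linarith, rfl⟩
  have h : 0 ≤ (682422 / 133225) * w ^ 2 +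
      (6359759 / 266450) * v ^ 1 * w ^ 1 +
      (1052273 / 53290) * v ^ 2 +
      (106556 / 5329) * u ^ 1 * w ^ 2 +
      (170991 / 5329) * u ^ 1 * v ^ 1 * w ^ 1 +
      (64435 / 5329) * u ^ 1 * v ^ 2 +
      (160000 / 5329) * u ^ 2 * w ^ 2 +
      (320000 / 5329) * u ^ 2 * v ^ 1 * w ^ 1 +
      (160000 / 5329) * u ^ 2 * v ^ 2 := by
    positivity
  rw [hwv] at h
  nlinarith [h]

theorem zd_cert {a t : ℝ} (ha : 0 ≤ a) (ha1 : a ≤ 1) (ht : 4 / 5 ≤ t) (ht1 : t ≤ 63 / 40) :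
    0 ≤ (6.2831 - t - 1.9 * a) * (a ^ 2 * (6.2831 - t) + (6.2831 - t - a) *
      (1 - a - (1 - a + a ^ 2 / 2 - a ^ 3 / 6 + a ^ 4 / 24) * (1 - t ^ 2 / 2 + t ^ 4 / 24)) -
      a * (7 / 4 + 7 / 80 * (137 / 25 - (6.2831 - t)))) -
      1.571 * a ^ 2 * ((6.2831 - t) + (1 - a + a ^ 2 / 2 - a ^ 3 / 6 + a ^ 4 / 24) *
      (t - t ^ 3 / 6 + t ^ 5 / 120 + 1 / 10000)) := by
  obtain ⟨b, hb, hba⟩ : ∃ b, 0 ≤ b ∧ b = 1 - a := ⟨_, by linarith, rfl⟩
  obtain ⟨v, hv, hvt⟩ : ∃ v, 0 ≤ v ∧ v = t - 4 / 5 := ⟨_, by linarith, rfl⟩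
  obtain ⟨w, hw, hwt⟩ : ∃ w, 0 ≤ w ∧ w = 63 / 40 - t := ⟨_, by linarith, rfl⟩
  have h : 0 ≤ ((582880291037184 / 13867245015625) * b ^ 6 + (398421057589184 / 2773449003125) * a ^ 1 * b ^ 5 + (7215832692351296 / 41601735046875) * a ^ 2 * b ^ 4 + (1304451264041344 / 13867245015625) * a ^ 3 * b ^ 3 + (1220911074572288 / 41601735046875) * a ^ 4 * b ^ 2 + (1027444625102528 / 124805205140625) * a ^ 5 * b ^ 1 + (9051212602944 / 13867245015625) * a ^ 6) * w ^ 6 +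
      ((4398215487995392 / 13867245015625) * b ^ 6 + (9600128667726976 / 8320347009375) * a ^ 1 * b ^ 5 + (21953355080703616 / 13867245015625) * a ^ 2 * b ^ 4 + (44894258690556416 / 41601735046875) * a ^ 3 * b ^ 3 + (52785115389319232 / 124805205140625) * a ^ 4 * b ^ 2 + (4025462090348288 / 41601735046875) * a ^ 5 * b ^ 1 + (51521878670272 / 13867245015625) * a ^ 6) * v ^ 1 * w ^ 5 +
      ((40053558656930968 / 41601735046875) * b ^ 6 + (30306762442252568 / 8320347009375) * a ^ 1 * b ^ 5 + (74342243197762388 / 13867245015625) * a ^ 2 * b ^ 4 + (503124353717805364 / 124805205140625) * a ^ 3 * b ^ 3 + (212806808039751151 / 124805205140625) * a ^ 4 * b ^ 2 + (46578497981978002 / 124805205140625) * a ^ 5 * b ^ 1 + (157319607587371 / 13867245015625) * a ^ 6) * v ^ 2 * w ^ 4 +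
      ((20870990721308716 / 13867245015625) * b ^ 6 + (16186310709323916 / 2773449003125) * a ^ 1 * b ^ 5 + (372336648039996554 / 41601735046875) * a ^ 2 * b ^ 4 + (98171474022533806 / 13867245015625) * a ^ 3 * b ^ 3 + (257867977336111399 / 83203470093750) * a ^ 4 * b ^ 2 + (83037124698728147 / 124805205140625) * a ^ 5 * b ^ 1 + (500982904863537 / 27734490031250) * a ^ 6) * v ^ 3 * w ^ 3 +
      ((568239734698255477 / 443751840500000) * b ^ 6 + (447471375896562877 / 88750368100000) * a ^ 1 * b ^ 5 + (7033166308604941017 / 887503681000000) * a ^ 2 * b ^ 4 + (17157380845781441867 / 2662511043000000) * a ^ 3 * b ^ 3 + (10170207616572325779 / 3550014724000000) * a ^ 4 * b ^ 2 + (3215531559517650287 / 5325022086000000) * a ^ 5 * b ^ 1 + (49411685541857431 / 3550014724000000) * a ^ 6) * v ^ 4 * w ^ 2 +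
      ((125100008536776147 / 221875920250000) * b ^ 6 + (99403440508293747 / 44375184050000) * a ^ 1 * b ^ 5 + (1585138407995179587 / 443751840500000) * a ^ 2 * b ^ 4 + (3924078893342994937 / 1331255521500000) * a ^ 3 * b ^ 3 + (2335953390680135869 / 1775007362000000) * a ^ 4 * b ^ 2 + (240363939438956019 / 887503681000000) * a ^ 5 * b ^ 1 + (7910835692069191 / 1775007362000000) * a ^ 6) * v ^ 5 * w ^ 1 +
      ((44666263092553893 / 443751840500000) * b ^ 6 + (35658724053908893 / 88750368100000) * a ^ 1 * b ^ 5 + (573077445782984753 / 887503681000000) * a ^ 2 * b ^ 4 + (1427845554889384403 / 2662511043000000) * a ^ 3 * b ^ 3 + (2541114290328296633 / 10650044172000000) * a ^ 4 * b ^ 2 + (84356160376773061 / 1775007362000000) * a ^ 5 * b ^ 1 + (1078999655620179 / 3550014724000000) * a ^ 6) * v ^ 6 := by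
    positivity
  rw [hba, hvt, hwt] at h
  refine h.trans_eq ?_
  ring

theorem zd_u1 {t : ℝ} (ht : 4 / 5 ≤ t) (ht1 : t ≤ 63 / 40) :
    0 ≤ (6.2831 - t) - 0.3679 * (3.864 * (1 - t ^ 2 / 2 + t ^ 4 / 24)) - 0.5301 * ((6.2831 - t) +
      0.3679 * (t - t ^ 3 / 6 + t ^ 5 / 120 + 1 / 10000)) -
      (7 / 5 + 7 / 80 * (137 / 25 - (6.2831 - t))) := by
  obtain ⟨v, hv, hvt⟩ : ∃ v, 0 ≤ v ∧ v = t - 4 / 5 := ⟨_, by linarith, rfl⟩
  obtain ⟨w, hw, hwt⟩ : ∃ w, 0 ≤ w ∧ w = 63 / 40 - t := ⟨_, by linarith, rfl⟩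
  have h : 0 ≤ (9184979299688 / 55916310546875) * w ^ 5 +
      (19185609232792 / 11183262109375) * v ^ 1 * w ^ 4 +
      (71658803170956 / 11183262109375) * v ^ 2 * w ^ 3 +
      (920920768310007 / 89466096875000) * v ^ 3 * w ^ 2 +
      (5239213850179227 / 715728775000000) * v ^ 4 * w ^ 1 +
      (215445863940011001 / 114516604000000000) * v ^ 5 := by
    positivity
  rw [hvt, hwt] at h
  refine h.trans_eq ?_
  ring

theorem zd_u2 {t : ℝ} (ht : 4 / 5 ≤ t) (ht1 : t ≤ 63 / 40) :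
    0 ≤ (6.2831 - t) - 0.3679 * (4.48 * (1 - t ^ 2 / 2 + t ^ 4 / 24)) - 0.438932 * ((6.2831 - t) +
      0.3679 * (t - t ^ 3 / 6 + t ^ 5 / 120 + 1 / 10000)) -
      (7 / 5 + 7 / 80 * (137 / 25 - (6.2831 - t))) := by
  obtain ⟨v, hv, hvt⟩ : ∃ v, 0 ≤ v ∧ v = t - 4 / 5 := ⟨_, by linarith, rfl⟩
  obtain ⟨w, hw, hwt⟩ : ∃ w, 0 ≤ w ∧ w = 63 / 40 - t := ⟨_, by linarith, rfl⟩
  have h : 0 ≤ (6178497240688312 / 4193723291015625) * w ^ 5 +
      (7147500065256008 / 838744658203125) * v ^ 1 * w ^ 4 +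
      (17346724118569844 / 838744658203125) * v ^ 2 * w ^ 3 +
      (56615574575962631 / 2236652421875000) * v ^ 3 * w ^ 2 +
      (272061074124801991 / 17893219375000000) * v ^ 4 * w ^ 1 +
      (10089189351389409833 / 2862915100000000000) * v ^ 5 := by
    positivity
  rw [hvt, hwt] at h
  refine h.trans_eq ?_
  ring

/-! ### Reduction -/

theorem zd_eq (x n s : ℝ) : hq x (-n) (-1) s =
    ab x s * s + x * (1 - ab x s - exp (-ab x s) * cos s) -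
      n * (s - exp (-ab x s) * sin s) := by
  unfold hq SokalF1G.Ha
  rw [neg_one_mul, neg_one_mul, cos_neg, sin_neg]
  ring

theorem zd_ab_lo {x s : ℝ} (h : s ≤ 1 + x) (h2 : s ≤ 137 / 25) : ab x s = s / (1 + x) := by
  unfold ab
  rw [min_eq_right (le_min h2 h)]

theorem zd_ab_hi {x s : ℝ} (hx : 0 ≤ x) (h : 1 + x ≤ s) (h2 : s ≤ 137 / 25) : ab x s = 1 := by
  unfold ab
  rw [min_eq_right (h.trans h2), min_eq_left h, div_self (by linarith)]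

theorem zd_L {E s : ℝ} (hE0 : 0 ≤ E) (hE1 : E ≤ 1) (hs : 3 / 2 ≤ s) : 0 ≤ s - E * sin s := by
  have h2 := mul_le_mul_of_nonneg_left (sin_le_one s) hE0
  linarith

theorem zd_core {κ x n s a E B : ℝ} (hx : 0 ≤ x) (ha : a * (1 + x) = s) (hn : n ≤ 53 / 100)
    (hL : 0 ≤ s - E * sin s)
    (hB : (1 + x) * (E * (x * cos s - 53 / 100 * sin s)) ≤ B)
    (hκ : κ * (1 + x) ≤ s ^ 2 + x * (1 + x - s) - 53 / 100 * s * (1 + x) - B) :
    κ ≤ a * s + x * (1 - a - E * cos s) - n * (s - E * sin s) := by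
  have h1 : 0 < 1 + x := by linarith
  have h2 : κ ≤ a * s + x * (1 - a - E * cos s) - 53 / 100 * (s - E * sin s) := by
    refine le_of_mul_le_mul_right ?_ h1
    refine hκ.trans ?_
    have e : (a * s + x * (1 - a - E * cos s) - 53 / 100 * (s - E * sin s)) * (1 + x) =
        (a * (1 + x)) * s + x * (1 + x - a * (1 + x)) - 53 / 100 * s * (1 + x) -
          (1 + x) * (E * (x * cos s - 53 / 100 * sin s)) := by ring
    rw [e, ha]
    nlinarith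
  have h3 := mul_le_mul_of_nonneg_right hn hL
  linarith

theorem zd_EW {x a s E W w : ℝ} (hx : 0 ≤ x) (ha : a * (1 + x) = s) (hE : 1 - a ≤ E)
    (hE0 : 0 ≤ E) (hW : W ≤ w) (hw : w ≤ 0) : (1 + x) * (E * W) ≤ (1 + x - s) * w := by
  have h1 : E * W ≤ E * w := mul_le_mul_of_nonneg_left hW hE0
  have h2 : E * w ≤ (1 - a) * w := mul_le_mul_of_nonpos_right hE hw
  have h3 := mul_le_mul_of_nonneg_left (h1.trans h2) (by linarith : 0 ≤ 1 + x)
  refine h3.trans_eq ?_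
  rw [← ha]
  ring

/-- `s ≤ 3π/2`, `a = s / (1 + x)` -/
theorem zd_lo {x n s a E : ℝ} (hx : 3 ≤ x) (hn : n ≤ 53 / 100) (hs0 : 3 / 2 ≤ s)
    (hs1 : s ≤ 3 * π / 2) (hsx : s ≤ 1 + x) (ha : a * (1 + x) = s) (hE0 : 0 < E) (hE1 : E ≤ 1)
    (hEa : 1 - a ≤ E) (hE5 : E ≤ 1 - 5 / 8 * a) :
    7 / 5 + 7 / 80 * (137 / 25 - s) ≤
        a * s + x * (1 - a - E * cos s) - n * (s - E * sin s) ∧
      (112 / 25 ≤ x → 7 / 4 + 7 / 80 * (137 / 25 - s) ≤
        a * s + x * (1 - a - E * cos s) - n * (s - E * sin s)) := by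
  have hp1 := pi_gt_d6
  have hp2 := pi_lt_d6
  have hx0 : 0 ≤ x := by linarith
  have hx1 : 0 ≤ 1 + x := by linarith
  have hg : 0 ≤ 1 + x - s := by linarith
  have hL := zd_L hE0.le hE1 hs0
  have key : ∀ B : ℝ, (1 + x) * (E * (x * cos s - 53 / 100 * sin s)) ≤ B →
      ((7 / 5 + 7 / 80 * (137 / 25 - s)) * (1 + x) ≤
        s ^ 2 + x * (1 + x - s) - 53 / 100 * s * (1 + x) - B) →
      (112 / 25 ≤ x → (7 / 4 + 7 / 80 * (137 / 25 - s)) * (1 + x) ≤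
        s ^ 2 + x * (1 + x - s) - 53 / 100 * s * (1 + x) - B) →
      7 / 5 + 7 / 80 * (137 / 25 - s) ≤
        a * s + x * (1 - a - E * cos s) - n * (s - E * sin s) ∧
      (112 / 25 ≤ x → 7 / 4 + 7 / 80 * (137 / 25 - s) ≤
        a * s + x * (1 - a - E * cos s) - n * (s - E * sin s)) :=
    fun B hB h1 h2 => ⟨zd_core hx0 ha hn hL hB h1, fun h => zd_core hx0 ha hn hL hB (h2 h)⟩
  rcases le_total s (π / 2) with hA | hA
  · -- `s ≤ π/2`
    have hc : cos s ≤ 1.5708 - s := by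
      have h := sin_le1 (x := π / 2 - s) (by linarith)
      rw [sin_pi_div_two_sub] at h
      linarith
    have hsn : 0.997 ≤ sin s := by
      have h := cos_ge2 (x := π / 2 - s)
      rw [cos_pi_div_two_sub] at h
      nlinarith
    have hW : x * cos s - 53 / 100 * sin s ≤ x * (1.5708 - s) - 53 / 100 * 0.997 := by
      have := mul_le_mul_of_nonneg_left hc hx0
      linarith
    rcases le_total (x * (1.5708 - s) - 53 / 100 * 0.997) 0 with hw | hw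
    · refine key _ (zd_EW hx0 ha hEa hE0.le hW hw) ?_ fun h => ?_
      · exact zd_A2_1 hx hs0 (by linarith)
      · exact zd_A2_2 h hs0 (by linarith)
    · refine key ((1 + x) * (x * (1.5708 - s) - 53 / 100 * 0.997)) ?_ ?_ fun h => ?_
      · refine mul_le_mul_of_nonneg_left ?_ hx1
        exact (mul_le_mul_of_nonneg_left hW hE0.le).trans (mul_le_of_le_one_left hw hE1)
      · exact zd_A1_1 hx hs0 (by linarith)
      · exact zd_A1_2 h hs0 (by linarith)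
  rcases le_total s (2 * π / 3) with hB | hB
  · -- `π/2 ≤ s ≤ 2π/3`
    obtain ⟨y, hy⟩ : ∃ y, y + π / 2 = s := ⟨s - π / 2, by ring⟩
    have hy0 : 0 ≤ y := by linarith
    have hy1 : y ≤ 0.524 := by linarith
    have hc : cos s ≤ -(0.95 * y) := by
      rw [← hy, cos_add_pi_div_two]
      have h := sin_ge3 hy0
      have h2 : y ^ 2 ≤ 0.3 := by nlinarith
      nlinarith [mul_le_mul_of_nonneg_left h2 hy0]
    have hsn : 0.86 ≤ sin s := by
      rw [← hy, sin_add_pi_div_two]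
      have h := cos_ge2 (x := y)
      nlinarith
    have hW : x * cos s - 53 / 100 * sin s ≤ -(0.95 * x * y) - 0.4558 := by
      have := mul_le_mul_of_nonneg_left hc hx0
      linarith
    have hw : -(0.95 * x * y) - 0.4558 ≤ 0 := by
      have := mul_nonneg hx0 hy0
      linarith
    have hBd : (1 + x) * (E * (x * cos s - 53 / 100 * sin s)) ≤
        (1 + x - s) * (-(0.95 * x * (s - 1.5708)) - 0.4558) := by
      refine (zd_EW hx0 ha hEa hE0.le hW hw).trans (mul_le_mul_of_nonneg_left ?_ hg)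
      have h : s - 1.5708 ≤ y := by linarith
      have := mul_le_mul_of_nonneg_left h hx0
      linarith
    refine key _ hBd ?_ fun h => ?_
    · exact zd_B1a_1 hx (by linarith) (by linarith)
    · exact zd_B1a_2 h (by linarith) (by linarith)
  rcases le_total s π with hC | hC
  · -- `2π/3 ≤ s ≤ π`
    obtain ⟨y, hy⟩ : ∃ y, y + π / 2 = s := ⟨s - π / 2, by ring⟩
    have hc : cos s ≤ -(1 / 2) := by
      rw [← hy, cos_add_pi_div_two]
      have h := sin_le_sin_of_le_of_le_pi_div_two (x := π / 6) (y := y) (by linarith)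
        (by linarith) (by linarith)
      rw [sin_pi_div_six] at h
      linarith
    have hsn : 0 ≤ sin s := sin_nonneg_of_nonneg_of_le_pi (by linarith) hC
    have hW : x * cos s - 53 / 100 * sin s ≤ -(x / 2) := by
      have := mul_le_mul_of_nonneg_left hc hx0
      linarith
    refine key _ (zd_EW hx0 ha hEa hE0.le hW (by linarith)) ?_ fun h => ?_
    · exact zd_B1b_1 hx (by linarith) (by linarith)
    · exact zd_B1b_2 h (by linarith) (by linarith)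
  obtain ⟨φ, hφ⟩ : ∃ φ, φ + π = s := ⟨s - π, by ring⟩
  have hφ0 : 0 ≤ φ := by linarith
  have hφ1 : φ ≤ π / 2 := by linarith
  have hcs : cos s = -cos φ := by rw [← hφ, cos_add_pi]
  have hsn : sin s = -sin φ := by rw [← hφ, sin_add_pi]
  rcases le_total s (18 / 5) with hD | hD
  · -- `π ≤ s ≤ 18/5`
    have hφ2 : φ ≤ 0.459 := by linarith
    have h1 := cos_ge2 (x := φ)
    have h2 := sin_le1 hφ0
    have h3 : 0.894 ≤ cos φ := by nlinarith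
    have hW : x * cos s - 53 / 100 * sin s ≤ -2.43 := by
      rw [hcs, hsn]
      nlinarith
    refine key _ (zd_EW hx0 ha hEa hE0.le hW (by norm_num)) ?_ fun h => ?_
    · exact zd_B2a1_1 hx (by linarith) hD
    · exact zd_B2a1_2 h (by linarith) hD
  rcases le_total s (453 / 100) with hF | hF
  · -- `18/5 ≤ s ≤ 453/100`
    have h1 : 0.179 ≤ cos φ := by
      rw [← sin_pi_div_two_sub]
      have h := sin_le_sin_of_le_of_le_pi_div_two (x := 0.18) (y := π / 2 - φ) (by linarith)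
        (by linarith) (by linarith)
      have h' := sin_ge3 (x := 0.18) (by norm_num)
      norm_num at h' h ⊢
      linarith
    have h2 := sin_le_one φ
    have hW : x * cos s - 53 / 100 * sin s ≤ 0 := by
      rw [hcs, hsn]
      nlinarith
    refine key 0 ?_ ?_ fun h => ?_
    · exact mul_nonpos_of_nonneg_of_nonpos hx1 (mul_nonpos_of_nonneg_of_nonpos hE0.le hW)
    · rw [sub_zero]
      exact zd_B2a2_1 hx hD hF
    · rw [sub_zero]
      exact zd_B2a2_2 h hD hF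
  · -- `453/100 ≤ s ≤ 3π/2`
    have h1 : 0 ≤ cos φ := cos_nonneg_of_neg_pi_div_two_le_of_le (by linarith) hφ1
    have h2 := sin_le_one φ
    have hW : x * cos s - 53 / 100 * sin s ≤ 53 / 100 := by
      rw [hcs, hsn]
      nlinarith [mul_nonneg hx0 h1]
    refine key (53 / 100 * (1 + x - 5 / 8 * s)) ?_ ?_ fun h => ?_
    · have e1 : E * (x * cos s - 53 / 100 * sin s) ≤ (1 - 5 / 8 * a) * (53 / 100) :=
        (mul_le_mul_of_nonneg_left hW hE0.le).trans (mul_le_mul_of_nonneg_right hE5 (by norm_num))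
      refine (mul_le_mul_of_nonneg_left e1 hx1).trans_eq ?_
      rw [← ha]
      ring
    · exact zd_B2b_1 hx hF (by linarith)
    · exact zd_B2b_2 h hF (by linarith)

/-- `cos` and `sin` for `3π/2 ≤ s ≤ 137/25` -/
theorem zd_trig {t s : ℝ} (hs : 6.2831 - t = s) (h0 : 3 * π / 2 ≤ s) (h1 : s ≤ 137 / 25) :
    4 / 5 ≤ t ∧ t ≤ 63 / 40 ∧ 0 ≤ cos s ∧ cos s ≤ 1 - t ^ 2 / 2 + t ^ 4 / 24 ∧
      0 ≤ -sin s ∧ -sin s ≤ t - t ^ 3 / 6 + t ^ 5 / 120 + 1 / 10000 := by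
  have hp1 := pi_gt_d6
  have hp2 := pi_lt_d6
  have ht0 : 4 / 5 ≤ t := by linarith
  have ht1 : t ≤ 63 / 40 := by linarith
  obtain ⟨ε, hε⟩ : ∃ ε, s = 2 * π - (t + ε) := ⟨2 * π - s - t, by ring⟩
  have hε0 : 0 ≤ ε := by linarith
  have hε1 : ε ≤ 1 / 10000 := by linarith
  have hψ : t + ε ≤ π / 2 := by linarith
  have hc : cos s = cos (t + ε) := by rw [hε, cos_two_pi_sub]
  have hsn : -sin s = sin (t + ε) := by rw [hε, sin_two_pi_sub, neg_neg]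
  refine ⟨ht0, ht1, ?_, ?_, ?_, ?_⟩
  · rw [hc]
    exact cos_nonneg_of_neg_pi_div_two_le_of_le (by linarith) hψ
  · rw [hc]
    exact (cos_le_cos_of_nonneg_of_le_pi (by linarith) (by linarith) (by linarith)).trans
      (cos_le4 (by linarith))
  · rw [hsn]
    exact sin_nonneg_of_nonneg_of_le_pi (by linarith) (by linarith)
  · rw [hsn, sin_add]
    have a1 : 0 ≤ sin t := sin_nonneg_of_nonneg_of_le_pi (by linarith) (by linarith)
    have a2 : 0 ≤ cos t := cos_nonneg_of_neg_pi_div_two_le_of_le (by linarith) (by linarith)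
    have a3 := mul_le_mul_of_nonneg_left (cos_le_one ε) a1
    have a4 := mul_le_mul_of_nonneg_left (sin_le1 hε0) a2
    have a5 := mul_le_mul_of_nonneg_right (cos_le_one t) hε0
    have a6 := sin_le5 (x := t) (by linarith)
    linarith

/-- `s ≥ 3π/2`, `a = s / (1 + x)` -/
theorem zd_Clo {x n s a E : ℝ} (hx : 3 ≤ x) (hn0 : 0 ≤ n) (hnx : n * (x - 9 / 10) ≤ 1571 / 1000)
    (hs0 : 3 * π / 2 ≤ s) (hs1 : s ≤ 137 / 25) (ha0 : 0 < a) (ha1 : a ≤ 1)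
    (ha : a * (1 + x) = s) (hE0 : 0 < E) (hE4 : E ≤ 1 - a + a ^ 2 / 2 - a ^ 3 / 6 + a ^ 4 / 24) :
    7 / 4 + 7 / 80 * (137 / 25 - s) ≤
      a * s + x * (1 - a - E * cos s) - n * (s - E * sin s) := by
  obtain ⟨t, ht⟩ : ∃ t, 6.2831 - t = s := ⟨6.2831 - s, by ring⟩
  obtain ⟨ht0, ht1, hc0, hc1, hs2, hs3⟩ := zd_trig ht hs0 hs1
  have c := zd_cert ha0.le ha1 ht0 ht1
  rw [ht] at c
  set C := 1 - t ^ 2 / 2 + t ^ 4 / 24
  set S := t - t ^ 3 / 6 + t ^ 5 / 120 + 1 / 10000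
  set E4 := 1 - a + a ^ 2 / 2 - a ^ 3 / 6 + a ^ 4 / 24
  set κ := 7 / 4 + 7 / 80 * (137 / 25 - s)
  have e : (s - 1.9 * a) * (a ^ 2 * s + (s - a) * (1 - a - E4 * C) - a * κ) -
      1.571 * a ^ 2 * (s + E4 * S) =
      a ^ 2 * ((x - 9 / 10) * (a * s + x * (1 - a - E4 * C) - κ) - 1571 / 1000 * (s + E4 * S)) := by
    have e1 : s - 1.9 * a = a * (x - 9 / 10) := by rw [← ha]; ring
    have e2 : s - a = a * x := by rw [← ha]; ring
    rw [e1, e2]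
    ring
  rw [e] at c
  have c2 : 0 ≤ (x - 9 / 10) * (a * s + x * (1 - a - E4 * C) - κ) - 1571 / 1000 * (s + E4 * S) :=
    nonneg_of_mul_nonneg_right c (by positivity)
  have hx9 : 0 < x - 9 / 10 := by linarith
  have hE40 : 0 ≤ E4 := hE0.le.trans hE4
  have b1 : x * (E * cos s) ≤ x * (E4 * C) :=
    mul_le_mul_of_nonneg_left (mul_le_mul hE4 hc1 hc0 hE40) (by linarith)
  have b2 : E * -sin s ≤ E4 * S := mul_le_mul hE4 hs3 hs2 hE40
  have b3 : 0 ≤ s + E4 * S := by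
    have : 0 ≤ E * -sin s := mul_nonneg hE0.le hs2
    have hp1 := pi_gt_d6
    linarith
  have b4 := mul_le_mul_of_nonneg_right hnx b3
  have b5 : n * (s - E * sin s) ≤ n * (s + E4 * S) :=
    mul_le_mul_of_nonneg_left (by linarith) hn0
  have b6 : 0 ≤ (x - 9 / 10) * (a * s + x * (1 - a - E * cos s) - n * (s - E * sin s) - κ) := by
    have b7 := mul_le_mul_of_nonneg_left (add_le_add b1 b5) hx9.le
    nlinarith
  have b8 := nonneg_of_mul_nonneg_right b6 hx9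
  linarith

/-- `s ≥ 1 + x` -/
theorem zd_hi {x n s E : ℝ} (hx : 3 ≤ x) (hn0 : 0 ≤ n) (hn : n ≤ 53 / 100)
    (hnx : n * (x - 9 / 10) ≤ 1571 / 1000) (hsx : 1 + x ≤ s) (hs1 : s ≤ 137 / 25)
    (hE0 : 0 < E) (hE1 : E ≤ 3679 / 10000) :
    7 / 5 + 7 / 80 * (137 / 25 - s) ≤
      1 * s + x * (1 - 1 - E * cos s) - n * (s - E * sin s) := by
  have hp1 := pi_gt_d6
  have hp2 := pi_lt_d6
  rcases le_total s (3 * π / 2) with hA | hA
  · have hc : cos s ≤ 0 := by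
      have h := cos_nonpos_of_pi_div_two_le_of_le (x := s) (by linarith) (by linarith)
      exact h
    have h1 : 0 ≤ x * (E * -cos s) := by
      refine mul_nonneg (by linarith) (mul_nonneg hE0.le (by linarith))
    have h2 : E * -sin s ≤ 3679 / 10000 :=
      (mul_le_mul_of_nonneg_left (by linarith [neg_one_le_sin s]) hE0.le).trans
        (by linarith : E * 1 ≤ _)
    have h3 : n * (s - E * sin s) ≤ 53 / 100 * (s + 3679 / 10000) :=
      mul_le_mul hn (by linarith) (zd_L hE0.le (by linarith) (by linarith)) (by norm_num)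
    linarith
  · obtain ⟨t, ht⟩ : ∃ t, 6.2831 - t = s := ⟨6.2831 - s, by ring⟩
    obtain ⟨ht0, ht1, hc0, hc1, hs2, hs3⟩ := zd_trig ht hA hs1
    have u1 := zd_u1 ht0 ht1
    have u2 := zd_u2 ht0 ht1
    rw [ht] at u1 u2
    set C := 1 - t ^ 2 / 2 + t ^ 4 / 24
    set S := t - t ^ 3 / 6 + t ^ 5 / 120 + 1 / 10000
    have b0 : E * cos s ≤ 0.3679 * C := mul_le_mul (by linarith) hc1 hc0 (by norm_num)
    have b2 : E * -sin s ≤ 0.3679 * S := mul_le_mul (by linarith) hs3 hs2 (by norm_num)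
    have hC0 : 0 ≤ C := hc0.trans hc1
    have hS0 : 0 ≤ S := hs2.trans hs3
    have b5 : n * (s - E * sin s) ≤ n * (s + 0.3679 * S) :=
      mul_le_mul_of_nonneg_left (by linarith) hn0
    have b6 : x * (E * cos s) ≤ x * (0.3679 * C) := mul_le_mul_of_nonneg_left b0 (by linarith)
    have hQ : 0 ≤ s + 0.3679 * S := by linarith
    rcases le_total x 3.864 with h | h
    · have b7 := mul_le_mul_of_nonneg_right h hC0
      have b8 := mul_le_mul_of_nonneg_right (by linarith : n ≤ 0.5301) hQ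
      linarith
    · have hN : n ≤ 0.5301 - 0.148 * (x - 3.864) := by
        by_contra hcon
        push Not at hcon
        have h4 : x ≤ 4.48 := by linarith
        nlinarith [mul_nonneg (sub_nonneg.2 h) (sub_nonneg.2 h4),
          mul_lt_mul_of_pos_right hcon (by linarith : 0 < x - 9 / 10)]
      have b8 := mul_le_mul_of_nonneg_right hN hQ
      have h4 : x ≤ 4.48 := by linarith
      have b9 := aff (A := s - 0.5301 * (s + 0.3679 * S) -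
        0.148 * 3.864 * (s + 0.3679 * S) - (7 / 5 + 7 / 80 * (137 / 25 - s)))
        (B := 0.148 * (s + 0.3679 * S) - 0.3679 * C) (z0 := 3.864) (z1 := 4.48) (z := x)
        (by linarith) (by linarith) h h4
      linarith

theorem zd_e5 {a : ℝ} (h0 : 0 ≤ a) (h1 : a ≤ 1) : exp (-a) ≤ 1 - 5 / 8 * a := by
  have h := en_le4 h0
  have h2 : 0 ≤ a * ((1 - a) * (3 / 8 - a / 8 + a ^ 2 / 24)) := by
    refine mul_nonneg h0 (mul_nonneg (by linarith) ?_)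
    nlinarith [sq_nonneg a]
  nlinarith

theorem ptzd : PTZd := by
  intro x n s hx hn0 hn hnx hs0 hs1
  rw [zd_eq]
  have hx1 : 0 < 1 + x := by linarith
  have T1 : s ≤ 1 + x → 7 / 5 + 7 / 80 * (137 / 25 - s) ≤
      ab x s * s + x * (1 - ab x s - exp (-ab x s) * cos s) - n * (s - exp (-ab x s) * sin s) ∧
      (112 / 25 ≤ x → 7 / 4 + 7 / 80 * (137 / 25 - s) ≤
      ab x s * s + x * (1 - ab x s - exp (-ab x s) * cos s) -
        n * (s - exp (-ab x s) * sin s)) := by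
    intro h
    rw [zd_ab_lo h hs1]
    have ha0 : 0 < s / (1 + x) := div_pos (by linarith) hx1
    have ha1 : s / (1 + x) ≤ 1 := (div_le_one hx1).2 h
    have ha : s / (1 + x) * (1 + x) = s := div_mul_cancel₀ _ hx1.ne'
    rcases le_total s (3 * π / 2) with hA | hA
    · exact zd_lo hx hn hs0 hA h ha (exp_pos _) (exp_le_one_iff.2 (by linarith)) en_ge1
        (zd_e5 ha0.le ha1)
    · have := zd_Clo hx hn0 hnx hA hs1 ha0 ha1 ha (exp_pos _) (en_le4 ha0.le)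
      exact ⟨by linarith, fun _ => this⟩
  refine ⟨?_, fun h => (T1 (by linarith)).2 h⟩
  rcases le_total s (1 + x) with h | h
  · exact (T1 h).1
  · rw [zd_ab_hi (by linarith) h hs1]
    exact zd_hi hx hn0 hn hnx h hs1 (exp_pos _) em1_hi

end SokalV3T
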