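import Pool.Agent.Lib_MP_af4de1_v3.TailX
import Pool.Agent.Lib_MP_af4de1_v3.TailZd

/-!
# Tails of regime I: half lines, `y ≤ 0`
-/

set_option autoImplicit false

namespace SokalV3T

open Real MeasureTheory Set SokalPG

theorem pp3y {v : ℝ} (h1 : 12 / 100 ≤ v) (h2 : v ≤ 73 / 400) :
    0 ≤ 137 / 25 * (137 / 25 * v) + (1 - v) * v * (-(137 / 25) ^ 2 / 2 - (137 / 25) ^ 3 * v / 6 -
      (137 / 25) ^ 4 * v ^ 2 / 24 - (137 / 25) ^ 5 * v ^ 3 / 100) - 79 / 50 := by
  have h : ∀ s r : ℝ, 0 ≤ s → 0 ≤ r → 0 ≤ 60801514947084550144 / 2384185791015625 * r ^ 5 +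
      422275017407572025344 / 476837158203125 * s * r ^ 4 +
      4607362497610549963264 / 1430511474609375 * s ^ 2 * r ^ 3 +
      6582754046282216234464 / 1430511474609375 * s ^ 3 * r ^ 2 +
      1409574619127891754694 / 476837158203125 * s ^ 4 * r +
      6820392408953191370201 / 9536743164062500 * s ^ 5 := by
    intro s r hs hr
    positivity
  refine (h (v - 12 / 100) (73 / 400 - v) (by linarith) (by linarith)).trans (le_of_eq ?_)
  ring

theorem exp_up5 {t : ℝ} (h0 : 0 ≤ t) (h1 : t ≤ 1) :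
    exp t ≤ 1 + t + t ^ 2 / 2 + t ^ 3 / 6 + t ^ 4 / 24 + t ^ 5 / 100 := by
  have ha : |t| ≤ 1 := by rw [abs_of_nonneg h0]; exact h1
  have e1 := Real.exp_bound ha (n := 5) (by norm_num)
  rw [abs_of_nonneg h0] at e1
  have e2 := (abs_le.1 e1).2
  norm_num [Finset.sum_range_succ, Nat.factorial] at e2
  linarith

theorem pb3y {x : ℝ} (h : 3 ≤ x) (h' : x ≤ 73 / 10) :
    79 / 50 ≤ 137 / 25 * al x + x * (1 + al x - exp (al x)) := by
  have hx0 : 0 < x := by linarith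
  rcases le_total x (112 / 25) with h1 | h1
  · rw [al_small hx0.le h1]
    have h2 := mul_le_mul_of_nonneg_left Real.exp_one_lt_d9.le hx0.le
    linarith
  · have h0 : 0 < 1 + x := by linarith
    obtain ⟨v, hv⟩ : ∃ v, v = 1 / (1 + x) := ⟨_, rfl⟩
    have hv0 : 0 < v := by rw [hv]; positivity
    have hal : al x = 137 / 25 * v := by
      rw [al_big h1, hv]
      ring
    have hxv : x = (1 - v) / v := by
      rw [hv]
      field_simp
      ring
    have hlo : 12 / 100 ≤ v := by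
      rw [hv, le_div_iff₀ h0]
      linarith
    have hhi : v ≤ 73 / 400 := by
      rw [hv, div_le_iff₀ h0]
      linarith
    have hhi' : v ≤ 25 / 137 := by
      rw [hv, div_le_iff₀ h0]
      linarith
    rw [hal]
    have hU := exp_up5 (t := 137 / 25 * v) (by positivity) (by linarith)
    have h2 := mul_le_mul_of_nonneg_left hU hx0.le
    have h3 := pp3y hlo hhi
    have h4 : x * (1 + 137 / 25 * v - (1 + 137 / 25 * v + (137 / 25 * v) ^ 2 / 2 + (137 / 25 * v) ^ 3 / 6 +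
        (137 / 25 * v) ^ 4 / 24 + (137 / 25 * v) ^ 5 / 100)) = (1 - v) * v * (-(137 / 25) ^ 2 / 2 -
        (137 / 25) ^ 3 * v / 6 - (137 / 25) ^ 4 * v ^ 2 / 24 - (137 / 25) ^ 5 * v ^ 3 / 100) := by
      rw [hxv]
      field_simp
      ring
    linarith

theorem hq0_p {x s : ℝ} (hx : 3 ≤ x) (hs : 137 / 25 ≤ s) (h8 : x ≤ 8) :
    137 / 25 * al x + x * (1 + al x - exp (al x)) + 3 / 5 * (s - 137 / 25) ≤ hq x 0 1 s := by
  have h1 := hq_big (x := x) (m := 0) (Or.inl rfl : (1 : ℝ) = 1 ∨ (1 : ℝ) = -1) hs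
  rw [mul_zero] at h1
  rw [h1]
  have h3 := al_ge (by linarith) h8
  have h4 := exp_pos (al x)
  rw [one_mul]
  have h6 : exp (al x) * (x * cos s - 0 * sin s) ≤ exp (al x) * x := by
    have := cos_le_one s
    have : x * cos s ≤ x := by nlinarith
    rw [zero_mul, sub_zero]
    gcongr
  nlinarith [mul_nonneg (sub_nonneg.2 h3) (sub_nonneg.2 hs)]

theorem za0 {x s : ℝ} (hx : 3 ≤ x) (h1 : 3 / 2 ≤ s) (h2 : s ≤ 137 / 25) : 11 / 5 ≤ hq x 0 1 s :=
  (ptza x s hx h1 h2).trans (hq_mono_p hx h1 (by positivity))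

/-- `√x`-form of the lump term -/
theorem lump_le {E x B c τ : ℝ} (hE : 0 < E) (hx : 0 < x) (hB : B ^ 2 ≤ E * x ^ 2)
    (hτ : 0 ≤ τ) (h : c ≤ τ * B) : c / √(E * x) ≤ τ * √x := by
  have h1 : 0 < √(E * x) := sqrt_pos.2 (by positivity)
  rw [div_le_iff₀ h1]
  have h2 : √x * √(E * x) = √(E * x ^ 2) := by
    rw [← sqrt_mul hx.le]
    congr 1
    ring
  have h3 : B ≤ √(E * x ^ 2) := le_sqrt_of_sq_le hB
  calc c ≤ τ * B := h
    _ ≤ τ * √(E * x ^ 2) := by gcongr
    _ = τ * √x * √(E * x) := by rw [mul_assoc, h2]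

theorem e_446 : exp (-(793 / 100 * (11 / 5))) ≤ 266 / 10000000000 :=
  exp_neg_le 17 (f := 446 / 1000) (T := 1561 / 1000) (by norm_num) (by norm_num) (by norm_num)
    (by norm_num) (by norm_num) (by norm_num)

theorem c_side1 {x y K ρ d : ℝ} (h : RF x y K ρ d) (hx : 3 ≤ x) (hy : y ≤ 0) (h7 : x ≤ 73 / 10) :
    IntegrableOn (jf x y d 1) (Ioi (3 / 2)) ∧ d * √d * JJ x y d 1 ≤ 66 / 1000000 := by
  obtain ⟨i1, i2⟩ := half_plain (x := x) (y := y) (d := d) (ε := 1) (z := 11 / 5) (P := 79 / 50) hx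
      (rf_d h) (fun s h1 h2 => za0 hx h1 h2) (by norm_num) (by norm_num)
      (fun s hs => by linarith [pb3y hx h7, hq0_p hx hs (by linarith)])
      (fun s hs => hq_mono_p hx hs hy)
  refine ⟨i1, i2.trans ?_⟩
  have e1 := e_446
  have e2 : exp (-(793 / 100 * (79 / 50))) ≤ 3625 / 1000000000 :=
    exp_neg_le 12 (f := 529 / 1000) (T := 1696 / 1000) (by norm_num) (by norm_num) (by norm_num)
      (by norm_num) (by norm_num) (by norm_num)
  have e3 := sqrt793
  calc 793 / 100 * √(793 / 100) *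
        (41 * exp (-(793 / 100 * (11 / 5))) + 1 / 2 * exp (-(793 / 100 * (79 / 50))))
      ≤ 793 / 100 * (28161 / 10000) * (41 * (266 / 10000000000) + 1 / 2 * (3625 / 1000000000)) := by
        gcongr
    _ ≤ 66 / 1000000 := by norm_num

theorem c_side2 {x y K ρ d : ℝ} (h : RF x y K ρ d) (hx : 3 ≤ x) (hy : y ≤ 0) (h8 : x ≤ 8) :
    IntegrableOn (jf x y d 1) (Ioi (3 / 2)) ∧ d * √d * JJ x y d 1 ≤ 139 / 1000000 := by
  obtain ⟨i1, i2⟩ := half_plain (x := x) (y := y) (d := d) (ε := 1) (z := 11 / 5) (P := 29 / 20) hx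
      (rf_d h) (fun s h1 h2 => za0 hx h1 h2) (by norm_num) (by norm_num)
      (fun s hs => by linarith [pb2 hx h8, hq0_p hx hs (by linarith)])
      (fun s hs => hq_mono_p hx hs hy)
  refine ⟨i1, i2.trans ?_⟩
  have e1 := e_446
  have e2 : exp (-(793 / 100 * (29 / 20))) ≤ 1017 / 100000000 :=
    exp_neg_le 11 (f := 498 / 1000) (T := 1643 / 1000) (by norm_num) (by norm_num) (by norm_num)
      (by norm_num) (by norm_num) (by norm_num)
  have e3 := sqrt793
  calc 793 / 100 * √(793 / 100) *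
        (41 * exp (-(793 / 100 * (11 / 5))) + 1 / 2 * exp (-(793 / 100 * (29 / 20))))
      ≤ 793 / 100 * (28161 / 10000) * (41 * (266 / 10000000000) + 1 / 2 * (1017 / 100000000)) := by
        gcongr
    _ ≤ 139 / 1000000 := by norm_num

/-- inner part for `d1 ≥ d0` -/
theorem inner_le {d1 d0 z A s0 q C : ℝ} (h0 : 0 < d0) (h : d0 ≤ d1) (hz : 3 / 2 ≤ d0 * z)
    (hA : 0 ≤ A) (hs : √d0 ≤ s0) (hq : exp (-(d0 * z)) ≤ q) (hC : A * (d0 * s0 * q) ≤ C) :
    d1 * √d1 * (A * exp (-(d1 * z))) ≤ C := by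
  have h1 := d_mono h0 h hz
  have hq0 : 0 < q := (exp_pos _).trans_le hq
  have hs0 : 0 ≤ s0 := (sqrt_nonneg _).trans hs
  calc d1 * √d1 * (A * exp (-(d1 * z))) = A * (d1 * √d1 * exp (-(d1 * z))) := by ring
    _ ≤ A * (d0 * √d0 * exp (-(d0 * z))) := by gcongr
    _ ≤ A * (d0 * s0 * q) := by gcongr
    _ ≤ C := hC

theorem c_side3 {x y K ρ d : ℝ} (h : RF x y K ρ d) (hy : y ≤ 0) (h8 : 8 ≤ x) :
    IntegrableOn (jf x y d 1) (Ioi (3 / 2)) ∧ d * √d * JJ x y d 1 ≤ 26 / 1000000 * √x := by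
  have hx : 3 ≤ x := by linarith
  have hx0 : 0 < x := by linarith
  have hd1 := rf_dR h hy
  have hal := al_big (x := x) (by linarith)
  have hd1p : 79 / 10 ≤ 1231 / 1000 * (x - 1571 / 1000) := by linarith
  have hμ : 11 / 5 ≤ 1231 / 1000 * (x - 1571 / 1000) * (al x - 0) := by
    rw [hal, sub_zero, mul_div_assoc', le_div_iff₀ (by linarith)]
    linarith
  have ha0 := al_pos hx0.le
  have hE : 1 ≤ exp (1 * al x) := one_le_exp (by linarith)
  have hκ : 10 ≤ 1231 / 1000 * (x - 1571 / 1000) * (exp (1 * al x) * x) := by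
    have h1 : 1 * x ≤ exp (1 * al x) * x := by gcongr
    nlinarith
  have hz : ∀ s, 3 / 2 ≤ s → s ≤ 137 / 25 → 11 / 5 ≤ hq x (1 * 0) 1 s := by
    intro s h1 h2
    rw [mul_zero]
    exact za0 hx h1 h2
  obtain ⟨i1, i2⟩ := half_lump (x := x) (y := y) (m := 0) (d := d)
    (d1 := 1231 / 1000 * (x - 1571 / 1000)) (ε := 1) (z := 11 / 5) (G0 := 25 / 2)
    (A := 41 * exp (-(1231 / 1000 * (x - 1571 / 1000) * (11 / 5)))) hx le_rfl (by norm_num)
    (Or.inl rfl) (by linarith) hd1 hμ hκ hz (by linarith) (by norm_num)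
    (gu13 h8) (ioc_part hx (by linarith) hz)
    (fun s hs => by rw [mul_zero]; exact hq_mono_p hx hs hy)
  refine ⟨i1, i2.trans ?_⟩
  have hsx : 28 / 10 ≤ √x := le_sqrt_of_sq_le (by norm_num; linarith)
  have c1 := inner_le (d1 := 1231 / 1000 * (x - 1571 / 1000)) (d0 := 79 / 10) (z := 11 / 5)
    (A := 41) (s0 := 2811 / 1000) (q := 284 / 10000000000) (C := 26 / 1000000) (by norm_num) hd1p
    (by norm_num) (by norm_num) (by rw [sqrt_le_left (by norm_num)]; norm_num)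
    (exp_neg_le 17 (f := 38 / 100) (T := 1462 / 1000) (by norm_num) (by norm_num) (by norm_num)
      (by norm_num) (by norm_num) (by norm_num)) (by norm_num)
  have e2 : exp (-(25 / 2)) ≤ 3728 / 1000000000 :=
    exp_neg_le 12 (f := 5 / 10) (T := 16484 / 10000) (by norm_num) (by norm_num) (by norm_num)
      (by norm_num) (by norm_num) (by norm_num)
  have c2 : 69 / 20 * (1231 / 1000 * (x - 1571 / 1000)) * exp (-(25 / 2)) / √(exp (1 * al x) * x) ≤
      16 / 1000000 * √x := by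
    refine lump_le (B := x) (exp_pos _) hx0 ?_ (by norm_num) ?_
    · have : 0 ≤ x ^ 2 := sq_nonneg x
      nlinarith
    · calc 69 / 20 * (1231 / 1000 * (x - 1571 / 1000)) * exp (-(25 / 2))
          ≤ 69 / 20 * (1231 / 1000 * (x - 1571 / 1000)) * (3728 / 1000000000) := by
            have : 0 ≤ x - 1571 / 1000 := by linarith
            gcongr
        _ ≤ 16 / 1000000 * x := by linarith
  linarith

end SokalV3T
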